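import Pool.Agent.Lib.MP_4952d6_mp.Pk.G06

/-! Merged modules (to save import time): HardCore, L2. -/

/-! ### HardCore -/

section

set_option autoImplicit false
set_option linter.unusedSectionVars false
set_option linter.unusedVariables false
open MeasureTheory Function Filter Topology AddCircle ComplexConjugate

namespace Pool.Agent.Lib.MP_4952d6_mp

variable {ι : Type*} [Fintype ι] [DecidableEq ι]

/-- Set the momenta of `j` and `l` to zero. -/
def pr (j l : ι) (k : ι → Fin 3 → ℤ) : ι → Fin 3 → ℤ := update (update k j 0) l 0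

lemma pr_of_ne {j l i : ι} (hj : i ≠ j) (hl : i ≠ l) (k : ι → Fin 3 → ℤ) : pr j l k i = k i := by
  simp [pr, update_of_ne hl, update_of_ne hj]

lemma pr_left {j l : ι} (hjl : j ≠ l) (k : ι → Fin 3 → ℤ) : pr j l k j = 0 := by
  simp [pr, update_of_ne hjl]

lemma pr_right {j l : ι} (k : ι → Fin 3 → ℤ) : pr j l k l = 0 := by
  simp [pr]

/-! ### Fourier coefficients of a function of a difference -/

lemma piN_left_inv : (piN ι).IsAddLeftInvariant := (piN_haar ι).toIsAddLeftInvariant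

lemma J_translate (h : T3 → ℂ) (j l : ι) (m : ι → Fin 3 → ℤ) (t : ι → T3) (ht : t j = t l) :
    ∫ x, chN m x * h (x j - x l) ∂(piN ι)
      = chN m t * ∫ x, chN m x * h (x j - x l) ∂(piN ι) := by
  have := piN_left_inv (ι := ι)
  conv_lhs => rw [← integral_add_left_eq_self (μ := piN ι) (fun x => chN m x * h (x j - x l)) t]
  rw [← integral_const_mul]
  congr 1; ext x
  rw [chN_add_arg, Pi.add_apply, Pi.add_apply, ht, add_sub_add_left_eq_sub]
  ring

lemma J_zero_other (h : T3 → ℂ) {j l i : ι} (hj : i ≠ j) (hl : i ≠ l) (m : ι → Fin 3 → ℤ)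
    (hm : m i ≠ 0) : ∫ x, chN m x * h (x j - x l) ∂(piN ι) = 0 := by
  obtain ⟨s, hs⟩ := exists_ch_eq_neg_one hm
  have := J_translate h j l m (Pi.single i s) (by
    rw [Pi.single_eq_of_ne hj.symm, Pi.single_eq_of_ne hl.symm])
  rw [chN_single, hs] at this
  linear_combination this / 2

lemma J_zero_sum (h : T3 → ℂ) {j l : ι} (hjl : j ≠ l) (m : ι → Fin 3 → ℤ)
    (hm : m j + m l ≠ 0) : ∫ x, chN m x * h (x j - x l) ∂(piN ι) = 0 := by
  obtain ⟨s, hs⟩ := exists_ch_eq_neg_one hm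
  have := J_translate h j l m (Pi.single j s + Pi.single l s) (by
    simp [Pi.single_eq_of_ne hjl, Pi.single_eq_of_ne hjl.symm])
  rw [chN_add_arg, chN_single, chN_single, ← ch_add, hs] at this
  linear_combination this / 2

lemma J_eq {h : T3 → ℂ} (hh : StronglyMeasurable h) {j l : ι} (hjl : j ≠ l) (m : ι → Fin 3 → ℤ)
    (hm : m j + m l = 0) (hm' : ∀ i, i ≠ j → i ≠ l → m i = 0) :
    ∫ x, chN m x * h (x j - x l) ∂(piN ι) = ∫ y, ch (m j) y * h y ∂lam3 := by
  rw [← mp_integral (mp_diff hjl) (f := fun y => ch (m j) y * h y)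
    ((ch_continuous _).stronglyMeasurable.mul hh).aestronglyMeasurable]
  congr 1; ext x
  congr 1
  have hml : m l = - m j := by
    rw [eq_neg_iff_add_eq_zero, add_comm]; exact hm
  rw [sub_eq_add_neg, ch_add_arg, ch_neg_arg, ← ch_neg, ← hml]
  simp only [chN]
  rw [← Finset.mul_prod_erase Finset.univ _ (Finset.mem_univ j),
    ← Finset.mul_prod_erase (Finset.univ.erase j) _ (Finset.mem_erase.2 ⟨hjl.symm, Finset.mem_univ l⟩)]
  rw [Finset.prod_eq_one (fun i hi => ?_), mul_one]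
  rw [Finset.mem_erase, Finset.mem_erase] at hi
  rw [hm' i hi.2.1 hi.1, ch_zero]

/-- Fourier coefficients of `h (x_j - x_l) Φ` when `Φ` does not depend on `x_j` and `x_l`. -/
theorem fc_mul_diff {h : T3 → ℝ} (hh : BM h) {j l : ι} (hjl : j ≠ l) {Φ : (ι → T3) → ℂ}
    (hΦ : MemLp Φ 2 (piN ι)) (hΦ0 : ∀ k, ¬ (k j = 0 ∧ k l = 0) → fc Φ k = 0)
    (k : ι → Fin 3 → ℤ) :
    fc (fun x => (h (x j - x l) : ℂ) * Φ x) k
      = if k j + k l = 0 then fc3 (fun y => (h y : ℂ)) (k j) * fc Φ (pr j l k) else 0 := by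
  obtain ⟨C, hC0, hC⟩ := hh.exists_nonneg_bound
  have hsm : StronglyMeasurable (fun y => (h y : ℂ)) :=
    Complex.continuous_ofReal.comp_stronglyMeasurable hh.1.stronglyMeasurable
  have hdiff : Measurable (fun x : ι → T3 => x j - x l) := (mp_diff hjl).measurable
  set Ψ : (ι → T3) → ℂ := fun x => chN k x * (h (x j - x l) : ℂ) with hΨ
  have hΨm : StronglyMeasurable Ψ := (chN_sm k).mul (hsm.comp_measurable hdiff)
  have hΨL : MemLp Ψ 2 (piN ι) := by
    refine MemLp.of_bound hΨm.aestronglyMeasurable C (Eventually.of_forall fun x => ?_)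
    rw [hΨ]; simp only [norm_mul, chN_norm, one_mul, Complex.norm_real]
    exact hC _
  have hP := parseval hΨL hΦ
  have e1 : ∫ x, conj (Ψ x) * Φ x ∂(piN ι) = fc (fun x => (h (x j - x l) : ℂ) * Φ x) k := by
    unfold fc
    congr 1; ext x
    simp only [hΨ, map_mul, Complex.conj_ofReal]
    ring
  have e2 : ∀ q, fc Ψ q = ∫ x, chN (k - q) x * (h (x j - x l) : ℂ) ∂(piN ι) := by
    intro q
    unfold fc
    congr 1; ext x
    rw [sub_eq_add_neg, chN_add, chN_neg]
    simp only [hΨ]; ring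
  rw [e1] at hP
  have e3 : ∀ q, q ≠ pr j l k → conj (fc Ψ q) * fc Φ q = 0 := by
    intro q hq
    by_cases hq0 : q j = 0 ∧ q l = 0
    · obtain ⟨i, hi⟩ := Function.ne_iff.1 hq
      have hij : i ≠ j := by
        rintro rfl
        rw [pr_left hjl] at hi; exact hi hq0.1
      have hil : i ≠ l := by
        rintro rfl
        rw [pr_right] at hi; exact hi hq0.2
      rw [pr_of_ne hij hil] at hi
      rw [e2, J_zero_other (fun y => (h y : ℂ)) hij hil (k - q)
        (by simpa [sub_eq_zero] using fun h => hi h.symm)]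
      simp
    · rw [hΦ0 q hq0, mul_zero]
  have h4 : HasSum (fun q => conj (fc Ψ q) * fc Φ q)
      (conj (fc Ψ (pr j l k)) * fc Φ (pr j l k)) := hasSum_single _ e3
  rw [hP.unique h4]
  have hprj : (k - pr j l k) j = k j := by rw [Pi.sub_apply, pr_left hjl, sub_zero]
  have hprl : (k - pr j l k) l = k l := by rw [Pi.sub_apply, pr_right, sub_zero]
  split_ifs with hk
  · congr 1
    rw [e2, J_eq hsm hjl _ (by rw [hprj, hprl]; exact hk)
      (fun i hi hi' => by rw [Pi.sub_apply, pr_of_ne hi hi', sub_self]), hprj]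
    unfold fc3
    rw [← integral_conj]
    congr 1; ext y
    simp
  · rw [e2, J_zero_sum (fun y => (h y : ℂ)) hjl _ (by rw [hprj, hprl]; exact hk)]
    simp

/-! ### Riesz-Fischer -/

def uncurryHom (ι : Type*) : (ι → T3) →+ (ι × Fin 3 → UnitAddCircle) where
  toFun x q := x q.1 q.2
  map_zero' := rfl
  map_add' _ _ := rfl

lemma mp_uncurry (ι : Type*) [Fintype ι] :
    MeasurePreserving (uncurryHom ι) (piN ι) (Measure.pi fun _ => haarAddCircle) := by
  have := borel_config ι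
  have := piN_haar ι
  refine AddMonoidHom.measurePreserving (f := uncurryHom ι) ?_ ?_ ?_
  · refine continuous_pi fun q => ?_
    exact (continuous_apply q.2).comp (continuous_apply q.1)
  · intro x
    exact ⟨fun i α => x (i, α), rfl⟩
  · rw [measure_univ, measure_univ]

theorem exists_of_l2 (a : (ι → Fin 3 → ℤ) → ℂ) (ha : Summable fun k => ‖a k‖ ^ 2) :
    ∃ Φ : (ι → T3) → ℂ, MemLp Φ 2 (piN ι) ∧ ∀ k, fc Φ k = a k := by
  set a' : (ι × Fin 3 → ℤ) → ℂ := fun k => a (fun i α => k (i, α)) with ha'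
  have hs' : Summable fun k => ‖a' k‖ ^ 2 :=
    (Equiv.summable_iff (Equiv.curry ι (Fin 3) ℤ) (f := fun k => ‖a k‖ ^ 2)).2 ha
  have hmem : Memℓp a' 2 := by
    rw [memℓp_gen_iff (by norm_num)]
    simpa using hs'
  obtain ⟨f, hfL, hf⟩ : ∃ f : (ι × Fin 3 → UnitAddCircle) → ℂ,
      MemLp f 2 (Measure.pi fun _ => haarAddCircle) ∧ ∀ k : ι × Fin 3 → ℤ,
      ∫ x, conj (UnitAddTorus.mFourier k x) * f x ∂(Measure.pi fun _ => haarAddCircle) = a' k := by
    set F := (UnitAddTorus.mFourierBasis (d := ι × Fin 3)).repr.symm ⟨a', hmem⟩ with hF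
    refine ⟨F, Lp.memLp F, fun k => ?_⟩
    have h1 := UnitAddTorus.mFourierBasis_repr F k
    rw [hF, LinearIsometryEquiv.apply_symm_apply] at h1
    have h2 : a' k = UnitAddTorus.mFourierCoeff F k := h1
    rw [h2]
    refine integral_congr_ae (Eventually.of_forall fun x => ?_)
    simp only [UnitAddTorus.mFourier_neg, smul_eq_mul]
  have hu := mp_uncurry ι
  refine ⟨fun x => f (uncurryHom ι x), hfL.comp_measurePreserving hu, fun k => ?_⟩
  have h3 := hf (fun q => k q.1 q.2)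
  have h4 : a' (fun q => k q.1 q.2) = a k := rfl
  rw [← h4, ← h3]
  unfold fc
  rw [← mp_integral hu (f := fun x => conj (UnitAddTorus.mFourier (fun q : ι × Fin 3 => k q.1 q.2) x)
    * f x) ((Complex.continuous_conj.comp
      (UnitAddTorus.mFourier _).continuous).aestronglyMeasurable.mul hfL.1)]
  congr 1; ext x
  congr 2
  simp only [UnitAddTorus.mFourier, ContinuousMap.coe_mk, chN, ch, uncurryHom, AddMonoidHom.coe_mk,
      ZeroHom.coe_mk]
  rw [Fintype.prod_prod_type]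

/-- Reindexing of a sum over momenta with `k_j + k_l = 0`. -/
lemma pair_reindex (u : (ι → Fin 3 → ℤ) → ENNReal) (w : (Fin 3 → ℤ) → ENNReal) {j l : ι}
    (hjl : j ≠ l) :
    ∑' k, (if k j + k l = 0 then w (k j) * u (pr j l k) else 0)
      ≤ (∑' p, w p) * ∑' k, (if k j = 0 ∧ k l = 0 then u k else 0) := by
  set F : (ι → Fin 3 → ℤ) → ENNReal := fun k =>
    if k j + k l = 0 then w (k j) * u (pr j l k) else 0 with hF
  set G : (ι → Fin 3 → ℤ) × (Fin 3 → ℤ) → ENNReal := fun q =>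
    w q.2 * (if q.1 j = 0 ∧ q.1 l = 0 then u q.1 else 0) with hG
  set D : Set (ι → Fin 3 → ℤ) := {k | k j + k l = 0} with hD
  have hsupp : Function.support F ⊆ D := by
    intro k hk
    rw [Function.mem_support] at hk
    by_contra hkD
    apply hk
    simp only [hF]
    rw [if_neg]
    exact hkD
  have h1 : ∑' k, F k = ∑' k : D, F k := (tsum_subtype_eq_of_support_subset hsupp).symm
  set φ : D → (ι → Fin 3 → ℤ) × (Fin 3 → ℤ) := fun k => (pr j l k, (k : ι → Fin 3 → ℤ) j) with hφ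
  have hinj : Function.Injective φ := by
    rintro ⟨k, hk⟩ ⟨k', hk'⟩ h
    simp only [hφ, Prod.mk.injEq] at h
    obtain ⟨h1, h2⟩ := h
    apply Subtype.ext
    change k = k'
    ext1 i
    by_cases hi : i = j
    · rw [hi]; exact h2
    by_cases hi' : i = l
    · rw [hi']
      have e1 : k j + k l = 0 := hk
      have e2 : k' j + k' l = 0 := hk'
      have : k j + k l = k' j + k' l := by rw [e1, e2]
      rw [h2] at this
      exact add_left_cancel this
    · have := congrFun h1 i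
      rwa [pr_of_ne hi hi', pr_of_ne hi hi'] at this
  have h2 : ∀ k : D, F k = G (φ k) := by
    rintro ⟨k, hk⟩
    simp only [hF, hG, hφ]
    have e1 : k j + k l = 0 := hk
    simp only [e1, if_true, pr_left hjl, pr_right, and_self]
  rw [h1]
  simp_rw [h2]
  refine (ENNReal.tsum_comp_le_tsum_of_injective hinj _).trans ?_
  simp only [hG]
  rw [ENNReal.tsum_prod' (f := fun q : (ι → Fin 3 → ℤ) × (Fin 3 → ℤ) =>
    w q.2 * (if q.1 j = 0 ∧ q.1 l = 0 then u q.1 else 0))]
  simp only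
  simp_rw [ENNReal.tsum_mul_right]
  rw [ENNReal.tsum_mul_left]

lemma bm_sm {h : T3 → ℝ} (hh : BM h) : StronglyMeasurable (fun y => (h y : ℂ)) :=
  Complex.continuous_ofReal.comp_stronglyMeasurable hh.1.stronglyMeasurable

lemma memLp_mul_diff {h : T3 → ℝ} (hh : BM h) {j l : ι} (hjl : j ≠ l) {Φ : (ι → T3) → ℂ}
    (hΦ : MemLp Φ 2 (piN ι)) : MemLp (fun x => (h (x j - x l) : ℂ) * Φ x) 2 (piN ι) := by
  obtain ⟨C, hC0, hC⟩ := hh.exists_nonneg_bound
  have hdiff : Measurable (fun x : ι → T3 => x j - x l) := (mp_diff hjl).measurable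
  refine hΦ.of_le_mul (c := C) (((bm_sm hh).comp_measurable hdiff).aestronglyMeasurable.mul hΦ.1)
      (Eventually.of_forall fun x => ?_)
  rw [norm_mul, Complex.norm_real]
  exact mul_le_mul_of_nonneg_right (hC _) (norm_nonneg _)

lemma bm_memLp3 {h : T3 → ℝ} (hh : BM h) : MemLp (fun y => (h y : ℂ)) 2 lam3 := by
  obtain ⟨C, hC0, hC⟩ := hh.exists_nonneg_bound
  refine MemLp.of_bound (bm_sm hh).aestronglyMeasurable C (Eventually.of_forall fun x => ?_)
  rw [Complex.norm_real]; exact hC x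

/-- Norm of `h(x_j - x_l) Φ` for `Φ` independent of `x_j, x_l`. -/
lemma norm_mul_diff {h : T3 → ℝ} (hh : BM h) {j l : ι} (hjl : j ≠ l) {Φ : (ι → T3) → ℂ}
    (hΦ : MemLp Φ 2 (piN ι)) (hΦ0 : ∀ k, ¬ (k j = 0 ∧ k l = 0) → fc Φ k = 0) :
    ∫ x, ‖(h (x j - x l) : ℂ) * Φ x‖ ^ 2 ∂(piN ι)
      ≤ (∫ y, h y ^ 2 ∂lam3) * ∫ x, ‖Φ x‖ ^ 2 ∂(piN ι) := by
  have h1 := parseval_sq (memLp_mul_diff hh hjl hΦ)
  have h2 := parseval_sq hΦ
  have h3 := parseval3_sq (bm_memLp3 hh)
  have e3 : ∫ y, ‖(h y : ℂ)‖ ^ 2 ∂lam3 = ∫ y, h y ^ 2 ∂lam3 := by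
    congr 1; ext y; rw [Complex.norm_real, Real.norm_eq_abs, sq_abs]
  rw [e3] at h3
  have hR : 0 ≤ (∫ y, h y ^ 2 ∂lam3) * ∫ x, ‖Φ x‖ ^ 2 ∂(piN ι) :=
    mul_nonneg (integral_nonneg fun _ => sq_nonneg _) (integral_nonneg fun _ => sq_nonneg _)
  rw [← ENNReal.ofReal_le_ofReal_iff hR, ENNReal.ofReal_mul (integral_nonneg fun _ => sq_nonneg _)]
  rw [← h1.tsum_eq, ← h2.tsum_eq, ← h3.tsum_eq,
    ENNReal.ofReal_tsum_of_nonneg (fun _ => sq_nonneg _) h1.summable,
    ENNReal.ofReal_tsum_of_nonneg (fun _ => sq_nonneg _) h2.summable,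
    ENNReal.ofReal_tsum_of_nonneg (fun _ => sq_nonneg _) h3.summable]
  have e4 : ∀ k, ENNReal.ofReal (‖fc (fun x => (h (x j - x l) : ℂ) * Φ x) k‖ ^ 2)
      = if k j + k l = 0 then ENNReal.ofReal (‖fc3 (fun y => (h y : ℂ)) (k j)‖ ^ 2)
        * ENNReal.ofReal (‖fc Φ (pr j l k)‖ ^ 2) else 0 := by
    intro k
    rw [fc_mul_diff hh hjl hΦ hΦ0]
    split_ifs
    · rw [norm_mul, mul_pow, ENNReal.ofReal_mul (sq_nonneg _)]
    · simp
  simp_rw [e4]
  refine (pair_reindex (fun k => ENNReal.ofReal (‖fc Φ k‖ ^ 2))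
    (fun p => ENNReal.ofReal (‖fc3 (fun y => (h y : ℂ)) p‖ ^ 2)) hjl).trans ?_
  refine mul_le_mul_right (ENNReal.tsum_le_tsum fun k => ?_) _
  split_ifs
  · exact le_rfl
  · exact zero_le

/-- **Pair test inequality** in Fourier space. `W` is half the pair potential, `f` the pair
function, `hc` an arbitrary charge supported in the hard core. -/
theorem pair_test {W f hc : T3 → ℝ} (hW : BM W) (hW0 : ∀ y, 0 ≤ W y) (hf : BM f) (hhc : BM hc)
    {j l : ι} (hjl : j ≠ l) {ψ : (ι → T3) → ℂ}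
    (hψ : MemLp ψ 2 (piN ι)) (hcore : ∀ᵐ x ∂(piN ι), (hc (x j - x l) : ℂ) * ψ x = 0) :
    ∃ z : ℂ, HasSum (fun k => conj (fc ψ k) * (if k j + k l = 0 then
      fc3 (fun y => ((W y * f y + hc y : ℝ) : ℂ)) (k j) * fc ψ (pr j l k) else 0)) z ∧
      2 * z.re ≤ ∫ x, W (x j - x l) * ‖ψ x‖ ^ 2 ∂(piN ι)
        + (∫ y, W y * f y ^ 2 ∂lam3) * ∑' k, (if k j = 0 ∧ k l = 0 then ‖fc ψ k‖ ^ 2 else 0) := by
  have hs := (parseval_sq hψ).summable
  obtain ⟨Φ, hΦ, hΦc⟩ := exists_of_l2 (fun k => if k j = 0 ∧ k l = 0 then fc ψ k else 0) (by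
    refine Summable.of_nonneg_of_le (fun k => sq_nonneg _) (fun k => ?_) hs
    split_ifs
    · exact le_rfl
    · simp)
  set h : T3 → ℝ := fun y => W y * f y + hc y with hh
  have hhB : BM h := (hW.mul hf).add hhc
  have hP := parseval hψ (memLp_mul_diff hhB hjl hΦ)
  have e2 : ∀ k, fc (fun x => (h (x j - x l) : ℂ) * Φ x) k = if k j + k l = 0 then
      fc3 (fun y => (h y : ℂ)) (k j) * fc ψ (pr j l k) else 0 := by
    intro k
    rw [fc_mul_diff hhB hjl hΦ (fun q hq => by rw [hΦc, if_neg hq])]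
    rw [hΦc (pr j l k)]
    simp only [pr_left hjl, pr_right, and_self, if_true]
  simp_rw [e2] at hP
  refine ⟨_, hP, ?_⟩
  -- remove the core part
  have e1 : ∫ x, conj (ψ x) * ((h (x j - x l) : ℂ) * Φ x) ∂(piN ι)
      = ∫ x, conj (ψ x) * (((W (x j - x l) * f (x j - x l) : ℝ) : ℂ) * Φ x) ∂(piN ι) := by
    refine integral_congr_ae ?_
    filter_upwards [hcore] with x hx
    have h0 : conj ((hc (x j - x l) : ℂ) * ψ x) = 0 := by rw [hx]; simp
    rw [map_mul, Complex.conj_ofReal] at h0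
    simp only [hh]
    push_cast
    linear_combination Φ x * h0
  rw [e1]
  -- square root of W
  set v : T3 → ℝ := fun y => Real.sqrt (W y) with hv
  have hvB : BM v := by
    obtain ⟨C, hC0, hC⟩ := hW.exists_nonneg_bound
    refine ⟨hW.1.sqrt, Real.sqrt C, fun y => ?_⟩
    rw [abs_of_nonneg (Real.sqrt_nonneg _)]
    exact Real.sqrt_le_sqrt ((le_abs_self _).trans (hC y))
  have hvv : ∀ y, v y * v y = W y := fun y => Real.mul_self_sqrt (hW0 y)
  have m1 := memLp_mul_diff hvB hjl hψ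
  have m2 := memLp_mul_diff (hvB.mul hf) hjl hΦ
  -- pointwise inequality
  have hpt : ∀ x, 2 * (conj (ψ x) * (((W (x j - x l) * f (x j - x l) : ℝ) : ℂ) * Φ x)).re
      ≤ ‖(v (x j - x l) : ℂ) * ψ x‖ ^ 2 + ‖((v (x j - x l) * f (x j - x l) : ℝ) : ℂ) * Φ x‖ ^ 2 := by
    intro x
    have e3 : conj (ψ x) * (((W (x j - x l) * f (x j - x l) : ℝ) : ℂ) * Φ x)
        = conj ((v (x j - x l) : ℂ) * ψ x)
          * (((v (x j - x l) * f (x j - x l) : ℝ) : ℂ) * Φ x) := by
      rw [← hvv, map_mul, Complex.conj_ofReal]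
      push_cast; ring
    rw [e3]
    set p := (v (x j - x l) : ℂ) * ψ x
    set q := ((v (x j - x l) * f (x j - x l) : ℝ) : ℂ) * Φ x
    have h4 : (conj p * q).re ≤ ‖p‖ * ‖q‖ := by
      refine (Complex.re_le_norm _).trans (le_of_eq ?_)
      simp
    nlinarith [sq_nonneg (‖p‖ - ‖q‖)]
  have i1 : Integrable (fun x => ‖(v (x j - x l) : ℂ) * ψ x‖ ^ 2) (piN ι) := m1.integrable_norm_pow (by norm_num)
  have i2 : Integrable (fun x => ‖((v (x j - x l) * f (x j - x l) : ℝ) : ℂ) * Φ x‖ ^ 2) (piN ι) :=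
    m2.integrable_norm_pow (by norm_num)
  have i3 : Integrable (fun x => conj (ψ x) * (((W (x j - x l) * f (x j - x l) : ℝ) : ℂ) * Φ x))
      (piN ι) := by
    have m3 := memLp_mul_diff (hW.mul hf) hjl hΦ
    have m4 : MemLp (fun x => conj (ψ x)) 2 (piN ι) := hψ.star
    exact m4.integrable_mul m3
  have i3r := i3.re
  have e5 : (∫ x, conj (ψ x) * (((W (x j - x l) * f (x j - x l) : ℝ) : ℂ) * Φ x) ∂(piN ι)).re
      = ∫ x, (conj (ψ x) * (((W (x j - x l) * f (x j - x l) : ℝ) : ℂ) * Φ x)).re ∂(piN ι) :=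
    (integral_re i3).symm
  rw [e5, ← integral_const_mul]
  refine (integral_mono (i3r.const_mul 2) (i1.add i2) hpt).trans ?_
  have e6 : ∫ x, (‖(v (x j - x l) : ℂ) * ψ x‖ ^ 2
      + ‖((v (x j - x l) * f (x j - x l) : ℝ) : ℂ) * Φ x‖ ^ 2) ∂(piN ι)
      = ∫ x, ‖(v (x j - x l) : ℂ) * ψ x‖ ^ 2 ∂(piN ι)
        + ∫ x, ‖((v (x j - x l) * f (x j - x l) : ℝ) : ℂ) * Φ x‖ ^ 2 ∂(piN ι) :=
    integral_add i1 i2
  refine e6.le.trans ?_
  refine add_le_add (le_of_eq ?_) ?_
  · congr 1; ext x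
    rw [norm_mul, mul_pow, Complex.norm_real, Real.norm_eq_abs, sq_abs, sq, hvv]
  · refine (norm_mul_diff (hvB.mul hf) hjl hΦ (fun q hq => by rw [hΦc, if_neg hq])).trans
      (le_of_eq ?_)
    congr 1
    · congr 1; ext y
      rw [mul_pow, sq (v y), hvv]
    · rw [← (parseval_sq hΦ).tsum_eq]
      congr 1; ext k
      rw [hΦc]
      split_ifs <;> simp

end Pool.Agent.Lib.MP_4952d6_mp

end

/-! ### L2 -/

section

set_option autoImplicit false
set_option linter.unusedSectionVars false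
set_option linter.unusedVariables false
open MeasureTheory Function Filter Topology ComplexConjugate
open scoped ENNReal

namespace Pool.Agent.Lib.MP_4952d6_mp

variable {ι : Type*} [Fintype ι] [DecidableEq ι]

lemma W_bound (u : (ι → Fin 3 → ℤ) → ℝ≥0∞) (w : (Fin 3 → ℤ) → ℝ≥0∞) (A ws : ℝ≥0∞)
    (hA : ∑' p, (if p = 0 then 0 else w p) ≤ A) (hw : ∀ p, p ≠ 0 → w p ≤ ws)
    {j l : ι} (hjl : j ≠ l) :
    ∑' k, (if k j ≠ 0 ∧ k j + k l = 0 then
        w (k j) * (1 + ∑ i ∈ (Finset.univ.erase j).erase l, (if k j + k i = 0 then 1 else 0))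
          * u (pr j l k) else 0)
      ≤ A * (∑' k, if k j = 0 ∧ k l = 0 then u k else 0)
        + ws * ∑ i, ∑' k, (if k i ≠ 0 then u k else 0) := by
  set R : Finset ι := (Finset.univ.erase j).erase l with hR
  set F : (ι → Fin 3 → ℤ) → ℝ≥0∞ := fun k => if k j ≠ 0 ∧ k j + k l = 0 then
        w (k j) * (1 + ∑ i ∈ R, (if k j + k i = 0 then 1 else 0))
          * u (pr j l k) else 0 with hF
  set G : (ι → Fin 3 → ℤ) → (Fin 3 → ℤ) → ℝ≥0∞ := fun K p =>
    if K j = 0 ∧ K l = 0 ∧ p ≠ 0 then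
        w p * (1 + ∑ i ∈ R, (if p + K i = 0 then 1 else 0)) * u K else 0 with hG
  set D : Set (ι → Fin 3 → ℤ) := {k | k j + k l = 0} with hD
  have hsupp : Function.support F ⊆ D := by
    intro k hk
    rw [Function.mem_support] at hk
    by_contra hkD
    apply hk
    simp only [hF]
    rw [if_neg]
    rintro ⟨_, h⟩
    exact hkD h
  have h1 : ∑' k, F k = ∑' k : D, F k := (tsum_subtype_eq_of_support_subset hsupp).symm
  set φ : D → (ι → Fin 3 → ℤ) × (Fin 3 → ℤ) := fun k => (pr j l k, (k : ι → Fin 3 → ℤ) j) with hφ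
  have hinj : Function.Injective φ := by
    rintro ⟨k, hk⟩ ⟨k', hk'⟩ h
    simp only [hφ, Prod.mk.injEq] at h
    obtain ⟨h1, h2⟩ := h
    apply Subtype.ext
    change k = k'
    ext1 i
    by_cases hi : i = j
    · rw [hi]; exact h2
    by_cases hi' : i = l
    · rw [hi']
      have e1 : k j + k l = 0 := hk
      have e2 : k' j + k' l = 0 := hk'
      have : k j + k l = k' j + k' l := by rw [e1, e2]
      rw [h2] at this
      exact add_left_cancel this
    · have := congrFun h1 i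
      rwa [pr_of_ne hi hi', pr_of_ne hi hi'] at this
  have h2 : ∀ k : D, F k = (fun q : (ι → Fin 3 → ℤ) × (Fin 3 → ℤ) => G q.1 q.2) (φ k) := by
    rintro ⟨k, hk⟩
    simp only [hF, hG, hφ]
    have e1 : k j + k l = 0 := hk
    simp only [e1, and_true, pr_left hjl, pr_right, true_and]
    split_ifs with h
    · congr 2
      congr 1
      refine Finset.sum_congr rfl fun i hi => ?_
      rw [hR, Finset.mem_erase, Finset.mem_erase] at hi
      rw [pr_of_ne hi.2.1 hi.1]
    · rfl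
  have h3 : ∑' k : D, F k ≤ ∑' q : (ι → Fin 3 → ℤ) × (Fin 3 → ℤ), G q.1 q.2 := by
    simp_rw [h2]
    exact ENNReal.tsum_comp_le_tsum_of_injective hinj _
  have h4 : ∑' q : (ι → Fin 3 → ℤ) × (Fin 3 → ℤ), G q.1 q.2 = ∑' K, ∑' p, G K p :=
    ENNReal.tsum_prod
  have h5 : ∀ K, ∑' p, G K p ≤ (if K j = 0 ∧ K l = 0 then u K else 0)
      * (A + ws * ∑ i ∈ R, (if K i ≠ 0 then 1 else 0)) := by
    intro K
    by_cases hK : K j = 0 ∧ K l = 0
    · rw [if_pos hK]
      have e1 : ∀ p, G K p = ((if p = 0 then 0 else w p) * 1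
          + ∑ i ∈ R, (if p = 0 then 0 else w p) * (if p + K i = 0 then 1 else 0)) * u K := by
        intro p
        simp only [hG, hK.1, hK.2, true_and]
        by_cases hp : p = 0
        · simp [hp]
        · rw [if_pos hp, if_neg hp, ← Finset.mul_sum, ← mul_add]
      simp_rw [e1]
      rw [ENNReal.tsum_mul_right, mul_comm]
      refine mul_le_mul_right ?_ _
      rw [ENNReal.tsum_add, Summable.tsum_finsetSum (fun _ _ => ENNReal.summable), Finset.mul_sum]
      simp only [mul_one]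
      refine add_le_add hA (Finset.sum_le_sum fun i _ => ?_)
      rw [tsum_eq_single (-K i)]
      · rw [neg_add_cancel, if_pos rfl, mul_one]
        by_cases hKi : K i = 0
        · simp [hKi]
        · rw [if_neg (by simpa using hKi), if_pos hKi, mul_one]
          exact hw _ (by simpa using hKi)
      · intro p hp
        rw [if_neg (show ¬ (p + K i = 0) from fun h => hp (eq_neg_of_add_eq_zero_left h)), mul_zero]
    · have e1 : ∀ p, G K p = 0 := by
        intro p
        simp only [hG]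
        rw [if_neg]
        rintro ⟨h, h', _⟩
        exact hK ⟨h, h'⟩
      simp [e1]
  rw [h1]
  refine h3.trans ?_
  rw [h4]
  refine (ENNReal.tsum_le_tsum h5).trans ?_
  have e2 : ∀ K : ι → Fin 3 → ℤ, (if K j = 0 ∧ K l = 0 then u K else 0)
      * (A + ws * ∑ i ∈ R, (if K i ≠ 0 then 1 else 0))
      = A * (if K j = 0 ∧ K l = 0 then u K else 0)
        + ws * ∑ i ∈ R, (if K j = 0 ∧ K l = 0 then u K else 0) * (if K i ≠ 0 then 1 else 0) := by
    intro K
    rw [← Finset.mul_sum]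
    ring
  simp_rw [e2]
  rw [ENNReal.tsum_add, ENNReal.tsum_mul_left, ENNReal.tsum_mul_left,
    Summable.tsum_finsetSum (fun _ _ => ENNReal.summable)]
  refine add_le_add le_rfl (mul_le_mul_right ?_ _)
  refine (Finset.sum_le_sum_of_subset (Finset.subset_univ R)).trans
    (Finset.sum_le_sum fun i _ => ENNReal.tsum_le_tsum fun K => ?_)
  split_ifs <;> simp

/-- `|p|²`. -/
noncomputable def mom2 (p : Fin 3 → ℤ) : ℝ := ∑ α, (p α : ℝ) ^ 2

lemma mom2_nonneg (p : Fin 3 → ℤ) : 0 ≤ mom2 p := Finset.sum_nonneg fun α _ => sq_nonneg _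

lemma mom2_zero : mom2 0 = 0 := by simp [mom2]

lemma summable_of_ennreal {κ : Type*} {W : κ → ℝ} (h0 : ∀ k, 0 ≤ W k) {R : ℝ} (hR : 0 ≤ R)
    (h : ∑' k, ENNReal.ofReal (W k) ≤ ENNReal.ofReal R) : Summable W ∧ ∑' k, W k ≤ R := by
  have h1 : ∀ s : Finset κ, ∑ k ∈ s, W k ≤ R := by
    intro s
    have h2 : ∑ k ∈ s, ENNReal.ofReal (W k) ≤ ENNReal.ofReal R := (ENNReal.sum_le_tsum s).trans h
    rw [← ENNReal.ofReal_sum_of_nonneg (fun k _ => h0 k)] at h2
    exact (ENNReal.ofReal_le_ofReal_iff hR).1 h2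
  exact ⟨summable_of_sum_le h0 h1, Real.tsum_le_of_sum_le h0 h1⟩

/-- Depletion of particle `i`. -/
noncomputable def nuQ (c : (ι → Fin 3 → ℤ) → ℂ) (i : ι) : ℝ :=
  ∑' k, if k i ≠ 0 then ‖c k‖ ^ 2 else 0

/-- Two particles in the condensate. -/
noncomputable def PP (c : (ι → Fin 3 → ℤ) → ℂ) (j l : ι) : ℝ :=
  ∑' k, if k j = 0 ∧ k l = 0 then ‖c k‖ ^ 2 else 0

lemma ite_summable {κ : Type*} {f : κ → ℝ} (hf : Summable f) (h0 : ∀ k, 0 ≤ f k) (P : κ → Prop)
    [DecidablePred P] : Summable fun k => if P k then f k else 0 := by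
  refine Summable.of_nonneg_of_le (fun k => ?_) (fun k => ?_) hf
  · split_ifs
    · exact h0 k
    · exact le_rfl
  · split_ifs
    · exact le_rfl
    · exact h0 k

lemma nuQ_nonneg (c : (ι → Fin 3 → ℤ) → ℂ) (i : ι) : 0 ≤ nuQ c i :=
  tsum_nonneg fun k => by split_ifs <;> positivity

lemma PP_nonneg (c : (ι → Fin 3 → ℤ) → ℂ) (j l : ι) : 0 ≤ PP c j l :=
  tsum_nonneg fun k => by split_ifs <;> positivity

lemma ofReal_tsum_ite {κ : Type*} {f : κ → ℝ} (hf : Summable f) (h0 : ∀ k, 0 ≤ f k) (P : κ → Prop)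
    [DecidablePred P] : ∑' k, (if P k then ENNReal.ofReal (f k) else 0)
      = ENNReal.ofReal (∑' k, if P k then f k else 0) := by
  rw [ENNReal.ofReal_tsum_of_nonneg (fun k => by split_ifs; exacts [h0 k, le_rfl])
    (ite_summable hf h0 P)]
  congr 1; ext k
  split_ifs <;> simp

lemma PP_ge {c : (ι → Fin 3 → ℤ) → ℂ} {S : ℝ} (hc : HasSum (fun k => ‖c k‖ ^ 2) S) (j l : ι) :
    S - nuQ c j - nuQ c l ≤ PP c j l := by
  have h0 : ∀ k, 0 ≤ ‖c k‖ ^ 2 := fun k => sq_nonneg _
  have s1 := (ite_summable hc.summable h0 (fun k => k j ≠ 0)).hasSum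
  have s2 := (ite_summable hc.summable h0 (fun k => k l ≠ 0)).hasSum
  have s3 := (ite_summable hc.summable h0 (fun k => k j = 0 ∧ k l = 0)).hasSum
  refine hasSum_le (fun k => ?_) ((hc.sub s1).sub s2) s3
  by_cases h1 : k j = 0 <;> by_cases h2 : k l = 0 <;> simp [h1, h2]

/-- **The `ℓ²` inequality.** -/
theorem l2_main {c : (ι → Fin 3 → ℤ) → ℂ} (hc : Summable fun k => ‖c k‖ ^ 2) (j : ι) {τ : ℝ}
    (hτ : HasSum (fun k => 4 * Real.pi ^ 2 * mom2 (k j) * ‖c k‖ ^ 2) τ)
    {hh : (Fin 3 → ℤ) → ℂ} {q : ℝ} (hq : hh 0 = q)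
    {z : ι → ℂ} (hHC : ∀ l, j ≠ l → HasSum (fun k => conj (c k) * (if k j + k l = 0 then
      hh (k j) * c (pr j l k) else 0)) (z l))
    {m A ws : ℝ} (hm : 0 < m) (hA0 : 0 ≤ A) (hws0 : 0 ≤ ws)
    (hA : ∑' p, (if p = 0 then 0 else ENNReal.ofReal (‖hh p‖ ^ 2 / (4 * Real.pi ^ 2 * mom2 p + m)))
      ≤ ENNReal.ofReal A)
    (hw : ∀ p, p ≠ 0 → ‖hh p‖ ^ 2 / (4 * Real.pi ^ 2 * mom2 p + m) ≤ ws) :
    2 * q * ∑ l ∈ Finset.univ.erase j, PP c j l
      ≤ (∑ l ∈ Finset.univ.erase j, 2 * (z l).re) + τ + m * nuQ c j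
        + A * ∑ l ∈ Finset.univ.erase j, PP c j l
        + (Fintype.card ι) * ws * ∑ i, nuQ c i := by
  have h0 : ∀ k, 0 ≤ ‖c k‖ ^ 2 := fun k => sq_nonneg _
  set w : (Fin 3 → ℤ) → ℝ := fun p => ‖hh p‖ ^ 2 / (4 * Real.pi ^ 2 * mom2 p + m) with hwdef
  have hD : ∀ p, 0 < 4 * Real.pi ^ 2 * mom2 p + m := fun p => by
    have := mom2_nonneg p; positivity
  have hw0 : ∀ p, 0 ≤ w p := fun p => div_nonneg (sq_nonneg _) (hD p).le
  set s : (ι → Fin 3 → ℤ) → ℂ := fun k =>
    ∑ l ∈ Finset.univ.erase j, if k j + k l = 0 then c (pr j l k) else 0 with hs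
  -- the hard core identity summed over `l`
  have h1 : HasSum (fun k => conj (c k) * (hh (k j) * s k)) (∑ l ∈ Finset.univ.erase j, z l) := by
    have h2 := hasSum_sum (s := Finset.univ.erase j) (fun l hl => hHC l (Finset.ne_of_mem_erase hl).symm)
    have e : (fun k => conj (c k) * (hh (k j) * s k)) = fun k => ∑ l ∈ Finset.univ.erase j,
        conj (c k) * (if k j + k l = 0 then hh (k j) * c (pr j l k) else 0) := by
      ext k
      rw [hs]; dsimp only
      rw [Finset.mul_sum, Finset.mul_sum]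
      refine Finset.sum_congr rfl fun l _ => ?_
      split_ifs <;> simp
    rw [e]; exact h2
  have h1r : HasSum (fun k => 2 * (conj (c k) * (hh (k j) * s k)).re)
      (∑ l ∈ Finset.univ.erase j, 2 * (z l).re) := by
    have := (Complex.hasSum_re h1).mul_left 2
    rw [Complex.re_sum, Finset.mul_sum] at this
    exact this
  -- T1
  have hT1 : HasSum (fun k => if k j ≠ 0 then (4 * Real.pi ^ 2 * mom2 (k j) + m) * ‖c k‖ ^ 2 else 0)
      (τ + m * nuQ c j) := by
    have h3 := hτ.add ((ite_summable hc h0 (fun k => k j ≠ 0)).hasSum.mul_left m)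
    have e : (fun k => if k j ≠ 0 then (4 * Real.pi ^ 2 * mom2 (k j) + m) * ‖c k‖ ^ 2 else 0)
        = fun k => 4 * Real.pi ^ 2 * mom2 (k j) * ‖c k‖ ^ 2
          + m * (if k j ≠ 0 then ‖c k‖ ^ 2 else 0) := by
      ext k
      by_cases hk : k j = 0
      · simp [hk, mom2_zero]
      · simp only [ne_eq, hk, not_false_eq_true, if_true]; ring
    rw [e]; exact h3
  -- T4
  have hT4 : HasSum (fun k => 2 * q * ∑ l ∈ Finset.univ.erase j,
      (if k j = 0 ∧ k l = 0 then ‖c k‖ ^ 2 else 0)) (2 * q * ∑ l ∈ Finset.univ.erase j, PP c j l) :=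
    (hasSum_sum fun l _ => (ite_summable hc h0 (fun k => k j = 0 ∧ k l = 0)).hasSum).mul_left _
  -- W
  set W : (ι → Fin 3 → ℤ) → ℝ := fun k => if k j ≠ 0 then w (k j) * ‖s k‖ ^ 2 else 0 with hWdef
  have hW0 : ∀ k, 0 ≤ W k := fun k => by
    simp only [hWdef]; split_ifs
    · exact mul_nonneg (hw0 _) (sq_nonneg _)
    · exact le_rfl
  set R0 : ℝ := A * ∑ l ∈ Finset.univ.erase j, PP c j l
        + (Fintype.card ι) * ws * ∑ i, nuQ c i with hR0
  have hR00 : 0 ≤ R0 := by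
    refine add_nonneg (mul_nonneg hA0 (Finset.sum_nonneg fun l _ => PP_nonneg c j l)) ?_
    exact mul_nonneg (mul_nonneg (Nat.cast_nonneg _) hws0)
      (Finset.sum_nonneg fun l _ => nuQ_nonneg c l)
  have hWE : ∑' k, ENNReal.ofReal (W k) ≤ ENNReal.ofReal R0 := by
    -- pointwise bound
    have hpt : ∀ k, ENNReal.ofReal (W k) ≤ ∑ l ∈ Finset.univ.erase j,
        (if k j ≠ 0 ∧ k j + k l = 0 then
          ENNReal.ofReal (w (k j)) * (1 + ∑ i ∈ (Finset.univ.erase j).erase l,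
            (if k j + k i = 0 then 1 else 0)) * ENNReal.ofReal (‖c (pr j l k)‖ ^ 2) else 0) := by
      intro k
      simp only [hWdef]
      by_cases hk : k j = 0
      · simp [hk]
      · rw [if_pos hk]
        set S : Finset ι := (Finset.univ.erase j).filter (fun l => k j + k l = 0) with hS
        have hsn : ‖s k‖ ^ 2 ≤ ∑ l ∈ S, (S.card : ℝ) * ‖c (pr j l k)‖ ^ 2 := by
          have e : s k = ∑ l ∈ S, c (pr j l k) := by
            simp only [hs, hS]
            rw [Finset.sum_filter]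
          rw [e, ← Finset.mul_sum]
          calc ‖∑ l ∈ S, c (pr j l k)‖ ^ 2 ≤ (∑ l ∈ S, ‖c (pr j l k)‖) ^ 2 :=
                pow_le_pow_left₀ (norm_nonneg _) (norm_sum_le _ _) 2
            _ ≤ _ := sq_sum_le_card_mul_sum_sq
        have e2 : ∑ l ∈ Finset.univ.erase j,
            (if k j ≠ 0 ∧ k j + k l = 0 then
              ENNReal.ofReal (w (k j)) * (1 + ∑ i ∈ (Finset.univ.erase j).erase l,
                (if k j + k i = 0 then 1 else 0)) * ENNReal.ofReal (‖c (pr j l k)‖ ^ 2) else 0)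
            = ∑ l ∈ S, ENNReal.ofReal (w (k j) * (S.card * ‖c (pr j l k)‖ ^ 2)) := by
          rw [hS, Finset.sum_filter]
          refine Finset.sum_congr rfl fun l hl => ?_
          by_cases hkl : k j + k l = 0
          · rw [if_pos ⟨hk, hkl⟩, if_pos hkl]
            have hcard : (S.card : ℝ≥0∞) = 1 + ∑ i ∈ (Finset.univ.erase j).erase l,
                (if k j + k i = 0 then 1 else 0) := by
              have h5 : (S.card : ℝ≥0∞) = ∑ i ∈ Finset.univ.erase j,
                  (if k j + k i = 0 then (1 : ℝ≥0∞) else 0) := by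
                rw [hS, Finset.sum_ite, Finset.sum_const_zero, add_zero, Finset.sum_const,
                  nsmul_eq_mul, mul_one]
              rw [h5, ← Finset.add_sum_erase _ _ hl, if_pos hkl]
            rw [← hcard, ENNReal.ofReal_mul (hw0 _), ENNReal.ofReal_mul (Nat.cast_nonneg _),
              ENNReal.ofReal_natCast, mul_assoc]
          · rw [if_neg (fun h => hkl h.2), if_neg hkl]
        rw [e2, ← ENNReal.ofReal_sum_of_nonneg (fun l _ => mul_nonneg (hw0 _)
          (mul_nonneg (Nat.cast_nonneg _) (sq_nonneg _))), ← Finset.mul_sum]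
        exact ENNReal.ofReal_le_ofReal (mul_le_mul_of_nonneg_left hsn (hw0 _))
    refine (ENNReal.tsum_le_tsum hpt).trans ?_
    rw [Summable.tsum_finsetSum (fun _ _ => ENNReal.summable)]
    have hl : ∀ l ∈ Finset.univ.erase j, ∑' k, (if k j ≠ 0 ∧ k j + k l = 0 then
          ENNReal.ofReal (w (k j)) * (1 + ∑ i ∈ (Finset.univ.erase j).erase l,
            (if k j + k i = 0 then 1 else 0)) * ENNReal.ofReal (‖c (pr j l k)‖ ^ 2) else 0)
        ≤ ENNReal.ofReal (A * PP c j l + ws * ∑ i, nuQ c i) := by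
      intro l hl
      have hjl : j ≠ l := (Finset.ne_of_mem_erase hl).symm
      refine (W_bound (fun k => ENNReal.ofReal (‖c k‖ ^ 2)) (fun p => ENNReal.ofReal (w p))
        (ENNReal.ofReal A) (ENNReal.ofReal ws) hA
        (fun p hp => ENNReal.ofReal_le_ofReal (hw p hp)) hjl).trans (le_of_eq ?_)
      rw [ofReal_tsum_ite hc h0 (fun k => k j = 0 ∧ k l = 0)]
      have e3 : ∀ i : ι, ∑' k, (if k i ≠ 0 then ENNReal.ofReal (‖c k‖ ^ 2) else 0)
          = ENNReal.ofReal (nuQ c i) := fun i => ofReal_tsum_ite hc h0 (fun k => k i ≠ 0)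
      simp_rw [e3]
      change ENNReal.ofReal A * ENNReal.ofReal (PP c j l) + _ = _
      rw [← ENNReal.ofReal_sum_of_nonneg (fun i _ => nuQ_nonneg c i), ← ENNReal.ofReal_mul hA0,
        ← ENNReal.ofReal_mul hws0, ← ENNReal.ofReal_add (mul_nonneg hA0 (PP_nonneg c j l))
          (mul_nonneg hws0 (Finset.sum_nonneg fun i _ => nuQ_nonneg c i))]
    refine (Finset.sum_le_sum hl).trans ?_
    rw [← ENNReal.ofReal_sum_of_nonneg (fun l _ => add_nonneg (mul_nonneg hA0 (PP_nonneg c j l))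
          (mul_nonneg hws0 (Finset.sum_nonneg fun i _ => nuQ_nonneg c i)))]
    refine ENNReal.ofReal_le_ofReal ?_
    rw [Finset.sum_add_distrib, ← Finset.mul_sum, Finset.sum_const, nsmul_eq_mul, hR0, mul_assoc]
    refine add_le_add le_rfl (mul_le_mul_of_nonneg_right ?_
      (mul_nonneg hws0 (Finset.sum_nonneg fun i _ => nuQ_nonneg c i)))
    exact_mod_cast Finset.card_le_univ _
  obtain ⟨hWs, hWle⟩ := summable_of_ennreal hW0 hR00 hWE
  -- pointwise inequality
  have hpt : ∀ k, 0 ≤ ((if k j ≠ 0 then (4 * Real.pi ^ 2 * mom2 (k j) + m) * ‖c k‖ ^ 2 else 0)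
      + 2 * (conj (c k) * (hh (k j) * s k)).re + W k)
      - 2 * q * ∑ l ∈ Finset.univ.erase j, (if k j = 0 ∧ k l = 0 then ‖c k‖ ^ 2 else 0) := by
    intro k
    by_cases hk : k j = 0
    · have e1 : s k = ∑ l ∈ Finset.univ.erase j, if k l = 0 then c k else 0 := by
        simp only [hs, hk, zero_add]
        refine Finset.sum_congr rfl fun l hl => ?_
        split_ifs with hkl
        · congr 1
          have hjl : j ≠ l := (Finset.ne_of_mem_erase hl).symm
          ext1 i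
          by_cases hi : i = j
          · rw [hi, pr_left hjl, hk]
          by_cases hi' : i = l
          · rw [hi', pr_right, hkl]
          · rw [pr_of_ne hi hi']
        · rfl
      have e2 : (conj (c k) * (hh (k j) * s k)).re
          = q * ∑ l ∈ Finset.univ.erase j, (if k l = 0 then ‖c k‖ ^ 2 else 0) := by
        rw [hk, hq, e1]
        have e3 : conj (c k) * ((q : ℂ) * ∑ l ∈ Finset.univ.erase j, if k l = 0 then c k else 0)
            = ((q * ∑ l ∈ Finset.univ.erase j, (if k l = 0 then ‖c k‖ ^ 2 else 0) : ℝ) : ℂ) := by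
          push_cast
          rw [mul_left_comm, Finset.mul_sum]
          congr 1
          refine Finset.sum_congr rfl fun l _ => ?_
          split_ifs
          · rw [mul_comm, Complex.mul_conj, Complex.normSq_eq_norm_sq]
          · simp
        rw [e3, Complex.ofReal_re]
      rw [e2]
      simp only [hWdef, hk, ne_eq, not_true_eq_false, if_false, true_and]
      linarith
    · have hDk := hD (k j)
      simp only [hWdef, ne_eq, hk, not_false_eq_true, if_true, false_and, if_false,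
        Finset.sum_const_zero, mul_zero, sub_zero, hwdef]
      have h6 : |(conj (c k) * (hh (k j) * s k)).re| ≤ ‖c k‖ * (‖hh (k j)‖ * ‖s k‖) := by
        refine (Complex.abs_re_le_norm _).trans (le_of_eq ?_)
        simp
      have h7 := (abs_le.1 h6).1
      set D := 4 * Real.pi ^ 2 * mom2 (k j) + m
      have h8 : 0 ≤ (D * ‖c k‖ - ‖hh (k j)‖ * ‖s k‖) ^ 2 / D := div_nonneg (sq_nonneg _) hDk.le
      have h9 : (D * ‖c k‖ - ‖hh (k j)‖ * ‖s k‖) ^ 2 / D
          = D * ‖c k‖ ^ 2 - 2 * (‖c k‖ * (‖hh (k j)‖ * ‖s k‖))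
            + ‖hh (k j)‖ ^ 2 / D * ‖s k‖ ^ 2 := by
        field_simp; ring
      linarith
  have hfin := hasSum_le hpt hasSum_zero (((hT1.add h1r).add hWs.hasSum).sub hT4)
  rw [hR0] at hWle
  linarith

end Pool.Agent.Lib.MP_4952d6_mp

end

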