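import Pool.Agent.Lib.MP_4952d6_mp.Pk.G06

/-! Merged modules (to save import time): RadialWD. -/

/-! ### RadialWD -/

section

set_option autoImplicit false
set_option linter.unusedSectionVars false
set_option linter.unusedVariables false
open MeasureTheory Function Filter Topology AddCircle ComplexConjugate Set

namespace Pool.Agent.Lib.MP_4952d6_mp

/-- Almost every radius property holds at almost every point at distance less than `1/2`. -/
lemma ae_rr {P : ℝ → Prop} (h : ∀ᵐ r : ℝ, P r) : ∀ᵐ x ∂lam3, rr x < 1/2 → P (rr x) := by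
  classical
  rw [ae_iff] at h
  set T := toMeasurable volume {r | ¬ P r} with hT
  have hTm : MeasurableSet T := measurableSet_toMeasurable _ _
  have hT0 : volume T = 0 := by rw [hT, measure_toMeasurable]; exact h
  have hsub : {r | ¬ P r} ⊆ T := subset_toMeasurable _ _
  set φ : ℝ → ℝ := fun r => if r ∈ T ∧ r < 1/2 then 1 else 0 with hφ
  have h1 := integral_rad (φ := φ) (fun r hr => by
    simp only [hφ]; rw [if_neg]; rintro ⟨_, h⟩; linarith)
  have h2 : ∫ r in Ioi (0:ℝ), r ^ 2 * φ r = 0 := by
    rw [integral_eq_zero_of_ae]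
    have : ∀ᵐ r : ℝ, r ∉ T := by
      rw [ae_iff]; simpa using hT0
    filter_upwards [ae_restrict_of_ae this] with r hr
    simp [hφ, hr]
  rw [h2, mul_zero] at h1
  have hm : MeasurableSet {x : T3 | rr x ∈ T ∧ rr x < 1/2} :=
    (rr_measurable hTm).inter (rr_measurable measurableSet_Iio)
  have h3 : ∫ x, φ (rr x) ∂lam3 = lam3.real {x : T3 | rr x ∈ T ∧ rr x < 1/2} := by
    have : (fun x => φ (rr x)) = ({x : T3 | rr x ∈ T ∧ rr x < 1/2}).indicator (fun _ => (1:ℝ)) := by
      ext x
      simp [hφ, Set.indicator_apply]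
    rw [this, integral_indicator_const _ hm, smul_eq_mul, mul_one]
  rw [h3, measureReal_def, ENNReal.toReal_eq_zero_iff] at h1
  rcases h1 with h1 | h1
  · rw [ae_iff]
    refine measure_mono_null (fun x hx => ?_) h1
    simp only [Set.mem_ofPred_eq] at hx ⊢
    push Not at hx
    exact ⟨hsub hx.2, hx.1⟩
  · exact absurd h1 (measure_ne_top _ _)

lemma ae_rr_pos : ∀ᵐ x ∂lam3, 0 < rr x := by
  have h1 : ∀ᵐ x ∂lam3, rr x ≠ 0 := ae_rr_ne (by norm_num)
  filter_upwards [h1] with x hx
  exact lt_of_le_of_ne (rr_nonneg x) (Ne.symm hx)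

lemma eventually_far {b : ℝ} (hb : b < 1/2) {x : T3} (hx : 1/2 ≤ rr x) (α : Fin 3) :
    ∀ᶠ t : ℝ in 𝓝 0, b ≤ rr (x + tau α t) := by
  have h1 : ∀ᶠ t : ℝ in 𝓝 0, |t| < 1/2 - b := by
    have h2 : Tendsto (fun t : ℝ => |t|) (𝓝 0) (𝓝 |0|) := continuous_abs.tendsto 0
    rw [abs_zero] at h2
    exact h2.eventually (gt_mem_nhds (by linarith))
  filter_upwards [h1] with t ht
  have := (abs_le.1 (rr_tau x α t)).1
  linarith

/-- A radial profile `φ` with `φ' (r) = r γ(r)` for almost every `r`, constant for `r ≥ b`. -/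
structure Prof (b : ℝ) (φ γ : ℝ → ℝ) : Prop where
  b_lt : b < 1/2
  lip : ∃ L, ∀ r s, |φ r - φ s| ≤ L * |r - s|
  bdd : ∃ C, ∀ r, |φ r| ≤ C
  deriv : ∀ᵐ r : ℝ, 0 < r → HasDerivAt φ (r * γ r) r
  zero : ∀ r, b ≤ r → γ r = 0
  const : ∀ r, b ≤ r → φ r = φ b

/-- The profile `φ` of a radial vector field `φ(|x|) x`, with `φ' (r) = ψ(r) / r` for almost every
`r`, vanishing for `r ≥ b`. -/
structure FProf (b : ℝ) (φ ψ : ℝ → ℝ) : Prop where
  b_lt : b < 1/2
  meas : Measurable φ
  meas' : Measurable ψ
  wlip : ∃ M, ∀ r s, 0 ≤ r → r ≤ s → r * |φ s - φ r| ≤ M * (s - r)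
  bdd : ∃ C, ∀ r, |φ r| ≤ C
  bdd' : ∃ C, ∀ r, |ψ r| ≤ C
  deriv : ∀ᵐ r : ℝ, 0 < r → HasDerivAt φ (ψ r / r) r
  zero : ∀ r, b ≤ r → φ r = 0
  zero' : ∀ r, b ≤ r → ψ r = 0

namespace Prof
variable {b : ℝ} {φ γ : ℝ → ℝ}

lemma continuous (h : Prof b φ γ) : Continuous φ := by
  obtain ⟨L, hL⟩ := h.lip
  refine LipschitzWith.continuous (K := Real.toNNReal L) (LipschitzWith.of_dist_le_mul fun r s => ?_)
  rw [Real.dist_eq, Real.dist_eq]
  exact (hL r s).trans (mul_le_mul_of_nonneg_right (Real.le_coe_toNNReal L) (abs_nonneg _))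

lemma exists_lip (h : Prof b φ γ) : ∃ L, 0 ≤ L ∧ ∀ r s, |φ r - φ s| ≤ L * |r - s| := by
  obtain ⟨L, hL⟩ := h.lip
  exact ⟨max L 0, le_max_right _ _, fun r s => (hL r s).trans
    (mul_le_mul_of_nonneg_right (le_max_left _ _) (abs_nonneg _))⟩

theorem rad_WD (h : Prof b φ γ) (α : Fin 3) :
    WD lam3 (tau α) (fun x => φ (rr x)) (fun x => γ (rr x) * crd x α) where
  zero := tau_zero α
  sm := (h.continuous.measurable.comp rr_measurable).stronglyMeasurable
  bdd := h.bdd.imp fun C hC x => hC _
  lip := by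
    obtain ⟨L, hL0, hL⟩ := h.exists_lip
    exact ⟨L, fun x t => (hL _ _).trans (mul_le_mul_of_nonneg_left (rr_tau x α t) hL0)⟩
  deriv := by
    filter_upwards [ae_rr_pos, ae_rr h.deriv] with x hx hd
    rcases lt_or_ge (rr x) (1/2) with hlt | hge
    · have h1 := hasDerivAt_rr hx hlt α
      have h2 : HasDerivAt φ (rr x * γ (rr x)) (rr (x + tau α 0)) := by
        rw [tau_zero, add_zero]; exact hd hlt hx
      have h3 := h2.comp (0:ℝ) h1
      have e : rr x * γ (rr x) * (crd x α / rr x) = γ (rr x) * crd x α := by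
        have := hx.ne'
        field_simp
      rw [e] at h3
      exact h3
    · have e : γ (rr x) * crd x α = 0 := by
        rw [h.zero _ (h.b_lt.le.trans hge), zero_mul]
      rw [e]
      refine (hasDerivAt_const (0:ℝ) (φ b)).congr_of_eventuallyEq ?_
      filter_upwards [eventually_far h.b_lt hge α] with t ht
      exact h.const _ ht

end Prof

namespace FProf
variable {b : ℝ} {φ ψ : ℝ → ℝ}

lemma exists_bdd (h : FProf b φ ψ) : ∃ C, 0 ≤ C ∧ ∀ r, |φ r| ≤ C := by
  obtain ⟨C, hC⟩ := h.bdd
  exact ⟨max C 0, le_max_right _ _, fun r => (hC r).trans (le_max_left _ _)⟩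

lemma exists_wlip (h : FProf b φ ψ) :
    ∃ M, 0 ≤ M ∧ ∀ r s, 0 ≤ r → r ≤ s → r * |φ s - φ r| ≤ M * (s - r) := by
  obtain ⟨M, hM⟩ := h.wlip
  exact ⟨max M 0, le_max_right _ _, fun r s hr hrs => (hM r s hr hrs).trans
    (mul_le_mul_of_nonneg_right (le_max_left _ _) (by linarith))⟩

/-- Radial vector fields. -/
theorem fld_WD (h : FProf b φ ψ) (α : Fin 3) :
    WD lam3 (tau α) (fun x => φ (rr x) * crd x α)
      (fun x => ψ (rr x) * (crd x α / rr x) ^ 2 + φ (rr x)) where
  zero := tau_zero α
  sm := ((h.meas.comp rr_measurable).mul (crd_measurable α)).stronglyMeasurable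
  bdd := by
    obtain ⟨C, hC0, hC⟩ := h.exists_bdd
    refine ⟨C * (1/2), fun x => ?_⟩
    rw [norm_mul]
    refine mul_le_mul (hC _) ?_ (norm_nonneg _) hC0
    have := crd_mem x α
    rw [Real.norm_eq_abs, abs_le]
    exact ⟨this.1.le, this.2⟩
  lip := by
    obtain ⟨C, hC0, hC⟩ := h.exists_bdd
    obtain ⟨M, hM0, hM⟩ := h.exists_wlip
    have hb := h.b_lt
    have habs : ∀ x : T3, |crd x α| ≤ 1/2 := fun x => by
      have := crd_mem x α
      rw [abs_le]
      exact ⟨this.1.le, this.2⟩
    set t₀ : ℝ := 1/2 - b with ht₀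
    have ht₀' : 0 < t₀ := by rw [ht₀]; linarith
    refine ⟨C / t₀ + (M + C), fun x t => ?_⟩
    have hN : 0 ≤ |t| := abs_nonneg t
    rcases le_or_gt t₀ |t| with hbig | hsmall
    · have h1 : ‖φ (rr (x + tau α t)) * crd (x + tau α t) α - φ (rr x) * crd x α‖ ≤ C := by
        refine (norm_sub_le _ _).trans ?_
        rw [norm_mul, norm_mul, Real.norm_eq_abs, Real.norm_eq_abs, Real.norm_eq_abs,
          Real.norm_eq_abs]
        have a1 := mul_le_mul (hC (rr (x + tau α t))) (habs (x + tau α t)) (abs_nonneg _) hC0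
        have a2 := mul_le_mul (hC (rr x)) (habs x) (abs_nonneg _) hC0
        linarith
      have h2 : C ≤ C / t₀ * |t| := by
        rw [div_mul_eq_mul_div, le_div_iff₀ ht₀']
        exact mul_le_mul_of_nonneg_left hbig hC0
      have h3 : 0 ≤ (M + C) * |t| := by positivity
      rw [add_mul]; linarith
    · -- local estimate
      have key : crd (x + tau α t) α = crd x α + t →
          ‖φ (rr (x + tau α t)) * crd (x + tau α t) α - φ (rr x) * crd x α‖
            ≤ (M + C) * |t| := by
        intro hc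
        have hr := rr_tau x α t
        rcases le_total (rr x) (rr (x + tau α t)) with hle | hle
        · have e : φ (rr (x + tau α t)) * crd (x + tau α t) α - φ (rr x) * crd x α
              = (φ (rr (x + tau α t)) - φ (rr x)) * crd x α + φ (rr (x + tau α t)) * t := by
            rw [hc]; ring
          rw [e]
          refine (norm_add_le _ _).trans ?_
          rw [norm_mul, norm_mul, Real.norm_eq_abs, Real.norm_eq_abs, Real.norm_eq_abs,
            Real.norm_eq_abs]
          have a1 := hM _ _ (rr_nonneg x) hle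
          have a2 : |φ (rr (x + tau α t)) - φ (rr x)| * |crd x α|
              ≤ rr x * |φ (rr (x + tau α t)) - φ (rr x)| := by
            rw [mul_comm]
            exact mul_le_mul_of_nonneg_right (abs_crd_le_rr x α) (abs_nonneg _)
          have a3 := mul_le_mul_of_nonneg_right (hC (rr (x + tau α t))) hN
          have a4 : M * (rr (x + tau α t) - rr x) ≤ M * |t| :=
            mul_le_mul_of_nonneg_left ((le_abs_self _).trans hr) hM0
          linarith
        · have e : φ (rr (x + tau α t)) * crd (x + tau α t) α - φ (rr x) * crd x α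
              = -((φ (rr x) - φ (rr (x + tau α t))) * crd (x + tau α t) α) + φ (rr x) * t := by
            rw [hc]; ring
          rw [e]
          refine (norm_add_le _ _).trans ?_
          rw [norm_neg, norm_mul, norm_mul, Real.norm_eq_abs, Real.norm_eq_abs, Real.norm_eq_abs,
            Real.norm_eq_abs]
          have a1 := hM _ _ (rr_nonneg _) hle
          have a2 : |φ (rr x) - φ (rr (x + tau α t))| * |crd (x + tau α t) α|
              ≤ rr (x + tau α t) * |φ (rr x) - φ (rr (x + tau α t))| := by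
            rw [mul_comm]
            exact mul_le_mul_of_nonneg_right (abs_crd_le_rr _ α) (abs_nonneg _)
          have a3 := mul_le_mul_of_nonneg_right (hC (rr x)) hN
          have a4 : M * (rr x - rr (x + tau α t)) ≤ M * |t| := by
            refine mul_le_mul_of_nonneg_left ?_ hM0
            rw [abs_sub_comm] at hr
            exact (le_abs_self _).trans hr
          linarith
      have hfin : (M + C) * |t| ≤ (C / t₀ + (M + C)) * |t| := by
        refine mul_le_mul_of_nonneg_right ?_ hN
        have : 0 ≤ C / t₀ := by positivity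
        linarith
      refine le_trans ?_ hfin
      rcases lt_or_ge (rr x) b with hx | hx
      · apply key
        have h1 := abs_crd_le_rr x α
        have h2 : |crd x α + t| < 1/2 := by
          refine (abs_add_le _ _).trans_lt ?_
          rw [ht₀] at hsmall; linarith
        have h3 := abs_lt.1 h2
        exact crd_add_tau ⟨h3.1, h3.2.le⟩
      · rcases lt_or_ge (rr (x + tau α t)) b with hx' | hx'
        · apply key
          have h1 := abs_crd_le_rr (x + tau α t) α
          have h2 : |crd (x + tau α t) α + (-t)| < 1/2 := by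
            refine (abs_add_le _ _).trans_lt ?_
            rw [abs_neg]
            rw [ht₀] at hsmall; linarith
          have h3 := abs_lt.1 h2
          have h4 := crd_add_tau (x := x + tau α t) (α := α) (t := -t) ⟨h3.1, h3.2.le⟩
          have h5 : x + tau α t + tau α (-t) = x := by
            rw [add_assoc]
            have : tau α t + tau α (-t) = 0 := by
              unfold tau
              rw [← Pi.single_add, ← AddCircle.coe_add, add_neg_cancel]
              simp
            rw [this, add_zero]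
          rw [h5] at h4
          linarith
        · rw [h.zero _ hx, h.zero _ hx']
          simp only [zero_mul, sub_self, norm_zero]
          positivity
  deriv := by
    filter_upwards [ae_rr_pos, ae_rr h.deriv] with x hx hd
    rcases lt_or_ge (rr x) (1/2) with hlt | hge
    · have h1 := hasDerivAt_rr hx hlt α
      have h2 : HasDerivAt φ (ψ (rr x) / rr x) (rr (x + tau α 0)) := by
        rw [tau_zero, add_zero]; exact hd hlt hx
      have h3 := h2.comp (0:ℝ) h1
      have h4 := h3.fun_mul (hasDerivAt_crd hlt α)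
      simp only [comp_apply, tau_zero, add_zero, mul_one] at h4
      have e : ψ (rr x) / rr x * (crd x α / rr x) * crd x α + φ (rr x)
          = ψ (rr x) * (crd x α / rr x) ^ 2 + φ (rr x) := by
        ring
      rw [e] at h4
      exact h4
    · have hb' := h.b_lt.le.trans hge
      have e : ψ (rr x) * (crd x α / rr x) ^ 2 + φ (rr x) = 0 := by
        rw [h.zero _ hb', h.zero' _ hb']; ring
      rw [e]
      refine (hasDerivAt_const (0:ℝ) (0:ℝ)).congr_of_eventuallyEq ?_
      filter_upwards [eventually_far h.b_lt hge α] with t ht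
      rw [h.zero _ ht, zero_mul]

end FProf

lemma sum_dir (a c : ℝ) {x : T3} (hx : 0 < rr x) :
    ∑ α : Fin 3, (a * (crd x α / rr x) ^ 2 + c) = a + 3 * c := by
  rw [Finset.sum_add_distrib, ← Finset.mul_sum]
  have : ∑ α : Fin 3, (crd x α / rr x) ^ 2 = 1 := by
    simp_rw [div_pow]
    rw [← Finset.sum_div, ← rr_sq, div_self (by positivity)]
  rw [this]
  simp

end Pool.Agent.Lib.MP_4952d6_mp

end

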