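import Pool.Agent.Lib.MP_4952d6_mp.Pk.G01
import Pool.Agent.Lib.MP_4952d6_mp.Pk.G08
import Pool.Agent.Lib.MP_4952d6_mp.Pk.G09

/-! Merged modules (to save import time): Jastrow, JProf, JEst, Energy. -/

/-! ### Jastrow -/

section

set_option autoImplicit false
set_option linter.unusedSectionVars false
set_option linter.unusedVariables false
open MeasureTheory Function Filter Topology AddCircle ComplexConjugate Set

namespace Pool.Agent.Lib.MP_4952d6_mp

/-- Square of a logarithmic-derivative type sum. -/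
lemma sq_sum_prod {κ : Type*} [DecidableEq κ] (S : Finset κ) (u f : κ → ℝ) :
    (∑ l ∈ S, u l * ∏ m ∈ S.erase l, f m) ^ 2
      = ∑ l ∈ S, u l ^ 2 * ∏ m ∈ S.erase l, f m ^ 2
        + ∑ l ∈ S, ∑ m ∈ S.erase l, (u l * f l) * (u m * f m)
            * ∏ n ∈ (S.erase l).erase m, f n ^ 2 := by
  rw [sq, Finset.sum_mul_sum, ← Finset.sum_add_distrib]
  refine Finset.sum_congr rfl fun l hl => ?_
  rw [← Finset.add_sum_erase S _ hl]
  congr 1
  · rw [Finset.prod_pow]; ring
  · refine Finset.sum_congr rfl fun m hm => ?_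
    have hml : m ≠ l := Finset.ne_of_mem_erase hm
    have hmS : m ∈ S := Finset.mem_of_mem_erase hm
    have hlm : l ∈ S.erase m := Finset.mem_erase.2 ⟨hml.symm, hl⟩
    rw [← Finset.mul_prod_erase (S.erase l) f hm, ← Finset.mul_prod_erase (S.erase m) f hlm,
      Finset.erase_right_comm (a := m) (b := l), Finset.prod_pow]
    ring

/-- Radial pair functions for the Jastrow state. `f` is the pair function, `f' = r g`, and
`k1 = r (f g)'`. -/
structure JData (b : ℝ) (f g k1 : ℝ → ℝ) : Prop where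
  hf : Prof b f g
  hk : FProf b (fun r => f r * g r) k1
  f_nonneg : ∀ r, 0 ≤ f r
  f_le_one : ∀ r, f r ≤ 1
  g_meas : Measurable g
  g_bdd : ∃ C, ∀ r, |g r| ≤ C

namespace JData
variable {b : ℝ} {f g k1 : ℝ → ℝ}

/-- The effective pair potential profile `|∇f|² - div(f ∇f)/2`. -/
noncomputable def eff (f g k1 : ℝ → ℝ) (r : ℝ) : ℝ :=
  g r ^ 2 * r ^ 2 - 1/2 * (k1 r + 3 * (f r * g r))

lemma gasFn (h : JData b f g k1) : GasFn lam3 (fun x => f (rr x)) where
  meas := h.hf.continuous.measurable.comp rr_measurable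
  nonneg y := h.f_nonneg _
  le_one y := h.f_le_one _
  even y := by rw [rr_neg]

lemma gasFn_sq (h : JData b f g k1) : GasFn lam3 (fun x => f (rr x) ^ 2) where
  meas := (h.hf.continuous.measurable.comp rr_measurable).pow_const 2
  nonneg y := sq_nonneg _
  le_one y := pow_le_one₀ (h.f_nonneg _) (h.f_le_one _)
  even y := by rw [rr_neg]

lemma rr_bm {φ : ℝ → ℝ} (hm : Measurable φ) (hb : ∃ C, ∀ r, |φ r| ≤ C) :
    BM (fun x : T3 => φ (rr x)) :=
  ⟨hm.comp rr_measurable, hb.imp fun C hC x => hC _⟩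

lemma crd_bm (α : Fin 3) : BM (fun x : T3 => crd x α) :=
  BM.of_mem_Icc (crd_measurable α) fun x => ⟨(crd_mem x α).1.le, (crd_mem x α).2⟩

lemma rr_le (x : T3) : rr x ≤ 1 := by
  have h1 : rr x ^ 2 ≤ 1 ^ 2 := by
    rw [rr_sq]
    have : ∀ α : Fin 3, crd x α ^ 2 ≤ 1/4 := fun α => by
      have := crd_mem x α
      have h2 : |crd x α| ≤ 1/2 := by rw [abs_le]; exact ⟨this.1.le, this.2⟩
      have := pow_le_pow_left₀ (abs_nonneg _) h2 2
      rw [sq_abs] at this
      linarith
    calc ∑ α : Fin 3, crd x α ^ 2 ≤ ∑ α : Fin 3, (1/4 : ℝ) := Finset.sum_le_sum fun α _ => this α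
      _ ≤ 1 ^ 2 := by simp; norm_num
  exact (pow_le_pow_iff_left₀ (rr_nonneg x) zero_le_one two_ne_zero).1 h1

lemma rr_bm' : BM (fun x : T3 => rr x) :=
  BM.of_mem_Icc rr_measurable fun x => ⟨rr_nonneg x, rr_le x⟩

lemma f_bm (h : JData b f g k1) : BM (fun x : T3 => f (rr x)) := h.gasFn.bm

lemma g_bm (h : JData b f g k1) : BM (fun x : T3 => g (rr x)) := rr_bm h.g_meas h.g_bdd

lemma k1_bm (h : JData b f g k1) : BM (fun x : T3 => k1 (rr x)) := rr_bm h.hk.meas' h.hk.bdd'

lemma eff_bm (h : JData b f g k1) : BM (fun x : T3 => eff f g k1 (rr x)) := by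
  unfold eff
  exact ((h.g_bm.pow 2).mul (rr_bm'.pow 2)).sub
    ((h.k1_bm.add ((h.f_bm.mul h.g_bm).const_mul 3)).const_mul (1/2))

lemma dir_bm (α : Fin 3) : BM (fun x : T3 => crd x α / rr x) := by
  refine BM.of_mem_Icc (a := -1) (b := 1) ((crd_measurable α).div rr_measurable) fun x => ?_
  have h1 : |crd x α / rr x| ≤ 1 := by
    rw [abs_div, abs_of_nonneg (rr_nonneg x)]
    exact div_le_one_of_le₀ (abs_crd_le_rr x α) (rr_nonneg x)
  exact abs_le.1 h1

/-- gradient component -/
noncomputable def grad (g : ℝ → ℝ) (α : Fin 3) (x : T3) : ℝ := g (rr x) * crd x α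

lemma grad_bm (h : JData b f g k1) (α : Fin 3) : BM (grad g α) := h.g_bm.mul (crd_bm α)

/-- Translates of differentiable functions. -/
lemma WD_shift {Φ Φ' : T3 → ℝ} {α : Fin 3} (h : WD lam3 (tau α) Φ Φ') (z : T3) :
    WD lam3 (tau α) (fun y => Φ (y - z)) (fun y => Φ' (y - z)) := by
  refine h.comp (tau_zero α) (φ := fun y => y - z) ?_ (fun y t => by abel)
  have := measurePreserving_sub_right lam3 z
  exact this

variable {ι : Type*} [Fintype ι] [LinearOrder ι]

/-- **One body identity** on the torus. -/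
theorem one_body (h : JData b f g k1) (S : Finset ι) (z : ι → T3) :
    ∫ y, ∑ α, (∑ l ∈ S, grad g α (y - z l) * ∏ m ∈ S.erase l, f (rr (y - z m))) ^ 2 ∂lam3
      = ∑ l ∈ S, ∫ y, eff f g k1 (rr (y - z l))
          * oneB (fun x => f (rr x) ^ 2) (S.erase l) z y ∂lam3 := by
  have msub : ∀ w : T3, Measurable (fun y : T3 => y - w) := fun w =>
    measurable_sub' measurable_id measurable_const
  have bf : ∀ l : ι, BM (fun y => f (rr (y - z l))) := fun l => h.f_bm.comp (msub _)
  have bg : ∀ (α : Fin 3) (l : ι), BM (fun y => grad g α (y - z l)) := fun α l =>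
    (h.grad_bm α).comp (msub _)
  have bcr : ∀ (α : Fin 3) (l : ι), BM (fun y => crd (y - z l) α / rr (y - z l)) := fun α l =>
    (dir_bm α).comp (msub _)
  have bgr : ∀ l : ι, BM (fun y => g (rr (y - z l))) := fun l => h.g_bm.comp (msub _)
  have bk : ∀ l : ι, BM (fun y => k1 (rr (y - z l))) := fun l => h.k1_bm.comp (msub _)
  have bprod : ∀ T : Finset ι, BM (fun y => ∏ m ∈ T, f (rr (y - z m)) ^ 2) := fun T =>
    BM.finset_prod T fun m _ => (bf m).pow 2
  -- cross terms
  have hcross : ∀ (α : Fin 3) (l : ι), l ∈ S →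
      ∫ y, ∑ m ∈ S.erase l, (grad g α (y - z l) * f (rr (y - z l)))
        * (grad g α (y - z m) * f (rr (y - z m))) * ∏ n ∈ (S.erase l).erase m, f (rr (y - z n)) ^ 2
        ∂lam3
      = - (1/2) * ∫ y, (k1 (rr (y - z l)) * (crd (y - z l) α / rr (y - z l)) ^ 2
          + f (rr (y - z l)) * g (rr (y - z l))) * ∏ m ∈ S.erase l, f (rr (y - z m)) ^ 2 ∂lam3 := by
    intro α l hl
    have w1 := WD_shift (h.hk.fld_WD α) (z l)
    have w2 : ∀ m ∈ S.erase l, WD lam3 (tau α) (fun y => f (rr (y - z m)) ^ 2)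
        (fun y => 2 * (grad g α (y - z m) * f (rr (y - z m)))) := by
      intro m _
      have w3 := WD_shift (h.hf.rad_WD α) (z m)
      have w4 := w3.mul w3
      have e1 : (fun y => f (rr (y - z m)) ^ 2) = fun y => f (rr (y - z m)) * f (rr (y - z m)) := by
        ext y; ring
      have e2 : (fun y => 2 * (grad g α (y - z m) * f (rr (y - z m))))
          = fun y => g (rr (y - z m)) * crd (y - z m) α * f (rr (y - z m))
            + f (rr (y - z m)) * (g (rr (y - z m)) * crd (y - z m) α) := by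
        ext y; simp only [grad]; ring
      rw [e1, e2]; exact w4
    have w5 := (w1.mul (WD.finset_prod (S.erase l) (tau_zero α) w2)).integral_eq_zero
    have bA : BM (fun y => (k1 (rr (y - z l)) * (crd (y - z l) α / rr (y - z l)) ^ 2
        + f (rr (y - z l)) * g (rr (y - z l))) * ∏ m ∈ S.erase l, f (rr (y - z m)) ^ 2) :=
      (((bk l).mul ((bcr α l).pow 2)).add ((bf l).mul (bgr l))).mul (bprod _)
    have bB : BM (fun y => ∑ m ∈ S.erase l, (grad g α (y - z l) * f (rr (y - z l)))
        * (grad g α (y - z m) * f (rr (y - z m)))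
          * ∏ n ∈ (S.erase l).erase m, f (rr (y - z n)) ^ 2) :=
      BM.finset_sum _ fun m _ => (((bg α l).mul (bf l)).mul ((bg α m).mul (bf m))).mul (bprod _)
    have e3 : ∀ y, (k1 (rr (y - z l)) * (crd (y - z l) α / rr (y - z l)) ^ 2
          + f (rr (y - z l)) * g (rr (y - z l))) * ∏ m ∈ S.erase l, f (rr (y - z m)) ^ 2
        + f (rr (y - z l)) * g (rr (y - z l)) * crd (y - z l) α
          * ∑ m ∈ S.erase l, 2 * (grad g α (y - z m) * f (rr (y - z m)))
            * ∏ n ∈ (S.erase l).erase m, f (rr (y - z n)) ^ 2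
        = (k1 (rr (y - z l)) * (crd (y - z l) α / rr (y - z l)) ^ 2
          + f (rr (y - z l)) * g (rr (y - z l))) * ∏ m ∈ S.erase l, f (rr (y - z m)) ^ 2
        + 2 * ∑ m ∈ S.erase l, (grad g α (y - z l) * f (rr (y - z l)))
          * (grad g α (y - z m) * f (rr (y - z m)))
          * ∏ n ∈ (S.erase l).erase m, f (rr (y - z n)) ^ 2 := by
      intro y
      congr 1
      rw [Finset.mul_sum, Finset.mul_sum]
      refine Finset.sum_congr rfl fun m _ => ?_
      simp only [grad]; ring
    simp_rw [e3] at w5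
    rw [integral_add (bA.integrable _) ((bB.const_mul 2).integrable _), integral_const_mul] at w5
    linarith
  have hA : ∀ (α : Fin 3) (l : ι), BM (fun y => grad g α (y - z l) ^ 2
      * ∏ m ∈ S.erase l, f (rr (y - z m)) ^ 2) := fun α l => ((bg α l).pow 2).mul (bprod _)
  have hC : ∀ (α : Fin 3) (l : ι), BM (fun y => ∑ m ∈ S.erase l,
      (grad g α (y - z l) * f (rr (y - z l))) * (grad g α (y - z m) * f (rr (y - z m)))
        * ∏ n ∈ (S.erase l).erase m, f (rr (y - z n)) ^ 2) := fun α l =>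
    BM.finset_sum _ fun m _ => (((bg α l).mul (bf l)).mul ((bg α m).mul (bf m))).mul (bprod _)
  have hD : ∀ (α : Fin 3) (l : ι), BM (fun y => (k1 (rr (y - z l)) * (crd (y - z l) α / rr (y - z l)) ^ 2
      + f (rr (y - z l)) * g (rr (y - z l))) * ∏ m ∈ S.erase l, f (rr (y - z m)) ^ 2) := fun α l =>
    (((bk l).mul ((bcr α l).pow 2)).add ((bf l).mul (bgr l))).mul (bprod _)
  have e4 : ∀ y, ∑ α, (∑ l ∈ S, grad g α (y - z l) * ∏ m ∈ S.erase l, f (rr (y - z m))) ^ 2
      = ∑ α, (∑ l ∈ S, grad g α (y - z l) ^ 2 * ∏ m ∈ S.erase l, f (rr (y - z m)) ^ 2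
        + ∑ l ∈ S, ∑ m ∈ S.erase l, (grad g α (y - z l) * f (rr (y - z l)))
          * (grad g α (y - z m) * f (rr (y - z m)))
            * ∏ n ∈ (S.erase l).erase m, f (rr (y - z n)) ^ 2) := fun y =>
    Finset.sum_congr rfl fun α _ => sq_sum_prod S _ _
  simp_rw [e4]
  rw [integral_finsetSum _ (fun α _ => ((BM.finset_sum S fun l _ => hA α l).add
    (BM.finset_sum S fun l _ => hC α l)).integrable _)]
  have e5 : ∀ α : Fin 3, ∫ y, (∑ l ∈ S, grad g α (y - z l) ^ 2
        * ∏ m ∈ S.erase l, f (rr (y - z m)) ^ 2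
        + ∑ l ∈ S, ∑ m ∈ S.erase l, (grad g α (y - z l) * f (rr (y - z l)))
          * (grad g α (y - z m) * f (rr (y - z m)))
            * ∏ n ∈ (S.erase l).erase m, f (rr (y - z n)) ^ 2) ∂lam3
      = ∑ l ∈ S, ∫ y, (grad g α (y - z l) ^ 2 - 1/2 * (k1 (rr (y - z l)) * (crd (y - z l) α / rr (y - z l)) ^ 2
      + f (rr (y - z l)) * g (rr (y - z l)))) * ∏ m ∈ S.erase l, f (rr (y - z m)) ^ 2 ∂lam3 := by
    intro α
    rw [integral_add ((BM.finset_sum S fun l _ => hA α l).integrable _)
      ((BM.finset_sum S fun l _ => hC α l).integrable _),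
      integral_finsetSum _ (fun l _ => (hA α l).integrable _),
      integral_finsetSum _ (fun l _ => (hC α l).integrable _),
      Finset.sum_congr rfl (fun l hl => hcross α l hl), ← Finset.sum_add_distrib]
    refine Finset.sum_congr rfl fun l _ => ?_
    rw [← integral_const_mul, ← integral_add ((hA α l).integrable _)
      (((hD α l).const_mul _).integrable _)]
    congr 1; ext y; ring
  simp_rw [e5]
  rw [Finset.sum_comm]
  refine Finset.sum_congr rfl fun l _ => ?_
  have hG : ∀ α : Fin 3, BM (fun y => (grad g α (y - z l) ^ 2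
      - 1/2 * (k1 (rr (y - z l)) * (crd (y - z l) α / rr (y - z l)) ^ 2
      + f (rr (y - z l)) * g (rr (y - z l)))) * ∏ m ∈ S.erase l, f (rr (y - z m)) ^ 2) := fun α =>
    ((((bg α l).pow 2)).sub ((((bk l).mul ((bcr α l).pow 2)).add
      ((bf l).mul (bgr l))).const_mul (1/2))).mul (bprod _)
  rw [← integral_finsetSum _ (fun α _ => (hG α).integrable _)]
  have hae : ∀ᵐ y ∂lam3, 0 < rr (y - z l) := by
    have := (measurePreserving_sub_right lam3 (z l)).quasiMeasurePreserving.ae ae_rr_pos
    exact this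
  refine integral_congr_ae ?_
  filter_upwards [hae] with y hy
  rw [← Finset.sum_mul]
  unfold oneB
  congr 1
  unfold eff grad
  rw [Finset.sum_sub_distrib, ← Finset.mul_sum, sum_dir _ _ hy]
  have : ∑ α : Fin 3, (g (rr (y - z l)) * crd (y - z l) α) ^ 2
      = g (rr (y - z l)) ^ 2 * rr (y - z l) ^ 2 := by
    rw [rr_sq, Finset.mul_sum]
    refine Finset.sum_congr rfl fun α _ => by ring
  rw [this]

/-- The Jastrow wave function. -/
noncomputable def jas (f : ℝ → ℝ) (x : ι → T3) : ℝ := pairW (fun y => f (rr y)) Finset.univ x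

/-- Its derivative in direction `(i, α)`. -/
noncomputable def djas (f g : ℝ → ℝ) (i : ι) (α : Fin 3) (x : ι → T3) : ℝ :=
  pairW (fun y => f (rr y)) (Finset.univ.erase i) x
    * ∑ l ∈ Finset.univ.erase i, grad g α (x i - x l)
      * ∏ m ∈ (Finset.univ.erase i).erase l, f (rr (x i - x m))

lemma jas_sq (f : ℝ → ℝ) (S : Finset ι) (x : ι → T3) :
    pairW (fun y => f (rr y)) S x ^ 2 = pairW (fun y => f (rr y) ^ 2) S x := by
  unfold pairW
  rw [← Finset.prod_pow]
  refine Finset.prod_congr rfl fun k _ => ?_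
  rw [← Finset.prod_pow]

theorem jas_WD (h : JData b f g k1) (i : ι) (α : Fin 3) :
    WD (piN ι) (tauN i α) (jas f) (djas f g i α) := by
  have hG := h.gasFn
  have w1 : WD (piN ι) (tauN i α) (fun x => pairW (fun y => f (rr y)) (Finset.univ.erase i) x)
      (fun _ => 0) := by
    refine WD.of_invariant (tauN_zero i α) (pairW_bm hG _).1.stronglyMeasurable
      (pairW_bm hG _).2 fun x t => ?_
    have : x + tauN i α t = update x i (x i + tau α t) := by
      ext1 k
      by_cases hk : k = i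
      · rw [hk]; simp [tauN]
      · simp [tauN, update_of_ne hk, Pi.single_eq_of_ne hk]
    rw [this, pairW_update_of_notMem (Finset.notMem_erase i _)]
  have w2 : ∀ l ∈ Finset.univ.erase i, WD (piN ι) (tauN i α) (fun x => f (rr (x i - x l)))
      (fun x => grad g α (x i - x l)) := by
    intro l hl
    have hli : l ≠ i := Finset.ne_of_mem_erase hl
    refine (h.hf.rad_WD α).comp (tauN_zero i α) (mp_diff hli.symm) fun x t => ?_
    simp only [Pi.add_apply, tauN, Pi.single_eq_same, Pi.single_eq_of_ne hli]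
    abel
  have w3 := w1.mul (WD.finset_prod (Finset.univ.erase i) (tauN_zero i α) w2)
  have e1 : (fun x : ι → T3 => pairW (fun y => f (rr y)) (Finset.univ.erase i) x
      * ∏ l ∈ Finset.univ.erase i, f (rr (x i - x l))) = jas f := by
    ext x
    unfold jas
    rw [pairW_erase hG (Finset.mem_univ i)]
    rfl
  have e2 : (fun x : ι → T3 => 0 * ∏ l ∈ Finset.univ.erase i, f (rr (x i - x l))
      + pairW (fun y => f (rr y)) (Finset.univ.erase i) x * ∑ l ∈ Finset.univ.erase i,
        grad g α (x i - x l) * ∏ m ∈ (Finset.univ.erase i).erase l, f (rr (x i - x m)))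
      = djas f g i α := by
    ext x
    unfold djas
    ring
  rw [e1, e2] at w3
  exact w3

lemma djas_bm (h : JData b f g k1) (i : ι) (α : Fin 3) : BM (djas f g i α : (ι → T3) → ℝ) := by
  have mdiff : ∀ l : ι, Measurable (fun x : ι → T3 => x i - x l) := fun l =>
    measurable_sub' (measurable_pi_apply i) (measurable_pi_apply l)
  unfold djas
  refine (pairW_bm h.gasFn _).mul (BM.finset_sum _ fun l _ => ?_)
  exact ((h.grad_bm α).comp (mdiff l)).mul (BM.finset_prod _ fun m _ => h.f_bm.comp (mdiff m))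

lemma jas_bm (h : JData b f g k1) : BM (jas f : (ι → T3) → ℝ) := pairW_bm h.gasFn _

lemma memLp_of_bm {X : Type*} [MeasurableSpace X] {μ : Measure X} [IsFiniteMeasure μ] {Φ : X → ℝ}
    (h : BM Φ) : MemLp (fun x => (Φ x : ℂ)) 2 μ := by
  obtain ⟨C, hC0, hC⟩ := h.exists_nonneg_bound
  refine MemLp.of_bound (Complex.continuous_ofReal.comp_stronglyMeasurable
    h.1.stronglyMeasurable).aestronglyMeasurable C (Eventually.of_forall fun x => ?_)
  rw [Complex.norm_real]; exact hC x

/-- Kinetic energy of the Jastrow function, one direction. -/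
theorem jas_kin (h : JData b f g k1) (i : ι) (α : Fin 3) :
    HasSum (fun k : ι → Fin 3 → ℤ => 4 * Real.pi ^ 2 * (k i α : ℝ) ^ 2
      * ‖fc (fun x => (jas f x : ℂ)) k‖ ^ 2) (∫ x, djas f g i α x ^ 2 ∂(piN ι)) := by
  have := piN_left_inv (ι := ι)
  have hW := (h.jas_WD i α).ofReal
  have hP := parseval_sq (memLp_of_bm (μ := piN ι) (h.djas_bm (ι := ι) i α))
  have e1 : ∀ k, fc (fun x => (djas f g i α x : ℂ)) k
      = 2 * Real.pi * Complex.I * (k i α : ℝ) * fc (fun x => (jas f x : ℂ)) k := by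
    intro k
    exact hW.fourier (chN_sm k) (chN_norm k) (k i α) (chN_add_tauN k i α)
  have e2 : ∀ k : ι → Fin 3 → ℤ, ‖fc (fun x => (djas f g i α x : ℂ)) k‖ ^ 2
      = 4 * Real.pi ^ 2 * (k i α : ℝ) ^ 2 * ‖fc (fun x => (jas f x : ℂ)) k‖ ^ 2 := by
    intro k
    rw [e1, norm_mul, norm_mul, norm_mul, norm_mul, Complex.norm_real, Complex.norm_real,
      Complex.norm_I, Complex.norm_ofNat, Real.norm_eq_abs, Real.norm_eq_abs, mul_pow, mul_pow,
      mul_pow, mul_pow, sq_abs, sq_abs]
    ring
  simp_rw [e2] at hP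
  have e3 : ∫ x, ‖((djas f g i α x : ℝ) : ℂ)‖ ^ 2 ∂(piN ι) = ∫ x, djas f g i α x ^ 2 ∂(piN ι) := by
    congr 1; ext x
    rw [Complex.norm_real, Real.norm_eq_abs, sq_abs]
  rw [e3] at hP
  exact hP

/-- Integrated kinetic energy density of particle `i`. -/
theorem djas_integral (h : JData b f g k1) (i : ι) :
    ∑ α, ∫ x, djas f g i α x ^ 2 ∂(piN ι)
      = ∑ l ∈ Finset.univ.erase i,
        pairI lam3 (fun y => f (rr y) ^ 2) i l (fun y => eff f g k1 (rr y)) := by
  set F : T3 → ℝ := fun y => f (rr y) ^ 2 with hF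
  have hG := h.gasFn_sq
  have hi : i ∉ Finset.univ.erase i := Finset.notMem_erase i _
  have bD : ∀ α, BM (fun x : ι → T3 => djas f g i α x ^ 2) := fun α => (h.djas_bm i α).pow 2
  have h1 : ∀ α, ∫ x, djas f g i α x ^ 2 ∂(piN ι)
      = ∫ x, ∫ y, (djas f g i α (update x i y)) ^ 2 ∂lam3 ∂(piN ι) := fun α =>
    integral_resample i (bD α)
  have bDy : ∀ α, BM (fun x : ι → T3 => ∫ y, (djas f g i α (update x i y)) ^ 2 ∂lam3) := fun α =>
    BM.integral_right (f := fun x y => (djas f g i α (update x i y)) ^ 2)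
      ((bD α).comp (measurable_upd i)) lam3
  have bDs : ∀ (α : Fin 3) (x : ι → T3), BM (fun y => (djas f g i α (update x i y)) ^ 2) :=
    fun α x => slice_bm (bD α) i x
  simp_rw [h1]
  rw [← integral_finsetSum _ (fun α _ => (bDy α).integrable _)]
  have h2 : ∀ x : ι → T3, ∑ α, ∫ y, (djas f g i α (update x i y)) ^ 2 ∂lam3
      = ∑ l ∈ Finset.univ.erase i, ∫ y, (fun x' : ι → T3 => eff f g k1 (rr (x' i - x' l))
          * (oneB F (rest i l) x' (x' i) * oneB F (rest i l) x' (x' l)) * pairW F (rest i l) x')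
            (update x i y) ∂lam3 := by
    intro x
    rw [← integral_finsetSum _ (fun α _ => (bDs α x).integrable _)]
    have e1 : ∀ y, ∑ α, (djas f g i α (update x i y)) ^ 2
        = pairW F (Finset.univ.erase i) x * ∑ α, (∑ l ∈ Finset.univ.erase i, grad g α (y - x l)
          * ∏ m ∈ (Finset.univ.erase i).erase l, f (rr (y - x m))) ^ 2 := by
      intro y
      rw [Finset.mul_sum]
      refine Finset.sum_congr rfl fun α _ => ?_
      unfold djas
      rw [mul_pow, jas_sq, update_self]
      rw [pairW_update_of_notMem hi]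
      congr 2
      refine Finset.sum_congr rfl fun l hl => ?_
      rw [update_of_ne (Finset.ne_of_mem_erase hl)]
      congr 1
      refine Finset.prod_congr rfl fun m hm => ?_
      rw [update_of_ne (Finset.ne_of_mem_erase (Finset.mem_of_mem_erase hm))]
    simp_rw [e1]
    rw [integral_const_mul, h.one_body, Finset.mul_sum]
    refine Finset.sum_congr rfl fun l hl => ?_
    have hli : l ≠ i := Finset.ne_of_mem_erase hl
    rw [← integral_const_mul]
    congr 1; ext y
    have hir : i ∉ rest i l := notMem_rest_left i l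
    simp only [update_self, update_of_ne hli]
    rw [pairW_update_of_notMem hir, oneB_update_of_notMem hir, oneB_update_of_notMem hir,
      pairW_erase hG hl]
    unfold rest
    ring
  simp_rw [h2]
  have bQ : ∀ l : ι, BM (fun x' : ι → T3 => eff f g k1 (rr (x' i - x' l))
          * (oneB F (rest i l) x' (x' i) * oneB F (rest i l) x' (x' l)) * pairW F (rest i l) x') := by
    intro l
    have m1 : ∀ k : ι, Measurable (fun x : ι → T3 => (x, x k)) := fun k =>
      measurable_id.prodMk (measurable_pi_apply k)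
    exact ((h.eff_bm.comp (measurable_sub' (measurable_pi_apply i) (measurable_pi_apply l))).mul
      (BM.mul ((oneB_bm hG _).comp (m1 i)) ((oneB_bm hG _).comp (m1 l)))).mul (pairW_bm hG _)
  have bQy : ∀ l : ι, BM (fun x : ι → T3 => ∫ y, (fun x' : ι → T3 => eff f g k1 (rr (x' i - x' l))
          * (oneB F (rest i l) x' (x' i) * oneB F (rest i l) x' (x' l)) * pairW F (rest i l) x')
            (update x i y) ∂lam3) := fun l =>
    BM.integral_right (f := fun x y => (fun x' : ι → T3 => eff f g k1 (rr (x' i - x' l))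
          * (oneB F (rest i l) x' (x' i) * oneB F (rest i l) x' (x' l)) * pairW F (rest i l) x')
            (update x i y)) ((bQ l).comp (measurable_upd i)) lam3
  rw [integral_finsetSum _ (fun l _ => (bQy l).integrable _)]
  refine Finset.sum_congr rfl fun l _ => ?_
  rw [← integral_resample i (bQ l)]
  rfl

end JData

end Pool.Agent.Lib.MP_4952d6_mp

end

/-! ### JProf -/

section

set_option autoImplicit false
set_option linter.unusedSectionVars false
set_option linter.unusedVariables false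
open MeasureTheory Function Filter Topology Set

namespace Pool.Agent.Lib.MP_4952d6_mp

namespace Scat

/-- slope parameter -/
noncomputable def cc (R a b : ℝ) : ℝ := a / (2 * b ^ 2 * (b - R))

/-- unnormalised Jastrow pair function -/
noncomputable def jPhi (R a b : ℝ) (f : ℝ → ℝ) (r : ℝ) : ℝ := f r - cc R a b * (max (r - R) 0) ^ 2

/-- `jPhi' / r` -/
noncomputable def jG (R a b : ℝ) (Q : ℝ → ℝ) (r : ℝ) : ℝ :=
  Q r / r ^ 3 - 2 * cc R a b * (max (r - R) 0 / r)

/-- normalisation -/
noncomputable def jkap (R a b : ℝ) (f : ℝ → ℝ) : ℝ := (jPhi R a b f b)⁻¹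

/-- Jastrow pair function -/
noncomputable def fJ (R a b : ℝ) (f : ℝ → ℝ) (r : ℝ) : ℝ := jkap R a b f * jPhi R a b f (min r b)

/-- Jastrow derivative -/
noncomputable def gJ (R a b : ℝ) (f Q : ℝ → ℝ) (r : ℝ) : ℝ := jkap R a b f * jG R a b Q (min r b)

/-- Jastrow second derivative -/
noncomputable def kJ (W : ℝ → ℝ) (R a b : ℝ) (f Q : ℝ → ℝ) (r : ℝ) : ℝ :=
  if r < b then (jkap R a b f) ^ 2 * (r ^ 2 * jG R a b Q r ^ 2 + jPhi R a b f r *
    (W r * f r - 3 * (Q r / r ^ 3) - 2 * cc R a b * (if R < r then R / r else 0))) else 0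

variable {W : ℝ → ℝ} {R₀ R a : ℝ} {f Q : ℝ → ℝ}

section
variable (h : Scat W R₀ R a f Q) {b : ℝ} (hb : 2 * R ≤ b)
include h hb

lemma b_pos : 0 < b := by have := h.R_pos; linarith
lemma R_lt_b : R < b := by have := h.R_pos; linarith
lemma cc_pos : 0 < cc R a b := by
  have := h.R_lt_b hb; have := h.b_pos hb; have := h.a_pos
  unfold cc
  have : 0 < b - R := by linarith
  positivity

lemma cc_mul : cc R a b * (b - R) ^ 2 = a * (b - R) / (2 * b ^ 2) := by
  have := h.R_lt_b hb; have := h.b_pos hb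
  have : b - R ≠ 0 := by linarith
  unfold cc
  field_simp

lemma cc_mul' : 2 * cc R a b * (b - R) = a / b ^ 2 := by
  have := h.R_lt_b hb; have := h.b_pos hb
  have : b - R ≠ 0 := by linarith
  unfold cc
  field_simp

lemma jPhi_b : jPhi R a b f b = 1 - a / b - a * (b - R) / (2 * b ^ 2) := by
  have h1 := h.R_lt_b hb
  unfold jPhi
  rw [max_eq_left (by linarith), h.cc_mul hb, h.f_out b h1.le]

lemma jPhi_b_ge : 1 - 3 * a / (2 * b) ≤ jPhi R a b f b := by
  have h1 := h.b_pos hb; have h2 := h.R_pos; have h3 := h.a_pos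
  rw [h.jPhi_b hb]
  have : a * (b - R) / (2 * b ^ 2) ≤ a / (2 * b) := by
    rw [div_le_div_iff₀ (by positivity) (by positivity)]
    nlinarith [mul_pos (mul_pos h3 h2) h1]
  have e : 3 * a / (2 * b) = a / b + a / (2 * b) := by field_simp; norm_num
  rw [e]; linarith

lemma a_div_b : a / b ≤ 1 / 2 := by
  have h1 := h.b_pos hb; have h2 := h.R_pos; have h3 := h.a_le
  rw [div_le_iff₀ h1]; linarith

lemma jPhi_b_ge' : 1 / 4 ≤ jPhi R a b f b := by
  have h1 := h.jPhi_b_ge hb
  have h2 := h.a_div_b hb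
  have e : 3 * a / (2 * b) = 3 / 2 * (a / b) := by
    have := (h.b_pos hb).ne'
    field_simp
  rw [e] at h1; linarith

lemma jPhi_b_pos : 0 < jPhi R a b f b := by have := h.jPhi_b_ge' hb; linarith

lemma jkap_pos : 0 < jkap R a b f := inv_pos.2 (h.jPhi_b_pos hb)

lemma jkap_mul : jkap R a b f * jPhi R a b f b = 1 := inv_mul_cancel₀ (h.jPhi_b_pos hb).ne'

lemma jPhi_nonneg {r : ℝ} (hr : r ≤ b) : 0 ≤ jPhi R a b f r := by
  unfold jPhi
  rcases le_or_gt r R with hrR | hrR
  · rw [max_eq_right (by linarith)]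
    have := h.f_nonneg r
    simpa using this
  · have hR := h.R_pos
    have hr0 : 0 < r := hR.trans hrR
    have hb0 := h.b_pos hb
    have hbR := h.R_lt_b hb
    rw [max_eq_left (by linarith), h.f_out r hrR.le]
    have hc := h.cc_pos hb
    -- c r (r - R) ≤ a / (2 b) ≤ 1
    have h1 : cc R a b * (r * (r - R)) ≤ 1 := by
      have h2 : cc R a b * (r * (r - R)) ≤ cc R a b * (b * (b - R)) := by
        refine mul_le_mul_of_nonneg_left ?_ hc.le
        exact mul_le_mul hr (by linarith) (by linarith) hb0.le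
      have h3 : cc R a b * (b * (b - R)) = a / b / 2 := by
        have := h.cc_mul' hb
        have e : cc R a b * (b * (b - R)) = (2 * cc R a b * (b - R)) * b / 2 := by ring
        rw [e, this]; field_simp
      have := h.a_div_b hb
      linarith
    have h4 : cc R a b * (r - R) ^ 2 ≤ (r - R) / r := by
      rw [le_div_iff₀ hr0]
      calc cc R a b * (r - R) ^ 2 * r = (cc R a b * (r * (r - R))) * (r - R) := by ring
        _ ≤ 1 * (r - R) := mul_le_mul_of_nonneg_right h1 (by linarith)
        _ = r - R := one_mul _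
    have h5 : (r - R) / r ≤ 1 - a / r := by
      have : (r - R) / r = 1 - R / r := by field_simp
      rw [this]
      have := div_le_div_of_nonneg_right h.a_le hr0.le
      linarith
    linarith

lemma jPhi_le {r : ℝ} (hr : r ≤ b) : jPhi R a b f r ≤ jPhi R a b f b := by
  have hR := h.R_pos
  have hb0 := h.b_pos hb
  have hbR := h.R_lt_b hb
  have ha := h.a_pos
  -- the case `R ≤ r`
  have key : ∀ r, R ≤ r → r ≤ b → jPhi R a b f r ≤ jPhi R a b f b := by
    intro r hrR hr
    have hr0 : 0 < r := hR.trans_le hrR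
    have hbR' : 0 < b - R := by linarith
    rw [h.jPhi_b hb]
    unfold jPhi
    rw [max_eq_left (by linarith), h.f_out r hrR]
    have h1 : a / r - a / b = a * (b - r) / (r * b) := by field_simp
    have h2 : a * (b - R) / (2 * b ^ 2) - cc R a b * (r - R) ^ 2
        = a * ((b - r) * (b + r - 2 * R)) / (2 * b ^ 2 * (b - R)) := by
      unfold cc
      field_simp
      ring
    have h3 : a * ((b - r) * (b + r - 2 * R)) / (2 * b ^ 2 * (b - R)) ≤ a * (b - r) / (r * b) := by
      rw [div_le_div_iff₀ (by positivity) (by positivity)]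
      have h4 : (b + r - 2 * R) * (r * b) ≤ 2 * b ^ 2 * (b - R) := by
        have h5 : b + r - 2 * R ≤ 2 * (b - R) := by linarith
        have h6 : r * b ≤ b * b := mul_le_mul_of_nonneg_right hr hb0.le
        calc (b + r - 2 * R) * (r * b) ≤ (2 * (b - R)) * (b * b) := by
              refine mul_le_mul h5 h6 (by positivity) (by linarith)
          _ = 2 * b ^ 2 * (b - R) := by ring
      have h7 : 0 ≤ a * (b - r) := mul_nonneg ha.le (by linarith)
      calc a * ((b - r) * (b + r - 2 * R)) * (r * b) = a * (b - r) * ((b + r - 2 * R) * (r * b)) := by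
            ring
        _ ≤ a * (b - r) * (2 * b ^ 2 * (b - R)) := mul_le_mul_of_nonneg_left h4 h7
    linarith
  rcases le_or_gt R r with hrR | hrR
  · exact key r hrR hr
  · refine le_trans ?_ (key R le_rfl hbR.le)
    unfold jPhi
    rw [max_eq_right (by linarith), max_eq_right (by linarith)]
    have := h.f_mono hrR.le
    linarith

lemma jPhi_le_one {r : ℝ} (hr : r ≤ b) : jPhi R a b f r ≤ 1 := by
  refine (h.jPhi_le hb hr).trans ?_
  rw [h.jPhi_b hb]
  have h1 := h.b_pos hb; have h2 := h.a_pos; have h3 := h.R_lt_b hb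
  have : 0 < b - R := by linarith
  have e1 : 0 ≤ a / b := by positivity
  have e2 : 0 ≤ a * (b - R) / (2 * b ^ 2) := by positivity
  linarith

lemma fJ_nonneg (r : ℝ) : 0 ≤ fJ R a b f r :=
  mul_nonneg (h.jkap_pos hb).le (h.jPhi_nonneg hb (min_le_right _ _))

lemma fJ_le_one (r : ℝ) : fJ R a b f r ≤ 1 := by
  unfold fJ
  rw [← h.jkap_mul hb]
  exact mul_le_mul_of_nonneg_left (h.jPhi_le hb (min_le_right _ _)) (h.jkap_pos hb).le

lemma jPhi_lip : ∃ L, 0 ≤ L ∧ ∀ r s, r ≤ b → s ≤ b → |jPhi R a b f r - jPhi R a b f s| ≤ L * |r - s| := by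
  obtain ⟨L, hL0, hL⟩ := h.exists_L
  have hc := h.cc_pos hb
  have hbR := h.R_lt_b hb
  refine ⟨L + cc R a b * (2 * (b - R)), by
    have : 0 < b - R := by linarith
    positivity, fun r s hr hs => ?_⟩
  have h1 := hL r s
  set p := max (r - R) 0
  set q := max (s - R) 0
  have hp0 : 0 ≤ p := le_max_right _ _
  have hq0 : 0 ≤ q := le_max_right _ _
  have hp1 : p ≤ b - R := max_le (by linarith) (by linarith)
  have hq1 : q ≤ b - R := max_le (by linarith) (by linarith)
  have hpq : |p - q| ≤ |r - s| := by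
    have := abs_max_sub_max_le_abs (r - R) (s - R) 0
    simpa using this
  have e : jPhi R a b f r - jPhi R a b f s
      = (f r - f s) - cc R a b * ((p - q) * (p + q)) := by
    unfold jPhi; ring
  rw [e]
  refine (abs_sub _ _).trans ?_
  rw [abs_mul, abs_of_pos hc, abs_mul, abs_of_nonneg (add_nonneg hp0 hq0)]
  have h2 : |p - q| * (p + q) ≤ |r - s| * (2 * (b - R)) :=
    mul_le_mul hpq (by linarith) (by linarith) (abs_nonneg _)
  have h3 := mul_le_mul_of_nonneg_left h2 hc.le
  linarith

lemma fJ_lip : ∃ L, ∀ r s, |fJ R a b f r - fJ R a b f s| ≤ L * |r - s| := by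
  obtain ⟨L, hL0, hL⟩ := h.jPhi_lip hb
  refine ⟨jkap R a b f * L, fun r s => ?_⟩
  unfold fJ
  rw [← mul_sub, abs_mul, abs_of_pos (h.jkap_pos hb), mul_assoc]
  refine mul_le_mul_of_nonneg_left ?_ (h.jkap_pos hb).le
  refine (hL _ _ (min_le_right _ _) (min_le_right _ _)).trans ?_
  refine mul_le_mul_of_nonneg_left ?_ hL0
  exact abs_min_sub_min_le_max r b s b |>.trans (by simp)

lemma jG_b : jG R a b Q b = 0 := by
  have h1 := h.b_pos hb; have h2 := h.R_lt_b hb
  unfold jG
  rw [max_eq_left (by linarith), h.Q_out b h2.le]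
  have := h.cc_mul' hb
  have e : 2 * cc R a b * ((b - R) / b) = (2 * cc R a b * (b - R)) / b := by ring
  rw [e, this]
  field_simp
  ring

lemma jG_of_nonpos {r : ℝ} (hr : r ≤ 0) : jG R a b Q r = 0 := by
  unfold jG
  have := h.R_pos
  rw [h.Q_zero' r hr, max_eq_right (by linarith)]
  simp

lemma maxdiv_le {r : ℝ} (hr : 0 < r) : 0 ≤ max (r - R) 0 / r ∧ max (r - R) 0 / r ≤ 1 := by
  have hR := h.R_pos
  refine ⟨by positivity, ?_⟩
  rw [div_le_one hr]
  exact max_le (by linarith) hr.le

lemma jG_bdd : ∃ C, 0 ≤ C ∧ ∀ r, |jG R a b Q r| ≤ C := by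
  obtain ⟨C, hC0, hC⟩ := h.exists_C
  have hc := h.cc_pos hb
  refine ⟨C + 2 * cc R a b, by positivity, fun r => ?_⟩
  rcases le_or_gt r 0 with hr | hr
  · rw [h.jG_of_nonpos hb hr, abs_zero]; positivity
  · unfold jG
    refine (abs_sub _ _).trans (add_le_add ?_ ?_)
    · rw [abs_of_nonneg (div_nonneg (h.Q_nonneg r) (by positivity)), div_le_iff₀ (by positivity)]
      exact hC r hr
    · obtain ⟨h1, h2⟩ := h.maxdiv_le hb hr
      rw [abs_of_nonneg (by positivity)]
      calc 2 * cc R a b * (max (r - R) 0 / r) ≤ 2 * cc R a b * 1 :=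
            mul_le_mul_of_nonneg_left h2 (by positivity)
        _ = _ := mul_one _

lemma jG_meas : Measurable (jG R a b Q) := by
  unfold jG
  exact (h.Q_meas.div (measurable_id.pow_const 3)).sub
    (((measurable_id.sub_const R).max measurable_const).div measurable_id |>.const_mul _)

lemma jPhi_cont : Continuous (jPhi R a b f) := by
  unfold jPhi
  have := h.f_cont
  fun_prop

/-- derivative of the unnormalised Jastrow function -/
lemma jPhi_deriv {r : ℝ} (hr0 : 0 < r) (hr1 : r ≠ R₀) (hr2 : r ≠ R) :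
    HasDerivAt (jPhi R a b f) (r * jG R a b Q r) r := by
  have h1 := h.f_deriv r hr0 hr1
  have h2 : HasDerivAt (fun s => (max (s - R) 0) ^ 2) (2 * max (r - R) 0) r := by
    rcases lt_or_gt_of_ne hr2 with hlt | hgt
    · rw [max_eq_right (by linarith), mul_zero]
      refine (hasDerivAt_const r (0:ℝ)).congr_of_eventuallyEq ?_
      filter_upwards [gt_mem_nhds hlt] with s hs
      rw [max_eq_right (by linarith)]; simp
    · rw [max_eq_left (by linarith)]
      have h3 : HasDerivAt (fun s : ℝ => (s - R) ^ 2) (2 * (r - R)) r := by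
        have := ((hasDerivAt_id r).sub_const R).fun_pow 2
        simpa using this
      refine h3.congr_of_eventuallyEq ?_
      filter_upwards [lt_mem_nhds hgt] with s hs
      rw [max_eq_left (by linarith)]
  have h4 := h1.fun_sub (h2.const_mul (cc R a b))
  have e : Q r / r ^ 2 - cc R a b * (2 * max (r - R) 0) = r * jG R a b Q r := by
    unfold jG
    field_simp
  rw [e] at h4
  exact h4

/-- derivative of `jG` -/
lemma jG_deriv : ∀ᵐ r : ℝ, R₀ < r → r ≠ R → HasDerivAt (jG R a b Q)
    (r ^ 2 * W r * f r / r ^ 3 - 3 * Q r / r ^ 4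
      - 2 * cc R a b * (if R < r then R / r ^ 2 else 0)) r := by
  filter_upwards [h.Q_deriv] with r hr hr1 hr2
  have hr0 : 0 < r := h.R₀_nonneg.trans_lt hr1
  have h1 := (hr hr1).fun_div (hasDerivAt_pow 3 r) (by positivity : r ^ 3 ≠ 0)
  have h2 : HasDerivAt (fun s => max (s - R) 0 / s) (if R < r then R / r ^ 2 else 0) r := by
    rcases lt_or_gt_of_ne hr2 with hlt | hgt
    · rw [if_neg (not_lt.2 hlt.le)]
      refine (hasDerivAt_const r (0:ℝ)).congr_of_eventuallyEq ?_
      filter_upwards [gt_mem_nhds hlt] with s hs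
      rw [max_eq_right (by linarith)]; simp
    · rw [if_pos hgt]
      have h3 : HasDerivAt (fun s : ℝ => (s - R) / s) (R / r ^ 2) r := by
        have h4 := ((hasDerivAt_id r).sub_const R).fun_div (hasDerivAt_id r) hr0.ne'
        have e : (1 * id r - (id r - R) * 1) / id r ^ 2 = R / r ^ 2 := by
          simp only [id]; ring
        rw [e] at h4
        exact h4
      refine h3.congr_of_eventuallyEq ?_
      filter_upwards [lt_mem_nhds hgt] with s hs
      rw [max_eq_left (by linarith)]
  have h5 := h1.fun_sub (h2.const_mul (2 * cc R a b))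
  have e : (r ^ 2 * W r * f r * r ^ 3 - Q r * (((3:ℕ):ℝ) * r ^ (3 - 1))) / (r ^ 3) ^ 2
      - 2 * cc R a b * (if R < r then R / r ^ 2 else 0)
      = r ^ 2 * W r * f r / r ^ 3 - 3 * Q r / r ^ 4
      - 2 * cc R a b * (if R < r then R / r ^ 2 else 0) := by
    congr 1
    push_cast
    field_simp
  rw [e] at h5
  exact h5

lemma fJ_prof (hb2 : b < 1/2) : Prof b (fJ R a b f) (gJ R a b f Q) where
  b_lt := hb2
  lip := h.fJ_lip hb
  bdd := ⟨1, fun r => by
    rw [abs_of_nonneg (h.fJ_nonneg hb r)]; exact h.fJ_le_one hb r⟩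
  deriv := by
    have hne : ∀ e : ℝ, ∀ᵐ r : ℝ, r ≠ e := fun e => by rw [ae_iff]; simp
    filter_upwards [hne R₀, hne R, hne b] with r h1 h2 h3 hr0
    rcases lt_or_gt_of_ne h3 with hlt | hgt
    · have h4 := (h.jPhi_deriv hb hr0 h1 h2).const_mul (jkap R a b f)
      have e : jkap R a b f * (r * jG R a b Q r) = r * gJ R a b f Q r := by
        unfold gJ
        rw [min_eq_left hlt.le]; ring
      rw [e] at h4
      refine h4.congr_of_eventuallyEq ?_
      filter_upwards [gt_mem_nhds hlt] with s hs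
      unfold fJ
      rw [min_eq_left (le_of_lt hs)]
    · have e : r * gJ R a b f Q r = 0 := by
        unfold gJ
        rw [min_eq_right hgt.le, h.jG_b hb]; ring
      rw [e]
      refine (hasDerivAt_const r (fJ R a b f b)).congr_of_eventuallyEq ?_
      filter_upwards [lt_mem_nhds hgt] with s hs
      unfold fJ
      rw [min_eq_right (le_of_lt hs), min_self]
  zero := fun r hr => by
    unfold gJ
    rw [min_eq_right hr, h.jG_b hb, mul_zero]
  const := fun r hr => by
    unfold fJ
    rw [min_eq_right hr, min_self]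

/-- weighted Lipschitz bound -/
lemma jPG_wlip : ∃ M, 0 ≤ M ∧ ∀ r s, 0 ≤ r → r ≤ s → s ≤ b →
    r * |jPhi R a b f s * jG R a b Q s - jPhi R a b f r * jG R a b Q r| ≤ M * (s - r) := by
  obtain ⟨L, hL0, hL⟩ := h.jPhi_lip hb
  obtain ⟨CG, hCG0, hCG⟩ := h.jG_bdd hb
  obtain ⟨M, hM0, hM⟩ := h.exists_M
  obtain ⟨C, hC0, hC⟩ := h.exists_C
  have hc := h.cc_pos hb
  have hb0 := h.b_pos hb
  have hR := h.R_pos
  refine ⟨b * (L * CG) + (M + 3 * C + 2 * cc R a b), by positivity, fun r s hr hrs hs => ?_⟩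
  rcases hr.eq_or_lt with hr' | hr'
  · rw [← hr', zero_mul, sub_zero]
    rw [← hr'] at hrs
    positivity
  have hs0 : 0 < s := hr'.trans_le hrs
  have hsr : 0 ≤ s - r := by linarith
  rcases lt_or_ge r R₀ with hr0 | hr0
  · have hR0 : 0 < R₀ := hr'.trans hr0
    have hG0 : jG R a b Q r = 0 := by
      unfold jG
      rw [h.Q_zero r hr0, max_eq_right (by linarith [h.R₀_le])]; simp
    rw [hG0, mul_zero, sub_zero]
    rcases lt_or_ge s R₀ with hs0' | hs0'
    · have hG0' : jG R a b Q s = 0 := by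
        unfold jG
        rw [h.Q_zero s hs0', max_eq_right (by linarith [h.R₀_le])]; simp
      rw [hG0', mul_zero, abs_zero, mul_zero]
      positivity
    · have h1 : jPhi R a b f R₀ = 0 := by
        unfold jPhi
        rw [h.f_core R₀ hR0 le_rfl, max_eq_right (by linarith [h.R₀_le])]; simp
      have h2 := hL s R₀ hs (by linarith [h.R₀_le, h.R_lt_b hb])
      rw [h1, sub_zero, abs_of_nonneg (sub_nonneg.2 hs0')] at h2
      rw [abs_mul]
      have h3 : |jPhi R a b f s| ≤ L * (s - r) :=
        h2.trans (mul_le_mul_of_nonneg_left (by linarith) hL0)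
      have h4 : |jPhi R a b f s| * |jG R a b Q s| ≤ (L * (s - r)) * CG :=
        mul_le_mul h3 (hCG s) (abs_nonneg _) (by positivity)
      have h5 : r * (|jPhi R a b f s| * |jG R a b Q s|) ≤ b * ((L * (s - r)) * CG) :=
        mul_le_mul (by linarith) h4 (by positivity) hb0.le
      have h6 : 0 ≤ (M + 3 * C + 2 * cc R a b) * (s - r) := by positivity
      linarith
  · -- both at least `R₀`
    have e1 : jPhi R a b f s * jG R a b Q s - jPhi R a b f r * jG R a b Q r
        = (jPhi R a b f s - jPhi R a b f r) * jG R a b Q s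
          + jPhi R a b f r * (jG R a b Q s - jG R a b Q r) := by ring
    have h1 : r * |(jPhi R a b f s - jPhi R a b f r) * jG R a b Q s| ≤ b * (L * CG) * (s - r) := by
      rw [abs_mul]
      have h2 := hL s r hs (hrs.trans hs)
      rw [abs_of_nonneg hsr] at h2
      have h3 := mul_le_mul h2 (hCG s) (abs_nonneg _) (by positivity)
      have h4 := mul_le_mul (hrs.trans hs) h3 (by positivity) hb0.le
      linarith
    -- the difference of jG
    have hq : |jG R a b Q s - jG R a b Q r|
        ≤ (Q s - Q r) / s ^ 3 + Q r * (1 / r ^ 3 - 1 / s ^ 3)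
          + 2 * cc R a b * |max (s - R) 0 / s - max (r - R) 0 / r| := by
      have e2 : jG R a b Q s - jG R a b Q r
          = (Q s - Q r) / s ^ 3 - Q r * (1 / r ^ 3 - 1 / s ^ 3)
            - 2 * cc R a b * (max (s - R) 0 / s - max (r - R) 0 / r) := by
        unfold jG
        field_simp
        ring
      have p1 : 0 ≤ (Q s - Q r) / s ^ 3 := div_nonneg (sub_nonneg.2 (h.Q_mono hrs)) (by positivity)
      have p2 : 0 ≤ Q r * (1 / r ^ 3 - 1 / s ^ 3) := by
        refine mul_nonneg (h.Q_nonneg r) (sub_nonneg.2 ?_)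
        exact one_div_le_one_div_of_le (by positivity) (pow_le_pow_left₀ hr'.le hrs 3)
      rw [e2]
      refine (abs_sub _ _).trans (add_le_add ((abs_sub _ _).trans ?_) ?_)
      · rw [abs_of_nonneg p1, abs_of_nonneg p2]
      · rw [abs_mul, abs_of_pos (by positivity)]
    have t1 : r * ((Q s - Q r) / s ^ 3) ≤ M * (s - r) := by
      have := h.Q_sub_le hM0 hM hr0 hrs
      have h5 : (Q s - Q r) / s ^ 3 ≤ M * (s - r) / s := by
        rw [div_le_div_iff₀ (by positivity) hs0]
        calc (Q s - Q r) * s ≤ (M * s ^ 2 * (s - r)) * s := mul_le_mul_of_nonneg_right this hs0.le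
          _ = M * (s - r) * s ^ 3 := by ring
      calc r * ((Q s - Q r) / s ^ 3) ≤ s * (M * (s - r) / s) :=
            mul_le_mul hrs h5 (div_nonneg (sub_nonneg.2 (h.Q_mono hrs)) (by positivity)) hs0.le
        _ = M * (s - r) := by field_simp
    have t2 : r * (Q r * (1 / r ^ 3 - 1 / s ^ 3)) ≤ 3 * C * (s - r) := by
      have p2 : 0 ≤ 1 / r ^ 3 - 1 / s ^ 3 := sub_nonneg.2
        (one_div_le_one_div_of_le (by positivity) (pow_le_pow_left₀ hr'.le hrs 3))
      have h6 : Q r * (1 / r ^ 3 - 1 / s ^ 3) ≤ C * r ^ 3 * (1 / r ^ 3 - 1 / s ^ 3) :=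
        mul_le_mul_of_nonneg_right (hC r hr') p2
      have h7 : C * r ^ 3 * (1 / r ^ 3 - 1 / s ^ 3) = C * ((s ^ 3 - r ^ 3) / s ^ 3) := by
        field_simp
      have h8 : (s ^ 3 - r ^ 3) / s ^ 3 ≤ 3 * (s - r) / s := by
        rw [div_le_div_iff₀ (by positivity) hs0]
        have h9 : s ^ 3 - r ^ 3 ≤ 3 * s ^ 2 * (s - r) := by
          have e9 : s ^ 3 - r ^ 3 = (s ^ 2 + s * r + r ^ 2) * (s - r) := by ring
          rw [e9]
          refine mul_le_mul_of_nonneg_right ?_ hsr
          nlinarith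
        calc (s ^ 3 - r ^ 3) * s ≤ (3 * s ^ 2 * (s - r)) * s := mul_le_mul_of_nonneg_right h9 hs0.le
          _ = 3 * (s - r) * s ^ 3 := by ring
      calc r * (Q r * (1 / r ^ 3 - 1 / s ^ 3)) ≤ s * (C * (3 * (s - r) / s)) := by
            refine mul_le_mul hrs ?_ (mul_nonneg (h.Q_nonneg r) p2) hs0.le
            rw [h7] at h6
            exact h6.trans (mul_le_mul_of_nonneg_left h8 hC0)
        _ = 3 * C * (s - r) := by field_simp
    have t3 : r * |max (s - R) 0 / s - max (r - R) 0 / r| ≤ s - r := by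
      rcases le_or_gt s R with hsR | hsR
      · rw [max_eq_right (by linarith), max_eq_right (by linarith)]
        simp; exact hrs
      · have e3 : max (s - R) 0 / s = 1 - R / s := by
          rw [max_eq_left (by linarith)]; field_simp
        have e4 : max (r - R) 0 / r = max (1 - R / r) 0 := by
          rcases le_or_gt r R with h' | h'
          · rw [max_eq_right (by linarith), max_eq_right, zero_div]
            rw [sub_nonpos, le_div_iff₀ hr']; linarith
          · rw [max_eq_left (by linarith), max_eq_left]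
            · field_simp
            · rw [sub_nonneg, div_le_iff₀ hr']; linarith
        have e5 : max (s - R) 0 / s = max (1 - R / s) 0 := by
          rw [e3, max_eq_left]
          rw [sub_nonneg, div_le_iff₀ hs0]; linarith
        rw [e4, e5]
        have h10 : |max (1 - R / s) 0 - max (1 - R / r) 0| ≤ |(1 - R / s) - (1 - R / r)| := by
          exact abs_max_sub_max_le_abs _ _ _
        have h11 : (1 - R / s) - (1 - R / r) = R * (s - r) / (r * s) := by
          field_simp; ring
        have h12 : 0 ≤ R * (s - r) / (r * s) := by positivity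
        rw [h11, abs_of_nonneg h12] at h10
        calc r * |max (1 - R / s) 0 - max (1 - R / r) 0| ≤ r * (R * (s - r) / (r * s)) :=
              mul_le_mul_of_nonneg_left h10 hr
          _ = (R / s) * (s - r) := by field_simp
          _ ≤ 1 * (s - r) := by
              refine mul_le_mul_of_nonneg_right ?_ hsr
              rw [div_le_one hs0]; exact hsR.le
          _ = s - r := one_mul _
    have h13 : r * |jPhi R a b f r * (jG R a b Q s - jG R a b Q r)|
        ≤ (M + 3 * C + 2 * cc R a b) * (s - r) := by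
      rw [abs_mul, abs_of_nonneg (h.jPhi_nonneg hb (hrs.trans hs))]
      have h14 := h.jPhi_le_one hb (hrs.trans hs)
      have h15 : r * |jG R a b Q s - jG R a b Q r| ≤ (M + 3 * C + 2 * cc R a b) * (s - r) := by
        have h16 := mul_le_mul_of_nonneg_left hq hr
        have h17 := mul_le_mul_of_nonneg_left t3 (by positivity : 0 ≤ 2 * cc R a b)
        linarith
      calc r * (jPhi R a b f r * |jG R a b Q s - jG R a b Q r|)
          = jPhi R a b f r * (r * |jG R a b Q s - jG R a b Q r|) := by ring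
        _ ≤ 1 * (r * |jG R a b Q s - jG R a b Q r|) :=
            mul_le_mul_of_nonneg_right h14 (by positivity)
        _ ≤ _ := by rw [one_mul]; exact h15
    rw [e1]
    have h18 := mul_le_mul_of_nonneg_left (abs_add_le
      ((jPhi R a b f s - jPhi R a b f r) * jG R a b Q s)
      (jPhi R a b f r * (jG R a b Q s - jG R a b Q r))) hr
    linarith

lemma kJ_meas : Measurable (kJ W R a b f Q) := by
  unfold kJ
  refine Measurable.ite measurableSet_Iio ?_ measurable_const
  refine Measurable.const_mul ?_ _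
  refine ((measurable_id.pow_const 2).mul ((h.jG_meas hb).pow_const 2)).add
    ((h.jPhi_cont hb).measurable.mul ?_)
  refine (((h.W_meas.mul h.f_cont.measurable).sub
    ((h.Q_meas.div (measurable_id.pow_const 3)).const_mul 3))).sub (Measurable.const_mul ?_ _)
  exact Measurable.ite measurableSet_Ioi (measurable_const.div measurable_id) measurable_const

lemma kJ_bdd : ∃ C, ∀ r, |kJ W R a b f Q r| ≤ C := by
  obtain ⟨CG, hCG0, hCG⟩ := h.jG_bdd hb
  obtain ⟨M, hM0, hM⟩ := h.exists_M
  obtain ⟨C, hC0, hC⟩ := h.exists_C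
  have hc := h.cc_pos hb
  have hb0 := h.b_pos hb
  have hR := h.R_pos
  have hk := h.jkap_pos hb
  set B : ℝ := (jkap R a b f) ^ 2 * (b ^ 2 * CG ^ 2 + (M + 3 * C + 2 * cc R a b)) with hB
  have hB0 : 0 ≤ B := by positivity
  refine ⟨B, fun r => ?_⟩
  unfold kJ
  by_cases hrb : r < b
  · rw [if_pos hrb, abs_mul, abs_of_pos (by positivity)]
    refine mul_le_mul_of_nonneg_left ((abs_add_le _ _).trans (add_le_add ?_ ?_)) (by positivity)
    · rcases le_or_gt r 0 with hr | hr
      · rw [h.jG_of_nonpos hb hr]; simp; positivity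
      · rw [abs_of_nonneg (by positivity)]
        refine mul_le_mul (pow_le_pow_left₀ hr.le hrb.le 2) ?_ (sq_nonneg _) (sq_nonneg _)
        rw [← sq_abs]
        exact pow_le_pow_left₀ (abs_nonneg _) (hCG r) 2
    · rw [abs_mul, abs_of_nonneg (h.jPhi_nonneg hb hrb.le)]
      have h1 := h.jPhi_le_one hb hrb.le
      have hQ3 : 0 ≤ Q r / r ^ 3 ∧ Q r / r ^ 3 ≤ C := by
        rcases le_or_gt r 0 with hr | hr
        · rw [h.Q_zero' r hr]; simp; exact hC0
        · refine ⟨div_nonneg (h.Q_nonneg r) (by positivity), ?_⟩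
          rw [div_le_iff₀ (by positivity)]
          exact hC r hr
      have hi : 0 ≤ (if R < r then R / r else 0) ∧ (if R < r then R / r else 0) ≤ 1 := by
        split_ifs with hRr
        · have hr : 0 < r := hR.trans hRr
          refine ⟨by positivity, ?_⟩
          rw [div_le_one hr]; exact hRr.le
        · exact ⟨le_rfl, zero_le_one⟩
      have hWf : 0 ≤ W r * f r ∧ W r * f r ≤ M := by
        refine ⟨mul_nonneg (h.W_nonneg r) (h.f_nonneg r), ?_⟩
        calc W r * f r ≤ W r * 1 := mul_le_mul_of_nonneg_left (h.f_le_one r) (h.W_nonneg r)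
          _ ≤ M := by rw [mul_one]; exact hM r
      have h2 : |W r * f r - 3 * (Q r / r ^ 3) - 2 * cc R a b * (if R < r then R / r else 0)|
          ≤ M + 3 * C + 2 * cc R a b := by
        have h3 : 2 * cc R a b * (if R < r then R / r else 0) ≤ 2 * cc R a b * 1 :=
          mul_le_mul_of_nonneg_left hi.2 (by positivity)
        have h4 : 0 ≤ 2 * cc R a b * (if R < r then R / r else 0) :=
          mul_nonneg (by positivity) hi.1
        rw [abs_le]
        constructor
        · linarith [hWf.1, hQ3.2]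
        · linarith [hWf.2, hQ3.1]
      calc jPhi R a b f r * |_| ≤ 1 * (M + 3 * C + 2 * cc R a b) :=
            mul_le_mul h1 h2 (abs_nonneg _) zero_le_one
        _ = _ := one_mul _
  · rw [if_neg hrb, abs_zero]; exact hB0

theorem jdata (hb2 : b < 1/2) :
    JData b (fJ R a b f) (gJ R a b f Q) (kJ W R a b f Q) where
  hf := h.fJ_prof hb hb2
  f_nonneg := h.fJ_nonneg hb
  f_le_one := h.fJ_le_one hb
  g_meas := by
    unfold gJ
    exact ((h.jG_meas hb).comp (measurable_id.min measurable_const)).const_mul _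
  g_bdd := by
    obtain ⟨C, hC0, hC⟩ := h.jG_bdd hb
    refine ⟨jkap R a b f * C, fun r => ?_⟩
    unfold gJ
    rw [abs_mul, abs_of_pos (h.jkap_pos hb)]
    exact mul_le_mul_of_nonneg_left (hC _) (h.jkap_pos hb).le
  hk :=
    { b_lt := hb2
      meas := by
        refine (h.fJ_prof hb hb2).continuous.measurable.mul ?_
        unfold gJ
        exact ((h.jG_meas hb).comp (measurable_id.min measurable_const)).const_mul _
      meas' := h.kJ_meas hb
      wlip := by
        obtain ⟨M, hM0, hM⟩ := h.jPG_wlip hb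
        have hk := h.jkap_pos hb
        refine ⟨(jkap R a b f) ^ 2 * M, fun r s hr hrs => ?_⟩
        have e : ∀ t, fJ R a b f t * gJ R a b f Q t = (jkap R a b f) ^ 2
            * (jPhi R a b f (min t b) * jG R a b Q (min t b)) := fun t => by
          unfold fJ gJ; ring
        rw [e, e, ← mul_sub, abs_mul, abs_of_pos (by positivity : 0 < (jkap R a b f) ^ 2)]
        rcases le_or_gt b r with hbr | hbr
        · rw [min_eq_right hbr, min_eq_right (hbr.trans hrs), sub_self, abs_zero]
          have : 0 ≤ s - r := by linarith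
          have : 0 ≤ (jkap R a b f) ^ 2 * M * (s - r) := by positivity
          simpa using this
        · rw [min_eq_left hbr.le]
          have h1 := hM r (min s b) hr (le_min hrs hbr.le) (min_le_right _ _)
          have h2 : M * (min s b - r) ≤ M * (s - r) :=
            mul_le_mul_of_nonneg_left (by linarith [min_le_left s b]) hM0
          calc r * ((jkap R a b f) ^ 2 * |_|) = (jkap R a b f) ^ 2 * (r * |_|) := by ring
            _ ≤ (jkap R a b f) ^ 2 * (M * (s - r)) :=
                mul_le_mul_of_nonneg_left (h1.trans h2) (by positivity)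
            _ = _ := by ring
      bdd := by
        obtain ⟨C, hC0, hC⟩ := h.jG_bdd hb
        refine ⟨1 * (jkap R a b f * C), fun r => ?_⟩
        rw [abs_mul]
        refine mul_le_mul ?_ ?_ (abs_nonneg _) zero_le_one
        · rw [abs_of_nonneg (h.fJ_nonneg hb r)]; exact h.fJ_le_one hb r
        · unfold gJ
          rw [abs_mul, abs_of_pos (h.jkap_pos hb)]
          exact mul_le_mul_of_nonneg_left (hC _) (h.jkap_pos hb).le
      bdd' := h.kJ_bdd hb
      deriv := by
        have hne : ∀ e : ℝ, ∀ᵐ r : ℝ, r ≠ e := fun e => by rw [ae_iff]; simp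
        filter_upwards [hne R₀, hne R, hne b, h.jG_deriv hb] with r h1 h2 h3 hG hr0
        rcases lt_or_gt_of_ne h3 with hlt | hgt
        · rcases lt_or_gt_of_ne h1 with hlt0 | hgt0
          · -- inside the core
            have e : kJ W R a b f Q r / r = 0 := by
              unfold kJ
              have hR0 : 0 < R₀ := hr0.trans hlt0
              have hG0 : jG R a b Q r = 0 := by
                unfold jG
                rw [h.Q_zero r hlt0, max_eq_right (by linarith [h.R₀_le])]; simp
              have hP0 : jPhi R a b f r = 0 := by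
                unfold jPhi
                rw [h.f_core r hR0 hlt0.le, max_eq_right (by linarith [h.R₀_le])]; simp
              rw [if_pos hlt, hG0, hP0]; simp
            rw [e]
            refine (hasDerivAt_const r (0:ℝ)).congr_of_eventuallyEq ?_
            filter_upwards [gt_mem_nhds hlt0, gt_mem_nhds hlt] with s hs hs'
            unfold gJ
            rw [min_eq_left (le_of_lt hs')]
            unfold jG
            rw [h.Q_zero s hs, max_eq_right (by linarith [h.R₀_le])]; simp
          · have h4 := (h.jPhi_deriv hb hr0 h1 h2).fun_mul (hG hgt0 h2)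
            have h5 := h4.const_mul ((jkap R a b f) ^ 2)
            have e : (jkap R a b f) ^ 2 * (r * jG R a b Q r * jG R a b Q r + jPhi R a b f r *
                (r ^ 2 * W r * f r / r ^ 3 - 3 * Q r / r ^ 4
                - 2 * cc R a b * (if R < r then R / r ^ 2 else 0)))
                = kJ W R a b f Q r / r := by
              unfold kJ
              rw [if_pos hlt]
              split_ifs
              · field_simp
              · simp only [mul_zero, sub_zero]
                field_simp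
            rw [e] at h5
            refine h5.congr_of_eventuallyEq ?_
            filter_upwards [gt_mem_nhds hlt] with s hs
            unfold fJ gJ
            rw [min_eq_left (le_of_lt hs)]
            ring
        · have e : kJ W R a b f Q r / r = 0 := by
            unfold kJ
            rw [if_neg (not_lt.2 hgt.le), zero_div]
          rw [e]
          refine (hasDerivAt_const r (0:ℝ)).congr_of_eventuallyEq ?_
          filter_upwards [lt_mem_nhds hgt] with s hs
          unfold gJ
          rw [min_eq_right (le_of_lt hs), h.jG_b hb]; ring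
      zero := fun r hr => by
        unfold gJ
        rw [min_eq_right hr, h.jG_b hb]; ring
      zero' := fun r hr => by
        unfold kJ
        rw [if_neg (not_lt.2 hr)] }

end

end Scat

end Pool.Agent.Lib.MP_4952d6_mp

end

/-! ### JEst -/

section

set_option autoImplicit false
set_option linter.unusedSectionVars false
set_option linter.unusedVariables false
open MeasureTheory Function Filter Topology Set

namespace Pool.Agent.Lib.MP_4952d6_mp

/-- Upper bound for a radial integral. -/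
lemma rad_le {b s : ℝ} {φ B : ℝ → ℝ} (hs : 0 ≤ s) (hsb : s ≤ b) (hb2 : b < 1/2)
    (hφ0 : ∀ r, b ≤ r → φ r = 0) (hφs : ∀ r, 0 < r → r < s → φ r = 0)
    (hpos : ∀ r, 0 < r → 0 ≤ φ r)
    (hle : ∀ r, s < r → r < b → r ^ 2 * φ r ≤ B r) (hB : IntervalIntegrable B volume s b) :
    ∫ x, φ (rr x) ∂lam3 ≤ sig * ∫ r in s..b, B r := by
  rw [integral_rad (fun r hr => hφ0 r (hb2.le.trans hr))]
  refine mul_le_mul_of_nonneg_left ?_ sig_pos.le
  have h1 : ∫ r in Ioi (0:ℝ), r ^ 2 * φ r = ∫ r in Ioc s b, r ^ 2 * φ r := by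
    have hsub : Ioc s b ⊆ Ioi (0:ℝ) := fun r hr => hs.trans_lt hr.1
    have hne : ∀ᵐ r : ℝ, r ≠ s := by rw [ae_iff]; simp
    rw [← setIntegral_eq_of_subset_of_ae_sdiff_eq_zero (s := Ioc s b) (t := Ioi (0:ℝ))
      measurableSet_Ioi.nullMeasurableSet hsub]
    filter_upwards [hne] with r hr hmem
    obtain ⟨h1, h2⟩ := hmem
    rcases lt_or_ge s r with h3 | h3
    · have : b < r := by
        by_contra hcon
        exact h2 ⟨h3, not_lt.1 hcon⟩
      rw [hφ0 r this.le, mul_zero]
    · rw [hφs r h1 (lt_of_le_of_ne h3 hr), mul_zero]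
  rw [h1, intervalIntegral.integral_of_le hsb]
  have hBi : Integrable B (volume.restrict (Ioc s b)) :=
    (intervalIntegrable_iff_integrableOn_Ioc_of_le hsb).1 hB
  refine integral_mono_of_nonneg ?_ hBi ?_
  · refine (ae_restrict_iff' measurableSet_Ioc).2 (Eventually.of_forall fun r hr => ?_)
    exact mul_nonneg (sq_nonneg r) (hpos r (hs.trans_lt hr.1))
  · have hne : ∀ᵐ r : ℝ, r ≠ b := by rw [ae_iff]; simp
    refine (ae_restrict_iff' measurableSet_Ioc).2 ?_
    filter_upwards [hne] with r hr hmem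
    exact hle r hmem.1 (lt_of_le_of_ne hmem.2 hr)

namespace Scat

variable {W : ℝ → ℝ} {R₀ R a : ℝ} {f Q : ℝ → ℝ}

/-- effective pair potential including the interaction -/
noncomputable def effW (W : ℝ → ℝ) (R a b : ℝ) (f Q : ℝ → ℝ) (r : ℝ) : ℝ :=
  JData.eff (fJ R a b f) (gJ R a b f Q) (kJ W R a b f Q) r + W r * fJ R a b f r ^ 2

section
variable (h : Scat W R₀ R a f Q) {b : ℝ} (hb : 2 * R ≤ b)
include h hb

lemma jPhi_eq_f {r : ℝ} (hr : r ≤ R) : jPhi R a b f r = f r := by
  unfold jPhi
  rw [max_eq_right (by linarith)]; simp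

lemma jPhi_le_f (r : ℝ) : jPhi R a b f r ≤ f r := by
  unfold jPhi
  have := h.cc_pos hb
  have : 0 ≤ cc R a b * (max (r - R) 0) ^ 2 := by positivity
  linarith

lemma effW_nonneg {r : ℝ} (hr : 0 ≤ r) : 0 ≤ effW W R a b f Q r := by
  have hc := h.cc_pos hb
  have hR := h.R_pos
  unfold effW JData.eff
  rcases lt_or_ge r b with hrb | hrb
  · have hP0 := h.jPhi_nonneg hb hrb.le
    have e1 : gJ R a b f Q r ^ 2 * r ^ 2 - 1/2 * (kJ W R a b f Q r
          + 3 * (fJ R a b f r * gJ R a b f Q r)) + W r * fJ R a b f r ^ 2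
        = (jkap R a b f) ^ 2 * (1/2 * (r ^ 2 * jG R a b Q r ^ 2)
          + W r * jPhi R a b f r * (jPhi R a b f r - 1/2 * f r)
          + jPhi R a b f r * (cc R a b * (if R < r then R / r else 0)
            + 3 * cc R a b * (max (r - R) 0 / r))) := by
      unfold kJ fJ gJ
      rw [if_pos hrb, min_eq_left hrb.le]
      have e2 : Q r / r ^ 3 = jG R a b Q r + 2 * cc R a b * (max (r - R) 0 / r) := by
        unfold jG; ring
      rw [e2]
      ring
    rw [e1]
    refine mul_nonneg (sq_nonneg _) (add_nonneg (add_nonneg (by positivity) ?_) ?_)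
    · rcases lt_or_ge r R with hrR | hrR
      · rw [h.jPhi_eq_f hb hrR.le]
        have h1 := h.W_nonneg r
        have h2 := h.f_nonneg r
        have e : W r * f r * (f r - 1/2 * f r) = 1/2 * (W r * f r ^ 2) := by ring
        rw [e]; positivity
      · rw [h.W_zero r hrR]; simp
    · refine mul_nonneg hP0 ?_
      have h1 : 0 ≤ (if R < r then R / r else 0) := by
        split_ifs
        · positivity
        · exact le_rfl
      have h2 : 0 ≤ max (r - R) 0 / r := by positivity
      positivity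
  · rw [h.W_zero r ((h.R_lt_b hb).le.trans hrb)]
    unfold kJ gJ
    rw [if_neg (not_lt.2 hrb), min_eq_right hrb, h.jG_b hb]
    simp

lemma abs_jG_le {r : ℝ} (hr : 0 < r) (hrb : r ≤ b) : |r ^ 3 * jG R a b Q r| ≤ Q r := by
  have hc := h.cc_pos hb
  have hR := h.R_pos
  have ha := h.a_pos
  have hQ := h.Q_nonneg r
  have e : r ^ 3 * jG R a b Q r = Q r - 2 * cc R a b * (r ^ 2 * max (r - R) 0) := by
    unfold jG; field_simp
  rw [e]
  rcases le_or_gt r R with hrR | hrR
  · rw [max_eq_right (by linarith)]; simp [abs_of_nonneg hQ]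
  · rw [max_eq_left (by linarith), h.Q_out r hrR.le]
    have h1 : 2 * cc R a b * (r ^ 2 * (r - R)) ≤ a := by
      have h2 : r ^ 2 * (r - R) ≤ b ^ 2 * (b - R) :=
        mul_le_mul (pow_le_pow_left₀ hr.le hrb 2) (by linarith) (by linarith) (sq_nonneg b)
      have h3 := mul_le_mul_of_nonneg_left h2 (by positivity : 0 ≤ 2 * cc R a b)
      have h4 := h.cc_mul' hb
      have hb0 := h.b_pos hb
      have e2 : 2 * cc R a b * (b ^ 2 * (b - R)) = (2 * cc R a b * (b - R)) * b ^ 2 := by ring
      rw [e2, h4] at h3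
      have e3 : a / b ^ 2 * b ^ 2 = a := by field_simp
      linarith
    have h5 : 0 ≤ 2 * cc R a b * (r ^ 2 * (r - R)) := by
      have : 0 < r - R := by linarith
      positivity
    rw [abs_le]; constructor <;> linarith

/-- The integral of the effective potential. -/
lemma effW_int (hb2 : b < 1/2) :
    ∫ x, effW W R a b f Q (rr x) ∂lam3 ≤ (jkap R a b f) ^ 2 * (sig * a) := by
  have hJ := h.jdata hb hb2
  have hR := h.R_pos
  have hRb := h.R_lt_b hb
  have hb0 := h.b_pos hb
  have ha := h.a_pos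
  have hk := h.jkap_pos hb
  have hWb : BM (fun x : T3 => W (rr x)) := by
    obtain ⟨M, hM0, hM⟩ := h.exists_M
    exact BM.of_mem_Icc (h.W_meas.comp rr_measurable) fun x => ⟨h.W_nonneg _, hM _⟩
  -- divergence integrates to zero
  have hdiv : ∫ x, (kJ W R a b f Q (rr x) + 3 * (fJ R a b f (rr x) * gJ R a b f Q (rr x))) ∂lam3
      = 0 := by
    have h1 : ∀ α : Fin 3, ∫ x, (kJ W R a b f Q (rr x) * (crd x α / rr x) ^ 2
        + fJ R a b f (rr x) * gJ R a b f Q (rr x)) ∂lam3 = 0 := fun α =>
      (hJ.hk.fld_WD α).integral_eq_zero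
    have h2 : ∀ α : Fin 3, BM (fun x : T3 => kJ W R a b f Q (rr x) * (crd x α / rr x) ^ 2
        + fJ R a b f (rr x) * gJ R a b f Q (rr x)) := fun α =>
      (hJ.k1_bm.mul ((JData.dir_bm α).pow 2)).add (hJ.f_bm.mul hJ.g_bm)
    have h3 : ∫ x, ∑ α : Fin 3, (kJ W R a b f Q (rr x) * (crd x α / rr x) ^ 2
        + fJ R a b f (rr x) * gJ R a b f Q (rr x)) ∂lam3 = 0 := by
      rw [integral_finsetSum _ (fun α _ => (h2 α).integrable _)]
      simp [h1]
    rw [← h3]
    refine integral_congr_ae ?_
    filter_upwards [ae_rr_pos] with x hx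
    rw [sum_dir _ _ hx]
  have b1 : BM (fun x : T3 => gJ R a b f Q (rr x) ^ 2 * rr x ^ 2) :=
    (hJ.g_bm.pow 2).mul (JData.rr_bm'.pow 2)
  have b2 : BM (fun x : T3 => kJ W R a b f Q (rr x)
      + 3 * (fJ R a b f (rr x) * gJ R a b f Q (rr x))) :=
    hJ.k1_bm.add ((hJ.f_bm.mul hJ.g_bm).const_mul 3)
  have b3 : BM (fun x : T3 => W (rr x) * fJ R a b f (rr x) ^ 2) := hWb.mul (hJ.f_bm.pow 2)
  have e1 : ∫ x, effW W R a b f Q (rr x) ∂lam3
      = ∫ x, (fun r => gJ R a b f Q r ^ 2 * r ^ 2 + W r * fJ R a b f r ^ 2) (rr x) ∂lam3 := by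
    have e2 : ∀ x : T3, effW W R a b f Q (rr x)
        = (gJ R a b f Q (rr x) ^ 2 * rr x ^ 2 + W (rr x) * fJ R a b f (rr x) ^ 2)
          - 1/2 * (kJ W R a b f Q (rr x) + 3 * (fJ R a b f (rr x) * gJ R a b f Q (rr x))) := by
      intro x
      unfold effW JData.eff
      ring
    simp_rw [e2]
    rw [integral_sub ((b1.add b3).integrable _) ((b2.const_mul _).integrable _),
      integral_const_mul, hdiv]
    simp
  rw [e1]
  have h5 := rad_le (b := b) (s := R₀)
    (φ := fun r => gJ R a b f Q r ^ 2 * r ^ 2 + W r * fJ R a b f r ^ 2)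
    (B := fun r => (jkap R a b f) ^ 2 * (Q r ^ 2 / r ^ 2 + r ^ 2 * W r * f r ^ 2))
    h.R₀_nonneg (h.R₀_le.trans hRb.le) hb2
    (fun r hr => by
      rw [h.W_zero r (hRb.le.trans hr)]
      unfold gJ
      rw [min_eq_right hr, h.jG_b hb]; simp)
    (fun r hr0 hr => by
      have hR0 : 0 < R₀ := hr0.trans hr
      have hrb : r ≤ b := hr.le.trans (h.R₀_le.trans hRb.le)
      unfold gJ fJ
      rw [min_eq_left hrb, h.jPhi_eq_f hb (hr.le.trans h.R₀_le), h.f_core r hR0 hr.le]
      unfold jG
      rw [h.Q_zero r hr, max_eq_right (by linarith [h.R₀_le])]; simp)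
    (fun r hr => by
      have := h.W_nonneg r
      positivity)
    (fun r hr hrb => by
      have hr0 : 0 < r := h.R₀_nonneg.trans_lt hr
      unfold gJ fJ
      rw [min_eq_left hrb.le]
      have h6 := h.abs_jG_le hb hr0 hrb.le
      have h7 : (r ^ 3 * jG R a b Q r) ^ 2 ≤ Q r ^ 2 := by
        rw [← sq_abs]; exact pow_le_pow_left₀ (abs_nonneg _) h6 2
      have h8 : jPhi R a b f r ^ 2 ≤ f r ^ 2 :=
        pow_le_pow_left₀ (h.jPhi_nonneg hb hrb.le) (h.jPhi_le_f hb r) 2
      have e3 : r ^ 2 * ((jkap R a b f * jG R a b Q r) ^ 2 * r ^ 2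
          + W r * (jkap R a b f * jPhi R a b f r) ^ 2)
          = (jkap R a b f) ^ 2 * ((r ^ 3 * jG R a b Q r) ^ 2 / r ^ 2
            + r ^ 2 * W r * jPhi R a b f r ^ 2) := by
        field_simp
      rw [e3]
      refine mul_le_mul_of_nonneg_left (add_le_add ?_ ?_) (sq_nonneg _)
      · exact div_le_div_of_nonneg_right h7 (by positivity)
      · exact mul_le_mul_of_nonneg_left h8 (mul_nonneg (sq_nonneg r) (h.W_nonneg r)))
    ((h.energy_int b).const_mul _)
  refine h5.trans ?_
  rw [intervalIntegral.integral_const_mul, h.energy hRb.le]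
  have h9 : a * (1 - a / b) ≤ a := by
    have : 0 ≤ a / b := by positivity
    nlinarith
  have hs := sig_pos
  calc sig * ((jkap R a b f) ^ 2 * (a * (1 - a / b))) ≤ sig * ((jkap R a b f) ^ 2 * a) := by
        refine mul_le_mul_of_nonneg_left (mul_le_mul_of_nonneg_left h9 (sq_nonneg _)) hs.le
    _ = _ := by ring

/-- Deviation of the Jastrow function from `1`. -/
lemma one_sub_fJ_le {r : ℝ} (hr : 0 < r) (hrb : r < b) :
    1 - fJ R a b f r ≤ 3 / 2 * jkap R a b f * (a / r) := by
  have hk := h.jkap_pos hb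
  have hkm := h.jkap_mul hb
  have ha := h.a_pos
  have hc := h.cc_pos hb
  have hb0 := h.b_pos hb
  have hR := h.R_pos
  have hRb := h.R_lt_b hb
  unfold fJ
  rw [min_eq_left hrb.le]
  have h1 : 1 - jkap R a b f * jPhi R a b f r
      = jkap R a b f * (jPhi R a b f b - jPhi R a b f r) := by
    rw [mul_sub, hkm]
  rw [h1]
  have h2 : jPhi R a b f b ≤ 1 := h.jPhi_le_one hb le_rfl
  have h3 : jPhi R a b f b - jPhi R a b f r ≤ 3 / 2 * (a / r) := by
    have h4 : 1 - a / r - a / (2 * r) ≤ jPhi R a b f r := by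
      unfold jPhi
      have h5 := h.f_ge r hr
      have h6 : cc R a b * (max (r - R) 0) ^ 2 ≤ a / (2 * r) := by
        have h7 : max (r - R) 0 ≤ b - R := max_le (by linarith) (by linarith)
        have h8 : cc R a b * (max (r - R) 0) ^ 2 ≤ cc R a b * (b - R) ^ 2 :=
          mul_le_mul_of_nonneg_left (pow_le_pow_left₀ (le_max_right _ _) h7 2) hc.le
        rw [h.cc_mul hb] at h8
        have h9 : a * (b - R) / (2 * b ^ 2) ≤ a / (2 * r) := by
          rw [div_le_div_iff₀ (by positivity) (by positivity)]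
          have h10 : (b - R) * r ≤ b * b := mul_le_mul (by linarith) hrb.le hr.le hb0.le
          nlinarith
        exact h8.trans h9
      linarith
    have e : 3 / 2 * (a / r) = a / r + a / (2 * r) := by field_simp; norm_num
    rw [e]; linarith
  calc jkap R a b f * (jPhi R a b f b - jPhi R a b f r) ≤ jkap R a b f * (3 / 2 * (a / r)) :=
        mul_le_mul_of_nonneg_left h3 hk.le
    _ = _ := by ring

lemma omega_le {r : ℝ} (hr : 0 < r) (hrb : r < b) :
    1 - fJ R a b f r ^ 2 ≤ 3 * jkap R a b f * (a / r) := by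
  have h1 := h.one_sub_fJ_le hb hr hrb
  have h2 := h.fJ_nonneg hb r
  have h3 := h.fJ_le_one hb r
  have e : 1 - fJ R a b f r ^ 2 = (1 - fJ R a b f r) * (1 + fJ R a b f r) := by ring
  rw [e]
  calc (1 - fJ R a b f r) * (1 + fJ R a b f r) ≤ (3 / 2 * jkap R a b f * (a / r)) * 2 := by
        refine mul_le_mul h1 (by linarith) (by linarith) ?_
        exact le_trans (by linarith) h1
    _ = _ := by ring

lemma fJ_of_ge {r : ℝ} (hr : b ≤ r) : fJ R a b f r = 1 := by
  unfold fJ
  rw [min_eq_right hr, h.jkap_mul hb]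

/-- First moment of `1 - F`. -/
lemma omega1 (hb2 : b < 1/2) :
    ∫ x, (1 - fJ R a b f (rr x) ^ 2) ∂lam3 ≤ 3 / 2 * jkap R a b f * (sig * a * b ^ 2) := by
  have hb0 := h.b_pos hb
  have h5 := rad_le (b := b) (s := 0) (φ := fun r => 1 - fJ R a b f r ^ 2)
    (B := fun r => (3 * jkap R a b f * a) * r) le_rfl hb0.le hb2
    (fun r hr => by rw [h.fJ_of_ge hb hr]; simp)
    (fun r hr0 hr => absurd hr (not_lt.2 hr0.le))
    (fun r hr => by
      have := pow_le_one₀ (n := 2) (h.fJ_nonneg hb r) (h.fJ_le_one hb r)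
      linarith)
    (fun r hr hrb => by
      have h6 := mul_le_mul_of_nonneg_left (h.omega_le hb hr hrb) (sq_nonneg r)
      refine h6.trans (le_of_eq ?_)
      field_simp)
    (Continuous.intervalIntegrable (by fun_prop) _ _)
  refine h5.trans (le_of_eq ?_)
  rw [intervalIntegral.integral_const_mul, integral_id]
  ring

/-- Second moment of `1 - F`. -/
lemma omega2 (hb2 : b < 1/2) :
    ∫ x, (1 - fJ R a b f (rr x) ^ 2) ^ 2 ∂lam3
      ≤ 9 * (jkap R a b f) ^ 2 * (sig * a ^ 2 * b) := by
  have hb0 := h.b_pos hb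
  have h5 := rad_le (b := b) (s := 0) (φ := fun r => (1 - fJ R a b f r ^ 2) ^ 2)
    (B := fun r => (3 * jkap R a b f * a) ^ 2) le_rfl hb0.le hb2
    (fun r hr => by rw [h.fJ_of_ge hb hr]; simp)
    (fun r hr0 hr => absurd hr (not_lt.2 hr0.le))
    (fun r hr => sq_nonneg _)
    (fun r hr hrb => by
      have h7 : 0 ≤ 1 - fJ R a b f r ^ 2 := by
        have := pow_le_one₀ (n := 2) (h.fJ_nonneg hb r) (h.fJ_le_one hb r)
        linarith
      have h6 := pow_le_pow_left₀ h7 (h.omega_le hb hr hrb) 2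
      have h8 := mul_le_mul_of_nonneg_left h6 (sq_nonneg r)
      refine h8.trans (le_of_eq ?_)
      field_simp)
    intervalIntegrable_const
  refine h5.trans (le_of_eq ?_)
  rw [intervalIntegral.integral_const, smul_eq_mul]
  ring

lemma jkap_le : jkap R a b f ≤ (1 - 3 * a / (2 * b))⁻¹ := by
  have h1 := h.jPhi_b_ge hb
  have h2 := h.a_div_b hb
  have hb0 := h.b_pos hb
  have e : 3 * a / (2 * b) = 3 / 2 * (a / b) := by field_simp
  have h3 : 0 < 1 - 3 * a / (2 * b) := by rw [e]; linarith
  exact inv_anti₀ h3 h1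

end

end Scat

end Pool.Agent.Lib.MP_4952d6_mp

end

/-! ### Energy -/

section

set_option autoImplicit false
set_option linter.unusedSectionVars false
set_option linter.unusedVariables false
open MeasureTheory Function Filter Topology Set ComplexConjugate
open scoped ENNReal

namespace Pool.Agent.Lib.MP_4952d6_mp

/-! ### Sums over pairs -/

lemma sum_pairs {M : Type*} [AddCommMonoid M] {N : ℕ} (f : Fin N → Fin N → M)
    (hf : ∀ i j, f i j = f j i) :
    ∑ i, ∑ j ∈ Finset.univ.erase i, f i j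
      = ∑ i, ∑ j ∈ Finset.Ioi i, f i j + ∑ i, ∑ j ∈ Finset.Ioi i, f i j := by
  have h1 : ∀ i : Fin N, Finset.univ.erase i = (Finset.Ioi i).disjUnion (Finset.Iio i)
      (by
        rw [Finset.disjoint_left]
        intro a ha hb
        rw [Finset.mem_Ioi] at ha
        rw [Finset.mem_Iio] at hb
        exact absurd ha (not_lt.2 hb.le)) := by
    intro i
    ext j
    simp only [Finset.mem_erase, Finset.mem_univ, and_true, Finset.mem_disjUnion, Finset.mem_Ioi,
      Finset.mem_Iio]
    constructor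
    · intro h
      rcases lt_or_gt_of_ne h with h | h
      · exact Or.inr h
      · exact Or.inl h
    · rintro (h | h)
      · exact h.ne'
      · exact h.ne
  simp_rw [h1, Finset.sum_disjUnion]
  rw [Finset.sum_add_distrib]
  congr 1
  rw [Finset.sum_comm' (t' := Finset.univ) (s' := fun j => Finset.Ioi j)]
  · refine Finset.sum_congr rfl fun i _ => Finset.sum_congr rfl fun j _ => hf _ _
  · intro x y
    simp only [Finset.mem_univ, Finset.mem_Iio, true_and, Finset.mem_Ioi, and_true]

lemma sum_pairs_real {N : ℕ} (f : Fin N → Fin N → ℝ) (hf : ∀ i j, f i j = f j i) :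
    ∑ i, ∑ j ∈ Finset.univ.erase i, f i j = ∑ i, ∑ j ∈ Finset.Ioi i, 2 * f i j := by
  rw [sum_pairs f hf]
  simp_rw [← Finset.mul_sum]
  ring

/-- Kinetic plus potential energy on the unit torus. -/
noncomputable def tE {N : ℕ} (𝒱 : T3 → ℝ≥0∞) (ψ : (Fin N → T3) → ℂ) : ℝ≥0∞ :=
  (∑' k : Fin N → Fin 3 → ℤ, ENNReal.ofReal (4 * Real.pi ^ 2 * (∑ i, ∑ α, (k i α : ℝ) ^ 2)
      * ‖fc ψ k‖ ^ 2))
    + ∫⁻ x, (∑ i, ∑ j ∈ Finset.Ioi i, 𝒱 (x i - x j)) * ‖ψ x‖ₑ ^ 2 ∂(piN (Fin N))

/-- Admissible states on the unit torus. -/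
def tAdm {N : ℕ} (R₀ : ℝ) (𝒱 : T3 → ℝ≥0∞) (ψ : (Fin N → T3) → ℂ) : Prop :=
  MemLp ψ 2 (piN (Fin N)) ∧ ∫ x, ‖ψ x‖ ^ 2 ∂(piN (Fin N)) = 1 ∧
    (∀ x, ∀ i j : Fin N, i ≠ j → rr (x i - x j) < R₀ → ψ x = 0) ∧ tE 𝒱 ψ < ⊤

lemma fc_const_mul {ι : Type*} [Fintype ι] (s : ℂ) (ψ : (ι → T3) → ℂ) (k : ι → Fin 3 → ℤ) :
    fc (fun x => s * ψ x) k = s * fc ψ k := by
  unfold fc
  rw [← integral_const_mul]
  congr 1; ext x; ring

lemma tE_smul {N : ℕ} (𝒱 : T3 → ℝ≥0∞) (ψ : (Fin N → T3) → ℂ) (s : ℝ) (hs : 0 ≤ s) :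
    tE 𝒱 (fun x => (s : ℂ) * ψ x) = ENNReal.ofReal (s ^ 2) * tE 𝒱 ψ := by
  unfold tE
  rw [mul_add]
  congr 1
  · rw [← ENNReal.tsum_mul_left]
    congr 1; ext k
    rw [fc_const_mul, ← ENNReal.ofReal_mul (sq_nonneg s), norm_mul, mul_pow, Complex.norm_real,
      Real.norm_eq_abs, sq_abs]
    congr 1; ring
  · rw [← lintegral_const_mul' _ _ ENNReal.ofReal_ne_top]
    congr 1; ext x
    rw [enorm_mul, mul_pow]
    have : ‖(s : ℂ)‖ₑ ^ 2 = ENNReal.ofReal (s ^ 2) := by
      rw [← ofReal_norm_eq_enorm, Complex.norm_real, Real.norm_of_nonneg hs,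
        ENNReal.ofReal_pow hs]
    rw [this]; ring

end Pool.Agent.Lib.MP_4952d6_mp

end

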