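import Pool.Agent.Lib.MP_4952d6_mp.Pk.G10
import Pool.Agent.Lib.MP_4952d6_mp.Pk.G14

/-! Merged modules (to save import time): U.Defs, U.G0, U.GA, U.GB, U.GC, U.GD1, U.GD2, U.GD3. -/

/-! ### U.Defs -/

section

/-!
# Stream U (sharp upper bound): definitions for the classical gas

`n` particles are functions `Fin n → T3`; all pair weights are functions `F` on the unit torus `T3`.
Small parameter: `q`, with `Y = q ^ 200` (`Y² = N a³`), so that all powers of `Y` are natural powers of `q`.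
-/

set_option autoImplicit false
set_option linter.unusedSectionVars false
set_option linter.unusedVariables false
open MeasureTheory Function Filter Topology Set

namespace Pool.Agent.Lib.MP_4952d6_mp

/-! ### The gas -/

/-- Weight of a configuration: product of `F (x i - x j)` over pairs. -/
noncomputable def Wg (F : T3 → ℝ) {n : ℕ} (x : Fin n → T3) : ℝ := pairW F Finset.univ x

/-- Partition function of `n` particles. -/
noncomputable def Zg (F : T3 → ℝ) (n : ℕ) : ℝ := ∫ x, Wg F x ∂(piN (Fin n))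

/-- Expectation in the gas of `n` particles. -/
noncomputable def Eg (F : T3 → ℝ) (n : ℕ) (Φ : (Fin n → T3) → ℝ) : ℝ :=
  (∫ x, Φ x * Wg F x ∂(piN (Fin n))) / Zg F n

/-- Complex expectation. -/
noncomputable def EgC (F : T3 → ℝ) (n : ℕ) (Φ : (Fin n → T3) → ℂ) : ℂ :=
  (∫ x, Φ x * (Wg F x : ℂ) ∂(piN (Fin n))) / (Zg F n : ℂ)

/-- One body factor `A(y) = ∏ j, F (y - x j)`. -/
noncomputable def Ag (F : T3 → ℝ) {n : ℕ} (x : Fin n → T3) (y : T3) : ℝ := ∏ j, F (y - x j)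

/-- `r_n = ⟨A⟩_n = Z_{n+1} / Z_n`. -/
noncomputable def rg (F : T3 → ℝ) (n : ℕ) : ℝ := Eg F n (fun x => Ag F x 0)

/-- `M_n(z) = ⟨A(0) A(z)⟩_n`. -/
noncomputable def Mg (F : T3 → ℝ) (n : ℕ) (z : T3) : ℝ := Eg F n (fun x => Ag F x 0 * Ag F x z)

/-- Cavity function of the gas of `n + 2` particles: `M_n(z) Z_n / Z_{n+2}`. -/
noncomputable def yy (F : T3 → ℝ) (n : ℕ) (z : T3) : ℝ := Mg F n z * Zg F n / Zg F (n + 2)

/-- Density of `x i - x j` in the gas of `n + 2` particles. -/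
noncomputable def pp (F : T3 → ℝ) (n : ℕ) (z : T3) : ℝ := F z * yy F n z

/-- Fourier coefficient of the density. -/
noncomputable def rhoN (p : Fin 3 → ℤ) {n : ℕ} (x : Fin n → T3) : ℂ := ∑ j, ch p (x j)

/-- Structure factor `⟨|ρ_p|²⟩ / n`. -/
noncomputable def Sg (F : T3 → ℝ) (n : ℕ) (p : Fin 3 → ℤ) : ℝ :=
  Eg F n (fun x => ‖rhoN p x‖ ^ 2) / n

/-- Linear statistic `∑ j, h (y - x j)`. -/
noncomputable def Xg (h : T3 → ℝ) {n : ℕ} (x : Fin n → T3) (y : T3) : ℝ := ∑ j, h (y - x j)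

/-- Pair statistic `∑ i ≠ j, h (x i - x j)`. -/
noncomputable def Hg (h : T3 → ℝ) {n : ℕ} (x : Fin n → T3) : ℝ :=
  ∑ i, ∑ j ∈ Finset.univ.erase i, h (x i - x j)

/-- Score function in the direction of the character `p`: for `T_i = ∇ (ch p) (x_i)`,
`J = - ∑ i, div T_i + ∑ i, T_i · ∑ j ≠ i, 2 ∇u (x_i - x_j)`. -/
noncomputable def Jk (du : Fin 3 → T3 → ℝ) (p : Fin 3 → ℤ) {n : ℕ} (x : Fin n → T3) : ℂ :=
  ∑ i, ((ksq p : ℂ) * ch p (x i)
    + ∑ j ∈ Finset.univ.erase i, ∑ β, 2 * (du β (x i - x j) : ℂ)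
        * (Complex.I * (kc p β : ℂ) * ch p (x i)))

/-- `k · D²u(z) k` for the momentum `k = 2 π p`. -/
noncomputable def kDk (ddu : Fin 3 → Fin 3 → T3 → ℝ) (p : Fin 3 → ℤ) (z : T3) : ℝ :=
  ∑ α, ∑ β, kc p α * kc p β * ddu α β z

/-- `j_n(p)` for the gas of `n + 2` particles: `⟨|J_p|²⟩ = (n+2) j`. -/
noncomputable def jg (F : T3 → ℝ) (ddu : Fin 3 → Fin 3 → T3 → ℝ) (n : ℕ) (p : Fin 3 → ℤ) : ℝ :=
  ksq p ^ 2 + 2 * (n + 1) * ∫ z, kDk ddu p z * (1 - (ch p z).re) * pp F n z ∂lam3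

/-- sum over nonzero momenta -/
noncomputable def tsum0 (f : (Fin 3 → ℤ) → ℝ) : ℝ := ∑' p, if p = 0 then 0 else f p

/-! ### Data of the Jastrow function -/

/-- Core factor `Fc` with derivatives and curvature bound `Kc`, long range potential `ul` with
derivatives and Fourier coefficients `uh`. -/
structure Dat where
  Fc : T3 → ℝ
  dFc : Fin 3 → T3 → ℝ
  ddFc : Fin 3 → Fin 3 → T3 → ℝ
  Kc : T3 → ℝ
  ul : T3 → ℝ
  dul : Fin 3 → T3 → ℝ
  ddul : Fin 3 → Fin 3 → T3 → ℝ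
  uh : (Fin 3 → ℤ) → ℝ

namespace Dat

/-- Regularised core. -/
noncomputable def Fr (D : Dat) (δ : ℝ) (x : T3) : ℝ := δ + (1 - δ) * D.Fc x

/-- Pair weight `F = Fc_δ exp (-2 τ u_l)`. -/
noncomputable def F (D : Dat) (δ τ : ℝ) (x : T3) : ℝ := D.Fr δ x * Real.exp (-(2 * τ * D.ul x))

/-- `u = -(1/2) ln F = τ u_l - (1/2) ln Fc_δ` (for `δ > 0`). -/
noncomputable def u (D : Dat) (δ τ : ℝ) (x : T3) : ℝ := τ * D.ul x - 1 / 2 * Real.log (D.Fr δ x)

/-- gradient of `u` -/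
noncomputable def du (D : Dat) (δ τ : ℝ) (α : Fin 3) (x : T3) : ℝ :=
  τ * D.dul α x - 1 / 2 * ((1 - δ) * D.dFc α x / D.Fr δ x)

/-- second derivatives of the core part of `u` -/
noncomputable def dduc (D : Dat) (δ : ℝ) (α β : Fin 3) (x : T3) : ℝ :=
  -(1 / 2) * ((1 - δ) * D.ddFc α β x / D.Fr δ x
    - (1 - δ) ^ 2 * D.dFc α x * D.dFc β x / D.Fr δ x ^ 2)

/-- second derivatives of `u` -/
noncomputable def ddu (D : Dat) (δ τ : ℝ) (α β : Fin 3) (x : T3) : ℝ :=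
  τ * D.ddul α β x + D.dduc δ α β x

/-- Majorant density of the error in the Cramer-Rao estimate, `κ` bounds `|y - 1|`. -/
noncomputable def Xi (D : Dat) (κ : ℝ) (N : ℕ) (z : T3) : ℝ :=
  2 * N * ((κ + 2 * D.ul z + (1 - D.Fc z)) * ∑ α, ∑ β, |D.ddul α β z| + 18 * D.Kc z)

/-- Majorant of the relative error `e(p)`. -/
noncomputable def eb (D : Dat) (κ : ℝ) (N : ℕ) (p : Fin 3 → ℤ) : ℝ :=
  (ksq p)⁻¹ * (∫ z, (1 - (ch p z).re) * D.Xi κ N z ∂lam3) + 2 * D.uh p

/-- `S*_n(p) = 1 / (1 + 2 τ n û(p))`. -/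
noncomputable def Ss (D : Dat) (τ : ℝ) (n : ℕ) (p : Fin 3 → ℤ) : ℝ := 1 / (1 + 2 * τ * n * D.uh p)

/-- `V_n = ∑_{p ≠ 0} 4 n û(p)² / (1 + 2 n û(p))`. -/
noncomputable def Vn (D : Dat) (n : ℕ) : ℝ :=
  tsum0 fun p => 4 * n * D.uh p ^ 2 / (1 + 2 * n * D.uh p)

/-- Qualitative properties of the data. -/
structure Ok (D : Dat) : Prop where
  Fc_nonneg : ∀ x, 0 ≤ D.Fc x
  Fc_le : ∀ x, D.Fc x ≤ 1
  Fc_even : ∀ x, D.Fc (-x) = D.Fc x
  Fc_WD : ∀ α, WD lam3 (tau α) D.Fc (D.dFc α)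
  dFc_WD : ∀ α β, WD lam3 (tau β) (D.dFc α) (D.ddFc α β)
  dFc_odd : ∀ α x, D.dFc α (-x) = - D.dFc α x
  ddFc_even : ∀ α β x, D.ddFc α β (-x) = D.ddFc α β x
  ddFc_bm : ∀ α β, BM (D.ddFc α β)
  Kc_bm : BM D.Kc
  Kc_nonneg : ∀ x, 0 ≤ D.Kc x
  Kc_dd : ∀ α β x, |D.ddFc α β x| ≤ D.Kc x
  Kc_d : ∀ α x, D.dFc α x ^ 2 ≤ D.Kc x * D.Fc x
  ul_nonneg : ∀ x, 0 ≤ D.ul x
  ul_even : ∀ x, D.ul (-x) = D.ul x
  ul_WD : ∀ α, WD lam3 (tau α) D.ul (D.dul α)
  dul_WD : ∀ α β, WD lam3 (tau β) (D.dul α) (D.ddul α β)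
  dul_odd : ∀ α x, D.dul α (-x) = - D.dul α x
  ddul_even : ∀ α β x, D.ddul α β (-x) = D.ddul α β x
  ddul_bm : ∀ α β, BM (D.ddul α β)
  uh_nonneg : ∀ p, 0 ≤ D.uh p
  uh_even : ∀ p, D.uh (-p) = D.uh p
  uh_summable : Summable D.uh
  ul_hasSum : ∀ x, HasSum (fun p => (D.uh p : ℂ) * ch p x) (D.ul x : ℂ)

/-- Quantitative bounds, `Y = q ^ 200`. -/
structure GD (C q a : ℝ) (N : ℕ) (D : Dat) : Prop where
  ok : D.Ok
  C1 : 1 ≤ C
  q0 : 0 < q
  q1 : q ≤ 1 / 2
  a0 : 0 < a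
  hN : (N : ℝ) * a ^ 3 = q ^ 400
  Nq : 4 ≤ (N : ℝ) * q ^ 400
  uh0 : (N : ℝ) * D.uh 0 ≤ C
  uh_le : ∀ p, D.uh p ≤ D.uh 0
  uh_ksq : ∀ p, ksq p * D.uh p ≤ C * a
  ul_le : ∀ x, D.ul x ≤ C * q ^ 78
  uh_sq : (N : ℝ) * ∑' p, D.uh p ^ 2 ≤ C * q ^ 200
  uh_inv : Summable (fun p => D.uh p / Real.sqrt (ksq p)) ∧
    ∑' p, D.uh p / Real.sqrt (ksq p) ≤ C * a / q
  uh_cos : ∀ z, ∑' p, D.uh p / ksq p * (1 - (ch p z).re) ≤ C * a * rr z
  d1 : ∀ α, ∫ z, |D.dul α z| ∂lam3 ≤ C * a ^ 2 / q ^ 200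
  d2 : ∀ α, ∫ z, D.dul α z ^ 2 ∂lam3 ≤ C * a * q ^ 78
  dd : ∀ α β, ∫ z, |D.ddul α β z| * rr z ∂lam3 ≤ C * a ^ 2 / q ^ 200
  ddc : ∀ α β, ∫ z, (1 - D.Fc z) * (|D.ddul α β z| * rr z) ∂lam3 ≤ C * a ^ 2 * q ^ 110 / q ^ 200
  Ic : (N : ℝ) * ∫ z, (1 - D.Fc z) ∂lam3 ≤ C * q ^ 240
  Kint : ∫ z, D.Kc z * rr z ∂lam3 ≤ C * a ^ 2 * q ^ 110 / q ^ 200

/-- Auxiliary kernel for the contact value (`ψ_b` of the notes), `ph` its Fourier coefficients. -/
structure PB (C q a : ℝ) (N : ℕ) (D : Dat) (ψ : T3 → ℝ) (ph : (Fin 3 → ℤ) → ℝ) : Prop where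
  bm : BM ψ
  nonneg : ∀ x, 0 ≤ ψ x
  ph_nonneg : ∀ p, 0 ≤ ph p
  ph_le : ∀ p, ph p ≤ 1
  ph_zero : ph 0 = 1
  ph_summable : Summable ph
  hasSum : ∀ x, HasSum (fun p => (ph p : ℂ) * ch p x) (ψ x : ℂ)
  ph_uh : ∀ p, ph p ≤ C * N / q ^ 4 * D.uh p
  m1 : ∫ z, ψ z * rr z ∂lam3 ≤ C * a * q ^ 2 / q ^ 200
  mc : ∫ z, ψ z * (1 - D.Fc z) ∂lam3 ≤ C * q ^ 300
  mu : ∫ z, ψ z * (2 * D.ul z) ∂lam3 ≤ C * q ^ 198

end Dat

end Pool.Agent.Lib.MP_4952d6_mp

end

/-! ### U.G0 -/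

section

set_option autoImplicit false
set_option linter.unusedSectionVars false
set_option linter.unusedVariables false
open MeasureTheory Function Filter Topology Set

namespace Pool.Agent.Lib.MP_4952d6_mp

/-! # G0: sums over nonzero momenta -/

/-- Summability over nonzero momenta. -/
def sm0 (f : (Fin 3 → ℤ) → ℝ) : Prop := Summable fun p => if p = 0 then 0 else f p

theorem sm0_of {f g : (Fin 3 → ℤ) → ℝ} (hg : Summable g) (h : ∀ p, p ≠ 0 → |f p| ≤ g p) :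
    sm0 f := by
  have hg' : Summable (fun p => |g p|) := hg.abs
  refine Summable.of_norm_bounded hg' fun p => ?_
  by_cases hp : p = 0
  · simp [hp]
  · rw [if_neg hp, Real.norm_eq_abs]
    exact (h p hp).trans (le_abs_self _)

theorem sm0_of_summable {f : (Fin 3 → ℤ) → ℝ} (hf : Summable f) : sm0 f :=
  sm0_of hf.abs fun p _ => le_rfl

theorem sm0_congr {f g : (Fin 3 → ℤ) → ℝ} (h : ∀ p, p ≠ 0 → f p = g p) (hf : sm0 f) : sm0 g := by
  unfold sm0 at *
  refine hf.congr fun p => ?_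
  by_cases hp : p = 0
  · simp [hp]
  · rw [if_neg hp, if_neg hp, h p hp]

theorem tsum0_congr {f g : (Fin 3 → ℤ) → ℝ} (h : ∀ p, p ≠ 0 → f p = g p) : tsum0 f = tsum0 g := by
  unfold tsum0
  refine tsum_congr fun p => ?_
  by_cases hp : p = 0
  · simp [hp]
  · rw [if_neg hp, if_neg hp, h p hp]

theorem sm0.add {f g : (Fin 3 → ℤ) → ℝ} (hf : sm0 f) (hg : sm0 g) : sm0 (fun p => f p + g p) := by
  unfold sm0 at *
  refine (hf.add hg).congr fun p => ?_
  by_cases hp : p = 0 <;> simp [hp]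

theorem sm0.sub {f g : (Fin 3 → ℤ) → ℝ} (hf : sm0 f) (hg : sm0 g) : sm0 (fun p => f p - g p) := by
  unfold sm0 at *
  refine (hf.sub hg).congr fun p => ?_
  by_cases hp : p = 0 <;> simp [hp]

theorem sm0.const_mul {f : (Fin 3 → ℤ) → ℝ} (c : ℝ) (hf : sm0 f) : sm0 (fun p => c * f p) := by
  unfold sm0 at *
  refine (hf.mul_left c).congr fun p => ?_
  by_cases hp : p = 0 <;> simp [hp]

theorem tsum0_add {f g : (Fin 3 → ℤ) → ℝ} (hf : sm0 f) (hg : sm0 g) :
    tsum0 (fun p => f p + g p) = tsum0 f + tsum0 g := by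
  unfold tsum0
  unfold sm0 at *
  rw [← hf.tsum_add hg]
  refine tsum_congr fun p => ?_
  by_cases hp : p = 0 <;> simp [hp]

theorem tsum0_sub {f g : (Fin 3 → ℤ) → ℝ} (hf : sm0 f) (hg : sm0 g) :
    tsum0 (fun p => f p - g p) = tsum0 f - tsum0 g := by
  unfold tsum0
  unfold sm0 at *
  rw [← hf.tsum_sub hg]
  refine tsum_congr fun p => ?_
  by_cases hp : p = 0 <;> simp [hp]

theorem tsum0_const_mul (c : ℝ) (f : (Fin 3 → ℤ) → ℝ) :
    tsum0 (fun p => c * f p) = c * tsum0 f := by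
  unfold tsum0
  rw [← tsum_mul_left]
  refine tsum_congr fun p => ?_
  by_cases hp : p = 0 <;> simp [hp]

theorem tsum0_mono {f g : (Fin 3 → ℤ) → ℝ} (hf : sm0 f) (hg : sm0 g)
    (h : ∀ p, p ≠ 0 → f p ≤ g p) : tsum0 f ≤ tsum0 g := by
  unfold tsum0
  unfold sm0 at *
  refine hf.tsum_le_tsum (fun p => ?_) hg
  by_cases hp : p = 0
  · simp [hp]
  · rw [if_neg hp, if_neg hp]; exact h p hp

theorem tsum0_nonneg {f : (Fin 3 → ℤ) → ℝ} (h : ∀ p, p ≠ 0 → 0 ≤ f p) : 0 ≤ tsum0 f := by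
  unfold tsum0
  refine tsum_nonneg fun p => ?_
  by_cases hp : p = 0
  · simp [hp]
  · rw [if_neg hp]; exact h p hp

theorem tsum_eq_tsum0 {f : (Fin 3 → ℤ) → ℝ} (hf : Summable f) : ∑' p, f p = f 0 + tsum0 f := by
  unfold tsum0
  rw [hf.tsum_eq_add_tsum_ite 0]

theorem tsum0_le_tsum {f : (Fin 3 → ℤ) → ℝ} (hf : Summable f) (h0 : 0 ≤ f 0) :
    tsum0 f ≤ ∑' p, f p := by
  rw [tsum_eq_tsum0 hf]; linarith

/-- Bound of a sum over nonzero momenta by its finite partial sums. -/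
theorem tsum0_le_of_sum_le {f : (Fin 3 → ℤ) → ℝ} {B : ℝ} (h0 : ∀ p, p ≠ 0 → 0 ≤ f p)
    (h : ∀ s : Finset (Fin 3 → ℤ), 0 ∉ s → ∑ p ∈ s, f p ≤ B) : sm0 f ∧ tsum0 f ≤ B := by
  have h1 : ∀ s : Finset (Fin 3 → ℤ), ∑ p ∈ s, (if p = 0 then 0 else f p) ≤ B := by
    intro s
    have e : ∑ p ∈ s, (if p = 0 then 0 else f p) = ∑ p ∈ s.erase 0, f p := by
      classical
      by_cases h0s : (0 : Fin 3 → ℤ) ∈ s
      · rw [← Finset.add_sum_erase s _ h0s, if_pos rfl, zero_add]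
        refine Finset.sum_congr rfl fun p hp => ?_
        rw [if_neg (Finset.ne_of_mem_erase hp)]
      · rw [Finset.erase_eq_of_notMem h0s]
        refine Finset.sum_congr rfl fun p hp => ?_
        rw [if_neg (show p ≠ 0 from fun h' => h0s (h' ▸ hp))]
    rw [e]
    exact h _ (Finset.notMem_erase 0 s)
  have h2 : ∀ p, 0 ≤ (if p = 0 then 0 else f p) := fun p => by
    by_cases hp : p = 0
    · simp [hp]
    · rw [if_neg hp]; exact h0 p hp
  have h3 : sm0 f := summable_of_sum_le h2 h1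
  exact ⟨h3, Real.tsum_le_of_sum_le h2 h1⟩

/-- A finite partial sum is at most the sum. -/
theorem sum_le_tsum0 {f : (Fin 3 → ℤ) → ℝ} (hf : sm0 f) (h0 : ∀ p, p ≠ 0 → 0 ≤ f p)
    {s : Finset (Fin 3 → ℤ)} (hs : 0 ∉ s) : ∑ p ∈ s, f p ≤ tsum0 f := by
  unfold tsum0
  unfold sm0 at hf
  have h1 := hf.sum_le_tsum s (fun p _ => by
    by_cases hp : p = 0
    · simp [hp]
    · rw [if_neg hp]; exact h0 p hp)
  refine le_trans (le_of_eq (Finset.sum_congr rfl fun p hp => ?_)) h1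
  rw [if_neg (show p ≠ 0 from fun h' => hs (h' ▸ hp))]

/-- Lower bound for a sum over nonzero momenta from uniform lower bounds. -/
theorem tsum0_le_of_forall {f : (Fin 3 → ℤ) → ℝ} {B : ℝ} (h0 : ∀ p, p ≠ 0 → 0 ≤ f p)
    (h : ∀ s : Finset (Fin 3 → ℤ), 0 ∉ s → ∑ p ∈ s, f p ≤ B) : tsum0 f ≤ B :=
  (tsum0_le_of_sum_le h0 h).2

/-! ### Momenta -/

theorem ksq_nonneg (p : Fin 3 → ℤ) : 0 ≤ ksq p := by
  unfold ksq; have := mom2_nonneg p; positivity

theorem ksq_zero : ksq 0 = 0 := by simp [ksq, mom2_zero]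

theorem ksq_eq (p : Fin 3 → ℤ) : ksq p = ∑ α, kc p α ^ 2 := by
  simp only [ksq, kc, mom2, Finset.mul_sum]
  refine Finset.sum_congr rfl fun α _ => ?_
  ring

theorem ksq_ge_one {p : Fin 3 → ℤ} (hp : p ≠ 0) : 1 ≤ ksq p := by
  have h1 : 1 ≤ mom2 p := by
    obtain ⟨α, hα⟩ := Function.ne_iff.1 hp
    have h2 : (1:ℝ) ≤ (p α : ℝ) ^ 2 := by
      have h3 : 1 ≤ (p α) ^ 2 := by
        have h4 : p α ≠ 0 := hα
        have h5 : 0 < (p α) ^ 2 := by positivity
        omega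
      exact_mod_cast h3
    refine h2.trans ?_
    unfold mom2
    exact Finset.single_le_sum (f := fun α => (p α : ℝ) ^ 2) (fun i _ => sq_nonneg _)
      (Finset.mem_univ α)
  unfold ksq
  have := Real.pi_gt_three
  nlinarith

theorem ksq_neg (p : Fin 3 → ℤ) : ksq (-p) = ksq p := by
  simp [ksq, mom2]

theorem kc_neg (p : Fin 3 → ℤ) (α : Fin 3) : kc (-p) α = - kc p α := by
  simp [kc]

theorem kc_sq_le (p : Fin 3 → ℤ) (α : Fin 3) : kc p α ^ 2 ≤ ksq p := by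
  rw [ksq_eq]
  exact Finset.single_le_sum (f := fun α => kc p α ^ 2) (fun i _ => sq_nonneg _) (Finset.mem_univ α)

theorem abs_kc_le (p : Fin 3 → ℤ) (α : Fin 3) : |kc p α| ≤ Real.sqrt (ksq p) := by
  rw [← Real.sqrt_sq_eq_abs]
  exact Real.sqrt_le_sqrt (kc_sq_le p α)

theorem abs_kc_mul_le (p : Fin 3 → ℤ) (α β : Fin 3) : |kc p α * kc p β| ≤ ksq p := by
  rw [abs_mul]
  have h1 := abs_kc_le p α
  have h2 := abs_kc_le p β
  calc |kc p α| * |kc p β| ≤ Real.sqrt (ksq p) * Real.sqrt (ksq p) :=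
        mul_le_mul h1 h2 (abs_nonneg _) (Real.sqrt_nonneg _)
    _ = ksq p := Real.mul_self_sqrt (ksq_nonneg p)

theorem abs_kDk_le (ddu : Fin 3 → Fin 3 → T3 → ℝ) (p : Fin 3 → ℤ) (z : T3) :
    |kDk ddu p z| ≤ ksq p * ∑ α, ∑ β, |ddu α β z| := by
  unfold kDk
  rw [Finset.mul_sum]
  refine (Finset.abs_sum_le_sum_abs _ _).trans (Finset.sum_le_sum fun α _ => ?_)
  rw [Finset.mul_sum]
  refine (Finset.abs_sum_le_sum_abs _ _).trans (Finset.sum_le_sum fun β _ => ?_)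
  rw [abs_mul]
  exact mul_le_mul_of_nonneg_right (abs_kc_mul_le p α β) (abs_nonneg _)

theorem ch_re_le (p : Fin 3 → ℤ) (z : T3) : |(ch p z).re| ≤ 1 :=
  (Complex.abs_re_le_norm _).trans (ch_norm p z).le

theorem one_sub_re_nonneg (p : Fin 3 → ℤ) (z : T3) : 0 ≤ 1 - (ch p z).re := by
  have := abs_le.1 (ch_re_le p z); linarith [this.2]

theorem one_sub_re_le (p : Fin 3 → ℤ) (z : T3) : 1 - (ch p z).re ≤ 2 := by
  have := abs_le.1 (ch_re_le p z); linarith [this.1]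

theorem ch_re_neg (p : Fin 3 → ℤ) (z : T3) : (ch p (-z)).re = (ch p z).re := by
  rw [ch_neg_arg, Complex.conj_re]

end Pool.Agent.Lib.MP_4952d6_mp

end

/-! ### U.GA -/

section

set_option autoImplicit false
set_option linter.unusedSectionVars false
set_option linter.unusedVariables false
open MeasureTheory Function Filter Topology Set

namespace Pool.Agent.Lib.MP_4952d6_mp

/-! # GA: the weight of a configuration

`Wg F x = pairW F univ x = ∏ over pairs k > l of F (x k - x l)` (Gas.lean). `pairW_bm`, `pairW_nonneg`, `pairW_le_one`,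
`pairW_insert` in Gas.lean. -/

section
variable {ι G : Type*} [Fintype ι] [LinearOrder ι] [MeasurableSpace G] [AddCommGroup G]
  {μ : Measure G} {F : G → ℝ}

/-- Symmetric form of the square of the pair weight. -/
theorem GA_pairW_sq (h : GasFn μ F) (S : Finset ι) (x : ι → G) :
    pairW F S x ^ 2 = ∏ k ∈ S, ∏ l ∈ S.erase k, F (x k - x l) := by
  induction S using Finset.induction_on with
  | empty => simp [pairW]
  | insert k S hk ih =>
    rw [pairW_insert h S hk, mul_pow, ih, Finset.prod_insert hk, Finset.erase_insert hk]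
    have h1 : ∀ a ∈ S, ∏ b ∈ (insert k S).erase a, F (x a - x b) =
        F (x k - x a) * ∏ b ∈ S.erase a, F (x a - x b) := by
      intro a ha
      have hak : k ≠ a := fun h => hk (h ▸ ha)
      rw [Finset.erase_insert_of_ne hak, Finset.prod_insert
        (fun h => hk (Finset.mem_of_mem_erase h)), h.symm]
    rw [Finset.prod_congr rfl h1, Finset.prod_mul_distrib]
    unfold oneB
    ring

theorem GA_pairW_perm (h : GasFn μ F) (S : Finset ι) (e : Equiv.Perm ι) (x : ι → G) :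
    pairW F S (fun i => x (e i)) = pairW F (S.map e.toEmbedding) x := by
  rw [← pow_left_inj₀ (pairW_nonneg h S _) (pairW_nonneg h _ _) two_ne_zero, GA_pairW_sq h,
    GA_pairW_sq h, Finset.prod_map]
  refine Finset.prod_congr rfl fun k _ => ?_
  rw [← Finset.map_erase, Finset.prod_map]
  rfl

end

theorem Wg_bm {F : T3 → ℝ} (hF : GasFn lam3 F) (n : ℕ) : BM (Wg F : (Fin n → T3) → ℝ) := by
  exact pairW_bm hF _

theorem Wg_nonneg {F : T3 → ℝ} (hF : GasFn lam3 F) {n : ℕ} (x : Fin n → T3) : 0 ≤ Wg F x := by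
  exact pairW_nonneg hF _ _

theorem Wg_le_one {F : T3 → ℝ} (hF : GasFn lam3 F) {n : ℕ} (x : Fin n → T3) : Wg F x ≤ 1 := by
  exact pairW_le_one hF _ _

/-- Symmetric form of the square (each unordered pair occurs twice). Induction with `pairW_insert`, or
`∏ i, ∏ j ∈ univ.erase i, F (x i - x j) = (∏ i, ∏ j ∈ filter (· < i)) * (∏ i, ∏ j ∈ filter (i < ·))` and swap (`Finset.prod_comm'`,
evenness of `F`; compare `sum_pairs` in Energy.lean). -/
theorem Wg_sq {F : T3 → ℝ} (hF : GasFn lam3 F) {n : ℕ} (x : Fin n → T3) :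
    Wg F x ^ 2 = ∏ i, ∏ j ∈ Finset.univ.erase i, F (x i - x j) := by
  exact GA_pairW_sq hF _ _

/-- Permutation invariance: from `Wg_sq` (both sides nonnegative with the same square). -/
theorem Wg_perm {F : T3 → ℝ} (hF : GasFn lam3 F) {n : ℕ} (e : Equiv.Perm (Fin n))
    (x : Fin n → T3) : Wg F (fun i => x (e i)) = Wg F x := by
  unfold Wg
  rw [GA_pairW_perm hF Finset.univ e x]
  congr 1
  exact Finset.map_univ_equiv e

theorem Wg_shift (F : T3 → ℝ) {n : ℕ} (x : Fin n → T3) (s : T3) :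
    Wg F (fun i => x i + s) = Wg F x := by
  unfold Wg pairW
  simp only [add_sub_add_right_eq_sub]

/-- Adding a particle. By squares (`Wg_sq`, `Fin.prod_univ_succ`), or directly from the definition of `pairW`. -/
theorem Wg_cons {F : T3 → ℝ} (hF : GasFn lam3 F) {n : ℕ} (x : Fin n → T3) (y : T3) :
    Wg F (Fin.cons y x : Fin (n + 1) → T3) = Wg F x * Ag F x y := by
  unfold Wg Ag
  have h0 : (0 : Fin (n + 1)) ∉ (Finset.univ : Finset (Fin n)).map ⟨Fin.succ, Fin.succ_injective n⟩ := by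
    simp [Fin.succ_ne_zero]
  have h1 : (Finset.univ : Finset (Fin (n + 1))) =
      insert 0 ((Finset.univ : Finset (Fin n)).map ⟨Fin.succ, Fin.succ_injective n⟩) := by
    rw [Fin.univ_succ, Finset.cons_eq_insert]
  rw [h1, pairW_insert hF _ h0]
  congr 1
  · unfold pairW
    rw [Finset.prod_map]
    refine Finset.prod_congr rfl fun k _ => ?_
    rw [Finset.filter_map, Finset.prod_map]
    refine Finset.prod_congr ?_ fun l _ => ?_
    · ext l
      simp
    · simp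
  · unfold oneB
    rw [Finset.prod_map]
    refine Finset.prod_congr rfl fun k _ => ?_
    simp

theorem Zg_nonneg {F : T3 → ℝ} (hF : GasFn lam3 F) (n : ℕ) : 0 ≤ Zg F n := by
  exact integral_nonneg fun x => Wg_nonneg hF x

theorem Zg_le_one {F : T3 → ℝ} (hF : GasFn lam3 F) (n : ℕ) : Zg F n ≤ 1 := by
  unfold Zg
  have h1 : ∫ x, Wg F x ∂(piN (Fin n)) ≤ ∫ x, (1 : ℝ) ∂(piN (Fin n)) :=
    integral_mono ((Wg_bm hF n).integrable _) (integrable_const _) fun x => Wg_le_one hF x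
  simpa using h1

theorem Zg_zero (F : T3 → ℝ) : Zg F 0 = 1 := by
  unfold Zg
  have h1 : (fun x : Fin 0 → T3 => Wg F x) = fun _ => 1 := by
    funext x
    simp [Wg, pairW]
  rw [h1]
  simp

theorem Ag_bm {F : T3 → ℝ} (hF : GasFn lam3 F) (n : ℕ) :
    BM (fun q : (Fin n → T3) × T3 => Ag F q.1 q.2) := by
  exact oneB_bm hF Finset.univ

theorem Ag_nonneg {F : T3 → ℝ} (hF : GasFn lam3 F) {n : ℕ} (x : Fin n → T3) (y : T3) :
    0 ≤ Ag F x y := by
  exact oneB_nonneg hF Finset.univ x y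

theorem Ag_le_one {F : T3 → ℝ} (hF : GasFn lam3 F) {n : ℕ} (x : Fin n → T3) (y : T3) :
    Ag F x y ≤ 1 := by
  exact oneB_le_one hF Finset.univ x y

end Pool.Agent.Lib.MP_4952d6_mp

end

/-! ### U.GB -/

section

set_option autoImplicit false
set_option linter.unusedSectionVars false
set_option linter.unusedVariables false
open MeasureTheory Function Filter Topology Set ComplexConjugate

namespace Pool.Agent.Lib.MP_4952d6_mp

/-! # GB: calculus of expectations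

`Eg F n Φ = (∫ Φ Wg) / Zg`, a positive linear functional on bounded measurable functions (`BM`), normalised if `Zg F n ≠ 0`; if
`Zg F n = 0` everything is `0` (division by zero), so only the normalisation needs `Zg F n ≠ 0`. -/

theorem GB_int {F : T3 → ℝ} (hF : GasFn lam3 F) {n : ℕ} {Φ : (Fin n → T3) → ℝ} (hΦ : BM Φ) :
    Integrable (fun x => Φ x * Wg F x) (piN (Fin n)) :=
  (hΦ.mul (Wg_bm hF n)).integrable _

theorem GB_intC {F : T3 → ℝ} (hF : GasFn lam3 F) {n : ℕ} {Φ : (Fin n → T3) → ℂ}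
    (hΦ : Measurable Φ) (hΦb : ∃ C, ∀ x, ‖Φ x‖ ≤ C) :
    Integrable (fun x => Φ x * (Wg F x : ℂ)) (piN (Fin n)) := by
  obtain ⟨C, hC⟩ := hΦb
  refine Integrable.of_bound (hΦ.mul
    (Complex.measurable_ofReal.comp (Wg_bm hF n).1)).aestronglyMeasurable C
    (Filter.Eventually.of_forall fun x => ?_)
  rw [norm_mul, Complex.norm_real, Real.norm_of_nonneg (Wg_nonneg hF x)]
  have h1 := Wg_le_one hF x
  have h2 := Wg_nonneg hF x
  have h3 := norm_nonneg (Φ x)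
  calc ‖Φ x‖ * Wg F x ≤ ‖Φ x‖ * 1 := mul_le_mul_of_nonneg_left h1 h3
    _ ≤ C := by rw [mul_one]; exact hC x

theorem GB_normBM {n : ℕ} {Φ : (Fin n → T3) → ℂ}
    (hΦ : Measurable Φ) (hΦb : ∃ C, ∀ x, ‖Φ x‖ ≤ C) : BM (fun x => ‖Φ x‖) := by
  obtain ⟨C, hC⟩ := hΦb
  exact ⟨hΦ.norm, C, fun x => by rw [abs_of_nonneg (norm_nonneg _)]; exact hC x⟩

theorem GB_norm_le {F : T3 → ℝ} (hF : GasFn lam3 F) {n : ℕ} {Φ : (Fin n → T3) → ℂ}
    (hΦ : Measurable Φ) (hΦb : ∃ C, ∀ x, ‖Φ x‖ ≤ C) :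
    ‖EgC F n Φ‖ ≤ Eg F n (fun x => ‖Φ x‖) := by
  unfold EgC Eg
  rw [norm_div, Complex.norm_real, Real.norm_of_nonneg (Zg_nonneg hF n)]
  refine div_le_div_of_nonneg_right ?_ (Zg_nonneg hF n)
  refine (norm_integral_le_integral_norm _).trans_eq ?_
  congr 1
  funext x
  rw [norm_mul, Complex.norm_real, Real.norm_of_nonneg (Wg_nonneg hF x)]

theorem GB_const_mul (F : T3 → ℝ) {n : ℕ} (c : ℝ) (Φ : (Fin n → T3) → ℝ) :
    Eg F n (fun x => c * Φ x) = c * Eg F n Φ := by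
  unfold Eg
  simp only [mul_assoc]
  rw [integral_const_mul, mul_div_assoc]

theorem GB_const {F : T3 → ℝ} {n : ℕ} (hZ : Zg F n ≠ 0) (c : ℝ) :
    Eg F n (fun _ => c) = c := by
  unfold Eg
  rw [integral_const_mul]
  exact mul_div_cancel_right₀ c hZ

section
variable {F : T3 → ℝ} (hF : GasFn lam3 F) {n : ℕ}
include hF

theorem Eg_add {Φ Ψ : (Fin n → T3) → ℝ} (hΦ : BM Φ) (hΨ : BM Ψ) :
    Eg F n (fun x => Φ x + Ψ x) = Eg F n Φ + Eg F n Ψ := by
  unfold Eg
  rw [← add_div, ← integral_add (GB_int hF hΦ) (GB_int hF hΨ)]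
  simp only [add_mul]

theorem Eg_sub {Φ Ψ : (Fin n → T3) → ℝ} (hΦ : BM Φ) (hΨ : BM Ψ) :
    Eg F n (fun x => Φ x - Ψ x) = Eg F n Φ - Eg F n Ψ := by
  unfold Eg
  rw [← sub_div, ← integral_sub (GB_int hF hΦ) (GB_int hF hΨ)]
  simp only [sub_mul]

theorem Eg_sum {κ : Type*} (s : Finset κ) {Φ : κ → (Fin n → T3) → ℝ} (h : ∀ i ∈ s, BM (Φ i)) :
    Eg F n (fun x => ∑ i ∈ s, Φ i x) = ∑ i ∈ s, Eg F n (Φ i) := by
  unfold Eg
  rw [← Finset.sum_div, ← integral_finsetSum s fun i hi => GB_int hF (h i hi)]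
  simp only [Finset.sum_mul]

theorem Eg_mono {Φ Ψ : (Fin n → T3) → ℝ} (hΦ : BM Φ) (hΨ : BM Ψ) (h : ∀ x, Φ x ≤ Ψ x) :
    Eg F n Φ ≤ Eg F n Ψ := by
  unfold Eg
  refine div_le_div_of_nonneg_right ?_ (Zg_nonneg hF n)
  exact integral_mono (GB_int hF hΦ) (GB_int hF hΨ) fun x =>
    mul_le_mul_of_nonneg_right (h x) (Wg_nonneg hF x)

theorem Eg_nonneg {Φ : (Fin n → T3) → ℝ} (h : ∀ x, 0 ≤ Φ x) : 0 ≤ Eg F n Φ := by
  exact div_nonneg (integral_nonneg fun x => mul_nonneg (h x) (Wg_nonneg hF x)) (Zg_nonneg hF n)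

theorem abs_Eg_le {Φ : (Fin n → T3) → ℝ} (hΦ : BM Φ) : |Eg F n Φ| ≤ Eg F n (fun x => |Φ x|) := by
  unfold Eg
  rw [abs_div, abs_of_nonneg (Zg_nonneg hF n)]
  refine div_le_div_of_nonneg_right ?_ (Zg_nonneg hF n)
  refine abs_integral_le_integral_abs.trans_eq ?_
  congr 1
  funext x
  rw [abs_mul, abs_of_nonneg (Wg_nonneg hF x)]

/-- Cauchy-Schwarz (for instance with `cs_of_quadratic` of Bdd.lean). -/
theorem Eg_cs {Φ Ψ : (Fin n → T3) → ℝ} (hΦ : BM Φ) (hΨ : BM Ψ) :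
    Eg F n (fun x => Φ x * Ψ x) ^ 2 ≤ Eg F n (fun x => Φ x ^ 2) * Eg F n (fun x => Ψ x ^ 2) := by
  refine cs_of_quadratic fun s => ?_
  have h1 : Eg F n (fun x => (Φ x - s * Ψ x) ^ 2) =
      Eg F n (fun x => Φ x ^ 2) - 2 * s * Eg F n (fun x => Φ x * Ψ x) +
        s ^ 2 * Eg F n (fun x => Ψ x ^ 2) := by
    rw [← GB_const_mul, ← GB_const_mul, ← Eg_sub hF (hΦ.pow 2) ((hΦ.mul hΨ).const_mul _),
      ← Eg_add hF ((hΦ.pow 2).sub ((hΦ.mul hΨ).const_mul _)) ((hΨ.pow 2).const_mul _)]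
    congr 1
    funext x
    ring
  rw [← h1]
  exact Eg_nonneg hF fun x => sq_nonneg _

/-- Jensen for the exponential: `exp (-Φ) ≥ exp (-m) (1 - (Φ - m))` with `m = Eg Φ`. -/
theorem Eg_jensen (hZ : 0 < Zg F n) {Φ : (Fin n → T3) → ℝ} (hΦ : BM Φ) :
    Real.exp (-(Eg F n Φ)) ≤ Eg F n (fun x => Real.exp (-(Φ x))) := by
  set m := Eg F n Φ with hm
  have hE : BM (fun x => Real.exp (-(Φ x))) := by
    obtain ⟨hm, C, hC⟩ := hΦ
    refine ⟨Real.measurable_exp.comp hm.neg, Real.exp C, fun x => ?_⟩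
    rw [abs_of_pos (Real.exp_pos _)]
    exact Real.exp_le_exp.2 (by have := neg_abs_le (Φ x); have := hC x; linarith)
  have h1 : Eg F n (fun x => Real.exp (-m) * (1 + m) - Real.exp (-m) * Φ x) ≤
      Eg F n (fun x => Real.exp (-(Φ x))) := by
    refine Eg_mono hF ((BM.const _).sub (hΦ.const_mul _)) hE fun x => ?_
    have h2 : Real.exp (-(Φ x)) = Real.exp (-m) * Real.exp (m - Φ x) := by
      rw [← Real.exp_add]
      congr 1
      ring
    rw [h2]
    have h3 := Real.add_one_le_exp (m - Φ x)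
    have h4 := Real.exp_pos (-m)
    nlinarith
  rw [Eg_sub hF (BM.const _) (hΦ.const_mul _), GB_const hZ.ne', GB_const_mul, ← hm] at h1
  refine le_trans (le_of_eq ?_) h1
  ring

/-- Complex Cauchy-Schwarz for bounded measurable functions. -/
theorem EgC_cs {Φ Ψ : (Fin n → T3) → ℂ} (hΦ : Measurable Φ) (hΦb : ∃ C, ∀ x, ‖Φ x‖ ≤ C)
    (hΨ : Measurable Ψ) (hΨb : ∃ C, ∀ x, ‖Ψ x‖ ≤ C) :
    ‖EgC F n (fun x => Φ x * Ψ x)‖ ^ 2
      ≤ Eg F n (fun x => ‖Φ x‖ ^ 2) * Eg F n (fun x => ‖Ψ x‖ ^ 2) := by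
  have h1 : ‖EgC F n (fun x => Φ x * Ψ x)‖ ≤ Eg F n (fun x => ‖Φ x‖ * ‖Ψ x‖) := by
    have h2 : ∃ C, ∀ x, ‖Φ x * Ψ x‖ ≤ C := by
      obtain ⟨C, hC⟩ := hΦb
      obtain ⟨C', hC'⟩ := hΨb
      refine ⟨C * C', fun x => ?_⟩
      rw [norm_mul]
      exact mul_le_mul (hC x) (hC' x) (norm_nonneg _) ((norm_nonneg _).trans (hC x))
    have h3 := GB_norm_le hF (hΦ.mul hΨ) h2
    simp only [Pi.mul_apply, norm_mul] at h3
    exact h3
  exact (pow_le_pow_left₀ (norm_nonneg _) h1 2).trans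
    (Eg_cs hF (GB_normBM hΦ hΦb) (GB_normBM hΨ hΨb))

theorem EgC_add {Φ Ψ : (Fin n → T3) → ℂ} (hΦ : Measurable Φ) (hΦb : ∃ C, ∀ x, ‖Φ x‖ ≤ C)
    (hΨ : Measurable Ψ) (hΨb : ∃ C, ∀ x, ‖Ψ x‖ ≤ C) :
    EgC F n (fun x => Φ x + Ψ x) = EgC F n Φ + EgC F n Ψ := by
  unfold EgC
  rw [← add_div, ← integral_add (GB_intC hF hΦ hΦb) (GB_intC hF hΨ hΨb)]
  simp only [add_mul]

theorem EgC_sum {κ : Type*} (s : Finset κ) {Φ : κ → (Fin n → T3) → ℂ}
    (hΦ : ∀ i ∈ s, Measurable (Φ i)) (hΦb : ∀ i ∈ s, ∃ C, ∀ x, ‖Φ i x‖ ≤ C) :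
    EgC F n (fun x => ∑ i ∈ s, Φ i x) = ∑ i ∈ s, EgC F n (Φ i) := by
  unfold EgC
  rw [← Finset.sum_div, ← integral_finsetSum s fun i hi => GB_intC hF (hΦ i hi) (hΦb i hi)]
  simp only [Finset.sum_mul]

end

theorem Eg_const_mul (F : T3 → ℝ) {n : ℕ} (c : ℝ) (Φ : (Fin n → T3) → ℝ) :
    Eg F n (fun x => c * Φ x) = c * Eg F n Φ := by
  exact GB_const_mul F c Φ

theorem EgC_const_mul (F : T3 → ℝ) {n : ℕ} (c : ℂ) (Φ : (Fin n → T3) → ℂ) :
    EgC F n (fun x => c * Φ x) = c * EgC F n Φ := by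
  unfold EgC
  simp only [mul_assoc]
  rw [integral_const_mul, mul_div_assoc]

theorem Eg_const {F : T3 → ℝ} {n : ℕ} (hZ : Zg F n ≠ 0) (c : ℝ) :
    Eg F n (fun _ => c) = c := by
  exact GB_const hZ c

theorem EgC_ofReal (F : T3 → ℝ) {n : ℕ} (Φ : (Fin n → T3) → ℝ) :
    EgC F n (fun x => (Φ x : ℂ)) = (Eg F n Φ : ℂ) := by
  unfold EgC Eg
  rw [Complex.ofReal_div, ← integral_complex_ofReal]
  simp only [Complex.ofReal_mul]

theorem EgC_re {F : T3 → ℝ} (hF : GasFn lam3 F) {n : ℕ} {Φ : (Fin n → T3) → ℂ}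
    (hΦ : Measurable Φ) (hΦb : ∃ C, ∀ x, ‖Φ x‖ ≤ C) :
    (EgC F n Φ).re = Eg F n (fun x => (Φ x).re) := by
  unfold EgC Eg
  rw [Complex.div_ofReal_re]
  congr 1
  have h1 := integral_re (GB_intC hF hΦ hΦb)
  refine Eq.trans h1.symm ?_
  congr 1
  funext x
  show (Φ x * (Wg F x : ℂ)).re = _
  rw [Complex.re_mul_ofReal]

theorem norm_EgC_le {F : T3 → ℝ} (hF : GasFn lam3 F) {n : ℕ} {Φ : (Fin n → T3) → ℂ}
    (hΦ : Measurable Φ) (hΦb : ∃ C, ∀ x, ‖Φ x‖ ≤ C) :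
    ‖EgC F n Φ‖ ≤ Eg F n (fun x => ‖Φ x‖) := by
  exact GB_norm_le hF hΦ hΦb

end Pool.Agent.Lib.MP_4952d6_mp

end

/-! ### U.GC -/

section

set_option autoImplicit false
set_option linter.unusedSectionVars false
set_option linter.unusedVariables false
open MeasureTheory Function Filter Topology Set ComplexConjugate

namespace Pool.Agent.Lib.MP_4952d6_mp

/-! # GC: translation invariance and one point functions

`piN` is translation invariant (`piN_haar` in Torus.lean), `Wg_shift`. One point function: average over all translations: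
`Eg F n Φ = Eg F n (fun x => ∫ s, Φ (x + s))` (Fubini, `BM.integral_right`), and `∫ s, h (x j + s) = ∫ h`.
`Ag F (x + s) (y + s) = Ag F x y`. -/

section GCaux

instance GC_haar (n : ℕ) : (piN (Fin n)).IsAddHaarMeasure := piN_haar _

theorem GC_int_shift {E : Type*} [NormedAddCommGroup E] [NormedSpace ℝ E] {n : ℕ}
    (g : (Fin n → T3) → E) (s : T3) :
    ∫ x, g (fun i => x i + s) ∂(piN (Fin n)) = ∫ x, g x ∂(piN (Fin n)) := by
  have := piN_haar (Fin n)
  exact integral_add_right_eq_self (μ := piN (Fin n)) g (fun _ : Fin n => s)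

theorem GC_meas_shift {n : ℕ} : Measurable (fun q : (Fin n → T3) × T3 => fun i => q.1 i + q.2) :=
  measurable_pi_lambda _ fun i => ((measurable_pi_apply i).comp measurable_fst).add measurable_snd

theorem GC_swap {F : T3 → ℝ} (hF : GasFn lam3 F) {n : ℕ} {Φ : T3 → (Fin n → T3) → ℝ}
    (h : BM (fun q : T3 × (Fin n → T3) => Φ q.1 q.2)) :
    ∫ z, Eg F n (Φ z) ∂lam3 = Eg F n (fun x => ∫ z, Φ z x ∂lam3) := by
  unfold Eg
  rw [integral_div]
  congr 1
  have b : BM (uncurry fun (z : T3) (x : Fin n → T3) => Φ z x * Wg F x) :=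
    h.mul ((Wg_bm hF n).comp measurable_snd)
  rw [integral_integral_swap (b.integrable _)]
  congr 1
  ext x
  exact integral_mul_const _ _

theorem GC_avgC {F : T3 → ℝ} (hF : GasFn lam3 F) {n : ℕ} {Φ : (Fin n → T3) → ℂ}
    (hΦ : Measurable Φ) (hΦb : ∃ C, ∀ x, ‖Φ x‖ ≤ C) :
    EgC F n Φ = EgC F n (fun x => ∫ s, Φ (fun i => x i + s) ∂lam3) := by
  obtain ⟨C, hC⟩ := hΦb
  unfold EgC
  congr 1
  have hm : Measurable (uncurry fun (x : Fin n → T3) (s : T3) =>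
      Φ (fun i => x i + s) * (Wg F x : ℂ)) :=
    (hΦ.comp GC_meas_shift).mul
      (Complex.measurable_ofReal.comp ((Wg_bm hF n).measurable.comp measurable_fst))
  have hi : Integrable (uncurry fun (x : Fin n → T3) (s : T3) =>
      Φ (fun i => x i + s) * (Wg F x : ℂ)) ((piN (Fin n)).prod lam3) := by
    refine Integrable.of_bound hm.aestronglyMeasurable C (Eventually.of_forall fun q => ?_)
    show ‖Φ (fun i => q.1 i + q.2) * (Wg F q.1 : ℂ)‖ ≤ C
    rw [norm_mul, Complex.norm_real, Real.norm_eq_abs, abs_of_nonneg (Wg_nonneg hF _)]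
    calc ‖Φ (fun i => q.1 i + q.2)‖ * Wg F q.1 ≤ C * 1 :=
          mul_le_mul (hC _) (Wg_le_one hF _) (Wg_nonneg hF _) ((norm_nonneg _).trans (hC q.1))
      _ = C := mul_one C
  have e1 : ∀ x : Fin n → T3, (∫ s, Φ (fun i => x i + s) ∂lam3) * (Wg F x : ℂ)
      = ∫ s, Φ (fun i => x i + s) * (Wg F x : ℂ) ∂lam3 := fun x => (integral_mul_const _ _).symm
  simp_rw [e1]
  rw [integral_integral_swap hi]
  have e2 : ∀ s : T3, ∫ x, Φ (fun i => x i + s) * (Wg F x : ℂ) ∂(piN (Fin n))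
      = ∫ x, Φ x * (Wg F x : ℂ) ∂(piN (Fin n)) := by
    intro s
    have h1 := GC_int_shift (fun x : Fin n → T3 => Φ x * (Wg F x : ℂ)) s
    rw [← h1]
    congr 1
    ext x
    rw [Wg_shift]
  simp_rw [e2]
  simp

end GCaux

theorem GC_Ag_shift (F : T3 → ℝ) {n : ℕ} (x : Fin n → T3) (y s : T3) :
    Ag F (fun i => x i + s) (y + s) = Ag F x y := by
  unfold Ag
  refine Finset.prod_congr rfl fun j _ => ?_
  rw [add_sub_add_right_eq_sub]

theorem GC_Ag_bm {F : T3 → ℝ} (hF : GasFn lam3 F) (n : ℕ) (y : T3) :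
    BM (fun x : Fin n → T3 => Ag F x y) :=
  (Ag_bm hF n).comp (measurable_id.prodMk measurable_const)

theorem GC_Abar_bm {F : T3 → ℝ} (hF : GasFn lam3 F) (n : ℕ) :
    BM (fun x : Fin n → T3 => ∫ z, Ag F x z ∂lam3) :=
  BM.integral_right (f := fun (x : Fin n → T3) (z : T3) => Ag F x z) (Ag_bm hF n) lam3

theorem Eg_shift {F : T3 → ℝ} (hF : GasFn lam3 F) {n : ℕ} {Φ : (Fin n → T3) → ℝ} (hΦ : BM Φ)
    (s : T3) : Eg F n (fun x => Φ (fun i => x i + s)) = Eg F n Φ := by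
  unfold Eg
  congr 1
  have h1 := GC_int_shift (fun x : Fin n → T3 => Φ x * Wg F x) s
  rw [← h1]
  congr 1
  ext x
  rw [Wg_shift]

theorem EgC_shift {F : T3 → ℝ} (hF : GasFn lam3 F) {n : ℕ} {Φ : (Fin n → T3) → ℂ}
    (hΦ : Measurable Φ) (hΦb : ∃ C, ∀ x, ‖Φ x‖ ≤ C) (s : T3) :
    EgC F n (fun x => Φ (fun i => x i + s)) = EgC F n Φ := by
  unfold EgC
  congr 1
  have h1 := GC_int_shift (fun x : Fin n → T3 => Φ x * (Wg F x : ℂ)) s
  rw [← h1]
  congr 1
  ext x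
  rw [Wg_shift]

theorem Eg_avg {F : T3 → ℝ} (hF : GasFn lam3 F) {n : ℕ} {Φ : (Fin n → T3) → ℝ} (hΦ : BM Φ) :
    Eg F n Φ = Eg F n (fun x => ∫ s, Φ (fun i => x i + s) ∂lam3) := by
  have hb : BM (fun q : T3 × (Fin n → T3) => Φ (fun i => q.2 i + q.1)) :=
    hΦ.comp (GC_meas_shift.comp (measurable_snd.prodMk measurable_fst))
  rw [← GC_swap hF (Φ := fun s x => Φ (fun i => x i + s)) hb]
  have e : ∀ s : T3, Eg F n (fun x => Φ (fun i => x i + s)) = Eg F n Φ := fun s => Eg_shift hF hΦ s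
  simp_rw [e]
  simp

/-- One particle is uniformly distributed. -/
theorem Eg_one {F : T3 → ℝ} (hF : GasFn lam3 F) {n : ℕ} (hZ : Zg F n ≠ 0) {h : T3 → ℝ}
    (hh : BM h) (j : Fin n) : Eg F n (fun x => h (x j)) = ∫ z, h z ∂lam3 := by
  have hb : BM (fun x : Fin n → T3 => h (x j)) := hh.comp (measurable_pi_apply j)
  rw [Eg_avg hF hb]
  have e : (fun x : Fin n → T3 => ∫ s, h (x j + s) ∂lam3) = fun _ => ∫ z, h z ∂lam3 := by
    funext x
    exact integral_add_left_eq_self (μ := lam3) h (x j)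
  rw [e, Eg_const hZ]

theorem EgC_one {F : T3 → ℝ} (hF : GasFn lam3 F) {n : ℕ} (hZ : Zg F n ≠ 0) {h : T3 → ℂ}
    (hh : Measurable h) (hb : ∃ C, ∀ x, ‖h x‖ ≤ C) (j : Fin n) :
    EgC F n (fun x => h (x j)) = ∫ z, h z ∂lam3 := by
  rw [GC_avgC hF (Φ := fun x : Fin n → T3 => h (x j)) (hh.comp (measurable_pi_apply j))
    (hb.imp fun C hC x => hC _)]
  have e : (fun x : Fin n → T3 => ∫ s, h (x j + s) ∂lam3) = fun _ => ∫ z, h z ∂lam3 := by
    funext x
    exact integral_add_left_eq_self (μ := lam3) h (x j)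
  rw [e]
  unfold EgC
  rw [integral_const_mul, integral_complex_ofReal]
  have hZ' : (Zg F n : ℂ) ≠ 0 := by exact_mod_cast hZ
  exact mul_div_cancel_right₀ _ hZ'

/-- Mean of a linear statistic. -/
theorem Eg_Xg {F : T3 → ℝ} (hF : GasFn lam3 F) {n : ℕ} (hZ : Zg F n ≠ 0) {h : T3 → ℝ}
    (hh : BM h) (y : T3) : Eg F n (fun x => Xg h x y) = n * ∫ z, h z ∂lam3 := by
  have hb : ∀ j : Fin n, BM (fun x : Fin n → T3 => h (y - x j)) := fun j =>
    hh.comp (measurable_sub' measurable_const (measurable_pi_apply j))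
  have h1 : Eg F n (fun x => Xg h x y) = ∑ j : Fin n, Eg F n (fun x => h (y - x j)) :=
    Eg_sum hF Finset.univ (Φ := fun (j : Fin n) (x : Fin n → T3) => h (y - x j)) fun j _ => hb j
  rw [h1]
  have h2 : ∀ j : Fin n, Eg F n (fun x => h (y - x j)) = ∫ z, h z ∂lam3 := by
    intro j
    have h3 := Eg_one hF hZ (h := fun z => h (y - z))
      (hh.comp (measurable_sub' measurable_const measurable_id)) j
    rw [h3]
    exact integral_reflect h y
  simp only [h2, Finset.sum_const, Finset.card_univ, Fintype.card_fin, nsmul_eq_mul]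

theorem Eg_Ag {F : T3 → ℝ} (hF : GasFn lam3 F) (n : ℕ) (y : T3) :
    Eg F n (fun x => Ag F x y) = rg F n := by
  have h1 := Eg_shift hF (GC_Ag_bm hF n y) y
  rw [← h1]
  unfold rg
  congr 1
  ext x
  have h2 := GC_Ag_shift F x 0 y
  rw [zero_add] at h2
  exact h2

theorem Eg_AgAg {F : T3 → ℝ} (hF : GasFn lam3 F) (n : ℕ) (y z : T3) :
    Eg F n (fun x => Ag F x y * Ag F x (y + z)) = Mg F n z := by
  have h1 := Eg_shift hF ((GC_Ag_bm hF n y).mul (GC_Ag_bm hF n (y + z))) y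
  rw [← h1]
  unfold Mg
  congr 1
  ext x
  have h2 := GC_Ag_shift F x 0 y
  have h3 := GC_Ag_shift F x z y
  rw [zero_add] at h2
  rw [add_comm z y] at h3
  show Ag F (fun i => x i + y) y * Ag F (fun i => x i + y) (y + z) = _
  rw [h2, h3]

/-- `∫ Mg = ⟨(∫ A)²⟩ ≥ r²` and `Mg ≤ 1`, `Mg ≥ 0`. -/
theorem Mg_nonneg {F : T3 → ℝ} (hF : GasFn lam3 F) (n : ℕ) (z : T3) : 0 ≤ Mg F n z := by
  exact Eg_nonneg hF fun x => mul_nonneg (Ag_nonneg hF x 0) (Ag_nonneg hF x z)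

theorem Mg_le_one {F : T3 → ℝ} (hF : GasFn lam3 F) {n : ℕ} (hZ : Zg F n ≠ 0) (z : T3) :
    Mg F n z ≤ 1 := by
  have h1 := Eg_mono hF ((GC_Ag_bm hF n 0).mul (GC_Ag_bm hF n z)) (BM.const 1) (fun x =>
    mul_le_one₀ (Ag_le_one hF x 0) (Ag_nonneg hF x z) (Ag_le_one hF x z))
  rw [Eg_const hZ] at h1
  exact h1

theorem Mg_bm {F : T3 → ℝ} (hF : GasFn lam3 F) (n : ℕ) : BM (Mg F n) := by
  have b : BM (uncurry fun (z : T3) (x : Fin n → T3) => Ag F x 0 * Ag F x z * Wg F x) := by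
    refine (BM.mul ?_ ?_).mul ((Wg_bm hF n).comp measurable_snd)
    · exact (GC_Ag_bm hF n 0).comp measurable_snd
    · exact (Ag_bm hF n).comp (measurable_snd.prodMk measurable_fst)
  have h1 := (BM.integral_right (f := fun (z : T3) (x : Fin n → T3) => Ag F x 0 * Ag F x z * Wg F x)
    b (piN (Fin n))).const_mul (Zg F n)⁻¹
  have e : (Mg F n) = fun z => (Zg F n)⁻¹ * ∫ x, Ag F x 0 * Ag F x z * Wg F x ∂(piN (Fin n)) := by
    funext z
    unfold Mg Eg
    rw [div_eq_inv_mul]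
  rw [e]
  exact h1

/-- `Mg` is even: translate by `-z`. -/
theorem Mg_even {F : T3 → ℝ} (hF : GasFn lam3 F) (n : ℕ) (z : T3) : Mg F n (-z) = Mg F n z := by
  have h1 := Eg_AgAg hF n (-z) z
  rw [← h1]
  unfold Mg
  congr 1
  ext x
  rw [neg_add_cancel, mul_comm]

/-- `M(0) - M(z) = ⟨(A(0) - A(z))²⟩ / 2`. -/
theorem Mg_diff {F : T3 → ℝ} (hF : GasFn lam3 F) (n : ℕ) (z : T3) :
    Mg F n 0 - Mg F n z = 1 / 2 * Eg F n (fun x => (Ag F x 0 - Ag F x z) ^ 2) := by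
  have b0 := GC_Ag_bm hF n 0
  have bz := GC_Ag_bm hF n z
  have h0 : Eg F n (fun x => Ag F x 0 * Ag F x 0) = Mg F n 0 := rfl
  have hz : Eg F n (fun x => Ag F x z * Ag F x z) = Mg F n 0 := by
    have h := Eg_AgAg hF n z 0
    rw [add_zero] at h
    exact h
  have e : (fun x : Fin n → T3 => (Ag F x 0 - Ag F x z) ^ 2)
      = fun x => (Ag F x 0 * Ag F x 0 + Ag F x z * Ag F x z) - 2 * (Ag F x 0 * Ag F x z) := by
    funext x
    ring
  rw [e, Eg_sub hF ((b0.mul b0).add (bz.mul bz)) ((b0.mul bz).const_mul 2),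
    Eg_add hF (b0.mul b0) (bz.mul bz), Eg_const_mul, h0, hz]
  have h3 : Eg F n (fun x => Ag F x 0 * Ag F x z) = Mg F n z := rfl
  rw [h3]
  ring

/-- `A(0) A(z) ≤ (A(0)² + A(z)²)/2` and `⟨A(z)²⟩ = ⟨A(0)²⟩ = Mg 0`. -/
theorem Mg_le {F : T3 → ℝ} (hF : GasFn lam3 F) (n : ℕ) (z : T3) : Mg F n z ≤ Mg F n 0 := by
  have h1 := Mg_diff hF n z
  have h2 : 0 ≤ Eg F n (fun x => (Ag F x 0 - Ag F x z) ^ 2) := Eg_nonneg hF fun x => sq_nonneg _
  linarith

/-- `|Cov(A(0), A(z))| ≤ ⟨(A(0) - c)²⟩` for every constant `c`. -/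
theorem Mg_sub_sq {F : T3 → ℝ} (hF : GasFn lam3 F) {n : ℕ} (hZ : Zg F n ≠ 0) (z : T3) (c : ℝ) :
    |Mg F n z - rg F n ^ 2| ≤ Eg F n (fun x => (Ag F x 0 - c) ^ 2) := by
  have b0 := GC_Ag_bm hF n 0
  have bz := GC_Ag_bm hF n z
  have h0 : Eg F n (fun x => Ag F x 0 * Ag F x 0) = Mg F n 0 := rfl
  have hz : Eg F n (fun x => Ag F x z * Ag F x z) = Mg F n 0 := by
    have h := Eg_AgAg hF n z 0
    rw [add_zero] at h
    exact h
  have h3 : Eg F n (fun x => Ag F x 0 * Ag F x z) = Mg F n z := rfl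
  have r0 : Eg F n (fun x => Ag F x 0) = rg F n := rfl
  have rz : Eg F n (fun x => Ag F x z) = rg F n := Eg_Ag hF n z
  have e1 : Eg F n (fun x => (Ag F x 0 - c) ^ 2) = Mg F n 0 - 2 * c * rg F n + c ^ 2 := by
    have e : (fun x : Fin n → T3 => (Ag F x 0 - c) ^ 2)
        = fun x => (Ag F x 0 * Ag F x 0 - (2 * c) * Ag F x 0) + c ^ 2 := by
      funext x
      ring
    rw [e, Eg_add hF ((b0.mul b0).sub (b0.const_mul (2 * c))) (BM.const _),
      Eg_sub hF (b0.mul b0) (b0.const_mul (2 * c)), Eg_const_mul, Eg_const hZ, h0, r0]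
  have e2 : 0 ≤ Mg F n 0 + Mg F n z - 2 * rg F n ^ 2 := by
    have hp : 0 ≤ Eg F n (fun x => (Ag F x 0 + Ag F x z - 2 * rg F n) ^ 2) :=
      Eg_nonneg hF fun x => sq_nonneg _
    have e : (fun x : Fin n → T3 => (Ag F x 0 + Ag F x z - 2 * rg F n) ^ 2)
        = fun x => (((Ag F x 0 * Ag F x 0 + Ag F x z * Ag F x z) + 2 * (Ag F x 0 * Ag F x z))
          - (4 * rg F n) * (Ag F x 0 + Ag F x z)) + 4 * rg F n ^ 2 := by
      funext x
      ring
    rw [e, Eg_add hF ((((b0.mul b0).add (bz.mul bz)).add ((b0.mul bz).const_mul 2)).sub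
        ((b0.add bz).const_mul _)) (BM.const _),
      Eg_sub hF (((b0.mul b0).add (bz.mul bz)).add ((b0.mul bz).const_mul 2))
        ((b0.add bz).const_mul _),
      Eg_add hF ((b0.mul b0).add (bz.mul bz)) ((b0.mul bz).const_mul 2),
      Eg_add hF (b0.mul b0) (bz.mul bz), Eg_const_mul, Eg_const_mul, Eg_add hF b0 bz,
      Eg_const hZ, h0, hz, h3, r0, rz] at hp
    nlinarith
  have e3 := Mg_le hF n z
  rw [e1, abs_le]
  constructor
  · nlinarith [sq_nonneg (c - rg F n)]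
  · nlinarith [sq_nonneg (c - rg F n)]

theorem Mg_int_ge {F : T3 → ℝ} (hF : GasFn lam3 F) {n : ℕ} (hZ : Zg F n ≠ 0) :
    rg F n ^ 2 ≤ ∫ z, Mg F n z ∂lam3 := by
  have bA := GC_Abar_bm hF n
  have b1 : BM (fun q : T3 × (Fin n → T3) => Ag F q.2 q.1) :=
    (Ag_bm hF n).comp (measurable_snd.prodMk measurable_fst)
  have b0 := GC_Ag_bm hF n 0
  -- the integral of `Mg`
  have h1 : ∫ z, Mg F n z ∂lam3 = Eg F n (fun x => Ag F x 0 * ∫ z, Ag F x z ∂lam3) := by
    have h := GC_swap hF (Φ := fun z x => Ag F x 0 * Ag F x z) ((b0.comp measurable_snd).mul b1)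
    have e : (fun x : Fin n → T3 => Ag F x 0 * ∫ z, Ag F x z ∂lam3)
        = fun x => ∫ z, Ag F x 0 * Ag F x z ∂lam3 := by
      funext x
      exact (integral_const_mul _ _).symm
    rw [e]
    exact h
  have h2 : Eg F n (fun x => Ag F x 0 * ∫ z, Ag F x z ∂lam3)
      = Eg F n (fun x => (∫ z, Ag F x z ∂lam3) ^ 2) := by
    rw [Eg_avg hF (b0.mul bA)]
    congr 1
    funext x
    have e1 : ∀ s : T3, Ag F (fun i => x i + s) 0 * ∫ z, Ag F (fun i => x i + s) z ∂lam3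
        = Ag F x (-s) * ∫ z, Ag F x z ∂lam3 := by
      intro s
      have k1 := GC_Ag_shift F x (-s) s
      rw [neg_add_cancel] at k1
      rw [k1]
      congr 1
      have k2 : ∫ z, Ag F (fun i => x i + s) (z + s) ∂lam3 = ∫ z, Ag F (fun i => x i + s) z ∂lam3 :=
        integral_add_right_eq_self (μ := lam3) (fun z => Ag F (fun i => x i + s) z) s
      rw [← k2]
      congr 1
      funext z
      exact GC_Ag_shift F x z s
    simp_rw [e1]
    rw [integral_mul_const, sq]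
    congr 1
    exact integral_neg_eq_self (μ := lam3) (fun s => Ag F x s)
  have h3 : Eg F n (fun x => ∫ z, Ag F x z ∂lam3) = rg F n := by
    rw [← GC_swap hF (Φ := fun z x => Ag F x z) b1]
    have e : ∀ z : T3, Eg F n (fun x => Ag F x z) = rg F n := fun z => Eg_Ag hF n z
    simp_rw [e]
    simp
  have h4 := Eg_cs hF bA (BM.const 1)
  simp only [mul_one, one_pow] at h4
  rw [h3, Eg_const hZ, mul_one] at h4
  rw [h1, h2]
  exact h4

end Pool.Agent.Lib.MP_4952d6_mp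

end

/-! ### U.GD1 -/

section

set_option autoImplicit false
set_option linter.unusedSectionVars false
set_option linter.unusedVariables false
open MeasureTheory Function Filter Topology Set

namespace Pool.Agent.Lib.MP_4952d6_mp


/-! # GD: recursion in the number of particles, pair functions

`piN (Fin (n+1))` is the image of `lam3 × piN (Fin n)` under `Fin.cons` (`measurePreserving_piFinSuccAbove` at `0`). With
`Wg_cons`: `Z_{n+1} = ∫∫ Wg x Ag x y = Z_n ⟨A(y)⟩ = Z_n r_n` and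
`Wg (cons y (cons z x)) = Wg x * Ag x z * (F (y - z) * Ag x y)`, so for `Z_n ≠ 0`
`∫ H (x 0 - x 1) (weight without the factor F (x 0 - x 1)) = Z_n ∫∫ H (y - z) ⟨A(y) A(z)⟩ = Z_n ∫ H M_n`. -/

theorem GD1_meas_cons (n : ℕ) : Measurable (fun p : T3 × (Fin n → T3) => (Fin.cons p.1 p.2 : Fin (n + 1) → T3)) := by
  refine measurable_pi_iff.2 fun i => ?_
  refine Fin.cases ?_ (fun j => ?_) i
  · simpa only [Fin.cons_zero] using measurable_fst
  · have h : Measurable (fun p : T3 × (Fin n → T3) => p.2 j) :=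
      (measurable_pi_apply j).comp measurable_snd
    simpa only [Fin.cons_succ] using h

theorem integral_cons {n : ℕ} {Φ : (Fin (n + 1) → T3) → ℝ} (hΦ : BM Φ) :
    ∫ x, Φ x ∂(piN (Fin (n + 1))) = ∫ x, ∫ y, Φ (Fin.cons y x) ∂lam3 ∂(piN (Fin n)) := by
  have hmp := measurePreserving_piFinSuccAbove (fun _ : Fin (n + 1) => lam3) 0
  have h1 := hmp.integral_comp' (fun p : T3 × (Fin n → T3) => Φ (Fin.cons p.1 p.2))
  have h2 : ∀ x : Fin (n + 1) → T3, (fun p : T3 × (Fin n → T3) => Φ (Fin.cons p.1 p.2))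
      (MeasurableEquiv.piFinSuccAbove (fun _ : Fin (n + 1) => T3) 0 x) = Φ x := by
    intro x
    have : (Fin.cons (x 0) (fun j : Fin n => x j.succ) : Fin (n + 1) → T3) = x :=
      Fin.cons_self_tail x
    change Φ (Fin.cons (x 0) (fun j : Fin n => x (Fin.succAbove 0 j))) = Φ x
    simp only [Fin.zero_succAbove]
    rw [this]
  simp only [h2] at h1
  rw [h1]
  have b : BM (fun p : T3 × (Fin n → T3) => Φ (Fin.cons p.1 p.2)) := hΦ.comp (GD1_meas_cons n)
  exact integral_prod_symm _ (b.integrable _)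

theorem GD1_swap {n : ℕ} {f : (Fin n → T3) → T3 → ℝ} (hf : BM (uncurry f)) :
    ∫ x, ∫ y, f x y ∂lam3 ∂(piN (Fin n)) = ∫ y, ∫ x, f x y ∂(piN (Fin n)) ∂lam3 :=
  integral_integral_swap (hf.integrable _)

theorem GD1_AW_bm {F : T3 → ℝ} (hF : GasFn lam3 F) (n : ℕ) :
    BM (uncurry fun (x : Fin n → T3) (y : T3) => Ag F x y * Wg F x) :=
  (Ag_bm hF n).mul ((Wg_bm hF n).comp measurable_fst)

theorem GD1_Zg_eq {F : T3 → ℝ} (hF : GasFn lam3 F) (n : ℕ) :
    Zg F (n + 1) = ∫ x, ∫ y, Ag F x y * Wg F x ∂lam3 ∂(piN (Fin n)) := by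
  unfold Zg
  rw [integral_cons (Wg_bm hF (n + 1))]
  refine integral_congr_ae (Filter.Eventually.of_forall fun x => ?_)
  refine integral_congr_ae (Filter.Eventually.of_forall fun y => ?_)
  simp only
  rw [Wg_cons hF, mul_comm]

theorem GD1_Eg_mul {F : T3 → ℝ} {n : ℕ} (hZ : Zg F n ≠ 0) (Φ : (Fin n → T3) → ℝ) :
    ∫ x, Φ x * Wg F x ∂(piN (Fin n)) = Eg F n Φ * Zg F n := by
  unfold Eg
  rw [div_mul_cancel₀ _ hZ]

theorem Zg_succ {F : T3 → ℝ} (hF : GasFn lam3 F) {n : ℕ} (hZ : 0 < Zg F n) :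
    Zg F (n + 1) = rg F n * Zg F n := by
  rw [GD1_Zg_eq hF, GD1_swap (GD1_AW_bm hF n)]
  have h1 : ∀ y, ∫ x, Ag F x y * Wg F x ∂(piN (Fin n)) = rg F n * Zg F n := by
    intro y
    rw [GD1_Eg_mul hZ.ne' (fun x => Ag F x y), Eg_Ag hF n y]
  simp only [h1, integral_const, probReal_univ, one_smul]

theorem Zg_succ_le {F : T3 → ℝ} (hF : GasFn lam3 F) (n : ℕ) : Zg F (n + 1) ≤ Zg F n := by
  rw [GD1_Zg_eq hF]
  unfold Zg
  refine integral_mono ((BM.integral_right (GD1_AW_bm hF n) lam3).integrable _)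
    ((Wg_bm hF n).integrable _) fun x => ?_
  simp only
  have h1 : ∀ y, Ag F x y * Wg F x ≤ Wg F x := fun y => by
    have := mul_le_mul_of_nonneg_right (Ag_le_one hF x y) (Wg_nonneg hF x)
    rwa [one_mul] at this
  have b : BM (fun y => Ag F x y * Wg F x) := (GD1_AW_bm hF n).comp measurable_prodMk_left
  calc ∫ y, Ag F x y * Wg F x ∂lam3 ≤ ∫ y, Wg F x ∂lam3 :=
        integral_mono (b.integrable _) (integrable_const _) h1
    _ = Wg F x := by simp only [integral_const, probReal_univ, one_smul]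

theorem Zg_pos_of_le {F : T3 → ℝ} (hF : GasFn lam3 F) {m n : ℕ} (h : m ≤ n) (hZ : 0 < Zg F n) :
    0 < Zg F m := by
  have h1 : Antitone (Zg F) := antitone_nat_of_succ_le fun k => Zg_succ_le hF k
  exact lt_of_lt_of_le hZ (h1 h)

/-- the embedding `k ↦ k + 2` -/
def GD1_e (n : ℕ) : Fin n ↪ Fin (n + 2) :=
  ⟨fun k => k.succ.succ, fun a b h => by simpa using h⟩

theorem GD1_rest (n : ℕ) : rest (0 : Fin (n + 2)) 1 = Finset.univ.map (GD1_e n) := by
  ext k
  simp only [rest, Finset.mem_erase, Finset.mem_univ, and_true, Finset.mem_map, true_and]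
  constructor
  · rintro ⟨h1, h0⟩
    obtain ⟨j, rfl⟩ := Fin.exists_succ_eq.mpr h0
    have h2 : j ≠ 0 := by
      rintro rfl
      exact h1 rfl
    obtain ⟨l, rfl⟩ := Fin.exists_succ_eq.mpr h2
    exact ⟨l, rfl⟩
  · rintro ⟨l, rfl⟩
    constructor
    · intro h
      have h3 := congrArg Fin.val h
      simp [GD1_e] at h3
    · intro h
      have h3 := congrArg Fin.val h
      simp [GD1_e] at h3

theorem GD1_oneB (F : T3 → ℝ) {n : ℕ} (x : Fin n → T3) (y z w : T3) :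
    oneB F (rest (0 : Fin (n + 2)) 1) (Fin.cons y (Fin.cons z x : Fin (n + 1) → T3) : Fin (n + 2) → T3) w
      = Ag F x w := by
  unfold oneB Ag
  rw [GD1_rest, Finset.prod_map]
  rfl

theorem GD1_pairW (F : T3 → ℝ) {n : ℕ} (x : Fin n → T3) (y z : T3) :
    pairW F (rest (0 : Fin (n + 2)) 1) (Fin.cons y (Fin.cons z x : Fin (n + 1) → T3) : Fin (n + 2) → T3)
      = Wg F x := by
  unfold Wg pairW
  rw [GD1_rest, Finset.prod_map]
  refine Finset.prod_congr rfl fun k _ => ?_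
  rw [Finset.filter_map, Finset.prod_map]
  have e : (Finset.univ.filter ((fun b : Fin (n + 2) => b < GD1_e n k) ∘ (GD1_e n)))
      = Finset.univ.filter (fun l : Fin n => l < k) := by
    ext l
    simp [GD1_e]
  rw [e]
  rfl

theorem GD1_pairI_bm {ι : Type*} [Fintype ι] [LinearOrder ι] {F : T3 → ℝ} (h : GasFn lam3 F)
    (i j : ι) {q : T3 → ℝ} (hq : BM q) :
    BM (fun x : ι → T3 => q (x i - x j) * (oneB F (rest i j) x (x i) * oneB F (rest i j) x (x j))
      * pairW F (rest i j) x) := by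
  have m1 : ∀ k : ι, Measurable (fun x : ι → T3 => (x, x k)) := fun k =>
    measurable_id.prodMk (measurable_pi_apply k)
  exact ((hq.comp (measurable_sub' (measurable_pi_apply i) (measurable_pi_apply j))).mul
    (BM.mul ((oneB_bm h _).comp (m1 i)) ((oneB_bm h _).comp (m1 j)))).mul (pairW_bm h _)

/-- Pair integral for the first two particles. -/
theorem pairI_zero_one {F : T3 → ℝ} (hF : GasFn lam3 F) {n : ℕ} (hZ : 0 < Zg F n) {H : T3 → ℝ}
    (hH : BM H) :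
    pairI lam3 F (0 : Fin (n + 2)) 1 H = Zg F n * ∫ z, H z * Mg F n z ∂lam3 := by
  have h01 : (0 : Fin (n + 2)) ≠ 1 := by
    intro h
    have := congrArg Fin.val h
    simp at this
  -- the integrand for given positions of the first two particles
  have b0 := GD1_pairI_bm hF (0 : Fin (n + 2)) 1 hH
  unfold pairI
  rw [integral_cons b0]
  have b1 : BM (fun x : Fin (n + 1) → T3 => ∫ y, H ((Fin.cons y x : Fin (n + 2) → T3) 0
      - (Fin.cons y x : Fin (n + 2) → T3) 1) * (oneB F (rest 0 1) (Fin.cons y x : Fin (n + 2) → T3)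
        ((Fin.cons y x : Fin (n + 2) → T3) 0) * oneB F (rest 0 1) (Fin.cons y x : Fin (n + 2) → T3)
        ((Fin.cons y x : Fin (n + 2) → T3) 1)) * pairW F (rest 0 1) (Fin.cons y x : Fin (n + 2) → T3) ∂lam3) := by
    have m1 : Measurable (fun p : (Fin (n + 1) → T3) × T3 => (Fin.cons p.2 p.1 : Fin (n + 2) → T3)) :=
      (GD1_meas_cons (n + 1)).comp measurable_swap
    exact BM.integral_right (f := fun (x : Fin (n + 1) → T3) (y : T3) =>
      H ((Fin.cons y x : Fin (n + 2) → T3) 0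
      - (Fin.cons y x : Fin (n + 2) → T3) 1) * (oneB F (rest 0 1) (Fin.cons y x : Fin (n + 2) → T3)
        ((Fin.cons y x : Fin (n + 2) → T3) 0) * oneB F (rest 0 1) (Fin.cons y x : Fin (n + 2) → T3)
        ((Fin.cons y x : Fin (n + 2) → T3) 1)) * pairW F (rest 0 1) (Fin.cons y x : Fin (n + 2) → T3))
      (b0.comp m1) lam3
  rw [integral_cons b1]
  have e1 : ∀ (x : Fin n → T3) (z y : T3),
      H ((Fin.cons y (Fin.cons z x : Fin (n + 1) → T3) : Fin (n + 2) → T3) 0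
        - (Fin.cons y (Fin.cons z x : Fin (n + 1) → T3) : Fin (n + 2) → T3) 1)
        * (oneB F (rest 0 1) (Fin.cons y (Fin.cons z x : Fin (n + 1) → T3) : Fin (n + 2) → T3)
          ((Fin.cons y (Fin.cons z x : Fin (n + 1) → T3) : Fin (n + 2) → T3) 0)
        * oneB F (rest 0 1) (Fin.cons y (Fin.cons z x : Fin (n + 1) → T3) : Fin (n + 2) → T3)
          ((Fin.cons y (Fin.cons z x : Fin (n + 1) → T3) : Fin (n + 2) → T3) 1))
        * pairW F (rest 0 1) (Fin.cons y (Fin.cons z x : Fin (n + 1) → T3) : Fin (n + 2) → T3)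
      = H (y - z) * (Ag F x y * Ag F x z) * Wg F x := by
    intro x z y
    rw [GD1_oneB, GD1_oneB, GD1_pairW]
    rfl
  simp only [e1]
  -- exchange the integrals
  have mA : ∀ {g : ((Fin n → T3) × T3) × T3 → T3}, Measurable g →
      BM (fun p : ((Fin n → T3) × T3) × T3 => Ag F p.1.1 (g p)) := fun {g} hg =>
    (Ag_bm hF n).comp ((measurable_fst.comp measurable_fst).prodMk hg)
  have b3 : BM (fun p : ((Fin n → T3) × T3) × T3 =>
      H (p.2 - p.1.2) * (Ag F p.1.1 p.2 * Ag F p.1.1 p.1.2) * Wg F p.1.1) := by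
    refine ((hH.comp (measurable_sub' measurable_snd (measurable_snd.comp measurable_fst))).mul
      (BM.mul (mA measurable_snd) (mA (measurable_snd.comp measurable_fst)))).mul ?_
    exact (Wg_bm hF n).comp (measurable_fst.comp measurable_fst)
  have b2 : BM (uncurry fun (x : Fin n → T3) (z : T3) =>
      ∫ y, H (y - z) * (Ag F x y * Ag F x z) * Wg F x ∂lam3) :=
    BM.integral_right (f := fun (p : (Fin n → T3) × T3) (y : T3) =>
      H (y - p.2) * (Ag F p.1 y * Ag F p.1 p.2) * Wg F p.1) b3 lam3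
  rw [GD1_swap b2]
  have e2 : ∀ z : T3, ∫ x, (∫ y, H (y - z) * (Ag F x y * Ag F x z) * Wg F x ∂lam3) ∂(piN (Fin n))
      = Zg F n * ∫ w, H w * Mg F n w ∂lam3 := by
    intro z
    have b4 : BM (uncurry fun (x : Fin n → T3) (y : T3) => H (y - z) * (Ag F x y * Ag F x z) * Wg F x) := by
      have m4 : Measurable (fun p : (Fin n → T3) × T3 => ((p.1, z), p.2)) :=
        (measurable_fst.prodMk measurable_const).prodMk measurable_snd
      exact b3.comp m4
    rw [GD1_swap b4]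
    have e3 : ∀ y : T3, ∫ x, H (y - z) * (Ag F x y * Ag F x z) * Wg F x ∂(piN (Fin n))
        = (fun w => Zg F n * (H w * Mg F n w)) (y - z) := by
      intro y
      have e4 : ∀ x : Fin n → T3, H (y - z) * (Ag F x y * Ag F x z) * Wg F x
          = H (y - z) * ((Ag F x z * Ag F x (z + (y - z))) * Wg F x) := by
        intro x
        rw [add_sub_cancel]
        ring
      simp only [e4]
      rw [integral_const_mul, GD1_Eg_mul hZ.ne' (fun x => Ag F x z * Ag F x (z + (y - z))),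
        Eg_AgAg hF n z (y - z)]
      ring
    simp only [e3]
    rw [integral_shift (μ := lam3) (fun w => Zg F n * (H w * Mg F n w)) z, integral_const_mul]
  simp only [e2, integral_const, probReal_univ, one_smul]

end Pool.Agent.Lib.MP_4952d6_mp

end

/-! ### U.GD2 -/

section

set_option autoImplicit false
set_option linter.unusedSectionVars false
set_option linter.unusedVariables false
open MeasureTheory Function Filter Topology Set

namespace Pool.Agent.Lib.MP_4952d6_mp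


/-! # GD2: permutation invariance of the pair integral -/

theorem GD2_exists_perm {κ : Type*} [DecidableEq κ] {i j i' j' : κ} (hij : i ≠ j) (hij' : i' ≠ j') :
    ∃ e : Equiv.Perm κ, e i = i' ∧ e j = j' := by
  have h1 : Equiv.swap i i' j ≠ i' := by
    intro h
    have h2 := congrArg (Equiv.swap i i') h
    rw [Equiv.swap_apply_self, Equiv.swap_apply_right] at h2
    exact hij h2.symm
  refine ⟨Equiv.swap (Equiv.swap i i' j) j' * Equiv.swap i i', ?_, ?_⟩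
  · rw [Equiv.Perm.mul_apply, Equiv.swap_apply_left, Equiv.swap_apply_of_ne_of_ne h1.symm hij']
  · rw [Equiv.Perm.mul_apply, Equiv.swap_apply_left]

theorem GD2_integral_perm {m : ℕ} (e : Equiv.Perm (Fin m)) (Φ : (Fin m → T3) → ℝ) :
    ∫ x, Φ (fun i => x (e i)) ∂(piN (Fin m)) = ∫ x, Φ x ∂(piN (Fin m)) := by
  have h := measurePreserving_piCongrLeft (fun _ : Fin m => lam3) (e.symm : Fin m ≃ Fin m)
  have h1 := h.integral_comp' (g := Φ)
  rw [← h1]
  congr 1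
  funext x
  congr 1
  funext i
  have h2 := MeasurableEquiv.piCongrLeft_apply_apply (e.symm : Fin m ≃ Fin m) (β := fun _ : Fin m => T3)
    x (e i)
  rw [Equiv.symm_apply_apply] at h2
  exact h2.symm

/-- The pair integral does not depend on the pair: permute the particles. With
`pairW F S x ^ 2 = ∏ k ∈ S, ∏ l ∈ S.erase k, F (x k - x l)` (as in `Wg_sq`) everything is symmetric. -/
theorem pairI_perm {F : T3 → ℝ} (hF : GasFn lam3 F) {m : ℕ} {H : T3 → ℝ} (hH : BM H)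
    {i j i' j' : Fin m} (hij : i ≠ j) (hij' : i' ≠ j') :
    pairI lam3 F i j H = pairI lam3 F i' j' H := by
  obtain ⟨e, he1, he2⟩ := GD2_exists_perm hij hij'
  have hrest : (rest i j).map e.toEmbedding = rest i' j' := by
    unfold rest
    rw [Finset.map_erase, Finset.map_erase, Finset.map_univ_equiv]
    simp [he1, he2]
  unfold pairI
  have h1 := GD2_integral_perm e (fun x : Fin m → T3 => H (x i - x j) *
    (oneB F (rest i j) x (x i) * oneB F (rest i j) x (x j)) * pairW F (rest i j) x)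
  refine h1.symm.trans ?_
  congr 1
  funext x
  have h2 : ∀ y, oneB F (rest i j) (fun k => x (e k)) y = oneB F (rest i' j') x y := by
    intro y
    unfold oneB
    rw [← hrest, Finset.prod_map]
    rfl
  rw [h2, h2, GA_pairW_perm hF, hrest]
  simp only [he1, he2]

end Pool.Agent.Lib.MP_4952d6_mp

end

/-! ### U.GD3 -/

section

set_option autoImplicit false
set_option linter.unusedSectionVars false
set_option linter.unusedVariables false
open MeasureTheory Function Filter Topology Set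

namespace Pool.Agent.Lib.MP_4952d6_mp


/-! # GD3 (consequences): recursion in the number of particles, pair functions

`piN (Fin (n+1))` is the image of `lam3 × piN (Fin n)` under `Fin.cons` (`measurePreserving_piFinSuccAbove` at `0`). With
`Wg_cons`: `Z_{n+1} = ∫∫ Wg x Ag x y = Z_n ⟨A(y)⟩ = Z_n r_n` and
`Wg (cons y (cons z x)) = Wg x * Ag x z * (F (y - z) * Ag x y)`, so for `Z_n ≠ 0`
`∫ H (x 0 - x 1) (weight without the factor F (x 0 - x 1)) = Z_n ∫∫ H (y - z) ⟨A(y) A(z)⟩ = Z_n ∫ H M_n`. -/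

theorem yy_bm {F : T3 → ℝ} (hF : GasFn lam3 F) (n : ℕ) : BM (yy F n) := by
  have h := (Mg_bm hF n).const_mul (Zg F n / Zg F (n + 2))
  have e : yy F n = fun z => Zg F n / Zg F (n + 2) * Mg F n z := by
    funext z
    unfold yy
    ring
  rw [e]
  exact h

theorem yy_nonneg {F : T3 → ℝ} (hF : GasFn lam3 F) (n : ℕ) (z : T3) : 0 ≤ yy F n z := by
  unfold yy
  exact div_nonneg (mul_nonneg (Mg_nonneg hF n z) (Zg_nonneg hF n)) (Zg_nonneg hF (n + 2))

theorem yy_even {F : T3 → ℝ} (hF : GasFn lam3 F) (n : ℕ) (z : T3) : yy F n (-z) = yy F n z := by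
  unfold yy
  rw [Mg_even hF]

/-- The cavity function is maximal at contact. -/
theorem yy_le {F : T3 → ℝ} (hF : GasFn lam3 F) (n : ℕ) (z : T3) : yy F n z ≤ yy F n 0 := by
  unfold yy
  exact div_le_div_of_nonneg_right (mul_le_mul_of_nonneg_right (Mg_le hF n z) (Zg_nonneg hF n))
    (Zg_nonneg hF (n + 2))

theorem GD3_pair_pot {ι : Type*} [Fintype ι] [LinearOrder ι] {F : T3 → ℝ} (h : GasFn lam3 F)
    {i j : ι} (hij : i ≠ j) (q : T3 → ℝ) :
    ∫ x, q (x i - x j) * pairW F Finset.univ x ∂(piN ι)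
      = pairI lam3 F i j (fun y => q y * F y) := by
  unfold pairI
  refine integral_congr_ae (Filter.Eventually.of_forall fun x => ?_)
  simp only
  rw [pairW_univ h hij]
  ring

/-- Unnormalised pair integral without the factor `F`: the form needed for the energy. -/
theorem pairI_yy {F : T3 → ℝ} (hF : GasFn lam3 F) (n : ℕ) (hZ : 0 < Zg F (n + 2)) {H : T3 → ℝ}
    (hH : BM H) (i j : Fin (n + 2)) (hij : i ≠ j) :
    pairI lam3 F i j H = Zg F (n + 2) * ∫ z, H z * yy F n z ∂lam3 := by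
  have h01 : (0 : Fin (n + 2)) ≠ 1 := by
    intro h
    have := congrArg Fin.val h
    simp at this
  have hn : 0 < Zg F n := Zg_pos_of_le hF (by omega) hZ
  rw [pairI_perm hF hH hij h01, pairI_zero_one hF hn hH]
  have e : ∀ z, H z * yy F n z = Zg F n / Zg F (n + 2) * (H z * Mg F n z) := by
    intro z
    unfold yy
    ring
  simp only [e]
  rw [integral_const_mul]
  field_simp

/-- Pair expectation (`pairW_univ`: `Wg = F (x i - x j) * (weight of the pair integral)`). -/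
theorem pair_pp {F : T3 → ℝ} (hF : GasFn lam3 F) (n : ℕ) (hZ : 0 < Zg F (n + 2)) {H : T3 → ℝ}
    (hH : BM H) (i j : Fin (n + 2)) (hij : i ≠ j) :
    Eg F (n + 2) (fun x => H (x i - x j)) = ∫ z, H z * pp F n z ∂lam3 := by
  unfold Eg Wg
  rw [GD3_pair_pot hF hij H, pairI_yy hF n hZ (hH.mul hF.bm) i j hij, mul_div_assoc, mul_comm,
    div_mul_cancel₀ _ hZ.ne']
  refine integral_congr_ae (Filter.Eventually.of_forall fun z => ?_)
  simp only
  unfold pp
  ring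

theorem pp_int {F : T3 → ℝ} (hF : GasFn lam3 F) (n : ℕ) (hZ : 0 < Zg F (n + 2)) :
    ∫ z, pp F n z ∂lam3 = 1 := by
  have h01 : (0 : Fin (n + 2)) ≠ 1 := by
    intro h
    have := congrArg Fin.val h
    simp at this
  have h := pair_pp hF n hZ (BM.const (1 : ℝ)) 0 1 h01
  rw [Eg_const hZ.ne'] at h
  simp only [one_mul] at h
  exact h.symm

theorem pp_bm {F : T3 → ℝ} (hF : GasFn lam3 F) (n : ℕ) : BM (pp F n) :=
  hF.bm.mul (yy_bm hF n)

theorem pp_nonneg {F : T3 → ℝ} (hF : GasFn lam3 F) (n : ℕ) (z : T3) : 0 ≤ pp F n z :=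
  mul_nonneg (hF.nonneg z) (yy_nonneg hF n z)

theorem pp_even {F : T3 → ℝ} (hF : GasFn lam3 F) (n : ℕ) (z : T3) : pp F n (-z) = pp F n z := by
  unfold pp
  rw [hF.even, yy_even hF]

/-- Product of two one particle functions: average over translations and `pair_pp` for
`H z = ∫ s, g (z + s) h s`. -/
theorem pair_prod_le {F : T3 → ℝ} (hF : GasFn lam3 F) (n : ℕ) (hZ : 0 < Zg F (n + 2))
    {g h : T3 → ℝ} (hg : BM g) (hh : BM h) (hg0 : ∀ z, 0 ≤ g z) (hh0 : ∀ z, 0 ≤ h z) {B : ℝ}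
    (hB : ∀ z, pp F n z ≤ B) (i j : Fin (n + 2)) (hij : i ≠ j) :
    Eg F (n + 2) (fun x => g (x i) * h (x j)) ≤ B * ((∫ z, g z ∂lam3) * ∫ z, h z ∂lam3) := by
  have bΦ : BM (fun x : Fin (n + 2) → T3 => g (x i) * h (x j)) :=
    (hg.comp (measurable_pi_apply i)).mul (hh.comp (measurable_pi_apply j))
  have madd : Measurable (fun p : T3 × T3 => p.1 + p.2) := measurable_fst.add measurable_snd
  have bG : BM (uncurry fun z s : T3 => g (z + s) * h s) :=
    (hg.comp madd).mul (hh.comp measurable_snd)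
  have bH : BM (fun z : T3 => ∫ s, g (z + s) * h s ∂lam3) := BM.integral_right bG lam3
  rw [Eg_avg hF bΦ]
  have e1 : (fun x : Fin (n + 2) → T3 => ∫ s, g (x i + s) * h (x j + s) ∂lam3)
      = fun x => (fun z => ∫ s, g (z + s) * h s ∂lam3) (x i - x j) := by
    funext x
    simp only
    have h1 := integral_shift (μ := lam3) (fun s => g (x i + s) * h (x j + s)) (x j)
    rw [← h1]
    refine integral_congr_ae (Filter.Eventually.of_forall fun s => ?_)
    simp only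
    have e2 : x i + (s - x j) = x i - x j + s := by abel
    have e3 : x j + (s - x j) = s := by abel
    rw [e2, e3]
  rw [e1, pair_pp hF n hZ bH i j hij]
  have h2 : ∫ z, (∫ s, g (z + s) * h s ∂lam3) * pp F n z ∂lam3
      ≤ ∫ z, (∫ s, g (z + s) * h s ∂lam3) * B ∂lam3 := by
    refine integral_mono ((bH.mul (pp_bm hF n)).integrable _) ((bH.mul (BM.const B)).integrable _)
      fun z => ?_
    exact mul_le_mul_of_nonneg_left (hB z) (integral_nonneg fun s => mul_nonneg (hg0 _) (hh0 _))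
  refine h2.trans (le_of_eq ?_)
  rw [integral_mul_const]
  have h3 : ∫ z, ∫ s, g (z + s) * h s ∂lam3 ∂lam3 = (∫ z, g z ∂lam3) * ∫ z, h z ∂lam3 := by
    rw [integral_integral_swap (bG.integrable _)]
    have e4 : ∀ s, ∫ z, g (z + s) * h s ∂lam3 = (∫ z, g z ∂lam3) * h s := by
      intro s
      rw [integral_mul_const]
      have h5 := integral_shift (μ := lam3) g (-s)
      simp only [sub_neg_eq_add] at h5
      rw [h5]
    simp only [e4]
    rw [integral_const_mul]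
  rw [h3]
  ring

end Pool.Agent.Lib.MP_4952d6_mp

end

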