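import Pool.Agent.Lib.MP_4952d6_mp.Pk.G04
import Pool.Agent.Lib.MP_4952d6_mp.Pk.G14
import Pool.Agent.Lib.MP_4952d6_mp.Pk.G15

/-! Merged modules (to save import time): Bridge, U.GE1, U.GJ, U.GE2, U.GF, U.GH1, U.GH2, U.GH3, U.GO1. -/

/-! ### Bridge -/

section

set_option autoImplicit false
set_option linter.unusedSectionVars false
set_option linter.unusedVariables false
open MeasureTheory Function Filter Topology Set ComplexConjugate AddCircle
open scoped ENNReal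

namespace Pool.Agent.Lib.MP_4952d6_mp

/-- Representative in `[0,1)`. -/
noncomputable def rep (y : UnitAddCircle) : ℝ := (AddCircle.equivIco (1:ℝ) 0 y : ℝ)

lemma rep_mem (y : UnitAddCircle) : rep y ∈ Ico (0:ℝ) 1 := by
  obtain ⟨h1, h2⟩ := (AddCircle.equivIco (1:ℝ) 0 y).2
  exact ⟨h1, h2.trans_le (by norm_num)⟩

lemma coe_rep (y : UnitAddCircle) : ((rep y : ℝ) : UnitAddCircle) = y :=
  AddCircle.coe_equivIco (p := (1:ℝ)) (a := 0)

lemma rep_coe {t : ℝ} (ht : t ∈ Ico (0:ℝ) 1) : rep (t : UnitAddCircle) = t := by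
  have ht' : t ∈ Ico (0:ℝ) (0 + 1) := by rwa [zero_add]
  exact AddCircle.equivIco_coe_of_mem (p := (1:ℝ)) ht'

lemma rep_measurable : Measurable rep :=
  measurable_subtype_coe.comp (AddCircle.measurableEquivIco (1:ℝ) 0).measurable

lemma mp_mk : MeasurePreserving (fun t : ℝ => (t : UnitAddCircle)) (volume.restrict (Ico 0 1))
    haarAddCircle := by
  have h := AddCircle.measurePreserving_mk (1:ℝ) 0
  have e : (volume : Measure (AddCircle (1:ℝ))) = haarAddCircle := by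
    rw [AddCircle.volume_eq_smul_haarAddCircle]; simp
  rw [e, zero_add] at h
  rw [Measure.restrict_congr_set (Ico_ae_eq_Ioc (μ := volume) (a := (0:ℝ)) (b := 1))]
  exact h

lemma mp_rep : MeasurePreserving rep haarAddCircle (volume.restrict (Ico 0 1)) := by
  refine ⟨rep_measurable, ?_⟩
  rw [← mp_mk.map_eq, Measure.map_map rep_measurable mp_mk.measurable]
  have : (rep ∘ fun t : ℝ => (t : UnitAddCircle)) =ᵐ[volume.restrict (Ico 0 1)] id := by
    filter_upwards [ae_restrict_mem measurableSet_Ico] with t ht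
    exact rep_coe ht
  rw [Measure.map_congr this, Measure.map_id]

section maps
variable {N : ℕ} {L : ℝ}

lemma box_eq (N : ℕ) (L : ℝ) : box N L
    = Set.pi univ (fun _ : Fin N => Set.pi univ (fun _ : Fin 3 => Ico (0:ℝ) L)) := by
  ext x
  simp [box, Set.mem_pi]

lemma measurableSet_box (N : ℕ) (L : ℝ) : MeasurableSet (box N L) := by
  rw [box_eq]
  exact MeasurableSet.univ_pi fun _ => MeasurableSet.univ_pi fun _ => measurableSet_Ico

lemma vol_box (N : ℕ) (L : ℝ) : (volume : Measure (Fin N → Fin 3 → ℝ)).restrict (box N L)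
    = Measure.pi fun _ => Measure.pi fun _ => volume.restrict (Ico (0:ℝ) L) := by
  rw [box_eq]
  have h1 : (volume : Measure (Fin N → Fin 3 → ℝ)) = Measure.pi fun _ => volume := rfl
  rw [h1, Measure.restrict_pi_pi]
  congr 1
  funext i
  have h2 : (volume : Measure (Fin 3 → ℝ)) = Measure.pi fun _ => volume := rfl
  rw [h2, Measure.restrict_pi_pi]

/-- Configurations in the box to the torus. -/
noncomputable def toT (N : ℕ) (L : ℝ) (x : Fin N → Fin 3 → ℝ) : Fin N → T3 :=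
  fun i α => ((x i α / L : ℝ) : UnitAddCircle)

/-- Configurations on the torus to the box. -/
noncomputable def toB (N : ℕ) (L : ℝ) (y : Fin N → T3) : Fin N → Fin 3 → ℝ :=
  fun i α => L * rep (y i α)

lemma toT_toB (hL : 0 < L) (y : Fin N → T3) : toT N L (toB N L y) = y := by
  funext i α
  simp only [toT, toB]
  rw [mul_div_cancel_left₀ _ hL.ne', coe_rep]

lemma toB_mem (hL : 0 < L) (y : Fin N → T3) : toB N L y ∈ box N L := by
  intro i α
  have h := rep_mem (y i α)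
  simp only [toB]
  exact ⟨mul_nonneg hL.le h.1, by nlinarith [h.2]⟩

lemma toB_toT (hL : 0 < L) {x : Fin N → Fin 3 → ℝ} (hx : x ∈ box N L) :
    toB N L (toT N L x) = x := by
  funext i α
  simp only [toT, toB]
  rw [rep_coe ⟨div_nonneg (hx i α).1 hL.le, (div_lt_one hL).2 (hx i α).2⟩]
  field_simp

/-- Normalised Lebesgue measure on the box. -/
noncomputable def PB (N : ℕ) (L : ℝ) : Measure (Fin N → Fin 3 → ℝ) :=
  ENNReal.ofReal ((L ^ (3 * N))⁻¹) • volume.restrict (box N L)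

lemma mp_smul (hL : 0 < L) : MeasurePreserving (fun x : Fin N → Fin 3 → ℝ => L • x)
    (volume.restrict (box N 1)) (PB N L) := by
  have h1 : MeasurePreserving (fun x : Fin N → Fin 3 → ℝ => L • x) volume
      (ENNReal.ofReal ((L ^ (3 * N))⁻¹) • volume) := by
    refine ⟨measurable_const_smul L, ?_⟩
    rw [Measure.map_addHaar_smul _ hL.ne']
    congr 2
    have : Module.finrank ℝ (Fin N → Fin 3 → ℝ) = 3 * N := by
      simp [Module.finrank_pi_fintype, mul_comm]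
    rw [this, abs_of_pos (by positivity)]
  have h2 := h1.restrict_preimage (measurableSet_box N L)
  rw [Measure.restrict_smul] at h2
  have e : (fun x : Fin N → Fin 3 → ℝ => L • x) ⁻¹' box N L = box N 1 := by
    ext x
    simp only [box, mem_preimage, Set.mem_ofPred_eq, Pi.smul_apply, smul_eq_mul]
    refine forall_congr' fun i => forall_congr' fun α => ?_
    constructor
    · rintro ⟨h3, h4⟩
      exact ⟨nonneg_of_mul_nonneg_right h3 hL, by nlinarith⟩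
    · rintro ⟨h3, h4⟩
      exact ⟨by positivity, by nlinarith⟩
  rw [e] at h2
  exact h2

lemma mp_toT1 : MeasurePreserving (toT N 1) (volume.restrict (box N 1)) (piN (Fin N)) := by
  rw [vol_box]
  have h1 : MeasurePreserving (fun (x : Fin 3 → ℝ) (α : Fin 3) => ((x α : ℝ) : UnitAddCircle))
      (Measure.pi fun _ => volume.restrict (Ico (0:ℝ) 1)) lam3 :=
    measurePreserving_pi _ _ (fun _ => mp_mk)
  have h2 := measurePreserving_pi (ι := Fin N) (fun _ => Measure.pi fun _ : Fin 3 =>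
    (volume : Measure ℝ).restrict (Ico (0:ℝ) 1)) (fun _ => lam3) (fun _ => h1)
  have e : toT N 1 = fun (x : Fin N → Fin 3 → ℝ) i α => ((x i α : ℝ) : UnitAddCircle) := by
    funext x i α
    simp [toT]
  rw [e]
  exact h2

lemma mp_toB1 : MeasurePreserving (toB N 1) (piN (Fin N)) (volume.restrict (box N 1)) := by
  rw [vol_box]
  have h1 : MeasurePreserving (fun (x : T3) (α : Fin 3) => rep (x α)) lam3
      (Measure.pi fun _ => volume.restrict (Ico (0:ℝ) 1)) :=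
    measurePreserving_pi _ _ (fun _ => mp_rep)
  have h2 := measurePreserving_pi (ι := Fin N) (fun _ => lam3) (fun _ => Measure.pi fun _ : Fin 3 =>
    (volume : Measure ℝ).restrict (Ico (0:ℝ) 1)) (fun _ => h1)
  have e : toB N 1 = fun (x : Fin N → T3) i α => rep (x i α) := by
    funext x i α
    simp [toB]
  rw [e]
  exact h2

lemma toB_smul (y : Fin N → T3) : toB N L y = L • toB N 1 y := by
  funext i α
  simp [toB]

lemma mp_toB (hL : 0 < L) : MeasurePreserving (toB N L) (piN (Fin N)) (PB N L) := by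
  have h := (mp_smul (N := N) hL).comp (mp_toB1 (N := N))
  convert h using 1
  funext y
  exact toB_smul y

lemma toT_measurable : Measurable (toT N L) := by
  refine measurable_pi_lambda _ fun i => measurable_pi_lambda _ fun α => ?_
  refine (AddCircle.continuous_mk' (1:ℝ)).measurable.comp ?_
  have h : Measurable fun x : Fin N → Fin 3 → ℝ => x i α :=
    (measurable_pi_apply α).comp (measurable_pi_apply i)
  exact h.div_const L

lemma mp_toT (hL : 0 < L) : MeasurePreserving (toT N L) (PB N L) (piN (Fin N)) := by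
  refine ⟨toT_measurable, ?_⟩
  rw [← (mp_toB hL).map_eq, Measure.map_map toT_measurable (mp_toB hL).measurable]
  have : toT N L ∘ toB N L = id := funext fun y => toT_toB hL y
  rw [this, Measure.map_id]

lemma PB_eq (N : ℕ) (L : ℝ) : PB N L
    = ENNReal.ofReal ((L ^ (3 * N))⁻¹) • volume.restrict (box N L) := rfl

lemma restrict_eq (hL : 0 < L) : (volume : Measure (Fin N → Fin 3 → ℝ)).restrict (box N L)
    = ENNReal.ofReal (L ^ (3 * N)) • PB N L := by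
  rw [PB, smul_smul, ← ENNReal.ofReal_mul (by positivity), mul_inv_cancel₀ (by positivity),
    ENNReal.ofReal_one, one_smul]

lemma setIntegral_box (hL : 0 < L) {E : Type*} [NormedAddCommGroup E] [NormedSpace ℝ E]
    {F : (Fin N → Fin 3 → ℝ) → E} (hF : AEStronglyMeasurable F (PB N L)) :
    ∫ x in box N L, F x = (L ^ (3 * N)) • ∫ y, F (toB N L y) ∂(piN (Fin N)) := by
  rw [restrict_eq hL, integral_smul_measure, ENNReal.toReal_ofReal (by positivity)]
  congr 1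
  have h := mp_toB (N := N) hL
  rw [← h.map_eq] at hF ⊢
  rw [integral_map h.measurable.aemeasurable hF]

lemma setLIntegral_box (hL : 0 < L) {F : (Fin N → Fin 3 → ℝ) → ℝ≥0∞}
    (hF : AEMeasurable F (PB N L)) :
    ∫⁻ x in box N L, F x = ENNReal.ofReal (L ^ (3 * N)) * ∫⁻ y, F (toB N L y) ∂(piN (Fin N)) := by
  rw [restrict_eq hL, lintegral_smul_measure, smul_eq_mul]
  congr 1
  have h := mp_toB (N := N) hL
  rw [← h.map_eq] at hF ⊢
  rw [lintegral_map' hF h.measurable.aemeasurable]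

lemma box_ac (hL : 0 < L) : (volume : Measure (Fin N → Fin 3 → ℝ)).restrict (box N L) ≪ PB N L := by
  rw [restrict_eq hL]
  exact Measure.smul_absolutelyContinuous

lemma PB_ac (N : ℕ) (L : ℝ) : PB N L ≪ (volume : Measure (Fin N → Fin 3 → ℝ)).restrict (box N L) :=
  Measure.smul_absolutelyContinuous

end maps

end Pool.Agent.Lib.MP_4952d6_mp

end

/-! ### U.GE1 -/

section

set_option autoImplicit false
set_option linter.unusedSectionVars false
set_option linter.unusedVariables false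
open MeasureTheory Function Filter Topology Set ComplexConjugate

namespace Pool.Agent.Lib.MP_4952d6_mp


/-! # GE1: structure factor and Fourier series

`|ρ_p|² = n + ∑_{i≠j} Re ch p (x i - x j)` (the sum over ordered pairs of the imaginary parts vanishes),
so `S_{n+2}(p) = 1 + (n+1) ∫ Re ch p · pp` (`pair_pp`). -/

private theorem GE1_ch0 (p : Fin 3 → ℤ) : ch p (0 : T3) = 1 := by
  simp [ch, UnitAddTorus.mFourier]

private theorem GE1_re_bm (p : Fin 3 → ℤ) : BM (fun z : T3 => (ch p z).re) :=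
  ⟨(Complex.continuous_re.comp (ch_continuous p)).measurable, 1, fun z => ch_re_le p z⟩

private theorem GE1_pair_bm (p : Fin 3 → ℤ) {n : ℕ} (i j : Fin n) :
    BM (fun x : Fin n → T3 => (ch p (x i - x j)).re) :=
  (GE1_re_bm p).comp (measurable_sub' (measurable_pi_apply i) (measurable_pi_apply j))

theorem rhoN_sq (p : Fin 3 → ℤ) {n : ℕ} (x : Fin n → T3) :
    ‖rhoN p x‖ ^ 2 = n + ∑ i, ∑ j ∈ Finset.univ.erase i, (ch p (x i - x j)).re := by
  have h1 : rhoN p x * conj (rhoN p x) = ∑ i, ∑ j, ch p (x i - x j) := by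
    unfold rhoN
    rw [map_sum, Finset.sum_mul_sum]
    refine Finset.sum_congr rfl fun i _ => Finset.sum_congr rfl fun j _ => ?_
    rw [sub_eq_add_neg, ch_add_arg, ch_neg_arg]
  rw [Complex.mul_conj, Complex.normSq_eq_norm_sq] at h1
  have h2 := congrArg Complex.re h1
  rw [Complex.ofReal_re, Complex.re_sum] at h2
  rw [h2]
  have h3 : ∀ i : Fin n, (∑ j, ch p (x i - x j)).re =
      1 + ∑ j ∈ Finset.univ.erase i, (ch p (x i - x j)).re := by
    intro i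
    rw [Complex.re_sum, ← Finset.add_sum_erase Finset.univ _ (Finset.mem_univ i), sub_self,
      GE1_ch0, Complex.one_re]
  rw [Finset.sum_congr rfl fun i _ => h3 i, Finset.sum_add_distrib, Finset.sum_const,
    Finset.card_univ, Fintype.card_fin, nsmul_eq_mul, mul_one]

theorem rhoN_zero {n : ℕ} (x : Fin n → T3) : rhoN 0 x = n := by
  unfold rhoN
  simp [ch_zero]

theorem rhoN_sq_bm (p : Fin 3 → ℤ) (n : ℕ) : BM (fun x : Fin n → T3 => ‖rhoN p x‖ ^ 2) := by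
  simp only [rhoN_sq]
  exact (BM.const (n : ℝ)).add (BM.finset_sum _ fun i _ => BM.finset_sum _ fun j _ =>
    GE1_pair_bm p i j)

theorem rhoN_sq_le (p : Fin 3 → ℤ) {n : ℕ} (x : Fin n → T3) : ‖rhoN p x‖ ^ 2 ≤ n ^ 2 := by
  have h1 : ‖rhoN p x‖ ≤ n := by
    unfold rhoN
    refine (norm_sum_le _ _).trans (le_of_eq ?_)
    simp [ch_norm]
  exact pow_le_pow_left₀ (norm_nonneg _) h1 2

theorem Sg_nonneg {F : T3 → ℝ} (hF : GasFn lam3 F) (n : ℕ) (p : Fin 3 → ℤ) : 0 ≤ Sg F n p :=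
  div_nonneg (Eg_nonneg hF fun x => by positivity) (Nat.cast_nonneg n)

theorem Sg_le {F : T3 → ℝ} (hF : GasFn lam3 F) (n : ℕ) (p : Fin 3 → ℤ) : Sg F n p ≤ n := by
  have h1 : Eg F n (fun x => ‖rhoN p x‖ ^ 2) ≤ (n : ℝ) ^ 2 := by
    by_cases hZ : Zg F n = 0
    · unfold Eg
      rw [hZ, div_zero]
      positivity
    · have h2 := Eg_mono hF (rhoN_sq_bm p n) (BM.const ((n : ℝ) ^ 2)) (fun x => rhoN_sq_le p x)
      rwa [Eg_const hZ] at h2
  unfold Sg
  rcases Nat.eq_zero_or_pos n with hn | hn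
  · subst hn
    simp
  · have hn' : (0 : ℝ) < n := by exact_mod_cast hn
    rw [div_le_iff₀ hn']
    nlinarith

theorem Sg_zero {F : T3 → ℝ} {n : ℕ} (hn : 1 ≤ n) (hZ : Zg F n ≠ 0) : Sg F n 0 = n := by
  have hn' : (n : ℝ) ≠ 0 := by
    have : n ≠ 0 := by omega
    exact_mod_cast this
  have h1 : (fun x : Fin n → T3 => ‖rhoN 0 x‖ ^ 2) = fun _ => (n : ℝ) ^ 2 := by
    funext x
    rw [rhoN_zero, Complex.norm_natCast]
  unfold Sg
  rw [h1, Eg_const hZ]
  field_simp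

theorem Sg_one (F : T3 → ℝ) (p : Fin 3 → ℤ) : Sg F 1 p = 1 := by
  have hW : ∀ x : Fin 1 → T3, Wg F x = 1 := by
    intro x
    unfold Wg pairW
    refine Finset.prod_eq_one fun k _ => Finset.prod_eq_one fun l hl => ?_
    have h1 := (Finset.mem_filter.1 hl).2
    exact absurd h1 (by rw [Subsingleton.elim l k]; exact lt_irrefl k)
  have hZ : Zg F 1 = 1 := by
    unfold Zg
    simp only [hW]
    simp
  have h1 : (fun x : Fin 1 → T3 => ‖rhoN p x‖ ^ 2) = fun _ => (1 : ℝ) := by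
    funext x
    unfold rhoN
    simp [ch_norm]
  unfold Sg
  rw [h1, Eg_const (by rw [hZ]; exact one_ne_zero)]
  simp

theorem n_mul_Sg {F : T3 → ℝ} (hF : GasFn lam3 F) (n : ℕ) (p : Fin 3 → ℤ) :
    n * Sg F n p = Eg F n (fun x => ‖rhoN p x‖ ^ 2) := by
  unfold Sg
  rcases Nat.eq_zero_or_pos n with hn | hn
  · subst hn
    have h1 : (fun x : Fin 0 → T3 => ‖rhoN p x‖ ^ 2) = fun _ => (0 : ℝ) := by
      funext x
      unfold rhoN
      simp
    rw [h1]
    unfold Eg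
    simp
  · have hn' : (n : ℝ) ≠ 0 := by
      have : n ≠ 0 := by omega
      exact_mod_cast this
    field_simp

theorem Sg_eq {F : T3 → ℝ} (hF : GasFn lam3 F) {n : ℕ} (hZ : 0 < Zg F (n + 2)) (p : Fin 3 → ℤ) :
    Sg F (n + 2) p = 1 + (n + 1) * ∫ z, (ch p z).re * pp F n z ∂lam3 := by
  have h1 : Eg F (n + 2) (fun x => ‖rhoN p x‖ ^ 2) =
      (n + 2) + (n + 2) * ((n + 1) * ∫ z, (ch p z).re * pp F n z ∂lam3) := by
    simp only [rhoN_sq]
    rw [Eg_add hF (BM.const _) (BM.finset_sum _ fun i _ => BM.finset_sum _ fun j _ =>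
      GE1_pair_bm p i j), Eg_const hZ.ne',
      Eg_sum hF Finset.univ (fun i _ => BM.finset_sum _ fun j _ => GE1_pair_bm p i j)]
    have h2 : ∀ i : Fin (n + 2), Eg F (n + 2)
        (fun x => ∑ j ∈ Finset.univ.erase i, (ch p (x i - x j)).re) =
        (n + 1) * ∫ z, (ch p z).re * pp F n z ∂lam3 := by
      intro i
      rw [Eg_sum hF (Finset.univ.erase i) (fun j _ => GE1_pair_bm p i j)]
      have h3 : ∀ j ∈ Finset.univ.erase i, Eg F (n + 2) (fun x => (ch p (x i - x j)).re) =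
          ∫ z, (ch p z).re * pp F n z ∂lam3 := fun j hj =>
        pair_pp hF n hZ (GE1_re_bm p) i j (Finset.ne_of_mem_erase hj).symm
      rw [Finset.sum_congr rfl h3, Finset.sum_const, Finset.card_erase_of_mem (Finset.mem_univ i),
        Finset.card_univ, Fintype.card_fin, nsmul_eq_mul]
      push_cast
      simp
    rw [Finset.sum_congr rfl fun i _ => h2 i, Finset.sum_const, Finset.card_univ,
      Fintype.card_fin, nsmul_eq_mul]
    push_cast
    ring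
  unfold Sg
  rw [h1]
  have h4 : ((n : ℝ) + 2) ≠ 0 := by positivity
  push_cast
  field_simp

/-- Fourier series against the pair density. -/
theorem pp_fourier {F : T3 → ℝ} (hF : GasFn lam3 F) (n : ℕ) (hZ : 0 < Zg F (n + 2))
    {w : T3 → ℝ} {wh : (Fin 3 → ℤ) → ℝ} (hs : Summable wh) (he : ∀ p, wh (-p) = wh p)
    (hw : ∀ x, HasSum (fun p => (wh p : ℂ) * ch p x) (w x : ℂ)) :
    Summable (fun p => if p = 0 then 0 else wh p * (Sg F (n + 2) p - 1) / (n + 1)) ∧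
    ∫ z, w z * pp F n z ∂lam3
      = wh 0 + tsum0 (fun p => wh p * (Sg F (n + 2) p - 1) / (n + 1)) := by
  have hn1 : ((n : ℝ) + 1) ≠ 0 := by positivity
  have hbm := pp_bm hF n
  obtain ⟨B, hB0, hB⟩ := hbm.exists_nonneg_bound
  -- real series
  have hre : ∀ z, HasSum (fun p => wh p * (ch p z).re) (w z) := by
    intro z
    have h1 := Complex.hasSum_re (hw z)
    rw [Complex.ofReal_re] at h1
    refine h1.congr_fun ?_
    intro p
    rw [Complex.re_ofReal_mul]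
  have hre' : ∀ z, HasSum (fun p => wh p * (ch p z).re * pp F n z) (w z * pp F n z) := fun z =>
    (hre z).mul_right _
  have hint : ∀ p, Integrable (fun z => wh p * (ch p z).re * pp F n z) lam3 := fun p =>
    (((GE1_re_bm p).const_mul (wh p)).mul hbm).integrable lam3
  have hbd : ∀ p, ∫ z, ‖wh p * (ch p z).re * pp F n z‖ ∂lam3 ≤ |wh p| * B := by
    intro p
    have h1 : ∀ z, ‖wh p * (ch p z).re * pp F n z‖ ≤ |wh p| * B := by
      intro z
      rw [norm_mul, norm_mul, Real.norm_eq_abs, Real.norm_eq_abs, Real.norm_eq_abs]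
      have h2 := ch_re_le p z
      have h3 := hB z
      calc |wh p| * |(ch p z).re| * |pp F n z| ≤ |wh p| * 1 * B := by gcongr
        _ = |wh p| * B := by ring
    have h4 := integral_mono (μ := lam3) (hint p).norm (integrable_const (|wh p| * B)) h1
    simpa using h4
  have hsum : Summable fun p => ∫ z, ‖wh p * (ch p z).re * pp F n z‖ ∂lam3 :=
    Summable.of_nonneg_of_le (fun p => integral_nonneg fun z => norm_nonneg _) hbd
      (hs.abs.mul_right B)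
  have hmain := hasSum_integral_of_summable_integral_norm hint hsum
  have hw' : ∫ z, (∑' p, wh p * (ch p z).re * pp F n z) ∂lam3 = ∫ z, w z * pp F n z ∂lam3 :=
    integral_congr_ae (Eventually.of_forall fun z => (hre' z).tsum_eq)
  rw [hw'] at hmain
  have hterm : ∀ p, p ≠ 0 → ∫ z, wh p * (ch p z).re * pp F n z ∂lam3 =
      wh p * (Sg F (n + 2) p - 1) / (n + 1) := by
    intro p _
    have h1 : ∫ z, wh p * (ch p z).re * pp F n z ∂lam3 =
        wh p * ∫ z, (ch p z).re * pp F n z ∂lam3 := by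
      rw [← integral_const_mul]
      exact integral_congr_ae (Eventually.of_forall fun z => by ring)
    rw [h1, Sg_eq hF hZ p]
    field_simp
    ring
  have hterm0 : ∫ z, wh 0 * (ch 0 z).re * pp F n z ∂lam3 = wh 0 := by
    simp only [ch_zero, Complex.one_re, mul_one]
    rw [integral_const_mul, pp_int hF n hZ, mul_one]
  have hsm : sm0 (fun p => ∫ z, wh p * (ch p z).re * pp F n z ∂lam3) :=
    sm0_of_summable hmain.summable
  refine ⟨sm0_congr hterm hsm, ?_⟩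
  rw [← hmain.tsum_eq, tsum_eq_tsum0 hmain.summable, hterm0, tsum0_congr hterm]

end Pool.Agent.Lib.MP_4952d6_mp

end

/-! ### U.GJ -/

section

set_option autoImplicit false
set_option linter.unusedSectionVars false
set_option linter.unusedVariables false
open MeasureTheory Function Filter Topology Set ComplexConjugate

namespace Pool.Agent.Lib.MP_4952d6_mp

/-! # GJ: weak derivatives of the weight

`WD μ τ Φ Φ'`: `Φ` is bounded, strongly measurable, Lipschitz in the direction `τ` and has the directional derivative `Φ'` a.e.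
(WeakDeriv.lean: `WD.add`, `WD.mul`, `WD.finset_sum`, `WD.finset_prod`, `WD.comp`, `WD.of_invariant`, `WD.ofReal`, `WD.congr`,
`WD.character`). Model for the weight: `jas_WD` in Jastrow.lean. -/

/-- Chain rule on an open convex set containing the range. -/
theorem GJ_chain_conv {X : Type*} [MeasurableSpace X] [AddCommGroup X] {μ : Measure X} {τ : ℝ → X}
    {Φ Φ' : X → ℝ} (h : WD μ τ Φ Φ') {s : Set ℝ} (hs : IsOpen s) (hc : Convex ℝ s)
    (ha : ∀ x, Φ x ∈ s) {φ φ' : ℝ → ℝ}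
    (hd : ∀ y ∈ s, HasDerivAt φ (φ' y) y) {L : ℝ} (hL : ∀ y ∈ s, |φ' y| ≤ L)
    (hb : ∃ C, ∀ x, |φ (Φ x)| ≤ C) :
    WD μ τ (fun x => φ (Φ x)) (fun x => φ' (Φ x) * Φ' x) where
  zero := h.zero
  sm := by
    classical
    have h1 : Measurable (s.piecewise φ (fun _ => (0:ℝ))) := by
      refine ContinuousOn.measurable_piecewise ?_ continuousOn_const hs.measurableSet
      exact fun y hy => (hd y hy).continuousAt.continuousWithinAt
    have h2 : (fun x => φ (Φ x)) = fun x => s.piecewise φ (fun _ => (0:ℝ)) (Φ x) := by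
      ext x
      rw [Set.piecewise_eq_of_mem _ _ _ (ha x)]
    rw [h2]
    exact (h1.comp h.sm.measurable).stronglyMeasurable
  bdd := hb
  lip := by
    obtain ⟨C, hC⟩ := h.lip
    refine ⟨|L| * C, fun x t => ?_⟩
    have h1 := Convex.norm_image_sub_le_of_norm_hasDerivWithin_le (f := φ) (f' := φ') (C := |L|)
      (s := s) (x := Φ x) (y := Φ (x + τ t))
      (fun y hy => (hd y hy).hasDerivWithinAt) (fun y hy => (hL y hy).trans (le_abs_self _)) hc
      (ha _) (ha _)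
    refine h1.trans ?_
    rw [mul_assoc]
    exact mul_le_mul_of_nonneg_left (hC x t) (abs_nonneg _)
  deriv := by
    filter_upwards [h.deriv] with x hx
    have h1 : HasDerivAt φ (φ' (Φ x)) (Φ (x + τ 0)) := by
      rw [h.zero, add_zero]; exact hd _ (ha x)
    exact HasDerivAt.comp (0:ℝ) (h₂ := φ) (h := fun t : ℝ => Φ (x + τ t)) h1 hx

/-- Chain rule. -/
theorem WD_chain {X : Type*} [MeasurableSpace X] [AddCommGroup X] {μ : Measure X} {τ : ℝ → X}
    {Φ Φ' : X → ℝ} (h : WD μ τ Φ Φ') {φ φ' : ℝ → ℝ} (hm : Measurable φ)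
    (hd : ∀ y, HasDerivAt φ (φ' y) y) {L : ℝ} (hL : ∀ y, |φ' y| ≤ L) :
    WD μ τ (fun x => φ (Φ x)) (fun x => φ' (Φ x) * Φ' x) := by
  refine GJ_chain_conv h isOpen_univ convex_univ (fun _ => Set.mem_univ _) (fun y _ => hd y)
    (fun y _ => hL y) ?_
  obtain ⟨C, hC⟩ := h.bdd
  refine ⟨|φ 0| + |L| * C, fun x => ?_⟩
  have h1 := Convex.norm_image_sub_le_of_norm_hasDerivWithin_le (f := φ) (f' := φ') (C := |L|)
      (s := Set.univ) (x := 0) (y := Φ x)
      (fun y hy => (hd y).hasDerivWithinAt) (fun y hy => (hL y).trans (le_abs_self _)) convex_univ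
      (Set.mem_univ _) (Set.mem_univ _)
  rw [sub_zero, Real.norm_eq_abs] at h1
  have h2 : |L| * ‖Φ x‖ ≤ |L| * C := mul_le_mul_of_nonneg_left (hC x) (abs_nonneg _)
  have h3 : |φ (Φ x)| ≤ |φ 0| + |φ (Φ x) - φ 0| := by
    have := abs_add_le (φ 0) (φ (Φ x) - φ 0)
    rwa [add_sub_cancel] at this
  linarith

/-- Chain rule on an interval containing the (bounded) range of `Φ`: `φ` differentiable on an open set `(a, ∞)` containing the
values; apply to `log` and `1/y` for functions bounded below by a positive constant. -/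
theorem WD_chain_Ioi {X : Type*} [MeasurableSpace X] [AddCommGroup X] {μ : Measure X} {τ : ℝ → X}
    {Φ Φ' : X → ℝ} (h : WD μ τ Φ Φ') {a : ℝ} (ha : ∀ x, a < Φ x) {φ φ' : ℝ → ℝ}
    (hd : ∀ y, a < y → HasDerivAt φ (φ' y) y) {L : ℝ} (hL : ∀ y, a < y → |φ' y| ≤ L)
    (hb : ∃ C, ∀ x, |φ (Φ x)| ≤ C) :
    WD μ τ (fun x => φ (Φ x)) (fun x => φ' (Φ x) * Φ' x) := by
  exact GJ_chain_conv h isOpen_Ioi (convex_Ioi a) ha hd hL hb

section
variable {D : Dat} (hD : D.Ok) {δ τ : ℝ}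
include hD

theorem Fr_bounds (hδ : 0 ≤ δ) (hδ1 : δ ≤ 1) (x : T3) : δ ≤ D.Fr δ x ∧ D.Fr δ x ≤ 1 := by
  unfold Dat.Fr
  have h0 := hD.Fc_nonneg x
  have h1 := hD.Fc_le x
  constructor <;> nlinarith

theorem one_sub_Fr (hδ : 0 ≤ δ) (hδ1 : δ ≤ 1) (x : T3) :
    0 ≤ 1 - D.Fr δ x ∧ 1 - D.Fr δ x ≤ 1 - D.Fc x := by
  unfold Dat.Fr
  have h0 := hD.Fc_nonneg x
  have h1 := hD.Fc_le x
  constructor <;> nlinarith

theorem F_gas (hδ : 0 ≤ δ) (hδ1 : δ ≤ 1) (hτ : 0 ≤ τ) : GasFn lam3 (D.F δ τ) := by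
  have hul : Measurable D.ul := (hD.ul_WD 0).sm.measurable
  have hFc : Measurable D.Fc := (hD.Fc_WD 0).sm.measurable
  have hFr : ∀ y, 0 ≤ D.Fr δ y ∧ D.Fr δ y ≤ 1 := fun y =>
    ⟨hδ.trans (Fr_bounds hD hδ hδ1 y).1, (Fr_bounds hD hδ hδ1 y).2⟩
  refine ⟨?_, fun y => ?_, fun y => ?_, fun y => ?_⟩
  · unfold Dat.F Dat.Fr
    exact (measurable_const.add (hFc.const_mul _)).mul (Real.measurable_exp.comp
      (hul.const_mul _).neg)
  · exact mul_nonneg (hFr y).1 (Real.exp_nonneg _)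
  · have h1 : Real.exp (-(2 * τ * D.ul y)) ≤ 1 := by
      rw [Real.exp_le_one_iff]
      have := hD.ul_nonneg y
      have : 0 ≤ 2 * τ * D.ul y := by positivity
      linarith
    exact mul_le_one₀ (hFr y).2 (Real.exp_nonneg _) h1
  · unfold Dat.F Dat.Fr
    rw [hD.Fc_even, hD.ul_even]

theorem ul_bm : BM D.ul := by
  refine ⟨(hD.ul_WD 0).sm.measurable, ?_⟩
  obtain ⟨C, hC⟩ := (hD.ul_WD 0).bdd
  exact ⟨C, hC⟩

theorem dul_bm (α : Fin 3) : BM (D.dul α) := by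
  refine ⟨(hD.dul_WD α 0).sm.measurable, ?_⟩
  obtain ⟨C, hC⟩ := (hD.dul_WD α 0).bdd
  exact ⟨C, hC⟩

theorem Fr_WD (hδ : 0 ≤ δ) (hδ1 : δ ≤ 1) (α : Fin 3) :
    WD lam3 (tau α) (D.Fr δ) (fun x => (1 - δ) * D.dFc α x) := by
  have h1 : WD lam3 (tau α) (fun _ : T3 => δ) (fun _ => 0) :=
    WD.of_invariant (tau_zero α) stronglyMeasurable_const ⟨|δ|, fun _ => le_rfl⟩ fun _ _ => rfl
  have h2 : WD lam3 (tau α) (fun _ : T3 => (1 - δ)) (fun _ => 0) :=
    WD.of_invariant (tau_zero α) stronglyMeasurable_const ⟨|1 - δ|, fun _ => le_rfl⟩ fun _ _ => rfl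
  have h3 := h1.add (h2.mul (hD.Fc_WD α))
  have e : (fun x => (0:ℝ) + (0 * D.Fc x + (1 - δ) * D.dFc α x)) = fun x => (1 - δ) * D.dFc α x := by
    ext x; ring
  rw [e] at h3
  exact h3

/-- `du` is the gradient of `u`, it is bounded, odd, and has the derivatives `ddu`. -/
theorem u_WD (hδ : 0 < δ) (hδ1 : δ ≤ 1) (α : Fin 3) : WD lam3 (tau α) (D.u δ τ) (D.du δ τ α) := by
  have hFr := Fr_WD hD hδ.le hδ1 α
  have hB := Fr_bounds hD hδ.le hδ1
  have h1 := WD_chain_Ioi hFr (a := δ / 2) (fun x => by have := (hB x).1; linarith)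
    (φ := Real.log) (φ' := fun y => y⁻¹) (fun y hy => Real.hasDerivAt_log (by linarith))
    (L := (δ / 2)⁻¹) (fun y hy => by
      rw [abs_inv, abs_of_pos (by linarith)]
      exact inv_anti₀ (by linarith) hy.le)
    ⟨-Real.log δ, fun x => by
      have h2 := Real.log_le_log hδ (hB x).1
      have h3 : Real.log (D.Fr δ x) ≤ 0 := Real.log_nonpos (hδ.le.trans (hB x).1) (hB x).2
      rw [abs_of_nonpos h3]; linarith⟩
  have hc : ∀ c : ℝ, WD lam3 (tau α) (fun _ : T3 => c) (fun _ => 0) := fun c =>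
    WD.of_invariant (tau_zero α) stronglyMeasurable_const ⟨|c|, fun _ => le_rfl⟩ fun _ _ => rfl
  have h4 := ((hc τ).mul (hD.ul_WD α)).add ((hc (-(1/2))).mul h1)
  have e1 : D.u δ τ = fun x => τ * D.ul x + -(1/2) * Real.log (D.Fr δ x) := by
    ext x; unfold Dat.u; ring
  have e2 : D.du δ τ α = fun x => (0 * D.ul x + τ * D.dul α x)
      + (0 * Real.log (D.Fr δ x) + -(1/2) * ((D.Fr δ x)⁻¹ * ((1 - δ) * D.dFc α x))) := by
    ext x; unfold Dat.du; rw [div_eq_mul_inv]; ring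
  rw [e1, e2]
  exact h4

theorem du_WD (hδ : 0 < δ) (hδ1 : δ ≤ 1) (α β : Fin 3) :
    WD lam3 (tau β) (D.du δ τ α) (D.ddu δ τ α β) := by
  have hFr := Fr_WD hD hδ.le hδ1 β
  have hB := Fr_bounds hD hδ.le hδ1
  have h1 := WD_chain_Ioi hFr (a := δ / 2) (fun x => by have := (hB x).1; linarith)
    (φ := fun y => y⁻¹) (φ' := fun y => -(y ^ 2)⁻¹) (fun y hy => hasDerivAt_inv (by linarith))
    (L := ((δ / 2) ^ 2)⁻¹) (fun y hy => by
      rw [abs_neg, abs_inv, abs_of_nonneg (sq_nonneg _)]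
      exact inv_anti₀ (by positivity) (pow_le_pow_left₀ (by linarith) hy.le 2))
    ⟨δ⁻¹, fun x => by
      have h2 := (hB x).1
      rw [abs_inv, abs_of_pos (by linarith)]
      exact inv_anti₀ hδ h2⟩
  have hc : ∀ c : ℝ, WD lam3 (tau β) (fun _ : T3 => c) (fun _ => 0) := fun c =>
    WD.of_invariant (tau_zero β) stronglyMeasurable_const ⟨|c|, fun _ => le_rfl⟩ fun _ _ => rfl
  have h4 := ((hc τ).mul (hD.dul_WD α β)).add ((hc (-(1/2) * (1 - δ))).mul
    ((hD.dFc_WD α β).mul h1))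
  have e1 : D.du δ τ α = fun x => τ * D.dul α x + (-(1/2) * (1 - δ)) *
      (D.dFc α x * (D.Fr δ x)⁻¹) := by
    ext x; unfold Dat.du; rw [div_eq_mul_inv]; ring
  have e2 : D.ddu δ τ α β = fun x => (0 * D.dul α x + τ * D.ddul α β x)
      + (0 * (D.dFc α x * (D.Fr δ x)⁻¹) + (-(1/2) * (1 - δ)) *
        (D.ddFc α β x * (D.Fr δ x)⁻¹ + D.dFc α x * (-((D.Fr δ x) ^ 2)⁻¹ * ((1 - δ) * D.dFc β x)))) := by
    ext x; unfold Dat.ddu Dat.dduc; rw [div_eq_mul_inv, div_eq_mul_inv]; ring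
  rw [e1, e2]
  exact h4

theorem du_odd (δ τ : ℝ) (α : Fin 3) (x : T3) : D.du δ τ α (-x) = - D.du δ τ α x := by
  unfold Dat.du Dat.Fr
  rw [hD.dul_odd, hD.dFc_odd, hD.Fc_even]
  ring

theorem ddu_even (δ τ : ℝ) (α β : Fin 3) (x : T3) : D.ddu δ τ α β (-x) = D.ddu δ τ α β x := by
  unfold Dat.ddu Dat.dduc Dat.Fr
  rw [hD.ddul_even, hD.ddFc_even, hD.dFc_odd, hD.dFc_odd, hD.Fc_even]
  ring

theorem ddu_bm (hδ : 0 < δ) (hδ1 : δ ≤ 1) (α β : Fin 3) : BM (D.ddu δ τ α β) := by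
  have hB := Fr_bounds hD hδ.le hδ1
  have hFc : Measurable D.Fc := (hD.Fc_WD 0).sm.measurable
  have b1 : BM (fun x => (D.Fr δ x)⁻¹) := by
    refine BM.of_mem_Icc (a := 0) (b := δ⁻¹) ?_ fun x => ?_
    · unfold Dat.Fr
      exact (measurable_const.add (hFc.const_mul _)).inv
    · have h2 := (hB x).1
      exact ⟨inv_nonneg.2 (hδ.le.trans h2), inv_anti₀ hδ h2⟩
  have bd : ∀ α, BM (D.dFc α) := fun α => by
    refine ⟨(hD.dFc_WD α 0).sm.measurable, ?_⟩
    obtain ⟨C, hC⟩ := (hD.dFc_WD α 0).bdd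
    exact ⟨C, hC⟩
  have e2 : D.ddu δ τ α β = fun x => τ * D.ddul α β x
      + (-(1/2)) * (((1 - δ) * D.ddFc α β x) * (D.Fr δ x)⁻¹
        - (((1 - δ) ^ 2 * D.dFc α x) * D.dFc β x) * (D.Fr δ x)⁻¹ ^ 2) := by
    ext x; unfold Dat.ddu Dat.dduc; rw [inv_pow]; ring
  rw [e2]
  exact ((hD.ddul_bm α β).const_mul _).add (((((hD.ddFc_bm α β).const_mul _).mul b1).sub
    ((((bd α).const_mul _).mul (bd β)).mul (b1.pow 2))).const_mul _)

/-- `F = exp (-2u)`, so `∂F = -2 ∂u F`. -/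
theorem F_WD (hδ : 0 < δ) (hδ1 : δ ≤ 1) (α : Fin 3) :
    WD lam3 (tau α) (D.F δ τ) (fun x => -(2 * D.du δ τ α x) * D.F δ τ x) := by
  have hFr := Fr_WD hD hδ.le hδ1 α
  have hB := Fr_bounds hD hδ.le hδ1
  obtain ⟨C, hC0, hC⟩ := (ul_bm hD).exists_nonneg_bound
  have h1 := GJ_chain_conv (hD.ul_WD α) (s := Set.Ioo (-(C + 1)) (C + 1)) isOpen_Ioo
    (convex_Ioo _ _) (fun x => by
      have := abs_le.1 (hC x)
      constructor <;> linarith [this.1, this.2])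
    (φ := fun y => Real.exp (-(2 * τ * y))) (φ' := fun y => Real.exp (-(2 * τ * y)) * (-(2 * τ)))
    (fun y hy => by
      have h2 : HasDerivAt (fun y : ℝ => -(2 * τ * y)) (-(2 * τ)) y := by
        have := (hasDerivAt_id y).const_mul (-(2 * τ))
        simpa using this
      exact h2.exp)
    (L := Real.exp (2 * |τ| * (C + 1)) * (2 * |τ|)) (fun y hy => by
      rw [abs_mul, abs_of_pos (Real.exp_pos _), abs_neg, abs_mul, abs_two]
      refine mul_le_mul_of_nonneg_right (Real.exp_le_exp.2 ?_) (by positivity)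
      have h3 : |y| ≤ C + 1 := abs_le.2 ⟨hy.1.le, hy.2.le⟩
      calc -(2 * τ * y) ≤ |2 * τ * y| := neg_le_abs _
        _ = 2 * |τ| * |y| := by rw [abs_mul, abs_mul, abs_two]
        _ ≤ _ := mul_le_mul_of_nonneg_left h3 (by positivity))
    ⟨Real.exp (2 * |τ| * C), fun x => by
      rw [abs_of_pos (Real.exp_pos _)]
      refine Real.exp_le_exp.2 ?_
      calc -(2 * τ * D.ul x) ≤ |2 * τ * D.ul x| := neg_le_abs _
        _ = 2 * |τ| * |D.ul x| := by rw [abs_mul, abs_mul, abs_two]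
        _ ≤ _ := mul_le_mul_of_nonneg_left (hC x) (by positivity)⟩
  have h2 := hFr.mul h1
  have e : (fun x => -(2 * D.du δ τ α x) * D.F δ τ x)
      = fun x => (1 - δ) * D.dFc α x * Real.exp (-(2 * τ * D.ul x))
        + D.Fr δ x * (Real.exp (-(2 * τ * D.ul x)) * (-(2 * τ)) * D.dul α x) := by
    ext x
    have h3 : D.Fr δ x ≠ 0 := by have := (hB x).1; linarith
    unfold Dat.du Dat.F
    field_simp
    ring
  rw [e]
  exact h2

/-- Derivative of the weight (model: `jas_WD`). -/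
theorem Wg_WD (hδ : 0 < δ) (hδ1 : δ ≤ 1) (hτ : 0 ≤ τ) {n : ℕ} (i : Fin n) (α : Fin 3) :
    WD (piN (Fin n)) (tauN i α) (Wg (D.F δ τ))
      (fun x => -(∑ j ∈ Finset.univ.erase i, 2 * D.du δ τ α (x i - x j)) * Wg (D.F δ τ) x) := by
  have hG := F_gas hD hδ.le hδ1 hτ
  have w1 : WD (piN (Fin n)) (tauN i α)
      (fun x => pairW (D.F δ τ) (Finset.univ.erase i) x) (fun _ => 0) := by
    refine WD.of_invariant (tauN_zero i α) (pairW_bm hG _).1.stronglyMeasurable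
      (pairW_bm hG _).2 fun x t => ?_
    have : x + tauN i α t = update x i (x i + tau α t) := by
      ext1 k
      by_cases hk : k = i
      · rw [hk]; simp [tauN]
      · simp [tauN, update_of_ne hk, Pi.single_eq_of_ne hk]
    rw [this, pairW_update_of_notMem (Finset.notMem_erase i _)]
  have w2 : ∀ l ∈ Finset.univ.erase i, WD (piN (Fin n)) (tauN i α)
      (fun x => D.F δ τ (x i - x l))
      (fun x => -(2 * D.du δ τ α (x i - x l)) * D.F δ τ (x i - x l)) := by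
    intro l hl
    have hli : l ≠ i := Finset.ne_of_mem_erase hl
    refine (F_WD hD hδ hδ1 α).comp (tauN_zero i α) (mp_diff hli.symm) fun x t => ?_
    simp only [Pi.add_apply, tauN, Pi.single_eq_same, Pi.single_eq_of_ne hli]
    abel
  have w3 := w1.mul (WD.finset_prod (Finset.univ.erase i) (tauN_zero i α) w2)
  have e1 : (fun x : Fin n → T3 => pairW (D.F δ τ) (Finset.univ.erase i) x
      * ∏ l ∈ Finset.univ.erase i, D.F δ τ (x i - x l)) = Wg (D.F δ τ) := by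
    ext x
    unfold Wg
    rw [pairW_erase hG (Finset.mem_univ i)]
    rfl
  have e2 : (fun x : Fin n → T3 => 0 * ∏ l ∈ Finset.univ.erase i, D.F δ τ (x i - x l)
      + pairW (D.F δ τ) (Finset.univ.erase i) x * ∑ l ∈ Finset.univ.erase i,
        (-(2 * D.du δ τ α (x i - x l)) * D.F δ τ (x i - x l))
          * ∏ m ∈ (Finset.univ.erase i).erase l, D.F δ τ (x i - x m))
      = fun x => -(∑ j ∈ Finset.univ.erase i, 2 * D.du δ τ α (x i - x j)) * Wg (D.F δ τ) x := by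
    ext x
    rw [← congrFun e1 x, zero_mul, zero_add, ← Finset.sum_neg_distrib, Finset.sum_mul,
      Finset.mul_sum]
    refine Finset.sum_congr rfl fun l hl => ?_
    rw [← Finset.mul_prod_erase (Finset.univ.erase i) (fun m => D.F δ τ (x i - x m)) hl]
    ring
  rw [e1, e2] at w3
  exact w3

end

end Pool.Agent.Lib.MP_4952d6_mp

end

/-! ### U.GE2 -/

section

set_option autoImplicit false
set_option linter.unusedSectionVars false
set_option linter.unusedVariables false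
open MeasureTheory Function Filter Topology Set ComplexConjugate

namespace Pool.Agent.Lib.MP_4952d6_mp


/-! # GE2: statistics of the long range potential -/

/-- Characters integrate to zero. -/
theorem GE2_int_ch {p : Fin 3 → ℤ} (hp : p ≠ 0) : ∫ z, ch p z ∂lam3 = 0 := by
  obtain ⟨s, hs⟩ := exists_ch_eq_neg_one hp
  have h1 : ∫ z, ch p (z + s) ∂lam3 = ∫ z, ch p z ∂lam3 :=
    integral_add_right_eq_self (fun z => ch p z) s
  have h2 : ∫ z, ch p (z + s) ∂lam3 = - ∫ z, ch p z ∂lam3 := by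
    rw [← integral_neg]
    refine integral_congr_ae (Eventually.of_forall fun z => ?_)
    simp only [ch_add_arg, hs]
    ring
  have h3 : ∫ z, ch p z ∂lam3 = - ∫ z, ch p z ∂lam3 := h1.symm.trans h2
  have h4 : (2 : ℂ) * ∫ z, ch p z ∂lam3 = 0 := by
    rw [two_mul]
    nth_rewrite 1 [h3]
    ring
  simpa using h4

theorem GE2_ch_integrable (p : Fin 3 → ℤ) : Integrable (ch p) lam3 :=
  Integrable.of_bound (ch_continuous p).aestronglyMeasurable 1
    (Eventually.of_forall fun z => (ch_norm p z).le)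

/-- Fourier coefficients of an absolutely convergent Fourier series. -/
theorem GE2_fc3 {c : (Fin 3 → ℤ) → ℂ} {w : T3 → ℂ} (hs : Summable fun p => ‖c p‖)
    (hw : ∀ x, HasSum (fun p => c p * ch p x) (w x)) (q : Fin 3 → ℤ) : fc3 w q = c q := by
  unfold fc3
  have hi : ∀ p, Integrable (fun z => conj (ch q z) * (c p * ch p z)) lam3 := by
    intro p
    have hc : Continuous fun z => conj (ch q z) * (c p * ch p z) :=
      (Complex.continuous_conj.comp (ch_continuous q)).mul (continuous_const.mul (ch_continuous p))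
    refine Integrable.of_bound hc.aestronglyMeasurable ‖c p‖ (Eventually.of_forall fun z => ?_)
    rw [norm_mul, norm_mul, Complex.norm_conj, ch_norm, ch_norm, one_mul, mul_one]
  have hn : ∀ p, ∫ z, ‖conj (ch q z) * (c p * ch p z)‖ ∂lam3 = ‖c p‖ := by
    intro p
    have : ∀ z, ‖conj (ch q z) * (c p * ch p z)‖ = ‖c p‖ := fun z => by
      rw [norm_mul, norm_mul, Complex.norm_conj, ch_norm, ch_norm, one_mul, mul_one]
    simp_rw [this]
    simp
  have h1 := hasSum_integral_of_summable_integral_norm (μ := lam3) hi (by simp_rw [hn]; exact hs)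
  have h2 : ∀ z, ∑' p, conj (ch q z) * (c p * ch p z) = conj (ch q z) * w z := fun z =>
    ((hw z).mul_left _).tsum_eq
  simp_rw [h2] at h1
  have h3 : ∀ p, ∫ z, conj (ch q z) * (c p * ch p z) ∂lam3 = if p = q then c q else 0 := by
    intro p
    have e : ∀ z, conj (ch q z) * (c p * ch p z) = c p * ch (p - q) z := fun z => by
      rw [sub_eq_add_neg, ch_add, ch_neg]
      ring
    simp_rw [e]
    rw [integral_const_mul]
    by_cases hpq : p = q
    · rw [if_pos hpq, hpq, sub_self]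
      simp_rw [ch_zero]
      simp
    · rw [if_neg hpq, GE2_int_ch (sub_ne_zero.mpr hpq), mul_zero]
  simp_rw [h3] at h1
  exact h1.unique (hasSum_ite_eq q (c q))

/-- Interchange of sum and expectation. -/
theorem GE2_Eg_tsum {F : T3 → ℝ} (hF : GasFn lam3 F) {n : ℕ} {κ : Type*} [Countable κ]
    {Φ : κ → (Fin n → T3) → ℝ} {B : κ → ℝ} (hΦ : ∀ p, BM (Φ p)) (hB : Summable B)
    (hb : ∀ p x, |Φ p x| ≤ B p) {Ψ : (Fin n → T3) → ℝ} (hΨ : ∀ x, HasSum (fun p => Φ p x) (Ψ x)) :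
    HasSum (fun p => Eg F n (Φ p)) (Eg F n Ψ) := by
  have hW := Wg_bm hF n
  have hi : ∀ p, Integrable (fun x => Φ p x * Wg F x) (piN (Fin n)) := fun p =>
    ((hΦ p).mul hW).integrable _
  have hle : ∀ p, ∫ x, ‖Φ p x * Wg F x‖ ∂(piN (Fin n)) ≤ B p := by
    intro p
    have h1 : ∫ x, ‖Φ p x * Wg F x‖ ∂(piN (Fin n)) ≤ ∫ x, B p ∂(piN (Fin n)) := by
      refine integral_mono (hi p).norm (integrable_const _) fun x => ?_
      rw [Real.norm_eq_abs, abs_mul, abs_of_nonneg (Wg_nonneg hF x)]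
      calc |Φ p x| * Wg F x ≤ B p * 1 :=
            mul_le_mul (hb p x) (Wg_le_one hF x) (Wg_nonneg hF x) ((abs_nonneg _).trans (hb p x))
        _ = B p := mul_one _
    simpa using h1
  have hs : Summable fun p => ∫ x, ‖Φ p x * Wg F x‖ ∂(piN (Fin n)) :=
    Summable.of_nonneg_of_le (fun p => integral_nonneg fun x => norm_nonneg _) hle hB
  have h1 := hasSum_integral_of_summable_integral_norm (μ := piN (Fin n)) hi hs
  have h2 : ∀ x, ∑' p, Φ p x * Wg F x = Ψ x * Wg F x := fun x => ((hΨ x).mul_right _).tsum_eq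
  simp_rw [h2] at h1
  exact h1.div_const _

section
variable {D : Dat} (hD : D.Ok)
include hD

theorem uh_sq_summable : Summable (fun p => D.uh p ^ 2) := by
  refine Summable.of_nonneg_of_le (fun p => sq_nonneg _) (fun p => ?_)
    (hD.uh_summable.mul_left (∑' p, D.uh p))
  rw [sq]
  exact mul_le_mul_of_nonneg_right (hD.uh_summable.le_tsum p fun j _ => hD.uh_nonneg j)
    (hD.uh_nonneg p)

theorem GE2_norm_summable : Summable fun p => ‖(D.uh p : ℂ)‖ := by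
  refine hD.uh_summable.congr fun p => ?_
  rw [Complex.norm_real, Real.norm_eq_abs, abs_of_nonneg (hD.uh_nonneg p)]

/-- `∫ ul = uh 0`, `∫ ul · conj ch p = uh p`. -/
theorem ul_int : ∫ z, D.ul z ∂lam3 = D.uh 0 := by
  have h1 := GE2_fc3 (GE2_norm_summable hD) (w := fun x => (D.ul x : ℂ)) hD.ul_hasSum 0
  unfold fc3 at h1
  simp only [ch_zero, map_one, one_mul] at h1
  rw [integral_complex_ofReal] at h1
  exact_mod_cast h1

theorem GE2_re (x : T3) : HasSum (fun p => D.uh p * (ch p x).re) (D.ul x) := by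
  have h1 := (hD.ul_hasSum x).mapL Complex.reCLM
  simpa using h1

theorem ul_zero : D.ul 0 = ∑' p, D.uh p := by
  have h1 := GE2_re hD 0
  have h2 : ∀ p : Fin 3 → ℤ, (ch p 0).re = 1 := fun p => by
    have : ch p (0 : T3) = 1 := by simp [ch, UnitAddTorus.mFourier]
    rw [this]; rfl
  simp_rw [h2, mul_one] at h1
  exact h1.tsum_eq.symm

/-- `Hg ul = ∑_p uh p (|ρ_p|² - n)` (from `ul_hasSum` at `x i - x j`, real parts; `∑_p uh p = ul 0` absorbs the `n`). -/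
theorem Hg_hasSum {n : ℕ} (x : Fin n → T3) :
    HasSum (fun p => D.uh p * (‖rhoN p x‖ ^ 2 - n)) (Hg D.ul x) := by
  unfold Hg
  have h1 : ∀ p, D.uh p * (‖rhoN p x‖ ^ 2 - n)
      = ∑ i, ∑ j ∈ Finset.univ.erase i, D.uh p * (ch p (x i - x j)).re := fun p => by
    rw [rhoN_sq, add_sub_cancel_left, Finset.mul_sum]
    refine Finset.sum_congr rfl fun i _ => ?_
    rw [Finset.mul_sum]
  simp_rw [h1]
  exact hasSum_sum fun i _ => hasSum_sum fun j _ => GE2_re hD _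

theorem GE2_rho_bm (n : ℕ) (p : Fin 3 → ℤ) :
    BM (fun x : Fin n → T3 => D.uh p * (‖rhoN p x‖ ^ 2 - n)) :=
  ((rhoN_sq_bm p n).sub (BM.const (n : ℝ))).const_mul _

/-- Mean of `Hg`: interchange with dominated convergence (`|ρ|² ≤ n²`, `uh` summable). -/
theorem Hg_mean {F : T3 → ℝ} (hF : GasFn lam3 F) {n : ℕ} (hn : 1 ≤ n) (hZ : Zg F n ≠ 0) :
    Eg F n (Hg D.ul) = n * (n - 1) * D.uh 0 + n * tsum0 (fun p => D.uh p * (Sg F n p - 1)) := by
  have h1 := GE2_Eg_tsum hF (n := n) (Φ := fun p x => D.uh p * (‖rhoN p x‖ ^ 2 - n))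
    (B := fun p => D.uh p * ((n : ℝ) ^ 2 + n)) (Ψ := Hg D.ul) (GE2_rho_bm hD n)
    (hD.uh_summable.mul_right _) (fun p x => ?_) (Hg_hasSum hD)
  · have h2 : ∀ p, Eg F n (fun x => D.uh p * (‖rhoN p x‖ ^ 2 - n))
        = D.uh p * (n * Sg F n p - n) := fun p => by
      rw [Eg_const_mul, Eg_sub hF (rhoN_sq_bm p n) (BM.const (n : ℝ)), n_mul_Sg hF,
        Eg_const hZ]
    simp_rw [h2] at h1
    rw [← h1.tsum_eq, tsum_eq_tsum0 h1.summable, Sg_zero hn hZ]
    have h3 : (fun p => D.uh p * (n * Sg F n p - n))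
        = fun p => (n : ℝ) * (D.uh p * (Sg F n p - 1)) := by
      funext p; ring
    rw [h3, tsum0_const_mul]
    ring
  · rw [abs_mul, abs_of_nonneg (hD.uh_nonneg p)]
    refine mul_le_mul_of_nonneg_left ?_ (hD.uh_nonneg p)
    have ha := rhoN_sq_le p x
    have hb : 0 ≤ ‖rhoN p x‖ ^ 2 := sq_nonneg _
    have hc : (0 : ℝ) ≤ n := Nat.cast_nonneg _
    rw [abs_le]
    constructor <;> nlinarith

theorem Hg_bm (n : ℕ) : BM (Hg D.ul : (Fin n → T3) → ℝ) := by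
  unfold Hg
  refine BM.finset_sum _ fun i _ => BM.finset_sum _ fun j _ => ?_
  exact (ul_bm hD).comp ((measurable_pi_apply i).sub (measurable_pi_apply j))

theorem Xg_bm (n : ℕ) (y : T3) : BM (fun x : Fin n → T3 => Xg D.ul x y) := by
  unfold Xg
  refine BM.finset_sum _ fun j _ => ?_
  exact (ul_bm hD).comp (measurable_const.sub (measurable_pi_apply j))

theorem GE2_Xg_bm2 (n : ℕ) (z : T3) : BM (fun q : (Fin n → T3) × T3 => Xg D.ul q.1 (q.2 + z)) := by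
  unfold Xg
  refine BM.finset_sum _ fun j _ => ?_
  exact (ul_bm hD).comp ((measurable_snd.add_const z).sub
    ((measurable_pi_apply j).comp measurable_fst))

/-- Fourier series of the linear statistic. -/
theorem GE2_Xg_hasSum {n : ℕ} (x : Fin n → T3) (y : T3) :
    HasSum (fun p => (D.uh p : ℂ) * conj (rhoN p x) * ch p y) (Xg D.ul x y : ℂ) := by
  unfold Xg rhoN
  push_cast
  have h1 : ∀ p, (D.uh p : ℂ) * conj (∑ j, ch p (x j)) * ch p y
      = ∑ j, (D.uh p : ℂ) * ch p (y - x j) := fun p => by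
    rw [map_sum, Finset.mul_sum, Finset.sum_mul]
    refine Finset.sum_congr rfl fun j _ => ?_
    rw [sub_eq_add_neg, ch_add_arg, ch_neg_arg]
    ring
  simp_rw [h1]
  exact hasSum_sum fun j _ => hD.ul_hasSum _

/-- Variance formula for translation covariant linear statistics. -/
theorem GE2_var {F : T3 → ℝ} (hF : GasFn lam3 F) {n : ℕ} (m : (Fin 3 → ℤ) → ℂ)
    (hm : ∀ p, ‖m p‖ ≤ 2) (Φ : (Fin n → T3) → T3 → ℝ) (hΦ : BM (uncurry Φ))
    (hsh : ∀ x s, Φ (fun i => x i + s) 0 = Φ x (-s))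
    (hsum : ∀ x y, HasSum (fun p => (D.uh p : ℂ) * conj (rhoN p x) * m p * ch p y)
      (Φ x y : ℂ)) :
    HasSum (fun p => D.uh p ^ 2 * ‖m p‖ ^ 2 * (n * Sg F n p)) (Eg F n (fun x => Φ x 0 ^ 2)) := by
  have hbm0 : BM (fun x => Φ x 0 ^ 2) :=
    (hΦ.comp (φ := fun x => (x, (0 : T3))) (measurable_id.prodMk measurable_const)).pow 2
  have h1 : Eg F n (fun x => Φ x 0 ^ 2) = Eg F n (fun x => ∫ y, Φ x y ^ 2 ∂lam3) := by
    rw [Eg_avg hF hbm0]
    congr 1
    funext x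
    simp_rw [hsh]
    exact integral_neg_eq_self (fun y => Φ x y ^ 2) lam3
  rw [h1]
  have hns : ∀ x : Fin n → T3, Summable fun p => ‖(D.uh p : ℂ) * conj (rhoN p x) * m p‖ := by
    intro x
    refine Summable.of_nonneg_of_le (fun p => norm_nonneg _) (fun p => ?_)
      ((GE2_norm_summable hD).mul_right ((n : ℝ) * 2))
    rw [norm_mul, norm_mul, Complex.norm_conj, mul_assoc]
    refine mul_le_mul_of_nonneg_left ?_ (norm_nonneg _)
    refine mul_le_mul ?_ (hm p) (norm_nonneg _) (Nat.cast_nonneg _)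
    exact (abs_le_of_sq_le_sq' (rhoN_sq_le p x) (Nat.cast_nonneg _)).2
  have h2 : ∀ x : Fin n → T3, HasSum (fun p => D.uh p ^ 2 * ‖m p‖ ^ 2 * ‖rhoN p x‖ ^ 2)
      (∫ y, Φ x y ^ 2 ∂lam3) := by
    intro x
    have hmL : MemLp (fun y => (Φ x y : ℂ)) 2 lam3 := by
      obtain ⟨hme, C, hC⟩ := hΦ
      have hme' : Measurable fun y => (Φ x y : ℂ) :=
        Complex.measurable_ofReal.comp (hme.comp (measurable_const.prodMk measurable_id))
      refine MemLp.of_bound hme'.aestronglyMeasurable C (Eventually.of_forall fun y => ?_)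
      rw [Complex.norm_real]
      exact hC (x, y)
    have h3 := parseval3_sq hmL
    have h4 : ∀ p, ‖fc3 (fun y => (Φ x y : ℂ)) p‖ ^ 2
        = D.uh p ^ 2 * ‖m p‖ ^ 2 * ‖rhoN p x‖ ^ 2 := fun p => by
      rw [GE2_fc3 (hns x) (hsum x) p, norm_mul, norm_mul, Complex.norm_conj, Complex.norm_real,
        Real.norm_eq_abs, mul_pow, mul_pow, sq_abs]
      ring
    simp_rw [h4] at h3
    have h5 : ∀ y, ‖(Φ x y : ℂ)‖ ^ 2 = Φ x y ^ 2 := fun y => by
      rw [Complex.norm_real, Real.norm_eq_abs, sq_abs]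
    simp_rw [h5] at h3
    exact h3
  have h6 := GE2_Eg_tsum hF (n := n)
    (Φ := fun p x => D.uh p ^ 2 * ‖m p‖ ^ 2 * ‖rhoN p x‖ ^ 2)
    (B := fun p => D.uh p ^ 2 * (4 * (n : ℝ) ^ 2)) (fun p => (rhoN_sq_bm p n).const_mul _)
    ((uh_sq_summable hD).mul_right _) (fun p x => ?_) h2
  · have h7 : ∀ p, Eg F n (fun x => D.uh p ^ 2 * ‖m p‖ ^ 2 * ‖rhoN p x‖ ^ 2)
        = D.uh p ^ 2 * ‖m p‖ ^ 2 * (n * Sg F n p) := fun p => by
      rw [Eg_const_mul, n_mul_Sg hF]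
    simp_rw [h7] at h6
    exact h6
  · have ha := rhoN_sq_le p x
    have hb : 0 ≤ ‖rhoN p x‖ ^ 2 := sq_nonneg _
    have hc : ‖m p‖ ^ 2 ≤ 4 := by nlinarith [hm p, norm_nonneg (m p)]
    rw [abs_of_nonneg (by positivity), mul_assoc]
    refine mul_le_mul_of_nonneg_left ?_ (sq_nonneg _)
    exact mul_le_mul hc ha hb (by norm_num)

/-- Variance of the linear statistic: `X(y) = ∑_p uh p ch p y conj ρ_p`, average over `y` (translation invariance),
Parseval. -/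
theorem Xg_var {F : T3 → ℝ} (hF : GasFn lam3 F) {n : ℕ} (hn : 1 ≤ n) (hZ : Zg F n ≠ 0) :
    Eg F n (fun x => (Xg D.ul x 0 - n * D.uh 0) ^ 2)
      = n * tsum0 (fun p => D.uh p ^ 2 * Sg F n p) := by
  have h1 := GE2_var hD hF (n := n) (fun p => if p = 0 then 0 else 1)
    (fun p => by by_cases hp : p = 0 <;> simp [hp])
    (fun x y => Xg D.ul x y - n * D.uh 0) ?_ ?_ ?_
  · have h2 : (fun p => D.uh p ^ 2 * ‖(if p = 0 then (0 : ℂ) else 1)‖ ^ 2 * (n * Sg F n p))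
        = fun p => if p = 0 then 0 else (n : ℝ) * (D.uh p ^ 2 * Sg F n p) := by
      funext p
      by_cases hp : p = 0
      · simp [hp]
      · simp only [hp, if_false, norm_one]
        ring
    rw [h2] at h1
    rw [← tsum0_const_mul]
    unfold tsum0
    exact h1.tsum_eq.symm
  · have h3 := (GE2_Xg_bm2 hD n 0).sub (BM.const (n * D.uh 0))
    have h4 : (uncurry fun (x : Fin n → T3) (y : T3) => Xg D.ul x y - n * D.uh 0)
        = fun q : (Fin n → T3) × T3 => Xg D.ul q.1 (q.2 + 0) - n * D.uh 0 := by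
      funext q
      simp [uncurry]
    rw [h4]
    exact h3
  · intro x s
    unfold Xg
    congr 1
    refine Finset.sum_congr rfl fun j _ => ?_
    rw [sub_add_eq_sub_sub_swap, zero_sub]
  · intro x y
    have h5 := GE2_Xg_hasSum hD x y
    have h6 := h5.sub (hasSum_ite_eq (0 : Fin 3 → ℤ) ((D.uh 0 : ℂ) * n))
    have h7 : (fun p => (D.uh p : ℂ) * conj (rhoN p x) * ch p y
          - if p = 0 then ((D.uh 0 : ℂ) * n) else 0)
        = fun p => (D.uh p : ℂ) * conj (rhoN p x) * (if p = 0 then (0 : ℂ) else 1) * ch p y := by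
      funext p
      by_cases hp : p = 0
      · subst hp
        simp only [if_true, rhoN_zero, ch_zero]
        simp
      · simp [hp]
    rw [h7] at h6
    push_cast
    rw [mul_comm (n : ℂ)]
    exact h6

theorem Xg_diff {F : T3 → ℝ} (hF : GasFn lam3 F) {n : ℕ} (hn : 1 ≤ n) (hZ : Zg F n ≠ 0) (z : T3) :
    Eg F n (fun x => (Xg D.ul x 0 - Xg D.ul x z) ^ 2)
      = n * tsum0 (fun p => D.uh p ^ 2 * (2 * (1 - (ch p z).re)) * Sg F n p) := by
  have hnrm : ∀ p, ‖1 - ch p z‖ ^ 2 = 2 * (1 - (ch p z).re) := fun p => by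
    have h1 : ‖ch p z‖ ^ 2 = 1 := by rw [ch_norm]; norm_num
    rw [← Complex.normSq_eq_norm_sq] at h1 ⊢
    rw [Complex.normSq_apply] at h1 ⊢
    simp only [Complex.sub_re, Complex.one_re, Complex.sub_im, Complex.one_im]
    nlinarith
  have h1 := GE2_var hD hF (n := n) (fun p => 1 - ch p z)
    (fun p => (norm_sub_le _ _).trans (by rw [norm_one, ch_norm]; norm_num))
    (fun x y => Xg D.ul x y - Xg D.ul x (y + z)) ?_ ?_ ?_
  · have h0 : ch (0 : Fin 3 → ℤ) z = 1 := ch_zero z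
    have h2 : (fun p => D.uh p ^ 2 * ‖1 - ch p z‖ ^ 2 * (n * Sg F n p))
        = fun p => if p = 0 then 0 else
          (n : ℝ) * (D.uh p ^ 2 * (2 * (1 - (ch p z).re)) * Sg F n p) := by
      funext p
      by_cases hp : p = 0
      · subst hp
        simp [h0]
      · rw [hnrm, if_neg hp]
        ring
    rw [h2] at h1
    rw [← tsum0_const_mul]
    unfold tsum0
    simp only [zero_add] at h1
    exact h1.tsum_eq.symm
  · have h3 := (GE2_Xg_bm2 hD n 0).sub (GE2_Xg_bm2 hD n z)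
    have h4 : (uncurry fun (x : Fin n → T3) (y : T3) => Xg D.ul x y - Xg D.ul x (y + z))
        = fun q : (Fin n → T3) × T3 => Xg D.ul q.1 (q.2 + 0) - Xg D.ul q.1 (q.2 + z) := by
      funext q
      simp [uncurry]
    rw [h4]
    exact h3
  · intro x s
    unfold Xg
    congr 1
    · refine Finset.sum_congr rfl fun j _ => ?_
      rw [sub_add_eq_sub_sub_swap, zero_sub]
    · refine Finset.sum_congr rfl fun j _ => ?_
      rw [sub_add_eq_sub_sub_swap, zero_add, neg_add_eq_sub]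
  · intro x y
    have h6 := (GE2_Xg_hasSum hD x y).sub (GE2_Xg_hasSum hD x (y + z))
    have h7 : (fun p => (D.uh p : ℂ) * conj (rhoN p x) * ch p y
          - (D.uh p : ℂ) * conj (rhoN p x) * ch p (y + z))
        = fun p => (D.uh p : ℂ) * conj (rhoN p x) * (1 - ch p z) * ch p y := by
      funext p
      rw [ch_add_arg]
      ring
    rw [h7] at h6
    push_cast
    exact h6

end

end Pool.Agent.Lib.MP_4952d6_mp

end

/-! ### U.GF -/

section

set_option autoImplicit false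
set_option linter.unusedSectionVars false
set_option linter.unusedVariables false
open MeasureTheory Function Filter Topology Set

namespace Pool.Agent.Lib.MP_4952d6_mp


/-! # GF: changing the strength `τ` of the long range part -/

section
variable {D : Dat} (hD : D.Ok) {δ : ℝ}
include hD

/-- `Wg (F^{δ,τ'}) = Wg (F^{δ,τ}) exp (-(τ'-τ) H)`, `H = ∑_{i≠j} ul (x i - x j)`: compare squares (`Wg_sq`). -/
theorem Wg_tilt (hδ : 0 ≤ δ) (hδ1 : δ ≤ 1) {τ τ' : ℝ} (hτ : 0 ≤ τ) (hτ' : 0 ≤ τ') {n : ℕ}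
    (x : Fin n → T3) :
    Wg (D.F δ τ') x = Wg (D.F δ τ) x * Real.exp (-((τ' - τ) * Hg D.ul x)) := by
  have hF := F_gas hD hδ hδ1 hτ
  have hF' := F_gas hD hδ hδ1 hτ'
  have h0 : 0 ≤ Wg (D.F δ τ') x := Wg_nonneg hF' x
  have h1 : 0 ≤ Wg (D.F δ τ) x * Real.exp (-((τ' - τ) * Hg D.ul x)) :=
    mul_nonneg (Wg_nonneg hF x) (Real.exp_pos _).le
  refine (pow_left_inj₀ h0 h1 two_ne_zero).1 ?_
  rw [mul_pow, Wg_sq hF', Wg_sq hF, ← Real.exp_nat_mul]
  have h2 : Real.exp (((2 : ℕ) : ℝ) * -((τ' - τ) * Hg D.ul x)) =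
      ∏ i, ∏ j ∈ Finset.univ.erase i, Real.exp (-(2 * (τ' - τ) * D.ul (x i - x j))) := by
    simp_rw [← Real.exp_sum]
    congr 1
    unfold Hg
    simp_rw [Finset.sum_neg_distrib, ← Finset.mul_sum]
    push_cast
    ring
  rw [h2, ← Finset.prod_mul_distrib]
  refine Finset.prod_congr rfl fun i _ => ?_
  rw [← Finset.prod_mul_distrib]
  refine Finset.prod_congr rfl fun j _ => ?_
  unfold Dat.F
  rw [mul_assoc (D.Fr δ (x i - x j)), ← Real.exp_add]
  congr 2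
  ring

/-- Jensen. -/
theorem Zg_tilt (hδ : 0 ≤ δ) (hδ1 : δ ≤ 1) {τ τ' : ℝ} (hτ : 0 ≤ τ) (hτ' : 0 ≤ τ') {n : ℕ}
    (hZ : 0 < Zg (D.F δ τ) n) :
    Zg (D.F δ τ) n * Real.exp (-((τ' - τ) * Eg (D.F δ τ) n (Hg D.ul))) ≤ Zg (D.F δ τ') n := by
  have hF := F_gas hD hδ hδ1 hτ
  have h1 := Eg_jensen hF hZ ((Hg_bm hD n).const_mul (τ' - τ))
  rw [Eg_const_mul] at h1
  have h2 : Zg (D.F δ τ') n = Zg (D.F δ τ) n *
      Eg (D.F δ τ) n (fun x => Real.exp (-((τ' - τ) * Hg D.ul x))) := by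
    unfold Eg
    rw [mul_div_cancel₀ _ hZ.ne']
    unfold Zg
    refine integral_congr_ae (Eventually.of_forall fun x => ?_)
    show Wg (D.F δ τ') x = _
    rw [Wg_tilt hD hδ hδ1 hτ hτ', mul_comm]
  rw [h2]
  exact mul_le_mul_of_nonneg_left h1 hZ.le

/-- Logarithmic form. -/
theorem log_Zg_tilt (hδ : 0 ≤ δ) (hδ1 : δ ≤ 1) {τ τ' : ℝ} (hτ : 0 ≤ τ) (hτ' : 0 ≤ τ') {n : ℕ}
    (hZ : 0 < Zg (D.F δ τ) n) (hZ' : 0 < Zg (D.F δ τ') n) :
    Real.log (Zg (D.F δ τ) n) - (τ' - τ) * Eg (D.F δ τ) n (Hg D.ul)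
      ≤ Real.log (Zg (D.F δ τ') n) := by
  have h1 := Real.log_le_log (mul_pos hZ (Real.exp_pos _)) (Zg_tilt hD hδ hδ1 hτ hτ' hZ)
  rw [Real.log_mul hZ.ne' (Real.exp_pos _).ne', Real.log_exp] at h1
  linarith

/-- Two applications of Jensen: the mean of `H` decreases in `τ`. -/
theorem Hg_mean_anti (hδ : 0 ≤ δ) (hδ1 : δ ≤ 1) {τ τ' : ℝ} (hτ : 0 ≤ τ) (hττ' : τ ≤ τ') {n : ℕ}
    (hZ : 0 < Zg (D.F δ τ) n) (hZ' : 0 < Zg (D.F δ τ') n) :
    Eg (D.F δ τ') n (Hg D.ul) ≤ Eg (D.F δ τ) n (Hg D.ul) := by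
  have hτ' : 0 ≤ τ' := hτ.trans hττ'
  rcases hττ'.eq_or_lt with h | h
  · rw [h]
  have h1 := log_Zg_tilt hD hδ hδ1 hτ hτ' hZ hZ'
  have h2 := log_Zg_tilt hD hδ hδ1 hτ' hτ hZ' hZ
  have h3 : 0 < τ' - τ := by linarith
  by_contra hcon
  push Not at hcon
  nlinarith [mul_pos h3 (sub_pos.2 hcon)]

/-- One body factor: core part times exponential. -/
theorem Ag_F (δ τ : ℝ) {n : ℕ} (x : Fin n → T3) (y : T3) :
    Ag (D.F δ τ) x y = Ag (D.Fr δ) x y * Real.exp (-(2 * τ * Xg D.ul x y)) := by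
  unfold Ag Xg
  have h1 : Real.exp (-(2 * τ * ∑ j, D.ul (y - x j))) =
      ∏ j, Real.exp (-(2 * τ * D.ul (y - x j))) := by
    rw [← Real.exp_sum, Finset.sum_neg_distrib, ← Finset.mul_sum]
  rw [h1, ← Finset.prod_mul_distrib]
  rfl

/-- `0 ≤ 1 - Ag Fr ≤ ∑ (1 - Fc (y - x j))` (`one_sub_sum_le_prod` in Gas.lean). -/
theorem one_sub_Ag_Fr (hδ : 0 ≤ δ) (hδ1 : δ ≤ 1) {n : ℕ} (x : Fin n → T3) (y : T3) :
    0 ≤ 1 - Ag (D.Fr δ) x y ∧ 1 - Ag (D.Fr δ) x y ≤ Xg (fun z => 1 - D.Fc z) x y := by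
  have h0 : ∀ z, 0 ≤ D.Fr δ z := fun z => hδ.trans (Fr_bounds hD hδ hδ1 z).1
  have h1 : ∀ z, D.Fr δ z ≤ 1 := fun z => (Fr_bounds hD hδ hδ1 z).2
  constructor
  · have h2 : Ag (D.Fr δ) x y ≤ 1 :=
      Finset.prod_le_one (fun j _ => h0 _) (fun j _ => h1 _)
    linarith
  · have h2 := one_sub_sum_le_prod Finset.univ (fun j : Fin n => D.Fr δ (y - x j))
      (fun j _ => h0 _) (fun j _ => h1 _)
    have h3 : ∑ j : Fin n, (1 - D.Fr δ (y - x j)) ≤ Xg (fun z => 1 - D.Fc z) x y :=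
      Finset.sum_le_sum fun j _ => (one_sub_Fr hD hδ hδ1 _).2
    have h4 : Ag (D.Fr δ) x y = ∏ j : Fin n, D.Fr δ (y - x j) := rfl
    rw [h4]
    linarith

/-- `Z` is continuous in `δ` and so are the expectations: for bounded measurable `Φ`, as `δ → 0+`. (Dominated convergence.) -/
theorem Eg_delta_tendsto {τ : ℝ} (hτ : 0 ≤ τ) {n : ℕ} (hZ : 0 < Zg (D.F 0 τ) n)
    {Φ : (Fin n → T3) → ℝ} (hΦ : BM Φ) :
    Tendsto (fun δ => Eg (D.F δ τ) n Φ) (𝓝[>] 0) (𝓝 (Eg (D.F 0 τ) n Φ)) := by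
  have hcont : ∀ x : Fin n → T3, Continuous fun δ : ℝ => Wg (D.F δ τ) x := by
    intro x
    unfold Wg pairW Dat.F Dat.Fr
    refine continuous_finsetProd _ fun k _ => continuous_finsetProd _ fun l _ => ?_
    fun_prop
  have hev : ∀ᶠ δ in 𝓝[>] (0 : ℝ), δ ∈ Ioo (0 : ℝ) 1 := Ioo_mem_nhdsGT one_pos
  obtain ⟨C, hC0, hC⟩ := hΦ.exists_nonneg_bound
  have hgen : ∀ {Ψ : (Fin n → T3) → ℝ}, BM Ψ →
      Tendsto (fun δ => ∫ x, Ψ x * Wg (D.F δ τ) x ∂(piN (Fin n))) (𝓝[>] 0)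
        (𝓝 (∫ x, Ψ x * Wg (D.F 0 τ) x ∂(piN (Fin n)))) := by
    intro Ψ hΨ
    obtain ⟨B, hB0, hB⟩ := hΨ.exists_nonneg_bound
    refine tendsto_integral_filter_of_dominated_convergence (fun _ => B) ?_ ?_
      (integrable_const _) (Eventually.of_forall fun x => ?_)
    · filter_upwards [hev] with δ hδ
      exact (hΨ.mul (Wg_bm (F_gas hD hδ.1.le hδ.2.le hτ) n)).1.aestronglyMeasurable
    · filter_upwards [hev] with δ hδ
      refine Eventually.of_forall fun x => ?_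
      have hF := F_gas hD hδ.1.le hδ.2.le hτ
      rw [Real.norm_eq_abs, abs_mul, abs_of_nonneg (Wg_nonneg hF x)]
      calc |Ψ x| * Wg (D.F δ τ) x ≤ B * 1 :=
            mul_le_mul (hB x) (Wg_le_one hF x) (Wg_nonneg hF x) hB0
        _ = B := mul_one B
    · exact (((hcont x).tendsto 0).mono_left nhdsWithin_le_nhds).const_mul _
  have h1 := hgen hΦ
  have h2 := hgen (BM.const (α := Fin n → T3) 1)
  simp only [one_mul] at h2
  exact h1.div h2 hZ.ne'

end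

end Pool.Agent.Lib.MP_4952d6_mp

end

/-! ### U.GH1 -/

section

set_option autoImplicit false
set_option linter.unusedSectionVars false
set_option linter.unusedVariables false
open MeasureTheory Function Filter Topology Set

namespace Pool.Agent.Lib.MP_4952d6_mp


/-! # GH1: crude bounds (U3), uniformly in `0 ≤ δ ≤ 1`, `0 ≤ τ ≤ 1`, `n ≤ N`

Write `F = D.F δ τ`, `I_c = ∫ (1 - Fc)` (`N I_c ≤ C q^240`), `u_0 = uh 0` (`N u_0 ≤ C`), `X = Xg ul`, `H = Hg ul`. -/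

private theorem GH1_Fc_bm {D : Dat} (hD : D.Ok) : BM (fun z => 1 - D.Fc z) :=
  (BM.const 1).sub (BM.of_mem_Icc (hD.Fc_WD 0).sm.measurable fun x => ⟨hD.Fc_nonneg x, hD.Fc_le x⟩)

private theorem GH1_Ic_nonneg {D : Dat} (hD : D.Ok) : 0 ≤ ∫ z, (1 - D.Fc z) ∂lam3 :=
  integral_nonneg fun z => sub_nonneg.2 (hD.Fc_le z)

private theorem GH1_Xg_bm {h : T3 → ℝ} (hh : BM h) (n : ℕ) (y : T3) :
    BM (fun x : Fin n → T3 => Xg h x y) :=
  BM.finset_sum _ fun j _ => hh.comp (measurable_sub' measurable_const (measurable_pi_apply j))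

/-- Lower bound for `r_n`: `A ≥ exp(-2τX) (1 - ∑(1-Fc)) ≥ exp(-2τX) - ∑ (1 - Fc)`; Jensen; `⟨X⟩ = n u_0`, `⟨∑(1-Fc)⟩ = n I_c`. -/
theorem rg_ge {D : Dat} (hD : D.Ok) {δ τ : ℝ} (hδ : 0 ≤ δ) (hδ1 : δ ≤ 1) (hτ : 0 ≤ τ) {n : ℕ}
    (hZ : 0 < Zg (D.F δ τ) n) :
    Real.exp (-(2 * τ * n * D.uh 0)) - n * ∫ z, (1 - D.Fc z) ∂lam3 ≤ rg (D.F δ τ) n := by
  have hF := F_gas hD hδ hδ1 hτ
  have hX := Xg_bm hD n (0 : T3)
  have hXc := GH1_Xg_bm (GH1_Fc_bm hD) n (0 : T3)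
  have hX0 : ∀ x : Fin n → T3, 0 ≤ Xg D.ul x 0 := fun x =>
    Finset.sum_nonneg fun j _ => hD.ul_nonneg _
  have hXc0 : ∀ x : Fin n → T3, 0 ≤ Xg (fun z => 1 - D.Fc z) x 0 := fun x =>
    Finset.sum_nonneg fun j _ => sub_nonneg.2 (hD.Fc_le _)
  have hexp : BM (fun x : Fin n → T3 => Real.exp (-(2 * τ * Xg D.ul x 0))) := by
    refine BM.of_mem_Icc (a := 0) (b := 1) ?_ fun x => ⟨(Real.exp_pos _).le, ?_⟩
    · exact Real.measurable_exp.comp ((hX.const_mul (2 * τ)).neg).1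
    · rw [Real.exp_le_one_iff]
      have := mul_nonneg (mul_nonneg two_pos.le hτ) (hX0 x)
      linarith
  have hA : BM (fun x : Fin n → T3 => Ag (D.F δ τ) x 0) :=
    (Ag_bm hF n).comp (measurable_id.prodMk measurable_const)
  have hpt : ∀ x : Fin n → T3, Real.exp (-(2 * τ * Xg D.ul x 0)) -
      Xg (fun z => 1 - D.Fc z) x 0 ≤ Ag (D.F δ τ) x 0 := by
    intro x
    rw [Ag_F hD]
    have h1 := (one_sub_Ag_Fr hD hδ hδ1 x 0).2
    have h2 : Real.exp (-(2 * τ * Xg D.ul x 0)) ≤ 1 := by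
      rw [Real.exp_le_one_iff]
      have := mul_nonneg (mul_nonneg two_pos.le hτ) (hX0 x)
      linarith
    have h3 := (Real.exp_pos (-(2 * τ * Xg D.ul x 0))).le
    linarith only [mul_nonneg (hXc0 x) (sub_nonneg.2 h2), mul_le_mul_of_nonneg_right h1 h3]
  have h4 := Eg_mono hF (hexp.sub hXc) hA hpt
  rw [Eg_sub hF hexp hXc, Eg_Xg hF hZ.ne' (GH1_Fc_bm hD)] at h4
  have h5 := Eg_jensen hF hZ (hX.const_mul (2 * τ))
  rw [Eg_const_mul, Eg_Xg hF hZ.ne' (ul_bm hD), ul_int hD] at h5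
  have h6 : 2 * τ * n * D.uh 0 = 2 * τ * (n * D.uh 0) := by ring
  rw [h6]
  have h7 : rg (D.F δ τ) n = Eg (D.F δ τ) n (fun x => Ag (D.F δ τ) x 0) := rfl
  rw [h7]
  linarith

/-- `(U3.1)`: all partition functions are positive and `r_n ≥ exp(-2C)/2`. Induction on `n` with `Zg_succ`. -/
theorem U31 {C : ℝ} (hC : 1 ≤ C) : ∃ q₀ : ℝ, 0 < q₀ ∧ ∀ (q a : ℝ) (N : ℕ) (D : Dat),
    D.GD C q a N → q ≤ q₀ → ∀ δ τ : ℝ, 0 ≤ δ → δ ≤ 1 → 0 ≤ τ → τ ≤ 1 →
      (∀ n, n ≤ N + 1 → 0 < Zg (D.F δ τ) n) ∧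
      ∀ n, n ≤ N → Real.exp (-(2 * C)) / 2 ≤ rg (D.F δ τ) n := by
  have hC0 : 0 < C := by linarith
  have he := Real.exp_pos (-(2 * C))
  refine ⟨Real.exp (-(2 * C)) / (2 * C), by positivity, ?_⟩
  intro q a N D h hq δ τ hδ hδ1 hτ hτ1
  have hD := h.ok
  have hF := F_gas hD hδ hδ1 hτ
  have hq0 := h.q0
  have hq1 : q ≤ 1 := h.q1.trans (by norm_num)
  have hI0 := GH1_Ic_nonneg hD
  have hu0 := hD.uh_nonneg 0
  have hqC : C * q ^ 240 ≤ Real.exp (-(2 * C)) / 2 := by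
    have h1 : q ^ 240 ≤ q := pow_le_of_le_one hq0.le hq1 (by norm_num)
    have h2 : q * (2 * C) ≤ Real.exp (-(2 * C)) := by
      rwa [le_div_iff₀ (by positivity)] at hq
    have h3 := mul_le_mul_of_nonneg_left h1 hC0.le
    linarith only [h2, h3]
  have key : ∀ n, n ≤ N → 0 < Zg (D.F δ τ) n → Real.exp (-(2 * C)) / 2 ≤ rg (D.F δ τ) n := by
    intro n hn hZ
    have h1 := rg_ge hD hδ hδ1 hτ hZ
    have hn' : (n : ℝ) ≤ N := by exact_mod_cast hn
    have hn0 : (0 : ℝ) ≤ n := Nat.cast_nonneg n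
    have h2 : 2 * τ * n * D.uh 0 ≤ 2 * C := by
      have h3 : τ * (n * D.uh 0) ≤ 1 * (N * D.uh 0) :=
        mul_le_mul hτ1 (mul_le_mul_of_nonneg_right hn' hu0) (mul_nonneg hn0 hu0) one_pos.le
      have h4 := h.uh0
      linarith only [h3, h4]
    have h5 : Real.exp (-(2 * C)) ≤ Real.exp (-(2 * τ * n * D.uh 0)) :=
      Real.exp_le_exp.2 (by linarith)
    have h6 : (n : ℝ) * ∫ z, (1 - D.Fc z) ∂lam3 ≤ C * q ^ 240 :=
      (mul_le_mul_of_nonneg_right hn' hI0).trans h.Ic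
    linarith
  have hZ : ∀ n, n ≤ N + 1 → 0 < Zg (D.F δ τ) n := by
    intro n
    induction n with
    | zero =>
      intro _
      rw [Zg_zero]
      exact one_pos
    | succ n ih =>
      intro hn
      have h1 := ih (by omega)
      rw [Zg_succ hF h1]
      have h2 := key n (by omega) h1
      exact mul_pos (lt_of_lt_of_le (by positivity) h2) h1
  exact ⟨hZ, fun n hn => key n hn (hZ n (by omega))⟩

/-- Pair density of the core gas (`τ = 0`): `pp = F M_n / (r_{n+1} r_n)` and `M_n ≤ 1`, `r ≥ 1 - (n+1) I_c`. -/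
theorem pp_core_le {D : Dat} (hD : D.Ok) {δ : ℝ} (hδ : 0 ≤ δ) (hδ1 : δ ≤ 1) {n : ℕ}
    (hI : (n + 1 : ℝ) * ∫ z, (1 - D.Fc z) ∂lam3 ≤ 1 / 4) (z : T3) :
    pp (D.F δ 0) n z ≤ 1 + 4 * ((n + 1 : ℝ) * ∫ z, (1 - D.Fc z) ∂lam3) := by
  have hF := F_gas hD hδ hδ1 (le_refl (0 : ℝ))
  have hI0 := GH1_Ic_nonneg hD
  set ε := (n + 1 : ℝ) * ∫ z, (1 - D.Fc z) ∂lam3 with hε
  have hε0 : 0 ≤ ε := mul_nonneg (by positivity) hI0
  have key : ∀ m, m ≤ n + 1 → 0 < Zg (D.F δ 0) m → 1 - ε ≤ rg (D.F δ 0) m := by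
    intro m hm hZ
    have h1 := rg_ge hD hδ hδ1 (le_refl (0 : ℝ)) hZ
    have h2 : -(2 * (0 : ℝ) * m * D.uh 0) = 0 := by ring
    rw [h2, Real.exp_zero] at h1
    have hm' : (m : ℝ) ≤ n + 1 := by exact_mod_cast hm
    have h3 := mul_le_mul_of_nonneg_right hm' hI0
    linarith
  have hZ : ∀ m, m ≤ n + 2 → 0 < Zg (D.F δ 0) m := by
    intro m
    induction m with
    | zero =>
      intro _
      rw [Zg_zero]
      exact one_pos
    | succ m ih =>
      intro hm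
      have h1 := ih (by omega)
      rw [Zg_succ hF h1]
      have h2 := key m (by omega) h1
      exact mul_pos (by linarith) h1
  have hZn := hZ n (by omega)
  have hZn1 := hZ (n + 1) (by omega)
  have hr0 := key n (by omega) hZn
  have hr1 := key (n + 1) le_rfl hZn1
  have e1 : Zg (D.F δ 0) (n + 2) = rg (D.F δ 0) (n + 1) * (rg (D.F δ 0) n * Zg (D.F δ 0) n) := by
    rw [← Zg_succ hF hZn]
    exact Zg_succ hF hZn1
  have hM := Mg_le_one hF hZn.ne' z
  have hM0 := Mg_nonneg hF n z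
  have hFz := hF.le_one z
  have hFz0 := hF.nonneg z
  unfold pp yy
  rw [e1]
  have hr0p : 0 < rg (D.F δ 0) n := by linarith
  have hr1p : 0 < rg (D.F δ 0) (n + 1) := by linarith
  have e2 : D.F δ 0 z * (Mg (D.F δ 0) n z * Zg (D.F δ 0) n /
      (rg (D.F δ 0) (n + 1) * (rg (D.F δ 0) n * Zg (D.F δ 0) n))) =
      D.F δ 0 z * Mg (D.F δ 0) n z / (rg (D.F δ 0) (n + 1) * rg (D.F δ 0) n) := by
    field_simp
  rw [e2, div_le_iff₀ (mul_pos hr1p hr0p)]
  have h1 : D.F δ 0 z * Mg (D.F δ 0) n z ≤ 1 := mul_le_one₀ hFz hM0 hM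
  have h2 : (1 - ε) * (1 - ε) ≤ rg (D.F δ 0) (n + 1) * rg (D.F δ 0) n :=
    mul_le_mul hr1 hr0 (by linarith) hr1p.le
  have h3 : 1 ≤ (1 + 4 * ε) * ((1 - ε) * (1 - ε)) := by
    have h4 : 0 ≤ ε * (2 - 7 * ε + 4 * ε ^ 2) := mul_nonneg hε0 (by linarith only [sq_nonneg ε, hI])
    linarith only [h4]
  calc D.F δ 0 z * Mg (D.F δ 0) n z ≤ 1 := h1
    _ ≤ (1 + 4 * ε) * ((1 - ε) * (1 - ε)) := h3
    _ ≤ (1 + 4 * ε) * (rg (D.F δ 0) (n + 1) * rg (D.F δ 0) n) :=
        mul_le_mul_of_nonneg_left h2 (by linarith)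

/-- `(U3.2)`: `∑_{p≠0} uh S_n ≤ ul 0 + 4 N I_c N u_0`. For `n = 1`, `S_1 = 1`. For `n ≥ 2`: `Hg_mean_anti` with `τ = 0`,
`⟨H⟩_{τ=0} = n (n-1) ∫ ul pp ≤ n (n-1) u_0 (1 + 4 n I_c)`, and `Hg_mean`: `n ∑ uh S = ⟨H⟩ - n(n-1) u_0 + n ∑_{p≠0} uh`. -/
theorem U32 {C : ℝ} (hC : 1 ≤ C) : ∃ q₀ : ℝ, 0 < q₀ ∧ ∀ (q a : ℝ) (N : ℕ) (D : Dat),
    D.GD C q a N → q ≤ q₀ → ∀ δ τ : ℝ, 0 ≤ δ → δ ≤ 1 → 0 ≤ τ → τ ≤ 1 →
      ∀ n, 1 ≤ n → n ≤ N → sm0 (fun p => D.uh p * Sg (D.F δ τ) n p) ∧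
        tsum0 (fun p => D.uh p * Sg (D.F δ τ) n p) ≤ 5 * C ^ 2 * q ^ 78 := by
  have hC0 : 0 < C := by linarith
  obtain ⟨q₁, hq₁, h31⟩ := U31 hC
  refine ⟨min q₁ (1 / (4 * C)), lt_min hq₁ (by positivity), ?_⟩
  intro q a N D h hq δ τ hδ hδ1 hτ hτ1 n hn hnN
  have hD := h.ok
  have hF := F_gas hD hδ hδ1 hτ
  have hF0 := F_gas hD hδ hδ1 (le_refl (0 : ℝ))
  have hq0 := h.q0
  have hq1 : q ≤ 1 := h.q1.trans (by norm_num)
  have hI0 := GH1_Ic_nonneg hD
  have hu0 := hD.uh_nonneg 0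
  have hqC : C * q ^ 240 ≤ 1 / 4 := by
    have h1 : q ^ 240 ≤ q := pow_le_of_le_one hq0.le hq1 (by norm_num)
    have h2 : q * (4 * C) ≤ 1 := by
      have := hq.trans (min_le_right _ _)
      rwa [le_div_iff₀ (by positivity)] at this
    have h3 := mul_le_mul_of_nonneg_left h1 hC0.le
    linarith only [h2, h3]
  have hZτ := (h31 q a N D h (hq.trans (min_le_left _ _)) δ τ hδ hδ1 hτ hτ1).1
  have hZ0 := (h31 q a N D h (hq.trans (min_le_left _ _)) δ 0 hδ hδ1 le_rfl zero_le_one).1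
  have hS0 : ∀ p, 0 ≤ Sg (D.F δ τ) n p := fun p => Sg_nonneg hF n p
  have hsm : Summable (fun p => D.uh p * Sg (D.F δ τ) n p) := by
    refine Summable.of_nonneg_of_le (fun p => mul_nonneg (hD.uh_nonneg p) (hS0 p)) (fun p => ?_)
      (hD.uh_summable.mul_right (n : ℝ))
    exact mul_le_mul_of_nonneg_left (Sg_le hF n p) (hD.uh_nonneg p)
  have hsmu : sm0 D.uh := sm0_of_summable hD.uh_summable
  refine ⟨sm0_of_summable hsm, ?_⟩
  have hq78 : 0 < q ^ 78 := by positivity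
  have hqq : q ^ 240 ≤ q ^ 78 := pow_le_pow_of_le_one hq0.le hq1 (by norm_num)
  have hCC : C ≤ C ^ 2 := by nlinarith only [hC]
  have h12 : C * q ^ 78 ≤ C ^ 2 * q ^ 78 := mul_le_mul_of_nonneg_right hCC hq78.le
  have hu : tsum0 D.uh ≤ C * q ^ 78 := by
    have h1 := tsum0_le_tsum hD.uh_summable hu0
    rw [← ul_zero hD] at h1
    exact h1.trans (h.ul_le 0)
  rcases Nat.lt_or_ge n 2 with hn2 | hn2
  · have hn1 : n = 1 := by omega
    subst hn1
    have h1 : tsum0 (fun p => D.uh p * Sg (D.F δ τ) 1 p) = tsum0 D.uh :=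
      tsum0_congr fun p _ => by rw [Sg_one, mul_one]
    rw [h1]
    have h13 : 0 ≤ C ^ 2 * q ^ 78 := by positivity
    linarith only [hu, h12, h13]
  obtain ⟨k, rfl⟩ : ∃ k, n = k + 2 := ⟨n - 2, by omega⟩
  have hZk := hZτ (k + 2) (by omega)
  have hZk0 := hZ0 (k + 2) (by omega)
  have hmean := Hg_mean hD hF (n := k + 2) (by omega) hZk.ne'
  have hanti := Hg_mean_anti hD hδ hδ1 (le_refl (0 : ℝ)) hτ hZk0 hZk
  have hsplit : tsum0 (fun p => D.uh p * (Sg (D.F δ τ) (k + 2) p - 1)) =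
      tsum0 (fun p => D.uh p * Sg (D.F δ τ) (k + 2) p) - tsum0 D.uh := by
    rw [← tsum0_sub (sm0_of_summable hsm) hsmu]
    exact tsum0_congr fun p _ => by ring
  rw [hsplit] at hmean
  -- core gas
  have hkN : ((k : ℝ) + 2) ≤ N := by exact_mod_cast hnN
  have hk0 : (0 : ℝ) ≤ k := Nat.cast_nonneg k
  set ε := ((k : ℝ) + 1) * ∫ z, (1 - D.Fc z) ∂lam3 with hε
  have hεC : ε ≤ C * q ^ 240 := by
    refine le_trans ?_ h.Ic
    exact mul_le_mul_of_nonneg_right (by linarith) hI0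
  have hε0 : 0 ≤ ε := mul_nonneg (by positivity) hI0
  have hulbm := ul_bm hD
  have hpp : ∫ z, D.ul z * pp (D.F δ 0) k z ∂lam3 ≤ (1 + 4 * ε) * D.uh 0 := by
    have h1 : ∀ z, D.ul z * pp (D.F δ 0) k z ≤ D.ul z * (1 + 4 * ε) := fun z =>
      mul_le_mul_of_nonneg_left (pp_core_le hD hδ hδ1 (hεC.trans hqC) z) (hD.ul_nonneg z)
    have h2 := integral_mono (μ := lam3) ((hulbm.mul (pp_bm hF0 k)).integrable _)
      ((hulbm.mul (BM.const (1 + 4 * ε))).integrable _) h1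
    rw [integral_mul_const, ul_int hD] at h2
    linarith
  have hE0 : Eg (D.F δ 0) (k + 2) (Hg D.ul) =
      (k + 2) * ((k + 1) * ∫ z, D.ul z * pp (D.F δ 0) k z ∂lam3) := by
    have hpb : ∀ i j : Fin (k + 2), BM (fun x : Fin (k + 2) → T3 => D.ul (x i - x j)) :=
      fun i j => hulbm.comp (measurable_sub' (measurable_pi_apply i) (measurable_pi_apply j))
    unfold Hg
    rw [Eg_sum hF0 Finset.univ (fun i _ => BM.finset_sum _ fun j _ => hpb i j)]
    have h2 : ∀ i : Fin (k + 2), Eg (D.F δ 0) (k + 2)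
        (fun x => ∑ j ∈ Finset.univ.erase i, D.ul (x i - x j)) =
        (k + 1) * ∫ z, D.ul z * pp (D.F δ 0) k z ∂lam3 := by
      intro i
      rw [Eg_sum hF0 (Finset.univ.erase i) (fun j _ => hpb i j)]
      have h3 : ∀ j ∈ Finset.univ.erase i, Eg (D.F δ 0) (k + 2) (fun x => D.ul (x i - x j)) =
          ∫ z, D.ul z * pp (D.F δ 0) k z ∂lam3 := fun j hj =>
        pair_pp hF0 k hZk0 hulbm i j (Finset.ne_of_mem_erase hj).symm
      rw [Finset.sum_congr rfl h3, Finset.sum_const, Finset.card_erase_of_mem (Finset.mem_univ i),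
        Finset.card_univ, Fintype.card_fin, nsmul_eq_mul]
      push_cast
      simp
    rw [Finset.sum_congr rfl fun i _ => h2 i, Finset.sum_const, Finset.card_univ,
      Fintype.card_fin, nsmul_eq_mul]
    push_cast
    ring
  rw [hE0] at hanti
  rw [hmean] at hanti
  push_cast at hanti
  set S := tsum0 (fun p => D.uh p * Sg (D.F δ τ) (k + 2) p) with hS
  set J := ∫ z, D.ul z * pp (D.F δ 0) k z ∂lam3 with hJ
  -- divide by `k + 2`
  have hk2 : (0 : ℝ) < k + 2 := by positivity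
  have h5 : ((k : ℝ) + 2) * ((k + 1) * D.uh 0 + (S - tsum0 D.uh)) ≤
      (k + 2) * ((k + 1) * J) := by
    have e : ((k : ℝ) + 2) * ((k + 1) * D.uh 0 + (S - tsum0 D.uh)) =
        (k + 2) * (k + 2 - 1) * D.uh 0 + (k + 2) * (S - tsum0 D.uh) := by ring
    rw [e]
    exact hanti
  have h6 := le_of_mul_le_mul_left h5 hk2
  have h7 : ((k : ℝ) + 1) * J ≤ (k + 1) * ((1 + 4 * ε) * D.uh 0) :=
    mul_le_mul_of_nonneg_left hpp (by positivity)
  have h8 : ((k : ℝ) + 1) * D.uh 0 ≤ C :=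
    (mul_le_mul_of_nonneg_right (by linarith) hu0).trans h.uh0
  have h9 : 0 ≤ ((k : ℝ) + 1) * D.uh 0 := mul_nonneg (by positivity) hu0
  have h10 : (((k : ℝ) + 1) * D.uh 0) * ε ≤ C * (C * q ^ 240) := mul_le_mul h8 hεC hε0 hC0.le
  have h11 : C * (C * q ^ 240) ≤ C ^ 2 * q ^ 78 := by
    have := mul_le_mul_of_nonneg_left hqq (show 0 ≤ C ^ 2 by positivity)
    linarith only [this]
  linarith only [h6, h7, h10, h11, hu, h12]

end Pool.Agent.Lib.MP_4952d6_mp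

end

/-! ### U.GH2 -/

section

set_option autoImplicit false
set_option linter.unusedSectionVars false
set_option linter.unusedVariables false
open MeasureTheory Function Filter Topology Set

namespace Pool.Agent.Lib.MP_4952d6_mp


/-! # GH2: crude bounds (U3), uniformly in `0 ≤ δ ≤ 1`, `0 ≤ τ ≤ 1`, `n ≤ N`

Write `F = D.F δ τ`, `I_c = ∫ (1 - Fc)` (`N I_c ≤ C q^240`), `u_0 = uh 0` (`N u_0 ≤ C`), `X = Xg ul`, `H = Hg ul`. -/

private lemma GH2_exp {x y : ℝ} (hx : 0 ≤ x) (hy : 0 ≤ y) :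
    |Real.exp (-x) - Real.exp (-y)| ≤ |x - y| := by
  have key : ∀ {s t : ℝ}, 0 ≤ s → s ≤ t → |Real.exp (-s) - Real.exp (-t)| ≤ |s - t| := by
    intro s t hs hst
    have h1 : Real.exp (-t) ≤ Real.exp (-s) := Real.exp_le_exp.2 (by linarith)
    rw [abs_of_nonneg (by linarith), abs_of_nonpos (by linarith)]
    have h2 : Real.exp (-t) = Real.exp (-s) * Real.exp (-(t - s)) := by
      rw [← Real.exp_add]; congr 1; ring
    have h3 := Real.add_one_le_exp (-(t - s))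
    have h4 : Real.exp (-s) ≤ 1 := Real.exp_le_one_iff.2 (by linarith)
    have h5 := Real.exp_pos (-s)
    rw [h2]
    nlinarith
  rcases le_total x y with h | h
  · exact key hx h
  · rw [abs_sub_comm (Real.exp (-x)), abs_sub_comm x]
    exact key hy h

private lemma GH2_Fc_bm {D : Dat} (hD : D.Ok) : BM (fun z => 1 - D.Fc z) :=
  (BM.const 1).sub (BM.of_mem_Icc (hD.Fc_WD 0).sm.measurable
    fun x => ⟨hD.Fc_nonneg x, hD.Fc_le x⟩)

private lemma GH2_Xg_bm {h : T3 → ℝ} (hh : BM h) (n : ℕ) :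
    BM (fun x : Fin n → T3 => Xg h x 0) := by
  refine BM.finset_sum _ fun j _ => ?_
  have hm0 : Measurable (fun x : Fin n → T3 => x j) := measurable_pi_apply j
  have hm : Measurable (fun x : Fin n → T3 => (0 : T3) - x j) := hm0.const_sub 0
  exact hh.comp hm

private lemma GH2_Xg_nonneg {h : T3 → ℝ} (hh : ∀ z, 0 ≤ h z) {n : ℕ} (x : Fin n → T3) :
    0 ≤ Xg h x 0 := Finset.sum_nonneg fun j _ => hh _

private lemma GH2_uh0_nonneg {C q a : ℝ} {N : ℕ} {D : Dat} (hG : D.GD C q a N) :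
    0 ≤ D.uh 0 := hG.ok.uh_nonneg 0

private lemma GH2_n_uh0 {C q a : ℝ} {N : ℕ} {D : Dat} (hG : D.GD C q a N) {n : ℕ}
    (hn : n ≤ N) : n * D.uh 0 ≤ C := by
  have h1 : (n : ℝ) ≤ N := Nat.cast_le.2 hn
  exact (mul_le_mul_of_nonneg_right h1 (GH2_uh0_nonneg hG)).trans hG.uh0

private lemma GH2_Ic_nonneg {D : Dat} (hD : D.Ok) : 0 ≤ ∫ z, (1 - D.Fc z) ∂lam3 :=
  integral_nonneg fun z => sub_nonneg.2 (hD.Fc_le z)

private lemma GH2_n_Ic {C q a : ℝ} {N : ℕ} {D : Dat} (hG : D.GD C q a N) {n : ℕ}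
    (hn : n ≤ N) : n * ∫ z, (1 - D.Fc z) ∂lam3 ≤ C * q ^ 240 := by
  have h1 : (n : ℝ) ≤ N := Nat.cast_le.2 hn
  exact (mul_le_mul_of_nonneg_right h1 (GH2_Ic_nonneg hG.ok)).trans hG.Ic

private lemma GH2_q {C q a : ℝ} {N : ℕ} {D : Dat} (hG : D.GD C q a N) :
    C * q ^ 240 ≤ C * q ^ 78 := by
  have hq0 := hG.q0
  have hq1 := hG.q1
  have h1 : q ^ 240 ≤ q ^ 78 := pow_le_pow_of_le_one hq0.le (by linarith) (by norm_num)
  exact mul_le_mul_of_nonneg_left h1 (by linarith [hG.C1])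

private lemma GH2_pt {A e c s X m τ : ℝ} (hA0 : 0 ≤ A) (hA1 : A ≤ 1) (he0 : 0 ≤ e) (he1 : e ≤ 1)
    (hs : 1 - A ≤ s) (hec : |e - c| ≤ |2 * τ * X - 2 * τ * m|) (hτ : 0 ≤ τ) (hτ1 : τ ≤ 1) :
    (A * e - c) ^ 2 ≤ 2 * s + 8 * (X - m) ^ 2 := by
  have h1 : (A * e - c) ^ 2 ≤ 2 * ((A - 1) * e) ^ 2 + 2 * (e - c) ^ 2 := by
    nlinarith [sq_nonneg ((A - 1) * e - (e - c))]
  have h2 : ((A - 1) * e) ^ 2 ≤ s := by
    have h3 : e ^ 2 ≤ 1 := by nlinarith
    have h4 : (A - 1) ^ 2 ≤ 1 - A := by nlinarith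
    have h5 : ((A - 1) * e) ^ 2 ≤ (A - 1) ^ 2 := by
      rw [mul_pow]
      nlinarith [sq_nonneg (A - 1)]
    linarith
  have h6 : (e - c) ^ 2 ≤ 4 * (X - m) ^ 2 := by
    have h7 := pow_le_pow_left₀ (abs_nonneg _) hec 2
    rw [sq_abs, sq_abs] at h7
    have h8 : (2 * τ * X - 2 * τ * m) ^ 2 = 4 * τ ^ 2 * (X - m) ^ 2 := by ring
    rw [h8] at h7
    have h9 : τ ^ 2 ≤ 1 := by nlinarith
    nlinarith [sq_nonneg (X - m)]
  linarith

/-- `(U3.3)`: `Var X = n ∑ uh² S ≤ n u_0 ∑ uh S ≤ 5 C³ q^78` (`Xg_var`, `uh ≤ u_0`). -/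
theorem U33 {C : ℝ} (hC : 1 ≤ C) : ∃ q₀ : ℝ, 0 < q₀ ∧ ∀ (q a : ℝ) (N : ℕ) (D : Dat),
    D.GD C q a N → q ≤ q₀ → ∀ δ τ : ℝ, 0 ≤ δ → δ ≤ 1 → 0 ≤ τ → τ ≤ 1 →
      ∀ n, n ≤ N → Eg (D.F δ τ) n (fun x => (Xg D.ul x 0 - n * D.uh 0) ^ 2)
        ≤ 5 * C ^ 3 * q ^ 78 := by
  obtain ⟨q1, hq1, H1⟩ := U31 hC
  obtain ⟨q2, hq2, H2⟩ := U32 hC
  refine ⟨min q1 q2, lt_min hq1 hq2, ?_⟩
  intro q a N D hG hq δ τ hδ hδ1 hτ hτ1 n hn
  have hGas := F_gas hG.ok hδ hδ1 hτ
  obtain ⟨hZ, hr⟩ := H1 q a N D hG (hq.trans (min_le_left _ _)) δ τ hδ hδ1 hτ hτ1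
  have hq0 := hG.q0
  rcases Nat.eq_zero_or_pos n with h0 | h1
  · subst h0
    have e : (fun x : Fin 0 → T3 => (Xg D.ul x 0 - ((0 : ℕ) : ℝ) * D.uh 0) ^ 2)
        = fun _ => (0 : ℝ) := by
      ext x
      simp [Xg]
    rw [e, Eg_const (hZ 0 (Nat.zero_le _)).ne']
    positivity
  · obtain ⟨hs, hle⟩ := H2 q a N D hG (hq.trans (min_le_right _ _)) δ τ hδ hδ1 hτ hτ1 n h1 hn
    rw [Xg_var hG.ok hGas h1 (hZ n (by omega)).ne']
    have hS : ∀ p, 0 ≤ Sg (D.F δ τ) n p := Sg_nonneg hGas n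
    have hu : ∀ p, 0 ≤ D.uh p := hG.ok.uh_nonneg
    have hpt : ∀ p, D.uh p ^ 2 * Sg (D.F δ τ) n p
        ≤ D.uh 0 * (D.uh p * Sg (D.F δ τ) n p) := by
      intro p
      have h2 := mul_le_mul_of_nonneg_right (hG.uh_le p) (mul_nonneg (hu p) (hS p))
      linarith [h2, show D.uh p * (D.uh p * Sg (D.F δ τ) n p)
        = D.uh p ^ 2 * Sg (D.F δ τ) n p by ring]
    have hs1 := hs.const_mul (D.uh 0)
    have hs2 : sm0 (fun p => D.uh p ^ 2 * Sg (D.F δ τ) n p) := by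
      unfold sm0 at hs1 ⊢
      refine Summable.of_nonneg_of_le (fun p => ?_) (fun p => ?_) hs1
      · split_ifs
        · exact le_rfl
        · exact mul_nonneg (sq_nonneg _) (hS p)
      · split_ifs
        · exact le_rfl
        · exact hpt p
    have h3 := tsum0_mono hs2 hs1 (fun p _ => hpt p)
    rw [tsum0_const_mul] at h3
    have h4 := mul_le_mul_of_nonneg_left h3 (Nat.cast_nonneg (α := ℝ) n)
    refine h4.trans ?_
    have h5 : 0 ≤ tsum0 fun p => D.uh p * Sg (D.F δ τ) n p :=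
      tsum0_nonneg fun p _ => mul_nonneg (hu p) (hS p)
    have h6 := GH2_n_uh0 hG hn
    calc (n : ℝ) * (D.uh 0 * tsum0 fun p => D.uh p * Sg (D.F δ τ) n p)
        = (n * D.uh 0) * tsum0 fun p => D.uh p * Sg (D.F δ τ) n p := by ring
      _ ≤ C * (5 * C ^ 2 * q ^ 78) :=
          mul_le_mul h6 hle h5 (by linarith)
      _ = 5 * C ^ 3 * q ^ 78 := by ring

/-- `(U3.4)`: with `c = exp(-2τ n u_0)`: `(A - c)² ≤ 2 (1 - A_c)² + 2 (e^{-2τX} - c)² ≤ 2 ∑(1-Fc) + 8 τ² (X - n u_0)²`, so by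
`Mg_sub_sq`: `|M_n(z) - r_n²| ≤ 2 n I_c + 8 Var X ≤ 42 C³ q^78`. -/
theorem U34 {C : ℝ} (hC : 1 ≤ C) : ∃ q₀ : ℝ, 0 < q₀ ∧ ∀ (q a : ℝ) (N : ℕ) (D : Dat),
    D.GD C q a N → q ≤ q₀ → ∀ δ τ : ℝ, 0 ≤ δ → δ ≤ 1 → 0 ≤ τ → τ ≤ 1 →
      ∀ n, n ≤ N → ∀ z, |Mg (D.F δ τ) n z - rg (D.F δ τ) n ^ 2| ≤ 42 * C ^ 3 * q ^ 78 := by
  obtain ⟨q1, hq1, H1⟩ := U31 hC
  obtain ⟨q2, hq2, H2⟩ := U33 hC
  refine ⟨min q1 q2, lt_min hq1 hq2, ?_⟩
  intro q a N D hG hq δ τ hδ hδ1 hτ hτ1 n hn z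
  have hGas := F_gas hG.ok hδ hδ1 hτ
  obtain ⟨hZ, hr⟩ := H1 q a N D hG (hq.trans (min_le_left _ _)) δ τ hδ hδ1 hτ hτ1
  have hV := H2 q a N D hG (hq.trans (min_le_right _ _)) δ τ hδ hδ1 hτ hτ1 n hn
  have hq0 := hG.q0
  have hZn := hZ n (by omega)
  have hu0 := GH2_uh0_nonneg hG
  set c := Real.exp (-(2 * τ * (n * D.uh 0))) with hc
  refine (Mg_sub_sq hGas hZn.ne' z c).trans ?_
  have hpt : ∀ x : Fin n → T3, (Ag (D.F δ τ) x 0 - c) ^ 2
      ≤ 2 * Xg (fun z => 1 - D.Fc z) x 0 + 8 * (Xg D.ul x 0 - n * D.uh 0) ^ 2 := by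
    intro x
    have h1 := one_sub_Ag_Fr hG.ok hδ hδ1 x 0
    have hX : 0 ≤ Xg D.ul x 0 := GH2_Xg_nonneg hG.ok.ul_nonneg x
    have hA0 : 0 ≤ Ag (D.Fr δ) x 0 :=
      Finset.prod_nonneg fun j _ => hδ.trans (Fr_bounds hG.ok hδ hδ1 _).1
    rw [Ag_F hG.ok]
    refine GH2_pt hA0 (by linarith [h1.1]) (Real.exp_pos _).le
      (Real.exp_le_one_iff.2 (by have := mul_nonneg hτ hX; linarith)) h1.2 ?_ hτ hτ1
    exact GH2_exp (by positivity) (by positivity)
  have b1 : BM (fun x : Fin n → T3 => (Ag (D.F δ τ) x 0 - c) ^ 2) :=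
    (((Ag_bm hGas n).comp (measurable_id.prodMk measurable_const)).sub (BM.const c)).pow 2
  have b2 : BM (fun x : Fin n → T3 => 2 * Xg (fun z => 1 - D.Fc z) x 0) :=
    (GH2_Xg_bm (GH2_Fc_bm hG.ok) n).const_mul 2
  have b3 : BM (fun x : Fin n → T3 => 8 * (Xg D.ul x 0 - n * D.uh 0) ^ 2) :=
    (((Xg_bm hG.ok n 0).sub (BM.const _)).pow 2).const_mul 8
  refine (Eg_mono hGas b1 (b2.add b3) hpt).trans ?_
  rw [Eg_add hGas b2 b3, Eg_const_mul, Eg_const_mul, Eg_Xg hGas hZn.ne' (GH2_Fc_bm hG.ok) 0]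
  have h2 := GH2_n_Ic hG hn
  have h3 := GH2_q hG
  have h4 : C * q ^ 78 ≤ C ^ 3 * q ^ 78 := by
    refine mul_le_mul_of_nonneg_right ?_ (by positivity)
    nlinarith [mul_nonneg (sub_nonneg.2 hC) (sub_nonneg.2 hC)]
  linarith

private lemma GH2_int_F {C q a : ℝ} {N : ℕ} {D : Dat} (hG : D.GD C q a N) {δ τ : ℝ}
    (hδ : 0 ≤ δ) (hδ1 : δ ≤ 1) (hτ : 0 ≤ τ) (hτ1 : τ ≤ 1) (hN : 1 ≤ N) :
    ∫ z, (1 - D.F δ τ z) ∂lam3 ≤ 3 * C * q ^ 78 := by
  have hGas := F_gas hG.ok hδ hδ1 hτ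
  have hu := ul_bm hG.ok
  have hF := hGas.bm
  have hc := GH2_Fc_bm hG.ok
  have hpt : ∀ z, 1 - D.F δ τ z ≤ (1 - D.Fc z) + 2 * D.ul z := by
    intro z
    have h1 := one_sub_Fr hG.ok hδ hδ1 z
    have h2 := Fr_bounds hG.ok hδ hδ1 z
    have h3 := hG.ok.ul_nonneg z
    have h4 := Real.add_one_le_exp (-(2 * τ * D.ul z))
    have h5 : Real.exp (-(2 * τ * D.ul z)) ≤ 1 := Real.exp_le_one_iff.2 (by
      have := mul_nonneg hτ h3
      linarith)
    have h6 : D.F δ τ z = D.Fr δ z * Real.exp (-(2 * τ * D.ul z)) := rfl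
    have h7 := Real.exp_pos (-(2 * τ * D.ul z))
    have h8 : τ * D.ul z ≤ D.ul z := by nlinarith
    rw [h6]
    nlinarith
  have h1 : ∫ z, (1 - D.F δ τ z) ∂lam3 ≤ ∫ z, ((1 - D.Fc z) + 2 * D.ul z) ∂lam3 :=
    integral_mono (((BM.const 1).sub hF).integrable _)
      ((hc.add (hu.const_mul 2)).integrable _) hpt
  have h2 : ∫ z, ((1 - D.Fc z) + 2 * D.ul z) ∂lam3
      = (∫ z, (1 - D.Fc z) ∂lam3) + 2 * D.uh 0 := by
    rw [integral_add (hc.integrable _) ((hu.const_mul 2).integrable _), integral_const_mul,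
      ul_int hG.ok]
  have h3 : D.uh 0 ≤ C * q ^ 78 := by
    rw [← ul_int hG.ok]
    have h4 : ∫ z, D.ul z ∂lam3 ≤ ∫ _z : T3, C * q ^ 78 ∂lam3 :=
      integral_mono (hu.integrable _) (integrable_const _) hG.ul_le
    simpa using h4
  have h4 := GH2_n_Ic hG hN
  have h5 := GH2_q hG
  rw [Nat.cast_one, one_mul] at h4
  linarith

/-- `(U3.5)`: `Z_{n+2} = Z_n ∫ F M_n`, `r_n² - ∫(1-F) ≤ ∫ F M_n ≤ r_n² + 42 C³ q^78` (`Mg_int_ge`), `∫(1-F) ≤ 2 u_0 + I_c ≤ 3 C q^78`. -/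
theorem U35 {C : ℝ} (hC : 1 ≤ C) : ∃ K q₀ : ℝ, 1 ≤ K ∧ 0 < q₀ ∧ ∀ (q a : ℝ) (N : ℕ) (D : Dat),
    D.GD C q a N → q ≤ q₀ → ∀ δ τ : ℝ, 0 ≤ δ → δ ≤ 1 → 0 ≤ τ → τ ≤ 1 →
      ∀ n, n + 2 ≤ N → ∀ z, |yy (D.F δ τ) n z - 1| ≤ K * q ^ 78 := by
  obtain ⟨q1, hq1, H1⟩ := U31 hC
  obtain ⟨q2, hq2, H2⟩ := U34 hC
  set b : ℝ := Real.exp (-(2 * C)) / 2 with hb
  have hb0 : 0 < b := by positivity
  have hC0 : 0 < C := by linarith
  refine ⟨1 + 168 * C ^ 3 / b ^ 2, min (min q1 q2) (b ^ 2 / (6 * C)), ?_, ?_, ?_⟩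
  · have : 0 ≤ 168 * C ^ 3 / b ^ 2 := by positivity
    linarith
  · exact lt_min (lt_min hq1 hq2) (by positivity)
  intro q a N D hG hq δ τ hδ hδ1 hτ hτ1 n hn z
  have hGas := F_gas hG.ok hδ hδ1 hτ
  have hqa := hq.trans (min_le_left _ _)
  have hqb := hq.trans (min_le_right _ _)
  obtain ⟨hZ, hr⟩ := H1 q a N D hG (hqa.trans (min_le_left _ _)) δ τ hδ hδ1 hτ hτ1
  have hM := H2 q a N D hG (hqa.trans (min_le_right _ _)) δ τ hδ hδ1 hτ hτ1 n (by omega)
  have hrn : b ≤ rg (D.F δ τ) n := hr n (by omega)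
  have hZn := hZ n (by omega)
  have hZ2 := hZ (n + 2) (by omega)
  have hq0 := hG.q0
  have hqh := hG.q1
  have hMb := Mg_bm hGas n
  have hM0 := Mg_nonneg hGas n
  have hM1 := Mg_le_one hGas hZn.ne'
  set F := D.F δ τ with hF
  set I : ℝ := ∫ z, F z * Mg F n z ∂lam3 with hI
  have hpp := pp_int hGas n hZ2
  have hZI : Zg F (n + 2) = Zg F n * I := by
    have e : ∫ z, pp F n z ∂lam3 = I * (Zg F n / Zg F (n + 2)) := by
      rw [hI, ← integral_mul_const]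
      refine integral_congr_ae (Eventually.of_forall fun z => ?_)
      simp only [pp, yy]
      ring
    rw [e] at hpp
    field_simp at hpp
    linarith
  have hyy : ∀ z, yy F n z * I = Mg F n z := by
    intro z
    have hI0 : I ≠ 0 := by
      intro h0
      rw [h0, mul_zero] at hZI
      exact hZ2.ne' hZI
    unfold yy
    rw [hZI]
    field_simp
  set ε : ℝ := 42 * C ^ 3 * q ^ 78 with hε
  have hFM : BM (fun z => F z * Mg F n z) := hGas.bm.mul hMb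
  have hIup : I ≤ rg F n ^ 2 + ε := by
    have h1 : I ≤ ∫ _z : T3, (rg F n ^ 2 + ε) ∂lam3 := by
      refine integral_mono (hFM.integrable _) (integrable_const _) fun z => ?_
      have h2 := (abs_le.1 (hM z)).2
      have h3 := mul_le_mul_of_nonneg_right (hGas.le_one z) (hM0 z)
      simp only
      linarith
    simpa using h1
  have hIlo : rg F n ^ 2 - 3 * C * q ^ 78 ≤ I := by
    have h1 := Mg_int_ge hGas hZn.ne'
    have h2 := GH2_int_F hG hδ hδ1 hτ hτ1 (by omega)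
    have h3 : ∫ z, Mg F n z ∂lam3 ≤ ∫ z, (F z * Mg F n z + (1 - F z)) ∂lam3 := by
      refine integral_mono (hMb.integrable _)
        ((hFM.add ((BM.const 1).sub hGas.bm)).integrable _) fun z => ?_
      have h4 := hM1 z
      have h5 := hGas.le_one z
      simp only
      nlinarith
    rw [integral_add (hFM.integrable _) (((BM.const 1).sub hGas.bm).integrable _)] at h3
    linarith
  have hq78 : q ^ 78 ≤ q := by
    have := pow_le_pow_of_le_one hq0.le (by linarith : q ≤ 1) (show 1 ≤ 78 by norm_num)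
    simpa using this
  have h3C : 3 * C * q ^ 78 ≤ b ^ 2 / 2 := by
    have h1 : 3 * C * q ^ 78 ≤ 3 * C * (b ^ 2 / (6 * C)) :=
      mul_le_mul_of_nonneg_left (hq78.trans hqb) (by positivity)
    refine h1.trans (le_of_eq ?_)
    field_simp
    ring
  have hr2 : b ^ 2 ≤ rg F n ^ 2 := pow_le_pow_left₀ hb0.le hrn 2
  have hIb : b ^ 2 / 2 ≤ I := by linarith
  have hI0 : 0 < I := by
    have : 0 < b ^ 2 / 2 := by positivity
    linarith
  have h3ε : 3 * C * q ^ 78 ≤ ε := by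
    have h4 : C * q ^ 78 ≤ C ^ 3 * q ^ 78 := by
      refine mul_le_mul_of_nonneg_right ?_ (by positivity)
      nlinarith [mul_nonneg (sub_nonneg.2 hC) (sub_nonneg.2 hC)]
    have h5 : 0 ≤ C ^ 3 * q ^ 78 := by positivity
    rw [hε]
    linarith
  have hdiff : |Mg F n z - I| ≤ 2 * ε := by
    have h1 := abs_le.1 (hM z)
    rw [abs_le]
    constructor <;> linarith [h1.1, h1.2]
  have h6 : |yy F n z - 1| * I ≤ 2 * ε := by
    have e : |yy F n z - 1| * I = |Mg F n z - I| := by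
      conv_lhs => rw [← abs_of_pos hI0]
      rw [← abs_mul, sub_mul, hyy z, one_mul]
    rw [e]
    exact hdiff
  have h7 : |yy F n z - 1| * (b ^ 2 / 2) ≤ 2 * ε :=
    (mul_le_mul_of_nonneg_left hIb (abs_nonneg _)).trans h6
  have h8 : |yy F n z - 1| ≤ 168 * C ^ 3 / b ^ 2 * q ^ 78 := by
    rw [div_mul_eq_mul_div, le_div_iff₀ (by positivity)]
    rw [hε] at h7
    linarith
  refine h8.trans (mul_le_mul_of_nonneg_right (by linarith) (by positivity))

end Pool.Agent.Lib.MP_4952d6_mp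

end

/-! ### U.GH3 -/

section

set_option autoImplicit false
set_option linter.unusedSectionVars false
set_option linter.unusedVariables false
open MeasureTheory Function Filter Topology Set

namespace Pool.Agent.Lib.MP_4952d6_mp


/-! # GH3: crude bounds (U3), uniformly in `0 ≤ δ ≤ 1`, `0 ≤ τ ≤ 1`, `n ≤ N`

Write `F = D.F δ τ`, `I_c = ∫ (1 - Fc)` (`N I_c ≤ C q^240`), `u_0 = uh 0` (`N u_0 ≤ C`), `X = Xg ul`, `H = Hg ul`. -/

/-- All crude bounds with one constant `K`. -/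
structure GasOK (K q a : ℝ) (N : ℕ) (D : Dat) : Prop where
  gd : D.GD K q a N
  small : K ^ 20 * q ≤ 1 / 1000
  Zpos : ∀ δ τ : ℝ, 0 ≤ δ → δ ≤ 1 → 0 ≤ τ → τ ≤ 1 → ∀ n, n ≤ N + 1 → 0 < Zg (D.F δ τ) n
  rge : ∀ δ τ : ℝ, 0 ≤ δ → δ ≤ 1 → 0 ≤ τ → τ ≤ 1 → ∀ n, n ≤ N → 1 / K ≤ rg (D.F δ τ) n
  uS : ∀ δ τ : ℝ, 0 ≤ δ → δ ≤ 1 → 0 ≤ τ → τ ≤ 1 → ∀ n, 1 ≤ n → n ≤ N →
    sm0 (fun p => D.uh p * Sg (D.F δ τ) n p) ∧
      tsum0 (fun p => D.uh p * Sg (D.F δ τ) n p) ≤ K * q ^ 78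
  varX : ∀ δ τ : ℝ, 0 ≤ δ → δ ≤ 1 → 0 ≤ τ → τ ≤ 1 → ∀ n, n ≤ N →
    Eg (D.F δ τ) n (fun x => (Xg D.ul x 0 - n * D.uh 0) ^ 2) ≤ K * q ^ 78
  yy1 : ∀ δ τ : ℝ, 0 ≤ δ → δ ≤ 1 → 0 ≤ τ → τ ≤ 1 → ∀ n, n + 2 ≤ N → ∀ z,
    |yy (D.F δ τ) n z - 1| ≤ K * q ^ 78

/-- `GD` is monotone in the constant. -/
theorem GD_mono {C K q a : ℝ} {N : ℕ} {D : Dat} (h : D.GD C q a N) (hCK : C ≤ K) :
    D.GD K q a N := by
  have hq := h.q0
  have ha := h.a0
  have hr : ∀ z : T3, 0 ≤ rr z := rr_nonneg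
  have h1 : C * a ≤ K * a := mul_le_mul_of_nonneg_right hCK ha.le
  have h2 : C * q ^ 78 ≤ K * q ^ 78 := mul_le_mul_of_nonneg_right hCK (by positivity)
  have h3 : C * q ^ 200 ≤ K * q ^ 200 := mul_le_mul_of_nonneg_right hCK (by positivity)
  have h4 : C * a / q ≤ K * a / q := div_le_div_of_nonneg_right h1 hq.le
  have h5 : C * a ^ 2 / q ^ 200 ≤ K * a ^ 2 / q ^ 200 :=
    div_le_div_of_nonneg_right (mul_le_mul_of_nonneg_right hCK (by positivity)) (by positivity)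
  have h6 : C * a * q ^ 78 ≤ K * a * q ^ 78 := mul_le_mul_of_nonneg_right h1 (by positivity)
  have h7 : C * a ^ 2 * q ^ 110 / q ^ 200 ≤ K * a ^ 2 * q ^ 110 / q ^ 200 :=
    div_le_div_of_nonneg_right (mul_le_mul_of_nonneg_right
      (mul_le_mul_of_nonneg_right hCK (by positivity)) (by positivity)) (by positivity)
  have h8 : C * q ^ 240 ≤ K * q ^ 240 := mul_le_mul_of_nonneg_right hCK (by positivity)
  exact
    { ok := h.ok
      C1 := h.C1.trans hCK
      q0 := h.q0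
      q1 := h.q1
      a0 := h.a0
      hN := h.hN
      Nq := h.Nq
      uh0 := h.uh0.trans hCK
      uh_le := h.uh_le
      uh_ksq := fun p => (h.uh_ksq p).trans h1
      ul_le := fun x => (h.ul_le x).trans h2
      uh_sq := h.uh_sq.trans h3
      uh_inv := ⟨h.uh_inv.1, h.uh_inv.2.trans h4⟩
      uh_cos := fun z => (h.uh_cos z).trans (mul_le_mul_of_nonneg_right h1 (hr z))
      d1 := fun α => (h.d1 α).trans h5
      d2 := fun α => (h.d2 α).trans h6
      dd := fun α β => (h.dd α β).trans h5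
      ddc := fun α β => (h.ddc α β).trans h7
      Ic := h.Ic.trans h8
      Kint := h.Kint.trans h7 }

theorem PB_mono {C K q a : ℝ} {N : ℕ} {D : Dat} {ψ : T3 → ℝ} {ph : (Fin 3 → ℤ) → ℝ}
    (h : Dat.PB C q a N D ψ ph) (hg : D.GD C q a N) (hCK : C ≤ K) :
    Dat.PB K q a N D ψ ph := by
  have hq := hg.q0
  have ha := hg.a0
  have h1 : C * a * q ^ 2 / q ^ 200 ≤ K * a * q ^ 2 / q ^ 200 :=
    div_le_div_of_nonneg_right (mul_le_mul_of_nonneg_right
      (mul_le_mul_of_nonneg_right hCK ha.le) (by positivity)) (by positivity)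
  have h2 : C * q ^ 300 ≤ K * q ^ 300 := mul_le_mul_of_nonneg_right hCK (by positivity)
  have h3 : C * q ^ 198 ≤ K * q ^ 198 := mul_le_mul_of_nonneg_right hCK (by positivity)
  have h4 : C * N / q ^ 4 ≤ K * N / q ^ 4 :=
    div_le_div_of_nonneg_right (mul_le_mul_of_nonneg_right hCK (Nat.cast_nonneg N)) (by positivity)
  exact
    { bm := h.bm
      nonneg := h.nonneg
      ph_nonneg := h.ph_nonneg
      ph_le := h.ph_le
      ph_zero := h.ph_zero
      ph_summable := h.ph_summable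
      hasSum := h.hasSum
      ph_uh := fun p => (h.ph_uh p).trans (mul_le_mul_of_nonneg_right h4 (hg.ok.uh_nonneg p))
      m1 := h.m1.trans h1
      mc := h.mc.trans h2
      mu := h.mu.trans h3 }

/-- Collect. -/
theorem gasOK {C : ℝ} (hC : 1 ≤ C) : ∃ K q₀ : ℝ, C ≤ K ∧ 0 < q₀ ∧
    ∀ (q a : ℝ) (N : ℕ) (D : Dat), D.GD C q a N → q ≤ q₀ → GasOK K q a N D := by
  obtain ⟨q1, hq1, h1⟩ := U31 hC
  obtain ⟨q2, hq2, h2⟩ := U32 hC
  obtain ⟨q3, hq3, h3⟩ := U33 hC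
  obtain ⟨K5, q5, hK5, hq5, h5⟩ := U35 hC
  have he : 0 < Real.exp (2 * C) := Real.exp_pos _
  have hC0 : 0 ≤ C := by linarith
  have hC2 : 0 ≤ C ^ 2 := by positivity
  have hC3 : 0 ≤ C ^ 3 := by positivity
  obtain ⟨K, hK⟩ : ∃ K, K = C + 2 * Real.exp (2 * C) + 5 * C ^ 2 + 5 * C ^ 3 + K5 := ⟨_, rfl⟩
  have kC : C ≤ K := by rw [hK]; linarith
  have kE : 2 * Real.exp (2 * C) ≤ K := by rw [hK]; linarith
  have k2 : 5 * C ^ 2 ≤ K := by rw [hK]; linarith
  have k3 : 5 * C ^ 3 ≤ K := by rw [hK]; linarith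
  have k5 : K5 ≤ K := by rw [hK]; linarith
  have kp : 0 < K := by linarith
  refine ⟨K, min q1 (min q2 (min q3 (min q5 (1 / (1000 * K ^ 20))))), kC, by positivity, ?_⟩
  intro q a N D hD hq
  have g1 : q ≤ q1 := hq.trans (min_le_left _ _)
  have hq' := hq.trans (min_le_right _ _)
  have g2 : q ≤ q2 := hq'.trans (min_le_left _ _)
  have hq2a := hq'.trans (min_le_right _ _)
  have g3 : q ≤ q3 := hq2a.trans (min_le_left _ _)
  have hq3 := hq2a.trans (min_le_right _ _)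
  have g5 : q ≤ q5 := hq3.trans (min_le_left _ _)
  have g6 : q ≤ 1 / (1000 * K ^ 20) := hq3.trans (min_le_right _ _)
  have hq0 := hD.q0
  refine ⟨GD_mono hD kC, ?_, ?_, ?_, ?_, ?_, ?_⟩
  · have hk : 0 < K ^ 20 := by positivity
    calc K ^ 20 * q ≤ K ^ 20 * (1 / (1000 * K ^ 20)) := mul_le_mul_of_nonneg_left g6 hk.le
      _ = 1 / 1000 := by field_simp
  · intro δ τ d0 d1 t0 t1
    exact (h1 q a N D hD g1 δ τ d0 d1 t0 t1).1
  · intro δ τ d0 d1 t0 t1 n hn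
    refine le_trans ?_ ((h1 q a N D hD g1 δ τ d0 d1 t0 t1).2 n hn)
    have e1 : Real.exp (-(2 * C)) / 2 = 1 / (2 * Real.exp (2 * C)) := by
      rw [Real.exp_neg]
      field_simp
    rw [e1]
    exact one_div_le_one_div_of_le (by positivity) kE
  · intro δ τ d0 d1 t0 t1 n hn1 hn
    obtain ⟨a1, a2⟩ := h2 q a N D hD g2 δ τ d0 d1 t0 t1 n hn1 hn
    exact ⟨a1, a2.trans (mul_le_mul_of_nonneg_right k2 (by positivity))⟩
  · intro δ τ d0 d1 t0 t1 n hn
    exact (h3 q a N D hD g3 δ τ d0 d1 t0 t1 n hn).trans (mul_le_mul_of_nonneg_right k3 (by positivity))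
  · intro δ τ d0 d1 t0 t1 n hn z
    exact (h5 q a N D hD g5 δ τ d0 d1 t0 t1 n hn z).trans
      (mul_le_mul_of_nonneg_right k5 (by positivity))

/-- The partition functions are positive. -/
theorem Zg_pos_of_GD {C : ℝ} (hC : 1 ≤ C) : ∃ q₀ : ℝ, 0 < q₀ ∧ ∀ (q a : ℝ) (N : ℕ) (D : Dat),
    D.GD C q a N → q ≤ q₀ → ∀ n ≤ N, 0 < Zg (D.F 0 1) n := by
  obtain ⟨q1, hq1, h1⟩ := U31 hC
  refine ⟨q1, hq1, fun q a N D hD hq n hn => ?_⟩
  exact (h1 q a N D hD hq 0 1 le_rfl zero_le_one zero_le_one le_rfl).1 n (by omega)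

end Pool.Agent.Lib.MP_4952d6_mp

end

/-! ### U.GO1 -/

section

set_option autoImplicit false
set_option linter.unusedSectionVars false
set_option linter.unusedVariables false
open MeasureTheory Function Filter Topology Set ComplexConjugate

namespace Pool.Agent.Lib.MP_4952d6_mp


/-! # GO1: smooth truncation and the test function (U4.4), first part

`Tr s y = y s² / (s² + y²)`, `Tr' = s² (s² - y²)/(s² + y²)²`, `1 - Tr' = y² (3 s² + y²)/(s² + y²)²` in `[0, 3 y²/(s²+y²)]`, so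
`0 ≤ 1 - Tr' ≤ 3 y²/(s²+y²)` and `(1 - Tr')² ≤ 9 y²/s²`... (use `y²/(s²+y²) ≤ 1` once and `≤ y²/s²` once). -/

noncomputable def Tr (s y : ℝ) : ℝ := y * s ^ 2 / (s ^ 2 + y ^ 2)

noncomputable def Tr' (s y : ℝ) : ℝ := s ^ 2 * (s ^ 2 - y ^ 2) / (s ^ 2 + y ^ 2) ^ 2

theorem GO1_pos {s : ℝ} (hs : 0 < s) (y : ℝ) : 0 < s ^ 2 + y ^ 2 := by positivity

theorem Tr_hasDerivAt {s : ℝ} (hs : 0 < s) (y : ℝ) : HasDerivAt (Tr s) (Tr' s y) y := by
  have hp := GO1_pos hs y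
  have h1 : HasDerivAt (fun y : ℝ => y * s ^ 2) (1 * s ^ 2) y := (hasDerivAt_id y).mul_const (s ^ 2)
  have h2 : HasDerivAt (fun y : ℝ => s ^ 2 + y ^ 2) (2 * y) y := by
    have := (hasDerivAt_pow 2 y).const_add (s ^ 2)
    simpa using this
  have h3 := h1.div h2 hp.ne'
  have e : (1 * s ^ 2 * (s ^ 2 + y ^ 2) - y * s ^ 2 * (2 * y)) / (s ^ 2 + y ^ 2) ^ 2 = Tr' s y := by
    unfold Tr'
    congr 1
    ring
  rw [e] at h3
  exact h3

theorem GO1_abs {s : ℝ} (hs : 0 < s) (y : ℝ) : |Tr s y| = |y| * s ^ 2 / (s ^ 2 + y ^ 2) := by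
  unfold Tr
  rw [abs_div, abs_mul, abs_of_pos (GO1_pos hs y), abs_of_nonneg (sq_nonneg s)]

theorem abs_Tr_le {s : ℝ} (hs : 0 < s) (y : ℝ) : |Tr s y| ≤ |y| := by
  rw [GO1_abs hs, div_le_iff₀ (GO1_pos hs y)]
  have := mul_nonneg (abs_nonneg y) (sq_nonneg y)
  nlinarith

theorem abs_Tr_le' {s : ℝ} (hs : 0 < s) (y : ℝ) : |Tr s y| ≤ s / 2 := by
  rw [GO1_abs hs, div_le_iff₀ (GO1_pos hs y)]
  have h1 : 0 ≤ (s - |y|) ^ 2 := sq_nonneg _
  have h2 : |y| ^ 2 = y ^ 2 := sq_abs y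
  nlinarith [mul_nonneg hs.le h1]

theorem abs_Tr'_le {s : ℝ} (hs : 0 < s) (y : ℝ) : |Tr' s y| ≤ 1 := by
  have hp := GO1_pos hs y
  unfold Tr'
  rw [abs_div, abs_mul, abs_of_nonneg (sq_nonneg s), abs_of_nonneg (sq_nonneg (s ^ 2 + y ^ 2)),
    div_le_one (by positivity)]
  have h1 : |s ^ 2 - y ^ 2| ≤ s ^ 2 + y ^ 2 := by
    rw [abs_le]
    constructor <;> nlinarith [sq_nonneg s, sq_nonneg y]
  calc s ^ 2 * |s ^ 2 - y ^ 2| ≤ (s ^ 2 + y ^ 2) * (s ^ 2 + y ^ 2) :=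
        mul_le_mul (by nlinarith [sq_nonneg y]) h1 (abs_nonneg _) hp.le
    _ = (s ^ 2 + y ^ 2) ^ 2 := by ring

theorem one_sub_Tr'_sq {s : ℝ} (hs : 0 < s) (y : ℝ) : (1 - Tr' s y) ^ 2 ≤ 9 * y ^ 2 / s ^ 2 := by
  have hp := GO1_pos hs y
  set t := y ^ 2 / (s ^ 2 + y ^ 2) with ht
  have ht0 : 0 ≤ t := by positivity
  have ht1 : t ≤ 1 := by
    rw [ht, div_le_one hp]; nlinarith [sq_nonneg s]
  have ht2 : t ≤ y ^ 2 / s ^ 2 := by
    rw [ht]
    exact div_le_div_of_nonneg_left (sq_nonneg y) (by positivity) (by nlinarith [sq_nonneg y])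
  have e : 1 - Tr' s y = t * (3 - 2 * t) := by
    rw [ht]; unfold Tr'
    field_simp
    ring
  have h0 : 0 ≤ 1 - Tr' s y := by rw [e]; exact mul_nonneg ht0 (by linarith)
  have h1 : 1 - Tr' s y ≤ 3 * t := by rw [e]; nlinarith
  calc (1 - Tr' s y) ^ 2 ≤ (3 * t) ^ 2 := pow_le_pow_left₀ h0 h1 2
    _ = 9 * (t * t) := by ring
    _ ≤ 9 * (1 * (y ^ 2 / s ^ 2)) := by
        refine mul_le_mul_of_nonneg_left (mul_le_mul ht1 ht2 ht0 zero_le_one) (by norm_num)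
    _ = 9 * y ^ 2 / s ^ 2 := by ring

theorem GO1_mono {f f' : ℝ → ℝ} (hf : ∀ x, HasDerivAt f (f' x) x) (h0 : ∀ x, 0 ≤ x → 0 ≤ f' x)
    {x y : ℝ} (hx : 0 ≤ x) (hxy : x ≤ y) : f x ≤ f y := by
  have h := monotoneOn_of_deriv_nonneg (convex_Ici (0 : ℝ)) (f := f)
    (fun z _ => (hf z).continuousAt.continuousWithinAt)
    (fun z _ => (hf z).differentiableAt.differentiableWithinAt)
    (fun z hz => by rw [(hf z).deriv]; exact h0 z (interior_subset hz))
  exact h hx (hx.trans hxy) hxy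

theorem GO1_exp2 {y : ℝ} (hy : 0 ≤ y) : Real.exp (-y) ≤ 1 - y + y ^ 2 / 2 := by
  have hd : ∀ x : ℝ, HasDerivAt (fun x : ℝ => 1 - x + x ^ 2 / 2 - Real.exp (-x))
      (-1 + x + Real.exp (-x)) x := by
    intro x
    have h1 : HasDerivAt (fun x : ℝ => Real.exp (-x)) (-Real.exp (-x)) x := by
      have := (hasDerivAt_neg x).exp
      simpa using this
    have h2 : HasDerivAt (fun x : ℝ => x ^ 2 / 2) x x := by
      have := (hasDerivAt_pow 2 x).div_const 2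
      simpa using this
    have h3 := (((hasDerivAt_id x).const_sub 1).add h2).sub h1
    have e : -1 + x - -Real.exp (-x) = -1 + x + Real.exp (-x) := by ring
    rw [e] at h3
    exact h3
  have h := GO1_mono hd (fun x hx => by linarith [Real.add_one_le_exp (-x)]) le_rfl hy
  simp at h
  linarith

theorem GO1_exp3 {y : ℝ} (hy : 0 ≤ y) : 1 - y + y ^ 2 / 2 - y ^ 3 / 6 ≤ Real.exp (-y) := by
  have hd : ∀ x : ℝ, HasDerivAt (fun x : ℝ => Real.exp (-x) - (1 - x + x ^ 2 / 2 - x ^ 3 / 6))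
      (1 - x + x ^ 2 / 2 - Real.exp (-x)) x := by
    intro x
    have h1 : HasDerivAt (fun x : ℝ => Real.exp (-x)) (-Real.exp (-x)) x := by
      have := (hasDerivAt_neg x).exp
      simpa using this
    have h2 : HasDerivAt (fun x : ℝ => x ^ 2 / 2) x x := by
      have := (hasDerivAt_pow 2 x).div_const 2
      simpa using this
    have h4 : HasDerivAt (fun x : ℝ => x ^ 3 / 6) (x ^ 2 / 2) x := by
      have := (hasDerivAt_pow 3 x).div_const 6
      have e : ((3 : ℕ) : ℝ) * x ^ (3 - 1) / 6 = x ^ 2 / 2 := by norm_num; ring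
      rw [e] at this
      exact this
    have h3 := h1.sub ((((hasDerivAt_id x).const_sub 1).add h2).sub h4)
    have e : -Real.exp (-x) - (-1 + x - x ^ 2 / 2) = 1 - x + x ^ 2 / 2 - Real.exp (-x) := by ring
    rw [e] at h3
    exact h3
  have h := GO1_mono hd (fun x hx => by linarith [GO1_exp2 hx]) le_rfl hy
  simp at h
  linarith

/-- `exp (-y) ≥ 1 - y + (1/2) (1 - s) Tr s y ²` for all real `y`, `0 < s ≤ 1`. For `y ≤ 0`: `exp(-y) ≥ 1 - y + y²/2`.
For `0 ≤ y`: `|Tr| ≤ s/2` and `|Tr| ≤ y`. If `y ≤ s`: `exp(-y) ≥ 1 - y + y²/2 - y³/6` and `y³/6 ≤ s y²/6`, and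
`Tr² ≤ y²`. If `y ≥ s`: `exp(-y) - 1 + y` is increasing in `y ≥ 0`, at `y = s` at least `s²/2 - s³/6 ≥ s²/3 ≥ (1/2)(s/2)²`. -/
theorem exp_ge_Tr {s : ℝ} (hs : 0 < s) (hs1 : s ≤ 1) (y : ℝ) :
    1 - y + 1 / 2 * (1 - s) * Tr s y ^ 2 ≤ Real.exp (-y) := by
  have hT1 : Tr s y ^ 2 ≤ y ^ 2 := by
    have := pow_le_pow_left₀ (abs_nonneg _) (abs_Tr_le hs y) 2
    rwa [sq_abs, sq_abs] at this
  have hT2 : Tr s y ^ 2 ≤ (s / 2) ^ 2 := by
    have := pow_le_pow_left₀ (abs_nonneg _) (abs_Tr_le' hs y) 2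
    rwa [sq_abs] at this
  have hT0 : 0 ≤ Tr s y ^ 2 := sq_nonneg _
  rcases le_total y 0 with hy | hy
  · have h1 := Real.quadratic_le_exp_of_nonneg (neg_nonneg.2 hy)
    have h2 : (1 - s) * Tr s y ^ 2 ≤ y ^ 2 := by nlinarith
    nlinarith
  · rcases le_total y s with hys | hys
    · have h1 := GO1_exp3 hy
      have h2 : y ^ 3 ≤ s * y ^ 2 := by
        have : y ^ 3 = y * y ^ 2 := by ring
        rw [this]
        exact mul_le_mul_of_nonneg_right hys (sq_nonneg y)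
      have h3 : (1 - s) * Tr s y ^ 2 ≤ (1 - s) * y ^ 2 :=
        mul_le_mul_of_nonneg_left hT1 (by linarith)
      nlinarith [sq_nonneg y, mul_nonneg hs.le (sq_nonneg y)]
    · have hd : ∀ x : ℝ, HasDerivAt (fun x : ℝ => Real.exp (-x) - 1 + x)
          (-Real.exp (-x) + 1) x := by
        intro x
        have h1 : HasDerivAt (fun x : ℝ => Real.exp (-x)) (-Real.exp (-x)) x := by
          have := (hasDerivAt_neg x).exp
          simpa using this
        exact (h1.sub_const 1).add (hasDerivAt_id x)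
      have h := GO1_mono hd (fun x hx => by
        have := Real.exp_le_one_iff.2 (neg_nonpos.2 hx)
        linarith) hs.le hys
      have h1 := GO1_exp3 hs.le
      have h2 : s ^ 3 ≤ s ^ 2 := by
        have : s ^ 3 = s * s ^ 2 := by ring
        rw [this]
        exact mul_le_of_le_one_left (sq_nonneg s) hs1
      have h3 : (1 - s) * Tr s y ^ 2 ≤ (s / 2) ^ 2 := by nlinarith
      nlinarith [sq_nonneg s]

end Pool.Agent.Lib.MP_4952d6_mp

end

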