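import Pool.Agent.Lib.MP_4952d6_mp.Pk.G03

/-! Merged modules (to save import time): WeakDeriv, Defs, LB.Unc. -/

/-! ### WeakDeriv -/

section

set_option autoImplicit false
set_option linter.unusedSectionVars false
set_option linter.unusedVariables false
open MeasureTheory Function Filter Topology

namespace Pool.Agent.Lib.MP_4952d6_mp

/-- Bounded measurable function, Lipschitz along a one parameter family of translations `τ`, with
almost everywhere directional derivative `Φ'`. -/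
structure WD {X E : Type*} [MeasurableSpace X] [AddCommGroup X] [NormedAddCommGroup E]
    [NormedSpace ℝ E] (μ : Measure X) (τ : ℝ → X) (Φ Φ' : X → E) : Prop where
  zero : τ 0 = 0
  sm : StronglyMeasurable Φ
  bdd : ∃ C, ∀ x, ‖Φ x‖ ≤ C
  lip : ∃ C, ∀ x t, ‖Φ (x + τ t) - Φ x‖ ≤ C * |t|
  deriv : ∀ᵐ x ∂μ, HasDerivAt (fun t : ℝ => Φ (x + τ t)) (Φ' x) 0

namespace WD

section basic
variable {X : Type*} [MeasurableSpace X] [AddCommGroup X] {μ : Measure X} {τ : ℝ → X}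
  {E : Type*} [NormedAddCommGroup E] [NormedSpace ℝ E]

lemma exists_bdd {Φ Φ' : X → E} (h : WD μ τ Φ Φ') : ∃ C, 0 ≤ C ∧ ∀ x, ‖Φ x‖ ≤ C := by
  obtain ⟨C, hC⟩ := h.bdd
  exact ⟨max C 0, le_max_right _ _, fun x => (hC x).trans (le_max_left _ _)⟩

lemma exists_lip {Φ Φ' : X → E} (h : WD μ τ Φ Φ') :
    ∃ C, 0 ≤ C ∧ ∀ x t, ‖Φ (x + τ t) - Φ x‖ ≤ C * |t| := by
  obtain ⟨C, hC⟩ := h.lip
  exact ⟨max C 0, le_max_right _ _, fun x t => (hC x t).trans
    (mul_le_mul_of_nonneg_right (le_max_left _ _) (abs_nonneg _))⟩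

lemma bound {Φ Φ' : X → E} (h : WD μ τ Φ Φ') : ∃ C, 0 ≤ C ∧ ∀ᵐ x ∂μ, ‖Φ' x‖ ≤ C := by
  obtain ⟨C, hC0, hC⟩ := h.exists_lip
  refine ⟨C, hC0, ?_⟩
  filter_upwards [h.deriv] with x hx
  have := hx.le_of_lip' hC0 (Eventually.of_forall fun t => by
    have := hC x t
    simpa [h.zero] using this)
  exact this

lemma tendsto_quot {Φ Φ' : X → E} (h : WD μ τ Φ Φ') : ∀ᵐ x ∂μ,
    Tendsto (fun n : ℕ => ((n : ℝ) + 1) • (Φ (x + τ (1 / ((n : ℝ) + 1))) - Φ x)) atTop
      (𝓝 (Φ' x)) := by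
  filter_upwards [h.deriv] with x hx
  have h1 := hx.tendsto_slope_zero
  have h2 : Tendsto (fun n : ℕ => 1 / ((n : ℝ) + 1)) atTop (𝓝[≠] 0) := by
    rw [tendsto_nhdsWithin_iff]
    refine ⟨tendsto_one_div_add_atTop_nhds_zero_nat, Eventually.of_forall fun n => ?_⟩
    simp only [Set.mem_compl_iff, Set.mem_singleton_iff]
    positivity
  have h3 := h1.comp h2
  refine h3.congr fun n => ?_
  simp only [comp_apply, zero_add, h.zero, add_zero, one_div, inv_inv]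

lemma aesm_deriv [MeasurableAdd X] {Φ Φ' : X → E} (h : WD μ τ Φ Φ') :
    AEStronglyMeasurable Φ' μ := by
  refine aestronglyMeasurable_of_tendsto_ae atTop (fun n => ?_) h.tendsto_quot
  refine (StronglyMeasurable.const_smul ?_ _).aestronglyMeasurable
  exact (h.sm.comp_measurable (measurable_add_const _)).sub h.sm

/-- The integral of a directional derivative vanishes. -/
theorem integral_eq_zero [MeasurableAdd X] [CompleteSpace E] [IsProbabilityMeasure μ]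
    [μ.IsAddLeftInvariant] {Φ Φ' : X → E} (h : WD μ τ Φ Φ') : ∫ x, Φ' x ∂μ = 0 := by
  obtain ⟨C, hC0, hC⟩ := h.exists_lip
  obtain ⟨B, hB0, hB⟩ := h.exists_bdd
  have hint : Integrable Φ μ := Integrable.of_bound h.sm.aestronglyMeasurable B
    (Eventually.of_forall hB)
  have key : Tendsto (fun n : ℕ => ∫ x, ((n : ℝ) + 1) • (Φ (x + τ (1 / ((n : ℝ) + 1))) - Φ x) ∂μ)
      atTop (𝓝 (∫ x, Φ' x ∂μ)) := by
    refine tendsto_integral_of_dominated_convergence (fun _ => C) (fun n => ?_)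
      (integrable_const _) (fun n => ?_) h.tendsto_quot
    · refine (StronglyMeasurable.const_smul ?_ _).aestronglyMeasurable
      exact (h.sm.comp_measurable (measurable_add_const _)).sub h.sm
    · refine Eventually.of_forall fun x => ?_
      rw [norm_smul]
      have h1 := hC x (1 / ((n : ℝ) + 1))
      have h2 : (0:ℝ) < (n : ℝ) + 1 := by positivity
      rw [abs_of_pos (by positivity)] at h1
      rw [Real.norm_of_nonneg h2.le]
      calc ((n : ℝ) + 1) * ‖Φ (x + τ (1 / ((n : ℝ) + 1))) - Φ x‖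
          ≤ ((n : ℝ) + 1) * (C * (1 / ((n : ℝ) + 1))) := mul_le_mul_of_nonneg_left h1 h2.le
        _ = C := by field_simp
  have hz : ∀ n : ℕ, ∫ x, ((n : ℝ) + 1) • (Φ (x + τ (1 / ((n : ℝ) + 1))) - Φ x) ∂μ = 0 := by
    intro n
    have hint' : Integrable (fun x => Φ (x + τ (1 / ((n : ℝ) + 1)))) μ :=
      Integrable.of_bound (h.sm.comp_measurable (measurable_add_const _)).aestronglyMeasurable B
        (Eventually.of_forall fun x => hB _)
    rw [integral_smul, integral_sub hint' hint, integral_add_right_eq_self, sub_self, smul_zero]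
  simp only [hz] at key
  exact (tendsto_nhds_unique key tendsto_const_nhds)

lemma of_invariant (h0 : τ 0 = 0) {Φ : X → E} (hm : StronglyMeasurable Φ)
    (hb : ∃ C, ∀ x, ‖Φ x‖ ≤ C) (hi : ∀ x t, Φ (x + τ t) = Φ x) : WD μ τ Φ (fun _ => 0) where
  zero := h0
  sm := hm
  bdd := hb
  lip := ⟨0, fun x t => by simp [hi]⟩
  deriv := Eventually.of_forall fun x => by
    simp only [hi]
    exact hasDerivAt_const _ _

lemma add {Φ Φ' Ψ Ψ' : X → E} (h : WD μ τ Φ Φ') (k : WD μ τ Ψ Ψ') :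
    WD μ τ (fun x => Φ x + Ψ x) (fun x => Φ' x + Ψ' x) where
  zero := h.zero
  sm := h.sm.add k.sm
  bdd := by
    obtain ⟨C, hC⟩ := h.bdd
    obtain ⟨D, hD⟩ := k.bdd
    exact ⟨C + D, fun x => (norm_add_le _ _).trans (add_le_add (hC x) (hD x))⟩
  lip := by
    obtain ⟨C, hC⟩ := h.lip
    obtain ⟨D, hD⟩ := k.lip
    refine ⟨C + D, fun x t => ?_⟩
    rw [add_sub_add_comm, add_mul]
    exact (norm_add_le _ _).trans (add_le_add (hC x t) (hD x t))
  deriv := by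
    filter_upwards [h.deriv, k.deriv] with x hx kx
    exact hx.add kx

lemma finset_sum {κ : Type*} (S : Finset κ) {Φ Φ' : κ → X → E} (h0 : τ 0 = 0)
    (h : ∀ i ∈ S, WD μ τ (Φ i) (Φ' i)) :
    WD μ τ (fun x => ∑ i ∈ S, Φ i x) (fun x => ∑ i ∈ S, Φ' i x) := by
  classical
  induction S using Finset.induction_on with
  | empty =>
    simp only [Finset.sum_empty]
    exact of_invariant h0 stronglyMeasurable_const ⟨0, fun _ => by simp⟩ fun _ _ => rfl
  | insert a S ha ih =>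
    simp only [Finset.sum_insert ha]
    exact (h a (Finset.mem_insert_self _ _)).add
      (ih fun i hi => h i (Finset.mem_insert_of_mem hi))

/-- Pull back along an equivariant measure preserving map. -/
lemma comp {Y : Type*} [MeasurableSpace Y] [AddCommGroup Y] {ν : Measure Y} {σ : ℝ → Y}
    {Φ Φ' : X → E} (h : WD μ τ Φ Φ') (h0 : σ 0 = 0) {φ : Y → X} (hφ : MeasurePreserving φ ν μ)
    (he : ∀ y t, φ (y + σ t) = φ y + τ t) : WD ν σ (fun y => Φ (φ y)) (fun y => Φ' (φ y)) where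
  zero := h0
  sm := h.sm.comp_measurable hφ.measurable
  bdd := h.bdd.imp fun C hC y => hC _
  lip := h.lip.imp fun C hC y t => by rw [he]; exact hC _ _
  deriv := by
    have := hφ.quasiMeasurePreserving.ae h.deriv
    filter_upwards [this] with y hy
    simpa only [he] using hy

end basic

section ring
variable {X : Type*} [MeasurableSpace X] [AddCommGroup X] {μ : Measure X} {τ : ℝ → X}
  {E : Type*} [NormedCommRing E] [NormedAlgebra ℝ E]

lemma mul {Φ Φ' Ψ Ψ' : X → E} (h : WD μ τ Φ Φ') (k : WD μ τ Ψ Ψ') :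
    WD μ τ (fun x => Φ x * Ψ x) (fun x => Φ' x * Ψ x + Φ x * Ψ' x) where
  zero := h.zero
  sm := h.sm.mul k.sm
  bdd := by
    obtain ⟨C, hC0, hC⟩ := h.exists_bdd
    obtain ⟨D, hD0, hD⟩ := k.exists_bdd
    exact ⟨C * D, fun x => (norm_mul_le _ _).trans
      (mul_le_mul (hC x) (hD x) (norm_nonneg _) hC0)⟩
  lip := by
    obtain ⟨C, hC0, hC⟩ := h.exists_lip
    obtain ⟨D, hD0, hD⟩ := k.exists_lip
    obtain ⟨C', hC0', hC'⟩ := h.exists_bdd
    obtain ⟨D', hD0', hD'⟩ := k.exists_bdd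
    refine ⟨C * D' + C' * D, fun x t => ?_⟩
    have e : Φ (x + τ t) * Ψ (x + τ t) - Φ x * Ψ x
        = (Φ (x + τ t) - Φ x) * Ψ (x + τ t) + Φ x * (Ψ (x + τ t) - Ψ x) := by ring
    rw [e]
    calc _ ≤ ‖(Φ (x + τ t) - Φ x) * Ψ (x + τ t)‖ + ‖Φ x * (Ψ (x + τ t) - Ψ x)‖ := norm_add_le _ _
      _ ≤ (C * |t|) * D' + C' * (D * |t|) := by
          refine add_le_add ?_ ?_
          · exact (norm_mul_le _ _).trans (mul_le_mul (hC x t) (hD' _) (norm_nonneg _)
              (mul_nonneg hC0 (abs_nonneg _)))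
          · exact (norm_mul_le _ _).trans (mul_le_mul (hC' x) (hD x t) (norm_nonneg _) hC0')
      _ = _ := by ring
  deriv := by
    filter_upwards [h.deriv, k.deriv] with x hx kx
    have := hx.mul kx
    simp only [h.zero, add_zero] at this
    exact this

lemma finset_prod {κ : Type*} [DecidableEq κ] (S : Finset κ) {Φ Φ' : κ → X → E} (h0 : τ 0 = 0)
    (h : ∀ i ∈ S, WD μ τ (Φ i) (Φ' i)) :
    WD μ τ (fun x => ∏ i ∈ S, Φ i x) (fun x => ∑ i ∈ S, Φ' i x * ∏ j ∈ S.erase i, Φ j x) := by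
  induction S using Finset.induction_on with
  | empty =>
    simp only [Finset.prod_empty, Finset.sum_empty]
    exact of_invariant h0 stronglyMeasurable_const ⟨‖(1:E)‖, fun _ => le_rfl⟩ fun _ _ => rfl
  | insert a S ha ih =>
    have h1 := (h a (Finset.mem_insert_self _ _)).mul
      (ih fun i hi => h i (Finset.mem_insert_of_mem hi))
    simp only [Finset.prod_insert ha]
    have e : (fun x => ∑ i ∈ insert a S, Φ' i x * ∏ j ∈ (insert a S).erase i, Φ j x)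
        = fun x => Φ' a x * ∏ i ∈ S, Φ i x
          + Φ a x * ∑ i ∈ S, Φ' i x * ∏ j ∈ S.erase i, Φ j x := by
      ext x
      rw [Finset.sum_insert ha, Finset.erase_insert ha, Finset.mul_sum]
      congr 1
      refine Finset.sum_congr rfl fun i hi => ?_
      have hia : a ≠ i := fun h => ha (h ▸ hi)
      have hai : a ∉ S.erase i := fun h => ha (Finset.mem_of_mem_erase h)
      rw [Finset.erase_insert_of_ne hia, Finset.prod_insert hai]
      ring
    rw [e]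
    exact h1

end ring

section complex
variable {X : Type*} [MeasurableSpace X] [AddCommGroup X] {μ : Measure X} {τ : ℝ → X}

lemma ofReal {Φ Φ' : X → ℝ} (h : WD μ τ Φ Φ') :
    WD μ τ (fun x => (Φ x : ℂ)) (fun x => (Φ' x : ℂ)) where
  zero := h.zero
  sm := Complex.continuous_ofReal.comp_stronglyMeasurable h.sm
  bdd := h.bdd.imp fun C hC x => by simpa using hC x
  lip := h.lip.imp fun C hC x t => by
    rw [← Complex.ofReal_sub, Complex.norm_real]; exact hC x t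
  deriv := by
    filter_upwards [h.deriv] with x hx
    exact hx.ofReal_comp

lemma congr {E : Type*} [NormedAddCommGroup E] [NormedSpace ℝ E] {Φ Φ' Φ'' : X → E}
    (h : WD μ τ Φ Φ') (he : ∀ᵐ x ∂μ, Φ' x = Φ'' x) : WD μ τ Φ Φ'' where
  zero := h.zero
  sm := h.sm
  bdd := h.bdd
  lip := h.lip
  deriv := by
    filter_upwards [h.deriv, he] with x hx hex
    rw [← hex]; exact hx

lemma norm_exp_sub_one_le (n : ℝ) (t : ℝ) :
    ‖Complex.exp (2 * Real.pi * Complex.I * n * t) - 1‖ ≤ 2 * Real.pi * |n| * |t| := by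
  have h := Real.norm_exp_I_mul_ofReal_sub_one_le (x := 2 * Real.pi * n * t)
  have e : Complex.exp (2 * Real.pi * Complex.I * n * t)
      = Complex.exp (Complex.I * ((2 * Real.pi * n * t : ℝ) : ℂ)) := by
    congr 1; push_cast; ring
  rw [e]
  refine h.trans (le_of_eq ?_)
  rw [Real.norm_eq_abs, abs_mul, abs_mul, abs_of_pos Real.two_pi_pos]

/-- Characters. -/
lemma character (h0 : τ 0 = 0) {χ : X → ℂ} (hm : StronglyMeasurable χ) (h1 : ∀ x, ‖χ x‖ = 1)
    (n : ℝ) (he : ∀ x t, χ (x + τ t) = χ x * Complex.exp (2 * Real.pi * Complex.I * n * t)) :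
    WD μ τ χ (fun x => 2 * Real.pi * Complex.I * n * χ x) where
  zero := h0
  sm := hm
  bdd := ⟨1, fun x => (h1 x).le⟩
  lip := ⟨2 * Real.pi * |n|, fun x t => by
    rw [he, ← mul_sub_one, norm_mul, h1, one_mul]
    exact norm_exp_sub_one_le n t⟩
  deriv := Eventually.of_forall fun x => by
    simp only [he]
    have h2 : HasDerivAt (fun t : ℝ => (2 * Real.pi * Complex.I * n * (t : ℂ)))
        (2 * Real.pi * Complex.I * n * 1) 0 :=
      (Complex.ofRealCLM.hasDerivAt (x := (0:ℝ))).const_mul (2 * Real.pi * Complex.I * n : ℂ)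
    have h3 := (h2.cexp).const_mul (χ x)
    simp only [Complex.ofReal_zero, mul_zero, Complex.exp_zero, one_mul, mul_one] at h3
    rw [mul_comm (χ x)] at h3
    exact h3

/-- Fourier coefficient of a directional derivative. -/
theorem fourier [MeasurableAdd X] [IsProbabilityMeasure μ] [μ.IsAddLeftInvariant]
    {Φ Φ' : X → ℂ} (h : WD μ τ Φ Φ') {χ : X → ℂ} (hm : StronglyMeasurable χ)
    (h1 : ∀ x, ‖χ x‖ = 1) (n : ℝ)
    (he : ∀ x t, χ (x + τ t) = χ x * Complex.exp (2 * Real.pi * Complex.I * n * t)) :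
    ∫ x, starRingEnd ℂ (χ x) * Φ' x ∂μ
      = 2 * Real.pi * Complex.I * n * ∫ x, starRingEnd ℂ (χ x) * Φ x ∂μ := by
  have hc : WD μ τ (fun x => starRingEnd ℂ (χ x))
      (fun x => 2 * Real.pi * Complex.I * ((-n : ℝ) : ℂ) * starRingEnd ℂ (χ x)) := by
    refine character h.zero (Complex.continuous_conj.comp_stronglyMeasurable hm)
      (fun x => by simpa using h1 x) (-n) fun x t => ?_
    rw [he, map_mul, ← Complex.exp_conj]
    congr 2
    simp only [map_mul, Complex.conj_ofReal, Complex.conj_I, map_ofNat]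
    push_cast; ring
  have hp := (hc.mul h).integral_eq_zero
  obtain ⟨C, hC0, hC⟩ := h.bound
  obtain ⟨B, hB0, hB⟩ := h.exists_bdd
  have hχ' : StronglyMeasurable fun x => starRingEnd ℂ (χ x) :=
    Complex.continuous_conj.comp_stronglyMeasurable hm
  have i1 : Integrable (fun x => starRingEnd ℂ (χ x) * Φ x) μ :=
    Integrable.of_bound (hχ'.mul h.sm).aestronglyMeasurable B (Eventually.of_forall fun x => by
      rw [norm_mul]; simpa [h1 x] using hB x)
  have i2 : Integrable (fun x => starRingEnd ℂ (χ x) * Φ' x) μ :=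
    Integrable.of_bound (hχ'.aestronglyMeasurable.mul h.aesm_deriv) C (by
      filter_upwards [hC] with x hx
      rw [norm_mul]; simpa [h1 x] using hx)
  have e : ∀ x, 2 * Real.pi * Complex.I * ((-n : ℝ) : ℂ) * starRingEnd ℂ (χ x) * Φ x
      + starRingEnd ℂ (χ x) * Φ' x
      = (-(2 * Real.pi * Complex.I * n)) * (starRingEnd ℂ (χ x) * Φ x)
        + starRingEnd ℂ (χ x) * Φ' x := by
    intro x; push_cast; ring
  simp_rw [e] at hp
  rw [integral_add (i1.const_mul _) i2, integral_const_mul] at hp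
  linear_combination hp

end complex

end WD

end Pool.Agent.Lib.MP_4952d6_mp

end

/-! ### Defs -/

section

/-!
# Definitions for MP_4952d6_mp (dilute Bose gas in a periodic box)

These are the definitions of the problem file, written as in the frozen statement of the problem.
-/

set_option autoImplicit false
open MeasureTheory
open scoped ENNReal

namespace Pool.Agent.Lib.MP_4952d6_mp

/-- The scattering length `a` of the interaction (hard core radius `R₀`, pair potential `v`):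
`4 π a / m` is the infimum of `∫ (|∇ψ|²/m + v ψ²)` over `C¹` functions `ψ` on `ℝ³` with `ψ - 1`
compactly supported and `ψ = 0` on `|x| < R₀`. -/
noncomputable def scatLen (m R₀ : ℝ) (v : (Fin 3 → ℝ) → ℝ) : ℝ :=
  m / (4 * Real.pi) * sInf {e : ℝ | ∃ ψ : (Fin 3 → ℝ) → ℝ, ContDiff ℝ 1 ψ ∧
    HasCompactSupport (fun x => ψ x - 1) ∧ (∀ x, ∑ α, x α ^ 2 < R₀ ^ 2 → ψ x = 0) ∧
    e = ∫ x, ((1 / m) * ∑ α, (fderiv ℝ ψ x (Pi.single α 1)) ^ 2 + v x * ψ x ^ 2)}

/-- The box `[0, L)^{3N}`. -/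
def box (N : ℕ) (L : ℝ) : Set (Fin N → Fin 3 → ℝ) := {x | ∀ i α, 0 ≤ x i α ∧ x i α < L}

/-- Fourier coefficient of `ψ` with respect to the orthonormal basis
`L^{-3N/2} exp (2πi k·x / L)`, `k ∈ (ℤ³)^N`. -/
noncomputable def fourierC (N : ℕ) (L : ℝ) (ψ : (Fin N → Fin 3 → ℝ) → ℂ)
    (k : Fin N → Fin 3 → ℤ) : ℂ :=
  (((Real.sqrt (L ^ (3 * N)))⁻¹ : ℝ) : ℂ) *
    ∫ x in box N L, Complex.exp (-(2 * Real.pi * Complex.I / L)
      * ∑ i, ∑ α, ((k i α : ℂ) * (x i α : ℂ))) * ψ x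

/-- The energy form of `N` bosons of mass `m` with pair potential `v` (periodised) in the periodic
box of side `L`: kinetic energy in Fourier space plus potential energy. -/
noncomputable def energy (m : ℝ) (v : (Fin 3 → ℝ) → ℝ) (N : ℕ) (L : ℝ)
    (ψ : (Fin N → Fin 3 → ℝ) → ℂ) : ℝ≥0∞ :=
  (∑' k : Fin N → Fin 3 → ℤ, ENNReal.ofReal ((2 * Real.pi / L) ^ 2 *
      (∑ i, ∑ α, ((k i α : ℝ)) ^ 2) * ‖fourierC N L ψ k‖ ^ 2 / (2 * m))) +
  ∫⁻ x in box N L, (∑ i, ∑ j ∈ Finset.Ioi i, ∑' n : Fin 3 → ℤ,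
    ENNReal.ofReal (v (fun α => x i α - x j α + L * (n α : ℝ)))) * ‖ψ x‖ₑ ^ 2

/-- Normalised states of finite energy that vanish when two particles are closer than the hard
core radius `R₀` (torus distance). -/
def Admissible (m R₀ : ℝ) (v : (Fin 3 → ℝ) → ℝ) (N : ℕ) (L : ℝ)
    (ψ : (Fin N → Fin 3 → ℝ) → ℂ) : Prop :=
  MemLp ψ 2 (volume.restrict (box N L)) ∧
  ∫ x in box N L, ‖ψ x‖ ^ 2 = 1 ∧
  (∀ x ∈ box N L, ∀ i j : Fin N, i ≠ j →
    (∃ n : Fin 3 → ℤ, ∑ α, (x i α - x j α + L * (n α : ℝ)) ^ 2 < R₀ ^ 2) → ψ x = 0) ∧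
  energy m v N L ψ < ⊤

/-- The side length of a cube containing `N` particles at density `ρ`. -/
noncomputable def side (ρ : ℝ) (N : ℕ) : ℝ := ((N : ℝ) / ρ) ^ ((1 : ℝ) / 3)

/-- The condensate fraction `(1/N) ∑ᵢ ⟨ψ, Pᵢ ψ⟩` of the state `ψ`: `Pᵢ` projects onto the
functions for which particle `i` is in the constant state. -/
noncomputable def condFraction (N : ℕ) (L : ℝ) (ψ : (Fin N → Fin 3 → ℝ) → ℂ) : ℝ :=
  (1 / (N : ℝ)) * ∑ i : Fin N, ∑' k : Fin N → Fin 3 → ℤ,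
    (if k i = 0 then ‖fourierC N L ψ k‖ ^ 2 else 0)

end Pool.Agent.Lib.MP_4952d6_mp

end

/-! ### LB.Unc -/

section

/-!
# LB.Unc: the uncertainty inequality for matrix units (abstract Hilbert space)

`E j a b` is the operator `|a⟩⟨b|` of particle `j`; `r j` is the one particle part of the low momentum
density operator `R_k`, `r' j` that of `R_{-k}` (`r' j` is the adjoint of `r j`).

Write `X k = ∑ⱼ E j 0 k`, `Xb k = ∑ⱼ E j (-k) 0`, `A = X k + Xb k`, `B = X k - Xb k`,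
`A' = X(-k) + Xb(-k)`, `B' = X(-k) - Xb(-k)` (so `A' = A*`, `B' = -B*`), `R = ∑ⱼ r j`, `R' = ∑ⱼ r' j = R*`,
`n_a = ∑ⱼ ⟪ψ, E j a a ψ⟫ = ∑ⱼ ‖E j a a ψ‖²` (real), `y = n_k + n_{-k}`, `m = n_0 - y/2`.

1. `R* B - B R* = η ∑ⱼ (E j k k - 2 E j 0 0 + E j (-k) (-k))`: operators of different particles commute,
   for one particle use `rE1`..`rE4`. Hence
   `⟪R ψ, B ψ⟫ + ⟪B' ψ, R' ψ⟫ = η (y - 2 n_0) = -2 η m`, and Cauchy-Schwarz twice gives
   `(‖Rψ‖² + ‖R'ψ‖²) (‖Bψ‖² + ‖B'ψ‖²) ≥ 4 η² m²`.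
2. in the same way `A* B - B A* = ∑ⱼ (E j k k - 2 E j 0 0 + E j (-k) (-k))`, so
   `(‖Aψ‖² + ‖A'ψ‖²) (‖Bψ‖² + ‖B'ψ‖²) ≥ 4 m²`.
3. `‖Aψ‖²+‖Bψ‖² = 2‖X k ψ‖² + 2‖Xb k ψ‖²`. `‖X k ψ‖² = ∑_{j,l} ⟪E j 0 k ψ, E l 0 k ψ⟫`; `j = l`: total `n_k`;
   `j ≠ l`: `⟪E j 0 k ψ, E l 0 k ψ⟫ = ⟪ψ, E j k 0 (E l 0 k ψ)⟫ = ⟪E j k k (E l 0 0 ψ), E j k 0 E l 0 k (E j 0 0 E l k k ψ)⟫`
   is at most `(1/2)(‖E j k k E l 0 0 ψ‖² + ‖E j 0 0 E l k k ψ‖²)` (`E j k 0 E l 0 k` is a contraction),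
   and `∑_{l ≠ j} ‖E j k k E l 0 0 ψ‖² ≤ (card ι - 1) ‖E j k k ψ‖²`: total `≤ (card - 1) n_k`.
   So `‖X k ψ‖² ≤ card n_k`. In the same way `‖Xb k ψ‖² ≤ n_0 + (card-1) n_{-k}` and
   `∑ ≤ 2 card y` for the four terms minus...: precisely
   `(1/2)(‖Aψ‖²+‖A'ψ‖²+‖Bψ‖²+‖B'ψ‖²) ≤ card y + 2 n_0 + (card - 1) y ≤ 2 n_0 + 2 card y`.
4. With `𝓐 = (‖Aψ‖²+‖A'ψ‖²)/2`, `𝓑`, `𝓡` defined in the same way: `𝓡𝓑 ≥ η²m²`, `𝓐𝓑 ≥ m²`, `𝓐+𝓑 ≤ 2n_0+2Ny`.
   If `𝓑 = 0` then `m = 0` (and the right side is `≤ 0`). Otherwise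
   `η²Ey + g𝓡 ≥ η²[E(𝓐+𝓑-2n_0)/(2N) + g m²/𝓑] ≥ η²[(m²/𝓑)(E/(2N)+g) + E𝓑/(2N) - E n_0/N]
     ≥ η²[2 m √((E/(2N)+g)(E/(2N))) - E n_0/N] = η²[(m/N) √(E²+2NgE) - E n_0/N]`.
-/

set_option autoImplicit false
set_option linter.unusedSectionVars false
set_option linter.unusedVariables false
open ComplexConjugate

namespace Pool.Agent.Lib.MP_4952d6_mp.LB

variable {ι : Type*} [Fintype ι] [DecidableEq ι] {Z : Type*} [AddCommGroup Z] [DecidableEq Z]
  {𝓗 : Type*} [NormedAddCommGroup 𝓗] [InnerProductSpace ℂ 𝓗]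

/-- Matrix units of distinguishable particles. -/
structure MU (E : ι → Z → Z → 𝓗 →L[ℂ] 𝓗) : Prop where
  mul_eq : ∀ j a b c f, E j a b (E j b c f) = E j a c f
  mul_ne : ∀ j a b c d f, b ≠ c → E j a b (E j c d f) = 0
  adj : ∀ j a b f g, inner ℂ (E j a b f) g = inner ℂ f (E j b a g)
  comm : ∀ j l, j ≠ l → ∀ a b c d f, E j a b (E l c d f) = E l c d (E j a b f)

/-- Occupation number of the mode `a`. -/
noncomputable def occ (E : ι → Z → Z → 𝓗 →L[ℂ] 𝓗) (ψ : 𝓗) (a : Z) : ℝ := ∑ j, ‖E j a a ψ‖ ^ 2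

/-- One particle part of the low momentum density operator and its relations with matrix units. -/
structure LowDen (E : ι → Z → Z → 𝓗 →L[ℂ] 𝓗) (r r' : ι → 𝓗 →L[ℂ] 𝓗) (k : Z) (η : ℝ) : Prop where
  adj : ∀ j f g, inner ℂ (r j f) g = inner ℂ f (r' j g)
  comm' : ∀ j l, j ≠ l → ∀ a b f, r' j (E l a b f) = E l a b (r' j f)
  rE1 : ∀ j b f, r' j (E j 0 b f) = (η : ℂ) • E j k b f
  rE2 : ∀ j b f, r' j (E j (-k) b f) = (η : ℂ) • E j 0 b f
  rE3 : ∀ j a f, E j a k (r' j f) = (η : ℂ) • E j a 0 f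
  rE4 : ∀ j a f, E j a 0 (r' j f) = (η : ℂ) • E j a (-k) f

end Pool.Agent.Lib.MP_4952d6_mp.LB

end

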