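import Mathlib

/-! Merged modules (to save import time): Bdd. -/

/-! ### Bdd -/

section

set_option autoImplicit false
open MeasureTheory Function

namespace Pool.Agent.Lib.MP_4952d6_mp

/-- Bounded measurable real functions. -/
structure BM {α : Type*} [MeasurableSpace α] (f : α → ℝ) : Prop where
  meas : Measurable f
  bdd : ∃ C, ∀ x, |f x| ≤ C

namespace BM
variable {α β : Type*} [MeasurableSpace α] [MeasurableSpace β]

lemma measurable {f : α → ℝ} (h : BM f) : Measurable f := h.1

lemma exists_nonneg_bound {f : α → ℝ} (h : BM f) : ∃ C, 0 ≤ C ∧ ∀ x, |f x| ≤ C := by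
  obtain ⟨_, C, hC⟩ := h
  exact ⟨max C 0, le_max_right _ _, fun x => (hC x).trans (le_max_left _ _)⟩

lemma integrable {f : α → ℝ} (h : BM f) (ν : Measure α) [IsFiniteMeasure ν] : Integrable f ν := by
  obtain ⟨hm, C, hC⟩ := h
  exact Integrable.of_bound hm.aestronglyMeasurable C (Filter.Eventually.of_forall hC)

lemma const (c : ℝ) : BM (fun _ : α => c) := ⟨measurable_const, |c|, fun _ => le_rfl⟩

lemma add {f g : α → ℝ} (hf : BM f) (hg : BM g) : BM (fun x => f x + g x) := by
  obtain ⟨hm, C, hC⟩ := hf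
  obtain ⟨hm', C', hC'⟩ := hg
  exact ⟨hm.add hm', C + C', fun x => (abs_add_le _ _).trans (add_le_add (hC x) (hC' x))⟩

lemma neg {f : α → ℝ} (hf : BM f) : BM (fun x => - f x) := by
  obtain ⟨hm, C, hC⟩ := hf
  exact ⟨hm.neg, C, fun x => by rw [abs_neg]; exact hC x⟩

lemma sub {f g : α → ℝ} (hf : BM f) (hg : BM g) : BM (fun x => f x - g x) := by
  simpa only [sub_eq_add_neg] using hf.add hg.neg

lemma mul {f g : α → ℝ} (hf : BM f) (hg : BM g) : BM (fun x => f x * g x) := by
  obtain ⟨C, hC0, hC⟩ := hf.exists_nonneg_bound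
  obtain ⟨C', hC0', hC'⟩ := hg.exists_nonneg_bound
  exact ⟨hf.1.mul hg.1, C * C', fun x => by
    rw [abs_mul]; exact mul_le_mul (hC x) (hC' x) (abs_nonneg _) hC0⟩

lemma const_mul {f : α → ℝ} (c : ℝ) (hf : BM f) : BM (fun x => c * f x) := (const c).mul hf

lemma pow {f : α → ℝ} (hf : BM f) (n : ℕ) : BM (fun x => f x ^ n) := by
  induction n with
  | zero => simpa using const (α := α) 1
  | succ n ih => simpa only [pow_succ] using ih.mul hf

lemma abs {f : α → ℝ} (hf : BM f) : BM (fun x => |f x|) := by
  obtain ⟨hm, C, hC⟩ := hf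
  exact ⟨by simpa only [Real.norm_eq_abs] using hm.norm, C, fun x => by rw [abs_abs]; exact hC x⟩

lemma comp {f : α → ℝ} (hf : BM f) {φ : β → α} (hφ : Measurable φ) : BM (fun x => f (φ x)) :=
  ⟨hf.1.comp hφ, hf.2.imp fun _ h x => h (φ x)⟩

lemma finset_sum {κ : Type*} {f : κ → α → ℝ} (s : Finset κ) (hf : ∀ i ∈ s, BM (f i)) :
    BM (fun x => ∑ i ∈ s, f i x) := by
  classical
  induction s using Finset.induction_on with
  | empty => simpa using const (α := α) 0
  | insert a s ha ih =>
    simp only [Finset.sum_insert ha]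
    exact (hf a (Finset.mem_insert_self _ _)).add
      (ih fun i hi => hf i (Finset.mem_insert_of_mem hi))

lemma finset_prod {κ : Type*} {f : κ → α → ℝ} (s : Finset κ) (hf : ∀ i ∈ s, BM (f i)) :
    BM (fun x => ∏ i ∈ s, f i x) := by
  classical
  induction s using Finset.induction_on with
  | empty => simpa using const (α := α) 1
  | insert a s ha ih =>
    simp only [Finset.prod_insert ha]
    exact (hf a (Finset.mem_insert_self _ _)).mul
      (ih fun i hi => hf i (Finset.mem_insert_of_mem hi))

lemma of_mem_Icc {f : α → ℝ} (hf : Measurable f) {a b : ℝ} (h : ∀ x, a ≤ f x ∧ f x ≤ b) :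
    BM f := by
  refine ⟨hf, max |a| |b|, fun x => ?_⟩
  rw [abs_le]
  constructor
  · have := neg_abs_le a; have := le_max_left |a| |b|; have := (h x).1; linarith
  · have := le_abs_self b; have := le_max_right |a| |b|; have := (h x).2; linarith

/-- Partial integral of a bounded measurable function. -/
lemma integral_right {f : α → β → ℝ} (hf : BM (uncurry f)) (ν : Measure β)
    [IsProbabilityMeasure ν] : BM (fun x => ∫ y, f x y ∂ν) := by
  obtain ⟨C, hC0, hC⟩ := hf.exists_nonneg_bound
  refine ⟨(hf.1.stronglyMeasurable.integral_prod_right).measurable, C, fun x => ?_⟩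
  have := norm_integral_le_of_norm_le_const (μ := ν) (f := fun y => f x y) (C := C)
    (Filter.Eventually.of_forall fun y => hC (x, y))
  simpa using this

end BM

/-- Change of variables for a measure preserving map, any a.e. measurable integrand. -/
lemma mp_integral {α β E : Type*} [MeasurableSpace α] [MeasurableSpace β] [NormedAddCommGroup E]
    [NormedSpace ℝ E] {μ : Measure α} {ν : Measure β} {φ : α → β} (h : MeasurePreserving φ μ ν)
    {f : β → E} (hf : AEStronglyMeasurable f ν) : ∫ x, f (φ x) ∂μ = ∫ y, f y ∂ν := by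
  rw [← h.map_eq]
  rw [integral_map h.measurable.aemeasurable (by rwa [h.map_eq])]

/-- Cauchy-Schwarz from nonnegativity of a quadratic polynomial. -/
lemma cs_of_quadratic {A B C : ℝ} (h : ∀ s : ℝ, 0 ≤ A - 2 * s * B + s ^ 2 * C) :
    B ^ 2 ≤ A * C := by
  have h' : ∀ s : ℝ, 0 ≤ C * (s * s) + (-2 * B) * s + A := fun s => by have := h s; linarith
  have := discrim_le_zero h'
  unfold discrim at this
  linarith

/-- A log-convex sequence with geometric decay at rate `s` decays by `s` in the first step. -/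
lemma seq_ratio (a : ℕ → ℝ) (h0 : ∀ t, 0 ≤ a t) (hlc : ∀ t, (a (t+1))^2 ≤ a t * a (t+2))
    (C s : ℝ) (hs : 0 ≤ s) (hbd : ∀ t, a t ≤ C * s ^ t) : a 1 ≤ s * a 0 := by
  by_contra hcon
  push Not at hcon
  have ha0 : 0 < a 0 := by
    rcases (h0 0).lt_or_eq with h | h
    · exact h
    · exfalso
      have := hlc 0
      rw [← h] at this
      have h1 : a 1 = 0 := by
        have : (a 1)^2 ≤ 0 := by simpa using this
        nlinarith [h0 1, sq_nonneg (a 1), pow_eq_zero_iff (two_ne_zero) |>.1
          (le_antisymm this (sq_nonneg (a 1)))]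
      rw [← h, h1] at hcon
      simp at hcon
  set q := a 1 / a 0 with hq
  have hqs : s < q := by rw [hq, lt_div_iff₀ ha0]; exact hcon
  have hq0 : 0 < q := lt_of_le_of_lt hs hqs
  have key : ∀ t, 0 < a t ∧ q * a t ≤ a (t+1) := by
    intro t
    induction t with
    | zero => exact ⟨ha0, by rw [hq]; field_simp; exact le_rfl⟩
    | succ t ih =>
      obtain ⟨h1, h2⟩ := ih
      have h3 : 0 < a (t+1) := lt_of_lt_of_le (mul_pos hq0 h1) h2
      refine ⟨h3, ?_⟩
      have h4 := hlc t
      have h5 : q * a (t+1) * a t ≤ a (t+2) * a t := by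
        calc q * a (t+1) * a t = (q * a t) * a (t+1) := by ring
          _ ≤ a (t+1) * a (t+1) := mul_le_mul_of_nonneg_right h2 h3.le
          _ = (a (t+1))^2 := by ring
          _ ≤ a t * a (t+2) := h4
          _ = a (t+2) * a t := by ring
      exact le_of_mul_le_mul_right h5 h1
  have hgrow : ∀ t, q ^ t * a 0 ≤ a t := by
    intro t
    induction t with
    | zero => simp
    | succ t ih =>
      calc q ^ (t+1) * a 0 = q * (q ^ t * a 0) := by ring
        _ ≤ q * a t := mul_le_mul_of_nonneg_left ih hq0.le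
        _ ≤ a (t+1) := (key t).2
  rcases hs.lt_or_eq with hs' | hs'
  · have hlt : 1 < q / s := by rwa [one_lt_div hs']
    have htend := tendsto_pow_atTop_atTop_of_one_lt hlt
    obtain ⟨t, ht⟩ := (htend.eventually (Filter.eventually_gt_atTop (C / a 0))).exists
    have h1 := hgrow t
    have h2 := hbd t
    have h3 : (q / s) ^ t ≤ C / a 0 := by
      rw [div_pow, div_le_div_iff₀ (pow_pos hs' t) ha0]
      exact h1.trans h2
    exact absurd ht (not_lt.mpr h3)
  · have h1 := hbd 1
    rw [← hs'] at h1
    simp at h1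
    have := (key 0).2
    have := mul_pos hq0 ha0
    linarith

end Pool.Agent.Lib.MP_4952d6_mp

end

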