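import Pool.Agent.Lib.MP_4952d6_mp.Pk.G02
import Pool.Agent.Lib.MP_4952d6_mp.Pk.G03

/-! Merged modules (to save import time): Dobrushin, Gas, Gas2. -/

/-! ### Dobrushin -/

section

set_option autoImplicit false
set_option linter.unusedSectionVars false
open MeasureTheory Function

namespace Pool.Agent.Lib.MP_4952d6_mp

variable {ι G : Type*} [Fintype ι] [DecidableEq ι] [MeasurableSpace G]

/-- Heat bath data for the (unnormalised) Gibbs weight `g` on configurations `ι → G`. -/
structure HeatBath (μ : Measure G) (g : (ι → G) → ℝ) (p : ι → (ι → G) → G → ℝ) : Prop where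
  g_bm : BM g
  g_nonneg : ∀ x, 0 ≤ g x
  p_bm : ∀ k, BM (fun q : (ι → G) × G => p k q.1 q.2)
  p_nonneg : ∀ k x y, 0 ≤ p k x y
  p_int : ∀ k x, ∫ y, p k x y ∂μ = 1
  p_upd : ∀ k x z y, p k (update x k z) y = p k x y
  balance : ∀ k x y, g x * p k x y = g (update x k y) * p k x (x k)

/-- One heat bath step at the site `k`. -/
noncomputable def avg (μ : Measure G) (p : ι → (ι → G) → G → ℝ) (k : ι) (Φ : (ι → G) → ℝ)
    (x : ι → G) : ℝ := ∫ y, Φ (update x k y) * p k x y ∂μ

/-- The random scan heat bath. -/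
noncomputable def scan (μ : Measure G) (p : ι → (ι → G) → G → ℝ) (Φ : (ι → G) → ℝ)
    (x : ι → G) : ℝ := (Fintype.card ι : ℝ)⁻¹ * ∑ k, avg μ p k Φ x

/-- Oscillation bounds. -/
def Osc (Φ : (ι → G) → ℝ) (d : ι → ℝ) : Prop :=
  (∀ l, 0 ≤ d l) ∧ ∀ l x z, |Φ (update x l z) - Φ x| ≤ d l

section
variable {μ : Measure G} [IsProbabilityMeasure μ] {g : (ι → G) → ℝ} {p : ι → (ι → G) → G → ℝ}

/-- The weighted inner product. -/
noncomputable def ip (μ : Measure G) (g : (ι → G) → ℝ) (Φ Ψ : (ι → G) → ℝ) : ℝ :=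
  ∫ x, Φ x * Ψ x * g x ∂(Measure.pi (fun _ : ι => μ))

lemma slice_bm {Φ : (ι → G) → ℝ} (hΦ : BM Φ) (k : ι) (x : ι → G) :
    BM (fun y => Φ (update x k y)) := by
  refine hΦ.comp ?_
  have := (measurable_upd (ι := ι) (G := G) k).comp (measurable_prodMk_left (x := x))
  exact this

lemma pslice_bm (h : HeatBath μ g p) (k : ι) (x : ι → G) : BM (fun y => p k x y) :=
  (h.p_bm k).comp measurable_prodMk_left

lemma avg_bm (h : HeatBath μ g p) (k : ι) {Φ : (ι → G) → ℝ} (hΦ : BM Φ) :
    BM (avg μ p k Φ) := by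
  refine BM.integral_right (f := fun x y => Φ (update x k y) * p k x y) ?_ μ
  exact (hΦ.comp (measurable_upd k)).mul (h.p_bm k)

lemma avg_integrable (h : HeatBath μ g p) (k : ι) {Φ : (ι → G) → ℝ} (hΦ : BM Φ) (x : ι → G) :
    Integrable (fun y => Φ (update x k y) * p k x y) μ :=
  ((slice_bm hΦ k x).mul (pslice_bm h k x)).integrable μ

lemma avg_update (h : HeatBath μ g p) (k : ι) (Φ : (ι → G) → ℝ) (x : ι → G) (z : G) :
    avg μ p k Φ (update x k z) = avg μ p k Φ x := by
  simp only [avg, update_idem, h.p_upd]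

lemma avg_of_indep (h : HeatBath μ g p) (k : ι) (Φ : (ι → G) → ℝ)
    (hΦ : ∀ x z, Φ (update x k z) = Φ x) (x : ι → G) : avg μ p k Φ x = Φ x := by
  simp only [avg, hΦ]
  rw [integral_const_mul, h.p_int, mul_one]

lemma avg_idem (h : HeatBath μ g p) (k : ι) (Φ : (ι → G) → ℝ) (x : ι → G) :
    avg μ p k (avg μ p k Φ) x = avg μ p k Φ x :=
  avg_of_indep h k _ (fun x z => avg_update h k Φ x z) x

lemma avg_const (h : HeatBath μ g p) (k : ι) (c : ℝ) (x : ι → G) :
    avg μ p k (fun _ => c) x = c :=
  avg_of_indep h k _ (fun _ _ => rfl) x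

lemma avg_sub (h : HeatBath μ g p) (k : ι) {Φ Ψ : (ι → G) → ℝ} (hΦ : BM Φ) (hΨ : BM Ψ)
    (x : ι → G) : avg μ p k (fun y => Φ y - Ψ y) x = avg μ p k Φ x - avg μ p k Ψ x := by
  simp only [avg]
  rw [← integral_sub (avg_integrable h k hΦ x) (avg_integrable h k hΨ x)]
  congr 1; ext y; ring

lemma avg_selfadj (h : HeatBath μ g p) (k : ι) {Φ Ψ : (ι → G) → ℝ} (hΦ : BM Φ) (hΨ : BM Ψ) :
    ip μ g Ψ (avg μ p k Φ) = ip μ g (avg μ p k Ψ) Φ := by
  set π := Measure.pi (fun _ : ι => μ) with hπ
  -- both sides as integrals over the product space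
  have hF : BM (fun q : (ι → G) × G => Ψ q.1 * (Φ (update q.1 k q.2) * p k q.1 q.2) * g q.1) :=
    ((hΨ.comp measurable_fst).mul ((hΦ.comp (measurable_upd k)).mul (h.p_bm k))).mul
      (h.g_bm.comp measurable_fst)
  have hF' : BM (fun q : (ι → G) × G => (Ψ (update q.1 k q.2) * p k q.1 q.2) * Φ q.1 * g q.1) :=
    (((hΨ.comp (measurable_upd k)).mul (h.p_bm k)).mul (hΦ.comp measurable_fst)).mul
      (h.g_bm.comp measurable_fst)
  have h1 : ip μ g Ψ (avg μ p k Φ) = ∫ q, Ψ q.1 * (Φ (update q.1 k q.2) * p k q.1 q.2) * g q.1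
      ∂(π.prod μ) := by
    rw [integral_prod _ (hF.integrable _)]
    simp only [ip, avg]
    congr 1; ext x
    rw [← integral_const_mul, ← integral_mul_const]
  have h2 : ip μ g (avg μ p k Ψ) Φ = ∫ q, (Ψ (update q.1 k q.2) * p k q.1 q.2) * Φ q.1 * g q.1
      ∂(π.prod μ) := by
    rw [integral_prod _ (hF'.integrable _)]
    simp only [ip, avg]
    congr 1; ext x
    rw [← integral_mul_const, ← integral_mul_const]
  rw [h1, h2, ← mp_integral (mp_swap μ k) hF.1.aestronglyMeasurable]
  congr 1; ext q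
  simp only [update_idem, update_eq_self, h.p_upd]
  have := h.balance k q.1 q.2
  calc Ψ (update q.1 k q.2) * (Φ q.1 * p k q.1 (q.1 k)) * g (update q.1 k q.2)
      = Ψ (update q.1 k q.2) * Φ q.1 * (g (update q.1 k q.2) * p k q.1 (q.1 k)) := by ring
    _ = Ψ (update q.1 k q.2) * Φ q.1 * (g q.1 * p k q.1 q.2) := by rw [this]
    _ = _ := by ring

lemma ip_comm (Φ Ψ : (ι → G) → ℝ) : ip μ g Φ Ψ = ip μ g Ψ Φ := by
  simp only [ip, mul_comm (Φ _) (Ψ _)]

lemma ip_integrable (h : HeatBath μ g p) {Φ Ψ : (ι → G) → ℝ} (hΦ : BM Φ) (hΨ : BM Ψ) :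
    Integrable (fun x => Φ x * Ψ x * g x) (Measure.pi (fun _ : ι => μ)) :=
  ((hΦ.mul hΨ).mul h.g_bm).integrable _

lemma ip_self_nonneg (h : HeatBath μ g p) (Φ : (ι → G) → ℝ) : 0 ≤ ip μ g Φ Φ :=
  integral_nonneg fun x => mul_nonneg (mul_self_nonneg _) (h.g_nonneg x)

lemma ip_sub_left (h : HeatBath μ g p) {Φ Φ' Ψ : (ι → G) → ℝ} (hΦ : BM Φ) (hΦ' : BM Φ')
    (hΨ : BM Ψ) : ip μ g (fun x => Φ x - Φ' x) Ψ = ip μ g Φ Ψ - ip μ g Φ' Ψ := by
  simp only [ip]
  rw [← integral_sub (ip_integrable h hΦ hΨ) (ip_integrable h hΦ' hΨ)]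
  congr 1; ext x; ring

lemma ip_sub_right (h : HeatBath μ g p) {Φ Φ' Ψ : (ι → G) → ℝ} (hΦ : BM Φ) (hΦ' : BM Φ')
    (hΨ : BM Ψ) : ip μ g Ψ (fun x => Φ x - Φ' x) = ip μ g Ψ Φ - ip μ g Ψ Φ' := by
  rw [ip_comm, ip_sub_left h hΦ hΦ' hΨ, ip_comm Φ, ip_comm Φ']

lemma ip_cs (h : HeatBath μ g p) {Φ Ψ : (ι → G) → ℝ} (hΦ : BM Φ) (hΨ : BM Ψ) :
    (ip μ g Φ Ψ) ^ 2 ≤ ip μ g Φ Φ * ip μ g Ψ Ψ := by
  refine cs_of_quadratic fun s => ?_
  have h0 : 0 ≤ ip μ g (fun x => Φ x - s * Ψ x) (fun x => Φ x - s * Ψ x) := ip_self_nonneg h _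
  have hsΨ : BM (fun x => s * Ψ x) := hΨ.const_mul s
  have e : ip μ g (fun x => Φ x - s * Ψ x) (fun x => Φ x - s * Ψ x)
      = ip μ g Φ Φ - 2 * s * ip μ g Φ Ψ + s ^ 2 * ip μ g Ψ Ψ := by
    rw [ip_sub_left h hΦ hsΨ (hΦ.sub hsΨ), ip_sub_right h hΦ hsΨ hΦ, ip_sub_right h hΦ hsΨ hsΨ]
    have e1 : ip μ g Φ (fun x => s * Ψ x) = s * ip μ g Φ Ψ := by
      simp only [ip]; rw [← integral_const_mul]; congr 1; ext x; ring
    have e2 : ip μ g (fun x => s * Ψ x) Φ = s * ip μ g Φ Ψ := by rw [ip_comm, e1]
    have e3 : ip μ g (fun x => s * Ψ x) (fun x => s * Ψ x) = s ^ 2 * ip μ g Ψ Ψ := by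
      simp only [ip]; rw [← integral_const_mul]; congr 1; ext x; ring
    rw [e1, e2, e3]; ring
  rw [e] at h0
  exact h0

/-- `avg` is an orthogonal projection. -/
lemma ip_sub_avg (h : HeatBath μ g p) (k : ι) {Φ : (ι → G) → ℝ} (hΦ : BM Φ) :
    ip μ g (fun x => Φ x - avg μ p k Φ x) (fun x => Φ x - avg μ p k Φ x)
      = ip μ g Φ Φ - ip μ g Φ (avg μ p k Φ) := by
  have ha := avg_bm h k hΦ
  rw [ip_sub_left h hΦ ha (hΦ.sub ha), ip_sub_right h hΦ ha hΦ, ip_sub_right h hΦ ha ha]
  have e1 : ip μ g (avg μ p k Φ) Φ = ip μ g Φ (avg μ p k Φ) := ip_comm _ _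
  have e2 : ip μ g (avg μ p k Φ) (avg μ p k Φ) = ip μ g Φ (avg μ p k Φ) := by
    rw [← avg_selfadj h k ha hΦ]
    congr 1
    ext x; exact avg_idem h k Φ x
  rw [e1, e2]; ring

lemma scan_bm (h : HeatBath μ g p) {Φ : (ι → G) → ℝ} (hΦ : BM Φ) : BM (scan μ p Φ) :=
  (BM.finset_sum Finset.univ fun k _ => avg_bm h k hΦ).const_mul _

lemma ip_scan (h : HeatBath μ g p) {Φ Ψ : (ι → G) → ℝ} (hΦ : BM Φ) (hΨ : BM Ψ) :
    ip μ g Ψ (scan μ p Φ) = (Fintype.card ι : ℝ)⁻¹ * ∑ k, ip μ g Ψ (avg μ p k Φ) := by
  simp only [ip, scan]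
  rw [← integral_finsetSum _ (fun k _ => ip_integrable h hΨ (avg_bm h k hΦ)),
    ← integral_const_mul]
  congr 1; ext x
  rw [Finset.mul_sum, Finset.mul_sum, Finset.mul_sum, Finset.sum_mul]
  refine Finset.sum_congr rfl fun k _ => by ring

lemma scan_selfadj (h : HeatBath μ g p) {Φ Ψ : (ι → G) → ℝ} (hΦ : BM Φ) (hΨ : BM Ψ) :
    ip μ g Ψ (scan μ p Φ) = ip μ g (scan μ p Ψ) Φ := by
  rw [ip_scan h hΦ hΨ, ip_comm, ip_scan h hΨ hΦ]
  congr 1
  refine Finset.sum_congr rfl fun k _ => ?_
  rw [avg_selfadj h k hΦ hΨ, ip_comm]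

lemma scan_const (h : HeatBath μ g p) [Nonempty ι] (c : ℝ) (x : ι → G) :
    scan μ p (fun _ => c) x = c := by
  simp only [scan, avg_const h, Finset.sum_const, Finset.card_univ, nsmul_eq_mul]
  have : (Fintype.card ι : ℝ) ≠ 0 := by exact_mod_cast Fintype.card_ne_zero
  field_simp

/-- Telescoping: the total oscillation is at most the sum of the single site oscillations. -/
lemma Osc.total {Φ : (ι → G) → ℝ} {d : ι → ℝ} (h : Osc Φ d) (x x' : ι → G) :
    |Φ x' - Φ x| ≤ ∑ l, d l := by
  have key : ∀ s : Finset ι, |Φ (s.piecewise x' x) - Φ x| ≤ ∑ l ∈ s, d l := by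
    intro s
    induction s using Finset.induction_on with
    | empty => simp
    | insert a s ha ih =>
      rw [Finset.piecewise_insert, Finset.sum_insert ha]
      calc |Φ (update (s.piecewise x' x) a (x' a)) - Φ x|
          = |(Φ (update (s.piecewise x' x) a (x' a)) - Φ (s.piecewise x' x))
              + (Φ (s.piecewise x' x) - Φ x)| := by ring_nf
        _ ≤ _ := (abs_add_le _ _).trans (add_le_add (h.2 _ _ _) ih)
  simpa using key Finset.univ

/-- Influence coefficients. -/
def Influence (μ : Measure G) (p : ι → (ι → G) → G → ℝ) (c : ι → ι → ℝ) : Prop :=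
  (∀ k l, 0 ≤ c k l) ∧ ∀ k l, k ≠ l → ∀ x z, ∫ y, |p k (update x l z) y - p k x y| ∂μ ≤ c k l

lemma Osc.avg (h : HeatBath μ g p) {c : ι → ι → ℝ} (hc : Influence μ p c) {Φ : (ι → G) → ℝ}
    (hΦ : BM Φ) {d : ι → ℝ} (hd : Osc Φ d) (k : ι) :
    Osc (avg μ p k Φ) (fun l => if l = k then 0 else d l + c k l * d k) := by
  refine ⟨fun l => ?_, fun l x z => ?_⟩
  · dsimp only
    split_ifs
    · exact le_rfl
    · exact add_nonneg (hd.1 l) (mul_nonneg (hc.1 _ _) (hd.1 k))
  · dsimp only
    split_ifs with hlk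
    · subst hlk
      rw [avg_update h]; simp
    · have hkl : k ≠ l := fun h => hlk h.symm
      have e1 : Pool.Agent.Lib.MP_4952d6_mp.avg μ p k Φ (update x l z)
          - Pool.Agent.Lib.MP_4952d6_mp.avg μ p k Φ x
          = (∫ y, (Φ (update (update x k y) l z) - Φ (update x k y)) * p k (update x l z) y ∂μ)
            + ∫ y, (Φ (update x k y) - Φ x) * (p k (update x l z) y - p k x y) ∂μ := by
        have i1 := avg_integrable h k hΦ (update x l z)
        have i2 := avg_integrable h k hΦ x
        have i3 : Integrable (fun y => Φ (update x k y) * p k (update x l z) y) μ :=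
          ((slice_bm hΦ k x).mul (pslice_bm h k _)).integrable μ
        have i4 : Integrable (fun y => Φ x * p k (update x l z) y) μ :=
          ((BM.const (Φ x)).mul (pslice_bm h k _)).integrable μ
        have i5 : Integrable (fun y => Φ x * p k x y) μ :=
          ((BM.const (Φ x)).mul (pslice_bm h k _)).integrable μ
        have z1 : ∫ y, Φ x * p k (update x l z) y ∂μ = Φ x := by
          rw [integral_const_mul, h.p_int, mul_one]
        have z2 : ∫ y, Φ x * p k x y ∂μ = Φ x := by
          rw [integral_const_mul, h.p_int, mul_one]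
        have s1 : ∫ y, (Φ (update (update x k y) l z) - Φ (update x k y)) * p k (update x l z) y ∂μ
            = (∫ y, Φ (update (update x l z) k y) * p k (update x l z) y ∂μ)
              - ∫ y, Φ (update x k y) * p k (update x l z) y ∂μ := by
          rw [← integral_sub i1 i3]
          congr 1; ext y
          rw [update_comm hkl]; ring
        have s2 : ∫ y, (Φ (update x k y) - Φ x) * (p k (update x l z) y - p k x y) ∂μ
            = ((∫ y, Φ (update x k y) * p k (update x l z) y ∂μ) - ∫ y, Φ (update x k y) * p k x y ∂μ)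
              - ((∫ y, Φ x * p k (update x l z) y ∂μ) - ∫ y, Φ x * p k x y ∂μ) := by
          have i32 : Integrable (fun y => Φ (update x k y) * p k (update x l z) y
            - Φ (update x k y) * p k x y) μ := i3.sub i2
          have i45 : Integrable (fun y => Φ x * p k (update x l z) y - Φ x * p k x y) μ :=
            i4.sub i5
          rw [← integral_sub i3 i2, ← integral_sub i4 i5, ← integral_sub i32 i45]
          congr 1; ext y
          ring
        rw [s1, s2, z1, z2]
        simp only [Pool.Agent.Lib.MP_4952d6_mp.avg]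
        ring
      rw [e1]
      refine (abs_add_le _ _).trans (add_le_add ?_ ?_)
      · have ib : Integrable (fun y => |(Φ (update (update x k y) l z) - Φ (update x k y))
            * p k (update x l z) y|) μ := by
          have b1 : BM (fun y => Φ (update (update x k y) l z)) := by
            simp_rw [fun y => update_comm hkl y z x]
            exact slice_bm hΦ k _
          exact (((b1.sub (slice_bm hΦ k x)).mul (pslice_bm h k _)).abs).integrable μ
        have ic : Integrable (fun y => d l * p k (update x l z) y) μ :=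
          ((BM.const (d l)).mul (pslice_bm h k _)).integrable μ
        calc |∫ y, (Φ (update (update x k y) l z) - Φ (update x k y)) * p k (update x l z) y ∂μ|
            ≤ ∫ y, |(Φ (update (update x k y) l z) - Φ (update x k y)) * p k (update x l z) y| ∂μ :=
              abs_integral_le_integral_abs
          _ ≤ ∫ y, d l * p k (update x l z) y ∂μ := by
              refine integral_mono ib ic fun y => ?_
              dsimp only
              rw [abs_mul, abs_of_nonneg (h.p_nonneg _ _ _)]
              exact mul_le_mul_of_nonneg_right (hd.2 l _ z) (h.p_nonneg _ _ _)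
          _ = d l := by rw [integral_const_mul, h.p_int, mul_one]
      · have b2 : BM (fun y => p k (update x l z) y - p k x y) :=
          (pslice_bm h k _).sub (pslice_bm h k _)
        have ib : Integrable (fun y => |(Φ (update x k y) - Φ x)
            * (p k (update x l z) y - p k x y)|) μ :=
          ((((slice_bm hΦ k x).sub (BM.const _)).mul b2).abs).integrable μ
        have ic : Integrable (fun y => d k * |p k (update x l z) y - p k x y|) μ :=
          ((BM.const (d k)).mul b2.abs).integrable μ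
        calc |∫ y, (Φ (update x k y) - Φ x) * (p k (update x l z) y - p k x y) ∂μ|
            ≤ ∫ y, |(Φ (update x k y) - Φ x) * (p k (update x l z) y - p k x y)| ∂μ :=
              abs_integral_le_integral_abs
          _ ≤ ∫ y, d k * |p k (update x l z) y - p k x y| ∂μ := by
              refine integral_mono ib ic fun y => ?_
              dsimp only
              rw [abs_mul]
              exact mul_le_mul_of_nonneg_right (hd.2 k _ y) (abs_nonneg _)
          _ = d k * ∫ y, |p k (update x l z) y - p k x y| ∂μ := integral_const_mul _ _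
          _ ≤ d k * c k l := mul_le_mul_of_nonneg_left (hc.2 k l hkl x z) (hd.1 k)
          _ = c k l * d k := mul_comm _ _

/-- One scan contracts the total oscillation. -/
lemma Osc.scan (h : HeatBath μ g p) [Nonempty ι] {c : ι → ι → ℝ} (hc : Influence μ p c) {θ : ℝ}
    (hθ : ∀ k, ∑ l ∈ Finset.univ.erase k, c k l ≤ θ) {Φ : (ι → G) → ℝ}
    (hΦ : BM Φ) {d : ι → ℝ} (hd : Osc Φ d) :
    ∃ d' : ι → ℝ, Osc (scan μ p Φ) d' ∧
      ∑ l, d' l ≤ (1 - (1 - θ) / Fintype.card ι) * ∑ l, d l := by
  set n : ℝ := (Fintype.card ι : ℝ) with hn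
  have hn0 : 0 < n := by rw [hn]; exact_mod_cast Fintype.card_pos
  set e : ι → ι → ℝ := fun k l => if l = k then 0 else d l + c k l * d k with he
  have hosc : ∀ k, Osc (Pool.Agent.Lib.MP_4952d6_mp.avg μ p k Φ) (e k) :=
    fun k => Osc.avg h hc hΦ hd k
  refine ⟨fun l => n⁻¹ * ∑ k, e k l, ⟨fun l => ?_, fun l x z => ?_⟩, ?_⟩
  · exact mul_nonneg (inv_nonneg.2 hn0.le) (Finset.sum_nonneg fun k _ => (hosc k).1 l)
  · simp only [Pool.Agent.Lib.MP_4952d6_mp.scan, ← hn]
    rw [← mul_sub, ← Finset.sum_sub_distrib, abs_mul, abs_of_pos (inv_pos.2 hn0)]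
    refine mul_le_mul_of_nonneg_left ?_ (inv_nonneg.2 hn0.le)
    exact (Finset.abs_sum_le_sum_abs _ _).trans (Finset.sum_le_sum fun k _ => (hosc k).2 l x z)
  · rw [← Finset.mul_sum, Finset.sum_comm]
    have hk : ∀ k, ∑ l, e k l ≤ ∑ l, d l - (1 - θ) * d k := by
      intro k
      have h1 : ∑ l, e k l = ∑ l ∈ Finset.univ.erase k, (d l + c k l * d k) := by
        rw [← Finset.add_sum_erase Finset.univ _ (Finset.mem_univ k)]
        simp only [he, if_true, zero_add]
        refine Finset.sum_congr rfl fun l hl => ?_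
        rw [if_neg (Finset.ne_of_mem_erase hl)]
      rw [h1, Finset.sum_add_distrib, ← Finset.sum_mul]
      have h2 : ∑ l, d l = d k + ∑ l ∈ Finset.univ.erase k, d l :=
        (Finset.add_sum_erase Finset.univ _ (Finset.mem_univ k)).symm
      have h3 := mul_le_mul_of_nonneg_right (hθ k) (hd.1 k)
      linarith
    calc n⁻¹ * ∑ k, ∑ l, e k l ≤ n⁻¹ * ∑ k, (∑ l, d l - (1 - θ) * d k) :=
          mul_le_mul_of_nonneg_left (Finset.sum_le_sum fun k _ => hk k) (inv_nonneg.2 hn0.le)
      _ = n⁻¹ * (n * ∑ l, d l - (1 - θ) * ∑ k, d k) := by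
          rw [Finset.sum_sub_distrib, ← Finset.mul_sum, Finset.sum_const, Finset.card_univ,
            nsmul_eq_mul]
      _ = (1 - (1 - θ) / n) * ∑ l, d l := by field_simp

/-- **Poincaré inequality** for heat bath dynamics under Dobrushin's condition. -/
theorem dobrushin_poincare (h : HeatBath μ g p) [Nonempty ι] {c : ι → ι → ℝ}
    (hc : Influence μ p c) {θ : ℝ} (hθ0 : 0 ≤ θ) (hθ1 : θ ≤ 1)
    (hθ : ∀ k, ∑ l ∈ Finset.univ.erase k, c k l ≤ θ) {Φ : (ι → G) → ℝ} (hΦ : BM Φ)
    {d : ι → ℝ} (hd : Osc Φ d) {m : ℝ}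
    (hm : ∫ x, (Φ x - m) * g x ∂(Measure.pi (fun _ : ι => μ)) = 0) :
    (1 - θ) * ∫ x, (Φ x - m) ^ 2 * g x ∂(Measure.pi (fun _ : ι => μ))
      ≤ ∑ k, ∫ x, (Φ x - avg μ p k Φ x) ^ 2 * g x ∂(Measure.pi (fun _ : ι => μ)) := by
  set n : ℝ := (Fintype.card ι : ℝ) with hn
  have hn1 : 1 ≤ n := by rw [hn]; exact_mod_cast Fintype.card_pos
  have hn0 : 0 < n := by linarith
  set r : ℝ := 1 - (1 - θ) / n with hr
  have hr0 : 0 ≤ r := by
    rw [hr, sub_nonneg, div_le_one hn0]; linarith
  set f : (ι → G) → ℝ := fun x => Φ x - m with hf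
  have hfb : BM f := hΦ.sub (BM.const m)
  -- iterates
  set F : ℕ → (ι → G) → ℝ := fun t => (scan μ p)^[t] f with hF
  have hF0 : F 0 = f := rfl
  have hFs : ∀ t, F (t+1) = scan μ p (F t) := fun t => by
    simp only [hF, Function.iterate_succ_apply']
  have hFb : ∀ t, BM (F t) := by
    intro t
    induction t with
    | zero => exact hfb
    | succ t ih => rw [hFs]; exact scan_bm h ih
  have hmean : ∀ t, ip μ g (fun _ => 1) (F t) = 0 := by
    intro t
    induction t with
    | zero =>
      rw [hF0]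
      simpa [ip, hf] using hm
    | succ t ih =>
      rw [hFs, scan_selfadj h (hFb t) (BM.const 1)]
      have : scan μ p (fun _ : ι → G => (1:ℝ)) = fun _ => 1 := by
        ext x; exact scan_const h 1 x
      rw [this]; exact ih
  have hosc : ∀ t, ∃ d' : ι → ℝ, Osc (F t) d' ∧ ∑ l, d' l ≤ r ^ t * ∑ l, d l := by
    intro t
    induction t with
    | zero =>
      refine ⟨d, ⟨hd.1, fun l x z => ?_⟩, by simp⟩
      rw [hF0]; simp only [hf]
      have := hd.2 l x z
      simpa using this
    | succ t ih =>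
      obtain ⟨d', h1, h2⟩ := ih
      obtain ⟨d'', h3, h4⟩ := Osc.scan h hc hθ (hFb t) h1
      refine ⟨d'', by rw [hFs]; exact h3, h4.trans ?_⟩
      calc r * ∑ l, d' l ≤ r * (r ^ t * ∑ l, d l) := mul_le_mul_of_nonneg_left h2 hr0
        _ = _ := by ring
  set Z : ℝ := ∫ x, g x ∂(Measure.pi (fun _ : ι => μ)) with hZ
  have hZ0 : 0 ≤ Z := integral_nonneg h.g_nonneg
  set Δ : ℝ := ∑ l, d l with hΔ
  have hΔ0 : 0 ≤ Δ := Finset.sum_nonneg fun l _ => hd.1 l
  -- the norms decay
  have hdecay : ∀ t, ip μ g (F t) (F t) ≤ (Δ ^ 2 * Z) * (r ^ 2) ^ t := by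
    intro t
    obtain ⟨d', h1, h2⟩ := hosc t
    rcases hZ0.lt_or_eq with hZp | hZz
    · -- pointwise bound
      have hpt : ∀ x, |F t x| ≤ r ^ t * Δ := by
        intro x
        have hint : ∫ y, (F t x - F t y) * g y ∂(Measure.pi (fun _ : ι => μ)) = F t x * Z := by
          have : ∀ y, (F t x - F t y) * g y = F t x * g y - 1 * F t y * g y := fun y => by ring
          simp_rw [this]
          rw [integral_sub ((h.g_bm.const_mul _).integrable _)
            (ip_integrable h (BM.const 1) (hFb t)), integral_const_mul]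
          have := hmean t
          simp only [ip] at this
          rw [this, sub_zero]
        have hle : |∫ y, (F t x - F t y) * g y ∂(Measure.pi (fun _ : ι => μ))|
            ≤ ∫ y, (r ^ t * Δ) * g y ∂(Measure.pi (fun _ : ι => μ)) := by
          refine (abs_integral_le_integral_abs).trans (integral_mono ?_ ?_ fun y => ?_)
          · exact ((((BM.const _).sub (hFb t)).mul h.g_bm).abs).integrable _
          · exact (h.g_bm.const_mul _).integrable _
          · dsimp only
            rw [abs_mul, abs_of_nonneg (h.g_nonneg y)]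
            exact mul_le_mul_of_nonneg_right ((h1.total y x).trans h2) (h.g_nonneg y)
        rw [hint, integral_const_mul, ← hZ, abs_mul, abs_of_pos hZp] at hle
        exact le_of_mul_le_mul_right hle hZp
      calc ip μ g (F t) (F t) ≤ ∫ x, (r ^ t * Δ) ^ 2 * g x ∂(Measure.pi (fun _ : ι => μ)) := by
            refine integral_mono (ip_integrable h (hFb t) (hFb t))
              ((h.g_bm.const_mul _).integrable _) fun x => ?_
            dsimp only
            refine mul_le_mul_of_nonneg_right ?_ (h.g_nonneg x)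
            rw [← sq, ← sq_abs]
            exact pow_le_pow_left₀ (abs_nonneg _) (hpt x) 2
        _ = (Δ ^ 2 * Z) * (r ^ 2) ^ t := by
            rw [integral_const_mul, ← hZ]; ring
    · -- zero total mass
      have hg0 : g =ᵐ[Measure.pi (fun _ : ι => μ)] 0 :=
        (integral_eq_zero_iff_of_nonneg h.g_nonneg (h.g_bm.integrable _)).1 (by rw [← hZ, ← hZz])
      have : ip μ g (F t) (F t) = 0 := by
        simp only [ip]
        rw [integral_congr_ae (g := fun _ => (0:ℝ))]
        · simp
        · filter_upwards [hg0] with x hx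
          rw [hx]; simp
      rw [this, ← hZz]; simp
  -- log-convexity
  have hlc : ∀ t, (ip μ g (F (t+1)) (F (t+1))) ^ 2
      ≤ ip μ g (F t) (F t) * ip μ g (F (t+2)) (F (t+2)) := by
    intro t
    have : ip μ g (F (t+1)) (F (t+1)) = ip μ g (F t) (F (t+2)) := by
      rw [hFs (t+1), hFs t, scan_selfadj h (scan_bm h (hFb t)) (hFb t)]
    rw [this]
    exact ip_cs h (hFb t) (hFb (t+2))
  have hratio := seq_ratio (fun t => ip μ g (F t) (F t)) (fun t => ip_self_nonneg h _) hlc
    (Δ ^ 2 * Z) (r ^ 2) (sq_nonneg r) hdecay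
  have ha0 := ip_self_nonneg h (F 0)
  -- ⟨f, P f⟩ ≤ r ‖f‖²
  have hfP : ip μ g f (scan μ p f) ≤ r * ip μ g f f := by
    have h1 : (ip μ g f (scan μ p f)) ^ 2 ≤ (r * ip μ g f f) ^ 2 := by
      calc (ip μ g f (scan μ p f)) ^ 2 ≤ ip μ g f f * ip μ g (scan μ p f) (scan μ p f) :=
            ip_cs h hfb (scan_bm h hfb)
        _ = ip μ g (F 0) (F 0) * ip μ g (F 1) (F 1) := by
            rw [show F 1 = scan μ p (F 0) from hFs 0, hF0]
        _ ≤ ip μ g (F 0) (F 0) * (r ^ 2 * ip μ g (F 0) (F 0)) :=
            mul_le_mul_of_nonneg_left hratio ha0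
        _ = (r * ip μ g f f) ^ 2 := by rw [hF0]; ring
    exact le_of_abs_le (by
      have h2 := Real.sqrt_le_sqrt h1
      rwa [Real.sqrt_sq_eq_abs, Real.sqrt_sq (mul_nonneg hr0 (ip_self_nonneg h f))] at h2)
  -- conclusion
  have hsum : ∑ k, ip μ g (fun x => f x - avg μ p k f x) (fun x => f x - avg μ p k f x)
      = n * (ip μ g f f - ip μ g f (scan μ p f)) := by
    simp_rw [ip_sub_avg h _ hfb]
    rw [Finset.sum_sub_distrib, ip_scan h hfb hfb, ← hn, Finset.sum_const, Finset.card_univ,
      nsmul_eq_mul, ← hn]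
    field_simp
  have hfm : ∀ k x, f x - avg μ p k f x = Φ x - avg μ p k Φ x := by
    intro k x
    rw [hf, avg_sub h k hΦ (BM.const m) x, avg_const h k m x]
    ring
  simp_rw [hfm] at hsum
  have e1 : ip μ g f f = ∫ x, (Φ x - m) ^ 2 * g x ∂(Measure.pi (fun _ : ι => μ)) := by
    simp only [ip, hf, sq]
  have e2 : ∀ k, ip μ g (fun x => Φ x - avg μ p k Φ x) (fun x => Φ x - avg μ p k Φ x)
      = ∫ x, (Φ x - avg μ p k Φ x) ^ 2 * g x ∂(Measure.pi (fun _ : ι => μ)) := by
    intro k; simp only [ip, sq]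
  simp_rw [e2] at hsum
  rw [hsum, ← e1]
  have h5 : n * (1 - r) = 1 - θ := by rw [hr]; field_simp; ring
  calc (1 - θ) * ip μ g f f = n * ((1 - r) * ip μ g f f) := by rw [← h5]; ring
    _ ≤ n * (ip μ g f f - ip μ g f (scan μ p f)) :=
        mul_le_mul_of_nonneg_left (by linarith) hn0.le

end

end Pool.Agent.Lib.MP_4952d6_mp

end

/-! ### Gas -/

section

set_option autoImplicit false
set_option linter.unusedSectionVars false
set_option linter.unusedVariables false
open MeasureTheory Function

namespace Pool.Agent.Lib.MP_4952d6_mp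

section comb
variable {ι : Type*} [LinearOrder ι]

/-- Product over the pairs of a finite set. -/
lemma prod_pairs_insert {w : ι → ι → ℝ} (hw : ∀ a b, w a b = w b a) {S : Finset ι} {k : ι}
    (hk : k ∉ S) :
    ∏ a ∈ insert k S, ∏ b ∈ (insert k S).filter (· < a), w a b
      = (∏ a ∈ S, ∏ b ∈ S.filter (· < a), w a b) * ∏ b ∈ S, w k b := by
  simp only [Finset.prod_filter]
  rw [Finset.prod_insert hk, Finset.prod_insert hk]
  simp only [lt_self_iff_false, if_false, one_mul]
  have h1 : ∀ a ∈ S, (∏ b ∈ insert k S, if b < a then w a b else 1)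
      = (if k < a then w a k else 1) * ∏ b ∈ S, (if b < a then w a b else 1) :=
    fun a _ => Finset.prod_insert hk
  rw [Finset.prod_congr rfl h1, Finset.prod_mul_distrib, ← mul_assoc, ← Finset.prod_mul_distrib,
    mul_comm]
  congr 1
  refine Finset.prod_congr rfl fun b hb => ?_
  rcases lt_trichotomy b k with h | h | h
  · simp [h, not_lt.2 h.le]
  · exact absurd (h ▸ hb) hk
  · simp [h, not_lt.2 h.le, hw b k]

end comb

variable {ι G : Type*} [Fintype ι] [LinearOrder ι] [MeasurableSpace G] [AddCommGroup G]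

/-- One body factor: product of `F (y - x k)` over `k ∈ S`. -/
def oneB (F : G → ℝ) (S : Finset ι) (x : ι → G) (y : G) : ℝ := ∏ k ∈ S, F (y - x k)

/-- Pair weight: product of `F (x k - x l)` over pairs in `S`. -/
def pairW (F : G → ℝ) (S : Finset ι) (x : ι → G) : ℝ :=
  ∏ k ∈ S, ∏ l ∈ S.filter (· < k), F (x k - x l)

/-- Data for the gas: weight function `F = 1 - ω`. -/
structure GasFn (μ : Measure G) (F : G → ℝ) : Prop where
  meas : Measurable F
  nonneg : ∀ y, 0 ≤ F y
  le_one : ∀ y, F y ≤ 1
  even : ∀ y, F (-y) = F y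

section
variable {μ : Measure G} {F : G → ℝ}

lemma GasFn.bm (h : GasFn μ F) : BM F := BM.of_mem_Icc h.meas fun x => ⟨h.nonneg x, h.le_one x⟩

lemma GasFn.symm (h : GasFn μ F) (y z : G) : F (y - z) = F (z - y) := by
  rw [← h.even, neg_sub]

lemma oneB_nonneg (h : GasFn μ F) (S : Finset ι) (x : ι → G) (y : G) : 0 ≤ oneB F S x y :=
  Finset.prod_nonneg fun k _ => h.nonneg _

lemma oneB_le_one (h : GasFn μ F) (S : Finset ι) (x : ι → G) (y : G) : oneB F S x y ≤ 1 :=
  Finset.prod_le_one (fun k _ => h.nonneg _) fun k _ => h.le_one _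

lemma pairW_nonneg (h : GasFn μ F) (S : Finset ι) (x : ι → G) : 0 ≤ pairW F S x :=
  Finset.prod_nonneg fun k _ => Finset.prod_nonneg fun l _ => h.nonneg _

lemma pairW_le_one (h : GasFn μ F) (S : Finset ι) (x : ι → G) : pairW F S x ≤ 1 :=
  Finset.prod_le_one (fun k _ => Finset.prod_nonneg fun l _ => h.nonneg _)
    fun k _ => Finset.prod_le_one (fun l _ => h.nonneg _) fun l _ => h.le_one _

lemma oneB_insert (S : Finset ι) {k : ι} (hk : k ∉ S) (x : ι → G) (y : G) :
    oneB F (insert k S) x y = F (y - x k) * oneB F S x y := Finset.prod_insert hk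

lemma oneB_erase {S : Finset ι} {k : ι} (hk : k ∈ S) (x : ι → G) (y : G) :
    oneB F S x y = F (y - x k) * oneB F (S.erase k) x y := by
  rw [← oneB_insert (S.erase k) (Finset.notMem_erase k S), Finset.insert_erase hk]

lemma pairW_insert (h : GasFn μ F) (S : Finset ι) {k : ι} (hk : k ∉ S) (x : ι → G) :
    pairW F (insert k S) x = pairW F S x * oneB F S x (x k) :=
  prod_pairs_insert (w := fun a b => F (x a - x b)) (fun a b => h.symm _ _) hk

lemma pairW_erase (h : GasFn μ F) {S : Finset ι} {k : ι} (hk : k ∈ S) (x : ι → G) :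
    pairW F S x = pairW F (S.erase k) x * oneB F (S.erase k) x (x k) := by
  rw [← pairW_insert h (S.erase k) (Finset.notMem_erase k S), Finset.insert_erase hk]

lemma oneB_update_of_notMem {S : Finset ι} {k : ι} (hk : k ∉ S) (x : ι → G) (z y : G) :
    oneB F S (update x k z) y = oneB F S x y := by
  refine Finset.prod_congr rfl fun l hl => ?_
  rw [update_of_ne (show l ≠ k from fun h => hk (h ▸ hl))]

lemma pairW_update_of_notMem {S : Finset ι} {k : ι} (hk : k ∉ S) (x : ι → G) (z : G) :
    pairW F S (update x k z) = pairW F S x := by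
  refine Finset.prod_congr rfl fun l hl => Finset.prod_congr rfl fun l' hl' => ?_
  rw [update_of_ne (show l ≠ k from fun h => hk (h ▸ hl)),
    update_of_ne (show l' ≠ k from fun h => hk (h ▸ (Finset.mem_filter.1 hl').1))]

/-- Weierstrass product inequality. -/
lemma one_sub_sum_le_prod {κ : Type*} (S : Finset κ) (f : κ → ℝ) (h0 : ∀ k ∈ S, 0 ≤ f k)
    (h1 : ∀ k ∈ S, f k ≤ 1) : 1 - ∑ k ∈ S, (1 - f k) ≤ ∏ k ∈ S, f k := by
  classical
  induction S using Finset.induction_on with
  | empty => simp
  | insert a S ha ih =>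
    rw [Finset.sum_insert ha, Finset.prod_insert ha]
    have ih' := ih (fun k hk => h0 k (Finset.mem_insert_of_mem hk))
      (fun k hk => h1 k (Finset.mem_insert_of_mem hk))
    have ha0 := h0 a (Finset.mem_insert_self _ _)
    have ha1 := h1 a (Finset.mem_insert_self _ _)
    have hs : 0 ≤ ∑ k ∈ S, (1 - f k) :=
      Finset.sum_nonneg fun k hk => sub_nonneg.2 (h1 k (Finset.mem_insert_of_mem hk))
    have hp0 : 0 ≤ ∏ k ∈ S, f k := Finset.prod_nonneg fun k hk => h0 k (Finset.mem_insert_of_mem hk)
    have hp1 : ∏ k ∈ S, f k ≤ 1 := Finset.prod_le_one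
      (fun k hk => h0 k (Finset.mem_insert_of_mem hk)) fun k hk => h1 k (Finset.mem_insert_of_mem hk)
    nlinarith [mul_nonneg (sub_nonneg.2 ha1) (sub_nonneg.2 hp1)]

end

section
variable [MeasurableAdd₂ G] [MeasurableNeg G] {μ : Measure G} [IsProbabilityMeasure μ]
  [μ.IsAddLeftInvariant] [μ.IsNegInvariant] {F : G → ℝ}

lemma integral_shift {E : Type*} [NormedAddCommGroup E] [NormedSpace ℝ E] (f : G → E) (z : G) :
    ∫ y, f (y - z) ∂μ = ∫ y, f y ∂μ := by
  have := integral_add_left_eq_self (μ := μ) f (-z)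
  simpa only [sub_eq_add_neg, add_comm] using this

lemma integral_reflect {E : Type*} [NormedAddCommGroup E] [NormedSpace ℝ E] (f : G → E) (z : G) :
    ∫ y, f (z - y) ∂μ = ∫ y, f y ∂μ := by
  have h := integral_neg_eq_self (μ := μ) (fun y => f (y + z))
  have h2 := integral_add_left_eq_self (μ := μ) f z
  calc ∫ y, f (z - y) ∂μ = ∫ y, f (-y + z) ∂μ := by
        congr 1; ext y; congr 1; abel
    _ = ∫ y, f (y + z) ∂μ := h
    _ = ∫ y, f (z + y) ∂μ := by congr 1; ext y; rw [add_comm]
    _ = _ := h2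

lemma measurable_sub_fst_snd : Measurable (fun q : G × G => q.1 - q.2) := by
  simp_rw [sub_eq_add_neg]
  exact measurable_fst.add measurable_snd.neg

lemma measurable_sub' {α : Type*} [MeasurableSpace α] {f g : α → G} (hf : Measurable f)
    (hg : Measurable g) : Measurable (fun q => f q - g q) := by
  simp_rw [sub_eq_add_neg]
  exact hf.add hg.neg

lemma oneB_bm (h : GasFn μ F) (S : Finset ι) :
    BM (fun q : (ι → G) × G => oneB F S q.1 q.2) := by
  refine BM.finset_prod S fun k _ => h.bm.comp ?_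
  exact measurable_sub' measurable_snd ((measurable_pi_apply k).comp measurable_fst)

lemma oneB_bm_right (h : GasFn μ F) (S : Finset ι) (x : ι → G) : BM (fun y => oneB F S x y) :=
  (oneB_bm h S).comp measurable_prodMk_left

lemma pairW_bm (h : GasFn μ F) (S : Finset ι) : BM (pairW F S : (ι → G) → ℝ) := by
  refine BM.finset_prod S fun k _ => BM.finset_prod _ fun l _ => h.bm.comp ?_
  exact measurable_sub' (measurable_pi_apply k) (measurable_pi_apply l)

/-- Averaged one body factor is at least `1 - |S| ∫ (1 - F)`. -/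
lemma oneB_integral_ge (h : GasFn μ F) (S : Finset ι) (x : ι → G) :
    1 - S.card * ∫ y, (1 - F y) ∂μ ≤ ∫ y, oneB F S x y ∂μ := by
  have hb : BM (fun y => 1 - ∑ k ∈ S, (1 - F (y - x k))) :=
    (BM.const 1).sub (BM.finset_sum S fun k _ => (BM.const 1).sub
      (h.bm.comp (measurable_sub' measurable_id measurable_const)))
  have e : ∫ y, (1 - ∑ k ∈ S, (1 - F (y - x k))) ∂μ = 1 - S.card * ∫ y, (1 - F y) ∂μ := by
    have hi : ∀ k ∈ S, Integrable (fun y => 1 - F (y - x k)) μ := fun k _ =>
      ((BM.const 1).sub (h.bm.comp (measurable_sub' measurable_id measurable_const))).integrable μ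
    rw [integral_sub (integrable_const _) (integrable_finsetSum S hi), integral_finsetSum S hi]
    simp only [integral_const, probReal_univ, one_smul]
    congr 1
    rw [Finset.sum_congr rfl (fun k _ => integral_shift (fun y => 1 - F y) (x k)),
      Finset.sum_const, nsmul_eq_mul]
  rw [← e]
  refine integral_mono (hb.integrable μ) ((oneB_bm_right h S x).integrable μ) fun y => ?_
  exact one_sub_sum_le_prod S (fun k => F (y - x k)) (fun k _ => h.nonneg _) fun k _ => h.le_one _

/-- Heat bath kernel of the gas on the sites `S` (other sites are free). -/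
noncomputable def gasP (μ : Measure G) (F : G → ℝ) (S : Finset ι) (k : ι) (x : ι → G) (y : G) : ℝ :=
  if k ∈ S then oneB F (S.erase k) x y / ∫ z, oneB F (S.erase k) x z ∂μ else 1

lemma card_erase_mul_le {S : Finset ι} (k : ι) {Ω : ℝ} (hΩ : 0 ≤ Ω) :
    ((S.erase k).card : ℝ) * Ω ≤ S.card * Ω := by
  refine mul_le_mul_of_nonneg_right ?_ hΩ
  exact_mod_cast Finset.card_le_card (Finset.erase_subset k S)

lemma omega_nonneg (h : GasFn μ F) : 0 ≤ ∫ y, (1 - F y) ∂μ :=
  integral_nonneg fun y => sub_nonneg.2 (h.le_one y)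

lemma erase_integral_ge (h : GasFn μ F) (S : Finset ι) {B : ℝ}
    (hB : S.card * ∫ y, (1 - F y) ∂μ ≤ B) (k : ι) (x : ι → G) :
    1 - B ≤ ∫ y, oneB F (S.erase k) x y ∂μ := by
  have := oneB_integral_ge h (S.erase k) x
  have := card_erase_mul_le (S := S) k (omega_nonneg h)
  linarith

lemma gas_heatBath (h : GasFn μ F) (S : Finset ι) {B : ℝ}
    (hB : S.card * ∫ y, (1 - F y) ∂μ ≤ B) (hB1 : B < 1) :
    HeatBath μ (pairW F S : (ι → G) → ℝ) (gasP μ F S) where
  g_bm := pairW_bm h S
  g_nonneg := pairW_nonneg h S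
  p_bm := by
    intro k
    unfold gasP
    split_ifs with hk
    · have hI : BM (fun x : ι → G => ∫ z, oneB F (S.erase k) x z ∂μ) :=
        BM.integral_right (f := fun x z => oneB F (S.erase k) x z) (oneB_bm h _) μ
      refine BM.of_mem_Icc (a := 0) (b := 1 / (1 - B)) ?_ fun q => ?_
      · exact (oneB_bm h _).1.div (hI.1.comp measurable_fst)
      · have h1 := erase_integral_ge h S hB k q.1
        have h2 : 0 < 1 - B := by linarith
        have h3 : 0 < ∫ z, oneB F (S.erase k) q.1 z ∂μ := by linarith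
        refine ⟨div_nonneg (oneB_nonneg h _ _ _) h3.le, ?_⟩
        exact div_le_div₀ zero_le_one (oneB_le_one h _ _ _) h2 h1
    · exact BM.const 1
  p_nonneg := by
    intro k x y
    unfold gasP
    split_ifs with hk
    · exact div_nonneg (oneB_nonneg h _ _ _) (integral_nonneg fun z => oneB_nonneg h _ _ _)
    · exact zero_le_one
  p_int := by
    intro k x
    unfold gasP
    split_ifs with hk
    · have h1 := erase_integral_ge h S hB k x
      have h3 : (∫ z, oneB F (S.erase k) x z ∂μ) ≠ 0 := by linarith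
      rw [integral_div, div_self h3]
    · simp
  p_upd := by
    intro k x z y
    unfold gasP
    simp only [oneB_update_of_notMem (Finset.notMem_erase k S)]
  balance := by
    intro k x y
    unfold gasP
    split_ifs with hk
    · rw [pairW_erase h hk x, pairW_erase h hk (update x k y)]
      simp only [oneB_update_of_notMem (Finset.notMem_erase k S),
        pairW_update_of_notMem (Finset.notMem_erase k S), update_self]
      ring
    · rw [pairW_update_of_notMem hk]

lemma abs_oneB_update_sub_le (h : GasFn μ F) (S : Finset ι) (l : ι) (x : ι → G) (z y : G) :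
    |oneB F S (update x l z) y - oneB F S x y| ≤ (1 - F (y - z)) + (1 - F (y - x l)) := by
  by_cases hl : l ∈ S
  · rw [oneB_erase hl, oneB_erase hl x, oneB_update_of_notMem (Finset.notMem_erase l S), update_self,
      ← sub_mul, abs_mul, abs_of_nonneg (oneB_nonneg h _ _ _)]
    have h1 := oneB_le_one h (S.erase l) x y
    have h2 : |F (y - z) - F (y - x l)| ≤ (1 - F (y - z)) + (1 - F (y - x l)) := by
      rw [abs_le]
      have := h.le_one (y - z); have := h.le_one (y - x l)
      constructor <;> linarith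
    calc _ ≤ |F (y - z) - F (y - x l)| * 1 := mul_le_mul_of_nonneg_left h1 (abs_nonneg _)
      _ ≤ _ := by rw [mul_one]; exact h2
  · rw [oneB_update_of_notMem hl, sub_self, abs_zero]
    have := h.le_one (y - z); have := h.le_one (y - x l)
    linarith

lemma gas_influence (h : GasFn μ F) (S : Finset ι) {B : ℝ}
    (hB : S.card * ∫ y, (1 - F y) ∂μ ≤ B) (hB1 : B < 1) :
    Influence (ι := ι) μ (gasP μ F S)
      (fun _ l => if l ∈ S then 4 * (∫ y, (1 - F y) ∂μ) / (1 - B) else 0) := by
  have h2 : 0 < 1 - B := by linarith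
  have hΩ := omega_nonneg h
  refine ⟨fun k l => ?_, fun k l hkl x z => ?_⟩
  · dsimp only; split_ifs
    · positivity
    · exact le_rfl
  · dsimp only
    unfold gasP
    by_cases hk : k ∈ S
    · simp only [if_pos hk]
      split_ifs with hl
      · set A' := fun y => oneB F (S.erase k) (update x l z) y with hA'
        set A := fun y => oneB F (S.erase k) x y with hA
        set a' := ∫ y, A' y ∂μ with ha'
        set a := ∫ y, A y ∂μ with ha
        have bA' : BM A' := oneB_bm_right h _ _
        have bA : BM A := oneB_bm_right h _ _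
        have ha'1 : 1 - B ≤ a' := erase_integral_ge h S hB k _
        have ha1 : 1 - B ≤ a := erase_integral_ge h S hB k _
        have ha'0 : 0 < a' := by linarith
        have ha0 : 0 < a := by linarith
        have hD : ∫ y, |A' y - A y| ∂μ ≤ 2 * ∫ y, (1 - F y) ∂μ := by
          have b1 : BM (fun y => 1 - F (y - z)) := (BM.const 1).sub
            (h.bm.comp (measurable_sub' measurable_id measurable_const))
          have b2 : BM (fun y => 1 - F (y - x l)) := (BM.const 1).sub
            (h.bm.comp (measurable_sub' measurable_id measurable_const))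
          calc ∫ y, |A' y - A y| ∂μ ≤ ∫ y, ((1 - F (y - z)) + (1 - F (y - x l))) ∂μ :=
                integral_mono ((bA'.sub bA).abs.integrable μ) ((b1.add b2).integrable μ)
                  fun y => abs_oneB_update_sub_le h _ l x z y
            _ = 2 * ∫ y, (1 - F y) ∂μ := by
                rw [integral_add (b1.integrable μ) (b2.integrable μ),
                  integral_shift (fun y => 1 - F y) z, integral_shift (fun y => 1 - F y) (x l)]
                ring
        have haa : |a - a'| ≤ ∫ y, |A' y - A y| ∂μ := by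
          have : a - a' = ∫ y, (A y - A' y) ∂μ :=
            (integral_sub (bA.integrable μ) (bA'.integrable μ)).symm
          rw [this]
          refine abs_integral_le_integral_abs.trans_eq ?_
          congr 1; ext y; exact abs_sub_comm _ _
        have hpt : ∀ y, |A' y / a' - A y / a| ≤ |A' y - A y| / a' + A y * (|a - a'| / (a * a')) := by
          intro y
          have hAy : 0 ≤ A y := oneB_nonneg h _ _ _
          have e : A' y / a' - A y / a = (A' y - A y) / a' + A y * ((a - a') / (a * a')) := by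
            field_simp
            ring
          rw [e]
          refine (abs_add_le _ _).trans_eq ?_
          rw [abs_div, abs_of_pos ha'0, abs_mul, abs_of_nonneg hAy, abs_div,
            abs_of_pos (mul_pos ha0 ha'0)]
        have bq : BM (fun y => A' y / a' - A y / a) := by
          have b1 := bA'.const_mul (1 / a')
          have b2 := bA.const_mul (1 / a)
          have := b1.sub b2
          refine (congrArg BM ?_).mp this
          ext y; ring
        have b3 : Integrable (fun y => |A' y - A y| / a') μ := ((bA'.sub bA).abs.integrable μ).div_const _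
        have b4 : Integrable (fun y => A y * (|a - a'| / (a * a'))) μ := (bA.integrable μ).mul_const _
        calc ∫ y, |A' y / a' - A y / a| ∂μ
            ≤ ∫ y, (|A' y - A y| / a' + A y * (|a - a'| / (a * a'))) ∂μ :=
              integral_mono (bq.abs.integrable μ) (b3.add b4) hpt
          _ = (∫ y, |A' y - A y| ∂μ) / a' + |a - a'| / a' := by
              rw [integral_add b3 b4, integral_div, integral_mul_const, ← ha]
              field_simp
          _ ≤ 4 * (∫ y, (1 - F y) ∂μ) / (1 - B) := by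
              rw [← add_div]
              refine div_le_div₀ (by positivity) ?_ h2 ha'1
              linarith
      · have hl' : l ∉ S.erase k := fun h => hl (Finset.mem_of_mem_erase h)
        simp only [oneB_update_of_notMem hl', sub_self, abs_zero, integral_zero, le_refl]
    · simp only [if_neg hk, sub_self, abs_zero, integral_zero]
      split_ifs
      · positivity
      · exact le_rfl

/-- Partition function. -/
noncomputable def gasZ (μ : Measure G) (F : G → ℝ) (S : Finset ι) : ℝ :=
  ∫ x, pairW F S x ∂(Measure.pi (fun _ : ι => μ))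

/-- Resampling one coordinate in an integral. -/
lemma integral_resample (k : ι) {Φ : (ι → G) → ℝ} (hΦ : BM Φ) :
    ∫ x, Φ x ∂(Measure.pi (fun _ : ι => μ))
      = ∫ x, ∫ y, Φ (update x k y) ∂μ ∂(Measure.pi (fun _ : ι => μ)) := by
  rw [← mp_integral (mp_upd μ k) hΦ.1.aestronglyMeasurable,
    integral_prod _ ((hΦ.comp (measurable_upd k)).integrable _)]

lemma gasZ_erase_le (h : GasFn μ F) (S : Finset ι) {B : ℝ}
    (hB : S.card * ∫ y, (1 - F y) ∂μ ≤ B) {k : ι} (hk : k ∈ S) :
    (1 - B) * gasZ μ F (S.erase k) ≤ gasZ μ F S := by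
  unfold gasZ
  rw [integral_resample k (pairW_bm h S), ← integral_const_mul]
  have b1 : BM (fun x : ι → G => ∫ y, pairW F S (update x k y) ∂μ) :=
    BM.integral_right (f := fun x y => pairW F S (update x k y))
      ((pairW_bm h S).comp (measurable_upd k)) μ
  refine integral_mono (((pairW_bm h _).const_mul _).integrable _) (b1.integrable _) fun x => ?_
  dsimp only
  have e : ∀ y, pairW F S (update x k y) = pairW F (S.erase k) x * oneB F (S.erase k) x y := by
    intro y
    rw [pairW_erase h hk]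
    simp only [oneB_update_of_notMem (Finset.notMem_erase k S),
        pairW_update_of_notMem (Finset.notMem_erase k S), update_self]
  simp_rw [e]
  rw [integral_const_mul, mul_comm]
  exact mul_le_mul_of_nonneg_left (erase_integral_ge h S hB k x) (pairW_nonneg h _ _)

/-- The variance of the one body factor at a fixed point. -/
lemma gas_variance (h : GasFn μ F) [Nonempty ι] (S : Finset ι) {B : ℝ}
    (hB : S.card * ∫ y, (1 - F y) ∂μ ≤ B) (hB1 : B < 1) {θ : ℝ} (hθ : 4 * B / (1 - B) ≤ θ)
    (hθ1 : θ ≤ 1) (w : G) {m : ℝ}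
    (hm : ∫ x, (oneB F S x w - m) * pairW F S x ∂(Measure.pi (fun _ : ι => μ)) = 0) :
    (1 - θ) * ∫ x, (oneB F S x w - m) ^ 2 * pairW F S x ∂(Measure.pi (fun _ : ι => μ))
      ≤ S.card * (∫ y, (1 - F y) ^ 2 ∂μ) / (1 - B) * gasZ μ F S := by
  have h2 : 0 < 1 - B := by linarith
  have hΩ := omega_nonneg h
  have hB0 : 0 ≤ B := le_trans (mul_nonneg (Nat.cast_nonneg _) hΩ) hB
  have hHB := gas_heatBath h S hB hB1
  have hΦ : BM (fun x : ι → G => oneB F S x w) := (oneB_bm h S).comp measurable_prodMk_right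
  have hrow : ∀ k : ι, ∑ l ∈ Finset.univ.erase k,
      (if l ∈ S then 4 * (∫ y, (1 - F y) ∂μ) / (1 - B) else 0) ≤ θ := by
    intro k
    have e1 : ∑ l ∈ Finset.univ.erase k, (if l ∈ S then 4 * (∫ y, (1 - F y) ∂μ) / (1 - B) else 0)
        ≤ ∑ l : ι, (if l ∈ S then 4 * (∫ y, (1 - F y) ∂μ) / (1 - B) else 0) := by
      refine Finset.sum_le_sum_of_subset_of_nonneg (Finset.erase_subset _ _) fun l _ _ => ?_
      split_ifs
      · positivity
      · exact le_rfl
    refine e1.trans ?_
    rw [Finset.sum_ite_mem, Finset.univ_inter, Finset.sum_const, nsmul_eq_mul]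
    refine le_trans ?_ hθ
    rw [← mul_div_assoc]
    refine div_le_div_of_nonneg_right ?_ h2.le
    linarith
  have hosc : Osc (fun x : ι → G => oneB F S x w) (fun _ => 1) := by
    refine ⟨fun _ => zero_le_one, fun l x z => ?_⟩
    rw [abs_le]
    have := oneB_nonneg h S x w
    have := oneB_nonneg h S (update x l z) w
    have := oneB_le_one h S x w
    have := oneB_le_one h S (update x l z) w
    constructor <;> linarith
  have hmain := dobrushin_poincare hHB (gas_influence h S hB hB1)
    (le_trans (by positivity) hθ) hθ1 hrow hΦ hosc hm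
  refine hmain.trans ?_
  have hk : ∀ k : ι, ∫ x, ((fun x : ι → G => oneB F S x w) x
        - avg μ (gasP μ F S) k (fun x : ι → G => oneB F S x w) x) ^ 2 * pairW F S x
        ∂(Measure.pi (fun _ : ι => μ))
      ≤ if k ∈ S then (∫ y, (1 - F y) ^ 2 ∂μ) / (1 - B) * gasZ μ F S else 0 := by
    intro k
    split_ifs with hkS
    · -- projection property
      set H : (ι → G) → ℝ := fun x => oneB F (S.erase k) x w with hH
      have bH : BM H := (oneB_bm h _).comp measurable_prodMk_right
      have hHind : ∀ x z, H (update x k z) = H x := fun x z =>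
        oneB_update_of_notMem (Finset.notMem_erase k S) x z w
      set Ψ : (ι → G) → ℝ := fun x => oneB F S x w - H x with hΨ
      have bΨ : BM Ψ := hΦ.sub bH
      have e1 : ∀ x, (fun x : ι → G => oneB F S x w) x
          - avg μ (gasP μ F S) k (fun x : ι → G => oneB F S x w) x
          = Ψ x - avg μ (gasP μ F S) k Ψ x := by
        intro x
        rw [hΨ, avg_sub hHB k hΦ bH x, avg_of_indep hHB k H hHind x]
        ring
      simp_rw [e1]
      have e2 : ∫ x, (Ψ x - avg μ (gasP μ F S) k Ψ x) ^ 2 * pairW F S x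
          ∂(Measure.pi (fun _ : ι => μ)) ≤ ip μ (pairW F S) Ψ Ψ := by
        have := ip_sub_avg hHB k bΨ
        have e3 : ip μ (pairW F S) Ψ (avg μ (gasP μ F S) k Ψ)
            = ip μ (pairW F S) (avg μ (gasP μ F S) k Ψ) (avg μ (gasP μ F S) k Ψ) := by
          have hs := avg_selfadj hHB k (avg_bm hHB k bΨ) bΨ
          rw [← hs]
          congr 1
          ext x; exact (avg_idem hHB k Ψ x).symm
        have e4 := ip_self_nonneg hHB (avg μ (gasP μ F S) k Ψ)
        have e5 : ∫ x, (Ψ x - avg μ (gasP μ F S) k Ψ x) ^ 2 * pairW F S x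
          ∂(Measure.pi (fun _ : ι => μ)) = ip μ (pairW F S)
            (fun x => Ψ x - avg μ (gasP μ F S) k Ψ x) (fun x => Ψ x - avg μ (gasP μ F S) k Ψ x) := by
          simp only [ip, sq]
        rw [e5, this, e3]
        linarith
      refine e2.trans ?_
      have bω : BM (fun y => (1 - F y) ^ 2) := ((BM.const 1).sub h.bm).pow 2
      -- bound by resampling
      have e6 : ip μ (pairW F S) Ψ Ψ
          ≤ ∫ x, (1 - F (w - x k)) ^ 2 * pairW F S x ∂(Measure.pi (fun _ : ι => μ)) := by
        unfold ip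
        have b7 : BM (fun x : ι → G => (1 - F (w - x k)) ^ 2) :=
          bω.comp (measurable_sub' measurable_const (measurable_pi_apply k))
        refine integral_mono (((bΨ.mul bΨ).mul (pairW_bm h S)).integrable _)
          ((b7.mul (pairW_bm h S)).integrable _) fun x => ?_
        refine mul_le_mul_of_nonneg_right ?_ (pairW_nonneg h _ _)
        have e8 : Ψ x = -(1 - F (w - x k)) * H x := by
          simp only [hΨ, hH]; rw [oneB_erase hkS]; ring
        rw [e8]
        have h9 : 0 ≤ H x := oneB_nonneg h _ _ _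
        have h10 : H x ≤ 1 := oneB_le_one h _ _ _
        have h11 : H x * H x ≤ 1 := by nlinarith
        calc -(1 - F (w - x k)) * H x * (-(1 - F (w - x k)) * H x)
            = (1 - F (w - x k)) ^ 2 * (H x * H x) := by ring
          _ ≤ (1 - F (w - x k)) ^ 2 * 1 := mul_le_mul_of_nonneg_left h11 (sq_nonneg _)
          _ = _ := mul_one _
      refine e6.trans ?_
      have b7 : BM (fun x : ι → G => (1 - F (w - x k)) ^ 2 * pairW F S x) :=
        (bω.comp (measurable_sub' measurable_const (measurable_pi_apply k))).mul (pairW_bm h S)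
      rw [integral_resample k b7]
      have b8 : BM (fun x : ι → G => ∫ y, (1 - F (w - update x k y k)) ^ 2
          * pairW F S (update x k y) ∂μ) :=
        BM.integral_right (f := fun x y => (1 - F (w - update x k y k)) ^ 2
          * pairW F S (update x k y)) (b7.comp (measurable_upd k)) μ
      have hΩ2 : 0 ≤ ∫ y, (1 - F y) ^ 2 ∂μ := integral_nonneg fun y => sq_nonneg _
      have e9 : ∫ x, ∫ y, (1 - F (w - update x k y k)) ^ 2
          * pairW F S (update x k y) ∂μ ∂(Measure.pi (fun _ : ι => μ))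
          ≤ ∫ x, (∫ y, (1 - F y) ^ 2 ∂μ) * pairW F (S.erase k) x
            ∂(Measure.pi (fun _ : ι => μ)) := by
        refine integral_mono (b8.integrable _)
          (((pairW_bm h _).const_mul _).integrable _) fun x => ?_
        dsimp only
        have b9 : BM (fun y => (1 - F (w - y)) ^ 2) :=
          bω.comp (measurable_sub' measurable_const measurable_id)
        calc ∫ y, (1 - F (w - update x k y k)) ^ 2 * pairW F S (update x k y) ∂μ
            ≤ ∫ y, (1 - F (w - y)) ^ 2 * pairW F (S.erase k) x ∂μ := by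
              refine integral_mono ((b7.comp ((measurable_upd k).comp
                (measurable_prodMk_left (x := x)))).integrable μ)
                ((b9.mul (BM.const _)).integrable μ) fun y => ?_
              dsimp only
              rw [pairW_erase h hkS]
              simp only [oneB_update_of_notMem (Finset.notMem_erase k S),
                pairW_update_of_notMem (Finset.notMem_erase k S), update_self]
              refine mul_le_mul_of_nonneg_left ?_ (sq_nonneg _)
              have := oneB_le_one h (S.erase k) x y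
              have := pairW_nonneg h (S.erase k) x
              nlinarith
          _ = (∫ y, (1 - F y) ^ 2 ∂μ) * pairW F (S.erase k) x := by
              rw [integral_mul_const, integral_reflect (fun y => (1 - F y) ^ 2) w]
      refine e9.trans ?_
      rw [integral_const_mul, div_mul_eq_mul_div, mul_div_assoc]
      refine mul_le_mul_of_nonneg_left ?_ hΩ2
      rw [le_div_iff₀ h2, mul_comm]
      exact gasZ_erase_le h S hB hkS
    · -- free site
      have e1 : ∀ x, (fun x : ι → G => oneB F S x w) x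
          - avg μ (gasP μ F S) k (fun x : ι → G => oneB F S x w) x = 0 := by
        intro x
        rw [avg_of_indep hHB k _ (fun x z => oneB_update_of_notMem hkS x z w) x, sub_self]
      simp_rw [e1]
      simp
  refine (Finset.sum_le_sum fun k _ => hk k).trans_eq ?_
  rw [Finset.sum_ite_mem, Finset.univ_inter, Finset.sum_const, nsmul_eq_mul]
  ring

end

end Pool.Agent.Lib.MP_4952d6_mp

end

/-! ### Gas2 -/

section

set_option autoImplicit false
set_option linter.unusedSectionVars false
set_option linter.unusedVariables false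
open MeasureTheory Function

namespace Pool.Agent.Lib.MP_4952d6_mp

variable {ι G : Type*} [Fintype ι] [LinearOrder ι] [MeasurableSpace G] [AddCommGroup G]
  [MeasurableAdd₂ G] [MeasurableNeg G] {μ : Measure G} [IsProbabilityMeasure μ]
  [μ.IsAddLeftInvariant] [μ.IsNegInvariant] {F : G → ℝ}

/-- Translation invariance: the mean one body factor does not depend on the point. -/
lemma mean_indep (h : GasFn μ F) (S : Finset ι) (w : G) :
    ∫ x, oneB F S x w * pairW F S x ∂(Measure.pi (fun _ : ι => μ))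
      = ∫ x, oneB F S x 0 * pairW F S x ∂(Measure.pi (fun _ : ι => μ)) := by
  rw [← integral_add_left_eq_self (μ := Measure.pi (fun _ : ι => μ))
    (fun x => oneB F S x w * pairW F S x) (fun _ => w)]
  congr 1; ext x
  unfold oneB pairW
  congr 1
  · refine Finset.prod_congr rfl fun k _ => ?_
    simp only [Pi.add_apply]; congr 1; abel
  · refine Finset.prod_congr rfl fun k _ => Finset.prod_congr rfl fun l _ => ?_
    simp only [Pi.add_apply]; congr 1; abel

/-- Second moment of the one body factor. -/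
noncomputable def gasM2 (μ : Measure G) (F : G → ℝ) (S : Finset ι) : ℝ :=
  ∫ x, (∫ y, oneB F S x y ^ 2 ∂μ) * pairW F S x ∂(Measure.pi (fun _ : ι => μ))

/-- Mean of the squared spatial average of the one body factor. -/
noncomputable def gasM1 (μ : Measure G) (F : G → ℝ) (S : Finset ι) : ℝ :=
  ∫ x, (∫ y, oneB F S x y ∂μ) ^ 2 * pairW F S x ∂(Measure.pi (fun _ : ι => μ))

lemma gasZ_nonneg (h : GasFn μ F) (S : Finset ι) : 0 ≤ gasZ μ F S :=
  integral_nonneg fun x => pairW_nonneg h S x

lemma oneBint_bm (h : GasFn μ F) (S : Finset ι) :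
    BM (fun x : ι → G => ∫ y, oneB F S x y ∂μ) :=
  BM.integral_right (f := fun x y => oneB F S x y) (oneB_bm h S) μ

lemma oneBsq_bm (h : GasFn μ F) (S : Finset ι) :
    BM (fun x : ι → G => ∫ y, oneB F S x y ^ 2 ∂μ) :=
  BM.integral_right (f := fun x y => oneB F S x y ^ 2) ((oneB_bm h S).pow 2) μ

theorem gas_M2_sub_M1 (h : GasFn μ F) [Nonempty ι] (S : Finset ι) {B : ℝ}
    (hB : S.card * ∫ y, (1 - F y) ∂μ ≤ B) (hB1 : B < 1) {θ : ℝ} (hθ : 4 * B / (1 - B) ≤ θ)
    (hθ1 : θ ≤ 1) :
    (1 - θ) * (gasM2 μ F S - gasM1 μ F S)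
      ≤ S.card * (∫ y, (1 - F y) ^ 2 ∂μ) / (1 - B) * gasZ μ F S := by
  set π := Measure.pi (fun _ : ι => μ) with hπ
  set Z := gasZ μ F S with hZ
  set M := ∫ x, oneB F S x 0 * pairW F S x ∂π with hM
  set m := M / Z with hm
  have hA0 : BM (fun x : ι → G => oneB F S x 0) := (oneB_bm h S).comp measurable_prodMk_right
  have hMZ : M - m * Z = 0 := by
    by_cases hZ0 : Z = 0
    · have h1 : 0 ≤ M := integral_nonneg fun x => mul_nonneg (oneB_nonneg h _ _ _) (pairW_nonneg h _ _)
      have j1 : Integrable (fun x : ι → G => oneB F S x 0 * pairW F S x) π :=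
        (hA0.mul (pairW_bm h S)).integrable π
      have j2 : Integrable (fun x : ι → G => pairW F S x) π := (pairW_bm h S).integrable π
      have h2 : M ≤ Z := integral_mono j1 j2 fun x =>
        mul_le_of_le_one_left (pairW_nonneg h S x) (oneB_le_one h S x 0)
      rw [hZ0] at h2 ⊢
      linarith
    · rw [hm]; field_simp; ring
  have hmw : ∀ w : G, ∫ x, (oneB F S x w - m) * pairW F S x ∂π = 0 := by
    intro w
    have hAw : BM (fun x : ι → G => oneB F S x w) := (oneB_bm h S).comp measurable_prodMk_right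
    have e : ∀ x, (oneB F S x w - m) * pairW F S x
        = oneB F S x w * pairW F S x - m * pairW F S x := fun x => by ring
    simp_rw [e]
    rw [integral_sub ((hAw.mul (pairW_bm h S)).integrable _)
      (((pairW_bm h S).const_mul _).integrable _), integral_const_mul, mean_indep h S w]
    exact hMZ
  have hvar : ∀ w : G, (1 - θ) * ∫ x, (oneB F S x w - m) ^ 2 * pairW F S x ∂π
      ≤ S.card * (∫ y, (1 - F y) ^ 2 ∂μ) / (1 - B) * Z :=
    fun w => gas_variance h S hB hB1 hθ hθ1 w (hmw w)
  -- joint function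
  have bJ : BM (uncurry fun (x : ι → G) (w : G) => (oneB F S x w - m) ^ 2 * pairW F S x) :=
    ((((oneB_bm h S).sub (BM.const m)).pow 2)).mul ((pairW_bm h S).comp measurable_fst)
  have bJ' : BM (uncurry fun (w : G) (x : ι → G) => (oneB F S x w - m) ^ 2 * pairW F S x) :=
    bJ.comp measurable_swap
  have bI : BM (fun x : ι → G => ∫ w, (oneB F S x w - m) ^ 2 * pairW F S x ∂μ) :=
    BM.integral_right (f := fun x w => (oneB F S x w - m) ^ 2 * pairW F S x) bJ μ
  have bI' : BM (fun w : G => ∫ x, (oneB F S x w - m) ^ 2 * pairW F S x ∂π) :=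
    BM.integral_right (f := fun w x => (oneB F S x w - m) ^ 2 * pairW F S x) bJ' π
  have hswap : ∫ x, ∫ w, (oneB F S x w - m) ^ 2 * pairW F S x ∂μ ∂π
      = ∫ w, ∫ x, (oneB F S x w - m) ^ 2 * pairW F S x ∂π ∂μ :=
    integral_integral_swap (bJ.integrable _)
  have hpt : ∀ x : ι → G, (∫ y, oneB F S x y ^ 2 ∂μ) * pairW F S x
      - (∫ y, oneB F S x y ∂μ) ^ 2 * pairW F S x
      ≤ ∫ w, (oneB F S x w - m) ^ 2 * pairW F S x ∂μ := by
    intro x
    rw [integral_mul_const, ← sub_mul]
    refine mul_le_mul_of_nonneg_right ?_ (pairW_nonneg h _ _)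
    have bA := oneB_bm_right h S x
    have e : ∫ w, (oneB F S x w - m) ^ 2 ∂μ
        = ∫ w, oneB F S x w ^ 2 ∂μ - 2 * m * ∫ w, oneB F S x w ∂μ + m ^ 2 := by
      have e1 : ∀ w, (oneB F S x w - m) ^ 2
          = oneB F S x w ^ 2 - 2 * m * oneB F S x w + m ^ 2 := fun w => by ring
      simp_rw [e1]
      rw [integral_add (((bA.pow 2).sub (bA.const_mul _)).integrable μ) (integrable_const _),
        integral_sub ((bA.pow 2).integrable μ) ((bA.const_mul _).integrable μ),
        integral_const_mul]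
      simp
    rw [e]
    nlinarith [sq_nonneg (∫ w, oneB F S x w ∂μ - m)]
  have i1 : Integrable (fun x : ι → G => (∫ y, oneB F S x y ^ 2 ∂μ) * pairW F S x) π :=
    ((oneBsq_bm h S).mul (pairW_bm h S)).integrable π
  have i2 : Integrable (fun x : ι → G => (∫ y, oneB F S x y ∂μ) ^ 2 * pairW F S x) π :=
    (((oneBint_bm h S).pow 2).mul (pairW_bm h S)).integrable π
  have h1 : gasM2 μ F S - gasM1 μ F S ≤ ∫ x, ∫ w, (oneB F S x w - m) ^ 2 * pairW F S x ∂μ ∂π := by
    have h1a : gasM2 μ F S - gasM1 μ F S = ∫ x, ((∫ y, oneB F S x y ^ 2 ∂μ) * pairW F S x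
      - (∫ y, oneB F S x y ∂μ) ^ 2 * pairW F S x) ∂π := (integral_sub i1 i2).symm
    rw [h1a]
    exact integral_mono (i1.sub i2) (bI.integrable π) hpt
  rcases hθ1.lt_or_eq with hθ1' | hθ1'
  · have j1 : Integrable (fun w : G => (1 - θ) * ∫ x, (oneB F S x w - m) ^ 2 * pairW F S x ∂π) μ :=
      (bI'.const_mul (1 - θ)).integrable μ
    have j2 : Integrable (fun w : G => S.card * (∫ y, (1 - F y) ^ 2 ∂μ) / (1 - B) * Z) μ :=
      integrable_const _
    have j3 := integral_mono j1 j2 hvar
    rw [integral_const_mul, integral_const, probReal_univ, one_smul, ← hswap] at j3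
    exact (mul_le_mul_of_nonneg_left h1 (by linarith)).trans j3
  · rw [hθ1', sub_self, zero_mul]
    have : 0 ≤ ∫ y, (1 - F y) ^ 2 ∂μ := integral_nonneg fun y => sq_nonneg _
    have h2 : 0 < 1 - B := by linarith
    have := gasZ_nonneg h S
    positivity

lemma gas_M1_ge (h : GasFn μ F) (S : Finset ι) {B : ℝ}
    (hB : S.card * ∫ y, (1 - F y) ∂μ ≤ B) (hB1 : B < 1) :
    (1 - B) ^ 2 * gasZ μ F S ≤ gasM1 μ F S := by
  unfold gasZ gasM1
  rw [← integral_const_mul]
  refine integral_mono (((pairW_bm h S).const_mul _).integrable _)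
    ((((oneBint_bm h S).pow 2).mul (pairW_bm h S)).integrable _) fun x => ?_
  dsimp only
  refine mul_le_mul_of_nonneg_right ?_ (pairW_nonneg h _ _)
  have h1 := oneB_integral_ge h S x
  exact pow_le_pow_left₀ (by linarith) (by linarith) 2

/-- Young type inequality. -/
lemma conv_le (q A : G → ℝ) (hq : BM q) (hq0 : ∀ y, 0 ≤ q y) (hA : BM A) :
    ∫ y, ∫ z, q (y - z) * (A y * A z) ∂μ ∂μ ≤ (∫ y, q y ∂μ) * ∫ y, A y ^ 2 ∂μ := by
  have bq : BM (fun p : G × G => q (p.1 - p.2)) := hq.comp measurable_sub_fst_snd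
  have b1 : BM (uncurry fun y z => q (y - z) * (A y * A z)) :=
    bq.mul ((hA.comp measurable_fst).mul (hA.comp measurable_snd))
  have b2 : BM (uncurry fun y z => q (y - z) * (1/2 * A y ^ 2)) :=
    bq.mul (((hA.comp measurable_fst).pow 2).const_mul _)
  have b3 : BM (uncurry fun y z => q (y - z) * (1/2 * A z ^ 2)) :=
    bq.mul (((hA.comp measurable_snd).pow 2).const_mul _)
  have e2 : ∫ y, ∫ z, q (y - z) * (1/2 * A y ^ 2) ∂μ ∂μ
      = 1/2 * ((∫ y, q y ∂μ) * ∫ y, A y ^ 2 ∂μ) := by
    have : ∀ y, ∫ z, q (y - z) * (1/2 * A y ^ 2) ∂μ = (∫ y, q y ∂μ) * (1/2 * A y ^ 2) := by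
      intro y
      rw [integral_mul_const, integral_reflect q y]
    simp_rw [this]
    rw [integral_const_mul, integral_const_mul]; ring
  have e3 : ∫ y, ∫ z, q (y - z) * (1/2 * A z ^ 2) ∂μ ∂μ
      = 1/2 * ((∫ y, q y ∂μ) * ∫ y, A y ^ 2 ∂μ) := by
    rw [integral_integral_swap (b3.integrable _)]
    have : ∀ z, ∫ y, q (y - z) * (1/2 * A z ^ 2) ∂μ = (∫ y, q y ∂μ) * (1/2 * A z ^ 2) := by
      intro z
      rw [integral_mul_const, integral_shift q z]
    simp_rw [this]
    rw [integral_const_mul, integral_const_mul]; ring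
  calc ∫ y, ∫ z, q (y - z) * (A y * A z) ∂μ ∂μ
      ≤ ∫ y, ((∫ z, q (y - z) * (1/2 * A y ^ 2) ∂μ) + ∫ z, q (y - z) * (1/2 * A z ^ 2) ∂μ) ∂μ := by
        refine integral_mono ((BM.integral_right b1 μ).integrable _)
          (((BM.integral_right b2 μ).add (BM.integral_right b3 μ)).integrable _) fun y => ?_
        dsimp only
        have b2y : BM (fun z => q (y - z) * (1/2 * A y ^ 2)) := b2.comp measurable_prodMk_left
        have b3y : BM (fun z => q (y - z) * (1/2 * A z ^ 2)) := b3.comp measurable_prodMk_left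
        have b1y : BM (fun z => q (y - z) * (A y * A z)) := b1.comp measurable_prodMk_left
        rw [← integral_add (b2y.integrable _) (b3y.integrable _)]
        refine integral_mono (b1y.integrable _) ((b2y.add b3y).integrable _) fun z => ?_
        dsimp only
        rw [← mul_add]
        refine mul_le_mul_of_nonneg_left ?_ (hq0 _)
        nlinarith [sq_nonneg (A y - A z)]
    _ = (∫ y, q y ∂μ) * ∫ y, A y ^ 2 ∂μ := by
        rw [integral_add ((BM.integral_right b2 μ).integrable _)
          ((BM.integral_right b3 μ).integrable _), e2, e3]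
        ring

/-- The complement of a pair of sites. -/
def rest (i j : ι) : Finset ι := (Finset.univ.erase i).erase j

/-- Pair integral. -/
noncomputable def pairI (μ : Measure G) (F : G → ℝ) (i j : ι) (q : G → ℝ) : ℝ :=
  ∫ x, q (x i - x j) * (oneB F (rest i j) x (x i) * oneB F (rest i j) x (x j))
    * pairW F (rest i j) x ∂(Measure.pi (fun _ : ι => μ))

lemma notMem_rest_left (i j : ι) : i ∉ rest i j := by simp [rest]
lemma notMem_rest_right (i j : ι) : j ∉ rest i j := by simp [rest]

lemma insert_rest {i j : ι} (hij : i ≠ j) : insert i (insert j (rest i j)) = Finset.univ := by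
  ext k
  simp only [rest, Finset.mem_insert, Finset.mem_erase, Finset.mem_univ, and_true, iff_true]
  tauto

lemma pairW_univ (h : GasFn μ F) {i j : ι} (hij : i ≠ j) (x : ι → G) :
    pairW F Finset.univ x = F (x i - x j) * (oneB F (rest i j) x (x i) * oneB F (rest i j) x (x j))
      * pairW F (rest i j) x := by
  have h1 : i ∉ insert j (rest i j) := by
    simp only [Finset.mem_insert, not_or]
    exact ⟨hij, notMem_rest_left i j⟩
  rw [← insert_rest hij, pairW_insert h _ h1, pairW_insert h _ (notMem_rest_right i j),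
    oneB_insert _ (notMem_rest_right i j)]
  ring

lemma gasZ_univ (h : GasFn μ F) {i j : ι} (hij : i ≠ j) :
    gasZ μ F (Finset.univ : Finset ι) = pairI μ F i j F := by
  unfold gasZ pairI
  congr 1; ext x
  exact pairW_univ h hij x

lemma pairI_eq (h : GasFn μ F) {i j : ι} (hij : i ≠ j) {q : G → ℝ} (hq : BM q) :
    pairI μ F i j q = ∫ x, (∫ y, ∫ z, q (y - z) * (oneB F (rest i j) x y * oneB F (rest i j) x z)
      ∂μ ∂μ) * pairW F (rest i j) x ∂(Measure.pi (fun _ : ι => μ)) := by
  unfold pairI
  set S := rest i j with hS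
  have hi : i ∉ S := notMem_rest_left i j
  have hj : j ∉ S := notMem_rest_right i j
  have m1 : ∀ k : ι, Measurable (fun x : ι → G => (x, x k)) := fun k =>
    measurable_id.prodMk (measurable_pi_apply k)
  have b1 : BM (fun x : ι → G => q (x i - x j) * (oneB F S x (x i) * oneB F S x (x j))
      * pairW F S x) := by
    refine ((hq.comp (measurable_sub' (measurable_pi_apply i) (measurable_pi_apply j))).mul
      (BM.mul ?_ ?_)).mul (pairW_bm h S)
    · exact (oneB_bm h S).comp (m1 i)
    · exact (oneB_bm h S).comp (m1 j)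
  rw [integral_resample i b1]
  have e1 : ∀ x : ι → G, ∫ y, q (update x i y i - update x i y j)
        * (oneB F S (update x i y) (update x i y i) * oneB F S (update x i y) (update x i y j))
        * pairW F S (update x i y) ∂μ
      = (fun x : ι → G => ∫ y, q (y - x j) * (oneB F S x y * oneB F S x (x j))
        * pairW F S x ∂μ) x := by
    intro x
    dsimp only
    congr 1; ext y
    rw [update_self, update_of_ne hij.symm, pairW_update_of_notMem hi, oneB_update_of_notMem hi,
      oneB_update_of_notMem hi]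
  simp_rw [e1]
  have b2 : BM (fun x : ι → G => ∫ y, q (y - x j) * (oneB F S x y * oneB F S x (x j))
        * pairW F S x ∂μ) := by
    refine BM.integral_right (f := fun x y => q (y - x j) * (oneB F S x y * oneB F S x (x j))
        * pairW F S x) ?_ μ
    refine ((hq.comp (measurable_sub' measurable_snd
      ((measurable_pi_apply j).comp measurable_fst))).mul (BM.mul (oneB_bm h S) ?_)).mul
        ((pairW_bm h S).comp measurable_fst)
    exact (oneB_bm h S).comp ((m1 j).comp measurable_fst)
  rw [integral_resample j b2]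
  congr 1; ext x
  rw [← integral_mul_const]
  have b3 : BM (uncurry fun y z => q (y - z) * (oneB F S x y * oneB F S x z) * pairW F S x) := by
    refine ((hq.comp measurable_sub_fst_snd).mul (BM.mul ?_ ?_)).mul (BM.const _)
    · exact (oneB_bm_right h S x).comp measurable_fst
    · exact (oneB_bm_right h S x).comp measurable_snd
  have e2 : ∀ z : G, ∫ y, q (y - update x j z j) * (oneB F S (update x j z) y
      * oneB F S (update x j z) (update x j z j)) * pairW F S (update x j z) ∂μ
      = ∫ y, q (y - z) * (oneB F S x y * oneB F S x z) * pairW F S x ∂μ := by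
    intro z
    congr 1; ext y
    rw [update_self, pairW_update_of_notMem hj, oneB_update_of_notMem hj,
      oneB_update_of_notMem hj]
  simp_rw [e2]
  rw [← integral_integral_swap (b3.integrable _)]
  congr 1; ext y
  exact integral_mul_const _ _

lemma pairI_le (h : GasFn μ F) {i j : ι} (hij : i ≠ j) {q : G → ℝ} (hq : BM q)
    (hq0 : ∀ y, 0 ≤ q y) : pairI μ F i j q ≤ (∫ y, q y ∂μ) * gasM2 μ F (rest i j) := by
  rw [pairI_eq h hij hq]
  unfold gasM2
  rw [← integral_const_mul]
  set S := rest i j with hS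
  have b1 : BM (fun x : ι → G => ∫ y, ∫ z, q (y - z) * (oneB F S x y * oneB F S x z) ∂μ ∂μ) := by
    refine BM.integral_right (f := fun x y => ∫ z, q (y - z) * (oneB F S x y * oneB F S x z) ∂μ) ?_ μ
    refine BM.integral_right (f := fun (p : (ι → G) × G) z =>
      q (p.2 - z) * (oneB F S p.1 p.2 * oneB F S p.1 z)) ?_ μ
    refine (hq.comp (measurable_sub' (measurable_snd.comp measurable_fst) measurable_snd)).mul
      (BM.mul ((oneB_bm h S).comp measurable_fst) ?_)
    exact (oneB_bm h S).comp ((measurable_fst.comp measurable_fst).prodMk measurable_snd)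
  refine integral_mono ((b1.mul (pairW_bm h S)).integrable _)
    ((((oneBsq_bm h S).mul (pairW_bm h S)).const_mul _).integrable _) fun x => ?_
  dsimp only
  rw [← mul_assoc]
  exact mul_le_mul_of_nonneg_right (conv_le q _ hq hq0 (oneB_bm_right h S x)) (pairW_nonneg h _ _)

lemma gasZ_univ_ge (h : GasFn μ F) {i j : ι} (hij : i ≠ j) :
    gasM1 μ F (rest i j) - (∫ y, (1 - F y) ∂μ) * gasM2 μ F (rest i j)
      ≤ gasZ μ F (Finset.univ : Finset ι) := by
  rw [gasZ_univ h hij]
  set S := rest i j with hS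
  have bω : BM (fun y => 1 - F y) := (BM.const 1).sub h.bm
  have h1 := pairI_le h hij bω (fun y => sub_nonneg.2 (h.le_one y))
  have h2 : pairI μ F i j F = gasM1 μ F S - pairI μ F i j (fun y => 1 - F y) := by
    have e3 : pairI μ F i j F + pairI μ F i j (fun y => 1 - F y) = pairI μ F i j (fun _ => 1) := by
      unfold pairI
      have m1 : ∀ k : ι, Measurable (fun x : ι → G => (x, x k)) := fun k =>
        measurable_id.prodMk (measurable_pi_apply k)
      have b : ∀ q : G → ℝ, BM q → BM (fun x : ι → G => q (x i - x j)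
          * (oneB F (rest i j) x (x i) * oneB F (rest i j) x (x j)) * pairW F (rest i j) x) := by
        intro q hq
        refine ((hq.comp (measurable_sub' (measurable_pi_apply i) (measurable_pi_apply j))).mul
          (BM.mul ?_ ?_)).mul (pairW_bm h _)
        · exact (oneB_bm h _).comp (m1 i)
        · exact (oneB_bm h _).comp (m1 j)
      rw [← integral_add ((b F h.bm).integrable _) ((b _ bω).integrable _)]
      congr 1; ext x; ring
    have e4 : pairI μ F i j (fun _ => 1) = gasM1 μ F S := by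
      rw [pairI_eq h hij (BM.const 1)]
      unfold gasM1
      congr 1; ext x
      congr 1
      simp only [one_mul]
      have : ∀ y, ∫ z, oneB F (rest i j) x y * oneB F (rest i j) x z ∂μ
          = oneB F (rest i j) x y * ∫ z, oneB F (rest i j) x z ∂μ := fun y => integral_const_mul _ _
      simp_rw [this]
      rw [integral_mul_const, sq]
    rw [← e4, ← e3]; ring
  rw [h2]
  linarith

/-- **Main estimate for the gas.** Ratio of a pair integral to the partition function. -/
theorem gas_pair_ratio (h : GasFn μ F) {i j : ι} (hij : i ≠ j) {q : G → ℝ} (hq : BM q)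
    (hq0 : ∀ y, 0 ≤ q y) {B θ V : ℝ} (hB : (Fintype.card ι : ℝ) * ∫ y, (1 - F y) ∂μ ≤ B)
    (hB1 : B < 1) (hθ : 4 * B / (1 - B) ≤ θ) (hθ1 : θ < 1)
    (hV : (Fintype.card ι : ℝ) * (∫ y, (1 - F y) ^ 2 ∂μ) / ((1 - B) ^ 3 * (1 - θ)) ≤ V) :
    pairI μ F i j q * (1 - (∫ y, (1 - F y) ∂μ) * (1 + V))
      ≤ (∫ y, q y ∂μ) * (1 + V) * gasZ μ F (Finset.univ : Finset ι) := by
  have : Nonempty ι := ⟨i⟩
  set S := rest i j with hS
  have hΩ := omega_nonneg h
  have hΩ2 : 0 ≤ ∫ y, (1 - F y) ^ 2 ∂μ := integral_nonneg fun y => sq_nonneg _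
  have hcard : (S.card : ℝ) ≤ Fintype.card ι := by exact_mod_cast Finset.card_le_univ S
  have hB' : S.card * ∫ y, (1 - F y) ∂μ ≤ B :=
    (mul_le_mul_of_nonneg_right hcard hΩ).trans hB
  have hB0 : 0 < 1 - B := by linarith
  have hθ0 : 0 < 1 - θ := by linarith
  have h1 := gas_M2_sub_M1 h S hB' hB1 hθ hθ1.le
  have h2 := gas_M1_ge h S hB' hB1
  have h3 := gasZ_univ_ge h hij
  have h4 := pairI_le h hij hq hq0
  rw [← hS] at h3 h4
  set M1 := gasM1 μ F S
  set M2 := gasM2 μ F S
  set Z := gasZ μ F S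
  set ZN := gasZ μ F (Finset.univ : Finset ι)
  set Ω := ∫ y, (1 - F y) ∂μ
  set Ω2 := ∫ y, (1 - F y) ^ 2 ∂μ
  have hZ0 : 0 ≤ Z := gasZ_nonneg h S
  have hM1 : 0 ≤ M1 := le_trans (by positivity) h2
  have hV0 : 0 ≤ V := le_trans (by positivity) hV
  -- M2 ≤ (1 + V) M1
  have h5 : M2 ≤ (1 + V) * M1 := by
    have h6 : (1 - θ) * (M2 - M1) ≤ (Fintype.card ι) * Ω2 / (1 - B) * Z := by
      refine h1.trans ?_
      refine mul_le_mul_of_nonneg_right ?_ hZ0
      exact div_le_div_of_nonneg_right (mul_le_mul_of_nonneg_right hcard hΩ2) hB0.le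
    have h7 : (Fintype.card ι : ℝ) * Ω2 ≤ V * ((1 - B) ^ 3 * (1 - θ)) := by
      rwa [div_le_iff₀ (by positivity)] at hV
    have h8 : (Fintype.card ι) * Ω2 / (1 - B) * Z ≤ (1 - θ) * (V * M1) := by
      calc (Fintype.card ι) * Ω2 / (1 - B) * Z
          ≤ (V * ((1 - B) ^ 3 * (1 - θ))) / (1 - B) * Z :=
            mul_le_mul_of_nonneg_right (div_le_div_of_nonneg_right h7 hB0.le) hZ0
        _ = (1 - θ) * (V * ((1 - B) ^ 2 * Z)) := by field_simp
        _ ≤ (1 - θ) * (V * M1) := by
            refine mul_le_mul_of_nonneg_left (mul_le_mul_of_nonneg_left h2 hV0) hθ0.le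
    have h9 : M2 - M1 ≤ V * M1 := le_of_mul_le_mul_left (h6.trans h8) hθ0
    linarith
  have hQ0 : 0 ≤ ∫ y, q y ∂μ := integral_nonneg hq0
  by_cases hneg : 1 - Ω * (1 + V) ≤ 0
  · have : 0 ≤ pairI μ F i j q := by
      unfold pairI
      exact integral_nonneg fun x => mul_nonneg (mul_nonneg (hq0 _)
        (mul_nonneg (oneB_nonneg h _ _ _) (oneB_nonneg h _ _ _))) (pairW_nonneg h _ _)
    have hZN : 0 ≤ ZN := gasZ_nonneg h _
    exact (mul_nonpos_of_nonneg_of_nonpos this hneg).trans (by positivity)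
  · push Not at hneg
    have h10 : M1 * (1 - Ω * (1 + V)) ≤ ZN := by
      have := mul_le_mul_of_nonneg_left h5 hΩ
      linarith
    calc pairI μ F i j q * (1 - Ω * (1 + V))
        ≤ ((∫ y, q y ∂μ) * M2) * (1 - Ω * (1 + V)) := mul_le_mul_of_nonneg_right h4 hneg.le
      _ ≤ ((∫ y, q y ∂μ) * ((1 + V) * M1)) * (1 - Ω * (1 + V)) :=
          mul_le_mul_of_nonneg_right (mul_le_mul_of_nonneg_left h5 hQ0) hneg.le
      _ = (∫ y, q y ∂μ) * (1 + V) * (M1 * (1 - Ω * (1 + V))) := by ring
      _ ≤ _ := mul_le_mul_of_nonneg_left h10 (by positivity)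

/-- The partition function is positive. -/
lemma gasZ_pos (h : GasFn μ F) (S : Finset ι) {B : ℝ}
    (hB : S.card * ∫ y, (1 - F y) ∂μ ≤ B) (hB1 : B < 1) : 0 < gasZ μ F S := by
  induction S using Finset.induction_on with
  | empty => simp [gasZ, pairW]
  | insert a S ha ih =>
    have hΩ := omega_nonneg h
    have hcard : (S.card : ℝ) ≤ (insert a S).card := by
      exact_mod_cast Finset.card_le_card (Finset.subset_insert a S)
    have h1 := ih ((mul_le_mul_of_nonneg_right hcard hΩ).trans hB)
    have h2 := gasZ_erase_le h (insert a S) hB (Finset.mem_insert_self a S)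
    rw [Finset.erase_insert ha] at h2
    exact lt_of_lt_of_le (mul_pos (by linarith) h1) h2

end Pool.Agent.Lib.MP_4952d6_mp

end

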