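import Pool.Agent.Lib.MP_4952d6_mp.Pk.G04
import Pool.Agent.Lib.MP_4952d6_mp.Pk.G05

/-! Merged modules (to save import time): Torus, Radial. -/

/-! ### Torus -/

section

set_option autoImplicit false
set_option linter.unusedSectionVars false
set_option linter.unusedVariables false
open MeasureTheory Function Filter Topology AddCircle ComplexConjugate

namespace Pool.Agent.Lib.MP_4952d6_mp

/-- The three dimensional unit torus. -/
abbrev T3 : Type := Fin 3 → UnitAddCircle

/-- Normalised Haar measure on the three dimensional torus. -/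
noncomputable def lam3 : Measure T3 := Measure.pi fun _ => (haarAddCircle : Measure UnitAddCircle)

instance : IsProbabilityMeasure lam3 := by unfold lam3; infer_instance
instance : lam3.IsAddHaarMeasure := by unfold lam3; infer_instance
instance : lam3.IsNegInvariant := by unfold lam3; exact Measure.pi.isNegInvariant _

/-- Characters of the three dimensional torus. -/
noncomputable def ch (p : Fin 3 → ℤ) (x : T3) : ℂ := UnitAddTorus.mFourier p x

lemma ch_continuous (p : Fin 3 → ℤ) : Continuous (ch p) := (UnitAddTorus.mFourier p).continuous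

lemma ch_norm (p : Fin 3 → ℤ) (x : T3) : ‖ch p x‖ = 1 := by
  simp only [ch, UnitAddTorus.mFourier, ContinuousMap.coe_mk, norm_prod, fourier_apply,
    Circle.norm_coe, Finset.prod_const_one]

lemma ch_add (p q : Fin 3 → ℤ) (x : T3) : ch (p + q) x = ch p x * ch q x :=
  UnitAddTorus.mFourier_add

lemma ch_neg (p : Fin 3 → ℤ) (x : T3) : ch (-p) x = conj (ch p x) := UnitAddTorus.mFourier_neg

lemma ch_zero (x : T3) : ch 0 x = 1 := by
  simp [ch, UnitAddTorus.mFourier]

lemma fourier_add_arg (n : ℤ) (x y : UnitAddCircle) :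
    fourier n (x + y) = fourier n x * fourier n y := by
  simp only [fourier_apply, smul_add, toCircle_add, Circle.coe_mul]

lemma ch_add_arg (p : Fin 3 → ℤ) (x y : T3) : ch p (x + y) = ch p x * ch p y := by
  simp only [ch, UnitAddTorus.mFourier, ContinuousMap.coe_mk, Pi.add_apply, fourier_add_arg,
    Finset.prod_mul_distrib]

lemma ch_neg_arg (p : Fin 3 → ℤ) (x : T3) : ch p (-x) = conj (ch p x) := by
  have h1 : ch p x * ch p (-x) = 1 := by
    rw [← ch_add_arg, add_neg_cancel]
    simp [ch, UnitAddTorus.mFourier]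
  have h2 : ch p x * conj (ch p x) = 1 := by
    rw [Complex.mul_conj, Complex.normSq_eq_norm_sq, ch_norm]; simp
  have h3 : ch p x ≠ 0 := fun h => by have := ch_norm p x; rw [h] at this; simp at this
  exact mul_left_cancel₀ h3 (h1.trans h2.symm)

/-- Translation by `t` in direction `α`. -/
noncomputable def tau (α : Fin 3) (t : ℝ) : T3 := Pi.single α (t : UnitAddCircle)

lemma tau_zero (α : Fin 3) : tau α 0 = 0 := by simp [tau]

lemma ch_tau (p : Fin 3 → ℤ) (α : Fin 3) (t : ℝ) :
    ch p (tau α t) = Complex.exp (2 * Real.pi * Complex.I * (p α : ℝ) * t) := by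
  simp only [ch, tau, UnitAddTorus.mFourier, ContinuousMap.coe_mk]
  rw [Finset.prod_eq_single α]
  · rw [Pi.single_eq_same, fourier_coe_apply]
    simp
  · intro b _ hb
    rw [Pi.single_eq_of_ne hb]
    simp
  · simp

lemma ch_add_tau (p : Fin 3 → ℤ) (α : Fin 3) (x : T3) (t : ℝ) :
    ch p (x + tau α t) = ch p x * Complex.exp (2 * Real.pi * Complex.I * (p α : ℝ) * t) := by
  rw [ch_add_arg, ch_tau]

/-- A nontrivial character takes the value `-1`. -/
lemma exists_ch_eq_neg_one {p : Fin 3 → ℤ} (hp : p ≠ 0) : ∃ s : T3, ch p s = -1 := by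
  obtain ⟨α, hα⟩ := Function.ne_iff.1 hp
  have hα' : (p α : ℝ) ≠ 0 := by exact_mod_cast hα
  refine ⟨tau α (1 / (2 * (p α : ℝ))), ?_⟩
  rw [ch_tau]
  have : 2 * (Real.pi : ℂ) * Complex.I * ((p α : ℝ) : ℂ) * ((1 / (2 * (p α : ℝ)) : ℝ) : ℂ)
      = Real.pi * Complex.I := by
    push_cast
    have : ((p α : ℤ) : ℂ) ≠ 0 := by exact_mod_cast hα
    field_simp
  rw [this, Complex.exp_pi_mul_I]

/-! ### Configurations -/

variable {ι : Type*} [Fintype ι]

/-- Characters on configurations. -/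
noncomputable def chN (k : ι → Fin 3 → ℤ) (x : ι → T3) : ℂ := ∏ i, ch (k i) (x i)

/-- The measure on configurations. -/
noncomputable abbrev piN (ι : Type*) [Fintype ι] : Measure (ι → T3) := Measure.pi fun _ => lam3

lemma chN_continuous (k : ι → Fin 3 → ℤ) : Continuous (chN k) :=
  continuous_finsetProd _ fun i _ => (ch_continuous (k i)).comp (continuous_apply i)

lemma chN_norm (k : ι → Fin 3 → ℤ) (x : ι → T3) : ‖chN k x‖ = 1 := by
  simp [chN, norm_prod, ch_norm]

lemma chN_add (k l : ι → Fin 3 → ℤ) (x : ι → T3) : chN (k + l) x = chN k x * chN l x := by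
  simp [chN, ch_add, Finset.prod_mul_distrib]

lemma chN_neg (k : ι → Fin 3 → ℤ) (x : ι → T3) : chN (-k) x = conj (chN k x) := by
  simp [chN, ch_neg, map_prod]

lemma chN_add_arg (k : ι → Fin 3 → ℤ) (x y : ι → T3) : chN k (x + y) = chN k x * chN k y := by
  simp [chN, ch_add_arg, Finset.prod_mul_distrib]

lemma chN_sm (k : ι → Fin 3 → ℤ) : StronglyMeasurable (chN k) :=
  (chN_continuous k).stronglyMeasurable

lemma conj_chN_mul_self (k : ι → Fin 3 → ℤ) (x : ι → T3) : conj (chN k x) * chN k x = 1 := by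
  rw [mul_comm, Complex.mul_conj, Complex.normSq_eq_norm_sq, chN_norm]; simp

section
variable [DecidableEq ι]

/-- Translation of particle `i` by `t` in direction `α`. -/
noncomputable def tauN (i : ι) (α : Fin 3) (t : ℝ) : ι → T3 := Pi.single i (tau α t)

lemma tauN_zero (i : ι) (α : Fin 3) : tauN i α 0 = 0 := by simp [tauN, tau_zero]

lemma chN_single (k : ι → Fin 3 → ℤ) (i : ι) (s : T3) :
    chN k (Pi.single i s) = ch (k i) s := by
  simp only [chN]
  rw [Finset.prod_eq_single i]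
  · rw [Pi.single_eq_same]
  · intro b _ hb
    rw [Pi.single_eq_of_ne hb]
    simp [ch, UnitAddTorus.mFourier]
  · simp

lemma chN_add_tauN (k : ι → Fin 3 → ℤ) (i : ι) (α : Fin 3) (x : ι → T3) (t : ℝ) :
    chN k (x + tauN i α t)
      = chN k x * Complex.exp (2 * Real.pi * Complex.I * (k i α : ℝ) * t) := by
  rw [chN_add_arg, tauN, chN_single, ch_tau]

end

/-- Fourier coefficients on configuration space. -/
noncomputable def fc (f : (ι → T3) → ℂ) (k : ι → Fin 3 → ℤ) : ℂ :=
  ∫ x, conj (chN k x) * f x ∂(piN ι)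

/-- Fourier coefficients on the torus. -/
noncomputable def fc3 (f : T3 → ℂ) (p : Fin 3 → ℤ) : ℂ := ∫ x, conj (ch p x) * f x ∂lam3

/-! ### Parseval -/

section parseval

/-- Parseval on the uncurried torus with explicit measure. -/
lemma parseval_uncurried {d : Type*} [Fintype d] (f g : (d → UnitAddCircle) → ℂ)
    (hf : MemLp f 2 (Measure.pi fun _ => haarAddCircle))
    (hg : MemLp g 2 (Measure.pi fun _ => haarAddCircle)) :
    HasSum (fun k : d → ℤ =>
        conj (∫ x, conj (UnitAddTorus.mFourier k x) * f x ∂(Measure.pi fun _ => haarAddCircle))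
          * (∫ x, conj (UnitAddTorus.mFourier k x) * g x ∂(Measure.pi fun _ => haarAddCircle)))
      (∫ x, conj (f x) * g x ∂(Measure.pi fun _ => haarAddCircle)) := by
  have key := UnitAddTorus.hasSum_prod_mFourierCoeff (hf.toLp f) (hg.toLp g)
  have e1 : ∀ (h : (d → UnitAddCircle) → ℂ) (hh : MemLp h 2 (Measure.pi fun _ => haarAddCircle))
      (k : d → ℤ), UnitAddTorus.mFourierCoeff (hh.toLp h) k
      = ∫ x, conj (UnitAddTorus.mFourier k x) * h x ∂(Measure.pi fun _ => haarAddCircle) := by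
    intro h hh k
    refine integral_congr_ae ?_
    filter_upwards [hh.coeFn_toLp] with x hx
    rw [hx, UnitAddTorus.mFourier_neg, smul_eq_mul]
  have e2 : ∫ x, conj ((hf.toLp f) x) * (hg.toLp g) x ∂(Measure.pi fun _ => haarAddCircle)
      = ∫ x, conj (f x) * g x ∂(Measure.pi fun _ => haarAddCircle) := by
    refine integral_congr_ae ?_
    filter_upwards [hf.coeFn_toLp, hg.coeFn_toLp] with x hx hx'
    rw [hx, hx']
  simp_rw [e1] at key
  rw [← e2]
  exact key

lemma parseval3 {f g : T3 → ℂ} (hf : MemLp f 2 lam3) (hg : MemLp g 2 lam3) :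
    HasSum (fun p => conj (fc3 f p) * fc3 g p) (∫ x, conj (f x) * g x ∂lam3) :=
  parseval_uncurried f g hf hg

/-- Currying as a homomorphism. -/
def curryHom (ι : Type*) : (ι × Fin 3 → UnitAddCircle) →+ (ι → T3) where
  toFun x i α := x (i, α)
  map_zero' := rfl
  map_add' _ _ := rfl

lemma borel_config (ι : Type*) [Fintype ι] : BorelSpace (ι → T3) := Pi.borelSpace

lemma piN_haar (ι : Type*) [Fintype ι] : (piN ι).IsAddHaarMeasure := Measure.pi.isAddHaarMeasure _

lemma mp_curry (ι : Type*) [Fintype ι] :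
    MeasurePreserving (curryHom ι) (Measure.pi fun _ => haarAddCircle) (piN ι) := by
  have := borel_config ι
  have := piN_haar ι
  refine AddMonoidHom.measurePreserving (f := curryHom ι) ?_ ?_ ?_
  · refine continuous_pi fun i => continuous_pi fun α => continuous_apply (i, α)
  · intro x
    exact ⟨fun q => x q.1 q.2, rfl⟩
  · rw [measure_univ, measure_univ]

theorem parseval {f g : (ι → T3) → ℂ} (hf : MemLp f 2 (piN ι)) (hg : MemLp g 2 (piN ι)) :
    HasSum (fun k => conj (fc f k) * fc g k) (∫ x, conj (f x) * g x ∂(piN ι)) := by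
  have hc := mp_curry ι
  have key := parseval_uncurried (fun x => f (curryHom ι x)) (fun x => g (curryHom ι x))
    (hf.comp_measurePreserving hc) (hg.comp_measurePreserving hc)
  have e1 : ∀ (h : (ι → T3) → ℂ), MemLp h 2 (piN ι) → ∀ k : ι × Fin 3 → ℤ,
      ∫ x, conj (UnitAddTorus.mFourier k x) * h (curryHom ι x) ∂(Measure.pi fun _ => haarAddCircle)
        = fc h (fun i α => k (i, α)) := by
    intro h hh k
    unfold fc
    rw [← mp_integral hc (f := fun x => conj (chN (fun i α => k (i, α)) x) * h x)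
      ((Complex.continuous_conj.comp_stronglyMeasurable
      (chN_sm _)).aestronglyMeasurable.mul hh.1)]
    refine integral_congr_ae (Eventually.of_forall fun x => ?_)
    dsimp only
    congr 2
    simp only [UnitAddTorus.mFourier, ContinuousMap.coe_mk, chN, ch, curryHom, AddMonoidHom.coe_mk,
      ZeroHom.coe_mk]
    rw [Fintype.prod_prod_type]
  have e2 : ∫ x, conj (f (curryHom ι x)) * g (curryHom ι x) ∂(Measure.pi fun _ => haarAddCircle)
      = ∫ x, conj (f x) * g x ∂(piN ι) := by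
    refine mp_integral hc (f := fun x => conj (f x) * g x) ?_
    exact (Complex.continuous_conj.comp_aestronglyMeasurable hf.1).mul hg.1
  simp_rw [e1 f hf, e1 g hg] at key
  rw [e2] at key
  exact (Equiv.hasSum_iff (Equiv.curry ι (Fin 3) ℤ)
    (f := fun k => conj (fc f k) * fc g k)).1 key

lemma hasSum_sq_of_prod {κ : Type*} {a : κ → ℂ} {s : ℂ} (h : HasSum (fun k => conj (a k) * a k) s) :
    HasSum (fun k => ‖a k‖ ^ 2) s.re := by
  have h2 := Complex.hasSum_re h
  have e : (fun k => ‖a k‖ ^ 2) = fun k => (conj (a k) * a k).re := by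
    ext k
    rw [mul_comm, Complex.mul_conj, Complex.normSq_eq_norm_sq, Complex.ofReal_re]
  rw [e]; exact h2

lemma re_integral_conj_mul {X : Type*} [MeasurableSpace X] {μ : Measure X} {f : X → ℂ} :
    (∫ x, conj (f x) * f x ∂μ).re = ∫ x, ‖f x‖ ^ 2 ∂μ := by
  have : ∀ x, conj (f x) * f x = ((‖f x‖ ^ 2 : ℝ) : ℂ) := fun x => by
    rw [mul_comm, Complex.mul_conj, Complex.normSq_eq_norm_sq]
  simp_rw [this]
  rw [integral_complex_ofReal, Complex.ofReal_re]

theorem parseval_sq {f : (ι → T3) → ℂ} (hf : MemLp f 2 (piN ι)) :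
    HasSum (fun k => ‖fc f k‖ ^ 2) (∫ x, ‖f x‖ ^ 2 ∂(piN ι)) := by
  have := hasSum_sq_of_prod (parseval hf hf)
  rwa [re_integral_conj_mul] at this

theorem parseval3_sq {f : T3 → ℂ} (hf : MemLp f 2 lam3) :
    HasSum (fun p => ‖fc3 f p‖ ^ 2) (∫ x, ‖f x‖ ^ 2 ∂lam3) := by
  have := hasSum_sq_of_prod (parseval3 hf hf)
  rwa [re_integral_conj_mul] at this

end parseval

/-! ### Differences of two particles -/

section diff
variable [DecidableEq ι]

/-- The difference of two distinct particle positions is Haar distributed. -/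
lemma mp_diff {i j : ι} (hij : i ≠ j) :
    MeasurePreserving (fun x : ι → T3 => x i - x j) (piN ι) lam3 := by
  have := borel_config ι
  have := piN_haar ι
  let D : (ι → T3) →+ T3 :=
    { toFun := fun x => x i - x j
      map_zero' := by simp
      map_add' := fun x y => by simp only [Pi.add_apply]; abel }
  refine AddMonoidHom.measurePreserving (f := D) ?_ ?_ ?_
  · exact (continuous_apply i).sub (continuous_apply j)
  · intro y
    refine ⟨Pi.single i y, ?_⟩
    change (Pi.single i y : ι → T3) i - (Pi.single i y : ι → T3) j = y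
    rw [Pi.single_eq_same, Pi.single_eq_of_ne hij.symm, sub_zero]
  · rw [measure_univ, measure_univ]

end diff

end Pool.Agent.Lib.MP_4952d6_mp

end

/-! ### Radial -/

section

set_option autoImplicit false
set_option linter.unusedSectionVars false
set_option linter.unusedVariables false
open MeasureTheory Function Filter Topology AddCircle ComplexConjugate Set

namespace Pool.Agent.Lib.MP_4952d6_mp

/-- Vector of circle norms. -/
noncomputable def vv (x : T3) : EuclideanSpace ℝ (Fin 3) := WithLp.toLp 2 (fun α => ‖x α‖)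

/-- Distance to the origin on the torus. -/
noncomputable def rr (x : T3) : ℝ := ‖vv x‖

/-- Coordinate in `(-1/2, 1/2]`. -/
noncomputable def crd (x : T3) (α : Fin 3) : ℝ := (AddCircle.equivIoc (1:ℝ) (-(1/2)) (x α) : ℝ)

lemma crd_mem (x : T3) (α : Fin 3) : crd x α ∈ Ioc (-(1/2) : ℝ) (1/2) := by
  obtain ⟨h1, h2⟩ := (AddCircle.equivIoc (1:ℝ) (-(1/2)) (x α)).2
  exact ⟨h1, h2.trans (by norm_num)⟩

lemma coe_crd (x : T3) (α : Fin 3) : ((crd x α : ℝ) : UnitAddCircle) = x α :=
  AddCircle.coe_equivIoc (p := (1:ℝ)) (a := -(1/2))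

lemma crd_eq_of {x : T3} {α : Fin 3} {s : ℝ} (hs : s ∈ Ioc (-(1/2) : ℝ) (1/2))
    (h : (s : UnitAddCircle) = x α) : crd x α = s := by
  have hs' : s ∈ Ioc (-(1/2) : ℝ) (-(1/2) + 1) := by
    have e : (-(1/2) : ℝ) + 1 = 1/2 := by norm_num
    rwa [e]
  unfold crd
  rw [← h]
  exact AddCircle.equivIoc_coe_of_mem (p := (1:ℝ)) hs'

lemma abs_crd (x : T3) (α : Fin 3) : |crd x α| = ‖x α‖ := by
  have h := crd_mem x α
  rw [← coe_crd x α, (AddCircle.norm_coe_eq_abs_iff (1:ℝ) one_ne_zero).2]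
  rw [abs_one, abs_le]
  exact ⟨by linarith [h.1], h.2⟩

lemma rr_sq (x : T3) : rr x ^ 2 = ∑ α, crd x α ^ 2 := by
  unfold rr vv
  rw [EuclideanSpace.norm_sq_eq]
  refine Finset.sum_congr rfl fun α _ => ?_
  simp only
  rw [norm_norm, ← abs_crd, sq_abs]

lemma rr_nonneg (x : T3) : 0 ≤ rr x := norm_nonneg _

lemma abs_crd_le_rr (x : T3) (α : Fin 3) : |crd x α| ≤ rr x := by
  refine abs_le_of_sq_le_sq ?_ (rr_nonneg x)
  rw [rr_sq]
  exact Finset.single_le_sum (f := fun α => crd x α ^ 2) (fun i _ => sq_nonneg _) (Finset.mem_univ α)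

lemma rr_neg (x : T3) : rr (-x) = rr x := by
  unfold rr vv
  simp

lemma vv_continuous : Continuous vv := by
  unfold vv
  refine (PiLp.continuous_toLp 2 _).comp ?_
  exact continuous_pi fun α => (continuous_apply α).norm

lemma rr_continuous : Continuous rr := vv_continuous.norm

lemma rr_measurable : Measurable rr := rr_continuous.measurable

lemma crd_measurable (α : Fin 3) : Measurable (fun x => crd x α) := by
  have h : Measurable (AddCircle.measurableEquivIoc (1:ℝ) (-(1/2))) :=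
    (AddCircle.measurableEquivIoc (1:ℝ) (-(1/2))).measurable
  exact (measurable_subtype_coe.comp h).comp (measurable_pi_apply α)

lemma rr_tau (x : T3) (α : Fin 3) (t : ℝ) : |rr (x + tau α t) - rr x| ≤ |t| := by
  unfold rr
  refine (abs_norm_sub_norm_le _ _).trans ?_
  have h1 : ‖vv (x + tau α t) - vv x‖ ^ 2 ≤ |t| ^ 2 := by
    rw [EuclideanSpace.norm_sq_eq]
    rw [Finset.sum_eq_single α]
    · refine pow_le_pow_left₀ (norm_nonneg _) ?_ 2
      simp only [vv, tau, PiLp.sub_apply, Pi.add_apply, Pi.single_eq_same]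
      rw [Real.norm_eq_abs]
      refine (abs_norm_sub_norm_le _ _).trans ?_
      rw [add_sub_cancel_left]
      exact QuotientAddGroup.norm_mk_le_norm
    · intro β _ hβ
      simp [vv, tau, Pi.single_eq_of_ne hβ]
    · simp
  exact (pow_le_pow_iff_left₀ (norm_nonneg _) (abs_nonneg _) two_ne_zero).1 h1

lemma crd_add_tau {x : T3} {α : Fin 3} {t : ℝ} (h : crd x α + t ∈ Ioc (-(1/2) : ℝ) (1/2)) :
    crd (x + tau α t) α = crd x α + t := by
  refine crd_eq_of h ?_
  simp only [tau, Pi.add_apply, Pi.single_eq_same]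
  rw [AddCircle.coe_add, coe_crd x α]

lemma crd_add_tau_ne {x : T3} {α β : Fin 3} (hβ : β ≠ α) (t : ℝ) :
    crd (x + tau α t) β = crd x β := by
  unfold crd
  simp [tau, Pi.single_eq_of_ne hβ]

lemma rr_sq_add_tau {x : T3} {α : Fin 3} {t : ℝ} (h : crd x α + t ∈ Ioc (-(1/2) : ℝ) (1/2)) :
    rr (x + tau α t) ^ 2 = rr x ^ 2 + 2 * crd x α * t + t ^ 2 := by
  rw [rr_sq, rr_sq, ← Finset.add_sum_erase _ _ (Finset.mem_univ α),
    ← Finset.add_sum_erase (f := fun α => crd x α ^ 2) _ (Finset.mem_univ α), crd_add_tau h]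
  have : ∑ β ∈ Finset.univ.erase α, crd (x + tau α t) β ^ 2
      = ∑ β ∈ Finset.univ.erase α, crd x β ^ 2 :=
    Finset.sum_congr rfl fun β hβ => by rw [crd_add_tau_ne (Finset.ne_of_mem_erase hβ)]
  rw [this]; ring

/-- Near a point with `rr x < 1/2`, translations do not wrap around. -/
lemma eventually_mem {x : T3} (hx : rr x < 1/2) (α : Fin 3) :
    ∀ᶠ t : ℝ in 𝓝 0, crd x α + t ∈ Ioc (-(1/2) : ℝ) (1/2) := by
  have h1 : |crd x α| < 1/2 := (abs_crd_le_rr x α).trans_lt hx
  have h2 := abs_lt.1 h1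
  have h3 : Tendsto (fun t : ℝ => crd x α + t) (𝓝 0) (𝓝 (crd x α + 0)) :=
    (continuous_const.add continuous_id).tendsto 0
  rw [add_zero] at h3
  exact (h3.eventually (Ioo_mem_nhds h2.1 h2.2)).mono fun t ht => ⟨ht.1, ht.2.le⟩

lemma hasDerivAt_crd {x : T3} (hx : rr x < 1/2) (α : Fin 3) :
    HasDerivAt (fun t : ℝ => crd (x + tau α t) α) 1 0 := by
  have h1 : HasDerivAt (fun t : ℝ => crd x α + t) 1 0 := (hasDerivAt_id (0:ℝ)).const_add _
  refine h1.congr_of_eventuallyEq ?_
  filter_upwards [eventually_mem hx α] with t ht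
  exact crd_add_tau ht

lemma hasDerivAt_rr {x : T3} (h0 : 0 < rr x) (hx : rr x < 1/2) (α : Fin 3) :
    HasDerivAt (fun t : ℝ => rr (x + tau α t)) (crd x α / rr x) 0 := by
  have h1 : HasDerivAt (fun t : ℝ => rr x ^ 2 + 2 * crd x α * t + t ^ 2) (2 * crd x α) 0 := by
    have h2 : HasDerivAt (fun t : ℝ => rr x ^ 2 + 2 * crd x α * t) (2 * crd x α * 1) 0 :=
      ((hasDerivAt_id (0:ℝ)).const_mul (2 * crd x α)).const_add _
    have h3 : HasDerivAt (fun t : ℝ => t ^ 2) 0 0 := by
      simpa using hasDerivAt_pow 2 (0:ℝ)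
    have h4 := HasDerivAt.fun_add h2 h3
    rw [mul_one, add_zero] at h4
    exact h4
  have h5 : (rr x ^ 2 + 2 * crd x α * 0 + 0 ^ 2 : ℝ) ≠ 0 := by
    have : (0:ℝ) < rr x ^ 2 := by positivity
    simpa using this.ne'
  have h6 := h1.sqrt h5
  have e : Real.sqrt (rr x ^ 2 + 2 * crd x α * 0 + 0 ^ 2) = rr x := by
    have : (rr x ^ 2 + 2 * crd x α * 0 + 0 ^ 2 : ℝ) = rr x ^ 2 := by ring
    rw [this, Real.sqrt_sq (rr_nonneg x)]
  rw [e] at h6
  have e2 : 2 * crd x α / (2 * rr x) = crd x α / rr x := by field_simp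
  rw [e2] at h6
  refine h6.congr_of_eventuallyEq ?_
  filter_upwards [eventually_mem hx α] with t ht
  rw [← rr_sq_add_tau ht, Real.sqrt_sq (rr_nonneg _)]

/-! ### Radial integrals -/

/-- Surface area constant (`4π`). -/
noncomputable def sig : ℝ := 3 * (volume : Measure (EuclideanSpace ℝ (Fin 3))).real (Metric.ball 0 1)

lemma sig_pos : 0 < sig := by
  unfold sig
  have : 0 < (volume : Measure (EuclideanSpace ℝ (Fin 3))).real (Metric.ball 0 1) := by
    refine ENNReal.toReal_pos ?_ ?_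
    · exact (Metric.measure_ball_pos _ _ one_pos).ne'
    · exact measure_ball_lt_top.ne
  linarith

lemma rr_coe {y : Fin 3 → ℝ} (hy : ∀ i, y i ∈ Ioc (-(1/2) : ℝ) (1/2)) :
    rr (fun i => (y i : UnitAddCircle)) = ‖(WithLp.toLp 2 y : EuclideanSpace ℝ (Fin 3))‖ := by
  have h1 : ∀ α, crd (fun i => (y i : UnitAddCircle)) α = y α := fun α => crd_eq_of (hy α) rfl
  have h2 : rr (fun i => (y i : UnitAddCircle)) ^ 2
      = ‖(WithLp.toLp 2 y : EuclideanSpace ℝ (Fin 3))‖ ^ 2 := by
    rw [rr_sq, EuclideanSpace.norm_sq_eq]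
    refine Finset.sum_congr rfl fun α _ => ?_
    rw [h1, Real.norm_eq_abs, sq_abs]
  exact (pow_left_inj₀ (rr_nonneg _) (norm_nonneg _) two_ne_zero).1 h2

theorem integral_rad {φ : ℝ → ℝ} (hφ : ∀ r, 1/2 ≤ r → φ r = 0) :
    ∫ x, φ (rr x) ∂lam3 = sig * ∫ r in Ioi (0:ℝ), r ^ 2 * φ r := by
  have h1 := UnitAddTorus.integral_preimage (d := Fin 3) (fun x : T3 => φ (rr x)) (fun _ => -(1/2))
  have h2 : ∫ x, φ (rr x) ∂lam3 = ∫ y : Fin 3 → ℝ in {y | ∀ i, y i ∈ Ioc (-(1/2) : ℝ) (-(1/2) + 1)},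
      φ (rr (fun i => (y i : UnitAddCircle))) := h1
  have e : (-(1/2) : ℝ) + 1 = 1/2 := by norm_num
  rw [e] at h2
  have hmeas : MeasurableSet {y : Fin 3 → ℝ | ∀ i, y i ∈ Ioc (-(1/2) : ℝ) (1/2)} :=
    MeasurableSet.univ_pi' fun i => measurableSet_Ioc
  have h3 : ∫ y : Fin 3 → ℝ in {y | ∀ i, y i ∈ Ioc (-(1/2) : ℝ) (1/2)},
      φ (rr (fun i => (y i : UnitAddCircle)))
      = ∫ y : Fin 3 → ℝ in {y | ∀ i, y i ∈ Ioc (-(1/2) : ℝ) (1/2)},
        φ ‖(WithLp.toLp 2 y : EuclideanSpace ℝ (Fin 3))‖ := by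
    refine setIntegral_congr_fun hmeas fun y hy => ?_
    simp only
    rw [rr_coe hy]
  have h4 : ∫ y : Fin 3 → ℝ in {y | ∀ i, y i ∈ Ioc (-(1/2) : ℝ) (1/2)},
        φ ‖(WithLp.toLp 2 y : EuclideanSpace ℝ (Fin 3))‖
      = ∫ y : Fin 3 → ℝ, φ ‖(WithLp.toLp 2 y : EuclideanSpace ℝ (Fin 3))‖ := by
    refine setIntegral_eq_integral_of_forall_compl_eq_zero fun y hy => ?_
    apply hφ
    by_contra hcon
    push Not at hcon
    apply hy
    intro i
    have h5 : |y i| ≤ ‖(WithLp.toLp 2 y : EuclideanSpace ℝ (Fin 3))‖ := by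
      have := EuclideanSpace.norm_sq_eq (WithLp.toLp 2 y : EuclideanSpace ℝ (Fin 3))
      refine abs_le_of_sq_le_sq ?_ (norm_nonneg _)
      rw [this]
      have := Finset.single_le_sum (f := fun i => ‖(WithLp.toLp 2 y : EuclideanSpace ℝ (Fin 3)) i‖ ^ 2)
        (fun i _ => sq_nonneg _) (Finset.mem_univ i)
      simpa using this
    have h6 := abs_lt.1 (h5.trans_lt hcon)
    exact ⟨h6.1, h6.2.le⟩
  have h7 : ∫ y : Fin 3 → ℝ, φ ‖(WithLp.toLp 2 y : EuclideanSpace ℝ (Fin 3))‖
      = ∫ z : EuclideanSpace ℝ (Fin 3), φ ‖z‖ :=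
    (PiLp.volume_preserving_toLp (Fin 3)).integral_comp
      (MeasurableEquiv.toLp 2 (Fin 3 → ℝ)).measurableEmbedding (fun z => φ ‖z‖)
  have h8 := integral_fun_norm_addHaar (volume : Measure (EuclideanSpace ℝ (Fin 3))) φ
  rw [h2, h3, h4, h7, h8]
  simp only [finrank_euclideanSpace, Fintype.card_fin, nsmul_eq_mul, smul_eq_mul, sig]
  push_cast
  ring

/-- Spheres of radius less than `1/2` are null sets. -/
lemma ae_rr_ne {e : ℝ} (he : e < 1/2) : ∀ᵐ x ∂lam3, rr x ≠ e := by
  classical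
  have h1 := integral_rad (φ := fun r => if r = e then 1 else 0) (fun r hr => by
    rw [if_neg]; intro h; linarith)
  have h2 : ∫ r in Ioi (0:ℝ), r ^ 2 * (if r = e then (1:ℝ) else 0) = 0 := by
    rw [integral_eq_zero_of_ae]
    have : ∀ᵐ r : ℝ, r ≠ e := by
      rw [ae_iff]; simp
    filter_upwards [ae_restrict_of_ae this] with r hr
    simp [hr]
  rw [h2, mul_zero] at h1
  have h3 : ∫ x, (if rr x = e then (1:ℝ) else 0) ∂lam3 = lam3.real {x | rr x = e} := by
    have hm : MeasurableSet {x | rr x = e} := rr_measurable (measurableSet_singleton e)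
    have : (fun x => if rr x = e then (1:ℝ) else 0) = ({x | rr x = e}).indicator (fun _ => (1:ℝ)) := by
      ext x
      simp [Set.indicator_apply]
    rw [this, integral_indicator_const _ hm, smul_eq_mul, mul_one]
  rw [h3, measureReal_def, ENNReal.toReal_eq_zero_iff] at h1
  rcases h1 with h1 | h1
  · rw [ae_iff]; simpa using h1
  · exact absurd h1 (measure_ne_top _ _)

end Pool.Agent.Lib.MP_4952d6_mp

end

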