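import Pool.Agent.Lib.MP_4952d6_mp.Pk.G01
import Pool.Agent.Lib.MP_4952d6_mp.Pk.G04
import Pool.Agent.Lib.MP_4952d6_mp.Pk.G06

/-! Merged modules (to save import time): ScatComp, ScatLen, LB.UncA, LB.UncB, LB.UncC, LB.ErrB. -/

/-! ### ScatComp -/

section

set_option autoImplicit false
set_option linter.unusedSectionVars false
set_option linter.unusedVariables false
open MeasureTheory Function Filter Topology Set

namespace Pool.Agent.Lib.MP_4952d6_mp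

namespace Scat

variable {W : ℝ → ℝ} {R₀ R a : ℝ} {f Q : ℝ → ℝ}

/-- Rescaling. -/
theorem scale (h : Scat W R₀ R a f Q) {L : ℝ} (hL : 0 < L) :
    Scat (fun r => L ^ 2 * W (L * r)) (R₀ / L) (R / L) (a / L) (fun r => f (L * r))
      (fun r => Q (L * r) / L) where
  R₀_nonneg := div_nonneg h.R₀_nonneg hL.le
  R₀_le := div_le_div_of_nonneg_right h.R₀_le hL.le
  a_pos := div_pos h.a_pos hL
  a_le := div_le_div_of_nonneg_right h.a_le hL.le
  W_meas := (h.W_meas.comp (measurable_const_mul L)).const_mul _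
  W_nonneg r := mul_nonneg (sq_nonneg L) (h.W_nonneg _)
  W_bdd := h.W_bdd.elim fun M hM => ⟨L ^ 2 * M, fun r => mul_le_mul_of_nonneg_left (hM _) (sq_nonneg L)⟩
  W_zero r hr := by
    rw [h.W_zero (L * r) (by rwa [div_le_iff₀' hL] at hr), mul_zero]
  f_nonneg r := h.f_nonneg _
  f_le_one r := h.f_le_one _
  f_lip := by
    obtain ⟨M, hM0, hM⟩ := h.exists_L
    refine ⟨M * L, fun r s => (hM _ _).trans (le_of_eq ?_)⟩
    rw [← mul_sub, abs_mul, abs_of_pos hL, mul_assoc]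
  f_mono r s hrs := h.f_mono (mul_le_mul_of_nonneg_left hrs hL.le)
  f_core r h0 hr := h.f_core _ (by rwa [div_pos_iff_of_pos_right hL] at h0)
    (by rwa [le_div_iff₀' hL] at hr)
  f_ge r hr := by
    have := h.f_ge (L * r) (mul_pos hL hr)
    have e : a / (L * r) = a / L / r := by field_simp
    rwa [e] at this
  f_out r hr := by
    have := h.f_out (L * r) (by rwa [div_le_iff₀' hL] at hr)
    have e : a / (L * r) = a / L / r := by field_simp
    rwa [e] at this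
  f_deriv r hr hr' := by
    have h1 := h.f_deriv (L * r) (mul_pos hL hr) (fun he => hr' (by rw [← he]; field_simp))
    have h2 : HasDerivAt (fun x : ℝ => L * x) L r := by simpa using (hasDerivAt_id r).const_mul L
    have h3 := h1.comp r h2
    have e : Q (L * r) / (L * r) ^ 2 * L = Q (L * r) / L / r ^ 2 := by field_simp
    rw [e] at h3
    exact h3
  Q_nonneg r := div_nonneg (h.Q_nonneg _) hL.le
  Q_le r := div_le_div_of_nonneg_right (h.Q_le _) hL.le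
  Q_zero r hr := by
    rw [h.Q_zero (L * r) (by rwa [lt_div_iff₀' hL] at hr), zero_div]
  Q_zero' r hr := by
    rw [h.Q_zero' (L * r) (mul_nonpos_of_nonneg_of_nonpos hL.le hr), zero_div]
  Q_cube := by
    obtain ⟨C, hC0, hC⟩ := h.exists_C
    refine ⟨C * L ^ 2, fun r hr => ?_⟩
    rw [div_le_iff₀ hL]
    refine (hC (L * r) (mul_pos hL hr)).trans (le_of_eq (by ring))
  Q_out r hr := by
    rw [h.Q_out (L * r) (by rwa [div_le_iff₀' hL] at hr)]
  Q_int r s hr hrs := by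
    have h1 := h.Q_int (L * r) (L * s) (by rwa [div_le_iff₀' hL] at hr)
      (mul_le_mul_of_nonneg_left hrs hL.le)
    rw [← sub_div, h1, ← intervalIntegral.mul_integral_comp_mul_left,
      ← intervalIntegral.integral_const_mul, ← intervalIntegral.integral_div]
    congr 1; ext t
    field_simp

lemma Wf2_int (h : Scat W R₀ R a f Q) {W' : ℝ → ℝ} (hm : Measurable W') (h0 : ∀ r, 0 ≤ W' r)
    (hb : ∃ M, ∀ r, W' r ≤ M) {g : ℝ → ℝ} (hg : Measurable g) (hg0 : ∀ r, 0 ≤ g r) (hg1 : ∀ r, g r ≤ 1)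
    (r s : ℝ) : IntervalIntegrable (fun r => r ^ 2 * W' r * (f r * g r)) volume r s := by
  obtain ⟨M, hM⟩ := hb
  have h1 : IntervalIntegrable (fun r : ℝ => r ^ 2 * M) volume r s :=
    (Continuous.intervalIntegrable (by fun_prop) _ _)
  refine h1.mono_fun (((measurable_id.pow_const 2).mul hm).mul
    (h.f_cont.measurable.mul hg)).aestronglyMeasurable (Eventually.of_forall fun r => ?_)
  have hM0 : 0 ≤ M := (h0 0).trans (hM 0)
  have := h0 r
  have := h.f_nonneg r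
  have := hg0 r
  dsimp only
  rw [Real.norm_eq_abs, Real.norm_eq_abs, abs_of_nonneg (by positivity), abs_of_nonneg (by positivity)]
  calc r ^ 2 * W' r * (f r * g r) ≤ r ^ 2 * W' r * 1 := by
        refine mul_le_mul_of_nonneg_left ?_ (by positivity)
        exact mul_le_one₀ (h.f_le_one r) (hg0 r) (hg1 r)
    _ ≤ r ^ 2 * M := by rw [mul_one]; exact mul_le_mul_of_nonneg_left (hM r) (sq_nonneg r)

/-- **Variational comparison** of scattering lengths. -/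
theorem compare (h : Scat W R₀ R a f Q) {W' : ℝ → ℝ} {R' a' : ℝ} {f' Q' : ℝ → ℝ}
    (h' : Scat W' R₀ R' a' f' Q') {d : ℝ} (hd : R ≤ d) (hd' : R' ≤ d) :
    a' ≤ a + ((∫ r in R₀..d, r ^ 2 * W' r * f r ^ 2) - ∫ r in R₀..d, r ^ 2 * W r * f r ^ 2) := by
  have hd0 : 0 < d := h.R_pos.trans_le hd
  have hR0d : R₀ ≤ d := h.R₀_le.trans hd
  have hff := h.Wf2_int h'.W_meas h'.W_nonneg h'.W_bdd h.f_cont.measurable h.f_nonneg h.f_le_one R₀ d
  have hff' := h.Wf2_int h'.W_meas h'.W_nonneg h'.W_bdd h'.f_cont.measurable h'.f_nonneg h'.f_le_one R₀ d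
  have hff'' := h'.Wf2_int h'.W_meas h'.W_nonneg h'.W_bdd h'.f_cont.measurable h'.f_nonneg h'.f_le_one R₀ d
  have hWff := h.Wf2_int h.W_meas h.W_nonneg h.W_bdd h.f_cont.measurable h.f_nonneg h.f_le_one R₀ d
  have hQ2 : IntervalIntegrable (fun r => Q r ^ 2 / r ^ 2) volume R₀ d := by
    have := (h.energy_int d).sub hWff
    refine this.congr_ae (Eventually.of_forall fun r => ?_)
    simp only [Pi.sub_apply]
    ring
  have hQ2' : IntervalIntegrable (fun r => Q' r ^ 2 / r ^ 2) volume R₀ d := by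
    have := (h'.energy_int d).sub hff''
    refine this.congr_ae (Eventually.of_forall fun r => ?_)
    simp only [Pi.sub_apply]
    ring
  have hQQ : IntervalIntegrable (fun r => Q r * Q' r / r ^ 2) volume R₀ d := by
    refine (hQ2.add hQ2').mono_fun (((h.Q_meas.mul h'.Q_meas).div
      (measurable_id.pow_const 2))).aestronglyMeasurable (Eventually.of_forall fun r => ?_)
    have := h.Q_nonneg r
    have := h'.Q_nonneg r
    dsimp only
    rw [Real.norm_eq_abs, Real.norm_eq_abs, abs_of_nonneg (by positivity), abs_of_nonneg (by positivity),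
      ← add_div]
    refine div_le_div_of_nonneg_right ?_ (sq_nonneg r)
    nlinarith [sq_nonneg (Q r - Q' r), sq_nonneg (Q r), sq_nonneg (Q' r)]
  -- integration by parts
  have hibp : ∫ r in R₀..d, (Q r * Q' r / r ^ 2 + r ^ 2 * W' r * (f r * f' r)) = (1 - a / d) * a' := by
    obtain ⟨M, hM0, hM⟩ := h'.exists_M
    obtain ⟨K, hK⟩ := h.f_lipWith
    have hQlip : LipschitzOnWith (Real.toNNReal (M * d ^ 2)) Q' (Icc R₀ d) := by
      refine LipschitzOnWith.of_dist_le_mul fun r hr s hs => ?_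
      have hc : (0:ℝ) ≤ M * d ^ 2 := by positivity
      rw [Real.coe_toNNReal _ hc, Real.dist_eq, Real.dist_eq]
      have hr0 := h.R₀_nonneg.trans hr.1
      have hs0 := h.R₀_nonneg.trans hs.1
      rcases le_total r s with hrs | hrs
      · rw [abs_sub_comm, abs_sub_comm r s, abs_of_nonneg (sub_nonneg.2 (h'.Q_mono hrs)),
          abs_of_nonneg (sub_nonneg.2 hrs)]
        refine (h'.Q_sub_le hM0 hM hr.1 hrs).trans ?_
        exact mul_le_mul_of_nonneg_right (mul_le_mul_of_nonneg_left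
          (pow_le_pow_left₀ hs0 hs.2 2) hM0) (sub_nonneg.2 hrs)
      · rw [abs_of_nonneg (sub_nonneg.2 (h'.Q_mono hrs)), abs_of_nonneg (sub_nonneg.2 hrs)]
        refine (h'.Q_sub_le hM0 hM hs.1 hrs).trans ?_
        exact mul_le_mul_of_nonneg_right (mul_le_mul_of_nonneg_left
          (pow_le_pow_left₀ hr0 hr.2 2) hM0) (sub_nonneg.2 hrs)
    have hQac : AbsolutelyContinuousOnInterval Q' R₀ d := by
      rw [← uIcc_of_le hR0d] at hQlip
      exact hQlip.absolutelyContinuousOnInterval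
    have hfac : AbsolutelyContinuousOnInterval f R₀ d :=
      (hK.lipschitzOnWith (s := uIcc R₀ d)).absolutelyContinuousOnInterval
    have hP := (hfac.fun_mul hQac).integral_deriv_eq_sub
    have e1 : f R₀ * Q' R₀ = 0 := by
      rcases h.R₀_nonneg.lt_or_eq with h0 | h0
      · rw [h.f_core R₀ h0 le_rfl, zero_mul]
      · rw [h'.Q_zero' R₀ h0.symm.le, mul_zero]
    rw [e1, sub_zero, h'.Q_out d hd', h.f_out d hd] at hP
    rw [← hP]
    refine intervalIntegral.integral_congr_ae ?_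
    have hne : ∀ᵐ r : ℝ, r ≠ R₀ := by rw [ae_iff]; simp
    filter_upwards [h'.Q_deriv, hne] with r hr hr' hmem
    rw [uIoc_of_le hR0d] at hmem
    have hr0 : 0 < r := h.R₀_nonneg.trans_lt hmem.1
    have h2 := (h.f_deriv r hr0 hr').fun_mul (hr hmem.1)
    rw [h2.deriv]
    field_simp
  have hen := h.energy hd
  have hen' := h'.energy hd'
  have hle : ∫ r in R₀..d, (2 * (Q r * Q' r / r ^ 2 + r ^ 2 * W' r * (f r * f' r))
        - (Q' r ^ 2 / r ^ 2 + r ^ 2 * W' r * (f' r * f' r)))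
      ≤ ∫ r in R₀..d, (Q r ^ 2 / r ^ 2 + r ^ 2 * W' r * (f r * f r)) := by
    refine intervalIntegral.integral_mono_on hR0d
      (((hQQ.add hff').const_mul 2).sub (hQ2'.add hff'')) (hQ2.add hff) fun r hr => ?_
    have hr0 : 0 ≤ r := h.R₀_nonneg.trans hr.1
    have hW := h'.W_nonneg r
    have h1 : 0 ≤ (Q r - Q' r) ^ 2 / r ^ 2 := by positivity
    have h2 : 0 ≤ r ^ 2 * W' r * (f r - f' r) ^ 2 := by positivity
    have e1 : (Q r - Q' r) ^ 2 / r ^ 2 = Q r ^ 2 / r ^ 2 - 2 * (Q r * Q' r / r ^ 2) + Q' r ^ 2 / r ^ 2 := by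
      ring
    rw [e1] at h1
    nlinarith
  rw [intervalIntegral.integral_sub ((hQQ.add hff').const_mul 2) (hQ2'.add hff''),
    intervalIntegral.integral_const_mul, hibp] at hle
  have e2 : ∫ r in R₀..d, (Q' r ^ 2 / r ^ 2 + r ^ 2 * W' r * (f' r * f' r)) = a' * (1 - a' / d) := by
    rw [← hen']
    congr 1; ext r; ring
  have e3 : ∫ r in R₀..d, (Q r ^ 2 / r ^ 2 + r ^ 2 * W' r * (f r * f r))
      = a * (1 - a / d) + ((∫ r in R₀..d, r ^ 2 * W' r * f r ^ 2)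
        - ∫ r in R₀..d, r ^ 2 * W r * f r ^ 2) := by
    have e4 : ∫ r in R₀..d, r ^ 2 * W' r * (f r * f r) = ∫ r in R₀..d, r ^ 2 * W' r * f r ^ 2 := by
      congr 1; ext r; ring
    have e5 : ∫ r in R₀..d, r ^ 2 * W r * (f r * f r) = ∫ r in R₀..d, r ^ 2 * W r * f r ^ 2 := by
      congr 1; ext r; ring
    have e6 : ∫ r in R₀..d, (Q r ^ 2 / r ^ 2 + r ^ 2 * W r * f r ^ 2)
        = (∫ r in R₀..d, Q r ^ 2 / r ^ 2) + ∫ r in R₀..d, r ^ 2 * W r * (f r * f r) := by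
      rw [← intervalIntegral.integral_add hQ2 hWff]
      congr 1; ext r; ring
    rw [intervalIntegral.integral_add hQ2 hff, e4]
    rw [e6, e5] at hen
    linarith
  rw [e2, e3] at hle
  have h5 : 0 ≤ (a - a') ^ 2 / d := by positivity
  have e7 : (a - a') ^ 2 / d = a * (a / d) - 2 * (a * a' / d) + a' * (a' / d) := by ring
  have e8 : a / d * a' = a * a' / d := by ring
  rw [e7] at h5
  nlinarith

/-- Monotonicity of the scattering length. -/
theorem mono (h : Scat W R₀ R a f Q) {W' : ℝ → ℝ} {R' a' : ℝ} {f' Q' : ℝ → ℝ}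
    (h' : Scat W' R₀ R' a' f' Q') (hle : ∀ r, R₀ ≤ r → W' r ≤ W r) : a' ≤ a := by
  have h1 := h.compare h' (d := max R R') (le_max_left _ _) (le_max_right _ _)
  have hR0d : R₀ ≤ max R R' := h.R₀_le.trans (le_max_left _ _)
  have h2 : ∫ r in R₀..(max R R'), r ^ 2 * W' r * f r ^ 2
      ≤ ∫ r in R₀..(max R R'), r ^ 2 * W r * f r ^ 2 := by
    have i1 := h.Wf2_int h'.W_meas h'.W_nonneg h'.W_bdd h.f_cont.measurable h.f_nonneg h.f_le_one
      R₀ (max R R')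
    have i2 := h.Wf2_int h.W_meas h.W_nonneg h.W_bdd h.f_cont.measurable h.f_nonneg h.f_le_one
      R₀ (max R R')
    simp_rw [← sq] at i1 i2
    refine intervalIntegral.integral_mono_on hR0d i1 i2 fun r hr => ?_
    have := hle r hr.1
    have := h.f_nonneg r
    gcongr
  linarith

end Scat

/-- The hard sphere scattering data. -/
theorem hardSphere {R₀ R : ℝ} (h0 : 0 < R₀) (hR : R₀ < R) :
    ∃ f Q, Scat (fun _ => 0) R₀ R R₀ f Q := by
  have hV : Volt.VH (fun _ => 0) R₀ 0 := ⟨le_rfl, measurable_const, fun _ => le_rfl, fun _ => le_rfl⟩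
  have h1 := Volt.exists_scat hV h0.le hR (fun _ _ => rfl) (Or.inl h0)
  have h2 : Volt.aS (fun _ => 0) R₀ R = R₀ := by
    unfold Volt.aS
    have e1 : Volt.dsol (fun _ => 0) R₀ R = 1 := by
      unfold Volt.dsol Volt.pp; simp
    have e2 := Volt.qq_sub hV le_rfl hR.le
    rw [Volt.qq_R₀ hV] at e2
    simp only [zero_mul, mul_zero, intervalIntegral.integral_zero] at e2
    rw [e1, div_one]; linarith
  rw [h2] at h1
  exact ⟨_, _, h1⟩

/-- A crude upper bound on the scattering length. -/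
theorem Scat.a_le_int {W : ℝ → ℝ} {R₀ R a : ℝ} {f Q : ℝ → ℝ} (h : Scat W R₀ R a f Q) :
    a ≤ R₀ + ∫ r in R₀..R, r ^ 2 * W r := by
  have hR := h.R_pos
  obtain ⟨M, hM⟩ := h.W_bdd
  have hi : ∀ r s, IntervalIntegrable (fun r => r ^ 2 * W r) volume r s := by
    intro r s
    have h1 : IntervalIntegrable (fun r : ℝ => r ^ 2 * M) volume r s :=
      (Continuous.intervalIntegrable (by fun_prop) _ _)
    refine h1.mono_fun ((measurable_id.pow_const 2).mul h.W_meas).aestronglyMeasurable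
      (Eventually.of_forall fun r => ?_)
    have hM0 : 0 ≤ M := (h.W_nonneg 0).trans (hM 0)
    have := h.W_nonneg r
    dsimp only
    rw [Real.norm_eq_abs, Real.norm_eq_abs, abs_of_nonneg (by positivity), abs_of_nonneg (by positivity)]
    exact mul_le_mul_of_nonneg_left (hM r) (sq_nonneg r)
  rcases h.R₀_nonneg.eq_or_lt with h0 | h0
  · have h1 := h.Q_int R₀ R le_rfl h.R₀_le
    rw [h.Q_out R le_rfl, h.Q_zero' R₀ h0.symm.le, sub_zero] at h1
    rw [h1, ← h0, zero_add]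
    refine intervalIntegral.integral_mono_on hR.le (h.F_int 0 R) (hi 0 R) fun t _ => ?_
    exact mul_le_of_le_one_right (mul_nonneg (sq_nonneg t) (h.W_nonneg t)) (h.f_le_one t)
  · obtain ⟨f', Q', h'⟩ := hardSphere (R := R₀ + R) h0 (by linarith)
    have h1 := h'.compare h (d := R₀ + R) le_rfl (by linarith)
    have e1 : ∫ r in R₀..(R₀ + R), r ^ 2 * (0:ℝ) * f' r ^ 2 = 0 := by simp
    rw [e1, sub_zero] at h1
    have h2 : ∫ r in R₀..(R₀ + R), r ^ 2 * W r * f' r ^ 2 ≤ ∫ r in R₀..(R₀ + R), r ^ 2 * W r := by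
      have i1 := h'.Wf2_int h.W_meas h.W_nonneg h.W_bdd h'.f_cont.measurable h'.f_nonneg h'.f_le_one
        R₀ (R₀ + R)
      simp_rw [← sq] at i1
      refine intervalIntegral.integral_mono_on (by linarith) i1 (hi _ _) fun t _ => ?_
      exact mul_le_of_le_one_right (mul_nonneg (sq_nonneg t) (h.W_nonneg t))
        (pow_le_one₀ (h'.f_nonneg t) (h'.f_le_one t))
    have h3 : ∫ r in R₀..(R₀ + R), r ^ 2 * W r = ∫ r in R₀..R, r ^ 2 * W r := by
      rw [← intervalIntegral.integral_add_adjacent_intervals (hi R₀ R) (hi R (R₀ + R))]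
      have : ∫ r in R..(R₀ + R), r ^ 2 * W r = 0 := by
        rw [intervalIntegral.integral_congr (g := fun _ => (0:ℝ))]
        · simp
        · intro t ht
          rw [uIcc_of_le (by linarith)] at ht
          dsimp only
          rw [h.W_zero t ht.1, mul_zero]
      rw [this, add_zero]
    linarith

end Pool.Agent.Lib.MP_4952d6_mp

end

/-! ### ScatLen -/

section

set_option autoImplicit false
set_option linter.unusedSectionVars false
set_option linter.unusedVariables false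
open MeasureTheory Function Filter Topology Set

namespace Pool.Agent.Lib.MP_4952d6_mp

/-- Euclidean length on `Fin 3 → ℝ`. -/
noncomputable def nr (x : Fin 3 → ℝ) : ℝ := Real.sqrt (∑ α, x α ^ 2)

lemma nr_eq (x : Fin 3 → ℝ) : nr x = ‖(WithLp.toLp 2 x : EuclideanSpace ℝ (Fin 3))‖ := by
  rw [EuclideanSpace.norm_eq]
  unfold nr
  congr 1
  refine Finset.sum_congr rfl fun α _ => ?_
  simp

lemma nr_nonneg (x : Fin 3 → ℝ) : 0 ≤ nr x := Real.sqrt_nonneg _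

lemma nr_sq (x : Fin 3 → ℝ) : nr x ^ 2 = ∑ α, x α ^ 2 :=
  Real.sq_sqrt (Finset.sum_nonneg fun α _ => sq_nonneg _)

lemma nr_cont : Continuous nr := by unfold nr; fun_prop

lemma sig_eq : sig = 4 * Real.pi := by
  unfold sig
  rw [measureReal_def, EuclideanSpace.volume_ball_fin_three, ENNReal.toReal_mul,
    ENNReal.toReal_pow, ENNReal.toReal_ofReal zero_le_one, ENNReal.toReal_ofReal (by positivity)]
  ring

lemma integral_nr (φ : ℝ → ℝ) :
    ∫ x : Fin 3 → ℝ, φ (nr x) = sig * ∫ r in Ioi (0:ℝ), r ^ 2 * φ r := by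
  have h7 : ∫ y : Fin 3 → ℝ, φ ‖(WithLp.toLp 2 y : EuclideanSpace ℝ (Fin 3))‖
      = ∫ z : EuclideanSpace ℝ (Fin 3), φ ‖z‖ :=
    (PiLp.volume_preserving_toLp (Fin 3)).integral_comp
      (MeasurableEquiv.toLp 2 (Fin 3 → ℝ)).measurableEmbedding (fun z => φ ‖z‖)
  have h8 := integral_fun_norm_addHaar (volume : Measure (EuclideanSpace ℝ (Fin 3))) φ
  simp_rw [nr_eq]
  rw [h7, h8]
  simp only [finrank_euclideanSpace, Fintype.card_fin, nsmul_eq_mul, smul_eq_mul, sig]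
  push_cast
  ring

lemma integrable_nr (φ : ℝ → ℝ) :
    Integrable (fun x : Fin 3 → ℝ => φ (nr x)) ↔ IntegrableOn (fun r => r ^ 2 * φ r) (Ioi (0:ℝ)) := by
  have h7 : Integrable (fun y : Fin 3 → ℝ => φ ‖(WithLp.toLp 2 y : EuclideanSpace ℝ (Fin 3))‖)
      ↔ Integrable (fun z : EuclideanSpace ℝ (Fin 3) => φ ‖z‖) := by
    have := (PiLp.volume_preserving_toLp (Fin 3)).integrable_comp_emb
      (MeasurableEquiv.toLp 2 (Fin 3 → ℝ)).measurableEmbedding
      (g := fun z : EuclideanSpace ℝ (Fin 3) => φ ‖z‖)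
    exact this
  have h8 := integrable_fun_norm_addHaar (volume : Measure (EuclideanSpace ℝ (Fin 3))) (f := φ)
  simp_rw [nr_eq]
  rw [h7, h8]
  simp [finrank_euclideanSpace]

/-! ### Cutoff function -/

noncomputable def trap (ε s : ℝ) : ℝ := max 0 (min 1 (min ((s - ε) / ε) ((1 - ε - s) / ε)))

section cut
variable {ε : ℝ} (hε : 0 < ε) (hε2 : ε < 1/8)

lemma trap_cont (ε : ℝ) : Continuous (trap ε) := by unfold trap; fun_prop

lemma trap_nonneg (ε s : ℝ) : 0 ≤ trap ε s := le_max_left _ _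

lemma trap_le_one (ε s : ℝ) : trap ε s ≤ 1 := max_le zero_le_one (min_le_left _ _)

include hε in
lemma trap_zero {s : ℝ} (hs : s ≤ ε) : trap ε s = 0 := by
  unfold trap
  refine max_eq_left ((min_le_right _ _).trans ((min_le_left _ _).trans ?_))
  exact div_nonpos_of_nonpos_of_nonneg (by linarith) hε.le

include hε in
lemma trap_zero' {s : ℝ} (hs : 1 - ε ≤ s) : trap ε s = 0 := by
  unfold trap
  refine max_eq_left ((min_le_right _ _).trans ((min_le_right _ _).trans ?_))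
  exact div_nonpos_of_nonpos_of_nonneg (by linarith) hε.le

include hε in
lemma trap_one {s : ℝ} (hs : 2 * ε ≤ s) (hs' : s ≤ 1 - 2 * ε) : trap ε s = 1 := by
  unfold trap
  have h1 : 1 ≤ (s - ε) / ε := by rw [le_div_iff₀ hε]; linarith
  have h2 : 1 ≤ (1 - ε - s) / ε := by rw [le_div_iff₀ hε]; linarith
  rw [min_eq_left (le_min h1 h2), max_eq_right zero_le_one]

noncomputable def ZZ (ε : ℝ) : ℝ := ∫ s in (0:ℝ)..1, trap ε s

noncomputable def HH (ε s : ℝ) : ℝ := (∫ t in (0:ℝ)..s, trap ε t) / ZZ ε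

include hε hε2 in
lemma ZZ_ge : 1 - 4 * ε ≤ ZZ ε := by
  unfold ZZ
  have hi : ∀ a b : ℝ, IntervalIntegrable (trap ε) volume a b := fun a b =>
    (trap_cont ε).intervalIntegrable _ _
  rw [← intervalIntegral.integral_add_adjacent_intervals (hi 0 (2 * ε)) (hi (2 * ε) 1),
    ← intervalIntegral.integral_add_adjacent_intervals (hi (2 * ε) (1 - 2 * ε)) (hi (1 - 2 * ε) 1)]
  have h1 : 0 ≤ ∫ s in (0:ℝ)..(2 * ε), trap ε s :=
    intervalIntegral.integral_nonneg (by linarith) fun _ _ => trap_nonneg _ _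
  have h2 : 0 ≤ ∫ s in (1 - 2 * ε)..1, trap ε s :=
    intervalIntegral.integral_nonneg (by linarith) fun _ _ => trap_nonneg _ _
  have h3 : ∫ s in (2 * ε)..(1 - 2 * ε), trap ε s = 1 - 4 * ε := by
    rw [intervalIntegral.integral_congr (g := fun _ => (1:ℝ))]
    · simp; ring
    · intro t ht
      rw [uIcc_of_le (by linarith)] at ht
      exact trap_one hε ht.1 ht.2
  linarith

include hε hε2 in
lemma ZZ_pos : 0 < ZZ ε := by have := ZZ_ge hε hε2; linarith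

include hε in
lemma HH_zero {s : ℝ} (hs : s ≤ ε) : HH ε s = 0 := by
  unfold HH
  rw [intervalIntegral.integral_congr (g := fun _ => (0:ℝ))]
  · simp
  · intro t ht
    refine trap_zero hε ?_
    rw [mem_uIcc] at ht
    rcases ht with ht | ht <;> linarith

include hε hε2 in
lemma HH_one {s : ℝ} (hs : 1 - ε ≤ s) : HH ε s = 1 := by
  unfold HH
  have hi : ∀ a b : ℝ, IntervalIntegrable (trap ε) volume a b := fun a b =>
    (trap_cont ε).intervalIntegrable _ _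
  have h1 : ∫ t in (1:ℝ)..s, trap ε t = 0 := by
    rw [intervalIntegral.integral_congr (g := fun _ => (0:ℝ))]
    · simp
    · intro t ht
      refine trap_zero' hε ?_
      rw [mem_uIcc] at ht
      rcases ht with ht | ht <;> linarith
  rw [← intervalIntegral.integral_add_adjacent_intervals (hi 0 1) (hi 1 s), h1, add_zero]
  exact div_self (ZZ_pos hε hε2).ne'

lemma HH_hasDerivAt (ε s : ℝ) : HasDerivAt (HH ε) (trap ε s / ZZ ε) s := by
  have h1 : HasDerivAt (fun x => ∫ t in (0:ℝ)..x, trap ε t) (trap ε s) s :=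
    intervalIntegral.integral_hasDerivAt_right ((trap_cont ε).intervalIntegrable _ _)
      ((trap_cont ε).stronglyMeasurable.stronglyMeasurableAtFilter) (trap_cont ε).continuousAt
  exact h1.div_const _

include hε hε2 in
lemma HH_nonneg {s : ℝ} (hs : 0 ≤ s) : 0 ≤ HH ε s :=
  div_nonneg (intervalIntegral.integral_nonneg hs fun _ _ => trap_nonneg _ _) (ZZ_pos hε hε2).le

include hε hε2 in
lemma HH_le {s : ℝ} (hs : 0 ≤ s) : HH ε s ≤ s / ZZ ε := by
  unfold HH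
  refine div_le_div_of_nonneg_right ?_ (ZZ_pos hε hε2).le
  calc ∫ t in (0:ℝ)..s, trap ε t ≤ ∫ t in (0:ℝ)..s, (1:ℝ) :=
        intervalIntegral.integral_mono_on hs ((trap_cont ε).intervalIntegrable _ _)
          intervalIntegrable_const fun t _ => trap_le_one ε t
    _ = s := by simp

include hε hε2 in
lemma HH_lip {s t : ℝ} (hst : s ≤ t) : |HH ε t - HH ε s| ≤ (t - s) / ZZ ε := by
  unfold HH
  have hi : ∀ a b : ℝ, IntervalIntegrable (trap ε) volume a b := fun a b =>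
    (trap_cont ε).intervalIntegrable _ _
  rw [← sub_div, intervalIntegral.integral_interval_sub_left (hi 0 t) (hi 0 s), abs_div,
    abs_of_pos (ZZ_pos hε hε2)]
  refine div_le_div_of_nonneg_right ?_ (ZZ_pos hε hε2).le
  rw [abs_of_nonneg (intervalIntegral.integral_nonneg hst fun _ _ => trap_nonneg _ _)]
  calc ∫ t in s..t, trap ε t ≤ ∫ t in s..t, (1:ℝ) :=
        intervalIntegral.integral_mono_on hst (hi _ _)
          intervalIntegrable_const fun t _ => trap_le_one ε t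
    _ = t - s := by simp

end cut

/-! ### Trial function -/

/-- the linear form `∑ xₐ dxₐ` -/
noncomputable def lf (x : Fin 3 → ℝ) : (Fin 3 → ℝ) →L[ℝ] ℝ :=
  ∑ α, x α • ContinuousLinearMap.proj (R := ℝ) (φ := fun _ : Fin 3 => ℝ) α

lemma lf_cont : Continuous lf := by
  unfold lf
  exact continuous_finsetSum _ fun α _ => (continuous_apply α).smul continuous_const

lemma lf_zero : lf 0 = 0 := by simp [lf]

lemma nr_hasFDerivAt {x : Fin 3 → ℝ} (hx : 0 < nr x) :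
    HasFDerivAt nr ((1 / nr x) • lf x) x := by
  have h1 : HasFDerivAt (fun y : Fin 3 → ℝ => ∑ α, y α ^ 2)
      (∑ α, (2 * x α) • ContinuousLinearMap.proj (R := ℝ) (φ := fun _ : Fin 3 => ℝ) α) x := by
    refine HasFDerivAt.fun_sum fun α _ => ?_
    have h2 : HasFDerivAt (fun y : Fin 3 → ℝ => y α)
        (ContinuousLinearMap.proj (R := ℝ) (φ := fun _ : Fin 3 => ℝ) α) x :=
      (ContinuousLinearMap.proj (R := ℝ) (φ := fun _ : Fin 3 => ℝ) α).hasFDerivAt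
    have h3 := h2.pow 2
    simpa using h3
  have hne : (∑ α, x α ^ 2) ≠ 0 := by
    rw [← nr_sq]; positivity
  have h4 := h1.sqrt hne
  have e : (1 / (2 * Real.sqrt (∑ α, x α ^ 2))) •
      (∑ α, (2 * x α) • ContinuousLinearMap.proj (R := ℝ) (φ := fun _ : Fin 3 => ℝ) α)
      = (1 / nr x) • lf x := by
    unfold lf nr
    rw [Finset.smul_sum, Finset.smul_sum]
    refine Finset.sum_congr rfl fun α _ => ?_
    rw [smul_smul, smul_smul]
    congr 1
    have : Real.sqrt (∑ α, x α ^ 2) ≠ 0 := hx.ne'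
    field_simp
  rw [e] at h4
  exact h4

namespace Scat

variable {W : ℝ → ℝ} {R₀ R a : ℝ} {f Q : ℝ → ℝ}

/-- trial function -/
noncomputable def tri (ε : ℝ) (f : ℝ → ℝ) (x : Fin 3 → ℝ) : ℝ := HH ε (f (nr x))

/-- its differential -/
noncomputable def dtri (ε : ℝ) (f Q : ℝ → ℝ) (x : Fin 3 → ℝ) : (Fin 3 → ℝ) →L[ℝ] ℝ :=
  (trap ε (f (nr x)) / ZZ ε * (Q (nr x) / nr x ^ 3)) • lf x

lemma f_zero_le (h : Scat W R₀ R a f Q) (h0 : R₀ = 0) :
    ∃ C, 0 ≤ C ∧ ∀ r, 0 ≤ r → f r - f 0 ≤ C * r ^ 2 := by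
  obtain ⟨C, hC0, hC⟩ := h.exists_C
  refine ⟨C, hC0, fun r hr => ?_⟩
  have hmono : MonotoneOn (fun r => C * r ^ 2 - f r) (Ici 0) := by
    refine monotoneOn_of_deriv_nonneg (convex_Ici 0)
      ((by fun_prop : Continuous fun r : ℝ => C * r ^ 2).sub h.f_cont).continuousOn ?_ ?_
    · intro x hx
      rw [interior_Ici] at hx
      have h1 := h.f_deriv x hx (by rw [h0]; exact (ne_of_gt hx))
      exact ((by fun_prop : DifferentiableAt ℝ (fun r : ℝ => C * r ^ 2) x).sub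
        h1.differentiableAt).differentiableWithinAt
    · intro x hx
      rw [interior_Ici] at hx
      have hx0 : 0 < x := hx
      have h1 := h.f_deriv x hx (by rw [h0]; exact (ne_of_gt hx))
      have h2 : HasDerivAt (fun r : ℝ => C * r ^ 2) (C * (2 * x)) x := by
        simpa using (hasDerivAt_pow 2 x).const_mul C
      have h3 : HasDerivAt (fun r : ℝ => C * r ^ 2 - f r) (C * (2 * x) - Q x / x ^ 2) x := h2.sub h1
      rw [h3.deriv]
      have h4 : Q x / x ^ 2 ≤ C * x := by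
        rw [div_le_iff₀ (by positivity)]
        refine (hC x hx).trans (le_of_eq (by ring))
      have : 0 ≤ C * x := by positivity
      linarith
  have := hmono (mem_Ici.2 le_rfl) (mem_Ici.2 hr) hr
  simp only at this
  nlinarith

lemma Q_contAt (h : Scat W R₀ R a f Q) {r : ℝ} (hr : R₀ < r) : ContinuousAt Q r := by
  have hcont : ContinuousAt (fun s => Q R₀ + ∫ t in R₀..s, t ^ 2 * W t * f t) r := by
    refine continuousAt_const.add ?_
    exact (intervalIntegral.continuous_primitive h.F_int R₀).continuousAt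
  refine hcont.congr ?_
  filter_upwards [lt_mem_nhds hr] with s hs
  have := h.Q_int R₀ s le_rfl hs.le
  linarith

section
variable (h : Scat W R₀ R a f Q) {ε : ℝ} (hε : 0 < ε) (hε2 : ε < 1/8)
include h hε hε2

lemma small_near {x : Fin 3 → ℝ} (h0 : 0 < R₀) (hx : nr x ≤ R₀) :
    ∀ᶠ y in 𝓝 x, f (nr y) < ε := by
  have h1 : ContinuousAt (fun y : Fin 3 → ℝ => f (nr y)) x := (h.f_cont.comp nr_cont).continuousAt
  have h2 : f (nr x) < ε := by rw [h.f_core _ h0 hx]; exact hε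
  exact h1.eventually_lt continuousAt_const h2

lemma tri_hasFDerivAt (x : Fin 3 → ℝ) : HasFDerivAt (tri ε f) (dtri ε f Q x) x := by
  have hZ := ZZ_pos hε hε2
  by_cases hcase : 0 < R₀ ∧ nr x ≤ R₀
  · obtain ⟨h0, hx⟩ := hcase
    have e : dtri ε f Q x = 0 := by
      unfold dtri
      rw [h.f_core _ h0 hx, trap_zero hε hε.le]; simp
    rw [e]
    refine (hasFDerivAt_const (0:ℝ) x).congr_of_eventuallyEq ?_
    filter_upwards [h.small_near hε hε2 h0 hx] with y hy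
    exact HH_zero hε hy.le
  · have hR0x : R₀ < nr x ∨ (R₀ = 0 ∧ nr x = 0) := by
      rcases h.R₀_nonneg.eq_or_lt with h0 | h0
      · rcases (nr_nonneg x).eq_or_lt with h1 | h1
        · exact Or.inr ⟨h0.symm, h1.symm⟩
        · exact Or.inl (by rw [← h0]; exact h1)
      · exact Or.inl (not_le.1 fun hh => hcase ⟨h0, hh⟩)
    rcases hR0x with hx | ⟨h0, hx⟩
    · have hx0 : 0 < nr x := h.R₀_nonneg.trans_lt hx
      have h1 := nr_hasFDerivAt hx0
      have h2 := (h.f_deriv (nr x) hx0 hx.ne').comp_hasFDerivAt x h1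
      have h3 := (HH_hasDerivAt ε (f (nr x))).comp_hasFDerivAt x h2
      have e : (trap ε (f (nr x)) / ZZ ε) • (Q (nr x) / nr x ^ 2) • (1 / nr x) • lf x
          = dtri ε f Q x := by
        unfold dtri
        rw [smul_smul, smul_smul]
        congr 1
        field_simp
      rw [e] at h3
      exact h3
    · have hx' : x = 0 := by
        have h1 : ∑ α, x α ^ 2 = 0 := by rw [← nr_sq, hx]; simp
        ext α
        have h2 := (Finset.sum_eq_zero_iff_of_nonneg (fun α _ => sq_nonneg (x α))).1 h1 α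
          (Finset.mem_univ α)
        simpa using h2
      subst hx'
      have e : dtri ε f Q 0 = 0 := by unfold dtri; rw [lf_zero, smul_zero]
      rw [e]
      obtain ⟨C, hC0, hC⟩ := h.f_zero_le h0
      rw [hasFDerivAt_iff_isLittleO_nhds_zero]
      have hb : ∀ y : Fin 3 → ℝ, ‖tri ε f (0 + y) - tri ε f 0 - (0 : (Fin 3 → ℝ) →L[ℝ] ℝ) y‖
          ≤ (C / ZZ ε * 3) * ‖‖y‖ ^ 2‖ := by
        intro y
        rw [zero_add, ContinuousLinearMap.zero_apply, sub_zero, Real.norm_eq_abs]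
        unfold tri
        rw [hx]
        have h1 : f 0 ≤ f (nr y) := h.f_mono (nr_nonneg y)
        refine (HH_lip hε hε2 h1).trans ?_
        have h2 : nr y ^ 2 ≤ 3 * ‖y‖ ^ 2 := by
          rw [nr_sq]
          calc ∑ α, y α ^ 2 ≤ ∑ α : Fin 3, ‖y‖ ^ 2 := by
                refine Finset.sum_le_sum fun α _ => ?_
                rw [← sq_abs (y α)]
                exact pow_le_pow_left₀ (abs_nonneg _) (norm_le_pi_norm y α) 2
            _ = 3 * ‖y‖ ^ 2 := by simp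
        rw [Real.norm_of_nonneg (sq_nonneg _)]
        calc (f (nr y) - f 0) / ZZ ε ≤ (C * (3 * ‖y‖ ^ 2)) / ZZ ε := by
              refine div_le_div_of_nonneg_right ?_ hZ.le
              exact (hC _ (nr_nonneg y)).trans (mul_le_mul_of_nonneg_left h2 hC0)
          _ = _ := by ring
      have h5 : (fun y : Fin 3 → ℝ => ‖y‖ ^ 2) =o[𝓝 0] fun y => y := by
        have := Asymptotics.isLittleO_norm_pow_id (E' := Fin 3 → ℝ) (n := 2) (by norm_num)
        exact this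
      exact (Asymptotics.IsBigO.of_bound _ (Eventually.of_forall hb)).trans_isLittleO h5

lemma dtri_cont : Continuous (dtri ε f Q) := by
  have hZ := ZZ_pos hε hε2
  rw [continuous_iff_continuousAt]
  intro x
  by_cases hcase : 0 < R₀ ∧ nr x ≤ R₀
  · obtain ⟨h0, hx⟩ := hcase
    have : ContinuousAt (fun _ : Fin 3 → ℝ => (0 : (Fin 3 → ℝ) →L[ℝ] ℝ)) x := continuousAt_const
    refine this.congr ?_
    filter_upwards [h.small_near hε hε2 h0 hx] with y hy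
    unfold dtri
    rw [trap_zero hε hy.le]; simp
  · have hR0x : R₀ < nr x ∨ (R₀ = 0 ∧ nr x = 0) := by
      rcases h.R₀_nonneg.eq_or_lt with h0 | h0
      · rcases (nr_nonneg x).eq_or_lt with h1 | h1
        · exact Or.inr ⟨h0.symm, h1.symm⟩
        · exact Or.inl (by rw [← h0]; exact h1)
      · exact Or.inl (not_le.1 fun hh => hcase ⟨h0, hh⟩)
    rcases hR0x with hx | ⟨h0, hx⟩
    · have hx0 : 0 < nr x := h.R₀_nonneg.trans_lt hx
      have c1 : ContinuousAt (fun y : Fin 3 → ℝ => trap ε (f (nr y)) / ZZ ε) x :=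
        (((trap_cont ε).comp (h.f_cont.comp nr_cont)).div_const _).continuousAt
      have c2 : ContinuousAt (fun y : Fin 3 → ℝ => Q (nr y)) x :=
        (h.Q_contAt hx).comp nr_cont.continuousAt
      have c3 : ContinuousAt (fun y : Fin 3 → ℝ =>
          trap ε (f (nr y)) / ZZ ε * (Q (nr y) / nr y ^ 3)) x :=
        c1.mul (c2.div (nr_cont.pow 3).continuousAt (by positivity))
      have c4 : ContinuousAt lf x := lf_cont.continuousAt
      exact c3.smul c4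
    · have hx' : x = 0 := by
        have h1 : ∑ α, x α ^ 2 = 0 := by rw [← nr_sq, hx]; simp
        ext α
        have h2 := (Finset.sum_eq_zero_iff_of_nonneg (fun α _ => sq_nonneg (x α))).1 h1 α
          (Finset.mem_univ α)
        simpa using h2
      subst hx'
      obtain ⟨C, hC0, hC⟩ := h.exists_C
      have e : dtri ε f Q 0 = 0 := by unfold dtri; rw [lf_zero, smul_zero]
      unfold ContinuousAt
      rw [e]
      have hb : ∀ y : Fin 3 → ℝ, ‖dtri ε f Q y‖ ≤ C / ZZ ε * ‖lf y‖ := by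
        intro y
        unfold dtri
        rw [norm_smul]
        refine mul_le_mul_of_nonneg_right ?_ (norm_nonneg _)
        rw [Real.norm_eq_abs, abs_mul]
        have h1 : |trap ε (f (nr y)) / ZZ ε| ≤ 1 / ZZ ε := by
          rw [abs_of_nonneg (div_nonneg (trap_nonneg _ _) hZ.le)]
          exact div_le_div_of_nonneg_right (trap_le_one _ _) hZ.le
        have h2 : |Q (nr y) / nr y ^ 3| ≤ C := by
          rcases (nr_nonneg y).eq_or_lt with h3 | h3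
          · rw [← h3]; simpa using hC0
          · rw [abs_of_nonneg (div_nonneg (h.Q_nonneg _) (by positivity)),
              div_le_iff₀ (by positivity)]
            exact hC _ h3
        calc _ ≤ 1 / ZZ ε * C := mul_le_mul h1 h2 (abs_nonneg _) (by positivity)
          _ = C / ZZ ε := by ring
      have h4 : Tendsto (fun y : Fin 3 → ℝ => C / ZZ ε * ‖lf y‖) (𝓝 0) (𝓝 0) := by
        have : Continuous (fun y : Fin 3 → ℝ => C / ZZ ε * ‖lf y‖) :=
          continuous_const.mul lf_cont.norm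
        have := this.tendsto 0
        simpa [lf_zero] using this
      exact squeeze_zero_norm hb h4

lemma tri_contDiff : ContDiff ℝ 1 (tri ε f) :=
  contDiff_one_iff_hasFDerivAt.2 ⟨_, h.dtri_cont hε hε2, h.tri_hasFDerivAt hε hε2⟩

lemma tri_grad (x : Fin 3 → ℝ) :
    ∑ α, (fderiv ℝ (tri ε f) x (Pi.single α 1)) ^ 2
      = (trap ε (f (nr x)) / ZZ ε) ^ 2 * (Q (nr x) ^ 2 / nr x ^ 4) := by
  rw [(h.tri_hasFDerivAt hε hε2 x).fderiv]
  have e1 : ∀ α, dtri ε f Q x (Pi.single α 1)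
      = (trap ε (f (nr x)) / ZZ ε * (Q (nr x) / nr x ^ 3)) * x α := by
    intro α
    unfold dtri lf
    rw [ContinuousLinearMap.smul_apply, ContinuousLinearMap.sum_apply, smul_eq_mul]
    congr 1
    rw [Finset.sum_eq_single α]
    · simp
    · intro β _ hβ
      simp [Pi.single_eq_of_ne hβ]
    · simp
  simp_rw [e1, mul_pow]
  rw [← Finset.mul_sum, ← nr_sq]
  rcases (nr_nonneg x).eq_or_lt with h3 | h3
  · rw [← h3, h.Q_zero' 0 le_rfl]; simp
  · field_simp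

lemma tri_support : HasCompactSupport (fun x => tri ε f x - 1) := by
  have hR := h.R_pos
  have ha := h.a_pos
  set ρ : ℝ := max R (a / ε) with hρ
  refine HasCompactSupport.intro (K := {x | nr x ≤ ρ}) ?_ fun x hx => ?_
  · refine Metric.isCompact_of_isClosed_isBounded (isClosed_le nr_cont continuous_const) ?_
    rw [isBounded_iff_forall_norm_le]
    refine ⟨ρ, fun x hx => ?_⟩
    rw [pi_norm_le_iff_of_nonneg (hR.le.trans (le_max_left _ _))]
    intro α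
    refine le_trans ?_ hx
    unfold nr
    rw [Real.norm_eq_abs, ← Real.sqrt_sq_eq_abs]
    exact Real.sqrt_le_sqrt (Finset.single_le_sum (f := fun α => x α ^ 2)
      (fun i _ => sq_nonneg _) (Finset.mem_univ α))
  · have hx' : ρ < nr x := not_le.1 hx
    have h1 : R ≤ nr x := (le_max_left _ _).trans hx'.le
    have h2 : a / ε ≤ nr x := (le_max_right _ _).trans hx'.le
    have h3 : a / nr x ≤ ε := by
      rw [div_le_iff₀ (hR.trans_le h1)]
      rw [div_le_iff₀ hε] at h2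
      linarith
    unfold tri
    rw [HH_one hε hε2 (by rw [h.f_out _ h1]; linarith), sub_self]

end

/-- **Variational bound** for the scattering length. -/
theorem scatLen_le (h : Scat W R₀ R a f Q) {m : ℝ} (hm : 0 < m) {v : (Fin 3 → ℝ) → ℝ}
    (hv : Integrable v) (hv0 : ∀ x, 0 ≤ v x) {v₀ : ℝ → ℝ} (hrad : ∀ x, v x = v₀ (nr x))
    (hW : ∀ᵐ r : ℝ, 0 < r → W r ≤ m * v₀ r) :
    scatLen m R₀ v ≤ a + ∫ r in Ioi (0:ℝ), (m * v₀ r - W r) * r ^ 2 := by
  have hR := h.R_pos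
  have ha := h.a_pos
  have hσ := sig_pos
  obtain ⟨M, hM0, hM⟩ := h.exists_M
  set S : Set ℝ := {e : ℝ | ∃ ψ : (Fin 3 → ℝ) → ℝ, ContDiff ℝ 1 ψ ∧
      HasCompactSupport (fun x => ψ x - 1) ∧ (∀ x, ∑ α, x α ^ 2 < R₀ ^ 2 → ψ x = 0) ∧
      e = ∫ x, ((1 / m) * ∑ α, (fderiv ℝ ψ x (Pi.single α 1)) ^ 2 + v x * ψ x ^ 2)} with hS
  have hbdd : BddBelow S := by
    refine ⟨0, ?_⟩
    rintro e ⟨ψ, _, _, _, rfl⟩
    refine integral_nonneg fun x => ?_
    have h1 : 0 ≤ ∑ α, (fderiv ℝ ψ x (Pi.single α 1)) ^ 2 := Finset.sum_nonneg fun α _ => sq_nonneg _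
    have h2 := hv0 x
    positivity
  -- integrability of the pieces
  have hvI : IntegrableOn (fun r => r ^ 2 * v₀ r) (Ioi (0:ℝ)) := by
    rw [← integrable_nr]
    simp_rw [← hrad]; exact hv
  have hv₀ : ∀ r, 0 < r → 0 ≤ v₀ r := by
    intro r hr
    have h1 := hrad (fun i => if i = 0 then r else 0)
    have h2 : nr (fun i : Fin 3 => if i = 0 then r else 0) = r := by
      unfold nr
      simp [Fin.sum_univ_three, Real.sqrt_sq hr.le]
    rw [h2] at h1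
    rw [← h1]; exact hv0 _
  -- W part integrability
  have hWI : IntegrableOn (fun r => r ^ 2 * W r) (Ioi (0:ℝ)) := by
    refine (hvI.const_mul m).mono' ((measurable_id.pow_const 2).mul h.W_meas).aestronglyMeasurable ?_
    refine (ae_restrict_iff' measurableSet_Ioi).2 ?_
    filter_upwards [hW] with r hWr hr
    have := h.W_nonneg r
    rw [Real.norm_eq_abs, abs_of_nonneg (by positivity)]
    have := hWr hr
    calc r ^ 2 * W r ≤ r ^ 2 * (m * v₀ r) := mul_le_mul_of_nonneg_left this (sq_nonneg r)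
      _ = _ := by ring
  set X : ℝ := a + ∫ r in Ioi (0:ℝ), (m * v₀ r - W r) * r ^ 2 with hX
  -- the one dimensional energy
  have hQI : IntegrableOn (fun r => Q r ^ 2 / r ^ 2) (Ioi (0:ℝ)) := by
    obtain ⟨C, hC0, hC⟩ := h.exists_C
    have hm1 : Measurable (fun r => Q r ^ 2 / r ^ 2) :=
      (h.Q_meas.pow_const 2).div (measurable_id.pow_const 2)
    have h1 : IntegrableOn (fun r => Q r ^ 2 / r ^ 2) (Ioc 0 R) := by
      have h2 : IntegrableOn (fun r : ℝ => C ^ 2 * r ^ 4) (Ioc 0 R) :=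
        (Continuous.integrableOn_Icc (by fun_prop)).mono_set Ioc_subset_Icc_self
      refine h2.mono' hm1.aestronglyMeasurable ?_
      refine (ae_restrict_iff' measurableSet_Ioc).2 (Eventually.of_forall fun r hr => ?_)
      have hr0 := hr.1
      rw [Real.norm_eq_abs, abs_of_nonneg (by positivity), div_le_iff₀ (by positivity)]
      have := pow_le_pow_left₀ (h.Q_nonneg r) (hC r hr0) 2
      refine this.trans (le_of_eq (by ring))
    have h3 : IntegrableOn (fun r => Q r ^ 2 / r ^ 2) (Ioi R) := by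
      have h4 : IntegrableOn (fun r : ℝ => a ^ 2 * r ^ (-2:ℝ)) (Ioi R) :=
        (integrableOn_Ioi_rpow_of_lt (by norm_num) hR).const_mul _
      refine h4.congr_fun (fun r hr => ?_) measurableSet_Ioi
      have hr0 : 0 < r := hR.trans hr
      dsimp only
      rw [h.Q_out r (le_of_lt hr), Real.rpow_neg hr0.le]
      norm_cast
    have := h1.union h3
    rwa [Ioc_union_Ioi_eq_Ioi hR.le] at this
  have hf2 : ∀ r, f r ^ 2 ≤ 1 := fun r => pow_le_one₀ (h.f_nonneg r) (h.f_le_one r)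
  have hWfI : IntegrableOn (fun r => r ^ 2 * W r * f r ^ 2) (Ioi (0:ℝ)) := by
    refine hWI.mono' (((measurable_id.pow_const 2).mul h.W_meas).mul
      (h.f_cont.measurable.pow_const 2)).aestronglyMeasurable (Eventually.of_forall fun r => ?_)
    have := h.W_nonneg r
    rw [Real.norm_eq_abs, abs_of_nonneg (by positivity)]
    exact mul_le_of_le_one_right (by positivity) (hf2 r)
  have hvfI : IntegrableOn (fun r => m * (r ^ 2 * v₀ r * f r ^ 2)) (Ioi (0:ℝ)) := by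
    refine Integrable.const_mul ?_ m
    refine Integrable.mono' hvI (hvI.1.mul (h.f_cont.measurable.pow_const 2).aestronglyMeasurable) ?_
    refine (ae_restrict_iff' measurableSet_Ioi).2 (Eventually.of_forall fun r hr => ?_)
    have := hv₀ r hr
    rw [Real.norm_eq_abs, abs_of_nonneg (by positivity)]
    exact mul_le_of_le_one_right (by positivity) (hf2 r)
  have hE1 : (∫ r in Ioi (0:ℝ), Q r ^ 2 / r ^ 2) + ∫ r in Ioi (0:ℝ), r ^ 2 * W r * f r ^ 2 = a := by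
    have hR0 := h.R₀_nonneg
    have hen := h.energy (d := R) le_rfl
    have hff := h.Wf2_int h.W_meas h.W_nonneg h.W_bdd h.f_cont.measurable h.f_nonneg h.f_le_one R₀ R
    simp_rw [← sq] at hff
    have hQ2 : IntervalIntegrable (fun r => Q r ^ 2 / r ^ 2) volume R₀ R := by
      have := (h.energy_int R).sub hff
      refine this.congr_ae (Eventually.of_forall fun r => ?_)
      simp only [Pi.sub_apply]
      ring
    rw [intervalIntegral.integral_add hQ2 hff] at hen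
    have hs : Ioi (0:ℝ) = Ioc 0 R₀ ∪ (Ioc R₀ R ∪ Ioi R) := by
      rw [Ioc_union_Ioi_eq_Ioi h.R₀_le, Ioc_union_Ioi_eq_Ioi hR0]
    have hd1 : Disjoint (Ioc 0 R₀) (Ioc R₀ R ∪ Ioi R) := by
      rw [Ioc_union_Ioi_eq_Ioi h.R₀_le]
      exact Ioc_disjoint_Ioi le_rfl
    have hd2 : Disjoint (Ioc R₀ R) (Ioi R) := Ioc_disjoint_Ioi le_rfl
    have split : ∀ g : ℝ → ℝ, IntegrableOn g (Ioi (0:ℝ)) → ∫ r in Ioi (0:ℝ), g r
        = (∫ r in Ioc 0 R₀, g r) + ((∫ r in Ioc R₀ R, g r) + ∫ r in Ioi R, g r) := by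
      intro g hg
      rw [hs] at hg ⊢
      rw [setIntegral_union hd1 (measurableSet_Ioc.union measurableSet_Ioi)
        (hg.mono_set subset_union_left) (hg.mono_set subset_union_right),
        setIntegral_union hd2 measurableSet_Ioi
        (hg.mono_set (subset_union_left.trans subset_union_right))
        (hg.mono_set (subset_union_right.trans subset_union_right))]
    rw [split _ hQI, split _ hWfI]
    have hne : ∀ᵐ t : ℝ, t ≠ R₀ := by rw [ae_iff]; simp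
    have z1 : ∫ r in Ioc 0 R₀, Q r ^ 2 / r ^ 2 = 0 := by
      refine setIntegral_eq_zero_of_ae_eq_zero ?_
      filter_upwards [hne] with r hr hmem
      rw [h.Q_zero r (lt_of_le_of_ne hmem.2 hr)]; simp
    have z2 : ∫ r in Ioc 0 R₀, r ^ 2 * W r * f r ^ 2 = 0 := by
      refine setIntegral_eq_zero_of_ae_eq_zero (Eventually.of_forall fun r hmem => ?_)
      rw [h.f_core r (hmem.1.trans_le hmem.2) hmem.2]; simp
    have z3 : ∫ r in Ioi R, r ^ 2 * W r * f r ^ 2 = 0 := by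
      refine setIntegral_eq_zero_of_ae_eq_zero (Eventually.of_forall fun r hmem => ?_)
      rw [h.W_zero r (le_of_lt hmem)]; simp
    have z4 : ∫ r in Ioi R, Q r ^ 2 / r ^ 2 = a ^ 2 / R := by
      have h4 : ∫ r in Ioi R, Q r ^ 2 / r ^ 2 = ∫ r in Ioi R, a ^ 2 * r ^ (-2:ℝ) := by
        refine setIntegral_congr_fun measurableSet_Ioi fun r hr => ?_
        have hr0 : 0 < r := hR.trans hr
        rw [h.Q_out r (le_of_lt hr), Real.rpow_neg hr0.le]
        norm_cast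
      rw [h4, integral_const_mul, integral_Ioi_rpow_of_lt (by norm_num) hR]
      have : (-2 : ℝ) + 1 = -1 := by norm_num
      rw [this, Real.rpow_neg_one]
      field_simp
    rw [z1, z2, z3, z4, zero_add, zero_add, add_zero]
    rw [intervalIntegral.integral_of_le h.R₀_le, intervalIntegral.integral_of_le h.R₀_le] at hen
    have e : a * (1 - a / R) = a - a ^ 2 / R := by ring
    rw [e] at hen
    linarith
  have hE2 : (∫ r in Ioi (0:ℝ), Q r ^ 2 / r ^ 2) + ∫ r in Ioi (0:ℝ), m * (r ^ 2 * v₀ r * f r ^ 2)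
      ≤ X := by
    have h1 : ∫ r in Ioi (0:ℝ), m * (r ^ 2 * v₀ r * f r ^ 2)
        ≤ ∫ r in Ioi (0:ℝ), (r ^ 2 * W r * f r ^ 2 + (m * v₀ r - W r) * r ^ 2) := by
      have i1 : IntegrableOn (fun r => (m * v₀ r - W r) * r ^ 2) (Ioi (0:ℝ)) := by
        have := (hvI.const_mul m).sub hWI
        refine this.congr (Eventually.of_forall fun r => ?_)
        simp only [Pi.sub_apply]
        ring
      refine setIntegral_mono_on_ae hvfI (hWfI.add i1) measurableSet_Ioi ?_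
      filter_upwards [hW] with r hWr hr
      have h2 := hWr hr
      have h3 : (m * v₀ r - W r) * r ^ 2 * f r ^ 2 ≤ (m * v₀ r - W r) * r ^ 2 :=
        mul_le_of_le_one_right (mul_nonneg (by linarith) (sq_nonneg r)) (hf2 r)
      nlinarith
    rw [integral_add hWfI (by
      have := (hvI.const_mul m).sub hWI
      refine this.congr (Eventually.of_forall fun r => ?_)
      simp only [Pi.sub_apply]
      ring)] at h1
    rw [hX]
    linarith
  -- the trial energies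
  have key : ∀ ε : ℝ, 0 < ε → ε < 1/8 → sInf S ≤ (1 - 4 * ε)⁻¹ ^ 2 * (sig / m * X) := by
    intro ε hε hε2
    have hZ := ZZ_pos hε hε2
    have hZ1 := ZZ_ge hε hε2
    have hmem : (∫ x, ((1 / m) * ∑ α, (fderiv ℝ (tri ε f) x (Pi.single α 1)) ^ 2
        + v x * (tri ε f x) ^ 2)) ∈ S := by
      refine ⟨tri ε f, h.tri_contDiff hε hε2, h.tri_support hε hε2, fun x hx => ?_, rfl⟩
      have h0 : 0 < R₀ := by
        have h1 : 0 ≤ ∑ α, x α ^ 2 := Finset.sum_nonneg fun α _ => sq_nonneg _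
        have h2 : R₀ ≠ 0 := by
          rintro h3; rw [h3] at hx; norm_num at hx; linarith
        exact lt_of_le_of_ne h.R₀_nonneg (Ne.symm h2)
      have h1 : nr x ≤ R₀ := by
        unfold nr
        rw [Real.sqrt_le_left h0.le]
        exact hx.le
      unfold tri
      rw [h.f_core _ h0 h1]
      exact HH_zero hε hε.le
    refine (csInf_le hbdd hmem).trans ?_
    set φ : ℝ → ℝ := fun r => (1 - 4 * ε)⁻¹ ^ 2 * ((1 / m) * (Q r ^ 2 / r ^ 4) + v₀ r * f r ^ 2) with hφ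
    have hε4 : 0 < 1 - 4 * ε := by linarith
    have hInv : (ZZ ε)⁻¹ ^ 2 ≤ (1 - 4 * ε)⁻¹ ^ 2 :=
      pow_le_pow_left₀ (inv_nonneg.2 hZ.le) (inv_anti₀ hε4 hZ1) 2
    have hIr : IntegrableOn (fun r => r ^ 2 * φ r) (Ioi (0:ℝ)) := by
      have := (((hQI.const_mul (1 / m)).add (hvfI.const_mul (1 / m))).const_mul ((1 - 4 * ε)⁻¹ ^ 2))
      refine this.congr ((ae_restrict_iff' measurableSet_Ioi).2 (Eventually.of_forall fun r hr => ?_))
      have hr0 : 0 < r := hr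
      simp only [Pi.add_apply, hφ]
      field_simp
    have h1 : ∫ x, ((1 / m) * ∑ α, (fderiv ℝ (tri ε f) x (Pi.single α 1)) ^ 2
        + v x * (tri ε f x) ^ 2) ≤ ∫ x : Fin 3 → ℝ, φ (nr x) := by
      refine integral_mono_of_nonneg (Eventually.of_forall fun x => ?_)
        ((integrable_nr φ).2 hIr) (Eventually.of_forall fun x => ?_)
      · have h1 : 0 ≤ ∑ α, (fderiv ℝ (tri ε f) x (Pi.single α 1)) ^ 2 :=
          Finset.sum_nonneg fun α _ => sq_nonneg _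
        have h2 := hv0 x
        simp only [Pi.zero_apply]
        positivity
      · dsimp only
        rw [h.tri_grad hε hε2, hφ, hrad]
        dsimp only
        have hv0' : 0 ≤ v₀ (nr x) := by rw [← hrad]; exact hv0 x
        have t1 : (trap ε (f (nr x)) / ZZ ε) ^ 2 ≤ (1 - 4 * ε)⁻¹ ^ 2 := by
          refine le_trans ?_ hInv
          refine pow_le_pow_left₀ (div_nonneg (trap_nonneg _ _) hZ.le) ?_ 2
          rw [div_eq_mul_inv]
          exact mul_le_of_le_one_left (inv_nonneg.2 hZ.le) (trap_le_one _ _)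
        have t2 : (tri ε f x) ^ 2 ≤ (1 - 4 * ε)⁻¹ ^ 2 * f (nr x) ^ 2 := by
          have h3 : tri ε f x ≤ f (nr x) * (ZZ ε)⁻¹ := by
            have := HH_le hε hε2 (h.f_nonneg (nr x))
            rwa [div_eq_mul_inv] at this
          have h4 := pow_le_pow_left₀ (HH_nonneg hε hε2 (h.f_nonneg (nr x))) h3 2
          refine h4.trans ?_
          rw [mul_pow, mul_comm]
          exact mul_le_mul_of_nonneg_right hInv (sq_nonneg _)
        have q0 : 0 ≤ Q (nr x) ^ 2 / nr x ^ 4 := by positivity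
        calc 1 / m * ((trap ε (f (nr x)) / ZZ ε) ^ 2 * (Q (nr x) ^ 2 / nr x ^ 4))
              + v₀ (nr x) * (tri ε f x) ^ 2
            ≤ 1 / m * ((1 - 4 * ε)⁻¹ ^ 2 * (Q (nr x) ^ 2 / nr x ^ 4))
              + v₀ (nr x) * ((1 - 4 * ε)⁻¹ ^ 2 * f (nr x) ^ 2) := by gcongr
          _ = _ := by ring
    refine h1.trans ?_
    rw [integral_nr]
    have h2 : ∫ r in Ioi (0:ℝ), r ^ 2 * φ r
        = (1 - 4 * ε)⁻¹ ^ 2 * (1 / m * ((∫ r in Ioi (0:ℝ), Q r ^ 2 / r ^ 2)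
          + ∫ r in Ioi (0:ℝ), m * (r ^ 2 * v₀ r * f r ^ 2))) := by
      rw [← integral_add hQI hvfI, ← integral_const_mul, ← integral_const_mul]
      refine setIntegral_congr_fun measurableSet_Ioi fun r hr => ?_
      have hr0 : 0 < r := hr
      simp only [hφ]
      field_simp
    rw [h2]
    calc sig * ((1 - 4 * ε)⁻¹ ^ 2 * (1 / m * ((∫ r in Ioi (0:ℝ), Q r ^ 2 / r ^ 2)
          + ∫ r in Ioi (0:ℝ), m * (r ^ 2 * v₀ r * f r ^ 2))))
        ≤ sig * ((1 - 4 * ε)⁻¹ ^ 2 * (1 / m * X)) := by gcongr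
      _ = _ := by ring
  -- limit
  have hlim : sInf S ≤ sig / m * X := by
    have h1 : Tendsto (fun ε : ℝ => (1 - 4 * ε)⁻¹ ^ 2 * (sig / m * X)) (𝓝[>] 0)
        (𝓝 ((1 - 4 * 0)⁻¹ ^ 2 * (sig / m * X))) := by
      refine (Tendsto.mul_const _ (Tendsto.pow (Tendsto.inv₀ ?_ (by norm_num)) 2))
      exact ((continuous_const.sub (continuous_const.mul continuous_id)).tendsto (0:ℝ)).mono_left
        nhdsWithin_le_nhds
    have h2 : ∀ᶠ ε : ℝ in 𝓝[>] 0, sInf S ≤ (1 - 4 * ε)⁻¹ ^ 2 * (sig / m * X) := by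
      have h3 : Ioo (0:ℝ) (1/8) ∈ 𝓝[>] (0:ℝ) := Ioo_mem_nhdsGT (by norm_num)
      filter_upwards [h3] with ε hε
      exact key ε hε.1 hε.2
    have h4 := ge_of_tendsto h1 h2
    simpa using h4
  unfold scatLen
  rw [← hS]
  have hπ := Real.pi_pos
  calc m / (4 * Real.pi) * sInf S ≤ m / (4 * Real.pi) * (sig / m * X) :=
        mul_le_mul_of_nonneg_left hlim (by positivity)
    _ = X := by rw [sig_eq]; field_simp

end Scat

end Pool.Agent.Lib.MP_4952d6_mp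

end

/-! ### LB.UncA -/

section

/-! # LB.UncA: commutators and Cauchy-Schwarz (steps 1 and 2 of LB.Unc, see the header there) -/

set_option autoImplicit false
set_option linter.unusedSectionVars false
set_option linter.unusedVariables false
open ComplexConjugate

namespace Pool.Agent.Lib.MP_4952d6_mp.LB

variable {ι : Type*} [Fintype ι] [DecidableEq ι] {Z : Type*} [AddCommGroup Z] [DecidableEq Z]
  {𝓗 : Type*} [NormedAddCommGroup 𝓗] [InnerProductSpace ℂ 𝓗]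

theorem UncA_cs {x y x' y' : 𝓗} {c : ℝ} (h : inner ℂ x y + inner ℂ y' x' = (c : ℂ)) :
    c ^ 2 ≤ (‖x‖ ^ 2 + ‖x'‖ ^ 2) * (‖y‖ ^ 2 + ‖y'‖ ^ 2) := by
  have h1 : |c| ≤ ‖x‖ * ‖y‖ + ‖y'‖ * ‖x'‖ := by
    have h2 : |c| = ‖((c : ℝ) : ℂ)‖ := by rw [Complex.norm_real, Real.norm_eq_abs]
    rw [h2, ← h]
    exact (norm_add_le _ _).trans (add_le_add (norm_inner_le_norm _ _) (norm_inner_le_norm _ _))
  have h3 : c ^ 2 ≤ (‖x‖ * ‖y‖ + ‖y'‖ * ‖x'‖) ^ 2 := by
    rw [← sq_abs c]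
    exact pow_le_pow_left₀ (abs_nonneg c) h1 2
  nlinarith [sq_nonneg (‖x‖ * ‖y'‖ - ‖x'‖ * ‖y‖)]

theorem UncA_occ {E : ι → Z → Z → 𝓗 →L[ℂ] 𝓗} (hE : MU E) (ψ : 𝓗) (a : Z) :
    ∑ j, inner ℂ ψ (E j a a ψ) = ((occ E ψ a : ℝ) : ℂ) := by
  unfold occ
  rw [Complex.ofReal_sum]
  refine Finset.sum_congr rfl fun j _ => ?_
  have h1 : inner ℂ (E j a a ψ) (E j a a ψ) = inner ℂ ψ (E j a a ψ) := by
    rw [hE.adj, hE.mul_eq]
  rw [← h1, inner_self_eq_norm_sq_to_K]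
  norm_cast

theorem UncA_gen {E : ι → Z → Z → 𝓗 →L[ℂ] 𝓗} (hE : MU E) {k : Z} {η : ℝ} (ψ : 𝓗)
    (P P' B B' : ι → 𝓗 → 𝓗) (hP : ∀ j f g, inner ℂ (P j f) g = inner ℂ f (P' j g))
    (hB : ∀ j f g, inner ℂ (B' j f) g = - inner ℂ f (B j g))
    (hc : ∀ j l, j ≠ l → P' j (B l ψ) = B l (P' j ψ))
    (hd : ∀ j, P' j (B j ψ) - B j (P' j ψ) =
      (η : ℂ) • (E j k k ψ + E j (-k) (-k) ψ - E j 0 0 ψ - E j 0 0 ψ)) :
    4 * η ^ 2 * (occ E ψ 0 - (occ E ψ k + occ E ψ (-k)) / 2) ^ 2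
      ≤ (‖∑ j, P j ψ‖ ^ 2 + ‖∑ j, P' j ψ‖ ^ 2) * (‖∑ j, B j ψ‖ ^ 2 + ‖∑ j, B' j ψ‖ ^ 2) := by
  have key : inner ℂ (∑ j, P j ψ) (∑ j, B j ψ) + inner ℂ (∑ j, B' j ψ) (∑ j, P' j ψ)
      = ((η * (occ E ψ k + occ E ψ (-k) - occ E ψ 0 - occ E ψ 0) : ℝ) : ℂ) := by
    have e1 : inner ℂ (∑ j, P j ψ) (∑ j, B j ψ) = ∑ j, ∑ l, inner ℂ ψ (P' j (B l ψ)) := by
      rw [sum_inner]
      refine Finset.sum_congr rfl fun j _ => ?_
      rw [inner_sum]
      exact Finset.sum_congr rfl fun l _ => hP _ _ _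
    have e2 : inner ℂ (∑ j, B' j ψ) (∑ j, P' j ψ) = - ∑ j, ∑ l, inner ℂ ψ (B l (P' j ψ)) := by
      rw [sum_inner, Finset.sum_comm, ← Finset.sum_neg_distrib]
      refine Finset.sum_congr rfl fun l _ => ?_
      rw [inner_sum, ← Finset.sum_neg_distrib]
      exact Finset.sum_congr rfl fun j _ => hB _ _ _
    rw [e1, e2, ← sub_eq_add_neg, ← Finset.sum_sub_distrib]
    have e3 : ∀ j, (∑ l, inner ℂ ψ (P' j (B l ψ))) - ∑ l, inner ℂ ψ (B l (P' j ψ)) =
        (η : ℂ) * (inner ℂ ψ (E j k k ψ) + inner ℂ ψ (E j (-k) (-k) ψ) - inner ℂ ψ (E j 0 0 ψ)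
          - inner ℂ ψ (E j 0 0 ψ)) := by
      intro j
      rw [← Finset.sum_sub_distrib, Finset.sum_eq_single j]
      · rw [← inner_sub_right, hd, inner_smul_right, inner_sub_right, inner_sub_right, inner_add_right]
      · intro l _ hl
        rw [hc j l (Ne.symm hl), sub_self]
      · intro h
        exact absurd (Finset.mem_univ j) h
    rw [Finset.sum_congr rfl fun j _ => e3 j, ← Finset.mul_sum, Finset.sum_sub_distrib, Finset.sum_sub_distrib,
      Finset.sum_add_distrib, UncA_occ hE, UncA_occ hE, UncA_occ hE]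
    push_cast
    ring
  have h1 := UncA_cs key
  calc 4 * η ^ 2 * (occ E ψ 0 - (occ E ψ k + occ E ψ (-k)) / 2) ^ 2
      = (η * (occ E ψ k + occ E ψ (-k) - occ E ψ 0 - occ E ψ 0)) ^ 2 := by ring
    _ ≤ _ := h1

theorem UncA_adjB {E : ι → Z → Z → 𝓗 →L[ℂ] 𝓗} (hE : MU E) (k : Z) (j : ι) (f g : 𝓗) :
    inner ℂ (E j 0 (-k) f - E j k 0 f) g = - inner ℂ f (E j 0 k g - E j (-k) 0 g) := by
  rw [inner_sub_left, inner_sub_right, hE.adj, hE.adj]
  ring

/-- Step 1. -/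
theorem unc_RB {E : ι → Z → Z → 𝓗 →L[ℂ] 𝓗} (hE : MU E) {r r' : ι → 𝓗 →L[ℂ] 𝓗} {k : Z} {η : ℝ}
    (hr : LowDen E r r' k η) (hk : k ≠ 0) (hk2 : k ≠ -k) (ψ : 𝓗) :
    4 * η ^ 2 * (occ E ψ 0 - (occ E ψ k + occ E ψ (-k)) / 2) ^ 2
      ≤ (‖∑ j, r j ψ‖ ^ 2 + ‖∑ j, r' j ψ‖ ^ 2)
        * (‖∑ j, (E j 0 k ψ - E j (-k) 0 ψ)‖ ^ 2 + ‖∑ j, (E j 0 (-k) ψ - E j k 0 ψ)‖ ^ 2) := by
  refine UncA_gen hE ψ (fun j => r j) (fun j => r' j) (fun j f => E j 0 k f - E j (-k) 0 f)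
    (fun j f => E j 0 (-k) f - E j k 0 f) hr.adj (UncA_adjB hE k) (fun j l hjl => ?_) (fun j => ?_)
  · show r' j (E l 0 k ψ - E l (-k) 0 ψ) = E l 0 k (r' j ψ) - E l (-k) 0 (r' j ψ)
    rw [map_sub, hr.comm' j l hjl, hr.comm' j l hjl]
  · show r' j (E j 0 k ψ - E j (-k) 0 ψ) - (E j 0 k (r' j ψ) - E j (-k) 0 (r' j ψ)) = _
    rw [map_sub, hr.rE1, hr.rE2, hr.rE3, hr.rE4]
    simp only [smul_sub, smul_add]
    abel

/-- Step 2. -/
theorem unc_AB {E : ι → Z → Z → 𝓗 →L[ℂ] 𝓗} (hE : MU E) {k : Z} (hk : k ≠ 0) (hk2 : k ≠ -k)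
    (ψ : 𝓗) :
    4 * (occ E ψ 0 - (occ E ψ k + occ E ψ (-k)) / 2) ^ 2
      ≤ (‖∑ j, (E j 0 k ψ + E j (-k) 0 ψ)‖ ^ 2 + ‖∑ j, (E j 0 (-k) ψ + E j k 0 ψ)‖ ^ 2)
        * (‖∑ j, (E j 0 k ψ - E j (-k) 0 ψ)‖ ^ 2 + ‖∑ j, (E j 0 (-k) ψ - E j k 0 ψ)‖ ^ 2) := by
  have h := UncA_gen hE (k := k) (η := 1) ψ (fun j f => E j 0 k f + E j (-k) 0 f)
    (fun j f => E j 0 (-k) f + E j k 0 f) (fun j f => E j 0 k f - E j (-k) 0 f)
    (fun j f => E j 0 (-k) f - E j k 0 f) (fun j f g => ?_) (UncA_adjB hE k) (fun j l hjl => ?_) (fun j => ?_)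
  · simpa using h
  · show inner ℂ (E j 0 k f + E j (-k) 0 f) g = inner ℂ f (E j 0 (-k) g + E j k 0 g)
    rw [inner_add_left, inner_add_right, hE.adj, hE.adj]
    ring
  · show E j 0 (-k) (E l 0 k ψ - E l (-k) 0 ψ) + E j k 0 (E l 0 k ψ - E l (-k) 0 ψ) =
      E l 0 k (E j 0 (-k) ψ + E j k 0 ψ) - E l (-k) 0 (E j 0 (-k) ψ + E j k 0 ψ)
    simp only [map_sub, map_add]
    rw [hE.comm j l hjl, hE.comm j l hjl, hE.comm j l hjl, hE.comm j l hjl]
    abel
  · have hk' : -k ≠ 0 := neg_ne_zero.2 hk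
    show E j 0 (-k) (E j 0 k ψ - E j (-k) 0 ψ) + E j k 0 (E j 0 k ψ - E j (-k) 0 ψ) -
      (E j 0 k (E j 0 (-k) ψ + E j k 0 ψ) - E j (-k) 0 (E j 0 (-k) ψ + E j k 0 ψ)) = _
    simp only [map_sub, map_add]
    rw [hE.mul_ne j 0 (-k) 0 k ψ hk', hE.mul_eq j 0 (-k) 0 ψ, hE.mul_eq j k 0 k ψ, hE.mul_ne j k 0 (-k) 0 ψ hk'.symm,
      hE.mul_ne j 0 k 0 (-k) ψ hk, hE.mul_eq j 0 k 0 ψ, hE.mul_eq j (-k) 0 (-k) ψ, hE.mul_ne j (-k) 0 k 0 ψ hk.symm]
    simp only [Complex.ofReal_one, one_smul]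
    abel

end Pool.Agent.Lib.MP_4952d6_mp.LB

end

/-! ### LB.UncB -/

section

/-! # LB.UncB: upper bound of the sum of squares (step 3 of LB.Unc, see the header there) -/

set_option autoImplicit false
set_option linter.unusedSectionVars false
set_option linter.unusedVariables false
open ComplexConjugate

namespace Pool.Agent.Lib.MP_4952d6_mp.LB

variable {ι : Type*} [Fintype ι] [DecidableEq ι] {Z : Type*} [AddCommGroup Z] [DecidableEq Z]
  {𝓗 : Type*} [NormedAddCommGroup 𝓗] [InnerProductSpace ℂ 𝓗]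

theorem UncB_inner {E : ι → Z → Z → 𝓗 →L[ℂ] 𝓗} (hE : MU E) (j : ι) (a b : Z) (f : 𝓗) :
    inner ℂ (E j a b f) (E j a b f) = inner ℂ f (E j b b f) := by
  rw [hE.adj, hE.mul_eq]

theorem UncB_norm {E : ι → Z → Z → 𝓗 →L[ℂ] 𝓗} (hE : MU E) (j : ι) (a b : Z) (f : 𝓗) :
    ‖E j a b f‖ ^ 2 = ‖E j b b f‖ ^ 2 := by
  have h1 := inner_self_eq_norm_sq_to_K (𝕜 := ℂ) (E j a b f)
  have h2 := inner_self_eq_norm_sq_to_K (𝕜 := ℂ) (E j b b f)
  rw [UncB_inner hE] at h1 h2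
  rw [h1] at h2
  exact_mod_cast h2

theorem UncB_re (f : 𝓗) : (inner ℂ f f).re = ‖f‖ ^ 2 := by
  rw [inner_self_eq_norm_sq_to_K (𝕜 := ℂ) f]
  norm_cast

theorem UncB_contr0 {E : ι → Z → Z → 𝓗 →L[ℂ] 𝓗} (hE : MU E) (j : ι) (b : Z) (f : 𝓗) :
    ‖E j b b f‖ ≤ ‖f‖ := by
  have h1 := inner_self_eq_norm_sq_to_K (𝕜 := ℂ) (E j b b f)
  rw [UncB_inner hE] at h1
  have h2 : ‖E j b b f‖ ^ 2 ≤ ‖f‖ * ‖E j b b f‖ := by
    have h3 : ‖inner ℂ f (E j b b f)‖ ≤ ‖f‖ * ‖E j b b f‖ := norm_inner_le_norm _ _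
    rw [h1] at h3
    simpa using h3
  by_contra hcon
  rw [not_le] at hcon
  have : 0 ≤ ‖f‖ := norm_nonneg f
  nlinarith

theorem UncB_contr {E : ι → Z → Z → 𝓗 →L[ℂ] 𝓗} (hE : MU E) (j : ι) (a b : Z) (f : 𝓗) :
    ‖E j a b f‖ ≤ ‖f‖ := by
  have h := UncB_norm hE j a b f
  have h2 : ‖E j a b f‖ = ‖E j b b f‖ := by
    have := (sq_eq_sq₀ (norm_nonneg (E j a b f)) (norm_nonneg (E j b b f))).mp h
    exact this
  rw [h2]
  exact UncB_contr0 hE j b f

theorem UncB_cross {E : ι → Z → Z → 𝓗 →L[ℂ] 𝓗} (hE : MU E) {j l : ι} (hjl : j ≠ l) (a b : Z)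
    (ψ : 𝓗) :
    (inner ℂ (E j a b ψ) (E l a b ψ)).re
      ≤ 1 / 2 * (‖E j b b (E l a a ψ)‖ ^ 2 + ‖E l b b (E j a a ψ)‖ ^ 2) := by
  have hlj : l ≠ j := hjl.symm
  have h1 : inner ℂ (E j a b ψ) (E l a b ψ)
      = inner ℂ (E j b b (E l a a ψ)) (E j b a (E l a b (E l b b (E j a a ψ)))) := by
    have e1 : E l a b (E l b b (E j a a ψ)) = E j a a (E l a b ψ) := by
      rw [hE.mul_eq, hE.comm l j hlj]
    have e2 : E l a a (E j b a (E l a b (E l b b (E j a a ψ)))) = E j b a (E l a b ψ) := by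
      rw [hE.comm l j hlj a a b a, hE.mul_eq l a a b, e1, hE.mul_eq]
    rw [hE.adj j a b, hE.adj j b b, hE.mul_eq j b b a, hE.adj l a a, e2]
  rw [h1]
  have h2 : (inner ℂ (E j b b (E l a a ψ)) (E j b a (E l a b (E l b b (E j a a ψ))))).re
      ≤ ‖E j b b (E l a a ψ)‖ * ‖E j b a (E l a b (E l b b (E j a a ψ)))‖ :=
    (Complex.re_le_norm _).trans (norm_inner_le_norm _ _)
  have h3 : ‖E j b a (E l a b (E l b b (E j a a ψ)))‖ ≤ ‖E l b b (E j a a ψ)‖ :=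
    (UncB_contr hE _ _ _ _).trans (UncB_contr hE _ _ _ _)
  have h4 := mul_le_mul_of_nonneg_left h3 (norm_nonneg (E j b b (E l a a ψ)))
  nlinarith [sq_nonneg (‖E j b b (E l a a ψ)‖ - ‖E l b b (E j a a ψ)‖)]

theorem UncB_sq {E : ι → Z → Z → 𝓗 →L[ℂ] 𝓗} (hE : MU E) (a b : Z) (ψ : 𝓗) :
    ‖∑ j, E j a b ψ‖ ^ 2
      ≤ occ E ψ b + ∑ j, ∑ l, (if l = j then 0 else ‖E j b b (E l a a ψ)‖ ^ 2) := by
  have h1 : ‖∑ j, E j a b ψ‖ ^ 2 = ∑ j, ∑ l, (inner ℂ (E j a b ψ) (E l a b ψ)).re := by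
    have h := inner_self_eq_norm_sq_to_K (𝕜 := ℂ) (∑ j, E j a b ψ)
    have h2 : (inner ℂ (∑ j, E j a b ψ) (∑ j, E j a b ψ)).re = ‖∑ j, E j a b ψ‖ ^ 2 := by
      rw [h]
      norm_cast
    rw [← h2, sum_inner]
    simp_rw [inner_sum]
    rw [Complex.re_sum]
    refine Finset.sum_congr rfl (fun j _ => ?_)
    rw [Complex.re_sum]
  have h2 : ∀ j l, (inner ℂ (E j a b ψ) (E l a b ψ)).re
      ≤ (if l = j then ‖E j b b ψ‖ ^ 2 else 0)
        + 1 / 2 * ((if l = j then 0 else ‖E j b b (E l a a ψ)‖ ^ 2)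
          + (if j = l then 0 else ‖E l b b (E j a a ψ)‖ ^ 2)) := by
    intro j l
    by_cases hjl : l = j
    · subst hjl
      simp only [if_true]
      rw [← UncB_norm hE l a b ψ, UncB_re]
      simp
    · rw [if_neg hjl, if_neg hjl, if_neg (Ne.symm hjl), zero_add]
      exact UncB_cross hE (Ne.symm hjl) a b ψ
  rw [h1]
  refine (Finset.sum_le_sum fun j _ => Finset.sum_le_sum fun l _ => h2 j l).trans ?_
  simp_rw [Finset.sum_add_distrib, ← Finset.mul_sum, Finset.sum_add_distrib]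
  rw [Finset.sum_comm (f := fun j l => (if j = l then (0 : ℝ) else ‖E l b b (E j a a ψ)‖ ^ 2))]
  simp only [Finset.sum_ite_eq', Finset.mem_univ, if_true, occ]
  linarith

theorem UncB_sumite (c : ι → ℝ) :
    ∑ j, ∑ l, (if l = j then 0 else c j) = ((Fintype.card ι : ℝ) - 1) * ∑ j, c j := by
  rw [Finset.mul_sum]
  refine Finset.sum_congr rfl (fun j _ => ?_)
  have : ∀ l, (if l = j then 0 else c j) = c j - (if l = j then c j else 0) := by
    intro l
    by_cases h : l = j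
    · simp [h]
    · simp [h]
  simp_rw [this]
  rw [Finset.sum_sub_distrib]
  simp only [Finset.sum_ite_eq', Finset.mem_univ, if_true, Finset.sum_const, Finset.card_univ,
    nsmul_eq_mul]
  ring

theorem UncB_b {E : ι → Z → Z → 𝓗 →L[ℂ] 𝓗} (hE : MU E) (a b : Z) (ψ : 𝓗) :
    ‖∑ j, E j a b ψ‖ ^ 2 ≤ occ E ψ b + ((Fintype.card ι : ℝ) - 1) * occ E ψ b := by
  refine (UncB_sq hE a b ψ).trans ?_
  have : ∑ j, ∑ l, (if l = j then 0 else ‖E j b b (E l a a ψ)‖ ^ 2)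
      ≤ ∑ j, ∑ l, (if l = j then 0 else ‖E j b b ψ‖ ^ 2) := by
    refine Finset.sum_le_sum fun j _ => Finset.sum_le_sum fun l _ => ?_
    by_cases h : l = j
    · simp [h]
    · rw [if_neg h, if_neg h, hE.comm j l (Ne.symm h)]
      exact pow_le_pow_left₀ (norm_nonneg _) (UncB_contr hE _ _ _ _) 2
  rw [UncB_sumite (fun j => ‖E j b b ψ‖ ^ 2)] at this
  simp only [occ]
  linarith

theorem UncB_a {E : ι → Z → Z → 𝓗 →L[ℂ] 𝓗} (hE : MU E) (a b : Z) (ψ : 𝓗) :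
    ‖∑ j, E j a b ψ‖ ^ 2 ≤ occ E ψ b + ((Fintype.card ι : ℝ) - 1) * occ E ψ a := by
  refine (UncB_sq hE a b ψ).trans ?_
  have : ∑ j, ∑ l, (if l = j then 0 else ‖E j b b (E l a a ψ)‖ ^ 2)
      ≤ ∑ l, ∑ j, (if j = l then 0 else ‖E l a a ψ‖ ^ 2) := by
    rw [Finset.sum_comm]
    refine Finset.sum_le_sum fun l _ => Finset.sum_le_sum fun j _ => ?_
    by_cases h : l = j
    · simp [h]
    · rw [if_neg h, if_neg (Ne.symm h)]
      exact pow_le_pow_left₀ (norm_nonneg _) (UncB_contr hE _ _ _ _) 2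
  rw [UncB_sumite (fun j => ‖E j a a ψ‖ ^ 2)] at this
  simp only [occ]
  linarith

/-- Step 3. -/
theorem unc_sum {E : ι → Z → Z → 𝓗 →L[ℂ] 𝓗} (hE : MU E) {k : Z} (hk : k ≠ 0) (hk2 : k ≠ -k)
    (ψ : 𝓗) :
    ‖∑ j, (E j 0 k ψ + E j (-k) 0 ψ)‖ ^ 2 + ‖∑ j, (E j 0 (-k) ψ + E j k 0 ψ)‖ ^ 2
      + ‖∑ j, (E j 0 k ψ - E j (-k) 0 ψ)‖ ^ 2 + ‖∑ j, (E j 0 (-k) ψ - E j k 0 ψ)‖ ^ 2
      ≤ 4 * occ E ψ 0 + 4 * Fintype.card ι * (occ E ψ k + occ E ψ (-k)) := by
  simp_rw [Finset.sum_add_distrib, Finset.sum_sub_distrib]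
  have p1 := parallelogram_law_with_norm ℂ (∑ j, E j 0 k ψ) (∑ j, E j (-k) 0 ψ)
  have p2 := parallelogram_law_with_norm ℂ (∑ j, E j 0 (-k) ψ) (∑ j, E j k 0 ψ)
  have h1 := UncB_b hE 0 k ψ
  have h2 := UncB_a hE (-k) 0 ψ
  have h3 := UncB_b hE 0 (-k) ψ
  have h4 := UncB_a hE k 0 ψ
  have o1 : 0 ≤ occ E ψ k := Finset.sum_nonneg fun _ _ => sq_nonneg _
  have o2 : 0 ≤ occ E ψ (-k) := Finset.sum_nonneg fun _ _ => sq_nonneg _
  have o3 : 0 ≤ occ E ψ 0 := Finset.sum_nonneg fun _ _ => sq_nonneg _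
  nlinarith

end Pool.Agent.Lib.MP_4952d6_mp.LB

end

/-! ### LB.UncC -/

section

/-! # LB.UncC: the uncertainty inequality (step 4 of LB.Unc, see the header there) -/

set_option autoImplicit false
set_option linter.unusedSectionVars false
set_option linter.unusedVariables false
open ComplexConjugate

namespace Pool.Agent.Lib.MP_4952d6_mp.LB

variable {ι : Type*} [Fintype ι] [DecidableEq ι] {Z : Type*} [AddCommGroup Z] [DecidableEq Z]
  {𝓗 : Type*} [NormedAddCommGroup 𝓗] [InnerProductSpace ℂ 𝓗]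

/-- The real inequality behind step 4. -/
theorem UncC_real {N e g m s n0 y a b rr η : ℝ} (hN : 0 < N) (he : 0 < e) (hg : 0 ≤ g)
    (hm : 0 ≤ m) (ha : 0 ≤ a) (hb : 0 ≤ b) (hrr : 0 ≤ rr) (hs2 : s ^ 2 = e ^ 2 + 2 * N * g * e)
    (h1 : 4 * η ^ 2 * m ^ 2 ≤ rr * b) (h2 : 4 * m ^ 2 ≤ a * b) (h3 : a + b ≤ 4 * n0 + 4 * N * y) :
    η ^ 2 * (m / N * s - n0 / N * e) ≤ η ^ 2 * e * y + g / 2 * rr := by
  have hη : 0 ≤ η ^ 2 := sq_nonneg η
  -- the main inequality without denominators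
  have hmain : 4 * η ^ 2 * m * s ≤ η ^ 2 * e * (a + b) + 2 * N * g * rr := by
    rcases hb.lt_or_eq with hb0 | hb0
    · have h4 : e * b * (4 * η ^ 2 * m * s) ≤ e * b * (η ^ 2 * e * (a + b) + 2 * N * g * rr) := by
        have h5 : η ^ 2 * e ^ 2 * (4 * m ^ 2) ≤ η ^ 2 * e ^ 2 * (a * b) :=
          mul_le_mul_of_nonneg_left h2 (by positivity)
        have h6 : 2 * N * g * e * (4 * η ^ 2 * m ^ 2) ≤ 2 * N * g * e * (rr * b) :=
          mul_le_mul_of_nonneg_left h1 (by positivity)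
        have h7 : 0 ≤ η ^ 2 * (2 * m * s - e * b) ^ 2 := by positivity
        have h8 : η ^ 2 * (2 * m * s - e * b) ^ 2 =
            η ^ 2 * (4 * m ^ 2) * s ^ 2 - 4 * η ^ 2 * m * s * e * b + η ^ 2 * e ^ 2 * b ^ 2 := by
          ring
        rw [h8, hs2] at h7
        nlinarith
      exact le_of_mul_le_mul_left h4 (mul_pos he hb0)
    · rw [← hb0] at h2
      have hm0 : m = 0 := by
        have h4 : m ^ 2 ≤ 0 := by linarith
        exact pow_eq_zero_iff (two_ne_zero) |>.1 (le_antisymm h4 (sq_nonneg m))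
      rw [hm0]
      have h5 : 0 ≤ η ^ 2 * e * (a + b) + 2 * N * g * rr := by positivity
      linarith
  have h4 : η ^ 2 * e * (a + b) ≤ η ^ 2 * e * (4 * n0 + 4 * N * y) :=
    mul_le_mul_of_nonneg_left h3 (by positivity)
  have h5 : η ^ 2 * (m / N * s - n0 / N * e) = (4 * η ^ 2 * m * s - 4 * η ^ 2 * e * n0) / (4 * N) := by
    field_simp
  rw [h5, div_le_iff₀ (by positivity)]
  linarith

/-- Step 4: the uncertainty inequality. -/
theorem unc_main {E : ι → Z → Z → 𝓗 →L[ℂ] 𝓗} (hE : MU E) {r r' : ι → 𝓗 →L[ℂ] 𝓗} {k : Z} {η : ℝ}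
    (hr : LowDen E r r' k η) (hk : k ≠ 0) (hk2 : k ≠ -k) (ψ : 𝓗) (hN : 0 < Fintype.card ι)
    {e g : ℝ} (he : 0 < e) (hg : 0 ≤ g)
    (hm : 0 ≤ occ E ψ 0 - (occ E ψ k + occ E ψ (-k)) / 2) :
    η ^ 2 * ((occ E ψ 0 - (occ E ψ k + occ E ψ (-k)) / 2) / Fintype.card ι
        * Real.sqrt (e ^ 2 + 2 * Fintype.card ι * g * e) - occ E ψ 0 / Fintype.card ι * e)
      ≤ η ^ 2 * e * (occ E ψ k + occ E ψ (-k))
        + g / 2 * (‖∑ j, r j ψ‖ ^ 2 + ‖∑ j, r' j ψ‖ ^ 2) := by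
  have hNpos : (0 : ℝ) < Fintype.card ι := by exact_mod_cast hN
  have h1 := unc_RB hE hr hk hk2 ψ
  have h2 := unc_AB hE hk hk2 ψ
  have h3 := unc_sum hE hk hk2 ψ
  have hs2 : Real.sqrt (e ^ 2 + 2 * Fintype.card ι * g * e) ^ 2 =
      e ^ 2 + 2 * Fintype.card ι * g * e := Real.sq_sqrt (by positivity)
  exact UncC_real (n0 := occ E ψ 0) (y := occ E ψ k + occ E ψ (-k)) hNpos he hg hm
    (a := ‖∑ j, (E j 0 k ψ + E j (-k) 0 ψ)‖ ^ 2 + ‖∑ j, (E j 0 (-k) ψ + E j k 0 ψ)‖ ^ 2)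
    (by positivity) (by positivity) (by positivity) hs2 h1 h2 (by linarith)

end Pool.Agent.Lib.MP_4952d6_mp.LB

end

/-! ### LB.ErrB -/

section

/-!
# LB.ErrB: size of the remaining errors (real inequalities)

`Y = u^20`, `N a³ = u^40`, `t = (a/u^16)²`, `√t = a/u^16`, `X = N² a u^20`.

`errB` (every line one error term; `H = 8πa`, `Np ≤ 2 u^20 N`, so `Np/N ≤ 2 u^20`):
* `1/2 (N H) = 4π N a = X 4π a³ u^(-60)`
* `1/2 (N H) a² A2 ≤ 4π N a³ C (u^16/a)^5 = X 4π C u^20` (`N a³ = u^40`, `N² a⁶ = u^80`)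
* `1/2 (Np/N) (N H) A1 ≤ 8π u^20 N a C (u^16/a)^3 = X 8π C u^8`
* `1/2 (Np/N) (1/t + δ N a + N H) ≤ u^20 (u^32/a² + (δ + 8π) N a)`, `N a = u^40/a²`: `= X a³ (...)/u^k`
* `(N H)² t/u^6 Np ≤ 64π² N² a² a² u^(-38) 2 u^20 N = X 128π² u^2`
* `C H ((R+a)/√t) (c'/N M1 + M0/c') ≤ C 8πa (θ+1) u^16 (CM N² u^13 + CM N² u^6)` with `c' = (u^6)⁻¹`: `≤ X 8πC(θ+1)CM (u^9+u^2)`
* `u^40 H/2 N² = X 4π u^20`
`A1, A2, M0, M1` may be negative: replace them by their upper bounds first (coefficients are nonnegative).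
`Real.sqrt (a^2) = a`.

`errC`: `β = 8πa²/√(πt) = 8 √π a u^16`, `B0 ≥ β - C a² (1 + R/t)`, `R/t ≤ θ u^32/a`, and
`S ∈ [0, N²]`, `S ≥ N² - N - 2 N Np ≥ N² (1 - 4 u^20) - N`: `B0 S ≥ β S - C a² (1+R/t) S ≥ β (N² - N - 4u^20 N²) - C a² (1 + R/t) N²`;
`1/2 β N² = X 4√π/u^4`, `1/2 β N = X 4 √π a³ u^(-44)`, `1/2 β 4 u^20 N² = X 16√π u^16`, `1/2 C a² N² = X C a u^(-20)/2`,
`1/2 C a² (R/t) N² ≤ X C θ u^12/2`.
In both theorems choose `a1 ≤ 1` as a high power of `u`.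
-/

set_option autoImplicit false
set_option linter.unusedSectionVars false
set_option linter.unusedVariables false
open MeasureTheory Function Filter Topology Set ComplexConjugate

namespace Pool.Agent.Lib.MP_4952d6_mp.LB

theorem ErrB_pow {u : ℝ} (h0 : 0 < u) (h1 : u ≤ 1) (k : ℕ) : u ^ (k + 1) ≤ u := by
  have := pow_le_one₀ (n := k) h0.le h1
  calc u ^ (k + 1) = u ^ k * u := pow_succ u k
    _ ≤ 1 * u := mul_le_mul_of_nonneg_right this h0.le
    _ = u := one_mul u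

/-- the condition on `a1 = u^61` -/
theorem ErrB_n {u a n : ℝ} (h0 : 0 < u) (h1 : u ≤ 1) (ha : 0 < a) (ha1 : a < u ^ 61) (hn : n * a ^ 3 = u ^ 40) :
    0 < n ∧ 1 ≤ n * u ^ 21 := by
  have hn0 : 0 < n := by
    by_contra h
    have h2 : n * a ^ 3 ≤ 0 := mul_nonpos_of_nonpos_of_nonneg (not_lt.1 h) (by positivity)
    have h3 : 0 < u ^ 40 := by positivity
    linarith
  refine ⟨hn0, ?_⟩
  have ha2 : a ≤ 1 := ha1.le.trans (pow_le_one₀ h0.le h1)
  have h3 : a ^ 3 ≤ u ^ 61 := by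
    calc a ^ 3 ≤ a := ErrB_pow ha ha2 2
      _ ≤ u ^ 61 := ha1.le
  have h4 : u ^ 40 * 1 ≤ u ^ 40 * (n * u ^ 21) := by
    calc u ^ 40 * 1 = n * a ^ 3 := by rw [hn, mul_one]
      _ ≤ n * u ^ 61 := mul_le_mul_of_nonneg_left h3 hn0.le
      _ = u ^ 40 * (n * u ^ 21) := by ring
  exact le_of_mul_le_mul_left h4 (by positivity)

theorem ErrB_main {C CM θ δ u a n t Np R A1 A2 M0 M1 : ℝ} (hC : 0 ≤ C) (hM : 0 ≤ CM) (hθ : 0 ≤ θ) (hδ : 0 ≤ δ)
    (h0 : 0 < u) (h1 : u ≤ 1) (ha : 0 < a) (ha1 : a < u ^ 61) (hn : n * a ^ 3 = u ^ 40)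
    (ht : t = (a / u ^ 16) ^ 2) (hN0 : 0 ≤ Np) (hN1 : Np ≤ 2 * u ^ 20 * n) (hR : 0 ≤ R) (hR1 : R ≤ θ * a)
    (hA1 : A1 ≤ C * (Real.sqrt t)⁻¹ ^ 3) (hA2 : A2 ≤ C * (Real.sqrt t)⁻¹ ^ 5)
    (hM0 : M0 ≤ CM * n ^ 2) (hM1 : M1 ≤ CM * n ^ 3 * u ^ 19) :
    u ^ 40 * (8 * Real.pi * a) / 2 * n ^ 2 + 1 / 2 * (n * (8 * Real.pi * a))
      + 1 / 2 * (n * (8 * Real.pi * a)) * a ^ 2 * A2
      + 1 / 2 * (Np / n) * (n * (8 * Real.pi * a)) * A1
      + 1 / 2 * (Np / n) * (1 / t + δ * n * a + n * (8 * Real.pi * a))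
      + (n * (8 * Real.pi * a)) ^ 2 * t / u ^ 6 * Np
      + C * (8 * Real.pi * a) * ((R + Real.sqrt (a ^ 2)) / Real.sqrt t)
        * ((u ^ 6)⁻¹ / n * M1 + 1 / (u ^ 6)⁻¹ * M0)
      ≤ (4 * Real.pi + 4 * Real.pi + 4 * Real.pi * C + 8 * Real.pi * C + (1 + δ + 8 * Real.pi) + 128 * Real.pi ^ 2
        + 16 * Real.pi * C * (θ + 1) * CM) * u * (n ^ 2 * a * u ^ 20) := by
  obtain ⟨hn0, hn1⟩ := ErrB_n h0 h1 ha ha1 hn
  have hpi := Real.pi_pos
  have hs : Real.sqrt t = a / u ^ 16 := by rw [ht, Real.sqrt_sq (by positivity)]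
  have hsi : (Real.sqrt t)⁻¹ = u ^ 16 / a := by rw [hs, inv_div]
  have hX : 0 < n ^ 2 * a * u ^ 20 := by positivity
  have hna : n * a ≤ u * (n ^ 2 * a * u ^ 20) := by
    have h2 : n * a * 1 ≤ n * a * (n * u ^ 21) := mul_le_mul_of_nonneg_left hn1 (by positivity)
    calc n * a = n * a * 1 := by ring
      _ ≤ n * a * (n * u ^ 21) := h2
      _ = u * (n ^ 2 * a * u ^ 20) := by ring
  have hNn : Np / n ≤ 2 * u ^ 20 := by
    rw [div_le_iff₀ hn0]; exact hN1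
  have hNn0 : 0 ≤ Np / n := div_nonneg hN0 hn0.le
  have hnv : n = u ^ 40 / a ^ 3 := by
    rw [eq_div_iff (by positivity)]; exact hn
  -- first term
  have t1 : u ^ 40 * (8 * Real.pi * a) / 2 * n ^ 2 ≤ 4 * Real.pi * u * (n ^ 2 * a * u ^ 20) := by
    have h2 := ErrB_pow h0 h1 19
    calc u ^ 40 * (8 * Real.pi * a) / 2 * n ^ 2 = 4 * Real.pi * (n ^ 2 * a * u ^ 20) * u ^ (19 + 1) := by ring
      _ ≤ 4 * Real.pi * (n ^ 2 * a * u ^ 20) * u := mul_le_mul_of_nonneg_left h2 (by positivity)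
      _ = _ := by ring
  -- second term
  have t2 : 1 / 2 * (n * (8 * Real.pi * a)) ≤ 4 * Real.pi * u * (n ^ 2 * a * u ^ 20) := by
    calc 1 / 2 * (n * (8 * Real.pi * a)) = 4 * Real.pi * (n * a) := by ring
      _ ≤ 4 * Real.pi * (u * (n ^ 2 * a * u ^ 20)) := mul_le_mul_of_nonneg_left hna (by positivity)
      _ = _ := by ring
  -- third term
  have t3 : 1 / 2 * (n * (8 * Real.pi * a)) * a ^ 2 * A2 ≤ 4 * Real.pi * C * u * (n ^ 2 * a * u ^ 20) := by
    have h2 := ErrB_pow h0 h1 19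
    have h3 : (n * a ^ 3) * (u ^ 16 / a) ^ 5 = u ^ (19 + 1) * (n ^ 2 * a * u ^ 20) := by
      rw [hnv]; field_simp
    calc 1 / 2 * (n * (8 * Real.pi * a)) * a ^ 2 * A2
        ≤ 1 / 2 * (n * (8 * Real.pi * a)) * a ^ 2 * (C * (u ^ 16 / a) ^ 5) := by
          rw [hsi] at hA2
          exact mul_le_mul_of_nonneg_left hA2 (by positivity)
      _ = 4 * Real.pi * C * ((n * a ^ 3) * (u ^ 16 / a) ^ 5) := by ring
      _ = 4 * Real.pi * C * (n ^ 2 * a * u ^ 20) * u ^ (19 + 1) := by rw [h3]; ring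
      _ ≤ 4 * Real.pi * C * (n ^ 2 * a * u ^ 20) * u := mul_le_mul_of_nonneg_left h2 (by positivity)
      _ = _ := by ring
  -- fourth term
  have t4 : 1 / 2 * (Np / n) * (n * (8 * Real.pi * a)) * A1 ≤ 8 * Real.pi * C * u * (n ^ 2 * a * u ^ 20) := by
    have h2 := ErrB_pow h0 h1 7
    have h3 : u ^ 20 * n * a * (u ^ 16 / a) ^ 3 = u ^ (7 + 1) * (n ^ 2 * a * u ^ 20) := by
      rw [hnv]; field_simp
    calc 1 / 2 * (Np / n) * (n * (8 * Real.pi * a)) * A1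
        ≤ 1 / 2 * (Np / n) * (n * (8 * Real.pi * a)) * (C * (u ^ 16 / a) ^ 3) := by
          rw [hsi] at hA1
          exact mul_le_mul_of_nonneg_left hA1 (by positivity)
      _ = (Np / n) * (4 * Real.pi * C * (n * a * (u ^ 16 / a) ^ 3)) := by ring
      _ ≤ (2 * u ^ 20) * (4 * Real.pi * C * (n * a * (u ^ 16 / a) ^ 3)) :=
          mul_le_mul_of_nonneg_right hNn (by positivity)
      _ = 8 * Real.pi * C * (u ^ 20 * n * a * (u ^ 16 / a) ^ 3) := by ring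
      _ = 8 * Real.pi * C * (n ^ 2 * a * u ^ 20) * u ^ (7 + 1) := by rw [h3]; ring
      _ ≤ 8 * Real.pi * C * (n ^ 2 * a * u ^ 20) * u := mul_le_mul_of_nonneg_left h2 (by positivity)
      _ = _ := by ring
  -- fifth term
  have t5 : 1 / 2 * (Np / n) * (1 / t + δ * n * a + n * (8 * Real.pi * a))
      ≤ (1 + δ + 8 * Real.pi) * u * (n ^ 2 * a * u ^ 20) := by
    have h3 : u ^ 20 * (1 / t) = u ^ 12 * (n * a) := by
      rw [hnv, ht]; field_simp
    have ht0 : 0 < t := by rw [ht]; positivity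
    have h4 : u ^ 12 ≤ 1 := pow_le_one₀ h0.le h1
    have h5 : u ^ 20 ≤ 1 := pow_le_one₀ h0.le h1
    calc 1 / 2 * (Np / n) * (1 / t + δ * n * a + n * (8 * Real.pi * a))
        = (Np / n) * (1 / 2 * (1 / t + δ * n * a + n * (8 * Real.pi * a))) := by ring
      _ ≤ (2 * u ^ 20) * (1 / 2 * (1 / t + δ * n * a + n * (8 * Real.pi * a))) :=
          mul_le_mul_of_nonneg_right hNn (by positivity)
      _ = u ^ 20 * (1 / t) + u ^ 20 * ((δ + 8 * Real.pi) * (n * a)) := by ring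
      _ = u ^ 12 * (n * a) + u ^ 20 * ((δ + 8 * Real.pi) * (n * a)) := by rw [h3]
      _ ≤ 1 * (n * a) + 1 * ((δ + 8 * Real.pi) * (n * a)) := by
          gcongr
      _ = (1 + δ + 8 * Real.pi) * (n * a) := by ring
      _ ≤ (1 + δ + 8 * Real.pi) * (u * (n ^ 2 * a * u ^ 20)) := mul_le_mul_of_nonneg_left hna (by positivity)
      _ = _ := by ring
  -- sixth term
  have t6 : (n * (8 * Real.pi * a)) ^ 2 * t / u ^ 6 * Np ≤ 128 * Real.pi ^ 2 * u * (n ^ 2 * a * u ^ 20) := by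
    have ht0 : 0 < t := by rw [ht]; positivity
    have h2 := ErrB_pow h0 h1 1
    have h3 : (n * (8 * Real.pi * a)) ^ 2 * t / u ^ 6 * (2 * u ^ 20 * n)
        = 128 * Real.pi ^ 2 * (n ^ 2 * a * u ^ 20) * u ^ (1 + 1) := by
      rw [hnv, ht]; field_simp; ring
    calc (n * (8 * Real.pi * a)) ^ 2 * t / u ^ 6 * Np ≤ (n * (8 * Real.pi * a)) ^ 2 * t / u ^ 6 * (2 * u ^ 20 * n) :=
          mul_le_mul_of_nonneg_left hN1 (by positivity)
      _ = 128 * Real.pi ^ 2 * (n ^ 2 * a * u ^ 20) * u ^ (1 + 1) := h3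
      _ ≤ 128 * Real.pi ^ 2 * (n ^ 2 * a * u ^ 20) * u := mul_le_mul_of_nonneg_left h2 (by positivity)
      _ = _ := by ring
  -- seventh term
  have t7 : C * (8 * Real.pi * a) * ((R + Real.sqrt (a ^ 2)) / Real.sqrt t)
        * ((u ^ 6)⁻¹ / n * M1 + 1 / (u ^ 6)⁻¹ * M0) ≤ 16 * Real.pi * C * (θ + 1) * CM * u * (n ^ 2 * a * u ^ 20) := by
    have h3 : Real.sqrt (a ^ 2) = a := Real.sqrt_sq ha.le
    rw [h3, hs]
    have h4 : (R + a) / (a / u ^ 16) ≤ (θ + 1) * u ^ 16 := by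
      rw [div_le_iff₀ (by positivity)]
      calc R + a ≤ θ * a + a := by linarith
        _ = (θ + 1) * u ^ 16 * (a / u ^ 16) := by field_simp
    have h4' : 0 ≤ (R + a) / (a / u ^ 16) := by positivity
    have h5 : (u ^ 6)⁻¹ / n * M1 + 1 / (u ^ 6)⁻¹ * M0 ≤ CM * n ^ 2 * (u ^ 13 + u ^ 6) := by
      calc (u ^ 6)⁻¹ / n * M1 + 1 / (u ^ 6)⁻¹ * M0
          ≤ (u ^ 6)⁻¹ / n * (CM * n ^ 3 * u ^ 19) + 1 / (u ^ 6)⁻¹ * (CM * n ^ 2) :=
            add_le_add (mul_le_mul_of_nonneg_left hM1 (by positivity)) (mul_le_mul_of_nonneg_left hM0 (by positivity))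
        _ = CM * n ^ 2 * (u ^ 13 + u ^ 6) := by field_simp
    have h6 := ErrB_pow h0 h1 8
    have h7 := ErrB_pow h0 h1 1
    calc C * (8 * Real.pi * a) * ((R + a) / (a / u ^ 16)) * ((u ^ 6)⁻¹ / n * M1 + 1 / (u ^ 6)⁻¹ * M0)
        ≤ C * (8 * Real.pi * a) * ((R + a) / (a / u ^ 16)) * (CM * n ^ 2 * (u ^ 13 + u ^ 6)) :=
          mul_le_mul_of_nonneg_left h5 (by positivity)
      _ ≤ C * (8 * Real.pi * a) * ((θ + 1) * u ^ 16) * (CM * n ^ 2 * (u ^ 13 + u ^ 6)) := by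
          refine mul_le_mul_of_nonneg_right (mul_le_mul_of_nonneg_left h4 (by positivity)) (by positivity)
      _ = 8 * Real.pi * C * (θ + 1) * CM * (n ^ 2 * a * u ^ 20) * (u ^ (8 + 1) + u ^ (1 + 1)) := by ring
      _ ≤ 8 * Real.pi * C * (θ + 1) * CM * (n ^ 2 * a * u ^ 20) * (u + u) :=
          mul_le_mul_of_nonneg_left (add_le_add h6 h7) (by positivity)
      _ = _ := by ring
  calc _ ≤ 4 * Real.pi * u * (n ^ 2 * a * u ^ 20) + 4 * Real.pi * u * (n ^ 2 * a * u ^ 20)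
        + 4 * Real.pi * C * u * (n ^ 2 * a * u ^ 20) + 8 * Real.pi * C * u * (n ^ 2 * a * u ^ 20)
        + (1 + δ + 8 * Real.pi) * u * (n ^ 2 * a * u ^ 20) + 128 * Real.pi ^ 2 * u * (n ^ 2 * a * u ^ 20)
        + 16 * Real.pi * C * (θ + 1) * CM * u * (n ^ 2 * a * u ^ 20) := by
          refine add_le_add (add_le_add (add_le_add (add_le_add (add_le_add (add_le_add t1 t2) t3) t4) t5) t6) t7
    _ = _ := by ring

theorem errB {C CM θ δ : ℝ} (hC : 0 ≤ C) (hM : 0 ≤ CM) (hθ : 0 ≤ θ) (hδ : 0 ≤ δ) :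
    ∃ K : ℝ, 0 ≤ K ∧ ∀ u : ℝ, 0 < u → u ≤ 1 →
    ∃ a1 : ℝ, 0 < a1 ∧ ∀ (a : ℝ) (N : ℕ), 0 < a → a < a1 → (N : ℝ) * a ^ 3 = u ^ 40 →
    ∀ t Np R A1 A2 M0 M1 : ℝ, t = (a / u ^ 16) ^ 2 → 0 ≤ Np → Np ≤ 2 * u ^ 20 * N → 0 ≤ R →
    R ≤ θ * a → A1 ≤ C * (Real.sqrt t)⁻¹ ^ 3 → A2 ≤ C * (Real.sqrt t)⁻¹ ^ 5 →
    M0 ≤ CM * N ^ 2 → M1 ≤ CM * N ^ 3 * u ^ 19 →
    u ^ 40 * (8 * Real.pi * a) / 2 * N ^ 2 + 1 / 2 * (N * (8 * Real.pi * a))
      + 1 / 2 * (N * (8 * Real.pi * a)) * a ^ 2 * A2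
      + 1 / 2 * (Np / N) * (N * (8 * Real.pi * a)) * A1
      + 1 / 2 * (Np / N) * (1 / t + δ * N * a + N * (8 * Real.pi * a))
      + (N * (8 * Real.pi * a)) ^ 2 * t / u ^ 6 * Np
      + C * (8 * Real.pi * a) * ((R + Real.sqrt (a ^ 2)) / Real.sqrt t)
        * ((u ^ 6)⁻¹ / N * M1 + 1 / (u ^ 6)⁻¹ * M0)
      ≤ K * u * (N ^ 2 * a * u ^ 20) := by
  have hpi := Real.pi_pos
  refine ⟨4 * Real.pi + 4 * Real.pi + 4 * Real.pi * C + 8 * Real.pi * C + (1 + δ + 8 * Real.pi) + 128 * Real.pi ^ 2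
        + 16 * Real.pi * C * (θ + 1) * CM, by positivity, fun u h0 h1 => ⟨u ^ 61, by positivity, ?_⟩⟩
  intro a N ha ha1 hn t Np R A1 A2 M0 M1 ht hN0 hN1 hR hR1 hA1 hA2 hM0 hM1
  exact ErrB_main hC hM hθ hδ h0 h1 ha ha1 hn ht hN0 hN1 hR hR1 hA1 hA2 hM0 hM1

theorem ErrB_main2 {C θ u a n t Np R B0 S : ℝ} (hC : 0 ≤ C) (hθ : 0 ≤ θ)
    (h0 : 0 < u) (h1 : u ≤ 1) (ha : 0 < a) (ha1 : a < u ^ 61) (hn : n * a ^ 3 = u ^ 40)
    (ht : t = (a / u ^ 16) ^ 2) (hN0 : 0 ≤ Np) (hN1 : Np ≤ 2 * u ^ 20 * n) (hR : 0 ≤ R) (hR1 : R ≤ θ * a)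
    (hB : 8 * Real.pi * a ^ 2 / Real.sqrt (Real.pi * t) - C * a ^ 2 * (1 + R / t) ≤ B0)
    (hS0 : 0 ≤ S) (hS1 : S ≤ n ^ 2) (hS2 : n ^ 2 - n - 2 * n * Np ≤ S) :
    (4 * Real.sqrt Real.pi / u ^ 4 - (20 * Real.sqrt Real.pi + C + C * θ) * u) * (n ^ 2 * a * u ^ 20) ≤ 1 / 2 * B0 * S := by
  obtain ⟨hn0, hn1⟩ := ErrB_n h0 h1 ha ha1 hn
  have hpi := Real.pi_pos
  set r := Real.sqrt Real.pi with hr
  have hr0 : 0 < r := Real.sqrt_pos.2 hpi
  have hr2 : r ^ 2 = Real.pi := Real.sq_sqrt hpi.le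
  have hs : Real.sqrt t = a / u ^ 16 := by rw [ht, Real.sqrt_sq (by positivity)]
  have ht0 : 0 < t := by rw [ht]; positivity
  have hst : Real.sqrt (Real.pi * t) = r * (a / u ^ 16) := by rw [Real.sqrt_mul hpi.le, hs]
  have hnv : n = u ^ 40 / a ^ 3 := by
    rw [eq_div_iff (by positivity)]; exact hn
  have hX : 0 < n ^ 2 * a * u ^ 20 := by positivity
  have hna : n * a ≤ u * (n ^ 2 * a * u ^ 20) := by
    have h2 : n * a * 1 ≤ n * a * (n * u ^ 21) := mul_le_mul_of_nonneg_left hn1 (by positivity)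
    calc n * a = n * a * 1 := by ring
      _ ≤ n * a * (n * u ^ 21) := h2
      _ = u * (n ^ 2 * a * u ^ 20) := by ring
  have hb : 8 * Real.pi * a ^ 2 / Real.sqrt (Real.pi * t) = 8 * r * a * u ^ 16 := by
    rw [hst, ← hr2]; field_simp
  rw [hb] at hB
  have hD : 0 ≤ C * a ^ 2 * (1 + R / t) := by positivity
  -- main term
  have m1 : 8 * r * a * u ^ 16 * (n ^ 2 - n - 2 * n * Np) ≤ 8 * r * a * u ^ 16 * S :=
    mul_le_mul_of_nonneg_left hS2 (by positivity)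
  have m2 : C * a ^ 2 * (1 + R / t) * S ≤ C * a ^ 2 * (1 + R / t) * n ^ 2 := mul_le_mul_of_nonneg_left hS1 hD
  have m3 : (8 * r * a * u ^ 16 - C * a ^ 2 * (1 + R / t)) * S ≤ B0 * S := mul_le_mul_of_nonneg_right hB hS0
  have m4 : 2 * n * Np ≤ 2 * n * (2 * u ^ 20 * n) := mul_le_mul_of_nonneg_left hN1 (by positivity)
  have m5 : 8 * r * a * u ^ 16 * (2 * n * Np) ≤ 8 * r * a * u ^ 16 * (2 * n * (2 * u ^ 20 * n)) :=
    mul_le_mul_of_nonneg_left m4 (by positivity)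
  -- errors
  have e1 : 1 / 2 * (8 * r * a * u ^ 16 * n) ≤ 4 * r * u * (n ^ 2 * a * u ^ 20) := by
    have h2 : u ^ 16 ≤ 1 := pow_le_one₀ h0.le h1
    calc 1 / 2 * (8 * r * a * u ^ 16 * n) = 4 * r * (n * a) * u ^ 16 := by ring
      _ ≤ 4 * r * (n * a) * 1 := mul_le_mul_of_nonneg_left h2 (by positivity)
      _ = 4 * r * (n * a) := by ring
      _ ≤ 4 * r * (u * (n ^ 2 * a * u ^ 20)) := mul_le_mul_of_nonneg_left hna (by positivity)
      _ = _ := by ring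
  have e2 : 1 / 2 * (8 * r * a * u ^ 16 * (2 * n * (2 * u ^ 20 * n))) ≤ 16 * r * u * (n ^ 2 * a * u ^ 20) := by
    have h2 := ErrB_pow h0 h1 15
    calc 1 / 2 * (8 * r * a * u ^ 16 * (2 * n * (2 * u ^ 20 * n))) = 16 * r * (n ^ 2 * a * u ^ 20) * u ^ (15 + 1) := by ring
      _ ≤ 16 * r * (n ^ 2 * a * u ^ 20) * u := mul_le_mul_of_nonneg_left h2 (by positivity)
      _ = _ := by ring
  have e3 : 1 / 2 * (C * a ^ 2 * n ^ 2) ≤ C * u * (n ^ 2 * a * u ^ 20) := by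
    have h2 : a ≤ u ^ 21 := ha1.le.trans (pow_le_pow_of_le_one h0.le h1 (by norm_num))
    have h3 : C * n ^ 2 * a * a ≤ C * n ^ 2 * a * u ^ 21 := mul_le_mul_of_nonneg_left h2 (by positivity)
    have h4 : 0 ≤ C * a ^ 2 * n ^ 2 := by positivity
    calc 1 / 2 * (C * a ^ 2 * n ^ 2) ≤ C * a ^ 2 * n ^ 2 := by linarith
      _ = C * n ^ 2 * a * a := by ring
      _ ≤ C * n ^ 2 * a * u ^ 21 := h3
      _ = _ := by ring
  have e4 : 1 / 2 * (C * a ^ 2 * (R / t) * n ^ 2) ≤ C * θ * u * (n ^ 2 * a * u ^ 20) := by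
    have h2 : R / t ≤ θ * a / t := div_le_div_of_nonneg_right hR1 ht0.le
    have h3 : θ * a / t = θ * u ^ 32 / a := by rw [ht]; field_simp
    have h4 : C * a ^ 2 * (R / t) * n ^ 2 ≤ C * a ^ 2 * (θ * u ^ 32 / a) * n ^ 2 := by
      rw [h3] at h2
      refine mul_le_mul_of_nonneg_right (mul_le_mul_of_nonneg_left h2 (by positivity)) (by positivity)
    have h5 : C * a ^ 2 * (θ * u ^ 32 / a) * n ^ 2 = C * θ * (n ^ 2 * a * u ^ 20) * u ^ (11 + 1) := by
      field_simp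
    have h6 := ErrB_pow h0 h1 11
    have h7 : C * θ * (n ^ 2 * a * u ^ 20) * u ^ (11 + 1) ≤ C * θ * (n ^ 2 * a * u ^ 20) * u :=
      mul_le_mul_of_nonneg_left h6 (by positivity)
    have h8 : 0 ≤ C * a ^ 2 * (R / t) * n ^ 2 := by positivity
    calc 1 / 2 * (C * a ^ 2 * (R / t) * n ^ 2) ≤ C * a ^ 2 * (R / t) * n ^ 2 := by linarith
      _ ≤ C * θ * (n ^ 2 * a * u ^ 20) * u := by rw [h5] at h4; exact h4.trans h7
      _ = _ := by ring
  have e0 : 4 * r / u ^ 4 * (n ^ 2 * a * u ^ 20) = 1 / 2 * (8 * r * a * u ^ 16 * n ^ 2) := by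
    field_simp
    ring
  have k1 : (4 * r / u ^ 4 - (20 * r + C + C * θ) * u) * (n ^ 2 * a * u ^ 20)
      = 1 / 2 * (8 * r * a * u ^ 16 * n ^ 2) - (4 * r * u * (n ^ 2 * a * u ^ 20) + 16 * r * u * (n ^ 2 * a * u ^ 20)
        + C * u * (n ^ 2 * a * u ^ 20) + C * θ * u * (n ^ 2 * a * u ^ 20)) := by
    rw [sub_mul, e0]; ring
  rw [k1]
  have k2 : C * a ^ 2 * (1 + R / t) * n ^ 2 = C * a ^ 2 * n ^ 2 + C * a ^ 2 * (R / t) * n ^ 2 := by ring
  have k3 : 8 * r * a * u ^ 16 * (n ^ 2 - n - 2 * n * Np)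
      = 8 * r * a * u ^ 16 * n ^ 2 - 8 * r * a * u ^ 16 * n - 8 * r * a * u ^ 16 * (2 * n * Np) := by ring
  have k4 : (8 * r * a * u ^ 16 - C * a ^ 2 * (1 + R / t)) * S
      = 8 * r * a * u ^ 16 * S - C * a ^ 2 * (1 + R / t) * S := by ring
  have k5 : 1 / 2 * B0 * S = 1 / 2 * (B0 * S) := by ring
  rw [k5]
  linarith

theorem errC {C θ : ℝ} (hC : 0 ≤ C) (hθ : 0 ≤ θ) :
    ∃ K : ℝ, 0 ≤ K ∧ ∀ u : ℝ, 0 < u → u ≤ 1 →
    ∃ a1 : ℝ, 0 < a1 ∧ ∀ (a : ℝ) (N : ℕ), 0 < a → a < a1 → (N : ℝ) * a ^ 3 = u ^ 40 →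
    ∀ t Np R B0 S : ℝ, t = (a / u ^ 16) ^ 2 → 0 ≤ Np → Np ≤ 2 * u ^ 20 * N → 0 ≤ R →
    R ≤ θ * a → 8 * Real.pi * a ^ 2 / Real.sqrt (Real.pi * t) - C * a ^ 2 * (1 + R / t) ≤ B0 →
    0 ≤ S → S ≤ N ^ 2 → (N : ℝ) ^ 2 - N - 2 * N * Np ≤ S →
    (4 * Real.sqrt Real.pi / u ^ 4 - K * u) * (N ^ 2 * a * u ^ 20) ≤ 1 / 2 * B0 * S := by
  refine ⟨20 * Real.sqrt Real.pi + C + C * θ, by positivity, fun u h0 h1 => ⟨u ^ 61, by positivity, ?_⟩⟩
  intro a N ha ha1 hn t Np R B0 S ht hN0 hN1 hR hR1 hB hS0 hS1 hS2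
  exact ErrB_main2 hC hθ h0 h1 ha ha1 hn ht hN0 hN1 hR hR1 hB hS0 hS1 hS2

end Pool.Agent.Lib.MP_4952d6_mp.LB

end

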