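import Pool.Agent.Lib.MP_4952d6_mp.Pk.G08
import Pool.Agent.Lib.MP_4952d6_mp.Pk.G09

/-! Merged modules (to save import time): HK.Defs, HK.A, HK.A2, HK.B, HK.C, HK.D, HK.H. -/

/-! ### HK.Defs -/

section

/-!
# Heat kernel on the unit torus: definitions
-/

set_option autoImplicit false
set_option linter.unusedSectionVars false
set_option linter.unusedVariables false
open MeasureTheory Function Filter Topology Set

namespace Pool.Agent.Lib.MP_4952d6_mp

/-- Gaussian kernel of `e^{sΔ}` on `ℝ³`, as a function of the radius. -/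
noncomputable def gam (s r : ℝ) : ℝ := (Real.sqrt (4 * Real.pi * s))⁻¹ ^ 3 * Real.exp (-(r ^ 2) / (4 * s))

/-- Gaussian kernel of `e^{s d²/dy²}` on `ℝ`. -/
noncomputable def gs1 (s y : ℝ) : ℝ := (Real.sqrt (4 * Real.pi * s))⁻¹ * Real.exp (-(y ^ 2) / (4 * s))

/-- First derivative of `gs1`. -/
noncomputable def gs1d (s y : ℝ) : ℝ := -(y / (2 * s)) * gs1 s y

/-- Second derivative of `gs1`. -/
noncomputable def gs1dd (s y : ℝ) : ℝ := ((y / (2 * s)) ^ 2 - 1 / (2 * s)) * gs1 s y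

/-- `gs1` and its first two derivatives (`j = 0, 1, ≥ 2`). -/
noncomputable def gsj : ℕ → ℝ → ℝ → ℝ
  | 0 => gs1
  | 1 => gs1d
  | _ => gs1dd

/-- One dimensional periodic heat kernel and its first two derivatives (`j = 0, 1, ≥ 2`). -/
noncomputable def hk1 (j : ℕ) (s y : ℝ) : ℝ := ∑' n : ℤ, gsj j s (y + n)

/-- Derivative `∂^D` (each component of `D` at most `2`) of the heat kernel of the torus. -/
noncomputable def hkD (D : Fin 3 → ℕ) (s : ℝ) (x : T3) : ℝ := ∏ α, hk1 (D α) s (crd x α)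

/-- Heat kernel of the unit torus. -/
noncomputable def hk (s : ℝ) (x : T3) : ℝ := hkD 0 s x

/-- First derivatives of the heat kernel. -/
noncomputable def dhk (α : Fin 3) (s : ℝ) (x : T3) : ℝ := hkD (Pi.single α 1) s x

/-- Second derivatives of the heat kernel. -/
noncomputable def ddhk (α β : Fin 3) (s : ℝ) (x : T3) : ℝ := hkD (Pi.single α 1 + Pi.single β 1) s x

/-- Eigenvalue of `-Δ` on the character `ch p`. -/
noncomputable def ksq (p : Fin 3 → ℤ) : ℝ := 4 * Real.pi ^ 2 * mom2 p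

/-- Component of the momentum `2 π p`. -/
noncomputable def kc (p : Fin 3 → ℤ) (α : Fin 3) : ℝ := 2 * Real.pi * (p α : ℝ)

end Pool.Agent.Lib.MP_4952d6_mp

end

/-! ### HK.A -/

section

set_option autoImplicit false
set_option linter.unusedSectionVars false
set_option linter.unusedVariables false
open MeasureTheory Function Filter Topology Set

namespace Pool.Agent.Lib.MP_4952d6_mp

/-! # HK.A: one dimensional periodic heat kernel, elementary facts

`gs1 s y = (4 π s)^(-1/2) exp(-y²/(4 s))`, `gs1d`, `gs1dd` its derivatives in `y`, `hk1 j s y = ∑ₙ gsj j s (y+n)`.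
For `s ≤ 0` everything is `0` (`Real.sqrt` of a nonpositive number is `0`). Gaussian sums: compare with
`exp(-c |n|)`; on `|y| ≤ K` all terms with large `|n|` are at most `C (1+n²) exp(-(|n|-K)²/(4s))`. -/

theorem gs1_nonneg (s y : ℝ) : 0 ≤ gs1 s y := by
  unfold gs1
  positivity

theorem gs1_hasDerivAt {s : ℝ} (hs : 0 < s) (y : ℝ) : HasDerivAt (gs1 s) (gs1d s y) y := by
  have h1 : HasDerivAt (fun z : ℝ => -(z ^ 2) / (4 * s)) (-(2 * y) / (4 * s)) y := by
    have h := ((hasDerivAt_pow 2 y).neg).div_const (4 * s)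
    simpa using h
  have h2 := (h1.exp).const_mul ((Real.sqrt (4 * Real.pi * s))⁻¹)
  refine h2.congr_deriv ?_
  unfold gs1d gs1
  field_simp
  ring

theorem gs1d_hasDerivAt {s : ℝ} (hs : 0 < s) (y : ℝ) : HasDerivAt (gs1d s) (gs1dd s y) y := by
  have h1 : HasDerivAt (fun z : ℝ => -(z / (2 * s))) (-(1 / (2 * s))) y :=
    ((hasDerivAt_id y).div_const (2 * s)).neg
  have h2 := h1.mul (gs1_hasDerivAt hs y)
  refine h2.congr_deriv ?_
  unfold gs1dd gs1d
  ring

theorem gs1_hasDerivAt_time {s : ℝ} (hs : 0 < s) (y : ℝ) :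
    HasDerivAt (fun t => gs1 t y) (gs1dd s y) s := by
  have hpi := Real.pi_pos
  have hpos : 0 < 4 * Real.pi * s := by positivity
  have hsq : 0 < Real.sqrt (4 * Real.pi * s) := Real.sqrt_pos.2 hpos
  have h0 : HasDerivAt (fun t : ℝ => 4 * Real.pi * t) (4 * Real.pi) s := by
    simpa using (hasDerivAt_id s).const_mul (4 * Real.pi)
  have h1 := (h0.sqrt hpos.ne').inv hsq.ne'
  have h2 : HasDerivAt (fun t : ℝ => 4 * t) 4 s := by
    simpa using (hasDerivAt_id s).const_mul (4 : ℝ)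
  have h3 : HasDerivAt (fun t : ℝ => -(y ^ 2) / (4 * t)) (y ^ 2 / (4 * s ^ 2)) s := by
    have h := (hasDerivAt_const s (-(y ^ 2))).div h2 (by positivity)
    refine h.congr_deriv ?_
    field_simp
    ring
  have h4 := h1.mul h3.exp
  refine h4.congr_deriv ?_
  unfold gs1dd gs1
  have hss : Real.sqrt (4 * Real.pi * s) ^ 2 = 4 * Real.pi * s := Real.sq_sqrt hpos.le
  have hinv : (fun y => Real.sqrt (4 * Real.pi * y))⁻¹ s = (Real.sqrt (4 * Real.pi * s))⁻¹ := rfl
  rw [hss, hinv]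
  field_simp
  ring

/-- `gs1 s` splits off a factor of `gs1 (2 s)` -/
theorem HKA_split {s : ℝ} (hs : 0 < s) (y : ℝ) :
    gs1 s y = Real.sqrt 2 * Real.exp (-(y ^ 2 / (8 * s))) * gs1 (2 * s) y := by
  unfold gs1
  have h1 : Real.sqrt (4 * Real.pi * (2 * s)) = Real.sqrt 2 * Real.sqrt (4 * Real.pi * s) := by
    rw [← Real.sqrt_mul (by norm_num)]
    congr 1
    ring
  have h2 : Real.exp (-(y ^ 2) / (4 * s)) = Real.exp (-(y ^ 2 / (8 * s))) * Real.exp (-(y ^ 2) / (4 * (2 * s))) := by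
    rw [← Real.exp_add]
    congr 1
    field_simp
    ring
  rw [h1, h2, mul_inv]
  have h3 : Real.sqrt 2 ≠ 0 := by positivity
  field_simp

theorem HKA_exp (v : ℝ) (hv : 0 ≤ v) : (2 * v + 1 / 2) * Real.exp (-v) * Real.sqrt 2 ≤ 2 := by
  have h1 : 1 + v + v ^ 2 / 2 ≤ Real.exp v := Real.quadratic_le_exp_of_nonneg hv
  have h2 : Real.sqrt 2 ≤ 3 / 2 := by
    rw [Real.sqrt_le_left (by norm_num)]
    norm_num
  have h3 : Real.exp (-v) * Real.exp v = 1 := by
    rw [← Real.exp_add]; simp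
  have h4 : 0 < Real.exp (-v) := Real.exp_pos _
  have h5 : (2 * v + 1 / 2) * (3 / 2) ≤ 2 * Real.exp v := by
    nlinarith [sq_nonneg (v - 1 / 2)]
  calc (2 * v + 1 / 2) * Real.exp (-v) * Real.sqrt 2
      ≤ (2 * v + 1 / 2) * Real.exp (-v) * (3 / 2) := by
        apply mul_le_mul_of_nonneg_left h2
        positivity
    _ = ((2 * v + 1 / 2) * (3 / 2)) * Real.exp (-v) := by ring
    _ ≤ (2 * Real.exp v) * Real.exp (-v) := mul_le_mul_of_nonneg_right h5 h4.le
    _ = 2 := by rw [mul_assoc, mul_comm (Real.exp v), h3]; ring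

/-- pointwise bounds: maximum of `|y| exp(-y²/8s)` is `2 √s e^{-1/2}`, of `y² exp(-y²/8s)` is `8 s / e` -/
theorem gs1d_le {s : ℝ} (hs : 0 < s) (y : ℝ) : |gs1d s y| ≤ 2 / Real.sqrt s * gs1 (2 * s) y := by
  have hq : 0 < Real.sqrt s := Real.sqrt_pos.2 hs
  have hqq : Real.sqrt s ^ 2 = s := Real.sq_sqrt hs.le
  unfold gs1d
  rw [HKA_split hs y, abs_mul, abs_neg, abs_div, abs_of_pos (by positivity : (0:ℝ) < 2 * s)]
  have hg := gs1_nonneg (2 * s) y
  rw [abs_of_nonneg (by positivity : (0:ℝ) ≤ Real.sqrt 2 * Real.exp (-(y ^ 2 / (8 * s))) * gs1 (2 * s) y)]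
  rw [← mul_assoc]
  apply mul_le_mul_of_nonneg_right _ hg
  have hv : 0 ≤ y ^ 2 / (8 * s) := by positivity
  have h1 := HKA_exp _ hv
  have h2 : |y| / (2 * s) ≤ (2 * (y ^ 2 / (8 * s)) + 1 / 2) / Real.sqrt s := by
    rw [div_le_div_iff₀ (by positivity) hq]
    have h3 : (2 * (y ^ 2 / (8 * s)) + 1 / 2) * (2 * s) = y ^ 2 / 2 + s := by
      field_simp
      ring
    rw [h3]
    have h4 : |y| ^ 2 = y ^ 2 := sq_abs y
    nlinarith [sq_nonneg (|y| - Real.sqrt s)]
  calc |y| / (2 * s) * (Real.sqrt 2 * Real.exp (-(y ^ 2 / (8 * s))))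
      ≤ (2 * (y ^ 2 / (8 * s)) + 1 / 2) / Real.sqrt s * (Real.sqrt 2 * Real.exp (-(y ^ 2 / (8 * s)))) := by
        apply mul_le_mul_of_nonneg_right h2
        positivity
    _ = ((2 * (y ^ 2 / (8 * s)) + 1 / 2) * Real.exp (-(y ^ 2 / (8 * s))) * Real.sqrt 2) / Real.sqrt s := by
        ring
    _ ≤ 2 / Real.sqrt s := by
        apply div_le_div_of_nonneg_right h1 hq.le

theorem gs1dd_le {s : ℝ} (hs : 0 < s) (y : ℝ) : |gs1dd s y| ≤ 2 / s * gs1 (2 * s) y := by
  unfold gs1dd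
  rw [HKA_split hs y, abs_mul]
  have hg := gs1_nonneg (2 * s) y
  rw [abs_of_nonneg (by positivity : (0:ℝ) ≤ Real.sqrt 2 * Real.exp (-(y ^ 2 / (8 * s))) * gs1 (2 * s) y)]
  rw [← mul_assoc]
  apply mul_le_mul_of_nonneg_right _ hg
  have hv : 0 ≤ y ^ 2 / (8 * s) := by positivity
  have h1 := HKA_exp _ hv
  have h2 : |(y / (2 * s)) ^ 2 - 1 / (2 * s)| ≤ (2 * (y ^ 2 / (8 * s)) + 1 / 2) / s := by
    have e1 : (y / (2 * s)) ^ 2 = (2 * (y ^ 2 / (8 * s))) / s := by
      field_simp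
      ring
    have e2 : 1 / (2 * s) = (1 / 2) / s := by
      field_simp
    rw [e1, e2, ← sub_div, abs_div, abs_of_pos hs]
    apply div_le_div_of_nonneg_right _ hs.le
    rw [abs_le]
    constructor <;> linarith
  calc |(y / (2 * s)) ^ 2 - 1 / (2 * s)| * (Real.sqrt 2 * Real.exp (-(y ^ 2 / (8 * s))))
      ≤ (2 * (y ^ 2 / (8 * s)) + 1 / 2) / s * (Real.sqrt 2 * Real.exp (-(y ^ 2 / (8 * s)))) := by
        apply mul_le_mul_of_nonneg_right h2
        positivity
    _ = ((2 * (y ^ 2 / (8 * s)) + 1 / 2) * Real.exp (-(y ^ 2 / (8 * s))) * Real.sqrt 2) / s := by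
        ring
    _ ≤ 2 / s := by
        apply div_le_div_of_nonneg_right h1 hs.le

/-- `s ≤ r`: `gs1 s ≤ √(r/s) gs1 r`. -/
theorem gs1_le_gs1 {s r : ℝ} (hs : 0 < s) (hsr : s ≤ r) (y : ℝ) :
    gs1 s y ≤ Real.sqrt (r / s) * gs1 r y := by
  have hr : 0 < r := lt_of_lt_of_le hs hsr
  have hpi := Real.pi_pos
  unfold gs1
  have h1 : Real.sqrt (r / s) * (Real.sqrt (4 * Real.pi * r))⁻¹ = (Real.sqrt (4 * Real.pi * s))⁻¹ := by
    rw [← Real.sqrt_inv, ← Real.sqrt_mul (by positivity), ← Real.sqrt_inv]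
    congr 1
    field_simp
  rw [← mul_assoc, h1]
  apply mul_le_mul_of_nonneg_left _ (by positivity)
  apply Real.exp_le_exp.2
  rw [neg_div, neg_div, neg_le_neg_iff]
  apply div_le_div_of_nonneg_left (sq_nonneg y) (by positivity)
  linarith

end Pool.Agent.Lib.MP_4952d6_mp

end

/-! ### HK.A2 -/

section

set_option autoImplicit false
set_option linter.unusedSectionVars false
set_option linter.unusedVariables false
open MeasureTheory Function Filter Topology Set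

namespace Pool.Agent.Lib.MP_4952d6_mp

/-! # HK.A2: one dimensional periodic heat kernel: sums over images

Gaussian sums: on `|y| ≤ K` all terms are at most `C (1+n²) exp(-(|n|-K)₊²/(4s))`; compare with `exp(-c|n|)`.
`tsum` is invariant under the shift `Equiv.addRight m` of `ℤ` and under `Equiv.neg ℤ`. -/

theorem HKA2_gs1_summable {s : ℝ} (hs : 0 < s) (y : ℝ) : Summable fun n : ℤ => gs1 s (y + n) := by
  have hpi := Real.pi_pos
  have hT : 0 < 1 / (4 * Real.pi * s) := by positivity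
  have h1 := summable_pow_mul_jacobiTheta₂_term_bound (|y| / (4 * Real.pi * s)) hT 0
  refine Summable.of_norm_bounded (h1.mul_left (Real.sqrt (4 * Real.pi * s))⁻¹) (fun n => ?_)
  rw [Real.norm_eq_abs, abs_of_nonneg (gs1_nonneg s (y + n))]
  unfold gs1
  refine mul_le_mul_of_nonneg_left ?_ (by positivity)
  rw [pow_zero, one_mul]
  refine Real.exp_le_exp.mpr ?_
  have e : -Real.pi * (1 / (4 * Real.pi * s) * (n : ℝ) ^ 2 - 2 * (|y| / (4 * Real.pi * s)) * ((|n| : ℤ) : ℝ))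
      = -((n : ℝ) ^ 2 - 2 * |y| * |(n : ℝ)|) / (4 * s) := by
    rw [Int.cast_abs]
    field_simp
  rw [e]
  refine div_le_div_of_nonneg_right ?_ (by positivity)
  have h2 : -(|y| * |(n : ℝ)|) ≤ y * n := by
    rw [← abs_mul]
    exact neg_abs_le _
  nlinarith [sq_nonneg y]

theorem gsj_summable {s : ℝ} (hs : 0 < s) (j : ℕ) (y : ℝ) :
    Summable fun n : ℤ => gsj j s (y + n) := by
  have h2s : 0 < 2 * s := by positivity
  match j with
  | 0 => exact HKA2_gs1_summable hs y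
  | 1 =>
    exact Summable.of_norm_bounded ((HKA2_gs1_summable h2s y).mul_left (2 / Real.sqrt s))
      (fun n => gs1d_le hs (y + n))
  | (k + 2) =>
    exact Summable.of_norm_bounded ((HKA2_gs1_summable h2s y).mul_left (2 / s))
      (fun n => gs1dd_le hs (y + n))

theorem hk1_add_int (j : ℕ) (s y : ℝ) (m : ℤ) : hk1 j s (y + m) = hk1 j s y := by
  unfold hk1
  rw [← (Equiv.addLeft m).tsum_eq (fun n : ℤ => gsj j s (y + n))]
  refine tsum_congr (fun n => ?_)
  simp only [Equiv.coe_addLeft, Int.cast_add]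
  rw [add_assoc]

theorem hk1_pos {s : ℝ} (hs : 0 < s) (y : ℝ) : 0 < hk1 0 s y := by
  have hpi := Real.pi_pos
  refine (gsj_summable hs 0 y).tsum_pos (fun n => gs1_nonneg s (y + n)) 0 ?_
  show 0 < gs1 s (y + ((0 : ℤ) : ℝ))
  unfold gs1
  positivity

theorem hk1_nonneg (s y : ℝ) : 0 ≤ hk1 0 s y := by
  exact tsum_nonneg (fun n => gs1_nonneg s (y + n))

theorem HKA2_tsum_neg (f : ℝ → ℝ) (y : ℝ) : ∑' n : ℤ, f (-y + n) = ∑' n : ℤ, f (-(y + n)) := by
  rw [← (Equiv.neg ℤ).tsum_eq (fun n : ℤ => f (-y + n))]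
  refine tsum_congr (fun n => ?_)
  simp only [Equiv.neg_apply, Int.cast_neg]
  congr 1
  ring

theorem hk1_neg (s y : ℝ) : hk1 0 s (-y) = hk1 0 s y := by
  unfold hk1
  rw [HKA2_tsum_neg (gsj 0 s) y]
  refine tsum_congr (fun n => ?_)
  show gs1 s (-(y + n)) = gs1 s (y + n)
  unfold gs1
  rw [neg_sq]

theorem HKA2_gs1_neg (s y : ℝ) : gs1 s (-y) = gs1 s y := by
  unfold gs1
  rw [neg_sq]

theorem hk1_neg_one (s y : ℝ) : hk1 1 s (-y) = - hk1 1 s y := by
  unfold hk1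
  rw [HKA2_tsum_neg (gsj 1 s) y, ← tsum_neg]
  refine tsum_congr (fun n => ?_)
  show gs1d s (-(y + n)) = -gs1d s (y + n)
  unfold gs1d
  rw [HKA2_gs1_neg]
  ring

theorem hk1_neg_two (s y : ℝ) : hk1 2 s (-y) = hk1 2 s y := by
  unfold hk1
  rw [HKA2_tsum_neg (gsj 2 s) y]
  refine tsum_congr (fun n => ?_)
  show gs1dd s (-(y + n)) = gs1dd s (y + n)
  unfold gs1dd
  rw [HKA2_gs1_neg]
  ring

theorem hk1_one_le {s : ℝ} (hs : 0 < s) (y : ℝ) :
    |hk1 1 s y| ≤ 2 / Real.sqrt s * hk1 0 (2 * s) y := by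
  have h2s : 0 < 2 * s := by positivity
  have h := ((gsj_summable h2s 0 y).hasSum).mul_left (2 / Real.sqrt s)
  exact tsum_of_norm_bounded (f := fun n : ℤ => gsj 1 s (y + n)) h (fun n => gs1d_le hs (y + n))

theorem hk1_two_le {s : ℝ} (hs : 0 < s) (y : ℝ) : |hk1 2 s y| ≤ 2 / s * hk1 0 (2 * s) y := by
  have h2s : 0 < 2 * s := by positivity
  have h := ((gsj_summable h2s 0 y).hasSum).mul_left (2 / s)
  exact tsum_of_norm_bounded (f := fun n : ℤ => gsj 2 s (y + n)) h (fun n => gs1dd_le hs (y + n))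

theorem hk1_le_hk1 {s r : ℝ} (hs : 0 < s) (hsr : s ≤ r) (y : ℝ) :
    hk1 0 s y ≤ Real.sqrt (r / s) * hk1 0 r y := by
  have hr : 0 < r := hs.trans_le hsr
  unfold hk1
  rw [← tsum_mul_left]
  exact (gsj_summable hs 0 y).tsum_le_tsum (fun n => gs1_le_gs1 hs hsr (y + n))
    ((gsj_summable hr 0 y).mul_left _)

theorem hk1_of_nonpos {s : ℝ} (hs : s ≤ 0) (j : ℕ) (y : ℝ) : hk1 j s y = 0 := by
  have hpi := Real.pi_pos
  have h0 : ∀ x, gs1 s x = 0 := by
    intro x
    unfold gs1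
    rw [Real.sqrt_eq_zero_of_nonpos (by nlinarith), inv_zero, zero_mul]
  have h1 : ∀ x, gsj j s x = 0 := by
    intro x
    match j with
    | 0 => exact h0 x
    | 1 =>
      show gs1d s x = 0
      unfold gs1d
      rw [h0, mul_zero]
    | (k + 2) =>
      show gs1dd s x = 0
      unfold gs1dd
      rw [h0, mul_zero]
  unfold hk1
  simp only [h1, tsum_zero]

end Pool.Agent.Lib.MP_4952d6_mp

end

/-! ### HK.B -/

section

set_option autoImplicit false
set_option linter.unusedSectionVars false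
set_option linter.unusedVariables false
open MeasureTheory Function Filter Topology Set

namespace Pool.Agent.Lib.MP_4952d6_mp

/-! # HK.B: regularity of the one dimensional periodic heat kernel

Termwise differentiation (`hasDerivAt_tsum` on a neighbourhood, dominated by a summable sequence). -/

theorem HKB_gs1_dom {a b s z : ℝ} (ha : 0 < a) (has : a ≤ s) (hsb : s ≤ b) :
    gs1 s z ≤ Real.sqrt (b / a) * gs1 b z := by
  have hs : 0 < s := lt_of_lt_of_le ha has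
  refine (gs1_le_gs1 hs hsb z).trans ?_
  refine mul_le_mul_of_nonneg_right ?_ (gs1_nonneg b z)
  refine Real.sqrt_le_sqrt ?_
  exact div_le_div_of_nonneg_left (hs.le.trans hsb) ha has

theorem HKB_gsj_dom {a b : ℝ} (ha : 0 < a) (hab : a ≤ b) : ∃ C : ℝ, 0 ≤ C ∧
    ∀ (j : ℕ) (s z : ℝ), a ≤ s → s ≤ b → |gsj j s z| ≤ C * gs1 (2 * b) z := by
  have hb : 0 < b := lt_of_lt_of_le ha hab
  have hsa : 0 < Real.sqrt a := Real.sqrt_pos.2 ha
  set q : ℝ := Real.sqrt (2 * b / a) with hq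
  have hq0 : 0 ≤ q := Real.sqrt_nonneg _
  refine ⟨q + 2 / Real.sqrt a * q + 2 / a * q, by positivity, fun j s z has hsb => ?_⟩
  have hs : 0 < s := lt_of_lt_of_le ha has
  have hg0 : 0 ≤ gs1 (2 * b) z := gs1_nonneg _ _
  have h1 : gs1 s z ≤ q * gs1 (2 * b) z := HKB_gs1_dom ha has (by linarith)
  have h2 : gs1 (2 * s) z ≤ q * gs1 (2 * b) z := HKB_gs1_dom ha (by linarith) (by linarith)
  have e1 : 0 ≤ 2 / Real.sqrt a * q * gs1 (2 * b) z := by positivity
  have e2 : 0 ≤ 2 / a * q * gs1 (2 * b) z := by positivity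
  have e0 : 0 ≤ q * gs1 (2 * b) z := by positivity
  match j with
  | 0 =>
    show |gs1 s z| ≤ _
    rw [abs_of_nonneg (gs1_nonneg s z)]
    nlinarith
  | 1 =>
    show |gs1d s z| ≤ _
    have h3 := gs1d_le hs z
    have h4 : 2 / Real.sqrt s * gs1 (2 * s) z ≤ 2 / Real.sqrt a * (q * gs1 (2 * b) z) := by
      refine mul_le_mul ?_ h2 (gs1_nonneg _ _) (by positivity)
      exact div_le_div_of_nonneg_left (by norm_num) hsa (Real.sqrt_le_sqrt has)
    nlinarith
  | (n + 2) =>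
    show |gs1dd s z| ≤ _
    have h3 := gs1dd_le hs z
    have h4 : 2 / s * gs1 (2 * s) z ≤ 2 / a * (q * gs1 (2 * b) z) := by
      refine mul_le_mul ?_ h2 (gs1_nonneg _ _) (by positivity)
      exact div_le_div_of_nonneg_left (by norm_num) ha has
    nlinarith

theorem HKB_shift {r K y : ℝ} (hr : 0 < r) (hy : |y| ≤ K) (n : ℤ) :
    gs1 r (y + n) ≤ ((Real.sqrt (4 * Real.pi * r))⁻¹ * Real.exp (K ^ 2 / (4 * r)) *
      Real.sqrt (4 * Real.pi * (2 * r))) * gs1 (2 * r) (0 + n) := by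
  have hpi := Real.pi_pos
  have h1 : 0 < Real.sqrt (4 * Real.pi * (2 * r)) := Real.sqrt_pos.2 (by positivity)
  have h2 : Real.exp (-((y + n) ^ 2) / (4 * r)) ≤
      Real.exp (K ^ 2 / (4 * r)) * Real.exp (-((0 + (n : ℝ)) ^ 2) / (4 * (2 * r))) := by
    rw [← Real.exp_add, Real.exp_le_exp, ← sub_nonneg]
    have h3 : K ^ 2 / (4 * r) + -((0 + (n : ℝ)) ^ 2) / (4 * (2 * r)) - -((y + n) ^ 2) / (4 * r) =
        (2 * K ^ 2 - (n : ℝ) ^ 2 + 2 * (y + n) ^ 2) / (8 * r) := by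
      field_simp
      ring
    rw [h3]
    have hy2 : y ^ 2 ≤ K ^ 2 := by
      rw [← sq_abs y]
      exact pow_le_pow_left₀ (abs_nonneg y) hy 2
    refine div_nonneg ?_ (by positivity)
    nlinarith [sq_nonneg (2 * y + n)]
  unfold gs1
  calc (Real.sqrt (4 * Real.pi * r))⁻¹ * Real.exp (-((y + n) ^ 2) / (4 * r))
      ≤ (Real.sqrt (4 * Real.pi * r))⁻¹ * (Real.exp (K ^ 2 / (4 * r)) *
        Real.exp (-((0 + (n : ℝ)) ^ 2) / (4 * (2 * r)))) :=
        mul_le_mul_of_nonneg_left h2 (by positivity)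
    _ = _ := by
        field_simp

/-- domination of the image sums, locally uniformly -/
theorem HKB_dom {a b : ℝ} (ha : 0 < a) (hab : a ≤ b) (K : ℝ) : ∃ u : ℤ → ℝ, Summable u ∧
    ∀ (j : ℕ) (s y : ℝ) (n : ℤ), a ≤ s → s ≤ b → |y| ≤ K → |gsj j s (y + n)| ≤ u n := by
  have hb : 0 < b := lt_of_lt_of_le ha hab
  obtain ⟨C, hC0, hC⟩ := HKB_gsj_dom ha hab
  refine ⟨fun n => C * (((Real.sqrt (4 * Real.pi * (2 * b)))⁻¹ * Real.exp (K ^ 2 / (4 * (2 * b))) *
      Real.sqrt (4 * Real.pi * (2 * (2 * b)))) * gs1 (2 * (2 * b)) (0 + n)), ?_, ?_⟩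
  · exact ((gsj_summable (s := 2 * (2 * b)) (by positivity) 0 0).mul_left _).mul_left C
  · intro j s y n has hsb hy
    refine (hC j s _ has hsb).trans ?_
    exact mul_le_mul_of_nonneg_left (HKB_shift (by positivity) hy n) hC0

theorem HKB_deriv {s : ℝ} (hs : 0 < s) (y : ℝ) (j : ℕ)
    (h : ∀ z, HasDerivAt (gsj j s) (gsj (j + 1) s z) z) :
    HasDerivAt (hk1 j s) (hk1 (j + 1) s y) y := by
  obtain ⟨u, hu, hdom⟩ := HKB_dom hs le_rfl (|y| + 1)
  have hmem : ∀ z ∈ Ioo (y - 1) (y + 1), |z| ≤ |y| + 1 := by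
    intro z hz
    have h1 : |z - y| ≤ 1 := by
      rw [abs_le]
      constructor <;> linarith [hz.1, hz.2]
    have h2 : |z| ≤ |z - y| + |y| := by
      have := abs_add_le (z - y) y
      rwa [sub_add_cancel] at this
    linarith
  have hy : y ∈ Ioo (y - 1) (y + 1) := ⟨by linarith, by linarith⟩
  exact hasDerivAt_tsum_of_isPreconnected (g := fun (n : ℤ) z => gsj j s (z + n))
    (g' := fun (n : ℤ) z => gsj (j + 1) s (z + n)) hu isOpen_Ioo isPreconnected_Ioo
    (fun n z _ => (h (z + n)).comp_add_const z n)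
    (fun n z hz => hdom (j + 1) s z n le_rfl le_rfl (hmem z hz)) hy (gsj_summable hs j y) hy

theorem hk1_hasDerivAt {s : ℝ} (hs : 0 < s) (y : ℝ) : HasDerivAt (hk1 0 s) (hk1 1 s y) y :=
  HKB_deriv hs y 0 (gs1_hasDerivAt hs)

theorem hk1d_hasDerivAt {s : ℝ} (hs : 0 < s) (y : ℝ) : HasDerivAt (hk1 1 s) (hk1 2 s y) y :=
  HKB_deriv hs y 1 (gs1d_hasDerivAt hs)

theorem hk1_hasDerivAt_time {s : ℝ} (hs : 0 < s) (y : ℝ) :
    HasDerivAt (fun t => hk1 0 t y) (hk1 2 s y) s := by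
  obtain ⟨u, hu, hdom⟩ := HKB_dom (a := s / 2) (b := 2 * s) (by positivity) (by linarith) |y|
  have hmem : s ∈ Ioo (s / 2) (2 * s) := ⟨by linarith, by linarith⟩
  exact hasDerivAt_tsum_of_isPreconnected (g := fun (n : ℤ) t => gsj 0 t (y + n))
    (g' := fun (n : ℤ) t => gsj 2 t (y + n)) hu isOpen_Ioo isPreconnected_Ioo
    (fun n t ht => gs1_hasDerivAt_time (by linarith [ht.1]) (y + n))
    (fun n t ht => hdom 2 t y n ht.1.le ht.2.le le_rfl) hmem (gsj_summable hs 0 y) hmem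

theorem HKB_gs1_cont : ContinuousOn (fun q : ℝ × ℝ => gs1 q.1 q.2) (Ioi (0:ℝ) ×ˢ univ) := by
  unfold gs1
  have h1 : ContinuousOn (fun q : ℝ × ℝ => Real.sqrt (4 * Real.pi * q.1)) (Ioi (0:ℝ) ×ˢ univ) :=
    (Real.continuous_sqrt.comp (continuous_const.mul continuous_fst)).continuousOn
  refine (h1.inv₀ fun q hq => ?_).mul (Real.continuous_exp.comp_continuousOn ?_)
  · have hq0 : 0 < q.1 := hq.1
    have hpi := Real.pi_pos
    exact (Real.sqrt_pos.2 (by positivity)).ne'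
  · refine ContinuousOn.div ((continuous_snd.pow 2).neg).continuousOn
      (continuous_const.mul continuous_fst).continuousOn fun q hq => ?_
    have hq0 : 0 < q.1 := hq.1
    exact (by positivity : (0 : ℝ) < 4 * q.1).ne'

theorem HKB_gsj_cont (j : ℕ) :
    ContinuousOn (fun q : ℝ × ℝ => gsj j q.1 q.2) (Ioi (0:ℝ) ×ˢ univ) := by
  have hd : ContinuousOn (fun q : ℝ × ℝ => q.2 / (2 * q.1)) (Ioi (0:ℝ) ×ˢ univ) := by
    refine ContinuousOn.div continuous_snd.continuousOn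
      (continuous_const.mul continuous_fst).continuousOn fun q hq => ?_
    have hq0 : 0 < q.1 := hq.1
    exact (by positivity : (0 : ℝ) < 2 * q.1).ne'
  have hd1 : ContinuousOn (fun q : ℝ × ℝ => 1 / (2 * q.1)) (Ioi (0:ℝ) ×ˢ univ) := by
    refine ContinuousOn.div continuousOn_const
      (continuous_const.mul continuous_fst).continuousOn fun q hq => ?_
    have hq0 : 0 < q.1 := hq.1
    exact (by positivity : (0 : ℝ) < 2 * q.1).ne'
  match j with
  | 0 => exact HKB_gs1_cont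
  | 1 => exact hd.neg.mul HKB_gs1_cont
  | (n + 2) => exact ((hd.pow 2).sub hd1).mul HKB_gs1_cont

theorem hk1_continuousOn (j : ℕ) :
    ContinuousOn (fun q : ℝ × ℝ => hk1 j q.1 q.2) (Ioi (0:ℝ) ×ˢ univ) := by
  intro q hq
  have hq0 : 0 < q.1 := hq.1
  apply ContinuousAt.continuousWithinAt
  obtain ⟨u, hu, hdom⟩ := HKB_dom (a := q.1 / 2) (b := 2 * q.1) (by positivity) (by linarith)
    (|q.2| + 1)
  have hopen : IsOpen (Ioo (q.1 / 2) (2 * q.1) ×ˢ Ioo (q.2 - 1) (q.2 + 1)) :=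
    isOpen_Ioo.prod isOpen_Ioo
  have hmem : q ∈ Ioo (q.1 / 2) (2 * q.1) ×ˢ Ioo (q.2 - 1) (q.2 + 1) :=
    ⟨⟨by linarith, by linarith⟩, ⟨by linarith, by linarith⟩⟩
  have hcont : ContinuousOn (fun q : ℝ × ℝ => ∑' n : ℤ, gsj j q.1 (q.2 + n))
      (Ioo (q.1 / 2) (2 * q.1) ×ˢ Ioo (q.2 - 1) (q.2 + 1)) := by
    refine continuousOn_tsum (u := u) (fun n => ?_) hu (fun n x hx => ?_)
    · have h1 : ContinuousOn (fun q : ℝ × ℝ => ((q.1, q.2 + n) : ℝ × ℝ))
          (Ioo (q.1 / 2) (2 * q.1) ×ˢ Ioo (q.2 - 1) (q.2 + 1)) :=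
        (continuous_fst.prodMk (continuous_snd.add continuous_const)).continuousOn
      refine (HKB_gsj_cont j).comp h1 fun x hx => ?_
      refine ⟨?_, mem_univ _⟩
      show 0 < x.1
      linarith [hx.1.1]
    · refine hdom j x.1 x.2 n hx.1.1.le hx.1.2.le ?_
      have h1 : |x.2 - q.2| ≤ 1 := by
        rw [abs_le]
        constructor <;> linarith [hx.2.1, hx.2.2]
      have h2 : |x.2| ≤ |x.2 - q.2| + |q.2| := by
        have := abs_add_le (x.2 - q.2) q.2
        rwa [sub_add_cancel] at this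
      linarith
  exact hcont.continuousAt (hopen.mem_nhds hmem)

theorem hk1_measurable (j : ℕ) : Measurable (fun q : ℝ × ℝ => hk1 j q.1 q.2) := by
  classical
  have h1 : (fun q : ℝ × ℝ => hk1 j q.1 q.2) =
      (Ioi (0:ℝ) ×ˢ (univ : Set ℝ)).piecewise (fun q : ℝ × ℝ => hk1 j q.1 q.2) (fun _ => 0) := by
    funext q
    by_cases hq : q ∈ Ioi (0:ℝ) ×ˢ (univ : Set ℝ)
    · rw [Set.piecewise_eq_of_mem _ _ _ hq]
    · rw [Set.piecewise_eq_of_notMem _ _ _ hq]
      refine hk1_of_nonpos ?_ j q.2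
      by_contra hcon
      exact hq ⟨not_le.1 hcon, mem_univ _⟩
  rw [h1]
  exact (hk1_continuousOn j).measurable_piecewise continuousOn_const
    (measurableSet_Ioi.prod MeasurableSet.univ)

/-- bounded derivative of any order, `s > 0` fixed (periodic continuous functions are bounded). -/
theorem hk1_bdd {s : ℝ} (hs : 0 < s) (j : ℕ) : ∃ C, ∀ y, |hk1 j s y| ≤ C := by
  obtain ⟨u, hu, hdom⟩ := HKB_dom hs le_rfl 1
  refine ⟨∑' n, u n, fun y => ?_⟩
  have h1 : hk1 j s y = hk1 j s (Int.fract y) := by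
    have h2 := hk1_add_int j s (Int.fract y) ⌊y⌋
    rw [Int.fract_add_floor] at h2
    exact h2
  rw [h1]
  have h3 : |Int.fract y| ≤ 1 := by
    rw [abs_of_nonneg (Int.fract_nonneg y)]
    exact (Int.fract_lt_one y).le
  exact tsum_of_norm_bounded (f := fun n : ℤ => gsj j s (Int.fract y + n)) hu.hasSum
    fun n => hdom j s _ n le_rfl le_rfl h3

end Pool.Agent.Lib.MP_4952d6_mp

end

/-! ### HK.C -/

section

set_option autoImplicit false
set_option linter.unusedSectionVars false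
set_option linter.unusedVariables false
open MeasureTheory Function Filter Topology Set

namespace Pool.Agent.Lib.MP_4952d6_mp

/-! # HK.C: Poisson summation for the one dimensional periodic heat kernel

`Complex.tsum_exp_neg_quadratic` with `a = 4 π s`, `b = i y`. -/

/-- Gaussian Fourier coefficients. -/
noncomputable def HKC_T (s : ℝ) (k : ℤ) : ℝ := Real.exp (-(s * (2 * Real.pi * k) ^ 2))

theorem HKC_T_pos (s : ℝ) (k : ℤ) : 0 < HKC_T s k := Real.exp_pos _

theorem HKC_T_zero (s : ℝ) : HKC_T s 0 = 1 := by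
  simp [HKC_T]

theorem HKC_T_neg (s : ℝ) (k : ℤ) : HKC_T s (-k) = HKC_T s k := by
  unfold HKC_T
  push_cast
  ring_nf

/-- comparison with a geometric series -/
theorem HKC_T_le {s : ℝ} (hs : 0 < s) (n : ℕ) :
    HKC_T s (n : ℤ) ≤ Real.exp (-(36 * s)) ^ n := by
  unfold HKC_T
  rw [← Real.exp_nat_mul, Real.exp_le_exp]
  have hpi : 3 < Real.pi := Real.pi_gt_three
  have hn : (n : ℝ) ≤ (n : ℝ) ^ 2 := by
    rcases Nat.eq_zero_or_pos n with h | h
    · subst h; norm_num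
    · have : (1 : ℝ) ≤ n := by exact_mod_cast h
      nlinarith
  have h1 : (36 : ℝ) * n ≤ (2 * Real.pi * n) ^ 2 := by
    have e : (2 * Real.pi * n) ^ 2 = 4 * Real.pi ^ 2 * (n : ℝ) ^ 2 := by ring
    rw [e]
    have h2 : (36 : ℝ) ≤ 4 * Real.pi ^ 2 := by nlinarith
    have h3 : (0 : ℝ) ≤ (n : ℝ) ^ 2 := by positivity
    nlinarith
  push_cast
  nlinarith

theorem HKC_r_lt {s : ℝ} (hs : 0 < s) : Real.exp (-(36 * s)) < 1 := by
  rw [Real.exp_lt_one_iff]
  linarith

theorem HKC_T_summable_nat {s : ℝ} (hs : 0 < s) : Summable (fun n : ℕ => HKC_T s (n : ℤ)) :=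
  Summable.of_nonneg_of_le (fun n => (HKC_T_pos s n).le) (fun n => HKC_T_le hs n)
    (summable_geometric_of_lt_one (Real.exp_pos _).le (HKC_r_lt hs))

theorem HKC_T_summable {s : ℝ} (hs : 0 < s) : Summable (HKC_T s) := by
  refine Summable.of_nat_of_neg (HKC_T_summable_nat hs) ?_
  have h : (fun n : ℕ => HKC_T s (-(n : ℤ))) = fun n : ℕ => HKC_T s (n : ℤ) :=
    funext fun n => HKC_T_neg s n
  rw [h]
  exact HKC_T_summable_nat hs

theorem HKC_T_succ_summable {s : ℝ} (hs : 0 < s) :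
    Summable (fun n : ℕ => HKC_T s ((n : ℤ) + 1)) := by
  have h := (summable_nat_add_iff (f := fun n : ℕ => HKC_T s (n : ℤ)) 1).2 (HKC_T_summable_nat hs)
  have e : (fun n : ℕ => HKC_T s (((n + 1 : ℕ)) : ℤ)) = fun n : ℕ => HKC_T s ((n : ℤ) + 1) :=
    funext fun n => by push_cast; rfl
  rw [← e]
  exact h

theorem HKC_T_hasSum {s : ℝ} (hs : 0 < s) :
    HasSum (HKC_T s) (1 + 2 * ∑' n : ℕ, HKC_T s ((n : ℤ) + 1)) := by
  set A := ∑' n : ℕ, HKC_T s ((n : ℤ) + 1) with hA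
  have h1 : HasSum (fun n : ℕ => HKC_T s ((n : ℤ) + 1)) A := (HKC_T_succ_summable hs).hasSum
  have h2 : HasSum (fun n : ℕ => HKC_T s (n : ℤ)) (1 + A) := by
    refine (hasSum_nat_add_iff' (f := fun n : ℕ => HKC_T s (n : ℤ)) 1).1 ?_
    have e : (1 + A) - ∑ i ∈ Finset.range 1, HKC_T s (i : ℤ) = A := by
      rw [Finset.sum_range_one]
      have : HKC_T s ((0 : ℕ) : ℤ) = 1 := HKC_T_zero s
      rw [this]
      ring
    rw [e]
    have e2 : (fun n : ℕ => HKC_T s (((n + 1 : ℕ)) : ℤ)) = fun n : ℕ => HKC_T s ((n : ℤ) + 1) :=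
      funext fun n => by push_cast; rfl
    rw [e2]
    exact h1
  have h3 : HasSum (fun n : ℕ => HKC_T s (-((n : ℤ) + 1))) A := by
    have e : (fun n : ℕ => HKC_T s (-((n : ℤ) + 1))) = fun n : ℕ => HKC_T s ((n : ℤ) + 1) :=
      funext fun n => HKC_T_neg s _
    rw [e]
    exact h1
  have h4 := HasSum.of_nat_of_neg_add_one h2 h3
  have e : 1 + A + A = 1 + 2 * A := by ring
  rw [e] at h4
  exact h4

theorem HKC_norm {s : ℝ} (k : ℤ) (y : ℝ) :
    ‖((HKC_T s k : ℝ) : ℂ) * fourier k (y : UnitAddCircle)‖ = HKC_T s k := by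
  rw [norm_mul, Complex.norm_real, Real.norm_of_nonneg (HKC_T_pos s k).le]
  have : ‖fourier k (y : UnitAddCircle)‖ = 1 := by
    rw [fourier_apply]
    exact Circle.norm_coe _
  rw [this, mul_one]

/-- Poisson summation. -/
theorem hasSum_hk1 {s : ℝ} (hs : 0 < s) (y : ℝ) :
    HasSum (fun k : ℤ => ((Real.exp (-(s * (2 * Real.pi * k) ^ 2)) : ℝ) : ℂ)
      * fourier k (y : UnitAddCircle)) ((hk1 0 s y : ℝ) : ℂ) := by
  have hpi : 0 < Real.pi := Real.pi_pos
  have hsum : Summable (fun k : ℤ => ((HKC_T s k : ℝ) : ℂ) * fourier k (y : UnitAddCircle)) := by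
    refine Summable.of_norm ?_
    have e : (fun k : ℤ => ‖((HKC_T s k : ℝ) : ℂ) * fourier k (y : UnitAddCircle)‖) = HKC_T s :=
      funext fun k => HKC_norm k y
    rw [e]
    exact HKC_T_summable hs
  have ha : 0 < ((4 * Real.pi * s : ℝ) : ℂ).re := by
    rw [Complex.ofReal_re]
    positivity
  have h := Complex.tsum_exp_neg_quadratic ha (Complex.I * y)
  have hL : ∀ n : ℤ, Complex.exp (-(Real.pi : ℂ) * ((4 * Real.pi * s : ℝ) : ℂ) * (n : ℂ) ^ 2 +
      2 * Real.pi * (Complex.I * y) * n) = ((HKC_T s n : ℝ) : ℂ) * fourier n (y : UnitAddCircle) := by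
    intro n
    unfold HKC_T
    rw [fourier_coe_apply, Complex.ofReal_exp, ← Complex.exp_add]
    push_cast
    ring_nf
  have hR : ∀ n : ℤ, Complex.exp (-(Real.pi : ℂ) / ((4 * Real.pi * s : ℝ) : ℂ) *
      ((n : ℂ) + Complex.I * (Complex.I * y)) ^ 2) =
      ((Real.exp (-((y - n) ^ 2) / (4 * s)) : ℝ) : ℂ) := by
    intro n
    rw [Complex.ofReal_exp]
    refine congrArg Complex.exp ?_
    have e1 : (n : ℂ) + Complex.I * (Complex.I * y) = (n : ℂ) - y := by
      rw [← mul_assoc, Complex.I_mul_I]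
      ring
    rw [e1]
    have hs' : (s : ℂ) ≠ 0 := by exact_mod_cast hs.ne'
    have hpi' : (Real.pi : ℂ) ≠ 0 := by exact_mod_cast hpi.ne'
    push_cast
    field_simp
    ring
  have ec : (1 : ℂ) / ((4 * Real.pi * s : ℝ) : ℂ) ^ (1 / 2 : ℂ) = (((Real.sqrt (4 * Real.pi * s))⁻¹ : ℝ) : ℂ) := by
    rw [Real.sqrt_eq_rpow, Complex.ofReal_inv, Complex.ofReal_cpow (by positivity), one_div]
    push_cast
    rfl
  have hk : hk1 0 s y = (Real.sqrt (4 * Real.pi * s))⁻¹ * ∑' n : ℤ, Real.exp (-((y - n) ^ 2) / (4 * s)) := by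
    unfold hk1
    rw [← tsum_mul_left]
    rw [← (Equiv.neg ℤ).tsum_eq]
    refine tsum_congr fun n => ?_
    simp only [gsj, gs1, Equiv.neg_apply]
    push_cast
    rw [← sub_eq_add_neg]
  have hfin : ∑' k : ℤ, ((HKC_T s k : ℝ) : ℂ) * fourier k (y : UnitAddCircle) = ((hk1 0 s y : ℝ) : ℂ) := by
    rw [← tsum_congr hL, h, ec, tsum_congr hR, hk, Complex.ofReal_mul, Complex.ofReal_tsum]
  have := hsum.hasSum
  rw [hfin] at this
  exact this

theorem HKC_sub_one {s : ℝ} (hs : 0 < s) (y : ℝ) :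
    |hk1 0 s y - 1| ≤ 2 * ∑' n : ℕ, HKC_T s ((n : ℤ) + 1) := by
  classical
  have h1 := hasSum_hk1 hs y
  have h2 := HKC_T_hasSum hs
  have h3 : HasSum (fun k : ℤ => if k = 0 then (1 : ℂ) else 0) 1 := by
    have := hasSum_ite_eq (0 : ℤ) (1 : ℂ)
    exact this
  have h4 : HasSum (fun k : ℤ => if k = 0 then (1 : ℝ) else 0) 1 := by
    have := hasSum_ite_eq (0 : ℤ) (1 : ℝ)
    exact this
  have h5 := h1.sub h3
  have h6 := h2.sub h4
  have h7 := HasSum.norm_le_of_bounded h5 h6 (fun k => by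
    by_cases hk : k = 0
    · subst hk
      simp
      rw [HKC_T_zero]
    · rw [if_neg hk, if_neg hk, sub_zero, sub_zero]
      exact (HKC_norm k y).le)
  have e1 : ((hk1 0 s y : ℝ) : ℂ) - 1 = ((hk1 0 s y - 1 : ℝ) : ℂ) := by push_cast; rfl
  rw [e1, Complex.norm_real, Real.norm_eq_abs] at h7
  have e2 : 1 + 2 * ∑' n : ℕ, HKC_T s ((n : ℤ) + 1) - 1 = 2 * ∑' n : ℕ, HKC_T s ((n : ℤ) + 1) := by ring
  rw [e2] at h7
  exact h7

theorem HKC_int {s : ℝ} (hs : 0 < s) (n : ℕ) :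
    ∑ i ∈ Finset.range n, HKC_T s ((i : ℤ) + 1) ≤ Real.sqrt (Real.pi / (4 * Real.pi ^ 2 * s)) / 2 := by
  have hpi : 0 < Real.pi := Real.pi_pos
  set b : ℝ := 4 * Real.pi ^ 2 * s with hb
  have hb0 : 0 < b := by positivity
  have hanti : AntitoneOn (fun x : ℝ => Real.exp (-b * x ^ 2)) (Set.Icc (0 : ℝ) (0 + n)) := by
    intro x hx z hz hxz
    simp only
    rw [Real.exp_le_exp]
    have : x ^ 2 ≤ z ^ 2 := pow_le_pow_left₀ hx.1 hxz 2
    nlinarith
  have h1 := hanti.sum_le_integral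
  have h2 : ∑ i ∈ Finset.range n, HKC_T s ((i : ℤ) + 1) =
      ∑ i ∈ Finset.range n, Real.exp (-b * ((0 : ℝ) + ((i + 1 : ℕ) : ℝ)) ^ 2) := by
    refine Finset.sum_congr rfl fun i _ => ?_
    unfold HKC_T
    rw [hb]
    push_cast
    ring_nf
  rw [h2]
  refine h1.trans ?_
  rw [← integral_gaussian_Ioi b, zero_add, intervalIntegral.integral_of_le (Nat.cast_nonneg n)]
  refine setIntegral_mono_set (integrable_exp_neg_mul_sq hb0).integrableOn ?_ ?_
  · exact Filter.Eventually.of_forall fun x => (Real.exp_pos _).le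
  · exact (Set.Ioc_subset_Ioi_self).eventuallyLE

/-- Sup bound: `∑ₖ exp(-4π²k²s) ≤ 1 + 2 ∫₀^∞ exp(-4π²t²s) dt`. -/
theorem hk1_le {s : ℝ} (hs : 0 < s) (y : ℝ) :
    hk1 0 s y ≤ 1 + (Real.sqrt (4 * Real.pi * s))⁻¹ := by
  have hpi : 0 < Real.pi := Real.pi_pos
  have h1 := HKC_sub_one hs y
  have h2 : ∑' n : ℕ, HKC_T s ((n : ℤ) + 1) ≤ Real.sqrt (Real.pi / (4 * Real.pi ^ 2 * s)) / 2 :=
    (HKC_T_succ_summable hs).tsum_le_of_sum_range_le fun n => HKC_int hs n
  have e : Real.sqrt (Real.pi / (4 * Real.pi ^ 2 * s)) = (Real.sqrt (4 * Real.pi * s))⁻¹ := by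
    rw [← Real.sqrt_inv]
    refine congrArg Real.sqrt ?_
    field_simp
  rw [e] at h2
  have h3 := (abs_le.1 h1).2
  linarith

/-- Exponential convergence to the mean. -/
theorem hk1_sub_one_le {s : ℝ} (hs : 1 ≤ s) (y : ℝ) : |hk1 0 s y - 1| ≤ Real.exp (-s) := by
  have hs0 : 0 < s := by linarith
  have h1 := HKC_sub_one hs0 y
  set r : ℝ := Real.exp (-(36 * s)) with hr
  have hr0 : 0 ≤ r := (Real.exp_pos _).le
  have hr1 : r < 1 := HKC_r_lt hs0
  have hg : HasSum (fun n : ℕ => r ^ n * r) ((1 - r)⁻¹ * r) :=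
    (hasSum_geometric_of_lt_one hr0 hr1).mul_right r
  have h2 : ∑' n : ℕ, HKC_T s ((n : ℤ) + 1) ≤ (1 - r)⁻¹ * r := by
    rw [← hg.tsum_eq]
    refine (HKC_T_succ_summable hs0).tsum_le_tsum (fun n => ?_) hg.summable
    have := HKC_T_le hs0 (n + 1)
    rw [pow_succ] at this
    push_cast at this
    exact this
  set e := Real.exp (-s) with he
  have he0 : 0 < e := Real.exp_pos _
  have he1 : e ≤ 0.37 := by
    have h3 : e ≤ Real.exp (-1) := Real.exp_le_exp.2 (by linarith)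
    have h4 := Real.exp_neg_one_lt_d9
    linarith
  have hre : r ≤ e ^ 3 := by
    rw [hr, he, ← Real.exp_nat_mul, Real.exp_le_exp]
    push_cast
    linarith
  have he3 : e ^ 3 ≤ 0.1369 * e := by
    have e1 : e ^ 3 = e ^ 2 * e := by ring
    rw [e1]
    have : e ^ 2 ≤ 0.1369 := by nlinarith
    nlinarith
  have hr2 : r ≤ 0.1369 * e := hre.trans he3
  have hr3 : r ≤ 0.1 := by nlinarith
  have h5 : (1 - r)⁻¹ * r ≤ e / 2 := by
    rw [inv_mul_le_iff₀ (by linarith)]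
    nlinarith
  linarith

end Pool.Agent.Lib.MP_4952d6_mp

end

/-! ### HK.D -/

section

set_option autoImplicit false
set_option linter.unusedSectionVars false
set_option linter.unusedVariables false
open MeasureTheory Function Filter Topology Set

namespace Pool.Agent.Lib.MP_4952d6_mp

/-! # HK.D: heat kernel on the torus, basic facts

Products over the three coordinates of the one dimensional facts. `hkD D s x = ∏ α, hk1 (D α) s (crd x α)`.
Since `hk1 j s` has period one, `hkD D s (fun α => (y α : UnitAddCircle)) = ∏ α, hk1 (D α) s (y α)` for all real `y`. -/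

theorem HKD_coe_eq (j : ℕ) (s : ℝ) {a b : ℝ} (h : (a : UnitAddCircle) = (b : UnitAddCircle)) :
    hk1 j s a = hk1 j s b := by
  have h1 : ((a - b : ℝ) : UnitAddCircle) = 0 := by
    rw [AddCircle.coe_sub, h, sub_self]
  obtain ⟨n, hn⟩ := (AddCircle.coe_eq_zero_iff (1 : ℝ)).1 h1
  have h2 : a = b + (n : ℝ) := by
    rw [zsmul_eq_mul, mul_one] at hn
    linarith
  rw [h2, hk1_add_int]

theorem HKD_eq (D : Fin 3 → ℕ) (s : ℝ) (x : T3) (y : Fin 3 → ℝ) (h : ∀ α, (y α : UnitAddCircle) = x α) :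
    hkD D s x = ∏ α, hk1 (D α) s (y α) := by
  unfold hkD
  refine Finset.prod_congr rfl fun α _ => ?_
  refine HKD_coe_eq _ s ?_
  rw [coe_crd, h]

theorem hkD_coe (D : Fin 3 → ℕ) (s : ℝ) (y : Fin 3 → ℝ) :
    hkD D s (fun α => (y α : UnitAddCircle)) = ∏ α, hk1 (D α) s (y α) :=
  HKD_eq D s _ y fun _ => rfl

theorem HKD_periodic (j : ℕ) (s : ℝ) : Function.Periodic (hk1 j s) 1 := by
  intro y
  have h := hk1_add_int j s y 1
  rw [Int.cast_one] at h
  exact h

theorem HKD_cont (j : ℕ) {s : ℝ} (hs : 0 < s) : Continuous (hk1 j s) := by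
  have h := hk1_continuousOn j
  rw [← continuousOn_univ]
  have h2 : ContinuousOn (fun y : ℝ => (s, y)) univ := (by fun_prop : Continuous fun y : ℝ => (s, y)).continuousOn
  exact h.comp h2 (fun y _ => ⟨hs, mem_univ _⟩)

theorem HKD_lift_cont (j : ℕ) {s : ℝ} (hs : 0 < s) :
    Continuous ((HKD_periodic j s).lift : UnitAddCircle → ℝ) := by
  refine continuous_quot_lift _ ?_
  exact HKD_cont j hs

theorem hkD_continuous (D : Fin 3 → ℕ) {s : ℝ} (hs : 0 < s) : Continuous (hkD D s) := by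
  have h : hkD D s = fun x => ∏ α, (HKD_periodic (D α) s).lift (x α) := by
    funext x
    unfold hkD
    refine Finset.prod_congr rfl fun α _ => ?_
    rw [← coe_crd x α]
    rw [Function.Periodic.lift_coe]
  rw [h]
  exact continuous_finsetProd _ fun α _ => (HKD_lift_cont (D α) hs).comp (continuous_apply α)

theorem hkD_measurable (D : Fin 3 → ℕ) : Measurable (fun q : ℝ × T3 => hkD D q.1 q.2) := by
  unfold hkD
  refine Finset.measurable_fun_prod _ fun α _ => ?_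
  exact (hk1_measurable (D α)).comp (measurable_fst.prodMk ((crd_measurable α).comp measurable_snd))

theorem hk_pos {s : ℝ} (hs : 0 < s) (x : T3) : 0 < hk s x := by
  unfold hk hkD
  exact Finset.prod_pos fun α _ => hk1_pos hs (crd x α)

theorem hk_nonneg (s : ℝ) (x : T3) : 0 ≤ hk s x := by
  unfold hk hkD
  exact Finset.prod_nonneg fun α _ => hk1_nonneg s (crd x α)

theorem HKD_hk1_parity {j : ℕ} (hj : j ≤ 2) (s y : ℝ) : hk1 j s (-y) = (-1) ^ j * hk1 j s y := by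
  interval_cases j
  · rw [hk1_neg]; ring
  · rw [hk1_neg_one]; ring
  · rw [hk1_neg_two]; ring

theorem HKD_parity (D : Fin 3 → ℕ) (hD : ∀ α, D α ≤ 2) (s : ℝ) (x : T3) :
    hkD D s (-x) = (-1) ^ (∑ α, D α) * hkD D s x := by
  rw [HKD_eq D s (-x) (fun α => -crd x α) (fun α => by
    rw [AddCircle.coe_neg, coe_crd, Pi.neg_apply])]
  rw [← Finset.prod_pow_eq_pow_sum]
  unfold hkD
  rw [← Finset.prod_mul_distrib]
  exact Finset.prod_congr rfl fun α _ => HKD_hk1_parity (hD α) s _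

theorem hk_neg (s : ℝ) (x : T3) : hk s (-x) = hk s x := by
  have h := HKD_parity 0 (fun α => by simp) s x
  simpa [hk] using h

theorem dhk_neg (α : Fin 3) (s : ℝ) (x : T3) : dhk α s (-x) = - dhk α s x := by
  have h := HKD_parity (Pi.single α 1) (fun β => by
    by_cases hβ : β = α
    · subst hβ; simp
    · simp [Pi.single_eq_of_ne hβ]) s x
  rw [Finset.sum_pi_single'] at h
  simpa [dhk] using h

theorem ddhk_neg (α β : Fin 3) (s : ℝ) (x : T3) : ddhk α β s (-x) = ddhk α β s x := by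
  have h1 : ∀ a b : Fin 3, (Pi.single a 1 : Fin 3 → ℕ) b ≤ 1 := by
    intro a b
    by_cases hβ : b = a
    · subst hβ; simp
    · simp [Pi.single_eq_of_ne hβ]
  have h := HKD_parity (Pi.single α 1 + Pi.single β 1) (fun γ => by
    have a1 := h1 α γ
    have a2 := h1 β γ
    rw [Pi.add_apply]
    omega) s x
  have h2 : ∑ γ, (Pi.single α 1 + Pi.single β 1 : Fin 3 → ℕ) γ = 2 := by
    simp only [Pi.add_apply, Finset.sum_add_distrib, Finset.sum_pi_single', Finset.mem_univ, if_true]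
  rw [h2] at h
  simpa [ddhk] using h

theorem ddhk_comm (α β : Fin 3) (s : ℝ) (x : T3) : ddhk α β s x = ddhk β α s x := by
  unfold ddhk
  rw [add_comm]

end Pool.Agent.Lib.MP_4952d6_mp

end

/-! ### HK.H -/

section

set_option autoImplicit false
set_option linter.unusedSectionVars false
set_option linter.unusedVariables false
open MeasureTheory Function Filter Topology Set

namespace Pool.Agent.Lib.MP_4952d6_mp

/-! # HK.H: integrals of the Gaussian in time, `sig = 4 π` -/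

theorem sig_eq_four_pi : sig = 4 * Real.pi := by
  unfold sig
  rw [measureReal_def, EuclideanSpace.volume_ball_fin_three, ENNReal.toReal_mul,
    ENNReal.toReal_pow, ENNReal.toReal_ofReal zero_le_one, ENNReal.toReal_ofReal (by positivity)]
  ring

/-- the substitution `s = r² / (4 p²)` -/
noncomputable def HKH_f (r p : ℝ) : ℝ := r ^ 2 / 4 * (p ^ 2)⁻¹

theorem HKH_image {r : ℝ} (hr : 0 < r) : HKH_f r '' Ioi (0:ℝ) = Ioi (0:ℝ) := by
  ext s
  constructor
  · rintro ⟨p, hp, rfl⟩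
    have hp' : 0 < p := hp
    show 0 < r ^ 2 / 4 * (p ^ 2)⁻¹
    positivity
  · intro hs
    have hs' : 0 < s := hs
    have h1 : 0 < Real.sqrt s := Real.sqrt_pos.2 hs'
    refine ⟨r / (2 * Real.sqrt s), by show 0 < r / (2 * Real.sqrt s); positivity, ?_⟩
    unfold HKH_f
    have h2 : (r / (2 * Real.sqrt s)) ^ 2 = r ^ 2 / (4 * s) := by
      rw [div_pow, mul_pow, Real.sq_sqrt hs'.le]
      norm_num
    rw [h2]
    field_simp

theorem HKH_inj {r : ℝ} (hr : 0 < r) : InjOn (HKH_f r) (Ioi (0:ℝ)) := by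
  intro p hp q hq h
  have hp' : 0 < p := hp
  have hq' : 0 < q := hq
  have h1 : (p ^ 2)⁻¹ = (q ^ 2)⁻¹ := mul_left_cancel₀ (by positivity : r ^ 2 / 4 ≠ 0) h
  have h2 : p ^ 2 = q ^ 2 := inv_injective h1
  exact (pow_left_inj₀ hp'.le hq'.le two_ne_zero).1 h2

theorem HKH_deriv (r : ℝ) : ∀ p ∈ Ioi (0:ℝ), HasDerivWithinAt (HKH_f r) (-(r ^ 2 / (2 * p ^ 3))) (Ioi 0) p := by
  intro p hp
  have hp' : p ≠ 0 := ne_of_gt hp
  have h1 : HasDerivAt (fun p : ℝ => p ^ 2) (2 * p) p := by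
    simpa using hasDerivAt_pow 2 p
  have h2 := (h1.fun_inv (pow_ne_zero 2 hp')).const_mul (r ^ 2 / 4)
  have h3 : r ^ 2 / 4 * (-(2 * p) / (p ^ 2) ^ 2) = -(r ^ 2 / (2 * p ^ 3)) := by
    field_simp
    ring
  rw [h3] at h2
  exact h2.hasDerivWithinAt

theorem HKH_eq {r : ℝ} (hr : 0 < r) : ∀ p ∈ Ioi (0:ℝ), |-(r ^ 2 / (2 * p ^ 3))| • gam (HKH_f r p) r
    = (1 / (2 * Real.sqrt Real.pi ^ 3 * r)) * Real.exp (-1 * p ^ 2) := by
  intro p hp
  have hp' : 0 < p := hp
  have hpi : 0 < Real.sqrt Real.pi := Real.sqrt_pos.2 Real.pi_pos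
  unfold gam HKH_f
  have h1 : Real.sqrt (4 * Real.pi * (r ^ 2 / 4 * (p ^ 2)⁻¹)) = Real.sqrt Real.pi * r / p := by
    have h2 : 4 * Real.pi * (r ^ 2 / 4 * (p ^ 2)⁻¹) = Real.pi * (r / p) ^ 2 := by
      field_simp
    rw [h2, Real.sqrt_mul Real.pi_pos.le, Real.sqrt_sq (by positivity)]
    ring
  have h3 : -(r ^ 2) / (4 * (r ^ 2 / 4 * (p ^ 2)⁻¹)) = -1 * p ^ 2 := by
    field_simp
  rw [h1, h3, abs_neg, abs_of_pos (by positivity), smul_eq_mul, ← mul_assoc]
  congr 1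
  field_simp

/-- `∫₀^∞ (4πs)^{-3/2} exp(-r²/4s) ds = 1/(4πr)`. -/
theorem gam_integral_time {r : ℝ} (hr : 0 < r) :
    IntegrableOn (fun s => gam s r) (Ioi (0:ℝ)) ∧
      ∫ s in Ioi (0:ℝ), gam s r = 1 / (4 * Real.pi * r) := by
  have hpi : 0 < Real.sqrt Real.pi := Real.sqrt_pos.2 Real.pi_pos
  have hsq : Real.sqrt Real.pi ^ 2 = Real.pi := Real.sq_sqrt Real.pi_pos.le
  constructor
  · have h1 := integrableOn_image_iff_integrableOn_abs_deriv_smul measurableSet_Ioi (HKH_deriv r) (HKH_inj hr)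
      (fun s => gam s r)
    rw [HKH_image hr] at h1
    rw [h1]
    refine IntegrableOn.congr_fun ?_ (fun p hp => (HKH_eq hr p hp).symm) measurableSet_Ioi
    exact ((integrable_exp_neg_mul_sq one_pos).const_mul _).integrableOn
  · have h1 := integral_image_eq_integral_abs_deriv_smul measurableSet_Ioi (HKH_deriv r) (HKH_inj hr)
      (fun s => gam s r)
    rw [HKH_image hr] at h1
    rw [h1, setIntegral_congr_fun measurableSet_Ioi (HKH_eq hr), integral_const_mul, integral_gaussian_Ioi, div_one]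
    have h2 : Real.sqrt Real.pi ^ 3 = Real.pi * Real.sqrt Real.pi := by
      rw [pow_succ, hsq]
    rw [h2]
    field_simp
    norm_num

/-- `∫_t^∞ (4πs)^{-3/2} ds = 1 / (4 π^{3/2} √t)`. -/
theorem gam_zero_integral {t : ℝ} (ht : 0 < t) :
    IntegrableOn (fun s => gam s 0) (Ioi t) ∧
      ∫ s in Ioi t, gam s 0 = 1 / (4 * Real.pi * Real.sqrt (Real.pi * t)) := by
  have hpi : 0 < Real.sqrt Real.pi := Real.sqrt_pos.2 Real.pi_pos
  have hst : 0 < Real.sqrt t := Real.sqrt_pos.2 ht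
  have hsq : Real.sqrt Real.pi ^ 2 = Real.pi := Real.sq_sqrt Real.pi_pos.le
  have h0 : ∀ s ∈ Ioi t, gam s 0 = (1 / (8 * Real.sqrt Real.pi ^ 3)) * s ^ (-(3/2) : ℝ) := by
    intro s hs
    have hs' : 0 < s := ht.trans hs
    have hss : 0 < Real.sqrt s := Real.sqrt_pos.2 hs'
    have h1 : Real.sqrt (4 * Real.pi * s) = 2 * Real.sqrt Real.pi * Real.sqrt s := by
      rw [Real.sqrt_mul (by positivity), Real.sqrt_mul (by norm_num)]
      have : Real.sqrt 4 = 2 := by
        rw [show (4:ℝ) = 2 ^ 2 by norm_num, Real.sqrt_sq (by norm_num)]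
      rw [this]
    have h2 : s ^ (-(3/2) : ℝ) = (Real.sqrt s ^ 3)⁻¹ := by
      rw [Real.rpow_neg hs'.le, Real.sqrt_eq_rpow, ← Real.rpow_natCast, ← Real.rpow_mul hs'.le]
      norm_num
    unfold gam
    rw [h1, h2]
    simp only [ne_eq, OfNat.ofNat_ne_zero, not_false_eq_true, zero_pow, neg_zero, zero_div, Real.exp_zero, mul_one]
    field_simp
    norm_num
  constructor
  · refine IntegrableOn.congr_fun ?_ (fun s hs => (h0 s hs).symm) measurableSet_Ioi
    exact (integrableOn_Ioi_rpow_of_lt (by norm_num) ht).const_mul _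
  · rw [setIntegral_congr_fun measurableSet_Ioi h0, integral_const_mul, integral_Ioi_rpow_of_lt (by norm_num) ht]
    have h2 : t ^ (-(3/2) + 1 : ℝ) = (Real.sqrt t)⁻¹ := by
      rw [Real.sqrt_eq_rpow, ← Real.rpow_neg ht.le]
      norm_num
    have h3 : Real.sqrt Real.pi ^ 3 = Real.pi * Real.sqrt Real.pi := by
      rw [pow_succ, hsq]
    rw [h2, h3, Real.sqrt_mul Real.pi_pos.le]
    field_simp
    norm_num

/-- `(2π)^{-3} ∫_{ℝ³} exp(-t p²)/p² dp = (2π²)⁻¹ ∫₀^∞ exp(-t p²) dp = 1 / (4 π^{3/2} √t)`. -/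
theorem gauss_integral_half {t : ℝ} (ht : 0 < t) :
    1 / (2 * Real.pi ^ 2) * ∫ p in Ioi (0:ℝ), Real.exp (-(t * p ^ 2))
      = 1 / (4 * Real.pi * Real.sqrt (Real.pi * t)) := by
  have hpi : 0 < Real.sqrt Real.pi := Real.sqrt_pos.2 Real.pi_pos
  have hst : 0 < Real.sqrt t := Real.sqrt_pos.2 ht
  have hsq : Real.sqrt Real.pi ^ 2 = Real.pi := Real.sq_sqrt Real.pi_pos.le
  have h1 := integral_gaussian_Ioi t
  simp only [neg_mul] at h1
  rw [h1, Real.sqrt_div Real.pi_pos.le, Real.sqrt_mul Real.pi_pos.le]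
  field_simp
  rw [hsq]
  ring

/-- total mass of the Gaussian, radial form -/
theorem gam_integral_space {s : ℝ} (hs : 0 < s) :
    4 * Real.pi * ∫ r in Ioi (0:ℝ), r ^ 2 * gam s r = 1 := by
  have hpi : 0 < Real.sqrt Real.pi := Real.sqrt_pos.2 Real.pi_pos
  have hsq : Real.sqrt Real.pi ^ 2 = Real.pi := Real.sq_sqrt Real.pi_pos.le
  have hss : 0 < Real.sqrt s := Real.sqrt_pos.2 hs
  have hss2 : Real.sqrt s ^ 2 = s := Real.sq_sqrt hs.le
  have h1 : Real.sqrt (4 * Real.pi * s) = 2 * Real.sqrt Real.pi * Real.sqrt s := by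
    rw [Real.sqrt_mul (by positivity), Real.sqrt_mul (by norm_num)]
    have : Real.sqrt 4 = 2 := by
      rw [show (4:ℝ) = 2 ^ 2 by norm_num, Real.sqrt_sq (by norm_num)]
    rw [this]
  have h0 : ∀ r ∈ Ioi (0:ℝ), r ^ 2 * gam s r =
      (2 * Real.sqrt Real.pi * Real.sqrt s)⁻¹ ^ 3 * (r ^ (2:ℝ) * Real.exp (-(1 / (4 * s)) * r ^ (2:ℝ))) := by
    intro r hr
    unfold gam
    rw [h1, Real.rpow_two, show -(r ^ 2) / (4 * s) = -(1 / (4 * s)) * r ^ 2 by ring]
    ring
  have h2 : Real.Gamma ((2 + 1) / 2) = Real.sqrt Real.pi / 2 := by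
    rw [show ((2:ℝ) + 1) / 2 = 1 / 2 + 1 by norm_num, Real.Gamma_add_one (by norm_num), Real.Gamma_one_half_eq]
    ring
  have h3 : (1 / (4 * s)) ^ (-((2:ℝ) + 1) / 2) = (2 * Real.sqrt s) ^ 3 := by
    have h4 : 1 / (4 * s) = ((2 * Real.sqrt s) ^ (2:ℝ))⁻¹ := by
      rw [Real.rpow_two, mul_pow, hss2]
      norm_num
    rw [h4, ← Real.rpow_neg (by positivity), ← Real.rpow_mul (by positivity), ← Real.rpow_natCast]
    norm_num
  rw [setIntegral_congr_fun measurableSet_Ioi h0, integral_const_mul,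
    integral_rpow_mul_exp_neg_mul_rpow (by norm_num) (by norm_num) (by positivity), h2, h3]
  have h5 : Real.pi = Real.sqrt Real.pi ^ 2 := hsq.symm
  rw [h5]
  have h6 : Real.sqrt (Real.sqrt Real.pi ^ 2) = Real.sqrt Real.pi := by rw [hsq]
  rw [h6]
  field_simp
  norm_num

end Pool.Agent.Lib.MP_4952d6_mp

end

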