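import Pool.Agent.Lib.MP_4952d6_mp.Pk.G10

/-! Merged modules (to save import time): HK.E, HK.F, HK.F2. -/

/-! ### HK.E -/

section

set_option autoImplicit false
set_option linter.unusedSectionVars false
set_option linter.unusedVariables false
open MeasureTheory Function Filter Topology Set

namespace Pool.Agent.Lib.MP_4952d6_mp

/-! # HK.E: Fourier series, semigroup, uniform bounds on the torus -/

/-- Products of absolutely convergent series. -/
theorem HKE_two {ι κ : Type} (f : ι → ℂ) (g : κ → ℂ) (a b : ℂ) (hf : HasSum f a) (hf' : Summable fun x => ‖f x‖)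
    (hg : HasSum g b) (hg' : Summable fun x => ‖g x‖) :
    HasSum (fun x : ι × κ => f x.1 * g x.2) (a * b) ∧ Summable fun x : ι × κ => ‖f x.1 * g x.2‖ := by
  have d : Summable fun x : ι × κ => ‖f x.1 * g x.2‖ := Summable.mul_norm hf' hg'
  have c : Summable fun x : ι × κ => f x.1 * g x.2 := Summable.of_norm d
  exact ⟨hf.mul hg c, d⟩

theorem HKE_prod (n : ℕ) : ∀ (f : Fin n → ℤ → ℂ) (s : Fin n → ℂ), (∀ i, HasSum (f i) (s i)) →
    (∀ i, Summable fun k => ‖f i k‖) →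
    HasSum (fun p : Fin n → ℤ => ∏ i, f i (p i)) (∏ i, s i) ∧
      Summable fun p : Fin n → ℤ => ‖∏ i, f i (p i)‖ := by
  induction n with
  | zero =>
    intro f s _ _
    refine ⟨?_, ?_⟩
    · have h := hasSum_unique (fun _ : Fin 0 → ℤ => (1 : ℂ))
      have e : (fun p : Fin 0 → ℤ => ∏ i, f i (p i)) = fun _ : Fin 0 → ℤ => (1 : ℂ) := by
        funext p
        rw [Finset.univ_eq_empty, Finset.prod_empty]
      rw [e, Finset.univ_eq_empty, Finset.prod_empty]
      exact h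
    · exact (hasSum_unique (fun p : Fin 0 → ℤ => ‖∏ i, f i (p i)‖)).summable
  | succ n ih =>
    intro f s h1 h2
    obtain ⟨a, b⟩ := ih (fun i => f i.succ) (fun i => s i.succ) (fun i => h1 _) (fun i => h2 _)
    obtain ⟨c, d⟩ := HKE_two (f 0) (fun p : Fin n → ℤ => ∏ i : Fin n, f i.succ (p i)) (s 0) _ (h1 0) (h2 0) a b
    have e : ∀ x : ℤ × (Fin n → ℤ), (∏ i, f i ((Fin.consEquiv fun _ : Fin (n + 1) => ℤ) x i))
        = f 0 x.1 * ∏ i : Fin n, f i.succ (x.2 i) := by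
      intro x
      rw [Fin.prod_univ_succ]
      rfl
    refine ⟨?_, ?_⟩
    · rw [← (Fin.consEquiv fun _ : Fin (n + 1) => ℤ).hasSum_iff, Fin.prod_univ_succ]
      have e' : ((fun p : Fin (n + 1) → ℤ => ∏ i, f i (p i)) ∘ (Fin.consEquiv fun _ : Fin (n + 1) => ℤ))
          = fun x : ℤ × (Fin n → ℤ) => f 0 x.1 * ∏ i : Fin n, f i.succ (x.2 i) := funext e
      rw [e']
      exact c
    · rw [← (Fin.consEquiv fun _ : Fin (n + 1) => ℤ).summable_iff]
      have e' : ((fun p : Fin (n + 1) → ℤ => ‖∏ i, f i (p i)‖) ∘ (Fin.consEquiv fun _ : Fin (n + 1) => ℤ))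
          = fun x : ℤ × (Fin n → ℤ) => ‖f 0 x.1 * ∏ i : Fin n, f i.succ (x.2 i)‖ :=
        funext fun x => congrArg norm (e x)
      rw [e']
      exact d

theorem HKE_main {s : ℝ} (hs : 0 < s) (x : T3) :
    HasSum (fun p : Fin 3 → ℤ => ((Real.exp (-(s * ksq p)) : ℝ) : ℂ) * ch p x) ((hk s x : ℝ) : ℂ) ∧
    Summable fun p : Fin 3 → ℤ => Real.exp (-(s * ksq p)) := by
  have key := HKE_prod 3 (fun α k => ((Real.exp (-(s * (2 * Real.pi * k) ^ 2)) : ℝ) : ℂ)
      * fourier k ((crd x α : ℝ) : UnitAddCircle)) (fun α => ((hk1 0 s (crd x α) : ℝ) : ℂ))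
      (fun α => hasSum_hk1 hs (crd x α)) (fun α => (hasSum_hk1 hs (crd x α)).summable.norm)
  have e1 : ∀ p : Fin 3 → ℤ, (∏ α, (((Real.exp (-(s * (2 * Real.pi * (p α)) ^ 2)) : ℝ) : ℂ)
      * fourier (p α) ((crd x α : ℝ) : UnitAddCircle)))
      = ((Real.exp (-(s * ksq p)) : ℝ) : ℂ) * ch p x := by
    intro p
    rw [Finset.prod_mul_distrib]
    congr 1
    · rw [← Complex.ofReal_prod, ← Real.exp_sum]
      congr 2
      unfold ksq mom2
      rw [Finset.mul_sum, Finset.mul_sum, ← Finset.sum_neg_distrib]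
      refine Finset.sum_congr rfl fun α _ => ?_
      ring
    · simp only [ch, UnitAddTorus.mFourier, ContinuousMap.coe_mk, coe_crd]
  have e2 : (∏ α, ((hk1 0 s (crd x α) : ℝ) : ℂ)) = ((hk s x : ℝ) : ℂ) := by
    rw [← Complex.ofReal_prod]
    rfl
  obtain ⟨k1, k2⟩ := key
  rw [e2] at k1
  refine ⟨?_, ?_⟩
  · refine k1.congr_fun ?_
    intro p
    exact (e1 p).symm
  · refine k2.congr ?_
    intro p
    have := e1 p
    rw [this, norm_mul, ch_norm, mul_one, Complex.norm_real, Real.norm_eq_abs, Real.abs_exp]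

theorem hasSum_hk {s : ℝ} (hs : 0 < s) (x : T3) :
    HasSum (fun p : Fin 3 → ℤ => ((Real.exp (-(s * ksq p)) : ℝ) : ℂ) * ch p x)
      ((hk s x : ℝ) : ℂ) := (HKE_main hs x).1

theorem HKE_summable {s : ℝ} (hs : 0 < s) : Summable fun p : Fin 3 → ℤ => Real.exp (-(s * ksq p)) :=
  (HKE_main hs 0).2

theorem HKE_int_ch {p : Fin 3 → ℤ} (hp : p ≠ 0) : ∫ x, ch p x ∂lam3 = 0 := by
  obtain ⟨t, ht⟩ := exists_ch_eq_neg_one hp
  have h1 : ∫ x, ch p (x + t) ∂lam3 = ∫ x, ch p x ∂lam3 := integral_add_right_eq_self (μ := lam3) (ch p) t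
  have h2 : ∫ x, ch p (x + t) ∂lam3 = - ∫ x, ch p x ∂lam3 := by
    rw [← integral_neg]
    refine integral_congr_ae (Eventually.of_forall fun x => ?_)
    simp only [ch_add_arg, ht, mul_neg, mul_one]
  rw [h1] at h2
  exact self_eq_neg.1 h2

theorem HKE_orth (p q : Fin 3 → ℤ) :
    ∫ x, (starRingEnd ℂ) (ch p x) * ch q x ∂lam3 = if q = p then 1 else 0 := by
  have e : ∀ x, (starRingEnd ℂ) (ch p x) * ch q x = ch (q - p) x := by
    intro x
    rw [sub_eq_add_neg, ch_add, ch_neg, mul_comm]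
  simp_rw [e]
  split_ifs with h
  · rw [h, sub_self]
    simp [ch_zero]
  · exact HKE_int_ch (sub_ne_zero.2 h)

theorem HKE_integrable_ch (p : Fin 3 → ℤ) : Integrable (ch p) lam3 :=
  (ch_continuous p).integrable_of_hasCompactSupport (HasCompactSupport.of_compactSpace _)

theorem HKE_integrable_hk {s : ℝ} (hs : 0 < s) : Integrable (hk s) lam3 :=
  (hkD_continuous 0 hs).integrable_of_hasCompactSupport (HasCompactSupport.of_compactSpace _)

theorem fc3_hk {s : ℝ} (hs : 0 < s) (p : Fin 3 → ℤ) :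
    fc3 (fun x => (hk s x : ℂ)) p = ((Real.exp (-(s * ksq p)) : ℝ) : ℂ) := by
  have hcont : ∀ q : Fin 3 → ℤ, Continuous fun x : T3 =>
      (starRingEnd ℂ) (ch p x) * (((Real.exp (-(s * ksq q)) : ℝ) : ℂ) * ch q x) := fun q =>
    (Complex.continuous_conj.comp (ch_continuous p)).mul (continuous_const.mul (ch_continuous q))
  have hn : ∀ (q : Fin 3 → ℤ) (x : T3), ‖(starRingEnd ℂ) (ch p x) * (((Real.exp (-(s * ksq q)) : ℝ) : ℂ) * ch q x)‖
      = Real.exp (-(s * ksq q)) := by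
    intro q x
    rw [norm_mul, norm_mul, RCLike.norm_conj, ch_norm, ch_norm, one_mul, mul_one, Complex.norm_real,
      Real.norm_eq_abs, Real.abs_exp]
  have key := hasSum_integral_of_summable_integral_norm (μ := lam3) (F := fun (q : Fin 3 → ℤ) (x : T3) =>
      (starRingEnd ℂ) (ch p x) * (((Real.exp (-(s * ksq q)) : ℝ) : ℂ) * ch q x))
      (fun q => (hcont q).integrable_of_hasCompactSupport (HasCompactSupport.of_compactSpace _))
      (by
        refine (HKE_summable hs).congr ?_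
        intro q
        simp_rw [hn]
        simp)
  have e1 : ∀ x : T3, (∑' q : Fin 3 → ℤ, (starRingEnd ℂ) (ch p x) * (((Real.exp (-(s * ksq q)) : ℝ) : ℂ) * ch q x))
      = (starRingEnd ℂ) (ch p x) * (hk s x : ℂ) := by
    intro x
    exact ((hasSum_hk hs x).mul_left _).tsum_eq
  simp_rw [e1] at key
  have e2 : ∀ q : Fin 3 → ℤ, (∫ x, (starRingEnd ℂ) (ch p x) * (((Real.exp (-(s * ksq q)) : ℝ) : ℂ) * ch q x) ∂lam3)
      = if q = p then ((Real.exp (-(s * ksq p)) : ℝ) : ℂ) else 0 := by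
    intro q
    have : ∀ x, (starRingEnd ℂ) (ch p x) * (((Real.exp (-(s * ksq q)) : ℝ) : ℂ) * ch q x)
        = ((Real.exp (-(s * ksq q)) : ℝ) : ℂ) * ((starRingEnd ℂ) (ch p x) * ch q x) := by
      intro x; ring
    simp_rw [this]
    rw [integral_const_mul, HKE_orth]
    split_ifs with h
    · rw [h, mul_one]
    · rw [mul_zero]
  simp_rw [e2] at key
  exact key.unique (hasSum_ite_eq p _)

theorem HKE_ksq_zero : ksq 0 = 0 := by
  unfold ksq
  rw [mom2_zero, mul_zero]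

theorem HKE_ksq_nonneg (p : Fin 3 → ℤ) : 0 ≤ ksq p := by
  unfold ksq
  have := mom2_nonneg p
  positivity

theorem hk_integral {s : ℝ} (hs : 0 < s) : ∫ x, hk s x ∂lam3 = 1 := by
  have h := fc3_hk hs 0
  unfold fc3 at h
  simp_rw [ch_zero, map_one, one_mul] at h
  rw [HKE_ksq_zero, mul_zero, neg_zero, Real.exp_zero, integral_complex_ofReal] at h
  exact_mod_cast h

theorem HKE_conv_ch {s : ℝ} (hs : 0 < s) (x : T3) (q : Fin 3 → ℤ) :
    ∫ y, (hk s (x - y) : ℂ) * ch q y ∂lam3 = ((Real.exp (-(s * ksq q)) : ℝ) : ℂ) * ch q x := by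
  have h1 := integral_sub_left_eq_self (fun z : T3 => (hk s z : ℂ) * ch q (x - z)) lam3 x
  have e1 : ∀ y : T3, (hk s (x - y) : ℂ) * ch q (x - (x - y)) = (hk s (x - y) : ℂ) * ch q y := by
    intro y
    rw [sub_sub_cancel]
  have e2 : ∀ z : T3, (hk s z : ℂ) * ch q (x - z) = ch q x * ((starRingEnd ℂ) (ch q z) * (hk s z : ℂ)) := by
    intro z
    rw [sub_eq_add_neg, ch_add_arg, ch_neg_arg]
    ring
  simp_rw [e1] at h1
  rw [h1]
  simp_rw [e2]
  rw [integral_const_mul]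
  have := fc3_hk hs q
  unfold fc3 at this
  rw [this, mul_comm]

theorem hk_conv {s r : ℝ} (hs : 0 < s) (hr : 0 < r) (x : T3) :
    ∫ y, hk s (x - y) * hk r y ∂lam3 = hk (s + r) x := by
  have hcont : ∀ q : Fin 3 → ℤ, Continuous fun y : T3 =>
      (hk s (x - y) : ℂ) * (((Real.exp (-(r * ksq q)) : ℝ) : ℂ) * ch q y) := fun q =>
    (Complex.continuous_ofReal.comp ((hkD_continuous 0 hs).comp (continuous_const.sub continuous_id))).mul
      (continuous_const.mul (ch_continuous q))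
  have hn : ∀ (q : Fin 3 → ℤ) (y : T3), ‖(hk s (x - y) : ℂ) * (((Real.exp (-(r * ksq q)) : ℝ) : ℂ) * ch q y)‖
      = Real.exp (-(r * ksq q)) * |hk s (x - y)| := by
    intro q y
    rw [norm_mul, norm_mul, ch_norm, mul_one, Complex.norm_real, Complex.norm_real,
      Real.norm_eq_abs, Real.norm_eq_abs, Real.abs_exp, mul_comm]
  have key := hasSum_integral_of_summable_integral_norm (μ := lam3) (F := fun (q : Fin 3 → ℤ) (y : T3) =>
      (hk s (x - y) : ℂ) * (((Real.exp (-(r * ksq q)) : ℝ) : ℂ) * ch q y))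
      (fun q => (hcont q).integrable_of_hasCompactSupport (HasCompactSupport.of_compactSpace _))
      (by
        refine ((HKE_summable hr).mul_right (∫ y, |hk s (x - y)| ∂lam3)).congr ?_
        intro q
        simp_rw [hn]
        rw [integral_const_mul])
  have e1 : ∀ y : T3, (∑' q : Fin 3 → ℤ, (hk s (x - y) : ℂ) * (((Real.exp (-(r * ksq q)) : ℝ) : ℂ) * ch q y))
      = (hk s (x - y) : ℂ) * (hk r y : ℂ) := by
    intro y
    exact ((hasSum_hk hr y).mul_left _).tsum_eq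
  simp_rw [e1] at key
  have e2 : ∀ q : Fin 3 → ℤ, (∫ y, (hk s (x - y) : ℂ) * (((Real.exp (-(r * ksq q)) : ℝ) : ℂ) * ch q y) ∂lam3)
      = ((Real.exp (-((s + r) * ksq q)) : ℝ) : ℂ) * ch q x := by
    intro q
    have : ∀ y, (hk s (x - y) : ℂ) * (((Real.exp (-(r * ksq q)) : ℝ) : ℂ) * ch q y)
        = ((Real.exp (-(r * ksq q)) : ℝ) : ℂ) * ((hk s (x - y) : ℂ) * ch q y) := by
      intro y; ring
    simp_rw [this]
    rw [integral_const_mul, HKE_conv_ch hs, ← mul_assoc, ← Complex.ofReal_mul, ← Real.exp_add]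
    congr 3
    ring
  simp_rw [e2] at key
  have h3 := key.unique (hasSum_hk (add_pos hs hr) x)
  have e3 : ∀ y : T3, (hk s (x - y) : ℂ) * (hk r y : ℂ) = ((hk s (x - y) * hk r y : ℝ) : ℂ) := by
    intro y; push_cast; ring
  simp_rw [e3] at h3
  rw [integral_complex_ofReal] at h3
  exact_mod_cast h3

theorem hk_le_zero {s : ℝ} (hs : 0 < s) (x : T3) : hk s x ≤ hk s 0 := by
  have h1 := Complex.hasSum_re (hasSum_hk hs x)
  have h2 := Complex.hasSum_re (hasSum_hk hs 0)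
  rw [Complex.ofReal_re] at h1 h2
  refine hasSum_le ?_ h1 h2
  intro p
  rw [Complex.re_ofReal_mul, Complex.re_ofReal_mul]
  refine mul_le_mul_of_nonneg_left ?_ (Real.exp_pos _).le
  have e0 : ch p 0 = 1 := by
    simp [ch, UnitAddTorus.mFourier]
  rw [e0, Complex.one_re, ← ch_norm p x]
  exact Complex.re_le_norm _

theorem summable_exp_ksq {s : ℝ} (hs : 0 < s) (j : ℕ) :
    Summable fun p : Fin 3 → ℤ => ksq p ^ j * Real.exp (-(s * ksq p)) := by
  have hs2 : 0 < s / 2 := by positivity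
  refine Summable.of_nonneg_of_le (fun p => mul_nonneg (pow_nonneg (HKE_ksq_nonneg p) j) (Real.exp_pos _).le)
    (fun p => ?_) ((HKE_summable hs2).mul_left ((j.factorial : ℝ) * (s / 2)⁻¹ ^ j))
  have h0 : 0 ≤ s / 2 * ksq p := mul_nonneg hs2.le (HKE_ksq_nonneg p)
  have h1 : (s / 2 * ksq p) ^ j / (j.factorial : ℝ) ≤ Real.exp (s / 2 * ksq p) :=
    Real.pow_div_factorial_le_exp _ h0 j
  have hf : 0 < (j.factorial : ℝ) := by positivity
  rw [div_le_iff₀ hf] at h1
  have h2 : ksq p ^ j ≤ (j.factorial : ℝ) * (s / 2)⁻¹ ^ j * Real.exp (s / 2 * ksq p) := by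
    have e : ksq p ^ j = (s / 2)⁻¹ ^ j * (s / 2 * ksq p) ^ j := by
      rw [← mul_pow]
      congr 1
      field_simp
    rw [e]
    have h3 : (s / 2)⁻¹ ^ j * (s / 2 * ksq p) ^ j ≤ (s / 2)⁻¹ ^ j * (Real.exp (s / 2 * ksq p) * (j.factorial : ℝ)) :=
      mul_le_mul_of_nonneg_left h1 (by positivity)
    calc _ ≤ _ := h3
      _ = _ := by ring
  have e4 : Real.exp (-(s / 2 * ksq p)) = Real.exp (s / 2 * ksq p) * Real.exp (-(s * ksq p)) := by
    rw [← Real.exp_add]
    congr 1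
    ring
  rw [e4, ← mul_assoc]
  exact mul_le_mul_of_nonneg_right h2 (Real.exp_pos _).le

end Pool.Agent.Lib.MP_4952d6_mp

end

/-! ### HK.F -/

section

set_option autoImplicit false
set_option linter.unusedSectionVars false
set_option linter.unusedVariables false
open MeasureTheory Function Filter Topology Set

namespace Pool.Agent.Lib.MP_4952d6_mp

/-! # HK.F: moments and local comparison with the Gaussian

In one coordinate: `|crd x α| ≤ |crd x α + n|` for every integer `n` (because `|crd x α| ≤ 1/2`), so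
`∫_T (crd x α)² hk1 0 s (crd x α) = ∑ₙ ∫_{-1/2}^{1/2} y² gs1 s (y+n) dy ≤ ∫_ℝ t² gs1 s t dt = 2 s`. -/

/-- The coordinate on the circle. -/
noncomputable def HKF_c (u : UnitAddCircle) : ℝ := (AddCircle.equivIoc (1:ℝ) (-(1/2)) u : ℝ)

lemma HKF_c_coe {y : ℝ} (hy : y ∈ Ioc (-(1/2) : ℝ) (1/2)) : HKF_c (y : UnitAddCircle) = y := by
  unfold HKF_c
  apply AddCircle.equivIoc_coe_of_mem (p := (1:ℝ))
  have e : (-(1/2) : ℝ) + 1 = 1/2 := by norm_num
  rwa [e]

lemma HKF_int (g : ℝ → ℝ) :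
    ∫ u, g (HKF_c u) ∂(AddCircle.haarAddCircle : Measure UnitAddCircle)
      = ∫ y in Ioc (-(1/2) : ℝ) (1/2), g y := by
  rw [AddCircle.integral_haarAddCircle, inv_one, one_smul,
    ← UnitAddCircle.integral_preimage (-(1/2))]
  have e : (-(1/2) : ℝ) + 1 = 1/2 := by norm_num
  rw [e]
  refine setIntegral_congr_fun measurableSet_Ioc fun y hy => ?_
  exact congrArg g (HKF_c_coe hy)

lemma HKF_prod (f : Fin 3 → ℝ → ℝ) :
    ∫ x, ∏ α, f α (crd x α) ∂lam3 = ∏ α, ∫ y in Ioc (-(1/2) : ℝ) (1/2), f α y := by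
  have h := integral_fintype_prod_eq_prod (ι := Fin 3) (E := fun _ => UnitAddCircle)
    (fun α (u : UnitAddCircle) => f α (HKF_c u))
    (μ := fun _ => (AddCircle.haarAddCircle : Measure UnitAddCircle))
  simp only [HKF_int] at h
  exact h

lemma HKF_gs1 {s : ℝ} (hs : 0 < s) (t : ℝ) :
    gs1 s t = ProbabilityTheory.gaussianPDFReal 0 (2 * s).toNNReal t := by
  rw [ProbabilityTheory.gaussianPDFReal, Real.coe_toNNReal _ (by positivity)]
  unfold gs1
  have e1 : 2 * Real.pi * (2 * s) = 4 * Real.pi * s := by ring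
  have e2 : 2 * (2 * s) = 4 * s := by ring
  rw [sub_zero, e1, e2]

lemma HKF_integrable {s : ℝ} (hs : 0 < s) : Integrable (fun t : ℝ => t ^ 2 * gs1 s t) := by
  have h1 := integrable_rpow_mul_exp_neg_mul_sq (b := 1 / (4 * s)) (by positivity) (s := 2)
    (by norm_num)
  have h2 := h1.const_mul (Real.sqrt (4 * Real.pi * s))⁻¹
  refine h2.congr (ae_of_all _ fun t => ?_)
  simp only
  unfold gs1
  have e1 : t ^ (2 : ℝ) = t ^ 2 := by exact_mod_cast Real.rpow_natCast t 2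
  have e2 : -(1 / (4 * s)) * t ^ 2 = -(t ^ 2) / (4 * s) := by ring
  rw [e1, e2]
  ring

lemma HKF_mom {s : ℝ} (hs : 0 < s) : ∫ t : ℝ, t ^ 2 * gs1 s t = 2 * s := by
  have hv : (2 * s).toNNReal ≠ 0 := by
    rw [Ne, Real.toNNReal_eq_zero]
    push Not
    positivity
  have h1 := ProbabilityTheory.integral_gaussianReal_eq_integral_smul (μ := 0)
    (f := fun t : ℝ => t ^ 2) hv
  have h2 : ∫ t, t ^ 2 ∂(ProbabilityTheory.gaussianReal 0 (2 * s).toNNReal) = 2 * s := by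
    have h3 := ProbabilityTheory.variance_id_gaussianReal (μ := 0) (v := (2 * s).toNNReal)
    rw [ProbabilityTheory.variance_eq_integral measurable_id.aemeasurable] at h3
    have h4 : ∫ x, id x ∂(ProbabilityTheory.gaussianReal 0 (2 * s).toNNReal) = 0 :=
      ProbabilityTheory.integral_id_gaussianReal
    rw [h4, Real.coe_toNNReal _ (by positivity)] at h3
    refine Eq.trans ?_ h3
    refine integral_congr_ae (ae_of_all _ fun t => ?_)
    simp only [sub_zero, id_eq]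
  rw [h2] at h1
  rw [h1]
  refine integral_congr_ae (ae_of_all _ fun t => ?_)
  simp only [smul_eq_mul]
  rw [HKF_gs1 hs t]
  ring

lemma HKF_shift (f : ℝ → ENNReal) (hf : Measurable f) (n : ℤ) :
    ∫⁻ y in Ioc (-(1/2) : ℝ) (1/2), f (y + n)
      = ∫⁻ t in Ioc (-(1/2) + (n:ℝ)) (-(1/2) + n + 1), f t := by
  have h := (measurePreserving_add_right (volume : Measure ℝ) (n:ℝ)).setLIntegral_comp_preimage
    (s := Ioc (-(1/2) + (n:ℝ)) (-(1/2) + n + 1)) measurableSet_Ioc hf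
  rw [← h, Set.preimage_add_const_Ioc]
  have e1 : -(1/2) + (n:ℝ) - n = -(1/2) := by ring
  have e2 : -(1/2) + (n:ℝ) + 1 - n = 1/2 := by ring
  rw [e1, e2]

lemma HKF_sq (y : ℝ) (hy : y ∈ Ioc (-(1/2) : ℝ) (1/2)) (n : ℤ) : y ^ 2 ≤ (y + n) ^ 2 := by
  have h : 0 ≤ (n:ℝ) * (n + 2 * y) := by
    rcases lt_trichotomy n 0 with h | h | h
    · have h1 : (n:ℝ) ≤ -1 := by exact_mod_cast (by omega : n ≤ -1)
      exact mul_nonneg_of_nonpos_of_nonpos (by linarith) (by linarith [hy.2])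
    · simp [h]
    · have h1 : (1:ℝ) ≤ n := by exact_mod_cast h
      exact mul_nonneg (by linarith) (by linarith [hy.1])
  have e : (y + n) ^ 2 = y ^ 2 + (n:ℝ) * (n + 2 * y) := by ring
  rw [e]
  linarith

lemma HKF_I2 {s : ℝ} (hs : 0 < s) :
    ∫ y in Ioc (-(1/2) : ℝ) (1/2), y ^ 2 * hk1 0 s y ≤ 2 * s := by
  have hm : Measurable (fun y : ℝ => hk1 0 s y) :=
    (hk1_measurable 0).comp (measurable_const.prodMk measurable_id)
  have hg : Measurable (fun t : ℝ => ENNReal.ofReal (t ^ 2 * gs1 s t)) := by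
    unfold gs1
    fun_prop
  rw [integral_eq_lintegral_of_nonneg_ae
    (ae_of_all _ fun y => mul_nonneg (sq_nonneg y) (hk1_nonneg s y))
    ((measurable_id.pow_const 2).mul hm).aestronglyMeasurable]
  refine ENNReal.toReal_le_of_le_ofReal (by positivity) ?_
  calc ∫⁻ y in Ioc (-(1/2) : ℝ) (1/2), ENNReal.ofReal (y ^ 2 * hk1 0 s y)
      ≤ ∫⁻ y in Ioc (-(1/2) : ℝ) (1/2),
          ∑' n : ℤ, ENNReal.ofReal ((y + n) ^ 2 * gs1 s (y + n)) := by
        refine setLIntegral_mono' measurableSet_Ioc fun y hy => ?_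
        have h1 : y ^ 2 * hk1 0 s y = ∑' n : ℤ, y ^ 2 * gs1 s (y + n) := by
          unfold hk1
          exact tsum_mul_left.symm
        rw [h1, ENNReal.ofReal_tsum_of_nonneg
          (fun n => mul_nonneg (sq_nonneg y) (gs1_nonneg s _))
          ((gsj_summable hs 0 y).mul_left (y ^ 2))]
        refine ENNReal.tsum_le_tsum fun n => ENNReal.ofReal_le_ofReal ?_
        exact mul_le_mul_of_nonneg_right (HKF_sq y hy n) (gs1_nonneg s _)
    _ = ∑' n : ℤ, ∫⁻ y in Ioc (-(1/2) : ℝ) (1/2),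
          ENNReal.ofReal ((y + n) ^ 2 * gs1 s (y + n)) := by
        refine lintegral_tsum fun n => ?_
        exact (hg.comp (measurable_id.add_const (n:ℝ))).aemeasurable
    _ = ∑' n : ℤ, ∫⁻ t in Ioc (-(1/2) + (n:ℝ)) (-(1/2) + n + 1),
          ENNReal.ofReal (t ^ 2 * gs1 s t) := by
        refine tsum_congr fun n => ?_
        exact HKF_shift _ hg n
    _ = ∫⁻ t, ENNReal.ofReal (t ^ 2 * gs1 s t) := by
        rw [← lintegral_iUnion (fun n : ℤ => measurableSet_Ioc)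
          (pairwise_disjoint_Ioc_add_intCast (-(1/2) : ℝ)), iUnion_Ioc_add_intCast,
          setLIntegral_univ]
    _ = ENNReal.ofReal (2 * s) := by
        rw [← ofReal_integral_eq_lintegral_ofReal (HKF_integrable hs)
          (ae_of_all _ fun t => mul_nonneg (sq_nonneg t) (gs1_nonneg s t)), HKF_mom hs]
    _ ≤ _ := le_rfl

lemma HKF_I0 {s : ℝ} (hs : 0 < s) : ∫ y in Ioc (-(1/2) : ℝ) (1/2), hk1 0 s y = 1 := by
  have h1 := hk_integral hs
  have h2 := HKF_prod (fun _ => hk1 0 s)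
  rw [Finset.prod_const, Finset.card_univ, Fintype.card_fin] at h2
  have h3 : (∫ y in Ioc (-(1/2) : ℝ) (1/2), hk1 0 s y) ^ 3 = 1 := h2.symm.trans h1
  exact (pow_eq_one_iff_of_nonneg (integral_nonneg fun y => hk1_nonneg s y)
    (by norm_num)).1 h3

lemma HKF_hk_cont {s : ℝ} (hs : 0 < s) : Continuous (hk s) := hkD_continuous 0 hs

lemma HKF_cint {f : T3 → ℝ} (hf : Continuous f) : Integrable f lam3 :=
  hf.integrable_of_hasCompactSupport (HasCompactSupport.of_compactSpace _)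

lemma HKF_one {s : ℝ} (hs : 0 < s) (α : Fin 3) :
    ∫ x, crd x α ^ 2 * hk s x ∂lam3 ≤ 2 * s := by
  have h1 : ∀ x : T3, crd x α ^ 2 * hk s x
      = ∏ β, ((if β = α then crd x β ^ 2 else 1) * hk1 0 s (crd x β)) := by
    intro x
    rw [Finset.prod_mul_distrib, Finset.prod_ite_eq', if_pos (Finset.mem_univ α)]
    rfl
  simp only [h1]
  rw [HKF_prod (fun β y => (if β = α then y ^ 2 else 1) * hk1 0 s y)]
  have h2 : ∀ β : Fin 3, ∫ y in Ioc (-(1/2) : ℝ) (1/2), (if β = α then y ^ 2 else 1) * hk1 0 s y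
      = if β = α then ∫ y in Ioc (-(1/2) : ℝ) (1/2), y ^ 2 * hk1 0 s y else 1 := by
    intro β
    split_ifs with h
    · rfl
    · simp only [one_mul]
      exact HKF_I0 hs
  simp only [h2]
  rw [Finset.prod_ite_eq', if_pos (Finset.mem_univ α)]
  exact HKF_I2 hs

theorem hk_moment_two {s : ℝ} (hs : 0 < s) : ∫ x, rr x ^ 2 * hk s x ∂lam3 ≤ 6 * s := by
  have hint : ∀ α : Fin 3, Integrable (fun x : T3 => crd x α ^ 2 * hk s x) lam3 := by
    intro α
    apply HKF_cint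
    have h1 : (fun x : T3 => crd x α ^ 2 * hk s x) = fun x : T3 => ‖x α‖ ^ 2 * hk s x := by
      funext x
      rw [← abs_crd, sq_abs]
    rw [h1]
    exact (((continuous_apply α).norm).pow 2).mul (HKF_hk_cont hs)
  have h1 : ∀ x : T3, rr x ^ 2 * hk s x = ∑ α, crd x α ^ 2 * hk s x := by
    intro x
    rw [rr_sq, Finset.sum_mul]
  simp only [h1]
  rw [integral_finsetSum _ fun α _ => hint α]
  calc ∑ α : Fin 3, ∫ x, crd x α ^ 2 * hk s x ∂lam3 ≤ ∑ α : Fin 3, 2 * s :=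
        Finset.sum_le_sum fun α _ => HKF_one hs α
    _ = 6 * s := by
        rw [Finset.sum_const, Finset.card_univ, Fintype.card_fin, nsmul_eq_mul]
        push_cast
        ring

/-- Cauchy-Schwarz from the second moment. -/
theorem hk_moment_one {s : ℝ} (hs : 0 < s) :
    ∫ x, rr x * hk s x ∂lam3 ≤ 3 * Real.sqrt s := by
  have hs' : 0 < Real.sqrt s := Real.sqrt_pos.2 hs
  have hss : Real.sqrt s * Real.sqrt s = s := Real.mul_self_sqrt hs.le
  have i1 : Integrable (fun x : T3 => rr x * hk s x) lam3 :=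
    HKF_cint (rr_continuous.mul (HKF_hk_cont hs))
  have i2 : Integrable (fun x : T3 => rr x ^ 2 * hk s x) lam3 :=
    HKF_cint ((rr_continuous.pow 2).mul (HKF_hk_cont hs))
  have i3 : Integrable (fun x : T3 => hk s x) lam3 := HKF_cint (HKF_hk_cont hs)
  have hp : ∀ x : T3, rr x * hk s x
      ≤ (5 * Real.sqrt s)⁻¹ * (rr x ^ 2 * hk s x) + 5 / 4 * Real.sqrt s * hk s x := by
    intro x
    have h1 : rr x ≤ (5 * Real.sqrt s)⁻¹ * rr x ^ 2 + 5 / 4 * Real.sqrt s := by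
      have h2 : 0 ≤ (5 * Real.sqrt s)⁻¹ * (rr x - 5 / 2 * Real.sqrt s) ^ 2 := by positivity
      have h3 : (5 * Real.sqrt s)⁻¹ * (rr x - 5 / 2 * Real.sqrt s) ^ 2
          = (5 * Real.sqrt s)⁻¹ * rr x ^ 2 + 5 / 4 * Real.sqrt s - rr x := by
        field_simp
        ring
      linarith
    have h4 := mul_le_mul_of_nonneg_right h1 (hk_nonneg s x)
    calc rr x * hk s x ≤ _ := h4
      _ = _ := by ring
  have h5 : ∫ x, rr x * hk s x ∂lam3
      ≤ ∫ x, ((5 * Real.sqrt s)⁻¹ * (rr x ^ 2 * hk s x) + 5 / 4 * Real.sqrt s * hk s x) ∂lam3 :=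
    integral_mono i1 ((i2.const_mul _).add (i3.const_mul _)) hp
  rw [integral_add (i2.const_mul _) (i3.const_mul _), integral_const_mul, integral_const_mul,
    hk_integral hs, mul_one] at h5
  have h6 := mul_le_mul_of_nonneg_left (hk_moment_two hs)
    (by positivity : (0:ℝ) ≤ (5 * Real.sqrt s)⁻¹)
  have h7 : (5 * Real.sqrt s)⁻¹ * (6 * s) = 6 / 5 * Real.sqrt s := by
    have h8 : 6 * s = 6 * (Real.sqrt s * Real.sqrt s) := by rw [hss]
    rw [h8]
    field_simp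
  linarith

end Pool.Agent.Lib.MP_4952d6_mp

end

/-! ### HK.F2 -/

section

set_option autoImplicit false
set_option linter.unusedSectionVars false
set_option linter.unusedVariables false
open MeasureTheory Function Filter Topology Set

namespace Pool.Agent.Lib.MP_4952d6_mp

/-! # HK.F2: local comparison of the torus kernel with the Gaussian -/

theorem gam_nonneg (s r : ℝ) : 0 ≤ gam s r := by
  unfold gam
  positivity

theorem HKF2_gam (s : ℝ) (x : T3) : gam s (rr x) = ∏ α, gs1 s (crd x α) := by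
  unfold gam gs1
  rw [Finset.prod_mul_distrib, Finset.prod_const, Finset.card_univ, Fintype.card_fin,
    ← Real.exp_sum, rr_sq]
  congr 2
  rw [← Finset.sum_div, Finset.sum_neg_distrib]

theorem HKF2_gs1_le {s : ℝ} (hs : 0 < s) (y : ℝ) : gs1 s y ≤ hk1 0 s y := by
  have h := gsj_summable hs 0 y
  have h1 := h.le_tsum (0 : ℤ) (fun n _ => gs1_nonneg s (y + n))
  unfold hk1
  refine le_trans (le_of_eq ?_) h1
  simp [gsj]

/-- the image `n = 0` alone: `gam s (rr x) = ∏ α, gs1 s (crd x α) ≤ hk s x`. -/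
theorem gam_le_hk {s : ℝ} (hs : 0 < s) (x : T3) : gam s (rr x) ≤ hk s x := by
  rw [HKF2_gam]
  unfold hk hkD
  exact Finset.prod_le_prod (fun α _ => gs1_nonneg _ _) (fun α _ => HKF2_gs1_le hs _)

theorem HKF2_term {s z : ℝ} (hs : 0 < s) (hz : 9 / 16 ≤ z ^ 2) :
    gs1 s z ≤ 2 * Real.exp (-(9 / (128 * s))) * gs1 (2 * s) z := by
  have hpi : 0 < Real.pi := Real.pi_pos
  unfold gs1
  have h1 : (Real.sqrt (4 * Real.pi * s))⁻¹ ≤ 2 * (Real.sqrt (4 * Real.pi * (2 * s)))⁻¹ := by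
    have hA : 0 < Real.sqrt (4 * Real.pi * s) := Real.sqrt_pos.2 (by positivity)
    have hB : 0 < Real.sqrt (4 * Real.pi * (2 * s)) := Real.sqrt_pos.2 (by positivity)
    have hAB : Real.sqrt (4 * Real.pi * (2 * s)) ≤ 2 * Real.sqrt (4 * Real.pi * s) := by
      rw [Real.sqrt_le_left (by positivity), mul_pow, Real.sq_sqrt (by positivity)]
      have : 0 < Real.pi * s := by positivity
      nlinarith
    rw [inv_eq_one_div, inv_eq_one_div, mul_one_div, div_le_div_iff₀ hA hB]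
    linarith
  have h2 : Real.exp (-(z ^ 2) / (4 * s)) ≤
      Real.exp (-(9 / (128 * s))) * Real.exp (-(z ^ 2) / (4 * (2 * s))) := by
    rw [← Real.exp_add, Real.exp_le_exp]
    have e : -(9 / (128 * s)) + -(z ^ 2) / (4 * (2 * s)) - -(z ^ 2) / (4 * s) =
        (z ^ 2 - 9 / 16) / (8 * s) := by
      field_simp
      ring
    have h3 : 0 ≤ (z ^ 2 - 9 / 16) / (8 * s) := div_nonneg (by linarith) (by positivity)
    linarith
  calc (Real.sqrt (4 * Real.pi * s))⁻¹ * Real.exp (-(z ^ 2) / (4 * s))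
      ≤ (2 * (Real.sqrt (4 * Real.pi * (2 * s)))⁻¹) *
        (Real.exp (-(9 / (128 * s))) * Real.exp (-(z ^ 2) / (4 * (2 * s)))) :=
        mul_le_mul h1 h2 (Real.exp_pos _).le (by positivity)
    _ = _ := by ring

theorem HKF2_diff {s y : ℝ} (hs : 0 < s) (hy : |y| ≤ 1 / 4) :
    hk1 0 s y - gs1 s y ≤ 2 * Real.exp (-(9 / (128 * s))) * hk1 0 (2 * s) y := by
  classical
  have h1 : HasSum (fun n : ℤ => gs1 s (y + n)) (hk1 0 s y) := (gsj_summable hs 0 y).hasSum
  have h2 : HasSum (fun n : ℤ => gs1 (2 * s) (y + n)) (hk1 0 (2 * s) y) :=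
    (gsj_summable (by linarith : 0 < 2 * s) 0 y).hasSum
  have h3 : HasSum (fun n : ℤ => if n = 0 then gs1 s y else 0) (gs1 s y) := hasSum_ite_eq _ _
  have h4 := h1.sub h3
  have h5 := h2.mul_left (2 * Real.exp (-(9 / (128 * s))))
  refine hasSum_le (fun n => ?_) h4 h5
  by_cases hn : n = 0
  · subst hn
    rw [if_pos rfl]
    have : y + ((0 : ℤ) : ℝ) = y := by simp
    rw [this, sub_self]
    exact mul_nonneg (by positivity) (gs1_nonneg _ _)
  · rw [if_neg hn, sub_zero]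
    refine HKF2_term hs ?_
    have hy' := abs_le.1 hy
    rcases lt_or_gt_of_ne hn with h | h
    · have : (n : ℝ) ≤ -1 := by exact_mod_cast (by omega : n ≤ -1)
      nlinarith
    · have : (1 : ℝ) ≤ n := by exact_mod_cast (by omega : 1 ≤ n)
      nlinarith

theorem HKF2_bd {s : ℝ} (hs : 0 < s) (hs1 : s ≤ 1) (y : ℝ) : hk1 0 s y ≤ 2 * (Real.sqrt s)⁻¹ := by
  have h1 := hk1_le hs y
  have hpi : 3 < Real.pi := Real.pi_gt_three
  have hq : 0 < Real.sqrt s := Real.sqrt_pos.2 hs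
  have hq1 : Real.sqrt s ≤ 1 := by
    rw [Real.sqrt_le_left (by norm_num)]
    simpa using hs1
  have h2 : 1 ≤ (Real.sqrt s)⁻¹ := (one_le_inv₀ hq).2 hq1
  have h3 : (Real.sqrt (4 * Real.pi * s))⁻¹ ≤ (Real.sqrt s)⁻¹ := by
    refine inv_anti₀ hq (Real.sqrt_le_sqrt ?_)
    nlinarith
  linarith

theorem HKF2_bd2 {s : ℝ} (hs : 0 < s) (hs1 : s ≤ 1) (y : ℝ) :
    hk1 0 (2 * s) y ≤ 2 * (Real.sqrt s)⁻¹ := by
  have h1 := hk1_le (by linarith : 0 < 2 * s) y
  have hpi : 3 < Real.pi := Real.pi_gt_three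
  have hq : 0 < Real.sqrt s := Real.sqrt_pos.2 hs
  have hq1 : Real.sqrt s ≤ 1 := by
    rw [Real.sqrt_le_left (by norm_num)]
    simpa using hs1
  have h2 : 1 ≤ (Real.sqrt s)⁻¹ := (one_le_inv₀ hq).2 hq1
  have h3 : (Real.sqrt (4 * Real.pi * (2 * s)))⁻¹ ≤ (Real.sqrt s)⁻¹ := by
    refine inv_anti₀ hq (Real.sqrt_le_sqrt ?_)
    nlinarith
  linarith

theorem HKF2_exp {s : ℝ} (hs : 0 < s) (hs1 : s ≤ 1) :
    (Real.sqrt s)⁻¹ ^ 3 * Real.exp (-(9 / (128 * s))) ≤ 1400 * Real.exp (-(1 / (32 * s))) := by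
  have hq : 0 < Real.sqrt s := Real.sqrt_pos.2 hs
  have hq1 : Real.sqrt s ≤ 1 := by
    rw [Real.sqrt_le_left (by norm_num)]
    simpa using hs1
  have h2 : 1 ≤ (Real.sqrt s)⁻¹ := (one_le_inv₀ hq).2 hq1
  have h3 : (Real.sqrt s)⁻¹ ^ 3 ≤ (s⁻¹) ^ 2 := by
    have e : (s⁻¹) ^ 2 = (Real.sqrt s)⁻¹ ^ 4 := by
      have : s = Real.sqrt s ^ 2 := (Real.sq_sqrt hs.le).symm
      conv_lhs => rw [this]
      rw [← inv_pow, ← pow_mul]
    rw [e]
    exact pow_le_pow_right₀ h2 (by norm_num)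
  have h4 : Real.exp (-(9 / (128 * s))) = Real.exp (-(5 / (128 * s))) * Real.exp (-(1 / (32 * s))) := by
    rw [← Real.exp_add]
    congr 1
    field_simp
    ring
  have hu : 0 ≤ 5 / (128 * s) := by positivity
  have h5 := Real.quadratic_le_exp_of_nonneg hu
  have h6 : (s⁻¹) ^ 2 * Real.exp (-(5 / (128 * s))) ≤ 1400 := by
    rw [Real.exp_neg]
    have hE := Real.exp_pos (5 / (128 * s))
    rw [← div_eq_mul_inv, div_le_iff₀ hE]
    have e : (5 / (128 * s)) ^ 2 = 25 / 16384 * (s⁻¹) ^ 2 := by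
      field_simp
      norm_num
    rw [e] at h5
    have h7 : 0 < (s⁻¹) ^ 2 := by positivity
    nlinarith
  rw [h4]
  have hE2 := (Real.exp_pos (-(1 / (32 * s)))).le
  have hE3 := (Real.exp_pos (-(5 / (128 * s)))).le
  calc (Real.sqrt s)⁻¹ ^ 3 * (Real.exp (-(5 / (128 * s))) * Real.exp (-(1 / (32 * s))))
      = ((Real.sqrt s)⁻¹ ^ 3 * Real.exp (-(5 / (128 * s)))) * Real.exp (-(1 / (32 * s))) := by ring
    _ ≤ ((s⁻¹) ^ 2 * Real.exp (-(5 / (128 * s)))) * Real.exp (-(1 / (32 * s))) :=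
        mul_le_mul_of_nonneg_right (mul_le_mul_of_nonneg_right h3 hE3) hE2
    _ ≤ 1400 * Real.exp (-(1 / (32 * s))) := mul_le_mul_of_nonneg_right h6 hE2

/-- all other images are at distance at least `3/4`. -/
theorem hk_sub_gam_le : ∃ C : ℝ, 0 ≤ C ∧ ∀ s : ℝ, 0 < s → s ≤ 1 → ∀ x : T3, rr x ≤ 1 / 4 →
    hk s x - gam s (rr x) ≤ C * Real.exp (-(1 / (32 * s))) := by
  refine ⟨100000, by norm_num, fun s hs hs1 x hx => ?_⟩
  rw [HKF2_gam]
  unfold hk hkD
  rw [Fin.prod_univ_three, Fin.prod_univ_three]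
  have hq : 0 < Real.sqrt s := Real.sqrt_pos.2 hs
  set q := (Real.sqrt s)⁻¹ with hqd
  have hq0 : 0 < q := inv_pos.2 hq
  set E := Real.exp (-(9 / (128 * s))) with hE
  have hE0 : 0 < E := Real.exp_pos _
  have hd : ∀ α, hk1 0 s (crd x α) - gs1 s (crd x α) ≤ 4 * E * q := fun α => by
    have h1 := HKF2_diff (y := crd x α) hs ((abs_crd_le_rr x α).trans hx)
    have h2 := HKF2_bd2 hs hs1 (crd x α)
    have h3 : 2 * E * hk1 0 (2 * s) (crd x α) ≤ 2 * E * (2 * q) :=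
      mul_le_mul_of_nonneg_left h2 (by positivity)
    linarith
  have hd0 : ∀ α, 0 ≤ hk1 0 s (crd x α) - gs1 s (crd x α) := fun α =>
    sub_nonneg.2 (HKF2_gs1_le hs _)
  have hb : ∀ α, hk1 0 s (crd x α) ≤ 2 * q := fun α => HKF2_bd hs hs1 _
  have hg0 : ∀ α, 0 ≤ gs1 s (crd x α) := fun α => gs1_nonneg _ _
  have hg : ∀ α, gs1 s (crd x α) ≤ 2 * q := fun α => (HKF2_gs1_le hs _).trans (hb α)
  have hb0 : ∀ α, 0 ≤ hk1 0 s (crd x α) := fun α => (hg0 α).trans (HKF2_gs1_le hs _)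
  simp only [Pi.zero_apply]
  have key : ∀ a b c a' b' c' D H : ℝ, 0 ≤ D → 0 ≤ H → 0 ≤ b → b ≤ H → 0 ≤ c → c ≤ H → 0 ≤ a' → a' ≤ H →
      0 ≤ b' → b' ≤ H → a - a' ≤ D → b - b' ≤ D → c - c' ≤ D →
      a * b * c - a' * b' * c' ≤ 3 * (H * H * D) := by
    intro a b c a' b' c' D H hD hH b0 b1 c0 c1 a0 a1 b0' b1' da db dc
    have e : a * b * c - a' * b' * c' = (b * c) * (a - a') + (a' * c) * (b - b') + (a' * b') * (c - c') := by
      ring
    rw [e]
    have t1 : (b * c) * (a - a') ≤ H * H * D :=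
      (mul_le_mul_of_nonneg_left da (by positivity)).trans
        (mul_le_mul_of_nonneg_right (mul_le_mul b1 c1 c0 hH) hD)
    have t2 : (a' * c) * (b - b') ≤ H * H * D :=
      (mul_le_mul_of_nonneg_left db (by positivity)).trans
        (mul_le_mul_of_nonneg_right (mul_le_mul a1 c1 c0 hH) hD)
    have t3 : (a' * b') * (c - c') ≤ H * H * D :=
      (mul_le_mul_of_nonneg_left dc (by positivity)).trans
        (mul_le_mul_of_nonneg_right (mul_le_mul a1 b1' b0' hH) hD)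
    linarith
  have h1 := key (hk1 0 s (crd x 0)) (hk1 0 s (crd x 1)) (hk1 0 s (crd x 2))
    (gs1 s (crd x 0)) (gs1 s (crd x 1)) (gs1 s (crd x 2)) (4 * E * q) (2 * q)
    (by positivity) (by positivity) (hb0 1) (hb 1) (hb0 2) (hb 2) (hg0 0) (hg 0) (hg0 1) (hg 1)
    (hd 0) (hd 1) (hd 2)
  have h2 : 3 * ((2 * q) * (2 * q) * (4 * E * q)) = 48 * (q ^ 3 * E) := by ring
  rw [h2] at h1
  have h3 := HKF2_exp hs hs1
  rw [← hqd, ← hE] at h3
  have h4 := Real.exp_pos (-(1 / (32 * s)))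
  linarith

end Pool.Agent.Lib.MP_4952d6_mp

end

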