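import Pool.Agent.Lib.MP_4952d6_mp.Pk.G10

/-! Merged modules (to save import time): HK.C2, HK.D2. -/

/-! ### HK.C2 -/

section

set_option autoImplicit false
set_option linter.unusedSectionVars false
set_option linter.unusedVariables false
open MeasureTheory Function Filter Topology Set

namespace Pool.Agent.Lib.MP_4952d6_mp

/-! # HK.C2: Fourier series of the derivatives, exponential bounds for `s ≥ 1`

Differentiate the series of `hasSum_hk1` termwise and use uniqueness of derivatives (`HK.B`). -/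

theorem HKC2_te (t : ℝ) : t * Real.exp (-t) ≤ 1 := by
  have h1 := Real.add_one_le_exp t
  have h2 : Real.exp t * Real.exp (-t) = 1 := by
    rw [← Real.exp_add, add_neg_cancel, Real.exp_zero]
  have h3 := Real.exp_pos (-t)
  nlinarith [mul_le_mul_of_nonneg_right h1 h3.le]

/-- the coefficients are summable -/
theorem HKC2_hasSum_zero {s : ℝ} (hs : 0 < s) :
    HasSum (fun k : ℤ => Real.exp (-(s * (2 * Real.pi * k) ^ 2))) (hk1 0 s 0) := by
  have h1 := hasSum_hk1 hs 0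
  rw [← Complex.hasSum_ofReal]
  refine h1.congr_fun ?_
  intro k
  have h2 : fourier k (((0 : ℝ) : UnitAddCircle)) = 1 := by
    rw [QuotientAddGroup.mk_zero]
    exact fourier_eval_zero k
  rw [h2, mul_one]

theorem HKC2_u {s : ℝ} (hs : 0 < s) :
    Summable (fun k : ℤ => (1 + (2 * Real.pi * k) ^ 2) * Real.exp (-(s * (2 * Real.pi * k) ^ 2))) := by
  have h1 := (HKC2_hasSum_zero (half_pos hs)).summable.mul_left (1 + 2 / s)
  refine Summable.of_nonneg_of_le (fun k => by positivity) (fun k => ?_) h1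
  set x : ℝ := 2 * Real.pi * k with hx
  have e1 : Real.exp (-(s * x ^ 2)) = Real.exp (-(s / 2 * x ^ 2)) * Real.exp (-(s / 2 * x ^ 2)) := by
    rw [← Real.exp_add]
    congr 1
    ring
  have h2 := HKC2_te (s / 2 * x ^ 2)
  have h3 : Real.exp (-(s / 2 * x ^ 2)) ≤ 1 := by
    rw [Real.exp_le_one_iff]
    have : 0 ≤ s / 2 * x ^ 2 := by positivity
    linarith
  have h4 : x ^ 2 * Real.exp (-(s / 2 * x ^ 2)) ≤ 2 / s := by
    have h5 : x ^ 2 * Real.exp (-(s / 2 * x ^ 2))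
        = 2 / s * (s / 2 * x ^ 2 * Real.exp (-(s / 2 * x ^ 2))) := by
      field_simp
    rw [h5]
    calc 2 / s * (s / 2 * x ^ 2 * Real.exp (-(s / 2 * x ^ 2))) ≤ 2 / s * 1 :=
          mul_le_mul_of_nonneg_left h2 (by positivity)
      _ = 2 / s := mul_one _
  have h6 : (1 + x ^ 2) * Real.exp (-(s / 2 * x ^ 2)) ≤ 1 + 2 / s := by
    rw [add_mul, one_mul]
    exact add_le_add h3 h4
  rw [e1, ← mul_assoc]
  exact mul_le_mul_of_nonneg_right h6 (Real.exp_pos _).le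

theorem HKC2_norm_coef (k : ℤ) : ‖(2 * Real.pi * Complex.I * (k : ℂ))‖ = |2 * Real.pi * (k : ℝ)| := by
  have h1 : (2 * Real.pi * Complex.I * (k : ℂ)) = ((2 * Real.pi * (k : ℝ) : ℝ) : ℂ) * Complex.I := by
    push_cast
    ring
  rw [h1, norm_mul, Complex.norm_I, mul_one, Complex.norm_real, Real.norm_eq_abs]

theorem HKC2_norm_term (s : ℝ) (j : ℕ) (k : ℤ) (y : UnitAddCircle) :
    ‖(2 * Real.pi * Complex.I * (k : ℂ)) ^ j
      * (((Real.exp (-(s * (2 * Real.pi * k) ^ 2)) : ℝ) : ℂ) * fourier k y)‖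
      = |2 * Real.pi * (k : ℝ)| ^ j * Real.exp (-(s * (2 * Real.pi * k) ^ 2)) := by
  have h1 : ‖(fourier k y : ℂ)‖ = 1 := by
    rw [fourier_apply]
    exact Circle.norm_coe _
  rw [norm_mul, norm_pow, HKC2_norm_coef, norm_mul, h1, mul_one, Complex.norm_real,
    Real.norm_eq_abs, Real.abs_exp]

theorem HKC2_deriv {s : ℝ} (hs : 0 < s) (j : ℕ) (hj : j ≤ 1) (F : ℝ → ℂ) (F' : ℂ) (y : ℝ)
    (hF : ∀ z : ℝ, HasSum (fun k : ℤ => (2 * Real.pi * Complex.I * (k : ℂ)) ^ j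
      * (((Real.exp (-(s * (2 * Real.pi * k) ^ 2)) : ℝ) : ℂ) * fourier k (z : UnitAddCircle))) (F z))
    (hF' : HasDerivAt F F' y) :
    HasSum (fun k : ℤ => (2 * Real.pi * Complex.I * (k : ℂ)) ^ (j + 1)
      * (((Real.exp (-(s * (2 * Real.pi * k) ^ 2)) : ℝ) : ℂ) * fourier k (y : UnitAddCircle))) F' := by
  have hb : ∀ (k : ℤ) (z : ℝ), ‖(2 * Real.pi * Complex.I * (k : ℂ)) ^ (j + 1)
      * (((Real.exp (-(s * (2 * Real.pi * k) ^ 2)) : ℝ) : ℂ) * fourier k (z : UnitAddCircle))‖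
      ≤ (1 + (2 * Real.pi * k) ^ 2) * Real.exp (-(s * (2 * Real.pi * k) ^ 2)) := by
    intro k z
    rw [HKC2_norm_term]
    refine mul_le_mul_of_nonneg_right ?_ (Real.exp_pos _).le
    have h1 : |2 * Real.pi * (k : ℝ)| ^ 2 = (2 * Real.pi * k) ^ 2 := sq_abs _
    interval_cases j
    · rw [zero_add, pow_one, ← h1]
      nlinarith [abs_nonneg (2 * Real.pi * (k : ℝ)), sq_nonneg (|2 * Real.pi * (k : ℝ)| - 1)]
    · rw [h1]
      linarith
  have hd : ∀ (k : ℤ) (z : ℝ), HasDerivAt (fun z : ℝ => (2 * Real.pi * Complex.I * (k : ℂ)) ^ j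
      * (((Real.exp (-(s * (2 * Real.pi * k) ^ 2)) : ℝ) : ℂ) * fourier k (z : UnitAddCircle)))
      ((2 * Real.pi * Complex.I * (k : ℂ)) ^ (j + 1)
      * (((Real.exp (-(s * (2 * Real.pi * k) ^ 2)) : ℝ) : ℂ) * fourier k (z : UnitAddCircle))) z := by
    intro k z
    have h1 := ((hasDerivAt_fourier (1 : ℝ) k z).const_mul
      (((Real.exp (-(s * (2 * Real.pi * k) ^ 2)) : ℝ) : ℂ))).const_mul
      ((2 * Real.pi * Complex.I * (k : ℂ)) ^ j)
    refine h1.congr_deriv ?_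
    rw [Complex.ofReal_one, div_one, pow_succ]
    ring
  have hu := HKC2_u hs
  have h1 := hasDerivAt_tsum hu hd hb (hF 0).summable y
  have h2 : (fun z : ℝ => ∑' k : ℤ, (2 * Real.pi * Complex.I * (k : ℂ)) ^ j
      * (((Real.exp (-(s * (2 * Real.pi * k) ^ 2)) : ℝ) : ℂ) * fourier k (z : UnitAddCircle))) = F := by
    funext z
    exact (hF z).tsum_eq
  rw [h2] at h1
  have h3 := h1.unique hF'
  have h4 : Summable (fun k : ℤ => (2 * Real.pi * Complex.I * (k : ℂ)) ^ (j + 1)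
      * (((Real.exp (-(s * (2 * Real.pi * k) ^ 2)) : ℝ) : ℂ) * fourier k (y : UnitAddCircle))) :=
    Summable.of_norm_bounded hu (fun k => hb k y)
  rw [← h3]
  exact h4.hasSum

/-- a series dominated by `x ^ 2 exp (-s x ^ 2)`, `x = 2 π k`, is at most `exp (-s)` for `s ≥ 1` -/
theorem HKC2_bound {s : ℝ} (hs : 1 ≤ s) {a : ℤ → ℂ} {A : ℂ} (hA : HasSum a A)
    (ha : ∀ k : ℤ, ‖a k‖ ≤ (2 * Real.pi * k) ^ 2 * Real.exp (-(s * (2 * Real.pi * k) ^ 2))) :
    ‖A‖ ≤ Real.exp (-s) := by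
  have h1 := HKC2_hasSum_zero (s := 1 / 2) (by norm_num)
  have h2 : HasSum (fun k : ℤ => if k = 0 then (1 : ℝ) else 0) 1 := hasSum_ite_eq 0 1
  have h3 := (h1.sub h2).mul_left (2 * Real.exp (-s))
  have h4 := hA.norm_le_of_bounded h3 (fun k => ?_)
  · have h5 := hk1_le (s := 1 / 2) (by norm_num) 0
    have h6 : (2 : ℝ) ≤ Real.sqrt (4 * Real.pi * (1 / 2)) := by
      apply Real.le_sqrt_of_sq_le
      nlinarith [Real.pi_gt_three]
    have h7 : (Real.sqrt (4 * Real.pi * (1 / 2)))⁻¹ ≤ 1 / 2 := by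
      rw [inv_le_comm₀ (by linarith) (by norm_num)]
      linarith
    have h8 : hk1 0 (1 / 2) 0 - 1 ≤ 1 / 2 := by linarith
    calc ‖A‖ ≤ 2 * Real.exp (-s) * (hk1 0 (1 / 2) 0 - 1) := h4
      _ ≤ 2 * Real.exp (-s) * (1 / 2) := mul_le_mul_of_nonneg_left h8 (by positivity)
      _ = Real.exp (-s) := by ring
  · refine (ha k).trans ?_
    by_cases hk : k = 0
    · subst hk
      simp
    · rw [if_neg hk, sub_zero]
      set x : ℝ := 2 * Real.pi * k with hx
      have hk1 : (1 : ℝ) ≤ (k : ℝ) ^ 2 := by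
        have h5 : 1 ≤ k ^ 2 := by
          have h6 : 0 < k ^ 2 := by positivity
          linarith
        exact_mod_cast h5
      have hx1 : 1 ≤ x ^ 2 := by
        have h5 : x ^ 2 = (2 * Real.pi) ^ 2 * (k : ℝ) ^ 2 := by
          rw [hx]
          ring
        rw [h5]
        have h6 : (1 : ℝ) ≤ (2 * Real.pi) ^ 2 := by nlinarith [Real.pi_gt_three]
        nlinarith
      have h5 : Real.exp (-(s * x ^ 2)) ≤ Real.exp (-s) * Real.exp (1 - x ^ 2) := by
        rw [← Real.exp_add]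
        apply Real.exp_le_exp.mpr
        nlinarith
      have h6 : x ^ 2 * Real.exp (1 - x ^ 2) ≤ 2 * Real.exp (-(1 / 2 * x ^ 2)) := by
        have h7 : Real.exp (1 - x ^ 2)
            = Real.exp (-(x ^ 2 / 2 - 1)) * Real.exp (-(1 / 2 * x ^ 2)) := by
          rw [← Real.exp_add]
          congr 1
          ring
        have h8 : x ^ 2 / 2 * Real.exp (-(x ^ 2 / 2 - 1)) ≤ 1 := by
          have h9 := Real.add_one_le_exp (x ^ 2 / 2 - 1)
          have h10 : Real.exp (x ^ 2 / 2 - 1) * Real.exp (-(x ^ 2 / 2 - 1)) = 1 := by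
            rw [← Real.exp_add, add_neg_cancel, Real.exp_zero]
          have h11 := mul_le_mul_of_nonneg_right h9 (Real.exp_pos (-(x ^ 2 / 2 - 1))).le
          rw [h10] at h11
          linarith
        rw [h7]
        have h12 := (Real.exp_pos (-(1 / 2 * x ^ 2))).le
        calc x ^ 2 * (Real.exp (-(x ^ 2 / 2 - 1)) * Real.exp (-(1 / 2 * x ^ 2)))
            = 2 * (x ^ 2 / 2 * Real.exp (-(x ^ 2 / 2 - 1))) * Real.exp (-(1 / 2 * x ^ 2)) := by ring
          _ ≤ 2 * 1 * Real.exp (-(1 / 2 * x ^ 2)) := by gcongr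
          _ = 2 * Real.exp (-(1 / 2 * x ^ 2)) := by ring
      calc x ^ 2 * Real.exp (-(s * x ^ 2)) ≤ x ^ 2 * (Real.exp (-s) * Real.exp (1 - x ^ 2)) :=
            mul_le_mul_of_nonneg_left h5 (by positivity)
        _ = Real.exp (-s) * (x ^ 2 * Real.exp (1 - x ^ 2)) := by ring
        _ ≤ Real.exp (-s) * (2 * Real.exp (-(1 / 2 * x ^ 2))) :=
            mul_le_mul_of_nonneg_left h6 (Real.exp_pos _).le
        _ = 2 * Real.exp (-s) * Real.exp (-(1 / 2 * x ^ 2)) := by ring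

/-- Derivatives: `hk1 1` and `hk1 2` have the termwise differentiated series. -/
theorem hasSum_hk1_one {s : ℝ} (hs : 0 < s) (y : ℝ) :
    HasSum (fun k : ℤ => (2 * Real.pi * Complex.I * (k : ℂ))
      * (((Real.exp (-(s * (2 * Real.pi * k) ^ 2)) : ℝ) : ℂ)
      * fourier k (y : UnitAddCircle))) ((hk1 1 s y : ℝ) : ℂ) := by
  have h1 := HKC2_deriv hs 0 zero_le_one (fun z => ((hk1 0 s z : ℝ) : ℂ)) ((hk1 1 s y : ℝ) : ℂ) y
    (fun z => by simpa only [pow_zero, one_mul] using hasSum_hk1 hs z)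
    (hk1_hasDerivAt hs y).ofReal_comp
  simpa only [zero_add, pow_one] using h1

theorem hasSum_hk1_two {s : ℝ} (hs : 0 < s) (y : ℝ) :
    HasSum (fun k : ℤ => (2 * Real.pi * Complex.I * (k : ℂ)) ^ 2
      * (((Real.exp (-(s * (2 * Real.pi * k) ^ 2)) : ℝ) : ℂ)
      * fourier k (y : UnitAddCircle))) ((hk1 2 s y : ℝ) : ℂ) := by
  exact HKC2_deriv hs 1 le_rfl (fun z => ((hk1 1 s z : ℝ) : ℂ)) ((hk1 2 s y : ℝ) : ℂ) y
    (fun z => by simpa only [pow_one] using hasSum_hk1_one hs z)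
    (hk1d_hasDerivAt hs y).ofReal_comp

theorem hk1_one_le_exp {s : ℝ} (hs : 1 ≤ s) (y : ℝ) : |hk1 1 s y| ≤ Real.exp (-s) := by
  have h1 := HKC2_bound hs (hasSum_hk1_one (lt_of_lt_of_le one_pos hs) y) (fun k => ?_)
  · rwa [Complex.norm_real, Real.norm_eq_abs] at h1
  · have h2 := HKC2_norm_term s 1 k (y : UnitAddCircle)
    rw [pow_one, pow_one] at h2
    rw [h2]
    refine mul_le_mul_of_nonneg_right ?_ (Real.exp_pos _).le
    by_cases hk : k = 0
    · subst hk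
      simp
    · have hk1 : (1 : ℝ) ≤ |(k : ℝ)| := by
        have h5 : 1 ≤ |k| := Int.one_le_abs hk
        exact_mod_cast h5
      have h6 : 1 ≤ |2 * Real.pi * (k : ℝ)| := by
        rw [abs_mul, abs_of_pos (by positivity : (0 : ℝ) < 2 * Real.pi)]
        nlinarith [Real.pi_gt_three]
      rw [← sq_abs (2 * Real.pi * (k : ℝ))]
      nlinarith

theorem hk1_two_le_exp {s : ℝ} (hs : 1 ≤ s) (y : ℝ) : |hk1 2 s y| ≤ Real.exp (-s) := by
  have h1 := HKC2_bound hs (hasSum_hk1_two (lt_of_lt_of_le one_pos hs) y) (fun k => ?_)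
  · rwa [Complex.norm_real, Real.norm_eq_abs] at h1
  · rw [HKC2_norm_term, sq_abs]

end Pool.Agent.Lib.MP_4952d6_mp

end

/-! ### HK.D2 -/

section

set_option autoImplicit false
set_option linter.unusedSectionVars false
set_option linter.unusedVariables false
open MeasureTheory Function Filter Topology Set

namespace Pool.Agent.Lib.MP_4952d6_mp

/-! # HK.D2: heat kernel on the torus: bounds and derivatives

Products over the three coordinates; `WD` needs: bounded, Lipschitz (mean value in one coordinate, `hk1_bdd`),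
and the derivative in the coordinate `α` from `hk1_hasDerivAt`, `hk1d_hasDerivAt`. For the derivative use
`hkD_coe` with `y = crd x + t e_α` (no condition on `crd x` needed because of periodicity). -/

theorem HKD2_split (D : Fin 3 → ℕ) (α : Fin 3) (s : ℝ) (x : T3) :
    hkD D s x = hk1 (D α) s (crd x α) * ∏ β ∈ Finset.univ.erase α, hk1 (D β) s (crd x β) := by
  unfold hkD
  exact (Finset.mul_prod_erase _ _ (Finset.mem_univ α)).symm

theorem HKD2_card (α : Fin 3) : (Finset.univ.erase α : Finset (Fin 3)).card = 2 := by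
  rw [Finset.card_erase_of_mem (Finset.mem_univ α)]
  rfl

theorem hk_le_hk {s r : ℝ} (hs : 0 < s) (hsr : s ≤ r) (x : T3) :
    hk s x ≤ Real.sqrt (r / s) ^ 3 * hk r x := by
  have h1 : ∏ α : Fin 3, hk1 0 s (crd x α) ≤ ∏ α : Fin 3, (Real.sqrt (r / s) * hk1 0 r (crd x α)) :=
    Finset.prod_le_prod (fun α _ => hk1_nonneg s _) (fun α _ => hk1_le_hk1 hs hsr _)
  rw [Finset.prod_mul_distrib, Finset.prod_const, Finset.card_univ, Fintype.card_fin] at h1
  exact h1

theorem hk_le {s : ℝ} (hs : 0 < s) (x : T3) :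
    hk s x ≤ (1 + (Real.sqrt (4 * Real.pi * s))⁻¹) ^ 3 := by
  have h1 : ∏ α : Fin 3, hk1 0 s (crd x α) ≤ ∏ α : Fin 3, (1 + (Real.sqrt (4 * Real.pi * s))⁻¹) :=
    Finset.prod_le_prod (fun α _ => hk1_nonneg s _) (fun α _ => hk1_le hs _)
  rw [Finset.prod_const, Finset.card_univ, Fintype.card_fin] at h1
  exact h1

theorem HKD2_sqrt2 {s : ℝ} (hs : 0 < s) (y : ℝ) : hk1 0 s y ≤ Real.sqrt 2 * hk1 0 (2 * s) y := by
  have h := hk1_le_hk1 hs (show s ≤ 2 * s by linarith) y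
  have h2 : 2 * s / s = 2 := by field_simp
  rw [h2] at h
  exact h

/-- bound of one factor: `|hk1 j| ≤ c_j hk1 0 (2 s)` -/
noncomputable def HKD2_c (s : ℝ) : ℕ → ℝ
  | 0 => Real.sqrt 2
  | 1 => 2 / Real.sqrt s
  | _ => 2 / s

theorem HKD2_c_nonneg {s : ℝ} (hs : 0 < s) (j : ℕ) : 0 ≤ HKD2_c s j := by
  rcases j with _ | _ | j
  · exact Real.sqrt_nonneg _
  · show 0 ≤ 2 / Real.sqrt s
    positivity
  · show 0 ≤ 2 / s
    positivity

theorem HKD2_factor {s : ℝ} (hs : 0 < s) {j : ℕ} (hj : j ≤ 2) (y : ℝ) :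
    |hk1 j s y| ≤ HKD2_c s j * hk1 0 (2 * s) y := by
  interval_cases j
  · rw [abs_of_nonneg (hk1_nonneg s y)]
    exact HKD2_sqrt2 hs y
  · exact hk1_one_le hs y
  · exact hk1_two_le hs y

theorem HKD2_abs_le {s : ℝ} (hs : 0 < s) (D : Fin 3 → ℕ) (hD : ∀ α, D α ≤ 2) (x : T3) :
    |hkD D s x| ≤ (∏ α, HKD2_c s (D α)) * hk (2 * s) x := by
  have h1 : ∏ α : Fin 3, |hk1 (D α) s (crd x α)| ≤ ∏ α : Fin 3, (HKD2_c s (D α) * hk1 0 (2 * s) (crd x α)) :=
    Finset.prod_le_prod (fun α _ => abs_nonneg _) (fun α _ => HKD2_factor hs (hD α) _)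
  rw [Finset.prod_mul_distrib] at h1
  have h2 : |hkD D s x| = ∏ α : Fin 3, |hk1 (D α) s (crd x α)| := by
    unfold hkD
    rw [Finset.abs_prod]
  rw [h2]
  exact h1

theorem HKD2_single_le (a b : Fin 3) : (Pi.single a 1 : Fin 3 → ℕ) b ≤ 1 := by
  by_cases hβ : b = a
  · subst hβ; simp
  · simp [Pi.single_eq_of_ne hβ]

theorem dhk_le (α : Fin 3) {s : ℝ} (hs : 0 < s) (x : T3) :
    |dhk α s x| ≤ 4 / Real.sqrt s * hk (2 * s) x := by
  have h1 := HKD2_abs_le hs (Pi.single α 1) (fun β => (HKD2_single_le α β).trans (by norm_num)) x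
  have h2 : ∏ β : Fin 3, HKD2_c s ((Pi.single α 1 : Fin 3 → ℕ) β) = 4 / Real.sqrt s := by
    rw [← Finset.mul_prod_erase _ _ (Finset.mem_univ α), Pi.single_eq_same]
    have h3 : ∏ β ∈ Finset.univ.erase α, HKD2_c s ((Pi.single α 1 : Fin 3 → ℕ) β)
        = ∏ β ∈ Finset.univ.erase α, Real.sqrt 2 := by
      refine Finset.prod_congr rfl fun β hβ => ?_
      rw [Pi.single_eq_of_ne (Finset.ne_of_mem_erase hβ)]
      rfl
    rw [h3, Finset.prod_const, HKD2_card, Real.sq_sqrt (by norm_num)]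
    show 2 / Real.sqrt s * 2 = 4 / Real.sqrt s
    ring
  rw [h2] at h1
  exact h1

theorem ddhk_le (α β : Fin 3) {s : ℝ} (hs : 0 < s) (x : T3) :
    |ddhk α β s x| ≤ 6 / s * hk (2 * s) x := by
  have h1 := HKD2_abs_le hs (Pi.single α 1 + Pi.single β 1) (fun γ => by
    have a1 := HKD2_single_le α γ
    have a2 := HKD2_single_le β γ
    rw [Pi.add_apply]
    omega) x
  refine h1.trans (mul_le_mul_of_nonneg_right ?_ (hk_nonneg _ _))
  have hs2 : Real.sqrt s * Real.sqrt s = s := Real.mul_self_sqrt hs.le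
  have hs0 : 0 < Real.sqrt s := Real.sqrt_pos.2 hs
  have h20 : Real.sqrt 2 * Real.sqrt 2 = 2 := Real.mul_self_sqrt (by norm_num)
  have h21 : Real.sqrt 2 ≤ 1.5 := by
    rw [Real.sqrt_le_left (by norm_num)]
    norm_num
  by_cases hab : α = β
  · subst hab
    rw [← Finset.mul_prod_erase _ _ (Finset.mem_univ α)]
    have h3 : ∏ γ ∈ Finset.univ.erase α, HKD2_c s ((Pi.single α 1 + Pi.single α 1 : Fin 3 → ℕ) γ)
        = ∏ γ ∈ Finset.univ.erase α, Real.sqrt 2 := by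
      refine Finset.prod_congr rfl fun γ hγ => ?_
      rw [Pi.add_apply, Pi.single_eq_of_ne (Finset.ne_of_mem_erase hγ)]
      rfl
    rw [h3, Finset.prod_const, HKD2_card, Real.sq_sqrt (by norm_num), Pi.add_apply, Pi.single_eq_same]
    show 2 / s * 2 ≤ 6 / s
    rw [div_mul_eq_mul_div]
    exact div_le_div_of_nonneg_right (by norm_num) hs.le
  · rw [← Finset.mul_prod_erase _ _ (Finset.mem_univ α),
      ← Finset.mul_prod_erase _ _ (Finset.mem_erase.2 ⟨Ne.symm hab, Finset.mem_univ β⟩)]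
    have h3 : ∏ γ ∈ (Finset.univ.erase α).erase β, HKD2_c s ((Pi.single α 1 + Pi.single β 1 : Fin 3 → ℕ) γ)
        = ∏ γ ∈ (Finset.univ.erase α).erase β, Real.sqrt 2 := by
      refine Finset.prod_congr rfl fun γ hγ => ?_
      rw [Pi.add_apply, Pi.single_eq_of_ne (Finset.ne_of_mem_erase hγ),
        Pi.single_eq_of_ne (Finset.ne_of_mem_erase (Finset.mem_of_mem_erase hγ))]
      rfl
    have h4 : ((Finset.univ.erase α).erase β : Finset (Fin 3)).card = 1 := by
      rw [Finset.card_erase_of_mem (Finset.mem_erase.2 ⟨Ne.symm hab, Finset.mem_univ β⟩), HKD2_card]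
    rw [h3, Finset.prod_const, h4, pow_one, Pi.add_apply, Pi.add_apply, Pi.single_eq_same,
      Pi.single_eq_same, Pi.single_eq_of_ne hab, Pi.single_eq_of_ne (Ne.symm hab)]
    show 2 / Real.sqrt s * (2 / Real.sqrt s * Real.sqrt 2) ≤ 6 / s
    have h5 : 2 / Real.sqrt s * (2 / Real.sqrt s * Real.sqrt 2) = 4 * Real.sqrt 2 / (Real.sqrt s * Real.sqrt s) := by
      field_simp
      ring
    rw [h5, hs2]
    exact div_le_div_of_nonneg_right (by linarith) hs.le

theorem HKD2_ddhk_self (α : Fin 3) (s : ℝ) (x : T3) :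
    ddhk α α s x = (∏ β ∈ Finset.univ.erase α, hk1 0 s (crd x β)) * hk1 2 s (crd x α) := by
  unfold ddhk
  rw [HKD2_split _ α, mul_comm, Pi.add_apply, Pi.single_eq_same]
  congr 1
  refine Finset.prod_congr rfl fun γ hγ => ?_
  rw [Pi.add_apply, Pi.single_eq_of_ne (Finset.ne_of_mem_erase hγ), add_zero]

theorem hk_hasDerivAt_time {s : ℝ} (hs : 0 < s) (x : T3) :
    HasDerivAt (fun t => hk t x) (∑ α, ddhk α α s x) s := by
  have h := HasDerivAt.fun_finsetProd (u := (Finset.univ : Finset (Fin 3)))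
    (f := fun α t => hk1 0 t (crd x α)) (f' := fun α => hk1 2 s (crd x α)) (x := s)
    (fun α _ => hk1_hasDerivAt_time hs (crd x α))
  refine h.congr_deriv ?_
  refine Finset.sum_congr rfl fun α _ => ?_
  rw [HKD2_ddhk_self, smul_eq_mul]

theorem HKD2_tau (D : Fin 3 → ℕ) (α : Fin 3) (s : ℝ) (x : T3) (t : ℝ) :
    hkD D s (x + tau α t) = hk1 (D α) s (crd x α + t) * ∏ β ∈ Finset.univ.erase α, hk1 (D β) s (crd x β) := by
  rw [HKD_eq D s (x + tau α t) (fun β => if β = α then crd x α + t else crd x β) (fun β => by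
    by_cases hβ : β = α
    · subst hβ
      rw [if_pos rfl, AddCircle.coe_add, coe_crd, Pi.add_apply, tau, Pi.single_eq_same]
    · rw [if_neg hβ, coe_crd, Pi.add_apply, tau, Pi.single_eq_of_ne hβ, add_zero])]
  rw [← Finset.mul_prod_erase _ _ (Finset.mem_univ α), if_pos rfl]
  congr 1
  refine Finset.prod_congr rfl fun β hβ => ?_
  rw [if_neg (Finset.ne_of_mem_erase hβ)]

theorem HKD2_add (D : Fin 3 → ℕ) (α : Fin 3) (s : ℝ) (x : T3) :
    hkD (D + Pi.single α 1) s x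
      = hk1 (D α + 1) s (crd x α) * ∏ β ∈ Finset.univ.erase α, hk1 (D β) s (crd x β) := by
  rw [HKD2_split _ α, Pi.add_apply, Pi.single_eq_same]
  congr 1
  refine Finset.prod_congr rfl fun γ hγ => ?_
  rw [Pi.add_apply, Pi.single_eq_of_ne (Finset.ne_of_mem_erase hγ), add_zero]

theorem HKD2_deriv {j : ℕ} (hj : j ≤ 1) {s : ℝ} (hs : 0 < s) (y : ℝ) :
    HasDerivAt (hk1 j s) (hk1 (j + 1) s y) y := by
  interval_cases j
  · exact hk1_hasDerivAt hs y
  · exact hk1d_hasDerivAt hs y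

theorem HKD2_bdd (D : Fin 3 → ℕ) {s : ℝ} (hs : 0 < s) (S : Finset (Fin 3)) :
    ∃ C, 0 ≤ C ∧ ∀ x : T3, |∏ β ∈ S, hk1 (D β) s (crd x β)| ≤ C := by
  choose C hC using fun j => hk1_bdd hs j
  refine ⟨∏ β ∈ S, |C (D β)|, Finset.prod_nonneg fun _ _ => abs_nonneg _, fun x => ?_⟩
  rw [Finset.abs_prod]
  exact Finset.prod_le_prod (fun _ _ => abs_nonneg _) fun β _ => (hC (D β) _).trans (le_abs_self _)

theorem HKD2_lip {j : ℕ} (hj : j ≤ 1) {s : ℝ} (hs : 0 < s) :
    ∃ C, 0 ≤ C ∧ ∀ y t : ℝ, |hk1 j s (y + t) - hk1 j s y| ≤ C * |t| := by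
  obtain ⟨C, hC⟩ := hk1_bdd hs (j + 1)
  refine ⟨|C|, abs_nonneg _, fun y t => ?_⟩
  have h := (convex_univ (𝕜 := ℝ) (E := ℝ)).norm_image_sub_le_of_norm_hasDerivWithin_le
    (f := hk1 j s) (f' := fun y => hk1 (j + 1) s y) (C := |C|)
    (fun y _ => (HKD2_deriv hj hs y).hasDerivWithinAt)
    (fun y _ => (hC y).trans (le_abs_self C)) (mem_univ y) (mem_univ (y + t))
  rw [add_sub_cancel_left] at h
  exact h

/-- Directional derivatives. -/
theorem hkD_WD (D : Fin 3 → ℕ) (α : Fin 3) (hD : D α ≤ 1) {s : ℝ} (hs : 0 < s) :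
    WD lam3 (tau α) (hkD D s) (hkD (D + Pi.single α 1) s) where
  zero := tau_zero α
  sm := (hkD_continuous D hs).stronglyMeasurable
  bdd := by
    obtain ⟨C, _, hC⟩ := HKD2_bdd D hs Finset.univ
    exact ⟨C, fun x => hC x⟩
  lip := by
    obtain ⟨C, hC0, hC⟩ := HKD2_bdd D hs (Finset.univ.erase α)
    obtain ⟨L, hL0, hL⟩ := HKD2_lip hD hs
    refine ⟨L * C, fun x t => ?_⟩
    rw [HKD2_tau, HKD2_split D α, ← sub_mul, norm_mul, Real.norm_eq_abs, Real.norm_eq_abs]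
    have h1 := mul_le_mul (hL (crd x α) t) (hC x) (abs_nonneg _) (mul_nonneg hL0 (abs_nonneg t))
    refine h1.trans (le_of_eq ?_)
    ring
  deriv := by
    refine Eventually.of_forall fun x => ?_
    have h1 : (fun t : ℝ => hkD D s (x + tau α t)) = fun t =>
        hk1 (D α) s (crd x α + t) * ∏ β ∈ Finset.univ.erase α, hk1 (D β) s (crd x β) := by
      funext t
      exact HKD2_tau D α s x t
    rw [h1, HKD2_add]
    refine HasDerivAt.mul_const ?_ _
    have h2 : HasDerivAt (hk1 (D α) s) (hk1 (D α + 1) s (crd x α)) (crd x α + 0) := by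
      rw [add_zero]
      exact HKD2_deriv hD hs _
    exact h2.comp_const_add (crd x α) 0

theorem hk_WD (α : Fin 3) {s : ℝ} (hs : 0 < s) : WD lam3 (tau α) (hk s) (dhk α s) := by
  have h := hkD_WD 0 α (by simp) hs
  rw [zero_add] at h
  exact h

theorem dhk_WD (α β : Fin 3) {s : ℝ} (hs : 0 < s) :
    WD lam3 (tau β) (dhk α s) (ddhk α β s) :=
  hkD_WD (Pi.single α 1) β (HKD2_single_le α β) hs

end Pool.Agent.Lib.MP_4952d6_mp

end

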