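import Pool.Agent.Lib.MP_4952d6_mp.Pk.G10
import Pool.Agent.Lib.MP_4952d6_mp.Pk.G11
import Pool.Agent.Lib.MP_4952d6_mp.Pk.G12

/-! Merged modules (to save import time): HK.G, HK.E2. -/

/-! ### HK.G -/

section

set_option autoImplicit false
set_option linter.unusedSectionVars false
set_option linter.unusedVariables false
open MeasureTheory Function Filter Topology Set

namespace Pool.Agent.Lib.MP_4952d6_mp

/-! # HK.G: product of kernels at two points

`p_t² ≤ C t^{-3/2} p_t` (sup bound), so `∫ p_t(x-y)² p_u(x-w) dx ≤ C t^{-3/2} p_{t+u}(w-y) ≤ C t^{-3/2} p_{2t}(w-y)`;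
termwise `exp(-r²/8t) = exp(-r²/16t)²` and (sum of squares) ≤ (square of the sum) give `p_{2t} ≤ C t^{3/2} p_{4t}²`.
Then Cauchy-Schwarz in `x`. -/

/-- constant of `HKG_gs1` -/
noncomputable def HKG_c1 : ℝ := 16 * Real.pi * (Real.sqrt (8 * Real.pi))⁻¹

theorem HKG_c1_nonneg : 0 ≤ HKG_c1 := by
  unfold HKG_c1
  have := Real.pi_pos
  positivity

theorem HKG_gs1 {t : ℝ} (ht : 0 < t) (y : ℝ) :
    gs1 (2 * t) y = HKG_c1 * Real.sqrt t * gs1 (4 * t) y ^ 2 := by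
  have hpi := Real.pi_pos
  have h1 : Real.sqrt (4 * Real.pi * (2 * t)) = Real.sqrt (8 * Real.pi) * Real.sqrt t := by
    rw [← Real.sqrt_mul (by positivity)]
    congr 1
    ring
  have h2 : (Real.sqrt (4 * Real.pi * (4 * t)))⁻¹ ^ 2 = (16 * Real.pi * t)⁻¹ := by
    rw [inv_pow, Real.sq_sqrt (by positivity)]
    congr 1
    ring
  have h3 : Real.exp (-(y ^ 2) / (4 * (4 * t))) ^ 2 = Real.exp (-(y ^ 2) / (4 * (2 * t))) := by
    rw [← Real.exp_nat_mul]
    congr 1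
    push_cast
    field_simp
    ring
  have h4 : Real.sqrt t * Real.sqrt t = t := Real.mul_self_sqrt ht.le
  have h5 : 0 < Real.sqrt t := Real.sqrt_pos.2 ht
  have h6 : 0 < Real.sqrt (8 * Real.pi) := Real.sqrt_pos.2 (by positivity)
  have h7 : (Real.sqrt (8 * Real.pi) * Real.sqrt t)⁻¹
      = HKG_c1 * Real.sqrt t * (16 * Real.pi * t)⁻¹ := by
    unfold HKG_c1
    have e : t = Real.sqrt t * Real.sqrt t := h4.symm
    rw [mul_inv]
    have e2 : (16 * Real.pi * t)⁻¹ = (16 * Real.pi)⁻¹ * ((Real.sqrt t)⁻¹ * (Real.sqrt t)⁻¹) := by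
      rw [mul_inv, ← mul_inv (Real.sqrt t), h4]
    rw [e2]
    have e3 : Real.sqrt t * (Real.sqrt t)⁻¹ = 1 := mul_inv_cancel₀ h5.ne'
    have e4 : (16 * Real.pi) * (16 * Real.pi)⁻¹ = 1 := mul_inv_cancel₀ (by positivity)
    calc (Real.sqrt (8 * Real.pi))⁻¹ * (Real.sqrt t)⁻¹
        = ((16 * Real.pi) * (16 * Real.pi)⁻¹) * (Real.sqrt t * (Real.sqrt t)⁻¹)
          * ((Real.sqrt (8 * Real.pi))⁻¹ * (Real.sqrt t)⁻¹) := by rw [e3, e4]; ring
      _ = _ := by ring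
  unfold gs1
  rw [mul_pow, h2, h3, h1, h7]
  ring

theorem HKG_tsum_sq {a : ℤ → ℝ} (ha : Summable a) (h0 : ∀ n, 0 ≤ a n) :
    Summable (fun n => a n ^ 2) ∧ ∑' n, a n ^ 2 ≤ (∑' n, a n) ^ 2 := by
  have h1 : ∀ n, a n ^ 2 ≤ (∑' n, a n) * a n := by
    intro n
    rw [pow_two]
    exact mul_le_mul_of_nonneg_right (ha.le_tsum n (fun j _ => h0 j)) (h0 n)
  have h2 : Summable (fun n => (∑' n, a n) * a n) := ha.mul_left _
  have h3 : Summable (fun n => a n ^ 2) :=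
    Summable.of_nonneg_of_le (fun n => sq_nonneg _) h1 h2
  refine ⟨h3, ?_⟩
  calc ∑' n, a n ^ 2 ≤ ∑' n, (∑' n, a n) * a n := h3.tsum_le_tsum h1 h2
    _ = (∑' n, a n) ^ 2 := by rw [tsum_mul_left, pow_two]

theorem HKG_hk1 {t : ℝ} (ht : 0 < t) (y : ℝ) :
    hk1 0 (2 * t) y ≤ HKG_c1 * Real.sqrt t * hk1 0 (4 * t) y ^ 2 := by
  have h4 : (0 : ℝ) < 4 * t := by positivity
  have hs : Summable fun n : ℤ => gs1 (4 * t) (y + n) := gsj_summable h4 0 y
  obtain ⟨h1, h2⟩ := HKG_tsum_sq hs (fun n => gs1_nonneg _ _)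
  have e1 : hk1 0 (2 * t) y = HKG_c1 * Real.sqrt t * ∑' n : ℤ, gs1 (4 * t) (y + n) ^ 2 := by
    rw [← tsum_mul_left]
    show (∑' n : ℤ, gs1 (2 * t) (y + n)) = _
    exact tsum_congr (fun n => HKG_gs1 ht _)
  have e2 : hk1 0 (4 * t) y = ∑' n : ℤ, gs1 (4 * t) (y + n) := rfl
  rw [e1, e2]
  exact mul_le_mul_of_nonneg_left h2 (mul_nonneg HKG_c1_nonneg (Real.sqrt_nonneg _))

theorem hk_two_le_sq : ∃ C : ℝ, 0 ≤ C ∧ ∀ t : ℝ, 0 < t → ∀ x : T3,
    hk (2 * t) x ≤ C * Real.sqrt t ^ 3 * hk (4 * t) x ^ 2 := by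
  refine ⟨HKG_c1 ^ 3, pow_nonneg HKG_c1_nonneg 3, ?_⟩
  intro t ht x
  have h1 : hk (2 * t) x ≤ ∏ α : Fin 3, (HKG_c1 * Real.sqrt t * hk1 0 (4 * t) (crd x α) ^ 2) := by
    show (∏ α : Fin 3, hk1 0 (2 * t) (crd x α)) ≤ _
    exact Finset.prod_le_prod (fun α _ => hk1_nonneg _ _) (fun α _ => HKG_hk1 ht _)
  refine h1.trans (le_of_eq ?_)
  have e : hk (4 * t) x = ∏ α : Fin 3, hk1 0 (4 * t) (crd x α) := rfl
  rw [e, Finset.prod_mul_distrib, Finset.prod_pow, Finset.prod_const, Finset.card_univ,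
    Fintype.card_fin, mul_pow]

theorem HKG_cont {s : ℝ} (hs : 0 < s) : Continuous (hk s) := hkD_continuous 0 hs

theorem HKG_int {f : T3 → ℝ} (hf : Continuous f) : Integrable f lam3 :=
  hf.integrable_of_hasCompactSupport (HasCompactSupport.of_compactSpace f)

/-- convolution of two kernels with two centres -/
theorem HKG_conv {s r : ℝ} (hs : 0 < s) (hr : 0 < r) (y w : T3) :
    ∫ x, hk s (x - y) * hk r (x - w) ∂lam3 = hk (s + r) (w - y) := by
  have h1 : ∫ x, hk s (x - y) * hk r (x - w) ∂lam3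
      = ∫ x, hk s ((w + x) - y) * hk r ((w + x) - w) ∂lam3 :=
    (integral_add_left_eq_self (fun x => hk s (x - y) * hk r (x - w)) w).symm
  rw [h1]
  have h2 : ∀ x : T3, hk s ((w + x) - y) * hk r ((w + x) - w) = hk s ((y - w) - x) * hk r x := by
    intro x
    have e1 : (w + x) - y = -((y - w) - x) := by abel
    have e2 : (w + x) - w = x := by abel
    rw [e1, e2, hk_neg]
  simp_rw [h2]
  rw [hk_conv hs hr, ← hk_neg]
  congr 1
  abel

/-- the sup bound for small times -/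
theorem HKG_sup {t : ℝ} (ht : 0 < t) (ht1 : t ≤ 1) (x : T3) :
    hk t x ≤ ((1 + (Real.sqrt (4 * Real.pi))⁻¹) * (Real.sqrt t)⁻¹) ^ 3 := by
  refine (hk_le ht x).trans ?_
  have hpi := Real.pi_pos
  have h5 : 0 < Real.sqrt t := Real.sqrt_pos.2 ht
  have h6 : Real.sqrt t ≤ 1 := Real.sqrt_le_one.2 ht1
  have h7 : 1 ≤ (Real.sqrt t)⁻¹ := (one_le_inv₀ h5).2 h6
  refine pow_le_pow_left₀ (by positivity) ?_ 3
  have e : Real.sqrt (4 * Real.pi * t) = Real.sqrt (4 * Real.pi) * Real.sqrt t :=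
    Real.sqrt_mul (by positivity) t
  rw [e, mul_inv, add_mul, one_mul]
  linarith

/-- the bound for one pair of centres -/
theorem HKG_pair : ∃ C : ℝ, 0 ≤ C ∧ ∀ u t : ℝ, 0 < u → u ≤ t → t ≤ 1 → ∀ w y : T3,
    ∫ x, hk t (x - y) ^ 2 * hk u (x - w) ∂lam3 ≤ C * hk (4 * t) (w - y) ^ 2 := by
  obtain ⟨C1, hC1, h1⟩ := hk_two_le_sq
  set c2 : ℝ := 1 + (Real.sqrt (4 * Real.pi))⁻¹ with hc2
  have hc2' : 0 ≤ c2 := by positivity
  refine ⟨c2 ^ 3 * Real.sqrt 2 ^ 3 * C1, by positivity, ?_⟩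
  intro u t hu hut ht1 w y
  have ht : 0 < t := lt_of_lt_of_le hu hut
  have h5 : 0 < Real.sqrt t := Real.sqrt_pos.2 ht
  have hct : Continuous (fun x => hk t (x - y)) := (HKG_cont ht).comp (continuous_id.sub continuous_const)
  have hcu : Continuous (fun x => hk u (x - w)) := (HKG_cont hu).comp (continuous_id.sub continuous_const)
  have i1 : Integrable (fun x => hk t (x - y) ^ 2 * hk u (x - w)) lam3 :=
    HKG_int ((hct.pow 2).mul hcu)
  have i2 : Integrable (fun x => (c2 * (Real.sqrt t)⁻¹) ^ 3 * (hk t (x - y) * hk u (x - w))) lam3 :=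
    HKG_int (continuous_const.mul (hct.mul hcu))
  have s1 : ∫ x, hk t (x - y) ^ 2 * hk u (x - w) ∂lam3
      ≤ ∫ x, (c2 * (Real.sqrt t)⁻¹) ^ 3 * (hk t (x - y) * hk u (x - w)) ∂lam3 := by
    refine integral_mono i1 i2 (fun x => ?_)
    show hk t (x - y) ^ 2 * hk u (x - w) ≤ (c2 * (Real.sqrt t)⁻¹) ^ 3 * (hk t (x - y) * hk u (x - w))
    have a1 := HKG_sup ht ht1 (x - y)
    have a2 : 0 ≤ hk t (x - y) * hk u (x - w) := mul_nonneg (hk_nonneg _ _) (hk_nonneg _ _)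
    have a3 := mul_le_mul_of_nonneg_right a1 a2
    calc hk t (x - y) ^ 2 * hk u (x - w) = hk t (x - y) * (hk t (x - y) * hk u (x - w)) := by ring
      _ ≤ _ := a3
  rw [integral_const_mul, HKG_conv ht hu] at s1
  have htu : 0 < t + u := by positivity
  have s2 : hk (t + u) (w - y) ≤ Real.sqrt 2 ^ 3 * hk (2 * t) (w - y) := by
    refine (hk_le_hk htu (by linarith : t + u ≤ 2 * t) (w - y)).trans ?_
    refine mul_le_mul_of_nonneg_right ?_ (hk_nonneg _ _)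
    refine pow_le_pow_left₀ (Real.sqrt_nonneg _) (Real.sqrt_le_sqrt ?_) 3
    rw [div_le_iff₀ htu]
    linarith
  have s3 := h1 t ht (w - y)
  have b1 : 0 ≤ (c2 * (Real.sqrt t)⁻¹) ^ 3 := by positivity
  have b2 : (0 : ℝ) ≤ Real.sqrt 2 ^ 3 := by positivity
  calc ∫ x, hk t (x - y) ^ 2 * hk u (x - w) ∂lam3
      ≤ (c2 * (Real.sqrt t)⁻¹) ^ 3 * hk (t + u) (w - y) := s1
    _ ≤ (c2 * (Real.sqrt t)⁻¹) ^ 3 * (Real.sqrt 2 ^ 3 * hk (2 * t) (w - y)) :=
        mul_le_mul_of_nonneg_left s2 b1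
    _ ≤ (c2 * (Real.sqrt t)⁻¹) ^ 3 * (Real.sqrt 2 ^ 3 * (C1 * Real.sqrt t ^ 3
          * hk (4 * t) (w - y) ^ 2)) :=
        mul_le_mul_of_nonneg_left (mul_le_mul_of_nonneg_left s3 b2) b1
    _ = c2 ^ 3 * Real.sqrt 2 ^ 3 * C1 * ((Real.sqrt t)⁻¹ * Real.sqrt t) ^ 3
          * hk (4 * t) (w - y) ^ 2 := by ring
    _ = c2 ^ 3 * Real.sqrt 2 ^ 3 * C1 * hk (4 * t) (w - y) ^ 2 := by
        rw [inv_mul_cancel₀ h5.ne', one_pow, mul_one]

theorem hk_three : ∃ C : ℝ, 0 ≤ C ∧ ∀ u t : ℝ, 0 < u → u ≤ t → t ≤ 1 → ∀ w y z : T3,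
    ∫ x, hk t (x - y) * hk t (x - z) * hk u (x - w) ∂lam3
      ≤ C * (hk (4 * t) (w - y) * hk (4 * t) (w - z)) := by
  obtain ⟨C, hC, h1⟩ := HKG_pair
  refine ⟨C, hC, ?_⟩
  intro u t hu hut ht1 w y z
  have ht : 0 < t := lt_of_lt_of_le hu hut
  have ht4 : 0 < 4 * t := by positivity
  set A := hk (4 * t) (w - y) with hA
  set B := hk (4 * t) (w - z) with hB
  have hA0 : 0 < A := hk_pos ht4 _
  have hB0 : 0 < B := hk_pos ht4 _
  have hcy : Continuous (fun x => hk t (x - y)) := (HKG_cont ht).comp (continuous_id.sub continuous_const)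
  have hcz : Continuous (fun x => hk t (x - z)) := (HKG_cont ht).comp (continuous_id.sub continuous_const)
  have hcu : Continuous (fun x => hk u (x - w)) := (HKG_cont hu).comp (continuous_id.sub continuous_const)
  have i1 : Integrable (fun x => hk t (x - y) * hk t (x - z) * hk u (x - w)) lam3 :=
    HKG_int ((hcy.mul hcz).mul hcu)
  have iy : Integrable (fun x => hk t (x - y) ^ 2 * hk u (x - w)) lam3 :=
    HKG_int ((hcy.pow 2).mul hcu)
  have iz : Integrable (fun x => hk t (x - z) ^ 2 * hk u (x - w)) lam3 :=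
    HKG_int ((hcz.pow 2).mul hcu)
  have s1 : ∫ x, hk t (x - y) * hk t (x - z) * hk u (x - w) ∂lam3
      ≤ ∫ x, ((B / (2 * A)) * (hk t (x - y) ^ 2 * hk u (x - w))
        + (A / (2 * B)) * (hk t (x - z) ^ 2 * hk u (x - w))) ∂lam3 := by
    refine integral_mono i1 ((iy.const_mul _).add (iz.const_mul _)) (fun x => ?_)
    show hk t (x - y) * hk t (x - z) * hk u (x - w)
      ≤ (B / (2 * A)) * (hk t (x - y) ^ 2 * hk u (x - w))
        + (A / (2 * B)) * (hk t (x - z) ^ 2 * hk u (x - w))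
    have a0 : 0 ≤ hk u (x - w) := hk_nonneg _ _
    have a1 : hk t (x - y) * hk t (x - z)
        ≤ (B / (2 * A)) * hk t (x - y) ^ 2 + (A / (2 * B)) * hk t (x - z) ^ 2 := by
      have e : (B / (2 * A)) * hk t (x - y) ^ 2 + (A / (2 * B)) * hk t (x - z) ^ 2
          - hk t (x - y) * hk t (x - z)
          = (B * hk t (x - y) - A * hk t (x - z)) ^ 2 / (2 * A * B) := by
        field_simp
        ring
      have e2 : 0 ≤ (B * hk t (x - y) - A * hk t (x - z)) ^ 2 / (2 * A * B) := by positivity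
      linarith
    calc hk t (x - y) * hk t (x - z) * hk u (x - w)
        ≤ ((B / (2 * A)) * hk t (x - y) ^ 2 + (A / (2 * B)) * hk t (x - z) ^ 2) * hk u (x - w) :=
          mul_le_mul_of_nonneg_right a1 a0
      _ = _ := by ring
  have s2 : ∫ x, ((B / (2 * A)) * (hk t (x - y) ^ 2 * hk u (x - w))
        + (A / (2 * B)) * (hk t (x - z) ^ 2 * hk u (x - w))) ∂lam3
      = (B / (2 * A)) * (∫ x, hk t (x - y) ^ 2 * hk u (x - w) ∂lam3)
        + (A / (2 * B)) * ∫ x, hk t (x - z) ^ 2 * hk u (x - w) ∂lam3 := by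
    rw [integral_add (iy.const_mul _) (iz.const_mul _), integral_const_mul, integral_const_mul]
  rw [s2] at s1
  have hy := h1 u t hu hut ht1 w y
  have hz := h1 u t hu hut ht1 w z
  have b1 : 0 ≤ B / (2 * A) := by positivity
  have b2 : 0 ≤ A / (2 * B) := by positivity
  calc ∫ x, hk t (x - y) * hk t (x - z) * hk u (x - w) ∂lam3
      ≤ (B / (2 * A)) * (∫ x, hk t (x - y) ^ 2 * hk u (x - w) ∂lam3)
        + (A / (2 * B)) * ∫ x, hk t (x - z) ^ 2 * hk u (x - w) ∂lam3 := s1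
    _ ≤ (B / (2 * A)) * (C * A ^ 2) + (A / (2 * B)) * (C * B ^ 2) :=
        add_le_add (mul_le_mul_of_nonneg_left hy b1) (mul_le_mul_of_nonneg_left hz b2)
    _ = C * (A * B) := by
        field_simp
        ring

end Pool.Agent.Lib.MP_4952d6_mp

end

/-! ### HK.E2 -/

section

set_option autoImplicit false
set_option linter.unusedSectionVars false
set_option linter.unusedVariables false
open MeasureTheory Function Filter Topology Set

namespace Pool.Agent.Lib.MP_4952d6_mp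

/-! # HK.E2: Fourier coefficients of the derivatives, convergence to the mean

`fc3` of a `WD` derivative: `WD.fourier`. For `s ≤ 1` use `hk_le`, for `s ≥ 1` the one dimensional exponential bounds. -/

theorem fc3_dhk (α : Fin 3) {s : ℝ} (hs : 0 < s) (p : Fin 3 → ℤ) :
    fc3 (fun x => (dhk α s x : ℂ)) p
      = Complex.I * (kc p α : ℂ) * ((Real.exp (-(s * ksq p)) : ℝ) : ℂ) := by
  have h := (hk_WD α hs).ofReal.fourier (ch_continuous p).stronglyMeasurable (ch_norm p) (p α)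
    (ch_add_tau p α)
  have h2 := fc3_hk hs p
  unfold fc3 at h2 ⊢
  rw [h, h2]
  unfold kc
  push_cast
  ring

theorem fc3_ddhk (α β : Fin 3) {s : ℝ} (hs : 0 < s) (p : Fin 3 → ℤ) :
    fc3 (fun x => (ddhk α β s x : ℂ)) p
      = -((kc p α * kc p β : ℝ) : ℂ) * ((Real.exp (-(s * ksq p)) : ℝ) : ℂ) := by
  have h := (dhk_WD α β hs).ofReal.fourier (ch_continuous p).stronglyMeasurable (ch_norm p) (p β)
    (ch_add_tau p β)
  have h2 := fc3_dhk α hs p
  unfold fc3 at h2 ⊢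
  rw [h, h2]
  unfold kc
  push_cast
  linear_combination (2 * Real.pi * (p β : ℂ) * (2 * Real.pi * (p α : ℂ)) *
    Complex.exp (-(s * ksq p))) * Complex.I_sq

theorem HKE2_exp_le {s : ℝ} (hs : 1 ≤ s) : Real.exp (-s) ≤ 1 := by
  rw [Real.exp_le_one_iff]
  linarith

theorem HKE2_two {s : ℝ} (hs : 1 ≤ s) {j : ℕ} (hj : j ≤ 2) (y : ℝ) : |hk1 j s y| ≤ 2 := by
  have h0 := HKE2_exp_le hs
  interval_cases j
  · have h1 := hk1_sub_one_le hs y
    have h2 : |hk1 0 s y| ≤ |hk1 0 s y - 1| + |(1 : ℝ)| := by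
      have h3 : hk1 0 s y = (hk1 0 s y - 1) + 1 := by ring
      conv_lhs => rw [h3]
      exact abs_add_le _ _
    rw [abs_one] at h2
    linarith
  · exact (hk1_one_le_exp hs y).trans (by linarith)
  · exact (hk1_two_le_exp hs y).trans (by linarith)

theorem HKE2_der {s : ℝ} (hs : 1 ≤ s) {j : ℕ} (hj1 : 1 ≤ j) (hj : j ≤ 2) (y : ℝ) :
    |hk1 j s y| ≤ Real.exp (-s) := by
  interval_cases j
  · exact hk1_one_le_exp hs y
  · exact hk1_two_le_exp hs y

theorem HKE2_D {s : ℝ} (hs : 1 ≤ s) (D : Fin 3 → ℕ) (hD : ∀ α, D α ≤ 2) (α : Fin 3) (hα : 1 ≤ D α) (x : T3) :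
    |hkD D s x| ≤ 7 * Real.exp (-s) := by
  rw [HKD2_split D α, abs_mul, Finset.abs_prod]
  have h1 := HKE2_der hs hα (hD α) (crd x α)
  have h2 : ∏ β ∈ Finset.univ.erase α, |hk1 (D β) s (crd x β)| ≤ ∏ β ∈ Finset.univ.erase α, (2 : ℝ) :=
    Finset.prod_le_prod (fun _ _ => abs_nonneg _) fun β _ => HKE2_two hs (hD β) _
  rw [Finset.prod_const, HKD2_card] at h2
  have h3 := mul_le_mul h1 h2 (Finset.prod_nonneg fun _ _ => abs_nonneg _) (Real.exp_pos _).le
  have h4 := Real.exp_pos (-s)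
  refine h3.trans ?_
  linarith

theorem HKE2_hk {s : ℝ} (hs : 1 ≤ s) (x : T3) : |hk s x - 1| ≤ 7 * Real.exp (-s) := by
  have e : hk s x = hk1 0 s (crd x 0) * hk1 0 s (crd x 1) * hk1 0 s (crd x 2) := by
    unfold hk hkD
    rw [Fin.prod_univ_three]
    rfl
  rw [e]
  have a0 := hk1_sub_one_le hs (crd x 0)
  have a1 := hk1_sub_one_le hs (crd x 1)
  have a2 := hk1_sub_one_le hs (crd x 2)
  have b1 := HKE2_two hs (show 0 ≤ 2 by norm_num) (crd x 1)
  have b2 := HKE2_two hs (show 0 ≤ 2 by norm_num) (crd x 2)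
  generalize hk1 0 s (crd x 0) = u at *
  generalize hk1 0 s (crd x 1) = v at *
  generalize hk1 0 s (crd x 2) = w at *
  have h1 : u * v * w - 1 = (u - 1) * (v * w) + (v - 1) * w + (w - 1) := by ring
  rw [h1]
  have hE := Real.exp_pos (-s)
  have c1 : |(u - 1) * (v * w)| ≤ Real.exp (-s) * (2 * 2) := by
    rw [abs_mul, abs_mul]
    exact mul_le_mul a0 (mul_le_mul b1 b2 (abs_nonneg _) (by norm_num)) (by positivity) hE.le
  have c2 : |(v - 1) * w| ≤ Real.exp (-s) * 2 := by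
    rw [abs_mul]
    exact mul_le_mul a1 b2 (abs_nonneg _) hE.le
  have d1 := abs_add_le ((u - 1) * (v * w) + (v - 1) * w) (w - 1)
  have d2 := abs_add_le ((u - 1) * (v * w)) ((v - 1) * w)
  linarith

/-- `|p_s - 1| ≤ C s^{-3/2}` for all `s > 0`. -/
theorem hk_sub_one_le : ∃ C : ℝ, 0 ≤ C ∧ ∀ s : ℝ, 0 < s → ∀ x : T3,
    |hk s x - 1| ≤ C * (Real.sqrt s)⁻¹ ^ 3 := by
  refine ⟨14, by norm_num, fun s hs x => ?_⟩
  have hu : 0 < Real.sqrt s := Real.sqrt_pos.2 hs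
  rcases le_or_gt s 1 with h1 | h1
  · have hu1 : Real.sqrt s ≤ 1 := by
      rw [← Real.sqrt_one]
      exact Real.sqrt_le_sqrt h1
    have hi1 : 1 ≤ (Real.sqrt s)⁻¹ := (one_le_inv₀ hu).2 hu1
    have h2 := hk_le hs x
    have h3 : (Real.sqrt (4 * Real.pi * s))⁻¹ ≤ (Real.sqrt s)⁻¹ := by
      refine inv_anti₀ hu (Real.sqrt_le_sqrt ?_)
      have hpi := Real.pi_gt_three
      nlinarith
    have h4 : (1 + (Real.sqrt (4 * Real.pi * s))⁻¹) ^ 3 ≤ (2 * (Real.sqrt s)⁻¹) ^ 3 := by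
      refine pow_le_pow_left₀ (by positivity) ?_ 3
      linarith
    have h5 : (2 * (Real.sqrt s)⁻¹) ^ 3 = 8 * (Real.sqrt s)⁻¹ ^ 3 := by ring
    have h6 : 1 ≤ (Real.sqrt s)⁻¹ ^ 3 := one_le_pow₀ hi1
    have h7 := hk_nonneg s x
    rw [abs_le]
    constructor
    · linarith
    · linarith
  · have h2 := HKE2_hk h1.le x
    refine h2.trans ?_
    have h3 : Real.exp (-s) ≤ 2 * (Real.sqrt s)⁻¹ ^ 3 := by
      have h4 := Real.quadratic_le_exp_of_nonneg hs.le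
      have h5 : 1 ≤ Real.sqrt s := by
        rw [Real.one_le_sqrt]
        exact h1.le
      have h6 : Real.sqrt s ^ 3 ≤ s ^ 2 := by
        have h7 : s ^ 2 = Real.sqrt s ^ 4 := by
          have h8 := Real.sq_sqrt hs.le
          calc s ^ 2 = (Real.sqrt s ^ 2) ^ 2 := by rw [h8]
            _ = Real.sqrt s ^ 4 := by ring
        rw [h7]
        exact pow_le_pow_right₀ h5 (by norm_num)
      rw [Real.exp_neg, inv_pow, ← div_eq_mul_inv, inv_le_comm₀ (Real.exp_pos s) (by positivity), inv_div,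
        div_le_iff₀ (by norm_num)]
      linarith
    linarith

/-- exponential decay of `p_s - 1` and of the derivatives for `s ≥ 1` -/
theorem hk_exp : ∃ C : ℝ, 0 ≤ C ∧ ∀ s : ℝ, 1 ≤ s → ∀ x : T3, |hk s x - 1| ≤ C * Real.exp (-s)
    ∧ (∀ α, |dhk α s x| ≤ C * Real.exp (-s)) ∧ (∀ α β, |ddhk α β s x| ≤ C * Real.exp (-s)) := by
  refine ⟨7, by norm_num, fun s hs x => ⟨HKE2_hk hs x, fun α => ?_, fun α β => ?_⟩⟩
  · exact HKE2_D hs (Pi.single α 1) (fun β => (HKD2_single_le α β).trans (by norm_num)) α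
      (by rw [Pi.single_eq_same]) x
  · refine HKE2_D hs (Pi.single α 1 + Pi.single β 1) (fun γ => ?_) α ?_ x
    · have a1 := HKD2_single_le α γ
      have a2 := HKD2_single_le β γ
      rw [Pi.add_apply]
      omega
    · rw [Pi.add_apply, Pi.single_eq_same]
      omega


end Pool.Agent.Lib.MP_4952d6_mp

end

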