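import Pool.Agent.Lib.MP_4952d6_mp.Pk.G01
import Pool.Agent.Lib.MP_4952d6_mp.Pk.G07
import Pool.Agent.Lib.MP_4952d6_mp.Pk.G10
import Pool.Agent.Lib.MP_4952d6_mp.Pk.G11
import Pool.Agent.Lib.MP_4952d6_mp.Pk.G12
import Pool.Agent.Lib.MP_4952d6_mp.Pk.G13
import Pool.Agent.Lib.MP_4952d6_mp.Pk.G14
import Pool.Agent.Lib.MP_4952d6_mp.Pk.G15

/-! Merged modules (to save import time): Trunc, HK.All, U.Par, U.SBA, U.MHA. -/

/-! ### Trunc -/

section

set_option autoImplicit false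
set_option linter.unusedSectionVars false
set_option linter.unusedVariables false
open MeasureTheory Function Filter Topology Set
open scoped ENNReal

namespace Pool.Agent.Lib.MP_4952d6_mp

/-- Truncation in height and range. -/
noncomputable def tr (u : ℝ → ℝ) (n K r : ℝ) : ℝ := if r < K then min (u r) n else 0

section tr
variable {u : ℝ → ℝ}

lemma tr_meas (hu : Measurable u) (n K : ℝ) : Measurable (tr u n K) :=
  Measurable.ite measurableSet_Iio (hu.min measurable_const) measurable_const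

lemma tr_nonneg (hu : ∀ r, 0 ≤ u r) {n : ℝ} (hn : 0 ≤ n) (K r : ℝ) : 0 ≤ tr u n K r := by
  unfold tr; split_ifs
  · exact le_min (hu r) hn
  · exact le_rfl

lemma tr_le (hu : ∀ r, 0 ≤ u r) (n K r : ℝ) : tr u n K r ≤ u r := by
  unfold tr; split_ifs
  · exact min_le_left _ _
  · exact hu r

lemma tr_le_n {n : ℝ} (hn : 0 ≤ n) (K r : ℝ) : tr u n K r ≤ n := by
  unfold tr; split_ifs
  · exact min_le_right _ _
  · exact hn

lemma tr_zero {n K r : ℝ} (hr : K ≤ r) : tr u n K r = 0 := by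
  unfold tr; rw [if_neg (not_lt.2 hr)]

lemma tr_mono (hu : ∀ r, 0 ≤ u r) {n n' K K' : ℝ} (hn' : 0 ≤ n') (hn : n ≤ n') (hK : K ≤ K')
    (r : ℝ) : tr u n K r ≤ tr u n' K' r := by
  unfold tr
  by_cases h : r < K
  · rw [if_pos h, if_pos (h.trans_le hK)]
    exact min_le_min le_rfl hn
  · rw [if_neg h]
    split_ifs
    · exact le_min (hu r) hn'
    · exact le_rfl

lemma tr_int (hu : Measurable u) (hu0 : ∀ r, 0 ≤ u r)
    (hi : IntegrableOn (fun r => r ^ 2 * u r) (Ioi (0:ℝ))) {n : ℝ} (hn : 0 ≤ n) (K : ℝ) :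
    IntegrableOn (fun r => r ^ 2 * tr u n K r) (Ioi (0:ℝ)) := by
  refine Integrable.mono' hi
    ((measurable_id.pow_const 2).mul (tr_meas hu n K)).aestronglyMeasurable
    (Eventually.of_forall fun r => ?_)
  rw [Real.norm_of_nonneg (mul_nonneg (sq_nonneg r) (tr_nonneg hu0 hn K r))]
  exact mul_le_mul_of_nonneg_left (tr_le hu0 n K r) (sq_nonneg r)

/-- The truncations exhaust the potential. -/
lemma tr_small (hu : Measurable u) (hu0 : ∀ r, 0 ≤ u r)
    (hi : IntegrableOn (fun r => r ^ 2 * u r) (Ioi (0:ℝ))) {ε : ℝ} (hε : 0 < ε) :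
    ∃ k : ℝ, 1 ≤ k ∧ ∀ n K, k ≤ n → k ≤ K →
      (∫ r in Ioi (0:ℝ), r ^ 2 * u r) - (∫ r in Ioi (0:ℝ), r ^ 2 * tr u n K r) ≤ ε := by
  have h1 : Tendsto (fun k : ℕ => ∫ r in Ioi (0:ℝ), r ^ 2 * tr u k k r) atTop
      (𝓝 (∫ r in Ioi (0:ℝ), r ^ 2 * u r)) := by
    refine tendsto_integral_of_dominated_convergence (fun r => r ^ 2 * u r) (fun k => ?_) hi
      (fun k => ?_) ?_
    · exact ((measurable_id.pow_const 2).mul (tr_meas hu k k)).aestronglyMeasurable
    · refine Eventually.of_forall fun r => ?_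
      rw [Real.norm_of_nonneg (mul_nonneg (sq_nonneg r) (tr_nonneg hu0 (Nat.cast_nonneg k) k r))]
      exact mul_le_mul_of_nonneg_left (tr_le hu0 k k r) (sq_nonneg r)
    · refine Eventually.of_forall fun r => ?_
      refine tendsto_const_nhds.congr' ?_
      filter_upwards [eventually_gt_atTop ⌈max r (u r)⌉₊] with k hk
      have h2 : max r (u r) < k := lt_of_le_of_lt (Nat.le_ceil _) (by exact_mod_cast hk)
      unfold tr
      rw [if_pos ((le_max_left _ _).trans_lt h2), min_eq_left ((le_max_right _ _).trans h2.le)]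
  have h3 : ∀ᶠ k : ℕ in atTop, (∫ r in Ioi (0:ℝ), r ^ 2 * u r) - ε
      < ∫ r in Ioi (0:ℝ), r ^ 2 * tr u k k r := h1.eventually_const_lt (by linarith)
  obtain ⟨k, hk1, hk2⟩ := (h3.and (eventually_ge_atTop 1)).exists
  refine ⟨k, by exact_mod_cast hk2, fun n K hn hK => ?_⟩
  have hk0 : (0:ℝ) ≤ k := Nat.cast_nonneg k
  have h4 : ∫ r in Ioi (0:ℝ), r ^ 2 * tr u k k r ≤ ∫ r in Ioi (0:ℝ), r ^ 2 * tr u n K r :=
    integral_mono (tr_int hu hu0 hi hk0 k) (tr_int hu hu0 hi (hk0.trans hn) K) fun r =>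
      mul_le_mul_of_nonneg_left (tr_mono hu0 (hk0.trans hn) hn hK r) (sq_nonneg r)
  linarith

lemma tr_integral_Ioi {n K : ℝ} (hK : 0 ≤ K) :
    ∫ r in (0:ℝ)..K, r ^ 2 * tr u n K r = ∫ r in Ioi (0:ℝ), r ^ 2 * tr u n K r := by
  rw [intervalIntegral.integral_of_le hK]
  refine (setIntegral_eq_of_subset_of_forall_sdiff_eq_zero measurableSet_Ioi
    Ioc_subset_Ioi_self fun r hr => ?_).symm
  have : K ≤ r := by
    by_contra hcon
    push Not at hcon
    exact hr.2 ⟨hr.1, hcon.le⟩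
  rw [tr_zero this, mul_zero]

end tr

section data
variable {u : ℝ → ℝ} {R₀ : ℝ}

lemma scat_tr (hu : Measurable u) (hu0 : ∀ r, 0 ≤ u r) (hR0 : 0 ≤ R₀) {n R : ℝ} (hn : 0 ≤ n)
    (hR : R₀ < R) (hgen : 0 < R₀ ∨ 0 < ∫ r in Ioi (0:ℝ), r ^ 2 * tr u n R r) :
    ∃ a f Q, Scat (tr u n R) R₀ R a f Q := by
  have hV : Volt.VH (tr u n R) R₀ n :=
    ⟨hn, tr_meas hu n R, fun r => tr_nonneg hu0 hn R r, fun r => tr_le_n hn R r⟩
  refine ⟨_, _, _, Volt.exists_scat hV hR0 hR (fun r hr => tr_zero hr) ?_⟩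
  rw [tr_integral_Ioi (hR0.trans hR.le)]
  exact hgen

/-- The limiting scattering length. -/
theorem exists_data (hu : Measurable u) (hu0 : ∀ r, 0 ≤ u r)
    (hi : IntegrableOn (fun r => r ^ 2 * u r) (Ioi (0:ℝ))) (hR0 : 0 ≤ R₀)
    (hgen : 0 < R₀ ∨ 0 < ∫ r in Ioi (0:ℝ), r ^ 2 * u r)
    {m : ℝ} (hm : 0 < m) {v : (Fin 3 → ℝ) → ℝ} (hv : Integrable v) (hv0 : ∀ x, 0 ≤ v x)
    {v₀ : ℝ → ℝ} (hrad : ∀ x, v x = v₀ (nr x)) (huv : ∀ᵐ r : ℝ, 0 < r → u r = m * v₀ r) :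
    ∃ A : ℝ, 0 < A ∧ scatLen m R₀ v ≤ A ∧
      (∀ n R a f Q, 0 ≤ n → Scat (tr u n R) R₀ R a f Q → a ≤ A) ∧
      (∀ c, c < A → ∃ k : ℝ, 1 ≤ k ∧ ∀ n R, k ≤ n → k ≤ R → R₀ < R →
        ∃ a f Q, Scat (tr u n R) R₀ R a f Q ∧ c < a) := by
  set U : ℝ := ∫ r in Ioi (0:ℝ), r ^ 2 * u r with hU
  have hU0 : 0 ≤ U := setIntegral_nonneg measurableSet_Ioi fun r _ =>
    mul_nonneg (sq_nonneg r) (hu0 r)
  -- eventually genuine
  obtain ⟨k₀, hk₀1, hk₀⟩ : ∃ k : ℝ, 1 ≤ k ∧ ∀ n R, k ≤ n → k ≤ R →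
      (0 < R₀ ∨ 0 < ∫ r in Ioi (0:ℝ), r ^ 2 * tr u n R r) := by
    rcases hgen with h | h
    · exact ⟨1, le_rfl, fun _ _ _ _ => Or.inl h⟩
    · obtain ⟨k, hk1, hk⟩ := tr_small hu hu0 hi (half_pos h)
      refine ⟨k, hk1, fun n R hn hR => Or.inr ?_⟩
      have := hk n R hn hR
      linarith
  set S : Set ℝ := {a | ∃ n R f Q, 0 ≤ n ∧ Scat (tr u n R) R₀ R a f Q} with hS
  have hbd : ∀ a ∈ S, a ≤ R₀ + U := by
    rintro a ⟨n, R, f, Q, hn, h⟩
    have h1 := h.a_le_int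
    have hR := h.R_pos
    have h2 : ∫ r in R₀..R, r ^ 2 * tr u n R r ≤ U := by
      rw [intervalIntegral.integral_of_le h.R₀_le]
      refine (setIntegral_mono_set (tr_int hu hu0 hi hn R) ?_ ?_).trans
        (integral_mono (tr_int hu hu0 hi hn R) hi fun r =>
          mul_le_mul_of_nonneg_left (tr_le hu0 n R r) (sq_nonneg r))
      · exact Eventually.of_forall fun r => mul_nonneg (sq_nonneg r) (tr_nonneg hu0 hn R r)
      · exact (show Ioc R₀ R ⊆ Ioi 0 from fun r hr => hR0.trans_lt hr.1).eventuallyLE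
    linarith
  have hne : S.Nonempty := by
    set R : ℝ := max k₀ (R₀ + 1) with hR
    obtain ⟨a, f, Q, h⟩ := scat_tr (R := R) (n := k₀) hu hu0 hR0 (by linarith)
      (lt_of_lt_of_le (by linarith) (le_max_right _ _)) (hk₀ k₀ R le_rfl (le_max_left _ _))
    exact ⟨a, k₀, R, f, Q, by linarith, h⟩
  have hbdd : BddAbove S := ⟨_, hbd⟩
  have hle : ∀ a ∈ S, a ≤ sSup S := fun a ha => le_csSup hbdd ha
  refine ⟨sSup S, ?_, ?_, ?_, ?_⟩
  · obtain ⟨a, ha⟩ := hne
    have h1 := hle a ha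
    obtain ⟨n, R, f, Q, hn, h⟩ := ha
    exact h.a_pos.trans_le h1
  · refine le_of_forall_pos_le_add fun ε hε => ?_
    obtain ⟨k, hk1, hk⟩ := tr_small hu hu0 hi hε
    set n : ℝ := max k k₀ with hn
    set R : ℝ := max n (R₀ + 1) with hR
    have hn0 : 0 ≤ n := (by linarith : (0:ℝ) ≤ k).trans (le_max_left _ _)
    obtain ⟨a, f, Q, h⟩ := scat_tr (R := R) (n := n) hu hu0 hR0 hn0
      (lt_of_lt_of_le (by linarith) (le_max_right _ _))
      (hk₀ n R (le_max_right _ _) ((le_max_right _ _).trans (le_max_left _ _)))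
    have h1 := h.scatLen_le hm hv hv0 hrad (by
      filter_upwards [huv] with r hr hr0
      rw [← hr hr0]
      exact tr_le hu0 n R r)
    have h2 : ∫ r in Ioi (0:ℝ), (m * v₀ r - tr u n R r) * r ^ 2
        = U - ∫ r in Ioi (0:ℝ), r ^ 2 * tr u n R r := by
      rw [hU, ← integral_sub hi (tr_int hu hu0 hi hn0 R)]
      refine setIntegral_congr_ae measurableSet_Ioi ?_
      filter_upwards [huv] with r hr hr0
      rw [← hr hr0]; ring
    rw [h2] at h1
    have h3 := hk n R (le_max_left _ _) ((le_max_left _ _).trans (le_max_left _ _))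
    have h4 := hle a ⟨n, R, f, Q, hn0, h⟩
    linarith
  · intro n R a f Q hn h
    exact hle a ⟨n, R, f, Q, hn, h⟩
  · intro c hc
    obtain ⟨a₁, ⟨n₁, R₁, f₁, Q₁, hn₁, h₁⟩, hca⟩ := exists_lt_of_lt_csSup hne hc
    refine ⟨max (max k₀ n₁) R₁, ?_, fun n R hn hR hR0R => ?_⟩
    · exact hk₀1.trans ((le_max_left _ _).trans (le_max_left _ _))
    · have e1 : k₀ ≤ n := ((le_max_left _ _).trans (le_max_left _ _)).trans hn
      have e2 : n₁ ≤ n := ((le_max_right _ _).trans (le_max_left _ _)).trans hn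
      have e3 : k₀ ≤ R := ((le_max_left _ _).trans (le_max_left _ _)).trans hR
      have e4 : R₁ ≤ R := (le_max_right _ _).trans hR
      have hn0 : 0 ≤ n := by linarith
      obtain ⟨a, f, Q, h⟩ := scat_tr hu hu0 hR0 hn0 hR0R (hk₀ n R e1 e3)
      refine ⟨a, f, Q, h, hca.trans_le ?_⟩
      exact h.mono h₁ fun r _ => tr_mono hu0 hn0 e2 e4 r

end data

end Pool.Agent.Lib.MP_4952d6_mp

end

/-! ### HK.All -/

section



end

/-! ### U.Par -/

section

/-!
# Stream U: definitions of the concrete potentials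

Regime: `Y = q ^ 200`, healing length `lq = a / Y`, `bq = lq Y^{3/5} = a / q ^ 80`, `tq = (q bq)²`.
`κ ∈ (0, 1]` is fixed. `f, Q` are the scattering profile and its flux (`Scat`), `W = v / 2`.
-/

set_option autoImplicit false
set_option linter.unusedSectionVars false
set_option linter.unusedVariables false
open MeasureTheory Function Filter Topology Set
open scoped ENNReal

namespace Pool.Agent.Lib.MP_4952d6_mp

/-! ### Mixtures of heat kernels -/

/-- `∫_t^∞ ω(s) p_s(x) ds` -/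
noncomputable def mix0 (ω : ℝ → ℝ) (t : ℝ) (x : T3) : ℝ := ∫ s in Ioi t, ω s * hk s x

/-- `∫_t^∞ ω(s) ∂_α p_s(x) ds` -/
noncomputable def mix1 (ω : ℝ → ℝ) (t : ℝ) (α : Fin 3) (x : T3) : ℝ :=
  ∫ s in Ioi t, ω s * dhk α s x

/-- `∫_t^∞ ω(s) ∂_α ∂_β p_s(x) ds` -/
noncomputable def mix2 (ω : ℝ → ℝ) (t : ℝ) (α β : Fin 3) (x : T3) : ℝ :=
  ∫ s in Ioi t, ω s * ddhk α β s x

/-- Fourier coefficients of `mix0`. -/
noncomputable def mixh (ω : ℝ → ℝ) (t : ℝ) (p : Fin 3 → ℤ) : ℝ :=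
  ∫ s in Ioi t, ω s * Real.exp (-(s * ksq p))

/-- Exponentially decaying nonnegative weights on `(t, ∞)`. -/
structure MixOk (ω : ℝ → ℝ) (t M c : ℝ) : Prop where
  t_pos : 0 < t
  c_pos : 0 < c
  meas : Measurable ω
  nonneg : ∀ s, t < s → 0 ≤ ω s
  le : ∀ s, t < s → ω s ≤ M * Real.exp (-(c * s))

/-! ### The mixing measure -/

/-- `τ = κ² + 16 π cos² φ` -/
noncomputable def tauv (κ φ : ℝ) : ℝ := κ ^ 2 + 16 * Real.pi * Real.cos φ ^ 2

/-- `K² = κ² + 16 π` -/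
noncomputable def K2 (κ : ℝ) : ℝ := κ ^ 2 + 16 * Real.pi

/-- Laplace transform of the law of `τ` (density `(4/π) sin² φ` on `(0, π/2)`). -/
noncomputable def mh (κ s : ℝ) : ℝ :=
  ∫ φ in (0:ℝ)..(Real.pi / 2), 4 / Real.pi * Real.sin φ ^ 2 * Real.exp (-(s * tauv κ φ))

/-- `- mh'` -/
noncomputable def mh1 (κ s : ℝ) : ℝ :=
  ∫ φ in (0:ℝ)..(Real.pi / 2),
    4 / Real.pi * Real.sin φ ^ 2 * tauv κ φ * Real.exp (-(s * tauv κ φ))

/-- `∫ dm(τ) exp(-β (z + τ)) / (z + τ)` -/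
noncomputable def Lh (κ β z : ℝ) : ℝ :=
  ∫ φ in (0:ℝ)..(Real.pi / 2),
    4 / Real.pi * Real.sin φ ^ 2 * (Real.exp (-(β * (z + tauv κ φ))) / (z + tauv κ φ))

/-! ### Radial functions of the regularised Coulomb potential -/

/-- `q_b(r) = 4 π ∫_0^r s² γ_t(s) ds` -/
noncomputable def qbf (t r : ℝ) : ℝ := 4 * Real.pi * ∫ s in (0:ℝ)..r, s ^ 2 * gam t s

/-- `s_b(r) = 4 π ∫_t^∞ γ_s(r) ds` -/
noncomputable def sbf (t r : ℝ) : ℝ := 4 * Real.pi * ∫ s in Ioi t, gam s r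

/-! ### Parameters -/

/-- healing length `l` -/
noncomputable def lq (q a : ℝ) : ℝ := a / q ^ 200

/-- matching radius `b` -/
noncomputable def bq (q a : ℝ) : ℝ := a / q ^ 80

/-- `t_b = (q b)²` -/
noncomputable def tq (q a : ℝ) : ℝ := (a / q ^ 79) ^ 2

/-- `μ = 1 / (q² l)` -/
noncomputable def muq (q a : ℝ) : ℝ := q ^ 198 / a

/-- `α = a_u / a = 1 / ((1 - a/b) q_b(b))` (depends on `q` only, since `b / √t_b = 1 / q`) -/
noncomputable def alq (q : ℝ) : ℝ := 1 / ((1 - q ^ 80) * qbf 1 (1 / q))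

/-- `a_u` -/
noncomputable def auq (q a : ℝ) : ℝ := a * alq q

/-- weight of `u_l` -/
noncomputable def omu (κ q a s : ℝ) : ℝ := 4 * Real.pi * auq q a * mh κ (s / lq q a ^ 2)

/-- weight of `w_l` -/
noncomputable def omw (κ q a s : ℝ) : ℝ :=
  4 * Real.pi * auq q a * (mh1 κ (s / lq q a ^ 2) / lq q a ^ 2)

/-- weight of `ψ_b` -/
noncomputable def omp (q a s : ℝ) : ℝ :=
  muq q a ^ 2 * Real.exp (-(muq q a ^ 2 * (s - tq q a)))

/-- `e(r) = exp(a_u (s_b(r) - s_b(b))) / f(b)`, `f(b) = 1 - a/b = 1 - q^80`. -/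
noncomputable def efs (q a r : ℝ) : ℝ :=
  Real.exp (auq q a * (sbf (tq q a) r - sbf (tq q a) (bq q a))) / (1 - q ^ 80)

/-- the core function `f_s` -/
noncomputable def fs (q a : ℝ) (f : ℝ → ℝ) (r : ℝ) : ℝ :=
  f (min r (bq q a)) * efs q a (min r (bq q a))

/-- `f_s' (r) = r gs(r)` -/
noncomputable def gs (q a : ℝ) (f Q : ℝ → ℝ) (r : ℝ) : ℝ :=
  if r < bq q a then efs q a r * (Q r - auq q a * qbf (tq q a) r * f r) / r ^ 3 else 0

/-- `r (f_s gs)' (r)` -/
noncomputable def ks (q a : ℝ) (f Q W : ℝ → ℝ) (r : ℝ) : ℝ :=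
  if r < bq q a then efs q a r ^ 2 *
    (-(2 * auq q a * qbf (tq q a) r / r) * (f r * Q r - auq q a * qbf (tq q a) r * f r ^ 2) / r ^ 3
      - 3 * (f r * Q r - auq q a * qbf (tq q a) r * f r ^ 2) / r ^ 3
      + (Q r ^ 2 / r ^ 2 + r ^ 2 * W r * f r ^ 2
        - 4 * Real.pi * auq q a * r ^ 2 * gam (tq q a) r * f r ^ 2
        - 2 * auq q a * qbf (tq q a) r * f r * Q r / r ^ 2) / r ^ 2)
  else 0

/-- `w_s = |∇f_s|² - f_s Δ f_s + 2 W f_s²` -/
noncomputable def ws (q a : ℝ) (f Q W : ℝ → ℝ) (r : ℝ) : ℝ :=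
  if r < bq q a then efs q a r ^ 2 * (Q r ^ 2 / r ^ 4 + W r * f r ^ 2)
    + 4 * Real.pi * auq q a * gam (tq q a) r * fs q a f r ^ 2
  else 0

/-- curvature bound of the core -/
noncomputable def kcr (q a : ℝ) (f Q W : ℝ → ℝ) (r : ℝ) : ℝ :=
  4 * gs q a f Q r ^ 2 * r ^ 2 + 2 * |ks q a f Q W r| + 2 * |fs q a f r * gs q a f Q r|

/-- The data of stream U. -/
noncomputable def DPot (κ q a : ℝ) (f Q W : ℝ → ℝ) : Dat where
  Fc x := fs q a f (rr x) ^ 2
  dFc α x := 2 * (fs q a f (rr x) * gs q a f Q (rr x)) * crd x α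
  ddFc α β x := 2 * ks q a f Q W (rr x) * (crd x α / rr x) * (crd x β / rr x)
    + if α = β then 2 * (fs q a f (rr x) * gs q a f Q (rr x)) else 0
  Kc x := kcr q a f Q W (rr x)
  ul := mix0 (omu κ q a) (tq q a)
  dul := mix1 (omu κ q a) (tq q a)
  ddul := mix2 (omu κ q a) (tq q a)
  uh := mixh (omu κ q a) (tq q a)

/-- `w_l` -/
noncomputable def wl (κ q a : ℝ) (x : T3) : ℝ := mix0 (omw κ q a) (tq q a) x

/-- Fourier coefficients of `w_l` -/
noncomputable def wlh (κ q a : ℝ) (p : Fin 3 → ℤ) : ℝ := mixh (omw κ q a) (tq q a) p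

/-- The regime: scattering data with range `R ≤ θ a`, `q` small, `a` very small. -/
structure Reg (W : ℝ → ℝ) (R₀ R a : ℝ) (f Q : ℝ → ℝ) (θ q : ℝ) : Prop where
  sc : Scat W R₀ R a f Q
  Rle : R ≤ θ * a
  hθ : 1 ≤ θ
  hθq : θ * q ≤ 1
  q_pos : 0 < q
  q_le : q ≤ 1 / 100
  aq : a ≤ q ^ 1000

/-! ### The trial function -/

/-- `f_tot = f_s exp(-u_l)` -/
noncomputable def ftot (κ q a : ℝ) (f : ℝ → ℝ) (x : T3) : ℝ :=
  fs q a f (rr x) * Real.exp (-mix0 (omu κ q a) (tq q a) x)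

/-- gradient of `ftot` -/
noncomputable def dftot (κ q a : ℝ) (f Q : ℝ → ℝ) (α : Fin 3) (x : T3) : ℝ :=
  Real.exp (-mix0 (omu κ q a) (tq q a) x)
    * (gs q a f Q (rr x) * crd x α - fs q a f (rr x) * mix1 (omu κ q a) (tq q a) α x)

/-- derivative in direction `α` of `ftot * dftot α` -/
noncomputable def hftot (κ q a : ℝ) (f Q W : ℝ → ℝ) (α : Fin 3) (x : T3) : ℝ :=
  Real.exp (-(2 * mix0 (omu κ q a) (tq q a) x))
    * ((ks q a f Q W (rr x) * (crd x α / rr x) ^ 2 + fs q a f (rr x) * gs q a f Q (rr x))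
      - 2 * (fs q a f (rr x) * gs q a f Q (rr x)) * crd x α * mix1 (omu κ q a) (tq q a) α x
      - fs q a f (rr x) ^ 2 * mix2 (omu κ q a) (tq q a) α α x
      - 2 * mix1 (omu κ q a) (tq q a) α x
        * (fs q a f (rr x) * gs q a f Q (rr x) * crd x α
          - fs q a f (rr x) ^ 2 * mix1 (omu κ q a) (tq q a) α x))

/-- `c_0 = u_l(0) - a_u s_b(0)` -/
noncomputable def c0q (κ q a : ℝ) : ℝ :=
  mix0 (omu κ q a) (tq q a) 0 - auq q a * sbf (tq q a) 0

/-! ### Scaled quantities (U8) -/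

/-- `X(r) = 8 π α ∫ dm(τ) exp(-β (r² + τ)) / (r² + τ)`, `β = q^242` -/
noncomputable def Xs (κ q r : ℝ) : ℝ := 8 * Real.pi * alq q * Lh κ (q ^ 242) (r ^ 2)

/-- `h(r) = 8 π α (1 + e) X / (1 + X) - r² X² / (1 + X)`, `e = exp(-β r²)` -/
noncomputable def hs (κ q r : ℝ) : ℝ :=
  8 * Real.pi * alq q * (1 + Real.exp (-(q ^ 242 * r ^ 2))) * (Xs κ q r / (1 + Xs κ q r))
    - r ^ 2 * (Xs κ q r ^ 2 / (1 + Xs κ q r))

/-- `64 π² α² (2π)⁻³ ∫ exp(-β ξ²) ξ⁻² dξ = 64 π² α² / (4 π √(π β))` -/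
noncomputable def Isq (q : ℝ) : ℝ :=
  64 * Real.pi ^ 2 * alq q ^ 2 / (4 * Real.pi * Real.sqrt (Real.pi * q ^ 242))

/-- `Φ(κ, q) = (1/4) (2π²)⁻¹ ∫ [64 π² α² e - r² h(r)] dr` -/
noncomputable def Phq (κ q : ℝ) : ℝ :=
  1 / (8 * Real.pi ^ 2) * ∫ r in Ioi (0:ℝ),
    (64 * Real.pi ^ 2 * alq q ^ 2 * Real.exp (-(q ^ 242 * r ^ 2)) - r ^ 2 * hs κ q r)

/-- `x_κ(r) = √(1 + 16 π / (r² + κ²)) - 1` -/
noncomputable def xk (κ r : ℝ) : ℝ := Real.sqrt (1 + 16 * Real.pi / (r ^ 2 + κ ^ 2)) - 1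

/-- the limit `Φ_κ` -/
noncomputable def Phk (κ : ℝ) : ℝ :=
  1 / (8 * Real.pi ^ 2) * ∫ r in Ioi (0:ℝ),
    (64 * Real.pi ^ 2 - 16 * Real.pi * r ^ 2 * (xk κ r / (1 + xk κ r))
      + r ^ 4 * (xk κ r ^ 2 / (1 + xk κ r)))

end Pool.Agent.Lib.MP_4952d6_mp

end

/-! ### U.SBA -/

section

/-!
# SBA: the radial functions `q_b`, `s_b`

With `y = r/(2√t)`: `sbf t r = (1/r) (2/√π) ∫_0^y exp(-x²) dx` for `r > 0` (substitute `s = r²/(4x²)`, or differentiate both sides in `t`),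
`qbf t r = (2/√π) (∫_0^y exp(-x²) dx - y exp(-y²))` (substitute `s = 2√t x`, integrate `x² exp(-x²)` by parts).
Hence `sbf t` has derivative `-qbf t r / r²`. Other way: `d/dr gam s r = -(r/2s) gam s r`, differentiate under the integral sign
(`∫_t^∞`, `s ≥ t > 0`, dominated), and `4π ∫_t^∞ (r/2s) gam s r ds = q_b(r)/r²` because both sides have the same
`t`-derivative: `d/dt q_b(r) = -(r³/(2t)) 4π gam t r` (scaling `qbf t r = qbf 1 (r/√t)`) and tend to `0` as `t → ∞`.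
`qbf_le_cube`: `gam t s ≤ (4πt)^{-3/2}`, so `qbf ≤ (4π/3) r³ (4πt)^{-3/2} ≤ r³/(√t)³`. `qbf ≤ 1`: `gam_integral_space`.
Tail: `1 - qbf t r = 4π ∫_r^∞ s² gam t s ds`, and `exp(-s²/4t) ≤ exp(-r²/8t) exp(-s²/8t)` for `s ≥ r`,
`4π ∫_0^∞ s² (4πt)^{-3/2} exp(-s²/8t) ds = 2^{3/2}`.
-/

set_option autoImplicit false
set_option linter.unusedSectionVars false
set_option linter.unusedVariables false
open MeasureTheory Function Filter Topology Set
open scoped ENNReal

namespace Pool.Agent.Lib.MP_4952d6_mp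

theorem SBA_sqrt (t : ℝ) :
    Real.sqrt (4 * Real.pi * t) = 2 * Real.sqrt Real.pi * Real.sqrt t := by
  rw [Real.sqrt_mul (by positivity), Real.sqrt_mul (by norm_num)]
  have : Real.sqrt 4 = 2 := by
    rw [show (4:ℝ) = 2 ^ 2 by norm_num, Real.sqrt_sq (by norm_num)]
  rw [this]

theorem SBA_cont (t : ℝ) : Continuous fun s : ℝ => s ^ 2 * gam t s := by
  unfold gam
  fun_prop

theorem SBA_nn (t s : ℝ) : 0 ≤ s ^ 2 * gam t s := mul_nonneg (sq_nonneg _) (gam_nonneg _ _)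

theorem SBA_int {t : ℝ} (ht : 0 < t) : IntegrableOn (fun s : ℝ => s ^ 2 * gam t s) (Ioi 0) := by
  by_contra h
  have h1 := gam_integral_space ht
  rw [integral_undef h, mul_zero] at h1
  exact zero_ne_one h1

theorem SBA_scale {t : ℝ} (ht : 0 < t) (x : ℝ) :
    gam t (Real.sqrt t * x) = (Real.sqrt t)⁻¹ ^ 3 * gam 1 x := by
  have hst : 0 < Real.sqrt t := Real.sqrt_pos.2 ht
  have h2 : Real.sqrt t ^ 2 = t := Real.sq_sqrt ht.le
  unfold gam
  rw [SBA_sqrt t, SBA_sqrt 1, Real.sqrt_one, mul_one, mul_pow, h2]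
  have h3 : -(t * x ^ 2) / (4 * t) = -(x ^ 2) / (4 * 1) := by
    field_simp
  rw [h3, mul_inv (2 * Real.sqrt Real.pi), mul_pow]
  ring

theorem SBA_scale' {t : ℝ} (ht : 0 < t) (r : ℝ) :
    gam t r = (Real.sqrt t)⁻¹ ^ 3 * gam 1 (r / Real.sqrt t) := by
  have hst : 0 < Real.sqrt t := Real.sqrt_pos.2 ht
  rw [← SBA_scale ht, mul_div_cancel₀ _ hst.ne']

theorem SBA_gam_le {s : ℝ} (hs : 0 < s) (r : ℝ) : gam s r ≤ gam s 0 := by
  unfold gam
  refine mul_le_mul_of_nonneg_left ?_ (by positivity)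
  apply Real.exp_le_exp.2
  have h1 : 0 ≤ r ^ 2 / (4 * s) := by positivity
  have h2 : -(r ^ 2) / (4 * s) = -(r ^ 2 / (4 * s)) := by ring
  rw [h2]
  simp only [ne_eq, OfNat.ofNat_ne_zero, not_false_eq_true, zero_pow, neg_zero, zero_div]
  linarith

theorem SBA_meas (r : ℝ) : Measurable fun s : ℝ => gam s r := by
  unfold gam
  fun_prop

theorem qbf_hasDerivAt {t : ℝ} (ht : 0 < t) (r : ℝ) :
    HasDerivAt (qbf t) (4 * Real.pi * (r ^ 2 * gam t r)) r := by
  have h := (((SBA_cont t).integral_hasStrictDerivAt 0 r).hasDerivAt).const_mul (4 * Real.pi)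
  exact h

theorem SBA_qbf_scale {t r : ℝ} (ht : 0 < t) : qbf t r = qbf 1 (r / Real.sqrt t) := by
  have hst : 0 < Real.sqrt t := Real.sqrt_pos.2 ht
  have h2 : Real.sqrt t ^ 2 = t := Real.sq_sqrt ht.le
  unfold qbf
  have h1 := intervalIntegral.integral_comp_mul_left (a := 0) (b := r / Real.sqrt t)
    (fun s : ℝ => s ^ 2 * gam t s) hst.ne'
  rw [mul_zero, mul_div_cancel₀ _ hst.ne', smul_eq_mul] at h1
  have h3 : ∀ x : ℝ, (Real.sqrt t * x) ^ 2 * gam t (Real.sqrt t * x) =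
      (Real.sqrt t)⁻¹ * (x ^ 2 * gam 1 x) := by
    intro x
    rw [SBA_scale ht]
    field_simp
  simp only [h3] at h1
  rw [intervalIntegral.integral_const_mul] at h1
  have h4 := mul_left_cancel₀ (inv_ne_zero hst.ne') h1
  rw [h4]

theorem SBA_qbf_time {r : ℝ} {s : ℝ} (hs : 0 < s) :
    HasDerivAt (fun s => qbf s r) (-(4 * Real.pi) * (r ^ 3 / (2 * s) * gam s r)) s := by
  have hss : 0 < Real.sqrt s := Real.sqrt_pos.2 hs
  have h2 : Real.sqrt s ^ 2 = s := Real.sq_sqrt hs.le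
  have h1 : HasDerivAt (fun s : ℝ => r / Real.sqrt s) (-(r / (2 * s * Real.sqrt s))) s := by
    have h3 := ((Real.hasDerivAt_sqrt hs.ne').fun_inv hss.ne').const_mul r
    have h4 : r * (-(1 / (2 * Real.sqrt s)) / Real.sqrt s ^ 2) = -(r / (2 * s * Real.sqrt s)) := by
      rw [h2]
      field_simp
    rw [h4] at h3
    refine h3.congr_of_eventuallyEq (Eventually.of_forall fun x => ?_)
    simp only [div_eq_mul_inv]
  have h5 := (qbf_hasDerivAt one_pos (r / Real.sqrt s)).comp s h1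
  have h6 : 4 * Real.pi * ((r / Real.sqrt s) ^ 2 * gam 1 (r / Real.sqrt s)) *
      -(r / (2 * s * Real.sqrt s)) = -(4 * Real.pi) * (r ^ 3 / (2 * s) * gam s r) := by
    rw [SBA_scale' hs r]
    field_simp
  rw [h6] at h5
  refine h5.congr_of_eventuallyEq ?_
  filter_upwards [lt_mem_nhds hs] with x hx
  rw [SBA_qbf_scale hx]
  rfl

theorem SBA_qbf_lim (r : ℝ) : Tendsto (fun s => qbf s r) atTop (𝓝 0) := by
  have h1 : Tendsto (fun s : ℝ => r / Real.sqrt s) atTop (𝓝 0) :=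
    Tendsto.div_atTop tendsto_const_nhds Real.tendsto_sqrt_atTop
  have h2 : Tendsto (qbf 1) (𝓝 0) (𝓝 (qbf 1 0)) := (qbf_hasDerivAt one_pos 0).continuousAt
  have h0 : qbf 1 0 = 0 := by unfold qbf; simp
  rw [h0] at h2
  refine (h2.comp h1).congr' ?_
  filter_upwards [eventually_gt_atTop 0] with s hs
  rw [comp_apply, SBA_qbf_scale hs]

theorem SBA_int_time {t : ℝ} (ht : 0 < t) (r : ℝ) :
    IntegrableOn (fun s => r ^ 3 / (2 * s) * gam s r) (Ioi t) := by
  have h1 := (gam_zero_integral ht).1.const_mul (|r| ^ 3 / (2 * t))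
  refine h1.mono' ?_ ?_
  · exact ((measurable_const.div (measurable_const.mul measurable_id)).mul
      (SBA_meas r)).aestronglyMeasurable
  · refine (ae_restrict_iff' measurableSet_Ioi).2 (Eventually.of_forall fun s hs => ?_)
    have hs' : t < s := hs
    have hs0 : 0 < s := ht.trans hs'
    rw [norm_mul, Real.norm_eq_abs, Real.norm_eq_abs, abs_div, abs_pow,
      abs_of_nonneg (gam_nonneg s r), abs_of_pos (by positivity : (0:ℝ) < 2 * s)]
    refine mul_le_mul ?_ (SBA_gam_le hs0 r) (gam_nonneg _ _) (by positivity)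
    exact div_le_div_of_nonneg_left (by positivity) (by positivity) (by linarith)

theorem sbf_hasDerivAt {t : ℝ} (ht : 0 < t) {r : ℝ} (hr : 0 < r) :
    HasDerivAt (sbf t) (-(qbf t r / r ^ 2)) r := by
  have hr' := hr.ne'
  -- value of the derivative
  have hval : ∫ s in Ioi t, -(r / (2 * s)) * gam s r = -(qbf t r / r ^ 2) / (4 * Real.pi) := by
    have h1 := integral_Ioi_of_hasDerivAt_of_tendsto'
      (f := fun s => qbf s r) (f' := fun s => -(4 * Real.pi) * (r ^ 3 / (2 * s) * gam s r))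
      (a := t) (m := 0) (fun s hs => SBA_qbf_time (ht.trans_le hs))
      ((SBA_int_time ht r).const_mul _) (SBA_qbf_lim r)
    rw [integral_const_mul, zero_sub] at h1
    have h2 : ∀ s : ℝ, -(r / (2 * s)) * gam s r = -(1 / r ^ 2) * (r ^ 3 / (2 * s) * gam s r) := by
      intro s
      have : r / (2 * s) = 1 / r ^ 2 * (r ^ 3 / (2 * s)) := by
        by_cases hs : s = 0
        · rw [hs]; simp
        · field_simp
      rw [this]
      ring
    simp only [h2]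
    rw [integral_const_mul]
    have hpi := Real.pi_pos
    have h3 : ∫ s in Ioi t, r ^ 3 / (2 * s) * gam s r = qbf t r / (4 * Real.pi) := by
      rw [eq_div_iff (by positivity)]
      linarith
    rw [h3]
    field_simp
  have hmain := (hasDerivAt_integral_of_dominated_loc_of_deriv_le (μ := volume.restrict (Ioi t))
    (F := fun x s => gam s x) (F' := fun x s => -(x / (2 * s)) * gam s x) (x₀ := r)
    (s := Metric.ball r 1) (bound := fun s => (r + 1) / (2 * t) * gam s 0)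
    (Metric.ball_mem_nhds r one_pos) (Eventually.of_forall fun x => (SBA_meas x).aestronglyMeasurable)
    ?_ ?_ ?_ ?_ ?_).2
  · rw [hval] at hmain
    have h1 := hmain.const_mul (4 * Real.pi)
    have h2 : 4 * Real.pi * (-(qbf t r / r ^ 2) / (4 * Real.pi)) = -(qbf t r / r ^ 2) := by
      have hpi := Real.pi_pos
      field_simp
    rw [h2] at h1
    exact h1
  · refine (gam_zero_integral ht).1.mono' (SBA_meas r).aestronglyMeasurable ?_
    refine (ae_restrict_iff' measurableSet_Ioi).2 (Eventually.of_forall fun s hs => ?_)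
    have hs0 : 0 < s := ht.trans hs
    rw [Real.norm_eq_abs, abs_of_nonneg (gam_nonneg s r)]
    exact SBA_gam_le hs0 r
  · exact ((measurable_const.div (measurable_const.mul measurable_id)).neg.mul
      (SBA_meas r)).aestronglyMeasurable
  · refine (ae_restrict_iff' measurableSet_Ioi).2 (Eventually.of_forall fun s hs x hx => ?_)
    have hs' : t < s := hs
    have hs0 : 0 < s := ht.trans hs'
    have hx1 : |x| ≤ r + 1 := by
      rw [Metric.mem_ball, Real.dist_eq] at hx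
      have h1 := abs_le.1 hx.le
      rw [abs_le]
      constructor <;> linarith
    rw [norm_mul, norm_neg, Real.norm_eq_abs, Real.norm_eq_abs, abs_div,
      abs_of_nonneg (gam_nonneg s x), abs_of_pos (by positivity : (0:ℝ) < 2 * s)]
    refine mul_le_mul ?_ (SBA_gam_le hs0 x) (gam_nonneg _ _) (by positivity)
    exact div_le_div₀ (by positivity) hx1 (by positivity) (by linarith)
  · exact (gam_zero_integral ht).1.const_mul _
  · refine (ae_restrict_iff' measurableSet_Ioi).2 (Eventually.of_forall fun s hs x hx => ?_)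
    have hs0 : 0 < s := ht.trans hs
    have h1 : HasDerivAt (fun x : ℝ => -(x ^ 2) / (4 * s)) (-(x / (2 * s))) x := by
      have h2 := ((hasDerivAt_pow 2 x).neg).div_const (4 * s)
      have h3 : -(((2 : ℕ) : ℝ) * x ^ (2 - 1)) / (4 * s) = -(x / (2 * s)) := by
        simp only [Nat.cast_ofNat, Nat.add_one_sub_one, pow_one]
        ring
      rw [h3] at h2
      exact h2
    have h4 := (h1.exp).const_mul ((Real.sqrt (4 * Real.pi * s))⁻¹ ^ 3)
    have h5 : (Real.sqrt (4 * Real.pi * s))⁻¹ ^ 3 *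
        (Real.exp (-(x ^ 2) / (4 * s)) * -(x / (2 * s))) = -(x / (2 * s)) * gam s x := by
      unfold gam
      ring
    rw [h5] at h4
    exact h4

theorem qbf_nonneg {t r : ℝ} (hr : 0 ≤ r) : 0 ≤ qbf t r := by
  unfold qbf
  exact mul_nonneg (by positivity) (intervalIntegral.integral_nonneg hr fun s _ => SBA_nn t s)

theorem qbf_le_one {t r : ℝ} (ht : 0 < t) (hr : 0 ≤ r) : qbf t r ≤ 1 := by
  rw [← gam_integral_space ht]
  unfold qbf
  refine mul_le_mul_of_nonneg_left ?_ (by positivity)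
  rw [intervalIntegral.integral_of_le hr]
  refine setIntegral_mono_set (SBA_int ht) (Eventually.of_forall fun s => SBA_nn t s) ?_
  exact Eventually.of_forall fun x hx => hx.1

theorem qbf_mono {t r s : ℝ} (ht : 0 < t) (hr : 0 ≤ r) (hrs : r ≤ s) : qbf t r ≤ qbf t s := by
  unfold qbf
  refine mul_le_mul_of_nonneg_left ?_ (by positivity)
  have h1 := intervalIntegral.integral_add_adjacent_intervals
    ((SBA_cont t).intervalIntegrable (μ := volume) 0 r) ((SBA_cont t).intervalIntegrable r s)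
  have h2 : 0 ≤ ∫ x in r..s, x ^ 2 * gam t x :=
    intervalIntegral.integral_nonneg hrs fun x _ => SBA_nn t x
  linarith

theorem qbf_le_cube {t r : ℝ} (ht : 0 < t) (hr : 0 ≤ r) : qbf t r ≤ r ^ 3 / Real.sqrt t ^ 3 := by
  have hst : 0 < Real.sqrt t := Real.sqrt_pos.2 ht
  have hpi := Real.pi_pos
  have hsp : 1 ≤ Real.sqrt Real.pi := by
    rw [Real.one_le_sqrt]
    linarith [Real.pi_gt_three]
  have hsq : Real.sqrt Real.pi ^ 2 = Real.pi := Real.sq_sqrt hpi.le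
  have h1 : ∫ s in (0:ℝ)..r, s ^ 2 * gam t s ≤
      ∫ s in (0:ℝ)..r, s ^ 2 * (Real.sqrt (4 * Real.pi * t))⁻¹ ^ 3 := by
    refine intervalIntegral.integral_mono_on hr ((SBA_cont t).intervalIntegrable _ _)
      (Continuous.intervalIntegrable (by fun_prop) _ _) fun s _ => ?_
    refine mul_le_mul_of_nonneg_left ?_ (sq_nonneg s)
    refine (SBA_gam_le ht s).trans (le_of_eq ?_)
    unfold gam
    simp
  have h2 : ∫ s in (0:ℝ)..r, s ^ 2 * (Real.sqrt (4 * Real.pi * t))⁻¹ ^ 3 =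
      r ^ 3 / 3 * (Real.sqrt (4 * Real.pi * t))⁻¹ ^ 3 := by
    rw [intervalIntegral.integral_mul_const, integral_pow]
    norm_num
  rw [h2] at h1
  unfold qbf
  refine (mul_le_mul_of_nonneg_left h1 (by positivity)).trans ?_
  rw [SBA_sqrt t]
  have h3 : 4 * Real.pi * (r ^ 3 / 3 * (2 * Real.sqrt Real.pi * Real.sqrt t)⁻¹ ^ 3) =
      r ^ 3 / Real.sqrt t ^ 3 * (1 / (6 * Real.sqrt Real.pi)) := by
    have h5 : (0:ℝ) < Real.sqrt Real.pi := by linarith
    have h4 : 4 * Real.pi = 4 * Real.sqrt Real.pi ^ 2 := by rw [hsq]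
    rw [h4]
    field_simp
    ring
  rw [h3]
  have h6 : 1 / (6 * Real.sqrt Real.pi) ≤ 1 := by
    rw [div_le_one (by linarith)]
    linarith
  exact mul_le_of_le_one_right (by positivity) h6

theorem qbf_neg (t r : ℝ) : qbf t (-r) = - qbf t r := by
  unfold qbf
  have h1 := intervalIntegral.integral_comp_neg (a := 0) (b := r) (fun s : ℝ => s ^ 2 * gam t s)
  have h2 : ∀ x : ℝ, (-x) ^ 2 * gam t (-x) = x ^ 2 * gam t x := by
    intro x
    unfold gam
    rw [neg_sq]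
  simp only [h2, neg_zero] at h1
  rw [intervalIntegral.integral_symm 0 (-r)] at h1
  rw [h1]
  ring

theorem qbf_scale {t r : ℝ} (ht : 0 < t) : qbf t r = qbf 1 (r / Real.sqrt t) :=
  SBA_qbf_scale ht

theorem one_sub_qbf_le {t r : ℝ} (ht : 0 < t) (hr : 0 ≤ r) :
    1 - qbf t r ≤ 3 * Real.exp (-(r ^ 2 / (8 * t))) := by
  have hpi := Real.pi_pos
  have h2t : 0 < 2 * t := by linarith
  -- the tail
  have h1 : 1 - qbf t r = 4 * Real.pi * ∫ s in Ioi r, s ^ 2 * gam t s := by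
    have e1 := gam_integral_space ht
    have e2 : ∫ s in Ioi (0:ℝ), s ^ 2 * gam t s =
        (∫ s in (0:ℝ)..r, s ^ 2 * gam t s) + ∫ s in Ioi r, s ^ 2 * gam t s :=
      (intervalIntegral.integral_interval_add_Ioi (SBA_int ht)
        ((SBA_int ht).mono_set (Ioi_subset_Ioi hr))).symm
    rw [e2] at e1
    unfold qbf
    linarith
  rw [h1]
  have h3 : Real.sqrt (4 * Real.pi * (2 * t)) = Real.sqrt 2 * Real.sqrt (4 * Real.pi * t) := by
    rw [← Real.sqrt_mul (by norm_num)]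
    congr 1
    ring
  have hs2 : (0:ℝ) < Real.sqrt 2 := Real.sqrt_pos.2 (by norm_num)
  have hs4 : (0:ℝ) < Real.sqrt (4 * Real.pi * t) := Real.sqrt_pos.2 (by positivity)
  have h4 : ∀ s ∈ Ioi r, s ^ 2 * gam t s ≤
      (Real.exp (-(r ^ 2 / (8 * t))) * Real.sqrt 2 ^ 3) * (s ^ 2 * gam (2 * t) s) := by
    intro s hs
    have hs' : r < s := hs
    have e1 : (Real.exp (-(r ^ 2 / (8 * t))) * Real.sqrt 2 ^ 3) * (s ^ 2 * gam (2 * t) s) =
        s ^ 2 * ((Real.sqrt (4 * Real.pi * t))⁻¹ ^ 3 *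
          Real.exp (-(r ^ 2 / (8 * t)) + -(s ^ 2) / (4 * (2 * t)))) := by
      unfold gam
      rw [h3, Real.exp_add]
      field_simp
    rw [e1]
    refine mul_le_mul_of_nonneg_left ?_ (sq_nonneg s)
    unfold gam
    refine mul_le_mul_of_nonneg_left ?_ (by positivity)
    apply Real.exp_le_exp.2
    have e2 : -(s ^ 2) / (4 * t) = -(s ^ 2 / (8 * t)) + -(s ^ 2 / (8 * t)) := by
      ring
    have e3 : -(s ^ 2) / (4 * (2 * t)) = -(s ^ 2 / (8 * t)) := by
      ring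
    rw [e2, e3]
    have e4 : r ^ 2 / (8 * t) ≤ s ^ 2 / (8 * t) := by
      refine div_le_div_of_nonneg_right ?_ (by positivity)
      exact pow_le_pow_left₀ hr hs'.le 2
    linarith
  have h5 : ∫ s in Ioi r, s ^ 2 * gam t s ≤
      ∫ s in Ioi r, (Real.exp (-(r ^ 2 / (8 * t))) * Real.sqrt 2 ^ 3) * (s ^ 2 * gam (2 * t) s) :=
    setIntegral_mono_on ((SBA_int ht).mono_set (Ioi_subset_Ioi hr))
      (((SBA_int h2t).mono_set (Ioi_subset_Ioi hr)).const_mul _) measurableSet_Ioi h4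
  have h6 : ∫ s in Ioi r, s ^ 2 * gam (2 * t) s ≤ ∫ s in Ioi (0:ℝ), s ^ 2 * gam (2 * t) s :=
    setIntegral_mono_set (SBA_int h2t) (Eventually.of_forall fun s => SBA_nn _ s)
      (Eventually.of_forall fun x hx => lt_of_le_of_lt hr hx)
  rw [integral_const_mul] at h5
  have h7 := gam_integral_space h2t
  have h8 : Real.sqrt 2 ^ 3 ≤ 3 := by
    have e1 : Real.sqrt 2 ^ 2 = 2 := Real.sq_sqrt (by norm_num)
    have e2 : Real.sqrt 2 ≤ 3 / 2 := by
      rw [Real.sqrt_le_left (by norm_num)]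
      norm_num
    have e3 : Real.sqrt 2 ^ 3 = 2 * Real.sqrt 2 := by
      rw [pow_succ, e1]
    rw [e3]
    linarith
  set c : ℝ := Real.exp (-(r ^ 2 / (8 * t))) with hc
  have hc0 : 0 < c := Real.exp_pos _
  have h9 : 4 * Real.pi * ∫ s in Ioi r, s ^ 2 * gam t s ≤ c * Real.sqrt 2 ^ 3 *
      (4 * Real.pi * ∫ s in Ioi (0:ℝ), s ^ 2 * gam (2 * t) s) := by
    have e1 : c * Real.sqrt 2 ^ 3 * ∫ s in Ioi r, s ^ 2 * gam (2 * t) s ≤
        c * Real.sqrt 2 ^ 3 * ∫ s in Ioi (0:ℝ), s ^ 2 * gam (2 * t) s :=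
      mul_le_mul_of_nonneg_left h6 (by positivity)
    have e2 := mul_le_mul_of_nonneg_left (h5.trans e1) (by positivity : (0:ℝ) ≤ 4 * Real.pi)
    linarith
  rw [h7, mul_one] at h9
  refine h9.trans ?_
  rw [mul_comm 3]
  exact mul_le_mul_of_nonneg_left h8 hc0.le

end Pool.Agent.Lib.MP_4952d6_mp

end

/-! ### U.MHA -/

section

/-!
# MHA: the mixing measure

`mh κ s = ∫_0^{π/2} (4/π) sin²φ exp(-s τ(φ)) dφ`, `κ² ≤ τ(φ) ≤ K² = κ² + 16π`. `∫_0^{π/2} (4/π) sin²φ dφ = 1` (`integral_sin_sq`).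
Derivative under the integral (`intervalIntegral.hasDerivAt_integral_of_dominated_loc_of_deriv_le`, bound `K² exp(K²(|s|+1))`).
`mh_ge_one_sub`: `exp(-sτ) ≥ 1 - s τ ≥ 1 - s K²`. `mh1_le`: `τ ≤ K²` pointwise.
-/

set_option autoImplicit false
set_option linter.unusedSectionVars false
set_option linter.unusedVariables false
open MeasureTheory Function Filter Topology Set
open scoped ENNReal

namespace Pool.Agent.Lib.MP_4952d6_mp

lemma MHA_tauv_cont (κ : ℝ) : Continuous (tauv κ) := by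
  unfold tauv
  fun_prop

lemma MHA_w_nonneg (φ : ℝ) : 0 ≤ 4 / Real.pi * Real.sin φ ^ 2 := by
  have := Real.pi_pos
  positivity

lemma MHA_w_le (φ : ℝ) : 4 / Real.pi * Real.sin φ ^ 2 ≤ 4 / Real.pi := by
  have h1 := Real.pi_pos
  have h2 : Real.sin φ ^ 2 ≤ 1 := Real.sin_sq_le_one φ
  calc 4 / Real.pi * Real.sin φ ^ 2 ≤ 4 / Real.pi * 1 :=
        mul_le_mul_of_nonneg_left h2 (by positivity)
    _ = _ := mul_one _

lemma MHA_int_one : ∫ φ in (0:ℝ)..(Real.pi / 2), 4 / Real.pi * Real.sin φ ^ 2 = 1 := by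
  have h1 := Real.pi_ne_zero
  rw [intervalIntegral.integral_const_mul, integral_sin_sq]
  simp
  field_simp
  norm_num

lemma MHA_ii {f : ℝ → ℝ} (hf : Continuous f) : IntervalIntegrable f volume 0 (Real.pi / 2) :=
  hf.intervalIntegrable _ _

lemma MHA_pi_half : (0:ℝ) ≤ Real.pi / 2 := by
  have := Real.pi_pos
  positivity

lemma MHA_cont (κ s : ℝ) :
    Continuous fun φ => 4 / Real.pi * Real.sin φ ^ 2 * Real.exp (-(s * tauv κ φ)) := by
  have := MHA_tauv_cont κ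
  fun_prop

lemma MHA_cont1 (κ s : ℝ) :
    Continuous fun φ => 4 / Real.pi * Real.sin φ ^ 2 * tauv κ φ * Real.exp (-(s * tauv κ φ)) := by
  have := MHA_tauv_cont κ
  fun_prop

lemma MHA_int_const (e : ℝ) :
    ∫ φ in (0:ℝ)..(Real.pi / 2), 4 / Real.pi * Real.sin φ ^ 2 * e = e := by
  rw [intervalIntegral.integral_mul_const, MHA_int_one, one_mul]

theorem tauv_ge (κ φ : ℝ) : κ ^ 2 ≤ tauv κ φ := by
  unfold tauv
  have h1 : 0 ≤ 16 * Real.pi * Real.cos φ ^ 2 := by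
    have := Real.pi_pos
    positivity
  linarith

theorem tauv_le (κ φ : ℝ) : tauv κ φ ≤ K2 κ := by
  unfold tauv K2
  have h1 := Real.pi_pos
  have h2 : Real.cos φ ^ 2 ≤ 1 := Real.cos_sq_le_one φ
  nlinarith

theorem mh_hasDerivAt (κ s : ℝ) : HasDerivAt (mh κ) (-mh1 κ s) s := by
  have hτ0 : ∀ φ, 0 ≤ tauv κ φ := fun φ => (sq_nonneg κ).trans (tauv_ge κ φ)
  have hK0 : 0 ≤ K2 κ := (hτ0 0).trans (tauv_le κ 0)
  have h := intervalIntegral.hasDerivAt_integral_of_dominated_loc_of_deriv_le (𝕜 := ℝ) (μ := volume)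
    (a := 0) (b := Real.pi / 2)
    (F := fun s φ => 4 / Real.pi * Real.sin φ ^ 2 * Real.exp (-(s * tauv κ φ)))
    (F' := fun s φ => -(4 / Real.pi * Real.sin φ ^ 2 * tauv κ φ * Real.exp (-(s * tauv κ φ))))
    (bound := fun _ => 4 / Real.pi * K2 κ * Real.exp (K2 κ * (|s| + 1)))
    (x₀ := s) (s := Metric.ball s 1) (Metric.ball_mem_nhds s one_pos)
    (Eventually.of_forall fun x => (MHA_cont κ x).aestronglyMeasurable)
    (MHA_ii (MHA_cont κ s))
    (MHA_cont1 κ s).neg.aestronglyMeasurable ?_ (MHA_ii continuous_const) ?_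
  · have h2 := h.2
    rw [intervalIntegral.integral_neg] at h2
    exact h2
  · refine Eventually.of_forall fun φ _ x hx => ?_
    rw [Metric.mem_ball, Real.dist_eq] at hx
    have hx1 : |x| ≤ |s| + 1 := by
      have := abs_sub_abs_le_abs_sub x s
      linarith
    have e1 : Real.exp (-(x * tauv κ φ)) ≤ Real.exp (K2 κ * (|s| + 1)) := by
      rw [Real.exp_le_exp]
      have h3 : -(x * tauv κ φ) ≤ |x| * tauv κ φ := by
        rw [← neg_mul]
        exact mul_le_mul_of_nonneg_right (neg_le_abs x) (hτ0 φ)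
      have h4 : |x| * tauv κ φ ≤ (|s| + 1) * K2 κ :=
        mul_le_mul hx1 (tauv_le κ φ) (hτ0 φ) (by positivity)
      linarith
    rw [norm_neg, Real.norm_of_nonneg (mul_nonneg (mul_nonneg (MHA_w_nonneg φ) (hτ0 φ))
      (Real.exp_pos _).le)]
    refine mul_le_mul ?_ e1 (Real.exp_pos _).le ?_
    · refine mul_le_mul (MHA_w_le φ) (tauv_le κ φ) (hτ0 φ) ?_
      have := Real.pi_pos
      positivity
    · have := Real.pi_pos
      positivity
  · refine Eventually.of_forall fun φ _ x _ => ?_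
    have h3 : HasDerivAt (fun x => -(x * tauv κ φ)) (-(1 * tauv κ φ)) x :=
      ((hasDerivAt_id x).mul_const _).neg
    have h4 := (h3.exp).const_mul (4 / Real.pi * Real.sin φ ^ 2)
    refine h4.congr_deriv ?_
    ring

theorem mh_continuous (κ : ℝ) : Continuous (mh κ) := by
  exact continuous_iff_continuousAt.2 fun s => (mh_hasDerivAt κ s).continuousAt

theorem mh1_continuous (κ : ℝ) : Continuous (mh1 κ) := by
  have h : Continuous (uncurry fun s φ : ℝ =>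
      4 / Real.pi * Real.sin φ ^ 2 * tauv κ φ * Real.exp (-(s * tauv κ φ))) := by
    have h1 := MHA_tauv_cont κ
    have h2 : Continuous fun q : ℝ × ℝ =>
        4 / Real.pi * Real.sin q.2 ^ 2 * tauv κ q.2 * Real.exp (-(q.1 * tauv κ q.2)) := by
      fun_prop
    exact h2
  exact intervalIntegral.continuous_parametric_intervalIntegral_of_continuous' h _ _

theorem mh_zero (κ : ℝ) : mh κ 0 = 1 := by
  unfold mh
  simp only [zero_mul, neg_zero, Real.exp_zero, mul_one]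
  exact MHA_int_one

theorem mh_nonneg (κ s : ℝ) : 0 ≤ mh κ s := by
  exact intervalIntegral.integral_nonneg MHA_pi_half fun φ _ =>
    mul_nonneg (MHA_w_nonneg φ) (Real.exp_pos _).le

theorem mh_le {κ s : ℝ} (hs : 0 ≤ s) : mh κ s ≤ Real.exp (-(κ ^ 2 * s)) := by
  rw [← MHA_int_const (Real.exp (-(κ ^ 2 * s)))]
  refine intervalIntegral.integral_mono_on MHA_pi_half (MHA_ii (MHA_cont κ s))
    (MHA_ii (by fun_prop)) fun φ _ => ?_
  refine mul_le_mul_of_nonneg_left ?_ (MHA_w_nonneg φ)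
  rw [Real.exp_le_exp]
  nlinarith [tauv_ge κ φ]

theorem mh_ge {κ s : ℝ} (hs : 0 ≤ s) : Real.exp (-(K2 κ * s)) ≤ mh κ s := by
  rw [← MHA_int_const (Real.exp (-(K2 κ * s)))]
  refine intervalIntegral.integral_mono_on MHA_pi_half (MHA_ii (by fun_prop))
    (MHA_ii (MHA_cont κ s)) fun φ _ => ?_
  refine mul_le_mul_of_nonneg_left ?_ (MHA_w_nonneg φ)
  rw [Real.exp_le_exp]
  nlinarith [tauv_le κ φ]

theorem mh_le_one {κ s : ℝ} (hs : 0 ≤ s) : mh κ s ≤ 1 := by
  refine (mh_le hs).trans ?_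
  rw [Real.exp_le_one_iff]
  have : 0 ≤ κ ^ 2 * s := by positivity
  linarith

theorem mh_ge_one_sub {κ s : ℝ} (hs : 0 ≤ s) : 1 - K2 κ * s ≤ mh κ s := by
  refine le_trans ?_ (mh_ge hs)
  have := Real.add_one_le_exp (-(K2 κ * s))
  linarith

theorem mh1_nonneg (κ s : ℝ) : 0 ≤ mh1 κ s := by
  exact intervalIntegral.integral_nonneg MHA_pi_half fun φ _ =>
    mul_nonneg (mul_nonneg (MHA_w_nonneg φ) ((sq_nonneg κ).trans (tauv_ge κ φ))) (Real.exp_pos _).le

theorem mh1_le_mh (κ s : ℝ) : mh1 κ s ≤ K2 κ * mh κ s := by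
  unfold mh1 mh
  rw [← intervalIntegral.integral_const_mul]
  refine intervalIntegral.integral_mono_on MHA_pi_half (MHA_ii (MHA_cont1 κ s))
    (MHA_ii ((MHA_cont κ s).const_mul _)) fun φ _ => ?_
  have h1 : 0 ≤ 4 / Real.pi * Real.sin φ ^ 2 * Real.exp (-(s * tauv κ φ)) :=
    mul_nonneg (MHA_w_nonneg φ) (Real.exp_pos _).le
  nlinarith [mul_le_mul_of_nonneg_left (tauv_le κ φ) h1]

end Pool.Agent.Lib.MP_4952d6_mp

end

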