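import Pool.Agent.Lib.MP_4952d6_mp.Pk.G10
import Pool.Agent.Lib.MP_4952d6_mp.Pk.G14

/-! Merged modules (to save import time): LB.Base, LA.D. -/

/-! ### LB.Base -/

section

/-!
# Shared definitions for the sharp lower half of the depletion law (streams LA, LB, LC)

Units: unit torus, `N` particles, scattering length `a`, `Y = √(N a³)`, healing length `a / Y`.
-/

set_option autoImplicit false
set_option linter.unusedSectionVars false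
set_option linter.unusedVariables false
open MeasureTheory Function Filter Topology Set
open scoped ENNReal

namespace Pool.Agent.Lib.MP_4952d6_mp

/-- The time scale `t = l² Y^(2/5)`, `l = a / Y`. -/
noncomputable def tsc (a Y : ℝ) : ℝ := (a / Y) ^ 2 * Y ^ ((2 : ℝ) / 5)

/-- Smoothed number of particles around particle `m` (without `m` itself). -/
noncomputable def crowd {ι : Type*} [Fintype ι] [DecidableEq ι] (s : ℝ) (m : ι) (x : ι → T3) : ℝ :=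
  ∑ j ∈ Finset.univ.erase m, hk s (x m - x j)

/-- Average over the position of particle `m`. -/
noncomputable def avj {ι : Type*} [Fintype ι] [DecidableEq ι] (m : ι) (ψ : (ι → T3) → ℂ)
    (x : ι → T3) : ℂ := ∫ y, ψ (update x m y) ∂lam3

/-- Heat flow for time `s` in the position of particle `m`. -/
noncomputable def htj {ι : Type*} [Fintype ι] [DecidableEq ι] (s : ℝ) (m : ι)
    (ψ : (ι → T3) → ℂ) (x : ι → T3) : ℂ := ∫ y, (hk s (x m - y) : ℂ) * ψ (update x m y) ∂lam3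

/-- Local moment bounds at the time scale `t`: (M0), (M1), (M2). -/
structure LocM {ι : Type*} [Fintype ι] [DecidableEq ι] (C Y t : ℝ) (ψ : (ι → T3) → ℂ) : Prop where
  m0 : ∀ s, t / 8 ≤ s → s ≤ 8 * t →
    ∑ m, ∫ x, ‖ψ x‖ ^ 2 * crowd s m x ∂(piN ι) ≤ C * (Fintype.card ι : ℝ) ^ 2
  m1 : ∀ s, t / 8 ≤ s → s ≤ 8 * t →
    ∑ m, ∫ x, ‖ψ x - avj m ψ x‖ ^ 2 * (crowd s m x + Fintype.card ι) ^ 2 ∂(piN ι)
      ≤ C * (Fintype.card ι : ℝ) ^ 3 * Y ^ ((19 : ℝ) / 20)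
  m2 : ∀ s, t / 8 ≤ s → s ≤ 8 * t →
    ∑ m, ∫ x, ‖ψ x - htj (t / 2) m ψ x‖ ^ 2 * (crowd s m x + Fintype.card ι) ^ 2 ∂(piN ι)
      ≤ C * (Fintype.card ι : ℝ) ^ 3 * Y ^ ((19 : ℝ) / 20)

/-- The integrand of the energy functional, `r = |x|`. -/
noncomputable def jInt (δ r : ℝ) : ℝ :=
  Real.sqrt ((r ^ 2 + δ) ^ 2 + 16 * Real.pi * (r ^ 2 + δ)) - (r ^ 2 + δ) - 8 * Real.pi
    + 32 * Real.pi ^ 2 / r ^ 2

/-- `J(δ) = (1/2) (2π)⁻³ ∫_{ℝ³} jInt δ |x| dx = (1/(4π²)) ∫₀^∞ r² jInt δ r dr`. -/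
noncomputable def Jf (δ : ℝ) : ℝ :=
  1 / (4 * Real.pi ^ 2) * ∫ r in Ioi (0:ℝ), r ^ 2 * jInt δ r

/-- **Theorem L, torus form** (stream LB). -/
def LBStatement : Prop :=
  ∀ θ δ η CM : ℝ, 0 ≤ δ → 0 < η → ∃ Y0 : ℝ, 0 < Y0 ∧ ∀ Y : ℝ, 0 < Y → Y < Y0 →
    ∃ a0 : ℝ, 0 < a0 ∧ ∀ (N : ℕ) (W f Q : ℝ → ℝ) (R₀ R a : ℝ), Scat W R₀ R a f Q → a < a0 →
      (N : ℝ) * a ^ 3 = Y ^ 2 → R ≤ θ * a →
      ∀ 𝒱 : T3 → ℝ≥0∞, (∀ᵐ y ∂lam3, ENNReal.ofReal (2 * W (rr y)) ≤ 𝒱 y) →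
      ∀ ψ : (Fin N → T3) → ℂ, tAdm R₀ 𝒱 ψ → LocM CM Y (tsc a Y) ψ →
      (∑ i, nuQ (fc ψ) i) ≤ 2 * Y * N →
      ENNReal.ofReal (4 * Real.pi * N ^ 2 * a + N ^ 2 * a * Y * (Jf δ - η)
        - δ * N * a * ∑ i, nuQ (fc ψ) i) ≤ tE 𝒱 ψ

end Pool.Agent.Lib.MP_4952d6_mp

end

/-! ### LA.D -/

section

/-!
# Stream LA (moments of the minimiser): definitions

Configurations `ι → T3`, weak gradients in Fourier form, energies of subsets of particles.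
-/

set_option autoImplicit false
set_option linter.unusedSectionVars false
set_option linter.unusedVariables false
open MeasureTheory Function Filter Topology Set ComplexConjugate
open scoped ENNReal

namespace Pool.Agent.Lib.MP_4952d6_mp.LA

section basic
variable {ι : Type*} [Fintype ι]

/-- `g` is the weak gradient of `ψ` (Fourier form). -/
structure HG (ψ : (ι → T3) → ℂ) (g : ι → Fin 3 → (ι → T3) → ℂ) : Prop where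
  mem : MemLp ψ 2 (piN ι)
  gmem : ∀ i α, MemLp (g i α) 2 (piN ι)
  four : ∀ i α k, fc (g i α) k = 2 * Real.pi * Complex.I * (k i α : ℝ) * fc ψ k

/-- The same for functions of one particle. -/
structure HG1 (φ : T3 → ℂ) (g : Fin 3 → T3 → ℂ) : Prop where
  mem : MemLp φ 2 lam3
  gmem : ∀ α, MemLp (g α) 2 lam3
  four : ∀ α p, fc3 (g α) p = 2 * Real.pi * Complex.I * (p α : ℝ) * fc3 φ p

/-- Number of particles with weight `θ` around `y`. -/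
noncomputable def nTh (θ : T3 → ℝ) (y : T3) (x : ι → T3) : ℝ := ∑ i, θ (x i - y) ^ 2

/-- `G ψ`. -/
noncomputable def mG {κ : Type*} (G : (κ → T3) → ℝ) (ψ : (κ → T3) → ℂ) (x : κ → T3) : ℂ :=
  (G x : ℂ) * ψ x

/-- gradient of `G ψ` -/
noncomputable def mGg {κ : Type*} (G : (κ → T3) → ℝ) (G' : κ → Fin 3 → (κ → T3) → ℝ)
    (ψ : (κ → T3) → ℂ) (g : κ → Fin 3 → (κ → T3) → ℂ) (i : κ) (α : Fin 3) (x : κ → T3) : ℂ :=
  (G' i α x : ℂ) * ψ x + (G x : ℂ) * g i α x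

/-- Product of heat kernels with pole `y`, times `r i`, over the particles in `T`. -/
noncomputable def ZT {κ : Type*} (T : Finset κ) (r : κ → ℝ) (y : T3) (x : κ → T3) : ℝ :=
  ∏ i ∈ T, hk (r i) (y - x i)

/-- Gluing of a configuration of the particles with `p` and one of the others. -/
noncomputable def glue {κ : Type*} (p : κ → Prop) [DecidablePred p] (x : {i // p i} → T3)
    (y : {i // ¬ p i} → T3) : κ → T3 := fun i => if h : p i then x ⟨i, h⟩ else y ⟨i, h⟩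

end basic

/-- `ψ` vanishes on the hard cores. -/
def Core {κ : Type*} (R₀ : ℝ) (ψ : (κ → T3) → ℂ) : Prop :=
  ∀ x, ∀ i j : κ, i ≠ j → rr (x i - x j) < R₀ → ψ x = 0

variable {ι : Type*} [Fintype ι] [DecidableEq ι]

/-- Potential energy of the particles in `S` (half the sum over ordered pairs). -/
noncomputable def potS (𝒱 : T3 → ℝ≥0∞) (S : Finset ι) (x : ι → T3) : ℝ≥0∞ :=
  2⁻¹ * ∑ i ∈ S, ∑ j ∈ S.erase i, 𝒱 (x i - x j)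

/-- Energy of the particles in `S`, with a weight `w`. -/
noncomputable def eW (𝒱 : T3 → ℝ≥0∞) (S : Finset ι) (w : (ι → T3) → ℝ≥0∞)
    (ψ : (ι → T3) → ℂ) (g : ι → Fin 3 → (ι → T3) → ℂ) : ℝ≥0∞ :=
  (∑ i ∈ S, ∑ α, ∫⁻ x, w x * ‖g i α x‖ₑ ^ 2 ∂(piN ι))
    + ∫⁻ x, w x * (potS 𝒱 S x * ‖ψ x‖ₑ ^ 2) ∂(piN ι)

/-- Energy of the particles in `S`. -/
noncomputable def eS (𝒱 : T3 → ℝ≥0∞) (S : Finset ι)
    (ψ : (ι → T3) → ℂ) (g : ι → Fin 3 → (ι → T3) → ℂ) : ℝ≥0∞ :=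
  (∑ i ∈ S, ∑ α, ∫⁻ x, ‖g i α x‖ₑ ^ 2 ∂(piN ι)) + ∫⁻ x, potS 𝒱 S x * ‖ψ x‖ₑ ^ 2 ∂(piN ι)

/-- Real valued energy. -/
noncomputable def rE (𝒱 : T3 → ℝ≥0∞) (S : Finset ι)
    (ψ : (ι → T3) → ℂ) (g : ι → Fin 3 → (ι → T3) → ℂ) : ℝ :=
  (∑ i ∈ S, ∑ α, ∫ x, ‖g i α x‖ ^ 2 ∂(piN ι)) + ∫ x, (potS 𝒱 S x).toReal * ‖ψ x‖ ^ 2 ∂(piN ι)

/-- Ground state energy of `n` particles. -/
noncomputable def E0 (R₀ : ℝ) (𝒱 : T3 → ℝ≥0∞) (n : ℕ) : ℝ≥0∞ :=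
  ⨅ (φ : (Fin n → T3) → ℂ) (_ : tAdm R₀ 𝒱 φ), tE 𝒱 φ

/-- Finite energy states, not normalised. -/
structure FE (R₀ : ℝ) (𝒱 : T3 → ℝ≥0∞) (ψ : (ι → T3) → ℂ)
    (g : ι → Fin 3 → (ι → T3) → ℂ) : Prop where
  hg : HG ψ g
  core : Core R₀ ψ
  fin : eS 𝒱 Finset.univ ψ g < ⊤

/-- `G` has weak derivatives `G'` in all directions. -/
def WDN (G : (ι → T3) → ℝ) (G' : ι → Fin 3 → (ι → T3) → ℝ) : Prop :=
  ∀ i α, WD (piN ι) (tauN i α) G (G' i α)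

/-- The bilinear expression `E(ψ, G ψ)` (real part). -/
noncomputable def bG (𝒱 : T3 → ℝ≥0∞) (ψ : (ι → T3) → ℂ) (g : ι → Fin 3 → (ι → T3) → ℂ)
    (G : (ι → T3) → ℝ) (G' : ι → Fin 3 → (ι → T3) → ℝ) : ℝ :=
  (∑ i, ∑ α, ∫ x, (G x * ‖g i α x‖ ^ 2 + G' i α x * (conj (ψ x) * g i α x).re) ∂(piN ι))
    + ∫ x, G x * ((potS 𝒱 Finset.univ x).toReal * ‖ψ x‖ ^ 2) ∂(piN ι)

/-- Sum over ordered `k`-tuples of distinct elements of `U`. -/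
noncomputable def elS (a : ι → ℝ) : ℕ → Finset ι → ℝ
  | 0, _ => 1
  | k + 1, U => ∑ j ∈ U, a j * elS a k (U.erase j)

/-- The localisation functions: `θ₁² + θ₂² = 1`, `θ₁ = 1` on `rr ≤ l`, `θ₁ = 0` on `2 l ≤ rr`. -/
structure Loc2 (l : ℝ) (θ₁ θ₂ : T3 → ℝ) (θ₁' θ₂' : Fin 3 → T3 → ℝ) : Prop where
  wd1 : ∀ α, WD lam3 (tau α) θ₁ (θ₁' α)
  wd2 : ∀ α, WD lam3 (tau α) θ₂ (θ₂' α)
  sum : ∀ x, θ₁ x ^ 2 + θ₂ x ^ 2 = 1
  one : ∀ x, rr x ≤ l → θ₁ x = 1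
  zero : ∀ x, 2 * l ≤ rr x → θ₁ x = 0
  nonneg : ∀ x, 0 ≤ θ₁ x
  grad : ∀ x, ∑ α, (θ₁' α x ^ 2 + θ₂' α x ^ 2) ≤ 3 / l ^ 2
  gzero : ∀ x, 2 * l < rr x → ∑ α, (θ₁' α x ^ 2 + θ₂' α x ^ 2) = 0
  ort : ∀ᵐ x ∂lam3, ∀ α, θ₁ x * θ₁' α x + θ₂ x * θ₂' α x = 0
  meas1 : ∀ α, Measurable (θ₁' α)
  meas2 : ∀ α, Measurable (θ₂' α)

end Pool.Agent.Lib.MP_4952d6_mp.LA

end

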