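import Pool.Agent.Lib.MP_4952d6_mp.Pk.G07
import Pool.Agent.Lib.MP_4952d6_mp.Pk.G16
import Pool.Agent.Lib.MP_4952d6_mp.Pk.G18
import Pool.Agent.Lib.MP_4952d6_mp.Pk.G27

/-! Merged modules (to save import time): Bridge2, Bridge3, Bridge4, LC.FDefs, LC.F1a, LC.F1b, LC.F1c, FinalA, PhysA, Final2A, LC.F4, EU.ScatVar. -/

/-! ### Bridge2 -/

section

set_option autoImplicit false
set_option linter.unusedSectionVars false
set_option linter.unusedVariables false
open MeasureTheory Function Filter Topology Set ComplexConjugate AddCircle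
open scoped ENNReal

namespace Pool.Agent.Lib.MP_4952d6_mp

section trans
variable {N : ℕ} {L : ℝ}

/-- Transfer of a wave function to the torus. -/
noncomputable def TT (N : ℕ) (L : ℝ) (ψ : (Fin N → Fin 3 → ℝ) → ℂ) : (Fin N → T3) → ℂ :=
  fun y => ((Real.sqrt (L ^ (3 * N)) : ℝ) : ℂ) * ψ (toB N L y)

/-- Transfer of a wave function to the box. -/
noncomputable def BB (N : ℕ) (L : ℝ) (φ : (Fin N → T3) → ℂ) : (Fin N → Fin 3 → ℝ) → ℂ :=
  fun x => (((Real.sqrt (L ^ (3 * N)))⁻¹ : ℝ) : ℂ) * φ (toT N L x)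

lemma TT_BB (hL : 0 < L) (φ : (Fin N → T3) → ℂ) : TT N L (BB N L φ) = φ := by
  funext y
  have h : Real.sqrt (L ^ (3 * N)) ≠ 0 := (Real.sqrt_pos.2 (by positivity)).ne'
  simp only [TT, BB, toT_toB hL, ← mul_assoc, ← Complex.ofReal_mul, mul_inv_cancel₀ h,
    Complex.ofReal_one, one_mul]

lemma memLp_PB (hL : 0 < L) {ψ : (Fin N → Fin 3 → ℝ) → ℂ} :
    MemLp ψ 2 (PB N L) ↔ MemLp ψ 2 (volume.restrict (box N L)) := by
  constructor
  · intro h
    rw [restrict_eq hL]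
    exact h.smul_measure ENNReal.ofReal_ne_top
  · intro h
    rw [PB]
    exact h.smul_measure ENNReal.ofReal_ne_top

lemma memLp_TT (hL : 0 < L) {ψ : (Fin N → Fin 3 → ℝ) → ℂ}
    (hψ : MemLp ψ 2 (volume.restrict (box N L))) : MemLp (TT N L ψ) 2 (piN (Fin N)) :=
  (((memLp_PB hL).2 hψ).comp_measurePreserving (mp_toB hL)).const_mul _

lemma memLp_BB (hL : 0 < L) {φ : (Fin N → T3) → ℂ}
    (hφ : MemLp φ 2 (piN (Fin N))) : MemLp (BB N L φ) 2 (volume.restrict (box N L)) :=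
  (memLp_PB hL).1 ((hφ.comp_measurePreserving (mp_toT hL)).const_mul _)

lemma norm_TT (hL : 0 < L) {ψ : (Fin N → Fin 3 → ℝ) → ℂ}
    (hψ : AEStronglyMeasurable ψ (volume.restrict (box N L))) :
    ∫ x in box N L, ‖ψ x‖ ^ 2 = ∫ y, ‖TT N L ψ y‖ ^ 2 ∂(piN (Fin N)) := by
  rw [setIntegral_box hL (F := fun x => ‖ψ x‖ ^ 2) ((hψ.mono_ac (PB_ac N L)).norm.pow 2),
    smul_eq_mul, ← integral_const_mul]
  congr 1
  funext y
  simp only [TT, norm_mul, mul_pow, Complex.norm_real, Real.norm_eq_abs, sq_abs]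
  rw [Real.sq_sqrt (by positivity)]

lemma conj_chN_eq (hL : 0 < L) (k : Fin N → Fin 3 → ℤ) (y : Fin N → T3) :
    Complex.exp (-(2 * Real.pi * Complex.I / L)
      * ∑ i, ∑ α, ((k i α : ℂ) * (toB N L y i α : ℂ))) = conj (chN k y) := by
  rw [← chN_neg]
  simp only [chN, ch, UnitAddTorus.mFourier, ContinuousMap.coe_mk]
  have h1 : ∀ i α, (fourier ((-k) i α) (y i α) : ℂ)
      = Complex.exp (-(2 * Real.pi * Complex.I / L) * ((k i α : ℂ) * (toB N L y i α : ℂ))) := by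
    intro i α
    conv_lhs => rw [← coe_rep (y i α)]
    rw [fourier_coe_apply]
    congr 1
    have : (L : ℂ) ≠ 0 := by exact_mod_cast hL.ne'
    simp only [toB, Pi.neg_apply]
    push_cast
    field_simp
  simp_rw [h1]
  rw [Finset.mul_sum, Complex.exp_sum]
  refine Finset.prod_congr rfl fun i _ => ?_
  rw [Finset.mul_sum, Complex.exp_sum]

lemma fourierC_eq (hL : 0 < L) {ψ : (Fin N → Fin 3 → ℝ) → ℂ}
    (hψ : AEStronglyMeasurable ψ (volume.restrict (box N L))) (k : Fin N → Fin 3 → ℤ) :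
    fourierC N L ψ k = fc (TT N L ψ) k := by
  unfold fourierC fc
  have hm : AEStronglyMeasurable (fun x : Fin N → Fin 3 → ℝ =>
      Complex.exp (-(2 * Real.pi * Complex.I / L) * ∑ i, ∑ α, ((k i α : ℂ) * (x i α : ℂ))) * ψ x)
      (PB N L) := by
    refine AEStronglyMeasurable.mul ?_ (hψ.mono_ac (PB_ac N L))
    refine Continuous.aestronglyMeasurable ?_
    fun_prop
  rw [setIntegral_box hL hm]
  have hs : Real.sqrt (L ^ (3 * N)) ≠ 0 := (Real.sqrt_pos.2 (by positivity)).ne'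
  rw [Complex.real_smul, ← mul_assoc, ← Complex.ofReal_mul]
  have e : (Real.sqrt (L ^ (3 * N)))⁻¹ * L ^ (3 * N) = Real.sqrt (L ^ (3 * N)) := by
    rw [inv_mul_eq_iff_eq_mul₀ hs, Real.mul_self_sqrt (by positivity)]
  rw [e, ← integral_const_mul]
  congr 1
  funext y
  rw [conj_chN_eq hL]
  simp only [TT]
  ring

end trans

/-! ### The periodised potential -/

/-- Periodisation of a potential, on the unit torus. -/
noncomputable def vper (L : ℝ) (v : (Fin 3 → ℝ) → ℝ) (y : T3) : ℝ≥0∞ :=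
  ∑' n : Fin 3 → ℤ, ENNReal.ofReal (v (fun α => L * (crd y α + (n α : ℝ))))

lemma exists_shift (z : Fin 3 → ℝ) (y : T3) (hy : ∀ α, y α = ((z α : ℝ) : UnitAddCircle)) :
    ∃ k : Fin 3 → ℤ, ∀ α, crd y α = z α + k α := by
  have h : ∀ α, ∃ k : ℤ, crd y α = z α + k := by
    intro α
    have h1 : ((crd y α - z α : ℝ) : UnitAddCircle) = 0 := by
      rw [AddCircle.coe_sub, coe_crd, hy α, sub_self]
    rw [AddCircle.coe_eq_zero_iff] at h1
    obtain ⟨k, hk⟩ := h1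
    refine ⟨k, ?_⟩
    rw [zsmul_eq_mul, mul_one] at hk
    linarith
  choose k hk using h
  exact ⟨k, hk⟩

lemma vper_eq {L : ℝ} (hL : 0 < L) (v : (Fin 3 → ℝ) → ℝ) (z : Fin 3 → ℝ) (y : T3)
    (hy : ∀ α, y α = ((z α / L : ℝ) : UnitAddCircle)) :
    ∑' n : Fin 3 → ℤ, ENNReal.ofReal (v (fun α => z α + L * (n α : ℝ))) = vper L v y := by
  obtain ⟨k, hk⟩ := exists_shift (fun α => z α / L) y hy
  unfold vper
  rw [← (Equiv.addLeft k).tsum_eq]
  refine tsum_congr fun n => ?_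
  congr 2
  funext α
  rw [hk α]
  simp only [Equiv.coe_addLeft, Pi.add_apply]
  push_cast
  field_simp
  ring

lemma rr_lt_iff {L : ℝ} (hL : 0 < L) {R₀ : ℝ} (hR : 0 ≤ R₀) (z : Fin 3 → ℝ) (y : T3)
    (hy : ∀ α, y α = ((z α / L : ℝ) : UnitAddCircle)) :
    (∃ n : Fin 3 → ℤ, ∑ α, (z α + L * (n α : ℝ)) ^ 2 < R₀ ^ 2) ↔ rr y < R₀ / L := by
  have e : ∀ n : Fin 3 → ℤ, ∑ α, (z α + L * (n α : ℝ)) ^ 2
      = L ^ 2 * ∑ α, (z α / L + (n α : ℝ)) ^ 2 := by
    intro n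
    rw [Finset.mul_sum]
    refine Finset.sum_congr rfl fun α _ => ?_
    field_simp
  have e2 : rr y < R₀ / L ↔ L ^ 2 * rr y ^ 2 < R₀ ^ 2 := by
    rw [lt_div_iff₀ hL, ← mul_pow, mul_comm L (rr y)]
    constructor
    · intro h
      exact pow_lt_pow_left₀ h (mul_nonneg (rr_nonneg y) hL.le) two_ne_zero
    · intro h
      exact lt_of_pow_lt_pow_left₀ 2 hR h
  rw [e2, rr_sq]
  constructor
  · rintro ⟨n, hn⟩
    refine lt_of_le_of_lt ?_ hn
    rw [e]
    refine mul_le_mul_of_nonneg_left (Finset.sum_le_sum fun α _ => ?_) (by positivity)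
    rw [← sq_abs (crd y α), abs_crd, ← sq_abs (z α / L + n α)]
    refine pow_le_pow_left₀ (norm_nonneg _) ?_ 2
    rw [hy α]
    have h3 : ((z α / L : ℝ) : UnitAddCircle) = ((z α / L + n α : ℝ) : UnitAddCircle) := by
      rw [AddCircle.coe_add]
      have : ((n α : ℝ) : UnitAddCircle) = 0 := by
        rw [AddCircle.coe_eq_zero_iff]
        exact ⟨n α, by simp⟩
      rw [this, add_zero]
    rw [h3]
    exact QuotientAddGroup.norm_mk_le_norm
  · intro h
    obtain ⟨k, hk⟩ := exists_shift (fun α => z α / L) y hy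
    refine ⟨k, ?_⟩
    rw [e]
    simpa only [hk] using h

end Pool.Agent.Lib.MP_4952d6_mp

end

/-! ### Bridge3 -/

section

set_option autoImplicit false
set_option linter.unusedSectionVars false
set_option linter.unusedVariables false
open MeasureTheory Function Filter Topology Set ComplexConjugate AddCircle
open scoped ENNReal

namespace Pool.Agent.Lib.MP_4952d6_mp

/-- Centred representative. -/
noncomputable def crd1 (y : UnitAddCircle) : ℝ := (AddCircle.equivIoc (1:ℝ) (-(1/2)) y : ℝ)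

lemma crd1_coe {t : ℝ} (ht : t ∈ Ioc (-(1/2) : ℝ) (1/2)) : crd1 (t : UnitAddCircle) = t := by
  have ht' : t ∈ Ioc (-(1/2) : ℝ) (-(1/2) + 1) := by
    have e : (-(1/2) : ℝ) + 1 = 1/2 := by norm_num
    rwa [e]
  exact AddCircle.equivIoc_coe_of_mem (p := (1:ℝ)) ht'

lemma crd1_measurable : Measurable crd1 :=
  measurable_subtype_coe.comp (AddCircle.measurableEquivIoc (1:ℝ) (-(1/2))).measurable

lemma mp_crd1 : MeasurePreserving crd1 haarAddCircle
    (volume.restrict (Ioc (-(1/2) : ℝ) (1/2))) := by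
  have h := AddCircle.measurePreserving_mk (1:ℝ) (-(1/2))
  have e : (volume : Measure (AddCircle (1:ℝ))) = haarAddCircle := by
    rw [AddCircle.volume_eq_smul_haarAddCircle]; simp
  have e2 : (-(1/2) : ℝ) + 1 = 1/2 := by norm_num
  rw [e, e2] at h
  refine ⟨crd1_measurable, ?_⟩
  rw [← h.map_eq, Measure.map_map crd1_measurable h.measurable]
  have : (crd1 ∘ fun t : ℝ => (t : UnitAddCircle)) =ᵐ[volume.restrict (Ioc (-(1/2) : ℝ) (1/2))]
      id := by
    filter_upwards [ae_restrict_mem measurableSet_Ioc] with t ht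
    exact crd1_coe ht
  have h2 : Measure.map (crd1 ∘ fun t : ℝ => (t : UnitAddCircle))
      (volume.restrict (Ioc (-(1/2) : ℝ) (1/2))) = volume.restrict (Ioc (-(1/2) : ℝ) (1/2)) := by
    rw [Measure.map_congr this, Measure.map_id]
  exact h2

/-- The centred unit cube. -/
def cube : Set (Fin 3 → ℝ) := Set.pi univ (fun _ => Ioc (-(1/2) : ℝ) (1/2))

lemma measurableSet_cube : MeasurableSet cube := MeasurableSet.univ_pi fun _ => measurableSet_Ioc

lemma mp_crd : MeasurePreserving (fun (y : T3) (α : Fin 3) => crd y α) lam3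
    (volume.restrict cube) := by
  have h2 : (volume : Measure (Fin 3 → ℝ)) = Measure.pi fun _ => volume := rfl
  rw [cube, h2, Measure.restrict_pi_pi]
  exact measurePreserving_pi _ _ (fun _ => mp_crd1)

/-- The cube tiles space. -/
lemma tiling (G : (Fin 3 → ℝ) → ℝ≥0∞) :
    ∑' n : Fin 3 → ℤ, ∫⁻ x in cube, G (x + fun α => (n α : ℝ)) = ∫⁻ x, G x := by
  set S : (Fin 3 → ℤ) → Set (Fin 3 → ℝ) := fun n => {x | ∀ α, x α - n α ∈ Ioc (-(1/2) : ℝ) (1/2)}
    with hS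
  have hm : ∀ n, MeasurableSet (S n) := by
    intro n
    have e : S n = Set.pi univ fun α => (fun t : ℝ => t - n α) ⁻¹' Ioc (-(1/2) : ℝ) (1/2) := by
      ext x; simp [hS]
    rw [e]
    exact MeasurableSet.univ_pi fun α => (measurable_id.sub_const _) measurableSet_Ioc
  have huniv : ⋃ n, S n = univ := by
    rw [eq_univ_iff_forall]
    intro x
    rw [mem_iUnion]
    refine ⟨fun α => ⌈x α - 1/2⌉, fun α => ?_⟩
    have h1 := Int.le_ceil (x α - 1/2)
    have h2 := Int.ceil_lt_add_one (x α - 1/2)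
    exact ⟨by linarith, by linarith⟩
  have hd : Pairwise (Disjoint on S) := by
    intro n n' hnn
    rw [Function.onFun, Set.disjoint_left]
    intro x hx hx'
    apply hnn
    funext α
    have h1 := hx α
    have h2 := hx' α
    have h3 : (n α : ℝ) - n' α < 1 := by linarith [h1.1, h2.2]
    have h4 : (n' α : ℝ) - n α < 1 := by linarith [h1.2, h2.1]
    have h5 : n α - n' α < 1 := by exact_mod_cast h3
    have h6 : n' α - n α < 1 := by exact_mod_cast h4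
    omega
  rw [← setLIntegral_univ, ← huniv, lintegral_iUnion hm hd]
  refine tsum_congr fun n => ?_
  have hmp : MeasurePreserving (fun x : Fin 3 → ℝ => x + fun α => (n α : ℝ)) volume volume :=
    measurePreserving_add_right volume _
  have he : MeasurableEmbedding (fun x : Fin 3 → ℝ => x + fun α => (n α : ℝ)) :=
    (MeasurableEquiv.addRight (fun α => (n α : ℝ))).measurableEmbedding
  rw [← hmp.setLIntegral_comp_preimage_emb he G (S n)]
  congr 1
  congr 1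
  ext x
  simp only [hS, cube, Set.mem_preimage, Set.mem_pi, Set.mem_univ, true_implies, Pi.add_apply,
    add_sub_cancel_right, Set.mem_ofPred_eq]

lemma mp_smul3 {L : ℝ} (hL : 0 < L) : MeasurePreserving (fun x : Fin 3 → ℝ => L • x) volume
    (ENNReal.ofReal ((L ^ 3)⁻¹) • volume) := by
  refine ⟨measurable_const_smul L, ?_⟩
  rw [Measure.map_addHaar_smul _ hL.ne']
  congr 2
  have : Module.finrank ℝ (Fin 3 → ℝ) = 3 := by simp
  rw [this, abs_of_pos (by positivity)]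

lemma lintegral_smul3 {L : ℝ} (hL : 0 < L) (F : (Fin 3 → ℝ) → ℝ≥0∞) :
    ∫⁻ x, F (L • x) = ENNReal.ofReal ((L ^ 3)⁻¹) * ∫⁻ x, F x := by
  have he : MeasurableEmbedding (fun x : Fin 3 → ℝ => L • x) :=
    (MeasurableEquiv.smul₀ L hL.ne').measurableEmbedding
  rw [(mp_smul3 hL).lintegral_comp_emb he, lintegral_smul_measure, smul_eq_mul]

lemma qmp_aff {L : ℝ} (hL : 0 < L) (n : Fin 3 → ℝ) :
    Measure.QuasiMeasurePreserving (fun x : Fin 3 → ℝ => L • (x + n)) volume volume := by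
  have h1 : MeasurePreserving (fun x : Fin 3 → ℝ => x + n) volume volume :=
    measurePreserving_add_right volume _
  have h2 : MeasurePreserving (fun x : Fin 3 → ℝ => L • (x + n)) volume
    (ENNReal.ofReal ((L ^ 3)⁻¹) • volume) := (mp_smul3 hL).comp h1
  exact h2.quasiMeasurePreserving.mono_right Measure.smul_absolutelyContinuous

section per
variable {L : ℝ} {v : (Fin 3 → ℝ) → ℝ}

lemma aem_shift (hL : 0 < L) (hv : AEMeasurable v volume) (n : Fin 3 → ℤ) :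
    AEMeasurable (fun x : Fin 3 → ℝ => ENNReal.ofReal (v (L • (x + fun α => (n α : ℝ))))) volume :=
  (hv.comp_quasiMeasurePreserving (qmp_aff hL _)).ennreal_ofReal

lemma shift_eq (n : Fin 3 → ℤ) (y : T3) :
    (fun α => L * (crd y α + (n α : ℝ))) = L • ((fun α => crd y α) + fun α => (n α : ℝ)) := rfl

lemma aem_term (hL : 0 < L) (hv : AEMeasurable v volume) (n : Fin 3 → ℤ) :
    AEMeasurable (fun y : T3 => ENNReal.ofReal (v (fun α => L * (crd y α + (n α : ℝ))))) lam3 := by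
  have h := mp_crd
  have h1 : AEMeasurable (fun x : Fin 3 → ℝ => ENNReal.ofReal (v (L • (x + fun α => (n α : ℝ)))))
    (volume.restrict cube) := (aem_shift hL hv n).mono_measure Measure.restrict_le_self
  exact h1.comp_quasiMeasurePreserving h.quasiMeasurePreserving

lemma aem_vper (hL : 0 < L) (hv : AEMeasurable v volume) : AEMeasurable (vper L v) lam3 :=
  AEMeasurable.tsum fun n => aem_term hL hv n

lemma lintegral_vper (hL : 0 < L) (hv : AEMeasurable v volume) :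
    ∫⁻ y, vper L v y ∂lam3 = ENNReal.ofReal ((L ^ 3)⁻¹) * ∫⁻ x, ENNReal.ofReal (v x) := by
  unfold vper
  rw [lintegral_tsum fun n => aem_term hL hv n]
  have h1 : ∀ n : Fin 3 → ℤ, ∫⁻ y : T3, ENNReal.ofReal (v (fun α => L * (crd y α + (n α : ℝ)))) ∂lam3
      = ∫⁻ x in cube, (fun z => ENNReal.ofReal (v (L • z))) (x + fun α => (n α : ℝ)) := by
    intro n
    have h := mp_crd
    rw [← h.map_eq]
    have h2 : AEMeasurable (fun x : Fin 3 → ℝ => ENNReal.ofReal (v (L • (x + fun α => (n α : ℝ)))))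
      (Measure.map (fun (y : T3) (α : Fin 3) => crd y α) lam3) := by
      rw [h.map_eq]
      exact (aem_shift hL hv n).mono_measure Measure.restrict_le_self
    rw [lintegral_map' h2 h.measurable.aemeasurable]
    rfl
  rw [tsum_congr h1]
  exact (tiling (fun z => ENNReal.ofReal (v (L • z)))).trans
    (lintegral_smul3 hL (fun z => ENNReal.ofReal (v z)))

end per

end Pool.Agent.Lib.MP_4952d6_mp

end

/-! ### Bridge4 -/

section

set_option autoImplicit false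
set_option linter.unusedSectionVars false
set_option linter.unusedVariables false
open MeasureTheory Function Filter Topology Set ComplexConjugate AddCircle
open scoped ENNReal

namespace Pool.Agent.Lib.MP_4952d6_mp

lemma tE_congr {N : ℕ} {𝒱 𝒱' : T3 → ℝ≥0∞} (h : 𝒱 =ᵐ[lam3] 𝒱') (ψ : (Fin N → T3) → ℂ) :
    tE 𝒱 ψ = tE 𝒱' ψ := by
  unfold tE
  congr 1
  refine lintegral_congr_ae ?_
  have h1 : ∀ i j : Fin N, i ≠ j → ∀ᵐ x ∂(piN (Fin N)), 𝒱 (x i - x j) = 𝒱' (x i - x j) :=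
    fun i j hij => (mp_diff hij).quasiMeasurePreserving.ae h
  have h2 : ∀ᵐ x ∂(piN (Fin N)), ∀ i j : Fin N, i ≠ j → 𝒱 (x i - x j) = 𝒱' (x i - x j) := by
    rw [ae_all_iff]; intro i
    rw [ae_all_iff]; intro j
    by_cases hij : i = j
    · exact Eventually.of_forall fun x hx => absurd hij hx
    · filter_upwards [h1 i j hij] with x hx _
      exact hx
  filter_upwards [h2] with x hx
  congr 1
  refine Finset.sum_congr rfl fun i _ => Finset.sum_congr rfl fun j hj => ?_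
  exact hx i j (Finset.mem_Ioi.1 hj).ne

lemma tAdm_congr {N : ℕ} {R₀ : ℝ} {𝒱 𝒱' : T3 → ℝ≥0∞} (h : 𝒱 =ᵐ[lam3] 𝒱')
    (ψ : (Fin N → T3) → ℂ) : tAdm R₀ 𝒱 ψ ↔ tAdm R₀ 𝒱' ψ := by
  unfold tAdm
  rw [tE_congr h]

/-- The rescaled periodised pair potential on the unit torus. -/
noncomputable def Vp (m L : ℝ) (v : (Fin 3 → ℝ) → ℝ) (y : T3) : ℝ≥0∞ :=
  ENNReal.ofReal (2 * m * L ^ 2) * vper L v y

section phys
variable {N : ℕ} {m R₀ L : ℝ} {v : (Fin 3 → ℝ) → ℝ}

lemma aem_pair (hL : 0 < L) (hv : AEMeasurable v volume) :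
    AEMeasurable (fun x : Fin N → T3 => ∑ i, ∑ j ∈ Finset.Ioi i, vper L v (x i - x j))
      (piN (Fin N)) := by
  refine Finset.aemeasurable_fun_sum _ fun i _ => Finset.aemeasurable_fun_sum _ fun j hj => ?_
  exact (aem_vper hL hv).comp_quasiMeasurePreserving
    (mp_diff (Finset.mem_Ioi.1 hj).ne).quasiMeasurePreserving

lemma energy_eq (hm : 0 < m) (hL : 0 < L) (hv : AEMeasurable v volume)
    {ψ : (Fin N → Fin 3 → ℝ) → ℂ}
    (hψ : AEStronglyMeasurable ψ (volume.restrict (box N L))) :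
    energy m v N L ψ = ENNReal.ofReal (1 / (2 * m * L ^ 2)) * tE (Vp m L v) (TT N L ψ) := by
  have hc0 : (0:ℝ) ≤ 1 / (2 * m * L ^ 2) := by positivity
  unfold energy tE
  rw [mul_add]
  congr 1
  · rw [← ENNReal.tsum_mul_left]
    refine tsum_congr fun k => ?_
    rw [fourierC_eq hL hψ, ← ENNReal.ofReal_mul hc0]
    congr 1
    field_simp
    ring
  · have h1 : ∀ x : Fin N → Fin 3 → ℝ, (∑ i, ∑ j ∈ Finset.Ioi i, ∑' n : Fin 3 → ℤ,
        ENNReal.ofReal (v (fun α => x i α - x j α + L * (n α : ℝ)))) * ‖ψ x‖ₑ ^ 2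
        = (fun y : Fin N → T3 => ∑ i, ∑ j ∈ Finset.Ioi i, vper L v (y i - y j)) (toT N L x)
          * ‖ψ x‖ₑ ^ 2 := by
      intro x
      congr 1
      refine Finset.sum_congr rfl fun i _ => Finset.sum_congr rfl fun j _ => ?_
      refine vper_eq hL v (fun α => x i α - x j α) _ fun α => ?_
      simp only [toT, Pi.sub_apply]
      rw [sub_div, AddCircle.coe_sub]
    simp_rw [h1]
    have hm1 : AEMeasurable (fun x : Fin N → Fin 3 → ℝ =>
        (fun y : Fin N → T3 => ∑ i, ∑ j ∈ Finset.Ioi i, vper L v (y i - y j)) (toT N L x)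
          * ‖ψ x‖ₑ ^ 2) (PB N L) := by
      refine AEMeasurable.mul ?_ ?_
      · exact (aem_pair hL hv).comp_quasiMeasurePreserving (mp_toT hL).quasiMeasurePreserving
      · exact ((hψ.mono_ac (PB_ac N L)).enorm).pow_const 2
    rw [setLIntegral_box hL hm1, ← lintegral_const_mul' _ _ ENNReal.ofReal_ne_top,
      ← lintegral_const_mul' _ _ ENNReal.ofReal_ne_top]
    congr 1
    funext y
    rw [toT_toB hL]
    have h2 : ‖TT N L ψ y‖ₑ ^ 2 = ENNReal.ofReal (L ^ (3 * N)) * ‖ψ (toB N L y)‖ₑ ^ 2 := by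
      rw [TT, enorm_mul, mul_pow]
      congr 1
      rw [← ofReal_norm, Complex.norm_real, Real.norm_of_nonneg (Real.sqrt_nonneg _),
        ← ENNReal.ofReal_pow (Real.sqrt_nonneg _), Real.sq_sqrt (by positivity)]
    have h3 : ∑ i, ∑ j ∈ Finset.Ioi i, Vp m L v (y i - y j)
        = ENNReal.ofReal (2 * m * L ^ 2) * ∑ i, ∑ j ∈ Finset.Ioi i, vper L v (y i - y j) := by
      simp only [Vp, Finset.mul_sum]
    rw [h2, h3]
    have h4 : ENNReal.ofReal (1 / (2 * m * L ^ 2)) * ENNReal.ofReal (2 * m * L ^ 2) = 1 := by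
      rw [← ENNReal.ofReal_mul hc0]
      have : 1 / (2 * m * L ^ 2) * (2 * m * L ^ 2) = 1 := by field_simp
      rw [this, ENNReal.ofReal_one]
    calc ENNReal.ofReal (L ^ (3 * N)) * ((∑ i, ∑ j ∈ Finset.Ioi i, vper L v (y i - y j))
          * ‖ψ (toB N L y)‖ₑ ^ 2)
        = (ENNReal.ofReal (1 / (2 * m * L ^ 2)) * ENNReal.ofReal (2 * m * L ^ 2))
          * (ENNReal.ofReal (L ^ (3 * N)) * ((∑ i, ∑ j ∈ Finset.Ioi i, vper L v (y i - y j))
          * ‖ψ (toB N L y)‖ₑ ^ 2)) := by rw [h4, one_mul]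
      _ = _ := by ring

lemma core_iff (hL : 0 < L) (hR : 0 ≤ R₀) (x : Fin N → Fin 3 → ℝ) (i j : Fin N) :
    (∃ n : Fin 3 → ℤ, ∑ α, (x i α - x j α + L * (n α : ℝ)) ^ 2 < R₀ ^ 2)
      ↔ rr (toT N L x i - toT N L x j) < R₀ / L := by
  refine rr_lt_iff hL hR (fun α => x i α - x j α) _ fun α => ?_
  simp only [toT, Pi.sub_apply]
  rw [sub_div, AddCircle.coe_sub]

lemma adm_TT (hm : 0 < m) (hL : 0 < L) (hR : 0 ≤ R₀) (hv : AEMeasurable v volume)
    {ψ : (Fin N → Fin 3 → ℝ) → ℂ} (h : Admissible m R₀ v N L ψ) :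
    tAdm (R₀ / L) (Vp m L v) (TT N L ψ) := by
  obtain ⟨h1, h2, h3, h4⟩ := h
  refine ⟨memLp_TT hL h1, ?_, ?_, ?_⟩
  · rw [← norm_TT hL h1.1, h2]
  · intro y i j hij hr
    rw [TT]
    have h5 := (core_iff hL hR (toB N L y) i j).2 (by rw [toT_toB hL]; exact hr)
    rw [h3 _ (toB_mem hL y) i j hij h5, mul_zero]
  · rw [energy_eq hm hL hv h1.1] at h4
    rw [lt_top_iff_ne_top] at h4 ⊢
    intro h6
    apply h4
    rw [h6, ENNReal.mul_top]
    rw [ne_eq, ENNReal.ofReal_eq_zero, not_le]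
    positivity

lemma adm_BB (hm : 0 < m) (hL : 0 < L) (hR : 0 ≤ R₀) (hv : AEMeasurable v volume)
    {φ : (Fin N → T3) → ℂ} (h : tAdm (R₀ / L) (Vp m L v) φ) :
    Admissible m R₀ v N L (BB N L φ) := by
  obtain ⟨h1, h2, h3, h4⟩ := h
  have h5 := memLp_BB hL h1
  refine ⟨h5, ?_, ?_, ?_⟩
  · rw [norm_TT hL h5.1, TT_BB hL, h2]
  · intro x hx i j hij hr
    rw [BB, h3 _ i j hij ((core_iff hL hR x i j).1 hr), mul_zero]
  · rw [energy_eq hm hL hv h5.1, TT_BB hL]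
    exact ENNReal.mul_lt_top ENNReal.ofReal_lt_top h4

lemma condFraction_eq (hN : 1 ≤ N) (hL : 0 < L) {ψ : (Fin N → Fin 3 → ℝ) → ℂ}
    (h : Admissible m R₀ v N L ψ) :
    condFraction N L ψ = 1 - (∑ i, nuQ (fc (TT N L ψ)) i) / N := by
  obtain ⟨h1, h2, h3, h4⟩ := h
  have hN0 : (N : ℝ) ≠ 0 := by
    have : (1:ℝ) ≤ N := by exact_mod_cast hN
    linarith
  have h5 := parseval_sq (memLp_TT hL h1)
  rw [← norm_TT hL h1.1, h2] at h5
  have h0 : ∀ k, 0 ≤ ‖fc (TT N L ψ) k‖ ^ 2 := fun k => sq_nonneg _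
  have h6 : ∀ i : Fin N, ∑' k : Fin N → Fin 3 → ℤ,
      (if k i = 0 then ‖fourierC N L ψ k‖ ^ 2 else 0) = 1 - nuQ (fc (TT N L ψ)) i := by
    intro i
    have s1 := ite_summable h5.summable h0 (fun k => k i = 0)
    have s2 := ite_summable h5.summable h0 (fun k => k i ≠ 0)
    have h7 : ∑' k, ((if k i = 0 then ‖fc (TT N L ψ) k‖ ^ 2 else 0)
        + (if k i ≠ 0 then ‖fc (TT N L ψ) k‖ ^ 2 else 0)) = 1 := by
      rw [← h5.tsum_eq]
      refine tsum_congr fun k => ?_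
      by_cases hk : k i = 0 <;> simp [hk]
    rw [s1.tsum_add s2] at h7
    simp_rw [fourierC_eq hL h1.1]
    unfold nuQ
    linarith
  unfold condFraction
  simp_rw [h6]
  rw [Finset.sum_sub_distrib, Finset.sum_const, Finset.card_univ, Fintype.card_fin, nsmul_eq_mul,
    mul_one]
  field_simp

end phys

end Pool.Agent.Lib.MP_4952d6_mp

end

/-! ### LC.FDefs -/

section

/-!
# Sharp lower half of the depletion law: the main statements of the streams

Units on the unit torus: `N` particles, scattering length `a`, `Y ^ 2 = N a ^ 3`. The functional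
`Jf`, the moment bounds `LocM`, the time scale `tsc` and `LBStatement` are in `LB/Base.lean`.
-/

set_option autoImplicit false
set_option linter.unusedSectionVars false
set_option linter.unusedVariables false
open MeasureTheory Function Filter Topology Set
open scoped ENNReal

namespace Pool.Agent.Lib.MP_4952d6_mp

/-! ### The function under the functional `J` -/

/-- The function `s ↦ √(s² + 16 π s) - s`. -/
noncomputable def Jg (s : ℝ) : ℝ := Real.sqrt (s ^ 2 + 16 * Real.pi * s) - s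

/-- Derivative of `Jg`. -/
noncomputable def Jgd (s : ℝ) : ℝ := (s + 8 * Real.pi) / Real.sqrt (s ^ 2 + 16 * Real.pi * s) - 1

/-! ### The main statements -/

/-- Part U: sharp upper bound for the ground state energy. -/
def UStatement : Prop :=
  ∀ θ η : ℝ, 0 < η → ∃ C Y0 : ℝ, 0 < C ∧ 0 < Y0 ∧ ∀ Y : ℝ, 0 < Y → Y < Y0 →
    ∃ a0 : ℝ, 0 < a0 ∧ ∀ (N : ℕ) (W f Q : ℝ → ℝ) (R₀ R a : ℝ), Scat W R₀ R a f Q → a < a0 →
      (N : ℝ) * a ^ 3 = Y ^ 2 → R ≤ θ * a →
      ∀ 𝒱 : T3 → ℝ≥0∞, AEMeasurable 𝒱 lam3 → ∫⁻ y, 𝒱 y ∂lam3 ≠ ⊤ →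
      (∀ᵐ y ∂lam3, ENNReal.ofReal (2 * W (rr y)) ≤ 𝒱 y) →
      ∃ φ : (Fin N → T3) → ℂ, tAdm R₀ 𝒱 φ ∧
        tE 𝒱 φ ≤ ENNReal.ofReal (4 * Real.pi * N ^ 2 * a + N ^ 2 * a * Y * (Jf 0 + η))
          + ENNReal.ofReal (C * N ^ 2)
            * (∫⁻ y, 𝒱 y ∂lam3 - ∫⁻ y, ENNReal.ofReal (2 * W (rr y)) ∂lam3)

/-- Part L0-L5: moment bounds for minimisers, for a fixed physical potential and an arbitrary
length `A`. -/
def LAStatement : Prop :=
  ∀ (m R₀ R : ℝ) (v : (Fin 3 → ℝ) → ℝ), 0 < m → 0 ≤ R₀ → R₀ < R → Integrable v →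
    (∀ x, 0 ≤ v x) → (∀ x y : Fin 3 → ℝ, ∑ α, x α ^ 2 = ∑ α, y α ^ 2 → v x = v y) →
    (∀ x : Fin 3 → ℝ, R ^ 2 ≤ ∑ α, x α ^ 2 → v x = 0) → (0 < R₀ ∨ 0 < ∫ x, v x) →
    ∀ A : ℝ, 0 < A → ∃ C Y0 : ℝ, 0 < C ∧ 0 < Y0 ∧ ∀ ρ : ℝ, 0 < ρ → Real.sqrt (ρ * A ^ 3) < Y0 →
      ∃ N1 : ℕ, ∀ N : ℕ, N1 ≤ N → ∀ ψ : (Fin N → T3) → ℂ,
        tAdm (R₀ / side ρ N) (Vp m (side ρ N) v) ψ →
        (∀ φ : (Fin N → T3) → ℂ, tAdm (R₀ / side ρ N) (Vp m (side ρ N) v) φ →
          tE (Vp m (side ρ N) v) ψ ≤ tE (Vp m (side ρ N) v) φ) →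
        ∑ i, nuQ (fc ψ) i ≤ 2 * Real.sqrt (ρ * A ^ 3) * N →
        ∀ t : ℝ, tsc (A / side ρ N) (Real.sqrt (ρ * A ^ 3)) / 2 ≤ t →
          t ≤ 2 * tsc (A / side ρ N) (Real.sqrt (ρ * A ^ 3)) →
          LocM C (Real.sqrt (ρ * A ^ 3)) t ψ

/-- Sharp lower bound for the depletion (the target). -/
def T1Statement : Prop :=
  ∀ (m R₀ R : ℝ) (v : (Fin 3 → ℝ) → ℝ), 0 < m → 0 ≤ R₀ → R₀ < R → Integrable v →
    (∀ x, 0 ≤ v x) → (∀ x y : Fin 3 → ℝ, ∑ α, x α ^ 2 = ∑ α, y α ^ 2 → v x = v y) →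
    (∀ x : Fin 3 → ℝ, R ^ 2 ≤ ∑ α, x α ^ 2 → v x = 0) →
    ∀ ε : ℝ, 0 < ε → ∃ ρ₁ : ℝ, 0 < ρ₁ ∧ ∀ ρ : ℝ, 0 < ρ → ρ < ρ₁ →
      ∃ N₁ : ℕ, ∀ N : ℕ, N₁ ≤ N → ∀ ψ : (Fin N → Fin 3 → ℝ) → ℂ,
        Admissible m R₀ v N (side ρ N) ψ →
        (∀ φ : (Fin N → Fin 3 → ℝ) → ℂ, Admissible m R₀ v N (side ρ N) φ →
          energy m v N (side ρ N) ψ ≤ energy m v N (side ρ N) φ) →
        condFraction N (side ρ N) ψ
          ≤ 1 - (1 - ε) * (8 / (3 * Real.sqrt Real.pi)) * Real.sqrt (ρ * scatLen m R₀ v ^ 3)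

end Pool.Agent.Lib.MP_4952d6_mp

end

/-! ### LC.F1a -/

section

set_option autoImplicit false
set_option linter.unusedSectionVars false
set_option linter.unusedVariables false
open MeasureTheory Function Filter Topology Set

namespace Pool.Agent.Lib.MP_4952d6_mp

/-! # F1a: elementary facts about `Jg s = √(s² + 16 π s) - s` and its derivative `Jgd`

Write `S = √(s² + 16πs)`, `S² = s² + 16πs`, so `S² = (s+8π)² - (8π)²` and `s ≤ S ≤ s + 8π` for `s ≥ 0`.
`Jgd s = (s+8π)/S - 1 = (8π)² / (S (s + 8π + S))` for `s > 0`.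
`8π - Jg s = s + 8π - S = (8π)²/(s + 8π + S)`, in `[0, 8π]`, and `32π²/s - (8π - Jg s)
= 32π²/s - 64π²/(s+8π+S) = 32π² (s + 8π + S - 2s)/(s (s+8π+S)) = 32π² (8π + (S - s))/(s(s+8π+S))`, in
`[0, 32π² · 16π/(s · 2s)]`. -/

theorem jInt_eq (δ r : ℝ) :
    jInt δ r = Jg (r ^ 2 + δ) - 8 * Real.pi + 32 * Real.pi ^ 2 / r ^ 2 := by
  unfold jInt Jg
  ring

theorem Jg_continuous : Continuous Jg := by
  unfold Jg
  fun_prop

theorem Jgd_measurable : Measurable Jgd := by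
  unfold Jgd
  fun_prop

theorem F1a_sqrt_ge {E : ℝ} (hE : 0 ≤ E) : E ≤ Real.sqrt (E ^ 2 + 16 * Real.pi * E) := by
  have hpi := Real.pi_pos
  apply Real.le_sqrt_of_sq_le
  have : 0 ≤ 16 * Real.pi * E := by positivity
  linarith

theorem F1a_sqrt_le {E : ℝ} (hE : 0 ≤ E) :
    Real.sqrt (E ^ 2 + 16 * Real.pi * E) ≤ E + 8 * Real.pi := by
  have hpi := Real.pi_pos
  apply Real.sqrt_le_iff.2
  constructor
  · positivity
  · nlinarith [sq_nonneg Real.pi]

theorem F1a_eq {E : ℝ} (hE : 0 ≤ E) :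
    8 * Real.pi - Jg E
      = 64 * Real.pi ^ 2 / (Real.sqrt (E ^ 2 + 16 * Real.pi * E) + E + 8 * Real.pi) := by
  have hpi := Real.pi_pos
  have h0 : 0 ≤ E ^ 2 + 16 * Real.pi * E := by positivity
  have hs := Real.sqrt_nonneg (E ^ 2 + 16 * Real.pi * E)
  have hs2 := Real.sq_sqrt h0
  have hD : 0 < Real.sqrt (E ^ 2 + 16 * Real.pi * E) + E + 8 * Real.pi := by positivity
  rw [eq_div_iff hD.ne']
  unfold Jg
  nlinarith

theorem Jg_nonneg {s : ℝ} (hs : 0 ≤ s) : 0 ≤ Jg s := by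
  unfold Jg
  have := F1a_sqrt_ge hs
  linarith

theorem Jg_le {s : ℝ} (hs : 0 ≤ s) : Jg s ≤ 8 * Real.pi := by
  unfold Jg
  have := F1a_sqrt_le hs
  linarith

/-- upper expansion -/
theorem Jg_le_exp {s : ℝ} (hs : 0 < s) :
    0 ≤ Jg s - 8 * Real.pi + 32 * Real.pi ^ 2 / s := by
  have hpi := Real.pi_pos
  have h1 := F1a_eq hs.le
  have h2 := F1a_sqrt_ge hs.le
  have hD : 0 < Real.sqrt (s ^ 2 + 16 * Real.pi * s) + s + 8 * Real.pi := by positivity
  have h3 : 8 * Real.pi - Jg s ≤ 32 * Real.pi ^ 2 / s := by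
    rw [h1, div_le_div_iff₀ hD hs]
    have h4 : 2 * s ≤ Real.sqrt (s ^ 2 + 16 * Real.pi * s) + s + 8 * Real.pi := by linarith
    have h5 : 0 ≤ 32 * Real.pi ^ 2 := by positivity
    nlinarith [mul_le_mul_of_nonneg_left h4 h5]
  linarith

theorem Jg_ge_exp {s : ℝ} (hs : 0 < s) :
    Jg s - 8 * Real.pi + 32 * Real.pi ^ 2 / s ≤ 256 * Real.pi ^ 3 / s ^ 2 := by
  have hpi := Real.pi_pos
  have h1 := F1a_eq hs.le
  have h2 := F1a_sqrt_ge hs.le
  have h3 := F1a_sqrt_le hs.le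
  set S := Real.sqrt (s ^ 2 + 16 * Real.pi * s) with hS
  have hD : 0 < S + s + 8 * Real.pi := by positivity
  have h4 : Jg s - 8 * Real.pi + 32 * Real.pi ^ 2 / s
      = 32 * Real.pi ^ 2 * (S + s + 8 * Real.pi - 2 * s) / (s * (S + s + 8 * Real.pi)) := by
    have h5 : Jg s - 8 * Real.pi = -(64 * Real.pi ^ 2 / (S + s + 8 * Real.pi)) := by linarith
    have e1 : 64 * Real.pi ^ 2 / (S + s + 8 * Real.pi) * (S + s + 8 * Real.pi) = 64 * Real.pi ^ 2 :=
      div_mul_cancel₀ _ hD.ne'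
    have e2 : 32 * Real.pi ^ 2 / s * s = 32 * Real.pi ^ 2 := div_mul_cancel₀ _ hs.ne'
    rw [h5, eq_div_iff (mul_ne_zero hs.ne' hD.ne')]
    linear_combination (-s) * e1 + (S + s + 8 * Real.pi) * e2
  rw [h4, div_le_div_iff₀ (by positivity) (by positivity)]
  have h6 : S + s + 8 * Real.pi - 2 * s ≤ 16 * Real.pi := by linarith
  have h7 : 2 * s ≤ S + s + 8 * Real.pi := by linarith
  calc 32 * Real.pi ^ 2 * (S + s + 8 * Real.pi - 2 * s) * s ^ 2
      ≤ 32 * Real.pi ^ 2 * (16 * Real.pi) * s ^ 2 := by gcongr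
    _ = 256 * Real.pi ^ 3 * (s * (2 * s)) := by ring
    _ ≤ 256 * Real.pi ^ 3 * (s * (S + s + 8 * Real.pi)) := by gcongr

theorem Jg_hasDerivAt {s : ℝ} (hs : 0 < s) : HasDerivAt Jg (Jgd s) s := by
  have hpi := Real.pi_pos
  have h0 : 0 < s ^ 2 + 16 * Real.pi * s := by positivity
  have h1 : HasDerivAt (fun E : ℝ => E ^ 2 + 16 * Real.pi * E) (2 * s + 16 * Real.pi) s := by
    have h : HasDerivAt (fun E : ℝ => E ^ 2 + 16 * Real.pi * E)
        ((2 : ℕ) * s ^ (2 - 1) + 16 * Real.pi * 1) s :=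
      (hasDerivAt_pow 2 s).add ((hasDerivAt_id' s).const_mul (16 * Real.pi))
    exact h.congr_deriv (by norm_num)
  have h2 := (h1.sqrt h0.ne').sub (hasDerivAt_id s)
  have h3 : (2 * s + 16 * Real.pi) / (2 * Real.sqrt (s ^ 2 + 16 * Real.pi * s)) - 1 = Jgd s := by
    unfold Jgd
    have hs : 0 < Real.sqrt (s ^ 2 + 16 * Real.pi * s) := Real.sqrt_pos.2 h0
    field_simp
    ring
  rw [h3] at h2
  exact h2

theorem Jgd_pos {s : ℝ} (hs : 0 < s) : 0 < Jgd s := by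
  have hpi := Real.pi_pos
  have h0 : 0 < s ^ 2 + 16 * Real.pi * s := by positivity
  have h2 : 0 < Real.sqrt (s ^ 2 + 16 * Real.pi * s) := Real.sqrt_pos.2 h0
  have h1 : Real.sqrt (s ^ 2 + 16 * Real.pi * s) < s + 8 * Real.pi := by
    rw [Real.sqrt_lt' (by positivity)]
    nlinarith [sq_pos_of_pos hpi]
  unfold Jgd
  rw [sub_pos, one_lt_div h2]
  exact h1

theorem Jgd_anti {s t : ℝ} (hs : 0 < s) (hst : s ≤ t) : Jgd t ≤ Jgd s := by
  have hpi := Real.pi_pos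
  have ht : 0 < t := lt_of_lt_of_le hs hst
  have h0 : 0 < s ^ 2 + 16 * Real.pi * s := by positivity
  have h1 : 0 < t ^ 2 + 16 * Real.pi * t := by positivity
  have hs' : 0 < Real.sqrt (s ^ 2 + 16 * Real.pi * s) := Real.sqrt_pos.2 h0
  have ht' : 0 < Real.sqrt (t ^ 2 + 16 * Real.pi * t) := Real.sqrt_pos.2 h1
  unfold Jgd
  apply sub_le_sub_right
  rw [div_le_div_iff₀ ht' hs']
  apply le_of_sq_le_sq _ (by positivity)
  rw [mul_pow, mul_pow, Real.sq_sqrt h0.le, Real.sq_sqrt h1.le]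
  have h2 : (s + 8 * Real.pi) ^ 2 ≤ (t + 8 * Real.pi) ^ 2 := by gcongr
  nlinarith [sq_nonneg Real.pi, mul_le_mul_of_nonneg_left h2 (sq_nonneg (8 * Real.pi))]

theorem F1a_Jgd_eq {s : ℝ} (hs : 0 < s) :
    Jgd s = 64 * Real.pi ^ 2 / (Real.sqrt (s ^ 2 + 16 * Real.pi * s)
      * (s + 8 * Real.pi + Real.sqrt (s ^ 2 + 16 * Real.pi * s))) := by
  have hpi := Real.pi_pos
  have h0 : 0 < s ^ 2 + 16 * Real.pi * s := by positivity
  have hS : 0 < Real.sqrt (s ^ 2 + 16 * Real.pi * s) := Real.sqrt_pos.2 h0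
  have hS2 := Real.sq_sqrt h0.le
  unfold Jgd
  set S := Real.sqrt (s ^ 2 + 16 * Real.pi * s) with hSd
  have h1 : 0 < s + 8 * Real.pi + S := by positivity
  rw [eq_div_iff (by positivity)]
  have h2 : ((s + 8 * Real.pi) / S - 1) * (S * (s + 8 * Real.pi + S))
      = (s + 8 * Real.pi) ^ 2 - S ^ 2 := by
    field_simp
    ring
  rw [h2, hS2]
  ring

/-- For `s > 0`: `Jgd s ≤ 64π²/(√(16πs) · 8π) = 2√π/√s ≤ 4/√s`. -/
theorem Jgd_le_sqrt {s : ℝ} (hs : 0 < s) : Jgd s ≤ 4 / Real.sqrt s := by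
  have hpi := Real.pi_pos
  have h0 : 0 < s ^ 2 + 16 * Real.pi * s := by positivity
  have hS : 0 < Real.sqrt (s ^ 2 + 16 * Real.pi * s) := Real.sqrt_pos.2 h0
  have hs' : 0 < Real.sqrt s := Real.sqrt_pos.2 hs
  rw [F1a_Jgd_eq hs, div_le_div_iff₀ (by positivity) hs']
  -- `64 π² √s ≤ 4 S (s + 8π + S)`, using `S ≥ 4 √π √s`
  have h1 : 4 * Real.sqrt Real.pi * Real.sqrt s ≤ Real.sqrt (s ^ 2 + 16 * Real.pi * s) := by
    apply Real.le_sqrt_of_sq_le
    rw [mul_pow, mul_pow, Real.sq_sqrt hpi.le, Real.sq_sqrt hs.le]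
    nlinarith [sq_nonneg s]
  have h2 : 8 * Real.pi ≤ s + 8 * Real.pi + Real.sqrt (s ^ 2 + 16 * Real.pi * s) := by linarith
  have h3 : Real.sqrt Real.pi ≤ 2 := by
    rw [Real.sqrt_le_left (by norm_num)]
    have := Real.pi_le_four
    linarith
  have h4 : Real.pi = Real.sqrt Real.pi * Real.sqrt Real.pi := (Real.mul_self_sqrt hpi.le).symm
  calc 64 * Real.pi ^ 2 * Real.sqrt s
      = 64 * Real.pi * (Real.sqrt Real.pi * Real.sqrt Real.pi) * Real.sqrt s := by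
        rw [Real.mul_self_sqrt hpi.le]; ring
    _ ≤ 64 * Real.pi * (Real.sqrt Real.pi * 2) * Real.sqrt s := by gcongr
    _ = 4 * ((4 * Real.sqrt Real.pi * Real.sqrt s) * (8 * Real.pi)) := by ring
    _ ≤ 4 * (Real.sqrt (s ^ 2 + 16 * Real.pi * s) *
        (s + 8 * Real.pi + Real.sqrt (s ^ 2 + 16 * Real.pi * s))) := by gcongr

theorem Jgd_le_sq {s : ℝ} (hs : 0 < s) : Jgd s ≤ 32 * Real.pi ^ 2 / s ^ 2 := by
  have hpi := Real.pi_pos
  have h0 : 0 < s ^ 2 + 16 * Real.pi * s := by positivity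
  have hS : 0 < Real.sqrt (s ^ 2 + 16 * Real.pi * s) := Real.sqrt_pos.2 h0
  have h1 := F1a_sqrt_ge hs.le
  rw [F1a_Jgd_eq hs, div_le_div_iff₀ (by positivity) (by positivity)]
  have h2 : 2 * s ≤ s + 8 * Real.pi + Real.sqrt (s ^ 2 + 16 * Real.pi * s) := by linarith
  calc 64 * Real.pi ^ 2 * s ^ 2 = 32 * Real.pi ^ 2 * (s * (2 * s)) := by ring
    _ ≤ 32 * Real.pi ^ 2 * (Real.sqrt (s ^ 2 + 16 * Real.pi * s) *
        (s + 8 * Real.pi + Real.sqrt (s ^ 2 + 16 * Real.pi * s))) := by gcongr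

/-- Concavity of `Jg` (mean value theorem and `Jgd_anti`). -/
theorem Jg_sub_ge {s δ : ℝ} (hs : 0 ≤ s) (hδ : 0 < δ) : δ * Jgd (s + δ) ≤ Jg (s + δ) - Jg s := by
  have h1 : ContinuousOn Jg (Icc s (s + δ)) := Jg_continuous.continuousOn
  obtain ⟨c, hc, hc'⟩ := exists_hasDerivAt_eq_slope Jg Jgd (lt_add_of_pos_right s hδ) h1
    (fun x hx => Jg_hasDerivAt (lt_of_le_of_lt hs hx.1))
  have h2 : Jgd (s + δ) ≤ Jgd c := Jgd_anti (lt_of_le_of_lt hs hc.1) hc.2.le
  rw [hc', le_div_iff₀ (by linarith)] at h2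
  have h3 : s + δ - s = δ := by ring
  rw [h3] at h2
  linarith

theorem Jg_sub_le {s δ : ℝ} (hs : 0 < s) (hδ : 0 ≤ δ) : Jg (s + δ) - Jg s ≤ δ * Jgd s := by
  rcases hδ.eq_or_lt with rfl | hδ
  · simp
  have h1 : ContinuousOn Jg (Icc s (s + δ)) := Jg_continuous.continuousOn
  obtain ⟨c, hc, hc'⟩ := exists_hasDerivAt_eq_slope Jg Jgd (lt_add_of_pos_right s hδ) h1
    (fun x hx => Jg_hasDerivAt (lt_trans hs hx.1))
  have h2 : Jgd c ≤ Jgd s := Jgd_anti hs hc.1.le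
  rw [hc', div_le_iff₀ (by linarith)] at h2
  have h3 : s + δ - s = δ := by ring
  rw [h3] at h2
  linarith

end Pool.Agent.Lib.MP_4952d6_mp

end

/-! ### LC.F1b -/

section

set_option autoImplicit false
set_option linter.unusedSectionVars false
set_option linter.unusedVariables false
open MeasureTheory Function Filter Topology Set

namespace Pool.Agent.Lib.MP_4952d6_mp

/-! # F1b: integrability and the explicit radial integral

`r² jInt δ r = r² (Jg (r²+δ) - 8π) + 32π²`, bounded by `8π r² + 32π²` on `(0,1]`. For `r ≥ 1`, with `s = r² + δ`: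
`jInt δ r = (Jg s - 8π + 32π²/s) + 32π² (1/r² - 1/s)`, between `0` and `256π³/r⁴ + 32π² δ/r⁴` (F1a: Jg_le_exp, Jg_ge_exp),
so `0 ≤ r² jInt δ r ≤ C/r²`, integrable on `(1,∞)`. -/

/-- The integrand `r² jInt δ r` in a form without singularity. -/
noncomputable def F1b_h (δ r : ℝ) : ℝ := r ^ 2 * (Jg (r ^ 2 + δ) - 8 * Real.pi) + 32 * Real.pi ^ 2

theorem F1b_h_eq {δ r : ℝ} (hr : r ≠ 0) : r ^ 2 * jInt δ r = F1b_h δ r := by
  have e : 32 * Real.pi ^ 2 / r ^ 2 * r ^ 2 = 32 * Real.pi ^ 2 :=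
    div_mul_cancel₀ _ (pow_ne_zero 2 hr)
  rw [jInt_eq]
  unfold F1b_h
  linear_combination e

theorem F1b_h_continuous (δ : ℝ) : Continuous (F1b_h δ) := by
  unfold F1b_h
  exact ((continuous_id.pow 2).mul (((Jg_continuous.comp
    ((continuous_id.pow 2).add continuous_const)).sub continuous_const))).add continuous_const

theorem F1b_h_nonneg {δ r : ℝ} (hδ : 0 ≤ δ) (hr : 0 < r) : 0 ≤ F1b_h δ r := by
  have hpi := Real.pi_pos
  have hr2 : 0 < r ^ 2 := by positivity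
  have hE : 0 < r ^ 2 + δ := by positivity
  have h1 := Jg_le_exp hE
  have h2 : r ^ 2 * (32 * Real.pi ^ 2 / (r ^ 2 + δ)) ≤ 32 * Real.pi ^ 2 := by
    rw [mul_div_assoc', div_le_iff₀ hE]
    have h3 : 0 ≤ 32 * Real.pi ^ 2 * δ := by positivity
    linarith only [h3]
  have h4 := mul_nonneg hr2.le h1
  unfold F1b_h
  linarith only [h2, h4]

theorem F1b_h_le {δ r : ℝ} (hδ : 0 ≤ δ) (hr : 0 < r) :
    F1b_h δ r ≤ (256 * Real.pi ^ 3 + 32 * Real.pi ^ 2 * δ) / r ^ 2 := by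
  have hpi := Real.pi_pos
  have hr2 : 0 < r ^ 2 := by positivity
  have hE : 0 < r ^ 2 + δ := by positivity
  have h1 := Jg_ge_exp hE
  have h2 : r ^ 2 * (256 * Real.pi ^ 3 / (r ^ 2 + δ) ^ 2) ≤ 256 * Real.pi ^ 3 / r ^ 2 := by
    rw [mul_div_assoc', div_le_div_iff₀ (by positivity) hr2]
    have h3 : r ^ 2 * r ^ 2 ≤ (r ^ 2 + δ) ^ 2 := by
      linarith only [mul_nonneg hr2.le hδ, mul_nonneg hδ hδ]
    have h4 : 0 ≤ 256 * Real.pi ^ 3 := by positivity
    linarith only [mul_le_mul_of_nonneg_left h3 h4]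
  have h5 : 32 * Real.pi ^ 2 - r ^ 2 * (32 * Real.pi ^ 2 / (r ^ 2 + δ))
      ≤ 32 * Real.pi ^ 2 * δ / r ^ 2 := by
    have h6 : 32 * Real.pi ^ 2 - r ^ 2 * (32 * Real.pi ^ 2 / (r ^ 2 + δ))
        = 32 * Real.pi ^ 2 * δ / (r ^ 2 + δ) := by
      rw [eq_div_iff hE.ne']
      have e : 32 * Real.pi ^ 2 / (r ^ 2 + δ) * (r ^ 2 + δ) = 32 * Real.pi ^ 2 :=
        div_mul_cancel₀ _ hE.ne'
      linear_combination (-(r ^ 2)) * e
    rw [h6]
    have h7 : 0 ≤ 32 * Real.pi ^ 2 * δ := by positivity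
    exact div_le_div_of_nonneg_left h7 hr2 (by linarith)
  have h8 := mul_le_mul_of_nonneg_left h1 hr2.le
  rw [add_div]
  unfold F1b_h
  linarith only [h2, h5, h8]

theorem F1b_tail {f : ℝ → ℝ} (hf : Measurable f) (hb : IntegrableOn f (Ioc 0 1)) {C : ℝ}
    (h0 : ∀ r, 0 < r → 0 ≤ f r) (h1 : ∀ r, 0 < r → f r ≤ C / r ^ 2) : IntegrableOn f (Ioi 0) := by
  have h2 : IntegrableOn f (Ioi 1) := by
    have h3 : IntegrableOn (fun r : ℝ => C * r ^ (-2 : ℝ)) (Ioi 1) :=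
      (integrableOn_Ioi_rpow_of_lt (by norm_num) zero_lt_one).const_mul _
    refine Integrable.mono' h3 hf.aestronglyMeasurable ?_
    rw [ae_restrict_iff' measurableSet_Ioi]
    refine Eventually.of_forall fun r hr => ?_
    have hr1 : (1:ℝ) < r := hr
    have hr0 : (0:ℝ) < r := lt_trans zero_lt_one hr1
    rw [Real.norm_eq_abs, abs_of_nonneg (h0 r hr0), Real.rpow_neg hr0.le]
    have h5 : r ^ (2:ℝ) = r ^ 2 := by norm_cast
    rw [h5, ← div_eq_mul_inv]
    exact h1 r hr0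
  rw [← Ioc_union_Ioi_eq_Ioi (zero_le_one (α := ℝ))]
  exact hb.union h2

theorem F1b_integrableOn_h {δ : ℝ} (hδ : 0 ≤ δ) : IntegrableOn (F1b_h δ) (Ioi 0) :=
  F1b_tail (F1b_h_continuous δ).measurable
    (((F1b_h_continuous δ).integrableOn_Icc (a := 0) (b := 1)).mono_set Ioc_subset_Icc_self)
    (fun r hr => F1b_h_nonneg hδ hr) (fun r hr => F1b_h_le hδ hr)

theorem jInt_integrable {δ : ℝ} (hδ : 0 ≤ δ) :
    IntegrableOn (fun r => r ^ 2 * jInt δ r) (Ioi (0:ℝ)) := by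
  refine (F1b_integrableOn_h hδ).congr_fun ?_ measurableSet_Ioi
  intro r hr
  exact (F1b_h_eq (ne_of_gt hr)).symm

/-- `0 ≤ r² Jgd (r²+δ) ≤ 4 r` on `(0,1]` and `≤ 32π²/r²` on `(1,∞)`. -/
theorem Jgd_integrable {δ : ℝ} (hδ : 0 ≤ δ) :
    IntegrableOn (fun r => r ^ 2 * Jgd (r ^ 2 + δ)) (Ioi (0:ℝ)) := by
  have hpi := Real.pi_pos
  have hm : Measurable (fun r : ℝ => r ^ 2 * Jgd (r ^ 2 + δ)) :=
    (measurable_id.pow_const 2).mul (Jgd_measurable.comp ((measurable_id.pow_const 2).add_const δ))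
  have h0 : ∀ r : ℝ, 0 < r → 0 ≤ r ^ 2 * Jgd (r ^ 2 + δ) := by
    intro r hr
    have hE : 0 < r ^ 2 + δ := by positivity
    exact mul_nonneg (by positivity) (Jgd_pos hE).le
  refine F1b_tail (C := 32 * Real.pi ^ 2) hm ?_ h0 ?_
  · refine Measure.integrableOn_of_bounded (M := 4) (by simp) hm.aestronglyMeasurable ?_
    rw [ae_restrict_iff' measurableSet_Ioc]
    refine Eventually.of_forall fun r hr => ?_
    have hr0 : 0 < r := hr.1
    have hr2 : 0 < r ^ 2 := by positivity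
    rw [Real.norm_eq_abs, abs_of_nonneg (h0 r hr0)]
    have h1 : Jgd (r ^ 2 + δ) ≤ Jgd (r ^ 2) := Jgd_anti hr2 (by linarith)
    have h2 := Jgd_le_sqrt hr2
    rw [Real.sqrt_sq hr0.le] at h2
    have h3 : r ^ 2 * Jgd (r ^ 2 + δ) ≤ r ^ 2 * (4 / r) :=
      mul_le_mul_of_nonneg_left (h1.trans h2) hr2.le
    have h4 : r ^ 2 * (4 / r) = 4 * r := by
      have e : 4 / r * r = 4 := div_mul_cancel₀ _ hr0.ne'
      linear_combination r * e
    have h5 := hr.2
    linarith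
  · intro r hr
    have hr2 : 0 < r ^ 2 := by positivity
    have hE : 0 < r ^ 2 + δ := by positivity
    have h1 := Jgd_anti hr2 (show r ^ 2 ≤ r ^ 2 + δ by linarith)
    have h2 := Jgd_le_sq hr2
    have h3 : r ^ 2 * Jgd (r ^ 2 + δ) ≤ r ^ 2 * (32 * Real.pi ^ 2 / (r ^ 2) ^ 2) :=
      mul_le_mul_of_nonneg_left (h1.trans h2) hr2.le
    have h4 : r ^ 2 * (32 * Real.pi ^ 2 / (r ^ 2) ^ 2) = 32 * Real.pi ^ 2 / r ^ 2 := by
      rw [eq_div_iff hr2.ne']
      have e : 32 * Real.pi ^ 2 / (r ^ 2) ^ 2 * (r ^ 2) ^ 2 = 32 * Real.pi ^ 2 :=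
        div_mul_cancel₀ _ (pow_ne_zero 2 hr2.ne')
      linear_combination e
    rw [h4] at h3
    exact h3

/-- Antiderivative of `r² Jgd (r²)`. -/
noncomputable def F1b_P (r : ℝ) : ℝ :=
  Real.sqrt (r ^ 2 + 16 * Real.pi) ^ 3 / 3 - 8 * Real.pi * Real.sqrt (r ^ 2 + 16 * Real.pi)
    - r ^ 3 / 3

theorem F1b_P_continuous : Continuous F1b_P := by
  unfold F1b_P
  fun_prop

theorem F1b_P_hasDerivAt {r : ℝ} (hr : 0 < r) : HasDerivAt F1b_P (r ^ 2 * Jgd (r ^ 2)) r := by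
  have hpi := Real.pi_pos
  have h0 : 0 < r ^ 2 + 16 * Real.pi := by positivity
  have h1 : HasDerivAt (fun r : ℝ => r ^ 2 + 16 * Real.pi) (2 * r) r := by
    have h : HasDerivAt (fun r : ℝ => r ^ 2 + 16 * Real.pi) ((2 : ℕ) * r ^ (2 - 1)) r :=
      (hasDerivAt_pow 2 r).add_const _
    exact h.congr_deriv (by norm_num)
  have h2 := h1.sqrt h0.ne'
  set s := Real.sqrt (r ^ 2 + 16 * Real.pi) with hs
  have hsp : 0 < s := Real.sqrt_pos.2 h0
  have hs2 : s ^ 2 = r ^ 2 + 16 * Real.pi := Real.sq_sqrt h0.le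
  have h3 : HasDerivAt F1b_P ((3 : ℕ) * s ^ (3 - 1) * (2 * r / (2 * s)) / 3
      - 8 * Real.pi * (2 * r / (2 * s)) - (3 : ℕ) * r ^ (3 - 1) / 3) r :=
    (((h2.pow 3).div_const 3).sub (h2.const_mul (8 * Real.pi))).sub ((hasDerivAt_pow 3 r).div_const 3)
  refine h3.congr_deriv ?_
  have h4 : Real.sqrt ((r ^ 2) ^ 2 + 16 * Real.pi * r ^ 2) = r * s := by
    rw [show (r ^ 2) ^ 2 + 16 * Real.pi * r ^ 2 = (r * s) ^ 2 by rw [mul_pow, hs2]; ring]
    exact Real.sqrt_sq (by positivity)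
  unfold Jgd
  rw [h4]
  have e1 : 2 * r / (2 * s) = r / s := mul_div_mul_left _ _ two_ne_zero
  have e2 : (r ^ 2 + 8 * Real.pi) / (r * s) * (r * s) = r ^ 2 + 8 * Real.pi :=
    div_mul_cancel₀ _ (mul_ne_zero hr.ne' hsp.ne')
  have e3 : r / s * s = r := div_mul_cancel₀ _ hsp.ne'
  rw [e1]
  have e4 : r ^ 2 * ((r ^ 2 + 8 * Real.pi) / (r * s)) = (r / s) * (r ^ 2 + 8 * Real.pi) := by
    rw [mul_div_assoc', div_mul_eq_mul_div, div_eq_div_iff (mul_ne_zero hr.ne' hsp.ne') hsp.ne']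
    ring
  rw [mul_sub, e4, hs2]
  norm_num
  ring

theorem F1b_P_tendsto : Tendsto F1b_P atTop (𝓝 0) := by
  have hpi := Real.pi_pos
  have key : ∀ r : ℝ, 0 < r → |F1b_P r| ≤ 32 * Real.pi ^ 2 / r := by
    intro r hr
    have h0 : 0 < r ^ 2 + 16 * Real.pi := by positivity
    unfold F1b_P
    set s := Real.sqrt (r ^ 2 + 16 * Real.pi) with hs
    have hsp : 0 < s := Real.sqrt_pos.2 h0
    have hs2 : s ^ 2 = r ^ 2 + 16 * Real.pi := Real.sq_sqrt h0.le
    have hsr : r ≤ s := Real.le_sqrt_of_sq_le (by linarith only [hpi])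
    have h1 : s ^ 3 / 3 - 8 * Real.pi * s - r ^ 3 / 3 = -((s - r) ^ 2 * (s + 2 * r) / 6) := by
      have h2 : 8 * Real.pi = (s ^ 2 - r ^ 2) / 2 := by linarith
      rw [h2]
      ring
    rw [h1, abs_neg, abs_of_nonneg (by positivity)]
    have h3 : (s - r) * (s + r) = 16 * Real.pi := by linear_combination hs2
    have h3' := mul_nonneg (sub_nonneg.2 hsr) (sub_nonneg.2 hsr)
    have h4 : s - r ≤ 8 * Real.pi / r := by
      rw [le_div_iff₀ hr]
      linarith only [h3, h3']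
    have h5 : (s - r) * (s + 2 * r) ≤ 24 * Real.pi := by
      linarith only [h3, h3']
    have h6 : 0 ≤ s - r := sub_nonneg.2 hsr
    calc (s - r) ^ 2 * (s + 2 * r) / 6 = (s - r) * ((s - r) * (s + 2 * r)) / 6 := by ring
      _ ≤ (8 * Real.pi / r) * (24 * Real.pi) / 6 := by gcongr
      _ = 32 * Real.pi ^ 2 / r := by ring
  have h7 : Tendsto (fun r : ℝ => 32 * Real.pi ^ 2 / r) atTop (𝓝 0) :=
    tendsto_const_nhds.div_atTop tendsto_id
  refine squeeze_zero_norm' ?_ h7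
  filter_upwards [eventually_gt_atTop 0] with r hr
  exact key r hr

/-- Antiderivative on `(0,∞)`: with `c = 16π`, `r² Jgd(r²) = r (r² + 8π)/√(r² + c) - r²` has the primitive
`P r = (r² + c)^{3/2}/3 - 8π (r² + c)^{1/2} - r³/3` (indeed `d/dr` of the first two terms is
`r √(r²+c) - 8π r/√(r²+c) = r (r² + c - 8π)/√(r²+c)`). `P 0 = c^{3/2}/3 - 8π c^{1/2} = (4√π)³/3 - 32 π^{3/2} = -(32/3) π^{3/2}`
and `P r → 0` as `r → ∞`: with `D = √(r²+c)`, `P r = (D³ - r³)/3 - 8π D`, `D - r = c/(D+r)`, `D³ - r³ = c (D²+Dr+r²)/(D+r)`, so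
`P r = (c/3) ((D² + D r + r²)/(D+r) - (3/2) D) = (c/3) (2r² - D² - D r)/(2 (D+r)) = (c/3)(r - D)(D + 2 r)/(2(D+r))`, absolute value
`≤ (c/3) (c/(D+r)) ≤ c²/(3r)`. Use `integral_Ioi_of_hasDerivAt_of_nonneg'` or `integral_Ioi_of_hasDerivAt_of_tendsto`. -/
theorem Jgd_integral :
    ∫ r in Ioi (0:ℝ), r ^ 2 * Jgd (r ^ 2) = 32 / 3 * Real.pi * Real.sqrt Real.pi := by
  have hpi := Real.pi_pos
  have hnn : ∀ r ∈ Ioi (0:ℝ), 0 ≤ r ^ 2 * Jgd (r ^ 2) := by
    intro r hr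
    have hr0 : (0:ℝ) < r := hr
    exact mul_nonneg (by positivity) (Jgd_pos (by positivity)).le
  rw [integral_Ioi_of_hasDerivAt_of_nonneg F1b_P_continuous.continuousAt.continuousWithinAt
    (fun r hr => F1b_P_hasDerivAt hr) hnn F1b_P_tendsto]
  unfold F1b_P
  have h1 : Real.sqrt ((0:ℝ) ^ 2 + 16 * Real.pi) = 4 * Real.sqrt Real.pi := by
    rw [show (0:ℝ) ^ 2 + 16 * Real.pi = 4 ^ 2 * Real.pi by ring, Real.sqrt_mul (by positivity),
      Real.sqrt_sq (by norm_num)]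
  rw [h1]
  have h2 : Real.sqrt Real.pi ^ 3 = Real.pi * Real.sqrt Real.pi := by
    rw [pow_succ, Real.sq_sqrt hpi.le]
  rw [mul_pow, h2]
  ring

end Pool.Agent.Lib.MP_4952d6_mp

end

/-! ### LC.F1c -/

section

set_option autoImplicit false
set_option linter.unusedSectionVars false
set_option linter.unusedVariables false
open MeasureTheory Function Filter Topology Set

namespace Pool.Agent.Lib.MP_4952d6_mp

/-! # F1c: the slope of `J` at `0`

`Jf δ - Jf 0 = (1/(4π²)) ∫ r² (Jg (r²+δ) - Jg (r²)) dr ≥ (δ/(4π²)) ∫ r² Jgd (r²+δ) dr` (F1a Jg_sub_ge), and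
`∫ r² Jgd (r²+δ) dr → ∫ r² Jgd (r²) dr = (32/3) π^{3/2}` as `δ → 0+` (dominated convergence, `0 ≤ Jgd (r²+δ) ≤ Jgd (r²)`).
`(1/(4π²)) (32/3) π^{3/2} = 8/(3√π)`. -/

theorem F1c_Jgd_continuousAt {s : ℝ} (hs : 0 < s) : ContinuousAt Jgd s := by
  have hpi := Real.pi_pos
  have h0 : 0 < s ^ 2 + 16 * Real.pi * s := by positivity
  have h1 : Continuous fun s : ℝ => Real.sqrt (s ^ 2 + 16 * Real.pi * s) := by fun_prop
  have h2 : Continuous fun s : ℝ => s + 8 * Real.pi := by fun_prop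
  have h3 : ContinuousAt (fun s : ℝ => (s + 8 * Real.pi) / Real.sqrt (s ^ 2 + 16 * Real.pi * s)) s :=
    h2.continuousAt.div h1.continuousAt (Real.sqrt_pos.2 h0).ne'
  exact h3.sub continuousAt_const

theorem Jgd_tendsto :
    Tendsto (fun δ => ∫ r in Ioi (0:ℝ), r ^ 2 * Jgd (r ^ 2 + δ)) (𝓝[>] 0)
      (𝓝 (32 / 3 * Real.pi * Real.sqrt Real.pi)) := by
  rw [← Jgd_integral]
  have hint : Integrable (fun r : ℝ => r ^ 2 * Jgd (r ^ 2)) (volume.restrict (Ioi (0:ℝ))) := by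
    have h := Jgd_integrable (le_refl (0:ℝ))
    simp only [add_zero] at h
    exact h
  refine tendsto_integral_filter_of_dominated_convergence (fun r => r ^ 2 * Jgd (r ^ 2)) ?_ ?_
    hint ?_
  · refine Eventually.of_forall fun δ => ?_
    have hm : Measurable (fun r : ℝ => r ^ 2 * Jgd (r ^ 2 + δ)) :=
      (measurable_id.pow_const 2).mul (Jgd_measurable.comp ((measurable_id.pow_const 2).add_const δ))
    exact hm.aestronglyMeasurable
  · filter_upwards [self_mem_nhdsWithin] with δ hδ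
    have hδ0 : (0:ℝ) < δ := hδ
    rw [ae_restrict_iff' measurableSet_Ioi]
    refine Eventually.of_forall fun r hr => ?_
    have hr0 : (0:ℝ) < r := hr
    have hE : 0 < r ^ 2 := by positivity
    have hE2 : 0 < r ^ 2 + δ := by positivity
    rw [Real.norm_eq_abs, abs_of_nonneg (mul_nonneg hE.le (Jgd_pos hE2).le)]
    exact mul_le_mul_of_nonneg_left (Jgd_anti hE (by linarith)) hE.le
  · rw [ae_restrict_iff' measurableSet_Ioi]
    refine Eventually.of_forall fun r hr => ?_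
    have hr0 : (0:ℝ) < r := hr
    have hE : 0 < r ^ 2 := by positivity
    have h1 : Tendsto (fun δ : ℝ => r ^ 2 + δ) (𝓝[>] 0) (𝓝 (r ^ 2)) := by
      have h2 : Tendsto (fun δ : ℝ => r ^ 2 + δ) (𝓝 0) (𝓝 (r ^ 2 + 0)) :=
        (continuous_const.add continuous_id).tendsto 0
      rw [add_zero] at h2
      exact h2.mono_left nhdsWithin_le_nhds
    exact ((F1c_Jgd_continuousAt hE).tendsto.comp h1).const_mul (r ^ 2)

theorem F1c_diff {δ : ℝ} (hδ : 0 < δ) :
    δ * (1 / (4 * Real.pi ^ 2) * ∫ r in Ioi (0:ℝ), r ^ 2 * Jgd (r ^ 2 + δ)) ≤ Jf δ - Jf 0 := by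
  have hpi := Real.pi_pos
  unfold Jf
  rw [← mul_sub, ← integral_sub (jInt_integrable hδ.le) (jInt_integrable le_rfl)]
  have h1 : δ * (1 / (4 * Real.pi ^ 2) * ∫ r in Ioi (0:ℝ), r ^ 2 * Jgd (r ^ 2 + δ))
      = 1 / (4 * Real.pi ^ 2) * ∫ r in Ioi (0:ℝ), δ * (r ^ 2 * Jgd (r ^ 2 + δ)) := by
    rw [integral_const_mul]
    ring
  rw [h1]
  refine mul_le_mul_of_nonneg_left ?_ (by positivity)
  refine setIntegral_mono_on ((Jgd_integrable hδ.le).const_mul δ)
    ((jInt_integrable hδ.le).sub (jInt_integrable le_rfl)) measurableSet_Ioi ?_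
  intro r hr
  have hr0 : (0:ℝ) < r := hr
  have hE : 0 < r ^ 2 := by positivity
  have h2 := Jg_sub_ge hE.le hδ
  rw [jInt_eq, jInt_eq, add_zero]
  have h3 := mul_le_mul_of_nonneg_left h2 hE.le
  linarith

theorem Jf_slope {ε : ℝ} (hε : 0 < ε) :
    ∃ δ : ℝ, 0 < δ ∧ δ * ((1 - ε) * (8 / (3 * Real.sqrt Real.pi))) ≤ Jf δ - Jf 0 := by
  have hpi := Real.pi_pos
  have hs : 0 < Real.sqrt Real.pi := Real.sqrt_pos.2 hpi
  have hs2 : Real.sqrt Real.pi ^ 2 = Real.pi := Real.sq_sqrt hpi.le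
  have h7 : 1 / (4 * Real.pi ^ 2) * (32 / 3 * Real.pi * Real.sqrt Real.pi)
      = 8 / (3 * Real.sqrt Real.pi) := by
    rw [one_div_mul_eq_div, div_eq_div_iff (by positivity) (by positivity)]
    calc 32 / 3 * Real.pi * Real.sqrt Real.pi * (3 * Real.sqrt Real.pi)
        = 32 * Real.pi * Real.sqrt Real.pi ^ 2 := by ring
      _ = 8 * (4 * Real.pi ^ 2) := by rw [hs2]; ring
  have h0 : 0 < 8 / (3 * Real.sqrt Real.pi) := by positivity
  have h1 : (1 - ε) * (8 / (3 * Real.sqrt Real.pi)) < 8 / (3 * Real.sqrt Real.pi) := by nlinarith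
  have h8 : Tendsto (fun δ => 1 / (4 * Real.pi ^ 2) * ∫ r in Ioi (0:ℝ), r ^ 2 * Jgd (r ^ 2 + δ))
      (𝓝[>] 0) (𝓝 (8 / (3 * Real.sqrt Real.pi))) := by
    rw [← h7]
    exact Jgd_tendsto.const_mul _
  have h2 := h8.eventually (lt_mem_nhds h1)
  obtain ⟨δ, h4, h5⟩ := (h2.and self_mem_nhdsWithin).exists
  have h6 : (0:ℝ) < δ := h5
  refine ⟨δ, h6, ?_⟩
  exact (mul_le_mul_of_nonneg_left h4.le h6.le).trans (F1c_diff h6)

end Pool.Agent.Lib.MP_4952d6_mp

end

/-! ### FinalA -/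

section

/-! Elementary lemmas of `Final.lean`. -/

set_option autoImplicit false
set_option linter.unusedSectionVars false
set_option linter.unusedVariables false
open MeasureTheory Function Filter Topology Set
open scoped ENNReal

namespace Pool.Agent.Lib.MP_4952d6_mp

lemma sig_ge : (25/2 : ℝ) ≤ sig := by
  rw [sig_eq]
  have := Real.pi_gt_d2
  linarith

lemma sig_ge' : (314/25 : ℝ) ≤ sig := by
  rw [sig_eq]
  have := Real.pi_gt_d2
  linarith

/-- The length scale. -/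
noncomputable def dl (ρ A : ℝ) : ℝ := (Real.sqrt (12800 * sig * ρ * A))⁻¹

section num
variable {ρ A : ℝ} (hρ : 0 < ρ) (hA : 0 < A)
include hρ hA

lemma dl_pos : 0 < dl ρ A := by
  have := sig_pos
  unfold dl; positivity

lemma dl_sq : dl ρ A ^ 2 * (12800 * sig * ρ * A) = 1 := by
  have := sig_pos
  unfold dl
  rw [inv_pow, Real.sq_sqrt (by positivity)]
  field_simp

lemma Y_sq : Real.sqrt (ρ * A ^ 3) ^ 2 = ρ * A ^ 3 := Real.sq_sqrt (by positivity)

lemma Y_pos : 0 < Real.sqrt (ρ * A ^ 3) := Real.sqrt_pos.2 (by positivity)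

lemma A_div_dl : 400 * Real.sqrt (ρ * A ^ 3) ≤ A / dl ρ A := by
  have hd := dl_pos hρ hA
  have hY := Y_pos hρ hA
  have hσ := sig_ge
  have h1 : (400 * Real.sqrt (ρ * A ^ 3)) ^ 2 ≤ (A / dl ρ A) ^ 2 := by
    have e1 : (A / dl ρ A) ^ 2 = 12800 * sig * Real.sqrt (ρ * A ^ 3) ^ 2 := by
      rw [Y_sq hρ hA]
      have h2 := dl_sq hρ hA
      field_simp
      rw [← h2]; ring
    rw [e1, mul_pow]
    exact mul_le_mul_of_nonneg_right (by linarith) (sq_nonneg _)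
  exact (pow_le_pow_iff_left₀ (by positivity) (by positivity) two_ne_zero).1 h1

lemma depl_num : 31 / 1000 * Real.sqrt (ρ * A ^ 3) ≤ ρ * sig * A ^ 2 * dl ρ A := by
  have hd := dl_pos hρ hA
  have hY := Y_pos hρ hA
  have hσ := sig_ge'
  have hσ0 := sig_pos
  have h1 : (31 / 1000 * Real.sqrt (ρ * A ^ 3)) ^ 2 ≤ (ρ * sig * A ^ 2 * dl ρ A) ^ 2 := by
    have e1 : (ρ * sig * A ^ 2 * dl ρ A) ^ 2 = sig / 12800 * Real.sqrt (ρ * A ^ 3) ^ 2 := by
      rw [Y_sq hρ hA]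
      have h2 := dl_sq hρ hA
      have : (ρ * sig * A ^ 2 * dl ρ A) ^ 2
          = sig / 12800 * (ρ * A ^ 3) * (dl ρ A ^ 2 * (12800 * sig * ρ * A)) := by ring
      rw [this, h2, mul_one]
    rw [e1, mul_pow]
    exact mul_le_mul_of_nonneg_right (by linarith) (sq_nonneg _)
  exact (pow_le_pow_iff_left₀ (by positivity) (by positivity) two_ne_zero).1 h1

lemma cube_num : 1000 * Real.sqrt (ρ * A ^ 3) * (64000 * ρ * dl ρ A ^ 3) ≤ 1 := by
  have hd := dl_pos hρ hA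
  have hY := Y_pos hρ hA
  have hσ := sig_ge
  have hσ0 := sig_pos
  have h1 := A_div_dl hρ hA
  rw [le_div_iff₀ hd] at h1
  have h2 : 64000 * ρ * dl ρ A ^ 3 = 5 * dl ρ A / (sig * A) := by
    have h3 := dl_sq hρ hA
    rw [eq_div_iff (by positivity)]
    calc 64000 * ρ * dl ρ A ^ 3 * (sig * A) = 5 * dl ρ A * (dl ρ A ^ 2 * (12800 * sig * ρ * A)) := by
          ring
      _ = 5 * dl ρ A := by rw [h3, mul_one]
  rw [h2, ← mul_div_assoc, div_le_one (by positivity)]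
  nlinarith [mul_le_mul_of_nonneg_right hσ hA.le]

end num

lemma side_cube {ρ : ℝ} (hρ : 0 < ρ) {N : ℕ} (hN : 1 ≤ N) : N / side ρ N ^ 3 = ρ := by
  have hN0 : (0:ℝ) < N := by exact_mod_cast hN
  have h1 : side ρ N ^ 3 = N / ρ := by
    unfold side
    rw [← Real.rpow_natCast, ← Real.rpow_mul (by positivity)]
    norm_num
  rw [h1]
  field_simp

lemma side_pos {ρ : ℝ} (hρ : 0 < ρ) {N : ℕ} (hN : 1 ≤ N) : 0 < side ρ N := by
  have hN0 : (0:ℝ) < N := by exact_mod_cast hN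
  unfold side
  positivity

end Pool.Agent.Lib.MP_4952d6_mp

end

/-! ### PhysA -/

section

/-! Two lemmas of `Phys.lean` which do not depend on the main torus estimate. -/

set_option autoImplicit false
set_option linter.unusedSectionVars false
set_option linter.unusedVariables false
open MeasureTheory Function Filter Topology Set ComplexConjugate AddCircle
open scoped ENNReal

namespace Pool.Agent.Lib.MP_4952d6_mp

/-- Radial null sets. -/
lemma ae_nr {P : ℝ → Prop} (hP : ∀ᵐ r : ℝ, 0 < r → P r) :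
    ∀ᵐ x : Fin 3 → ℝ, 0 < nr x → P (nr x) := by
  set B : Set ℝ := {r | ¬ (0 < r → P r)} with hB
  have hB0 : volume B = 0 := hP
  set B' : Set ℝ := toMeasurable volume B with hB'
  have hB'0 : volume B' = 0 := by rw [hB', measure_toMeasurable, hB0]
  have hm : MeasurableSet B' := measurableSet_toMeasurable _ _
  set φ : ℝ → ℝ := B'.indicator (fun _ => 1) with hφ
  have hφ0 : (fun r => r ^ 2 * φ r) =ᵐ[volume.restrict (Ioi (0:ℝ))] 0 := by
    refine ae_restrict_of_ae ?_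
    have : ∀ᵐ r : ℝ, r ∉ B' := by
      rw [ae_iff]; simpa using hB'0
    filter_upwards [this] with r hr
    rw [hφ, Set.indicator_of_notMem hr, mul_zero]; rfl
  have hint : Integrable (fun x : Fin 3 → ℝ => φ (nr x)) := by
    rw [integrable_nr]
    exact (integrable_zero _ _ _).congr hφ0.symm
  have h1 : ∫ x : Fin 3 → ℝ, φ (nr x) = 0 := by
    rw [integral_nr, integral_congr_ae hφ0]; simp
  have h2 : (fun x : Fin 3 → ℝ => φ (nr x)) =ᵐ[volume] 0 := by
    refine (integral_eq_zero_iff_of_nonneg (fun x => ?_) hint).1 h1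
    exact Set.indicator_nonneg (fun _ _ => zero_le_one) _
  filter_upwards [h2] with x hx
  have h3 : nr x ∉ B' := by
    intro hmem
    have h4 : φ (nr x) = 0 := hx
    rw [hφ, Set.indicator_of_mem hmem] at h4
    exact one_ne_zero h4
  have h5 : nr x ∉ B := fun hmem => h3 (subset_toMeasurable _ _ hmem)
  by_contra hcon
  exact h5 hcon

lemma nr_smul_crd {L : ℝ} (hL : 0 ≤ L) (y : T3) : nr (L • fun α => crd y α) = L * rr y := by
  have h1 : nr (L • fun α => crd y α) ^ 2 = (L * rr y) ^ 2 := by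
    rw [nr_sq, mul_pow, rr_sq, Finset.mul_sum]
    refine Finset.sum_congr rfl fun α _ => ?_
    rw [Pi.smul_apply, smul_eq_mul, mul_pow]
  exact (pow_left_inj₀ (nr_nonneg _) (mul_nonneg hL (rr_nonneg _)) two_ne_zero).1 h1

end Pool.Agent.Lib.MP_4952d6_mp

end

/-! ### Final2A -/

section

/-! Lemmas of `Final2.lean` which do not depend on the main estimates. -/

set_option autoImplicit false
set_option linter.unusedSectionVars false
set_option linter.unusedVariables false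
open MeasureTheory Function Filter Topology Set
open scoped ENNReal

namespace Pool.Agent.Lib.MP_4952d6_mp

/-- Radial profile. -/
noncomputable def prof (v : (Fin 3 → ℝ) → ℝ) (r : ℝ) : ℝ := v (fun α => if α = 0 then r else 0)

lemma prof_eq {v : (Fin 3 → ℝ) → ℝ} (hr : ∀ x y : Fin 3 → ℝ, ∑ α, x α ^ 2 = ∑ α, y α ^ 2 → v x = v y)
    (x : Fin 3 → ℝ) : v x = prof v (nr x) := by
  refine hr _ _ ?_
  rw [← nr_sq]
  simp [Fin.sum_univ_three]

lemma exists_rep {v : (Fin 3 → ℝ) → ℝ} (hv : Integrable v) (hv0 : ∀ x, 0 ≤ v x)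
    (hr : ∀ x y : Fin 3 → ℝ, ∑ α, x α ^ 2 = ∑ α, y α ^ 2 → v x = v y) :
    ∃ g : ℝ → ℝ, Measurable g ∧ (∀ r, 0 ≤ g r) ∧ ∀ᵐ r : ℝ, 0 < r → g r = prof v r := by
  have h1 : IntegrableOn (fun r => r ^ 2 * prof v r) (Ioi (0:ℝ)) := by
    rw [← integrable_nr]
    exact hv.congr (Eventually.of_forall fun x => prof_eq hr x)
  set k := h1.1.mk _ with hk
  refine ⟨fun r => max 0 (k r / r ^ 2), ?_, fun r => le_max_left _ _, ?_⟩
  · exact measurable_const.max (h1.1.stronglyMeasurable_mk.measurable.div (measurable_id.pow_const 2))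
  · have h2 := (ae_restrict_iff' measurableSet_Ioi).1 h1.1.ae_eq_mk
    filter_upwards [h2] with r hr hr0
    have h3 := hr hr0
    have h4 : 0 ≤ prof v r := hv0 _
    rw [hk, ← h3]
    have : r ^ 2 * prof v r / r ^ 2 = prof v r := by field_simp
    rw [this, max_eq_right h4]

/-- No interaction: the scattering length is not positive. -/
lemma scatLen_nongen {v : (Fin 3 → ℝ) → ℝ} (hv : Integrable v) (hv0 : ∀ x, 0 ≤ v x) {m : ℝ}
    (hm : 0 < m) (h0 : ∫ x, v x ≤ 0) : scatLen m 0 v ≤ 0 := by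
  unfold scatLen
  refine mul_nonpos_of_nonneg_of_nonpos (by positivity) ?_
  refine le_trans (csInf_le ?_ ⟨fun _ => 1, contDiff_const, ?_, ?_, rfl⟩) ?_
  · refine ⟨0, ?_⟩
    rintro e ⟨ψ, _, _, _, rfl⟩
    refine integral_nonneg fun x => ?_
    have h1 : 0 ≤ ∑ α, (fderiv ℝ ψ x (Pi.single α 1)) ^ 2 :=
      Finset.sum_nonneg fun α _ => sq_nonneg _
    have h2 := hv0 x
    positivity
  · simp only [sub_self]
    exact HasCompactSupport.zero
  · intro x hx
    exfalso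
    have : 0 ≤ ∑ α, x α ^ 2 := Finset.sum_nonneg fun α _ => sq_nonneg _
    simp at hx
    linarith
  · simpa using h0

lemma sqrt_mono {ρ a A : ℝ} (hρ : 0 < ρ) (h : a ≤ A) :
    Real.sqrt (ρ * a ^ 3) ≤ Real.sqrt (ρ * A ^ 3) := by
  refine Real.sqrt_le_sqrt (mul_le_mul_of_nonneg_left ?_ hρ.le)
  exact (Odd.strictMono_pow (by decide : Odd 3)).monotone h

end Pool.Agent.Lib.MP_4952d6_mp

end

/-! ### LC.F4 -/

section

set_option autoImplicit false
set_option linter.unusedSectionVars false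
set_option linter.unusedVariables false
open MeasureTheory Function Filter Topology Set
open scoped ENNReal

namespace Pool.Agent.Lib.MP_4952d6_mp

/-! # F4: physical assembly

Model: `regimeA` and `regimeB` in Final2.lean, `phys_main` in Phys.lean (helper22's Lib). Plan of `lhy_assembly`:

0. `κ := 8/(3√π) ≤ 2` (`π ≥ 16/9`). `exists_rep` gives `g`; `u r := if r < R then m * g r else 0` (as in `regimeA`), `U := ∫ r² u`. If not
   (`0 < R₀ ∨ 0 < U`), `scatLen ≤ 0` (`scatLen_nongen`) and `condFraction ≤ 1` (`condFraction_eq`, `nuQ_nonneg`) as in `regimeB`.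
   WLOG `ε ≤ 1` (replace `ε` by `min ε 1`, `√ ≥ 0`).
1. `exists_data` gives `A` (`scatLen ≤ A`, truncated scattering lengths `≤ A` and `> c` for every `c < A`). `Jf_slope (ε/4)` gives `δ` with
   `δ (1-ε/4) κ ≤ Jf δ - Jf 0`. `η := δ ε κ / 12`. `θ := 2 R / A`.
2. `hU θ η` gives `CU, YU`; `hA m R₀ R v .. A` gives `CA, YA`; `hB θ δ η (4 CA)` gives `YB`. `ρ₁` so that `√(ρ A³) < min YU YA YB` for `ρ < ρ₁`.
3. Given `ρ`, `YA' := √(ρ A³)`. Truncation: `n` large (as in `regimeA`, `K := max n R`, `tr u n K = tr u n R`) so that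
   `Scat (tr u n R) R₀ R a f Q` with `(1-ε/8) A ≤ a ≤ A` and `∫ r² (u - tr u n R) ≤ ε₁ := η (A/2) (YA'/2) / (2 sig CU)`.
   `Y := √(ρ a³)`, `(1-ε/4) YA' ≤ Y ≤ YA'` (`(1-x)^{3/2} ≥ 1-2x`).
4. `N` large: `1 ≤ N`, `a / side ρ N < a0` of U and of LB, `N ≥ N1` of LA. `L := side ρ N`, `a_t := a / L`, `N a_t³ = ρ a³ = Y²` (`side_cube`),
   `(h.scale hL)` is the rescaled `Scat`, `ofReal (2 (L² W (L rr y))) ≤ Vp m L v y` a.e. and the charge
   `∫⁻ Vp - ∫⁻ ofReal (2 L² W (L rr)) = ofReal (2 sig / L * ∫ r² (u - W))` exactly as in `phys_main`.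
5. `ψ` physical minimiser, `φ := TT N L ψ` torus minimiser (`adm_TT`, `adm_BB`, `energy_eq`, `TT_BB` as at the end of `phys_main`).
   `D := ∑ i, nuQ (fc φ) i`, `condFraction = 1 - D / N`.
   If `D > 2 Y N`: `D/N > 2 (1-ε/4) YA' ≥ (1-ε) κ YA'`. Otherwise `D ≤ 2 Y N ≤ 2 YA' N`, LA gives `LocM CA YA' t` for `t ∈ [tsc/2, 2 tsc]`
   (`tsc (A/L) YA'`), and `tsc (a/L) Y = tsc (A/L) YA' * (a/A)^(-2/5)` lies in this window; `LocM CA YA' t → LocM (4 CA) Y t` as
   `YA'^(19/20) ≤ 4 Y^(19/20)`, `CA ≤ 4 CA`. LB and U: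
   `4πN²a + N²aY(Jf δ - η) - δ N a D ≤ 4πN²a + N²aY(Jf 0 + η) + CU N² (2 sig / L) ε₁` (here `a = a_t`), last term `≤ η N² a_t Y`.
   (`Jf 0 ≥ 0` from `Jg_le_exp`, to remove `ENNReal.ofReal`.) Hence `D/N ≥ Y ((1-ε/4) κ - 3 η/δ) = Y (1-ε/2) κ ≥ (1-ε) κ YA'`,
   and `√(ρ scatLen³) ≤ YA'` (`sqrt_mono`).
You may cut the proof into several lemmas (prefix `F4_`). -/

/-- The side length is eventually large. -/
lemma F4_side {ρ : ℝ} (hρ : 0 < ρ) {T : ℝ} (hT : 0 < T) :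
    ∃ N₁ : ℕ, 1 ≤ N₁ ∧ ∀ N : ℕ, N₁ ≤ N → T < side ρ N := by
  obtain ⟨N₁, hN₁⟩ := exists_nat_gt (ρ * T ^ 3)
  refine ⟨max N₁ 1, le_max_right _ _, fun N hN => ?_⟩
  have hN1 : 1 ≤ N := (le_max_right _ _).trans hN
  have hNN : N₁ ≤ N := (le_max_left _ _).trans hN
  have hNr : (N₁:ℝ) ≤ N := by exact_mod_cast hNN
  have hL := side_pos hρ hN1
  have hL3 := side_cube hρ hN1
  have h4 : T ^ 3 < side ρ N ^ 3 := by
    rw [div_eq_iff (by positivity)] at hL3
    rw [hL3] at hNr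
    exact lt_of_mul_lt_mul_left (hN₁.trans_le hNr) hρ.le
  exact lt_of_pow_lt_pow_left₀ 3 hL.le h4

/-- The torus minimiser. -/
lemma F4_min {N : ℕ} {m R₀ L : ℝ} {v : (Fin 3 → ℝ) → ℝ} (hm : 0 < m) (hL : 0 < L) (hR : 0 ≤ R₀)
    (hv : AEMeasurable v volume) {ψ : (Fin N → Fin 3 → ℝ) → ℂ} (hψ : Admissible m R₀ v N L ψ)
    (hmin : ∀ φ : (Fin N → Fin 3 → ℝ) → ℂ, Admissible m R₀ v N L φ →
      energy m v N L ψ ≤ energy m v N L φ)
    (φ : (Fin N → T3) → ℂ) (hφ : tAdm (R₀ / L) (Vp m L v) φ) :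
    tE (Vp m L v) (TT N L ψ) ≤ tE (Vp m L v) φ := by
  have h1 := hmin (BB N L φ) (adm_BB hm hL hR hv hφ)
  rw [energy_eq hm hL hv hψ.1.1, energy_eq hm hL hv (memLp_BB hL hφ.1).1, TT_BB hL] at h1
  have hc0 : ENNReal.ofReal (1 / (2 * m * L ^ 2)) ≠ 0 := by
    rw [ne_eq, ENNReal.ofReal_eq_zero, not_le]
    positivity
  exact (ENNReal.mul_le_mul_iff_right hc0 ENNReal.ofReal_ne_top).1 h1

/-- Pointwise lower bound for the rescaled potential. -/
lemma F4_pot {W : ℝ → ℝ} {R₀ R a : ℝ} {f Q : ℝ → ℝ} (h : Scat W R₀ R a f Q)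
    {m : ℝ} (hm : 0 < m) {v : (Fin 3 → ℝ) → ℝ} {v₀ : ℝ → ℝ} (hrad : ∀ x, v x = v₀ (nr x))
    (hle : ∀ᵐ r : ℝ, 0 < r → W r ≤ m * v₀ r) {L : ℝ} (hL : 0 < L) :
    ∀ᵐ y ∂lam3, ENNReal.ofReal (2 * (L ^ 2 * W (L * rr y))) ≤ Vp m L v y := by
  have h1 := ae_nr hle
  have h2 : ∀ᵐ y ∂lam3, 0 < nr (L • fun α => crd y α) →
      W (nr (L • fun α => crd y α)) ≤ m * v₀ (nr (L • fun α => crd y α)) := by
    have h3 : Measure.QuasiMeasurePreserving (fun x : Fin 3 → ℝ => L • x) volume volume :=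
      (mp_smul3 hL).quasiMeasurePreserving.mono_right Measure.smul_absolutelyContinuous
    have h4 : Measure.QuasiMeasurePreserving (fun (y : T3) (α : Fin 3) => crd y α) lam3 volume :=
      mp_crd.quasiMeasurePreserving.mono_right Measure.restrict_le_self.absolutelyContinuous
    exact (h3.comp h4).ae h1
  filter_upwards [h2, ae_rr_ne (e := 0) (by norm_num)] with y hy hy0
  rw [nr_smul_crd hL.le] at hy
  have hrr : 0 < rr y := lt_of_le_of_ne (rr_nonneg y) (Ne.symm hy0)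
  have hy2 := hy (by positivity)
  have h5 : ENNReal.ofReal (v (fun α => L * (crd y α + ((0 : Fin 3 → ℤ) α : ℝ)))) ≤ vper L v y :=
    ENNReal.le_tsum (f := fun n : Fin 3 → ℤ =>
      ENNReal.ofReal (v (fun α => L * (crd y α + (n α : ℝ))))) 0
  have h6 : (fun α => L * (crd y α + ((0 : Fin 3 → ℤ) α : ℝ))) = L • fun α => crd y α := by
    funext α; simp
  rw [h6, hrad, nr_smul_crd hL.le] at h5
  unfold Vp
  refine le_trans ?_ (mul_le_mul_right h5 _)
  rw [← ENNReal.ofReal_mul (by positivity)]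
  refine ENNReal.ofReal_le_ofReal ?_
  have h7 := mul_le_mul_of_nonneg_left hy2 (show (0:ℝ) ≤ 2 * L ^ 2 by positivity)
  calc 2 * (L ^ 2 * W (L * rr y)) = 2 * L ^ 2 * (W (L * rr y)) := by ring
    _ ≤ 2 * L ^ 2 * (m * v₀ (L * rr y)) := h7
    _ = _ := by ring

/-- Total charge of the rescaled potential. -/
lemma F4_charge {m : ℝ} (hm : 0 < m) {v : (Fin 3 → ℝ) → ℝ} (hv : Integrable v)
    (hv0 : ∀ x, 0 ≤ v x) {v₀ : ℝ → ℝ} (hrad : ∀ x, v x = v₀ (nr x)) {L : ℝ} (hL : 0 < L) :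
    ∫⁻ y, Vp m L v y ∂lam3
      = ENNReal.ofReal (2 * sig / L * (m * ∫ r in Ioi (0:ℝ), r ^ 2 * v₀ r)) := by
  have hvm : AEMeasurable v volume := hv.aestronglyMeasurable.aemeasurable
  unfold Vp
  rw [lintegral_const_mul' _ _ ENNReal.ofReal_ne_top, lintegral_vper hL hvm,
    ← ofReal_integral_eq_lintegral_ofReal hv (Eventually.of_forall hv0)]
  have e1 : ∫ x, v x = sig * ∫ r in Ioi (0:ℝ), r ^ 2 * v₀ r := by
    rw [← integral_nr]
    exact integral_congr_ae (Eventually.of_forall hrad)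
  rw [e1, ← ENNReal.ofReal_mul (by positivity), ← ENNReal.ofReal_mul (by positivity)]
  congr 1
  field_simp

/-- Charge of a truncated potential. -/
lemma F4_chargeW {W : ℝ → ℝ} {R₀ R a : ℝ} {f Q : ℝ → ℝ} (h : Scat W R₀ R a f Q) {L : ℝ}
    (hL : 0 < L) (hRL : 2 * R < L) :
    ∫⁻ y, ENNReal.ofReal (2 * (L ^ 2 * W (L * rr y))) ∂lam3
      = ENNReal.ofReal (2 * sig / L * ∫ r in Ioi (0:ℝ), r ^ 2 * W r) := by
  have hWi : Integrable (fun y => 2 * (L ^ 2 * W (L * rr y))) lam3 := by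
    obtain ⟨M, hM0, hM⟩ := h.exists_M
    refine Integrable.of_bound (C := 2 * (L ^ 2 * M)) ?_ (Eventually.of_forall fun y => ?_)
    · exact (((h.W_meas.comp ((measurable_const_mul L).comp rr_measurable)).const_mul
        _).const_mul _).aestronglyMeasurable
    · have h1 := h.W_nonneg (L * rr y)
      have h2 := hM (L * rr y)
      rw [Real.norm_of_nonneg (by positivity)]
      gcongr
  rw [← ofReal_integral_eq_lintegral_ofReal hWi (Eventually.of_forall fun y => by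
    have := h.W_nonneg (L * rr y)
    positivity)]
  congr 1
  have h1 := integral_rad (φ := fun r => 2 * (L ^ 2 * W (L * r))) (fun r hr => by
    rw [h.W_zero (L * r) (by nlinarith)]; ring)
  rw [h1]
  have h3 := integral_comp_mul_left_Ioi (fun s => s ^ 2 * W s) 0 hL
  rw [mul_zero] at h3
  have h5 : ∫ r in Ioi (0:ℝ), r ^ 2 * (2 * (L ^ 2 * W (L * r)))
      = 2 * (L⁻¹ • ∫ r in Ioi (0:ℝ), r ^ 2 * W r) := by
    rw [← h3, ← integral_const_mul]
    congr 1
    funext r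
    ring
  rw [h5, smul_eq_mul]
  ring

/-- The functional at `0` is not negative. -/
lemma F4_Jf0 : 0 ≤ Jf 0 := by
  unfold Jf
  refine mul_nonneg (by positivity) (setIntegral_nonneg measurableSet_Ioi fun r hr => ?_)
  have hr0 : 0 < r := hr
  have h1 := Jg_le_exp (s := r ^ 2) (by positivity)
  rw [jInt_eq, add_zero]
  exact mul_nonneg (sq_nonneg r) h1

lemma F4_kappa : 0 < 8 / (3 * Real.sqrt Real.pi) ∧ 8 / (3 * Real.sqrt Real.pi) ≤ 2 := by
  have h0 : (4 / 3 : ℝ) ≤ Real.sqrt Real.pi := by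
    refine Real.le_sqrt_of_sq_le ?_
    have := Real.pi_gt_d2
    linarith
  refine ⟨by positivity, ?_⟩
  rw [div_le_iff₀ (by positivity)]
  linarith

/-- Comparison of the parameters of a truncation with those of the limit. -/
lemma F4_Y {ρ a A ε : ℝ} (hρ : 0 < ρ) (hA : 0 < A) (hε : 0 < ε) (hε1 : ε ≤ 1)
    (h1 : (1 - ε / 8) * A ≤ a) :
    (1 - ε / 4) * Real.sqrt (ρ * A ^ 3) ≤ Real.sqrt (ρ * a ^ 3) := by
  refine Real.le_sqrt_of_sq_le ?_
  rw [mul_pow, Y_sq hρ hA]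
  have h2 : ((1 - ε / 8) * A) ^ 3 ≤ a ^ 3 := by
    refine pow_le_pow_left₀ ?_ h1 3
    exact mul_nonneg (by linarith) hA.le
  have h3 : (1 - ε / 4) ^ 2 ≤ (1 - ε / 8) ^ 3 := by nlinarith [sq_nonneg ε, mul_pos hε hε]
  calc (1 - ε / 4) ^ 2 * (ρ * A ^ 3) ≤ (1 - ε / 8) ^ 3 * (ρ * A ^ 3) :=
        mul_le_mul_of_nonneg_right h3 (by positivity)
    _ = ρ * ((1 - ε / 8) * A) ^ 3 := by ring
    _ ≤ ρ * a ^ 3 := mul_le_mul_of_nonneg_left h2 hρ.le

lemma F4_tsc_eq {ρ a L : ℝ} (hρ : 0 < ρ) (ha : 0 < a) (hL : 0 < L) :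
    tsc (a / L) (Real.sqrt (ρ * a ^ 3))
      = 1 / (L ^ 2 * (ρ * a)) * Real.sqrt (ρ * a ^ 3) ^ ((2:ℝ) / 5) := by
  unfold tsc
  congr 1
  rw [div_pow, div_pow, Y_sq hρ ha]
  field_simp

/-- The time scale of a truncation lies in the window around that of the limit. -/
lemma F4_tsc {ρ a A L : ℝ} (hρ : 0 < ρ) (ha : 0 < a) (hL : 0 < L) (haA : a ≤ A)
    (hAa : A ≤ 2 * a) (hY : Real.sqrt (ρ * A ^ 3) ≤ 2 * Real.sqrt (ρ * a ^ 3)) :
    tsc (A / L) (Real.sqrt (ρ * A ^ 3)) / 2 ≤ tsc (a / L) (Real.sqrt (ρ * a ^ 3)) ∧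
      tsc (a / L) (Real.sqrt (ρ * a ^ 3)) ≤ 2 * tsc (A / L) (Real.sqrt (ρ * A ^ 3)) := by
  have hA : 0 < A := ha.trans_le haA
  have hYa := Y_pos hρ ha
  have hYA := Y_pos hρ hA
  have hYY := sqrt_mono (ρ := ρ) hρ haA
  rw [F4_tsc_eq hρ ha hL, F4_tsc_eq hρ hA hL]
  set y := Real.sqrt (ρ * a ^ 3) with hy
  set z := Real.sqrt (ρ * A ^ 3) with hz
  have e1 : z ^ ((2:ℝ) / 5) ≤ 2 * y ^ ((2:ℝ) / 5) := by
    calc z ^ ((2:ℝ) / 5) ≤ (2 * y) ^ ((2:ℝ) / 5) :=
          Real.rpow_le_rpow hYA.le hY (by norm_num)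
      _ = 2 ^ ((2:ℝ) / 5) * y ^ ((2:ℝ) / 5) := Real.mul_rpow (by norm_num) hYa.le
      _ ≤ 2 * y ^ ((2:ℝ) / 5) := by
          refine mul_le_mul_of_nonneg_right ?_ (by positivity)
          calc (2:ℝ) ^ ((2:ℝ) / 5) ≤ 2 ^ (1:ℝ) :=
                Real.rpow_le_rpow_of_exponent_le (by norm_num) (by norm_num)
            _ = 2 := Real.rpow_one 2
  have e2 : y ^ ((2:ℝ) / 5) ≤ z ^ ((2:ℝ) / 5) := Real.rpow_le_rpow hYa.le hYY (by norm_num)
  have hy5 : 0 < y ^ ((2:ℝ) / 5) := by positivity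
  have hz5 : 0 < z ^ ((2:ℝ) / 5) := by positivity
  have f1 : 1 / (L ^ 2 * (ρ * A)) ≤ 1 / (L ^ 2 * (ρ * a)) := by gcongr
  have f2 : 1 / (L ^ 2 * (ρ * a)) ≤ 2 * (1 / (L ^ 2 * (ρ * A))) := by
    have h1 : 1 / (L ^ 2 * (ρ * a)) = 2 * (1 / (L ^ 2 * (ρ * (2 * a)))) := by field_simp
    rw [h1]
    refine mul_le_mul_of_nonneg_left ?_ (by norm_num)
    gcongr
  constructor
  · calc 1 / (L ^ 2 * (ρ * A)) * z ^ ((2:ℝ) / 5) / 2
        ≤ 1 / (L ^ 2 * (ρ * a)) * (2 * y ^ ((2:ℝ) / 5)) / 2 := by gcongr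
      _ = _ := by ring
  · calc 1 / (L ^ 2 * (ρ * a)) * y ^ ((2:ℝ) / 5)
        ≤ 2 * (1 / (L ^ 2 * (ρ * A))) * z ^ ((2:ℝ) / 5) := by gcongr
      _ = _ := by ring

/-- Change of the parameters in the moment bounds. -/
lemma F4_loc {N : ℕ} {C Y Z t : ℝ} {ψ : (Fin N → T3) → ℂ} (hC : 0 < C) (hY : 0 < Y) (hZ : 0 < Z)
    (hZY : Z ≤ 2 * Y) (h : LocM C Z t ψ) : LocM (4 * C) Y t ψ := by
  have hN : (0:ℝ) ≤ (Fintype.card (Fin N) : ℝ) := Nat.cast_nonneg _
  have e1 : Z ^ ((19:ℝ) / 20) ≤ 2 * Y ^ ((19:ℝ) / 20) := by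
    calc Z ^ ((19:ℝ) / 20) ≤ (2 * Y) ^ ((19:ℝ) / 20) :=
          Real.rpow_le_rpow hZ.le hZY (by norm_num)
      _ = 2 ^ ((19:ℝ) / 20) * Y ^ ((19:ℝ) / 20) := Real.mul_rpow (by norm_num) hY.le
      _ ≤ 2 * Y ^ ((19:ℝ) / 20) := by
          refine mul_le_mul_of_nonneg_right ?_ (by positivity)
          calc (2:ℝ) ^ ((19:ℝ) / 20) ≤ 2 ^ (1:ℝ) :=
                Real.rpow_le_rpow_of_exponent_le (by norm_num) (by norm_num)
            _ = 2 := Real.rpow_one 2
  have hY5 : 0 < Y ^ ((19:ℝ) / 20) := by positivity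
  have e2 : C * (Fintype.card (Fin N) : ℝ) ^ 3 * Z ^ ((19:ℝ) / 20)
      ≤ 4 * C * (Fintype.card (Fin N) : ℝ) ^ 3 * Y ^ ((19:ℝ) / 20) := by
    have h1 : 0 ≤ C * (Fintype.card (Fin N) : ℝ) ^ 3 := by positivity
    have h2 := mul_le_mul_of_nonneg_left e1 h1
    have h3 : 0 ≤ C * (Fintype.card (Fin N) : ℝ) ^ 3 * Y ^ ((19:ℝ) / 20) := by positivity
    linarith
  refine ⟨fun s h1 h2 => (h.m0 s h1 h2).trans ?_, fun s h1 h2 => (h.m1 s h1 h2).trans e2,
    fun s h1 h2 => (h.m2 s h1 h2).trans e2⟩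
  have h3 : 0 ≤ C * (Fintype.card (Fin N) : ℝ) ^ 2 := by positivity
  linarith

/-- The final computation with real numbers. -/
lemma F4_num {N a Y Z L J0 Jd η δ D ε κ CU c σ : ℝ} (hN : 0 < N) (ha : 0 < a) (hY : 0 < Y)
    (hL : 0 < L) (hδ : 0 < δ) (hκ : 0 < κ) (hε : 0 < ε) (hε1 : ε ≤ 1) (hJ : 0 ≤ J0)
    (hη : η = δ * ε * κ / 12) (hslope : δ * ((1 - ε / 4) * κ) ≤ Jd - J0) (hZ : 0 < Z)
    (hZY : (1 - ε / 4) * Z ≤ Y) (hσ : 0 < σ) (hCU : 0 < CU) (hc0 : 0 ≤ c)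
    (hc : CU * (2 * σ * c) ≤ η * (a * Y))
    (h : ENNReal.ofReal (4 * Real.pi * N ^ 2 * (a / L) + N ^ 2 * (a / L) * Y * (Jd - η)
        - δ * N * (a / L) * D)
      ≤ ENNReal.ofReal (4 * Real.pi * N ^ 2 * (a / L) + N ^ 2 * (a / L) * Y * (J0 + η))
        + ENNReal.ofReal (CU * N ^ 2) * ENNReal.ofReal (2 * σ / L * c)) :
    (1 - ε) * κ * Z ≤ D / N := by
  have hη0 : 0 < η := by rw [hη]; positivity
  have haL : 0 < a / L := by positivity
  have hp := Real.pi_pos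
  have h0 : 0 ≤ 4 * Real.pi * N ^ 2 * (a / L) + N ^ 2 * (a / L) * Y * (J0 + η) := by positivity
  rw [← ENNReal.ofReal_mul (by positivity), ← ENNReal.ofReal_add h0 (by positivity)] at h
  have h1 := (ENNReal.ofReal_le_ofReal_iff (by positivity)).1 h
  have h2 : CU * N ^ 2 * (2 * σ / L * c) ≤ η * (N ^ 2 * (a / L) * Y) := by
    have h3 := mul_le_mul_of_nonneg_left hc (show (0:ℝ) ≤ N ^ 2 / L by positivity)
    calc CU * N ^ 2 * (2 * σ / L * c) = N ^ 2 / L * (CU * (2 * σ * c)) := by ring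
      _ ≤ N ^ 2 / L * (η * (a * Y)) := h3
      _ = _ := by ring
  have h4 : N ^ 2 * (a / L) * Y * (Jd - J0 - 3 * η) ≤ δ * N * (a / L) * D := by
    linarith only [h1, h2]
  have h5 : N * (a / L) * (N * (Y * (Jd - J0 - 3 * η))) ≤ N * (a / L) * (δ * D) := by
    calc _ = N ^ 2 * (a / L) * Y * (Jd - J0 - 3 * η) := by ring
      _ ≤ δ * N * (a / L) * D := h4
      _ = _ := by ring
  have h6 : N * (Y * (Jd - J0 - 3 * η)) ≤ δ * D := le_of_mul_le_mul_left h5 (by positivity)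
  have h7 : δ * ((1 - ε / 2) * κ) ≤ Jd - J0 - 3 * η := by
    rw [hη]; linarith only [hslope]
  have h8 : N * (Y * (δ * ((1 - ε / 2) * κ))) ≤ δ * D :=
    (mul_le_mul_of_nonneg_left (mul_le_mul_of_nonneg_left h7 hY.le) hN.le).trans h6
  have h9 : δ * (N * (Y * ((1 - ε / 2) * κ))) ≤ δ * D := by
    calc _ = N * (Y * (δ * ((1 - ε / 2) * κ))) := by ring
      _ ≤ _ := h8
  have h10 : N * (Y * ((1 - ε / 2) * κ)) ≤ D := le_of_mul_le_mul_left h9 hδ
  rw [le_div_iff₀ hN]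
  have h11 : (1 - ε) * κ * Z ≤ Y * ((1 - ε / 2) * κ) := by
    have h12 : 0 ≤ (1 - ε / 2) * κ := mul_nonneg (by linarith) hκ.le
    have h13 := mul_le_mul_of_nonneg_right hZY h12
    refine le_trans ?_ h13
    have h14 : 0 ≤ κ * Z := by positivity
    have h15 : (1 - ε) ≤ (1 - ε / 4) * (1 - ε / 2) := by
      nlinarith only [hε, sq_nonneg ε]
    have h16 := mul_le_mul_of_nonneg_right h15 h14
    calc (1 - ε) * κ * Z = (1 - ε) * (κ * Z) := by ring
      _ ≤ (1 - ε / 4) * (1 - ε / 2) * (κ * Z) := h16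
      _ = _ := by ring
  have h17 := mul_le_mul_of_nonneg_right h11 hN.le
  linarith

end Pool.Agent.Lib.MP_4952d6_mp

end

/-! ### EU.ScatVar -/

section

/-!
# The scattering length is bounded below by that of a smaller bounded potential

`a ≤ scatLen m R₀ v` whenever `(W, R₀, R, a, f, Q)` are scattering data with `W ≤ m v` (radial): along every
ray `∫ (r² g'² + r² W g²) ≥ 2 ∫ (Q g' + r² W f g) - ∫ (Q²/r² + r² W f²) = 2 a - a (1 - a/d)`.
Together with `exists_data`, the limit of the scattering lengths of the truncations is `scatLen m R₀ v`.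
-/

set_option autoImplicit false
set_option linter.unusedSectionVars false
set_option linter.unusedVariables false
open MeasureTheory Function Filter Topology Set Metric
open scoped ENNReal

namespace Pool.Agent.Lib.MP_4952d6_mp

/-- Polar coordinates. -/
theorem lintegral_polar {F : (Fin 3 → ℝ) → ℝ≥0∞} (hF : Measurable F) :
    ∫⁻ x : Fin 3 → ℝ, F x
      = ∫⁻ ω : sphere (0 : EuclideanSpace ℝ (Fin 3)) 1, (∫⁻ r in Ioi (0:ℝ),
          ENNReal.ofReal (r ^ 2) * F (fun α => r * (ω : EuclideanSpace ℝ (Fin 3)) α))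
        ∂(volume : Measure (EuclideanSpace ℝ (Fin 3))).toSphere := by
  set μ : Measure (EuclideanSpace ℝ (Fin 3)) := volume with hμ
  have hG : Measurable (fun z : EuclideanSpace ℝ (Fin 3) => F (WithLp.ofLp z)) :=
    hF.comp (PiLp.volume_preserving_ofLp (Fin 3)).measurable
  have h1 : ∫⁻ x : Fin 3 → ℝ, F x = ∫⁻ z : EuclideanSpace ℝ (Fin 3), F (WithLp.ofLp z) ∂μ :=
    ((PiLp.volume_preserving_ofLp (Fin 3)).lintegral_comp hF).symm
  have h2 : ∫⁻ z : EuclideanSpace ℝ (Fin 3), F (WithLp.ofLp z) ∂μ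
      = ∫⁻ z : ({(0)}ᶜ : Set (EuclideanSpace ℝ (Fin 3))), F (WithLp.ofLp z.1) ∂(μ.comap (↑)) := by
    rw [lintegral_subtype_comap (measurableSet_singleton _).compl
      (fun z : EuclideanSpace ℝ (Fin 3) => F (WithLp.ofLp z)), restrict_compl_singleton]
  have h3 : ∫⁻ z : ({(0)}ᶜ : Set (EuclideanSpace ℝ (Fin 3))), F (WithLp.ofLp z.1) ∂(μ.comap (↑))
      = ∫⁻ p : sphere (0 : EuclideanSpace ℝ (Fin 3)) 1 × Ioi (0:ℝ),
          F (fun α => p.2.1 * (p.1 : EuclideanSpace ℝ (Fin 3)) α)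
        ∂(μ.toSphere.prod (Measure.volumeIoiPow 2)) := by
    have hmp := μ.measurePreserving_homeomorphUnitSphereProd
    have hd : Module.finrank ℝ (EuclideanSpace ℝ (Fin 3)) - 1 = 2 := by
      simp
    rw [hd] at hmp
    rw [← hmp.lintegral_comp_emb (Homeomorph.measurableEmbedding _)]
    refine lintegral_congr fun z => ?_
    congr 1
    funext α
    have hz : (z : EuclideanSpace ℝ (Fin 3)) ≠ 0 := z.2
    have hz' : ‖(z : EuclideanSpace ℝ (Fin 3))‖ ≠ 0 := norm_ne_zero_iff.2 hz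
    simp [homeomorphUnitSphereProd]
    field_simp
  rw [h1, h2, h3, lintegral_prod]
  · refine lintegral_congr fun ω => ?_
    unfold Measure.volumeIoiPow
    rw [lintegral_withDensity_eq_lintegral_mul _ (by fun_prop)]
    · exact lintegral_subtype_comap measurableSet_Ioi (fun r : ℝ => ENNReal.ofReal (r ^ 2)
        * F (fun α => r * (ω : EuclideanSpace ℝ (Fin 3)) α))
    · refine hF.comp (measurable_pi_lambda _ fun α => ?_)
      exact (measurable_subtype_coe.mul_const ((ω : EuclideanSpace ℝ (Fin 3)) α))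
  · refine (hF.comp (measurable_pi_lambda _ fun α => ?_)).aemeasurable
    have c1 : Continuous fun p : sphere (0 : EuclideanSpace ℝ (Fin 3)) 1 × Ioi (0:ℝ) =>
        p.2.1 * (p.1 : EuclideanSpace ℝ (Fin 3)) α := by fun_prop
    exact c1.measurable

namespace Scat
variable {W : ℝ → ℝ} {R₀ R a : ℝ} {f Q : ℝ → ℝ}

/-- Energy along a ray. -/
theorem ray_bound (h : Scat W R₀ R a f Q) {g g' : ℝ → ℝ} {d : ℝ} (hd : R ≤ d)
    (hg : ∀ r, HasDerivAt g (g' r) r) (hg' : Continuous g') (h1 : g d = 1)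
    (h0 : 0 < R₀ → g R₀ = 0) :
    a ≤ ∫ r in R₀..d, (r ^ 2 * g' r ^ 2 + r ^ 2 * W r * g r ^ 2) := by
  have hd0 : 0 < d := h.R_pos.trans_le hd
  have hR0d : R₀ ≤ d := h.R₀_le.trans hd
  have ha := h.a_pos
  have hgc : Continuous g := continuous_iff_continuousAt.2 fun r => (hg r).continuousAt
  obtain ⟨M, hM0, hM⟩ := h.exists_M
  -- integration by parts
  have hQi : IntervalIntegrable Q volume R₀ d := h.Q_mono.intervalIntegrable
  have i1 : IntervalIntegrable (fun r => Q r * g' r) volume R₀ d :=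
    hQi.mul_continuousOn hg'.continuousOn
  have i2 : IntervalIntegrable (fun r => r ^ 2 * W r * f r * g r) volume R₀ d :=
    (h.F_int R₀ d).mul_continuousOn hgc.continuousOn
  have hWi : IntervalIntegrable (fun r => r ^ 2 * W r) volume R₀ d := by
    have hc : IntervalIntegrable (fun r : ℝ => r ^ 2 * M) volume R₀ d :=
      (Continuous.intervalIntegrable (by fun_prop) _ _)
    refine hc.mono_fun ((measurable_id.pow_const 2).mul h.W_meas).aestronglyMeasurable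
      (Eventually.of_forall fun r => ?_)
    have := h.W_nonneg r
    dsimp only
    rw [Real.norm_eq_abs, Real.norm_eq_abs, abs_of_nonneg (by positivity), abs_of_nonneg (by positivity)]
    exact mul_le_mul_of_nonneg_left (hM r) (sq_nonneg r)
  have i3 : IntervalIntegrable (fun r => r ^ 2 * W r * g r ^ 2) volume R₀ d :=
    hWi.mul_continuousOn (hgc.pow 2).continuousOn
  have i4 : IntervalIntegrable (fun r => r ^ 2 * g' r ^ 2) volume R₀ d :=
    (Continuous.intervalIntegrable (by fun_prop) _ _)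
  have i5 := h.energy_int d
  have hibp : ∫ r in R₀..d, (Q r * g' r + r ^ 2 * W r * f r * g r) = a := by
    have hQlip : LipschitzOnWith (Real.toNNReal (M * d ^ 2)) Q (Icc R₀ d) := by
      refine LipschitzOnWith.of_dist_le_mul fun r hr s hs => ?_
      have hc : (0:ℝ) ≤ M * d ^ 2 := by positivity
      rw [Real.coe_toNNReal _ hc, Real.dist_eq, Real.dist_eq]
      have hr0 := h.R₀_nonneg.trans hr.1
      have hs0 := h.R₀_nonneg.trans hs.1
      rcases le_total r s with hrs | hrs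
      · rw [abs_sub_comm, abs_sub_comm r s, abs_of_nonneg (sub_nonneg.2 (h.Q_mono hrs)),
          abs_of_nonneg (sub_nonneg.2 hrs)]
        refine (h.Q_sub_le hM0 hM hr.1 hrs).trans ?_
        exact mul_le_mul_of_nonneg_right (mul_le_mul_of_nonneg_left
          (pow_le_pow_left₀ hs0 hs.2 2) hM0) (sub_nonneg.2 hrs)
      · rw [abs_of_nonneg (sub_nonneg.2 (h.Q_mono hrs)), abs_of_nonneg (sub_nonneg.2 hrs)]
        refine (h.Q_sub_le hM0 hM hs.1 hrs).trans ?_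
        exact mul_le_mul_of_nonneg_right (mul_le_mul_of_nonneg_left
          (pow_le_pow_left₀ hr0 hr.2 2) hM0) (sub_nonneg.2 hrs)
    have hQac : AbsolutelyContinuousOnInterval Q R₀ d := by
      rw [← uIcc_of_le hR0d] at hQlip
      exact hQlip.absolutelyContinuousOnInterval
    have hgac : AbsolutelyContinuousOnInterval g R₀ d := by
      obtain ⟨K, hK⟩ := (isCompact_uIcc (a := R₀) (b := d)).exists_bound_of_continuousOn
        hg'.continuousOn
      have hK0 : 0 ≤ K := (norm_nonneg _).trans (hK R₀ left_mem_uIcc)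
      have hl : LipschitzOnWith (Real.toNNReal K) g (uIcc R₀ d) := by
        refine Convex.lipschitzOnWith_of_nnnorm_hasDerivWithin_le (f' := g') (convex_uIcc _ _)
          (fun r hr => (hg r).hasDerivWithinAt) fun r hr => ?_
        rw [← NNReal.coe_le_coe, coe_nnnorm, Real.coe_toNNReal _ hK0]
        exact hK r hr
      exact hl.absolutelyContinuousOnInterval
    have hP := (hQac.fun_mul hgac).integral_deriv_eq_sub
    have e1 : Q R₀ * g R₀ = 0 := by
      rcases h.R₀_nonneg.lt_or_eq with h0' | h0'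
      · rw [h0 h0', mul_zero]
      · rw [h.Q_zero' R₀ h0'.symm.le, zero_mul]
    rw [e1, sub_zero, h.Q_out d hd, h1, mul_one] at hP
    rw [← hP]
    refine intervalIntegral.integral_congr_ae ?_
    filter_upwards [h.Q_deriv] with r hr hmem
    rw [uIoc_of_le hR0d] at hmem
    have h2 := (hr hmem.1).fun_mul (hg r)
    rw [h2.deriv]
    ring
  have hen := h.energy hd
  have hle : ∫ r in R₀..d, (2 * (Q r * g' r + r ^ 2 * W r * f r * g r)
        - (Q r ^ 2 / r ^ 2 + r ^ 2 * W r * f r ^ 2))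
      ≤ ∫ r in R₀..d, (r ^ 2 * g' r ^ 2 + r ^ 2 * W r * g r ^ 2) := by
    refine intervalIntegral.integral_mono_ae_restrict hR0d (((i1.add i2).const_mul 2).sub i5)
      (i4.add i3) ?_
    have hne : ∀ᵐ r : ℝ, r ≠ 0 := by rw [ae_iff]; simp
    refine ae_restrict_of_ae ?_
    filter_upwards [hne] with r hr
    have hW := h.W_nonneg r
    have h2 : 0 ≤ (r * g' r - Q r / r) ^ 2 := sq_nonneg _
    have h3 : 0 ≤ r ^ 2 * W r * (g r - f r) ^ 2 := by positivity
    have e1 : (r * g' r - Q r / r) ^ 2 = r ^ 2 * g' r ^ 2 - 2 * (Q r * g' r) + Q r ^ 2 / r ^ 2 := by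
      field_simp
      ring
    rw [e1] at h2
    nlinarith
  rw [intervalIntegral.integral_sub ((i1.add i2).const_mul 2) i5,
    intervalIntegral.integral_const_mul, hibp, hen] at hle
  have h5 : a * (1 - a / d) ≤ a := by
    have : 0 ≤ a / d := by positivity
    nlinarith
  linarith

/-- Energy of a three dimensional trial function. -/
theorem trial_bound (h : Scat W R₀ R a f Q) {ψ : (Fin 3 → ℝ) → ℝ} (hψ : ContDiff ℝ 1 ψ)
    {d : ℝ} (hd : R ≤ d) (h1 : ∀ x, nr x = d → ψ x = 1)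
    (h0 : ∀ x : Fin 3 → ℝ, ∑ α, x α ^ 2 < R₀ ^ 2 → ψ x = 0) :
    ENNReal.ofReal (sig * a) ≤ ∫⁻ x, ENNReal.ofReal
      (∑ α, (fderiv ℝ ψ x (Pi.single α 1)) ^ 2 + W (nr x) * ψ x ^ 2) := by
  have hd0 : 0 < d := h.R_pos.trans_le hd
  have hR0d : R₀ ≤ d := h.R₀_le.trans hd
  have hψc : Continuous ψ := hψ.continuous
  have hfc : Continuous (fderiv ℝ ψ) := hψ.continuous_fderiv (by norm_num)
  have hfα : ∀ α : Fin 3, Continuous fun x => fderiv ℝ ψ x (Pi.single α 1) := fun α =>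
    hfc.clm_apply continuous_const
  have hm1 : Measurable fun x : Fin 3 → ℝ => ∑ α, (fderiv ℝ ψ x (Pi.single α 1)) ^ 2 :=
    (continuous_finsetSum _ fun α _ => (hfα α).pow 2).measurable
  have hm2 : Measurable fun x : Fin 3 → ℝ => W (nr x) * ψ x ^ 2 :=
    (h.W_meas.comp nr_cont.measurable).mul (hψc.pow 2).measurable
  have hpol := lintegral_polar (F := fun x => ENNReal.ofReal
      (∑ α, (fderiv ℝ ψ x (Pi.single α 1)) ^ 2 + W (nr x) * ψ x ^ 2)) (hm1.add hm2).ennreal_ofReal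
  rw [hpol]
  have key : ∀ ω : sphere (0 : EuclideanSpace ℝ (Fin 3)) 1, ENNReal.ofReal a ≤
      ∫⁻ r in Ioi (0:ℝ), ENNReal.ofReal (r ^ 2) * ENNReal.ofReal
        (∑ α, (fderiv ℝ ψ (fun β => r * (ω : EuclideanSpace ℝ (Fin 3)) β) (Pi.single α 1)) ^ 2
          + W (nr fun β => r * (ω : EuclideanSpace ℝ (Fin 3)) β)
            * ψ (fun β => r * (ω : EuclideanSpace ℝ (Fin 3)) β) ^ 2) := by
    intro ω
    set w : Fin 3 → ℝ := fun β => (ω : EuclideanSpace ℝ (Fin 3)) β with hw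
    have hw1 : ∑ α, w α ^ 2 = 1 := by
      have h2 : ‖(ω : EuclideanSpace ℝ (Fin 3))‖ = 1 := by
        have := ω.2
        rwa [mem_sphere_zero_iff_norm] at this
      have h3 := EuclideanSpace.norm_sq_eq (ω : EuclideanSpace ℝ (Fin 3))
      rw [h2] at h3
      simp only [Real.norm_eq_abs, sq_abs] at h3
      rw [one_pow] at h3
      exact h3.symm
    have hnr : ∀ r : ℝ, 0 ≤ r → nr (fun β => r * w β) = r := by
      intro r hr
      unfold nr
      have : ∑ α, (r * w α) ^ 2 = r ^ 2 := by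
        simp_rw [mul_pow]
        rw [← Finset.mul_sum, hw1, mul_one]
      rw [this, Real.sqrt_sq hr]
    have hline : ∀ r : ℝ, HasDerivAt (fun r : ℝ => (fun β => r * w β : Fin 3 → ℝ)) w r := by
      intro r
      rw [hasDerivAt_pi]
      intro β
      simpa using (hasDerivAt_id r).mul_const (w β)
    set g : ℝ → ℝ := fun r => ψ (fun β => r * w β) with hg
    set g' : ℝ → ℝ := fun r => fderiv ℝ ψ (fun β => r * w β) w with hg'
    have hgd : ∀ r, HasDerivAt g (g' r) r := fun r =>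
      ((hψ.differentiable (by norm_num)) (fun β => r * w β)).hasFDerivAt.comp_hasDerivAt r (hline r)
    have hcl : Continuous fun r : ℝ => (fun β => r * w β : Fin 3 → ℝ) := by fun_prop
    have hg'c : Continuous g' := (hfc.comp hcl).clm_apply continuous_const
    have hgc : Continuous g := hψc.comp hcl
    have hg1 : g d = 1 := h1 _ (hnr d hd0.le)
    have hg0 : 0 < R₀ → g R₀ = 0 := by
      intro hR0
      have h3 : Tendsto g (𝓝[<] R₀) (𝓝 (g R₀)) := (hgc.tendsto R₀).mono_left nhdsWithin_le_nhds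
      have h4 : Tendsto g (𝓝[<] R₀) (𝓝 0) := by
        refine tendsto_const_nhds.congr' ?_
        have h5 : Ioo (0:ℝ) R₀ ∈ 𝓝[<] R₀ := Ioo_mem_nhdsLT hR0
        filter_upwards [h5] with r hr
        refine (h0 _ ?_).symm
        have h6 : ∑ α, (r * w α) ^ 2 = r ^ 2 := by
          simp_rw [mul_pow]
          rw [← Finset.mul_sum, hw1, mul_one]
        rw [h6]
        exact pow_lt_pow_left₀ hr.2 hr.1.le (by norm_num)
      exact tendsto_nhds_unique h3 h4
    have hb := h.ray_bound hd hgd hg'c hg1 hg0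
    have hcs : ∀ r, g' r ^ 2 ≤ ∑ α, (fderiv ℝ ψ (fun β => r * w β) (Pi.single α 1)) ^ 2 := by
      intro r
      have e1 : g' r = ∑ α, w α * fderiv ℝ ψ (fun β => r * w β) (Pi.single α 1) := by
        have e2 : w = ∑ α, w α • (Pi.single α (1:ℝ) : Fin 3 → ℝ) := by
          funext β
          simp [Finset.sum_apply, Pi.single_apply]
        simp only [hg']
        conv_lhs => rw [e2]
        rw [map_sum]
        refine Finset.sum_congr rfl fun α _ => ?_
        rw [map_smul, smul_eq_mul]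
        rw [← e2]
      rw [e1]
      refine (Finset.sum_mul_sq_le_sq_mul_sq _ _ _).trans ?_
      rw [hw1, one_mul]
    have hnn : ∀ r, 0 ≤ r ^ 2 * g' r ^ 2 + r ^ 2 * W r * g r ^ 2 := fun r => by
      have := h.W_nonneg r
      positivity
    obtain ⟨M, hM0, hM⟩ := h.exists_M
    have hint : IntervalIntegrable (fun r => r ^ 2 * g' r ^ 2 + r ^ 2 * W r * g r ^ 2) volume R₀ d := by
      have hc : IntervalIntegrable (fun r : ℝ => r ^ 2 * g' r ^ 2 + r ^ 2 * M * g r ^ 2) volume R₀ d :=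
        (Continuous.intervalIntegrable (by fun_prop) _ _)
      refine hc.mono_fun ?_ (Eventually.of_forall fun r => ?_)
      · exact ((((measurable_id.pow_const 2).mul (hg'c.measurable.pow_const 2))).add
          (((measurable_id.pow_const 2).mul h.W_meas).mul
            (hgc.measurable.pow_const 2))).aestronglyMeasurable
      · have h3 := h.W_nonneg r
        have h4 := hM r
        have h5 := hnn r
        have h6 : 0 ≤ r ^ 2 * g' r ^ 2 + r ^ 2 * M * g r ^ 2 := by positivity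
        dsimp only
        rw [Real.norm_of_nonneg h5, Real.norm_of_nonneg h6]
        gcongr
    calc ENNReal.ofReal a ≤ ENNReal.ofReal (∫ r in R₀..d, (r ^ 2 * g' r ^ 2 + r ^ 2 * W r * g r ^ 2)) :=
          ENNReal.ofReal_le_ofReal hb
      _ = ∫⁻ r in Ioc R₀ d, ENNReal.ofReal (r ^ 2 * g' r ^ 2 + r ^ 2 * W r * g r ^ 2) := by
          rw [intervalIntegral.integral_of_le hR0d,
            ofReal_integral_eq_lintegral_ofReal ((intervalIntegrable_iff_integrableOn_Ioc_of_le hR0d).1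
              hint) (Eventually.of_forall hnn)]
      _ ≤ ∫⁻ r in Ioc R₀ d, ENNReal.ofReal (r ^ 2) * ENNReal.ofReal
            (∑ α, (fderiv ℝ ψ (fun β => r * w β) (Pi.single α 1)) ^ 2
              + W (nr fun β => r * w β) * ψ (fun β => r * w β) ^ 2) := by
          refine setLIntegral_mono' measurableSet_Ioc fun r hr => ?_
          have hr0 : 0 ≤ r := h.R₀_nonneg.trans hr.1.le
          rw [← ENNReal.ofReal_mul (sq_nonneg r)]
          refine ENNReal.ofReal_le_ofReal ?_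
          rw [hnr r hr0]
          have h3 := hcs r
          calc r ^ 2 * g' r ^ 2 + r ^ 2 * W r * g r ^ 2
              = r ^ 2 * (g' r ^ 2 + W r * g r ^ 2) := by ring
            _ ≤ _ := by
              refine mul_le_mul_of_nonneg_left ?_ (sq_nonneg r)
              exact add_le_add h3 le_rfl
      _ ≤ _ := lintegral_mono_set fun r hr => h.R₀_nonneg.trans_lt hr.1
  refine le_trans ?_ (lintegral_mono key)
  rw [lintegral_const, Measure.toSphere_apply_univ]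
  have hball : (volume : Measure (EuclideanSpace ℝ (Fin 3))) (ball 0 1) ≠ ⊤ := measure_ball_lt_top.ne
  have e1 : ((Module.finrank ℝ (EuclideanSpace ℝ (Fin 3)) : ℕ) : ℝ≥0∞)
      * (volume : Measure (EuclideanSpace ℝ (Fin 3))) (ball 0 1) = ENNReal.ofReal sig := by
    unfold sig
    rw [ENNReal.ofReal_mul (by norm_num), ofReal_measureReal hball]
    congr 1
    simp
  rw [e1, mul_comm sig a, ENNReal.ofReal_mul h.a_pos.le]

/-- **The scattering length is the smallest energy**: the other half of the variational bound. -/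
theorem le_scatLen (h : Scat W R₀ R a f Q) {m : ℝ} (hm : 0 < m) {v : (Fin 3 → ℝ) → ℝ}
    (hv : Integrable v) (hv0 : ∀ x, 0 ≤ v x) {v₀ : ℝ → ℝ} (hrad : ∀ x, v x = v₀ (nr x))
    (hW : ∀ᵐ r : ℝ, 0 < r → W r ≤ m * v₀ r) :
    a ≤ scatLen m R₀ v := by
  have hπ := Real.pi_pos
  unfold scatLen
  set S : Set ℝ := {e : ℝ | ∃ ψ : (Fin 3 → ℝ) → ℝ, ContDiff ℝ 1 ψ ∧
      HasCompactSupport (fun x => ψ x - 1) ∧ (∀ x, ∑ α, x α ^ 2 < R₀ ^ 2 → ψ x = 0) ∧
      e = ∫ x, ((1 / m) * ∑ α, (fderiv ℝ ψ x (Pi.single α 1)) ^ 2 + v x * ψ x ^ 2)} with hS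
  have hne : S.Nonempty := by
    refine ⟨_, tri (1/16) f, h.tri_contDiff (by norm_num) (by norm_num),
      h.tri_support (by norm_num) (by norm_num), fun x hx => ?_, rfl⟩
    have h0 : 0 < R₀ := by
      have h1 : 0 ≤ ∑ α, x α ^ 2 := Finset.sum_nonneg fun α _ => sq_nonneg _
      have h2 : R₀ ≠ 0 := by
        rintro h3; rw [h3] at hx; norm_num at hx; linarith
      exact lt_of_le_of_ne h.R₀_nonneg (Ne.symm h2)
    have h1 : nr x ≤ R₀ := by
      unfold nr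
      rw [Real.sqrt_le_left h0.le]
      exact hx.le
    unfold tri
    rw [h.f_core _ h0 h1]
    exact HH_zero (by norm_num) (by norm_num)
  have key : ∀ e ∈ S, sig * a / m ≤ e := by
    rintro e ⟨ψ, hψ, hsupp, h0, rfl⟩
    have hψc : Continuous ψ := hψ.continuous
    have hfc : Continuous (fderiv ℝ ψ) := hψ.continuous_fderiv (by norm_num)
    have hfα : ∀ α : Fin 3, Continuous fun x => fderiv ℝ ψ x (Pi.single α 1) := fun α =>
      hfc.clm_apply continuous_const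
    -- radius
    obtain ⟨B, hB⟩ := hsupp.isCompact.isBounded.exists_norm_le
    set d : ℝ := max R (2 * |B| + 1) with hd
    have hd0 : 0 < d := h.R_pos.trans_le (le_max_left _ _)
    have h1 : ∀ x : Fin 3 → ℝ, nr x = d → ψ x = 1 := by
      intro x hx
      by_contra hcon
      have hmem : x ∈ tsupport (fun x => ψ x - 1) := by
        refine subset_tsupport _ ?_
        rw [Function.mem_support]
        exact sub_ne_zero.2 hcon
      have h2 := hB x hmem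
      have h3 : nr x ^ 2 ≤ 3 * ‖x‖ ^ 2 := by
        rw [nr_sq, Fin.sum_univ_three]
        have h4 : ∀ α : Fin 3, x α ^ 2 ≤ ‖x‖ ^ 2 := fun α => by
          rw [← sq_abs, ← Real.norm_eq_abs]
          exact pow_le_pow_left₀ (norm_nonneg _) (norm_le_pi_norm x α) 2
        linarith [h4 0, h4 1, h4 2]
      have h5 : 2 * |B| + 1 ≤ d := le_max_right _ _
      rw [hx] at h3
      have h6 : ‖x‖ ≤ |B| := h2.trans (le_abs_self B)
      have h7 : ‖x‖ ^ 2 ≤ |B| ^ 2 := pow_le_pow_left₀ (norm_nonneg _) h6 2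
      have h8 : (2 * |B| + 1) ^ 2 ≤ d ^ 2 := pow_le_pow_left₀ (by positivity) h5 2
      nlinarith [abs_nonneg B]
    have htb := h.trial_bound hψ (le_max_left R (2 * |B| + 1)) h1 h0
    -- boundedness
    obtain ⟨D, hD⟩ : ∃ D, ∀ x, ‖ψ x‖ ≤ D := by
      obtain ⟨D, hD⟩ := (hψc.sub continuous_const).bounded_above_of_compact_support hsupp
      refine ⟨D + 1, fun x => ?_⟩
      have h2 : ‖ψ x - 1‖ ≤ D := hD x
      have h3 : ‖ψ x‖ ≤ ‖ψ x - 1‖ + ‖(1:ℝ)‖ := by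
        calc ‖ψ x‖ = ‖(ψ x - 1) + 1‖ := by ring_nf
          _ ≤ _ := norm_add_le _ _
      rw [norm_one] at h3
      linarith
    have hfs : HasCompactSupport (fderiv ℝ ψ) := by
      have e1 : fderiv ℝ ψ = fderiv ℝ (fun x => ψ x - 1) := by
        funext x
        rw [fderiv_sub_const]
      rw [e1]
      exact hsupp.fderiv (𝕜 := ℝ)
    have hI1 : Integrable (fun x => ∑ α, (fderiv ℝ ψ x (Pi.single α 1)) ^ 2) := by
      refine integrable_finsetSum _ fun α _ => ?_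
      refine Continuous.integrable_of_hasCompactSupport ((hfα α).pow 2) ?_
      refine hfs.comp_left (g := fun L : (Fin 3 → ℝ) →L[ℝ] ℝ => L (Pi.single α 1) ^ 2) ?_
      simp
    have hI2 : Integrable (fun x => v x * ψ x ^ 2) := by
      refine hv.mul_bdd (c := D ^ 2) (hψc.pow 2).aestronglyMeasurable (Eventually.of_forall fun x => ?_)
      rw [norm_pow]
      exact pow_le_pow_left₀ (norm_nonneg _) (hD x) 2
    have hI3 : Integrable (fun x => ∑ α, (fderiv ℝ ψ x (Pi.single α 1)) ^ 2 + m * (v x * ψ x ^ 2)) :=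
      hI1.add (hI2.const_mul m)
    have hnn : ∀ x, 0 ≤ ∑ α, (fderiv ℝ ψ x (Pi.single α 1)) ^ 2 + m * (v x * ψ x ^ 2) := by
      intro x
      have h2 : 0 ≤ ∑ α, (fderiv ℝ ψ x (Pi.single α 1)) ^ 2 := Finset.sum_nonneg fun α _ => sq_nonneg _
      have h3 := hv0 x
      positivity
    have hint : ∫ x, (∑ α, (fderiv ℝ ψ x (Pi.single α 1)) ^ 2 + m * (v x * ψ x ^ 2))
        = m * ∫ x, ((1 / m) * ∑ α, (fderiv ℝ ψ x (Pi.single α 1)) ^ 2 + v x * ψ x ^ 2) := by
      rw [← integral_const_mul]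
      congr 1
      funext x
      field_simp
    have hmono : ∫⁻ x, ENNReal.ofReal (∑ α, (fderiv ℝ ψ x (Pi.single α 1)) ^ 2 + W (nr x) * ψ x ^ 2)
        ≤ ∫⁻ x, ENNReal.ofReal (∑ α, (fderiv ℝ ψ x (Pi.single α 1)) ^ 2 + m * (v x * ψ x ^ 2)) := by
      refine lintegral_mono_ae ?_
      have h2 : ∀ᵐ x : Fin 3 → ℝ, nr x ≠ 0 := by
        have h3 : ∀ᵐ x : Fin 3 → ℝ, x ≠ 0 := by
          rw [ae_iff]
          simp
        filter_upwards [h3] with x hx hcon
        refine hx ?_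
        have h4 := nr_sq x
        rw [hcon] at h4
        funext α
        have h5 : x α ^ 2 ≤ ∑ α, x α ^ 2 :=
          Finset.single_le_sum (f := fun α => x α ^ 2) (fun i _ => sq_nonneg _) (Finset.mem_univ α)
        have h6 : x α ^ 2 ≤ 0 := by
          rw [← h4] at h5
          linarith
        have h7 : x α ^ 2 = 0 := le_antisymm h6 (sq_nonneg _)
        simpa using h7
      filter_upwards [ae_nr hW, h2] with x hx hx0
      refine ENNReal.ofReal_le_ofReal ?_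
      have h3 := hx (lt_of_le_of_ne (nr_nonneg x) (Ne.symm hx0))
      rw [hrad x]
      have h4 := mul_le_mul_of_nonneg_right h3 (sq_nonneg (ψ x))
      linarith
    have hfin := htb.trans hmono
    rw [← ofReal_integral_eq_lintegral_ofReal hI3 (Eventually.of_forall hnn), hint] at hfin
    have h9 : 0 ≤ m * ∫ x, ((1 / m) * ∑ α, (fderiv ℝ ψ x (Pi.single α 1)) ^ 2 + v x * ψ x ^ 2) := by
      rw [← hint]
      exact integral_nonneg hnn
    have h10 := (ENNReal.ofReal_le_ofReal_iff h9).1 hfin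
    rw [div_le_iff₀ hm]
    linarith
  have h2 : sig * a / m ≤ sInf S := le_csInf hne key
  calc a = m / (4 * Real.pi) * (sig * a / m) := by rw [sig_eq]; field_simp
    _ ≤ _ := mul_le_mul_of_nonneg_left h2 (by positivity)

end Scat

end Pool.Agent.Lib.MP_4952d6_mp

end

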