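import Pool.Agent.Lib.MP_4952d6_mp.Pk.G30

/-! Merged modules (to save import time): LB.OpB, LB.OpC, LB.OpD, LB.OpE. -/

/-! ### LB.OpB -/

section

/-!
# LB.OpB: Fourier multipliers

Existence of the operator behind `DM m` for bounded `m`: `c k = m k * cf f k` is square summable, take
`exists_cf`, linearity by `cf_ext`, bound by `hasSum_norm_sq` (`LinearMap.mkContinuous`). All identities
by `cf_ext`; inner products by `hasSum_inner` and uniqueness of sums.
-/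

set_option autoImplicit false
set_option linter.unusedSectionVars false
set_option linter.unusedVariables false
open MeasureTheory Function Filter Topology Set ComplexConjugate

namespace Pool.Agent.Lib.MP_4952d6_mp.LB

variable {ι : Type*} [Fintype ι]

lemma Bdm.mul {κ : Type*} {m n : κ → ℝ} (hm : Bdm m) (hn : Bdm n) : Bdm fun k => m k * n k := by
  obtain ⟨C, hC⟩ := hm
  obtain ⟨D, hD⟩ := hn
  refine ⟨|C| * |D|, fun k => ?_⟩
  rw [abs_mul]
  exact mul_le_mul ((hC k).trans (le_abs_self C)) ((hD k).trans (le_abs_self D)) (abs_nonneg _)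
    (abs_nonneg _)

lemma Bdm.add {κ : Type*} {m n : κ → ℝ} (hm : Bdm m) (hn : Bdm n) : Bdm fun k => m k + n k := by
  obtain ⟨C, hC⟩ := hm
  obtain ⟨D, hD⟩ := hn
  exact ⟨C + D, fun k => (abs_add_le _ _).trans (add_le_add (hC k) (hD k))⟩

lemma Bdm.sub {κ : Type*} {m n : κ → ℝ} (hm : Bdm m) (hn : Bdm n) : Bdm fun k => m k - n k := by
  obtain ⟨C, hC⟩ := hm
  obtain ⟨D, hD⟩ := hn
  exact ⟨C + D, fun k => (abs_sub _ _).trans (add_le_add (hC k) (hD k))⟩

lemma Bdm.const {κ : Type*} (c : ℝ) : Bdm fun _ : κ => c := by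
  exact ⟨|c|, fun _ => le_rfl⟩

lemma Bdm.comp {κ κ' : Type*} {m : κ → ℝ} (hm : Bdm m) (φ : κ' → κ) : Bdm fun k => m (φ k) := by
  obtain ⟨C, hC⟩ := hm
  exact ⟨C, fun k => hC (φ k)⟩

lemma OpB_exists {m : (ι → Fin 3 → ℤ) → ℝ} (hm : Bdm m) :
    ∃ T : HS ι →L[ℂ] HS ι, ∀ f k, cf (T f) k = (m k : ℂ) * cf f k := by
  obtain ⟨C, hC⟩ := hm
  have hC0 : 0 ≤ C := (abs_nonneg _).trans (hC 0)
  have hb : ∀ (f : HS ι) k, ‖(m k : ℂ) * cf f k‖ ^ 2 ≤ C ^ 2 * ‖cf f k‖ ^ 2 := by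
    intro f k
    rw [norm_mul, mul_pow, Complex.norm_real, Real.norm_eq_abs]
    exact mul_le_mul_of_nonneg_right (pow_le_pow_left₀ (abs_nonneg _) (hC k) 2) (sq_nonneg _)
  have hex : ∀ f : HS ι, ∃ g : HS ι, ∀ k, cf g k = (m k : ℂ) * cf f k := fun f =>
    exists_cf _ (Summable.of_nonneg_of_le (fun k => sq_nonneg _) (hb f)
      ((hasSum_norm_sq f).summable.mul_left (C ^ 2)))
  choose S hS using hex
  let L : HS ι →ₗ[ℂ] HS ι :=
    { toFun := S
      map_add' := fun f g => cf_ext fun k => by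
        rw [cf_add, hS, hS, hS, cf_add]; ring
      map_smul' := fun c f => cf_ext fun k => by
        rw [RingHom.id_apply, cf_smul, hS, hS, cf_smul]; ring }
  refine ⟨L.mkContinuous C fun f => ?_, fun f k => hS f k⟩
  have h1 := hasSum_norm_sq (S f)
  have h2 := (hasSum_norm_sq f).mul_left (C ^ 2)
  have h3 : ‖S f‖ ^ 2 ≤ (C * ‖f‖) ^ 2 := by
    rw [mul_pow]
    refine hasSum_le (fun k => ?_) h1 h2
    rw [hS]
    exact hb f k
  exact (pow_le_pow_iff_left₀ (norm_nonneg _) (mul_nonneg hC0 (norm_nonneg _)) two_ne_zero).1 h3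

lemma cf_DM {m : (ι → Fin 3 → ℤ) → ℝ} (hm : Bdm m) (f : HS ι) (k : ι → Fin 3 → ℤ) :
    cf (DM m f) k = (m k : ℂ) * cf f k := by
  unfold DM
  rw [dif_pos (OpB_exists hm)]
  exact (OpB_exists hm).choose_spec f k

lemma DM_DM {m n : (ι → Fin 3 → ℤ) → ℝ} (hm : Bdm m) (hn : Bdm n) (f : HS ι) :
    DM m (DM n f) = DM (fun k => m k * n k) f := by
  refine cf_ext fun k => ?_
  rw [cf_DM hm, cf_DM hn, cf_DM (hm.mul hn)]
  push_cast
  ring

lemma DM_comm {m n : (ι → Fin 3 → ℤ) → ℝ} (hm : Bdm m) (hn : Bdm n) (f : HS ι) :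
    DM m (DM n f) = DM n (DM m f) := by
  refine cf_ext fun k => ?_
  rw [cf_DM hm, cf_DM hn, cf_DM hn, cf_DM hm]
  ring

lemma DM_add {m n : (ι → Fin 3 → ℤ) → ℝ} (hm : Bdm m) (hn : Bdm n) (f : HS ι) :
    DM (fun k => m k + n k) f = DM m f + DM n f := by
  refine cf_ext fun k => ?_
  rw [cf_add, cf_DM hm, cf_DM hn, cf_DM (hm.add hn)]
  push_cast
  ring

lemma DM_sub {m n : (ι → Fin 3 → ℤ) → ℝ} (hm : Bdm m) (hn : Bdm n) (f : HS ι) :
    DM (fun k => m k - n k) f = DM m f - DM n f := by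
  refine cf_ext fun k => ?_
  rw [cf_sub, cf_DM hm, cf_DM hn, cf_DM (hm.sub hn)]
  push_cast
  ring

lemma DM_one (f : HS ι) : DM (fun _ => 1) f = f := by
  refine cf_ext fun k => ?_
  rw [cf_DM (Bdm.const 1)]
  simp

lemma DM_symm {m : (ι → Fin 3 → ℤ) → ℝ} (hm : Bdm m) (f g : HS ι) :
    inner ℂ (DM m f) g = inner ℂ f (DM m g) := by
  have h1 := hasSum_inner (DM m f) g
  have h2 := hasSum_inner f (DM m g)
  have e : (fun k => conj (cf (DM m f) k) * cf g k) = fun k => conj (cf f k) * cf (DM m g) k := by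
    funext k
    rw [cf_DM hm, cf_DM hm, map_mul, Complex.conj_ofReal]
    ring
  rw [e] at h1
  exact h1.unique h2

lemma hasSum_DM_norm {m : (ι → Fin 3 → ℤ) → ℝ} (hm : Bdm m) (f : HS ι) :
    HasSum (fun k => m k ^ 2 * ‖cf f k‖ ^ 2) (‖DM m f‖ ^ 2) := by
  have h := hasSum_norm_sq (DM m f)
  have e : (fun k => ‖cf (DM m f) k‖ ^ 2) = fun k => m k ^ 2 * ‖cf f k‖ ^ 2 := by
    funext k
    rw [cf_DM hm, norm_mul, mul_pow, Complex.norm_real, Real.norm_eq_abs, sq_abs]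
  rwa [e] at h

lemma norm_DM_le {m : (ι → Fin 3 → ℤ) → ℝ} {C : ℝ} (hm : ∀ k, |m k| ≤ C) (f : HS ι) :
    ‖DM m f‖ ≤ C * ‖f‖ := by
  have hC : 0 ≤ C := (abs_nonneg _).trans (hm 0)
  have h1 := hasSum_DM_norm ⟨C, hm⟩ f
  have h2 := (hasSum_norm_sq f).mul_left (C ^ 2)
  have h3 : ‖DM m f‖ ^ 2 ≤ (C * ‖f‖) ^ 2 := by
    rw [mul_pow]
    refine hasSum_le (fun k => ?_) h1 h2
    refine mul_le_mul_of_nonneg_right ?_ (sq_nonneg _)
    rw [← sq_abs (m k)]
    exact pow_le_pow_left₀ (abs_nonneg _) (hm k) 2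
  exact (pow_le_pow_iff_left₀ (norm_nonneg _) (mul_nonneg hC (norm_nonneg _)) two_ne_zero).1 h3

lemma hasSum_inner_DM {m : (ι → Fin 3 → ℤ) → ℝ} (hm : Bdm m) (f : HS ι) :
    HasSum (fun k => m k * ‖cf f k‖ ^ 2) (inner ℂ f (DM m f)).re := by
  have h := hasSum_inner_re f (DM m f)
  have e : (fun k => (conj (cf f k) * cf (DM m f) k).re) = fun k => m k * ‖cf f k‖ ^ 2 := by
    funext k
    rw [cf_DM hm]
    have : conj (cf f k) * ((m k : ℂ) * cf f k) = ((m k * ‖cf f k‖ ^ 2 : ℝ) : ℂ) := by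
      have h2 : conj (cf f k) * cf f k = ((‖cf f k‖ ^ 2 : ℝ) : ℂ) := by
        rw [mul_comm, Complex.mul_conj, Complex.normSq_eq_norm_sq]
      rw [Complex.ofReal_mul, ← h2]
      ring
    rw [this, Complex.ofReal_re]
  rwa [e] at h

/-- monotonicity of the quadratic form -/
lemma inner_DM_mono {m n : (ι → Fin 3 → ℤ) → ℝ} (hm : Bdm m) (hn : Bdm n) (h : ∀ k, m k ≤ n k)
    (f : HS ι) : (inner ℂ f (DM m f)).re ≤ (inner ℂ f (DM n f)).re := by
  exact hasSum_le (fun k => mul_le_mul_of_nonneg_right (h k) (sq_nonneg _))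
    (hasSum_inner_DM hm f) (hasSum_inner_DM hn f)

end Pool.Agent.Lib.MP_4952d6_mp.LB

end

/-! ### LB.OpC -/

section

/-!
# LB.OpC: multiplication operators and quadratic forms

Existence behind `MB G` for `BMC G`: `fun x => G x * f x` is in `L²` (`MemLp.of_le_mul`), take `toLp`;
linear, bounded by the sup of `|G|` (`LinearMap.mkContinuous`, `Lp.norm_le_mul_norm_of_ae_le_mul`).
Identities: two elements of `Lp` which are a.e. equal are equal (`Lp.ext`). `qf` is an honest integral of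
an integrable function when `G` is `BM` (`integrable_norm_sq` times a bounded measurable function).
-/

set_option autoImplicit false
set_option linter.unusedSectionVars false
set_option linter.unusedVariables false
open MeasureTheory Function Filter Topology Set ComplexConjugate

namespace Pool.Agent.Lib.MP_4952d6_mp.LB

variable {ι : Type*} [Fintype ι]

lemma bmc_of_bm {G : (ι → T3) → ℝ} (hG : BM G) : BMC fun x => ((G x : ℝ) : ℂ) := by
  obtain ⟨hm, C, hC⟩ := hG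
  refine ⟨(Complex.measurable_ofReal.comp hm).stronglyMeasurable, C, fun x => ?_⟩
  rw [Complex.norm_real, Real.norm_eq_abs]
  exact hC x

lemma BMC.mul {G G' : (ι → T3) → ℂ} (hG : BMC G) (hG' : BMC G') : BMC fun x => G x * G' x := by
  obtain ⟨hm, C, hC⟩ := hG
  obtain ⟨hm', C', hC'⟩ := hG'
  refine ⟨hm.mul hm', C * C', fun x => ?_⟩
  rw [norm_mul]
  exact mul_le_mul (hC x) (hC' x) (norm_nonneg _) ((norm_nonneg _).trans (hC x))

lemma BMC.conj' {G : (ι → T3) → ℂ} (hG : BMC G) : BMC fun x => conj (G x) := by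
  obtain ⟨hm, C, hC⟩ := hG
  refine ⟨(Complex.continuous_conj.comp_stronglyMeasurable hm), C, fun x => ?_⟩
  rw [RCLike.norm_conj]
  exact hC x

lemma OpC_memLp {G : (ι → T3) → ℂ} (hG : BMC G) (f : HS ι) :
    MemLp (fun x => G x * f x) 2 (piN ι) := by
  obtain ⟨hm, C, hC⟩ := hG
  refine (Lp.memLp f).of_le_mul (c := C)
    (hm.aestronglyMeasurable.mul (Lp.aestronglyMeasurable f)) (Eventually.of_forall fun x => ?_)
  rw [norm_mul]
  exact mul_le_mul_of_nonneg_right (hC x) (norm_nonneg _)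

lemma OpC_exists {G : (ι → T3) → ℂ} (hG : BMC G) :
    ∃ T : HS ι →L[ℂ] HS ι, ∀ f : HS ι, (T f : (ι → T3) → ℂ) =ᵐ[piN ι] fun x => G x * f x := by
  let L : HS ι →ₗ[ℂ] HS ι :=
    { toFun := fun f => (OpC_memLp hG f).toLp _
      map_add' := fun f g => by
        apply Lp.ext
        filter_upwards [(OpC_memLp hG (f + g)).coeFn_toLp, (OpC_memLp hG f).coeFn_toLp,
          (OpC_memLp hG g).coeFn_toLp, Lp.coeFn_add f g,
          Lp.coeFn_add ((OpC_memLp hG f).toLp _) ((OpC_memLp hG g).toLp _)] with x h1 h2 h3 h4 h5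
        rw [h1, h5, Pi.add_apply, h2, h3, h4, Pi.add_apply, mul_add]
      map_smul' := fun c f => by
        apply Lp.ext
        filter_upwards [(OpC_memLp hG (c • f)).coeFn_toLp, (OpC_memLp hG f).coeFn_toLp,
          Lp.coeFn_smul c f, Lp.coeFn_smul c ((OpC_memLp hG f).toLp _)] with x h1 h2 h3 h4
        rw [h1, RingHom.id_apply, h4, Pi.smul_apply, h2, h3, Pi.smul_apply, smul_eq_mul, smul_eq_mul]
        ring }
  obtain ⟨C, hC⟩ := hG.2
  have hb : ∀ f, ‖L f‖ ≤ C * ‖f‖ := by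
    intro f
    apply Lp.norm_le_mul_norm_of_ae_le_mul
    filter_upwards [(OpC_memLp hG f).coeFn_toLp] with x hx
    have : (L f : (ι → T3) → ℂ) x = G x * f x := hx
    rw [this, norm_mul]
    exact mul_le_mul_of_nonneg_right (hC x) (norm_nonneg _)
  exact ⟨L.mkContinuous C hb, fun f => (OpC_memLp hG f).coeFn_toLp⟩

lemma MB_ae {G : (ι → T3) → ℂ} (hG : BMC G) (f : HS ι) :
    (MB G f : (ι → T3) → ℂ) =ᵐ[piN ι] fun x => G x * f x := by
  unfold MB
  rw [dif_pos (OpC_exists hG)]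
  exact (OpC_exists hG).choose_spec f

lemma MB_MB {G G' : (ι → T3) → ℂ} (hG : BMC G) (hG' : BMC G') (f : HS ι) :
    MB G (MB G' f) = MB (fun x => G x * G' x) f := by
  apply Lp.ext
  filter_upwards [MB_ae hG (MB G' f), MB_ae hG' f, MB_ae (hG.mul hG') f] with x h1 h2 h3
  rw [h1, h2, h3, mul_assoc]

lemma MB_comm {G G' : (ι → T3) → ℂ} (hG : BMC G) (hG' : BMC G') (f : HS ι) :
    MB G (MB G' f) = MB G' (MB G f) := by
  rw [MB_MB hG hG', MB_MB hG' hG]
  congr 2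
  funext x
  ring

lemma OpC_add {G G' : (ι → T3) → ℂ} (hG : BMC G) (hG' : BMC G') : BMC fun x => G x + G' x := by
  obtain ⟨hm, C, hC⟩ := hG
  obtain ⟨hm', C', hC'⟩ := hG'
  refine ⟨hm.add hm', C + C', fun x => ?_⟩
  exact (norm_add_le _ _).trans (add_le_add (hC x) (hC' x))

lemma MB_add_fun {G G' : (ι → T3) → ℂ} (hG : BMC G) (hG' : BMC G') (f : HS ι) :
    MB (fun x => G x + G' x) f = MB G f + MB G' f := by
  apply Lp.ext
  filter_upwards [MB_ae (OpC_add hG hG') f, MB_ae hG f, MB_ae hG' f,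
    Lp.coeFn_add (MB G f) (MB G' f)] with x h1 h2 h3 h4
  rw [h1, h4, Pi.add_apply, h2, h3, add_mul]

/-- adjoint -/
lemma MB_adj {G : (ι → T3) → ℂ} (hG : BMC G) (f g : HS ι) :
    inner ℂ (MB G f) g = inner ℂ f (MB (fun x => conj (G x)) g) := by
  rw [L2.inner_def, L2.inner_def]
  apply integral_congr_ae
  filter_upwards [MB_ae hG f, MB_ae hG.conj' g] with x h1 h2
  rw [h1, h2, RCLike.inner_apply', RCLike.inner_apply', map_mul]
  ring

lemma MB_symm {G : (ι → T3) → ℝ} (hG : BM G) (f g : HS ι) :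
    inner ℂ (MB (fun x => ((G x : ℝ) : ℂ)) f) g = inner ℂ f (MB (fun x => ((G x : ℝ) : ℂ)) g) := by
  rw [MB_adj (bmc_of_bm hG)]
  simp only [Complex.conj_ofReal]

lemma norm_MB_le {G : (ι → T3) → ℂ} (hG : BMC G) {C : ℝ} (hC0 : 0 ≤ C) (hC : ∀ x, ‖G x‖ ≤ C)
    (f : HS ι) : ‖MB G f‖ ≤ C * ‖f‖ := by
  apply Lp.norm_le_mul_norm_of_ae_le_mul
  filter_upwards [MB_ae hG f] with x hx
  rw [hx, norm_mul]
  exact mul_le_mul_of_nonneg_right (hC x) (norm_nonneg _)

lemma qf_int {G : (ι → T3) → ℝ} (hG : BM G) (f : HS ι) :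
    Integrable (fun x => G x * ‖f x‖ ^ 2) (piN ι) := by
  obtain ⟨hm, C, hC⟩ := hG
  exact (integrable_norm_sq f).bdd_mul hm.aestronglyMeasurable
    (Eventually.of_forall fun x => by rw [Real.norm_eq_abs]; exact hC x)

lemma OpC_inner {G : (ι → T3) → ℝ} (hG : BM G) (f g : HS ι) :
    Integrable (fun x => G x * (conj (f x) * g x).re) (piN ι) ∧
    (inner ℂ f (MB (fun x => ((G x : ℝ) : ℂ)) g)).re = ∫ x, G x * (conj (f x) * g x).re ∂(piN ι) := by
  have hint : Integrable (fun x => inner ℂ (f x) ((MB (fun x => ((G x : ℝ) : ℂ)) g) x)) (piN ι) :=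
    L2.integrable_inner f _
  have hae : (fun x => (inner ℂ (f x) ((MB (fun x => ((G x : ℝ) : ℂ)) g) x)).re) =ᵐ[piN ι]
      fun x => G x * (conj (f x) * g x).re := by
    filter_upwards [MB_ae (bmc_of_bm hG) g] with x hx
    rw [hx, RCLike.inner_apply']
    have : conj (f x) * (((G x : ℝ) : ℂ) * g x) = ((G x : ℝ) : ℂ) * (conj (f x) * g x) := by ring
    rw [this, Complex.re_ofReal_mul]
  refine ⟨hint.re.congr hae, ?_⟩
  rw [L2.inner_def]
  have h1 : (∫ x, inner ℂ (f x) ((MB (fun x => ((G x : ℝ) : ℂ)) g) x) ∂(piN ι)).re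
      = ∫ x, (inner ℂ (f x) ((MB (fun x => ((G x : ℝ) : ℂ)) g) x)).re ∂(piN ι) := by
    have := integral_re (𝕜 := ℂ) hint
    exact this.symm
  rw [h1]
  exact integral_congr_ae hae

lemma qf_eq {G : (ι → T3) → ℝ} (hG : BM G) (f : HS ι) :
    qf G f = (inner ℂ f (MB (fun x => ((G x : ℝ) : ℂ)) f)).re := by
  rw [(OpC_inner hG f f).2]
  unfold qf
  congr 1
  funext x
  rw [← Complex.normSq_eq_conj_mul_self, Complex.ofReal_re, Complex.normSq_eq_norm_sq]

lemma qf_nonneg {G : (ι → T3) → ℝ} (hG : ∀ x, 0 ≤ G x) (f : HS ι) : 0 ≤ qf G f := by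
  unfold qf
  exact integral_nonneg fun x => mul_nonneg (hG x) (sq_nonneg _)

lemma qf_mono {G G' : (ι → T3) → ℝ} (hG : BM G) (hG' : BM G') (h : ∀ᵐ x ∂(piN ι), G x ≤ G' x)
    (f : HS ι) : qf G f ≤ qf G' f := by
  unfold qf
  apply integral_mono_ae (qf_int hG f) (qf_int hG' f)
  filter_upwards [h] with x hx
  exact mul_le_mul_of_nonneg_right hx (sq_nonneg _)

lemma qf_const (c : ℝ) (f : HS ι) : qf (fun _ => c) f = c * ‖f‖ ^ 2 := by
  unfold qf
  rw [integral_const_mul, norm_sq_eq]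

lemma qf_smul (c : ℝ) (G : (ι → T3) → ℝ) (f : HS ι) : qf (fun x => c * G x) f = c * qf G f := by
  unfold qf
  rw [← integral_const_mul]
  congr 1
  funext x
  ring

lemma qf_add_fun {G G' : (ι → T3) → ℝ} (hG : BM G) (hG' : BM G') (f : HS ι) :
    qf (fun x => G x + G' x) f = qf G f + qf G' f := by
  unfold qf
  rw [← integral_add (qf_int hG f) (qf_int hG' f)]
  congr 1
  funext x
  ring

lemma qf_sub_fun {G G' : (ι → T3) → ℝ} (hG : BM G) (hG' : BM G') (f : HS ι) :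
    qf (fun x => G x - G' x) f = qf G f - qf G' f := by
  unfold qf
  rw [← integral_sub (qf_int hG f) (qf_int hG' f)]
  congr 1
  funext x
  ring

lemma qf_sum {κ : Type*} (s : Finset κ) {G : κ → (ι → T3) → ℝ} (hG : ∀ i ∈ s, BM (G i))
    (f : HS ι) : qf (fun x => ∑ i ∈ s, G i x) f = ∑ i ∈ s, qf (G i) f := by
  unfold qf
  rw [← integral_finsetSum s (fun i hi => qf_int (hG i hi) f)]
  congr 1
  funext x
  rw [Finset.sum_mul]

/-- exact expansion -/
lemma OpC_add_eq {G : (ι → T3) → ℝ} (hG : BM G) (f g : HS ι) :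
    qf G (f + g) = qf G f + qf G g
      + 2 * (inner ℂ f (MB (fun x => ((G x : ℝ) : ℂ)) g)).re := by
  rw [qf_eq hG, qf_eq hG, qf_eq hG, map_add, inner_add_left, inner_add_right, inner_add_right]
  have h1 : inner ℂ g (MB (fun x => ((G x : ℝ) : ℂ)) f)
      = conj (inner ℂ f (MB (fun x => ((G x : ℝ) : ℂ)) g)) := by
    rw [inner_conj_symm, MB_symm hG]
  rw [h1]
  simp only [Complex.add_re, Complex.conj_re]
  ring

lemma OpC_neg (G : (ι → T3) → ℝ) (f : HS ι) : qf G (-f) = qf G f := by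
  unfold qf
  apply integral_congr_ae
  filter_upwards [Lp.coeFn_neg f] with x hx
  rw [hx, Pi.neg_apply, norm_neg]

/-- `|f+g|² ≤ 2|f|² + 2|g|²` -/
lemma qf_add_le {G : (ι → T3) → ℝ} (hG : BM G) (hG0 : ∀ x, 0 ≤ G x) (f g : HS ι) :
    qf G (f + g) ≤ 2 * qf G f + 2 * qf G g := by
  have h1 := OpC_add_eq hG f g
  have h2 := OpC_add_eq hG f (-g)
  rw [OpC_neg, map_neg, inner_neg_right, Complex.neg_re] at h2
  have h3 := qf_nonneg hG0 (f + -g)
  linarith

lemma qf_sub_le {G : (ι → T3) → ℝ} (hG : BM G) (hG0 : ∀ x, 0 ≤ G x) (f g : HS ι) :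
    qf G (f - g) ≤ 2 * qf G f + 2 * qf G g := by
  have h := qf_add_le hG hG0 f (-g)
  rwa [OpC_neg, ← sub_eq_add_neg] at h

/-- exact expansion -/
lemma qf_add_eq {G : (ι → T3) → ℝ} (hG : BM G) (f g : HS ι) :
    qf G (f + g) = qf G f + qf G g
      + 2 * (inner ℂ f (MB (fun x => ((G x : ℝ) : ℂ)) g)).re := OpC_add_eq hG f g

/-- weighted Cauchy-Schwarz; `G'` is dominated by `G` -/
lemma abs_inner_MB_le {G G' : (ι → T3) → ℝ} (hG : BM G) (hG' : BM G')
    (h : ∀ᵐ x ∂(piN ι), |G' x| ≤ G x) {c : ℝ} (hc : 0 < c) (f g : HS ι) :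
    |(inner ℂ f (MB (fun x => ((G' x : ℝ) : ℂ)) g)).re| ≤ c / 2 * qf G f + 1 / (2 * c) * qf G g := by
  rw [(OpC_inner hG' f g).2]
  have hR : c / 2 * qf G f + 1 / (2 * c) * qf G g
      = ∫ x, (c / 2 * (G x * ‖f x‖ ^ 2) + 1 / (2 * c) * (G x * ‖g x‖ ^ 2)) ∂(piN ι) := by
    unfold qf
    rw [integral_add ((qf_int hG f).const_mul _) ((qf_int hG g).const_mul _),
      integral_const_mul, integral_const_mul]
  rw [hR, ← Real.norm_eq_abs]
  refine norm_integral_le_of_norm_le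
    (((qf_int hG f).const_mul _).add ((qf_int hG g).const_mul _)) ?_
  filter_upwards [h] with x hx
  rw [Real.norm_eq_abs, abs_mul]
  have h1 : |(conj (f x) * g x).re| ≤ ‖f x‖ * ‖g x‖ := by
    refine (Complex.abs_re_le_norm _).trans ?_
    rw [norm_mul, RCLike.norm_conj]
  have h2 : ‖f x‖ * ‖g x‖ ≤ c / 2 * ‖f x‖ ^ 2 + 1 / (2 * c) * ‖g x‖ ^ 2 := by
    have h3 : c / 2 * ‖f x‖ ^ 2 + 1 / (2 * c) * ‖g x‖ ^ 2 - ‖f x‖ * ‖g x‖
        = 1 / (2 * c) * (c * ‖f x‖ - ‖g x‖) ^ 2 := by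
      field_simp
      ring
    have h4 : 0 ≤ 1 / (2 * c) * (c * ‖f x‖ - ‖g x‖) ^ 2 := by positivity
    linarith
  have hG0 : 0 ≤ G x := (abs_nonneg _).trans hx
  calc |G' x| * |(conj (f x) * g x).re| ≤ G x * (‖f x‖ * ‖g x‖) :=
        mul_le_mul hx h1 (abs_nonneg _) hG0
    _ ≤ G x * (c / 2 * ‖f x‖ ^ 2 + 1 / (2 * c) * ‖g x‖ ^ 2) := mul_le_mul_of_nonneg_left h2 hG0
    _ = c / 2 * (G x * ‖f x‖ ^ 2) + 1 / (2 * c) * (G x * ‖g x‖ ^ 2) := by ring

end Pool.Agent.Lib.MP_4952d6_mp.LB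

end

/-! ### LB.OpD -/

section

/-!
# LB.OpD: commutation of multipliers with multiplications

Matrix elements: for `k'`, the character `chN k'` is an element `e` of `HS` with `cf e k = if k = k' then
1 else 0`; `cf (MB G e) k = fc G (k - k')` (`conj (chN k) * chN k' = conj (chN (k - k'))`).
Commutation: for fixed `k` the functional `f ↦ cf (DM m (MB G f) - MB G (DM m f)) k` is
`⟪u, f⟫` with `u = MB (conj G) (DM m e_k) - DM m (MB (conj G) e_k)` (use `cf g k = ⟪e_k, g⟫`,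
`DM_symm`, `MB_adj`), and `cf u k' = (m k - m k') * fc (conj G) (k' - k)`, where
`fc (conj G) (-p) = conj (fc G p)`; so `u = 0` under the hypothesis.
-/

set_option autoImplicit false
set_option linter.unusedSectionVars false
set_option linter.unusedVariables false
open MeasureTheory Function Filter Topology Set ComplexConjugate

namespace Pool.Agent.Lib.MP_4952d6_mp.LB

variable {ι : Type*} [Fintype ι]

lemma chN_memLp (k : ι → Fin 3 → ℤ) : MemLp (chN k) 2 (piN ι) := by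
  exact MemLp.of_bound (chN_sm k).aestronglyMeasurable 1 (ae_of_all _ fun x => (chN_norm k x).le)

/-- The characters as elements of `HS`. -/
noncomputable def ek (k : ι → Fin 3 → ℤ) : HS ι := (chN_memLp k).toLp (chN k)

lemma OpD_conj_chN_sub (k k' : ι → Fin 3 → ℤ) (x : ι → T3) :
    conj (chN (k - k') x) = conj (chN k x) * chN k' x := by
  rw [sub_eq_add_neg, chN_add, chN_neg, map_mul, Complex.conj_conj]

lemma OpD_chN_zero (x : ι → T3) : chN (0 : ι → Fin 3 → ℤ) x = 1 := by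
  simp only [chN, Pi.zero_apply, ch_zero, Finset.prod_const_one]

lemma OpD_int_chN {q : ι → Fin 3 → ℤ} (hq : q ≠ 0) : ∫ x, chN q x ∂(piN ι) = 0 := by
  classical
  have := borel_config ι
  have := piN_haar ι
  obtain ⟨i, hi⟩ := Function.ne_iff.1 hq
  obtain ⟨s, hs⟩ := exists_ch_eq_neg_one hi
  have h1 : ∫ x, chN q (Pi.single i s + x) ∂(piN ι) = ∫ x, chN q x ∂(piN ι) :=
    integral_add_left_eq_self (chN q) (Pi.single i s)
  have h2 : ∀ x, chN q (Pi.single i s + x) = - chN q x := by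
    intro x
    rw [chN_add_arg, chN_single, hs, neg_one_mul]
  simp only [h2, integral_neg] at h1
  have h3 : (2 : ℂ) * ∫ x, chN q x ∂(piN ι) = 0 := by linear_combination -h1
  have h4 : (2 : ℂ) ≠ 0 := two_ne_zero
  exact (mul_eq_zero.1 h3).resolve_left h4

lemma cf_ek [DecidableEq ι] (k k' : ι → Fin 3 → ℤ) : cf (ek k') k = if k = k' then 1 else 0 := by
  unfold ek
  rw [cf_toLp]
  unfold fc
  have h1 : ∀ x, conj (chN k x) * chN k' x = chN (k' - k) x := by
    intro x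
    have h2 := OpD_conj_chN_sub k k' x
    rw [← h2, ← chN_neg, neg_sub]
  simp only [h1]
  split_ifs with h
  · subst h
    simp only [sub_self, OpD_chN_zero]
    simp
  · exact OpD_int_chN (sub_ne_zero.2 (Ne.symm h))

lemma inner_ek (k : ι → Fin 3 → ℤ) (f : HS ι) : inner ℂ (ek k) f = cf f k := by
  classical
  have h1 := hasSum_inner (ek k) f
  have h2 : HasSum (fun k' => conj (cf (ek k) k') * cf f k') (conj (cf (ek k) k) * cf f k) :=
    hasSum_single k fun k' hk' => by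
      rw [cf_ek, if_neg hk', map_zero, zero_mul]
  have h3 := h1.unique h2
  rw [h3, cf_ek, if_pos rfl, map_one, one_mul]

lemma cf_MB_ek {G : (ι → T3) → ℂ} (hG : BMC G) (k k' : ι → Fin 3 → ℤ) :
    cf (MB G (ek k')) k = fc G (k - k') := by
  have h1 : (MB G (ek k') : (ι → T3) → ℂ) =ᵐ[piN ι] fun x => G x * chN k' x := by
    filter_upwards [MB_ae hG (ek k'), (chN_memLp k').coeFn_toLp] with x hx hx'
    rw [hx]
    congr 1
  unfold cf
  rw [fc_congr h1 k]
  unfold fc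
  refine integral_congr_ae (ae_of_all _ fun x => ?_)
  simp only
  rw [OpD_conj_chN_sub]
  ring

lemma fc_conj (G : (ι → T3) → ℂ) (k : ι → Fin 3 → ℤ) :
    fc (fun x => conj (G x)) k = conj (fc G (-k)) := by
  unfold fc
  rw [← integral_conj]
  refine integral_congr_ae (ae_of_all _ fun x => ?_)
  simp only
  rw [chN_neg, map_mul, Complex.conj_conj]

theorem DM_MB_comm {m : (ι → Fin 3 → ℤ) → ℝ} (hm : Bdm m) {G : (ι → T3) → ℂ} (hG : BMC G)
    (h : ∀ k k', fc G (k - k') ≠ 0 → m k = m k') (f : HS ι) :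
    DM m (MB G f) = MB G (DM m f) := by
  refine cf_ext fun k => ?_
  set v : HS ι := MB (fun x => conj (G x)) (ek k) with hv
  have h1 : ∀ g : HS ι, cf (MB G g) k = inner ℂ v g := by
    intro g
    rw [← inner_ek, hv, MB_adj hG.conj']
    have e : (fun x => conj (conj (G x))) = G := by
      funext x
      rw [Complex.conj_conj]
    rw [e]
  have h2 : DM m v = (m k : ℂ) • v := by
    refine cf_ext fun k' => ?_
    rw [cf_DM hm, cf_smul]
    have h3 : cf v k' = conj (fc G (k - k')) := by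
      rw [hv, cf_MB_ek hG.conj', fc_conj, neg_sub]
    by_cases h4 : fc G (k - k') = 0
    · rw [h3, h4, map_zero, mul_zero, mul_zero]
    · rw [h k k' h4]
  rw [cf_DM hm, h1, h1, ← DM_symm hm, h2, inner_smul_left, Complex.conj_ofReal]

/-- multiplication by a character shifts the coefficients -/
lemma cf_MB_chN (q : ι → Fin 3 → ℤ) (f : HS ι) (k : ι → Fin 3 → ℤ) :
    cf (MB (chN q) f) k = cf f (k - q) := by
  have hq : BMC (chN q) := ⟨chN_sm q, 1, fun x => (chN_norm q x).le⟩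
  unfold cf
  rw [fc_congr (MB_ae hq f) k]
  unfold fc
  refine integral_congr_ae (ae_of_all _ fun x => ?_)
  simp only
  rw [OpD_conj_chN_sub]
  ring

end Pool.Agent.Lib.MP_4952d6_mp.LB

end

/-! ### LB.OpE -/

section

/-!
# LB.OpE: pair multiplications `HP h j l` and one particle multipliers `S1 φ j`

`fc (fun x => h (x j - x l)) k` vanishes unless `k j + k l = 0` and all other components vanish
(Lib HardCore.lean: `J_zero_other`, `J_zero_sum`, applied to `m = -k`: `conj (chN k) = chN (-k)`).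
`cf_HP_zero` is `fc_mul_diff` of HardCore.lean. `pr j l k` sets the components `j`, `l` to zero.
-/

set_option autoImplicit false
set_option linter.unusedSectionVars false
set_option linter.unusedVariables false
open MeasureTheory Function Filter Topology Set ComplexConjugate

namespace Pool.Agent.Lib.MP_4952d6_mp.LB

variable {ι : Type*} [Fintype ι] [DecidableEq ι]

lemma bm_diff {h : T3 → ℝ} (hh : BM h) (j l : ι) : BM (fun x : ι → T3 => h (x j - x l)) := by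
  by_cases hjl : j = l
  · subst hjl
    have h1 : (fun x : ι → T3 => h (x j - x j)) = fun _ => h 0 := by
      funext x
      rw [sub_self]
    rw [h1]
    exact BM.const _
  · exact hh.comp (mp_diff hjl).measurable

lemma fc_diff_zero {h : T3 → ℝ} (hh : BM h) {j l : ι} (hjl : j ≠ l) (k : ι → Fin 3 → ℤ)
    (hk : ¬ (k j + k l = 0 ∧ ∀ i, i ≠ j → i ≠ l → k i = 0)) :
    fc (fun x => ((h (x j - x l) : ℝ) : ℂ)) k = 0 := by
  have h0 : fc (fun x => ((h (x j - x l) : ℝ) : ℂ)) k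
      = ∫ x, chN (-k) x * ((h (x j - x l) : ℝ) : ℂ) ∂(piN ι) := by
    unfold fc
    refine integral_congr_ae (Eventually.of_forall fun x => ?_)
    show conj (chN k x) * ((h (x j - x l) : ℝ) : ℂ) = chN (-k) x * ((h (x j - x l) : ℝ) : ℂ)
    rw [chN_neg]
  rw [h0]
  by_cases h1 : k j + k l = 0
  · have h2 : ∃ i, i ≠ j ∧ i ≠ l ∧ k i ≠ 0 := by
      by_contra h3
      push Not at h3
      exact hk ⟨h1, h3⟩
    obtain ⟨i, hij, hil, hi⟩ := h2
    exact J_zero_other (fun y => ((h y : ℝ) : ℂ)) hij hil (-k) (by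
      rw [Pi.neg_apply]
      exact neg_ne_zero.mpr hi)
  · refine J_zero_sum (fun y => ((h y : ℝ) : ℂ)) hjl (-k) ?_
    rw [Pi.neg_apply, Pi.neg_apply, ← neg_add]
    exact neg_ne_zero.mpr h1

/-- a multiplier depending on `k j + k l` and the other components only commutes with `HP h j l` -/
theorem DM_HP_comm {h : T3 → ℝ} (hh : BM h) {j l : ι} (hjl : j ≠ l)
    {m : (ι → Fin 3 → ℤ) → ℝ} (hm : Bdm m)
    (hinv : ∀ k k' : ι → Fin 3 → ℤ, k j + k l = k' j + k' l → (∀ i, i ≠ j → i ≠ l → k i = k' i) →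
      m k = m k') (f : HS ι) : DM m (HP h j l f) = HP h j l (DM m f) := by
  unfold HP
  refine DM_MB_comm hm (bmc_of_bm (bm_diff hh j l)) (fun k k' hne => ?_) f
  have h1 : (k - k') j + (k - k') l = 0 ∧ ∀ i, i ≠ j → i ≠ l → (k - k') i = 0 := by
    by_contra h2
    exact hne (fc_diff_zero hh hjl (k - k') h2)
  refine hinv k k' ?_ (fun i hij hil => ?_)
  · have h2 := h1.1
    rw [Pi.sub_apply, Pi.sub_apply, sub_add_sub_comm] at h2
    exact sub_eq_zero.mp h2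
  · have h2 := h1.2 i hij hil
    rw [Pi.sub_apply] at h2
    exact sub_eq_zero.mp h2

lemma S1_HP_comm {h : T3 → ℝ} (hh : BM h) {j l : ι} (hjl : j ≠ l) {i : ι} (hij : i ≠ j)
    (hil : i ≠ l) {φ : (Fin 3 → ℤ) → ℝ} (hφ : Bdm φ) (f : HS ι) :
    S1 φ i (HP h j l f) = HP h j l (S1 φ i f) := by
  exact DM_HP_comm hh hjl (hφ.comp (fun k : ι → Fin 3 → ℤ => k i))
    (fun k k' _ h1 => by rw [h1 i hij hil]) f

lemma HP_symm {h : T3 → ℝ} (hh : BM h) (j l : ι) (f g : HS ι) :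
    inner ℂ (HP h j l f) g = inner ℂ f (HP h j l g) := by
  exact MB_symm (bm_diff hh j l) f g

lemma HP_HP_comm {h h' : T3 → ℝ} (hh : BM h) (hh' : BM h') (j l j' l' : ι) (f : HS ι) :
    HP h j l (HP h' j' l' f) = HP h' j' l' (HP h j l f) := by
  exact MB_comm (bmc_of_bm (bm_diff hh j l)) (bmc_of_bm (bm_diff hh' j' l')) f

lemma HP_mul {h h' : T3 → ℝ} (hh : BM h) (hh' : BM h') (j l : ι) (f : HS ι) :
    HP h j l (HP h' j l f) = HP (fun z => h z * h' z) j l f := by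
  unfold HP
  rw [MB_MB (bmc_of_bm (bm_diff hh j l)) (bmc_of_bm (bm_diff hh' j l)) f]
  have h1 : (fun x : ι → T3 => ((h (x j - x l) : ℝ) : ℂ) * ((h' (x j - x l) : ℝ) : ℂ))
      = fun x => ((h (x j - x l) * h' (x j - x l) : ℝ) : ℂ) := by
    funext x
    rw [Complex.ofReal_mul]
  rw [h1]

lemma HP_sub {h h' : T3 → ℝ} (hh : BM h) (hh' : BM h') (j l : ι) (f : HS ι) :
    HP (fun z => h z - h' z) j l f = HP h j l f - HP h' j l f := by
  rw [eq_sub_iff_add_eq]
  unfold HP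
  rw [← MB_add_fun (bmc_of_bm (bm_diff (hh.sub hh') j l)) (bmc_of_bm (bm_diff hh' j l)) f]
  have h1 : (fun x : ι → T3 => ((h (x j - x l) - h' (x j - x l) : ℝ) : ℂ) + ((h' (x j - x l) : ℝ) : ℂ))
      = fun x => ((h (x j - x l) : ℝ) : ℂ) := by
    funext x
    rw [← Complex.ofReal_add, sub_add_cancel]
  rw [h1]

lemma HP_swap {h : T3 → ℝ} (he : ∀ z, h (-z) = h z) (j l : ι) : HP h j l = HP h l j := by
  unfold HP
  have h1 : (fun x : ι → T3 => ((h (x j - x l) : ℝ) : ℂ)) = fun x => ((h (x l - x j) : ℝ) : ℂ) := by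
    funext x
    rw [← he (x j - x l), neg_sub]
  rw [h1]

/-- Coefficients of `h_{jl} f` for `f` constant in `x_j`, `x_l`. -/
lemma cf_HP_zero {h : T3 → ℝ} (hh : BM h) {j l : ι} (hjl : j ≠ l) {f : HS ι}
    (hf : ∀ k : ι → Fin 3 → ℤ, ¬ (k j = 0 ∧ k l = 0) → cf f k = 0) (k : ι → Fin 3 → ℤ) :
    cf (HP h j l f) k
      = if k j + k l = 0 then fc3 (fun y => (h y : ℂ)) (k j) * cf f (pr j l k) else 0 := by
  have h1 : cf (HP h j l f) k = fc (fun x => (h (x j - x l) : ℂ) * f x) k :=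
    fc_congr (MB_ae (bmc_of_bm (bm_diff hh j l)) f) k
  rw [h1]
  exact fc_mul_diff hh hjl (Lp.memLp f) hf k

/-! ### one particle multipliers -/

lemma cf_S1 {φ : (Fin 3 → ℤ) → ℝ} (hφ : Bdm φ) (j : ι) (f : HS ι) (k : ι → Fin 3 → ℤ) :
    cf (S1 φ j f) k = (φ (k j) : ℂ) * cf f k := by
  exact cf_DM (hφ.comp (fun k : ι → Fin 3 → ℤ => k j)) f k

lemma S1_comm {φ φ' : (Fin 3 → ℤ) → ℝ} (hφ : Bdm φ) (hφ' : Bdm φ') (j l : ι) (f : HS ι) :
    S1 φ j (S1 φ' l f) = S1 φ' l (S1 φ j f) := by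
  exact DM_comm (hφ.comp (fun k : ι → Fin 3 → ℤ => k j)) (hφ'.comp (fun k : ι → Fin 3 → ℤ => k l)) f

lemma S1_S1 {φ φ' : (Fin 3 → ℤ) → ℝ} (hφ : Bdm φ) (hφ' : Bdm φ') (j : ι) (f : HS ι) :
    S1 φ j (S1 φ' j f) = S1 (fun p => φ p * φ' p) j f := by
  exact DM_DM (hφ.comp (fun k : ι → Fin 3 → ℤ => k j)) (hφ'.comp (fun k : ι → Fin 3 → ℤ => k j)) f

lemma S1_sub {φ φ' : (Fin 3 → ℤ) → ℝ} (hφ : Bdm φ) (hφ' : Bdm φ') (j : ι) (f : HS ι) :
    S1 (fun p => φ p - φ' p) j f = S1 φ j f - S1 φ' j f := by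
  exact DM_sub (hφ.comp (fun k : ι → Fin 3 → ℤ => k j)) (hφ'.comp (fun k : ι → Fin 3 → ℤ => k j)) f

lemma S1_symm {φ : (Fin 3 → ℤ) → ℝ} (hφ : Bdm φ) (j : ι) (f g : HS ι) :
    inner ℂ (S1 φ j f) g = inner ℂ f (S1 φ j g) := by
  exact DM_symm (hφ.comp (fun k : ι → Fin 3 → ℤ => k j)) f g

lemma norm_S1_le {φ : (Fin 3 → ℤ) → ℝ} {C : ℝ} (hC : ∀ p, |φ p| ≤ C) (j : ι) (f : HS ι) :
    ‖S1 φ j f‖ ≤ C * ‖f‖ := by
  exact norm_DM_le (fun k : ι → Fin 3 → ℤ => hC (k j)) f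

/-- On `h_{jl} f` with `f` constant in `x_j`, `x_l`, the momenta of `j` and `l` are opposite. -/
lemma S1_HP_zero {h : T3 → ℝ} (hh : BM h) {j l : ι} (hjl : j ≠ l) {f : HS ι}
    (hf : ∀ k : ι → Fin 3 → ℤ, ¬ (k j = 0 ∧ k l = 0) → cf f k = 0)
    {φ φ' : (Fin 3 → ℤ) → ℝ} (hφ : Bdm φ) (hφ' : Bdm φ') (he : ∀ p, φ' p = φ (-p)) :
    S1 φ' l (HP h j l f) = S1 φ j (HP h j l f) := by
  apply cf_ext
  intro k
  rw [cf_S1 hφ', cf_S1 hφ, cf_HP_zero hh hjl hf]
  by_cases hk : k j + k l = 0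
  · have h1 : -k l = k j := by
      rw [eq_comm, eq_neg_iff_add_eq_zero]
      exact hk
    rw [he, h1]
  · rw [if_neg hk, mul_zero, mul_zero]

end Pool.Agent.Lib.MP_4952d6_mp.LB

end

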