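import Pool.Agent.Lib.MP_4952d6_mp.Pk.G30
import Pool.Agent.Lib.MP_4952d6_mp.Pk.G31

/-! Merged modules (to save import time): LB.Mul, LB.Alg, LB.Sqr. -/

/-! ### LB.Mul -/

section

/-!
# LB.Mul: elementary facts on the multipliers

`ksq p = 4 π² |p|²`, `et t p = exp(-t/2 ksq p)`. Everything follows from `1 - e^{-x} ≤ x`,
`0 < e^{-x} ≤ 1` for `x ≥ 0`, and `ksq p > 0` for `p ≠ 0`. `mode_ineq` is the completed square: with
`D = (1-η²) q - 2 (e/t) (1-η)²`, `q = ksq p`, one has `D ≥ (1-e)(1-η²) q > 0` because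
`(1-η)/q ≤ t/2`; `D |c|² + Re(conj c W) ≥ -|W|²/(4D)`; `1/D = 1/D₀ + Δ`, `D₀ = (1-η²) q`,
`0 ≤ Δ ≤ 2 e/D₀` and `Δ ≤ (4 e/t)/q²` (here `e ≤ 1/2`); expand
`|W|² = (1-η²)²|a|² + 2(1-η²)(1-η) Re(conj a b) + (1-η)²|b|²` in the part `1/D₀`, and use
`|W|² ≤ 2(1-η²)²|a|² + 2(1-η)²|b|²` in the part `Δ`; `(1-η)²/D₀ = (1-η)/((1+η) q) ≤ kap t p`.
-/

set_option autoImplicit false
set_option linter.unusedSectionVars false
set_option linter.unusedVariables false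
open MeasureTheory Function Filter Topology Set ComplexConjugate

namespace Pool.Agent.Lib.MP_4952d6_mp.LB

lemma ksq_nonneg (p : Fin 3 → ℤ) : 0 ≤ ksq p := by
  unfold ksq
  have := mom2_nonneg p
  positivity

lemma Mul_one_le_mom2 {p : Fin 3 → ℤ} (hp : p ≠ 0) : 1 ≤ mom2 p := by
  obtain ⟨α, hα⟩ := Function.ne_iff.mp hp
  have h1 : (1 : ℝ) ≤ (p α : ℝ) ^ 2 := by
    have h2 : (1 : ℤ) ≤ (p α) ^ 2 := by
      have : p α ≠ 0 := hα
      have h3 : 0 < (p α) ^ 2 := by positivity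
      omega
    exact_mod_cast h2
  unfold mom2
  exact h1.trans (Finset.single_le_sum (f := fun α => (p α : ℝ) ^ 2) (fun β _ => sq_nonneg _)
    (Finset.mem_univ α))

/-- nonzero momenta: `ksq p ≥ 1` -/
lemma one_le_ksq {p : Fin 3 → ℤ} (hp : p ≠ 0) : 1 ≤ ksq p := by
  unfold ksq
  have h1 := Mul_one_le_mom2 hp
  have h2 := Real.pi_gt_three
  nlinarith [mul_pos Real.pi_pos Real.pi_pos]

lemma ksq_pos {p : Fin 3 → ℤ} (hp : p ≠ 0) : 0 < ksq p :=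
  lt_of_lt_of_le one_pos (one_le_ksq hp)

lemma ksq_zero : ksq 0 = 0 := by
  unfold ksq
  rw [mom2_zero, mul_zero]

lemma ksq_neg (p : Fin 3 → ℤ) : ksq (-p) = ksq p := by
  unfold ksq mom2
  simp

lemma et_pos (t : ℝ) (p : Fin 3 → ℤ) : 0 < et t p := Real.exp_pos _

lemma et_le_one {t : ℝ} (ht : 0 ≤ t) (p : Fin 3 → ℤ) : et t p ≤ 1 := by
  unfold et
  rw [Real.exp_le_one_iff]
  have := ksq_nonneg p
  have : 0 ≤ t / 2 * ksq p := by positivity
  linarith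

lemma et_zero (t : ℝ) : et t 0 = 1 := by
  unfold et
  rw [ksq_zero]
  simp

lemma et_neg (t : ℝ) (p : Fin 3 → ℤ) : et t (-p) = et t p := by
  unfold et
  rw [ksq_neg]

lemma Mul_one_sub_et_le (t : ℝ) (p : Fin 3 → ℤ) : 1 - et t p ≤ t / 2 * ksq p := by
  unfold et
  have := Real.add_one_le_exp (-(t / 2 * ksq p))
  linarith

lemma Mul_et_sq (t : ℝ) (p : Fin 3 → ℤ) : et t p ^ 2 = Real.exp (-(t * ksq p)) := by
  unfold et
  rw [← Real.exp_nat_mul]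
  congr 1
  push_cast
  ring

lemma Mul_one_sub_et_sq_le (t : ℝ) (p : Fin 3 → ℤ) : 1 - et t p ^ 2 ≤ t * ksq p := by
  rw [Mul_et_sq]
  have := Real.add_one_le_exp (-(t * ksq p))
  linarith

lemma Mul_one_sub_et_sq_nonneg {t : ℝ} (ht : 0 ≤ t) (p : Fin 3 → ℤ) : 0 ≤ 1 - et t p ^ 2 := by
  have h1 := et_le_one ht p
  have h2 := et_pos t p
  nlinarith only [h1, h2]

lemma bdm_et {t : ℝ} (ht : 0 ≤ t) : Bdm (et t) :=
  ⟨1, fun p => by rw [abs_of_pos (et_pos t p)]; exact et_le_one ht p⟩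

lemma bdm_pz : Bdm pz := by
  refine ⟨1, fun p => ?_⟩
  unfold pz
  split_ifs <;> simp

lemma alp_nonneg {t : ℝ} (ht : 0 ≤ t) (p : Fin 3 → ℤ) : 0 ≤ alp t p := by
  unfold alp
  split_ifs
  · exact le_refl _
  · exact div_nonneg (Mul_one_sub_et_sq_nonneg ht p) (ksq_nonneg p)

lemma alp_le {t : ℝ} (ht : 0 ≤ t) (p : Fin 3 → ℤ) : alp t p ≤ t := by
  unfold alp
  split_ifs with h
  · exact ht
  · rw [div_le_iff₀ (ksq_pos h)]
    exact Mul_one_sub_et_sq_le t p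

lemma bet_nonneg (t : ℝ) (p : Fin 3 → ℤ) : 0 ≤ bet t p := by
  unfold bet
  split_ifs
  · exact le_refl _
  · exact sq_nonneg _

lemma bet_le {t : ℝ} (ht : 0 ≤ t) (p : Fin 3 → ℤ) : bet t p ≤ t ^ 2 := by
  have h1 := alp_nonneg ht p
  have h2 := alp_le ht p
  unfold alp at h1 h2
  unfold bet
  split_ifs with h
  · positivity
  · rw [if_neg h] at h1 h2
    exact pow_le_pow_left₀ h1 h2 2

lemma kap_nonneg {t : ℝ} (ht : 0 ≤ t) (p : Fin 3 → ℤ) : 0 ≤ kap t p := by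
  unfold kap
  split_ifs
  · positivity
  · exact div_nonneg (by linarith [et_le_one ht p]) (ksq_nonneg p)

lemma kap_le {t : ℝ} (ht : 0 ≤ t) (p : Fin 3 → ℤ) : kap t p ≤ t / 2 := by
  unfold kap
  split_ifs with h
  · exact le_refl _
  · rw [div_le_iff₀ (ksq_pos h)]
    exact Mul_one_sub_et_le t p

lemma bdm_alp {t : ℝ} (ht : 0 ≤ t) : Bdm (alp t) :=
  ⟨t, fun p => by rw [abs_of_nonneg (alp_nonneg ht p)]; exact alp_le ht p⟩

lemma bdm_bet {t : ℝ} (ht : 0 ≤ t) : Bdm (bet t) :=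
  ⟨t ^ 2, fun p => by rw [abs_of_nonneg (bet_nonneg t p)]; exact bet_le ht p⟩

lemma bdm_kap {t : ℝ} (ht : 0 ≤ t) : Bdm (kap t) :=
  ⟨t / 2, fun p => by rw [abs_of_nonneg (kap_nonneg ht p)]; exact kap_le ht p⟩

lemma Mul_kap'_nonneg {t : ℝ} (ht : 0 ≤ t) (p : Fin 3 → ℤ) : 0 ≤ kap' t p := by
  have h1 := kap_nonneg ht p
  unfold kap at h1
  unfold kap'
  split_ifs with h
  · exact le_refl _
  · rwa [if_neg h] at h1

lemma Mul_kap'_le {t : ℝ} (ht : 0 ≤ t) (p : Fin 3 → ℤ) : kap' t p ≤ t / 2 := by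
  have h1 := kap_le ht p
  unfold kap at h1
  unfold kap'
  split_ifs with h
  · positivity
  · rwa [if_neg h] at h1

lemma bdm_kap' {t : ℝ} (ht : 0 ≤ t) : Bdm (kap' t) :=
  ⟨t / 2, fun p => by rw [abs_of_nonneg (Mul_kap'_nonneg ht p)]; exact Mul_kap'_le ht p⟩

lemma Mul_integral {q : ℝ} (hq : 0 < q) (s : ℝ) :
    ∫ u in (0:ℝ)..s, Real.exp (-(u * q)) = (1 - Real.exp (-(s * q))) / q := by
  have h1 : ∀ u ∈ uIcc (0 : ℝ) s,
      HasDerivAt (fun u : ℝ => -(Real.exp (-(u * q))) / q) (Real.exp (-(u * q))) u := by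
    intro u _
    have h2 : HasDerivAt (fun u : ℝ => -(u * q)) (-(1 * q)) u := ((hasDerivAt_id u).mul_const q).neg
    have h3 := (h2.exp.neg).div_const q
    have h4 : Real.exp (-(u * q)) = -(Real.exp (-(u * q)) * -(1 * q)) / q := by
      rw [eq_div_iff hq.ne']
      ring
    rw [h4]
    exact h3
  rw [intervalIntegral.integral_eq_sub_of_hasDerivAt h1
    (Continuous.intervalIntegrable (by fun_prop) _ _)]
  simp only [zero_mul, neg_zero, Real.exp_zero]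
  ring

/-- `kap t p = ∫₀^{t/2} exp(-u k²) du` -/
lemma kap_eq_integral (t : ℝ) (p : Fin 3 → ℤ) :
    kap t p = ∫ u in (0:ℝ)..(t / 2), Real.exp (-(u * ksq p)) := by
  unfold kap
  split_ifs with h
  · rw [h, ksq_zero]
    simp
  · rw [Mul_integral (ksq_pos h)]
    rfl

/-- `alp t p + t pz p = ∫₀^t exp(-u k²) du` -/
lemma alp_eq_integral (t : ℝ) (p : Fin 3 → ℤ) :
    alp t p + t * pz p = ∫ u in (0:ℝ)..t, Real.exp (-(u * ksq p)) := by
  unfold alp pz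
  split_ifs with h
  · rw [h, ksq_zero]
    simp
  · rw [Mul_integral (ksq_pos h), Mul_et_sq]
    ring

/-- the completed square, real form -/
theorem Mul_key {t e q η A B R C X w : ℝ} (ht : 0 < t) (he0 : 0 < e) (he : e ≤ 1 / 2) (hq : 0 < q)
    (hη0 : 0 < η) (hη1 : η < 1) (hη : 1 - η ≤ t / 2 * q) (hA : 0 ≤ A) (hB : 0 ≤ B) (hC : 0 ≤ C)
    (hw : w = (1 - η ^ 2) ^ 2 * A + 2 * ((1 - η ^ 2) * (1 - η)) * R + (1 - η) ^ 2 * B) (hw0 : 0 ≤ w)
    (hneg : 0 ≤ (1 - η ^ 2) ^ 2 * A - 2 * ((1 - η ^ 2) * (1 - η)) * R + (1 - η) ^ 2 * B)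
    (hX : X ^ 2 ≤ C * w) :
    -(1 / 4) * (((1 - η ^ 2) / q + 8 * e / t * ((1 - η ^ 2) / q) ^ 2) * A
        + 2 * ((1 - η) / q) * R + (1 + 4 * e) * ((1 - η) / q) * B)
      ≤ ((1 - η ^ 2) * q - 2 * e / t * (1 - η) ^ 2) * C + X := by
  obtain ⟨u, hu⟩ : ∃ u, u = 1 - η := ⟨_, rfl⟩
  obtain ⟨v, hv⟩ : ∃ v, v = 1 + η := ⟨_, rfl⟩
  have hu0 : 0 < u := by rw [hu]; linarith
  have hv1 : 1 < v := by rw [hv]; linarith
  have huv : 1 - η ^ 2 = u * v := by rw [hu, hv]; ring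
  rw [← hu] at hη hneg hw ⊢
  rw [huv] at hneg hw ⊢
  have hD0 : 0 < u * v * q := by positivity
  set D0 := u * v * q with hD0def
  obtain ⟨D, hD⟩ : ∃ D, D = D0 - 2 * e / t * u ^ 2 := ⟨_, rfl⟩
  have h1 : 2 * e / t * u ^ 2 ≤ e * D0 := by
    have h2 : 2 * e / t * u ^ 2 = (2 * e / t * u) * u := by ring
    have h3 : 2 * e / t * u ≤ 2 * e / t * (t / 2 * q) := mul_le_mul_of_nonneg_left hη (by positivity)
    have h4 : 2 * e / t * (t / 2 * q) = e * q := by field_simp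
    rw [h2]
    calc 2 * e / t * u * u ≤ e * q * u := mul_le_mul_of_nonneg_right (h3.trans h4.le) hu0.le
      _ ≤ e * q * u * v := le_mul_of_one_le_right (by positivity) hv1.le
      _ = e * D0 := by rw [hD0def]; ring
  have hDD : D0 / 2 ≤ D := by
    rw [hD]
    have h2 : e * D0 ≤ 1 / 2 * D0 := mul_le_mul_of_nonneg_right he hD0.le
    linarith only [h1, h2]
  have hDpos : 0 < D := by linarith only [hDD, hD0]
  -- the completed square
  have h5 : -(w / (4 * D)) ≤ D * C + X := by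
    have h6 : X ^ 2 ≤ (D * C + w / (4 * D)) ^ 2 := by
      have h7 : (D * C + w / (4 * D)) ^ 2 = C * w + (D * C - w / (4 * D)) ^ 2 := by
        field_simp
        ring
      rw [h7]
      linarith only [hX, sq_nonneg (D * C - w / (4 * D))]
    have h8 : |X| ≤ D * C + w / (4 * D) :=
      abs_le_of_sq_le_sq h6 (add_nonneg (mul_nonneg hDpos.le hC) (div_nonneg hw0 (mul_nonneg zero_le_four hDpos.le)))
    linarith only [(abs_le.mp h8).1]
  rw [← hD]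
  refine le_trans ?_ h5
  -- `Δ`
  obtain ⟨Δ, hΔ⟩ : ∃ Δ, Δ = 1 / D - 1 / D0 := ⟨_, rfl⟩
  have hΔ0 : 0 ≤ Δ := by
    rw [hΔ, sub_nonneg]
    apply one_div_le_one_div_of_le hDpos
    rw [hD]
    have : 0 ≤ 2 * e / t * u ^ 2 := by positivity
    linarith
  have hΔe : Δ ≤ 4 * (e / t) / (v ^ 2 * q ^ 2) := by
    have h9 : Δ = 2 * e / t * u ^ 2 / D0 * (1 / D) := by
      rw [hΔ]
      have : 2 * e / t * u ^ 2 = D0 - D := by rw [hD]; ring
      rw [this]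
      field_simp
    have h10 : 1 / D ≤ 2 / D0 := by
      rw [div_le_div_iff₀ hDpos hD0]
      linarith
    rw [h9]
    calc 2 * e / t * u ^ 2 / D0 * (1 / D) ≤ 2 * e / t * u ^ 2 / D0 * (2 / D0) :=
          mul_le_mul_of_nonneg_left h10 (by positivity)
      _ = 4 * (e / t) / (v ^ 2 * q ^ 2) := by
          rw [hD0def]
          field_simp
          norm_num
  have hΔ1 : Δ ≤ 4 * (e / t) / q ^ 2 := by
    refine hΔe.trans ?_
    apply div_le_div_of_nonneg_left (by positivity) (by positivity)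
    exact le_mul_of_one_le_left (sq_nonneg q) (one_le_pow₀ hv1.le)
  have hΔ2 : Δ ≤ 2 * e / D0 := by
    refine hΔe.trans ?_
    rw [div_le_div_iff₀ (by positivity) hD0, hD0def]
    have h11 : 4 * (e / t) * (u * v * q) ≤ 4 * (e / t) * (t / 2 * q * v * q) := by
      apply mul_le_mul_of_nonneg_left _ (by positivity)
      exact mul_le_mul_of_nonneg_right (mul_le_mul_of_nonneg_right hη (by linarith)) hq.le
    have h12 : 4 * (e / t) * (t / 2 * q * v * q) = 2 * e * (v * q ^ 2) := by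
      field_simp
      ring
    refine (h11.trans h12.le).trans ?_
    apply mul_le_mul_of_nonneg_left _ (by positivity)
    have h17 : v * q ^ 2 * 1 ≤ v * q ^ 2 * v :=
      mul_le_mul_of_nonneg_left hv1.le (mul_nonneg (zero_le_one.trans hv1.le) (sq_nonneg q))
    linarith only [h17]
  have hw2 : w ≤ 2 * (u * v) ^ 2 * A + 2 * u ^ 2 * B := by
    rw [hw]
    linarith
  have h13 : w / (4 * D) = 1 / 4 * (w / D0 + Δ * w) := by
    rw [hΔ]
    field_simp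
    ring
  have h14 : w / D0 = (u * v) / q * A + 2 * (u / q) * R + u / (v * q) * B := by
    rw [hw, hD0def]
    field_simp
  have h15 : u / (v * q) * B ≤ u / q * B := by
    apply mul_le_mul_of_nonneg_right _ hB
    apply div_le_div_of_nonneg_left hu0.le hq
    exact le_mul_of_one_le_left hq.le hv1.le
  have h16 : Δ * w ≤ 8 * e / t * (u * v / q) ^ 2 * A + 4 * e * (u / q) * B := by
    calc Δ * w ≤ Δ * (2 * (u * v) ^ 2 * A + 2 * u ^ 2 * B) := mul_le_mul_of_nonneg_left hw2 hΔ0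
      _ = Δ * (2 * (u * v) ^ 2 * A) + Δ * (2 * u ^ 2 * B) := by ring
      _ ≤ 4 * (e / t) / q ^ 2 * (2 * (u * v) ^ 2 * A) + 2 * e / D0 * (2 * u ^ 2 * B) :=
          add_le_add (mul_le_mul_of_nonneg_right hΔ1 (by positivity))
            (mul_le_mul_of_nonneg_right hΔ2 (by positivity))
      _ = 8 * e / t * (u * v / q) ^ 2 * A + 4 * e * (u / (v * q) * B) := by
          rw [hD0def]
          field_simp
          ring
      _ ≤ 8 * e / t * (u * v / q) ^ 2 * A + 4 * e * (u / q * B) :=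
          add_le_add le_rfl (mul_le_mul_of_nonneg_left h15 (by positivity))
      _ = _ := by ring
  rw [h13, h14]
  linarith only [h15, h16]

lemma Mul_normSq (r s : ℝ) (a b : ℂ) :
    ‖(r : ℂ) * a + (s : ℂ) * b‖ ^ 2 = r ^ 2 * ‖a‖ ^ 2 + 2 * (r * s) * (conj a * b).re + s ^ 2 * ‖b‖ ^ 2 := by
  rw [Complex.sq_norm, Complex.sq_norm, Complex.sq_norm, Complex.normSq_apply, Complex.normSq_apply,
    Complex.normSq_apply]
  simp only [Complex.add_re, Complex.add_im, Complex.mul_re, Complex.mul_im, Complex.ofReal_re,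
    Complex.ofReal_im, Complex.conj_re, Complex.conj_im]
  ring

/-- the completed square in one mode -/
theorem mode_ineq {t e : ℝ} (ht : 0 < t) (he0 : 0 < e) (he : e ≤ 1 / 2) (p : Fin 3 → ℤ)
    (c a b : ℂ) :
    -(1 / 4) * ((alp t p + 8 * e / t * bet t p) * ‖a‖ ^ 2
        + 2 * kap' t p * (conj a * b).re + (1 + 4 * e) * kap t p * ‖b‖ ^ 2)
      ≤ ((1 - et t p ^ 2) * ksq p - 2 * e / t * (1 - et t p) ^ 2) * ‖c‖ ^ 2
        + (conj c * (((1 - et t p ^ 2 : ℝ) : ℂ) * a + ((1 - et t p : ℝ) : ℂ) * b)).re := by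
  by_cases hp : p = 0
  · subst hp
    unfold alp bet kap kap'
    simp only [if_true, et_zero, ksq_zero]
    have h1 : 0 ≤ (1 + 4 * e) * (t / 2) * ‖b‖ ^ 2 := by positivity
    norm_num
    linarith
  · have hq := ksq_pos hp
    have hη0 := et_pos t p
    have hη1 : et t p < 1 := by
      unfold et
      rw [Real.exp_lt_one_iff]
      have : 0 < t / 2 * ksq p := by positivity
      linarith
    unfold alp bet kap kap'
    simp only [if_neg hp]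
    set η := et t p
    set W : ℂ := ((1 - η ^ 2 : ℝ) : ℂ) * a + ((1 - η : ℝ) : ℂ) * b with hW
    have hw := Mul_normSq (1 - η ^ 2) (1 - η) a b
    have hn := Mul_normSq (1 - η ^ 2) (-(1 - η)) a b
    refine Mul_key ht he0 he hq hη0 hη1 (Mul_one_sub_et_le t p) (sq_nonneg _) (sq_nonneg _)
      (sq_nonneg _) (w := ‖W‖ ^ 2) hw (sq_nonneg _) ?_ ?_
    · have h2 := sq_nonneg (‖((1 - η ^ 2 : ℝ) : ℂ) * a + ((-(1 - η) : ℝ) : ℂ) * b‖)
      rw [hn] at h2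
      linarith only [h2]
    · have h3 : |(conj c * W).re| ≤ ‖c‖ * ‖W‖ := by
        refine (Complex.abs_re_le_norm _).trans ?_
        rw [norm_mul, Complex.norm_conj]
      calc (conj c * W).re ^ 2 = |(conj c * W).re| ^ 2 := (sq_abs _).symm
        _ ≤ (‖c‖ * ‖W‖) ^ 2 := pow_le_pow_left₀ (abs_nonneg _) h3 2
        _ = _ := by ring

end Pool.Agent.Lib.MP_4952d6_mp.LB

end

/-! ### LB.Alg -/

section

/-!
# LB.Alg: exact algebra of the low/high momentum decomposition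

`P = PP1 t = S1 (et t)`, `Q = QQ1 t = S1 (1 - et t)`, `Pz = S1 pz`. All `S1` commute and are symmetric;
`HP h j l` is symmetric and commutes with `S1 φ i` for `i ≠ j, l`; `pz · et = pz`.
-/

set_option autoImplicit false
set_option linter.unusedSectionVars false
set_option linter.unusedVariables false
open MeasureTheory Function Filter Topology Set ComplexConjugate

namespace Pool.Agent.Lib.MP_4952d6_mp.LB

variable {ι : Type*} [Fintype ι] [DecidableEq ι]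

lemma alg_pz_et (t : ℝ) (p : Fin 3 → ℤ) : pz p * et t p = pz p := by
  unfold pz
  split_ifs with h
  · rw [h, et_zero, one_mul]
  · rw [zero_mul]

lemma alg_bdm_one_sub {φ : (Fin 3 → ℤ) → ℝ} (hφ : Bdm φ) : Bdm (fun p => 1 - φ p) :=
  (Bdm.const 1).sub hφ

lemma alg_bdm_sq {φ : (Fin 3 → ℤ) → ℝ} (hφ : Bdm φ) : Bdm (fun p => 1 - φ p ^ 2) := by
  have h := alg_bdm_one_sub (hφ.mul hφ)
  have e : (fun p => 1 - φ p * φ p) = (fun p => 1 - φ p ^ 2) := by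
    funext p
    ring
  rwa [e] at h

/-- coefficients of `Φ⁰` -/
lemma cf_Phi0 (j l : ι) (ψ : HS ι) (k : ι → Fin 3 → ℤ) :
    cf (Phi0 j l ψ) k = if k j = 0 ∧ k l = 0 then cf ψ k else 0 := by
  unfold Phi0 Pz
  rw [cf_S1 bdm_pz, cf_S1 bdm_pz]
  unfold pz
  by_cases h1 : k j = 0 <;> by_cases h2 : k l = 0 <;> simp [h1, h2]

lemma Phi0_comm (j l : ι) (ψ : HS ι) : Phi0 j l ψ = Phi0 l j ψ := by
  exact S1_comm bdm_pz bdm_pz j l ψ

lemma Phi_comm {t : ℝ} (ht : 0 ≤ t) (j l : ι) (ψ : HS ι) : Phi t j l ψ = Phi t l j ψ := by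
  exact S1_comm (bdm_et ht) (bdm_et ht) j l ψ

lemma Phi1_comm {t : ℝ} (ht : 0 ≤ t) (j l : ι) (ψ : HS ι) : Phi1 t j l ψ = Phi1 t l j ψ := by
  unfold Phi1
  rw [Phi_comm ht, Phi0_comm]

/-- `1 = P + Q` -/
lemma PP1_add_QQ1 {t : ℝ} (ht : 0 ≤ t) (j : ι) (f : HS ι) : PP1 t j f + QQ1 t j f = f := by
  refine cf_ext fun k => ?_
  unfold PP1 QQ1
  rw [cf_add, cf_S1 (bdm_et ht), cf_S1 (alg_bdm_one_sub (bdm_et ht))]
  push_cast
  ring

/-- `Φ¹ = P_j P_l (1-Π_j)ψ + Π_j P_l (1-Π_l)ψ` -/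
lemma Phi1_eq {t : ℝ} (ht : 0 ≤ t) (j l : ι) (ψ : HS ι) :
    Phi1 t j l ψ = PP1 t j (PP1 t l (perp j ψ)) + Pz j (PP1 t l (perp l ψ)) := by
  refine cf_ext fun k => ?_
  have e1 : (((pz (k j) : ℝ) : ℂ)) * ((et t (k j) : ℝ) : ℂ) = ((pz (k j) : ℝ) : ℂ) := by
    rw [← Complex.ofReal_mul, alg_pz_et]
  have e2 : (((pz (k l) : ℝ) : ℂ)) * ((et t (k l) : ℝ) : ℂ) = ((pz (k l) : ℝ) : ℂ) := by
    rw [← Complex.ofReal_mul, alg_pz_et]
  unfold Phi1 Phi Phi0 perp PP1 Pz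
  rw [cf_sub, cf_add, cf_S1 (bdm_et ht), cf_S1 (bdm_et ht), cf_S1 bdm_pz, cf_S1 bdm_pz,
    cf_S1 (bdm_et ht), cf_S1 (bdm_et ht), cf_sub, cf_S1 bdm_pz, cf_S1 bdm_pz, cf_S1 (bdm_et ht),
    cf_sub, cf_S1 bdm_pz]
  linear_combination (((et t (k l) : ℝ) : ℂ) * cf ψ k) * e1 + (((pz (k j) : ℝ) : ℂ) * cf ψ k) * e2

/-- one particle multipliers of other particles go inside -/
lemma Phi1_S1 {t : ℝ} (ht : 0 ≤ t) {φ : (Fin 3 → ℤ) → ℝ} (hφ : Bdm φ) (j l m : ι) (ψ : HS ι) :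
    S1 φ m (Phi1 t j l ψ) = Phi1 t j l (S1 φ m ψ) := by
  refine cf_ext fun k => ?_
  unfold Phi1 Phi Phi0 PP1 Pz
  simp only [cf_sub, cf_S1 hφ, cf_S1 (bdm_et ht), cf_S1 bdm_pz]
  ring

lemma Phi0_S1 {φ : (Fin 3 → ℤ) → ℝ} (hφ : Bdm φ) (j l m : ι) (ψ : HS ι) :
    S1 φ m (Phi0 j l ψ) = Phi0 j l (S1 φ m ψ) := by
  refine cf_ext fun k => ?_
  unfold Phi0 Pz
  simp only [cf_S1 hφ, cf_S1 bdm_pz]
  ring

lemma perp_eq_S1 (j : ι) (ψ : HS ι) : perp j ψ = S1 (fun p => 1 - pz p) j ψ := by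
  refine cf_ext fun k => ?_
  unfold perp Pz
  rw [cf_sub, cf_S1 bdm_pz, cf_S1 (alg_bdm_one_sub bdm_pz)]
  push_cast
  ring

lemma norm_QQ1_le {t : ℝ} (ht : 0 ≤ t) (j : ι) (ψ : HS ι) : ‖QQ1 t j ψ‖ ≤ ‖perp j ψ‖ := by
  have h1 : QQ1 t j ψ = S1 (fun p => 1 - et t p) j (perp j ψ) := by
    rw [perp_eq_S1]
    unfold QQ1
    rw [S1_S1 (alg_bdm_one_sub (bdm_et ht)) (alg_bdm_one_sub bdm_pz)]
    congr 2
    funext p
    have := alg_pz_et t p
    linear_combination -this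
  rw [h1]
  have h2 := norm_S1_le (φ := fun p => 1 - et t p) (C := 1) (fun p => by
    have h3 := et_pos t p
    have h4 := et_le_one ht p
    rw [abs_le]
    constructor <;> linarith) j (perp j ψ)
  rwa [one_mul] at h2

lemma norm_Phi0_le (j l : ι) (ψ : HS ι) : ‖Phi0 j l ψ‖ ≤ ‖ψ‖ := by
  have h : ∀ p, |pz p| ≤ (1 : ℝ) := fun p => by
    unfold pz
    split_ifs <;> simp
  have h1 := norm_S1_le h j (Pz l ψ)
  have h2 := norm_S1_le h l ψ
  rw [one_mul] at h1 h2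
  exact h1.trans h2

/-- The pair term. `⟪ψ, h Φ⟫ = ⟪ψ, P_j P_l h Φ⟫ + ⟪ψ, (1 - P_j P_l) h Φ⟫`, the first is `qf h Φ`;
`(1 - P_j P_l) h Φ⁰ = (1 - P_j²) h Φ⁰ = (1 - P_l²) h Φ⁰` (`S1_HP_zero`, `et` even), and
`1 - P_j P_l = Q_j Q_l + Q_j P_l + P_j Q_l` on `h Φ¹`. -/
theorem alg_pair {t : ℝ} (ht : 0 ≤ t) {h : T3 → ℝ} (hh : BM h) {j l : ι} (hjl : j ≠ l) (ψ : HS ι) :
    (inner ℂ ψ (HP h j l (Phi t j l ψ))).re
      = qf (fun x => h (x j - x l)) (Phi t j l ψ)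
        + 1 / 2 * (inner ℂ ψ (S1 (fun p => 1 - et t p ^ 2) j (HP h j l (Phi0 j l ψ)))).re
        + 1 / 2 * (inner ℂ ψ (S1 (fun p => 1 - et t p ^ 2) l (HP h j l (Phi0 j l ψ)))).re
        + (inner ℂ ψ (QQ1 t j (QQ1 t l (HP h j l (Phi1 t j l ψ))))).re
        + (inner ℂ ψ (QQ1 t j (PP1 t l (HP h j l (Phi1 t j l ψ))))).re
        + (inner ℂ ψ (QQ1 t l (PP1 t j (HP h j l (Phi1 t j l ψ))))).re := by
  have he := bdm_et ht
  have hsum : Phi t j l ψ = Phi0 j l ψ + Phi1 t j l ψ := by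
    unfold Phi1
    abel
  -- the low part
  have hz : ∀ k : ι → Fin 3 → ℤ, ¬ (k j = 0 ∧ k l = 0) → cf (Phi0 j l ψ) k = 0 := fun k hk => by
    rw [cf_Phi0, if_neg hk]
  have hev : S1 (et t) l (HP h j l (Phi0 j l ψ)) = S1 (et t) j (HP h j l (Phi0 j l ψ)) :=
    S1_HP_zero hh hjl hz he he (fun p => (et_neg t p).symm)
  have hA : HP h j l (Phi0 j l ψ) = PP1 t j (PP1 t l (HP h j l (Phi0 j l ψ)))
      + S1 (fun p => 1 - et t p ^ 2) j (HP h j l (Phi0 j l ψ)) := by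
    have e1 : PP1 t j (PP1 t l (HP h j l (Phi0 j l ψ)))
        = S1 (et t) j (S1 (et t) j (HP h j l (Phi0 j l ψ))) := by
      unfold PP1
      rw [hev]
    rw [e1]
    refine cf_ext fun k => ?_
    rw [cf_add, cf_S1 he, cf_S1 he, cf_S1 (alg_bdm_sq he)]
    push_cast
    ring
  have hB : HP h j l (Phi0 j l ψ) = PP1 t j (PP1 t l (HP h j l (Phi0 j l ψ)))
      + S1 (fun p => 1 - et t p ^ 2) l (HP h j l (Phi0 j l ψ)) := by
    have e1 : PP1 t j (PP1 t l (HP h j l (Phi0 j l ψ)))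
        = S1 (et t) l (S1 (et t) l (HP h j l (Phi0 j l ψ))) := by
      unfold PP1
      rw [S1_comm he he, ← hev]
    rw [e1]
    refine cf_ext fun k => ?_
    rw [cf_add, cf_S1 he, cf_S1 he, cf_S1 (alg_bdm_sq he)]
    push_cast
    ring
  have hC : ∀ Y : HS ι, Y = PP1 t j (PP1 t l Y) + QQ1 t j (QQ1 t l Y) + QQ1 t j (PP1 t l Y)
      + QQ1 t l (PP1 t j Y) := by
    intro Y
    refine cf_ext fun k => ?_
    unfold PP1 QQ1
    simp only [cf_add, cf_S1 he, cf_S1 (alg_bdm_one_sub he)]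
    push_cast
    ring
  have hq : qf (fun x => h (x j - x l)) (Phi t j l ψ)
      = (inner ℂ ψ (PP1 t j (PP1 t l (HP h j l (Phi t j l ψ))))).re := by
    rw [qf_eq (bm_diff hh j l)]
    congr 1
    change inner ℂ (Phi t j l ψ) (HP h j l (Phi t j l ψ)) = _
    generalize HP h j l (Phi t j l ψ) = X
    unfold Phi PP1
    rw [S1_symm he, S1_symm he, S1_comm he he]
  rw [hq, hsum, map_add, map_add, map_add, inner_add_right, inner_add_right, Complex.add_re,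
    Complex.add_re]
  have i1 : (inner ℂ ψ (HP h j l (Phi0 j l ψ))).re
      = (inner ℂ ψ (PP1 t j (PP1 t l (HP h j l (Phi0 j l ψ))))).re
        + 1 / 2 * (inner ℂ ψ (S1 (fun p => 1 - et t p ^ 2) j (HP h j l (Phi0 j l ψ)))).re
        + 1 / 2 * (inner ℂ ψ (S1 (fun p => 1 - et t p ^ 2) l (HP h j l (Phi0 j l ψ)))).re := by
    have j1 := congrArg (fun X => (inner ℂ ψ X).re) hA
    have j2 := congrArg (fun X => (inner ℂ ψ X).re) hB
    simp only [inner_add_right, Complex.add_re] at j1 j2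
    linarith
  have i2 := congrArg (fun X => (inner ℂ ψ X).re) (hC (HP h j l (Phi1 t j l ψ)))
  simp only [inner_add_right, Complex.add_re] at i2
  rw [i1]
  linarith

/-- `A_j = ∑_l h_{jl} Φ⁰_{jl}` -/
noncomputable def AAj (h : T3 → ℝ) (ψ : HS ι) (j : ι) : HS ι :=
  ∑ l ∈ Finset.univ.erase j, HP h j l (Phi0 j l ψ)

/-- `B_j = ∑_l Q_l h_{jl} Φ¹_{jl}` -/
noncomputable def BBj (t : ℝ) (h : T3 → ℝ) (ψ : HS ι) (j : ι) : HS ι :=
  ∑ l ∈ Finset.univ.erase j, QQ1 t l (HP h j l (Phi1 t j l ψ))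

/-- `W'_j = ∑_l P_l h_{jl} Φ¹_{jl}` -/
noncomputable def WWj (t : ℝ) (h : T3 → ℝ) (ψ : HS ι) (j : ι) : HS ι :=
  ∑ l ∈ Finset.univ.erase j, PP1 t l (HP h j l (Phi1 t j l ψ))

/-- Sum of the pair terms over ordered pairs (`h` even, symmetry `j ↔ l`). -/
theorem alg_sum {t : ℝ} (ht : 0 ≤ t) {h : T3 → ℝ} (hh : BM h) (he : ∀ z, h (-z) = h z) (ψ : HS ι) :
    ∑ j, ∑ l ∈ Finset.univ.erase j, (inner ℂ ψ (HP h j l (Phi t j l ψ))).re
      = (∑ j, ∑ l ∈ Finset.univ.erase j, qf (fun x => h (x j - x l)) (Phi t j l ψ))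
        + ∑ j, ((inner ℂ ψ (S1 (fun p => 1 - et t p ^ 2) j (AAj h ψ j)
            + QQ1 t j (BBj t h ψ j))).re
          + 2 * (inner ℂ (QQ1 t j ψ) (WWj t h ψ j)).re) := by
  have he' := bdm_et ht
  have hswap : ∀ F : ι → ι → ℝ, ∑ j, ∑ l ∈ Finset.univ.erase j, F j l
      = ∑ j, ∑ l ∈ Finset.univ.erase j, F l j := by
    intro F
    refine Finset.sum_comm' ?_
    intro x y
    simp only [Finset.mem_univ, Finset.mem_erase, ne_eq, true_and, and_true]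
    exact ⟨fun hh => fun e => hh e.symm, fun hh => fun e => hh e.symm⟩
  have h1 : ∀ j, ∀ l ∈ Finset.univ.erase j, (inner ℂ ψ (HP h j l (Phi t j l ψ))).re
      = qf (fun x => h (x j - x l)) (Phi t j l ψ)
        + 1 / 2 * (inner ℂ ψ (S1 (fun p => 1 - et t p ^ 2) j (HP h j l (Phi0 j l ψ)))).re
        + 1 / 2 * (inner ℂ ψ (S1 (fun p => 1 - et t p ^ 2) l (HP h j l (Phi0 j l ψ)))).re
        + (inner ℂ ψ (QQ1 t j (QQ1 t l (HP h j l (Phi1 t j l ψ))))).re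
        + (inner ℂ ψ (QQ1 t j (PP1 t l (HP h j l (Phi1 t j l ψ))))).re
        + (inner ℂ ψ (QQ1 t l (PP1 t j (HP h j l (Phi1 t j l ψ))))).re := by
    intro j l hl
    exact alg_pair ht hh (Finset.ne_of_mem_erase hl).symm ψ
  rw [Finset.sum_congr rfl (fun j _ => Finset.sum_congr rfl (h1 j))]
  simp only [Finset.sum_add_distrib]
  have h2 : ∑ j, ∑ l ∈ Finset.univ.erase j,
        1 / 2 * (inner ℂ ψ (S1 (fun p => 1 - et t p ^ 2) l (HP h j l (Phi0 j l ψ)))).re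
      = ∑ j, ∑ l ∈ Finset.univ.erase j,
        1 / 2 * (inner ℂ ψ (S1 (fun p => 1 - et t p ^ 2) j (HP h j l (Phi0 j l ψ)))).re := by
    rw [hswap]
    refine Finset.sum_congr rfl fun j _ => Finset.sum_congr rfl fun l _ => ?_
    rw [HP_swap he l j, Phi0_comm l j]
  have h3 : ∑ j, ∑ l ∈ Finset.univ.erase j,
        (inner ℂ ψ (QQ1 t l (PP1 t j (HP h j l (Phi1 t j l ψ))))).re
      = ∑ j, ∑ l ∈ Finset.univ.erase j,
        (inner ℂ ψ (QQ1 t j (PP1 t l (HP h j l (Phi1 t j l ψ))))).re := by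
    rw [hswap]
    refine Finset.sum_congr rfl fun j _ => Finset.sum_congr rfl fun l _ => ?_
    rw [HP_swap he l j, Phi1_comm ht l j]
  rw [h2, h3]
  have h4 : ∀ j, (inner ℂ ψ (S1 (fun p => 1 - et t p ^ 2) j (AAj h ψ j)
            + QQ1 t j (BBj t h ψ j))).re
      = ∑ l ∈ Finset.univ.erase j,
          (inner ℂ ψ (S1 (fun p => 1 - et t p ^ 2) j (HP h j l (Phi0 j l ψ)))).re
        + ∑ l ∈ Finset.univ.erase j,
          (inner ℂ ψ (QQ1 t j (QQ1 t l (HP h j l (Phi1 t j l ψ))))).re := by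
    intro j
    unfold AAj BBj
    rw [map_sum, map_sum, inner_add_right, inner_sum, inner_sum, Complex.add_re, Complex.re_sum,
      Complex.re_sum]
  have h5 : ∀ j, (inner ℂ (QQ1 t j ψ) (WWj t h ψ j)).re
      = ∑ l ∈ Finset.univ.erase j,
          (inner ℂ ψ (QQ1 t j (PP1 t l (HP h j l (Phi1 t j l ψ))))).re := by
    intro j
    unfold WWj
    rw [inner_sum, Complex.re_sum]
    refine Finset.sum_congr rfl fun l _ => ?_
    unfold QQ1
    rw [S1_symm (alg_bdm_one_sub he')]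
  simp only [h4, h5, Finset.sum_add_distrib, ← Finset.mul_sum]
  ring

end Pool.Agent.Lib.MP_4952d6_mp.LB

end

/-! ### LB.Sqr -/

section

/-!
# LB.Sqr: completing the square in the high momentum variable of one particle

`mode_ineq` (LB.Mul) for `c = cf ψ k`, `a = cf A k`, `b = cf B k`, `p = k j`, summed over `k`: all sums are
`HasSum` by `hasSum_inner`, `cf_S1`; the kinetic sum converges by hypothesis.
-/

set_option autoImplicit false
set_option linter.unusedSectionVars false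
set_option linter.unusedVariables false
open MeasureTheory Function Filter Topology Set ComplexConjugate

namespace Pool.Agent.Lib.MP_4952d6_mp.LB

variable {ι : Type*} [Fintype ι] [DecidableEq ι]

lemma Sqr_bdm_q {t : ℝ} (ht : 0 ≤ t) : Bdm (fun p => 1 - et t p) :=
  (Bdm.const 1).sub (bdm_et ht)

lemma Sqr_bdm_q2 {t : ℝ} (ht : 0 ≤ t) : Bdm (fun p => 1 - et t p ^ 2) := by
  have h := (Bdm.const (κ := Fin 3 → ℤ) 1).sub ((bdm_et ht).mul (bdm_et ht))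
  have e : (fun p => 1 - et t p ^ 2) = fun k => 1 - et t k * et t k := by
    funext p
    ring
  rw [e]
  exact h

lemma Sqr_hasSum_S1 {φ : (Fin 3 → ℤ) → ℝ} (hφ : Bdm φ) (j : ι) (f : HS ι) :
    HasSum (fun k : ι → Fin 3 → ℤ => φ (k j) * ‖cf f k‖ ^ 2) (inner ℂ f (S1 φ j f)).re :=
  hasSum_inner_DM (hφ.comp (fun k : ι → Fin 3 → ℤ => k j)) f

lemma Sqr_hasSum_S1' {φ : (Fin 3 → ℤ) → ℝ} (hφ : Bdm φ) (j : ι) (f g : HS ι) :
    HasSum (fun k : ι → Fin 3 → ℤ => φ (k j) * (conj (cf f k) * cf g k).re)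
      (inner ℂ f (S1 φ j g)).re := by
  have e : (fun k : ι → Fin 3 → ℤ => φ (k j) * (conj (cf f k) * cf g k).re)
      = fun k => (conj (cf f k) * cf (S1 φ j g) k).re := by
    funext k
    rw [cf_S1 hφ, mul_left_comm, Complex.re_ofReal_mul]
  rw [e]
  exact hasSum_inner_re f (S1 φ j g)

/-- the kinetic sums converge -/
lemma Sqr_summable_kin {φ : (Fin 3 → ℤ) → ℝ} (h0 : ∀ p, 0 ≤ φ p) (h1 : ∀ p, φ p ≤ 1) (j : ι)
    {ψ : HS ι} (hkin : Summable fun k : ι → Fin 3 → ℤ => ksq (k j) * ‖cf ψ k‖ ^ 2) :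
    Summable fun k : ι → Fin 3 → ℤ => φ (k j) * ksq (k j) * ‖cf ψ k‖ ^ 2 := by
  refine Summable.of_nonneg_of_le (fun k => ?_) (fun k => ?_) hkin
  · exact mul_nonneg (mul_nonneg (h0 _) (ksq_nonneg _)) (sq_nonneg _)
  · refine mul_le_mul_of_nonneg_right ?_ (sq_nonneg _)
    calc φ (k j) * ksq (k j) ≤ 1 * ksq (k j) := mul_le_mul_of_nonneg_right (h1 _) (ksq_nonneg _)
      _ = ksq (k j) := one_mul _

lemma Sqr_hasSum_Q {t : ℝ} (ht : 0 ≤ t) (j : ι) (ψ : HS ι) :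
    HasSum (fun k : ι → Fin 3 → ℤ => (1 - et t (k j)) ^ 2 * ‖cf ψ k‖ ^ 2) (‖QQ1 t j ψ‖ ^ 2) :=
  hasSum_DM_norm ((Sqr_bdm_q ht).comp (fun k : ι → Fin 3 → ℤ => k j)) ψ

lemma Sqr_summable_D {t e : ℝ} (ht : 0 < t) (j : ι) {ψ : HS ι}
    (hkin : Summable fun k : ι → Fin 3 → ℤ => ksq (k j) * ‖cf ψ k‖ ^ 2) :
    Summable fun k : ι → Fin 3 → ℤ => ((1 - et t (k j) ^ 2) * ksq (k j)
            - 2 * e / t * (1 - et t (k j)) ^ 2) * ‖cf ψ k‖ ^ 2 := by
  have h1 := Sqr_summable_kin (φ := fun p => 1 - et t p ^ 2) (fun p => by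
    have := et_pos t p
    have := et_le_one ht.le p
    nlinarith) (fun p => by
    have := sq_nonneg (et t p)
    linarith) j hkin
  have h2 := (Sqr_hasSum_Q ht.le j ψ).summable.mul_left (2 * e / t)
  refine (h1.sub h2).congr (fun k => ?_)
  ring

theorem square_j {t e : ℝ} (ht : 0 < t) (he0 : 0 < e) (he : e ≤ 1 / 2) (j : ι) {ψ : HS ι}
    (hkin : Summable fun k : ι → Fin 3 → ℤ => ksq (k j) * ‖cf ψ k‖ ^ 2) (A B : HS ι) :
    -(1 / 4) * ((inner ℂ A (S1 (fun p => alp t p + 8 * e / t * bet t p) j A)).re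
        + 2 * (inner ℂ A (S1 (kap' t) j B)).re
        + (1 + 4 * e) * (inner ℂ B (S1 (kap t) j B)).re)
      ≤ (∑' k : ι → Fin 3 → ℤ, ((1 - et t (k j) ^ 2) * ksq (k j)
            - 2 * e / t * (1 - et t (k j)) ^ 2) * ‖cf ψ k‖ ^ 2)
        + (inner ℂ ψ (S1 (fun p => 1 - et t p ^ 2) j A + QQ1 t j B)).re := by
  have a1 := Sqr_hasSum_S1 (φ := fun p => alp t p + 8 * e / t * bet t p)
    ((bdm_alp ht.le).add ((Bdm.const (8 * e / t)).mul (bdm_bet ht.le))) j A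
  have a2 := Sqr_hasSum_S1' (bdm_kap' ht.le) j A B
  have a3 := Sqr_hasSum_S1 (bdm_kap ht.le) j B
  have a4 := (((a1.add (a2.mul_left 2)).add (a3.mul_left (1 + 4 * e))).mul_left (-(1 / 4)))
  have b1 := (Sqr_summable_D (e := e) ht j hkin).hasSum
  have b2 := hasSum_inner_re ψ (S1 (fun p => 1 - et t p ^ 2) j A + QQ1 t j B)
  refine hasSum_le (fun k => ?_) a4 (b1.add b2)
  have h := mode_ineq ht he0 he (k j) (cf ψ k) (cf A k) (cf B k)
  have e2 : cf (S1 (fun p => 1 - et t p ^ 2) j A + QQ1 t j B) k =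
      ((1 - et t (k j) ^ 2 : ℝ) : ℂ) * cf A k + ((1 - et t (k j) : ℝ) : ℂ) * cf B k := by
    rw [cf_add, cf_S1 (Sqr_bdm_q2 ht.le)]
    unfold QQ1
    rw [cf_S1 (Sqr_bdm_q ht.le)]
  rw [e2]
  calc _ = -(1 / 4) * ((alp t (k j) + 8 * e / t * bet t (k j)) * ‖cf A k‖ ^ 2
        + 2 * kap' t (k j) * (conj (cf A k) * cf B k).re + (1 + 4 * e) * kap t (k j) * ‖cf B k‖ ^ 2) := by
        ring
    _ ≤ _ := h

/-- splitting of the kinetic energy: `ksq = et² ksq + [(1-et²) ksq - r] + r`, `r = 2 e/t (1-et)²` and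
`∑ (1-et)² ‖cf ψ k‖² = ‖Q_j ψ‖²` -/
theorem kin_split {t e : ℝ} (ht : 0 < t) (he0 : 0 < e) (j : ι) {ψ : HS ι}
    (hkin : Summable fun k : ι → Fin 3 → ℤ => ksq (k j) * ‖cf ψ k‖ ^ 2) :
    ∑' k : ι → Fin 3 → ℤ, ksq (k j) * ‖cf ψ k‖ ^ 2
      = (∑' k : ι → Fin 3 → ℤ, et t (k j) ^ 2 * ksq (k j) * ‖cf ψ k‖ ^ 2)
        + (∑' k : ι → Fin 3 → ℤ, ((1 - et t (k j) ^ 2) * ksq (k j)
            - 2 * e / t * (1 - et t (k j)) ^ 2) * ‖cf ψ k‖ ^ 2)
        + 2 * e / t * ‖QQ1 t j ψ‖ ^ 2 := by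
  have h1 := (Sqr_summable_kin (φ := fun p => et t p ^ 2) (fun p => sq_nonneg _) (fun p => by
    have := et_pos t p
    have := et_le_one ht.le p
    nlinarith) j hkin).hasSum
  have h2 := (Sqr_summable_D (e := e) ht j hkin).hasSum
  have h3 := (Sqr_hasSum_Q ht.le j ψ).mul_left (2 * e / t)
  have h4 := (h1.add h2).add h3
  rw [← h4.tsum_eq]
  refine tsum_congr (fun k => ?_)
  ring

/-- `2 Re⟪Q_j ψ, W⟫ ≥ -(e/t) ‖Q_j ψ‖² - (t/e) ‖W‖²` -/
theorem cross_W {t e : ℝ} (ht : 0 < t) (he0 : 0 < e) (j : ι) (ψ W : HS ι) :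
    -(e / t * ‖QQ1 t j ψ‖ ^ 2) - t / e * ‖W‖ ^ 2 ≤ 2 * (inner ℂ (QQ1 t j ψ) W).re := by
  obtain ⟨x, hx⟩ : ∃ x, x = ‖QQ1 t j ψ‖ := ⟨_, rfl⟩
  obtain ⟨y, hy⟩ : ∃ y, y = ‖W‖ := ⟨_, rfl⟩
  have h1 : |(inner ℂ (QQ1 t j ψ) W).re| ≤ x * y := by
    rw [hx, hy]
    exact (Complex.abs_re_le_norm _).trans (norm_inner_le_norm _ _)
  have h2 : -(x * y) ≤ (inner ℂ (QQ1 t j ψ) W).re := (abs_le.1 h1).1
  have h3 : 2 * (x * y) ≤ e / t * x ^ 2 + t / e * y ^ 2 := by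
    have h4 : e / t * x ^ 2 + t / e * y ^ 2 - 2 * (x * y) = (e * x - t * y) ^ 2 / (e * t) := by
      field_simp
      ring
    have h5 : 0 ≤ (e * x - t * y) ^ 2 / (e * t) := by positivity
    linarith
  rw [← hx, ← hy]
  linarith

end Pool.Agent.Lib.MP_4952d6_mp.LB

end

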