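import Pool.Agent.Lib.MP_4952d6_mp.Pk.G08
import Pool.Agent.Lib.MP_4952d6_mp.Pk.G27

/-! Merged modules (to save import time): LB.Op, LB.OpA. -/

/-! ### LB.Op -/

section

/-!
# LB.Op: operators on `L²` of the configuration space (definitions only)

`HS ι = L²((T³)^ι)`, `cf f k` Fourier coefficients, `DM m` Fourier multiplier, `MB G` multiplication by
the bounded function `G`, `S1 φ j` one particle multiplier, `HP h j l` multiplication by
`h (x_j - x_l)`, `qf G f = ∫ G |f|²`.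
-/

set_option autoImplicit false
set_option linter.unusedSectionVars false
set_option linter.unusedVariables false
open MeasureTheory Function Filter Topology Set ComplexConjugate

namespace Pool.Agent.Lib.MP_4952d6_mp.LB

variable {ι : Type*} [Fintype ι]

/-- Square integrable functions of the configuration. -/
noncomputable abbrev HS (ι : Type*) [Fintype ι] := Lp ℂ 2 (piN ι)

/-- Fourier coefficients of an element of `L²`. -/
noncomputable def cf (f : HS ι) (k : ι → Fin 3 → ℤ) : ℂ := fc (f : (ι → T3) → ℂ) k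

/-- Bounded real multiplier. -/
def Bdm {κ : Type*} (m : κ → ℝ) : Prop := ∃ C : ℝ, ∀ k, |m k| ≤ C

open Classical in
/-- Fourier multiplier (total definition, meaningful for bounded `m`). -/
noncomputable def DM (m : (ι → Fin 3 → ℤ) → ℝ) : HS ι →L[ℂ] HS ι :=
  if h : ∃ T : HS ι →L[ℂ] HS ι, ∀ f k, cf (T f) k = (m k : ℂ) * cf f k then h.choose else 0

/-- Bounded measurable complex function. -/
def BMC (G : (ι → T3) → ℂ) : Prop := StronglyMeasurable G ∧ ∃ C : ℝ, ∀ x, ‖G x‖ ≤ C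

open Classical in
/-- Multiplication by a bounded measurable function (total definition). -/
noncomputable def MB (G : (ι → T3) → ℂ) : HS ι →L[ℂ] HS ι :=
  if h : ∃ T : HS ι →L[ℂ] HS ι, ∀ f : HS ι, (T f : (ι → T3) → ℂ) =ᵐ[piN ι] fun x => G x * f x
    then h.choose else 0

/-- Multiplier in the momentum of particle `j`. -/
noncomputable def S1 (φ : (Fin 3 → ℤ) → ℝ) (j : ι) : HS ι →L[ℂ] HS ι := DM (fun k => φ (k j))

/-- Multiplication by `h (x_j - x_l)`. -/
noncomputable def HP (h : T3 → ℝ) (j l : ι) : HS ι →L[ℂ] HS ι :=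
  MB (fun x => ((h (x j - x l) : ℝ) : ℂ))

/-- Quadratic form of the weight `G`: `∫ G |f|²`. -/
noncomputable def qf (G : (ι → T3) → ℝ) (f : HS ι) : ℝ := ∫ x, G x * ‖f x‖ ^ 2 ∂(piN ι)

/-- Indicator of zero momentum. -/
noncomputable def pz (p : Fin 3 → ℤ) : ℝ := if p = 0 then 1 else 0

/-- `exp(-t k²/2)`, the low momentum cutoff. -/
noncomputable def et (t : ℝ) (p : Fin 3 → ℤ) : ℝ := Real.exp (-(t / 2 * ksq p))

/-- `(1 - η²)/k²`, zero at `k = 0`. -/
noncomputable def alp (t : ℝ) (p : Fin 3 → ℤ) : ℝ := if p = 0 then 0 else (1 - et t p ^ 2) / ksq p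

/-- `(1 - η²)²/k⁴`, zero at `k = 0`. -/
noncomputable def bet (t : ℝ) (p : Fin 3 → ℤ) : ℝ :=
  if p = 0 then 0 else ((1 - et t p ^ 2) / ksq p) ^ 2

/-- `(1 - η)/k²`, `t/2` at `k = 0`. -/
noncomputable def kap (t : ℝ) (p : Fin 3 → ℤ) : ℝ := if p = 0 then t / 2 else (1 - et t p) / ksq p

/-- `(1 - η)/k²`, zero at `k = 0`. -/
noncomputable def kap' (t : ℝ) (p : Fin 3 → ℤ) : ℝ := if p = 0 then 0 else (1 - et t p) / ksq p

/-- Projection on the constant function in the variable `j`. -/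
noncomputable def Pz (j : ι) : HS ι →L[ℂ] HS ι := S1 pz j

/-- The low momentum operator `P_j` (convolution with `p_{t/2}`). -/
noncomputable def PP1 (t : ℝ) (j : ι) : HS ι →L[ℂ] HS ι := S1 (et t) j

/-- The high momentum operator `Q_j = 1 - P_j`. -/
noncomputable def QQ1 (t : ℝ) (j : ι) : HS ι →L[ℂ] HS ι := S1 (fun p => 1 - et t p) j

/-- `Φ⁰_{jl} = Π_j Π_l ψ`. -/
noncomputable def Phi0 (j l : ι) (ψ : HS ι) : HS ι := Pz j (Pz l ψ)

/-- `Φ_{jl} = P_j P_l ψ`. -/
noncomputable def Phi (t : ℝ) (j l : ι) (ψ : HS ι) : HS ι := PP1 t j (PP1 t l ψ)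

/-- `Φ¹_{jl} = P_j P_l ψ - Π_j Π_l ψ`. -/
noncomputable def Phi1 (t : ℝ) (j l : ι) (ψ : HS ι) : HS ι := Phi t j l ψ - Phi0 j l ψ

/-- `ψ - Π_j ψ`. -/
noncomputable def perp (j : ι) (ψ : HS ι) : HS ι := ψ - Pz j ψ

section
variable [DecidableEq ι]

/-- Convolution in the variable `x_j` of a real function. -/
noncomputable def cvj (w : T3 → ℝ) (j : ι) (G : (ι → T3) → ℝ) (x : ι → T3) : ℝ :=
  ∫ y, w (x j - y) * G (update x j y) ∂lam3

/-- Convolution in the variable `x_j` of a complex function. -/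
noncomputable def cvc (w : T3 → ℝ) (j : ι) (F : (ι → T3) → ℂ) (x : ι → T3) : ℂ :=
  ∫ y, (w (x j - y) : ℂ) * F (update x j y) ∂lam3

end

/-- Convolution on the torus. -/
noncomputable def cn (w h : T3 → ℝ) (z : T3) : ℝ := ∫ y, w (z - y) * h y ∂lam3

end Pool.Agent.Lib.MP_4952d6_mp.LB

end

/-! ### LB.OpA -/

section

/-!
# LB.OpA: Fourier coefficients on `L²`

`cf f k = fc f k`. All from Lib Torus.lean (`parseval`, `parseval_sq`), HardCore.lean (`exists_of_l2`)
and `Lp` basics (`Lp.coeFn_add`, `MemLp.coeFn_toLp`, `Lp.memLp`, `L2.inner_def`). `fc` of a.e. equal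
functions agree (`integral_congr_ae`); `fc` of a sum: integrable because `L² ⊂ L¹` (probability) and
`chN` is bounded. `inner ℂ f g = ∫ conj (f x) * g x`.
-/

set_option autoImplicit false
set_option linter.unusedSectionVars false
set_option linter.unusedVariables false
open MeasureTheory Function Filter Topology Set ComplexConjugate

namespace Pool.Agent.Lib.MP_4952d6_mp.LB

variable {ι : Type*} [Fintype ι]

lemma OpA_memLp (k : ι → Fin 3 → ℤ) : MemLp (chN k) 2 (piN ι) :=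
  MemLp.of_bound (chN_sm k).aestronglyMeasurable 1
    (Eventually.of_forall fun x => (chN_norm k x).le)

lemma OpA_inner (f g : HS ι) : inner ℂ f g = ∫ x, conj (f x) * g x ∂(piN ι) := by
  rw [L2.inner_def]
  refine integral_congr_ae (Eventually.of_forall fun x => ?_)
  show inner ℂ (f x) (g x) = _
  rw [RCLike.inner_apply, mul_comm]

lemma OpA_cf_eq (f : HS ι) (k : ι → Fin 3 → ℤ) :
    cf f k = inner ℂ ((OpA_memLp k).toLp (chN k)) f := by
  rw [OpA_inner]
  unfold cf fc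
  refine integral_congr_ae ?_
  filter_upwards [(OpA_memLp k).coeFn_toLp] with x hx
  rw [hx]

lemma fc_congr {f g : (ι → T3) → ℂ} (h : f =ᵐ[piN ι] g) (k : ι → Fin 3 → ℤ) : fc f k = fc g k := by
  unfold fc
  refine integral_congr_ae ?_
  filter_upwards [h] with x hx
  rw [hx]

lemma cf_toLp {f : (ι → T3) → ℂ} (hf : MemLp f 2 (piN ι)) (k : ι → Fin 3 → ℤ) :
    cf (hf.toLp f) k = fc f k := by
  exact fc_congr hf.coeFn_toLp k

lemma cf_add (f g : HS ι) (k : ι → Fin 3 → ℤ) : cf (f + g) k = cf f k + cf g k := by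
  simp only [OpA_cf_eq, inner_add_right]

lemma cf_sub (f g : HS ι) (k : ι → Fin 3 → ℤ) : cf (f - g) k = cf f k - cf g k := by
  simp only [OpA_cf_eq, inner_sub_right]

lemma cf_neg (f : HS ι) (k : ι → Fin 3 → ℤ) : cf (-f) k = - cf f k := by
  simp only [OpA_cf_eq, inner_neg_right]

lemma cf_smul (c : ℂ) (f : HS ι) (k : ι → Fin 3 → ℤ) : cf (c • f) k = c * cf f k := by
  simp only [OpA_cf_eq, inner_smul_right]

lemma cf_zero (k : ι → Fin 3 → ℤ) : cf (0 : HS ι) k = 0 := by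
  simp only [OpA_cf_eq, inner_zero_right]

lemma cf_sum {κ : Type*} (s : Finset κ) (f : κ → HS ι) (k : ι → Fin 3 → ℤ) :
    cf (∑ i ∈ s, f i) k = ∑ i ∈ s, cf (f i) k := by
  simp only [OpA_cf_eq, inner_sum]

lemma hasSum_inner (f g : HS ι) : HasSum (fun k => conj (cf f k) * cf g k) (inner ℂ f g) := by
  rw [OpA_inner]
  exact parseval (Lp.memLp f) (Lp.memLp g)

lemma hasSum_inner_re (f g : HS ι) :
    HasSum (fun k => (conj (cf f k) * cf g k).re) (inner ℂ f g).re := by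
  exact Complex.hasSum_re (hasSum_inner f g)

lemma hasSum_norm_sq (f : HS ι) : HasSum (fun k => ‖cf f k‖ ^ 2) (‖f‖ ^ 2) := by
  have h := parseval_sq (Lp.memLp f)
  have e : ‖f‖ ^ 2 = ∫ x, ‖f x‖ ^ 2 ∂(piN ι) := by
    rw [← re_integral_conj_mul, ← OpA_inner]
    exact (inner_self_eq_norm_sq (𝕜 := ℂ) f).symm
  rw [e]
  exact h

lemma norm_sq_eq (f : HS ι) : ‖f‖ ^ 2 = ∫ x, ‖f x‖ ^ 2 ∂(piN ι) := by
  rw [← re_integral_conj_mul, ← OpA_inner]
  exact (inner_self_eq_norm_sq (𝕜 := ℂ) f).symm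

lemma integrable_norm_sq (f : HS ι) : Integrable (fun x => ‖f x‖ ^ 2) (piN ι) := by
  exact (memLp_two_iff_integrable_sq_norm (Lp.aestronglyMeasurable f)).1 (Lp.memLp f)

lemma norm_cf_le (f : HS ι) (k : ι → Fin 3 → ℤ) : ‖cf f k‖ ≤ ‖f‖ := by
  have h := le_hasSum (hasSum_norm_sq f) k (fun j _ => sq_nonneg _)
  exact (pow_le_pow_iff_left₀ (norm_nonneg _) (norm_nonneg _) two_ne_zero).1 h

/-- Injectivity of the Fourier transform. -/
lemma cf_ext {f g : HS ι} (h : ∀ k, cf f k = cf g k) : f = g := by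
  have h1 := hasSum_norm_sq (f - g)
  have h2 : (fun k => ‖cf (f - g) k‖ ^ 2) = fun _ => 0 := by
    funext k
    rw [cf_sub, h k, sub_self, norm_zero]
    norm_num
  rw [h2] at h1
  have h3 := h1.unique hasSum_zero
  have h4 : ‖f - g‖ = 0 := by simpa using h3
  exact sub_eq_zero.1 (norm_eq_zero.1 h4)

/-- Riesz-Fischer. -/
lemma exists_cf (c : (ι → Fin 3 → ℤ) → ℂ) (hc : Summable fun k => ‖c k‖ ^ 2) :
    ∃ f : HS ι, ∀ k, cf f k = c k := by
  classical
  obtain ⟨Φ, hΦ, h⟩ := exists_of_l2 c hc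
  exact ⟨hΦ.toLp Φ, fun k => by rw [cf_toLp, h]⟩

/-- a function with the right Fourier coefficients is a representative -/
lemma ae_eq_of_fc {f : HS ι} {g : (ι → T3) → ℂ} (hg : MemLp g 2 (piN ι))
    (h : ∀ k, fc g k = cf f k) : (f : (ι → T3) → ℂ) =ᵐ[piN ι] g := by
  have e : f = hg.toLp g := cf_ext fun k => by rw [cf_toLp, h]
  rw [e]
  exact hg.coeFn_toLp

end Pool.Agent.Lib.MP_4952d6_mp.LB

end

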