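import Pool.Agent.Lib.MP_4952d6_mp.Pk.G02
import Pool.Agent.Lib.MP_4952d6_mp.Pk.G05
import Pool.Agent.Lib.MP_4952d6_mp.Pk.G10
import Pool.Agent.Lib.MP_4952d6_mp.Pk.G11
import Pool.Agent.Lib.MP_4952d6_mp.Pk.G12
import Pool.Agent.Lib.MP_4952d6_mp.Pk.G13
import Pool.Agent.Lib.MP_4952d6_mp.Pk.G27
import Pool.Agent.Lib.MP_4952d6_mp.Pk.G30

/-! Merged modules (to save import time): LB.Swap, LB.HkX, LB.Wt, LB.WtB, LB.ChgE. -/

/-! ### LB.Swap -/

section

/-!
# LB.Swap: resampling one coordinate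

Lib: `mp_upd`, `mp_swap` in Resample.lean, `integral_shift`, `integral_reflect` in Gas.lean.
The map `(x, y) ↦ (update x j y, x j)` of `(ι → T3) × T3` preserves `(piN ι).prod lam3`
(`piN ι = Measure.pi`, all factors `lam3`; e.g. it is a homomorphism of compact groups:
`AddMonoidHom.measurePreserving` as in Torus.lean, `mp_curry`, or use `MeasurableEquiv` for
`Measure.pi` splitting off the coordinate `j`). It is an involution.
-/

set_option autoImplicit false
set_option linter.unusedSectionVars false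
set_option linter.unusedVariables false
open MeasureTheory Function Filter Topology Set ComplexConjugate

namespace Pool.Agent.Lib.MP_4952d6_mp.LB

variable {ι : Type*} [Fintype ι] [DecidableEq ι]

/-- exchange the coordinate `j` with the extra variable -/
def swj (j : ι) (q : (ι → T3) × T3) : (ι → T3) × T3 := (update q.1 j q.2, q.1 j)

lemma swj_swj (j : ι) (q : (ι → T3) × T3) : swj j (swj j q) = q := by
  simp [swj]

theorem mp_swj (j : ι) :
    MeasurePreserving (swj (ι := ι) j) ((piN ι).prod lam3) ((piN ι).prod lam3) := by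
  exact mp_swap lam3 j

/-- the projection `(x, y) ↦ update x j y` -/
theorem mp_upd (j : ι) :
    MeasurePreserving (fun q : (ι → T3) × T3 => update q.1 j q.2) ((piN ι).prod lam3) (piN ι) := by
  exact Pool.Agent.Lib.MP_4952d6_mp.mp_upd lam3 j

/-- Resampling for nonnegative functions. -/
theorem lintegral_swj (j : ι) {F : (ι → T3) × T3 → ENNReal}
    (hF : AEMeasurable F ((piN ι).prod lam3)) :
    ∫⁻ q, F (swj j q) ∂((piN ι).prod lam3) = ∫⁻ q, F q ∂((piN ι).prod lam3) := by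
  have h := mp_swj (ι := ι) j
  have h1 : ∫⁻ q, F q ∂(((piN ι).prod lam3).map (swj j)) = ∫⁻ q, F (swj j q) ∂((piN ι).prod lam3) :=
    lintegral_map' (by rw [h.map_eq]; exact hF) h.measurable.aemeasurable
  rw [← h1, h.map_eq]

/-- Resampling. -/
theorem integral_swj {E : Type*} [NormedAddCommGroup E] [NormedSpace ℝ E] (j : ι)
    {F : (ι → T3) × T3 → E} (hF : AEStronglyMeasurable F ((piN ι).prod lam3)) :
    ∫ q, F (swj j q) ∂((piN ι).prod lam3) = ∫ q, F q ∂((piN ι).prod lam3) := by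
  exact mp_integral (mp_swj (ι := ι) j) hF

/-- Averaging one coordinate does not change the integral. -/
theorem integral_upd {E : Type*} [NormedAddCommGroup E] [NormedSpace ℝ E] [CompleteSpace E] (j : ι)
    {F : (ι → T3) → E} (hF : Integrable F (piN ι)) :
    ∫ x, ∫ y, F (update x j y) ∂lam3 ∂(piN ι) = ∫ x, F x ∂(piN ι) := by
  have h := mp_upd (ι := ι) j
  have h1 : Integrable (fun q : (ι → T3) × T3 => F (update q.1 j q.2)) ((piN ι).prod lam3) :=
    h.integrable_comp_of_integrable hF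
  have h2 := integral_prod _ h1
  rw [← mp_integral h hF.aestronglyMeasurable, h2]

/-- translation and reflection on the torus -/
theorem int_sub_left {E : Type*} [NormedAddCommGroup E] [NormedSpace ℝ E] (f : T3 → E) (z : T3) :
    ∫ y, f (z - y) ∂lam3 = ∫ y, f y ∂lam3 := by
  exact integral_sub_left_eq_self f lam3 z

theorem int_sub_right {E : Type*} [NormedAddCommGroup E] [NormedSpace ℝ E] (f : T3 → E) (z : T3) :
    ∫ y, f (y - z) ∂lam3 = ∫ y, f y ∂lam3 := by
  exact integral_sub_right_eq_self f z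

end Pool.Agent.Lib.MP_4952d6_mp.LB

end

/-! ### LB.HkX -/

section

/-!
# LB.HkX: three more facts on the torus heat kernel

`rr z ^ 2 = ∑ α, crd z α ^ 2` (`rr_sq`), `hk s z = ∏ α, hk1 0 s (crd z α)`, `hk1 0 s y = ∑ₙ gs1 s (y+n)`,
`hkD_coe` allows any real representatives of the coordinates, in particular
`hk s (z + y) = ∏ α, hk1 0 s (crd z α + crd y α)`.

(a) `rr z ≤ ∑ α |crd z α|`; `|crd z α| ≤ |crd z α + n|` for all integers `n` (as `|crd| ≤ 1/2`), so
`|crd z α| hk1 0 s (crd z α) ≤ ∑ₙ |y+n| gs1 s (y+n) ≤ C √s ∑ₙ gs1 (2s) (y+n)`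
(`|y| exp(-y²/8s) ≤ 2√s`); the other two coordinates: `hk1_le_hk1` with `r = 2s`.
(b) one coordinate: `δ² ≤ s` gives `(y+δ)² ≥ y²/2 - δ² ≥ y²/2 - s`, so
`gs1 s (y+δ) ≤ √2 e^{1/4} gs1 (2s) y`; sum over the images, product over the coordinates.
(c) if `rr (u-v) ≤ √s`: go from `v` to `u` changing one coordinate at a time, mean value theorem
(`hkD_WD` or `hk1_hasDerivAt`), `|dhk α s w| ≤ 4/√s hk (2s) w` (`dhk_le`) and (b) (with `s` replaced by
`2s`) give `|dhk α s w| ≤ C/√s hk (4s) v` on the path; if `rr (u-v) > √s` use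
`|hk s u - hk s v| ≤ hk s u + hk s v ≤ C (hk (4s) u + hk (4s) v)` (`hk_le_hk`) and `1 ≤ rr(u-v)/√s`.
-/

set_option autoImplicit false
set_option linter.unusedSectionVars false
set_option linter.unusedVariables false
open MeasureTheory Function Filter Topology Set

namespace Pool.Agent.Lib.MP_4952d6_mp.LB

lemma HkX_hk (s : ℝ) (z : T3) : hk s z = ∏ α, hk1 0 s (crd z α) := rfl

lemma HkX_hk_add (s : ℝ) (z y : T3) : hk s (z + y) = ∏ α, hk1 0 s (crd z α + crd y α) := by
  have h := hkD_coe 0 s (fun α => crd z α + crd y α)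
  have e : (fun α => ((crd z α + crd y α : ℝ) : UnitAddCircle)) = z + y := by
    funext α
    rw [AddCircle.coe_add, coe_crd z α, coe_crd y α]
    rfl
  rw [e] at h
  exact h

lemma HkX_summable {s : ℝ} (hs : 0 < s) (y : ℝ) : Summable fun n : ℤ => gs1 s (y + n) :=
  gsj_summable hs 0 y

lemma HkX_hk1 (s y : ℝ) : hk1 0 s y = ∑' n : ℤ, gs1 s (y + n) := rfl

lemma HkX_abs_mul_gs1 {s : ℝ} (hs : 0 < s) (t : ℝ) : |t| * gs1 s t ≤ 4 * Real.sqrt s * gs1 (2 * s) t := by
  have h1 := gs1d_le hs t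
  have h0 : 0 < Real.sqrt s := Real.sqrt_pos.2 hs
  have hss : Real.sqrt s * Real.sqrt s = s := Real.mul_self_sqrt hs.le
  have h2 : |gs1d s t| = |t| * gs1 s t / (2 * s) := by
    unfold gs1d
    rw [abs_mul, abs_neg, abs_div, abs_of_nonneg (gs1_nonneg s t), abs_of_pos (by positivity : (0:ℝ) < 2 * s)]
    ring
  rw [h2, div_le_iff₀ (by positivity)] at h1
  refine h1.trans_eq ?_
  have : 2 / Real.sqrt s * gs1 (2 * s) t * (2 * s) = 4 * (s / Real.sqrt s) * gs1 (2 * s) t := by ring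
  rw [this]
  congr 2
  rw [div_eq_iff h0.ne', hss]

lemma HkX_abs_le {y : ℝ} (hy : |y| ≤ 1 / 2) (n : ℤ) : |y| ≤ |y + n| := by
  rcases eq_or_ne n 0 with h | h
  · rw [h]; simp
  · have h1 : (1 : ℝ) ≤ |(n : ℝ)| := by
      have := Int.one_le_abs h
      exact_mod_cast this
    have h2 : |(n : ℝ)| ≤ |y + n| + |y| := by
      calc |(n : ℝ)| = |(y + n) - y| := by ring_nf
        _ ≤ |y + n| + |y| := abs_sub _ _
    linarith

lemma HkX_abs_mul_hk1 {s : ℝ} (hs : 0 < s) {y : ℝ} (hy : |y| ≤ 1 / 2) :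
    |y| * hk1 0 s y ≤ 4 * Real.sqrt s * hk1 0 (2 * s) y := by
  rw [HkX_hk1, HkX_hk1, ← tsum_mul_left, ← tsum_mul_left]
  refine Summable.tsum_le_tsum (fun n => ?_) ((HkX_summable hs y).mul_left _)
    ((HkX_summable (by positivity) y).mul_left _)
  exact (mul_le_mul_of_nonneg_right (HkX_abs_le hy n) (gs1_nonneg _ _)).trans (HkX_abs_mul_gs1 hs _)

lemma HkX_two {s : ℝ} (hs : 0 < s) (y : ℝ) : hk1 0 s y ≤ 2 * hk1 0 (2 * s) y := by
  have h := hk1_le_hk1 hs (by linarith : s ≤ 2 * s) y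
  have e : 2 * s / s = 2 := by field_simp
  rw [e] at h
  have h2 : Real.sqrt 2 ≤ 2 := by
    rw [Real.sqrt_le_left (by norm_num)]; norm_num
  exact h.trans (mul_le_mul_of_nonneg_right h2 (hk1_nonneg _ _))

lemma HkX_four {s : ℝ} (hs : 0 < s) (y : ℝ) : hk1 0 s y ≤ 2 * hk1 0 (4 * s) y := by
  have h := hk1_le_hk1 hs (by linarith : s ≤ 4 * s) y
  have e : 4 * s / s = 2 ^ 2 := by field_simp; norm_num
  rw [e, Real.sqrt_sq (by norm_num)] at h
  exact h

theorem rr_mul_hk : ∃ C : ℝ, 0 ≤ C ∧ ∀ s : ℝ, 0 < s → ∀ z : T3,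
    rr z * hk s z ≤ C * Real.sqrt s * hk (2 * s) z := by
  refine ⟨48, by norm_num, fun s hs z => ?_⟩
  have h0 : 0 ≤ Real.sqrt s := Real.sqrt_nonneg s
  have hr : rr z ≤ |crd z 0| + |crd z 1| + |crd z 2| := by
    refine abs_le_of_sq_le_sq' ?_ (by positivity) |>.2
    rw [rr_sq, Fin.sum_univ_three]
    have q0 := sq_abs (crd z 0)
    have q1 := sq_abs (crd z 1)
    have q2 := sq_abs (crd z 2)
    have m1 := mul_nonneg (abs_nonneg (crd z 0)) (abs_nonneg (crd z 1))
    have m2 := mul_nonneg (abs_nonneg (crd z 0)) (abs_nonneg (crd z 2))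
    have m3 := mul_nonneg (abs_nonneg (crd z 1)) (abs_nonneg (crd z 2))
    rw [← q0, ← q1, ← q2]
    have e : (|crd z 0| + |crd z 1| + |crd z 2|) ^ 2 = |crd z 0| ^ 2 + |crd z 1| ^ 2 + |crd z 2| ^ 2
        + 2 * (|crd z 0| * |crd z 1|) + 2 * (|crd z 0| * |crd z 2|) + 2 * (|crd z 1| * |crd z 2|) := by ring
    rw [e]
    linarith only [m1, m2, m3]
  have hc : ∀ α, |crd z α| ≤ 1 / 2 := fun α => by
    have := crd_mem z α
    rw [abs_le]
    exact ⟨by linarith [this.1], this.2⟩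
  have hA : ∀ α, |crd z α| * hk1 0 s (crd z α) ≤ 4 * Real.sqrt s * hk1 0 (2 * s) (crd z α) :=
    fun α => HkX_abs_mul_hk1 hs (hc α)
  have hB : ∀ α, hk1 0 s (crd z α) ≤ 2 * hk1 0 (2 * s) (crd z α) := fun α => HkX_two hs _
  have hN : ∀ α, 0 ≤ hk1 0 s (crd z α) := fun α => hk1_nonneg _ _
  have hM : ∀ α, 0 ≤ hk1 0 (2 * s) (crd z α) := fun α => hk1_nonneg _ _
  rw [HkX_hk, HkX_hk, Fin.prod_univ_three, Fin.prod_univ_three]
  set a := hk1 0 s (crd z 0)
  set b := hk1 0 s (crd z 1)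
  set c := hk1 0 s (crd z 2)
  set A := hk1 0 (2 * s) (crd z 0)
  set B := hk1 0 (2 * s) (crd z 1)
  set D := hk1 0 (2 * s) (crd z 2)
  have ha : 0 ≤ a := hN 0
  have hb : 0 ≤ b := hN 1
  have hcc : 0 ≤ c := hN 2
  have hA' : 0 ≤ A := hM 0
  have hB' : 0 ≤ B := hM 1
  have hD' : 0 ≤ D := hM 2
  have e1 : (|crd z 0| * a) * (b * c) ≤ (4 * Real.sqrt s * A) * ((2 * B) * (2 * D)) :=
    mul_le_mul (hA 0) (mul_le_mul (hB 1) (hB 2) hcc (by positivity)) (by positivity) (by positivity)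
  have e2 : (|crd z 1| * b) * (a * c) ≤ (4 * Real.sqrt s * B) * ((2 * A) * (2 * D)) :=
    mul_le_mul (hA 1) (mul_le_mul (hB 0) (hB 2) hcc (by positivity)) (by positivity) (by positivity)
  have e3 : (|crd z 2| * c) * (a * b) ≤ (4 * Real.sqrt s * D) * ((2 * A) * (2 * B)) :=
    mul_le_mul (hA 2) (mul_le_mul (hB 0) (hB 1) hb (by positivity)) (by positivity) (by positivity)
  calc rr z * (a * b * c) ≤ (|crd z 0| + |crd z 1| + |crd z 2|) * (a * b * c) :=
        mul_le_mul_of_nonneg_right hr (by positivity)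
    _ = (|crd z 0| * a) * (b * c) + (|crd z 1| * b) * (a * c) + (|crd z 2| * c) * (a * b) := by ring
    _ ≤ (4 * Real.sqrt s * A) * ((2 * B) * (2 * D)) + (4 * Real.sqrt s * B) * ((2 * A) * (2 * D))
        + (4 * Real.sqrt s * D) * ((2 * A) * (2 * B)) := by linarith
    _ = 48 * Real.sqrt s * (A * B * D) := by ring

lemma HkX_gs1_shift {s : ℝ} (hs : 0 < s) {δ : ℝ} (hδ : δ ^ 2 ≤ s) (t : ℝ) :
    gs1 s (t + δ) ≤ 2 * Real.exp (1 / 4) * gs1 (2 * s) t := by
  unfold gs1
  have hp := Real.pi_pos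
  have h1 : (Real.sqrt (4 * Real.pi * s))⁻¹ ≤ 2 * (Real.sqrt (4 * Real.pi * (2 * s)))⁻¹ := by
    have h2 : Real.sqrt (4 * Real.pi * (2 * s)) ≤ 2 * Real.sqrt (4 * Real.pi * s) := by
      have : Real.sqrt (4 * Real.pi * (2 * s)) ≤ Real.sqrt (2 ^ 2 * (4 * Real.pi * s)) :=
        Real.sqrt_le_sqrt (by
          have hps := mul_pos hp hs
          have e1 : 4 * Real.pi * (2 * s) = 8 * (Real.pi * s) := by ring
          have e2 : (2:ℝ) ^ 2 * (4 * Real.pi * s) = 16 * (Real.pi * s) := by ring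
          rw [e1, e2]
          linarith only [hps])
      rwa [Real.sqrt_mul (by norm_num : (0:ℝ) ≤ 2 ^ 2) (4 * Real.pi * s), Real.sqrt_sq (by norm_num : (0:ℝ) ≤ 2)] at this
    have h3 : 0 < Real.sqrt (4 * Real.pi * s) := Real.sqrt_pos.2 (by positivity)
    have h4 : 0 < Real.sqrt (4 * Real.pi * (2 * s)) := Real.sqrt_pos.2 (by positivity)
    rw [← div_eq_mul_inv, inv_eq_one_div, div_le_div_iff₀ h3 h4]
    linarith
  have h2 : Real.exp (-((t + δ) ^ 2) / (4 * s)) ≤ Real.exp (1 / 4) * Real.exp (-(t ^ 2) / (4 * (2 * s))) := by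
    rw [← Real.exp_add]
    apply Real.exp_le_exp.2
    have e : (1 : ℝ) / 4 + -(t ^ 2) / (4 * (2 * s)) = (2 * s - t ^ 2) / (8 * s) := by field_simp; ring
    have e' : -((t + δ) ^ 2) / (4 * s) = (-(2 * (t + δ) ^ 2)) / (8 * s) := by field_simp; ring
    rw [e, e']
    apply div_le_div_of_nonneg_right _ (by positivity)
    have e3 := sq_nonneg (t + 2 * δ)
    have e4 : 2 * (t + δ) ^ 2 - t ^ 2 + 2 * δ ^ 2 = (t + 2 * δ) ^ 2 := by ring
    linarith only [hδ, e3, e4]
  calc (Real.sqrt (4 * Real.pi * s))⁻¹ * Real.exp (-((t + δ) ^ 2) / (4 * s))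
      ≤ (2 * (Real.sqrt (4 * Real.pi * (2 * s)))⁻¹) * (Real.exp (1 / 4) * Real.exp (-(t ^ 2) / (4 * (2 * s)))) :=
        mul_le_mul h1 h2 (Real.exp_pos _).le (by positivity)
    _ = _ := by ring

lemma HkX_hk1_shift {s : ℝ} (hs : 0 < s) {δ : ℝ} (hδ : δ ^ 2 ≤ s) (t : ℝ) :
    hk1 0 s (t + δ) ≤ 2 * Real.exp (1 / 4) * hk1 0 (2 * s) t := by
  rw [HkX_hk1, HkX_hk1, ← tsum_mul_left]
  refine Summable.tsum_le_tsum (fun n => ?_) (HkX_summable hs _)
    ((HkX_summable (by positivity) t).mul_left _)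
  have := HkX_gs1_shift hs hδ (t + n)
  have e : t + δ + (n : ℝ) = t + n + δ := by ring
  rw [e]
  exact this

lemma HkX_crd_sq_le (y : T3) (α : Fin 3) : crd y α ^ 2 ≤ rr y ^ 2 := by
  have := abs_crd_le_rr y α
  rw [← sq_abs]
  exact pow_le_pow_left₀ (abs_nonneg _) this 2

theorem hk_shift : ∃ C : ℝ, 0 ≤ C ∧ ∀ s : ℝ, 0 < s → ∀ z y : T3, rr y ^ 2 ≤ s →
    hk s (z + y) ≤ C * hk (2 * s) z := by
  refine ⟨(2 * Real.exp (1 / 4)) ^ 3, by positivity, fun s hs z y hy => ?_⟩
  rw [HkX_hk_add, HkX_hk]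
  calc ∏ α, hk1 0 s (crd z α + crd y α) ≤ ∏ α : Fin 3, (2 * Real.exp (1 / 4) * hk1 0 (2 * s) (crd z α)) :=
        Finset.prod_le_prod (fun α _ => hk1_nonneg _ _)
          (fun α _ => HkX_hk1_shift hs ((HkX_crd_sq_le y α).trans hy) _)
    _ = _ := by
        rw [Finset.prod_mul_distrib, Finset.prod_const, Finset.card_univ, Fintype.card_fin]

lemma HkX_mvt {s : ℝ} (hs : 0 < s) {δ : ℝ} (hδ : δ ^ 2 ≤ s) (t : ℝ) :
    |hk1 0 s (t + δ) - hk1 0 s t| ≤ 4 * Real.exp (1 / 4) * (|δ| / Real.sqrt s) * hk1 0 (4 * s) t := by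
  have h0 : 0 < Real.sqrt s := Real.sqrt_pos.2 hs
  have hb : ∀ x ∈ uIcc t (t + δ), ‖hk1 1 s x‖ ≤ 4 * Real.exp (1 / 4) / Real.sqrt s * hk1 0 (4 * s) t := by
    intro x hx
    have h1 := hk1_one_le hs x
    have h2 : (x - t) ^ 2 ≤ 2 * s := by
      have h3 : |x - t| ≤ |t + δ - t| := abs_sub_left_of_mem_uIcc hx
      have h4 : t + δ - t = δ := by ring
      rw [h4] at h3
      have h5 : (x - t) ^ 2 ≤ δ ^ 2 := sq_le_sq.2 h3
      linarith
    have h3 := HkX_hk1_shift (by positivity : 0 < 2 * s) h2 t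
    have e1 : t + (x - t) = x := by ring
    have e2 : 2 * (2 * s) = 4 * s := by ring
    rw [e1, e2] at h3
    rw [Real.norm_eq_abs]
    calc |hk1 1 s x| ≤ 2 / Real.sqrt s * hk1 0 (2 * s) x := h1
      _ ≤ 2 / Real.sqrt s * (2 * Real.exp (1 / 4) * hk1 0 (4 * s) t) :=
          mul_le_mul_of_nonneg_left h3 (by positivity)
      _ = _ := by ring
  have h := Convex.norm_image_sub_le_of_norm_hasDerivWithin_le (f := hk1 0 s) (f' := hk1 1 s) (s := uIcc t (t + δ))
    (x := t) (y := t + δ) (fun x _ => (hk1_hasDerivAt hs x).hasDerivWithinAt) hb (convex_uIcc _ _)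
    left_mem_uIcc right_mem_uIcc
  rw [Real.norm_eq_abs, Real.norm_eq_abs] at h
  have e : t + δ - t = δ := by ring
  rw [e] at h
  refine h.trans_eq ?_
  ring

theorem hk_diff : ∃ C : ℝ, 0 ≤ C ∧ ∀ s : ℝ, 0 < s → ∀ u v : T3,
    |hk s u - hk s v| ≤ C * (rr (u - v) / Real.sqrt s) * (hk (4 * s) u + hk (4 * s) v) := by
  set E := Real.exp (1 / 4) with hE
  have hE0 : 1 ≤ E := Real.one_le_exp (by norm_num)
  refine ⟨3 * (4 * E) ^ 3 + 8, by positivity, fun s hs u v => ?_⟩
  have h0 : 0 < Real.sqrt s := Real.sqrt_pos.2 hs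
  set d := rr (u - v) with hd
  have hd0 : 0 ≤ d := rr_nonneg _
  have hku : 0 ≤ hk (4 * s) u := hk_nonneg _ _
  have hkv : 0 ≤ hk (4 * s) v := hk_nonneg _ _
  rcases le_or_gt (d ^ 2) s with hds | hds
  · set δ : Fin 3 → ℝ := fun α => crd (u - v) α with hδ
    have hδs : ∀ α, δ α ^ 2 ≤ s := fun α => (HkX_crd_sq_le (u - v) α).trans hds
    have hδd : ∀ α, |δ α| ≤ d := fun α => abs_crd_le_rr _ _
    have hu : hk s u = ∏ α, hk1 0 s (crd v α + δ α) := by
      have := HkX_hk_add s v (u - v)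
      rwa [add_sub_cancel] at this
    have ha : ∀ α, hk1 0 s (crd v α + δ α) ≤ 4 * E * hk1 0 (4 * s) (crd v α) := fun α => by
      have h1 := HkX_hk1_shift hs (hδs α) (crd v α)
      have h2 := HkX_two (by positivity : 0 < 2 * s) (crd v α)
      have e2 : 2 * (2 * s) = 4 * s := by ring
      rw [e2] at h2
      calc hk1 0 s (crd v α + δ α) ≤ 2 * E * hk1 0 (2 * s) (crd v α) := h1
        _ ≤ 2 * E * (2 * hk1 0 (4 * s) (crd v α)) := mul_le_mul_of_nonneg_left h2 (by positivity)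
        _ = _ := by ring
    have hb : ∀ α, hk1 0 s (crd v α) ≤ 4 * E * hk1 0 (4 * s) (crd v α) := fun α => by
      have h1 := HkX_four hs (crd v α)
      have h2 : 0 ≤ hk1 0 (4 * s) (crd v α) := hk1_nonneg _ _
      exact h1.trans (mul_le_mul_of_nonneg_right (by linarith only [hE0]) h2)
    have hab : ∀ α, |hk1 0 s (crd v α + δ α) - hk1 0 s (crd v α)|
        ≤ 4 * E * (d / Real.sqrt s) * hk1 0 (4 * s) (crd v α) := fun α => by
      refine (HkX_mvt hs (hδs α) (crd v α)).trans ?_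
      refine mul_le_mul_of_nonneg_right ?_ (hk1_nonneg _ _)
      refine mul_le_mul_of_nonneg_left ?_ (by positivity)
      exact div_le_div_of_nonneg_right (hδd α) h0.le
    have hv : hk s v = ∏ α, hk1 0 s (crd v α) := HkX_hk s v
    have hv4 : hk (4 * s) v = ∏ α, hk1 0 (4 * s) (crd v α) := HkX_hk (4 * s) v
    rw [hu, hv]
    have key : |∏ α, hk1 0 s (crd v α + δ α) - ∏ α, hk1 0 s (crd v α)|
        ≤ 3 * (4 * E) ^ 3 * (d / Real.sqrt s) * hk (4 * s) v := by
      rw [hv4, Fin.prod_univ_three, Fin.prod_univ_three, Fin.prod_univ_three]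
      have n1 : ∀ α, 0 ≤ hk1 0 s (crd v α + δ α) := fun α => hk1_nonneg _ _
      have n2 : ∀ α, 0 ≤ hk1 0 s (crd v α) := fun α => hk1_nonneg _ _
      have n3 : ∀ α, 0 ≤ hk1 0 (4 * s) (crd v α) := fun α => hk1_nonneg _ _
      have ha0 := ha 0; have ha1 := ha 1; have ha2 := ha 2
      have hb0 := hb 0; have hb1 := hb 1; have hb2 := hb 2
      have hc0 := hab 0; have hc1 := hab 1; have hc2 := hab 2
      have p0 := n1 0; have p1 := n1 1; have p2 := n1 2
      have q0 := n2 0; have q1 := n2 1; have q2 := n2 2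
      have r0 := n3 0; have r1 := n3 1; have r2 := n3 2
      generalize hk1 0 s (crd v 0 + δ 0) = a0 at *
      generalize hk1 0 s (crd v 1 + δ 1) = a1 at *
      generalize hk1 0 s (crd v 2 + δ 2) = a2 at *
      generalize hk1 0 s (crd v 0) = b0 at *
      generalize hk1 0 s (crd v 1) = b1 at *
      generalize hk1 0 s (crd v 2) = b2 at *
      generalize hk1 0 (4 * s) (crd v 0) = H0 at *
      generalize hk1 0 (4 * s) (crd v 1) = H1 at *
      generalize hk1 0 (4 * s) (crd v 2) = H2 at *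
      have hκ : 0 ≤ d / Real.sqrt s := by positivity
      generalize d / Real.sqrt s = κ at *
      have e1 : |a0 - b0| * (a1 * a2) ≤ (4 * E * κ * H0) * ((4 * E * H1) * (4 * E * H2)) :=
        mul_le_mul hc0 (mul_le_mul ha1 ha2 p2 (by positivity)) (by positivity) (by positivity)
      have e2 : |a1 - b1| * (b0 * a2) ≤ (4 * E * κ * H1) * ((4 * E * H0) * (4 * E * H2)) :=
        mul_le_mul hc1 (mul_le_mul hb0 ha2 p2 (by positivity)) (by positivity) (by positivity)
      have e3 : |a2 - b2| * (b0 * b1) ≤ (4 * E * κ * H2) * ((4 * E * H0) * (4 * E * H1)) :=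
        mul_le_mul hc2 (mul_le_mul hb0 hb1 q1 (by positivity)) (by positivity) (by positivity)
      calc |a0 * a1 * a2 - b0 * b1 * b2| = |(a0 - b0) * (a1 * a2) + (a1 - b1) * (b0 * a2) + (a2 - b2) * (b0 * b1)| := by
            congr 1; ring
        _ ≤ |(a0 - b0) * (a1 * a2)| + |(a1 - b1) * (b0 * a2)| + |(a2 - b2) * (b0 * b1)| := abs_add_three _ _ _
        _ = |a0 - b0| * (a1 * a2) + |a1 - b1| * (b0 * a2) + |a2 - b2| * (b0 * b1) := by
            rw [abs_mul (a0 - b0), abs_mul (a1 - b1), abs_mul (a2 - b2), abs_of_nonneg (mul_nonneg p1 p2),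
              abs_of_nonneg (mul_nonneg q0 p2), abs_of_nonneg (mul_nonneg q0 q1)]
        _ ≤ (4 * E * κ * H0) * ((4 * E * H1) * (4 * E * H2)) + (4 * E * κ * H1) * ((4 * E * H0) * (4 * E * H2))
            + (4 * E * κ * H2) * ((4 * E * H0) * (4 * E * H1)) := by linarith
        _ = _ := by ring
    refine key.trans ?_
    have h1 : 0 ≤ d / Real.sqrt s := by positivity
    have h2 : 0 ≤ 3 * (4 * E) ^ 3 := by positivity
    calc 3 * (4 * E) ^ 3 * (d / Real.sqrt s) * hk (4 * s) v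
        ≤ (3 * (4 * E) ^ 3 + 8) * (d / Real.sqrt s) * hk (4 * s) v := by
          refine mul_le_mul_of_nonneg_right ?_ hkv
          exact mul_le_mul_of_nonneg_right (by linarith) h1
      _ ≤ (3 * (4 * E) ^ 3 + 8) * (d / Real.sqrt s) * (hk (4 * s) u + hk (4 * s) v) := by
          refine mul_le_mul_of_nonneg_left (by linarith) (by positivity)
  · have hsd : 1 ≤ d / Real.sqrt s := by
      rw [le_div_iff₀ h0, one_mul]
      exact Real.sqrt_le_iff.2 ⟨hd0, hds.le⟩
    have e : 4 * s / s = 2 ^ 2 := by field_simp; norm_num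
    have h1 := hk_le_hk hs (by linarith : s ≤ 4 * s) u
    have h2 := hk_le_hk hs (by linarith : s ≤ 4 * s) v
    rw [e, Real.sqrt_sq (by norm_num)] at h1 h2
    have h3 : 0 ≤ hk s u := hk_nonneg _ _
    have h4 : 0 ≤ hk s v := hk_nonneg _ _
    have h5 : |hk s u - hk s v| ≤ 8 * (hk (4 * s) u + hk (4 * s) v) := by
      rw [abs_le]
      constructor <;> linarith
    refine h5.trans ?_
    have h6 : 0 ≤ hk (4 * s) u + hk (4 * s) v := by positivity
    refine mul_le_mul_of_nonneg_right ?_ h6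
    have h7 : 0 ≤ 3 * (4 * E) ^ 3 := by positivity
    calc (8:ℝ) ≤ (3 * (4 * E) ^ 3 + 8) * 1 := by linarith only [h7]
      _ ≤ (3 * (4 * E) ^ 3 + 8) * (d / Real.sqrt s) :=
          mul_le_mul_of_nonneg_left hsd (by linarith only [h7])

/-- triangle inequality for the torus distance -/
theorem rr_add_le (u v : T3) : rr (u + v) ≤ rr u + rr v := by
  unfold rr
  refine le_trans ?_ (norm_add_le _ _)
  refine abs_le_of_sq_le_sq' ?_ (norm_nonneg _) |>.2
  rw [EuclideanSpace.norm_sq_eq, EuclideanSpace.norm_sq_eq]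
  refine Finset.sum_le_sum fun α _ => ?_
  simp only [vv, PiLp.add_apply, Pi.add_apply, norm_norm]
  have h1 : ‖u α + v α‖ ≤ ‖u α‖ + ‖v α‖ := norm_add_le _ _
  have h2 : ‖‖u α‖ + ‖v α‖‖ = ‖u α‖ + ‖v α‖ := Real.norm_of_nonneg (by positivity)
  rw [h2]
  exact pow_le_pow_left₀ (norm_nonneg _) h1 2

end Pool.Agent.Lib.MP_4952d6_mp.LB

end

/-! ### LB.Wt -/

section

/-!
# LB.Wt: weights

`h` is a bounded measurable even function `≥ 0` with `h z = 0` for `rr z > R` and `∫ h = H`; `p = hk (t/2)`.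

* `cvj_diff_left`/`right`: substitution (`int_sub_left`, `int_sub_right`), `w` even.
* `cn_hk_le`: `hk s (z - y) ≤ C hk (2s) z` for `rr y ≤ R`, `R² ≤ s` (`hk_shift`).
* `cn_hk_hk`: associativity of convolution and `hk_conv`.
* `wt_pair`: `cvj p j (cvj p l (h(x_j-x_l))) = cn (hk t) h (x_j-x_l)`: first `cvj p l` gives
  `cn p h (x_j - x_l)`, then `cvj p j` gives `cn p (cn p h) (x_j - x_l)`.
* `wt_three`: `cvj p l` only acts on `h(x_j-x_l)`: `cn p h (x_j-x_l) ≤ C H hk t (x_j-x_l)` (`cn_hk_le`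
  with `s = t/2`); then `cvj p j` gives at most
  `C H ∫ p(x_j-y) hk t (y-x_l) cn (hk u) h (y-x_m) dy`
  `= C H ∫ h(z) ∫ hk(t/2)(y-x_j) hk t (y-x_l) hk u (y-x_m-z) dy dz`; `hk (t/2) ≤ √2³ hk t` (`hk_le_hk`),
  `hk_three` gives `≤ C H ∫ h(z) hk(4t)(x_m+z-x_j) hk(4t)(x_m+z-x_l) dz` and `hk_shift` (`rr z ≤ R`, `R² ≤ 4t`)
  replaces `4t` by `8t` and removes `z`.
* `wt_three_zero`: `∫∫ h(y-z) cn (hk u) h (y-x_m) dz dy = H · H`.
* `wt_hh`: `cvj p l` and `cvj p m` act on one factor each: `≤ (C H)² hk t (x_j-x_l) hk t (x_j-x_m)`, then `cvj p j`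
  and `hk_three` with `u = t/2`, `w = x_j`: `≤ C H² hk(4t)(x_j-x_l) hk(4t)(x_j-x_m)`.
* `wt_hh_zero`: the average over `x_j` of `(C H)² hk t (x_j-x_l) hk t (x_j-x_m)` is `(C H)² hk (2t) (x_l-x_m)`
  (`hk_conv`, `hk_neg`).
`cvj (fun _ => 1) j` is the average over `x_j`.
-/

set_option autoImplicit false
set_option linter.unusedSectionVars false
set_option linter.unusedVariables false
open MeasureTheory Function Filter Topology Set ComplexConjugate

namespace Pool.Agent.Lib.MP_4952d6_mp.LB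

variable {ι : Type*} [Fintype ι] [DecidableEq ι]

/-- Short range charge. -/
structure SR (H R : ℝ) (h : T3 → ℝ) : Prop where
  bm : BM h
  nonneg : ∀ z, 0 ≤ h z
  even : ∀ z, h (-z) = h z
  supp : ∀ z, R < rr z → h z = 0
  int : ∫ y, h y ∂lam3 = H

lemma hk_bm {s : ℝ} (hs : 0 < s) : BM (hk s) := by
  refine ⟨(hkD_continuous 0 hs).measurable, (1 + (Real.sqrt (4 * Real.pi * s))⁻¹) ^ 3, fun x => ?_⟩
  rw [abs_of_nonneg (hk_nonneg s x)]
  exact hk_le hs x

lemma cn_nonneg {w h : T3 → ℝ} (hw : ∀ z, 0 ≤ w z) (hh : ∀ z, 0 ≤ h z) (z : T3) :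
    0 ≤ cn w h z := by
  exact integral_nonneg fun y => mul_nonneg (hw _) (hh _)

lemma cn_neg {w h : T3 → ℝ} (hw : ∀ z, w (-z) = w z) (hh : ∀ z, h (-z) = h z) (z : T3) :
    cn w h (-z) = cn w h z := by
  unfold cn
  rw [← integral_neg_eq_self (fun y => w (-z - y) * h y) lam3]
  refine integral_congr_ae (Eventually.of_forall fun y => ?_)
  simp only
  rw [hh y, show -z - -y = -(z - y) by abel, hw]

lemma cn_integral {w h : T3 → ℝ} (hw : BM w) (hh : BM h) :
    ∫ z, cn w h z ∂lam3 = (∫ y, w y ∂lam3) * ∫ y, h y ∂lam3 := by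
  unfold cn
  have h1 : Integrable (uncurry fun z y : T3 => w (z - y) * h y) (lam3.prod lam3) := by
    have h2 : BM (fun q : T3 × T3 => w (q.1 - q.2) * h q.2) :=
      (hw.comp measurable_sub_fst_snd).mul (hh.comp measurable_snd)
    exact h2.integrable _
  rw [integral_integral_swap h1, ← integral_const_mul]
  refine integral_congr_ae (Eventually.of_forall fun y => ?_)
  simp only
  rw [integral_mul_const, int_sub_right]

lemma cn_hk_hk {s r : ℝ} (hs : 0 < s) (hr : 0 < r) {h : T3 → ℝ} (hh : BM h) (z : T3) :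
    cn (hk s) (cn (hk r) h) z = cn (hk (s + r)) h z := by
  have hs' := hk_bm hs
  have hr' := hk_bm hr
  have e1 : cn (hk s) (cn (hk r) h) z = ∫ y, ∫ u, hk s (z - y) * (hk r (y - u) * h u) ∂lam3 ∂lam3 := by
    unfold cn
    refine integral_congr_ae (Eventually.of_forall fun y => ?_)
    simp only
    rw [integral_const_mul]
  have h1 : Integrable (uncurry fun y u : T3 => hk s (z - y) * (hk r (y - u) * h u)) (lam3.prod lam3) := by
    have h2 : BM (fun q : T3 × T3 => hk s (z - q.1) * (hk r (q.1 - q.2) * h q.2)) :=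
      (hs'.comp (measurable_sub' measurable_const measurable_fst)).mul
        ((hr'.comp measurable_sub_fst_snd).mul (hh.comp measurable_snd))
    exact h2.integrable _
  rw [e1, integral_integral_swap h1]
  unfold cn
  refine integral_congr_ae (Eventually.of_forall fun u => ?_)
  simp only
  rw [← hk_conv hs hr (z - u), ← int_sub_right (fun y => hk s (z - u - y) * hk r y) u,
    ← integral_mul_const]
  refine integral_congr_ae (Eventually.of_forall fun y => ?_)
  simp only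
  rw [show z - u - (y - u) = z - y by abel]
  ring

lemma cvj_diff_left {w g : T3 → ℝ} {j l : ι} (hjl : j ≠ l) (x : ι → T3) :
    cvj w j (fun x => g (x j - x l)) x = cn w g (x j - x l) := by
  unfold cvj cn
  rw [← int_sub_right (fun y => w (x j - x l - y) * g y) (x l)]
  refine integral_congr_ae (Eventually.of_forall fun y => ?_)
  simp only
  rw [update_self, update_of_ne hjl.symm, show x j - x l - (y - x l) = x j - y by abel]

lemma cvj_diff_right {w g : T3 → ℝ} (hw : ∀ z, w (-z) = w z) {j l : ι} (hjl : j ≠ l)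
    (x : ι → T3) : cvj w l (fun x => g (x j - x l)) x = cn w g (x j - x l) := by
  unfold cvj cn
  rw [← int_sub_left (fun y => w (x j - x l - y) * g y) (x j)]
  refine integral_congr_ae (Eventually.of_forall fun y => ?_)
  simp only
  rw [update_self, update_of_ne hjl, show x j - x l - (x j - y) = -(x l - y) by abel, hw]

theorem cn_hk_le : ∃ C : ℝ, 0 ≤ C ∧ ∀ (s H R : ℝ) (h : T3 → ℝ), 0 < s → SR H R h → R ^ 2 ≤ s →
    0 ≤ R → ∀ z, cn (hk s) h z ≤ C * H * hk (2 * s) z := by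
  obtain ⟨C, hC0, hC⟩ := hk_shift
  refine ⟨C, hC0, fun s H R h hs hh hR hR0 z => ?_⟩
  have h1 : ∀ y, hk s (z - y) * h y ≤ C * hk (2 * s) z * h y := by
    intro y
    by_cases hy : R < rr y
    · rw [hh.supp y hy]
      simp
    · push Not at hy
      have h2 : rr (-y) ^ 2 ≤ s := by
        rw [rr_neg]
        exact le_trans (pow_le_pow_left₀ (rr_nonneg y) hy 2) hR
      have h3 := hC s hs z (-y) h2
      rw [← sub_eq_add_neg] at h3
      exact mul_le_mul_of_nonneg_right h3 (hh.nonneg y)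
  have h4 : BM (fun y => hk s (z - y) * h y) :=
    ((hk_bm hs).comp (measurable_sub' measurable_const measurable_id)).mul hh.bm
  have h5 : BM (fun y => C * hk (2 * s) z * h y) := hh.bm.const_mul _
  calc cn (hk s) h z ≤ ∫ y, C * hk (2 * s) z * h y ∂lam3 :=
        integral_mono (h4.integrable _) (h5.integrable _) h1
    _ = C * hk (2 * s) z * H := by rw [integral_const_mul, hh.int]
    _ = C * H * hk (2 * s) z := by ring

theorem wt_pair {t : ℝ} (ht : 0 < t) {h : T3 → ℝ} (hh : BM h) {j l : ι} (hjl : j ≠ l)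
    (x : ι → T3) : cvj (hk (t / 2)) j (cvj (hk (t / 2)) l (fun x => h (x j - x l))) x
      = cn (hk t) h (x j - x l) := by
  have h1 : cvj (hk (t / 2)) l (fun x : ι → T3 => h (x j - x l)) =
      fun x => cn (hk (t / 2)) h (x j - x l) := by
    funext x
    exact cvj_diff_right (fun z => hk_neg (t / 2) z) hjl x
  rw [h1, cvj_diff_left hjl, cn_hk_hk (half_pos ht) (half_pos ht) hh, add_halves]

end Pool.Agent.Lib.MP_4952d6_mp.LB

end

/-! ### LB.WtB -/

section

/-!
# LB.WtB: weights with three particles (see the header of LB.Wt for the proofs)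
-/

set_option autoImplicit false
set_option linter.unusedSectionVars false
set_option linter.unusedVariables false
open MeasureTheory Function Filter Topology Set ComplexConjugate

namespace Pool.Agent.Lib.MP_4952d6_mp.LB

variable {ι : Type*} [Fintype ι] [DecidableEq ι]

lemma WtB_cn_bm {w h : T3 → ℝ} (hw : BM w) (hh : BM h) : BM (cn w h) := by
  obtain ⟨A, hA0, hA⟩ := hw.exists_nonneg_bound
  obtain ⟨B, hB0, hB⟩ := hh.exists_nonneg_bound
  have hm : Measurable (fun q : T3 × T3 => w (q.1 - q.2) * h q.2) :=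
    (hw.meas.comp (measurable_fst.sub measurable_snd)).mul (hh.meas.comp measurable_snd)
  refine ⟨?_, A * B, fun z => ?_⟩
  · exact (hm.stronglyMeasurable.integral_prod_right').measurable
  · unfold cn
    rw [← Real.norm_eq_abs]
    have h1 : ∀ᵐ y ∂lam3, ‖w (z - y) * h y‖ ≤ A * B := ae_of_all _ fun y => by
      rw [norm_mul, Real.norm_eq_abs, Real.norm_eq_abs]
      exact mul_le_mul (hA _) (hB _) (abs_nonneg _) hA0
    have h2 := norm_integral_le_of_norm_le_const h1
    simpa using h2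

/-- a factor which does not depend on the coordinate -/
lemma WtB_mul_right {w : T3 → ℝ} {j : ι} {G K : (ι → T3) → ℝ} (hK : ∀ x y, K (update x j y) = K x)
    (x : ι → T3) : cvj w j (fun x => G x * K x) x = cvj w j G x * K x := by
  unfold cvj
  simp only [hK]
  rw [← integral_mul_const]
  refine integral_congr_ae (ae_of_all _ fun y => ?_)
  ring

lemma WtB_mul_left {w : T3 → ℝ} {j : ι} {G K : (ι → T3) → ℝ} (hK : ∀ x y, K (update x j y) = K x)
    (x : ι → T3) : cvj w j (fun x => K x * G x) x = K x * cvj w j G x := by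
  have e : (fun x => K x * G x) = fun x => G x * K x := by
    funext x
    ring
  rw [e, WtB_mul_right hK, mul_comm]

lemma WtB_upd {j l m : ι} (hjl : j ≠ l) (hjm : m ≠ l) (g : T3 → ℝ) (x : ι → T3) (y : T3) :
    g (update x l y j - update x l y m) = g (x j - x m) := by
  rw [update_of_ne hjl, update_of_ne hjm]

/-- first step: the average over the coordinate `l` -/
lemma WtB_step {w : T3 → ℝ} (hw : ∀ z, w (-z) = w z) {g k : T3 → ℝ} {j l m : ι} (hjl : j ≠ l)
    (hlm : l ≠ m) : cvj w l (fun x : ι → T3 => g (x j - x l) * k (x j - x m))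
      = fun x => cn w g (x j - x l) * k (x j - x m) := by
  funext x
  rw [WtB_mul_right (fun x y => WtB_upd hjl hlm.symm k x y), cvj_diff_right hw hjl]

lemma WtB_step' {w : T3 → ℝ} (hw : ∀ z, w (-z) = w z) {g k : T3 → ℝ} {j l m : ι} (hjm : j ≠ m)
    (hlm : l ≠ m) : cvj w m (fun x : ι → T3 => g (x j - x l) * k (x j - x m))
      = fun x => g (x j - x l) * cn w k (x j - x m) := by
  funext x
  rw [WtB_mul_left (fun x y => WtB_upd hjm hlm g x y), cvj_diff_right hw hjm]

lemma WtB_last {w : T3 → ℝ} {g k : T3 → ℝ} {j l m : ι} (hjl : j ≠ l) (hjm : j ≠ m) (x : ι → T3) :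
    cvj w j (fun x : ι → T3 => g (x j - x l) * k (x j - x m)) x
      = ∫ y, w (x j - y) * (g (y - x l) * k (y - x m)) ∂lam3 := by
  unfold cvj
  refine integral_congr_ae (ae_of_all _ fun y => ?_)
  simp only [update_self, update_of_ne hjl.symm, update_of_ne hjm.symm]

lemma WtB_comp {f : T3 → ℝ} (hf : BM f) (z : T3) : BM fun y => f (y - z) :=
  hf.comp (measurable_id.sub_const z)

lemma WtB_comp' {f : T3 → ℝ} (hf : BM f) (z : T3) : BM fun y => f (z - y) :=
  hf.comp (measurable_id.const_sub z)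

lemma WtB_int {f : T3 → ℝ} (hf : BM f) : Integrable f lam3 := hf.integrable lam3

lemma WtB_H {H R : ℝ} {h : T3 → ℝ} (hh : SR H R h) : 0 ≤ H := by
  rw [← hh.int]
  exact integral_nonneg hh.nonneg

/-- replace two factors by upper bounds -/
lemma WtB_mono {w g k g' k' : T3 → ℝ} (hw : BM w) (hw0 : ∀ z, 0 ≤ w z) (hg : BM g) (hk : BM k)
    (hg' : BM g') (hk' : BM k') (hk0 : ∀ z, 0 ≤ k z) (hg0' : ∀ z, 0 ≤ g' z)
    (h1 : ∀ z, g z ≤ g' z) (h2 : ∀ z, k z ≤ k' z) :
    ∫ y, w y * (g y * k y) ∂lam3 ≤ ∫ y, w y * (g' y * k' y) ∂lam3 := by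
  refine integral_mono (WtB_int (hw.mul (hg.mul hk))) (WtB_int (hw.mul (hg'.mul hk'))) fun y => ?_
  exact mul_le_mul_of_nonneg_left (mul_le_mul (h1 y) (h2 y) (hk0 y) (hg0' y)) (hw0 y)

theorem wt_three : ∃ C : ℝ, 0 ≤ C ∧ ∀ (N : ℕ) (u t H R : ℝ) (h : T3 → ℝ) (j l m : Fin N), 0 < u →
    u ≤ t / 2 → t ≤ 1 → SR H R h → 0 ≤ R → R ^ 2 ≤ t / 2 → j ≠ l → j ≠ m → l ≠ m →
    ∀ x : Fin N → T3, cvj (hk (t / 2)) j (cvj (hk (t / 2)) l
      (fun x => h (x j - x l) * cn (hk u) h (x j - x m))) x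
      ≤ C * H ^ 2 * (hk (8 * t) (x m - x j) * hk (8 * t) (x m - x l)) := by
  obtain ⟨C1, hC1, h1⟩ := cn_hk_le
  obtain ⟨C2, hC2, h2⟩ := hk_shift
  obtain ⟨C3, hC3, h3⟩ := hk_three
  refine ⟨C1 * Real.sqrt 2 ^ 3 * C3 * C2 ^ 2, by positivity, ?_⟩
  intro N u t H R h j l m hu hut ht1 hh hR hRt hjl hjm hlm x
  have ht : 0 < t := by linarith
  have ht2 : 0 < t / 2 := by linarith
  have hH := WtB_H hh
  have hb2 := hk_bm ht2
  have hbt := hk_bm ht
  have hbu := hk_bm hu
  rw [WtB_step (hk_neg (t / 2)) hjl hlm, WtB_last hjl hjm]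
  -- replace the first factor
  have s1 : ∫ y, hk (t / 2) (x j - y) * (cn (hk (t / 2)) h (y - x l) * cn (hk u) h (y - x m)) ∂lam3
      ≤ ∫ y, hk (t / 2) (x j - y) * ((C1 * H * hk t (y - x l)) * cn (hk u) h (y - x m)) ∂lam3 := by
    refine WtB_mono (w := fun y => hk (t / 2) (x j - y)) (g := fun y => cn (hk (t / 2)) h (y - x l))
      (k := fun y => cn (hk u) h (y - x m)) (g' := fun y => C1 * H * hk t (y - x l))
      (k' := fun y => cn (hk u) h (y - x m)) (WtB_comp' hb2 _) (fun z => hk_nonneg _ _)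
      (WtB_comp (WtB_cn_bm hb2 hh.bm) _) (WtB_comp (WtB_cn_bm hbu hh.bm) _)
      ((WtB_comp hbt _).const_mul _) (WtB_comp (WtB_cn_bm hbu hh.bm) _)
      (fun z => cn_nonneg (hk_nonneg u) hh.nonneg _)
      (fun z => mul_nonneg (mul_nonneg hC1 hH) (hk_nonneg _ _)) (fun z => ?_) (fun z => le_rfl)
    have h4 := h1 (t / 2) H R h ht2 hh hRt hR (z - x l)
    rwa [show 2 * (t / 2) = t by ring] at h4
  refine s1.trans ?_
  -- Fubini
  have s2 : ∫ y, hk (t / 2) (x j - y) * ((C1 * H * hk t (y - x l)) * cn (hk u) h (y - x m)) ∂lam3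
      = C1 * H * ∫ z, h z * (∫ y, hk (t / 2) (x j - y) * hk t (y - x l) * hk u (y - (x m + z)) ∂lam3)
        ∂lam3 := by
    have e1 : ∫ y, hk (t / 2) (x j - y) * ((C1 * H * hk t (y - x l)) * cn (hk u) h (y - x m)) ∂lam3
        = C1 * H * ∫ y, ∫ z, h z * (hk (t / 2) (x j - y) * hk t (y - x l) * hk u (y - (x m + z)))
          ∂lam3 ∂lam3 := by
      rw [← integral_const_mul]
      refine integral_congr_ae (ae_of_all _ fun y => ?_)
      simp only
      unfold cn
      have e2 : ∫ z, h z * (hk (t / 2) (x j - y) * hk t (y - x l) * hk u (y - (x m + z))) ∂lam3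
          = (hk (t / 2) (x j - y) * hk t (y - x l)) * ∫ z, hk u (y - x m - z) * h z ∂lam3 := by
        rw [← integral_const_mul]
        refine integral_congr_ae (ae_of_all _ fun z => ?_)
        simp only
        rw [sub_sub]
        ring
      rw [e2]
      ring
    rw [e1]
    congr 1
    have hint : Integrable (Function.uncurry fun (y z : T3) =>
        h z * (hk (t / 2) (x j - y) * hk t (y - x l) * hk u (y - (x m + z)))) (lam3.prod lam3) := by
      have hb : BM (fun q : T3 × T3 =>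
          h q.2 * (hk (t / 2) (x j - q.1) * hk t (q.1 - x l) * hk u (q.1 - (x m + q.2)))) := by
        refine (hh.bm.comp measurable_snd).mul (((hb2.comp ?_).mul (hbt.comp ?_)).mul (hbu.comp ?_))
        · exact measurable_fst.const_sub _
        · exact measurable_fst.sub_const _
        · exact measurable_fst.sub (measurable_snd.const_add _)
      exact hb.integrable _
    rw [integral_integral_swap hint]
    refine integral_congr_ae (ae_of_all _ fun z => ?_)
    simp only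
    rw [integral_const_mul]
  rw [s2]
  -- the inner integral
  have s3 : ∀ z, h z * (∫ y, hk (t / 2) (x j - y) * hk t (y - x l) * hk u (y - (x m + z)) ∂lam3)
      ≤ h z * (Real.sqrt 2 ^ 3 * (C3 * (C2 ^ 2 * (hk (8 * t) (x m - x j) * hk (8 * t) (x m - x l))))) := by
    intro z
    by_cases hz : h z = 0
    · rw [hz, zero_mul, zero_mul]
    refine mul_le_mul_of_nonneg_left ?_ (hh.nonneg z)
    have hrz : rr z ≤ R := by
      by_contra hcon
      exact hz (hh.supp z (not_le.1 hcon))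
    have hrz2 : rr z ^ 2 ≤ 4 * t := by
      have := pow_le_pow_left₀ (rr_nonneg z) hrz 2
      linarith
    have i1 : ∫ y, hk (t / 2) (x j - y) * hk t (y - x l) * hk u (y - (x m + z)) ∂lam3
        ≤ ∫ y, Real.sqrt 2 ^ 3 * (hk t (y - x j) * hk t (y - x l) * hk u (y - (x m + z))) ∂lam3 := by
      refine integral_mono (WtB_int (((WtB_comp' hb2 _).mul (WtB_comp hbt _)).mul (WtB_comp hbu _)))
        (WtB_int ((((WtB_comp hbt _).mul (WtB_comp hbt _)).mul (WtB_comp hbu _)).const_mul _))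
        fun y => ?_
      have e3 : hk (t / 2) (x j - y) ≤ Real.sqrt 2 ^ 3 * hk t (y - x j) := by
        have h4 := hk_le_hk ht2 (by linarith : t / 2 ≤ t) (x j - y)
        have e4 : t / (t / 2) = 2 := by
          field_simp
        rw [e4] at h4
        rwa [← hk_neg t (y - x j), neg_sub]
      have e5 : 0 ≤ hk t (y - x l) * hk u (y - (x m + z)) := mul_nonneg (hk_nonneg _ _) (hk_nonneg _ _)
      have e6 := mul_le_mul_of_nonneg_right e3 e5
      calc hk (t / 2) (x j - y) * hk t (y - x l) * hk u (y - (x m + z))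
          = hk (t / 2) (x j - y) * (hk t (y - x l) * hk u (y - (x m + z))) := mul_assoc _ _ _
        _ ≤ Real.sqrt 2 ^ 3 * hk t (y - x j) * (hk t (y - x l) * hk u (y - (x m + z))) := e6
        _ = Real.sqrt 2 ^ 3 * (hk t (y - x j) * hk t (y - x l) * hk u (y - (x m + z))) := by ring
    refine i1.trans ?_
    rw [integral_const_mul]
    refine mul_le_mul_of_nonneg_left ?_ (by positivity)
    refine (h3 u t hu (by linarith) ht1 (x m + z) (x j) (x l)).trans ?_
    refine mul_le_mul_of_nonneg_left ?_ hC3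
    have f1 : hk (4 * t) (x m + z - x j) ≤ C2 * hk (8 * t) (x m - x j) := by
      have h5 := h2 (4 * t) (by linarith) (x m - x j) z hrz2
      have e7 : x m - x j + z = x m + z - x j := by abel
      rw [e7, show 2 * (4 * t) = 8 * t by ring] at h5
      exact h5
    have f2 : hk (4 * t) (x m + z - x l) ≤ C2 * hk (8 * t) (x m - x l) := by
      have h5 := h2 (4 * t) (by linarith) (x m - x l) z hrz2
      have e7 : x m - x l + z = x m + z - x l := by abel
      rw [e7, show 2 * (4 * t) = 8 * t by ring] at h5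
      exact h5
    have f3 := mul_le_mul f1 f2 (hk_nonneg _ _) (mul_nonneg hC2 (hk_nonneg _ _))
    refine f3.trans (le_of_eq ?_)
    ring
  have hbin : BM fun z => ∫ y, hk (t / 2) (x j - y) * hk t (y - x l) * hk u (y - (x m + z)) ∂lam3 := by
    obtain ⟨A, hA0, hA⟩ := (((WtB_comp' hb2 (x j)).mul (WtB_comp hbt (x l)))).exists_nonneg_bound
    obtain ⟨B, hB0, hB⟩ := hbu.exists_nonneg_bound
    have hm : Measurable (fun q : T3 × T3 =>
        hk (t / 2) (x j - q.2) * hk t (q.2 - x l) * hk u (q.2 - (x m + q.1))) := by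
      refine ((hb2.meas.comp ?_).mul (hbt.meas.comp ?_)).mul (hbu.meas.comp ?_)
      · exact measurable_snd.const_sub _
      · exact measurable_snd.sub_const _
      · exact measurable_snd.sub (measurable_fst.const_add _)
    refine ⟨(hm.stronglyMeasurable.integral_prod_right').measurable, A * B, fun z => ?_⟩
    rw [← Real.norm_eq_abs]
    have h1 : ∀ᵐ y ∂lam3, ‖hk (t / 2) (x j - y) * hk t (y - x l) * hk u (y - (x m + z))‖ ≤ A * B :=
      ae_of_all _ fun y => by
        rw [norm_mul, Real.norm_eq_abs, Real.norm_eq_abs]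
        exact mul_le_mul (hA _) (hB _) (abs_nonneg _) hA0
    have h2 := norm_integral_le_of_norm_le_const h1
    simpa using h2
  have s4 := integral_mono (WtB_int (hh.bm.mul hbin)) (WtB_int (hh.bm.mul (BM.const
    (Real.sqrt 2 ^ 3 * (C3 * (C2 ^ 2 * (hk (8 * t) (x m - x j) * hk (8 * t) (x m - x l)))))))) s3
  rw [integral_mul_const, hh.int] at s4
  have s5 := mul_le_mul_of_nonneg_left s4 (mul_nonneg hC1 hH)
  refine s5.trans (le_of_eq ?_)
  ring

theorem wt_three_zero {u H R : ℝ} (hu : 0 < u) {h : T3 → ℝ} (hh : SR H R h) {j l m : ι}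
    (hjl : j ≠ l) (hjm : j ≠ m) (hlm : l ≠ m) (x : ι → T3) :
    cvj (fun _ => 1) j (cvj (fun _ => 1) l
      (fun x => h (x j - x l) * cn (hk u) h (x j - x m))) x = H ^ 2 := by
  rw [WtB_step (fun _ => rfl) hjl hlm]
  have e1 : ∀ z, cn (fun _ => 1) h z = H := by
    intro z
    unfold cn
    simp only [one_mul]
    exact hh.int
  have e2 : (fun x : ι → T3 => cn (fun _ => 1) h (x j - x l) * cn (hk u) h (x j - x m))
      = fun x => H * cn (hk u) h (x j - x m) := by
    funext x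
    rw [e1]
  rw [e2, WtB_mul_left (G := fun x : ι → T3 => cn (hk u) h (x j - x m)) (K := fun _ => H)
    (fun _ _ => rfl), cvj_diff_left hjm]
  have e3 : cn (fun _ => 1) (cn (hk u) h) (x j - x m) = H := by
    unfold cn
    simp only [one_mul]
    have h4 := cn_integral (hk_bm hu) hh.bm
    unfold cn at h4
    rw [h4, hk_integral hu, hh.int, one_mul]
  rw [e3, sq]

/-- the two factors `cn p h` -/
lemma WtB_two {C1 : ℝ} (hC1 : 0 ≤ C1) (h1 : ∀ (s H R : ℝ) (h : T3 → ℝ), 0 < s → SR H R h → R ^ 2 ≤ s →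
    0 ≤ R → ∀ z, cn (hk s) h z ≤ C1 * H * hk (2 * s) z) {t H R : ℝ} {h : T3 → ℝ} (ht : 0 < t)
    (hh : SR H R h) (hR : 0 ≤ R) (hRt : R ^ 2 ≤ t / 2) {w : T3 → ℝ} (hw : BM w)
    (hw0 : ∀ z, 0 ≤ w z) (a b : T3) :
    ∫ y, w y * (cn (hk (t / 2)) h (y - a) * cn (hk (t / 2)) h (y - b)) ∂lam3
      ≤ (C1 * H) ^ 2 * ∫ y, w y * (hk t (y - a) * hk t (y - b)) ∂lam3 := by
  have ht2 : 0 < t / 2 := by linarith
  have hH := WtB_H hh
  have hb2 := hk_bm ht2
  have hbt := hk_bm ht
  have h4 : ∀ z, cn (hk (t / 2)) h z ≤ C1 * H * hk t z := by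
    intro z
    have h5 := h1 (t / 2) H R h ht2 hh hRt hR z
    rwa [show 2 * (t / 2) = t by ring] at h5
  have s1 : ∫ y, w y * (cn (hk (t / 2)) h (y - a) * cn (hk (t / 2)) h (y - b)) ∂lam3
      ≤ ∫ y, w y * ((C1 * H * hk t (y - a)) * (C1 * H * hk t (y - b))) ∂lam3 := by
    refine WtB_mono (w := w) (g := fun y => cn (hk (t / 2)) h (y - a))
      (k := fun y => cn (hk (t / 2)) h (y - b)) (g' := fun y => C1 * H * hk t (y - a))
      (k' := fun y => C1 * H * hk t (y - b)) hw hw0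
      (WtB_comp (WtB_cn_bm hb2 hh.bm) _) (WtB_comp (WtB_cn_bm hb2 hh.bm) _)
      ((WtB_comp hbt _).const_mul _) ((WtB_comp hbt _).const_mul _)
      (fun z => cn_nonneg (hk_nonneg _) hh.nonneg _)
      (fun z => mul_nonneg (mul_nonneg hC1 hH) (hk_nonneg _ _)) (fun z => h4 _) (fun z => h4 _)
  refine s1.trans (le_of_eq ?_)
  rw [← integral_const_mul]
  refine integral_congr_ae (ae_of_all _ fun y => ?_)
  simp only
  ring

theorem wt_hh : ∃ C : ℝ, 0 ≤ C ∧ ∀ (N : ℕ) (t H R : ℝ) (h : T3 → ℝ) (j l m : Fin N), 0 < t →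
    t ≤ 1 → SR H R h → 0 ≤ R → R ^ 2 ≤ t / 2 → j ≠ l → j ≠ m → l ≠ m → ∀ x : Fin N → T3,
    cvj (hk (t / 2)) j (cvj (hk (t / 2)) l (cvj (hk (t / 2)) m
      (fun x => h (x j - x l) * h (x j - x m)))) x
      ≤ C * H ^ 2 * (hk (4 * t) (x j - x l) * hk (4 * t) (x j - x m)) := by
  obtain ⟨C1, hC1, h1⟩ := cn_hk_le
  obtain ⟨C3, hC3, h3⟩ := hk_three
  refine ⟨C1 ^ 2 * C3, by positivity, ?_⟩
  intro N t H R h j l m ht ht1 hh hR hRt hjl hjm hlm x
  have ht2 : 0 < t / 2 := by linarith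
  rw [WtB_step' (hk_neg (t / 2)) hjm hlm, WtB_step (hk_neg (t / 2)) hjl hlm, WtB_last hjl hjm]
  have s1 := WtB_two hC1 h1 ht hh hR hRt (w := fun y => hk (t / 2) (x j - y))
    (WtB_comp' (hk_bm ht2) _) (fun z => hk_nonneg _ _) (x l) (x m)
  refine s1.trans ?_
  have e1 : ∫ y, hk (t / 2) (x j - y) * (hk t (y - x l) * hk t (y - x m)) ∂lam3
      = ∫ y, hk t (y - x l) * hk t (y - x m) * hk (t / 2) (y - x j) ∂lam3 := by
    refine integral_congr_ae (ae_of_all _ fun y => ?_)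
    simp only
    rw [← hk_neg (t / 2) (x j - y), neg_sub]
    ring
  rw [e1]
  have s2 := h3 (t / 2) t ht2 (by linarith) ht1 (x j) (x l) (x m)
  have s3 := mul_le_mul_of_nonneg_left s2 (sq_nonneg (C1 * H))
  refine s3.trans (le_of_eq ?_)
  ring

theorem wt_hh_zero : ∃ C : ℝ, 0 ≤ C ∧ ∀ (N : ℕ) (t H R : ℝ) (h : T3 → ℝ) (j l m : Fin N), 0 < t →
    t ≤ 1 → SR H R h → 0 ≤ R → R ^ 2 ≤ t / 2 → j ≠ l → j ≠ m → l ≠ m → ∀ x : Fin N → T3,
    cvj (fun _ => 1) j (cvj (hk (t / 2)) l (cvj (hk (t / 2)) m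
      (fun x => h (x j - x l) * h (x j - x m)))) x
      ≤ C * H ^ 2 * hk (2 * t) (x l - x m) := by
  obtain ⟨C1, hC1, h1⟩ := cn_hk_le
  refine ⟨C1 ^ 2, by positivity, ?_⟩
  intro N t H R h j l m ht ht1 hh hR hRt hjl hjm hlm x
  rw [WtB_step' (hk_neg (t / 2)) hjm hlm, WtB_step (hk_neg (t / 2)) hjl hlm, WtB_last hjl hjm]
  have s1 := WtB_two hC1 h1 ht hh hR hRt (w := fun y => 1) (BM.const 1) (fun z => zero_le_one)
    (x l) (x m)
  refine s1.trans (le_of_eq ?_)
  have e1 : ∫ y, (1 : ℝ) * (hk t (y - x l) * hk t (y - x m)) ∂lam3 = hk (2 * t) (x l - x m) := by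
    have e2 := int_sub_right (fun y => hk t (x l - x m - y) * hk t y) (x m)
    rw [hk_conv ht ht, ← two_mul] at e2
    rw [← e2]
    refine integral_congr_ae (ae_of_all _ fun y => ?_)
    simp only
    have e3 : x l - x m - (y - x m) = -(y - x l) := by abel
    rw [e3, hk_neg, one_mul]
  rw [e1]
  ring

end Pool.Agent.Lib.MP_4952d6_mp.LB

end

/-! ### LB.ChgE -/

section

/-!
# LB.ChgE: the heat flow of `1/|x|` on the torus

* `cn_hk_inv_le`: split the integral at `rr y = √t`: there `hk t ≤ (1 + (4πt)^(-1/2))³ ≤ C t^(-3/2)` and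
  `∫_{rr y ≤ √t} 1/rr y = 4π t/2` (`integral_rad`, `√t ≤ 1`; if `√t ≥ 1/2`, cut the profile at `1/4`: `U = 0` there; it is simplest to
  bound `U y ≤ A (1/rr y) 1_{rr y < √t, rr y ≤ 1/4} + A/√t`); outside `1/rr y ≤ 1/√t` and `∫ hk = 1`.
* `gam_radial_ge`: with `c = (4πt)^(-3/2)`: substitute `ρ = R + r`:
  `4π ∫_R^b r gam t (R+r) dr = 4π ∫_{2R}^{b+R} (ρ - R) gam t ρ dρ`; the primitive of `ρ gam t ρ` is `-2t gam t ρ`, so the first part is
  `(1/√(πt)) (exp(-R²/t) - exp(-(b+R)²/(4t))) ≥ (1/√(πt)) (1 - R²/t - 64 t)` (`exp(-x) ≥ 1 - x`, `exp(-x) ≤ 1/x`,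
  `(b+R)²/(4t) ≥ 1/(64 t)`, `b = 1/4`); `R²/t · 1/√(πt) ≤ R/t` as `R² ≤ t`; `64 t/√(πt) ≤ 64`;
  the second part is at most `4π R c ∫_0^∞ exp(-ρ²/4t) dρ = R/(2t)` (`integral_gaussian_Ioi`).
* `cn_hk_inv_ge`: `hk t (z-y) ≥ gam t (rr (z-y)) ≥ gam t (R + rr y)` (`gam_le_hk`, `rr (z-y) ≤ rr z + rr y ≤ R + rr y` by
  `rr_add_le`, `rr_neg`; `gam t` is decreasing on `[0,∞)`), restrict the integral to `R < rr y ≤ 1/4` (`U ≥ 0`),
  `U y ≥ A/rr y - B` there, `∫ hk t (z - y) dy = 1`, and `integral_rad`, `sig_eq_four_pi` for the function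
  `r ↦ gam t (R + r) (1/r) 1_{R < r ≤ 1/4}`.
-/

set_option autoImplicit false
set_option linter.unusedSectionVars false
set_option linter.unusedVariables false
open MeasureTheory Function Filter Topology Set ComplexConjugate

namespace Pool.Agent.Lib.MP_4952d6_mp.LB

lemma ChgE_hk_le {t : ℝ} (ht : 0 < t) (ht1 : t ≤ 1) (x : T3) : hk t x ≤ 8 * (Real.sqrt t)⁻¹ ^ 3 := by
  have h1 : ∏ α : Fin 3, hk1 0 t (crd x α) ≤ ∏ α : Fin 3, (2 * (Real.sqrt t)⁻¹) :=
    Finset.prod_le_prod (fun α _ => hk1_nonneg t _) (fun α _ => HKF2_bd ht ht1 _)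
  rw [Finset.prod_const, Finset.card_univ, Fintype.card_fin] at h1
  have h2 : hk t x ≤ (2 * (Real.sqrt t)⁻¹) ^ 3 := h1
  calc hk t x ≤ (2 * (Real.sqrt t)⁻¹) ^ 3 := h2
    _ = 8 * (Real.sqrt t)⁻¹ ^ 3 := by ring

lemma ChgE_hk_int {t : ℝ} (ht : 0 < t) (z : T3) : ∫ y, hk t (z - y) ∂lam3 = 1 := by
  rw [int_sub_left (hk t) z, hk_integral ht]

/-- the truncated profile -/
noncomputable def ChgE_psi (t A M r : ℝ) : ℝ :=
  if 0 < r ∧ r < Real.sqrt t ∧ r ≤ 1 / 4 then min M (A / r) else 0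

lemma ChgE_psi_meas (t A M : ℝ) : Measurable (ChgE_psi t A M) := by
  unfold ChgE_psi
  refine Measurable.ite ?_ ?_ measurable_const
  · have : {r : ℝ | 0 < r ∧ r < Real.sqrt t ∧ r ≤ 1 / 4} = Ioi 0 ∩ (Iio (Real.sqrt t) ∩ Iic (1 / 4)) := by
      ext r; simp
    rw [this]
    exact measurableSet_Ioi.inter (measurableSet_Iio.inter measurableSet_Iic)
  · exact measurable_const.min (measurable_const.div measurable_id)

lemma ChgE_psi_nonneg {t A M : ℝ} (hA : 0 ≤ A) (hM : 0 ≤ M) (r : ℝ) : 0 ≤ ChgE_psi t A M r := by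
  unfold ChgE_psi
  split_ifs with h
  · exact le_min hM (div_nonneg hA h.1.le)
  · exact le_rfl

lemma ChgE_psi_le {t A M : ℝ} (hM : 0 ≤ M) (r : ℝ) : ChgE_psi t A M r ≤ M := by
  unfold ChgE_psi
  split_ifs with h
  · exact min_le_left _ _
  · exact hM

lemma ChgE_psi_int {t A M : ℝ} (ht : 0 < t) (hA : 0 ≤ A) (hM : 0 ≤ M) :
    ∫ y, ChgE_psi t A M (rr y) ∂lam3 ≤ 2 * Real.pi * A * t := by
  have hs : 0 < Real.sqrt t := Real.sqrt_pos.2 ht
  rw [integral_rad (φ := ChgE_psi t A M) (fun r hr => by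
    unfold ChgE_psi
    rw [if_neg]
    rintro ⟨_, _, h⟩
    linarith), sig_eq_four_pi]
  have h1 : ∫ r in Ioi (0:ℝ), r ^ 2 * ChgE_psi t A M r ≤ ∫ r in Ioi (0:ℝ), (Ioc 0 (Real.sqrt t)).indicator
      (fun r => A * r) r := by
    refine integral_mono_of_nonneg ?_ ?_ ?_
    · exact Eventually.of_forall fun r => mul_nonneg (sq_nonneg _) (ChgE_psi_nonneg hA hM r)
    · have h2 : IntegrableOn (fun r : ℝ => A * r) (Ioc 0 (Real.sqrt t)) :=
        (continuous_const.mul continuous_id).integrableOn_Icc.mono_set Ioc_subset_Icc_self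
      exact (h2.integrable_indicator measurableSet_Ioc).integrableOn
    · refine (ae_restrict_iff' measurableSet_Ioi).2 (Eventually.of_forall fun r hr => ?_)
      have hr' : 0 < r := hr
      simp only
      unfold ChgE_psi
      by_cases h : 0 < r ∧ r < Real.sqrt t ∧ r ≤ 1 / 4
      · rw [if_pos h, indicator_of_mem (show r ∈ Ioc 0 (Real.sqrt t) from ⟨h.1, h.2.1.le⟩)]
        calc r ^ 2 * min M (A / r) ≤ r ^ 2 * (A / r) :=
              mul_le_mul_of_nonneg_left (min_le_right _ _) (sq_nonneg _)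
          _ = A * r := by field_simp
      · rw [if_neg h, mul_zero]
        exact indicator_nonneg (fun r hr => mul_nonneg hA hr.1.le) r
  have h2 : ∫ r in Ioi (0:ℝ), (Ioc 0 (Real.sqrt t)).indicator (fun r => A * r) r = A * t / 2 := by
    rw [setIntegral_indicator measurableSet_Ioc,
      show Ioi (0:ℝ) ∩ Ioc 0 (Real.sqrt t) = Ioc 0 (Real.sqrt t) from
        inter_eq_self_of_subset_right fun r hr => hr.1,
      ← intervalIntegral.integral_of_le hs.le, intervalIntegral.integral_const_mul, integral_id,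
      Real.sq_sqrt ht.le]
    ring
  rw [h2] at h1
  have hpi : 0 < Real.pi := Real.pi_pos
  calc 4 * Real.pi * ∫ r in Ioi (0:ℝ), r ^ 2 * ChgE_psi t A M r ≤ 4 * Real.pi * (A * t / 2) :=
        mul_le_mul_of_nonneg_left h1 (by positivity)
    _ = 2 * Real.pi * A * t := by ring

theorem cn_hk_inv_le : ∃ C : ℝ, 0 ≤ C ∧ ∀ (t A : ℝ) (U : T3 → ℝ), 0 < t → t ≤ 1 → 0 ≤ A → BM U →
    (∀ z, 0 < rr z → U z ≤ A / rr z) → (∀ z, 1 / 4 ≤ rr z → U z ≤ 0) →
    ∀ z, cn (hk t) U z ≤ C * A / Real.sqrt t := by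
  have hpi : 0 < Real.pi := Real.pi_pos
  refine ⟨16 * Real.pi + 1, by positivity, fun t A U ht ht1 hA hU h1 h2 z => ?_⟩
  have hs : 0 < Real.sqrt t := Real.sqrt_pos.2 ht
  obtain ⟨M, hM0, hM⟩ := hU.exists_nonneg_bound
  have hk' : BM (fun y => hk t (z - y)) :=
    (hk_bm ht).comp (measurable_sub' measurable_const measurable_id)
  have hpsi : BM (fun y : T3 => ChgE_psi t A M (rr y)) :=
    BM.of_mem_Icc ((ChgE_psi_meas t A M).comp rr_measurable)
      fun y => ⟨ChgE_psi_nonneg hA hM0 _, ChgE_psi_le hM0 _⟩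
  have h3 : ∀ᵐ y ∂lam3, hk t (z - y) * U y ≤
      8 * (Real.sqrt t)⁻¹ ^ 3 * ChgE_psi t A M (rr y) + A / Real.sqrt t * hk t (z - y) := by
    filter_upwards [ae_rr_ne (e := 0) (by norm_num)] with y hy
    have hy0 : 0 < rr y := lt_of_le_of_ne (rr_nonneg y) (Ne.symm hy)
    have h4 : U y ≤ ChgE_psi t A M (rr y) + A / Real.sqrt t := by
      by_cases h : 0 < rr y ∧ rr y < Real.sqrt t ∧ rr y ≤ 1 / 4
      · unfold ChgE_psi
        rw [if_pos h]
        have h5 : U y ≤ min M (A / rr y) := le_min ((le_abs_self _).trans (hM y)) (h1 y hy0)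
        have h6 : 0 ≤ A / Real.sqrt t := by positivity
        linarith
      · unfold ChgE_psi
        rw [if_neg h, zero_add]
        by_cases h7 : 1 / 4 ≤ rr y
        · exact (h2 y h7).trans (by positivity)
        · push Not at h7
          have h8 : Real.sqrt t ≤ rr y := by
            by_contra h9
            push Not at h9
            exact h ⟨hy0, h9, h7.le⟩
          exact (h1 y hy0).trans (div_le_div_of_nonneg_left hA hs h8)
    have h5 := mul_le_mul_of_nonneg_left h4 (hk_nonneg t (z - y))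
    have h6 : hk t (z - y) * ChgE_psi t A M (rr y) ≤ 8 * (Real.sqrt t)⁻¹ ^ 3 * ChgE_psi t A M (rr y) :=
      mul_le_mul_of_nonneg_right (ChgE_hk_le ht ht1 _) (ChgE_psi_nonneg hA hM0 _)
    calc hk t (z - y) * U y ≤ hk t (z - y) * (ChgE_psi t A M (rr y) + A / Real.sqrt t) := h5
      _ = hk t (z - y) * ChgE_psi t A M (rr y) + A / Real.sqrt t * hk t (z - y) := by ring
      _ ≤ _ := by linarith
  have h4 : cn (hk t) U z ≤ ∫ y, (8 * (Real.sqrt t)⁻¹ ^ 3 * ChgE_psi t A M (rr y) +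
      A / Real.sqrt t * hk t (z - y)) ∂lam3 :=
    integral_mono_ae ((hk'.mul hU).integrable _)
      (((hpsi.const_mul _).add (hk'.const_mul _)).integrable _) h3
  rw [integral_add ((hpsi.const_mul _).integrable _) ((hk'.const_mul _).integrable _),
    integral_const_mul, integral_const_mul, ChgE_hk_int ht, mul_one] at h4
  have h5 := ChgE_psi_int (M := M) ht hA hM0
  have h6 : 8 * (Real.sqrt t)⁻¹ ^ 3 * ∫ y, ChgE_psi t A M (rr y) ∂lam3 ≤
      8 * (Real.sqrt t)⁻¹ ^ 3 * (2 * Real.pi * A * t) := mul_le_mul_of_nonneg_left h5 (by positivity)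
  have h7 : 8 * (Real.sqrt t)⁻¹ ^ 3 * (2 * Real.pi * A * t) = 16 * Real.pi * A / Real.sqrt t := by
    have h8 : t = Real.sqrt t ^ 2 := (Real.sq_sqrt ht.le).symm
    have h9 : 8 * (Real.sqrt t)⁻¹ ^ 3 * (2 * Real.pi * A * Real.sqrt t ^ 2) =
        16 * Real.pi * A / Real.sqrt t := by
      field_simp
      ring
    rw [← h8] at h9
    exact h9
  rw [h7] at h6
  have h8 : (16 * Real.pi + 1) * A / Real.sqrt t = 16 * Real.pi * A / Real.sqrt t + A / Real.sqrt t := by
    ring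
  rw [h8]
  linarith

lemma ChgE_gam_cont (t : ℝ) : Continuous (gam t) := by
  unfold gam
  fun_prop

lemma ChgE_prim {t : ℝ} (ht : 0 < t) (R r : ℝ) :
    HasDerivAt (fun r => -(2 * t) * gam t (R + r)) ((R + r) * gam t (R + r)) r := by
  unfold gam
  have h1 : HasDerivAt (fun r : ℝ => R + r) 1 r := (hasDerivAt_id r).const_add R
  have h2 := ((h1.fun_pow 2).fun_neg.div_const (4 * t)).exp
  have h3 := (h2.const_mul ((Real.sqrt (4 * Real.pi * t))⁻¹ ^ 3)).const_mul (-(2 * t))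
  have e : -(2 * t) * ((Real.sqrt (4 * Real.pi * t))⁻¹ ^ 3 * (Real.exp (-((R + r) ^ 2) / (4 * t)) *
      (-(((2 : ℕ) : ℝ) * (R + r) ^ (2 - 1) * 1) / (4 * t)))) =
      (R + r) * ((Real.sqrt (4 * Real.pi * t))⁻¹ ^ 3 * Real.exp (-((R + r) ^ 2) / (4 * t))) := by
    have h4 : -(((2 : ℕ) : ℝ) * (R + r) ^ (2 - 1) * 1) / (4 * t) = -((R + r) / (2 * t)) := by
      rw [show (2 - 1 : ℕ) = 1 from rfl, pow_one]
      push_cast
      field_simp
      ring
    rw [h4]
    have h5 : (2 * t) * ((R + r) / (2 * t)) = R + r := by field_simp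
    linear_combination ((Real.sqrt (4 * Real.pi * t))⁻¹ ^ 3 * Real.exp (-((R + r) ^ 2) / (4 * t))) * h5
  rw [e] at h3
  exact h3

lemma ChgE_c {t : ℝ} (ht : 0 < t) :
    4 * Real.pi * (2 * t * (Real.sqrt (4 * Real.pi * t))⁻¹ ^ 3) = 1 / Real.sqrt (Real.pi * t) := by
  have hpi : 0 < Real.pi := Real.pi_pos
  have h0 : 0 < Real.pi * t := by positivity
  have hs : 0 < Real.sqrt (Real.pi * t) := Real.sqrt_pos.2 h0
  have h1 : Real.sqrt (4 * Real.pi * t) = 2 * Real.sqrt (Real.pi * t) := by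
    rw [show 4 * Real.pi * t = 2 ^ 2 * (Real.pi * t) by ring, Real.sqrt_mul (by norm_num),
      Real.sqrt_sq (by norm_num)]
  rw [h1]
  have h2 : Real.sqrt (Real.pi * t) ^ 2 = Real.pi * t := Real.sq_sqrt h0.le
  have h3 : 4 * Real.pi * (2 * t * (2 * Real.sqrt (Real.pi * t))⁻¹ ^ 3) =
      8 * (Real.pi * t) * (2 * Real.sqrt (Real.pi * t))⁻¹ ^ 3 := by ring
  rw [h3, ← h2]
  field_simp
  norm_num

theorem gam_radial_ge : ∃ C : ℝ, 0 ≤ C ∧ ∀ t R : ℝ, 0 < t → t ≤ 1 → 0 ≤ R → R ≤ 1 / 8 → R ^ 2 ≤ t →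
    1 / Real.sqrt (Real.pi * t) - C * (1 + R / t)
      ≤ 4 * Real.pi * ∫ r in R..(1 / 4), r * gam t (R + r) := by
  refine ⟨64, by norm_num, fun t R ht ht1 hR hR8 hRt => ?_⟩
  have hpi : 0 < Real.pi := Real.pi_pos
  have hpi1 : 1 ≤ Real.pi := by linarith [Real.pi_gt_three]
  have h0 : 0 < Real.pi * t := by positivity
  have hs : 0 < Real.sqrt (Real.pi * t) := Real.sqrt_pos.2 h0
  have hst : 0 < Real.sqrt t := Real.sqrt_pos.2 ht
  have hR4 : R ≤ 1 / 4 := by linarith
  have hc := ChgE_gam_cont t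
  have hcR : Continuous fun r => gam t (R + r) := hc.comp (continuous_const.add continuous_id)
  -- the split
  have e1 : ∫ r in R..(1 / 4), r * gam t (R + r) =
      (∫ r in R..(1 / 4), (R + r) * gam t (R + r)) - ∫ r in R..(1 / 4), R * gam t (R + r) := by
    rw [← intervalIntegral.integral_sub]
    · refine intervalIntegral.integral_congr fun r _ => ?_
      ring
    · exact ((continuous_const.add continuous_id).mul hcR).intervalIntegrable _ _
    · exact (continuous_const.mul hcR).intervalIntegrable _ _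
  have e2 : ∫ r in R..(1 / 4), (R + r) * gam t (R + r) =
      2 * t * gam t (2 * R) - 2 * t * gam t (R + 1 / 4) := by
    rw [intervalIntegral.integral_eq_sub_of_hasDerivAt (f := fun r => -(2 * t) * gam t (R + r))
      (fun r _ => ChgE_prim ht R r)]
    · rw [← two_mul]
      ring
    · exact ((continuous_const.add continuous_id).mul hcR).intervalIntegrable _ _
  -- the second part
  set c := (Real.sqrt (4 * Real.pi * t))⁻¹ ^ 3 with hcdef
  have hc0 : 0 ≤ c := by positivity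
  have hcc : 4 * Real.pi * (2 * t * c) = 1 / Real.sqrt (Real.pi * t) := ChgE_c ht
  have e3 : ∫ r in R..(1 / 4), R * gam t (R + r) ≤ R * (c * (Real.sqrt (Real.pi * t))) := by
    rw [intervalIntegral.integral_const_mul]
    refine mul_le_mul_of_nonneg_left ?_ hR
    have i1 : IntegrableOn (fun r : ℝ => Real.exp (-(1 / (4 * t)) * r ^ 2)) (Ioi 0) :=
      (integrable_exp_neg_mul_sq (by positivity)).integrableOn
    have i2 : ∫ r in Ioi (0:ℝ), Real.exp (-(1 / (4 * t)) * r ^ 2) = Real.sqrt (Real.pi * t) := by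
      rw [integral_gaussian_Ioi]
      rw [show Real.pi / (1 / (4 * t)) = 2 ^ 2 * (Real.pi * t) by field_simp; norm_num,
        Real.sqrt_mul (by norm_num), Real.sqrt_sq (by norm_num)]
      ring
    have i3 : ∫ r in R..(1 / 4), gam t (R + r) ≤
        ∫ r in R..(1 / 4), c * Real.exp (-(1 / (4 * t)) * r ^ 2) := by
      refine intervalIntegral.integral_mono_on hR4 (hcR.intervalIntegrable _ _) ?_ ?_
      · exact (by fun_prop : Continuous fun r : ℝ => c * Real.exp (-(1 / (4 * t)) * r ^ 2)).intervalIntegrable _ _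
      · intro r hr
        unfold gam
        refine mul_le_mul_of_nonneg_left (Real.exp_le_exp.2 ?_) hc0
        have hr0 : 0 ≤ r := hR.trans hr.1
        have : r ^ 2 ≤ (R + r) ^ 2 := pow_le_pow_left₀ hr0 (by linarith) 2
        rw [show -(1 / (4 * t)) * r ^ 2 = -(r ^ 2) / (4 * t) by ring]
        exact div_le_div_of_nonneg_right (by linarith) (by positivity)
    refine i3.trans ?_
    rw [intervalIntegral.integral_const_mul]
    refine mul_le_mul_of_nonneg_left ?_ hc0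
    rw [intervalIntegral.integral_of_le hR4, ← i2]
    refine setIntegral_mono_set i1 (Eventually.of_forall fun r => (Real.exp_pos _).le) ?_
    exact Eventually.of_forall fun r hr => lt_of_le_of_lt hR hr.1
  -- the first part
  have f1 : c * (1 - R ^ 2 / t) ≤ gam t (2 * R) := by
    unfold gam
    refine mul_le_mul_of_nonneg_left ?_ hc0
    have := Real.add_one_le_exp (-((2 * R) ^ 2) / (4 * t))
    have e : -((2 * R) ^ 2) / (4 * t) = -(R ^ 2 / t) := by
      field_simp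
      ring
    rw [e] at this ⊢
    linarith
  have f2 : gam t (R + 1 / 4) ≤ c * (64 * t) := by
    unfold gam
    refine mul_le_mul_of_nonneg_left ?_ hc0
    have g1 : 1 / (64 * t) ≤ (R + 1 / 4) ^ 2 / (4 * t) := by
      rw [div_le_div_iff₀ (by positivity) (by positivity)]
      linarith only [mul_nonneg ht.le (sq_nonneg R), mul_nonneg ht.le hR]
    have g2 : Real.exp (-((R + 1 / 4) ^ 2) / (4 * t)) ≤ Real.exp (-(1 / (64 * t))) := by
      refine Real.exp_le_exp.2 ?_
      rw [neg_div]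
      linarith
    refine g2.trans ?_
    rw [Real.exp_neg]
    have g3 := Real.add_one_le_exp (1 / (64 * t))
    have g4 : 0 < 1 / (64 * t) := by positivity
    calc (Real.exp (1 / (64 * t)))⁻¹ ≤ (1 / (64 * t))⁻¹ := inv_anti₀ g4 (by linarith)
      _ = 64 * t := by simp
  have f3 : R ^ 2 / t * (1 / Real.sqrt (Real.pi * t)) ≤ R / t := by
    have k1 : R ≤ Real.sqrt t := Real.le_sqrt_of_sq_le hRt
    have k2 : Real.sqrt t ≤ Real.sqrt (Real.pi * t) := Real.sqrt_le_sqrt
      (by nlinarith only [mul_pos ht (sub_pos.2 Real.pi_gt_three), ht])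
    have k3 : R ≤ Real.sqrt (Real.pi * t) := k1.trans k2
    rw [div_mul_div_comm, mul_one, div_le_div_iff₀ (by positivity) ht]
    linarith only [mul_le_mul_of_nonneg_left (mul_le_mul_of_nonneg_left k3 hR) ht.le]
  have f4 : 64 * t * (1 / Real.sqrt (Real.pi * t)) ≤ 64 := by
    have k2 : t ≤ Real.sqrt (Real.pi * t) := by
      refine Real.le_sqrt_of_sq_le ?_
      nlinarith only [mul_pos ht (sub_pos.2 Real.pi_gt_three), mul_nonneg ht.le (sub_nonneg.2 ht1), ht]
    rw [mul_one_div, div_le_iff₀ hs]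
    linarith
  have f5 : 4 * Real.pi * (R * (c * Real.sqrt (Real.pi * t))) = R / (2 * t) := by
    have k : 4 * Real.pi * (R * (c * Real.sqrt (Real.pi * t))) =
        (4 * Real.pi * (2 * t * c)) * Real.sqrt (Real.pi * t) * R / (2 * t) := by
      field_simp
    rw [k, hcc]
    field_simp
  have hX : 4 * Real.pi * ∫ r in R..(1 / 4), r * gam t (R + r) =
      4 * Real.pi * (2 * t * gam t (2 * R)) - 4 * Real.pi * (2 * t * gam t (R + 1 / 4)) -
        4 * Real.pi * ∫ r in R..(1 / 4), R * gam t (R + r) := by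
    rw [e1, e2]
    ring
  rw [hX]
  have l1 : 1 / Real.sqrt (Real.pi * t) * (1 - R ^ 2 / t) ≤ 4 * Real.pi * (2 * t * gam t (2 * R)) := by
    rw [← hcc]
    have := mul_le_mul_of_nonneg_left f1 (show 0 ≤ 4 * Real.pi * (2 * t) by positivity)
    linarith
  have l2 : 4 * Real.pi * (2 * t * gam t (R + 1 / 4)) ≤ 1 / Real.sqrt (Real.pi * t) * (64 * t) := by
    rw [← hcc]
    have := mul_le_mul_of_nonneg_left f2 (show 0 ≤ 4 * Real.pi * (2 * t) by positivity)
    linarith
  have l3 : 4 * Real.pi * ∫ r in R..(1 / 4), R * gam t (R + r) ≤ R / (2 * t) := by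
    rw [← f5]
    exact mul_le_mul_of_nonneg_left e3 (by positivity)
  have l4 : R / (2 * t) ≤ R / t := by
    refine div_le_div_of_nonneg_left hR ht (by linarith)
  have l5 : 0 ≤ R / t := by positivity
  have l6 : 1 / Real.sqrt (Real.pi * t) * (1 - R ^ 2 / t) =
      1 / Real.sqrt (Real.pi * t) - R ^ 2 / t * (1 / Real.sqrt (Real.pi * t)) := by ring
  have l7 : 1 / Real.sqrt (Real.pi * t) * (64 * t) = 64 * t * (1 / Real.sqrt (Real.pi * t)) := by ring
  rw [l6] at l1
  rw [l7] at l2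
  linarith

/-- the lower profile -/
noncomputable def ChgE_chi (t R r : ℝ) : ℝ := if R < r ∧ r ≤ 1 / 4 then gam t (R + r) * (1 / r) else 0

lemma ChgE_chi_meas (t R : ℝ) : Measurable (ChgE_chi t R) := by
  unfold ChgE_chi
  refine Measurable.ite ?_ ?_ measurable_const
  · exact measurableSet_Ioc
  · exact ((ChgE_gam_cont t).comp (continuous_const.add continuous_id)).measurable.mul
      (measurable_const.div measurable_id)

lemma ChgE_chi_int {t R : ℝ} (hR : 0 ≤ R) (hR8 : R ≤ 1 / 8) :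
    ∫ y, ChgE_chi t R (rr y) ∂lam3 = 4 * Real.pi * ∫ r in R..(1 / 4), r * gam t (R + r) := by
  rw [integral_rad (φ := ChgE_chi t R) (fun r hr => by
    unfold ChgE_chi
    rw [if_neg]
    rintro ⟨_, h⟩
    linarith), sig_eq_four_pi]
  congr 1
  have h1 : ∫ r in Ioi (0:ℝ), r ^ 2 * ChgE_chi t R r = ∫ r in Ioi (0:ℝ), (Ioc R (1 / 4)).indicator
      (fun r => r * gam t (R + r)) r := by
    refine setIntegral_congr_fun measurableSet_Ioi fun r hr => ?_
    have hr' : 0 < r := hr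
    unfold ChgE_chi
    by_cases h : R < r ∧ r ≤ 1 / 4
    · rw [if_pos h, indicator_of_mem (show r ∈ Ioc R (1 / 4) from h)]
      field_simp
    · rw [if_neg h, mul_zero, indicator_of_notMem (show r ∉ Ioc R (1 / 4) from h)]
  rw [h1, setIntegral_indicator measurableSet_Ioc,
    show Ioi (0:ℝ) ∩ Ioc R (1 / 4) = Ioc R (1 / 4) from
      inter_eq_self_of_subset_right fun r hr => lt_of_le_of_lt hR hr.1,
    ← intervalIntegral.integral_of_le (by linarith)]

lemma ChgE_gam_anti {t a b : ℝ} (ht : 0 < t) (ha : 0 ≤ a) (hab : a ≤ b) : gam t b ≤ gam t a := by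
  unfold gam
  refine mul_le_mul_of_nonneg_left (Real.exp_le_exp.2 ?_) (by positivity)
  have : a ^ 2 ≤ b ^ 2 := pow_le_pow_left₀ ha hab 2
  exact div_le_div_of_nonneg_right (by linarith) (by positivity)

theorem cn_hk_inv_ge : ∃ C : ℝ, 0 ≤ C ∧ ∀ (t A B R : ℝ) (U : T3 → ℝ), 0 < t → t ≤ 1 → 0 ≤ A → 0 ≤ B →
    0 ≤ R → R ≤ 1 / 8 → R ^ 2 ≤ t → BM U → (∀ z, 0 ≤ U z) →
    (∀ z, R ≤ rr z → rr z ≤ 1 / 4 → A / rr z - B ≤ U z) →
    ∀ z, rr z ≤ R → A / Real.sqrt (Real.pi * t) - C * A * (1 + R / t) - B ≤ cn (hk t) U z := by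
  obtain ⟨C, hC0, hC⟩ := gam_radial_ge
  refine ⟨C, hC0, fun t A B R U ht ht1 hA hB hR hR8 hRt hU hU0 hUl z hz => ?_⟩
  have hk' : BM (fun y => hk t (z - y)) :=
    (hk_bm ht).comp (measurable_sub' measurable_const measurable_id)
  have hsum : BM (fun y => hk t (z - y) * U y + B * hk t (z - y)) := (hk'.mul hU).add (hk'.const_mul B)
  have h1 : ∀ y, A * ChgE_chi t R (rr y) ≤ hk t (z - y) * U y + B * hk t (z - y) := by
    intro y
    have hk0 := hk_nonneg t (z - y)
    unfold ChgE_chi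
    by_cases h : R < rr y ∧ rr y ≤ 1 / 4
    · rw [if_pos h]
      have hy0 : 0 < rr y := lt_of_le_of_lt hR h.1
      have h2 := hUl y h.1.le h.2
      have h3 : rr (z - y) ≤ R + rr y := by
        have := rr_add_le z (-y)
        rw [rr_neg, ← sub_eq_add_neg] at this
        linarith
      have h4 : gam t (R + rr y) ≤ hk t (z - y) :=
        (ChgE_gam_anti ht (rr_nonneg _) h3).trans (gam_le_hk ht _)
      have h5 : A / rr y ≤ U y + B := by linarith
      calc A * (gam t (R + rr y) * (1 / rr y)) = gam t (R + rr y) * (A / rr y) := by ring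
        _ ≤ hk t (z - y) * (U y + B) := mul_le_mul h4 h5 (by positivity) hk0
        _ = _ := by ring
    · rw [if_neg h, mul_zero]
      have := mul_nonneg hk0 (hU0 y)
      have := mul_nonneg hB hk0
      linarith
  have h0 : ∀ y : T3, 0 ≤ A * ChgE_chi t R (rr y) := by
    intro y
    unfold ChgE_chi
    split_ifs with h
    · have hy0 : 0 < rr y := lt_of_le_of_lt hR h.1
      have := gam_nonneg t (R + rr y)
      positivity
    · simp
  obtain ⟨M, hM0, hM⟩ := hsum.exists_nonneg_bound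
  have hchi : BM (fun y : T3 => A * ChgE_chi t R (rr y)) :=
    BM.of_mem_Icc (((ChgE_chi_meas t R).comp rr_measurable).const_mul A)
      fun y => ⟨h0 y, (h1 y).trans ((le_abs_self _).trans (hM y))⟩
  have h2 := integral_mono (hchi.integrable lam3) (hsum.integrable lam3) h1
  rw [integral_const_mul, ChgE_chi_int hR hR8,
    integral_add ((hk'.mul hU).integrable _) ((hk'.const_mul B).integrable _),
    integral_const_mul, ChgE_hk_int ht, mul_one] at h2
  have h3 := mul_le_mul_of_nonneg_left (hC t R ht ht1 hR hR8 hRt) hA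
  have h4 : A * (1 / Real.sqrt (Real.pi * t) - C * (1 + R / t)) =
      A / Real.sqrt (Real.pi * t) - C * A * (1 + R / t) := by ring
  rw [h4] at h3
  have h5 : cn (hk t) U z = ∫ y, hk t (z - y) * U y ∂lam3 := rfl
  rw [h5]
  linarith

end Pool.Agent.Lib.MP_4952d6_mp.LB

end

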