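import Pool.Agent.Lib.MP_4952d6_mp.Pk.G04
import Pool.Agent.Lib.MP_4952d6_mp.Pk.G07
import Pool.Agent.Lib.MP_4952d6_mp.Pk.G11
import Pool.Agent.Lib.MP_4952d6_mp.Pk.G31
import Pool.Agent.Lib.MP_4952d6_mp.Pk.G32
import Pool.Agent.Lib.MP_4952d6_mp.Pk.G33

/-! Merged modules (to save import time): LB.PreA, LB.RkD, LB.RkA, LB.RkC, LB.RkB, LB.PreB, LB.LimA. -/

/-! ### LB.PreA -/

section

/-!
# LB.PreA: real inequalities for one momentum

`epsf G E = √(E² + 2GE)`. `E ≤ epsf G E ≤ E + G`; `0 ≤ epsf G E - epsf G' E ≤ 2(G-G')E/(2E) = G - G'` for `0 ≤ G' ≤ G`.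
`pre_mode`: with `G' = G e^{-sq}` and `n0 = N - Np`:
`(n0-y/2)/N ε' - n0/N E = (ε'-E) - (Np/N)(ε'-E) - y/(2N) ε'`, `0 ≤ ε'-E ≤ G`, `ε' ≥ ε - G (1 - e^{-sq}) ≥ ε - G s q`, `ε' ≤ ε`.
-/

set_option autoImplicit false
set_option linter.unusedSectionVars false
set_option linter.unusedVariables false
open MeasureTheory Function Filter Topology Set ComplexConjugate

namespace Pool.Agent.Lib.MP_4952d6_mp.LB

/-- Bogoliubov dispersion. -/
noncomputable def epsf (G E : ℝ) : ℝ := Real.sqrt (E ^ 2 + 2 * G * E)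

lemma epsf_ge {G E : ℝ} (hG : 0 ≤ G) (hE : 0 ≤ E) : E ≤ epsf G E := by
  unfold epsf
  apply Real.le_sqrt_of_sq_le
  have : 0 ≤ 2 * G * E := by positivity
  linarith

lemma PreA_nonneg (G E : ℝ) : 0 ≤ epsf G E := Real.sqrt_nonneg _

lemma PreA_sq {G E : ℝ} (hG : 0 ≤ G) (hE : 0 ≤ E) : epsf G E ^ 2 = E ^ 2 + 2 * G * E := by
  unfold epsf
  exact Real.sq_sqrt (by positivity)

lemma epsf_le {G E : ℝ} (hG : 0 ≤ G) (hE : 0 ≤ E) : epsf G E ≤ E + G := by
  unfold epsf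
  rw [Real.sqrt_le_left (by positivity)]
  nlinarith [sq_nonneg G]

lemma epsf_mono {G G' E : ℝ} (hG' : 0 ≤ G') (h : G' ≤ G) (hE : 0 ≤ E) : epsf G' E ≤ epsf G E := by
  unfold epsf
  apply Real.sqrt_le_sqrt
  have : G' * E ≤ G * E := mul_le_mul_of_nonneg_right h hE
  linarith

lemma epsf_sub_le {G G' E : ℝ} (hG' : 0 ≤ G') (h : G' ≤ G) (hE : 0 < E) :
    epsf G E - epsf G' E ≤ G - G' := by
  have hG : 0 ≤ G := hG'.trans h
  have h1 := epsf_ge hG hE.le
  have h2 := epsf_ge hG' hE.le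
  have h3 := PreA_sq hG hE.le
  have h4 := PreA_sq hG' hE.le
  have h5 := epsf_mono hG' h hE.le
  have h6 : (epsf G E - epsf G' E) * (epsf G E + epsf G' E) = (G - G') * (2 * E) := by
    linear_combination h3 - h4
  have h7 : (epsf G E - epsf G' E) * (2 * E) ≤ (G - G') * (2 * E) := by
    rw [← h6]
    exact mul_le_mul_of_nonneg_left (by linarith) (by linarith)
  exact le_of_mul_le_mul_right h7 (by linarith)

theorem pre_mode {N n0 Np y E G s q : ℝ} (hN : 0 < N) (hn : n0 = N - Np) (hn0 : 0 ≤ n0)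
    (hNp : 0 ≤ Np) (hy : 0 ≤ y) (hE : 0 < E) (hG : 0 ≤ G) (hs : 0 ≤ s) (hq : 0 ≤ q) :
    (epsf G E - E) - G * s * q - Np / N * G - y / (2 * N) * epsf G E
      ≤ (n0 - y / 2) / N * epsf (G * Real.exp (-(s * q))) E - n0 / N * E := by
  have hsq : 0 ≤ s * q := mul_nonneg hs hq
  have he1 : Real.exp (-(s * q)) ≤ 1 := by
    rw [Real.exp_le_one_iff]
    linarith
  have he0 := Real.exp_pos (-(s * q))
  have he2 : 1 - s * q ≤ Real.exp (-(s * q)) := by
    have := Real.add_one_le_exp (-(s * q))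
    linarith
  have hG' : 0 ≤ G * Real.exp (-(s * q)) := by positivity
  have hG'' : G * Real.exp (-(s * q)) ≤ G := mul_le_of_le_one_right hG he1
  have h1 := epsf_sub_le hG' hG'' hE
  have h2 : G - G * Real.exp (-(s * q)) ≤ G * s * q := by nlinarith
  have h3 := epsf_mono hG' hG'' hE.le
  have h4 := epsf_le hG' hE.le
  have h5 := epsf_ge hG' hE.le
  set ε := epsf G E
  set ε' := epsf (G * Real.exp (-(s * q))) E
  have h6 : (n0 - y / 2) / N * ε' - n0 / N * E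
      = (ε' - E) - Np / N * (ε' - E) - y / (2 * N) * ε' := by
    rw [hn]
    field_simp
    ring
  rw [h6]
  have h7 : Np / N * (ε' - E) ≤ Np / N * G := mul_le_mul_of_nonneg_left (by linarith) (by positivity)
  have h8 : y / (2 * N) * ε' ≤ y / (2 * N) * ε := mul_le_mul_of_nonneg_left h3 (by positivity)
  linarith

/-- `η² ε ≤ 1/t + λ + G` -/
lemma et_eps_le {t lam G : ℝ} (ht : 0 < t) (hl : 0 ≤ lam) (hG : 0 ≤ G) (p : Fin 3 → ℤ) :
    et t p ^ 2 * epsf G (ksq p + lam) ≤ 1 / t + lam + G := by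
  have hk := ksq_nonneg p
  have h1 : epsf G (ksq p + lam) ≤ ksq p + lam + G := epsf_le hG (by positivity)
  have h2 : et t p ^ 2 ≤ 1 := by
    have h3 := et_pos t p
    have h4 := et_le_one ht.le p
    nlinarith
  have h5 : et t p ^ 2 * ksq p ≤ 1 / t := by
    rw [Mul_et_sq, le_div_iff₀ ht]
    have h6 := Real.add_one_le_exp (t * ksq p)
    have h7 : Real.exp (-(t * ksq p)) * Real.exp (t * ksq p) = 1 := by
      rw [← Real.exp_add]
      simp
    have h8 := Real.exp_pos (-(t * ksq p))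
    calc Real.exp (-(t * ksq p)) * ksq p * t = Real.exp (-(t * ksq p)) * (t * ksq p) := by ring
      _ ≤ Real.exp (-(t * ksq p)) * Real.exp (t * ksq p) :=
          mul_le_mul_of_nonneg_left (by linarith) h8.le
      _ = 1 := h7
  calc et t p ^ 2 * epsf G (ksq p + lam) ≤ et t p ^ 2 * (ksq p + lam + G) :=
        mul_le_mul_of_nonneg_left h1 (sq_nonneg _)
    _ = et t p ^ 2 * ksq p + et t p ^ 2 * (lam + G) := by ring
    _ ≤ 1 / t + 1 * (lam + G) :=
        add_le_add h5 (mul_le_mul_of_nonneg_right h2 (by positivity))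
    _ = 1 / t + lam + G := by ring

lemma PreA_summable_et {t : ℝ} (ht : 0 < t) : Summable fun p : Fin 3 → ℤ => et t p ^ 2 := by
  refine (summable_exp_ksq ht 0).congr fun p => ?_
  rw [Mul_et_sq, pow_zero, one_mul]

/-- The lattice sum of the Bogoliubov energy. -/
noncomputable def LS (t lam G : ℝ) : ℝ :=
  ∑' p : Fin 3 → ℤ, if p = 0 then 0 else
    et t p ^ 2 * (epsf G (ksq p + lam) - (ksq p + lam) - G)

lemma summable_LS {t lam G : ℝ} (ht : 0 < t) (hl : 0 ≤ lam) (hG : 0 ≤ G) :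
    Summable fun p : Fin 3 → ℤ => if p = 0 then 0 else
      et t p ^ 2 * (epsf G (ksq p + lam) - (ksq p + lam) - G) := by
  refine Summable.of_norm_bounded ((PreA_summable_et ht).mul_right G) fun p => ?_
  have hE : 0 ≤ ksq p + lam := add_nonneg (ksq_nonneg p) hl
  have h1 := epsf_le hG hE
  have h2 := epsf_ge hG hE
  split_ifs
  · rw [norm_zero]
    exact mul_nonneg (sq_nonneg _) hG
  · rw [Real.norm_eq_abs, abs_mul, abs_of_nonneg (sq_nonneg _)]
    apply mul_le_mul_of_nonneg_left _ (sq_nonneg _)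
    rw [abs_le]
    constructor <;> linarith

lemma summable_et_ksq {t : ℝ} (ht : 0 < t) :
    Summable fun p : Fin 3 → ℤ => et t p ^ 2 * ksq p := by
  refine (summable_exp_ksq ht 1).congr fun p => ?_
  rw [Mul_et_sq, pow_one, mul_comm]

end Pool.Agent.Lib.MP_4952d6_mp.LB

end

/-! ### LB.RkD -/

section

/-!
# LB.RkD: matrix units and low momentum density operators on `HS` (definitions only)
-/

set_option autoImplicit false
set_option linter.unusedSectionVars false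
set_option linter.unusedVariables false
open MeasureTheory Function Filter Topology Set ComplexConjugate

namespace Pool.Agent.Lib.MP_4952d6_mp.LB

variable {ι : Type*} [Fintype ι]

/-- Matrix unit `|a⟩⟨b|` of particle `j`. -/
noncomputable def mu (j : ι) (a b : Fin 3 → ℤ) : HS ι →L[ℂ] HS ι :=
  (MB (fun x => ch (a - b) (x j))).comp (S1 (fun p => if p = b then 1 else 0) j)

/-- `P_j e_{-p}(x_j) P_j`. -/
noncomputable def rk (t : ℝ) (p : Fin 3 → ℤ) (j : ι) : HS ι →L[ℂ] HS ι :=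
  (PP1 t j).comp ((MB (fun x => ch (-p) (x j))).comp (PP1 t j))

/-- Occupation number of the momentum `a`. -/
noncomputable def nk (ψ : HS ι) (a : Fin 3 → ℤ) : ℝ := ∑ j, ‖mu j a a ψ‖ ^ 2

/-- `‖R_p ψ‖²`. -/
noncomputable def Rsq (t : ℝ) (ψ : HS ι) (p : Fin 3 → ℤ) : ℝ := ‖∑ j, rk t p j ψ‖ ^ 2

end Pool.Agent.Lib.MP_4952d6_mp.LB

end

/-! ### LB.RkA -/

section

/-!
# LB.RkA: matrix units and density operators on Fourier coefficients

`MB (fun x => ch q (x j))` is the multiplication by `chN (Pi.single j q)` (other factors `ch 0 = 1`), so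
`cf_MB_chN` gives `cf_MBch`. Everything else by `cf_ext` and the formulas for the coefficients; adjoints by
`hasSum_inner` and the reindexing `k ↦ update k j (k j + p)` (an `Equiv` of the index set), or by `MB_adj`,
`S1_symm` (`conj (ch q) = ch (-q)`). `et t 0 = 1`, `et t (-p) = et t p`.
-/

set_option autoImplicit false
set_option linter.unusedSectionVars false
set_option linter.unusedVariables false
open MeasureTheory Function Filter Topology Set ComplexConjugate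

namespace Pool.Agent.Lib.MP_4952d6_mp.LB

variable {ι : Type*} [Fintype ι] [DecidableEq ι]

lemma bmc_ch (q : Fin 3 → ℤ) (j : ι) : BMC (fun x : ι → T3 => ch q (x j)) := by
  refine ⟨?_, 1, fun x => (ch_norm q (x j)).le⟩
  exact (ch_continuous q).stronglyMeasurable.comp_measurable (measurable_pi_apply j)

lemma RkA_chN_single (q : Fin 3 → ℤ) (j : ι) :
    (fun x : ι → T3 => ch q (x j)) = chN (Pi.single j q) := by
  funext x
  unfold chN
  rw [Finset.prod_eq_single j]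
  · rw [Pi.single_eq_same]
  · intro i _ hij
    rw [Pi.single_eq_of_ne hij, ch_zero]
  · intro h
    exact absurd (Finset.mem_univ j) h

lemma RkA_sub_single (q : Fin 3 → ℤ) (j : ι) (k : ι → Fin 3 → ℤ) :
    k - Pi.single j q = update k j (k j - q) := by
  funext i
  by_cases h : i = j
  · subst h; simp
  · simp [h]

lemma cf_MBch (q : Fin 3 → ℤ) (j : ι) (f : HS ι) (k : ι → Fin 3 → ℤ) :
    cf (MB (fun x => ch q (x j)) f) k = cf f (update k j (k j - q)) := by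
  rw [RkA_chN_single, cf_MB_chN, RkA_sub_single]

lemma RkA_bdm_ite (b : Fin 3 → ℤ) : Bdm (fun p : Fin 3 → ℤ => if p = b then (1 : ℝ) else 0) := by
  refine ⟨1, fun p => ?_⟩
  simp only
  split_ifs <;> simp

lemma cf_mu (j : ι) (a b : Fin 3 → ℤ) (f : HS ι) (k : ι → Fin 3 → ℤ) :
    cf (mu j a b f) k = if k j = a then cf f (update k j b) else 0 := by
  unfold mu
  rw [ContinuousLinearMap.comp_apply, cf_MBch, cf_S1 (RkA_bdm_ite b)]
  simp only [update_self]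
  by_cases h : k j = a
  · have h1 : k j - (a - b) = b := by rw [h]; abel
    rw [h1, if_pos rfl, if_pos h]
    simp
  · have h1 : ¬ (k j - (a - b) = b) := by
      intro h2
      apply h
      have h3 : k j = b + (a - b) := sub_eq_iff_eq_add.mp h2
      rw [h3, add_sub_cancel]
    rw [if_neg h1, if_neg h]
    simp

lemma RkA_cf_PP1 {t : ℝ} (ht : 0 ≤ t) (j : ι) (f : HS ι) (k : ι → Fin 3 → ℤ) :
    cf (PP1 t j f) k = (et t (k j) : ℂ) * cf f k := cf_S1 (bdm_et ht) j f k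

lemma cf_rk {t : ℝ} (ht : 0 ≤ t) (p : Fin 3 → ℤ) (j : ι) (f : HS ι) (k : ι → Fin 3 → ℤ) :
    cf (rk t p j f) k = ((et t (k j) * et t (k j + p) : ℝ) : ℂ) * cf f (update k j (k j + p)) := by
  unfold rk
  rw [ContinuousLinearMap.comp_apply, ContinuousLinearMap.comp_apply, RkA_cf_PP1 ht, cf_MBch,
    RkA_cf_PP1 ht, update_self, sub_neg_eq_add]
  push_cast
  ring

lemma RkA_conj_ch (q : Fin 3 → ℤ) (j : ι) :
    (fun x : ι → T3 => conj (ch q (x j))) = fun x => ch (-q) (x j) := by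
  funext x
  rw [ch_neg]

theorem mu_MU : MU (mu : ι → (Fin 3 → ℤ) → (Fin 3 → ℤ) → HS ι →L[ℂ] HS ι) := by
  refine ⟨?_, ?_, ?_, ?_⟩
  · intro j a b c f
    refine cf_ext fun k => ?_
    simp only [cf_mu, update_self, if_true, update_idem]
  · intro j a b c d f hbc
    refine cf_ext fun k => ?_
    simp only [cf_mu, update_self, if_neg hbc, cf_zero]
    split_ifs <;> rfl
  · intro j a b f g
    have h1 : mu j a b f = MB (fun x => ch (a - b) (x j))
        (S1 (fun p => if p = b then 1 else 0) j f) := rfl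
    have h2 : S1 (fun p => if p = b then (1 : ℝ) else 0) j (MB (fun x => ch (b - a) (x j)) g) =
        mu j b a g := by
      refine cf_ext fun k => ?_
      rw [cf_S1 (RkA_bdm_ite b), cf_MBch, cf_mu]
      by_cases h : k j = b
      · have h3 : k j - (b - a) = a := by rw [h]; abel
        rw [if_pos h, if_pos h, h3]
        simp
      · rw [if_neg h, if_neg h]
        simp
    rw [h1, MB_adj (bmc_ch _ _), S1_symm (RkA_bdm_ite b), RkA_conj_ch, neg_sub, h2]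
  · intro j l hjl a b c d f
    refine cf_ext fun k => ?_
    simp only [cf_mu, update_of_ne hjl, update_of_ne hjl.symm, update_comm hjl]
    by_cases h1 : k j = a
    · by_cases h2 : k l = c
      · simp [h1, h2]
      · simp [h1, h2]
    · by_cases h2 : k l = c
      · simp [h1, h2]
      · simp [h1, h2]

lemma rk_adj {t : ℝ} (ht : 0 ≤ t) (p : Fin 3 → ℤ) (j : ι) (f g : HS ι) :
    inner ℂ (rk t p j f) g = inner ℂ f (rk t (-p) j g) := by
  have h1 : rk t p j f = PP1 t j (MB (fun x => ch (-p) (x j)) (PP1 t j f)) := rfl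
  have h2 : rk t (-p) j g = PP1 t j (MB (fun x => ch (- -p) (x j)) (PP1 t j g)) := rfl
  rw [h1, h2]
  unfold PP1
  rw [S1_symm (bdm_et ht), MB_adj (bmc_ch _ _), S1_symm (bdm_et ht), RkA_conj_ch]

theorem rk_LowDen {t : ℝ} (ht : 0 ≤ t) {k : Fin 3 → ℤ} (hk : k ≠ 0) :
    LowDen (mu : ι → (Fin 3 → ℤ) → (Fin 3 → ℤ) → HS ι →L[ℂ] HS ι) (rk t k) (rk t (-k)) k
      (et t k) := by
  refine ⟨fun j f g => rk_adj ht k j f g, ?_, ?_, ?_, ?_, ?_⟩
  · intro j l hjl a b f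
    refine cf_ext fun K => ?_
    rw [cf_rk ht, cf_mu, cf_mu, cf_rk ht, update_of_ne hjl.symm, update_of_ne hjl]
    by_cases h : K l = a
    · rw [if_pos h, if_pos h, update_comm hjl]
    · rw [if_neg h, if_neg h, mul_zero]
  · intro j b f
    refine cf_ext fun K => ?_
    rw [cf_rk ht, cf_mu, cf_smul, cf_mu, update_self, update_idem]
    by_cases h : K j = k
    · have h1 : K j + -k = 0 := by rw [h]; abel
      rw [if_pos h, if_pos h1, h1, et_zero, h]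
      simp
    · have h1 : ¬ (K j + -k = 0) := by
        intro h2
        exact h (eq_of_sub_eq_zero (by rw [sub_eq_add_neg]; exact h2))
      rw [if_neg h, if_neg h1]
      simp
  · intro j b f
    refine cf_ext fun K => ?_
    rw [cf_rk ht, cf_mu, cf_smul, cf_mu, update_self, update_idem]
    by_cases h : K j = 0
    · have h1 : K j + -k = -k := by rw [h, zero_add]
      rw [if_pos h, if_pos h1, h1, et_neg, h, et_zero]
      simp
    · have h1 : ¬ (K j + -k = -k) := by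
        intro h2
        exact h (by simpa using h2)
      rw [if_neg h, if_neg h1]
      simp
  · intro j a f
    refine cf_ext fun K => ?_
    rw [cf_mu, cf_rk ht, cf_smul, cf_mu, update_self, update_idem]
    by_cases h : K j = a
    · have h1 : k + -k = 0 := by abel
      rw [if_pos h, if_pos h, h1, et_zero]
      simp
    · rw [if_neg h, if_neg h]
      simp
  · intro j a f
    refine cf_ext fun K => ?_
    rw [cf_mu, cf_rk ht, cf_smul, cf_mu, update_self, update_idem]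
    by_cases h : K j = a
    · rw [if_pos h, if_pos h, zero_add, et_zero, et_neg]
      simp
    · rw [if_neg h, if_neg h]
      simp

/-- `rk t p j` commutes with one particle multipliers of other particles -/
lemma rk_S1_comm {t : ℝ} (ht : 0 ≤ t) {φ : (Fin 3 → ℤ) → ℝ} (hφ : Bdm φ) (p : Fin 3 → ℤ) {j l : ι}
    (hjl : j ≠ l) (f : HS ι) : rk t p j (S1 φ l f) = S1 φ l (rk t p j f) := by
  refine cf_ext fun K => ?_
  rw [cf_rk ht, cf_S1 hφ, cf_S1 hφ, cf_rk ht, update_of_ne hjl.symm]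
  ring

end Pool.Agent.Lib.MP_4952d6_mp.LB

end

/-! ### LB.RkC -/

section

/-!
# LB.RkC: occupation numbers

`nk ψ a = ∑_j ∑_{K_j = a} |cf ψ K|²` (`cf_mu`, `update K j a = K` if `K j = a`, `hasSum_norm_sq`). For `φ ≥ 0`
everything may be computed in `ENNReal` or with `HasSum` over the fibres of `K ↦ K j`
(`HasSum.sigma`/`Equiv.sigmaFiberEquiv`, or `tsum` over the fibres).
`R0_ge`: `rk t 0 j = P_j²` (`ch 0 = 1`), so `Re⟪ψ, ∑_j rk t 0 j ψ⟫ = ∑_j ‖P_j ψ‖² = ∑_a et(a)² nk a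
= N - ∑_a (1-et(a)²) nk a`, Cauchy-Schwarz `‖v‖ ≥ Re⟪ψ, v⟫` for `‖ψ‖ = 1` and `v² ≥ ...`, `x ≥ N - y ≥ 0 → x² ≥ N² - 2 N y`.
`unc_k`: `unc_main` for `mu`, `rk` (`mu_MU`, `rk_LowDen`), `k ≠ -k` because `k ≠ 0` in `ℤ³`.
-/

set_option autoImplicit false
set_option linter.unusedSectionVars false
set_option linter.unusedVariables false
open MeasureTheory Function Filter Topology Set ComplexConjugate

namespace Pool.Agent.Lib.MP_4952d6_mp.LB

variable {ι : Type*} [Fintype ι] [DecidableEq ι]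

lemma nk_nonneg (ψ : HS ι) (a : Fin 3 → ℤ) : 0 ≤ nk ψ a := by
  unfold nk
  exact Finset.sum_nonneg fun j _ => sq_nonneg _

/-- the occupation number of one particle as a sum over a fibre -/
lemma RkC_mu (j : ι) (a : Fin 3 → ℤ) (ψ : HS ι) :
    HasSum (fun K : ι → Fin 3 → ℤ => if K j = a then ‖cf ψ K‖ ^ 2 else 0) (‖mu j a a ψ‖ ^ 2) := by
  have h := hasSum_norm_sq (mu j a a ψ)
  have e : (fun K => ‖cf (mu j a a ψ) K‖ ^ 2) =
      fun K : ι → Fin 3 → ℤ => if K j = a then ‖cf ψ K‖ ^ 2 else 0 := by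
    funext K
    rw [cf_mu]
    split_ifs with h1
    · rw [← h1, update_eq_self]
    · simp
  rwa [e] at h

/-- sum over the fibres of `K ↦ K j` -/
lemma RkC_fib {φ : (Fin 3 → ℤ) → ℝ} (ψ : HS ι) (j : ι)
    (hs : Summable fun K : ι → Fin 3 → ℤ => φ (K j) * ‖cf ψ K‖ ^ 2) :
    HasSum (fun a => φ a * ‖mu j a a ψ‖ ^ 2)
      (∑' K : ι → Fin 3 → ℤ, φ (K j) * ‖cf ψ K‖ ^ 2) := by
  have h1 := (Equiv.sigmaFiberEquiv (fun K : ι → Fin 3 → ℤ => K j)).hasSum_iff.mpr hs.hasSum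
  refine HasSum.sigma h1 fun a => ?_
  have h2 : HasSum ({K : ι → Fin 3 → ℤ | K j = a}.indicator
      (fun K : ι → Fin 3 → ℤ => φ (K j) * ‖cf ψ K‖ ^ 2)) (φ a * ‖mu j a a ψ‖ ^ 2) := by
    have h3 := (RkC_mu j a ψ).mul_left (φ a)
    have e : (fun K : ι → Fin 3 → ℤ => φ a * (if K j = a then ‖cf ψ K‖ ^ 2 else 0)) =
        {K : ι → Fin 3 → ℤ | K j = a}.indicator
          (fun K : ι → Fin 3 → ℤ => φ (K j) * ‖cf ψ K‖ ^ 2) := by
      funext K
      by_cases h4 : K j = a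
      · rw [Set.indicator_of_mem (by exact h4), if_pos h4, h4]
      · rw [Set.indicator_of_notMem (by exact h4), if_neg h4, mul_zero]
    rwa [e] at h3
  have h6 := (hasSum_subtype_iff_indicator
    (f := fun K : ι → Fin 3 → ℤ => φ (K j) * ‖cf ψ K‖ ^ 2) (s := {K : ι → Fin 3 → ℤ | K j = a})).mpr h2
  exact h6

/-- sums of one particle multipliers, `φ ≥ 0` -/
theorem sum_mult {φ : (Fin 3 → ℤ) → ℝ} (hφ : ∀ p, 0 ≤ φ p) (ψ : HS ι)
    (hs : ∀ j, Summable fun K : ι → Fin 3 → ℤ => φ (K j) * ‖cf ψ K‖ ^ 2) :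
    (Summable fun a => φ a * nk ψ a) ∧
    ∑ j, ∑' K : ι → Fin 3 → ℤ, φ (K j) * ‖cf ψ K‖ ^ 2 = ∑' a, φ a * nk ψ a := by
  have h := hasSum_sum (s := Finset.univ) fun j (_ : j ∈ Finset.univ) => RkC_fib ψ j (hs j)
  have e : (fun a => ∑ j, φ a * ‖mu j a a ψ‖ ^ 2) = fun a => φ a * nk ψ a := by
    funext a
    unfold nk
    rw [Finset.mul_sum]
  rw [e] at h
  exact ⟨h.summable, h.tsum_eq.symm⟩

lemma RkC_one (ψ : HS ι) (j : ι) :
    Summable fun K : ι → Fin 3 → ℤ => (fun _ : Fin 3 → ℤ => (1 : ℝ)) (K j) * ‖cf ψ K‖ ^ 2 := by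
  simpa using (hasSum_norm_sq ψ).summable

lemma summable_nk (ψ : HS ι) : Summable (nk ψ) := by
  have h := (sum_mult (φ := fun _ => 1) (fun _ => zero_le_one) ψ (RkC_one ψ)).1
  simpa using h

lemma tsum_nk (ψ : HS ι) : ∑' a, nk ψ a = Fintype.card ι * ‖ψ‖ ^ 2 := by
  have h := (sum_mult (φ := fun _ => 1) (fun _ => zero_le_one) ψ (RkC_one ψ)).2
  simp only [one_mul] at h
  rw [← h, (hasSum_norm_sq ψ).tsum_eq]
  simp

/-- depletion -/
lemma sum_perp (ψ : HS ι) : ∑ j, ‖perp j ψ‖ ^ 2 = Fintype.card ι * ‖ψ‖ ^ 2 - nk ψ 0 := by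
  have h1 : ∀ j : ι, ‖perp j ψ‖ ^ 2 = ‖ψ‖ ^ 2 - ‖mu j 0 0 ψ‖ ^ 2 := by
    intro j
    have h2 := hasSum_norm_sq (perp j ψ)
    have h3 := (hasSum_norm_sq ψ).sub (RkC_mu j 0 ψ)
    have e : (fun K => ‖cf (perp j ψ) K‖ ^ 2) =
        fun K : ι → Fin 3 → ℤ => ‖cf ψ K‖ ^ 2 - (if K j = 0 then ‖cf ψ K‖ ^ 2 else 0) := by
      funext K
      have h4 : cf (perp j ψ) K = cf ψ K - ((pz (K j) : ℝ) : ℂ) * cf ψ K := by
        unfold perp Pz
        rw [cf_sub, cf_S1 bdm_pz]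
      rw [h4]
      unfold pz
      split_ifs <;> simp
    rw [e] at h2
    exact h2.unique h3
  simp only [h1]
  rw [Finset.sum_sub_distrib]
  simp [nk]

lemma RkC_bdm {t : ℝ} (ht : 0 ≤ t) : Bdm (fun p : Fin 3 → ℤ => 1 - et t p) :=
  (Bdm.const 1).sub (bdm_et ht)

lemma sum_QQ1 {t : ℝ} (ht : 0 ≤ t) (ψ : HS ι) :
    ∑ j, ‖QQ1 t j ψ‖ ^ 2 = ∑' a, (1 - et t a) ^ 2 * nk ψ a := by
  have h1 : ∀ j : ι, HasSum (fun K : ι → Fin 3 → ℤ => (1 - et t (K j)) ^ 2 * ‖cf ψ K‖ ^ 2)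
      (‖QQ1 t j ψ‖ ^ 2) := by
    intro j
    have hb : Bdm (fun K : ι → Fin 3 → ℤ => 1 - et t (K j)) :=
      (RkC_bdm ht).comp fun K : ι → Fin 3 → ℤ => K j
    exact hasSum_DM_norm (m := fun K : ι → Fin 3 → ℤ => 1 - et t (K j)) hb ψ
  have h2 := (sum_mult (φ := fun a => (1 - et t a) ^ 2) (fun _ => sq_nonneg _) ψ
    (fun j => (h1 j).summable)).2
  rw [← h2]
  exact Finset.sum_congr rfl fun j _ => (h1 j).tsum_eq.symm

lemma RkC_et_sq_le {t : ℝ} (ht : 0 ≤ t) (a : Fin 3 → ℤ) : et t a ^ 2 ≤ 1 :=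
  pow_le_one₀ (et_pos t a).le (et_le_one ht a)

theorem R0_ge {t : ℝ} (ht : 0 ≤ t) (ψ : HS ι) (hψ : ‖ψ‖ = 1) :
    (Fintype.card ι : ℝ) ^ 2 - 2 * Fintype.card ι * (∑' a, (1 - et t a ^ 2) * nk ψ a)
      ≤ Rsq t ψ 0 := by
  -- the real part of the inner product
  have h1 : ∀ j : ι, HasSum (fun K : ι → Fin 3 → ℤ => et t (K j) ^ 2 * ‖cf ψ K‖ ^ 2)
      (inner ℂ ψ (rk t 0 j ψ)).re := by
    intro j
    have h := hasSum_inner_re ψ (rk t 0 j ψ)
    have e : (fun K => (conj (cf ψ K) * cf (rk t 0 j ψ) K).re) =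
        fun K : ι → Fin 3 → ℤ => et t (K j) ^ 2 * ‖cf ψ K‖ ^ 2 := by
      funext K
      rw [cf_rk ht, add_zero, update_eq_self]
      have h2 : conj (cf ψ K) * (((et t (K j) * et t (K j) : ℝ) : ℂ) * cf ψ K) =
          ((et t (K j) ^ 2 * ‖cf ψ K‖ ^ 2 : ℝ) : ℂ) := by
        have h3 : conj (cf ψ K) * cf ψ K = ((‖cf ψ K‖ ^ 2 : ℝ) : ℂ) := by
          rw [mul_comm, Complex.mul_conj, Complex.normSq_eq_norm_sq]
        rw [Complex.ofReal_mul (et t (K j) ^ 2), ← h3, sq]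
        ring
      rw [h2, Complex.ofReal_re]
    rwa [e] at h
  have h2 := sum_mult (φ := fun a => et t a ^ 2) (fun _ => sq_nonneg _) ψ
    (fun j => (h1 j).summable)
  have h3 : (inner ℂ ψ (∑ j, rk t 0 j ψ)).re = ∑' a, et t a ^ 2 * nk ψ a := by
    rw [inner_sum, Complex.re_sum, ← h2.2]
    exact Finset.sum_congr rfl fun j _ => (h1 j).tsum_eq.symm
  have h4 : ∑' a, et t a ^ 2 * nk ψ a =
      Fintype.card ι - ∑' a, (1 - et t a ^ 2) * nk ψ a := by
    have h5 : (fun a => (1 - et t a ^ 2) * nk ψ a) = fun a => nk ψ a - et t a ^ 2 * nk ψ a := by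
      funext a; ring
    rw [h5, (summable_nk ψ).tsum_sub h2.1, tsum_nk, hψ]
    ring
  have h6 : 0 ≤ ∑' a, et t a ^ 2 * nk ψ a :=
    tsum_nonneg fun a => mul_nonneg (sq_nonneg _) (nk_nonneg ψ a)
  have h7 : (inner ℂ ψ (∑ j, rk t 0 j ψ)).re ≤ ‖∑ j, rk t 0 j ψ‖ := by
    have h8 := Complex.re_le_norm (inner ℂ ψ (∑ j, rk t 0 j ψ))
    have h9 := norm_inner_le_norm (𝕜 := ℂ) ψ (∑ j, rk t 0 j ψ)
    rw [hψ, one_mul] at h9
    exact h8.trans h9
  rw [h3] at h7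
  unfold Rsq
  have h10 := pow_le_pow_left₀ h6 h7 2
  rw [h4] at h10
  nlinarith [sq_nonneg (∑' a, (1 - et t a ^ 2) * nk ψ a)]

theorem unc_k {t : ℝ} (ht : 0 ≤ t) {k : Fin 3 → ℤ} (hk : k ≠ 0) (ψ : HS ι)
    (hN : 0 < Fintype.card ι) {e g : ℝ} (he : 0 < e) (hg : 0 ≤ g)
    (hm : 0 ≤ nk ψ 0 - (nk ψ k + nk ψ (-k)) / 2) :
    et t k ^ 2 * ((nk ψ 0 - (nk ψ k + nk ψ (-k)) / 2) / Fintype.card ι
        * Real.sqrt (e ^ 2 + 2 * Fintype.card ι * g * e) - nk ψ 0 / Fintype.card ι * e)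
      ≤ et t k ^ 2 * e * (nk ψ k + nk ψ (-k)) + g / 2 * (Rsq t ψ k + Rsq t ψ (-k)) := by
  exact unc_main mu_MU (rk_LowDen ht hk) hk (self_ne_neg.mpr hk) ψ hN he hg hm

/-- two different momenta: `nk 0 + nk k + nk (-k) ≤ N` -/
lemma nk_three {k : Fin 3 → ℤ} (hk : k ≠ 0) (ψ : HS ι) (hψ : ‖ψ‖ = 1) :
    nk ψ 0 + nk ψ k + nk ψ (-k) ≤ Fintype.card ι := by
  have h1 := (summable_nk ψ).sum_le_tsum ({0, k, -k} : Finset (Fin 3 → ℤ))
    (fun a _ => nk_nonneg ψ a)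
  rw [tsum_nk, hψ] at h1
  have hk2 : k ≠ -k := self_ne_neg.mpr hk
  have hk3 : (0 : Fin 3 → ℤ) ≠ -k := fun h => hk (neg_eq_zero.mp h.symm)
  rw [Finset.sum_insert, Finset.sum_insert, Finset.sum_singleton] at h1
  · linarith
  · simpa using hk2
  · rw [Finset.mem_insert, Finset.mem_singleton]
    rintro (h | h)
    · exact hk h.symm
    · exact hk3 h

end Pool.Agent.Lib.MP_4952d6_mp.LB

end

/-! ### LB.RkB -/

section

/-!
# LB.RkB: density form of the heat kernel interaction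

`hk s z = ∑_p exp(-s ksq p) ch p z` (`hasSum_hk`), absolutely and uniformly summable (`summable_exp_ksq`), so
`qf (hk s)_{jl} Φ = ∑_p exp(-s ksq p) Re ⟪Φ, MB (ch p (x_j - x_l)) Φ⟫`, `ch p (x_j-x_l) = ch p (x_j) ch (-p) (x_l)`,
and with `e_j = MB (ch (-p) (x_j))` (adjoint `MB (ch p (x_j))`), `Φ = P_j P_l ψ`:
`⟪Φ, e_j* e_l Φ⟫ = ⟪e_j P_j P_l ψ, e_l P_j P_l ψ⟫ = ⟪P_l e_j P_j ψ, P_j e_l P_l ψ⟫ = ⟪P_j e_j P_j ψ, P_l e_l P_l ψ⟫
= ⟪rk t p j ψ, rk t p l ψ⟫` (`P_l` commutes with `e_j`, `P_j` for `j ≠ l`). Then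
`∑_{j ≠ l} ⟪r_j, r_l⟫ = ‖∑ r_j‖² - ∑ ‖r_j‖²`.

`sum_rk_le`: `‖rk t p j ψ‖² = ∑_K et(K_j)² et(K_j+p)² |cf ψ (update K j (K_j+p))|² = ∑_K et(K_j-p)² et(K_j)² |cf ψ K|²`,
sum over `p` first: `∑_p et(K_j-p)² = ∑_p et(p)²`.
-/

set_option autoImplicit false
set_option linter.unusedSectionVars false
set_option linter.unusedVariables false
open MeasureTheory Function Filter Topology Set ComplexConjugate

namespace Pool.Agent.Lib.MP_4952d6_mp.LB

variable {ι : Type*} [Fintype ι] [DecidableEq ι]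

lemma RkB_bmc (p : Fin 3 → ℤ) (j l : ι) : BMC (fun x : ι → T3 => ch p (x j - x l)) := by
  refine ⟨?_, 1, fun x => (ch_norm p (x j - x l)).le⟩
  exact (ch_continuous p).stronglyMeasurable.comp_measurable
    ((measurable_pi_apply j).sub (measurable_pi_apply l))

lemma RkB_ch_sub (p : Fin 3 → ℤ) (j l : ι) :
    (fun x : ι → T3 => ch p (x j - x l)) = fun x => ch p (x j) * ch (-p) (x l) := by
  funext x
  rw [sub_eq_add_neg, ch_add_arg, ch_neg_arg, ch_neg]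

/-- `P_l` commutes with the characters of the particle `j` -/
lemma RkB_comm {t : ℝ} (ht : 0 ≤ t) (q : Fin 3 → ℤ) {j l : ι} (hjl : j ≠ l) (f : HS ι) :
    MB (fun x => ch q (x j)) (PP1 t l f) = PP1 t l (MB (fun x => ch q (x j)) f) := by
  refine cf_ext fun K => ?_
  rw [cf_MBch, RkA_cf_PP1 ht, RkA_cf_PP1 ht, cf_MBch, update_of_ne hjl.symm]

lemma pair_term {t : ℝ} (ht : 0 ≤ t) (p : Fin 3 → ℤ) {j l : ι} (hjl : j ≠ l) (ψ : HS ι) :
    inner ℂ (Phi t j l ψ) (MB (fun x => ch p (x j - x l)) (Phi t j l ψ))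
      = inner ℂ (rk t p j ψ) (rk t p l ψ) := by
  have hPsymm : ∀ (i : ι) (f g : HS ι), inner ℂ (PP1 t i f) g = inner ℂ f (PP1 t i g) :=
    fun i f g => S1_symm (bdm_et ht) i f g
  have hPcomm : ∀ (f : HS ι), PP1 t j (PP1 t l f) = PP1 t l (PP1 t j f) :=
    fun f => S1_comm (bdm_et ht) (bdm_et ht) j l f
  have h1 : rk t p j ψ = PP1 t j (MB (fun x => ch (-p) (x j)) (PP1 t j ψ)) := rfl
  have h2 : rk t p l ψ = PP1 t l (MB (fun x => ch (-p) (x l)) (PP1 t l ψ)) := rfl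
  have h3 : MB (fun x => ch p (x j - x l)) (Phi t j l ψ) =
      MB (fun x => ch p (x j)) (MB (fun x => ch (-p) (x l)) (Phi t j l ψ)) := by
    rw [RkB_ch_sub, MB_MB (bmc_ch _ _) (bmc_ch _ _)]
  have h4 : inner ℂ (Phi t j l ψ) (MB (fun x => ch p (x j))
      (MB (fun x => ch (-p) (x l)) (Phi t j l ψ))) =
      inner ℂ (MB (fun x => ch (-p) (x j)) (Phi t j l ψ))
        (MB (fun x => ch (-p) (x l)) (Phi t j l ψ)) := by
    rw [MB_adj (bmc_ch (-p) j), RkA_conj_ch, neg_neg]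
  have h5 : MB (fun x => ch (-p) (x j)) (Phi t j l ψ) =
      PP1 t l (MB (fun x => ch (-p) (x j)) (PP1 t j ψ)) := by
    have : Phi t j l ψ = PP1 t l (PP1 t j ψ) := hPcomm ψ
    rw [this, RkB_comm ht _ hjl]
  have h6 : MB (fun x => ch (-p) (x l)) (Phi t j l ψ) =
      PP1 t j (MB (fun x => ch (-p) (x l)) (PP1 t l ψ)) := by
    have : Phi t j l ψ = PP1 t j (PP1 t l ψ) := rfl
    rw [this, RkB_comm ht _ hjl.symm]
  rw [h3, h4, h5, h6, h1, h2, hPsymm l, ← hPcomm, hPsymm j]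

/-- the inner product with a bounded multiplication as an integral -/
lemma RkB_inner {G : (ι → T3) → ℂ} (hG : BMC G) (f : HS ι) :
    Integrable (fun x => (G x).re * ‖f x‖ ^ 2) (piN ι) ∧
    (inner ℂ f (MB G f)).re = ∫ x, (G x).re * ‖f x‖ ^ 2 ∂(piN ι) := by
  have hbm : BM (fun x => (G x).re) := by
    obtain ⟨hm, C, hC⟩ := hG
    exact ⟨Complex.measurable_re.comp hm.measurable, C,
      fun x => (Complex.abs_re_le_norm _).trans (hC x)⟩
  have h1 : Integrable (fun x => (G x).re * ‖f x‖ ^ 2) (piN ι) := qf_int hbm f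
  refine ⟨h1, ?_⟩
  have h2 : Integrable (fun x => conj (f x) * (MB G f) x) (piN ι) := by
    have h := L2.integrable_inner (𝕜 := ℂ) f (MB G f)
    refine h.congr (Eventually.of_forall fun x => ?_)
    simp only [RCLike.inner_apply]
    ring
  rw [OpA_inner]
  have h3 : (∫ x, conj (f x) * (MB G f) x ∂(piN ι)).re =
      ∫ x, (conj (f x) * (MB G f) x).re ∂(piN ι) := by
    have := integral_re h2
    simpa using this.symm
  rw [h3]
  refine integral_congr_ae ?_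
  filter_upwards [MB_ae hG f] with x hx
  rw [hx]
  have h4 : conj (f x) * (G x * f x) = G x * ((‖f x‖ ^ 2 : ℝ) : ℂ) := by
    have h5 : conj (f x) * f x = ((‖f x‖ ^ 2 : ℝ) : ℂ) := by
      rw [mul_comm, Complex.mul_conj, Complex.normSq_eq_norm_sq]
    rw [← h5]
    ring
  rw [h4, Complex.re_mul_ofReal]

lemma qf_hk_hasSum {s : ℝ} (hs : 0 < s) {j l : ι} (hjl : j ≠ l) (f : HS ι) :
    HasSum (fun p : Fin 3 → ℤ => Real.exp (-(s * ksq p))
        * (inner ℂ f (MB (fun x => ch p (x j - x l)) f)).re)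
      (qf (fun x => hk s (x j - x l)) f) := by
  have hsum : Summable fun p : Fin 3 → ℤ => Real.exp (-(s * ksq p)) := by
    simpa using summable_exp_ksq hs 0
  have hint : ∀ p : Fin 3 → ℤ, Integrable
      (fun x : ι → T3 => Real.exp (-(s * ksq p)) * ((ch p (x j - x l)).re * ‖f x‖ ^ 2))
      (piN ι) := fun p => (RkB_inner (RkB_bmc p j l) f).1.const_mul _
  have h1 := hasSum_integral_of_summable_integral_norm (μ := piN ι)
    (F := fun (p : Fin 3 → ℤ) (x : ι → T3) =>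
      Real.exp (-(s * ksq p)) * ((ch p (x j - x l)).re * ‖f x‖ ^ 2)) hint ?_
  · have e1 : (fun p : Fin 3 → ℤ => ∫ x, Real.exp (-(s * ksq p)) *
        ((ch p (x j - x l)).re * ‖f x‖ ^ 2) ∂(piN ι)) = fun p : Fin 3 → ℤ =>
        Real.exp (-(s * ksq p)) * (inner ℂ f (MB (fun x => ch p (x j - x l)) f)).re := by
      funext p
      rw [integral_const_mul, (RkB_inner (RkB_bmc p j l) f).2]
    have e2 : ∫ x, ∑' p : Fin 3 → ℤ, Real.exp (-(s * ksq p)) *
        ((ch p (x j - x l)).re * ‖f x‖ ^ 2) ∂(piN ι) = qf (fun x => hk s (x j - x l)) f := by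
      unfold qf
      refine integral_congr_ae (Eventually.of_forall fun x => ?_)
      have h2 := Complex.hasSum_re (hasSum_hk hs (x j - x l))
      simp only [Complex.re_ofReal_mul, Complex.ofReal_re] at h2
      have h3 := h2.mul_right (‖f x‖ ^ 2)
      simp only
      rw [← h3.tsum_eq]
      refine tsum_congr fun p => ?_
      ring
    rw [e1, e2] at h1
    exact h1
  · refine Summable.of_nonneg_of_le (fun p => integral_nonneg fun x => norm_nonneg _) (fun p => ?_)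
      (hsum.mul_right (‖f‖ ^ 2))
    rw [norm_sq_eq f, ← integral_const_mul]
    refine integral_mono (hint p).norm ((integrable_norm_sq f).const_mul _) fun x => ?_
    rw [norm_mul, norm_mul, Real.norm_eq_abs, Real.norm_eq_abs, Real.norm_eq_abs,
      abs_of_pos (Real.exp_pos _), abs_of_nonneg (sq_nonneg ‖f x‖)]
    refine mul_le_mul_of_nonneg_left ?_ (Real.exp_pos _).le
    have h4 : |(ch p (x j - x l)).re| ≤ 1 :=
      (Complex.abs_re_le_norm _).trans (ch_norm p _).le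
    exact mul_le_of_le_one_left (sq_nonneg _) h4

theorem den_hasSum {s t : ℝ} (hs : 0 < s) (ht : 0 ≤ t) (ψ : HS ι) :
    HasSum (fun p : Fin 3 → ℤ => Real.exp (-(s * ksq p))
        * (Rsq t ψ p - ∑ j, ‖rk t p j ψ‖ ^ 2))
      (∑ j, ∑ l ∈ Finset.univ.erase j, qf (fun x => hk s (x j - x l)) (Phi t j l ψ)) := by
  have h1 := hasSum_sum (s := Finset.univ) fun (j : ι) (_ : j ∈ Finset.univ) =>
    hasSum_sum (s := Finset.univ.erase j) fun (l : ι) (hl : l ∈ Finset.univ.erase j) =>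
      qf_hk_hasSum hs (Finset.ne_of_mem_erase hl).symm (Phi t j l ψ)
  have e : (fun p : Fin 3 → ℤ => ∑ j, ∑ l ∈ Finset.univ.erase j, Real.exp (-(s * ksq p))
        * (inner ℂ (Phi t j l ψ) (MB (fun x => ch p (x j - x l)) (Phi t j l ψ))).re) =
      fun p : Fin 3 → ℤ => Real.exp (-(s * ksq p)) * (Rsq t ψ p - ∑ j, ‖rk t p j ψ‖ ^ 2) := by
    funext p
    simp only [← Finset.mul_sum]
    congr 1
    have h2 : ∀ j : ι, ∑ l ∈ Finset.univ.erase j,
        (inner ℂ (Phi t j l ψ) (MB (fun x => ch p (x j - x l)) (Phi t j l ψ))).re =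
        (∑ l, (inner ℂ (rk t p j ψ) (rk t p l ψ)).re) - ‖rk t p j ψ‖ ^ 2 := by
      intro j
      have h3 : ∑ l ∈ Finset.univ.erase j,
          (inner ℂ (Phi t j l ψ) (MB (fun x => ch p (x j - x l)) (Phi t j l ψ))).re =
          ∑ l ∈ Finset.univ.erase j, (inner ℂ (rk t p j ψ) (rk t p l ψ)).re :=
        Finset.sum_congr rfl fun l hl => by
          rw [pair_term ht p (Finset.ne_of_mem_erase hl).symm ψ]
      rw [h3, ← Finset.sum_erase_add Finset.univ _ (Finset.mem_univ j)]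
      have h4 : (inner ℂ (rk t p j ψ) (rk t p j ψ)).re = ‖rk t p j ψ‖ ^ 2 :=
        inner_self_eq_norm_sq (𝕜 := ℂ) (rk t p j ψ)
      rw [h4]
      ring
    simp only [h2]
    rw [Finset.sum_sub_distrib]
    congr 1
    unfold Rsq
    have h5 : ‖∑ j, rk t p j ψ‖ ^ 2 = (inner ℂ (∑ j, rk t p j ψ) (∑ j, rk t p j ψ)).re :=
      (inner_self_eq_norm_sq (𝕜 := ℂ) (∑ j, rk t p j ψ)).symm
    rw [h5, sum_inner, Complex.re_sum]
    refine Finset.sum_congr rfl fun j _ => ?_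
    rw [inner_sum, Complex.re_sum]
  rw [e] at h1
  exact h1

lemma summable_et_sq {t : ℝ} (ht : 0 < t) : Summable fun p : Fin 3 → ℤ => et t p ^ 2 := by
  have h := summable_exp_ksq ht 0
  simp only [pow_zero, one_mul] at h
  simpa only [Mul_et_sq] using h

lemma RkB_norm {t : ℝ} (ht : 0 ≤ t) (p : Fin 3 → ℤ) (j : ι) (ψ : HS ι) :
    HasSum (fun K : ι → Fin 3 → ℤ => (et t (K j - p) * et t (K j)) ^ 2 * ‖cf ψ K‖ ^ 2)
      (‖rk t p j ψ‖ ^ 2) := by
  have h1 := (Equiv.subRight (Pi.single j p : ι → Fin 3 → ℤ)).hasSum_iff.mpr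
    (hasSum_norm_sq (rk t p j ψ))
  have e : ((fun K => ‖cf (rk t p j ψ) K‖ ^ 2) ∘
      (Equiv.subRight (Pi.single j p : ι → Fin 3 → ℤ))) =
      fun K : ι → Fin 3 → ℤ => (et t (K j - p) * et t (K j)) ^ 2 * ‖cf ψ K‖ ^ 2 := by
    funext K
    have h2 : (Equiv.subRight (Pi.single j p : ι → Fin 3 → ℤ)) K = update K j (K j - p) :=
      RkA_sub_single p j K
    simp only [comp_apply, h2]
    rw [cf_rk ht, update_self, sub_add_cancel, update_idem, update_eq_self, norm_mul, mul_pow,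
      Complex.norm_real, Real.norm_eq_abs, sq_abs]
  rwa [e] at h1

theorem sum_rk_le {s t : ℝ} (hs : 0 < s) (ht : 0 < t) (j : ι) (ψ : HS ι) :
    (Summable fun p : Fin 3 → ℤ => Real.exp (-(s * ksq p)) * ‖rk t p j ψ‖ ^ 2) ∧
    ∑' p : Fin 3 → ℤ, Real.exp (-(s * ksq p)) * ‖rk t p j ψ‖ ^ 2
      ≤ (∑' p : Fin 3 → ℤ, et t p ^ 2) * ‖ψ‖ ^ 2 := by
  -- the double sum
  have hK : ∀ K : ι → Fin 3 → ℤ, HasSum (fun p : Fin 3 → ℤ => et t (K j - p) ^ 2 * ‖cf ψ K‖ ^ 2)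
      ((∑' p : Fin 3 → ℤ, et t p ^ 2) * ‖cf ψ K‖ ^ 2) := by
    intro K
    refine HasSum.mul_right _ ?_
    have h0 := ((Equiv.subLeft (K j)).hasSum_iff (f := fun p : Fin 3 → ℤ => et t p ^ 2)
      (a := ∑' p : Fin 3 → ℤ, et t p ^ 2)).mpr (summable_et_sq ht).hasSum
    exact h0
  have hS : Summable fun q : (ι → Fin 3 → ℤ) × (Fin 3 → ℤ) =>
      et t (q.1 j - q.2) ^ 2 * ‖cf ψ q.1‖ ^ 2 := by
    rw [summable_prod_of_nonneg fun q => by positivity]
    refine ⟨fun K => (hK K).summable, ?_⟩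
    have e : (fun K : ι → Fin 3 → ℤ => ∑' p : Fin 3 → ℤ, et t (K j - p) ^ 2 * ‖cf ψ K‖ ^ 2) =
        fun K => (∑' p : Fin 3 → ℤ, et t p ^ 2) * ‖cf ψ K‖ ^ 2 := by
      funext K
      exact (hK K).tsum_eq
    rw [e]
    exact (hasSum_norm_sq ψ).summable.mul_left _
  have hS' : Summable fun q : (Fin 3 → ℤ) × (ι → Fin 3 → ℤ) =>
      et t (q.2 j - q.1) ^ 2 * ‖cf ψ q.2‖ ^ 2 := hS.prod_symm
  have hp : ∀ p : Fin 3 → ℤ, Summable fun K : ι → Fin 3 → ℤ => et t (K j - p) ^ 2 * ‖cf ψ K‖ ^ 2 :=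
    fun p => hS'.prod_factor p
  have hpS : Summable fun p : Fin 3 → ℤ => ∑' K : ι → Fin 3 → ℤ,
      et t (K j - p) ^ 2 * ‖cf ψ K‖ ^ 2 := hS'.prod
  have htot : ∑' p : Fin 3 → ℤ, ∑' K : ι → Fin 3 → ℤ, et t (K j - p) ^ 2 * ‖cf ψ K‖ ^ 2 =
      (∑' p : Fin 3 → ℤ, et t p ^ 2) * ‖ψ‖ ^ 2 := by
    have h1 := hS'.tsum_comm (f := fun (p : Fin 3 → ℤ) (K : ι → Fin 3 → ℤ) =>
      et t (K j - p) ^ 2 * ‖cf ψ K‖ ^ 2)
    rw [← h1]
    have e : (fun K : ι → Fin 3 → ℤ => ∑' p : Fin 3 → ℤ, et t (K j - p) ^ 2 * ‖cf ψ K‖ ^ 2) =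
        fun K => (∑' p : Fin 3 → ℤ, et t p ^ 2) * ‖cf ψ K‖ ^ 2 := by
      funext K
      exact (hK K).tsum_eq
    rw [e, tsum_mul_left, (hasSum_norm_sq ψ).tsum_eq]
  have hle : ∀ p : Fin 3 → ℤ, Real.exp (-(s * ksq p)) * ‖rk t p j ψ‖ ^ 2 ≤
      ∑' K : ι → Fin 3 → ℤ, et t (K j - p) ^ 2 * ‖cf ψ K‖ ^ 2 := by
    intro p
    have h1 : Real.exp (-(s * ksq p)) ≤ 1 := by
      rw [Real.exp_le_one_iff]
      have := mul_nonneg hs.le (ksq_nonneg p)
      linarith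
    have h2 : ‖rk t p j ψ‖ ^ 2 ≤ ∑' K : ι → Fin 3 → ℤ, et t (K j - p) ^ 2 * ‖cf ψ K‖ ^ 2 := by
      refine hasSum_le (fun K => ?_) (RkB_norm ht.le p j ψ) (hp p).hasSum
      refine mul_le_mul_of_nonneg_right ?_ (sq_nonneg _)
      rw [mul_pow]
      exact mul_le_of_le_one_right (sq_nonneg _)
        (pow_le_one₀ (et_pos t (K j)).le (et_le_one ht.le (K j)))
    calc Real.exp (-(s * ksq p)) * ‖rk t p j ψ‖ ^ 2 ≤ 1 * ‖rk t p j ψ‖ ^ 2 :=
          mul_le_mul_of_nonneg_right h1 (sq_nonneg _)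
      _ ≤ _ := by rw [one_mul]; exact h2
  have hsum : Summable fun p : Fin 3 → ℤ => Real.exp (-(s * ksq p)) * ‖rk t p j ψ‖ ^ 2 :=
    Summable.of_nonneg_of_le (fun p => by positivity) hle hpS
  refine ⟨hsum, ?_⟩
  rw [← htot]
  exact hsum.tsum_le_tsum hle hpS

/-- Result: the interaction is at least the density form minus the self energy. -/
theorem den_ge {s t : ℝ} (hs : 0 < s) (ht : 0 < t) (ψ : HS ι) (hψ : ‖ψ‖ = 1) :
    (Summable fun p : Fin 3 → ℤ => Real.exp (-(s * ksq p)) * Rsq t ψ p) ∧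
    (∑' p : Fin 3 → ℤ, Real.exp (-(s * ksq p)) * Rsq t ψ p)
        - Fintype.card ι * ∑' p : Fin 3 → ℤ, et t p ^ 2
      ≤ ∑ j, ∑ l ∈ Finset.univ.erase j, qf (fun x => hk s (x j - x l)) (Phi t j l ψ) := by
  have h1 := den_hasSum hs ht.le ψ
  have h2 : HasSum (fun p : Fin 3 → ℤ => ∑ j, Real.exp (-(s * ksq p)) * ‖rk t p j ψ‖ ^ 2)
      (∑ j : ι, ∑' p : Fin 3 → ℤ, Real.exp (-(s * ksq p)) * ‖rk t p j ψ‖ ^ 2) :=
    hasSum_sum fun j _ => (sum_rk_le hs ht j ψ).1.hasSum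
  have h3 := h1.add h2
  have e : (fun p : Fin 3 → ℤ => Real.exp (-(s * ksq p)) * (Rsq t ψ p - ∑ j, ‖rk t p j ψ‖ ^ 2) +
      ∑ j, Real.exp (-(s * ksq p)) * ‖rk t p j ψ‖ ^ 2) =
      fun p : Fin 3 → ℤ => Real.exp (-(s * ksq p)) * Rsq t ψ p := by
    funext p
    rw [← Finset.mul_sum]
    ring
  rw [e] at h3
  refine ⟨h3.summable, ?_⟩
  rw [h3.tsum_eq]
  have h4 : ∑ j : ι, ∑' p : Fin 3 → ℤ, Real.exp (-(s * ksq p)) * ‖rk t p j ψ‖ ^ 2 ≤
      Fintype.card ι * ∑' p : Fin 3 → ℤ, et t p ^ 2 := by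
    have h5 : ∀ j : ι, ∑' p : Fin 3 → ℤ, Real.exp (-(s * ksq p)) * ‖rk t p j ψ‖ ^ 2 ≤
        ∑' p : Fin 3 → ℤ, et t p ^ 2 := by
      intro j
      have h6 := (sum_rk_le hs ht j ψ).2
      rw [hψ] at h6
      simpa using h6
    refine (Finset.sum_le_sum fun j _ => h5 j).trans ?_
    simp
  linarith

end Pool.Agent.Lib.MP_4952d6_mp.LB

end

/-! ### LB.PreB -/

section

/-!
# LB.PreB: sum of the uncertainty inequalities over all momenta (L8)

`N = card (Fin N)`, `n0 = nk ψ 0`, `Np = N - n0 = ∑ ‖perp j ψ‖²` (`sum_perp`), `G = N g`,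
`F p = et² (ksq p + lam) nk p + (g e^{-s ksq p}/2) Rsq t ψ p` for `p ≠ 0` (all nonnegative, summable).
`∑_{p ≠ 0} F p = (1/2) ∑_{p ≠ 0} (F p + F (-p))` (`Equiv.neg`), `F p + F(-p)` is bounded below by `unc_k` with
`e = ksq p + lam > 0`, `g := g e^{-s ksq p}` (`hm` holds because `Np ≤ N/2`: `nk k + nk (-k) ≤ Np` by `nk_three`), and then
`pre_mode` (`y = nk p + nk (-p)`, `q = ksq p`, `G = N g`). Finally
`∑_{p≠0} et² y_p/(2N) ε_p ≤ (1/t+lam+G)/(2N) ∑_{p ≠ 0} (nk p + nk (-p)) = (1/t + lam + G) Np/N`.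
-/

set_option autoImplicit false
set_option linter.unusedSectionVars false
set_option linter.unusedVariables false
open MeasureTheory Function Filter Topology Set ComplexConjugate

namespace Pool.Agent.Lib.MP_4952d6_mp.LB

lemma PreB_et_sq_le {t : ℝ} (ht : 0 ≤ t) (p : Fin 3 → ℤ) : et t p ^ 2 ≤ 1 := by
  have h3 := et_pos t p
  have h4 := et_le_one ht p
  nlinarith

/-- summability of the right side -/
lemma PreB_summable {N : ℕ} {s t lam g : ℝ} (hs : 0 < s) (ht : 0 < t) (hl : 0 ≤ lam)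
    (hg : 0 ≤ g) {ψ : HS (Fin N)} (hψ : ‖ψ‖ = 1)
    (hkin : ∀ j, Summable fun k : Fin N → Fin 3 → ℤ => ksq (k j) * ‖cf ψ k‖ ^ 2) :
    Summable fun p : Fin 3 → ℤ =>
          (et t p ^ 2 * (ksq p + lam) * nk ψ p + g * Real.exp (-(s * ksq p)) / 2 * Rsq t ψ p) := by
  have h1 := (sum_mult (φ := ksq) ksq_nonneg ψ hkin).1
  have h2 := (summable_nk ψ).mul_left lam
  have h3 := (den_ge hs ht ψ hψ).1.mul_left (g / 2)
  refine Summable.add ?_ (h3.congr fun p => by ring)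
  refine Summable.of_nonneg_of_le (fun p => ?_) (fun p => ?_) (h1.add h2)
  · exact mul_nonneg (mul_nonneg (sq_nonneg _) (add_nonneg (ksq_nonneg p) hl)) (nk_nonneg ψ p)
  · rw [← add_mul]
    refine mul_le_mul_of_nonneg_right ?_ (nk_nonneg ψ p)
    exact mul_le_of_le_one_left (add_nonneg (ksq_nonneg p) hl) (PreB_et_sq_le ht.le p)

lemma PreB_nonneg {N : ℕ} {s t lam g : ℝ} (hl : 0 ≤ lam) (hg : 0 ≤ g) (ψ : HS (Fin N)) (p : Fin 3 → ℤ) :
    0 ≤ et t p ^ 2 * (ksq p + lam) * nk ψ p + g * Real.exp (-(s * ksq p)) / 2 * Rsq t ψ p := by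
  refine add_nonneg ?_ ?_
  · exact mul_nonneg (mul_nonneg (sq_nonneg _) (add_nonneg (ksq_nonneg p) hl)) (nk_nonneg ψ p)
  · unfold Rsq
    positivity

/-- summability of the right side -/
lemma pre_summable {N : ℕ} {s t lam g : ℝ} (hs : 0 < s) (ht : 0 < t) (hl : 0 ≤ lam)
    (hg : 0 ≤ g) {ψ : HS (Fin N)} (hψ : ‖ψ‖ = 1)
    (hkin : ∀ j, Summable fun k : Fin N → Fin 3 → ℤ => ksq (k j) * ‖cf ψ k‖ ^ 2) :
    Summable fun p : Fin 3 → ℤ => if p = 0 then 0 else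
          (et t p ^ 2 * (ksq p + lam) * nk ψ p + g * Real.exp (-(s * ksq p)) / 2 * Rsq t ψ p) := by
  refine Summable.of_nonneg_of_le (fun p => ?_) (fun p => ?_) (PreB_summable hs ht hl hg hψ hkin)
  · split_ifs
    · exact le_rfl
    · exact PreB_nonneg hl hg ψ p
  · split_ifs
    · exact PreB_nonneg hl hg ψ p
    · exact le_rfl

/-- the bound for the pair `p`, `-p` -/
lemma PreB_term {N : ℕ} (hN : 0 < N) {s t lam g Np : ℝ} (hs : 0 < s) (ht : 0 < t) (hl : 0 ≤ lam)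
    (hg : 0 ≤ g) {ψ : HS (Fin N)} (hψ : ‖ψ‖ = 1) (hNp : nk ψ 0 = N - Np) (hNp0 : 0 ≤ Np)
    (hnp : Np ≤ N / 2) {p : Fin 3 → ℤ} (hp : p ≠ 0) :
    et t p ^ 2 * (epsf (N * g) (ksq p + lam) - (ksq p + lam) - N * g) + N * g * et t p ^ 2
      - N * g * s * (et t p ^ 2 * ksq p) - Np / N * (N * g) * et t p ^ 2
      - (1 / t + lam + N * g) / (2 * N) * (nk ψ p + nk ψ (-p))
      ≤ (et t p ^ 2 * (ksq p + lam) * nk ψ p + g * Real.exp (-(s * ksq p)) / 2 * Rsq t ψ p)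
        + (et t (-p) ^ 2 * (ksq (-p) + lam) * nk ψ (-p)
          + g * Real.exp (-(s * ksq (-p))) / 2 * Rsq t ψ (-p)) := by
  have hN' : (0 : ℝ) < N := by exact_mod_cast hN
  have hE : 0 < ksq p + lam := add_pos_of_pos_of_nonneg (ksq_pos hp) hl
  have hk := ksq_nonneg p
  have h3 := nk_three hp ψ hψ
  rw [Fintype.card_fin] at h3
  have hy : 0 ≤ nk ψ p + nk ψ (-p) := add_nonneg (nk_nonneg _ _) (nk_nonneg _ _)
  have hm : 0 ≤ nk ψ 0 - (nk ψ p + nk ψ (-p)) / 2 := by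
    rw [hNp] at h3 ⊢
    linarith
  have hc : 0 < Fintype.card (Fin N) := by
    rw [Fintype.card_fin]
    exact hN
  have hge : 0 ≤ g * Real.exp (-(s * ksq p)) := mul_nonneg hg (Real.exp_pos _).le
  have h4 := unc_k ht.le hp ψ hc hE hge hm
  rw [Fintype.card_fin] at h4
  have h5 : Real.sqrt ((ksq p + lam) ^ 2 + 2 * N * (g * Real.exp (-(s * ksq p))) * (ksq p + lam))
      = epsf (N * g * Real.exp (-(s * ksq p))) (ksq p + lam) := by
    unfold epsf
    congr 1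
    ring
  rw [h5] at h4
  have hn0 : 0 ≤ nk ψ 0 := nk_nonneg _ _
  have hG : 0 ≤ N * g := mul_nonneg hN'.le hg
  have h6 := pre_mode (q := ksq p) hN' hNp hn0 hNp0 hy hE hG hs.le hk
  have h7 := mul_le_mul_of_nonneg_left h6 (sq_nonneg (et t p))
  have h8 := et_eps_le (G := N * g) ht hl hG p
  have h9 : (nk ψ p + nk ψ (-p)) / (2 * N) * (et t p ^ 2 * epsf (N * g) (ksq p + lam))
      ≤ (nk ψ p + nk ψ (-p)) / (2 * N) * (1 / t + lam + N * g) :=
    mul_le_mul_of_nonneg_left h8 (div_nonneg hy (mul_nonneg zero_le_two hN'.le))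
  rw [et_neg, ksq_neg]
  have h10 : (nk ψ p + nk ψ (-p)) / (2 * N) * (1 / t + lam + N * g)
      = (1 / t + lam + N * g) / (2 * N) * (nk ψ p + nk ψ (-p)) := by ring
  rw [h10] at h9
  generalize (1 / t + lam + N * g) / (2 * N) * (nk ψ p + nk ψ (-p)) = Z at *
  generalize (nk ψ 0 - (nk ψ p + nk ψ (-p)) / 2) / N * epsf (N * g * Real.exp (-(s * ksq p))) (ksq p + lam)
    - nk ψ 0 / N * (ksq p + lam) = W at *
  generalize epsf (N * g) (ksq p + lam) = ε at *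
  linear_combination h4 + h7 + h9

theorem pre_sum {N : ℕ} (hN : 0 < N) {s t lam g : ℝ} (hs : 0 < s) (ht : 0 < t) (hl : 0 ≤ lam)
    (hg : 0 ≤ g) {ψ : HS (Fin N)} (hψ : ‖ψ‖ = 1)
    (hnp : (∑ j, ‖perp j ψ‖ ^ 2) ≤ N / 2)
    (hkin : ∀ j, Summable fun k : Fin N → Fin 3 → ℤ => ksq (k j) * ‖cf ψ k‖ ^ 2) :
    1 / 2 * LS t lam (N * g) + 1 / 2 * (N * g) * (∑' p : Fin 3 → ℤ, et t p ^ 2) - 1 / 2 * (N * g)
      - 1 / 2 * (N * g) * s * (∑' p : Fin 3 → ℤ, et t p ^ 2 * ksq p)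
      - 1 / 2 * ((∑ j, ‖perp j ψ‖ ^ 2) / N) * (N * g) * (∑' p : Fin 3 → ℤ, et t p ^ 2)
      - 1 / 2 * ((∑ j, ‖perp j ψ‖ ^ 2) / N) * (1 / t + lam + N * g)
      ≤ ∑' p : Fin 3 → ℤ, if p = 0 then 0 else
          (et t p ^ 2 * (ksq p + lam) * nk ψ p + g * Real.exp (-(s * ksq p)) / 2 * Rsq t ψ p) := by
  have hN' : (0 : ℝ) < N := by exact_mod_cast hN
  have hG : 0 ≤ N * g := mul_nonneg hN'.le hg
  have hNp0 : 0 ≤ ∑ j, ‖perp j ψ‖ ^ 2 := Finset.sum_nonneg fun j _ => sq_nonneg _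
  have hsp := sum_perp ψ
  rw [Fintype.card_fin, hψ, one_pow, mul_one] at hsp
  have htn := tsum_nk ψ
  rw [Fintype.card_fin, hψ, one_pow, mul_one] at htn
  generalize (∑ j, ‖perp j ψ‖ ^ 2) = Np at *
  have hNp : nk ψ 0 = N - Np := by linarith
  have hF := (pre_summable hs ht hl hg hψ hkin).hasSum
  have hF2 := (Equiv.neg (Fin 3 → ℤ)).hasSum_iff.2 hF
  have hA := (summable_LS ht hl hG).hasSum
  have hS := (PreA_summable_et ht).hasSum
  have hK := (summable_et_ksq ht).hasSum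
  have hn := (summable_nk ψ).hasSum
  have hn2 := (Equiv.neg (Fin 3 → ℤ)).hasSum_iff.2 hn
  have h0 := hasSum_ite_eq (0 : Fin 3 → ℤ) (N * g - Np / N * (N * g)
    - (1 / t + lam + N * g) / (2 * N) * (nk ψ 0 + nk ψ 0))
  have hL := ((((hA.add (hS.mul_left (N * g))).sub (hK.mul_left (N * g * s))).sub
    (hS.mul_left (Np / N * (N * g)))).sub ((hn.add hn2).mul_left ((1 / t + lam + N * g) / (2 * N)))).sub h0
  have key := hasSum_le (fun p => ?_) hL (hF.add hF2)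
  · rw [htn] at key
    have e1 : (∑' p : Fin 3 → ℤ, if p = 0 then (0 : ℝ) else
      et t p ^ 2 * (epsf (N * g) (ksq p + lam) - (ksq p + lam) - N * g)) = LS t lam (N * g) := rfl
    rw [e1, hNp] at key
    have e2 : (1 / t + lam + N * g) / (2 * N) * ((N : ℝ) + N)
        - (1 / t + lam + N * g) / (2 * N) * (N - Np + (N - Np)) = Np / N * (1 / t + lam + N * g) := by
      field_simp
      ring
    have e3 : 0 ≤ Np / N * (N * g) := mul_nonneg (div_nonneg hNp0 hN'.le) hG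
    linear_combination (1 / 2 : ℝ) * key + (1 / 2 : ℝ) * e2 + (1 / 2 : ℝ) * e3
  · simp only [Function.comp_apply, Equiv.neg_apply]
    by_cases hp : p = 0
    · subst hp
      simp only [if_true, neg_zero, et_zero, ksq_zero]
      linarith
    · have hp' : -p ≠ 0 := neg_ne_zero.2 hp
      rw [if_neg hp, if_neg hp, if_neg hp, if_neg hp', sub_zero]
      exact PreB_term hN hs ht hl hg hψ hNp hNp0 hnp hp

end Pool.Agent.Lib.MP_4952d6_mp.LB

end

/-! ### LB.LimA -/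

section

/-!
# LB.LimA: Gaussian lattice sums

`et t p ^ 2 = exp (-(t * ksq p))`, its sum is `hk t 0` (`hasSum_hk` at `0`, `ch p 0 = 1`, real parts;
`summable_exp_ksq`), bounded by `(1 + (√(4πt))⁻¹)^3` (see the proof of `hk_bm` in LB.Wt), hence by `C (√t)⁻¹ ^ 3` for
`t ≤ 1`. For the second sum `x exp(-x) ≤ exp(-x/2)` for `x ≥ 0` (as `x exp(-x/2) ≤ 2/e ≤ 1`) gives
`ksq p * exp (-(t ksq p)) ≤ (1/t) exp (-((t/2) ksq p))`, and the first bound at time `t/2`.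
-/

set_option autoImplicit false
set_option linter.unusedSectionVars false
set_option linter.unusedVariables false
open MeasureTheory Function Filter Topology Set ComplexConjugate

namespace Pool.Agent.Lib.MP_4952d6_mp.LB

lemma LimA_tsum_eq {t : ℝ} (ht : 0 < t) :
    (∑' p : Fin 3 → ℤ, et t p ^ 2) = hk t 0 := by
  have h1 := hasSum_hk ht 0
  have e0 : ∀ p : Fin 3 → ℤ, ch p 0 = 1 := fun p => by
    simp [ch, UnitAddTorus.mFourier]
  simp only [e0, mul_one] at h1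
  have h2 : HasSum (fun p : Fin 3 → ℤ => Real.exp (-(t * ksq p))) (hk t 0) := by
    exact_mod_cast h1
  simp only [Mul_et_sq]
  exact h2.tsum_eq

lemma LimA_S {t : ℝ} (ht : 0 < t) (ht1 : t ≤ 1) :
    (∑' p : Fin 3 → ℤ, et t p ^ 2) ≤ 8 * (Real.sqrt t)⁻¹ ^ 3 := by
  rw [LimA_tsum_eq ht]
  refine (hk_le ht 0).trans ?_
  have hs : 0 < Real.sqrt t := Real.sqrt_pos.mpr ht
  have h1 : Real.sqrt t ≤ Real.sqrt (4 * Real.pi * t) := by
    apply Real.sqrt_le_sqrt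
    nlinarith [Real.pi_gt_three]
  have h2 : (Real.sqrt (4 * Real.pi * t))⁻¹ ≤ (Real.sqrt t)⁻¹ := inv_anti₀ hs h1
  have h3 : Real.sqrt t ≤ 1 := Real.sqrt_le_one.mpr ht1
  have h4 : 1 ≤ (Real.sqrt t)⁻¹ := by rw [one_le_inv₀ hs]; exact h3
  calc (1 + (Real.sqrt (4 * Real.pi * t))⁻¹) ^ 3 ≤ (2 * (Real.sqrt t)⁻¹) ^ 3 :=
        pow_le_pow_left₀ (by positivity) (by linarith) 3
    _ = 8 * (Real.sqrt t)⁻¹ ^ 3 := by ring

theorem limA : ∃ C : ℝ, 0 ≤ C ∧ ∀ t : ℝ, 0 < t → t ≤ 1 →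
    (∑' p : Fin 3 → ℤ, et t p ^ 2) ≤ C * (Real.sqrt t)⁻¹ ^ 3 ∧
    (∑' p : Fin 3 → ℤ, et t p ^ 2 * ksq p) ≤ C * (Real.sqrt t)⁻¹ ^ 5 := by
  refine ⟨128, by norm_num, fun t ht ht1 => ?_⟩
  have hs : 0 < Real.sqrt t := Real.sqrt_pos.mpr ht
  constructor
  · refine (LimA_S ht ht1).trans (mul_le_mul_of_nonneg_right (by norm_num) (by positivity))
  · have ht2 : 0 < t / 2 := by positivity
    have h1 : ∀ p : Fin 3 → ℤ, et t p ^ 2 * ksq p ≤ 2 / t * et (t / 2) p ^ 2 := by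
      intro p
      rw [Mul_et_sq, Mul_et_sq]
      have h0 := Real.add_one_le_exp (t / 2 * ksq p)
      have he : Real.exp (-(t / 2 * ksq p)) = Real.exp (-(t * ksq p)) * Real.exp (t / 2 * ksq p) := by
        rw [← Real.exp_add]; congr 1; ring
      rw [he]
      have h2 : t / 2 * ksq p ≤ Real.exp (t / 2 * ksq p) := by linarith
      have h3 : ksq p ≤ 2 / t * Real.exp (t / 2 * ksq p) := by
        have h4 := mul_le_mul_of_nonneg_left h2 (show 0 ≤ 2 / t by positivity)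
        have e4 : 2 / t * (t / 2 * ksq p) = ksq p := by field_simp
        linarith
      have h5 := mul_le_mul_of_nonneg_left h3 (Real.exp_pos (-(t * ksq p))).le
      linarith
    have h6 : (∑' p : Fin 3 → ℤ, et t p ^ 2 * ksq p) ≤ ∑' p : Fin 3 → ℤ, 2 / t * et (t / 2) p ^ 2 :=
      (summable_et_ksq ht).tsum_le_tsum h1 ((PreA_summable_et ht2).mul_left _)
    rw [tsum_mul_left] at h6
    refine h6.trans ?_
    have h7 := LimA_S ht2 (by linarith)
    refine (mul_le_mul_of_nonneg_left h7 (by positivity)).trans ?_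
    have h8 : (Real.sqrt (t / 2))⁻¹ ≤ 2 * (Real.sqrt t)⁻¹ := by
      have h9 : Real.sqrt t / 2 ≤ Real.sqrt (t / 2) := by
        apply Real.le_sqrt_of_sq_le
        rw [div_pow, Real.sq_sqrt ht.le]
        linarith
      have h10 := inv_anti₀ (by positivity : 0 < Real.sqrt t / 2) h9
      refine h10.trans (le_of_eq ?_)
      rw [inv_div]; ring
    have h11 : (Real.sqrt (t / 2))⁻¹ ^ 3 ≤ (2 * (Real.sqrt t)⁻¹) ^ 3 :=
      pow_le_pow_left₀ (by positivity) h8 3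
    have h12 : 2 / t = 2 * (Real.sqrt t)⁻¹ ^ 2 := by
      rw [inv_pow, Real.sq_sqrt ht.le]; ring
    calc 2 / t * (8 * (Real.sqrt (t / 2))⁻¹ ^ 3) ≤ 2 / t * (8 * (2 * (Real.sqrt t)⁻¹) ^ 3) :=
          mul_le_mul_of_nonneg_left (mul_le_mul_of_nonneg_left h11 (by norm_num)) (by positivity)
      _ = 128 * (Real.sqrt t)⁻¹ ^ 5 := by rw [h12]; ring

end Pool.Agent.Lib.MP_4952d6_mp.LB

end

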