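import Pool.Agent.Lib.MP_4952d6_mp.Pk.G18

/-! Merged modules (to save import time): U.SBB, U.PRA, U.PRB. -/

/-! ### U.SBB -/

section

/-!
# SBB: bounds of `s_b`

`sbf t 0 = 4π ∫_t^∞ (4πs)^{-3/2} ds = 1/√(πt)` (`gam_zero_integral`), `sbf t r ≤ 1/r` (`gam_integral_time`), `gam s r ≤ gam s 0`;
`1/r - sbf t r = 4π ∫_0^t gam s r ds`; for `s ≤ t`: `exp(-r²/4s) ≤ exp(-r²/8t) exp(-r²/8s)` and
`4π ∫_0^∞ (4πs)^{-3/2} exp(-r²/8s) ds = √2/r` (`gam_integral_time` at `r/√2`).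
Lipschitz on all of `ℝ`: `sbf t` is even (`gam s (-r) = gam s r`), and `|gam s r - gam s r'| ≤ C s⁻² |r - r'|` or from the derivative
`|q_b(r)/r²| ≤ r/(√t)³ ∧ 1/r² ≤ 1/t`.
-/

set_option autoImplicit false
set_option linter.unusedSectionVars false
set_option linter.unusedVariables false
open MeasureTheory Function Filter Topology Set
open scoped ENNReal

namespace Pool.Agent.Lib.MP_4952d6_mp

theorem SBB_gam_neg (s r : ℝ) : gam s (-r) = gam s r := by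
  unfold gam
  rw [neg_sq]

theorem SBB_gam_zero (s : ℝ) : gam s 0 = (Real.sqrt (4 * Real.pi * s))⁻¹ ^ 3 := by
  unfold gam
  rw [zero_pow two_ne_zero, neg_zero, zero_div, Real.exp_zero, mul_one]

theorem SBB_gam_eq (s r : ℝ) : gam s r = gam s 0 * Real.exp (-(r ^ 2) / (4 * s)) := by
  rw [SBB_gam_zero]
  rfl

theorem SBB_gam_anti {u r s : ℝ} (hu : 0 < u) (hr : 0 ≤ r) (hrs : r ≤ s) : gam u s ≤ gam u r := by
  rw [SBB_gam_eq u s, SBB_gam_eq u r]
  refine mul_le_mul_of_nonneg_left ?_ (gam_nonneg _ _)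
  rw [Real.exp_le_exp]
  refine div_le_div_of_nonneg_right ?_ (by positivity)
  have := pow_le_pow_left₀ hr hrs 2
  linarith

theorem SBB_int {t : ℝ} (ht : 0 < t) (r : ℝ) : IntegrableOn (fun s => gam s r) (Ioi t) := by
  have hpos : ∀ r : ℝ, 0 < r → IntegrableOn (fun s => gam s r) (Ioi t) := fun r hr =>
    (gam_integral_time hr).1.mono_set (Ioi_subset_Ioi ht.le)
  rcases lt_trichotomy r 0 with hr | hr | hr
  · have h1 := hpos (-r) (by linarith)
    refine h1.congr_fun (fun s _ => ?_) measurableSet_Ioi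
    exact SBB_gam_neg s r
  · rw [hr]
    exact (gam_zero_integral ht).1
  · exact hpos r hr

theorem sbf_zero {t : ℝ} (ht : 0 < t) : sbf t 0 = 1 / Real.sqrt (Real.pi * t) := by
  unfold sbf
  rw [(gam_zero_integral ht).2]
  have hpi := Real.pi_pos
  have h1 : 0 < Real.sqrt (Real.pi * t) := Real.sqrt_pos.2 (by positivity)
  field_simp

theorem sbf_nonneg {t r : ℝ} : 0 ≤ sbf t r := by
  unfold sbf
  have hpi := Real.pi_pos
  exact mul_nonneg (by positivity) (integral_nonneg fun s => gam_nonneg _ _)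

theorem sbf_neg (t r : ℝ) : sbf t (-r) = sbf t r := by
  unfold sbf
  simp_rw [SBB_gam_neg]

/-- comparison of the integrals over `(t, ∞)` -/
theorem SBB_mono {t c r s : ℝ} (ht : 0 < t) (h : ∀ u, t < u → gam u s ≤ c * gam u r) :
    sbf t s ≤ c * sbf t r := by
  unfold sbf
  have hpi := Real.pi_pos
  have h1 : ∫ u in Ioi t, gam u s ≤ ∫ u in Ioi t, c * gam u r :=
    setIntegral_mono_on (SBB_int ht s) ((SBB_int ht r).const_mul c) measurableSet_Ioi
      (fun u hu => h u hu)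
  rw [integral_const_mul] at h1
  have h2 := mul_le_mul_of_nonneg_left h1 (by positivity : 0 ≤ 4 * Real.pi)
  linarith

theorem sbf_anti {t r s : ℝ} (ht : 0 < t) (hr : 0 ≤ r) (hrs : r ≤ s) : sbf t s ≤ sbf t r := by
  have h1 := SBB_mono (c := 1) (r := r) (s := s) ht (fun u hu => by
    rw [one_mul]
    exact SBB_gam_anti (ht.trans hu) hr hrs)
  rwa [one_mul] at h1

theorem sbf_le_zero {t r : ℝ} (ht : 0 < t) : sbf t r ≤ sbf t 0 := by
  rcases le_total 0 r with hr | hr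
  · exact sbf_anti ht le_rfl hr
  · rw [← sbf_neg]
    exact sbf_anti ht le_rfl (by linarith)

theorem sbf_le_inv {t r : ℝ} (ht : 0 < t) (hr : 0 < r) : sbf t r ≤ 1 / r := by
  obtain ⟨h1, h2⟩ := gam_integral_time hr
  have hpi := Real.pi_pos
  have h3 : ∫ s in Ioi t, gam s r ≤ ∫ s in Ioi (0:ℝ), gam s r :=
    setIntegral_mono_set h1 (Eventually.of_forall fun s => gam_nonneg _ _)
      (Ioi_subset_Ioi ht.le).eventuallyLE
  rw [h2] at h3
  unfold sbf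
  have h4 := mul_le_mul_of_nonneg_left h3 (by positivity : 0 ≤ 4 * Real.pi)
  refine h4.trans (le_of_eq ?_)
  field_simp

theorem inv_sub_sbf_le {t r : ℝ} (ht : 0 < t) (hr : 0 < r) :
    1 / r - sbf t r ≤ 2 / r * Real.exp (-(r ^ 2 / (8 * t))) := by
  obtain ⟨h1, h2⟩ := gam_integral_time hr
  have hpi := Real.pi_pos
  have hs2 : 0 < Real.sqrt 2 := by positivity
  have hr2 : 0 < r / Real.sqrt 2 := by positivity
  obtain ⟨g1, g2⟩ := gam_integral_time hr2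
  have hsplit : ∫ s in Ioi (0:ℝ), gam s r = (∫ s in Ioc 0 t, gam s r) + ∫ s in Ioi t, gam s r := by
    rw [← setIntegral_union (Ioc_disjoint_Ioi le_rfl) measurableSet_Ioi
      (h1.mono_set Ioc_subset_Ioi_self) (h1.mono_set (Ioi_subset_Ioi ht.le)), Ioc_union_Ioi_eq_Ioi ht.le]
  have e1 : 1 / r - sbf t r = 4 * Real.pi * ∫ s in Ioc 0 t, gam s r := by
    unfold sbf
    have e2 : 1 / r = 4 * Real.pi * (1 / (4 * Real.pi * r)) := by field_simp
    rw [e2, ← h2, hsplit]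
    ring
  have h3 : ∫ s in Ioc 0 t, gam s r ≤ ∫ s in Ioc 0 t, Real.exp (-(r ^ 2 / (8 * t))) * gam s (r / Real.sqrt 2) := by
    refine setIntegral_mono_on (h1.mono_set Ioc_subset_Ioi_self)
      ((g1.mono_set Ioc_subset_Ioi_self).const_mul _) measurableSet_Ioc (fun s hs => ?_)
    obtain ⟨hs0, hst⟩ := hs
    rw [SBB_gam_eq s r, SBB_gam_eq s (r / Real.sqrt 2), mul_left_comm]
    refine mul_le_mul_of_nonneg_left ?_ (gam_nonneg _ _)
    rw [← Real.exp_add, Real.exp_le_exp, div_pow, Real.sq_sqrt (by norm_num : (0:ℝ) ≤ 2)]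
    have e3 : -(r ^ 2) / (4 * s) = -(r ^ 2 / (8 * s)) + -(r ^ 2 / 2) / (4 * s) := by
      field_simp
      ring
    rw [e3]
    have h4 : r ^ 2 / (8 * t) ≤ r ^ 2 / (8 * s) :=
      div_le_div_of_nonneg_left (sq_nonneg r) (by positivity) (by linarith)
    linarith
  have h5 : ∫ s in Ioc 0 t, gam s (r / Real.sqrt 2) ≤ 1 / (4 * Real.pi * (r / Real.sqrt 2)) := by
    rw [← g2]
    exact setIntegral_mono_set g1 (Eventually.of_forall fun s => gam_nonneg _ _)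
      Ioc_subset_Ioi_self.eventuallyLE
  rw [integral_const_mul] at h3
  have h6 : 0 < Real.exp (-(r ^ 2 / (8 * t))) := Real.exp_pos _
  have h7 : Real.sqrt 2 ≤ 2 := by
    rw [Real.sqrt_le_left (by norm_num)]
    norm_num
  rw [e1]
  calc 4 * Real.pi * ∫ s in Ioc 0 t, gam s r
      ≤ 4 * Real.pi * (Real.exp (-(r ^ 2 / (8 * t))) * (1 / (4 * Real.pi * (r / Real.sqrt 2)))) := by
        refine mul_le_mul_of_nonneg_left (h3.trans ?_) (by positivity)
        exact mul_le_mul_of_nonneg_left h5 h6.le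
    _ = Real.sqrt 2 / r * Real.exp (-(r ^ 2 / (8 * t))) := by field_simp
    _ ≤ 2 / r * Real.exp (-(r ^ 2 / (8 * t))) := by
        refine mul_le_mul_of_nonneg_right ?_ h6.le
        exact div_le_div_of_nonneg_right h7 hr.le

theorem SBB_exp_lip {t s : ℝ} (ht : 0 < t) (hs : t < s) (x y : ℝ) :
    |Real.exp (-(y ^ 2) / (4 * s)) - Real.exp (-(x ^ 2) / (4 * s))| ≤ 1 / Real.sqrt t * |y - x| := by
  have hs0 : 0 < s := ht.trans hs
  have hst : 0 < Real.sqrt t := Real.sqrt_pos.2 ht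
  have hss : 0 < Real.sqrt s := Real.sqrt_pos.2 hs0
  have hle : Real.sqrt t ≤ Real.sqrt s := Real.sqrt_le_sqrt hs.le
  have hd : ∀ z : ℝ, HasDerivAt (fun z : ℝ => Real.exp (-(z ^ 2) / (4 * s)))
      (Real.exp (-(z ^ 2) / (4 * s)) * (-(2 * z) / (4 * s))) z := by
    intro z
    have h1 : HasDerivAt (fun z : ℝ => -(z ^ 2) / (4 * s)) (-(2 * z) / (4 * s)) z := by
      have h := ((hasDerivAt_pow 2 z).fun_neg).div_const (4 * s)
      simpa using h
    exact h1.exp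
  have hb : ∀ z : ℝ, ‖Real.exp (-(z ^ 2) / (4 * s)) * (-(2 * z) / (4 * s))‖ ≤ 1 / Real.sqrt t := by
    intro z
    have e1 : -(z ^ 2) / (4 * s) = -(|z| / (2 * Real.sqrt s)) ^ 2 := by
      rw [div_pow, mul_pow, Real.sq_sqrt hs0.le, sq_abs]
      ring
    have e2 : |(-(2 * z) / (4 * s))| = |z| / (2 * Real.sqrt s) * (1 / Real.sqrt s) := by
      rw [abs_div, abs_neg, abs_mul, abs_of_pos (by norm_num : (0:ℝ) < 2), abs_of_pos (by positivity : 0 < 4 * s)]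
      have h : s = Real.sqrt s * Real.sqrt s := (Real.mul_self_sqrt hs0.le).symm
      rw [show 4 * s = 4 * (Real.sqrt s * Real.sqrt s) by rw [← h]]
      field_simp
      ring
    rw [Real.norm_eq_abs, abs_mul, Real.abs_exp, e1, e2]
    set u := |z| / (2 * Real.sqrt s) with hu
    have hu0 : 0 ≤ u := by positivity
    have h2 : u ≤ Real.exp (u ^ 2) := by
      have h3 := Real.add_one_le_exp (u ^ 2)
      nlinarith [sq_nonneg (u - 1)]
    have h4 : Real.exp (-u ^ 2) * u ≤ 1 := by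
      have h5 : Real.exp (-u ^ 2) * Real.exp (u ^ 2) = 1 := by
        rw [← Real.exp_add, neg_add_cancel, Real.exp_zero]
      calc Real.exp (-u ^ 2) * u ≤ Real.exp (-u ^ 2) * Real.exp (u ^ 2) :=
            mul_le_mul_of_nonneg_left h2 (Real.exp_pos _).le
        _ = 1 := h5
    calc Real.exp (-u ^ 2) * (u * (1 / Real.sqrt s)) = (Real.exp (-u ^ 2) * u) * (1 / Real.sqrt s) := by ring
      _ ≤ 1 * (1 / Real.sqrt s) := mul_le_mul_of_nonneg_right h4 (by positivity)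
      _ = 1 / Real.sqrt s := one_mul _
      _ ≤ 1 / Real.sqrt t := one_div_le_one_div_of_le hst hle
  have h := convex_univ.norm_image_sub_le_of_norm_hasDerivWithin_le
    (f := fun z : ℝ => Real.exp (-(z ^ 2) / (4 * s)))
    (f' := fun z => Real.exp (-(z ^ 2) / (4 * s)) * (-(2 * z) / (4 * s)))
    (fun z _ => (hd z).hasDerivWithinAt) (fun z _ => hb z) (mem_univ x) (mem_univ y)
  rwa [Real.norm_eq_abs, Real.norm_eq_abs] at h

theorem SBB_lip {t : ℝ} (ht : 0 < t) (r s : ℝ) :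
    sbf t r - sbf t s ≤ sbf t 0 / Real.sqrt t * |r - s| := by
  have hpi := Real.pi_pos
  have h1 : (∫ u in Ioi t, gam u r) - ∫ u in Ioi t, gam u s ≤ ∫ u in Ioi t, (1 / Real.sqrt t * |r - s|) * gam u 0 := by
    rw [← integral_sub (SBB_int ht r) (SBB_int ht s)]
    refine setIntegral_mono_on ((SBB_int ht r).sub (SBB_int ht s)) ((SBB_int ht 0).const_mul _)
      measurableSet_Ioi (fun u hu => ?_)
    rw [SBB_gam_eq u r, SBB_gam_eq u s, ← mul_sub, mul_comm (1 / Real.sqrt t * |r - s|)]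
    exact mul_le_mul_of_nonneg_left ((le_abs_self _).trans (SBB_exp_lip ht hu s r)) (gam_nonneg _ _)
  rw [integral_const_mul] at h1
  unfold sbf
  have h2 := mul_le_mul_of_nonneg_left h1 (by positivity : 0 ≤ 4 * Real.pi)
  calc 4 * Real.pi * (∫ u in Ioi t, gam u r) - 4 * Real.pi * (∫ u in Ioi t, gam u s)
      = 4 * Real.pi * ((∫ u in Ioi t, gam u r) - ∫ u in Ioi t, gam u s) := by ring
    _ ≤ _ := h2
    _ = _ := by ring

theorem sbf_lip {t : ℝ} (ht : 0 < t) : ∃ L, ∀ r s, |sbf t r - sbf t s| ≤ L * |r - s| := by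
  refine ⟨sbf t 0 / Real.sqrt t, fun r s => ?_⟩
  rw [abs_le]
  have h1 := SBB_lip ht r s
  have h2 := SBB_lip ht s r
  rw [abs_sub_comm s r] at h2
  constructor <;> linarith

/-- `s_b(0) - s_b(r) ≤ C r² t^{-3/2}` -/
theorem sbf_zero_sub_le {t r : ℝ} (ht : 0 < t) (hr : 0 ≤ r) :
    sbf t 0 - sbf t r ≤ r ^ 2 / Real.sqrt t ^ 3 := by
  have hpi := Real.pi_pos
  have hst : 0 < Real.sqrt t := Real.sqrt_pos.2 ht
  have h2 : (∫ u in Ioi t, gam u 0) - ∫ u in Ioi t, gam u r ≤ ∫ u in Ioi t, (r ^ 2 / (4 * t)) * gam u 0 := by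
    rw [← integral_sub (SBB_int ht 0) (SBB_int ht r)]
    refine setIntegral_mono_on ((SBB_int ht 0).sub (SBB_int ht r)) ((SBB_int ht 0).const_mul _)
      measurableSet_Ioi (fun u hu => ?_)
    have hu' : t < u := hu
    have hu0 : 0 < u := ht.trans hu'
    rw [SBB_gam_eq u r]
    have h3 := Real.add_one_le_exp (-(r ^ 2) / (4 * u))
    have h4 : r ^ 2 / (4 * u) ≤ r ^ 2 / (4 * t) :=
      div_le_div_of_nonneg_left (sq_nonneg r) (by positivity) (by linarith)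
    have h5 : 1 - Real.exp (-(r ^ 2) / (4 * u)) ≤ r ^ 2 / (4 * t) := by
      have : -(r ^ 2) / (4 * u) = -(r ^ 2 / (4 * u)) := by ring
      rw [this] at h3 ⊢
      linarith
    calc gam u 0 - gam u 0 * Real.exp (-(r ^ 2) / (4 * u))
        = gam u 0 * (1 - Real.exp (-(r ^ 2) / (4 * u))) := by ring
      _ ≤ gam u 0 * (r ^ 2 / (4 * t)) := mul_le_mul_of_nonneg_left h5 (gam_nonneg _ _)
      _ = _ := by ring
  rw [integral_const_mul] at h2
  have h6 : sbf t 0 - sbf t r ≤ r ^ 2 / (4 * t) * sbf t 0 := by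
    unfold sbf
    have h7 := mul_le_mul_of_nonneg_left h2 (by positivity : 0 ≤ 4 * Real.pi)
    calc _ = 4 * Real.pi * ((∫ u in Ioi t, gam u 0) - ∫ u in Ioi t, gam u r) := by ring
      _ ≤ _ := h7
      _ = _ := by ring
  refine h6.trans ?_
  rw [sbf_zero ht]
  have h8 : Real.sqrt t ≤ Real.sqrt (Real.pi * t) := by
    refine Real.sqrt_le_sqrt ?_
    have := Real.pi_gt_three
    nlinarith
  have h9 : 1 / Real.sqrt (Real.pi * t) ≤ 1 / Real.sqrt t := one_div_le_one_div_of_le hst h8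
  have h10 : t = Real.sqrt t ^ 2 := (Real.sq_sqrt ht.le).symm
  calc r ^ 2 / (4 * t) * (1 / Real.sqrt (Real.pi * t)) ≤ r ^ 2 / (4 * t) * (1 / Real.sqrt t) :=
        mul_le_mul_of_nonneg_left h9 (by positivity)
    _ = r ^ 2 / Real.sqrt t ^ 3 / 4 := by
        rw [show 4 * t = 4 * Real.sqrt t ^ 2 by rw [← h10]]
        field_simp
    _ ≤ r ^ 2 / Real.sqrt t ^ 3 := by
        have : 0 ≤ r ^ 2 / Real.sqrt t ^ 3 := by positivity
        linarith

end Pool.Agent.Lib.MP_4952d6_mp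

end

/-! ### U.PRA -/

section

/-!
# PRA: arithmetic of the parameters

`0 < q ≤ 1/100`, `0 < a ≤ q^1000`, `θ ≥ 1`, `θ q ≤ 1`, `R ≤ θ a`. `bq = a/q^80`, `√tq = a/q^79 = q bq`, `lq = a/q^200`.
`alq q = 1/((1-q^80) qbf 1 (1/q))`, `1 - qbf 1 (1/q) ≤ 3 exp(-1/(8q²)) ≤ q^400`-type bounds (`one_sub_qbf_le`): for `q ≤ 1/100`:
`exp(-1/(8 q²)) ≤ q^400`: with `x = 1/q ≥ 100`: `x²/8 ≥ 400 log x` holds for all `x ≥ 200`? It is FALSE near `x = 100`
(`1250` against `1842`), so the statements below only ask for `q^240` with a constant: `exp(-x²/8) ≤ C x^{-240}` for all `x > 0`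
(`exp(y) ≥ y^120/120!`, `y = x²/8`), `C` numerical. For `qbf ≥ 1/2`: `3 exp(-1250) ≤ 1/2`.
-/

set_option autoImplicit false
set_option linter.unusedSectionVars false
set_option linter.unusedVariables false
open MeasureTheory Function Filter Topology Set
open scoped ENNReal

namespace Pool.Agent.Lib.MP_4952d6_mp

theorem PRA_q80 {q : ℝ} (hq : 0 < q) (hq1 : q ≤ 1 / 100) : q ^ 80 ≤ 1 / 100 := by
  have h : q ^ 80 ≤ q ^ 1 := pow_le_pow_of_le_one hq.le (by linarith) (by norm_num)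
  rw [pow_one] at h
  linarith

theorem PRA_exp (y : ℝ) (hy : 0 < y) (k : ℕ) : Real.exp (-y) ≤ (k.factorial : ℝ) / y ^ k := by
  have h1 := Real.pow_div_factorial_le_exp y hy.le k
  have h2 : 0 < y ^ k := pow_pos hy k
  have h3 : (0 : ℝ) < k.factorial := by exact_mod_cast Nat.factorial_pos k
  rw [le_div_iff₀ h2]
  rw [div_le_iff₀ h3] at h1
  calc Real.exp (-y) * y ^ k ≤ Real.exp (-y) * (Real.exp y * k.factorial) :=
        mul_le_mul_of_nonneg_left h1 (Real.exp_pos _).le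
    _ = (k.factorial : ℝ) := by
        rw [← mul_assoc, ← Real.exp_add, neg_add_cancel, Real.exp_zero, one_mul]

section
variable {W f Q : ℝ → ℝ} {R₀ R a θ q : ℝ}

theorem Reg.a_pos (h : Reg W R₀ R a f Q θ q) : 0 < a := by
  exact h.sc.a_pos

theorem Reg.R_le_b (h : Reg W R₀ R a f Q θ q) : 2 * R ≤ bq q a := by
  have ha := h.sc.a_pos
  have hq := h.q_pos
  have hq1 := h.q_le
  unfold bq
  rw [le_div_iff₀ (pow_pos hq 80)]
  have h1 : θ * q ^ 80 ≤ 1 / 100 := by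
    have h2 : θ * q ^ 80 = (θ * q) * q ^ 79 := by ring
    have h3 : q ^ 79 ≤ q ^ 1 := pow_le_pow_of_le_one hq.le (by linarith) (by norm_num)
    rw [pow_one] at h3
    have h4 : 0 ≤ q ^ 79 := by positivity
    rw [h2]
    calc θ * q * q ^ 79 ≤ 1 * q ^ 79 := mul_le_mul_of_nonneg_right h.hθq h4
      _ ≤ 1 / 100 := by linarith
  calc 2 * R * q ^ 80 ≤ 2 * (θ * a) * q ^ 80 := by
        refine mul_le_mul_of_nonneg_right ?_ (by positivity)
        linarith [h.Rle]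
    _ = 2 * a * (θ * q ^ 80) := by ring
    _ ≤ 2 * a * (1 / 100) := mul_le_mul_of_nonneg_left h1 (by positivity)
    _ ≤ a := by linarith

theorem Reg.b_lt (h : Reg W R₀ R a f Q θ q) : bq q a < 1 / 4 := by
  have hq := h.q_pos
  have hq1 := h.q_le
  unfold bq
  rw [div_lt_iff₀ (pow_pos hq 80)]
  have h1 : q ^ 1000 = q ^ 920 * q ^ 80 := by rw [← pow_add]
  have h2 : q ^ 920 ≤ q ^ 1 := pow_le_pow_of_le_one hq.le (by linarith) (by norm_num)
  rw [pow_one] at h2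
  have h3 : 0 < q ^ 80 := by positivity
  have h4 := h.aq
  rw [h1] at h4
  nlinarith

theorem Reg.f_b (h : Reg W R₀ R a f Q θ q) : f (bq q a) = 1 - q ^ 80 := by
  have ha := h.sc.a_pos
  have hq := h.q_pos
  have h1 := h.R_le_b
  have h2 := h.sc.R_pos
  rw [h.sc.f_out _ (by linarith)]
  unfold bq
  field_simp

theorem Reg.lq_le (h : Reg W R₀ R a f Q θ q) : lq q a ≤ q ^ 800 := by
  have hq := h.q_pos
  unfold lq
  rw [div_le_iff₀ (pow_pos hq 200), ← pow_add]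
  exact h.aq

end

theorem bq_pos {q a : ℝ} (hq : 0 < q) (ha : 0 < a) : 0 < bq q a := by
  unfold bq
  positivity

theorem tq_pos {q a : ℝ} (hq : 0 < q) (ha : 0 < a) : 0 < tq q a := by
  unfold tq
  positivity

theorem sqrt_tq {q a : ℝ} (hq : 0 < q) (ha : 0 < a) : Real.sqrt (tq q a) = a / q ^ 79 := by
  unfold tq
  exact Real.sqrt_sq (by positivity)

theorem qbf_b {q a : ℝ} (hq : 0 < q) (ha : 0 < a) : qbf (tq q a) (bq q a) = qbf 1 (1 / q) := by
  rw [qbf_scale (tq_pos hq ha), sqrt_tq hq ha]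
  congr 1
  unfold bq
  field_simp

theorem one_sub_qbf_b : ∃ C : ℝ, 0 ≤ C ∧ ∀ q : ℝ, 0 < q → 1 - qbf 1 (1 / q) ≤ C * q ^ 240 := by
  refine ⟨3 * (((120 : ℕ).factorial : ℝ) * 8 ^ 120), by positivity, fun q hq => ?_⟩
  have h1 := one_sub_qbf_le (t := 1) (r := 1 / q) one_pos (by positivity)
  have h2 := PRA_exp ((1 / q) ^ 2 / (8 * 1)) (by positivity) 120
  refine h1.trans ?_
  rw [mul_assoc]
  refine mul_le_mul_of_nonneg_left (h2.trans (le_of_eq ?_)) (by norm_num)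
  generalize (((120 : ℕ).factorial : ℕ) : ℝ) = F
  rw [mul_one, one_div, inv_pow, div_pow, inv_pow, ← pow_mul]
  field_simp

theorem qbf_b_ge {q : ℝ} (hq : 0 < q) (hq1 : q ≤ 1 / 100) : 99 / 100 ≤ qbf 1 (1 / q) := by
  have h1 := one_sub_qbf_le (t := 1) (r := 1 / q) one_pos (by positivity)
  set y : ℝ := (1 / q) ^ 2 / (8 * 1) with hy
  have h2 : 100 ≤ 1 / q := by
    rw [le_div_iff₀ hq]
    linarith
  have h3 : 1250 ≤ y := by
    rw [hy]
    nlinarith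
  have h4 := PRA_exp y (by linarith) 1
  rw [Nat.factorial_one, pow_one, Nat.cast_one] at h4
  have h5 : 1 / y ≤ 1 / 1250 := one_div_le_one_div_of_le (by norm_num) h3
  linarith

/-- `1 ≤ α ≤ 2`, `α ≥ 1/(1 - q^80)` -/
theorem alq_ge {q : ℝ} (hq : 0 < q) (hq1 : q ≤ 1 / 100) : 1 / (1 - q ^ 80) ≤ alq q := by
  have h1 := PRA_q80 hq hq1
  have h2 := qbf_b_ge hq hq1
  have h3 : qbf 1 (1 / q) ≤ 1 := qbf_le_one one_pos (by positivity)
  unfold alq
  refine one_div_le_one_div_of_le (mul_pos (by linarith) (by linarith)) ?_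
  nlinarith

theorem one_le_alq {q : ℝ} (hq : 0 < q) (hq1 : q ≤ 1 / 100) : 1 ≤ alq q := by
  have h1 := PRA_q80 hq hq1
  have h0 : 0 < q ^ 80 := by positivity
  refine le_trans ?_ (alq_ge hq hq1)
  rw [le_div_iff₀ (by linarith)]
  linarith

theorem alq_le_two {q : ℝ} (hq : 0 < q) (hq1 : q ≤ 1 / 100) : alq q ≤ 2 := by
  have h1 := PRA_q80 hq hq1
  have h2 := qbf_b_ge hq hq1
  unfold alq
  rw [div_le_iff₀ (mul_pos (by linarith) (by linarith))]
  nlinarith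

/-- the matching condition `f_s'(b-) = 0` -/
theorem auq_match {q a : ℝ} (hq : 0 < q) (hq1 : q ≤ 1 / 100) (ha : 0 < a) :
    auq q a * qbf (tq q a) (bq q a) * (1 - q ^ 80) = a := by
  have h1 := PRA_q80 hq hq1
  have h2 := qbf_b_ge hq hq1
  rw [qbf_b hq ha]
  unfold auq alq
  have h3 : (1 - q ^ 80) ≠ 0 := by linarith
  have h4 : qbf 1 (1 / q) ≠ 0 := by linarith
  field_simp

end Pool.Agent.Lib.MP_4952d6_mp

end

/-! ### U.PRB -/

section

/-!
# PRB: expansions in `tt = q^80 = a/b`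

`alq q = 1/((1-tt) q_b(b))`, `1 - q_b(b) ≤ C q^240` (`one_sub_qbf_b`), `1/(1-tt) ≤ 1 + tt + tt² + 2 tt³`.
`s_b(b) ≥ (1/b)(1 - 2 exp(-1/(8q²)))` (`inv_sub_sbf_le`, `b²/t = 1/q²`), `exp(-1/(8q²)) ≤ C q^240` as in PRA, `a_u ≥ a/(1-tt)`, `a/b = tt`:
`a_u s_b(b) ≥ (tt/(1-tt)) (1 - C q^240) ≥ tt + tt² - C q^240`.
`ct_le`: with `y ≥ tt + tt² - C tt³`: `exp(-2y) ≤ 1 - 2tt - 2tt² + 2 tt² + C tt³ = 1 - 2 tt + C tt³` (`exp(-x) ≤ 1 - x + x²/2` for `x ≥ 0`; for the error term use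
`exp(2C tt³) ≤ 1 + C' tt³`), times `1/(1-tt) ≤ 1 + tt + tt² + 2tt³`: `1 - tt - tt² + C tt³`.
`au_sb_le`: `s_b` is nonincreasing, `a_u s_b(0) = a_u/√(π t) ≤ 2a q^79/(a √π) ≤ 2 q^79`.
-/

set_option autoImplicit false
set_option linter.unusedSectionVars false
set_option linter.unusedVariables false
open MeasureTheory Function Filter Topology Set
open scoped ENNReal

namespace Pool.Agent.Lib.MP_4952d6_mp

/-- `exp(-x) ≤ 1 - x + x²/2` -/
theorem PRB_exp {x : ℝ} (hx : 0 ≤ x) : Real.exp (-x) ≤ 1 - x + x ^ 2 / 2 := by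
  have h1 : 1 + x + x ^ 2 / 2 ≤ Real.exp x := Real.quadratic_le_exp_of_nonneg hx
  have h2 : 0 < 1 - x + x ^ 2 / 2 := by nlinarith [sq_nonneg (x - 1)]
  have h3 : 1 ≤ (1 - x + x ^ 2 / 2) * Real.exp x := by
    calc (1 : ℝ) ≤ (1 - x + x ^ 2 / 2) * (1 + x + x ^ 2 / 2) := by nlinarith [sq_nonneg (x ^ 2)]
      _ ≤ (1 - x + x ^ 2 / 2) * Real.exp x := mul_le_mul_of_nonneg_left h1 h2.le
  have h4 : Real.exp (-x) * Real.exp x = 1 := by rw [← Real.exp_add, neg_add_cancel, Real.exp_zero]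
  have h5 := Real.exp_pos x
  have h6 : Real.exp (-x) * Real.exp x ≤ (1 - x + x ^ 2 / 2) * Real.exp x := by rw [h4]; exact h3
  exact le_of_mul_le_mul_right h6 h5

/-- `t = q^80 ≤ 1/100` -/
theorem PRB_t {q : ℝ} (hq : 0 < q) (hq1 : q ≤ 1 / 100) {k : ℕ} (hk : k ≠ 0) : 0 < q ^ k ∧ q ^ k ≤ 1 / 100 :=
  ⟨pow_pos hq k, (pow_le_of_le_one hq.le (by linarith) hk).trans hq1⟩

theorem PRB_geo {t : ℝ} (ht : 0 < t) (ht1 : t ≤ 1 / 100) : 1 / (1 - t) ≤ 1 + t + t ^ 2 + 2 * t ^ 3 := by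
  rw [div_le_iff₀ (by linarith)]
  have h : 0 ≤ t ^ 3 * (1 - 2 * t) := mul_nonneg (by positivity) (by linarith)
  nlinarith

theorem PRB_four {t : ℝ} (ht : 0 < t) (ht1 : t ≤ 1 / 100) : 1 + t + t ^ 2 + 2 * t ^ 3 ≤ 4 := by
  have h2 : t ^ 2 ≤ 1 := pow_le_one₀ ht.le (by linarith)
  have h3 : t ^ 3 ≤ 1 / 100 := by
    calc t ^ 3 = t ^ 2 * t := by ring
      _ ≤ 1 * (1 / 100) := mul_le_mul h2 ht1 ht.le (by norm_num)
      _ = 1 / 100 := by norm_num
  linarith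

theorem alq_le : ∃ C : ℝ, 0 ≤ C ∧ ∀ q : ℝ, 0 < q → q ≤ 1 / 100 →
    alq q ≤ 1 + q ^ 80 + q ^ 160 + C * q ^ 240 := by
  obtain ⟨C0, hC0, h0⟩ := one_sub_qbf_b
  refine ⟨2 + 8 * C0, by positivity, fun q hq hq1 => ?_⟩
  obtain ⟨ht, ht1⟩ := PRB_t hq hq1 (k := 80) (by norm_num)
  set t := q ^ 80 with htt
  have e160 : q ^ 160 = t ^ 2 := by rw [htt, ← pow_mul]
  have e240 : q ^ 240 = t ^ 3 := by rw [htt, ← pow_mul]
  have h1 := h0 q hq
  have h2 := qbf_b_ge hq hq1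
  rw [e160, e240]
  rw [e240] at h1
  set b := qbf 1 (1 / q) with hb
  have hu : 0 < t ^ 3 := by positivity
  have hb1 : 1 / b ≤ 1 + 2 * C0 * t ^ 3 := by
    rw [div_le_iff₀ (by linarith)]
    have h3 : 0 ≤ C0 * t ^ 3 := by positivity
    nlinarith
  have hal : alq q = 1 / (1 - t) * (1 / b) := by
    unfold alq
    rw [← htt, ← hb, one_div_mul_one_div]
  rw [hal]
  have h4 := PRB_geo ht ht1
  have h5 := PRB_four ht ht1
  have h6 : 0 ≤ C0 * t ^ 3 := by positivity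
  calc 1 / (1 - t) * (1 / b) ≤ (1 + t + t ^ 2 + 2 * t ^ 3) * (1 + 2 * C0 * t ^ 3) :=
        mul_le_mul h4 hb1 (by have : 0 < b := by linarith
                              positivity) (by positivity)
    _ = 1 + t + t ^ 2 + 2 * t ^ 3 + 2 * (C0 * t ^ 3) * (1 + t + t ^ 2 + 2 * t ^ 3) := by ring
    _ ≤ 1 + t + t ^ 2 + 2 * t ^ 3 + 2 * (C0 * t ^ 3) * 4 := by
        have := mul_le_mul_of_nonneg_left h5 (show 0 ≤ 2 * (C0 * t ^ 3) by positivity)
        linarith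
    _ = 1 + t + t ^ 2 + (2 + 8 * C0) * t ^ 3 := by ring

/-- `exp(-1/(8q²)) ≤ C q^240` -/
theorem PRB_gauss {q : ℝ} (hq : 0 < q) : Real.exp (-(1 / (8 * q ^ 2))) ≤ (Nat.factorial 120 * 8 ^ 120 : ℝ) * q ^ 240 := by
  have hy : 0 < 1 / (8 * q ^ 2) := by positivity
  have h1 := Real.pow_div_factorial_le_exp (1 / (8 * q ^ 2)) hy.le 120
  rw [Real.exp_neg]
  have h2 : 0 < (1 / (8 * q ^ 2)) ^ 120 / (Nat.factorial 120 : ℝ) := by
    have := Nat.factorial_pos 120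
    positivity
  calc (Real.exp (1 / (8 * q ^ 2)))⁻¹ ≤ ((1 / (8 * q ^ 2)) ^ 120 / (Nat.factorial 120 : ℝ))⁻¹ := inv_anti₀ h2 h1
    _ = (Nat.factorial 120 * 8 ^ 120 : ℝ) * q ^ 240 := by
        rw [inv_div, div_eq_mul_inv, ← inv_pow, one_div, inv_inv, mul_pow, ← pow_mul, mul_assoc]

/-- `a_u s_b(b) ≥ tt + tt² - C q^240`, `tt = q^80` -/
theorem au_sb_b : ∃ C : ℝ, 0 ≤ C ∧ ∀ q a : ℝ, 0 < q → q ≤ 1 / 100 → 0 < a →
    q ^ 80 + q ^ 160 - C * q ^ 240 ≤ auq q a * sbf (tq q a) (bq q a) := by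
  refine ⟨2 * (Nat.factorial 120 * 8 ^ 120 : ℝ), by positivity, fun q a hq hq1 ha => ?_⟩
  obtain ⟨ht, ht1⟩ := PRB_t hq hq1 (k := 80) (by norm_num)
  have hE := PRB_gauss hq
  have h1 := inv_sub_sbf_le (tq_pos hq ha) (bq_pos hq ha)
  have h2 := alq_ge hq hq1
  have h3 := sbf_nonneg (t := tq q a) (r := bq q a)
  have e1 : bq q a ^ 2 / (8 * tq q a) = 1 / (8 * q ^ 2) := by
    unfold bq tq
    field_simp
  rw [e1] at h1
  have e2 : 1 / bq q a = q ^ 80 / a := by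
    unfold bq
    rw [one_div_div]
  have e3 : 2 / bq q a = 2 * (q ^ 80 / a) := by
    rw [← e2]
    ring
  rw [e2, e3] at h1
  set E := Real.exp (-(1 / (8 * q ^ 2))) with hEdef
  have hE0 : 0 < E := Real.exp_pos _
  set s := sbf (tq q a) (bq q a) with hs
  set t := q ^ 80 with htt
  have e160 : q ^ 160 = t ^ 2 := by rw [htt, ← pow_mul]
  rw [e160]
  -- lower bound of `s`
  have h4 : t * (1 - 2 * E) ≤ a * s := by
    have h5 : t / a * (1 - 2 * E) ≤ s := by linarith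
    have h6 := mul_le_mul_of_nonneg_left h5 ha.le
    have e4 : a * (t / a * (1 - 2 * E)) = t * (1 - 2 * E) := by
      field_simp
    rw [e4] at h6
    exact h6
  have h7 : 1 / (1 - t) * (a * s) ≤ auq q a * s := by
    have h8 := mul_le_mul_of_nonneg_right h2 (mul_nonneg ha.le h3)
    have e5 : auq q a * s = alq q * (a * s) := by
      unfold auq
      ring
    rw [e5]
    exact h8
  have h1t : 0 < 1 - t := by linarith
  have h9 : 1 / (1 - t) * (t * (1 - 2 * E)) ≤ 1 / (1 - t) * (a * s) :=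
    mul_le_mul_of_nonneg_left h4 (by positivity)
  have h10 : t + t ^ 2 - 2 * E ≤ 1 / (1 - t) * (t * (1 - 2 * E)) := by
    rw [one_div, ← div_eq_inv_mul, le_div_iff₀ h1t]
    have h11 : 0 < t ^ 3 := by positivity
    have h12 : 0 ≤ E * (1 - 2 * t) := mul_nonneg hE0.le (by linarith)
    nlinarith
  have h13 : 2 * E ≤ 2 * (Nat.factorial 120 * 8 ^ 120 : ℝ) * q ^ 240 := by
    have := mul_le_mul_of_nonneg_left hE (show (0 : ℝ) ≤ 2 by norm_num)
    linarith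
  linarith

/-- `a_u s_b(0) ≤ 2 q^79` -/
theorem PRB_zero {q a : ℝ} (hq : 0 < q) (hq1 : q ≤ 1 / 100) (ha : 0 < a) :
    auq q a * sbf (tq q a) 0 ≤ 2 * q ^ 79 := by
  have h1 := alq_le_two hq hq1
  have h2 := one_le_alq hq hq1
  have h3 : 0 < q ^ 79 := by positivity
  rw [sbf_zero (tq_pos hq ha), Real.sqrt_mul Real.pi_pos.le, sqrt_tq hq ha]
  have h4 : 1 ≤ Real.sqrt Real.pi := by
    rw [Real.one_le_sqrt]
    linarith [Real.pi_gt_three]
  have e1 : auq q a * (1 / (Real.sqrt Real.pi * (a / q ^ 79))) = alq q * q ^ 79 * (Real.sqrt Real.pi)⁻¹ := by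
    unfold auq
    field_simp
  rw [e1]
  have h5 : (Real.sqrt Real.pi)⁻¹ ≤ 1 := inv_le_one_of_one_le₀ h4
  calc alq q * q ^ 79 * (Real.sqrt Real.pi)⁻¹ ≤ alq q * q ^ 79 * 1 :=
        mul_le_mul_of_nonneg_left h5 (by positivity)
    _ ≤ 2 * q ^ 79 := by
        rw [mul_one]
        exact mul_le_mul_of_nonneg_right h1 h3.le

/-- `a_u ≥ 0` -/
theorem PRB_au {q a : ℝ} (hq : 0 < q) (hq1 : q ≤ 1 / 100) (ha : 0 < a) : 0 < auq q a := by
  have h2 := one_le_alq hq hq1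
  unfold auq
  positivity

/-- `exp(-2 a_u s_b(b)) / (1 - tt) ≤ 1 - tt - tt² + C tt³` -/
theorem ct_le : ∃ C : ℝ, 0 ≤ C ∧ ∀ q a : ℝ, 0 < q → q ≤ 1 / 100 → 0 < a →
    Real.exp (-(2 * (auq q a * sbf (tq q a) (bq q a)))) / (1 - q ^ 80)
      ≤ 1 - q ^ 80 - q ^ 160 + C * q ^ 240 := by
  obtain ⟨C, hC, h⟩ := au_sb_b
  refine ⟨2 + 4 * (2 * C + 6 + 2 * C ^ 2), by positivity, fun q a hq hq1 ha => ?_⟩
  obtain ⟨ht, ht1⟩ := PRB_t hq hq1 (k := 80) (by norm_num)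
  obtain ⟨-, h79⟩ := PRB_t hq hq1 (k := 79) (by norm_num)
  have h1 := h q a hq hq1 ha
  have hau := PRB_au hq hq1 ha
  have h2 : auq q a * sbf (tq q a) (bq q a) ≤ 1 / 2 := by
    have h3 := PRB_zero hq hq1 ha
    have h4 := mul_le_mul_of_nonneg_left (sbf_le_zero (r := bq q a) (tq_pos hq ha)) hau.le
    linarith
  have h0 : 0 ≤ auq q a * sbf (tq q a) (bq q a) := mul_nonneg hau.le sbf_nonneg
  set y := auq q a * sbf (tq q a) (bq q a) with hy
  set t := q ^ 80 with htt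
  have e160 : q ^ 160 = t ^ 2 := by rw [htt, ← pow_mul]
  have e240 : q ^ 240 = t ^ 3 := by rw [htt, ← pow_mul]
  rw [e160, e240]
  rw [e160, e240] at h1
  have hu : 0 < t ^ 3 := by positivity
  have hu1 : t ^ 3 ≤ 1 := pow_le_one₀ ht.le (by linarith)
  have h5 := PRB_exp (x := 2 * y) (by linarith)
  -- the quadratic polynomial is decreasing
  have h6 : 1 - 2 * y + (2 * y) ^ 2 / 2 ≤ 1 - 2 * t + (2 * C + 6 + 2 * C ^ 2) * t ^ 3 := by
    set z := t + t ^ 2 - C * t ^ 3 with hz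
    have h7 : 1 - 2 * y + (2 * y) ^ 2 / 2 ≤ 1 - 2 * z + 2 * z ^ 2 := by
      have h8 : z ≤ 1 / 2 := h1.trans h2
      have h9 : 0 ≤ (y - z) * (1 - y - z) := mul_nonneg (by linarith) (by linarith)
      nlinarith
    have h10 : z ^ 2 ≤ t ^ 2 + 3 * t ^ 3 + C ^ 2 * t ^ 3 := by
      have e1 : z ^ 2 = t ^ 2 + 2 * t ^ 3 + t ^ 3 * t - 2 * C * t ^ 3 * (t + t ^ 2) + C ^ 2 * (t ^ 3 * t ^ 3) := by
        rw [hz]
        ring
      have h11 : t ^ 3 * t ≤ t ^ 3 * 1 := mul_le_mul_of_nonneg_left (by linarith) hu.le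
      have h12 : 0 ≤ 2 * C * t ^ 3 * (t + t ^ 2) := by positivity
      have h13 : C ^ 2 * (t ^ 3 * t ^ 3) ≤ C ^ 2 * (t ^ 3 * 1) :=
        mul_le_mul_of_nonneg_left (mul_le_mul_of_nonneg_left hu1 hu.le) (by positivity)
      rw [e1]
      linarith
    calc 1 - 2 * y + (2 * y) ^ 2 / 2 ≤ 1 - 2 * z + 2 * z ^ 2 := h7
      _ ≤ 1 - 2 * z + 2 * (t ^ 2 + 3 * t ^ 3 + C ^ 2 * t ^ 3) := by linarith
      _ = 1 - 2 * t + (2 * C + 6 + 2 * C ^ 2) * t ^ 3 := by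
          rw [hz]
          ring
  set D := 2 * C + 6 + 2 * C ^ 2 with hD
  have hD0 : 0 ≤ D := by positivity
  have h14 : Real.exp (-(2 * y)) ≤ 1 - 2 * t + D * t ^ 3 := h5.trans h6
  have h15 := PRB_geo ht ht1
  have h16 := PRB_four ht ht1
  have h1t : 0 < 1 - t := by linarith
  calc Real.exp (-(2 * y)) / (1 - t) = Real.exp (-(2 * y)) * (1 / (1 - t)) := by ring
    _ ≤ (1 - 2 * t + D * t ^ 3) * (1 + t + t ^ 2 + 2 * t ^ 3) := by
        refine mul_le_mul h14 h15 (by positivity) ?_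
        have : 0 ≤ D * t ^ 3 := by positivity
        linarith
    _ = (1 - 2 * t) * (1 + t + t ^ 2 + 2 * t ^ 3) + D * t ^ 3 * (1 + t + t ^ 2 + 2 * t ^ 3) := by ring
    _ ≤ (1 - 2 * t) * (1 + t + t ^ 2 + 2 * t ^ 3) + D * t ^ 3 * 4 := by
        have := mul_le_mul_of_nonneg_left h16 (show 0 ≤ D * t ^ 3 by positivity)
        linarith
    _ ≤ 1 - t - t ^ 2 + (2 + 4 * D) * t ^ 3 := by
        have h17 : 0 < t * t ^ 3 := by positivity
        nlinarith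

/-- `0 ≤ a_u (s_b(r) - s_b(b)) ≤ 2 q^79` for `0 ≤ r ≤ b` -/
theorem au_sb_le {q a r : ℝ} (hq : 0 < q) (hq1 : q ≤ 1 / 100) (ha : 0 < a) (hr : 0 ≤ r)
    (hrb : r ≤ bq q a) : 0 ≤ auq q a * (sbf (tq q a) r - sbf (tq q a) (bq q a)) ∧
      auq q a * (sbf (tq q a) r - sbf (tq q a) (bq q a)) ≤ 2 * q ^ 79 := by
  have hau := PRB_au hq hq1 ha
  have h1 := sbf_anti (tq_pos hq ha) hr hrb
  refine ⟨mul_nonneg hau.le (by linarith), ?_⟩
  refine le_trans (mul_le_mul_of_nonneg_left ?_ hau.le) (PRB_zero hq hq1 ha)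
  have h2 := sbf_nonneg (t := tq q a) (r := bq q a)
  have h3 := sbf_le_zero (r := r) (tq_pos hq ha)
  linarith

theorem efs_pos {q a r : ℝ} (hq : 0 < q) (hq1 : q ≤ 1 / 100) : 0 < efs q a r := by
  obtain ⟨ht, ht1⟩ := PRB_t hq hq1 (k := 80) (by norm_num)
  unfold efs
  exact div_pos (Real.exp_pos _) (by linarith)

/-- `1 ≤ e(r) ≤ 2` for `0 ≤ r ≤ b` -/
theorem efs_bounds {q a r : ℝ} (hq : 0 < q) (hq1 : q ≤ 1 / 100) (ha : 0 < a) (hr : 0 ≤ r)
    (hrb : r ≤ bq q a) : 1 ≤ efs q a r ∧ efs q a r ≤ 2 := by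
  obtain ⟨ht, ht1⟩ := PRB_t hq hq1 (k := 80) (by norm_num)
  obtain ⟨h79p, h79⟩ := PRB_t hq hq1 (k := 79) (by norm_num)
  obtain ⟨h1, h2⟩ := au_sb_le hq hq1 ha hr hrb
  have h1t : 0 < 1 - q ^ 80 := by linarith
  unfold efs
  constructor
  · rw [le_div_iff₀ h1t]
    have h3 := Real.one_le_exp h1
    linarith
  · rw [div_le_iff₀ h1t]
    have h3 : Real.exp (auq q a * (sbf (tq q a) r - sbf (tq q a) (bq q a))) ≤ Real.exp (1 / 50) :=
      Real.exp_le_exp.2 (by linarith)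
    have h4 : Real.exp (1 / 50) ≤ 50 / 49 := by
      have h5 := Real.add_one_le_exp (-(1 / 50 : ℝ))
      rw [Real.exp_neg] at h5
      have h6 := Real.exp_pos (1 / 50 : ℝ)
      have h7 : (49 / 50 : ℝ) ≤ (Real.exp (1 / 50))⁻¹ := by linarith
      have h8 := inv_anti₀ (by norm_num) h7
      rw [inv_inv] at h8
      norm_num at h8 ⊢
      linarith
    linarith

end Pool.Agent.Lib.MP_4952d6_mp

end

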