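import Pool.Agent.Lib.MP_4952d6_mp.Pk.G18

/-! Merged modules (to save import time): U.MXA, U.MXA2, U.MXB, U.MXE. -/

/-! ### U.MXA -/

section

/-!
# MXA: mixtures of heat kernels, elementary facts

`mix0 ω t x = ∫_{s > t} ω(s) p_s(x) ds` etc. with `0 ≤ ω(s) ≤ M exp(-c s)`. Everything by dominated convergence / Fubini:
for `s ≥ t` one has `|p_s(x)| ≤ (1 + (4πs)^{-1/2})³ ≤ (1 + (4πt)^{-1/2})³` (`hk_le`), `|∂p_s| ≤ 4 s^{-1/2} p_{2s}` (`dhk_le`),
`|∂²p_s| ≤ 6 s⁻¹ p_{2s}` (`ddhk_le`), joint measurability `hkD_measurable` (`hk = hkD 0`, ...). Measurability of the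
parameter integral: `StronglyMeasurable.integral_prod_right'` or `MeasureTheory.StronglyMeasurable.integral_prod_right`.
Fourier series: `hasSum_hk` and `hasSum_integral_of_summable_integral_norm` (terms `|ω(s) exp(-s ksq p) ch p x| ≤ ω(s) exp(-s ksq p)`,
whose integrals are summable: `ω(s) exp(-s ksq p) ≤ M exp(-c s) exp(-t ksq p)`, `summable_exp_ksq`).
-/

set_option autoImplicit false
set_option linter.unusedSectionVars false
set_option linter.unusedVariables false
open MeasureTheory Function Filter Topology Set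
open scoped ENNReal

namespace Pool.Agent.Lib.MP_4952d6_mp

section
variable {ω : ℝ → ℝ} {t M c : ℝ}

theorem MXA_exp (h : MixOk ω t M c) : IntegrableOn (fun s => M * Real.exp (-(c * s))) (Ioi t) := by
  have e : (fun s => M * Real.exp (-(c * s))) = fun s => M * Real.exp (-c * s) := by
    funext s
    rw [neg_mul]
  rw [e]
  exact (exp_neg_integrableOn_Ioi t h.c_pos).const_mul M

theorem MXA_gen (h : MixOk ω t M c) {f : ℝ → T3 → ℝ} (hf : Measurable (fun q : ℝ × T3 => f q.1 q.2)) {B : ℝ}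
    (hB : ∀ s, t < s → ∀ x, |f s x| ≤ B) :
    (∀ x, IntegrableOn (fun s => ω s * f s x) (Ioi t)) ∧ BM (fun x => ∫ s in Ioi t, ω s * f s x) := by
  have hdom : Integrable (fun s => M * Real.exp (-(c * s)) * B) (volume.restrict (Ioi t)) := (MXA_exp h).mul_const B
  have hle : ∀ x, ∀ᵐ s ∂(volume.restrict (Ioi t)), ‖ω s * f s x‖ ≤ M * Real.exp (-(c * s)) * B := by
    intro x
    refine (ae_restrict_iff' measurableSet_Ioi).2 (Eventually.of_forall fun s hs => ?_)
    rw [norm_mul, Real.norm_eq_abs, Real.norm_eq_abs, abs_of_nonneg (h.nonneg s hs)]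
    exact mul_le_mul (h.le s hs) (hB s hs x) (abs_nonneg _) ((h.nonneg s hs).trans (h.le s hs))
  have hint : ∀ x, Integrable (fun s => ω s * f s x) (volume.restrict (Ioi t)) := by
    intro x
    refine hdom.mono' ?_ (hle x)
    have h1 : Measurable fun s : ℝ => f s x := hf.comp (measurable_id.prodMk measurable_const)
    exact (h.meas.mul h1).aestronglyMeasurable
  refine ⟨hint, ⟨?_, ∫ s in Ioi t, M * Real.exp (-(c * s)) * B, fun x => ?_⟩⟩
  · have h1 : StronglyMeasurable (uncurry fun (x : T3) (s : ℝ) => ω s * f s x) := by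
      have h2 : Measurable (uncurry fun (x : T3) (s : ℝ) => ω s * f s x) :=
        (h.meas.comp measurable_snd).mul (hf.comp (measurable_snd.prodMk measurable_fst))
      exact h2.stronglyMeasurable
    exact (h1.integral_prod_right (ν := volume.restrict (Ioi t))).measurable
  · rw [← Real.norm_eq_abs]
    exact norm_integral_le_of_norm_le hdom (hle x)

/-- the bound of the kernels -/
noncomputable def MXA_b (t : ℝ) : ℝ := (1 + (Real.sqrt (4 * Real.pi * t))⁻¹) ^ 3

theorem MXA_b_nonneg (t : ℝ) : 0 ≤ MXA_b t := by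
  unfold MXA_b
  positivity

theorem MXA_hk (h : MixOk ω t M c) {s : ℝ} (hs : t < s) (x : T3) : hk s x ≤ MXA_b t := by
  have ht := h.t_pos
  refine (hk_le (ht.trans hs) x).trans ?_
  unfold MXA_b
  have h1 : (Real.sqrt (4 * Real.pi * s))⁻¹ ≤ (Real.sqrt (4 * Real.pi * t))⁻¹ := by
    apply inv_anti₀
    · exact Real.sqrt_pos.2 (by positivity)
    · exact Real.sqrt_le_sqrt (by gcongr)
  gcongr

theorem MXA_0 (h : MixOk ω t M c) : ∀ s, t < s → ∀ x, |hk s x| ≤ MXA_b t := by
  intro s hs x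
  rw [abs_of_nonneg (hk_nonneg s x)]
  exact MXA_hk h hs x

theorem MXA_1 (h : MixOk ω t M c) (α : Fin 3) : ∀ s, t < s → ∀ x, |dhk α s x| ≤ 4 / Real.sqrt t * MXA_b t := by
  intro s hs x
  have ht := h.t_pos
  have hs0 : 0 < s := ht.trans hs
  refine (dhk_le α hs0 x).trans ?_
  have h1 : hk (2 * s) x ≤ MXA_b t := MXA_hk h (by linarith) x
  have h2 : 4 / Real.sqrt s ≤ 4 / Real.sqrt t := by
    apply div_le_div_of_nonneg_left (by norm_num) (Real.sqrt_pos.2 ht) (Real.sqrt_le_sqrt hs.le)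
  exact mul_le_mul h2 h1 (hk_nonneg _ _) (by positivity)

theorem MXA_2 (h : MixOk ω t M c) (α β : Fin 3) : ∀ s, t < s → ∀ x, |ddhk α β s x| ≤ 6 / t * MXA_b t := by
  intro s hs x
  have ht := h.t_pos
  have hs0 : 0 < s := ht.trans hs
  refine (ddhk_le α β hs0 x).trans ?_
  have h1 : hk (2 * s) x ≤ MXA_b t := MXA_hk h (by linarith) x
  have h2 : 6 / s ≤ 6 / t := div_le_div_of_nonneg_left (by norm_num) ht hs.le
  exact mul_le_mul h2 h1 (hk_nonneg _ _) (by positivity)

/-- integrability of the weight with the kernels, at every point -/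
theorem mix_integrable (h : MixOk ω t M c) (x : T3) :
    IntegrableOn (fun s => ω s * hk s x) (Ioi t) ∧
    (∀ α, IntegrableOn (fun s => ω s * dhk α s x) (Ioi t)) ∧
    (∀ α β, IntegrableOn (fun s => ω s * ddhk α β s x) (Ioi t)) := by
  exact ⟨(MXA_gen h (hkD_measurable 0) (MXA_0 h)).1 x,
    fun α => (MXA_gen h (hkD_measurable (Pi.single α 1)) (MXA_1 h α)).1 x,
    fun α β => (MXA_gen h (hkD_measurable (Pi.single α 1 + Pi.single β 1)) (MXA_2 h α β)).1 x⟩

theorem mix0_bm (h : MixOk ω t M c) : BM (mix0 ω t) := by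
  exact (MXA_gen h (f := hk) (hkD_measurable 0) (MXA_0 h)).2

theorem mix1_bm (h : MixOk ω t M c) (α : Fin 3) : BM (mix1 ω t α) := by
  exact (MXA_gen h (f := dhk α) (hkD_measurable (Pi.single α 1)) (MXA_1 h α)).2

theorem mix2_bm (h : MixOk ω t M c) (α β : Fin 3) : BM (mix2 ω t α β) := by
  exact (MXA_gen h (f := ddhk α β) (hkD_measurable (Pi.single α 1 + Pi.single β 1)) (MXA_2 h α β)).2

theorem mix0_nonneg (h : MixOk ω t M c) (x : T3) : 0 ≤ mix0 ω t x := by
  unfold mix0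
  exact setIntegral_nonneg measurableSet_Ioi fun s hs => mul_nonneg (h.nonneg s hs) (hk_nonneg s x)

theorem mix0_neg (ω : ℝ → ℝ) (t : ℝ) (x : T3) : mix0 ω t (-x) = mix0 ω t x := by
  unfold mix0
  simp only [hk_neg]

theorem mix1_neg (ω : ℝ → ℝ) (t : ℝ) (α : Fin 3) (x : T3) : mix1 ω t α (-x) = - mix1 ω t α x := by
  unfold mix1
  simp only [dhk_neg, mul_neg, integral_neg]

theorem mix2_neg (ω : ℝ → ℝ) (t : ℝ) (α β : Fin 3) (x : T3) :
    mix2 ω t α β (-x) = mix2 ω t α β x := by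
  unfold mix2
  simp only [ddhk_neg]

end

end Pool.Agent.Lib.MP_4952d6_mp

end

/-! ### U.MXA2 -/

section

/-!
# MXA2: Fourier series of mixtures

Fourier series: `hasSum_hk` and `hasSum_integral_of_summable_integral_norm` (terms `|ω(s) exp(-s ksq p) ch p x| ≤ ω(s) exp(-s ksq p)`,
whose integrals are summable: `ω(s) exp(-s ksq p) ≤ M exp(-c s) exp(-t ksq p)` for `s > t`, `summable_exp_ksq` with `j = 0`).
`ksq_mul_mixh_le`: `ksq ∫_t^∞ M exp(-s ksq) ds ≤ M`. `mixh_neg`: `ksq (-p) = ksq p`. `mix0_zero_eq`: `ch p 0 = 1`, take real parts.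
-/

set_option autoImplicit false
set_option linter.unusedSectionVars false
set_option linter.unusedVariables false
open MeasureTheory Function Filter Topology Set
open scoped ENNReal

namespace Pool.Agent.Lib.MP_4952d6_mp

section
variable {ω : ℝ → ℝ} {t M c : ℝ}

theorem MXA2_M_nonneg (h : MixOk ω t M c) : 0 ≤ M := by
  have h1 := (h.nonneg (t + 1) (by linarith)).trans (h.le (t + 1) (by linarith))
  exact nonneg_of_mul_nonneg_left h1 (Real.exp_pos _)

theorem MXA2_E_int (h : MixOk ω t M c) (A : ℝ) :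
    IntegrableOn (fun s => A * Real.exp (-(c * s))) (Ioi t) := by
  have h1 := (integrableOn_exp_mul_Ioi (a := -c) (by linarith [h.c_pos]) t).const_mul A
  refine h1.congr (Eventually.of_forall fun s => ?_)
  show A * Real.exp (-c * s) = A * Real.exp (-(c * s))
  rw [neg_mul]

theorem MXA2_E_eq (h : MixOk ω t M c) (A : ℝ) :
    ∫ s in Ioi t, A * Real.exp (-(c * s)) = A * (Real.exp (-(c * t)) / c) := by
  rw [integral_const_mul]
  have h1 := integral_exp_mul_Ioi (a := -c) (by linarith [h.c_pos]) t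
  have h2 : (fun s : ℝ => Real.exp (-(c * s))) = fun s => Real.exp (-c * s) := by
    funext s
    rw [neg_mul]
  rw [h2, h1, neg_mul, neg_div_neg_eq]

theorem MXA2_le (h : MixOk ω t M c) (p : Fin 3 → ℤ) {s : ℝ} (hs : t < s) :
    ω s * Real.exp (-(s * ksq p)) ≤ M * Real.exp (-(t * ksq p)) * Real.exp (-(c * s)) := by
  have h1 : Real.exp (-(s * ksq p)) ≤ Real.exp (-(t * ksq p)) := by
    apply Real.exp_le_exp.2
    have := mul_le_mul_of_nonneg_right hs.le (HKE_ksq_nonneg p)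
    linarith
  calc ω s * Real.exp (-(s * ksq p))
      ≤ (M * Real.exp (-(c * s))) * Real.exp (-(t * ksq p)) :=
        mul_le_mul (h.le s hs) h1 (Real.exp_pos _).le
          (mul_nonneg (MXA2_M_nonneg h) (Real.exp_pos _).le)
    _ = M * Real.exp (-(t * ksq p)) * Real.exp (-(c * s)) := by ring

theorem mixh_integrable (h : MixOk ω t M c) (p : Fin 3 → ℤ) :
    IntegrableOn (fun s => ω s * Real.exp (-(s * ksq p))) (Ioi t) := by
  refine Integrable.mono' (MXA2_E_int h (M * Real.exp (-(t * ksq p)))) ?_ ?_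
  · exact (h.meas.mul (by fun_prop)).aestronglyMeasurable
  · refine (ae_restrict_iff' measurableSet_Ioi).2 (Eventually.of_forall fun s hs => ?_)
    rw [Real.norm_eq_abs, abs_of_nonneg (mul_nonneg (h.nonneg s hs) (Real.exp_pos _).le)]
    exact MXA2_le h p hs

theorem mixh_nonneg (h : MixOk ω t M c) (p : Fin 3 → ℤ) : 0 ≤ mixh ω t p :=
  setIntegral_nonneg measurableSet_Ioi fun s hs => mul_nonneg (h.nonneg s hs) (Real.exp_pos _).le

theorem mixh_neg (ω : ℝ → ℝ) (t : ℝ) (p : Fin 3 → ℤ) : mixh ω t (-p) = mixh ω t p := by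
  have h1 : ksq (-p) = ksq p := by
    unfold ksq mom2
    simp
  unfold mixh
  rw [h1]

theorem mixh_le_zero (h : MixOk ω t M c) (p : Fin 3 → ℤ) : mixh ω t p ≤ mixh ω t 0 := by
  refine setIntegral_mono_on (mixh_integrable h p) (mixh_integrable h 0) measurableSet_Ioi
    fun s hs => ?_
  refine mul_le_mul_of_nonneg_left (Real.exp_le_exp.2 ?_) (h.nonneg s hs)
  have h1 : 0 < s := h.t_pos.trans hs
  have := mul_nonneg h1.le (HKE_ksq_nonneg p)
  rw [HKE_ksq_zero, mul_zero]
  linarith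

theorem MXA2_mixh_le (h : MixOk ω t M c) (p : Fin 3 → ℤ) :
    mixh ω t p ≤ M / c * Real.exp (-(t * ksq p)) := by
  have h1 : mixh ω t p ≤ ∫ s in Ioi t, M * Real.exp (-(t * ksq p)) * Real.exp (-(c * s)) :=
    setIntegral_mono_on (mixh_integrable h p) (MXA2_E_int h _) measurableSet_Ioi
      fun s hs => MXA2_le h p hs
  rw [MXA2_E_eq h] at h1
  refine h1.trans ?_
  have h2 : Real.exp (-(c * t)) ≤ 1 := by
    rw [Real.exp_le_one_iff]
    have := mul_pos h.c_pos h.t_pos
    linarith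
  have h3 : Real.exp (-(c * t)) / c ≤ 1 / c := div_le_div_of_nonneg_right h2 h.c_pos.le
  calc M * Real.exp (-(t * ksq p)) * (Real.exp (-(c * t)) / c)
      ≤ M * Real.exp (-(t * ksq p)) * (1 / c) :=
        mul_le_mul_of_nonneg_left h3 (mul_nonneg (MXA2_M_nonneg h) (Real.exp_pos _).le)
    _ = M / c * Real.exp (-(t * ksq p)) := by ring

theorem mixh_zero_le (h : MixOk ω t M c) : mixh ω t 0 ≤ M / c := by
  have h1 := MXA2_mixh_le h 0
  rwa [HKE_ksq_zero, mul_zero, neg_zero, Real.exp_zero, mul_one] at h1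

theorem ksq_mul_mixh_le (h : MixOk ω t M c) (p : Fin 3 → ℤ) : ksq p * mixh ω t p ≤ M := by
  have hM := MXA2_M_nonneg h
  rcases (HKE_ksq_nonneg p).eq_or_lt with h0 | h0
  · rw [← h0, zero_mul]
    exact hM
  · have hint : IntegrableOn (fun s => M * Real.exp (-ksq p * s)) (Ioi t) :=
      (integrableOn_exp_mul_Ioi (a := -ksq p) (by linarith) t).const_mul M
    have h1 : mixh ω t p ≤ ∫ s in Ioi t, M * Real.exp (-ksq p * s) := by
      refine setIntegral_mono_on (mixh_integrable h p) hint measurableSet_Ioi fun s hs => ?_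
      have hs' : t < s := hs
      have e1 : -(s * ksq p) = -ksq p * s := by ring
      rw [e1]
      refine mul_le_mul_of_nonneg_right ?_ (Real.exp_pos _).le
      refine (h.le s hs').trans ?_
      have h2 : Real.exp (-(c * s)) ≤ 1 := by
        rw [Real.exp_le_one_iff]
        have := mul_pos h.c_pos (h.t_pos.trans hs')
        linarith
      calc M * Real.exp (-(c * s)) ≤ M * 1 := mul_le_mul_of_nonneg_left h2 hM
        _ = M := mul_one M
    rw [integral_const_mul, integral_exp_mul_Ioi (a := -ksq p) (by linarith) t] at h1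
    have h3 : Real.exp (-ksq p * t) ≤ 1 := by
      rw [Real.exp_le_one_iff]
      have := mul_pos h0 h.t_pos
      linarith
    calc ksq p * mixh ω t p ≤ ksq p * (M * (-Real.exp (-ksq p * t) / -ksq p)) :=
          mul_le_mul_of_nonneg_left h1 h0.le
      _ = M * Real.exp (-ksq p * t) := by
          rw [neg_div_neg_eq]
          field_simp
      _ ≤ M * 1 := mul_le_mul_of_nonneg_left h3 hM
      _ = M := mul_one M

theorem mixh_summable (h : MixOk ω t M c) : Summable (mixh ω t) := by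
  refine Summable.of_nonneg_of_le (fun p => mixh_nonneg h p) (fun p => MXA2_mixh_le h p) ?_
  exact (HKE_summable h.t_pos).mul_left (M / c)

theorem mix0_hasSum (h : MixOk ω t M c) (x : T3) :
    HasSum (fun p => (mixh ω t p : ℂ) * ch p x) (mix0 ω t x : ℂ) := by
  let F : (Fin 3 → ℤ) → ℝ → ℂ := fun p s => ((ω s * Real.exp (-(s * ksq p)) : ℝ) : ℂ) * ch p x
  have hF_int : ∀ p, Integrable (F p) (volume.restrict (Ioi t)) := fun p =>
    (Integrable.ofReal (mixh_integrable h p)).mul_const (ch p x)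
  have hnorm : ∀ p, ∫ s in Ioi t, ‖F p s‖ = mixh ω t p := by
    intro p
    unfold mixh
    refine setIntegral_congr_fun measurableSet_Ioi fun s hs => ?_
    show ‖((ω s * Real.exp (-(s * ksq p)) : ℝ) : ℂ) * ch p x‖ = ω s * Real.exp (-(s * ksq p))
    rw [norm_mul, ch_norm, mul_one, Complex.norm_real, Real.norm_eq_abs,
      abs_of_nonneg (mul_nonneg (h.nonneg s hs) (Real.exp_pos _).le)]
  have hF_sum : Summable fun p => ∫ s in Ioi t, ‖F p s‖ := by
    simp only [hnorm]
    exact mixh_summable h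
  have key := hasSum_integral_of_summable_integral_norm hF_int hF_sum
  have e1 : ∀ p, ∫ s in Ioi t, F p s = (mixh ω t p : ℂ) * ch p x := by
    intro p
    show ∫ s in Ioi t, ((ω s * Real.exp (-(s * ksq p)) : ℝ) : ℂ) * ch p x = _
    rw [integral_mul_const, integral_complex_ofReal]
    rfl
  have e2 : ∫ s in Ioi t, (∑' p, F p s) = (mix0 ω t x : ℂ) := by
    unfold mix0
    rw [← integral_complex_ofReal]
    refine setIntegral_congr_fun measurableSet_Ioi fun s hs => ?_
    have hs0 : 0 < s := h.t_pos.trans hs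
    have h1 := (hasSum_hk hs0 x).mul_left (ω s : ℂ)
    have h2 : (fun p => (ω s : ℂ) * (((Real.exp (-(s * ksq p)) : ℝ) : ℂ) * ch p x)) = fun p => F p s := by
      funext p
      show _ = ((ω s * Real.exp (-(s * ksq p)) : ℝ) : ℂ) * ch p x
      rw [Complex.ofReal_mul, mul_assoc]
    rw [h2] at h1
    show ∑' p, F p s = ((ω s * hk s x : ℝ) : ℂ)
    rw [h1.tsum_eq, Complex.ofReal_mul]
  rw [e2] at key
  simp only [e1] at key
  exact key

theorem mix0_zero_eq (h : MixOk ω t M c) : mix0 ω t 0 = ∑' p, mixh ω t p := by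
  have h1 := mix0_hasSum h 0
  have e0 : ∀ p : Fin 3 → ℤ, ch p 0 = 1 := by
    intro p
    simp [ch, UnitAddTorus.mFourier]
  simp only [e0, mul_one] at h1
  exact ((Complex.hasSum_ofReal.1 h1).tsum_eq).symm

end

end Pool.Agent.Lib.MP_4952d6_mp

end

/-! ### U.MXB -/

section

/-!
# MXB: directional derivatives of mixtures

`WD lam3 (tau α) Φ Φ'` asks for: `Φ` strongly measurable and bounded (MXA), Lipschitz in direction `α`
(integrate the Lipschitz bound of `hk s`: `|hk s (x + τ) - hk s x| ≤ |τ| sup |dhk α s| ≤ |τ| (4/√s)(1 + (8πs)^{-1/2})³`, from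
`hk_WD`: a function with `WD` satisfies the mean value inequality; it is simplest to prove
`|hk s (x + tau α r) - hk s x| ≤ |r| sup |dhk|` from the one dimensional derivative `hk1_hasDerivAt` (`HK.B`) or
from continuity of `dhk` and the fundamental theorem), and the derivative at (a.e., here every) point:
`hasDerivAt_integral_of_dominated_loc_of_deriv_le` in the variable `r` for `∫ ω(s) hk s (x + tau α r) ds`, where
`r ↦ hk s (x + tau α r)` has derivative `dhk α s (x + tau α r)` at EVERY `r` (see the proof of `hkD_WD` in `HK/D2.lean`;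
prove first the pointwise statement `∀ x, HasDerivAt (fun r => hkD D s (x + tau α r)) (hkD (D + Pi.single α 1) s x) 0`).
-/

set_option autoImplicit false
set_option linter.unusedSectionVars false
set_option linter.unusedVariables false
open MeasureTheory Function Filter Topology Set
open scoped ENNReal

namespace Pool.Agent.Lib.MP_4952d6_mp

section
variable {ω : ℝ → ℝ} {t M c : ℝ}

/-- the pointwise derivative of the kernels, at every point -/
theorem MXB_hd (D : Fin 3 → ℕ) (α : Fin 3) (hD : D α ≤ 1) {s : ℝ} (hs : 0 < s) (x : T3) (r : ℝ) :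
    HasDerivAt (fun r => hkD D s (x + tau α r)) (hkD (D + Pi.single α 1) s (x + tau α r)) r := by
  have h1 : (fun t : ℝ => hkD D s (x + tau α t)) = fun t =>
      hk1 (D α) s (crd x α + t) * ∏ β ∈ Finset.univ.erase α, hk1 (D β) s (crd x β) := by
    funext t
    exact HKD2_tau D α s x t
  have h2 : hkD (D + Pi.single α 1) s (x + tau α r)
      = hk1 (D α + 1) s (crd x α + r) * ∏ β ∈ Finset.univ.erase α, hk1 (D β) s (crd x β) := by
    rw [HKD2_tau, Pi.add_apply, Pi.single_eq_same]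
    congr 1
    refine Finset.prod_congr rfl fun γ hγ => ?_
    rw [Pi.add_apply, Pi.single_eq_of_ne (Finset.ne_of_mem_erase hγ), add_zero]
  rw [h1, h2]
  refine HasDerivAt.mul_const ?_ _
  exact (HKD2_deriv hD hs _).comp_const_add (crd x α) r

/-- the weight is integrable -/
theorem MXB_om (h : MixOk ω t M c) : IntegrableOn ω (Ioi t) := by
  have h1 : IntegrableOn (fun s => M * Real.exp (-c * s)) (Ioi t) :=
    (exp_neg_integrableOn_Ioi t h.c_pos).const_mul M
  refine Integrable.mono' h1 h.meas.aestronglyMeasurable ?_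
  refine (ae_restrict_mem measurableSet_Ioi).mono fun s hs => ?_
  rw [Real.norm_eq_abs, abs_of_nonneg (h.nonneg s hs), neg_mul]
  exact h.le s hs

/-- derivative of the integral -/
theorem MXB_main (h : MixOk ω t M c) (D : Fin 3 → ℕ) (α : Fin 3) (hD : D α ≤ 1) {C : ℝ}
    (hC : ∀ s, t < s → ∀ x, |hkD (D + Pi.single α 1) s x| ≤ C)
    (hi : ∀ x, IntegrableOn (fun s => ω s * hkD D s x) (Ioi t))
    (hi' : ∀ x, IntegrableOn (fun s => ω s * hkD (D + Pi.single α 1) s x) (Ioi t))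
    (x : T3) (r : ℝ) :
    HasDerivAt (fun r => ∫ s in Ioi t, ω s * hkD D s (x + tau α r))
      (∫ s in Ioi t, ω s * hkD (D + Pi.single α 1) s (x + tau α r)) r := by
  have e1 : ∀ᶠ r' in 𝓝 r, AEStronglyMeasurable (fun s => ω s * hkD D s (x + tau α r'))
      (volume.restrict (Ioi t)) :=
    Eventually.of_forall fun r' => (hi (x + tau α r')).aestronglyMeasurable
  have e2 : Integrable (fun s => ω s * hkD D s (x + tau α r)) (volume.restrict (Ioi t)) :=
    hi (x + tau α r)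
  have e3 : AEStronglyMeasurable (fun s => ω s * hkD (D + Pi.single α 1) s (x + tau α r))
      (volume.restrict (Ioi t)) := (hi' (x + tau α r)).aestronglyMeasurable
  have e4 : ∀ᵐ s ∂(volume.restrict (Ioi t)), ∀ r' ∈ (univ : Set ℝ),
      ‖ω s * hkD (D + Pi.single α 1) s (x + tau α r')‖ ≤ ω s * C := by
    refine (ae_restrict_mem measurableSet_Ioi).mono fun s hs r' _ => ?_
    rw [norm_mul, Real.norm_eq_abs, Real.norm_eq_abs, abs_of_nonneg (h.nonneg s hs)]
    exact mul_le_mul_of_nonneg_left (hC s hs _) (h.nonneg s hs)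
  have e5 : Integrable (fun s => ω s * C) (volume.restrict (Ioi t)) := (MXB_om h).mul_const C
  have e6 : ∀ᵐ s ∂(volume.restrict (Ioi t)), ∀ r' ∈ (univ : Set ℝ),
      HasDerivAt (fun r => ω s * hkD D s (x + tau α r))
        (ω s * hkD (D + Pi.single α 1) s (x + tau α r')) r' := by
    refine (ae_restrict_mem measurableSet_Ioi).mono fun s hs r' _ => ?_
    exact (MXB_hd D α hD (h.t_pos.trans hs) x r').const_mul (ω s)
  exact (hasDerivAt_integral_of_dominated_loc_of_deriv_le (s := univ) univ_mem e1 e2 e3 e4 e5 e6).2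

/-- bound of the derivative -/
theorem MXB_bd (h : MixOk ω t M c) (D : Fin 3 → ℕ) {C : ℝ}
    (hC : ∀ s, t < s → ∀ x, |hkD D s x| ≤ C) (x : T3) :
    |∫ s in Ioi t, ω s * hkD D s x| ≤ ∫ s in Ioi t, ω s * C := by
  have h1 := norm_integral_le_of_norm_le (μ := volume.restrict (Ioi t))
    (f := fun s => ω s * hkD D s x) (g := fun s => ω s * C) ((MXB_om h).mul_const C)
    ((ae_restrict_mem measurableSet_Ioi).mono fun s hs => by
      rw [norm_mul, Real.norm_eq_abs, Real.norm_eq_abs, abs_of_nonneg (h.nonneg s hs)]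
      exact mul_le_mul_of_nonneg_left (hC s hs _) (h.nonneg s hs))
  exact h1

/-- general statement -/
theorem MXB_WD (h : MixOk ω t M c) (D : Fin 3 → ℕ) (α : Fin 3) (hD : D α ≤ 1) {C : ℝ}
    (hC : ∀ s, t < s → ∀ x, |hkD (D + Pi.single α 1) s x| ≤ C)
    (hi : ∀ x, IntegrableOn (fun s => ω s * hkD D s x) (Ioi t))
    (hi' : ∀ x, IntegrableOn (fun s => ω s * hkD (D + Pi.single α 1) s x) (Ioi t))
    (hb : BM (fun x => ∫ s in Ioi t, ω s * hkD D s x)) :
    WD lam3 (tau α) (fun x => ∫ s in Ioi t, ω s * hkD D s x)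
      (fun x => ∫ s in Ioi t, ω s * hkD (D + Pi.single α 1) s x) where
  zero := tau_zero α
  sm := hb.1.stronglyMeasurable
  bdd := hb.2
  lip := by
    refine ⟨∫ s in Ioi t, ω s * C, fun x r => ?_⟩
    have h1 := (convex_univ (𝕜 := ℝ) (E := ℝ)).norm_image_sub_le_of_norm_hasDerivWithin_le
      (f := fun r => ∫ s in Ioi t, ω s * hkD D s (x + tau α r))
      (f' := fun r => ∫ s in Ioi t, ω s * hkD (D + Pi.single α 1) s (x + tau α r))
      (C := ∫ s in Ioi t, ω s * C)
      (fun y _ => (MXB_main h D α hD hC hi hi' x y).hasDerivWithinAt)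
      (fun y _ => MXB_bd h (D + Pi.single α 1) hC (x + tau α y)) (mem_univ 0) (mem_univ r)
    simp only [tau_zero, add_zero, sub_zero] at h1
    exact h1
  deriv := by
    refine Eventually.of_forall fun x => ?_
    have h1 := MXB_main h D α hD hC hi hi' x 0
    rw [tau_zero, add_zero] at h1
    exact h1

/-- the kernels at time `2 s > 2 t` are bounded -/
theorem MXB_hk (h : MixOk ω t M c) {s : ℝ} (hs : t < s) (x : T3) :
    hk (2 * s) x ≤ (1 + (Real.sqrt (4 * Real.pi * (2 * t)))⁻¹) ^ 3 := by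
  have ht := h.t_pos
  have hpi := Real.pi_pos
  have hs0 : 0 < 2 * s := by linarith
  refine (hk_le hs0 x).trans ?_
  have h1 : 0 < 4 * Real.pi * (2 * t) := by positivity
  have h2 : 4 * Real.pi * (2 * t) ≤ 4 * Real.pi * (2 * s) := by
    have : 0 ≤ 4 * Real.pi := by positivity
    exact mul_le_mul_of_nonneg_left (by linarith) this
  have h3 : (Real.sqrt (4 * Real.pi * (2 * s)))⁻¹ ≤ (Real.sqrt (4 * Real.pi * (2 * t)))⁻¹ :=
    inv_anti₀ (Real.sqrt_pos.2 h1) (Real.sqrt_le_sqrt h2)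
  have h4 : 0 ≤ (Real.sqrt (4 * Real.pi * (2 * s)))⁻¹ := by positivity
  exact pow_le_pow_left₀ (by linarith) (by linarith) 3

theorem mix0_WD (h : MixOk ω t M c) (α : Fin 3) : WD lam3 (tau α) (mix0 ω t) (mix1 ω t α) := by
  have ht := h.t_pos
  have hz : (0 : Fin 3 → ℕ) + Pi.single α 1 = Pi.single α 1 := zero_add _
  have h1 := MXB_WD h (0 : Fin 3 → ℕ) α (by simp)
    (C := 4 / Real.sqrt t * (1 + (Real.sqrt (4 * Real.pi * (2 * t)))⁻¹) ^ 3)
    (fun s hs x => by
      rw [hz]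
      have hs0 : 0 < s := ht.trans hs
      refine (dhk_le α hs0 x).trans ?_
      refine mul_le_mul ?_ (MXB_hk h hs x) (hk_nonneg _ _) (by positivity)
      exact div_le_div_of_nonneg_left (by norm_num) (Real.sqrt_pos.2 ht) (Real.sqrt_le_sqrt hs.le))
    (fun x => (mix_integrable h x).1)
    (fun x => by
      rw [hz]
      exact (mix_integrable h x).2.1 α)
    (mix0_bm h)
  rw [hz] at h1
  exact h1

theorem mix1_WD (h : MixOk ω t M c) (α β : Fin 3) :
    WD lam3 (tau β) (mix1 ω t α) (mix2 ω t α β) := by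
  have ht := h.t_pos
  exact MXB_WD h (Pi.single α 1) β (HKD2_single_le α β)
    (C := 6 / t * (1 + (Real.sqrt (4 * Real.pi * (2 * t)))⁻¹) ^ 3)
    (fun s hs x => by
      have hs0 : 0 < s := ht.trans hs
      refine (ddhk_le α β hs0 x).trans ?_
      refine mul_le_mul ?_ (MXB_hk h hs x) (hk_nonneg _ _) (by positivity)
      exact div_le_div_of_nonneg_left (by norm_num) ht hs.le)
    (fun x => (mix_integrable h x).2.1 α)
    (fun x => (mix_integrable h x).2.2 α β)
    (mix1_bm h α)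

end

end Pool.Agent.Lib.MP_4952d6_mp

end

/-! ### U.MXE -/

section

/-!
# MXE: the sum `Σ (1 - cos k·z)/k⁴ ≤ C |z|`

`1/ksq² = ∫_0^∞ s exp(-s ksq) ds`, so the sum is `∫_0^∞ s (p_s(0) - p_s(z)) ds` (for `p = 0` both sides vanish; in Lean the summand at
`p = 0` is `0/0 = 0`). Bounds of `0 ≤ p_s(0) - p_s(z)`: (i) `≤ p_s(0) ≤ C s^{-3/2}` for `s ≤ |z|²` (note `|z| ≤ 1`);
(ii) for `|z|² ≤ s ≤ 1`: `≤ C |z|² s^{-5/2}`: second order Taylor along coordinate directions: move the three coordinates one after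
the other, along the segment in coordinate `α` of length `|crd z α| ≤ |z|`; `dhk α s` vanishes at points whose `α`-coordinate is `0`
(odd in that coordinate: `hk1 1 s 0 = 0`) and `|ddhk| ≤ C s⁻¹ p_{2s} ≤ C s^{-5/2}`, so each step costs `≤ (1/2) |z|² C s^{-5/2}`.
(iii) for `s ≥ 1`: the same with `hk_exp`: `|ddhk| ≤ C exp(-s)`, step cost `≤ C |z|² exp(-s)`.
Integrate: `∫_0^{|z|²} s^{-1/2} ds = 2|z|`, `|z|² ∫_{|z|²}^∞ s^{-3/2} ds = 2 |z|`, `|z|² C`. Alternatively avoid the kernel: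
`1 - cos ≤ min(2, |k|²|z|²/2)` (`|k·crd z| ≤ |k| |z|`) and `Σ_{p≠0} min(2, |k|²|z|²/2)/|k|⁴ ≤ C|z|`, using
`min(2, K²z²) ≤ 2 (1 - exp(-K²z²)) e/(e-1)` and `Σ_{p≠0} (1 - exp(-s k²))/k⁴ = ∫_0^s Σ_{p≠0} exp(-r k²)/k² dr`,
`Σ_{p≠0} exp(-rk²)/k² = ∫_r^∞ (p_v(0)-1) dv ≤ C r^{-1/2}` (`hk_sub_one_le`), so the sum is `≤ C √s = C |z|`. This second way is short.
(`ch p z = exp(2πi p·crd z)`, `1 - cos θ ≤ θ²/2`.)
-/

set_option autoImplicit false
set_option linter.unusedSectionVars false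
set_option linter.unusedVariables false
open MeasureTheory Function Filter Topology Set
open scoped ENNReal

namespace Pool.Agent.Lib.MP_4952d6_mp

lemma MXE_ksq_nonneg (p : Fin 3 → ℤ) : 0 ≤ ksq p :=
  mul_nonneg (by positivity) (mom2_nonneg p)

lemma MXE_ksq_zero : ksq 0 = 0 := by simp [ksq, mom2_zero]

lemma MXE_ksq_pos {p : Fin 3 → ℤ} (hp : p ≠ 0) : 0 < ksq p := by
  have h1 : ∃ α, p α ≠ 0 := by
    by_contra hcon
    push Not at hcon
    exact hp (funext hcon)
  obtain ⟨α, hα⟩ := h1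
  have h2 : (0:ℝ) < (p α : ℝ) ^ 2 := by
    have : (p α : ℝ) ≠ 0 := by exact_mod_cast hα
    positivity
  have h3 : (p α : ℝ) ^ 2 ≤ mom2 p :=
    Finset.single_le_sum (f := fun β => (p β : ℝ) ^ 2) (fun β _ => sq_nonneg _) (Finset.mem_univ α)
  have h4 : 0 < mom2 p := lt_of_lt_of_le h2 h3
  unfold ksq
  positivity

lemma MXE_ch (p : Fin 3 → ℤ) (z : T3) :
    ch p z = Complex.exp (((2 * Real.pi * ∑ α, (p α : ℝ) * crd z α : ℝ) : ℂ) * Complex.I) := by
  have h1 : ch p z = ∏ α, fourier (p α) (z α) := rfl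
  have h2 : ∀ α, (fourier (p α) (z α) : ℂ)
      = Complex.exp (2 * Real.pi * Complex.I * (p α) * (crd z α)) := by
    intro α
    have h3 : (fourier (p α) (((crd z α : ℝ) : UnitAddCircle)) : ℂ)
        = Complex.exp (2 * Real.pi * Complex.I * (p α) * (crd z α)) := by
      rw [fourier_coe_apply]
      simp
    rw [coe_crd] at h3
    exact h3
  rw [h1]
  simp_rw [h2]
  rw [← Complex.exp_sum]
  congr 1
  push_cast
  rw [Finset.mul_sum, Finset.sum_mul]
  refine Finset.sum_congr rfl fun α _ => ?_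
  ring

lemma MXE_re (p : Fin 3 → ℤ) (z : T3) :
    (ch p z).re = Real.cos (2 * Real.pi * ∑ α, (p α : ℝ) * crd z α) := by
  rw [MXE_ch, Complex.exp_ofReal_mul_I_re]

lemma MXE_re_le_one (p : Fin 3 → ℤ) (z : T3) : (ch p z).re ≤ 1 := by
  rw [MXE_re]; exact Real.cos_le_one _

lemma MXE_one_sub_le (p : Fin 3 → ℤ) (z : T3) : 1 - (ch p z).re ≤ ksq p * rr z ^ 2 / 2 := by
  rw [MXE_re]
  have h1 := Real.one_sub_sq_div_two_le_cos (x := 2 * Real.pi * ∑ α, (p α : ℝ) * crd z α)
  have h2 : (∑ α, (p α : ℝ) * crd z α) ^ 2 ≤ mom2 p * rr z ^ 2 := by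
    rw [rr_sq]
    exact Finset.sum_mul_sq_le_sq_mul_sq _ _ _
  have h3 : (2 * Real.pi * ∑ α, (p α : ℝ) * crd z α) ^ 2 ≤ ksq p * rr z ^ 2 := by
    unfold ksq
    calc (2 * Real.pi * ∑ α, (p α : ℝ) * crd z α) ^ 2
        = 4 * Real.pi ^ 2 * (∑ α, (p α : ℝ) * crd z α) ^ 2 := by ring
      _ ≤ 4 * Real.pi ^ 2 * (mom2 p * rr z ^ 2) := mul_le_mul_of_nonneg_left h2 (by positivity)
      _ = 4 * Real.pi ^ 2 * mom2 p * rr z ^ 2 := by ring
  linarith

lemma MXE_one_sub_le_exp (p : Fin 3 → ℤ) (z : T3) :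
    1 - (ch p z).re ≤ 4 * (1 - Real.exp (-(rr z ^ 2 * ksq p))) := by
  have h1 := MXE_one_sub_le p z
  have h2 : 1 - (ch p z).re ≤ 2 := by
    rw [MXE_re]
    have := Real.neg_one_le_cos (2 * Real.pi * ∑ α, (p α : ℝ) * crd z α)
    linarith
  set x := rr z ^ 2 * ksq p with hx
  have hx0 : 0 ≤ x := mul_nonneg (sq_nonneg _) (MXE_ksq_nonneg p)
  have h3 : ksq p * rr z ^ 2 / 2 = x / 2 := by rw [hx]; ring
  rw [h3] at h1
  have h4 : Real.exp (-x) ≤ 1 / (1 + x) := by
    rw [Real.exp_neg, inv_eq_one_div]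
    apply one_div_le_one_div_of_le (by linarith)
    have := Real.add_one_le_exp x
    linarith
  have h5 : 1 - 1 / (1 + x) = x / (1 + x) := by
    field_simp
    ring
  have h6 : 1 - (ch p z).re ≤ 4 * (x / (1 + x)) := by
    rw [← mul_div_assoc, le_div_iff₀ (by linarith)]
    rcases le_total x 1 with hx1 | hx1
    · nlinarith [mul_le_mul_of_nonneg_right h1 (by linarith : (0:ℝ) ≤ 1 + x)]
    · nlinarith [mul_le_mul_of_nonneg_right h2 (by linarith : (0:ℝ) ≤ 1 + x)]
  linarith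

lemma MXE_integral {q : ℝ} (hq : 0 < q) (t : ℝ) :
    ∫ s in (0:ℝ)..t, s * Real.exp (-(s * q)) = (1 - (1 + t * q) * Real.exp (-(t * q))) / q ^ 2 := by
  have hd : ∀ s ∈ uIcc (0:ℝ) t, HasDerivAt (fun s => -((s / q + 1 / q ^ 2) * Real.exp (-(s * q))))
      (s * Real.exp (-(s * q))) s := by
    intro s _
    have h1 : HasDerivAt (fun s : ℝ => Real.exp (-(s * q))) (Real.exp (-(s * q)) * (-(1 * q))) s :=
      (((hasDerivAt_id s).mul_const q).neg).exp
    have h2 : HasDerivAt (fun s : ℝ => s / q + 1 / q ^ 2) (1 / q) s :=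
      ((hasDerivAt_id s).div_const q).add_const _
    have h3 := (h2.mul h1).neg
    have h4 : s * Real.exp (-(s * q)) = -(1 / q * Real.exp (-(s * q))
        + (s / q + 1 / q ^ 2) * (Real.exp (-(s * q)) * (-(1 * q)))) := by
      field_simp
      ring
    rw [h4]
    exact h3
  rw [intervalIntegral.integral_eq_sub_of_hasDerivAt hd
    (Continuous.intervalIntegrable (by fun_prop) _ _)]
  simp only [zero_div, zero_mul, neg_zero, Real.exp_zero]
  field_simp
  ring

lemma MXE_exp_Ioi {q : ℝ} (hq : 0 < q) (s : ℝ) :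
    IntegrableOn (fun v => Real.exp (-(v * q))) (Ioi s) ∧
    ∫ v in Ioi s, Real.exp (-(v * q)) = Real.exp (-(s * q)) / q := by
  have h0 : (fun v : ℝ => Real.exp (-(v * q))) = fun v => Real.exp ((-q) * v) := by
    funext v; congr 1; ring
  constructor
  · rw [h0]; exact integrableOn_exp_mul_Ioi (by linarith) s
  · rw [h0, integral_exp_mul_Ioi (by linarith) s]
    rw [neg_div_neg_eq]
    congr 2
    ring

/-- integral representation of one term -/
lemma MXE_repr {q s : ℝ} (hq : 0 < q) :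
    (1 - Real.exp (-(s * q))) / q ^ 2
      = (∫ v in (0:ℝ)..s, v * Real.exp (-(v * q))) + s * ∫ v in Ioi s, Real.exp (-(v * q)) := by
  rw [MXE_integral hq, (MXE_exp_Ioi hq s).2]
  field_simp
  ring

lemma MXE_ch_arg_zero (p : Fin 3 → ℤ) : ch p 0 = 1 := by
  have h1 : ch p 0 * ch p 0 = ch p 0 * 1 := by
    rw [← ch_add_arg, add_zero, mul_one]
  have h2 : ch p 0 ≠ 0 := fun h => by have := ch_norm p 0; rw [h] at this; simp at this
  exact mul_left_cancel₀ h2 h1

lemma MXE_sum_exp_le {s : ℝ} (hs : 0 < s) (S : Finset (Fin 3 → ℤ)) (hS : (0 : Fin 3 → ℤ) ∉ S) :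
    ∑ p ∈ S, Real.exp (-(s * ksq p)) ≤ hk s 0 - 1 := by
  have h1 := hasSum_hk hs 0
  simp only [MXE_ch_arg_zero, mul_one] at h1
  have h2 : HasSum (fun p : Fin 3 → ℤ => Real.exp (-(s * ksq p))) (hk s 0) :=
    Complex.hasSum_ofReal.1 h1
  have h3 := sum_le_hasSum (insert 0 S) (fun p _ => (Real.exp_pos _).le) h2
  rw [Finset.sum_insert hS, MXE_ksq_zero, mul_zero, neg_zero, Real.exp_zero] at h3
  linarith

lemma MXE_inv_sqrt {v : ℝ} (hv : 0 < v) : (Real.sqrt v)⁻¹ ^ 3 = v ^ (-(3 / 2) : ℝ) := by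
  rw [Real.sqrt_eq_rpow, ← Real.rpow_neg hv.le, ← Real.rpow_natCast, ← Real.rpow_mul hv.le]
  norm_num

lemma MXE_sum_le : ∃ C : ℝ, 0 ≤ C ∧ ∀ (s : ℝ) (S : Finset (Fin 3 → ℤ)), 0 < s →
    (0 : Fin 3 → ℤ) ∉ S →
    ∑ p ∈ S, (1 - Real.exp (-(s * ksq p))) / ksq p ^ 2 ≤ C * Real.sqrt s := by
  obtain ⟨C, hC0, hC⟩ := hk_sub_one_le
  refine ⟨4 * C, by linarith, fun s S hs hS => ?_⟩
  have hne : ∀ p ∈ S, p ≠ 0 := fun p hp h => hS (h ▸ hp)
  have hbd : ∀ v : ℝ, 0 < v → ∑ p ∈ S, Real.exp (-(v * ksq p)) ≤ C * v ^ (-(3 / 2) : ℝ) := by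
    intro v hv
    rw [← MXE_inv_sqrt hv]
    exact (MXE_sum_exp_le hv S hS).trans ((le_abs_self _).trans (hC v hv 0))
  have h1 : ∑ p ∈ S, (1 - Real.exp (-(s * ksq p))) / ksq p ^ 2
      = (∫ v in (0:ℝ)..s, v * ∑ p ∈ S, Real.exp (-(v * ksq p)))
        + s * ∫ v in Ioi s, ∑ p ∈ S, Real.exp (-(v * ksq p)) := by
    rw [integral_finsetSum _ fun p hp => (MXE_exp_Ioi (MXE_ksq_pos (hne p hp)) s).1]
    simp_rw [Finset.mul_sum]
    rw [intervalIntegral.integral_finsetSum fun p _ =>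
      Continuous.intervalIntegrable (by fun_prop) _ _, ← Finset.sum_add_distrib]
    exact Finset.sum_congr rfl fun p hp => MXE_repr (MXE_ksq_pos (hne p hp))
  have h2 : ∫ v in (0:ℝ)..s, v * ∑ p ∈ S, Real.exp (-(v * ksq p))
      ≤ ∫ v in (0:ℝ)..s, C * v ^ (-(1 / 2) : ℝ) := by
    refine intervalIntegral.integral_mono_on_of_le_Ioo hs.le ?_ ?_ ?_
    · exact Continuous.intervalIntegrable (by fun_prop) _ _
    · exact (intervalIntegral.intervalIntegrable_rpow' (by norm_num)).const_mul C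
    · intro v hv
      have h6 : v * (C * v ^ (-(3 / 2) : ℝ)) = C * v ^ (-(1 / 2) : ℝ) := by
        have h7 : v ^ (-(1 / 2) : ℝ) = v ^ (1 : ℝ) * v ^ (-(3 / 2) : ℝ) := by
          rw [← Real.rpow_add hv.1]; norm_num
        rw [h7, Real.rpow_one]
        ring
      rw [← h6]
      exact mul_le_mul_of_nonneg_left (hbd v hv.1) hv.1.le
  have h3 : ∫ v in (0:ℝ)..s, C * v ^ (-(1 / 2) : ℝ) = C * (2 * Real.sqrt s) := by
    rw [intervalIntegral.integral_const_mul, integral_rpow (Or.inl (by norm_num))]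
    congr 1
    have h5 : (-(1 / 2) : ℝ) + 1 = 1 / 2 := by norm_num
    rw [h5, Real.zero_rpow (by norm_num), sub_zero, ← Real.sqrt_eq_rpow]
    ring
  have h4 : ∫ v in Ioi s, ∑ p ∈ S, Real.exp (-(v * ksq p))
      ≤ ∫ v in Ioi s, C * v ^ (-(3 / 2) : ℝ) := by
    refine setIntegral_mono_on ?_ ?_ measurableSet_Ioi ?_
    · exact integrable_finsetSum _ fun p hp => (MXE_exp_Ioi (MXE_ksq_pos (hne p hp)) s).1
    · exact (integrableOn_Ioi_rpow_of_lt (by norm_num) hs).const_mul C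
    · intro v hv
      exact hbd v (lt_trans hs hv)
  have h5 : s * ∫ v in Ioi s, C * v ^ (-(3 / 2) : ℝ) = C * (2 * Real.sqrt s) := by
    rw [integral_const_mul, integral_Ioi_rpow_of_lt (by norm_num) hs]
    have h6 : (-(3 / 2) : ℝ) + 1 = -(1 / 2) := by norm_num
    rw [h6, Real.sqrt_eq_rpow]
    have h7 : s ^ (1 / 2 : ℝ) = s ^ (1 : ℝ) * s ^ (-(1 / 2) : ℝ) := by
      rw [← Real.rpow_add hs]; norm_num
    rw [h7, Real.rpow_one]
    ring
  rw [h1]
  have h8 := mul_le_mul_of_nonneg_left h4 hs.le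
  rw [h5] at h8
  rw [h3] at h2
  linarith

theorem cos_tsum : ∃ C : ℝ, 0 ≤ C ∧ ∀ z : T3,
    Summable (fun p : Fin 3 → ℤ => (1 - (ch p z).re) / ksq p ^ 2) ∧
    ∑' p : Fin 3 → ℤ, (1 - (ch p z).re) / ksq p ^ 2 ≤ C * rr z := by
  obtain ⟨C, hC0, hC⟩ := MXE_sum_le
  refine ⟨4 * C, by linarith, fun z => ?_⟩
  have hnn : 0 ≤ fun p : Fin 3 → ℤ => (1 - (ch p z).re) / ksq p ^ 2 := by
    intro p
    have := MXE_re_le_one p z
    exact div_nonneg (by linarith) (sq_nonneg _)
  have hsum : ∀ S : Finset (Fin 3 → ℤ), ∑ p ∈ S, (1 - (ch p z).re) / ksq p ^ 2 ≤ 4 * C * rr z := by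
    intro S
    have h0 : ∑ p ∈ S, (1 - (ch p z).re) / ksq p ^ 2
        = ∑ p ∈ S.erase 0, (1 - (ch p z).re) / ksq p ^ 2 := by
      symm
      apply Finset.sum_erase
      rw [MXE_ksq_zero]
      simp
    have h1 : ∑ p ∈ S.erase 0, (1 - (ch p z).re) / ksq p ^ 2
        ≤ ∑ p ∈ S.erase 0, 4 * ((1 - Real.exp (-(rr z ^ 2 * ksq p))) / ksq p ^ 2) := by
      refine Finset.sum_le_sum fun p _ => ?_
      rw [← mul_div_assoc]
      exact div_le_div_of_nonneg_right (MXE_one_sub_le_exp p z) (sq_nonneg _)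
    rw [h0]
    refine h1.trans ?_
    rw [← Finset.mul_sum]
    rcases (rr_nonneg z).eq_or_lt with hr | hr
    · rw [← hr]
      simp
    · have h2 := hC (rr z ^ 2) (S.erase 0) (by positivity) (Finset.notMem_erase _ _)
      rw [Real.sqrt_sq hr.le] at h2
      calc 4 * ∑ p ∈ S.erase 0, (1 - Real.exp (-(rr z ^ 2 * ksq p))) / ksq p ^ 2
          ≤ 4 * (C * rr z) := mul_le_mul_of_nonneg_left h2 (by norm_num)
        _ = 4 * C * rr z := by ring
  exact ⟨summable_of_sum_le hnn hsum, Real.tsum_le_of_sum_le hnn hsum⟩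

lemma MXE_M_nonneg {ω : ℝ → ℝ} {t M c : ℝ} (h : MixOk ω t M c) : 0 ≤ M := by
  have h1 := (h.nonneg (t + 1) (by linarith)).trans (h.le (t + 1) (by linarith))
  exact nonneg_of_mul_nonneg_left h1 (Real.exp_pos _)

/-- consequence for mixtures: `mixh p ≤ M / ksq p` -/
theorem mixh_cos_tsum : ∃ C : ℝ, 0 ≤ C ∧ ∀ (ω : ℝ → ℝ) (t M c : ℝ), MixOk ω t M c → ∀ z : T3,
    Summable (fun p => mixh ω t p / ksq p * (1 - (ch p z).re)) ∧
    ∑' p, mixh ω t p / ksq p * (1 - (ch p z).re) ≤ C * M * rr z := by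
  obtain ⟨C, hC0, hC⟩ := cos_tsum
  refine ⟨C, hC0, fun ω t M c h z => ?_⟩
  obtain ⟨hs, hle⟩ := hC z
  have hM := MXE_M_nonneg h
  have hnn : ∀ p : Fin 3 → ℤ, 0 ≤ mixh ω t p / ksq p * (1 - (ch p z).re) := by
    intro p
    have := MXE_re_le_one p z
    exact mul_nonneg (div_nonneg (mixh_nonneg h p) (MXE_ksq_nonneg p)) (by linarith)
  have hterm : ∀ p : Fin 3 → ℤ, mixh ω t p / ksq p * (1 - (ch p z).re)
      ≤ M * ((1 - (ch p z).re) / ksq p ^ 2) := by
    intro p
    by_cases hp : p = 0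
    · rw [hp, MXE_ksq_zero]
      simp
    · have hq := MXE_ksq_pos hp
      have h1 : mixh ω t p ≤ M / ksq p := by
        rw [le_div_iff₀ hq, mul_comm]
        exact ksq_mul_mixh_le h p
      have h2 : 0 ≤ 1 - (ch p z).re := by
        have := MXE_re_le_one p z
        linarith
      calc mixh ω t p / ksq p * (1 - (ch p z).re)
          ≤ M / ksq p / ksq p * (1 - (ch p z).re) :=
            mul_le_mul_of_nonneg_right (div_le_div_of_nonneg_right h1 hq.le) h2
        _ = M * ((1 - (ch p z).re) / ksq p ^ 2) := by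
            field_simp
  have hs2 : Summable (fun p => mixh ω t p / ksq p * (1 - (ch p z).re)) :=
    Summable.of_nonneg_of_le hnn hterm (hs.mul_left M)
  refine ⟨hs2, ?_⟩
  calc ∑' p, mixh ω t p / ksq p * (1 - (ch p z).re)
      ≤ ∑' p, M * ((1 - (ch p z).re) / ksq p ^ 2) := hs2.tsum_le_tsum hterm (hs.mul_left M)
    _ = M * ∑' p : Fin 3 → ℤ, (1 - (ch p z).re) / ksq p ^ 2 := tsum_mul_left
    _ ≤ M * (C * rr z) := mul_le_mul_of_nonneg_left hle hM
    _ = C * M * rr z := by ring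

end Pool.Agent.Lib.MP_4952d6_mp

end

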