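import Pool.Agent.Lib.MP_4952d6_mp.Pk.G18
import Pool.Agent.Lib.MP_4952d6_mp.Pk.G19
import Pool.Agent.Lib.MP_4952d6_mp.Pk.G22

/-! Merged modules (to save import time): U.OMA, U.MHB, U.MXF, U.OMB. -/

/-! ### U.OMA -/

section

/-!
# OMA: the weights of `u_l`, `w_l`, `ψ_b` satisfy `MixOk`

`omu = 4π a_u mh(s/l²) ≤ 4π a_u exp(-(κ²/l²) s)`; `omw ≤ 4π a_u (K²/l²) exp(-(κ²/l²) s)`; `omp = μ² exp(μ² t) exp(-μ² s)`,
`μ² t = q^396/a² · a²/q^158 = q^238 ≤ 1`, so `M = 3 μ²`.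
`omu_hasDerivAt`: chain rule, `d/ds mh(s/l²) = -mh1(s/l²)/l²`.
-/

set_option autoImplicit false
set_option linter.unusedSectionVars false
set_option linter.unusedVariables false
open MeasureTheory Function Filter Topology Set
open scoped ENNReal

namespace Pool.Agent.Lib.MP_4952d6_mp

theorem OMA_l {q a : ℝ} (hq : 0 < q) (ha : 0 < a) : 0 < lq q a ^ 2 := by
  unfold lq
  positivity

theorem OMA_au {q a : ℝ} (hq : 0 < q) (hq1 : q ≤ 1 / 100) (ha : 0 < a) : 0 < auq q a := by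
  have h2 := one_le_alq hq hq1
  unfold auq
  exact mul_pos ha (by linarith)

theorem OMA_K2 (κ : ℝ) : 0 ≤ K2 κ := by
  have := Real.pi_pos
  unfold K2
  positivity

theorem OMA_mh {κ q a s : ℝ} (hq : 0 < q) (ha : 0 < a) (hs : 0 ≤ s) :
    mh κ (s / lq q a ^ 2) ≤ Real.exp (-(κ ^ 2 / lq q a ^ 2 * s)) := by
  have hl := OMA_l hq ha
  refine (mh_le (div_nonneg hs hl.le)).trans (le_of_eq ?_)
  congr 1
  ring

theorem omu_ok {κ q a : ℝ} (hκ : 0 < κ) (hq : 0 < q) (hq1 : q ≤ 1 / 100) (ha : 0 < a) :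
    MixOk (omu κ q a) (tq q a) (4 * Real.pi * auq q a) (κ ^ 2 / lq q a ^ 2) := by
  have hl := OMA_l hq ha
  have hau := OMA_au hq hq1 ha
  have hpi := Real.pi_pos
  have ht := tq_pos hq ha
  have hm : 0 ≤ 4 * Real.pi * auq q a := by positivity
  refine ⟨ht, by positivity, ?_, ?_, ?_⟩
  · have h1 : Continuous (omu κ q a) := by
      unfold omu
      exact continuous_const.mul ((mh_continuous κ).comp (continuous_id.div_const _))
    exact h1.measurable
  · intro s hs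
    exact mul_nonneg hm (mh_nonneg _ _)
  · intro s hs
    exact mul_le_mul_of_nonneg_left (OMA_mh hq ha (ht.trans hs).le) hm

theorem omw_ok {κ q a : ℝ} (hκ : 0 < κ) (hq : 0 < q) (hq1 : q ≤ 1 / 100) (ha : 0 < a) :
    MixOk (omw κ q a) (tq q a) (4 * Real.pi * auq q a * (K2 κ / lq q a ^ 2))
      (κ ^ 2 / lq q a ^ 2) := by
  have hl := OMA_l hq ha
  have hau := OMA_au hq hq1 ha
  have hpi := Real.pi_pos
  have ht := tq_pos hq ha
  have hm : 0 ≤ 4 * Real.pi * auq q a := by positivity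
  refine ⟨ht, by positivity, ?_, ?_, ?_⟩
  · have h1 : Continuous (omw κ q a) := by
      unfold omw
      exact continuous_const.mul
        (((mh1_continuous κ).comp (continuous_id.div_const _)).div_const _)
    exact h1.measurable
  · intro s hs
    exact mul_nonneg hm (div_nonneg (mh1_nonneg _ _) hl.le)
  · intro s hs
    have h1 := mh1_le_mh κ (s / lq q a ^ 2)
    have h2 := mul_le_mul_of_nonneg_left (OMA_mh (κ := κ) hq ha (ht.trans hs).le) (OMA_K2 κ)
    have h3 : mh1 κ (s / lq q a ^ 2) / lq q a ^ 2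
        ≤ K2 κ / lq q a ^ 2 * Real.exp (-(κ ^ 2 / lq q a ^ 2 * s)) := by
      rw [div_mul_eq_mul_div]
      exact div_le_div_of_nonneg_right (h1.trans h2) hl.le
    calc omw κ q a s = 4 * Real.pi * auq q a * (mh1 κ (s / lq q a ^ 2) / lq q a ^ 2) := rfl
      _ ≤ 4 * Real.pi * auq q a
          * (K2 κ / lq q a ^ 2 * Real.exp (-(κ ^ 2 / lq q a ^ 2 * s))) :=
          mul_le_mul_of_nonneg_left h3 hm
      _ = _ := by ring

theorem omp_ok {q a : ℝ} (hq : 0 < q) (hq1 : q ≤ 1 / 100) (ha : 0 < a) :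
    MixOk (omp q a) (tq q a) (3 * muq q a ^ 2) (muq q a ^ 2) := by
  have ht := tq_pos hq ha
  have hmu : 0 < muq q a := by
    unfold muq
    positivity
  refine ⟨ht, by positivity, ?_, ?_, ?_⟩
  · have h1 : Continuous (omp q a) := by
      unfold omp
      fun_prop
    exact h1.measurable
  · intro s hs
    unfold omp
    positivity
  · intro s hs
    have e1 : muq q a ^ 2 * tq q a = q ^ 238 := by
      unfold muq tq
      field_simp
    have h1 : Real.exp (muq q a ^ 2 * tq q a) ≤ 3 := by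
      rw [e1]
      have h2 : q ^ 238 ≤ 1 := pow_le_one₀ hq.le (by linarith)
      refine (Real.exp_le_exp.2 h2).trans ?_
      have := Real.exp_one_lt_d9
      linarith
    have e2 : -(muq q a ^ 2 * (s - tq q a)) = muq q a ^ 2 * tq q a + -(muq q a ^ 2 * s) := by ring
    unfold omp
    rw [e2, Real.exp_add]
    have h3 : 0 < muq q a ^ 2 * Real.exp (-(muq q a ^ 2 * s)) := by positivity
    nlinarith

theorem omu_hasDerivAt {κ q a : ℝ} (hq : 0 < q) (ha : 0 < a) (s : ℝ) :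
    HasDerivAt (omu κ q a) (-omw κ q a s) s := by
  have h1 : HasDerivAt (fun s : ℝ => s / lq q a ^ 2) (1 / lq q a ^ 2) s :=
    (hasDerivAt_id s).div_const _
  have h2 := (mh_hasDerivAt κ (s / lq q a ^ 2)).comp s h1
  have h3 := h2.const_mul (4 * Real.pi * auq q a)
  refine h3.congr_deriv ?_
  unfold omw
  ring

theorem tq_div_lq {q a : ℝ} (hq : 0 < q) (ha : 0 < a) : tq q a / lq q a ^ 2 = q ^ 242 := by
  unfold tq lq
  field_simp

end Pool.Agent.Lib.MP_4952d6_mp

end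

/-! ### U.MHB -/

section

/-!
# MHB: Laplace transform of the mixing measure in closed form

`lh_laplace`: Fubini: `∫_β^∞ exp(-s τ) exp(-s z) ds = exp(-β (z+τ))/(z+τ)` for `z + τ > 0`; here `z ≥ 0`, `κ > 0`.
`lh_zero`: `∫_0^{π/2} dφ/(A + B cos²φ) = π / (2 √(A (A+B)))` for `A, B > 0` (antiderivative
`(1/√(A(A+B))) arctan(√(A/(A+B)) tan φ)` on `[0, π/2)`; take the limit at `π/2`, or differentiate and use continuity), and
`sin²φ = ((A+B) - (A + B cos²φ))/B`, so `(4/π) ∫ sin²φ/(A + B cos²φ) = (2/B)(√((A+B)/A) - 1)`, `A = z + κ²`, `B = 16π`.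
-/

set_option autoImplicit false
set_option linter.unusedSectionVars false
set_option linter.unusedVariables false
open MeasureTheory Function Filter Topology Set
open scoped ENNReal

namespace Pool.Agent.Lib.MP_4952d6_mp

theorem MHB_tau_pos {κ : ℝ} (hκ : 0 < κ) (φ : ℝ) : κ ^ 2 ≤ tauv κ φ ∧ 0 < tauv κ φ ∧ tauv κ φ ≤ K2 κ := by
  have h1 : 0 ≤ 16 * Real.pi * Real.cos φ ^ 2 := by positivity
  have h2 : 16 * Real.pi * Real.cos φ ^ 2 ≤ 16 * Real.pi := by
    have h3 : Real.cos φ ^ 2 ≤ 1 := Real.cos_sq_le_one φ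
    have h4 := Real.pi_pos
    nlinarith
  have h5 : 0 < κ ^ 2 := by positivity
  unfold tauv K2
  exact ⟨by linarith, by linarith, by linarith⟩

theorem MHB_sin : ∫ φ in (0:ℝ)..(Real.pi / 2), 4 / Real.pi * Real.sin φ ^ 2 = 1 := by
  rw [intervalIntegral.integral_const_mul, integral_sin_sq]
  have := Real.pi_pos
  simp
  field_simp
  norm_num

theorem MHB_cont {κ β z : ℝ} (hκ : 0 < κ) (hz : 0 ≤ z) : Continuous fun φ : ℝ =>
    4 / Real.pi * Real.sin φ ^ 2 * (Real.exp (-(β * (z + tauv κ φ))) / (z + tauv κ φ)) := by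
  have h1 : Continuous fun φ : ℝ => tauv κ φ := by
    unfold tauv
    fun_prop
  refine (by fun_prop : Continuous fun φ : ℝ => 4 / Real.pi * Real.sin φ ^ 2).mul
    (Continuous.div (by fun_prop) (by fun_prop) fun φ => ?_)
  have := (MHB_tau_pos hκ φ).2.1
  positivity

/-- the smooth antiderivative of `1 / (A + B cos²)` -/
theorem MHB_deriv {k : ℝ} (hk : 0 < k) (hk1 : k < 1) (φ : ℝ) :
    HasDerivAt (fun φ : ℝ => φ - Real.arctan ((1 - k) * (Real.sin φ * Real.cos φ) /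
      (Real.cos φ ^ 2 + k * Real.sin φ ^ 2)))
      (k / (Real.cos φ ^ 2 + k ^ 2 * Real.sin φ ^ 2)) φ := by
  have hs := Real.hasDerivAt_sin φ
  have hc := Real.hasDerivAt_cos φ
  have hsc := Real.sin_sq_add_cos_sq φ
  set s := Real.sin φ with hsdef
  set c := Real.cos φ with hcdef
  have hD : 0 < c ^ 2 + k * s ^ 2 := by nlinarith [sq_nonneg s, sq_nonneg c]
  have hD2 : 0 < c ^ 2 + k ^ 2 * s ^ 2 := by
    have : 0 < k ^ 2 := by positivity
    nlinarith [sq_nonneg s, sq_nonneg c]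
  have h1 : HasDerivAt (fun φ : ℝ => (1 - k) * (Real.sin φ * Real.cos φ))
      ((1 - k) * (c * c + s * (-s))) φ := (hs.mul hc).const_mul (1 - k)
  have h2 : HasDerivAt (fun φ : ℝ => Real.cos φ ^ 2 + k * Real.sin φ ^ 2)
      (2 * c * (-s) + k * (2 * s * c)) φ := by
    have h3 : HasDerivAt (fun φ : ℝ => Real.cos φ ^ 2) (2 * c * (-s)) φ := by
      have h5 : HasDerivAt (fun φ : ℝ => Real.cos φ * Real.cos φ) (-s * c + c * -s) φ := hc.mul hc
      have h6 : (fun φ : ℝ => Real.cos φ ^ 2) = fun φ : ℝ => Real.cos φ * Real.cos φ := by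
        funext x
        ring
      rw [h6]
      exact h5.congr_deriv (by ring)
    have h4 : HasDerivAt (fun φ : ℝ => Real.sin φ ^ 2) (2 * s * c) φ := by
      have h5 : HasDerivAt (fun φ : ℝ => Real.sin φ * Real.sin φ) (c * s + s * c) φ := hs.mul hs
      have h6 : (fun φ : ℝ => Real.sin φ ^ 2) = fun φ : ℝ => Real.sin φ * Real.sin φ := by
        funext x
        ring
      rw [h6]
      exact h5.congr_deriv (by ring)
    exact h3.add (h4.const_mul k)
  have h3 := (h1.div h2 hD.ne').arctan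
  have h4 := (hasDerivAt_id φ).sub h3
  refine h4.congr_deriv ?_
  have hN : (c ^ 2 + k * s ^ 2) ^ 2 + ((1 - k) * (s * c)) ^ 2 = c ^ 2 + k ^ 2 * s ^ 2 := by
    have e : (c ^ 2 + k * s ^ 2) ^ 2 + ((1 - k) * (s * c)) ^ 2 =
        (s ^ 2 + c ^ 2) * (c ^ 2 + k ^ 2 * s ^ 2) := by ring
    rw [e, hsc, one_mul]
  have e1 : 1 + ((1 - k) * (s * c) / (c ^ 2 + k * s ^ 2)) ^ 2 =
      (c ^ 2 + k ^ 2 * s ^ 2) / (c ^ 2 + k * s ^ 2) ^ 2 := by
    rw [← hN]
    field_simp
  have e2 : (1 - k) * (c * c + s * (-s)) * (c ^ 2 + k * s ^ 2) -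
      (1 - k) * (s * c) * (2 * c * (-s) + k * (2 * s * c)) = (1 - k) * (c ^ 2 - k * s ^ 2) := by
    have e : (1 - k) * (c * c + s * (-s)) * (c ^ 2 + k * s ^ 2) -
      (1 - k) * (s * c) * (2 * c * (-s) + k * (2 * s * c)) =
        (s ^ 2 + c ^ 2) * ((1 - k) * (c ^ 2 - k * s ^ 2)) := by ring
    rw [e, hsc, one_mul]
  show 1 - 1 / (1 + ((1 - k) * (s * c) / (c ^ 2 + k * s ^ 2)) ^ 2) *
    (((1 - k) * (c * c + s * -s) * (c ^ 2 + k * s ^ 2) -
      (1 - k) * (s * c) * (2 * c * -s + k * (2 * s * c))) / (c ^ 2 + k * s ^ 2) ^ 2) =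
    k / (c ^ 2 + k ^ 2 * s ^ 2)
  rw [e1, e2]
  have e3 : 1 / ((c ^ 2 + k ^ 2 * s ^ 2) / (c ^ 2 + k * s ^ 2) ^ 2) *
      ((1 - k) * (c ^ 2 - k * s ^ 2) / (c ^ 2 + k * s ^ 2) ^ 2) =
      (1 - k) * (c ^ 2 - k * s ^ 2) / (c ^ 2 + k ^ 2 * s ^ 2) := by
    field_simp
  rw [e3, eq_div_iff hD2.ne', sub_mul, div_mul_cancel₀ _ hD2.ne']
  linear_combination k * hsc

theorem MHB_int {A B : ℝ} (hA : 0 < A) (hB : 0 < B) :
    ∫ φ in (0:ℝ)..(Real.pi / 2), Real.sin φ ^ 2 / (A + B * Real.cos φ ^ 2) =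
      Real.pi / (2 * B) * (Real.sqrt ((A + B) / A) - 1) := by
  have hAB : 0 < A + B := by linarith
  set k : ℝ := Real.sqrt (A / (A + B)) with hk
  have hk0 : 0 < k := Real.sqrt_pos.2 (by positivity)
  have hk2 : k ^ 2 = A / (A + B) := Real.sq_sqrt (by positivity)
  have hk1 : k < 1 := by
    rw [hk, Real.sqrt_lt' one_pos, one_pow, div_lt_one hAB]
    linarith
  have hkinv : Real.sqrt ((A + B) / A) = 1 / k := by
    rw [hk, ← inv_div, Real.sqrt_inv, one_div]
  have hder : ∀ φ ∈ uIcc (0:ℝ) (Real.pi / 2), HasDerivAt (fun φ : ℝ =>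
      1 / B * (1 / k * (φ - Real.arctan ((1 - k) * (Real.sin φ * Real.cos φ) /
      (Real.cos φ ^ 2 + k * Real.sin φ ^ 2))) - φ))
      (Real.sin φ ^ 2 / (A + B * Real.cos φ ^ 2)) φ := by
    intro φ _
    refine ((((MHB_deriv hk0 hk1 φ).const_mul (1 / k)).sub (hasDerivAt_id φ)).const_mul
      (1 / B)).congr_deriv ?_
    have hsc := Real.sin_sq_add_cos_sq φ
    have hden : 0 < A + B * Real.cos φ ^ 2 := by positivity
    have e1 : Real.cos φ ^ 2 + k ^ 2 * Real.sin φ ^ 2 = (A + B * Real.cos φ ^ 2) / (A + B) := by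
      rw [hk2]
      field_simp
      linear_combination A * hsc
    rw [e1]
    have e2 : Real.sin φ ^ 2 = 1 - Real.cos φ ^ 2 := by linarith
    rw [e2]
    field_simp
    ring
  rw [intervalIntegral.integral_eq_sub_of_hasDerivAt hder]
  · rw [hkinv]
    simp
    ring
  · apply Continuous.intervalIntegrable
    refine Continuous.div (by fun_prop) (by fun_prop) fun φ => ?_
    positivity

theorem Lh_laplace {κ β z : ℝ} (hκ : 0 < κ) (hβ : 0 ≤ β) (hz : 0 ≤ z) :
    IntegrableOn (fun s => mh κ s * Real.exp (-(s * z))) (Ioi β) ∧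
    ∫ s in Ioi β, mh κ s * Real.exp (-(s * z)) = Lh κ β z := by
  have hpi := Real.pi_pos
  have hκ2 : 0 < κ ^ 2 := by positivity
  set F : ℝ → ℝ → ℝ := fun s φ => 4 / Real.pi * Real.sin φ ^ 2 * Real.exp (-(s * tauv κ φ)) *
    Real.exp (-(s * z)) with hF
  have hcont : Continuous (uncurry F) := by
    have h1 : Continuous fun p : ℝ × ℝ => tauv κ p.2 := by
      unfold tauv
      fun_prop
    show Continuous fun p : ℝ × ℝ => 4 / Real.pi * Real.sin p.2 ^ 2 *
      Real.exp (-(p.1 * tauv κ p.2)) * Real.exp (-(p.1 * z))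
    fun_prop
  have hint : Integrable (uncurry F) ((volume.restrict (Ioi β)).prod
      (volume.restrict (Ioc (0:ℝ) (Real.pi / 2)))) := by
    have h1 : Integrable (fun s : ℝ => Real.exp (-(κ ^ 2) * s)) (volume.restrict (Ioi β)) :=
      integrableOn_exp_mul_Ioi (by linarith) β
    have h2 : Integrable (fun _ : ℝ => 4 / Real.pi) (volume.restrict (Ioc (0:ℝ) (Real.pi / 2))) :=
      integrable_const _
    refine (h1.mul_prod h2).mono' hcont.aestronglyMeasurable ?_
    rw [Measure.prod_restrict, ae_restrict_iff' (measurableSet_Ioi.prod measurableSet_Ioc)]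
    refine Eventually.of_forall fun p hp => ?_
    have hs : 0 ≤ p.1 := hβ.trans (le_of_lt hp.1)
    have h3 := (MHB_tau_pos hκ p.2).1
    have h4 : Real.sin p.2 ^ 2 ≤ 1 := Real.sin_sq_le_one p.2
    have h5 : Real.exp (-(p.1 * tauv κ p.2)) ≤ Real.exp (-(κ ^ 2) * p.1) := by
      apply Real.exp_le_exp.2
      nlinarith
    have h6 : Real.exp (-(p.1 * z)) ≤ 1 := by
      rw [Real.exp_le_one_iff]
      have := mul_nonneg hs hz
      linarith
    show ‖4 / Real.pi * Real.sin p.2 ^ 2 * Real.exp (-(p.1 * tauv κ p.2)) * Real.exp (-(p.1 * z))‖ ≤ _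
    rw [Real.norm_eq_abs, abs_of_nonneg (by positivity)]
    calc 4 / Real.pi * Real.sin p.2 ^ 2 * Real.exp (-(p.1 * tauv κ p.2)) * Real.exp (-(p.1 * z))
        ≤ 4 / Real.pi * 1 * Real.exp (-(κ ^ 2) * p.1) * 1 := by gcongr
      _ = Real.exp (-(κ ^ 2) * p.1) * (4 / Real.pi) := by ring
  have hle : (0:ℝ) ≤ Real.pi / 2 := by positivity
  have h7 : ∀ s, mh κ s * Real.exp (-(s * z)) = ∫ φ in Ioc (0:ℝ) (Real.pi / 2), F s φ := by
    intro s
    unfold mh
    rw [intervalIntegral.integral_of_le hle, ← integral_mul_const]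
  constructor
  · have h8 := hint.integral_prod_left
    refine Integrable.congr h8 (Eventually.of_forall fun s => ?_)
    exact (h7 s).symm
  · simp_rw [h7]
    rw [integral_integral_swap hint]
    unfold Lh
    rw [intervalIntegral.integral_of_le hle]
    refine setIntegral_congr_fun measurableSet_Ioc fun φ _ => ?_
    have h9 := (MHB_tau_pos hκ φ).2.1
    have h10 : ∀ s, F s φ = 4 / Real.pi * Real.sin φ ^ 2 * Real.exp (-(z + tauv κ φ) * s) := by
      intro s
      simp only [hF]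
      rw [mul_assoc, ← Real.exp_add]
      congr 2
      ring
    show ∫ s in Ioi β, F s φ = _
    simp_rw [h10]
    rw [integral_const_mul, integral_exp_mul_Ioi (by linarith) β]
    congr 1
    rw [neg_div_neg_eq]
    congr 2
    ring

theorem Lh_zero {κ z : ℝ} (hκ : 0 < κ) (hz : 0 ≤ z) :
    Lh κ 0 z = 1 / (8 * Real.pi) * (Real.sqrt (1 + 16 * Real.pi / (z + κ ^ 2)) - 1) := by
  have hpi := Real.pi_pos
  have hA : 0 < z + κ ^ 2 := by positivity
  have hB : 0 < 16 * Real.pi := by positivity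
  have h1 := MHB_int hA hB
  unfold Lh
  have h2 : ∀ φ : ℝ, 4 / Real.pi * Real.sin φ ^ 2 * (Real.exp (-(0 * (z + tauv κ φ))) / (z + tauv κ φ)) =
      4 / Real.pi * (Real.sin φ ^ 2 / (z + κ ^ 2 + 16 * Real.pi * Real.cos φ ^ 2)) := by
    intro φ
    rw [zero_mul, neg_zero, Real.exp_zero]
    unfold tauv
    rw [← add_assoc]
    ring
  simp_rw [h2]
  rw [intervalIntegral.integral_const_mul, h1]
  have h3 : (z + κ ^ 2 + 16 * Real.pi) / (z + κ ^ 2) = 1 + 16 * Real.pi / (z + κ ^ 2) := by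
    field_simp
  rw [h3]
  field_simp
  ring

theorem Lh_nonneg {κ β z : ℝ} (hκ : 0 < κ) (hz : 0 ≤ z) : 0 ≤ Lh κ β z := by
  unfold Lh
  refine intervalIntegral.integral_nonneg (by positivity) fun φ _ => ?_
  have := (MHB_tau_pos hκ φ).2.1
  positivity

theorem Lh_le {κ β z : ℝ} (hκ : 0 < κ) (hβ : 0 ≤ β) (hz : 0 ≤ z) :
    Lh κ β z ≤ Real.exp (-(β * z)) / (z + κ ^ 2) := by
  have hpi := Real.pi_pos
  have h1 : ∫ φ in (0:ℝ)..(Real.pi / 2), 4 / Real.pi * Real.sin φ ^ 2 *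
      (Real.exp (-(β * z)) / (z + κ ^ 2)) = Real.exp (-(β * z)) / (z + κ ^ 2) := by
    rw [intervalIntegral.integral_mul_const, MHB_sin, one_mul]
  rw [← h1]
  unfold Lh
  refine intervalIntegral.integral_mono_on (by positivity) ((MHB_cont hκ hz).intervalIntegrable _ _)
    ((by fun_prop : Continuous fun φ : ℝ => 4 / Real.pi * Real.sin φ ^ 2 *
      (Real.exp (-(β * z)) / (z + κ ^ 2))).intervalIntegrable _ _) fun φ _ => ?_
  obtain ⟨h2, h3, -⟩ := MHB_tau_pos hκ φ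
  have hκ2 : 0 < κ ^ 2 := by positivity
  refine mul_le_mul_of_nonneg_left ?_ (by positivity)
  refine div_le_div₀ (Real.exp_pos _).le ?_ (by positivity) (by linarith)
  apply Real.exp_le_exp.2
  nlinarith [mul_nonneg hβ h3.le]

theorem Lh_ge {κ β z : ℝ} (hκ : 0 < κ) (hβ : 0 ≤ β) (hz : 0 ≤ z) :
    Real.exp (-(β * (z + K2 κ))) / (z + K2 κ) ≤ Lh κ β z := by
  have hpi := Real.pi_pos
  have h1 : ∫ φ in (0:ℝ)..(Real.pi / 2), 4 / Real.pi * Real.sin φ ^ 2 *
      (Real.exp (-(β * (z + K2 κ))) / (z + K2 κ)) = Real.exp (-(β * (z + K2 κ))) / (z + K2 κ) := by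
    rw [intervalIntegral.integral_mul_const, MHB_sin, one_mul]
  rw [← h1]
  unfold Lh
  refine intervalIntegral.integral_mono_on (by positivity)
    ((by fun_prop : Continuous fun φ : ℝ => 4 / Real.pi * Real.sin φ ^ 2 *
      (Real.exp (-(β * (z + K2 κ))) / (z + K2 κ))).intervalIntegrable _ _)
    ((MHB_cont hκ hz).intervalIntegrable _ _) fun φ _ => ?_
  obtain ⟨-, h3, h4⟩ := MHB_tau_pos hκ φ
  refine mul_le_mul_of_nonneg_left ?_ (by positivity)
  refine div_le_div₀ (Real.exp_pos _).le ?_ (by positivity) (by linarith)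
  apply Real.exp_le_exp.2
  nlinarith [mul_nonneg hβ (sub_nonneg.2 h4)]

end Pool.Agent.Lib.MP_4952d6_mp

end

/-! ### U.MXF -/

section

/-!
# MXF: Laplacian of a mixture

Integration by parts in time: `Σ_α ∂_α² p_s = d/ds p_s` (`hk_hasDerivAt_time`), `ω' = -ω₁`. With `G(s) = ω(s) p_s(x)`:
`G' = -ω₁ p_s + ω Σ_α ddhk α α s`, `G → 0` at infinity (`ω(s) ≤ M exp(-cs)`, `p_s` bounded), `G(t) = ω(t) p_t(x)`;
`integral_Ioi_of_hasDerivAt_of_tendsto` (continuity at `t` from the right is clear since `ω` and `p_s` are differentiable at `t`).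
The Fourier version is the same with `exp(-s ksq p)`.
-/

set_option autoImplicit false
set_option linter.unusedSectionVars false
set_option linter.unusedVariables false
open MeasureTheory Function Filter Topology Set
open scoped ENNReal

namespace Pool.Agent.Lib.MP_4952d6_mp

section
variable {ω ω₁ : ℝ → ℝ} {t M c M₁ : ℝ}

lemma MXF_tendsto (h : MixOk ω t M c) {F : ℝ → ℝ} {B : ℝ} (hF0 : ∀ s, t < s → 0 ≤ F s)
    (hF : ∀ s, t < s → F s ≤ B) : Tendsto (fun s => ω s * F s) atTop (𝓝 0) := by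
  have h1 : Tendsto (fun s : ℝ => M * Real.exp (-(c * s)) * B) atTop (𝓝 0) := by
    have h2 : Tendsto (fun s : ℝ => c * s) atTop atTop := tendsto_id.const_mul_atTop h.c_pos
    have h3 : Tendsto (fun s : ℝ => Real.exp (-(c * s))) atTop (𝓝 0) :=
      Real.tendsto_exp_neg_atTop_nhds_zero.comp h2
    have h4 := (h3.const_mul M).mul_const B
    simpa using h4
  refine squeeze_zero' ?_ ?_ h1
  · filter_upwards [Ioi_mem_atTop t] with s hs
    exact mul_nonneg (h.nonneg s hs) (hF0 s hs)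
  · filter_upwards [Ioi_mem_atTop t] with s hs
    have h5 := h.le s hs
    have h6 := h.nonneg s hs
    calc ω s * F s ≤ (M * Real.exp (-(c * s))) * F s := mul_le_mul_of_nonneg_right h5 (hF0 s hs)
      _ ≤ (M * Real.exp (-(c * s))) * B := mul_le_mul_of_nonneg_left (hF s hs) (h6.trans h5)

theorem mix2_trace (h : MixOk ω t M c) (h₁ : MixOk ω₁ t M₁ c)
    (hd : ∀ s, t ≤ s → HasDerivAt ω (-ω₁ s) s) (x : T3) :
    ∑ α, mix2 ω t α α x = - ω t * hk t x + mix0 ω₁ t x := by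
  obtain ⟨i1, -, i3⟩ := mix_integrable h x
  obtain ⟨j1, -, -⟩ := mix_integrable h₁ x
  have hder : ∀ s ∈ Ici t, HasDerivAt (fun s => ω s * hk s x)
      (-ω₁ s * hk s x + ω s * ∑ α, ddhk α α s x) s := fun s hs =>
    (hd s hs).mul (hk_hasDerivAt_time (h.t_pos.trans_le hs) x)
  have i4 : IntegrableOn (fun s => ω s * ∑ α, ddhk α α s x) (Ioi t) := by
    have : (fun s => ω s * ∑ α, ddhk α α s x) = fun s => ∑ α, ω s * ddhk α α s x := by
      funext s
      rw [Finset.mul_sum]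
    rw [this]
    exact integrable_finsetSum _ fun α _ => i3 α α
  have j2 : IntegrableOn (fun s => -ω₁ s * hk s x) (Ioi t) := by
    have : (fun s => -ω₁ s * hk s x) = fun s => -(ω₁ s * hk s x) := by
      funext s
      ring
    rw [this]
    exact j1.neg
  have hlim : Tendsto (fun s => ω s * hk s x) atTop (𝓝 0) := by
    refine MXF_tendsto h (B := (1 + (Real.sqrt (4 * Real.pi * t))⁻¹) ^ 3)
      (fun s _ => hk_nonneg s x) fun s hs => ?_
    refine (hk_le (h.t_pos.trans hs) x).trans ?_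
    have hpos : 0 < Real.sqrt (4 * Real.pi * t) :=
      Real.sqrt_pos.2 (mul_pos (mul_pos (by norm_num) Real.pi_pos) h.t_pos)
    have h2 : Real.sqrt (4 * Real.pi * t) ≤ Real.sqrt (4 * Real.pi * s) :=
      Real.sqrt_le_sqrt (mul_le_mul_of_nonneg_left hs.le (mul_pos (by norm_num) Real.pi_pos).le)
    have h3 : (Real.sqrt (4 * Real.pi * s))⁻¹ ≤ (Real.sqrt (4 * Real.pi * t))⁻¹ :=
      inv_anti₀ hpos h2
    have h4 : 0 ≤ (Real.sqrt (4 * Real.pi * s))⁻¹ := inv_nonneg.2 (Real.sqrt_nonneg _)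
    exact pow_le_pow_left₀ (by linarith) (by linarith) 3
  have key := integral_Ioi_of_hasDerivAt_of_tendsto' hder (j2.add i4) hlim
  have e1 : ∫ s in Ioi t, (-ω₁ s * hk s x + ω s * ∑ α, ddhk α α s x)
      = (∫ s in Ioi t, -ω₁ s * hk s x) + ∫ s in Ioi t, ω s * ∑ α, ddhk α α s x :=
    integral_add j2 i4
  have e2 : ∫ s in Ioi t, -ω₁ s * hk s x = - mix0 ω₁ t x := by
    unfold mix0
    rw [← integral_neg]
    refine integral_congr_ae (Eventually.of_forall fun s => ?_)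
    beta_reduce
    ring
  have e3 : ∫ s in Ioi t, ω s * ∑ α, ddhk α α s x = ∑ α, mix2 ω t α α x := by
    unfold mix2
    rw [← integral_finsetSum _ fun α _ => i3 α α]
    refine integral_congr_ae (Eventually.of_forall fun s => ?_)
    beta_reduce
    rw [Finset.mul_sum]
  rw [e1, e2, e3] at key
  linarith

theorem mixh_parts (h : MixOk ω t M c) (h₁ : MixOk ω₁ t M₁ c)
    (hd : ∀ s, t ≤ s → HasDerivAt ω (-ω₁ s) s) (p : Fin 3 → ℤ) :
    mixh ω₁ t p = ω t * Real.exp (-(t * ksq p)) - ksq p * mixh ω t p := by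
  have i1 := mixh_integrable h p
  have j1 := mixh_integrable h₁ p
  have hk0 : 0 ≤ ksq p := by
    unfold ksq mom2
    positivity
  have hexp : ∀ s : ℝ, HasDerivAt (fun s => Real.exp (-(s * ksq p)))
      (-(ksq p * Real.exp (-(s * ksq p)))) s := by
    intro s
    have h1 : HasDerivAt (fun s : ℝ => -(s * ksq p)) (-(1 * ksq p)) s :=
      ((hasDerivAt_id s).mul_const (ksq p)).neg
    refine h1.exp.congr_deriv ?_
    ring
  have hder : ∀ s ∈ Ici t, HasDerivAt (fun s => ω s * Real.exp (-(s * ksq p)))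
      (-ω₁ s * Real.exp (-(s * ksq p)) + ω s * (-(ksq p * Real.exp (-(s * ksq p))))) s := fun s hs =>
    (hd s hs).mul (hexp s)
  have j2 : IntegrableOn (fun s => -ω₁ s * Real.exp (-(s * ksq p))) (Ioi t) := by
    have : (fun s => -ω₁ s * Real.exp (-(s * ksq p))) = fun s => -(ω₁ s * Real.exp (-(s * ksq p))) := by
      funext s
      ring
    rw [this]
    exact j1.neg
  have i4 : IntegrableOn (fun s => ω s * (-(ksq p * Real.exp (-(s * ksq p))))) (Ioi t) := by
    have : (fun s => ω s * (-(ksq p * Real.exp (-(s * ksq p)))))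
        = fun s => (-ksq p) * (ω s * Real.exp (-(s * ksq p))) := by
      funext s
      ring
    rw [this]
    exact i1.const_mul (-ksq p)
  have hlim : Tendsto (fun s => ω s * Real.exp (-(s * ksq p))) atTop (𝓝 0) := by
    refine MXF_tendsto h (B := 1) (fun s _ => (Real.exp_pos _).le) fun s hs => ?_
    rw [Real.exp_le_one_iff]
    have := mul_nonneg (h.t_pos.trans hs).le hk0
    linarith
  have key := integral_Ioi_of_hasDerivAt_of_tendsto' hder (j2.add i4) hlim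
  have e1 : ∫ s in Ioi t, (-ω₁ s * Real.exp (-(s * ksq p)) + ω s * (-(ksq p * Real.exp (-(s * ksq p)))))
      = (∫ s in Ioi t, -ω₁ s * Real.exp (-(s * ksq p)))
        + ∫ s in Ioi t, ω s * (-(ksq p * Real.exp (-(s * ksq p)))) :=
    integral_add j2 i4
  have e2 : ∫ s in Ioi t, -ω₁ s * Real.exp (-(s * ksq p)) = - mixh ω₁ t p := by
    unfold mixh
    rw [← integral_neg]
    refine integral_congr_ae (Eventually.of_forall fun s => ?_)
    beta_reduce
    ring
  have e3 : ∫ s in Ioi t, ω s * (-(ksq p * Real.exp (-(s * ksq p)))) = - (ksq p * mixh ω t p) := by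
    unfold mixh
    rw [← integral_const_mul, ← integral_neg]
    refine integral_congr_ae (Eventually.of_forall fun s => ?_)
    beta_reduce
    ring
  rw [e1, e2, e3] at key
  linarith

end

end Pool.Agent.Lib.MP_4952d6_mp

end

/-! ### U.OMB -/

section

/-!
# OMB: Fourier coefficients of `u_l`, `w_l`, `ψ_b`

`uh_formula`: substitute `s = l² s'` in `mixh omu` and use `Lh_laplace`: `û(p) = 4π a_u l² Lh κ (q^242) (l² ksq p)`, `t_b/l² = q^242`.
`uh_ge`: `Lh_ge` and `exp(-q^242 K²) ≥ 1/2`. `wlh_formula`: `mixh_parts` with `omu_hasDerivAt`; `ul_laplace`: `mix2_trace`.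
`wlh_le`: pointwise `omw ≤ (K²/l²) omu` (`mh1_le_mh`).
-/

set_option autoImplicit false
set_option linter.unusedSectionVars false
set_option linter.unusedVariables false
open MeasureTheory Function Filter Topology Set
open scoped ENNReal

namespace Pool.Agent.Lib.MP_4952d6_mp

theorem OMB_lq_pos {q a : ℝ} (hq : 0 < q) (ha : 0 < a) : 0 < lq q a ^ 2 := by
  unfold lq; positivity

theorem OMB_tq {q a : ℝ} (hq : 0 < q) (ha : 0 < a) : lq q a ^ 2 * q ^ 242 = tq q a := by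
  have h := tq_div_lq hq ha
  have hL := OMB_lq_pos hq ha
  rw [← h, mul_div_cancel₀ _ hL.ne']

theorem OMB_auq {q a : ℝ} (hq : 0 < q) (hq1 : q ≤ 1 / 100) (ha : 0 < a) : 0 < auq q a := by
  have h := one_le_alq hq hq1
  unfold auq
  have : 0 < alq q := by linarith
  positivity

theorem OMB_omu {κ q a : ℝ} (hq : 0 < q) (ha : 0 < a) :
    omu κ q a (tq q a) = 4 * Real.pi * auq q a * mh κ (q ^ 242) := by
  unfold omu
  rw [tq_div_lq hq ha]

theorem OMB_ksq (p : Fin 3 → ℤ) : 0 ≤ ksq p := HKE_ksq_nonneg p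

theorem uh_formula {κ q a : ℝ} (hκ : 0 < κ) (hq : 0 < q) (ha : 0 < a) (p : Fin 3 → ℤ) :
    mixh (omu κ q a) (tq q a) p
      = 4 * Real.pi * auq q a * lq q a ^ 2 * Lh κ (q ^ 242) (lq q a ^ 2 * ksq p) := by
  have hL := OMB_lq_pos hq ha
  have ht := OMB_tq hq ha
  unfold mixh
  have h1 := integral_comp_mul_left_Ioi
    (fun s => mh κ (s / lq q a ^ 2) * Real.exp (-(s * ksq p))) (q ^ 242) hL
  rw [ht] at h1
  have h2 : ∫ s in Ioi (q ^ 242), (fun s => mh κ (s / lq q a ^ 2) * Real.exp (-(s * ksq p)))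
      (lq q a ^ 2 * s) = Lh κ (q ^ 242) (lq q a ^ 2 * ksq p) := by
    rw [← (Lh_laplace hκ (by positivity : (0:ℝ) ≤ q ^ 242)
      (mul_nonneg hL.le (OMB_ksq p))).2]
    refine setIntegral_congr_fun measurableSet_Ioi fun s _ => ?_
    change mh κ (lq q a ^ 2 * s / lq q a ^ 2) * Real.exp (-(lq q a ^ 2 * s * ksq p)) =
      mh κ s * Real.exp (-(s * (lq q a ^ 2 * ksq p)))
    rw [mul_div_cancel_left₀ _ hL.ne']
    congr 3
    ring
  have h3 : ∫ s in Ioi (tq q a), omu κ q a s * Real.exp (-(s * ksq p)) =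
      4 * Real.pi * auq q a * ∫ s in Ioi (tq q a),
        mh κ (s / lq q a ^ 2) * Real.exp (-(s * ksq p)) := by
    rw [← integral_const_mul]
    refine setIntegral_congr_fun measurableSet_Ioi fun s _ => ?_
    change omu κ q a s * Real.exp (-(s * ksq p)) = 4 * Real.pi * auq q a *
      (mh κ (s / lq q a ^ 2) * Real.exp (-(s * ksq p)))
    unfold omu
    ring
  rw [h3]
  have h4 : ∫ s in Ioi (tq q a), mh κ (s / lq q a ^ 2) * Real.exp (-(s * ksq p)) =
      lq q a ^ 2 * Lh κ (q ^ 242) (lq q a ^ 2 * ksq p) := by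
    rw [h1, smul_eq_mul] at h2
    rw [← h2, mul_inv_cancel_left₀ hL.ne']
  rw [h4]
  ring

theorem uh_le {κ q a : ℝ} (hκ : 0 < κ) (hq : 0 < q) (hq1 : q ≤ 1 / 100) (ha : 0 < a)
    (p : Fin 3 → ℤ) : mixh (omu κ q a) (tq q a) p
      ≤ 4 * Real.pi * auq q a * Real.exp (-(tq q a * ksq p)) * lq q a ^ 2
        / (lq q a ^ 2 * ksq p + κ ^ 2) := by
  have hL := OMB_lq_pos hq ha
  have ht := OMB_tq hq ha
  have hA := OMB_auq hq hq1 ha
  have hk := OMB_ksq p
  have hpi := Real.pi_pos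
  have hz : 0 ≤ lq q a ^ 2 * ksq p := mul_nonneg hL.le hk
  have h1 := Lh_le (κ := κ) (β := q ^ 242) hκ (by positivity) hz
  have e1 : q ^ 242 * (lq q a ^ 2 * ksq p) = tq q a * ksq p := by rw [← ht]; ring
  rw [e1] at h1
  rw [uh_formula hκ hq ha p]
  calc 4 * Real.pi * auq q a * lq q a ^ 2 * Lh κ (q ^ 242) (lq q a ^ 2 * ksq p)
      ≤ 4 * Real.pi * auq q a * lq q a ^ 2 *
        (Real.exp (-(tq q a * ksq p)) / (lq q a ^ 2 * ksq p + κ ^ 2)) :=
        mul_le_mul_of_nonneg_left h1 (by positivity)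
    _ = _ := by ring

theorem uh_ge {κ q a : ℝ} (hκ : 0 < κ) (hκ1 : κ ≤ 1) (hq : 0 < q) (hq1 : q ≤ 1 / 100) (ha : 0 < a)
    (p : Fin 3 → ℤ) : 2 * Real.pi * auq q a * Real.exp (-(tq q a * ksq p)) * lq q a ^ 2
      / (lq q a ^ 2 * ksq p + K2 κ) ≤ mixh (omu κ q a) (tq q a) p := by
  have hL := OMB_lq_pos hq ha
  have ht := OMB_tq hq ha
  have hA := OMB_auq hq hq1 ha
  have hk := OMB_ksq p
  have hpi := Real.pi_pos
  have hz : 0 ≤ lq q a ^ 2 * ksq p := mul_nonneg hL.le hk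
  have h1 := Lh_ge (κ := κ) (β := q ^ 242) hκ (by positivity) hz
  have hK : 0 < K2 κ := by unfold K2; positivity
  have hK2 : K2 κ ≤ 65 := by
    unfold K2
    have := Real.pi_le_four
    nlinarith
  have hβ : q ^ 242 ≤ 1 / 10000 := by
    calc q ^ 242 ≤ q ^ 2 := pow_le_pow_of_le_one hq.le (by linarith) (by norm_num)
      _ ≤ (1 / 100) ^ 2 := pow_le_pow_left₀ hq.le hq1 2
      _ = 1 / 10000 := by norm_num
  have hβ0 : 0 < q ^ 242 := by positivity
  have h2 : 1 / 2 ≤ Real.exp (-(q ^ 242 * K2 κ)) := by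
    have h3 := Real.add_one_le_exp (-(q ^ 242 * K2 κ))
    have h4 : q ^ 242 * K2 κ ≤ 1 / 10000 * 65 := mul_le_mul hβ hK2 hK.le (by norm_num)
    linarith
  have e1 : Real.exp (-(q ^ 242 * (lq q a ^ 2 * ksq p + K2 κ))) =
      Real.exp (-(tq q a * ksq p)) * Real.exp (-(q ^ 242 * K2 κ)) := by
    rw [← Real.exp_add, ← ht]
    congr 1
    ring
  rw [e1] at h1
  have hden : 0 < lq q a ^ 2 * ksq p + K2 κ := by linarith
  rw [uh_formula hκ hq ha p]
  have h5 : Real.exp (-(tq q a * ksq p)) * (1 / 2) / (lq q a ^ 2 * ksq p + K2 κ) ≤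
      Lh κ (q ^ 242) (lq q a ^ 2 * ksq p) := by
    refine le_trans ?_ h1
    gcongr
  calc 2 * Real.pi * auq q a * Real.exp (-(tq q a * ksq p)) * lq q a ^ 2
      / (lq q a ^ 2 * ksq p + K2 κ)
      = 4 * Real.pi * auq q a * lq q a ^ 2 *
        (Real.exp (-(tq q a * ksq p)) * (1 / 2) / (lq q a ^ 2 * ksq p + K2 κ)) := by ring
    _ ≤ _ := mul_le_mul_of_nonneg_left h5 (by positivity)

theorem omp_mixh {q a : ℝ} (hq : 0 < q) (ha : 0 < a) (p : Fin 3 → ℤ) :
    mixh (omp q a) (tq q a) p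
      = muq q a ^ 2 * Real.exp (-(tq q a * ksq p)) / (ksq p + muq q a ^ 2) := by
  have hμ : 0 < muq q a ^ 2 := by unfold muq; positivity
  have hk := OMB_ksq p
  have hc : 0 < ksq p + muq q a ^ 2 := by linarith
  unfold mixh
  have h1 : ∀ s : ℝ, omp q a s * Real.exp (-(s * ksq p)) =
      muq q a ^ 2 * Real.exp (muq q a ^ 2 * tq q a) *
        Real.exp (-(ksq p + muq q a ^ 2) * s) := by
    intro s
    unfold omp
    rw [mul_assoc, mul_assoc, ← Real.exp_add, ← Real.exp_add]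
    congr 2
    ring
  simp only [h1]
  rw [integral_const_mul, integral_exp_mul_Ioi (by linarith) (tq q a)]
  have h2 : Real.exp (-(tq q a * ksq p)) =
      Real.exp (muq q a ^ 2 * tq q a) * Real.exp (-(ksq p + muq q a ^ 2) * tq q a) := by
    rw [← Real.exp_add]
    congr 1
    ring
  rw [h2]
  rw [neg_div_neg_eq]
  ring

theorem wlh_formula {κ q a : ℝ} (hκ : 0 < κ) (hq : 0 < q) (hq1 : q ≤ 1 / 100) (ha : 0 < a)
    (p : Fin 3 → ℤ) : wlh κ q a p
      = 4 * Real.pi * auq q a * mh κ (q ^ 242) * Real.exp (-(tq q a * ksq p))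
        - ksq p * mixh (omu κ q a) (tq q a) p := by
  have h := mixh_parts (omu_ok (κ := κ) hκ hq hq1 ha) (omw_ok hκ hq hq1 ha)
    (fun s _ => omu_hasDerivAt hq ha s) p
  rw [OMB_omu hq ha] at h
  exact h

/-- `ŵ ≤ (K²/l²) û` -/
theorem wlh_le {κ q a : ℝ} (hκ : 0 < κ) (hq : 0 < q) (hq1 : q ≤ 1 / 100) (ha : 0 < a)
    (p : Fin 3 → ℤ) : wlh κ q a p ≤ K2 κ / lq q a ^ 2 * mixh (omu κ q a) (tq q a) p := by
  have hL := OMB_lq_pos hq ha
  have hA := OMB_auq hq hq1 ha
  have hpi := Real.pi_pos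
  unfold wlh mixh
  rw [← integral_const_mul]
  refine setIntegral_mono_on (mixh_integrable (omw_ok hκ hq hq1 ha) p)
    ((mixh_integrable (omu_ok hκ hq hq1 ha) p).const_mul _) measurableSet_Ioi fun s _ => ?_
  have h1 : omw κ q a s ≤ K2 κ / lq q a ^ 2 * omu κ q a s := by
    unfold omw omu
    have h2 := mh1_le_mh κ (s / lq q a ^ 2)
    calc 4 * Real.pi * auq q a * (mh1 κ (s / lq q a ^ 2) / lq q a ^ 2)
        ≤ 4 * Real.pi * auq q a * (K2 κ * mh κ (s / lq q a ^ 2) / lq q a ^ 2) := by gcongr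
      _ = _ := by ring
  calc omw κ q a s * Real.exp (-(s * ksq p))
      ≤ K2 κ / lq q a ^ 2 * omu κ q a s * Real.exp (-(s * ksq p)) :=
        mul_le_mul_of_nonneg_right h1 (Real.exp_pos _).le
    _ = _ := by ring

theorem wlh_nonneg {κ q a : ℝ} (hκ : 0 < κ) (hq : 0 < q) (hq1 : q ≤ 1 / 100) (ha : 0 < a)
    (p : Fin 3 → ℤ) : 0 ≤ wlh κ q a p := by
  exact mixh_nonneg (omw_ok hκ hq hq1 ha) p

/-- Laplacian of `u_l` -/
theorem ul_laplace {κ q a : ℝ} (hκ : 0 < κ) (hq : 0 < q) (hq1 : q ≤ 1 / 100) (ha : 0 < a)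
    (x : T3) : ∑ α, mix2 (omu κ q a) (tq q a) α α x
      = -(4 * Real.pi * auq q a * mh κ (q ^ 242)) * hk (tq q a) x + wl κ q a x := by
  have h := mix2_trace (omu_ok (κ := κ) hκ hq hq1 ha) (omw_ok hκ hq hq1 ha)
    (fun s _ => omu_hasDerivAt hq ha s) x
  rw [OMB_omu hq ha] at h
  exact h

end Pool.Agent.Lib.MP_4952d6_mp

end

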