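import Pool.Agent.Lib.MP_4952d6_mp.Pk.G27

/-! Merged modules (to save import time): LA.E4, LA.H1. -/

/-! ### LA.E4 -/

section

/-!
# JOB LA-E4: existence of the localisation functions

`c r = clamp ((r - l)/l) to [0,1]`, `θ₁ x = cos (π/2 * c (rr x))`, `θ₂ x = sin (π/2 * c (rr x))`; `Prof (2 l)` profiles with
`γ₁ r = - (π/(2 l)) sin (π/2 c r) / r`, `γ₂ r = (π/(2 l)) cos (π/2 c r) / r` for `l < r < 2 l`, `0` otherwise (derivative a.e.: all `r` except `l`, `2 l`);
`rad_WD` gives `θ₁' α x = γ₁ (rr x) * crd x α`; `∑_α crd² = rr²` (`rr_sq`) so `∑_α (θ₁'² + θ₂'²) = (π/(2 l))² ≤ 3/l²` on `l < rr x < 2 l` (`π² < 12`), `0` elsewhere.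
-/

set_option autoImplicit false
set_option linter.unusedSectionVars false
set_option linter.unusedVariables false
open MeasureTheory Function Filter Topology Set ComplexConjugate
open scoped ENNReal

namespace Pool.Agent.Lib.MP_4952d6_mp.LA

/-- The clamp function. -/
noncomputable def e4cl (l r : ℝ) : ℝ := max 0 (min 1 ((r - l) / l))

lemma e4cl_nonneg (l r : ℝ) : 0 ≤ e4cl l r := le_max_left _ _

lemma e4cl_le_one (l r : ℝ) : e4cl l r ≤ 1 := max_le zero_le_one (min_le_left _ _)

lemma e4cl_of_le {l r : ℝ} (hl : 0 < l) (h : r ≤ l) : e4cl l r = 0 := by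
  unfold e4cl
  refine max_eq_left ((min_le_right _ _).trans ?_)
  exact div_nonpos_of_nonpos_of_nonneg (by linarith) hl.le

lemma e4cl_of_ge {l r : ℝ} (hl : 0 < l) (h : 2 * l ≤ r) : e4cl l r = 1 := by
  unfold e4cl
  have h1 : 1 ≤ (r - l) / l := by
    rw [le_div_iff₀ hl]; linarith
  rw [min_eq_left h1]
  exact max_eq_right zero_le_one

lemma e4cl_of_mem {l r : ℝ} (hl : 0 < l) (h1 : l ≤ r) (h2 : r ≤ 2 * l) :
    e4cl l r = (r - l) / l := by
  unfold e4cl
  have h3 : (r - l) / l ≤ 1 := by
    rw [div_le_iff₀ hl]; linarith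
  rw [min_eq_right h3]
  exact max_eq_right (div_nonneg (by linarith) hl.le)

lemma e4cl_lip {l : ℝ} (hl : 0 < l) (r s : ℝ) : |e4cl l r - e4cl l s| ≤ 1 / l * |r - s| := by
  unfold e4cl
  have h0 := abs_max_sub_max_le_max (0 : ℝ) (min 1 ((r - l) / l)) 0 (min 1 ((s - l) / l))
  rw [sub_self, abs_zero, max_eq_right (abs_nonneg (min 1 ((r - l) / l) - min 1 ((s - l) / l)))] at h0
  have h := abs_min_sub_min_le_max (1 : ℝ) ((r - l) / l) 1 ((s - l) / l)
  rw [sub_self, abs_zero, max_eq_right (abs_nonneg ((r - l) / l - (s - l) / l))] at h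
  refine h0.trans (h.trans (le_of_eq ?_))
  rw [← sub_div, abs_div, abs_of_pos hl, show r - l - (s - l) = r - s by ring]
  field_simp

/-- The general profile. -/
noncomputable def e4g (F' : ℝ → ℝ) (l r : ℝ) : ℝ :=
  if l < r ∧ r < 2 * l then Real.pi / (2 * l) * F' (Real.pi / 2 * e4cl l r) / r else 0

lemma e4_prof {l : ℝ} (hl : 0 < l) (hl8 : l ≤ 1 / 8) {F F' : ℝ → ℝ}
    (hF : ∀ x, HasDerivAt F (F' x) x) (hlip : ∀ x y, |F x - F y| ≤ |x - y|)
    (hbd : ∀ x, |F x| ≤ 1) :
    Prof (2 * l) (fun r => F (Real.pi / 2 * e4cl l r)) (e4g F' l) where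
  b_lt := by linarith
  lip := by
    refine ⟨Real.pi / 2 * (1 / l), fun r s => (hlip _ _).trans ?_⟩
    rw [← mul_sub, abs_mul, abs_of_pos (by positivity : 0 < Real.pi / 2), mul_assoc]
    exact mul_le_mul_of_nonneg_left (e4cl_lip hl r s) (by positivity)
  bdd := ⟨1, fun r => hbd _⟩
  deriv := by
    have h1 : ∀ᵐ r : ℝ, r ≠ l := by
      rw [ae_iff]; simp
    have h2 : ∀ᵐ r : ℝ, r ≠ 2 * l := by
      rw [ae_iff]; simp
    filter_upwards [h1, h2] with r hr1 hr2 hr0
    rcases lt_or_gt_of_ne hr1 with h | h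
    · have e : r * e4g F' l r = 0 := by
        unfold e4g
        rw [if_neg (fun hh => absurd hh.1 (not_lt.2 h.le)), mul_zero]
      rw [e]
      refine (hasDerivAt_const r (F (Real.pi / 2 * 0))).congr_of_eventuallyEq ?_
      filter_upwards [gt_mem_nhds h] with t ht
      rw [e4cl_of_le hl (le_of_lt ht)]
    · rcases lt_or_gt_of_ne hr2 with h' | h'
      · have e : r * e4g F' l r = F' (Real.pi / 2 * ((r - l) / l)) * (Real.pi / 2 * (1 / l)) := by
          unfold e4g
          rw [if_pos ⟨h, h'⟩, e4cl_of_mem hl h.le h'.le]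
          field_simp
        rw [e]
        have hd : HasDerivAt (fun t : ℝ => Real.pi / 2 * ((t - l) / l)) (Real.pi / 2 * (1 / l)) r :=
          (((hasDerivAt_id r).sub_const l).div_const l).const_mul _
        refine (HasDerivAt.comp r (hF _) hd).congr_of_eventuallyEq ?_
        filter_upwards [lt_mem_nhds h, gt_mem_nhds h'] with t ht ht'
        rw [e4cl_of_mem hl (le_of_lt ht) (le_of_lt ht')]
        rfl
      · have e : r * e4g F' l r = 0 := by
          unfold e4g
          rw [if_neg (fun hh => absurd hh.2 (not_lt.2 h'.le)), mul_zero]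
        rw [e]
        refine (hasDerivAt_const r (F (Real.pi / 2 * 1))).congr_of_eventuallyEq ?_
        filter_upwards [lt_mem_nhds h'] with t ht
        rw [e4cl_of_ge hl (le_of_lt ht)]
  zero := fun r hr => by
    unfold e4g
    rw [if_neg (fun hh => absurd hh.2 (not_lt.2 hr))]
  const := fun r hr => by
    show F (Real.pi / 2 * e4cl l r) = F (Real.pi / 2 * e4cl l (2 * l))
    rw [e4cl_of_ge hl hr, e4cl_of_ge hl le_rfl]

lemma e4cl_meas (l : ℝ) : Measurable (e4cl l) := by
  unfold e4cl
  exact measurable_const.max (measurable_const.min ((measurable_id.sub_const l).div_const l))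

lemma e4g_meas {F' : ℝ → ℝ} (h : Measurable F') (l : ℝ) : Measurable (e4g F' l) := by
  unfold e4g
  refine Measurable.ite ?_ ?_ measurable_const
  · exact measurableSet_Ioi.inter measurableSet_Iio
  · exact ((h.comp ((e4cl_meas l).const_mul _)).const_mul _).div measurable_id

lemma e4_sum {l : ℝ} (hl : 0 < l) (x : T3) :
    ∑ α : Fin 3, ((e4g (fun y => -Real.sin y) l (rr x) * crd x α) ^ 2
      + (e4g Real.cos l (rr x) * crd x α) ^ 2)
      = if l < rr x ∧ rr x < 2 * l then (Real.pi / (2 * l)) ^ 2 else 0 := by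
  have e : ∀ α : Fin 3, (e4g (fun y => -Real.sin y) l (rr x) * crd x α) ^ 2
      + (e4g Real.cos l (rr x) * crd x α) ^ 2
      = (e4g (fun y => -Real.sin y) l (rr x) ^ 2 + e4g Real.cos l (rr x) ^ 2) * crd x α ^ 2 :=
    fun α => by ring
  simp_rw [e]
  rw [← Finset.mul_sum, ← rr_sq]
  unfold e4g
  by_cases h : l < rr x ∧ rr x < 2 * l
  · rw [if_pos h, if_pos h, if_pos h]
    have h0 : rr x ≠ 0 := (hl.trans h.1).ne'
    have hs := Real.sin_sq_add_cos_sq (Real.pi / 2 * e4cl l (rr x))
    have e2 : (Real.pi / (2 * l) * -Real.sin (Real.pi / 2 * e4cl l (rr x)) / rr x) ^ 2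
        + (Real.pi / (2 * l) * Real.cos (Real.pi / 2 * e4cl l (rr x)) / rr x) ^ 2
        = (Real.pi / (2 * l)) ^ 2 * (Real.sin (Real.pi / 2 * e4cl l (rr x)) ^ 2
          + Real.cos (Real.pi / 2 * e4cl l (rr x)) ^ 2) / rr x ^ 2 := by
      ring
    rw [e2, hs, mul_one, div_mul_cancel₀]
    exact pow_ne_zero 2 h0
  · rw [if_neg h, if_neg h, if_neg h]
    simp

theorem exists_Loc2 {l : ℝ} (hl : 0 < l) (hl8 : l ≤ 1 / 8) :
    ∃ (θ₁ θ₂ : T3 → ℝ) (θ₁' θ₂' : Fin 3 → T3 → ℝ), Loc2 l θ₁ θ₂ θ₁' θ₂' := by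
  have P1 := e4_prof hl hl8 (F := Real.cos) (F' := fun y => -Real.sin y)
    Real.hasDerivAt_cos Real.abs_cos_sub_cos_le Real.abs_cos_le_one
  have P2 := e4_prof hl hl8 (F := Real.sin) (F' := Real.cos)
    Real.hasDerivAt_sin Real.abs_sin_sub_sin_le Real.abs_sin_le_one
  refine ⟨fun x => Real.cos (Real.pi / 2 * e4cl l (rr x)),
    fun x => Real.sin (Real.pi / 2 * e4cl l (rr x)),
    fun α x => e4g (fun y => -Real.sin y) l (rr x) * crd x α,
    fun α x => e4g Real.cos l (rr x) * crd x α, ?_⟩
  refine ⟨fun α => P1.rad_WD α, fun α => P2.rad_WD α, fun x => ?_, fun x hx => ?_, fun x hx => ?_,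
    fun x => ?_, fun x => ?_, fun x hx => ?_, ?_, fun α => ?_, fun α => ?_⟩
  · exact Real.cos_sq_add_sin_sq _
  · show Real.cos (Real.pi / 2 * e4cl l (rr x)) = 1
    rw [e4cl_of_le hl hx, mul_zero, Real.cos_zero]
  · show Real.cos (Real.pi / 2 * e4cl l (rr x)) = 0
    rw [e4cl_of_ge hl hx, mul_one, Real.cos_pi_div_two]
  · have h1 := e4cl_nonneg l (rr x)
    have h2 := e4cl_le_one l (rr x)
    have hp := Real.pi_pos
    refine Real.cos_nonneg_of_mem_Icc ⟨?_, ?_⟩
    · have : 0 ≤ Real.pi / 2 * e4cl l (rr x) := by positivity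
      linarith
    · nlinarith
  · rw [e4_sum hl]
    split_ifs with h
    · rw [div_pow, mul_pow, div_le_div_iff₀ (by positivity) (by positivity)]
      have hp := Real.pi_pos
      have hp2 := Real.pi_lt_d2
      have : Real.pi ^ 2 ≤ 12 := by nlinarith
      have hl2 : 0 < l ^ 2 := by positivity
      nlinarith
    · positivity
  · rw [e4_sum hl, if_neg (fun hh => absurd hh.2 (not_lt.2 hx.le))]
  · refine Filter.Eventually.of_forall fun x α => ?_
    show Real.cos (Real.pi / 2 * e4cl l (rr x)) * (e4g (fun y => -Real.sin y) l (rr x) * crd x α)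
      + Real.sin (Real.pi / 2 * e4cl l (rr x)) * (e4g Real.cos l (rr x) * crd x α) = 0
    unfold e4g
    split_ifs with h
    · ring
    · ring
  · exact ((e4g_meas Real.measurable_sin.neg l).comp rr_measurable).mul (crd_measurable α)
  · exact ((e4g_meas Real.measurable_cos l).comp rr_measurable).mul (crd_measurable α)

end Pool.Agent.Lib.MP_4952d6_mp.LA

end

/-! ### LA.H1 -/

section

/-!
# JOB LA-H1: algebra of the sums over distinct tuples

* `elS_step`: induction on `k`, generalising `U`: `(∑_U a) ∑_{j∈U} a_j elS k (U.erase j) = ∑_j a_j (a_j + ∑_{U.erase j} a) elS k (U.erase j)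
  ≤ ∑_j a_j (K elS k + elS (k+1) + k K elS k) (U.erase j) = elS (k+2) U + (k+1) K elS (k+1) U`.
* `elS_le_pow`: induction.
* `pow_le_elS`: induction on `q` with `elS_step`: `c (q+1) k = c q (k-1) + k c q k`.
-/

set_option autoImplicit false
set_option linter.unusedSectionVars false
set_option linter.unusedVariables false
open MeasureTheory Function Filter Topology Set ComplexConjugate
open scoped ENNReal

namespace Pool.Agent.Lib.MP_4952d6_mp.LA

variable {ι : Type*} [Fintype ι] [DecidableEq ι]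

theorem elS_nonneg {a : ι → ℝ} (ha : ∀ i, 0 ≤ a i) (k : ℕ) (U : Finset ι) : 0 ≤ elS a k U := by
  induction k generalizing U with
  | zero => simp [elS]
  | succ k ih =>
    rw [elS]
    exact Finset.sum_nonneg fun j _ => mul_nonneg (ha j) (ih _)

theorem elS_step {a : ι → ℝ} {K : ℝ} (ha : ∀ i, 0 ≤ a i) (haK : ∀ i, a i ≤ K) (k : ℕ)
    (U : Finset ι) : (∑ i ∈ U, a i) * elS a k U ≤ elS a (k + 1) U + k * K * elS a k U := by
  induction k generalizing U with
  | zero => simp [elS]
  | succ k ih =>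
    have e1 : elS a (k + 1) U = ∑ j ∈ U, a j * elS a k (U.erase j) := by rw [elS]
    have e2 : elS a (k + 1 + 1) U = ∑ j ∈ U, a j * elS a (k + 1) (U.erase j) := by rw [elS]
    rw [e2, e1, Finset.mul_sum, Finset.mul_sum, ← Finset.sum_add_distrib]
    refine Finset.sum_le_sum fun j hj => ?_
    have h1 : (∑ i ∈ U, a i) = a j + ∑ i ∈ U.erase j, a i := (Finset.add_sum_erase U a hj).symm
    have h2 := ih (U.erase j)
    have h3 : a j * elS a k (U.erase j) ≤ K * elS a k (U.erase j) :=
      mul_le_mul_of_nonneg_right (haK j) (elS_nonneg ha k _)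
    have h4 := mul_le_mul_of_nonneg_left (add_le_add h3 h2) (ha j)
    rw [h1]
    push_cast
    calc (a j + ∑ i ∈ U.erase j, a i) * (a j * elS a k (U.erase j))
        = a j * (a j * elS a k (U.erase j) + (∑ i ∈ U.erase j, a i) * elS a k (U.erase j)) := by ring
      _ ≤ a j * (K * elS a k (U.erase j)
            + (elS a (k + 1) (U.erase j) + k * K * elS a k (U.erase j))) := h4
      _ = a j * elS a (k + 1) (U.erase j) + (k + 1) * K * (a j * elS a k (U.erase j)) := by ring

theorem elS_le_pow {a : ι → ℝ} (ha : ∀ i, 0 ≤ a i) (k : ℕ) (U : Finset ι) :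
    elS a k U ≤ (∑ i ∈ U, a i) ^ k := by
  induction k generalizing U with
  | zero => simp [elS]
  | succ k ih =>
    rw [elS, pow_succ', Finset.sum_mul]
    refine Finset.sum_le_sum fun j hj => mul_le_mul_of_nonneg_left ?_ (ha j)
    refine (ih _).trans (pow_le_pow_left₀ (Finset.sum_nonneg fun i _ => ha i) ?_ k)
    exact Finset.sum_le_sum_of_subset_of_nonneg (Finset.erase_subset _ _) fun i _ _ => ha i

/-- Stirling numbers of the second kind, as real numbers. -/
noncomputable def H1c : ℕ → ℕ → ℝ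
  | 0, k => if k = 0 then 1 else 0
  | q + 1, 0 => 0
  | q + 1, k + 1 => H1c q k + (k + 1) * H1c q (k + 1)

theorem H1c_nonneg (q k : ℕ) : 0 ≤ H1c q k := by
  induction q generalizing k with
  | zero => rw [H1c]; split_ifs <;> norm_num
  | succ q ih =>
    cases k with
    | zero => rw [H1c]
    | succ k =>
      rw [H1c]
      have := ih k
      have := ih (k + 1)
      positivity

theorem pow_le_elS : ∃ c : ℕ → ℕ → ℝ, (∀ q k, 0 ≤ c q k) ∧
    ∀ {ι : Type} [Fintype ι] [DecidableEq ι] (a : ι → ℝ) (K : ℝ), (∀ i, 0 ≤ a i) → (∀ i, a i ≤ K) →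
      ∀ (q : ℕ) (U : Finset ι),
        (∑ i ∈ U, a i) ^ q ≤ ∑ k ∈ Finset.range (q + 1), c q k * K ^ (q - k) * elS a k U := by
  refine ⟨H1c, H1c_nonneg, ?_⟩
  intro ι _ _ a K ha haK q U
  rcases isEmpty_or_nonempty ι with hι | ⟨⟨i0⟩⟩
  · have hU : U = ∅ := Finset.eq_empty_of_isEmpty U
    subst hU
    cases q with
    | zero => simp [H1c, elS]
    | succ q =>
      rw [Finset.sum_range_succ']
      have : ∀ k ∈ Finset.range (q + 1),
          H1c (q + 1) (k + 1) * K ^ (q + 1 - (k + 1)) * elS a (k + 1) ∅ = 0 := by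
        intro k _
        simp [elS]
      rw [Finset.sum_eq_zero this]
      simp [H1c]
  · have hK : 0 ≤ K := (ha i0).trans (haK i0)
    induction q with
    | zero => simp [H1c, elS]
    | succ q ih =>
      have hs : 0 ≤ ∑ i ∈ U, a i := Finset.sum_nonneg fun i _ => ha i
      have hA : (∑ i ∈ U, a i) ^ (q + 1)
          ≤ ∑ k ∈ Finset.range (q + 1), H1c q k * K ^ (q - k)
              * (elS a (k + 1) U + k * K * elS a k U) := by
        rw [pow_succ]
        refine (mul_le_mul_of_nonneg_right ih hs).trans ?_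
        rw [Finset.sum_mul]
        refine Finset.sum_le_sum fun k _ => ?_
        have h := elS_step ha haK k U
        have h0 : 0 ≤ H1c q k * K ^ (q - k) := mul_nonneg (H1c_nonneg _ _) (pow_nonneg hK _)
        calc H1c q k * K ^ (q - k) * elS a k U * ∑ i ∈ U, a i
            = H1c q k * K ^ (q - k) * ((∑ i ∈ U, a i) * elS a k U) := by ring
          _ ≤ _ := mul_le_mul_of_nonneg_left h h0
      refine hA.trans ?_
      have hB : ∑ k ∈ Finset.range (q + 1), H1c q k * K ^ (q - k)
              * (elS a (k + 1) U + k * K * elS a k U)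
          = (∑ k ∈ Finset.range (q + 1), H1c q k * K ^ (q - k) * elS a (k + 1) U)
            + ∑ k ∈ Finset.range (q + 1), H1c q k * K ^ (q - k) * (k * K * elS a k U) := by
        rw [← Finset.sum_add_distrib]
        exact Finset.sum_congr rfl fun k _ => by ring
      have hC : ∑ k ∈ Finset.range (q + 1), H1c q k * K ^ (q - k) * (k * K * elS a k U)
          ≤ ∑ k ∈ Finset.range (q + 1),
              (k + 1) * H1c q (k + 1) * K ^ (q - k) * elS a (k + 1) U := by
        rw [Finset.sum_range_succ']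
        rw [Finset.sum_range_succ (fun k : ℕ => ((k : ℝ) + 1) * H1c q (k + 1) * K ^ (q - k)
          * elS a (k + 1) U)]
        refine add_le_add ?_ ?_
        · refine Finset.sum_le_sum fun k hk => le_of_eq ?_
          have hk' : k < q := Finset.mem_range.mp hk
          have e : q - k = (q - (k + 1)) + 1 := by omega
          rw [e, pow_succ]
          push_cast
          ring
        · have h1 : 0 ≤ ((q : ℝ) + 1) * H1c q (q + 1) * K ^ (q - q) * elS a (q + 1) U := by
            have := H1c_nonneg q (q + 1)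
            have := elS_nonneg ha (q + 1) U
            positivity
          simpa using h1
      rw [hB, Finset.sum_range_succ' (fun k => H1c (q + 1) k * K ^ (q + 1 - k) * elS a k U)]
      have hD : ∑ k ∈ Finset.range (q + 1),
            H1c (q + 1) (k + 1) * K ^ (q + 1 - (k + 1)) * elS a (k + 1) U
          = (∑ k ∈ Finset.range (q + 1), H1c q k * K ^ (q - k) * elS a (k + 1) U)
            + ∑ k ∈ Finset.range (q + 1),
              (k + 1) * H1c q (k + 1) * K ^ (q - k) * elS a (k + 1) U := by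
        rw [← Finset.sum_add_distrib]
        refine Finset.sum_congr rfl fun k _ => ?_
        have e : q + 1 - (k + 1) = q - k := by omega
        rw [H1c, e]
        ring
      rw [hD]
      have hE : H1c (q + 1) 0 = 0 := by rw [H1c]
      rw [hE]
      linarith

theorem elS_mono {a b : ι → ℝ} (ha : ∀ i, 0 ≤ a i) (hab : ∀ i, a i ≤ b i) (k : ℕ) (U : Finset ι) :
    elS a k U ≤ elS b k U := by
  induction k generalizing U with
  | zero => simp [elS]
  | succ k ih =>
    rw [elS, elS]
    exact Finset.sum_le_sum fun j _ =>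
      mul_le_mul (hab j) (ih _) (elS_nonneg ha k _) ((ha j).trans (hab j))

end Pool.Agent.Lib.MP_4952d6_mp.LA

end

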