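import Pool.Agent.Lib.MP_4952d6_mp.Pk.G35

/-! Merged modules (to save import time): LA.A3a, LA.A3, LA.A5a, LA.A5. -/

/-! ### LA.A3a -/

section

/-!
# JOB LA-A3a: energies

* `aem_potS`: `mp_diff` (quasi measure preserving) for `x i - x j`, `i ≠ j`.
* `tE_eq_eS`: `HG.kin` and `sum_pairs` (needs `𝒱 (-y) = 𝒱 y`): `∑ᵢ ∑_{j ≠ i} = 2 ∑ᵢ ∑_{j > i}`, `2⁻¹ * (2 * s) = s` in `ℝ≥0∞`.
* `rE_eq`: `lint_sq`; if `∫⁻ potS ‖ψ‖² < ⊤` then `potS * ‖ψ‖ₑ² < ⊤` a.e., so `= ofReal (potS.toReal * ‖ψ‖²)` a.e. (if `ψ x = 0` both sides are `0`);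
  `ofReal_integral_eq_lintegral_ofReal`.
* `FE.mul`: `HG.mul`; `mG G ψ = G ψ` with `|G| ≤ C` : the potential part is at most `C²` times that of `ψ`, the gradient is in `L²` by `HG.mul`.
* `FE_of_tAdm`: `exists_grad`, `tE_eq_eS`.
-/

set_option autoImplicit false
set_option linter.unusedSectionVars false
set_option linter.unusedVariables false
open MeasureTheory Function Filter Topology Set ComplexConjugate
open scoped ENNReal

namespace Pool.Agent.Lib.MP_4952d6_mp.LA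

variable {ι : Type*} [Fintype ι] [DecidableEq ι]

theorem aem_potS {𝒱 : T3 → ℝ≥0∞} (hv : AEMeasurable 𝒱 lam3) (S : Finset ι) :
    AEMeasurable (potS 𝒱 S : (ι → T3) → ℝ≥0∞) (piN ι) := by
  unfold potS
  refine AEMeasurable.const_mul ?_ _
  refine Finset.aemeasurable_fun_sum _ fun i _ => Finset.aemeasurable_fun_sum _ fun j hj => ?_
  exact hv.comp_quasiMeasurePreserving
    (mp_diff (Finset.ne_of_mem_erase hj).symm).quasiMeasurePreserving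

theorem potS_mono {𝒱 : T3 → ℝ≥0∞} {S T : Finset ι} (h : S ⊆ T) (x : ι → T3) :
    potS 𝒱 S x ≤ potS 𝒱 T x := by
  unfold potS
  refine mul_le_mul_right ?_ _
  calc ∑ i ∈ S, ∑ j ∈ S.erase i, 𝒱 (x i - x j)
      ≤ ∑ i ∈ S, ∑ j ∈ T.erase i, 𝒱 (x i - x j) :=
        Finset.sum_le_sum fun i _ => Finset.sum_le_sum_of_subset (Finset.erase_subset_erase i h)
    _ ≤ ∑ i ∈ T, ∑ j ∈ T.erase i, 𝒱 (x i - x j) := Finset.sum_le_sum_of_subset h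

/-- the interaction between `S` and its complement is dropped -/
theorem potS_split {𝒱 : T3 → ℝ≥0∞} (S : Finset ι) (x : ι → T3) :
    potS 𝒱 S x + potS 𝒱 Sᶜ x ≤ potS 𝒱 Finset.univ x := by
  unfold potS
  rw [← mul_add]
  refine mul_le_mul_right ?_ _
  rw [← Finset.sum_add_sum_compl S (fun i => ∑ j ∈ Finset.univ.erase i, 𝒱 (x i - x j))]
  refine add_le_add ?_ ?_
  · exact Finset.sum_le_sum fun i _ =>
      Finset.sum_le_sum_of_subset (Finset.erase_subset_erase i (Finset.subset_univ _))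
  · exact Finset.sum_le_sum fun i _ =>
      Finset.sum_le_sum_of_subset (Finset.erase_subset_erase i (Finset.subset_univ _))

theorem tE_eq_eS {N : ℕ} {𝒱 : T3 → ℝ≥0∞} (hev : ∀ y, 𝒱 (-y) = 𝒱 y) {ψ : (Fin N → T3) → ℂ}
    {g : Fin N → Fin 3 → (Fin N → T3) → ℂ} (h : HG ψ g) : tE 𝒱 ψ = eS 𝒱 Finset.univ ψ g := by
  unfold tE eS
  rw [h.kin]
  congr 1
  refine lintegral_congr fun x => ?_
  congr 1
  unfold potS
  rw [sum_pairs (fun i j => 𝒱 (x i - x j)) (fun i j => by rw [← hev, neg_sub]), ← two_mul,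
    ← mul_assoc, ENNReal.inv_mul_cancel (by norm_num) (by norm_num), one_mul]

theorem rE_eq {𝒱 : T3 → ℝ≥0∞} (hv : AEMeasurable 𝒱 lam3) {S : Finset ι} {ψ : (ι → T3) → ℂ}
    {g : ι → Fin 3 → (ι → T3) → ℂ} (h : HG ψ g) (hfin : eS 𝒱 S ψ g < ⊤) :
    Integrable (fun x => (potS 𝒱 S x).toReal * ‖ψ x‖ ^ 2) (piN ι) ∧
      ENNReal.ofReal (rE 𝒱 S ψ g) = eS 𝒱 S ψ g ∧ 0 ≤ rE 𝒱 S ψ g := by
  have e1 : ∀ x, (potS 𝒱 S x).toReal * ‖ψ x‖ ^ 2 = (potS 𝒱 S x * ‖ψ x‖ₑ ^ 2).toReal := by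
    intro x
    rw [ENNReal.toReal_mul, ENNReal.toReal_pow, toReal_enorm]
  have hm : AEMeasurable (fun x => potS 𝒱 S x * ‖ψ x‖ₑ ^ 2) (piN ι) :=
    (aem_potS hv S).mul ((h.mem.1.enorm).pow_const 2)
  have hp : ∫⁻ x, potS 𝒱 S x * ‖ψ x‖ₑ ^ 2 ∂(piN ι) < ⊤ :=
    lt_of_le_of_lt (le_add_left le_rfl) hfin
  have hint : Integrable (fun x => (potS 𝒱 S x).toReal * ‖ψ x‖ ^ 2) (piN ι) := by
    simp_rw [e1]
    exact integrable_toReal_of_lintegral_ne_top hm hp.ne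
  have hval : ∫ x, (potS 𝒱 S x).toReal * ‖ψ x‖ ^ 2 ∂(piN ι)
      = (∫⁻ x, potS 𝒱 S x * ‖ψ x‖ₑ ^ 2 ∂(piN ι)).toReal := by
    simp_rw [e1]
    exact integral_toReal hm (ae_lt_top' hm hp.ne)
  have n1 : ∀ i α, 0 ≤ ∫ x, ‖g i α x‖ ^ 2 ∂(piN ι) := fun i α =>
    integral_nonneg fun x => sq_nonneg _
  have n2 : 0 ≤ ∑ i ∈ S, ∑ α, ∫ x, ‖g i α x‖ ^ 2 ∂(piN ι) :=
    Finset.sum_nonneg fun i _ => Finset.sum_nonneg fun α _ => n1 i α
  have n3 : 0 ≤ ∫ x, (potS 𝒱 S x).toReal * ‖ψ x‖ ^ 2 ∂(piN ι) :=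
    integral_nonneg fun x => mul_nonneg ENNReal.toReal_nonneg (sq_nonneg _)
  refine ⟨hint, ?_, add_nonneg n2 n3⟩
  unfold rE eS
  rw [ENNReal.ofReal_add n2 n3, hval, ENNReal.ofReal_toReal hp.ne,
    ENNReal.ofReal_sum_of_nonneg (fun i _ => Finset.sum_nonneg fun α _ => n1 i α)]
  congr 1
  refine Finset.sum_congr rfl fun i _ => ?_
  rw [ENNReal.ofReal_sum_of_nonneg (fun α _ => n1 i α)]
  refine Finset.sum_congr rfl fun α _ => ?_
  rw [lint_sq (h.gmem i α)]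

theorem FE.mul {R₀ : ℝ} {𝒱 : T3 → ℝ≥0∞} {ψ : (ι → T3) → ℂ} {g : ι → Fin 3 → (ι → T3) → ℂ}
    (h : FE R₀ 𝒱 ψ g) {G : (ι → T3) → ℝ} {G' : ι → Fin 3 → (ι → T3) → ℝ} (w : WDN G G') :
    FE R₀ 𝒱 (mG G ψ) (mGg G G' ψ g) := by
  have hH := h.hg.mul w
  refine ⟨hH, ?_, ?_⟩
  · intro x i j hij hr
    unfold mG
    rw [h.core x i j hij hr, mul_zero]
  · unfold eS
    refine ENNReal.add_lt_top.2 ⟨?_, ?_⟩
    · refine ENNReal.sum_lt_top.2 fun i _ => ENNReal.sum_lt_top.2 fun α _ => ?_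
      rw [lint_sq (hH.gmem i α)]
      exact ENNReal.ofReal_lt_top
    · have hp : ∫⁻ x, potS 𝒱 Finset.univ x * ‖ψ x‖ₑ ^ 2 ∂(piN ι) < ⊤ :=
        lt_of_le_of_lt (le_add_left le_rfl) h.fin
      have hC : ∃ C : ℝ, 0 ≤ C ∧ ∀ x, ‖mG G ψ x‖ₑ ^ 2 * potS 𝒱 Finset.univ x
          ≤ ENNReal.ofReal (C ^ 2) * (potS 𝒱 Finset.univ x * ‖ψ x‖ₑ ^ 2) := by
        rcases isEmpty_or_nonempty ι with hι | ⟨⟨i⟩⟩
        · refine ⟨0, le_rfl, fun x => ?_⟩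
          have : potS 𝒱 Finset.univ x = 0 := by
            unfold potS
            rw [Finset.univ_eq_empty, Finset.sum_empty, mul_zero]
          rw [this, mul_zero]
          exact zero_le
        · obtain ⟨C, hC0, hC⟩ := (w i 0).exists_bdd
          refine ⟨C, hC0, fun x => ?_⟩
          have h1 : ‖mG G ψ x‖ₑ ^ 2 ≤ ENNReal.ofReal (C ^ 2) * ‖ψ x‖ₑ ^ 2 := by
            unfold mG
            rw [enorm_mul, mul_pow]
            refine mul_le_mul_left ?_ _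
            rw [← ofReal_norm_eq_enorm, Complex.norm_real, ← ENNReal.ofReal_pow (norm_nonneg _)]
            exact ENNReal.ofReal_le_ofReal (pow_le_pow_left₀ (norm_nonneg _) (hC x) 2)
          calc ‖mG G ψ x‖ₑ ^ 2 * potS 𝒱 Finset.univ x
              ≤ (ENNReal.ofReal (C ^ 2) * ‖ψ x‖ₑ ^ 2) * potS 𝒱 Finset.univ x :=
                mul_le_mul_left h1 _
            _ = ENNReal.ofReal (C ^ 2) * (potS 𝒱 Finset.univ x * ‖ψ x‖ₑ ^ 2) := by ring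
      obtain ⟨C, hC0, hC⟩ := hC
      calc ∫⁻ x, potS 𝒱 Finset.univ x * ‖mG G ψ x‖ₑ ^ 2 ∂(piN ι)
          ≤ ∫⁻ x, ENNReal.ofReal (C ^ 2) * (potS 𝒱 Finset.univ x * ‖ψ x‖ₑ ^ 2) ∂(piN ι) :=
            lintegral_mono fun x => by
              rw [mul_comm]
              exact hC x
        _ = ENNReal.ofReal (C ^ 2) * ∫⁻ x, potS 𝒱 Finset.univ x * ‖ψ x‖ₑ ^ 2 ∂(piN ι) :=
            lintegral_const_mul' _ _ ENNReal.ofReal_ne_top
        _ < ⊤ := ENNReal.mul_lt_top ENNReal.ofReal_lt_top hp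

/-- an admissible state has finite energy in the sense of `FE` -/
theorem FE_of_tAdm {N : ℕ} {R₀ : ℝ} {𝒱 : T3 → ℝ≥0∞} (hev : ∀ y, 𝒱 (-y) = 𝒱 y)
    {ψ : (Fin N → T3) → ℂ} (h : tAdm R₀ 𝒱 ψ) : ∃ g, FE R₀ 𝒱 ψ g := by
  obtain ⟨h1, _, h3, h4⟩ := h
  have hk := lt_of_le_of_lt (le_add_right le_rfl) h4
  obtain ⟨g, hg⟩ := exists_grad h1 hk
  exact ⟨g, hg, h3, by rw [← tE_eq_eS hev hg]; exact h4⟩

end Pool.Agent.Lib.MP_4952d6_mp.LA

end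

/-! ### LA.A3 -/

section

/-!
# JOB LA-A3b: the ground state energy bounds the energy from below (deliver as MP_4952d6_mp_LA_A3.lean)

* `E0_le`: if `∫⁻ ‖φ‖ₑ² = 0` trivial; otherwise `φ / ‖φ‖` is admissible (if `eS < ⊤`; otherwise trivial), `tE_smul`, `tE_eq_eS`.
* `E0_le_card`: relabel by `e : κ ≃ Fin n`, `φ' y = φ (fun i => y (e i))`, `measurePreserving_piCongrLeft` (or `MeasurableEquiv.piCongrLeft`); Fourier coefficients are relabelled.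
-/

set_option autoImplicit false
set_option linter.unusedSectionVars false
set_option linter.unusedVariables false
open MeasureTheory Function Filter Topology Set ComplexConjugate
open scoped ENNReal

namespace Pool.Agent.Lib.MP_4952d6_mp.LA

variable {ι : Type*} [Fintype ι] [DecidableEq ι]

/-- relabelling of configurations -/
noncomputable def A3_L {n : ℕ} (e : ι ≃ Fin n) : (Fin n → T3) ≃ᵐ (ι → T3) :=
  MeasurableEquiv.piCongrLeft (fun _ : ι => T3) e.symm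

theorem A3_L_apply {n : ℕ} (e : ι ≃ Fin n) (y : Fin n → T3) (i : ι) : A3_L e y i = y (e i) := by
  have h := MeasurableEquiv.piCongrLeft_apply_apply e.symm (β := fun _ : ι => T3) y (e i)
  rw [Equiv.symm_apply_apply] at h
  exact h

theorem A3_mp {n : ℕ} (e : ι ≃ Fin n) : MeasurePreserving (A3_L e) (piN (Fin n)) (piN ι) :=
  measurePreserving_piCongrLeft (fun _ : ι => lam3) e.symm

theorem A3_lint {n : ℕ} (e : ι ≃ Fin n) (F : (ι → T3) → ℝ≥0∞) :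
    ∫⁻ y, F (A3_L e y) ∂(piN (Fin n)) = ∫⁻ x, F x ∂(piN ι) :=
  (A3_mp e).lintegral_comp_emb (A3_L e).measurableEmbedding F

theorem A3_chN {n : ℕ} (e : ι ≃ Fin n) (k : Fin n → Fin 3 → ℤ) (y : Fin n → T3) :
    chN (fun i => k (e i)) (A3_L e y) = chN k y := by
  unfold chN
  rw [← Equiv.prod_comp e]
  exact Finset.prod_congr rfl fun i _ => by rw [A3_L_apply]

theorem A3_fc {n : ℕ} (e : ι ≃ Fin n) (f : (ι → T3) → ℂ) (k : Fin n → Fin 3 → ℤ) :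
    fc (fun y => f (A3_L e y)) k = fc f (fun i => k (e i)) := by
  unfold fc
  rw [← (A3_mp e).integral_comp' (fun x => conj (chN (fun i => k (e i)) x) * f x)]
  refine integral_congr_ae (Filter.Eventually.of_forall fun y => ?_)
  show conj (chN k y) * f (A3_L e y) = conj (chN (fun i => k (e i)) (A3_L e y)) * f (A3_L e y)
  rw [A3_chN]

theorem A3_HG {n : ℕ} (e : ι ≃ Fin n) {φ : (ι → T3) → ℂ} {h : ι → Fin 3 → (ι → T3) → ℂ} (hφ : HG φ h) :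
    HG (fun y => φ (A3_L e y)) (fun j α y => h (e.symm j) α (A3_L e y)) := by
  refine ⟨hφ.mem.comp_measurePreserving (A3_mp e), fun j α => (hφ.gmem (e.symm j) α).comp_measurePreserving (A3_mp e), ?_⟩
  intro j α k
  rw [A3_fc e (h (e.symm j) α) k, A3_fc e φ k, hφ.four, Equiv.apply_symm_apply]

theorem A3_out {κ : Type*} [Fintype κ] [DecidableEq κ] (f : κ → κ → ℝ≥0∞) :
    ∑ i, ∑ j ∈ Finset.univ.erase i, f i j = ∑ i, ∑ j, if j = i then 0 else f i j := by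
  refine Finset.sum_congr rfl fun i _ => ?_
  rw [← Finset.sum_erase (s := Finset.univ) (f := fun j => if j = i then 0 else f i j) (a := i) (by simp)]
  refine Finset.sum_congr rfl fun j hj => ?_
  rw [if_neg (Finset.ne_of_mem_erase hj)]

theorem A3_potS {n : ℕ} (e : ι ≃ Fin n) (𝒱 : T3 → ℝ≥0∞) (y : Fin n → T3) :
    potS 𝒱 Finset.univ (A3_L e y) = potS 𝒱 Finset.univ y := by
  unfold potS
  congr 1
  rw [A3_out, A3_out, ← Equiv.sum_comp e]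
  refine Finset.sum_congr rfl fun i _ => ?_
  rw [← Equiv.sum_comp e]
  refine Finset.sum_congr rfl fun j _ => ?_
  rw [A3_L_apply, A3_L_apply]
  simp only [EmbeddingLike.apply_eq_iff_eq]

theorem E0_le {n : ℕ} {R₀ : ℝ} {𝒱 : T3 → ℝ≥0∞} (hev : ∀ y, 𝒱 (-y) = 𝒱 y)
    {φ : (Fin n → T3) → ℂ} {h : Fin n → Fin 3 → (Fin n → T3) → ℂ} (hφ : HG φ h)
    (hc : Core R₀ φ) :
    E0 R₀ 𝒱 n * ∫⁻ x, ‖φ x‖ₑ ^ 2 ∂(piN (Fin n)) ≤ eS 𝒱 Finset.univ φ h := by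
  by_cases htop : eS 𝒱 Finset.univ φ h = ⊤
  · rw [htop]
    exact le_top
  have hr := lint_sq hφ.mem
  set r : ℝ := ∫ x, ‖φ x‖ ^ 2 ∂(piN (Fin n)) with hrdef
  have hr0 : 0 ≤ r := integral_nonneg fun x => sq_nonneg _
  rcases hr0.eq_or_lt with h0 | hpos
  · rw [hr, ← h0, ENNReal.ofReal_zero, mul_zero]
    exact bot_le
  rw [hr]
  have hs : 0 ≤ (Real.sqrt r)⁻¹ := inv_nonneg.2 (Real.sqrt_nonneg r)
  have hs2 : ((Real.sqrt r)⁻¹) ^ 2 = r⁻¹ := by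
    rw [inv_pow, Real.sq_sqrt hr0]
  have hE : tE 𝒱 φ = eS 𝒱 Finset.univ φ h := tE_eq_eS hev hφ
  have hsm := tE_smul 𝒱 φ (Real.sqrt r)⁻¹ hs
  rw [hs2, hE] at hsm
  have hadm : tAdm R₀ 𝒱 (fun x => (((Real.sqrt r)⁻¹ : ℝ) : ℂ) * φ x) := by
    refine ⟨hφ.mem.const_mul _, ?_, ?_, ?_⟩
    · have h1 : ∀ x, ‖(((Real.sqrt r)⁻¹ : ℝ) : ℂ) * φ x‖ ^ 2 = r⁻¹ * ‖φ x‖ ^ 2 := by
        intro x
        rw [norm_mul, mul_pow, Complex.norm_real, Real.norm_of_nonneg hs, hs2]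
      simp_rw [h1]
      rw [integral_const_mul, ← hrdef]
      exact inv_mul_cancel₀ hpos.ne'
    · intro x i j hij hx
      show (((Real.sqrt r)⁻¹ : ℝ) : ℂ) * φ x = 0
      rw [hc x i j hij hx, mul_zero]
    · rw [hsm]
      exact ENNReal.mul_lt_top ENNReal.ofReal_lt_top (lt_top_iff_ne_top.2 htop)
  have h2 : E0 R₀ 𝒱 n ≤ ENNReal.ofReal r⁻¹ * eS 𝒱 Finset.univ φ h := by
    rw [← hsm]
    exact iInf₂_le _ hadm
  calc E0 R₀ 𝒱 n * ENNReal.ofReal r ≤ (ENNReal.ofReal r⁻¹ * eS 𝒱 Finset.univ φ h) * ENNReal.ofReal r := by gcongr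
    _ = (ENNReal.ofReal r⁻¹ * ENNReal.ofReal r) * eS 𝒱 Finset.univ φ h := by ring
    _ = eS 𝒱 Finset.univ φ h := by
      rw [← ENNReal.ofReal_mul (inv_nonneg.2 hr0), inv_mul_cancel₀ hpos.ne', ENNReal.ofReal_one, one_mul]

theorem E0_le_card {n : ℕ} {R₀ : ℝ} {𝒱 : T3 → ℝ≥0∞} (hev : ∀ y, 𝒱 (-y) = 𝒱 y)
    (hn : Fintype.card ι = n)
    {φ : (ι → T3) → ℂ} {h : ι → Fin 3 → (ι → T3) → ℂ} (hφ : HG φ h) (hc : Core R₀ φ) :
    E0 R₀ 𝒱 n * ∫⁻ x, ‖φ x‖ₑ ^ 2 ∂(piN ι) ≤ eS 𝒱 Finset.univ φ h := by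
  let e : ι ≃ Fin n := Fintype.equivFinOfCardEq hn
  have h1 := E0_le (R₀ := R₀) hev (A3_HG e hφ) (by
    intro y i j hij hy
    refine hc (A3_L e y) (e.symm i) (e.symm j) (fun h => hij (e.symm.injective h)) ?_
    rw [A3_L_apply, A3_L_apply, Equiv.apply_symm_apply, Equiv.apply_symm_apply]
    exact hy)
  have h2 : ∫⁻ y, ‖φ (A3_L e y)‖ₑ ^ 2 ∂(piN (Fin n)) = ∫⁻ x, ‖φ x‖ₑ ^ 2 ∂(piN ι) :=
    A3_lint e (fun x => ‖φ x‖ₑ ^ 2)
  have h3 : eS 𝒱 Finset.univ (fun y => φ (A3_L e y)) (fun j α y => h (e.symm j) α (A3_L e y)) =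
      eS 𝒱 Finset.univ φ h := by
    unfold eS
    congr 1
    · rw [← Equiv.sum_comp e.symm]
      refine Finset.sum_congr rfl fun j _ => Finset.sum_congr rfl fun α _ => ?_
      exact A3_lint e (fun x => ‖h (e.symm j) α x‖ₑ ^ 2)
    · rw [← A3_lint e (fun x => potS 𝒱 Finset.univ x * ‖φ x‖ₑ ^ 2)]
      refine lintegral_congr fun y => ?_
      rw [A3_potS]
  rw [h2, h3] at h1
  exact h1

end Pool.Agent.Lib.MP_4952d6_mp.LA

end

/-! ### LA.A5a -/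

section

/-!
# JOB LA-A5a: energy of `G ψ`

* pointwise `‖G' ψ + G g‖² = G² ‖g‖² + 2 G G' Re (conj ψ g) + G'² ‖ψ‖²`, so (with `2 G G'` the derivative of `G²`)
  `rE (mG G ψ) = bG ψ g (G²) (2 G G') + ∑ᵢα ∫ G'² ‖ψ‖²`.  All functions are integrable: `G, G'` bounded (`WD.exists_bdd`, `WD.bound` a.e.), `ψ, g ∈ L²`,
  `potS.toReal ‖ψ‖²` integrable by `rE_eq`.
-/

set_option autoImplicit false
set_option linter.unusedSectionVars false
set_option linter.unusedVariables false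
open MeasureTheory Function Filter Topology Set ComplexConjugate
open scoped ENNReal

namespace Pool.Agent.Lib.MP_4952d6_mp.LA

variable {ι : Type*} [Fintype ι] [DecidableEq ι]

lemma A5a_pt (a b : ℝ) (z w : ℂ) : ‖(a : ℂ) * z + (b : ℂ) * w‖ ^ 2
    = (b ^ 2 * ‖w‖ ^ 2 + 2 * b * a * (conj z * w).re) + a ^ 2 * ‖z‖ ^ 2 := by
  simp only [Complex.sq_norm, Complex.normSq_apply, Complex.add_re, Complex.add_im,
    Complex.mul_re, Complex.mul_im, Complex.ofReal_re, Complex.ofReal_im, Complex.conj_re,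
    Complex.conj_im]
  ring

lemma A5a_pt2 (b : ℝ) (w : ℂ) : ‖(b : ℂ) * w‖ ^ 2 = b ^ 2 * ‖w‖ ^ 2 := by
  rw [norm_mul, mul_pow, Complex.norm_real, Real.norm_eq_abs, sq_abs]

/-- energy of `G ψ` -/
theorem rE_mG {R₀ : ℝ} {𝒱 : T3 → ℝ≥0∞} (hv : AEMeasurable 𝒱 lam3) {ψ : (ι → T3) → ℂ}
    {g : ι → Fin 3 → (ι → T3) → ℂ} (h : FE R₀ 𝒱 ψ g) {G : (ι → T3) → ℝ}
    {G' : ι → Fin 3 → (ι → T3) → ℝ} (w : WDN G G') :
    rE 𝒱 Finset.univ (mG G ψ) (mGg G G' ψ g)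
      = bG 𝒱 ψ g (fun x => G x ^ 2) (fun i α x => 2 * G x * G' i α x)
        + ∑ i, ∑ α, ∫ x, G' i α x ^ 2 * ‖ψ x‖ ^ 2 ∂(piN ι) := by
  have hkin : ∀ i : ι, ∀ α : Fin 3, ∫ x, ‖mGg G G' ψ g i α x‖ ^ 2 ∂(piN ι)
      = ∫ x, (G x ^ 2 * ‖g i α x‖ ^ 2 + 2 * G x * G' i α x * (conj (ψ x) * g i α x).re) ∂(piN ι)
        + ∫ x, G' i α x ^ 2 * ‖ψ x‖ ^ 2 ∂(piN ι) := by
    intro i α
    obtain ⟨B, hB0, hB⟩ := (w i α).exists_bdd
    obtain ⟨C, hC0, hC⟩ := (w i α).bound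
    have hGm : AEStronglyMeasurable G (piN ι) := (w i α).sm.aestronglyMeasurable
    have hG'm : AEStronglyMeasurable (G' i α) (piN ι) := (w i α).aesm_deriv
    have hψ : Integrable (fun x => ‖ψ x‖ ^ 2) (piN ι) := int_sq h.hg.mem
    have hg : Integrable (fun x => ‖g i α x‖ ^ 2) (piN ι) := int_sq (h.hg.gmem i α)
    have hψg : Integrable (fun x => (conj (ψ x) * g i α x).re) (piN ι) := by
      refine Integrable.mono' (hψ.add hg) ?_ (Eventually.of_forall fun x => ?_)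
      · refine Complex.continuous_re.comp_aestronglyMeasurable ?_
        exact (Complex.continuous_conj.comp_aestronglyMeasurable h.hg.mem.1).mul
          (h.hg.gmem i α).1
      · have h1 : ‖(conj (ψ x) * g i α x).re‖ ≤ ‖ψ x‖ * ‖g i α x‖ := by
          rw [Real.norm_eq_abs]
          refine (Complex.abs_re_le_norm _).trans ?_
          rw [norm_mul, RCLike.norm_conj]
        refine h1.trans ?_
        simp only [Pi.add_apply]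
        nlinarith [sq_nonneg (‖ψ x‖ - ‖g i α x‖), norm_nonneg (ψ x), norm_nonneg (g i α x),
          sq_nonneg (‖ψ x‖ + ‖g i α x‖)]
    have i1 : Integrable (fun x => G x ^ 2 * ‖g i α x‖ ^ 2) (piN ι) := by
      refine hg.bdd_mul (c := B ^ 2) (hGm.pow 2) (Eventually.of_forall fun x => ?_)
      rw [norm_pow]
      exact pow_le_pow_left₀ (norm_nonneg _) (hB x) 2
    have i2 : Integrable (fun x => 2 * G x * G' i α x * (conj (ψ x) * g i α x).re) (piN ι) := by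
      refine hψg.bdd_mul (c := 2 * B * C) ((hGm.const_mul 2).mul hG'm) ?_
      filter_upwards [hC] with x hx
      rw [norm_mul, norm_mul, Real.norm_two]
      exact mul_le_mul (mul_le_mul_of_nonneg_left (hB x) (by norm_num)) hx (norm_nonneg _)
        (by positivity)
    have i3 : Integrable (fun x => G' i α x ^ 2 * ‖ψ x‖ ^ 2) (piN ι) := by
      refine hψ.bdd_mul (c := C ^ 2) (hG'm.pow 2) ?_
      filter_upwards [hC] with x hx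
      rw [norm_pow]
      exact pow_le_pow_left₀ (norm_nonneg _) hx 2
    refine Eq.trans (integral_congr_ae (Eventually.of_forall fun x => ?_))
      (integral_add (i1.add i2) i3)
    simp only [mGg, Pi.add_apply]
    exact A5a_pt (G' i α x) (G x) (ψ x) (g i α x)
  have hpot : ∫ x, (potS 𝒱 Finset.univ x).toReal * ‖mG G ψ x‖ ^ 2 ∂(piN ι)
      = ∫ x, G x ^ 2 * ((potS 𝒱 Finset.univ x).toReal * ‖ψ x‖ ^ 2) ∂(piN ι) := by
    refine integral_congr_ae (Eventually.of_forall fun x => ?_)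
    simp only [mG]
    rw [A5a_pt2]
    ring
  unfold rE bG
  rw [hpot]
  simp only [hkin, Finset.sum_add_distrib]
  ring

end Pool.Agent.Lib.MP_4952d6_mp.LA

end

/-! ### LA.A5 -/

section

/-!
# JOB LA-A5b: first variation of the energy (deliver as MP_4952d6_mp_LA_A5.lean)

* `var_cs`: for real `s` the state `(1 - s G) ψ`, i.e. `mG (1 - s G) ψ`, satisfies `hmin` (`FE.mul` with `1 - s G`, `rE_eq`):
  `0 ≤ rE ((1-sG)ψ) - e ∫ (1-sG)² ‖ψ‖² = A - 2 s B + s² C` with `A = rE ψ - e ∫‖ψ‖²`, `B = bG G - e ∫ G ‖ψ‖²`, `C = rE (Gψ) - e ∫ G² ‖ψ‖²`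
  (expand `rE` directly: `‖(1 - s G) g - s G' ψ‖² = ‖g‖² - 2 s Re (conj g (G g + G' ψ)) + s² ‖G g + G' ψ‖²`);
  `cs_of_quadratic` (Bdd.lean) gives `B² ≤ A C`.
* `min_id`: `A = 0`.  `min_F`: `min_id` for `F²` (`WD.mul`) and `rE_mG`.
-/

set_option autoImplicit false
set_option linter.unusedSectionVars false
set_option linter.unusedVariables false
open MeasureTheory Function Filter Topology Set ComplexConjugate
open scoped ENNReal

namespace Pool.Agent.Lib.MP_4952d6_mp.LA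

variable {ι : Type*} [Fintype ι] [DecidableEq ι]

/-! ### measurability and integrability -/

lemma A5_bm {G : (ι → T3) → ℝ} {G' : ι → Fin 3 → (ι → T3) → ℝ} (w : WDN G G') : BM G := by
  rcases isEmpty_or_nonempty ι with hι | ⟨⟨i⟩⟩
  · refine ⟨Subsingleton.measurable, |G (fun i => 0)|, fun x => ?_⟩
    rw [Subsingleton.elim x (fun i => 0)]
  · have h := w i 0
    obtain ⟨C, hC⟩ := h.bdd
    exact ⟨h.sm.measurable, C, fun x => hC x⟩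

lemma A5_int_bm {f G : (ι → T3) → ℝ} (hf : Integrable f (piN ι)) (hG : BM G) :
    Integrable (fun x => G x * f x) (piN ι) := by
  obtain ⟨C, hC⟩ := hG.bdd
  exact hf.bdd_mul hG.meas.aestronglyMeasurable (Eventually.of_forall fun x => hC x)

/-- the weights `G'` are bounded almost everywhere -/
lemma A5_int_wd {f G : (ι → T3) → ℝ} {G' : ι → Fin 3 → (ι → T3) → ℝ} (hf : Integrable f (piN ι))
    (w : WDN G G') (i : ι) (α : Fin 3) : Integrable (fun x => G' i α x * f x) (piN ι) := by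
  obtain ⟨C, hC0, hC⟩ := (w i α).bound
  exact hf.bdd_mul (w i α).aesm_deriv hC

lemma A5_int_re {ψ φ : (ι → T3) → ℂ} (hψ : MemLp ψ 2 (piN ι)) (hφ : MemLp φ 2 (piN ι)) :
    Integrable (fun x => (conj (ψ x) * φ x).re) (piN ι) := by
  refine ((int_sq hψ).add (int_sq hφ)).mono' ?_ (Eventually.of_forall fun x => ?_)
  · exact Complex.continuous_re.comp_aestronglyMeasurable
      ((Complex.continuous_conj.comp_aestronglyMeasurable hψ.1).mul hφ.1)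
  · have h1 : |(conj (ψ x) * φ x).re| ≤ ‖ψ x‖ * ‖φ x‖ := by
      have := Complex.abs_re_le_norm (conj (ψ x) * φ x)
      rwa [norm_mul, Complex.norm_conj] at this
    show ‖(conj (ψ x) * φ x).re‖ ≤ ‖ψ x‖ ^ 2 + ‖φ x‖ ^ 2
    rw [Real.norm_eq_abs]
    nlinarith [sq_nonneg (‖ψ x‖ - ‖φ x‖), sq_nonneg ‖ψ x‖, sq_nonneg ‖φ x‖]

/-- `1 - s G` -/
lemma A5_wdn {G : (ι → T3) → ℝ} {G' : ι → Fin 3 → (ι → T3) → ℝ} (w : WDN G G') (s : ℝ) :
    WDN (fun x => 1 - s * G x) (fun i α x => -(s * G' i α x)) := by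
  intro i α
  have h := w i α
  refine ⟨h.zero, stronglyMeasurable_const.sub (h.sm.const_mul s), ?_, ?_, ?_⟩
  · obtain ⟨C, hC⟩ := h.bdd
    refine ⟨1 + |s| * C, fun x => ?_⟩
    have h1 := hC x
    rw [Real.norm_eq_abs] at h1 ⊢
    calc |1 - s * G x| ≤ |1| + |s * G x| := abs_sub _ _
      _ = 1 + |s| * |G x| := by rw [abs_one, abs_mul]
      _ ≤ 1 + |s| * C := by nlinarith [abs_nonneg s]
  · obtain ⟨C, hC⟩ := h.lip
    refine ⟨|s| * C, fun x t => ?_⟩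
    have h1 := hC x t
    rw [Real.norm_eq_abs] at h1 ⊢
    have h2 : 1 - s * G (x + tauN i α t) - (1 - s * G x) = -(s * (G (x + tauN i α t) - G x)) := by
      ring
    rw [h2, abs_neg, abs_mul, mul_assoc]
    exact mul_le_mul_of_nonneg_left h1 (abs_nonneg s)
  · filter_upwards [h.deriv] with x hx
    have h1 := (hx.const_mul s).const_sub 1
    exact h1

/-- `G²` -/
lemma A5_wdn_sq {G : (ι → T3) → ℝ} {G' : ι → Fin 3 → (ι → T3) → ℝ} (w : WDN G G') :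
    WDN (fun x => G x ^ 2) (fun i α x => 2 * G x * G' i α x) := by
  intro i α
  have h := (w i α).mul (w i α)
  have e1 : (fun x => G x * G x) = fun x => G x ^ 2 := by
    funext x
    ring
  have e2 : (fun x => G' i α x * G x + G x * G' i α x) = fun x => 2 * G x * G' i α x := by
    funext x
    ring
  rw [e1, e2] at h
  exact h

/-- expansion of an integral -/
lemma A5_expand {a b c : (ι → T3) → ℝ} (ha : Integrable a (piN ι)) (hb : Integrable b (piN ι))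
    (hc : Integrable c (piN ι)) (s : ℝ) :
    ∫ x, (a x - 2 * s * b x + s ^ 2 * c x) ∂(piN ι)
      = (∫ x, a x ∂(piN ι)) - 2 * s * (∫ x, b x ∂(piN ι)) + s ^ 2 * ∫ x, c x ∂(piN ι) := by
  have h1 : Integrable (fun x => 2 * s * b x) (piN ι) := hb.const_mul _
  have h2 : Integrable (fun x => s ^ 2 * c x) (piN ι) := hc.const_mul _
  have h3 : Integrable (fun x => a x - 2 * s * b x) (piN ι) := ha.sub h1
  rw [integral_add h3 h2, integral_sub ha h1, integral_const_mul, integral_const_mul]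

lemma A5_sum (A B C : ι → Fin 3 → ℝ) (s : ℝ) :
    ∑ i, ∑ α, (A i α - 2 * s * B i α + s ^ 2 * C i α)
      = (∑ i, ∑ α, A i α) - 2 * s * (∑ i, ∑ α, B i α) + s ^ 2 * ∑ i, ∑ α, C i α := by
  simp only [Finset.sum_add_distrib, Finset.sum_sub_distrib, Finset.mul_sum]

/-- the bilinear expression of `(1 - s G)²` -/
lemma A5_bG {R₀ : ℝ} {𝒱 : T3 → ℝ≥0∞} (hv : AEMeasurable 𝒱 lam3) {ψ : (ι → T3) → ℂ}
    {g : ι → Fin 3 → (ι → T3) → ℂ} (h : FE R₀ 𝒱 ψ g) {G : (ι → T3) → ℝ}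
    {G' : ι → Fin 3 → (ι → T3) → ℝ} (w : WDN G G') (s : ℝ) :
    bG 𝒱 ψ g (fun x => (1 - s * G x) ^ 2) (fun i α x => 2 * (1 - s * G x) * (-(s * G' i α x)))
      = rE 𝒱 Finset.univ ψ g - 2 * s * bG 𝒱 ψ g G G'
        + s ^ 2 * bG 𝒱 ψ g (fun x => G x ^ 2) (fun i α x => 2 * G x * G' i α x) := by
  have hG := A5_bm w
  have hG2 : BM (fun x => G x ^ 2) := hG.pow 2
  have w2 := A5_wdn_sq w
  have hpot := (rE_eq hv h.hg h.fin).1
  have e1 : ∀ i : ι, ∀ α : Fin 3,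
      ∫ x, ((1 - s * G x) ^ 2 * ‖g i α x‖ ^ 2
        + 2 * (1 - s * G x) * (-(s * G' i α x)) * (conj (ψ x) * g i α x).re) ∂(piN ι)
      = (∫ x, ‖g i α x‖ ^ 2 ∂(piN ι))
        - 2 * s * (∫ x, (G x * ‖g i α x‖ ^ 2 + G' i α x * (conj (ψ x) * g i α x).re) ∂(piN ι))
        + s ^ 2 * ∫ x, (G x ^ 2 * ‖g i α x‖ ^ 2
            + 2 * G x * G' i α x * (conj (ψ x) * g i α x).re) ∂(piN ι) := by
    intro i α
    have hg2 := int_sq (h.hg.gmem i α)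
    have hre := A5_int_re h.hg.mem (h.hg.gmem i α)
    have hb : Integrable (fun x => G x * ‖g i α x‖ ^ 2 + G' i α x * (conj (ψ x) * g i α x).re)
        (piN ι) := (A5_int_bm hg2 hG).add (A5_int_wd hre w i α)
    have hc : Integrable (fun x => G x ^ 2 * ‖g i α x‖ ^ 2
        + 2 * G x * G' i α x * (conj (ψ x) * g i α x).re) (piN ι) :=
      (A5_int_bm hg2 hG2).add (A5_int_wd hre w2 i α)
    rw [← A5_expand hg2 hb hc s]
    congr 1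
    funext x
    ring
  have e2 : ∫ x, (1 - s * G x) ^ 2 * ((potS 𝒱 Finset.univ x).toReal * ‖ψ x‖ ^ 2) ∂(piN ι)
      = (∫ x, (potS 𝒱 Finset.univ x).toReal * ‖ψ x‖ ^ 2 ∂(piN ι))
        - 2 * s * (∫ x, G x * ((potS 𝒱 Finset.univ x).toReal * ‖ψ x‖ ^ 2) ∂(piN ι))
        + s ^ 2 * ∫ x, G x ^ 2 * ((potS 𝒱 Finset.univ x).toReal * ‖ψ x‖ ^ 2) ∂(piN ι) := by
    rw [← A5_expand hpot (A5_int_bm hpot hG) (A5_int_bm hpot hG2) s]
    congr 1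
    funext x
    ring
  unfold bG rE
  simp only [e1, e2]
  rw [A5_sum (fun i α => ∫ x, ‖g i α x‖ ^ 2 ∂(piN ι))
    (fun i α => ∫ x, (G x * ‖g i α x‖ ^ 2 + G' i α x * (conj (ψ x) * g i α x).re) ∂(piN ι))
    (fun i α => ∫ x, (G x ^ 2 * ‖g i α x‖ ^ 2
      + 2 * G x * G' i α x * (conj (ψ x) * g i α x).re) ∂(piN ι)) s]
  ring

/-- the minimality inequality in real form -/
lemma A5_real {R₀ : ℝ} {𝒱 : T3 → ℝ≥0∞} (hv : AEMeasurable 𝒱 lam3) {φ : (ι → T3) → ℂ}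
    {f : ι → Fin 3 → (ι → T3) → ℂ} (h : FE R₀ 𝒱 φ f) {e : ℝ} (he : 0 ≤ e)
    (hmin : ENNReal.ofReal e * ∫⁻ x, ‖φ x‖ₑ ^ 2 ∂(piN ι) ≤ eS 𝒱 Finset.univ φ f) :
    e * ∫ x, ‖φ x‖ ^ 2 ∂(piN ι) ≤ rE 𝒱 Finset.univ φ f := by
  obtain ⟨_, h1, h2⟩ := rE_eq hv h.hg h.fin
  rw [lint_sq h.hg.mem, ← h1, ← ENNReal.ofReal_mul he] at hmin
  exact (ENNReal.ofReal_le_ofReal_iff h2).mp hmin

/-- Cauchy-Schwarz inequality for the first variation -/
theorem var_cs {R₀ : ℝ} {𝒱 : T3 → ℝ≥0∞} (hv : AEMeasurable 𝒱 lam3) {ψ : (ι → T3) → ℂ}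
    {g : ι → Fin 3 → (ι → T3) → ℂ} (h : FE R₀ 𝒱 ψ g) {G : (ι → T3) → ℝ}
    {G' : ι → Fin 3 → (ι → T3) → ℝ} (w : WDN G G') {e : ℝ} (he : 0 ≤ e)
    (hmin : ∀ (φ : (ι → T3) → ℂ) (f : ι → Fin 3 → (ι → T3) → ℂ), HG φ f → Core R₀ φ →
      ENNReal.ofReal e * ∫⁻ x, ‖φ x‖ₑ ^ 2 ∂(piN ι) ≤ eS 𝒱 Finset.univ φ f) :
    (bG 𝒱 ψ g G G' - e * ∫ x, G x * ‖ψ x‖ ^ 2 ∂(piN ι)) ^ 2
      ≤ (rE 𝒱 Finset.univ ψ g - e * ∫ x, ‖ψ x‖ ^ 2 ∂(piN ι))
        * (rE 𝒱 Finset.univ (mG G ψ) (mGg G G' ψ g) - e * ∫ x, G x ^ 2 * ‖ψ x‖ ^ 2 ∂(piN ι)) := by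
  apply cs_of_quadratic
  intro s
  have hG := A5_bm w
  have hG2 : BM (fun x => G x ^ 2) := hG.pow 2
  have ws := A5_wdn w s
  have hF : FE R₀ 𝒱 (mG (fun x => 1 - s * G x) ψ)
      (mGg (fun x => 1 - s * G x) (fun i α x => -(s * G' i α x)) ψ g) := h.mul ws
  have h1 := A5_real hv hF he (hmin _ _ hF.hg hF.core)
  rw [rE_mG hv h ws, A5_bG hv h w s] at h1
  have hψ2 := int_sq h.hg.mem
  have h2 : ∫ x, ‖mG (fun x => 1 - s * G x) ψ x‖ ^ 2 ∂(piN ι)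
      = (∫ x, ‖ψ x‖ ^ 2 ∂(piN ι)) - 2 * s * (∫ x, G x * ‖ψ x‖ ^ 2 ∂(piN ι))
        + s ^ 2 * ∫ x, G x ^ 2 * ‖ψ x‖ ^ 2 ∂(piN ι) := by
    rw [← A5_expand hψ2 (A5_int_bm hψ2 hG) (A5_int_bm hψ2 hG2) s]
    congr 1
    funext x
    unfold mG
    rw [norm_mul, mul_pow, Complex.norm_real, Real.norm_eq_abs, sq_abs]
    ring
  have h3 : ∑ i, ∑ α, ∫ x, (-(s * G' i α x)) ^ 2 * ‖ψ x‖ ^ 2 ∂(piN ι)
      = s ^ 2 * ∑ i, ∑ α, ∫ x, G' i α x ^ 2 * ‖ψ x‖ ^ 2 ∂(piN ι) := by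
    rw [Finset.mul_sum]
    refine Finset.sum_congr rfl fun i _ => ?_
    rw [Finset.mul_sum]
    refine Finset.sum_congr rfl fun α _ => ?_
    rw [← integral_const_mul]
    congr 1
    funext x
    ring
  rw [h2, h3] at h1
  rw [rE_mG hv h w]
  linarith

/-- the identity for minimisers -/
theorem min_id {R₀ : ℝ} {𝒱 : T3 → ℝ≥0∞} (hv : AEMeasurable 𝒱 lam3) {ψ : (ι → T3) → ℂ}
    {g : ι → Fin 3 → (ι → T3) → ℂ} (h : FE R₀ 𝒱 ψ g) {G : (ι → T3) → ℝ}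
    {G' : ι → Fin 3 → (ι → T3) → ℝ} (w : WDN G G') {e : ℝ} (he : 0 ≤ e)
    (hmin : ∀ (φ : (ι → T3) → ℂ) (f : ι → Fin 3 → (ι → T3) → ℂ), HG φ f → Core R₀ φ →
      ENNReal.ofReal e * ∫⁻ x, ‖φ x‖ₑ ^ 2 ∂(piN ι) ≤ eS 𝒱 Finset.univ φ f)
    (heq : rE 𝒱 Finset.univ ψ g = e * ∫ x, ‖ψ x‖ ^ 2 ∂(piN ι)) :
    bG 𝒱 ψ g G G' = e * ∫ x, G x * ‖ψ x‖ ^ 2 ∂(piN ι) := by
  have h1 := var_cs hv h w he hmin
  rw [heq, sub_self, zero_mul] at h1
  have h2 : bG 𝒱 ψ g G G' - e * ∫ x, G x * ‖ψ x‖ ^ 2 ∂(piN ι) = 0 :=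
    pow_eq_zero_iff (two_ne_zero) |>.mp (le_antisymm h1 (sq_nonneg _))
  linarith

/-- energy of `F ψ` for a minimiser -/
theorem min_F {R₀ : ℝ} {𝒱 : T3 → ℝ≥0∞} (hv : AEMeasurable 𝒱 lam3) {ψ : (ι → T3) → ℂ}
    {g : ι → Fin 3 → (ι → T3) → ℂ} (h : FE R₀ 𝒱 ψ g) {F : (ι → T3) → ℝ}
    {F' : ι → Fin 3 → (ι → T3) → ℝ} (w : WDN F F') {e : ℝ} (he : 0 ≤ e)
    (hmin : ∀ (φ : (ι → T3) → ℂ) (f : ι → Fin 3 → (ι → T3) → ℂ), HG φ f → Core R₀ φ →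
      ENNReal.ofReal e * ∫⁻ x, ‖φ x‖ₑ ^ 2 ∂(piN ι) ≤ eS 𝒱 Finset.univ φ f)
    (heq : rE 𝒱 Finset.univ ψ g = e * ∫ x, ‖ψ x‖ ^ 2 ∂(piN ι)) :
    rE 𝒱 Finset.univ (mG F ψ) (mGg F F' ψ g)
      = e * (∫ x, F x ^ 2 * ‖ψ x‖ ^ 2 ∂(piN ι)) + ∑ i, ∑ α, ∫ x, F' i α x ^ 2 * ‖ψ x‖ ^ 2 ∂(piN ι) := by
  rw [rE_mG hv h w, min_id hv h (A5_wdn_sq w) he hmin heq]

end Pool.Agent.Lib.MP_4952d6_mp.LA

end

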