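import Pool.Agent.Lib.MP_4952d6_mp.Pk.G27

/-! Merged modules (to save import time): LA.A1a, LA.A1. -/

/-! ### LA.A1a -/

section

/-!
# JOB LA-A1a: weak gradients in Fourier form, basic facts

* `HG.kin`: `parseval_sq` for `g i α` and `four`: `∫ ‖g i α‖² = ∑ₖ 4π² (k i α)² ‖fc ψ k‖²`, then `ENNReal.tsum` and finite sums commute
  (`Summable.tsum_finsetSum`/`ENNReal.tsum_add`), `∫⁻ ‖f‖ₑ² = ofReal ∫ ‖f‖²` (`ofReal_integral_eq_lintegral_ofReal`).
* `exists_grad`: `exists_of_l2` applied to `k ↦ 2π I (k i α) fc ψ k` (summable squares from the finite energy).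
* `ae_eq_of_fc`: two `L²` functions with the same Fourier coefficients agree a.e.: `parseval_sq` for the difference gives `∫ ‖f - g‖² = 0`.
  `ae_eq_of_fc3`: `fc3` are the Fourier coefficients on `T3`; either an analogue of Parseval exists in the library, or transfer to `Unit → T3`
  (`MeasurableEquiv.funUnique`, `measurePreserving_funUnique`) and use `ae_eq_of_fc`.
-/

set_option autoImplicit false
set_option linter.unusedSectionVars false
set_option linter.unusedVariables false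
open MeasureTheory Function Filter Topology Set ComplexConjugate
open scoped ENNReal

namespace Pool.Agent.Lib.MP_4952d6_mp.LA

variable {ι : Type*} [Fintype ι] [DecidableEq ι]

theorem WD_conj {X : Type*} [MeasurableSpace X] [AddCommGroup X] {μ : Measure X} {τ : ℝ → X}
    {Φ Φ' : X → ℂ} (h : WD μ τ Φ Φ') : WD μ τ (fun x => conj (Φ x)) (fun x => conj (Φ' x)) := by
  obtain ⟨C, hC⟩ := h.bdd
  obtain ⟨L, hL⟩ := h.lip
  refine ⟨h.zero, Complex.continuous_conj.comp_stronglyMeasurable h.sm, ⟨C, fun x => ?_⟩, ⟨L, fun x t => ?_⟩, ?_⟩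
  · rw [RCLike.norm_conj]
    exact hC x
  · rw [← map_sub, RCLike.norm_conj]
    exact hL x t
  · filter_upwards [h.deriv] with x hx
    simpa only [starRingEnd_apply] using hx.star

/-- `∫⁻ ‖f‖ₑ²` in real form -/
theorem lint_sq {X : Type*} [MeasurableSpace X] {μ : Measure X} {f : X → ℂ} (hf : MemLp f 2 μ) :
    ∫⁻ x, ‖f x‖ₑ ^ 2 ∂μ = ENNReal.ofReal (∫ x, ‖f x‖ ^ 2 ∂μ) := by
  have h1 : Integrable (fun x => ‖f x‖ ^ 2) μ := (memLp_two_iff_integrable_sq_norm hf.1).1 hf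
  rw [ofReal_integral_eq_lintegral_ofReal h1 (Eventually.of_forall fun x => by positivity)]
  refine lintegral_congr fun x => ?_
  rw [ENNReal.ofReal_pow (norm_nonneg _), ofReal_norm]

theorem int_sq {X : Type*} [MeasurableSpace X] {μ : Measure X} {f : X → ℂ} (hf : MemLp f 2 μ) :
    Integrable (fun x => ‖f x‖ ^ 2) μ := by
  exact (memLp_two_iff_integrable_sq_norm hf.1).1 hf

lemma A1a_fc_int {f : (ι → T3) → ℂ} (hf : MemLp f 2 (piN ι)) (k : ι → Fin 3 → ℤ) :
    Integrable (fun x => conj (chN k x) * f x) (piN ι) := by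
  refine (hf.integrable one_le_two).mono
    ((Complex.continuous_conj.comp_stronglyMeasurable (chN_sm k)).aestronglyMeasurable.mul hf.1)
    (Eventually.of_forall fun x => ?_)
  rw [norm_mul, RCLike.norm_conj, chN_norm, one_mul]

lemma A1a_fc3_int {f : T3 → ℂ} (hf : MemLp f 2 lam3) (p : Fin 3 → ℤ) :
    Integrable (fun x => conj (ch p x) * f x) lam3 := by
  refine (hf.integrable one_le_two).mono
    ((Complex.continuous_conj.comp (ch_continuous p)).aestronglyMeasurable.mul hf.1)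
    (Eventually.of_forall fun x => ?_)
  rw [norm_mul, RCLike.norm_conj, ch_norm, one_mul]

lemma A1a_fc_add {f g : (ι → T3) → ℂ} (hf : MemLp f 2 (piN ι)) (hg : MemLp g 2 (piN ι)) (k : ι → Fin 3 → ℤ) :
    fc (fun x => f x + g x) k = fc f k + fc g k := by
  unfold fc
  rw [← integral_add (A1a_fc_int hf k) (A1a_fc_int hg k)]
  refine integral_congr_ae (Eventually.of_forall fun x => ?_)
  simp only [mul_add]

lemma A1a_fc_sub {f g : (ι → T3) → ℂ} (hf : MemLp f 2 (piN ι)) (hg : MemLp g 2 (piN ι)) (k : ι → Fin 3 → ℤ) :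
    fc (fun x => f x - g x) k = fc f k - fc g k := by
  unfold fc
  rw [← integral_sub (A1a_fc_int hf k) (A1a_fc_int hg k)]
  refine integral_congr_ae (Eventually.of_forall fun x => ?_)
  simp only [mul_sub]

lemma A1a_fc3_sub {f g : T3 → ℂ} (hf : MemLp f 2 lam3) (hg : MemLp g 2 lam3) (k : Fin 3 → ℤ) :
    fc3 (fun x => f x - g x) k = fc3 f k - fc3 g k := by
  unfold fc3
  rw [← integral_sub (A1a_fc3_int hf k) (A1a_fc3_int hg k)]
  refine integral_congr_ae (Eventually.of_forall fun x => ?_)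
  simp only [mul_sub]

lemma A1a_fc_congr {f g : (ι → T3) → ℂ} (h : f =ᵐ[piN ι] g) (k : ι → Fin 3 → ℤ) : fc f k = fc g k := by
  unfold fc
  refine integral_congr_ae ?_
  filter_upwards [h] with x hx
  rw [hx]

lemma A1a_zero {X : Type*} [MeasurableSpace X] {μ : Measure X} {f g : X → ℂ}
    (hf : MemLp (fun x => f x - g x) 2 μ) (h : ∫ x, ‖f x - g x‖ ^ 2 ∂μ = 0) : f =ᵐ[μ] g := by
  rw [integral_eq_zero_iff_of_nonneg (fun x => by positivity) (int_sq hf)] at h
  filter_upwards [h] with x hx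
  have h1 : ‖f x - g x‖ ^ 2 = 0 := hx
  have h2 : ‖f x - g x‖ = 0 := by
    rcases pow_eq_zero_iff (two_ne_zero) |>.1 h1 with h3
    exact h3
  exact sub_eq_zero.1 (norm_eq_zero.1 h2)

lemma A1a_norm_sq (x : ℝ) (z : ℂ) : ‖2 * Real.pi * Complex.I * (x : ℂ) * z‖ ^ 2 = 4 * Real.pi ^ 2 * x ^ 2 * ‖z‖ ^ 2 := by
  rw [norm_mul, norm_mul, norm_mul, norm_mul, Complex.norm_I, Complex.norm_real, Complex.norm_real, Complex.norm_ofNat,
    Real.norm_eq_abs, Real.norm_eq_abs, mul_pow, mul_pow, mul_pow, mul_pow, sq_abs, sq_abs]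
  ring

theorem ae_eq_of_fc {f g : (ι → T3) → ℂ} (hf : MemLp f 2 (piN ι)) (hg : MemLp g 2 (piN ι))
    (h : ∀ k, fc f k = fc g k) : f =ᵐ[piN ι] g := by
  have h1 : MemLp (fun x => f x - g x) 2 (piN ι) := hf.sub hg
  have h2 := parseval_sq h1
  have h3 : (fun k => ‖fc (fun x => f x - g x) k‖ ^ 2) = fun _ : ι → Fin 3 → ℤ => (0 : ℝ) := by
    funext k
    rw [A1a_fc_sub hf hg, h k, sub_self, norm_zero]
    norm_num
  rw [h3] at h2
  exact A1a_zero h1 (h2.unique hasSum_zero)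

theorem ae_eq_of_fc3 {f g : T3 → ℂ} (hf : MemLp f 2 lam3) (hg : MemLp g 2 lam3)
    (h : ∀ p, fc3 f p = fc3 g p) : f =ᵐ[lam3] g := by
  have h1 : MemLp (fun x => f x - g x) 2 lam3 := hf.sub hg
  have h2 := parseval3_sq h1
  have h3 : (fun k => ‖fc3 (fun x => f x - g x) k‖ ^ 2) = fun _ : Fin 3 → ℤ => (0 : ℝ) := by
    funext k
    rw [A1a_fc3_sub hf hg, h k, sub_self, norm_zero]
    norm_num
  rw [h3] at h2
  exact A1a_zero h1 (h2.unique hasSum_zero)

theorem HG.kin {ψ : (ι → T3) → ℂ} {g : ι → Fin 3 → (ι → T3) → ℂ} (h : HG ψ g) :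
    (∑' k : ι → Fin 3 → ℤ, ENNReal.ofReal (4 * Real.pi ^ 2 * (∑ i, ∑ α, (k i α : ℝ) ^ 2)
      * ‖fc ψ k‖ ^ 2)) = ∑ i, ∑ α, ∫⁻ x, ‖g i α x‖ₑ ^ 2 ∂(piN ι) := by
  have h1 : ∀ k : ι → Fin 3 → ℤ, ENNReal.ofReal (4 * Real.pi ^ 2 * (∑ i, ∑ α, (k i α : ℝ) ^ 2) * ‖fc ψ k‖ ^ 2) =
      ∑ i, ∑ α, ENNReal.ofReal (‖fc (g i α) k‖ ^ 2) := by
    intro k
    have h2 : 4 * Real.pi ^ 2 * (∑ i, ∑ α, (k i α : ℝ) ^ 2) * ‖fc ψ k‖ ^ 2 = ∑ i, ∑ α, ‖fc (g i α) k‖ ^ 2 := by
      rw [Finset.mul_sum, Finset.sum_mul]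
      refine Finset.sum_congr rfl fun i _ => ?_
      rw [Finset.mul_sum, Finset.sum_mul]
      refine Finset.sum_congr rfl fun α _ => ?_
      rw [h.four i α k, A1a_norm_sq]
    rw [h2, ENNReal.ofReal_sum_of_nonneg fun i _ => Finset.sum_nonneg fun α _ => by positivity]
    refine Finset.sum_congr rfl fun i _ => ?_
    rw [ENNReal.ofReal_sum_of_nonneg fun α _ => by positivity]
  simp only [h1]
  rw [Summable.tsum_finsetSum fun _ _ => ENNReal.summable]
  refine Finset.sum_congr rfl fun i _ => ?_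
  rw [Summable.tsum_finsetSum fun _ _ => ENNReal.summable]
  refine Finset.sum_congr rfl fun α _ => ?_
  have h3 := parseval_sq (h.gmem i α)
  rw [lint_sq (h.gmem i α), ← h3.tsum_eq, ENNReal.ofReal_tsum_of_nonneg (fun k => by positivity) h3.summable]

theorem exists_grad {ψ : (ι → T3) → ℂ} (h : MemLp ψ 2 (piN ι))
    (hk : (∑' k : ι → Fin 3 → ℤ, ENNReal.ofReal (4 * Real.pi ^ 2 * (∑ i, ∑ α, (k i α : ℝ) ^ 2)
      * ‖fc ψ k‖ ^ 2)) < ⊤) : ∃ g, HG ψ g := by
  have h1 := ENNReal.summable_toReal hk.ne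
  have h2 : ∀ (i : ι) (α : Fin 3), Summable fun k : ι → Fin 3 → ℤ =>
      ‖2 * Real.pi * Complex.I * ((k i α : ℝ) : ℂ) * fc ψ k‖ ^ 2 := by
    intro i α
    refine Summable.of_nonneg_of_le (fun k => by positivity) (fun k => ?_) h1
    rw [ENNReal.toReal_ofReal (by positivity), A1a_norm_sq]
    have h3 : (k i α : ℝ) ^ 2 ≤ ∑ i, ∑ α, (k i α : ℝ) ^ 2 := by
      calc (k i α : ℝ) ^ 2 ≤ ∑ α, (k i α : ℝ) ^ 2 :=
            Finset.single_le_sum (f := fun α => (k i α : ℝ) ^ 2) (fun α _ => by positivity) (Finset.mem_univ α)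
        _ ≤ ∑ i, ∑ α, (k i α : ℝ) ^ 2 :=
            Finset.single_le_sum (f := fun i => ∑ α, (k i α : ℝ) ^ 2)
              (fun i _ => Finset.sum_nonneg fun α _ => by positivity) (Finset.mem_univ i)
    gcongr
  have h4 := fun (i : ι) (α : Fin 3) => exists_of_l2 _ (h2 i α)
  choose g hg hg2 using h4
  exact ⟨g, h, hg, fun i α k => hg2 i α k⟩

theorem HG.add {ψ φ : (ι → T3) → ℂ} {g f : ι → Fin 3 → (ι → T3) → ℂ} (h : HG ψ g) (h' : HG φ f) :
    HG (fun x => ψ x + φ x) (fun i α x => g i α x + f i α x) := by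
  refine ⟨h.mem.add h'.mem, fun i α => (h.gmem i α).add (h'.gmem i α), fun i α k => ?_⟩
  rw [A1a_fc_add (h.gmem i α) (h'.gmem i α), A1a_fc_add h.mem h'.mem, h.four, h'.four]
  ring

theorem HG.smul {ψ : (ι → T3) → ℂ} {g : ι → Fin 3 → (ι → T3) → ℂ} (h : HG ψ g) (c : ℂ) :
    HG (fun x => c * ψ x) (fun i α x => c * g i α x) := by
  refine ⟨h.mem.const_mul c, fun i α => (h.gmem i α).const_mul c, fun i α k => ?_⟩
  rw [fc_const_mul, fc_const_mul, h.four]
  ring

theorem HG.congr {ψ φ : (ι → T3) → ℂ} {g f : ι → Fin 3 → (ι → T3) → ℂ} (h : HG ψ g)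
    (h1 : ψ =ᵐ[piN ι] φ) (h2 : ∀ i α, g i α =ᵐ[piN ι] f i α) : HG φ f := by
  refine ⟨h.mem.ae_eq h1, fun i α => (h.gmem i α).ae_eq (h2 i α), fun i α k => ?_⟩
  rw [← A1a_fc_congr (h2 i α), ← A1a_fc_congr h1, h.four]

theorem HG.unique {ψ : (ι → T3) → ℂ} {g f : ι → Fin 3 → (ι → T3) → ℂ} (h : HG ψ g) (h' : HG ψ f)
    (i : ι) (α : Fin 3) : g i α =ᵐ[piN ι] f i α := by
  exact ae_eq_of_fc (h.gmem i α) (h'.gmem i α) fun k => by rw [h.four, h'.four]

end Pool.Agent.Lib.MP_4952d6_mp.LA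

end

/-! ### LA.A1 -/

section

/-!
# JOB LA-A1b: integration by parts for functions with weak gradients (deliver as MP_4952d6_mp_LA_A1.lean)

* `HG.ibp`: let `f = conj ∘ Φ`, `f' = conj ∘ Φ'`, again a `WD` pair (`WD_conj`); `WD.fourier` (characters `chN k`: `chN_sm`, `chN_norm`, `chN_add_tauN`)
  gives `fc f' k = 2π I (k i α) fc f k`; `parseval` for `(f', ψ)` and `(f, g i α)`: `∫ Φ' ψ = ∑ₖ conj (fc f' k) fc ψ k = -∑ₖ conj (fc f k) (2π I (k i α) fc ψ k) = -∫ Φ g`.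
  (`WD` functions are bounded and strongly measurable; `WD.bound`, `WD.aesm_deriv` for the derivative; `MemLp.of_bound`.)
* `HG.mul`: `Φ = conj (chN k) * G`; `ibp`.
* `HG.skew`: `parseval`.
* `HG_of_WDN`: `WD.fourier`.
-/

set_option autoImplicit false
set_option linter.unusedSectionVars false
set_option linter.unusedVariables false
open MeasureTheory Function Filter Topology Set ComplexConjugate
open scoped ENNReal

namespace Pool.Agent.Lib.MP_4952d6_mp.LA

variable {ι : Type*} [Fintype ι] [DecidableEq ι]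

lemma A1_mem {Φ Φ' : (ι → T3) → ℂ} {i : ι} {α : Fin 3} (w : WD (piN ι) (tauN i α) Φ Φ') :
    MemLp Φ 2 (piN ι) := by
  obtain ⟨C, hC0, hC⟩ := w.exists_bdd
  exact MemLp.of_bound w.sm.aestronglyMeasurable C (Eventually.of_forall hC)

lemma A1_mem' {Φ Φ' : (ι → T3) → ℂ} {i : ι} {α : Fin 3} (w : WD (piN ι) (tauN i α) Φ Φ') :
    MemLp Φ' 2 (piN ι) := by
  obtain ⟨C, hC0, hC⟩ := w.bound
  exact MemLp.of_bound w.aesm_deriv C hC

lemma A1_fc {Φ Φ' : (ι → T3) → ℂ} {i : ι} {α : Fin 3} (w : WD (piN ι) (tauN i α) Φ Φ')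
    (k : ι → Fin 3 → ℤ) : fc Φ' k = 2 * Real.pi * Complex.I * (k i α : ℝ) * fc Φ k := by
  have := piN_left_inv (ι := ι)
  exact w.fourier (chN_sm k) (chN_norm k) (k i α) (chN_add_tauN k i α)

lemma A1_conj (n : ℝ) (a b : ℂ) :
    conj (2 * Real.pi * Complex.I * (n : ℂ) * a) * b
      = -(conj a * (2 * Real.pi * Complex.I * (n : ℂ) * b)) := by
  simp only [map_mul, Complex.conj_ofReal, Complex.conj_I, map_ofNat]
  ring

lemma A1_G {G : (ι → T3) → ℝ} {G' : ι → Fin 3 → (ι → T3) → ℝ} (w : WDN G G') :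
    StronglyMeasurable G ∧ ∃ C, 0 ≤ C ∧ ∀ x, ‖G x‖ ≤ C := by
  rcases isEmpty_or_nonempty ι with he | he
  · refine ⟨StronglyMeasurable.of_discrete, ‖G 0‖, norm_nonneg _, fun x => ?_⟩
    rw [Subsingleton.elim x 0]
  · obtain ⟨i⟩ := he
    exact ⟨(w i 0).sm, (w i 0).exists_bdd⟩

theorem HG.ibp {ψ : (ι → T3) → ℂ} {g : ι → Fin 3 → (ι → T3) → ℂ} (h : HG ψ g) (i : ι) (α : Fin 3)
    {Φ Φ' : (ι → T3) → ℂ} (w : WD (piN ι) (tauN i α) Φ Φ') :
    ∫ x, Φ' x * ψ x ∂(piN ι) = - ∫ x, Φ x * g i α x ∂(piN ι) := by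
  have wc := WD_conj w
  have h1 := parseval (A1_mem' wc) h.mem
  have h2 := (parseval (A1_mem wc) (h.gmem i α)).neg
  have e : (fun k => conj (fc (fun x => conj (Φ' x)) k) * fc ψ k)
      = fun k => -(conj (fc (fun x => conj (Φ x)) k) * fc (g i α) k) := by
    funext k
    rw [A1_fc wc, h.four, A1_conj]
  rw [e] at h1
  have h3 := h1.unique h2
  simp only [Complex.conj_conj] at h3
  exact h3

theorem HG.mul {ψ : (ι → T3) → ℂ} {g : ι → Fin 3 → (ι → T3) → ℂ} (h : HG ψ g)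
    {G : (ι → T3) → ℝ} {G' : ι → Fin 3 → (ι → T3) → ℝ} (w : WDN G G') :
    HG (mG G ψ) (mGg G G' ψ g) := by
  obtain ⟨hG, C, hC0, hC⟩ := A1_G w
  have hGc : StronglyMeasurable fun x => ((G x : ℝ) : ℂ) :=
    Complex.continuous_ofReal.comp_stronglyMeasurable hG
  have m1 : MemLp (mG G ψ) 2 (piN ι) := by
    refine h.mem.of_le_mul (c := C) (hGc.aestronglyMeasurable.mul h.mem.1)
      (Eventually.of_forall fun x => ?_)
    unfold mG
    rw [norm_mul, Complex.norm_real]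
    exact mul_le_mul_of_nonneg_right (hC x) (norm_nonneg _)
  have m2 : ∀ i α, MemLp (fun x => ((G' i α x : ℝ) : ℂ) * ψ x) 2 (piN ι) := by
    intro i α
    have wi := (w i α).ofReal
    obtain ⟨D, hD0, hD⟩ := wi.bound
    refine h.mem.of_le_mul (c := D) (wi.aesm_deriv.mul h.mem.1) ?_
    filter_upwards [hD] with x hx
    rw [norm_mul]
    exact mul_le_mul_of_nonneg_right hx (norm_nonneg _)
  have m3 : ∀ i α, MemLp (fun x => ((G x : ℝ) : ℂ) * g i α x) 2 (piN ι) := by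
    intro i α
    refine (h.gmem i α).of_le_mul (c := C) (hGc.aestronglyMeasurable.mul (h.gmem i α).1)
      (Eventually.of_forall fun x => ?_)
    rw [norm_mul, Complex.norm_real]
    exact mul_le_mul_of_nonneg_right (hC x) (norm_nonneg _)
  refine ⟨m1, fun i α => (m2 i α).add (m3 i α), fun i α k => ?_⟩
  have wi := (w i α).ofReal
  have wk := WD_conj (WD.character (μ := piN ι) (tauN_zero i α) (chN_sm k) (chN_norm k) (k i α)
    (chN_add_tauN k i α))
  have hi := h.ibp i α (wk.mul wi)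
  have i1 : Integrable (fun x => conj (chN k x) * (((G' i α x : ℝ) : ℂ) * ψ x)) (piN ι) := by
    refine ((m2 i α).integrable (by norm_num)).bdd_mul
      (Complex.continuous_conj.comp_stronglyMeasurable (chN_sm k)).aestronglyMeasurable
      (c := 1) (Eventually.of_forall fun x => ?_)
    simp [chN_norm]
  have i2 : Integrable (fun x => conj (chN k x) * (((G x : ℝ) : ℂ) * g i α x)) (piN ι) := by
    refine ((m3 i α).integrable (by norm_num)).bdd_mul
      (Complex.continuous_conj.comp_stronglyMeasurable (chN_sm k)).aestronglyMeasurable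
      (c := 1) (Eventually.of_forall fun x => ?_)
    simp [chN_norm]
  have i3 : Integrable (fun x => conj (chN k x) * (((G x : ℝ) : ℂ) * ψ x)) (piN ι) := by
    refine (m1.integrable (by norm_num)).bdd_mul
      (Complex.continuous_conj.comp_stronglyMeasurable (chN_sm k)).aestronglyMeasurable
      (c := 1) (Eventually.of_forall fun x => ?_)
    simp [chN_norm]
  have e1 : ∀ x, (conj (2 * Real.pi * Complex.I * ((k i α : ℝ) : ℂ) * chN k x) * ((G x : ℝ) : ℂ)
      + conj (chN k x) * ((G' i α x : ℝ) : ℂ)) * ψ x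
      = (-(2 * Real.pi * Complex.I * ((k i α : ℝ) : ℂ))) * (conj (chN k x) * (((G x : ℝ) : ℂ) * ψ x))
        + conj (chN k x) * (((G' i α x : ℝ) : ℂ) * ψ x) := by
    intro x
    simp only [map_mul, Complex.conj_ofReal, Complex.conj_I, map_ofNat]
    ring
  have e2 : ∀ x, conj (chN k x) * ((G x : ℝ) : ℂ) * g i α x
      = conj (chN k x) * (((G x : ℝ) : ℂ) * g i α x) := fun x => mul_assoc _ _ _
  have e3 : ∀ x, conj (chN k x) * mGg G G' ψ g i α x
      = conj (chN k x) * (((G' i α x : ℝ) : ℂ) * ψ x)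
        + conj (chN k x) * (((G x : ℝ) : ℂ) * g i α x) := fun x => mul_add _ _ _
  simp_rw [e1, e2] at hi
  rw [integral_add (i3.const_mul _) i1, integral_const_mul] at hi
  unfold fc
  simp_rw [e3]
  rw [integral_add i1 i2]
  unfold mG
  linear_combination hi

theorem HG.skew {ψ φ : (ι → T3) → ℂ} {g f : ι → Fin 3 → (ι → T3) → ℂ} (h : HG ψ g) (h' : HG φ f)
    (i : ι) (α : Fin 3) :
    ∫ x, conj (ψ x) * f i α x ∂(piN ι) = - ∫ x, conj (g i α x) * φ x ∂(piN ι) := by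
  have h1 := parseval h.mem (h'.gmem i α)
  have h2 := (parseval (h.gmem i α) h'.mem).neg
  have e : (fun k => -(conj (fc (g i α) k) * fc φ k)) = fun k => conj (fc ψ k) * fc (f i α) k := by
    funext k
    rw [h.four, h'.four, A1_conj, neg_neg]
  rw [e] at h2
  exact h1.unique h2

/-- A real function with weak derivatives. -/
theorem HG_of_WDN {G : (ι → T3) → ℝ} {G' : ι → Fin 3 → (ι → T3) → ℝ} (w : WDN G G') :
    HG (fun x => (G x : ℂ)) (fun i α x => (G' i α x : ℂ)) := by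
  obtain ⟨hG, C, hC0, hC⟩ := A1_G w
  refine ⟨?_, fun i α => A1_mem' (w i α).ofReal, fun i α k => A1_fc (w i α).ofReal k⟩
  refine MemLp.of_bound (Complex.continuous_ofReal.comp_stronglyMeasurable hG).aestronglyMeasurable
    C (Eventually.of_forall fun x => ?_)
  rw [Complex.norm_real]
  exact hC x

end Pool.Agent.Lib.MP_4952d6_mp.LA

end

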