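import Pool.Agent.Lib.MP_4952d6_mp.Pk.G11
import Pool.Agent.Lib.MP_4952d6_mp.Pk.G35

/-! Merged modules (to save import time): LA.A2a, LA.A2, LA.I1. -/

/-! ### LA.A2a -/

section

/-!
# JOB LA-A2a: gluing configurations

* `mp_glue`: `MeasureTheory.measurePreserving_piEquivPiSubtypeProd` (the inverse of `MeasurableEquiv.piEquivPiSubtypeProd (fun _ => T3) p` is `glue p`).
  The index types `{i // p i}` and `{i // ¬ p i}` carry the instances `Subtype.fintype`; all occurrences of `Fintype` on a subtype are the canonical ones.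
* `fc_glue`: Fubini: `chN k (glue p x y) = chN (k restricted to p) x * chN (k restricted to ¬p) y`, so
  `fc ψ (glueZ p k k') = fc (fun x => fc (fun y => ψ (glue p x y)) k') k` (for `L²`, hence integrable, `ψ`).
* `lint_update`, `ae_upd`: one free particle: the measure preserving map `(x, y) ↦ update x j y` (`Resample.lean`, `Gas.lean` of the library contain facts about
  `update` and `piN`).
-/

set_option autoImplicit false
set_option linter.unusedSectionVars false
set_option linter.unusedVariables false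
open MeasureTheory Function Filter Topology Set ComplexConjugate
open scoped ENNReal

namespace Pool.Agent.Lib.MP_4952d6_mp.LA

variable {ι : Type*} [Fintype ι] [DecidableEq ι]

/-- glue momenta -/
noncomputable def glueZ (p : ι → Prop) [DecidablePred p] (k : {i // p i} → Fin 3 → ℤ)
    (k' : {i // ¬ p i} → Fin 3 → ℤ) : ι → Fin 3 → ℤ := fun i => if h : p i then k ⟨i, h⟩ else k' ⟨i, h⟩

theorem mp_glue (p : ι → Prop) [DecidablePred p] :
    MeasurePreserving (fun q : ({i // p i} → T3) × ({i // ¬ p i} → T3) => glue p q.1 q.2)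
      ((piN {i // p i}).prod (piN {i // ¬ p i})) (piN ι) :=
  (measurePreserving_piEquivPiSubtypeProd (fun _ : ι => lam3) p).symm _

theorem A2a_chN (p : ι → Prop) [DecidablePred p] (k : {i // p i} → Fin 3 → ℤ)
    (k' : {i // ¬ p i} → Fin 3 → ℤ) (x : {i // p i} → T3) (y : {i // ¬ p i} → T3) :
    chN (glueZ p k k') (glue p x y) = chN k x * chN k' y := by
  unfold chN
  rw [← Fintype.prod_subtype_mul_prod_subtype p]
  congr 1
  · refine Finset.prod_congr rfl fun i _ => ?_
    have h1 : glueZ p k k' (i : ι) = k i := by simp [glueZ, i.2]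
    have h2 : glue p x y (i : ι) = x i := by simp [glue, i.2]
    rw [h1, h2]
  · refine Finset.prod_congr rfl fun i _ => ?_
    have h1 : glueZ p k k' (i : ι) = k' i := by simp [glueZ, i.2]
    have h2 : glue p x y (i : ι) = y i := by simp [glue, i.2]
    rw [h1, h2]

theorem A2a_int {ψ : (ι → T3) → ℂ} (hψ : MemLp ψ 2 (piN ι)) (k : ι → Fin 3 → ℤ) :
    Integrable (fun x => conj (chN k x) * ψ x) (piN ι) := by
  refine (hψ.integrable (by norm_num)).bdd_mul
    ((Complex.continuous_conj.comp_stronglyMeasurable (chN_sm k)).aestronglyMeasurable)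
    (c := 1) (Eventually.of_forall fun x => ?_)
  rw [RCLike.norm_conj, chN_norm]

theorem fc_glue (p : ι → Prop) [DecidablePred p] {ψ : (ι → T3) → ℂ} (hψ : MemLp ψ 2 (piN ι))
    (k : {i // p i} → Fin 3 → ℤ) (k' : {i // ¬ p i} → Fin 3 → ℤ) :
    fc ψ (glueZ p k k') = fc (fun x => fc (fun y => ψ (glue p x y)) k') k := by
  have hint := A2a_int hψ (glueZ p k k')
  have hmp := mp_glue (ι := ι) p
  have h1 : fc ψ (glueZ p k k')
      = ∫ q : ({i // p i} → T3) × ({i // ¬ p i} → T3),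
          conj (chN (glueZ p k k') (glue p q.1 q.2)) * ψ (glue p q.1 q.2)
            ∂((piN {i // p i}).prod (piN {i // ¬ p i})) :=
    (mp_integral hmp hint.aestronglyMeasurable).symm
  have hint2 : Integrable (fun q : ({i // p i} → T3) × ({i // ¬ p i} → T3) =>
      conj (chN (glueZ p k k') (glue p q.1 q.2)) * ψ (glue p q.1 q.2))
      ((piN {i // p i}).prod (piN {i // ¬ p i})) :=
    (hmp.integrable_comp hint.aestronglyMeasurable).2 hint
  rw [h1, integral_prod _ hint2]
  unfold fc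
  refine integral_congr_ae (Eventually.of_forall fun x => ?_)
  show ∫ y, conj (chN (glueZ p k k') (glue p x y)) * ψ (glue p x y) ∂(piN {i // ¬ p i})
    = conj (chN k x) * ∫ y, conj (chN k' y) * ψ (glue p x y) ∂(piN {i // ¬ p i})
  rw [← integral_const_mul]
  refine integral_congr_ae (Eventually.of_forall fun y => ?_)
  show conj (chN (glueZ p k k') (glue p x y)) * ψ (glue p x y)
    = conj (chN k x) * (conj (chN k' y) * ψ (glue p x y))
  rw [A2a_chN, map_mul, mul_assoc]

/-- integration in one particle -/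
theorem lint_update {F : (ι → T3) → ℝ≥0∞} (hF : AEMeasurable F (piN ι)) (j : ι) :
    ∫⁻ x, ∫⁻ y, F (update x j y) ∂lam3 ∂(piN ι) = ∫⁻ x, F x ∂(piN ι) := by
  have hmp := mp_upd (ι := ι) lam3 j
  have hF' : AEMeasurable F (Measure.map (fun p : (ι → T3) × T3 => update p.1 j p.2) ((piN ι).prod lam3)) := by
    rw [hmp.map_eq]
    exact hF
  have h1 : AEMeasurable (fun p : (ι → T3) × T3 => F (update p.1 j p.2)) ((piN ι).prod lam3) :=
    hF'.comp_aemeasurable hmp.measurable.aemeasurable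
  calc ∫⁻ x, ∫⁻ y, F (update x j y) ∂lam3 ∂(piN ι)
      = ∫⁻ p : (ι → T3) × T3, F (update p.1 j p.2) ∂((piN ι).prod lam3) :=
        (lintegral_prod _ h1).symm
    _ = ∫⁻ x, F x ∂(Measure.map (fun p : (ι → T3) × T3 => update p.1 j p.2) ((piN ι).prod lam3)) :=
        (lintegral_map' hF' hmp.measurable.aemeasurable).symm
    _ = ∫⁻ x, F x ∂(piN ι) := by rw [hmp.map_eq]

/-- an a.e. property holds on almost every line -/
theorem ae_upd {P : (ι → T3) → Prop} (h : ∀ᵐ x ∂(piN ι), P x) (j : ι) :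
    ∀ᵐ x ∂(piN ι), ∀ᵐ y ∂lam3, P (update x j y) :=
  Measure.ae_ae_of_ae_prod ((mp_upd (ι := ι) lam3 j).quasiMeasurePreserving.ae h)

end Pool.Agent.Lib.MP_4952d6_mp.LA

end

/-! ### LA.A2 -/

section

/-!
# JOB LA-A2b: slices of functions with weak gradients (deliver as MP_4952d6_mp_LA_A2.lean)

* `HG.slice`: for a.e. `x` the slices are in `L²` (Tonelli for `∫⁻ ‖ψ‖ₑ²`).  Fix `j`, `α` and a momentum `k'` of the free particles; the functions
  `x ↦ fc (g j α slice) k'` and `x ↦ 2π I (k' j α) fc (ψ slice) k'` are in `L²` and have the same Fourier coefficients by `fc_glue` and `four`, so they agree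
  for a.e. `x` (`ae_eq_of_fc`); countably many `k'`.
* `HG.slice1`: the same with one free particle `j`: `p i = (i ≠ j)`; the free configurations `{i // ¬ i ≠ j} → T3` are `T3` (`MeasurableEquiv.piUnique`), or directly with the
  measure preserving map `(x, y) ↦ update x j y` on `piN ι × lam3` and momenta `k` with `k j` free: the function `x ↦ fc3 (fun y => g j α (update x j y)) q` does not depend on
  `x j`; its Fourier coefficient at `k` with `k j = 0` is `fc (g j α) (update k j q)`, at `k` with `k j ≠ 0` it is `0`.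
-/

set_option autoImplicit false
set_option linter.unusedSectionVars false
set_option linter.unusedVariables false
open MeasureTheory Function Filter Topology Set ComplexConjugate
open scoped ENNReal

namespace Pool.Agent.Lib.MP_4952d6_mp.LA

variable {ι : Type*} [Fintype ι] [DecidableEq ι]

/-- Cauchy-Schwarz on a probability space -/
theorem LAA2_cs {X : Type*} [MeasurableSpace X] {μ : Measure X} [IsProbabilityMeasure μ] {f : X → ℂ}
    (h1 : Integrable (fun x => ‖f x‖) μ) (h2 : Integrable (fun x => ‖f x‖ ^ 2) μ) :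
    (∫ x, ‖f x‖ ∂μ) ^ 2 ≤ ∫ x, ‖f x‖ ^ 2 ∂μ := by
  set a : ℝ := ∫ x, ‖f x‖ ∂μ with ha
  have h3 : 0 ≤ ∫ x, (‖f x‖ - a) ^ 2 ∂μ := integral_nonneg fun x => sq_nonneg _
  have h4 : ∫ x, (‖f x‖ - a) ^ 2 ∂μ = (∫ x, ‖f x‖ ^ 2 ∂μ) - a ^ 2 := by
    have e : ∀ x, (‖f x‖ - a) ^ 2 = ‖f x‖ ^ 2 - (2 * a * ‖f x‖ - a ^ 2) := fun x => by ring
    simp_rw [e]
    have i1 : Integrable (fun x => 2 * a * ‖f x‖) μ := h1.const_mul _
    have i2 : Integrable (fun x => 2 * a * ‖f x‖ - a ^ 2) μ := i1.sub (integrable_const _)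
    rw [integral_sub h2 i2, integral_sub i1 (integrable_const _), integral_const_mul, ← ha, integral_const]
    simp only [probReal_univ, one_smul]
    ring
  linarith

/-- slices of square integrable functions -/
theorem LAA2_slice {X Y : Type*} [MeasurableSpace X] [MeasurableSpace Y] {μ : Measure X} {ν : Measure Y}
    [IsProbabilityMeasure μ] [IsProbabilityMeasure ν] {f : X × Y → ℂ} (hf : MemLp f 2 (μ.prod ν)) :
    ∀ᵐ x ∂μ, MemLp (fun y => f (x, y)) 2 ν := by
  have h1 := hf.aestronglyMeasurable.prodMk_left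
  have h2 := (int_sq hf).prod_right_ae
  filter_upwards [h1, h2] with x a1 a2
  exact (memLp_two_iff_integrable_sq_norm a1).2 a2

/-- averages of square integrable functions -/
theorem LAA2_avg {X Y : Type*} [MeasurableSpace X] [MeasurableSpace Y] {μ : Measure X} {ν : Measure Y}
    [IsProbabilityMeasure μ] [IsProbabilityMeasure ν] {f : X × Y → ℂ} (hf : MemLp f 2 (μ.prod ν))
    {c : Y → ℂ} (hc : StronglyMeasurable c) (hc1 : ∀ y, ‖c y‖ = 1) :
    MemLp (fun x => ∫ y, c y * f (x, y) ∂ν) 2 μ := by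
  have hm : AEStronglyMeasurable (fun q : X × Y => c q.2 * f q) (μ.prod ν) :=
    (hc.comp_measurable measurable_snd).aestronglyMeasurable.mul hf.aestronglyMeasurable
  have hm2 : AEStronglyMeasurable (fun x => ∫ y, c y * f (x, y) ∂ν) μ := hm.integral_prod_right'
  refine (memLp_two_iff_integrable_sq_norm hm2).2 ?_
  have h1 := (int_sq hf).integral_prod_left
  refine h1.mono' (hm2.norm.pow 2) ?_
  filter_upwards [LAA2_slice hf] with x hx
  rw [Real.norm_eq_abs, abs_of_nonneg (by positivity)]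
  have h3 : ‖∫ y, c y * f (x, y) ∂ν‖ ≤ ∫ y, ‖f (x, y)‖ ∂ν := by
    refine (norm_integral_le_integral_norm _).trans (le_of_eq ?_)
    refine integral_congr_ae (Eventually.of_forall fun y => ?_)
    show ‖c y * f (x, y)‖ = ‖f (x, y)‖
    rw [norm_mul, hc1, one_mul]
  have h4 : Integrable (fun y => ‖f (x, y)‖) ν := (hx.integrable (by norm_num)).norm
  exact (pow_le_pow_left₀ (norm_nonneg _) h3 2).trans (LAA2_cs h4 (int_sq hx))

theorem LAA2_glue_mem (p : ι → Prop) [DecidablePred p] {ψ : (ι → T3) → ℂ} (hψ : MemLp ψ 2 (piN ι)) :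
    MemLp (fun q : ({i // p i} → T3) × ({i // ¬ p i} → T3) => ψ (glue p q.1 q.2)) 2
      ((piN {i // p i}).prod (piN {i // ¬ p i})) :=
  hψ.comp_measurePreserving (mp_glue p)

theorem HG.slice {ψ : (ι → T3) → ℂ} {g : ι → Fin 3 → (ι → T3) → ℂ} (h : HG ψ g)
    (p : ι → Prop) [DecidablePred p] :
    ∀ᵐ x ∂(piN {i // p i}), HG (fun y : {i // ¬ p i} → T3 => ψ (glue p x y))
      (fun j α y => g j.1 α (glue p x y)) := by
  have h0 := LAA2_slice (LAA2_glue_mem p h.mem)
  have h1 : ∀ᵐ x ∂(piN {i // p i}), ∀ (j : {i // ¬ p i}) (α : Fin 3),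
      MemLp (fun y : {i // ¬ p i} → T3 => g j.1 α (glue p x y)) 2 (piN {i // ¬ p i}) := by
    rw [ae_all_iff]
    intro j
    rw [ae_all_iff]
    intro α
    exact LAA2_slice (LAA2_glue_mem p (h.gmem j.1 α))
  have hfcm : ∀ (φ : (ι → T3) → ℂ), MemLp φ 2 (piN ι) → ∀ k' : {i // ¬ p i} → Fin 3 → ℤ,
      MemLp (fun x => fc (fun y : {i // ¬ p i} → T3 => φ (glue p x y)) k') 2 (piN {i // p i}) := by
    intro φ hφ k'
    refine LAA2_avg (LAA2_glue_mem p hφ) (c := fun y => conj (chN k' y)) ?_ ?_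
    · exact Complex.continuous_conj.comp_stronglyMeasurable (chN_sm k')
    · intro y
      rw [RCLike.norm_conj, chN_norm]
  have h2 : ∀ᵐ x ∂(piN {i // p i}), ∀ (j : {i // ¬ p i}) (α : Fin 3) (k' : {i // ¬ p i} → Fin 3 → ℤ),
      fc (fun y : {i // ¬ p i} → T3 => g j.1 α (glue p x y)) k' =
        2 * Real.pi * Complex.I * (k' j α : ℝ) * fc (fun y : {i // ¬ p i} → T3 => ψ (glue p x y)) k' := by
    rw [ae_all_iff]
    intro j
    rw [ae_all_iff]
    intro α
    rw [ae_all_iff]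
    intro k'
    refine ae_eq_of_fc (hfcm _ (h.gmem j.1 α) k') ((hfcm _ h.mem k').const_mul _) fun k => ?_
    rw [← fc_glue p (h.gmem j.1 α) k k', h.four, fc_glue p h.mem k k']
    have e : glueZ p k k' j.1 α = k' j α := by
      unfold glueZ
      rw [dif_neg j.2]
    rw [e]
    unfold fc
    rw [← integral_const_mul]
    refine integral_congr_ae (Eventually.of_forall fun x => ?_)
    show _ = _ * (_ * _)
    ring
  filter_upwards [h0, h1, h2] with x a0 a1 a2
  exact ⟨a0, a1, a2⟩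

theorem HG.slice1 {ψ : (ι → T3) → ℂ} {g : ι → Fin 3 → (ι → T3) → ℂ} (h : HG ψ g) (j : ι) :
    ∀ᵐ x ∂(piN ι), HG1 (fun y : T3 => ψ (update x j y)) (fun α y => g j α (update x j y)) := by
  classical
  have h1 := h.slice (fun i => i ≠ j)
  -- the restriction map
  have hr : MeasurePreserving (fun x : ι → T3 => fun i : {i // i ≠ j} => x i.1) (piN ι) (piN {i // i ≠ j}) := by
    have a1 := measurePreserving_piEquivPiSubtypeProd (fun _ : ι => lam3) (fun i => i ≠ j)
    exact measurePreserving_fst.comp a1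
  have h2 := hr.quasiMeasurePreserving.ae h1
  -- the free configurations
  have hj : ¬ (j ≠ j) := fun h => h rfl
  have : Unique {i // ¬ i ≠ j} := ⟨⟨⟨j, hj⟩⟩, fun a => Subtype.ext (not_not.1 a.2)⟩
  have hu : MeasurePreserving (fun (y : T3) (_ : {i // ¬ i ≠ j}) => y) lam3 (piN {i // ¬ i ≠ j}) := by
    have a1 := (measurePreserving_piUnique (fun _ : {i // ¬ i ≠ j} => lam3)).symm
    exact a1
  have hglue : ∀ (x : ι → T3) (y : T3), glue (fun i => i ≠ j) (fun i => x i.1) (fun _ => y) = update x j y := by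
    intro x y
    funext i
    unfold glue
    by_cases hi : i = j
    · rw [dif_neg (not_not.2 hi)]
      show y = update x j y i
      rw [hi, update_self]
    · rw [dif_pos hi, update_of_ne hi]
  have hfc : ∀ (F : ({i // ¬ i ≠ j} → T3) → ℂ) (q : Fin 3 → ℤ), MemLp F 2 (piN {i // ¬ i ≠ j}) →
      fc3 (fun y => F (fun _ => y)) q = fc F (fun _ => q) := by
    intro F q hF
    unfold fc3 fc
    rw [← hu.map_eq, integral_map hu.measurable.aemeasurable]
    · refine integral_congr_ae (Eventually.of_forall fun y => ?_)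
      show conj (ch q y) * _ = conj (chN (fun _ => q) (fun _ => y)) * _
      unfold chN
      rw [Fintype.prod_unique]
    · rw [hu.map_eq]
      exact (Complex.continuous_conj.comp_stronglyMeasurable (chN_sm _)).aestronglyMeasurable.mul
        hF.aestronglyMeasurable
  filter_upwards [h2] with x hx
  have e1 : (fun y : T3 => ψ (update x j y)) = fun y => (fun y' : {i // ¬ i ≠ j} → T3 =>
      ψ (glue (fun i => i ≠ j) (fun i => x i.1) y')) (fun _ => y) := by
    funext y
    show _ = ψ (glue (fun i => i ≠ j) (fun i => x i.1) (fun _ => y))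
    rw [hglue]
  have e2 : ∀ α, (fun y : T3 => g j α (update x j y)) = fun y => (fun y' : {i // ¬ i ≠ j} → T3 =>
      g j α (glue (fun i => i ≠ j) (fun i => x i.1) y')) (fun _ => y) := by
    intro α
    funext y
    show _ = g j α (glue (fun i => i ≠ j) (fun i => x i.1) (fun _ => y))
    rw [hglue]
  have hg := fun α => hx.gmem ⟨j, hj⟩ α
  refine ⟨?_, ?_, ?_⟩
  · rw [e1]
    exact hx.mem.comp_measurePreserving hu
  · intro α
    rw [e2]
    exact (hg α).comp_measurePreserving hu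
  · intro α q
    rw [e1, e2, hfc _ q (hg α), hfc _ q hx.mem]
    exact hx.four ⟨j, hj⟩ α (fun _ => q)

end Pool.Agent.Lib.MP_4952d6_mp.LA

end

/-! ### LA.I1 -/

section

/-!
# JOB LA-I1: averages in one particle

* `avj_sub`: `fc (avj m ψ) k = if k m = 0 then fc ψ k else 0` (Fubini, `lint_update`-type maps); `parseval_sq` for `ψ - avj m ψ`; `nuQ c m = ∑_{k m ≠ 0} ‖c k‖²` (L2.lean).
* `htj_sub`: `fc (htj s m ψ) k = exp (-(s * ksq (k m))) fc ψ k` (`fc3_hk`), `|1 - exp (-..)| ≤ 1` and `= 0` for `k m = 0`.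
* `avj_cs`, `htj_cs`: Cauchy-Schwarz (`∫ hk = 1`), then Fubini/exchange: for `P ≥ 0` bounded measurable not depending on ... the swap `(x, y) ↦ (update x m y, x m)` preserves
  `piN ι × lam3`.
  `∫ ‖htj s m ψ‖² P ≤ ∫∫ hk s (x m - y) ‖ψ(update x m y)‖² P(x) dy dx = ∫∫ hk s (y - x m) ‖ψ x‖² P(update x m y) dy dx` (`hk_neg`).
(The library of helper95 in LB contains similar facts for `cvc`.)
-/

set_option autoImplicit false
set_option linter.unusedSectionVars false
set_option linter.unusedVariables false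
open MeasureTheory Function Filter Topology Set ComplexConjugate
open scoped ENNReal

namespace Pool.Agent.Lib.MP_4952d6_mp.LA

variable {ι : Type*} [Fintype ι] [DecidableEq ι]

private lemma i1_int {K : T3 → ℝ} (hK : BM K) {P : (ι → T3) → ℝ} (hP : BM P)
    {ψ : (ι → T3) → ℂ} (hψ : MemLp ψ 2 (piN ι)) (m : ι) :
    Integrable (fun q : (ι → T3) × T3 =>
      K (q.2 - q.1 m) * P (update q.1 m q.2) * ‖ψ q.1‖ ^ 2) ((piN ι).prod lam3) := by
  have h1 : Integrable (fun q : (ι → T3) × T3 => ‖ψ q.1‖ ^ 2) ((piN ι).prod lam3) :=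
    (hψ.integrable_norm_pow two_ne_zero).comp_fst _
  have hb : BM (fun q : (ι → T3) × T3 => K (q.2 - q.1 m) * P (update q.1 m q.2)) :=
    (hK.comp (measurable_snd.sub ((measurable_pi_apply m).comp measurable_fst))).mul
      (hP.comp (measurable_upd m))
  obtain ⟨C, hC0, hC⟩ := hb.exists_nonneg_bound
  exact h1.bdd_mul hb.meas.aestronglyMeasurable (Eventually.of_forall hC)

private lemma i1_int' {K : T3 → ℝ} (hK : BM K) {P : (ι → T3) → ℝ} (hP : BM P)
    {ψ : (ι → T3) → ℂ} (hψ : MemLp ψ 2 (piN ι)) (m : ι) :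
    Integrable (fun q : (ι → T3) × T3 =>
      K (q.1 m - q.2) * P q.1 * ‖ψ (update q.1 m q.2)‖ ^ 2) ((piN ι).prod lam3) := by
  have h := (mp_swap lam3 m).integrable_comp_of_integrable (i1_int hK hP hψ m)
  refine h.congr (Eventually.of_forall fun q => ?_)
  simp only [comp_apply, update_self, update_idem, update_eq_self]

private lemma i1_cs {K : T3 → ℝ} {f : T3 → ℂ} (hK0 : ∀ y, 0 ≤ K y) (hKi : Integrable K lam3)
    (h1 : ∫ y, K y ∂lam3 = 1) (hf : Integrable (fun y => K y * ‖f y‖ ^ 2) lam3)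
    (hfm : AEStronglyMeasurable f lam3) :
    ‖∫ y, (K y : ℂ) * f y ∂lam3‖ ^ 2 ≤ ∫ y, K y * ‖f y‖ ^ 2 ∂lam3 := by
  have hB : Integrable (fun y => K y * ‖f y‖) lam3 := by
    refine Integrable.mono' (hKi.add hf)
      (hKi.aestronglyMeasurable.mul hfm.norm) (Eventually.of_forall fun y => ?_)
    rw [Real.norm_of_nonneg (mul_nonneg (hK0 y) (norm_nonneg _)), Pi.add_apply]
    have h2 : ‖f y‖ ≤ 1 + ‖f y‖ ^ 2 := by nlinarith [sq_nonneg (‖f y‖ - 1), norm_nonneg (f y)]
    have := mul_le_mul_of_nonneg_left h2 (hK0 y)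
    linarith
  have h2 : ‖∫ y, (K y : ℂ) * f y ∂lam3‖ ≤ ∫ y, K y * ‖f y‖ ∂lam3 := by
    refine (norm_integral_le_integral_norm _).trans (le_of_eq ?_)
    refine integral_congr_ae (Eventually.of_forall fun y => ?_)
    simp only [norm_mul, Complex.norm_real, Real.norm_of_nonneg (hK0 y)]
  have h3 : (∫ y, K y * ‖f y‖ ∂lam3) ^ 2 ≤ (∫ y, K y * ‖f y‖ ^ 2 ∂lam3) * 1 := by
    refine cs_of_quadratic fun t => ?_
    have h4 : 0 ≤ ∫ y, K y * (‖f y‖ - t) ^ 2 ∂lam3 :=
      integral_nonneg fun y => mul_nonneg (hK0 y) (sq_nonneg _)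
    have h5 : ∫ y, K y * (‖f y‖ - t) ^ 2 ∂lam3
        = ∫ y, (K y * ‖f y‖ ^ 2 - 2 * t * (K y * ‖f y‖)) + t ^ 2 * K y ∂lam3 := by
      refine integral_congr_ae (Eventually.of_forall fun y => ?_)
      simp only
      ring
    rw [h5, integral_add (f := fun y => K y * ‖f y‖ ^ 2 - 2 * t * (K y * ‖f y‖))
      (g := fun y => t ^ 2 * K y) (hf.sub (hB.const_mul _)) (hKi.const_mul _),
      integral_sub hf (hB.const_mul _), integral_const_mul, integral_const_mul, h1] at h4
    linarith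
  have h6 := pow_le_pow_left₀ (norm_nonneg _) h2 2
  linarith

/-- kernel average in one particle -/
private noncomputable def i1C (K : T3 → ℝ) (m : ι) (ψ : (ι → T3) → ℂ) (x : ι → T3) : ℂ :=
  ∫ y, (K (x m - y) : ℂ) * ψ (update x m y) ∂lam3

private lemma i1_asm {ψ : (ι → T3) → ℂ} (hψ : MemLp ψ 2 (piN ι)) (m : ι) :
    AEStronglyMeasurable (fun q : (ι → T3) × T3 => ψ (update q.1 m q.2))
      ((piN ι).prod lam3) :=
  hψ.1.comp_measurePreserving (mp_upd lam3 m)

private lemma i1_Kint {K : T3 → ℝ} (hK : BM K) (z : T3) :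
    Integrable (fun y => K (z - y)) lam3 :=
  (hK.comp (measurable_const.sub measurable_id)).integrable _

private lemma i1_K1 {K : T3 → ℝ} (h1 : ∫ y, K y ∂lam3 = 1) (z : T3) :
    ∫ y, K (z - y) ∂lam3 = 1 := by
  rw [integral_sub_left_eq_self (fun y => K y) lam3 z, h1]

private lemma i1_main {K : T3 → ℝ} (hK : BM K) (hK0 : ∀ y, 0 ≤ K y) (h1 : ∫ y, K y ∂lam3 = 1)
    {ψ : (ι → T3) → ℂ} (hψ : MemLp ψ 2 (piN ι)) (m : ι) :
    ∀ᵐ x ∂(piN ι), ‖i1C K m ψ x‖ ^ 2 ≤ ∫ y, K (x m - y) * ‖ψ (update x m y)‖ ^ 2 ∂lam3 := by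
  have h := (i1_int' hK (BM.const (1 : ℝ)) hψ m).prod_right_ae
  have h' := (i1_asm hψ m).prodMk_left
  filter_upwards [h, h'] with x hx hx'
  simp only [mul_one] at hx
  exact i1_cs (fun y => hK0 _) (i1_Kint hK _) (i1_K1 h1 _) hx hx'

private lemma i1_Casm {K : T3 → ℝ} (hK : BM K) {ψ : (ι → T3) → ℂ} (hψ : MemLp ψ 2 (piN ι))
    (m : ι) : AEStronglyMeasurable (i1C K m ψ) (piN ι) := by
  have h2 : AEStronglyMeasurable (fun q : (ι → T3) × T3 => ((K (q.1 m - q.2) : ℝ) : ℂ))
      ((piN ι).prod lam3) :=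
    (Complex.measurable_ofReal.comp (hK.meas.comp
      (((measurable_pi_apply m).comp measurable_fst).sub measurable_snd))).aestronglyMeasurable
  exact (h2.mul (i1_asm hψ m)).integral_prod_right'

private lemma i1_memLp {K : T3 → ℝ} (hK : BM K) (hK0 : ∀ y, 0 ≤ K y)
    (h1 : ∫ y, K y ∂lam3 = 1) {ψ : (ι → T3) → ℂ} (hψ : MemLp ψ 2 (piN ι)) (m : ι) :
    MemLp (i1C K m ψ) 2 (piN ι) := by
  have hm := i1_Casm hK hψ m
  rw [memLp_two_iff_integrable_sq_norm hm]
  have h := (i1_int' hK (BM.const (1 : ℝ)) hψ m).integral_prod_left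
  refine h.mono' (hm.norm.pow 2) ?_
  filter_upwards [i1_main hK hK0 h1 hψ m] with x hx
  rw [Real.norm_of_nonneg (sq_nonneg _)]
  simpa only [mul_one] using hx

private lemma i1_csP {K : T3 → ℝ} (hK : BM K) (hK0 : ∀ y, 0 ≤ K y)
    (h1 : ∫ y, K y ∂lam3 = 1) {ψ : (ι → T3) → ℂ} (hψ : MemLp ψ 2 (piN ι)) (m : ι)
    {P : (ι → T3) → ℝ} (hP : BM P) (hP0 : ∀ x, 0 ≤ P x) :
    ∫ x, ‖i1C K m ψ x‖ ^ 2 * P x ∂(piN ι)
      ≤ ∫ y, ∫ x, K (y - x m) * P (update x m y) * ‖ψ x‖ ^ 2 ∂(piN ι) ∂lam3 := by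
  have hI := i1_int' hK hP hψ m
  have e1 : ∫ y, ∫ x, K (y - x m) * P (update x m y) * ‖ψ x‖ ^ 2 ∂(piN ι) ∂lam3
      = ∫ x, ∫ y, K (x m - y) * P x * ‖ψ (update x m y)‖ ^ 2 ∂lam3 ∂(piN ι) := by
    rw [← integral_prod_symm _ (i1_int hK hP hψ m), ← integral_prod _ hI,
      ← mp_integral (mp_swap lam3 m) (i1_int hK hP hψ m).aestronglyMeasurable]
    refine integral_congr_ae (Eventually.of_forall fun q => ?_)
    simp only [update_self, update_idem, update_eq_self]
  rw [e1]
  obtain ⟨C, hC0, hC⟩ := hP.exists_nonneg_bound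
  refine integral_mono_ae ?_ hI.integral_prod_left ?_
  · have := ((i1_memLp hK hK0 h1 hψ m).integrable_norm_pow two_ne_zero).bdd_mul
      hP.meas.aestronglyMeasurable (Eventually.of_forall hC)
    refine this.congr (Eventually.of_forall fun x => ?_)
    simp only [ENNReal.toReal_ofNat]
    ring
  · filter_upwards [i1_main hK hK0 h1 hψ m] with x hx
    have h2 := mul_le_mul_of_nonneg_right hx (hP0 x)
    refine h2.trans (le_of_eq ?_)
    rw [← integral_mul_const]
    refine integral_congr_ae (Eventually.of_forall fun y => ?_)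
    simp only
    ring

private lemma i1_chN (k : ι → Fin 3 → ℤ) (m : ι) (x : ι → T3) (y : T3) :
    chN k (update x m y) = chN k x * ch (k m) (y - x m) := by
  have e : update x m y = x + Pi.single m (y - x m) := by
    ext1 i
    by_cases hi : i = m
    · subst hi
      simp
    · simp [hi]
  rw [e, chN_add_arg, chN_single]

private lemma i1_fc {K : T3 → ℝ} (hK : BM K) {ψ : (ι → T3) → ℂ} (hψ : MemLp ψ 2 (piN ι))
    (m : ι) (k : ι → Fin 3 → ℤ) :
    fc (i1C K m ψ) k = fc3 (fun x => (K x : ℂ)) (k m) * fc ψ k := by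
  have hcm : Measurable (fun x => conj (chN k x)) :=
    (Complex.continuous_conj.comp (chN_continuous k)).measurable
  have hG : Integrable (fun q : (ι → T3) × T3 =>
      (conj (chN k (update q.1 m q.2)) * (K (q.2 - q.1 m) : ℂ)) * ψ q.1)
      ((piN ι).prod lam3) := by
    have h0 : Integrable (fun q : (ι → T3) × T3 => ψ q.1) ((piN ι).prod lam3) :=
      (hψ.integrable one_le_two).comp_fst _
    obtain ⟨C, hC0, hC⟩ := hK.exists_nonneg_bound
    refine h0.bdd_mul (c := C) ?_ (Eventually.of_forall fun q => ?_)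
    · refine Measurable.aestronglyMeasurable ?_
      exact (hcm.comp (measurable_upd m)).mul (Complex.measurable_ofReal.comp
        (hK.meas.comp (measurable_snd.sub ((measurable_pi_apply m).comp measurable_fst))))
    · rw [norm_mul, RCLike.norm_conj, chN_norm, one_mul, Complex.norm_real]
      exact hC _
  have hG' := (mp_swap lam3 m).integrable_comp_of_integrable hG
  have e1 : fc (i1C K m ψ) k = ∫ q, (fun q : (ι → T3) × T3 =>
      (conj (chN k (update q.1 m q.2)) * (K (q.2 - q.1 m) : ℂ)) * ψ q.1)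
      (update q.1 m q.2, q.1 m) ∂((piN ι).prod lam3) := by
    refine Eq.trans ?_ (integral_prod _ hG').symm
    unfold fc
    refine integral_congr_ae (Eventually.of_forall fun x => ?_)
    simp only [i1C]
    rw [← integral_const_mul]
    refine integral_congr_ae (Eventually.of_forall fun y => ?_)
    simp only [comp_apply, update_self, update_idem, update_eq_self]
    ring
  rw [e1, mp_integral (mp_swap lam3 m) hG.aestronglyMeasurable, integral_prod _ hG]
  unfold fc
  rw [← integral_const_mul]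
  refine integral_congr_ae (Eventually.of_forall fun x => ?_)
  simp only [i1_chN]
  have e2 : ∀ y : T3, conj (chN k x * ch (k m) (y - x m)) * (K (y - x m) : ℂ) * ψ x
      = (conj (chN k x) * ψ x) * (fun z => conj (ch (k m) z) * (K z : ℂ)) (y - x m) := by
    intro y
    simp only [map_mul]
    ring
  simp_rw [e2]
  rw [integral_const_mul, integral_sub_right_eq_self
    (fun z => conj (ch (k m) z) * (K z : ℂ)) (x m)]
  unfold fc3
  ring

private lemma i1_sub {K : T3 → ℝ} (hK : BM K) (hK0 : ∀ y, 0 ≤ K y)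
    (h1 : ∫ y, K y ∂lam3 = 1) {ψ : (ι → T3) → ℂ} (hψ : MemLp ψ 2 (piN ι)) (m : ι)
    (hb : ∀ p, ‖1 - fc3 (fun x => (K x : ℂ)) p‖ ≤ 1) (h0 : fc3 (fun x => (K x : ℂ)) 0 = 1) :
    ∫ x, ‖ψ x - i1C K m ψ x‖ ^ 2 ∂(piN ι) ≤ nuQ (fc ψ) m := by
  have hC := i1_memLp hK hK0 h1 hψ m
  have hd : MemLp (fun x => ψ x - i1C K m ψ x) 2 (piN ι) := hψ.sub hC
  have h := parseval_sq hd
  have e : ∀ k, fc (fun x => ψ x - i1C K m ψ x) k
      = (1 - fc3 (fun x => (K x : ℂ)) (k m)) * fc ψ k := by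
    intro k
    have hi : ∀ {φ : (ι → T3) → ℂ}, MemLp φ 2 (piN ι) →
        Integrable (fun x => conj (chN k x) * φ x) (piN ι) := by
      intro φ hφ
      refine (hφ.integrable one_le_two).bdd_mul (c := 1)
        ((Complex.continuous_conj.comp (chN_continuous k)).measurable.aestronglyMeasurable)
        (Eventually.of_forall fun x => ?_)
      rw [RCLike.norm_conj, chN_norm]
    have e2 : fc (fun x => ψ x - i1C K m ψ x) k = fc ψ k - fc (i1C K m ψ) k := by
      unfold fc
      rw [← integral_sub (hi hψ) (hi hC)]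
      refine integral_congr_ae (Eventually.of_forall fun x => ?_)
      simp only
      ring
    rw [e2, i1_fc hK hψ]
    ring
  rw [← h.tsum_eq]
  unfold nuQ
  refine Summable.tsum_le_tsum (fun k => ?_) h.summable
    (ite_summable (parseval_sq hψ).summable (fun _ => sq_nonneg _) _)
  rw [e k]
  by_cases hk : k m = 0
  · simp [hk, h0]
  · rw [if_pos hk, norm_mul, mul_pow]
    have h2 := pow_le_pow_left₀ (norm_nonneg _) (hb (k m)) 2
    nlinarith [sq_nonneg ‖fc ψ k‖]

private lemma i1_fc3_one (p : Fin 3 → ℤ) :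
    fc3 (fun _ => ((1 : ℝ) : ℂ)) p = if p = 0 then 1 else 0 := by
  unfold fc3
  by_cases hp : p = 0
  · subst hp
    simp [ch_zero]
  · rw [if_neg hp]
    obtain ⟨s, hs⟩ := exists_ch_eq_neg_one hp
    have h := integral_add_right_eq_self (μ := lam3)
      (fun x => conj (ch p x) * ((1 : ℝ) : ℂ)) s
    have e : ∀ x : T3, conj (ch p (x + s)) * ((1 : ℝ) : ℂ)
        = - (conj (ch p x) * ((1 : ℝ) : ℂ)) := by
      intro x
      rw [ch_add_arg, hs]
      simp
    simp_rw [e] at h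
    rw [integral_neg] at h
    linear_combination (-1 / 2 : ℂ) * h

private lemma i1_avj (m : ι) (ψ : (ι → T3) → ℂ) : avj m ψ = i1C (fun _ => 1) m ψ := by
  ext x
  simp [avj, i1C]

private lemma i1_htj (s : ℝ) (m : ι) (ψ : (ι → T3) → ℂ) : htj s m ψ = i1C (hk s) m ψ := rfl

private lemma i1_hkBM {s : ℝ} (hs : 0 < s) : BM (hk s) := by
  refine ⟨(hkD_continuous 0 hs).measurable, hk s 0, fun x => ?_⟩
  rw [abs_of_nonneg (hk_nonneg s x)]
  exact hk_le_zero hs x

private lemma i1_one : ∫ _y : T3, (1 : ℝ) ∂lam3 = 1 := by simp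

theorem avj_memLp {ψ : (ι → T3) → ℂ} (hψ : MemLp ψ 2 (piN ι)) (m : ι) :
    MemLp (avj m ψ) 2 (piN ι) := by
  rw [i1_avj]
  exact i1_memLp (BM.const 1) (fun _ => zero_le_one) i1_one hψ m

theorem htj_memLp {ψ : (ι → T3) → ℂ} (hψ : MemLp ψ 2 (piN ι)) {s : ℝ} (hs : 0 < s) (m : ι) :
    MemLp (htj s m ψ) 2 (piN ι) := by
  rw [i1_htj]
  exact i1_memLp (i1_hkBM hs) (hk_nonneg s) (hk_integral hs) hψ m

theorem avj_sub {ψ : (ι → T3) → ℂ} (hψ : MemLp ψ 2 (piN ι)) (m : ι) :
    ∫ x, ‖ψ x - avj m ψ x‖ ^ 2 ∂(piN ι) ≤ nuQ (fc ψ) m := by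
  rw [i1_avj]
  refine i1_sub (BM.const 1) (fun _ => zero_le_one) i1_one hψ m (fun p => ?_) ?_
  · rw [i1_fc3_one]
    split_ifs <;> simp
  · rw [i1_fc3_one, if_pos rfl]

theorem htj_sub {ψ : (ι → T3) → ℂ} (hψ : MemLp ψ 2 (piN ι)) {s : ℝ} (hs : 0 < s) (m : ι) :
    ∫ x, ‖ψ x - htj s m ψ x‖ ^ 2 ∂(piN ι) ≤ nuQ (fc ψ) m := by
  rw [i1_htj]
  refine i1_sub (i1_hkBM hs) (hk_nonneg s) (hk_integral hs) hψ m (fun p => ?_) ?_
  · rw [fc3_hk hs, ← Complex.ofReal_one, ← Complex.ofReal_sub, Complex.norm_real,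
      Real.norm_eq_abs, abs_le]
    have h1 : 0 ≤ s * ksq p := by
      unfold ksq
      have := mom2_nonneg p
      positivity
    have h2 : Real.exp (-(s * ksq p)) ≤ 1 := Real.exp_le_one_iff.2 (by linarith)
    have h3 := Real.exp_pos (-(s * ksq p))
    constructor <;> linarith
  · rw [fc3_hk hs]
    simp [ksq, mom2_zero]

theorem avj_cs {ψ : (ι → T3) → ℂ} (hψ : MemLp ψ 2 (piN ι)) (m : ι) {P : (ι → T3) → ℝ}
    (hP : BM P) (hP0 : ∀ x, 0 ≤ P x) :
    ∫ x, ‖avj m ψ x‖ ^ 2 * P x ∂(piN ι)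
      ≤ ∫ y, ∫ x, P (update x m y) * ‖ψ x‖ ^ 2 ∂(piN ι) ∂lam3 := by
  have h := i1_csP (BM.const 1) (fun _ => zero_le_one) i1_one hψ m hP hP0
  rw [← i1_avj] at h
  simpa only [one_mul] using h

theorem htj_cs {ψ : (ι → T3) → ℂ} (hψ : MemLp ψ 2 (piN ι)) {s : ℝ} (hs : 0 < s) (m : ι)
    {P : (ι → T3) → ℝ} (hP : BM P) (hP0 : ∀ x, 0 ≤ P x) :
    ∫ x, ‖htj s m ψ x‖ ^ 2 * P x ∂(piN ι)
      ≤ ∫ y, ∫ x, hk s (y - x m) * P (update x m y) * ‖ψ x‖ ^ 2 ∂(piN ι) ∂lam3 := by
  exact i1_csP (i1_hkBM hs) (hk_nonneg s) (hk_integral hs) hψ m hP hP0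

end Pool.Agent.Lib.MP_4952d6_mp.LA

end

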