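import Pool.Agent.Lib.MP_4952d6_mp.Pk.G31
import Pool.Agent.Lib.MP_4952d6_mp.Pk.G33
import Pool.Agent.Lib.MP_4952d6_mp.Pk.G36
import Pool.Agent.Lib.MP_4952d6_mp.Pk.G37

/-! Merged modules (to save import time): LA.A4, LB.Ker. -/

/-! ### LA.A4 -/

section

/-!
# JOB LA-A4: energy of slices

`p i = (i ∈ S)`; for a.e. `x : {i // p i} → T3` the slice `y ↦ ψ (glue p x y)` has the gradient `g j.1 α (glue p x y)` (`HG.slice`) and vanishes on the cores
(two particles of the slice are two particles of `glue p x y`), so `E0_le_card` (`Fintype.card {i // i ∉ S} = Sᶜ.card`) gives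
`E0 * ∫⁻ ‖slice‖² ≤ eS 𝒱 univ slice`.  The sums over `{i // i ∉ S}` are sums over `Sᶜ` (`Finset.sum_subtype`), `potS 𝒱 univ` of the slice is `potS 𝒱 Sᶜ (glue p x y)`.
Multiply with `w (glue p x y)`, which does not depend on `y`, integrate over `x`; Tonelli with `mp_glue`
(`MeasurePreserving.lintegral_comp` needs measurable functions; for AE measurable functions use `lintegral_map'` / `lintegral_prod`).
-/

set_option autoImplicit false
set_option linter.unusedSectionVars false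
set_option linter.unusedVariables false
open MeasureTheory Function Filter Topology Set ComplexConjugate
open scoped ENNReal

namespace Pool.Agent.Lib.MP_4952d6_mp.LA

variable {ι : Type*} [Fintype ι] [DecidableEq ι]

theorem A4_glue_pos (p : ι → Prop) [DecidablePred p] (x : {i // p i} → T3) (y : {i // ¬ p i} → T3)
    {i : ι} (h : p i) : glue p x y i = x ⟨i, h⟩ := dif_pos h

theorem A4_glue_neg (p : ι → Prop) [DecidablePred p] (x : {i // p i} → T3) (y : {i // ¬ p i} → T3)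
    {i : ι} (h : ¬ p i) : glue p x y i = y ⟨i, h⟩ := dif_neg h

theorem A4_comp (p : ι → Prop) [DecidablePred p] {F : (ι → T3) → ℝ≥0∞} (hF : AEMeasurable F (piN ι)) :
    AEMeasurable (fun q : ({i // p i} → T3) × ({i // ¬ p i} → T3) => F (glue p q.1 q.2))
      ((piN {i // p i}).prod (piN {i // ¬ p i})) :=
  hF.comp_quasiMeasurePreserving (mp_glue p).quasiMeasurePreserving

theorem A4_lint (p : ι → Prop) [DecidablePred p] {F : (ι → T3) → ℝ≥0∞} (hF : AEMeasurable F (piN ι)) :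
    ∫⁻ x, F x ∂(piN ι) = ∫⁻ x, ∫⁻ y, F (glue p x y) ∂(piN {i // ¬ p i}) ∂(piN {i // p i}) := by
  have h1 : ∫⁻ x, F x ∂(piN ι) = ∫⁻ q : ({i // p i} → T3) × ({i // ¬ p i} → T3), F (glue p q.1 q.2)
      ∂((piN {i // p i}).prod (piN {i // ¬ p i})) := by
    have h2 := lintegral_map' (μ := (piN {i // p i}).prod (piN {i // ¬ p i})) (f := F)
      (g := fun q : ({i // p i} → T3) × ({i // ¬ p i} → T3) => glue p q.1 q.2)
      (by rw [(mp_glue p).map_eq]; exact hF) (mp_glue p).measurable.aemeasurable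
    rw [(mp_glue p).map_eq] at h2
    exact h2
  rw [h1, lintegral_prod _ (A4_comp p hF)]

theorem A4_aem (p : ι → Prop) [DecidablePred p] {F : (ι → T3) → ℝ≥0∞} (hF : AEMeasurable F (piN ι)) :
    AEMeasurable (fun x : {i // p i} → T3 => ∫⁻ y, F (glue p x y) ∂(piN {i // ¬ p i})) (piN {i // p i}) :=
  (A4_comp p hF).lintegral_prod_right'

theorem A4_ae (p : ι → Prop) [DecidablePred p] {F : (ι → T3) → ℝ≥0∞} (hF : AEMeasurable F (piN ι)) :
    ∀ᵐ x ∂(piN {i // p i}), AEMeasurable (fun y : {i // ¬ p i} → T3 => F (glue p x y)) (piN {i // ¬ p i}) := by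
  have h1 := (A4_comp p hF).aestronglyMeasurable.prodMk_left
  filter_upwards [h1] with x hx
  exact hx.aemeasurable

theorem A4_lintW (p : ι → Prop) [DecidablePred p] {w F : (ι → T3) → ℝ≥0∞} {W : ({i // p i} → T3) → ℝ≥0∞}
    (hW : ∀ x y, w (glue p x y) = W x) (hw : Measurable w) (hF : AEMeasurable F (piN ι)) :
    ∫⁻ x, w x * F x ∂(piN ι) =
      ∫⁻ x, W x * ∫⁻ y, F (glue p x y) ∂(piN {i // ¬ p i}) ∂(piN {i // p i}) := by
  have hm : AEMeasurable (fun x => w x * F x) (piN ι) := hw.aemeasurable.mul hF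
  rw [A4_lint p hm]
  refine lintegral_congr_ae ?_
  filter_upwards [A4_ae p hF] with x hx
  rw [← lintegral_const_mul'' _ hx]
  refine lintegral_congr fun y => ?_
  rw [hW]

theorem A4_erase {κ : Type*} [DecidableEq κ] (S : Finset κ) (f : κ → κ → ℝ≥0∞) :
    ∑ i ∈ S, ∑ j ∈ S.erase i, f i j = ∑ i ∈ S, ∑ j ∈ S, if j = i then 0 else f i j := by
  refine Finset.sum_congr rfl fun i _ => ?_
  rw [← Finset.sum_erase (s := S) (f := fun j => if j = i then 0 else f i j) (a := i) (by simp)]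
  refine Finset.sum_congr rfl fun j hj => ?_
  rw [if_neg (Finset.ne_of_mem_erase hj)]

theorem A4_potS (p : ι → Prop) [DecidablePred p] (𝒱 : T3 → ℝ≥0∞) {S : Finset ι}
    (hS : ∀ i, i ∈ S ↔ ¬ p i) (x : {i // p i} → T3) (y : {i // ¬ p i} → T3) :
    potS 𝒱 S (glue p x y) = potS 𝒱 Finset.univ y := by
  unfold potS
  congr 1
  rw [A4_erase, A4_erase, Finset.sum_subtype S hS]
  refine Finset.sum_congr rfl fun i _ => ?_
  rw [Finset.sum_subtype S hS]
  refine Finset.sum_congr rfl fun j _ => ?_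
  rw [A4_glue_neg p x y i.2, A4_glue_neg p x y j.2]
  simp only [Subtype.ext_iff]

theorem A4_main (p : ι → Prop) [DecidablePred p] {R₀ : ℝ} {𝒱 : T3 → ℝ≥0∞} (hv : AEMeasurable 𝒱 lam3)
    (hev : ∀ y, 𝒱 (-y) = 𝒱 y) {S : Finset ι} (hS : ∀ i, i ∈ S ↔ ¬ p i)
    {w : (ι → T3) → ℝ≥0∞} (hw : Measurable w)
    {W : ({i // p i} → T3) → ℝ≥0∞} (hW : ∀ x y, w (glue p x y) = W x) (hWm : Measurable W)
    {ψ : (ι → T3) → ℂ} {g : ι → Fin 3 → (ι → T3) → ℂ} (h : HG ψ g) (hc : Core R₀ ψ) :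
    E0 R₀ 𝒱 S.card * ∫⁻ x, w x * ‖ψ x‖ₑ ^ 2 ∂(piN ι) ≤ eW 𝒱 S w ψ g := by
  have hψm : AEMeasurable (fun x => ‖ψ x‖ₑ ^ 2) (piN ι) :=
    h.mem.aestronglyMeasurable.enorm.pow_const 2
  have hgm : ∀ i α, AEMeasurable (fun x => ‖g i α x‖ₑ ^ 2) (piN ι) := fun i α =>
    (h.gmem i α).aestronglyMeasurable.enorm.pow_const 2
  have hpm : AEMeasurable (fun x => potS 𝒱 S x * ‖ψ x‖ₑ ^ 2) (piN ι) := (aem_potS hv S).mul hψm
  have hcard : Fintype.card {i // ¬ p i} = S.card := Fintype.card_of_subtype S hS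
  have hslice : ∀ᵐ x ∂(piN {i // p i}),
      E0 R₀ 𝒱 S.card * (W x * ∫⁻ y, ‖ψ (glue p x y)‖ₑ ^ 2 ∂(piN {i // ¬ p i})) ≤
        (∑ i ∈ S, ∑ α, W x * ∫⁻ y, ‖g i α (glue p x y)‖ₑ ^ 2 ∂(piN {i // ¬ p i})) +
          W x * ∫⁻ y, potS 𝒱 S (glue p x y) * ‖ψ (glue p x y)‖ₑ ^ 2 ∂(piN {i // ¬ p i}) := by
    filter_upwards [h.slice p] with x hx
    have h1 := E0_le_card (R₀ := R₀) hev hcard hx (by
      intro y i j hij hy
      refine hc (glue p x y) i.1 j.1 (fun h => hij (Subtype.ext h)) ?_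
      rw [A4_glue_neg p x y i.2, A4_glue_neg p x y j.2]
      exact hy)
    have h2 : W x * eS 𝒱 Finset.univ (fun y : {i // ¬ p i} → T3 => ψ (glue p x y))
        (fun j α y => g j.1 α (glue p x y)) =
        (∑ i ∈ S, ∑ α, W x * ∫⁻ y, ‖g i α (glue p x y)‖ₑ ^ 2 ∂(piN {i // ¬ p i})) +
          W x * ∫⁻ y, potS 𝒱 S (glue p x y) * ‖ψ (glue p x y)‖ₑ ^ 2 ∂(piN {i // ¬ p i}) := by
      unfold eS
      rw [mul_add]
      congr 1
      · rw [Finset.sum_subtype S hS, Finset.mul_sum]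
        refine Finset.sum_congr rfl fun i _ => ?_
        rw [Finset.mul_sum]
      · congr 1
        refine lintegral_congr fun y => ?_
        rw [A4_potS p 𝒱 hS]
    rw [← h2, mul_left_comm]
    gcongr
  have hWF : ∀ {F : (ι → T3) → ℝ≥0∞}, AEMeasurable F (piN ι) →
      AEMeasurable (fun x => W x * ∫⁻ y, F (glue p x y) ∂(piN {i // ¬ p i})) (piN {i // p i}) :=
    fun hF => hWm.aemeasurable.mul (A4_aem p hF)
  calc E0 R₀ 𝒱 S.card * ∫⁻ x, w x * ‖ψ x‖ₑ ^ 2 ∂(piN ι)
      = E0 R₀ 𝒱 S.card * ∫⁻ x, W x * ∫⁻ y, ‖ψ (glue p x y)‖ₑ ^ 2 ∂(piN {i // ¬ p i}) ∂(piN {i // p i}) := by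
        rw [A4_lintW p hW hw hψm]
    _ ≤ ∫⁻ x, E0 R₀ 𝒱 S.card * (W x * ∫⁻ y, ‖ψ (glue p x y)‖ₑ ^ 2 ∂(piN {i // ¬ p i})) ∂(piN {i // p i}) :=
        lintegral_const_mul_le _ _
    _ ≤ ∫⁻ x, ((∑ i ∈ S, ∑ α, W x * ∫⁻ y, ‖g i α (glue p x y)‖ₑ ^ 2 ∂(piN {i // ¬ p i})) +
          W x * ∫⁻ y, potS 𝒱 S (glue p x y) * ‖ψ (glue p x y)‖ₑ ^ 2 ∂(piN {i // ¬ p i})) ∂(piN {i // p i}) :=
        lintegral_mono_ae hslice
    _ = eW 𝒱 S w ψ g := by
        unfold eW
        rw [lintegral_add_right' _ (hWF hpm), A4_lintW p hW hw hpm]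
        congr 1
        rw [lintegral_finsetSum' _ (fun i _ => Finset.aemeasurable_fun_sum _ fun α _ => hWF (hgm i α))]
        refine Finset.sum_congr rfl fun i _ => ?_
        rw [lintegral_finsetSum' _ (fun α _ => hWF (hgm i α))]
        refine Finset.sum_congr rfl fun α _ => ?_
        rw [A4_lintW p hW hw (hgm i α)]

theorem slice_energy {R₀ : ℝ} {𝒱 : T3 → ℝ≥0∞} (hv : AEMeasurable 𝒱 lam3) (hev : ∀ y, 𝒱 (-y) = 𝒱 y)
    {S : Finset ι} {w : (ι → T3) → ℝ≥0∞} (hw : Measurable w)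
    (hdep : ∀ x y : ι → T3, (∀ i ∈ S, x i = y i) → w x = w y)
    {ψ : (ι → T3) → ℂ} {g : ι → Fin 3 → (ι → T3) → ℂ} (h : HG ψ g) (hc : Core R₀ ψ) :
    E0 R₀ 𝒱 Sᶜ.card * ∫⁻ x, w x * ‖ψ x‖ₑ ^ 2 ∂(piN ι) ≤ eW 𝒱 Sᶜ w ψ g := by
  refine A4_main (fun i => i ∈ S) hv hev (fun i => Finset.mem_compl) hw
    (W := fun x => w (glue (fun i => i ∈ S) x (fun _ => 0))) (fun x y => hdep _ _ ?_) ?_ h hc
  · intro i hi
    rw [A4_glue_pos (fun i => i ∈ S) _ _ hi, A4_glue_pos (fun i => i ∈ S) _ _ hi]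
  · have h1 : Measurable (fun q : ({i // i ∈ S} → T3) × ({i // ¬ i ∈ S} → T3) =>
        glue (fun i => i ∈ S) q.1 q.2) := (mp_glue (fun i => i ∈ S)).measurable
    have h2 : Measurable (fun x : {i // i ∈ S} → T3 => (x, (fun _ => 0 : {i // ¬ i ∈ S} → T3))) :=
      measurable_id.prodMk measurable_const
    exact hw.comp (h1.comp h2)

end Pool.Agent.Lib.MP_4952d6_mp.LA

end

/-! ### LB.Ker -/

section

/-!
# LB.Ker: multipliers as convolutions, Jensen, the pair kernel bound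

Throughout `w : T3 → ℝ` is bounded measurable with Fourier coefficients `φ p` (real).

`S1_ker`: for `f ∈ L²` the function `g x = ∫ w(x_j - y) f(update x j y) dy` is measurable, in `L²`
(`|g|² ≤ (sup w)² ∫|f(update x j y)|² dy`, `integral_upd`) and `fc g k = φ (k j) fc f k`: Fubini and
`integral_swj`: `∫∫ conj(chN k x) w(x_j - y) f(update x j y) = ∫∫ conj(chN k (update x j y)) w(y - x_j) f(x)`,
and `chN k (update x j y) = chN k x · ch (k j) (y - x_j)`, `∫ conj(ch p (y - x_j)) w(y - x_j) dy = fc3 w p`.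
Then `ae_eq_of_fc`.

`jensen_S1`: `|g(x)|² ≤ (∫w) ∫ w(x_j - y)|f(update x j y)|² dy` (Cauchy-Schwarz, `w ≥ 0`), multiply by `G`,
integrate, `integral_swj` and `w` even: `∫∫ G(x) w(x_j-y)|f(update x j y)|² = ∫ (cvj w j G)(x) |f(x)|²`.

`pair_ker`: the inner product is
`∫∫ h(x_j-x_l) w(x_j-y) h(y-x_m) conj(A(x)) B(update x j y) dy dx` (`m ≠ j`, `l ≠ j`: the other coordinates
are not changed), `|A||B| ≤ (|A|²+|B|²)/2`; in the first term `∫ w(x_j-y)h(y-x_m)dy = cn w h (x_j-x_m)`; in the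
second use `integral_swj`. `l = m` is allowed.

`norm_S1_HP_le`: `(S1 φ l (h_{jl} f))(x) = ∫ w(x_l-z) h(x_j-z) f(update x l z) dz`, so its square is at most
`∫ w(x_l-z)² h(x_j-z) dz · ∫ h(x_j-z)|f(update x l z)|² dz`; the second factor does not depend on `x_l`;
integrating the first over `x_l` gives `(∫w²)(∫h)`.
-/

set_option autoImplicit false
set_option linter.unusedSectionVars false
set_option linter.unusedVariables false
open MeasureTheory Function Filter Topology Set ComplexConjugate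

namespace Pool.Agent.Lib.MP_4952d6_mp.LB

variable {ι : Type*} [Fintype ι] [DecidableEq ι]

lemma Ker_cs {a b : T3 → ℝ} (ha : BM a) (hb : BM b) (hb0 : ∀ z, 0 ≤ b z) {u : T3 → ℂ}
    (hu : StronglyMeasurable u) (hu2 : Integrable (fun y => ‖u y‖ ^ 2) lam3) :
    ‖∫ y, ((a y * b y : ℝ) : ℂ) * u y ∂lam3‖ ^ 2
      ≤ (∫ y, a y ^ 2 * b y ∂lam3) * ∫ y, b y * ‖u y‖ ^ 2 ∂lam3 := by
  have hu1 : Integrable (fun y => ‖u y‖) lam3 :=
    (((memLp_two_iff_integrable_sq_norm hu.aestronglyMeasurable).2 hu2).integrable one_le_two).norm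
  have i1 : Integrable (fun y => b y * ‖u y‖ ^ 2) lam3 := by
    obtain ⟨C, hC⟩ := hb.2
    exact hu2.bdd_mul hb.1.aestronglyMeasurable (Eventually.of_forall hC)
  have i2 : Integrable (fun y => (b y * |a y|) * ‖u y‖) lam3 := by
    have h := hb.mul ha.abs
    obtain ⟨C, hC⟩ := h.2
    exact hu1.bdd_mul h.1.aestronglyMeasurable (Eventually.of_forall hC)
  have i3 : Integrable (fun y => a y ^ 2 * b y) lam3 := ((ha.pow 2).mul hb).integrable _
  have h1 : (∫ y, (b y * |a y|) * ‖u y‖ ∂lam3) ^ 2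
      ≤ (∫ y, a y ^ 2 * b y ∂lam3) * ∫ y, b y * ‖u y‖ ^ 2 ∂lam3 := by
    apply cs_of_quadratic
    intro s
    have h2 : 0 ≤ ∫ y, b y * (|a y| - s * ‖u y‖) ^ 2 ∂lam3 :=
      integral_nonneg fun y => mul_nonneg (hb0 y) (sq_nonneg _)
    have h3 : ∫ y, b y * (|a y| - s * ‖u y‖) ^ 2 ∂lam3 = ∫ y, a y ^ 2 * b y ∂lam3
        - 2 * s * ∫ y, (b y * |a y|) * ‖u y‖ ∂lam3 + s ^ 2 * ∫ y, b y * ‖u y‖ ^ 2 ∂lam3 := by
      have i4 : Integrable (fun y => a y ^ 2 * b y - 2 * s * ((b y * |a y|) * ‖u y‖)) lam3 :=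
        i3.sub (i2.const_mul _)
      rw [← integral_const_mul, ← integral_const_mul, ← integral_sub i3 (i2.const_mul _),
        ← integral_add i4 (i1.const_mul _)]
      refine integral_congr_ae (Eventually.of_forall fun y => ?_)
      simp only
      rw [← sq_abs (a y)]
      ring
    linarith
  refine le_trans (pow_le_pow_left₀ (norm_nonneg _) ?_ 2) h1
  refine (norm_integral_le_integral_norm _).trans (le_of_eq ?_)
  refine integral_congr_ae (Eventually.of_forall fun y => ?_)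
  simp only
  rw [norm_mul, Complex.norm_real, Real.norm_eq_abs, abs_mul, abs_of_nonneg (hb0 y)]
  ring

lemma Ker_int {𝕜 : Type*} [RCLike 𝕜] {K : (ι → T3) × T3 → 𝕜} (hK : StronglyMeasurable K)
    {C : ℝ} (hC : ∀ q, ‖K q‖ ≤ C) (j : ι) {u : (ι → T3) → 𝕜} (hu : Integrable u (piN ι)) :
    Integrable (fun q : (ι → T3) × T3 => K q * u (update q.1 j q.2)) ((piN ι).prod lam3) := by
  have h1 : Integrable (fun q : (ι → T3) × T3 => u (update q.1 j q.2)) ((piN ι).prod lam3) :=
    (mp_upd j).integrable_comp_of_integrable hu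
  exact h1.bdd_mul hK.aestronglyMeasurable (Eventually.of_forall hC)

lemma Ker_swap {𝕜 : Type*} [RCLike 𝕜] {K : (ι → T3) × T3 → 𝕜} (hK : StronglyMeasurable K)
    {C : ℝ} (hC : ∀ q, ‖K q‖ ≤ C) (j : ι) {u : (ι → T3) → 𝕜} (hu : Integrable u (piN ι)) :
    ∫ x, ∫ y, K (x, y) * u (update x j y) ∂lam3 ∂(piN ι)
      = ∫ x, (∫ y, K (update x j y, x j) ∂lam3) * u x ∂(piN ι) := by
  have h1 := Ker_int hK hC j hu
  have h2 : (fun q : (ι → T3) × T3 => K (swj j q) * u (update (swj j q).1 j (swj j q).2))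
      = fun q => K (update q.1 j q.2, q.1 j) * u q.1 := by
    funext q
    simp [swj]
  have h3 : Integrable (fun q : (ι → T3) × T3 => K (update q.1 j q.2, q.1 j) * u q.1)
      ((piN ι).prod lam3) := by
    rw [← h2]
    exact (mp_swj (ι := ι) j).integrable_comp_of_integrable h1
  have h4 := integral_swj j h1.aestronglyMeasurable
  rw [h2, integral_prod _ h1, integral_prod _ h3] at h4
  rw [← h4]
  refine integral_congr_ae (Eventually.of_forall fun x => ?_)
  simp only
  rw [integral_mul_const]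

lemma Ker_sec (f : HS ι) (j : ι) :
    ∀ᵐ x ∂(piN ι), Integrable (fun y => ‖f (update x j y)‖ ^ 2) lam3 := by
  have h1 : Integrable (fun q : (ι → T3) × T3 => ‖f (update q.1 j q.2)‖ ^ 2) ((piN ι).prod lam3) :=
    (mp_upd j).integrable_comp_of_integrable (integrable_norm_sq f)
  exact h1.prod_right_ae

lemma Ker_sec_sm (f : HS ι) (j : ι) (x : ι → T3) :
    StronglyMeasurable (fun y => f (update x j y)) :=
  (Lp.stronglyMeasurable f).comp_measurable ((measurable_upd j).comp measurable_prodMk_left)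

lemma Ker_cvc_sm {w : T3 → ℝ} (hw : BM w) (j : ι) {F : (ι → T3) → ℂ} (hF : StronglyMeasurable F) :
    StronglyMeasurable (cvc w j F) := by
  have h : StronglyMeasurable (fun q : (ι → T3) × T3 =>
      ((w (q.1 j - q.2) : ℝ) : ℂ) * F (update q.1 j q.2)) := by
    refine StronglyMeasurable.mul ?_ (hF.comp_measurable (measurable_upd j))
    exact (Complex.measurable_ofReal.comp (hw.1.comp
      (measurable_sub' ((measurable_pi_apply j).comp measurable_fst)
        measurable_snd))).stronglyMeasurable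
  exact h.integral_prod_right'

lemma Ker_cvc_memLp {w : T3 → ℝ} (hw : BM w) (j : ι) (f : HS ι) :
    MemLp (cvc w j (f : (ι → T3) → ℂ)) 2 (piN ι) := by
  have hsm := Ker_cvc_sm hw j (Lp.stronglyMeasurable f)
  rw [memLp_two_iff_integrable_sq_norm hsm.aestronglyMeasurable]
  obtain ⟨C, hC0, hC⟩ := hw.exists_nonneg_bound
  have h1 : Integrable (fun q : (ι → T3) × T3 => ‖f (update q.1 j q.2)‖ ^ 2) ((piN ι).prod lam3) :=
    (mp_upd j).integrable_comp_of_integrable (integrable_norm_sq f)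
  have h2 := h1.integral_prod_left.const_mul (C ^ 2)
  refine h2.mono' (hsm.norm.pow 2).aestronglyMeasurable ?_
  filter_upwards [Ker_sec f j] with x hx
  rw [Real.norm_of_nonneg (sq_nonneg _)]
  have hwx : BM (fun y => w (x j - y)) := hw.comp (measurable_sub' measurable_const measurable_id)
  have h3 := Ker_cs hwx (BM.const 1) (fun _ => zero_le_one) (Ker_sec_sm f j x) hx
  simp only [mul_one, one_mul] at h3
  refine h3.trans (mul_le_mul_of_nonneg_right ?_ (integral_nonneg fun y => sq_nonneg _))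
  have h4 : ∫ y, w (x j - y) ^ 2 ∂lam3 ≤ ∫ y : T3, C ^ 2 ∂lam3 := by
    refine integral_mono ((hwx.pow 2).integrable _) (integrable_const _) fun y => ?_
    exact sq_le_sq' (by linarith [(abs_le.1 (hC (x j - y))).1]) (abs_le.1 (hC (x j - y))).2
  simpa using h4

lemma Ker_chN_update (k : ι → Fin 3 → ℤ) (j : ι) (x : ι → T3) (y : T3) :
    chN k (update x j y) = chN k x * ch (k j) (y - x j) := by
  have h : update x j y = x + Pi.single j (y - x j) := by
    funext i
    by_cases hi : i = j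
    · subst hi
      simp
    · rw [update_of_ne hi, Pi.add_apply, Pi.single_eq_of_ne hi, add_zero]
  rw [h, chN_add_arg, chN_single]

lemma Ker_cvc_congr {w : T3 → ℝ} (j : ι) {F F' : (ι → T3) → ℂ} (h : F =ᵐ[piN ι] F') :
    cvc w j F =ᵐ[piN ι] cvc w j F' := by
  have h1 : ∀ᵐ q : (ι → T3) × T3 ∂((piN ι).prod lam3), F (update q.1 j q.2) = F' (update q.1 j q.2) :=
    (mp_upd (ι := ι) j).quasiMeasurePreserving.ae h
  have h2 := Measure.ae_ae_of_ae_prod h1
  filter_upwards [h2] with x hx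
  unfold cvc
  refine integral_congr_ae ?_
  filter_upwards [hx] with y hy
  rw [hy]

lemma Ker_cn_integral {w h : T3 → ℝ} (hw : BM w) (hh : BM h) :
    ∫ z, ∫ y, w (z - y) * h y ∂lam3 ∂lam3 = (∫ y, w y ∂lam3) * ∫ y, h y ∂lam3 := by
  have h1 : Integrable (uncurry fun z y : T3 => w (z - y) * h y) (lam3.prod lam3) := by
    have h2 : BM (fun q : T3 × T3 => w (q.1 - q.2) * h q.2) :=
      (hw.comp measurable_sub_fst_snd).mul (hh.comp measurable_snd)
    exact h2.integrable _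
  rw [integral_integral_swap h1, ← integral_const_mul]
  refine integral_congr_ae (Eventually.of_forall fun y => ?_)
  simp only
  rw [integral_mul_const, int_sub_right]

lemma Ker_abs_inner_le (F G : HS ι) {g : (ι → T3) → ℝ} (hg : Integrable g (piN ι))
    (h : ∀ᵐ x ∂(piN ι), ‖F x‖ * ‖G x‖ ≤ g x) : |(inner ℂ F G).re| ≤ ∫ x, g x ∂(piN ι) := by
  refine (Complex.abs_re_le_norm _).trans ?_
  rw [L2.inner_def]
  refine (norm_integral_le_integral_norm _).trans ?_
  refine integral_mono_of_nonneg (Eventually.of_forall fun x => norm_nonneg _) hg ?_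
  filter_upwards [h] with x hx
  exact (norm_inner_le_norm _ _).trans hx

lemma Ker_HP_ae {h : T3 → ℝ} (hh : BM h) (j l : ι) (f : HS ι) :
    (HP h j l f : (ι → T3) → ℂ) =ᵐ[piN ι] fun x => ((h (x j - x l) : ℝ) : ℂ) * f x :=
  MB_ae (bmc_of_bm (bm_diff hh j l)) f

lemma cvj_bm {w : T3 → ℝ} (hw : BM w) (j : ι) {G : (ι → T3) → ℝ} (hG : BM G) :
    BM (cvj w j G) := by
  have h1 : BM (uncurry fun (x : ι → T3) (y : T3) => w (x j - y) * G (update x j y)) := by
    have h2 : BM (fun q : (ι → T3) × T3 => w (q.1 j - q.2) * G (update q.1 j q.2)) :=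
      (hw.comp (measurable_sub' ((measurable_pi_apply j).comp measurable_fst)
        measurable_snd)).mul (hG.comp (measurable_upd j))
    exact h2
  exact h1.integral_right lam3

lemma cvj_nonneg {w : T3 → ℝ} (hw : ∀ z, 0 ≤ w z) (j : ι) {G : (ι → T3) → ℝ}
    (hG : ∀ x, 0 ≤ G x) (x : ι → T3) : 0 ≤ cvj w j G x := by
  exact integral_nonneg fun y => mul_nonneg (hw _) (hG _)

lemma cn_bm {w h : T3 → ℝ} (hw : BM w) (hh : BM h) : BM (cn w h) := by
  have h1 : BM (uncurry fun (x : T3) (y : T3) => w (x - y) * h y) := by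
    have h2 : BM (fun q : T3 × T3 => w (q.1 - q.2) * h q.2) :=
      (hw.comp measurable_sub_fst_snd).mul (hh.comp measurable_snd)
    exact h2
  exact h1.integral_right lam3

theorem S1_ker {w : T3 → ℝ} (hw : BM w) {φ : (Fin 3 → ℤ) → ℝ} (hφ : Bdm φ)
    (h : ∀ p, fc3 (fun y => (w y : ℂ)) p = ((φ p : ℝ) : ℂ)) (j : ι) (f : HS ι) :
    (S1 φ j f : (ι → T3) → ℂ) =ᵐ[piN ι] cvc w j (f : (ι → T3) → ℂ) := by
  refine ae_eq_of_fc (Ker_cvc_memLp hw j f) fun k => ?_
  rw [cf_S1 hφ]
  obtain ⟨C, hC0, hC⟩ := hw.exists_nonneg_bound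
  have hf1 : Integrable (f : (ι → T3) → ℂ) (piN ι) := (Lp.memLp f).integrable one_le_two
  have hK : StronglyMeasurable (fun q : (ι → T3) × T3 =>
      conj (chN k q.1) * ((w (q.1 j - q.2) : ℝ) : ℂ)) := by
    refine StronglyMeasurable.mul ?_ ?_
    · exact Complex.continuous_conj.comp_stronglyMeasurable
        ((chN_sm k).comp_measurable measurable_fst)
    · exact (Complex.measurable_ofReal.comp (hw.1.comp
        (measurable_sub' ((measurable_pi_apply j).comp measurable_fst)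
          measurable_snd))).stronglyMeasurable
  have hKC : ∀ q : (ι → T3) × T3, ‖conj (chN k q.1) * ((w (q.1 j - q.2) : ℝ) : ℂ)‖ ≤ C := by
    intro q
    rw [norm_mul, RCLike.norm_conj, chN_norm, one_mul, Complex.norm_real]
    exact hC _
  have h1 := Ker_swap hK hKC j hf1
  have h2 : fc (cvc w j (f : (ι → T3) → ℂ)) k = ∫ x, ∫ y, (conj (chN k x) * ((w (x j - y) : ℝ) : ℂ))
      * f (update x j y) ∂lam3 ∂(piN ι) := by
    unfold fc cvc
    refine integral_congr_ae (Eventually.of_forall fun x => ?_)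
    simp only
    rw [← integral_const_mul]
    refine integral_congr_ae (Eventually.of_forall fun y => ?_)
    simp only
    ring
  rw [h2, h1, cf, fc, ← integral_const_mul]
  refine integral_congr_ae (Eventually.of_forall fun x => ?_)
  simp only
  have h3 : ∫ y, conj (chN k (update x j y)) * ((w (update x j y j - x j) : ℝ) : ℂ) ∂lam3
      = ((φ (k j) : ℝ) : ℂ) * conj (chN k x) := by
    rw [← h (k j), fc3, ← integral_mul_const,
      ← int_sub_right (fun y => conj (ch (k j) y) * ((w y : ℝ) : ℂ) * conj (chN k x)) (x j)]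
    refine integral_congr_ae (Eventually.of_forall fun y => ?_)
    simp only
    rw [update_self, Ker_chN_update, map_mul]
    ring
  rw [h3]
  ring

theorem jensen_S1 {w : T3 → ℝ} (hw : BM w) (hw0 : ∀ z, 0 ≤ w z) (hwe : ∀ z, w (-z) = w z)
    {φ : (Fin 3 → ℤ) → ℝ} (hφ : Bdm φ)
    (h : ∀ p, fc3 (fun y => (w y : ℂ)) p = ((φ p : ℝ) : ℂ)) (j : ι) {G : (ι → T3) → ℝ}
    (hG : BM G) (hG0 : ∀ x, 0 ≤ G x) (f : HS ι) :
    qf G (S1 φ j f) ≤ (∫ y, w y ∂lam3) * qf (cvj w j G) f := by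
  have hae := S1_ker hw hφ h j f
  have hK : BM (fun q : (ι → T3) × T3 => G q.1 * w (q.1 j - q.2)) :=
    (hG.comp measurable_fst).mul (hw.comp (measurable_sub' ((measurable_pi_apply j).comp measurable_fst)
      measurable_snd))
  obtain ⟨C, hC⟩ := hK.2
  have hKi := Ker_int hK.1.stronglyMeasurable hC j (integrable_norm_sq f)
  have hKs := Ker_swap hK.1.stronglyMeasurable hC j (integrable_norm_sq f)
  have h1 : qf G (S1 φ j f) ≤ ∫ x, (∫ y, w y ∂lam3) *
      ∫ y, (G x * w (x j - y)) * ‖f (update x j y)‖ ^ 2 ∂lam3 ∂(piN ι) := by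
    refine integral_mono_of_nonneg
      (Eventually.of_forall fun x => mul_nonneg (hG0 x) (sq_nonneg _))
      (hKi.integral_prod_left.const_mul _) ?_
    filter_upwards [hae, Ker_sec f j] with x hx hx2
    rw [hx]
    have hwx : BM (fun y => w (x j - y)) := hw.comp (measurable_sub' measurable_const measurable_id)
    have h3 := Ker_cs (BM.const 1) hwx (fun _ => hw0 _) (Ker_sec_sm f j x) hx2
    simp only [one_pow, one_mul] at h3
    have h4 : (∫ y, w (x j - y) ∂lam3) = ∫ y, w y ∂lam3 := int_sub_left w (x j)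
    rw [h4] at h3
    have h5 : ∫ y, (G x * w (x j - y)) * ‖f (update x j y)‖ ^ 2 ∂lam3
        = G x * ∫ y, w (x j - y) * ‖f (update x j y)‖ ^ 2 ∂lam3 := by
      rw [← integral_const_mul]
      refine integral_congr_ae (Eventually.of_forall fun y => ?_)
      simp only
      ring
    rw [h5]
    calc G x * ‖cvc w j (f : (ι → T3) → ℂ) x‖ ^ 2
        ≤ G x * ((∫ y, w y ∂lam3) * ∫ y, w (x j - y) * ‖f (update x j y)‖ ^ 2 ∂lam3) :=
          mul_le_mul_of_nonneg_left h3 (hG0 x)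
      _ = _ := by ring
  refine h1.trans (le_of_eq ?_)
  rw [integral_const_mul, hKs, qf]
  congr 1
  refine integral_congr_ae (Eventually.of_forall fun x => ?_)
  simp only
  congr 1
  unfold cvj
  refine integral_congr_ae (Eventually.of_forall fun y => ?_)
  simp only
  rw [update_self, ← hwe (y - x j), neg_sub]
  ring

theorem pair_ker {w : T3 → ℝ} (hw : BM w) (hw0 : ∀ z, 0 ≤ w z) (hwe : ∀ z, w (-z) = w z)
    {φ : (Fin 3 → ℤ) → ℝ} (hφ : Bdm φ)
    (hφw : ∀ p, fc3 (fun y => (w y : ℂ)) p = ((φ p : ℝ) : ℂ)) {h : T3 → ℝ} (hh : BM h)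
    (hh0 : ∀ z, 0 ≤ h z) (hhe : ∀ z, h (-z) = h z) {j l m : ι} (hjl : j ≠ l) (hjm : j ≠ m)
    (A B : HS ι) :
    |(inner ℂ (HP h j l A) (S1 φ j (HP h j m B))).re|
      ≤ 1 / 2 * qf (fun x => h (x j - x l) * cn w h (x j - x m)) A
        + 1 / 2 * qf (fun x => h (x j - x m) * cn w h (x j - x l)) B := by
  have hmj := hjm.symm
  have hlj := hjl.symm
  have hmx : ∀ i : ι, Measurable (fun q : (ι → T3) × T3 => q.1 i) := fun i =>
    (measurable_pi_apply i).comp measurable_fst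
  have hK : BM (fun q : (ι → T3) × T3 => h (q.1 j - q.1 l) * (w (q.1 j - q.2) * h (q.2 - q.1 m))) :=
    (hh.comp (measurable_sub' (hmx j) (hmx l))).mul
      ((hw.comp (measurable_sub' (hmx j) measurable_snd)).mul
        (hh.comp (measurable_sub' measurable_snd (hmx m))))
  obtain ⟨C, hC⟩ := hK.2
  have hK0 : ∀ q : (ι → T3) × T3, 0 ≤ h (q.1 j - q.1 l) * (w (q.1 j - q.2) * h (q.2 - q.1 m)) :=
    fun q => mul_nonneg (hh0 _) (mul_nonneg (hw0 _) (hh0 _))
  have hKi := Ker_int hK.1.stronglyMeasurable hC j (integrable_norm_sq B)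
  have hKs := Ker_swap hK.1.stronglyMeasurable hC j (integrable_norm_sq B)
  have hcn : ∀ a b : T3, ∫ y, w (a - y) * h (y - b) ∂lam3 = cn w h (a - b) := by
    intro a b
    unfold cn
    rw [← int_sub_right (fun y => w (a - b - y) * h y) b]
    refine integral_congr_ae (Eventually.of_forall fun y => ?_)
    simp only
    rw [show a - b - (y - b) = a - y by abel]
  have hB1 : BM (fun x : ι → T3 => h (x j - x l) * cn w h (x j - x m)) :=
    (bm_diff hh j l).mul (bm_diff (cn_bm hw hh) j m)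
  have hint : Integrable (fun x => 1 / 2 * ((h (x j - x l) * cn w h (x j - x m)) * ‖A x‖ ^ 2)
      + 1 / 2 * ∫ y, (h (x j - x l) * (w (x j - y) * h (y - x m))) * ‖B (update x j y)‖ ^ 2 ∂lam3)
      (piN ι) :=
    ((qf_int hB1 A).const_mul _).add (hKi.integral_prod_left.const_mul _)
  have hae1 := Ker_HP_ae hh j l A
  have hae2 := (S1_ker hw hφ hφw j (HP h j m B)).trans (Ker_cvc_congr j (Ker_HP_ae hh j m B))
  refine (Ker_abs_inner_le _ _ hint ?_).trans (le_of_eq ?_)
  · filter_upwards [hae1, hae2, Ker_sec B j] with x h1 h2 h3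
    rw [h1, h2]
    have hu1 : Integrable (fun y => ‖B (update x j y)‖) lam3 :=
      (((memLp_two_iff_integrable_sq_norm (Ker_sec_sm B j x).aestronglyMeasurable).2 h3).integrable
        one_le_two).norm
    have hKx : BM (fun y : T3 => h (x j - x l) * (w (x j - y) * h (y - x m))) := by
      exact hK.comp (φ := fun y : T3 => (x, y)) measurable_prodMk_left
    obtain ⟨C', hC'⟩ := hKx.2
    have i1 : Integrable (fun y => (h (x j - x l) * (w (x j - y) * h (y - x m)))
        * ‖B (update x j y)‖ ^ 2) lam3 :=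
      h3.bdd_mul hKx.1.aestronglyMeasurable (Eventually.of_forall hC')
    have i2 : Integrable (fun y => (h (x j - x l) * (w (x j - y) * h (y - x m)))
        * ‖B (update x j y)‖) lam3 :=
      hu1.bdd_mul hKx.1.aestronglyMeasurable (Eventually.of_forall hC')
    have e1 : ‖((h (x j - x l) : ℝ) : ℂ) * A x‖ = h (x j - x l) * ‖A x‖ := by
      rw [norm_mul, Complex.norm_real, Real.norm_of_nonneg (hh0 _)]
    have e2 : ‖cvc w j (fun x => ((h (x j - x m) : ℝ) : ℂ) * B x) x‖
        ≤ ∫ y, (w (x j - y) * h (y - x m)) * ‖B (update x j y)‖ ∂lam3 := by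
      refine (norm_integral_le_integral_norm _).trans (le_of_eq ?_)
      refine integral_congr_ae (Eventually.of_forall fun y => ?_)
      simp only
      rw [update_self, update_of_ne hmj, norm_mul, norm_mul, Complex.norm_real, Complex.norm_real,
        Real.norm_of_nonneg (hh0 _), Real.norm_of_nonneg (hw0 _)]
      ring
    have e3 : h (x j - x l) * ‖A x‖ * ∫ y, (w (x j - y) * h (y - x m)) * ‖B (update x j y)‖ ∂lam3
        = ∫ y, ‖A x‖ * ((h (x j - x l) * (w (x j - y) * h (y - x m))) * ‖B (update x j y)‖) ∂lam3 := by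
      rw [← integral_const_mul]
      refine integral_congr_ae (Eventually.of_forall fun y => ?_)
      simp only
      ring
    have e4 : ∫ y, ‖A x‖ * ((h (x j - x l) * (w (x j - y) * h (y - x m))) * ‖B (update x j y)‖) ∂lam3
        ≤ ∫ y, (1 / 2 * ‖A x‖ ^ 2 * (h (x j - x l) * (w (x j - y) * h (y - x m)))
          + 1 / 2 * ((h (x j - x l) * (w (x j - y) * h (y - x m))) * ‖B (update x j y)‖ ^ 2)) ∂lam3 := by
      refine integral_mono (i2.const_mul _)
        (((hKx.integrable _).const_mul _).add (i1.const_mul _)) fun y => ?_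
      simp only
      have h5 : 0 ≤ h (x j - x l) * (w (x j - y) * h (y - x m)) := hK0 (x, y)
      nlinarith [mul_nonneg h5 (sq_nonneg (‖A x‖ - ‖B (update x j y)‖))]
    have e5 : ∫ y, (1 / 2 * ‖A x‖ ^ 2 * (h (x j - x l) * (w (x j - y) * h (y - x m)))
          + 1 / 2 * ((h (x j - x l) * (w (x j - y) * h (y - x m))) * ‖B (update x j y)‖ ^ 2)) ∂lam3
        = 1 / 2 * ((h (x j - x l) * cn w h (x j - x m)) * ‖A x‖ ^ 2)
          + 1 / 2 * ∫ y, (h (x j - x l) * (w (x j - y) * h (y - x m)))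
            * ‖B (update x j y)‖ ^ 2 ∂lam3 := by
      rw [integral_add ((hKx.integrable _).const_mul _) (i1.const_mul _), integral_const_mul,
        integral_const_mul, integral_const_mul, hcn]
      ring
    calc ‖((h (x j - x l) : ℝ) : ℂ) * A x‖ * ‖cvc w j (fun x => ((h (x j - x m) : ℝ) : ℂ) * B x) x‖
        ≤ h (x j - x l) * ‖A x‖ *
          ∫ y, (w (x j - y) * h (y - x m)) * ‖B (update x j y)‖ ∂lam3 := by
          rw [e1]
          exact mul_le_mul_of_nonneg_left e2 (mul_nonneg (hh0 _) (norm_nonneg _))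
      _ = _ := e3
      _ ≤ _ := e4
      _ = _ := e5
  · rw [integral_add ((qf_int hB1 A).const_mul _) (hKi.integral_prod_left.const_mul _),
      integral_const_mul, integral_const_mul, hKs]
    congr 2
    refine integral_congr_ae (Eventually.of_forall fun x => ?_)
    simp only
    congr 1
    rw [← hcn (x j) (x l), ← integral_const_mul]
    refine integral_congr_ae (Eventually.of_forall fun y => ?_)
    simp only
    rw [update_self, update_of_ne hlj, update_of_ne hmj, ← hwe (y - x j), neg_sub]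
    ring

theorem norm_S1_HP_le {w : T3 → ℝ} (hw : BM w) (hw0 : ∀ z, 0 ≤ w z)
    {φ : (Fin 3 → ℤ) → ℝ} (hφ : Bdm φ)
    (hφw : ∀ p, fc3 (fun y => (w y : ℂ)) p = ((φ p : ℝ) : ℂ)) {h : T3 → ℝ} (hh : BM h)
    (hh0 : ∀ z, 0 ≤ h z) {j l : ι} (hjl : j ≠ l) (f : HS ι) :
    ‖S1 φ l (HP h j l f)‖ ^ 2
      ≤ (∫ y, w y ^ 2 ∂lam3) * (∫ y, h y ∂lam3) * qf (fun x => h (x j - x l)) f := by
  have hmx : ∀ i : ι, Measurable (fun q : (ι → T3) × T3 => q.1 i) := fun i =>
    (measurable_pi_apply i).comp measurable_fst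
  set a1 : (ι → T3) → ℝ := fun x => ∫ z, w (x l - z) ^ 2 * h (x j - z) ∂lam3 with ha1
  have ha1b : BM a1 := by
    have h1 : BM (uncurry fun (x : ι → T3) (z : T3) => w (x l - z) ^ 2 * h (x j - z)) := by
      have h2 : BM (fun q : (ι → T3) × T3 => w (q.1 l - q.2) ^ 2 * h (q.1 j - q.2)) :=
        ((hw.comp (measurable_sub' (hmx l) measurable_snd)).pow 2).mul
          (hh.comp (measurable_sub' (hmx j) measurable_snd))
      exact h2
    exact h1.integral_right lam3
  have hK : BM (fun q : (ι → T3) × T3 => a1 q.1 * h (q.1 j - q.2)) :=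
    (ha1b.comp measurable_fst).mul (hh.comp (measurable_sub' (hmx j) measurable_snd))
  obtain ⟨C, hC⟩ := hK.2
  have hKi := Ker_int hK.1.stronglyMeasurable hC l (integrable_norm_sq f)
  have hKs := Ker_swap hK.1.stronglyMeasurable hC l (integrable_norm_sq f)
  have hae := (S1_ker hw hφ hφw l (HP h j l f)).trans (Ker_cvc_congr l (Ker_HP_ae hh j l f))
  have h1 : ‖S1 φ l (HP h j l f)‖ ^ 2 ≤ ∫ x, ∫ z, (a1 x * h (x j - z))
      * ‖f (update x l z)‖ ^ 2 ∂lam3 ∂(piN ι) := by
    rw [norm_sq_eq]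
    refine integral_mono_of_nonneg (Eventually.of_forall fun x => sq_nonneg _)
      hKi.integral_prod_left ?_
    filter_upwards [hae, Ker_sec f l] with x hx hx2
    rw [hx]
    have hwx : BM (fun y => w (x l - y)) := hw.comp (measurable_sub' measurable_const measurable_id)
    have hhx : BM (fun y => h (x j - y)) := hh.comp (measurable_sub' measurable_const measurable_id)
    have h3 := Ker_cs hwx hhx (fun _ => hh0 _) (Ker_sec_sm f l x) hx2
    have h4 : cvc w l (fun x => ((h (x j - x l) : ℝ) : ℂ) * f x) x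
        = ∫ y, ((w (x l - y) * h (x j - y) : ℝ) : ℂ) * f (update x l y) ∂lam3 := by
      unfold cvc
      refine integral_congr_ae (Eventually.of_forall fun y => ?_)
      simp only
      rw [update_self, update_of_ne hjl]
      push_cast
      ring
    have h5 : ∫ z, (a1 x * h (x j - z)) * ‖f (update x l z)‖ ^ 2 ∂lam3
        = a1 x * ∫ z, h (x j - z) * ‖f (update x l z)‖ ^ 2 ∂lam3 := by
      rw [← integral_const_mul]
      refine integral_congr_ae (Eventually.of_forall fun y => ?_)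
      simp only
      ring
    rw [h4, h5]
    exact h3
  refine h1.trans (le_of_eq ?_)
  rw [hKs, qf, ← integral_const_mul]
  refine integral_congr_ae (Eventually.of_forall fun x => ?_)
  simp only
  have h6 : ∫ y, a1 (update x l y) * h (update x l y j - x l) ∂lam3
      = ((∫ y, w y ^ 2 ∂lam3) * ∫ y, h y ∂lam3) * h (x j - x l) := by
    rw [← int_sub_left h (x j), ← Ker_cn_integral (hw.pow 2)
      (hh.comp (φ := fun y : T3 => x j - y) (measurable_sub' measurable_const measurable_id)),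
      ← integral_mul_const]
    refine integral_congr_ae (Eventually.of_forall fun y => ?_)
    simp only [ha1]
    rw [update_self, update_of_ne hjl]
  rw [h6]
  ring

end Pool.Agent.Lib.MP_4952d6_mp.LB

end

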