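import Pool.Agent.Lib.MP_4952d6_mp.Pk.G36
import Pool.Agent.Lib.MP_4952d6_mp.Pk.G38

/-! Merged modules (to save import time): LA.A6, LA.B0, LA.B1a. -/

/-! ### LA.A6 -/

section

/-!
# JOB LA-A6: the heat inequality for minimisers

* `ibp_sq`: `∫ ζ' Re (conj ψ g) = -(1/2) ∫ ζ'' ‖ψ‖²` for `ζ'` a `WD` function in the direction `(i, α)` with derivative `ζ''`:
  in Fourier form `ζ' ψ` has the derivative `ζ'' ψ + ζ' g` in the direction `(i, α)` (`HG.ibp` with `Φ = conj (chN k) ζ'`, as in `HG.mul`), so by `parseval`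
  `∫ conj ψ (ζ'' ψ + ζ' g) = - ∫ conj g (ζ' ψ)`; take real parts.
* `heat_ineq`: `min_id` with `G = ζ` gives `∑ ∫ ζ ‖g‖² + ∑ ∫ ζ' Re (conj ψ g) + ∫ ζ pot ‖ψ‖² = e ∫ ζ ‖ψ‖²`.  By `slice_energy` with `w = ofReal ζ`
  (and `potS 𝒱 Tᶜ ≤ potS 𝒱 univ`, the kinetic energies of the other particles are `≥ 0`) `∑ ∫ ζ ‖g‖² + ∫ ζ pot ‖ψ‖² ≥ e' ∫ ζ ‖ψ‖²`, `e' = (E0 Tᶜ.card).toReal`;
  `ibp_sq`.
-/

set_option autoImplicit false
set_option linter.unusedSectionVars false
set_option linter.unusedVariables false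
open MeasureTheory Function Filter Topology Set ComplexConjugate
open scoped ENNReal

namespace Pool.Agent.Lib.MP_4952d6_mp.LA

variable {ι : Type*} [Fintype ι] [DecidableEq ι]

/-- product of a bounded function and an `L²` function -/
private theorem A6_memLp {X : Type*} [MeasurableSpace X] {μ : Measure X} {Z : X → ℝ} {f : X → ℂ}
    (hZ : AEStronglyMeasurable Z μ) {C : ℝ} (hC : ∀ᵐ x ∂μ, ‖Z x‖ ≤ C) (hf : MemLp f 2 μ) :
    MemLp (fun x => (Z x : ℂ) * f x) 2 μ := by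
  refine hf.of_le_mul (c := C) ?_ ?_
  · exact (Complex.continuous_ofReal.comp_aestronglyMeasurable hZ).mul hf.1
  · filter_upwards [hC] with x hx
    rw [norm_mul, Complex.norm_real]
    exact mul_le_mul_of_nonneg_right hx (norm_nonneg _)

private theorem A6_int {X : Type*} [MeasurableSpace X] {μ : Measure X} {Z f : X → ℝ}
    (hZ : AEStronglyMeasurable Z μ) {C : ℝ} (hC : ∀ᵐ x ∂μ, ‖Z x‖ ≤ C) (hf : Integrable f μ) :
    Integrable (fun x => Z x * f x) μ :=
  hf.bdd_mul hZ hC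

private theorem A6_conj_int {X : Type*} [MeasurableSpace X] {μ : Measure X} {f g : X → ℂ}
    (hf : MemLp f 2 μ) (hg : MemLp g 2 μ) : Integrable (fun x => conj (f x) * g x) μ := by
  have hc : MemLp (fun x => conj (f x)) 2 μ := by
    refine hf.of_le_mul (c := 1) (Complex.continuous_conj.comp_aestronglyMeasurable hf.1) ?_
    exact Eventually.of_forall fun x => by simp
  exact MemLp.integrable_mul hc hg

theorem ibp_sq {ψ : (ι → T3) → ℂ} {g : ι → Fin 3 → (ι → T3) → ℂ} (h : HG ψ g) (i : ι) (α : Fin 3)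
    {Z Z' : (ι → T3) → ℝ} (w : WD (piN ι) (tauN i α) Z Z') :
    ∫ x, Z x * (conj (ψ x) * g i α x).re ∂(piN ι) = -(1 / 2) * ∫ x, Z' x * ‖ψ x‖ ^ 2 ∂(piN ι) := by
  have hZm : AEStronglyMeasurable Z (piN ι) := w.sm.aestronglyMeasurable
  have hZ'm : AEStronglyMeasurable Z' (piN ι) := w.aesm_deriv
  obtain ⟨C, hC0, hC⟩ := w.exists_bdd
  obtain ⟨C', hC'0, hC'⟩ := w.bound
  have hCae : ∀ᵐ x ∂(piN ι), ‖Z x‖ ≤ C := Eventually.of_forall hC
  have m1 : MemLp (fun x => (Z x : ℂ) * ψ x) 2 (piN ι) := A6_memLp hZm hCae h.mem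
  have m2 : MemLp (fun x => (Z' x : ℂ) * ψ x) 2 (piN ι) := A6_memLp hZ'm hC' h.mem
  have m3 : MemLp (fun x => (Z x : ℂ) * g i α x) 2 (piN ι) := A6_memLp hZm hCae (h.gmem i α)
  have m4 : MemLp (fun x => (Z' x : ℂ) * ψ x + (Z x : ℂ) * g i α x) 2 (piN ι) := m2.add m3
  have hone : ∀ k : ι → Fin 3 → ℤ, MemLp (chN k) 2 (piN ι) := fun k =>
    MemLp.of_bound (chN_sm k).aestronglyMeasurable 1 (Eventually.of_forall fun x => (chN_norm k x).le)
  -- the derivative of the product, in Fourier form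
  have key : ∀ k : ι → Fin 3 → ℤ, fc (fun x => (Z' x : ℂ) * ψ x + (Z x : ℂ) * g i α x) k
      = 2 * Real.pi * Complex.I * (k i α : ℝ) * fc (fun x => (Z x : ℂ) * ψ x) k := by
    intro k
    have hχ : WD (piN ι) (tauN i α) (fun x => conj (chN k x))
        (fun x => 2 * Real.pi * Complex.I * ((-(k i α : ℝ) : ℝ) : ℂ) * conj (chN k x)) := by
      refine WD.character w.zero (Complex.continuous_conj.comp_stronglyMeasurable (chN_sm k))
        (fun x => by simpa using chN_norm k x) (-(k i α : ℝ)) fun x t => ?_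
      rw [chN_add_tauN, map_mul, ← Complex.exp_conj]
      congr 2
      simp only [map_mul, Complex.conj_ofReal, Complex.conj_I, map_ofNat]
      push_cast; ring
    have hp := h.ibp i α (hχ.mul w.ofReal)
    have i1 : Integrable (fun x => conj (chN k x) * ((Z x : ℂ) * ψ x)) (piN ι) := A6_conj_int (hone k) m1
    have i2 : Integrable (fun x => conj (chN k x) * ((Z' x : ℂ) * ψ x)) (piN ι) := A6_conj_int (hone k) m2
    have i3 : Integrable (fun x => conj (chN k x) * ((Z x : ℂ) * g i α x)) (piN ι) := A6_conj_int (hone k) m3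
    have e1 : ∀ x, (2 * Real.pi * Complex.I * ((-(k i α : ℝ) : ℝ) : ℂ) * conj (chN k x) * (Z x : ℂ)
        + conj (chN k x) * (Z' x : ℂ)) * ψ x
        = (-(2 * Real.pi * Complex.I * (k i α : ℝ))) * (conj (chN k x) * ((Z x : ℂ) * ψ x))
          + conj (chN k x) * ((Z' x : ℂ) * ψ x) := by
      intro x; push_cast; ring
    have e2 : ∀ x, conj (chN k x) * (Z x : ℂ) * g i α x = conj (chN k x) * ((Z x : ℂ) * g i α x) := by
      intro x; ring
    simp_rw [e1, e2] at hp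
    rw [integral_add (i1.const_mul _) i2, integral_const_mul] at hp
    have e3 : fc (fun x => (Z' x : ℂ) * ψ x + (Z x : ℂ) * g i α x) k
        = (∫ x, conj (chN k x) * ((Z' x : ℂ) * ψ x) ∂(piN ι))
          + ∫ x, conj (chN k x) * ((Z x : ℂ) * g i α x) ∂(piN ι) := by
      unfold fc
      rw [← integral_add i2 i3]
      refine integral_congr_ae (Eventually.of_forall fun x => ?_)
      dsimp only
      ring
    rw [e3]
    unfold fc
    linear_combination hp
  -- Parseval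
  have p1 := parseval (h.gmem i α) m1
  have p2 := parseval h.mem m4
  have e4 : ∀ k : ι → Fin 3 → ℤ, conj (fc (g i α) k) * fc (fun x => (Z x : ℂ) * ψ x) k
      = -(conj (fc ψ k) * fc (fun x => (Z' x : ℂ) * ψ x + (Z x : ℂ) * g i α x) k) := by
    intro k
    rw [key k, h.four i α k]
    simp only [map_mul, Complex.conj_ofReal, Complex.conj_I, map_ofNat]
    ring
  simp_rw [e4] at p1
  have p3 := p1.unique p2.neg
  have i5 : Integrable (fun x => conj (g i α x) * ((Z x : ℂ) * ψ x)) (piN ι) := A6_conj_int (h.gmem i α) m1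
  have i6 : Integrable (fun x => conj (ψ x) * ((Z' x : ℂ) * ψ x + (Z x : ℂ) * g i α x)) (piN ι) :=
    A6_conj_int h.mem m4
  have r1 : (∫ x, conj (g i α x) * ((Z x : ℂ) * ψ x) ∂(piN ι)).re
      = ∫ x, Z x * (conj (ψ x) * g i α x).re ∂(piN ι) := by
    have := integral_re i5
    simp only [RCLike.re_to_complex] at this
    rw [← this]
    refine integral_congr_ae (Eventually.of_forall fun x => ?_)
    dsimp only
    simp only [Complex.mul_re, Complex.mul_im, Complex.conj_re, Complex.conj_im, Complex.ofReal_re, Complex.ofReal_im]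
    ring
  have i7 : Integrable (fun x => Z' x * ‖ψ x‖ ^ 2) (piN ι) := A6_int hZ'm hC' (int_sq h.mem)
  have i8 : Integrable (fun x => Z x * (conj (ψ x) * g i α x).re) (piN ι) :=
    A6_int hZm hCae (A6_conj_int h.mem (h.gmem i α)).re
  have r2 : (∫ x, conj (ψ x) * ((Z' x : ℂ) * ψ x + (Z x : ℂ) * g i α x) ∂(piN ι)).re
      = (∫ x, Z' x * ‖ψ x‖ ^ 2 ∂(piN ι)) + ∫ x, Z x * (conj (ψ x) * g i α x).re ∂(piN ι) := by
    have := integral_re i6
    simp only [RCLike.re_to_complex] at this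
    rw [← this, ← integral_add i7 i8]
    refine integral_congr_ae (Eventually.of_forall fun x => ?_)
    dsimp only
    rw [← Complex.normSq_eq_norm_sq, Complex.normSq_apply]
    simp only [Complex.mul_re, Complex.mul_im, Complex.add_re, Complex.add_im, Complex.conj_re, Complex.conj_im, Complex.ofReal_re, Complex.ofReal_im]
    ring
  have p4 := congrArg Complex.re p3
  rw [Complex.neg_re, r1, r2] at p4
  linarith

theorem heat_ineq {R₀ : ℝ} {𝒱 : T3 → ℝ≥0∞} (hv : AEMeasurable 𝒱 lam3) (hev : ∀ y, 𝒱 (-y) = 𝒱 y)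
    {ψ : (ι → T3) → ℂ} {g : ι → Fin 3 → (ι → T3) → ℂ} (h : FE R₀ 𝒱 ψ g) {T : Finset ι}
    {Z : (ι → T3) → ℝ} {Z' Z'' : ι → Fin 3 → (ι → T3) → ℝ} (w : WDN Z Z')
    (w' : ∀ i α, WD (piN ι) (tauN i α) (Z' i α) (Z'' i α)) (hZ : ∀ x, 0 ≤ Z x) (hZm : Measurable Z)
    (hdep : ∀ x y : ι → T3, (∀ i ∈ T, x i = y i) → Z x = Z y)
    {e : ℝ} (he : 0 ≤ e)
    (hmin : ∀ (φ : (ι → T3) → ℂ) (f : ι → Fin 3 → (ι → T3) → ℂ), HG φ f → Core R₀ φ →
      ENNReal.ofReal e * ∫⁻ x, ‖φ x‖ₑ ^ 2 ∂(piN ι) ≤ eS 𝒱 Finset.univ φ f)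
    (heq : rE 𝒱 Finset.univ ψ g = e * ∫ x, ‖ψ x‖ ^ 2 ∂(piN ι)) {d : ℝ} (hd : 0 ≤ d)
    (hE : ENNReal.ofReal (e - d) ≤ E0 R₀ 𝒱 Tᶜ.card) :
    - ∫ x, (∑ i, ∑ α, Z'' i α x) * ‖ψ x‖ ^ 2 ∂(piN ι) ≤ 2 * d * ∫ x, Z x * ‖ψ x‖ ^ 2 ∂(piN ι) := by
  have hid := min_id hv h w he hmin heq
  -- the case of no particle is included: `Z` is bounded as soon as there is one particle
  obtain ⟨hPi, -, -⟩ := rE_eq hv h.hg h.fin
  -- bounds
  have hb' : ∀ i α, ∃ C, 0 ≤ C ∧ ∀ x, ‖Z' i α x‖ ≤ C := fun i α => (w' i α).exists_bdd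
  have hb'' : ∀ i α, ∃ C, 0 ≤ C ∧ ∀ᵐ x ∂(piN ι), ‖Z'' i α x‖ ≤ C := fun i α => (w' i α).bound
  obtain ⟨C, hC⟩ : ∃ C, ∀ x, ‖Z x‖ ≤ C := by
    rcases isEmpty_or_nonempty ι with hι | hι
    · exact ⟨‖Z (fun i => (hι.false i).elim)‖, fun x => by
        have : x = (fun i => (hι.false i).elim) := funext fun i => (hι.false i).elim
        rw [this]⟩
    · obtain ⟨i⟩ := hι
      obtain ⟨C, -, hC⟩ := (w i 0).exists_bdd
      exact ⟨C, hC⟩
  have hCae : ∀ᵐ x ∂(piN ι), ‖Z x‖ ≤ C := Eventually.of_forall hC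
  have hZs : AEStronglyMeasurable Z (piN ι) := hZm.aestronglyMeasurable
  have iA : ∀ i α, Integrable (fun x => Z x * ‖g i α x‖ ^ 2) (piN ι) := fun i α =>
    A6_int hZs hCae (int_sq (h.hg.gmem i α))
  have iB : ∀ i α, Integrable (fun x => Z' i α x * (conj (ψ x) * g i α x).re) (piN ι) := fun i α => by
    obtain ⟨C', -, hC'⟩ := hb' i α
    exact A6_int (w' i α).sm.aestronglyMeasurable (Eventually.of_forall hC')
      (A6_conj_int h.hg.mem (h.hg.gmem i α)).re
  have iC : ∀ i α, Integrable (fun x => Z'' i α x * ‖ψ x‖ ^ 2) (piN ι) := fun i α => by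
    obtain ⟨C', -, hC'⟩ := hb'' i α
    exact A6_int (w' i α).aesm_deriv hC' (int_sq h.hg.mem)
  have iN : Integrable (fun x => Z x * ‖ψ x‖ ^ 2) (piN ι) := A6_int hZs hCae (int_sq h.hg.mem)
  have iP : Integrable (fun x => Z x * ((potS 𝒱 Finset.univ x).toReal * ‖ψ x‖ ^ 2)) (piN ι) :=
    A6_int hZs hCae hPi
  -- the identity
  have hbG : bG 𝒱 ψ g Z Z' = (∑ i, ∑ α, ∫ x, Z x * ‖g i α x‖ ^ 2 ∂(piN ι))
      + (-(1 / 2)) * (∑ i, ∑ α, ∫ x, Z'' i α x * ‖ψ x‖ ^ 2 ∂(piN ι))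
      + ∫ x, Z x * ((potS 𝒱 Finset.univ x).toReal * ‖ψ x‖ ^ 2) ∂(piN ι) := by
    unfold bG
    congr 1
    rw [Finset.mul_sum, ← Finset.sum_add_distrib]
    refine Finset.sum_congr rfl fun i _ => ?_
    rw [Finset.mul_sum, ← Finset.sum_add_distrib]
    refine Finset.sum_congr rfl fun α _ => ?_
    rw [integral_add (iA i α) (iB i α), ibp_sq h.hg i α (w' i α)]
  have hsum : ∫ x, (∑ i, ∑ α, Z'' i α x) * ‖ψ x‖ ^ 2 ∂(piN ι)
      = ∑ i, ∑ α, ∫ x, Z'' i α x * ‖ψ x‖ ^ 2 ∂(piN ι) := by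
    simp_rw [Finset.sum_mul]
    rw [integral_finsetSum _ fun i _ => integrable_finsetSum _ fun α _ => iC i α]
    refine Finset.sum_congr rfl fun i _ => ?_
    rw [integral_finsetSum _ fun α _ => iC i α]
  -- the lower bound by slices
  set K := ∑ i, ∑ α, ∫ x, Z x * ‖g i α x‖ ^ 2 ∂(piN ι) with hK
  set P := ∫ x, Z x * ((potS 𝒱 Finset.univ x).toReal * ‖ψ x‖ ^ 2) ∂(piN ι) with hP
  have hK0 : 0 ≤ K := Finset.sum_nonneg fun i _ => Finset.sum_nonneg fun α _ =>
    integral_nonneg fun x => mul_nonneg (hZ x) (sq_nonneg _)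
  have hP0 : 0 ≤ P := integral_nonneg fun x =>
    mul_nonneg (hZ x) (mul_nonneg ENNReal.toReal_nonneg (sq_nonneg _))
  have hN0 : 0 ≤ ∫ x, Z x * ‖ψ x‖ ^ 2 ∂(piN ι) := integral_nonneg fun x => mul_nonneg (hZ x) (sq_nonneg _)
  have hlow : (e - d) * ∫ x, Z x * ‖ψ x‖ ^ 2 ∂(piN ι) ≤ K + P := by
    rcases le_or_gt (e - d) 0 with hneg | hpos
    · exact (mul_nonpos_of_nonpos_of_nonneg hneg hN0).trans (add_nonneg hK0 hP0)
    have hs := slice_energy (S := T) hv hev (w := fun x => ENNReal.ofReal (Z x)) hZm.ennreal_ofReal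
      (fun x y hxy => by rw [hdep x y hxy]) h.hg h.core
    have l1 : ∀ f : (ι → T3) → ℂ, MemLp f 2 (piN ι) → ∫⁻ x, ENNReal.ofReal (Z x) * ‖f x‖ₑ ^ 2 ∂(piN ι)
        = ENNReal.ofReal (∫ x, Z x * ‖f x‖ ^ 2 ∂(piN ι)) := by
      intro f hf
      rw [ofReal_integral_eq_lintegral_ofReal (A6_int hZs hCae (int_sq hf))
        (Eventually.of_forall fun x => mul_nonneg (hZ x) (sq_nonneg _))]
      refine lintegral_congr fun x => ?_
      rw [ENNReal.ofReal_mul (hZ x), ENNReal.ofReal_pow (norm_nonneg _), ofReal_norm]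
    have l2 : ∫⁻ x, ENNReal.ofReal (Z x) * (potS 𝒱 Tᶜ x * ‖ψ x‖ₑ ^ 2) ∂(piN ι) ≤ ENNReal.ofReal P := by
      rw [hP, ofReal_integral_eq_lintegral_ofReal iP
        (Eventually.of_forall fun x => mul_nonneg (hZ x) (mul_nonneg ENNReal.toReal_nonneg (sq_nonneg _)))]
      have hfin : ∫⁻ x, potS 𝒱 Finset.univ x * ‖ψ x‖ₑ ^ 2 ∂(piN ι) < ⊤ := by
        refine lt_of_le_of_lt ?_ h.fin
        unfold eS
        exact le_add_self
      have hae : ∀ᵐ x ∂(piN ι), potS 𝒱 Finset.univ x * ‖ψ x‖ₑ ^ 2 < ⊤ := by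
        refine ae_lt_top' ?_ hfin.ne
        exact (aem_potS hv _).mul (h.hg.mem.1.enorm.pow_const 2)
      refine lintegral_mono_ae ?_
      filter_upwards [hae] with x hx
      rw [ENNReal.ofReal_mul (hZ x)]
      refine mul_le_mul_right ?_ _
      have h1 : potS 𝒱 Tᶜ x * ‖ψ x‖ₑ ^ 2 ≤ potS 𝒱 Finset.univ x * ‖ψ x‖ₑ ^ 2 :=
        mul_le_mul_left (potS_mono (Finset.subset_univ _) x) _
      refine h1.trans (le_of_eq ?_)
      rw [ENNReal.ofReal_mul ENNReal.toReal_nonneg, ENNReal.ofReal_pow (norm_nonneg _), ofReal_norm]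
      rcases eq_or_ne (ψ x) 0 with h0 | h0
      · simp [h0]
      · have : potS 𝒱 Finset.univ x ≠ ⊤ := by
          intro ht
          rw [ht, ENNReal.top_mul] at hx
          · exact lt_irrefl _ hx
          · exact pow_ne_zero _ (by simpa using h0)
        rw [ENNReal.ofReal_toReal this]
    have l3 : eW 𝒱 Tᶜ (fun x => ENNReal.ofReal (Z x)) ψ g ≤ ENNReal.ofReal (K + P) := by
      rw [ENNReal.ofReal_add hK0 hP0]
      unfold eW
      refine add_le_add ?_ l2
      rw [hK, ENNReal.ofReal_sum_of_nonneg fun i _ => Finset.sum_nonneg fun α _ =>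
        integral_nonneg fun x => mul_nonneg (hZ x) (sq_nonneg _)]
      refine (Finset.sum_le_sum_of_subset (Finset.subset_univ _)).trans (Finset.sum_le_sum fun i _ => ?_)
      rw [ENNReal.ofReal_sum_of_nonneg fun α _ =>
        integral_nonneg fun x => mul_nonneg (hZ x) (sq_nonneg _)]
      exact Finset.sum_le_sum fun α _ => (l1 _ (h.hg.gmem i α)).le
    have l4 : ENNReal.ofReal ((e - d) * ∫ x, Z x * ‖ψ x‖ ^ 2 ∂(piN ι)) ≤ ENNReal.ofReal (K + P) := by
      rw [ENNReal.ofReal_mul hpos.le, ← l1 _ h.hg.mem]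
      exact (mul_le_mul_left hE _).trans (hs.trans l3)
    exact (ENNReal.ofReal_le_ofReal_iff (add_nonneg hK0 hP0)).1 l4
  rw [hsum]
  rw [hbG] at hid
  nlinarith [hid, hlow]

end Pool.Agent.Lib.MP_4952d6_mp.LA

end

/-! ### LA.B0 -/

section

/-!
# LA-B0: adding one particle, definitions (no job)

Configurations of `n + 1` particles: particle `0` is the new one, the particles `j.succ` are the old ones.
-/

set_option autoImplicit false
set_option linter.unusedSectionVars false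
set_option linter.unusedVariables false
open MeasureTheory Function Filter Topology Set ComplexConjugate
open scoped ENNReal

namespace Pool.Agent.Lib.MP_4952d6_mp.LA

/-- the old particles -/
def tl {n : ℕ} (z : Fin (n + 1) → T3) : Fin n → T3 := fun j => z j.succ

/-- a function of the old particles -/
def ext {n : ℕ} (χ : (Fin n → T3) → ℂ) (z : Fin (n + 1) → T3) : ℂ := χ (tl z)

/-- its gradient -/
def extg {n : ℕ} (h : Fin n → Fin 3 → (Fin n → T3) → ℂ) (i : Fin (n + 1)) (α : Fin 3)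
    (z : Fin (n + 1) → T3) : ℂ := Fin.cases (0 : ℂ) (fun j => h j α (tl z)) i

/-- correlation factor as a function of the new particle `y` and the old ones `x` -/
noncomputable def AA {n : ℕ} (f : ℝ → ℝ) (y : T3) (x : Fin n → T3) : ℝ := ∏ j, f (rr (y - x j))

/-- derivative with respect to the old particle `j` -/
noncomputable def AAj {n : ℕ} (f g : ℝ → ℝ) (j : Fin n) (α : Fin 3) (y : T3) (x : Fin n → T3) : ℝ :=
  -(JData.grad g α (y - x j) * ∏ m ∈ Finset.univ.erase j, f (rr (y - x m)))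

/-- derivative with respect to the new particle -/
noncomputable def AA0 {n : ℕ} (f g : ℝ → ℝ) (α : Fin 3) (y : T3) (x : Fin n → T3) : ℝ :=
  ∑ l, JData.grad g α (y - x l) * ∏ m ∈ Finset.univ.erase l, f (rr (y - x m))

/-- the correlation factor on configurations of `n + 1` particles -/
noncomputable def Az {n : ℕ} (f : ℝ → ℝ) (z : Fin (n + 1) → T3) : ℝ := AA f (z 0) (tl z)

/-- its derivatives -/
noncomputable def Az' {n : ℕ} (f g : ℝ → ℝ) (i : Fin (n + 1)) (α : Fin 3) (z : Fin (n + 1) → T3) : ℝ :=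
  Fin.cases (AA0 f g α (z 0) (tl z)) (fun j => AAj f g j α (z 0) (tl z)) i

/-- `∫ A(y, x)² dy` -/
noncomputable def GA {n : ℕ} (f : ℝ → ℝ) (x : Fin n → T3) : ℝ := ∫ y, AA f y x ^ 2 ∂lam3

/-- its derivatives -/
noncomputable def GA' {n : ℕ} (f g : ℝ → ℝ) (j : Fin n) (α : Fin 3) (x : Fin n → T3) : ℝ :=
  ∫ y, 2 * AA f y x * AAj f g j α y x ∂lam3

/-- splitting off the new particle -/
theorem mp_cons (n : ℕ) : MeasurePreserving (fun q : T3 × (Fin n → T3) => (Fin.cons q.1 q.2 : Fin (n + 1) → T3))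
    (lam3.prod (piN (Fin n))) (piN (Fin (n + 1))) := by
  have h := (measurePreserving_piFinSuccAbove (fun _ : Fin (n + 1) => lam3) 0).symm
  have e : (fun q : T3 × (Fin n → T3) => (Fin.cons q.1 q.2 : Fin (n + 1) → T3))
      = (MeasurableEquiv.piFinSuccAbove (fun _ : Fin (n + 1) => T3) 0).symm := by
    funext q
    simp [MeasurableEquiv.piFinSuccAbove, Fin.insertNthEquiv, Fin.insertNth_zero]
  rw [e]
  exact h

end Pool.Agent.Lib.MP_4952d6_mp.LA

end

/-! ### LA.B1a -/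

section

/-!
# JOB LA-B1a: extension by one particle

* `ext_HG`: `fc (ext χ) k = if k 0 = 0 then fc χ (tl k) else 0` (Fubini with `mp_cons`; `∫ conj (ch p) = 0` for `p ≠ 0`), same for the gradient.
-/

set_option autoImplicit false
set_option linter.unusedSectionVars false
set_option linter.unusedVariables false
open MeasureTheory Function Filter Topology Set ComplexConjugate
open scoped ENNReal

namespace Pool.Agent.Lib.MP_4952d6_mp.LA

theorem LAB1a_int {p : Fin 3 → ℤ} (hp : p ≠ 0) : ∫ x, conj (ch p x) ∂lam3 = 0 := by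
  obtain ⟨s, hs⟩ := exists_ch_eq_neg_one hp
  have h1 : ∫ x, conj (ch p (x + s)) ∂lam3 = ∫ x, conj (ch p x) ∂lam3 :=
    integral_add_right_eq_self (fun x => conj (ch p x)) s
  have h2 : ∫ x, conj (ch p (x + s)) ∂lam3 = -∫ x, conj (ch p x) ∂lam3 := by
    rw [← integral_neg]
    refine integral_congr_ae (Eventually.of_forall fun x => ?_)
    show conj (ch p (x + s)) = -conj (ch p x)
    rw [ch_add_arg, hs, mul_neg, mul_one, map_neg]
  rw [h2] at h1
  have h3 := congrArg (fun z : ℂ => z + ∫ x, conj (ch p x) ∂lam3) h1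
  simp only [neg_add_cancel] at h3
  have h4 : (2 : ℂ) * ∫ x, conj (ch p x) ∂lam3 = 0 := by
    rw [two_mul]
    exact h3.symm
  exact (mul_eq_zero.1 h4).resolve_left two_ne_zero

theorem LAB1a_tl (n : ℕ) : MeasurePreserving (tl : (Fin (n + 1) → T3) → (Fin n → T3)) (piN (Fin (n + 1)))
    (piN (Fin n)) := by
  have a1 := measurePreserving_piFinSuccAbove (fun _ : Fin (n + 1) => lam3) 0
  have a2 := measurePreserving_snd.comp a1
  have e : (Prod.snd ∘ (MeasurableEquiv.piFinSuccAbove (fun _ : Fin (n + 1) => T3) 0)) =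
      (tl : (Fin (n + 1) → T3) → (Fin n → T3)) := by
    funext z
    funext j
    simp [MeasurableEquiv.piFinSuccAbove, Fin.insertNthEquiv, tl]
    rfl
  rw [← e]
  exact a2

theorem LAB1a_fc {n : ℕ} {φ : (Fin n → T3) → ℂ} (hφ : MemLp φ 2 (piN (Fin n))) (k : Fin (n + 1) → Fin 3 → ℤ) :
    fc (ext φ) k = (∫ y, conj (ch (k 0) y) ∂lam3) * fc φ (fun j => k j.succ) := by
  unfold fc
  rw [← (mp_cons n).map_eq, integral_map (mp_cons n).measurable.aemeasurable]
  · rw [← integral_prod_mul]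
    refine integral_congr_ae (Eventually.of_forall fun q => ?_)
    show conj (chN k (Fin.cons q.1 q.2)) * φ (tl (Fin.cons q.1 q.2)) =
      conj (ch (k 0) q.1) * (conj (chN (fun j => k j.succ) q.2) * φ q.2)
    have e1 : tl (Fin.cons q.1 q.2 : Fin (n + 1) → T3) = q.2 := by
      funext j
      unfold tl
      rw [Fin.cons_succ]
    have e2 : chN k (Fin.cons q.1 q.2 : Fin (n + 1) → T3) = ch (k 0) q.1 * chN (fun j => k j.succ) q.2 := by
      unfold chN
      rw [Fin.prod_univ_succ, Fin.cons_zero]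
      simp only [Fin.cons_succ]
    rw [e1, e2, map_mul]
    ring
  · rw [(mp_cons n).map_eq]
    exact (Complex.continuous_conj.comp_stronglyMeasurable (chN_sm _)).aestronglyMeasurable.mul
      (hφ.comp_measurePreserving (LAB1a_tl n)).aestronglyMeasurable

theorem LAB1a_int0 : ∫ y, conj (ch 0 y) ∂lam3 = 1 := by
  simp only [ch_zero, map_one, integral_const, probReal_univ, one_smul]

theorem ext_HG {n : ℕ} {χ : (Fin n → T3) → ℂ} {h : Fin n → Fin 3 → (Fin n → T3) → ℂ} (hχ : HG χ h) :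
    HG (ext χ) (extg h) := by
  have hz : ∀ α, extg h 0 α = fun _ => (0 : ℂ) := fun α => rfl
  have hs : ∀ (j : Fin n) (α : Fin 3), extg h j.succ α = ext (h j α) := fun j α => rfl
  refine ⟨hχ.mem.comp_measurePreserving (LAB1a_tl n), ?_, ?_⟩
  · intro i α
    refine Fin.cases ?_ (fun j => ?_) i
    · rw [hz]
      exact MemLp.zero'
    · rw [hs]
      exact (hχ.gmem j α).comp_measurePreserving (LAB1a_tl n)
  · intro i α k
    refine Fin.cases ?_ (fun j => ?_) i
    · rw [hz, LAB1a_fc hχ.mem]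
      by_cases hk : k 0 = 0
      · rw [hk]
        unfold fc
        simp
      · rw [LAB1a_int hk]
        unfold fc
        simp
    · rw [hs, LAB1a_fc (hχ.gmem j α), LAB1a_fc hχ.mem, hχ.four]
      ring

end Pool.Agent.Lib.MP_4952d6_mp.LA

end

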