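import Pool.Agent.Lib.MP_4952d6_mp.Pk.G27
import Pool.Agent.Lib.MP_4952d6_mp.Pk.G35

/-! Merged modules (to save import time): LA.C0, LA.C1, LA.C2, LA.C3, LA.C4, LA.C5, LA.C6. -/

/-! ### LA.C0 -/

section

/-!
# LA-C0: cubes in `ℝ³` and boxes in the torus, definitions (no job)
-/

set_option autoImplicit false
set_option linter.unusedSectionVars false
set_option linter.unusedVariables false
open MeasureTheory Function Filter Topology Set ComplexConjugate
open scoped ENNReal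

namespace Pool.Agent.Lib.MP_4952d6_mp.LA

/-- half open cube in `ℝ³` -/
def cube (b : Fin 3 → ℝ) (s : ℝ) : Set (Fin 3 → ℝ) := Set.pi Set.univ fun α => Ioc (b α) (b α + s)

/-- `|∇φ|²` -/
noncomputable def gsq (φ : (Fin 3 → ℝ) → ℂ) (u : Fin 3 → ℝ) : ℝ :=
  ∑ α : Fin 3, ‖fderiv ℝ φ u (Pi.single α 1)‖ ^ 2

/-- The cube of side `λ r` obtained from `cube b r` by the dilation with centre `z`. -/
def dcor (b z : Fin 3 → ℝ) (lam : ℝ) : Fin 3 → ℝ := fun α => z α + lam * (b α - z α)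

/-- euclidean norm -/
noncomputable def en (u : Fin 3 → ℝ) : ℝ := ‖(WithLp.toLp 2 u : EuclideanSpace ℝ (Fin 3))‖

/-- point of the torus -/
def toT (u : Fin 3 → ℝ) : T3 := fun α => (u α : UnitAddCircle)

/-- half open box in the torus -/
def tbox (b : Fin 3 → ℝ) (r : ℝ) : Set T3 :=
  {x | ∀ α, ∃ u ∈ Ioc (b α) (b α + r), (u : UnitAddCircle) = x α}

/-- cells of a box -/
noncomputable def cellc (b : Fin 3 → ℝ) (L : ℝ) (m : ℕ) (c : Fin 3 → Fin m) : Fin 3 → ℝ :=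
  fun α => b α + L / m * ((c α : ℕ) : ℝ)

/-- The one body box inequality for the set `q` with potential `v` and constant `κ`. -/
def BoxIneq (κ : ℝ≥0∞) (v : T3 → ℝ≥0∞) (q : Set T3) : Prop :=
  ∀ (φ : T3 → ℂ) (g : Fin 3 → T3 → ℂ), HG1 φ g → ∀ z ∈ q,
    κ * ∫⁻ x in q, ‖φ x‖ₑ ^ 2 ∂lam3
      ≤ (∑ α, ∫⁻ x in q, ‖g α x‖ₑ ^ 2 ∂lam3) + ∫⁻ x in q, v (x - z) * ‖φ x‖ₑ ^ 2 ∂lam3

end Pool.Agent.Lib.MP_4952d6_mp.LA

end

/-! ### LA.C1 -/

section

/-!
# JOB LA-C1: Poincare inequality on a cube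

Proof: `∫_B ‖φ - m‖² ≤ (1/2) s⁻³ ∫_B ∫_B ‖φ x - φ y‖² dy dx` with `m` the mean (expand, or Jensen: `‖φ x - m‖² ≤ s⁻³ ∫_B ‖φ x - φ y‖² dy` gives the same without the factor `1/2`
and is NOT enough).  `φ x - φ y` is the sum of three differences in one coordinate each (change one coordinate at a time), `‖a+b+c‖² ≤ 3 (‖a‖²+‖b‖²+‖c‖²)`, and each one is an
integral of one coordinate derivative over an interval of length `≤ s` contained in the cube: `‖Δ_α‖² ≤ s ∫_{b α}^{b α + s} ‖∂_α φ‖² dt`.  Integrate over `x`, `y`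
(`Fin 3 → ℝ`: split off the coordinate `α` with `MeasurableEquiv.piFinSuccAbove`, or use `Measure.pi` and `integral_fin_three`-like iterated integrals):
`∫∫ ‖Δ_α‖² ≤ s⁵ ∫_B ‖∂_α φ‖²`.  Total: `(1/2) s⁻³ · 3 · s⁵`.  (All functions are continuous, the cube is bounded: everything is integrable.)
Alternatively: 1D inequality `∫_I |f - mean|² ≤ (s²/6) ∫_I |f'|²` and induction over the coordinates.
-/

set_option autoImplicit false
set_option linter.unusedSectionVars false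
set_option linter.unusedVariables false
open MeasureTheory Function Filter Topology Set ComplexConjugate
open scoped ENNReal

namespace Pool.Agent.Lib.MP_4952d6_mp.LA

theorem C1_cube_meas (b : Fin 3 → ℝ) (r : ℝ) : MeasurableSet (cube b r) :=
  MeasurableSet.univ_pi fun _ => measurableSet_Ioc

theorem C1_io {E : Type*} [NormedAddCommGroup E] {f : (Fin 3 → ℝ) → E} (hf : Continuous f) (b : Fin 3 → ℝ)
    (r : ℝ) : IntegrableOn f (cube b r) := by
  have hc : IsCompact (Set.pi Set.univ fun α => Icc (b α) (b α + r)) := isCompact_univ_pi fun _ => isCompact_Icc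
  have h1 : IntegrableOn f (Set.pi Set.univ fun α => Icc (b α) (b α + r)) := hf.continuousOn.integrableOn_compact hc
  exact h1.mono_set (Set.pi_mono fun _ _ => Ioc_subset_Icc_self)

theorem C1_vol (b : Fin 3 → ℝ) {s : ℝ} (hs : 0 ≤ s) : (volume (cube b s)).toReal = s ^ 3 := by
  unfold cube
  rw [Real.volume_pi_Ioc_toReal (fun α => by linarith)]
  rw [Finset.prod_congr rfl (fun α _ => (by ring : b α + s - b α = s)), Finset.prod_const, Finset.card_univ,
    Fintype.card_fin]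

/-- expansion of the square -/
theorem C1_ex {X : Type*} [MeasurableSpace X] {μ : Measure X} [IsFiniteMeasure μ] {f : X → ℂ}
    (hf : Integrable f μ) (hf2 : Integrable (fun x => ‖f x‖ ^ 2) μ) (c : ℂ) :
    ∫ x, ‖f x - c‖ ^ 2 ∂μ = (∫ x, ‖f x‖ ^ 2 ∂μ) - 2 * inner ℝ c (∫ x, f x ∂μ) + μ.real univ * ‖c‖ ^ 2 := by
  have hpt : ∀ x, ‖f x - c‖ ^ 2 = ‖f x‖ ^ 2 - 2 * inner ℝ c (f x) + ‖c‖ ^ 2 := by
    intro x
    rw [norm_sub_sq_real, real_inner_comm]
  have hi : Integrable (fun x => inner ℝ c (f x)) μ := hf.const_inner c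
  have hi2 : Integrable (fun x => 2 * inner ℝ c (f x)) μ := hi.const_mul 2
  have hi3 : Integrable (fun x => ‖f x‖ ^ 2 - 2 * inner ℝ c (f x)) μ := hf2.sub hi2
  have h1 : ∫ x, ‖f x - c‖ ^ 2 ∂μ = ∫ x, ((‖f x‖ ^ 2 - 2 * inner ℝ c (f x)) + ‖c‖ ^ 2) ∂μ :=
    integral_congr_ae (Eventually.of_forall fun x => hpt x)
  rw [h1, integral_add hi3 (integrable_const _), integral_sub hf2 hi2, integral_const_mul, integral_const,
    smul_eq_mul, integral_inner hf c]

/-- the mean minimises -/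
theorem C1_min {X : Type*} [MeasurableSpace X] {μ : Measure X} [IsFiniteMeasure μ] {f : X → ℂ}
    (hf : Integrable f μ) (hf2 : Integrable (fun x => ‖f x‖ ^ 2) μ) {M : ℝ} (hM : μ.real univ = M)
    (hM0 : 0 < M) (c : ℂ) :
    ∫ x, ‖f x - (M⁻¹ : ℝ) • ∫ y, f y ∂μ‖ ^ 2 ∂μ ≤ ∫ x, ‖f x - c‖ ^ 2 ∂μ := by
  rw [C1_ex hf hf2, C1_ex hf hf2, hM]
  set I : ℂ := ∫ x, f x ∂μ with hI
  have h1 : inner ℝ ((M⁻¹ : ℝ) • I) I = M⁻¹ * ‖I‖ ^ 2 := by
    rw [real_inner_smul_left, real_inner_self_eq_norm_sq]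
  have h2 : ‖(M⁻¹ : ℝ) • I‖ ^ 2 = M⁻¹ ^ 2 * ‖I‖ ^ 2 := by
    rw [norm_smul, mul_pow, Real.norm_eq_abs, sq_abs]
  have h3 : 0 ≤ ‖c - (M⁻¹ : ℝ) • I‖ ^ 2 := by positivity
  rw [norm_sub_sq_real, real_inner_smul_right, h2] at h3
  rw [h1, h2]
  have h4 : M * M⁻¹ = 1 := mul_inv_cancel₀ hM0.ne'
  have h5 : 0 ≤ M * (‖c‖ ^ 2 - 2 * (M⁻¹ * inner ℝ c I) + M⁻¹ ^ 2 * ‖I‖ ^ 2) := mul_nonneg hM0.le h3
  have h6 : M * (‖c‖ ^ 2 - 2 * (M⁻¹ * inner ℝ c I) + M⁻¹ ^ 2 * ‖I‖ ^ 2) =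
      M * ‖c‖ ^ 2 - 2 * (M * M⁻¹) * inner ℝ c I + (M * M⁻¹) * M⁻¹ * ‖I‖ ^ 2 := by ring
  have h7 : M * (M⁻¹ ^ 2 * ‖I‖ ^ 2) = (M * M⁻¹) * M⁻¹ * ‖I‖ ^ 2 := by ring
  rw [h6, h4] at h5
  rw [h7, h4]
  linarith

/-- Cauchy-Schwarz -/
theorem C1_cs {X : Type*} [MeasurableSpace X] {μ : Measure X} [IsFiniteMeasure μ] {f : X → ℂ}
    (hf : Integrable f μ) (hf2 : Integrable (fun x => ‖f x‖ ^ 2) μ) :
    ‖∫ x, f x ∂μ‖ ^ 2 ≤ μ.real univ * ∫ x, ‖f x‖ ^ 2 ∂μ := by
  rcases (measureReal_nonneg (μ := μ) (s := univ)).eq_or_lt with h0 | h0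
  · have h1 : μ univ = 0 := by
      rw [eq_comm, measureReal_def, ENNReal.toReal_eq_zero_iff] at h0
      exact h0.resolve_right (measure_ne_top _ _)
    have h2 : μ = 0 := Measure.measure_univ_eq_zero.1 h1
    subst h2
    simp
  · set M := μ.real univ with hM
    have h1 : 0 ≤ ∫ x, ‖f x - (M⁻¹ : ℝ) • ∫ y, f y ∂μ‖ ^ 2 ∂μ := integral_nonneg fun x => by positivity
    rw [C1_ex hf hf2, ← hM] at h1
    set I : ℂ := ∫ x, f x ∂μ with hI
    have h3 : inner ℝ ((M⁻¹ : ℝ) • I) I = M⁻¹ * ‖I‖ ^ 2 := by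
      rw [real_inner_smul_left, real_inner_self_eq_norm_sq]
    have h2 : ‖(M⁻¹ : ℝ) • I‖ ^ 2 = M⁻¹ ^ 2 * ‖I‖ ^ 2 := by
      rw [norm_smul, mul_pow, Real.norm_eq_abs, sq_abs]
    rw [h3, h2] at h1
    have h4 : M * M⁻¹ = 1 := mul_inv_cancel₀ h0.ne'
    have h5 := mul_nonneg h0.le h1
    have h6 : M * ((∫ x, ‖f x‖ ^ 2 ∂μ) - 2 * (M⁻¹ * ‖I‖ ^ 2) + M * (M⁻¹ ^ 2 * ‖I‖ ^ 2)) =
        M * (∫ x, ‖f x‖ ^ 2 ∂μ) - 2 * (M * M⁻¹) * ‖I‖ ^ 2 + (M * M⁻¹) ^ 2 * ‖I‖ ^ 2 := by ring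
    rw [h6, h4] at h5
    linarith

/-- Cauchy-Schwarz on an interval -/
theorem C1_cs_int {f : ℝ → ℂ} (hf : Continuous f) {p q : ℝ} (hpq : p ≤ q) :
    ‖∫ t in p..q, f t‖ ^ 2 ≤ (q - p) * ∫ t in p..q, ‖f t‖ ^ 2 := by
  rw [intervalIntegral.integral_of_le hpq, intervalIntegral.integral_of_le hpq]
  have h1 : Integrable f (volume.restrict (Ioc p q)) := (hf.integrableOn_Icc).mono_set Ioc_subset_Icc_self
  have h2 : Integrable (fun t => ‖f t‖ ^ 2) (volume.restrict (Ioc p q)) :=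
    ((hf.norm.pow 2).integrableOn_Icc).mono_set Ioc_subset_Icc_self
  refine (C1_cs h1 h2).trans (le_of_eq ?_)
  rw [measureReal_def, Measure.restrict_apply_univ, Real.volume_Ioc, ENNReal.toReal_ofReal (by linarith)]

/-- 1D inequality, mean -/
theorem C1_one {f f' : ℝ → ℂ} (hf : ∀ t, HasDerivAt f (f' t) t) (hf' : Continuous f') (a : ℝ) {s : ℝ}
    (hs : 0 < s) :
    ∫ t in a..(a + s), ‖f t - (s⁻¹ : ℝ) • ∫ u in a..(a + s), f u‖ ^ 2
      ≤ s ^ 2 / 2 * ∫ t in a..(a + s), ‖f' t‖ ^ 2 := by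
  have hfc : Continuous f := continuous_iff_continuousAt.2 fun t => (hf t).continuousAt
  have has : a ≤ a + s := by linarith
  have hgc : Continuous fun t => ‖f' t‖ ^ 2 := hf'.norm.pow 2
  have hgi : ∀ p q, IntervalIntegrable (fun t => ‖f' t‖ ^ 2) volume p q := fun p q => hgc.intervalIntegrable p q
  set K := ∫ t in a..(a + s), ‖f' t‖ ^ 2 with hK
  have hK0 : ∀ p q, p ≤ q → 0 ≤ ∫ t in p..q, ‖f' t‖ ^ 2 := fun p q hpq =>
    intervalIntegral.integral_nonneg hpq fun t _ => by positivity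
  have hsub : ∀ p q, a ≤ p → p ≤ q → q ≤ a + s → ∫ t in p..q, ‖f' t‖ ^ 2 ≤ K := by
    intro p q h1 h2 h3
    have e1 := intervalIntegral.integral_add_adjacent_intervals (hgi a p) (hgi p q)
    have e2 := intervalIntegral.integral_add_adjacent_intervals (hgi a q) (hgi q (a + s))
    have e3 := hK0 a p h1
    have e4 := hK0 q (a + s) h3
    linarith
  have hseg : ∀ p q, a ≤ p → p ≤ q → q ≤ a + s → q - p ≤ s / 2 → ‖f q - f p‖ ^ 2 ≤ s / 2 * K := by
    intro p q h1 h2 h3 h4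
    have e1 : ∫ t in p..q, f' t = f q - f p :=
      intervalIntegral.integral_eq_sub_of_hasDerivAt (fun t _ => hf t) (hf'.intervalIntegrable p q)
    rw [← e1]
    calc ‖∫ t in p..q, f' t‖ ^ 2 ≤ (q - p) * ∫ t in p..q, ‖f' t‖ ^ 2 := C1_cs_int hf' h2
      _ ≤ s / 2 * K := mul_le_mul h4 (hsub p q h1 h2 h3) (hK0 p q h2) (by linarith)
  set c := f (a + s / 2) with hc
  have hpt : ∀ t ∈ Icc a (a + s), ‖f t - c‖ ^ 2 ≤ s / 2 * K := by
    intro t ht
    rcases le_total t (a + s / 2) with h | h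
    · rw [norm_sub_rev]
      exact hseg t (a + s / 2) ht.1 h (by linarith) (by linarith [ht.1])
    · exact hseg (a + s / 2) t (by linarith) h ht.2 (by linarith [ht.2])
  have h1 : ∫ t in a..(a + s), ‖f t - (s⁻¹ : ℝ) • ∫ u in a..(a + s), f u‖ ^ 2 ≤
      ∫ t in a..(a + s), ‖f t - c‖ ^ 2 := by
    rw [intervalIntegral.integral_of_le has, intervalIntegral.integral_of_le has,
      intervalIntegral.integral_of_le has]
    have e1 : Integrable f (volume.restrict (Ioc a (a + s))) := (hfc.integrableOn_Icc).mono_set Ioc_subset_Icc_self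
    have e2 : Integrable (fun t => ‖f t‖ ^ 2) (volume.restrict (Ioc a (a + s))) :=
      ((hfc.norm.pow 2).integrableOn_Icc).mono_set Ioc_subset_Icc_self
    refine C1_min e1 e2 ?_ hs c
    rw [measureReal_def, Measure.restrict_apply_univ, Real.volume_Ioc, ENNReal.toReal_ofReal (by linarith)]
    ring
  refine h1.trans ?_
  have h2 : ∫ t in a..(a + s), ‖f t - c‖ ^ 2 ≤ ∫ t in a..(a + s), s / 2 * K :=
    intervalIntegral.integral_mono_on has
      (((hfc.sub continuous_const).norm.pow 2).intervalIntegrable _ _) (intervalIntegrable_const) hpt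
  rw [intervalIntegral.integral_const, smul_eq_mul] at h2
  calc ∫ t in a..(a + s), ‖f t - c‖ ^ 2 ≤ (a + s - a) * (s / 2 * K) := h2
    _ = s ^ 2 / 2 * K := by ring

/-- Fubini for one coordinate -/
theorem C1_fub {F : (Fin 3 → ℝ) → ℝ} (hF : Continuous F) (h0 : ∀ x, 0 ≤ F x) (b : Fin 3 → ℝ) {s : ℝ}
    (hs : 0 < s) (α : Fin 3) :
    ∫ x in cube b s, (∫ t in (b α)..(b α + s), F (update x α t)) = s * ∫ x in cube b s, F x := by
  have has : b α ≤ b α + s := by linarith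
  have hu : Continuous fun p : (Fin 3 → ℝ) × ℝ => update p.1 α p.2 := continuous_fst.update α continuous_snd
  have hFu : Continuous fun p : (Fin 3 → ℝ) × ℝ => F (update p.1 α p.2) := hF.comp hu
  have hFx : ∀ x, Continuous fun t => F (update x α t) := fun x => hF.comp (continuous_const.update α continuous_id)
  have hg : Continuous fun x => ∫ t in (b α)..(b α + s), F (update x α t) :=
    intervalIntegral.continuous_parametric_intervalIntegral_of_continuous' (f := fun x t => F (update x α t))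
      hFu (b α) (b α + s)
  set ν : Fin 3 → Measure ℝ := fun i => volume.restrict (Ioc (b i) (b i + s)) with hν
  have hpi : (volume : Measure (Fin 3 → ℝ)).restrict (cube b s) = Measure.pi ν := by
    rw [volume_pi, hν]
    exact Measure.restrict_pi_pi _ _
  have hνα : ν α univ = ENNReal.ofReal s := by
    rw [hν]
    simp only [Measure.restrict_apply_univ, Real.volume_Ioc]
    congr 1
    ring
  have key : ∫⁻ x, (∫⁻ t, ENNReal.ofReal (F (update x α t)) ∂ν α) ∂Measure.pi ν =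
      ∫⁻ x, ENNReal.ofReal s * ENNReal.ofReal (F x) ∂Measure.pi ν := by
    have hm1 : Measurable fun x => ENNReal.ofReal (F x) := hF.measurable.ennreal_ofReal
    have hm2 : Measurable fun x : Fin 3 → ℝ => ∫⁻ t, ENNReal.ofReal (F (update x α t)) ∂ν α :=
      Measurable.lintegral_prod_right' (f := fun p : (Fin 3 → ℝ) × ℝ => ENNReal.ofReal (F (update p.1 α p.2)))
        hFu.measurable.ennreal_ofReal
    refine lintegral_eq_of_lmarginal_eq {α} hm2 (hm1.const_mul _) ?_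
    rw [lmarginal_singleton, lmarginal_singleton]
    funext x
    have e1 : ∀ t : ℝ, (∫⁻ t', ENNReal.ofReal (F (update (update x α t) α t')) ∂ν α) =
        ∫⁻ t', ENNReal.ofReal (F (update x α t')) ∂ν α := by
      intro t
      refine lintegral_congr fun t' => ?_
      rw [update_idem]
    simp only [e1]
    rw [lintegral_const, hνα, lintegral_const_mul _ (hFx x).measurable.ennreal_ofReal, mul_comm]
  have hg0 : ∀ x, 0 ≤ ∫ t in (b α)..(b α + s), F (update x α t) := fun x =>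
    intervalIntegral.integral_nonneg has fun t _ => h0 _
  rw [integral_eq_lintegral_of_nonneg_ae (Eventually.of_forall hg0) hg.aestronglyMeasurable,
    integral_eq_lintegral_of_nonneg_ae (Eventually.of_forall h0) hF.aestronglyMeasurable, hpi]
  have e2 : ∀ x, ENNReal.ofReal (∫ t in (b α)..(b α + s), F (update x α t)) =
      ∫⁻ t, ENNReal.ofReal (F (update x α t)) ∂ν α := by
    intro x
    rw [intervalIntegral.integral_of_le has]
    exact ofReal_integral_eq_lintegral_ofReal (((hFx x).integrableOn_Icc).mono_set Ioc_subset_Icc_self)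
      (Eventually.of_forall fun t => h0 _)
  simp only [e2]
  rw [key, lintegral_const_mul _ hF.measurable.ennreal_ofReal, ENNReal.toReal_mul, ENNReal.toReal_ofReal hs.le]

/-- average over one coordinate -/
noncomputable def C1_E (b : Fin 3 → ℝ) (s : ℝ) (α : Fin 3) (g : (Fin 3 → ℝ) → ℂ) (x : Fin 3 → ℝ) : ℂ :=
  (s⁻¹ : ℝ) • ∫ t in (b α)..(b α + s), g (update x α t)

theorem C1_E_cont (b : Fin 3 → ℝ) (s : ℝ) (α : Fin 3) {g : (Fin 3 → ℝ) → ℂ} (hg : Continuous g) :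
    Continuous (C1_E b s α g) := by
  have hu : Continuous fun p : (Fin 3 → ℝ) × ℝ => update p.1 α p.2 := continuous_fst.update α continuous_snd
  have hFu : Continuous fun p : (Fin 3 → ℝ) × ℝ => g (update p.1 α p.2) := hg.comp hu
  have h1 : Continuous fun x => ∫ t in (b α)..(b α + s), g (update x α t) :=
    intervalIntegral.continuous_parametric_intervalIntegral_of_continuous' (f := fun x t => g (update x α t))
      hFu (b α) (b α + s)
  exact h1.const_smul (s⁻¹ : ℝ)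

theorem C1_slice {E : Type*} [TopologicalSpace E] {g : (Fin 3 → ℝ) → E} (hg : Continuous g) (x : Fin 3 → ℝ)
    (α : Fin 3) : Continuous fun t => g (update x α t) := hg.comp (continuous_const.update α continuous_id)

theorem C1_E_sub (b : Fin 3 → ℝ) (s : ℝ) (α : Fin 3) {g h : (Fin 3 → ℝ) → ℂ} (hg : Continuous g)
    (hh : Continuous h) (x : Fin 3 → ℝ) :
    C1_E b s α (fun y => g y - h y) x = C1_E b s α g x - C1_E b s α h x := by
  unfold C1_E
  rw [← smul_sub, intervalIntegral.integral_sub ((C1_slice hg x α).intervalIntegrable _ _)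
    ((C1_slice hh x α).intervalIntegrable _ _)]

theorem C1_E_contr (b : Fin 3 → ℝ) {s : ℝ} (hs : 0 < s) (α : Fin 3) {g : (Fin 3 → ℝ) → ℂ} (hg : Continuous g) :
    ∫ x in cube b s, ‖C1_E b s α g x‖ ^ 2 ≤ ∫ x in cube b s, ‖g x‖ ^ 2 := by
  have hG : Continuous fun x => ‖g x‖ ^ 2 := hg.norm.pow 2
  have h1 := C1_fub hG (fun x => by positivity) b hs α
  have hu : Continuous fun p : (Fin 3 → ℝ) × ℝ => update p.1 α p.2 := continuous_fst.update α continuous_snd
  have hFu : Continuous fun p : (Fin 3 → ℝ) × ℝ => ‖g (update p.1 α p.2)‖ ^ 2 := hG.comp hu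
  have hc : Continuous fun x => ∫ t in (b α)..(b α + s), ‖g (update x α t)‖ ^ 2 :=
    intervalIntegral.continuous_parametric_intervalIntegral_of_continuous'
      (f := fun x t => ‖g (update x α t)‖ ^ 2) hFu (b α) (b α + s)
  have h2 : ∫ x in cube b s, ‖C1_E b s α g x‖ ^ 2 ≤
      ∫ x in cube b s, s⁻¹ * ∫ t in (b α)..(b α + s), ‖g (update x α t)‖ ^ 2 := by
    refine setIntegral_mono_on (C1_io ((C1_E_cont b s α hg).norm.pow 2) b s)
      (C1_io (continuous_const.mul hc) b s) (C1_cube_meas b s) fun x _ => ?_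
    have e1 := C1_cs_int (C1_slice hg x α) (by linarith : b α ≤ b α + s)
    have e2 : ‖C1_E b s α g x‖ ^ 2 = s⁻¹ ^ 2 * ‖∫ t in (b α)..(b α + s), g (update x α t)‖ ^ 2 := by
      unfold C1_E
      rw [norm_smul, mul_pow, Real.norm_eq_abs, sq_abs]
    rw [e2]
    calc s⁻¹ ^ 2 * ‖∫ t in (b α)..(b α + s), g (update x α t)‖ ^ 2 ≤
          s⁻¹ ^ 2 * ((b α + s - b α) * ∫ t in (b α)..(b α + s), ‖g (update x α t)‖ ^ 2) :=
          mul_le_mul_of_nonneg_left e1 (by positivity)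
      _ = s⁻¹ * ∫ t in (b α)..(b α + s), ‖g (update x α t)‖ ^ 2 := by
          field_simp
          ring
  rw [integral_const_mul, h1, ← mul_assoc, inv_mul_cancel₀ hs.ne', one_mul] at h2
  exact h2

theorem C1_E_upd (b : Fin 3 → ℝ) (s : ℝ) (α : Fin 3) (g : (Fin 3 → ℝ) → ℂ) (x : Fin 3 → ℝ) (t : ℝ) :
    C1_E b s α g (update x α t) = C1_E b s α g x := by
  unfold C1_E
  simp only [update_idem]

theorem C1_E_upd2 (b : Fin 3 → ℝ) (s : ℝ) {α β : Fin 3} (hne : α ≠ β) {g : (Fin 3 → ℝ) → ℂ}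
    (hg : ∀ x t, g (update x β t) = g x) (x : Fin 3 → ℝ) (t : ℝ) :
    C1_E b s α g (update x β t) = C1_E b s α g x := by
  unfold C1_E
  congr 1
  refine intervalIntegral.integral_congr fun u _ => ?_
  rw [update_comm hne.symm, hg]

theorem C1_E_poin (b : Fin 3 → ℝ) {s : ℝ} (hs : 0 < s) (α : Fin 3) {φ : (Fin 3 → ℝ) → ℂ}
    (hφ : ContDiff ℝ 1 φ) :
    ∫ x in cube b s, ‖φ x - C1_E b s α φ x‖ ^ 2 ≤
      s ^ 2 / 2 * ∫ x in cube b s, ‖fderiv ℝ φ x (Pi.single α 1)‖ ^ 2 := by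
  have hφc : Continuous φ := hφ.continuous
  have hEc := C1_E_cont b s α hφc
  have hd1 : Continuous (fderiv ℝ φ) := hφ.continuous_fderiv (by norm_num)
  have hd : Continuous fun x => fderiv ℝ φ x (Pi.single α 1) := hd1.clm_apply continuous_const
  have hA : Continuous fun x => ‖φ x - C1_E b s α φ x‖ ^ 2 := (hφc.sub hEc).norm.pow 2
  have hB : Continuous fun x => ‖fderiv ℝ φ x (Pi.single α 1)‖ ^ 2 := hd.norm.pow 2
  have hu : Continuous fun p : (Fin 3 → ℝ) × ℝ => update p.1 α p.2 := continuous_fst.update α continuous_snd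
  have hcA : Continuous fun x => ∫ t in (b α)..(b α + s), ‖φ (update x α t) - C1_E b s α φ (update x α t)‖ ^ 2 :=
    intervalIntegral.continuous_parametric_intervalIntegral_of_continuous'
      (f := fun x t => ‖φ (update x α t) - C1_E b s α φ (update x α t)‖ ^ 2) (hA.comp hu) (b α) (b α + s)
  have hcB : Continuous fun x => ∫ t in (b α)..(b α + s), ‖fderiv ℝ φ (update x α t) (Pi.single α 1)‖ ^ 2 :=
    intervalIntegral.continuous_parametric_intervalIntegral_of_continuous'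
      (f := fun x t => ‖fderiv ℝ φ (update x α t) (Pi.single α 1)‖ ^ 2) (hB.comp hu) (b α) (b α + s)
  have hfA := C1_fub hA (fun x => by positivity) b hs α
  have hfB := C1_fub hB (fun x => by positivity) b hs α
  have h2 : ∫ x in cube b s, (∫ t in (b α)..(b α + s), ‖φ (update x α t) - C1_E b s α φ (update x α t)‖ ^ 2) ≤
      ∫ x in cube b s, s ^ 2 / 2 * ∫ t in (b α)..(b α + s), ‖fderiv ℝ φ (update x α t) (Pi.single α 1)‖ ^ 2 := by
    refine setIntegral_mono_on (C1_io hcA b s) (C1_io (continuous_const.mul hcB) b s)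
      (C1_cube_meas b s) fun x _ => ?_
    simp only [C1_E_upd]
    refine C1_one (f := fun t => φ (update x α t)) (f' := fun t => fderiv ℝ φ (update x α t) (Pi.single α 1))
      (fun t => ?_) (hd.comp (continuous_const.update α continuous_id)) (b α) hs
    have e1 : HasFDerivAt φ (fderiv ℝ φ (update x α t)) (update x α t) :=
      ((hφ.differentiable (by norm_num)) _).hasFDerivAt
    exact e1.comp_hasDerivAt t (hasDerivAt_update x α t)
  rw [integral_const_mul, hfA, hfB] at h2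
  have h3 : s * (s ^ 2 / 2 * ∫ x in cube b s, ‖fderiv ℝ φ x (Pi.single α 1)‖ ^ 2) =
      s ^ 2 / 2 * (s * ∫ x in cube b s, ‖fderiv ℝ φ x (Pi.single α 1)‖ ^ 2) := by ring
  rw [← h3] at h2
  exact le_of_mul_le_mul_left h2 hs

theorem poincare {φ : (Fin 3 → ℝ) → ℂ} (hφ : ContDiff ℝ 1 φ) (b : Fin 3 → ℝ) {s : ℝ} (hs : 0 < s) :
    ∫ u in cube b s, ‖φ u - ((s ^ 3)⁻¹ : ℝ) • ∫ v in cube b s, φ v‖ ^ 2
      ≤ 3 / 2 * s ^ 2 * ∫ u in cube b s, gsq φ u := by
  have hφc : Continuous φ := hφ.continuous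
  have hs3 : (0 : ℝ) < s ^ 3 := by positivity
  have hd1 : Continuous (fderiv ℝ φ) := hφ.continuous_fderiv (by norm_num)
  have hd : ∀ α : Fin 3, Continuous fun x => ‖fderiv ℝ φ x (Pi.single α 1)‖ ^ 2 := fun α =>
    (hd1.clm_apply continuous_const).norm.pow 2
  have h0c := C1_E_cont b s 0 hφc
  have h1c := C1_E_cont b s 1 hφc
  have h2c := C1_E_cont b s 2 hφc
  have h12c := C1_E_cont b s 1 h2c
  have h01c := C1_E_cont b s 0 h1c
  have h012c := C1_E_cont b s 0 h12c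
  set e := C1_E b s 0 (C1_E b s 1 (C1_E b s 2 φ)) with he
  -- e is constant
  have hu2 : ∀ x t, e (update x 2 t) = e x := fun x t =>
    C1_E_upd2 b s (by decide) (fun y v => C1_E_upd2 b s (by decide) (fun y' v' => C1_E_upd b s 2 φ y' v') y v) x t
  have hu1 : ∀ x t, e (update x 1 t) = e x := fun x t =>
    C1_E_upd2 b s (by decide) (fun y v => C1_E_upd b s 1 _ y v) x t
  have hu0 : ∀ x t, e (update x 0 t) = e x := fun x t => C1_E_upd b s 0 _ x t
  have hconst : ∀ x, e x = e 0 := by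
    intro x
    have h1 : x = update (update (update (0 : Fin 3 → ℝ) 0 (x 0)) 1 (x 1)) 2 (x 2) := by
      funext i
      fin_cases i <;> simp [update]
    rw [h1, hu2, hu1, hu0]
  have : IsFiniteMeasure ((volume : Measure (Fin 3 → ℝ)).restrict (cube b s)) := by
    refine ⟨?_⟩
    rw [Measure.restrict_apply_univ]
    have hc : IsCompact (Set.pi Set.univ fun α => Icc (b α) (b α + s)) := isCompact_univ_pi fun _ => isCompact_Icc
    exact (measure_mono (Set.pi_mono fun _ _ => Ioc_subset_Icc_self)).trans_lt hc.measure_lt_top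
  have hmin : ∫ u in cube b s, ‖φ u - ((s ^ 3)⁻¹ : ℝ) • ∫ v in cube b s, φ v‖ ^ 2 ≤
      ∫ u in cube b s, ‖φ u - e 0‖ ^ 2 := by
    refine C1_min (C1_io hφc b s) (C1_io (hφc.norm.pow 2) b s) ?_ hs3 (e 0)
    rw [measureReal_def, Measure.restrict_apply_univ, C1_vol b hs.le]
  refine hmin.trans ?_
  set A : (Fin 3 → ℝ) → ℂ := fun x => φ x - C1_E b s 0 φ x with hA
  set B : (Fin 3 → ℝ) → ℂ := fun x => φ x - C1_E b s 1 φ x with hB
  set C : (Fin 3 → ℝ) → ℂ := fun x => φ x - C1_E b s 2 φ x with hC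
  have hAc : Continuous A := hφc.sub h0c
  have hBc : Continuous B := hφc.sub h1c
  have hCc : Continuous C := hφc.sub h2c
  have hEB : C1_E b s 0 B = fun x => C1_E b s 0 φ x - C1_E b s 0 (C1_E b s 1 φ) x := by
    funext x
    exact C1_E_sub b s 0 hφc h1c x
  have hEC1 : C1_E b s 1 C = fun x => C1_E b s 1 φ x - C1_E b s 1 (C1_E b s 2 φ) x := by
    funext x
    exact C1_E_sub b s 1 hφc h2c x
  have hEC : C1_E b s 0 (C1_E b s 1 C) = fun x => C1_E b s 0 (C1_E b s 1 φ) x - e x := by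
    funext x
    rw [hEC1]
    exact C1_E_sub b s 0 h1c h12c x
  have hsum : ∀ x, φ x - e 0 = A x + C1_E b s 0 B x + C1_E b s 0 (C1_E b s 1 C) x := by
    intro x
    rw [hEB, hEC, ← hconst x, hA]
    ring
  have hEBc : Continuous (C1_E b s 0 B) := C1_E_cont b s 0 hBc
  have hECc : Continuous (C1_E b s 0 (C1_E b s 1 C)) := C1_E_cont b s 0 (C1_E_cont b s 1 hCc)
  have hiA : IntegrableOn (fun x => ‖A x‖ ^ 2) (cube b s) := C1_io (hAc.norm.pow 2) b s
  have hiB : IntegrableOn (fun x => ‖C1_E b s 0 B x‖ ^ 2) (cube b s) := C1_io (hEBc.norm.pow 2) b s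
  have hiC : IntegrableOn (fun x => ‖C1_E b s 0 (C1_E b s 1 C) x‖ ^ 2) (cube b s) := C1_io (hECc.norm.pow 2) b s
  have hiAB : IntegrableOn (fun x => ‖A x‖ ^ 2 + ‖C1_E b s 0 B x‖ ^ 2) (cube b s) := hiA.add hiB
  have h1 : ∫ u in cube b s, ‖φ u - e 0‖ ^ 2 ≤
      ∫ u in cube b s, 3 * (‖A u‖ ^ 2 + ‖C1_E b s 0 B u‖ ^ 2 + ‖C1_E b s 0 (C1_E b s 1 C) u‖ ^ 2) := by
    refine setIntegral_mono_on (C1_io ((hφc.sub continuous_const).norm.pow 2) b s)
      (C1_io (continuous_const.mul (((hAc.norm.pow 2).add (hEBc.norm.pow 2)).add (hECc.norm.pow 2))) b s)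
      (C1_cube_meas b s) fun x _ => ?_
    rw [hsum x]
    have e1 := norm_add₃_le (a := A x) (b := C1_E b s 0 B x) (c := C1_E b s 0 (C1_E b s 1 C) x)
    have e2 := pow_le_pow_left₀ (norm_nonneg _) e1 2
    nlinarith [sq_nonneg (‖A x‖ - ‖C1_E b s 0 B x‖), sq_nonneg (‖A x‖ - ‖C1_E b s 0 (C1_E b s 1 C) x‖),
      sq_nonneg (‖C1_E b s 0 B x‖ - ‖C1_E b s 0 (C1_E b s 1 C) x‖)]
  rw [integral_const_mul, integral_add hiAB hiC, integral_add hiA hiB] at h1
  have hpA := C1_E_poin b hs 0 hφ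
  have hpB := (C1_E_contr b hs 0 hBc).trans (C1_E_poin b hs 1 hφ)
  have hpC := ((C1_E_contr b hs 0 (C1_E_cont b s 1 hCc)).trans (C1_E_contr b hs 1 hCc)).trans
    (C1_E_poin b hs 2 hφ)
  have hg : ∫ u in cube b s, gsq φ u = (∫ x in cube b s, ‖fderiv ℝ φ x (Pi.single 0 1)‖ ^ 2) +
      (∫ x in cube b s, ‖fderiv ℝ φ x (Pi.single 1 1)‖ ^ 2) +
      ∫ x in cube b s, ‖fderiv ℝ φ x (Pi.single 2 1)‖ ^ 2 := by
    have e1 : ∀ u, gsq φ u = ‖fderiv ℝ φ u (Pi.single 0 1)‖ ^ 2 + ‖fderiv ℝ φ u (Pi.single 1 1)‖ ^ 2 +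
        ‖fderiv ℝ φ u (Pi.single 2 1)‖ ^ 2 := by
      intro u
      unfold gsq
      rw [Fin.sum_univ_three]
    simp only [e1]
    have i0 := C1_io (hd 0) b s
    have i1 := C1_io (hd 1) b s
    have i2 := C1_io (hd 2) b s
    have i01 : IntegrableOn (fun u => ‖fderiv ℝ φ u (Pi.single 0 1)‖ ^ 2 + ‖fderiv ℝ φ u (Pi.single 1 1)‖ ^ 2)
      (cube b s) := i0.add i1
    rw [integral_add i01 i2, integral_add i0 i1]
  rw [hg]
  refine h1.trans ?_
  have hA' : ∫ x in cube b s, ‖A x‖ ^ 2 ≤ s ^ 2 / 2 * ∫ x in cube b s, ‖fderiv ℝ φ x (Pi.single 0 1)‖ ^ 2 := hpA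
  nlinarith

end Pool.Agent.Lib.MP_4952d6_mp.LA

end

/-! ### LA.C2 -/

section

/-!
# JOB LA-C2: dilation

Let `D u = z + lam (u - z)`, a bijection of `cube b r` onto `cube (dcor b z lam) (lam r) ⊆ cube b r` (`z ∈ cube b r`).
`φ u = φ (D u) + ∫_lam^1 (fderiv ℝ φ (z + t (u - z)) (u - z)) dt`, so `‖φ u‖² ≤ 2 ‖φ (D u)‖² + 2 ‖∫‖²`.
`∫_B ‖φ (D u)‖² du = lam⁻³ ∫_{D B} ‖φ‖²` (change of variables, `Measure.addHaar_image_homothety` or `integral_comp_smul`-like lemmas).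
Cauchy-Schwarz with weight `t^(3/2)`: `‖∫‖² ≤ (∫_lam^1 t^(-3/2) dt) ∫_lam^1 t^(3/2) ‖fderiv φ (..) (u - z)‖² dt`, `‖fderiv φ v (u - z)‖² ≤ gsq φ v * ∑ (u α - z α)² ≤ 3 r² gsq φ v`,
`∫_B t^(3/2) gsq φ (z + t (u - z)) du = t^(-3/2) ∫_{D_t B} gsq φ ≤ t^(-3/2) ∫_B gsq φ`, and `∫_lam^1 t^(-3/2) dt ≤ 2 lam^(-1/2)`.
Total for the second part: `2 · 3 r² · (2 lam^(-1/2))² = 24 r² / lam`.
-/

set_option autoImplicit false
set_option linter.unusedSectionVars false
set_option linter.unusedVariables false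
open MeasureTheory Function Filter Topology Set ComplexConjugate
open scoped ENNReal

namespace Pool.Agent.Lib.MP_4952d6_mp.LA

theorem C2_cube_meas (b : Fin 3 → ℝ) (r : ℝ) : MeasurableSet (cube b r) :=
  MeasurableSet.univ_pi fun _ => measurableSet_Ioc

theorem C2_io {E : Type*} [NormedAddCommGroup E] {f : (Fin 3 → ℝ) → E} (hf : Continuous f) (b : Fin 3 → ℝ)
    (r : ℝ) : IntegrableOn f (cube b r) := by
  have hc : IsCompact (Set.pi Set.univ fun α => Icc (b α) (b α + r)) := isCompact_univ_pi fun _ => isCompact_Icc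
  have h1 : IntegrableOn f (Set.pi Set.univ fun α => Icc (b α) (b α + r)) := hf.continuousOn.integrableOn_compact hc
  exact h1.mono_set (Set.pi_mono fun _ _ => Ioc_subset_Icc_self)

theorem C2_gsq_cont {φ : (Fin 3 → ℝ) → ℂ} (hφ : ContDiff ℝ 1 φ) : Continuous (gsq φ) := by
  unfold gsq
  refine continuous_finsetSum _ fun α _ => ?_
  have h1 : Continuous (fderiv ℝ φ) := hφ.continuous_fderiv (by norm_num)
  exact ((h1.clm_apply continuous_const).norm).pow 2

theorem C2_gsq_nonneg (φ : (Fin 3 → ℝ) → ℂ) (u : Fin 3 → ℝ) : 0 ≤ gsq φ u :=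
  Finset.sum_nonneg fun _ _ => by positivity

theorem C2_gs (L : (Fin 3 → ℝ) →L[ℝ] ℂ) (w : Fin 3 → ℝ) :
    ‖L w‖ ^ 2 ≤ (∑ α : Fin 3, ‖L (Pi.single α 1)‖ ^ 2) * ∑ α, (w α) ^ 2 := by
  have h1 : L w = ∑ α, (w α) • L (Pi.single α 1) := by
    have h2 : w = ∑ α, (w α) • (Pi.single α (1 : ℝ) : Fin 3 → ℝ) := by
      funext i
      simp [Finset.sum_apply, Pi.single_apply]
    conv_lhs => rw [h2]
    rw [map_sum]
    exact Finset.sum_congr rfl fun α _ => L.map_smul _ _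
  have h3 : ‖L w‖ ≤ ∑ α, ‖L (Pi.single α 1)‖ * |w α| := by
    rw [h1]
    refine (norm_sum_le _ _).trans (le_of_eq ?_)
    refine Finset.sum_congr rfl fun α _ => ?_
    rw [norm_smul, Real.norm_eq_abs, mul_comm]
  have h4 := pow_le_pow_left₀ (norm_nonneg _) h3 2
  refine h4.trans ?_
  refine (Finset.sum_mul_sq_le_sq_mul_sq _ _ _).trans (le_of_eq ?_)
  simp only [sq_abs]

theorem C2_mem {b z : Fin 3 → ℝ} {r t : ℝ} (ht : 0 < t) (u : Fin 3 → ℝ) :
    z + t • (u - z) ∈ cube (dcor b z t) (t * r) ↔ u ∈ cube b r := by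
  unfold cube dcor
  simp only [mem_univ_pi, mem_Ioc, Pi.add_apply, Pi.smul_apply, Pi.sub_apply, smul_eq_mul]
  refine forall_congr' fun α => and_congr ?_ ?_
  · rw [add_lt_add_iff_left, mul_lt_mul_iff_right₀ ht, sub_lt_sub_iff_right]
  · have h1 : z α + t * (b α - z α) + t * r = z α + t * (b α + r - z α) := by ring
    rw [h1, add_le_add_iff_left, mul_le_mul_iff_right₀ ht, sub_le_sub_iff_right]

/-- change of variables -/
theorem C2_cv (f : (Fin 3 → ℝ) → ℝ) (b z : Fin 3 → ℝ) {r t : ℝ} (ht : 0 < t) :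
    ∫ u in cube b r, f (z + t • (u - z)) = t⁻¹ ^ 3 * ∫ u in cube (dcor b z t) (t * r), f u := by
  rw [← integral_indicator (C2_cube_meas b r), ← integral_indicator (C2_cube_meas _ _)]
  set G : (Fin 3 → ℝ) → ℝ := indicator (cube (dcor b z t) (t * r)) f with hG
  have h1 : ∀ u, indicator (cube b r) (fun u => f (z + t • (u - z))) u = G (z + t • (u - z)) := by
    intro u
    by_cases hu : u ∈ cube b r
    · rw [indicator_of_mem hu, hG, indicator_of_mem ((C2_mem ht u).2 hu)]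
    · rw [indicator_of_notMem hu, hG, indicator_of_notMem (fun h => hu ((C2_mem ht u).1 h))]
  simp only [h1]
  have h2 : ∫ u, G (z + t • (u - z)) = ∫ u, G (z + t • u) :=
    integral_sub_right_eq_self (fun u => G (z + t • u)) z
  have h3 : ∫ u, G (z + t • u) = |(t ^ Module.finrank ℝ (Fin 3 → ℝ))⁻¹| • ∫ u, G (z + u) :=
    Measure.integral_comp_smul volume (fun u => G (z + u)) t
  have h4 : ∫ u, G (z + u) = ∫ u, G u := integral_add_left_eq_self G z
  rw [h2, h3, h4, Module.finrank_fin_fun, abs_of_pos (by positivity), smul_eq_mul, inv_pow]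

theorem dcor_sub {b z : Fin 3 → ℝ} {r lam : ℝ} (hz : z ∈ cube b r) (h0 : 0 < lam) (h1 : lam ≤ 1) :
    cube (dcor b z lam) (lam * r) ⊆ cube b r := by
  intro u hu α hα
  have h2 := hu α hα
  have h3 := hz α hα
  simp only [dcor, mem_Ioc] at h2 h3 ⊢
  constructor
  · nlinarith [mul_nonneg (sub_nonneg.2 h1) (sub_nonneg.2 h3.1.le)]
  · nlinarith [mul_nonneg (sub_nonneg.2 h1) (sub_nonneg.2 h3.2)]

/-- the integrand -/
noncomputable def C2_H (φ : (Fin 3 → ℝ) → ℂ) (z : Fin 3 → ℝ) (u : Fin 3 → ℝ) (σ : ℝ) : ℝ :=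
  ((max σ 1)⁻¹) ^ 6 * gsq φ (z + ((max σ 1)⁻¹) ^ 2 • (u - z))

theorem C2_H_cont {φ : (Fin 3 → ℝ) → ℂ} (hφ : ContDiff ℝ 1 φ) (z : Fin 3 → ℝ) :
    Continuous (uncurry (C2_H φ z)) := by
  have h1 : Continuous fun p : (Fin 3 → ℝ) × ℝ => (max p.2 1)⁻¹ :=
    (continuous_snd.max continuous_const).inv₀ fun p => (lt_of_lt_of_le one_pos (le_max_right _ _)).ne'
  have h2 : Continuous fun p : (Fin 3 → ℝ) × ℝ => z + ((max p.2 1)⁻¹) ^ 2 • (p.1 - z) :=
    continuous_const.add ((h1.pow 2).smul (continuous_fst.sub continuous_const))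
  exact (h1.pow 6).mul ((C2_gsq_cont hφ).comp h2)

theorem C2_pt {φ : (Fin 3 → ℝ) → ℂ} (hφ : ContDiff ℝ 1 φ) {z u : Fin 3 → ℝ} {r S : ℝ} (hS : 1 ≤ S)
    (hw : ∑ α, (u α - z α) ^ 2 ≤ 3 * r ^ 2) :
    ‖φ u - φ (z + (S⁻¹) ^ 2 • (u - z))‖ ^ 2 ≤ (S - 1) * (12 * r ^ 2 * ∫ σ in (1 : ℝ)..S, C2_H φ z u σ) := by
  set γ : ℝ → Fin 3 → ℝ := fun σ => z + (σ⁻¹) ^ 2 • (u - z) with hγ
  set g' : ℝ → ℂ := fun σ => fderiv ℝ φ (γ σ) ((-(2 * (σ⁻¹) ^ 3)) • (u - z)) with hg'
  have hd1 : Continuous (fderiv ℝ φ) := hφ.continuous_fderiv (by norm_num)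
  have hpos : ∀ σ ∈ Icc 1 S, (0 : ℝ) < σ := fun σ hσ => lt_of_lt_of_le one_pos hσ.1
  have hder : ∀ σ ∈ Icc 1 S, HasDerivAt (fun σ => φ (γ σ)) (g' σ) σ := by
    intro σ hσ
    have hσ0 := (hpos σ hσ).ne'
    have e1 : HasDerivAt (fun σ : ℝ => (σ⁻¹) ^ 2) (-(2 * (σ⁻¹) ^ 3)) σ := by
      refine ((hasDerivAt_inv hσ0).pow 2).congr_deriv ?_
      field_simp
      norm_num
      rw [mul_assoc, mul_inv_cancel₀ hσ0, mul_one]
    have e2 : HasDerivAt γ ((-(2 * (σ⁻¹) ^ 3)) • (u - z)) σ := (e1.smul_const (u - z)).const_add z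
    have e3 : HasFDerivAt φ (fderiv ℝ φ (γ σ)) (γ σ) := ((hφ.differentiable (by norm_num)) _).hasFDerivAt
    exact e3.comp_hasDerivAt σ e2
  have hinv : ContinuousOn (fun σ : ℝ => σ⁻¹) (Icc 1 S) := continuousOn_inv₀.mono fun σ hσ => (hpos σ hσ).ne'
  have hγc : ContinuousOn γ (Icc 1 S) := continuousOn_const.add ((hinv.pow 2).smul continuousOn_const)
  have hgc : ContinuousOn g' (Icc 1 S) := by
    have e1 : ContinuousOn (fun σ => fderiv ℝ φ (γ σ)) (Icc 1 S) := hd1.comp_continuousOn hγc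
    exact e1.clm_apply ((continuousOn_const.mul (hinv.pow 3)).neg.smul continuousOn_const)
  have hIcc : uIcc 1 S = Icc 1 S := uIcc_of_le hS
  have hgi : IntervalIntegrable g' volume 1 S := by
    apply ContinuousOn.intervalIntegrable
    rw [hIcc]
    exact hgc
  have hftc : ∫ σ in (1 : ℝ)..S, g' σ = φ (γ S) - φ (γ 1) :=
    intervalIntegral.integral_eq_sub_of_hasDerivAt (fun σ hσ => hder σ (by rwa [hIcc] at hσ)) hgi
  have hγ1 : γ 1 = u := by
    rw [hγ]
    simp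
  have hi1 : Integrable g' (volume.restrict (Ioc 1 S)) := hgc.integrableOn_Icc.mono_set Ioc_subset_Icc_self
  have hi2 : Integrable (fun σ => ‖g' σ‖ ^ 2) (volume.restrict (Ioc 1 S)) :=
    (hgc.norm.pow 2).integrableOn_Icc.mono_set Ioc_subset_Icc_self
  have hcs : ‖∫ σ in (1 : ℝ)..S, g' σ‖ ^ 2 ≤ (S - 1) * ∫ σ in (1 : ℝ)..S, ‖g' σ‖ ^ 2 := by
    rw [intervalIntegral.integral_of_le hS, intervalIntegral.integral_of_le hS]
    refine (C1_cs hi1 hi2).trans (le_of_eq ?_)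
    rw [measureReal_def, Measure.restrict_apply_univ, Real.volume_Ioc, ENNReal.toReal_ofReal (sub_nonneg.2 hS)]
  rw [hftc, hγ1, norm_sub_rev] at hcs
  refine hcs.trans (mul_le_mul_of_nonneg_left ?_ (sub_nonneg.2 hS))
  rw [← intervalIntegral.integral_const_mul]
  have hHq : Continuous fun σ : ℝ => uncurry (C2_H φ z) (u, σ) :=
    (C2_H_cont hφ z).comp (continuous_const.prodMk continuous_id)
  have hHc : Continuous fun σ => 12 * r ^ 2 * C2_H φ z u σ := continuous_const.mul hHq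
  refine intervalIntegral.integral_mono_on hS ?_ (hHc.intervalIntegrable _ _) ?_
  · apply ContinuousOn.intervalIntegrable
    rw [hIcc]
    exact hgc.norm.pow 2
  · intro σ hσ
    have hmax : max σ 1 = σ := max_eq_left hσ.1
    have hσ0 := hpos σ hσ
    have e1 : ‖g' σ‖ ^ 2 = 4 * (σ⁻¹) ^ 6 * ‖fderiv ℝ φ (γ σ) (u - z)‖ ^ 2 := by
      rw [hg']
      simp only [map_smul, norm_smul, mul_pow, Real.norm_eq_abs, sq_abs]
      ring
    have e2 := C2_gs (fderiv ℝ φ (γ σ)) (u - z)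
    have e3 : ‖fderiv ℝ φ (γ σ) (u - z)‖ ^ 2 ≤ gsq φ (γ σ) * (3 * r ^ 2) :=
      e2.trans (mul_le_mul_of_nonneg_left hw (C2_gsq_nonneg φ _))
    rw [e1]
    unfold C2_H
    rw [hmax]
    calc 4 * (σ⁻¹) ^ 6 * ‖fderiv ℝ φ (γ σ) (u - z)‖ ^ 2 ≤ 4 * (σ⁻¹) ^ 6 * (gsq φ (γ σ) * (3 * r ^ 2)) :=
          mul_le_mul_of_nonneg_left e3 (by positivity)
      _ = 12 * r ^ 2 * ((σ⁻¹) ^ 6 * gsq φ (γ σ)) := by ring

theorem dilation {φ : (Fin 3 → ℝ) → ℂ} (hφ : ContDiff ℝ 1 φ) {b z : Fin 3 → ℝ} {r lam : ℝ}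
    (hr : 0 < r) (hz : z ∈ cube b r) (h0 : 0 < lam) (h1 : lam ≤ 1) :
    ∫ u in cube b r, ‖φ u‖ ^ 2
      ≤ 2 * lam⁻¹ ^ 3 * (∫ u in cube (dcor b z lam) (lam * r), ‖φ u‖ ^ 2)
        + 24 * r ^ 2 * lam⁻¹ * ∫ u in cube b r, gsq φ u := by
  have hφc : Continuous φ := hφ.continuous
  set μ := √lam with hμ
  have hμ0 : 0 < μ := Real.sqrt_pos.2 h0
  have hμ2 : μ ^ 2 = lam := Real.sq_sqrt h0.le
  have hμ1 : μ ≤ 1 := by
    rw [hμ]
    exact (Real.sqrt_le_sqrt h1).trans_eq Real.sqrt_one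
  set S := μ⁻¹ with hSd
  have hS : 1 ≤ S := (one_le_inv₀ hμ0).2 hμ1
  have hSlam : (S⁻¹) ^ 2 = lam := by rw [hSd, inv_inv, hμ2]
  have hS2 : S ^ 2 = lam⁻¹ := by rw [hSd, inv_pow, hμ2]
  set G := ∫ u in cube b r, gsq φ u with hG
  have hG0 : 0 ≤ G := setIntegral_nonneg (C2_cube_meas b r) fun u _ => C2_gsq_nonneg φ u
  have hHc := C2_H_cont hφ z
  have hcI : Continuous fun u => ∫ σ in (1 : ℝ)..S, C2_H φ z u σ :=
    intervalIntegral.continuous_parametric_intervalIntegral_of_continuous' hHc 1 S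
  -- Fubini
  have hfub : ∫ u in cube b r, (∫ σ in (1 : ℝ)..S, C2_H φ z u σ) ≤ (S - 1) * G := by
    simp only [intervalIntegral.integral_of_le hS]
    have hint : Integrable (uncurry (C2_H φ z)) ((volume.restrict (cube b r)).prod (volume.restrict (Ioc 1 S))) := by
      rw [Measure.prod_restrict]
      have hc : IsCompact ((Set.pi Set.univ fun α => Icc (b α) (b α + r)) ×ˢ Icc 1 S) :=
        (isCompact_univ_pi fun _ => isCompact_Icc).prod isCompact_Icc
      have e1 : IntegrableOn (uncurry (C2_H φ z)) ((Set.pi Set.univ fun α => Icc (b α) (b α + r)) ×ˢ Icc 1 S)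
          ((volume : Measure (Fin 3 → ℝ)).prod (volume : Measure ℝ)) := hHc.continuousOn.integrableOn_compact hc
      exact e1.mono_set (Set.prod_mono (Set.pi_mono fun _ _ => Ioc_subset_Icc_self) Ioc_subset_Icc_self)
    rw [integral_integral_swap hint]
    have e2 : ∀ σ ∈ Ioc 1 S, ∫ u in cube b r, C2_H φ z u σ ≤ G := by
      intro σ hσ
      have hσ0 : 0 < σ := lt_trans one_pos hσ.1
      have hmax : max σ 1 = σ := max_eq_left hσ.1.le
      unfold C2_H
      rw [hmax, integral_const_mul, C2_cv (gsq φ) b z (by positivity : (0 : ℝ) < (σ⁻¹) ^ 2)]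
      have e3 : ∫ u in cube (dcor b z ((σ⁻¹) ^ 2)) ((σ⁻¹) ^ 2 * r), gsq φ u ≤ G := by
        refine setIntegral_mono_set (C2_io (C2_gsq_cont hφ) b r) ?_
          (dcor_sub hz (by positivity) (pow_le_one₀ (by positivity) (inv_le_one_of_one_le₀ hσ.1.le))).eventuallyLE
        exact Eventually.of_forall fun u => C2_gsq_nonneg φ u
      calc (σ⁻¹) ^ 6 * ((((σ⁻¹) ^ 2)⁻¹) ^ 3 * ∫ u in cube (dcor b z ((σ⁻¹) ^ 2)) ((σ⁻¹) ^ 2 * r), gsq φ u)
          = ∫ u in cube (dcor b z ((σ⁻¹) ^ 2)) ((σ⁻¹) ^ 2 * r), gsq φ u := by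
            field_simp
        _ ≤ G := e3
    have e4 : ∫ σ in Ioc 1 S, (∫ u in cube b r, C2_H φ z u σ) ≤ ∫ σ in Ioc 1 S, G := by
      refine setIntegral_mono_on hint.integral_prod_right ?_ measurableSet_Ioc e2
      exact integrableOn_const (by simp)
    refine e4.trans (le_of_eq ?_)
    rw [setIntegral_const, measureReal_def, Real.volume_Ioc, ENNReal.toReal_ofReal (by linarith), smul_eq_mul]
  -- pointwise
  have hpt : ∀ u ∈ cube b r, ‖φ u‖ ^ 2 ≤ 2 * ‖φ (z + lam • (u - z))‖ ^ 2 +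
      24 * r ^ 2 * (S - 1) * ∫ σ in (1 : ℝ)..S, C2_H φ z u σ := by
    intro u hu
    have hw : ∑ α, (u α - z α) ^ 2 ≤ 3 * r ^ 2 := by
      have e1 : ∀ α, (u α - z α) ^ 2 ≤ r ^ 2 := by
        intro α
        have e2 := hu α (mem_univ α)
        have e3 := hz α (mem_univ α)
        simp only [mem_Ioc] at e2 e3
        exact sq_le_sq' (by linarith [e2.1, e3.2]) (by linarith [e2.2, e3.1])
      rw [Fin.sum_univ_three]
      linarith [e1 0, e1 1, e1 2]
    have e1 := C2_pt hφ hS hw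
    rw [hSlam] at e1
    have e2 : ‖φ u‖ ≤ ‖φ (z + lam • (u - z))‖ + ‖φ u - φ (z + lam • (u - z))‖ := by
      have := norm_add_le (φ (z + lam • (u - z))) (φ u - φ (z + lam • (u - z)))
      rwa [add_sub_cancel] at this
    have e3 := pow_le_pow_left₀ (norm_nonneg _) e2 2
    linarith only [e1, e3, sq_nonneg (‖φ (z + lam • (u - z))‖ - ‖φ u - φ (z + lam • (u - z))‖)]
  have hDc : Continuous fun u : Fin 3 → ℝ => ‖φ (z + lam • (u - z))‖ ^ 2 := by
    have e1 : Continuous fun u : Fin 3 → ℝ => z + lam • (u - z) :=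
      continuous_const.add ((continuous_id.sub continuous_const).const_smul lam)
    exact (hφc.comp e1).norm.pow 2
  have hiA : IntegrableOn (fun u : Fin 3 → ℝ => 2 * ‖φ (z + lam • (u - z))‖ ^ 2) (cube b r) :=
    C2_io (continuous_const.mul hDc) b r
  have hiB : IntegrableOn (fun u : Fin 3 → ℝ => 24 * r ^ 2 * (S - 1) * ∫ σ in (1 : ℝ)..S, C2_H φ z u σ) (cube b r) :=
    C2_io (continuous_const.mul hcI) b r
  have h2 : ∫ u in cube b r, ‖φ u‖ ^ 2 ≤ ∫ u in cube b r, (2 * ‖φ (z + lam • (u - z))‖ ^ 2 +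
      24 * r ^ 2 * (S - 1) * ∫ σ in (1 : ℝ)..S, C2_H φ z u σ) :=
    setIntegral_mono_on (C2_io (hφc.norm.pow 2) b r) (hiA.add hiB) (C2_cube_meas b r) hpt
  rw [integral_add hiA hiB, integral_const_mul, integral_const_mul,
    C2_cv (fun v => ‖φ v‖ ^ 2) b z h0] at h2
  refine h2.trans ?_
  have h3 : 24 * r ^ 2 * (S - 1) * (∫ u in cube b r, (∫ σ in (1 : ℝ)..S, C2_H φ z u σ)) ≤
      24 * r ^ 2 * lam⁻¹ * G := by
    calc 24 * r ^ 2 * (S - 1) * (∫ u in cube b r, (∫ σ in (1 : ℝ)..S, C2_H φ z u σ)) ≤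
          24 * r ^ 2 * (S - 1) * ((S - 1) * G) :=
          mul_le_mul_of_nonneg_left hfub (mul_nonneg (by positivity) (by linarith))
      _ = 24 * r ^ 2 * G * (S - 1) ^ 2 := by ring
      _ ≤ 24 * r ^ 2 * G * S ^ 2 := by
          refine mul_le_mul_of_nonneg_left ?_ (by positivity)
          exact pow_le_pow_left₀ (by linarith) (by linarith) 2
      _ = 24 * r ^ 2 * lam⁻¹ * G := by
          rw [hS2]
          ring
  have h4 : 2 * (lam⁻¹ ^ 3 * ∫ u in cube (dcor b z lam) (lam * r), ‖φ u‖ ^ 2) =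
      2 * lam⁻¹ ^ 3 * (∫ u in cube (dcor b z lam) (lam * r), ‖φ u‖ ^ 2) := by ring
  rw [h4]
  linarith

end Pool.Agent.Lib.MP_4952d6_mp.LA

end

/-! ### LA.C3 -/

section

/-!
# JOB LA-C3: box inequality in `ℝ³`

`lam = 2R/r`, `B' = cube (dcor b z lam) (2R)`, `s = 2R`, `m` the mean of `φ` over `B'`, `E' = ∫_{B'} gsq φ + ∫_{B'} V ‖φ‖²`.
`c₁ ‖m‖² ≤ ∫_{B'} V ‖m‖² ≤ 2 ∫_{B'} V ‖φ‖² + 2 R⁻² ∫_{B'} ‖φ - m‖² ≤ 2 ∫ V‖φ‖² + 2 R⁻² (3/2) 4 R² ∫ gsq ≤ 12 E'`;
`∫_{B'} ‖φ‖² = 8 R³ ‖m‖² + ∫_{B'} ‖φ - m‖² ≤ 96 R³/c₁ E' + 6 R² E'`; `c₁ ≤ ∫_{B'} V ≤ 8 R`, so `6 R² ≤ 48 R³/c₁`.  Then `dilation`: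
`∫_B ‖φ‖² ≤ 2 (r/(2R))³ (144 R³/c₁) E' + 24 r² (r/(2R)) ∫_B gsq ≤ (36 + 96) r³/c₁ (∫_B gsq + ∫_B V ‖φ‖²)` (`1/R ≤ 8/c₁`).
-/

set_option autoImplicit false
set_option linter.unusedSectionVars false
set_option linter.unusedVariables false
open MeasureTheory Function Filter Topology Set ComplexConjugate
open scoped ENNReal

namespace Pool.Agent.Lib.MP_4952d6_mp.LA

theorem C3_cube_meas (b : Fin 3 → ℝ) (r : ℝ) : MeasurableSet (cube b r) :=
  MeasurableSet.univ_pi fun _ => measurableSet_Ioc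

theorem C3_io {E : Type*} [NormedAddCommGroup E] {f : (Fin 3 → ℝ) → E} (hf : Continuous f) (b : Fin 3 → ℝ)
    (r : ℝ) : IntegrableOn f (cube b r) := by
  have hc : IsCompact (Set.pi Set.univ fun α => Icc (b α) (b α + r)) := isCompact_univ_pi fun _ => isCompact_Icc
  have h1 : IntegrableOn f (Set.pi Set.univ fun α => Icc (b α) (b α + r)) := hf.continuousOn.integrableOn_compact hc
  exact h1.mono_set (Set.pi_mono fun _ _ => Ioc_subset_Icc_self)

theorem C3_vol (b : Fin 3 → ℝ) {s : ℝ} (hs : 0 ≤ s) : (volume (cube b s)).toReal = s ^ 3 := by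
  unfold cube
  rw [Real.volume_pi_Ioc_toReal (fun α => by linarith)]
  rw [Finset.prod_congr rfl (fun α _ => (by ring : b α + s - b α = s)), Finset.prod_const, Finset.card_univ,
    Fintype.card_fin]

theorem C3_gsq_cont {φ : (Fin 3 → ℝ) → ℂ} (hφ : ContDiff ℝ 1 φ) : Continuous (gsq φ) := by
  unfold gsq
  refine continuous_finsetSum _ fun α _ => ?_
  have h1 : Continuous (fderiv ℝ φ) := hφ.continuous_fderiv (by norm_num)
  exact ((h1.clm_apply continuous_const).norm).pow 2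

theorem C3_gsq_nonneg (φ : (Fin 3 → ℝ) → ℂ) (u : Fin 3 → ℝ) : 0 ≤ gsq φ u :=
  Finset.sum_nonneg fun _ _ => by positivity

theorem C3_V {φ : (Fin 3 → ℝ) → ℂ} (hφ : Continuous φ) {V : (Fin 3 → ℝ) → ℝ} (hVm : Measurable V)
    {C : ℝ} (hV0 : ∀ u, 0 ≤ V u) (hVC : ∀ u, V u ≤ C) (b : Fin 3 → ℝ) (r : ℝ) {f : (Fin 3 → ℝ) → ℝ}
    (hf : Continuous f) : IntegrableOn (fun u => V u * f u) (cube b r) := by
  have h1 : IntegrableOn (fun u => C * ‖f u‖) (cube b r) := C3_io (continuous_const.mul hf.norm) b r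
  refine Integrable.mono' h1 ((hVm.aestronglyMeasurable).mul hf.aestronglyMeasurable) ?_
  refine Eventually.of_forall fun u => ?_
  rw [norm_mul, Real.norm_of_nonneg (hV0 u)]
  exact mul_le_mul_of_nonneg_right (hVC u) (norm_nonneg _)

/-- orthogonality -/
theorem C3_ort {φ : (Fin 3 → ℝ) → ℂ} (hφ : Continuous φ) (b : Fin 3 → ℝ) {s : ℝ} (hs : 0 < s) :
    ∫ u in cube b s, ‖φ u‖ ^ 2 = s ^ 3 * ‖((s ^ 3)⁻¹ : ℝ) • ∫ v in cube b s, φ v‖ ^ 2 +
      ∫ u in cube b s, ‖φ u - ((s ^ 3)⁻¹ : ℝ) • ∫ v in cube b s, φ v‖ ^ 2 := by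
  set m : ℂ := ((s ^ 3)⁻¹ : ℝ) • ∫ v in cube b s, φ v with hm
  have hs3 : (0 : ℝ) < s ^ 3 := by positivity
  have h0 : ∫ u in cube b s, (φ u - m) = 0 := by
    rw [integral_sub (C3_io hφ b s) (C3_io continuous_const b s), setIntegral_const, measureReal_def,
      C3_vol b hs.le, hm, smul_smul, mul_inv_cancel₀ hs3.ne', one_smul, sub_self]
  have hpt : ∀ u, ‖φ u‖ ^ 2 = ‖m‖ ^ 2 + (‖φ u - m‖ ^ 2 + 2 * inner ℝ m (φ u - m)) := by
    intro u
    have h1 := norm_add_sq_real m (φ u - m)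
    have h2 : m + (φ u - m) = φ u := by ring
    rw [h2] at h1
    rw [h1]
    ring
  have hi1 : IntegrableOn (fun u => ‖φ u - m‖ ^ 2) (cube b s) := C3_io ((hφ.sub continuous_const).norm.pow 2) b s
  have hi2 : IntegrableOn (fun u => 2 * inner ℝ m (φ u - m)) (cube b s) :=
    C3_io (continuous_const.mul (continuous_const.inner (hφ.sub continuous_const))) b s
  have h3 : ∫ u in cube b s, 2 * inner ℝ m (φ u - m) = 0 := by
    rw [integral_const_mul]
    have h4 : ∫ u in cube b s, inner ℝ m (φ u - m) = inner ℝ m (∫ u in cube b s, (φ u - m)) :=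
      integral_inner (C3_io (hφ.sub continuous_const) b s) m
    rw [h4, h0, inner_zero_right, mul_zero]
  have hi3 : IntegrableOn (fun u => ‖φ u - m‖ ^ 2 + 2 * inner ℝ m (φ u - m)) (cube b s) := hi1.add hi2
  have hi4 : IntegrableOn (fun _ : Fin 3 → ℝ => ‖m‖ ^ 2) (cube b s) := C3_io continuous_const b s
  have h5 : ∫ u in cube b s, ‖φ u‖ ^ 2 =
      ∫ u in cube b s, (‖m‖ ^ 2 + (‖φ u - m‖ ^ 2 + 2 * inner ℝ m (φ u - m))) :=
    integral_congr_ae (Eventually.of_forall fun u => hpt u)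
  rw [h5, integral_add hi4 hi3, integral_add hi1 hi2, h3, add_zero,
    setIntegral_const, measureReal_def, C3_vol b hs.le, smul_eq_mul]

theorem box_euclid {φ : (Fin 3 → ℝ) → ℂ} (hφ : ContDiff ℝ 1 φ) {b z : Fin 3 → ℝ} {r R c₁ : ℝ}
    (hR : 0 < R) (hr : 2 * R ≤ r) (hz : z ∈ cube b r) {V : (Fin 3 → ℝ) → ℝ} (hVm : Measurable V)
    (hV0 : ∀ u, 0 ≤ V u) (hVR : ∀ u, V u ≤ (R⁻¹) ^ 2) (hc : 0 < c₁)
    (hVi : c₁ ≤ ∫ u in cube (dcor b z (2 * R / r)) (2 * R), V u) :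
    c₁ / (132 * r ^ 3) * ∫ u in cube b r, ‖φ u‖ ^ 2
      ≤ (∫ u in cube b r, gsq φ u) + ∫ u in cube b r, V u * ‖φ u‖ ^ 2 := by
  have hr0 : 0 < r := by linarith only [hR, hr]
  have hφc : Continuous φ := hφ.continuous
  have hlam0 : 0 < 2 * R / r := by positivity
  have hlam1 : 2 * R / r ≤ 1 := (div_le_one hr0).2 hr
  have hlr : 2 * R / r * r = 2 * R := by field_simp
  have hsub := dcor_sub hz hlam0 hlam1
  have hdil := dilation hφ hr0 hz hlam0 hlam1
  rw [hlr] at hsub hdil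
  set b' := dcor b z (2 * R / r) with hb'
  have h2R : 0 < 2 * R := by linarith only [hR]
  have hpo := poincare hφ b' h2R
  have hort := C3_ort hφc b' h2R
  set m : ℂ := (((2 * R) ^ 3)⁻¹ : ℝ) • ∫ v in cube b' (2 * R), φ v with hm
  set X := ∫ u in cube b' (2 * R), ‖φ u - m‖ ^ 2 with hX
  set g' := ∫ u in cube b' (2 * R), gsq φ u with hg'
  set W' := ∫ u in cube b' (2 * R), V u * ‖φ u‖ ^ 2 with hW'
  set g := ∫ u in cube b r, gsq φ u with hg
  set W := ∫ u in cube b r, V u * ‖φ u‖ ^ 2 with hW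
  have hcm : Continuous (fun u => ‖φ u‖ ^ 2) := hφc.norm.pow 2
  have hcm2 : Continuous (fun u => ‖φ u - m‖ ^ 2) := (hφc.sub continuous_const).norm.pow 2
  have hgg : g' ≤ g := by
    refine setIntegral_mono_set (C3_io (C3_gsq_cont hφ) b r) ?_ hsub.eventuallyLE
    exact Eventually.of_forall fun u => C3_gsq_nonneg φ u
  have hWW : W' ≤ W := by
    refine setIntegral_mono_set (C3_V hφc hVm hV0 hVR b r hcm) ?_ hsub.eventuallyLE
    exact Eventually.of_forall fun u => mul_nonneg (hV0 u) (by positivity)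
  have hg0 : 0 ≤ g' := setIntegral_nonneg (C3_cube_meas _ _) fun u _ => C3_gsq_nonneg φ u
  have hW0 : 0 ≤ W' := setIntegral_nonneg (C3_cube_meas _ _) fun u _ => mul_nonneg (hV0 u) (by positivity)
  -- the bound for the mean
  have h1 : c₁ * ‖m‖ ^ 2 ≤ 2 * W' + 2 * (R⁻¹) ^ 2 * X := by
    have e1 : (∫ u in cube b' (2 * R), V u) * ‖m‖ ^ 2 = ∫ u in cube b' (2 * R), V u * ‖m‖ ^ 2 :=
      (integral_mul_const _ _).symm
    have e2 : ∫ u in cube b' (2 * R), V u * ‖m‖ ^ 2 ≤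
        ∫ u in cube b' (2 * R), (2 * (V u * ‖φ u‖ ^ 2) + 2 * (R⁻¹) ^ 2 * ‖φ u - m‖ ^ 2) := by
      refine setIntegral_mono_on (C3_V hφc hVm hV0 hVR b' (2 * R) continuous_const) ?_ (C3_cube_meas _ _) ?_
      · exact ((C3_V hφc hVm hV0 hVR b' (2 * R) hcm).const_mul 2).add
          ((C3_io hcm2 b' (2 * R)).const_mul _)
      · intro u _
        have h3 : ‖m‖ ^ 2 ≤ 2 * ‖φ u‖ ^ 2 + 2 * ‖φ u - m‖ ^ 2 := by
          have h4 : ‖m‖ ≤ ‖φ u‖ + ‖φ u - m‖ := by
            have := norm_sub_le (φ u) (φ u - m)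
            have h5 : φ u - (φ u - m) = m := by ring
            rwa [h5] at this
          have h6 : ‖m‖ ^ 2 ≤ (‖φ u‖ + ‖φ u - m‖) ^ 2 := pow_le_pow_left₀ (norm_nonneg _) h4 2
          nlinarith only [sq_nonneg (‖φ u‖ - ‖φ u - m‖), h6]
        have h7 : V u * ‖m‖ ^ 2 ≤ V u * (2 * ‖φ u‖ ^ 2 + 2 * ‖φ u - m‖ ^ 2) :=
          mul_le_mul_of_nonneg_left h3 (hV0 u)
        have h8 : V u * ‖φ u - m‖ ^ 2 ≤ (R⁻¹) ^ 2 * ‖φ u - m‖ ^ 2 :=
          mul_le_mul_of_nonneg_right (hVR u) (by positivity)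
        linarith only [h7, h8]
    rw [integral_add ((C3_V hφc hVm hV0 hVR b' (2 * R) hcm).const_mul 2)
      ((C3_io hcm2 b' (2 * R)).const_mul _), integral_const_mul, integral_const_mul] at e2
    calc c₁ * ‖m‖ ^ 2 ≤ (∫ u in cube b' (2 * R), V u) * ‖m‖ ^ 2 :=
          mul_le_mul_of_nonneg_right hVi (by positivity)
      _ = ∫ u in cube b' (2 * R), V u * ‖m‖ ^ 2 := e1
      _ ≤ _ := e2
  have hX2 : X ≤ 6 * R ^ 2 * g' := by
    have : 3 / 2 * (2 * R) ^ 2 * g' = 6 * R ^ 2 * g' := by ring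
    linarith only [hpo, this]
  have hRi : (R⁻¹) ^ 2 * R ^ 2 = 1 := by field_simp
  have h2 : c₁ * ‖m‖ ^ 2 ≤ 12 * (g' + W') := by
    have h3 : 2 * (R⁻¹) ^ 2 * X ≤ 2 * (R⁻¹) ^ 2 * (6 * R ^ 2 * g') :=
      mul_le_mul_of_nonneg_left hX2 (by positivity)
    have h4 : 2 * (R⁻¹) ^ 2 * (6 * R ^ 2 * g') = 12 * g' := by
      calc 2 * (R⁻¹) ^ 2 * (6 * R ^ 2 * g') = 12 * ((R⁻¹) ^ 2 * R ^ 2) * g' := by ring
        _ = 12 * g' := by rw [hRi]; ring
    linarith only [h1, h3, h4, hW0]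
  have hc8 : c₁ ≤ 8 * R := by
    have h3 : ∫ u in cube b' (2 * R), V u ≤ ∫ u in cube b' (2 * R), (R⁻¹) ^ 2 := by
      refine setIntegral_mono_on ?_ (C3_io continuous_const b' (2 * R)) (C3_cube_meas _ _) fun u _ => hVR u
      have := C3_V hφc hVm hV0 hVR b' (2 * R) (f := fun _ => 1) continuous_const
      simpa using this
    rw [setIntegral_const, measureReal_def, C3_vol b' h2R.le, smul_eq_mul] at h3
    have h4 : (2 * R) ^ 3 * (R⁻¹) ^ 2 = 8 * R := by
      calc (2 * R) ^ 3 * (R⁻¹) ^ 2 = 8 * R * ((R⁻¹) ^ 2 * R ^ 2) := by ring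
        _ = 8 * R := by rw [hRi, mul_one]
    linarith only [h3, h4, hVi]
  -- c₁ ∫_{B'} ‖φ‖² ≤ 144 R³ (g' + W')
  have h3 : c₁ * ∫ u in cube b' (2 * R), ‖φ u‖ ^ 2 ≤ 144 * R ^ 3 * (g' + W') := by
    rw [hort]
    have h4 : c₁ * X ≤ 8 * R * (6 * R ^ 2 * g') := by
      have hX0 : 0 ≤ X := setIntegral_nonneg (C3_cube_meas _ _) fun u _ => by positivity
      calc c₁ * X ≤ 8 * R * X := mul_le_mul_of_nonneg_right hc8 hX0
        _ ≤ 8 * R * (6 * R ^ 2 * g') := mul_le_mul_of_nonneg_left hX2 (by positivity)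
    have h5 : c₁ * ((2 * R) ^ 3 * ‖m‖ ^ 2) ≤ (2 * R) ^ 3 * (12 * (g' + W')) := by
      calc c₁ * ((2 * R) ^ 3 * ‖m‖ ^ 2) = (2 * R) ^ 3 * (c₁ * ‖m‖ ^ 2) := by ring
        _ ≤ _ := mul_le_mul_of_nonneg_left h2 (by positivity)
    have h6 : 0 ≤ R ^ 3 * W' := by positivity
    linarith only [h4, h5, h6]
  -- the end
  have hlinv : (2 * R / r)⁻¹ = r / (2 * R) := by rw [inv_div]
  rw [hlinv] at hdil
  have h4 : c₁ * ∫ u in cube b r, ‖φ u‖ ^ 2 ≤ 36 * r ^ 3 * (g' + W') + 96 * r ^ 3 * g := by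
    have h5 := mul_le_mul_of_nonneg_left hdil hc.le
    have h6 : c₁ * (2 * (r / (2 * R)) ^ 3 * (∫ u in cube b' (2 * R), ‖φ u‖ ^ 2)) ≤
        36 * r ^ 3 * (g' + W') := by
      calc c₁ * (2 * (r / (2 * R)) ^ 3 * (∫ u in cube b' (2 * R), ‖φ u‖ ^ 2)) =
          2 * (r / (2 * R)) ^ 3 * (c₁ * ∫ u in cube b' (2 * R), ‖φ u‖ ^ 2) := by ring
        _ ≤ 2 * (r / (2 * R)) ^ 3 * (144 * R ^ 3 * (g' + W')) :=
          mul_le_mul_of_nonneg_left h3 (by positivity)
        _ = 36 * r ^ 3 * (g' + W') := by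
          field_simp
          ring
    have hg00 : 0 ≤ g := hg0.trans hgg
    have h7 : c₁ * (24 * r ^ 2 * (r / (2 * R)) * g) ≤ 96 * r ^ 3 * g := by
      calc c₁ * (24 * r ^ 2 * (r / (2 * R)) * g) ≤ 8 * R * (24 * r ^ 2 * (r / (2 * R)) * g) :=
            mul_le_mul_of_nonneg_right hc8 (by positivity)
        _ = 96 * r ^ 3 * g := by
          field_simp
          ring
    have h8 : c₁ * (2 * (r / (2 * R)) ^ 3 * (∫ u in cube b' (2 * R), ‖φ u‖ ^ 2) + 24 * r ^ 2 * (r / (2 * R)) * g) =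
        c₁ * (2 * (r / (2 * R)) ^ 3 * (∫ u in cube b' (2 * R), ‖φ u‖ ^ 2)) +
        c₁ * (24 * r ^ 2 * (r / (2 * R)) * g) := by ring
    rw [h8] at h5
    linarith only [h5, h6, h7]
  have hr3 : 0 < 132 * r ^ 3 := by positivity
  rw [div_mul_eq_mul_div, div_le_iff₀ hr3]
  have h9 : 36 * r ^ 3 * (g' + W') ≤ 36 * r ^ 3 * (g + W) := mul_le_mul_of_nonneg_left (by linarith only [hgg, hWW]) (by positivity)
  have h10 : 0 ≤ r ^ 3 * W := by
    have : 0 ≤ W := hW0.trans hWW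
    positivity
  linarith only [h4, h9, h10]

end Pool.Agent.Lib.MP_4952d6_mp.LA

end

/-! ### LA.C4 -/

section

/-!
# JOB LA-C4: octant bound

The cube `B' = cube (dcor b z (2R/r)) (2R)` contains `z`; on each axis it extends at least `R` to one side of `z`: for each `α` either `(z α - R, z α) ⊆` or `(z α, z α + R) ⊆` the
`α`-interval of `B'`.  So (up to a null set) `B'` contains an octant cube with corner `z` and side `R`.  The function `u ↦ w (en (u - z))` vanishes unless `en (u - z) < R`, and by the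
reflections `u α - z α ↦ ± (u α - z α)` (`MeasurePreserving`, `volume` on `Fin 3 → ℝ`) its integral over each of the 8 open octants is one eighth of the integral over `ℝ³`
(the coordinate planes are null).  `∫ w (en u) du = sig ∫_0^∞ r² w r dr`: as in the proof of `integral_rad` (h7, h8 there).
-/

set_option autoImplicit false
set_option linter.unusedSectionVars false
set_option linter.unusedVariables false
open MeasureTheory Function Filter Topology Set ComplexConjugate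
open scoped ENNReal

namespace Pool.Agent.Lib.MP_4952d6_mp.LA

theorem C4_integral_en (φ : ℝ → ℝ) :
    ∫ x : Fin 3 → ℝ, φ (en x) = sig * ∫ r in Ioi (0:ℝ), r ^ 2 * φ r := by
  have h7 : ∫ y : Fin 3 → ℝ, φ ‖(WithLp.toLp 2 y : EuclideanSpace ℝ (Fin 3))‖
      = ∫ z : EuclideanSpace ℝ (Fin 3), φ ‖z‖ :=
    (PiLp.volume_preserving_toLp (Fin 3)).integral_comp
      (MeasurableEquiv.toLp 2 (Fin 3 → ℝ)).measurableEmbedding (fun z => φ ‖z‖)
  have h8 := integral_fun_norm_addHaar (volume : Measure (EuclideanSpace ℝ (Fin 3))) φ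
  unfold en
  rw [h7, h8]
  simp only [finrank_euclideanSpace, Fintype.card_fin, nsmul_eq_mul, smul_eq_mul, sig]
  push_cast
  ring

theorem C4_en_continuous : Continuous en :=
  (PiLp.continuous_toLp 2 (fun _ : Fin 3 => ℝ)).norm

theorem C4_abs_le_en (u : Fin 3 → ℝ) (α : Fin 3) : |u α| ≤ en u := by
  have h := PiLp.norm_apply_le (p := 2) (WithLp.toLp 2 u : EuclideanSpace ℝ (Fin 3)) α
  exact h

/-- Reflection of the coordinates with `σ α = false`. -/
noncomputable def C4_refl (σ : Fin 3 → Bool) : (Fin 3 → ℝ) ≃ᵐ (Fin 3 → ℝ) :=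
  MeasurableEquiv.piCongrRight fun α => bif σ α then MeasurableEquiv.refl ℝ else MeasurableEquiv.neg ℝ

theorem C4_refl_apply (σ : Fin 3 → Bool) (u : Fin 3 → ℝ) (α : Fin 3) :
    C4_refl σ u α = bif σ α then u α else - u α := by
  change (bif σ α then MeasurableEquiv.refl ℝ else MeasurableEquiv.neg ℝ) (u α) = _
  cases h : σ α <;> rfl

theorem C4_refl_mp (σ : Fin 3 → Bool) : MeasurePreserving (C4_refl σ) volume volume := by
  have h : MeasurePreserving (fun (u : Fin 3 → ℝ) (α : Fin 3) =>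
      (bif σ α then u α else - u α)) volume volume := by
    refine volume_preserving_pi (f := fun (α : Fin 3) (x : ℝ) => bif σ α then x else -x) fun α => ?_
    cases h : σ α
    · exact Measure.measurePreserving_neg volume
    · exact MeasurePreserving.id volume
  have e : (C4_refl σ : (Fin 3 → ℝ) → (Fin 3 → ℝ)) = fun (u : Fin 3 → ℝ) (α : Fin 3) =>
      (bif σ α then u α else - u α) := by
    funext u α
    exact C4_refl_apply σ u α
  rw [e]
  exact h

theorem C4_en_refl (σ : Fin 3 → Bool) (u : Fin 3 → ℝ) : en (C4_refl σ u) = en u := by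
  unfold en
  rw [EuclideanSpace.norm_eq, EuclideanSpace.norm_eq]
  congr 1
  refine Finset.sum_congr rfl fun α _ => ?_
  simp only [C4_refl_apply]
  cases h : σ α
  · simp
  · simp

/-- open octants -/
def C4_oct (σ : Fin 3 → Bool) : Set (Fin 3 → ℝ) := {u | ∀ α, 0 < (bif σ α then u α else - u α)}

theorem C4_oct_eq (σ : Fin 3 → Bool) :
    C4_oct σ = C4_refl σ ⁻¹' {u | ∀ α, 0 < u α} := by
  ext u
  simp only [C4_oct, Set.mem_ofPred_eq, mem_preimage, C4_refl_apply]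

theorem C4_pos_meas : MeasurableSet {u : Fin 3 → ℝ | ∀ α, 0 < u α} := by
  rw [Set.ofPred_forall]
  exact MeasurableSet.iInter fun α => measurableSet_lt measurable_const (measurable_pi_apply α)

theorem C4_oct_meas (σ : Fin 3 → Bool) : MeasurableSet (C4_oct σ) := by
  rw [C4_oct_eq]
  exact (C4_refl σ).measurable C4_pos_meas

theorem C4_oct_integral (φ : ℝ → ℝ) (σ : Fin 3 → Bool) :
    ∫ u in C4_oct σ, φ (en u) = ∫ u in {u : Fin 3 → ℝ | ∀ α, 0 < u α}, φ (en u) := by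
  have h := (C4_refl_mp σ).setIntegral_preimage_emb (C4_refl σ).measurableEmbedding
    (fun u => φ (en u)) {u : Fin 3 → ℝ | ∀ α, 0 < u α}
  rw [← h, C4_oct_eq]
  refine integral_congr_ae (Eventually.of_forall fun u => ?_)
  simp only [C4_en_refl]

theorem C4_oct_disjoint : Pairwise (Disjoint on C4_oct) := by
  intro σ τ hne
  rw [Function.onFun, Set.disjoint_left]
  intro u h1 h2
  apply hne
  funext α
  have h3 := h1 α
  have h4 := h2 α
  cases hs : σ α <;> cases ht : τ α <;> rw [hs] at h3 <;> rw [ht] at h4 <;>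
    simp only [cond_true, cond_false] at h3 h4
  · linarith
  · linarith

theorem C4_oct_union : (⋃ σ, C4_oct σ) =ᵐ[volume] (univ : Set (Fin 3 → ℝ)) := by
  have h1 : ∀ᵐ u : Fin 3 → ℝ, ∀ α, u α ≠ 0 := by
    rw [ae_all_iff]
    intro α
    rw [ae_iff]
    simp only [not_not]
    exact Measure.pi_hyperplane (fun _ : Fin 3 => (volume : Measure ℝ)) α 0
  rw [eventuallyEq_set]
  filter_upwards [h1] with u hu
  simp only [mem_univ, iff_true]
  refine mem_iUnion.2 ⟨fun α => decide (0 < u α), fun α => ?_⟩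
  by_cases h : 0 < u α
  · simp only [h, decide_true, cond_true]
  · simp only [h, decide_false, cond_false]
    have h2 := hu α
    rcases lt_or_gt_of_ne h2 with h3 | h3
    · linarith
    · exact absurd h3 h

theorem C4_octant_eq {φ : ℝ → ℝ} (hi : Integrable (fun u : Fin 3 → ℝ => φ (en u)))
    (σ : Fin 3 → Bool) :
    ∫ u in C4_oct σ, φ (en u) = 1 / 8 * (sig * ∫ t in Ioi (0:ℝ), t ^ 2 * φ t) := by
  have h1 : ∫ u, φ (en u) = ∑ σ : Fin 3 → Bool, ∫ u in C4_oct σ, φ (en u) := by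
    rw [← integral_iUnion_fintype C4_oct_meas C4_oct_disjoint fun _ => hi.integrableOn,
      setIntegral_congr_set C4_oct_union, setIntegral_univ]
  rw [← C4_integral_en, h1]
  have h2 : ∀ τ : Fin 3 → Bool, ∫ u in C4_oct τ, φ (en u) = ∫ u in C4_oct σ, φ (en u) :=
    fun τ => (C4_oct_integral φ τ).trans (C4_oct_integral φ σ).symm
  rw [Finset.sum_congr rfl fun τ _ => h2 τ, Finset.sum_const, Finset.card_univ]
  simp only [Fintype.card_pi, Fintype.card_bool, Finset.prod_const, Finset.card_univ,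
    Fintype.card_fin, nsmul_eq_mul]
  norm_num
  ring

theorem octant {w : ℝ → ℝ} (hwm : Measurable w) (hw0 : ∀ t, 0 ≤ w t) {R : ℝ} (hR : 0 < R)
    (hwR : ∀ t, w t ≤ (R⁻¹) ^ 2) (hws : ∀ t, R ≤ t → w t = 0) {b z : Fin 3 → ℝ} {r : ℝ}
    (hr : 2 * R ≤ r) (hz : z ∈ cube b r) :
    1 / 8 * (sig * ∫ t in Ioi (0:ℝ), t ^ 2 * w t)
      ≤ ∫ u in cube (dcor b z (2 * R / r)) (2 * R), w (en (u - z)) := by
  have hr0 : 0 < r := by linarith
  have hm : Measurable fun u : Fin 3 → ℝ => w (en u) := hwm.comp C4_en_continuous.measurable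
  -- integrability
  have hi : Integrable (fun u : Fin 3 → ℝ => w (en u)) := by
    have h1 : IntegrableOn (fun u : Fin 3 → ℝ => w (en u))
        (Set.pi univ fun _ : Fin 3 => Ioc (-R) R) := by
      refine Measure.integrableOn_of_bounded (M := (R⁻¹) ^ 2) ?_ hm.aestronglyMeasurable ?_
      · rw [Real.volume_pi_Ioc]
        exact ENNReal.prod_ne_top fun _ _ => ENNReal.ofReal_ne_top
      · refine Eventually.of_forall fun u => ?_
        rw [Real.norm_eq_abs, abs_of_nonneg (hw0 _)]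
        exact hwR _
    refine (integrableOn_iff_integrable_of_support_subset ?_).1 h1
    intro u hu α _
    by_contra h2
    apply hu
    apply hws
    refine le_trans ?_ (C4_abs_le_en u α)
    rw [mem_Ioc, not_and_or, not_lt, not_le] at h2
    rcases h2 with h2 | h2
    · exact le_abs.2 (Or.inr (by linarith))
    · exact le_abs.2 (Or.inl h2.le)
  -- choice of the octant
  set σ : Fin 3 → Bool := fun α => decide ((z α - b α) / r < 1 / 2) with hσ
  rw [← C4_octant_eq hi σ, ← integral_indicator (C4_oct_meas σ),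
    ← integral_sub_right_eq_self (fun u => (C4_oct σ).indicator (fun u => w (en u)) u) z]
  have hcm : MeasurableSet (cube (dcor b z (2 * R / r)) (2 * R)) :=
    MeasurableSet.univ_pi fun α => measurableSet_Ioc
  rw [← integral_indicator hcm]
  have hi2 : Integrable (fun u : Fin 3 → ℝ => w (en (u - z))) := hi.comp_sub_right z
  refine integral_mono ?_ (hi2.indicator hcm) ?_
  · exact (hi.indicator (C4_oct_meas σ)).comp_sub_right z
  · intro u
    simp only
    by_cases h1 : u - z ∈ C4_oct σ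
    · rw [indicator_of_mem h1]
      by_cases h2 : R ≤ en (u - z)
      · rw [hws _ h2]
        exact indicator_nonneg (fun u _ => hw0 _) u
      · have h3 : u ∈ cube (dcor b z (2 * R / r)) (2 * R) := by
          intro α _
          have h4 := h1 α
          have h5 : |u α - z α| < R := (C4_abs_le_en (u - z) α).trans_lt (not_le.1 h2)
          have h6 := abs_lt.1 h5
          have hzα := hz α (mem_univ α)
          have h7 : 2 * R / r * (b α - z α) = -(2 * R * ((z α - b α) / r)) := by ring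
          have h8 : 0 < (z α - b α) / r := div_pos (by linarith [hzα.1]) hr0
          have h9 : (z α - b α) / r ≤ 1 := by
            rw [div_le_one hr0]
            linarith [hzα.2]
          simp only [dcor]
          rw [h7]
          by_cases h10 : (z α - b α) / r < 1 / 2
          · have h11 : σ α = true := by simp only [hσ, h10, decide_true]
            rw [h11] at h4
            simp only [cond_true, Pi.sub_apply] at h4
            constructor
            · nlinarith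
            · nlinarith
          · have h11 : σ α = false := by simp only [hσ, h10, decide_false]
            rw [h11] at h4
            simp only [cond_false, Pi.sub_apply] at h4
            constructor
            · nlinarith
            · nlinarith
        rw [indicator_of_mem h3]
    · rw [indicator_of_notMem h1]
      exact indicator_nonneg (fun u _ => hw0 _) u

end Pool.Agent.Lib.MP_4952d6_mp.LA

end

/-! ### LA.C5 -/

section

/-!
# JOB LA-C5: boxes in the torus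

* `tbox_meas`, `lint_tbox`, `int_tbox`: `toT` is injective on `cube b r` (`r ≤ 1`), `UnitAddTorus.lintegral_preimage`/`integral_preimage` with corner `b` (as in the proof of
  `integral_rad`), applied to the function times the indicator of `tbox b r`; `toT ⁻¹' (tbox b r) ∩ {y | ∀ i, y i ∈ Ioc (b i) (b i + 1)} = cube b r`.
  (If there is no lintegral version: the map `toT` on the restricted measure is measure preserving, see the proof of `UnitAddTorus.integral_preimage` in Mathlib.)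
* `rr_toT`: `|u α - z α| < 1/2` (`r ≤ 1/2`, half open cube), `rr_coe`.
* `cells`: elementary.
* `mem_tbox`: `x α = crd y α + crd (x - y) α` mod 1 and `|crd (x - y) α| ≤ rr (x - y) < L/2`.
-/

set_option autoImplicit false
set_option linter.unusedSectionVars false
set_option linter.unusedVariables false
open MeasureTheory Function Filter Topology Set ComplexConjugate
open scoped ENNReal

namespace Pool.Agent.Lib.MP_4952d6_mp.LA

theorem C5_cube_meas (b : Fin 3 → ℝ) (r : ℝ) : MeasurableSet (cube b r) :=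
  MeasurableSet.univ_pi fun _ => measurableSet_Ioc

theorem C5_iff (b : Fin 3 → ℝ) {r : ℝ} (hr : r ≤ 1) (x : T3) :
    x ∈ tbox b r ↔ ∀ α, (AddCircle.equivIoc (1:ℝ) (b α) (x α) : ℝ) ≤ b α + r := by
  constructor
  · intro hx α
    obtain ⟨u, hu, hux⟩ := hx α
    have hu' : u ∈ Ioc (b α) (b α + 1) := ⟨hu.1, hu.2.trans (by linarith)⟩
    rw [← hux, AddCircle.equivIoc_coe_of_mem (p := (1:ℝ)) hu']
    exact hu.2
  · intro hx α
    exact ⟨(AddCircle.equivIoc (1:ℝ) (b α) (x α) : ℝ), ⟨(AddCircle.equivIoc (1:ℝ) (b α) (x α)).2.1, hx α⟩,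
      AddCircle.coe_equivIoc (p := (1:ℝ)) (a := b α)⟩

theorem tbox_meas (b : Fin 3 → ℝ) {r : ℝ} (hr : r ≤ 1) : MeasurableSet (tbox b r) := by
  have e : tbox b r = ⋂ α, {x : T3 | (AddCircle.equivIoc (1:ℝ) (b α) (x α) : ℝ) ≤ b α + r} := by
    ext x
    rw [mem_iInter]
    exact C5_iff b hr x
  rw [e]
  refine MeasurableSet.iInter fun α => ?_
  have hm : Measurable (fun z : UnitAddCircle => (AddCircle.equivIoc (1:ℝ) (b α) z : ℝ)) :=
    measurable_subtype_coe.comp (AddCircle.measurableEquivIoc (1:ℝ) (b α)).measurable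
  exact (hm.comp (measurable_pi_apply α)) measurableSet_Iic

theorem C5_mem (b : Fin 3 → ℝ) {r : ℝ} (hr : r ≤ 1) {y : Fin 3 → ℝ}
    (hy : ∀ i, y i ∈ Ioc (b i) (b i + 1)) : (fun i => (y i : UnitAddCircle)) ∈ tbox b r ↔ y ∈ cube b r := by
  rw [C5_iff b hr]
  constructor
  · intro h α _
    have := h α
    rw [AddCircle.equivIoc_coe_of_mem (p := (1:ℝ)) (hy α)] at this
    exact ⟨(hy α).1, this⟩
  · intro h α
    rw [AddCircle.equivIoc_coe_of_mem (p := (1:ℝ)) (hy α)]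
    exact (h α (mem_univ α)).2

theorem C5_sub (b : Fin 3 → ℝ) {r : ℝ} (hr : r ≤ 1) :
    cube b r ⊆ {y : Fin 3 → ℝ | ∀ i, y i ∈ Ioc (b i) (b i + 1)} := fun y hy i =>
  ⟨(hy i (mem_univ i)).1, (hy i (mem_univ i)).2.trans (by linarith)⟩

theorem lint_tbox (b : Fin 3 → ℝ) {r : ℝ} (hr : r ≤ 1) {F : T3 → ℝ≥0∞} (hF : AEMeasurable F lam3) :
    ∫⁻ x in tbox b r, F x ∂lam3 = ∫⁻ u in cube b r, F (toT u) := by
  have h1 := UnitAddTorus.lintegral_preimage (d := Fin 3) ((tbox b r).indicator F) b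
  have h2 : ∫⁻ x, (tbox b r).indicator F x ∂lam3 =
      ∫⁻ y : Fin 3 → ℝ in {y | ∀ i, y i ∈ Ioc (b i) (b i + 1)},
        (tbox b r).indicator F (fun i => (y i : UnitAddCircle)) := h1
  have hbig : MeasurableSet {y : Fin 3 → ℝ | ∀ i, y i ∈ Ioc (b i) (b i + 1)} :=
    MeasurableSet.univ_pi' fun i => measurableSet_Ioc
  have h3 : ∫⁻ y : Fin 3 → ℝ in {y | ∀ i, y i ∈ Ioc (b i) (b i + 1)},
        (tbox b r).indicator F (fun i => (y i : UnitAddCircle)) =
      ∫⁻ y : Fin 3 → ℝ in {y | ∀ i, y i ∈ Ioc (b i) (b i + 1)},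
        (cube b r).indicator (fun u => F (toT u)) y := by
    refine setLIntegral_congr_fun hbig fun y hy => ?_
    by_cases hc : y ∈ cube b r
    · rw [indicator_of_mem hc]
      exact indicator_of_mem ((C5_mem b hr hy).2 hc) F
    · rw [indicator_of_notMem hc]
      exact indicator_of_notMem (fun h => hc ((C5_mem b hr hy).1 h)) F
  rw [← lintegral_indicator (tbox_meas b hr), h2, h3, lintegral_indicator (C5_cube_meas b r),
    Measure.restrict_restrict (C5_cube_meas b r), inter_eq_left.2 (C5_sub b hr)]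

theorem int_tbox (b : Fin 3 → ℝ) {r : ℝ} (hr : r ≤ 1) (F : T3 → ℝ) :
    ∫ x in tbox b r, F x ∂lam3 = ∫ u in cube b r, F (toT u) := by
  have h1 := UnitAddTorus.integral_preimage (d := Fin 3) ((tbox b r).indicator F) b
  have h2 : ∫ x, (tbox b r).indicator F x ∂lam3 =
      ∫ y : Fin 3 → ℝ in {y | ∀ i, y i ∈ Ioc (b i) (b i + 1)},
        (tbox b r).indicator F (fun i => (y i : UnitAddCircle)) := h1
  have hbig : MeasurableSet {y : Fin 3 → ℝ | ∀ i, y i ∈ Ioc (b i) (b i + 1)} :=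
    MeasurableSet.univ_pi' fun i => measurableSet_Ioc
  have h3 : ∫ y : Fin 3 → ℝ in {y | ∀ i, y i ∈ Ioc (b i) (b i + 1)},
        (tbox b r).indicator F (fun i => (y i : UnitAddCircle)) =
      ∫ y : Fin 3 → ℝ in {y | ∀ i, y i ∈ Ioc (b i) (b i + 1)},
        (cube b r).indicator (fun u => F (toT u)) y := by
    refine setIntegral_congr_fun hbig fun y hy => ?_
    by_cases hc : y ∈ cube b r
    · rw [indicator_of_mem hc]
      exact indicator_of_mem ((C5_mem b hr hy).2 hc) F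
    · rw [indicator_of_notMem hc]
      exact indicator_of_notMem (fun h => hc ((C5_mem b hr hy).1 h)) F
  rw [← integral_indicator (tbox_meas b hr), h2, h3, integral_indicator (C5_cube_meas b r),
    Measure.restrict_restrict (C5_cube_meas b r), inter_eq_left.2 (C5_sub b hr)]

theorem exists_toT {b : Fin 3 → ℝ} {r : ℝ} {x : T3} (hx : x ∈ tbox b r) : ∃ u ∈ cube b r, toT u = x := by
  choose u hu hux using hx
  exact ⟨u, fun α _ => hu α, funext hux⟩

theorem rr_toT {b : Fin 3 → ℝ} {r : ℝ} (hr : r ≤ 1 / 2) {u z : Fin 3 → ℝ} (hu : u ∈ cube b r)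
    (hz : z ∈ cube b r) : rr (toT u - toT z) = en (u - z) := by
  have e : toT u - toT z = fun i => (((u - z) i : ℝ) : UnitAddCircle) := by
    funext i
    show ((u i : ℝ) : UnitAddCircle) - ((z i : ℝ) : UnitAddCircle) = ((u i - z i : ℝ) : UnitAddCircle)
    rw [AddCircle.coe_sub]
  rw [e, rr_coe]
  · rfl
  · intro i
    have h1 := hu i (mem_univ i)
    have h2 := hz i (mem_univ i)
    show u i - z i ∈ Ioc (-(1/2) : ℝ) (1/2)
    exact ⟨by linarith [h1.1, h2.2], by linarith [h1.2, h2.1]⟩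

theorem C5_cell {b : Fin 3 → ℝ} {L : ℝ} (hL : 0 < L) {m : ℕ} (hm : 0 < m)
    (c : Fin 3 → Fin m) (α : Fin 3) {u : ℝ}
    (hu : u ∈ Ioc (cellc b L m c α) (cellc b L m c α + L / m)) : u ∈ Ioc (b α) (b α + L) := by
  have hmr : (0 : ℝ) < m := by exact_mod_cast hm
  have hc : (((c α : ℕ) : ℝ)) + 1 ≤ m := by exact_mod_cast (c α).2
  have hc0 : (0 : ℝ) ≤ ((c α : ℕ) : ℝ) := Nat.cast_nonneg _
  have hLm : 0 < L / m := div_pos hL hmr
  unfold cellc at hu
  have h1 : L / m * (((c α : ℕ) : ℝ) + 1) ≤ L / m * m := mul_le_mul_of_nonneg_left hc hLm.le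
  have h2 : L / m * m = L := by field_simp
  have h3 : 0 ≤ L / m * ((c α : ℕ) : ℝ) := by positivity
  exact ⟨by linarith [hu.1], by linarith [hu.2]⟩

theorem C5_lt {b : Fin 3 → ℝ} {L : ℝ} (hL : 0 < L) (hL1 : L ≤ 1) {m : ℕ} (hm : 0 < m)
    {c c' : Fin 3 → Fin m} {α : Fin 3} (h : (c α : ℕ) < (c' α : ℕ)) {x : T3}
    (h1 : x ∈ tbox (cellc b L m c) (L / m)) (h2 : x ∈ tbox (cellc b L m c') (L / m)) : False := by
  obtain ⟨u, hu, hux⟩ := h1 α
  obtain ⟨u', hu', hux'⟩ := h2 α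
  have k1 := C5_cell hL hm c α hu
  have k2 := C5_cell hL hm c' α hu'
  have k1' : u ∈ Ioc (b α) (b α + 1) := ⟨k1.1, by linarith [k1.2]⟩
  have k2' : u' ∈ Ioc (b α) (b α + 1) := ⟨k2.1, by linarith [k2.2]⟩
  have e1 := AddCircle.equivIoc_coe_of_mem (p := (1:ℝ)) k1'
  have e2 := AddCircle.equivIoc_coe_of_mem (p := (1:ℝ)) k2'
  have he : u = u' := by
    have h3 : ((u : ℝ) : UnitAddCircle) = ((u' : ℝ) : UnitAddCircle) := hux.trans hux'.symm
    rw [h3, e2] at e1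
    exact e1.symm
  subst he
  have hmr : (0 : ℝ) < m := by exact_mod_cast hm
  have hLm : 0 < L / m := div_pos hL hmr
  have h3 : ((c α : ℕ) : ℝ) + 1 ≤ ((c' α : ℕ) : ℝ) := by exact_mod_cast h
  have h4 : L / m * (((c α : ℕ) : ℝ) + 1) ≤ L / m * ((c' α : ℕ) : ℝ) := mul_le_mul_of_nonneg_left h3 hLm.le
  unfold cellc at hu hu'
  linarith [hu.2, hu'.1]

/-- cells are disjoint and cover -/
theorem cells_disj (b : Fin 3 → ℝ) {L : ℝ} (hL : 0 < L) (hL1 : L ≤ 1) {m : ℕ} (hm : 0 < m)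
    {c c' : Fin 3 → Fin m} (h : c ≠ c') :
    Disjoint (tbox (cellc b L m c) (L / m)) (tbox (cellc b L m c') (L / m)) := by
  rw [Set.disjoint_left]
  intro x h1 h2
  obtain ⟨α, hα⟩ := Function.ne_iff.1 h
  have hne : (c α : ℕ) ≠ (c' α : ℕ) := fun he => hα (Fin.ext he)
  rcases lt_or_gt_of_ne hne with hlt | hlt
  · exact C5_lt hL hL1 hm hlt h1 h2
  · exact C5_lt hL hL1 hm hlt h2 h1

theorem cells_cover (b : Fin 3 → ℝ) {L : ℝ} (hL : 0 < L) {m : ℕ} (hm : 0 < m) {x : T3}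
    (hx : x ∈ tbox b L) : ∃ c : Fin 3 → Fin m, x ∈ tbox (cellc b L m c) (L / m) := by
  have hmr : (0 : ℝ) < m := by exact_mod_cast hm
  have hLm : 0 < L / m := div_pos hL hmr
  have hex : ∀ α, ∃ k : Fin m, ∃ u ∈ Ioc (b α + L / m * ((k : ℕ) : ℝ)) (b α + L / m * ((k : ℕ) : ℝ) + L / m),
      (u : UnitAddCircle) = x α := by
    intro α
    obtain ⟨u, hu, hux⟩ := hx α
    set t : ℝ := (u - b α) / (L / m) with ht
    have ht0 : 0 < t := div_pos (by linarith [hu.1]) hLm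
    have htm : t ≤ m := by
      rw [ht, div_le_iff₀ hLm]
      have : (m : ℝ) * (L / m) = L := by field_simp
      rw [this]
      linarith [hu.2]
    have hut : u = b α + L / m * t := by
      rw [ht]
      field_simp
      ring
    have hn1 : 1 ≤ ⌈t⌉₊ := Nat.one_le_iff_ne_zero.2 (Nat.ceil_pos.2 ht0).ne'
    have hnm : ⌈t⌉₊ ≤ m := Nat.ceil_le.2 htm
    have hlt : (((⌈t⌉₊ - 1 : ℕ)) : ℝ) < t := by
      have := Nat.lt_ceil.1 (show ⌈t⌉₊ - 1 < ⌈t⌉₊ by omega)
      exact this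
    have hle : t ≤ (((⌈t⌉₊ - 1 : ℕ)) : ℝ) + 1 := by
      have h1 := Nat.le_ceil t
      have h2 : (((⌈t⌉₊ - 1 : ℕ)) : ℝ) + 1 = (⌈t⌉₊ : ℝ) := by
        exact_mod_cast (by omega : ⌈t⌉₊ - 1 + 1 = ⌈t⌉₊)
      rw [h2]
      exact h1
    refine ⟨⟨⌈t⌉₊ - 1, by omega⟩, u, ?_, hux⟩
    simp only
    have h3 : L / m * (((⌈t⌉₊ - 1 : ℕ)) : ℝ) < L / m * t := mul_lt_mul_of_pos_left hlt hLm
    have h4 : L / m * t ≤ L / m * ((((⌈t⌉₊ - 1 : ℕ)) : ℝ) + 1) := mul_le_mul_of_nonneg_left hle hLm.le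
    exact ⟨by linarith, by linarith⟩
  choose c hc using hex
  exact ⟨c, hc⟩

theorem mem_tbox {x y : T3} {L : ℝ} (h : rr (x - y) < L / 2) :
    x ∈ tbox (fun α => crd y α - L / 2) L := by
  intro α
  have h1 := abs_lt.1 ((abs_crd_le_rr (x - y) α).trans_lt h)
  refine ⟨crd y α + crd (x - y) α, ⟨by linarith [h1.1], by linarith [h1.2]⟩, ?_⟩
  rw [AddCircle.coe_add, coe_crd, coe_crd]
  show y α + (x α - y α) = x α
  abel

end Pool.Agent.Lib.MP_4952d6_mp.LA

end

/-! ### LA.C6 -/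

section

/-!
# JOB LA-C6: box inequality in the torus for trigonometric polynomials

`P x = ∑ p ∈ s, c p * ch p x`, `φ u = P (toT u)` is smooth: `ch p (toT u) = exp (2π I ∑ p α u α)` (`ch` is a product of `fourier`, `fourier_coe_apply`),
`fderiv ℝ φ u (Pi.single α 1) = (∑ p ∈ s, 2π I (p α) c p ch p) (toT u)`.  Use `box_euclid` with `V u = w (en (u - ζ))`, `toT ζ = z`, `c₁ = cw R / 8` (`octant`), `int_tbox`,
`rr_toT`.  `132 · 8 = 1056`.
-/

set_option autoImplicit false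
set_option linter.unusedSectionVars false
set_option linter.unusedVariables false
open MeasureTheory Function Filter Topology Set ComplexConjugate
open scoped ENNReal

namespace Pool.Agent.Lib.MP_4952d6_mp.LA

/-- trigonometric polynomials -/
noncomputable def tpol (s : Finset (Fin 3 → ℤ)) (c : (Fin 3 → ℤ) → ℂ) (x : T3) : ℂ :=
  ∑ p ∈ s, c p * ch p x

/-- and their derivatives -/
noncomputable def tpolg (s : Finset (Fin 3 → ℤ)) (c : (Fin 3 → ℤ) → ℂ) (α : Fin 3) (x : T3) : ℂ :=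
  ∑ p ∈ s, 2 * Real.pi * Complex.I * (p α : ℝ) * c p * ch p x

theorem C6_ch (p : Fin 3 → ℤ) (u : Fin 3 → ℝ) :
    ch p (toT u) = Complex.exp (∑ α, 2 * Real.pi * Complex.I * (p α : ℝ) * (u α : ℂ)) := by
  simp only [ch, toT, UnitAddTorus.mFourier, ContinuousMap.coe_mk]
  rw [Complex.exp_sum]
  refine Finset.prod_congr rfl fun α _ => ?_
  rw [fourier_coe_apply]
  simp

theorem C6_contDiff (s : Finset (Fin 3 → ℤ)) (c : (Fin 3 → ℤ) → ℂ) :
    ContDiff ℝ 1 (fun u : Fin 3 → ℝ => tpol s c (toT u)) := by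
  have : (fun u : Fin 3 → ℝ => tpol s c (toT u)) = fun u =>
      ∑ p ∈ s, c p * Complex.exp (∑ α, 2 * Real.pi * Complex.I * (p α : ℝ) * (u α : ℂ)) := by
    funext u
    simp only [tpol, C6_ch]
  rw [this]
  refine ContDiff.sum fun p _ => ?_
  refine contDiff_const.mul ?_
  refine ContDiff.cexp ?_
  refine ContDiff.sum fun α _ => ?_
  refine contDiff_const.mul ?_
  exact Complex.ofRealCLM.contDiff.comp (contDiff_apply ℝ ℝ α)

theorem C6_toT_continuous : Continuous (toT : (Fin 3 → ℝ) → T3) := by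
  refine continuous_pi fun α => ?_
  exact (AddCircle.continuous_mk' 1).comp (continuous_apply α)

theorem C6_tpolg_continuous (s : Finset (Fin 3 → ℤ)) (c : (Fin 3 → ℤ) → ℂ) (α : Fin 3) :
    Continuous (tpolg s c α) := by
  unfold tpolg
  refine continuous_finsetSum _ fun p _ => ?_
  exact continuous_const.mul (ch_continuous p)

theorem C6_toT_add (u : Fin 3 → ℝ) (α : Fin 3) (t : ℝ) :
    toT (u + t • Pi.single α (1:ℝ)) = toT u + tau α t := by
  funext β
  by_cases h : β = α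
  · subst h
    simp [toT, tau]
  · simp [toT, tau, Pi.single_eq_of_ne h]

theorem C6_fderiv (s : Finset (Fin 3 → ℤ)) (c : (Fin 3 → ℤ) → ℂ) (u : Fin 3 → ℝ) (α : Fin 3) :
    fderiv ℝ (fun u : Fin 3 → ℝ => tpol s c (toT u)) u (Pi.single α 1) = tpolg s c α (toT u) := by
  have hd : DifferentiableAt ℝ (fun u : Fin 3 → ℝ => tpol s c (toT u)) u :=
    (C6_contDiff s c).differentiable (by norm_num) u
  rw [← hd.lineDeriv_eq_fderiv]
  unfold lineDeriv
  have e : (fun t : ℝ => tpol s c (toT (u + t • Pi.single α (1:ℝ)))) = fun t : ℝ =>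
      ∑ p ∈ s, c p * (ch p (toT u) * Complex.exp (2 * Real.pi * Complex.I * (p α : ℝ) * t)) := by
    funext t
    simp only [tpol, C6_toT_add, ch_add_tau]
  rw [e]
  have h1 : ∀ p ∈ s, HasDerivAt (fun t : ℝ =>
      c p * (ch p (toT u) * Complex.exp (2 * Real.pi * Complex.I * (p α : ℝ) * t)))
      (2 * Real.pi * Complex.I * (p α : ℝ) * c p * ch p (toT u)) 0 := by
    intro p _
    have h2 : HasDerivAt (fun t : ℝ => (2 * Real.pi * Complex.I * (p α : ℝ) * (t : ℂ)))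
        (2 * Real.pi * Complex.I * (p α : ℝ) * 1) (0:ℝ) :=
      (Complex.ofRealCLM.hasDerivAt (x := (0:ℝ))).const_mul _
    have h3 := ((h2.cexp).const_mul (ch p (toT u))).const_mul (c p)
    refine h3.congr_deriv ?_
    simp only [Complex.ofReal_zero, mul_zero, Complex.exp_zero]
    ring
  have h4 := (HasDerivAt.fun_sum h1).deriv
  rw [h4]
  rfl

theorem C6_cube_meas (b : Fin 3 → ℝ) (r : ℝ) : MeasurableSet (cube b r) :=
  MeasurableSet.univ_pi fun _ => measurableSet_Ioc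

theorem C6_intOn {f : (Fin 3 → ℝ) → ℝ} (hf : Continuous f) (b : Fin 3 → ℝ) (r : ℝ) :
    IntegrableOn f (cube b r) := by
  have h1 : IntegrableOn f (Icc b (fun α => b α + r)) :=
    hf.continuousOn.integrableOn_compact isCompact_Icc
  refine h1.mono_set ?_
  intro u hu
  have hu' := hu
  simp only [cube, Set.mem_pi, Set.mem_univ, true_implies] at hu'
  exact ⟨fun α => (hu' α).1.le, fun α => (hu' α).2⟩

theorem box_tpol {w : ℝ → ℝ} (hwm : Measurable w) (hw0 : ∀ t, 0 ≤ w t) {R cw : ℝ} (hR : 0 < R)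
    (hcw : 0 < cw) (hwR : ∀ t, w t ≤ (R⁻¹) ^ 2) (hws : ∀ t, R ≤ t → w t = 0)
    (hwi : cw * R ≤ sig * ∫ t in Ioi (0:ℝ), t ^ 2 * w t) {b : Fin 3 → ℝ} {r : ℝ} (hr : 2 * R ≤ r)
    (hr2 : r ≤ 1 / 2) (s : Finset (Fin 3 → ℤ)) (c : (Fin 3 → ℤ) → ℂ) {z : T3} (hz : z ∈ tbox b r) :
    cw * R / (1056 * r ^ 3) * ∫ x in tbox b r, ‖tpol s c x‖ ^ 2 ∂lam3
      ≤ (∑ α, ∫ x in tbox b r, ‖tpolg s c α x‖ ^ 2 ∂lam3)
        + ∫ x in tbox b r, w (rr (x - z)) * ‖tpol s c x‖ ^ 2 ∂lam3 := by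
  obtain ⟨ζ, hζ, rfl⟩ := exists_toT hz
  have hr1 : r ≤ 1 := by linarith
  have hen : Continuous en := by
    unfold en
    exact continuous_norm.comp (PiLp.continuous_toLp 2 _)
  have hVm : Measurable (fun u : Fin 3 → ℝ => w (en (u - ζ))) :=
    hwm.comp (hen.comp (continuous_id.sub continuous_const)).measurable
  have hoct := octant hwm hw0 hR hwR hws hr hζ
  have hmain := box_euclid (C6_contDiff s c) hR hr hζ (c₁ := cw * R / 8) hVm
    (fun u => hw0 _) (fun u => hwR _) (by positivity)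
    (le_trans (by linarith) hoct)
  have e0 : cw * R / 8 / (132 * r ^ 3) = cw * R / (1056 * r ^ 3) := by
    rw [div_div]
    congr 1
    ring
  rw [e0] at hmain
  rw [int_tbox b hr1, int_tbox b hr1]
  have e1 : (∑ α, ∫ x in tbox b r, ‖tpolg s c α x‖ ^ 2 ∂lam3)
      = ∫ u in cube b r, gsq (fun u : Fin 3 → ℝ => tpol s c (toT u)) u := by
    have : gsq (fun u : Fin 3 → ℝ => tpol s c (toT u)) = fun u =>
        ∑ α : Fin 3, ‖tpolg s c α (toT u)‖ ^ 2 := by
      funext u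
      unfold gsq
      refine Finset.sum_congr rfl fun α _ => ?_
      rw [C6_fderiv]
    rw [this, integral_finsetSum]
    · refine Finset.sum_congr rfl fun α _ => ?_
      rw [int_tbox b hr1]
    · intro α _
      exact C6_intOn (((C6_tpolg_continuous s c α).comp C6_toT_continuous).norm.pow 2) b r
  have e2 : (∫ u in cube b r, w (rr (toT u - toT ζ)) * ‖tpol s c (toT u)‖ ^ 2)
      = ∫ u in cube b r, w (en (u - ζ)) * ‖tpol s c (toT u)‖ ^ 2 := by
    refine setIntegral_congr_fun (C6_cube_meas b r) fun u hu => ?_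
    show w (rr (toT u - toT ζ)) * ‖tpol s c (toT u)‖ ^ 2 = w (en (u - ζ)) * ‖tpol s c (toT u)‖ ^ 2
    rw [rr_toT hr2 hu hζ]
  rw [e1, e2]
  exact hmain

end Pool.Agent.Lib.MP_4952d6_mp.LA

end

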