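import Pool.Agent.Lib.MP_4952d6_mp.Pk.G36
import Pool.Agent.Lib.MP_4952d6_mp.Pk.G38
import Pool.Agent.Lib.MP_4952d6_mp.Pk.G52

/-! Merged modules (to save import time): LA.C7, LA.D1, LA.E0, LA.E1, LA.E2, LA.E3, LA.F1, LA.F2, LA.F3. -/

/-! ### LA.C7 -/

section

/-!
# JOB LA-C7: box inequality in the torus

Density: for `HG1 φ g` let `c p = fc3 φ p`; along finite sets `s ↑` the partial sums `tpol s c → φ`, `tpolg s c α → g α` in `L²(lam3)`:
`∫ ‖φ - tpol s c‖² = ∑_{p ∉ s} ‖fc3 φ p‖² → 0` (`parseval3_sq` for the difference, `fc3` of `tpol s c` is `c p` on `s`, `0` off `s`: orthogonality of the `ch p`), and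
`fc3 (tpolg s c α) p = 2π I p_α c p = fc3 (g α) p` on `s`.  All three terms of `box_tpol` are squares of seminorms bounded by the `L²` norm (`w ≤ R⁻²`), so they converge
(`|‖a‖² - ‖b‖²| ≤ ...` or use `eLpNorm` on `lam3.restrict (tbox b r)` and on the measure with density).  Finally pass to `∫⁻` (`ofReal_integral_eq_lintegral_ofReal`).
-/

set_option autoImplicit false
set_option linter.unusedSectionVars false
set_option linter.unusedVariables false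
open MeasureTheory Function Filter Topology Set ComplexConjugate
open scoped ENNReal

namespace Pool.Agent.Lib.MP_4952d6_mp.LA

theorem C7_int_ch (p : Fin 3 → ℤ) : ∫ x, ch p x ∂lam3 = if p = 0 then 1 else 0 := by
  split_ifs with hp
  · subst hp
    simp_rw [ch_zero]
    simp
  · obtain ⟨s, hs⟩ := exists_ch_eq_neg_one hp
    have h1 : ∫ x, ch p (x + s) ∂lam3 = ∫ x, ch p x ∂lam3 :=
      integral_add_right_eq_self (μ := lam3) _ s
    have h2 : ∫ x, ch p (x + s) ∂lam3 = - ∫ x, ch p x ∂lam3 := by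
      simp_rw [ch_add_arg, hs, mul_neg_one]
      exact integral_neg _
    have h3 : (2 : ℂ) * ∫ x, ch p x ∂lam3 = 0 := by
      linear_combination h2 - h1
    exact (mul_eq_zero.1 h3).resolve_left two_ne_zero

theorem C7_ch_int (p : Fin 3 → ℤ) : Integrable (ch p) lam3 := by
  refine Integrable.of_bound (ch_continuous p).stronglyMeasurable.aestronglyMeasurable 1
    (Eventually.of_forall fun x => (ch_norm p x).le)

theorem C7_tpol_cont (s : Finset (Fin 3 → ℤ)) (c : (Fin 3 → ℤ) → ℂ) : Continuous (tpol s c) := by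
  unfold tpol
  exact continuous_finsetSum _ fun p _ => continuous_const.mul (ch_continuous p)

theorem C7_tpol_memLp (s : Finset (Fin 3 → ℤ)) (c : (Fin 3 → ℤ) → ℂ) : MemLp (tpol s c) 2 lam3 := by
  refine MemLp.of_bound (C7_tpol_cont s c).stronglyMeasurable.aestronglyMeasurable
    (∑ p ∈ s, ‖c p‖) (Eventually.of_forall fun x => ?_)
  unfold tpol
  refine (norm_sum_le _ _).trans (Finset.sum_le_sum fun p _ => ?_)
  rw [norm_mul, ch_norm, mul_one]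

theorem C7_fc3_tpol (s : Finset (Fin 3 → ℤ)) (c : (Fin 3 → ℤ) → ℂ) (p : Fin 3 → ℤ) :
    fc3 (tpol s c) p = if p ∈ s then c p else 0 := by
  have e1 : ∀ x, conj (ch p x) * tpol s c x = ∑ q ∈ s, c q * ch (q - p) x := by
    intro x
    unfold tpol
    rw [Finset.mul_sum]
    refine Finset.sum_congr rfl fun q _ => ?_
    rw [sub_eq_add_neg, ch_add, ch_neg]
    ring
  unfold fc3
  simp_rw [e1]
  rw [integral_finsetSum _ (fun q _ => (C7_ch_int (q - p)).const_mul (c q))]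
  have e2 : ∀ q ∈ s, ∫ x, c q * ch (q - p) x ∂lam3 = if q = p then c q else 0 := by
    intro q _
    rw [integral_const_mul, C7_int_ch]
    by_cases h : q = p
    · rw [if_pos h, if_pos (sub_eq_zero.2 h), mul_one]
    · rw [if_neg h, if_neg (fun h' => h (sub_eq_zero.1 h')), mul_zero]
  rw [Finset.sum_congr rfl e2, Finset.sum_ite_eq']

theorem C7_fc3_sub {f g : T3 → ℂ} (hf : MemLp f 2 lam3) (hg : MemLp g 2 lam3) (p : Fin 3 → ℤ) :
    fc3 (fun x => f x - g x) p = fc3 f p - fc3 g p := by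
  have hi : ∀ {h : T3 → ℂ}, MemLp h 2 lam3 → Integrable (fun x => conj (ch p x) * h x) lam3 := by
    intro h hh
    refine (hh.integrable one_le_two).bdd_mul (c := 1)
      (Complex.continuous_conj.comp (ch_continuous p)).stronglyMeasurable.aestronglyMeasurable
      (Eventually.of_forall fun x => ?_)
    simp [ch_norm]
  unfold fc3
  rw [← integral_sub (hi hf) (hi hg)]
  congr 1
  ext x
  ring

/-- The Fourier series converges in the mean. -/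
theorem C7_conv {f : T3 → ℂ} (hf : MemLp f 2 lam3) :
    Tendsto (fun s : Finset (Fin 3 → ℤ) => ∫ x, ‖f x - tpol s (fc3 f) x‖ ^ 2 ∂lam3) atTop (𝓝 0) := by
  have hT := parseval3_sq hf
  have key : ∀ s : Finset (Fin 3 → ℤ), ∫ x, ‖f x - tpol s (fc3 f) x‖ ^ 2 ∂lam3
      = ∫ x, ‖f x‖ ^ 2 ∂lam3 - ∑ p ∈ s, ‖fc3 f p‖ ^ 2 := by
    intro s
    have h1 := parseval3_sq (f := fun x => f x - tpol s (fc3 f) x)
      (hf.sub (C7_tpol_memLp s (fc3 f)))
    have h2 : HasSum (fun p => if p ∈ s then ‖fc3 f p‖ ^ 2 else 0) (∑ p ∈ s, ‖fc3 f p‖ ^ 2) := by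
      have : HasSum (fun p => if p ∈ s then ‖fc3 f p‖ ^ 2 else 0)
          (∑ p ∈ s, if p ∈ s then ‖fc3 f p‖ ^ 2 else 0) :=
        hasSum_sum_of_ne_finset_zero fun p hp => if_neg hp
      have e : ∑ p ∈ s, (if p ∈ s then ‖fc3 f p‖ ^ 2 else 0) = ∑ p ∈ s, ‖fc3 f p‖ ^ 2 :=
        Finset.sum_congr rfl fun p hp => if_pos hp
      rwa [e] at this
    have h3 := hT.sub h2
    have e3 : (fun p => ‖fc3 (fun x => f x - tpol s (fc3 f) x) p‖ ^ 2)
        = fun p => ‖fc3 f p‖ ^ 2 - if p ∈ s then ‖fc3 f p‖ ^ 2 else 0 := by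
      ext p
      rw [C7_fc3_sub hf (C7_tpol_memLp s _), C7_fc3_tpol]
      split_ifs with hp
      · simp
      · simp
    rw [e3] at h1
    exact h1.unique h3
  simp_rw [key]
  have h4 : Tendsto (fun s : Finset (Fin 3 → ℤ) => ∑ p ∈ s, ‖fc3 f p‖ ^ 2) atTop
      (𝓝 (∫ x, ‖f x‖ ^ 2 ∂lam3)) := hT
  have h5 := h4.const_sub (∫ x, ‖f x‖ ^ 2 ∂lam3)
  rwa [sub_self] at h5

/-- Weighted squares pass to the limit. -/
theorem C7_wconv {κ : Type*} {l : Filter κ} {μ : Measure T3} {f : T3 → ℂ} {F : κ → T3 → ℂ}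
    (hf : MemLp f 2 μ) (hF : ∀ s, MemLp (F s) 2 μ)
    (h : Tendsto (fun s => ∫ x, ‖f x - F s x‖ ^ 2 ∂μ) l (𝓝 0)) {m : T3 → ℝ} (hm : Measurable m)
    {C : ℝ} (hC : ∀ x, |m x| ≤ C) :
    Tendsto (fun s => ∫ x, m x * ‖F s x‖ ^ 2 ∂μ) l (𝓝 (∫ x, m x * ‖f x‖ ^ 2 ∂μ)) := by
  have hC0 : 0 ≤ C := (abs_nonneg _).trans (hC 0)
  have i1 : Integrable (fun x => ‖f x‖ ^ 2) μ := hf.integrable_norm_pow two_ne_zero
  have i2 : ∀ s, Integrable (fun x => ‖F s x‖ ^ 2) μ := fun s =>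
    (hF s).integrable_norm_pow two_ne_zero
  have i3 : ∀ s, Integrable (fun x => ‖f x - F s x‖ ^ 2) μ := fun s =>
    (hf.sub (hF s)).integrable_norm_pow two_ne_zero
  have im : ∀ {u : T3 → ℝ}, Integrable u μ → Integrable (fun x => m x * u x) μ := fun {u} hu =>
    hu.bdd_mul hm.aestronglyMeasurable (Eventually.of_forall hC)
  have hI0 : 0 ≤ ∫ x, ‖f x‖ ^ 2 ∂μ := integral_nonneg fun x => sq_nonneg _
  have key : ∀ (a : ℝ), 0 < a → ∀ s, |∫ x, m x * ‖F s x‖ ^ 2 ∂μ - ∫ x, m x * ‖f x‖ ^ 2 ∂μ|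
      ≤ C * (1 + a⁻¹) * ∫ x, ‖f x - F s x‖ ^ 2 ∂μ + C * a * ∫ x, ‖f x‖ ^ 2 ∂μ := by
    intro a ha s
    rw [← integral_sub (im (i2 s)) (im i1), ← integral_const_mul, ← integral_const_mul,
      ← integral_add ((i3 s).const_mul _) (i1.const_mul _)]
    refine (abs_integral_le_integral_abs).trans (integral_mono_of_nonneg
      (Eventually.of_forall fun x => abs_nonneg _) (((i3 s).const_mul _).add (i1.const_mul _))
      (Eventually.of_forall fun x => ?_))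
    dsimp only
    have e1 : m x * ‖F s x‖ ^ 2 - m x * ‖f x‖ ^ 2 = m x * (‖F s x‖ ^ 2 - ‖f x‖ ^ 2) := by ring
    rw [e1, abs_mul]
    set d := ‖f x - F s x‖ with hd
    set u := ‖f x‖ with hu
    set v := ‖F s x‖ with hv
    have d0 : 0 ≤ d := norm_nonneg _
    have u0 : 0 ≤ u := norm_nonneg _
    have v0 : 0 ≤ v := norm_nonneg _
    have t1 : |v - u| ≤ d := by
      have := abs_norm_sub_norm_le (F s x) (f x)
      rw [norm_sub_rev] at this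
      exact this
    have t2 : |v ^ 2 - u ^ 2| ≤ d ^ 2 + 2 * u * d := by
      have : v ^ 2 - u ^ 2 = (v - u) * (v + u) := by ring
      rw [this, abs_mul, abs_of_nonneg (add_nonneg v0 u0)]
      have t3 : v ≤ u + d := by linarith [(abs_le.1 t1).2]
      calc |v - u| * (v + u) ≤ d * (u + d + u) := by
            refine mul_le_mul t1 (by linarith) (add_nonneg v0 u0) d0
        _ = d ^ 2 + 2 * u * d := by ring
    have t4 : 2 * u * d ≤ a⁻¹ * d ^ 2 + a * u ^ 2 := by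
      have hsq : 0 ≤ (d - a * u) ^ 2 := sq_nonneg _
      have : a⁻¹ * d ^ 2 + a * u ^ 2 - 2 * u * d = a⁻¹ * (d - a * u) ^ 2 := by
        field_simp
        ring
      nlinarith [mul_nonneg (inv_pos.2 ha).le hsq]
    calc |m x| * |v ^ 2 - u ^ 2| ≤ C * (d ^ 2 + (a⁻¹ * d ^ 2 + a * u ^ 2)) :=
          mul_le_mul (hC x) (t2.trans (by linarith)) (abs_nonneg _) hC0
      _ = C * (1 + a⁻¹) * d ^ 2 + C * a * u ^ 2 := by ring
  rw [Metric.tendsto_nhds]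
  intro ε hε
  set M := C * ∫ x, ‖f x‖ ^ 2 ∂μ with hM
  have hM0 : 0 ≤ M := mul_nonneg hC0 hI0
  set a := ε / (2 * (M + 1)) with ha
  have ha0 : 0 < a := by positivity
  have haM : C * a * ∫ x, ‖f x‖ ^ 2 ∂μ < ε / 2 := by
    have e : C * a * ∫ x, ‖f x‖ ^ 2 ∂μ = a * M := by rw [hM]; ring
    rw [e, ha]
    have : ε / (2 * (M + 1)) * M = ε / 2 * (M / (M + 1)) := by
      field_simp
    rw [this]
    have h1 : M / (M + 1) < 1 := by rw [div_lt_one (by positivity)]; linarith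
    nlinarith
  have h2 : Tendsto (fun s => C * (1 + a⁻¹) * ∫ x, ‖f x - F s x‖ ^ 2 ∂μ) l (𝓝 0) := by
    have := h.const_mul (C * (1 + a⁻¹))
    rwa [mul_zero] at this
  filter_upwards [h2.eventually (gt_mem_nhds (half_pos hε))] with s hs
  rw [Real.dist_eq]
  have := key a ha0 s
  linarith

theorem C7_restrict {κ : Type*} {l : Filter κ} {f : T3 → ℂ} {F : κ → T3 → ℂ} (q : Set T3)
    (hf : MemLp f 2 lam3) (hF : ∀ s, MemLp (F s) 2 lam3)
    (h : Tendsto (fun s => ∫ x, ‖f x - F s x‖ ^ 2 ∂lam3) l (𝓝 0)) :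
    Tendsto (fun s => ∫ x in q, ‖f x - F s x‖ ^ 2 ∂lam3) l (𝓝 0) := by
  refine tendsto_of_tendsto_of_tendsto_of_le_of_le tendsto_const_nhds h
    (fun s => integral_nonneg fun x => sq_nonneg _) (fun s => ?_)
  exact setIntegral_le_integral ((hf.sub (hF s)).integrable_norm_pow two_ne_zero)
    (Eventually.of_forall fun x => sq_nonneg _)

theorem C7_enorm (z : ℂ) : ‖z‖ₑ ^ 2 = ENNReal.ofReal (‖z‖ ^ 2) := by
  rw [← ofReal_norm, ENNReal.ofReal_pow (norm_nonneg _)]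

theorem C7_lint {μ : Measure T3} {f : T3 → ℂ} (hf : MemLp f 2 μ) :
    ∫⁻ x, ‖f x‖ₑ ^ 2 ∂μ = ENNReal.ofReal (∫ x, ‖f x‖ ^ 2 ∂μ) := by
  rw [ofReal_integral_eq_lintegral_ofReal (hf.integrable_norm_pow two_ne_zero)
    (Eventually.of_forall fun x => sq_nonneg _)]
  simp_rw [C7_enorm]

theorem C7_lintw {μ : Measure T3} {f : T3 → ℂ} (hf : MemLp f 2 μ) {m : T3 → ℝ} (hm : Measurable m)
    (hm0 : ∀ x, 0 ≤ m x) {C : ℝ} (hC : ∀ x, |m x| ≤ C) :
    ∫⁻ x, ENNReal.ofReal (m x) * ‖f x‖ₑ ^ 2 ∂μ = ENNReal.ofReal (∫ x, m x * ‖f x‖ ^ 2 ∂μ) := by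
  rw [ofReal_integral_eq_lintegral_ofReal
    ((hf.integrable_norm_pow two_ne_zero).bdd_mul hm.aestronglyMeasurable (Eventually.of_forall hC))
    (Eventually.of_forall fun x => mul_nonneg (hm0 x) (sq_nonneg _))]
  refine lintegral_congr fun x => ?_
  rw [C7_enorm, ENNReal.ofReal_mul (hm0 x)]

theorem box_torus {w : ℝ → ℝ} (hwm : Measurable w) (hw0 : ∀ t, 0 ≤ w t) {R cw : ℝ} (hR : 0 < R)
    (hcw : 0 < cw) (hwR : ∀ t, w t ≤ (R⁻¹) ^ 2) (hws : ∀ t, R ≤ t → w t = 0)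
    (hwi : cw * R ≤ sig * ∫ t in Ioi (0:ℝ), t ^ 2 * w t) {b : Fin 3 → ℝ} {r : ℝ} (hr : 2 * R ≤ r)
    (hr2 : r ≤ 1 / 2) :
    BoxIneq (ENNReal.ofReal (cw * R / (1056 * r ^ 3))) (fun y => ENNReal.ofReal (w (rr y)))
      (tbox b r) := by
  intro φ g hg z hz
  have hr0 : 0 < r := by linarith
  set q := tbox b r with hq
  set m : T3 → ℝ := fun x => w (rr (x - z)) with hm
  have hmm : Measurable m := hwm.comp (rr_measurable.comp
    (measurable_sub' measurable_id measurable_const))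
  have hm0 : ∀ x, 0 ≤ m x := fun x => hw0 _
  have hmC : ∀ x, |m x| ≤ (R⁻¹) ^ 2 := fun x => by rw [abs_of_nonneg (hm0 x)]; exact hwR _
  have hφq : MemLp φ 2 (lam3.restrict q) := hg.mem.restrict q
  have hgq : ∀ α, MemLp (g α) 2 (lam3.restrict q) := fun α => (hg.gmem α).restrict q
  set c : (Fin 3 → ℤ) → ℂ := fc3 φ with hc
  have htg : ∀ (s : Finset (Fin 3 → ℤ)) (α : Fin 3), tpolg s c α = tpol s (fc3 (g α)) := by
    intro s α
    ext x
    unfold tpolg tpol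
    refine Finset.sum_congr rfl fun p _ => ?_
    rw [hg.four α p]
  have l1 : Tendsto (fun s => ∫ x in q, ‖φ x - tpol s c x‖ ^ 2 ∂lam3) atTop (𝓝 0) :=
    C7_restrict q hg.mem (fun s => C7_tpol_memLp s c) (C7_conv hg.mem)
  have l2 : ∀ α, Tendsto (fun s => ∫ x in q, ‖g α x - tpol s (fc3 (g α)) x‖ ^ 2 ∂lam3) atTop
      (𝓝 0) := fun α =>
    C7_restrict q (hg.gmem α) (fun s => C7_tpol_memLp s _) (C7_conv (hg.gmem α))
  have one : ∀ x : T3, |(1 : ℝ)| ≤ 1 := fun x => by simp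
  have t1 : Tendsto (fun s => ∫ x in q, ‖tpol s c x‖ ^ 2 ∂lam3) atTop
      (𝓝 (∫ x in q, ‖φ x‖ ^ 2 ∂lam3)) := by
    have := C7_wconv (m := fun _ => 1) hφq (fun s => (C7_tpol_memLp s c).restrict q) l1
      measurable_const one
    simpa only [one_mul] using this
  have t2 : ∀ α, Tendsto (fun s => ∫ x in q, ‖tpolg s c α x‖ ^ 2 ∂lam3) atTop
      (𝓝 (∫ x in q, ‖g α x‖ ^ 2 ∂lam3)) := by
    intro α
    simp_rw [htg]
    have := C7_wconv (m := fun _ => 1) (hgq α) (fun s => (C7_tpol_memLp s _).restrict q) (l2 α)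
      measurable_const one
    simpa only [one_mul] using this
  have t3 : Tendsto (fun s => ∫ x in q, m x * ‖tpol s c x‖ ^ 2 ∂lam3) atTop
      (𝓝 (∫ x in q, m x * ‖φ x‖ ^ 2 ∂lam3)) :=
    C7_wconv hφq (fun s => (C7_tpol_memLp s c).restrict q) l1 hmm hmC
  have hreal : cw * R / (1056 * r ^ 3) * ∫ x in q, ‖φ x‖ ^ 2 ∂lam3
      ≤ (∑ α, ∫ x in q, ‖g α x‖ ^ 2 ∂lam3) + ∫ x in q, m x * ‖φ x‖ ^ 2 ∂lam3 :=
    le_of_tendsto_of_tendsto' (t1.const_mul _) ((tendsto_finsetSum _ fun α _ => t2 α).add t3)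
      fun s => box_tpol hwm hw0 hR hcw hwR hws hwi hr hr2 s c hz
  have hκ : 0 ≤ cw * R / (1056 * r ^ 3) := by positivity
  rw [C7_lint hφq, ← ENNReal.ofReal_mul hκ]
  simp_rw [C7_lint (hgq _)]
  have e4 : ∫⁻ x in q, ENNReal.ofReal (w (rr (x - z))) * ‖φ x‖ₑ ^ 2 ∂lam3
      = ENNReal.ofReal (∫ x in q, m x * ‖φ x‖ ^ 2 ∂lam3) := C7_lintw hφq hmm hm0 hmC
  rw [e4, ← ENNReal.ofReal_sum_of_nonneg (fun α _ => integral_nonneg fun x => sq_nonneg _),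
    ← ENNReal.ofReal_add (Finset.sum_nonneg fun α _ => integral_nonneg fun x => sq_nonneg _)
      (integral_nonneg fun x => mul_nonneg (hm0 x) (sq_nonneg _))]
  exact ENNReal.ofReal_le_ofReal hreal

end Pool.Agent.Lib.MP_4952d6_mp.LA

end

/-! ### LA.D1 -/

section

/-!
# JOB LA-D1: crowded cells

`1_c` = indicator of `q c`; `n_c(x) = #{i ∈ S | x i ∈ q c}`.  For `i ≠ j` in `S` and a cell `c`: apply `HG.slice1` in the particle `i`: for a.e. `x` the slice `y ↦ Φ (update x i y)` is `HG1`;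
if `x j ∈ q c`, `hbox` with `z = x j` gives
`κ ∫⁻_{q c} ‖Φ(update x i y)‖² dy ≤ ∑_α ∫⁻_{q c} ‖g i α (update x i y)‖² dy + ∫⁻_{q c} v (y - x j) ‖Φ(update x i y)‖² dy`.
Multiply by `1_c(x j) / (1 + #{k ∈ S, k ≠ i, x k ∈ q c})` (does not depend on `x i`), sum over `j ∈ S.erase i`, integrate over `x` (`lint_update`):
with `n = n_c(x)` (`x i ∈ q c`): `κ ∫⁻ 1_c(x i) (n-1)/n ‖Φ‖² ≤ ∑_α ∫⁻ 1_c(x i) ‖g i α‖² + ∑_j ∫⁻ 1_c(x i) 1_c(x j) (1/n) v(x i - x j) ‖Φ‖²`.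
Sum over `i ∈ S` and `c`: left side `κ ∫⁻ ∑_c (n_c - 1)₊ ‖Φ‖² ≥ κ ∫⁻ (∑_c n_c - |C|) ‖Φ‖²` ; kinetic part `≤ ∑_{i∈S} ∑_α ∫⁻ ‖g i α‖²` (disjoint cells);
potential part: `n ≥ 2` whenever `i ≠ j` are both in `q c`, so `≤ ∫⁻ 2⁻¹ ∑_{i∈S} ∑_{j ∈ S.erase i} v(x i - x j) ‖Φ‖² ≤ ∫⁻ potS 𝒱 S x ‖Φ‖²` because
`v (x i - x j) ≤ 𝒱 (x i - x j)` for a.e. `x` with `R₀ ≤ rr (x i - x j)` (`mp_diff`), and `Φ x = 0` otherwise.
(It may be convenient to prove first the pointwise combinatorial facts for a finite family of points and a finite family of disjoint sets.)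
-/

set_option autoImplicit false
set_option linter.unusedSectionVars false
set_option linter.unusedVariables false
open MeasureTheory Function Filter Topology Set ComplexConjugate
open scoped ENNReal

namespace Pool.Agent.Lib.MP_4952d6_mp.LA

variable {ι : Type*} [Fintype ι] [DecidableEq ι]

/-- the indicator of a cell -/
noncomputable def D1_o (Q : Set T3) (y : T3) : ℝ≥0∞ := Q.indicator (fun _ => (1 : ℝ≥0∞)) y

/-- number of other particles of `S` in the cell -/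
noncomputable def D1_N (Q : Set T3) (S : Finset ι) (i : ι) (x : ι → T3) : ℝ≥0∞ :=
  ∑ k ∈ S.erase i, D1_o Q (x k)

/-- the weight -/
noncomputable def D1_w (Q : Set T3) (S : Finset ι) (i : ι) (x : ι → T3) : ℝ≥0∞ :=
  (1 + D1_N Q S i x)⁻¹

lemma D1_o_mem {Q : Set T3} {y : T3} (h : y ∈ Q) : D1_o Q y = 1 := by
  unfold D1_o
  rw [indicator_of_mem h]

lemma D1_o_not {Q : Set T3} {y : T3} (h : y ∉ Q) : D1_o Q y = 0 := by
  unfold D1_o
  rw [indicator_of_notMem h]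

lemma D1_o_le (Q : Set T3) (y : T3) : D1_o Q y ≤ 1 := by
  by_cases h : y ∈ Q
  · rw [D1_o_mem h]
  · rw [D1_o_not h]
    exact zero_le

lemma D1_o_meas {Q : Set T3} (hQ : MeasurableSet Q) : Measurable (D1_o Q) :=
  measurable_const.indicator hQ

lemma D1_o_set {Q : Set T3} (hQ : MeasurableSet Q) (f : T3 → ℝ≥0∞) :
    ∫⁻ y in Q, f y ∂lam3 = ∫⁻ y, D1_o Q y * f y ∂lam3 := by
  rw [← lintegral_indicator hQ]
  refine lintegral_congr fun y => ?_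
  by_cases h : y ∈ Q
  · rw [indicator_of_mem h, D1_o_mem h, one_mul]
  · rw [indicator_of_notMem h, D1_o_not h, zero_mul]

lemma D1_N_upd (Q : Set T3) (S : Finset ι) (i : ι) (x : ι → T3) (y : T3) :
    D1_N Q S i (update x i y) = D1_N Q S i x := by
  unfold D1_N
  refine Finset.sum_congr rfl fun k hk => ?_
  rw [update_of_ne (Finset.ne_of_mem_erase hk)]

lemma D1_w_upd (Q : Set T3) (S : Finset ι) (i : ι) (x : ι → T3) (y : T3) :
    D1_w Q S i (update x i y) = D1_w Q S i x := by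
  unfold D1_w
  rw [D1_N_upd]

lemma D1_N_top (Q : Set T3) (S : Finset ι) (i : ι) (x : ι → T3) : D1_N Q S i x ≠ ⊤ := by
  unfold D1_N
  refine (ENNReal.sum_lt_top.2 fun k _ => ?_).ne
  exact lt_of_le_of_lt (D1_o_le Q (x k)) ENNReal.one_lt_top

lemma D1_N_meas {Q : Set T3} (hQ : MeasurableSet Q) (S : Finset ι) (i : ι) :
    Measurable (D1_N Q S i) := by
  unfold D1_N
  exact Finset.measurable_fun_sum _ fun k _ => (D1_o_meas hQ).comp (measurable_pi_apply k)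

lemma D1_w_meas {Q : Set T3} (hQ : MeasurableSet Q) (S : Finset ι) (i : ι) :
    Measurable (D1_w Q S i) := by
  unfold D1_w
  exact (measurable_const.add (D1_N_meas hQ S i)).inv

lemma D1_w_mul (Q : Set T3) (S : Finset ι) (i : ι) (x : ι → T3) :
    D1_w Q S i x + D1_w Q S i x * D1_N Q S i x = 1 := by
  have h1 : (1 + D1_N Q S i x) ≠ 0 := by
    intro h
    have := (add_eq_zero.1 h).1
    exact one_ne_zero this
  have h2 : (1 + D1_N Q S i x) ≠ ⊤ := ENNReal.add_ne_top.2 ⟨ENNReal.one_ne_top, D1_N_top Q S i x⟩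
  have h3 : D1_w Q S i x * (1 + D1_N Q S i x) = 1 := ENNReal.inv_mul_cancel h1 h2
  rw [mul_add, mul_one] at h3
  exact h3

lemma D1_w_le (Q : Set T3) (S : Finset ι) (i : ι) (x : ι → T3) : D1_w Q S i x ≤ 1 := by
  rw [← D1_w_mul Q S i x]
  exact le_self_add

lemma D1_wN_le (Q : Set T3) (S : Finset ι) (i : ι) (x : ι → T3) :
    D1_w Q S i x * D1_N Q S i x ≤ 1 := by
  conv_rhs => rw [← D1_w_mul Q S i x]
  exact le_add_self

lemma D1_sum_w (Q : Set T3) (S : Finset ι) (x : ι → T3) :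
    ∑ i ∈ S, D1_o Q (x i) * D1_w Q S i x ≤ 1 := by
  have h1 : ∀ i ∈ S, D1_o Q (x i) * D1_w Q S i x
      = D1_o Q (x i) * (∑ k ∈ S, D1_o Q (x k))⁻¹ := by
    intro i hi
    by_cases h : x i ∈ Q
    · have h2 : ∑ k ∈ S, D1_o Q (x k) = 1 + D1_N Q S i x := by
        unfold D1_N
        rw [← Finset.add_sum_erase S _ hi, D1_o_mem h]
      unfold D1_w
      rw [h2]
    · rw [D1_o_not h, zero_mul, zero_mul]
  rw [Finset.sum_congr rfl h1, ← Finset.sum_mul]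
  exact ENNReal.mul_inv_le_one _

lemma D1_w_half {Q : Set T3} {S : Finset ι} {i j : ι} (hj : j ∈ S.erase i) (x : ι → T3) :
    D1_w Q S i x * D1_o Q (x j) ≤ 2⁻¹ := by
  by_cases h : x j ∈ Q
  · rw [D1_o_mem h, mul_one]
    unfold D1_w
    rw [ENNReal.inv_le_inv]
    have h1 : (1 : ℝ≥0∞) ≤ D1_N Q S i x := by
      unfold D1_N
      rw [← D1_o_mem h]
      exact Finset.single_le_sum (f := fun k => D1_o Q (x k)) (fun k _ => zero_le) hj
    calc (2 : ℝ≥0∞) = 1 + 1 := by norm_num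
      _ ≤ 1 + D1_N Q S i x := by gcongr
  · rw [D1_o_not h, mul_zero]
    exact zero_le

lemma D1_sum_c {C : Type*} [Fintype C] {q : C → Set T3}
    (hdis : ∀ c c', c ≠ c' → Disjoint (q c) (q c')) (y : T3) : ∑ c, D1_o (q c) y ≤ 1 := by
  classical
  by_cases h : ∃ c, y ∈ q c
  · obtain ⟨c, hc⟩ := h
    rw [Finset.sum_eq_single c]
    · exact D1_o_le _ _
    · intro c' _ hne
      refine D1_o_not fun h' => ?_
      exact Set.disjoint_left.1 (hdis c' c hne) h' hc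
    · intro h'
      exact absurd (Finset.mem_univ c) h'
  · push Not at h
    rw [Finset.sum_eq_zero fun c _ => D1_o_not (h c)]
    exact zero_le

lemma D1_sum_le {α κ : Type*} [MeasurableSpace α] (μ : Measure α) (s : Finset κ)
    (f : κ → α → ℝ≥0∞) : ∑ a ∈ s, ∫⁻ x, f a x ∂μ ≤ ∫⁻ x, ∑ a ∈ s, f a x ∂μ := by
  classical
  induction s using Finset.induction_on with
  | empty => simp
  | insert a s ha ih =>
    rw [Finset.sum_insert ha]
    refine (add_le_add_right ih _).trans ?_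
    refine (le_lintegral_add _ _).trans ?_
    refine le_of_eq (lintegral_congr fun x => ?_)
    rw [Finset.sum_insert ha]

/-- right hand side for one particle and one cell -/
noncomputable def D1_R (v : T3 → ℝ≥0∞) (Q : Set T3) (Φ : (ι → T3) → ℂ)
    (g : ι → Fin 3 → (ι → T3) → ℂ) (S : Finset ι) (i : ι) (x : ι → T3) : ℝ≥0∞ :=
  (∑ α, (D1_w Q S i x * D1_N Q S i x) * (D1_o Q (x i) * ‖g i α x‖ₑ ^ 2))
    + ∑ j ∈ S.erase i, (D1_w Q S i x * D1_o Q (x j)) * (D1_o Q (x i) * (v (x i - x j) * ‖Φ x‖ₑ ^ 2))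

lemma D1_R_aem {v : T3 → ℝ≥0∞} (hvm : Measurable v) {Q : Set T3} (hQ : MeasurableSet Q)
    {Φ : (ι → T3) → ℂ} {g : ι → Fin 3 → (ι → T3) → ℂ} (h : HG Φ g) (S : Finset ι) (i : ι) :
    AEMeasurable (D1_R v Q Φ g S i) (piN ι) := by
  unfold D1_R
  have hw := (D1_w_meas hQ S i).aemeasurable (μ := piN ι)
  have hN := (D1_N_meas hQ S i).aemeasurable (μ := piN ι)
  have ho : ∀ k, AEMeasurable (fun x : ι → T3 => D1_o Q (x k)) (piN ι) := fun k =>
    ((D1_o_meas hQ).comp (measurable_pi_apply k)).aemeasurable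
  refine AEMeasurable.add ?_ ?_
  · refine Finset.aemeasurable_fun_sum _ fun α _ => ?_
    exact (hw.mul hN).mul ((ho i).mul ((h.gmem i α).1.enorm.pow_const 2))
  · refine Finset.aemeasurable_fun_sum _ fun j _ => ?_
    refine (hw.mul (ho j)).mul ((ho i).mul (AEMeasurable.mul ?_ (h.mem.1.enorm.pow_const 2)))
    exact (hvm.comp ((measurable_pi_apply i).sub (measurable_pi_apply j))).aemeasurable

/-- the inequality for one particle and one cell -/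
lemma D1_cell {v : T3 → ℝ≥0∞} (hvm : Measurable v) {Q : Set T3} (hQ : MeasurableSet Q)
    {κ : ℝ≥0∞} (hκ : κ ≠ ⊤) (hbox : BoxIneq κ v Q) {Φ : (ι → T3) → ℂ}
    {g : ι → Fin 3 → (ι → T3) → ℂ} (h : HG Φ g) (S : Finset ι) (i : ι) :
    κ * ∫⁻ x, (D1_w Q S i x * D1_N Q S i x) * (D1_o Q (x i) * ‖Φ x‖ₑ ^ 2) ∂(piN ι)
      ≤ ∫⁻ x, D1_R v Q Φ g S i x ∂(piN ι) := by
  have hF : AEMeasurable (fun x : ι → T3 =>
      (D1_w Q S i x * D1_N Q S i x) * (D1_o Q (x i) * ‖Φ x‖ₑ ^ 2)) (piN ι) := by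
    have hw := (D1_w_meas hQ S i).aemeasurable (μ := piN ι)
    have hN := (D1_N_meas hQ S i).aemeasurable (μ := piN ι)
    have ho : AEMeasurable (fun x : ι → T3 => D1_o Q (x i)) (piN ι) :=
      ((D1_o_meas hQ).comp (measurable_pi_apply i)).aemeasurable
    exact (hw.mul hN).mul (ho.mul (h.mem.1.enorm.pow_const 2))
  rw [← lint_update hF i, ← lint_update (D1_R_aem hvm hQ h S i) i, ← lintegral_const_mul' _ _ hκ]
  refine lintegral_mono_ae ?_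
  filter_upwards [h.slice1 i] with x hx
  have hwN : D1_w Q S i x * D1_N Q S i x ≠ ⊤ :=
    ne_top_of_le_ne_top ENNReal.one_ne_top (D1_wN_le Q S i x)
  have hwt : D1_w Q S i x ≠ ⊤ := ne_top_of_le_ne_top ENNReal.one_ne_top (D1_w_le Q S i x)
  have e1 : ∫⁻ y, (D1_w Q S i (update x i y) * D1_N Q S i (update x i y))
        * (D1_o Q (update x i y i) * ‖Φ (update x i y)‖ₑ ^ 2) ∂lam3
      = (D1_w Q S i x * D1_N Q S i x) * ∫⁻ y, D1_o Q y * ‖Φ (update x i y)‖ₑ ^ 2 ∂lam3 := by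
    rw [← lintegral_const_mul' _ _ hwN]
    refine lintegral_congr fun y => ?_
    rw [D1_w_upd, D1_N_upd, update_self]
  rw [e1]
  set A : ℝ≥0∞ := ∫⁻ y, D1_o Q y * ‖Φ (update x i y)‖ₑ ^ 2 ∂lam3 with hA
  set K : ℝ≥0∞ := ∑ α, ∫⁻ y, D1_o Q y * ‖g i α (update x i y)‖ₑ ^ 2 ∂lam3 with hK
  let V : ι → ℝ≥0∞ := fun j => ∫⁻ y, D1_o Q y * (v (y - x j) * ‖Φ (update x i y)‖ₑ ^ 2) ∂lam3
  -- the inequality for one other particle
  have h1 : ∀ j ∈ S.erase i, D1_o Q (x j) * (κ * A) ≤ D1_o Q (x j) * K + D1_o Q (x j) * V j := by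
    intro j _
    by_cases hj : x j ∈ Q
    · rw [D1_o_mem hj, one_mul, one_mul, one_mul]
      have h2 := hbox _ _ hx (x j) hj
      rw [D1_o_set hQ, D1_o_set hQ] at h2
      simp only [D1_o_set hQ] at h2
      exact h2
    · rw [D1_o_not hj, zero_mul]
      exact zero_le
  have h3 : D1_N Q S i x * (κ * A) ≤ D1_N Q S i x * K + ∑ j ∈ S.erase i, D1_o Q (x j) * V j := by
    unfold D1_N
    rw [Finset.sum_mul, Finset.sum_mul, ← Finset.sum_add_distrib]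
    exact Finset.sum_le_sum h1
  have h4 : κ * ((D1_w Q S i x * D1_N Q S i x) * A)
      ≤ (∑ α, (D1_w Q S i x * D1_N Q S i x) * ∫⁻ y, D1_o Q y * ‖g i α (update x i y)‖ₑ ^ 2 ∂lam3)
        + ∑ j ∈ S.erase i, (D1_w Q S i x * D1_o Q (x j)) * V j := by
    have h5 := mul_le_mul_right h3 (D1_w Q S i x)
    calc κ * ((D1_w Q S i x * D1_N Q S i x) * A)
        = D1_w Q S i x * (D1_N Q S i x * (κ * A)) := by ring
      _ ≤ D1_w Q S i x * (D1_N Q S i x * K + ∑ j ∈ S.erase i, D1_o Q (x j) * V j) := h5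
      _ = _ := by
        rw [mul_add]
        congr 1
        · rw [hK, ← Finset.mul_sum, ← mul_assoc]
        · rw [Finset.mul_sum]
          refine Finset.sum_congr rfl fun j _ => ?_
          rw [mul_assoc]
  refine h4.trans ?_
  have e2 : ∀ y, D1_R v Q Φ g S i (update x i y)
      = (∑ α, (D1_w Q S i x * D1_N Q S i x) * (D1_o Q y * ‖g i α (update x i y)‖ₑ ^ 2))
        + ∑ j ∈ S.erase i, (D1_w Q S i x * D1_o Q (x j))
            * (D1_o Q y * (v (y - x j) * ‖Φ (update x i y)‖ₑ ^ 2)) := by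
    intro y
    unfold D1_R
    rw [D1_w_upd, D1_N_upd, update_self]
    congr 1
    refine Finset.sum_congr rfl fun j hj => ?_
    rw [update_of_ne (Finset.ne_of_mem_erase hj)]
  have e3 : ∫⁻ y, D1_R v Q Φ g S i (update x i y) ∂lam3
      = ∫⁻ y, ((∑ α, (D1_w Q S i x * D1_N Q S i x) * (D1_o Q y * ‖g i α (update x i y)‖ₑ ^ 2))
        + ∑ j ∈ S.erase i, (D1_w Q S i x * D1_o Q (x j))
            * (D1_o Q y * (v (y - x j) * ‖Φ (update x i y)‖ₑ ^ 2))) ∂lam3 :=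
    lintegral_congr e2
  rw [e3]
  refine le_trans ?_ (le_lintegral_add _ _)
  refine add_le_add ?_ ?_
  · refine le_trans (le_of_eq ?_) (D1_sum_le lam3 _ _)
    refine Finset.sum_congr rfl fun α _ => ?_
    rw [lintegral_const_mul' _ _ hwN]
  · refine le_trans (le_of_eq ?_) (D1_sum_le lam3 _ _)
    refine Finset.sum_congr rfl fun j _ => ?_
    rw [lintegral_const_mul' _ _ (ENNReal.mul_ne_top hwt
      (ne_top_of_le_ne_top ENNReal.one_ne_top (D1_o_le _ _)))]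

/-- pointwise bound of the right hand side -/
lemma D1_point {R₀ : ℝ} {𝒱 v : T3 → ℝ≥0∞} {C : Type*} [Fintype C]
    {q : C → Set T3} (hdis : ∀ c c', c ≠ c' → Disjoint (q c) (q c')) {Φ : (ι → T3) → ℂ}
    {g : ι → Fin 3 → (ι → T3) → ℂ} (hc : Core R₀ Φ) (S : Finset ι) {x : ι → T3}
    (hx : ∀ i j : ι, i ≠ j → R₀ ≤ rr (x i - x j) → v (x i - x j) ≤ 𝒱 (x i - x j)) :
    ∑ i ∈ S, ∑ c, D1_R v (q c) Φ g S i x
      ≤ (∑ i ∈ S, ∑ α, ‖g i α x‖ₑ ^ 2) + potS 𝒱 S x * ‖Φ x‖ₑ ^ 2 := by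
  have hpot : potS 𝒱 S x * ‖Φ x‖ₑ ^ 2
      = ∑ i ∈ S, ∑ j ∈ S.erase i, 2⁻¹ * (𝒱 (x i - x j) * ‖Φ x‖ₑ ^ 2) := by
    unfold potS
    rw [Finset.mul_sum, Finset.sum_mul]
    refine Finset.sum_congr rfl fun i _ => ?_
    rw [Finset.mul_sum, Finset.sum_mul]
    refine Finset.sum_congr rfl fun j _ => ?_
    rw [mul_assoc]
  rw [hpot, ← Finset.sum_add_distrib]
  refine Finset.sum_le_sum fun i hi => ?_
  unfold D1_R
  rw [Finset.sum_add_distrib]
  refine add_le_add ?_ ?_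
  · calc ∑ c, ∑ α, (D1_w (q c) S i x * D1_N (q c) S i x) * (D1_o (q c) (x i) * ‖g i α x‖ₑ ^ 2)
        ≤ ∑ c, ∑ α, 1 * (D1_o (q c) (x i) * ‖g i α x‖ₑ ^ 2) := by
          refine Finset.sum_le_sum fun c _ => Finset.sum_le_sum fun α _ => ?_
          exact mul_le_mul_left (D1_wN_le (q c) S i x) _
      _ = (∑ c, D1_o (q c) (x i)) * ∑ α, ‖g i α x‖ₑ ^ 2 := by
          rw [Finset.sum_mul]
          refine Finset.sum_congr rfl fun c _ => ?_
          rw [Finset.mul_sum]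
          refine Finset.sum_congr rfl fun α _ => ?_
          rw [one_mul]
      _ ≤ 1 * ∑ α, ‖g i α x‖ₑ ^ 2 := mul_le_mul_left (D1_sum_c hdis (x i)) _
      _ = ∑ α, ‖g i α x‖ₑ ^ 2 := one_mul _
  · rw [Finset.sum_comm]
    refine Finset.sum_le_sum fun j hj => ?_
    have hV : v (x i - x j) * ‖Φ x‖ₑ ^ 2 ≤ 𝒱 (x i - x j) * ‖Φ x‖ₑ ^ 2 := by
      have hij : i ≠ j := (Finset.ne_of_mem_erase hj).symm
      by_cases hr : R₀ ≤ rr (x i - x j)
      · exact mul_le_mul_left (hx i j hij hr) _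
      · rw [hc x i j hij (not_le.1 hr)]
        simp
    calc ∑ c, (D1_w (q c) S i x * D1_o (q c) (x j))
          * (D1_o (q c) (x i) * (v (x i - x j) * ‖Φ x‖ₑ ^ 2))
        ≤ ∑ c, 2⁻¹ * (D1_o (q c) (x i) * (𝒱 (x i - x j) * ‖Φ x‖ₑ ^ 2)) := by
          refine Finset.sum_le_sum fun c _ => ?_
          exact mul_le_mul' (D1_w_half hj x) (mul_le_mul_right hV _)
      _ = 2⁻¹ * ((∑ c, D1_o (q c) (x i)) * (𝒱 (x i - x j) * ‖Φ x‖ₑ ^ 2)) := by
          rw [← Finset.mul_sum, Finset.sum_mul]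
      _ ≤ 2⁻¹ * (1 * (𝒱 (x i - x j) * ‖Φ x‖ₑ ^ 2)) := by
          gcongr
          exact D1_sum_c hdis (x i)
      _ = 2⁻¹ * (𝒱 (x i - x j) * ‖Φ x‖ₑ ^ 2) := by rw [one_mul]

theorem crowd_ineq {R₀ : ℝ} {𝒱 : T3 → ℝ≥0∞} (hv : AEMeasurable 𝒱 lam3) {v : T3 → ℝ≥0∞}
    (hvm : Measurable v) (hle : ∀ᵐ y ∂lam3, R₀ ≤ rr y → v y ≤ 𝒱 y) {C : Type*} [Fintype C]
    {q : C → Set T3} (hq : ∀ c, MeasurableSet (q c)) (hdis : ∀ c c', c ≠ c' → Disjoint (q c) (q c'))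
    {κ : ℝ≥0∞} (hκ : κ ≠ ⊤) (hbox : ∀ c, BoxIneq κ v (q c)) {Φ : (ι → T3) → ℂ}
    {g : ι → Fin 3 → (ι → T3) → ℂ} (h : HG Φ g) (hc : Core R₀ Φ) (S : Finset ι) :
    κ * ∫⁻ x, (∑ i ∈ S, ∑ c, (q c).indicator (fun _ => (1 : ℝ≥0∞)) (x i)) * ‖Φ x‖ₑ ^ 2 ∂(piN ι)
      ≤ eS 𝒱 S Φ g + κ * (Fintype.card C : ℝ≥0∞) * ∫⁻ x, ‖Φ x‖ₑ ^ 2 ∂(piN ι) := by
  classical
  have hΦm : AEMeasurable (fun x : ι → T3 => ‖Φ x‖ₑ ^ 2) (piN ι) := h.mem.1.enorm.pow_const 2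
  have hFm : ∀ i c, AEMeasurable (fun x : ι → T3 =>
      (D1_w (q c) S i x * D1_N (q c) S i x) * (D1_o (q c) (x i) * ‖Φ x‖ₑ ^ 2)) (piN ι) := by
    intro i c
    have hw := (D1_w_meas (hq c) S i).aemeasurable (μ := piN ι)
    have hN := (D1_N_meas (hq c) S i).aemeasurable (μ := piN ι)
    have ho : AEMeasurable (fun x : ι → T3 => D1_o (q c) (x i)) (piN ι) :=
      ((D1_o_meas (hq c)).comp (measurable_pi_apply i)).aemeasurable
    exact (hw.mul hN).mul (ho.mul hΦm)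
  -- the left side
  have hleft : ∀ x : ι → T3,
      (∑ i ∈ S, ∑ c, (q c).indicator (fun _ => (1 : ℝ≥0∞)) (x i)) * ‖Φ x‖ₑ ^ 2
        ≤ (∑ i ∈ S, ∑ c, (D1_w (q c) S i x * D1_N (q c) S i x) * (D1_o (q c) (x i) * ‖Φ x‖ₑ ^ 2))
          + (Fintype.card C : ℝ≥0∞) * ‖Φ x‖ₑ ^ 2 := by
    intro x
    have h1 : ∀ i c, (q c).indicator (fun _ => (1 : ℝ≥0∞)) (x i) * ‖Φ x‖ₑ ^ 2
        = (D1_w (q c) S i x * D1_N (q c) S i x) * (D1_o (q c) (x i) * ‖Φ x‖ₑ ^ 2)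
          + (D1_o (q c) (x i) * D1_w (q c) S i x) * ‖Φ x‖ₑ ^ 2 := by
      intro i c
      have h2 := D1_w_mul (q c) S i x
      have h3 : (q c).indicator (fun _ => (1 : ℝ≥0∞)) (x i) = D1_o (q c) (x i) := rfl
      rw [h3]
      calc D1_o (q c) (x i) * ‖Φ x‖ₑ ^ 2
          = D1_o (q c) (x i) * ‖Φ x‖ₑ ^ 2
            * (D1_w (q c) S i x + D1_w (q c) S i x * D1_N (q c) S i x) := by rw [h2, mul_one]
        _ = _ := by ring
    have h4 : (∑ i ∈ S, ∑ c, (q c).indicator (fun _ => (1 : ℝ≥0∞)) (x i)) * ‖Φ x‖ₑ ^ 2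
        = (∑ i ∈ S, ∑ c, (D1_w (q c) S i x * D1_N (q c) S i x) * (D1_o (q c) (x i) * ‖Φ x‖ₑ ^ 2))
          + (∑ c, ∑ i ∈ S, D1_o (q c) (x i) * D1_w (q c) S i x) * ‖Φ x‖ₑ ^ 2 := by
      rw [Finset.sum_comm (s := (Finset.univ : Finset C)), Finset.sum_mul, Finset.sum_mul,
        ← Finset.sum_add_distrib]
      refine Finset.sum_congr rfl fun i _ => ?_
      rw [Finset.sum_mul, Finset.sum_mul, ← Finset.sum_add_distrib]
      exact Finset.sum_congr rfl fun c _ => h1 i c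
    rw [h4]
    refine add_le_add_right (mul_le_mul_left ?_ _) _
    refine (Finset.sum_le_sum fun c _ => D1_sum_w (q c) S x).trans ?_
    simp
  have hR : ∑ i ∈ S, ∑ c, κ * ∫⁻ x, (D1_w (q c) S i x * D1_N (q c) S i x)
        * (D1_o (q c) (x i) * ‖Φ x‖ₑ ^ 2) ∂(piN ι)
      ≤ eS 𝒱 S Φ g := by
    have h1 : ∑ i ∈ S, ∑ c, κ * ∫⁻ x, (D1_w (q c) S i x * D1_N (q c) S i x)
          * (D1_o (q c) (x i) * ‖Φ x‖ₑ ^ 2) ∂(piN ι)
        ≤ ∑ i ∈ S, ∑ c, ∫⁻ x, D1_R v (q c) Φ g S i x ∂(piN ι) :=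
      Finset.sum_le_sum fun i _ => Finset.sum_le_sum fun c _ => D1_cell hvm (hq c) hκ (hbox c) h S i
    refine h1.trans ?_
    have h2 : ∑ i ∈ S, ∑ c, ∫⁻ x, D1_R v (q c) Φ g S i x ∂(piN ι)
        ≤ ∫⁻ x, ∑ i ∈ S, ∑ c, D1_R v (q c) Φ g S i x ∂(piN ι) := by
      refine (Finset.sum_le_sum fun i _ => D1_sum_le (piN ι) _ _).trans ?_
      exact D1_sum_le (piN ι) _ _
    refine h2.trans ?_
    have hae : ∀ᵐ x ∂(piN ι), ∀ i j : ι, i ≠ j → R₀ ≤ rr (x i - x j) →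
        v (x i - x j) ≤ 𝒱 (x i - x j) := by
      rw [ae_all_iff]
      intro i
      rw [ae_all_iff]
      intro j
      by_cases hij : i = j
      · exact Eventually.of_forall fun x hx => absurd hij hx
      · filter_upwards [(mp_diff hij).quasiMeasurePreserving.ae hle] with x hx _
        exact hx
    have h3 : ∫⁻ x, ∑ i ∈ S, ∑ c, D1_R v (q c) Φ g S i x ∂(piN ι)
        ≤ ∫⁻ x, ((∑ i ∈ S, ∑ α, ‖g i α x‖ₑ ^ 2) + potS 𝒱 S x * ‖Φ x‖ₑ ^ 2) ∂(piN ι) := by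
      refine lintegral_mono_ae ?_
      filter_upwards [hae] with x hx
      exact D1_point hdis hc S hx
    refine h3.trans ?_
    have hgm : ∀ i α, AEMeasurable (fun x : ι → T3 => ‖g i α x‖ₑ ^ 2) (piN ι) := fun i α =>
      (h.gmem i α).1.enorm.pow_const 2
    rw [lintegral_add_left' (Finset.aemeasurable_fun_sum _ fun i _ =>
      Finset.aemeasurable_fun_sum _ fun α _ => hgm i α)]
    unfold eS
    refine add_le_add_left (le_of_eq ?_) _
    rw [lintegral_finsetSum' _ fun i _ => Finset.aemeasurable_fun_sum _ fun α _ => hgm i α]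
    refine Finset.sum_congr rfl fun i _ => ?_
    rw [lintegral_finsetSum' _ fun α _ => hgm i α]
  calc κ * ∫⁻ x, (∑ i ∈ S, ∑ c, (q c).indicator (fun _ => (1 : ℝ≥0∞)) (x i)) * ‖Φ x‖ₑ ^ 2 ∂(piN ι)
      ≤ κ * ∫⁻ x, ((∑ i ∈ S, ∑ c, (D1_w (q c) S i x * D1_N (q c) S i x)
          * (D1_o (q c) (x i) * ‖Φ x‖ₑ ^ 2))
          + (Fintype.card C : ℝ≥0∞) * ‖Φ x‖ₑ ^ 2) ∂(piN ι) := by
        gcongr with x
        exact hleft x
    _ = κ * ((∑ i ∈ S, ∑ c, ∫⁻ x, (D1_w (q c) S i x * D1_N (q c) S i x)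
          * (D1_o (q c) (x i) * ‖Φ x‖ₑ ^ 2) ∂(piN ι))
          + (Fintype.card C : ℝ≥0∞) * ∫⁻ x, ‖Φ x‖ₑ ^ 2 ∂(piN ι)) := by
        rw [lintegral_add_right' _ (hΦm.const_mul _), lintegral_const_mul'' _ hΦm,
          lintegral_finsetSum' _ fun i _ => Finset.aemeasurable_fun_sum _ fun c _ => hFm i c]
        congr 2
        refine Finset.sum_congr rfl fun i _ => ?_
        rw [lintegral_finsetSum' _ fun c _ => hFm i c]
    _ = (∑ i ∈ S, ∑ c, κ * ∫⁻ x, (D1_w (q c) S i x * D1_N (q c) S i x)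
          * (D1_o (q c) (x i) * ‖Φ x‖ₑ ^ 2) ∂(piN ι))
          + κ * (Fintype.card C : ℝ≥0∞) * ∫⁻ x, ‖Φ x‖ₑ ^ 2 ∂(piN ι) := by
        rw [mul_add, Finset.mul_sum, mul_assoc]
        congr 1
        refine Finset.sum_congr rfl fun i _ => ?_
        rw [Finset.mul_sum]
    _ ≤ eS 𝒱 S Φ g + κ * (Fintype.card C : ℝ≥0∞) * ∫⁻ x, ‖Φ x‖ₑ ^ 2 ∂(piN ι) :=
        add_le_add_left hR _

end Pool.Agent.Lib.MP_4952d6_mp.LA

end

/-! ### LA.E0 -/

section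

/-!
# LA-E0: localisation of all particles, definitions (no job)
-/

set_option autoImplicit false
set_option linter.unusedSectionVars false
set_option linter.unusedVariables false
open MeasureTheory Function Filter Topology Set ComplexConjugate
open scoped ENNReal

namespace Pool.Agent.Lib.MP_4952d6_mp.LA

variable {ι : Type*} [Fintype ι] [DecidableEq ι]

/-- product of localisation functions: particles in `S` inside, the others outside -/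
noncomputable def Th (θ₁ θ₂ : T3 → ℝ) (y : T3) (S : Finset ι) (x : ι → T3) : ℝ :=
  ∏ i, (if i ∈ S then θ₁ (x i - y) else θ₂ (x i - y))

/-- its derivatives -/
noncomputable def Thg (θ₁ θ₂ : T3 → ℝ) (θ₁' θ₂' : Fin 3 → T3 → ℝ) (y : T3) (S : Finset ι) (i : ι)
    (α : Fin 3) (x : ι → T3) : ℝ :=
  (if i ∈ S then θ₁' α (x i - y) else θ₂' α (x i - y))
    * ∏ j ∈ Finset.univ.erase i, (if j ∈ S then θ₁ (x j - y) else θ₂ (x j - y))

/-- localisation error -/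
noncomputable def Dth (θ₁' θ₂' : Fin 3 → T3 → ℝ) (y : T3) (x : ι → T3) : ℝ :=
  ∑ i, ∑ α, (θ₁' α (x i - y) ^ 2 + θ₂' α (x i - y) ^ 2)

/-- A minimiser with chemical potential `μ` and energy `e`. -/
structure Mini (R₀ : ℝ) (𝒱 : T3 → ℝ≥0∞) (μ e : ℝ) (ψ : (ι → T3) → ℂ)
    (g : ι → Fin 3 → (ι → T3) → ℂ) : Prop where
  hv : AEMeasurable 𝒱 lam3
  hev : ∀ y, 𝒱 (-y) = 𝒱 y
  fe : FE R₀ 𝒱 ψ g
  nrm : ∫ x, ‖ψ x‖ ^ 2 ∂(piN ι) = 1
  mu0 : 0 ≤ μ
  e0 : 0 ≤ e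
  hmin : ∀ (φ : (ι → T3) → ℂ) (f : ι → Fin 3 → (ι → T3) → ℂ), HG φ f → Core R₀ φ →
    ENNReal.ofReal e * ∫⁻ x, ‖φ x‖ₑ ^ 2 ∂(piN ι) ≤ eS 𝒱 Finset.univ φ f
  heq : rE 𝒱 Finset.univ ψ g = e
  chem : ∀ T : Finset ι, ENNReal.ofReal (e - (T.card : ℝ) * μ) ≤ E0 R₀ 𝒱 Tᶜ.card

/-- moments of the localised number of particles -/
noncomputable def Xm (θ : T3 → ℝ) (ψ : (ι → T3) → ℂ) (p : ℕ) : ℝ :=
  ∫ y, ∫ x, nTh θ y x ^ p * ‖ψ x‖ ^ 2 ∂(piN ι) ∂lam3

end Pool.Agent.Lib.MP_4952d6_mp.LA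

end

/-! ### LA.E1 -/

section

/-!
# JOB LA-E1: the localisation functions

* `Th_WDN`: each factor `θ (x i - y)` is `WD` in the direction `(i, α)` (`WD.comp` with `φ x = x i - y`: measure preserving, `φ (x + tauN i α t) = φ x + tau α t`) and invariant in the
  others (`WD.of_invariant`); product rule `WD.finset_prod` (only one factor depends on `x i`) and `WD.congr`.
* `Th_sum`: `Finset.prod_add` (or `Finset.prod_add_prod...`): `∏ᵢ (aᵢ + bᵢ) = ∑_{S ∈ powerset} ∏_{i∈S} aᵢ ∏_{i∉S} bᵢ`; `∏ᵢ ite = ∏_S * ∏_{Sᶜ}` (`Finset.prod_ite`).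
* `Th_card`: `S.card = ∑ᵢ [i ∈ S]`, and `∑_S [i ∈ S] ∏ ite² = θ₁(x i - y)²` (the same with the `i`-th factor `(a, 0)`).
* `Thg_sum`: the same with the `i`-th factor `(θ₁'², θ₂'²)`; `Th_ort`: `i`-th factor `(θ₁ θ₁', θ₂ θ₂')`, `Loc2.ort` and the quasi measure preserving maps `x ↦ x i - y`.
-/

set_option autoImplicit false
set_option linter.unusedSectionVars false
set_option linter.unusedVariables false
open MeasureTheory Function Filter Topology Set ComplexConjugate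
open scoped ENNReal

namespace Pool.Agent.Lib.MP_4952d6_mp.LA

variable {ι : Type*} [Fintype ι] [DecidableEq ι]

theorem E1_mp (i : ι) (y : T3) : MeasurePreserving (fun x : ι → T3 => x i - y) (piN ι) lam3 :=
  (measurePreserving_sub_right lam3 y).comp (measurePreserving_eval (fun _ : ι => lam3) i)

theorem E1_eq (i : ι) (α : Fin 3) (y : T3) (x : ι → T3) (t : ℝ) :
    (x + tauN i α t) i - y = (x i - y) + tau α t := by
  simp only [tauN, Pi.add_apply, Pi.single_eq_same]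
  abel

theorem E1_ne {i j : ι} (h : j ≠ i) (α : Fin 3) (x : ι → T3) (t : ℝ) :
    (x + tauN i α t) j = x j := by
  simp [tauN, Pi.single_eq_of_ne h]

/-- expansion of a product over all subsets -/
theorem E1_expand (a b : ι → ℝ) :
    ∑ S ∈ (Finset.univ : Finset ι).powerset, ∏ i, (if i ∈ S then a i else b i) = ∏ i, (a i + b i) := by
  rw [Finset.prod_add]
  refine Finset.sum_congr rfl fun S _ => ?_
  rw [Finset.prod_ite]
  congr 1
  · refine Finset.prod_congr ?_ fun _ _ => rfl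
    ext i; simp
  · refine Finset.prod_congr ?_ fun _ _ => rfl
    ext i; simp

theorem E1_one (i : ι) (u v : ℝ) (a b : ι → ℝ) (S : Finset ι) :
    (if i ∈ S then u else v) * ∏ j ∈ Finset.univ.erase i, (if j ∈ S then a j else b j) =
      ∏ j, (if j ∈ S then (if j = i then u else a j) else (if j = i then v else b j)) := by
  rw [← Finset.mul_prod_erase Finset.univ _ (Finset.mem_univ i)]
  rw [if_pos rfl, if_pos rfl]
  refine congrArg _ (Finset.prod_congr rfl fun j hj => ?_)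
  rw [if_neg (Finset.ne_of_mem_erase hj), if_neg (Finset.ne_of_mem_erase hj)]

theorem E1_sum_one (i : ι) (u v : ℝ) (a b : ι → ℝ) (hab : ∀ j, a j + b j = 1) :
    ∑ S ∈ (Finset.univ : Finset ι).powerset,
      (if i ∈ S then u else v) * ∏ j ∈ Finset.univ.erase i, (if j ∈ S then a j else b j) = u + v := by
  simp only [E1_one]
  rw [E1_expand, ← Finset.mul_prod_erase Finset.univ _ (Finset.mem_univ i), if_pos rfl, if_pos rfl]
  have h : ∏ j ∈ Finset.univ.erase i, ((if j = i then u else a j) + (if j = i then v else b j)) = 1 := by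
    refine Finset.prod_eq_one fun j hj => ?_
    rw [if_neg (Finset.ne_of_mem_erase hj), if_neg (Finset.ne_of_mem_erase hj), hab j]
  rw [h, mul_one]

theorem Th_WDN {l : ℝ} {θ₁ θ₂ : T3 → ℝ} {θ₁' θ₂' : Fin 3 → T3 → ℝ} (hL : Loc2 l θ₁ θ₂ θ₁' θ₂')
    (y : T3) (S : Finset ι) : WDN (Th θ₁ θ₂ y S) (Thg θ₁ θ₂ θ₁' θ₂' y S) := by
  intro i α
  have h : ∀ j ∈ (Finset.univ : Finset ι), WD (piN ι) (tauN i α)
      (fun x : ι → T3 => if j ∈ S then θ₁ (x j - y) else θ₂ (x j - y))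
      (fun x : ι → T3 => if j = i then (if i ∈ S then θ₁' α (x i - y) else θ₂' α (x i - y)) else 0) := by
    intro j _
    by_cases hj : j = i
    · subst hj
      simp only [if_true]
      by_cases hS : j ∈ S
      · simp only [hS, if_true]
        exact (hL.wd1 α).comp (tauN_zero j α) (E1_mp j y) (fun x t => E1_eq j α y x t)
      · simp only [hS, if_false]
        exact (hL.wd2 α).comp (tauN_zero j α) (E1_mp j y) (fun x t => E1_eq j α y x t)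
    · simp only [hj, if_false]
      by_cases hS : j ∈ S
      · simp only [hS, if_true]
        refine WD.of_invariant (tauN_zero i α) ?_ ?_ ?_
        · exact (hL.wd1 0).sm.comp_measurable (E1_mp j y).measurable
        · obtain ⟨C, hC⟩ := (hL.wd1 0).bdd
          exact ⟨C, fun x => hC _⟩
        · intro x t
          rw [E1_ne hj]
      · simp only [hS, if_false]
        refine WD.of_invariant (tauN_zero i α) ?_ ?_ ?_
        · exact (hL.wd2 0).sm.comp_measurable (E1_mp j y).measurable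
        · obtain ⟨C, hC⟩ := (hL.wd2 0).bdd
          exact ⟨C, fun x => hC _⟩
        · intro x t
          rw [E1_ne hj]
  have h1 := WD.finset_prod Finset.univ (tauN_zero i α) h
  have e : (fun x : ι → T3 => ∑ j, (if j = i then (if i ∈ S then θ₁' α (x i - y) else θ₂' α (x i - y)) else 0) *
      ∏ k ∈ Finset.univ.erase j, (if k ∈ S then θ₁ (x k - y) else θ₂ (x k - y))) =
      Thg θ₁ θ₂ θ₁' θ₂' y S i α := by
    funext x
    rw [Finset.sum_eq_single i]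
    · rw [if_pos rfl]
      rfl
    · intro j _ hj
      rw [if_neg hj, zero_mul]
    · intro hi
      exact absurd (Finset.mem_univ i) hi
  rw [e] at h1
  exact h1

theorem E1_Th_sq (θ₁ θ₂ : T3 → ℝ) (y : T3) (S : Finset ι) (x : ι → T3) :
    Th θ₁ θ₂ y S x ^ 2 = ∏ i, (if i ∈ S then θ₁ (x i - y) ^ 2 else θ₂ (x i - y) ^ 2) := by
  unfold Th
  rw [← Finset.prod_pow]
  refine Finset.prod_congr rfl fun i _ => ?_
  split_ifs <;> rfl

theorem Th_sum {l : ℝ} {θ₁ θ₂ : T3 → ℝ} {θ₁' θ₂' : Fin 3 → T3 → ℝ} (hL : Loc2 l θ₁ θ₂ θ₁' θ₂')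
    (y : T3) (x : ι → T3) :
    ∑ S ∈ (Finset.univ : Finset ι).powerset, Th θ₁ θ₂ y S x ^ 2 = 1 := by
  simp only [E1_Th_sq]
  rw [E1_expand]
  exact Finset.prod_eq_one fun i _ => hL.sum _

theorem Th_card {l : ℝ} {θ₁ θ₂ : T3 → ℝ} {θ₁' θ₂' : Fin 3 → T3 → ℝ} (hL : Loc2 l θ₁ θ₂ θ₁' θ₂')
    (y : T3) (x : ι → T3) :
    ∑ S ∈ (Finset.univ : Finset ι).powerset, (S.card : ℝ) * Th θ₁ θ₂ y S x ^ 2 = nTh θ₁ y x := by
  have hcard : ∀ S : Finset ι, (S.card : ℝ) = ∑ i, (if i ∈ S then (1 : ℝ) else 0) := by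
    intro S
    rw [Finset.sum_ite_mem, Finset.univ_inter, Finset.sum_const, nsmul_eq_mul, mul_one]
  have h : ∀ S ∈ (Finset.univ : Finset ι).powerset, (S.card : ℝ) * Th θ₁ θ₂ y S x ^ 2 =
      ∑ i, (if i ∈ S then θ₁ (x i - y) ^ 2 else 0) *
        ∏ j ∈ Finset.univ.erase i, (if j ∈ S then θ₁ (x j - y) ^ 2 else θ₂ (x j - y) ^ 2) := by
    intro S _
    rw [hcard, Finset.sum_mul]
    refine Finset.sum_congr rfl fun i _ => ?_
    rw [E1_Th_sq, ← Finset.mul_prod_erase Finset.univ _ (Finset.mem_univ i)]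
    by_cases hi : i ∈ S
    · simp only [hi, if_true, one_mul]
    · simp only [hi, if_false, zero_mul]
  rw [Finset.sum_congr rfl h, Finset.sum_comm]
  unfold nTh
  refine Finset.sum_congr rfl fun i _ => ?_
  have := E1_sum_one i (θ₁ (x i - y) ^ 2) 0 (fun j => θ₁ (x j - y) ^ 2) (fun j => θ₂ (x j - y) ^ 2)
    (fun j => hL.sum _)
  rw [add_zero] at this
  exact this

theorem Thg_sum {l : ℝ} {θ₁ θ₂ : T3 → ℝ} {θ₁' θ₂' : Fin 3 → T3 → ℝ} (hL : Loc2 l θ₁ θ₂ θ₁' θ₂')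
    (y : T3) (x : ι → T3) (i : ι) (α : Fin 3) :
    ∑ S ∈ (Finset.univ : Finset ι).powerset, Thg θ₁ θ₂ θ₁' θ₂' y S i α x ^ 2
      = θ₁' α (x i - y) ^ 2 + θ₂' α (x i - y) ^ 2 := by
  have h : ∀ S ∈ (Finset.univ : Finset ι).powerset, Thg θ₁ θ₂ θ₁' θ₂' y S i α x ^ 2 =
      (if i ∈ S then θ₁' α (x i - y) ^ 2 else θ₂' α (x i - y) ^ 2) *
        ∏ j ∈ Finset.univ.erase i, (if j ∈ S then θ₁ (x j - y) ^ 2 else θ₂ (x j - y) ^ 2) := by
    intro S _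
    unfold Thg
    rw [mul_pow, ← Finset.prod_pow]
    congr 1
    · split_ifs <;> rfl
    · refine Finset.prod_congr rfl fun j _ => ?_
      split_ifs <;> rfl
  rw [Finset.sum_congr rfl h]
  exact E1_sum_one i _ _ _ _ (fun j => hL.sum _)

theorem Th_ort {l : ℝ} {θ₁ θ₂ : T3 → ℝ} {θ₁' θ₂' : Fin 3 → T3 → ℝ} (hL : Loc2 l θ₁ θ₂ θ₁' θ₂')
    (y : T3) : ∀ᵐ x ∂(piN ι), ∀ i α,
    ∑ S ∈ (Finset.univ : Finset ι).powerset, Th θ₁ θ₂ y S x * Thg θ₁ θ₂ θ₁' θ₂' y S i α x = 0 := by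
  have hae : ∀ᵐ x ∂(piN ι), ∀ i : ι, ∀ α, θ₁ (x i - y) * θ₁' α (x i - y) + θ₂ (x i - y) * θ₂' α (x i - y) = 0 := by
    rw [ae_all_iff]
    intro i
    exact (E1_mp i y).quasiMeasurePreserving.ae hL.ort
  filter_upwards [hae] with x hx i α
  have h : ∀ S ∈ (Finset.univ : Finset ι).powerset, Th θ₁ θ₂ y S x * Thg θ₁ θ₂ θ₁' θ₂' y S i α x =
      (if i ∈ S then θ₁ (x i - y) * θ₁' α (x i - y) else θ₂ (x i - y) * θ₂' α (x i - y)) *
        ∏ j ∈ Finset.univ.erase i, (if j ∈ S then θ₁ (x j - y) ^ 2 else θ₂ (x j - y) ^ 2) := by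
    intro S _
    unfold Th Thg
    rw [← Finset.mul_prod_erase Finset.univ _ (Finset.mem_univ i)]
    have e : ∏ j ∈ Finset.univ.erase i, (if j ∈ S then θ₁ (x j - y) ^ 2 else θ₂ (x j - y) ^ 2) =
        (∏ j ∈ Finset.univ.erase i, (if j ∈ S then θ₁ (x j - y) else θ₂ (x j - y))) *
        ∏ j ∈ Finset.univ.erase i, (if j ∈ S then θ₁ (x j - y) else θ₂ (x j - y)) := by
      rw [← Finset.prod_mul_distrib]
      refine Finset.prod_congr rfl fun j _ => ?_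
      split_ifs <;> ring
    rw [e]
    split_ifs <;> ring
  rw [Finset.sum_congr rfl h]
  have := E1_sum_one i (θ₁ (x i - y) * θ₁' α (x i - y)) (θ₂ (x i - y) * θ₂' α (x i - y))
    (fun j => θ₁ (x j - y) ^ 2) (fun j => θ₂ (x j - y) ^ 2) (fun j => hL.sum _)
  rw [hx i α] at this
  exact this

/-- inside a crowded set only particles of `S` -/
theorem Th_supp {l : ℝ} {θ₁ θ₂ : T3 → ℝ} {θ₁' θ₂' : Fin 3 → T3 → ℝ} (hL : Loc2 l θ₁ θ₂ θ₁' θ₂')
    {y : T3} {S : Finset ι} {x : ι → T3} (h : Th θ₁ θ₂ y S x ≠ 0) :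
    ∀ i ∈ S, rr (x i - y) < 2 * l := by
  intro i hi
  by_contra hc
  push Not at hc
  refine h ?_
  unfold Th
  refine Finset.prod_eq_zero (Finset.mem_univ i) ?_
  rw [if_pos hi]
  exact hL.zero _ hc

end Pool.Agent.Lib.MP_4952d6_mp.LA

end

/-! ### LA.E2 -/

section

/-!
# JOB LA-E2: IMS formula

Pointwise `‖Thg Φ + Th g‖² = Th² ‖g‖² + 2 Th Thg Re (conj Φ g) + Thg² ‖Φ‖²`; sum over `S` with `Th_sum`, `Th_ort`, `Thg_sum`; `∑_S Th² pot ‖Φ‖² = pot ‖Φ‖²`.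
(All functions integrable: `Th`, `Thg` bounded a.e., `Φ`, `g` in `L²`; potential part `rE_eq` for `Φ`; or use `rE_mG` for each `S` and sum.)
-/

set_option autoImplicit false
set_option linter.unusedSectionVars false
set_option linter.unusedVariables false
open MeasureTheory Function Filter Topology Set ComplexConjugate
open scoped ENNReal

namespace Pool.Agent.Lib.MP_4952d6_mp.LA

variable {ι : Type*} [Fintype ι] [DecidableEq ι]

lemma E2_bnd {i : ι} {α : Fin 3} {F F' : (ι → T3) → ℝ} (w : WD (piN ι) (tauN i α) F F')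
    {f : (ι → T3) → ℝ} (hf : Integrable f (piN ι)) :
    Integrable (fun x => F x ^ 2 * f x) (piN ι) ∧ Integrable (fun x => 2 * F x * F' x * f x) (piN ι)
      ∧ Integrable (fun x => F' x ^ 2 * f x) (piN ι) := by
  obtain ⟨B, hB0, hB⟩ := w.exists_bdd
  obtain ⟨C, hC0, hC⟩ := w.bound
  have m1 : AEStronglyMeasurable F (piN ι) := w.sm.aestronglyMeasurable
  have m2 : AEStronglyMeasurable F' (piN ι) := w.aesm_deriv
  refine ⟨?_, ?_, ?_⟩
  · refine hf.bdd_mul (c := B ^ 2) (m1.pow 2) (Eventually.of_forall fun x => ?_)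
    rw [norm_pow]
    exact pow_le_pow_left₀ (norm_nonneg _) (hB x) 2
  · refine hf.bdd_mul (c := 2 * B * C) ((m1.const_mul 2).mul m2) ?_
    filter_upwards [hC] with x hx
    rw [norm_mul, norm_mul, Real.norm_ofNat]
    exact mul_le_mul (mul_le_mul_of_nonneg_left (hB x) (by norm_num)) hx (norm_nonneg _)
      (mul_nonneg (by norm_num) hB0)
  · refine hf.bdd_mul (c := C ^ 2) (m2.pow 2) ?_
    filter_upwards [hC] with x hx
    rw [norm_pow]
    exact pow_le_pow_left₀ (norm_nonneg _) hx 2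

theorem ims {R₀ l : ℝ} {𝒱 : T3 → ℝ≥0∞} (hv : AEMeasurable 𝒱 lam3) {θ₁ θ₂ : T3 → ℝ}
    {θ₁' θ₂' : Fin 3 → T3 → ℝ} (hL : Loc2 l θ₁ θ₂ θ₁' θ₂') (y : T3) {Φ : (ι → T3) → ℂ}
    {g : ι → Fin 3 → (ι → T3) → ℂ} (h : FE R₀ 𝒱 Φ g) :
    ∑ S ∈ (Finset.univ : Finset ι).powerset, rE 𝒱 Finset.univ (mG (Th θ₁ θ₂ y S) Φ)
        (mGg (Th θ₁ θ₂ y S) (Thg θ₁ θ₂ θ₁' θ₂' y S) Φ g)
      = rE 𝒱 Finset.univ Φ g + ∫ x, Dth θ₁' θ₂' y x * ‖Φ x‖ ^ 2 ∂(piN ι) := by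
  have wS : ∀ S : Finset ι, WDN (Th θ₁ θ₂ y S) (Thg θ₁ θ₂ θ₁' θ₂' y S) := fun S => Th_WDN hL y S
  have iΦ : Integrable (fun x => ‖Φ x‖ ^ 2) (piN ι) := int_sq h.hg.mem
  have ig : ∀ i α, Integrable (fun x => ‖g i α x‖ ^ 2) (piN ι) := fun i α => int_sq (h.hg.gmem i α)
  have iR : ∀ i α, Integrable (fun x => (conj (Φ x) * g i α x).re) (piN ι) := by
    intro i α
    have h1 : MemLp (fun x => conj (Φ x)) 2 (piN ι) := by
      have := h.hg.mem.star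
      exact this
    have h2 : Integrable ((fun x => conj (Φ x)) * g i α) (piN ι) := h1.integrable_mul (h.hg.gmem i α)
    exact h2.re
  obtain ⟨iP, -, -⟩ := rE_eq hv h.hg h.fin
  -- integrability of the pieces
  have iA : ∀ (S : Finset ι) (i : ι) (α : Fin 3), Integrable (fun x => Th θ₁ θ₂ y S x ^ 2 * ‖g i α x‖ ^ 2
      + 2 * Th θ₁ θ₂ y S x * Thg θ₁ θ₂ θ₁' θ₂' y S i α x * (conj (Φ x) * g i α x).re) (piN ι) :=
    fun S i α => (E2_bnd (wS S i α) (ig i α)).1.add (E2_bnd (wS S i α) (iR i α)).2.1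
  have iC : ∀ (S : Finset ι) (i : ι) (α : Fin 3),
      Integrable (fun x => Thg θ₁ θ₂ θ₁' θ₂' y S i α x ^ 2 * ‖Φ x‖ ^ 2) (piN ι) :=
    fun S i α => (E2_bnd (wS S i α) iΦ).2.2
  have iB : ∀ S : Finset ι, Integrable (fun x => Th θ₁ θ₂ y S x ^ 2
      * ((potS 𝒱 Finset.univ x).toReal * ‖Φ x‖ ^ 2)) (piN ι) := by
    intro S
    by_cases hne : Nonempty ι
    · obtain ⟨i⟩ := hne
      exact (E2_bnd (wS S i 0) iP).1
    · have he : IsEmpty ι := not_nonempty_iff.1 hne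
      have e : (fun x : ι → T3 => Th θ₁ θ₂ y S x ^ 2 * ((potS 𝒱 Finset.univ x).toReal * ‖Φ x‖ ^ 2))
          = fun x : ι → T3 => (potS 𝒱 Finset.univ x).toReal * ‖Φ x‖ ^ 2 := by
        funext x
        unfold Th
        rw [Finset.univ_eq_empty, Finset.prod_empty]
        ring
      rw [e]
      exact iP
  -- the sum of the diagonal parts
  have s1 : ∑ S ∈ (Finset.univ : Finset ι).powerset, (∑ i, ∑ α, ∫ x, (Th θ₁ θ₂ y S x ^ 2 * ‖g i α x‖ ^ 2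
      + 2 * Th θ₁ θ₂ y S x * Thg θ₁ θ₂ θ₁' θ₂' y S i α x * (conj (Φ x) * g i α x).re) ∂(piN ι))
      = ∑ i, ∑ α, ∫ x, ‖g i α x‖ ^ 2 ∂(piN ι) := by
    rw [Finset.sum_comm]
    refine Finset.sum_congr rfl fun i _ => ?_
    rw [Finset.sum_comm]
    refine Finset.sum_congr rfl fun α _ => ?_
    rw [← integral_finsetSum _ fun S _ => iA S i α]
    refine integral_congr_ae ?_
    filter_upwards [Th_ort hL y] with x hx
    rw [Finset.sum_add_distrib, ← Finset.sum_mul, ← Finset.sum_mul, Th_sum hL y x]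
    have e : ∑ S ∈ (Finset.univ : Finset ι).powerset,
        2 * Th θ₁ θ₂ y S x * Thg θ₁ θ₂ θ₁' θ₂' y S i α x = 0 := by
      have := hx i α
      calc ∑ S ∈ (Finset.univ : Finset ι).powerset, 2 * Th θ₁ θ₂ y S x * Thg θ₁ θ₂ θ₁' θ₂' y S i α x
          = 2 * ∑ S ∈ (Finset.univ : Finset ι).powerset,
              Th θ₁ θ₂ y S x * Thg θ₁ θ₂ θ₁' θ₂' y S i α x := by
            rw [Finset.mul_sum]
            exact Finset.sum_congr rfl fun S _ => by ring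
        _ = 0 := by rw [this, mul_zero]
    rw [e]
    ring
  have s2 : ∑ S ∈ (Finset.univ : Finset ι).powerset, ∫ x, Th θ₁ θ₂ y S x ^ 2
      * ((potS 𝒱 Finset.univ x).toReal * ‖Φ x‖ ^ 2) ∂(piN ι)
      = ∫ x, (potS 𝒱 Finset.univ x).toReal * ‖Φ x‖ ^ 2 ∂(piN ι) := by
    rw [← integral_finsetSum _ fun S _ => iB S]
    refine integral_congr_ae (Eventually.of_forall fun x => ?_)
    beta_reduce
    rw [← Finset.sum_mul, Th_sum hL y x, one_mul]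
  have s3 : ∑ S ∈ (Finset.univ : Finset ι).powerset, (∑ i, ∑ α,
      ∫ x, Thg θ₁ θ₂ θ₁' θ₂' y S i α x ^ 2 * ‖Φ x‖ ^ 2 ∂(piN ι))
      = ∫ x, Dth θ₁' θ₂' y x * ‖Φ x‖ ^ 2 ∂(piN ι) := by
    have e1 : ∀ i α, ∑ S ∈ (Finset.univ : Finset ι).powerset,
        ∫ x, Thg θ₁ θ₂ θ₁' θ₂' y S i α x ^ 2 * ‖Φ x‖ ^ 2 ∂(piN ι)
        = ∫ x, (θ₁' α (x i - y) ^ 2 + θ₂' α (x i - y) ^ 2) * ‖Φ x‖ ^ 2 ∂(piN ι) := by
      intro i α
      rw [← integral_finsetSum _ fun S _ => iC S i α]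
      refine integral_congr_ae (Eventually.of_forall fun x => ?_)
      beta_reduce
      rw [← Finset.sum_mul, Thg_sum hL y x i α]
    have i2 : ∀ i α, Integrable (fun x : ι → T3 =>
        (θ₁' α (x i - y) ^ 2 + θ₂' α (x i - y) ^ 2) * ‖Φ x‖ ^ 2) (piN ι) := by
      intro i α
      have e2 : (fun x : ι → T3 => (θ₁' α (x i - y) ^ 2 + θ₂' α (x i - y) ^ 2) * ‖Φ x‖ ^ 2)
          = fun x => ∑ S ∈ (Finset.univ : Finset ι).powerset,
            Thg θ₁ θ₂ θ₁' θ₂' y S i α x ^ 2 * ‖Φ x‖ ^ 2 := by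
        funext x
        rw [← Finset.sum_mul, Thg_sum hL y x i α]
      rw [e2]
      exact integrable_finsetSum _ fun S _ => iC S i α
    rw [Finset.sum_comm]
    have e3 : ∀ i, ∑ S ∈ (Finset.univ : Finset ι).powerset, ∑ α,
        ∫ x, Thg θ₁ θ₂ θ₁' θ₂' y S i α x ^ 2 * ‖Φ x‖ ^ 2 ∂(piN ι)
        = ∑ α, ∫ x, (θ₁' α (x i - y) ^ 2 + θ₂' α (x i - y) ^ 2) * ‖Φ x‖ ^ 2 ∂(piN ι) := by
      intro i
      rw [Finset.sum_comm]
      exact Finset.sum_congr rfl fun α _ => e1 i α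
    rw [Finset.sum_congr rfl fun i _ => e3 i]
    have e4 : ∫ x, Dth θ₁' θ₂' y x * ‖Φ x‖ ^ 2 ∂(piN ι)
        = ∫ x, ∑ i, ∑ α, (θ₁' α (x i - y) ^ 2 + θ₂' α (x i - y) ^ 2) * ‖Φ x‖ ^ 2 ∂(piN ι) := by
      refine integral_congr_ae (Eventually.of_forall fun x => ?_)
      beta_reduce
      unfold Dth
      rw [Finset.sum_mul]
      exact Finset.sum_congr rfl fun i _ => Finset.sum_mul _ _ _
    rw [e4, integral_finsetSum _ fun i _ => integrable_finsetSum _ fun α _ => i2 i α]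
    refine Finset.sum_congr rfl fun i _ => ?_
    rw [integral_finsetSum _ fun α _ => i2 i α]
  have e0 : ∀ S ∈ (Finset.univ : Finset ι).powerset, rE 𝒱 Finset.univ (mG (Th θ₁ θ₂ y S) Φ)
        (mGg (Th θ₁ θ₂ y S) (Thg θ₁ θ₂ θ₁' θ₂' y S) Φ g)
      = ((∑ i, ∑ α, ∫ x, (Th θ₁ θ₂ y S x ^ 2 * ‖g i α x‖ ^ 2
          + 2 * Th θ₁ θ₂ y S x * Thg θ₁ θ₂ θ₁' θ₂' y S i α x * (conj (Φ x) * g i α x).re) ∂(piN ι))
        + ∫ x, Th θ₁ θ₂ y S x ^ 2 * ((potS 𝒱 Finset.univ x).toReal * ‖Φ x‖ ^ 2) ∂(piN ι))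
        + ∑ i, ∑ α, ∫ x, Thg θ₁ θ₂ θ₁' θ₂' y S i α x ^ 2 * ‖Φ x‖ ^ 2 ∂(piN ι) := by
    intro S _
    rw [rE_mG hv h (wS S)]
    rfl
  rw [Finset.sum_congr rfl e0, Finset.sum_add_distrib, Finset.sum_add_distrib, s1, s2, s3]
  rfl

end Pool.Agent.Lib.MP_4952d6_mp.LA

end

/-! ### LA.E3 -/

section

/-!
# JOB LA-E3: energy bound with localisation

For each `S`, `χ = mG (Th .. S) Φ` (`FE.mul`): `eS univ χ ≥ eS S χ + eS Sᶜ χ` (`potS_split`, sums over `S` and `Sᶜ`);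
`slice_energy` for `S` with `w = 1` (`eW = eS`): `E0 Sᶜ.card ∫⁻ ‖χ‖² ≤ eS Sᶜ χ`, `hchem`: `≥ ofReal (e - |S| μ)`;
`crowd_ineq` for `S` and the cells: on `Th ≠ 0` all particles of `S` are in cells (`Th_supp`, `hcov`), so `κ |S| ∫⁻ ‖χ‖² ≤ eS S χ + κ |C| ∫⁻ ‖χ‖²`.
In reals (`rE_eq`): `(κ (|S| - |C|) + e - |S| μ) ∫ ‖χ‖² ≤ rE univ χ`.  Sum over `S`: `ims`, `∫ ‖χ‖² = ∫ Th² ‖Φ‖²`, `Th_sum`, `Th_card`.
-/

set_option autoImplicit false
set_option linter.unusedSectionVars false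
set_option linter.unusedVariables false
open MeasureTheory Function Filter Topology Set ComplexConjugate
open scoped ENNReal

namespace Pool.Agent.Lib.MP_4952d6_mp.LA

variable {ι : Type*} [Fintype ι] [DecidableEq ι]

lemma E3_meas {l : ℝ} {θ₁ θ₂ : T3 → ℝ} {θ₁' θ₂' : Fin 3 → T3 → ℝ} (hL : Loc2 l θ₁ θ₂ θ₁' θ₂')
    (y : T3) (S : Finset ι) : Measurable (Th θ₁ θ₂ y S : (ι → T3) → ℝ) := by
  unfold Th
  refine Finset.measurable_prod _ fun i _ => ?_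
  have h1 : Measurable fun x : ι → T3 => x i - y := (measurable_pi_apply i).sub measurable_const
  split_ifs
  · exact (hL.wd1 0).sm.measurable.comp h1
  · exact (hL.wd2 0).sm.measurable.comp h1

lemma E3_le {l : ℝ} {θ₁ θ₂ : T3 → ℝ} {θ₁' θ₂' : Fin 3 → T3 → ℝ} (hL : Loc2 l θ₁ θ₂ θ₁' θ₂')
    (y : T3) (S : Finset ι) (x : ι → T3) : Th θ₁ θ₂ y S x ^ 2 ≤ 1 := by
  rw [← Th_sum hL y x]
  exact Finset.single_le_sum (f := fun S => Th θ₁ θ₂ y S x ^ 2) (fun T _ => sq_nonneg _)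
    (Finset.mem_powerset.mpr (Finset.subset_univ S))

lemma E3_int {ψ : (ι → T3) → ℂ} (h : MemLp ψ 2 (piN ι)) {F : (ι → T3) → ℝ} (hF : Measurable F)
    {C : ℝ} (hC : ∀ x, |F x| ≤ C) : Integrable (fun x => F x * ‖ψ x‖ ^ 2) (piN ι) := by
  refine Integrable.bdd_mul (c := C) (int_sq h) hF.aestronglyMeasurable
    (Eventually.of_forall fun x => ?_)
  rw [Real.norm_eq_abs]
  exact hC x

/-- the bound for one set of particles -/
lemma E3_one {R₀ l μ e κ : ℝ} {𝒱 : T3 → ℝ≥0∞} (hv : AEMeasurable 𝒱 lam3)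
    (hev : ∀ y, 𝒱 (-y) = 𝒱 y) {θ₁ θ₂ : T3 → ℝ}
    {θ₁' θ₂' : Fin 3 → T3 → ℝ} (hL : Loc2 l θ₁ θ₂ θ₁' θ₂') (y : T3) {Φ : (ι → T3) → ℂ}
    {g : ι → Fin 3 → (ι → T3) → ℂ} (h : FE R₀ 𝒱 Φ g)
    (hchem : ∀ T : Finset ι, ENNReal.ofReal (e - (T.card : ℝ) * μ) ≤ E0 R₀ 𝒱 Tᶜ.card)
    {v : T3 → ℝ≥0∞} (hvm : Measurable v) (hle : ∀ᵐ z ∂lam3, R₀ ≤ rr z → v z ≤ 𝒱 z)
    {C : Type*} [Fintype C] {q : C → Set T3} (hq : ∀ c, MeasurableSet (q c))
    (hdis : ∀ c c', c ≠ c' → Disjoint (q c) (q c')) (hκ : 0 ≤ κ)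
    (hbox : ∀ c, BoxIneq (ENNReal.ofReal κ) v (q c))
    (hcov : ∀ x, rr (x - y) < 2 * l → ∃ c, x ∈ q c) (S : Finset ι) :
    ((κ - μ) * (S.card : ℝ) + (e - κ * (Fintype.card C : ℝ))) *
        ∫ x, Th θ₁ θ₂ y S x ^ 2 * ‖Φ x‖ ^ 2 ∂(piN ι)
      ≤ rE 𝒱 Finset.univ (mG (Th θ₁ θ₂ y S) Φ)
        (mGg (Th θ₁ θ₂ y S) (Thg θ₁ θ₂ θ₁' θ₂' y S) Φ g) := by
  have hχ := h.mul (Th_WDN hL y S)
  set χ := mG (Th θ₁ θ₂ y S) Φ with hχd
  set γ := mGg (Th θ₁ θ₂ y S) (Thg θ₁ θ₂ θ₁' θ₂' y S) Φ g with hγd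
  -- the norm
  have hJ : ∫ x, Th θ₁ θ₂ y S x ^ 2 * ‖Φ x‖ ^ 2 ∂(piN ι) = ∫ x, ‖χ x‖ ^ 2 ∂(piN ι) := by
    refine integral_congr_ae (Eventually.of_forall fun x => ?_)
    simp only [hχd, mG]
    rw [norm_mul, mul_pow, Complex.norm_real, Real.norm_eq_abs, sq_abs]
  set J := ∫ x, ‖χ x‖ ^ 2 ∂(piN ι) with hJd
  have hJ0 : 0 ≤ J := integral_nonneg fun x => sq_nonneg _
  have hI : ∫⁻ x, ‖χ x‖ₑ ^ 2 ∂(piN ι) = ENNReal.ofReal J := lint_sq hχ.hg.mem
  have hrE := rE_eq hv hχ.hg hχ.fin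
  -- splitting of the energy
  have hsplit : eS 𝒱 S χ γ + eS 𝒱 Sᶜ χ γ ≤ eS 𝒱 Finset.univ χ γ := by
    unfold eS
    have h1 : (∑ i ∈ S, ∑ α, ∫⁻ x, ‖γ i α x‖ₑ ^ 2 ∂(piN ι))
        + (∑ i ∈ Sᶜ, ∑ α, ∫⁻ x, ‖γ i α x‖ₑ ^ 2 ∂(piN ι))
        = ∑ i, ∑ α, ∫⁻ x, ‖γ i α x‖ₑ ^ 2 ∂(piN ι) := Finset.sum_add_sum_compl S _
    have hm : AEMeasurable (fun x => potS 𝒱 S x * ‖χ x‖ₑ ^ 2) (piN ι) :=
      (aem_potS hv S).mul (hχ.hg.mem.aestronglyMeasurable.enorm.pow_const 2)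
    have h2 : (∫⁻ x, potS 𝒱 S x * ‖χ x‖ₑ ^ 2 ∂(piN ι))
        + (∫⁻ x, potS 𝒱 Sᶜ x * ‖χ x‖ₑ ^ 2 ∂(piN ι))
        ≤ ∫⁻ x, potS 𝒱 Finset.univ x * ‖χ x‖ₑ ^ 2 ∂(piN ι) := by
      rw [← lintegral_add_left' hm]
      refine lintegral_mono fun x => ?_
      simp only [← add_mul]
      exact mul_le_mul_left (potS_split S x) _
    calc _ = ((∑ i ∈ S, ∑ α, ∫⁻ x, ‖γ i α x‖ₑ ^ 2 ∂(piN ι))
        + (∑ i ∈ Sᶜ, ∑ α, ∫⁻ x, ‖γ i α x‖ₑ ^ 2 ∂(piN ι)))
        + ((∫⁻ x, potS 𝒱 S x * ‖χ x‖ₑ ^ 2 ∂(piN ι))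
        + (∫⁻ x, potS 𝒱 Sᶜ x * ‖χ x‖ₑ ^ 2 ∂(piN ι))) := by
          rw [add_add_add_comm]
      _ ≤ _ := by
          rw [h1]
          exact add_le_add le_rfl h2
  -- the particles outside
  have hout : ENNReal.ofReal (e - (S.card : ℝ) * μ) * ENNReal.ofReal J ≤ eS 𝒱 Sᶜ χ γ := by
    have h1 := slice_energy hv hev (S := S) (w := fun _ => 1) measurable_const
      (fun _ _ _ => rfl) hχ.hg hχ.core
    have h2 : eW 𝒱 Sᶜ (fun _ => 1) χ γ = eS 𝒱 Sᶜ χ γ := by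
      unfold eW eS
      simp only [one_mul]
    rw [h2] at h1
    simp only [one_mul] at h1
    rw [hI] at h1
    exact (mul_le_mul_left (hchem S) _).trans h1
  -- the particles inside
  have hin : ENNReal.ofReal κ * ((S.card : ℝ≥0∞) * ENNReal.ofReal J)
      ≤ eS 𝒱 S χ γ + ENNReal.ofReal κ * (Fintype.card C : ℝ≥0∞) * ENNReal.ofReal J := by
    have h1 := crowd_ineq hv hvm hle hq hdis ENNReal.ofReal_ne_top hbox hχ.hg hχ.core S
    rw [hI] at h1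
    refine le_trans (mul_le_mul_right ?_ _) h1
    rw [← hI, ← lintegral_const_mul' _ _ (ENNReal.natCast_ne_top _)]
    refine lintegral_mono fun x => ?_
    by_cases hx : Th θ₁ θ₂ y S x = 0
    · have : χ x = 0 := by simp only [hχd, mG, hx]; simp
      simp [this]
    · refine mul_le_mul_left ?_ _
      have h2 : ∀ i ∈ S, (1 : ℝ≥0∞) ≤ ∑ c, (q c).indicator (fun _ => (1 : ℝ≥0∞)) (x i) := by
        intro i hi
        obtain ⟨c, hc⟩ := hcov (x i) (Th_supp hL hx i hi)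
        calc (1 : ℝ≥0∞) = (q c).indicator (fun _ => (1 : ℝ≥0∞)) (x i) := by
              rw [Set.indicator_of_mem hc]
          _ ≤ _ := Finset.single_le_sum
              (f := fun c => (q c).indicator (fun _ => (1 : ℝ≥0∞)) (x i))
              (fun _ _ => zero_le) (Finset.mem_univ c)
      calc (S.card : ℝ≥0∞) = ∑ i ∈ S, (1 : ℝ≥0∞) := by simp
        _ ≤ _ := Finset.sum_le_sum h2
  -- in reals
  have h3 : ENNReal.ofReal (κ * ((S.card : ℝ) * J)) + ENNReal.ofReal (max (e - (S.card : ℝ) * μ) 0 * J)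
      ≤ ENNReal.ofReal (rE 𝒱 Finset.univ χ γ) + ENNReal.ofReal (κ * (Fintype.card C : ℝ) * J) := by
    rw [hrE.2.1]
    have e1 : ENNReal.ofReal (κ * ((S.card : ℝ) * J)) =
        ENNReal.ofReal κ * ((S.card : ℝ≥0∞) * ENNReal.ofReal J) := by
      rw [ENNReal.ofReal_mul hκ, ENNReal.ofReal_mul (Nat.cast_nonneg _), ENNReal.ofReal_natCast]
    have e2 : ENNReal.ofReal (max (e - (S.card : ℝ) * μ) 0 * J) =
        ENNReal.ofReal (e - (S.card : ℝ) * μ) * ENNReal.ofReal J := by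
      rw [ENNReal.ofReal_mul (le_max_right _ _)]
      congr 1
      rw [ENNReal.ofReal_max]
      simp
    have e3 : ENNReal.ofReal (κ * (Fintype.card C : ℝ) * J) =
        ENNReal.ofReal κ * (Fintype.card C : ℝ≥0∞) * ENNReal.ofReal J := by
      rw [ENNReal.ofReal_mul (by positivity), ENNReal.ofReal_mul hκ, ENNReal.ofReal_natCast]
    rw [e1, e2, e3]
    calc _ ≤ (eS 𝒱 S χ γ + ENNReal.ofReal κ * (Fintype.card C : ℝ≥0∞) * ENNReal.ofReal J)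
        + eS 𝒱 Sᶜ χ γ := add_le_add hin hout
      _ = (eS 𝒱 S χ γ + eS 𝒱 Sᶜ χ γ)
        + ENNReal.ofReal κ * (Fintype.card C : ℝ≥0∞) * ENNReal.ofReal J := by
          rw [add_right_comm]
      _ ≤ _ := add_le_add hsplit le_rfl
  rw [← ENNReal.ofReal_add (by positivity) (mul_nonneg (le_max_right _ _) hJ0),
    ← ENNReal.ofReal_add hrE.2.2 (by positivity)] at h3
  have h4 := (ENNReal.ofReal_le_ofReal_iff (add_nonneg hrE.2.2 (by positivity))).mp h3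
  have h5 : (e - (S.card : ℝ) * μ) * J ≤ max (e - (S.card : ℝ) * μ) 0 * J :=
    mul_le_mul_of_nonneg_right (le_max_left _ _) hJ0
  rw [hJ]
  linarith

theorem loc_energy {R₀ l μ e κ : ℝ} {𝒱 : T3 → ℝ≥0∞} (hv : AEMeasurable 𝒱 lam3)
    (hev : ∀ y, 𝒱 (-y) = 𝒱 y) {θ₁ θ₂ : T3 → ℝ}
    {θ₁' θ₂' : Fin 3 → T3 → ℝ} (hL : Loc2 l θ₁ θ₂ θ₁' θ₂') (y : T3) {Φ : (ι → T3) → ℂ}
    {g : ι → Fin 3 → (ι → T3) → ℂ} (h : FE R₀ 𝒱 Φ g)
    (hchem : ∀ T : Finset ι, ENNReal.ofReal (e - (T.card : ℝ) * μ) ≤ E0 R₀ 𝒱 Tᶜ.card)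
    {v : T3 → ℝ≥0∞} (hvm : Measurable v) (hle : ∀ᵐ z ∂lam3, R₀ ≤ rr z → v z ≤ 𝒱 z)
    {C : Type*} [Fintype C] {q : C → Set T3} (hq : ∀ c, MeasurableSet (q c))
    (hdis : ∀ c c', c ≠ c' → Disjoint (q c) (q c')) (hκ : 0 ≤ κ)
    (hbox : ∀ c, BoxIneq (ENNReal.ofReal κ) v (q c))
    (hcov : ∀ x, rr (x - y) < 2 * l → ∃ c, x ∈ q c) :
    ∫ x, ((κ - μ) * nTh θ₁ y x - κ * (Fintype.card C : ℝ) + e - Dth θ₁' θ₂' y x) * ‖Φ x‖ ^ 2 ∂(piN ι)
      ≤ rE 𝒱 Finset.univ Φ g := by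
  have hint : ∀ S : Finset ι, Integrable (fun x => Th θ₁ θ₂ y S x ^ 2 * ‖Φ x‖ ^ 2) (piN ι) :=
    fun S => E3_int h.hg.mem ((E3_meas hL y S).pow_const 2) (C := 1) fun x => by
      rw [abs_of_nonneg (sq_nonneg _)]
      exact E3_le hL y S x
  have hsum : ∑ S ∈ (Finset.univ : Finset ι).powerset,
      ((κ - μ) * (S.card : ℝ) + (e - κ * (Fintype.card C : ℝ))) *
        ∫ x, Th θ₁ θ₂ y S x ^ 2 * ‖Φ x‖ ^ 2 ∂(piN ι)
      ≤ rE 𝒱 Finset.univ Φ g + ∫ x, Dth θ₁' θ₂' y x * ‖Φ x‖ ^ 2 ∂(piN ι) := by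
    rw [← ims hv hL y h]
    exact Finset.sum_le_sum fun S _ =>
      E3_one hv hev hL y h hchem hvm hle hq hdis hκ hbox hcov S
  have hD : Integrable (fun x : ι → T3 => Dth θ₁' θ₂' y x * ‖Φ x‖ ^ 2) (piN ι) := by
    refine E3_int h.hg.mem (C := ∑ _i : ι, 3 / l ^ 2) ?_ fun x => ?_
    · unfold Dth
      refine Finset.measurable_sum _ fun i _ => Finset.measurable_sum _ fun α _ => ?_
      have h1 : Measurable fun x : ι → T3 => x i - y := (measurable_pi_apply i).sub measurable_const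
      exact (((hL.meas1 α).comp h1).pow_const 2).add (((hL.meas2 α).comp h1).pow_const 2)
    · unfold Dth
      rw [abs_of_nonneg (Finset.sum_nonneg fun i _ => Finset.sum_nonneg fun α _ => by positivity)]
      exact Finset.sum_le_sum fun i _ => hL.grad (x i - y)
  have hA : ∑ S ∈ (Finset.univ : Finset ι).powerset,
      ((κ - μ) * (S.card : ℝ) + (e - κ * (Fintype.card C : ℝ))) *
        ∫ x, Th θ₁ θ₂ y S x ^ 2 * ‖Φ x‖ ^ 2 ∂(piN ι)
      = ∫ x, ((κ - μ) * nTh θ₁ y x + (e - κ * (Fintype.card C : ℝ))) * ‖Φ x‖ ^ 2 ∂(piN ι) := by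
    simp only [← integral_const_mul]
    rw [← integral_finsetSum _ fun S _ => (hint S).const_mul _]
    refine integral_congr_ae (Eventually.of_forall fun x => ?_)
    simp only
    have h1 := Th_sum hL y x
    have h2 := Th_card hL y x
    calc ∑ S ∈ (Finset.univ : Finset ι).powerset,
          ((κ - μ) * (S.card : ℝ) + (e - κ * (Fintype.card C : ℝ)))
            * (Th θ₁ θ₂ y S x ^ 2 * ‖Φ x‖ ^ 2)
        = ((κ - μ) * (∑ S ∈ (Finset.univ : Finset ι).powerset, (S.card : ℝ) * Th θ₁ θ₂ y S x ^ 2)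
          + (e - κ * (Fintype.card C : ℝ))
            * ∑ S ∈ (Finset.univ : Finset ι).powerset, Th θ₁ θ₂ y S x ^ 2) * ‖Φ x‖ ^ 2 := by
          rw [Finset.mul_sum, Finset.mul_sum, ← Finset.sum_add_distrib, Finset.sum_mul]
          exact Finset.sum_congr rfl fun S _ => by ring
      _ = _ := by rw [h1, h2, mul_one]
  have hN : Integrable (fun x : ι → T3 => ((κ - μ) * nTh θ₁ y x + (e - κ * (Fintype.card C : ℝ)))
      * ‖Φ x‖ ^ 2) (piN ι) := by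
    have h1 : Integrable (fun x => ∑ S ∈ (Finset.univ : Finset ι).powerset,
        ((κ - μ) * (S.card : ℝ) + (e - κ * (Fintype.card C : ℝ))) *
          (Th θ₁ θ₂ y S x ^ 2 * ‖Φ x‖ ^ 2)) (piN ι) :=
      integrable_finsetSum _ fun S _ => (hint S).const_mul _
    refine h1.congr (Eventually.of_forall fun x => ?_)
    simp only
    have h2 := Th_sum hL y x
    have h3 := Th_card hL y x
    calc ∑ S ∈ (Finset.univ : Finset ι).powerset,
          ((κ - μ) * (S.card : ℝ) + (e - κ * (Fintype.card C : ℝ)))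
            * (Th θ₁ θ₂ y S x ^ 2 * ‖Φ x‖ ^ 2)
        = ((κ - μ) * (∑ S ∈ (Finset.univ : Finset ι).powerset, (S.card : ℝ) * Th θ₁ θ₂ y S x ^ 2)
          + (e - κ * (Fintype.card C : ℝ))
            * ∑ S ∈ (Finset.univ : Finset ι).powerset, Th θ₁ θ₂ y S x ^ 2) * ‖Φ x‖ ^ 2 := by
          rw [Finset.mul_sum, Finset.mul_sum, ← Finset.sum_add_distrib, Finset.sum_mul]
          exact Finset.sum_congr rfl fun S _ => by ring
      _ = _ := by rw [h2, h3, mul_one]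
  have hfin : ∫ x, ((κ - μ) * nTh θ₁ y x - κ * (Fintype.card C : ℝ) + e - Dth θ₁' θ₂' y x)
        * ‖Φ x‖ ^ 2 ∂(piN ι)
      = (∫ x, ((κ - μ) * nTh θ₁ y x + (e - κ * (Fintype.card C : ℝ))) * ‖Φ x‖ ^ 2 ∂(piN ι))
        - ∫ x, Dth θ₁' θ₂' y x * ‖Φ x‖ ^ 2 ∂(piN ι) := by
    rw [← integral_sub hN hD]
    refine integral_congr_ae (Eventually.of_forall fun x => ?_)
    simp only
    ring
  rw [hfin, ← hA]
  linarith

end Pool.Agent.Lib.MP_4952d6_mp.LA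

end

/-! ### LA.F1 -/

section

/-!
# JOB LA-F1: powers of the number of particles

`nTh θ₁ y x = ∑ᵢ θ₁(x i - y)²`; `nP` is the derivative of `nTh ^ q`.
* `nTh_pow_WDN`: `WD.comp`, `WD.of_invariant`, `WD.add`/`finset_sum`, `WD.mul` and induction on `q` (or a chain rule), `WD.congr`.
* `nP_sq`: `∑_{iα} (q n^(q-1) 2 θ₁ θ₁')² ≤ 4 q² n^(2q-2) ∑ᵢ θ₁² (3/l²)` (`Loc2.grad`, `θ₁'² ≤ θ₁'² + θ₂'²`) `= 12 q²/l² n^(2q-1)`; for `q = 0` both sides are `0`.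
* `Dth_le`: `Loc2.grad`, `Loc2.gzero`.
-/

set_option autoImplicit false
set_option linter.unusedSectionVars false
set_option linter.unusedVariables false
open MeasureTheory Function Filter Topology Set ComplexConjugate
open scoped ENNReal

namespace Pool.Agent.Lib.MP_4952d6_mp.LA

variable {ι : Type*} [Fintype ι] [DecidableEq ι]

/-- derivative of `nTh ^ q` -/
noncomputable def nP (θ₁ : T3 → ℝ) (θ₁' : Fin 3 → T3 → ℝ) (y : T3) (q : ℕ) (i : ι) (α : Fin 3)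
    (x : ι → T3) : ℝ := (q : ℝ) * nTh θ₁ y x ^ (q - 1) * (2 * θ₁ (x i - y) * θ₁' α (x i - y))

/-- number of particles in the ball of radius `2 l` -/
noncomputable def nB (l : ℝ) (y : T3) (x : ι → T3) : ℝ :=
  ∑ i, ({z : T3 | rr z ≤ 2 * l}.indicator (fun _ => (1 : ℝ)) (x i - y))

lemma F1_mp (y : T3) (j : ι) : MeasurePreserving (fun x : ι → T3 => x j - y) (piN ι) lam3 := by
  have h1 : MeasurePreserving (fun x : ι → T3 => x j) (piN ι) lam3 :=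
    measurePreserving_eval (fun _ : ι => lam3) j
  have h2 : MeasurePreserving (fun z : T3 => z - y) lam3 lam3 := measurePreserving_sub_right lam3 y
  exact h2.comp h1

lemma F1_eq (y : T3) (j : ι) (α : Fin 3) (x : ι → T3) (t : ℝ) :
    (x + tauN j α t) j - y = (x j - y) + tau α t := by
  simp only [Pi.add_apply, tauN, Pi.single_eq_same]
  abel

lemma F1_ne {j i : ι} (hji : j ≠ i) (α : Fin 3) (x : ι → T3) (t : ℝ) :
    (x + tauN i α t) j = x j := by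
  simp only [Pi.add_apply, tauN, Pi.single_eq_of_ne hji, add_zero]

lemma F1_nTh_WDN {l : ℝ} {θ₁ θ₂ : T3 → ℝ} {θ₁' θ₂' : Fin 3 → T3 → ℝ} (hL : Loc2 l θ₁ θ₂ θ₁' θ₂')
    (y : T3) (i : ι) (α : Fin 3) : WD (piN ι) (tauN i α) (fun x : ι → T3 => nTh θ₁ y x)
      (fun x => 2 * θ₁ (x i - y) * θ₁' α (x i - y)) := by
  have h0 : tauN i α 0 = 0 := tauN_zero i α
  have h1 : ∀ j ∈ (Finset.univ : Finset ι), WD (piN ι) (tauN i α)
      (fun x : ι → T3 => θ₁ (x j - y) ^ 2)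
      (fun x => if j = i then 2 * θ₁ (x i - y) * θ₁' α (x i - y) else 0) := by
    intro j _
    by_cases hji : j = i
    · subst hji
      have h2 := (hL.wd1 α).comp h0 (F1_mp y j) (F1_eq y j α)
      have h3 := h2.mul h2
      have e1 : (fun x : ι → T3 => θ₁ (x j - y) ^ 2) = fun x => θ₁ (x j - y) * θ₁ (x j - y) := by
        funext x; ring
      rw [e1]
      refine h3.congr (Eventually.of_forall fun x => ?_)
      simp only [if_true]
      ring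
    · simp only [if_neg hji]
      have hm : Measurable (fun x : ι → T3 => θ₁ (x j - y) ^ 2) :=
        ((hL.wd1 α).sm.measurable.comp (F1_mp y j).measurable).pow_const 2
      refine WD.of_invariant h0 hm.stronglyMeasurable ?_ ?_
      · refine ⟨1, fun x => ?_⟩
        rw [Real.norm_eq_abs, abs_of_nonneg (sq_nonneg _)]
        have := hL.sum (x j - y)
        nlinarith [sq_nonneg (θ₂ (x j - y))]
      · intro x t
        rw [F1_ne hji]
  have h4 := WD.finset_sum Finset.univ h0 h1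
  refine h4.congr (Eventually.of_forall fun x => ?_)
  rw [Finset.sum_ite_eq' Finset.univ i]
  simp

theorem nTh_pow_WDN {l : ℝ} {θ₁ θ₂ : T3 → ℝ} {θ₁' θ₂' : Fin 3 → T3 → ℝ} (hL : Loc2 l θ₁ θ₂ θ₁' θ₂')
    (y : T3) (q : ℕ) : WDN (fun x : ι → T3 => nTh θ₁ y x ^ q) (nP θ₁ θ₁' y q) := by
  intro i α
  have h1 := F1_nTh_WDN hL y i α
  induction q with
  | zero =>
    have h2 : WD (piN ι) (tauN i α) (fun _ : ι → T3 => (1 : ℝ)) (fun _ => 0) :=
      WD.of_invariant (tauN_zero i α) stronglyMeasurable_const ⟨1, fun _ => by simp⟩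
        fun _ _ => rfl
    simp only [pow_zero]
    refine h2.congr (Eventually.of_forall fun x => ?_)
    simp [nP]
  | succ q ih =>
    have h2 := ih.mul h1
    simp only [pow_succ]
    refine h2.congr (Eventually.of_forall fun x => ?_)
    unfold nP
    rcases Nat.eq_zero_or_pos q with hq | hq
    · subst hq
      simp
    · obtain ⟨m, rfl⟩ : ∃ m, q = m + 1 := ⟨q - 1, by omega⟩
      simp only [Nat.add_sub_cancel]
      push_cast
      ring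

lemma F1_theta {l : ℝ} {θ₁ θ₂ : T3 → ℝ} {θ₁' θ₂' : Fin 3 → T3 → ℝ} (hL : Loc2 l θ₁ θ₂ θ₁' θ₂')
    (z : T3) : θ₁ z ^ 2 ≤ 1 := by
  have := hL.sum z
  nlinarith [sq_nonneg (θ₂ z)]

lemma F1_nonneg (θ₁ : T3 → ℝ) (y : T3) (x : ι → T3) : 0 ≤ nTh θ₁ y x :=
  Finset.sum_nonneg fun i _ => sq_nonneg _

theorem nP_sq {l : ℝ} (hl : 0 < l) {θ₁ θ₂ : T3 → ℝ} {θ₁' θ₂' : Fin 3 → T3 → ℝ}
    (hL : Loc2 l θ₁ θ₂ θ₁' θ₂') (y : T3) (q : ℕ) (x : ι → T3) :
    ∑ i, ∑ α, nP θ₁ θ₁' y q i α x ^ 2 ≤ 12 * (q : ℝ) ^ 2 / l ^ 2 * nTh θ₁ y x ^ (2 * q - 1) := by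
  rcases Nat.eq_zero_or_pos q with hq | hq
  · subst hq
    simp [nP]
  · obtain ⟨m, rfl⟩ : ∃ m, q = m + 1 := ⟨q - 1, by omega⟩
    have hn := F1_nonneg θ₁ y x
    have h1 : ∀ i : ι, ∑ α, nP θ₁ θ₁' y (m + 1) i α x ^ 2 ≤
        (((m + 1 : ℕ) : ℝ) * nTh θ₁ y x ^ m) ^ 2 * (4 * (3 / l ^ 2)) * θ₁ (x i - y) ^ 2 := by
      intro i
      have h2 : ∑ α, nP θ₁ θ₁' y (m + 1) i α x ^ 2 =
          (((m + 1 : ℕ) : ℝ) * nTh θ₁ y x ^ m) ^ 2 * 4 * θ₁ (x i - y) ^ 2 *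
            ∑ α, θ₁' α (x i - y) ^ 2 := by
        rw [Finset.mul_sum]
        refine Finset.sum_congr rfl fun α _ => ?_
        unfold nP
        rw [Nat.add_sub_cancel]
        ring
      have h3 : ∑ α, θ₁' α (x i - y) ^ 2 ≤ 3 / l ^ 2 := by
        refine le_trans (Finset.sum_le_sum fun α _ => ?_) (hL.grad (x i - y))
        nlinarith [sq_nonneg (θ₂' α (x i - y))]
      rw [h2]
      calc _ ≤ (((m + 1 : ℕ) : ℝ) * nTh θ₁ y x ^ m) ^ 2 * 4 * θ₁ (x i - y) ^ 2 * (3 / l ^ 2) :=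
            mul_le_mul_of_nonneg_left h3 (by positivity)
        _ = _ := by ring
    refine (Finset.sum_le_sum fun i _ => h1 i).trans (le_of_eq ?_)
    rw [← Finset.mul_sum]
    have h4 : ∑ i, θ₁ (x i - y) ^ 2 = nTh θ₁ y x := rfl
    have h5 : 2 * (m + 1) - 1 = m + m + 1 := by omega
    rw [h4, h5]
    push_cast
    ring

theorem Dth_le {l : ℝ} (hl : 0 < l) {θ₁ θ₂ : T3 → ℝ} {θ₁' θ₂' : Fin 3 → T3 → ℝ}
    (hL : Loc2 l θ₁ θ₂ θ₁' θ₂') (y : T3) (x : ι → T3) :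
    Dth θ₁' θ₂' y x ≤ 3 / l ^ 2 * nB l y x := by
  unfold Dth nB
  rw [Finset.mul_sum]
  refine Finset.sum_le_sum fun i _ => ?_
  by_cases h : rr (x i - y) ≤ 2 * l
  · rw [Set.indicator_of_mem (by exact h), mul_one]
    exact hL.grad (x i - y)
  · rw [Set.indicator_of_notMem (by exact h), mul_zero]
    exact (hL.gzero (x i - y) (not_le.mp h)).le

/-- bounds and measurability -/
theorem nTh_bm {l : ℝ} {θ₁ θ₂ : T3 → ℝ} {θ₁' θ₂' : Fin 3 → T3 → ℝ} (hL : Loc2 l θ₁ θ₂ θ₁' θ₂') :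
    BM (fun p : T3 × (ι → T3) => nTh θ₁ p.1 p.2) ∧ (∀ y (x : ι → T3), 0 ≤ nTh θ₁ y x) ∧
      (∀ y (x : ι → T3), nTh θ₁ y x ≤ Fintype.card ι) ∧
      BM (fun p : T3 × (ι → T3) => nB l p.1 p.2) := by
  have hmap : ∀ i : ι, Measurable (fun p : T3 × (ι → T3) => p.2 i - p.1) := fun i =>
    ((measurable_pi_apply i).comp measurable_snd).sub measurable_fst
  refine ⟨?_, fun y x => F1_nonneg θ₁ y x, ?_, ?_⟩
  · have h1 : BM (fun z : T3 => θ₁ z ^ 2) := by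
      refine ⟨(hL.wd1 0).sm.measurable.pow_const 2, 1, fun z => ?_⟩
      rw [abs_of_nonneg (sq_nonneg _)]
      exact F1_theta hL z
    exact BM.finset_sum Finset.univ fun i _ => h1.comp (hmap i)
  · intro y x
    unfold nTh
    refine (Finset.sum_le_sum fun i _ => F1_theta hL (x i - y)).trans (le_of_eq ?_)
    simp
  · have h1 : BM (fun z : T3 => {z : T3 | rr z ≤ 2 * l}.indicator (fun _ => (1 : ℝ)) z) := by
      refine ⟨measurable_const.indicator (rr_measurable measurableSet_Iic), 1, fun z => ?_⟩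
      by_cases h : z ∈ {z : T3 | rr z ≤ 2 * l}
      · rw [Set.indicator_of_mem h]; simp
      · rw [Set.indicator_of_notMem h]; simp
    exact BM.finset_sum Finset.univ fun i _ => h1.comp (hmap i)

end Pool.Agent.Lib.MP_4952d6_mp.LA

end

/-! ### LA.F2 -/

section

/-!
# JOB LA-F2: covering

* `ball_vol`: `integral_rad` with `φ = indicator of r ≤ ρ`.
* `cover`: for `rr u ≤ 2 l` and `rr z' ≤ l` the point `z = u - z'` has `rr z ≤ 3 l` (triangle inequality for `rr`: `rr` is the norm of `vv`, `‖(x+y) α‖ ≤ ‖x α‖ + ‖y α‖`) and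
  `θ₁ (u - z) = 1`; so `vol(B_l) 1_{rr u ≤ 2l} ≤ ∫_{rr z ≤ 3l} θ₁(u - z)² dz` (substitute `z ↦ u - z`).  With `u = x i - y`, sum over `i`:
  `vol(B_l) nB l y x ≤ ∫_{rr z ≤ 3l} nTh θ₁ (y + z) x dz`.  Multiply with `nTh θ₁ y x ^ p`, integrate over `y`, use `a b^p ≤ a^(p+1) + b^(p+1)` (`a, b ≥ 0`), Fubini and translation
  invariance: `≤ vol(B_{3l}) · 2 ∫ nTh^(p+1) dy`; `vol(B_{3l}) = 27 vol(B_l)`.
-/

set_option autoImplicit false
set_option linter.unusedSectionVars false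
set_option linter.unusedVariables false
open MeasureTheory Function Filter Topology Set ComplexConjugate
open scoped ENNReal

namespace Pool.Agent.Lib.MP_4952d6_mp.LA

variable {ι : Type*} [Fintype ι] [DecidableEq ι]

theorem ball_vol {ρ : ℝ} (h0 : 0 < ρ) (h : ρ < 1 / 2) :
    ∫ z, {z : T3 | rr z ≤ ρ}.indicator (fun _ => (1 : ℝ)) z ∂lam3 = sig / 3 * ρ ^ 3 := by
  have h1 := integral_rad (φ := (Iic ρ).indicator (fun _ => (1:ℝ))) (fun r hr => by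
    rw [indicator_of_notMem]
    simp only [mem_Iic, not_le]
    linarith)
  have h2 : ∀ z : T3, {z : T3 | rr z ≤ ρ}.indicator (fun _ => (1 : ℝ)) z
      = (Iic ρ).indicator (fun _ => (1:ℝ)) (rr z) := fun z => rfl
  have h3 : ∫ r in Ioi (0:ℝ), r ^ 2 * (Iic ρ).indicator (fun _ => (1:ℝ)) r = ρ ^ 3 / 3 := by
    have h4 : ∀ r : ℝ, r ^ 2 * (Iic ρ).indicator (fun _ => (1:ℝ)) r
        = (Iic ρ).indicator (fun r => r ^ 2) r := by
      intro r
      by_cases hr : r ∈ Iic ρ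
      · rw [indicator_of_mem hr, indicator_of_mem hr, mul_one]
      · rw [indicator_of_notMem hr, indicator_of_notMem hr, mul_zero]
    simp only [h4]
    rw [setIntegral_indicator measurableSet_Iic, Ioi_inter_Iic, ← intervalIntegral.integral_of_le h0.le,
      integral_pow]
    norm_num
  simp only [h2]
  rw [h1, h3]
  ring

theorem rr_add_le (x y : T3) : rr (x + y) ≤ rr x + rr y := by
  have h1 : rr (x + y) ≤ ‖vv x + vv y‖ := by
    unfold rr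
    rw [EuclideanSpace.norm_eq, EuclideanSpace.norm_eq]
    refine Real.sqrt_le_sqrt (Finset.sum_le_sum fun α _ => ?_)
    refine pow_le_pow_left₀ (norm_nonneg _) ?_ 2
    have e1 : (vv (x + y)) α = ‖x α + y α‖ := rfl
    have e2 : (vv x + vv y) α = ‖x α‖ + ‖y α‖ := rfl
    rw [e1, e2, norm_norm, Real.norm_eq_abs, abs_of_nonneg (by positivity)]
    exact norm_add_le _ _
  exact h1.trans (norm_add_le _ _)

theorem F2_ball_bm (ρ : ℝ) : BM (fun z : T3 => {z : T3 | rr z ≤ ρ}.indicator (fun _ => (1 : ℝ)) z) := by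
  refine BM.of_mem_Icc (a := 0) (b := 1) ?_ fun z => ?_
  · exact measurable_const.indicator (measurableSet_le rr_measurable measurable_const)
  · by_cases hz : z ∈ {z : T3 | rr z ≤ ρ}
    · rw [indicator_of_mem hz]
      exact ⟨zero_le_one, le_rfl⟩
    · rw [indicator_of_notMem hz]
      exact ⟨le_rfl, zero_le_one⟩

theorem F2_ball_nonneg (ρ : ℝ) (z : T3) : 0 ≤ {z : T3 | rr z ≤ ρ}.indicator (fun _ => (1 : ℝ)) z :=
  indicator_nonneg (fun _ _ => zero_le_one) z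

/-- one point -/
theorem F2_point {l : ℝ} (hl : 0 < l) (hl8 : l ≤ 1 / 8) {θ : T3 → ℝ} (hθ : BM θ)
    (hone : ∀ x, rr x ≤ l → θ x = 1) (u : T3) :
    sig / 3 * l ^ 3 * {z : T3 | rr z ≤ 2 * l}.indicator (fun _ => (1 : ℝ)) u
      ≤ ∫ z, {z : T3 | rr z ≤ 3 * l}.indicator (fun _ => (1 : ℝ)) z * θ (u - z) ^ 2 ∂lam3 := by
  by_cases hu : u ∈ {z : T3 | rr z ≤ 2 * l}
  · rw [indicator_of_mem hu, mul_one, ← ball_vol hl (by linarith)]
    have hu2 : rr u ≤ 2 * l := hu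
    have e : ∫ z, {z : T3 | rr z ≤ 3 * l}.indicator (fun _ => (1 : ℝ)) z * θ (u - z) ^ 2 ∂lam3
        = ∫ z, {z : T3 | rr z ≤ 3 * l}.indicator (fun _ => (1 : ℝ)) (u - z) * θ z ^ 2 ∂lam3 := by
      rw [← integral_sub_left_eq_self (fun z => {z : T3 | rr z ≤ 3 * l}.indicator
        (fun _ => (1 : ℝ)) z * θ (u - z) ^ 2) lam3 u]
      simp only [sub_sub_cancel]
    rw [e]
    have hm : Measurable fun z : T3 => u - z := (continuous_const.sub continuous_id).measurable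
    refine integral_mono ((F2_ball_bm l).integrable _)
      ((((F2_ball_bm (3 * l)).comp hm).mul (hθ.pow 2)).integrable _) fun z => ?_
    simp only
    by_cases hz : z ∈ {z : T3 | rr z ≤ l}
    · have hz2 : rr z ≤ l := hz
      have h3 : u - z ∈ {z : T3 | rr z ≤ 3 * l} := by
        have h4 := rr_add_le u (-z)
        rw [rr_neg, ← sub_eq_add_neg] at h4
        have h5 : rr (u - z) ≤ 3 * l := by linarith
        exact h5
      rw [indicator_of_mem hz, indicator_of_mem h3, hone z hz2]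
      norm_num
    · rw [indicator_of_notMem hz]
      exact mul_nonneg (F2_ball_nonneg _ _) (sq_nonneg _)
  · rw [indicator_of_notMem hu, mul_zero]
    exact integral_nonneg fun z => mul_nonneg (F2_ball_nonneg _ _) (sq_nonneg _)

/-- indicator of the ball of radius `ρ` -/
noncomputable def F2_chi (ρ : ℝ) (z : T3) : ℝ := {z : T3 | rr z ≤ ρ}.indicator (fun _ => (1 : ℝ)) z

theorem F2_chi_bm (ρ : ℝ) : BM (F2_chi ρ) := F2_ball_bm ρ

theorem F2_chi_nonneg (ρ : ℝ) (z : T3) : 0 ≤ F2_chi ρ z := F2_ball_nonneg ρ z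

theorem F2_chi_int {ρ : ℝ} (h0 : 0 < ρ) (h : ρ < 1 / 2) :
    ∫ z, F2_chi ρ z ∂lam3 = sig / 3 * ρ ^ 3 := ball_vol h0 h

theorem F2_slice {κ : Type*} [MeasurableSpace κ] {f : T3 → κ → ℝ}
    (h : BM (fun p : T3 × κ => f p.1 p.2)) (x : κ) : BM (fun y : T3 => f y x) := by
  have mx : Measurable fun y : T3 => (y, x) := measurable_id.prodMk measurable_const
  exact ⟨h.meas.comp mx, h.bdd.imp fun C hC y => hC (y, x)⟩

theorem F2_young {a b : ℝ} (ha : 0 ≤ a) (hb : 0 ≤ b) (p : ℕ) :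
    a * b ^ p ≤ a ^ (p + 1) + b ^ (p + 1) := by
  rcases le_total a b with h | h
  · calc a * b ^ p ≤ b * b ^ p := mul_le_mul_of_nonneg_right h (pow_nonneg hb p)
      _ = b ^ (p + 1) := by ring
      _ ≤ a ^ (p + 1) + b ^ (p + 1) := le_add_of_nonneg_left (pow_nonneg ha _)
  · calc a * b ^ p ≤ a * a ^ p :=
        mul_le_mul_of_nonneg_left (pow_le_pow_left₀ hb h p) ha
      _ = a ^ (p + 1) := by ring
      _ ≤ a ^ (p + 1) + b ^ (p + 1) := le_add_of_nonneg_right (pow_nonneg hb _)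

theorem cover {l : ℝ} (hl : 0 < l) (hl8 : l ≤ 1 / 8) {θ₁ θ₂ : T3 → ℝ} {θ₁' θ₂' : Fin 3 → T3 → ℝ}
    (hL : Loc2 l θ₁ θ₂ θ₁' θ₂') (p : ℕ) (x : ι → T3) :
    ∫ y, nB l y x * nTh θ₁ y x ^ p ∂lam3 ≤ 54 * ∫ y, nTh θ₁ y x ^ (p + 1) ∂lam3 := by
  obtain ⟨b1, h0, h1, b2⟩ := nTh_bm (ι := ι) hL
  have mx : Measurable fun y : T3 => (y, x) := measurable_id.prodMk measurable_const
  have bN : BM (fun y : T3 => nTh θ₁ y x) := b1.comp mx
  have bB : BM (fun y : T3 => nB l y x) := F2_slice b2 x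
  have hN0 : ∀ y, 0 ≤ nTh θ₁ y x := fun y => h0 y x
  have bθ : BM θ₁ := ⟨(hL.wd1 0).sm.measurable, (hL.wd1 0).bdd⟩
  set V := sig / 3 * l ^ 3 with hV
  have hV0 : 0 < V := by
    have := sig_pos
    positivity
  obtain ⟨χ, hχ⟩ : ∃ χ : T3 → ℝ, χ = F2_chi (3 * l) := ⟨_, rfl⟩
  have bχ : BM χ := hχ ▸ F2_chi_bm (3 * l)
  have hχ0 : ∀ z, 0 ≤ χ z := hχ ▸ F2_chi_nonneg (3 * l)
  have iχ : ∫ z, χ z ∂lam3 = 27 * V := by
    rw [hχ, F2_chi_int (by linarith) (by linarith), hV]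
    ring
  have hpt : ∀ u : T3, V * {z : T3 | rr z ≤ 2 * l}.indicator (fun _ => (1 : ℝ)) u
      ≤ ∫ z, χ z * θ₁ (u - z) ^ 2 ∂lam3 := by
    intro u
    rw [hχ, hV]
    exact F2_point hl hl8 bθ hL.one u
  have hadd : Measurable fun q : T3 × T3 => q.1 + q.2 := (continuous_fst.add continuous_snd).measurable
  -- pointwise in `y`
  have key : ∀ y, V * nB l y x ≤ ∫ z, χ z * nTh θ₁ (y + z) x ∂lam3 := by
    intro y
    have e1 : V * nB l y x = ∑ i, V * {z : T3 | rr z ≤ 2 * l}.indicator (fun _ => (1 : ℝ)) (x i - y) := by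
      unfold nB
      rw [Finset.mul_sum]
    have e2 : ∫ z, χ z * nTh θ₁ (y + z) x ∂lam3
        = ∑ i, ∫ z, χ z * θ₁ ((x i - y) - z) ^ 2 ∂lam3 := by
      rw [← integral_finsetSum]
      · refine integral_congr_ae (Eventually.of_forall fun z => ?_)
        simp only [nTh, Finset.mul_sum, sub_sub]
      · intro i _
        have hm : Measurable fun z : T3 => x i - y - z := (continuous_const.sub continuous_id).measurable
        exact (bχ.mul ((bθ.comp hm).pow 2)).integrable _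
    rw [e1, e2]
    exact Finset.sum_le_sum fun i _ => hpt (x i - y)
  -- the double integral
  have bQ : BM (uncurry fun y z : T3 => χ z * nTh θ₁ (y + z) x) :=
    (bχ.comp measurable_snd).mul (bN.comp hadd)
  have bG : BM (uncurry fun y z : T3 => χ z * nTh θ₁ (y + z) x ^ (p + 1)) :=
    (bχ.comp measurable_snd).mul ((bN.comp hadd).pow (p + 1))
  have bQ1 : BM (fun y : T3 => ∫ z, χ z * nTh θ₁ (y + z) x ∂lam3) := BM.integral_right bQ lam3
  have bG1 : BM (fun y : T3 => ∫ z, χ z * nTh θ₁ (y + z) x ^ (p + 1) ∂lam3) :=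
    BM.integral_right bG lam3
  have iG : ∫ y, ∫ z, χ z * nTh θ₁ (y + z) x ^ (p + 1) ∂lam3 ∂lam3
      = 27 * V * ∫ y, nTh θ₁ y x ^ (p + 1) ∂lam3 := by
    rw [integral_integral_swap (bG.integrable _)]
    have e3 : ∀ z : T3, ∫ y, χ z * nTh θ₁ (y + z) x ^ (p + 1) ∂lam3
        = χ z * ∫ y, nTh θ₁ y x ^ (p + 1) ∂lam3 := by
      intro z
      rw [integral_const_mul, integral_add_right_eq_self (fun y => nTh θ₁ y x ^ (p + 1)) z]
    simp only [e3]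
    rw [integral_mul_const, iχ]
  have h3 : V * ∫ y, nB l y x * nTh θ₁ y x ^ p ∂lam3
      ≤ ∫ y, ((∫ z, χ z * nTh θ₁ (y + z) x ^ (p + 1) ∂lam3) + 27 * V * nTh θ₁ y x ^ (p + 1)) ∂lam3 := by
    rw [← integral_const_mul]
    refine integral_mono (((bB.mul (bN.pow p)).const_mul V).integrable _)
      ((bG1.add ((bN.pow (p + 1)).const_mul (27 * V))).integrable _) fun y => ?_
    simp only
    have h4 : V * (nB l y x * nTh θ₁ y x ^ p)
        ≤ (∫ z, χ z * nTh θ₁ (y + z) x ∂lam3) * nTh θ₁ y x ^ p := by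
      rw [← mul_assoc]
      exact mul_le_mul_of_nonneg_right (key y) (pow_nonneg (hN0 y) p)
    refine h4.trans ?_
    rw [← integral_mul_const, ← iχ, ← integral_mul_const, ← integral_add]
    · have my : Measurable fun z : T3 => y + z := (continuous_const.add continuous_id).measurable
      refine integral_mono (((bχ.mul (bN.comp my)).mul (BM.const _)).integrable _)
        (((bχ.mul ((bN.comp my).pow (p + 1))).add (bχ.mul (BM.const _))).integrable _) fun z => ?_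
      simp only
      have h5 := F2_young (hN0 (y + z)) (hN0 y) p
      have h6 := mul_le_mul_of_nonneg_left h5 (hχ0 z)
      linarith
    · have my : Measurable fun z : T3 => y + z := (continuous_const.add continuous_id).measurable
      exact (bχ.mul ((bN.comp my).pow (p + 1))).integrable _
    · exact (bχ.mul (BM.const _)).integrable _
  rw [integral_add (bG1.integrable _) (((bN.pow (p + 1)).const_mul (27 * V)).integrable _), iG,
    integral_const_mul] at h3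
  have h7 : V * ∫ y, nB l y x * nTh θ₁ y x ^ p ∂lam3
      ≤ V * (54 * ∫ y, nTh θ₁ y x ^ (p + 1) ∂lam3) := by linarith
  exact le_of_mul_le_mul_left h7 hV0

end Pool.Agent.Lib.MP_4952d6_mp.LA

end

/-! ### LA.F3 -/

section

/-!
# JOB LA-F3: recursion for the moments

Fix `y`; `loc_energy` for `Φ = mG (nTh^q) ψ` (`FE.mul`, `nTh_pow_WDN`) and the cells `tbox (cellc (crd y - 2 l) (4 l) m c) (4 l / m)` (`tbox_meas`, `cells_disj`, `cells_cover`, `mem_tbox`,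
`card (Fin 3 → Fin m) = m³`), and `min_F` for `F = nTh^q` (`e ∫ F² ‖ψ‖²` cancels):
`∫ ((κ-μ) n - κ m³ - Dth) n^(2q) ‖ψ‖² ≤ ∫ ∑ nP² ‖ψ‖² ≤ 12 q²/l² ∫ n^(2q-1) ‖ψ‖²` (`nP_sq`).  Multiply by `l²`, integrate over `y`, `Dth_le`, `cover` (Fubini). `3 · 54 = 162`.
-/

set_option autoImplicit false
set_option linter.unusedSectionVars false
set_option linter.unusedVariables false
open MeasureTheory Function Filter Topology Set ComplexConjugate
open scoped ENNReal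

namespace Pool.Agent.Lib.MP_4952d6_mp.LA

variable {ι : Type*} [Fintype ι] [DecidableEq ι]

theorem F3_int {ψ : (ι → T3) → ℂ} (hψ : MemLp ψ 2 (piN ι)) {H : T3 × (ι → T3) → ℝ}
    (hH : BM H) : Integrable (fun p => H p * ‖ψ p.2‖ ^ 2) (lam3.prod (piN ι)) := by
  obtain ⟨C, hC0, hC⟩ := hH.exists_nonneg_bound
  have h1 : Integrable (fun p : T3 × (ι → T3) => ‖ψ p.2‖ ^ 2) (lam3.prod (piN ι)) :=
    (int_sq hψ).comp_snd lam3
  exact h1.bdd_mul hH.1.aestronglyMeasurable (c := C) (Eventually.of_forall fun x => hC x)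

theorem F3_x {ψ : (ι → T3) → ℂ} (hψ : MemLp ψ 2 (piN ι)) {H : (ι → T3) → ℝ}
    (hH : BM H) : Integrable (fun x => H x * ‖ψ x‖ ^ 2) (piN ι) := by
  obtain ⟨C, hC0, hC⟩ := hH.exists_nonneg_bound
  exact (int_sq hψ).bdd_mul hH.1.aestronglyMeasurable (c := C) (Eventually.of_forall fun x => hC x)

theorem F3_slice {H : T3 × (ι → T3) → ℝ} (hH : BM H) (y : T3) : BM (fun x => H (y, x)) :=
  hH.comp (measurable_const.prodMk measurable_id)

theorem F3_avg {H : T3 × (ι → T3) → ℝ} (hH : BM H) : BM (fun x => ∫ y, H (y, x) ∂lam3) :=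
  BM.integral_right (f := fun x y => H (y, x)) (hH.comp measurable_swap) lam3

theorem F3_y {ψ : (ι → T3) → ℂ} (hψ : MemLp ψ 2 (piN ι)) {H : T3 × (ι → T3) → ℝ}
    (hH : BM H) : Integrable (fun y => ∫ x, H (y, x) * ‖ψ x‖ ^ 2 ∂(piN ι)) lam3 :=
  (F3_int hψ hH).integral_prod_left

theorem F3_swap {ψ : (ι → T3) → ℂ} (hψ : MemLp ψ 2 (piN ι)) {H : T3 × (ι → T3) → ℝ}
    (hH : BM H) : ∫ y, ∫ x, H (y, x) * ‖ψ x‖ ^ 2 ∂(piN ι) ∂lam3
      = ∫ x, (∫ y, H (y, x) ∂lam3) * ‖ψ x‖ ^ 2 ∂(piN ι) := by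
  have h := integral_integral_swap (f := fun y x => H (y, x) * ‖ψ x‖ ^ 2) (F3_int hψ hH)
  rw [h]
  refine integral_congr_ae (Eventually.of_forall fun x => ?_)
  dsimp only
  rw [integral_mul_const]

theorem F3_norm (G : (ι → T3) → ℝ) (ψ : (ι → T3) → ℂ) (x : ι → T3) :
    ‖mG G ψ x‖ ^ 2 = G x ^ 2 * ‖ψ x‖ ^ 2 := by
  unfold mG
  rw [norm_mul, Complex.norm_real, Real.norm_eq_abs, mul_pow, sq_abs]

/-- the inequality for one `y` -/
theorem F3_one {R₀ l μ e κ : ℝ} {𝒱 : T3 → ℝ≥0∞} {ψ : (ι → T3) → ℂ}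
    {g : ι → Fin 3 → (ι → T3) → ℂ} (hM : Mini R₀ 𝒱 μ e ψ g) (hl : 0 < l) (hl8 : l ≤ 1 / 8)
    {θ₁ θ₂ : T3 → ℝ} {θ₁' θ₂' : Fin 3 → T3 → ℝ} (hL : Loc2 l θ₁ θ₂ θ₁' θ₂') {v : T3 → ℝ≥0∞}
    (hvm : Measurable v) (hle : ∀ᵐ z ∂lam3, R₀ ≤ rr z → v z ≤ 𝒱 z) {m : ℕ} (hm : 0 < m)
    (hκ : 0 ≤ κ) (hbox : ∀ b : Fin 3 → ℝ, BoxIneq (ENNReal.ofReal κ) v (tbox b (4 * l / m)))
    (q : ℕ) (y : T3) :
    (κ - μ) * (∫ x, nTh θ₁ y x ^ (2 * q + 1) * ‖ψ x‖ ^ 2 ∂(piN ι))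
      - κ * (m : ℝ) ^ 3 * (∫ x, nTh θ₁ y x ^ (2 * q) * ‖ψ x‖ ^ 2 ∂(piN ι))
      - 3 / l ^ 2 * (∫ x, (nB l y x * nTh θ₁ y x ^ (2 * q)) * ‖ψ x‖ ^ 2 ∂(piN ι))
      ≤ 12 * (q : ℝ) ^ 2 / l ^ 2 * ∫ x, nTh θ₁ y x ^ (2 * q - 1) * ‖ψ x‖ ^ 2 ∂(piN ι) := by
  have hψ := hM.fe.hg.mem
  obtain ⟨hn, hn0, hn1, hB⟩ := nTh_bm (ι := ι) hL
  have hny : BM (fun x : ι → T3 => nTh θ₁ y x) := F3_slice hn y
  have hBy : BM (fun x : ι → T3 => nB l y x) := F3_slice hB y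
  have hw := nTh_pow_WDN (ι := ι) hL y q
  have hFE := hM.fe.mul hw
  have h4l : (0 : ℝ) < 4 * l := by linarith
  have hm1 : (1 : ℝ) ≤ m := by exact_mod_cast hm
  have hmr : 4 * l / m ≤ 1 := by
    rw [div_le_one (by linarith)]
    linarith
  have hloc := loc_energy (C := Fin 3 → Fin m) hM.hv hM.hev hL y hFE hM.chem hvm hle
    (q := fun c => tbox (cellc (fun α => crd y α - 4 * l / 2) (4 * l) m c) (4 * l / m))
    (fun c => tbox_meas _ hmr)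
    (fun c c' hcc => cells_disj _ h4l (by linarith) hm hcc) hκ
    (fun c => hbox _)
    (fun x hx => cells_cover _ h4l hm (mem_tbox (by linarith)))
  have hcard : (Fintype.card (Fin 3 → Fin m) : ℝ) = (m : ℝ) ^ 3 := by
    rw [Fintype.card_fun, Fintype.card_fin, Fintype.card_fin]
    push_cast
    rfl
  rw [hcard] at hloc
  have hmin := min_F hM.hv hM.fe hw hM.e0 hM.hmin (by rw [hM.nrm, mul_one]; exact hM.heq)
  rw [hmin] at hloc
  -- bounded measurable functions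
  have hDm : BM (fun x : ι → T3 => Dth θ₁' θ₂' y x) := by
    have hms : ∀ i : ι, Measurable (fun x : ι → T3 => x i - y) := fun i =>
      measurable_sub' (measurable_pi_apply i) measurable_const
    refine ⟨?_, 3 / l ^ 2 * Fintype.card ι, fun x => ?_⟩
    · unfold Dth
      exact Finset.measurable_sum _ fun i _ => Finset.measurable_sum _ fun α _ =>
        (((hL.meas1 α).comp (hms i)).pow_const 2).add (((hL.meas2 α).comp (hms i)).pow_const 2)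
    · have h0 : 0 ≤ Dth θ₁' θ₂' y x := Finset.sum_nonneg fun i _ =>
        Finset.sum_nonneg fun α _ => add_nonneg (sq_nonneg _) (sq_nonneg _)
      rw [abs_of_nonneg h0]
      unfold Dth
      refine (Finset.sum_le_sum fun i _ => hL.grad (x i - y)).trans (le_of_eq ?_)
      rw [Finset.sum_const, Finset.card_univ, nsmul_eq_mul, mul_comm]
  have hpow : ∀ k : ℕ, BM (fun x : ι → T3 => nTh θ₁ y x ^ k) := fun k => hny.pow k
  -- the left side
  have e1 : ∫ x, ((κ - μ) * nTh θ₁ y x - κ * (m : ℝ) ^ 3 + e - Dth θ₁' θ₂' y x)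
        * ‖mG (fun x => nTh θ₁ y x ^ q) ψ x‖ ^ 2 ∂(piN ι)
      = (κ - μ) * (∫ x, nTh θ₁ y x ^ (2 * q + 1) * ‖ψ x‖ ^ 2 ∂(piN ι))
        - κ * (m : ℝ) ^ 3 * (∫ x, nTh θ₁ y x ^ (2 * q) * ‖ψ x‖ ^ 2 ∂(piN ι))
        + e * (∫ x, (nTh θ₁ y x ^ q) ^ 2 * ‖ψ x‖ ^ 2 ∂(piN ι))
        - ∫ x, (Dth θ₁' θ₂' y x * nTh θ₁ y x ^ (2 * q)) * ‖ψ x‖ ^ 2 ∂(piN ι) := by
    have i1 := (F3_x hψ (hpow (2 * q + 1))).const_mul (κ - μ)
    have i2 := (F3_x hψ (hpow (2 * q))).const_mul (κ * (m : ℝ) ^ 3)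
    have i3 := (F3_x hψ ((hpow q).pow 2)).const_mul e
    have i4 := F3_x hψ (hDm.mul (hpow (2 * q)))
    have i12 : Integrable (fun x => (κ - μ) * (nTh θ₁ y x ^ (2 * q + 1) * ‖ψ x‖ ^ 2)
        - κ * (m : ℝ) ^ 3 * (nTh θ₁ y x ^ (2 * q) * ‖ψ x‖ ^ 2)) (piN ι) := i1.sub i2
    have i123 : Integrable (fun x => (κ - μ) * (nTh θ₁ y x ^ (2 * q + 1) * ‖ψ x‖ ^ 2)
        - κ * (m : ℝ) ^ 3 * (nTh θ₁ y x ^ (2 * q) * ‖ψ x‖ ^ 2)
        + e * ((nTh θ₁ y x ^ q) ^ 2 * ‖ψ x‖ ^ 2)) (piN ι) := i12.add i3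
    rw [← integral_const_mul, ← integral_const_mul, ← integral_const_mul, ← integral_sub i1 i2,
      ← integral_add i12 i3, ← integral_sub i123 i4]
    refine integral_congr_ae (Eventually.of_forall fun x => ?_)
    dsimp only
    rw [F3_norm]
    ring
  rw [e1] at hloc
  have hD : ∫ x, (Dth θ₁' θ₂' y x * nTh θ₁ y x ^ (2 * q)) * ‖ψ x‖ ^ 2 ∂(piN ι)
      ≤ 3 / l ^ 2 * ∫ x, (nB l y x * nTh θ₁ y x ^ (2 * q)) * ‖ψ x‖ ^ 2 ∂(piN ι) := by
    rw [← integral_const_mul]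
    refine integral_mono (F3_x hψ (hDm.mul (hpow (2 * q))))
      ((F3_x hψ (hBy.mul (hpow (2 * q)))).const_mul _) fun x => ?_
    dsimp only
    have h1 := Dth_le hl hL y x
    have h2 : 0 ≤ nTh θ₁ y x ^ (2 * q) := pow_nonneg (hn0 y x) _
    have h3 := mul_le_mul_of_nonneg_right (mul_le_mul_of_nonneg_right h1 h2)
      (sq_nonneg ‖ψ x‖)
    refine h3.trans (le_of_eq ?_)
    ring
  -- the right side
  have hP : ∑ i, ∑ α, ∫ x, nP θ₁ θ₁' y q i α x ^ 2 * ‖ψ x‖ ^ 2 ∂(piN ι)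
      ≤ 12 * (q : ℝ) ^ 2 / l ^ 2 * ∫ x, nTh θ₁ y x ^ (2 * q - 1) * ‖ψ x‖ ^ 2 ∂(piN ι) := by
    have hPm : ∀ i α, Measurable (nP θ₁ θ₁' y q i α : (ι → T3) → ℝ) := by
      intro i α
      have hms : Measurable (fun x : ι → T3 => x i - y) :=
        measurable_sub' (measurable_pi_apply i) measurable_const
      unfold nP
      have h1 : Measurable (fun x : ι → T3 => (q : ℝ) * nTh θ₁ y x ^ (q - 1)) :=
        ((hpow (q - 1)).1).const_mul _
      have h2 : Measurable (fun x : ι → T3 => 2 * θ₁ (x i - y)) :=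
        (((hL.wd1 0).sm.measurable).comp hms).const_mul 2
      exact h1.mul (h2.mul ((hL.meas1 α).comp hms))
    have hint : ∀ i α, Integrable (fun x => nP θ₁ θ₁' y q i α x ^ 2 * ‖ψ x‖ ^ 2) (piN ι) := by
      intro i α
      have h1 := (F3_x hψ (hpow (2 * q - 1))).const_mul (12 * (q : ℝ) ^ 2 / l ^ 2)
      refine Integrable.mono' h1 ?_ (Eventually.of_forall fun x => ?_)
      · exact (((hPm i α).pow_const 2).aestronglyMeasurable).mul
          ((hψ.1.norm).pow 2)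
      · rw [Real.norm_eq_abs, abs_of_nonneg (mul_nonneg (sq_nonneg _) (sq_nonneg _)), ← mul_assoc]
        refine mul_le_mul_of_nonneg_right ?_ (sq_nonneg _)
        refine le_trans ?_ (nP_sq hl hL y q x)
        have h2 : nP θ₁ θ₁' y q i α x ^ 2 ≤ ∑ α, nP θ₁ θ₁' y q i α x ^ 2 :=
          Finset.single_le_sum (f := fun α => nP θ₁ θ₁' y q i α x ^ 2)
            (fun α _ => sq_nonneg _) (Finset.mem_univ α)
        exact h2.trans (Finset.single_le_sum (f := fun i => ∑ α, nP θ₁ θ₁' y q i α x ^ 2)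
          (fun i _ => Finset.sum_nonneg fun α _ => sq_nonneg _) (Finset.mem_univ i))
    have h1 : ∑ i, ∑ α, ∫ x, nP θ₁ θ₁' y q i α x ^ 2 * ‖ψ x‖ ^ 2 ∂(piN ι)
        = ∫ x, ∑ i, ∑ α, nP θ₁ θ₁' y q i α x ^ 2 * ‖ψ x‖ ^ 2 ∂(piN ι) := by
      rw [integral_finsetSum _ (fun i _ => integrable_finsetSum _ fun α _ => hint i α)]
      refine Finset.sum_congr rfl fun i _ => ?_
      rw [integral_finsetSum _ (fun α _ => hint i α)]
    rw [h1, ← integral_const_mul]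
    refine integral_mono (integrable_finsetSum _ fun i _ => integrable_finsetSum _ fun α _ =>
      hint i α) ((F3_x hψ (hpow (2 * q - 1))).const_mul _) fun x => ?_
    dsimp only
    simp only [← Finset.sum_mul]
    rw [← mul_assoc]
    exact mul_le_mul_of_nonneg_right (nP_sq hl hL y q x) (sq_nonneg _)
  linarith

theorem mom_rec {R₀ l μ e κ : ℝ} {𝒱 : T3 → ℝ≥0∞} {ψ : (ι → T3) → ℂ}
    {g : ι → Fin 3 → (ι → T3) → ℂ} (hM : Mini R₀ 𝒱 μ e ψ g) (hl : 0 < l) (hl8 : l ≤ 1 / 8)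
    {θ₁ θ₂ : T3 → ℝ} {θ₁' θ₂' : Fin 3 → T3 → ℝ} (hL : Loc2 l θ₁ θ₂ θ₁' θ₂') {v : T3 → ℝ≥0∞}
    (hvm : Measurable v) (hle : ∀ᵐ z ∂lam3, R₀ ≤ rr z → v z ≤ 𝒱 z) {m : ℕ} (hm : 0 < m)
    (hκ : 0 ≤ κ) (hbox : ∀ b : Fin 3 → ℝ, BoxIneq (ENNReal.ofReal κ) v (tbox b (4 * l / m))) (q : ℕ) :
    (κ * l ^ 2 - μ * l ^ 2 - 162) * Xm θ₁ ψ (2 * q + 1)
      ≤ κ * l ^ 2 * (m : ℝ) ^ 3 * Xm θ₁ ψ (2 * q) + 12 * (q : ℝ) ^ 2 * Xm θ₁ ψ (2 * q - 1) := by
  have hψ := hM.fe.hg.mem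
  obtain ⟨hn, hn0, hn1, hB⟩ := nTh_bm (ι := ι) hL
  have hpow : ∀ k : ℕ, BM (fun p : T3 × (ι → T3) => nTh θ₁ p.1 p.2 ^ k) := fun k => hn.pow k
  have j1 := F3_y hψ (hpow (2 * q + 1))
  have j2 := F3_y hψ (hpow (2 * q))
  have j3 := F3_y hψ (hB.mul (hpow (2 * q)))
  have j4 := F3_y hψ (hpow (2 * q - 1))
  dsimp only at j1 j2 j3 j4
  have hmono : ∫ y, ((κ - μ) * (∫ x, nTh θ₁ y x ^ (2 * q + 1) * ‖ψ x‖ ^ 2 ∂(piN ι))
      - κ * (m : ℝ) ^ 3 * (∫ x, nTh θ₁ y x ^ (2 * q) * ‖ψ x‖ ^ 2 ∂(piN ι))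
      - 3 / l ^ 2 * (∫ x, (nB l y x * nTh θ₁ y x ^ (2 * q)) * ‖ψ x‖ ^ 2 ∂(piN ι))) ∂lam3
      ≤ ∫ y, 12 * (q : ℝ) ^ 2 / l ^ 2
        * ∫ x, nTh θ₁ y x ^ (2 * q - 1) * ‖ψ x‖ ^ 2 ∂(piN ι) ∂lam3 := by
    refine integral_mono (((j1.const_mul _).sub (j2.const_mul _)).sub (j3.const_mul _))
      (j4.const_mul _) fun y => ?_
    exact F3_one hM hl hl8 hL hvm hle hm hκ hbox q y
  have j12 : Integrable (fun y => (κ - μ) * (∫ x, nTh θ₁ y x ^ (2 * q + 1) * ‖ψ x‖ ^ 2 ∂(piN ι))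
      - κ * (m : ℝ) ^ 3 * (∫ x, nTh θ₁ y x ^ (2 * q) * ‖ψ x‖ ^ 2 ∂(piN ι))) lam3 :=
    (j1.const_mul _).sub (j2.const_mul _)
  rw [integral_sub j12 (j3.const_mul _), integral_sub (j1.const_mul _) (j2.const_mul _),
    integral_const_mul, integral_const_mul, integral_const_mul, integral_const_mul] at hmono
  have hcov : ∫ y, ∫ x, (nB l y x * nTh θ₁ y x ^ (2 * q)) * ‖ψ x‖ ^ 2 ∂(piN ι) ∂lam3
      ≤ 54 * Xm θ₁ ψ (2 * q + 1) := by
    have s1 := F3_swap hψ (hB.mul (hpow (2 * q)))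
    have s2 := F3_swap hψ (hpow (2 * q + 1))
    dsimp only at s1 s2
    unfold Xm
    rw [s1, s2, ← integral_const_mul]
    refine integral_mono (F3_x hψ (F3_avg (hB.mul (hpow (2 * q)))))
      ((F3_x hψ (F3_avg (hpow (2 * q + 1)))).const_mul _) fun x => ?_
    dsimp only
    rw [← mul_assoc]
    exact mul_le_mul_of_nonneg_right (cover hl hl8 hL (2 * q) x) (sq_nonneg _)
  have hl2 : 0 < l ^ 2 := by positivity
  have h3l : 0 ≤ 3 / l ^ 2 := by positivity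
  have h5 := mul_le_mul_of_nonneg_left hcov h3l
  have h6 : (κ - μ) * Xm θ₁ ψ (2 * q + 1) - κ * (m : ℝ) ^ 3 * Xm θ₁ ψ (2 * q)
      - 3 / l ^ 2 * (54 * Xm θ₁ ψ (2 * q + 1)) ≤ 12 * (q : ℝ) ^ 2 / l ^ 2 * Xm θ₁ ψ (2 * q - 1) := by
    unfold Xm at h5 ⊢
    linarith
  have h7 := mul_le_mul_of_nonneg_left h6 hl2.le
  have e1 : l ^ 2 * ((κ - μ) * Xm θ₁ ψ (2 * q + 1) - κ * (m : ℝ) ^ 3 * Xm θ₁ ψ (2 * q)
      - 3 / l ^ 2 * (54 * Xm θ₁ ψ (2 * q + 1)))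
      = (κ * l ^ 2 - μ * l ^ 2 - 162) * Xm θ₁ ψ (2 * q + 1)
        - κ * l ^ 2 * (m : ℝ) ^ 3 * Xm θ₁ ψ (2 * q) := by
    field_simp
    ring
  have e2 : l ^ 2 * (12 * (q : ℝ) ^ 2 / l ^ 2 * Xm θ₁ ψ (2 * q - 1))
      = 12 * (q : ℝ) ^ 2 * Xm θ₁ ψ (2 * q - 1) := by
    field_simp
  rw [e1, e2] at h7
  linarith

end Pool.Agent.Lib.MP_4952d6_mp.LA

end

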