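import Pool.Agent.Lib.MP_4952d6_mp.Pk.G07
import Pool.Agent.Lib.MP_4952d6_mp.Pk.G08
import Pool.Agent.Lib.MP_4952d6_mp.Pk.G11
import Pool.Agent.Lib.MP_4952d6_mp.Pk.G12
import Pool.Agent.Lib.MP_4952d6_mp.Pk.G18
import Pool.Agent.Lib.MP_4952d6_mp.Pk.G22
import Pool.Agent.Lib.MP_4952d6_mp.Pk.G24
import Pool.Agent.Lib.MP_4952d6_mp.Pk.G28
import Pool.Agent.Lib.MP_4952d6_mp.Pk.G29
import Pool.Agent.Lib.MP_4952d6_mp.Pk.G34
import Pool.Agent.Lib.MP_4952d6_mp.Pk.G37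
import Pool.Agent.Lib.MP_4952d6_mp.Pk.G50
import Pool.Agent.Lib.MP_4952d6_mp.Pk.G53

/-! Merged modules (to save import time): LA.F4, LA.H3, LA.H4, LA.G1, LA.G2, LA.H2, LA.H5, LA.H6, LA.I2a, LA.I2, LC.F2a, LC.F2b, LB.LimB, U.U8A, U.U8B. -/

/-! ### LA.F4 -/

section

/-!
# JOB LA-F4: moments at the scale `l`

* `Xm_zero`, `Xm_nonneg`: trivial.  `Xm_young`: if `K t^i ≤ δ t^j + c` for all `t ≥ 0` then `K Xm i ≤ δ Xm j + c` (monotonicity, `Xm 0 = 1`).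
* `mom_alg`: `K t^(2q) ≤ t^(2q+1)/4 + K (4K)^(2q)` and `12 q² t^(2q-1) ≤ t^(2q+1)/4 + 12 q² (7q)^(2q-1)`.
* `moments`: `K := 67584 (Kμ + 163)/cw`, `m := ⌈(K/Y)^(1/3)⌉₊`, `κ := cw R/(1056 (4l/m)³)`; then `κ l² = cw (R/a) Y m³/67584 ∈ [Kμ + 163, 8 θ (Kμ + 163)]` and `m³ ≤ 8K/Y`
  if `K/Y ≥ 1`; `4 l/m ≥ 2 R` if `K θ³ Y² ≤ 1` (`l/R ≥ 1/(θ Y)`); `4 l/m ≤ 1/2`.  `box_torus` gives `hbox` of `mom_rec`; `κ l² - μ l² - 162 ≥ 1` with `μ = Kμ/l²`.
  `mom_alg` with `K' = 64 θ (Kμ+163) K/Y`.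
-/

set_option autoImplicit false
set_option linter.unusedSectionVars false
set_option linter.unusedVariables false
open MeasureTheory Function Filter Topology Set ComplexConjugate
open scoped ENNReal

namespace Pool.Agent.Lib.MP_4952d6_mp.LA

variable {ι : Type*} [Fintype ι] [DecidableEq ι]

theorem Xm_nonneg {l : ℝ} {θ₁ θ₂ : T3 → ℝ} {θ₁' θ₂' : Fin 3 → T3 → ℝ}
    (hL : Loc2 l θ₁ θ₂ θ₁' θ₂') (ψ : (ι → T3) → ℂ) (p : ℕ) : 0 ≤ Xm θ₁ ψ p := by
  unfold Xm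
  refine integral_nonneg fun y => integral_nonneg fun x => mul_nonneg (pow_nonneg ?_ _)
    (sq_nonneg _)
  unfold nTh
  exact Finset.sum_nonneg fun i _ => sq_nonneg _

theorem Xm_young {l : ℝ} {θ₁ θ₂ : T3 → ℝ} {θ₁' θ₂' : Fin 3 → T3 → ℝ}
    (hL : Loc2 l θ₁ θ₂ θ₁' θ₂') {ψ : (ι → T3) → ℂ} (hψ : MemLp ψ 2 (piN ι))
    (h1 : ∫ x, ‖ψ x‖ ^ 2 ∂(piN ι) = 1) {K δ c : ℝ} {i j : ℕ}
    (h : ∀ t : ℝ, 0 ≤ t → K * t ^ i ≤ δ * t ^ j + c) :
    K * Xm θ₁ ψ i ≤ δ * Xm θ₁ ψ j + c := by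
  obtain ⟨hn, hn0, hn1, hB⟩ := nTh_bm (ι := ι) hL
  have hpow : ∀ k : ℕ, BM (fun p : T3 × (ι → T3) => nTh θ₁ p.1 p.2 ^ k) := fun k => hn.pow k
  have j1 := F3_y hψ (hpow i)
  have j2 := F3_y hψ (hpow j)
  dsimp only at j1 j2
  have hy : ∀ y, K * (∫ x, nTh θ₁ y x ^ i * ‖ψ x‖ ^ 2 ∂(piN ι))
      ≤ δ * (∫ x, nTh θ₁ y x ^ j * ‖ψ x‖ ^ 2 ∂(piN ι)) + c := by
    intro y
    have i1 : Integrable (fun x => nTh θ₁ y x ^ i * ‖ψ x‖ ^ 2) (piN ι) :=
      F3_x hψ (F3_slice (hpow i) y)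
    have i2 : Integrable (fun x => nTh θ₁ y x ^ j * ‖ψ x‖ ^ 2) (piN ι) :=
      F3_x hψ (F3_slice (hpow j) y)
    have i3 : Integrable (fun x => ‖ψ x‖ ^ 2) (piN ι) := int_sq hψ
    have e1 : δ * (∫ x, nTh θ₁ y x ^ j * ‖ψ x‖ ^ 2 ∂(piN ι)) + c
        = ∫ x, (δ * (nTh θ₁ y x ^ j * ‖ψ x‖ ^ 2) + c * ‖ψ x‖ ^ 2) ∂(piN ι) := by
      rw [integral_add (i2.const_mul _) (i3.const_mul _), integral_const_mul, integral_const_mul,
        h1, mul_one]
    rw [e1, ← integral_const_mul]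
    refine integral_mono (i1.const_mul _) ((i2.const_mul _).add (i3.const_mul _)) fun x => ?_
    dsimp only
    have h2 := mul_le_mul_of_nonneg_right (h (nTh θ₁ y x) (hn0 y x)) (sq_nonneg ‖ψ x‖)
    rw [add_mul] at h2
    refine le_trans (le_of_eq ?_) (h2.trans (le_of_eq ?_))
    · ring
    · ring
  unfold Xm
  have e2 : δ * (∫ y, ∫ x, nTh θ₁ y x ^ j * ‖ψ x‖ ^ 2 ∂(piN ι) ∂lam3) + c
      = ∫ y, (δ * (∫ x, nTh θ₁ y x ^ j * ‖ψ x‖ ^ 2 ∂(piN ι)) + c) ∂lam3 := by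
    rw [integral_add (j2.const_mul _) (integrable_const _), integral_const_mul]
    simp
  rw [e2, ← integral_const_mul]
  exact integral_mono (j1.const_mul _) ((j2.const_mul _).add (integrable_const _)) hy

theorem mom_alg {l : ℝ} {θ₁ θ₂ : T3 → ℝ} {θ₁' θ₂' : Fin 3 → T3 → ℝ}
    (hL : Loc2 l θ₁ θ₂ θ₁' θ₂') {ψ : (ι → T3) → ℂ} (hψ : MemLp ψ 2 (piN ι))
    (h1 : ∫ x, ‖ψ x‖ ^ 2 ∂(piN ι) = 1) {K : ℝ} (hK : 0 ≤ K) (q : ℕ)
    (h : Xm θ₁ ψ (2 * q + 1) ≤ K * Xm θ₁ ψ (2 * q) + 12 * (q : ℝ) ^ 2 * Xm θ₁ ψ (2 * q - 1)) :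
    Xm θ₁ ψ (2 * q + 1) ≤ 2 * (K * (4 * K) ^ (2 * q) + 12 * (q : ℝ) ^ 2 * (7 * (q : ℝ)) ^ (2 * q - 1)) := by
  have hy1 := Xm_young (K := K) (δ := 1 / 4) (c := K * (4 * K) ^ (2 * q)) (i := 2 * q)
    (j := 2 * q + 1) hL hψ h1 (by
      intro t ht
      have ht1 : 0 ≤ t ^ (2 * q) := pow_nonneg ht _
      by_cases hc : 4 * K ≤ t
      · have h2 : 0 ≤ K * (4 * K) ^ (2 * q) := by positivity
        have h3 : K * t ^ (2 * q) ≤ t / 4 * t ^ (2 * q) :=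
          mul_le_mul_of_nonneg_right (by linarith) ht1
        have h4 : 1 / 4 * t ^ (2 * q + 1) = t / 4 * t ^ (2 * q) := by ring
        rw [h4]
        linarith
      · have h2 : t ^ (2 * q) ≤ (4 * K) ^ (2 * q) := pow_le_pow_left₀ ht (not_le.mp hc).le _
        have h3 := mul_le_mul_of_nonneg_left h2 hK
        have h4 : 0 ≤ 1 / 4 * t ^ (2 * q + 1) := by positivity
        linarith)
  have hy2 := Xm_young (K := 12 * (q : ℝ) ^ 2) (δ := 1 / 4)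
    (c := 12 * (q : ℝ) ^ 2 * (7 * (q : ℝ)) ^ (2 * q - 1)) (i := 2 * q - 1)
    (j := 2 * q + 1) hL hψ h1 (by
      intro t ht
      rcases Nat.eq_zero_or_pos q with hq0 | hq0
      · rw [hq0]
        simp only [Nat.cast_zero]
        have h4 : 0 ≤ t ^ (2 * 0 + 1) := pow_nonneg ht _
        nlinarith
      · have hqr : (0 : ℝ) < q := Nat.cast_pos.mpr hq0
        have ht1 : 0 ≤ t ^ (2 * q - 1) := pow_nonneg ht _
        have he : 2 * q + 1 = (2 * q - 1) + 2 := by omega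
        by_cases hc : 7 * (q : ℝ) ≤ t
        · have h2 : 0 ≤ 12 * (q : ℝ) ^ 2 * (7 * (q : ℝ)) ^ (2 * q - 1) := by positivity
          have h5 : (7 * (q : ℝ)) ^ 2 ≤ t ^ 2 := pow_le_pow_left₀ (by positivity) hc 2
          have h3 : 12 * (q : ℝ) ^ 2 * t ^ (2 * q - 1) ≤ t ^ 2 / 4 * t ^ (2 * q - 1) :=
            mul_le_mul_of_nonneg_right (by nlinarith) ht1
          have h4 : 1 / 4 * t ^ (2 * q + 1) = t ^ 2 / 4 * t ^ (2 * q - 1) := by
            rw [he, pow_add]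
            ring
          rw [h4]
          linarith
        · have h2 : t ^ (2 * q - 1) ≤ (7 * (q : ℝ)) ^ (2 * q - 1) :=
            pow_le_pow_left₀ ht (not_le.mp hc).le _
          have h3 := mul_le_mul_of_nonneg_left h2 (show 0 ≤ 12 * (q : ℝ) ^ 2 by positivity)
          have h4 : 0 ≤ 1 / 4 * t ^ (2 * q + 1) := by positivity
          linarith)
  linarith

theorem moments (θ cw Kμ : ℝ) (hθ : 1 ≤ θ) (hcw : 0 < cw) (hKμ : 0 ≤ Kμ) (q : ℕ) :
    ∃ C Y0 : ℝ, 0 < C ∧ 0 < Y0 ∧ ∀ Y : ℝ, 0 < Y → Y < Y0 → ∀ l R a : ℝ, 0 < a → a ≤ R → R ≤ θ * a →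
      l = a / Y → l ≤ 1 / 8 → ∀ w : ℝ → ℝ, Measurable w → (∀ t, 0 ≤ w t) →
      (∀ t, w t ≤ (R⁻¹) ^ 2) → (∀ t, R ≤ t → w t = 0) → cw * R ≤ sig * ∫ t in Ioi (0:ℝ), t ^ 2 * w t →
      ∀ (N : ℕ) (R₀ e : ℝ) (𝒱 : T3 → ℝ≥0∞) (ψ : (Fin N → T3) → ℂ)
        (g : Fin N → Fin 3 → (Fin N → T3) → ℂ), Mini R₀ 𝒱 (Kμ / l ^ 2) e ψ g →
      (∀ᵐ z ∂lam3, R₀ ≤ rr z → ENNReal.ofReal (w (rr z)) ≤ 𝒱 z) →
      ∀ (θ₁ θ₂ : T3 → ℝ) (θ₁' θ₂' : Fin 3 → T3 → ℝ), Loc2 l θ₁ θ₂ θ₁' θ₂' →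
      Xm θ₁ ψ (2 * q + 1) ≤ C * (Y⁻¹) ^ (2 * q + 1) := by
  obtain ⟨K₀, hK₀⟩ : ∃ K₀ : ℝ, K₀ = 67584 * (Kμ + 163) / cw := ⟨_, rfl⟩
  have hK₀p : 0 < K₀ := by
    rw [hK₀]
    positivity
  have hθ0 : 0 < θ := by linarith
  obtain ⟨D, hD⟩ : ∃ D : ℝ, D = 64 * θ * (Kμ + 163) * K₀ := ⟨_, rfl⟩
  have hDp : 0 < D := by
    rw [hD]
    positivity
  refine ⟨2 * (D * (4 * D) ^ (2 * q) + 12 * (q : ℝ) ^ 2 * (7 * (q : ℝ)) ^ (2 * q - 1)) + 1,
    min (min 1 K₀) (1 / (K₀ * θ ^ 3 + 1)), by positivity,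
    lt_min (lt_min one_pos hK₀p) (by positivity), ?_⟩
  intro Y hY hY0 l R a ha haR hRa hla hl8 w hwm hw0 hwR hws hwi N R₀ e 𝒱 ψ g hM hle
    θ₁ θ₂ θ₁' θ₂' hL
  have hY1 : Y < 1 := (hY0.trans_le (min_le_left _ _)).trans_le (min_le_left _ _)
  have hYK : Y < K₀ := (hY0.trans_le (min_le_left _ _)).trans_le (min_le_right _ _)
  have hYθ : K₀ * θ ^ 3 * Y ^ 2 ≤ 1 := by
    have h1 : Y < 1 / (K₀ * θ ^ 3 + 1) := hY0.trans_le (min_le_right _ _)
    rw [lt_div_iff₀ (by positivity)] at h1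
    have h2 : Y ^ 2 ≤ Y := by nlinarith
    have h3 : K₀ * θ ^ 3 * Y ^ 2 ≤ K₀ * θ ^ 3 * Y := mul_le_mul_of_nonneg_left h2 (by positivity)
    nlinarith
  have hR : 0 < R := by linarith
  have hl : 0 < l := by
    rw [hla]
    positivity
  have haY : a = l * Y := by
    rw [hla]
    field_simp
  obtain ⟨x, hx0, hx3⟩ : ∃ x : ℝ, 0 < x ∧ x ^ 3 = K₀ / Y := by
    refine ⟨(K₀ / Y) ^ ((1 : ℝ) / 3), Real.rpow_pos_of_pos (by positivity) _, ?_⟩
    rw [← Real.rpow_natCast, ← Real.rpow_mul (by positivity)]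
    norm_num
  have hx1 : 1 ≤ x := by
    have h1 : (1 : ℝ) ^ 3 ≤ x ^ 3 := by
      rw [hx3, one_pow, le_div_iff₀ hY]
      linarith
    exact le_of_pow_le_pow_left₀ (by norm_num) hx0.le h1
  obtain ⟨m, hm⟩ : ∃ m : ℕ, m = ⌈x⌉₊ := ⟨_, rfl⟩
  have hmx : x ≤ m := by
    rw [hm]
    exact Nat.le_ceil x
  have hm2 : (m : ℝ) ≤ 2 * x := by
    rw [hm]
    have h1 := (Nat.ceil_lt_add_one hx0.le).le
    linarith
  have hm1 : (1 : ℝ) ≤ m := hx1.trans hmx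
  have hm0 : 0 < m := by
    have h1 : (0 : ℝ) < m := by linarith
    exact_mod_cast h1
  have hm0r : (0 : ℝ) < m := by linarith
  have hm3 : K₀ / Y ≤ (m : ℝ) ^ 3 := by
    rw [← hx3]
    exact pow_le_pow_left₀ hx0.le hmx 3
  have hm3' : (m : ℝ) ^ 3 ≤ 8 * (K₀ / Y) := by
    rw [← hx3]
    have h1 := pow_le_pow_left₀ hm0r.le hm2 3
    have h2 : (2 * x) ^ 3 = 8 * x ^ 3 := by ring
    rw [h2] at h1
    exact h1
  have hxθ : x * θ * Y ≤ 1 := by
    have h1 : (x * θ * Y) ^ 3 ≤ 1 ^ 3 := by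
      have h2 : (x * θ * Y) ^ 3 = x ^ 3 * θ ^ 3 * Y ^ 3 := by ring
      rw [h2, hx3, one_pow]
      have h3 : K₀ / Y * θ ^ 3 * Y ^ 3 = K₀ * θ ^ 3 * Y ^ 2 := by
        field_simp
      rw [h3]
      exact hYθ
    exact le_of_pow_le_pow_left₀ (by norm_num) zero_le_one h1
  have hr : 2 * R ≤ 4 * l / m := by
    rw [le_div_iff₀ hm0r]
    have h1 : R * m ≤ (θ * a) * (2 * x) := mul_le_mul hRa hm2 hm0r.le (by positivity)
    have h2 : (θ * a) * (2 * x) = 2 * ((x * θ * Y) * l) := by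
      rw [haY]
      ring
    have h3 : (x * θ * Y) * l ≤ 1 * l := mul_le_mul_of_nonneg_right hxθ hl.le
    rw [h2] at h1
    linarith
  have hr2 : 4 * l / m ≤ 1 / 2 := by
    rw [div_le_iff₀ hm0r]
    linarith
  obtain ⟨κ, hκ⟩ : ∃ κ : ℝ, κ = cw * R / (1056 * (4 * l / m) ^ 3) := ⟨_, rfl⟩
  have hκ0 : 0 < κ := by
    rw [hκ]
    positivity
  have hκl : κ * l ^ 2 = cw * (R / a) * (Y * (m : ℝ) ^ 3) / 67584 := by
    rw [hκ, haY]
    field_simp
    ring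
  have hRa1 : 1 ≤ R / a := by
    rw [one_le_div ha]
    exact haR
  have hRa2 : R / a ≤ θ := by
    rw [div_le_iff₀ ha]
    exact hRa
  have hYm1 : K₀ ≤ Y * (m : ℝ) ^ 3 := by
    rw [div_le_iff₀ hY] at hm3
    linarith
  have hYm2 : Y * (m : ℝ) ^ 3 ≤ 8 * K₀ := by
    have h1 := mul_le_mul_of_nonneg_left hm3' hY.le
    have h2 : Y * (8 * (K₀ / Y)) = 8 * K₀ := by
      field_simp
    rw [h2] at h1
    exact h1
  have hcK : cw * K₀ = 67584 * (Kμ + 163) := by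
    rw [hK₀]
    field_simp
  have hκ1 : Kμ + 163 ≤ κ * l ^ 2 := by
    rw [hκl]
    have h1 : cw * K₀ ≤ cw * (R / a) * (Y * (m : ℝ) ^ 3) := by
      have h2 : cw * 1 ≤ cw * (R / a) := mul_le_mul_of_nonneg_left hRa1 hcw.le
      rw [mul_one] at h2
      exact mul_le_mul h2 hYm1 hK₀p.le (by positivity)
    rw [hcK] at h1
    linarith
  have hκ2 : κ * l ^ 2 ≤ 8 * θ * (Kμ + 163) := by
    rw [hκl]
    have h1 : cw * (R / a) * (Y * (m : ℝ) ^ 3) ≤ cw * θ * (8 * K₀) :=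
      mul_le_mul (mul_le_mul_of_nonneg_left hRa2 hcw.le) hYm2 (by positivity) (by positivity)
    have h2 : cw * θ * (8 * K₀) = 8 * θ * (cw * K₀) := by ring
    rw [h2, hcK] at h1
    linarith
  have hbox : ∀ b : Fin 3 → ℝ, BoxIneq (ENNReal.ofReal κ)
      (fun y => ENNReal.ofReal (w (rr y))) (tbox b (4 * l / m)) := by
    intro b
    rw [hκ]
    exact box_torus hwm hw0 hR hcw hwR hws hwi hr hr2
  have hrec := mom_rec hM hl hl8 hL ((hwm.comp rr_measurable).ennreal_ofReal) hle hm0 hκ0.le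
    hbox q
  have hmul : Kμ / l ^ 2 * l ^ 2 = Kμ := by
    field_simp
  rw [hmul] at hrec
  have hX0 := Xm_nonneg hL ψ (2 * q + 1)
  have hX1 := Xm_nonneg hL ψ (2 * q)
  have hK' : κ * l ^ 2 * (m : ℝ) ^ 3 ≤ D / Y := by
    have h1 : κ * l ^ 2 * (m : ℝ) ^ 3 ≤ 8 * θ * (Kμ + 163) * (8 * (K₀ / Y)) :=
      mul_le_mul hκ2 hm3' (by positivity) (by positivity)
    refine h1.trans (le_of_eq ?_)
    rw [hD]
    ring
  have hstep : Xm θ₁ ψ (2 * q + 1) ≤ D / Y * Xm θ₁ ψ (2 * q)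
      + 12 * (q : ℝ) ^ 2 * Xm θ₁ ψ (2 * q - 1) := by
    have h1 : 1 * Xm θ₁ ψ (2 * q + 1) ≤ (κ * l ^ 2 - Kμ - 162) * Xm θ₁ ψ (2 * q + 1) :=
      mul_le_mul_of_nonneg_right (by linarith) hX0
    have h2 := mul_le_mul_of_nonneg_right hK' hX1
    linarith
  have hfin := mom_alg hL hM.fe.hg.mem hM.nrm (K := D / Y) (by positivity) q hstep
  refine hfin.trans ?_
  have hYi : 1 ≤ (Y⁻¹) ^ (2 * q + 1) := one_le_pow₀ ((one_le_inv₀ hY).mpr hY1.le)
  have e1 : D / Y * (4 * (D / Y)) ^ (2 * q) = D * (4 * D) ^ (2 * q) * (Y⁻¹) ^ (2 * q + 1) := by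
    rw [pow_succ, div_eq_mul_inv, ← mul_assoc 4, mul_pow]
    ring
  rw [e1]
  have h3 : 0 ≤ 12 * (q : ℝ) ^ 2 * (7 * (q : ℝ)) ^ (2 * q - 1) := by positivity
  have h4 := mul_le_mul_of_nonneg_left hYi h3
  rw [mul_one] at h4
  have h5 : 0 ≤ (Y⁻¹) ^ (2 * q + 1) := by positivity
  have e2 : (2 * (D * (4 * D) ^ (2 * q) + 12 * (q : ℝ) ^ 2 * (7 * (q : ℝ)) ^ (2 * q - 1)) + 1)
      * (Y⁻¹) ^ (2 * q + 1)
      = 2 * (D * (4 * D) ^ (2 * q) * (Y⁻¹) ^ (2 * q + 1))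
        + 2 * (12 * (q : ℝ) ^ 2 * (7 * (q : ℝ)) ^ (2 * q - 1) * (Y⁻¹) ^ (2 * q + 1))
        + (Y⁻¹) ^ (2 * q + 1) := by ring
  rw [e2]
  linarith

end Pool.Agent.Lib.MP_4952d6_mp.LA

end

/-! ### LA.H3 -/

section

/-!
# JOB LA-H3: shift of the heat kernel and comparison with the localisation functions

* `hk_shift`: (helper95 may have the same lemma under LB) `hk s = ∏_α hk1 0 s (crd x α)` with `hk1 0 s u = ∑ₙ gs1 s (u + n)`;
  `(u+n+v)² ≥ (u+n)²/2 - v²` gives `exp (-(u+n+v)²/(4s)) ≤ exp (v²/(4s)) exp (-(u+n)²/(8s))`, i.e. `gs1 s (w + v) ≤ √2 e^(v²/(4s)) gs1 (2s) w`; sum over `n`, product over `α`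
  (`hkD_coe` with the representative `crd z + crd y`), `∑ crd y α ² = rr y ²≤ s`: `hk s (z + y) ≤ √2³ e^(1/4) hk (2s) z`.  (`√2³ e^(1/4) ≤ 4`.)
* `hk_loc`: for `rr z' ≤ l`: `hk (2 l²) y ≤ 4 hk (4 l²) (y - z')` (`hk_shift` with `s = 2 l²`, `z = y - z'`), multiply by `θ₁ (z')² = 1` and integrate over `{rr z' ≤ l}`
  (volume `sig/3 l³`, `ball_vol`): `sig/3 l³ hk (2l²) y ≤ 4 ∫ hk (4 l²) (y - z') θ₁ (z')² dz'`.  `sig = 4π`, `12/(4π) ≤ 1`.
* `jensen_loc`: `(∑ᵢ hk (2l²) (y - x i))^p ≤ (l⁻³)^p (∫ hk (4l²) (z) nTh θ₁ (..) dz)^p ≤ (l⁻³)^p ∫ hk (4l²) z (nTh ..)^p dz` (Jensen/Hoelder, `∫ hk = 1`, `hk_integral`), integrate over `y`,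
  Fubini and translation invariance: `≤ (l⁻³)^p ∫ nTh^p dy`.  (With `z' = y - x i - z`: `θ₁ (y - x i - z)`; `Loc2` does not say that `θ₁` is even, so use `hk (2l²) (y - x i) = hk (2 l²) (x i - y)`
  and `hk_loc` at the point `x i - y`: `∫ hk (4l²) (x i - y - z') θ₁(z')² dz' = ∫ hk (4l²) z θ₁ (x i - (y + z))² dz`.)
-/

set_option autoImplicit false
set_option linter.unusedSectionVars false
set_option linter.unusedVariables false
open MeasureTheory Function Filter Topology Set ComplexConjugate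
open scoped ENNReal

namespace Pool.Agent.Lib.MP_4952d6_mp.LA

variable {ι : Type*} [Fintype ι] [DecidableEq ι]

theorem H3_sig : sig = 4 * Real.pi := by
  unfold sig
  rw [measureReal_def, EuclideanSpace.volume_ball_fin_three, ENNReal.toReal_mul,
    ENNReal.toReal_pow, ENNReal.toReal_ofReal zero_le_one, ENNReal.toReal_ofReal (by positivity)]
  ring

theorem H3_gs1 {s : ℝ} (hs : 0 < s) (w v : ℝ) :
    gs1 s (w + v) ≤ Real.sqrt 2 * Real.exp (v ^ 2 / (4 * s)) * gs1 (2 * s) w := by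
  have hpi := Real.pi_pos
  unfold gs1
  have h3 : Real.sqrt (4 * Real.pi * (2 * s)) = Real.sqrt 2 * Real.sqrt (4 * Real.pi * s) := by
    rw [← Real.sqrt_mul (by norm_num)]
    congr 1
    ring
  have hs2 : (0:ℝ) < Real.sqrt 2 := Real.sqrt_pos.2 (by norm_num)
  have hs4 : (0:ℝ) < Real.sqrt (4 * Real.pi * s) := Real.sqrt_pos.2 (by positivity)
  have e1 : Real.sqrt 2 * Real.exp (v ^ 2 / (4 * s)) *
      ((Real.sqrt (4 * Real.pi * (2 * s)))⁻¹ * Real.exp (-(w ^ 2) / (4 * (2 * s)))) =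
      (Real.sqrt (4 * Real.pi * s))⁻¹ *
        Real.exp (v ^ 2 / (4 * s) + -(w ^ 2) / (4 * (2 * s))) := by
    rw [h3, Real.exp_add]
    field_simp
  rw [e1]
  refine mul_le_mul_of_nonneg_left ?_ (by positivity)
  apply Real.exp_le_exp.2
  have e2 : v ^ 2 / (4 * s) + -(w ^ 2) / (4 * (2 * s)) - (-((w + v) ^ 2) / (4 * s)) =
      ((w + 2 * v) ^ 2) / (8 * s) := by
    field_simp
    ring
  have e3 : 0 ≤ ((w + 2 * v) ^ 2) / (8 * s) := by positivity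
  linarith

theorem H3_hk1 {s : ℝ} (hs : 0 < s) (u v : ℝ) :
    hk1 0 s (u + v) ≤ Real.sqrt 2 * Real.exp (v ^ 2 / (4 * s)) * hk1 0 (2 * s) u := by
  have h2s : 0 < 2 * s := by positivity
  unfold hk1
  rw [← tsum_mul_left]
  refine (gsj_summable hs 0 (u + v)).tsum_le_tsum (fun n => ?_)
    ((gsj_summable h2s 0 u).mul_left _)
  have h := H3_gs1 hs (u + n) v
  have e : u + v + (n : ℝ) = u + n + v := by ring
  rw [e]
  exact h

theorem hk_shift {s : ℝ} (hs : 0 < s) {y : T3} (hy : rr y ^ 2 ≤ s) (z : T3) :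
    hk s (z + y) ≤ 4 * hk (2 * s) z := by
  have hz : hk s (z + y) = ∏ α, hk1 0 s (crd z α + crd y α) :=
    HKD_eq 0 s (z + y) (fun α => crd z α + crd y α) (fun α => by
      rw [AddCircle.coe_add, coe_crd, coe_crd, Pi.add_apply])
  rw [hz]
  have h1 : ∏ α : Fin 3, hk1 0 s (crd z α + crd y α) ≤ ∏ α : Fin 3,
      (Real.sqrt 2 * Real.exp (crd y α ^ 2 / (4 * s)) * hk1 0 (2 * s) (crd z α)) :=
    Finset.prod_le_prod (fun α _ => hk1_nonneg s _) (fun α _ => H3_hk1 hs _ _)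
  refine h1.trans ?_
  rw [Finset.prod_mul_distrib, Finset.prod_mul_distrib, Finset.prod_const, Finset.card_univ,
    Fintype.card_fin, ← Real.exp_sum, ← Finset.sum_div, ← rr_sq]
  have h2 : Real.exp (rr y ^ 2 / (4 * s)) ≤ 1.3 := by
    have e1 : rr y ^ 2 / (4 * s) ≤ 1 / 4 := by
      rw [div_le_div_iff₀ (by positivity) (by norm_num)]
      linarith
    have e2 : Real.exp (1 / 4) ≤ 1.3 := by
      have e3 : Real.exp (1 / 4) ^ 4 = Real.exp 1 := by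
        rw [← Real.exp_nat_mul]
        norm_num
      have e4 := Real.exp_one_lt_d9
      by_contra hcon
      push Not at hcon
      have e5 : (1.3 : ℝ) ^ 4 < Real.exp (1 / 4) ^ 4 :=
        pow_lt_pow_left₀ hcon (by norm_num) (by norm_num)
      rw [e3] at e5
      norm_num at e5
      linarith
    exact (Real.exp_le_exp.2 e1).trans e2
  have h3 : Real.sqrt 2 ^ 3 ≤ 3 := by
    have e1 : Real.sqrt 2 ^ 2 = 2 := Real.sq_sqrt (by norm_num)
    have e2 : Real.sqrt 2 ≤ 3 / 2 := by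
      rw [Real.sqrt_le_left (by norm_num)]
      norm_num
    have e3 : Real.sqrt 2 ^ 3 = 2 * Real.sqrt 2 := by
      rw [pow_succ, e1]
    rw [e3]
    linarith
  have h4 : (∏ α : Fin 3, hk1 0 (2 * s) (crd z α)) = hk (2 * s) z := rfl
  rw [h4]
  have h5 : Real.sqrt 2 ^ 3 * Real.exp (rr y ^ 2 / (4 * s)) ≤ 3 * 1.3 :=
    mul_le_mul h3 h2 (Real.exp_pos _).le (by norm_num)
  refine mul_le_mul_of_nonneg_right (h5.trans (by norm_num)) (hk_nonneg _ _)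

theorem H3_theta {l : ℝ} {θ₁ θ₂ : T3 → ℝ} {θ₁' θ₂' : Fin 3 → T3 → ℝ}
    (hL : Loc2 l θ₁ θ₂ θ₁' θ₂') : BM θ₁ := by
  refine BM.of_mem_Icc (hL.wd1 0).sm.measurable (a := 0) (b := 1) fun x => ⟨hL.nonneg x, ?_⟩
  have h1 := hL.sum x
  nlinarith [sq_nonneg (θ₂ x), hL.nonneg x]

theorem H3_hk {s : ℝ} (hs : 0 < s) : BM (hk s) :=
  BM.of_mem_Icc (hkD_continuous 0 hs).measurable fun x => ⟨hk_nonneg s x, hk_le hs x⟩

/-- tangent line inequality -/
theorem H3_tangent (p : ℕ) {t m : ℝ} (ht : 0 ≤ t) (hm : 0 ≤ m) :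
    m ^ (p + 1) + (p + 1) * m ^ p * (t - m) ≤ t ^ (p + 1) := by
  induction p with
  | zero => simp
  | succ p ih =>
    have h1 := mul_le_mul_of_nonneg_left ih ht
    have h2 : 0 ≤ ((p : ℝ) + 1) * m ^ p * (t - m) ^ 2 := by positivity
    have h3 : t * (m ^ (p + 1) + (p + 1) * m ^ p * (t - m)) =
        m ^ (p + 1 + 1) + ((p : ℝ) + 1 + 1) * m ^ (p + 1) * (t - m)
          + ((p : ℝ) + 1) * m ^ p * (t - m) ^ 2 := by
      ring
    have h4 : t ^ (p + 1 + 1) = t * t ^ (p + 1) := by ring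
    rw [h4]
    push_cast
    linarith

/-- Jensen's inequality for powers, probability density `k`. -/
theorem H3_jensen {k g : T3 → ℝ} (hk0 : ∀ z, 0 ≤ k z) (hkB : BM k) (hk1 : ∫ z, k z ∂lam3 = 1)
    (hg0 : ∀ z, 0 ≤ g z) (hg : BM g) (p : ℕ) :
    (∫ z, k z * g z ∂lam3) ^ p ≤ ∫ z, k z * g z ^ p ∂lam3 := by
  cases p with
  | zero => simp [hk1]
  | succ p =>
    set m : ℝ := ∫ z, k z * g z ∂lam3 with hm
    have hm0 : 0 ≤ m := integral_nonneg fun z => mul_nonneg (hk0 z) (hg0 z)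
    have h1 : ∫ z, (m ^ (p + 1) * k z + ((p + 1) * m ^ p) * (k z * g z - m * k z)) ∂lam3 ≤
        ∫ z, k z * g z ^ (p + 1) ∂lam3 := by
      refine integral_mono_ae ?_ ((hkB.mul (hg.pow (p + 1))).integrable lam3)
        (Eventually.of_forall fun z => ?_)
      · exact ((hkB.const_mul _).add (((hkB.mul hg).sub (hkB.const_mul m)).const_mul _)).integrable
          lam3
      · have h2 := mul_le_mul_of_nonneg_left (H3_tangent p (hg0 z) hm0) (hk0 z)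
        simp only
        linarith
    have h3 : ∫ z, (m ^ (p + 1) * k z + ((p + 1) * m ^ p) * (k z * g z - m * k z)) ∂lam3 =
        m ^ (p + 1) := by
      rw [integral_add ((hkB.const_mul _).integrable lam3)
        ((((hkB.mul hg).sub (hkB.const_mul m)).const_mul _).integrable lam3),
        integral_const_mul, integral_const_mul,
        integral_sub ((hkB.mul hg).integrable lam3) ((hkB.const_mul m).integrable lam3),
        integral_const_mul, hk1, ← hm]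
      ring
    rw [h3] at h1
    exact h1

theorem hk_loc {l : ℝ} (hl : 0 < l) (hl8 : l ≤ 1 / 8) {θ₁ θ₂ : T3 → ℝ} {θ₁' θ₂' : Fin 3 → T3 → ℝ}
    (hL : Loc2 l θ₁ θ₂ θ₁' θ₂') (y : T3) :
    hk (2 * l ^ 2) y ≤ (l⁻¹) ^ 3 * ∫ z, hk (4 * l ^ 2) (y - z) * θ₁ z ^ 2 ∂lam3 := by
  have hpi := Real.pi_gt_three
  have h2l : 0 < 2 * l ^ 2 := by positivity
  have h4l : 0 < 4 * l ^ 2 := by positivity
  have hT := H3_theta hL
  have hK := H3_hk h4l
  have hB : BM (fun z : T3 => hk (4 * l ^ 2) (y - z) * θ₁ z ^ 2) :=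
    (hK.comp (measurable_const.sub measurable_id)).mul (hT.pow 2)
  have hm : MeasurableSet {z : T3 | rr z ≤ l} := rr_measurable measurableSet_Iic
  have hI : BM ({z : T3 | rr z ≤ l}.indicator (fun _ => (1 : ℝ))) := by
    refine BM.of_mem_Icc (measurable_const.indicator hm) (a := 0) (b := 1) fun z => ?_
    by_cases hz : z ∈ {z : T3 | rr z ≤ l}
    · rw [Set.indicator_of_mem hz]; norm_num
    · rw [Set.indicator_of_notMem hz]; norm_num
  have h1 : ∫ z, hk (2 * l ^ 2) y * {z : T3 | rr z ≤ l}.indicator (fun _ => (1 : ℝ)) z ∂lam3 ≤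
      ∫ z, 4 * (hk (4 * l ^ 2) (y - z) * θ₁ z ^ 2) ∂lam3 := by
    refine integral_mono_ae ((hI.const_mul _).integrable lam3) ((hB.const_mul 4).integrable lam3)
      (Eventually.of_forall fun z => ?_)
    simp only
    by_cases hz : z ∈ {z : T3 | rr z ≤ l}
    · have hz' : rr z ≤ l := hz
      rw [Set.indicator_of_mem hz, mul_one, hL.one z hz', one_pow, mul_one]
      have e1 : rr z ^ 2 ≤ 2 * l ^ 2 := by
        have := pow_le_pow_left₀ (rr_nonneg z) hz' 2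
        nlinarith [sq_nonneg l]
      have e2 := hk_shift h2l e1 (y - z)
      rw [sub_add_cancel, show 2 * (2 * l ^ 2) = 4 * l ^ 2 by ring] at e2
      exact e2
    · rw [Set.indicator_of_notMem hz, mul_zero]
      exact mul_nonneg (by norm_num) (mul_nonneg (hk_nonneg _ _) (sq_nonneg _))
  rw [integral_const_mul, integral_const_mul, ball_vol hl (by linarith), H3_sig] at h1
  set J : ℝ := ∫ z, hk (4 * l ^ 2) (y - z) * θ₁ z ^ 2 ∂lam3 with hJ
  have hJ0 : 0 ≤ J := integral_nonneg fun z => mul_nonneg (hk_nonneg _ _) (sq_nonneg _)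
  have hk0 := hk_nonneg (2 * l ^ 2) y
  have hl3 : 0 < l ^ 3 := by positivity
  have h2 : hk (2 * l ^ 2) y * l ^ 3 ≤ J := by
    have e1 : hk (2 * l ^ 2) y * (4 * Real.pi / 3 * l ^ 3) =
        (4 * Real.pi / 3) * (hk (2 * l ^ 2) y * l ^ 3) := by ring
    rw [e1] at h1
    have e2 : 0 ≤ hk (2 * l ^ 2) y * l ^ 3 := by positivity
    nlinarith
  have h3 : (l⁻¹) ^ 3 * (hk (2 * l ^ 2) y * l ^ 3) = hk (2 * l ^ 2) y := by
    field_simp
  rw [← h3]
  exact mul_le_mul_of_nonneg_left h2 (by positivity)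

theorem jensen_loc {l : ℝ} (hl : 0 < l) (hl8 : l ≤ 1 / 8) {θ₁ θ₂ : T3 → ℝ} {θ₁' θ₂' : Fin 3 → T3 → ℝ}
    (hL : Loc2 l θ₁ θ₂ θ₁' θ₂') (p : ℕ) (x : ι → T3) :
    ∫ y, (∑ i, hk (2 * l ^ 2) (y - x i)) ^ p ∂lam3
      ≤ ((l⁻¹) ^ 3) ^ p * ∫ y, nTh θ₁ y x ^ p ∂lam3 := by
  have h2l : 0 < 2 * l ^ 2 := by positivity
  have h4l : 0 < 4 * l ^ 2 := by positivity
  have hT := H3_theta hL
  have hK := H3_hk h4l
  have hK2 := H3_hk h2l
  have hN : BM (fun y : T3 => nTh θ₁ y x) := by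
    unfold nTh
    exact BM.finset_sum _ fun i _ => (hT.comp (measurable_const.sub measurable_id)).pow 2
  have hN0 : ∀ y : T3, 0 ≤ nTh θ₁ y x := fun y => Finset.sum_nonneg fun i _ => sq_nonneg _
  -- comparison
  have h1 : ∀ y : T3, ∑ i, hk (2 * l ^ 2) (y - x i) ≤
      (l⁻¹) ^ 3 * ∫ z, hk (4 * l ^ 2) z * nTh θ₁ (y + z) x ∂lam3 := by
    intro y
    have e1 : ∀ i, hk (2 * l ^ 2) (y - x i) ≤
        (l⁻¹) ^ 3 * ∫ z, hk (4 * l ^ 2) z * θ₁ (x i - (y + z)) ^ 2 ∂lam3 := by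
      intro i
      have e2 := hk_loc hl hl8 hL (x i - y)
      have e3 : hk (2 * l ^ 2) (y - x i) = hk (2 * l ^ 2) (x i - y) := by
        rw [← hk_neg, neg_sub]
      have e4 := integral_sub_left_eq_self
        (fun z : T3 => hk (4 * l ^ 2) (x i - y - z) * θ₁ z ^ 2) lam3 (x i - y)
      have e5 : ∀ z : T3, hk (4 * l ^ 2) (x i - y - (x i - y - z)) * θ₁ (x i - y - z) ^ 2 =
          hk (4 * l ^ 2) z * θ₁ (x i - (y + z)) ^ 2 := by
        intro z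
        rw [sub_sub_cancel, sub_sub (x i) y z]
      simp only [e5] at e4
      rw [e3, e4]
      exact e2
    refine (Finset.sum_le_sum fun i _ => e1 i).trans (le_of_eq ?_)
    rw [← Finset.mul_sum, ← integral_finsetSum]
    · congr 1
      refine integral_congr_ae (Eventually.of_forall fun z => ?_)
      simp only [nTh]
      rw [Finset.mul_sum]
    · intro i _
      exact (hK.mul ((hT.comp (measurable_const.sub (measurable_const.add measurable_id))).pow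
        2)).integrable lam3
  have h2 : ∀ y : T3, (∑ i, hk (2 * l ^ 2) (y - x i)) ^ p ≤
      ((l⁻¹) ^ 3) ^ p * ∫ z, hk (4 * l ^ 2) z * nTh θ₁ (y + z) x ^ p ∂lam3 := by
    intro y
    have e1 := pow_le_pow_left₀ (Finset.sum_nonneg fun i _ => hk_nonneg (2 * l ^ 2) (y - x i))
      (h1 y) p
    rw [mul_pow] at e1
    refine e1.trans (mul_le_mul_of_nonneg_left ?_ (by positivity))
    exact H3_jensen (fun z => hk_nonneg _ z) hK (hk_integral h4l) (fun z => hN0 (y + z))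
      (hN.comp (measurable_const.add measurable_id)) p
  have hBN : BM (uncurry fun (y z : T3) => hk (4 * l ^ 2) z * nTh θ₁ (y + z) x ^ p) :=
    (hK.comp measurable_snd).mul ((hN.comp (measurable_fst.add measurable_snd)).pow p)
  have h3 : ∫ y, (∑ i, hk (2 * l ^ 2) (y - x i)) ^ p ∂lam3 ≤
      ∫ y, ((l⁻¹) ^ 3) ^ p * ∫ z, hk (4 * l ^ 2) z * nTh θ₁ (y + z) x ^ p ∂lam3 ∂lam3 := by
    refine integral_mono_ae ?_ ((hBN.integral_right lam3).const_mul _ |>.integrable lam3)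
      (Eventually.of_forall h2)
    exact ((BM.finset_sum _ fun i _ =>
      (hK2.comp (measurable_id.sub measurable_const))).pow p).integrable lam3
  refine h3.trans (le_of_eq ?_)
  rw [integral_const_mul]
  congr 1
  rw [integral_integral_swap (hBN.integrable (lam3.prod lam3))]
  have h4 : ∀ z : T3, ∫ y, hk (4 * l ^ 2) z * nTh θ₁ (y + z) x ^ p ∂lam3 =
      (∫ y, nTh θ₁ y x ^ p ∂lam3) * hk (4 * l ^ 2) z := by
    intro z
    rw [integral_const_mul, integral_add_right_eq_self (μ := lam3) (fun y => nTh θ₁ y x ^ p) z,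
      mul_comm]
  simp only [h4]
  rw [integral_const_mul, hk_integral h4l, mul_one]

end Pool.Agent.Lib.MP_4952d6_mp.LA

end

/-! ### LA.H4 -/

section

/-!
# JOB LA-H4: moments of the heat kernel number

`moments` gives `Xm θ₁ ψ (2q+1) ≤ C Y⁻^(2q+1)`, `jensen_loc` integrated against `‖ψ‖²` (Fubini): `∫∫ S^(2q+1) ‖ψ‖² ≤ (l⁻³)^(2q+1) C Y⁻^(2q+1) = C (l³ Y)⁻^(2q+1) = C N^(2q+1)`
because `l³ Y = a³/Y² = 1/N`.  For general `p` take `q = p`: `S^p ≤ N^p (1 + (S/N)^(2p+1))` pointwise.  `exists_Loc2`.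
The hypotheses of `moments` are repeated in the structure `Par` (parameters), which is also used in the following files.
-/

set_option autoImplicit false
set_option linter.unusedSectionVars false
set_option linter.unusedVariables false
open MeasureTheory Function Filter Topology Set ComplexConjugate
open scoped ENNReal

namespace Pool.Agent.Lib.MP_4952d6_mp.LA

variable {ι : Type*} [Fintype ι] [DecidableEq ι]

/-- all parameters and hypotheses on the interaction -/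
structure Par (θ cw Kμ Y l R a : ℝ) (w : ℝ → ℝ) (N : ℕ) (R₀ : ℝ) (𝒱 : T3 → ℝ≥0∞) : Prop where
  a_pos : 0 < a
  a_le : a ≤ R
  R_le : R ≤ θ * a
  l_eq : l = a / Y
  l_le : l ≤ 1 / 8
  N_eq : (N : ℝ) * a ^ 3 = Y ^ 2
  w_meas : Measurable w
  w_nonneg : ∀ t, 0 ≤ w t
  w_le : ∀ t, w t ≤ (R⁻¹) ^ 2
  w_zero : ∀ t, R ≤ t → w t = 0
  w_int : cw * R ≤ sig * ∫ t in Ioi (0:ℝ), t ^ 2 * w t
  w_V : ∀ᵐ z ∂lam3, R₀ ≤ rr z → ENNReal.ofReal (w (rr z)) ≤ 𝒱 z

theorem H4_int {F : T3 × (ι → T3) → ℝ} (hF : BM F) {ρ : (ι → T3) → ℝ}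
    (hρ : Integrable ρ (piN ι)) :
    Integrable (fun p : T3 × (ι → T3) => F p * ρ p.2) (lam3.prod (piN ι)) := by
  obtain ⟨C, hC⟩ := hF.bdd
  exact (hρ.comp_snd lam3).bdd_mul hF.meas.aestronglyMeasurable
    (Filter.Eventually.of_forall fun p => by rw [Real.norm_eq_abs]; exact hC p)

theorem H4_hk_bm {s : ℝ} (hs : 0 < s) : BM (hk s) :=
  BM.of_mem_Icc (hkD_continuous 0 hs).measurable (a := 0) (b := hk s 0)
    fun x => ⟨hk_nonneg s x, hk_le_zero hs x⟩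

theorem H4_S_bm {s : ℝ} (hs : 0 < s) :
    BM (fun p : T3 × (ι → T3) => ∑ i, hk s (p.1 - p.2 i)) :=
  BM.finset_sum _ fun i _ => (H4_hk_bm hs).comp
    (measurable_fst.sub ((measurable_pi_apply i).comp measurable_snd))

theorem H4_pow_le {t : ℝ} (ht : 0 ≤ t) (p : ℕ) : t ^ p ≤ 1 + t ^ (2 * p + 1) := by
  rcases le_total t 1 with h | h
  · have h1 : t ^ p ≤ 1 := pow_le_one₀ ht h
    have h2 : 0 ≤ t ^ (2 * p + 1) := pow_nonneg ht _
    linarith
  · have h1 : t ^ p ≤ t ^ (2 * p + 1) := pow_le_pow_right₀ h (by omega)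
    linarith

theorem hk_moments (θ cw Kμ : ℝ) (hθ : 1 ≤ θ) (hcw : 0 < cw) (hKμ : 0 ≤ Kμ) (p : ℕ) :
    ∃ C Y0 : ℝ, 0 < C ∧ 0 < Y0 ∧ ∀ Y : ℝ, 0 < Y → Y < Y0 → ∀ (l R a : ℝ) (w : ℝ → ℝ)
      (N : ℕ) (R₀ e : ℝ) (𝒱 : T3 → ℝ≥0∞) (ψ : (Fin N → T3) → ℂ)
      (g : Fin N → Fin 3 → (Fin N → T3) → ℂ), Par θ cw Kμ Y l R a w N R₀ 𝒱 →
      Mini R₀ 𝒱 (Kμ / l ^ 2) e ψ g →
      ∫ y, ∫ x, (∑ i, hk (2 * l ^ 2) (y - x i)) ^ p * ‖ψ x‖ ^ 2 ∂(piN (Fin N)) ∂lam3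
        ≤ C * (N : ℝ) ^ p := by
  obtain ⟨C, Y0, hC, hY0, hmom⟩ := moments θ cw Kμ hθ hcw hKμ p
  refine ⟨1 + C, Y0, by linarith, hY0, ?_⟩
  intro Y hY hYY l R a w N R₀ e 𝒱 ψ g hP hM
  have ha := hP.a_pos
  have hl : 0 < l := by rw [hP.l_eq]; exact div_pos ha hY
  have hs : (0:ℝ) < 2 * l ^ 2 := by positivity
  obtain ⟨θ₁, θ₂, θ₁', θ₂', hL⟩ := exists_Loc2 hl hP.l_le
  have hX := hmom Y hY hYY l R a ha hP.a_le hP.R_le hP.l_eq hP.l_le w hP.w_meas hP.w_nonneg hP.w_le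
    hP.w_zero hP.w_int N R₀ e 𝒱 ψ g hM hP.w_V θ₁ θ₂ θ₁' θ₂' hL
  set P : ℕ := 2 * p + 1 with hPdef
  set ρ : (Fin N → T3) → ℝ := fun x => ‖ψ x‖ ^ 2 with hρdef
  have hρ0 : ∀ x, 0 ≤ ρ x := fun x => by positivity
  have hρi : Integrable ρ (piN (Fin N)) := hM.fe.hg.mem.integrable_norm_pow (by norm_num)
  have hρ1 : ∫ x, ρ x ∂(piN (Fin N)) = 1 := hM.nrm
  have hSb : BM (fun q : T3 × (Fin N → T3) => ∑ i, hk (2 * l ^ 2) (q.1 - q.2 i)) := H4_S_bm hs
  obtain ⟨hnb, hn0, hn1⟩ := nTh_bm (ι := Fin N) hL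
  have hNpos : (0:ℝ) < N := by
    have h1 : (N : ℝ) * a ^ 3 = Y ^ 2 := hP.N_eq
    have h2 : 0 < Y ^ 2 := by positivity
    rw [← h1] at h2
    exact (pos_iff_pos_of_mul_pos h2).mpr (by positivity)
  have hlN : (l⁻¹) ^ 3 * Y⁻¹ = N := by
    have h1 : (N : ℝ) * a ^ 3 = Y ^ 2 := hP.N_eq
    rw [hP.l_eq]
    have : (N : ℝ) = Y ^ 2 / a ^ 3 := by rw [← h1]; field_simp
    rw [this]
    field_simp
  -- the high moment
  have hSP := H4_int (hSb.pow P) hρi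
  have hNP := H4_int (hnb.pow P) hρi
  have hkey : ∫ y, ∫ x, (∑ i, hk (2 * l ^ 2) (y - x i)) ^ P * ρ x ∂(piN (Fin N)) ∂lam3
      ≤ C * (N : ℝ) ^ P := by
    have e1 : ∫ y, ∫ x, (∑ i, hk (2 * l ^ 2) (y - x i)) ^ P * ρ x ∂(piN (Fin N)) ∂lam3
        = ∫ x, (∫ y, (∑ i, hk (2 * l ^ 2) (y - x i)) ^ P ∂lam3) * ρ x ∂(piN (Fin N)) := by
      rw [integral_integral_swap hSP]
      refine integral_congr_ae (Filter.Eventually.of_forall fun x => ?_)
      exact integral_mul_const _ _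
    have e2 : Xm θ₁ ψ P = ∫ x, (∫ y, nTh θ₁ y x ^ P ∂lam3) * ρ x ∂(piN (Fin N)) := by
      unfold Xm
      rw [integral_integral_swap hNP]
      refine integral_congr_ae (Filter.Eventually.of_forall fun x => ?_)
      exact integral_mul_const _ _
    have i1 : Integrable (fun x => (∫ y, (∑ i, hk (2 * l ^ 2) (y - x i)) ^ P ∂lam3) * ρ x)
        (piN (Fin N)) := by
      have h := hSP.integral_prod_right
      refine h.congr (Filter.Eventually.of_forall fun x => ?_)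
      exact integral_mul_const (ρ x) (fun y => (∑ i, hk (2 * l ^ 2) (y - x i)) ^ P)
    have i2 : Integrable (fun x => (∫ y, nTh θ₁ y x ^ P ∂lam3) * ρ x) (piN (Fin N)) := by
      have h := hNP.integral_prod_right
      refine h.congr (Filter.Eventually.of_forall fun x => ?_)
      exact integral_mul_const (ρ x) (fun y => nTh θ₁ y x ^ P)
    rw [e1]
    calc ∫ x, (∫ y, (∑ i, hk (2 * l ^ 2) (y - x i)) ^ P ∂lam3) * ρ x ∂(piN (Fin N))
        ≤ ∫ x, ((l⁻¹) ^ 3) ^ P * ((∫ y, nTh θ₁ y x ^ P ∂lam3) * ρ x) ∂(piN (Fin N)) := by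
          refine integral_mono i1 (i2.const_mul _) fun x => ?_
          have h := mul_le_mul_of_nonneg_right (jensen_loc hl hP.l_le hL P x) (hρ0 x)
          simpa only [mul_assoc] using h
      _ = ((l⁻¹) ^ 3) ^ P * Xm θ₁ ψ P := by rw [integral_const_mul, ← e2]
      _ ≤ ((l⁻¹) ^ 3) ^ P * (C * (Y⁻¹) ^ P) :=
          mul_le_mul_of_nonneg_left hX (by positivity)
      _ = C * ((l⁻¹) ^ 3 * Y⁻¹) ^ P := by rw [mul_pow]; ring
      _ = C * (N : ℝ) ^ P := by rw [hlN]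
  -- interpolation
  have hSp := H4_int (hSb.pow p) hρi
  have hpt : ∀ (y : T3) (x : Fin N → T3), (∑ i, hk (2 * l ^ 2) (y - x i)) ^ p * ρ x
      ≤ (N : ℝ) ^ p * ρ x
        + (N : ℝ) ^ p * ((N : ℝ)⁻¹) ^ P * ((∑ i, hk (2 * l ^ 2) (y - x i)) ^ P * ρ x) := by
    intro y x
    set S := ∑ i, hk (2 * l ^ 2) (y - x i) with hS
    have hS0 : 0 ≤ S := Finset.sum_nonneg fun i _ => hk_nonneg _ _
    have h1 := H4_pow_le (t := (N : ℝ)⁻¹ * S) (by positivity) p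
    have h2 : S ^ p = (N : ℝ) ^ p * ((N : ℝ)⁻¹ * S) ^ p := by
      rw [← mul_pow, mul_inv_cancel_left₀ hNpos.ne']
    have h3 : S ^ p ≤ (N : ℝ) ^ p * (1 + ((N : ℝ)⁻¹ * S) ^ P) := by
      rw [h2]; exact mul_le_mul_of_nonneg_left h1 (by positivity)
    calc S ^ p * ρ x ≤ ((N : ℝ) ^ p * (1 + ((N : ℝ)⁻¹ * S) ^ P)) * ρ x :=
          mul_le_mul_of_nonneg_right h3 (hρ0 x)
      _ = _ := by rw [mul_pow]; ring
  have j1 : Integrable (fun y => ∫ x, (∑ i, hk (2 * l ^ 2) (y - x i)) ^ p * ρ x ∂(piN (Fin N)))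
      lam3 := hSp.integral_prod_left
  have j2 : Integrable (fun y => ∫ x, (∑ i, hk (2 * l ^ 2) (y - x i)) ^ P * ρ x ∂(piN (Fin N)))
      lam3 := hSP.integral_prod_left
  have hstep : ∀ᵐ y ∂lam3, ∫ x, (∑ i, hk (2 * l ^ 2) (y - x i)) ^ p * ρ x ∂(piN (Fin N))
      ≤ (N : ℝ) ^ p + (N : ℝ) ^ p * ((N : ℝ)⁻¹) ^ P
          * ∫ x, (∑ i, hk (2 * l ^ 2) (y - x i)) ^ P * ρ x ∂(piN (Fin N)) := by
    filter_upwards [hSp.prod_right_ae, hSP.prod_right_ae] with y k1 k2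
    have := integral_mono k1 ((hρi.const_mul ((N : ℝ) ^ p)).add
      (k2.const_mul ((N : ℝ) ^ p * ((N : ℝ)⁻¹) ^ P))) (hpt y)
    refine this.trans (le_of_eq ?_)
    have h3 := integral_add (hρi.const_mul ((N : ℝ) ^ p))
      (k2.const_mul ((N : ℝ) ^ p * ((N : ℝ)⁻¹) ^ P))
    simp only [Pi.add_apply] at h3 ⊢
    rw [h3, integral_const_mul, integral_const_mul, hρ1, mul_one]
  calc ∫ y, ∫ x, (∑ i, hk (2 * l ^ 2) (y - x i)) ^ p * ‖ψ x‖ ^ 2 ∂(piN (Fin N)) ∂lam3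
      ≤ ∫ y, ((N : ℝ) ^ p + (N : ℝ) ^ p * ((N : ℝ)⁻¹) ^ P
          * ∫ x, (∑ i, hk (2 * l ^ 2) (y - x i)) ^ P * ρ x ∂(piN (Fin N))) ∂lam3 :=
        integral_mono_ae j1 ((integrable_const _).add (j2.const_mul _)) hstep
    _ = (N : ℝ) ^ p + (N : ℝ) ^ p * ((N : ℝ)⁻¹) ^ P
          * ∫ y, ∫ x, (∑ i, hk (2 * l ^ 2) (y - x i)) ^ P * ρ x ∂(piN (Fin N)) ∂lam3 := by
        rw [integral_add (integrable_const _) (j2.const_mul _), integral_const_mul]
        simp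
    _ ≤ (N : ℝ) ^ p + (N : ℝ) ^ p * ((N : ℝ)⁻¹) ^ P * (C * (N : ℝ) ^ P) := by
        gcongr
    _ = (1 + C) * (N : ℝ) ^ p := by
        have : ((N : ℝ)⁻¹) ^ P * (N : ℝ) ^ P = 1 := by
          rw [← mul_pow, inv_mul_cancel₀ hNpos.ne', one_pow]
        linear_combination (N : ℝ) ^ p * C * this

end Pool.Agent.Lib.MP_4952d6_mp.LA

end

/-! ### LA.G1 -/

section

/-!
# JOB LA-G1: products of heat kernels

`hk (r i) (y - x i) = hk (r i) (x i - y)` (`hk_neg`), `hk_WD`, `dhk_WD` composed with the measure preserving maps `x ↦ x i - y` (`WD.comp`: `(x + tauN i α t) i - y = (x i - y) + tau α t`),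
the other factors are invariant (`WD.of_invariant`), `WD.mul`/`WD.finset_prod`, `WD.congr`.
* `ZT_deriv`: `hk_hasDerivAt_time`, `HasDerivAt.finset_prod`, `ddhk_neg`; `∑ᵢ ∑_α ZTgg = ∑_{i∈T} (∑_α ddhk α α) ∏_{T.erase i} hk`.
* `ZT_bd`: `hk_le`, `ddhk_le`.
-/

set_option autoImplicit false
set_option linter.unusedSectionVars false
set_option linter.unusedVariables false
open MeasureTheory Function Filter Topology Set ComplexConjugate
open scoped ENNReal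

namespace Pool.Agent.Lib.MP_4952d6_mp.LA

variable {ι : Type*} [Fintype ι] [DecidableEq ι]

/-- first derivatives of `ZT` -/
noncomputable def ZTg (T : Finset ι) (r : ι → ℝ) (y : T3) (i : ι) (α : Fin 3) (x : ι → T3) : ℝ :=
  if i ∈ T then dhk α (r i) (x i - y) * ∏ j ∈ T.erase i, hk (r j) (y - x j) else 0

/-- second derivatives of `ZT` -/
noncomputable def ZTgg (T : Finset ι) (r : ι → ℝ) (y : T3) (i : ι) (α : Fin 3) (x : ι → T3) : ℝ :=
  if i ∈ T then ddhk α α (r i) (x i - y) * ∏ j ∈ T.erase i, hk (r j) (y - x j) else 0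

/-- the uniform bound -/
noncomputable def G1_b (ε : ℝ) : ℝ := (1 + (Real.sqrt (4 * Real.pi * ε))⁻¹) ^ 3

theorem G1_one_le (ε : ℝ) : 1 ≤ G1_b ε := by
  unfold G1_b
  have h1 : 0 ≤ (Real.sqrt (4 * Real.pi * ε))⁻¹ := inv_nonneg.2 (Real.sqrt_nonneg _)
  exact one_le_pow₀ (by linarith)

theorem G1_hk {ε s : ℝ} (hε : 0 < ε) (hs : ε ≤ s) (x : T3) : hk s x ≤ G1_b ε := by
  refine (hk_le (hε.trans_le hs) x).trans ?_
  unfold G1_b
  have h1 : (Real.sqrt (4 * Real.pi * s))⁻¹ ≤ (Real.sqrt (4 * Real.pi * ε))⁻¹ := by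
    apply inv_anti₀
    · exact Real.sqrt_pos.2 (by positivity)
    · exact Real.sqrt_le_sqrt (by gcongr)
  gcongr

theorem G1_cont {S : Finset ι} {r : ι → ℝ} (hr : ∀ j ∈ S, 0 < r j) (y : T3) :
    Continuous (fun x : ι → T3 => ∏ j ∈ S, hk (r j) (y - x j)) := by
  refine continuous_finsetProd _ fun j hj => ?_
  have h1 : Continuous (hk (r j)) := hkD_continuous 0 (hr j hj)
  exact h1.comp (continuous_const.sub (continuous_apply j))

theorem G1_inv {S : Finset ι} {r : ι → ℝ} (hr : ∀ j ∈ S, 0 < r j) (y : T3) {i : ι} (hi : i ∉ S) (α : Fin 3) :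
    WD (piN ι) (tauN i α) (fun x : ι → T3 => ∏ j ∈ S, hk (r j) (y - x j)) (fun _ => 0) := by
  refine WD.of_invariant (tauN_zero i α) (G1_cont hr y).stronglyMeasurable ⟨∏ j ∈ S, G1_b (r j), fun x => ?_⟩
    (fun x t => ?_)
  · rw [norm_prod]
    refine Finset.prod_le_prod (fun _ _ => norm_nonneg _) fun j hj => ?_
    rw [Real.norm_eq_abs, abs_of_nonneg (hk_nonneg _ _)]
    exact G1_hk (hr j hj) le_rfl _
  · refine Finset.prod_congr rfl fun j hj => ?_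
    have hji : j ≠ i := fun h => hi (h ▸ hj)
    rw [Pi.add_apply, tauN, Pi.single_eq_of_ne hji, add_zero]

theorem G1_mp (y : T3) (i : ι) : MeasurePreserving (fun x : ι → T3 => x i - y) (piN ι) lam3 := by
  have h1 : MeasurePreserving (Function.eval i) (piN ι) lam3 := measurePreserving_eval (μ := fun _ : ι => lam3) i
  exact (measurePreserving_sub_right lam3 y).comp h1

theorem G1_comp {Φ Φ' : T3 → ℝ} {α : Fin 3} (h : WD lam3 (tau α) Φ Φ') (y : T3) (i : ι) :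
    WD (piN ι) (tauN i α) (fun x : ι → T3 => Φ (x i - y)) (fun x => Φ' (x i - y)) := by
  refine h.comp (tauN_zero i α) (G1_mp y i) (fun x t => ?_)
  rw [Pi.add_apply, tauN, Pi.single_eq_same]
  abel

theorem G1_hk_neg (s : ℝ) (u y : T3) : hk s (u - y) = hk s (y - u) := by
  rw [← neg_sub, hk_neg]

theorem ZT_WDN {T : Finset ι} {r : ι → ℝ} (hr : ∀ i ∈ T, 0 < r i) (y : T3) :
    WDN (ZT T r y) (ZTg T r y) := by
  intro i α
  by_cases hi : i ∈ T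
  · have hr' : ∀ j ∈ T.erase i, 0 < r j := fun j hj => hr j (Finset.mem_of_mem_erase hj)
    have h1 := (G1_comp (hk_WD α (hr i hi)) y i).mul (G1_inv hr' y (Finset.notMem_erase i T) α)
    have e1 : ZT T r y = fun x : ι → T3 => hk (r i) (x i - y) * ∏ j ∈ T.erase i, hk (r j) (y - x j) := by
      funext x
      unfold ZT
      rw [G1_hk_neg, Finset.mul_prod_erase T (fun j => hk (r j) (y - x j)) hi]
    have e2 : ZTg T r y i α = fun x : ι → T3 => dhk α (r i) (x i - y) * ∏ j ∈ T.erase i, hk (r j) (y - x j)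
        + hk (r i) (x i - y) * 0 := by
      funext x
      unfold ZTg
      rw [if_pos hi, mul_zero, add_zero]
    rw [e1, e2]
    exact h1
  · have h1 := G1_inv hr y hi α
    have e2 : ZTg T r y i α = fun _ : ι → T3 => 0 := by
      funext x
      unfold ZTg
      rw [if_neg hi]
    rw [e2]
    exact h1

theorem ZTg_WD {T : Finset ι} {r : ι → ℝ} (hr : ∀ i ∈ T, 0 < r i) (y : T3) (i : ι) (α : Fin 3) :
    WD (piN ι) (tauN i α) (ZTg T r y i α) (ZTgg T r y i α) := by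
  by_cases hi : i ∈ T
  · have hr' : ∀ j ∈ T.erase i, 0 < r j := fun j hj => hr j (Finset.mem_of_mem_erase hj)
    have h1 := (G1_comp (dhk_WD α α (hr i hi)) y i).mul (G1_inv hr' y (Finset.notMem_erase i T) α)
    have e1 : ZTg T r y i α = fun x : ι → T3 => dhk α (r i) (x i - y) * ∏ j ∈ T.erase i, hk (r j) (y - x j) := by
      funext x
      unfold ZTg
      rw [if_pos hi]
    have e2 : ZTgg T r y i α = fun x : ι → T3 => ddhk α α (r i) (x i - y) * ∏ j ∈ T.erase i, hk (r j) (y - x j)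
        + dhk α (r i) (x i - y) * 0 := by
      funext x
      unfold ZTgg
      rw [if_pos hi, mul_zero, add_zero]
    rw [e1, e2]
    exact h1
  · have e1 : ZTg T r y i α = fun _ : ι → T3 => 0 := by
      funext x
      unfold ZTg
      rw [if_neg hi]
    have e2 : ZTgg T r y i α = fun _ : ι → T3 => 0 := by
      funext x
      unfold ZTgg
      rw [if_neg hi]
    rw [e1, e2]
    exact WD.of_invariant (tauN_zero i α) stronglyMeasurable_const ⟨0, fun _ => by simp⟩ fun _ _ => rfl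

theorem ZT_deriv {T : Finset ι} {r : ι → ℝ} (y : T3) (x : ι → T3) {τ : ℝ}
    (hr : ∀ i ∈ T, 0 < r i + τ) :
    HasDerivAt (fun t => ZT T (fun i => r i + t) y x) (∑ i, ∑ α, ZTgg T (fun i => r i + τ) y i α x) τ := by
  have h := HasDerivAt.fun_finsetProd (u := T)
    (f := fun i t => hk (r i + t) (y - x i)) (f' := fun i => ∑ α, ddhk α α (r i + τ) (y - x i)) (x := τ)
    (fun i hi => (hk_hasDerivAt_time (hr i hi) (y - x i)).comp_const_add (r i) τ)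
  refine h.congr_deriv ?_
  rw [← Finset.sum_subset (Finset.subset_univ T) (f := fun i => ∑ α, ZTgg T (fun i => r i + τ) y i α x)]
  · refine Finset.sum_congr rfl fun i hi => ?_
    rw [smul_eq_mul, mul_comm, Finset.sum_mul]
    refine Finset.sum_congr rfl fun α _ => ?_
    unfold ZTgg
    rw [if_pos hi, ← neg_sub y (x i), ddhk_neg]
  · intro i _ hi
    refine Finset.sum_eq_zero fun α _ => ?_
    unfold ZTgg
    rw [if_neg hi]

/-- bounds uniform in the times `≥ ε` -/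
theorem ZT_bd (T : Finset ι) {ε : ℝ} (hε : 0 < ε) : ∃ C : ℝ, ∀ r : ι → ℝ, (∀ i ∈ T, ε ≤ r i) →
    ∀ (y : T3) (x : ι → T3), |ZT T r y x| ≤ C ∧ |∑ i, ∑ α, ZTgg T r y i α x| ≤ C := by
  have hB := G1_one_le ε
  have hB0 : 0 ≤ G1_b ε := by linarith
  have hprod : ∀ r : ι → ℝ, (∀ i ∈ T, ε ≤ r i) → ∀ (y : T3) (x : ι → T3) (S : Finset ι), S ⊆ T →
      |∏ j ∈ S, hk (r j) (y - x j)| ≤ G1_b ε ^ T.card := by
    intro r hr y x S hS
    rw [Finset.abs_prod]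
    calc ∏ j ∈ S, |hk (r j) (y - x j)| ≤ ∏ j ∈ S, G1_b ε := by
          refine Finset.prod_le_prod (fun _ _ => abs_nonneg _) fun j hj => ?_
          rw [abs_of_nonneg (hk_nonneg _ _)]
          exact G1_hk hε (hr j (hS hj)) _
      _ = G1_b ε ^ S.card := Finset.prod_const _
      _ ≤ G1_b ε ^ T.card := pow_le_pow_right₀ hB (Finset.card_le_card hS)
  have hdd : ∀ r : ι → ℝ, (∀ i ∈ T, ε ≤ r i) → ∀ (y : T3) (x : ι → T3) (i : ι) (α : Fin 3),
      |ZTgg T r y i α x| ≤ 6 / ε * G1_b ε * G1_b ε ^ T.card := by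
    intro r hr y x i α
    unfold ZTgg
    by_cases hi : i ∈ T
    · rw [if_pos hi, abs_mul]
      have h1 : |ddhk α α (r i) (x i - y)| ≤ 6 / ε * G1_b ε := by
        have h2 : 0 < r i := hε.trans_le (hr i hi)
        refine (ddhk_le α α h2 _).trans ?_
        have h3 : 6 / r i ≤ 6 / ε := div_le_div_of_nonneg_left (by norm_num) hε (hr i hi)
        exact mul_le_mul h3 (G1_hk hε (by linarith [hr i hi]) _) (hk_nonneg _ _) (by positivity)
      exact mul_le_mul h1 (hprod r hr y x _ (Finset.erase_subset i T)) (abs_nonneg _) (by positivity)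
    · rw [if_neg hi, abs_zero]
      positivity
  refine ⟨G1_b ε ^ T.card + ∑ _i : ι, ∑ _α : Fin 3, 6 / ε * G1_b ε * G1_b ε ^ T.card, fun r hr y x => ⟨?_, ?_⟩⟩
  · have h1 : 0 ≤ ∑ _i : ι, ∑ _α : Fin 3, 6 / ε * G1_b ε * G1_b ε ^ T.card :=
      Finset.sum_nonneg fun _ _ => Finset.sum_nonneg fun _ _ => by positivity
    have h2 := hprod r hr y x T (Finset.Subset.refl T)
    unfold ZT
    linarith
  · have h1 : 0 ≤ G1_b ε ^ T.card := by positivity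
    have h2 : |∑ i, ∑ α, ZTgg T r y i α x| ≤ ∑ _i : ι, ∑ _α : Fin 3, 6 / ε * G1_b ε * G1_b ε ^ T.card := by
      refine (Finset.abs_sum_le_sum_abs _ _).trans (Finset.sum_le_sum fun i _ => ?_)
      refine (Finset.abs_sum_le_sum_abs _ _).trans (Finset.sum_le_sum fun α _ => ?_)
      exact hdd r hr y x i α
    linarith

theorem ZT_meas (T : Finset ι) : Measurable (fun p : (ι → ℝ) × T3 × (ι → T3) => ZT T p.1 p.2.1 p.2.2) := by
  unfold ZT
  refine Finset.measurable_fun_prod T fun i _ => ?_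
  refine (hkD_measurable 0).comp (Measurable.prodMk ?_ ?_)
  · exact (measurable_pi_apply i).comp measurable_fst
  · exact measurable_sub' (measurable_fst.comp measurable_snd)
      ((measurable_pi_apply i).comp (measurable_snd.comp measurable_snd))

end Pool.Agent.Lib.MP_4952d6_mp.LA

end

/-! ### LA.G2 -/

section

/-!
# JOB LA-G2: heat flow for minimisers

`h τ = ∫ ZT T (r + τ) y ‖ψ‖²`; derivative `h' τ = ∫ (∑ ZTgg) ‖ψ‖²` (`hasDerivAt_integral_of_dominated_loc_of_deriv_le`, `ZT_bd`, `ZT_deriv`) and `heat_ineq` with `Z = ZT T (r + τ) y`,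
`d = |T| μ`, `hE = Mini.chem T`: `-h' ≤ 2 |T| μ h`.  So `exp (2 |T| μ τ) h τ` is nondecreasing on `[0, ∞)` (`monotoneOn_of_deriv_nonneg`).
(`Mini.heq` gives `rE = e = e * ∫ ‖ψ‖²` by `nrm`.)
-/

set_option autoImplicit false
set_option linter.unusedSectionVars false
set_option linter.unusedVariables false
open MeasureTheory Function Filter Topology Set ComplexConjugate
open scoped ENNReal

namespace Pool.Agent.Lib.MP_4952d6_mp.LA

variable {ι : Type*} [Fintype ι] [DecidableEq ι]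

theorem g2_Zmeas (T : Finset ι) (r : ι → ℝ) (y : T3) : Measurable (ZT T r y) := by
  have h1 : Measurable (fun x : ι → T3 => ((y, x) : T3 × (ι → T3))) :=
    Measurable.prodMk measurable_const measurable_id
  have h2 : Measurable (fun x : ι → T3 => ((r, y, x) : (ι → ℝ) × T3 × (ι → T3))) :=
    Measurable.prodMk measurable_const h1
  have h3 := (ZT_meas T).comp h2
  simp only [Function.comp_def] at h3
  exact h3

/-- measurability of the second derivatives -/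
theorem g2_meas (T : Finset ι) (r : ι → ℝ) (y : T3) (i : ι) (α : Fin 3) :
    Measurable (ZTgg T r y i α) := by
  have h1 : Measurable (fun x : ι → T3 => ddhk α α (r i) (x i - y)) :=
    (hkD_measurable (Pi.single α 1 + Pi.single α 1)).comp
      (measurable_const.prodMk ((measurable_pi_apply i).sub measurable_const))
  have h2 : ∀ j : ι, Measurable (fun x : ι → T3 => hk (r j) (y - x j)) := fun j =>
    (hkD_measurable 0).comp
      (measurable_const.prodMk (measurable_const.sub (measurable_pi_apply j)))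
  have h3 : Measurable (fun x : ι → T3 => ∏ j ∈ T.erase i, hk (r j) (y - x j)) :=
    Finset.measurable_prod _ fun j _ => h2 j
  unfold ZTgg
  split_ifs with hi
  · exact h1.mul h3
  · exact measurable_const

theorem g2_eps (T : Finset ι) {r : ι → ℝ} (hr : ∀ i ∈ T, 0 < r i) :
    ∃ ε : ℝ, 0 < ε ∧ ∀ i ∈ T, ε ≤ r i := by
  rcases T.eq_empty_or_nonempty with rfl | hT
  · exact ⟨1, one_pos, fun i hi => absurd hi (Finset.notMem_empty i)⟩
  · obtain ⟨i, hi, h⟩ := T.exists_min_image r hT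
    exact ⟨r i, hr i hi, fun j hj => h j hj⟩

theorem g2_sq_int {ψ : (ι → T3) → ℂ} (h : MemLp ψ 2 (piN ι)) :
    Integrable (fun x => ‖ψ x‖ ^ 2) (piN ι) := by
  have := h.integrable_norm_rpow (by norm_num) (by norm_num)
  refine this.congr (Filter.Eventually.of_forall fun x => ?_)
  simp

/-- derivative of the heat flow -/
theorem g2_deriv {ψ : (ι → T3) → ℂ} (hψ : MemLp ψ 2 (piN ι)) (T : Finset ι) {r : ι → ℝ}
    (hr : ∀ i ∈ T, 0 < r i) (y : T3) {τ : ℝ} (hτ : 0 ≤ τ) :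
    HasDerivAt (fun t => ∫ x, ZT T (fun i => r i + t) y x * ‖ψ x‖ ^ 2 ∂(piN ι))
      (∫ x, (∑ i, ∑ α, ZTgg T (fun i => r i + τ) y i α x) * ‖ψ x‖ ^ 2 ∂(piN ι)) τ := by
  obtain ⟨ε, hε, hεr⟩ := g2_eps T hr
  obtain ⟨C, hC⟩ := ZT_bd T (half_pos hε)
  have hsq := g2_sq_int hψ
  have hm : ∀ t : ℝ, Measurable (fun x => ZT T (fun i => r i + t) y x) := fun t =>
    g2_Zmeas T _ y
  have hbd : ∀ t : ℝ, t ∈ Metric.ball τ (ε / 2) → ∀ i ∈ T, ε / 2 ≤ r i + t := by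
    intro t ht i hi
    rw [Metric.mem_ball, Real.dist_eq, abs_lt] at ht
    have := hεr i hi
    linarith
  have hm2 : ∀ t : ℝ, AEStronglyMeasurable
      (fun x => ZT T (fun i => r i + t) y x * ‖ψ x‖ ^ 2) (piN ι) := fun t =>
    (hm t).aestronglyMeasurable.mul hsq.aestronglyMeasurable
  have hm3 : Measurable (fun x => ∑ i, ∑ α, ZTgg T (fun i => r i + τ) y i α x) :=
    Finset.measurable_sum _ fun i _ => Finset.measurable_sum _ fun α _ => g2_meas T _ y i α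
  have hm4 : AEStronglyMeasurable
      (fun x => (∑ i, ∑ α, ZTgg T (fun i => r i + τ) y i α x) * ‖ψ x‖ ^ 2) (piN ι) :=
    hm3.aestronglyMeasurable.mul hsq.aestronglyMeasurable
  have hi1 : Integrable (fun x => ZT T (fun i => r i + τ) y x * ‖ψ x‖ ^ 2) (piN ι) := by
    refine Integrable.mono' (hsq.const_mul C) (hm2 τ) (Filter.Eventually.of_forall fun x => ?_)
    rw [norm_mul, Real.norm_eq_abs, Real.norm_of_nonneg (sq_nonneg _)]
    exact mul_le_mul_of_nonneg_right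
      (hC _ (hbd τ (Metric.mem_ball_self (half_pos hε))) y x).1 (sq_nonneg _)
  refine (hasDerivAt_integral_of_dominated_loc_of_deriv_le
    (F := fun t x => ZT T (fun i => r i + t) y x * ‖ψ x‖ ^ 2)
    (F' := fun t x => (∑ i, ∑ α, ZTgg T (fun i => r i + t) y i α x) * ‖ψ x‖ ^ 2)
    (bound := fun x => C * ‖ψ x‖ ^ 2)
    (Metric.ball_mem_nhds τ (half_pos hε)) (Filter.Eventually.of_forall hm2) hi1 hm4 ?_ ?_ ?_).2
  · refine Filter.Eventually.of_forall fun x t ht => ?_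
    rw [norm_mul, Real.norm_eq_abs, Real.norm_of_nonneg (sq_nonneg _)]
    exact mul_le_mul_of_nonneg_right (hC _ (hbd t ht) y x).2 (sq_nonneg _)
  · exact hsq.const_mul C
  · refine Filter.Eventually.of_forall fun x t ht => ?_
    refine (ZT_deriv y x fun i hi => ?_).mul_const _
    have := hbd t ht i hi
    linarith

theorem heat_mono {R₀ μ e : ℝ} {𝒱 : T3 → ℝ≥0∞} {ψ : (ι → T3) → ℂ}
    {g : ι → Fin 3 → (ι → T3) → ℂ} (hM : Mini R₀ 𝒱 μ e ψ g) (T : Finset ι) {r : ι → ℝ}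
    (hr : ∀ i ∈ T, 0 < r i) (y : T3) {τ : ℝ} (hτ : 0 ≤ τ) :
    ∫ x, ZT T r y x * ‖ψ x‖ ^ 2 ∂(piN ι)
      ≤ Real.exp (2 * (T.card : ℝ) * μ * τ)
        * ∫ x, ZT T (fun i => r i + τ) y x * ‖ψ x‖ ^ 2 ∂(piN ι) := by
  have hd : 0 ≤ (T.card : ℝ) * μ := mul_nonneg (Nat.cast_nonneg _) hM.mu0
  have key : ∀ t : ℝ, 0 ≤ t →
      - ∫ x, (∑ i, ∑ α, ZTgg T (fun i => r i + t) y i α x) * ‖ψ x‖ ^ 2 ∂(piN ι)
        ≤ 2 * ((T.card : ℝ) * μ) * ∫ x, ZT T (fun i => r i + t) y x * ‖ψ x‖ ^ 2 ∂(piN ι) := by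
    intro t ht
    have hrt : ∀ i ∈ T, 0 < r i + t := fun i hi => by
      have := hr i hi
      linarith
    have hZm : Measurable (ZT T (fun i => r i + t) y) :=
      g2_Zmeas T _ y
    have hZ0 : ∀ x : ι → T3, 0 ≤ ZT T (fun i => r i + t) y x :=
      fun x => Finset.prod_nonneg fun i _ => hk_nonneg _ _
    have hZd : ∀ x x' : ι → T3, (∀ i ∈ T, x i = x' i) →
        ZT T (fun i => r i + t) y x = ZT T (fun i => r i + t) y x' :=
      fun x x' hx => Finset.prod_congr rfl fun i hi => by rw [hx i hi]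
    refine heat_ineq hM.hv hM.hev hM.fe (T := T) (ZT_WDN hrt y) (fun i α => ZTg_WD hrt y i α)
      hZ0 hZm hZd hM.e0 hM.hmin ?_ hd (hM.chem T)
    rw [hM.nrm, mul_one]
    exact hM.heq
  set m : ℝ := 2 * (T.card : ℝ) * μ with hm
  set h : ℝ → ℝ := fun t => ∫ x, ZT T (fun i => r i + t) y x * ‖ψ x‖ ^ 2 ∂(piN ι) with hh
  have hder : ∀ t : ℝ, 0 ≤ t → HasDerivAt (fun t => Real.exp (m * t) * h t)
      (Real.exp (m * t) * m * h t + Real.exp (m * t)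
        * ∫ x, (∑ i, ∑ α, ZTgg T (fun i => r i + t) y i α x) * ‖ψ x‖ ^ 2 ∂(piN ι)) t := by
    intro t ht
    have h1 : HasDerivAt (fun t : ℝ => Real.exp (m * t)) (Real.exp (m * t) * m) t := by
      have h2 : HasDerivAt (fun t : ℝ => m * t) m t := by
        simpa using (hasDerivAt_id t).const_mul m
      exact h2.exp
    exact h1.mul (g2_deriv hM.fe.hg.mem T hr y ht)
  have hmono : MonotoneOn (fun t => Real.exp (m * t) * h t) (Set.Ici 0) := by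
    refine monotoneOn_of_deriv_nonneg (convex_Ici 0)
      (fun t ht => (hder t ht).continuousAt.continuousWithinAt) ?_ ?_
    · intro t ht
      rw [interior_Ici] at ht
      exact (hder t (le_of_lt ht)).differentiableAt.differentiableWithinAt
    · intro t ht
      rw [interior_Ici] at ht
      rw [(hder t (le_of_lt ht)).deriv]
      have h1 := key t (le_of_lt ht)
      have h2 : 0 ≤ Real.exp (m * t) * (m * h t
          + ∫ x, (∑ i, ∑ α, ZTgg T (fun i => r i + t) y i α x) * ‖ψ x‖ ^ 2 ∂(piN ι)) := by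
        refine mul_nonneg (Real.exp_pos _).le ?_
        have h3 : m * h t = 2 * ((T.card : ℝ) * μ)
            * ∫ x, ZT T (fun i => r i + t) y x * ‖ψ x‖ ^ 2 ∂(piN ι) := by
          rw [hm, hh]
          ring
        rw [h3]
        linarith
      linarith
  have h0 := hmono (Set.mem_Ici.2 le_rfl) (Set.mem_Ici.2 hτ) hτ
  simp only [mul_zero, Real.exp_zero, one_mul, hh, add_zero] at h0
  exact h0

end Pool.Agent.Lib.MP_4952d6_mp.LA

end

/-! ### LA.H2 -/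

section

/-!
# JOB LA-H2: heat flow for sums over distinct tuples

Induction on `k`, generalising `T` and `U`: `elS _ (k+1) U = ∑_{j∈U} a_j elS _ k (U.erase j)`, `ZT T r y x * hk (r j) (y - x j) = ZT (insert j T) r y x` (`j ∉ T`), `insert j T` and `U.erase j` are
disjoint, `(insert j T).card + k = T.card + (k+1)`.  Base case: `heat_mono`.  Integrals of finite sums (all functions bounded measurable times `‖ψ‖²`).
-/

set_option autoImplicit false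
set_option linter.unusedSectionVars false
set_option linter.unusedVariables false
open MeasureTheory Function Filter Topology Set ComplexConjugate
open scoped ENNReal

namespace Pool.Agent.Lib.MP_4952d6_mp.LA

variable {ι : Type*} [Fintype ι] [DecidableEq ι]

lemma H2_bm_hk {s : ℝ} (hs : 0 < s) : BM (hk s) := by
  have h := hk_WD 0 hs
  exact ⟨h.sm.measurable, h.bdd.imp fun C hC x => hC x⟩

lemma H2_bm_factor {s : ℝ} (hs : 0 < s) (y : T3) (j : ι) : BM (fun x : ι → T3 => hk s (y - x j)) :=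
  (H2_bm_hk hs).comp (measurable_const.sub (measurable_pi_apply j))

lemma H2_bm_ZT {r : ι → ℝ} (hr : ∀ i, 0 < r i) (y : T3) (T : Finset ι) :
    BM (fun x : ι → T3 => ZT T r y x) :=
  BM.finset_prod T fun i _ => H2_bm_factor (hr i) y i

lemma H2_bm_elS {a : ι → (ι → T3) → ℝ} (ha : ∀ i, BM (a i)) (k : ℕ) :
    ∀ U : Finset ι, BM (fun x => elS (fun j => a j x) k U) := by
  induction k with
  | zero =>
    intro U
    exact BM.const 1
  | succ k ih =>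
    intro U
    exact BM.finset_sum U fun j _ => (ha j).mul (ih (U.erase j))

lemma H2_int {ψ : (ι → T3) → ℂ} (hψ : Integrable (fun x => ‖ψ x‖ ^ 2) (piN ι)) {F : (ι → T3) → ℝ}
    (hF : BM F) : Integrable (fun x => F x * ‖ψ x‖ ^ 2) (piN ι) := by
  obtain ⟨C, hC0, hC⟩ := hF.exists_nonneg_bound
  exact hψ.bdd_mul (c := C) hF.measurable.aestronglyMeasurable (Eventually.of_forall fun x => hC x)

/-- splitting off one particle -/
lemma H2_step {ψ : (ι → T3) → ℂ} (hψ : Integrable (fun x => ‖ψ x‖ ^ 2) (piN ι)) {r : ι → ℝ}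
    (hr : ∀ i, 0 < r i) (y : T3) (k : ℕ) (T U : Finset ι) (hd : Disjoint T U) :
    ∫ x, ZT T r y x * elS (fun j => hk (r j) (y - x j)) (k + 1) U * ‖ψ x‖ ^ 2 ∂(piN ι)
      = ∑ j ∈ U, ∫ x, ZT (insert j T) r y x * elS (fun j => hk (r j) (y - x j)) k (U.erase j)
          * ‖ψ x‖ ^ 2 ∂(piN ι) := by
  have hint : ∀ j ∈ U, Integrable (fun x => ZT (insert j T) r y x
      * elS (fun j => hk (r j) (y - x j)) k (U.erase j) * ‖ψ x‖ ^ 2) (piN ι) := fun j _ =>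
    H2_int hψ ((H2_bm_ZT hr y (insert j T)).mul
      (H2_bm_elS (fun i => H2_bm_factor (hr i) y i) k (U.erase j)))
  rw [← integral_finsetSum _ hint]
  refine integral_congr_ae (Eventually.of_forall fun x => ?_)
  beta_reduce
  have e1 : elS (fun j => hk (r j) (y - x j)) (k + 1) U
      = ∑ j ∈ U, hk (r j) (y - x j) * elS (fun j => hk (r j) (y - x j)) k (U.erase j) := rfl
  rw [e1, Finset.mul_sum, Finset.sum_mul]
  refine Finset.sum_congr rfl fun j hj => ?_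
  have hjT : j ∉ T := fun h => (Finset.disjoint_left.1 hd) h hj
  have e2 : ZT (insert j T) r y x = hk (r j) (y - x j) * ZT T r y x := by
    unfold ZT
    rw [Finset.prod_insert hjT]
  rw [e2]
  ring

theorem heat_elS {R₀ μ e : ℝ} {𝒱 : T3 → ℝ≥0∞} {ψ : (ι → T3) → ℂ}
    {g : ι → Fin 3 → (ι → T3) → ℂ} (hM : Mini R₀ 𝒱 μ e ψ g) {r : ι → ℝ} (hr : ∀ i, 0 < r i)
    (y : T3) {τ : ℝ} (hτ : 0 ≤ τ) (k : ℕ) (T U : Finset ι) (hd : Disjoint T U) :
    ∫ x, ZT T r y x * elS (fun j => hk (r j) (y - x j)) k U * ‖ψ x‖ ^ 2 ∂(piN ι)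
      ≤ Real.exp (2 * ((T.card : ℝ) + k) * μ * τ)
        * ∫ x, ZT T (fun i => r i + τ) y x * elS (fun j => hk (r j + τ) (y - x j)) k U
          * ‖ψ x‖ ^ 2 ∂(piN ι) := by
  have hψ : Integrable (fun x => ‖ψ x‖ ^ 2) (piN ι) := int_sq hM.fe.hg.mem
  have hr' : ∀ i, 0 < r i + τ := fun i => by linarith [hr i]
  induction k generalizing T U with
  | zero =>
    have h := heat_mono hM T (fun i _ => hr i) y hτ
    have e1 : ∀ (q : ι → ℝ), ∫ x, ZT T q y x * elS (fun j => hk (q j) (y - x j)) 0 U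
        * ‖ψ x‖ ^ 2 ∂(piN ι) = ∫ x, ZT T q y x * ‖ψ x‖ ^ 2 ∂(piN ι) := by
      intro q
      refine integral_congr_ae (Eventually.of_forall fun x => ?_)
      beta_reduce
      have : elS (fun j => hk (q j) (y - x j)) 0 U = 1 := rfl
      rw [this, mul_one]
    have e2 := e1 r
    have e3 := e1 (fun i => r i + τ)
    rw [e2, Nat.cast_zero, add_zero]
    refine h.trans (le_of_eq ?_)
    rw [← e3]
  | succ k ih =>
    have s1 := H2_step hψ hr y k T U hd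
    have s2 := H2_step hψ hr' y k T U hd
    rw [s1]
    refine le_trans ?_ (le_of_eq (congrArg (fun z => Real.exp (2 * ((T.card : ℝ) + (k + 1 : ℕ)) * μ * τ) * z)
      s2.symm))
    rw [Finset.mul_sum]
    refine Finset.sum_le_sum fun j hj => ?_
    have hjT : j ∉ T := fun h => (Finset.disjoint_left.1 hd) h hj
    have hd' : Disjoint (insert j T) (U.erase j) := by
      rw [Finset.disjoint_insert_left]
      exact ⟨Finset.notMem_erase j U, hd.mono_right (Finset.erase_subset j U)⟩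
    have h := ih (insert j T) (U.erase j) hd'
    have e : 2 * (((insert j T).card : ℝ) + (k : ℝ)) * μ * τ
        = 2 * ((T.card : ℝ) + ((k + 1 : ℕ) : ℝ)) * μ * τ := by
      rw [Finset.card_insert_of_notMem hjT]
      push_cast
      ring
    rw [e] at h
    exact h

end Pool.Agent.Lib.MP_4952d6_mp.LA

end

/-! ### LA.H5 -/

section

/-!
# JOB LA-H5: moments at small scales with a smeared position

`τ = l²`, `μ τ = Kμ`.  For `s ≤ l²`, `s^(-3/2) ≤ N` and a particle `m`, `U = univ.erase m`, `a_j = hk s (y - x j) ≤ K N` (`hk_le`, `s ≤ 1`):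
`(∑_U a)^q ≤ ∑_{k ≤ q} c q k (K N)^(q-k) elS a k U` (`pow_le_elS`), so by `heat_elS` (with `T = {m}`, `r m = r`, `r j = s`; resp. `T = ∅`)
`∫ hk r (y - x m) (∑_U a)^q ‖ψ‖² ≤ C ∑_k N^(q-k) e^(2(k+1)Kμ) ∫ hk (r + l²) (y - x m) elS (hk (s + l²) (y - x_j)) k U ‖ψ‖²`
and `elS ≤ (∑_j hk (s+l²) (y - x j))^k`, `hk (s + l²) ≤ √2³ hk (2 l²)`, `hk (r + l²) ≤ √2³ hk (2 l²)` (`hk_le_hk`, `r, s ≤ l²`).
Sum over `m`, integrate over `y`: `≤ C ∑_k N^(q-k) ∫∫ S^(k+1) ‖ψ‖² ≤ C N^(q+1)`, `S = ∑_j hk (2l²) (y - x j)`, `hk_moments`.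
Uniform case: `≤ C ∑_k N^(q-k) ∫∫ S^k ‖ψ‖² ≤ C N^q`.
-/

set_option autoImplicit false
set_option linter.unusedSectionVars false
set_option linter.unusedVariables false
open MeasureTheory Function Filter Topology Set ComplexConjugate
open scoped ENNReal

namespace Pool.Agent.Lib.MP_4952d6_mp.LA

variable {ι : Type*} [Fintype ι] [DecidableEq ι]

lemma H5_congr {a b : ι → ℝ} (k : ℕ) : ∀ U : Finset ι, (∀ j ∈ U, a j = b j) →
    elS a k U = elS b k U := by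
  induction k with
  | zero => intro U _; rfl
  | succ k ih =>
    intro U h
    unfold elS
    refine Finset.sum_congr rfl fun j hj => ?_
    rw [h j hj, ih (U.erase j) fun i hi => h i (Finset.mem_of_mem_erase hi)]

lemma H5_bm_one {s : ℝ} (hs : 0 < s) : BM (hk s) :=
  ⟨(hkD_continuous 0 hs).measurable, _, fun x => by
    rw [abs_of_nonneg (hk_nonneg s x)]; exact hk_le hs x⟩

lemma H5_bm {N : ℕ} {s : ℝ} (hs : 0 < s) (j : Fin N) :
    BM (fun z : T3 × (Fin N → T3) => hk s (z.1 - z.2 j)) :=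
  (H5_bm_one hs).comp (φ := fun z : T3 × (Fin N → T3) => z.1 - z.2 j)
    (measurable_fst.sub ((measurable_pi_apply j).comp measurable_snd))

lemma H5_bm_elS {N : ℕ} {r : Fin N → ℝ} (hr : ∀ i, 0 < r i) (k : ℕ) : ∀ U : Finset (Fin N),
    BM (fun z : T3 × (Fin N → T3) => elS (fun j => hk (r j) (z.1 - z.2 j)) k U) := by
  induction k with
  | zero => intro U; exact BM.const 1
  | succ k ih =>
    intro U
    exact BM.finset_sum U fun j _ => (H5_bm (hr j) j).mul (ih (U.erase j))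

lemma H5_bm_ZT {N : ℕ} {r : Fin N → ℝ} (hr : ∀ i, 0 < r i) (T : Finset (Fin N)) :
    BM (fun z : T3 × (Fin N → T3) => ZT T r z.1 z.2) :=
  BM.finset_prod T fun j _ => H5_bm (hr j) j

lemma H5_bm_sum {N : ℕ} {s : ℝ} (hs : 0 < s) (U : Finset (Fin N)) :
    BM (fun z : T3 × (Fin N → T3) => ∑ j ∈ U, hk s (z.1 - z.2 j)) :=
  BM.finset_sum U fun j _ => H5_bm hs j

lemma H5_nsq {N : ℕ} {ψ : (Fin N → T3) → ℂ} (hψ : MemLp ψ 2 (piN (Fin N))) :
    Integrable (fun x => ‖ψ x‖ ^ 2) (piN (Fin N)) :=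
  (memLp_two_iff_integrable_sq_norm hψ.1).1 hψ

lemma H5_sec {N : ℕ} {ψ : (Fin N → T3) → ℂ} (hψ : MemLp ψ 2 (piN (Fin N)))
    {B : T3 × (Fin N → T3) → ℝ} (hB : BM B) (y : T3) :
    Integrable (fun x => B (y, x) * ‖ψ x‖ ^ 2) (piN (Fin N)) := by
  obtain ⟨hm, C, hC⟩ := hB
  exact (H5_nsq hψ).bdd_mul (hm.comp measurable_prodMk_left).aestronglyMeasurable
    (Eventually.of_forall fun x => by rw [Real.norm_eq_abs]; exact hC (y, x))

lemma H5_out {N : ℕ} {ψ : (Fin N → T3) → ℂ} (hψ : MemLp ψ 2 (piN (Fin N)))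
    {B : T3 × (Fin N → T3) → ℝ} (hB : BM B) :
    Integrable (fun y => ∫ x, B (y, x) * ‖ψ x‖ ^ 2 ∂(piN (Fin N))) lam3 := by
  obtain ⟨hm, C, hC⟩ := hB
  have h1 : Integrable (fun z : T3 × (Fin N → T3) => ‖ψ z.2‖ ^ 2) (lam3.prod (piN (Fin N))) :=
    (H5_nsq hψ).comp_snd lam3
  have h2 : Integrable (fun z : T3 × (Fin N → T3) => B z * ‖ψ z.2‖ ^ 2)
      (lam3.prod (piN (Fin N))) :=
    h1.bdd_mul hm.aestronglyMeasurable
      (Eventually.of_forall fun z => by rw [Real.norm_eq_abs]; exact hC z)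
  exact h2.integral_prod_left

lemma H5_ZT_nonneg {N : ℕ} (T : Finset (Fin N)) (r : Fin N → ℝ) (y : T3) (x : Fin N → T3) :
    0 ≤ ZT T r y x := Finset.prod_nonneg fun i _ => hk_nonneg _ _

/-- comparison of the kernels with the kernel of time `2 l²` -/
lemma H5_two {l r : ℝ} (hl : 0 < l) (hr : 0 < r) (hrl : r ≤ l ^ 2) (z : T3) :
    hk (r + l ^ 2) z ≤ Real.sqrt 2 ^ 3 * hk (2 * l ^ 2) z := by
  have hl2 : 0 < l ^ 2 := by positivity
  refine (hk_le_hk (by positivity) (by linarith : r + l ^ 2 ≤ 2 * l ^ 2) z).trans ?_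
  refine mul_le_mul_of_nonneg_right ?_ (hk_nonneg _ _)
  refine pow_le_pow_left₀ (Real.sqrt_nonneg _) (Real.sqrt_le_sqrt ?_) 3
  rw [div_le_iff₀ (by positivity)]
  linarith

/-- bound of the kernel at small scales -/
lemma H5_bd {s n : ℝ} (hs : 0 < s) (hs1 : s ≤ 1) (h : 1 ≤ n * (Real.sqrt s) ^ 3) (z : T3) :
    hk s z ≤ 8 * n := by
  have hq : 0 < Real.sqrt s := Real.sqrt_pos.2 hs
  have hq1 : Real.sqrt s ≤ 1 := by
    rw [Real.sqrt_le_one]
    exact hs1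
  have h1 : (Real.sqrt (4 * Real.pi * s))⁻¹ ≤ (Real.sqrt s)⁻¹ := by
    refine inv_anti₀ hq (Real.sqrt_le_sqrt ?_)
    have := Real.pi_gt_three
    nlinarith
  have h2 : (1 : ℝ) ≤ (Real.sqrt s)⁻¹ := (one_le_inv₀ hq).2 hq1
  have h3 : (Real.sqrt s)⁻¹ ^ 3 ≤ n := by
    rw [inv_pow, inv_le_iff_one_le_mul₀ (by positivity)]
    exact h
  refine (hk_le hs z).trans ?_
  have h4 : (1 + (Real.sqrt (4 * Real.pi * s))⁻¹) ^ 3 ≤ (2 * (Real.sqrt s)⁻¹) ^ 3 := by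
    refine pow_le_pow_left₀ (by positivity) ?_ 3
    linarith
  refine h4.trans ?_
  have h5 : (2 : ℝ) ^ 3 = 8 := by norm_num
  rw [mul_pow, h5]
  exact mul_le_mul_of_nonneg_left h3 (by norm_num)

/-- the key estimate for fixed `y` -/
lemma H5_key {c : ℕ → ℕ → ℝ} (hc0 : ∀ q k, 0 ≤ c q k)
    (hc : ∀ {ι : Type} [Fintype ι] [DecidableEq ι] (a : ι → ℝ) (K : ℝ), (∀ i, 0 ≤ a i) →
      (∀ i, a i ≤ K) → ∀ (q : ℕ) (U : Finset ι),
        (∑ i ∈ U, a i) ^ q ≤ ∑ k ∈ Finset.range (q + 1), c q k * K ^ (q - k) * elS a k U)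
    (q : ℕ) {N : ℕ} {Kμ l R₀ e : ℝ} {𝒱 : T3 → ℝ≥0∞} {ψ : (Fin N → T3) → ℂ}
    {g : Fin N → Fin 3 → (Fin N → T3) → ℂ} (hl : 0 < l) (hl1 : l ≤ 1)
    (hM : Mini R₀ 𝒱 (Kμ / l ^ 2) e ψ g) {s : ℝ} (hs : 0 < s) (hsl : s ≤ l ^ 2)
    (hsN : 1 ≤ N * (Real.sqrt s) ^ 3) {r : Fin N → ℝ} (hr : ∀ i, 0 < r i) (hrl : ∀ i, r i ≤ l ^ 2)
    (T U : Finset (Fin N)) (hd : Disjoint T U) (hU : ∀ j ∈ U, r j = s) (y : T3) :
    ∫ x, ZT T r y x * (∑ j ∈ U, hk s (y - x j)) ^ q * ‖ψ x‖ ^ 2 ∂(piN (Fin N))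
      ≤ ∑ k ∈ Finset.range (q + 1), (c q k * (8 * (N : ℝ)) ^ (q - k)
          * (Real.exp (2 * ((T.card : ℝ) + k) * Kμ) * (Real.sqrt 2 ^ 3) ^ (T.card + k)))
        * ∫ x, ZT T (fun _ => 2 * l ^ 2) y x * (∑ j, hk (2 * l ^ 2) (y - x j)) ^ k
          * ‖ψ x‖ ^ 2 ∂(piN (Fin N)) := by
  have hl2 : 0 < l ^ 2 := by positivity
  have hψ : MemLp ψ 2 (piN (Fin N)) := hM.fe.hg.mem
  have hs1 : s ≤ 1 := hsl.trans (pow_le_one₀ hl.le hl1)
  have h2l : ∀ _ : Fin N, 0 < 2 * l ^ 2 := fun _ => by positivity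
  have hrt : ∀ i, 0 < r i + l ^ 2 := fun i => by have := hr i; positivity
  -- first step: powers to sums over distinct tuples
  have e1 : ∀ k, (fun x => ZT T r y x * elS (fun j => hk s (y - x j)) k U * ‖ψ x‖ ^ 2)
      = fun x => ZT T r y x * elS (fun j => hk (r j) (y - x j)) k U * ‖ψ x‖ ^ 2 := by
    intro k
    funext x
    rw [H5_congr (a := fun j => hk s (y - x j)) (b := fun j => hk (r j) (y - x j)) k U
      (fun j hj => by simp only [hU j hj])]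
  have i1 : ∀ k, Integrable (fun x => ZT T r y x * elS (fun j => hk (r j) (y - x j)) k U
      * ‖ψ x‖ ^ 2) (piN (Fin N)) := fun k =>
    H5_sec hψ ((H5_bm_ZT hr T).mul (H5_bm_elS hr k U)) y
  have s1 : ∫ x, ZT T r y x * (∑ j ∈ U, hk s (y - x j)) ^ q * ‖ψ x‖ ^ 2 ∂(piN (Fin N))
      ≤ ∑ k ∈ Finset.range (q + 1), (c q k * (8 * (N : ℝ)) ^ (q - k))
        * ∫ x, ZT T r y x * elS (fun j => hk (r j) (y - x j)) k U * ‖ψ x‖ ^ 2
          ∂(piN (Fin N)) := by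
    have e2 : ∑ k ∈ Finset.range (q + 1), (c q k * (8 * (N : ℝ)) ^ (q - k))
        * ∫ x, ZT T r y x * elS (fun j => hk (r j) (y - x j)) k U * ‖ψ x‖ ^ 2 ∂(piN (Fin N))
        = ∫ x, ∑ k ∈ Finset.range (q + 1), (c q k * (8 * (N : ℝ)) ^ (q - k))
          * (ZT T r y x * elS (fun j => hk (r j) (y - x j)) k U * ‖ψ x‖ ^ 2)
            ∂(piN (Fin N)) := by
      rw [integral_finsetSum _ (fun k _ => (i1 k).const_mul _)]
      refine Finset.sum_congr rfl fun k _ => ?_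
      rw [integral_const_mul]
    rw [e2]
    refine integral_mono
      (H5_sec hψ ((H5_bm_ZT hr T).mul ((H5_bm_sum hs U).pow q)) y)
      (integrable_finsetSum _ fun k _ => (i1 k).const_mul _) fun x => ?_
    have h1 := hc (fun j => hk s (y - x j)) (8 * (N : ℝ)) (fun j => hk_nonneg _ _)
      (fun j => H5_bd hs hs1 hsN _) q U
    have h2 := mul_le_mul_of_nonneg_right (mul_le_mul_of_nonneg_left h1
      (H5_ZT_nonneg T r y x)) (sq_nonneg ‖ψ x‖)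
    refine h2.trans (le_of_eq ?_)
    rw [Finset.mul_sum, Finset.sum_mul]
    refine Finset.sum_congr rfl fun k _ => ?_
    have h3 : ZT T r y x * elS (fun j => hk s (y - x j)) k U * ‖ψ x‖ ^ 2
        = ZT T r y x * elS (fun j => hk (r j) (y - x j)) k U * ‖ψ x‖ ^ 2 := congrFun (e1 k) x
    rw [← h3]
    ring
  refine s1.trans (Finset.sum_le_sum fun k _ => ?_)
  have hcoef : 0 ≤ c q k * (8 * (N : ℝ)) ^ (q - k) := by
    have := hc0 q k
    positivity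
  rw [mul_assoc (c q k * (8 * (N : ℝ)) ^ (q - k))]
  refine mul_le_mul_of_nonneg_left ?_ hcoef
  have h1 := heat_elS hM hr y hl2.le k T U hd
  have h2 : 2 * ((T.card : ℝ) + k) * (Kμ / l ^ 2) * l ^ 2 = 2 * ((T.card : ℝ) + k) * Kμ := by
    field_simp
  rw [h2] at h1
  refine h1.trans ?_
  rw [mul_assoc (Real.exp _)]
  refine mul_le_mul_of_nonneg_left ?_ (Real.exp_pos _).le
  rw [← integral_const_mul]
  refine integral_mono (H5_sec hψ ((H5_bm_ZT hrt T).mul (H5_bm_elS hrt k U)) y)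
    ((H5_sec hψ ((H5_bm_ZT h2l T).mul ((H5_bm_sum (by positivity) Finset.univ).pow k))
      y).const_mul _) fun x => ?_
  have hκ : 0 ≤ Real.sqrt 2 ^ 3 := by positivity
  have h3 : ZT T (fun i => r i + l ^ 2) y x
      ≤ (Real.sqrt 2 ^ 3) ^ T.card * ZT T (fun _ => 2 * l ^ 2) y x := by
    unfold ZT
    rw [← Finset.prod_const, ← Finset.prod_mul_distrib]
    exact Finset.prod_le_prod (fun i _ => hk_nonneg _ _)
      (fun i _ => H5_two hl (hr i) (hrl i) _)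
  have h4 : elS (fun j => hk (r j + l ^ 2) (y - x j)) k U
      ≤ (Real.sqrt 2 ^ 3) ^ k * (∑ j, hk (2 * l ^ 2) (y - x j)) ^ k := by
    refine (elS_le_pow (fun j => hk_nonneg _ _) k U).trans ?_
    rw [← mul_pow]
    refine pow_le_pow_left₀ (Finset.sum_nonneg fun j _ => hk_nonneg _ _) ?_ k
    rw [Finset.mul_sum]
    refine (Finset.sum_le_sum fun j _ => H5_two hl (hr j) (hrl j) (y - x j)).trans ?_
    exact Finset.sum_le_sum_of_subset_of_nonneg (Finset.subset_univ U)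
      (fun j _ _ => mul_nonneg hκ (hk_nonneg _ _))
  have h5 := mul_le_mul h3 h4 (elS_nonneg (fun j => hk_nonneg _ _) k U)
    (mul_nonneg (by positivity) (H5_ZT_nonneg T _ y x))
  have h6 := mul_le_mul_of_nonneg_right h5 (sq_nonneg ‖ψ x‖)
  refine h6.trans (le_of_eq ?_)
  rw [pow_add]
  ring

theorem smeared (θ cw Kμ : ℝ) (hθ : 1 ≤ θ) (hcw : 0 < cw) (hKμ : 0 ≤ Kμ) (q : ℕ) :
    ∃ C Y0 : ℝ, 0 < C ∧ 0 < Y0 ∧ ∀ Y : ℝ, 0 < Y → Y < Y0 → ∀ (l R a : ℝ) (w : ℝ → ℝ)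
      (N : ℕ) (R₀ e : ℝ) (𝒱 : T3 → ℝ≥0∞) (ψ : (Fin N → T3) → ℂ)
      (g : Fin N → Fin 3 → (Fin N → T3) → ℂ), Par θ cw Kμ Y l R a w N R₀ 𝒱 →
      Mini R₀ 𝒱 (Kμ / l ^ 2) e ψ g →
      ∀ s r : ℝ, 0 < s → s ≤ l ^ 2 → 1 ≤ N * (Real.sqrt s) ^ 3 → 0 < r → r ≤ l ^ 2 →
      (∑ m, ∫ y, ∫ x, hk r (y - x m) * (∑ j ∈ Finset.univ.erase m, hk s (y - x j)) ^ q
          * ‖ψ x‖ ^ 2 ∂(piN (Fin N)) ∂lam3 ≤ C * (N : ℝ) ^ (q + 1)) ∧
      (∀ m, ∫ y, ∫ x, (∑ j ∈ Finset.univ.erase m, hk s (y - x j)) ^ q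
          * ‖ψ x‖ ^ 2 ∂(piN (Fin N)) ∂lam3 ≤ C * (N : ℝ) ^ q) := by
  obtain ⟨c, hc0, hc⟩ := pow_le_elS
  have hmom := fun p => hk_moments θ cw Kμ hθ hcw hKμ p
  choose Cm Ym hCm hYm hmain using hmom
  -- constants
  set D : ℕ → ℕ → ℝ := fun t k => c q k * 8 ^ (q - k)
    * (Real.exp (2 * ((t : ℝ) + k) * Kμ) * (Real.sqrt 2 ^ 3) ^ (t + k)) with hD
  have hD0 : ∀ t k, 0 ≤ D t k := fun t k => by
    have := hc0 q k
    simp only [hD]
    positivity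
  set C1 : ℝ := ∑ k ∈ Finset.range (q + 1), D 1 k * Cm (k + 1) with hC1
  set C2 : ℝ := ∑ k ∈ Finset.range (q + 1), D 0 k * Cm k with hC2
  have hC10 : 0 ≤ C1 := Finset.sum_nonneg fun k _ => mul_nonneg (hD0 1 k) (hCm (k + 1)).le
  have hC20 : 0 ≤ C2 := Finset.sum_nonneg fun k _ => mul_nonneg (hD0 0 k) (hCm k).le
  obtain ⟨Y0, hY0, hY0le⟩ : ∃ Y0 : ℝ, 0 < Y0 ∧ ∀ p ∈ Finset.range (q + 2), Y0 ≤ Ym p := by
    have hne : (Finset.range (q + 2)).Nonempty := Finset.nonempty_range_iff.2 (by omega)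
    refine ⟨(Finset.range (q + 2)).inf' hne Ym, ?_, fun p hp => Finset.inf'_le _ hp⟩
    rw [Finset.lt_inf'_iff]
    exact fun p _ => hYm p
  refine ⟨C1 + C2 + 1, Y0, by positivity, hY0, ?_⟩
  intro Y hY hYY l R a w N R₀ e 𝒱 ψ g hP hM s r hs hsl hsN hr hrl
  have hl : 0 < l := by
    rw [hP.l_eq]
    exact div_pos hP.a_pos hY
  have hl1 : l ≤ 1 := hP.l_le.trans (by norm_num)
  have hl2 : 0 < l ^ 2 := by positivity
  have hψ : MemLp ψ 2 (piN (Fin N)) := hM.fe.hg.mem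
  have hN0 : (0 : ℝ) ≤ N := Nat.cast_nonneg N
  have hS : ∀ p ∈ Finset.range (q + 2),
      ∫ y, ∫ x, (∑ i, hk (2 * l ^ 2) (y - x i)) ^ p * ‖ψ x‖ ^ 2 ∂(piN (Fin N)) ∂lam3
        ≤ Cm p * (N : ℝ) ^ p := fun p hp =>
    hmain p Y hY (hYY.trans_le (hY0le p hp)) l R a w N R₀ e 𝒱 ψ g hP hM
  have h2l : 0 < 2 * l ^ 2 := by positivity
  have hSi : ∀ p, Integrable (fun y => ∫ x, (∑ i, hk (2 * l ^ 2) (y - x i)) ^ p * ‖ψ x‖ ^ 2
      ∂(piN (Fin N))) lam3 := fun p =>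
    H5_out hψ ((H5_bm_sum h2l Finset.univ).pow p)
  have hcoef : ∀ t k : ℕ, k ∈ Finset.range (q + 1) → c q k * (8 * (N : ℝ)) ^ (q - k)
      * (Real.exp (2 * ((t : ℝ) + k) * Kμ) * (Real.sqrt 2 ^ 3) ^ (t + k))
      = D t k * (N : ℝ) ^ (q - k) := by
    intro t k _
    simp only [hD]
    rw [mul_pow]
    ring
  constructor
  · -- weighted case
    have hpt : ∀ y, ∑ m, ∫ x, hk r (y - x m) * (∑ j ∈ Finset.univ.erase m, hk s (y - x j)) ^ q
        * ‖ψ x‖ ^ 2 ∂(piN (Fin N)) ≤ ∑ k ∈ Finset.range (q + 1), (D 1 k * (N : ℝ) ^ (q - k))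
          * ∫ x, (∑ i, hk (2 * l ^ 2) (y - x i)) ^ (k + 1) * ‖ψ x‖ ^ 2 ∂(piN (Fin N)) := by
      intro y
      have hm : ∀ m : Fin N, ∫ x, hk r (y - x m)
          * (∑ j ∈ Finset.univ.erase m, hk s (y - x j)) ^ q * ‖ψ x‖ ^ 2 ∂(piN (Fin N))
          ≤ ∑ k ∈ Finset.range (q + 1), (D 1 k * (N : ℝ) ^ (q - k))
          * ∫ x, hk (2 * l ^ 2) (y - x m) * (∑ i, hk (2 * l ^ 2) (y - x i)) ^ k
            * ‖ψ x‖ ^ 2 ∂(piN (Fin N)) := by
        intro m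
        have h1 := H5_key hc0 hc q hl hl1 hM hs hsl hsN
          (r := fun i => if i = m then r else s)
          (fun i => by
            show 0 < (if i = m then r else s)
            split_ifs
            · exact hr
            · exact hs)
          (fun i => by
            show (if i = m then r else s) ≤ l ^ 2
            split_ifs
            · exact hrl
            · exact hsl)
          {m} (Finset.univ.erase m)
          (by
            rw [Finset.disjoint_singleton_left]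
            exact Finset.notMem_erase m _)
          (fun j hj => if_neg (Finset.ne_of_mem_erase hj)) y
        simp only [ZT, Finset.prod_singleton, if_true, Finset.card_singleton] at h1
        refine h1.trans (le_of_eq (Finset.sum_congr rfl fun k hk' => ?_))
        rw [hcoef 1 k hk']
      refine (Finset.sum_le_sum fun m _ => hm m).trans (le_of_eq ?_)
      rw [Finset.sum_comm]
      refine Finset.sum_congr rfl fun k _ => ?_
      rw [← Finset.mul_sum]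
      congr 1
      rw [← integral_finsetSum _ (fun m _ => H5_sec hψ
        (B := fun z => hk (2 * l ^ 2) (z.1 - z.2 m) * (∑ i, hk (2 * l ^ 2) (z.1 - z.2 i)) ^ k)
        ((H5_bm h2l m).mul ((H5_bm_sum h2l Finset.univ).pow k)) y)]
      refine integral_congr_ae (Eventually.of_forall fun x => ?_)
      simp only
      rw [← Finset.sum_mul, ← Finset.sum_mul]
      ring
    have hFi : ∀ m : Fin N, Integrable (fun y => ∫ x, hk r (y - x m)
        * (∑ j ∈ Finset.univ.erase m, hk s (y - x j)) ^ q * ‖ψ x‖ ^ 2 ∂(piN (Fin N))) lam3 :=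
      fun m => H5_out hψ ((H5_bm hr m).mul ((H5_bm_sum hs (Finset.univ.erase m)).pow q))
    rw [← integral_finsetSum _ (fun m _ => hFi m)]
    refine (integral_mono (integrable_finsetSum _ fun m _ => hFi m)
      (integrable_finsetSum _ fun k _ => (hSi (k + 1)).const_mul _) hpt).trans ?_
    rw [integral_finsetSum _ (fun k _ => (hSi (k + 1)).const_mul _)]
    have h3 : ∀ k ∈ Finset.range (q + 1), ∫ y, (D 1 k * (N : ℝ) ^ (q - k))
        * ∫ x, (∑ i, hk (2 * l ^ 2) (y - x i)) ^ (k + 1) * ‖ψ x‖ ^ 2 ∂(piN (Fin N)) ∂lam3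
        ≤ D 1 k * Cm (k + 1) * (N : ℝ) ^ (q + 1) := by
      intro k hk'
      have hkq : k ≤ q := Nat.lt_succ_iff.1 (Finset.mem_range.1 hk')
      rw [integral_const_mul]
      have h4 := mul_le_mul_of_nonneg_left (hS (k + 1) (Finset.mem_range.2 (by omega)))
        (mul_nonneg (hD0 1 k) (pow_nonneg hN0 (q - k)))
      refine h4.trans (le_of_eq ?_)
      have h5 : (N : ℝ) ^ (q + 1) = (N : ℝ) ^ (q - k) * (N : ℝ) ^ (k + 1) := by
        rw [← pow_add]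
        congr 1
        omega
      rw [h5]
      ring
    refine (Finset.sum_le_sum h3).trans ?_
    rw [← Finset.sum_mul]
    refine mul_le_mul_of_nonneg_right ?_ (pow_nonneg hN0 _)
    linarith
  · -- uniform case
    intro m
    have hpt : ∀ y, ∫ x, (∑ j ∈ Finset.univ.erase m, hk s (y - x j)) ^ q
        * ‖ψ x‖ ^ 2 ∂(piN (Fin N)) ≤ ∑ k ∈ Finset.range (q + 1), (D 0 k * (N : ℝ) ^ (q - k))
          * ∫ x, (∑ i, hk (2 * l ^ 2) (y - x i)) ^ k * ‖ψ x‖ ^ 2 ∂(piN (Fin N)) := by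
      intro y
      have h1 := H5_key hc0 hc q hl hl1 hM hs hsl hsN
        (r := fun _ => s) (fun _ => hs) (fun _ => hsl) ∅ (Finset.univ.erase m)
        (Finset.disjoint_empty_left _) (fun _ _ => rfl) y
      simp only [ZT, Finset.prod_empty, one_mul, Finset.card_empty] at h1
      refine h1.trans (le_of_eq (Finset.sum_congr rfl fun k hk' => ?_))
      rw [hcoef 0 k hk']
    have hFi : Integrable (fun y => ∫ x, (∑ j ∈ Finset.univ.erase m, hk s (y - x j)) ^ q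
        * ‖ψ x‖ ^ 2 ∂(piN (Fin N))) lam3 :=
      H5_out hψ ((H5_bm_sum hs (Finset.univ.erase m)).pow q)
    refine (integral_mono hFi
      (integrable_finsetSum _ fun k _ => (hSi k).const_mul _) hpt).trans ?_
    rw [integral_finsetSum _ (fun k _ => (hSi k).const_mul _)]
    have h3 : ∀ k ∈ Finset.range (q + 1), ∫ y, (D 0 k * (N : ℝ) ^ (q - k))
        * ∫ x, (∑ i, hk (2 * l ^ 2) (y - x i)) ^ k * ‖ψ x‖ ^ 2 ∂(piN (Fin N)) ∂lam3
        ≤ D 0 k * Cm k * (N : ℝ) ^ q := by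
      intro k hk'
      have hkq : k ≤ q := Nat.lt_succ_iff.1 (Finset.mem_range.1 hk')
      rw [integral_const_mul]
      have h4 := mul_le_mul_of_nonneg_left (hS k (Finset.mem_range.2 (by omega)))
        (mul_nonneg (hD0 0 k) (pow_nonneg hN0 (q - k)))
      refine h4.trans (le_of_eq ?_)
      have h5 : (N : ℝ) ^ q = (N : ℝ) ^ (q - k) * (N : ℝ) ^ k := by
        rw [← pow_add]
        congr 1
        omega
      rw [h5]
      ring
    refine (Finset.sum_le_sum h3).trans ?_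
    rw [← Finset.sum_mul]
    refine mul_le_mul_of_nonneg_right ?_ (pow_nonneg hN0 _)
    linarith

end Pool.Agent.Lib.MP_4952d6_mp.LA

end

/-! ### LA.H6 -/

section

/-!
# JOB LA-H6: moments at the position of the particle

`crowd s m x = ∑_{j ≠ m} hk s (x m - x j)`.  For `rr u² ≤ s`: `hk s (x m - x j) ≤ 4 hk (2s) (x m + u - x j)` (`hk_shift` with `y = -u`, `z = x m + u - x j`, `rr_neg`), so
`crowd s m x ^ q ≤ 4^q (∑_{j≠m} hk (2s) (x m + u - x j))^q`.  Multiply by `hk (s/12) u` and integrate over `{rr u² ≤ s}`: `∫_{rr u² ≤ s} hk (s/12) ≥ 1 - ∫ (rr u²/s) hk (s/12) ≥ 1/2`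
(`hk_moment_two`, `hk_integral`).  So `crowd^q ≤ 2 4^q ∫ hk (s/12) u (∑_{j≠m} hk (2s) (x m + u - x j))^q du`, substitute `y = x m + u`; Fubini; `smeared` with `r = s/12`, `2s`.
-/

set_option autoImplicit false
set_option linter.unusedSectionVars false
set_option linter.unusedVariables false
open MeasureTheory Function Filter Topology Set ComplexConjugate
open scoped ENNReal

namespace Pool.Agent.Lib.MP_4952d6_mp.LA

variable {ι : Type*} [Fintype ι] [DecidableEq ι]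

theorem H6_hk {s : ℝ} (hs : 0 < s) : BM (hk s) :=
  BM.of_mem_Icc (hkD_continuous 0 hs).measurable fun x => ⟨hk_nonneg s x, hk_le hs x⟩

theorem H6_rr_le (x : T3) : rr x ≤ 1 := by
  have h1 : rr x ^ 2 ≤ 1 ^ 2 := by
    rw [rr_sq]
    have h2 : ∀ α, crd x α ^ 2 ≤ 1 / 4 := fun α => by
      have h3 := crd_mem x α
      nlinarith [h3.1, h3.2]
    calc ∑ α, crd x α ^ 2 ≤ ∑ α : Fin 3, (1 / 4 : ℝ) := Finset.sum_le_sum fun α _ => h2 α
      _ ≤ 1 ^ 2 := by norm_num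
  exact (sq_le_sq₀ (rr_nonneg x) (by norm_num)).1 h1

theorem H6_rr2 : BM (fun x : T3 => rr x ^ 2) :=
  (BM.of_mem_Icc rr_measurable fun x => ⟨rr_nonneg x, H6_rr_le x⟩).pow 2

/-- half of the mass of `hk (s/12)` is in the ball of radius `√s` -/
theorem H6_mass {s : ℝ} (hs : 0 < s) :
    1 / 2 ≤ ∫ u, hk (s / 12) u * (1 - rr u ^ 2 / s) ∂lam3 := by
  have h12 : 0 < s / 12 := by positivity
  have e1 : ∀ u : T3, hk (s / 12) u * (1 - rr u ^ 2 / s)
      = hk (s / 12) u - s⁻¹ * (rr u ^ 2 * hk (s / 12) u) := by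
    intro u
    ring
  simp only [e1]
  rw [integral_sub ((H6_hk h12).integrable lam3)
    (((H6_rr2.mul (H6_hk h12)).const_mul s⁻¹).integrable lam3), integral_const_mul,
    hk_integral h12]
  have h1 := mul_le_mul_of_nonneg_left (hk_moment_two h12) (inv_nonneg.2 hs.le)
  have e2 : s⁻¹ * (6 * (s / 12)) = 1 / 2 := by
    field_simp
    norm_num
  rw [e2] at h1
  linarith

theorem H6_crowd_bm {s : ℝ} (hs : 0 < s) (m : ι) : BM (crowd (ι := ι) s m) := by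
  unfold crowd
  exact BM.finset_sum _ fun j _ =>
    (H6_hk hs).comp ((measurable_pi_apply m).sub (measurable_pi_apply j))

/-- the integrand -/
noncomputable def H6f (s : ℝ) (q : ℕ) (m : ι) (p : T3 × (ι → T3)) : ℝ :=
  hk (s / 12) (p.1 - p.2 m) * (∑ j ∈ Finset.univ.erase m, hk (2 * s) (p.1 - p.2 j)) ^ q

theorem H6f_bm {s : ℝ} (hs : 0 < s) (q : ℕ) (m : ι) : BM (H6f (ι := ι) s q m) := by
  have h1 : ∀ j : ι, Measurable (fun p : T3 × (ι → T3) => p.1 - p.2 j) := fun j =>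
    measurable_fst.sub ((measurable_pi_apply j).comp measurable_snd)
  unfold H6f
  exact ((H6_hk (by positivity)).comp (h1 m)).mul
    ((BM.finset_sum _ fun j _ => (H6_hk (by positivity)).comp (h1 j)).pow q)

theorem H6_point {s : ℝ} (hs : 0 < s) (q : ℕ) (m : ι) (x : ι → T3) :
    crowd s m x ^ q ≤ 2 * 4 ^ q * ∫ y, H6f s q m (y, x) ∂lam3 := by
  have hc0 : 0 ≤ crowd s m x := Finset.sum_nonneg fun j _ => hk_nonneg _ _
  have h12 : 0 < s / 12 := by positivity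
  have e1 : ∫ y, H6f s q m (y, x) ∂lam3 = ∫ u, H6f s q m (u + x m, x) ∂lam3 :=
    (integral_add_right_eq_self (μ := lam3) (fun y => H6f s q m (y, x)) (x m)).symm
  have hb : BM (fun u : T3 => H6f s q m (u + x m, x)) :=
    (H6f_bm hs q m).comp ((measurable_id.add measurable_const).prodMk measurable_const)
  have h2 : ∀ u : T3, (crowd s m x / 4) ^ q * (hk (s / 12) u * (1 - rr u ^ 2 / s))
      ≤ H6f s q m (u + x m, x) := by
    intro u
    have hS0 : 0 ≤ ∑ j ∈ Finset.univ.erase m, hk (2 * s) (u + x m - x j) :=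
      Finset.sum_nonneg fun j _ => hk_nonneg _ _
    have hk0 := hk_nonneg (s / 12) u
    have e2 : H6f s q m (u + x m, x)
        = hk (s / 12) u * (∑ j ∈ Finset.univ.erase m, hk (2 * s) (u + x m - x j)) ^ q := by
      unfold H6f
      simp only [add_sub_cancel_right]
    rw [e2]
    have hcq : 0 ≤ (crowd s m x / 4) ^ q := by positivity
    rcases le_or_gt (rr u ^ 2) s with h3 | h3
    · have h4 : crowd s m x / 4 ≤ ∑ j ∈ Finset.univ.erase m, hk (2 * s) (u + x m - x j) := by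
        unfold crowd
        rw [Finset.sum_div]
        refine Finset.sum_le_sum fun j _ => ?_
        have h5 := hk_shift hs (y := -u) (by rw [rr_neg]; exact h3) (u + x m - x j)
        have e3 : u + x m - x j + -u = x m - x j := by abel
        rw [e3] at h5
        linarith
      have h6 := pow_le_pow_left₀ (by positivity) h4 q
      have h7 : 1 - rr u ^ 2 / s ≤ 1 := by
        have : 0 ≤ rr u ^ 2 / s := by positivity
        linarith
      calc (crowd s m x / 4) ^ q * (hk (s / 12) u * (1 - rr u ^ 2 / s))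
          ≤ (crowd s m x / 4) ^ q * (hk (s / 12) u * 1) :=
            mul_le_mul_of_nonneg_left (mul_le_mul_of_nonneg_left h7 hk0) hcq
        _ = hk (s / 12) u * (crowd s m x / 4) ^ q := by ring
        _ ≤ _ := mul_le_mul_of_nonneg_left h6 hk0
    · have h4 : 1 - rr u ^ 2 / s ≤ 0 := by
        have : 1 < rr u ^ 2 / s := by rwa [one_lt_div hs]
        linarith
      have h5 : (crowd s m x / 4) ^ q * (hk (s / 12) u * (1 - rr u ^ 2 / s)) ≤ 0 :=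
        mul_nonpos_of_nonneg_of_nonpos hcq (mul_nonpos_of_nonneg_of_nonpos hk0 h4)
      exact h5.trans (by positivity)
  have h3 := integral_mono
    ((((H6_hk h12).mul ((BM.const 1).sub (H6_rr2.const_mul s⁻¹))).const_mul
      ((crowd s m x / 4) ^ q)).integrable lam3) (hb.integrable lam3)
    (f := fun u => (crowd s m x / 4) ^ q * (hk (s / 12) u * (1 - s⁻¹ * rr u ^ 2)))
    (fun u => by
      have h4 := h2 u
      have e4 : rr u ^ 2 / s = s⁻¹ * rr u ^ 2 := by ring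
      rw [e4] at h4
      exact h4)
  rw [integral_const_mul] at h3
  have h4 := H6_mass hs
  have e5 : ∀ u : T3, hk (s / 12) u * (1 - rr u ^ 2 / s) = hk (s / 12) u * (1 - s⁻¹ * rr u ^ 2) := by
    intro u
    ring
  simp only [e5] at h4
  rw [e1]
  have h5 : (crowd s m x / 4) ^ q * (1 / 2) ≤ ∫ u, H6f s q m (u + x m, x) ∂lam3 :=
    (mul_le_mul_of_nonneg_left h4 (by positivity)).trans h3
  have e6 : crowd s m x ^ q = 2 * 4 ^ q * ((crowd s m x / 4) ^ q * (1 / 2)) := by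
    rw [div_pow]
    field_simp
  rw [e6]
  exact mul_le_mul_of_nonneg_left h5 (by positivity)

theorem H6_swap {ψ : (ι → T3) → ℂ} (hψ : MemLp ψ 2 (piN ι)) {H : T3 × (ι → T3) → ℝ}
    (hH : BM H) : ∫ y, ∫ x, H (y, x) * ‖ψ x‖ ^ 2 ∂(piN ι) ∂lam3
      = ∫ x, (∫ y, H (y, x) ∂lam3) * ‖ψ x‖ ^ 2 ∂(piN ι) := by
  obtain ⟨C, hC0, hC⟩ := hH.exists_nonneg_bound
  have h1 : Integrable (fun p : T3 × (ι → T3) => ‖ψ p.2‖ ^ 2) (lam3.prod (piN ι)) :=
    (int_sq hψ).comp_snd lam3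
  have h2 : Integrable (fun p : T3 × (ι → T3) => H p * ‖ψ p.2‖ ^ 2) (lam3.prod (piN ι)) :=
    h1.bdd_mul hH.1.aestronglyMeasurable (c := C) (Eventually.of_forall fun x => hC x)
  have h := integral_integral_swap (f := fun y x => H (y, x) * ‖ψ x‖ ^ 2) h2
  rw [h]
  refine integral_congr_ae (Eventually.of_forall fun x => ?_)
  dsimp only
  rw [integral_mul_const]

theorem H6_int {ψ : (ι → T3) → ℂ} (hψ : MemLp ψ 2 (piN ι)) {H : (ι → T3) → ℝ}
    (hH : BM H) : Integrable (fun x => H x * ‖ψ x‖ ^ 2) (piN ι) := by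
  obtain ⟨C, hC0, hC⟩ := hH.exists_nonneg_bound
  exact (int_sq hψ).bdd_mul hH.1.aestronglyMeasurable (c := C) (Eventually.of_forall fun x => hC x)

theorem H6_one {ψ : (ι → T3) → ℂ} (hψ : MemLp ψ 2 (piN ι)) {s : ℝ} (hs : 0 < s) (q : ℕ) (m : ι) :
    ∫ x, crowd s m x ^ q * ‖ψ x‖ ^ 2 ∂(piN ι)
      ≤ 2 * 4 ^ q * ∫ y, ∫ x, H6f s q m (y, x) * ‖ψ x‖ ^ 2 ∂(piN ι) ∂lam3 := by
  rw [H6_swap hψ (H6f_bm hs q m), ← integral_const_mul]
  have hb : BM (fun x : ι → T3 => ∫ y, H6f s q m (y, x) ∂lam3) :=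
    BM.integral_right (f := fun x y => H6f s q m (y, x)) ((H6f_bm hs q m).comp measurable_swap) lam3
  refine integral_mono (H6_int hψ ((H6_crowd_bm hs m).pow q))
    ((H6_int hψ hb).const_mul _) fun x => ?_
  have h1 := mul_le_mul_of_nonneg_right (H6_point hs q m x) (sq_nonneg ‖ψ x‖)
  refine h1.trans (le_of_eq ?_)
  ring

theorem crowd_moments (θ cw Kμ : ℝ) (hθ : 1 ≤ θ) (hcw : 0 < cw) (hKμ : 0 ≤ Kμ) (q : ℕ) :
    ∃ C Y0 : ℝ, 0 < C ∧ 0 < Y0 ∧ ∀ Y : ℝ, 0 < Y → Y < Y0 → ∀ (l R a : ℝ) (w : ℝ → ℝ)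
      (N : ℕ) (R₀ e : ℝ) (𝒱 : T3 → ℝ≥0∞) (ψ : (Fin N → T3) → ℂ)
      (g : Fin N → Fin 3 → (Fin N → T3) → ℂ), Par θ cw Kμ Y l R a w N R₀ 𝒱 →
      Mini R₀ 𝒱 (Kμ / l ^ 2) e ψ g →
      ∀ s : ℝ, 0 < s → 2 * s ≤ l ^ 2 → 1 ≤ N * (Real.sqrt s) ^ 3 →
      ∑ m, ∫ x, crowd s m x ^ q * ‖ψ x‖ ^ 2 ∂(piN (Fin N)) ≤ C * (N : ℝ) ^ (q + 1) := by
  obtain ⟨C, Y0, hC, hY0, hsm⟩ := smeared θ cw Kμ hθ hcw hKμ q
  refine ⟨2 * 4 ^ q * C, Y0, by positivity, hY0, ?_⟩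
  intro Y hY hYY l R a w N R₀ e 𝒱 ψ g hP hM s hs hsl hN
  have hl2 : 0 ≤ l ^ 2 := sq_nonneg l
  have h1 := (hsm Y hY hYY l R a w N R₀ e 𝒱 ψ g hP hM (2 * s) (s / 12) (by positivity) hsl
    (hN.trans (mul_le_mul_of_nonneg_left
      (pow_le_pow_left₀ (Real.sqrt_nonneg _) (Real.sqrt_le_sqrt (by linarith)) 3)
      (Nat.cast_nonneg N))) (by positivity) (by linarith)).1
  have h2 : ∑ m, ∫ x, crowd s m x ^ q * ‖ψ x‖ ^ 2 ∂(piN (Fin N))
      ≤ ∑ m, 2 * 4 ^ q * ∫ y, ∫ x, H6f s q m (y, x) * ‖ψ x‖ ^ 2 ∂(piN (Fin N)) ∂lam3 :=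
    Finset.sum_le_sum fun m _ => H6_one hM.fe.hg.mem hs q m
  rw [← Finset.mul_sum] at h2
  refine h2.trans ?_
  have h3 : (2 * 4 ^ q : ℝ) * (∑ m, ∫ y, ∫ x, H6f s q m (y, x) * ‖ψ x‖ ^ 2 ∂(piN (Fin N)) ∂lam3)
      ≤ 2 * 4 ^ q * (C * (N : ℝ) ^ (q + 1)) := mul_le_mul_of_nonneg_left h1 (by positivity)
  exact h3.trans (le_of_eq (by ring))

end Pool.Agent.Lib.MP_4952d6_mp.LA

end

/-! ### LA.I2a -/

section

/-!
# JOB LA-I2a: high moments of the difference to averages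

Let `P x = (crowd s m x + N)^40 ≤ 2^39 (crowd^40 + N^40)`, `crowd s m (update x m y) = ∑_{j≠m} hk s (y - x j)`.
`‖ψ - G‖² ≤ 2 ‖ψ‖² + 2 ‖G‖²`, `crowd_moments` (`q = 40`), `avj_cs`/`htj_cs` with `smeared` (`q = 40`, second and first part); `∫ ‖ψ‖² = 1`, `∑_m 1 = N`;
`∫ hk = 1` for the term with `N^40`.
-/

set_option autoImplicit false
set_option linter.unusedSectionVars false
set_option linter.unusedVariables false
open MeasureTheory Function Filter Topology Set ComplexConjugate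
open scoped ENNReal

namespace Pool.Agent.Lib.MP_4952d6_mp.LA

variable {ι : Type*} [Fintype ι] [DecidableEq ι]

theorem I2a_hk_BM {s : ℝ} (hs : 0 < s) : BM (hk s) := by
  have hc : Continuous (hk s) := hkD_continuous 0 hs
  refine ⟨hc.measurable, hk s 0, fun x => ?_⟩
  rw [abs_of_nonneg (hk_nonneg s x)]
  exact hk_le_zero hs x

/-- sum of the other heat kernels, as a function of the position `y` and the configuration `x` -/
noncomputable def I2a_S (s : ℝ) (m : ι) (y : T3) (x : ι → T3) : ℝ :=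
  ∑ j ∈ Finset.univ.erase m, hk s (y - x j)

theorem I2a_S_BM {s : ℝ} (hs : 0 < s) (m : ι) :
    BM (fun z : T3 × (ι → T3) => I2a_S s m z.1 z.2) := by
  unfold I2a_S
  refine BM.finset_sum _ (fun j _ => ?_)
  exact (I2a_hk_BM hs).comp (by fun_prop)

theorem I2a_S_nonneg (s : ℝ) (m : ι) (y : T3) (x : ι → T3) : 0 ≤ I2a_S s m y x :=
  Finset.sum_nonneg fun j _ => hk_nonneg s _

theorem I2a_crowd (s : ℝ) (m : ι) (x : ι → T3) : crowd s m x = I2a_S s m (x m) x := rfl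

theorem I2a_crowd_update (s : ℝ) (m : ι) (x : ι → T3) (y : T3) :
    crowd s m (update x m y) = I2a_S s m y x := by
  unfold crowd I2a_S
  refine Finset.sum_congr rfl fun j hj => ?_
  rw [update_self, update_of_ne (Finset.ne_of_mem_erase hj)]

theorem I2a_crowd_BM {s : ℝ} (hs : 0 < s) (m : ι) : BM (fun x : ι → T3 => crowd s m x) := by
  have h := (I2a_S_BM (ι := ι) hs m).comp (φ := fun x : ι → T3 => (x m, x)) (by fun_prop)
  exact h

theorem I2a_crowd_nonneg (s : ℝ) (m : ι) (x : ι → T3) : 0 ≤ crowd s m x :=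
  Finset.sum_nonneg fun j _ => hk_nonneg s _

theorem I2a_sq_int {ψ : (ι → T3) → ℂ} (hψ : MemLp ψ 2 (piN ι)) :
    Integrable (fun x => ‖ψ x‖ ^ 2) (piN ι) := by
  have := (memLp_two_iff_integrable_sq_norm hψ.1).1 hψ
  exact this

theorem I2a_int1 {ψ : (ι → T3) → ℂ} (hψ : MemLp ψ 2 (piN ι)) {F : (ι → T3) → ℝ} (hF : BM F) :
    Integrable (fun x => F x * ‖ψ x‖ ^ 2) (piN ι) := by
  obtain ⟨C, hC⟩ := hF.bdd
  exact (I2a_sq_int hψ).bdd_mul hF.meas.aestronglyMeasurable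
    (Filter.Eventually.of_forall (fun x => by rw [Real.norm_eq_abs]; exact hC x))

theorem I2a_int2 {ψ : (ι → T3) → ℂ} (hψ : MemLp ψ 2 (piN ι)) {F : T3 × (ι → T3) → ℝ} (hF : BM F) :
    Integrable (fun z : T3 × (ι → T3) => F z * ‖ψ z.2‖ ^ 2) (lam3.prod (piN ι)) := by
  obtain ⟨C, hC⟩ := hF.bdd
  have h : Integrable (fun z : T3 × (ι → T3) => ‖ψ z.2‖ ^ 2) (lam3.prod (piN ι)) :=
    (I2a_sq_int hψ).comp_snd lam3
  exact h.bdd_mul hF.meas.aestronglyMeasurable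
    (Filter.Eventually.of_forall (fun x => by rw [Real.norm_eq_abs]; exact hC x))

/-- iterated integral against `‖ψ‖²` -/
noncomputable def I2a_J (ψ : (ι → T3) → ℂ) (F : T3 → (ι → T3) → ℝ) : ℝ :=
  ∫ y, ∫ x, F y x * ‖ψ x‖ ^ 2 ∂(piN ι) ∂lam3

theorem I2a_J_eq {ψ : (ι → T3) → ℂ} (hψ : MemLp ψ 2 (piN ι)) {F : T3 → (ι → T3) → ℝ}
    (hF : BM (uncurry F)) :
    I2a_J ψ F = ∫ z, uncurry F z * ‖ψ z.2‖ ^ 2 ∂(lam3.prod (piN ι)) := by
  rw [integral_prod _ (I2a_int2 hψ hF)]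
  rfl

theorem I2a_J_mono {ψ : (ι → T3) → ℂ} (hψ : MemLp ψ 2 (piN ι)) {F G : T3 → (ι → T3) → ℝ}
    (hF : BM (uncurry F)) (hG : BM (uncurry G)) (h : ∀ y x, F y x ≤ G y x) :
    I2a_J ψ F ≤ I2a_J ψ G := by
  rw [I2a_J_eq hψ hF, I2a_J_eq hψ hG]
  refine integral_mono (I2a_int2 hψ hF) (I2a_int2 hψ hG) fun z => ?_
  exact mul_le_mul_of_nonneg_right (h z.1 z.2) (by positivity)

theorem I2a_J_add {ψ : (ι → T3) → ℂ} (hψ : MemLp ψ 2 (piN ι)) {F G : T3 → (ι → T3) → ℝ}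
    (hF : BM (uncurry F)) (hG : BM (uncurry G)) (a b : ℝ) :
    I2a_J ψ (fun y x => a * F y x + b * G y x) = a * I2a_J ψ F + b * I2a_J ψ G := by
  have h3 : BM (uncurry (fun y x => a * F y x + b * G y x)) :=
    (hF.const_mul a).add (hG.const_mul b)
  rw [I2a_J_eq hψ hF, I2a_J_eq hψ hG, I2a_J_eq hψ h3, ← integral_const_mul, ← integral_const_mul,
    ← integral_add ((I2a_int2 hψ hF).const_mul a) ((I2a_int2 hψ hG).const_mul b)]
  refine integral_congr_ae (Filter.Eventually.of_forall fun z => ?_)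
  simp only [uncurry]
  ring

theorem I2a_J_one {ψ : (ι → T3) → ℂ} (h1 : ∫ x, ‖ψ x‖ ^ 2 ∂(piN ι) = 1) :
    I2a_J ψ (fun _ _ => 1) = 1 := by
  unfold I2a_J
  simp only [one_mul]
  rw [h1]
  simp

theorem I2a_J_hk {ψ : (ι → T3) → ℂ} (hψ : MemLp ψ 2 (piN ι))
    (h1 : ∫ x, ‖ψ x‖ ^ 2 ∂(piN ι) = 1) {r : ℝ} (hr : 0 < r) (m : ι) :
    I2a_J ψ (fun y x => hk r (y - x m)) = 1 := by
  have hB : BM (uncurry (fun (y : T3) (x : ι → T3) => hk r (y - x m))) :=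
    (I2a_hk_BM hr).comp (by fun_prop)
  rw [I2a_J_eq hψ hB, integral_prod_symm _ (I2a_int2 hψ hB)]
  simp only [uncurry]
  have h2 : ∀ x : ι → T3, ∫ y, hk r (y - x m) * ‖ψ x‖ ^ 2 ∂lam3 = ‖ψ x‖ ^ 2 := by
    intro x
    rw [integral_mul_const, integral_sub_right_eq_self (fun y => hk r y) (x m), hk_integral hr,
      one_mul]
  simp only [h2]
  exact h1

/-- the basic splitting of the square of a difference -/
theorem I2a_split {ψ G : (ι → T3) → ℂ} (hψ : MemLp ψ 2 (piN ι)) (hG : MemLp G 2 (piN ι))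
    {P : (ι → T3) → ℝ} (hP : BM P) (hP0 : ∀ x, 0 ≤ P x) :
    ∫ x, ‖ψ x - G x‖ ^ 2 * P x ∂(piN ι)
      ≤ 2 * ∫ x, P x * ‖ψ x‖ ^ 2 ∂(piN ι) + 2 * ∫ x, ‖G x‖ ^ 2 * P x ∂(piN ι) := by
  have e1 : ∫ x, ‖G x‖ ^ 2 * P x ∂(piN ι) = ∫ x, P x * ‖G x‖ ^ 2 ∂(piN ι) := by
    refine integral_congr_ae (Filter.Eventually.of_forall fun x => ?_)
    simp only [mul_comm]
  have e2 : ∫ x, ‖ψ x - G x‖ ^ 2 * P x ∂(piN ι) = ∫ x, P x * ‖(ψ - G) x‖ ^ 2 ∂(piN ι) := by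
    refine integral_congr_ae (Filter.Eventually.of_forall fun x => ?_)
    simp only [Pi.sub_apply, mul_comm]
  rw [e1, e2, ← integral_const_mul, ← integral_const_mul,
    ← integral_add ((I2a_int1 hψ hP).const_mul 2) ((I2a_int1 hG hP).const_mul 2)]
  refine integral_mono (I2a_int1 (hψ.sub hG) hP)
    (((I2a_int1 hψ hP).const_mul 2).add ((I2a_int1 hG hP).const_mul 2)) fun x => ?_
  simp only [Pi.sub_apply]
  have h1 : ‖ψ x - G x‖ ^ 2 ≤ 2 * ‖ψ x‖ ^ 2 + 2 * ‖G x‖ ^ 2 := by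
    have h2 := norm_sub_le (ψ x) (G x)
    have h3 : ‖ψ x - G x‖ ^ 2 ≤ (‖ψ x‖ + ‖G x‖) ^ 2 := by
      gcongr
    nlinarith [sq_nonneg (‖ψ x‖ - ‖G x‖)]
  have := mul_le_mul_of_nonneg_left h1 (hP0 x)
  linarith

theorem I2a_pow {A M : ℝ} (hA : 0 ≤ A) (hM : 0 ≤ M) :
    (A + M) ^ 40 ≤ 2 ^ 39 * A ^ 40 + 2 ^ 39 * M ^ 40 := by
  have := add_pow_le hA hM 40
  norm_num at this ⊢
  linarith

theorem high_moments (θ cw Kμ : ℝ) (hθ : 1 ≤ θ) (hcw : 0 < cw) (hKμ : 0 ≤ Kμ) :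
    ∃ C Y0 : ℝ, 0 < C ∧ 0 < Y0 ∧ ∀ Y : ℝ, 0 < Y → Y < Y0 → ∀ (l R a : ℝ) (w : ℝ → ℝ)
      (N : ℕ) (R₀ e : ℝ) (𝒱 : T3 → ℝ≥0∞) (ψ : (Fin N → T3) → ℂ)
      (g : Fin N → Fin 3 → (Fin N → T3) → ℂ), Par θ cw Kμ Y l R a w N R₀ 𝒱 →
      Mini R₀ 𝒱 (Kμ / l ^ 2) e ψ g →
      ∀ s r : ℝ, 0 < s → 2 * s ≤ l ^ 2 → 1 ≤ N * (Real.sqrt s) ^ 3 → 0 < r → r ≤ l ^ 2 →
      (∑ m, ∫ x, ‖ψ x - avj m ψ x‖ ^ 2 * (crowd s m x + N) ^ 40 ∂(piN (Fin N))
        ≤ C * (N : ℝ) ^ 41) ∧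
      (∑ m, ∫ x, ‖ψ x - htj r m ψ x‖ ^ 2 * (crowd s m x + N) ^ 40 ∂(piN (Fin N))
        ≤ C * (N : ℝ) ^ 41) := by
  obtain ⟨C1, Y1, hC1, hY1, H1⟩ := crowd_moments θ cw Kμ hθ hcw hKμ 40
  obtain ⟨C2, Y2, hC2, hY2, H2⟩ := smeared θ cw Kμ hθ hcw hKμ 40
  refine ⟨2 ^ 40 * (C1 + 1) + 2 ^ 40 * (C2 + 1), min Y1 Y2, by positivity, lt_min hY1 hY2, ?_⟩
  intro Y hY hYlt l R a w N R₀ e 𝒱 ψ g hpar hmini s r hs hsl hsN hr hrl
  have hsl' : s ≤ l ^ 2 := by linarith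
  have K1 := H1 Y hY (hYlt.trans_le (min_le_left _ _)) l R a w N R₀ e 𝒱 ψ g hpar hmini s hs hsl hsN
  obtain ⟨K2, K3⟩ := H2 Y hY (hYlt.trans_le (min_le_right _ _)) l R a w N R₀ e 𝒱 ψ g hpar hmini s r
    hs hsl' hsN hr hrl
  have hψ : MemLp ψ 2 (piN (Fin N)) := hmini.fe.hg.mem
  have h1 : ∫ x, ‖ψ x‖ ^ 2 ∂(piN (Fin N)) = 1 := hmini.nrm
  have hN0 : (0 : ℝ) ≤ N := Nat.cast_nonneg N
  have hPBM : ∀ m : Fin N, BM (fun x : Fin N → T3 => (crowd s m x + N) ^ 40) := fun m =>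
    ((I2a_crowd_BM hs m).add (BM.const _)).pow 40
  have hP0 : ∀ (m : Fin N) (x : Fin N → T3), 0 ≤ (crowd s m x + (N : ℝ)) ^ 40 := fun m x => by
    have := I2a_crowd_nonneg s m x
    positivity
  have hcard : ∑ m : Fin N, (N : ℝ) ^ 40 = (N : ℝ) ^ 41 := by
    rw [Finset.sum_const, Finset.card_univ, Fintype.card_fin, nsmul_eq_mul]
    ring
  -- the part with ψ
  have hA : ∑ m, ∫ x, (crowd s m x + N) ^ 40 * ‖ψ x‖ ^ 2 ∂(piN (Fin N))
      ≤ 2 ^ 39 * (C1 + 1) * (N : ℝ) ^ 41 := by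
    have hB : ∀ m : Fin N, ∫ x, (crowd s m x + N) ^ 40 * ‖ψ x‖ ^ 2 ∂(piN (Fin N))
        ≤ 2 ^ 39 * (∫ x, crowd s m x ^ 40 * ‖ψ x‖ ^ 2 ∂(piN (Fin N))) + 2 ^ 39 * (N : ℝ) ^ 40 := by
      intro m
      have i1 := I2a_int1 hψ ((I2a_crowd_BM hs m).pow 40)
      have i2 := (I2a_sq_int hψ).const_mul (2 ^ 39 * (N : ℝ) ^ 40)
      have e1 : 2 ^ 39 * (∫ x, crowd s m x ^ 40 * ‖ψ x‖ ^ 2 ∂(piN (Fin N))) + 2 ^ 39 * (N : ℝ) ^ 40
          = ∫ x, (2 ^ 39 * (crowd s m x ^ 40 * ‖ψ x‖ ^ 2) + 2 ^ 39 * (N : ℝ) ^ 40 * ‖ψ x‖ ^ 2)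
              ∂(piN (Fin N)) := by
        rw [integral_add (i1.const_mul _) i2, integral_const_mul, integral_const_mul, h1, mul_one]
      rw [e1]
      refine integral_mono (I2a_int1 hψ (hPBM m)) ((i1.const_mul _).add i2) fun x => ?_
      have h2 := I2a_pow (I2a_crowd_nonneg s m x) hN0
      have h3 := mul_le_mul_of_nonneg_right h2 (by positivity : 0 ≤ ‖ψ x‖ ^ 2)
      linarith
    calc ∑ m, ∫ x, (crowd s m x + N) ^ 40 * ‖ψ x‖ ^ 2 ∂(piN (Fin N))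
        ≤ ∑ m : Fin N, (2 ^ 39 * (∫ x, crowd s m x ^ 40 * ‖ψ x‖ ^ 2 ∂(piN (Fin N)))
            + 2 ^ 39 * (N : ℝ) ^ 40) := Finset.sum_le_sum fun m _ => hB m
      _ = 2 ^ 39 * (∑ m : Fin N, ∫ x, crowd s m x ^ 40 * ‖ψ x‖ ^ 2 ∂(piN (Fin N)))
            + 2 ^ 39 * (N : ℝ) ^ 41 := by
          rw [Finset.sum_add_distrib, ← Finset.mul_sum, ← Finset.mul_sum, hcard]
      _ ≤ 2 ^ 39 * (C1 * (N : ℝ) ^ (40 + 1)) + 2 ^ 39 * (N : ℝ) ^ 41 := by gcongr
      _ = 2 ^ 39 * (C1 + 1) * (N : ℝ) ^ 41 := by ring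
  have hSBM : ∀ m : Fin N, BM (uncurry (fun (y : T3) (x : Fin N → T3) => I2a_S s m y x ^ 40)) :=
    fun m => (I2a_S_BM hs m).pow 40
  have h1BM : BM (uncurry (fun (y : T3) (x : Fin N → T3) => (1 : ℝ))) := BM.const 1
  have hUBM : ∀ m : Fin N, BM (uncurry (fun (y : T3) (x : Fin N → T3) =>
      (crowd s m (update x m y) + (N : ℝ)) ^ 40)) := fun m => by
    simp only [I2a_crowd_update]
    exact ((I2a_S_BM hs m).add (BM.const _)).pow 40
  have hkBM : ∀ m : Fin N, BM (uncurry (fun (y : T3) (x : Fin N → T3) => hk r (y - x m))) :=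
    fun m => (I2a_hk_BM hr).comp (by fun_prop)
  -- the part with the average
  have hav : ∑ m, ∫ x, ‖avj m ψ x‖ ^ 2 * (crowd s m x + N) ^ 40 ∂(piN (Fin N))
      ≤ 2 ^ 39 * (C2 + 1) * (N : ℝ) ^ 41 := by
    have hB : ∀ m : Fin N, ∫ x, ‖avj m ψ x‖ ^ 2 * (crowd s m x + N) ^ 40 ∂(piN (Fin N))
        ≤ 2 ^ 39 * (C2 + 1) * (N : ℝ) ^ 40 := by
      intro m
      refine (avj_cs hψ m (hPBM m) (hP0 m)).trans ?_
      have h2 : I2a_J ψ (fun y x => (crowd s m (update x m y) + (N : ℝ)) ^ 40)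
          ≤ I2a_J ψ (fun y x => 2 ^ 39 * (I2a_S s m y x ^ 40) + (2 ^ 39 * (N : ℝ) ^ 40) * 1) := by
        refine I2a_J_mono hψ (hUBM m) (((hSBM m).const_mul _).add (h1BM.const_mul _)) fun y x => ?_
        rw [I2a_crowd_update, mul_one]
        exact I2a_pow (I2a_S_nonneg s m y x) hN0
      rw [I2a_J_add hψ (hSBM m) h1BM, I2a_J_one h1] at h2
      have h3 : I2a_J ψ (fun y x => I2a_S s m y x ^ 40) ≤ C2 * (N : ℝ) ^ 40 := K3 m
      refine (h2 : _ ≤ _).trans ?_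
      nlinarith [h3]
    calc ∑ m, ∫ x, ‖avj m ψ x‖ ^ 2 * (crowd s m x + N) ^ 40 ∂(piN (Fin N))
        ≤ ∑ m : Fin N, 2 ^ 39 * (C2 + 1) * (N : ℝ) ^ 40 := Finset.sum_le_sum fun m _ => hB m
      _ = 2 ^ 39 * (C2 + 1) * (N : ℝ) ^ 41 := by rw [← Finset.mul_sum, hcard]
  -- the part with the heat flow
  have hht : ∑ m, ∫ x, ‖htj r m ψ x‖ ^ 2 * (crowd s m x + N) ^ 40 ∂(piN (Fin N))
      ≤ 2 ^ 39 * (C2 + 1) * (N : ℝ) ^ 41 := by
    have hB : ∀ m : Fin N, ∫ x, ‖htj r m ψ x‖ ^ 2 * (crowd s m x + N) ^ 40 ∂(piN (Fin N))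
        ≤ 2 ^ 39 * (∫ y, ∫ x, hk r (y - x m) * (∑ j ∈ Finset.univ.erase m, hk s (y - x j)) ^ 40
          * ‖ψ x‖ ^ 2 ∂(piN (Fin N)) ∂lam3) + 2 ^ 39 * (N : ℝ) ^ 40 := by
      intro m
      refine (htj_cs hψ hr m (hPBM m) (hP0 m)).trans ?_
      have hkS : BM (uncurry (fun (y : T3) (x : Fin N → T3) =>
          hk r (y - x m) * I2a_S s m y x ^ 40)) := (hkBM m).mul (hSBM m)
      have h2 : I2a_J ψ (fun y x => hk r (y - x m) * (crowd s m (update x m y) + (N : ℝ)) ^ 40)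
          ≤ I2a_J ψ (fun y x => 2 ^ 39 * (hk r (y - x m) * I2a_S s m y x ^ 40)
              + (2 ^ 39 * (N : ℝ) ^ 40) * hk r (y - x m)) := by
        refine I2a_J_mono hψ ((hkBM m).mul (hUBM m))
          ((hkS.const_mul _).add ((hkBM m).const_mul _)) fun y x => ?_
        rw [I2a_crowd_update]
        have h4 := mul_le_mul_of_nonneg_left (I2a_pow (I2a_S_nonneg s m y x) hN0)
          (hk_nonneg r (y - x m))
        linarith
      rw [I2a_J_add hψ hkS (hkBM m), I2a_J_hk hψ h1 hr m, mul_one] at h2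
      exact h2
    calc ∑ m, ∫ x, ‖htj r m ψ x‖ ^ 2 * (crowd s m x + N) ^ 40 ∂(piN (Fin N))
        ≤ ∑ m : Fin N, (2 ^ 39 * (∫ y, ∫ x, hk r (y - x m)
            * (∑ j ∈ Finset.univ.erase m, hk s (y - x j)) ^ 40
            * ‖ψ x‖ ^ 2 ∂(piN (Fin N)) ∂lam3) + 2 ^ 39 * (N : ℝ) ^ 40) :=
          Finset.sum_le_sum fun m _ => hB m
      _ = 2 ^ 39 * (∑ m : Fin N, ∫ y, ∫ x, hk r (y - x m)
            * (∑ j ∈ Finset.univ.erase m, hk s (y - x j)) ^ 40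
            * ‖ψ x‖ ^ 2 ∂(piN (Fin N)) ∂lam3) + 2 ^ 39 * (N : ℝ) ^ 41 := by
          rw [Finset.sum_add_distrib, ← Finset.mul_sum, ← Finset.mul_sum, hcard]
      _ ≤ 2 ^ 39 * (C2 * (N : ℝ) ^ (40 + 1)) + 2 ^ 39 * (N : ℝ) ^ 41 := by gcongr
      _ = 2 ^ 39 * (C2 + 1) * (N : ℝ) ^ 41 := by ring
  constructor
  · calc ∑ m, ∫ x, ‖ψ x - avj m ψ x‖ ^ 2 * (crowd s m x + N) ^ 40 ∂(piN (Fin N))
        ≤ ∑ m : Fin N, (2 * ∫ x, (crowd s m x + N) ^ 40 * ‖ψ x‖ ^ 2 ∂(piN (Fin N))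
            + 2 * ∫ x, ‖avj m ψ x‖ ^ 2 * (crowd s m x + N) ^ 40 ∂(piN (Fin N))) :=
          Finset.sum_le_sum fun m _ => I2a_split hψ (avj_memLp hψ m) (hPBM m) (hP0 m)
      _ = 2 * (∑ m : Fin N, ∫ x, (crowd s m x + N) ^ 40 * ‖ψ x‖ ^ 2 ∂(piN (Fin N)))
            + 2 * (∑ m : Fin N, ∫ x, ‖avj m ψ x‖ ^ 2 * (crowd s m x + N) ^ 40 ∂(piN (Fin N))) := by
          rw [Finset.sum_add_distrib, ← Finset.mul_sum, ← Finset.mul_sum]
      _ ≤ 2 * (2 ^ 39 * (C1 + 1) * (N : ℝ) ^ 41) + 2 * (2 ^ 39 * (C2 + 1) * (N : ℝ) ^ 41) := by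
          gcongr
      _ = (2 ^ 40 * (C1 + 1) + 2 ^ 40 * (C2 + 1)) * (N : ℝ) ^ 41 := by ring
  · calc ∑ m, ∫ x, ‖ψ x - htj r m ψ x‖ ^ 2 * (crowd s m x + N) ^ 40 ∂(piN (Fin N))
        ≤ ∑ m : Fin N, (2 * ∫ x, (crowd s m x + N) ^ 40 * ‖ψ x‖ ^ 2 ∂(piN (Fin N))
            + 2 * ∫ x, ‖htj r m ψ x‖ ^ 2 * (crowd s m x + N) ^ 40 ∂(piN (Fin N))) :=
          Finset.sum_le_sum fun m _ => I2a_split hψ (htj_memLp hψ hr m) (hPBM m) (hP0 m)
      _ = 2 * (∑ m : Fin N, ∫ x, (crowd s m x + N) ^ 40 * ‖ψ x‖ ^ 2 ∂(piN (Fin N)))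
            + 2 * (∑ m : Fin N, ∫ x, ‖htj r m ψ x‖ ^ 2 * (crowd s m x + N) ^ 40 ∂(piN (Fin N))) := by
          rw [Finset.sum_add_distrib, ← Finset.mul_sum, ← Finset.mul_sum]
      _ ≤ 2 * (2 ^ 39 * (C1 + 1) * (N : ℝ) ^ 41) + 2 * (2 ^ 39 * (C2 + 1) * (N : ℝ) ^ 41) := by
          gcongr
      _ = (2 ^ 40 * (C1 + 1) + 2 ^ 40 * (C2 + 1)) * (N : ℝ) ^ 41 := by ring

end Pool.Agent.Lib.MP_4952d6_mp.LA

end

/-! ### LA.I2 -/

section

/-!
# JOB LA-I2: the local moment bounds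

`m0`: `crowd_moments` with `q = 1`.  `m1`, `m2` (`high_moments` with `r = t/2`): pointwise with `u = (crowd + N)/N ≥ 0` and `Λ = Y^(-1/40)`: `u² ≤ Λ² + u^40 Λ^(-38)`, so
`∑ ∫ ‖G‖² (crowd + N)² ≤ N² (Λ² ∑ ∫ ‖G‖² + Λ^(-38) N^(-40) ∑ ∫ ‖G‖² (crowd+N)^40) ≤ N² (Λ² 2 Y N + Λ^(-38) C N)`, `Λ² Y = Y^(19/20) = Λ^(-38)`.
(`∑ ∫ ‖ψ - avj m ψ‖² ≤ ∑ nuQ ≤ 2 Y N`: `avj_sub`, `htj_sub`.)
-/

set_option autoImplicit false
set_option linter.unusedSectionVars false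
set_option linter.unusedVariables false
open MeasureTheory Function Filter Topology Set ComplexConjugate
open scoped ENNReal

namespace Pool.Agent.Lib.MP_4952d6_mp.LA

variable {ι : Type*} [Fintype ι] [DecidableEq ι]

theorem I2_young {u Λ : ℝ} (hu : 0 ≤ u) (hΛ : 0 < Λ) :
    u ^ 2 ≤ Λ ^ 2 + u ^ 40 * (Λ⁻¹) ^ 38 := by
  rcases le_or_gt u Λ with h | h
  · have h1 := pow_le_pow_left₀ hu h 2
    have h2 : 0 ≤ u ^ 40 * (Λ⁻¹) ^ 38 := by positivity
    linarith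
  · have h1 : 1 ≤ u * Λ⁻¹ := by
      rw [← div_eq_mul_inv, one_le_div hΛ]
      exact h.le
    have h2 : 1 ≤ (u * Λ⁻¹) ^ 38 := one_le_pow₀ h1
    have h3 : u ^ 40 * (Λ⁻¹) ^ 38 = u ^ 2 * (u * Λ⁻¹) ^ 38 := by ring
    rw [h3]
    nlinarith [sq_nonneg u, sq_nonneg Λ]

theorem I2_crowd {s : ℝ} (hs : 0 < s) (m : ι) : BM (crowd s m) := by
  unfold crowd
  refine BM.finset_sum _ fun j _ => ?_
  have hK : BM (hk s) :=
    BM.of_mem_Icc (hkD_continuous 0 hs).measurable fun x => ⟨hk_nonneg s x, hk_le hs x⟩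
  exact hK.comp ((measurable_pi_apply m).sub (measurable_pi_apply j))

theorem I2_crowd_nonneg (s : ℝ) (m : ι) (x : ι → T3) : 0 ≤ crowd s m x :=
  Finset.sum_nonneg fun j _ => hk_nonneg _ _

theorem I2_int {G : (ι → T3) → ℂ} (hG : MemLp G 2 (piN ι)) {P : (ι → T3) → ℝ} (hP : BM P) :
    Integrable (fun x => ‖G x‖ ^ 2 * P x) (piN ι) := by
  have h1 : Integrable (fun x => ‖G x‖ ^ 2) (piN ι) := hG.integrable_norm_pow two_ne_zero
  obtain ⟨C, hC⟩ := hP.bdd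
  exact h1.mul_bdd hP.meas.aestronglyMeasurable (Eventually.of_forall hC)

theorem I2_one {G : (ι → T3) → ℂ} (hG : MemLp G 2 (piN ι)) {P : (ι → T3) → ℝ} (hP : BM P)
    (hP0 : ∀ x, 0 ≤ P x) {n Λ : ℝ} (hn : 0 < n) (hΛ : 0 < Λ) :
    ∫ x, ‖G x‖ ^ 2 * P x ^ 2 ∂(piN ι) ≤ n ^ 2 * Λ ^ 2 * ∫ x, ‖G x‖ ^ 2 ∂(piN ι)
      + ((n⁻¹) ^ 38 * (Λ⁻¹) ^ 38) * ∫ x, ‖G x‖ ^ 2 * P x ^ 40 ∂(piN ι) := by
  have h1 : Integrable (fun x => ‖G x‖ ^ 2) (piN ι) := hG.integrable_norm_pow two_ne_zero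
  rw [← integral_const_mul, ← integral_const_mul,
    ← integral_add (h1.const_mul _) ((I2_int hG (hP.pow 40)).const_mul _)]
  refine integral_mono_ae (I2_int hG (hP.pow 2))
    ((h1.const_mul _).add ((I2_int hG (hP.pow 40)).const_mul _))
    (Eventually.of_forall fun x => ?_)
  simp only
  have h2 := I2_young (u := P x * n⁻¹) (mul_nonneg (hP0 x) (by positivity)) hΛ
  have h3 := mul_le_mul_of_nonneg_left h2 (by positivity : 0 ≤ ‖G x‖ ^ 2 * n ^ 2)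
  have e1 : ‖G x‖ ^ 2 * n ^ 2 * (P x * n⁻¹) ^ 2 = ‖G x‖ ^ 2 * P x ^ 2 := by
    field_simp
  have e2 : ‖G x‖ ^ 2 * n ^ 2 * (Λ ^ 2 + (P x * n⁻¹) ^ 40 * (Λ⁻¹) ^ 38) =
      n ^ 2 * Λ ^ 2 * ‖G x‖ ^ 2 + ((n⁻¹) ^ 38 * (Λ⁻¹) ^ 38) * (‖G x‖ ^ 2 * P x ^ 40) := by
    field_simp
  rw [e1, e2] at h3
  exact h3

theorem I2_sum {N : ℕ} (hN : 0 < N) {Y C : ℝ} (hY : 0 < Y) {ψ : (Fin N → T3) → ℂ}
    (hν : (∑ i, nuQ (fc ψ) i) ≤ 2 * Y * N)
    {G : Fin N → (Fin N → T3) → ℂ} (hG : ∀ m, MemLp (G m) 2 (piN (Fin N)))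
    (hGν : ∀ m, ∫ x, ‖G m x‖ ^ 2 ∂(piN (Fin N)) ≤ nuQ (fc ψ) m) {s : ℝ} (hs : 0 < s)
    (h40 : ∑ m, ∫ x, ‖G m x‖ ^ 2 * (crowd s m x + N) ^ 40 ∂(piN (Fin N)) ≤ C * (N : ℝ) ^ 41) :
    ∑ m, ∫ x, ‖G m x‖ ^ 2 * (crowd s m x + N) ^ 2 ∂(piN (Fin N))
      ≤ (C + 2) * (N : ℝ) ^ 3 * Y ^ ((19 : ℝ) / 20) := by
  have hn : (0 : ℝ) < N := by exact_mod_cast hN
  set Λ : ℝ := Y ^ (-(1 : ℝ) / 40) with hΛd
  have hΛ : 0 < Λ := Real.rpow_pos_of_pos hY _
  have e1 : Λ ^ 2 * Y = Y ^ ((19 : ℝ) / 20) := by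
    rw [hΛd, ← Real.rpow_natCast, ← Real.rpow_mul hY.le]
    nth_rewrite 2 [← Real.rpow_one Y]
    rw [← Real.rpow_add hY]
    congr 1
    norm_num
  have e2 : (Λ⁻¹) ^ 38 = Y ^ ((19 : ℝ) / 20) := by
    rw [hΛd, ← Real.rpow_neg hY.le, ← Real.rpow_natCast, ← Real.rpow_mul hY.le]
    congr 1
    norm_num
  have h1 : ∀ m, ∫ x, ‖G m x‖ ^ 2 * (crowd s m x + N) ^ 2 ∂(piN (Fin N)) ≤
      (N : ℝ) ^ 2 * Λ ^ 2 * nuQ (fc ψ) m + ((((N : ℝ)⁻¹) ^ 38 * (Λ⁻¹) ^ 38) *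
        ∫ x, ‖G m x‖ ^ 2 * (crowd s m x + N) ^ 40 ∂(piN (Fin N))) := by
    intro m
    refine (I2_one (hG m) ((I2_crowd hs m).add (BM.const (N : ℝ)))
      (fun x => add_nonneg (I2_crowd_nonneg s m x) hn.le) hn hΛ).trans ?_
    exact add_le_add_left (mul_le_mul_of_nonneg_left (hGν m) (by positivity)) _
  refine (Finset.sum_le_sum fun m _ => h1 m).trans ?_
  rw [Finset.sum_add_distrib, ← Finset.mul_sum, ← Finset.mul_sum]
  have h2 := mul_le_mul_of_nonneg_left hν (by positivity : 0 ≤ (N : ℝ) ^ 2 * Λ ^ 2)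
  have h3 := mul_le_mul_of_nonneg_left h40
    (by positivity : 0 ≤ ((N : ℝ)⁻¹) ^ 38 * (Λ⁻¹) ^ 38)
  refine (add_le_add h2 h3).trans (le_of_eq ?_)
  have e3 : ((N : ℝ)⁻¹) ^ 38 * (N : ℝ) ^ 41 = (N : ℝ) ^ 3 := by
    field_simp
  calc (N : ℝ) ^ 2 * Λ ^ 2 * (2 * Y * N) + ((N : ℝ)⁻¹) ^ 38 * (Λ⁻¹) ^ 38 * (C * (N : ℝ) ^ 41)
      = 2 * (N : ℝ) ^ 3 * (Λ ^ 2 * Y) + C * (((N : ℝ)⁻¹) ^ 38 * (N : ℝ) ^ 41) * (Λ⁻¹) ^ 38 := by
        ring
    _ = (C + 2) * (N : ℝ) ^ 3 * Y ^ ((19 : ℝ) / 20) := by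
        rw [e1, e2, e3]
        ring

theorem locM (θ cw Kμ : ℝ) (hθ : 1 ≤ θ) (hcw : 0 < cw) (hKμ : 0 ≤ Kμ) :
    ∃ C Y0 : ℝ, 0 < C ∧ 0 < Y0 ∧ ∀ Y : ℝ, 0 < Y → Y < Y0 → ∀ (l R a : ℝ) (w : ℝ → ℝ)
      (N : ℕ) (R₀ e : ℝ) (𝒱 : T3 → ℝ≥0∞) (ψ : (Fin N → T3) → ℂ)
      (g : Fin N → Fin 3 → (Fin N → T3) → ℂ), Par θ cw Kμ Y l R a w N R₀ 𝒱 →
      Mini R₀ 𝒱 (Kμ / l ^ 2) e ψ g → (∑ i, nuQ (fc ψ) i) ≤ 2 * Y * N →
      ∀ t : ℝ, 0 < t → 16 * t ≤ l ^ 2 → 1 ≤ N * (Real.sqrt (t / 8)) ^ 3 → LocM C Y t ψ := by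
  obtain ⟨C1, Y1, hC1, hY1, H1⟩ := crowd_moments θ cw Kμ hθ hcw hKμ 1
  obtain ⟨C2, Y2, hC2, hY2, H2⟩ := high_moments θ cw Kμ hθ hcw hKμ
  refine ⟨C1 + (C2 + 2), min Y1 Y2, by positivity, lt_min hY1 hY2, ?_⟩
  intro Y hY hYlt l R a w N R₀ e 𝒱 ψ g hPar hMini hν t ht ht16 htN
  have hYl1 : Y < Y1 := hYlt.trans_le (min_le_left _ _)
  have hYl2 : Y < Y2 := hYlt.trans_le (min_le_right _ _)
  have hψ : MemLp ψ 2 (piN (Fin N)) := hMini.fe.hg.mem
  have hN : 0 < N := by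
    rcases Nat.eq_zero_or_pos N with h | h
    · exfalso
      rw [h] at htN
      norm_num at htN
    · exact h
  have hn : (0 : ℝ) < N := by exact_mod_cast hN
  have hs1 : ∀ s, t / 8 ≤ s → s ≤ 8 * t → 0 < s ∧ 2 * s ≤ l ^ 2 ∧ 1 ≤ N * (Real.sqrt s) ^ 3 := by
    intro s h1 h2
    refine ⟨by linarith, by linarith, htN.trans ?_⟩
    refine mul_le_mul_of_nonneg_left ?_ hn.le
    exact pow_le_pow_left₀ (Real.sqrt_nonneg _) (Real.sqrt_le_sqrt h1) 3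
  have ht2 : 0 < t / 2 := by linarith
  have ht2l : t / 2 ≤ l ^ 2 := by linarith
  have hYp : 0 < Y ^ ((19 : ℝ) / 20) := Real.rpow_pos_of_pos hY _
  refine ⟨?_, ?_, ?_⟩
  · intro s h1 h2
    obtain ⟨hs, hsl, hsN⟩ := hs1 s h1 h2
    have h3 := H1 Y hY hYl1 l R a w N R₀ e 𝒱 ψ g hPar hMini s hs hsl hsN
    rw [Fintype.card_fin]
    have h4 : ∀ m, ∫ x, ‖ψ x‖ ^ 2 * crowd s m x ∂(piN (Fin N)) =
        ∫ x, crowd s m x ^ 1 * ‖ψ x‖ ^ 2 ∂(piN (Fin N)) := by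
      intro m
      refine integral_congr_ae (Eventually.of_forall fun x => ?_)
      simp only [pow_one]
      ring
    rw [Finset.sum_congr rfl fun m _ => h4 m]
    refine h3.trans ?_
    refine mul_le_mul_of_nonneg_right ?_ (by positivity)
    linarith
  · intro s h1 h2
    obtain ⟨hs, hsl, hsN⟩ := hs1 s h1 h2
    have h3 := (H2 Y hY hYl2 l R a w N R₀ e 𝒱 ψ g hPar hMini s (t / 2) hs hsl hsN ht2 ht2l).1
    rw [Fintype.card_fin]
    refine (I2_sum hN hY hν (G := fun m x => ψ x - avj m ψ x)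
      (fun m => hψ.sub (avj_memLp hψ m)) (fun m => avj_sub hψ m) hs h3).trans ?_
    refine mul_le_mul_of_nonneg_right (mul_le_mul_of_nonneg_right ?_ (by positivity)) hYp.le
    linarith
  · intro s h1 h2
    obtain ⟨hs, hsl, hsN⟩ := hs1 s h1 h2
    have h3 := (H2 Y hY hYl2 l R a w N R₀ e 𝒱 ψ g hPar hMini s (t / 2) hs hsl hsN ht2 ht2l).2
    rw [Fintype.card_fin]
    refine (I2_sum hN hY hν (G := fun m x => ψ x - htj (t / 2) m ψ x)
      (fun m => hψ.sub (htj_memLp hψ ht2 m)) (fun m => htj_sub hψ ht2 m) hs h3).trans ?_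
    refine mul_le_mul_of_nonneg_right (mul_le_mul_of_nonneg_right ?_ (by positivity)) hYp.le
    linarith

end Pool.Agent.Lib.MP_4952d6_mp.LA

end

/-! ### LC.F2a -/

section

set_option autoImplicit false
set_option linter.unusedSectionVars false
set_option linter.unusedVariables false
open MeasureTheory Function Filter Topology Set

namespace Pool.Agent.Lib.MP_4952d6_mp

/-! # F2a: Riemann sums on the lattice, step function

For `h > 0` let `fl h x = (h ⌊x α / h⌋)_α`. The cubes `{x | ⌊x α/h⌋ = p α ∀ α}` tile `ℝ³` and have volume `h³`, so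
`∫ F (fl h x) dx = h³ ∑_p F (h p)` (for `F` with exponential decay, absolutely convergent). -/

/-- The lattice point below `x`. -/
noncomputable def F2a_fm (h : ℝ) (x : Fin 3 → ℝ) : Fin 3 → ℤ := fun α => ⌊x α / h⌋

theorem F2a_fm_measurable (h : ℝ) : Measurable (F2a_fm h) := by
  refine measurable_pi_lambda _ fun α => ?_
  have h1 : Measurable (fun x : Fin 3 → ℝ => x α / h) := by fun_prop
  exact Int.measurable_floor.comp h1

theorem F2a_preimage {h : ℝ} (hh : 0 < h) (p : Fin 3 → ℤ) :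
    F2a_fm h ⁻¹' {p} = Set.pi univ (fun α => Ico (h * (p α : ℝ)) (h * ((p α : ℝ) + 1))) := by
  ext x
  simp only [mem_preimage, mem_singleton_iff, Set.mem_pi, mem_univ, true_imp_iff, mem_Ico,
    funext_iff, F2a_fm]
  refine forall_congr' fun α => ?_
  rw [Int.floor_eq_iff, le_div_iff₀ hh, div_lt_iff₀ hh, mul_comm h, mul_comm h]

theorem F2a_map {h : ℝ} (hh : 0 < h) :
    Measure.map (F2a_fm h) (volume : Measure (Fin 3 → ℝ))
      = ENNReal.ofReal (h ^ 3) • (Measure.count : Measure (Fin 3 → ℤ)) := by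
  rw [Measure.ext_iff_singleton]
  intro p
  rw [Measure.map_apply (F2a_fm_measurable h) (measurableSet_singleton p), F2a_preimage hh,
    Measure.smul_apply, Measure.count_singleton, smul_eq_mul, mul_one, Real.volume_pi_Ico]
  have h1 : ∀ α : Fin 3, h * ((p α : ℝ) + 1) - h * (p α : ℝ) = h := fun α => by ring
  simp only [h1]
  rw [Finset.prod_const, Finset.card_univ, Fintype.card_fin, ENNReal.ofReal_pow hh.le]

theorem F2a_integrable_iff {h : ℝ} (hh : 0 < h) (G : (Fin 3 → ℤ) → ℝ) :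
    Integrable (fun x : Fin 3 → ℝ => G (F2a_fm h x)) ↔ Summable G := by
  have h1 : Integrable G (Measure.map (F2a_fm h) (volume : Measure (Fin 3 → ℝ)))
      ↔ Integrable (G ∘ F2a_fm h) volume :=
    integrable_map_measure (measurable_of_countable G).aestronglyMeasurable
      (F2a_fm_measurable h).aemeasurable
  have h2 : ENNReal.ofReal (h ^ 3) ≠ 0 := by
    rw [Ne, ENNReal.ofReal_eq_zero, not_le]
    positivity
  change Integrable (G ∘ F2a_fm h) volume ↔ Summable G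
  rw [← h1, F2a_map hh, integrable_smul_measure h2 ENNReal.ofReal_ne_top, integrable_count_iff,
    summable_norm_iff]

theorem F2a_integral {h : ℝ} (hh : 0 < h) {G : (Fin 3 → ℤ) → ℝ} (hG : Summable G) :
    ∫ x : Fin 3 → ℝ, G (F2a_fm h x) = h ^ 3 * ∑' p, G p := by
  have h1 : ∫ y, G y ∂(Measure.map (F2a_fm h) (volume : Measure (Fin 3 → ℝ)))
      = ∫ x : Fin 3 → ℝ, G (F2a_fm h x) :=
    integral_map (F2a_fm_measurable h).aemeasurable
      (measurable_of_countable G).aestronglyMeasurable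
  rw [← h1, F2a_map hh, integral_smul_measure, ENNReal.toReal_ofReal (by positivity), smul_eq_mul,
    integral_countable (integrable_count_iff.2 hG.norm)]
  congr 1
  refine tsum_congr fun p => ?_
  rw [Measure.real, Measure.count_singleton, ENNReal.toReal_one, one_smul]

/-! ### Distances -/

theorem F2a_nr_sub (x y : Fin 3 → ℝ) : nr x ≤ nr y + nr (fun α => x α - y α) := by
  rw [nr_eq, nr_eq, nr_eq]
  have h : (WithLp.toLp 2 x : EuclideanSpace ℝ (Fin 3))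
      = WithLp.toLp 2 y + WithLp.toLp 2 (fun α => x α - y α) := by
    ext α
    simp
  rw [h]
  exact norm_add_le _ _

theorem F2a_near {h : ℝ} (hh : 0 < h) (x : Fin 3 → ℝ) (α : Fin 3) :
    |x α - h * (⌊x α / h⌋ : ℝ)| ≤ h := by
  have h1 := Int.floor_le (x α / h)
  have h2 := Int.lt_floor_add_one (x α / h)
  rw [le_div_iff₀ hh] at h1
  rw [div_lt_iff₀ hh] at h2
  rw [abs_le]
  constructor
  · linarith
  · linarith

theorem F2a_nr_near {h : ℝ} (hh : 0 < h) (x : Fin 3 → ℝ) :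
    nr x ≤ nr (fun α => h * (⌊x α / h⌋ : ℝ)) + 2 * h := by
  refine (F2a_nr_sub x (fun α => h * (⌊x α / h⌋ : ℝ))).trans ?_
  refine add_le_add le_rfl ?_
  refine Real.sqrt_le_iff.2 ⟨by positivity, ?_⟩
  have h1 : ∀ α : Fin 3, (x α - h * (⌊x α / h⌋ : ℝ)) ^ 2 ≤ h ^ 2 := by
    intro α
    have h2 := F2a_near hh x α
    rw [← sq_abs]
    exact pow_le_pow_left₀ (abs_nonneg _) h2 2
  rw [Fin.sum_univ_three]
  nlinarith [h1 0, h1 1, h1 2, sq_nonneg h]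

/-! ### Exponential decay -/

/-- Exponentials are integrable. -/
theorem F2a_exp_integrable {c : ℝ} (hc : 0 < c) :
    Integrable (fun x : Fin 3 → ℝ => Real.exp (-(c * nr x))) := by
  refine (integrable_nr (fun r => Real.exp (-(c * r)))).2 ?_
  have h := integrableOn_rpow_mul_exp_neg_mul_rpow (p := 1) (s := 2) (b := c) (by norm_num)
    (by norm_num) hc
  refine h.congr_fun ?_ measurableSet_Ioi
  intro r hr
  have hr0 : (0:ℝ) < r := hr
  have e : r ^ (2:ℝ) = r ^ 2 := by norm_cast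
  simp only [e, Real.rpow_one, neg_mul]

theorem F2a_exp_le {c : ℝ} (hc : 0 < c) {h : ℝ} (hh : 0 < h) (x : Fin 3 → ℝ) :
    Real.exp (-(c * nr (fun α => h * (⌊x α / h⌋ : ℝ))))
      ≤ Real.exp (2 * c * h) * Real.exp (-(c * nr x)) := by
  rw [← Real.exp_add]
  apply Real.exp_le_exp.2
  have h1 := F2a_nr_near hh x
  nlinarith

theorem F2a_exp_summable {c h : ℝ} (hc : 0 < c) (hh : 0 < h) :
    Summable (fun p : Fin 3 → ℤ => Real.exp (-(c * nr (fun α => h * (p α : ℝ))))) := by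
  refine (F2a_integrable_iff hh _).1 ?_
  refine Integrable.mono' ((F2a_exp_integrable hc).const_mul (Real.exp (2 * c * h))) ?_ ?_
  · exact ((measurable_of_countable (fun p : Fin 3 → ℤ =>
      Real.exp (-(c * nr (fun α => h * (p α : ℝ)))))).comp (F2a_fm_measurable h)).aestronglyMeasurable
  · refine Eventually.of_forall fun x => ?_
    rw [Real.norm_eq_abs, abs_of_pos (Real.exp_pos _)]
    exact F2a_exp_le hc hh x

theorem F2a_summable {F : (Fin 3 → ℝ) → ℝ} {C c : ℝ} (hc : 0 < c)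
    (hb : ∀ x, |F x| ≤ C * Real.exp (-(c * nr x))) {h : ℝ} (hh : 0 < h) :
    Summable (fun p : Fin 3 → ℤ => F (fun α => h * (p α : ℝ))) :=
  Summable.of_norm_bounded ((F2a_exp_summable hc hh).mul_left C) fun p => hb _

theorem F2a_step {F : (Fin 3 → ℝ) → ℝ} {C c : ℝ} (hc : 0 < c)
    (hb : ∀ x, |F x| ≤ C * Real.exp (-(c * nr x))) {h : ℝ} (hh : 0 < h) :
    ∫ x : Fin 3 → ℝ, F (fun α => h * (⌊x α / h⌋ : ℝ))
      = h ^ 3 * ∑' p : Fin 3 → ℤ, F (fun α => h * (p α : ℝ)) :=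
  F2a_integral hh (G := fun p : Fin 3 → ℤ => F (fun α => h * (p α : ℝ))) (F2a_summable hc hb hh)

/-! ### Gaussian decay -/

theorem F2a_gauss_le {c : ℝ} (hc : 0 < c) (r : ℝ) :
    Real.exp (-(c * r ^ 2)) ≤ Real.exp c * Real.exp (-(c * r)) := by
  rw [← Real.exp_add]
  apply Real.exp_le_exp.2
  nlinarith [sq_nonneg (r - 1 / 2)]

theorem F2a_of_gauss {X : Type*} {F : X → ℝ} {n : X → ℝ} {C c : ℝ} (hc : 0 < c)
    (hb : ∀ x, |F x| ≤ C * Real.exp (-(c * n x ^ 2))) (x : X) :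
    |F x| ≤ C * Real.exp c * Real.exp (-(c * n x)) := by
  have hC : 0 ≤ C := by
    have h1 := (abs_nonneg (F x)).trans (hb x)
    by_contra h2
    have h3 : C * Real.exp (-(c * n x ^ 2)) < 0 :=
      mul_neg_of_neg_of_pos (not_le.1 h2) (Real.exp_pos _)
    linarith
  refine (hb x).trans ?_
  rw [mul_assoc]
  exact mul_le_mul_of_nonneg_left (F2a_gauss_le hc _) hC

/-- Gaussians are integrable. -/
theorem gauss3_integrable {c : ℝ} (hc : 0 < c) :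
    Integrable (fun x : Fin 3 → ℝ => Real.exp (-(c * nr x ^ 2))) := by
  refine Integrable.mono' ((F2a_exp_integrable hc).const_mul (Real.exp c)) ?_ ?_
  · exact (Real.continuous_exp.comp
      ((continuous_const.mul (nr_cont.pow 2)).neg)).aestronglyMeasurable
  · refine Eventually.of_forall fun x => ?_
    rw [Real.norm_eq_abs, abs_of_pos (Real.exp_pos _)]
    exact F2a_gauss_le hc _

/-- Gaussian sums over the lattice converge. -/
theorem gauss3_summable {c h : ℝ} (hc : 0 < c) (hh : 0 < h) :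
    Summable (fun p : Fin 3 → ℤ => Real.exp (-(c * nr (fun α => h * (p α : ℝ)) ^ 2))) := by
  refine Summable.of_norm_bounded ((F2a_exp_summable hc hh).mul_left (Real.exp c)) fun p => ?_
  rw [Real.norm_eq_abs, abs_of_pos (Real.exp_pos _)]
  exact F2a_gauss_le hc _

theorem riemann_summable {F : (Fin 3 → ℝ) → ℝ} {C c : ℝ} (hc : 0 < c)
    (hb : ∀ x, |F x| ≤ C * Real.exp (-(c * nr x ^ 2))) {h : ℝ} (hh : 0 < h) :
    Summable (fun p : Fin 3 → ℤ => F (fun α => h * (p α : ℝ))) :=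
  F2a_summable hc (F2a_of_gauss hc hb) hh

/-- Exact formula for the integral of the step function. -/
theorem riemann_step {F : (Fin 3 → ℝ) → ℝ} {C c : ℝ} (hc : 0 < c)
    (hb : ∀ x, |F x| ≤ C * Real.exp (-(c * nr x ^ 2))) {h : ℝ} (hh : 0 < h) :
    ∫ x : Fin 3 → ℝ, F (fun α => h * (⌊x α / h⌋ : ℝ))
      = h ^ 3 * ∑' p : Fin 3 → ℤ, F (fun α => h * (p α : ℝ)) :=
  F2a_step hc (F2a_of_gauss hc hb) hh

end Pool.Agent.Lib.MP_4952d6_mp

end

/-! ### LC.F2b -/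

section

set_option autoImplicit false
set_option linter.unusedSectionVars false
set_option linter.unusedVariables false
open MeasureTheory Function Filter Topology Set

namespace Pool.Agent.Lib.MP_4952d6_mp

/-! # F2b: Riemann sums on the lattice, limit

By `F2a_step` the Riemann sum is `∫ F (fl h x) dx` with `fl h x = (h ⌊x α / h⌋)_α`. For `h → 0+`, `F (fl h x) → F x` pointwise
(continuity, `|fl h x - x| ≤ h` in each coordinate), dominated. `riemann_radial`: apply it to `x ↦ F (nr x)` with `h = 2 π l`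
(`integral_nr`, `sig_eq`), `h³ = (2π)³ l³`, `4π/(2π)³ = 1/(2π²)`; the missing term `p = 0` contributes `l³ F 0 → 0`. -/

/-- Convergence of the lattice points. -/
theorem F2b_fl_tendsto (x : Fin 3 → ℝ) :
    Tendsto (fun h : ℝ => (fun α => h * (⌊x α / h⌋ : ℝ) : Fin 3 → ℝ)) (𝓝[>] 0) (𝓝 x) := by
  rw [tendsto_pi_nhds]
  intro α
  have h0 : Tendsto (fun h : ℝ => h) (𝓝[>] 0) (𝓝 0) :=
    (tendsto_id (α := ℝ)).mono_left nhdsWithin_le_nhds
  rw [tendsto_iff_dist_tendsto_zero]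
  refine squeeze_zero' (Eventually.of_forall fun h => dist_nonneg) ?_ h0
  filter_upwards [self_mem_nhdsWithin] with h hh
  rw [Real.dist_eq, abs_sub_comm]
  exact F2a_near hh x α

/-- Riemann sums converge (exponential decay). -/
theorem F2b_tendsto {F : (Fin 3 → ℝ) → ℝ} (hF : Continuous F) {C c : ℝ} (hc : 0 < c)
    (hb : ∀ x, |F x| ≤ C * Real.exp (-(c * nr x))) :
    Tendsto (fun h : ℝ => h ^ 3 * ∑' p : Fin 3 → ℤ, F (fun α => h * (p α : ℝ))) (𝓝[>] 0)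
      (𝓝 (∫ x, F x)) := by
  have hC : 0 ≤ C := by
    have h1 := (abs_nonneg (F 0)).trans (hb 0)
    by_contra h2
    have h3 : C * Real.exp (-(c * nr 0)) < 0 :=
      mul_neg_of_neg_of_pos (not_le.1 h2) (Real.exp_pos _)
    linarith
  have h1 : Tendsto (fun h : ℝ => ∫ x : Fin 3 → ℝ, F (fun α => h * (⌊x α / h⌋ : ℝ))) (𝓝[>] 0)
      (𝓝 (∫ x, F x)) := by
    refine tendsto_integral_filter_of_dominated_convergence
      (fun x => C * Real.exp (2 * c) * Real.exp (-(c * nr x))) ?_ ?_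
      ((F2a_exp_integrable hc).const_mul _) ?_
    · refine Eventually.of_forall fun h => ?_
      exact ((measurable_of_countable (fun p : Fin 3 → ℤ =>
        F (fun α => h * (p α : ℝ)))).comp (F2a_fm_measurable h)).aestronglyMeasurable
    · have h3 : ∀ᶠ h : ℝ in 𝓝[>] 0, h < 1 :=
        (eventually_lt_nhds zero_lt_one).filter_mono nhdsWithin_le_nhds
      filter_upwards [self_mem_nhdsWithin, h3] with h hh hh1
      have hh0 : (0:ℝ) < h := hh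
      refine Eventually.of_forall fun x => ?_
      rw [Real.norm_eq_abs]
      refine (hb _).trans ?_
      rw [mul_assoc]
      refine mul_le_mul_of_nonneg_left ?_ hC
      refine (F2a_exp_le hc hh0 x).trans ?_
      refine mul_le_mul_of_nonneg_right ?_ (Real.exp_pos _).le
      apply Real.exp_le_exp.2
      nlinarith
    · refine Eventually.of_forall fun x => ?_
      exact (hF.tendsto x).comp (F2b_fl_tendsto x)
  refine h1.congr' ?_
  filter_upwards [self_mem_nhdsWithin] with h hh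
  exact F2a_step hc hb hh

/-- Riemann sums converge. -/
theorem riemann_tendsto {F : (Fin 3 → ℝ) → ℝ} (hF : Continuous F) {C c : ℝ} (hc : 0 < c)
    (hb : ∀ x, |F x| ≤ C * Real.exp (-(c * nr x ^ 2))) :
    Tendsto (fun h : ℝ => h ^ 3 * ∑' p : Fin 3 → ℤ, F (fun α => h * (p α : ℝ))) (𝓝[>] 0)
      (𝓝 (∫ x, F x)) :=
  F2b_tendsto hF hc (F2a_of_gauss hc hb)

theorem F2b_nr_mul {h : ℝ} (hh : 0 ≤ h) (p : Fin 3 → ℤ) :
    nr (fun α => h * (p α : ℝ)) = h * Real.sqrt (mom2 p) := by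
  unfold nr mom2
  have h1 : ∑ α, (h * (p α : ℝ)) ^ 2 = h ^ 2 * ∑ α, (p α : ℝ) ^ 2 := by
    rw [Finset.mul_sum]
    exact Finset.sum_congr rfl fun α _ => by ring
  rw [h1, Real.sqrt_mul (by positivity), Real.sqrt_sq hh]

/-- Riemann sums of radial functions with exponential decay, zero momentum included. -/
theorem riemann_radial_exp {g : ℝ → ℝ} (hg : ContinuousOn g (Ici 0)) {C c : ℝ} (hc : 0 < c)
    (hb : ∀ r, 0 ≤ r → |g r| ≤ C * Real.exp (-(c * r))) :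
    (∀ l : ℝ, 0 < l →
      Summable (fun p : Fin 3 → ℤ => g (2 * Real.pi * l * Real.sqrt (mom2 p)))) ∧
    Tendsto (fun l : ℝ => l ^ 3 * ∑' p : Fin 3 → ℤ, g (2 * Real.pi * l * Real.sqrt (mom2 p)))
      (𝓝[>] 0) (𝓝 (1 / (2 * Real.pi ^ 2) * ∫ r in Ioi (0:ℝ), r ^ 2 * g r)) := by
  have hpi := Real.pi_pos
  have hG : Continuous (fun x : Fin 3 → ℝ => g (nr x)) :=
    hg.comp_continuous nr_cont fun x => nr_nonneg x
  have hGb : ∀ x : Fin 3 → ℝ, |g (nr x)| ≤ C * Real.exp (-(c * nr x)) :=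
    fun x => hb _ (nr_nonneg x)
  have hpos : ∀ l : ℝ, 0 < l → 0 < 2 * Real.pi * l := fun l hl => by positivity
  constructor
  · intro l hl
    refine (F2a_summable hc hGb (hpos l hl)).congr fun p => ?_
    rw [F2b_nr_mul (hpos l hl).le]
  · have h1 := F2b_tendsto hG hc hGb
    rw [integral_nr, sig_eq] at h1
    have h2 : Tendsto (fun l : ℝ => 2 * Real.pi * l) (𝓝[>] 0) (𝓝[>] 0) := by
      refine tendsto_nhdsWithin_iff.2 ⟨?_, ?_⟩
      · have h3 : Tendsto (fun l : ℝ => 2 * Real.pi * l) (𝓝 0) (𝓝 (2 * Real.pi * 0)) :=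
          (continuous_const.mul continuous_id).tendsto 0
        rw [mul_zero] at h3
        exact h3.mono_left nhdsWithin_le_nhds
      · filter_upwards [self_mem_nhdsWithin] with l hl
        exact hpos l hl
    have h4 := (h1.comp h2).const_mul (1 / (8 * Real.pi ^ 3))
    have h5 : 1 / (8 * Real.pi ^ 3) * (4 * Real.pi * ∫ r in Ioi (0:ℝ), r ^ 2 * g r)
        = 1 / (2 * Real.pi ^ 2) * ∫ r in Ioi (0:ℝ), r ^ 2 * g r := by
      rw [← mul_assoc]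
      congr 1
      rw [one_div_mul_eq_div, div_eq_div_iff (by positivity) (by positivity)]
      ring
    rw [h5] at h4
    refine h4.congr' ?_
    filter_upwards [self_mem_nhdsWithin] with l hl
    have hl0 : (0:ℝ) < l := hl
    simp only [Function.comp]
    have h6 : ∀ p : Fin 3 → ℤ, g (nr (fun α => 2 * Real.pi * l * (p α : ℝ)))
        = g (2 * Real.pi * l * Real.sqrt (mom2 p)) := fun p => by
      rw [F2b_nr_mul (hpos l hl).le]
    rw [tsum_congr h6, ← mul_assoc]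
    congr 1
    rw [one_div_mul_eq_div, div_eq_iff (by positivity)]
    ring

/-- The form used in U8 and L8: momenta `2 π l p`, radial functions, without the zero momentum. -/
theorem riemann_radial {F : ℝ → ℝ} (hF : Continuous F) {C c : ℝ} (hc : 0 < c)
    (hb : ∀ r, |F r| ≤ C * Real.exp (-(c * r ^ 2))) :
    Tendsto (fun l : ℝ => l ^ 3 * ∑' p : Fin 3 → ℤ, if p = 0 then 0 else
        F (2 * Real.pi * l * Real.sqrt (∑ α, (p α : ℝ) ^ 2))) (𝓝[>] 0)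
      (𝓝 (1 / (2 * Real.pi ^ 2) * ∫ r in Ioi (0:ℝ), r ^ 2 * F r)) := by
  obtain ⟨h1, h2⟩ := riemann_radial_exp hF.continuousOn hc
    (fun r _ => F2a_of_gauss (n := fun r : ℝ => r) hc hb r)
  have h3 : Tendsto (fun l : ℝ => l ^ 3 * F 0) (𝓝[>] 0) (𝓝 0) := by
    have h4 : Tendsto (fun l : ℝ => l ^ 3 * F 0) (𝓝 0) (𝓝 ((0:ℝ) ^ 3 * F 0)) :=
      ((continuous_id.pow 3).mul continuous_const).tendsto 0
    rw [zero_pow (by norm_num), zero_mul] at h4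
    exact h4.mono_left nhdsWithin_le_nhds
  have h5 := h2.sub h3
  rw [sub_zero] at h5
  refine h5.congr' ?_
  filter_upwards [self_mem_nhdsWithin] with l hl
  rw [← mul_sub]
  congr 1
  have h6 := (h1 l hl).tsum_eq_add_tsum_ite (0 : Fin 3 → ℤ)
  rw [mom2_zero, Real.sqrt_zero, mul_zero] at h6
  rw [h6, add_sub_cancel_left]
  rfl

end Pool.Agent.Lib.MP_4952d6_mp

end

/-! ### LB.LimB -/

section

/-!
# LB.LimB: the lattice sum of the Bogoliubov energy as a Riemann sum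

Scaling: `ksq p = 4 π² ∑ p²`, with `r = 2 π l √(∑ p²)` one has `l² ksq p = r²`, hence for
`t = l² τ`, `lam = δ / l²`, `G = 8 π q / l²`:
`et t p ^ 2 = exp (-(τ r²))`, `epsf G (ksq p + lam) = epsf (8πq) (r² + δ) / l²` (homogeneity of `epsf` of degree 1:
`epsf (c G) (c E) = c epsf G E` for `c ≥ 0`). `FY` is continuous and
`|epsf G E - E - G| ≤ G` for `G, E ≥ 0` (`epsf_ge`, `epsf_le`), so `|FY τ q δ r| ≤ 8 π q exp(-(τ r²))` and `riemann_radial` (LC/F2b)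
applies. `limB` is then the `ε`-form of the limit (`l > 0`, multiply by `l⁻⁵/2`:
`1/2 LS = 1/2 l⁻² ∑' = 1/2 l⁻⁵ (l³ ∑')`, limit of `l³ ∑'` is `1/(2π²) ∫ r² FY`).
-/

set_option autoImplicit false
set_option linter.unusedSectionVars false
set_option linter.unusedVariables false
open MeasureTheory Function Filter Topology Set ComplexConjugate

namespace Pool.Agent.Lib.MP_4952d6_mp.LB

/-- The radial function of the Riemann sum. -/
noncomputable def FY (τ q δ r : ℝ) : ℝ :=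
  Real.exp (-(τ * r ^ 2)) * (epsf (8 * Real.pi * q) (r ^ 2 + δ) - (r ^ 2 + δ) - 8 * Real.pi * q)

lemma FY_continuous (τ q δ : ℝ) : Continuous (FY τ q δ) := by
  unfold FY epsf
  fun_prop

lemma FY_bound {τ q δ : ℝ} (hq : 0 ≤ q) (hδ : 0 ≤ δ) (r : ℝ) :
    |FY τ q δ r| ≤ 8 * Real.pi * q * Real.exp (-(τ * r ^ 2)) := by
  have hpi := Real.pi_pos
  have hG : 0 ≤ 8 * Real.pi * q := by positivity
  have hE : 0 ≤ r ^ 2 + δ := by positivity
  have h1 := epsf_ge hG hE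
  have h2 := epsf_le hG hE
  unfold FY
  rw [abs_mul, abs_of_pos (Real.exp_pos _), mul_comm]
  refine mul_le_mul_of_nonneg_right ?_ (Real.exp_pos _).le
  rw [abs_le]
  constructor <;> linarith

lemma LimB_epsf {c : ℝ} (hc : 0 ≤ c) (G E : ℝ) : epsf (c * G) (c * E) = c * epsf G E := by
  unfold epsf
  have e : (c * E) ^ 2 + 2 * (c * G) * (c * E) = c ^ 2 * (E ^ 2 + 2 * G * E) := by ring
  rw [e, Real.sqrt_mul (sq_nonneg c), Real.sqrt_sq hc]

lemma LS_scale {l : ℝ} (hl : 0 < l) (τ q δ : ℝ) :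
    LS (l ^ 2 * τ) (δ / l ^ 2) (8 * Real.pi * q / l ^ 2)
      = 1 / l ^ 2 * ∑' p : Fin 3 → ℤ, if p = 0 then 0 else
        FY τ q δ (2 * Real.pi * l * Real.sqrt (∑ α, (p α : ℝ) ^ 2)) := by
  unfold LS
  rw [← tsum_mul_left]
  refine tsum_congr fun p => ?_
  rcases eq_or_ne p 0 with hp | hp
  · rw [if_pos hp, if_pos hp, mul_zero]
  · rw [if_neg hp, if_neg hp]
    have hs : 0 ≤ ∑ α, (p α : ℝ) ^ 2 := Finset.sum_nonneg fun α _ => sq_nonneg _
    have hr : (2 * Real.pi * l * Real.sqrt (∑ α, (p α : ℝ) ^ 2)) ^ 2 = l ^ 2 * ksq p := by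
      rw [mul_pow, Real.sq_sqrt hs]
      unfold ksq mom2
      ring
    unfold FY
    rw [hr, Mul_et_sq]
    have hl2 : l ^ 2 ≠ 0 := by positivity
    have e1 : 8 * Real.pi * q / l ^ 2 = 1 / l ^ 2 * (8 * Real.pi * q) := by ring
    have e2 : ksq p + δ / l ^ 2 = 1 / l ^ 2 * (l ^ 2 * ksq p + δ) := by
      field_simp
    have e3 : l ^ 2 * τ * ksq p = τ * (l ^ 2 * ksq p) := by ring
    rw [e1, e2, e3, LimB_epsf (by positivity)]
    ring

theorem limB {τ q δ η : ℝ} (hτ : 0 < τ) (hq : 0 ≤ q) (hδ : 0 ≤ δ) (hη : 0 < η) :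
    ∃ l0 : ℝ, 0 < l0 ∧ ∀ l : ℝ, 0 < l → l < l0 →
      (1 / (4 * Real.pi ^ 2) * (∫ r in Ioi (0:ℝ), r ^ 2 * FY τ q δ r) - η) / l ^ 5
        ≤ 1 / 2 * LS (l ^ 2 * τ) (δ / l ^ 2) (8 * Real.pi * q / l ^ 2) := by
  have hpi := Real.pi_pos
  have h1 := riemann_radial (FY_continuous τ q δ) hτ (FY_bound hq hδ)
  have h2 : ∀ᶠ l : ℝ in 𝓝[>] 0,
      1 / (2 * Real.pi ^ 2) * (∫ r in Ioi (0:ℝ), r ^ 2 * FY τ q δ r) - 2 * η
        < l ^ 3 * ∑' p : Fin 3 → ℤ, if p = 0 then 0 else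
          FY τ q δ (2 * Real.pi * l * Real.sqrt (∑ α, (p α : ℝ) ^ 2)) :=
    h1.eventually (lt_mem_nhds (by linarith))
  obtain ⟨l0, hl0, h3⟩ := mem_nhdsGT_iff_exists_Ioo_subset.1 h2
  refine ⟨l0, hl0, fun l hl hll => ?_⟩
  have h4 := h3 ⟨hl, hll⟩
  simp only [Set.mem_ofPred_eq] at h4
  rw [LS_scale hl]
  set S := ∑' p : Fin 3 → ℤ, if p = 0 then 0 else
          FY τ q δ (2 * Real.pi * l * Real.sqrt (∑ α, (p α : ℝ) ^ 2)) with hS
  set I := ∫ r in Ioi (0:ℝ), r ^ 2 * FY τ q δ r with hI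
  rw [div_le_iff₀ (by positivity)]
  have e1 : 1 / 2 * (1 / l ^ 2 * S) * l ^ 5 = 1 / 2 * (l ^ 3 * S) := by
    field_simp
  have e2 : 1 / (4 * Real.pi ^ 2) * I = 1 / 2 * (1 / (2 * Real.pi ^ 2) * I) := by
    field_simp
    ring
  rw [e1, e2]
  linarith

end Pool.Agent.Lib.MP_4952d6_mp.LB

end

/-! ### U.U8A -/

section

/-!
# U8A: Riemann sums of radial functions over `ℤ³` (adapter of `riemann_radial_exp`)
-/

set_option autoImplicit false
set_option linter.unusedSectionVars false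
set_option linter.unusedVariables false
open MeasureTheory Function Filter Topology Set
open scoped ENNReal

namespace Pool.Agent.Lib.MP_4952d6_mp

lemma U8A_sqrt (p : Fin 3 → ℤ) : Real.sqrt (ksq p) = 2 * Real.pi * Real.sqrt (mom2 p) := by
  have hpi := Real.pi_pos
  unfold ksq
  have e : (4 * Real.pi ^ 2 * mom2 p : ℝ) = (2 * Real.pi) ^ 2 * mom2 p := by ring
  rw [e, Real.sqrt_mul (by positivity), Real.sqrt_sq (by positivity)]

theorem riemann_ksq {g : ℝ → ℝ} {C c : ℝ} (hc : 0 < c) (hg : ContinuousOn g (Ici 0))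
    (hb : ∀ r, 0 ≤ r → |g r| ≤ C * Real.exp (-(c * r))) :
    (∀ l : ℝ, 0 < l → Summable (fun p : Fin 3 → ℤ => g (l * Real.sqrt (ksq p)))) ∧
    Tendsto (fun l : ℝ => l ^ 3 * ∑' p : Fin 3 → ℤ, g (l * Real.sqrt (ksq p))) (𝓝[>] 0)
      (𝓝 (1 / (2 * Real.pi ^ 2) * ∫ r in Ioi (0:ℝ), r ^ 2 * g r)) := by
  obtain ⟨h1, h2⟩ := riemann_radial_exp hg hc hb
  have e : ∀ (l : ℝ) (p : Fin 3 → ℤ), g (2 * Real.pi * l * Real.sqrt (mom2 p))
      = g (l * Real.sqrt (ksq p)) := by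
    intro l p
    rw [U8A_sqrt]
    congr 1
    ring
  refine ⟨fun l hl => ?_, ?_⟩
  · exact (h1 l hl).congr fun p => e l p
  · simpa only [e] using h2

end Pool.Agent.Lib.MP_4952d6_mp

end

/-! ### U.U8B -/

section

/-!
# U8B: continuity and decay of `hs`, limit `l → 0`

`hs κ q` is continuous on `[0, ∞)` (continuity of `Lh κ β` in `z ≥ 0`, `κ > 0`: dominated) and `|hs κ q r| ≤ C(κ,q) exp(-c r)`: `0 ≤ X ≤ 8π·2·exp(-β r²)/κ²`.
The summand `p = 0` is dropped: it contributes `l³ h(0) → 0`. `Isq q = (2π²)⁻¹ ∫ 64π²α² exp(-β r²) dr`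
(`integral_gaussian_Ioi`: `∫_0^∞ exp(-β r²) dr = √(π/β)/2`): hence
`(1/4)(Isq q - l³ Σ_{p≠0} hs(l √ksq)) → Phq κ q` as `l → 0+`, by `riemann_ksq` and linearity of the integral.
-/

set_option autoImplicit false
set_option linter.unusedSectionVars false
set_option linter.unusedVariables false
open MeasureTheory Function Filter Topology Set
open scoped ENNReal

namespace Pool.Agent.Lib.MP_4952d6_mp

private theorem U8B_Lh_cont {κ β : ℝ} (hκ : 0 < κ) : Continuous (fun r : ℝ => Lh κ β (r ^ 2)) := by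
  unfold Lh
  have hpos : ∀ r φ : ℝ, 0 < r ^ 2 + tauv κ φ := by
    intro r φ
    unfold tauv
    positivity
  have htc : Continuous (fun p : ℝ × ℝ => tauv κ p.2) := by
    unfold tauv
    fun_prop
  have hsum : Continuous (fun p : ℝ × ℝ => p.1 ^ 2 + tauv κ p.2) :=
    (continuous_fst.pow 2).add htc
  have hc : Continuous (Function.uncurry (fun r φ : ℝ => 4 / Real.pi * Real.sin φ ^ 2
      * (Real.exp (-(β * (r ^ 2 + tauv κ φ))) / (r ^ 2 + tauv κ φ)))) := by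
    refine Continuous.mul (by fun_prop) (Continuous.div ?_ hsum (fun p => (hpos p.1 p.2).ne'))
    exact Real.continuous_exp.comp (continuous_const.mul hsum).neg
  exact intervalIntegral.continuous_parametric_intervalIntegral_of_continuous' hc 0 (Real.pi / 2)

private theorem U8B_X_nonneg {κ q : ℝ} (hκ : 0 < κ) (hq : 0 < q) (hq1 : q ≤ 1 / 100) (r : ℝ) :
    0 ≤ Xs κ q r := by
  unfold Xs
  have h1 := one_le_alq hq hq1
  have h2 : 0 ≤ Lh κ (q ^ 242) (r ^ 2) := Lh_nonneg hκ (sq_nonneg r)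
  have h3 := Real.pi_pos
  positivity

private theorem U8B_X_cont {κ q : ℝ} (hκ : 0 < κ) : Continuous (Xs κ q) := by
  unfold Xs
  exact continuous_const.mul (U8B_Lh_cont hκ)

private theorem U8B_hs_cont {κ q : ℝ} (hκ : 0 < κ) (hq : 0 < q) (hq1 : q ≤ 1 / 100) :
    Continuous (hs κ q) := by
  have hX := U8B_X_cont (q := q) hκ
  have h1 : ∀ r, 1 + Xs κ q r ≠ 0 := fun r => by
    have := U8B_X_nonneg hκ hq hq1 r
    positivity
  unfold hs
  refine Continuous.sub (Continuous.mul (by fun_prop) ?_) (Continuous.mul (by fun_prop) ?_)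
  · exact hX.div (continuous_const.add hX) h1
  · exact (hX.pow 2).div (continuous_const.add hX) h1

theorem hs_continuousOn {κ q : ℝ} (hκ : 0 < κ) (hq : 0 < q) (hq1 : q ≤ 1 / 100) :
    ContinuousOn (hs κ q) (Ici 0) :=
  (U8B_hs_cont hκ hq hq1).continuousOn

private theorem U8B_hs_le {κ q : ℝ} (hκ : 0 < κ) (hq : 0 < q) (hq1 : q ≤ 1 / 100) (r : ℝ) :
    |hs κ q r| ≤ 16 * Real.pi * (32 * Real.pi / κ ^ 2 + 1) * Real.exp (-(q ^ 242 * r ^ 2)) := by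
  have hpi := Real.pi_pos
  have hX0 := U8B_X_nonneg hκ hq hq1 r
  have hα1 := one_le_alq hq hq1
  have hα2 := alq_le_two hq hq1
  have hβ : 0 ≤ q ^ 242 := by positivity
  have hL : Lh κ (q ^ 242) (r ^ 2) ≤ Real.exp (-(q ^ 242 * r ^ 2)) / (r ^ 2 + κ ^ 2) :=
    Lh_le hκ hβ (sq_nonneg r)
  have hL0 : 0 ≤ Lh κ (q ^ 242) (r ^ 2) := Lh_nonneg hκ (sq_nonneg r)
  have hX : Xs κ q r ≤ 16 * Real.pi * (Real.exp (-(q ^ 242 * r ^ 2)) / (r ^ 2 + κ ^ 2)) := by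
    unfold Xs
    calc 8 * Real.pi * alq q * Lh κ (q ^ 242) (r ^ 2) ≤ 8 * Real.pi * 2 * Lh κ (q ^ 242) (r ^ 2) := by
          gcongr
      _ ≤ 8 * Real.pi * 2 * (Real.exp (-(q ^ 242 * r ^ 2)) / (r ^ 2 + κ ^ 2)) := by gcongr
      _ = _ := by ring
  have he0 : 0 < Real.exp (-(q ^ 242 * r ^ 2)) := Real.exp_pos _
  have he1 : Real.exp (-(q ^ 242 * r ^ 2)) ≤ 1 := by
    rw [Real.exp_le_one_iff]
    have : 0 ≤ q ^ 242 * r ^ 2 := mul_nonneg hβ (sq_nonneg r)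
    linarith
  set X := Xs κ q r with hXdef
  set e := Real.exp (-(q ^ 242 * r ^ 2)) with he
  have hd : 0 < 1 + X := by linarith
  have h1 : X / (1 + X) ≤ X := div_le_self hX0 (by linarith)
  have h1' : 0 ≤ X / (1 + X) := by positivity
  have h2 : X ^ 2 / (1 + X) ≤ X := by
    rw [div_le_iff₀ hd]
    nlinarith [sq_nonneg X]
  have h2' : 0 ≤ X ^ 2 / (1 + X) := by positivity
  have hA : 0 ≤ 8 * Real.pi * alq q * (1 + e) := by positivity
  have hA2 : 8 * Real.pi * alq q * (1 + e) ≤ 32 * Real.pi := by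
    calc 8 * Real.pi * alq q * (1 + e) ≤ 8 * Real.pi * 2 * (1 + 1) := by gcongr
      _ = 32 * Real.pi := by ring
  have h3 : |hs κ q r| ≤ (32 * Real.pi + r ^ 2) * X := by
    have h4 : hs κ q r = 8 * Real.pi * alq q * (1 + e) * (X / (1 + X)) - r ^ 2 * (X ^ 2 / (1 + X)) := rfl
    rw [h4, abs_le]
    have h5 : 8 * Real.pi * alq q * (1 + e) * (X / (1 + X)) ≤ 32 * Real.pi * X := by gcongr
    have h6 : 0 ≤ 8 * Real.pi * alq q * (1 + e) * (X / (1 + X)) := by positivity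
    have h7 : r ^ 2 * (X ^ 2 / (1 + X)) ≤ r ^ 2 * X := by gcongr
    have h8 : 0 ≤ r ^ 2 * (X ^ 2 / (1 + X)) := by positivity
    have h9 : 0 ≤ 32 * Real.pi * X := by positivity
    have h10 : 0 ≤ r ^ 2 * X := by positivity
    constructor <;> nlinarith
  have h11 : (32 * Real.pi + r ^ 2) / (r ^ 2 + κ ^ 2) ≤ 32 * Real.pi / κ ^ 2 + 1 := by
    rw [div_le_iff₀ (by positivity)]
    have h12 : (32 * Real.pi / κ ^ 2 + 1) * (r ^ 2 + κ ^ 2)
        = 32 * Real.pi / κ ^ 2 * r ^ 2 + r ^ 2 + 32 * Real.pi + κ ^ 2 := by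
      field_simp
      ring
    rw [h12]
    have : 0 ≤ 32 * Real.pi / κ ^ 2 * r ^ 2 := by positivity
    nlinarith [sq_nonneg κ]
  calc |hs κ q r| ≤ (32 * Real.pi + r ^ 2) * X := h3
    _ ≤ (32 * Real.pi + r ^ 2) * (16 * Real.pi * (e / (r ^ 2 + κ ^ 2))) := by gcongr
    _ = 16 * Real.pi * ((32 * Real.pi + r ^ 2) / (r ^ 2 + κ ^ 2)) * e := by ring
    _ ≤ 16 * Real.pi * (32 * Real.pi / κ ^ 2 + 1) * e := by gcongr

theorem hs_decay {κ q : ℝ} (hκ : 0 < κ) (hq : 0 < q) (hq1 : q ≤ 1 / 100) :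
    ∃ C c : ℝ, 0 < c ∧ ∀ r, 0 ≤ r → |hs κ q r| ≤ C * Real.exp (-(c * r)) := by
  refine ⟨16 * Real.pi * (32 * Real.pi / κ ^ 2 + 1) * Real.exp (q ^ 242 / 4), q ^ 242,
    by positivity, ?_⟩
  intro r hr
  refine (U8B_hs_le hκ hq hq1 r).trans ?_
  have hpi := Real.pi_pos
  rw [mul_assoc (16 * Real.pi * (32 * Real.pi / κ ^ 2 + 1)), ← Real.exp_add]
  have hβ : 0 ≤ q ^ 242 := by positivity
  have h1 : -(q ^ 242 * r ^ 2) ≤ q ^ 242 / 4 + -(q ^ 242 * r) := by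
    nlinarith [mul_nonneg hβ (sq_nonneg (r - 1 / 2))]
  have h2 := Real.exp_le_exp.2 h1
  gcongr

private theorem U8B_ksq_zero : ksq 0 = 0 := by
  simp [ksq, mom2]

private theorem U8B_int {κ q : ℝ} (hκ : 0 < κ) (hq : 0 < q) (hq1 : q ≤ 1 / 100) :
    IntegrableOn (fun r => r ^ 2 * hs κ q r) (Ioi 0) := by
  set M : ℝ := 16 * Real.pi * (32 * Real.pi / κ ^ 2 + 1) with hM
  have hβ : 0 < q ^ 242 := by positivity
  have h1 : IntegrableOn (fun r : ℝ => M * (r ^ 2 * Real.exp (-(q ^ 242) * r ^ 2))) (Ioi 0) := by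
    have h2 := (integrable_rpow_mul_exp_neg_mul_sq hβ (s := 2) (by norm_num)).const_mul M
    refine (h2.integrableOn (s := Ioi 0)).congr_fun (fun r hr => ?_) measurableSet_Ioi
    simp only
    norm_cast
  refine Integrable.mono' h1 ?_ ?_
  · exact ((continuous_pow 2).mul (U8B_hs_cont hκ hq hq1)).aestronglyMeasurable
  · refine Eventually.of_forall fun r => ?_
    rw [norm_mul, Real.norm_eq_abs, Real.norm_eq_abs, abs_of_nonneg (sq_nonneg r)]
    have h3 := U8B_hs_le hκ hq hq1 r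
    calc r ^ 2 * |hs κ q r| ≤ r ^ 2 * (M * Real.exp (-(q ^ 242 * r ^ 2))) := by gcongr
      _ = M * (r ^ 2 * Real.exp (-(q ^ 242) * r ^ 2)) := by
          rw [neg_mul]
          ring

theorem limit_l {κ q : ℝ} (hκ : 0 < κ) (hq : 0 < q) (hq1 : q ≤ 1 / 100) :
    Tendsto (fun l : ℝ => 1 / 4 * (Isq q - l ^ 3
      * tsum0 (fun p => hs κ q (l * Real.sqrt (ksq p))))) (𝓝[>] 0) (𝓝 (Phq κ q)) := by
  obtain ⟨C, c, hc, hdec⟩ := hs_decay hκ hq hq1
  obtain ⟨hsum, hlim⟩ := riemann_ksq hc (hs_continuousOn hκ hq hq1) hdec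
  have hpi := Real.pi_pos
  have hβ : 0 < q ^ 242 := by positivity
  -- the summand `p = 0`
  have h1 : ∀ l : ℝ, 0 < l → tsum0 (fun p => hs κ q (l * Real.sqrt (ksq p)))
      = ∑' p : Fin 3 → ℤ, hs κ q (l * Real.sqrt (ksq p)) - hs κ q 0 := by
    intro l hl
    have h2 := (hsum l hl).tsum_eq_add_tsum_ite (0 : Fin 3 → ℤ)
    rw [h2, U8B_ksq_zero, Real.sqrt_zero, mul_zero]
    unfold tsum0
    ring
  have h3 : Tendsto (fun l : ℝ => l ^ 3 * tsum0 (fun p => hs κ q (l * Real.sqrt (ksq p))))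
      (𝓝[>] 0) (𝓝 (1 / (2 * Real.pi ^ 2) * ∫ r in Ioi (0:ℝ), r ^ 2 * hs κ q r)) := by
    have h4 : Tendsto (fun l : ℝ => l ^ 3 * hs κ q 0) (𝓝[>] 0) (𝓝 0) := by
      have h5 : Tendsto (fun l : ℝ => l ^ 3 * hs κ q 0) (𝓝 0) (𝓝 (0 ^ 3 * hs κ q 0)) :=
        (((continuous_pow 3).mul continuous_const).tendsto 0)
      have h6 : (0:ℝ) ^ 3 * hs κ q 0 = 0 := by ring
      rw [h6] at h5
      exact h5.mono_left nhdsWithin_le_nhds
    have h7 := hlim.sub h4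
    rw [sub_zero] at h7
    refine h7.congr' ?_
    filter_upwards [self_mem_nhdsWithin] with l hl
    rw [h1 l hl]
    ring
  have h8 := (h3.const_sub (Isq q)).const_mul (1 / 4)
  have h9 : 1 / 4 * (Isq q - 1 / (2 * Real.pi ^ 2) * ∫ r in Ioi (0:ℝ), r ^ 2 * hs κ q r) = Phq κ q := by
    unfold Phq Isq
    have hg : IntegrableOn (fun r : ℝ => 64 * Real.pi ^ 2 * alq q ^ 2 * Real.exp (-(q ^ 242 * r ^ 2)))
        (Ioi 0) := by
      have := ((integrable_exp_neg_mul_sq hβ).const_mul (64 * Real.pi ^ 2 * alq q ^ 2)).integrableOn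
        (s := Ioi 0)
      simpa only [neg_mul] using this
    rw [integral_sub hg (U8B_int hκ hq hq1), integral_const_mul]
    have hgi : ∫ r in Ioi (0:ℝ), Real.exp (-(q ^ 242 * r ^ 2)) = Real.sqrt (Real.pi / q ^ 242) / 2 := by
      have := integral_gaussian_Ioi (q ^ 242)
      simpa only [neg_mul] using this
    rw [hgi, Real.sqrt_div' _ hβ.le, Real.sqrt_mul hpi.le]
    have hs1 : Real.sqrt Real.pi ^ 2 = Real.pi := Real.sq_sqrt hpi.le
    have hs0 : 0 < Real.sqrt Real.pi := Real.sqrt_pos.2 hpi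
    have hs2 : 0 < Real.sqrt (q ^ 242) := Real.sqrt_pos.2 hβ
    generalize Real.sqrt Real.pi = sp at *
    generalize Real.sqrt (q ^ 242) = sq at *
    generalize (∫ r in Ioi (0:ℝ), r ^ 2 * hs κ q r) = I
    rw [← hs1]
    field_simp
    ring
  rw [h9] at h8
  exact h8

end Pool.Agent.Lib.MP_4952d6_mp

end

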