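import Pool.Agent.Lib.MP_4952d6_mp.Pk.G15
import Pool.Agent.Lib.MP_4952d6_mp.Pk.G16

/-! Merged modules (to save import time): U.GK, U.GL, U.GM1, U.GM2, U.GM3, U.GN, U.GR, U.GS, U.GO2, U.GP1, U.GP2, U.GT, U.GU, U.GV, U.GW, U.GasFinal. -/

/-! ### U.GK -/

section

set_option autoImplicit false
set_option linter.unusedSectionVars false
set_option linter.unusedVariables false
open MeasureTheory Function Filter Topology Set ComplexConjugate

namespace Pool.Agent.Lib.MP_4952d6_mp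


/-! # GK: integration by parts against the score `Jk`

`T_{iα}(x) = i k_α ch p (x i)` with `k = 2πp` (`kc p α`), the gradient of `ch p` (`WD.character`). For `Φ` with weak derivatives
`dΦ i α` in all directions, `∫ ∂_{iα} (Φ T_{iα} Wg) = 0` (`WD.integral_eq_zero`); sum over `i, α`:
`∑ ∂_{iα} T_{iα} = - |k|² ∑ ch p (x i)`, `∂_{iα} Wg = - (∑_{j≠i} 2 ∂_α u (x i - x j)) Wg` (`Wg_WD`). -/

/-- gradient of the character in the variable of particle `i` -/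
noncomputable def Tk (p : Fin 3 → ℤ) {n : ℕ} (i : Fin n) (α : Fin 3) (x : Fin n → T3) : ℂ :=
  Complex.I * (kc p α : ℂ) * ch p (x i)

/-! ### Bounded measurable complex functions -/

theorem GK_cm_const {X : Type*} [MeasurableSpace X] (c : ℂ) :
    Measurable (fun _ : X => c) ∧ ∃ C, ∀ x : X, ‖c‖ ≤ C :=
  ⟨measurable_const, ‖c‖, fun _ => le_rfl⟩

theorem GK_cm_add {X : Type*} [MeasurableSpace X] {f g : X → ℂ}
    (hf : Measurable f ∧ ∃ C, ∀ x, ‖f x‖ ≤ C) (hg : Measurable g ∧ ∃ C, ∀ x, ‖g x‖ ≤ C) :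
    Measurable (fun x => f x + g x) ∧ ∃ C, ∀ x, ‖f x + g x‖ ≤ C := by
  obtain ⟨h1, C, hC⟩ := hf
  obtain ⟨h2, C', hC'⟩ := hg
  exact ⟨h1.add h2, C + C', fun x => (norm_add_le _ _).trans (add_le_add (hC x) (hC' x))⟩

theorem GK_cm_mul {X : Type*} [MeasurableSpace X] {f g : X → ℂ}
    (hf : Measurable f ∧ ∃ C, ∀ x, ‖f x‖ ≤ C) (hg : Measurable g ∧ ∃ C, ∀ x, ‖g x‖ ≤ C) :
    Measurable (fun x => f x * g x) ∧ ∃ C, ∀ x, ‖f x * g x‖ ≤ C := by
  obtain ⟨h1, C, hC⟩ := hf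
  obtain ⟨h2, C', hC'⟩ := hg
  refine ⟨h1.mul h2, |C| * |C'|, fun x => ?_⟩
  rw [norm_mul]
  exact mul_le_mul ((hC x).trans (le_abs_self _)) ((hC' x).trans (le_abs_self _)) (norm_nonneg _)
    (abs_nonneg _)

theorem GK_cm_sum {X κ : Type*} [MeasurableSpace X] (s : Finset κ) {f : κ → X → ℂ}
    (hf : ∀ i ∈ s, Measurable (f i) ∧ ∃ C, ∀ x, ‖f i x‖ ≤ C) :
    Measurable (fun x => ∑ i ∈ s, f i x) ∧ ∃ C, ∀ x, ‖∑ i ∈ s, f i x‖ ≤ C := by
  classical
  induction s using Finset.induction_on with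
  | empty =>
    simp only [Finset.sum_empty]
    exact GK_cm_const 0
  | insert a s ha ih =>
    simp only [Finset.sum_insert ha]
    exact GK_cm_add (hf a (Finset.mem_insert_self _ _))
      (ih fun i hi => hf i (Finset.mem_insert_of_mem hi))

theorem GK_cm_conj {X : Type*} [MeasurableSpace X] {f : X → ℂ}
    (hf : Measurable f ∧ ∃ C, ∀ x, ‖f x‖ ≤ C) :
    Measurable (fun x => conj (f x)) ∧ ∃ C, ∀ x, ‖conj (f x)‖ ≤ C := by
  obtain ⟨h1, C, hC⟩ := hf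
  exact ⟨Complex.continuous_conj.measurable.comp h1, C, fun x => by
    rw [RCLike.norm_conj]; exact hC x⟩

theorem GK_cm_ofReal {X : Type*} [MeasurableSpace X] {f : X → ℝ} (hf : BM f) :
    Measurable (fun x => (f x : ℂ)) ∧ ∃ C, ∀ x, ‖(f x : ℂ)‖ ≤ C := by
  obtain ⟨h1, C, hC⟩ := hf
  exact ⟨Complex.measurable_ofReal.comp h1, C, fun x => by
    rw [Complex.norm_real]; exact hC x⟩

theorem GK_cm_int {X : Type*} [MeasurableSpace X] {f : X → ℂ}
    (hf : Measurable f ∧ ∃ C, ∀ x, ‖f x‖ ≤ C) (μ : Measure X) [IsFiniteMeasure μ] :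
    Integrable f μ := by
  obtain ⟨h1, C, hC⟩ := hf
  exact Integrable.of_bound h1.aestronglyMeasurable C (Eventually.of_forall hC)

theorem GK_mdiff {n : ℕ} (i j : Fin n) : Measurable (fun x : Fin n → T3 => x i - x j) :=
  measurable_sub' (measurable_pi_apply i) (measurable_pi_apply j)

theorem GK_cm_ch (p : Fin 3 → ℤ) {n : ℕ} (i : Fin n) :
    Measurable (fun x : Fin n → T3 => ch p (x i)) ∧ ∃ C, ∀ x : Fin n → T3, ‖ch p (x i)‖ ≤ C :=
  ⟨(ch_continuous p).measurable.comp (measurable_pi_apply i), 1, fun x => (ch_norm p _).le⟩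

/-! ### Weak derivatives -/

theorem GK_WD_const {X E : Type*} [MeasurableSpace X] [AddCommGroup X] {μ : Measure X} {τ : ℝ → X}
    [NormedAddCommGroup E] [NormedSpace ℝ E] (h0 : τ 0 = 0) (c : E) :
    WD μ τ (fun _ => c) (fun _ => 0) :=
  WD.of_invariant h0 stronglyMeasurable_const ⟨‖c‖, fun _ => le_rfl⟩ fun _ _ => rfl

theorem GK_WD_const_mul {X : Type*} [MeasurableSpace X] [AddCommGroup X] {μ : Measure X}
    {τ : ℝ → X} {Φ Φ' : X → ℂ} (h : WD μ τ Φ Φ') (c : ℂ) :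
    WD μ τ (fun x => c * Φ x) (fun x => c * Φ' x) := by
  have h1 := (GK_WD_const (μ := μ) h.zero c).mul h
  simpa only [zero_mul, zero_add] using h1

theorem GK_WD_conj {X : Type*} [MeasurableSpace X] [AddCommGroup X] {μ : Measure X}
    {τ : ℝ → X} {Φ Φ' : X → ℂ} (h : WD μ τ Φ Φ') :
    WD μ τ (fun x => conj (Φ x)) (fun x => conj (Φ' x)) where
  zero := h.zero
  sm := Complex.continuous_conj.comp_stronglyMeasurable h.sm
  bdd := h.bdd.imp fun C hC x => by rw [RCLike.norm_conj]; exact hC x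
  lip := h.lip.imp fun C hC x t => by
    rw [← map_sub, RCLike.norm_conj]; exact hC x t
  deriv := by
    filter_upwards [h.deriv] with x hx
    exact (Complex.conjCLE : ℂ →L[ℝ] ℂ).hasFDerivAt.comp_hasDerivAt (0:ℝ) hx

theorem GK_ch_WD_self (p : Fin 3 → ℤ) {n : ℕ} (i : Fin n) (β : Fin 3) :
    WD (piN (Fin n)) (tauN i β) (fun x => ch p (x i)) (Tk p i β) := by
  have h := WD.character (μ := piN (Fin n)) (τ := tauN i β) (tauN_zero i β)
    (χ := fun x : Fin n → T3 => ch p (x i)) (GK_cm_ch p i).1.stronglyMeasurable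
    (fun x => ch_norm p _) (p β : ℝ) (fun x t => by
      have : (x + tauN i β t) i = x i + tau β t := by simp [tauN]
      rw [this, ch_add_tau])
  refine h.congr (Eventually.of_forall fun x => ?_)
  unfold Tk kc
  push_cast
  ring

theorem GK_ch_WD_ne (p : Fin 3 → ℤ) {n : ℕ} {i j : Fin n} (hij : i ≠ j) (β : Fin 3) :
    WD (piN (Fin n)) (tauN j β) (fun x => ch p (x i)) (fun _ => 0) := by
  refine WD.of_invariant (tauN_zero j β) (GK_cm_ch p i).1.stronglyMeasurable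
    ⟨1, fun x => (ch_norm p _).le⟩ fun x t => ?_
  have : (x + tauN j β t) i = x i := by simp [tauN, Pi.single_eq_of_ne hij]
  rw [this]

theorem GK_rho_WD (p : Fin 3 → ℤ) {n : ℕ} (i : Fin n) (β : Fin 3) :
    WD (piN (Fin n)) (tauN i β) (rhoN p) (Tk p i β) := by
  have h := WD.finset_sum (μ := piN (Fin n)) (τ := tauN i β) Finset.univ
    (Φ := fun j x => ch p (x j)) (Φ' := fun j x => if j = i then Tk p i β x else 0)
    (tauN_zero i β) (fun j _ => by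
      by_cases hj : j = i
      · subst hj
        simpa using GK_ch_WD_self p j β
      · simp only [if_neg hj]
        exact GK_ch_WD_ne p hj β)
  simp only [Finset.sum_ite_eq', Finset.mem_univ, if_true] at h
  exact h

theorem Tk_WD_self (p : Fin 3 → ℤ) {n : ℕ} (i : Fin n) (α β : Fin 3) :
    WD (piN (Fin n)) (tauN i β) (Tk p i α)
      (fun x => -((kc p α : ℂ) * (kc p β : ℂ)) * ch p (x i)) := by
  have h := GK_WD_const_mul (GK_ch_WD_self p i β) (Complex.I * (kc p α : ℂ))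
  refine h.congr (Eventually.of_forall fun x => ?_)
  unfold Tk
  have h2 : Complex.I * Complex.I = -1 := Complex.I_mul_I
  linear_combination ((kc p α : ℂ) * (kc p β : ℂ) * ch p (x i)) * h2

theorem Tk_WD_ne (p : Fin 3 → ℤ) {n : ℕ} {i j : Fin n} (hij : i ≠ j) (α β : Fin 3) :
    WD (piN (Fin n)) (tauN j β) (Tk p i α) (fun _ => 0) := by
  have h := GK_WD_const_mul (GK_ch_WD_ne p hij β) (Complex.I * (kc p α : ℂ))
  simp only [mul_zero] at h
  exact h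

/-- `Jk` is bounded and measurable. -/
theorem Jk_meas {D : Dat} (hD : D.Ok) {δ τ : ℝ} (hδ : 0 < δ) (hδ1 : δ ≤ 1) (n : ℕ)
    (p : Fin 3 → ℤ) : Measurable (Jk (D.du δ τ) p : (Fin n → T3) → ℂ) ∧
      ∃ C, ∀ x : Fin n → T3, ‖Jk (D.du δ τ) p x‖ ≤ C := by
  have hdu : ∀ β, BM (D.du δ τ β) := fun β => by
    refine ⟨(du_WD hD hδ hδ1 β 0).sm.measurable, ?_⟩
    obtain ⟨C, hC⟩ := (du_WD hD hδ hδ1 (τ := τ) β 0).bdd
    exact ⟨C, hC⟩
  unfold Jk
  refine GK_cm_sum _ fun i _ => GK_cm_add (GK_cm_mul (GK_cm_const _) (GK_cm_ch p i)) ?_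
  refine GK_cm_sum _ fun j _ => GK_cm_sum _ fun β _ => ?_
  exact GK_cm_mul (GK_cm_mul (GK_cm_const 2) (GK_cm_ofReal ((hdu β).comp (GK_mdiff i j))))
    (GK_cm_mul (GK_cm_const _) (GK_cm_ch p i))

theorem rhoN_meas (p : Fin 3 → ℤ) (n : ℕ) : Measurable (rhoN p : (Fin n → T3) → ℂ) ∧
    ∃ C, ∀ x : Fin n → T3, ‖rhoN p x‖ ≤ C := by
  unfold rhoN
  exact GK_cm_sum _ fun i _ => GK_cm_ch p i

theorem ibp {D : Dat} (hD : D.Ok) {δ τ : ℝ} (hδ : 0 < δ) (hδ1 : δ ≤ 1) (hτ : 0 ≤ τ) {n : ℕ}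
    (p : Fin 3 → ℤ) {Φ : (Fin n → T3) → ℂ} {dΦ : Fin n → Fin 3 → (Fin n → T3) → ℂ}
    (hΦ : ∀ i α, WD (piN (Fin n)) (tauN i α) Φ (dΦ i α)) :
    ∫ x, (∑ i, ∑ α, Tk p i α x * dΦ i α x) * (Wg (D.F δ τ) x : ℂ) ∂(piN (Fin n))
      = ∫ x, (Φ x * Jk (D.du δ τ) p x) * (Wg (D.F δ τ) x : ℂ) ∂(piN (Fin n)) := by
  have := piN_left_inv (ι := Fin n)
  have hG := F_gas hD hδ.le hδ1 hτ
  have hW : ∀ i α, WD (piN (Fin n)) (tauN i α) (fun x => (Wg (D.F δ τ) x : ℂ))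
      (fun x => ((-(∑ j ∈ Finset.univ.erase i, 2 * D.du δ τ α (x i - x j)) * Wg (D.F δ τ) x : ℝ)
        : ℂ)) := fun i α => (Wg_WD hD hδ hδ1 hτ i α).ofReal
  have h1 := fun i α => ((hΦ i α).mul (Tk_WD_self p i α α)).mul (hW i α)
  set G : Fin n → Fin 3 → (Fin n → T3) → ℂ := fun i α x =>
    (dΦ i α x * Tk p i α x + Φ x * (-((kc p α : ℂ) * (kc p α : ℂ)) * ch p (x i)))
      * (Wg (D.F δ τ) x : ℂ)
    + Φ x * Tk p i α x * ((-(∑ j ∈ Finset.univ.erase i, 2 * D.du δ τ α (x i - x j))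
      * Wg (D.F δ τ) x : ℝ) : ℂ) with hGdef
  have hGint : ∀ i α, Integrable (G i α) (piN (Fin n)) := fun i α => by
    obtain ⟨C, hC0, hC⟩ := (h1 i α).bound
    exact Integrable.of_bound (h1 i α).aesm_deriv C hC
  have hG0 : ∀ i α, ∫ x, G i α x ∂(piN (Fin n)) = 0 := fun i α => (h1 i α).integral_eq_zero
  have hR : Integrable (fun x => (Φ x * Jk (D.du δ τ) p x) * (Wg (D.F δ τ) x : ℂ))
      (piN (Fin n)) := by
    by_cases hn : Nonempty (Fin n)
    · obtain ⟨i0⟩ := hn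
      have hΦm : Measurable Φ ∧ ∃ C, ∀ x, ‖Φ x‖ ≤ C := ⟨(hΦ i0 0).sm.measurable, (hΦ i0 0).bdd⟩
      exact GK_cm_int (GK_cm_mul (GK_cm_mul hΦm (Jk_meas hD hδ hδ1 n p))
        (GK_cm_ofReal (Wg_bm hG n))) _
    · have : ∀ x : Fin n → T3, (Φ x * Jk (D.du δ τ) p x) * (Wg (D.F δ τ) x : ℂ) = 0 := by
        intro x
        have : Jk (D.du δ τ) p x = 0 := by
          unfold Jk
          rw [not_nonempty_iff] at hn
          simp
        rw [this]; ring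
      simp_rw [this]
      exact integrable_zero _ _ _
  have hSint : Integrable (fun x => ∑ i, ∑ α, G i α x) (piN (Fin n)) :=
    integrable_finsetSum _ fun i _ => integrable_finsetSum _ fun α _ => hGint i α
  have hpt : ∀ x, (∑ i, ∑ α, Tk p i α x * dΦ i α x) * (Wg (D.F δ τ) x : ℂ)
      = (∑ i, ∑ α, G i α x) + (Φ x * Jk (D.du δ τ) p x) * (Wg (D.F δ τ) x : ℂ) := by
    intro x
    have e1 : Jk (D.du δ τ) p x = ∑ i, ∑ α, ((kc p α : ℂ) * (kc p α : ℂ) * ch p (x i)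
        + (∑ j ∈ Finset.univ.erase i, 2 * (D.du δ τ α (x i - x j) : ℂ)) * Tk p i α x) := by
      unfold Jk
      refine Finset.sum_congr rfl fun i _ => ?_
      rw [Finset.sum_add_distrib]
      congr 1
      · rw [ksq_eq]
        push_cast
        rw [Finset.sum_mul]
        refine Finset.sum_congr rfl fun α _ => by ring
      · rw [Finset.sum_comm]
        refine Finset.sum_congr rfl fun α _ => ?_
        rw [Finset.sum_mul]
        refine Finset.sum_congr rfl fun j _ => ?_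
        unfold Tk
        ring
    rw [e1, Finset.mul_sum, Finset.sum_mul, Finset.sum_mul, ← Finset.sum_add_distrib]
    refine Finset.sum_congr rfl fun i _ => ?_
    rw [Finset.mul_sum, Finset.sum_mul, Finset.sum_mul, ← Finset.sum_add_distrib]
    refine Finset.sum_congr rfl fun α _ => ?_
    simp only [hGdef]
    push_cast
    ring
  simp_rw [hpt]
  rw [integral_add hSint hR]
  rw [integral_finsetSum _ (fun i _ => integrable_finsetSum _ fun α _ => hGint i α)]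
  have h0 : ∑ i, ∫ x, ∑ α, G i α x ∂(piN (Fin n)) = 0 := by
    refine Finset.sum_eq_zero fun i _ => ?_
    rw [integral_finsetSum _ (fun α _ => hGint i α)]
    exact Finset.sum_eq_zero fun α _ => hG0 i α
  rw [h0, zero_add]

/-- Test function `conj ρ_p`: `∑ |T_{iα}|² = n |k|²`. -/
theorem EgC_rho_J {D : Dat} (hD : D.Ok) {δ τ : ℝ} (hδ : 0 < δ) (hδ1 : δ ≤ 1) (hτ : 0 ≤ τ) {n : ℕ}
    (hZ : Zg (D.F δ τ) n ≠ 0) (p : Fin 3 → ℤ) :
    EgC (D.F δ τ) n (fun x => conj (rhoN p x) * Jk (D.du δ τ) p x) = (n * ksq p : ℝ) := by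
  unfold EgC
  have h1 := ibp hD hδ hδ1 hτ p (Φ := fun x : Fin n → T3 => conj (rhoN p x))
    (dΦ := fun i α x => conj (Tk p i α x)) (fun i α => GK_WD_conj (GK_rho_WD p i α))
  rw [← h1]
  have h2 : ∀ x : Fin n → T3, (∑ i, ∑ α, Tk p i α x * conj (Tk p i α x)) = (n * ksq p : ℝ) := by
    intro x
    have h3 : ∀ (i : Fin n) (α : Fin 3), Tk p i α x * conj (Tk p i α x) = ((kc p α ^ 2 : ℝ) : ℂ) := by
      intro i α
      rw [Complex.mul_conj, Complex.normSq_eq_norm_sq]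
      unfold Tk
      rw [norm_mul, norm_mul, Complex.norm_I, one_mul, ch_norm, mul_one, Complex.norm_real,
        Real.norm_eq_abs, sq_abs]
    simp_rw [h3]
    rw [Finset.sum_const, Finset.card_univ, Fintype.card_fin, nsmul_eq_mul, ksq_eq]
    push_cast
    rfl
  simp_rw [h2]
  rw [integral_const_mul, integral_complex_ofReal]
  have hZ' : (Zg (D.F δ τ) n : ℂ) ≠ 0 := by exact_mod_cast hZ
  rw [mul_div_assoc]
  unfold Zg at hZ' ⊢
  rw [div_self hZ', mul_one]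

end Pool.Agent.Lib.MP_4952d6_mp

end

/-! ### U.GL -/

section

set_option autoImplicit false
set_option linter.unusedSectionVars false
set_option linter.unusedVariables false
open MeasureTheory Function Filter Topology Set ComplexConjugate

namespace Pool.Agent.Lib.MP_4952d6_mp

/-! # GL: second moment of the score

Derivative of `conj J_p` in the direction `(m, α)` (`J = ∑_i (|k|² e_i + ∑_{j≠i} ∑_β 2 u_β (x_i - x_j) (i k_β) e_i)`, `e_i = ch p (x i)`):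
`∂_{mα} conj J = |k|² (-i k_α) conj e_m + ∑_{j≠m} ∑_β [2 u_{βα}(x_m - x_j)(-i k_β) conj e_m + 2 u_β (x_m - x_j)(-i k_β)(-i k_α) conj e_m]
  + ∑_{i≠m} ∑_β (-2 u_{βα}(x_i - x_m)) (-i k_β) conj e_i`.
Multiply by `T_{mα} = i k_α e_m`, sum over `m, α`, use `|e_m| = 1`:
`n |k|⁴ + ∑_{m≠j} 2 (k·D²u k)(x_m - x_j) + |k|² ∑_{m≠j} ∑_β 2 u_β(x_m - x_j)(-i k_β) - ∑_{m≠i} 2 (k·D²u k)(x_i - x_m) conj e_i e_m`;
the third sum vanishes pointwise (odd function, sum over ordered pairs), `conj e_i e_m = ch p (x_m - x_i)`. So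
`∑ T_{mα} ∂_{mα} conj J = n |k|⁴ + ∑_{i≠m} 2 (k·D²u k)(x_i - x_m) (1 - ch p (x_m - x_i))`, whose expectation is (`ibp` with `Φ = conj J`,
`pair_pp`, `pp_even`, `ddu_even`) `E |J|²`. -/

/-- derivative of `conj J_p` -/
noncomputable def dJ (D : Dat) (δ τ : ℝ) (p : Fin 3 → ℤ) {n : ℕ} (m : Fin n) (α : Fin 3)
    (x : Fin n → T3) : ℂ :=
  (ksq p : ℂ) * (-(Complex.I * (kc p α : ℂ))) * conj (ch p (x m))
    + ∑ j ∈ Finset.univ.erase m, ∑ β,
        (2 * (D.ddu δ τ β α (x m - x j) : ℂ) * (-(Complex.I * (kc p β : ℂ))) * conj (ch p (x m))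
          + 2 * (D.du δ τ β (x m - x j) : ℂ) * (-(Complex.I * (kc p β : ℂ)))
            * (-(Complex.I * (kc p α : ℂ))) * conj (ch p (x m)))
    + ∑ i ∈ Finset.univ.erase m, ∑ β,
        (-(2 * (D.ddu δ τ β α (x i - x m) : ℂ))) * (-(Complex.I * (kc p β : ℂ)))
          * conj (ch p (x i))

theorem GL_du_WD {D : Dat} (hD : D.Ok) {δ τ : ℝ} (hδ : 0 < δ) (hδ1 : δ ≤ 1) {n : ℕ} {i j : Fin n}
    (hij : i ≠ j) (m : Fin n) (α β : Fin 3) :
    WD (piN (Fin n)) (tauN m α) (fun x => D.du δ τ β (x i - x j))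
      (fun x => (if i = m then D.ddu δ τ β α (x i - x j) else 0)
        - (if j = m then D.ddu δ τ β α (x i - x j) else 0)) := by
  by_cases hi : i = m
  · subst hi
    have h1 : WD (piN (Fin n)) (tauN i α) (fun x => D.du δ τ β (x i - x j))
        (fun x => D.ddu δ τ β α (x i - x j)) := by
      refine (du_WD hD hδ hδ1 β α).comp (tauN_zero i α) (mp_diff hij) fun x t => ?_
      simp only [Pi.add_apply, tauN, Pi.single_eq_same, Pi.single_eq_of_ne hij.symm]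
      abel
    refine h1.congr (Eventually.of_forall fun x => ?_)
    rw [if_pos rfl, if_neg hij.symm, sub_zero]
  · by_cases hj : j = m
    · subst hj
      have h1 : WD (piN (Fin n)) (tauN j α) (fun x => D.du δ τ β (x j - x i))
          (fun x => D.ddu δ τ β α (x j - x i)) := by
        refine (du_WD hD hδ hδ1 β α).comp (tauN_zero j α) (mp_diff hij.symm) fun x t => ?_
        simp only [Pi.add_apply, tauN, Pi.single_eq_same, Pi.single_eq_of_ne hij]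
        abel
      have h2 := (GK_WD_const (μ := piN (Fin n)) h1.zero (-1 : ℝ)).mul h1
      have e1 : (fun x : Fin n → T3 => D.du δ τ β (x i - x j))
          = fun x => (-1 : ℝ) * D.du δ τ β (x j - x i) := by
        ext x
        rw [← neg_sub (x j) (x i), du_odd hD]
        ring
      rw [e1]
      refine h2.congr (Eventually.of_forall fun x => ?_)
      rw [if_neg hi, if_pos rfl, ← neg_sub (x j) (x i), ddu_even hD]
      ring
    · have hd : ∀ (x : Fin n → T3) (t : ℝ), (x + tauN m α t) i - (x + tauN m α t) j = x i - x j := by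
        intro x t
        simp only [Pi.add_apply, tauN, Pi.single_eq_of_ne hi, Pi.single_eq_of_ne hj, add_zero]
      have h1 : WD (piN (Fin n)) (tauN m α) (fun x => D.du δ τ β (x i - x j)) (fun _ => 0) := by
        refine WD.of_invariant (tauN_zero m α) ?_ ?_ fun x t => by rw [hd]
        · exact ((du_WD hD hδ hδ1 β 0).sm.measurable.comp (GK_mdiff i j)).stronglyMeasurable
        · obtain ⟨C, hC⟩ := (du_WD hD hδ hδ1 (τ := τ) β 0).bdd
          exact ⟨C, fun x => hC _⟩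
      refine h1.congr (Eventually.of_forall fun x => ?_)
      rw [if_neg hi, if_neg hj, sub_zero]

theorem GL_ch_WD (p : Fin 3 → ℤ) {n : ℕ} (i m : Fin n) (α : Fin 3) :
    WD (piN (Fin n)) (tauN m α) (fun x => conj (ch p (x i)))
      (fun x => if i = m then -(Complex.I * (kc p α : ℂ)) * conj (ch p (x i)) else 0) := by
  by_cases hi : i = m
  · subst hi
    refine (GK_WD_conj (GK_ch_WD_self p i α)).congr (Eventually.of_forall fun x => ?_)
    rw [if_pos rfl]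
    unfold Tk
    rw [map_mul, map_mul, Complex.conj_I, Complex.conj_ofReal]
    ring
  · refine (GK_WD_conj (GK_ch_WD_ne p hi α)).congr (Eventually.of_forall fun x => ?_)
    rw [if_neg hi, map_zero]

theorem GL_sum_erase_ite {M : Type*} [AddCommMonoid M] {n : ℕ} (m : Fin n)
    (X : Fin n → Fin n → M) :
    ∑ i, ∑ j ∈ Finset.univ.erase i, (if j = m then X i j else 0)
      = ∑ i ∈ Finset.univ.erase m, X i m := by
  have h1 : ∀ i, ∑ j ∈ Finset.univ.erase i, (if j = m then X i j else 0)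
      = if i = m then 0 else X i m := by
    intro i
    rw [Finset.sum_ite_eq']
    by_cases hi : i = m
    · subst hi; simp
    · rw [if_pos (Finset.mem_erase.2 ⟨fun h => hi h.symm, Finset.mem_univ m⟩), if_neg hi]
  simp_rw [h1]
  rw [← Finset.add_sum_erase Finset.univ _ (Finset.mem_univ m), if_pos rfl, zero_add]
  refine Finset.sum_congr rfl fun i hi => ?_
  rw [if_neg (Finset.ne_of_mem_erase hi)]

theorem GL_sum_odd {n : ℕ} (x : Fin n → T3) (f : T3 → ℂ) (hf : ∀ z, f (-z) = - f z) :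
    ∑ m, ∑ j ∈ Finset.univ.erase m, f (x m - x j) = 0 := by
  have h1 : ∑ m, ∑ j ∈ Finset.univ.erase m, f (x m - x j)
      = ∑ m, ∑ j ∈ Finset.univ.erase m, f (x j - x m) := by
    rw [Finset.sum_comm' (t' := Finset.univ) (s' := fun j => Finset.univ.erase j)]
    intro a b
    simp only [Finset.mem_univ, Finset.mem_erase, and_true, true_and, ne_comm]
  have h2 : ∑ m, ∑ j ∈ Finset.univ.erase m, f (x m - x j)
      = - ∑ m, ∑ j ∈ Finset.univ.erase m, f (x j - x m) := by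
    rw [← Finset.sum_neg_distrib]
    refine Finset.sum_congr rfl fun m _ => ?_
    rw [← Finset.sum_neg_distrib]
    refine Finset.sum_congr rfl fun j _ => ?_
    rw [← neg_sub, hf]
  rw [← h1] at h2
  exact self_eq_neg.1 h2

theorem GL_conj_J (D : Dat) (δ τ : ℝ) (p : Fin 3 → ℤ) {n : ℕ} (x : Fin n → T3) :
    conj (Jk (D.du δ τ) p x) = ∑ i, ((ksq p : ℂ) * conj (ch p (x i))
      + ∑ j ∈ Finset.univ.erase i, ∑ β, (2 * -(Complex.I * (kc p β : ℂ)))
        * ((D.du δ τ β (x i - x j) : ℂ) * conj (ch p (x i)))) := by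
  unfold Jk
  simp only [map_sum, map_add, map_mul, Complex.conj_ofReal, Complex.conj_I, map_ofNat]
  refine Finset.sum_congr rfl fun i _ => ?_
  congr 1
  refine Finset.sum_congr rfl fun j _ => Finset.sum_congr rfl fun β _ => ?_
  ring

theorem GL_conj_mul_ch (p : Fin 3 → ℤ) (x : T3) : conj (ch p x) * ch p x = 1 := by
  rw [mul_comm, Complex.mul_conj, Complex.normSq_eq_norm_sq, ch_norm]; simp

theorem GL_ch_sub (p : Fin 3 → ℤ) (x y : T3) : ch p (x - y) = ch p x * conj (ch p y) := by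
  rw [sub_eq_add_neg, ch_add_arg, ch_neg_arg]

theorem GL_kDk_even {D : Dat} (hD : D.Ok) (δ τ : ℝ) (p : Fin 3 → ℤ) (z : T3) :
    kDk (D.ddu δ τ) p (-z) = kDk (D.ddu δ τ) p z := by
  unfold kDk
  simp only [ddu_even hD]

theorem GL_kDk_bm {D : Dat} (hD : D.Ok) {δ τ : ℝ} (hδ : 0 < δ) (hδ1 : δ ≤ 1) (p : Fin 3 → ℤ) :
    BM (kDk (D.ddu δ τ) p) := by
  unfold kDk
  exact BM.finset_sum _ fun α _ => BM.finset_sum _ fun β _ => (ddu_bm hD hδ hδ1 α β).const_mul _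

theorem GL_re_bm (p : Fin 3 → ℤ) : BM (fun z : T3 => (ch p z).re) :=
  ⟨Complex.measurable_re.comp (ch_continuous p).measurable, 1, fun z => ch_re_le p z⟩

theorem GL_J_shift (du : Fin 3 → T3 → ℝ) (p : Fin 3 → ℤ) {n : ℕ} (x : Fin n → T3) (s : T3) :
    Jk du p (fun i => x i + s) = ch p s * Jk du p x := by
  unfold Jk
  rw [Finset.mul_sum]
  refine Finset.sum_congr rfl fun i _ => ?_
  simp only [add_sub_add_right_eq_sub, ch_add_arg]
  rw [mul_add, Finset.mul_sum]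
  congr 1
  · ring
  · refine Finset.sum_congr rfl fun j _ => ?_
    rw [Finset.mul_sum]
    refine Finset.sum_congr rfl fun β _ => ?_
    ring

theorem conjJ_WD {D : Dat} (hD : D.Ok) {δ τ : ℝ} (hδ : 0 < δ) (hδ1 : δ ≤ 1) (p : Fin 3 → ℤ)
    {n : ℕ} (m : Fin n) (α : Fin 3) :
    WD (piN (Fin n)) (tauN m α) (fun x => conj (Jk (D.du δ τ) p x)) (dJ D δ τ p m α) := by
  have hterm : ∀ i ∈ (Finset.univ : Finset (Fin n)), WD (piN (Fin n)) (tauN m α)
      (fun x => (ksq p : ℂ) * conj (ch p (x i))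
        + ∑ j ∈ Finset.univ.erase i, ∑ β, (2 * -(Complex.I * (kc p β : ℂ)))
          * ((D.du δ τ β (x i - x j) : ℂ) * conj (ch p (x i))))
      (fun x => (ksq p : ℂ) * (if i = m then -(Complex.I * (kc p α : ℂ)) * conj (ch p (x i)) else 0)
        + ∑ j ∈ Finset.univ.erase i, ∑ β, (2 * -(Complex.I * (kc p β : ℂ)))
          * ((((if i = m then D.ddu δ τ β α (x i - x j) else 0)
              - (if j = m then D.ddu δ τ β α (x i - x j) else 0) : ℝ) : ℂ) * conj (ch p (x i))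
            + (D.du δ τ β (x i - x j) : ℂ)
              * (if i = m then -(Complex.I * (kc p α : ℂ)) * conj (ch p (x i)) else 0))) := by
    intro i _
    refine (GK_WD_const_mul (GL_ch_WD p i m α) _).add ?_
    refine WD.finset_sum _ (tauN_zero m α) fun j hj => ?_
    refine WD.finset_sum _ (tauN_zero m α) fun β _ => ?_
    have hij : i ≠ j := (Finset.ne_of_mem_erase hj).symm
    exact GK_WD_const_mul (((GL_du_WD hD hδ hδ1 hij m α β).ofReal).mul (GL_ch_WD p i m α)) _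
  have h1 := WD.finset_sum (μ := piN (Fin n)) (τ := tauN m α) Finset.univ (tauN_zero m α) hterm
  have e0 : (fun x : Fin n → T3 => conj (Jk (D.du δ τ) p x)) = fun x => ∑ i,
      ((ksq p : ℂ) * conj (ch p (x i))
        + ∑ j ∈ Finset.univ.erase i, ∑ β, (2 * -(Complex.I * (kc p β : ℂ)))
          * ((D.du δ τ β (x i - x j) : ℂ) * conj (ch p (x i)))) := by
    ext x; exact GL_conj_J D δ τ p x
  rw [e0]
  refine h1.congr (Eventually.of_forall fun x => ?_)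
  unfold dJ
  rw [Finset.sum_add_distrib, add_assoc]
  congr 1
  · simp only [mul_ite, mul_zero, Finset.sum_ite_eq', Finset.mem_univ, if_true]
    ring
  · have e1 : ∀ i : Fin n, ∑ j ∈ Finset.univ.erase i, ∑ β, (2 * -(Complex.I * (kc p β : ℂ)))
          * ((((if i = m then D.ddu δ τ β α (x i - x j) else 0)
              - (if j = m then D.ddu δ τ β α (x i - x j) else 0) : ℝ) : ℂ) * conj (ch p (x i))
            + (D.du δ τ β (x i - x j) : ℂ)
              * (if i = m then -(Complex.I * (kc p α : ℂ)) * conj (ch p (x i)) else 0))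
        = (if i = m then ∑ j ∈ Finset.univ.erase i, ∑ β,
            (2 * (D.ddu δ τ β α (x i - x j) : ℂ) * (-(Complex.I * (kc p β : ℂ))) * conj (ch p (x i))
              + 2 * (D.du δ τ β (x i - x j) : ℂ) * (-(Complex.I * (kc p β : ℂ)))
                * (-(Complex.I * (kc p α : ℂ))) * conj (ch p (x i))) else 0)
          + ∑ j ∈ Finset.univ.erase i, (if j = m then ∑ β,
            (-(2 * (D.ddu δ τ β α (x i - x j) : ℂ))) * (-(Complex.I * (kc p β : ℂ)))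
              * conj (ch p (x i)) else 0) := by
      intro i
      by_cases hi : i = m
      · simp only [if_pos hi]
        rw [← Finset.sum_add_distrib]
        refine Finset.sum_congr rfl fun j hj => ?_
        have hj' : j ≠ m := fun h => (Finset.ne_of_mem_erase hj) (h.trans hi.symm)
        simp only [if_neg hj', add_zero, sub_zero]
        refine Finset.sum_congr rfl fun β _ => ?_
        ring
      · simp only [if_neg hi, zero_add]
        refine Finset.sum_congr rfl fun j hj => ?_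
        by_cases hj' : j = m
        · simp only [if_pos hj']
          refine Finset.sum_congr rfl fun β _ => ?_
          push_cast
          ring
        · simp only [if_neg hj']
          refine Finset.sum_eq_zero fun β _ => ?_
          simp
    simp_rw [e1]
    rw [Finset.sum_add_distrib, Finset.sum_ite_eq' Finset.univ m, if_pos (Finset.mem_univ m),
      GL_sum_erase_ite m (fun i j => ∑ β, (-(2 * (D.ddu δ τ β α (x i - x j) : ℂ)))
        * (-(Complex.I * (kc p β : ℂ))) * conj (ch p (x i)))]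

/-- Pointwise identity of the header. -/
theorem T_dJ {D : Dat} (hD : D.Ok) (δ τ : ℝ) (p : Fin 3 → ℤ) {n : ℕ} (x : Fin n → T3) :
    ∑ m, ∑ α, Tk p m α x * dJ D δ τ p m α x
      = (n * ksq p ^ 2 : ℝ) + ∑ m, ∑ i ∈ Finset.univ.erase m,
          2 * (kDk (D.ddu δ τ) p (x i - x m) : ℂ) * (1 - ch p (x m - x i)) := by
  have hI : Complex.I * Complex.I = -1 := Complex.I_mul_I
  have hk : ksq p = ∑ α, kc p α ^ 2 := ksq_eq p
  -- each term
  have h1 : ∀ (m : Fin n) (α : Fin 3), Tk p m α x * dJ D δ τ p m α x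
      = (ksq p : ℂ) * ((kc p α : ℂ) ^ 2)
        + (∑ j ∈ Finset.univ.erase m, (∑ β, 2 * ((kc p α : ℂ) * (kc p β : ℂ)
            * (D.ddu δ τ β α (x j - x m) : ℂ)) + (kc p α : ℂ) ^ 2 * ∑ β,
              (-(2 * Complex.I) * (kc p β : ℂ) * (D.du δ τ β (x m - x j) : ℂ))))
        + ∑ i ∈ Finset.univ.erase m, ∑ β, -(2 * ((kc p α : ℂ) * (kc p β : ℂ)
            * (D.ddu δ τ β α (x i - x m) : ℂ))) * ch p (x m - x i) := by
    intro m α
    have he := GL_conj_mul_ch p (x m)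
    unfold dJ Tk
    rw [mul_add, mul_add]
    congr 1
    · congr 1
      · linear_combination (-(ksq p : ℂ) * (kc p α : ℂ) ^ 2 * (conj (ch p (x m)) * ch p (x m))) * hI
          + ((ksq p : ℂ) * (kc p α : ℂ) ^ 2) * he
      · rw [Finset.mul_sum]
        refine Finset.sum_congr rfl fun j _ => ?_
        rw [Finset.mul_sum, Finset.mul_sum, ← Finset.sum_add_distrib]
        refine Finset.sum_congr rfl fun β _ => ?_
        rw [show x j - x m = -(x m - x j) by abel, ddu_even hD]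
        set e := ch p (x m)
        set e' := conj e
        linear_combination (-(2 * (kc p α : ℂ) * (kc p β : ℂ) * (D.ddu δ τ β α (x m - x j) : ℂ))
            * (e' * e) + 2 * (D.du δ τ β (x m - x j) : ℂ) * (kc p β : ℂ) * (kc p α : ℂ) ^ 2
              * Complex.I * (e' * e)) * hI
          + (2 * (kc p α : ℂ) * (kc p β : ℂ) * (D.ddu δ τ β α (x m - x j) : ℂ)
            - 2 * (D.du δ τ β (x m - x j) : ℂ) * (kc p β : ℂ) * (kc p α : ℂ) ^ 2 * Complex.I) * he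
    · rw [Finset.mul_sum]
      refine Finset.sum_congr rfl fun i _ => ?_
      rw [Finset.mul_sum]
      refine Finset.sum_congr rfl fun β _ => ?_
      rw [GL_ch_sub]
      linear_combination (2 * (kc p α : ℂ) * (kc p β : ℂ) * (D.ddu δ τ β α (x i - x m) : ℂ)
        * (ch p (x m) * conj (ch p (x i)))) * hI
  simp_rw [h1]
  have hkD : ∀ z, (kDk (D.ddu δ τ) p z : ℂ) = ∑ α, ∑ β, (kc p α : ℂ) * (kc p β : ℂ)
      * (D.ddu δ τ β α z : ℂ) := by
    intro z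
    unfold kDk
    rw [Finset.sum_comm]
    push_cast
    refine Finset.sum_congr rfl fun α _ => Finset.sum_congr rfl fun β _ => ?_
    ring
  have h2 : ∀ m : Fin n, ∑ α, ((ksq p : ℂ) * ((kc p α : ℂ) ^ 2)
        + (∑ j ∈ Finset.univ.erase m, (∑ β, 2 * ((kc p α : ℂ) * (kc p β : ℂ)
            * (D.ddu δ τ β α (x j - x m) : ℂ)) + (kc p α : ℂ) ^ 2 * ∑ β,
              (-(2 * Complex.I) * (kc p β : ℂ) * (D.du δ τ β (x m - x j) : ℂ))))
        + ∑ i ∈ Finset.univ.erase m, ∑ β, -(2 * ((kc p α : ℂ) * (kc p β : ℂ)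
            * (D.ddu δ τ β α (x i - x m) : ℂ))) * ch p (x m - x i))
      = (ksq p : ℂ) ^ 2 + (∑ j ∈ Finset.univ.erase m, (2 * (kDk (D.ddu δ τ) p (x j - x m) : ℂ)
          * (1 - ch p (x m - x j))
        + (ksq p : ℂ) * ∑ β, (-(2 * Complex.I) * (kc p β : ℂ) * (D.du δ τ β (x m - x j) : ℂ)))) := by
    intro m
    rw [Finset.sum_add_distrib, Finset.sum_add_distrib, add_assoc]
    congr 1
    · rw [← Finset.mul_sum, hk]; push_cast; ring
    · rw [Finset.sum_comm, Finset.sum_comm (s := Finset.univ) (t := Finset.univ.erase m),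
        ← Finset.sum_add_distrib]
      refine Finset.sum_congr rfl fun j _ => ?_
      rw [Finset.sum_add_distrib, ← Finset.sum_mul, hkD, hk]
      push_cast
      simp only [Finset.mul_sum, Finset.sum_mul]
      rw [show ∀ a b c d e : ℂ, (a + b) + c = d + e ↔ a + c + b = d + e from fun a b c d e => by
        rw [add_right_comm]]
      congr 1
      rw [← Finset.sum_add_distrib]
      refine Finset.sum_congr rfl fun α _ => ?_
      rw [← Finset.sum_add_distrib]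
      refine Finset.sum_congr rfl fun β _ => ?_
      ring
  simp_rw [h2]
  rw [Finset.sum_add_distrib]
  congr 1
  · rw [Finset.sum_const, Finset.card_univ, Fintype.card_fin, nsmul_eq_mul]; push_cast; ring
  · have h3 := GL_sum_odd x (fun z => (ksq p : ℂ) * ∑ β, (-(2 * Complex.I) * (kc p β : ℂ)
        * (D.du δ τ β z : ℂ))) (fun z => by
      simp only [du_odd hD, Complex.ofReal_neg, mul_neg, Finset.sum_neg_distrib])
    simp_rw [Finset.sum_add_distrib]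
    rw [h3, add_zero]

/-- **Second moment of the score**, `n + 2` particles. -/
theorem Eg_J_sq {D : Dat} (hD : D.Ok) {δ τ : ℝ} (hδ : 0 < δ) (hδ1 : δ ≤ 1) (hτ : 0 ≤ τ) {n : ℕ}
    (hZ : 0 < Zg (D.F δ τ) (n + 2)) (p : Fin 3 → ℤ) :
    Eg (D.F δ τ) (n + 2) (fun x => ‖Jk (D.du δ τ) p x‖ ^ 2)
      = (n + 2) * jg (D.F δ τ) (D.ddu δ τ) n p := by
  have hG := F_gas hD hδ.le hδ1 hτ
  have h1 := ibp hD hδ hδ1 hτ p (Φ := fun x : Fin (n + 2) → T3 => conj (Jk (D.du δ τ) p x))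
    (dΦ := dJ D δ τ p) (fun i α => conjJ_WD hD hδ hδ1 p i α)
  simp_rw [T_dJ hD] at h1
  have bW := Wg_bm hG (n + 2)
  have bk := GL_kDk_bm hD (τ := τ) hδ hδ1 p
  -- the real function
  set H : T3 → ℝ := fun z => 2 * kDk (D.ddu δ τ) p z * (1 - (ch p z).re) with hH
  have bH : BM H := (bk.const_mul 2).mul ((BM.const 1).sub (GL_re_bm p))
  have cH : Measurable (fun z : T3 => 2 * (kDk (D.ddu δ τ) p z : ℂ) * (1 - ch p (-z)))
      ∧ ∃ C, ∀ z : T3, ‖2 * (kDk (D.ddu δ τ) p z : ℂ) * (1 - ch p (-z))‖ ≤ C := by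
    have c1 : Measurable (fun z : T3 => ch p (-z)) ∧ ∃ C, ∀ z : T3, ‖ch p (-z)‖ ≤ C :=
      ⟨((ch_continuous p).comp continuous_neg).measurable, 1, fun z => (ch_norm p _).le⟩
    have c2 := GK_cm_add (GK_cm_const (X := T3) 1) (GK_cm_mul (GK_cm_const (-1)) c1)
    have c3 := GK_cm_mul (GK_cm_mul (GK_cm_const (X := T3) 2) (GK_cm_ofReal bk)) c2
    have e : ∀ z : T3, 2 * (kDk (D.ddu δ τ) p z : ℂ) * (1 + -1 * ch p (-z))
        = 2 * (kDk (D.ddu δ τ) p z : ℂ) * (1 - ch p (-z)) := fun z => by ring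
    simpa only [e] using c3
  have hLint : Integrable (fun x : Fin (n + 2) → T3 =>
      (((n + 2 : ℕ) * ksq p ^ 2 : ℝ) + ∑ m, ∑ i ∈ Finset.univ.erase m,
        2 * (kDk (D.ddu δ τ) p (x i - x m) : ℂ) * (1 - ch p (x m - x i)))
        * (Wg (D.F δ τ) x : ℂ)) (piN (Fin (n + 2))) := by
    refine GK_cm_int (GK_cm_mul (GK_cm_add (GK_cm_const _) (GK_cm_sum _ fun m _ =>
      GK_cm_sum _ fun i _ => ?_)) (GK_cm_ofReal bW)) _
    have e : ∀ x : Fin (n + 2) → T3, x m - x i = -(x i - x m) := fun x => by abel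
    simp_rw [e]
    exact ⟨cH.1.comp (GK_mdiff i m), cH.2.imp fun C hC x => hC _⟩
  have h2 := congrArg Complex.re h1
  have h3 : (∫ x : Fin (n + 2) → T3, (conj (Jk (D.du δ τ) p x) * Jk (D.du δ τ) p x)
      * (Wg (D.F δ τ) x : ℂ) ∂(piN (Fin (n + 2)))).re
      = ∫ x : Fin (n + 2) → T3, ‖Jk (D.du δ τ) p x‖ ^ 2 * Wg (D.F δ τ) x
        ∂(piN (Fin (n + 2))) := by
    have e : ∀ x : Fin (n + 2) → T3, (conj (Jk (D.du δ τ) p x) * Jk (D.du δ τ) p x)
        * (Wg (D.F δ τ) x : ℂ) = ((‖Jk (D.du δ τ) p x‖ ^ 2 * Wg (D.F δ τ) x : ℝ) : ℂ) := by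
      intro x
      rw [mul_comm (conj _), Complex.mul_conj, Complex.normSq_eq_norm_sq]
      push_cast; ring
    simp_rw [e]
    rw [integral_complex_ofReal, Complex.ofReal_re]
  have h4 : (∫ x : Fin (n + 2) → T3, (((n + 2 : ℕ) * ksq p ^ 2 : ℝ)
        + ∑ m, ∑ i ∈ Finset.univ.erase m,
        2 * (kDk (D.ddu δ τ) p (x i - x m) : ℂ) * (1 - ch p (x m - x i)))
        * (Wg (D.F δ τ) x : ℂ) ∂(piN (Fin (n + 2)))).re
      = ∫ x : Fin (n + 2) → T3, ((n + 2 : ℕ) * ksq p ^ 2 + ∑ m, ∑ i ∈ Finset.univ.erase m,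
        H (x i - x m)) * Wg (D.F δ τ) x ∂(piN (Fin (n + 2))) := by
    have e := integral_re hLint
    simp only [RCLike.re_to_complex] at e
    rw [← e]
    refine integral_congr_ae (Eventually.of_forall fun x => ?_)
    dsimp only
    rw [Complex.re_mul_ofReal, Complex.add_re, Complex.ofReal_re, Complex.re_sum]
    congr 2
    refine Finset.sum_congr rfl fun m _ => ?_
    rw [Complex.re_sum]
    refine Finset.sum_congr rfl fun i _ => ?_
    have e2 : 2 * (kDk (D.ddu δ τ) p (x i - x m) : ℂ) * (1 - ch p (x m - x i))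
        = ((2 * kDk (D.ddu δ τ) p (x i - x m) : ℝ) : ℂ) * (1 - ch p (x m - x i)) := by
      push_cast; ring
    rw [e2, Complex.re_ofReal_mul, Complex.sub_re, Complex.one_re, hH,
      show x m - x i = -(x i - x m) by abel, ch_re_neg]
  rw [h3, h4] at h2
  have h5 : Eg (D.F δ τ) (n + 2) (fun x => ‖Jk (D.du δ τ) p x‖ ^ 2)
      = Eg (D.F δ τ) (n + 2) (fun x => ((n + 2 : ℕ) * ksq p ^ 2 + ∑ m,
        ∑ i ∈ Finset.univ.erase m, H (x i - x m))) := by
    unfold Eg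
    rw [← h2]
  rw [h5]
  have bHx : ∀ (m i : Fin (n + 2)), BM (fun x : Fin (n + 2) → T3 => H (x i - x m)) :=
    fun m i => bH.comp (GK_mdiff i m)
  rw [Eg_add hG (BM.const _) (BM.finset_sum _ fun m _ => BM.finset_sum _ fun i _ => bHx m i),
    Eg_const hZ.ne', Eg_sum hG _ (fun m _ => BM.finset_sum _ fun i _ => bHx m i)]
  have h6 : ∀ m : Fin (n + 2), Eg (D.F δ τ) (n + 2)
      (fun x => ∑ i ∈ Finset.univ.erase m, H (x i - x m))
      = (n + 1) * ∫ z, H z * pp (D.F δ τ) n z ∂lam3 := by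
    intro m
    rw [Eg_sum hG _ (fun i _ => bHx m i), Finset.sum_congr rfl fun i hi =>
      pair_pp hG n hZ bH i m (Finset.ne_of_mem_erase hi), Finset.sum_const,
      Finset.card_erase_of_mem (Finset.mem_univ m), Finset.card_univ, Fintype.card_fin,
      nsmul_eq_mul]
    push_cast
    ring
  rw [Finset.sum_congr rfl fun m _ => h6 m, Finset.sum_const, Finset.card_univ, Fintype.card_fin,
    nsmul_eq_mul]
  unfold jg
  have h7 : ∫ z, H z * pp (D.F δ τ) n z ∂lam3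
      = 2 * ∫ z, kDk (D.ddu δ τ) p z * (1 - (ch p z).re) * pp (D.F δ τ) n z ∂lam3 := by
    rw [← integral_const_mul]
    refine integral_congr_ae (Eventually.of_forall fun z => ?_)
    simp only [hH]
    ring
  rw [h7]
  push_cast
  ring

/-- One particle: `J = |k|² ch p`. -/
theorem Eg_J_sq_one {D : Dat} (hD : D.Ok) {δ τ : ℝ} (hδ : 0 ≤ δ) (hδ1 : δ ≤ 1) (hτ : 0 ≤ τ)
    (p : Fin 3 → ℤ) :
    Eg (D.F δ τ) 1 (fun x => ‖Jk (D.du δ τ) p x‖ ^ 2) = ksq p ^ 2 := by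
  have h1 : ∀ x : Fin 1 → T3, ‖Jk (D.du δ τ) p x‖ ^ 2 = ksq p ^ 2 := by
    intro x
    have : Jk (D.du δ τ) p x = (ksq p : ℂ) * ch p (x 0) := by
      unfold Jk
      rw [Fin.sum_univ_one]
      have h2 : (Finset.univ : Finset (Fin 1)).erase 0 = ∅ := by decide
      rw [h2, Finset.sum_empty, add_zero]
    rw [this, norm_mul, ch_norm, mul_one, Complex.norm_real, Real.norm_eq_abs, sq_abs]
  simp_rw [h1]
  refine Eg_const ?_ _
  have h2 : ∀ x : Fin 1 → T3, Wg (D.F δ τ) x = 1 := by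
    intro x
    unfold Wg pairW
    rw [Fin.prod_univ_one]
    have h3 : (Finset.univ : Finset (Fin 1)).filter (· < 0) = ∅ := by
      ext a; simp
    rw [h3, Finset.prod_empty]
  unfold Zg
  simp_rw [h2]
  simp

/-- Scores of different modes are orthogonal: shift all particles by `s` with `ch (q - p) s = -1` (`exists_ch_eq_neg_one`). -/
theorem EgC_J_orth {D : Dat} (hD : D.Ok) {δ τ : ℝ} (hδ : 0 < δ) (hδ1 : δ ≤ 1) (hτ : 0 ≤ τ) {n : ℕ}
    {p q : Fin 3 → ℤ} (hpq : p ≠ q) :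
    EgC (D.F δ τ) n (fun x => conj (Jk (D.du δ τ) p x) * Jk (D.du δ τ) q x) = 0 := by
  have hG := F_gas hD hδ.le hδ1 hτ
  obtain ⟨s, hs⟩ := exists_ch_eq_neg_one (p := q - p) (fun h => hpq (sub_eq_zero.1 h).symm)
  have hs' : conj (ch p s) * ch q s = -1 := by
    rw [← hs, sub_eq_add_neg, ch_add, ch_neg]; ring
  have hm := GK_cm_mul (GK_cm_conj (Jk_meas hD (τ := τ) hδ hδ1 n p))
    (Jk_meas hD (τ := τ) hδ hδ1 n q)
  have h1 := EgC_shift hG hm.1 hm.2 s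
  have h2 : ∀ x : Fin n → T3, conj (Jk (D.du δ τ) p (fun i => x i + s))
      * Jk (D.du δ τ) q (fun i => x i + s)
      = (-1) * (conj (Jk (D.du δ τ) p x) * Jk (D.du δ τ) q x) := by
    intro x
    rw [GL_J_shift, GL_J_shift, map_mul, ← hs']
    ring
  simp_rw [h2] at h1
  rw [EgC_const_mul, neg_one_mul] at h1
  exact neg_eq_self.1 h1

/-- Linear combinations. -/
theorem Eg_J_comb {D : Dat} (hD : D.Ok) {δ τ : ℝ} (hδ : 0 < δ) (hδ1 : δ ≤ 1) (hτ : 0 ≤ τ) {n : ℕ}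
    (P : Finset (Fin 3 → ℤ)) (c : (Fin 3 → ℤ) → ℝ) :
    Eg (D.F δ τ) n (fun x => ‖∑ p ∈ P, (c p : ℂ) * Jk (D.du δ τ) p x‖ ^ 2)
      = ∑ p ∈ P, c p ^ 2 * Eg (D.F δ τ) n (fun x => ‖Jk (D.du δ τ) p x‖ ^ 2) := by
  have hG := F_gas hD hδ.le hδ1 hτ
  have hm := fun p => Jk_meas hD (τ := τ) hδ hδ1 n p
  have hsq : ∀ z : ℂ, ((‖z‖ ^ 2 : ℝ) : ℂ) = conj z * z := fun z => by
    rw [mul_comm (conj _), Complex.mul_conj, Complex.normSq_eq_norm_sq]
  have h0 : ((Eg (D.F δ τ) n (fun x => ‖∑ p ∈ P, (c p : ℂ) * Jk (D.du δ τ) p x‖ ^ 2) : ℝ) : ℂ)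
      = ((∑ p ∈ P, c p ^ 2 * Eg (D.F δ τ) n (fun x => ‖Jk (D.du δ τ) p x‖ ^ 2) : ℝ) : ℂ) := by
    rw [← EgC_ofReal]
    simp_rw [hsq]
    have e1 : ∀ x : Fin n → T3, conj (∑ p ∈ P, (c p : ℂ) * Jk (D.du δ τ) p x)
        * (∑ p ∈ P, (c p : ℂ) * Jk (D.du δ τ) p x)
        = ∑ p ∈ P, ∑ q ∈ P, ((c p : ℂ) * (c q : ℂ))
          * (conj (Jk (D.du δ τ) p x) * Jk (D.du δ τ) q x) := by
      intro x
      rw [map_sum, Finset.sum_mul_sum]
      refine Finset.sum_congr rfl fun p _ => Finset.sum_congr rfl fun q _ => ?_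
      rw [map_mul, Complex.conj_ofReal]
      ring
    simp_rw [e1]
    have hpq : ∀ p q : Fin 3 → ℤ, Measurable (fun x : Fin n → T3 => ((c p : ℂ) * (c q : ℂ))
          * (conj (Jk (D.du δ τ) p x) * Jk (D.du δ τ) q x)) ∧ ∃ C, ∀ x : Fin n → T3,
          ‖((c p : ℂ) * (c q : ℂ)) * (conj (Jk (D.du δ τ) p x) * Jk (D.du δ τ) q x)‖ ≤ C :=
      fun p q => GK_cm_mul (GK_cm_const _) (GK_cm_mul (GK_cm_conj (hm p)) (hm q))
    rw [EgC_sum hG P (fun p _ => (GK_cm_sum P fun q _ => hpq p q).1)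
      (fun p _ => (GK_cm_sum P fun q _ => hpq p q).2)]
    push_cast
    refine Finset.sum_congr rfl fun p hp => ?_
    rw [EgC_sum hG P (fun q _ => (hpq p q).1) (fun q _ => (hpq p q).2)]
    rw [Finset.sum_eq_single p]
    · rw [EgC_const_mul]
      have e2 : (fun x : Fin n → T3 => conj (Jk (D.du δ τ) p x) * Jk (D.du δ τ) p x)
          = fun x => ((‖Jk (D.du δ τ) p x‖ ^ 2 : ℝ) : ℂ) := by
        ext x; exact (hsq _).symm
      rw [e2, EgC_ofReal]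
      ring
    · intro q _ hq
      rw [EgC_const_mul, EgC_J_orth hD hδ hδ1 hτ (fun h => hq h.symm), mul_zero]
    · intro h; exact absurd hp h
  exact_mod_cast h0

end Pool.Agent.Lib.MP_4952d6_mp

end

/-! ### U.GM1 -/

section

set_option autoImplicit false
set_option linter.unusedSectionVars false
set_option linter.unusedVariables false
open MeasureTheory Function Filter Topology Set ComplexConjugate

namespace Pool.Agent.Lib.MP_4952d6_mp


/-! # GM1: the curvature of the score (U4.2)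

`kDk ddu = τ kDk ddul + kDk dduc`. Main term: `∫ kDk ddul (1 - Re ch p) = |k|⁴ uh p` (the mean of a second derivative vanishes;
`∫ ∂_α∂_β ul · ch p = - k_α k_β ∫ ul ch p`, integrate by parts twice with `WD.fourier` / `WD.integral_eq_zero`, `∫ ul ch p = uh p`).
Error: `|pp - 1| ≤ κ + 2 ul + (1 - Fc)` and `Fr |dduc α β| ≤ Kc`, `pp ≤ 2 Fr`. -/

/-- `|pp - 1| ≤ κ + 2 ul + (1 - Fc)` if `|yy - 1| ≤ κ`, `τ ≤ 1` (`1 - e^{-x} ≤ x`). -/
theorem pp_sub_one {D : Dat} (hD : D.Ok) {δ τ κ : ℝ} (hδ : 0 ≤ δ) (hδ1 : δ ≤ 1) (hτ : 0 ≤ τ)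
    (hτ1 : τ ≤ 1) {n : ℕ} (hy : ∀ z, |yy (D.F δ τ) n z - 1| ≤ κ) (z : T3) :
    |pp (D.F δ τ) n z - 1| ≤ κ + 2 * D.ul z + (1 - D.Fc z) := by
  have hF := F_gas hD hδ hδ1 hτ
  have h0 := hF.nonneg z
  have h1 := hF.le_one z
  have hb := Fr_bounds hD hδ hδ1 z
  have hr := one_sub_Fr hD hδ hδ1 z
  have hul := hD.ul_nonneg z
  have hx : 0 ≤ 2 * τ * D.ul z := by positivity
  have hx2 : 2 * τ * D.ul z ≤ 2 * D.ul z := by nlinarith
  have he : 1 - 2 * τ * D.ul z ≤ Real.exp (-(2 * τ * D.ul z)) := by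
    have := Real.add_one_le_exp (-(2 * τ * D.ul z))
    linarith
  have he1 : Real.exp (-(2 * τ * D.ul z)) ≤ 1 := by
    rw [Real.exp_le_one_iff]
    linarith
  have hFr0 : 0 ≤ D.Fr δ z := hδ.trans hb.1
  have h2 : 1 - D.F δ τ z ≤ (1 - D.Fc z) + 2 * D.ul z := by
    have e : 1 - D.F δ τ z = (1 - D.Fr δ z) +
        D.Fr δ z * (1 - Real.exp (-(2 * τ * D.ul z))) := by
      unfold Dat.F
      ring
    rw [e]
    have h3 : D.Fr δ z * (1 - Real.exp (-(2 * τ * D.ul z))) ≤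
        1 * (1 - Real.exp (-(2 * τ * D.ul z))) :=
      mul_le_mul_of_nonneg_right hb.2 (by linarith)
    linarith [hr.2]
  have h4 : |D.F δ τ z * (yy (D.F δ τ) n z - 1)| ≤ κ := by
    rw [abs_mul, abs_of_nonneg h0]
    have h5 := hy z
    have h6 := abs_nonneg (yy (D.F δ τ) n z - 1)
    nlinarith
  have e2 : pp (D.F δ τ) n z - 1 = D.F δ τ z * (yy (D.F δ τ) n z - 1) - (1 - D.F δ τ z) := by
    unfold pp
    ring
  rw [e2]
  refine (abs_sub _ _).trans ?_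
  rw [abs_of_nonneg (sub_nonneg.2 h1)]
  linarith

/-- `Fr |dduc α β| ≤ Kc`: `(1-δ) |ddFc| ≤ Kc`, `(1-δ)² |dFc α dFc β| / Fr ≤ (1-δ)² Kc Fc / Fr ≤ Kc`. -/
theorem Fr_dduc_le {D : Dat} (hD : D.Ok) {δ : ℝ} (hδ : 0 < δ) (hδ1 : δ ≤ 1) (α β : Fin 3)
    (z : T3) : D.Fr δ z * |D.dduc δ α β z| ≤ D.Kc z := by
  have hb := Fr_bounds hD hδ.le hδ1 z
  have hFr : 0 < D.Fr δ z := lt_of_lt_of_le hδ hb.1
  have hK := hD.Kc_nonneg z
  have hdd := hD.Kc_dd α β z
  have hda := hD.Kc_d α z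
  have hdb := hD.Kc_d β z
  have hFc := hD.Fc_nonneg z
  have h1δ : 0 ≤ 1 - δ := by linarith
  have hprod : |D.dFc α z * D.dFc β z| ≤ D.Kc z * D.Fc z := by
    rw [abs_le]
    constructor
    · nlinarith [sq_nonneg (D.dFc α z + D.dFc β z)]
    · nlinarith [sq_nonneg (D.dFc α z - D.dFc β z)]
  have hFcFr : (1 - δ) * D.Fc z ≤ D.Fr δ z := by
    unfold Dat.Fr
    linarith
  have e1 : D.Fr δ z * |D.dduc δ α β z| = 1 / 2 * |(1 - δ) * D.ddFc α β z -
      (1 - δ) ^ 2 * (D.dFc α z * D.dFc β z) / D.Fr δ z| := by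
    have e2 : D.Fr δ z * |D.dduc δ α β z| = |D.Fr δ z * D.dduc δ α β z| := by
      rw [abs_mul, abs_of_pos hFr]
    rw [e2]
    have e3 : D.Fr δ z * D.dduc δ α β z = -(1 / 2) * ((1 - δ) * D.ddFc α β z -
        (1 - δ) ^ 2 * (D.dFc α z * D.dFc β z) / D.Fr δ z) := by
      unfold Dat.dduc
      field_simp
    rw [e3, abs_mul, abs_neg, abs_of_pos (show (0 : ℝ) < 1 / 2 by norm_num)]
  rw [e1]
  have h2 : |(1 - δ) * D.ddFc α β z| ≤ D.Kc z := by
    rw [abs_mul, abs_of_nonneg h1δ]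
    have := abs_nonneg (D.ddFc α β z)
    nlinarith
  have h3 : |(1 - δ) ^ 2 * (D.dFc α z * D.dFc β z) / D.Fr δ z| ≤ D.Kc z := by
    rw [abs_div, abs_mul, abs_of_pos hFr, abs_of_nonneg (show 0 ≤ (1 - δ) ^ 2 by positivity),
      div_le_iff₀ hFr]
    have h4 : (1 - δ) ^ 2 * |D.dFc α z * D.dFc β z| ≤ (1 - δ) ^ 2 * (D.Kc z * D.Fc z) :=
      mul_le_mul_of_nonneg_left hprod (by positivity)
    have h5 : (1 - δ) ^ 2 * (D.Kc z * D.Fc z) = ((1 - δ) * D.Kc z) * ((1 - δ) * D.Fc z) := by ring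
    have h6 : ((1 - δ) * D.Kc z) * ((1 - δ) * D.Fc z) ≤ D.Kc z * D.Fr δ z := by
      refine mul_le_mul ?_ hFcFr (mul_nonneg h1δ hFc) hK
      nlinarith
    linarith
  have h7 := abs_sub ((1 - δ) * D.ddFc α β z) ((1 - δ) ^ 2 * (D.dFc α z * D.dFc β z) / D.Fr δ z)
  linarith

private theorem GM1_ch_int {p : Fin 3 → ℤ} (hp : p ≠ 0) : ∫ z, ch p z ∂lam3 = 0 := by
  obtain ⟨s, hs⟩ := exists_ch_eq_neg_one hp
  have h1 : ∫ z, ch p (z + s) ∂lam3 = ∫ z, ch p z ∂lam3 := integral_add_right_eq_self _ s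
  simp_rw [ch_add_arg, hs] at h1
  rw [integral_mul_const] at h1
  have h2 : (2 : ℂ) * ∫ z, ch p z ∂lam3 = 0 := by linear_combination -h1
  exact (mul_eq_zero.1 h2).resolve_left two_ne_zero

private theorem GM1_orth (p r : Fin 3 → ℤ) :
    ∫ z, conj (ch p z) * ch r z ∂lam3 = if r = p then 1 else 0 := by
  have h1 : ∀ z, conj (ch p z) * ch r z = ch (r - p) z := by
    intro z
    rw [sub_eq_add_neg, ch_add, ch_neg, mul_comm]
  simp_rw [h1]
  split_ifs with h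
  · subst h
    simp [ch_zero]
  · exact GM1_ch_int (sub_ne_zero.2 h)

private theorem GM1_ul_fc {D : Dat} (hD : D.Ok) (p : Fin 3 → ℤ) :
    ∫ z, conj (ch p z) * (D.ul z : ℂ) ∂lam3 = (D.uh p : ℂ) := by
  have hs : ∀ z, HasSum (fun r => conj (ch p z) * ((D.uh r : ℂ) * ch r z))
      (conj (ch p z) * (D.ul z : ℂ)) := fun z => (hD.ul_hasSum z).mul_left _
  have hcm : ∀ r, Continuous fun z => conj (ch p z) * ((D.uh r : ℂ) * ch r z) := fun r =>
    (Complex.continuous_conj.comp (ch_continuous p)).mul (continuous_const.mul (ch_continuous r))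
  have hnorm : ∀ r z, ‖conj (ch p z) * ((D.uh r : ℂ) * ch r z)‖ = D.uh r := by
    intro r z
    rw [norm_mul, norm_mul, RCLike.norm_conj, ch_norm, ch_norm, one_mul, mul_one,
      Complex.norm_real, Real.norm_of_nonneg (hD.uh_nonneg r)]
  have hint : ∀ r, Integrable (fun z => conj (ch p z) * ((D.uh r : ℂ) * ch r z)) lam3 := fun r =>
    Integrable.of_bound (hcm r).aestronglyMeasurable (D.uh r)
      (Eventually.of_forall fun z => (hnorm r z).le)
  have hsum : Summable fun r => ∫ z, ‖conj (ch p z) * ((D.uh r : ℂ) * ch r z)‖ ∂lam3 := by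
    refine hD.uh_summable.congr fun r => ?_
    simp only [hnorm]
    simp
  have hmain := hasSum_integral_of_summable_integral_norm hint hsum
  have h1 : ∫ z, (∑' r, conj (ch p z) * ((D.uh r : ℂ) * ch r z)) ∂lam3 =
      ∫ z, conj (ch p z) * (D.ul z : ℂ) ∂lam3 :=
    integral_congr_ae (Eventually.of_forall fun z => (hs z).tsum_eq)
  rw [h1] at hmain
  have h2 : ∀ r, ∫ z, conj (ch p z) * ((D.uh r : ℂ) * ch r z) ∂lam3 =
      if r = p then (D.uh p : ℂ) else 0 := by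
    intro r
    have h3 : ∀ z, conj (ch p z) * ((D.uh r : ℂ) * ch r z) =
        (D.uh r : ℂ) * (conj (ch p z) * ch r z) := fun z => by ring
    simp_rw [h3]
    rw [integral_const_mul, GM1_orth]
    split_ifs with h
    · rw [h, mul_one]
    · rw [mul_zero]
  simp_rw [h2] at hmain
  exact hmain.unique (hasSum_ite_eq p (D.uh p : ℂ))

private theorem GM1_dd_fc {D : Dat} (hD : D.Ok) (p : Fin 3 → ℤ) (α β : Fin 3) :
    ∫ z, conj (ch p z) * (D.ddul α β z : ℂ) ∂lam3 =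
      ((-(kc p α * kc p β) * D.uh p : ℝ) : ℂ) := by
  have h1 := (hD.dul_WD α β).ofReal.fourier (ch_continuous p).stronglyMeasurable (ch_norm p)
    (p β : ℝ) (fun x t => ch_add_tau p β x t)
  have h2 := (hD.ul_WD α).ofReal.fourier (ch_continuous p).stronglyMeasurable (ch_norm p)
    (p α : ℝ) (fun x t => ch_add_tau p α x t)
  rw [h2, GM1_ul_fc hD] at h1
  rw [h1]
  unfold kc
  push_cast
  linear_combination (4 * (Real.pi : ℂ) ^ 2 * (p β : ℂ) * (p α : ℂ) * (D.uh p : ℂ)) * Complex.I_sq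

private theorem GM1_dd_re {D : Dat} (hD : D.Ok) (p : Fin 3 → ℤ) (α β : Fin 3) :
    ∫ z, D.ddul α β z * (ch p z).re ∂lam3 = -(kc p α * kc p β) * D.uh p := by
  have hbm := hD.ddul_bm α β
  obtain ⟨B, hB0, hB⟩ := hbm.exists_nonneg_bound
  have hint : Integrable (fun z => conj (ch p z) * (D.ddul α β z : ℂ)) lam3 := by
    refine Integrable.of_bound (C := B) ?_ (Eventually.of_forall fun z => ?_)
    · exact ((Complex.continuous_conj.comp (ch_continuous p)).measurable.mul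
        (Complex.measurable_ofReal.comp hbm.1)).aestronglyMeasurable
    · rw [norm_mul, RCLike.norm_conj, ch_norm, one_mul, Complex.norm_real]
      exact hB z
  have h1 := congrArg Complex.re (GM1_dd_fc hD p α β)
  rw [Complex.ofReal_re] at h1
  rw [← h1]
  have h2 : (∫ z, conj (ch p z) * (D.ddul α β z : ℂ) ∂lam3).re =
      ∫ z, (conj (ch p z) * (D.ddul α β z : ℂ)).re ∂lam3 :=
    (Complex.reCLM.integral_comp_comm hint).symm
  rw [h2]
  refine integral_congr_ae (Eventually.of_forall fun z => ?_)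
  show D.ddul α β z * (ch p z).re = (conj (ch p z) * (D.ddul α β z : ℂ)).re
  rw [Complex.re_mul_ofReal, Complex.conj_re, mul_comm]

private theorem GM1_re_bm (p : Fin 3 → ℤ) : BM (fun z : T3 => (ch p z).re) :=
  ⟨(Complex.continuous_re.comp (ch_continuous p)).measurable, 1, fun z => ch_re_le p z⟩

/-- Main term. -/
theorem kDk_ddul {D : Dat} (hD : D.Ok) (p : Fin 3 → ℤ) :
    ∫ z, kDk D.ddul p z * (1 - (ch p z).re) ∂lam3 = ksq p ^ 2 * D.uh p := by
  have hb : ∀ α β, BM (fun z => D.ddul α β z * (1 - (ch p z).re)) := fun α β =>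
    (hD.ddul_bm α β).mul ((BM.const 1).sub (GM1_re_bm p))
  have h1 : ∀ z, kDk D.ddul p z * (1 - (ch p z).re) =
      ∑ α, ∑ β, kc p α * kc p β * (D.ddul α β z * (1 - (ch p z).re)) := by
    intro z
    unfold kDk
    rw [Finset.sum_mul]
    refine Finset.sum_congr rfl fun α _ => ?_
    rw [Finset.sum_mul]
    exact Finset.sum_congr rfl fun β _ => by ring
  have h2 : ∀ α β, ∫ z, D.ddul α β z * (1 - (ch p z).re) ∂lam3 =
      kc p α * kc p β * D.uh p := by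
    intro α β
    have e : ∀ z, D.ddul α β z * (1 - (ch p z).re) =
        D.ddul α β z - D.ddul α β z * (ch p z).re := fun z => by ring
    simp_rw [e]
    rw [integral_sub ((hD.ddul_bm α β).integrable _)
      (((hD.ddul_bm α β).mul (GM1_re_bm p)).integrable _), (hD.dul_WD α β).integral_eq_zero,
      GM1_dd_re hD]
    ring
  simp_rw [h1]
  rw [integral_finsetSum _ fun α _ =>
    (BM.finset_sum _ fun β _ => (hb α β).const_mul (kc p α * kc p β)).integrable _]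
  have h3 : ∀ α, ∫ z, ∑ β, kc p α * kc p β * (D.ddul α β z * (1 - (ch p z).re)) ∂lam3 =
      kc p α ^ 2 * (ksq p * D.uh p) := by
    intro α
    rw [integral_finsetSum _ fun β _ => ((hb α β).const_mul (kc p α * kc p β)).integrable _]
    have h4 : ∀ β, ∫ z, kc p α * kc p β * (D.ddul α β z * (1 - (ch p z).re)) ∂lam3 =
        kc p α ^ 2 * (kc p β ^ 2 * D.uh p) := by
      intro β
      rw [integral_const_mul, h2]
      ring
    rw [Finset.sum_congr rfl fun β _ => h4 β, ← Finset.mul_sum, ← Finset.sum_mul, ← ksq_eq]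
  rw [Finset.sum_congr rfl fun α _ => h3 α, ← Finset.sum_mul, ← ksq_eq]
  ring

private theorem GM1_Fc_bm {D : Dat} (hD : D.Ok) : BM (fun z => 1 - D.Fc z) :=
  (BM.const 1).sub (BM.of_mem_Icc (hD.Fc_WD 0).sm.measurable fun x => ⟨hD.Fc_nonneg x, hD.Fc_le x⟩)

theorem Xi_bm {D : Dat} (hD : D.Ok) (κ : ℝ) (N : ℕ) : BM (D.Xi κ N) :=
  ((((BM.const κ).add ((ul_bm hD).const_mul 2)).add (GM1_Fc_bm hD)).mul
    (BM.finset_sum _ fun α _ => BM.finset_sum _ fun β _ => (hD.ddul_bm α β).abs)).add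
    (hD.Kc_bm.const_mul 18) |>.const_mul (2 * N)

theorem Xi_nonneg {D : Dat} (hD : D.Ok) {κ : ℝ} (hκ : 0 ≤ κ) (N : ℕ) (z : T3) :
    0 ≤ D.Xi κ N z := by
  have h1 := hD.ul_nonneg z
  have h2 := hD.Fc_le z
  have h3 := hD.Kc_nonneg z
  have h4 : 0 ≤ ∑ α, ∑ β, |D.ddul α β z| :=
    Finset.sum_nonneg fun _ _ => Finset.sum_nonneg fun _ _ => abs_nonneg _
  have h5 : 0 ≤ κ + 2 * D.ul z + (1 - D.Fc z) := by linarith
  unfold Dat.Xi
  positivity

theorem eb_nonneg {D : Dat} (hD : D.Ok) {κ : ℝ} (hκ : 0 ≤ κ) (N : ℕ) (p : Fin 3 → ℤ) :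
    0 ≤ D.eb κ N p := by
  have h1 : 0 ≤ ∫ z, (1 - (ch p z).re) * D.Xi κ N z ∂lam3 :=
    integral_nonneg fun z => mul_nonneg (one_sub_re_nonneg p z) (Xi_nonneg hD hκ N z)
  have h2 := hD.uh_nonneg p
  have h3 := ksq_nonneg p
  unfold Dat.eb
  positivity

end Pool.Agent.Lib.MP_4952d6_mp

end

/-! ### U.GM2 -/

section

set_option autoImplicit false
set_option linter.unusedSectionVars false
set_option linter.unusedVariables false
open MeasureTheory Function Filter Topology Set ComplexConjugate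

namespace Pool.Agent.Lib.MP_4952d6_mp


/-! # GM2: the curvature of the score (U4.2)

`kDk ddu = τ kDk ddul + kDk dduc`. Main term: `∫ kDk ddul (1 - Re ch p) = |k|⁴ uh p` (the mean of a second derivative vanishes;
`∫ ∂_α∂_β ul · ch p = - k_α k_β ∫ ul ch p`, integrate by parts twice with `WD.fourier` / `WD.integral_eq_zero`, `∫ ul ch p = uh p`).
Error: `|pp - 1| ≤ κ + 2 ul + (1 - Fc)` and `Fr |dduc α β| ≤ Kc`, `pp ≤ 2 Fr`. -/

theorem GM2_kDk_ddu (D : Dat) (δ τ : ℝ) (p : Fin 3 → ℤ) (z : T3) :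
    kDk (D.ddu δ τ) p z = τ * kDk D.ddul p z + kDk (D.dduc δ) p z := by
  unfold kDk Dat.ddu
  rw [Finset.mul_sum, ← Finset.sum_add_distrib]
  refine Finset.sum_congr rfl fun α _ => ?_
  rw [Finset.mul_sum, ← Finset.sum_add_distrib]
  refine Finset.sum_congr rfl fun β _ => ?_
  ring

theorem GM2_kDk_bm {ddu : Fin 3 → Fin 3 → T3 → ℝ} (h : ∀ α β, BM (ddu α β)) (p : Fin 3 → ℤ) :
    BM (kDk ddu p) := by
  unfold kDk
  exact BM.finset_sum _ fun α _ => BM.finset_sum _ fun β _ => (h α β).const_mul _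

theorem GM2_re_bm (p : Fin 3 → ℤ) : BM (fun z => 1 - (ch p z).re) :=
  BM.of_mem_Icc (a := 0) (b := 2)
    (measurable_const.sub (Complex.measurable_re.comp (ch_continuous p).measurable))
    fun z => ⟨one_sub_re_nonneg p z, one_sub_re_le p z⟩

/-- The pointwise estimate. -/
theorem GM2_point {D : Dat} (hD : D.Ok) {δ τ κ : ℝ} (hδ : 0 < δ) (hδ1 : δ ≤ 1) (hτ : 0 ≤ τ)
    (hτ1 : τ ≤ 1) {n : ℕ} (hκ1 : κ ≤ 1)
    (hy : ∀ z, |yy (D.F δ τ) n z - 1| ≤ κ) (p : Fin 3 → ℤ) (z : T3) :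
    kDk (D.ddu δ τ) p z * pp (D.F δ τ) n z ≤ τ * kDk D.ddul p z
      + ksq p * ((κ + 2 * D.ul z + (1 - D.Fc z)) * ∑ α, ∑ β, |D.ddul α β z| + 18 * D.Kc z) := by
  have h1 : |kDk D.ddul p z * (pp (D.F δ τ) n z - 1)| ≤
      (ksq p * ∑ α, ∑ β, |D.ddul α β z|) * (κ + 2 * D.ul z + (1 - D.Fc z)) := by
    rw [abs_mul]
    exact mul_le_mul (abs_kDk_le _ _ _) (pp_sub_one hD hδ.le hδ1 hτ hτ1 hy z) (abs_nonneg _)
      (mul_nonneg (ksq_nonneg p) (Finset.sum_nonneg fun α _ => Finset.sum_nonneg fun β _ =>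
        abs_nonneg _))
  have hFr := Fr_bounds hD hδ.le hδ1 z
  have hF0 : 0 ≤ D.F δ τ z := by
    unfold Dat.F
    exact mul_nonneg (hδ.le.trans hFr.1) (Real.exp_nonneg _)
  have hF1 : D.F δ τ z ≤ D.Fr δ z := by
    unfold Dat.F
    have h2 : Real.exp (-(2 * τ * D.ul z)) ≤ 1 := by
      rw [Real.exp_le_one_iff]
      have := mul_nonneg hτ (hD.ul_nonneg z)
      linarith
    calc _ ≤ D.Fr δ z * 1 := mul_le_mul_of_nonneg_left h2 (hδ.le.trans hFr.1)
      _ = _ := mul_one _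
  have hpp : |pp (D.F δ τ) n z| ≤ 2 * D.Fr δ z := by
    unfold pp
    rw [abs_mul, abs_of_nonneg hF0]
    have h3 : |yy (D.F δ τ) n z| ≤ 2 := by
      have h4 := abs_le.1 (hy z)
      rw [abs_le]
      constructor <;> linarith [h4.1, h4.2]
    calc D.F δ τ z * |yy (D.F δ τ) n z| ≤ D.Fr δ z * 2 :=
          mul_le_mul hF1 h3 (abs_nonneg _) (hδ.le.trans hFr.1)
      _ = _ := mul_comm _ _
  have h5 : |kDk (D.dduc δ) p z * pp (D.F δ τ) n z| ≤ ksq p * (18 * D.Kc z) := by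
    rw [abs_mul]
    have h6 : (∑ α, ∑ β, |D.dduc δ α β z|) * D.Fr δ z ≤ 9 * D.Kc z := by
      rw [Finset.sum_mul]
      have h7 : ∀ α : Fin 3, (∑ β, |D.dduc δ α β z|) * D.Fr δ z ≤ 3 * D.Kc z := by
        intro α
        rw [Finset.sum_mul]
        have h8 : ∀ β ∈ (Finset.univ : Finset (Fin 3)), |D.dduc δ α β z| * D.Fr δ z ≤ D.Kc z := by
          intro β _
          rw [mul_comm]
          exact Fr_dduc_le hD hδ hδ1 α β z
        refine (Finset.sum_le_sum h8).trans (le_of_eq ?_)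
        simp
      refine (Finset.sum_le_sum fun α _ => h7 α).trans (le_of_eq ?_)
      simp
      ring
    calc |kDk (D.dduc δ) p z| * |pp (D.F δ τ) n z|
        ≤ (ksq p * ∑ α, ∑ β, |D.dduc δ α β z|) * (2 * D.Fr δ z) :=
          mul_le_mul (abs_kDk_le _ _ _) hpp (abs_nonneg _)
            (mul_nonneg (ksq_nonneg p) (Finset.sum_nonneg fun α _ => Finset.sum_nonneg fun β _ =>
              abs_nonneg _))
      _ = ksq p * (2 * ((∑ α, ∑ β, |D.dduc δ α β z|) * D.Fr δ z)) := by ring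
      _ ≤ ksq p * (2 * (9 * D.Kc z)) :=
          mul_le_mul_of_nonneg_left (mul_le_mul_of_nonneg_left h6 zero_le_two) (ksq_nonneg p)
      _ = ksq p * (18 * D.Kc z) := by ring
  have h9 : τ * (kDk D.ddul p z * (pp (D.F δ τ) n z - 1)) ≤
      (ksq p * ∑ α, ∑ β, |D.ddul α β z|) * (κ + 2 * D.ul z + (1 - D.Fc z)) := by
    calc τ * (kDk D.ddul p z * (pp (D.F δ τ) n z - 1))
        ≤ τ * |kDk D.ddul p z * (pp (D.F δ τ) n z - 1)| :=
          mul_le_mul_of_nonneg_left (le_abs_self _) hτ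
      _ ≤ 1 * |kDk D.ddul p z * (pp (D.F δ τ) n z - 1)| :=
          mul_le_mul_of_nonneg_right hτ1 (abs_nonneg _)
      _ = |kDk D.ddul p z * (pp (D.F δ τ) n z - 1)| := one_mul _
      _ ≤ _ := h1
  rw [GM2_kDk_ddu]
  have h10 := (le_abs_self _).trans h5
  linarith

/-- `(U4.2)`: `j = |k|⁴ (1 + 2 τ (n+2) uh) + error`, `|error| ≤ |k|⁴ eb`. -/
theorem jg_le {D : Dat} (hD : D.Ok) {δ τ κ : ℝ} (hδ : 0 < δ) (hδ1 : δ ≤ 1) (hτ : 0 ≤ τ)
    (hτ1 : τ ≤ 1) {n N : ℕ} (hn : n + 2 ≤ N) (hκ : 0 ≤ κ) (hκ1 : κ ≤ 1)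
    (hy : ∀ z, |yy (D.F δ τ) n z - 1| ≤ κ) {p : Fin 3 → ℤ} (hp : p ≠ 0) :
    jg (D.F δ τ) (D.ddu δ τ) n p
      ≤ ksq p ^ 2 * (1 + 2 * τ * (n + 2) * D.uh p + D.eb κ N p) := by
  set B : T3 → ℝ := fun z =>
    (κ + 2 * D.ul z + (1 - D.Fc z)) * (∑ α, ∑ β, |D.ddul α β z|) + 18 * D.Kc z with hB
  have hN : (0 : ℝ) < N := by
    have : 0 < N := by omega
    exact_mod_cast this
  have hXi : ∀ z, D.Xi κ N z = 2 * N * B z := fun z => rfl
  have hBm : BM B := by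
    have h1 := (Xi_bm hD κ N).const_mul (2 * (N : ℝ))⁻¹
    have h2 : B = fun z => (2 * (N : ℝ))⁻¹ * D.Xi κ N z := by
      funext z
      rw [hXi]
      field_simp
    rw [h2]
    exact h1
  have hB0 : ∀ z, 0 ≤ B z := by
    intro z
    have h1 := Xi_nonneg hD hκ N z
    rw [hXi] at h1
    by_contra h2
    push Not at h2
    have : 2 * (N : ℝ) * B z < 0 := mul_neg_of_pos_of_neg (by positivity) h2
    linarith
  have hre := GM2_re_bm p
  have hppm : BM (pp (D.F δ τ) n) := pp_bm (F_gas hD hδ.le hδ1 hτ) n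
  have hk1 : BM (kDk (D.ddu δ τ) p) := GM2_kDk_bm (fun α β => ddu_bm hD hδ hδ1 α β) p
  have hk2 : BM (kDk D.ddul p) := GM2_kDk_bm hD.ddul_bm p
  have hprob : IsProbabilityMeasure lam3 := inferInstance
  have i1 : Integrable (fun z => kDk (D.ddu δ τ) p z * (1 - (ch p z).re) * pp (D.F δ τ) n z) lam3 :=
    ((hk1.mul hre).mul hppm).integrable _
  have i2 : Integrable (fun z => kDk D.ddul p z * (1 - (ch p z).re)) lam3 := (hk2.mul hre).integrable _
  have i3 : Integrable (fun z => (1 - (ch p z).re) * B z) lam3 := (hre.mul hBm).integrable _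
  have hint : ∫ z, kDk (D.ddu δ τ) p z * (1 - (ch p z).re) * pp (D.F δ τ) n z ∂lam3
      ≤ τ * (ksq p ^ 2 * D.uh p) + ksq p * ∫ z, (1 - (ch p z).re) * B z ∂lam3 := by
    rw [← kDk_ddul hD p, ← integral_const_mul, ← integral_const_mul,
      ← integral_add (i2.const_mul _) (i3.const_mul _)]
    refine integral_mono i1 ((i2.const_mul _).add (i3.const_mul _)) fun z => ?_
    have h1 := GM2_point hD hδ hδ1 hτ hτ1 hκ1 hy p z
    have h2 := mul_le_mul_of_nonneg_left h1 (one_sub_re_nonneg p z)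
    dsimp only
    calc kDk (D.ddu δ τ) p z * (1 - (ch p z).re) * pp (D.F δ τ) n z
        = (1 - (ch p z).re) * (kDk (D.ddu δ τ) p z * pp (D.F δ τ) n z) := by ring
      _ ≤ _ := h2
      _ = _ := by
          simp only [hB]
          ring
  have hI0 : 0 ≤ ∫ z, (1 - (ch p z).re) * B z ∂lam3 :=
    integral_nonneg fun z => mul_nonneg (one_sub_re_nonneg p z) (hB0 z)
  have heb : D.eb κ N p = (ksq p)⁻¹ * (2 * N * ∫ z, (1 - (ch p z).re) * B z ∂lam3) + 2 * D.uh p := by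
    have h1 : ∫ z, (1 - (ch p z).re) * D.Xi κ N z ∂lam3 = 2 * N * ∫ z, (1 - (ch p z).re) * B z ∂lam3 := by
      rw [← integral_const_mul]
      refine integral_congr_ae (Eventually.of_forall fun z => ?_)
      dsimp only
      rw [hXi]
      ring
    unfold Dat.eb
    rw [h1]
  have hk : 0 < ksq p := lt_of_lt_of_le one_pos (ksq_ge_one hp)
  set I : ℝ := ∫ z, (1 - (ch p z).re) * B z ∂lam3 with hI
  unfold jg
  have hn0 : (0 : ℝ) ≤ 2 * ((n : ℝ) + 1) := by positivity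
  have h1 := mul_le_mul_of_nonneg_left hint hn0
  rw [heb]
  have hnN : (n : ℝ) + 1 ≤ N := by
    have : ((n + 2 : ℕ) : ℝ) ≤ N := by exact_mod_cast hn
    push_cast at this
    linarith
  have h2 : 2 * ((n : ℝ) + 1) * (ksq p * I) ≤ 2 * N * (ksq p * I) :=
    mul_le_mul_of_nonneg_right (by linarith) (mul_nonneg hk.le hI0)
  have h3 : 0 ≤ τ * (ksq p ^ 2 * D.uh p) := mul_nonneg hτ (mul_nonneg (sq_nonneg _) (hD.uh_nonneg p))
  have h4 : 0 ≤ ksq p ^ 2 * D.uh p := mul_nonneg (sq_nonneg _) (hD.uh_nonneg p)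
  have h5 : ksq p ^ 2 * ((ksq p)⁻¹ * (2 * N * I)) = 2 * N * (ksq p * I) := by
    field_simp
  calc ksq p ^ 2 + 2 * ((n : ℝ) + 1) * ∫ z, kDk (D.ddu δ τ) p z * (1 - (ch p z).re) * pp (D.F δ τ) n z ∂lam3
      ≤ ksq p ^ 2 + 2 * ((n : ℝ) + 1) * (τ * (ksq p ^ 2 * D.uh p) + ksq p * I) := by linarith
    _ ≤ ksq p ^ 2 + 2 * τ * (n + 2) * (ksq p ^ 2 * D.uh p) + 2 * N * (ksq p * I)
        + 2 * (ksq p ^ 2 * D.uh p) := by nlinarith
    _ = ksq p ^ 2 + 2 * τ * (n + 2) * (ksq p ^ 2 * D.uh p) + ksq p ^ 2 * ((ksq p)⁻¹ * (2 * N * I))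
        + 2 * (ksq p ^ 2 * D.uh p) := by rw [h5]
    _ = ksq p ^ 2 * (1 + 2 * τ * (n + 2) * D.uh p + ((ksq p)⁻¹ * (2 * N * I) + 2 * D.uh p)) := by ring

end Pool.Agent.Lib.MP_4952d6_mp

end

/-! ### U.GM3 -/

section

set_option autoImplicit false
set_option linter.unusedSectionVars false
set_option linter.unusedVariables false
open MeasureTheory Function Filter Topology Set ComplexConjugate

namespace Pool.Agent.Lib.MP_4952d6_mp


/-! # GM3: the total error -/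

theorem GM3_Fc_bm {D : Dat} (hD : D.Ok) : BM D.Fc :=
  BM.of_mem_Icc (hD.Fc_WD 0).sm.measurable (a := 0) (b := 1) fun x => ⟨hD.Fc_nonneg x, hD.Fc_le x⟩

theorem GM3_ul_bm {D : Dat} (hD : D.Ok) : BM D.ul :=
  ⟨(hD.ul_WD 0).sm.measurable, (hD.ul_WD 0).bdd⟩

/-- The first moment of the majorant `Xi`. -/
theorem GM3_int_Xi_rr {K q a : ℝ} {N : ℕ} {D : Dat} (h : D.GD K q a N) :
    ∫ z, rr z * D.Xi (K * q ^ 78) N z ∂lam3
      ≤ 2 * N * (27 * K ^ 2 * q ^ 78 * (a ^ 2 / q ^ 200)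
          + 27 * K * q ^ 110 * (a ^ 2 / q ^ 200)) := by
  have hD := h.ok
  have hFc := GM3_Fc_bm hD
  have hul := GM3_ul_bm hD
  have hrr : BM (fun x : T3 => rr x) := JData.rr_bm'
  have hK0 : 0 ≤ K := zero_le_one.trans h.C1
  have hq0 := h.q0
  have hN0 : (0:ℝ) ≤ N := Nat.cast_nonneg N
  have hdd : ∀ α β, BM (fun z => |D.ddul α β z| * rr z) := fun α β =>
    (hD.ddul_bm α β).abs.mul hrr
  have h1F : BM (fun z => 1 - D.Fc z) := (BM.const 1).sub hFc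
  have hddc : ∀ α β, BM (fun z => (1 - D.Fc z) * (|D.ddul α β z| * rr z)) := fun α β =>
    h1F.mul (hdd α β)
  have hKc : BM (fun z => D.Kc z * rr z) := hD.Kc_bm.mul hrr
  have hterm : ∀ α β, BM (fun z => 3 * K * q ^ 78 * (|D.ddul α β z| * rr z)
      + (1 - D.Fc z) * (|D.ddul α β z| * rr z)) := fun α β =>
    ((hdd α β).const_mul _).add (hddc α β)
  have hsum1 : ∀ α, BM (fun z => ∑ β, (3 * K * q ^ 78 * (|D.ddul α β z| * rr z)
      + (1 - D.Fc z) * (|D.ddul α β z| * rr z))) := fun α =>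
    BM.finset_sum Finset.univ fun β _ => hterm α β
  have hsum2 : BM (fun z => ∑ α, ∑ β, (3 * K * q ^ 78 * (|D.ddul α β z| * rr z)
      + (1 - D.Fc z) * (|D.ddul α β z| * rr z))) :=
    BM.finset_sum Finset.univ fun α _ => hsum1 α
  have h18 : BM (fun z => 18 * (D.Kc z * rr z)) := hKc.const_mul 18
  have hin : BM (fun z => (∑ α, ∑ β, (3 * K * q ^ 78 * (|D.ddul α β z| * rr z)
      + (1 - D.Fc z) * (|D.ddul α β z| * rr z))) + 18 * (D.Kc z * rr z)) := hsum2.add h18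
  have hGbm := hin.const_mul (2 * N)
  have hle : ∀ z, rr z * D.Xi (K * q ^ 78) N z
      ≤ 2 * N * ((∑ α, ∑ β, (3 * K * q ^ 78 * (|D.ddul α β z| * rr z)
      + (1 - D.Fc z) * (|D.ddul α β z| * rr z))) + 18 * (D.Kc z * rr z)) := by
    intro z
    have e1 : rr z * D.Xi (K * q ^ 78) N z
        = 2 * N * ((K * q ^ 78 + 2 * D.ul z + (1 - D.Fc z))
          * ((∑ α, ∑ β, |D.ddul α β z|) * rr z) + 18 * (D.Kc z * rr z)) := by
      unfold Dat.Xi
      ring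
    have e2 : ∑ α, ∑ β, (3 * K * q ^ 78 * (|D.ddul α β z| * rr z)
        + (1 - D.Fc z) * (|D.ddul α β z| * rr z))
        = (3 * K * q ^ 78 + (1 - D.Fc z)) * ((∑ α, ∑ β, |D.ddul α β z|) * rr z) := by
      rw [Finset.sum_mul, Finset.mul_sum]
      refine Finset.sum_congr rfl fun α _ => ?_
      rw [Finset.sum_mul, Finset.mul_sum]
      refine Finset.sum_congr rfl fun β _ => ?_
      ring
    rw [e1, e2]
    have e3 : 0 ≤ (∑ α, ∑ β, |D.ddul α β z|) * rr z :=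
      mul_nonneg (Finset.sum_nonneg fun α _ => Finset.sum_nonneg fun β _ => abs_nonneg _)
        (rr_nonneg z)
    have e4 := h.ul_le z
    refine mul_le_mul_of_nonneg_left ?_ (by positivity)
    have e5 : K * q ^ 78 + 2 * D.ul z + (1 - D.Fc z) ≤ 3 * K * q ^ 78 + (1 - D.Fc z) := by
      linarith
    have e6 := mul_le_mul_of_nonneg_right e5 e3
    linarith
  have hXi : BM (fun z => rr z * D.Xi (K * q ^ 78) N z) := hrr.mul (Xi_bm hD _ N)
  have hmono := integral_mono (hXi.integrable lam3) (hGbm.integrable lam3) hle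
  refine hmono.trans ?_
  have i1 : ∫ z, 2 * (N:ℝ) * ((∑ α, ∑ β, (3 * K * q ^ 78 * (|D.ddul α β z| * rr z)
      + (1 - D.Fc z) * (|D.ddul α β z| * rr z))) + 18 * (D.Kc z * rr z)) ∂lam3
      = 2 * N * ((∑ α, ∑ β, (3 * K * q ^ 78 * (∫ z, |D.ddul α β z| * rr z ∂lam3)
        + ∫ z, (1 - D.Fc z) * (|D.ddul α β z| * rr z) ∂lam3))
        + 18 * ∫ z, D.Kc z * rr z ∂lam3) := by
    rw [integral_const_mul, integral_add (hsum2.integrable lam3) (h18.integrable lam3),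
      integral_const_mul, integral_finsetSum _ fun α _ => (hsum1 α).integrable lam3]
    congr 2
    refine Finset.sum_congr rfl fun α _ => ?_
    rw [integral_finsetSum _ fun β _ => (hterm α β).integrable lam3]
    refine Finset.sum_congr rfl fun β _ => ?_
    rw [integral_add (((hdd α β).const_mul _).integrable lam3) ((hddc α β).integrable lam3),
      integral_const_mul]
  rw [i1]
  refine mul_le_mul_of_nonneg_left ?_ (by positivity)
  have j1 : ∑ α : Fin 3, ∑ β : Fin 3, (3 * K * q ^ 78 * (∫ z, |D.ddul α β z| * rr z ∂lam3)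
        + ∫ z, (1 - D.Fc z) * (|D.ddul α β z| * rr z) ∂lam3)
      ≤ ∑ _α : Fin 3, ∑ _β : Fin 3, (3 * K * q ^ 78 * (K * a ^ 2 / q ^ 200)
        + K * a ^ 2 * q ^ 110 / q ^ 200) := by
    refine Finset.sum_le_sum fun α _ => Finset.sum_le_sum fun β _ => ?_
    exact add_le_add (mul_le_mul_of_nonneg_left (h.dd α β) (by positivity)) (h.ddc α β)
  have j2 := h.Kint
  have j3 : ∑ _α : Fin 3, ∑ _β : Fin 3, (3 * K * q ^ 78 * (K * a ^ 2 / q ^ 200)
        + K * a ^ 2 * q ^ 110 / q ^ 200)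
      = 9 * (3 * K * q ^ 78 * (K * a ^ 2 / q ^ 200) + K * a ^ 2 * q ^ 110 / q ^ 200) := by
    simp only [Finset.sum_const, Finset.card_univ, Fintype.card_fin, nsmul_eq_mul]
    push_cast
    ring
  rw [j3] at j1
  have j4 : 9 * (3 * K * q ^ 78 * (K * a ^ 2 / q ^ 200) + K * a ^ 2 * q ^ 110 / q ^ 200)
      + 18 * (K * a ^ 2 * q ^ 110 / q ^ 200)
      = 27 * K ^ 2 * q ^ 78 * (a ^ 2 / q ^ 200) + 27 * K * q ^ 110 * (a ^ 2 / q ^ 200) := by
    ring
  linarith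

/-- The total error `E* ≤ 120 K⁴ q^278`: for finite sets of momenta `∑ uh p (|k|²)⁻¹ ∫ (1 - Re ch) Xi = ∫ (∑ ...) Xi ≤ ∫ K a rr Xi`
(`uh_cos`), then `dd`, `ddc`, `Kint`, `ul_le`, `N a³ = q^400`; `2 ∑ uh² ≤ 2 K q^200 / N`, `1/N ≤ q^400`. -/
theorem eb_sum {K q a : ℝ} {N : ℕ} {D : Dat} (h : GasOK K q a N D) :
    sm0 (fun p => D.uh p * D.eb (K * q ^ 78) N p) ∧
      tsum0 (fun p => D.uh p * D.eb (K * q ^ 78) N p) ≤ 120 * K ^ 4 * q ^ 278 := by
  have g := h.gd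
  have hD := g.ok
  have hK1 := g.C1
  have hK0 : 0 ≤ K := zero_le_one.trans hK1
  have hq0 := g.q0
  have hκ : 0 ≤ K * q ^ 78 := by positivity
  have hN4 := g.Nq
  have hN0 : (0:ℝ) < N := by
    by_contra hc
    have : (N:ℝ) = 0 := le_antisymm (not_lt.1 hc) (Nat.cast_nonneg N)
    rw [this] at hN4
    norm_num at hN4
  have ha0 := g.a0
  have hXb := Xi_bm hD (K * q ^ 78) N
  have hX0 := Xi_nonneg hD hκ N
  have hrr : BM (fun x : T3 => rr x) := JData.rr_bm'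
  have hcb : ∀ p, BM (fun z : T3 => 1 - (ch p z).re) := fun p =>
    BM.of_mem_Icc (measurable_const.sub (Complex.measurable_re.comp
      (ch_continuous p).measurable)) (a := 0) (b := 2)
      fun z => ⟨one_sub_re_nonneg p z, one_sub_re_le p z⟩
  refine tsum0_le_of_sum_le (fun p _ => mul_nonneg (hD.uh_nonneg p) (eb_nonneg hD hκ N p))
    fun s hs => ?_
  have e1 : ∑ p ∈ s, D.uh p * D.eb (K * q ^ 78) N p
      = ∫ z, (∑ p ∈ s, D.uh p / ksq p * (1 - (ch p z).re)) * D.Xi (K * q ^ 78) N z ∂lam3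
        + 2 * ∑ p ∈ s, D.uh p ^ 2 := by
    have e11 : ∀ z, (∑ p ∈ s, D.uh p / ksq p * (1 - (ch p z).re)) * D.Xi (K * q ^ 78) N z
        = ∑ p ∈ s, D.uh p / ksq p * ((1 - (ch p z).re) * D.Xi (K * q ^ 78) N z) := by
      intro z
      rw [Finset.sum_mul]
      exact Finset.sum_congr rfl fun p _ => by ring
    simp only [e11]
    have hb : ∀ p ∈ s, Integrable (fun z => D.uh p / ksq p
        * ((1 - (ch p z).re) * D.Xi (K * q ^ 78) N z)) lam3 := fun p _ =>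
      (((hcb p).mul hXb).const_mul _).integrable lam3
    rw [integral_finsetSum _ hb, Finset.mul_sum, ← Finset.sum_add_distrib]
    refine Finset.sum_congr rfl fun p _ => ?_
    rw [integral_const_mul]
    unfold Dat.eb
    ring
  have e2 : ∀ z, ∑ p ∈ s, D.uh p / ksq p * (1 - (ch p z).re) ≤ K * a * rr z := by
    intro z
    refine le_trans ?_ (g.uh_cos z)
    have hsm : Summable (fun p => D.uh p / ksq p * (1 - (ch p z).re)) := by
      refine Summable.of_nonneg_of_le (fun p => mul_nonneg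
        (div_nonneg (hD.uh_nonneg p) (ksq_nonneg p)) (one_sub_re_nonneg p z)) (fun p => ?_)
        (hD.uh_summable.mul_right 2)
      by_cases hp : p = 0
      · subst hp
        rw [ksq_zero, div_zero, zero_mul]
        exact mul_nonneg (hD.uh_nonneg 0) two_pos.le
      · exact mul_le_mul (div_le_self (hD.uh_nonneg p) (ksq_ge_one hp)) (one_sub_re_le p z)
          (one_sub_re_nonneg p z) (hD.uh_nonneg p)
    exact hsm.sum_le_tsum s fun p _ => mul_nonneg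
        (div_nonneg (hD.uh_nonneg p) (ksq_nonneg p)) (one_sub_re_nonneg p z)
  have hsqsm : Summable (fun p => D.uh p ^ 2) := by
    refine Summable.of_nonneg_of_le (fun p => sq_nonneg _) (fun p => ?_)
      (hD.uh_summable.mul_left (D.uh 0))
    rw [sq]
    exact mul_le_mul_of_nonneg_right (g.uh_le p) (hD.uh_nonneg p)
  have e3 : ∑ p ∈ s, D.uh p ^ 2 ≤ K * q ^ 200 / N := by
    rw [le_div_iff₀ hN0]
    have h1 := hsqsm.sum_le_tsum s fun p _ => sq_nonneg (D.uh p)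
    have h2 := g.uh_sq
    have h3 := mul_le_mul_of_nonneg_left h1 hN0.le
    linarith
  have e4 : ∫ z, (∑ p ∈ s, D.uh p / ksq p * (1 - (ch p z).re)) * D.Xi (K * q ^ 78) N z ∂lam3
      ≤ K * a * ∫ z, rr z * D.Xi (K * q ^ 78) N z ∂lam3 := by
    rw [← integral_const_mul]
    have hb1 : BM (fun z => (∑ p ∈ s, D.uh p / ksq p * (1 - (ch p z).re))
        * D.Xi (K * q ^ 78) N z) :=
      (BM.finset_sum s fun p _ => (hcb p).const_mul (D.uh p / ksq p)).mul hXb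
    have hb2 : BM (fun z => K * a * (rr z * D.Xi (K * q ^ 78) N z)) :=
      (hrr.mul hXb).const_mul _
    refine integral_mono (hb1.integrable lam3) (hb2.integrable lam3) fun z => ?_
    have := mul_le_mul_of_nonneg_right (e2 z) (hX0 z)
    calc _ ≤ K * a * rr z * D.Xi (K * q ^ 78) N z := this
      _ = K * a * (rr z * D.Xi (K * q ^ 78) N z) := by ring
  have e5 := GM3_int_Xi_rr g
  have e6 := mul_le_mul_of_nonneg_left e5 (by positivity : 0 ≤ K * a)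
  have e7 : K * a * (2 * N * (27 * K ^ 2 * q ^ 78 * (a ^ 2 / q ^ 200)
      + 27 * K * q ^ 110 * (a ^ 2 / q ^ 200)))
      = 54 * K ^ 3 * q ^ 278 + 54 * K ^ 2 * q ^ 310 := by
    have : K * a * (2 * N * (27 * K ^ 2 * q ^ 78 * (a ^ 2 / q ^ 200)
      + 27 * K * q ^ 110 * (a ^ 2 / q ^ 200)))
      = (N * a ^ 3) / q ^ 200 * (54 * K ^ 3 * q ^ 78 + 54 * K ^ 2 * q ^ 110) := by ring
    rw [this, g.hN]
    have hq : q ^ 400 / q ^ 200 = q ^ 200 := by
      rw [div_eq_iff (by positivity)]; ring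
    rw [hq]
    ring
  have hq1 : q ≤ 1 := g.q1.trans (by norm_num)
  have e8 : K * q ^ 200 / N ≤ K ^ 4 * q ^ 278 := by
    rw [div_le_iff₀ hN0]
    have h1 : q ^ 400 ≤ q ^ 78 := pow_le_pow_of_le_one hq0.le hq1 (by norm_num)
    have h2 : 1 ≤ N * q ^ 78 := by
      have := mul_le_mul_of_nonneg_left h1 hN0.le
      linarith
    have h3 : K ≤ K ^ 4 := le_self_pow₀ hK1 (by norm_num)
    have h4 : 0 ≤ K ^ 4 * q ^ 200 := by positivity
    calc K * q ^ 200 ≤ K ^ 4 * q ^ 200 * 1 := by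
          rw [mul_one]; exact mul_le_mul_of_nonneg_right h3 (by positivity)
      _ ≤ K ^ 4 * q ^ 200 * (N * q ^ 78) := mul_le_mul_of_nonneg_left h2 h4
      _ = K ^ 4 * q ^ 278 * N := by ring
  have e9 : 54 * K ^ 3 * q ^ 278 ≤ 54 * (K ^ 4 * q ^ 278) := by
    have h3 : K ^ 3 ≤ K ^ 4 := pow_le_pow_right₀ hK1 (by norm_num)
    have := mul_le_mul_of_nonneg_right h3 (by positivity : 0 ≤ q ^ 278)
    linarith
  have e10 : 54 * K ^ 2 * q ^ 310 ≤ 54 * (K ^ 4 * q ^ 278) := by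
    have h3 : K ^ 2 ≤ K ^ 4 := pow_le_pow_right₀ hK1 (by norm_num)
    have h4 : q ^ 310 ≤ q ^ 278 := pow_le_pow_of_le_one hq0.le hq1 (by norm_num)
    have := mul_le_mul h3 h4 (by positivity) (by positivity)
    linarith
  have e11 : 0 ≤ K ^ 4 * q ^ 278 := by positivity
  rw [e1]
  linarith

end Pool.Agent.Lib.MP_4952d6_mp

end

/-! ### U.GN -/

section

set_option autoImplicit false
set_option linter.unusedSectionVars false
set_option linter.unusedVariables false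
open MeasureTheory Function Filter Topology Set ComplexConjugate

namespace Pool.Agent.Lib.MP_4952d6_mp


/-! # GN: lower bound for the structure factor (U4.3) -/

/-- Second moment of the score for all `1 ≤ n ≤ N` (`n = 1`: `Eg_J_sq_one`; `n ≥ 2`: `Eg_J_sq`, `jg_le`). -/
theorem Eg_J_sq_le {K q a : ℝ} {N : ℕ} {D : Dat} (h : GasOK K q a N D) {δ τ : ℝ} (hδ : 0 < δ)
    (hδ1 : δ ≤ 1) (hτ : 0 ≤ τ) (hτ1 : τ ≤ 1) {n : ℕ} (hn1 : 1 ≤ n) (hn : n ≤ N)
    {p : Fin 3 → ℤ} (hp : p ≠ 0) :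
    Eg (D.F δ τ) n (fun x => ‖Jk (D.du δ τ) p x‖ ^ 2)
      ≤ n * (ksq p ^ 2 * (1 + 2 * τ * n * D.uh p + D.eb (K * q ^ 78) N p)) := by
  have g := h.gd
  have hD := g.ok
  have hK1 := g.C1
  have hq0 := g.q0
  have hq1 : q ≤ 1 := g.q1.trans (by norm_num)
  have hK0 : 0 ≤ K := zero_le_one.trans hK1
  have hκ : 0 ≤ K * q ^ 78 := by positivity
  have hκ1 : K * q ^ 78 ≤ 1 := by
    have h1 : K ≤ K ^ 20 := le_self_pow₀ hK1 (by norm_num)
    have h2 : q ^ 78 ≤ q := pow_le_of_le_one hq0.le hq1 (by norm_num)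
    have h3 := mul_le_mul h1 h2 (by positivity) (by positivity)
    have h4 := h.small
    linarith
  have he := eb_nonneg hD hκ N p
  have hu := hD.uh_nonneg p
  rcases Nat.lt_or_ge n 2 with hn2 | hn2
  · obtain rfl : n = 1 := by omega
    rw [Eg_J_sq_one hD hδ.le hδ1 hτ p]
    have hk : 0 ≤ ksq p ^ 2 := sq_nonneg _
    have h1 : 0 ≤ 2 * τ * ((1:ℕ):ℝ) * D.uh p + D.eb (K * q ^ 78) N p := by positivity
    have h2 := mul_nonneg hk h1
    have h3 : ((1:ℕ):ℝ) * (ksq p ^ 2 * (1 + 2 * τ * ((1:ℕ):ℝ) * D.uh p + D.eb (K * q ^ 78) N p))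
        = ksq p ^ 2 + ksq p ^ 2 * (2 * τ * ((1:ℕ):ℝ) * D.uh p + D.eb (K * q ^ 78) N p) := by
      push_cast; ring
    rw [h3]
    linarith
  · obtain ⟨m, rfl⟩ : ∃ m, n = m + 2 := ⟨n - 2, by omega⟩
    have hZ := h.Zpos δ τ hδ.le hδ1 hτ hτ1 (m + 2) (by omega)
    rw [Eg_J_sq hD hδ hδ1 hτ hZ p]
    have hy := h.yy1 δ τ hδ.le hδ1 hτ hτ1 m hn
    have hj := jg_le hD hδ hδ1 hτ hτ1 hn hκ hκ1 hy hp
    have e : ((m + 2 : ℕ) : ℝ) = (m:ℝ) + 2 := by push_cast; ring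
    rw [e]
    exact mul_le_mul_of_nonneg_left hj (by positivity)

/-- Cramer-Rao for `δ > 0`: `(n |k|²)² = |E[conj ρ J]|² ≤ E|ρ|² E|J|²` (`EgC_rho_J`, `EgC_cs`, `n_mul_Sg`), hence
`S ≥ 1/(1 + 2τn uh + e) ≥ 1/(1 + 2τn uh) - e`. -/
theorem Sg_lower_pos {K q a : ℝ} {N : ℕ} {D : Dat} (h : GasOK K q a N D) {δ τ : ℝ} (hδ : 0 < δ)
    (hδ1 : δ ≤ 1) (hτ : 0 ≤ τ) (hτ1 : τ ≤ 1) {n : ℕ} (hn1 : 1 ≤ n) (hn : n ≤ N)
    {p : Fin 3 → ℤ} (hp : p ≠ 0) :
    D.Ss τ n p - D.eb (K * q ^ 78) N p ≤ Sg (D.F δ τ) n p := by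
  have g := h.gd
  have hD := g.ok
  have hq0 := g.q0
  have hK0 : 0 ≤ K := zero_le_one.trans g.C1
  have hκ : 0 ≤ K * q ^ 78 := by positivity
  have he := eb_nonneg hD hκ N p
  have hu := hD.uh_nonneg p
  have hF := F_gas hD hδ.le hδ1 hτ
  have hZ := h.Zpos δ τ hδ.le hδ1 hτ hτ1 n (by omega)
  have hn0 : (0:ℝ) < n := by exact_mod_cast hn1
  have hk : 0 < ksq p := lt_of_lt_of_le one_pos (ksq_ge_one hp)
  have hJ := Eg_J_sq_le h hδ hδ1 hτ hτ1 hn1 hn hp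
  obtain ⟨hJm, hJb⟩ := Jk_meas hD (τ := τ) hδ hδ1 n p
  obtain ⟨hRm, C, hC⟩ := rhoN_meas p n
  have hcm : Measurable (fun x : Fin n → T3 => conj (rhoN p x)) :=
    Complex.continuous_conj.measurable.comp hRm
  have hcb : ∃ C, ∀ x : Fin n → T3, ‖conj (rhoN p x)‖ ≤ C :=
    ⟨C, fun x => by rw [RCLike.norm_conj]; exact hC x⟩
  have hcs := EgC_cs hF hcm hcb hJm hJb
  rw [EgC_rho_J hD hδ hδ1 hτ hZ.ne' p] at hcs
  have e1 : Eg (D.F δ τ) n (fun x => ‖conj (rhoN p x)‖ ^ 2) = n * Sg (D.F δ τ) n p := by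
    rw [n_mul_Sg hF n p]
    simp only [RCLike.norm_conj]
  rw [e1, Complex.norm_real, Real.norm_eq_abs, sq_abs] at hcs
  have hS0 := Sg_nonneg hF n p
  set S := Sg (D.F δ τ) n p with hS
  set e := D.eb (K * q ^ 78) N p with hedef
  have hA : 1 ≤ 1 + 2 * τ * n * D.uh p := by
    have : 0 ≤ 2 * τ * n * D.uh p := by positivity
    linarith
  unfold Dat.Ss
  set A := 1 + 2 * τ * n * D.uh p with hAdef
  have hb : (n * ksq p) ^ 2 ≤ (n * S) * (n * (ksq p ^ 2 * (A + e))) :=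
    hcs.trans (mul_le_mul_of_nonneg_left hJ (by positivity))
  have hb1 : 1 ≤ S * (A + e) := by
    have h1 : (n * ksq p) ^ 2 * 1 ≤ (n * ksq p) ^ 2 * (S * (A + e)) := by
      rw [mul_one]
      refine hb.trans (le_of_eq ?_)
      ring
    exact le_of_mul_le_mul_left h1 (by positivity)
  have hA0 : 0 < A := lt_of_lt_of_le one_pos hA
  have h2 : 1 / A - e ≤ 1 / (A + e) := by
    rw [sub_le_iff_le_add, div_le_iff₀ hA0]
    have h3 : (1 / (A + e) + e) * A = A / (A + e) + e * A := by ring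
    rw [h3]
    have h4 : e / (A + e) ≤ e * A := by
      rw [div_le_iff₀ (by positivity)]
      have h5 : 1 ≤ A * (A + e) := by nlinarith
      calc e = e * 1 := (mul_one e).symm
        _ ≤ e * (A * (A + e)) := mul_le_mul_of_nonneg_left h5 he
        _ = e * A * (A + e) := by ring
    have h6 : A / (A + e) + e / (A + e) = 1 := by
      rw [← add_div, div_self (by positivity)]
    linarith
  refine h2.trans ?_
  rw [div_le_iff₀ (by positivity)]
  exact hb1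

/-- `(U4.3)` for `δ = 0`, by `Eg_delta_tendsto`. -/
theorem Sg_lower {K q a : ℝ} {N : ℕ} {D : Dat} (h : GasOK K q a N D) {τ : ℝ} (hτ : 0 ≤ τ)
    (hτ1 : τ ≤ 1) {n : ℕ} (hn1 : 1 ≤ n) (hn : n ≤ N) {p : Fin 3 → ℤ} (hp : p ≠ 0) :
    D.Ss τ n p - D.eb (K * q ^ 78) N p ≤ Sg (D.F 0 τ) n p := by
  have hD := h.gd.ok
  have hZ := h.Zpos 0 τ le_rfl zero_le_one hτ hτ1 n (by omega)
  have hT := (Eg_delta_tendsto hD hτ hZ (rhoN_sq_bm p n)).div_const (n : ℝ)
  refine ge_of_tendsto hT ?_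
  filter_upwards [Ioo_mem_nhdsGT (zero_lt_one : (0:ℝ) < 1)] with δ hδ
  exact Sg_lower_pos h hδ.1 hδ.2.le hτ hτ1 hn1 hn hp

end Pool.Agent.Lib.MP_4952d6_mp

end

/-! ### U.GR -/

section

set_option autoImplicit false
set_option linter.unusedSectionVars false
set_option linter.unusedVariables false
open MeasureTheory Function Filter Topology Set

namespace Pool.Agent.Lib.MP_4952d6_mp

/-! # GR: the function `gf x = x - ln (1 + x)` on `x ≥ 0` (`gf' = x/(1+x)`, increasing, `≤ 1` Lipschitz) -/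

noncomputable def gf (x : ℝ) : ℝ := x - Real.log (1 + x)

theorem gf_zero : gf 0 = 0 := by
  unfold gf
  simp

theorem gf_nonneg {x : ℝ} (hx : 0 ≤ x) : 0 ≤ gf x := by
  unfold gf
  have h := Real.log_le_sub_one_of_pos (show (0:ℝ) < 1 + x by linarith)
  linarith

theorem GR_hasDerivAt {x : ℝ} (hx : 0 ≤ x) : HasDerivAt gf (x / (1 + x)) x := by
  have h0 : (1:ℝ) + x ≠ 0 := by linarith
  have h1 : HasDerivAt (fun x : ℝ => 1 + x) 1 x := by
    simpa using (hasDerivAt_id x).const_add 1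
  have h2 := (hasDerivAt_id x).sub (h1.log h0)
  refine h2.congr_deriv ?_
  rw [eq_div_iff h0, sub_mul, div_mul_cancel₀ _ h0]
  ring

/-- `-ln (1 - w) ≤ w + w² / (2 (1 - w))`. -/
theorem GR_log_aux {w : ℝ} (h0 : 0 ≤ w) (h1 : w < 1) :
    -Real.log (1 - w) ≤ w + w ^ 2 / (2 * (1 - w)) := by
  have hd : ∀ y : ℝ, 0 ≤ y → y < 1 →
      HasDerivAt (fun w : ℝ => w + w ^ 2 / (2 * (1 - w)) + Real.log (1 - w))
        (y ^ 2 / (2 * (1 - y) ^ 2)) y := by
    intro y hy0 hy1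
    have hne : (1:ℝ) - y ≠ 0 := by linarith
    have hne2 : (2:ℝ) * (1 - y) ≠ 0 := mul_ne_zero two_ne_zero hne
    have e1 : HasDerivAt (fun w : ℝ => 1 - w) (-1) y := by
      simpa using (hasDerivAt_id y).const_sub 1
    have e2 : HasDerivAt (fun w : ℝ => 2 * (1 - w)) (2 * (-1)) y := e1.const_mul 2
    have e3 : HasDerivAt (fun w : ℝ => w ^ 2) ((2:ℕ) * y ^ (2 - 1)) y := hasDerivAt_pow 2 y
    have e4 := ((hasDerivAt_id y).add (e3.div e2 hne2)).add (e1.log hne)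
    refine e4.congr_deriv ?_
    have hne3 : (1:ℝ) - y ≠ 0 := hne
    field_simp
    ring
  have hmono : MonotoneOn (fun w : ℝ => w + w ^ 2 / (2 * (1 - w)) + Real.log (1 - w)) (Ico 0 1) := by
    refine monotoneOn_of_deriv_nonneg (convex_Ico 0 1) ?_ ?_ ?_
    · intro y hy
      exact (hd y hy.1 hy.2).continuousAt.continuousWithinAt
    · intro y hy
      rw [interior_Ico] at hy
      exact (hd y hy.1.le hy.2).differentiableAt.differentiableWithinAt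
    · intro y hy
      rw [interior_Ico] at hy
      rw [(hd y hy.1.le hy.2).deriv]
      positivity
  have h := hmono (left_mem_Ico.2 zero_lt_one) ⟨h0, h1⟩ h0
  simp only at h
  norm_num at h
  linarith

/-- `gf x ≤ x²/2`. -/
theorem gf_le {x : ℝ} (hx : 0 ≤ x) : gf x ≤ x ^ 2 / 2 := by
  have hd : ∀ y : ℝ, 0 ≤ y → HasDerivAt (fun x : ℝ => x ^ 2 / 2 - gf x) (y - y / (1 + y)) y := by
    intro y hy
    have e1 : HasDerivAt (fun x : ℝ => x ^ 2 / 2) ((2:ℕ) * y ^ (2 - 1) / 2) y :=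
      (hasDerivAt_pow 2 y).div_const 2
    refine (e1.sub (GR_hasDerivAt hy)).congr_deriv ?_
    norm_num
  have hmono : MonotoneOn (fun x : ℝ => x ^ 2 / 2 - gf x) (Ici 0) := by
    refine monotoneOn_of_deriv_nonneg (convex_Ici 0) ?_ ?_ ?_
    · intro y hy
      exact (hd y hy).continuousAt.continuousWithinAt
    · intro y hy
      rw [interior_Ici] at hy
      exact (hd y (le_of_lt hy)).differentiableAt.differentiableWithinAt
    · intro y hy
      rw [interior_Ici] at hy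
      have hy0 : (0:ℝ) < y := hy
      rw [(hd y hy0.le).deriv, sub_nonneg, div_le_iff₀ (by linarith)]
      nlinarith
  have h5 := hmono (mem_Ici.2 le_rfl) (mem_Ici.2 hx) hx
  simp only [gf_zero] at h5
  linarith

/-- convexity -/
theorem gf_tangent {x y : ℝ} (hx : 0 ≤ x) (hy : 0 ≤ y) : gf x + x / (1 + x) * (y - x) ≤ gf y := by
  have h0 : (0:ℝ) < 1 + x := by linarith
  have h1 : (0:ℝ) < 1 + y := by linarith
  have h2 := Real.log_le_sub_one_of_pos (show (0:ℝ) < (1 + y) / (1 + x) by positivity)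
  rw [Real.log_div h1.ne' h0.ne'] at h2
  have h4 : (1 + y) / (1 + x) - 1 = (y - x) * (1 / (1 + x)) := by
    rw [div_sub_one h0.ne']
    ring
  have h5 : x / (1 + x) = 1 - 1 / (1 + x) := by
    rw [eq_sub_iff_add_eq, ← add_div, add_comm x 1, div_self h0.ne']
  unfold gf
  rw [h5]
  rw [h4] at h2
  linarith

/-- `gf ((1-s) x) ≤ gf x - s x²/(1+x) + (s x)²/2`. -/
theorem gf_shrink {x s : ℝ} (hx : 0 ≤ x) (hs : 0 ≤ s) (hs1 : s ≤ 1) :
    gf ((1 - s) * x) ≤ gf x - s * (x ^ 2 / (1 + x)) + (s * x) ^ 2 / 2 := by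
  have h0 : (0:ℝ) < 1 + x := by linarith
  have hsx : s * x ≤ x := by nlinarith
  have hsx0 : 0 ≤ s * x := mul_nonneg hs hx
  have h1 : (0:ℝ) < 1 + (1 - s) * x := by nlinarith
  set w := s * x / (1 + x) with hw
  have hw0 : 0 ≤ w := div_nonneg hsx0 h0.le
  have hw2 : w * (1 + x) = s * x := div_mul_cancel₀ _ h0.ne'
  have hw1 : w < 1 := by
    rw [hw, div_lt_one h0]
    linarith
  have h2 : 1 - w = (1 + (1 - s) * x) / (1 + x) := by
    rw [eq_div_iff h0.ne', sub_mul, hw2]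
    ring
  have h3 := GR_log_aux hw0 hw1
  have h4 : Real.log (1 - w) = Real.log (1 + (1 - s) * x) - Real.log (1 + x) := by
    rw [h2, Real.log_div h1.ne' h0.ne']
  rw [h4] at h3
  have h5 : w ^ 2 / (2 * (1 - w)) ≤ (s * x) ^ 2 / 2 := by
    have h6 : 1 ≤ (1 - w) * (1 + x) := by
      rw [h2, div_mul_cancel₀ _ h0.ne']
      nlinarith
    have h7 : 0 < 1 - w := by linarith
    rw [div_le_div_iff₀ (by positivity) (by positivity), ← hw2]
    have h8 : 0 ≤ w ^ 2 := sq_nonneg w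
    have h9 : 1 ≤ (1 + x) * ((1 - w) * (1 + x)) := by nlinarith
    calc w ^ 2 * 2 = w ^ 2 * 2 * 1 := by ring
      _ ≤ w ^ 2 * 2 * ((1 + x) * ((1 - w) * (1 + x))) := by gcongr
      _ = (w * (1 + x)) ^ 2 * (2 * (1 - w)) := by ring
  have h10 : s * (x ^ 2 / (1 + x)) = s * x - w := by
    have h11 : x ^ 2 / (1 + x) * (1 + x) = x ^ 2 := div_mul_cancel₀ _ h0.ne'
    have h12 : (s * (x ^ 2 / (1 + x)) - (s * x - w)) * (1 + x) = 0 := by
      linear_combination s * h11 + hw2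
    rcases mul_eq_zero.1 h12 with h | h
    · linarith
    · exact absurd h h0.ne'
  unfold gf
  rw [h10]
  linarith

/-- Increments: `gf (n+1 step) - gf (n step) ≤ step * (value of gf' at the right end)`; used for `x = 2 n u`:
`gf (2 (n+1) u) - gf (2 n u) ≤ (1/2) * (4 (n+1) u²/(1 + 2 (n+1) u)) * 2`. -/
theorem gf_step {u : ℝ} (hu : 0 ≤ u) (n : ℕ) :
    gf (2 * (n + 1) * u) - gf (2 * n * u)
      ≤ 4 * (n + 1) * u ^ 2 / (1 + 2 * (n + 1) * u) := by
  have h1 : (0:ℝ) ≤ 2 * (n + 1) * u := by positivity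
  have h2 : (0:ℝ) ≤ 2 * n * u := by positivity
  have h := gf_tangent h1 h2
  have e : 2 * ((n:ℝ) + 1) * u / (1 + 2 * (n + 1) * u) * (2 * n * u - 2 * (n + 1) * u)
      = -(4 * (n + 1) * u ^ 2 / (1 + 2 * (n + 1) * u)) := by ring
  rw [e] at h
  linarith

/-- `∑_{n<N} 4 n u²/(1+2nu) ≥ gf (2 N u) - 4 N u²/(1+2Nu)`: telescope `gf_step`. -/
theorem gf_sum {u : ℝ} (hu : 0 ≤ u) (N : ℕ) :
    gf (2 * N * u) - 4 * N * u ^ 2 / (1 + 2 * N * u)
      ≤ ∑ n ∈ Finset.range N, 4 * n * u ^ 2 / (1 + 2 * n * u) := by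
  induction N with
  | zero => simp [gf_zero]
  | succ N ih =>
    rw [Finset.sum_range_succ]
    have h := gf_step hu N
    push_cast
    linarith

/-- `ln (1 + z) ≥ z - z²` for `z ≥ -1/2`. -/
theorem log_one_add_ge {z : ℝ} (hz : -(1 / 2) ≤ z) : z - z ^ 2 ≤ Real.log (1 + z) := by
  rcases le_total 0 z with h | h
  · have h1 := gf_le h
    unfold gf at h1
    nlinarith [sq_nonneg z]
  · have h1 := GR_log_aux (w := -z) (by linarith) (by linarith)
    rw [sub_neg_eq_add] at h1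
    have h2 : (-z) ^ 2 / (2 * (1 + z)) ≤ z ^ 2 := by
      rw [neg_sq, div_le_iff₀ (by linarith)]
      nlinarith [sq_nonneg z]
    linarith

end Pool.Agent.Lib.MP_4952d6_mp

end

/-! ### U.GS -/

section

set_option autoImplicit false
set_option linter.unusedSectionVars false
set_option linter.unusedVariables false
open MeasureTheory Function Filter Topology Set

namespace Pool.Agent.Lib.MP_4952d6_mp

/-! # GS: upper bound for the partition function (U5.1)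

`P(σ) = ln Z_n(F^{0,σ})`. For `0 ≤ σ ≤ σ' ≤ 1`, `log_Zg_tilt` (from `σ'` to `σ`) gives `P(σ') - P(σ) ≤ -(σ'-σ) ⟨H⟩_{σ'}`, and by
`Hg_mean`, `Sg_lower`: `⟨H⟩_{σ'} ≥ n(n-1) u_0 - n ∑_{p≠0} uh (1 - S*) - n E*`, `uh (1 - S*) = uh x/(1+x)`, `x = 2 σ' n uh`. -/

/-! ### Elementary facts -/

theorem GS_frac_nonneg {x : ℝ} (hx : 0 ≤ x) : 0 ≤ x / (1 + x) := by positivity

theorem GS_frac_le_one {x : ℝ} (hx : 0 ≤ x) : x / (1 + x) ≤ 1 := by
  rw [div_le_one (by linarith)]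
  linarith

theorem GS_frac_lip {x y : ℝ} (hx : 0 ≤ x) (hxy : x ≤ y) : y / (1 + y) - x / (1 + x) ≤ y - x := by
  have h1 : (0:ℝ) < 1 + x := by linarith
  have h2 : (0:ℝ) < 1 + y := by linarith
  rw [div_sub_div _ _ h2.ne' h1.ne', div_le_iff₀ (mul_pos h2 h1)]
  have h3 : 1 ≤ (1 + y) * (1 + x) := by nlinarith
  have h4 : 0 ≤ y - x := by linarith
  nlinarith [mul_nonneg h4 (sub_nonneg.2 h3)]

theorem GS_gf_le {x : ℝ} (hx : 0 ≤ x) : gf x ≤ x := by
  unfold gf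
  have h := Real.log_nonneg (show (1:ℝ) ≤ 1 + x by linarith)
  linarith

theorem GS_uh_summable {D : Dat} (hD : D.Ok) : sm0 D.uh := sm0_of_summable hD.uh_summable

theorem GS_uh_sq_sm0 {D : Dat} (hD : D.Ok) : sm0 (fun p => D.uh p ^ 2) :=
  sm0_of_summable (uh_sq_summable hD)

theorem GS_frac_sm0 {D : Dat} (hD : D.Ok) {c : ℝ} (hc : 0 ≤ c) :
    sm0 (fun p => D.uh p * (c * D.uh p / (1 + c * D.uh p))) := by
  refine sm0_of hD.uh_summable fun p _ => ?_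
  have h0 := hD.uh_nonneg p
  have hx : 0 ≤ c * D.uh p := mul_nonneg hc h0
  rw [abs_of_nonneg (mul_nonneg h0 (GS_frac_nonneg hx))]
  exact mul_le_of_le_one_right h0 (GS_frac_le_one hx)

theorem GS_gf_sm0 {D : Dat} (hD : D.Ok) {c : ℝ} (hc : 0 ≤ c) :
    sm0 (fun p => gf (c * D.uh p)) := by
  refine sm0_of (hD.uh_summable.mul_left c) fun p _ => ?_
  have h0 := hD.uh_nonneg p
  have hx : 0 ≤ c * D.uh p := mul_nonneg hc h0
  rw [abs_of_nonneg (gf_nonneg hx)]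
  exact GS_gf_le hx

/-- Lower bound for the mean of `H`. -/
theorem Hg_mean_ge {K q a : ℝ} {N : ℕ} {D : Dat} (h : GasOK K q a N D) {σ : ℝ} (hσ : 0 ≤ σ)
    (hσ1 : σ ≤ 1) {n : ℕ} (hn1 : 1 ≤ n) (hn : n ≤ N) :
    n * (n - 1) * D.uh 0 - n * tsum0 (fun p => D.uh p * (2 * σ * n * D.uh p
        / (1 + 2 * σ * n * D.uh p))) - n * (120 * K ^ 4 * q ^ 278)
      ≤ Eg (D.F 0 σ) n (Hg D.ul) := by
  have hD := h.gd.ok
  have hF : GasFn lam3 (D.F 0 σ) := F_gas hD le_rfl zero_le_one hσ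
  have hZ : Zg (D.F 0 σ) n ≠ 0 := (h.Zpos 0 σ le_rfl zero_le_one hσ hσ1 n (by omega)).ne'
  rw [Hg_mean hD hF hn1 hZ]
  obtain ⟨s1, -⟩ := h.uS 0 σ le_rfl zero_le_one hσ hσ1 n hn1 hn
  obtain ⟨s2, e2⟩ := eb_sum h
  have hc : (0:ℝ) ≤ 2 * σ * n := by positivity
  have s3 := GS_frac_sm0 hD hc
  have s4 : sm0 (fun p => D.uh p * (Sg (D.F 0 σ) n p - 1)) :=
    sm0_congr (fun p _ => by ring) (s1.sub (GS_uh_summable hD))
  have h1 : -(tsum0 (fun p => D.uh p * (2 * σ * n * D.uh p / (1 + 2 * σ * n * D.uh p)))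
      + tsum0 (fun p => D.uh p * D.eb (K * q ^ 78) N p))
      ≤ tsum0 (fun p => D.uh p * (Sg (D.F 0 σ) n p - 1)) := by
    rw [← tsum0_add s3 s2, ← neg_one_mul, ← tsum0_const_mul]
    refine tsum0_mono ((s3.add s2).const_mul (-1)) s4 fun p hp => ?_
    have h2 := Sg_lower h hσ hσ1 hn1 hn hp
    have h0 := hD.uh_nonneg p
    have hx : 0 ≤ 2 * σ * n * D.uh p := mul_nonneg hc h0
    have h3 : D.Ss σ n p = 1 - 2 * σ * n * D.uh p / (1 + 2 * σ * n * D.uh p) := by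
      unfold Dat.Ss
      rw [eq_sub_iff_add_eq, ← add_div]
      exact div_self (by linarith)
    rw [h3] at h2
    have h4 := mul_le_mul_of_nonneg_left h2 h0
    linarith
  have hn0 : (0:ℝ) ≤ n := Nat.cast_nonneg n
  have h5 := mul_le_mul_of_nonneg_left h1 hn0
  have h6 := mul_le_mul_of_nonneg_left e2 hn0
  linarith

/-- One step: with `B σ = - σ u_0 n (n-1) + (1/2) ∑ gf (2σn uh) + σ n E*`,
`P(σ') - P(σ) ≤ B(σ') - B(σ) + (σ'-σ)² 2 n² ∑ uh²` (`gf_tangent` at `x = 2σn uh`, `y = 2σ'n uh`, and `x/(1+x)` is `1`-Lipschitz). -/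
theorem logZ_step {K q a : ℝ} {N : ℕ} {D : Dat} (h : GasOK K q a N D) {σ σ' : ℝ} (hσ : 0 ≤ σ)
    (hσσ' : σ ≤ σ') (hσ' : σ' ≤ 1) {n : ℕ} (hn1 : 1 ≤ n) (hn : n ≤ N) :
    Real.log (Zg (D.F 0 σ') n) - Real.log (Zg (D.F 0 σ) n)
      ≤ (-(σ' * (n * (n - 1) * D.uh 0)) + 1 / 2 * tsum0 (fun p => gf (2 * σ' * n * D.uh p))
          + σ' * (n * (120 * K ^ 4 * q ^ 278)))
        - (-(σ * (n * (n - 1) * D.uh 0)) + 1 / 2 * tsum0 (fun p => gf (2 * σ * n * D.uh p))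
          + σ * (n * (120 * K ^ 4 * q ^ 278)))
        + (σ' - σ) ^ 2 * (2 * n ^ 2 * ∑' p, D.uh p ^ 2) := by
  have hD := h.gd.ok
  have hσ'0 : 0 ≤ σ' := hσ.trans hσσ'
  have hσ1 : σ ≤ 1 := hσσ'.trans hσ'
  have hZ := h.Zpos 0 σ le_rfl zero_le_one hσ hσ1 n (by omega)
  have hZ' := h.Zpos 0 σ' le_rfl zero_le_one hσ'0 hσ' n (by omega)
  have h1 := log_Zg_tilt hD le_rfl zero_le_one hσ'0 hσ hZ' hZ
  have h2 := Hg_mean_ge h hσ'0 hσ' hn1 hn
  have hc : (0:ℝ) ≤ 2 * σ * n := by positivity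
  have hc' : (0:ℝ) ≤ 2 * σ' * n := by positivity
  have hd : 0 ≤ σ' - σ := sub_nonneg.2 hσσ'
  have hn0 : (0:ℝ) ≤ n := Nat.cast_nonneg n
  have s3 := GS_frac_sm0 hD hc'
  have s4 := GS_gf_sm0 hD hc
  have s5 := GS_gf_sm0 hD hc'
  have s6 := GS_uh_sq_sm0 hD
  have key : (σ' - σ) * n * tsum0 (fun p => D.uh p * (2 * σ' * n * D.uh p
        / (1 + 2 * σ' * n * D.uh p)))
      ≤ 1 / 2 * (tsum0 (fun p => gf (2 * σ' * n * D.uh p)) - tsum0 (fun p => gf (2 * σ * n * D.uh p)))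
        + (σ' - σ) ^ 2 * (2 * n ^ 2 * tsum0 (fun p => D.uh p ^ 2)) := by
    rw [← tsum0_sub s5 s4, ← tsum0_const_mul, ← tsum0_const_mul,
      show (σ' - σ) ^ 2 * (2 * n ^ 2 * tsum0 (fun p => D.uh p ^ 2))
        = ((σ' - σ) ^ 2 * (2 * n ^ 2)) * tsum0 (fun p => D.uh p ^ 2) by ring,
      ← tsum0_const_mul, ← tsum0_add ((s5.sub s4).const_mul _) (s6.const_mul _)]
    refine tsum0_mono (s3.const_mul _) (((s5.sub s4).const_mul _).add (s6.const_mul _)) fun p _ => ?_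
    have h0 := hD.uh_nonneg p
    have hx : 0 ≤ 2 * σ * n * D.uh p := mul_nonneg hc h0
    have hy : 0 ≤ 2 * σ' * n * D.uh p := mul_nonneg hc' h0
    have hxy : 2 * σ * n * D.uh p ≤ 2 * σ' * n * D.uh p := by
      have : 2 * σ * n ≤ 2 * σ' * n := by nlinarith
      exact mul_le_mul_of_nonneg_right this h0
    have t1 := gf_tangent hx hy
    have t2 := GS_frac_lip hx hxy
    have t3 : 0 ≤ (σ' - σ) * n * D.uh p := mul_nonneg (mul_nonneg hd hn0) h0
    have t4 := mul_le_mul_of_nonneg_left t2 t3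
    have e1 : 2 * σ' * n * D.uh p - 2 * σ * n * D.uh p = 2 * ((σ' - σ) * n * D.uh p) := by ring
    rw [e1] at t1 t4
    nlinarith
  have h3 : tsum0 (fun p => D.uh p ^ 2) ≤ ∑' p, D.uh p ^ 2 :=
    tsum0_le_tsum (uh_sq_summable hD) (sq_nonneg _)
  have h4 : (σ' - σ) ^ 2 * (2 * n ^ 2 * tsum0 (fun p => D.uh p ^ 2))
      ≤ (σ' - σ) ^ 2 * (2 * n ^ 2 * ∑' p, D.uh p ^ 2) := by gcongr
  have h5 := mul_le_mul_of_nonneg_left h2 hd
  nlinarith

/-- `(U5.1)`: telescope over `σ j / m`, `j ≤ m`, `P(0) ≤ 0` (`Zg_le_one`), and let `m → ∞`. -/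
theorem logZ_upper {K q a : ℝ} {N : ℕ} {D : Dat} (h : GasOK K q a N D) {σ : ℝ} (hσ : 0 ≤ σ)
    (hσ1 : σ ≤ 1) {n : ℕ} (hn1 : 1 ≤ n) (hn : n ≤ N) :
    Real.log (Zg (D.F 0 σ) n)
      ≤ -(σ * (n * (n - 1) * D.uh 0)) + 1 / 2 * tsum0 (fun p => gf (2 * σ * n * D.uh p))
        + σ * (n * (120 * K ^ 4 * q ^ 278)) := by
  have hD := h.gd.ok
  obtain ⟨P, hP⟩ : ∃ P : ℝ → ℝ, P = fun σ => Real.log (Zg (D.F 0 σ) n) := ⟨_, rfl⟩
  obtain ⟨B, hB⟩ : ∃ B : ℝ → ℝ, B = fun σ => -(σ * (n * (n - 1) * D.uh 0))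
    + 1 / 2 * tsum0 (fun p => gf (2 * σ * n * D.uh p)) + σ * (n * (120 * K ^ 4 * q ^ 278)) := ⟨_, rfl⟩
  obtain ⟨c, hc⟩ : ∃ c : ℝ, c = 2 * (n:ℝ) ^ 2 * ∑' p, D.uh p ^ 2 := ⟨_, rfl⟩
  have step : ∀ x y : ℝ, 0 ≤ x → x ≤ y → y ≤ 1 → P y - P x ≤ B y - B x + (y - x) ^ 2 * c := by
    intro x y h1 h2 h3
    rw [hP, hB, hc]
    exact logZ_step h h1 h2 h3 hn1 hn
  have hP0 : P 0 ≤ 0 := by
    rw [hP]
    have hF : GasFn lam3 (D.F 0 0) := F_gas hD le_rfl zero_le_one le_rfl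
    exact Real.log_nonpos (Zg_nonneg hF n) (Zg_le_one hF n)
  have hB0 : B 0 = 0 := by
    rw [hB]
    have e : tsum0 (fun p => gf (2 * 0 * n * D.uh p)) = 0 := by
      have e1 : ∀ p : Fin 3 → ℤ, p ≠ 0 → gf (2 * 0 * n * D.uh p) = 0 * D.uh p := by
        intro p _
        rw [mul_zero, zero_mul, zero_mul, gf_zero]
      rw [tsum0_congr e1, tsum0_const_mul, zero_mul]
    simp only [e]
    ring
  have main : ∀ m : ℕ, 0 < m → P σ ≤ B σ + σ ^ 2 * c / m := by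
    intro m hm
    have hm0 : (0:ℝ) < m := Nat.cast_pos.2 hm
    have tel : ∀ j : ℕ, j ≤ m → P (σ * j / m) - P 0 ≤ B (σ * j / m) - B 0 + j * ((σ / m) ^ 2 * c) := by
      intro j
      induction j with
      | zero =>
        intro _
        simp
      | succ j ih =>
        intro hj
        have h1 := ih (by omega)
        have hjm : ((j:ℝ) + 1) ≤ m := by exact_mod_cast hj
        have h2 : 0 ≤ σ * j / m := by positivity
        have h3 : σ * j / m ≤ σ * ((j:ℝ) + 1) / m := by gcongr; linarith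
        have h4 : σ * ((j:ℝ) + 1) / m ≤ 1 := by
          rw [div_le_one hm0]
          nlinarith
        have h5 := step _ _ h2 h3 h4
        have h6 : σ * ((j:ℝ) + 1) / m - σ * j / m = σ / m := by ring
        rw [h6] at h5
        push_cast
        linarith
    have h1 := tel m le_rfl
    rw [mul_div_assoc, div_self hm0.ne', mul_one, hB0] at h1
    have h2 : (m:ℝ) * ((σ / m) ^ 2 * c) = σ ^ 2 * c / m := by
      field_simp
    rw [h2] at h1
    linarith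
  have lim : Tendsto (fun m : ℕ => B σ + σ ^ 2 * c / (m:ℝ)) atTop (𝓝 (B σ + 0)) :=
    tendsto_const_nhds.add (tendsto_const_nhds.div_atTop tendsto_natCast_atTop_atTop)
  rw [add_zero] at lim
  have fin : P σ ≤ B σ := by
    refine ge_of_tendsto lim ?_
    filter_upwards [eventually_gt_atTop 0] with m hm
    exact main m hm
  rw [hP, hB] at fin
  exact fin

end Pool.Agent.Lib.MP_4952d6_mp

end

/-! ### U.GO2 -/

section

set_option autoImplicit false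
set_option linter.unusedSectionVars false
set_option linter.unusedVariables false
open MeasureTheory Function Filter Topology Set ComplexConjugate

namespace Pool.Agent.Lib.MP_4952d6_mp


/-! # GO2: the test function (U4.4), first part -/

/-- Coefficients of the test function `θ = ∑_{p ∈ P} c_p ch p`. -/
noncomputable def cth (D : Dat) (n : ℕ) (p : Fin 3 → ℤ) : ℝ :=
  2 * D.uh p / (ksq p * (1 + 2 * n * D.uh p))

/-- Gradient of `θ`. -/
noncomputable def dth (D : Dat) (n : ℕ) (P : Finset (Fin 3 → ℤ)) (α : Fin 3) (z : T3) : ℂ :=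
  ∑ p ∈ P, (cth D n p : ℂ) * (Complex.I * (kc p α : ℂ) * ch p z)

/-- `κ = ∇(2 ul) · ∇θ`. -/
noncomputable def kap (D : Dat) (n : ℕ) (P : Finset (Fin 3 → ℤ)) (z : T3) : ℂ :=
  ∑ α, (2 * D.dul α z : ℝ) * dth D n P α z

/-- Crude bound for the gradient. -/
theorem GO2_norm_dth_le (D : Dat) (n : ℕ) (P : Finset (Fin 3 → ℤ)) (α : Fin 3) (z : T3) :
    ‖dth D n P α z‖ ≤ ∑ p ∈ P, |cth D n p| * |kc p α| := by
  unfold dth
  refine (norm_sum_le _ _).trans (Finset.sum_le_sum fun p _ => ?_)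
  rw [norm_mul, norm_mul, norm_mul, Complex.norm_real, Complex.norm_real, Complex.norm_I, ch_norm,
    one_mul, mul_one, Real.norm_eq_abs, Real.norm_eq_abs]

theorem GO2_norm_kap_le (D : Dat) (n : ℕ) (P : Finset (Fin 3 → ℤ)) (z : T3) :
    ‖kap D n P z‖ ≤ ∑ α, 2 * |D.dul α z| * ∑ p ∈ P, |cth D n p| * |kc p α| := by
  unfold kap
  refine (norm_sum_le _ _).trans (Finset.sum_le_sum fun α _ => ?_)
  rw [norm_mul, Complex.norm_real, Real.norm_eq_abs, abs_mul, abs_two]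
  exact mul_le_mul_of_nonneg_left (GO2_norm_dth_le D n P α z) (by positivity)

theorem kap_meas {D : Dat} (hD : D.Ok) (n : ℕ) (P : Finset (Fin 3 → ℤ)) :
    Measurable (kap D n P) ∧ ∃ C, ∀ z, ‖kap D n P z‖ ≤ C := by
  constructor
  · unfold kap
    refine Finset.measurable_fun_sum _ fun α _ => ?_
    refine Measurable.mul ?_ ?_
    · exact Complex.measurable_ofReal.comp ((dul_bm hD α).meas.const_mul 2)
    · unfold dth
      refine Finset.measurable_fun_sum _ fun p _ => ?_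
      exact ((ch_continuous p).measurable.const_mul _).const_mul _
  · choose C hC0 hC using fun α => (dul_bm hD α).exists_nonneg_bound
    refine ⟨∑ α, 2 * C α * ∑ p ∈ P, |cth D n p| * |kc p α|, fun z => ?_⟩
    refine (GO2_norm_kap_le D n P z).trans (Finset.sum_le_sum fun α _ => ?_)
    refine mul_le_mul_of_nonneg_right ?_ (Finset.sum_nonneg fun p _ => by positivity)
    exact mul_le_mul_of_nonneg_left (hC α z) (by norm_num)

theorem GO2_int_ch {p : Fin 3 → ℤ} (hp : p ≠ 0) : ∫ z, ch p z ∂lam3 = 0 := by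
  obtain ⟨s, hs⟩ := exists_ch_eq_neg_one hp
  have h1 : ∫ z, ch p (z + s) ∂lam3 = ∫ z, ch p z ∂lam3 := integral_add_right_eq_self _ s
  have h2 : ∫ z, ch p (z + s) ∂lam3 = -∫ z, ch p z ∂lam3 := by
    rw [← integral_neg]
    refine integral_congr_ae (Eventually.of_forall fun z => ?_)
    show ch p (z + s) = -ch p z
    rw [ch_add_arg, hs]
    ring
  rw [h2] at h1
  have h3 : (2 : ℂ) * ∫ z, ch p z ∂lam3 = 0 := by linear_combination -h1
  rcases mul_eq_zero.1 h3 with h4 | h4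
  · norm_num at h4
  · exact h4

theorem GO2_int_ul {D : Dat} (hD : D.Ok) (p : Fin 3 → ℤ) :
    ∫ z, ch p z * (D.ul z : ℂ) ∂lam3 = (D.uh p : ℂ) := by
  have hi : ∀ q : Fin 3 → ℤ, Integrable (fun z => (D.uh q : ℂ) * ch (q + p) z) lam3 := fun q =>
    Integrable.of_bound ((ch_continuous (q + p)).measurable.const_mul _).aestronglyMeasurable
      (D.uh q) (Eventually.of_forall fun z => by
        rw [norm_mul, ch_norm, mul_one, Complex.norm_real, Real.norm_eq_abs,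
          abs_of_nonneg (hD.uh_nonneg q)])
  have hn : ∀ q : Fin 3 → ℤ, ∫ z, ‖(D.uh q : ℂ) * ch (q + p) z‖ ∂lam3 = D.uh q := by
    intro q
    have h1 : ∀ z : T3, ‖(D.uh q : ℂ) * ch (q + p) z‖ = D.uh q := fun z => by
      rw [norm_mul, ch_norm, mul_one, Complex.norm_real, Real.norm_eq_abs,
          abs_of_nonneg (hD.uh_nonneg q)]
    simp only [h1]
    simp
  have hs := hasSum_integral_of_summable_integral_norm hi (by simpa only [hn] using hD.uh_summable)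
  have he : ∀ z : T3, ∑' q : Fin 3 → ℤ, (D.uh q : ℂ) * ch (q + p) z = ch p z * (D.ul z : ℂ) := by
    intro z
    have h1 := (hD.ul_hasSum z).mul_left (ch p z)
    rw [← h1.tsum_eq]
    refine tsum_congr fun q => ?_
    rw [ch_add]
    ring
  simp only [he] at hs
  have hv : ∀ q : Fin 3 → ℤ, q ≠ -p → ∫ z, (D.uh q : ℂ) * ch (q + p) z ∂lam3 = 0 := by
    intro q hq
    rw [integral_const_mul, GO2_int_ch (fun h => hq (eq_neg_of_add_eq_zero_left h)), mul_zero]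
  have hs' := hasSum_single (-p) hv
  rw [hs.unique hs', integral_const_mul, neg_add_cancel, hD.uh_even]
  simp only [ch_zero]
  simp

theorem GO2_int_dul {D : Dat} (hD : D.Ok) (p : Fin 3 → ℤ) (α : Fin 3) :
    ∫ z, ch p z * (D.dul α z : ℂ) ∂lam3 = -(Complex.I * (kc p α : ℂ)) * (D.uh p : ℂ) := by
  have h := (hD.ul_WD α).ofReal.fourier (χ := ch (-p)) (ch_continuous (-p)).stronglyMeasurable
    (ch_norm (-p)) (((-p) α : ℤ) : ℝ) (fun x t => ch_add_tau (-p) α x t)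
  have hc : ∀ z : T3, starRingEnd ℂ (ch (-p) z) = ch p z := fun z => by
    rw [ch_neg, Complex.conj_conj]
  simp only [hc] at h
  rw [h, GO2_int_ul hD]
  simp only [kc, Pi.neg_apply]
  push_cast
  ring

/-- `∫ ∂_α ul · ch p = - i k_α ∫ ul ch p = - i k_α uh p`, so `∫ 2 ∇ul · ∇(ch p) = 2 |k|² uh p`, and `n ∑ 2 |k|² uh c = V^P`. -/
theorem kap_int {D : Dat} (hD : D.Ok) (n : ℕ) {P : Finset (Fin 3 → ℤ)} (hP : 0 ∉ P) :
    n * ∫ z, kap D n P z ∂lam3
      = ((∑ p ∈ P, 4 * n * D.uh p ^ 2 / (1 + 2 * n * D.uh p) : ℝ) : ℂ) := by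
  have he : ∀ z : T3, kap D n P z = ∑ α : Fin 3, ∑ p ∈ P,
      (2 * (cth D n p : ℂ) * (Complex.I * (kc p α : ℂ))) * (ch p z * (D.dul α z : ℂ)) := by
    intro z
    unfold kap dth
    refine Finset.sum_congr rfl fun α _ => ?_
    rw [Finset.mul_sum]
    refine Finset.sum_congr rfl fun p _ => ?_
    push_cast
    ring
  have hi : ∀ (α : Fin 3) (p : Fin 3 → ℤ), Integrable (fun z =>
      (2 * (cth D n p : ℂ) * (Complex.I * (kc p α : ℂ))) * (ch p z * (D.dul α z : ℂ))) lam3 := by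
    intro α p
    refine Integrable.const_mul ?_ _
    obtain ⟨C, hC0, hC⟩ := (dul_bm hD α).exists_nonneg_bound
    refine Integrable.of_bound ((ch_continuous p).measurable.mul
      (Complex.measurable_ofReal.comp (dul_bm hD α).meas)).aestronglyMeasurable C
      (Eventually.of_forall fun z => ?_)
    show ‖ch p z * (D.dul α z : ℂ)‖ ≤ C
    rw [norm_mul, ch_norm, one_mul, Complex.norm_real, Real.norm_eq_abs]
    exact hC z
  have h1 : ∫ z, kap D n P z ∂lam3 = ∑ α : Fin 3, ∑ p ∈ P,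
      (2 * (cth D n p : ℂ) * (Complex.I * (kc p α : ℂ))) *
        (-(Complex.I * (kc p α : ℂ)) * (D.uh p : ℂ)) := by
    simp only [he]
    rw [integral_finsetSum _ fun α _ => integrable_finsetSum _ fun p _ => hi α p]
    refine Finset.sum_congr rfl fun α _ => ?_
    rw [integral_finsetSum _ fun p _ => hi α p]
    refine Finset.sum_congr rfl fun p _ => ?_
    rw [integral_const_mul, GO2_int_dul hD]
  rw [h1, Finset.sum_comm, Finset.mul_sum]
  rw [Complex.ofReal_sum]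
  refine Finset.sum_congr rfl fun p hp => ?_
  have hp0 : p ≠ 0 := fun h => hP (h ▸ hp)
  have h2 : ∑ α : Fin 3, (2 * (cth D n p : ℂ) * (Complex.I * (kc p α : ℂ))) *
        (-(Complex.I * (kc p α : ℂ)) * (D.uh p : ℂ)) =
        2 * (cth D n p : ℂ) * (D.uh p : ℂ) * (ksq p : ℂ) := by
    rw [ksq_eq, Complex.ofReal_sum, Finset.mul_sum]
    refine Finset.sum_congr rfl fun α _ => ?_
    push_cast
    linear_combination (-2 * (cth D n p : ℂ) * (kc p α : ℂ) ^ 2 * (D.uh p : ℂ)) * Complex.I_sq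
  rw [h2]
  have h3 : (n : ℝ) * (2 * cth D n p * D.uh p * ksq p) =
      4 * n * D.uh p ^ 2 / (1 + 2 * n * D.uh p) := by
    unfold cth
    have hk : 0 < ksq p := lt_of_lt_of_le one_pos (ksq_ge_one hp0)
    have hu := hD.uh_nonneg p
    have h4 : 0 < 1 + 2 * (n : ℝ) * D.uh p := by positivity
    field_simp
    ring
  rw [← h3]
  push_cast
  ring

/-- `|∂_α θ| ≤ ∑ |k| c ≤ 2 ∑ uh / |k| ≤ 2 K a / q` (`uh_inv`, `abs_kc_le`), so `|κ| ≤ (4 K a/q) ∑_α |∂_α ul|`. -/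
theorem norm_kap_le {K q a : ℝ} {N : ℕ} {D : Dat} (h : GasOK K q a N D) (n : ℕ)
    {P : Finset (Fin 3 → ℤ)} (hP : 0 ∉ P) (z : T3) :
    ‖kap D n P z‖ ≤ 4 * K * a / q * ∑ α, |D.dul α z| := by
  have hD := h.gd.ok
  refine (GO2_norm_kap_le D n P z).trans ?_
  rw [Finset.mul_sum]
  refine Finset.sum_le_sum fun α _ => ?_
  have h1 : ∑ p ∈ P, |cth D n p| * |kc p α| ≤ 2 * (K * a / q) := by
    have h2 : ∑ p ∈ P, |cth D n p| * |kc p α| ≤ ∑ p ∈ P, 2 * (D.uh p / Real.sqrt (ksq p)) := by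
      refine Finset.sum_le_sum fun p hp => ?_
      have hp0 : p ≠ 0 := fun h => hP (h ▸ hp)
      have hk : 0 < ksq p := lt_of_lt_of_le one_pos (ksq_ge_one hp0)
      have hu := hD.uh_nonneg p
      have h4 : 1 ≤ 1 + 2 * (n : ℝ) * D.uh p := by
        have : 0 ≤ 2 * (n : ℝ) * D.uh p := by positivity
        linarith
      have h5 : |cth D n p| ≤ 2 * D.uh p / ksq p := by
        unfold cth
        rw [abs_of_nonneg (by positivity)]
        refine div_le_div_of_nonneg_left (by positivity) hk ?_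
        exact le_mul_of_one_le_right hk.le h4
      have hs : 0 < Real.sqrt (ksq p) := Real.sqrt_pos.2 hk
      calc |cth D n p| * |kc p α| ≤ (2 * D.uh p / ksq p) * Real.sqrt (ksq p) :=
            mul_le_mul h5 (abs_kc_le p α) (abs_nonneg _) (by positivity)
        _ = 2 * (D.uh p / Real.sqrt (ksq p)) := by
            rw [div_mul_eq_mul_div, mul_div_assoc, Real.sqrt_div_self', mul_assoc, mul_one_div]
    refine h2.trans ?_
    rw [← Finset.mul_sum]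
    refine mul_le_mul_of_nonneg_left ?_ (by norm_num)
    refine le_trans ?_ h.gd.uh_inv.2
    refine h.gd.uh_inv.1.sum_le_tsum P fun p _ => ?_
    exact div_nonneg (hD.uh_nonneg p) (Real.sqrt_nonneg _)
  calc 2 * |D.dul α z| * ∑ p ∈ P, |cth D n p| * |kc p α| ≤ 2 * |D.dul α z| * (2 * (K * a / q)) :=
        mul_le_mul_of_nonneg_left h1 (by positivity)
    _ = 4 * K * a / q * |D.dul α z| := by ring

/-- `⟨|∑_i κ(x_i)|²⟩ ≤ n ∫|κ|² + 2 (n ∫|κ|)² ≤ 500 K⁴ q^398` (`pair_prod_le` with `B = 2`, `Eg_one`, `d1`, `d2`, `N a³ = q^400`). -/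
theorem kap_second {K q a : ℝ} {N : ℕ} {D : Dat} (h : GasOK K q a N D) {δ τ : ℝ} (hδ : 0 ≤ δ)
    (hδ1 : δ ≤ 1) (hτ : 0 ≤ τ) (hτ1 : τ ≤ 1) {n m : ℕ} (hn : n ≤ N)
    {P : Finset (Fin 3 → ℤ)} (hP : 0 ∉ P) :
    Eg (D.F δ τ) n (fun x => ‖∑ i, kap D m P (x i)‖ ^ 2) ≤ 500 * K ^ 4 * q ^ 398 := by
  have hD := h.gd.ok
  have hF : GasFn lam3 (D.F δ τ) := F_gas hD hδ hδ1 hτ
  have hZ : 0 < Zg (D.F δ τ) n := h.Zpos δ τ hδ hδ1 hτ hτ1 n (by omega)
  have hq := h.gd.q0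
  have hq1 : q ≤ 1 := by linarith [h.gd.q1]
  have ha := h.gd.a0
  have hK : 1 ≤ K := h.gd.C1
  have hK0 : 0 < K := by linarith
  -- the majorant
  obtain ⟨g, hg⟩ : ∃ g : T3 → ℝ, g = fun z => 4 * K * a / q * ∑ α : Fin 3, |D.dul α z| := ⟨_, rfl⟩
  have hgb : BM g := by
    rw [hg]
    exact (BM.finset_sum _ fun α _ => (dul_bm hD α).abs).const_mul _
  have hg0 : ∀ z, 0 ≤ g z := fun z => by
    rw [hg]
    exact mul_nonneg (by positivity) (Finset.sum_nonneg fun α _ => abs_nonneg _)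
  have hkg : ∀ z, ‖kap D m P z‖ ≤ g z := fun z => by
    rw [hg]
    exact norm_kap_le h m hP z
  have hQ : ∫ z, g z ∂lam3 ≤ 12 * K ^ 2 * a ^ 3 / q ^ 201 := by
    rw [hg, integral_const_mul, integral_finsetSum _ fun α _ => ((dul_bm hD α).abs).integrable _]
    have h1 : ∑ α : Fin 3, ∫ z, |D.dul α z| ∂lam3 ≤ ∑ α : Fin 3, K * a ^ 2 / q ^ 200 :=
      Finset.sum_le_sum fun α _ => h.gd.d1 α
    rw [Finset.sum_const, Finset.card_univ, Fintype.card_fin, nsmul_eq_mul] at h1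
    calc 4 * K * a / q * ∑ α : Fin 3, ∫ z, |D.dul α z| ∂lam3
        ≤ 4 * K * a / q * (((3 : ℕ) : ℝ) * (K * a ^ 2 / q ^ 200)) :=
          mul_le_mul_of_nonneg_left h1 (by positivity)
      _ = 12 * K ^ 2 * a ^ 3 / q ^ 201 := by
          push_cast
          field_simp
          ring
  have hQ0 : 0 ≤ ∫ z, g z ∂lam3 := integral_nonneg hg0
  have hR : ∫ z, g z ^ 2 ∂lam3 ≤ 144 * K ^ 3 * a ^ 3 * q ^ 76 := by
    have h1 : ∀ z, g z ^ 2 ≤ 48 * K ^ 2 * a ^ 2 / q ^ 2 * ∑ α : Fin 3, D.dul α z ^ 2 := by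
      intro z
      rw [hg]
      show (4 * K * a / q * ∑ α : Fin 3, |D.dul α z|) ^ 2 ≤ _
      rw [mul_pow]
      have h2 : (∑ α : Fin 3, |D.dul α z|) ^ 2 ≤ 3 * ∑ α : Fin 3, D.dul α z ^ 2 := by
        have h3 := sq_sum_le_card_mul_sum_sq (s := (Finset.univ : Finset (Fin 3)))
          (f := fun α => |D.dul α z|)
        simp only [sq_abs, Finset.card_univ, Fintype.card_fin] at h3
        exact_mod_cast h3
      calc (4 * K * a / q) ^ 2 * (∑ α : Fin 3, |D.dul α z|) ^ 2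
          ≤ (4 * K * a / q) ^ 2 * (3 * ∑ α : Fin 3, D.dul α z ^ 2) :=
            mul_le_mul_of_nonneg_left h2 (by positivity)
        _ = _ := by ring
    have h2 : BM (fun z => 48 * K ^ 2 * a ^ 2 / q ^ 2 * ∑ α : Fin 3, D.dul α z ^ 2) :=
      (BM.finset_sum _ fun α _ => (dul_bm hD α).pow 2).const_mul _
    refine (integral_mono ((hgb.pow 2).integrable _) (h2.integrable _) h1).trans ?_
    rw [integral_const_mul, integral_finsetSum _ fun α _ => ((dul_bm hD α).pow 2).integrable _]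
    have h3 : ∑ α : Fin 3, ∫ z, D.dul α z ^ 2 ∂lam3 ≤ ∑ α : Fin 3, K * a * q ^ 78 :=
      Finset.sum_le_sum fun α _ => h.gd.d2 α
    rw [Finset.sum_const, Finset.card_univ, Fintype.card_fin, nsmul_eq_mul] at h3
    calc 48 * K ^ 2 * a ^ 2 / q ^ 2 * ∑ α : Fin 3, ∫ z, D.dul α z ^ 2 ∂lam3
        ≤ 48 * K ^ 2 * a ^ 2 / q ^ 2 * (((3 : ℕ) : ℝ) * (K * a * q ^ 78)) :=
          mul_le_mul_of_nonneg_left h3 (by positivity)
      _ = 144 * K ^ 3 * a ^ 3 * q ^ 76 := by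
          push_cast
          field_simp
          ring
  have hR0 : 0 ≤ ∫ z, g z ^ 2 ∂lam3 := integral_nonneg fun z => sq_nonneg _
  -- the pointwise majorant
  have hb1 : ∀ i : Fin n, BM (fun x : Fin n → T3 => g (x i) ^ 2) := fun i =>
    (hgb.comp (measurable_pi_apply i)).pow 2
  have hb2 : ∀ i j : Fin n, BM (fun x : Fin n → T3 => g (x i) * g (x j)) := fun i j =>
    (hgb.comp (measurable_pi_apply i)).mul (hgb.comp (measurable_pi_apply j))
  have hb3 : BM (fun x : Fin n → T3 => ∑ i : Fin n, g (x i) ^ 2) :=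
    BM.finset_sum _ fun i _ => hb1 i
  have hb4 : ∀ i : Fin n, BM (fun x : Fin n → T3 =>
      ∑ j ∈ Finset.univ.erase i, g (x i) * g (x j)) := fun i =>
    BM.finset_sum _ fun j _ => hb2 i j
  have hb5 : BM (fun x : Fin n → T3 =>
      ∑ i : Fin n, ∑ j ∈ Finset.univ.erase i, g (x i) * g (x j)) :=
    BM.finset_sum _ fun i _ => hb4 i
  have hpt : ∀ x : Fin n → T3, ‖∑ i, kap D m P (x i)‖ ^ 2 ≤ (∑ i : Fin n, g (x i) ^ 2) +
      ∑ i : Fin n, ∑ j ∈ Finset.univ.erase i, g (x i) * g (x j) := by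
    intro x
    have h1 : ‖∑ i, kap D m P (x i)‖ ≤ ∑ i : Fin n, g (x i) :=
      (norm_sum_le _ _).trans (Finset.sum_le_sum fun i _ => hkg (x i))
    have h2 : (∑ i : Fin n, g (x i)) ^ 2 = (∑ i : Fin n, g (x i) ^ 2) +
      ∑ i : Fin n, ∑ j ∈ Finset.univ.erase i, g (x i) * g (x j) := by
      rw [sq, Finset.sum_mul_sum, ← Finset.sum_add_distrib]
      refine Finset.sum_congr rfl fun i _ => ?_
      rw [← Finset.add_sum_erase _ _ (Finset.mem_univ i), sq]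
    rw [← h2]
    exact pow_le_pow_left₀ (norm_nonneg _) h1 2
  obtain ⟨hkm, Ck, hCk⟩ := kap_meas hD m P
  have hbL : BM (fun x : Fin n → T3 => ‖∑ i, kap D m P (x i)‖ ^ 2) := by
    refine BM.pow ?_ 2
    refine ⟨Measurable.norm (Finset.measurable_fun_sum _ fun i _ =>
      hkm.comp (measurable_pi_apply i)), ∑ i : Fin n, Ck, fun x => ?_⟩
    rw [abs_of_nonneg (norm_nonneg _)]
    exact (norm_sum_le _ _).trans (Finset.sum_le_sum fun i _ => hCk (x i))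
  refine (Eg_mono hF hbL (hb3.add hb5) hpt).trans ?_
  rw [Eg_add hF hb3 hb5, Eg_sum hF _ fun i _ => hb1 i, Eg_sum hF _ fun i _ => hb4 i]
  have hnN : (n : ℝ) ≤ N := by exact_mod_cast hn
  have hE1 : ∑ i : Fin n, Eg (D.F δ τ) n (fun x => g (x i) ^ 2) ≤ 144 * K ^ 3 * q ^ 476 := by
    have h1 : ∀ i : Fin n, Eg (D.F δ τ) n (fun x => g (x i) ^ 2) = ∫ z, g z ^ 2 ∂lam3 := fun i =>
      Eg_one hF hZ.ne' (hgb.pow 2) i
    simp only [h1]
    rw [Finset.sum_const, Finset.card_univ, Fintype.card_fin, nsmul_eq_mul]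
    calc (n : ℝ) * ∫ z, g z ^ 2 ∂lam3 ≤ N * (144 * K ^ 3 * a ^ 3 * q ^ 76) :=
          mul_le_mul hnN hR hR0 (by positivity)
      _ = 144 * K ^ 3 * q ^ 76 * (N * a ^ 3) := by ring
      _ = 144 * K ^ 3 * q ^ 476 := by rw [h.gd.hN]; ring
  have hpair : ∀ i j : Fin n, i ≠ j → Eg (D.F δ τ) n (fun x => g (x i) * g (x j)) ≤
      2 * ((∫ z, g z ∂lam3) * ∫ z, g z ∂lam3) := by
    intro i j hij
    obtain ⟨m', rfl⟩ : ∃ m', n = m' + 2 := by
      refine ⟨n - 2, ?_⟩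
      have h1 := i.2
      have h2 := j.2
      have h3 : (i : ℕ) ≠ j := fun h => hij (Fin.ext h)
      omega
    refine pair_prod_le hF m' hZ hgb hgb hg0 hg0 (fun z => ?_) i j hij
    have h1 := h.yy1 δ τ hδ hδ1 hτ hτ1 m' hn z
    have h2 : K * q ^ 78 ≤ 1 := by
      have h3 := h.small
      have h4 : K * q ^ 78 ≤ K ^ 20 * q := by
        refine mul_le_mul ?_ ?_ (by positivity) (by positivity)
        · calc K = K ^ 1 := (pow_one K).symm
            _ ≤ K ^ 20 := pow_le_pow_right₀ hK (by norm_num)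
        · calc q ^ 78 ≤ q ^ 1 := pow_le_pow_of_le_one hq.le hq1 (by norm_num)
            _ = q := pow_one q
      linarith
    have h3 : yy (D.F δ τ) m' z ≤ 2 := by
      have := (abs_le.1 h1).2
      linarith
    unfold pp
    calc D.F δ τ z * yy (D.F δ τ) m' z ≤ 1 * 2 :=
          mul_le_mul (hF.le_one z) h3 (yy_nonneg hF m' z) zero_le_one
      _ = 2 := one_mul 2
  have hE2 : ∑ i : Fin n, Eg (D.F δ τ) n (fun x => ∑ j ∈ Finset.univ.erase i, g (x i) * g (x j)) ≤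
      288 * K ^ 4 * q ^ 398 := by
    have h1 : ∀ i : Fin n, Eg (D.F δ τ) n (fun x =>
        ∑ j ∈ Finset.univ.erase i, g (x i) * g (x j)) ≤
        n * (2 * ((∫ z, g z ∂lam3) * ∫ z, g z ∂lam3)) := by
      intro i
      rw [Eg_sum hF _ fun j _ => hb2 i j]
      refine (Finset.sum_le_sum fun j hj => hpair i j (Finset.ne_of_mem_erase hj).symm).trans ?_
      rw [Finset.sum_const, nsmul_eq_mul]
      refine mul_le_mul_of_nonneg_right ?_ (by positivity)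
      have h2 : (Finset.univ.erase i).card ≤ n := by
        refine (Finset.card_le_univ _).trans ?_
        rw [Fintype.card_fin]
      exact_mod_cast h2
    refine (Finset.sum_le_sum fun i _ => h1 i).trans ?_
    rw [Finset.sum_const, Finset.card_univ, Fintype.card_fin, nsmul_eq_mul]
    have h2 : (n : ℝ) * ∫ z, g z ∂lam3 ≤ 12 * K ^ 2 * q ^ 199 := by
      calc (n : ℝ) * ∫ z, g z ∂lam3 ≤ N * (12 * K ^ 2 * a ^ 3 / q ^ 201) :=
            mul_le_mul hnN hQ hQ0 (by positivity)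
        _ = 12 * K ^ 2 * (N * a ^ 3) / q ^ 201 := by ring
        _ = 12 * K ^ 2 * q ^ 199 := by
            rw [h.gd.hN]
            field_simp
    have h3 : 0 ≤ (n : ℝ) * ∫ z, g z ∂lam3 := by positivity
    calc (n : ℝ) * (n * (2 * ((∫ z, g z ∂lam3) * ∫ z, g z ∂lam3)))
        = 2 * (n * ∫ z, g z ∂lam3) ^ 2 := by ring
      _ ≤ 2 * (12 * K ^ 2 * q ^ 199) ^ 2 :=
          mul_le_mul_of_nonneg_left (pow_le_pow_left₀ h3 h2 2) (by norm_num)
      _ = 288 * K ^ 4 * q ^ 398 := by ring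
  refine (add_le_add hE1 hE2).trans ?_
  have h1 : K ^ 3 * q ^ 476 ≤ K ^ 4 * q ^ 398 :=
    mul_le_mul (pow_le_pow_right₀ hK (by norm_num)) (pow_le_pow_of_le_one hq.le hq1 (by norm_num))
      (by positivity) (by positivity)
  have h2 : 0 ≤ K ^ 4 * q ^ 398 := by positivity
  calc 144 * K ^ 3 * q ^ 476 + 288 * K ^ 4 * q ^ 398
      = 144 * (K ^ 3 * q ^ 476) + 288 * (K ^ 4 * q ^ 398) := by ring
    _ ≤ 500 * (K ^ 4 * q ^ 398) := by linarith
    _ = 500 * K ^ 4 * q ^ 398 := by ring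

end Pool.Agent.Lib.MP_4952d6_mp

end

/-! ### U.GP1 -/

section

set_option autoImplicit false
set_option linter.unusedSectionVars false
set_option linter.unusedVariables false
open MeasureTheory Function Filter Topology Set ComplexConjugate

namespace Pool.Agent.Lib.MP_4952d6_mp


/-! # GP1: lower bound for the second moment of the truncated field (U4.4), second part

`τ = 1`, `X = 2 Xg ul x 0`, `m = 2 n u_0`, `G = Tr s (X - m)`, `s = q^18`. `J_θ = ∑_{p∈P} c_p J_p`.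
1. `E|J_θ|² = ∑ c_p² E|J_p|² ≤ ∑ c_p² n |k|⁴ (1 + 2n uh + e) ≤ V^P + 2 E*` (`Eg_J_comb`, `Eg_J_sq_le`, `eb_sum`), `E* ≤ 120 K⁴ q^278`.
2. `ibp` for each `p` with `Φ = G` (real, `WD_chain`, `∂_{iα} X = 2 (∂_α ul)(-x_i)·(-1)`: `Xg ul x 0 = ∑ ul (0 - x_j) = ∑ ul (x_j)`):
   `E[Tr'(X-m) ∑_i κ(x_i)] = E[G J_θ]`.
3. `|E[Tr' ∑κ]| ≥ Re E ∑κ - E|1 - Tr'| |∑κ| ≥ V^P - √(9·4·Var(Xg)/s²) √(E|∑κ|²) ≥ V^P - 200 K³ q^238/s`
   (`kap_int`, `EgC_one`; `one_sub_Tr'_sq`; `varX`, `kap_second`; `√(36 K q^78 / s² · 500 K⁴ q^398) ≤ 200 K³ q^238 / s`).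
4. Cauchy-Schwarz: `(V^P - e)² ≤ E G² (V^P + e')`, so `E G² ≥ V^P - 2e - e'`.
Here `q^238/s = q^220`, so `2e + e' ≤ 400 K³ q^220 + 240 K⁴ q^278 ≤ 1000 K⁴ q^220`. Then `δ → 0`. -/

theorem GP1_eval_WD {D : Dat} (hD : D.Ok) {n : ℕ} (i j : Fin n) (α : Fin 3) :
    WD (piN (Fin n)) (tauN i α) (fun x => D.ul (x j))
      (fun x => if j = i then D.dul α (x j) else 0) := by
  by_cases hji : j = i
  · subst hji
    simp only [if_true]
    refine (hD.ul_WD α).comp (tauN_zero j α) (φ := fun x : Fin n → T3 => x j)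
      (measurePreserving_eval _ j) (fun y t => ?_)
    simp [tauN]
  · simp only [hji, if_false]
    refine WD.of_invariant (tauN_zero i α) ?_ ?_ ?_
    · exact ((hD.ul_WD α).sm.comp_measurable (measurable_pi_apply j))
    · exact (ul_bm hD).bdd.imp fun C hC x => by simpa using hC (x j)
    · intro x t
      simp [tauN, Pi.single_eq_of_ne hji]

theorem GP1_Xg_eq {D : Dat} (hD : D.Ok) {n : ℕ} (x : Fin n → T3) :
    Xg D.ul x 0 = ∑ j, D.ul (x j) := by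
  unfold Xg
  refine Finset.sum_congr rfl fun j _ => ?_
  rw [zero_sub, hD.ul_even]

theorem GP1_Xg_WD {D : Dat} (hD : D.Ok) {n : ℕ} (i : Fin n) (α : Fin 3) :
    WD (piN (Fin n)) (tauN i α) (fun x => Xg D.ul x 0) (fun x => D.dul α (x i)) := by
  have h1 := WD.finset_sum (μ := piN (Fin n)) Finset.univ (tauN_zero i α)
    (fun j _ => GP1_eval_WD hD i j α)
  have e1 : (fun x : Fin n → T3 => Xg D.ul x 0) = fun x => ∑ j, D.ul (x j) :=
    funext fun x => GP1_Xg_eq hD x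
  have e2 : (fun x : Fin n → T3 => D.dul α (x i))
      = fun x => ∑ j, if j = i then D.dul α (x j) else 0 := by
    funext x
    simp
  rw [e1, e2]
  exact h1

theorem GP1_Tr_measurable (s : ℝ) : Measurable (Tr s) := by
  unfold Tr
  fun_prop

theorem GP1_Tr'_measurable (s : ℝ) : Measurable (Tr' s) := by
  unfold Tr'
  fun_prop

theorem GP1_G_WD {D : Dat} (hD : D.Ok) {s : ℝ} (hs : 0 < s) (m : ℝ) {n : ℕ} (i : Fin n)
    (α : Fin 3) :
    WD (piN (Fin n)) (tauN i α) (fun x => Tr s (2 * Xg D.ul x 0 - m))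
      (fun x => Tr' s (2 * Xg D.ul x 0 - m) * 2 * D.dul α (x i)) := by
  have h1 := WD_chain (GP1_Xg_WD hD i α) (φ := fun y => Tr s (2 * y - m))
    (φ' := fun y => Tr' s (2 * y - m) * 2) (L := 2)
    ((GP1_Tr_measurable s).comp (by fun_prop)) ?_ ?_
  · exact h1
  · intro y
    have h2 : HasDerivAt (fun y : ℝ => 2 * y - m) 2 y := by
      simpa using ((hasDerivAt_id y).const_mul 2).sub_const m
    exact (Tr_hasDerivAt hs (2 * y - m)).comp y h2
  · intro y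
    rw [abs_mul, abs_two]
    have := abs_Tr'_le hs (2 * y - m)
    linarith

theorem GP1_G_bm {D : Dat} (hD : D.Ok) {s : ℝ} (hs : 0 < s) (m : ℝ) (n : ℕ) :
    BM (fun x : Fin n → T3 => Tr s (2 * Xg D.ul x 0 - m)) := by
  refine ⟨(GP1_Tr_measurable s).comp ((((Xg_bm hD n 0).const_mul 2).sub (BM.const m)).meas),
    s / 2, fun x => abs_Tr_le' hs _⟩

theorem GP1_G'_bm {D : Dat} (hD : D.Ok) {s : ℝ} (hs : 0 < s) (m : ℝ) (n : ℕ) :
    BM (fun x : Fin n → T3 => Tr' s (2 * Xg D.ul x 0 - m)) := by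
  refine ⟨(GP1_Tr'_measurable s).comp ((((Xg_bm hD n 0).const_mul 2).sub (BM.const m)).meas),
    1, fun x => abs_Tr'_le hs _⟩

theorem GP1_bound_mul {α : Type*} {f g : α → ℂ} (hf : ∃ C, ∀ x, ‖f x‖ ≤ C)
    (hg : ∃ C, ∀ x, ‖g x‖ ≤ C) : ∃ C, ∀ x, ‖f x * g x‖ ≤ C := by
  obtain ⟨C, hC⟩ := hf
  obtain ⟨C', hC'⟩ := hg
  refine ⟨C * C', fun x => ?_⟩
  rw [norm_mul]
  exact mul_le_mul (hC x) (hC' x) (norm_nonneg _) ((norm_nonneg _).trans (hC x))

theorem GP1_bound_sum {α κ : Type*} (S : Finset κ) {f : κ → α → ℂ}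
    (hf : ∀ i ∈ S, ∃ C, ∀ x, ‖f i x‖ ≤ C) : ∃ C, ∀ x, ‖∑ i ∈ S, f i x‖ ≤ C := by
  choose! C hC using hf
  refine ⟨∑ i ∈ S, C i, fun x => (norm_sum_le _ _).trans (Finset.sum_le_sum fun i hi => hC i hi x)⟩

theorem GP1_bound_bm {α : Type*} [MeasurableSpace α] {f : α → ℝ} (hf : BM f) :
    ∃ C, ∀ x, ‖((f x : ℝ) : ℂ)‖ ≤ C := by
  obtain ⟨C, hC⟩ := hf.bdd
  exact ⟨C, fun x => by rw [Complex.norm_real]; exact hC x⟩

theorem GP1_bound_const {α : Type*} (c : ℂ) : ∃ C, ∀ x : α, ‖(fun _ : α => c) x‖ ≤ C :=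
  ⟨‖c‖, fun _ => le_rfl⟩

theorem GP1_Tk_meas (p : Fin 3 → ℤ) {n : ℕ} (i : Fin n) (α : Fin 3) :
    Measurable (Tk p i α) ∧ ∃ C, ∀ x, ‖Tk p i α x‖ ≤ C := by
  constructor
  · unfold Tk
    exact (((ch_continuous p).measurable).comp (measurable_pi_apply i)).const_mul _
  · refine ⟨‖Complex.I * (kc p α : ℂ)‖, fun x => ?_⟩
    unfold Tk
    rw [norm_mul, ch_norm, mul_one]

/-- Step 2. -/
theorem ibp_theta {D : Dat} (hD : D.Ok) {δ : ℝ} (hδ : 0 < δ) (hδ1 : δ ≤ 1) {n : ℕ}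
    (hZ : Zg (D.F δ 1) n ≠ 0) {s : ℝ} (hs : 0 < s) (m : ℝ) (P : Finset (Fin 3 → ℤ)) :
    EgC (D.F δ 1) n (fun x => (Tr' s (2 * Xg D.ul x 0 - m) : ℂ) * ∑ i, kap D n P (x i))
      = EgC (D.F δ 1) n (fun x => (Tr s (2 * Xg D.ul x 0 - m) : ℂ)
          * ∑ p ∈ P, (cth D n p : ℂ) * Jk (D.du δ 1) p x) := by
  have hF : GasFn lam3 (D.F δ 1) := F_gas hD hδ.le hδ1 zero_le_one
  have hG := GP1_G_bm hD hs m n
  have hG' := GP1_G'_bm hD hs m n
  -- the two families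
  have key : ∀ p : Fin 3 → ℤ,
      EgC (D.F δ 1) n (fun x => ∑ i, ∑ α, Tk p i α x
        * ((Tr' s (2 * Xg D.ul x 0 - m) * 2 * D.dul α (x i) : ℝ) : ℂ))
      = EgC (D.F δ 1) n (fun x => ((Tr s (2 * Xg D.ul x 0 - m) : ℝ) : ℂ)
          * Jk (D.du δ 1) p x) := by
    intro p
    unfold EgC
    rw [ibp hD hδ hδ1 zero_le_one p
      (Φ := fun x => ((Tr s (2 * Xg D.ul x 0 - m) : ℝ) : ℂ))
      (dΦ := fun i α x => ((Tr' s (2 * Xg D.ul x 0 - m) * 2 * D.dul α (x i) : ℝ) : ℂ))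
      (fun i α => (GP1_G_WD hD hs m i α).ofReal)]
  have dulm : ∀ (i : Fin n) (α : Fin 3), BM (fun x : Fin n → T3 =>
      Tr' s (2 * Xg D.ul x 0 - m) * 2 * D.dul α (x i)) := fun i α =>
    (hG'.mul (BM.const 2)).mul ((dul_bm hD α).comp (measurable_pi_apply i))
  have m1 : ∀ p : Fin 3 → ℤ, Measurable (fun x : Fin n → T3 => ∑ i, ∑ α, Tk p i α x
        * ((Tr' s (2 * Xg D.ul x 0 - m) * 2 * D.dul α (x i) : ℝ) : ℂ)) := fun p =>
    Finset.measurable_sum _ fun i _ => Finset.measurable_sum _ fun α _ =>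
      (GP1_Tk_meas p i α).1.mul (Complex.measurable_ofReal.comp (dulm i α).meas)
  have b1 : ∀ p : Fin 3 → ℤ, ∃ C, ∀ x : Fin n → T3, ‖∑ i, ∑ α, Tk p i α x
        * ((Tr' s (2 * Xg D.ul x 0 - m) * 2 * D.dul α (x i) : ℝ) : ℂ)‖ ≤ C := fun p =>
    GP1_bound_sum _ fun i _ => GP1_bound_sum _ fun α _ =>
      GP1_bound_mul (GP1_Tk_meas p i α).2 (GP1_bound_bm (dulm i α))
  have m2 : ∀ p : Fin 3 → ℤ, Measurable (fun x : Fin n → T3 =>
      ((Tr s (2 * Xg D.ul x 0 - m) : ℝ) : ℂ) * Jk (D.du δ 1) p x) := fun p =>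
    (Complex.measurable_ofReal.comp hG.meas).mul (Jk_meas hD hδ hδ1 n p).1
  have b2 : ∀ p : Fin 3 → ℤ, ∃ C, ∀ x : Fin n → T3,
      ‖((Tr s (2 * Xg D.ul x 0 - m) : ℝ) : ℂ) * Jk (D.du δ 1) p x‖ ≤ C := fun p =>
    GP1_bound_mul (GP1_bound_bm hG) (Jk_meas hD hδ hδ1 n p).2
  have eL : (fun x : Fin n → T3 => (Tr' s (2 * Xg D.ul x 0 - m) : ℂ) * ∑ i, kap D n P (x i))
      = fun x => ∑ p ∈ P, (cth D n p : ℂ) * ∑ i, ∑ α, Tk p i α x
        * ((Tr' s (2 * Xg D.ul x 0 - m) * 2 * D.dul α (x i) : ℝ) : ℂ) := by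
    funext x
    simp only [kap, dth, Tk, Finset.mul_sum]
    rw [Finset.sum_comm (s := P)]
    refine Finset.sum_congr rfl fun i _ => ?_
    rw [Finset.sum_comm (s := P)]
    refine Finset.sum_congr rfl fun α _ => Finset.sum_congr rfl fun p _ => ?_
    push_cast
    ring
  have eR : (fun x : Fin n → T3 => (Tr s (2 * Xg D.ul x 0 - m) : ℂ)
          * ∑ p ∈ P, (cth D n p : ℂ) * Jk (D.du δ 1) p x)
      = fun x => ∑ p ∈ P, (cth D n p : ℂ) * (((Tr s (2 * Xg D.ul x 0 - m) : ℝ) : ℂ)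
          * Jk (D.du δ 1) p x) := by
    funext x
    rw [Finset.mul_sum]
    refine Finset.sum_congr rfl fun p _ => ?_
    ring
  have sL := EgC_sum hF P (n := n) (Φ := fun p x => (cth D n p : ℂ) * ∑ i, ∑ α, Tk p i α x
        * ((Tr' s (2 * Xg D.ul x 0 - m) * 2 * D.dul α (x i) : ℝ) : ℂ))
      (fun p _ => (m1 p).const_mul _) (fun p _ => GP1_bound_mul (GP1_bound_const _) (b1 p))
  have sR := EgC_sum hF P (n := n) (Φ := fun p x => (cth D n p : ℂ)
        * (((Tr s (2 * Xg D.ul x 0 - m) : ℝ) : ℂ) * Jk (D.du δ 1) p x))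
      (fun p _ => (m2 p).const_mul _) (fun p _ => GP1_bound_mul (GP1_bound_const _) (b2 p))
  rw [eL, eR, sL, sR]
  refine Finset.sum_congr rfl fun p _ => ?_
  rw [EgC_const_mul, EgC_const_mul, key p]

/-- Step 1. -/
theorem J_theta_sq {K q a : ℝ} {N : ℕ} {D : Dat} (h : GasOK K q a N D) {δ : ℝ} (hδ : 0 < δ)
    (hδ1 : δ ≤ 1) {n : ℕ} (hn1 : 1 ≤ n) (hn : n ≤ N) {P : Finset (Fin 3 → ℤ)} (hP : 0 ∉ P) :
    Eg (D.F δ 1) n (fun x => ‖∑ p ∈ P, (cth D n p : ℂ) * Jk (D.du δ 1) p x‖ ^ 2)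
      ≤ (∑ p ∈ P, 4 * n * D.uh p ^ 2 / (1 + 2 * n * D.uh p)) + 240 * K ^ 4 * q ^ 278 := by
  have hD := h.gd.ok
  have hK : 1 ≤ K := h.gd.C1
  have hq : 0 < q := h.gd.q0
  have hκ : 0 ≤ K * q ^ 78 := by positivity
  have hpne : ∀ p ∈ P, p ≠ 0 := fun p hp h0 => hP (h0 ▸ hp)
  have hn0 : (1:ℝ) ≤ n := by exact_mod_cast hn1
  rw [Eg_J_comb hD hδ hδ1 zero_le_one P (cth D n)]
  have hterm : ∀ p ∈ P, cth D n p ^ 2 * Eg (D.F δ 1) n (fun x => ‖Jk (D.du δ 1) p x‖ ^ 2)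
      ≤ 4 * n * D.uh p ^ 2 / (1 + 2 * n * D.uh p) + 2 * (D.uh p * D.eb (K * q ^ 78) N p) := by
    intro p hp
    have hp0 := hpne p hp
    have hu := hD.uh_nonneg p
    have he := eb_nonneg hD hκ N p
    have hk : 0 < ksq p := lt_of_lt_of_le zero_lt_one (ksq_ge_one hp0)
    have h1 := Eg_J_sq_le h hδ hδ1 zero_le_one le_rfl hn1 hn hp0
    have hA : (0:ℝ) < 1 + 2 * n * D.uh p := by positivity
    calc cth D n p ^ 2 * Eg (D.F δ 1) n (fun x => ‖Jk (D.du δ 1) p x‖ ^ 2)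
        ≤ cth D n p ^ 2 * (n * (ksq p ^ 2 * (1 + 2 * 1 * n * D.uh p + D.eb (K * q ^ 78) N p))) :=
          mul_le_mul_of_nonneg_left h1 (sq_nonneg _)
      _ = 4 * n * D.uh p ^ 2 / (1 + 2 * n * D.uh p)
          + (4 * n * D.uh p ^ 2 / (1 + 2 * n * D.uh p) ^ 2) * D.eb (K * q ^ 78) N p := by
          unfold cth
          field_simp
          ring
      _ ≤ 4 * n * D.uh p ^ 2 / (1 + 2 * n * D.uh p) + 2 * (D.uh p * D.eb (K * q ^ 78) N p) := by
          have h2 : 4 * n * D.uh p ^ 2 / (1 + 2 * n * D.uh p) ^ 2 ≤ 2 * D.uh p := by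
            rw [div_le_iff₀ (by positivity)]
            have h3 : 0 ≤ n * D.uh p := by positivity
            nlinarith [mul_nonneg hu h3, mul_nonneg hu (mul_nonneg h3 h3)]
          have h4 := mul_le_mul_of_nonneg_right h2 he
          linarith
  refine (Finset.sum_le_sum hterm).trans ?_
  rw [Finset.sum_add_distrib, ← Finset.mul_sum]
  obtain ⟨hs, hs'⟩ := eb_sum h
  have h5 := sum_le_tsum0 hs (fun p _ => mul_nonneg (hD.uh_nonneg p) (eb_nonneg hD hκ N p)) hP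
  linarith

end Pool.Agent.Lib.MP_4952d6_mp

end

/-! ### U.GP2 -/

section

set_option autoImplicit false
set_option linter.unusedSectionVars false
set_option linter.unusedVariables false
open MeasureTheory Function Filter Topology Set ComplexConjugate

namespace Pool.Agent.Lib.MP_4952d6_mp


/-! # GP2: lower bound for the second moment of the truncated field (U4.4), second part

`τ = 1`, `X = 2 Xg ul x 0`, `m = 2 n u_0`, `G = Tr s (X - m)`, `s = q^18`. `J_θ = ∑_{p∈P} c_p J_p`.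
1. `E|J_θ|² = ∑ c_p² E|J_p|² ≤ ∑ c_p² n |k|⁴ (1 + 2n uh + e) ≤ V^P + 2 E*` (`Eg_J_comb`, `Eg_J_sq_le`, `eb_sum`), `E* ≤ 120 K⁴ q^278`.
2. `ibp` for each `p` with `Φ = G` (real, `WD_chain`, `∂_{iα} X = 2 (∂_α ul)(-x_i)·(-1)`: `Xg ul x 0 = ∑ ul (0 - x_j) = ∑ ul (x_j)`):
   `E[Tr'(X-m) ∑_i κ(x_i)] = E[G J_θ]`.
3. `|E[Tr' ∑κ]| ≥ Re E ∑κ - E|1 - Tr'| |∑κ| ≥ V^P - √(9·4·Var(Xg)/s²) √(E|∑κ|²) ≥ V^P - 200 K³ q^238/s`
   (`kap_int`, `EgC_one`; `one_sub_Tr'_sq`; `varX`, `kap_second`; `√(36 K q^78 / s² · 500 K⁴ q^398) ≤ 200 K³ q^238 / s`).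
4. Cauchy-Schwarz: `(V^P - e)² ≤ E G² (V^P + e')`, so `E G² ≥ V^P - 2e - e'`.
Here `q^238/s = q^220`, so `2e + e' ≤ 400 K³ q^220 + 240 K⁴ q^278 ≤ 1000 K⁴ q^220`. Then `δ → 0`. -/

theorem GP2_arith {V e e' G A : ℝ} (he' : 0 ≤ e') (hV : 0 ≤ V) (hG : 0 ≤ G) (h1 : V - e ≤ A)
    (h2 : A ^ 2 ≤ G * (V + e')) : V - 2 * e - e' ≤ G := by
  by_cases hVe : V - e ≤ 0
  · linarith
  · push Not at hVe
    have h3 : (V - e) ^ 2 ≤ G * (V + e') :=
      (pow_le_pow_left₀ hVe.le h1 2).trans h2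
    by_contra hcon
    push Not at hcon
    rcases (add_nonneg hV he').eq_or_lt with h0 | h0
    · rw [← h0, mul_zero] at h3
      have : 0 < (V - e) ^ 2 := pow_pos hVe 2
      linarith
    · have h4 : G * (V + e') < (V - 2 * e - e') * (V + e') := mul_lt_mul_of_pos_right hcon h0
      nlinarith [sq_nonneg (e + e')]

theorem GP2_kap_sum {D : Dat} (hD : D.Ok) {δ : ℝ} (hδ : 0 < δ) (hδ1 : δ ≤ 1) {n : ℕ}
    (hZ : Zg (D.F δ 1) n ≠ 0) {P : Finset (Fin 3 → ℤ)} (hP : 0 ∉ P) :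
    EgC (D.F δ 1) n (fun x => ∑ i, kap D n P (x i))
      = ((∑ p ∈ P, 4 * n * D.uh p ^ 2 / (1 + 2 * n * D.uh p) : ℝ) : ℂ) := by
  have hF : GasFn lam3 (D.F δ 1) := F_gas hD hδ.le hδ1 zero_le_one
  obtain ⟨hm, hb⟩ := kap_meas hD n P
  have h1 := EgC_sum hF Finset.univ (n := n) (Φ := fun i x => kap D n P (x i))
    (fun i _ => hm.comp (measurable_pi_apply i)) (fun i _ => hb.imp fun C hC x => hC (x i))
  rw [h1]
  have h2 : ∀ i : Fin n, EgC (D.F δ 1) n (fun x => kap D n P (x i)) = ∫ z, kap D n P z ∂lam3 :=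
    fun i => EgC_one hF hZ hm hb i
  simp only [h2, Finset.sum_const, Finset.card_univ, Fintype.card_fin, nsmul_eq_mul]
  exact kap_int hD n hP

/-- Steps 3 and 4. -/
theorem G_lower_P {K q a : ℝ} {N : ℕ} {D : Dat} (h : GasOK K q a N D) {δ : ℝ} (hδ : 0 < δ)
    (hδ1 : δ ≤ 1) {n : ℕ} (hn1 : 1 ≤ n) (hn : n ≤ N) {P : Finset (Fin 3 → ℤ)} (hP : 0 ∉ P) :
    (∑ p ∈ P, 4 * n * D.uh p ^ 2 / (1 + 2 * n * D.uh p)) - 1000 * K ^ 4 * q ^ 220
      ≤ Eg (D.F δ 1) n (fun x => Tr (q ^ 18) (2 * Xg D.ul x 0 - 2 * n * D.uh 0) ^ 2) := by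
  have hD := h.gd.ok
  have hK : 1 ≤ K := h.gd.C1
  have hq : 0 < q := h.gd.q0
  have hq1 : q ≤ 1 := h.gd.q1.trans (by norm_num)
  have hs : 0 < q ^ 18 := by positivity
  have hF : GasFn lam3 (D.F δ 1) := F_gas hD hδ.le hδ1 zero_le_one
  have hZp : 0 < Zg (D.F δ 1) n := h.Zpos δ 1 hδ.le hδ1 zero_le_one le_rfl n (by omega)
  have hZ : Zg (D.F δ 1) n ≠ 0 := hZp.ne'
  set m : ℝ := 2 * n * D.uh 0 with hm
  set V : ℝ := ∑ p ∈ P, 4 * n * D.uh p ^ 2 / (1 + 2 * n * D.uh p) with hV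
  have hV0 : 0 ≤ V := Finset.sum_nonneg fun p _ => by
    have := hD.uh_nonneg p
    positivity
  have hG := GP1_G_bm hD hs m n
  have hG' := GP1_G'_bm hD hs m n
  obtain ⟨hkm, hkb⟩ := kap_meas hD n P
  -- the statistic
  have hSm : Measurable (fun x : Fin n → T3 => ∑ i, kap D n P (x i)) :=
    Finset.measurable_sum _ fun i _ => hkm.comp (measurable_pi_apply i)
  have hSb : ∃ C, ∀ x : Fin n → T3, ‖∑ i, kap D n P (x i)‖ ≤ C :=
    GP1_bound_sum _ fun i _ => hkb.imp fun C hC x => hC (x i)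
  have hS := GP2_kap_sum hD hδ hδ1 hZ hP
  -- step 3
  have h1G : BM (fun x : Fin n → T3 => 1 - Tr' (q ^ 18) (2 * Xg D.ul x 0 - m)) :=
    (BM.const 1).sub hG'
  have hcs1 := EgC_cs hF (n := n)
    (Φ := fun x => ((1 - Tr' (q ^ 18) (2 * Xg D.ul x 0 - m) : ℝ) : ℂ))
    (Ψ := fun x => ∑ i, kap D n P (x i)) (Complex.measurable_ofReal.comp h1G.meas)
    (GP1_bound_bm h1G) hSm hSb
  have hvar : Eg (D.F δ 1) n
      (fun x => ‖((1 - Tr' (q ^ 18) (2 * Xg D.ul x 0 - m) : ℝ) : ℂ)‖ ^ 2)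
      ≤ 36 * K * q ^ 78 / q ^ 36 := by
    have hX : BM (fun x : Fin n → T3 => (Xg D.ul x 0 - n * D.uh 0) ^ 2) :=
      ((Xg_bm hD n 0).sub (BM.const _)).pow 2
    have h2 : Eg (D.F δ 1) n
        (fun x => ‖((1 - Tr' (q ^ 18) (2 * Xg D.ul x 0 - m) : ℝ) : ℂ)‖ ^ 2)
        ≤ Eg (D.F δ 1) n (fun x => (36 / q ^ 36) * (Xg D.ul x 0 - n * D.uh 0) ^ 2) := by
      refine Eg_mono hF ?_ (hX.const_mul _) fun x => ?_
      · have e : (fun x : Fin n → T3 =>
            ‖((1 - Tr' (q ^ 18) (2 * Xg D.ul x 0 - m) : ℝ) : ℂ)‖ ^ 2)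
            = fun x => (1 - Tr' (q ^ 18) (2 * Xg D.ul x 0 - m)) ^ 2 := by
          funext x
          rw [Complex.norm_real, Real.norm_eq_abs, sq_abs]
        rw [e]
        exact h1G.pow 2
      · rw [Complex.norm_real, Real.norm_eq_abs, sq_abs]
        refine (one_sub_Tr'_sq hs _).trans (le_of_eq ?_)
        rw [hm]
        field_simp
        ring
    rw [Eg_const_mul] at h2
    have h3 := h.varX δ 1 hδ.le hδ1 zero_le_one le_rfl n hn
    refine h2.trans ((mul_le_mul_of_nonneg_left h3 (by positivity)).trans (le_of_eq ?_))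
    ring
  have hkap := kap_second h hδ.le hδ1 zero_le_one le_rfl (m := n) hn hP
  have herr : ‖EgC (D.F δ 1) n (fun x => ((1 - Tr' (q ^ 18) (2 * Xg D.ul x 0 - m) : ℝ) : ℂ)
      * ∑ i, kap D n P (x i))‖ ≤ 200 * K ^ 3 * q ^ 220 := by
    refine (pow_le_pow_iff_left₀ (norm_nonneg _) (by positivity) two_ne_zero).1 ?_
    refine hcs1.trans ?_
    calc _ ≤ (36 * K * q ^ 78 / q ^ 36) * (500 * K ^ 4 * q ^ 398) :=
          mul_le_mul hvar hkap (Eg_nonneg hF fun x => sq_nonneg _) (by positivity)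
      _ = 18000 * K ^ 5 * q ^ 440 := by field_simp; ring
      _ ≤ (200 * K ^ 3 * q ^ 220) ^ 2 := by
          have h5 : K ^ 5 ≤ K ^ 6 := pow_le_pow_right₀ hK (by norm_num)
          have h6 : (200 * K ^ 3 * q ^ 220) ^ 2 = 40000 * K ^ 6 * q ^ 440 := by ring
          rw [h6]
          have h7 : 18000 * K ^ 5 ≤ 40000 * K ^ 6 := by
            have : 0 ≤ K ^ 5 := by positivity
            linarith
          exact mul_le_mul_of_nonneg_right h7 (by positivity)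
  have hsplit : EgC (D.F δ 1) n (fun x => (Tr' (q ^ 18) (2 * Xg D.ul x 0 - m) : ℂ)
        * ∑ i, kap D n P (x i))
      = (V : ℂ) - EgC (D.F δ 1) n
        (fun x => ((1 - Tr' (q ^ 18) (2 * Xg D.ul x 0 - m) : ℝ) : ℂ)
          * ∑ i, kap D n P (x i)) := by
    have h8 := EgC_add hF (n := n)
      (Φ := fun x => (Tr' (q ^ 18) (2 * Xg D.ul x 0 - m) : ℂ) * ∑ i, kap D n P (x i))
      (Ψ := fun x => ((1 - Tr' (q ^ 18) (2 * Xg D.ul x 0 - m) : ℝ) : ℂ) * ∑ i, kap D n P (x i))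
      ((Complex.measurable_ofReal.comp hG'.meas).mul hSm)
      (GP1_bound_mul (GP1_bound_bm hG') hSb)
      ((Complex.measurable_ofReal.comp h1G.meas).mul hSm)
      (GP1_bound_mul (GP1_bound_bm h1G) hSb)
    have e : (fun x : Fin n → T3 => (Tr' (q ^ 18) (2 * Xg D.ul x 0 - m) : ℂ)
          * ∑ i, kap D n P (x i)
        + ((1 - Tr' (q ^ 18) (2 * Xg D.ul x 0 - m) : ℝ) : ℂ) * ∑ i, kap D n P (x i))
        = fun x => ∑ i, kap D n P (x i) := by
      funext x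
      push_cast
      ring
    rw [e, hS] at h8
    rw [h8]
    ring
  have hlow : V - 200 * K ^ 3 * q ^ 220 ≤ ‖EgC (D.F δ 1) n
      (fun x => (Tr' (q ^ 18) (2 * Xg D.ul x 0 - m) : ℂ) * ∑ i, kap D n P (x i))‖ := by
    rw [hsplit]
    have h9 := norm_sub_norm_le (V : ℂ) (EgC (D.F δ 1) n
        (fun x => ((1 - Tr' (q ^ 18) (2 * Xg D.ul x 0 - m) : ℝ) : ℂ)
          * ∑ i, kap D n P (x i)))
    rw [Complex.norm_real, Real.norm_of_nonneg hV0] at h9
    linarith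
  -- step 4
  have hJm : Measurable (fun x : Fin n → T3 => ∑ p ∈ P, (cth D n p : ℂ) * Jk (D.du δ 1) p x) :=
    Finset.measurable_sum _ fun p _ => (Jk_meas hD hδ hδ1 n p).1.const_mul _
  have hJb : ∃ C, ∀ x : Fin n → T3, ‖∑ p ∈ P, (cth D n p : ℂ) * Jk (D.du δ 1) p x‖ ≤ C :=
    GP1_bound_sum _ fun p _ => GP1_bound_mul (GP1_bound_const _) (Jk_meas hD hδ hδ1 n p).2
  have hcs2 := EgC_cs hF (n := n)
    (Φ := fun x => ((Tr (q ^ 18) (2 * Xg D.ul x 0 - m) : ℝ) : ℂ))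
    (Ψ := fun x => ∑ p ∈ P, (cth D n p : ℂ) * Jk (D.du δ 1) p x)
    (Complex.measurable_ofReal.comp hG.meas) (GP1_bound_bm hG) hJm hJb
  rw [← ibp_theta hD hδ hδ1 hZ hs m P] at hcs2
  have eG : (fun x : Fin n → T3 => ‖((Tr (q ^ 18) (2 * Xg D.ul x 0 - m) : ℝ) : ℂ)‖ ^ 2)
      = fun x => Tr (q ^ 18) (2 * Xg D.ul x 0 - m) ^ 2 := by
    funext x
    rw [Complex.norm_real, Real.norm_eq_abs, sq_abs]
  rw [eG] at hcs2
  have hG0 : 0 ≤ Eg (D.F δ 1) n (fun x => Tr (q ^ 18) (2 * Xg D.ul x 0 - m) ^ 2) :=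
    Eg_nonneg hF fun x => sq_nonneg _
  have hJ := J_theta_sq h hδ hδ1 hn1 hn hP
  have hfin := GP2_arith (V := V) (e := 200 * K ^ 3 * q ^ 220) (e' := 240 * K ^ 4 * q ^ 278)
    (by positivity) hV0 hG0 hlow (hcs2.trans (mul_le_mul_of_nonneg_left hJ hG0))
  have h10 : K ^ 3 * q ^ 220 ≤ K ^ 4 * q ^ 220 :=
    mul_le_mul_of_nonneg_right (pow_le_pow_right₀ hK (by norm_num)) (by positivity)
  have h11 : K ^ 4 * q ^ 278 ≤ K ^ 4 * q ^ 220 :=
    mul_le_mul_of_nonneg_left (pow_le_pow_of_le_one hq.le hq1 (by norm_num)) (by positivity)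
  have h12 : 0 ≤ K ^ 4 * q ^ 220 := by positivity
  nlinarith

/-- `(U4.4)`. -/
theorem G_lower {K q a : ℝ} {N : ℕ} {D : Dat} (h : GasOK K q a N D) {n : ℕ} (hn : n ≤ N) :
    D.Vn n - 1000 * K ^ 4 * q ^ 220
      ≤ Eg (D.F 0 1) n (fun x => Tr (q ^ 18) (2 * Xg D.ul x 0 - 2 * n * D.uh 0) ^ 2) := by
  have hD := h.gd.ok
  have hK : 1 ≤ K := h.gd.C1
  have hq : 0 < q := h.gd.q0
  have hs : 0 < q ^ 18 := by positivity
  have hF : GasFn lam3 (D.F 0 1) := F_gas hD le_rfl zero_le_one zero_le_one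
  have hE : 0 ≤ 1000 * K ^ 4 * q ^ 220 := by positivity
  rcases Nat.eq_zero_or_pos n with hn0 | hn1
  · subst hn0
    have h1 : D.Vn 0 = 0 := by
      unfold Dat.Vn
      simp [tsum0]
    rw [h1]
    have h2 : 0 ≤ Eg (D.F 0 1) 0
      (fun x => Tr (q ^ 18) (2 * Xg D.ul x 0 - 2 * (0 : ℕ) * D.uh 0) ^ 2) :=
      Eg_nonneg hF fun x => sq_nonneg _
    linarith
  · have hZp : 0 < Zg (D.F 0 1) n := h.Zpos 0 1 le_rfl zero_le_one zero_le_one le_rfl n (by omega)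
    have hΦ : BM (fun x : Fin n → T3 =>
        Tr (q ^ 18) (2 * Xg D.ul x 0 - 2 * n * D.uh 0) ^ 2) := (GP1_G_bm hD hs _ n).pow 2
    have hlim := Eg_delta_tendsto hD zero_le_one hZp hΦ
    have key : tsum0 (fun p => 4 * n * D.uh p ^ 2 / (1 + 2 * n * D.uh p))
        ≤ Eg (D.F 0 1) n (fun x => Tr (q ^ 18) (2 * Xg D.ul x 0 - 2 * n * D.uh 0) ^ 2)
          + 1000 * K ^ 4 * q ^ 220 := by
      refine tsum0_le_of_forall (fun p _ => ?_) fun P hP => ?_
      · have := hD.uh_nonneg p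
        positivity
      · have h3 : (∑ p ∈ P, 4 * n * D.uh p ^ 2 / (1 + 2 * n * D.uh p)) - 1000 * K ^ 4 * q ^ 220
            ≤ Eg (D.F 0 1) n (fun x => Tr (q ^ 18) (2 * Xg D.ul x 0 - 2 * n * D.uh 0) ^ 2) := by
          refine ge_of_tendsto hlim ?_
          filter_upwards [Ioc_mem_nhdsGT (zero_lt_one (α := ℝ))] with δ hδ
          exact G_lower_P h hδ.1 hδ.2 hn1 hn hP
        linarith
    unfold Dat.Vn
    linarith

end Pool.Agent.Lib.MP_4952d6_mp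

end

/-! ### U.GT -/

section

set_option autoImplicit false
set_option linter.unusedSectionVars false
set_option linter.unusedVariables false
open MeasureTheory Function Filter Topology Set

namespace Pool.Agent.Lib.MP_4952d6_mp


/-! # GT: lower bound for the partition function (U5.2)

`ln Z_n = ∑_{k<n} ln r_k` (`Zg_succ`). `r_k = ⟨A⟩ ≥ ⟨exp(-X)⟩ - k I_c`, `X = 2 Xg ul x 0` (as in `rg_ge`), and
`exp(-X) = e^{-m} exp(-(X-m)) ≥ e^{-m} (1 - (X-m) + (1/2)(1-s) Tr s (X-m)²)`, `m = 2 k u_0 = ⟨X⟩`, `s = q^18` (`exp_ge_Tr`), so by `G_lower`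
`r_k ≥ e^{-m} (1 + (1/2)(1-s)(V_k - 1000 K⁴ q^220)) - k I_c`, i.e. `r_k e^m ≥ 1 + z`, `z = (1/2)(1-s)(V_k - 1000 K⁴ q^220) - e^{2K} k I_c`.
`0 ≤ V_k ≤ 4 N ∑ uh² ≤ 4 K q^200`, `k I_c ≤ K q^240`, `e^{2K} q^22 ≤ 1`? (not available) - hence the hypothesis `hK : exp (2K) q^20 ≤ 1`
below. `ln (1+z) ≥ z - z²`, `|z| ≤ 10 K⁴ q^200`, so `ln r_k ≥ -m + V_k/2 - 5000 K^8 q^218`. -/

theorem GT_term_nonneg {D : Dat} (hD : D.Ok) (n : ℕ) (p : Fin 3 → ℤ) :
    0 ≤ 4 * n * D.uh p ^ 2 / (1 + 2 * n * D.uh p) := by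
  have := hD.uh_nonneg p
  positivity

theorem GT_term_le {D : Dat} (hD : D.Ok) (n : ℕ) (p : Fin 3 → ℤ) :
    4 * n * D.uh p ^ 2 / (1 + 2 * n * D.uh p) ≤ 4 * n * D.uh p ^ 2 := by
  have := hD.uh_nonneg p
  refine div_le_self (by positivity) ?_
  have : (0:ℝ) ≤ 2 * n * D.uh p := by positivity
  linarith

theorem Vn_bounds {K q a : ℝ} {N : ℕ} {D : Dat} (h : GasOK K q a N D) {n : ℕ} (hn : n ≤ N) :
    sm0 (fun p => 4 * n * D.uh p ^ 2 / (1 + 2 * n * D.uh p)) ∧ 0 ≤ D.Vn n ∧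
      D.Vn n ≤ 4 * K * q ^ 200 := by
  have hD := h.gd.ok
  have hs := uh_sq_summable hD
  have s0 : sm0 (fun p => D.uh p ^ 2) := sm0_of_summable hs
  have s1 : sm0 (fun p => 4 * n * D.uh p ^ 2 / (1 + 2 * n * D.uh p)) := by
    refine sm0_of (hs.mul_left (4 * (n:ℝ))) fun p _ => ?_
    rw [abs_of_nonneg (GT_term_nonneg hD n p)]
    exact GT_term_le hD n p
  refine ⟨s1, tsum0_nonneg fun p _ => GT_term_nonneg hD n p, ?_⟩
  have h1 : D.Vn n ≤ tsum0 (fun p => 4 * n * D.uh p ^ 2) :=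
    tsum0_mono s1 (s0.const_mul (4 * (n:ℝ))) fun p _ => GT_term_le hD n p
  rw [tsum0_const_mul] at h1
  have h2 : tsum0 (fun p => D.uh p ^ 2) ≤ ∑' p, D.uh p ^ 2 := tsum0_le_tsum hs (sq_nonneg _)
  have h3 : (0:ℝ) ≤ ∑' p, D.uh p ^ 2 := tsum_nonneg fun p => sq_nonneg _
  have h4 : (n:ℝ) ≤ N := Nat.cast_le.2 hn
  have h5 := h.gd.uh_sq
  have h6 : 4 * (n:ℝ) * tsum0 (fun p => D.uh p ^ 2) ≤ 4 * (N * ∑' p, D.uh p ^ 2) := by
    calc 4 * (n:ℝ) * tsum0 (fun p => D.uh p ^ 2) ≤ 4 * (n:ℝ) * ∑' p, D.uh p ^ 2 := by gcongr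
      _ ≤ 4 * (N:ℝ) * ∑' p, D.uh p ^ 2 := by gcongr
      _ = 4 * (N * ∑' p, D.uh p ^ 2) := by ring
  linarith

/-! ### One particle -/

theorem GT_slice {κ : Type*} [MeasurableSpace κ] {f : κ → T3 → ℝ}
    (h : BM (fun p : κ × T3 => f p.1 p.2)) (y : T3) : BM (fun x : κ => f x y) := by
  have mx : Measurable fun x : κ => (x, y) := measurable_id.prodMk measurable_const
  exact ⟨h.meas.comp mx, h.bdd.imp fun C hC x => hC (x, y)⟩

theorem GT_Tr_bm {n : ℕ} {s : ℝ} (hs : 0 < s) {X : (Fin n → T3) → ℝ} (hX : BM X) :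
    BM (fun x => Tr s (X x)) := by
  have hc : Continuous (Tr s) := continuous_iff_continuousAt.2 fun y => (Tr_hasDerivAt hs y).continuousAt
  exact ⟨hc.measurable.comp hX.meas, s / 2, fun x => abs_Tr_le' hs _⟩

theorem GT_Xg_nonneg {g : T3 → ℝ} (hg : ∀ z, 0 ≤ g z) {n : ℕ} (x : Fin n → T3) (y : T3) :
    0 ≤ Xg g x y := Finset.sum_nonneg fun j _ => hg _

theorem GT_Xg_bm {g : T3 → ℝ} (hg : BM g) (n : ℕ) (y : T3) :
    BM (fun x : Fin n → T3 => Xg g x y) := by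
  refine BM.finset_sum _ fun j _ => hg.comp ?_
  exact (continuous_const.sub (continuous_apply j)).measurable

theorem GT_point {D : Dat} (hD : D.Ok) {n : ℕ} {s : ℝ} (hs : 0 < s) (hs1 : s ≤ 1) (m : ℝ)
    (x : Fin n → T3) :
    Real.exp (-m) * ((1 + m) - 2 * Xg D.ul x 0 + 1 / 2 * (1 - s) * Tr s (2 * Xg D.ul x 0 - m) ^ 2)
        - Xg (fun z => 1 - D.Fc z) x 0
      ≤ Ag (D.F 0 1) x 0 := by
  rw [Ag_F hD 0 1 x 0]
  obtain ⟨h1, h2⟩ := one_sub_Ag_Fr hD le_rfl zero_le_one x 0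
  have h3 : 0 ≤ Xg D.ul x 0 := GT_Xg_nonneg hD.ul_nonneg x 0
  have h4 : Real.exp (-(2 * 1 * Xg D.ul x 0)) ≤ 1 := by
    rw [Real.exp_le_one_iff]
    linarith
  have h5 : Real.exp (-(2 * 1 * Xg D.ul x 0)) = Real.exp (-m) * Real.exp (-(2 * Xg D.ul x 0 - m)) := by
    rw [← Real.exp_add]
    congr 1
    ring
  have h6 := exp_ge_Tr hs hs1 (2 * Xg D.ul x 0 - m)
  have h7 := mul_le_mul_of_nonneg_left h6 (Real.exp_pos (-m)).le
  rw [← h5] at h7
  have h8 : (1 - Ag (D.Fr 0) x 0) * Real.exp (-(2 * 1 * Xg D.ul x 0)) ≤ 1 - Ag (D.Fr 0) x 0 :=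
    mul_le_of_le_one_right h1 h4
  have e : Ag (D.Fr 0) x 0 * Real.exp (-(2 * 1 * Xg D.ul x 0))
      = Real.exp (-(2 * 1 * Xg D.ul x 0))
        - (1 - Ag (D.Fr 0) x 0) * Real.exp (-(2 * 1 * Xg D.ul x 0)) := by ring
  rw [e]
  have e2 : Real.exp (-m) * ((1 + m) - 2 * Xg D.ul x 0
        + 1 / 2 * (1 - s) * Tr s (2 * Xg D.ul x 0 - m) ^ 2)
      = Real.exp (-m) * (1 - (2 * Xg D.ul x 0 - m)
        + 1 / 2 * (1 - s) * Tr s (2 * Xg D.ul x 0 - m) ^ 2) := by ring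
  rw [e2]
  exact sub_le_sub h7 (h8.trans h2)

theorem GT_rg {K q a : ℝ} {N : ℕ} {D : Dat} (h : GasOK K q a N D) {k : ℕ} (hk : k ≤ N) {s : ℝ}
    (hs : 0 < s) (hs1 : s ≤ 1) :
    Real.exp (-(2 * k * D.uh 0)) * (1 + 1 / 2 * (1 - s)
        * Eg (D.F 0 1) k (fun x => Tr s (2 * Xg D.ul x 0 - 2 * k * D.uh 0) ^ 2))
        - k * ∫ z, (1 - D.Fc z) ∂lam3
      ≤ rg (D.F 0 1) k := by
  have hD := h.gd.ok
  have hF : GasFn lam3 (D.F 0 1) := F_gas hD le_rfl zero_le_one zero_le_one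
  have hZ : Zg (D.F 0 1) k ≠ 0 := (h.Zpos 0 1 le_rfl zero_le_one zero_le_one le_rfl k (by omega)).ne'
  have bX : BM (fun x : Fin k → T3 => Xg D.ul x 0) := GT_Xg_bm (ul_bm hD) k 0
  have bFc : BM D.Fc := ⟨(hD.Fc_WD 0).sm.measurable, (hD.Fc_WD 0).bdd⟩
  have b1 : BM (fun z => 1 - D.Fc z) := (BM.const 1).sub bFc
  have bY : BM (fun x : Fin k → T3 => Xg (fun z => 1 - D.Fc z) x 0) := GT_Xg_bm b1 k 0
  obtain ⟨m, hm⟩ : ∃ m : ℝ, m = 2 * k * D.uh 0 := ⟨_, rfl⟩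
  have bT : BM (fun x : Fin k → T3 => Tr s (2 * Xg D.ul x 0 - m) ^ 2) :=
    (GT_Tr_bm hs ((bX.const_mul 2).sub (BM.const m))).pow 2
  have bA : BM (fun x : Fin k → T3 => Ag (D.F 0 1) x 0) := GT_slice (Ag_bm hF k) 0
  have b2 : BM (fun x : Fin k → T3 => (1 + m) - 2 * Xg D.ul x 0) := (BM.const _).sub (bX.const_mul 2)
  have b3 : BM (fun x : Fin k → T3 => 1 / 2 * (1 - s) * Tr s (2 * Xg D.ul x 0 - m) ^ 2) :=
    bT.const_mul _
  have h1 := Eg_mono hF (((b2.add b3).const_mul (Real.exp (-m))).sub bY) bA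
    (fun x => GT_point hD hs hs1 m x)
  rw [Eg_sub hF ((b2.add b3).const_mul (Real.exp (-m))) bY, Eg_const_mul, Eg_add hF b2 b3,
    Eg_sub hF (BM.const _) (bX.const_mul 2), Eg_const hZ, Eg_const_mul, Eg_const_mul,
    Eg_Xg hF hZ (ul_bm hD), ul_int hD, Eg_Xg hF hZ b1] at h1
  have e : (1 + m) - 2 * (k * D.uh 0) = 1 := by rw [hm]; ring
  rw [e] at h1
  rw [← hm]
  exact h1

theorem GT_arith {K q V z : ℝ} (hK : 1 ≤ K) (hq : 0 < q) (hq3 : q ≤ 1 / 1000)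
    (hKq : K ^ 4 * q ≤ 1 / 1000) (hV0 : 0 ≤ V) (hV : V ≤ 4 * K * q ^ 200)
    (hz : z = 1 / 2 * (1 - q ^ 18) * V - 501 * K ^ 4 * q ^ 220) :
    1 / 2 * V - 5000 * K ^ 8 * q ^ 218 ≤ Real.log (1 + z) := by
  have hK0 : 0 < K := by linarith
  have q1 : q ≤ 1 := by linarith
  have hp18 : q ^ 18 ≤ 1 := pow_le_one₀ hq.le q1
  have hp180 : 0 ≤ q ^ 18 := by positivity
  have hK4 : K ≤ K ^ 4 := le_self_pow₀ hK (by norm_num)
  have hK48 : K ^ 4 ≤ K ^ 8 := pow_le_pow_right₀ hK (by norm_num)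
  have e220 : K ^ 4 * q ^ 220 = (K ^ 4 * q) * q ^ 219 := by ring
  have h219 : q ^ 219 ≤ 1 := pow_le_one₀ hq.le q1
  have h2190 : 0 ≤ q ^ 219 := by positivity
  have hsmall : K ^ 4 * q ^ 220 ≤ 1 / 1000 := by
    rw [e220]
    calc K ^ 4 * q * q ^ 219 ≤ 1 / 1000 * 1 := by gcongr
      _ = 1 / 1000 := by norm_num
  have hVs : 0 ≤ (1 - q ^ 18) * V := mul_nonneg (by linarith) hV0
  have hz1 : -(1 / 2) ≤ z - 1 / 1000 * 2 := by
    rw [hz]
    have : 501 * (K ^ 4 * q ^ 220) ≤ 501 * (1 / 1000) := by linarith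
    -- `501/1000` exceeds `1/2`: use the sharper bound
    have h2 : K ^ 4 * q ^ 220 ≤ 1 / 1000 * q := by
      rw [e220]
      have h3 : q ^ 219 ≤ q := by
        calc q ^ 219 ≤ q ^ 1 := pow_le_pow_of_le_one hq.le q1 (by norm_num)
          _ = q := pow_one q
      gcongr
    nlinarith
  have hl := log_one_add_ge (z := z) (by linarith)
  -- the square
  have hzu : z ≤ 2 * K ^ 4 * q ^ 200 := by
    rw [hz]
    have h1 : (1 - q ^ 18) * V ≤ V := by nlinarith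
    have h2 : V ≤ 4 * K ^ 4 * q ^ 200 := hV.trans (by gcongr)
    have h3 : 0 ≤ K ^ 4 * q ^ 220 := by positivity
    linarith
  have h200 : q ^ 220 ≤ q ^ 200 := pow_le_pow_of_le_one hq.le q1 (by norm_num)
  have hzl : -(501 * K ^ 4 * q ^ 200) ≤ z := by
    rw [hz]
    have h1 : 501 * K ^ 4 * q ^ 220 ≤ 501 * K ^ 4 * q ^ 200 := by gcongr
    linarith
  have hsq : z ^ 2 ≤ (501 * K ^ 4 * q ^ 200) ^ 2 := by
    refine sq_le_sq' hzl (hzu.trans ?_)
    gcongr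
    norm_num
  have hsq2 : (501 * K ^ 4 * q ^ 200) ^ 2 ≤ 1 * (K ^ 8 * q ^ 218) := by
    have e : (501 * K ^ 4 * q ^ 200) ^ 2 = 251001 * q ^ 182 * (K ^ 8 * q ^ 218) := by ring
    rw [e]
    have h1 : q ^ 182 ≤ (1 / 1000) ^ 182 := pow_le_pow_left₀ hq.le hq3 182
    have h2 : 251001 * q ^ 182 ≤ 1 := by
      calc 251001 * q ^ 182 ≤ 251001 * (1 / 1000) ^ 182 := by gcongr
        _ ≤ 1 := by norm_num
    have h3 : 0 ≤ K ^ 8 * q ^ 218 := by positivity
    exact mul_le_mul_of_nonneg_right h2 h3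
  have hV18 : q ^ 18 * V ≤ 4 * (K ^ 8 * q ^ 218) := by
    calc q ^ 18 * V ≤ q ^ 18 * (4 * K * q ^ 200) := by gcongr
      _ = 4 * (K * q ^ 218) := by ring
      _ ≤ 4 * (K ^ 8 * q ^ 218) := by
        have : K ≤ K ^ 8 := hK4.trans hK48
        gcongr
  have h220 : K ^ 4 * q ^ 220 ≤ K ^ 8 * q ^ 218 := by
    have h1 : q ^ 220 ≤ q ^ 218 := pow_le_pow_of_le_one hq.le q1 (by norm_num)
    gcongr
  have hpos : 0 ≤ K ^ 8 * q ^ 218 := by positivity
  rw [hz] at hl ⊢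
  rw [hz] at hsq
  nlinarith

theorem log_rg_ge {K q a : ℝ} {N : ℕ} {D : Dat} (h : GasOK K q a N D)
    (hK : Real.exp (2 * K) * q ^ 20 ≤ 1) {k : ℕ} (hk : k ≤ N) :
    -(2 * k * D.uh 0) + 1 / 2 * D.Vn k - 5000 * K ^ 8 * q ^ 218
      ≤ Real.log (rg (D.F 0 1) k) := by
  have hD := h.gd.ok
  have hq := h.gd.q0
  have hK1 := h.gd.C1
  have hK0 : 0 < K := by linarith
  have hK20 : 1 ≤ K ^ 20 := one_le_pow₀ hK1
  have hq3 : q ≤ 1 / 1000 := by
    have := h.small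
    nlinarith
  have hKq : K ^ 4 * q ≤ 1 / 1000 := by
    have h1 : K ^ 4 ≤ K ^ 20 := pow_le_pow_right₀ hK1 (by norm_num)
    have := h.small
    nlinarith
  have q1 : q ≤ 1 := by linarith
  have hs : 0 < q ^ 18 := by positivity
  have hs1 : q ^ 18 ≤ 1 := pow_le_one₀ hq.le q1
  have h1 := GT_rg h hk hs hs1
  have h2 := G_lower h hk
  obtain ⟨-, hV0, hV⟩ := Vn_bounds h hk
  obtain ⟨m, hm⟩ : ∃ m : ℝ, m = 2 * k * D.uh 0 := ⟨_, rfl⟩
  obtain ⟨T, hT⟩ : ∃ T : ℝ, T = Eg (D.F 0 1) k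
    (fun x => Tr (q ^ 18) (2 * Xg D.ul x 0 - 2 * k * D.uh 0) ^ 2) := ⟨_, rfl⟩
  rw [← hT] at h1 h2
  rw [← hm] at h1 ⊢
  have hkN : (k:ℝ) ≤ N := Nat.cast_le.2 hk
  have hI0 : 0 ≤ ∫ z, (1 - D.Fc z) ∂lam3 := integral_nonneg fun z => sub_nonneg.2 (hD.Fc_le z)
  have hI : (k:ℝ) * ∫ z, (1 - D.Fc z) ∂lam3 ≤ K * q ^ 240 := by
    refine le_trans ?_ h.gd.Ic
    gcongr
  have hm2 : m ≤ 2 * K := by
    rw [hm]
    have h3 := h.gd.uh0
    have h4 : (k:ℝ) * D.uh 0 ≤ N * D.uh 0 := mul_le_mul_of_nonneg_right hkN (hD.uh_nonneg 0)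
    linarith
  have hem : Real.exp m * q ^ 20 ≤ 1 := by
    refine le_trans ?_ hK
    have := Real.exp_le_exp.2 hm2
    gcongr
  have hrpos : 0 < rg (D.F 0 1) k := by
    have := h.rge 0 1 le_rfl zero_le_one zero_le_one le_rfl k hk
    exact lt_of_lt_of_le (by positivity) this
  obtain ⟨z, hz⟩ : ∃ z : ℝ, z = 1 / 2 * (1 - q ^ 18) * D.Vn k - 501 * K ^ 4 * q ^ 220 := ⟨_, rfl⟩
  have har := GT_arith hK1 hq hq3 hKq hV0 hV hz
  -- `1 + z ≤ exp m * r`
  have key : 1 + z ≤ Real.exp m * rg (D.F 0 1) k := by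
    have h5 := mul_le_mul_of_nonneg_left h1 (Real.exp_pos m).le
    have e1 : Real.exp m * Real.exp (-m) = 1 := by rw [← Real.exp_add, add_neg_cancel, Real.exp_zero]
    have e2 : Real.exp m * (Real.exp (-m) * (1 + 1 / 2 * (1 - q ^ 18) * T)
        - k * ∫ z, (1 - D.Fc z) ∂lam3)
        = (1 + 1 / 2 * (1 - q ^ 18) * T) - Real.exp m * (k * ∫ z, (1 - D.Fc z) ∂lam3) := by
      rw [mul_sub, ← mul_assoc, e1, one_mul]
    rw [e2] at h5
    have h6 : Real.exp m * (k * ∫ z, (1 - D.Fc z) ∂lam3) ≤ K * q ^ 220 := by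
      calc Real.exp m * (k * ∫ z, (1 - D.Fc z) ∂lam3) ≤ Real.exp m * (K * q ^ 240) := by gcongr
        _ = (Real.exp m * q ^ 20) * (K * q ^ 220) := by ring
        _ ≤ 1 * (K * q ^ 220) := by gcongr
        _ = K * q ^ 220 := one_mul _
    have h7 : (1 - q ^ 18) * (D.Vn k - 1000 * K ^ 4 * q ^ 220) ≤ (1 - q ^ 18) * T :=
      mul_le_mul_of_nonneg_left h2 (by linarith)
    have h8 : 0 ≤ q ^ 18 * (K ^ 4 * q ^ 220) := by positivity
    have h9 : K * q ^ 220 ≤ K ^ 4 * q ^ 220 := by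
      have : K ≤ K ^ 4 := le_self_pow₀ hK1 (by norm_num)
      gcongr
    rw [hz]
    nlinarith
  have hz1 : 0 < 1 + z := by
    rw [hz]
    have h10 : 0 ≤ (1 - q ^ 18) * D.Vn k := mul_nonneg (by linarith) hV0
    have h11 : K ^ 4 * q ^ 220 ≤ 1 / 1000 := by
      have e : K ^ 4 * q ^ 220 = (K ^ 4 * q) * q ^ 219 := by ring
      rw [e]
      have h219 : q ^ 219 ≤ 1 := pow_le_one₀ hq.le q1
      calc K ^ 4 * q * q ^ 219 ≤ 1 / 1000 * 1 := by gcongr
        _ = 1 / 1000 := by norm_num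
    linarith
  have h12 := Real.log_le_log hz1 key
  rw [Real.log_mul (Real.exp_pos m).ne' hrpos.ne', Real.log_exp] at h12
  linarith

/-! ### Sums -/

theorem GT_sum {f : ℕ → (Fin 3 → ℤ) → ℝ} (hf : ∀ k, sm0 (f k)) (n : ℕ) :
    sm0 (fun p => ∑ k ∈ Finset.range n, f k p) ∧
      tsum0 (fun p => ∑ k ∈ Finset.range n, f k p) = ∑ k ∈ Finset.range n, tsum0 (f k) := by
  induction n with
  | zero =>
    simp only [Finset.range_zero, Finset.sum_empty]
    constructor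
    · unfold sm0
      simp only [ite_self]
      exact summable_zero
    · unfold tsum0
      simp only [ite_self]
      exact tsum_zero
  | succ n ih =>
    simp only [Finset.sum_range_succ]
    exact ⟨ih.1.add (hf n), by rw [tsum0_add ih.1 (hf n), ih.2]⟩

theorem GT_gf_sm0 {D : Dat} (hD : D.Ok) {c : ℝ} (hc : 0 ≤ c) :
    sm0 (fun p => gf (c * D.uh p)) := by
  refine sm0_of (hD.uh_summable.mul_left c) fun p _ => ?_
  have h0 := hD.uh_nonneg p
  have hx : 0 ≤ c * D.uh p := mul_nonneg hc h0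
  rw [abs_of_nonneg (gf_nonneg hx)]
  unfold gf
  have h := Real.log_nonneg (show (1:ℝ) ≤ 1 + c * D.uh p by linarith)
  linarith

/-- `∑_{k<n} V_k ≥ ∑_p gf (2 n uh) - V_n` (`gf_sum`). -/
theorem sum_Vn {K q a : ℝ} {N : ℕ} {D : Dat} (h : GasOK K q a N D) {n : ℕ} (hn : n ≤ N) :
    tsum0 (fun p => gf (2 * n * D.uh p)) - D.Vn n ≤ ∑ k ∈ Finset.range n, D.Vn k := by
  have hD := h.gd.ok
  have hs : ∀ k : ℕ, sm0 (fun p => 4 * k * D.uh p ^ 2 / (1 + 2 * k * D.uh p)) := by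
    intro k
    refine sm0_of ((uh_sq_summable hD).mul_left (4 * (k:ℝ))) fun p _ => ?_
    rw [abs_of_nonneg (GT_term_nonneg hD k p)]
    exact GT_term_le hD k p
  obtain ⟨s1, e1⟩ := GT_sum hs n
  have s2 : sm0 (fun p => gf (2 * n * D.uh p)) := GT_gf_sm0 hD (by positivity)
  have e2 : ∑ k ∈ Finset.range n, D.Vn k
      = tsum0 (fun p => ∑ k ∈ Finset.range n, 4 * k * D.uh p ^ 2 / (1 + 2 * k * D.uh p)) := e1.symm
  rw [e2]
  unfold Dat.Vn
  rw [← tsum0_sub s2 (hs n)]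
  exact tsum0_mono (s2.sub (hs n)) s1 fun p _ => gf_sum (hD.uh_nonneg p) n

theorem GT_log_Z {K q a : ℝ} {N : ℕ} {D : Dat} (h : GasOK K q a N D) :
    ∀ n : ℕ, n ≤ N →
      Real.log (Zg (D.F 0 1) n) = ∑ k ∈ Finset.range n, Real.log (rg (D.F 0 1) k) := by
  have hF : GasFn lam3 (D.F 0 1) := F_gas h.gd.ok le_rfl zero_le_one zero_le_one
  have hK0 : 0 < K := lt_of_lt_of_le zero_lt_one h.gd.C1
  intro n
  induction n with
  | zero =>
    intro _
    rw [Zg_zero, Real.log_one, Finset.range_zero, Finset.sum_empty]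
  | succ n ih =>
    intro hn
    have hZ := h.Zpos 0 1 le_rfl zero_le_one zero_le_one le_rfl n (by omega)
    have hr : 0 < rg (D.F 0 1) n :=
      lt_of_lt_of_le (by positivity) (h.rge 0 1 le_rfl zero_le_one zero_le_one le_rfl n (by omega))
    rw [Zg_succ hF hZ, Real.log_mul hr.ne' hZ.ne', Finset.sum_range_succ, ih (by omega)]
    ring

/-- `(U5.2)`. The error `V_n/2 ≤ 2 K q^200` is at most `K N q^218` as `N q^400 ≥ 4`. -/
theorem logZ_lower {K q a : ℝ} {N : ℕ} {D : Dat} (h : GasOK K q a N D)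
    (hK : Real.exp (2 * K) * q ^ 20 ≤ 1) {n : ℕ} (hn : n ≤ N) :
    -(n * (n - 1) * D.uh 0) + 1 / 2 * tsum0 (fun p => gf (2 * n * D.uh p))
        - 6000 * K ^ 8 * (N * q ^ 218)
      ≤ Real.log (Zg (D.F 0 1) n) := by
  have hq := h.gd.q0
  have q1 : q ≤ 1 := by linarith [h.gd.q1]
  have hK1 := h.gd.C1
  have hK0 : 0 < K := by linarith
  rw [GT_log_Z h n hn]
  have h1 : ∑ k ∈ Finset.range n, (-(2 * k * D.uh 0) + 1 / 2 * D.Vn k - 5000 * K ^ 8 * q ^ 218)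
      ≤ ∑ k ∈ Finset.range n, Real.log (rg (D.F 0 1) k) := by
    refine Finset.sum_le_sum fun k hk => ?_
    exact log_rg_ge h hK (by have := Finset.mem_range.1 hk; omega)
  have e0 : ∀ n : ℕ, ∑ k ∈ Finset.range n, (2 * (k:ℝ) * D.uh 0) = n * (n - 1) * D.uh 0 := by
    intro n
    induction n with
    | zero => simp
    | succ n ih =>
      rw [Finset.sum_range_succ, ih]
      push_cast
      ring
  have e1 : ∑ k ∈ Finset.range n, (-(2 * (k:ℝ) * D.uh 0) + 1 / 2 * D.Vn k - 5000 * K ^ 8 * q ^ 218)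
      = -(n * (n - 1) * D.uh 0) + 1 / 2 * ∑ k ∈ Finset.range n, D.Vn k
        - n * (5000 * K ^ 8 * q ^ 218) := by
    rw [Finset.sum_sub_distrib, Finset.sum_add_distrib, Finset.sum_neg_distrib, e0,
      ← Finset.mul_sum, Finset.sum_const, Finset.card_range, nsmul_eq_mul]
  rw [e1] at h1
  have h2 := sum_Vn h hn
  obtain ⟨-, hV0, hV⟩ := Vn_bounds h hn
  have hnN : (n:ℝ) ≤ N := Nat.cast_le.2 hn
  have h3 : (n:ℝ) * (5000 * K ^ 8 * q ^ 218) ≤ N * (5000 * K ^ 8 * q ^ 218) := by gcongr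
  have h4 : 2 * K * q ^ 200 ≤ 1000 * K ^ 8 * (N * q ^ 218) := by
    have h5 : q ^ 200 ≤ 1 := pow_le_one₀ hq.le q1
    have h6 : q ^ 400 ≤ q ^ 218 := pow_le_pow_of_le_one hq.le q1 (by norm_num)
    have h7 : (4:ℝ) ≤ N * q ^ 218 := by
      refine h.gd.Nq.trans ?_
      gcongr
    have h8 : K ≤ K ^ 8 := le_self_pow₀ hK1 (by norm_num)
    calc 2 * K * q ^ 200 ≤ 2 * K * 1 := by gcongr
      _ ≤ 1000 * K ^ 8 * 4 := by nlinarith
      _ ≤ 1000 * K ^ 8 * (N * q ^ 218) := by gcongr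
  linarith

end Pool.Agent.Lib.MP_4952d6_mp

end

/-! ### U.GU -/

section

set_option autoImplicit false
set_option linter.unusedSectionVars false
set_option linter.unusedVariables false
open MeasureTheory Function Filter Topology Set

namespace Pool.Agent.Lib.MP_4952d6_mp

/-! # GU: the structure factor (U5.3)

`s = q^9`. `log_Zg_tilt` from `1` to `1 - s`: `s ⟨H⟩_1 ≤ P(1-s) - P(1)`; `logZ_upper` at `σ = 1 - s`, `logZ_lower`, `gf_shrink` with
`x = 2 n uh`: `⟨H⟩_1 ≤ n(n-1) u_0 - (1/2) ∑ x²/(1+x) + (s/4) ∑ x² + (1/s)(n E* + 6000 K^8 N q^218)`, `∑ x² = 4 n² ∑ uh² ≤ 4 n K q^200`.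
`x²/(2(1+x)) = n uh (1 - S*)`. With `Hg_mean`: `n ∑ uh (S - S*) ≤ n K q^209 + (1/s)(120 K⁴ n q^278 + 6000 K^8 N q^218)`, `N ≤ 2n`. -/

theorem GU_n_pos {K q a : ℝ} {N : ℕ} {D : Dat} (h : GasOK K q a N D) {n : ℕ} (hn2 : N ≤ 2 * n) :
    1 ≤ n := by
  by_contra hc
  have hn0 : n = 0 := by omega
  have hN0 : N = 0 := by omega
  have h1 := h.gd.Nq
  rw [hN0, Nat.cast_zero, zero_mul] at h1
  norm_num at h1

theorem GU_Ss {D : Dat} (hD : D.Ok) (n : ℕ) (p : Fin 3 → ℤ) :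
    D.Ss 1 n p = 1 - 2 * n * D.uh p / (1 + 2 * n * D.uh p) ∧ 0 ≤ D.Ss 1 n p ∧ D.Ss 1 n p ≤ 1 := by
  have h0 := hD.uh_nonneg p
  have hx : 0 ≤ 2 * n * D.uh p := by positivity
  have e : D.Ss 1 n p = 1 / (1 + 2 * n * D.uh p) := by
    unfold Dat.Ss
    rw [mul_one]
  rw [e]
  refine ⟨?_, by positivity, ?_⟩
  · rw [eq_sub_iff_add_eq, ← add_div]
    exact div_self (by linarith)
  · rw [div_le_one (by linarith)]
    linarith

theorem S_sum_le {K q a : ℝ} {N : ℕ} {D : Dat} (h : GasOK K q a N D)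
    (hK : Real.exp (2 * K) * q ^ 20 ≤ 1) {n : ℕ} (hn : n ≤ N) (hn2 : N ≤ 2 * n) :
    tsum0 (fun p => D.uh p * (Sg (D.F 0 1) n p - D.Ss 1 n p)) ≤ 20000 * K ^ 8 * q ^ 209 := by
  have hD := h.gd.ok
  have hq := h.gd.q0
  have q1 : q ≤ 1 := by linarith [h.gd.q1]
  have hK1 := h.gd.C1
  have hK0 : 0 < K := by linarith
  have hn1 := GU_n_pos h hn2
  have hn0 : (0:ℝ) < n := by exact_mod_cast hn1
  have hnN : (n:ℝ) ≤ N := Nat.cast_le.2 hn
  have hN2 : (N:ℝ) ≤ 2 * n := by exact_mod_cast hn2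
  have hF : GasFn lam3 (D.F 0 1) := F_gas hD le_rfl zero_le_one zero_le_one
  have hZ1 := h.Zpos 0 1 le_rfl zero_le_one zero_le_one le_rfl n (by omega)
  obtain ⟨s, hs⟩ : ∃ s : ℝ, s = q ^ 9 := ⟨_, rfl⟩
  have hs0 : 0 < s := by rw [hs]; positivity
  have hs1 : s ≤ 1 := by rw [hs]; exact pow_le_one₀ hq.le q1
  have hσ : 0 ≤ 1 - s := by linarith
  have hσ1 : 1 - s ≤ 1 := by linarith
  have hZs := h.Zpos 0 (1 - s) le_rfl zero_le_one hσ hσ1 n (by omega)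
  have h1 := log_Zg_tilt hD le_rfl zero_le_one zero_le_one hσ hZ1 hZs
  have h2 := logZ_upper h hσ hσ1 hn1 hn
  have h3 := logZ_lower h hK hn
  have h4 := Hg_mean hD hF hn1 hZ1.ne'
  -- summability
  obtain ⟨s1, -⟩ := h.uS 0 1 le_rfl zero_le_one zero_le_one le_rfl n hn1 hn
  have hc : (0:ℝ) ≤ 2 * n := by positivity
  have sU := GS_uh_summable hD
  have sQ := GS_uh_sq_sm0 hD
  have sF := GS_frac_sm0 hD hc
  have sG := GS_gf_sm0 hD hc
  have sGs := GS_gf_sm0 hD (show (0:ℝ) ≤ 2 * (1 - s) * n by positivity)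
  have sS : sm0 (fun p => D.uh p * (Sg (D.F 0 1) n p - 1)) :=
    sm0_congr (fun p _ => by ring) (s1.sub sU)
  -- gf_shrink summed
  have h5 : tsum0 (fun p => gf (2 * (1 - s) * n * D.uh p))
      ≤ tsum0 (fun p => gf (2 * n * D.uh p))
        - (s * (2 * n)) * tsum0 (fun p => D.uh p * (2 * n * D.uh p / (1 + 2 * n * D.uh p)))
        + (s ^ 2 * (2 * n ^ 2)) * tsum0 (fun p => D.uh p ^ 2) := by
    rw [← tsum0_const_mul, ← tsum0_const_mul, ← tsum0_sub sG (sF.const_mul _),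
      ← tsum0_add (sG.sub (sF.const_mul _)) (sQ.const_mul _)]
    refine tsum0_mono sGs ((sG.sub (sF.const_mul _)).add (sQ.const_mul _)) fun p _ => ?_
    have h0 := hD.uh_nonneg p
    have hx : 0 ≤ 2 * n * D.uh p := by positivity
    have t := gf_shrink hx hs0.le hs1
    have e1 : 2 * (1 - s) * n * D.uh p = (1 - s) * (2 * n * D.uh p) := by ring
    have e2 : s * (2 * n) * (D.uh p * (2 * n * D.uh p / (1 + 2 * n * D.uh p)))
        = s * ((2 * n * D.uh p) ^ 2 / (1 + 2 * n * D.uh p)) := by ring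
    have e3 : s ^ 2 * (2 * n ^ 2) * D.uh p ^ 2 = (s * (2 * n * D.uh p)) ^ 2 / 2 := by ring
    rw [e1, e2, e3]
    exact t
  -- the sum of `S - S*`
  have h6 : tsum0 (fun p => D.uh p * (Sg (D.F 0 1) n p - D.Ss 1 n p))
      = tsum0 (fun p => D.uh p * (Sg (D.F 0 1) n p - 1))
        + tsum0 (fun p => D.uh p * (2 * n * D.uh p / (1 + 2 * n * D.uh p))) := by
    rw [← tsum0_add sS sF]
    refine tsum0_congr fun p _ => ?_
    rw [(GU_Ss hD n p).1]
    ring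
  -- the squares
  have h7 : n * tsum0 (fun p => D.uh p ^ 2) ≤ K * q ^ 200 := by
    have h8 : tsum0 (fun p => D.uh p ^ 2) ≤ ∑' p, D.uh p ^ 2 :=
      tsum0_le_tsum (uh_sq_summable hD) (sq_nonneg _)
    have h9 : (0:ℝ) ≤ ∑' p, D.uh p ^ 2 := tsum_nonneg fun p => sq_nonneg _
    calc n * tsum0 (fun p => D.uh p ^ 2) ≤ n * ∑' p, D.uh p ^ 2 := by gcongr
      _ ≤ N * ∑' p, D.uh p ^ 2 := by gcongr
      _ ≤ K * q ^ 200 := h.gd.uh_sq
  obtain ⟨T, hT⟩ : ∃ T : ℝ, T = tsum0 (fun p => D.uh p * (Sg (D.F 0 1) n p - 1)) := ⟨_, rfl⟩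
  obtain ⟨A, hA⟩ : ∃ A : ℝ, A = tsum0 (fun p => D.uh p * (2 * n * D.uh p / (1 + 2 * n * D.uh p))) :=
    ⟨_, rfl⟩
  obtain ⟨Q, hQ⟩ : ∃ Q : ℝ, Q = tsum0 (fun p => D.uh p ^ 2) := ⟨_, rfl⟩
  obtain ⟨G, hG⟩ : ∃ G : ℝ, G = tsum0 (fun p => gf (2 * n * D.uh p)) := ⟨_, rfl⟩
  obtain ⟨G', hG'⟩ : ∃ G' : ℝ, G' = tsum0 (fun p => gf (2 * (1 - s) * n * D.uh p)) := ⟨_, rfl⟩
  rw [h6, ← hT, ← hA]
  rw [h4, ← hT] at h1
  rw [← hG'] at h2 h5
  rw [← hG] at h3 h5
  rw [← hA, ← hQ] at h5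
  rw [← hQ] at h7
  -- assembly
  have e1 : (1 - s - 1) * (n * (n - 1) * D.uh 0 + n * T)
      = -(s * (n * (n - 1) * D.uh 0) + s * (n * T)) := by ring
  rw [e1] at h1
  have e2 : (1 - s) * (n * (n - 1) * D.uh 0) = n * (n - 1) * D.uh 0 - s * (n * (n - 1) * D.uh 0) := by
    ring
  rw [e2] at h2
  have h10 : s * (n * (T + A)) ≤ s ^ 2 * n * (n * Q) + (1 - s) * (n * (120 * K ^ 4 * q ^ 278))
      + 6000 * K ^ 8 * (N * q ^ 218) := by
    have e3 : s * (2 * n) * A = 2 * (s * (n * A)) := by ring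
    have e4 : s ^ 2 * (2 * n ^ 2) * Q = 2 * (s ^ 2 * n * (n * Q)) := by ring
    rw [e3, e4] at h5
    have e5 : s * (n * (T + A)) = s * (n * T) + s * (n * A) := by ring
    rw [e5]
    linarith
  have h11 : s ^ 2 * n * (n * Q) ≤ s ^ 2 * n * (K * q ^ 200) := by gcongr
  have h12 : (1 - s) * (n * (120 * K ^ 4 * q ^ 278)) ≤ 1 * (n * (120 * K ^ 4 * q ^ 278)) := by gcongr
  have h13 : 6000 * K ^ 8 * (N * q ^ 218) ≤ 6000 * K ^ 8 * (2 * n * q ^ 218) := by gcongr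
  have h14 : K ≤ K ^ 8 := le_self_pow₀ hK1 (by norm_num)
  have h15 : K ^ 4 ≤ K ^ 8 := pow_le_pow_right₀ hK1 (by norm_num)
  have h16 : q ^ 278 ≤ q ^ 218 := pow_le_pow_of_le_one hq.le q1 (by norm_num)
  have h17 : s * (n * (T + A)) ≤ s * (n * (20000 * K ^ 8 * q ^ 209)) := by
    have e6 : s * (n * (20000 * K ^ 8 * q ^ 209)) = n * (20000 * (K ^ 8 * q ^ 218)) := by
      rw [hs]; ring
    have e7 : s ^ 2 * n * (K * q ^ 200) = n * (K * q ^ 218) := by
      rw [hs]; ring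
    rw [e6]
    rw [e7] at h11
    have h18 : K * q ^ 218 ≤ K ^ 8 * q ^ 218 := by gcongr
    have h19 : K ^ 4 * q ^ 278 ≤ K ^ 8 * q ^ 218 := by gcongr
    have h20 : n * (K * q ^ 218) ≤ n * (K ^ 8 * q ^ 218) := by gcongr
    have h21 : n * (K ^ 4 * q ^ 278) ≤ n * (K ^ 8 * q ^ 218) := by gcongr
    have h22 : 0 ≤ n * (K ^ 8 * q ^ 218) := by positivity
    linarith
  exact le_of_mul_le_mul_left (le_of_mul_le_mul_left h17 hs0) hn0

theorem GU_eb_nonneg {K q a : ℝ} {N : ℕ} {D : Dat} (h : GasOK K q a N D) (p : Fin 3 → ℤ) :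
    0 ≤ D.eb (K * q ^ 78) N p := by
  have hD := h.gd.ok
  have hq := h.gd.q0
  have hK0 : 0 < K := by linarith [h.gd.C1]
  have h1 : 0 ≤ ∫ z, (1 - (ch p z).re) * D.Xi (K * q ^ 78) N z ∂lam3 := by
    refine integral_nonneg fun z => mul_nonneg (one_sub_re_nonneg p z) ?_
    unfold Dat.Xi
    have h2 := hD.ul_nonneg z
    have h3 : 0 ≤ 1 - D.Fc z := sub_nonneg.2 (hD.Fc_le z)
    have h4 := hD.Kc_nonneg z
    have h5 : 0 ≤ ∑ α, ∑ β, |D.ddul α β z| :=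
      Finset.sum_nonneg fun α _ => Finset.sum_nonneg fun β _ => abs_nonneg _
    have h6 : 0 ≤ (K * q ^ 78 + 2 * D.ul z + (1 - D.Fc z)) * ∑ α, ∑ β, |D.ddul α β z| :=
      mul_nonneg (by positivity) h5
    positivity
  unfold Dat.eb
  have h7 := ksq_nonneg p
  have h8 := hD.uh_nonneg p
  have h9 : 0 ≤ (ksq p)⁻¹ * ∫ z, (1 - (ch p z).re) * D.Xi (K * q ^ 78) N z ∂lam3 :=
    mul_nonneg (inv_nonneg.2 h7) h1
  linarith

/-- `|y| = y + 2 y⁻` and `(S - S*)⁻ ≤ eb` (`Sg_lower`, `eb_sum`). -/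
theorem S_sum_abs {K q a : ℝ} {N : ℕ} {D : Dat} (h : GasOK K q a N D)
    (hK : Real.exp (2 * K) * q ^ 20 ≤ 1) {n : ℕ} (hn : n ≤ N) (hn2 : N ≤ 2 * n) :
    sm0 (fun p => D.uh p * |Sg (D.F 0 1) n p - D.Ss 1 n p|) ∧
      tsum0 (fun p => D.uh p * |Sg (D.F 0 1) n p - D.Ss 1 n p|) ≤ 30000 * K ^ 8 * q ^ 209 := by
  have hD := h.gd.ok
  have hq := h.gd.q0
  have q1 : q ≤ 1 := by linarith [h.gd.q1]
  have hK1 := h.gd.C1
  have hK0 : 0 < K := by linarith
  have hn1 := GU_n_pos h hn2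
  have hF : GasFn lam3 (D.F 0 1) := F_gas hD le_rfl zero_le_one zero_le_one
  have hbd : ∀ p, |Sg (D.F 0 1) n p - D.Ss 1 n p| ≤ n + 1 := by
    intro p
    have h1 := Sg_nonneg hF n p
    have h2 := Sg_le hF n p
    obtain ⟨-, h3, h4⟩ := GU_Ss hD n p
    rw [abs_le]
    constructor
    · have : (0:ℝ) ≤ n := Nat.cast_nonneg n
      linarith
    · linarith
  have sA : sm0 (fun p => D.uh p * |Sg (D.F 0 1) n p - D.Ss 1 n p|) := by
    refine sm0_of (hD.uh_summable.mul_right ((n:ℝ) + 1)) fun p _ => ?_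
    have h0 := hD.uh_nonneg p
    rw [abs_of_nonneg (mul_nonneg h0 (abs_nonneg _))]
    exact mul_le_mul_of_nonneg_left (hbd p) h0
  have sB : sm0 (fun p => D.uh p * (Sg (D.F 0 1) n p - D.Ss 1 n p)) := by
    refine sm0_of (hD.uh_summable.mul_right ((n:ℝ) + 1)) fun p _ => ?_
    have h0 := hD.uh_nonneg p
    rw [abs_mul, abs_of_nonneg h0]
    exact mul_le_mul_of_nonneg_left (hbd p) h0
  obtain ⟨sE, hE⟩ := eb_sum h
  refine ⟨sA, ?_⟩
  have h1 : tsum0 (fun p => D.uh p * |Sg (D.F 0 1) n p - D.Ss 1 n p|)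
      ≤ tsum0 (fun p => D.uh p * (Sg (D.F 0 1) n p - D.Ss 1 n p))
        + 2 * tsum0 (fun p => D.uh p * D.eb (K * q ^ 78) N p) := by
    rw [← tsum0_const_mul, ← tsum0_add sB (sE.const_mul 2)]
    refine tsum0_mono sA (sB.add (sE.const_mul 2)) fun p hp => ?_
    have h0 := hD.uh_nonneg p
    have h2 := Sg_lower h zero_le_one le_rfl hn1 hn hp
    have h3 := GU_eb_nonneg h p
    have h4 : |Sg (D.F 0 1) n p - D.Ss 1 n p|
        ≤ (Sg (D.F 0 1) n p - D.Ss 1 n p) + 2 * D.eb (K * q ^ 78) N p := by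
      rw [abs_le]
      constructor
      · linarith
      · linarith
    have h5 := mul_le_mul_of_nonneg_left h4 h0
    linarith
  have h2 := S_sum_le h hK hn hn2
  have h15 : K ^ 4 ≤ K ^ 8 := pow_le_pow_right₀ hK1 (by norm_num)
  have h16 : q ^ 278 ≤ q ^ 209 := pow_le_pow_of_le_one hq.le q1 (by norm_num)
  have h19 : K ^ 4 * q ^ 278 ≤ K ^ 8 * q ^ 209 := by gcongr
  have h20 : 0 ≤ K ^ 8 * q ^ 209 := by positivity
  linarith

/-- (O1): structure factor, `∑_{p ≠ 0} û |S_N - S*_N| ≤ C' Y^{1.04}`. -/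
theorem gas_O1 {C : ℝ} (hC : 1 ≤ C) : ∃ C' q₀ : ℝ, 0 < q₀ ∧ ∀ (q a : ℝ) (N : ℕ) (D : Dat),
    D.GD C q a N → q ≤ q₀ →
    Summable (fun p => if p = 0 then 0 else D.uh p * |Sg (D.F 0 1) N p - D.Ss 1 N p|) ∧
    tsum0 (fun p => D.uh p * |Sg (D.F 0 1) N p - D.Ss 1 N p|) ≤ C' * q ^ 208 := by
  obtain ⟨K, q₀, hCK, hq₀, H⟩ := gasOK hC
  refine ⟨30000 * K ^ 8, min q₀ (Real.exp (-(2 * K))), lt_min hq₀ (Real.exp_pos _), ?_⟩
  intro q a N D hgd hq
  have h := H q a N D hgd (hq.trans (min_le_left _ _))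
  have hq0 := h.gd.q0
  have q1 : q ≤ 1 := by linarith [h.gd.q1]
  have hK1 := h.gd.C1
  have hK : Real.exp (2 * K) * q ^ 20 ≤ 1 := by
    have h1 : q ^ 20 ≤ Real.exp (-(2 * K)) := by
      calc q ^ 20 ≤ q ^ 1 := pow_le_pow_of_le_one hq0.le q1 (by norm_num)
        _ = q := pow_one q
        _ ≤ Real.exp (-(2 * K)) := hq.trans (min_le_right _ _)
    calc Real.exp (2 * K) * q ^ 20 ≤ Real.exp (2 * K) * Real.exp (-(2 * K)) := by gcongr
      _ = 1 := by rw [← Real.exp_add, add_neg_cancel, Real.exp_zero]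
  obtain ⟨h1, h2⟩ := S_sum_abs h hK (n := N) le_rfl (by omega)
  refine ⟨h1, h2.trans ?_⟩
  have h3 : q ^ 209 ≤ q ^ 208 := pow_le_pow_of_le_one hq0.le q1 (by norm_num)
  have h4 : 0 ≤ 30000 * K ^ 8 := by positivity
  exact mul_le_mul_of_nonneg_left h3 h4

end Pool.Agent.Lib.MP_4952d6_mp

end

/-! ### U.GV -/

section

set_option autoImplicit false
set_option linter.unusedSectionVars false
set_option linter.unusedVariables false
open MeasureTheory Function Filter Topology Set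

namespace Pool.Agent.Lib.MP_4952d6_mp

/-! # GV: continuity of the cavity function (U6.1)

`n = N - 2`. `M(0) - M(z) = (1/2) ⟨(A(0) - A(z))²⟩` (`Mg_diff`), `A = A_c e^{-2X}`, `X = Xg ul`:
`|A(0) - A(z)| ≤ 2 |X(0) - X(z)| + (1 - A_c(0)) + (1 - A_c(z))`, so `(A(0)-A(z))² ≤ 12 (X(0)-X(z))² + 3 (1-A_c(0)) + 3 (1-A_c(z))`, and
`M(0) - M(z) ≤ 6 ⟨(X(0)-X(z))²⟩ + 3 n I_c`. `Xg_diff`: `⟨(X(0)-X(z))²⟩ = n ∑ 2 uh² (1 - Re ch) S ≤ 2n ∑ uh² (1-Re ch) + 4 n u_0 ∑ uh |S - S*|`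
(`S ≤ S* + |S-S*|`, `S* ≤ 1`), `uh² = (|k|² uh) (uh/|k|²)`, `uh_ksq`, `uh_cos`: `∑ uh² (1 - Re ch) ≤ K² a² rr z`. -/

theorem GV_n2 {K q a : ℝ} {N : ℕ} {D : Dat} (h : GasOK K q a N D) {n : ℕ} (hn : n + 2 = N) :
    2 ≤ n := by
  have hq0 := h.gd.q0
  have hq1 := h.gd.q1
  have h1 : q ^ 400 ≤ 1 := pow_le_one₀ hq0.le (by linarith)
  have h2 : (4 : ℝ) ≤ N := by
    refine h.gd.Nq.trans ?_
    exact mul_le_of_le_one_right (Nat.cast_nonneg N) h1
  have h3 : 4 ≤ N := by exact_mod_cast h2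
  omega

theorem GV_summable_cos {D : Dat} (hD : D.Ok) (z : T3) :
    Summable (fun p => D.uh p / ksq p * (1 - (ch p z).re)) := by
  refine Summable.of_norm_bounded (hD.uh_summable.mul_left 2) fun p => ?_
  rw [Real.norm_eq_abs, abs_mul, abs_of_nonneg (one_sub_re_nonneg p z)]
  have h0 := hD.uh_nonneg p
  have h1 : |D.uh p / ksq p| ≤ D.uh p := by
    by_cases hp : p = 0
    · subst hp
      rw [ksq_zero, div_zero, abs_zero]
      exact h0
    · rw [abs_of_nonneg (div_nonneg h0 (ksq_nonneg p))]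
      exact div_le_self h0 (ksq_ge_one hp)
  calc |D.uh p / ksq p| * (1 - (ch p z).re) ≤ D.uh p * 2 :=
        mul_le_mul h1 (one_sub_re_le p z) (one_sub_re_nonneg p z) h0
    _ = 2 * D.uh p := by ring

theorem X_diff_le {K q a : ℝ} {N : ℕ} {D : Dat} (h : GasOK K q a N D)
    (hK : Real.exp (2 * K) * q ^ 20 ≤ 1) {n : ℕ} (hn : n + 2 = N) (z : T3) :
    Eg (D.F 0 1) n (fun x => (Xg D.ul x 0 - Xg D.ul x z) ^ 2)
      ≤ 2 * K ^ 2 * (N * a ^ 2 * rr z) + 120000 * K ^ 9 * q ^ 209 := by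
  have hD := h.gd.ok
  have hn2 := GV_n2 h hn
  have hK1 := h.gd.C1
  have hq0 := h.gd.q0
  have ha := h.gd.a0
  have hnN : n ≤ N := by omega
  have hnN' : (n : ℝ) ≤ N := by exact_mod_cast hnN
  have hn0 : (0 : ℝ) ≤ n := Nat.cast_nonneg n
  have hF : GasFn lam3 (D.F 0 1) := F_gas hD le_rfl zero_le_one zero_le_one
  have hZ : Zg (D.F 0 1) n ≠ 0 :=
    (h.Zpos 0 1 le_rfl zero_le_one zero_le_one le_rfl n (by omega)).ne'
  rw [Xg_diff hD hF (by omega) hZ z]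
  obtain ⟨hs, hS⟩ := S_sum_abs h hK hnN (by omega : N ≤ 2 * n)
  have hcos := GV_summable_cos hD z
  have hu : ∀ p, 0 ≤ D.uh p := hD.uh_nonneg
  have hSn : ∀ p, 0 ≤ Sg (D.F 0 1) n p := fun p => Sg_nonneg hF n p
  -- pointwise bound
  have key : ∀ p, p ≠ 0 → D.uh p ^ 2 * (2 * (1 - (ch p z).re)) * Sg (D.F 0 1) n p
      ≤ 2 * (K * a) * (D.uh p / ksq p * (1 - (ch p z).re))
        + 4 * D.uh 0 * (D.uh p * |Sg (D.F 0 1) n p - D.Ss 1 n p|) := by
    intro p hp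
    have c0 := one_sub_re_nonneg p z
    have c2 := one_sub_re_le p z
    have hk := ksq_ge_one hp
    have hk0 : 0 < ksq p := by linarith
    have hSs : D.Ss 1 n p ≤ 1 := by
      unfold Dat.Ss
      have : 0 ≤ 2 * 1 * (n : ℝ) * D.uh p := mul_nonneg (by positivity) (hu p)
      rw [div_le_one (by linarith)]
      linarith
    set d := |Sg (D.F 0 1) n p - D.Ss 1 n p| with hd
    have hd0 : 0 ≤ d := abs_nonneg _
    have hS1 : Sg (D.F 0 1) n p ≤ 1 + d := by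
      have := le_abs_self (Sg (D.F 0 1) n p - D.Ss 1 n p)
      linarith
    have e1 : D.uh p ^ 2 * (1 - (ch p z).re)
        ≤ K * a * (D.uh p / ksq p * (1 - (ch p z).re)) := by
      have h1 := h.gd.uh_ksq p
      have h2 : D.uh p ^ 2 = (ksq p * D.uh p) * (D.uh p / ksq p) := by
        field_simp
      rw [h2]
      calc ksq p * D.uh p * (D.uh p / ksq p) * (1 - (ch p z).re)
          = ksq p * D.uh p * (D.uh p / ksq p * (1 - (ch p z).re)) := by ring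
        _ ≤ K * a * (D.uh p / ksq p * (1 - (ch p z).re)) :=
            mul_le_mul_of_nonneg_right h1 (mul_nonneg (div_nonneg (hu p) hk0.le) c0)
    have e2 : D.uh p ^ 2 * (1 - (ch p z).re) * d ≤ 2 * D.uh 0 * (D.uh p * d) := by
      have h3 : D.uh p ^ 2 ≤ D.uh 0 * D.uh p := by
        have : D.uh p ^ 2 = D.uh p * D.uh p := by ring
        rw [this]
        exact mul_le_mul_of_nonneg_right (h.gd.uh_le p) (hu p)
      calc D.uh p ^ 2 * (1 - (ch p z).re) * d ≤ (D.uh 0 * D.uh p) * 2 * d :=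
            mul_le_mul_of_nonneg_right (mul_le_mul h3 c2 c0 (mul_nonneg (hu 0) (hu p))) hd0
        _ = 2 * D.uh 0 * (D.uh p * d) := by ring
    have e3 : D.uh p ^ 2 * (2 * (1 - (ch p z).re)) * Sg (D.F 0 1) n p
        ≤ D.uh p ^ 2 * (2 * (1 - (ch p z).re)) * (1 + d) :=
      mul_le_mul_of_nonneg_left hS1 (mul_nonneg (sq_nonneg _) (by linarith))
    nlinarith
  have s1 : sm0 (fun p => 2 * (K * a) * (D.uh p / ksq p * (1 - (ch p z).re))) :=
    (sm0_of_summable hcos).const_mul _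
  have s2 : sm0 (fun p => 4 * D.uh 0 * (D.uh p * |Sg (D.F 0 1) n p - D.Ss 1 n p|)) :=
    hs.const_mul _
  have s3 : sm0 (fun p => D.uh p ^ 2 * (2 * (1 - (ch p z).re)) * Sg (D.F 0 1) n p) := by
    refine sm0_of (s1.add s2) fun p hp => ?_
    rw [abs_of_nonneg (mul_nonneg (mul_nonneg (sq_nonneg _)
      (by linarith [one_sub_re_nonneg p z])) (hSn p)), if_neg hp]
    exact key p hp
  have t1 := tsum0_mono s3 (s1.add s2) key
  rw [tsum0_add s1 s2, tsum0_const_mul, tsum0_const_mul] at t1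
  have t2 : tsum0 (fun p => D.uh p / ksq p * (1 - (ch p z).re)) ≤ K * a * rr z := by
    refine (tsum0_le_tsum hcos ?_).trans (h.gd.uh_cos z)
    rw [ksq_zero, div_zero, zero_mul]
  have hr := rr_nonneg z
  have hu0 : (n : ℝ) * D.uh 0 ≤ K :=
    (mul_le_mul_of_nonneg_right hnN' (hu 0)).trans h.gd.uh0
  have hKa : 0 ≤ K * a := by positivity
  have hT0 : 0 ≤ tsum0 (fun p => D.uh p * |Sg (D.F 0 1) n p - D.Ss 1 n p|) :=
    tsum0_nonneg fun p _ => mul_nonneg (hu p) (abs_nonneg _)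
  calc (n : ℝ) * tsum0 (fun p => D.uh p ^ 2 * (2 * (1 - (ch p z).re)) * Sg (D.F 0 1) n p)
      ≤ n * (2 * (K * a) * tsum0 (fun p => D.uh p / ksq p * (1 - (ch p z).re))
        + 4 * D.uh 0 * tsum0 (fun p => D.uh p * |Sg (D.F 0 1) n p - D.Ss 1 n p|)) :=
        mul_le_mul_of_nonneg_left t1 hn0
    _ = n * (2 * (K * a) * tsum0 (fun p => D.uh p / ksq p * (1 - (ch p z).re)))
        + 4 * ((n * D.uh 0) * tsum0 (fun p => D.uh p * |Sg (D.F 0 1) n p - D.Ss 1 n p|)) := by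
        ring
    _ ≤ N * (2 * (K * a) * (K * a * rr z)) + 4 * (K * (30000 * K ^ 8 * q ^ 209)) := by
        refine add_le_add (mul_le_mul hnN' (mul_le_mul_of_nonneg_left t2 (by positivity))
          (mul_nonneg (by positivity) (tsum0_nonneg fun p _ =>
            mul_nonneg (div_nonneg (hu p) (ksq_nonneg p)) (one_sub_re_nonneg p z)))
          (Nat.cast_nonneg N)) ?_
        exact mul_le_mul_of_nonneg_left (mul_le_mul hu0 hS hT0 (by linarith)) (by norm_num)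
    _ = 2 * K ^ 2 * (N * a ^ 2 * rr z) + 120000 * K ^ 9 * q ^ 209 := by ring

theorem GV_exp_lip {s t : ℝ} (hs : 0 ≤ s) (ht : 0 ≤ t) :
    |Real.exp (-s) - Real.exp (-t)| ≤ |s - t| := by
  wlog hst : s ≤ t generalizing s t
  · have := this ht hs (le_of_not_ge hst)
    rwa [abs_sub_comm, abs_sub_comm t s] at this
  have h1 : Real.exp (-t) = Real.exp (-s) * Real.exp (-(t - s)) := by
    rw [← Real.exp_add]; congr 1; ring
  have h2 : 1 - (t - s) ≤ Real.exp (-(t - s)) := by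
    have := Real.add_one_le_exp (-(t - s)); linarith
  have h3 : Real.exp (-s) ≤ 1 := Real.exp_le_one_iff.2 (by linarith)
  have h4 : 0 < Real.exp (-s) := Real.exp_pos _
  have h5 : Real.exp (-t) ≤ Real.exp (-s) := Real.exp_le_exp.2 (by linarith)
  rw [abs_of_nonneg (by linarith), abs_of_nonpos (by linarith)]
  rw [h1]
  nlinarith

theorem GV_sq {c₀ c₁ X₀ X₁ : ℝ} (h0 : 0 ≤ c₀) (h0' : 0 ≤ 1 - c₀) (h1 : 0 ≤ c₁) (h1' : 0 ≤ 1 - c₁)
    (hX0 : 0 ≤ X₀) (hX1 : 0 ≤ X₁) :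
    (c₀ * Real.exp (-(2 * 1 * X₀)) - c₁ * Real.exp (-(2 * 1 * X₁))) ^ 2
      ≤ 12 * (X₀ - X₁) ^ 2 + 3 * (1 - c₀) + 3 * (1 - c₁) := by
  have hL := GV_exp_lip (s := 2 * 1 * X₀) (t := 2 * 1 * X₁) (by linarith) (by linarith)
  set E₀ := Real.exp (-(2 * 1 * X₀)) with hE0
  set E₁ := Real.exp (-(2 * 1 * X₁)) with hE1
  have p0 : 0 < E₀ := Real.exp_pos _
  have p1 : 0 < E₁ := Real.exp_pos _
  have q0 : E₀ ≤ 1 := Real.exp_le_one_iff.2 (by linarith)
  have q1 : E₁ ≤ 1 := Real.exp_le_one_iff.2 (by linarith)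
  have hsq : (E₀ - E₁) ^ 2 ≤ 4 * (X₀ - X₁) ^ 2 := by
    have := pow_le_pow_left₀ (abs_nonneg _) hL 2
    rw [sq_abs, sq_abs] at this
    calc (E₀ - E₁) ^ 2 ≤ (2 * 1 * X₀ - 2 * 1 * X₁) ^ 2 := this
      _ = 4 * (X₀ - X₁) ^ 2 := by ring
  have g0 : ((1 - c₀) * E₀) ^ 2 ≤ 1 - c₀ := by
    have t0 : 0 ≤ (1 - c₀) * E₀ := mul_nonneg h0' p0.le
    have t1 : (1 - c₀) * E₀ ≤ 1 - c₀ := mul_le_of_le_one_right h0' q0
    have t2 : (1 - c₀) * E₀ ≤ 1 := by linarith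
    calc ((1 - c₀) * E₀) ^ 2 = ((1 - c₀) * E₀) * ((1 - c₀) * E₀) := sq _
      _ ≤ 1 * ((1 - c₀) * E₀) := mul_le_mul_of_nonneg_right t2 t0
      _ ≤ 1 - c₀ := by linarith
  have g1 : ((1 - c₁) * E₁) ^ 2 ≤ 1 - c₁ := by
    have t0 : 0 ≤ (1 - c₁) * E₁ := mul_nonneg h1' p1.le
    have t1 : (1 - c₁) * E₁ ≤ 1 - c₁ := mul_le_of_le_one_right h1' q1
    have t2 : (1 - c₁) * E₁ ≤ 1 := by linarith
    calc ((1 - c₁) * E₁) ^ 2 = ((1 - c₁) * E₁) * ((1 - c₁) * E₁) := sq _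
      _ ≤ 1 * ((1 - c₁) * E₁) := mul_le_mul_of_nonneg_right t2 t0
      _ ≤ 1 - c₁ := by linarith
  have e : c₀ * E₀ - c₁ * E₁ = (E₀ - E₁) - (1 - c₀) * E₀ + (1 - c₁) * E₁ := by ring
  rw [e]
  set u := E₀ - E₁
  set v := (1 - c₀) * E₀
  set w := (1 - c₁) * E₁
  nlinarith [sq_nonneg (u + v), sq_nonneg (u - w), sq_nonneg (v + w)]

theorem GV_Xg_bm {h : T3 → ℝ} (hh : BM h) {n : ℕ} (y : T3) :
    BM (fun x : Fin n → T3 => Xg h x y) := by
  unfold Xg
  exact BM.finset_sum _ fun j _ =>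
    hh.comp (measurable_sub' measurable_const (measurable_pi_apply j))

/-- `(U6.1)`. -/
theorem M_diff_le {K q a : ℝ} {N : ℕ} {D : Dat} (h : GasOK K q a N D)
    (hK : Real.exp (2 * K) * q ^ 20 ≤ 1) {n : ℕ} (hn : n + 2 = N) (z : T3) :
    Mg (D.F 0 1) n 0 - Mg (D.F 0 1) n z
      ≤ 12 * K ^ 2 * (N * a ^ 2 * rr z) + 800000 * K ^ 9 * q ^ 209 := by
  have hD := h.gd.ok
  have hK1 := h.gd.C1
  have hq0 := h.gd.q0
  have hq1 := h.gd.q1
  have hnN : n ≤ N := by omega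
  have hnN' : (n : ℝ) ≤ N := by exact_mod_cast hnN
  have hF : GasFn lam3 (D.F 0 1) := F_gas hD le_rfl zero_le_one zero_le_one
  have hZ : Zg (D.F 0 1) n ≠ 0 :=
    (h.Zpos 0 1 le_rfl zero_le_one zero_le_one le_rfl n (by omega)).ne'
  rw [Mg_diff hF n z]
  have hX := X_diff_le h hK hn z
  have hFc : BM D.Fc := by
    have h1 : GasFn lam3 (D.F 0 0) := F_gas hD le_rfl zero_le_one le_rfl
    have h2 : D.F 0 0 = D.Fc := by
      ext x
      simp [Dat.F, Dat.Fr]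
    rw [h2] at h1
    exact h1.bm
  have hG : BM (fun z => 1 - D.Fc z) := (BM.const 1).sub hFc
  have hXX : BM (fun x : Fin n → T3 => (Xg D.ul x 0 - Xg D.ul x z) ^ 2) :=
    ((Xg_bm hD n 0).sub (Xg_bm hD n z)).pow 2
  have b1 : BM (fun x : Fin n → T3 => 12 * (Xg D.ul x 0 - Xg D.ul x z) ^ 2) := hXX.const_mul 12
  have b2 : BM (fun x : Fin n → T3 => 3 * Xg (fun z => 1 - D.Fc z) x 0) :=
    (GV_Xg_bm hG 0).const_mul 3
  have b3 : BM (fun x : Fin n → T3 => 3 * Xg (fun z => 1 - D.Fc z) x z) :=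
    (GV_Xg_bm hG z).const_mul 3
  have bA : ∀ y, BM (fun x : Fin n → T3 => Ag (D.F 0 1) x y) := fun y =>
    (Ag_bm hF n).comp (measurable_id.prodMk measurable_const)
  have hpt : ∀ x : Fin n → T3, (Ag (D.F 0 1) x 0 - Ag (D.F 0 1) x z) ^ 2
      ≤ 12 * (Xg D.ul x 0 - Xg D.ul x z) ^ 2 + 3 * Xg (fun z => 1 - D.Fc z) x 0
        + 3 * Xg (fun z => 1 - D.Fc z) x z := by
    intro x
    have c : ∀ y, 0 ≤ Ag (D.Fr 0) x y := fun y =>
      Finset.prod_nonneg fun j _ => (Fr_bounds hD le_rfl zero_le_one (y - x j)).1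
    have X0 : ∀ y, 0 ≤ Xg D.ul x y := fun y => Finset.sum_nonneg fun j _ => hD.ul_nonneg _
    obtain ⟨g0, g0'⟩ := one_sub_Ag_Fr hD (δ := 0) le_rfl zero_le_one x 0
    obtain ⟨g1, g1'⟩ := one_sub_Ag_Fr hD (δ := 0) le_rfl zero_le_one x z
    rw [Ag_F hD 0 1 x 0, Ag_F hD 0 1 x z]
    have := GV_sq (c 0) g0 (c z) g1 (X0 0) (X0 z)
    linarith
  have h1 := Eg_mono hF (((bA 0).sub (bA z)).pow 2) ((b1.add b2).add b3) hpt
  rw [Eg_add hF (b1.add b2) b3, Eg_add hF b1 b2, Eg_const_mul, Eg_const_mul, Eg_const_mul,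
    Eg_Xg hF hZ hG, Eg_Xg hF hZ hG] at h1
  have hI0 : 0 ≤ ∫ z, (1 - D.Fc z) ∂lam3 :=
    integral_nonneg fun z => by have := hD.Fc_le z; simp only [Pi.zero_apply]; linarith
  have hI : (n : ℝ) * ∫ z, (1 - D.Fc z) ∂lam3 ≤ K * q ^ 240 :=
    (mul_le_mul_of_nonneg_right hnN' hI0).trans h.gd.Ic
  have hq : q ^ 240 ≤ q ^ 209 := pow_le_pow_of_le_one hq0.le (by linarith) (by norm_num)
  have hK9 : K ≤ K ^ 9 := le_self_pow₀ hK1 (by norm_num)
  have hKq : K * q ^ 240 ≤ K ^ 9 * q ^ 209 :=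
    mul_le_mul hK9 hq (by positivity) (by positivity)
  have hK0 : 0 ≤ K ^ 9 * q ^ 209 := by positivity
  nlinarith

/-- The same for the cavity function: `Z_{n+2}/Z_n = r_{n+1} r_n ≥ 1/K²`. -/
theorem yy_diff_le {K q a : ℝ} {N : ℕ} {D : Dat} (h : GasOK K q a N D)
    (hK : Real.exp (2 * K) * q ^ 20 ≤ 1) {n : ℕ} (hn : n + 2 = N) (z : T3) :
    yy (D.F 0 1) n 0 - yy (D.F 0 1) n z
      ≤ 12 * K ^ 4 * (N * a ^ 2 * rr z) + 800000 * K ^ 11 * q ^ 209 := by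
  have hD := h.gd.ok
  have hK1 := h.gd.C1
  have hK0 : 0 < K := by linarith
  have hF : GasFn lam3 (D.F 0 1) := F_gas hD le_rfl zero_le_one zero_le_one
  have hZ0 : 0 < Zg (D.F 0 1) n := h.Zpos 0 1 le_rfl zero_le_one zero_le_one le_rfl n (by omega)
  have hZ1 : 0 < Zg (D.F 0 1) (n + 1) :=
    h.Zpos 0 1 le_rfl zero_le_one zero_le_one le_rfl (n + 1) (by omega)
  have r0 := h.rge 0 1 le_rfl zero_le_one zero_le_one le_rfl n (by omega)
  have r1 := h.rge 0 1 le_rfl zero_le_one zero_le_one le_rfl (n + 1) (by omega)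
  have hM := M_diff_le h hK hn z
  have hM0 : 0 ≤ Mg (D.F 0 1) n 0 - Mg (D.F 0 1) n z := sub_nonneg.2 (Mg_le hF n z)
  have e1 : Zg (D.F 0 1) (n + 2) = rg (D.F 0 1) (n + 1) * (rg (D.F 0 1) n * Zg (D.F 0 1) n) := by
    rw [show n + 2 = (n + 1) + 1 from rfl, Zg_succ hF hZ1, Zg_succ hF hZ0]
  set A := rg (D.F 0 1) n with hA
  set B := rg (D.F 0 1) (n + 1) with hB
  have hKi : 0 < 1 / K := by positivity
  have hA0 : 0 < A := lt_of_lt_of_le hKi r0
  have hB0 : 0 < B := lt_of_lt_of_le hKi r1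
  have e2 : yy (D.F 0 1) n 0 - yy (D.F 0 1) n z
      = (Mg (D.F 0 1) n 0 - Mg (D.F 0 1) n z) * (A⁻¹ * B⁻¹) := by
    unfold yy
    rw [e1]
    field_simp
  have hAi : A⁻¹ ≤ K := by
    rw [inv_le_comm₀ hA0 hK0]; rwa [one_div] at r0
  have hBi : B⁻¹ ≤ K := by
    rw [inv_le_comm₀ hB0 hK0]; rwa [one_div] at r1
  have hAB : A⁻¹ * B⁻¹ ≤ K * K := mul_le_mul hAi hBi (inv_nonneg.2 hB0.le) hK0.le
  rw [e2]
  calc (Mg (D.F 0 1) n 0 - Mg (D.F 0 1) n z) * (A⁻¹ * B⁻¹)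
      ≤ (Mg (D.F 0 1) n 0 - Mg (D.F 0 1) n z) * (K * K) := mul_le_mul_of_nonneg_left hAB hM0
    _ ≤ (12 * K ^ 2 * (N * a ^ 2 * rr z) + 800000 * K ^ 9 * q ^ 209) * (K * K) :=
        mul_le_mul_of_nonneg_right hM (by positivity)
    _ = 12 * K ^ 4 * (N * a ^ 2 * rr z) + 800000 * K ^ 11 * q ^ 209 := by ring

end Pool.Agent.Lib.MP_4952d6_mp

end

/-! ### U.GW -/

section

set_option autoImplicit false
set_option linter.unusedSectionVars false
set_option linter.unusedVariables false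
open MeasureTheory Function Filter Topology Set ComplexConjugate

namespace Pool.Agent.Lib.MP_4952d6_mp

/-! # GW: contact value (U6.2)

`n = N - 2`, `ψ, ph` as in `Dat.PB`. `∫ ψ pp = 1 + ∑_{p≠0} ph (S_N - 1)/(N-1)` (`pp_fourier`, `ph 0 = 1`; `ph` even because `ψ` is real:
`ph (-p) = conj`.. from uniqueness of Fourier coefficients, `ph p = ∫ ψ conj ch p`). With `∫ ψ = 1`, `y = ∫ ψ 2 ul`:
`∫ ψ F yy ≥ yy(0) ∫ ψ F - ∫ ψ (yy(0) - yy(z)) ≥ yy(0) (1 - y - K q^300) - (12 K^4 N a² K a q²/q^200 + 800000 K^11 q^209)` (`N a³ = q^400`), and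
`∑ ph (S - 1)/(N-1) ≤ - (1/N) ∑ ph (1 - S*) + ∑ ph |S - S*|/(N-1) ≤ -(1/N) ∑ ph (1-S*) + 2 K q^{-4} 30000 K^8 q^209`.
Hence `yy(0) (1 - y - K q^300) ≤ 1 - A + B`, `A = (1/N) ∑ ph (1 - S*) ≤ y`, `B ≤ 10^6 K^11 q^202`. Since `0 ≤ A ≤ y ≤ K q^198`,
`yy(0) ≤ (1 - A + B)(1 + (y + K q^300) + 2 (y + K q^300)²) ≤ 1 - A + y + 2B + 10 K² q^300`; finally
`y - A = 2 u_0 + ∑_{p≠0} ph (2 uh - 2 uh/(1+2N uh)) = 2 u_0 + ∑ ph 4N uh²/(1+2N uh) ≤ 2 K/N + V_N`. -/

theorem GW_norm {C q a : ℝ} {N : ℕ} {D : Dat} {ψ : T3 → ℝ} {ph : (Fin 3 → ℤ) → ℝ}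
    (h : Dat.PB C q a N D ψ ph) : Summable fun p => ‖(ph p : ℂ)‖ := by
  refine h.ph_summable.congr fun p => ?_
  rw [Complex.norm_real, Real.norm_eq_abs, abs_of_nonneg (h.ph_nonneg p)]

theorem GW_fc {C q a : ℝ} {N : ℕ} {D : Dat} {ψ : T3 → ℝ} {ph : (Fin 3 → ℤ) → ℝ}
    (h : Dat.PB C q a N D ψ ph) (p : Fin 3 → ℤ) :
    ∫ z, conj (ch p z) * (ψ z : ℂ) ∂lam3 = (ph p : ℂ) :=
  GE2_fc3 (GW_norm h) (w := fun x => (ψ x : ℂ)) h.hasSum p

theorem GW_fc' {C q a : ℝ} {N : ℕ} {D : Dat} {ψ : T3 → ℝ} {ph : (Fin 3 → ℤ) → ℝ}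
    (h : Dat.PB C q a N D ψ ph) (p : Fin 3 → ℤ) :
    ∫ z, ch p z * (ψ z : ℂ) ∂lam3 = (ph p : ℂ) := by
  have h1 := congrArg conj (GW_fc h p)
  rw [← integral_conj, Complex.conj_ofReal] at h1
  rw [← h1]
  refine integral_congr_ae (Eventually.of_forall fun z => ?_)
  simp

theorem ph_even {C q a : ℝ} {N : ℕ} {D : Dat} {ψ : T3 → ℝ} {ph : (Fin 3 → ℤ) → ℝ}
    (h : Dat.PB C q a N D ψ ph) (p : Fin 3 → ℤ) : ph (-p) = ph p := by
  have h1 := GW_fc h (-p)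
  have h2 := GW_fc' h p
  have h3 : (ph (-p) : ℂ) = ph p := by
    rw [← h1, ← h2]
    refine integral_congr_ae (Eventually.of_forall fun z => ?_)
    simp only [ch_neg, Complex.conj_conj]
  exact_mod_cast h3

theorem psi_int {C q a : ℝ} {N : ℕ} {D : Dat} {ψ : T3 → ℝ} {ph : (Fin 3 → ℤ) → ℝ}
    (h : Dat.PB C q a N D ψ ph) : ∫ z, ψ z ∂lam3 = 1 := by
  have h1 := GW_fc' h 0
  simp only [ch_zero, one_mul] at h1
  rw [integral_complex_ofReal, h.ph_zero] at h1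
  exact_mod_cast h1

theorem GW_re {C q a : ℝ} {N : ℕ} {D : Dat} {ψ : T3 → ℝ} {ph : (Fin 3 → ℤ) → ℝ}
    (h : Dat.PB C q a N D ψ ph) (p : Fin 3 → ℤ) :
    ∫ z, ψ z * (ch p z).re ∂lam3 = ph p := by
  have h1 := congrArg Complex.re (GW_fc' h p)
  rw [Complex.ofReal_re] at h1
  have hi : Integrable (fun z => ch p z * (ψ z : ℂ)) lam3 := by
    have := (h.bm.integrable lam3).ofReal (𝕜 := ℂ)
    exact this.bdd_mul (ch_continuous p).aestronglyMeasurable
      (Eventually.of_forall fun z => (ch_norm p z).le)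
  have h2 := integral_re hi
  simp only [RCLike.re_to_complex] at h2
  rw [← h1, ← h2]
  refine integral_congr_ae (Eventually.of_forall fun z => ?_)
  simp only [Complex.mul_re, Complex.ofReal_re, Complex.ofReal_im, mul_zero, sub_zero]
  ring

/-- Parseval: `∫ ψ ul = ∑ ph uh`. -/
theorem psi_ul {C q a : ℝ} {N : ℕ} {D : Dat} {ψ : T3 → ℝ} {ph : (Fin 3 → ℤ) → ℝ}
    (h : Dat.PB C q a N D ψ ph) (hD : D.Ok) :
    ∫ z, ψ z * (2 * D.ul z) ∂lam3 = 2 * D.uh 0 + tsum0 (fun p => 2 * (ph p * D.uh p)) := by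
  have hchm : ∀ p, Measurable fun z => (ch p z).re := fun p =>
    (Complex.continuous_re.comp (ch_continuous p)).measurable
  have hchb : ∀ p, BM fun z => (ch p z).re := fun p =>
    ⟨hchm p, 1, fun z => (Complex.abs_re_le_norm _).trans (ch_norm p z).le⟩
  have hi : ∀ p, Integrable (fun z => ψ z * (2 * (D.uh p * (ch p z).re))) lam3 := fun p =>
    (h.bm.mul (((hchb p).const_mul (D.uh p)).const_mul 2)).integrable _
  obtain ⟨B, hB0, hB⟩ := h.bm.exists_nonneg_bound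
  have hle : ∀ p, ∫ z, ‖ψ z * (2 * (D.uh p * (ch p z).re))‖ ∂lam3 ≤ B * 2 * D.uh p := by
    intro p
    have h1 : ∫ z, ‖ψ z * (2 * (D.uh p * (ch p z).re))‖ ∂lam3 ≤ ∫ z, B * 2 * D.uh p ∂lam3 := by
      refine integral_mono (hi p).norm (integrable_const _) fun z => ?_
      rw [Real.norm_eq_abs, abs_mul, abs_mul, abs_mul, abs_of_nonneg (hD.uh_nonneg p),
        abs_of_pos (by norm_num : (0 : ℝ) < 2)]
      have ha : |(ch p z).re| ≤ 1 := (Complex.abs_re_le_norm _).trans (ch_norm p z).le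
      have hb := hD.uh_nonneg p
      calc |ψ z| * (2 * (D.uh p * |(ch p z).re|)) ≤ B * (2 * (D.uh p * 1)) := by
            refine mul_le_mul (hB z) ?_ (by positivity) hB0
            refine mul_le_mul_of_nonneg_left ?_ (by norm_num)
            exact mul_le_mul_of_nonneg_left ha hb
        _ = B * 2 * D.uh p := by ring
    simpa using h1
  have hs : Summable fun p => ∫ z, ‖ψ z * (2 * (D.uh p * (ch p z).re))‖ ∂lam3 :=
    Summable.of_nonneg_of_le (fun p => integral_nonneg fun x => norm_nonneg _) hle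
      (hD.uh_summable.mul_left _)
  have h1 := hasSum_integral_of_summable_integral_norm (μ := lam3) hi hs
  have h2 : ∀ z, ∑' p, ψ z * (2 * (D.uh p * (ch p z).re)) = ψ z * (2 * D.ul z) := fun z =>
    (((GE2_re hD z).mul_left 2).mul_left (ψ z)).tsum_eq
  simp_rw [h2] at h1
  have h3 : ∀ p, ∫ z, ψ z * (2 * (D.uh p * (ch p z).re)) ∂lam3 = 2 * (ph p * D.uh p) := by
    intro p
    have e : ∀ z, ψ z * (2 * (D.uh p * (ch p z).re)) = (2 * D.uh p) * (ψ z * (ch p z).re) :=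
      fun z => by ring
    simp_rw [e]
    rw [integral_const_mul, GW_re h]
    ring
  simp_rw [h3] at h1
  rw [← h1.tsum_eq, tsum_eq_tsum0 h1.summable, h.ph_zero, one_mul]

theorem GW_gas {K q a : ℝ} {N : ℕ} {D : Dat} (h : GasOK K q a N D) :
    GasFn lam3 (D.F 0 1) := F_gas h.gd.ok le_rfl zero_le_one zero_le_one

/-- Lower bound for `∫ ψ pp`. -/
theorem psi_pp_ge {K q a : ℝ} {N : ℕ} {D : Dat} {ψ : T3 → ℝ} {ph : (Fin 3 → ℤ) → ℝ}
    (h : GasOK K q a N D) (hK : Real.exp (2 * K) * q ^ 20 ≤ 1) (hP : Dat.PB K q a N D ψ ph)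
    {n : ℕ} (hn : n + 2 = N) :
    yy (D.F 0 1) n 0 * (1 - ∫ z, ψ z * (2 * D.ul z) ∂lam3 - K * q ^ 300) - 900000 * K ^ 11 * q ^ 202
      ≤ ∫ z, ψ z * pp (D.F 0 1) n z ∂lam3 := by
  have hD := h.gd.ok
  have hG := GW_gas h
  have hq0 := h.gd.q0
  have hq1 := h.gd.q1
  have hK1 := h.gd.C1
  have ha0 := h.gd.a0
  set Yc := yy (D.F 0 1) n 0 with hYc
  have hYc0 : 0 ≤ Yc := yy_nonneg hG n 0
  have hyb := yy_bm hG n
  have hFb := hG.bm
  have hFcb : BM D.Fc := BM.of_mem_Icc (hD.Fc_WD 0).sm.measurable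
    fun x => ⟨hD.Fc_nonneg x, hD.Fc_le x⟩
  have hul := ul_bm hD
  have hrr : BM (fun z : T3 => rr z) := JData.rr_bm'
  -- pointwise
  have hpt : ∀ z, Yc * (ψ z - ψ z * (1 - D.Fc z) - ψ z * (2 * D.ul z))
      - (12 * K ^ 4 * (N * a ^ 2) * (ψ z * rr z) + 800000 * K ^ 11 * q ^ 209 * ψ z)
      ≤ ψ z * pp (D.F 0 1) n z := by
    intro z
    have h1 := yy_diff_le h hK hn z
    have h2 : yy (D.F 0 1) n z ≤ Yc := yy_le hG n z
    have hF0 := hG.nonneg z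
    have hF1 := hG.le_one z
    have hFge : 1 - (1 - D.Fc z) - 2 * D.ul z ≤ D.F 0 1 z := by
      have h3 : D.F 0 1 z = D.Fc z * Real.exp (-(2 * D.ul z)) := by
        simp [Dat.F, Dat.Fr]
      have h4 : 1 - 2 * D.ul z ≤ Real.exp (-(2 * D.ul z)) := by
        have := Real.add_one_le_exp (-(2 * D.ul z))
        linarith
      have h5 := hD.Fc_nonneg z
      have h6 := hD.Fc_le z
      have h7 := hD.ul_nonneg z
      rw [h3]
      calc 1 - (1 - D.Fc z) - 2 * D.ul z ≤ D.Fc z * (1 - 2 * D.ul z) := by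
            nlinarith only [mul_nonneg h7 (sub_nonneg.2 h6)]
        _ ≤ D.Fc z * Real.exp (-(2 * D.ul z)) := mul_le_mul_of_nonneg_left h4 h5
    have hψ := hP.nonneg z
    have h8 : pp (D.F 0 1) n z = D.F 0 1 z * yy (D.F 0 1) n z := rfl
    rw [h8]
    have h9 : D.F 0 1 z * yy (D.F 0 1) n z ≥ D.F 0 1 z * Yc - (Yc - yy (D.F 0 1) n z) := by
      nlinarith only [mul_nonneg (sub_nonneg.2 hF1) (sub_nonneg.2 h2)]
    have h10 : D.F 0 1 z * Yc ≥ (1 - (1 - D.Fc z) - 2 * D.ul z) * Yc :=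
      mul_le_mul_of_nonneg_right hFge hYc0
    have h11 : (1 - (1 - D.Fc z) - 2 * D.ul z) * Yc
        - (12 * K ^ 4 * (N * a ^ 2 * rr z) + 800000 * K ^ 11 * q ^ 209)
        ≤ D.F 0 1 z * yy (D.F 0 1) n z := by linarith
    have h12 := mul_le_mul_of_nonneg_left h11 hψ
    calc _ = ψ z * ((1 - (1 - D.Fc z) - 2 * D.ul z) * Yc
        - (12 * K ^ 4 * (N * a ^ 2 * rr z) + 800000 * K ^ 11 * q ^ 209)) := by ring
      _ ≤ _ := h12
  have hb1 : BM (fun z => ψ z * (1 - D.Fc z)) := hP.bm.mul ((BM.const 1).sub hFcb)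
  have hb2 : BM (fun z => ψ z * (2 * D.ul z)) := hP.bm.mul (hul.const_mul 2)
  have hb3 : BM (fun z => ψ z * rr z) := hP.bm.mul hrr
  have hbl1 : BM (fun z => Yc * (ψ z - ψ z * (1 - D.Fc z) - ψ z * (2 * D.ul z))) :=
    (((hP.bm.sub hb1).sub hb2).const_mul Yc)
  have hbl2 : BM (fun z => 12 * K ^ 4 * (N * a ^ 2) * (ψ z * rr z)
      + 800000 * K ^ 11 * q ^ 209 * ψ z) :=
    (hb3.const_mul _).add (hP.bm.const_mul _)
  have hint := integral_mono (μ := lam3) ((hbl1.sub hbl2).integrable _)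
    ((hP.bm.mul (pp_bm hG n)).integrable _) hpt
  rw [integral_sub (hbl1.integrable _) (hbl2.integrable _), integral_const_mul,
    integral_sub ((hP.bm.sub hb1).integrable _) (hb2.integrable _),
    integral_sub (hP.bm.integrable _) (hb1.integrable _), psi_int hP,
    integral_add ((hb3.const_mul _).integrable _) ((hP.bm.const_mul _).integrable _),
    integral_const_mul, integral_const_mul, psi_int hP] at hint
  have hm1 := hP.m1
  have hmc := hP.mc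
  have hNa := h.gd.hN
  have e1 : 12 * K ^ 4 * (N * a ^ 2) * ∫ z, ψ z * rr z ∂lam3 ≤ 12 * K ^ 5 * q ^ 202 := by
    have hpos : 0 ≤ 12 * K ^ 4 * ((N : ℝ) * a ^ 2) := by positivity
    calc 12 * K ^ 4 * (N * a ^ 2) * ∫ z, ψ z * rr z ∂lam3
        ≤ 12 * K ^ 4 * (N * a ^ 2) * (K * a * q ^ 2 / q ^ 200) :=
          mul_le_mul_of_nonneg_left hm1 hpos
      _ = 12 * K ^ 5 * ((N : ℝ) * a ^ 3) * q ^ 2 / q ^ 200 := by ring
      _ = 12 * K ^ 5 * q ^ 202 := by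
          rw [hNa]
          field_simp
  have e2 : 12 * K ^ 5 * q ^ 202 ≤ 12 * K ^ 11 * q ^ 202 := by
    have : K ^ 5 ≤ K ^ 11 := pow_le_pow_right₀ hK1 (by norm_num)
    have hq : 0 ≤ q ^ 202 := by positivity
    linarith only [mul_le_mul_of_nonneg_right this hq]
  have e3 : 800000 * K ^ 11 * q ^ 209 * 1 ≤ 800000 * K ^ 11 * q ^ 202 := by
    have : q ^ 209 ≤ q ^ 202 := pow_le_pow_of_le_one hq0.le (by linarith) (by norm_num)
    have hk : 0 ≤ 800000 * K ^ 11 := by positivity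
    linarith only [mul_le_mul_of_nonneg_left this hk]
  have e4 : Yc * (1 - ∫ z, ψ z * (2 * D.ul z) ∂lam3 - K * q ^ 300)
      ≤ Yc * (1 - ∫ z, ψ z * (1 - D.Fc z) ∂lam3 - ∫ z, ψ z * (2 * D.ul z) ∂lam3) :=
    mul_le_mul_of_nonneg_left (by linarith) hYc0
  have e5 : 0 ≤ K ^ 11 * q ^ 202 := by positivity
  linarith only [hint, e1, e2, e3, e4, e5]

theorem GW_Ss {K q a : ℝ} {N : ℕ} {D : Dat} (hD : D.Ok) (p : Fin 3 → ℤ) :
    0 ≤ 1 - D.Ss 1 N p ∧ 1 - D.Ss 1 N p ≤ 1 ∧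
      1 - D.Ss 1 N p = 2 * N * D.uh p / (1 + 2 * N * D.uh p) := by
  have h1 := hD.uh_nonneg p
  have hN : (0 : ℝ) ≤ N := Nat.cast_nonneg _
  have hpos : 0 < 1 + 2 * (N : ℝ) * D.uh p := by positivity
  have he : 1 - D.Ss 1 N p = 2 * N * D.uh p / (1 + 2 * N * D.uh p) := by
    unfold Dat.Ss
    rw [mul_one]
    field_simp
    ring
  refine ⟨?_, ?_, he⟩
  · rw [he]; positivity
  · rw [he, div_le_one hpos]; linarith

/-- Upper bound for `∫ ψ pp`. -/
theorem psi_pp_le {K q a : ℝ} {N : ℕ} {D : Dat} {ψ : T3 → ℝ} {ph : (Fin 3 → ℤ) → ℝ}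
    (h : GasOK K q a N D) (hK : Real.exp (2 * K) * q ^ 20 ≤ 1) (hP : Dat.PB K q a N D ψ ph)
    {n : ℕ} (hn : n + 2 = N) :
    ∫ z, ψ z * pp (D.F 0 1) n z ∂lam3
      ≤ 1 - 1 / N * tsum0 (fun p => ph p * (1 - D.Ss 1 N p)) + 60000 * K ^ 9 * q ^ 205 := by
  have hD := h.gd.ok
  have hG := GW_gas h
  have hq0 := h.gd.q0
  have hK1 := h.gd.C1
  have hZ : 0 < Zg (D.F 0 1) (n + 2) :=
    h.Zpos 0 1 le_rfl zero_le_one zero_le_one le_rfl (n + 2) (by omega)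
  have h1 := (pp_fourier hG n hZ hP.ph_summable (ph_even hP) hP.hasSum).2
  rw [hn, hP.ph_zero] at h1
  rw [h1]
  obtain ⟨hsm, hsle⟩ := S_sum_abs h hK (n := N) le_rfl (by omega)
  have hNn : (N : ℝ) = n + 2 := by rw [← hn]; push_cast; ring
  have hn0 : (0 : ℝ) ≤ n := Nat.cast_nonneg _
  have hNpos : (0 : ℝ) < N := by rw [hNn]; positivity
  have hS0 : ∀ p, 0 ≤ Sg (D.F 0 1) N p := Sg_nonneg hG N
  have hS1 : ∀ p, Sg (D.F 0 1) N p ≤ N := Sg_le hG N
  have sA : sm0 (fun p => ph p * (1 - D.Ss 1 N p)) := by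
    refine sm0_of hP.ph_summable fun p _ => ?_
    obtain ⟨ha, hb, _⟩ := GW_Ss (K := K) (q := q) (a := a) (N := N) hD p
    rw [abs_mul, abs_of_nonneg (hP.ph_nonneg p), abs_of_nonneg ha]
    calc ph p * (1 - D.Ss 1 N p) ≤ ph p * 1 := mul_le_mul_of_nonneg_left hb (hP.ph_nonneg p)
      _ = ph p := mul_one _
  have sB : sm0 (fun p => ph p * |Sg (D.F 0 1) N p - D.Ss 1 N p|) := by
    refine sm0_of (hP.ph_summable.mul_right ((N : ℝ) + 1)) fun p _ => ?_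
    obtain ⟨ha, hb, _⟩ := GW_Ss (K := K) (q := q) (a := a) (N := N) hD p
    rw [abs_mul, abs_abs, abs_of_nonneg (hP.ph_nonneg p)]
    refine mul_le_mul_of_nonneg_left ?_ (hP.ph_nonneg p)
    rw [abs_le]
    constructor
    · have := hS0 p; linarith
    · have := hS1 p; linarith
  have hcoef : 0 < 1 / ((n : ℝ) + 1) := by positivity
  have step1 : tsum0 (fun p => ph p * (Sg (D.F 0 1) N p - 1) / (n + 1))
      ≤ tsum0 (fun p => -(1 / ((n : ℝ) + 1)) * (ph p * (1 - D.Ss 1 N p))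
          + 1 / ((n : ℝ) + 1) * (ph p * |Sg (D.F 0 1) N p - D.Ss 1 N p|)) := by
    have hsum0 : sm0 (fun p => ph p * (Sg (D.F 0 1) N p - 1) / (n + 1)) := by
      refine sm0_of (hP.ph_summable.mul_right ((N : ℝ) + 1)) fun p _ => ?_
      rw [abs_div, abs_mul, abs_of_nonneg (hP.ph_nonneg p),
        abs_of_pos (by positivity : (0 : ℝ) < (n : ℝ) + 1)]
      have hb1 : |Sg (D.F 0 1) N p - 1| ≤ (N : ℝ) + 1 := by
        rw [abs_le]
        constructor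
        · have := hS0 p; linarith
        · have := hS1 p; linarith
      calc ph p * |Sg (D.F 0 1) N p - 1| / ((n : ℝ) + 1)
          ≤ ph p * |Sg (D.F 0 1) N p - 1| / 1 := by
            refine div_le_div_of_nonneg_left (mul_nonneg (hP.ph_nonneg p) (abs_nonneg _))
              one_pos (by linarith)
        _ = ph p * |Sg (D.F 0 1) N p - 1| := div_one _
        _ ≤ ph p * ((N : ℝ) + 1) := mul_le_mul_of_nonneg_left hb1 (hP.ph_nonneg p)
    refine tsum0_mono hsum0 ((sA.const_mul _).add (sB.const_mul _)) fun p _ => ?_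
    have hb2 : Sg (D.F 0 1) N p - 1
        ≤ -(1 - D.Ss 1 N p) + |Sg (D.F 0 1) N p - D.Ss 1 N p| := by
      have := le_abs_self (Sg (D.F 0 1) N p - D.Ss 1 N p)
      linarith
    have hb3 := mul_le_mul_of_nonneg_left hb2 (hP.ph_nonneg p)
    have hb4 := mul_le_mul_of_nonneg_left hb3 hcoef.le
    calc ph p * (Sg (D.F 0 1) N p - 1) / ((n : ℝ) + 1)
        = 1 / ((n : ℝ) + 1) * (ph p * (Sg (D.F 0 1) N p - 1)) := by ring
      _ ≤ 1 / ((n : ℝ) + 1) * (ph p * (-(1 - D.Ss 1 N p)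
            + |Sg (D.F 0 1) N p - D.Ss 1 N p|)) := hb4
      _ = _ := by ring
  rw [tsum0_add (sA.const_mul _) (sB.const_mul _), tsum0_const_mul, tsum0_const_mul] at step1
  have hA0 : 0 ≤ tsum0 (fun p => ph p * (1 - D.Ss 1 N p)) :=
    tsum0_nonneg fun p _ => mul_nonneg (hP.ph_nonneg p)
      (GW_Ss (K := K) (q := q) (a := a) (N := N) hD p).1
  have hB1 : tsum0 (fun p => ph p * |Sg (D.F 0 1) N p - D.Ss 1 N p|)
      ≤ K * N / q ^ 4 * (30000 * K ^ 8 * q ^ 209) := by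
    have hc : 0 ≤ K * N / q ^ 4 := by positivity
    calc tsum0 (fun p => ph p * |Sg (D.F 0 1) N p - D.Ss 1 N p|)
        ≤ tsum0 (fun p => K * N / q ^ 4 * (D.uh p * |Sg (D.F 0 1) N p - D.Ss 1 N p|)) := by
          refine tsum0_mono sB (hsm.const_mul _) fun p _ => ?_
          calc ph p * |Sg (D.F 0 1) N p - D.Ss 1 N p|
              ≤ (K * N / q ^ 4 * D.uh p) * |Sg (D.F 0 1) N p - D.Ss 1 N p| :=
                mul_le_mul_of_nonneg_right (hP.ph_uh p) (abs_nonneg _)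
            _ = _ := by ring
      _ = K * N / q ^ 4 * tsum0 (fun p => D.uh p * |Sg (D.F 0 1) N p - D.Ss 1 N p|) :=
          tsum0_const_mul _ _
      _ ≤ _ := mul_le_mul_of_nonneg_left hsle hc
  have hc1 : 1 / (N : ℝ) ≤ 1 / ((n : ℝ) + 1) :=
    one_div_le_one_div_of_le (by positivity) (by rw [hNn]; linarith)
  have hc2 : 1 / ((n : ℝ) + 1) ≤ 2 / N := by
    rw [div_le_div_iff₀ (by positivity) hNpos, hNn]
    linarith
  have hB2 : 1 / ((n : ℝ) + 1) * tsum0 (fun p => ph p * |Sg (D.F 0 1) N p - D.Ss 1 N p|)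
      ≤ 60000 * K ^ 9 * q ^ 205 := by
    have hx : 0 ≤ K * N / q ^ 4 * (30000 * K ^ 8 * q ^ 209) := by positivity
    calc 1 / ((n : ℝ) + 1) * tsum0 (fun p => ph p * |Sg (D.F 0 1) N p - D.Ss 1 N p|)
        ≤ 1 / ((n : ℝ) + 1) * (K * N / q ^ 4 * (30000 * K ^ 8 * q ^ 209)) :=
          mul_le_mul_of_nonneg_left hB1 hcoef.le
      _ ≤ 2 / N * (K * N / q ^ 4 * (30000 * K ^ 8 * q ^ 209)) :=
          mul_le_mul_of_nonneg_right hc2 hx
      _ = 60000 * K ^ 9 * q ^ 205 := by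
          field_simp
          ring
  have hA1 := mul_le_mul_of_nonneg_right hc1 hA0
  linarith

/-- (O2): contact value, `M_{N-2}(0) / D_N ≤ 1 + V_N + C' Y^{1.01}`. -/
theorem gas_O2 {C : ℝ} (hC : 1 ≤ C) : ∃ C' q₀ : ℝ, 0 < q₀ ∧ ∀ (q a : ℝ) (N : ℕ) (D : Dat)
    (ψ : T3 → ℝ) (ph : (Fin 3 → ℤ) → ℝ), D.GD C q a N → Dat.PB C q a N D ψ ph → q ≤ q₀ →
    yy (D.F 0 1) (N - 2) 0 ≤ 1 + D.Vn N + C' * q ^ 202 := by
  obtain ⟨K, q₁, hCK, hq₁, hOK⟩ := gasOK hC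
  refine ⟨3000000 * K ^ 11, min q₁ (Real.exp (-(K / 10))), lt_min hq₁ (Real.exp_pos _), ?_⟩
  intro q a N D ψ ph hgd hPB hq
  have h := hOK q a N D hgd (hq.trans (min_le_left _ _))
  have hP := PB_mono hPB hgd hCK
  have hD := h.gd.ok
  have hq0 := h.gd.q0
  have hq1 := h.gd.q1
  have hK1 := h.gd.C1
  have hK : Real.exp (2 * K) * q ^ 20 ≤ 1 := by
    have h1 : q ≤ Real.exp (-(K / 10)) := hq.trans (min_le_right _ _)
    have h2 : q ^ 20 ≤ Real.exp (-(K / 10)) ^ 20 := pow_le_pow_left₀ hq0.le h1 20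
    rw [← Real.exp_nat_mul] at h2
    calc Real.exp (2 * K) * q ^ 20 ≤ Real.exp (2 * K) * Real.exp (((20 : ℕ) : ℝ) * -(K / 10)) :=
          mul_le_mul_of_nonneg_left h2 (Real.exp_pos _).le
      _ = 1 := by
          rw [← Real.exp_add]
          norm_num
          ring
  have hN2 : 2 ≤ N := by
    by_contra hcon
    push Not at hcon
    have h1 : (N : ℝ) ≤ 1 := by exact_mod_cast (by omega : N ≤ 1)
    have h2 := h.gd.Nq
    have h3 : q ^ 400 ≤ 1 := pow_le_one₀ hq0.le (by linarith)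
    have h4 : (0 : ℝ) ≤ q ^ 400 := by positivity
    linarith only [mul_nonneg h4 (sub_nonneg.2 h1), h2, h3]
  obtain ⟨n, hn⟩ : ∃ n, n + 2 = N := ⟨N - 2, by omega⟩
  have hN2' : N - 2 = n := by omega
  rw [hN2']
  have hge := psi_pp_ge h hK hP hn
  have hle := psi_pp_le h hK hP hn
  have hNpos : (0 : ℝ) < N := by exact_mod_cast (by omega : 0 < N)
  have hy := psi_ul hP hD
  have hyle := hP.mu
  set Yc := yy (D.F 0 1) n 0 with hYc
  set y := ∫ z, ψ z * (2 * D.ul z) ∂lam3 with hydef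
  set A := 1 / (N : ℝ) * tsum0 (fun p => ph p * (1 - D.Ss 1 N p)) with hA
  -- summability
  have su : sm0 (fun p => 2 * (ph p * D.uh p)) := by
    refine sm0_of (hD.uh_summable.mul_left 2) fun p _ => ?_
    rw [abs_of_nonneg (by have := hP.ph_nonneg p; have := hD.uh_nonneg p; positivity)]
    have := mul_le_mul_of_nonneg_right (hP.ph_le p) (hD.uh_nonneg p)
    linarith
  have sA : sm0 (fun p => ph p * (1 - D.Ss 1 N p)) := by
    refine sm0_of hP.ph_summable fun p _ => ?_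
    obtain ⟨ha, hb, _⟩ := GW_Ss (K := K) (q := q) (a := a) (N := N) hD p
    rw [abs_mul, abs_of_nonneg (hP.ph_nonneg p), abs_of_nonneg ha]
    calc ph p * (1 - D.Ss 1 N p) ≤ ph p * 1 := mul_le_mul_of_nonneg_left hb (hP.ph_nonneg p)
      _ = ph p := mul_one _
  have hA0 : 0 ≤ A := by
    rw [hA]
    refine mul_nonneg (by positivity) (tsum0_nonneg fun p _ => mul_nonneg (hP.ph_nonneg p)
      (GW_Ss (K := K) (q := q) (a := a) (N := N) hD p).1)
  have hyA : y - A ≤ 2 * D.uh 0 + D.Vn N := by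
    have e1 : y - A = 2 * D.uh 0 + tsum0 (fun p => 2 * (ph p * D.uh p)
        - 1 / (N : ℝ) * (ph p * (1 - D.Ss 1 N p))) := by
      rw [tsum0_sub su (sA.const_mul _), tsum0_const_mul (1 / (N : ℝ)), hy, hA]
      ring
    rw [e1]
    unfold Dat.Vn
    have hVs := (Vn_bounds h (n := N) le_rfl).1
    have := tsum0_mono (su.sub (sA.const_mul (1 / (N : ℝ)))) hVs fun p _ => ?_
    · linarith
    · have hu := hD.uh_nonneg p
      have hpos : 0 < 1 + 2 * (N : ℝ) * D.uh p := by positivity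
      rw [(GW_Ss (K := K) (q := q) (a := a) (N := N) hD p).2.2]
      have e2 : 2 * (ph p * D.uh p)
          - 1 / (N : ℝ) * (ph p * (2 * N * D.uh p / (1 + 2 * N * D.uh p)))
          = ph p * (4 * N * D.uh p ^ 2 / (1 + 2 * N * D.uh p)) := by
        field_simp
        ring
      rw [e2]
      calc ph p * (4 * N * D.uh p ^ 2 / (1 + 2 * N * D.uh p))
          ≤ 1 * (4 * N * D.uh p ^ 2 / (1 + 2 * N * D.uh p)) :=
            mul_le_mul_of_nonneg_right (hP.ph_le p) (by positivity)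
        _ = _ := one_mul _
  have hAy : A ≤ y := by
    have e1 : y - A = 2 * D.uh 0 + tsum0 (fun p => 2 * (ph p * D.uh p)
        - 1 / (N : ℝ) * (ph p * (1 - D.Ss 1 N p))) := by
      rw [tsum0_sub su (sA.const_mul _), tsum0_const_mul (1 / (N : ℝ)), hy, hA]
      ring
    have h0 := hD.uh_nonneg 0
    have h2 : 0 ≤ tsum0 (fun p => 2 * (ph p * D.uh p)
        - 1 / (N : ℝ) * (ph p * (1 - D.Ss 1 N p))) := by
      refine tsum0_nonneg fun p _ => ?_
      have hu := hD.uh_nonneg p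
      have hpos : 0 < 1 + 2 * (N : ℝ) * D.uh p := by positivity
      rw [(GW_Ss (K := K) (q := q) (a := a) (N := N) hD p).2.2]
      have e2 : 2 * (ph p * D.uh p)
          - 1 / (N : ℝ) * (ph p * (2 * N * D.uh p / (1 + 2 * N * D.uh p)))
          = ph p * (4 * N * D.uh p ^ 2 / (1 + 2 * N * D.uh p)) := by
        field_simp
        ring
      rw [e2]
      have := hP.ph_nonneg p
      positivity
    linarith
  have hu0 : 2 * D.uh 0 ≤ K * q ^ 202 := by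
    have h1 := h.gd.uh0
    have h2 := h.gd.Nq
    have h3 : D.uh 0 ≤ K / N := by
      rw [le_div_iff₀ hNpos]
      linarith
    have h4 : 1 / (N : ℝ) ≤ q ^ 400 / 4 := by
      rw [div_le_div_iff₀ hNpos (by norm_num)]
      linarith
    have h5 : q ^ 400 ≤ q ^ 202 := pow_le_pow_of_le_one hq0.le (by linarith) (by norm_num)
    have h6 : K / N = K * (1 / N) := by ring
    have hK0 : (0 : ℝ) ≤ K := by linarith
    have h7 : K * (1 / (N : ℝ)) ≤ K * (q ^ 400 / 4) := mul_le_mul_of_nonneg_left h4 hK0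
    have h8 : K * q ^ 400 ≤ K * q ^ 202 := mul_le_mul_of_nonneg_left h5 hK0
    have h9 : (0 : ℝ) ≤ K * q ^ 202 := by positivity
    linarith
  -- powers of q
  have hK0 : (0 : ℝ) ≤ K := by linarith
  have hq202 : (0 : ℝ) ≤ q ^ 202 := by positivity
  have hK11 : K ≤ K ^ 11 := by
    calc K = K ^ 1 := (pow_one K).symm
      _ ≤ K ^ 11 := pow_le_pow_right₀ hK1 (by norm_num)
  have hK2 : K ^ 2 ≤ K ^ 11 := pow_le_pow_right₀ hK1 (by norm_num)
  have hK9 : K ^ 9 ≤ K ^ 11 := pow_le_pow_right₀ hK1 (by norm_num)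
  have p300 : q ^ 300 ≤ q ^ 202 := pow_le_pow_of_le_one hq0.le (by linarith) (by norm_num)
  have p205 : q ^ 205 ≤ q ^ 202 := pow_le_pow_of_le_one hq0.le (by linarith) (by norm_num)
  have p300' : q ^ 300 ≤ q ^ 198 := pow_le_pow_of_le_one hq0.le (by linarith) (by norm_num)
  have p396 : q ^ 396 ≤ q ^ 202 := pow_le_pow_of_le_one hq0.le (by linarith) (by norm_num)
  have hy0 : 0 ≤ y := hA0.trans hAy
  set w := y + K * q ^ 300 with hw
  have hw0 : 0 ≤ w := by positivity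
  have hwle : w ≤ 2 * K * q ^ 198 := by
    linarith only [hyle, hw, mul_le_mul_of_nonneg_left p300' hK0]
  have hKq : K * q ≤ 1 / 1000 := by
    have h1 := h.small
    have h2 : K ≤ K ^ 20 := by
      calc K = K ^ 1 := (pow_one K).symm
        _ ≤ K ^ 20 := pow_le_pow_right₀ hK1 (by norm_num)
    linarith only [h1, mul_le_mul_of_nonneg_right h2 hq0.le]
  have hwhalf : w ≤ 1 / 2 := by
    have h1 : q ^ 198 ≤ q := by
      calc q ^ 198 ≤ q ^ 1 := pow_le_pow_of_le_one hq0.le (by linarith) (by norm_num)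
        _ = q := pow_one q
    linarith only [hwle, mul_le_mul_of_nonneg_left h1 hK0, hKq]
  have hw2 : w ^ 2 ≤ 4 * K ^ 2 * q ^ 396 := by
    have h1 : w ^ 2 ≤ (2 * K * q ^ 198) ^ 2 := pow_le_pow_left₀ hw0 hwle 2
    calc w ^ 2 ≤ (2 * K * q ^ 198) ^ 2 := h1
      _ = 4 * K ^ 2 * q ^ 396 := by ring
  set E := 960000 * K ^ 11 * q ^ 202 with hE
  have hE0 : 0 ≤ E := by positivity
  have hmain : Yc * (1 - w) ≤ 1 - A + E := by
    have h1 : 60000 * K ^ 9 * q ^ 205 ≤ 60000 * K ^ 11 * q ^ 202 := by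
      have : K ^ 9 * q ^ 205 ≤ K ^ 11 * q ^ 202 :=
        mul_le_mul hK9 p205 (by positivity) (by positivity)
      linarith
    have h2 := hge.trans hle
    have h3 : Yc * (1 - w) = Yc * (1 - y - K * q ^ 300) := by rw [hw]; ring
    rw [h3, hE]
    linarith
  have hG := GW_gas h
  have hYc0 : 0 ≤ Yc := yy_nonneg hG n 0
  -- 1 ≤ (1 - w)(1 + w + 2w²)
  have hinv : 1 ≤ (1 - w) * (1 + w + 2 * w ^ 2) := by
    have h1 : 0 ≤ w ^ 2 * (1 - 2 * w) := mul_nonneg (sq_nonneg w) (by linarith only [hwhalf])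
    linarith only [h1]
  have hYle : Yc ≤ (1 - A + E) * (1 + w + 2 * w ^ 2) := by
    have hx : 0 ≤ 1 + w + 2 * w ^ 2 := by positivity
    calc Yc = Yc * 1 := (mul_one _).symm
      _ ≤ Yc * ((1 - w) * (1 + w + 2 * w ^ 2)) := mul_le_mul_of_nonneg_left hinv hYc0
      _ = (Yc * (1 - w)) * (1 + w + 2 * w ^ 2) := by ring
      _ ≤ (1 - A + E) * (1 + w + 2 * w ^ 2) := mul_le_mul_of_nonneg_right hmain hx
  have hexp : (1 - A + E) * (1 + w + 2 * w ^ 2) ≤ 1 + (y - A) + K * q ^ 300 + 2 * w ^ 2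
      + 2 * E := by
    have h1 : (1 - A + E) * (1 + w + 2 * w ^ 2)
        = 1 + w + 2 * w ^ 2 - A - A * (w + 2 * w ^ 2) + E * (1 + w + 2 * w ^ 2) := by ring
    have h2 : 0 ≤ A * (w + 2 * w ^ 2) := by positivity
    have h3 : 1 + w + 2 * w ^ 2 ≤ 2 := by
      have h5 : 0 ≤ w * (1 - 2 * w) := mul_nonneg hw0 (by linarith only [hwhalf])
      linarith only [h5, hwhalf]
    have h4 : E * (1 + w + 2 * w ^ 2) ≤ E * 2 := mul_le_mul_of_nonneg_left h3 hE0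
    rw [h1]
    linarith only [h2, h4, hw]
  have f1 : K * q ^ 300 ≤ K ^ 11 * q ^ 202 := mul_le_mul hK11 p300 (by positivity) (by positivity)
  have f2 : 2 * w ^ 2 ≤ 8 * (K ^ 11 * q ^ 202) := by
    have : K ^ 2 * q ^ 396 ≤ K ^ 11 * q ^ 202 :=
      mul_le_mul hK2 p396 (by positivity) (by positivity)
    linarith only [hw2, this]
  have f3 : K * q ^ 202 ≤ K ^ 11 * q ^ 202 := mul_le_mul_of_nonneg_right hK11 hq202
  have f4 : 0 ≤ K ^ 11 * q ^ 202 := by positivity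
  have hfin := hYle.trans hexp
  linarith only [hfin, hE, hyA, hu0, f1, f2, f3, f4]

end Pool.Agent.Lib.MP_4952d6_mp

end

/-! ### U.GasFinal -/

section

/-!
# Stream U: interface of the gas part (U3 to U6) used by the energy part (U7, U8)

The interface theorems `Wg_bm` (GA), `Mg_bm` (GC), `yy_bm`, `yy_nonneg`, `yy_even`, `yy_le`, `pp_int`, `pair_pp`, `pairI_yy` (GD3),
`pp_fourier` (GE1), `Zg_pos_of_GD` (GH3), `gas_O1` (GU), `gas_O2` (GW) are proved in the imported files.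
-/

end

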