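import Pool.Agent.Lib.MP_4952d6_mp.Pk.G19

/-! Merged modules (to save import time): U.MXC, U.MXC2. -/

/-! ### U.MXC -/

section

/-!
# MXC: sup and moment bounds of mixtures

`hk s x ≤ (1 + (4πs)^{-1/2})³ ≤ 4 (1 + (4πs)^{-3/2})`, `∫_0^∞ s^{-1/2} exp(-c s) ds = √(π/c)` (`Real.integral_rpow_mul_exp_neg_mul_Ioi`
or the Gamma function), `∫ rr hk(s) ≤ 3 √s` (`hk_moment_one`), `∫ hk s = 1` (`hk_integral`), Fubini (`integral_integral_swap` or,
for upper bounds of nonnegative functions, `lintegral`/`ofReal` versions).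
Details. (1) `mix0 ≤ ∫_t^∞ M e^{-cs} 4 (1 + (4πs)^{-3/2}) ds ≤ 4M/c + 8 M (4π)^{-3/2} t^{-1/2}`.
(2) `|mix2| ≤ ∫_t^∞ M e^{-cs} (6/s) 4 (1 + (8πs)^{-3/2}) ds ≤ 24 M (1/(c t) + (2/3) (8π)^{-3/2} t^{-3/2})`.
(3) `∫ |mix1| ≤ ∫_t^∞ M e^{-cs} (4/√s) ds ≤ 4 M √(π/c) ≤ 8 M/√c`.
(4) `∫ |mix2| rr ≤ ∫ M e^{-cs} (6/s) 3 √(2s) ds ≤ 18 √2 M √(π/c) ≤ 50 M/√c`.
(5) `∫ mix0 rr ≤ ∫ M e^{-cs} 3 √s ds ≤ 3 M Γ(3/2) c^{-3/2} ≤ 3 M / (c √c)`.
(6) Parseval: `∫ (mix1 α)² = Σ (kc p α)² mixh² ≤ Σ ksq p mixh² ≤ M Σ mixh = M mix0(0)` (`ksq_mul_mixh_le`); alternatively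
`∫ (mix1 α)² = ∫∫ ω(s) ω(r) ∫ dhk α s · dhk α r` and `∫ dhk α s(x) dhk α r(x) dx = Σ kc² e^{-(s+r) ksq}` (`fc3_dhk`).
-/

set_option autoImplicit false
set_option linter.unusedSectionVars false
set_option linter.unusedVariables false
open MeasureTheory Function Filter Topology Set
open scoped ENNReal

namespace Pool.Agent.Lib.MP_4952d6_mp

lemma MXC_lint_le {f g : ℝ → ℝ} {S : Set ℝ} (hS : MeasurableSet S) (hg : IntegrableOn g S)
    (hfg : ∀ s ∈ S, f s ≤ g s) (hg0 : ∀ s ∈ S, 0 ≤ g s) {R : ℝ} (hR : ∫ s in S, g s ≤ R) :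
    ∫⁻ s in S, ENNReal.ofReal (f s) ≤ ENNReal.ofReal R := by
  calc ∫⁻ s in S, ENNReal.ofReal (f s) ≤ ∫⁻ s in S, ENNReal.ofReal (g s) :=
        setLIntegral_mono' hS fun s hs => ENNReal.ofReal_le_ofReal (hfg s hs)
    _ = ENNReal.ofReal (∫ s in S, g s) :=
        (ofReal_integral_eq_lintegral_ofReal hg (ae_restrict_of_forall_mem hS hg0)).symm
    _ ≤ ENNReal.ofReal R := ENNReal.ofReal_le_ofReal hR

lemma MXC_sqrt_pow {s : ℝ} (hs : 0 < s) (n : ℕ) :
    (Real.sqrt s)⁻¹ ^ n = s ^ (-(n / 2) : ℝ) := by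
  rw [Real.sqrt_eq_rpow, ← Real.rpow_neg hs.le, ← Real.rpow_natCast, ← Real.rpow_mul hs.le]
  congr 1
  ring

lemma MXC_three {t : ℝ} (ht : 0 < t) :
    IntegrableOn (fun s => (Real.sqrt s)⁻¹ ^ 3) (Ioi t) ∧
      ∫ s in Ioi t, (Real.sqrt s)⁻¹ ^ 3 = 2 / Real.sqrt t := by
  have e : ∀ s ∈ Ioi t, s ^ (-(3 / 2) : ℝ) = (Real.sqrt s)⁻¹ ^ 3 := fun s hs => by
    rw [MXC_sqrt_pow (ht.trans hs) 3]
    norm_num
  refine ⟨(integrableOn_Ioi_rpow_of_lt (a := -(3 / 2)) (by norm_num) ht).congr_fun e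
    measurableSet_Ioi, ?_⟩
  rw [← setIntegral_congr_fun measurableSet_Ioi e, integral_Ioi_rpow_of_lt (by norm_num) ht]
  have e2 : t ^ (-(3 / 2) + 1 : ℝ) = (Real.sqrt t)⁻¹ := by
    have := MXC_sqrt_pow ht 1
    rw [pow_one] at this
    rw [this]
    norm_num
  rw [e2]
  have := Real.sqrt_pos.2 ht
  field_simp
  norm_num

lemma MXC_five {t : ℝ} (ht : 0 < t) :
    IntegrableOn (fun s => (Real.sqrt s)⁻¹ ^ 5) (Ioi t) ∧
      ∫ s in Ioi t, (Real.sqrt s)⁻¹ ^ 5 = 2 / 3 * (1 / Real.sqrt t ^ 3) := by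
  have e : ∀ s ∈ Ioi t, s ^ (-(5 / 2) : ℝ) = (Real.sqrt s)⁻¹ ^ 5 := fun s hs => by
    rw [MXC_sqrt_pow (ht.trans hs) 5]
    norm_num
  refine ⟨(integrableOn_Ioi_rpow_of_lt (a := -(5 / 2)) (by norm_num) ht).congr_fun e
    measurableSet_Ioi, ?_⟩
  rw [← setIntegral_congr_fun measurableSet_Ioi e, integral_Ioi_rpow_of_lt (by norm_num) ht]
  have e2 : t ^ (-(5 / 2) + 1 : ℝ) = (Real.sqrt t)⁻¹ ^ 3 := by
    rw [MXC_sqrt_pow ht 3]
    norm_num
  rw [e2]
  have := Real.sqrt_pos.2 ht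
  field_simp
  norm_num

lemma MXC_exp {c : ℝ} (hc : 0 < c) {t : ℝ} (ht : 0 < t) :
    IntegrableOn (fun s => Real.exp (-(c * s))) (Ioi t) ∧
      ∫ s in Ioi t, Real.exp (-(c * s)) ≤ 1 / c := by
  have e : (fun s => Real.exp (-(c * s))) = fun s => Real.exp (-c * s) := by
    funext s
    rw [neg_mul]
  rw [e]
  refine ⟨integrableOn_exp_mul_Ioi (by linarith) _, ?_⟩
  rw [integral_exp_mul_Ioi (by linarith)]
  have h1 : Real.exp (-c * t) ≤ 1 := by
    rw [Real.exp_le_one_iff]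
    nlinarith
  rw [neg_div_neg_eq]
  exact div_le_div_of_nonneg_right h1 hc.le

lemma MXC_M {ω : ℝ → ℝ} {t M c : ℝ} (h : MixOk ω t M c) : 0 ≤ M := by
  have h1 := (h.nonneg (t + 1) (by linarith)).trans (h.le (t + 1) (by linarith))
  by_contra hM
  push Not at hM
  have := mul_neg_of_neg_of_pos hM (Real.exp_pos (-(c * (t + 1))))
  linarith

lemma MXC_hk_le {s : ℝ} (hs : 0 < s) (x : T3) : hk s x ≤ 4 + 1 / 2 * (Real.sqrt s)⁻¹ ^ 3 := by
  refine (hk_le hs x).trans ?_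
  have h1 : 0 < Real.sqrt s := Real.sqrt_pos.2 hs
  have h2 : 2 * Real.sqrt s ≤ Real.sqrt (4 * Real.pi * s) := by
    rw [show (4 * Real.pi * s) = 2 ^ 2 * (Real.pi * s) by ring, Real.sqrt_mul (by norm_num),
      Real.sqrt_sq (by norm_num)]
    refine mul_le_mul_of_nonneg_left (Real.sqrt_le_sqrt ?_) (by norm_num)
    nlinarith [Real.pi_gt_three]
  set y := (Real.sqrt (4 * Real.pi * s))⁻¹ with hy
  have hy0 : 0 ≤ y := by positivity
  have hy1 : y ≤ (Real.sqrt s)⁻¹ / 2 := by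
    rw [hy, show (Real.sqrt s)⁻¹ / 2 = (2 * Real.sqrt s)⁻¹ by rw [mul_inv]; ring]
    exact inv_anti₀ (by positivity) h2
  have hy3 : y ^ 3 ≤ ((Real.sqrt s)⁻¹ / 2) ^ 3 := pow_le_pow_left₀ hy0 hy1 3
  nlinarith [mul_nonneg (sq_nonneg (1 - y)) (by linarith : 0 ≤ 1 + y)]

lemma MXC_gamma {c : ℝ} (hc : 0 < c) :
    IntegrableOn (fun s => Real.exp (-(c * s)) * (Real.sqrt s)⁻¹) (Ioi (0:ℝ)) ∧
      ∫ s in Ioi (0:ℝ), Real.exp (-(c * s)) * (Real.sqrt s)⁻¹ = Real.sqrt Real.pi / Real.sqrt c := by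
  have hI : ∫ s in Ioi (0:ℝ), Real.exp (-(c * s)) * (Real.sqrt s)⁻¹
      = Real.sqrt Real.pi / Real.sqrt c := by
    have h1 := Real.integral_rpow_mul_exp_neg_mul_Ioi (a := 1 / 2) (r := c) (by norm_num) hc
    have e1 : (1 / c) ^ ((1:ℝ) / 2) = (Real.sqrt c)⁻¹ := by
      rw [← Real.sqrt_eq_rpow, one_div, Real.sqrt_inv]
    rw [Real.Gamma_one_half_eq, e1] at h1
    rw [div_eq_mul_inv, mul_comm (Real.sqrt Real.pi), ← h1]
    refine setIntegral_congr_fun measurableSet_Ioi fun s hs => ?_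
    have hs' : 0 < s := hs
    have e2 : s ^ ((1:ℝ) / 2 - 1) = (Real.sqrt s)⁻¹ := by
      rw [show (1:ℝ) / 2 - 1 = -(1 / 2) by norm_num, Real.rpow_neg hs'.le, ← Real.sqrt_eq_rpow]
    rw [e2]
    ring
  have hpos : 0 < Real.sqrt Real.pi / Real.sqrt c :=
    div_pos (Real.sqrt_pos.2 Real.pi_pos) (Real.sqrt_pos.2 hc)
  exact ⟨Integrable.of_integral_ne_zero (by rw [hI]; exact hpos.ne'), hI⟩

lemma MXC_gamma' {c : ℝ} (hc : 0 < c) :
    IntegrableOn (fun s => Real.exp (-(c * s)) * Real.sqrt s) (Ioi (0:ℝ)) ∧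
      ∫ s in Ioi (0:ℝ), Real.exp (-(c * s)) * Real.sqrt s
        = Real.sqrt Real.pi / 2 / (c * Real.sqrt c) := by
  have hI : ∫ s in Ioi (0:ℝ), Real.exp (-(c * s)) * Real.sqrt s
      = Real.sqrt Real.pi / 2 / (c * Real.sqrt c) := by
    have h1 := Real.integral_rpow_mul_exp_neg_mul_Ioi (a := 3 / 2) (r := c) (by norm_num) hc
    have e1 : (1 / c) ^ ((3:ℝ) / 2) = (c * Real.sqrt c)⁻¹ := by
      rw [show (3:ℝ) / 2 = 1 + 1 / 2 by norm_num, Real.rpow_add (by positivity), Real.rpow_one,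
        ← Real.sqrt_eq_rpow, one_div, Real.sqrt_inv, mul_inv]
    have e3 : Real.Gamma (3 / 2) = Real.sqrt Real.pi / 2 := by
      rw [show (3:ℝ) / 2 = 1 / 2 + 1 by norm_num, Real.Gamma_add_one (by norm_num),
        Real.Gamma_one_half_eq]
      ring
    rw [e3, e1] at h1
    rw [div_eq_mul_inv (Real.sqrt Real.pi / 2), mul_comm (Real.sqrt Real.pi / 2), ← h1]
    refine setIntegral_congr_fun measurableSet_Ioi fun s hs => ?_
    have e2 : s ^ ((3:ℝ) / 2 - 1) = Real.sqrt s := by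
      rw [show (3:ℝ) / 2 - 1 = 1 / 2 by norm_num, ← Real.sqrt_eq_rpow]
    rw [e2]
    ring
  have hpos : 0 < Real.sqrt Real.pi / 2 / (c * Real.sqrt c) := by
    have h1 := Real.sqrt_pos.2 Real.pi_pos
    have h2 := Real.sqrt_pos.2 hc
    positivity
  exact ⟨Integrable.of_integral_ne_zero (by rw [hI]; exact hpos.ne'), hI⟩

/-- Tonelli. -/
lemma MXC_ton {k : ℝ → T3 → ℝ} (hk : Measurable (uncurry k)) {g : T3 → ℝ} (hg : Measurable g)
    (hg0 : ∀ x, 0 ≤ g x) {t : ℝ} (ht : 0 < t) {B : ℝ → ℝ} (hB : IntegrableOn B (Ioi (0:ℝ)))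
    (hB0 : ∀ s ∈ Ioi (0:ℝ), 0 ≤ B s)
    (h1 : ∀ s, t < s → ∫⁻ x, ENNReal.ofReal (|k s x| * g x) ∂lam3 ≤ ENNReal.ofReal (B s)) :
    ∫ x, |∫ s in Ioi t, k s x| * g x ∂lam3 ≤ ∫ s in Ioi (0:ℝ), B s := by
  have hm : StronglyMeasurable fun x => ∫ s in Ioi t, k s x :=
    hk.stronglyMeasurable.integral_prod_left
  have hv : AEStronglyMeasurable (fun x => |∫ s in Ioi t, k s x| * g x) lam3 := by
    have h2 : Measurable fun x => |∫ s in Ioi t, k s x| * g x := by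
      have h3 : Measurable fun x => |∫ s in Ioi t, k s x| := by
        simpa only [Real.norm_eq_abs] using hm.measurable.norm
      exact h3.mul hg
    exact h2.aestronglyMeasurable
  rw [integral_eq_lintegral_of_nonneg_ae
    (Eventually.of_forall fun x => mul_nonneg (abs_nonneg _) (hg0 x)) hv]
  refine ENNReal.toReal_le_of_le_ofReal (setIntegral_nonneg measurableSet_Ioi hB0) ?_
  have h2 : ∀ x, ENNReal.ofReal (|∫ s in Ioi t, k s x| * g x) ≤
      ∫⁻ s in Ioi t, ENNReal.ofReal (|k s x| * g x) := by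
    intro x
    have h3 : ∫⁻ s in Ioi t, ENNReal.ofReal (|k s x| * g x)
        = (∫⁻ s in Ioi t, ‖k s x‖ₑ) * ENNReal.ofReal (g x) := by
      rw [← lintegral_mul_const' _ _ ENNReal.ofReal_ne_top]
      refine lintegral_congr fun s => ?_
      rw [ENNReal.ofReal_mul (abs_nonneg _), Real.enorm_eq_ofReal_abs]
    rw [h3, ENNReal.ofReal_mul (abs_nonneg _), ← Real.enorm_eq_ofReal_abs]
    exact mul_le_mul' (enorm_integral_le_lintegral_enorm _) le_rfl
  have hmeas : Measurable (uncurry fun (x : T3) (s : ℝ) => ENNReal.ofReal (|k s x| * g x)) := by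
    have h3 : Measurable fun q : T3 × ℝ => k q.2 q.1 := hk.comp measurable_swap
    have h4 : Measurable fun q : T3 × ℝ => |k q.2 q.1| := by
      simpa only [Real.norm_eq_abs] using h3.norm
    exact (h4.mul (hg.comp measurable_fst)).ennreal_ofReal
  calc ∫⁻ x, ENNReal.ofReal (|∫ s in Ioi t, k s x| * g x) ∂lam3
      ≤ ∫⁻ x, (∫⁻ s in Ioi t, ENNReal.ofReal (|k s x| * g x)) ∂lam3 := lintegral_mono h2
    _ = ∫⁻ s in Ioi t, (∫⁻ x, ENNReal.ofReal (|k s x| * g x) ∂lam3) :=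
        lintegral_lintegral_swap hmeas.aemeasurable
    _ ≤ ∫⁻ s in Ioi t, ENNReal.ofReal (B s) :=
        setLIntegral_mono' measurableSet_Ioi fun s hs => h1 s hs
    _ ≤ ∫⁻ s in Ioi (0:ℝ), ENNReal.ofReal (B s) := lintegral_mono_set (Ioi_subset_Ioi ht.le)
    _ = ENNReal.ofReal (∫ s in Ioi (0:ℝ), B s) :=
        (ofReal_integral_eq_lintegral_ofReal hB (ae_restrict_of_forall_mem measurableSet_Ioi hB0)).symm

lemma MXC_hk_bm {s : ℝ} (hs : 0 < s) : BM (hk s) := by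
  refine ⟨(hkD_continuous 0 hs).measurable, (1 + (Real.sqrt (4 * Real.pi * s))⁻¹) ^ 3, fun x => ?_⟩
  rw [abs_of_nonneg (hk_nonneg s x)]
  exact hk_le hs x

lemma MXC_lint_hk {s : ℝ} (hs : 0 < s) {A : ℝ} (hA : 0 ≤ A) {v : T3 → ℝ}
    (hv : ∀ x, v x ≤ A * hk s x) : ∫⁻ x, ENNReal.ofReal (v x) ∂lam3 ≤ ENNReal.ofReal A := by
  have hi := ((MXC_hk_bm hs).integrable lam3).const_mul A
  calc ∫⁻ x, ENNReal.ofReal (v x) ∂lam3 ≤ ∫⁻ x, ENNReal.ofReal (A * hk s x) ∂lam3 :=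
        lintegral_mono fun x => ENNReal.ofReal_le_ofReal (hv x)
    _ = ENNReal.ofReal (∫ x, A * hk s x ∂lam3) :=
        (ofReal_integral_eq_lintegral_ofReal hi (Eventually.of_forall fun x =>
          mul_nonneg hA (hk_nonneg s x))).symm
    _ = ENNReal.ofReal A := by rw [integral_const_mul, hk_integral hs, mul_one]

lemma MXC_lint_hk_rr {s : ℝ} (hs : 0 < s) {A : ℝ} (hA : 0 ≤ A) {v : T3 → ℝ}
    (hv : ∀ x, v x ≤ A * hk s x) :
    ∫⁻ x, ENNReal.ofReal (v x * rr x) ∂lam3 ≤ ENNReal.ofReal (A * (3 * Real.sqrt s)) := by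
  have hi := (((JData.rr_bm').mul (MXC_hk_bm hs)).integrable lam3).const_mul A
  calc ∫⁻ x, ENNReal.ofReal (v x * rr x) ∂lam3 ≤ ∫⁻ x, ENNReal.ofReal (A * (rr x * hk s x)) ∂lam3 := by
        refine lintegral_mono fun x => ENNReal.ofReal_le_ofReal ?_
        have := mul_le_mul_of_nonneg_right (hv x) (rr_nonneg x)
        linarith
    _ = ENNReal.ofReal (∫ x, A * (rr x * hk s x) ∂lam3) :=
        (ofReal_integral_eq_lintegral_ofReal hi (Eventually.of_forall fun x =>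
          mul_nonneg hA (mul_nonneg (rr_nonneg x) (hk_nonneg s x)))).symm
    _ ≤ _ := by
        rw [integral_const_mul]
        exact ENNReal.ofReal_le_ofReal (mul_le_mul_of_nonneg_left (hk_moment_one hs) hA)

lemma MXC_meas {ω : ℝ → ℝ} (hω : Measurable ω) (D : Fin 3 → ℕ) :
    Measurable (uncurry fun (s : ℝ) (x : T3) => ω s * hkD D s x) := by
  have h1 : Measurable fun q : ℝ × T3 => ω q.1 * hkD D q.1 q.2 :=
    (hω.comp measurable_fst).mul (hkD_measurable D)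
  exact h1

lemma MXC_sqrt_pi : Real.sqrt Real.pi ≤ 2 := by
  rw [Real.sqrt_le_left (by norm_num)]
  linarith [Real.pi_lt_four]

section
variable {ω : ℝ → ℝ} {t M c : ℝ}

theorem mix0_le (h : MixOk ω t M c) (x : T3) : mix0 ω t x ≤ 4 * M * (1 / c + 1 / Real.sqrt t) := by
  have hM := MXC_M h
  have ht := h.t_pos
  have hc := h.c_pos
  obtain ⟨i1, e1⟩ := MXC_exp hc ht
  obtain ⟨i2, e2⟩ := MXC_three ht
  have hig : IntegrableOn (fun s => 4 * M * Real.exp (-(c * s)) + M / 2 * (Real.sqrt s)⁻¹ ^ 3)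
      (Ioi t) := (i1.const_mul _).add (i2.const_mul _)
  have h1 : mix0 ω t x ≤
      ∫ s in Ioi t, (4 * M * Real.exp (-(c * s)) + M / 2 * (Real.sqrt s)⁻¹ ^ 3) := by
    refine setIntegral_mono_on (mix_integrable h x).1 hig measurableSet_Ioi fun s hs => ?_
    have hs' : t < s := hs
    have hs0 : 0 < s := ht.trans hs'
    have a1 := h.le s hs'
    have a2 := MXC_hk_le hs0 x
    have a3 : Real.exp (-(c * s)) ≤ 1 := by
      rw [Real.exp_le_one_iff]
      have : 0 < c * s := by positivity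
      linarith
    have a4 : 0 ≤ (Real.sqrt s)⁻¹ ^ 3 := by positivity
    calc ω s * hk s x ≤ (M * Real.exp (-(c * s))) * (4 + 1 / 2 * (Real.sqrt s)⁻¹ ^ 3) :=
          mul_le_mul a1 a2 (hk_nonneg s x) (by positivity)
      _ = 4 * M * Real.exp (-(c * s)) + M * Real.exp (-(c * s)) * (1 / 2 * (Real.sqrt s)⁻¹ ^ 3) := by
          ring
      _ ≤ 4 * M * Real.exp (-(c * s)) + M * 1 * (1 / 2 * (Real.sqrt s)⁻¹ ^ 3) := by
          have := mul_le_mul_of_nonneg_right (mul_le_mul_of_nonneg_left a3 hM)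
            (by positivity : 0 ≤ 1 / 2 * (Real.sqrt s)⁻¹ ^ 3)
          linarith
      _ = _ := by ring
  refine h1.trans ?_
  rw [integral_add (i1.const_mul _) (i2.const_mul _), integral_const_mul, integral_const_mul, e2]
  have h2 : 4 * M * ∫ s in Ioi t, Real.exp (-(c * s)) ≤ 4 * M * (1 / c) :=
    mul_le_mul_of_nonneg_left e1 (by positivity)
  have h3 : M / 2 * (2 / Real.sqrt t) ≤ 4 * M * (1 / Real.sqrt t) := by
    have h4 : 0 ≤ 1 / Real.sqrt t := by positivity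
    have h5 : M / 2 * (2 / Real.sqrt t) = M * (1 / Real.sqrt t) := by ring
    rw [h5]
    nlinarith [mul_nonneg hM h4]
  rw [mul_add]
  linarith

theorem abs_mix2_le (h : MixOk ω t M c) (α β : Fin 3) (x : T3) :
    |mix2 ω t α β x| ≤ 24 * M * (1 / (c * t) + 1 / Real.sqrt t ^ 3) := by
  have hM := MXC_M h
  have ht := h.t_pos
  have hc := h.c_pos
  obtain ⟨i1, e1⟩ := MXC_exp hc ht
  obtain ⟨i2, e2⟩ := MXC_five ht
  have hig : IntegrableOn (fun s => 24 * M / t * Real.exp (-(c * s)) + 3 * M * (Real.sqrt s)⁻¹ ^ 5)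
      (Ioi t) := (i1.const_mul _).add (i2.const_mul _)
  have h1 : |mix2 ω t α β x| ≤
      ∫ s in Ioi t, (24 * M / t * Real.exp (-(c * s)) + 3 * M * (Real.sqrt s)⁻¹ ^ 5) := by
    have h0 : |mix2 ω t α β x| ≤ ∫ s in Ioi t, |ω s * ddhk α β s x| := by
      unfold mix2
      simpa only [Real.norm_eq_abs] using
        norm_integral_le_integral_norm (μ := volume.restrict (Ioi t)) (fun s => ω s * ddhk α β s x)
    refine h0.trans ?_
    refine setIntegral_mono_on ((mix_integrable h x).2.2 α β).abs hig measurableSet_Ioi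
      fun s hs => ?_
    have hs' : t < s := hs
    have hs0 : 0 < s := ht.trans hs'
    have a1 := h.le s hs'
    have a2 := MXC_hk_le (s := 2 * s) (by linarith) x
    have a3 : Real.exp (-(c * s)) ≤ 1 := by
      rw [Real.exp_le_one_iff]
      have : 0 < c * s := by positivity
      linarith
    have a5 : (Real.sqrt (2 * s))⁻¹ ≤ (Real.sqrt s)⁻¹ :=
      inv_anti₀ (Real.sqrt_pos.2 hs0) (Real.sqrt_le_sqrt (by linarith))
    have a6 : (Real.sqrt (2 * s))⁻¹ ^ 3 ≤ (Real.sqrt s)⁻¹ ^ 3 :=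
      pow_le_pow_left₀ (by positivity) a5 3
    have a7 : |ddhk α β s x| ≤ 6 / s * (4 + 1 / 2 * (Real.sqrt s)⁻¹ ^ 3) :=
      (ddhk_le α β hs0 x).trans (mul_le_mul_of_nonneg_left (by linarith) (by positivity))
    have a8 : 1 / s ≤ 1 / t := one_div_le_one_div_of_le ht hs'.le
    have a9 : 1 / s = (Real.sqrt s)⁻¹ ^ 2 := by
      rw [inv_pow, Real.sq_sqrt hs0.le, one_div]
    rw [abs_mul, abs_of_nonneg (h.nonneg s hs')]
    calc ω s * |ddhk α β s x|
        ≤ (M * Real.exp (-(c * s))) * (6 / s * (4 + 1 / 2 * (Real.sqrt s)⁻¹ ^ 3)) :=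
          mul_le_mul a1 a7 (abs_nonneg _) (by positivity)
      _ = 24 * M * Real.exp (-(c * s)) * (1 / s)
          + 3 * M * Real.exp (-(c * s)) * ((1 / s) * (Real.sqrt s)⁻¹ ^ 3) := by ring
      _ ≤ 24 * M * Real.exp (-(c * s)) * (1 / t) + 3 * M * 1 * ((1 / s) * (Real.sqrt s)⁻¹ ^ 3) := by
          refine add_le_add (mul_le_mul_of_nonneg_left a8 (by positivity)) ?_
          exact mul_le_mul_of_nonneg_right (mul_le_mul_of_nonneg_left a3 (by positivity))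
            (by positivity)
      _ = 24 * M / t * Real.exp (-(c * s)) + 3 * M * (Real.sqrt s)⁻¹ ^ 5 := by
          rw [a9]
          ring
  refine h1.trans ?_
  rw [integral_add (i1.const_mul _) (i2.const_mul _), integral_const_mul, integral_const_mul, e2]
  have h2 : 24 * M / t * ∫ s in Ioi t, Real.exp (-(c * s)) ≤ 24 * M / t * (1 / c) :=
    mul_le_mul_of_nonneg_left e1 (by positivity)
  have h3 : 24 * M / t * (1 / c) = 24 * M * (1 / (c * t)) := by
    field_simp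
  have h4 : 3 * M * (2 / 3 * (1 / Real.sqrt t ^ 3)) ≤ 24 * M * (1 / Real.sqrt t ^ 3) := by
    have h5 : 0 ≤ 1 / Real.sqrt t ^ 3 := by positivity
    nlinarith [mul_nonneg hM h5]
  rw [mul_add]
  linarith

theorem int_mix1_le (h : MixOk ω t M c) (α : Fin 3) :
    ∫ x, |mix1 ω t α x| ∂lam3 ≤ 8 * M / Real.sqrt c := by
  have hM := MXC_M h
  have hc := h.c_pos
  obtain ⟨i1, e1⟩ := MXC_gamma hc
  have h1 := MXC_ton (k := fun s x => ω s * dhk α s x) (MXC_meas h.meas _) (g := fun _ => 1)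
    measurable_const (fun _ => zero_le_one) h.t_pos (i1.const_mul (4 * M))
    (fun s _ => by positivity) (fun s hs => by
      have hs0 : 0 < s := h.t_pos.trans hs
      refine MXC_lint_hk (s := 2 * s) (by linarith) (by positivity) fun x => ?_
      rw [mul_one, abs_mul, abs_of_nonneg (h.nonneg s hs)]
      calc ω s * |dhk α s x| ≤ (M * Real.exp (-(c * s))) * (4 / Real.sqrt s * hk (2 * s) x) :=
            mul_le_mul (h.le s hs) (dhk_le α hs0 x) (abs_nonneg _) (by positivity)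
        _ = _ := by ring)
  simp only [mul_one] at h1
  refine h1.trans ?_
  rw [integral_const_mul, e1]
  have h2 : 0 < Real.sqrt c := Real.sqrt_pos.2 hc
  rw [show 4 * M * (Real.sqrt Real.pi / Real.sqrt c) = 4 * M * Real.sqrt Real.pi / Real.sqrt c by ring]
  refine div_le_div_of_nonneg_right ?_ h2.le
  nlinarith [MXC_sqrt_pi]

theorem int_mix2_rr_le (h : MixOk ω t M c) (α β : Fin 3) :
    ∫ x, |mix2 ω t α β x| * rr x ∂lam3 ≤ 50 * M / Real.sqrt c := by
  have hM := MXC_M h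
  have hc := h.c_pos
  obtain ⟨i1, e1⟩ := MXC_gamma hc
  have h1 := MXC_ton (k := fun s x => ω s * ddhk α β s x) (MXC_meas h.meas _) (g := rr)
    (JData.rr_bm').1 rr_nonneg h.t_pos (i1.const_mul (18 * Real.sqrt 2 * M))
    (fun s _ => by positivity) (fun s hs => by
      have hs0 : 0 < s := h.t_pos.trans hs
      refine (MXC_lint_hk_rr (s := 2 * s) (A := M * Real.exp (-(c * s)) * (6 / s)) (by linarith)
        (by positivity) fun x => ?_).trans (le_of_eq ?_)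
      · rw [abs_mul, abs_of_nonneg (h.nonneg s hs)]
        calc ω s * |ddhk α β s x| ≤ (M * Real.exp (-(c * s))) * (6 / s * hk (2 * s) x) :=
              mul_le_mul (h.le s hs) (ddhk_le α β hs0 x) (abs_nonneg _) (by positivity)
          _ = _ := by ring
      · congr 1
        have hA : 0 < Real.sqrt s := Real.sqrt_pos.2 hs0
        have hA2 : s = Real.sqrt s ^ 2 := (Real.sq_sqrt hs0.le).symm
        have e3 : 6 / s * (3 * Real.sqrt (2 * s)) = 18 * Real.sqrt 2 * (Real.sqrt s)⁻¹ := by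
          rw [Real.sqrt_mul (by norm_num)]
          have e4 : 6 / s = 6 * ((Real.sqrt s)⁻¹ * (Real.sqrt s)⁻¹) := by
            rw [← mul_inv, ← pow_two, ← hA2, div_eq_mul_inv]
          rw [e4]
          field_simp
          ring
        rw [mul_assoc (M * Real.exp (-(c * s))), e3]
        ring)
  refine h1.trans ?_
  rw [integral_const_mul, e1]
  have h2 : 0 < Real.sqrt c := Real.sqrt_pos.2 hc
  have h3 : Real.sqrt 2 * Real.sqrt Real.pi ≤ 25 / 9 := by
    rw [← Real.sqrt_mul (by norm_num), Real.sqrt_le_left (by norm_num)]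
    linarith [Real.pi_lt_d2]
  rw [show 18 * Real.sqrt 2 * M * (Real.sqrt Real.pi / Real.sqrt c)
    = 18 * M * (Real.sqrt 2 * Real.sqrt Real.pi) / Real.sqrt c by ring]
  refine div_le_div_of_nonneg_right ?_ h2.le
  nlinarith [mul_le_mul_of_nonneg_left h3 hM]

theorem int_mix0_rr_le (h : MixOk ω t M c) :
    ∫ x, mix0 ω t x * rr x ∂lam3 ≤ 3 * M / (c * Real.sqrt c) := by
  have hM := MXC_M h
  have hc := h.c_pos
  obtain ⟨i1, e1⟩ := MXC_gamma' hc
  have h1 := MXC_ton (k := fun s x => ω s * hk s x) (MXC_meas h.meas _) (g := rr)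
    (JData.rr_bm').1 rr_nonneg h.t_pos (i1.const_mul (3 * M))
    (fun s _ => by positivity) (fun s hs => by
      have hs0 : 0 < s := h.t_pos.trans hs
      refine (MXC_lint_hk_rr (s := s) (A := M * Real.exp (-(c * s))) hs0
        (by positivity) fun x => ?_).trans (le_of_eq ?_)
      · rw [abs_of_nonneg (mul_nonneg (h.nonneg s hs) (hk_nonneg s x))]
        exact mul_le_mul_of_nonneg_right (h.le s hs) (hk_nonneg s x)
      · congr 1
        ring)
  have h4 : ∫ x, mix0 ω t x * rr x ∂lam3 = ∫ x, |∫ s in Ioi t, ω s * hk s x| * rr x ∂lam3 := by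
    refine integral_congr_ae (Eventually.of_forall fun x => ?_)
    have h5 : |∫ s in Ioi t, ω s * hk s x| = mix0 ω t x := abs_of_nonneg (mix0_nonneg h x)
    simp only [h5]
  rw [h4]
  refine h1.trans ?_
  rw [integral_const_mul, e1]
  have h2 : 0 < Real.sqrt c := Real.sqrt_pos.2 hc
  rw [show 3 * M * (Real.sqrt Real.pi / 2 / (c * Real.sqrt c))
    = 3 * M * (Real.sqrt Real.pi / 2) / (c * Real.sqrt c) by ring]
  refine div_le_div_of_nonneg_right ?_ (by positivity)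
  nlinarith [mul_le_mul_of_nonneg_left MXC_sqrt_pi hM]

end

end Pool.Agent.Lib.MP_4952d6_mp

end

/-! ### U.MXC2 -/

section

/-!
# MXC2: Parseval bounds of mixtures

(6) Parseval: `∫ (mix1 α)² = Σ (kc p α)² mixh² ≤ Σ ksq p mixh² ≤ M Σ mixh = M mix0(0)` (`ksq_mul_mixh_le`).
Fourier coefficients of `mix1`: Fubini and `fc3_dhk` (or `WD.fourier` with `mix0_WD` if you import MXB); Parseval on the torus:
`parseval3`-type lemmas in `Torus.lean`/`L2.lean` (search `parseval`), or `tsum_sq_fourierCoeff`-type arguments. ALTERNATIVE without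
Parseval: `∫ mix1 α x * mix1 α x = ∫∫ ω(s) ω(r) (∫ dhk α s x * dhk α r x dx)` and
`∫ dhk α s * dhk α r = Σ_p (kc p α)² exp(-(s+r) ksq p)`.
(7) Two mixtures: `Σ_p mixh ω t p * mixh ω' t' p = ∫∫ ω(s) ω'(r) (Σ_p exp(-(s+r) ksq p)) = ∫∫ ω(s) ω'(r) hk (s+r) 0`
`≤ M M' ∫∫ e^{-cs} e^{-c'r} 4 (1 + (s+r)^{-3/2}) ≤ 4 M M' (1/(c c') + ∫ e^{-cs} 2 s^{-1/2} ds) ≤ 4 M M' (1/(c c') + 4/√c)`
(all terms nonnegative: exchange sums and integrals in `ℝ≥0∞` or with `hasSum_integral_of_summable_integral_norm`; a one line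
alternative: `mixh ω' t' p ≤ M' ∫_0^∞ e^{-(c'+ksq p) r} dr`, so for fixed `s`: `Σ_p e^{-s ksq p} mixh ω' t' p = mix-type sum`).
-/

set_option autoImplicit false
set_option linter.unusedSectionVars false
set_option linter.unusedVariables false
open MeasureTheory Function Filter Topology Set
open scoped ENNReal

namespace Pool.Agent.Lib.MP_4952d6_mp

section
variable {ω : ℝ → ℝ} {t M c : ℝ}

theorem MXC2_M (h : MixOk ω t M c) : 0 ≤ M := by
  have h1 := h.nonneg (t + 1) (by linarith)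
  have h2 := h.le (t + 1) (by linarith)
  have h3 := Real.exp_pos (-(c * (t + 1)))
  by_contra hM
  have h4 : M * Real.exp (-(c * (t + 1))) < 0 := mul_neg_of_neg_of_pos (not_le.1 hM) h3
  linarith

theorem MXC2_kc_sq_le (p : Fin 3 → ℤ) (α : Fin 3) : kc p α ^ 2 ≤ ksq p := by
  unfold kc ksq mom2
  have h := Finset.single_le_sum (f := fun β => (p β : ℝ) ^ 2) (fun β _ => sq_nonneg _)
    (Finset.mem_univ α)
  have h2 : 0 ≤ 4 * Real.pi ^ 2 := by positivity
  have h3 := mul_le_mul_of_nonneg_left h h2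
  calc (2 * Real.pi * (p α : ℝ)) ^ 2 = 4 * Real.pi ^ 2 * (p α : ℝ) ^ 2 := by ring
    _ ≤ _ := h3

theorem MXC2_hk_bd {t : ℝ} (ht : 0 < t) : ∃ B, 0 ≤ B ∧ ∀ s, t < s → ∀ x : T3, |hk s x| ≤ B := by
  refine ⟨(1 + (Real.sqrt (4 * Real.pi * t))⁻¹) ^ 3, by positivity, ?_⟩
  intro s hs x
  have hs0 : 0 < s := ht.trans hs
  have hpi := Real.pi_pos
  rw [abs_of_nonneg (hk_nonneg s x)]
  refine (hk_le hs0 x).trans ?_
  have h1 : (Real.sqrt (4 * Real.pi * s))⁻¹ ≤ (Real.sqrt (4 * Real.pi * t))⁻¹ := by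
    refine inv_anti₀ (Real.sqrt_pos.2 (by positivity)) (Real.sqrt_le_sqrt ?_)
    have : 0 ≤ 4 * Real.pi := by positivity
    nlinarith
  have h2 : 0 ≤ (Real.sqrt (4 * Real.pi * s))⁻¹ := by positivity
  exact pow_le_pow_left₀ (by linarith) (by linarith) 3

theorem MXC2_dhk_bd {t : ℝ} (ht : 0 < t) (α : Fin 3) :
    ∃ B, 0 ≤ B ∧ ∀ s, t < s → ∀ x : T3, |dhk α s x| ≤ B := by
  obtain ⟨B, hB0, hB⟩ := MXC2_hk_bd ht
  refine ⟨4 / Real.sqrt t * B, by positivity, ?_⟩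
  intro s hs x
  have hs0 : 0 < s := ht.trans hs
  have hst := Real.sqrt_pos.2 ht
  refine (dhk_le α hs0 x).trans ?_
  have h1 : 4 / Real.sqrt s ≤ 4 / Real.sqrt t :=
    div_le_div_of_nonneg_left (by norm_num) hst (Real.sqrt_le_sqrt hs.le)
  have h2 : hk (2 * s) x ≤ B := (le_abs_self _).trans (hB (2 * s) (by linarith) x)
  exact mul_le_mul h1 h2 (hk_nonneg _ _) (by positivity)

theorem MXC2_integrable (h : MixOk ω t M c) (D : Fin 3 → ℕ) {B : ℝ} (hB0 : 0 ≤ B)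
    (hB : ∀ s, t < s → ∀ x, |hkD D s x| ≤ B) (p : Fin 3 → ℤ) :
    Integrable (fun q : T3 × ℝ => (starRingEnd ℂ) (ch p q.1) * ((ω q.2 * hkD D q.2 q.1 : ℝ) : ℂ))
      (lam3.prod (volume.restrict (Ioi t))) := by
  have hM := MXC2_M h
  have hexp : IntegrableOn (fun s : ℝ => Real.exp (-(c * s))) (Ioi t) := by
    have := integrableOn_exp_mul_Ioi (a := -c) (by linarith [h.c_pos]) t
    simpa only [neg_mul] using this
  have hg : Integrable (fun q : T3 × ℝ => M * Real.exp (-(c * q.2)) * B)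
      (lam3.prod (volume.restrict (Ioi t))) := by
    have h1 : Integrable (fun s : ℝ => M * Real.exp (-(c * s)) * B) (volume.restrict (Ioi t)) :=
      (hexp.const_mul M).mul_const B
    exact h1.comp_snd lam3
  have hmeas : Measurable (fun q : T3 × ℝ => ω q.2 * hkD D q.2 q.1) :=
    (h.meas.comp measurable_snd).mul ((hkD_measurable D).comp measurable_swap)
  refine Integrable.mono' hg ?_ ?_
  · refine Measurable.aestronglyMeasurable ?_
    refine Measurable.mul ?_ (Complex.measurable_ofReal.comp hmeas)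
    exact (Complex.continuous_conj.measurable.comp ((ch_continuous p).measurable)).comp measurable_fst
  · have hq : Measure.QuasiMeasurePreserving (Prod.snd : T3 × ℝ → ℝ)
        (lam3.prod (volume.restrict (Ioi t))) (volume.restrict (Ioi t)) :=
      Measure.quasiMeasurePreserving_snd
    have h2 := hq.ae (ae_restrict_mem measurableSet_Ioi)
    filter_upwards [h2] with q hq2
    have hq3 : t < q.2 := hq2
    rw [norm_mul, RCLike.norm_conj, ch_norm, one_mul, Complex.norm_real, Real.norm_eq_abs, abs_mul,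
      abs_of_nonneg (h.nonneg _ hq3)]
    exact mul_le_mul (h.le _ hq3) (hB _ hq3 _) (abs_nonneg _) (by positivity)

theorem MXC2_fc3 (h : MixOk ω t M c) (D : Fin 3 → ℕ) {B : ℝ} (hB0 : 0 ≤ B)
    (hB : ∀ s, t < s → ∀ x, |hkD D s x| ≤ B) (p : Fin 3 → ℤ) :
    fc3 (fun x => ((∫ s in Ioi t, ω s * hkD D s x : ℝ) : ℂ)) p =
      ∫ s in Ioi t, (ω s : ℂ) * fc3 (fun x => (hkD D s x : ℂ)) p := by
  have hint := MXC2_integrable h D hB0 hB p
  unfold fc3
  have e1 : ∀ x : T3, (starRingEnd ℂ) (ch p x) * ((∫ s in Ioi t, ω s * hkD D s x : ℝ) : ℂ) =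
      ∫ s in Ioi t, (starRingEnd ℂ) (ch p x) * ((ω s * hkD D s x : ℝ) : ℂ) := by
    intro x
    rw [← integral_complex_ofReal, ← integral_const_mul]
  calc ∫ x, (starRingEnd ℂ) (ch p x) * ((∫ s in Ioi t, ω s * hkD D s x : ℝ) : ℂ) ∂lam3
      = ∫ x, (∫ s in Ioi t, (starRingEnd ℂ) (ch p x) * ((ω s * hkD D s x : ℝ) : ℂ)) ∂lam3 := by
        refine integral_congr_ae (Eventually.of_forall fun x => e1 x)
    _ = ∫ s in Ioi t, ∫ x, (starRingEnd ℂ) (ch p x) * ((ω s * hkD D s x : ℝ) : ℂ) ∂lam3 :=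
        integral_integral_swap hint
    _ = ∫ s in Ioi t, (ω s : ℂ) * ∫ x, (starRingEnd ℂ) (ch p x) * (hkD D s x : ℂ) ∂lam3 := by
        refine integral_congr_ae (Eventually.of_forall fun s => ?_)
        show ∫ x, (starRingEnd ℂ) (ch p x) * ((ω s * hkD D s x : ℝ) : ℂ) ∂lam3 =
          (ω s : ℂ) * ∫ x, (starRingEnd ℂ) (ch p x) * (hkD D s x : ℂ) ∂lam3
        rw [← integral_const_mul]
        refine integral_congr_ae (Eventually.of_forall fun x => ?_)
        show (starRingEnd ℂ) (ch p x) * ((ω s * hkD D s x : ℝ) : ℂ) =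
          (ω s : ℂ) * ((starRingEnd ℂ) (ch p x) * (hkD D s x : ℂ))
        push_cast
        ring

theorem MXC2_fc3_mix0 (h : MixOk ω t M c) (p : Fin 3 → ℤ) :
    fc3 (fun x => (mix0 ω t x : ℂ)) p = (mixh ω t p : ℂ) := by
  obtain ⟨B, hB0, hB⟩ := MXC2_hk_bd h.t_pos
  have h1 := MXC2_fc3 h 0 hB0 hB p
  have h2 : fc3 (fun x => (mix0 ω t x : ℂ)) p =
      fc3 (fun x => ((∫ s in Ioi t, ω s * hkD 0 s x : ℝ) : ℂ)) p := rfl
  rw [h2, h1]
  unfold mixh
  rw [← integral_complex_ofReal]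
  refine setIntegral_congr_fun measurableSet_Ioi ?_
  intro s hs
  have hs0 : 0 < s := h.t_pos.trans hs
  show (ω s : ℂ) * fc3 (fun x => (hk s x : ℂ)) p = ((ω s * Real.exp (-(s * ksq p)) : ℝ) : ℂ)
  rw [fc3_hk hs0]
  push_cast
  ring

theorem MXC2_fc3_mix1 (h : MixOk ω t M c) (α : Fin 3) (p : Fin 3 → ℤ) :
    fc3 (fun x => (mix1 ω t α x : ℂ)) p = Complex.I * (kc p α : ℂ) * (mixh ω t p : ℂ) := by
  obtain ⟨B, hB0, hB⟩ := MXC2_dhk_bd h.t_pos α
  have h1 := MXC2_fc3 h (Pi.single α 1) hB0 hB p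
  have h2 : fc3 (fun x => (mix1 ω t α x : ℂ)) p =
      fc3 (fun x => ((∫ s in Ioi t, ω s * hkD (Pi.single α 1) s x : ℝ) : ℂ)) p := rfl
  rw [h2, h1]
  unfold mixh
  rw [← integral_complex_ofReal, ← integral_const_mul]
  refine setIntegral_congr_fun measurableSet_Ioi ?_
  intro s hs
  have hs0 : 0 < s := h.t_pos.trans hs
  show (ω s : ℂ) * fc3 (fun x => (dhk α s x : ℂ)) p =
    Complex.I * (kc p α : ℂ) * ((ω s * Real.exp (-(s * ksq p)) : ℝ) : ℂ)
  rw [fc3_dhk α hs0]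
  push_cast
  ring

theorem MXC2_exp_integral {a : ℝ} (ha : 0 < a) :
    IntegrableOn (fun r : ℝ => Real.exp (-(a * r))) (Ioi 0) ∧
      ∫ r in Ioi (0:ℝ), Real.exp (-(a * r)) = 1 / a := by
  have h1 := integrableOn_exp_mul_Ioi (a := -a) (by linarith) 0
  have h2 := integral_exp_mul_Ioi (a := -a) (by linarith) 0
  simp only [neg_mul] at h1 h2
  refine ⟨h1, ?_⟩
  rw [h2]
  simp

theorem MXC2_mixh_le (h : MixOk ω t M c) (p : Fin 3 → ℤ) : mixh ω t p ≤ M * (1 / (c + ksq p)) := by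
  have hM := MXC2_M h
  have hk0 := HKE_ksq_nonneg p
  have ha : 0 < c + ksq p := by linarith [h.c_pos]
  obtain ⟨h1, h2⟩ := MXC2_exp_integral ha
  unfold mixh
  have hsub : Ioi t ⊆ Ioi (0:ℝ) := Ioi_subset_Ioi h.t_pos.le
  calc ∫ s in Ioi t, ω s * Real.exp (-(s * ksq p))
      ≤ ∫ s in Ioi t, M * Real.exp (-((c + ksq p) * s)) := by
        refine setIntegral_mono_on (mixh_integrable h p) ((h1.mono_set hsub).const_mul M)
          measurableSet_Ioi ?_
        intro s hs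
        have e : Real.exp (-((c + ksq p) * s)) = Real.exp (-(c * s)) * Real.exp (-(s * ksq p)) := by
          rw [← Real.exp_add]
          congr 1
          ring
        rw [e, ← mul_assoc]
        exact mul_le_mul_of_nonneg_right (h.le s hs) (Real.exp_pos _).le
    _ ≤ ∫ s in Ioi (0:ℝ), M * Real.exp (-((c + ksq p) * s)) := by
        refine setIntegral_mono_set (h1.const_mul M) ?_ (Eventually.of_forall hsub)
        exact Eventually.of_forall fun s => by positivity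
    _ = M * (1 / (c + ksq p)) := by
        rw [integral_const_mul, h2]

theorem MXC2_hk_zero {σ : ℝ} (hσ : 0 < σ) : hk σ 0 ≤ 4 * (1 + (Real.sqrt σ)⁻¹ ^ 3) := by
  have h1 := hk_le hσ (0 : T3)
  have hpi := Real.pi_gt_three
  have hy : (Real.sqrt (4 * Real.pi * σ))⁻¹ ≤ (Real.sqrt σ)⁻¹ := by
    refine inv_anti₀ (Real.sqrt_pos.2 hσ) (Real.sqrt_le_sqrt ?_)
    nlinarith
  have hy0 : 0 ≤ (Real.sqrt (4 * Real.pi * σ))⁻¹ := by positivity
  have h2 : (1 + (Real.sqrt (4 * Real.pi * σ))⁻¹) ^ 3 ≤ (1 + (Real.sqrt σ)⁻¹) ^ 3 :=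
    pow_le_pow_left₀ (by linarith) (by linarith) 3
  have hz : 0 ≤ (Real.sqrt σ)⁻¹ := by positivity
  refine h1.trans (h2.trans ?_)
  generalize (Real.sqrt σ)⁻¹ = z at hz
  nlinarith [mul_nonneg (by linarith : (0:ℝ) ≤ 1 + z) (sq_nonneg (1 - z))]

theorem MXC2_sum_exp {σ : ℝ} (hσ : 0 < σ) (u : Finset (Fin 3 → ℤ)) :
    ∑ p ∈ u, Real.exp (-(σ * ksq p)) ≤ 4 * (1 + (Real.sqrt σ)⁻¹ ^ 3) := by
  have h1 := hasSum_hk hσ (0 : T3)
  have h2 : HasSum (fun p : Fin 3 → ℤ => Real.exp (-(σ * ksq p))) (hk σ 0) := by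
    rw [← Complex.hasSum_ofReal]
    refine h1.congr_fun ?_
    intro p
    have : ch p (0 : T3) = 1 := by
      have h3 := ch_add_arg p 0 0
      rw [add_zero] at h3
      have h4 : ch p (0 : T3) ≠ 0 := by
        intro h5
        have h6 := ch_norm p 0
        rw [h5, norm_zero] at h6
        exact zero_ne_one h6
      have h7 : ch p (0 : T3) * 1 = ch p 0 * ch p 0 := by rw [mul_one]; exact h3
      exact (mul_left_cancel₀ h4 h7).symm
    rw [this, mul_one]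
  exact (sum_le_hasSum u (fun p _ => (Real.exp_pos _).le) h2).trans (MXC2_hk_zero hσ)

theorem MXC2_rpow_int {s : ℝ} (hs : 0 < s) :
    IntegrableOn (fun r : ℝ => (Real.sqrt (s + r))⁻¹ ^ 3) (Ioi 0) ∧
      ∫ r in Ioi (0:ℝ), (Real.sqrt (s + r))⁻¹ ^ 3 = 2 * (Real.sqrt s)⁻¹ := by
  have hd : ∀ r ∈ Ici (0:ℝ), HasDerivAt (fun r : ℝ => -(2 * (Real.sqrt (s + r))⁻¹))
      ((Real.sqrt (s + r))⁻¹ ^ 3) r := by
    intro r hr
    have hr0 : 0 ≤ r := hr
    have hsr : 0 < s + r := by linarith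
    have hq := Real.sqrt_pos.2 hsr
    have h1 : HasDerivAt (fun r : ℝ => s + r) 1 r := (hasDerivAt_id r).const_add s
    have h2 := h1.sqrt hsr.ne'
    have h3 := (h2.inv hq.ne').const_mul (2 : ℝ)
    refine h3.neg.congr_deriv ?_
    field_simp
  have hpos : ∀ r ∈ Ioi (0:ℝ), 0 ≤ (Real.sqrt (s + r))⁻¹ ^ 3 := fun r _ => by positivity
  have hlim : Tendsto (fun r : ℝ => -(2 * (Real.sqrt (s + r))⁻¹)) atTop (𝓝 0) := by
    have h1 : Tendsto (fun r : ℝ => Real.sqrt (s + r)) atTop atTop :=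
      Real.tendsto_sqrt_atTop.comp (tendsto_atTop_add_const_left atTop s tendsto_id)
    have h2 := (h1.inv_tendsto_atTop.const_mul (2:ℝ)).neg
    simpa using h2
  refine ⟨integrableOn_Ioi_deriv_of_nonneg' hd hpos hlim, ?_⟩
  rw [integral_Ioi_of_hasDerivAt_of_nonneg' hd hpos hlim]
  simp

theorem MXC2_gamma {c : ℝ} (hc : 0 < c) :
    IntegrableOn (fun s : ℝ => Real.exp (-(c * s)) * (Real.sqrt s)⁻¹) (Ioi 0) ∧
      ∫ s in Ioi (0:ℝ), Real.exp (-(c * s)) * (Real.sqrt s)⁻¹ ≤ 2 / Real.sqrt c := by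
  have h1 := Real.integral_rpow_mul_exp_neg_mul_Ioi (a := 1 / 2) (r := c) (by norm_num) hc
  have e1 : ∫ s in Ioi (0:ℝ), Real.exp (-(c * s)) * (Real.sqrt s)⁻¹ =
      ∫ s in Ioi (0:ℝ), s ^ ((1 / 2 : ℝ) - 1) * Real.exp (-(c * s)) := by
    refine setIntegral_congr_fun measurableSet_Ioi ?_
    intro s hs
    have hs0 : (0:ℝ) < s := hs
    show Real.exp (-(c * s)) * (Real.sqrt s)⁻¹ = s ^ ((1 / 2 : ℝ) - 1) * Real.exp (-(c * s))
    rw [mul_comm, Real.sqrt_eq_rpow, ← Real.rpow_neg hs0.le]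
    congr 2
    norm_num
  have e2 : (1 / c) ^ (1 / 2 : ℝ) * Real.Gamma (1 / 2) = Real.sqrt Real.pi / Real.sqrt c := by
    rw [Real.Gamma_one_half_eq, ← Real.sqrt_eq_rpow, Real.sqrt_div' _ hc.le, Real.sqrt_one]
    ring
  have hval : ∫ s in Ioi (0:ℝ), Real.exp (-(c * s)) * (Real.sqrt s)⁻¹ =
      Real.sqrt Real.pi / Real.sqrt c := by
    rw [e1, h1, e2]
  have hsc := Real.sqrt_pos.2 hc
  have hsp := Real.sqrt_pos.2 Real.pi_pos
  refine ⟨?_, ?_⟩
  · by_contra hn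
    have h2 := integral_undef hn
    have h3 : Real.sqrt Real.pi / Real.sqrt c = 0 := by rw [← hval]; exact h2
    have h4 : 0 < Real.sqrt Real.pi / Real.sqrt c := by positivity
    exact h4.ne' h3
  · rw [hval]
    refine div_le_div_of_nonneg_right ?_ hsc.le
    rw [Real.sqrt_le_left (by norm_num)]
    linarith [Real.pi_lt_four]

theorem MXC2_inner {c' s : ℝ} (hc' : 0 < c') (hs : 0 < s) (u : Finset (Fin 3 → ℤ)) :
    ∑ p ∈ u, Real.exp (-(s * ksq p)) * (1 / (c' + ksq p)) ≤ 4 * (1 / c' + 2 * (Real.sqrt s)⁻¹) := by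
  have e1 : ∀ p : Fin 3 → ℤ, Real.exp (-(s * ksq p)) * (1 / (c' + ksq p)) =
      ∫ r in Ioi (0:ℝ), Real.exp (-(s * ksq p)) * Real.exp (-((c' + ksq p) * r)) := by
    intro p
    have ha : 0 < c' + ksq p := by linarith [HKE_ksq_nonneg p]
    rw [integral_const_mul, (MXC2_exp_integral ha).2]
  have hI : ∀ p ∈ u, IntegrableOn (fun r : ℝ => Real.exp (-(s * ksq p)) *
      Real.exp (-((c' + ksq p) * r))) (Ioi 0) := by
    intro p _
    have ha : 0 < c' + ksq p := by linarith [HKE_ksq_nonneg p]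
    exact (MXC2_exp_integral ha).1.const_mul _
  have hc := MXC2_exp_integral hc'
  have hr := MXC2_rpow_int hs
  rw [Finset.sum_congr rfl fun p _ => e1 p, ← integral_finsetSum u hI]
  calc ∫ r in Ioi (0:ℝ), ∑ p ∈ u, Real.exp (-(s * ksq p)) * Real.exp (-((c' + ksq p) * r))
      ≤ ∫ r in Ioi (0:ℝ), 4 * (Real.exp (-(c' * r)) + (Real.sqrt (s + r))⁻¹ ^ 3) := by
        refine setIntegral_mono_on (integrable_finsetSum u hI) ((hc.1.add hr.1).const_mul 4)
          measurableSet_Ioi ?_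
        intro r hr0
        have hr1 : (0:ℝ) < r := hr0
        have e2 : ∑ p ∈ u, Real.exp (-(s * ksq p)) * Real.exp (-((c' + ksq p) * r)) =
            Real.exp (-(c' * r)) * ∑ p ∈ u, Real.exp (-((s + r) * ksq p)) := by
          rw [Finset.mul_sum]
          refine Finset.sum_congr rfl fun p _ => ?_
          rw [← Real.exp_add, ← Real.exp_add]
          congr 1
          ring
        rw [e2]
        have h1 := MXC2_sum_exp (σ := s + r) (by linarith) u
        have h2 : Real.exp (-(c' * r)) ≤ 1 := by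
          rw [Real.exp_le_one_iff]
          nlinarith
        have h3 := Real.exp_pos (-(c' * r))
        have h4 : 0 ≤ (Real.sqrt (s + r))⁻¹ ^ 3 := by positivity
        calc Real.exp (-(c' * r)) * ∑ p ∈ u, Real.exp (-((s + r) * ksq p))
            ≤ Real.exp (-(c' * r)) * (4 * (1 + (Real.sqrt (s + r))⁻¹ ^ 3)) :=
              mul_le_mul_of_nonneg_left h1 h3.le
          _ ≤ 4 * (Real.exp (-(c' * r)) + (Real.sqrt (s + r))⁻¹ ^ 3) := by nlinarith
    _ = 4 * (1 / c' + 2 * (Real.sqrt s)⁻¹) := by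
        rw [integral_const_mul, integral_add hc.1 hr.1, hc.2, hr.2]

theorem MXC2_outer {c c' : ℝ} (hc : 0 < c) (hc' : 0 < c') (u : Finset (Fin 3 → ℤ)) :
    ∑ p ∈ u, (1 / (c + ksq p)) * (1 / (c' + ksq p)) ≤ 4 * (1 / (c * c') + 4 / Real.sqrt c) := by
  have e1 : ∀ p : Fin 3 → ℤ, (1 / (c + ksq p)) * (1 / (c' + ksq p)) =
      ∫ s in Ioi (0:ℝ), Real.exp (-((c + ksq p) * s)) * (1 / (c' + ksq p)) := by
    intro p
    have ha : 0 < c + ksq p := by linarith [HKE_ksq_nonneg p]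
    rw [integral_mul_const, (MXC2_exp_integral ha).2]
  have hI : ∀ p ∈ u, IntegrableOn (fun s : ℝ => Real.exp (-((c + ksq p) * s)) *
      (1 / (c' + ksq p))) (Ioi 0) := by
    intro p _
    have ha : 0 < c + ksq p := by linarith [HKE_ksq_nonneg p]
    exact (MXC2_exp_integral ha).1.mul_const _
  have hc1 := MXC2_exp_integral hc
  have hg := MXC2_gamma hc
  rw [Finset.sum_congr rfl fun p _ => e1 p, ← integral_finsetSum u hI]
  have hc1' : IntegrableOn (fun s : ℝ => 1 / c' * Real.exp (-(c * s))) (Ioi 0) := hc1.1.const_mul _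
  have hg' : IntegrableOn (fun s : ℝ => 2 * (Real.exp (-(c * s)) * (Real.sqrt s)⁻¹)) (Ioi 0) :=
    hg.1.const_mul _
  calc ∫ s in Ioi (0:ℝ), ∑ p ∈ u, Real.exp (-((c + ksq p) * s)) * (1 / (c' + ksq p))
      ≤ ∫ s in Ioi (0:ℝ), 4 * (1 / c' * Real.exp (-(c * s)) +
          2 * (Real.exp (-(c * s)) * (Real.sqrt s)⁻¹)) := by
        refine setIntegral_mono_on (integrable_finsetSum u hI) ((hc1'.add hg').const_mul 4)
          measurableSet_Ioi ?_
        intro s hs0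
        have hs1 : (0:ℝ) < s := hs0
        have e2 : ∑ p ∈ u, Real.exp (-((c + ksq p) * s)) * (1 / (c' + ksq p)) =
            Real.exp (-(c * s)) * ∑ p ∈ u, Real.exp (-(s * ksq p)) * (1 / (c' + ksq p)) := by
          rw [Finset.mul_sum]
          refine Finset.sum_congr rfl fun p _ => ?_
          rw [← mul_assoc, ← Real.exp_add]
          congr 2
          ring
        rw [e2]
        have h1 := MXC2_inner hc' hs1 u
        have h3 := Real.exp_pos (-(c * s))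
        calc Real.exp (-(c * s)) * ∑ p ∈ u, Real.exp (-(s * ksq p)) * (1 / (c' + ksq p))
            ≤ Real.exp (-(c * s)) * (4 * (1 / c' + 2 * (Real.sqrt s)⁻¹)) :=
              mul_le_mul_of_nonneg_left h1 h3.le
          _ = 4 * (1 / c' * Real.exp (-(c * s)) +
                2 * (Real.exp (-(c * s)) * (Real.sqrt s)⁻¹)) := by ring
    _ = 4 * (1 / c' * (1 / c) + 2 * ∫ s in Ioi (0:ℝ), Real.exp (-(c * s)) * (Real.sqrt s)⁻¹) := by
        rw [integral_const_mul, integral_add hc1' hg', integral_const_mul, integral_const_mul, hc1.2]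
    _ ≤ 4 * (1 / (c * c') + 4 / Real.sqrt c) := by
        have h1 := hg.2
        have e3 : 1 / c' * (1 / c) = 1 / (c * c') := by
          rw [one_div_mul_one_div]
          congr 1
          ring
        have e4 : 4 / Real.sqrt c = 2 * (2 / Real.sqrt c) := by ring
        rw [e3, e4]
        linarith

theorem MXC2_finset (h : MixOk ω t M c) {ω' : ℝ → ℝ} {t' M' c' : ℝ} (h' : MixOk ω' t' M' c')
    (u : Finset (Fin 3 → ℤ)) :
    ∑ p ∈ u, mixh ω t p * mixh ω' t' p ≤ 4 * M * M' * (1 / (c * c') + 4 / Real.sqrt c) := by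
  have hM := MXC2_M h
  have hM' := MXC2_M h'
  calc ∑ p ∈ u, mixh ω t p * mixh ω' t' p
      ≤ ∑ p ∈ u, (M * (1 / (c + ksq p))) * (M' * (1 / (c' + ksq p))) := by
        refine Finset.sum_le_sum fun p _ => ?_
        have ha : 0 < c + ksq p := by linarith [HKE_ksq_nonneg p, h.c_pos]
        exact mul_le_mul (MXC2_mixh_le h p) (MXC2_mixh_le h' p) (mixh_nonneg h' p) (by positivity)
    _ = M * M' * ∑ p ∈ u, (1 / (c + ksq p)) * (1 / (c' + ksq p)) := by
        rw [Finset.mul_sum]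
        refine Finset.sum_congr rfl fun p _ => ?_
        ring
    _ ≤ M * M' * (4 * (1 / (c * c') + 4 / Real.sqrt c)) :=
        mul_le_mul_of_nonneg_left (MXC2_outer h.c_pos h'.c_pos u) (mul_nonneg hM hM')
    _ = 4 * M * M' * (1 / (c * c') + 4 / Real.sqrt c) := by ring

theorem int_mix1_sq_le (h : MixOk ω t M c) (α : Fin 3) :
    ∫ x, mix1 ω t α x ^ 2 ∂lam3 ≤ M * mix0 ω t 0 := by
  have h1 := parseval3_sq (bm_memLp3 (mix1_bm h α))
  have e1 : ∫ x, ‖(mix1 ω t α x : ℂ)‖ ^ 2 ∂lam3 = ∫ x, mix1 ω t α x ^ 2 ∂lam3 := by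
    refine integral_congr_ae (Eventually.of_forall fun x => ?_)
    show ‖(mix1 ω t α x : ℂ)‖ ^ 2 = mix1 ω t α x ^ 2
    rw [Complex.norm_real, Real.norm_eq_abs, sq_abs]
  rw [e1] at h1
  have hsum := mixh_summable h
  rw [mix0_zero_eq h, ← tsum_mul_left]
  refine hasSum_le (fun p => ?_) h1 (hsum.mul_left M).hasSum
  rw [MXC2_fc3_mix1 h α p, norm_mul, norm_mul, Complex.norm_I, one_mul, Complex.norm_real,
    Complex.norm_real, Real.norm_eq_abs, Real.norm_eq_abs, mul_pow, sq_abs, sq_abs]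
  have h2 := mixh_nonneg h p
  have h3 := MXC2_kc_sq_le p α
  have h4 := ksq_mul_mixh_le h p
  calc kc p α ^ 2 * mixh ω t p ^ 2 ≤ ksq p * mixh ω t p ^ 2 :=
        mul_le_mul_of_nonneg_right h3 (sq_nonneg _)
    _ = (ksq p * mixh ω t p) * mixh ω t p := by ring
    _ ≤ M * mixh ω t p := mul_le_mul_of_nonneg_right h4 h2

theorem mixh_mul_tsum (h : MixOk ω t M c) {ω' : ℝ → ℝ} {t' M' c' : ℝ} (h' : MixOk ω' t' M' c') :
    Summable (fun p => mixh ω t p * mixh ω' t' p) ∧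
    ∑' p, mixh ω t p * mixh ω' t' p ≤ 4 * M * M' * (1 / (c * c') + 4 / Real.sqrt c) := by
  have h0 : ∀ p, 0 ≤ mixh ω t p * mixh ω' t' p := fun p =>
    mul_nonneg (mixh_nonneg h p) (mixh_nonneg h' p)
  have hs : Summable (fun p => mixh ω t p * mixh ω' t' p) :=
    summable_of_sum_le h0 (MXC2_finset h h')
  exact ⟨hs, hs.tsum_le_of_sum_le (MXC2_finset h h')⟩

/-- `∫ mix0 ω · mix0 ω' = Σ mixh ω · mixh ω'` (Fourier series of one factor, absolutely convergent) -/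
theorem int_mix0_mul (h : MixOk ω t M c) {ω' : ℝ → ℝ} {t' M' c' : ℝ} (h' : MixOk ω' t' M' c') :
    ∫ x, mix0 ω t x * mix0 ω' t' x ∂lam3 = ∑' p, mixh ω t p * mixh ω' t' p := by
  have h1 := parseval3 (bm_memLp3 (mix0_bm h)) (bm_memLp3 (mix0_bm h'))
  have e1 : ∫ x, (starRingEnd ℂ) (mix0 ω t x : ℂ) * (mix0 ω' t' x : ℂ) ∂lam3 =
      ((∫ x, mix0 ω t x * mix0 ω' t' x ∂lam3 : ℝ) : ℂ) := by
    rw [← integral_complex_ofReal]
    refine integral_congr_ae (Eventually.of_forall fun x => ?_)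
    show (starRingEnd ℂ) (mix0 ω t x : ℂ) * (mix0 ω' t' x : ℂ) = ((mix0 ω t x * mix0 ω' t' x : ℝ) : ℂ)
    rw [Complex.conj_ofReal]
    push_cast
    rfl
  rw [e1] at h1
  have h2 : HasSum (fun p => mixh ω t p * mixh ω' t' p) (∫ x, mix0 ω t x * mix0 ω' t' x ∂lam3) := by
    rw [← Complex.hasSum_ofReal]
    refine h1.congr_fun ?_
    intro p
    rw [MXC2_fc3_mix0 h p, MXC2_fc3_mix0 h' p, Complex.conj_ofReal]
    push_cast
    rfl
  exact h2.tsum_eq.symm

end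

end Pool.Agent.Lib.MP_4952d6_mp

end

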