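import Pool.Agent.Lib.MP_4952d6_mp.Pk.G18

/-! Merged modules (to save import time): U.TJD, U.TJA, U.TJB. -/

/-! ### U.TJD -/

section

/-!
# TJD: Jastrow functions with a general (non radial) pair function, definitions
-/

set_option autoImplicit false
set_option linter.unusedSectionVars false
set_option linter.unusedVariables false
open MeasureTheory Function Filter Topology Set
open scoped ENNReal

namespace Pool.Agent.Lib.MP_4952d6_mp

/-- Pair function `f` on the torus with gradient `df` and `hf α = ∂_α (f ∂_α f)`. -/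
structure TData (f : T3 → ℝ) (df hf : Fin 3 → T3 → ℝ) : Prop where
  nonneg : ∀ x, 0 ≤ f x
  le_one : ∀ x, f x ≤ 1
  even : ∀ x, f (-x) = f x
  WDf : ∀ α, WD lam3 (tau α) f (df α)
  WDh : ∀ α, WD lam3 (tau α) (fun x => f x * df α x) (hf α)
  df_bm : ∀ α, BM (df α)
  hf_bm : ∀ α, BM (hf α)

/-- `|∇f|² - div(f ∇f)/2` -/
noncomputable def effT (df hf : Fin 3 → T3 → ℝ) (x : T3) : ℝ :=
  ∑ α, df α x ^ 2 - 1 / 2 * ∑ α, hf α x

section
variable {ι : Type*} [Fintype ι] [LinearOrder ι]

/-- The Jastrow wave function. -/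
noncomputable def jasT (f : T3 → ℝ) (x : ι → T3) : ℝ := pairW f Finset.univ x

/-- Its derivative in direction `(i, α)`. -/
noncomputable def djasT (f : T3 → ℝ) (df : Fin 3 → T3 → ℝ) (i : ι) (α : Fin 3) (x : ι → T3) : ℝ :=
  pairW f (Finset.univ.erase i) x
    * ∑ l ∈ Finset.univ.erase i, df α (x i - x l)
      * ∏ m ∈ (Finset.univ.erase i).erase l, f (x i - x m)

end

end Pool.Agent.Lib.MP_4952d6_mp

end

/-! ### U.TJA -/

section

/-!
# TJA: the one body identity for a general pair function

Literal adaptation of `JData.one_body` in `Jastrow.lean` (read it): replace `f (rr y)` by `f y`, `grad g α y` by `df α y`,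
`k1 (rr y) (crd y α / rr y)² + f g` by `hf α y` and `h.hk.fld_WD α` by `h.WDh α` (the field `f ∂_α f`), `h.hf.rad_WD α` by `h.WDf α`.
Also the basic facts `gasFn`, `gasFn_sq`, `effT_bm`.
-/

set_option autoImplicit false
set_option linter.unusedSectionVars false
set_option linter.unusedVariables false
open MeasureTheory Function Filter Topology Set
open scoped ENNReal

namespace Pool.Agent.Lib.MP_4952d6_mp

namespace TData
variable {f : T3 → ℝ} {df hf : Fin 3 → T3 → ℝ}

theorem f_bm (h : TData f df hf) : BM f :=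
  ⟨(h.WDf 0).sm.measurable, (h.WDf 0).bdd⟩

theorem gasFn (h : TData f df hf) : GasFn lam3 f where
  meas := h.f_bm.1
  nonneg := h.nonneg
  le_one := h.le_one
  even := h.even

theorem gasFn_sq (h : TData f df hf) : GasFn lam3 (fun x => f x ^ 2) where
  meas := h.f_bm.1.pow_const 2
  nonneg y := sq_nonneg _
  le_one y := pow_le_one₀ (h.nonneg _) (h.le_one _)
  even y := by rw [h.even]

theorem eff_bm (h : TData f df hf) : BM (effT df hf) := by
  unfold effT
  exact (BM.finset_sum _ fun α _ => (h.df_bm α).pow 2).sub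
    ((BM.finset_sum _ fun α _ => h.hf_bm α).const_mul (1 / 2))

variable {ι : Type*} [Fintype ι] [LinearOrder ι]

/-- **One body identity** on the torus. -/
theorem one_body (h : TData f df hf) (S : Finset ι) (z : ι → T3) :
    ∫ y, ∑ α, (∑ l ∈ S, df α (y - z l) * ∏ m ∈ S.erase l, f (y - z m)) ^ 2 ∂lam3
      = ∑ l ∈ S, ∫ y, effT df hf (y - z l)
          * oneB (fun x => f x ^ 2) (S.erase l) z y ∂lam3 := by
  have msub : ∀ w : T3, Measurable (fun y : T3 => y - w) := fun w =>
    measurable_sub' measurable_id measurable_const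
  have bf : ∀ l : ι, BM (fun y => f (y - z l)) := fun l => h.f_bm.comp (msub _)
  have bg : ∀ (α : Fin 3) (l : ι), BM (fun y => df α (y - z l)) := fun α l =>
    (h.df_bm α).comp (msub _)
  have bk : ∀ (α : Fin 3) (l : ι), BM (fun y => hf α (y - z l)) := fun α l =>
    (h.hf_bm α).comp (msub _)
  have bprod : ∀ T : Finset ι, BM (fun y => ∏ m ∈ T, f (y - z m) ^ 2) := fun T =>
    BM.finset_prod T fun m _ => (bf m).pow 2
  -- cross terms
  have hcross : ∀ (α : Fin 3) (l : ι), l ∈ S →
      ∫ y, ∑ m ∈ S.erase l, (df α (y - z l) * f (y - z l))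
        * (df α (y - z m) * f (y - z m)) * ∏ n ∈ (S.erase l).erase m, f (y - z n) ^ 2
        ∂lam3
      = - (1/2) * ∫ y, hf α (y - z l) * ∏ m ∈ S.erase l, f (y - z m) ^ 2 ∂lam3 := by
    intro α l hl
    have w1 := JData.WD_shift (h.WDh α) (z l)
    have w2 : ∀ m ∈ S.erase l, WD lam3 (tau α) (fun y => f (y - z m) ^ 2)
        (fun y => 2 * (df α (y - z m) * f (y - z m))) := by
      intro m _
      have w3 := JData.WD_shift (h.WDf α) (z m)
      have w4 := w3.mul w3
      have e1 : (fun y => f (y - z m) ^ 2) = fun y => f (y - z m) * f (y - z m) := by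
        ext y; ring
      have e2 : (fun y => 2 * (df α (y - z m) * f (y - z m)))
          = fun y => df α (y - z m) * f (y - z m) + f (y - z m) * df α (y - z m) := by
        ext y; ring
      rw [e1, e2]; exact w4
    have w5 := (w1.mul (WD.finset_prod (S.erase l) (tau_zero α) w2)).integral_eq_zero
    have bA : BM (fun y => hf α (y - z l) * ∏ m ∈ S.erase l, f (y - z m) ^ 2) :=
      (bk α l).mul (bprod _)
    have bB : BM (fun y => ∑ m ∈ S.erase l, (df α (y - z l) * f (y - z l))
        * (df α (y - z m) * f (y - z m))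
          * ∏ n ∈ (S.erase l).erase m, f (y - z n) ^ 2) :=
      BM.finset_sum _ fun m _ => (((bg α l).mul (bf l)).mul ((bg α m).mul (bf m))).mul (bprod _)
    have e3 : ∀ y, hf α (y - z l) * ∏ m ∈ S.erase l, f (y - z m) ^ 2
        + f (y - z l) * df α (y - z l)
          * ∑ m ∈ S.erase l, 2 * (df α (y - z m) * f (y - z m))
            * ∏ n ∈ (S.erase l).erase m, f (y - z n) ^ 2
        = hf α (y - z l) * ∏ m ∈ S.erase l, f (y - z m) ^ 2
        + 2 * ∑ m ∈ S.erase l, (df α (y - z l) * f (y - z l))
          * (df α (y - z m) * f (y - z m))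
          * ∏ n ∈ (S.erase l).erase m, f (y - z n) ^ 2 := by
      intro y
      congr 1
      rw [Finset.mul_sum, Finset.mul_sum]
      refine Finset.sum_congr rfl fun m _ => ?_
      ring
    simp_rw [e3] at w5
    rw [integral_add (bA.integrable _) ((bB.const_mul 2).integrable _), integral_const_mul] at w5
    linarith
  have hA : ∀ (α : Fin 3) (l : ι), BM (fun y => df α (y - z l) ^ 2
      * ∏ m ∈ S.erase l, f (y - z m) ^ 2) := fun α l => ((bg α l).pow 2).mul (bprod _)
  have hC : ∀ (α : Fin 3) (l : ι), BM (fun y => ∑ m ∈ S.erase l,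
      (df α (y - z l) * f (y - z l)) * (df α (y - z m) * f (y - z m))
        * ∏ n ∈ (S.erase l).erase m, f (y - z n) ^ 2) := fun α l =>
    BM.finset_sum _ fun m _ => (((bg α l).mul (bf l)).mul ((bg α m).mul (bf m))).mul (bprod _)
  have hD : ∀ (α : Fin 3) (l : ι), BM (fun y => hf α (y - z l)
      * ∏ m ∈ S.erase l, f (y - z m) ^ 2) := fun α l => (bk α l).mul (bprod _)
  have e4 : ∀ y, ∑ α, (∑ l ∈ S, df α (y - z l) * ∏ m ∈ S.erase l, f (y - z m)) ^ 2
      = ∑ α, (∑ l ∈ S, df α (y - z l) ^ 2 * ∏ m ∈ S.erase l, f (y - z m) ^ 2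
        + ∑ l ∈ S, ∑ m ∈ S.erase l, (df α (y - z l) * f (y - z l))
          * (df α (y - z m) * f (y - z m))
            * ∏ n ∈ (S.erase l).erase m, f (y - z n) ^ 2) := fun y =>
    Finset.sum_congr rfl fun α _ => sq_sum_prod S _ _
  simp_rw [e4]
  rw [integral_finsetSum _ (fun α _ => ((BM.finset_sum S fun l _ => hA α l).add
    (BM.finset_sum S fun l _ => hC α l)).integrable _)]
  have e5 : ∀ α : Fin 3, ∫ y, (∑ l ∈ S, df α (y - z l) ^ 2
        * ∏ m ∈ S.erase l, f (y - z m) ^ 2
        + ∑ l ∈ S, ∑ m ∈ S.erase l, (df α (y - z l) * f (y - z l))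
          * (df α (y - z m) * f (y - z m))
            * ∏ n ∈ (S.erase l).erase m, f (y - z n) ^ 2) ∂lam3
      = ∑ l ∈ S, ∫ y, (df α (y - z l) ^ 2 - 1/2 * hf α (y - z l))
        * ∏ m ∈ S.erase l, f (y - z m) ^ 2 ∂lam3 := by
    intro α
    rw [integral_add ((BM.finset_sum S fun l _ => hA α l).integrable _)
      ((BM.finset_sum S fun l _ => hC α l).integrable _),
      integral_finsetSum _ (fun l _ => (hA α l).integrable _),
      integral_finsetSum _ (fun l _ => (hC α l).integrable _),
      Finset.sum_congr rfl (fun l hl => hcross α l hl), ← Finset.sum_add_distrib]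
    refine Finset.sum_congr rfl fun l _ => ?_
    rw [← integral_const_mul, ← integral_add ((hA α l).integrable _)
      (((hD α l).const_mul _).integrable _)]
    congr 1; ext y; ring
  simp_rw [e5]
  rw [Finset.sum_comm]
  refine Finset.sum_congr rfl fun l _ => ?_
  have hG : ∀ α : Fin 3, BM (fun y => (df α (y - z l) ^ 2
      - 1/2 * hf α (y - z l)) * ∏ m ∈ S.erase l, f (y - z m) ^ 2) := fun α =>
    (((bg α l).pow 2).sub ((bk α l).const_mul (1/2))).mul (bprod _)
  rw [← integral_finsetSum _ (fun α _ => (hG α).integrable _)]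
  refine integral_congr_ae (Eventually.of_forall fun y => ?_)
  simp only
  rw [← Finset.sum_mul]
  unfold oneB
  congr 1
  unfold effT
  rw [Finset.sum_sub_distrib, ← Finset.mul_sum]

end TData

end Pool.Agent.Lib.MP_4952d6_mp

end

/-! ### U.TJB -/

section

/-!
# TJB: derivative and kinetic energy of the Jastrow function

Literal adaptation of `jas_sq`, `jas_WD`, `djas_bm`, `jas_bm`, `jas_kin`, `djas_integral` in `Jastrow.lean`
(`f (rr y)` becomes `f y`, `grad g α` becomes `df α`, `eff f g k1 (rr y)` becomes `effT df hf y`).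
-/

set_option autoImplicit false
set_option linter.unusedSectionVars false
set_option linter.unusedVariables false
open MeasureTheory Function Filter Topology Set
open scoped ENNReal

namespace Pool.Agent.Lib.MP_4952d6_mp

namespace TData
variable {f : T3 → ℝ} {df hf : Fin 3 → T3 → ℝ}
variable {ι : Type*} [Fintype ι] [LinearOrder ι]

theorem jas_sq (f : T3 → ℝ) (S : Finset ι) (x : ι → T3) :
    pairW f S x ^ 2 = pairW (fun y => f y ^ 2) S x := by
  unfold pairW
  rw [← Finset.prod_pow]
  refine Finset.prod_congr rfl fun k _ => ?_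
  rw [← Finset.prod_pow]

theorem jas_WD (h : TData f df hf) (i : ι) (α : Fin 3) :
    WD (piN ι) (tauN i α) (jasT f) (djasT f df i α) := by
  have hG := h.gasFn
  have w1 : WD (piN ι) (tauN i α) (fun x => pairW f (Finset.univ.erase i) x)
      (fun _ => 0) := by
    refine WD.of_invariant (tauN_zero i α) (pairW_bm hG _).1.stronglyMeasurable
      (pairW_bm hG _).2 fun x t => ?_
    have : x + tauN i α t = update x i (x i + tau α t) := by
      ext1 k
      by_cases hk : k = i
      · rw [hk]; simp [tauN]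
      · simp [tauN, update_of_ne hk, Pi.single_eq_of_ne hk]
    rw [this, pairW_update_of_notMem (Finset.notMem_erase i _)]
  have w2 : ∀ l ∈ Finset.univ.erase i, WD (piN ι) (tauN i α) (fun x => f (x i - x l))
      (fun x => df α (x i - x l)) := by
    intro l hl
    have hli : l ≠ i := Finset.ne_of_mem_erase hl
    refine (h.WDf α).comp (tauN_zero i α) (mp_diff hli.symm) fun x t => ?_
    simp only [Pi.add_apply, tauN, Pi.single_eq_same, Pi.single_eq_of_ne hli]
    abel
  have w3 := w1.mul (WD.finset_prod (Finset.univ.erase i) (tauN_zero i α) w2)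
  have e1 : (fun x : ι → T3 => pairW f (Finset.univ.erase i) x
      * ∏ l ∈ Finset.univ.erase i, f (x i - x l)) = jasT f := by
    ext x
    unfold jasT
    rw [pairW_erase hG (Finset.mem_univ i)]
    rfl
  have e2 : (fun x : ι → T3 => 0 * ∏ l ∈ Finset.univ.erase i, f (x i - x l)
      + pairW f (Finset.univ.erase i) x * ∑ l ∈ Finset.univ.erase i,
        df α (x i - x l) * ∏ m ∈ (Finset.univ.erase i).erase l, f (x i - x m))
      = djasT f df i α := by
    ext x
    unfold djasT
    ring
  rw [e1, e2] at w3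
  exact w3

theorem djas_bm (h : TData f df hf) (i : ι) (α : Fin 3) : BM (djasT f df i α : (ι → T3) → ℝ) := by
  have mdiff : ∀ l : ι, Measurable (fun x : ι → T3 => x i - x l) := fun l =>
    measurable_sub' (measurable_pi_apply i) (measurable_pi_apply l)
  unfold djasT
  refine (pairW_bm h.gasFn _).mul (BM.finset_sum _ fun l _ => ?_)
  exact ((h.df_bm α).comp (mdiff l)).mul (BM.finset_prod _ fun m _ => h.f_bm.comp (mdiff m))

theorem jas_bm (h : TData f df hf) : BM (jasT f : (ι → T3) → ℝ) := pairW_bm h.gasFn _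

/-- Kinetic energy of the Jastrow function, one direction. -/
theorem jas_kin (h : TData f df hf) (i : ι) (α : Fin 3) :
    HasSum (fun k : ι → Fin 3 → ℤ => 4 * Real.pi ^ 2 * (k i α : ℝ) ^ 2
      * ‖fc (fun x => (jasT f x : ℂ)) k‖ ^ 2) (∫ x, djasT f df i α x ^ 2 ∂(piN ι)) := by
  have := piN_left_inv (ι := ι)
  have hW := (h.jas_WD i α).ofReal
  have hP := parseval_sq (JData.memLp_of_bm (μ := piN ι) (h.djas_bm (ι := ι) i α))
  have e1 : ∀ k, fc (fun x => (djasT f df i α x : ℂ)) k
      = 2 * Real.pi * Complex.I * (k i α : ℝ) * fc (fun x => (jasT f x : ℂ)) k := by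
    intro k
    exact hW.fourier (chN_sm k) (chN_norm k) (k i α) (chN_add_tauN k i α)
  have e2 : ∀ k : ι → Fin 3 → ℤ, ‖fc (fun x => (djasT f df i α x : ℂ)) k‖ ^ 2
      = 4 * Real.pi ^ 2 * (k i α : ℝ) ^ 2 * ‖fc (fun x => (jasT f x : ℂ)) k‖ ^ 2 := by
    intro k
    rw [e1, norm_mul, norm_mul, norm_mul, norm_mul, Complex.norm_real, Complex.norm_real,
      Complex.norm_I, Complex.norm_ofNat, Real.norm_eq_abs, Real.norm_eq_abs, mul_pow, mul_pow,
      mul_pow, mul_pow, sq_abs, sq_abs]
    ring
  simp_rw [e2] at hP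
  have e3 : ∫ x, ‖((djasT f df i α x : ℝ) : ℂ)‖ ^ 2 ∂(piN ι) = ∫ x, djasT f df i α x ^ 2 ∂(piN ι) := by
    congr 1; ext x
    rw [Complex.norm_real, Real.norm_eq_abs, sq_abs]
  rw [e3] at hP
  exact hP

/-- Integrated kinetic energy density of particle `i`. -/
theorem djas_integral (h : TData f df hf) (i : ι) :
    ∑ α, ∫ x, djasT f df i α x ^ 2 ∂(piN ι)
      = ∑ l ∈ Finset.univ.erase i,
        pairI lam3 (fun y => f y ^ 2) i l (effT df hf) := by
  set F : T3 → ℝ := fun y => f y ^ 2 with hF
  have hG := h.gasFn_sq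
  have hi : i ∉ Finset.univ.erase i := Finset.notMem_erase i _
  have bD : ∀ α, BM (fun x : ι → T3 => djasT f df i α x ^ 2) := fun α => (h.djas_bm i α).pow 2
  have h1 : ∀ α, ∫ x, djasT f df i α x ^ 2 ∂(piN ι)
      = ∫ x, ∫ y, (djasT f df i α (update x i y)) ^ 2 ∂lam3 ∂(piN ι) := fun α =>
    integral_resample i (bD α)
  have bDy : ∀ α, BM (fun x : ι → T3 => ∫ y, (djasT f df i α (update x i y)) ^ 2 ∂lam3) := fun α =>
    BM.integral_right (f := fun x y => (djasT f df i α (update x i y)) ^ 2)
      ((bD α).comp (measurable_upd i)) lam3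
  have bDs : ∀ (α : Fin 3) (x : ι → T3), BM (fun y => (djasT f df i α (update x i y)) ^ 2) :=
    fun α x => slice_bm (bD α) i x
  simp_rw [h1]
  rw [← integral_finsetSum _ (fun α _ => (bDy α).integrable _)]
  have h2 : ∀ x : ι → T3, ∑ α, ∫ y, (djasT f df i α (update x i y)) ^ 2 ∂lam3
      = ∑ l ∈ Finset.univ.erase i, ∫ y, (fun x' : ι → T3 => effT df hf (x' i - x' l)
          * (oneB F (rest i l) x' (x' i) * oneB F (rest i l) x' (x' l)) * pairW F (rest i l) x')
            (update x i y) ∂lam3 := by
    intro x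
    rw [← integral_finsetSum _ (fun α _ => (bDs α x).integrable _)]
    have e1 : ∀ y, ∑ α, (djasT f df i α (update x i y)) ^ 2
        = pairW F (Finset.univ.erase i) x * ∑ α, (∑ l ∈ Finset.univ.erase i, df α (y - x l)
          * ∏ m ∈ (Finset.univ.erase i).erase l, f (y - x m)) ^ 2 := by
      intro y
      rw [Finset.mul_sum]
      refine Finset.sum_congr rfl fun α _ => ?_
      unfold djasT
      rw [mul_pow, jas_sq, update_self]
      rw [pairW_update_of_notMem hi]
      congr 2
      refine Finset.sum_congr rfl fun l hl => ?_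
      rw [update_of_ne (Finset.ne_of_mem_erase hl)]
      congr 1
      refine Finset.prod_congr rfl fun m hm => ?_
      rw [update_of_ne (Finset.ne_of_mem_erase (Finset.mem_of_mem_erase hm))]
    simp_rw [e1]
    rw [integral_const_mul, h.one_body, Finset.mul_sum]
    refine Finset.sum_congr rfl fun l hl => ?_
    have hli : l ≠ i := Finset.ne_of_mem_erase hl
    rw [← integral_const_mul]
    congr 1; ext y
    have hir : i ∉ rest i l := notMem_rest_left i l
    simp only [update_self, update_of_ne hli]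
    rw [pairW_update_of_notMem hir, oneB_update_of_notMem hir, oneB_update_of_notMem hir,
      pairW_erase hG hl]
    unfold rest
    ring
  simp_rw [h2]
  have bQ : ∀ l : ι, BM (fun x' : ι → T3 => effT df hf (x' i - x' l)
          * (oneB F (rest i l) x' (x' i) * oneB F (rest i l) x' (x' l)) * pairW F (rest i l) x') := by
    intro l
    have m1 : ∀ k : ι, Measurable (fun x : ι → T3 => (x, x k)) := fun k =>
      measurable_id.prodMk (measurable_pi_apply k)
    exact ((h.eff_bm.comp (measurable_sub' (measurable_pi_apply i) (measurable_pi_apply l))).mul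
      (BM.mul ((oneB_bm hG _).comp (m1 i)) ((oneB_bm hG _).comp (m1 l)))).mul (pairW_bm hG _)
  have bQy : ∀ l : ι, BM (fun x : ι → T3 => ∫ y, (fun x' : ι → T3 => effT df hf (x' i - x' l)
          * (oneB F (rest i l) x' (x' i) * oneB F (rest i l) x' (x' l)) * pairW F (rest i l) x')
            (update x i y) ∂lam3) := fun l =>
    BM.integral_right (f := fun x y => (fun x' : ι → T3 => effT df hf (x' i - x' l)
          * (oneB F (rest i l) x' (x' i) * oneB F (rest i l) x' (x' l)) * pairW F (rest i l) x')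
            (update x i y)) ((bQ l).comp (measurable_upd i)) lam3
  rw [integral_finsetSum _ (fun l _ => (bQy l).integrable _)]
  refine Finset.sum_congr rfl fun l _ => ?_
  rw [← integral_resample i (bQ l)]
  rfl

end TData

end Pool.Agent.Lib.MP_4952d6_mp

end

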