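import Pool.Agent.Lib.MP_4952d6_mp.Pk.G18
import Pool.Agent.Lib.MP_4952d6_mp.Pk.G22

/-! Merged modules (to save import time): U.FLD, U.COB, U.COA, U.U7C. -/

/-! ### U.FLD -/

section

/-!
# FLD: radial vector fields, off-diagonal derivatives

`RadialWD.lean` proves `FProf.fld_WD` (derivative of `φ(|x|) x_α` in the same direction `α`). Here the direction `β ≠ α`:
the derivative of `φ(|x|) x_α` is `ψ(|x|) (x_α/|x|)(x_β/|x|)`. Copy the proof of `FProf.fld_WD`; it is easier since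
`crd (x + tau β t) α = crd x α` for all `t` (`crd_add_tau_ne`); the Lipschitz bound:
`|φ(r') - φ(r)| |crd x α|` with `|crd x α| ≤ min(r, r')` (`abs_crd_le_rr` at both points) and `wlip`.
The last theorem combines both cases.
-/

set_option autoImplicit false
set_option linter.unusedSectionVars false
set_option linter.unusedVariables false
open MeasureTheory Function Filter Topology Set
open scoped ENNReal

namespace Pool.Agent.Lib.MP_4952d6_mp

theorem FProf.fld_WD_ne {b : ℝ} {φ ψ : ℝ → ℝ} (h : FProf b φ ψ) {α β : Fin 3} (hαβ : α ≠ β) :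
    WD lam3 (tau β) (fun x => φ (rr x) * crd x α)
      (fun x => ψ (rr x) * (crd x α / rr x) * (crd x β / rr x)) := by
  have hc : ∀ (x : T3) (t : ℝ), crd (x + tau β t) α = crd x α := fun x t =>
    crd_add_tau_ne hαβ t
  refine ⟨tau_zero β, ((h.meas.comp rr_measurable).mul (crd_measurable α)).stronglyMeasurable,
    ?_, ?_, ?_⟩
  · obtain ⟨C, hC0, hC⟩ := h.exists_bdd
    refine ⟨C * (1/2), fun x => ?_⟩
    rw [norm_mul]
    refine mul_le_mul (hC _) ?_ (norm_nonneg _) hC0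
    have := crd_mem x α
    rw [Real.norm_eq_abs, abs_le]
    exact ⟨this.1.le, this.2⟩
  · obtain ⟨M, hM0, hM⟩ := h.exists_wlip
    refine ⟨M, fun x t => ?_⟩
    have hr := rr_tau x β t
    have e : φ (rr (x + tau β t)) * crd (x + tau β t) α - φ (rr x) * crd x α
        = (φ (rr (x + tau β t)) - φ (rr x)) * crd x α := by
      rw [hc]; ring
    rw [e, norm_mul, Real.norm_eq_abs, Real.norm_eq_abs]
    rcases le_total (rr x) (rr (x + tau β t)) with hle | hle
    · have a1 := hM _ _ (rr_nonneg x) hle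
      have a2 : |φ (rr (x + tau β t)) - φ (rr x)| * |crd x α|
          ≤ rr x * |φ (rr (x + tau β t)) - φ (rr x)| := by
        rw [mul_comm]
        exact mul_le_mul_of_nonneg_right (abs_crd_le_rr x α) (abs_nonneg _)
      have a4 : M * (rr (x + tau β t) - rr x) ≤ M * |t| :=
        mul_le_mul_of_nonneg_left ((le_abs_self _).trans hr) hM0
      linarith
    · have a1 := hM _ _ (rr_nonneg _) hle
      have a2 : |φ (rr (x + tau β t)) - φ (rr x)| * |crd x α|
          ≤ rr (x + tau β t) * |φ (rr x) - φ (rr (x + tau β t))| := by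
        rw [mul_comm, abs_sub_comm, ← hc x t]
        exact mul_le_mul_of_nonneg_right (abs_crd_le_rr _ α) (abs_nonneg _)
      have a4 : M * (rr x - rr (x + tau β t)) ≤ M * |t| := by
        refine mul_le_mul_of_nonneg_left ?_ hM0
        rw [abs_sub_comm] at hr
        exact (le_abs_self _).trans hr
      linarith
  · filter_upwards [ae_rr_pos, ae_rr h.deriv] with x hx hd
    rcases lt_or_ge (rr x) (1/2) with hlt | hge
    · have h1 := hasDerivAt_rr hx hlt β
      have h2 : HasDerivAt φ (ψ (rr x) / rr x) (rr (x + tau β 0)) := by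
        rw [tau_zero, add_zero]; exact hd hlt hx
      have h3 := (h2.comp (0:ℝ) h1).mul_const (crd x α)
      have e : ψ (rr x) / rr x * (crd x β / rr x) * crd x α
          = ψ (rr x) * (crd x α / rr x) * (crd x β / rr x) := by
        ring
      rw [e] at h3
      refine h3.congr_of_eventuallyEq (Eventually.of_forall fun t => ?_)
      simp only [comp_apply, hc x t]
    · have hb' := h.b_lt.le.trans hge
      have e : ψ (rr x) * (crd x α / rr x) * (crd x β / rr x) = 0 := by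
        rw [h.zero' _ hb']; ring
      rw [e]
      refine (hasDerivAt_const (0:ℝ) (0:ℝ)).congr_of_eventuallyEq ?_
      filter_upwards [eventually_far h.b_lt hge β] with t ht
      rw [h.zero _ ht, zero_mul]

theorem FProf.fld_WD_all {b : ℝ} {φ ψ : ℝ → ℝ} (h : FProf b φ ψ) (α β : Fin 3) :
    WD lam3 (tau β) (fun x => φ (rr x) * crd x α)
      (fun x => ψ (rr x) * (crd x α / rr x) * (crd x β / rr x)
        + if α = β then φ (rr x) else 0) := by
  by_cases hαβ : α = β
  · subst hαβ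
    have h1 := h.fld_WD α
    have e : (fun x => ψ (rr x) * (crd x α / rr x) * (crd x α / rr x)
        + if α = α then φ (rr x) else 0) =
        (fun x => ψ (rr x) * (crd x α / rr x) ^ 2 + φ (rr x)) := by
      funext x
      rw [if_pos rfl]
      ring
    rw [e]
    exact h1
  · have h1 := h.fld_WD_ne hαβ
    have e : (fun x => ψ (rr x) * (crd x α / rr x) * (crd x β / rr x)
        + if α = β then φ (rr x) else 0) =
        (fun x => ψ (rr x) * (crd x α / rr x) * (crd x β / rr x)) := by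
      funext x
      rw [if_neg hαβ, add_zero]
    rw [e]
    exact h1

end Pool.Agent.Lib.MP_4952d6_mp

end

/-! ### U.COB -/

section

/-!
# COB: the profiles `f_s`, `f_s gs` are `Prof` / `FProf`

Model: `JProf.lean` (`Scat.jdata`), which does the same for another cut-off. For `0 < r < b`, `r ≠ R₀`:
`f' = Q/r²`, `efs' = -(a_u q_b/r²) efs` (`sbf_hasDerivAt`), so `(f efs)' = efs (Q - a_u q_b f)/r² = r gs(r)`; at `r > b` constant.
At `r = b` `gs(b-) = 0` by `auq_match` (so `gs` is continuous there).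
`gs` bounded: `Q ≤ C r³` (`Q_cube`), `0 ≤ q_b ≤ r³/(√t)³`, `efs ≤ 2`; for `r ≤ 0`: `Q = 0` and `qbf` is odd, `f` bounded,
`sbf` even, so `gs` is bounded there too.
`ks = r (f_s gs)'` almost everywhere on `(0, b)`: `f_s gs = efs² (f Q - a_u q_b f²)/r³`; `Q' = r² W f` a.e. (`Scat.Q_deriv`),
`q_b' = 4π r² γ_t` (`qbf_hasDerivAt`); the formula of `ks` is exactly the product rule. Boundedness of `ks`: each term is
bounded by `Q ≤ C r³`, `q_b ≤ C r³`, `W ≤ M`, `γ_t` bounded. On `(0, R₀)`: `f = 0`, `Q = 0`. `wlip` of `FProf` as in `JProf.lean`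
(the function `r³ · (f_s gs)`-type Lipschitz bounds; near the jump of the derivative at `R₀` and at `b` the function itself is continuous:
at `R₀`: `f(R₀) = 0` if `R₀ > 0`; at `b` matching).
-/

set_option autoImplicit false
set_option linter.unusedSectionVars false
set_option linter.unusedVariables false
open MeasureTheory Function Filter Topology Set
open scoped ENNReal

namespace Pool.Agent.Lib.MP_4952d6_mp

section
variable {W f Q : ℝ → ℝ} {R₀ R a θ q : ℝ}

/-! ### Auxiliary facts -/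

theorem COB_exp_lip {x y M : ℝ} (hx : x ≤ M) (hy : y ≤ M) :
    |Real.exp x - Real.exp y| ≤ Real.exp M * |x - y| := by
  have key : ∀ x y : ℝ, y ≤ x → x ≤ M → |Real.exp x - Real.exp y| ≤ Real.exp M * |x - y| := by
    intro x y hxy hx
    have h1 : Real.exp y ≤ Real.exp x := Real.exp_le_exp.2 hxy
    rw [abs_of_nonneg (by linarith), abs_of_nonneg (by linarith)]
    have h2 : Real.exp x - Real.exp y = Real.exp x * (1 - Real.exp (y - x)) := by
      rw [mul_sub, mul_one, ← Real.exp_add]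
      congr 2
      ring
    rw [h2]
    have h3 : 1 - Real.exp (y - x) ≤ x - y := by
      have := Real.add_one_le_exp (y - x)
      linarith
    have h4 : 0 ≤ 1 - Real.exp (y - x) := by
      have : Real.exp (y - x) ≤ 1 := Real.exp_le_one_iff.2 (by linarith)
      linarith
    exact mul_le_mul (Real.exp_le_exp.2 hx) h3 h4 (Real.exp_pos _).le
  rcases le_total y x with h | h
  · exact key x y h hx
  · rw [abs_sub_comm, abs_sub_comm x y]
    exact key y x h hy

theorem COB_one_sub_pos (hq : 0 < q) (hq1 : q ≤ 1 / 100) : 0 < 1 - q ^ 80 := by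
  have : q ^ 80 < 1 := pow_lt_one₀ hq.le (by linarith) (by norm_num)
  linarith

theorem COB_auq_nonneg (hq : 0 < q) (hq1 : q ≤ 1 / 100) (ha : 0 < a) : 0 ≤ auq q a := by
  unfold auq
  have := one_le_alq hq hq1
  positivity

/-- `efs` is bounded and Lipschitz on the whole line. -/
theorem COB_efs (hq : 0 < q) (hq1 : q ≤ 1 / 100) (ha : 0 < a) :
    ∃ B L : ℝ, 0 ≤ B ∧ 0 ≤ L ∧ (∀ r, 0 < efs q a r ∧ efs q a r ≤ B) ∧
      ∀ r s, |efs q a r - efs q a s| ≤ L * |r - s| := by
  have ht := tq_pos hq ha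
  obtain ⟨L0, hL0⟩ := sbf_lip ht
  have hA := COB_auq_nonneg hq hq1 ha
  have hD := COB_one_sub_pos hq hq1
  set M : ℝ := auq q a * (sbf (tq q a) 0 - sbf (tq q a) (bq q a)) with hM
  have hle : ∀ r, auq q a * (sbf (tq q a) r - sbf (tq q a) (bq q a)) ≤ M := fun r =>
    mul_le_mul_of_nonneg_left (by linarith [sbf_le_zero (r := r) ht]) hA
  refine ⟨Real.exp M / (1 - q ^ 80), Real.exp M * (auq q a * max L0 0) / (1 - q ^ 80),
    by positivity, by positivity, fun r => ⟨efs_pos hq hq1, ?_⟩, fun r s => ?_⟩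
  · unfold efs
    exact div_le_div_of_nonneg_right (Real.exp_le_exp.2 (hle r)) hD.le
  · unfold efs
    rw [← sub_div, abs_div, abs_of_pos hD, div_mul_eq_mul_div]
    refine div_le_div_of_nonneg_right ?_ hD.le
    refine (COB_exp_lip (hle r) (hle s)).trans ?_
    rw [mul_assoc]
    refine mul_le_mul_of_nonneg_left ?_ (Real.exp_pos _).le
    have e : auq q a * (sbf (tq q a) r - sbf (tq q a) (bq q a))
        - auq q a * (sbf (tq q a) s - sbf (tq q a) (bq q a))
        = auq q a * (sbf (tq q a) r - sbf (tq q a) s) := by ring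
    rw [e, abs_mul, abs_of_nonneg hA, mul_assoc]
    refine mul_le_mul_of_nonneg_left ?_ hA
    exact (hL0 r s).trans (mul_le_mul_of_nonneg_right (le_max_left _ _) (abs_nonneg _))

theorem COB_efs_cont (hq : 0 < q) (hq1 : q ≤ 1 / 100) (ha : 0 < a) : Continuous (efs q a) := by
  obtain ⟨B, L, hB, hL, h1, h2⟩ := COB_efs hq hq1 ha
  refine LipschitzWith.continuous (K := Real.toNNReal L) (LipschitzWith.of_dist_le_mul fun r s => ?_)
  rw [Real.dist_eq, Real.dist_eq]
  exact (h2 r s).trans (mul_le_mul_of_nonneg_right (Real.le_coe_toNNReal L) (abs_nonneg _))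

/-- derivative of `efs` -/
theorem COB_efs_deriv (hq : 0 < q) (ha : 0 < a) {r : ℝ} (hr : 0 < r) :
    HasDerivAt (efs q a) (-(auq q a * qbf (tq q a) r / r ^ 2) * efs q a r) r := by
  have ht := tq_pos hq ha
  have h1 := (((sbf_hasDerivAt ht hr).sub_const (sbf (tq q a) (bq q a))).const_mul
    (auq q a)).exp.div_const (1 - q ^ 80)
  have e : Real.exp (auq q a * (sbf (tq q a) r - sbf (tq q a) (bq q a)))
      * (auq q a * -(qbf (tq q a) r / r ^ 2)) / (1 - q ^ 80)
      = -(auq q a * qbf (tq q a) r / r ^ 2) * efs q a r := by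
    unfold efs
    ring
  rw [e] at h1
  exact h1

theorem COB_qbf_cont {t : ℝ} (ht : 0 < t) : Continuous (qbf t) :=
  continuous_iff_continuousAt.2 fun r => (qbf_hasDerivAt ht r).continuousAt

/-- `|q_b(r)| ≤ |r|³ / √t³` and `|q_b(r)| ≤ 1` on the whole line -/
theorem COB_qbf_abs {t : ℝ} (ht : 0 < t) (r : ℝ) :
    |qbf t r| ≤ |r| ^ 3 / Real.sqrt t ^ 3 ∧ |qbf t r| ≤ 1 := by
  rcases le_total 0 r with hr | hr
  · rw [abs_of_nonneg (qbf_nonneg hr), abs_of_nonneg hr]
    exact ⟨qbf_le_cube ht hr, qbf_le_one ht hr⟩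
  · have hr' : 0 ≤ -r := by linarith
    have e : |qbf t r| = qbf t (-r) := by
      rw [qbf_neg, abs_of_nonpos]
      have := qbf_nonneg (t := t) hr'
      rw [qbf_neg] at this
      linarith
    rw [e, abs_of_nonpos hr]
    exact ⟨qbf_le_cube ht hr', qbf_le_one ht hr'⟩

theorem COB_gam_cont (t : ℝ) : Continuous (gam t) := by
  unfold gam
  fun_prop

theorem COB_gam_le {t : ℝ} (ht : 0 < t) (r : ℝ) : 0 ≤ gam t r ∧ gam t r ≤ gam t 0 := by
  have hs : 0 ≤ (Real.sqrt (4 * Real.pi * t))⁻¹ ^ 3 := by positivity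
  unfold gam
  refine ⟨mul_nonneg hs (Real.exp_pos _).le, mul_le_mul_of_nonneg_left (Real.exp_le_exp.2 ?_) hs⟩
  have h1 : 0 ≤ r ^ 2 / (4 * t) := by positivity
  have h2 : -(r ^ 2) / (4 * t) = -(r ^ 2 / (4 * t)) := by ring
  rw [h2]
  simp
  positivity

/-- increments of `q_b` -/
theorem COB_qbf_sub {t : ℝ} (ht : 0 < t) {r s : ℝ} (hr : 0 ≤ r) (hrs : r ≤ s) :
    |qbf t s - qbf t r| ≤ 4 * Real.pi * gam t 0 * s ^ 2 * (s - r) := by
  have hs : 0 ≤ s := hr.trans hrs
  have h1 := Convex.norm_image_sub_le_of_norm_hasDerivWithin_le (f := qbf t)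
    (f' := fun x => 4 * Real.pi * (x ^ 2 * gam t x)) (C := 4 * Real.pi * gam t 0 * s ^ 2)
    (s := Icc r s) (x := r) (y := s)
    (fun x _ => (qbf_hasDerivAt ht x).hasDerivWithinAt) (fun x hx => ?_) (convex_Icc r s)
    (left_mem_Icc.2 hrs) (right_mem_Icc.2 hrs)
  · rw [Real.norm_eq_abs, Real.norm_eq_abs, abs_of_nonneg (sub_nonneg.2 hrs)] at h1
    exact h1
  · have h2 := COB_gam_le ht x
    have hx0 : 0 ≤ x := hr.trans hx.1
    have hpi := Real.pi_pos
    rw [Real.norm_eq_abs, abs_of_nonneg (mul_nonneg (by positivity) (mul_nonneg (sq_nonneg x) h2.1))]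
    have h3 : x ^ 2 * gam t x ≤ s ^ 2 * gam t 0 :=
      mul_le_mul (pow_le_pow_left₀ hx0 hx.2 2) h2.2 h2.1 (sq_nonneg s)
    calc 4 * Real.pi * (x ^ 2 * gam t x) ≤ 4 * Real.pi * (s ^ 2 * gam t 0) :=
          mul_le_mul_of_nonneg_left h3 (by positivity)
      _ = 4 * Real.pi * gam t 0 * s ^ 2 := by ring

/-- The function `f Q - a_u q_b f²`. -/
noncomputable def COB_g (q a : ℝ) (f Q : ℝ → ℝ) (r : ℝ) : ℝ :=
  f r * Q r - auq q a * qbf (tq q a) r * f r ^ 2

theorem COB_g_bd (h : Reg W R₀ R a f Q θ q) : ∃ C, 0 ≤ C ∧ ∀ r, 0 ≤ r → |COB_g q a f Q r| ≤ C * r ^ 3 := by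
  have hq := h.q_pos
  have hq1 := h.q_le
  have ha := h.a_pos
  have ht := tq_pos hq ha
  have hA := COB_auq_nonneg hq hq1 ha
  obtain ⟨C, hC0, hC⟩ := h.sc.exists_C
  refine ⟨C + auq q a / Real.sqrt (tq q a) ^ 3, by positivity, fun r hr => ?_⟩
  rcases hr.eq_or_lt with h0 | h0
  · have hq0 : qbf (tq q a) 0 = 0 := by
      have := qbf_neg (tq q a) 0
      rw [neg_zero] at this
      linarith
    rw [← h0]
    unfold COB_g
    rw [h.sc.Q_zero' 0 le_rfl, hq0]
    simp
  · have hf0 := h.sc.f_nonneg r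
    have hf1 := h.sc.f_le_one r
    have h1 := hC r h0
    have h2 := qbf_le_cube ht hr
    have h3 := qbf_nonneg (t := tq q a) hr
    have h4 := h.sc.Q_nonneg r
    unfold COB_g
    refine (abs_sub _ _).trans ?_
    rw [abs_of_nonneg (mul_nonneg hf0 h4), abs_of_nonneg (by positivity), add_mul]
    refine add_le_add ?_ ?_
    · calc f r * Q r ≤ 1 * (C * r ^ 3) := mul_le_mul hf1 h1 h4 zero_le_one
        _ = C * r ^ 3 := one_mul _
    · calc auq q a * qbf (tq q a) r * f r ^ 2 ≤ auq q a * qbf (tq q a) r * 1 :=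
            mul_le_mul_of_nonneg_left (pow_le_one₀ hf0 hf1) (by positivity)
        _ ≤ auq q a * (r ^ 3 / Real.sqrt (tq q a) ^ 3) := by
            rw [mul_one]; exact mul_le_mul_of_nonneg_left h2 hA
        _ = auq q a / Real.sqrt (tq q a) ^ 3 * r ^ 3 := by ring

/-- increments of `f Q` -/
theorem COB_fQ_sub (h : Reg W R₀ R a f Q θ q) : ∃ C, 0 ≤ C ∧ ∀ r s, 0 ≤ r → r ≤ s → s ≤ 1 →
    |f s * Q s - f r * Q r| ≤ C * s ^ 2 * (s - r) := by
  obtain ⟨C, hC0, hC⟩ := h.sc.exists_C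
  obtain ⟨M, hM0, hM⟩ := h.sc.exists_M
  obtain ⟨L, hL0, hL⟩ := h.sc.exists_L
  have hQC : ∀ s, 0 ≤ s → s ≤ 1 → Q s ≤ C * s ^ 2 := by
    intro s hs hs1
    rcases hs.eq_or_lt with h0 | h0
    · rw [← h0, h.sc.Q_zero' 0 le_rfl]; simp
    · refine (hC s h0).trans (mul_le_mul_of_nonneg_left ?_ hC0)
      exact pow_le_pow_of_le_one hs hs1 (by norm_num)
  refine ⟨L * C + M, by positivity, fun r s hr hrs hs1 => ?_⟩
  have hs : 0 ≤ s := hr.trans hrs
  have hsr : 0 ≤ s - r := by linarith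
  have hfs0 := h.sc.f_nonneg s
  have hfs1 := h.sc.f_le_one s
  rcases lt_or_ge r R₀ with h1 | h1
  · rw [h.sc.Q_zero r h1, mul_zero, sub_zero, abs_of_nonneg (mul_nonneg hfs0 (h.sc.Q_nonneg s))]
    have hR0 : 0 < R₀ := hr.trans_lt h1
    rcases lt_or_ge s R₀ with h2 | h2
    · rw [h.sc.Q_zero s h2, mul_zero]
      positivity
    · have h3 : f s ≤ L * (s - r) := by
        have h4 := hL s R₀
        rw [h.sc.f_core R₀ hR0 le_rfl, sub_zero, abs_of_nonneg hfs0,
          abs_of_nonneg (sub_nonneg.2 h2)] at h4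
        exact h4.trans (mul_le_mul_of_nonneg_left (by linarith) hL0)
      calc f s * Q s ≤ (L * (s - r)) * (C * s ^ 2) :=
            mul_le_mul h3 (hQC s hs hs1) (h.sc.Q_nonneg s) (by positivity)
        _ = L * C * s ^ 2 * (s - r) := by ring
        _ ≤ (L * C + M) * s ^ 2 * (s - r) := by
            refine mul_le_mul_of_nonneg_right (mul_le_mul_of_nonneg_right ?_ (sq_nonneg s)) hsr
            linarith
  · have h2 := h.sc.Q_sub_le hM0 hM h1 hrs
    have h3 : 0 ≤ Q s - Q r := sub_nonneg.2 (h.sc.Q_mono hrs)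
    have h4 := hL s r
    rw [abs_of_nonneg hsr] at h4
    have e : f s * Q s - f r * Q r = f s * (Q s - Q r) + (f s - f r) * Q r := by ring
    rw [e]
    refine (abs_add_le _ _).trans ?_
    rw [abs_mul, abs_mul, abs_of_nonneg hfs0, abs_of_nonneg h3, abs_of_nonneg (h.sc.Q_nonneg r)]
    have h5 : Q r ≤ C * s ^ 2 := (h.sc.Q_mono hrs).trans (hQC s hs hs1)
    calc f s * (Q s - Q r) + |f s - f r| * Q r
        ≤ 1 * (M * s ^ 2 * (s - r)) + (L * (s - r)) * (C * s ^ 2) :=
          add_le_add (mul_le_mul hfs1 h2 h3 zero_le_one)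
            (mul_le_mul h4 h5 (h.sc.Q_nonneg r) (by positivity))
      _ = (L * C + M) * s ^ 2 * (s - r) := by ring

theorem COB_g_sub (h : Reg W R₀ R a f Q θ q) : ∃ C, 0 ≤ C ∧ ∀ r s, 0 ≤ r → r ≤ s → s ≤ 1 →
    |COB_g q a f Q s - COB_g q a f Q r| ≤ C * s ^ 2 * (s - r) := by
  have hq := h.q_pos
  have hq1 := h.q_le
  have ha := h.a_pos
  have ht := tq_pos hq ha
  have hA := COB_auq_nonneg hq hq1 ha
  obtain ⟨C1, hC1, h1⟩ := COB_fQ_sub h
  obtain ⟨L, hL0, hL⟩ := h.sc.exists_L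
  have hg0 : 0 ≤ gam (tq q a) 0 := (COB_gam_le ht 0).1
  have hpi := Real.pi_pos
  set T : ℝ := Real.sqrt (tq q a) ^ 3 with hT
  have hT0 : 0 < T := by
    have := Real.sqrt_pos.2 ht
    positivity
  refine ⟨C1 + auq q a * (4 * Real.pi * gam (tq q a) 0 + 2 * L / T), by positivity,
    fun r s hr hrs hs1 => ?_⟩
  have hs : 0 ≤ s := hr.trans hrs
  have hsr : 0 ≤ s - r := by linarith
  have hfs0 := h.sc.f_nonneg s
  have hfs1 := h.sc.f_le_one s
  have hfr0 := h.sc.f_nonneg r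
  have hfr1 := h.sc.f_le_one r
  have h2 := h1 r s hr hrs hs1
  have h3 := COB_qbf_sub ht hr hrs
  have h4 := hL s r
  rw [abs_of_nonneg hsr] at h4
  have h5 : qbf (tq q a) r ≤ s ^ 2 / T := by
    refine (qbf_le_cube ht hr).trans (div_le_div_of_nonneg_right ?_ hT0.le)
    calc r ^ 3 ≤ s ^ 3 := pow_le_pow_left₀ hr hrs 3
      _ ≤ s ^ 2 := pow_le_pow_of_le_one hs hs1 (by norm_num)
  have h6 := qbf_nonneg (t := tq q a) hr
  have e : COB_g q a f Q s - COB_g q a f Q r = (f s * Q s - f r * Q r)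
      - auq q a * ((qbf (tq q a) s - qbf (tq q a) r) * f s ^ 2
        + qbf (tq q a) r * ((f s - f r) * (f s + f r))) := by
    unfold COB_g
    ring
  rw [e]
  refine (abs_sub _ _).trans ?_
  rw [abs_mul, abs_of_nonneg hA]
  have h7 : |(qbf (tq q a) s - qbf (tq q a) r) * f s ^ 2
        + qbf (tq q a) r * ((f s - f r) * (f s + f r))|
      ≤ (4 * Real.pi * gam (tq q a) 0 + 2 * L / T) * s ^ 2 * (s - r) := by
    refine (abs_add_le _ _).trans ?_
    rw [abs_mul, abs_mul, abs_mul, abs_of_nonneg (sq_nonneg (f s)), abs_of_nonneg h6,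
      abs_of_nonneg (add_nonneg hfs0 hfr0)]
    have h8 : |qbf (tq q a) s - qbf (tq q a) r| * f s ^ 2
        ≤ (4 * Real.pi * gam (tq q a) 0 * s ^ 2 * (s - r)) * 1 :=
      mul_le_mul h3 (pow_le_one₀ hfs0 hfs1) (sq_nonneg _) (by positivity)
    have h9 : qbf (tq q a) r * (|f s - f r| * (f s + f r)) ≤ (s ^ 2 / T) * ((L * (s - r)) * 2) :=
      mul_le_mul h5 (mul_le_mul h4 (by linarith) (by linarith) (by positivity)) (by positivity)
        (by positivity)
    calc _ ≤ (4 * Real.pi * gam (tq q a) 0 * s ^ 2 * (s - r)) * 1 + (s ^ 2 / T) * ((L * (s - r)) * 2) :=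
          add_le_add h8 h9
      _ = _ := by ring
  have h8 := mul_le_mul_of_nonneg_left h7 hA
  calc |f s * Q s - f r * Q r| + _ ≤ C1 * s ^ 2 * (s - r)
        + auq q a * ((4 * Real.pi * gam (tq q a) 0 + 2 * L / T) * s ^ 2 * (s - r)) :=
        add_le_add h2 h8
    _ = _ := by ring

/-- weighted Lipschitz bound of `g / r³` -/
theorem COB_wlip0 {g : ℝ → ℝ} {C C' : ℝ} (hC : 0 ≤ C) (hC' : 0 ≤ C')
    (h1 : ∀ r, 0 ≤ r → |g r| ≤ C * r ^ 3)
    (h2 : ∀ r s, 0 ≤ r → r ≤ s → s ≤ 1 → |g s - g r| ≤ C' * s ^ 2 * (s - r)) {r s : ℝ} (hr : 0 ≤ r)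
    (hrs : r ≤ s) (hs1 : s ≤ 1) : r * |g s / s ^ 3 - g r / r ^ 3| ≤ (C' + 3 * C) * (s - r) := by
  have hsr : 0 ≤ s - r := by linarith
  rcases hr.eq_or_lt with hr' | hr'
  · rw [← hr', zero_mul]
    have : 0 ≤ s - 0 := by linarith
    positivity
  have hs : 0 < s := hr'.trans_le hrs
  have e : g s / s ^ 3 - g r / r ^ 3
      = (g s - g r) / s ^ 3 - g r * ((s ^ 3 - r ^ 3) / (r ^ 3 * s ^ 3)) := by
    field_simp
    ring
  have h3 : |(g s - g r) / s ^ 3| ≤ C' * (s - r) / s := by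
    rw [abs_div, abs_of_pos (pow_pos hs 3), div_le_div_iff₀ (pow_pos hs 3) hs]
    calc |g s - g r| * s ≤ (C' * s ^ 2 * (s - r)) * s :=
          mul_le_mul_of_nonneg_right (h2 r s hr hrs hs1) hs.le
      _ = _ := by ring
  have h4 : |g r * ((s ^ 3 - r ^ 3) / (r ^ 3 * s ^ 3))| ≤ 3 * C * (s - r) / s := by
    have h5 : 0 ≤ s ^ 3 - r ^ 3 := by
      have := pow_le_pow_left₀ hr hrs 3
      linarith
    have h6 : s ^ 3 - r ^ 3 ≤ 3 * s ^ 2 * (s - r) := by
      have e : s ^ 3 - r ^ 3 = (s ^ 2 + s * r + r ^ 2) * (s - r) := by ring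
      rw [e]
      refine mul_le_mul_of_nonneg_right ?_ hsr
      have h7 := pow_le_pow_left₀ hr hrs 2
      have h8 := mul_le_mul_of_nonneg_left hrs hs.le
      linarith only [h7, h8]
    rw [abs_mul, abs_of_nonneg (div_nonneg h5 (by positivity))]
    calc |g r| * ((s ^ 3 - r ^ 3) / (r ^ 3 * s ^ 3))
        ≤ (C * r ^ 3) * ((3 * s ^ 2 * (s - r)) / (r ^ 3 * s ^ 3)) := by
          refine mul_le_mul (h1 r hr) ?_ (div_nonneg h5 (by positivity)) (by positivity)
          exact div_le_div_of_nonneg_right h6 (by positivity)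
      _ = 3 * C * (s - r) / s := by field_simp
  rw [e]
  calc r * |(g s - g r) / s ^ 3 - g r * ((s ^ 3 - r ^ 3) / (r ^ 3 * s ^ 3))|
      ≤ r * (C' * (s - r) / s + 3 * C * (s - r) / s) := by
        refine mul_le_mul_of_nonneg_left ?_ hr
        exact (abs_sub _ _).trans (add_le_add h3 h4)
    _ = (C' + 3 * C) * (s - r) * (r / s) := by ring
    _ ≤ (C' + 3 * C) * (s - r) * 1 := by
        refine mul_le_mul_of_nonneg_left ?_ (by positivity)
        rw [div_le_one hs]; exact hrs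
    _ = (C' + 3 * C) * (s - r) := mul_one _

/-- The extended function on `[0, b]`. -/
noncomputable def COB_phi (q a : ℝ) (f Q : ℝ → ℝ) (r : ℝ) : ℝ :=
  efs q a r ^ 2 * (COB_g q a f Q r / r ^ 3)

theorem COB_phi_b (h : Reg W R₀ R a f Q θ q) : COB_phi q a f Q (bq q a) = 0 := by
  have hR := h.R_le_b
  have hRp := h.sc.R_pos
  have h1 : COB_g q a f Q (bq q a) = 0 := by
    unfold COB_g
    rw [h.f_b, h.sc.Q_out (bq q a) (by linarith)]
    have h2 := auq_match h.q_pos h.q_le h.a_pos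
    linear_combination (-(1 - q ^ 80)) * h2
  unfold COB_phi
  rw [h1]
  simp

theorem COB_phi_wlip (h : Reg W R₀ R a f Q θ q) : ∃ M, 0 ≤ M ∧ ∀ r s, 0 ≤ r → r ≤ s → s ≤ 1 →
    r * |COB_phi q a f Q s - COB_phi q a f Q r| ≤ M * (s - r) := by
  obtain ⟨B, L, hB, hL, h1, h2⟩ := COB_efs h.q_pos h.q_le h.a_pos
  obtain ⟨C, hC, h3⟩ := COB_g_bd h
  obtain ⟨C', hC', h4⟩ := COB_g_sub h
  refine ⟨2 * B * L * C + B ^ 2 * (C' + 3 * C), by positivity, fun r s hr hrs hs1 => ?_⟩
  have hs : 0 ≤ s := hr.trans hrs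
  have hsr : 0 ≤ s - r := by linarith
  have h5 := COB_wlip0 hC hC' h3 h4 hr hrs hs1
  have h6 : |COB_g q a f Q s / s ^ 3| ≤ C := by
    rcases hs.eq_or_lt with h0 | h0
    · rw [← h0]; simpa using hC
    · rw [abs_div, abs_of_pos (pow_pos h0 3), div_le_iff₀ (pow_pos h0 3)]
      exact h3 s hs
  have h7 := h2 s r
  rw [abs_of_nonneg hsr] at h7
  have e : COB_phi q a f Q s - COB_phi q a f Q r
      = (efs q a s - efs q a r) * (efs q a s + efs q a r) * (COB_g q a f Q s / s ^ 3)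
        + efs q a r ^ 2 * (COB_g q a f Q s / s ^ 3 - COB_g q a f Q r / r ^ 3) := by
    unfold COB_phi
    ring
  rw [e]
  have hes := h1 s
  have her := h1 r
  have h8 : |(efs q a s - efs q a r) * (efs q a s + efs q a r) * (COB_g q a f Q s / s ^ 3)|
      ≤ L * (s - r) * (2 * B) * C := by
    rw [abs_mul, abs_mul, abs_of_nonneg (add_nonneg hes.1.le her.1.le)]
    exact mul_le_mul (mul_le_mul h7 (by linarith [hes.2, her.2]) (by linarith [hes.1, her.1])
      (by positivity)) h6 (abs_nonneg _) (by positivity)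
  have h9 : r * |efs q a r ^ 2 * (COB_g q a f Q s / s ^ 3 - COB_g q a f Q r / r ^ 3)|
      ≤ B ^ 2 * ((C' + 3 * C) * (s - r)) := by
    rw [abs_mul, abs_of_nonneg (sq_nonneg (efs q a r))]
    calc r * (efs q a r ^ 2 * |COB_g q a f Q s / s ^ 3 - COB_g q a f Q r / r ^ 3|)
        = efs q a r ^ 2 * (r * |COB_g q a f Q s / s ^ 3 - COB_g q a f Q r / r ^ 3|) := by ring
      _ ≤ B ^ 2 * ((C' + 3 * C) * (s - r)) :=
          mul_le_mul (pow_le_pow_left₀ her.1.le her.2 2) h5 (by positivity) (by positivity)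
  calc r * |(efs q a s - efs q a r) * (efs q a s + efs q a r) * (COB_g q a f Q s / s ^ 3)
        + efs q a r ^ 2 * (COB_g q a f Q s / s ^ 3 - COB_g q a f Q r / r ^ 3)|
      ≤ r * (|(efs q a s - efs q a r) * (efs q a s + efs q a r) * (COB_g q a f Q s / s ^ 3)|
        + |efs q a r ^ 2 * (COB_g q a f Q s / s ^ 3 - COB_g q a f Q r / r ^ 3)|) :=
        mul_le_mul_of_nonneg_left (abs_add_le _ _) hr
    _ = r * |(efs q a s - efs q a r) * (efs q a s + efs q a r) * (COB_g q a f Q s / s ^ 3)|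
        + r * |efs q a r ^ 2 * (COB_g q a f Q s / s ^ 3 - COB_g q a f Q r / r ^ 3)| := by ring
    _ ≤ 1 * (L * (s - r) * (2 * B) * C) + B ^ 2 * ((C' + 3 * C) * (s - r)) :=
        add_le_add (mul_le_mul (by linarith) h8 (abs_nonneg _) zero_le_one) h9
    _ = _ := by ring

theorem COB_gs_eq {r : ℝ} (hr : r < bq q a) :
    gs q a f Q r = efs q a r * (Q r - auq q a * qbf (tq q a) r * f r) / r ^ 3 := by
  unfold gs
  rw [if_pos hr]

theorem COB_gs_ge {r : ℝ} (hr : bq q a ≤ r) : gs q a f Q r = 0 := by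
  unfold gs
  rw [if_neg (not_lt.2 hr)]

theorem COB_fs_lt {r : ℝ} (hr : r ≤ bq q a) : fs q a f r = f r * efs q a r := by
  unfold fs
  rw [min_eq_left hr]

theorem COB_prod_eq {r : ℝ} (hr : r < bq q a) :
    fs q a f r * gs q a f Q r = COB_phi q a f Q r := by
  rw [COB_gs_eq hr, COB_fs_lt hr.le]
  unfold COB_phi COB_g
  ring

theorem COB_fs_lip (h : Reg W R₀ R a f Q θ q) : ∃ L, ∀ r s, |fs q a f r - fs q a f s| ≤ L * |r - s| := by
  obtain ⟨B, L, hB, hL, h1, h2⟩ := COB_efs h.q_pos h.q_le h.a_pos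
  obtain ⟨L', hL0', hL'⟩ := h.sc.exists_L
  refine ⟨L' * B + L, fun r s => ?_⟩
  unfold fs
  set x := min r (bq q a)
  set y := min s (bq q a)
  have hxy : |x - y| ≤ |r - s| := abs_min_sub_min_le_max r (bq q a) s (bq q a) |>.trans (by simp)
  have e : f x * efs q a x - f y * efs q a y
      = (f x - f y) * efs q a x + f y * (efs q a x - efs q a y) := by ring
  rw [e]
  refine (abs_add_le _ _).trans ?_
  rw [abs_mul, abs_mul, abs_of_pos (h1 x).1, abs_of_nonneg (h.sc.f_nonneg y)]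
  have h3 : |f x - f y| * efs q a x ≤ (L' * |x - y|) * B :=
    mul_le_mul (hL' x y) (h1 x).2 (h1 x).1.le (by positivity)
  have h4 : f y * |efs q a x - efs q a y| ≤ 1 * (L * |x - y|) :=
    mul_le_mul (h.sc.f_le_one y) (h2 x y) (abs_nonneg _) zero_le_one
  have h5 : (L' * B + L) * |x - y| ≤ (L' * B + L) * |r - s| :=
    mul_le_mul_of_nonneg_left hxy (by positivity)
  calc _ ≤ (L' * |x - y|) * B + 1 * (L * |x - y|) := add_le_add h3 h4
    _ = (L' * B + L) * |x - y| := by ring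
    _ ≤ _ := h5

theorem COB_fs_bdd (h : Reg W R₀ R a f Q θ q) : ∃ B, 0 ≤ B ∧ ∀ r, |fs q a f r| ≤ B := by
  obtain ⟨B, L, hB, hL, h1, h2⟩ := COB_efs h.q_pos h.q_le h.a_pos
  refine ⟨B, hB, fun r => ?_⟩
  unfold fs
  rw [abs_mul, abs_of_nonneg (h.sc.f_nonneg _), abs_of_pos (h1 _).1]
  calc f (min r (bq q a)) * efs q a (min r (bq q a)) ≤ 1 * B :=
        mul_le_mul (h.sc.f_le_one _) (h1 _).2 (h1 _).1.le zero_le_one
    _ = B := one_mul B

theorem COB_ne (e : ℝ) : ∀ᵐ r : ℝ, r ≠ e := by rw [ae_iff]; simp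

theorem Reg.fs_prof (h : Reg W R₀ R a f Q θ q) : Prof (bq q a) (fs q a f) (gs q a f Q) where
  b_lt := h.b_lt.trans (by norm_num)
  lip := COB_fs_lip h
  bdd := by
    obtain ⟨B, _, hB⟩ := COB_fs_bdd h
    exact ⟨B, hB⟩
  deriv := by
    filter_upwards [COB_ne R₀, COB_ne (bq q a)] with r h1 h2 hr0
    rcases lt_or_gt_of_ne h2 with hlt | hgt
    · have h3 := (h.sc.f_deriv r hr0 h1).fun_mul (COB_efs_deriv h.q_pos h.a_pos hr0)
      have e : Q r / r ^ 2 * efs q a r
          + f r * (-(auq q a * qbf (tq q a) r / r ^ 2) * efs q a r) = r * gs q a f Q r := by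
        rw [COB_gs_eq hlt]
        field_simp
        ring
      rw [e] at h3
      refine h3.congr_of_eventuallyEq ?_
      filter_upwards [gt_mem_nhds hlt] with s hs
      exact COB_fs_lt (le_of_lt hs)
    · rw [COB_gs_ge hgt.le, mul_zero]
      refine (hasDerivAt_const r (fs q a f (bq q a))).congr_of_eventuallyEq ?_
      filter_upwards [lt_mem_nhds hgt] with s hs
      unfold fs
      rw [min_eq_right (le_of_lt hs), min_self]
  zero := fun r hr => COB_gs_ge hr
  const := fun r hr => by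
    unfold fs
    rw [min_eq_right hr, min_self]

theorem Reg.gs_meas (h : Reg W R₀ R a f Q θ q) : Measurable (gs q a f Q) := by
  unfold gs
  refine Measurable.ite measurableSet_Iio ?_ measurable_const
  exact ((COB_efs_cont h.q_pos h.q_le h.a_pos).measurable.mul (h.sc.Q_meas.sub
    (((COB_qbf_cont (tq_pos h.q_pos h.a_pos)).measurable.const_mul _).mul
      h.sc.f_cont.measurable))).div (measurable_id.pow_const 3)

theorem Reg.gs_bdd (h : Reg W R₀ R a f Q θ q) : ∃ C, ∀ r, |gs q a f Q r| ≤ C := by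
  obtain ⟨B, L, hB, hL, h1, h2⟩ := COB_efs h.q_pos h.q_le h.a_pos
  obtain ⟨C, hC0, hC⟩ := h.sc.exists_C
  have ht := tq_pos h.q_pos h.a_pos
  have hA := COB_auq_nonneg h.q_pos h.q_le h.a_pos
  set T : ℝ := Real.sqrt (tq q a) ^ 3 with hT
  have hT0 : 0 < T := by
    have := Real.sqrt_pos.2 ht
    positivity
  refine ⟨B * (C + auq q a / T), fun r => ?_⟩
  rcases lt_or_ge r (bq q a) with hr | hr
  · rw [COB_gs_eq hr]
    rcases eq_or_ne r 0 with h0 | h0
    · rw [h0]
      have : 0 ≤ B * (C + auq q a / T) := by positivity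
      simpa using this
    · have hr3 : 0 < |r| ^ 3 := pow_pos (abs_pos.2 h0) 3
      rw [abs_div, abs_mul, abs_pow, abs_of_pos (h1 r).1, div_le_iff₀ hr3]
      have h3 : |Q r - auq q a * qbf (tq q a) r * f r| ≤ (C + auq q a / T) * |r| ^ 3 := by
        refine (abs_sub _ _).trans ?_
        rw [add_mul]
        refine add_le_add ?_ ?_
        · rw [abs_of_nonneg (h.sc.Q_nonneg r)]
          rcases le_or_gt r 0 with h4 | h4
          · rw [h.sc.Q_zero' r h4]; positivity
          · rw [abs_of_pos h4]; exact hC r h4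
        · rw [abs_mul, abs_mul, abs_of_nonneg hA, abs_of_nonneg (h.sc.f_nonneg r)]
          have h4 := (COB_qbf_abs ht r).1
          calc auq q a * |qbf (tq q a) r| * f r ≤ auq q a * |qbf (tq q a) r| * 1 :=
                mul_le_mul_of_nonneg_left (h.sc.f_le_one r) (by positivity)
            _ ≤ auq q a * (|r| ^ 3 / T) := by
                rw [mul_one]; exact mul_le_mul_of_nonneg_left h4 hA
            _ = auq q a / T * |r| ^ 3 := by ring
      calc efs q a r * |Q r - auq q a * qbf (tq q a) r * f r|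
          ≤ B * ((C + auq q a / T) * |r| ^ 3) := mul_le_mul (h1 r).2 h3 (abs_nonneg _) hB
        _ = B * (C + auq q a / T) * |r| ^ 3 := by ring
  · rw [COB_gs_ge hr, abs_zero]
    positivity

/-- boundedness of `ks` -/
theorem COB_ks_bdd (h : Reg W R₀ R a f Q θ q) : ∃ C, ∀ r, |ks q a f Q W r| ≤ C := by
  obtain ⟨B, L, hB, hL, h1, h2⟩ := COB_efs h.q_pos h.q_le h.a_pos
  obtain ⟨C, hC0, hC⟩ := h.sc.exists_C
  obtain ⟨M, hM0, hM⟩ := h.sc.exists_M
  have ha := h.a_pos
  have ht := tq_pos h.q_pos ha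
  have hA := COB_auq_nonneg h.q_pos h.q_le ha
  have hb1 : bq q a < 1 := h.b_lt.trans (by norm_num)
  set T : ℝ := Real.sqrt (tq q a) ^ 3 with hT
  have hT0 : 0 < T := by
    have := Real.sqrt_pos.2 ht
    positivity
  have hg0 := (COB_gam_le ht 0).1
  have hpi := Real.pi_pos
  set A := auq q a with hAdef
  -- the four basic bounds for `r ≠ 0`, `r < 1`
  have hQ : ∀ r, r < 1 → Q r ≤ C * |r| ^ 3 ∧ Q r ≤ C * |r| ^ 2 := by
    intro r hr
    rcases le_or_gt r 0 with h4 | h4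
    · rw [h.sc.Q_zero' r h4]; constructor <;> positivity
    · rw [abs_of_pos h4]
      refine ⟨hC r h4, (hC r h4).trans (mul_le_mul_of_nonneg_left ?_ hC0)⟩
      exact pow_le_pow_of_le_one h4.le hr.le (by norm_num)
  have hqq : ∀ r, |qbf (tq q a) r| ^ 2 ≤ (1 + 1 / T ^ 2) * |r| ^ 4 := by
    intro r
    obtain ⟨h3, h4⟩ := COB_qbf_abs ht r
    rcases le_total 1 |r| with h5 | h5
    · have h6 : (1:ℝ) ≤ |r| ^ 4 := one_le_pow₀ h5
      have h7 : |qbf (tq q a) r| ^ 2 ≤ 1 := pow_le_one₀ (abs_nonneg _) h4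
      have h8 : 0 ≤ 1 / T ^ 2 * |r| ^ 4 := by positivity
      rw [add_mul, one_mul]
      linarith
    · have h6 : |qbf (tq q a) r| ^ 2 ≤ (|r| ^ 3 / T) ^ 2 := pow_le_pow_left₀ (abs_nonneg _) h3 2
      have h7 : (|r| ^ 3 / T) ^ 2 = 1 / T ^ 2 * |r| ^ 6 := by
        field_simp
      have h8 : |r| ^ 6 ≤ |r| ^ 4 := pow_le_pow_of_le_one (abs_nonneg _) h5 (by norm_num)
      have h9 : 1 / T ^ 2 * |r| ^ 6 ≤ 1 / T ^ 2 * |r| ^ 4 :=
        mul_le_mul_of_nonneg_left h8 (by positivity)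
      have h10 : 0 ≤ |r| ^ 4 := by positivity
      rw [add_mul, one_mul]
      linarith
  have hqQ : ∀ r, r < 1 → |qbf (tq q a) r| * Q r ≤ (C / T) * |r| ^ 4 := by
    intro r hr
    rcases le_or_gt r 0 with h4 | h4
    · rw [h.sc.Q_zero' r h4, mul_zero]; positivity
    · have h5 := (COB_qbf_abs ht r).1
      rw [abs_of_pos h4] at h5 ⊢
      calc |qbf (tq q a) r| * Q r ≤ (r ^ 3 / T) * (C * r ^ 3) :=
            mul_le_mul h5 (hC r h4) (h.sc.Q_nonneg r) (by positivity)
        _ = C / T * r ^ 6 := by ring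
        _ ≤ C / T * r ^ 4 := mul_le_mul_of_nonneg_left
            (pow_le_pow_of_le_one h4.le hr.le (by norm_num)) (by positivity)
  have hQQ : ∀ r, r < 1 → Q r ^ 2 ≤ C ^ 2 * |r| ^ 4 := by
    intro r hr
    calc Q r ^ 2 ≤ (C * |r| ^ 2) ^ 2 := pow_le_pow_left₀ (h.sc.Q_nonneg r) (hQ r hr).2 2
      _ = C ^ 2 * |r| ^ 4 := by ring
  set G := gam (tq q a) 0 with hG
  refine ⟨B ^ 2 * ((2 * A * (C / T) + 2 * A ^ 2 * (1 + 1 / T ^ 2)) + 3 * (C + A / T)
    + (C ^ 2 + M + 4 * Real.pi * A * G + 2 * A * (C / T))), fun r => ?_⟩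
  rcases lt_or_ge r (bq q a) with hr | hr
  · have hr1 : r < 1 := hr.trans hb1
    have hf0 := h.sc.f_nonneg r
    have hf1 := h.sc.f_le_one r
    have hf2 : f r ^ 2 ≤ 1 := pow_le_one₀ hf0 hf1
    have hf20 : 0 ≤ f r ^ 2 := sq_nonneg _
    have hQ0 := h.sc.Q_nonneg r
    have hW0 := h.sc.W_nonneg r
    unfold ks
    rw [if_pos hr, abs_mul, abs_of_nonneg (sq_nonneg (efs q a r))]
    refine mul_le_mul (pow_le_pow_left₀ (h1 r).1.le (h1 r).2 2) ?_ (abs_nonneg _) (by positivity)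
    rcases eq_or_ne r 0 with h0 | h0
    · rw [h0]
      have : 0 ≤ (2 * A * (C / T) + 2 * A ^ 2 * (1 + 1 / T ^ 2)) + 3 * (C + A / T)
        + (C ^ 2 + M + 4 * Real.pi * A * G + 2 * A * (C / T)) := by positivity
      simpa using this
    · have hp : 0 < |r| := abs_pos.2 h0
      have hp4 : 0 < |r| ^ 4 := pow_pos hp 4
      have hp3 : 0 < |r| ^ 3 := pow_pos hp 3
      have t1 : |-(2 * A * qbf (tq q a) r / r) * (f r * Q r - A * qbf (tq q a) r * f r ^ 2) / r ^ 3|
          ≤ 2 * A * (C / T) + 2 * A ^ 2 * (1 + 1 / T ^ 2) := by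
        have e : -(2 * A * qbf (tq q a) r / r) * (f r * Q r - A * qbf (tq q a) r * f r ^ 2) / r ^ 3
            = (-(2 * A * f r * (qbf (tq q a) r * Q r)) + 2 * A ^ 2 * f r ^ 2 * qbf (tq q a) r ^ 2)
              / r ^ 4 := by
          field_simp
          ring
        rw [e, abs_div, abs_pow, div_le_iff₀ hp4]
        refine (abs_add_le _ _).trans ?_
        rw [abs_neg, abs_mul (2 * A * f r) (qbf (tq q a) r * Q r), abs_mul (qbf (tq q a) r) (Q r),
          abs_of_nonneg (by positivity : 0 ≤ 2 * A * f r),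
          abs_of_nonneg hQ0, abs_mul (2 * A ^ 2 * f r ^ 2) (qbf (tq q a) r ^ 2),
          abs_of_nonneg (by positivity : 0 ≤ 2 * A ^ 2 * f r ^ 2), abs_pow]
        have s1 : 2 * A * f r * (|qbf (tq q a) r| * Q r) ≤ 2 * A * 1 * (C / T * |r| ^ 4) :=
          mul_le_mul (mul_le_mul_of_nonneg_left hf1 (by positivity)) (hqQ r hr1) (by positivity)
            (by positivity)
        have s2 : 2 * A ^ 2 * f r ^ 2 * |qbf (tq q a) r| ^ 2
            ≤ 2 * A ^ 2 * 1 * ((1 + 1 / T ^ 2) * |r| ^ 4) :=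
          mul_le_mul (mul_le_mul_of_nonneg_left hf2 (by positivity)) (hqq r) (by positivity)
            (by positivity)
        calc _ ≤ 2 * A * 1 * (C / T * |r| ^ 4) + 2 * A ^ 2 * 1 * ((1 + 1 / T ^ 2) * |r| ^ 4) :=
              add_le_add s1 s2
          _ = _ := by ring
      have t2 : |3 * (f r * Q r - A * qbf (tq q a) r * f r ^ 2) / r ^ 3| ≤ 3 * (C + A / T) := by
        rw [abs_div, abs_mul 3, abs_pow, abs_of_pos (by norm_num : (0:ℝ) < 3), div_le_iff₀ hp3,
          mul_assoc 3 (C + A / T)]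
        refine mul_le_mul_of_nonneg_left ?_ (by norm_num : (0:ℝ) ≤ 3)
        refine (abs_sub _ _).trans ?_
        rw [add_mul, abs_of_nonneg (mul_nonneg hf0 hQ0), abs_mul, abs_mul, abs_of_nonneg hA,
          abs_of_nonneg hf20]
        have s1 : f r * Q r ≤ 1 * (C * |r| ^ 3) := mul_le_mul hf1 (hQ r hr1).1 hQ0 zero_le_one
        have s2 : A * |qbf (tq q a) r| * f r ^ 2 ≤ A * (|r| ^ 3 / T) * 1 :=
          mul_le_mul (mul_le_mul_of_nonneg_left (COB_qbf_abs ht r).1 hA) hf2 hf20 (by positivity)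
        calc _ ≤ 1 * (C * |r| ^ 3) + A * (|r| ^ 3 / T) * 1 := add_le_add s1 s2
          _ = _ := by ring
      have t3 : |(Q r ^ 2 / r ^ 2 + r ^ 2 * W r * f r ^ 2 - 4 * Real.pi * A * r ^ 2 * gam (tq q a) r * f r ^ 2
          - 2 * A * qbf (tq q a) r * f r * Q r / r ^ 2) / r ^ 2|
          ≤ C ^ 2 + M + 4 * Real.pi * A * G + 2 * A * (C / T) := by
        have e : (Q r ^ 2 / r ^ 2 + r ^ 2 * W r * f r ^ 2
            - 4 * Real.pi * A * r ^ 2 * gam (tq q a) r * f r ^ 2
            - 2 * A * qbf (tq q a) r * f r * Q r / r ^ 2) / r ^ 2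
            = Q r ^ 2 / r ^ 4 + W r * f r ^ 2 - 4 * Real.pi * A * gam (tq q a) r * f r ^ 2
              - 2 * A * f r * (qbf (tq q a) r * Q r) / r ^ 4 := by
          field_simp
        rw [e]
        have hgr := COB_gam_le ht r
        have s1 : |Q r ^ 2 / r ^ 4| ≤ C ^ 2 := by
          rw [abs_div, abs_pow r, abs_of_nonneg (sq_nonneg (Q r)), div_le_iff₀ hp4]
          exact hQQ r hr1
        have s2 : |W r * f r ^ 2| ≤ M := by
          rw [abs_of_nonneg (by positivity)]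
          calc W r * f r ^ 2 ≤ M * 1 := mul_le_mul (hM r) hf2 hf20 hM0
            _ = M := mul_one M
        have s3 : |4 * Real.pi * A * gam (tq q a) r * f r ^ 2| ≤ 4 * Real.pi * A * G := by
          rw [abs_of_nonneg (mul_nonneg (mul_nonneg (by positivity) hgr.1) hf20)]
          calc 4 * Real.pi * A * gam (tq q a) r * f r ^ 2 ≤ 4 * Real.pi * A * G * 1 :=
                mul_le_mul (mul_le_mul_of_nonneg_left hgr.2 (by positivity)) hf2 hf20 (by positivity)
            _ = _ := mul_one _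
        have s4 : |2 * A * f r * (qbf (tq q a) r * Q r) / r ^ 4| ≤ 2 * A * (C / T) := by
          rw [abs_div, abs_pow, abs_mul (2 * A * f r) (qbf (tq q a) r * Q r), abs_mul (qbf (tq q a) r) (Q r),
            abs_of_nonneg (by positivity : 0 ≤ 2 * A * f r), abs_of_nonneg hQ0, div_le_iff₀ hp4]
          calc 2 * A * f r * (|qbf (tq q a) r| * Q r) ≤ 2 * A * 1 * (C / T * |r| ^ 4) :=
                mul_le_mul (mul_le_mul_of_nonneg_left hf1 (by positivity)) (hqQ r hr1)
                  (by positivity) (by positivity)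
            _ = _ := by ring
        refine (abs_sub _ _).trans (add_le_add ((abs_sub _ _).trans (add_le_add
          ((abs_add_le _ _).trans (add_le_add s1 s2)) s3)) s4)
      exact (abs_add_le _ _).trans (add_le_add ((abs_sub _ _).trans (add_le_add t1 t2)) t3)
  · unfold ks
    rw [if_neg (not_lt.2 hr), abs_zero]
    positivity

theorem COB_ks_meas (h : Reg W R₀ R a f Q θ q) : Measurable (ks q a f Q W) := by
  have me := (COB_efs_cont h.q_pos h.q_le h.a_pos).measurable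
  have mq := (COB_qbf_cont (tq_pos h.q_pos h.a_pos)).measurable
  have mg := (COB_gam_cont (tq q a)).measurable
  have mf := h.sc.f_cont.measurable
  have mQ := h.sc.Q_meas
  have mW := h.sc.W_meas
  unfold ks
  refine Measurable.ite measurableSet_Iio ?_ measurable_const
  fun_prop

theorem COB_deriv (h : Reg W R₀ R a f Q θ q) : ∀ᵐ r : ℝ, 0 < r →
    HasDerivAt (fun r => fs q a f r * gs q a f Q r) (ks q a f Q W r / r) r := by
  filter_upwards [COB_ne R₀, COB_ne (bq q a), h.sc.Q_deriv] with r h1 h2 h3 hr0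
  rcases lt_or_gt_of_ne h2 with hlt | hgt
  · rcases lt_or_gt_of_ne h1 with hlt0 | hgt0
    · -- inside the core
      have hR0 : 0 < R₀ := hr0.trans hlt0
      have e : ks q a f Q W r / r = 0 := by
        unfold ks
        rw [if_pos hlt, h.sc.f_core r hR0 hlt0.le, h.sc.Q_zero r hlt0]
        simp
      rw [e]
      refine (hasDerivAt_const r (0:ℝ)).congr_of_eventuallyEq ?_
      filter_upwards [gt_mem_nhds hlt0, gt_mem_nhds hlt] with s hs hs'
      rw [COB_fs_lt (le_of_lt hs'), h.sc.f_core s hR0 (le_of_lt hs)]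
      ring
    · have he := COB_efs_deriv (q := q) (a := a) h.q_pos h.a_pos hr0
      have hf := h.sc.f_deriv r hr0 h1
      have hQ := h3 hgt0
      have hqb := qbf_hasDerivAt (tq_pos h.q_pos h.a_pos) r
      have hg := (hf.fun_mul hQ).fun_sub ((hqb.const_mul (auq q a)).fun_mul (hf.fun_pow 2))
      have hphi := (he.fun_pow 2).fun_mul (hg.fun_div (hasDerivAt_pow 3 r) (pow_pos hr0 3).ne')
      have hev : (fun r => fs q a f r * gs q a f Q r) =ᶠ[𝓝 r] fun x =>
          efs q a x ^ 2 * ((f x * Q x - auq q a * qbf (tq q a) x * f x ^ 2) / x ^ 3) := by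
        filter_upwards [gt_mem_nhds hlt] with s hs
        rw [COB_prod_eq hs]
        rfl
      refine HasDerivAt.congr_of_eventuallyEq ?_ hev
      refine hphi.congr_deriv ?_
      unfold ks
      rw [if_pos hlt]
      have hr0' := hr0.ne'
      push_cast
      field_simp
      ring
  · have e : ks q a f Q W r / r = 0 := by
      unfold ks
      rw [if_neg (not_lt.2 hgt.le), zero_div]
    rw [e]
    refine (hasDerivAt_const r (0:ℝ)).congr_of_eventuallyEq ?_
    filter_upwards [lt_mem_nhds hgt] with s hs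
    rw [COB_gs_ge (le_of_lt hs), mul_zero]

theorem Reg.fsgs_fprof (h : Reg W R₀ R a f Q θ q) :
    FProf (bq q a) (fun r => fs q a f r * gs q a f Q r) (ks q a f Q W) where
  b_lt := h.b_lt.trans (by norm_num)
  meas := h.fs_prof.continuous.measurable.mul h.gs_meas
  meas' := COB_ks_meas h
  wlip := by
    obtain ⟨M, hM0, hM⟩ := COB_phi_wlip h
    have hb1 : bq q a < 1 := h.b_lt.trans (by norm_num)
    refine ⟨M, fun r s hr hrs => ?_⟩
    have hsr : 0 ≤ s - r := by linarith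
    rcases lt_or_ge s (bq q a) with h1 | h1
    · rw [COB_prod_eq h1, COB_prod_eq (hrs.trans_lt h1)]
      exact hM r s hr hrs (by linarith)
    · rw [COB_gs_ge h1, mul_zero]
      rcases lt_or_ge r (bq q a) with h2 | h2
      · rw [COB_prod_eq h2]
        have h3 := hM r (bq q a) hr h2.le hb1.le
        rw [COB_phi_b h] at h3
        exact h3.trans (mul_le_mul_of_nonneg_left (by linarith) hM0)
      · rw [COB_gs_ge h2, mul_zero, sub_self, abs_zero, mul_zero]
        positivity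
  bdd := by
    obtain ⟨B, hB0, hB⟩ := COB_fs_bdd h
    obtain ⟨C, hC⟩ := h.gs_bdd
    refine ⟨B * C, fun r => ?_⟩
    rw [abs_mul]
    exact mul_le_mul (hB r) (hC r) (abs_nonneg _) hB0
  bdd' := COB_ks_bdd h
  deriv := COB_deriv h
  zero := fun r hr => by
    rw [COB_gs_ge hr, mul_zero]
  zero' := fun r hr => by
    unfold ks
    rw [if_neg (not_lt.2 hr)]

end

end Pool.Agent.Lib.MP_4952d6_mp

end

/-! ### U.COA -/

section

/-!
# COA: bounds of the core function

`f_s(r) = f(r) e(r)` for `r ≤ b`, `= 1` for `r ≥ b` (`f b = 1 - q^80`, `efs b = 1/(1-q^80)`).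
`f_s ≥ f(r)` because `e(r) ≥ 1` (`r ≤ b`), and `1 ≥ f`. `f_s ≤ 1`: on `[R, b]`: derivative
`f_s' = e(r) (Q(r) - a_u q_b(r) f(r))/r² ≥ 0` since `Q = a`, `f(r) ≤ f(b) = 1 - q^80`, `q_b(r) ≤ q_b(b)`, `auq_match`; so `f_s` is monotone on
`[R, b]` and `f_s(b) = 1`. For `0 ≤ r ≤ R`: `f_s(r) ≤ f(R) e(r) ≤ (1 - a/R) exp(2 q^79)/(1 - q^80)`, `a/R ≥ 1/θ ≥ q`, and
`(1 - q) exp(2q^79) ≤ 1 - q^80`. For `r < 0`: `f r ≤ ...`: only `r ≥ 0` is needed.
Integral: `1 - f_s² ≤ 2 (1 - f_s) ≤ 2 (1 - f(r)) ≤ 2a/r` for `0 < r < b`, `0` for `r ≥ b`; `integral_rad`/`rad_le` (JEst.lean) and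
`sig = 4π` (`sig_eq_four_pi`).
-/

set_option autoImplicit false
set_option linter.unusedSectionVars false
set_option linter.unusedVariables false
open MeasureTheory Function Filter Topology Set
open scoped ENNReal

namespace Pool.Agent.Lib.MP_4952d6_mp

section
variable {W f Q : ℝ → ℝ} {R₀ R a θ q : ℝ}

theorem Reg.fs_of_ge (h : Reg W R₀ R a f Q θ q) {r : ℝ} (hr : bq q a ≤ r) : fs q a f r = 1 := by
  obtain ⟨ht, ht1⟩ := PRB_t h.q_pos h.q_le (k := 80) (by norm_num)
  unfold fs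
  rw [min_eq_right hr, h.f_b]
  unfold efs
  rw [sub_self, mul_zero, Real.exp_zero]
  have h1 : (1 - q ^ 80 : ℝ) ≠ 0 := by linarith
  field_simp

theorem Reg.fs_of_le (h : Reg W R₀ R a f Q θ q) {r : ℝ} (hr : r ≤ bq q a) :
    fs q a f r = f r * efs q a r := by
  unfold fs
  rw [min_eq_left hr]

theorem Reg.fs_nonneg (h : Reg W R₀ R a f Q θ q) (r : ℝ) : 0 ≤ fs q a f r :=
  mul_nonneg (h.sc.f_nonneg _) (efs_pos h.q_pos h.q_le).le

/-- derivative of `f e` -/
theorem Reg.COA_deriv (h : Reg W R₀ R a f Q θ q) {x : ℝ} (hx : R < x) :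
    HasDerivAt (fun r => f r * efs q a r)
      (efs q a x / x ^ 2 * (Q x - auq q a * qbf (tq q a) x * f x)) x := by
  have hR := h.sc.R_pos
  have hx0 : 0 < x := hR.trans hx
  have h1 := h.sc.f_deriv x hx0 (by have := h.sc.R₀_le; linarith)
  have h2 : HasDerivAt (fun r => Real.exp (auq q a * (sbf (tq q a) r - sbf (tq q a) (bq q a)))
      / (1 - q ^ 80))
      (Real.exp (auq q a * (sbf (tq q a) x - sbf (tq q a) (bq q a)))
        * (auq q a * (-(qbf (tq q a) x / x ^ 2))) / (1 - q ^ 80)) x :=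
    ((((sbf_hasDerivAt (tq_pos h.q_pos h.a_pos) hx0).sub_const _).const_mul _).exp).div_const _
  have h3 := h1.mul h2
  refine h3.congr_deriv ?_
  unfold efs
  field_simp
  ring

theorem Reg.COA_far (h : Reg W R₀ R a f Q θ q) {r : ℝ} (hr : R ≤ r) (hrb : r ≤ bq q a) :
    fs q a f r ≤ 1 := by
  have hR := h.sc.R_pos
  have hm : MonotoneOn (fun r => f r * efs q a r) (Icc R (bq q a)) := by
    refine monotoneOn_of_deriv_nonneg (convex_Icc _ _) ?_ ?_ ?_
    · intro x hx
      have hx0 : 0 < x := hR.trans_le hx.1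
      have h1 : ContinuousAt f x := h.sc.f_cont.continuousAt
      have h2 : ContinuousAt (sbf (tq q a)) x :=
        (sbf_hasDerivAt (tq_pos h.q_pos h.a_pos) hx0).continuousAt
      refine ContinuousAt.continuousWithinAt (h1.mul ?_)
      unfold efs
      exact ((continuousAt_const.mul (h2.sub continuousAt_const)).rexp).div_const _
    · intro x hx
      rw [interior_Icc] at hx
      exact (h.COA_deriv hx.1).differentiableAt.differentiableWithinAt
    · intro x hx
      rw [interior_Icc] at hx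
      rw [(h.COA_deriv hx.1).deriv]
      have hx0 : 0 < x := hR.trans hx.1
      have h1 : 0 ≤ efs q a x / x ^ 2 := div_nonneg (efs_pos h.q_pos h.q_le).le (sq_nonneg x)
      refine mul_nonneg h1 ?_
      rw [h.sc.Q_out x hx.1.le]
      have h2 := auq_match h.q_pos h.q_le h.a_pos
      have h3 := qbf_mono (tq_pos h.q_pos h.a_pos) hx0.le hx.2.le
      have h4 := h.sc.f_mono hx.2.le
      rw [h.f_b] at h4
      have h5 := (PRB_au h.q_pos h.q_le h.a_pos).le
      have h6 := qbf_nonneg (t := tq q a) hx0.le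
      have h7 := h.sc.f_nonneg x
      have h8 : auq q a * qbf (tq q a) x * f x
          ≤ auq q a * qbf (tq q a) (bq q a) * (1 - q ^ 80) := by
        refine mul_le_mul (mul_le_mul_of_nonneg_left h3 h5) h4 h7 ?_
        exact mul_nonneg h5 (h6.trans h3)
      linarith
  have h1 := hm ⟨hr, hrb⟩ ⟨hr.trans hrb, le_rfl⟩ hrb
  simp only at h1
  rw [← h.fs_of_le hrb, ← h.fs_of_le le_rfl, h.fs_of_ge le_rfl] at h1
  exact h1

theorem Reg.COA_near (h : Reg W R₀ R a f Q θ q) {r : ℝ} (h0 : 0 ≤ r) (hr : r ≤ R) :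
    fs q a f r ≤ 1 := by
  have hR := h.sc.R_pos
  have hq := h.q_pos
  have hq1 := h.q_le
  have ha := h.a_pos
  have hb : r ≤ bq q a := by have := h.R_le_b; linarith
  rw [h.fs_of_le hb]
  have h1 : f r ≤ 1 - q := by
    have h2 := h.sc.f_mono hr
    rw [h.sc.f_out R le_rfl] at h2
    have h3 : q ≤ a / R := by
      rw [le_div_iff₀ hR]
      calc q * R ≤ q * (θ * a) := mul_le_mul_of_nonneg_left h.Rle hq.le
        _ = (θ * q) * a := by ring
        _ ≤ 1 * a := mul_le_mul_of_nonneg_right h.hθq ha.le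
        _ = a := one_mul a
    linarith
  obtain ⟨ht, ht1⟩ := PRB_t hq hq1 (k := 80) (by norm_num)
  obtain ⟨hu, hu1⟩ := PRB_t hq hq1 (k := 79) (by norm_num)
  obtain ⟨hv, hv1⟩ := PRB_t hq hq1 (k := 78) (by norm_num)
  obtain ⟨h4, h5⟩ := au_sb_le hq hq1 ha h0 hb
  have h6 : Real.exp (auq q a * (sbf (tq q a) r - sbf (tq q a) (bq q a))) ≤ 1 / (1 - 2 * q ^ 79) := by
    refine (Real.exp_le_exp.2 h5).trans ?_
    have h7 := Real.add_one_le_exp (-(2 * q ^ 79))
    rw [Real.exp_neg] at h7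
    have h8 := Real.exp_pos (2 * q ^ 79)
    rw [le_div_iff₀ (by linarith)]
    calc Real.exp (2 * q ^ 79) * (1 - 2 * q ^ 79)
        ≤ Real.exp (2 * q ^ 79) * (Real.exp (2 * q ^ 79))⁻¹ :=
          mul_le_mul_of_nonneg_left (by linarith) h8.le
      _ = 1 := mul_inv_cancel₀ h8.ne'
  have h9 : efs q a r ≤ 1 / (1 - 2 * q ^ 79) / (1 - q ^ 80) := by
    unfold efs
    exact div_le_div_of_nonneg_right h6 (by linarith)
  have h10 : (1 - q) ≤ (1 - 2 * q ^ 79) * (1 - q ^ 80) := by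
    have e1 : q ^ 79 = q ^ 78 * q := by ring
    have e2 : q ^ 80 = q ^ 79 * q := by ring
    have h11 : q ^ 79 ≤ 1 / 100 * q := by rw [e1]; exact mul_le_mul_of_nonneg_right hv1 hq.le
    have h12 : q ^ 80 ≤ 1 / 100 * q := by rw [e2]; exact mul_le_mul_of_nonneg_right hu1 hq.le
    nlinarith [mul_pos hu ht]
  calc f r * efs q a r ≤ (1 - q) * (1 / (1 - 2 * q ^ 79) / (1 - q ^ 80)) :=
        mul_le_mul h1 h9 (efs_pos hq hq1).le (by linarith)
    _ = (1 - q) / ((1 - 2 * q ^ 79) * (1 - q ^ 80)) := by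
        rw [div_div, mul_one_div]
    _ ≤ 1 := by
        rw [div_le_one (mul_pos (by linarith) (by linarith))]
        exact h10

theorem Reg.fs_le_one (h : Reg W R₀ R a f Q θ q) {r : ℝ} (hr : 0 ≤ r) : fs q a f r ≤ 1 := by
  rcases le_total (bq q a) r with h1 | h1
  · rw [h.fs_of_ge h1]
  · rcases le_total R r with h2 | h2
    · exact h.COA_far h2 h1
    · exact h.COA_near hr h2

theorem Reg.f_le_fs (h : Reg W R₀ R a f Q θ q) {r : ℝ} (hr : 0 ≤ r) : f r ≤ fs q a f r := by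
  rcases le_total (bq q a) r with h1 | h1
  · rw [h.fs_of_ge h1]
    exact h.sc.f_le_one r
  · rw [h.fs_of_le h1]
    have h2 := (efs_bounds h.q_pos h.q_le h.a_pos hr h1).1
    calc f r = f r * 1 := (mul_one _).symm
      _ ≤ f r * efs q a r := mul_le_mul_of_nonneg_left h2 (h.sc.f_nonneg r)

theorem Reg.one_sub_fs_sq_le (h : Reg W R₀ R a f Q θ q) {r : ℝ} (hr : 0 < r) :
    1 - fs q a f r ^ 2 ≤ 2 * a / r := by
  have h1 := h.f_le_fs hr.le
  have h2 := h.sc.f_nonneg r
  have h3 := h.sc.f_ge r hr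
  have h4 := h.sc.f_le_one r
  have h5 : f r ^ 2 ≤ fs q a f r ^ 2 := pow_le_pow_left₀ h2 h1 2
  have h6 : 1 - f r ^ 2 ≤ 2 * (1 - f r) := by nlinarith
  have e : 2 * a / r = 2 * (a / r) := by ring
  rw [e]
  linarith

theorem Reg.COA_one_sub (h : Reg W R₀ R a f Q θ q) {r : ℝ} (hr : 0 < r) :
    0 ≤ 1 - fs q a f r ^ 2 := by
  have := pow_le_one₀ (n := 2) (h.fs_nonneg r) (h.fs_le_one hr.le)
  linarith

/-- `I_c = ∫ (1 - F_c) ≤ 4 π a b²` -/
theorem Reg.Ic_le (h : Reg W R₀ R a f Q θ q) :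
    ∫ x, (1 - fs q a f (rr x) ^ 2) ∂lam3 ≤ 4 * Real.pi * a * bq q a ^ 2 := by
  have hb0 := bq_pos h.q_pos h.a_pos
  have hb2 := h.b_lt
  have h5 := rad_le (b := bq q a) (s := 0) (φ := fun r => 1 - fs q a f r ^ 2)
    (B := fun r => (2 * a) * r) le_rfl hb0.le (by linarith)
    (fun r hr => by rw [h.fs_of_ge hr]; simp)
    (fun r hr0 hr => absurd hr (not_lt.2 hr0.le))
    (fun r hr => h.COA_one_sub hr)
    (fun r hr hrb => by
      have h6 := mul_le_mul_of_nonneg_left (h.one_sub_fs_sq_le hr) (sq_nonneg r)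
      refine h6.trans (le_of_eq ?_)
      field_simp)
    (Continuous.intervalIntegrable (by fun_prop) _ _)
  refine h5.trans (le_of_eq ?_)
  rw [intervalIntegral.integral_const_mul, integral_id, sig_eq_four_pi]
  ring

/-- `∫ (1 - F_c) |x| ≤ 4 π a b³` -/
theorem Reg.Ic_rr_le (h : Reg W R₀ R a f Q θ q) :
    ∫ x, (1 - fs q a f (rr x) ^ 2) * rr x ∂lam3 ≤ 4 * Real.pi * a * bq q a ^ 3 := by
  have hb0 := bq_pos h.q_pos h.a_pos
  have hb2 := h.b_lt
  have ha := h.a_pos
  have h5 := rad_le (b := bq q a) (s := 0) (φ := fun r => (1 - fs q a f r ^ 2) * r)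
    (B := fun r => (2 * a) * r ^ 2) le_rfl hb0.le (by linarith)
    (fun r hr => by rw [h.fs_of_ge hr]; simp)
    (fun r hr0 hr => absurd hr (not_lt.2 hr0.le))
    (fun r hr => mul_nonneg (h.COA_one_sub hr) hr.le)
    (fun r hr hrb => by
      have h6 := mul_le_mul_of_nonneg_left (h.one_sub_fs_sq_le hr) (sq_nonneg r)
      have h7 := mul_le_mul_of_nonneg_right h6 hr.le
      refine (le_of_eq (by ring)).trans (h7.trans (le_of_eq ?_))
      field_simp)
    (Continuous.intervalIntegrable (by fun_prop) _ _)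
  refine h5.trans ?_
  rw [intervalIntegral.integral_const_mul, integral_pow, sig_eq_four_pi]
  have h8 : 0 ≤ Real.pi * a * bq q a ^ 3 := by
    have := Real.pi_pos
    positivity
  norm_num
  nlinarith

theorem Reg.fs_core (h : Reg W R₀ R a f Q θ q) {r : ℝ} (hR : 0 < R₀) (hr : r < R₀) :
    fs q a f r = 0 := by
  unfold fs
  rw [h.sc.f_core _ hR ((min_le_left _ _).trans hr.le), zero_mul]

end

end Pool.Agent.Lib.MP_4952d6_mp

end

/-! ### U.U7C -/

section

/-!
# U7C: the main radial integral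

`int_wt`: `∫ over the torus = sig ∫ r² (..) dr`, `sig = 4π`, `Scat.energy` at `d = b`: `∫_{R₀}^b (Q²/r² + r² W f²) dr = a (1 - a/b) = a (1 - q^80)`,
the integrand vanishes for `r < R₀` (`Q = 0`; `f = 0` if `R₀ > 0`) and by definition for `r ≥ b`.
`rad_bm`: bounded measurable (`Q ≤ C r³`, `W` bounded).
`efs_sb`: `exp(-2 a_u s_b(r)) efs(r)² = exp(-2 a_u s_b(b))/(1-q^80)²`.
`exp(-2y)/(1-tt)² · 4π a (1 - tt) = 4π a exp(-2y)/(1 - tt)`: then `ct_le`.
-/

set_option autoImplicit false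
set_option linter.unusedSectionVars false
set_option linter.unusedVariables false
open MeasureTheory Function Filter Topology Set
open scoped ENNReal

namespace Pool.Agent.Lib.MP_4952d6_mp

/-- `Q²/r⁴ + W f²` for `r < b`, else `0` -/
noncomputable def wrad (q a : ℝ) (f Q W : ℝ → ℝ) (r : ℝ) : ℝ :=
  if r < bq q a then Q r ^ 2 / r ^ 4 + W r * f r ^ 2 else 0

section
variable {W f Q : ℝ → ℝ} {R₀ R a θ q : ℝ}

theorem Reg.wrad_bm (h : Reg W R₀ R a f Q θ q) : BM (fun x : T3 => wrad q a f Q W (rr x)) := by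
  obtain ⟨M, hM0, hM⟩ := h.sc.exists_M
  obtain ⟨C, hC0, hC⟩ := h.sc.exists_C
  have hm : Measurable (wrad q a f Q W) := by
    unfold wrad
    refine Measurable.ite measurableSet_Iio ?_ measurable_const
    exact ((h.sc.Q_meas.pow_const 2).div (measurable_id.pow_const 4)).add
      (h.sc.W_meas.mul (h.sc.f_cont.measurable.pow_const 2))
  have hb0 : 0 < bq q a := bq_pos h.q_pos h.a_pos
  refine ⟨hm.comp rr_measurable, C ^ 2 * bq q a ^ 2 + M, fun x => ?_⟩
  have e0 : 0 ≤ C ^ 2 * bq q a ^ 2 + M := by positivity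
  change |wrad q a f Q W (rr x)| ≤ C ^ 2 * bq q a ^ 2 + M
  have hr0 := rr_nonneg x
  generalize rr x = r at hr0 ⊢
  unfold wrad
  split_ifs with hr
  · have hW := h.sc.W_nonneg r
    have e1 : 0 ≤ Q r ^ 2 / r ^ 4 + W r * f r ^ 2 := by positivity
    rw [abs_of_nonneg e1]
    refine add_le_add ?_ ?_
    · rcases hr0.eq_or_lt with h0 | h0
      · rw [← h0]
        norm_num
        positivity
      · rw [div_le_iff₀ (by positivity)]
        have hQ0 := h.sc.Q_nonneg r
        have h2 : Q r ^ 2 ≤ (C * r ^ 3) ^ 2 := pow_le_pow_left₀ hQ0 (hC r h0) 2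
        have h3 : r ^ 2 ≤ bq q a ^ 2 := pow_le_pow_left₀ h0.le hr.le 2
        calc Q r ^ 2 ≤ (C * r ^ 3) ^ 2 := h2
          _ = C ^ 2 * r ^ 2 * r ^ 4 := by ring
          _ ≤ C ^ 2 * bq q a ^ 2 * r ^ 4 := by gcongr
    · have h2 : f r ^ 2 ≤ 1 := pow_le_one₀ (h.sc.f_nonneg r) (h.sc.f_le_one r)
      calc W r * f r ^ 2 ≤ W r * 1 := by gcongr
        _ ≤ M := by rw [mul_one]; exact hM r
  · rw [abs_zero]
    exact e0

theorem Reg.wrad_nonneg (h : Reg W R₀ R a f Q θ q) (r : ℝ) : 0 ≤ wrad q a f Q W r := by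
  unfold wrad
  split_ifs
  · have hW := h.sc.W_nonneg r
    positivity
  · exact le_rfl

theorem Reg.int_wrad (h : Reg W R₀ R a f Q θ q) :
    ∫ x, wrad q a f Q W (rr x) ∂lam3 = 4 * Real.pi * a * (1 - q ^ 80) := by
  have hb := h.b_lt
  have hRb : R ≤ bq q a := by
    have h1 := h.R_le_b
    have h2 := h.sc.R_pos
    linarith
  have hR0b : R₀ ≤ bq q a := h.sc.R₀_le.trans hRb
  have hR0 : 0 ≤ R₀ := h.sc.R₀_nonneg
  have hge : ∀ r, bq q a ≤ r → wrad q a f Q W r = 0 := by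
    intro r hr
    unfold wrad
    rw [if_neg (not_lt.mpr hr)]
  have hlt : ∀ r, 0 < r → r < R₀ → wrad q a f Q W r = 0 := by
    intro r hr0 hr
    unfold wrad
    split_ifs
    · rw [h.sc.Q_zero r hr, h.sc.f_core r (hr0.trans hr) hr.le]
      simp
    · rfl
  rw [integral_rad (fun r hr => hge r (by linarith)), sig_eq_four_pi]
  have h1 : ∫ r in Ioi (0:ℝ), r ^ 2 * wrad q a f Q W r
      = ∫ r in Ioc R₀ (bq q a), r ^ 2 * wrad q a f Q W r := by
    have hsub : Ioc R₀ (bq q a) ⊆ Ioi (0:ℝ) := fun r hr => hR0.trans_lt hr.1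
    have hne : ∀ᵐ r : ℝ, r ≠ R₀ := by rw [ae_iff]; simp
    rw [← setIntegral_eq_of_subset_of_ae_sdiff_eq_zero (s := Ioc R₀ (bq q a)) (t := Ioi (0:ℝ))
      measurableSet_Ioi.nullMeasurableSet hsub]
    filter_upwards [hne] with r hr hmem
    obtain ⟨h1, h2⟩ := hmem
    rcases lt_or_ge R₀ r with h3 | h3
    · have : bq q a < r := by
        by_contra hcon
        exact h2 ⟨h3, not_lt.1 hcon⟩
      rw [hge r this.le, mul_zero]
    · rw [hlt r h1 (lt_of_le_of_ne h3 hr), mul_zero]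
  have h2 : ∫ r in Ioc R₀ (bq q a), r ^ 2 * wrad q a f Q W r
      = ∫ r in R₀..(bq q a), (Q r ^ 2 / r ^ 2 + r ^ 2 * W r * f r ^ 2) := by
    rw [intervalIntegral.integral_of_le hR0b]
    refine setIntegral_congr_ae measurableSet_Ioc ?_
    have hne : ∀ᵐ r : ℝ, r ≠ bq q a := by rw [ae_iff]; simp
    filter_upwards [hne] with r hr hmem
    have hr0 : 0 < r := hR0.trans_lt hmem.1
    have hrb : r < bq q a := lt_of_le_of_ne hmem.2 hr
    unfold wrad
    rw [if_pos hrb]
    field_simp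
  rw [h1, h2, h.sc.energy hRb]
  have h3 : a / bq q a = q ^ 80 := by
    unfold bq
    have hq := h.q_pos.ne'
    have ha := h.a_pos.ne'
    field_simp
  rw [h3]
  ring

theorem efs_sb {q a r : ℝ} (hq : 0 < q) (hq1 : q ≤ 1 / 100) :
    Real.exp (-(2 * (auq q a * sbf (tq q a) r))) * efs q a r ^ 2
      = Real.exp (-(2 * (auq q a * sbf (tq q a) (bq q a)))) / (1 - q ^ 80) ^ 2 := by
  unfold efs
  rw [div_pow, ← mul_div_assoc, ← Real.exp_nat_mul, ← Real.exp_add]
  congr 2
  push_cast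
  ring

end

theorem main_radial : ∃ C : ℝ, 0 ≤ C ∧ ∀ (W f Q : ℝ → ℝ) (R₀ R a θ q : ℝ),
    Reg W R₀ R a f Q θ q →
    Real.exp (-(2 * (auq q a * sbf (tq q a) (bq q a)))) / (1 - q ^ 80) ^ 2
      * ∫ x, wrad q a f Q W (rr x) ∂lam3
      ≤ 4 * Real.pi * a * (1 - q ^ 80 - q ^ 160 + C * q ^ 240) := by
  obtain ⟨C, hC0, hC⟩ := ct_le
  refine ⟨C, hC0, fun W f Q R₀ R a θ q h => ?_⟩
  have h1 := hC q a h.q_pos h.q_le h.a_pos
  have hq : q ^ 80 < 1 := pow_lt_one₀ h.q_pos.le (lt_of_le_of_lt h.q_le (by norm_num)) (by norm_num)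
  have hne : 1 - q ^ 80 ≠ 0 := by
    have : 0 < 1 - q ^ 80 := by linarith
    exact this.ne'
  rw [h.int_wrad]
  have e1 : Real.exp (-(2 * (auq q a * sbf (tq q a) (bq q a)))) / (1 - q ^ 80) ^ 2
      * (4 * Real.pi * a * (1 - q ^ 80))
      = 4 * Real.pi * a * (Real.exp (-(2 * (auq q a * sbf (tq q a) (bq q a)))) / (1 - q ^ 80)) := by
    generalize Real.exp (-(2 * (auq q a * sbf (tq q a) (bq q a)))) = E
    generalize q ^ 80 = y at hne ⊢
    field_simp
  rw [e1]
  have ha := h.a_pos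
  exact mul_le_mul_of_nonneg_left h1 (by positivity)

end Pool.Agent.Lib.MP_4952d6_mp

end

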