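import Pool.Agent.Lib.MP_4952d6_mp.Pk.G19
import Pool.Agent.Lib.MP_4952d6_mp.Pk.G20
import Pool.Agent.Lib.MP_4952d6_mp.Pk.G21
import Pool.Agent.Lib.MP_4952d6_mp.Pk.G23
import Pool.Agent.Lib.MP_4952d6_mp.Pk.G24

/-! Merged modules (to save import time): U.COC, U.DOK, U.U7A, U.U7A2, U.MXD, U.DGD. -/

/-! ### U.COC -/

section

/-!
# COC: the integral of the curvature bound

`kcr = 4 gs² r² + 2 |ks| + 2 |f_s gs|` vanishes for `r > b` (note `gs = ks = 0` for `r ≥ b`). With `efs ≤ 2`, `f ≤ 1`, `a_u ≤ 2a`, for `0 < r < b`: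
 `gs² r² ≤ 8 (Q² + 4a² q_b²)/r⁴`, `|f_s gs| ≤ 4 (f Q + 2 a q_b)/r³`,
 `|ks| ≤ 4 [ (4a q_b/r)(Q + 2a q_b)/r³ + 3 (Q + 2a q_b)/r³ + Q²/r⁴ + W f² + 8π a γ_t + 4 a q_b Q/r⁴ ]`.
Multiply by `r³` (volume `4π r² dr` times `rr`) and integrate over `(0, b)`: `0 ≤ Q ≤ a`, `∫_{R₀}^b (Q²/r² + r² W f²) dr ≤ a` (`Scat.energy`),
so `∫ Q²/r ≤ a b`, `∫ W f² r³ ≤ a b` (even `R a`); `∫_0^b q_b²/r, ∫ q_b/r ≤ ∫ r² /(√t)³ = b³/(3 (√t)³) = 1/(3q³)`,
`∫ γ_t r³ ≤ b⁴ (4πt)^{-3/2} ≤ b/q³` (`b/√t = 1/q`), `∫_0^b (Q + 2 a q_b) ≤ 3 a b`. Everything is `≤ C a² q^{-83}` with numerical `C`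
(`a b = a² q^{-80}`, `a b/q³ = a² q^{-83}`, `a²/q³`), and `q^{-83} ≤ q^{-90} = q^110/q^200`.
-/

set_option autoImplicit false
set_option linter.unusedSectionVars false
set_option linter.unusedVariables false
open MeasureTheory Function Filter Topology Set
open scoped ENNReal

namespace Pool.Agent.Lib.MP_4952d6_mp

section
variable {W f Q : ℝ → ℝ} {R₀ R a θ q : ℝ}

theorem Reg.kcr_bm (h : Reg W R₀ R a f Q θ q) : BM (fun x : T3 => kcr q a f Q W (rr x)) := by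
  have h1 : BM (fun x : T3 => fs q a f (rr x)) :=
    JData.rr_bm h.fs_prof.continuous.measurable h.fs_prof.bdd
  have h2 : BM (fun x : T3 => gs q a f Q (rr x)) := JData.rr_bm h.gs_meas h.gs_bdd
  have h3 : BM (fun x : T3 => ks q a f Q W (rr x)) :=
    JData.rr_bm h.fsgs_fprof.meas' h.fsgs_fprof.bdd'
  exact ((((h2.pow 2).const_mul 4).mul (JData.rr_bm'.pow 2)).add (h3.abs.const_mul 2)).add
    ((h1.mul h2).abs.const_mul 2)

theorem Reg.kcr_nonneg (h : Reg W R₀ R a f Q θ q) (r : ℝ) : 0 ≤ kcr q a f Q W r := by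
  unfold kcr
  positivity

end

/-- the pointwise algebra -/
theorem COC_alg {e F QQ u qb G w r a s : ℝ} (he1 : 1 ≤ e) (he2 : e ≤ 2) (hF0 : 0 ≤ F) (hF1 : F ≤ 1)
    (hQ0 : 0 ≤ QQ) (hQ1 : QQ ≤ a) (hu0 : 0 ≤ u) (hu1 : u ≤ 2 * a) (hq0 : 0 ≤ qb) (hq1 : qb ≤ 1)
    (hq2 : qb ≤ r ^ 3 / s ^ 3) (hG0 : 0 ≤ G) (hG1 : 4 * Real.pi * G ≤ 1 / s ^ 3) (hw : 0 ≤ w)
    (hr : 0 < r) (hs : 0 < s) (ha : 0 < a) :
    r ^ 3 * (4 * (e * (QQ - u * qb * F) / r ^ 3) ^ 2 * r ^ 2
      + 2 * |e ^ 2 *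
        (-(2 * u * qb / r) * (F * QQ - u * qb * F ^ 2) / r ^ 3
          - 3 * (F * QQ - u * qb * F ^ 2) / r ^ 3
          + (QQ ^ 2 / r ^ 2 + r ^ 2 * w * F ^ 2
            - 4 * Real.pi * u * r ^ 2 * G * F ^ 2
            - 2 * u * qb * F * QQ / r ^ 2) / r ^ 2)|
      + 2 * |F * e * (e * (QQ - u * qb * F) / r ^ 3)|)
    ≤ 24 * r * (QQ ^ 2 / r ^ 2 + r ^ 2 * w * F ^ 2) + 160 * a ^ 2 / s ^ 3 * r ^ 2 + 64 * a
      + 16 * a / s ^ 3 * r ^ 3 := by
  have hpi := Real.pi_pos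
  have he0 : 0 < e := by linarith only [he1]
  have hee : e ^ 2 ≤ 4 := by nlinarith only [he1, he2]
  have hs3 : 0 < s ^ 3 := by positivity
  have huqb0 : 0 ≤ u * qb := mul_nonneg hu0 hq0
  have huqb1 : u * qb ≤ 2 * a := (mul_le_of_le_one_right hu0 hq1).trans hu1
  have huqbF0 : 0 ≤ u * qb * F := mul_nonneg huqb0 hF0
  have huqbF1 : u * qb * F ≤ u * qb := mul_le_of_le_one_right huqb0 hF1
  have hD : |QQ - u * qb * F| ≤ 2 * a := by
    rw [abs_le]
    constructor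
    · linarith only [hQ0, huqbF1, huqb1]
    · linarith only [hQ1, huqbF0, ha]
  have hD2 : (QQ - u * qb * F) ^ 2 ≤ QQ ^ 2 + 4 * a ^ 2 * qb := by
    have h1 : (u * qb * F) ^ 2 ≤ 4 * a ^ 2 * qb := by
      have h2 : (u * qb * F) ^ 2 ≤ (u * qb) ^ 2 := pow_le_pow_left₀ huqbF0 huqbF1 2
      have h3 : (u * qb) ^ 2 ≤ (2 * a) ^ 2 * qb := by
        rw [mul_pow]
        have h4 : u ^ 2 ≤ (2 * a) ^ 2 := pow_le_pow_left₀ hu0 hu1 2
        have h5 : qb ^ 2 ≤ qb := by rw [sq]; exact mul_le_of_le_one_left hq0 hq1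
        exact mul_le_mul h4 h5 (sq_nonneg _) (sq_nonneg _)
      linarith only [h2, h3]
    nlinarith only [mul_nonneg hQ0 huqbF0, h1]
  have hp : qb / r ≤ r ^ 2 / s ^ 3 := by
    rw [div_le_iff₀ hr]
    refine hq2.trans (le_of_eq ?_)
    field_simp
  have hp0 : 0 ≤ qb / r := div_nonneg hq0 hr.le
  have hX : |F * QQ - u * qb * F ^ 2| ≤ 2 * a := by
    have e1 : F * QQ - u * qb * F ^ 2 = F * (QQ - u * qb * F) := by ring
    rw [e1, abs_mul, abs_of_nonneg hF0]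
    calc F * |QQ - u * qb * F| ≤ 1 * (2 * a) := mul_le_mul hF1 hD (abs_nonneg _) zero_le_one
      _ = 2 * a := one_mul _
  set D := QQ - u * qb * F with hDdef
  set X := F * QQ - u * qb * F ^ 2 with hXdef
  set E := QQ ^ 2 / r ^ 2 + r ^ 2 * w * F ^ 2 with hE
  have hE0 : 0 ≤ E := by positivity
  -- first term
  have t1 : r ^ 3 * (4 * (e * D / r ^ 3) ^ 2 * r ^ 2)
      ≤ 16 * r * E + 64 * a ^ 2 / s ^ 3 * r ^ 2 := by
    have e1 : r ^ 3 * (4 * (e * D / r ^ 3) ^ 2 * r ^ 2) = 4 * e ^ 2 * (D ^ 2 / r) := by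
      field_simp
    rw [e1]
    have h1 : D ^ 2 / r ≤ r * E + 4 * a ^ 2 * (r ^ 2 / s ^ 3) := by
      have h2 : D ^ 2 / r ≤ (QQ ^ 2 + 4 * a ^ 2 * qb) / r := div_le_div_of_nonneg_right hD2 hr.le
      have h3 : (QQ ^ 2 + 4 * a ^ 2 * qb) / r = r * (QQ ^ 2 / r ^ 2) + 4 * a ^ 2 * (qb / r) := by
        field_simp
      have h4 : r * (QQ ^ 2 / r ^ 2) ≤ r * E := by
        refine mul_le_mul_of_nonneg_left ?_ hr.le
        rw [hE]
        have : 0 ≤ r ^ 2 * w * F ^ 2 := by positivity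
        linarith only [this]
      have h5 : 4 * a ^ 2 * (qb / r) ≤ 4 * a ^ 2 * (r ^ 2 / s ^ 3) :=
        mul_le_mul_of_nonneg_left hp (by positivity)
      rw [h3] at h2
      linarith only [h2, h4, h5]
    have h6 : 0 ≤ D ^ 2 / r := by positivity
    calc 4 * e ^ 2 * (D ^ 2 / r) ≤ 4 * 4 * (r * E + 4 * a ^ 2 * (r ^ 2 / s ^ 3)) := by
          refine mul_le_mul (by linarith only [hee]) h1 h6 (by norm_num)
      _ = _ := by ring
  -- third term
  have t3 : r ^ 3 * (2 * |F * e * (e * D / r ^ 3)|) ≤ 16 * a := by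
    have e1 : F * e * (e * D / r ^ 3) = F * e ^ 2 * D / r ^ 3 := by ring
    rw [e1, abs_div, abs_of_pos (by positivity : 0 < r ^ 3), abs_mul, abs_mul, abs_of_nonneg hF0,
      abs_of_pos (by positivity : 0 < e ^ 2)]
    have e2 : r ^ 3 * (2 * (F * e ^ 2 * |D| / r ^ 3)) = 2 * (F * e ^ 2 * |D|) := by
      field_simp
    rw [e2]
    have h1 : F * e ^ 2 * |D| ≤ 1 * 4 * (2 * a) :=
      mul_le_mul (mul_le_mul hF1 hee (by positivity) (by norm_num)) hD (abs_nonneg _) (by norm_num)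
    linarith only [h1]
  -- second term
  have t2 : r ^ 3 * (2 * |e ^ 2 * (-(2 * u * qb / r) * X / r ^ 3 - 3 * X / r ^ 3
      + (E - 4 * Real.pi * u * r ^ 2 * G * F ^ 2 - 2 * u * qb * F * QQ / r ^ 2) / r ^ 2)|)
      ≤ 8 * (8 * a ^ 2 * (r ^ 2 / s ^ 3) + 6 * a + r * E + 2 * a * (r ^ 3 / s ^ 3)
        + 4 * a ^ 2 * (r ^ 2 / s ^ 3)) := by
    have hr3 : 0 < r ^ 3 := by positivity
    have e1 : r ^ 3 * (2 * |e ^ 2 * (-(2 * u * qb / r) * X / r ^ 3 - 3 * X / r ^ 3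
      + (E - 4 * Real.pi * u * r ^ 2 * G * F ^ 2 - 2 * u * qb * F * QQ / r ^ 2) / r ^ 2)|)
      = 2 * (e ^ 2 * |(-(2 * u * (qb / r)) * X - 3 * X
        + (r * E - 4 * Real.pi * u * r ^ 3 * G * F ^ 2 - 2 * u * (qb / r) * F * QQ))|) := by
      rw [abs_mul, abs_of_pos (by positivity : 0 < e ^ 2)]
      have e2 : (-(2 * u * (qb / r)) * X - 3 * X
        + (r * E - 4 * Real.pi * u * r ^ 3 * G * F ^ 2 - 2 * u * (qb / r) * F * QQ))
        = r ^ 3 * (-(2 * u * qb / r) * X / r ^ 3 - 3 * X / r ^ 3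
      + (E - 4 * Real.pi * u * r ^ 2 * G * F ^ 2 - 2 * u * qb * F * QQ / r ^ 2) / r ^ 2) := by
        field_simp
      rw [e2, abs_mul, abs_of_pos hr3]
      ring
    rw [e1]
    have h1 : |(-(2 * u * (qb / r)) * X - 3 * X
        + (r * E - 4 * Real.pi * u * r ^ 3 * G * F ^ 2 - 2 * u * (qb / r) * F * QQ))|
        ≤ 8 * a ^ 2 * (r ^ 2 / s ^ 3) + 6 * a + r * E + 2 * a * (r ^ 3 / s ^ 3)
          + 4 * a ^ 2 * (r ^ 2 / s ^ 3) := by
      have a1 : |-(2 * u * (qb / r)) * X| ≤ 8 * a ^ 2 * (r ^ 2 / s ^ 3) := by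
        rw [abs_mul, abs_neg, abs_of_nonneg (by positivity : 0 ≤ 2 * u * (qb / r))]
        calc 2 * u * (qb / r) * |X| ≤ (2 * (2 * a) * (r ^ 2 / s ^ 3)) * (2 * a) := by
              refine mul_le_mul ?_ hX (abs_nonneg _) (by positivity)
              exact mul_le_mul (by linarith only [hu1]) hp hp0 (by positivity)
          _ = _ := by ring
      have a2 : |3 * X| ≤ 6 * a := by
        rw [abs_mul, abs_of_pos (by norm_num : (0:ℝ) < 3)]; linarith only [hX]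
      have a3 : |r * E| ≤ r * E := by rw [abs_of_nonneg (by positivity)]
      have a4 : |4 * Real.pi * u * r ^ 3 * G * F ^ 2| ≤ 2 * a * (r ^ 3 / s ^ 3) := by
        rw [abs_of_nonneg (by positivity)]
        have hF2 : F ^ 2 ≤ 1 := pow_le_one₀ hF0 hF1
        calc 4 * Real.pi * u * r ^ 3 * G * F ^ 2 = (u * r ^ 3) * (4 * Real.pi * G) * F ^ 2 := by ring
          _ ≤ (2 * a * r ^ 3) * (1 / s ^ 3) * 1 := by
              refine mul_le_mul (mul_le_mul ?_ hG1 (by positivity) (by positivity)) hF2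
                (by positivity) (by positivity)
              exact mul_le_mul_of_nonneg_right hu1 (by positivity)
          _ = _ := by ring
      have a5 : |2 * u * (qb / r) * F * QQ| ≤ 4 * a ^ 2 * (r ^ 2 / s ^ 3) := by
        rw [abs_of_nonneg (by positivity)]
        calc 2 * u * (qb / r) * F * QQ ≤ (2 * (2 * a)) * (r ^ 2 / s ^ 3) * 1 * a := by
              refine mul_le_mul (mul_le_mul (mul_le_mul (by linarith only [hu1]) hp hp0 (by positivity)) hF1 hF0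
                (by positivity)) hQ1 hQ0 (by positivity)
          _ = _ := by ring
      rw [abs_le] at a1 a2 a3 a4 a5
      rw [abs_le]
      constructor
      · linarith only [a1.1, a2.2, a3.1, a4.2, a5.2]
      · linarith only [a1.2, a2.1, a3.2, a4.1, a5.1]
    have h2 : e ^ 2 * |(-(2 * u * (qb / r)) * X - 3 * X
        + (r * E - 4 * Real.pi * u * r ^ 3 * G * F ^ 2 - 2 * u * (qb / r) * F * QQ))|
        ≤ 4 * (8 * a ^ 2 * (r ^ 2 / s ^ 3) + 6 * a + r * E + 2 * a * (r ^ 3 / s ^ 3)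
          + 4 * a ^ 2 * (r ^ 2 / s ^ 3)) :=
      mul_le_mul hee h1 (abs_nonneg _) (by norm_num)
    linarith only [h2]
  have e3 : 24 * r * E + 160 * a ^ 2 / s ^ 3 * r ^ 2 + 64 * a + 16 * a / s ^ 3 * r ^ 3
      = (16 * r * E + 64 * a ^ 2 / s ^ 3 * r ^ 2)
        + 8 * (8 * a ^ 2 * (r ^ 2 / s ^ 3) + 6 * a + r * E + 2 * a * (r ^ 3 / s ^ 3)
        + 4 * a ^ 2 * (r ^ 2 / s ^ 3)) + 16 * a := by ring
  rw [e3, mul_add, mul_add]
  linarith only [t1, t2, t3]

theorem COC_gam {s r : ℝ} (hs : 0 < s) : 4 * Real.pi * gam (s ^ 2) r ≤ 1 / s ^ 3 := by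
  have hpi := Real.pi_pos
  have hpi3 := Real.pi_gt_three
  have h1 : Real.sqrt (4 * Real.pi * s ^ 2) = 2 * Real.sqrt Real.pi * s := by
    rw [Real.sqrt_mul (by positivity), Real.sqrt_sq hs.le, Real.sqrt_mul (by norm_num)]
    congr 2
    rw [show (4:ℝ) = 2 ^ 2 by norm_num, Real.sqrt_sq (by norm_num)]
  have h2 : Real.exp (-(r ^ 2) / (4 * s ^ 2)) ≤ 1 := by
    rw [Real.exp_le_one_iff]
    exact div_nonpos_of_nonpos_of_nonneg (neg_nonpos.mpr (sq_nonneg r)) (by positivity)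
  unfold gam
  rw [h1]
  have hp1 : 1 ≤ Real.sqrt Real.pi := by
    rw [Real.one_le_sqrt]; linarith only [hpi3]
  have hpp : Real.sqrt Real.pi ^ 2 = Real.pi := Real.sq_sqrt hpi.le
  calc 4 * Real.pi * ((2 * Real.sqrt Real.pi * s)⁻¹ ^ 3 * Real.exp (-(r ^ 2) / (4 * s ^ 2)))
      ≤ 4 * Real.pi * ((2 * Real.sqrt Real.pi * s)⁻¹ ^ 3 * 1) := by
        refine mul_le_mul_of_nonneg_left (mul_le_mul_of_nonneg_left h2 (by positivity))
          (by positivity)
    _ = 4 * Real.sqrt Real.pi ^ 2 * ((2 * Real.sqrt Real.pi * s)⁻¹ ^ 3 * 1) := by rw [hpp]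
    _ = 1 / s ^ 3 * (1 / (2 * Real.sqrt Real.pi)) := by
        field_simp
        norm_num
    _ ≤ 1 / s ^ 3 * 1 := by
        refine mul_le_mul_of_nonneg_left ?_ (by positivity)
        rw [div_le_one (by positivity)]
        linarith only [hp1]
    _ = 1 / s ^ 3 := mul_one _

section
variable {W f Q : ℝ → ℝ} {R₀ R a θ q : ℝ}

theorem COC_pt (h : Reg W R₀ R a f Q θ q) {r : ℝ} (hr : 0 < r) (hrb : r < bq q a) :
    r ^ 3 * kcr q a f Q W r ≤ 24 * r * (Q r ^ 2 / r ^ 2 + r ^ 2 * W r * f r ^ 2)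
      + 160 * a ^ 2 / (a / q ^ 79) ^ 3 * r ^ 2 + 64 * a + 16 * a / (a / q ^ 79) ^ 3 * r ^ 3 := by
  have ha := h.a_pos
  have hq := h.q_pos
  have hq1 := h.q_le
  have hs : 0 < a / q ^ 79 := by positivity
  have ht : 0 < tq q a := tq_pos hq ha
  have he := efs_bounds hq hq1 ha hr.le hrb.le
  have hu0 : 0 ≤ auq q a := by
    have := one_le_alq hq hq1
    unfold auq; positivity
  have hu1 : auq q a ≤ 2 * a := by
    have := alq_le_two hq hq1
    unfold auq; nlinarith only [this, ha]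
  have hq2 : qbf (tq q a) r ≤ r ^ 3 / (a / q ^ 79) ^ 3 := by
    have := qbf_le_cube ht hr.le
    rwa [sqrt_tq hq ha] at this
  have hG : 4 * Real.pi * gam (tq q a) r ≤ 1 / (a / q ^ 79) ^ 3 := COC_gam hs
  have key := COC_alg (e := efs q a r) (F := f r) (QQ := Q r) (u := auq q a)
    (qb := qbf (tq q a) r) (G := gam (tq q a) r) (w := W r) (r := r) (a := a) (s := a / q ^ 79)
    he.1 he.2 (h.sc.f_nonneg r) (h.sc.f_le_one r) (h.sc.Q_nonneg r) (h.sc.Q_le r) hu0 hu1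
    (qbf_nonneg hr.le) (qbf_le_one ht hr.le) hq2 (gam_nonneg _ _) hG (h.sc.W_nonneg r) hr hs ha
  refine le_trans (le_of_eq ?_) key
  unfold kcr gs ks fs
  rw [if_pos hrb, if_pos hrb, min_eq_left hrb.le]

theorem COC_zero (h : Reg W R₀ R a f Q θ q) {r : ℝ} (hr : 0 < r) (hr0 : r < R₀) :
    kcr q a f Q W r = 0 := by
  have hf : f r = 0 := h.sc.f_core r (hr.trans hr0) hr0.le
  have hQ : Q r = 0 := h.sc.Q_zero r hr0
  have h1 : gs q a f Q r = 0 := by
    unfold gs; rw [hf, hQ]; simp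
  have h2 : ks q a f Q W r = 0 := by
    unfold ks; rw [hf, hQ]; simp
  unfold kcr
  rw [h1, h2]; simp

theorem COC_out {r : ℝ} (hr : bq q a ≤ r) : kcr q a f Q W r = 0 := by
  have h1 : gs q a f Q r = 0 := by
    unfold gs; rw [if_neg (not_lt.2 hr)]
  have h2 : ks q a f Q W r = 0 := by
    unfold ks; rw [if_neg (not_lt.2 hr)]
  unfold kcr
  rw [h1, h2]; simp

end

theorem kcr_int : ∃ C : ℝ, 0 ≤ C ∧ ∀ (W f Q : ℝ → ℝ) (R₀ R a θ q : ℝ), Reg W R₀ R a f Q θ q →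
    ∫ x, kcr q a f Q W (rr x) * rr x ∂lam3 ≤ C * a ^ 2 * q ^ 110 / q ^ 200 := by
  refine ⟨sig * 146, by have := sig_pos; positivity, ?_⟩
  intro W f Q R₀ R a θ q h
  have ha := h.a_pos
  have hq := h.q_pos
  have hq1 := h.q_le
  have hb0 : 0 < bq q a := bq_pos hq ha
  have hb4 := h.b_lt
  have hRb : R ≤ bq q a := by
    have h1 := h.R_le_b
    have h2 := h.sc.R_pos
    linarith only [h1, h2]
  have hR0b : R₀ ≤ bq q a := h.sc.R₀_le.trans hRb
  have hs : 0 < a / q ^ 79 := by positivity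
  have h5 := rad_le (b := bq q a) (s := R₀) (φ := fun r => kcr q a f Q W r * r)
    (B := fun r => 24 * bq q a * (Q r ^ 2 / r ^ 2 + r ^ 2 * W r * f r ^ 2)
      + (160 * a ^ 2 / (a / q ^ 79) ^ 3 * r ^ 2 + 64 * a + 16 * a / (a / q ^ 79) ^ 3 * r ^ 3))
    h.sc.R₀_nonneg hR0b (by linarith only [hb4])
    (fun r hr => by rw [COC_out hr, zero_mul])
    (fun r hr hr0 => by rw [COC_zero h hr hr0, zero_mul])
    (fun r hr => mul_nonneg (h.kcr_nonneg r) hr.le)
    (fun r hr hrb => by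
      have hr0 : 0 < r := h.sc.R₀_nonneg.trans_lt hr
      have h6 := COC_pt h hr0 hrb
      have hE : 0 ≤ Q r ^ 2 / r ^ 2 + r ^ 2 * W r * f r ^ 2 := by
        have := h.sc.W_nonneg r
        positivity
      have h7 : 24 * r * (Q r ^ 2 / r ^ 2 + r ^ 2 * W r * f r ^ 2)
          ≤ 24 * bq q a * (Q r ^ 2 / r ^ 2 + r ^ 2 * W r * f r ^ 2) :=
        mul_le_mul_of_nonneg_right (by linarith only [hrb]) hE
      have e1 : r ^ 2 * (kcr q a f Q W r * r) = r ^ 3 * kcr q a f Q W r := by ring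
      rw [e1]
      linarith only [h6, h7])
    (((h.sc.energy_int _).const_mul _).add (Continuous.intervalIntegrable (by fun_prop) _ _))
  refine h5.trans ?_
  rw [intervalIntegral.integral_add ((h.sc.energy_int _).const_mul _)
    (Continuous.intervalIntegrable (by fun_prop) _ _), intervalIntegral.integral_const_mul,
    h.sc.energy hRb]
  have hsig := sig_pos
  have hR0 := h.sc.R₀_nonneg
  -- elementary integral
  have h8 : ∫ r in R₀..bq q a, (160 * a ^ 2 / (a / q ^ 79) ^ 3 * r ^ 2 + 64 * a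
      + 16 * a / (a / q ^ 79) ^ 3 * r ^ 3)
      ≤ ∫ r in (0:ℝ)..bq q a, (160 * a ^ 2 / (a / q ^ 79) ^ 3 * r ^ 2 + 64 * a
      + 16 * a / (a / q ^ 79) ^ 3 * r ^ 3) := by
    rw [← intervalIntegral.integral_add_adjacent_intervals (a := 0) (b := R₀) (c := bq q a)
      (Continuous.intervalIntegrable (by fun_prop) _ _)
      (Continuous.intervalIntegrable (by fun_prop) _ _)]
    have : 0 ≤ ∫ r in (0:ℝ)..R₀, (160 * a ^ 2 / (a / q ^ 79) ^ 3 * r ^ 2 + 64 * a
      + 16 * a / (a / q ^ 79) ^ 3 * r ^ 3) := by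
      refine intervalIntegral.integral_nonneg hR0 fun t ht => ?_
      have := ht.1
      positivity
    linarith only [this]
  have h9 : ∫ r in (0:ℝ)..bq q a, (160 * a ^ 2 / (a / q ^ 79) ^ 3 * r ^ 2 + 64 * a
      + 16 * a / (a / q ^ 79) ^ 3 * r ^ 3)
      = 160 * a ^ 2 / (a / q ^ 79) ^ 3 * (bq q a ^ 3 / 3) + 64 * a * bq q a
        + 16 * a / (a / q ^ 79) ^ 3 * (bq q a ^ 4 / 4) := by
    rw [intervalIntegral.integral_add (Continuous.intervalIntegrable (by fun_prop) _ _)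
      (Continuous.intervalIntegrable (by fun_prop) _ _),
      intervalIntegral.integral_add (Continuous.intervalIntegrable (by fun_prop) _ _)
      (Continuous.intervalIntegrable (by fun_prop) _ _),
      intervalIntegral.integral_const_mul (16 * a / (a / q ^ 79) ^ 3),
      intervalIntegral.integral_const_mul (160 * a ^ 2 / (a / q ^ 79) ^ 3),
      integral_pow, integral_pow, intervalIntegral.integral_const, smul_eq_mul]
    push_cast
    ring
  have h10 : a * (1 - a / bq q a) ≤ a := by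
    have : 0 ≤ a / bq q a := by positivity
    nlinarith only [this, ha]
  have h11 : 24 * bq q a * (a * (1 - a / bq q a)) ≤ 24 * bq q a * a :=
    mul_le_mul_of_nonneg_left h10 (by positivity)
  have e5 : 24 * bq q a * a + (160 * a ^ 2 / (a / q ^ 79) ^ 3 * (bq q a ^ 3 / 3) + 64 * a * bq q a
        + 16 * a / (a / q ^ 79) ^ 3 * (bq q a ^ 4 / 4))
      = a ^ 2 * (88 * (q ^ 3 / q ^ 83) + 160 / 3 * (q ^ 80 / q ^ 83) + 4 * (1 / q ^ 83)) := by
    unfold bq
    field_simp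
    ring
  have hq01 : q ≤ 1 := by linarith only [hq1]
  have h12 : 88 * (q ^ 3 / q ^ 83) + 160 / 3 * (q ^ 80 / q ^ 83) + 4 * (1 / q ^ 83)
      ≤ 146 * (1 / q ^ 83) := by
    have c1 : q ^ 3 / q ^ 83 ≤ 1 / q ^ 83 :=
      div_le_div_of_nonneg_right (pow_le_one₀ hq.le hq01) (by positivity)
    have c2 : q ^ 80 / q ^ 83 ≤ 1 / q ^ 83 :=
      div_le_div_of_nonneg_right (pow_le_one₀ hq.le hq01) (by positivity)
    have c3 : 0 < 1 / q ^ 83 := by positivity
    linarith only [c1, c2, c3]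
  have h13 : 1 / q ^ 83 ≤ q ^ 110 / q ^ 200 := by
    rw [div_le_div_iff₀ (by positivity) (by positivity)]
    have e6 : q ^ 200 = q ^ 7 * (q ^ 110 * q ^ 83) := by ring
    rw [one_mul, e6]
    exact mul_le_of_le_one_left (by positivity) (pow_le_one₀ hq.le hq01)
  calc sig * (24 * bq q a * (a * (1 - a / bq q a)) + ∫ r in R₀..bq q a,
        (160 * a ^ 2 / (a / q ^ 79) ^ 3 * r ^ 2 + 64 * a + 16 * a / (a / q ^ 79) ^ 3 * r ^ 3))
      ≤ sig * (a ^ 2 * (146 * (q ^ 110 / q ^ 200))) := by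
        refine mul_le_mul_of_nonneg_left ?_ hsig.le
        have h14 : a ^ 2 * (88 * (q ^ 3 / q ^ 83) + 160 / 3 * (q ^ 80 / q ^ 83) + 4 * (1 / q ^ 83))
            ≤ a ^ 2 * (146 * (q ^ 110 / q ^ 200)) := by
          refine mul_le_mul_of_nonneg_left ?_ (sq_nonneg a)
          linarith only [h12, h13]
        rw [← e5] at h14
        rw [h9] at h8
        linarith only [h8, h11, h14]
    _ = _ := by ring

end Pool.Agent.Lib.MP_4952d6_mp

end

/-! ### U.DOK -/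

section

/-!
# DOK: qualitative properties of the data

Collect: `Fc x = f_s(rr x)²` (derivative `2 f_s gs crd`, from `Prof.rad_WD` and `WD.mul`), `dFc` by `FProf.fld_WD_all` (times 2),
evenness: `rr (-x) = rr x`, `crd (-x) α = - crd x α` unless `crd x α = 1/2`, in which case `rr x ≥ 1/2 > b` and `gs = 0`.
`Kc_dd`: `|ddFc| ≤ 2|ks| + 2|f_s gs|` as `|crd/rr| ≤ 1`. `Kc_d`: `(2 f_s gs crd)² ≤ 4 gs² rr² f_s²`. The rest: MXA, MXB.
-/

set_option autoImplicit false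
set_option linter.unusedSectionVars false
set_option linter.unusedVariables false
open MeasureTheory Function Filter Topology Set
open scoped ENNReal

namespace Pool.Agent.Lib.MP_4952d6_mp

theorem DOK_crd_neg {x : T3} {α : Fin 3} (h : crd x α < 1 / 2) : crd (-x) α = - crd x α := by
  have h1 := crd_mem x α
  refine crd_eq_of ⟨by linarith, by linarith [h1.1]⟩ ?_
  rw [AddCircle.coe_neg, coe_crd]
  rfl

theorem DOK_crd_lt {x : T3} (h : rr x < 1 / 2) (α : Fin 3) : crd x α < 1 / 2 :=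
  (le_abs_self _).trans_lt ((abs_crd_le_rr x α).trans_lt h)

theorem DOK_dir (x : T3) (α : Fin 3) : |crd x α / rr x| ≤ 1 := by
  rw [abs_div, abs_of_nonneg (rr_nonneg x)]
  exact div_le_one_of_le₀ (abs_crd_le_rr x α) (rr_nonneg x)

theorem DOK_double {α : Fin 3} {Φ Φ' : T3 → ℝ} (h : WD lam3 (tau α) Φ Φ') :
    WD lam3 (tau α) (fun x => 2 * Φ x) (fun x => 2 * Φ' x) := by
  have h1 := h.add h
  have e1 : (fun x => 2 * Φ x) = fun x => Φ x + Φ x := by
    funext x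
    ring
  have e2 : (fun x => 2 * Φ' x) = fun x => Φ' x + Φ' x := by
    funext x
    ring
  rw [e1, e2]
  exact h1

theorem DPot_ok {κ : ℝ} (hκ : 0 < κ) {W f Q : ℝ → ℝ} {R₀ R a θ q : ℝ}
    (h : Reg W R₀ R a f Q θ q) : (DPot κ q a f Q W).Ok := by
  have ha := h.a_pos
  have hom := omu_ok hκ h.q_pos h.q_le ha
  have hp := h.fs_prof
  have hF := h.fsgs_fprof
  have hks : BM (fun x : T3 => ks q a f Q W (rr x)) := JData.rr_bm hF.meas' hF.bdd'
  have hfg : BM (fun x : T3 => fs q a f (rr x) * gs q a f Q (rr x)) := JData.rr_bm hF.meas hF.bdd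
  have hfar : ∀ x : T3, bq q a ≤ rr x → fs q a f (rr x) * gs q a f Q (rr x) = 0 := fun x hx => hF.zero _ hx
  have hfar' : ∀ x : T3, bq q a ≤ rr x → ks q a f Q W (rr x) = 0 := fun x hx => hF.zero' _ hx
  refine
    { Fc_nonneg := fun x => sq_nonneg _
      Fc_le := fun x => pow_le_one₀ (h.fs_nonneg _) (h.fs_le_one (rr_nonneg x))
      Fc_even := fun x => ?_
      Fc_WD := fun α => ?_
      dFc_WD := fun α β => ?_
      dFc_odd := fun α x => ?_
      ddFc_even := fun α β x => ?_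
      ddFc_bm := fun α β => ?_
      Kc_bm := h.kcr_bm
      Kc_nonneg := fun x => h.kcr_nonneg _
      Kc_dd := fun α β x => ?_
      Kc_d := fun α x => ?_
      ul_nonneg := fun x => mix0_nonneg hom x
      ul_even := fun x => mix0_neg _ _ x
      ul_WD := fun α => mix0_WD hom α
      dul_WD := fun α β => mix1_WD hom α β
      dul_odd := fun α x => mix1_neg _ _ α x
      ddul_even := fun α β x => mix2_neg _ _ α β x
      ddul_bm := fun α β => mix2_bm hom α β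
      uh_nonneg := fun p => mixh_nonneg hom p
      uh_even := fun p => mixh_neg _ _ p
      uh_summable := mixh_summable hom
      ul_hasSum := fun x => mix0_hasSum hom x }
  · show fs q a f (rr (-x)) ^ 2 = fs q a f (rr x) ^ 2
    rw [rr_neg]
  · have h1 := (hp.rad_WD α).mul (hp.rad_WD α)
    have e1 : (DPot κ q a f Q W).Fc = fun x => fs q a f (rr x) * fs q a f (rr x) := by
      funext x
      show fs q a f (rr x) ^ 2 = _
      ring
    have e2 : (DPot κ q a f Q W).dFc α = fun x => gs q a f Q (rr x) * crd x α * fs q a f (rr x)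
        + fs q a f (rr x) * (gs q a f Q (rr x) * crd x α) := by
      funext x
      show 2 * (fs q a f (rr x) * gs q a f Q (rr x)) * crd x α = _
      ring
    rw [e1, e2]
    exact h1
  · have h1 := DOK_double (hF.fld_WD_all α β)
    have e1 : (DPot κ q a f Q W).dFc α = fun x => 2 * (fs q a f (rr x) * gs q a f Q (rr x) * crd x α) := by
      funext x
      show 2 * (fs q a f (rr x) * gs q a f Q (rr x)) * crd x α = _
      ring
    have e2 : (DPot κ q a f Q W).ddFc α β = fun x => 2 * (ks q a f Q W (rr x) * (crd x α / rr x) * (crd x β / rr x)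
        + if α = β then fs q a f (rr x) * gs q a f Q (rr x) else 0) := by
      funext x
      show 2 * ks q a f Q W (rr x) * (crd x α / rr x) * (crd x β / rr x)
        + (if α = β then 2 * (fs q a f (rr x) * gs q a f Q (rr x)) else 0) = _
      by_cases hab : α = β
      · rw [if_pos hab, if_pos hab]
        ring
      · rw [if_neg hab, if_neg hab]
        ring
    rw [e1, e2]
    exact h1
  · show 2 * (fs q a f (rr (-x)) * gs q a f Q (rr (-x))) * crd (-x) α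
      = -(2 * (fs q a f (rr x) * gs q a f Q (rr x)) * crd x α)
    rw [rr_neg]
    rcases lt_or_ge (rr x) (bq q a) with hx | hx
    · rw [DOK_crd_neg (DOK_crd_lt (hx.trans hp.b_lt) α)]
      ring
    · rw [hfar x hx]
      ring
  · show 2 * ks q a f Q W (rr (-x)) * (crd (-x) α / rr (-x)) * (crd (-x) β / rr (-x))
        + (if α = β then 2 * (fs q a f (rr (-x)) * gs q a f Q (rr (-x))) else 0)
      = 2 * ks q a f Q W (rr x) * (crd x α / rr x) * (crd x β / rr x)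
        + (if α = β then 2 * (fs q a f (rr x) * gs q a f Q (rr x)) else 0)
    rw [rr_neg]
    congr 1
    rcases lt_or_ge (rr x) (bq q a) with hx | hx
    · rw [DOK_crd_neg (DOK_crd_lt (hx.trans hp.b_lt) α), DOK_crd_neg (DOK_crd_lt (hx.trans hp.b_lt) β)]
      ring
    · rw [hfar' x hx]
      ring
  · have h1 : BM (fun x : T3 => 2 * ks q a f Q W (rr x) * (crd x α / rr x) * (crd x β / rr x)) :=
      ((hks.const_mul 2).mul (JData.dir_bm α)).mul (JData.dir_bm β)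
    have h2 : BM (fun x : T3 => if α = β then 2 * (fs q a f (rr x) * gs q a f Q (rr x)) else 0) := by
      by_cases hab : α = β
      · simp only [if_pos hab]
        exact hfg.const_mul 2
      · simp only [if_neg hab]
        exact BM.const 0
    exact h1.add h2
  · show |2 * ks q a f Q W (rr x) * (crd x α / rr x) * (crd x β / rr x)
        + (if α = β then 2 * (fs q a f (rr x) * gs q a f Q (rr x)) else 0)| ≤ kcr q a f Q W (rr x)
    unfold kcr
    have h1 : |2 * ks q a f Q W (rr x) * (crd x α / rr x) * (crd x β / rr x)| ≤ 2 * |ks q a f Q W (rr x)| := by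
      rw [abs_mul, abs_mul, abs_mul, abs_of_nonneg (by norm_num : (0:ℝ) ≤ 2)]
      have a1 := DOK_dir x α
      have a2 := DOK_dir x β
      have a3 : 0 ≤ 2 * |ks q a f Q W (rr x)| := by positivity
      calc 2 * |ks q a f Q W (rr x)| * |crd x α / rr x| * |crd x β / rr x|
          ≤ 2 * |ks q a f Q W (rr x)| * 1 * 1 := by
            apply mul_le_mul _ a2 (abs_nonneg _) (by linarith)
            exact mul_le_mul_of_nonneg_left a1 a3
        _ = 2 * |ks q a f Q W (rr x)| := by ring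
    have h2 : |(if α = β then 2 * (fs q a f (rr x) * gs q a f Q (rr x)) else 0)|
        ≤ 2 * |fs q a f (rr x) * gs q a f Q (rr x)| := by
      by_cases hab : α = β
      · rw [if_pos hab, abs_mul, abs_of_nonneg (by norm_num : (0:ℝ) ≤ 2)]
      · rw [if_neg hab, abs_zero]
        positivity
    have h3 : 0 ≤ 4 * gs q a f Q (rr x) ^ 2 * rr x ^ 2 := by positivity
    refine (abs_add_le _ _).trans ?_
    linarith
  · show (2 * (fs q a f (rr x) * gs q a f Q (rr x)) * crd x α) ^ 2 ≤ kcr q a f Q W (rr x) * fs q a f (rr x) ^ 2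
    have h1 : crd x α ^ 2 ≤ rr x ^ 2 := by
      rw [← sq_abs (crd x α)]
      exact pow_le_pow_left₀ (abs_nonneg _) (abs_crd_le_rr x α) 2
    have h2 : 4 * gs q a f Q (rr x) ^ 2 * rr x ^ 2 ≤ kcr q a f Q W (rr x) := by
      unfold kcr
      have a1 : 0 ≤ 2 * |ks q a f Q W (rr x)| := by positivity
      have a2 : 0 ≤ 2 * |fs q a f (rr x) * gs q a f Q (rr x)| := by positivity
      linarith
    calc (2 * (fs q a f (rr x) * gs q a f Q (rr x)) * crd x α) ^ 2
        = 4 * gs q a f Q (rr x) ^ 2 * crd x α ^ 2 * fs q a f (rr x) ^ 2 := by ring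
      _ ≤ 4 * gs q a f Q (rr x) ^ 2 * rr x ^ 2 * fs q a f (rr x) ^ 2 := by gcongr
      _ ≤ kcr q a f Q W (rr x) * fs q a f (rr x) ^ 2 := by gcongr

end Pool.Agent.Lib.MP_4952d6_mp

end

/-! ### U.U7A -/

section

/-!
# U7A: the trial pair function `f_tot = f_s exp(-u_l)`

`WDf`: product of `Prof.rad_WD` (`Reg.fs_prof`) and `exp(-u_l)`; chain rule for `WD`: if `Φ` is `WD` and `ψ` is `C¹` then `ψ ∘ Φ` is
`WD` with derivative `ψ'(Φ) Φ'` (bounded `Φ`, `ψ` Lipschitz on the bounded range; prove this as the first lemma).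
`WDh`: `f df_α = exp(-2u) (f_s gs crd_α - f_s² ∂_α u)`: product rule with `FProf.fld_WD` (`Reg.fsgs_fprof`) for `f_s gs crd_α`,
`Prof.rad_WD` for `f_s` and `mix1_WD` for `∂_α u`. The derivative is `hftot` (ring).
-/

set_option autoImplicit false
set_option linter.unusedSectionVars false
set_option linter.unusedVariables false
open MeasureTheory Function Filter Topology Set
open scoped ENNReal

namespace Pool.Agent.Lib.MP_4952d6_mp

section
variable {W f Q : ℝ → ℝ} {R₀ R a θ q κ : ℝ}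

/-- chain rule -/
theorem WD.comp_C1 {X : Type*} [MeasurableSpace X] [AddCommGroup X] {μ : Measure X} {τ : ℝ → X}
    {Φ Φ' : X → ℝ} (h : WD μ τ Φ Φ') {ψ ψ' : ℝ → ℝ} (hψ : ∀ y, HasDerivAt ψ (ψ' y) y)
    (hψ' : Continuous ψ') : WD μ τ (fun x => ψ (Φ x)) (fun x => ψ' (Φ x) * Φ' x) := by
  have hc : Continuous ψ := continuous_iff_continuousAt.2 fun y => (hψ y).continuousAt
  obtain ⟨B, hB0, hB⟩ := h.exists_bdd
  obtain ⟨L, hL0, hL⟩ := h.exists_lip
  have hmem : ∀ x, Φ x ∈ Icc (-B) B := fun x => by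
    have := hB x
    rw [Real.norm_eq_abs, abs_le] at this
    exact this
  obtain ⟨C, hC⟩ := (isCompact_Icc (a := -B) (b := B)).exists_bound_of_continuousOn hc.continuousOn
  obtain ⟨K, hK⟩ := (isCompact_Icc (a := -B) (b := B)).exists_bound_of_continuousOn
    hψ'.continuousOn
  have hK' : ∀ y ∈ Icc (-B) B, ‖ψ' y‖ ≤ max K 0 := fun y hy => (hK y hy).trans (le_max_left _ _)
  refine ⟨h.zero, hc.comp_stronglyMeasurable h.sm, ⟨C, fun x => hC _ (hmem x)⟩,
    ⟨max K 0 * L, fun x t => ?_⟩, ?_⟩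
  · have h1 : ‖ψ (Φ (x + τ t)) - ψ (Φ x)‖ ≤ max K 0 * ‖Φ (x + τ t) - Φ x‖ :=
      (convex_Icc (-B) B).norm_image_sub_le_of_norm_hasDerivWithin_le
        (fun y _ => (hψ y).hasDerivWithinAt) hK' (hmem x) (hmem _)
    refine h1.trans ?_
    rw [mul_assoc]
    exact mul_le_mul_of_nonneg_left (hL x t) (le_max_right _ _)
  · filter_upwards [h.deriv] with x hx
    have h1 : HasDerivAt ψ (ψ' (Φ x)) (Φ (x + τ 0)) := by
      rw [h.zero, add_zero]
      exact hψ _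
    exact h1.comp (0 : ℝ) hx

theorem U7A_ok (hκ : 0 < κ) (h : Reg W R₀ R a f Q θ q) :
    MixOk (omu κ q a) (tq q a) (4 * Real.pi * auq q a) (κ ^ 2 / lq q a ^ 2) :=
  omu_ok hκ h.q_pos h.q_le h.a_pos

/-- exponential of the long range part -/
theorem U7A_exp (hκ : 0 < κ) (h : Reg W R₀ R a f Q θ q) (α : Fin 3) (c : ℝ) :
    WD lam3 (tau α) (fun x => Real.exp (-(c * mix0 (omu κ q a) (tq q a) x)))
      (fun x => -(c * Real.exp (-(c * mix0 (omu κ q a) (tq q a) x)))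
        * mix1 (omu κ q a) (tq q a) α x) := by
  refine (mix0_WD (U7A_ok hκ h) α).comp_C1 (ψ := fun y => Real.exp (-(c * y)))
    (ψ' := fun y => -(c * Real.exp (-(c * y)))) (fun y => ?_) (by fun_prop)
  have h1 : HasDerivAt (fun y : ℝ => -(c * y)) (-(c * 1)) y := ((hasDerivAt_id y).const_mul c).neg
  have h2 := h1.exp
  have e : Real.exp (-(c * y)) * -(c * 1) = -(c * Real.exp (-(c * y))) := by ring
  rw [e] at h2
  exact h2

theorem U7A_exp_bm (hκ : 0 < κ) (h : Reg W R₀ R a f Q θ q) {c : ℝ} (hc : 0 ≤ c) :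
    BM (fun x : T3 => Real.exp (-(c * mix0 (omu κ q a) (tq q a) x))) := by
  refine BM.of_mem_Icc (a := 0) (b := 1) ?_ fun x => ⟨(Real.exp_pos _).le, ?_⟩
  · exact Real.measurable_exp.comp ((mix0_bm (U7A_ok hκ h)).meas.const_mul c).neg
  · rw [Real.exp_le_one_iff]
    have := mul_nonneg hc (mix0_nonneg (U7A_ok hκ h) x)
    linarith

theorem U7A_fs_bm (h : Reg W R₀ R a f Q θ q) : BM (fun x : T3 => fs q a f (rr x)) :=
  ⟨h.fs_prof.continuous.measurable.comp rr_measurable,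
    h.fs_prof.bdd.imp fun C hC x => hC _⟩

theorem U7A_gs_bm (h : Reg W R₀ R a f Q θ q) : BM (fun x : T3 => gs q a f Q (rr x)) :=
  ⟨h.gs_meas.comp rr_measurable, h.gs_bdd.imp fun C hC x => hC _⟩

theorem U7A_ks_bm (h : Reg W R₀ R a f Q θ q) : BM (fun x : T3 => ks q a f Q W (rr x)) :=
  ⟨h.fsgs_fprof.meas'.comp rr_measurable, h.fsgs_fprof.bdd'.imp fun C hC x => hC _⟩

theorem U7A_crd_bm (α : Fin 3) : BM (fun x : T3 => crd x α) :=
  BM.of_mem_Icc (crd_measurable α) fun x => ⟨(crd_mem x α).1.le, (crd_mem x α).2⟩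

theorem U7A_dir_bm (α : Fin 3) : BM (fun x : T3 => crd x α / rr x) := by
  refine BM.of_mem_Icc (a := -1) (b := 1) ((crd_measurable α).div rr_measurable) fun x => ?_
  have h1 : |crd x α / rr x| ≤ 1 := by
    rw [abs_div, abs_of_nonneg (rr_nonneg x)]
    exact div_le_one_of_le₀ (abs_crd_le_rr x α) (rr_nonneg x)
  exact abs_le.1 h1

theorem U7A_WDf (hκ : 0 < κ) (h : Reg W R₀ R a f Q θ q) (α : Fin 3) :
    WD lam3 (tau α) (ftot κ q a f) (dftot κ q a f Q α) := by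
  have h1 := (h.fs_prof.rad_WD α).mul (U7A_exp hκ h α 1)
  have e1 : (fun x => fs q a f (rr x) * Real.exp (-(1 * mix0 (omu κ q a) (tq q a) x)))
      = ftot κ q a f := by
    funext x
    simp only [ftot, one_mul]
  rw [e1] at h1
  refine h1.congr (Eventually.of_forall fun x => ?_)
  simp only [dftot, one_mul]
  ring

theorem U7A_WDh (hκ : 0 < κ) (h : Reg W R₀ R a f Q θ q) (α : Fin 3) :
    WD lam3 (tau α) (fun x => ftot κ q a f x * dftot κ q a f Q α x) (hftot κ q a f Q W α) := by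
  have hG := h.fsgs_fprof.fld_WD α
  have hF := (h.fs_prof.rad_WD α).mul (h.fs_prof.rad_WD α)
  have hM := hF.mul (mix1_WD (U7A_ok hκ h) α α)
  have hN : WD lam3 (tau α) (fun x => -(fs q a f (rr x) * fs q a f (rr x)
      * mix1 (omu κ q a) (tq q a) α x)) _ :=
    hM.comp_C1 (ψ := fun y => -y) (ψ' := fun _ => -1) (fun y =>
      hasDerivAt_neg y) continuous_const
  have hE := (hG.add hN).mul (U7A_exp hκ h α 2)
  have e1 : (fun x => (fs q a f (rr x) * gs q a f Q (rr x) * crd x α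
      + -(fs q a f (rr x) * fs q a f (rr x) * mix1 (omu κ q a) (tq q a) α x))
      * Real.exp (-(2 * mix0 (omu κ q a) (tq q a) x)))
      = fun x => ftot κ q a f x * dftot κ q a f Q α x := by
    funext x
    simp only [ftot, dftot]
    have e2 : Real.exp (-(2 * mix0 (omu κ q a) (tq q a) x))
        = Real.exp (-mix0 (omu κ q a) (tq q a) x) * Real.exp (-mix0 (omu κ q a) (tq q a) x) := by
      rw [← Real.exp_add]
      congr 1
      ring
    rw [e2]
    ring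
  rw [e1] at hE
  refine hE.congr (Eventually.of_forall fun x => ?_)
  simp only [hftot]
  ring

theorem Reg.tdata (hκ : 0 < κ) (h : Reg W R₀ R a f Q θ q) :
    TData (ftot κ q a f) (dftot κ q a f Q) (hftot κ q a f Q W) where
  nonneg x := mul_nonneg (h.fs_nonneg _) (Real.exp_pos _).le
  le_one x := by
    refine mul_le_one₀ (h.fs_le_one (rr_nonneg x)) (Real.exp_pos _).le ?_
    rw [Real.exp_le_one_iff]
    have := mix0_nonneg (U7A_ok hκ h) x
    linarith
  even x := by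
    simp only [ftot, rr_neg, mix0_neg]
  WDf := U7A_WDf hκ h
  WDh := U7A_WDh hκ h
  df_bm α := by
    have h1 := U7A_exp_bm hκ h (c := 1) zero_le_one
    simp only [one_mul] at h1
    exact h1.mul (((U7A_gs_bm h).mul (U7A_crd_bm α)).sub
      ((U7A_fs_bm h).mul (mix1_bm (U7A_ok hκ h) α)))
  hf_bm α := by
    have h1 := U7A_exp_bm hκ h (c := 2) zero_le_two
    have hk := U7A_ks_bm h
    have hfg := (U7A_fs_bm h).mul (U7A_gs_bm h)
    have hf2 := (U7A_fs_bm h).pow 2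
    have hm1 := mix1_bm (U7A_ok hκ h) α
    have hm2 := mix2_bm (U7A_ok hκ h) α α
    exact h1.mul ((((hk.mul ((U7A_dir_bm α).pow 2)).add hfg).sub
      (((hfg.const_mul 2).mul (U7A_crd_bm α)).mul hm1)).sub (hf2.mul hm2) |>.sub
      ((hm1.const_mul 2).mul ((hfg.mul (U7A_crd_bm α)).sub (hf2.mul hm1))))

theorem Reg.ftot_core (h : Reg W R₀ R a f Q θ q) (x : T3) (hx : rr x < R₀) :
    ftot κ q a f x = 0 := by
  simp only [ftot]
  rw [h.fs_core ((rr_nonneg x).trans_lt hx) hx, zero_mul]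

theorem ftot_sq (x : T3) : ftot κ q a f x ^ 2
    = fs q a f (rr x) ^ 2 * Real.exp (-(2 * mix0 (omu κ q a) (tq q a) x)) := by
  have e2 : Real.exp (-(2 * mix0 (omu κ q a) (tq q a) x))
      = Real.exp (-mix0 (omu κ q a) (tq q a) x) * Real.exp (-mix0 (omu κ q a) (tq q a) x) := by
    rw [← Real.exp_add]
    congr 1
    ring
  rw [e2]
  simp only [ftot]
  ring

/-- the weight `F` of the gas is `f_tot²` -/
theorem DPot_F : (DPot κ q a f Q W).F 0 1 = fun x => ftot κ q a f x ^ 2 := by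
  funext x
  rw [ftot_sq]
  simp only [Dat.F, Dat.Fr, DPot, sub_zero, zero_add, one_mul, mul_one]

end

end Pool.Agent.Lib.MP_4952d6_mp

end

/-! ### U.U7A2 -/

section

/-!
# U7A2: the total pair energy of `f_tot`

a.e. (where `0 < rr x`): `Σ crd² = rr²` (`rr_sq`), `Σ_α (crd α/rr)² = 1` (`sum_dir`):
`2 effT = exp(-2u) [2 gs² r² - (ks + 3 f_s gs) + f_s² Δu]` (the terms with `Σ crd · ∂u` and `Σ (∂u)²` cancel) and for `r < b`:
`2 gs² r² - (ks + 3 f_s gs) = efs² (Q²/r⁴ - W f² + 4π a_u γ f²)` (pure algebra with `F = f`, `Q`, `q_b`; `field_simp; ring`), for `r ≥ b`: `gs = ks = 0`, `W = 0`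
(`W_zero`, `R ≤ b`). Adding `2 W f_s²` gives `ws`.
-/

set_option autoImplicit false
set_option linter.unusedSectionVars false
set_option linter.unusedVariables false
open MeasureTheory Function Filter Topology Set
open scoped ENNReal

namespace Pool.Agent.Lib.MP_4952d6_mp

section
variable {W f Q : ℝ → ℝ} {R₀ R a θ q κ : ℝ}

theorem U7A2_core (h : Reg W R₀ R a f Q θ q) {r : ℝ} (hr : 0 < r) :
    2 * gs q a f Q r ^ 2 * r ^ 2 - (ks q a f Q W r + 3 * (fs q a f r * gs q a f Q r))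
      + 2 * W r * fs q a f r ^ 2 = ws q a f Q W r := by
  rcases lt_or_ge r (bq q a) with hb | hb
  · have hf : fs q a f r = f r * efs q a r := h.fs_of_le hb.le
    have hg : gs q a f Q r = efs q a r * (Q r - auq q a * qbf (tq q a) r * f r) / r ^ 3 := by
      unfold gs
      rw [if_pos hb]
    have hk : ks q a f Q W r = efs q a r ^ 2 *
        (-(2 * auq q a * qbf (tq q a) r / r) * (f r * Q r - auq q a * qbf (tq q a) r * f r ^ 2)
            / r ^ 3
          - 3 * (f r * Q r - auq q a * qbf (tq q a) r * f r ^ 2) / r ^ 3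
          + (Q r ^ 2 / r ^ 2 + r ^ 2 * W r * f r ^ 2
            - 4 * Real.pi * auq q a * r ^ 2 * gam (tq q a) r * f r ^ 2
            - 2 * auq q a * qbf (tq q a) r * f r * Q r / r ^ 2) / r ^ 2) := by
      unfold ks
      rw [if_pos hb]
    have hw : ws q a f Q W r = efs q a r ^ 2 * (Q r ^ 2 / r ^ 4 + W r * f r ^ 2)
        + 4 * Real.pi * auq q a * gam (tq q a) r * fs q a f r ^ 2 := by
      unfold ws
      rw [if_pos hb]
    rw [hw, hk, hg, hf]
    generalize efs q a r = e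
    generalize gam (tq q a) r = g
    generalize qbf (tq q a) r = s
    generalize auq q a = A
    generalize Q r = Q'
    generalize f r = f'
    generalize W r = W'
    have hr' : r ≠ 0 := hr.ne'
    field_simp
    ring
  · have hR : R ≤ r := by
      have h1 := h.R_le_b
      have h2 := h.sc.R_pos
      linarith
    have hg : gs q a f Q r = 0 := by
      unfold gs
      rw [if_neg (not_lt.mpr hb)]
    have hk : ks q a f Q W r = 0 := by
      unfold ks
      rw [if_neg (not_lt.mpr hb)]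
    have hw : ws q a f Q W r = 0 := by
      unfold ws
      rw [if_neg (not_lt.mpr hb)]
    rw [hg, hk, hw, h.sc.W_zero r hR]
    ring

theorem Reg.wtot (hκ : 0 < κ) (h : Reg W R₀ R a f Q θ q) : ∀ᵐ x ∂lam3,
    2 * (effT (dftot κ q a f Q) (hftot κ q a f Q W) x + W (rr x) * ftot κ q a f x ^ 2)
      = Real.exp (-(2 * mix0 (omu κ q a) (tq q a) x)) * ws q a f Q W (rr x)
        + ftot κ q a f x ^ 2 * ∑ α, mix2 (omu κ q a) (tq q a) α α x := by
  filter_upwards [ae_rr_pos] with x hx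
  have core := U7A2_core h hx
  have hr2 := rr_sq x
  have hE : Real.exp (-(2 * mix0 (omu κ q a) (tq q a) x))
      = Real.exp (-mix0 (omu κ q a) (tq q a) x) ^ 2 := by
    rw [← Real.exp_nat_mul]
    congr 1
    push_cast
    ring
  rw [← core]
  unfold effT dftot hftot ftot
  rw [hE]
  simp only [Fin.sum_univ_three] at hr2 ⊢
  generalize Real.exp (-mix0 (omu κ q a) (tq q a) x) = E at *
  generalize fs q a f (rr x) = F at *
  generalize gs q a f Q (rr x) = G at *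
  generalize ks q a f Q W (rr x) = K at *
  generalize W (rr x) = W' at *
  generalize mix1 (omu κ q a) (tq q a) 0 x = m0 at *
  generalize mix1 (omu κ q a) (tq q a) 1 x = m1 at *
  generalize mix1 (omu κ q a) (tq q a) 2 x = m2 at *
  generalize mix2 (omu κ q a) (tq q a) 0 0 x = n0 at *
  generalize mix2 (omu κ q a) (tq q a) 1 1 x = n1 at *
  generalize mix2 (omu κ q a) (tq q a) 2 2 x = n2 at *
  generalize crd x 0 = c0 at *
  generalize crd x 1 = c1 at *
  generalize crd x 2 = c2 at *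
  generalize rr x = r at *
  have hd : (c0 / r) ^ 2 + (c1 / r) ^ 2 + (c2 / r) ^ 2 = 1 := by
    have hr' : r ≠ 0 := hx.ne'
    field_simp
    linarith
  linear_combination (-2 * E ^ 2 * G ^ 2) * hr2 - E ^ 2 * K * hd

end

end Pool.Agent.Lib.MP_4952d6_mp

end

/-! ### U.MXD -/

section

/-!
# MXD: the sum `Σ û / |k|`

For `p ≠ 0`: `1/√(ksq p) = π^{-1/2} ∫_0^∞ s^{-1/2} exp(-s ksq p) ds`. Hence for `r > 0`
`Σ_{p≠0} exp(-r ksq p)/√(ksq p) = π^{-1/2} ∫_0^∞ s^{-1/2} (hk (s+r) 0 - 1) ds ≤ C ∫_0^∞ s^{-1/2} (s+r)^{-3/2} ds ≤ C'/r`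
(`hk_sub_one_le`; `(s+r)^{-3/2} ≤ r^{-3/2}` for `s ≤ r` and `≤ s^{-3/2}` for `s ≥ r`). Then integrate against
`ω(r) ≤ M exp(-c r)` over `(t, ∞)`: `∫_t^∞ exp(-cr) dr/r ≤ log(1/(ct)) + 1` if `c t ≤ 1` (split at `1/c`). At `p = 0` the summand is
`mixh 0 / √0 = 0` in Lean. Nonnegative terms: exchange in `ℝ≥0∞` or by `hasSum_integral_of_summable_integral_norm`.
-/

set_option autoImplicit false
set_option linter.unusedSectionVars false
set_option linter.unusedVariables false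
open MeasureTheory Function Filter Topology Set
open scoped ENNReal

namespace Pool.Agent.Lib.MP_4952d6_mp

lemma MXD_ch_zero (p : Fin 3 → ℤ) : ch p 0 = 1 := by
  simp [ch, UnitAddTorus.mFourier]

lemma MXD_one_le_ksq {p : Fin 3 → ℤ} (hp : p ≠ 0) : 1 ≤ ksq p := by
  obtain ⟨α, hα⟩ := Function.ne_iff.1 hp
  have hα' : p α ≠ 0 := hα
  have h1 : (1:ℝ) ≤ (p α : ℝ) ^ 2 := by
    have h2 : 1 ≤ (p α) ^ 2 := by
      have h3 : 0 < (p α) ^ 2 := by positivity
      omega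
    exact_mod_cast h2
  have h2 : (p α : ℝ) ^ 2 ≤ mom2 p :=
    Finset.single_le_sum (f := fun α => (p α : ℝ) ^ 2) (fun _ _ => sq_nonneg _) (Finset.mem_univ α)
  unfold ksq
  nlinarith [Real.pi_gt_three]

lemma MXD_hasSum {s : ℝ} (hs : 0 < s) :
    HasSum (fun p : Fin 3 → ℤ => if p = 0 then 0 else Real.exp (-(s * ksq p))) (hk s 0 - 1) := by
  have h1 := hasSum_hk hs 0
  simp_rw [MXD_ch_zero, mul_one] at h1
  have h2 := Complex.hasSum_ofReal.1 h1
  have h3 := h2.sub (hasSum_ite_eq (0 : Fin 3 → ℤ) (1 : ℝ))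
  have e : (fun p : Fin 3 → ℤ => if p = 0 then 0 else Real.exp (-(s * ksq p)))
      = fun p : Fin 3 → ℤ => Real.exp (-(s * ksq p)) - if p = 0 then 1 else 0 := by
    funext p
    split_ifs with hp
    · rw [hp, HKE_ksq_zero]
      simp
    · simp
  rw [e]
  exact h3

lemma MXD_lint {r k : ℝ} (hk : 0 < k) :
    ENNReal.ofReal (Real.exp (-(r * k)) / Real.sqrt k) ≤
      ∫⁻ s in Ioi (0:ℝ), ENNReal.ofReal ((Real.sqrt s)⁻¹) *
        ENNReal.ofReal (Real.exp (-((s + r) * k))) := by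
  have h1 := Real.integral_rpow_mul_exp_neg_mul_Ioi (a := 1 / 2) (r := k) (by norm_num) hk
  have hI : ∫ s in Ioi (0:ℝ), (Real.sqrt s)⁻¹ * Real.exp (-((s + r) * k))
      = Real.exp (-(r * k)) * ((Real.sqrt k)⁻¹ * Real.sqrt Real.pi) := by
    have e1 : (1 / k) ^ ((1:ℝ) / 2) = (Real.sqrt k)⁻¹ := by
      rw [← Real.sqrt_eq_rpow, one_div, Real.sqrt_inv]
    rw [Real.Gamma_one_half_eq, e1] at h1
    rw [← h1, ← integral_const_mul]
    refine setIntegral_congr_fun measurableSet_Ioi fun s hs => ?_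
    have hs' : 0 < s := hs
    have e2 : s ^ ((1:ℝ) / 2 - 1) = (Real.sqrt s)⁻¹ := by
      rw [show (1:ℝ) / 2 - 1 = -(1 / 2) by norm_num, Real.rpow_neg hs'.le, ← Real.sqrt_eq_rpow]
    rw [e2, show -((s + r) * k) = -(r * k) + -(k * s) by ring, Real.exp_add]
    ring
  have hk' : 0 < Real.sqrt k := Real.sqrt_pos.2 hk
  have hpi : 1 ≤ Real.sqrt Real.pi := by
    rw [Real.one_le_sqrt]
    linarith [Real.pi_gt_three]
  have hpos : 0 < Real.exp (-(r * k)) * ((Real.sqrt k)⁻¹ * Real.sqrt Real.pi) := by positivity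
  have hint : IntegrableOn (fun s => (Real.sqrt s)⁻¹ * Real.exp (-((s + r) * k))) (Ioi (0:ℝ)) :=
    Integrable.of_integral_ne_zero (by rw [hI]; exact hpos.ne')
  have h2 := ofReal_integral_eq_lintegral_ofReal hint (Eventually.of_forall fun s => by positivity)
  have h3 : ∫⁻ s in Ioi (0:ℝ), ENNReal.ofReal ((Real.sqrt s)⁻¹) *
        ENNReal.ofReal (Real.exp (-((s + r) * k)))
      = ∫⁻ s in Ioi (0:ℝ), ENNReal.ofReal ((Real.sqrt s)⁻¹ * Real.exp (-((s + r) * k))) := by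
    refine lintegral_congr fun s => ?_
    rw [ENNReal.ofReal_mul (by positivity)]
  rw [h3, ← h2, hI]
  refine ENNReal.ofReal_le_ofReal ?_
  rw [div_eq_mul_inv]
  refine mul_le_mul_of_nonneg_left ?_ (Real.exp_pos _).le
  nlinarith [inv_pos.2 hk']

lemma MXD_int {r : ℝ} (hr : 0 < r) :
    IntegrableOn (fun s => (Real.sqrt s)⁻¹ * (Real.sqrt (s + r))⁻¹ ^ 3) (Ioi (0:ℝ)) ∧
      ∫ s in Ioi (0:ℝ), (Real.sqrt s)⁻¹ * (Real.sqrt (s + r))⁻¹ ^ 3 = 2 / r := by
  set F : ℝ → ℝ := fun s => 2 / r * (Real.sqrt s * (Real.sqrt (s + r))⁻¹) with hF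
  have hc : ContinuousWithinAt F (Ici 0) 0 := by
    have h1 : ContinuousAt F 0 := by
      refine continuousAt_const.mul (Real.continuous_sqrt.continuousAt.mul ?_)
      refine ContinuousAt.inv₀ (by fun_prop) ?_
      rw [zero_add]
      exact (Real.sqrt_pos.2 hr).ne'
    exact h1.continuousWithinAt
  have hd : ∀ s ∈ Ioi (0:ℝ), HasDerivAt F ((Real.sqrt s)⁻¹ * (Real.sqrt (s + r))⁻¹ ^ 3) s := by
    intro s hs
    have hs' : 0 < s := hs
    have hA : 0 < Real.sqrt s := Real.sqrt_pos.2 hs'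
    have hB : 0 < Real.sqrt (s + r) := Real.sqrt_pos.2 (by linarith)
    have hA2 : Real.sqrt s ^ 2 = s := Real.sq_sqrt hs'.le
    have hB2 : Real.sqrt (s + r) ^ 2 = s + r := Real.sq_sqrt (by linarith)
    have d1 : HasDerivAt (fun s => Real.sqrt s) (1 / (2 * Real.sqrt s)) s :=
      Real.hasDerivAt_sqrt hs'.ne'
    have d2 : HasDerivAt (fun s => Real.sqrt (s + r)) (1 / (2 * Real.sqrt (s + r))) s := by
      have := ((hasDerivAt_id s).add_const r).sqrt (by simp only [id]; linarith)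
      simpa using this
    have d2' : HasDerivAt (fun s => (Real.sqrt (s + r))⁻¹)
        (-(1 / (2 * Real.sqrt (s + r))) / Real.sqrt (s + r) ^ 2) s := d2.inv hB.ne'
    have d3 : HasDerivAt F (2 / r * (1 / (2 * Real.sqrt s) * (Real.sqrt (s + r))⁻¹ +
        Real.sqrt s * (-(1 / (2 * Real.sqrt (s + r))) / Real.sqrt (s + r) ^ 2))) s :=
      (d1.mul d2').const_mul (2 / r)
    refine d3.congr_deriv ?_
    have hr' : r = Real.sqrt (s + r) ^ 2 - Real.sqrt s ^ 2 := by rw [hA2, hB2]; ring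
    have hne : Real.sqrt (s + r) ^ 2 - Real.sqrt s ^ 2 ≠ 0 := by rw [← hr']; exact hr.ne'
    generalize Real.sqrt (s + r) = B at *
    generalize Real.sqrt s = A at *
    rw [hr']
    field_simp
    ring
  have hnn : ∀ s ∈ Ioi (0:ℝ), 0 ≤ (Real.sqrt s)⁻¹ * (Real.sqrt (s + r))⁻¹ ^ 3 := fun s _ => by
    positivity
  have hlim : Tendsto F atTop (nhds (2 / r)) := by
    have t1 : Tendsto (fun s : ℝ => r / (s + r)) atTop (nhds 0) :=
      tendsto_const_nhds.div_atTop (tendsto_atTop_add_const_right _ _ tendsto_id)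
    have t2 : Tendsto (fun s : ℝ => 2 / r * Real.sqrt (1 - r / (s + r))) atTop
        (nhds (2 / r * Real.sqrt (1 - 0))) :=
      ((Real.continuous_sqrt.tendsto _).comp (t1.const_sub 1)).const_mul _
    rw [sub_zero, Real.sqrt_one, mul_one] at t2
    refine t2.congr' ?_
    filter_upwards [eventually_gt_atTop 0] with s hs
    have h1 : 0 < s + r := by linarith
    have e1 : 1 - r / (s + r) = s / (s + r) := by
      field_simp
      ring
    simp only [hF]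
    rw [e1, Real.sqrt_div hs.le, div_eq_mul_inv (Real.sqrt s)]
  refine ⟨integrableOn_Ioi_deriv_of_nonneg hc hd hnn hlim, ?_⟩
  rw [integral_Ioi_of_hasDerivAt_of_nonneg hc hd hnn hlim]
  simp [hF]

lemma MXD_lint_le {f g : ℝ → ℝ} {S : Set ℝ} (hS : MeasurableSet S) (hg : IntegrableOn g S)
    (hfg : ∀ s ∈ S, f s ≤ g s) (hg0 : ∀ s ∈ S, 0 ≤ g s) {R : ℝ} (hR : ∫ s in S, g s ≤ R) :
    ∫⁻ s in S, ENNReal.ofReal (f s) ≤ ENNReal.ofReal R := by
  calc ∫⁻ s in S, ENNReal.ofReal (f s) ≤ ∫⁻ s in S, ENNReal.ofReal (g s) :=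
        setLIntegral_mono' hS fun s hs => ENNReal.ofReal_le_ofReal (hfg s hs)
    _ = ENNReal.ofReal (∫ s in S, g s) :=
        (ofReal_integral_eq_lintegral_ofReal hg (ae_restrict_of_forall_mem hS hg0)).symm
    _ ≤ ENNReal.ofReal R := ENNReal.ofReal_le_ofReal hR

lemma MXD_exp_div_int {C M c t : ℝ} (hC : 0 ≤ C) (hM : 0 ≤ M) (hc : 0 < c) (ht : 0 < t)
    (hct : c * t ≤ 1) :
    ∫⁻ s in Ioi t, ENNReal.ofReal (M * Real.exp (-(c * s)) * (C / s)) ≤
      ENNReal.ofReal (C * M * (1 + Real.log (1 / (c * t)))) := by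
  have htc : t ≤ 1 / c := by
    rw [le_div_iff₀ hc]
    linarith
  have hc1 : 0 < 1 / c := by positivity
  have hlog : 0 ≤ Real.log (1 / (c * t)) := by
    refine Real.log_nonneg ?_
    rw [le_div_iff₀ (by positivity)]
    linarith
  rw [← Ioc_union_Ioi_eq_Ioi htc, lintegral_union measurableSet_Ioi (by
    rw [Set.disjoint_left]
    intro x h1 h2
    exact absurd h1.2 (not_le.2 h2))]
  have b1 : ∫⁻ s in Ioc t (1 / c), ENNReal.ofReal (M * Real.exp (-(c * s)) * (C / s)) ≤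
      ENNReal.ofReal (C * M * Real.log (1 / (c * t))) := by
    refine MXD_lint_le (g := fun s => C * M * s⁻¹) measurableSet_Ioc ?_ ?_ ?_ ?_
    · have h1 : IntervalIntegrable (fun s : ℝ => C * M * s⁻¹) volume t (1 / c) := by
        refine ContinuousOn.intervalIntegrable ?_
        rw [uIcc_of_le htc]
        refine continuousOn_const.mul (continuousOn_inv₀.mono ?_)
        intro x hx
        exact (lt_of_lt_of_le ht hx.1).ne'
      exact (intervalIntegrable_iff_integrableOn_Ioc_of_le htc).1 h1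
    · intro s hs
      have hs0 : 0 < s := ht.trans hs.1
      have h1 : Real.exp (-(c * s)) ≤ 1 := by
        rw [Real.exp_le_one_iff]
        have : 0 ≤ c * s := by positivity
        linarith
      have h2 : 0 ≤ C / s := by positivity
      calc M * Real.exp (-(c * s)) * (C / s) ≤ M * 1 * (C / s) :=
            mul_le_mul_of_nonneg_right (mul_le_mul_of_nonneg_left h1 hM) h2
        _ = C * M * s⁻¹ := by ring
    · intro s hs
      have hs0 : 0 < s := ht.trans hs.1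
      positivity
    · rw [← intervalIntegral.integral_of_le htc, intervalIntegral.integral_const_mul,
        integral_inv_of_pos ht hc1, div_div]
  have b2 : ∫⁻ s in Ioi (1 / c), ENNReal.ofReal (M * Real.exp (-(c * s)) * (C / s)) ≤
      ENNReal.ofReal (C * M) := by
    refine MXD_lint_le (g := fun s => C * M * c * Real.exp (-c * s)) measurableSet_Ioi ?_ ?_ ?_ ?_
    · exact (integrableOn_exp_mul_Ioi (by linarith) _).const_mul _
    · intro s hs
      have hs1 : 1 / c < s := hs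
      have hs0 : 0 < s := hc1.trans hs1
      have h1 : C / s ≤ C * c := by
        rw [div_le_iff₀ hs0]
        rw [div_lt_iff₀ hc] at hs1
        nlinarith
      calc M * Real.exp (-(c * s)) * (C / s) ≤ M * Real.exp (-(c * s)) * (C * c) :=
            mul_le_mul_of_nonneg_left h1 (by positivity)
        _ = C * M * c * Real.exp (-c * s) := by
            rw [neg_mul]
            ring
    · intro s _
      positivity
    · rw [integral_const_mul, integral_exp_mul_Ioi (by linarith)]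
      have h1 : -c * (1 / c) = -1 := by field_simp
      rw [h1]
      have h2 : Real.exp (-1) ≤ 1 := by
        rw [Real.exp_le_one_iff]
        norm_num
      have h3 : C * M * c * (-Real.exp (-1) / -c) = C * M * Real.exp (-1) := by
        field_simp
      rw [h3]
      nlinarith [mul_nonneg hC hM]
  refine (add_le_add b1 b2).trans ?_
  rw [← ENNReal.ofReal_add (mul_nonneg (mul_nonneg hC hM) hlog) (mul_nonneg hC hM)]
  refine ENNReal.ofReal_le_ofReal (le_of_eq ?_)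
  ring

theorem tsum_exp_div_sqrt : ∃ C : ℝ, 0 ≤ C ∧ ∀ r : ℝ, 0 < r →
    Summable (fun p : Fin 3 → ℤ => Real.exp (-(r * ksq p)) / Real.sqrt (ksq p)) ∧
    ∑' p : Fin 3 → ℤ, Real.exp (-(r * ksq p)) / Real.sqrt (ksq p) ≤ C / r := by
  obtain ⟨C, hC0, hC⟩ := hk_sub_one_le
  refine ⟨2 * C, by positivity, fun r hr => ?_⟩
  have key : ∑' p : Fin 3 → ℤ, ENNReal.ofReal (Real.exp (-(r * ksq p)) / Real.sqrt (ksq p))
      ≤ ENNReal.ofReal (2 * C / r) := by
    have h1 : ∀ p : Fin 3 → ℤ, ENNReal.ofReal (Real.exp (-(r * ksq p)) / Real.sqrt (ksq p)) ≤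
        ∫⁻ s in Ioi (0:ℝ), ENNReal.ofReal ((Real.sqrt s)⁻¹) *
          ENNReal.ofReal (if p = 0 then 0 else Real.exp (-((s + r) * ksq p))) := by
      intro p
      by_cases hp : p = 0
      · rw [hp, HKE_ksq_zero, Real.sqrt_zero, div_zero, ENNReal.ofReal_zero]
        exact zero_le
      · simp only [if_neg hp]
        exact MXD_lint (lt_of_lt_of_le one_pos (MXD_one_le_ksq hp))
    refine (ENNReal.tsum_le_tsum h1).trans ?_
    rw [← lintegral_tsum (fun p => by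
      refine Measurable.aemeasurable ?_
      split_ifs
      · fun_prop
      · fun_prop)]
    have h2 : ∀ s ∈ Ioi (0:ℝ), ∑' p : Fin 3 → ℤ, ENNReal.ofReal ((Real.sqrt s)⁻¹) *
          ENNReal.ofReal (if p = 0 then 0 else Real.exp (-((s + r) * ksq p))) ≤
        ENNReal.ofReal (C * ((Real.sqrt s)⁻¹ * (Real.sqrt (s + r))⁻¹ ^ 3)) := by
      intro s hs
      have hs' : 0 < s := hs
      have hsr : 0 < s + r := by linarith
      have h3 := MXD_hasSum hsr
      rw [ENNReal.tsum_mul_left, ← ENNReal.ofReal_tsum_of_nonneg (fun p => by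
        split_ifs
        · exact le_rfl
        · exact (Real.exp_pos _).le) h3.summable, h3.tsum_eq, ← ENNReal.ofReal_mul (by positivity)]
      refine ENNReal.ofReal_le_ofReal ?_
      have h4 := (le_abs_self _).trans (hC (s + r) hsr 0)
      calc (Real.sqrt s)⁻¹ * (hk (s + r) 0 - 1) ≤ (Real.sqrt s)⁻¹ * (C * (Real.sqrt (s + r))⁻¹ ^ 3) :=
            mul_le_mul_of_nonneg_left h4 (by positivity)
        _ = _ := by ring
    refine (setLIntegral_mono' measurableSet_Ioi h2).trans ?_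
    obtain ⟨h5, h6⟩ := MXD_int hr
    refine MXD_lint_le measurableSet_Ioi (h5.const_mul C) (fun s _ => le_rfl) (fun s _ => by positivity) ?_
    rw [integral_const_mul, h6]
    refine le_of_eq ?_
    ring
  exact summable_of_ennreal (fun p => by positivity) (by positivity) key

theorem mixh_div_sqrt_tsum : ∃ C : ℝ, 0 ≤ C ∧ ∀ (ω : ℝ → ℝ) (t M c : ℝ), MixOk ω t M c →
    c * t ≤ 1 → 0 ≤ M →
    Summable (fun p => mixh ω t p / Real.sqrt (ksq p)) ∧
    ∑' p, mixh ω t p / Real.sqrt (ksq p) ≤ C * M * (1 + Real.log (1 / (c * t))) := by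
  obtain ⟨C, hC0, hC⟩ := tsum_exp_div_sqrt
  refine ⟨C, hC0, fun ω t M c h hct hM => ?_⟩
  have hlog : 0 ≤ Real.log (1 / (c * t)) := by
    refine Real.log_nonneg ?_
    rw [le_div_iff₀ (mul_pos h.c_pos h.t_pos)]
    linarith
  refine summable_of_ennreal (fun p => div_nonneg (mixh_nonneg h p) (Real.sqrt_nonneg _))
    (by positivity) ?_
  have h1 : ∀ p : Fin 3 → ℤ, ENNReal.ofReal (mixh ω t p / Real.sqrt (ksq p)) =
      ∫⁻ s in Ioi t, ENNReal.ofReal (ω s) *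
        ENNReal.ofReal (Real.exp (-(s * ksq p)) / Real.sqrt (ksq p)) := by
    intro p
    have h2 := (mixh_integrable h p).div_const (Real.sqrt (ksq p))
    have h3 : mixh ω t p / Real.sqrt (ksq p) =
        ∫ s in Ioi t, ω s * Real.exp (-(s * ksq p)) / Real.sqrt (ksq p) := by
      rw [integral_div]
      rfl
    rw [h3, ofReal_integral_eq_lintegral_ofReal h2 (ae_restrict_of_forall_mem measurableSet_Ioi
      fun s hs => div_nonneg (mul_nonneg (h.nonneg s hs) (Real.exp_pos _).le) (Real.sqrt_nonneg _))]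
    refine setLIntegral_congr_fun measurableSet_Ioi fun s hs => ?_
    rw [mul_div_assoc, ENNReal.ofReal_mul (h.nonneg s hs)]
  simp_rw [h1]
  rw [← lintegral_tsum (fun p => by
    have := h.meas
    refine Measurable.aemeasurable ?_
    fun_prop)]
  refine le_trans (setLIntegral_mono' measurableSet_Ioi fun s hs => ?_)
    (MXD_exp_div_int hC0 hM h.c_pos h.t_pos hct)
  have hs' : t < s := hs
  have hs0 : 0 < s := h.t_pos.trans hs'
  obtain ⟨h4, h5⟩ := hC s hs0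
  rw [ENNReal.tsum_mul_left, ← ENNReal.ofReal_tsum_of_nonneg (fun p => by positivity) h4,
    ← ENNReal.ofReal_mul (h.nonneg s hs')]
  refine ENNReal.ofReal_le_ofReal ?_
  exact mul_le_mul (h.le s hs') h5 (tsum_nonneg fun p => by positivity) (by positivity)

end Pool.Agent.Lib.MP_4952d6_mp

end

/-! ### U.DGD -/

section

/-!
# DGD: the quantitative bounds

`M = 4π a_u ≤ 8π a`, `c = κ²/l²`, `√c = κ/l`, `√t = a/q^79`, `N a³ = q^400`, `N a l² = 1`, `l = a/q^200 ≤ q^800`, `a ≤ q^1000`.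
* `uh0`: `N û(0) ≤ N M/c ≤ 8π N a l²/κ² = 8π/κ²`.
* `ul_le`: `mix0 ≤ 4 M (1/c + 1/√t) ≤ C a (l²/κ² + q^79/a) ≤ C q^78`.
* `uh_sq`: `mixh_mul_tsum`: `N Σ û² ≤ 4 N M² (l⁴/κ⁴ + 4 l/κ) ≤ C N a² l = C q^200`.
* `uh_inv`: `mixh_div_sqrt_tsum`, `c t = κ² q^242`, `log(1/(ct)) = 242 log(1/q) + 2 log(1/κ) ≤ C/q`.
* `uh_cos`: `mixh_cos_tsum`. `d1`: `8M/√c`. `d2`: `int_mix1_sq_le` and `ul_le`. `dd`: `50 M/√c`.
* `ddc`: `|ddul| ≤ 24 M (1/(ct) + 1/√t³)`, `1/(c t) = q^{-242}/κ² ≤ q^237/a³/κ²` and `1/√t³ = q^237/a³`; `Ic_rr_le`: `4π a b³`, `b³ = a³/q^240`: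
  `≤ C a · q^237/a³ · a · a³/q^240 = C a² q^{-3} ≤ C a² q^110/q^200`.
* `Ic`: `N · 4π a b² = 4π q^240`. `Kint`: `kcr_int`. `Nq`: `N q^400 = q^800/a³ ≥ q^{-2200}`.
-/

set_option autoImplicit false
set_option linter.unusedSectionVars false
set_option linter.unusedVariables false
open MeasureTheory Function Filter Topology Set
open scoped ENNReal

namespace Pool.Agent.Lib.MP_4952d6_mp

section
variable {κ q a θ R₀ R : ℝ} {W f Q : ℝ → ℝ} {N : ℕ}

lemma DGD_M (h : Reg W R₀ R a f Q θ q) : 0 ≤ 4 * Real.pi * auq q a ∧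
    4 * Real.pi * auq q a ≤ 8 * Real.pi * a := by
  have ha := h.a_pos
  have h1 := one_le_alq h.q_pos h.q_le
  have h2 := alq_le_two h.q_pos h.q_le
  have h0 : 0 ≤ alq q := by linarith
  have hπ := Real.pi_pos
  unfold auq
  constructor
  · positivity
  · nlinarith [mul_le_mul_of_nonneg_left h2 (mul_pos hπ ha).le]

lemma DGD_lq_pos (hq : 0 < q) (ha : 0 < a) : 0 < lq q a := by
  unfold lq; positivity

lemma DGD_sqrtc (hκ : 0 < κ) (hq : 0 < q) (ha : 0 < a) :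
    Real.sqrt (κ ^ 2 / lq q a ^ 2) = κ / lq q a := by
  have hl := DGD_lq_pos hq ha
  rw [← div_pow, Real.sqrt_sq (by positivity)]

lemma DGD_Nal (hq : 0 < q) (hN : (N : ℝ) * a ^ 3 = q ^ 400) : (N : ℝ) * a * lq q a ^ 2 = 1 := by
  have h1 : q ^ 400 ≠ 0 := (pow_pos hq _).ne'
  have h2 : (N : ℝ) * a * lq q a ^ 2 = (N * a ^ 3) / q ^ 400 := by unfold lq; ring
  rw [h2, hN, div_self h1]

lemma DGD_Nal2 (hq : 0 < q) (hN : (N : ℝ) * a ^ 3 = q ^ 400) :
    (N : ℝ) * a ^ 2 * lq q a = q ^ 200 := by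
  have h1 : q ^ 200 ≠ 0 := (pow_pos hq _).ne'
  have h2 : (N : ℝ) * a ^ 2 * lq q a = (N * a ^ 3) / q ^ 200 := by unfold lq; ring
  rw [h2, hN, div_eq_iff h1]; ring

lemma DGD_pow (hq : 0 < q) (hq1 : q ≤ 1 / 100) {m n : ℕ} (hmn : n ≤ m) : q ^ m ≤ q ^ n :=
  pow_le_pow_of_le_one hq.le (by linarith) hmn

lemma DGD_Nq (h : Reg W R₀ R a f Q θ q) (hN : (N : ℝ) * a ^ 3 = q ^ 400) :
    4 ≤ (N : ℝ) * q ^ 400 := by
  have hq := h.q_pos
  have ha := h.a_pos
  have h1 : a ^ 3 ≤ (q ^ 1000) ^ 3 := pow_le_pow_left₀ ha.le h.aq 3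
  have h2 : (q ^ 1000) ^ 3 ≤ q ^ 801 := by
    rw [← pow_mul]; exact DGD_pow hq h.q_le (by norm_num)
  have h3 : q ^ 801 = q * q ^ 800 := by rw [pow_succ']
  have h4 : 0 < q ^ 800 := by positivity
  have h5 : 4 * a ^ 3 ≤ q ^ 800 := by
    have : q * q ^ 800 ≤ 1 / 100 * q ^ 800 := mul_le_mul_of_nonneg_right h.q_le h4.le
    linarith
  have h6 : (N : ℝ) * q ^ 400 * a ^ 3 = q ^ 800 := by
    calc (N : ℝ) * q ^ 400 * a ^ 3 = (N * a ^ 3) * q ^ 400 := by ring
      _ = q ^ 400 * q ^ 400 := by rw [hN]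
      _ = q ^ 800 := by rw [← pow_add]
  refine le_of_mul_le_mul_right ?_ (pow_pos ha 3)
  rw [h6]; exact h5

lemma DGD_lq_le_one (h : Reg W R₀ R a f Q θ q) : lq q a ≤ 1 :=
  h.lq_le.trans (pow_le_one₀ h.q_pos.le (by linarith [h.q_le]))

lemma DGD_uh0 (hκ : 0 < κ) (h : Reg W R₀ R a f Q θ q) (hN : (N : ℝ) * a ^ 3 = q ^ 400) :
    (N : ℝ) * mixh (omu κ q a) (tq q a) 0 ≤ 8 * Real.pi / κ ^ 2 := by
  have hM := DGD_M h
  have hl := DGD_lq_pos h.q_pos h.a_pos
  have h1 := mixh_zero_le (omu_ok hκ h.q_pos h.q_le h.a_pos)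
  calc (N : ℝ) * mixh (omu κ q a) (tq q a) 0
      ≤ N * ((4 * Real.pi * auq q a) / (κ ^ 2 / lq q a ^ 2)) := by gcongr
    _ ≤ N * ((8 * Real.pi * a) / (κ ^ 2 / lq q a ^ 2)) := by
        gcongr N * (?_ / _)
        exact hM.2
    _ = 8 * Real.pi / κ ^ 2 * (N * a * lq q a ^ 2) := by field_simp
    _ = 8 * Real.pi / κ ^ 2 := by rw [DGD_Nal h.q_pos hN, mul_one]

lemma DGD_ul (hκ : 0 < κ) (h : Reg W R₀ R a f Q θ q) (x : T3) :
    mix0 (omu κ q a) (tq q a) x ≤ 32 * Real.pi * (1 / κ ^ 2 + 1) * q ^ 78 := by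
  have hM := DGD_M h
  have hq := h.q_pos
  have ha := h.a_pos
  have hπ := Real.pi_pos
  have hl := DGD_lq_pos hq ha
  have hl1 := DGD_lq_le_one h
  have h1 := mix0_le (omu_ok hκ h.q_pos h.q_le h.a_pos) x
  rw [sqrt_tq hq ha] at h1
  have h2 : a * lq q a ^ 2 ≤ q ^ 78 := by
    calc a * lq q a ^ 2 ≤ a * 1 := by
          gcongr
          exact pow_le_one₀ hl.le hl1
      _ ≤ q ^ 78 := by rw [mul_one]; exact h.aq.trans (DGD_pow hq h.q_le (by norm_num))
  calc mix0 (omu κ q a) (tq q a) x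
      ≤ 4 * (4 * Real.pi * auq q a) * (1 / (κ ^ 2 / lq q a ^ 2) + 1 / (a / q ^ 79)) := h1
    _ ≤ 4 * (8 * Real.pi * a) * (1 / (κ ^ 2 / lq q a ^ 2) + 1 / (a / q ^ 79)) := by
        gcongr ?_ * _
        linarith [hM.2]
    _ = 32 * Real.pi * (1 / κ ^ 2 * (a * lq q a ^ 2) + q ^ 79) := by field_simp; ring
    _ ≤ 32 * Real.pi * (1 / κ ^ 2 * q ^ 78 + q ^ 78) := by
        gcongr 32 * Real.pi * (1 / κ ^ 2 * ?_ + ?_)
        exact DGD_pow hq h.q_le (by norm_num)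
    _ = 32 * Real.pi * (1 / κ ^ 2 + 1) * q ^ 78 := by ring

lemma DGD_sq (hκ : 0 < κ) (h : Reg W R₀ R a f Q θ q) (hN : (N : ℝ) * a ^ 3 = q ^ 400) :
    (N : ℝ) * ∑' p, mixh (omu κ q a) (tq q a) p ^ 2
      ≤ 256 * Real.pi ^ 2 * (1 / κ ^ 4 + 4 / κ) * q ^ 200 := by
  have hM := DGD_M h
  have hq := h.q_pos
  have ha := h.a_pos
  have hπ := Real.pi_pos
  have hl := DGD_lq_pos hq ha
  have hl1 := DGD_lq_le_one h
  have hok := omu_ok hκ h.q_pos h.q_le h.a_pos
  have h1 := (mixh_mul_tsum hok hok).2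
  rw [DGD_sqrtc hκ hq ha] at h1
  have h0 : ∑' p, mixh (omu κ q a) (tq q a) p ^ 2
      = ∑' p, mixh (omu κ q a) (tq q a) p * mixh (omu κ q a) (tq q a) p := by
    refine tsum_congr fun p => ?_
    rw [sq]
  rw [h0]
  have h3 : lq q a ^ 3 ≤ 1 := pow_le_one₀ hl.le hl1
  calc (N : ℝ) * ∑' p, mixh (omu κ q a) (tq q a) p * mixh (omu κ q a) (tq q a) p
      ≤ N * (4 * (4 * Real.pi * auq q a) * (4 * Real.pi * auq q a)
        * (1 / (κ ^ 2 / lq q a ^ 2 * (κ ^ 2 / lq q a ^ 2)) + 4 / (κ / lq q a))) := by gcongr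
    _ ≤ N * (4 * (8 * Real.pi * a) * (8 * Real.pi * a)
        * (1 / (κ ^ 2 / lq q a ^ 2 * (κ ^ 2 / lq q a ^ 2)) + 4 / (κ / lq q a))) := by
        gcongr N * (4 * ?_ * ?_ * _)
        · exact hM.1
        · exact hM.2
        · exact hM.2
    _ = 256 * Real.pi ^ 2 * (1 / κ ^ 4 * lq q a ^ 3 + 4 / κ) * (N * a ^ 2 * lq q a) := by
        field_simp; ring
    _ = 256 * Real.pi ^ 2 * (1 / κ ^ 4 * lq q a ^ 3 + 4 / κ) * q ^ 200 := by
        rw [DGD_Nal2 hq hN]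
    _ ≤ 256 * Real.pi ^ 2 * (1 / κ ^ 4 * 1 + 4 / κ) * q ^ 200 := by gcongr
    _ = 256 * Real.pi ^ 2 * (1 / κ ^ 4 + 4 / κ) * q ^ 200 := by ring

lemma DGD_ct (hκ : 0 < κ) (hq : 0 < q) (ha : 0 < a) :
    κ ^ 2 / lq q a ^ 2 * tq q a = κ ^ 2 * q ^ 242 := by
  rw [← tq_div_lq hq ha]; ring

lemma DGD_log (hκ : 0 < κ) (hκ1 : κ ≤ 1) (hq : 0 < q) (hq1 : q ≤ 1 / 100) :
    1 + Real.log (1 / (κ ^ 2 * q ^ 242)) ≤ (243 + 2 / κ) / q := by
  have h1 : Real.log (1 / (κ ^ 2 * q ^ 242)) = 2 * Real.log (1 / κ) + 242 * Real.log (1 / q) := by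
    rw [one_div, Real.log_inv, Real.log_mul (by positivity) (by positivity), Real.log_pow,
      Real.log_pow, one_div, one_div, Real.log_inv, Real.log_inv]
    push_cast; ring
  have h2 : Real.log (1 / κ) ≤ 1 / κ := by
    have := Real.log_le_sub_one_of_pos (show (0:ℝ) < 1 / κ by positivity)
    linarith
  have h3 : Real.log (1 / q) ≤ 1 / q := by
    have := Real.log_le_sub_one_of_pos (show (0:ℝ) < 1 / q by positivity)
    linarith
  have h4 : 1 ≤ 1 / q := by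
    rw [le_div_iff₀ hq]; linarith
  have h5 : 2 / κ ≤ 2 / κ * (1 / q) := le_mul_of_one_le_right (by positivity) h4
  calc 1 + Real.log (1 / (κ ^ 2 * q ^ 242)) ≤ 1 / q + (2 / κ * (1 / q) + 242 * (1 / q)) := by
        rw [h1]
        have h6 : 2 * Real.log (1 / κ) ≤ 2 / κ := by
          calc 2 * Real.log (1 / κ) ≤ 2 * (1 / κ) := by linarith
            _ = 2 / κ := by ring
        linarith
    _ = (243 + 2 / κ) / q := by ring

lemma DGD_inv {C₁ : ℝ} (hC₁ : 0 ≤ C₁) (hκ : 0 < κ) (hκ1 : κ ≤ 1) (h : Reg W R₀ R a f Q θ q)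
    (hb : ∀ (ω : ℝ → ℝ) (t M c : ℝ), MixOk ω t M c → c * t ≤ 1 → 0 ≤ M →
      Summable (fun p => mixh ω t p / Real.sqrt (ksq p)) ∧
      ∑' p, mixh ω t p / Real.sqrt (ksq p) ≤ C₁ * M * (1 + Real.log (1 / (c * t)))) :
    Summable (fun p => mixh (omu κ q a) (tq q a) p / Real.sqrt (ksq p)) ∧
    ∑' p, mixh (omu κ q a) (tq q a) p / Real.sqrt (ksq p)
      ≤ 8 * Real.pi * C₁ * (243 + 2 / κ) * a / q := by
  have hM := DGD_M h
  have hq := h.q_pos
  have ha := h.a_pos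
  have hπ := Real.pi_pos
  have hct := DGD_ct hκ hq ha
  have hct1 : κ ^ 2 / lq q a ^ 2 * tq q a ≤ 1 := by
    rw [hct]
    exact mul_le_one₀ (pow_le_one₀ hκ.le hκ1) (by positivity)
      (pow_le_one₀ hq.le (by linarith [h.q_le]))
  obtain ⟨h1, h2⟩ := hb _ _ _ _ (omu_ok hκ h.q_pos h.q_le h.a_pos) hct1 hM.1
  refine ⟨h1, h2.trans ?_⟩
  rw [hct]
  have hlog := DGD_log hκ hκ1 hq h.q_le
  calc C₁ * (4 * Real.pi * auq q a) * (1 + Real.log (1 / (κ ^ 2 * q ^ 242)))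
      ≤ C₁ * (4 * Real.pi * auq q a) * ((243 + 2 / κ) / q) :=
        mul_le_mul_of_nonneg_left hlog (mul_nonneg hC₁ hM.1)
    _ ≤ C₁ * (8 * Real.pi * a) * ((243 + 2 / κ) / q) := by
        gcongr C₁ * ?_ * _
        exact hM.2
    _ = 8 * Real.pi * C₁ * (243 + 2 / κ) * a / q := by ring

lemma DGD_d1 (hκ : 0 < κ) (h : Reg W R₀ R a f Q θ q) (α : Fin 3) :
    ∫ z, |mix1 (omu κ q a) (tq q a) α z| ∂lam3 ≤ 64 * Real.pi / κ * a ^ 2 / q ^ 200 := by
  have hM := DGD_M h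
  have hq := h.q_pos
  have ha := h.a_pos
  have hl := DGD_lq_pos hq ha
  have h1 := int_mix1_le (omu_ok hκ h.q_pos h.q_le h.a_pos) α
  rw [DGD_sqrtc hκ hq ha] at h1
  calc ∫ z, |mix1 (omu κ q a) (tq q a) α z| ∂lam3
      ≤ 8 * (4 * Real.pi * auq q a) / (κ / lq q a) := h1
    _ ≤ 8 * (8 * Real.pi * a) / (κ / lq q a) := by
        gcongr 8 * ?_ / _
        exact hM.2
    _ = 64 * Real.pi / κ * a ^ 2 / q ^ 200 := by unfold lq; field_simp; ring

lemma DGD_d2 (hκ : 0 < κ) (h : Reg W R₀ R a f Q θ q) (α : Fin 3) :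
    ∫ z, mix1 (omu κ q a) (tq q a) α z ^ 2 ∂lam3
      ≤ 256 * Real.pi ^ 2 * (1 / κ ^ 2 + 1) * a * q ^ 78 := by
  have hM := DGD_M h
  have hq := h.q_pos
  have ha := h.a_pos
  have hπ := Real.pi_pos
  have hok := omu_ok hκ h.q_pos h.q_le h.a_pos
  calc ∫ z, mix1 (omu κ q a) (tq q a) α z ^ 2 ∂lam3
      ≤ (4 * Real.pi * auq q a) * mix0 (omu κ q a) (tq q a) 0 := int_mix1_sq_le hok α
    _ ≤ (8 * Real.pi * a) * (32 * Real.pi * (1 / κ ^ 2 + 1) * q ^ 78) :=
        mul_le_mul hM.2 (DGD_ul hκ h 0) (mix0_nonneg hok 0) (by positivity)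
    _ = 256 * Real.pi ^ 2 * (1 / κ ^ 2 + 1) * a * q ^ 78 := by ring

lemma DGD_dd (hκ : 0 < κ) (h : Reg W R₀ R a f Q θ q) (α β : Fin 3) :
    ∫ z, |mix2 (omu κ q a) (tq q a) α β z| * rr z ∂lam3
      ≤ 400 * Real.pi / κ * a ^ 2 / q ^ 200 := by
  have hM := DGD_M h
  have hq := h.q_pos
  have ha := h.a_pos
  have hl := DGD_lq_pos hq ha
  have h1 := int_mix2_rr_le (omu_ok hκ h.q_pos h.q_le h.a_pos) α β
  rw [DGD_sqrtc hκ hq ha] at h1
  calc ∫ z, |mix2 (omu κ q a) (tq q a) α β z| * rr z ∂lam3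
      ≤ 50 * (4 * Real.pi * auq q a) / (κ / lq q a) := h1
    _ ≤ 50 * (8 * Real.pi * a) / (κ / lq q a) := by
        gcongr 50 * ?_ / _
        exact hM.2
    _ = 400 * Real.pi / κ * a ^ 2 / q ^ 200 := by unfold lq; field_simp; ring

/-- sup of the second derivatives -/
lemma DGD_sup (hκ : 0 < κ) (h : Reg W R₀ R a f Q θ q) (α β : Fin 3) (x : T3) :
    |mix2 (omu κ q a) (tq q a) α β x|
      ≤ 192 * Real.pi * a * (1 / (κ ^ 2 * q ^ 242) + q ^ 237 / a ^ 3) := by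
  have hM := DGD_M h
  have hq := h.q_pos
  have ha := h.a_pos
  have h1 := abs_mix2_le (omu_ok hκ h.q_pos h.q_le h.a_pos) α β x
  rw [DGD_ct hκ hq ha, sqrt_tq hq ha] at h1
  calc |mix2 (omu κ q a) (tq q a) α β x|
      ≤ 24 * (4 * Real.pi * auq q a) * (1 / (κ ^ 2 * q ^ 242) + 1 / (a / q ^ 79) ^ 3) := h1
    _ ≤ 24 * (8 * Real.pi * a) * (1 / (κ ^ 2 * q ^ 242) + 1 / (a / q ^ 79) ^ 3) := by
        gcongr 24 * ?_ * _
        exact hM.2
    _ = 192 * Real.pi * a * (1 / (κ ^ 2 * q ^ 242) + q ^ 237 / a ^ 3) := by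
        rw [div_pow, one_div_div, ← pow_mul]; ring

lemma DGD_ddc (hκ : 0 < κ) (h : Reg W R₀ R a f Q θ q) (α β : Fin 3) :
    ∫ z, (1 - fs q a f (rr z) ^ 2) * (|mix2 (omu κ q a) (tq q a) α β z| * rr z) ∂lam3
      ≤ 768 * Real.pi ^ 2 * (1 / κ ^ 2 + 1) * a ^ 2 * q ^ 110 / q ^ 200 := by
  have hq := h.q_pos
  have ha := h.a_pos
  have hπ := Real.pi_pos
  have hok := omu_ok hκ h.q_pos h.q_le h.a_pos
  have hD := DPot_ok hκ h
  have hF : BM (fun x : T3 => fs q a f (rr x) ^ 2) :=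
    ⟨(hD.Fc_WD 0).sm.measurable, 1, fun x => by
      have h1 := hD.Fc_nonneg x
      have h2 := hD.Fc_le x
      simp only [DPot] at h1 h2
      rw [abs_of_nonneg h1]; exact h2⟩
  have hF1 : ∀ x : T3, 0 ≤ 1 - fs q a f (rr x) ^ 2 := fun x => by
    have h2 := hD.Fc_le x
    simp only [DPot] at h2
    linarith
  set S := 192 * Real.pi * a * (1 / (κ ^ 2 * q ^ 242) + q ^ 237 / a ^ 3) with hS
  have hS0 : 0 ≤ S := by positivity
  have hI : Integrable (fun z : T3 => (1 - fs q a f (rr z) ^ 2) * rr z) lam3 :=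
    (((BM.const 1).sub hF).mul JData.rr_bm').integrable _
  calc ∫ z, (1 - fs q a f (rr z) ^ 2) * (|mix2 (omu κ q a) (tq q a) α β z| * rr z) ∂lam3
      ≤ ∫ z, S * ((1 - fs q a f (rr z) ^ 2) * rr z) ∂lam3 := by
        refine integral_mono_of_nonneg (Eventually.of_forall fun z => ?_) (hI.const_mul S)
          (Eventually.of_forall fun z => ?_)
        · exact mul_nonneg (hF1 z) (mul_nonneg (abs_nonneg _) (rr_nonneg z))
        · have h1 := DGD_sup hκ h α β z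
          have h2 : 0 ≤ (1 - fs q a f (rr z) ^ 2) * rr z := mul_nonneg (hF1 z) (rr_nonneg z)
          calc (1 - fs q a f (rr z) ^ 2) * (|mix2 (omu κ q a) (tq q a) α β z| * rr z)
              = |mix2 (omu κ q a) (tq q a) α β z| * ((1 - fs q a f (rr z) ^ 2) * rr z) := by ring
            _ ≤ S * ((1 - fs q a f (rr z) ^ 2) * rr z) := mul_le_mul_of_nonneg_right h1 h2
    _ = S * ∫ z, (1 - fs q a f (rr z) ^ 2) * rr z ∂lam3 := integral_const_mul _ _
    _ ≤ S * (4 * Real.pi * a * bq q a ^ 3) := mul_le_mul_of_nonneg_left h.Ic_rr_le hS0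
    _ = 768 * Real.pi ^ 2 * a ^ 2 * (1 / κ ^ 2 * (a ^ 3 / q ^ 482) + 1 / q ^ 3) := by
        rw [hS]; unfold bq; field_simp; ring
    _ ≤ 768 * Real.pi ^ 2 * a ^ 2 * (1 / κ ^ 2 * (1 / q ^ 90) + 1 / q ^ 90) := by
        have e1 : a ^ 3 / q ^ 482 ≤ 1 / q ^ 90 := by
          rw [div_le_div_iff₀ (by positivity) (by positivity), one_mul]
          have e2 : a ^ 3 ≤ (q ^ 1000) ^ 3 := pow_le_pow_left₀ ha.le h.aq 3
          calc a ^ 3 * q ^ 90 ≤ (q ^ 1000) ^ 3 * 1 := by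
                gcongr
                exact pow_le_one₀ hq.le (by linarith [h.q_le])
            _ ≤ q ^ 482 := by
                rw [mul_one, ← pow_mul]; exact DGD_pow hq h.q_le (by norm_num)
        have e3 : 1 / q ^ 3 ≤ 1 / q ^ 90 :=
          one_div_le_one_div_of_le (by positivity) (DGD_pow hq h.q_le (by norm_num))
        gcongr
    _ = 768 * Real.pi ^ 2 * (1 / κ ^ 2 + 1) * a ^ 2 * q ^ 110 / q ^ 200 := by
        have e4 : (1:ℝ) / q ^ 90 = q ^ 110 / q ^ 200 := by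
          rw [div_eq_div_iff (by positivity) (by positivity), one_mul, ← pow_add]
        rw [e4]; ring

lemma DGD_Ic (h : Reg W R₀ R a f Q θ q) (hN : (N : ℝ) * a ^ 3 = q ^ 400) :
    (N : ℝ) * ∫ z, (1 - fs q a f (rr z) ^ 2) ∂lam3 ≤ 4 * Real.pi * q ^ 240 := by
  have hq := h.q_pos
  have ha := h.a_pos
  calc (N : ℝ) * ∫ z, (1 - fs q a f (rr z) ^ 2) ∂lam3
      ≤ N * (4 * Real.pi * a * bq q a ^ 2) := mul_le_mul_of_nonneg_left h.Ic_le (Nat.cast_nonneg _)
    _ = 4 * Real.pi * ((N * a ^ 3) / q ^ 160) := by unfold bq; ring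
    _ = 4 * Real.pi * q ^ 240 := by
        have e : q ^ 400 / q ^ 160 = q ^ 240 := by
          rw [div_eq_iff (by positivity), ← pow_add]
        rw [hN, e]

end

theorem DPot_GD {κ : ℝ} (hκ : 0 < κ) (hκ1 : κ ≤ 1) : ∃ C : ℝ, 1 ≤ C ∧
    ∀ (W f Q : ℝ → ℝ) (R₀ R a θ q : ℝ) (N : ℕ), Reg W R₀ R a f Q θ q →
      (N : ℝ) * a ^ 3 = q ^ 400 → (DPot κ q a f Q W).GD C q a N := by
  obtain ⟨C₁, hC₁, hb₁⟩ := mixh_div_sqrt_tsum
  obtain ⟨C₂, hC₂, hb₂⟩ := mixh_cos_tsum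
  obtain ⟨C₃, hC₃, hb₃⟩ := kcr_int
  have hπ := Real.pi_pos
  obtain ⟨c1, hc1⟩ : ∃ c, c = 8 * Real.pi / κ ^ 2 := ⟨_, rfl⟩
  obtain ⟨c2, hc2⟩ : ∃ c, c = 8 * Real.pi := ⟨_, rfl⟩
  obtain ⟨c3, hc3⟩ : ∃ c, c = 32 * Real.pi * (1 / κ ^ 2 + 1) := ⟨_, rfl⟩
  obtain ⟨c4, hc4⟩ : ∃ c, c = 256 * Real.pi ^ 2 * (1 / κ ^ 4 + 4 / κ) := ⟨_, rfl⟩
  obtain ⟨c5, hc5⟩ : ∃ c, c = 8 * Real.pi * C₁ * (243 + 2 / κ) := ⟨_, rfl⟩
  obtain ⟨c6, hc6⟩ : ∃ c, c = 8 * Real.pi * C₂ := ⟨_, rfl⟩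
  obtain ⟨c7, hc7⟩ : ∃ c, c = 64 * Real.pi / κ := ⟨_, rfl⟩
  obtain ⟨c8, hc8⟩ : ∃ c, c = 256 * Real.pi ^ 2 * (1 / κ ^ 2 + 1) := ⟨_, rfl⟩
  obtain ⟨c9, hc9⟩ : ∃ c, c = 400 * Real.pi / κ := ⟨_, rfl⟩
  obtain ⟨c10, hc10⟩ : ∃ c, c = 768 * Real.pi ^ 2 * (1 / κ ^ 2 + 1) := ⟨_, rfl⟩
  obtain ⟨c11, hc11⟩ : ∃ c, c = 4 * Real.pi := ⟨_, rfl⟩
  have p1 : 0 ≤ c1 := by rw [hc1]; positivity
  have p2 : 0 ≤ c2 := by rw [hc2]; positivity
  have p3 : 0 ≤ c3 := by rw [hc3]; positivity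
  have p4 : 0 ≤ c4 := by rw [hc4]; positivity
  have p5 : 0 ≤ c5 := by rw [hc5]; positivity
  have p6 : 0 ≤ c6 := by rw [hc6]; positivity
  have p7 : 0 ≤ c7 := by rw [hc7]; positivity
  have p8 : 0 ≤ c8 := by rw [hc8]; positivity
  have p9 : 0 ≤ c9 := by rw [hc9]; positivity
  have p10 : 0 ≤ c10 := by rw [hc10]; positivity
  have p11 : 0 ≤ c11 := by rw [hc11]; positivity
  obtain ⟨C, hC⟩ : ∃ C, C = 1 + c1 + c2 + c3 + c4 + c5 + c6 + c7 + c8 + c9 + c10 + c11 + C₃ :=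
    ⟨_, rfl⟩
  have l0 : 1 ≤ C := by linarith
  have l1 : c1 ≤ C := by linarith
  have l2 : c2 ≤ C := by linarith
  have l3 : c3 ≤ C := by linarith
  have l4 : c4 ≤ C := by linarith
  have l5 : c5 ≤ C := by linarith
  have l6 : c6 ≤ C := by linarith
  have l7 : c7 ≤ C := by linarith
  have l8 : c8 ≤ C := by linarith
  have l9 : c9 ≤ C := by linarith
  have l10 : c10 ≤ C := by linarith
  have l11 : c11 ≤ C := by linarith
  have l12 : C₃ ≤ C := by linarith
  refine ⟨C, l0, fun W f Q R₀ R a θ q N h hN => ?_⟩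
  have hq := h.q_pos
  have ha := h.a_pos
  have hM := DGD_M h
  have hok := omu_ok hκ h.q_pos h.q_le h.a_pos
  have hinv := DGD_inv hC₁ hκ hκ1 h hb₁
  rw [← hc5] at hinv
  constructor
  · exact DPot_ok hκ h
  · exact l0
  · exact hq
  · linarith [h.q_le]
  · exact ha
  · exact hN
  · exact DGD_Nq h hN
  · exact ((DGD_uh0 hκ h hN).trans_eq hc1.symm).trans l1
  · exact fun p => mixh_le_zero hok p
  · intro p
    calc ksq p * mixh (omu κ q a) (tq q a) p ≤ 4 * Real.pi * auq q a := ksq_mul_mixh_le hok p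
      _ ≤ c2 * a := by rw [hc2]; exact hM.2
      _ ≤ C * a := mul_le_mul_of_nonneg_right l2 ha.le
  · intro x
    calc mix0 (omu κ q a) (tq q a) x ≤ c3 * q ^ 78 := by rw [hc3]; exact DGD_ul hκ h x
      _ ≤ C * q ^ 78 := mul_le_mul_of_nonneg_right l3 (by positivity)
  · calc (N : ℝ) * ∑' p, mixh (omu κ q a) (tq q a) p ^ 2 ≤ c4 * q ^ 200 := by
          rw [hc4]; exact DGD_sq hκ h hN
      _ ≤ C * q ^ 200 := mul_le_mul_of_nonneg_right l4 (by positivity)
  · refine ⟨hinv.1, hinv.2.trans ?_⟩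
    gcongr
  · intro z
    calc ∑' p, mixh (omu κ q a) (tq q a) p / ksq p * (1 - (ch p z).re)
        ≤ C₂ * (4 * Real.pi * auq q a) * rr z := (hb₂ _ _ _ _ hok z).2
      _ ≤ C₂ * (8 * Real.pi * a) * rr z :=
          mul_le_mul_of_nonneg_right (mul_le_mul_of_nonneg_left hM.2 hC₂) (rr_nonneg z)
      _ = c6 * a * rr z := by rw [hc6]; ring
      _ ≤ C * a * rr z :=
          mul_le_mul_of_nonneg_right (mul_le_mul_of_nonneg_right l6 ha.le) (rr_nonneg z)
  · intro α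
    calc ∫ z, |mix1 (omu κ q a) (tq q a) α z| ∂lam3 ≤ c7 * a ^ 2 / q ^ 200 := by
          rw [hc7]; exact DGD_d1 hκ h α
      _ ≤ C * a ^ 2 / q ^ 200 := by gcongr
  · intro α
    calc ∫ z, mix1 (omu κ q a) (tq q a) α z ^ 2 ∂lam3 ≤ c8 * a * q ^ 78 := by
          rw [hc8]; exact DGD_d2 hκ h α
      _ ≤ C * a * q ^ 78 := by gcongr
  · intro α β
    calc ∫ z, |mix2 (omu κ q a) (tq q a) α β z| * rr z ∂lam3 ≤ c9 * a ^ 2 / q ^ 200 := by
          rw [hc9]; exact DGD_dd hκ h α β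
      _ ≤ C * a ^ 2 / q ^ 200 := by gcongr
  · intro α β
    calc ∫ z, (1 - fs q a f (rr z) ^ 2) * (|mix2 (omu κ q a) (tq q a) α β z| * rr z) ∂lam3
        ≤ c10 * a ^ 2 * q ^ 110 / q ^ 200 := by rw [hc10]; exact DGD_ddc hκ h α β
      _ ≤ C * a ^ 2 * q ^ 110 / q ^ 200 := by gcongr
  · calc (N : ℝ) * ∫ z, (1 - fs q a f (rr z) ^ 2) ∂lam3 ≤ c11 * q ^ 240 := by
          rw [hc11]; exact DGD_Ic h hN
      _ ≤ C * q ^ 240 := mul_le_mul_of_nonneg_right l11 (by positivity)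
  · calc ∫ z, kcr q a f Q W (rr z) * rr z ∂lam3 ≤ C₃ * a ^ 2 * q ^ 110 / q ^ 200 :=
          hb₃ W f Q R₀ R a θ q h
      _ ≤ C * a ^ 2 * q ^ 110 / q ^ 200 := by gcongr

end Pool.Agent.Lib.MP_4952d6_mp

end

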