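import Pool.Agent.Lib.MP_4952d6_mp.Pk.G13
import Pool.Agent.Lib.MP_4952d6_mp.Pk.G14
import Pool.Agent.Lib.MP_4952d6_mp.Pk.G32
import Pool.Agent.Lib.MP_4952d6_mp.Pk.G33
import Pool.Agent.Lib.MP_4952d6_mp.Pk.G38

/-! Merged modules (to save import time): LB.KT, LB.ChgDefs, Field, LB.ChgA, Charge. -/

/-! ### LB.KT -/

section

/-!
# LB.KT: the operators `kap t`, `kap' t` as time integrals of heat kernels

`kap t p = ∫₀^{t/2} exp(-u ksq p) du` (`kap_eq_integral`). `kap_inner`: expand both sides with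
`hasSum_inner` and `cf_S1`, exchange sum and integral (`∑ |conj(cf A k) cf B k| < ∞`, `0 ≤ exp ≤ 1`:
`intervalIntegral.hasSum_integral_of_dominated_convergence` or `integral_tsum`).
`kap_diag`: `kap_inner`, `pair_ker` with `l = m`, `w = hk u` (`u > 0`), then Fubini
`∫₀^{t/2} qf (h cn(hk u) h) A du = qf (h KK) A`.
`KK`, `WT` are bounded measurable: `(u, z) ↦ cn (hk u) h z` is measurable (`hkD_measurable`), bounded by
`sup |h|` (`hk_integral`). `fc3_KK`: Fubini and `fc3_hk`, `fc3 (cn w h) = fc3 w fc3 h`; same for the integral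
over `(t/2, t)`: `∫_{t/2}^t exp(-u q) du = exp(-t q/2) (1 - exp(-t q/2))/q = et · kap'` for `q ≠ 0`, `t/2` for `q = 0`.
`wt_HP`: compare coefficients (`cf_HP_zero`), `et` is even and `k l = - k j`.
-/

set_option autoImplicit false
set_option linter.unusedSectionVars false
set_option linter.unusedVariables false
open MeasureTheory Function Filter Topology Set ComplexConjugate

namespace Pool.Agent.Lib.MP_4952d6_mp.LB

variable {ι : Type*} [Fintype ι] [DecidableEq ι]

/-- `∫₀^{t/2} p_u * h du` -/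
noncomputable def KK (t : ℝ) (h : T3 → ℝ) (z : T3) : ℝ := ∫ u in (0:ℝ)..(t / 2), cn (hk u) h z

/-- `∫₀^{t/2} p_u * h du - ∫_{t/2}^t p_u * h du` -/
noncomputable def WT (t : ℝ) (h : T3 → ℝ) (z : T3) : ℝ :=
  KK t h z - ∫ u in (t / 2)..t, cn (hk u) h z

/-! ### the kernel as a function of time and position -/

lemma KT_cn_meas {h : T3 → ℝ} (hh : BM h) :
    Measurable fun q : ℝ × T3 => cn (hk q.1) h q.2 := by
  have h1 : Measurable fun r : (ℝ × T3) × T3 => hk r.1.1 (r.1.2 - r.2) * h r.2 := by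
    have h2 : Measurable fun r : (ℝ × T3) × T3 => ((r.1.1, r.1.2 - r.2) : ℝ × T3) :=
      (measurable_fst.comp measurable_fst).prodMk
        ((measurable_snd.comp measurable_fst).sub measurable_snd)
    exact ((hkD_measurable 0).comp h2).mul (hh.1.comp measurable_snd)
  have h3 := (StronglyMeasurable.integral_prod_right' (ν := lam3) h1.stronglyMeasurable).measurable
  exact h3

/-- `KT_cn_meas`, composed (avoids slow higher order unification). -/
private lemma KT_cn_measc {α : Type*} [MeasurableSpace α] {h : T3 → ℝ} (hh : BM h) {a : α → ℝ}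
    {b : α → T3} (ha : Measurable a) (hb : Measurable b) :
    Measurable fun x => cn (hk (a x)) h (b x) := by
  have h1 : Measurable ((fun q : ℝ × T3 => cn (hk q.1) h q.2) ∘ fun x => (a x, b x)) :=
    Measurable.comp (KT_cn_meas hh) (ha.prodMk hb)
  exact h1

lemma KT_cn_bound {h : T3 → ℝ} {C : ℝ} (hC : ∀ z, |h z| ≤ C) {u : ℝ} (hu : 0 < u) (z : T3) :
    |cn (hk u) h z| ≤ C := by
  have hb := (hk_bm hu)
  have h1 : ∫ y, hk u (z - y) ∂lam3 = 1 := by
    rw [int_sub_left (fun y => hk u y) z]; exact hk_integral hu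
  have h2 : Integrable (fun y => hk u (z - y)) lam3 :=
    (hb.comp (measurable_const.sub measurable_id)).integrable lam3
  have h3 : ‖∫ y, hk u (z - y) * h y ∂lam3‖ ≤ ∫ y, hk u (z - y) * C ∂lam3 := by
    apply norm_integral_le_of_norm_le (h2.mul_const C)
    refine Filter.Eventually.of_forall fun y => ?_
    rw [Real.norm_eq_abs, abs_mul, abs_of_nonneg (hk_nonneg u _)]
    exact mul_le_mul_of_nonneg_left (hC y) (hk_nonneg u _)
  rw [integral_mul_const, h1, one_mul] at h3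
  exact h3

lemma KT_int_bm {a b : ℝ} (ha : 0 ≤ a) (hab : a ≤ b) {h : T3 → ℝ} (hh : BM h) :
    BM (fun z => ∫ u in a..b, cn (hk u) h z) := by
  obtain ⟨C, hC0, hC⟩ := hh.exists_nonneg_bound
  refine ⟨?_, C * |b - a|, fun z => ?_⟩
  · have h1 : Measurable fun q : T3 × ℝ => cn (hk q.2) h q.1 :=
      KT_cn_measc (a := fun q : T3 × ℝ => q.2) (b := fun q : T3 × ℝ => q.1) hh
        measurable_snd measurable_fst
    have h2 := (StronglyMeasurable.integral_prod_right' (ν := volume.restrict (Ioc a b))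
      h1.stronglyMeasurable).measurable
    have h3 : (fun z => ∫ u in a..b, cn (hk u) h z)
        = fun z => ∫ u in Ioc a b, cn (hk u) h z := by
      funext z
      rw [intervalIntegral.integral_of_le hab]
    rw [h3]
    exact h2
  · have h1 := intervalIntegral.norm_integral_le_of_norm_le_const (a := a) (b := b) (C := C)
      (f := fun u => cn (hk u) h z) (fun u hu => by
        rw [uIoc_of_le hab] at hu
        exact KT_cn_bound hC (lt_of_le_of_lt ha hu.1) z)
    exact h1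

lemma KK_bm {t : ℝ} (ht : 0 < t) {h : T3 → ℝ} (hh : BM h) : BM (KK t h) :=
  KT_int_bm le_rfl (by positivity) hh

lemma WT_bm {t : ℝ} (ht : 0 < t) {h : T3 → ℝ} (hh : BM h) : BM (WT t h) :=
  (KK_bm ht hh).sub (KT_int_bm (by positivity) (by linarith) hh)

lemma KK_nonneg {t : ℝ} (ht : 0 < t) {h : T3 → ℝ} (hh : ∀ z, 0 ≤ h z) (z : T3) : 0 ≤ KK t h z := by
  refine intervalIntegral.integral_nonneg (by positivity) fun u _ => ?_
  exact cn_nonneg (hk_nonneg u) hh z

lemma bdm_exp {u : ℝ} (hu : 0 ≤ u) : Bdm fun p : Fin 3 → ℤ => Real.exp (-(u * ksq p)) := by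
  refine ⟨1, fun p => ?_⟩
  rw [abs_of_pos (Real.exp_pos _)]
  apply Real.exp_le_one_iff.2
  have := mul_nonneg hu (ksq_nonneg p)
  linarith

lemma KT_re (r : ℝ) (a b : ℂ) : (conj a * ((r : ℂ) * b)).re = r * (conj a * b).re := by
  have h1 : conj a * ((r : ℂ) * b) = (r : ℂ) * (conj a * b) := by ring
  rw [h1, Complex.re_ofReal_mul]

theorem kap_inner {t : ℝ} (ht : 0 < t) (j : ι) (A B : HS ι) :
    (inner ℂ A (S1 (kap t) j B)).re
      = ∫ u in (0:ℝ)..(t / 2), (inner ℂ A (S1 (fun p => Real.exp (-(u * ksq p))) j B)).re := by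
  have h1 : HasSum (fun k : ι → Fin 3 → ℤ => kap t (k j) * (conj (cf A k) * cf B k).re)
      (inner ℂ A (S1 (kap t) j B)).re := by
    have h2 := hasSum_inner_re A (S1 (kap t) j B)
    have h3 : (fun k : ι → Fin 3 → ℤ => (conj (cf A k) * cf (S1 (kap t) j B) k).re)
        = fun k => kap t (k j) * (conj (cf A k) * cf B k).re := by
      funext k
      rw [cf_S1 (bdm_kap ht.le), KT_re]
    rwa [h3] at h2
  have hs : Summable fun k : ι → Fin 3 → ℤ => |(conj (cf A k) * cf B k).re| :=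
    (hasSum_inner_re A B).summable.abs
  have h4 : HasSum (fun k : ι → Fin 3 → ℤ => ∫ u in (0:ℝ)..(t / 2),
      Real.exp (-(u * ksq (k j))) * (conj (cf A k) * cf B k).re)
      (∫ u in (0:ℝ)..(t / 2), (inner ℂ A (S1 (fun p => Real.exp (-(u * ksq p))) j B)).re) := by
    refine intervalIntegral.hasSum_integral_of_dominated_convergence
      (fun k _ => |(conj (cf A k) * cf B k).re|) ?_ ?_ ?_ ?_ ?_
    · intro k
      have hc : Continuous fun u : ℝ => Real.exp (-(u * ksq (k j))) * (conj (cf A k) * cf B k).re := by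
        fun_prop
      exact hc.aestronglyMeasurable
    · intro k
      refine Filter.Eventually.of_forall fun u hu => ?_
      rw [uIoc_of_le (by positivity)] at hu
      rw [Real.norm_eq_abs, abs_mul, abs_of_pos (Real.exp_pos _)]
      have h5 : Real.exp (-(u * ksq (k j))) ≤ 1 := by
        apply Real.exp_le_one_iff.2
        have := mul_nonneg hu.1.le (ksq_nonneg (k j))
        linarith
      calc Real.exp (-(u * ksq (k j))) * |(conj (cf A k) * cf B k).re|
          ≤ 1 * |(conj (cf A k) * cf B k).re| := mul_le_mul_of_nonneg_right h5 (abs_nonneg _)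
        _ = |(conj (cf A k) * cf B k).re| := one_mul _
    · exact Filter.Eventually.of_forall fun u _ => hs
    · exact intervalIntegrable_const
    · refine Filter.Eventually.of_forall fun u hu => ?_
      rw [uIoc_of_le (by positivity)] at hu
      have h2 := hasSum_inner_re A (S1 (fun p => Real.exp (-(u * ksq p))) j B)
      have h3 : (fun k : ι → Fin 3 → ℤ =>
            (conj (cf A k) * cf (S1 (fun p => Real.exp (-(u * ksq p))) j B) k).re)
          = fun k => Real.exp (-(u * ksq (k j))) * (conj (cf A k) * cf B k).re := by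
        funext k
        rw [cf_S1 (bdm_exp hu.1.le), KT_re]
      rwa [h3] at h2
  have h6 : (fun k : ι → Fin 3 → ℤ => ∫ u in (0:ℝ)..(t / 2),
      Real.exp (-(u * ksq (k j))) * (conj (cf A k) * cf B k).re)
      = fun k => kap t (k j) * (conj (cf A k) * cf B k).re := by
    funext k
    rw [intervalIntegral.integral_mul_const, ← kap_eq_integral]
  rw [h6] at h4
  exact h1.unique h4

theorem kap_le_of {t : ℝ} (ht : 0 < t) (j : ι) (A B : HS ι) {M : ℝ}
    (hM : ∀ u, 0 < u → u ≤ t / 2 →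
      |(inner ℂ A (S1 (fun p => Real.exp (-(u * ksq p))) j B)).re| ≤ M) :
    |(inner ℂ A (S1 (kap t) j B)).re| ≤ t / 2 * M := by
  rw [kap_inner ht]
  have h1 := intervalIntegral.norm_integral_le_of_norm_le_const (a := 0) (b := t / 2) (C := M)
    (f := fun u => (inner ℂ A (S1 (fun p => Real.exp (-(u * ksq p))) j B)).re) (fun u hu => by
      rw [uIoc_of_le (by positivity)] at hu
      exact hM u hu.1 hu.2)
  rw [sub_zero, abs_of_pos (by positivity)] at h1
  rw [mul_comm]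
  exact h1

/-- `pair_ker` for the heat kernel. -/
theorem KT_pair_hk {u : ℝ} (hu : 0 < u) {h : T3 → ℝ} (hh : BM h)
    (hh0 : ∀ z, 0 ≤ h z) (hhe : ∀ z, h (-z) = h z) {j l m : ι} (hjl : j ≠ l) (hjm : j ≠ m)
    (A B : HS ι) :
    |(inner ℂ (HP h j l A) (S1 (fun p => Real.exp (-(u * ksq p))) j (HP h j m B))).re|
      ≤ 1 / 2 * qf (fun x => h (x j - x l) * cn (hk u) h (x j - x m)) A
        + 1 / 2 * qf (fun x => h (x j - x m) * cn (hk u) h (x j - x l)) B :=
  pair_ker (hk_bm hu) (hk_nonneg u) (hk_neg u) (bdm_exp hu.le) (fun p => fc3_hk hu p) hh hh0 hhe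
    hjl hjm A B

theorem kap_diag {t : ℝ} (ht : 0 < t) {h : T3 → ℝ} (hh : BM h) (hh0 : ∀ z, 0 ≤ h z)
    (hhe : ∀ z, h (-z) = h z) {j l : ι} (hjl : j ≠ l) (A : HS ι) :
    (inner ℂ (HP h j l A) (S1 (kap t) j (HP h j l A))).re
      ≤ qf (fun x => h (x j - x l) * KK t h (x j - x l)) A := by
  obtain ⟨C, hC0, hC⟩ := hh.exists_nonneg_bound
  have ht2 : (0:ℝ) ≤ t / 2 := by positivity
  rw [kap_inner ht, intervalIntegral.integral_of_le ht2]
  set F : ℝ → (ι → T3) → ℝ := fun u x => h (x j - x l) * cn (hk u) h (x j - x l) * ‖A x‖ ^ 2 with hF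
  have hdm : Measurable fun x : ι → T3 => x j - x l :=
    (measurable_pi_apply j).sub (measurable_pi_apply l)
  have hFi : Integrable (uncurry F) ((volume.restrict (Ioc 0 (t / 2))).prod (piN ι)) := by
    have hg : Integrable (fun q : ℝ × (ι → T3) => C * C * ‖A q.2‖ ^ 2)
        ((volume.restrict (Ioc 0 (t / 2))).prod (piN ι)) :=
      ((integrable_norm_sq A).const_mul (C * C)).comp_snd _
    refine hg.mono' ?_ ?_
    · have h1 : Measurable fun q : ℝ × (ι → T3) =>
          h (q.2 j - q.2 l) * cn (hk q.1) h (q.2 j - q.2 l) :=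
        ((hh.1.comp hdm).comp measurable_snd).mul
          (KT_cn_measc (a := fun q : ℝ × (ι → T3) => q.1)
            (b := fun q : ℝ × (ι → T3) => q.2 j - q.2 l) hh measurable_fst
            (hdm.comp measurable_snd))
      have h2 : AEStronglyMeasurable (fun q : ℝ × (ι → T3) => ‖A q.2‖ ^ 2)
          ((volume.restrict (Ioc 0 (t / 2))).prod (piN ι)) :=
        (((integrable_norm_sq A)).comp_snd _).aestronglyMeasurable
      exact h1.aestronglyMeasurable.mul h2
    · have h3 : ∀ᵐ q : ℝ × (ι → T3) ∂((volume.restrict (Ioc 0 (t / 2))).prod (piN ι)),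
          q.1 ∈ Ioc 0 (t / 2) := by
        have h4 : ∀ᵐ u ∂(volume.restrict (Ioc 0 (t / 2))), u ∈ Ioc 0 (t / 2) :=
          ae_restrict_mem measurableSet_Ioc
        exact Measure.quasiMeasurePreserving_fst.ae h4
      filter_upwards [h3] with q hq
      simp only [uncurry, hF]
      rw [Real.norm_eq_abs, abs_mul, abs_mul, abs_of_nonneg (sq_nonneg ‖A q.2‖)]
      exact mul_le_mul_of_nonneg_right
        (mul_le_mul (hC _) (KT_cn_bound hC hq.1 _) (abs_nonneg _) hC0) (sq_nonneg _)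
  have hq : ∀ u, qf (fun x => h (x j - x l) * cn (hk u) h (x j - x l)) A = ∫ x, F u x ∂(piN ι) :=
    fun u => rfl
  have hKK : qf (fun x => h (x j - x l) * KK t h (x j - x l)) A
      = ∫ u in Ioc 0 (t / 2), ∫ x, F u x ∂(piN ι) := by
    rw [integral_integral_swap hFi]
    unfold qf
    refine integral_congr_ae (Filter.Eventually.of_forall fun x => ?_)
    simp only [hF, KK]
    rw [integral_mul_const, integral_const_mul, intervalIntegral.integral_of_le ht2]
  rw [hKK]
  refine integral_mono_of_nonneg ?_ hFi.integral_prod_left ?_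
  · refine (ae_restrict_mem measurableSet_Ioc).mono fun u hu => ?_
    have h1 := hasSum_inner_DM (m := fun k : ι → Fin 3 → ℤ => Real.exp (-(u * ksq (k j))))
      ((bdm_exp hu.1.le).comp fun k : ι → Fin 3 → ℤ => k j) (HP h j l A)
    exact h1.nonneg fun k => mul_nonneg (Real.exp_pos _).le (sq_nonneg _)
  · refine (ae_restrict_mem measurableSet_Ioc).mono fun u hu => ?_
    have h1 := KT_pair_hk hu.1 hh hh0 hhe hjl hjl A A
    have h2 := le_abs_self (inner ℂ (HP h j l A)
      (S1 (fun p => Real.exp (-(u * ksq p))) j (HP h j l A))).re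
    have h3 := hq u
    show (inner ℂ (HP h j l A)
      (S1 (fun p => Real.exp (-(u * ksq p))) j (HP h j l A))).re ≤ ∫ x, F u x ∂(piN ι)
    rw [← h3]
    linarith

/-- `pair_ker` for the heat kernel. -/
theorem pair_hk {u : ℝ} (hu : 0 < u) {h : T3 → ℝ} (hh : BM h)
    (hh0 : ∀ z, 0 ≤ h z) (hhe : ∀ z, h (-z) = h z) {j l m : ι} (hjl : j ≠ l) (hjm : j ≠ m)
    (A B : HS ι) :
    |(inner ℂ (HP h j l A) (S1 (fun p => Real.exp (-(u * ksq p))) j (HP h j m B))).re|
      ≤ 1 / 2 * qf (fun x => h (x j - x l) * cn (hk u) h (x j - x m)) A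
        + 1 / 2 * qf (fun x => h (x j - x m) * cn (hk u) h (x j - x l)) B :=
  KT_pair_hk hu hh hh0 hhe hjl hjm A B

/-! ### Fourier coefficients -/

lemma KT_ch_norm_conj (p : Fin 3 → ℤ) (z : T3) : ‖conj (ch p z)‖ = 1 := by
  rw [RCLike.norm_conj, ch_norm]

lemma KT_fc3_cn {u : ℝ} (hu : 0 < u) {h : T3 → ℝ} (hh : BM h) (p : Fin 3 → ℤ) :
    fc3 (fun z => ((cn (hk u) h z : ℝ) : ℂ)) p
      = ((Real.exp (-(u * ksq p)) : ℝ) : ℂ) * fc3 (fun y => (h y : ℂ)) p := by
  obtain ⟨C, hC0, hC⟩ := hh.exists_nonneg_bound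
  obtain ⟨D, hD0, hD⟩ := (hk_bm hu).exists_nonneg_bound
  have hchm : Measurable fun z : T3 => conj (ch p z) :=
    (Complex.continuous_conj.comp (ch_continuous p)).measurable
  have hI : Integrable (uncurry fun (z y : T3) =>
      conj (ch p z) * (((hk u (z - y) * h y : ℝ)) : ℂ)) (lam3.prod lam3) := by
    refine Integrable.of_bound (C := D * C) ?_ (Filter.Eventually.of_forall fun q => ?_)
    · refine Measurable.aestronglyMeasurable ?_
      refine (hchm.comp measurable_fst).mul (Complex.measurable_ofReal.comp ?_)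
      exact (((hk_bm hu).1.comp (measurable_fst.sub measurable_snd)).mul
        (hh.1.comp measurable_snd))
    · simp only [uncurry]
      rw [norm_mul, KT_ch_norm_conj, one_mul, Complex.norm_real, Real.norm_eq_abs, abs_mul]
      exact mul_le_mul (hD _) (hC _) (abs_nonneg _) hD0
  have h1 : fc3 (fun z => ((cn (hk u) h z : ℝ) : ℂ)) p
      = ∫ z, ∫ y, conj (ch p z) * (((hk u (z - y) * h y : ℝ)) : ℂ) ∂lam3 ∂lam3 := by
    unfold fc3
    refine integral_congr_ae (Filter.Eventually.of_forall fun z => ?_)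
    simp only [cn]
    rw [integral_const_mul, integral_complex_ofReal]
  rw [h1, integral_integral_swap hI]
  have h2 : ∀ y : T3, ∫ z, conj (ch p z) * (((hk u (z - y) * h y : ℝ)) : ℂ) ∂lam3
      = ((Real.exp (-(u * ksq p)) : ℝ) : ℂ) * (conj (ch p y) * (h y : ℂ)) := by
    intro y
    have h3 : ∀ z : T3, conj (ch p z) * (((hk u (z - y) * h y : ℝ)) : ℂ)
        = (fun w : T3 => (conj (ch p w) * (hk u w : ℂ)) * (conj (ch p y) * (h y : ℂ))) (z - y) := by
      intro z
      have h4 : ch p z = ch p (z - y) * ch p y := by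
        rw [← ch_add_arg, sub_add_cancel]
      simp only
      rw [h4]
      push_cast
      rw [map_mul]
      ring
    simp_rw [h3]
    rw [int_sub_right (fun w : T3 => (conj (ch p w) * (hk u w : ℂ)) * (conj (ch p y) * (h y : ℂ))) y,
      integral_mul_const]
    have h5 := fc3_hk hu p
    unfold fc3 at h5
    rw [h5]
  simp_rw [h2]
  rw [integral_const_mul]
  rfl

lemma KT_fc3_int {a b : ℝ} (ha : 0 ≤ a) (hab : a ≤ b) {h : T3 → ℝ} (hh : BM h) (p : Fin 3 → ℤ) :
    fc3 (fun z => ((∫ u in a..b, cn (hk u) h z : ℝ) : ℂ)) p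
      = ((∫ u in a..b, Real.exp (-(u * ksq p)) : ℝ) : ℂ) * fc3 (fun y => (h y : ℂ)) p := by
  obtain ⟨C, hC0, hC⟩ := hh.exists_nonneg_bound
  have hchm : Measurable fun z : T3 => conj (ch p z) :=
    (Complex.continuous_conj.comp (ch_continuous p)).measurable
  have hI : Integrable (uncurry fun (z : T3) (u : ℝ) =>
      conj (ch p z) * ((cn (hk u) h z : ℝ) : ℂ)) (lam3.prod (volume.restrict (Ioc a b))) := by
    have h3 : ∀ᵐ q : T3 × ℝ ∂(lam3.prod (volume.restrict (Ioc a b))), q.2 ∈ Ioc a b := by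
      have h4 : ∀ᵐ u ∂(volume.restrict (Ioc a b)), u ∈ Ioc a b :=
        ae_restrict_mem measurableSet_Ioc
      exact Measure.quasiMeasurePreserving_snd.ae h4
    refine Integrable.of_bound (C := C) ?_ ?_
    · refine Measurable.aestronglyMeasurable ?_
      refine (hchm.comp measurable_fst).mul (Complex.measurable_ofReal.comp ?_)
      exact KT_cn_measc (a := fun q : T3 × ℝ => q.2) (b := fun q : T3 × ℝ => q.1) hh
        measurable_snd measurable_fst
    · filter_upwards [h3] with q hq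
      simp only [uncurry]
      rw [norm_mul, KT_ch_norm_conj, one_mul, Complex.norm_real, Real.norm_eq_abs]
      exact KT_cn_bound hC (lt_of_le_of_lt ha hq.1) _
  have h1 : fc3 (fun z => ((∫ u in a..b, cn (hk u) h z : ℝ) : ℂ)) p
      = ∫ z, (∫ u in Ioc a b, conj (ch p z) * ((cn (hk u) h z : ℝ) : ℂ)) ∂lam3 := by
    unfold fc3
    refine integral_congr_ae (Filter.Eventually.of_forall fun z => ?_)
    simp only
    rw [intervalIntegral.integral_of_le hab, integral_const_mul, integral_complex_ofReal]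
  rw [h1, integral_integral_swap hI]
  have h2 : ∫ u in Ioc a b, ∫ z, conj (ch p z) * ((cn (hk u) h z : ℝ) : ℂ) ∂lam3
      = ∫ u in Ioc a b, ((Real.exp (-(u * ksq p)) : ℝ) : ℂ) * fc3 (fun y => (h y : ℂ)) p := by
    refine integral_congr_ae ((ae_restrict_mem measurableSet_Ioc).mono fun u hu => ?_)
    exact KT_fc3_cn (lt_of_le_of_lt ha hu.1) hh p
  rw [h2, integral_mul_const, integral_complex_ofReal, intervalIntegral.integral_of_le hab]

theorem fc3_WT {t : ℝ} (ht : 0 < t) {h : T3 → ℝ} (hh : BM h) (p : Fin 3 → ℤ) :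
    fc3 (fun y => (WT t h y : ℂ)) p
      = ((kap' t p * (1 - et t p) : ℝ) : ℂ) * fc3 (fun y => (h y : ℂ)) p := by
  have ht2 : (0:ℝ) ≤ t / 2 := by positivity
  have ht3 : t / 2 ≤ t := by linarith
  have hchm : StronglyMeasurable fun z : T3 => conj (ch p z) :=
    (Complex.continuous_conj.comp (ch_continuous p)).stronglyMeasurable
  have hint : ∀ g : T3 → ℝ, BM g → Integrable (fun z => conj (ch p z) * (g z : ℂ)) lam3 := by
    intro g hg
    obtain ⟨C, hC0, hC⟩ := hg.exists_nonneg_bound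
    refine Integrable.of_bound (C := C) ?_ (Filter.Eventually.of_forall fun q => ?_)
    · exact hchm.aestronglyMeasurable.mul (Complex.measurable_ofReal.comp hg.1).aestronglyMeasurable
    · rw [norm_mul, KT_ch_norm_conj, one_mul, Complex.norm_real, Real.norm_eq_abs]
      exact hC _
  have h1 : fc3 (fun y => (WT t h y : ℂ)) p
      = fc3 (fun z => ((∫ u in (0:ℝ)..(t / 2), cn (hk u) h z : ℝ) : ℂ)) p
        - fc3 (fun z => ((∫ u in (t / 2)..t, cn (hk u) h z : ℝ) : ℂ)) p := by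
    unfold fc3
    rw [← integral_sub (hint _ (KT_int_bm le_rfl ht2 hh)) (hint _ (KT_int_bm ht2 ht3 hh))]
    refine integral_congr_ae (Filter.Eventually.of_forall fun z => ?_)
    simp only [WT, KK]
    push_cast
    ring
  rw [h1, KT_fc3_int le_rfl ht2 hh, KT_fc3_int ht2 ht3 hh, ← sub_mul]
  congr 1
  rw [← Complex.ofReal_sub]
  congr 1
  have hii : ∀ a b : ℝ, IntervalIntegrable (fun u : ℝ => Real.exp (-(u * ksq p))) volume a b := by
    intro a b
    apply Continuous.intervalIntegrable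
    fun_prop
  have h2 := intervalIntegral.integral_add_adjacent_intervals (hii 0 (t / 2)) (hii (t / 2) t)
  rw [← alp_eq_integral t p, ← kap_eq_integral t p] at h2
  rw [← kap_eq_integral t p]
  by_cases hp : p = 0
  · subst hp
    have h3 : alp t 0 = 0 := by simp [alp]
    have h4 : kap t 0 = t / 2 := by simp [kap]
    have h5 : kap' t 0 = 0 := by simp [kap']
    have h6 : pz 0 = 1 := by simp [pz]
    rw [h3, h4, h6] at h2
    rw [h4, h5]
    linarith
  · have h3 : alp t p = (1 - et t p ^ 2) / ksq p := by simp [alp, hp]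
    have h4 : kap t p = (1 - et t p) / ksq p := by simp [kap, hp]
    have h5 : kap' t p = (1 - et t p) / ksq p := by simp [kap', hp]
    have h6 : pz p = 0 := by simp [pz, hp]
    have hq := ksq_pos hp
    rw [h3, h4, h6] at h2
    rw [h4, h5]
    have h7 : (∫ u in (t / 2)..t, Real.exp (-(u * ksq p)))
        = (1 - et t p ^ 2) / ksq p - (1 - et t p) / ksq p := by linarith
    rw [h7]
    field_simp
    ring

lemma KT_bdm_one_sub {t : ℝ} (ht : 0 ≤ t) : Bdm fun p => 1 - et t p :=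
  (Bdm.const 1).sub (bdm_et ht)

theorem wt_HP {t : ℝ} (ht : 0 < t) {h : T3 → ℝ} (hh : BM h) {j l : ι} (hjl : j ≠ l) {f : HS ι}
    (hf : ∀ k : ι → Fin 3 → ℤ, ¬ (k j = 0 ∧ k l = 0) → cf f k = 0) :
    S1 (kap' t) j (QQ1 t l (HP h j l f)) = HP (WT t h) j l f := by
  refine cf_ext fun k => ?_
  unfold QQ1
  rw [cf_S1 (bdm_kap' ht.le), cf_S1 (KT_bdm_one_sub ht.le), cf_HP_zero hh hjl hf,
    cf_HP_zero (WT_bm ht hh) hjl hf]
  by_cases hk : k j + k l = 0
  · rw [if_pos hk, if_pos hk, fc3_WT ht hh]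
    have h1 : k l = - k j := (neg_eq_of_add_eq_zero_right hk).symm
    rw [h1, et_neg]
    push_cast
    ring
  · rw [if_neg hk, if_neg hk]
    simp

/-- On `h_{jl} f`, `f` constant in `x_j`, `x_l`: `kap' = kap (1 - Π_l)`. -/
theorem kap'_HP {t : ℝ} (ht : 0 < t) {h : T3 → ℝ} (hh : BM h) {j l : ι} (hjl : j ≠ l) {f : HS ι}
    (hf : ∀ k : ι → Fin 3 → ℤ, ¬ (k j = 0 ∧ k l = 0) → cf f k = 0) :
    S1 (kap' t) j (HP h j l f) = S1 (kap t) j (perp l (HP h j l f)) := by
  rw [perp_eq_S1]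
  refine cf_ext fun k => ?_
  rw [cf_S1 (bdm_kap' ht.le), cf_S1 (bdm_kap ht.le), cf_S1 ((Bdm.const 1).sub bdm_pz),
    cf_HP_zero hh hjl hf]
  by_cases hk : k j + k l = 0
  · rw [if_pos hk]
    have h1 : k l = - k j := (neg_eq_of_add_eq_zero_right hk).symm
    rw [h1]
    by_cases hk0 : k j = 0
    · rw [hk0]
      simp [kap', pz]
    · simp [kap', kap, pz, hk0]
  · rw [if_neg hk]
    simp

end Pool.Agent.Lib.MP_4952d6_mp.LB

end

/-! ### LB.ChgDefs -/

section

/-!
# LB.ChgDefs: statement of the charge block C6 (owner: helper23)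

`W` is half of the pair potential (Lib `Scat`: `-Δ f + W f = 0`), `h = 2 W f` outside the core plus a thin
charged shell inside the core, `k = 2 W f²` outside the core and `0` inside, `w = 1 - f` outside the core
(`w = (1/2)(-Δ)⁻¹ h`).
-/

set_option autoImplicit false
set_option linter.unusedSectionVars false
set_option linter.unusedVariables false
open MeasureTheory Function Filter Topology Set ComplexConjugate

namespace Pool.Agent.Lib.MP_4952d6_mp.LB

/-- Charge data. -/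
structure ChgD (W : ℝ → ℝ) (R₀ R a δ₁ C : ℝ) (h k w : T3 → ℝ) : Prop where
  sr : SR (8 * Real.pi * a) R h
  k_bm : BM k
  k_nonneg : ∀ z, 0 ≤ k z
  k_even : ∀ z, k (-z) = k z
  w_bm : BM w
  w_nonneg : ∀ z, 0 ≤ w z
  w_le : ∀ z, w z ≤ 2
  out : ∀ z, R₀ ≤ rr z → h z ^ 2 ≤ 2 * W (rr z) * k z
  two : ∀ z, h z * w z + (1 - δ₁) * h z ≤ 2 * h z - k z
  p1 : ∀ t, 0 < t → t ≤ 1 → R ^ 2 ≤ t →
    ∀ᵐ z ∂lam3, h z * KK t h z ≤ h z * (2 * w z + C * a * t)
  p2 : ∀ t, 0 < t → t ≤ 1 → R ^ 2 ≤ t →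
    ∀ᵐ z ∂lam3, h z * |WT t h z - 2 * w z| ≤ h z * (C * a / Real.sqrt t)
  p3 : ∀ t, 0 < t → t ≤ 1 → R ^ 2 ≤ t →
    8 * Real.pi * a ^ 2 / Real.sqrt (Real.pi * t) - C * a ^ 2 * (1 + R / t)
      ≤ (∫ z, h z * w z ∂lam3) - 1 / 2 * ∑' p, alp t p * ‖fc3 (fun y => (h y : ℂ)) p‖ ^ 2

/-- Statement of block C6. -/
def C6Statement : Prop :=
  ∃ C : ℝ, 0 ≤ C ∧ ∀ (W f Q : ℝ → ℝ) (R₀ R a : ℝ), Scat W R₀ R a f Q → R ≤ 1 / 8 →
    ∀ δ₁ : ℝ, 0 < δ₁ → ∃ h k w : T3 → ℝ, ChgD W R₀ R a δ₁ C h k w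

/-- Lattice sums with the multipliers `alp`, `bet`: statement. -/
def SumStatement : Prop :=
  ∃ C : ℝ, 0 ≤ C ∧ ∀ (t H R : ℝ) (h : T3 → ℝ), 0 < t → t ≤ 1 → SR H R h →
    (Summable fun p => alp t p * ‖fc3 (fun y => (h y : ℂ)) p‖ ^ 2) ∧
    (Summable fun p => bet t p * ‖fc3 (fun y => (h y : ℂ)) p‖ ^ 2) ∧
    (∀ p, ‖fc3 (fun y => (h y : ℂ)) p‖ ≤ H) ∧
    (∑' p, bet t p * ‖fc3 (fun y => (h y : ℂ)) p‖ ^ 2) ≤ C * H ^ 2 * Real.sqrt t

end Pool.Agent.Lib.MP_4952d6_mp.LB

end

/-! ### Field -/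

section

set_option autoImplicit false
set_option linter.unusedSectionVars false
set_option linter.unusedVariables false
open MeasureTheory Function Filter Topology Set ComplexConjugate
open scoped ENNReal

namespace Pool.Agent.Lib.MP_4952d6_mp

/-- A radial charge density (times `r²`) of total charge zero. -/
structure Dens (b : ℝ) (g : ℝ → ℝ) : Prop where
  b_pos : 0 < b
  b_lt : b < 1/2
  meas : Measurable g
  bd : ∃ C, 0 ≤ C ∧ ∀ t, |g t| ≤ C * t ^ 2
  zero : ∀ t, b ≤ t → g t = 0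
  zero' : ∀ t, t ≤ 0 → g t = 0
  tot : ∫ t in (0:ℝ)..b, g t = 0

/-- Flux function. -/
noncomputable def flux (g : ℝ → ℝ) (r : ℝ) : ℝ := ∫ t in (0:ℝ)..r, g t

namespace Dens
variable {b : ℝ} {g : ℝ → ℝ}

lemma locInt (h : Dens b g) : LocallyIntegrable g volume := by
  obtain ⟨C, hC0, hC⟩ := h.bd
  have h1 : LocallyIntegrable (fun t : ℝ => C * t ^ 2) volume :=
    (Continuous.locallyIntegrable (by fun_prop))
  refine h1.mono h.meas.aestronglyMeasurable (Eventually.of_forall fun t => ?_)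
  rw [Real.norm_eq_abs, Real.norm_eq_abs, abs_of_nonneg (mul_nonneg hC0 (sq_nonneg t))]
  exact hC t

lemma int (h : Dens b g) (r s : ℝ) : IntervalIntegrable g volume r s :=
  intervalIntegrable_iff.mpr
    ((h.locInt.integrableOn_isCompact isCompact_uIcc).mono_set uIoc_subset_uIcc)

lemma flux_sub (h : Dens b g) (r s : ℝ) : flux g s - flux g r = ∫ t in r..s, g t := by
  unfold flux
  exact intervalIntegral.integral_interval_sub_left (h.int 0 s) (h.int 0 r)

lemma flux_cont (h : Dens b g) : Continuous (flux g) :=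
  intervalIntegral.continuous_primitive h.int 0

lemma flux_nonpos (h : Dens b g) {r : ℝ} (hr : r ≤ 0) : flux g r = 0 := by
  unfold flux
  rw [intervalIntegral.integral_symm, intervalIntegral.integral_congr (g := fun _ => (0:ℝ))]
  · simp
  · intro t ht
    rw [uIcc_of_le hr] at ht
    exact h.zero' t ht.2

lemma flux_b (h : Dens b g) {r : ℝ} (hr : b ≤ r) : flux g r = 0 := by
  have h1 := h.flux_sub b r
  have h2 : ∫ t in b..r, g t = 0 := by
    rw [intervalIntegral.integral_congr (g := fun _ => (0:ℝ))]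
    · simp
    · intro t ht
      rw [uIcc_of_le hr] at ht
      exact h.zero t ht.1
  have h3 : flux g b = 0 := h.tot
  linarith

lemma flux_le (h : Dens b g) {C : ℝ} (hC0 : 0 ≤ C) (hC : ∀ t, |g t| ≤ C * t ^ 2) {r : ℝ}
    (hr : 0 ≤ r) : |flux g r| ≤ C * r ^ 3 / 3 := by
  unfold flux
  have h1 : ‖∫ t in (0:ℝ)..r, g t‖ ≤ ∫ t in (0:ℝ)..r, C * t ^ 2 :=
    intervalIntegral.norm_integral_le_of_norm_le hr (Eventually.of_forall fun t _ => hC t)
      (Continuous.intervalIntegrable (by fun_prop) _ _)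
  rw [Real.norm_eq_abs, intervalIntegral.integral_const_mul, integral_pow] at h1
  refine h1.trans (le_of_eq ?_)
  push_cast
  ring

lemma flux_sub_le (h : Dens b g) {C : ℝ} (hC0 : 0 ≤ C) (hC : ∀ t, |g t| ≤ C * t ^ 2) {r s : ℝ}
    (hr : 0 ≤ r) (hrs : r ≤ s) : |flux g s - flux g r| ≤ C * s ^ 2 * (s - r) := by
  rw [h.flux_sub]
  have h1 : ‖∫ t in r..s, g t‖ ≤ ∫ t in r..s, C * s ^ 2 :=
    intervalIntegral.norm_integral_le_of_norm_le hrs (Eventually.of_forall fun t ht =>
      (hC t).trans (mul_le_mul_of_nonneg_left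
        (pow_le_pow_left₀ (hr.trans ht.1.le) ht.2 2) hC0)) intervalIntegrable_const
  rw [Real.norm_eq_abs, intervalIntegral.integral_const, smul_eq_mul] at h1
  linarith

/-- The field associated with a charge density. -/
theorem fprof (h : Dens b g) :
    FProf b (fun r => flux g r / r ^ 3) (fun r => g r / r ^ 2 - 3 * (flux g r / r ^ 3)) := by
  obtain ⟨C, hC0, hC⟩ := h.bd
  have hφ : ∀ r, |flux g r / r ^ 3| ≤ C / 3 := by
    intro r
    rcases le_or_gt r 0 with hr | hr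
    · rw [h.flux_nonpos hr]; simp; positivity
    · rw [abs_div, abs_of_pos (pow_pos hr 3), div_le_iff₀ (pow_pos hr 3)]
      refine (h.flux_le hC0 hC hr.le).trans (le_of_eq (by ring))
  have hg : ∀ r, |g r / r ^ 2| ≤ C := by
    intro r
    rcases le_or_gt r 0 with hr | hr
    · rw [h.zero' r hr]; simpa using hC0
    · rw [abs_div, abs_of_pos (pow_pos hr 2), div_le_iff₀ (pow_pos hr 2)]
      exact hC r
  refine ⟨h.b_lt, h.flux_cont.measurable.div (measurable_id.pow_const 3), ?_, ?_, ⟨C / 3, hφ⟩, ?_,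
    ?_, ?_, ?_⟩
  · exact (h.meas.div (measurable_id.pow_const 2)).sub
      ((h.flux_cont.measurable.div (measurable_id.pow_const 3)).const_mul 3)
  · refine ⟨2 * C, fun r s hr hrs => ?_⟩
    rcases hr.eq_or_lt with hr' | hr'
    · rw [← hr', zero_mul]
      have : 0 ≤ s - 0 := by linarith
      positivity
    have hs : 0 < s := hr'.trans_le hrs
    have hsr : 0 ≤ s - r := by linarith
    have e : flux g s / s ^ 3 - flux g r / r ^ 3
        = (flux g s - flux g r) / s ^ 3 - flux g r * ((s ^ 3 - r ^ 3) / (r ^ 3 * s ^ 3)) := by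
      field_simp
      ring
    have h1 : |(flux g s - flux g r) / s ^ 3| ≤ C * (s - r) / s := by
      rw [abs_div, abs_of_pos (pow_pos hs 3), div_le_div_iff₀ (pow_pos hs 3) hs]
      calc |flux g s - flux g r| * s ≤ (C * s ^ 2 * (s - r)) * s :=
            mul_le_mul_of_nonneg_right (h.flux_sub_le hC0 hC hr hrs) hs.le
        _ = _ := by ring
    have h2 : |flux g r * ((s ^ 3 - r ^ 3) / (r ^ 3 * s ^ 3))| ≤ C * (s - r) / s := by
      have h3 : 0 ≤ s ^ 3 - r ^ 3 := by
        have := pow_le_pow_left₀ hr hrs 3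
        linarith
      have h4 : s ^ 3 - r ^ 3 ≤ 3 * s ^ 2 * (s - r) := by
        have e : s ^ 3 - r ^ 3 = (s ^ 2 + s * r + r ^ 2) * (s - r) := by ring
        rw [e]
        refine mul_le_mul_of_nonneg_right ?_ hsr
        nlinarith [pow_le_pow_left₀ hr hrs 2, mul_le_mul_of_nonneg_left hrs hs.le]
      rw [abs_mul, abs_of_nonneg (div_nonneg h3 (by positivity))]
      calc |flux g r| * ((s ^ 3 - r ^ 3) / (r ^ 3 * s ^ 3))
          ≤ (C * r ^ 3 / 3) * ((3 * s ^ 2 * (s - r)) / (r ^ 3 * s ^ 3)) := by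
            refine mul_le_mul (h.flux_le hC0 hC hr) ?_ (div_nonneg h3 (by positivity)) (by positivity)
            exact div_le_div_of_nonneg_right h4 (by positivity)
        _ = C * (s - r) / s := by field_simp
    rw [e]
    calc r * |(flux g s - flux g r) / s ^ 3 - flux g r * ((s ^ 3 - r ^ 3) / (r ^ 3 * s ^ 3))|
        ≤ r * (C * (s - r) / s + C * (s - r) / s) := by
          refine mul_le_mul_of_nonneg_left ?_ hr
          exact (abs_sub _ _).trans (add_le_add h1 h2)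
      _ = 2 * C * (s - r) * (r / s) := by ring
      _ ≤ 2 * C * (s - r) * 1 := by
          refine mul_le_mul_of_nonneg_left ?_ (by positivity)
          rw [div_le_one hs]; exact hrs
      _ = 2 * C * (s - r) := mul_one _
  · refine ⟨C + 3 * (C / 3), fun r => ?_⟩
    refine (abs_sub _ _).trans (add_le_add (hg r) ?_)
    rw [abs_mul, abs_of_pos (by norm_num : (0:ℝ) < 3)]
    exact mul_le_mul_of_nonneg_left (hφ r) (by norm_num)
  · filter_upwards [_root_.LocallyIntegrable.ae_hasDerivAt_integral h.locInt] with r hr hr0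
    have h1 : HasDerivAt (flux g) (g r) r := hr 0
    have h2 := h1.div (hasDerivAt_pow 3 r) (pow_pos hr0 3).ne'
    have e : (g r * r ^ 3 - flux g r * ((3:ℕ) * r ^ (3 - 1))) / (r ^ 3) ^ 2
        = (g r / r ^ 2 - 3 * (flux g r / r ^ 3)) / r := by
      field_simp
      ring
    rw [e] at h2
    exact h2
  · intro r hr
    rw [h.flux_b hr, zero_div]
  · intro r hr
    rw [h.flux_b hr, h.zero r hr]; simp

end Dens

/-! ### Fourier estimates for fields -/

section field
variable {b : ℝ} {φ ψ : ℝ → ℝ}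

/-- components of a radial field -/
noncomputable def fldc (φ : ℝ → ℝ) (α : Fin 3) (x : T3) : ℝ := φ (rr x) * crd x α

lemma FProf.fldc_bm (h : FProf b φ ψ) (α : Fin 3) : BM (fldc φ α) :=
  (JData.rr_bm h.meas h.bdd).mul (JData.crd_bm α)

lemma fc3_add {f g : T3 → ℂ} (hf : Integrable f lam3) (hg : Integrable g lam3) (p : Fin 3 → ℤ) :
    fc3 (fun y => f y + g y) p = fc3 f p + fc3 g p := by
  have hc : ∀ {f : T3 → ℂ}, Integrable f lam3 → Integrable (fun y => conj (ch p y) * f y) lam3 := by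
    intro f hf
    refine hf.bdd_mul (c := 1) ?_ (Eventually.of_forall fun y => ?_)
    · exact (Complex.continuous_conj.comp (ch_continuous p)).aestronglyMeasurable
    · simp [ch_norm]
  unfold fc3
  rw [← integral_add (hc hf) (hc hg)]
  congr 1; ext y; ring

lemma fc3_sum {κ : Type*} (S : Finset κ) {f : κ → T3 → ℂ} (hf : ∀ i ∈ S, Integrable (f i) lam3)
    (p : Fin 3 → ℤ) : fc3 (fun y => ∑ i ∈ S, f i y) p = ∑ i ∈ S, fc3 (f i) p := by
  classical
  induction S using Finset.induction_on with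
  | empty => simp [fc3]
  | insert a S ha ih =>
    simp only [Finset.sum_insert ha]
    rw [fc3_add (hf a (Finset.mem_insert_self _ _))
      (integrable_finsetSum _ fun i hi => hf i (Finset.mem_insert_of_mem hi)),
      ih fun i hi => hf i (Finset.mem_insert_of_mem hi)]

lemma bm_integrable_ofReal {h : T3 → ℝ} (hh : BM h) : Integrable (fun y => (h y : ℂ)) lam3 :=
  (hh.integrable lam3).ofReal

lemma lam3_left_inv : lam3.IsAddLeftInvariant := inferInstance

theorem field_fourier (h : FProf b φ ψ) {β hf : T3 → ℝ} (hβ : BM β)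
    (hae : ∀ᵐ y ∂lam3, hf y = ψ (rr y) + 3 * φ (rr y) + β y) {m : ℝ} (hm : 0 < m)
    (p : Fin 3 → ℤ) :
    ‖fc3 (fun y => (hf y : ℂ)) p‖ ^ 2 / (4 * Real.pi ^ 2 * mom2 p + m)
      ≤ ∑ α, ‖fc3 (fun y => (fldc φ α y : ℂ)) p‖ ^ 2 + ‖fc3 (fun y => (β y : ℂ)) p‖ ^ 2 / m := by
  have hD : 0 < 4 * Real.pi ^ 2 * mom2 p + m := by
    have := mom2_nonneg p; positivity
  set U' : Fin 3 → T3 → ℝ := fun α x => ψ (rr x) * (crd x α / rr x) ^ 2 + φ (rr x) with hU'
  have bU' : ∀ α, BM (U' α) := fun α =>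
    ((JData.rr_bm h.meas' h.bdd').mul ((JData.dir_bm α).pow 2)).add (JData.rr_bm h.meas h.bdd)
  have e1 : fc3 (fun y => (hf y : ℂ)) p
      = ∑ α, fc3 (fun y => (U' α y : ℂ)) p + fc3 (fun y => (β y : ℂ)) p := by
    rw [← fc3_sum _ (fun α _ => bm_integrable_ofReal (bU' α)), ← fc3_add
      (integrable_finsetSum _ fun α _ => bm_integrable_ofReal (bU' α)) (bm_integrable_ofReal hβ)]
    unfold fc3
    refine integral_congr_ae ?_
    filter_upwards [hae, ae_rr_pos] with y hy hy0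
    congr 1
    rw [hy, ← sum_dir _ _ hy0]
    push_cast
    simp only [hU']
    push_cast
    rfl
  have e2 : ∀ α, fc3 (fun y => (U' α y : ℂ)) p
      = 2 * Real.pi * Complex.I * (p α : ℝ) * fc3 (fun y => (fldc φ α y : ℂ)) p := by
    intro α
    have hW := (h.fld_WD α).ofReal
    exact hW.fourier (ch_continuous p).stronglyMeasurable (ch_norm p) (p α)
      (fun x t => ch_add_tau p α x t)
  rw [e1]
  simp_rw [e2]
  set u : Fin 3 → ℂ := fun α => fc3 (fun y => (fldc φ α y : ℂ)) p with hu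
  set w : ℂ := fc3 (fun y => (β y : ℂ)) p with hw
  rw [div_le_iff₀ hD]
  have h1 : ‖∑ α, 2 * Real.pi * Complex.I * (p α : ℝ) * u α + w‖
      ≤ ∑ α, 2 * Real.pi * |(p α : ℝ)| * ‖u α‖ + ‖w‖ := by
    refine (norm_add_le _ _).trans (add_le_add ((norm_sum_le _ _).trans ?_) le_rfl)
    refine Finset.sum_le_sum fun α _ => ?_
    rw [norm_mul, norm_mul, norm_mul, norm_mul, Complex.norm_real, Complex.norm_real,
      Complex.norm_I, Complex.norm_ofNat, Real.norm_eq_abs, Real.norm_eq_abs,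
      abs_of_pos Real.pi_pos]
    simp
  have h2 : (∑ α, 2 * Real.pi * |(p α : ℝ)| * ‖u α‖ + ‖w‖) ^ 2
      ≤ (4 * Real.pi ^ 2 * mom2 p + m) * (∑ α, ‖u α‖ ^ 2 + ‖w‖ ^ 2 / m) := by
    have hs : 0 < Real.sqrt m := Real.sqrt_pos.2 hm
    have hsq : Real.sqrt m ^ 2 = m := Real.sq_sqrt hm.le
    have e3 : ∑ α, ‖u α‖ ^ 2 + ‖w‖ ^ 2 / m = ∑ α, ‖u α‖ ^ 2 + (‖w‖ / Real.sqrt m) ^ 2 := by
      rw [div_pow, hsq]
    have e4 : 4 * Real.pi ^ 2 * mom2 p + m
        = ∑ α, (2 * Real.pi * |(p α : ℝ)|) ^ 2 + Real.sqrt m ^ 2 := by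
      rw [hsq]
      congr 1
      unfold mom2
      rw [Finset.mul_sum]
      refine Finset.sum_congr rfl fun α _ => ?_
      rw [mul_pow, mul_pow, sq_abs]; ring
    have e5 : ‖w‖ = Real.sqrt m * (‖w‖ / Real.sqrt m) := by field_simp
    rw [e3, e4]
    conv_lhs => rw [e5]
    have key := Finset.sum_mul_sq_le_sq_mul_sq (Finset.univ : Finset (Option (Fin 3)))
      (fun o => o.elim (Real.sqrt m) fun α => 2 * Real.pi * |(p α : ℝ)|)
      (fun o => o.elim (‖w‖ / Real.sqrt m) fun α => ‖u α‖)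
    simp only [Fintype.sum_option, Option.elim] at key
    rw [add_comm (∑ α, 2 * Real.pi * |(p α : ℝ)| * ‖u α‖), add_comm (∑ α, (2 * Real.pi * |(p α : ℝ)|) ^ 2),
      add_comm (∑ α, ‖u α‖ ^ 2)]
    exact key
  calc ‖∑ α, 2 * Real.pi * Complex.I * (p α : ℝ) * u α + w‖ ^ 2
      ≤ (∑ α, 2 * Real.pi * |(p α : ℝ)| * ‖u α‖ + ‖w‖) ^ 2 :=
        pow_le_pow_left₀ (norm_nonneg _) h1 2
    _ ≤ _ := h2
    _ = _ := mul_comm _ _

/-- Summed field estimate. -/
theorem field_sum (h : FProf b φ ψ) {β hf : T3 → ℝ} (hβ : BM β)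
    (hae : ∀ᵐ y ∂lam3, hf y = ψ (rr y) + 3 * φ (rr y) + β y) {m : ℝ} (hm : 0 < m) {A : ℝ}
    (hA : ∫ y, φ (rr y) ^ 2 * rr y ^ 2 ∂lam3 + (∫ y, β y ^ 2 ∂lam3) / m ≤ A) :
    ∑' p, (if p = 0 then 0 else
      ENNReal.ofReal (‖fc3 (fun y => (hf y : ℂ)) p‖ ^ 2 / (4 * Real.pi ^ 2 * mom2 p + m)))
      ≤ ENNReal.ofReal A := by
  have e1 : ∀ (g : T3 → ℝ), ∫ y, ‖(g y : ℂ)‖ ^ 2 ∂lam3 = ∫ y, g y ^ 2 ∂lam3 := by
    intro g
    congr 1; ext y; rw [Complex.norm_real, Real.norm_eq_abs, sq_abs]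
  have hU : HasSum (fun p => ∑ α, ‖fc3 (fun y => (fldc φ α y : ℂ)) p‖ ^ 2)
      (∑ α, ∫ y, fldc φ α y ^ 2 ∂lam3) := by
    refine hasSum_sum fun α _ => ?_
    have := parseval3_sq (bm_memLp3 (h.fldc_bm α))
    rwa [e1] at this
  have hB : HasSum (fun p => ‖fc3 (fun y => (β y : ℂ)) p‖ ^ 2 / m) ((∫ y, β y ^ 2 ∂lam3) / m) := by
    have := parseval3_sq (bm_memLp3 hβ)
    rw [e1] at this
    exact this.div_const m
  have hS := hU.add hB
  have e2 : ∑ α, ∫ y, fldc φ α y ^ 2 ∂lam3 = ∫ y, φ (rr y) ^ 2 * rr y ^ 2 ∂lam3 := by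
    rw [← integral_finsetSum _ (fun α _ => ((h.fldc_bm α).pow 2).integrable _)]
    congr 1; ext y
    unfold fldc
    rw [rr_sq, Finset.mul_sum]
    refine Finset.sum_congr rfl fun α _ => by ring
  rw [e2] at hS
  have hnn : ∀ p : Fin 3 → ℤ, 0 ≤ ∑ α, ‖fc3 (fun y => (fldc φ α y : ℂ)) p‖ ^ 2
      + ‖fc3 (fun y => (β y : ℂ)) p‖ ^ 2 / m := fun p =>
    add_nonneg (Finset.sum_nonneg fun α _ => sq_nonneg _) (div_nonneg (sq_nonneg _) hm.le)
  calc ∑' p, (if p = 0 then 0 else
      ENNReal.ofReal (‖fc3 (fun y => (hf y : ℂ)) p‖ ^ 2 / (4 * Real.pi ^ 2 * mom2 p + m)))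
      ≤ ∑' p, ENNReal.ofReal (∑ α, ‖fc3 (fun y => (fldc φ α y : ℂ)) p‖ ^ 2
      + ‖fc3 (fun y => (β y : ℂ)) p‖ ^ 2 / m) := by
        refine ENNReal.tsum_le_tsum fun p => ?_
        split_ifs
        · exact zero_le
        · exact ENNReal.ofReal_le_ofReal (field_fourier h hβ hae hm p)
    _ = ENNReal.ofReal (∫ y, φ (rr y) ^ 2 * rr y ^ 2 ∂lam3 + (∫ y, β y ^ 2 ∂lam3) / m) := by
        rw [← ENNReal.ofReal_tsum_of_nonneg hnn hS.summable, hS.tsum_eq]
    _ ≤ ENNReal.ofReal A := ENNReal.ofReal_le_ofReal hA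

lemma norm_fc3_le {g : T3 → ℝ} (p : Fin 3 → ℤ) : ‖fc3 (fun y => (g y : ℂ)) p‖ ≤ ∫ y, |g y| ∂lam3 := by
  unfold fc3
  refine (norm_integral_le_integral_norm _).trans (le_of_eq ?_)
  congr 1; ext y
  rw [norm_mul, RCLike.norm_conj, ch_norm, one_mul, Complex.norm_real, Real.norm_eq_abs]

/-- Pointwise estimate. -/
theorem field_pt (h : FProf b φ ψ) {β hf : T3 → ℝ} (hβ : BM β)
    (hae : ∀ᵐ y ∂lam3, hf y = ψ (rr y) + 3 * φ (rr y) + β y) {m : ℝ} (hm : 0 < m) {D E : ℝ}
    (hD : ∫ y, |φ (rr y)| * rr y ∂lam3 ≤ D) (hE : ∫ y, |β y| ∂lam3 ≤ E) (p : Fin 3 → ℤ) :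
    ‖fc3 (fun y => (hf y : ℂ)) p‖ ^ 2 / (4 * Real.pi ^ 2 * mom2 p + m) ≤ 3 * D ^ 2 + E ^ 2 / m := by
  refine (field_fourier h hβ hae hm p).trans ?_
  have h1 : ∀ α, ‖fc3 (fun y => (fldc φ α y : ℂ)) p‖ ^ 2 ≤ D ^ 2 := by
    intro α
    refine pow_le_pow_left₀ (norm_nonneg _) ((norm_fc3_le p).trans (le_trans ?_ hD)) 2
    refine integral_mono ((h.fldc_bm α).abs.integrable _)
      (((JData.rr_bm h.meas h.bdd).abs.mul JData.rr_bm').integrable _) fun y => ?_
    unfold fldc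
    dsimp only
    rw [abs_mul]
    exact mul_le_mul_of_nonneg_left (abs_crd_le_rr y α) (abs_nonneg _)
  have h2 : ‖fc3 (fun y => (β y : ℂ)) p‖ ^ 2 / m ≤ E ^ 2 / m :=
    div_le_div_of_nonneg_right (pow_le_pow_left₀ (norm_nonneg _) ((norm_fc3_le p).trans hE) 2) hm.le
  calc _ ≤ ∑ α : Fin 3, D ^ 2 + E ^ 2 / m := add_le_add (Finset.sum_le_sum fun α _ => h1 α) h2
    _ = _ := by simp

end field

end Pool.Agent.Lib.MP_4952d6_mp

end

/-! ### LB.ChgA -/

section

/-!
# LB.ChgA: time integrals of the heat flow on the torus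

`fc3_cn`: Fubini and `∫ conj(ch p z) w(z - y) dz = conj(ch p y) fc3 w p` (`ch_add_arg`, `int_sub_right`).
`KI_bm`: `(u, z, y) ↦ hk u (z - y) h y` is measurable (`hkD_measurable`, `hk u = 0` for `u ≤ 0` by
`hk1_of_nonpos`), so `(u, z) ↦ cn (hk u) h z` is; `|cn (hk u) h z| ≤ sup |h|` (`hk_integral`).
`fc3_KI`: Fubini and `fc3_cn`, `fc3_hk`.
`ae_eq_of_fc3`: `parseval3_sq` for `f - g` gives `∫ |f - g|² = 0`.
`KI_parseval`: `parseval3` for `h` and `KI T h`, `fc3_KI`, real parts.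
-/

set_option autoImplicit false
set_option linter.unusedSectionVars false
set_option linter.unusedVariables false
open MeasureTheory Function Filter Topology Set ComplexConjugate

namespace Pool.Agent.Lib.MP_4952d6_mp.LB

/-- `∫₀^T p_u * h du` -/
noncomputable def KI (T : ℝ) (h : T3 → ℝ) (z : T3) : ℝ := ∫ u in (0:ℝ)..T, cn (hk u) h z

lemma KK_eq_KI (t : ℝ) (h : T3 → ℝ) : KK t h = KI (t / 2) h := rfl

lemma ChgA_ofReal {h : T3 → ℝ} (hh : BM h) :
    StronglyMeasurable (fun y => ((h y : ℝ) : ℂ)) :=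
  (Complex.measurable_ofReal.comp hh.1).stronglyMeasurable

lemma ChgA_memLp {h : T3 → ℝ} (hh : BM h) : MemLp (fun y => ((h y : ℝ) : ℂ)) 2 lam3 := by
  obtain ⟨C, hC⟩ := hh.2
  refine MemLp.of_bound (ChgA_ofReal hh).aestronglyMeasurable C (Eventually.of_forall fun x => ?_)
  rw [Complex.norm_real, Real.norm_eq_abs]
  exact hC x

lemma ChgA_chm (p : Fin 3 → ℤ) : Measurable (fun x => conj (ch p x)) :=
  (Complex.continuous_conj.comp (ch_continuous p)).measurable

lemma ChgA_int {h : T3 → ℝ} (hh : BM h) (p : Fin 3 → ℤ) :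
    Integrable (fun x => conj (ch p x) * ((h x : ℝ) : ℂ)) lam3 := by
  obtain ⟨C, hC⟩ := hh.2
  refine Integrable.of_bound
    ((ChgA_chm p).mul (Complex.measurable_ofReal.comp hh.1)).aestronglyMeasurable C
    (Eventually.of_forall fun x => ?_)
  rw [norm_mul, RCLike.norm_conj, ch_norm, one_mul, Complex.norm_real, Real.norm_eq_abs]
  exact hC x

lemma ChgA_fc3_sub {f g : T3 → ℝ} (hf : BM f) (hg : BM g) (p : Fin 3 → ℤ) :
    fc3 (fun y => ((f y - g y : ℝ) : ℂ)) p
      = fc3 (fun y => (f y : ℂ)) p - fc3 (fun y => (g y : ℂ)) p := by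
  unfold fc3
  rw [← integral_sub (ChgA_int hf p) (ChgA_int hg p)]
  refine integral_congr_ae (Eventually.of_forall fun x => ?_)
  dsimp only
  push_cast
  ring

lemma ChgA_fc3_add {f g : T3 → ℝ} (hf : BM f) (hg : BM g) (p : Fin 3 → ℤ) :
    fc3 (fun y => ((f y + g y : ℝ) : ℂ)) p
      = fc3 (fun y => (f y : ℂ)) p + fc3 (fun y => (g y : ℂ)) p := by
  unfold fc3
  rw [← integral_add (ChgA_int hf p) (ChgA_int hg p)]
  refine integral_congr_ae (Eventually.of_forall fun x => ?_)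
  dsimp only
  push_cast
  ring

lemma ChgA_hk_zero {u : ℝ} (hu : u ≤ 0) (z : T3) : hk u z = 0 := by
  unfold hk hkD
  exact Finset.prod_eq_zero (Finset.mem_univ 0) (hk1_of_nonpos hu _ _)

lemma ChgA_E {T : ℝ} (q : ℝ) :
    q * (∫ u in (0:ℝ)..T, Real.exp (-(u * q))) = 1 - Real.exp (-(T * q)) := by
  rw [← intervalIntegral.integral_const_mul]
  have h : ∀ u ∈ uIcc (0:ℝ) T, HasDerivAt (fun u : ℝ => - Real.exp (-(u * q)))
      (q * Real.exp (-(u * q))) u := by
    intro u _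
    have h1 : HasDerivAt (fun u : ℝ => -(u * q)) (-(1 * q)) u :=
      ((hasDerivAt_id u).mul_const q).neg
    refine (h1.exp.neg).congr_deriv ?_
    ring
  rw [intervalIntegral.integral_eq_sub_of_hasDerivAt h]
  · simp
    ring
  · apply Continuous.intervalIntegrable
    fun_prop

theorem fc3_cn {w h : T3 → ℝ} (hw : BM w) (hh : BM h) (p : Fin 3 → ℤ) :
    fc3 (fun y => (cn w h y : ℂ)) p = fc3 (fun y => (w y : ℂ)) p * fc3 (fun y => (h y : ℂ)) p := by
  obtain ⟨C, hC0, hC⟩ := hw.exists_nonneg_bound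
  obtain ⟨D, hD0, hD⟩ := hh.exists_nonneg_bound
  have e1 : ∀ x, conj (ch p x) * ((cn w h x : ℝ) : ℂ)
      = ∫ y, conj (ch p x) * ((w (x - y) * h y : ℝ) : ℂ) ∂lam3 := by
    intro x
    rw [integral_const_mul, integral_complex_ofReal]
    rfl
  have e2 : ∀ y, ∫ x, conj (ch p x) * ((w (x - y) * h y : ℝ) : ℂ) ∂lam3
      = fc3 (fun y => (w y : ℂ)) p * (conj (ch p y) * (h y : ℂ)) := by
    intro y
    unfold fc3
    rw [← integral_mul_const,
      ← int_sub_right (fun x => conj (ch p x) * (w x : ℂ) * (conj (ch p y) * (h y : ℂ))) y]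
    refine integral_congr_ae (Eventually.of_forall fun x => ?_)
    have e3 : ch p x = ch p (x - y) * ch p y := by rw [← ch_add_arg, sub_add_cancel]
    dsimp only
    rw [e3, map_mul]
    push_cast
    ring
  have e4 : fc3 (fun y => (cn w h y : ℂ)) p
      = ∫ x, ∫ y, conj (ch p x) * ((w (x - y) * h y : ℝ) : ℂ) ∂lam3 ∂lam3 := by
    unfold fc3
    exact integral_congr_ae (Eventually.of_forall e1)
  rw [e4, integral_integral_swap]
  · simp_rw [e2]
    rw [integral_const_mul]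
    rfl
  · have hm : Measurable (fun q : T3 × T3 => conj (ch p q.1) * ((w (q.1 - q.2) * h q.2 : ℝ) : ℂ)) :=
      ((ChgA_chm p).comp measurable_fst).mul (Complex.measurable_ofReal.comp
        ((hw.1.comp measurable_sub_fst_snd).mul (hh.1.comp measurable_snd)))
    refine Integrable.of_bound hm.aestronglyMeasurable (C * D) (Eventually.of_forall fun q => ?_)
    show ‖conj (ch p q.1) * ((w (q.1 - q.2) * h q.2 : ℝ) : ℂ)‖ ≤ C * D
    rw [norm_mul, RCLike.norm_conj, ch_norm, one_mul, Complex.norm_real, Real.norm_eq_abs, abs_mul]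
    exact mul_le_mul (hC _) (hD _) (abs_nonneg _) hC0

private lemma ChgA_hkm : Measurable (fun q : ℝ × T3 => hk q.1 q.2) := by
  unfold hk
  exact hkD_measurable 0

private lemma ChgA_hkm2 {h : T3 → ℝ} (hh : BM h) :
    Measurable (fun q : (ℝ × T3) × T3 => hk q.1.1 (q.1.2 - q.2) * h q.2) := by
  have h2 : Measurable (fun q : (ℝ × T3) × T3 => (q.1.1, q.1.2 - q.2)) :=
    (measurable_fst.comp measurable_fst).prodMk
      (measurable_sub' (measurable_snd.comp measurable_fst) measurable_snd)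
  exact (ChgA_hkm.comp h2).mul (hh.1.comp measurable_snd)

/-- joint measurability -/
lemma cn_hk_meas {h : T3 → ℝ} (hh : BM h) : Measurable (fun q : ℝ × T3 => cn (hk q.1) h q.2) := by
  have h1 := (ChgA_hkm2 hh).stronglyMeasurable
  unfold cn
  exact (h1.integral_prod_right' (ν := lam3)).measurable

private lemma ChgA_cnm {h : T3 → ℝ} (hh : BM h) (z : T3) : Measurable (fun u => cn (hk u) h z) := by
  have h1 : Measurable (fun u : ℝ => ((u, z) : ℝ × T3)) := measurable_prodMk_right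
  have h2 := (cn_hk_meas hh).comp h1
  simp only [Function.comp_def] at h2
  exact h2

private lemma ChgA_cns {h : T3 → ℝ} (hh : BM h) :
    Measurable (fun q : T3 × ℝ => cn (hk q.2) h q.1) := by
  have h2 := (cn_hk_meas hh).comp (measurable_swap (α := T3) (β := ℝ))
  simp only [Function.comp_def, Prod.fst_swap, Prod.snd_swap] at h2
  exact h2

lemma cn_hk_abs_le {h : T3 → ℝ} (hh : BM h) {M : ℝ} (hM : ∀ z, |h z| ≤ M) (u : ℝ) (z : T3) :
    |cn (hk u) h z| ≤ M := by
  have hM0 : 0 ≤ M := (abs_nonneg _).trans (hM 0)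
  rcases le_or_gt u 0 with hu | hu
  · have : cn (hk u) h z = 0 := by
      unfold cn
      simp [ChgA_hk_zero hu]
    rw [this, abs_zero]
    exact hM0
  · have h1 : Integrable (fun y => hk u (z - y) * M) lam3 :=
      (((hk_bm hu).comp (measurable_sub' measurable_const measurable_id)).mul (BM.const M)).integrable lam3
    have h2 : ‖cn (hk u) h z‖ ≤ ∫ y, hk u (z - y) * M ∂lam3 := by
      unfold cn
      refine norm_integral_le_of_norm_le h1 (Eventually.of_forall fun y => ?_)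
      rw [Real.norm_eq_abs, abs_mul, abs_of_nonneg (hk_nonneg _ _)]
      exact mul_le_mul_of_nonneg_left (hM y) (hk_nonneg _ _)
    rw [integral_mul_const, int_sub_left, hk_integral hu, one_mul, Real.norm_eq_abs] at h2
    exact h2

lemma cn_hk_int {h : T3 → ℝ} (hh : BM h) (z : T3) (s t : ℝ) :
    IntervalIntegrable (fun u => cn (hk u) h z) volume s t := by
  obtain ⟨M, hM⟩ := hh.2
  have h1 := ChgA_cnm hh z
  refine (intervalIntegrable_const (c := M)).mono_fun' h1.aestronglyMeasurable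
    (Eventually.of_forall fun u => ?_)
  show ‖cn (hk u) h z‖ ≤ M
  rw [Real.norm_eq_abs]
  exact cn_hk_abs_le hh hM u z

lemma KI_bm {T : ℝ} (hT : 0 ≤ T) {h : T3 → ℝ} (hh : BM h) : BM (KI T h) := by
  obtain ⟨M, hM⟩ := hh.2
  refine ⟨?_, M * |T - 0|, fun z => ?_⟩
  · have h1 : KI T h = fun z => ∫ u in Ioc (0:ℝ) T, cn (hk u) h z := by
      funext z
      unfold KI
      rw [intervalIntegral.integral_of_le hT]
    rw [h1]
    exact ((cn_hk_meas hh).stronglyMeasurable.integral_prod_left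
      (μ := volume.restrict (Ioc (0:ℝ) T))).measurable
  · unfold KI
    rw [← Real.norm_eq_abs]
    refine intervalIntegral.norm_integral_le_of_norm_le_const fun u _ => ?_
    rw [Real.norm_eq_abs]
    exact cn_hk_abs_le hh hM u z

lemma KI_nonneg {T : ℝ} (hT : 0 ≤ T) {h : T3 → ℝ} (hh0 : ∀ z, 0 ≤ h z) (z : T3) : 0 ≤ KI T h z := by
  unfold KI
  exact intervalIntegral.integral_nonneg hT fun u _ => cn_nonneg (hk_nonneg u) hh0 z

lemma KI_le {T : ℝ} (hT : 0 ≤ T) {h : T3 → ℝ} (hh : BM h) {M : ℝ} (hM : ∀ z, |h z| ≤ M) (z : T3) :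
    KI T h z ≤ T * M := by
  refine (le_abs_self _).trans ?_
  unfold KI
  have h1 := intervalIntegral.norm_integral_le_of_norm_le_const (a := 0) (b := T) (C := M)
    (f := fun u => cn (hk u) h z) fun u _ => by
      rw [Real.norm_eq_abs]
      exact cn_hk_abs_le hh hM u z
  rw [Real.norm_eq_abs, sub_zero, abs_of_nonneg hT] at h1
  rw [mul_comm T M]
  exact h1

lemma KI_sub {h : T3 → ℝ} (hh : BM h) (z : T3) (s t : ℝ) :
    ∫ u in s..t, cn (hk u) h z = KI t h z - KI s h z := by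
  unfold KI
  exact (intervalIntegral.integral_interval_sub_left (cn_hk_int hh z 0 t) (cn_hk_int hh z 0 s)).symm

theorem fc3_KI {T : ℝ} (hT : 0 ≤ T) {h : T3 → ℝ} (hh : BM h) (p : Fin 3 → ℤ) :
    fc3 (fun y => (KI T h y : ℂ)) p
      = ((∫ u in (0:ℝ)..T, Real.exp (-(u * ksq p)) : ℝ) : ℂ) * fc3 (fun y => (h y : ℂ)) p := by
  obtain ⟨M, hM⟩ := hh.2
  have hM0 : 0 ≤ M := (abs_nonneg _).trans (hM 0)
  have e1 : ∀ x, conj (ch p x) * ((KI T h x : ℝ) : ℂ)
      = ∫ u in Ioc (0:ℝ) T, conj (ch p x) * ((cn (hk u) h x : ℝ) : ℂ) := by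
    intro x
    rw [integral_const_mul, integral_complex_ofReal]
    unfold KI
    rw [intervalIntegral.integral_of_le hT]
  have e4 : fc3 (fun y => (KI T h y : ℂ)) p
      = ∫ x, (∫ u in Ioc (0:ℝ) T, conj (ch p x) * ((cn (hk u) h x : ℝ) : ℂ)) ∂lam3 := by
    unfold fc3
    exact integral_congr_ae (Eventually.of_forall e1)
  rw [e4, integral_integral_swap]
  · have e2 : ∫ u in Ioc (0:ℝ) T, ∫ x, conj (ch p x) * ((cn (hk u) h x : ℝ) : ℂ) ∂lam3
        = ∫ u in Ioc (0:ℝ) T, ((Real.exp (-(u * ksq p)) : ℝ) : ℂ) * fc3 (fun y => (h y : ℂ)) p := by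
      refine setIntegral_congr_fun measurableSet_Ioc fun u hu => ?_
      show fc3 (fun y => (cn (hk u) h y : ℂ)) p = _
      rw [fc3_cn (hk_bm hu.1) hh, fc3_hk hu.1]
    rw [e2, integral_mul_const, integral_complex_ofReal, intervalIntegral.integral_of_le hT]
  · have hm : Measurable (fun q : T3 × ℝ => conj (ch p q.1) * ((cn (hk q.2) h q.1 : ℝ) : ℂ)) :=
      ((ChgA_chm p).comp measurable_fst).mul (Complex.measurable_ofReal.comp (ChgA_cns hh))
    refine Integrable.of_bound hm.aestronglyMeasurable M (Eventually.of_forall fun q => ?_)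
    show ‖conj (ch p q.1) * ((cn (hk q.2) h q.1 : ℝ) : ℂ)‖ ≤ M
    rw [norm_mul, RCLike.norm_conj, ch_norm, one_mul, Complex.norm_real, Real.norm_eq_abs]
    exact cn_hk_abs_le hh hM _ _

theorem ae_eq_of_fc3 {f g : T3 → ℝ} (hf : BM f) (hg : BM g)
    (h : ∀ p, fc3 (fun y => (f y : ℂ)) p = fc3 (fun y => (g y : ℂ)) p) : ∀ᵐ z ∂lam3, f z = g z := by
  have h1 := parseval3_sq (ChgA_memLp (hf.sub hg))
  have h2 : (fun p => ‖fc3 (fun y => ((f y - g y : ℝ) : ℂ)) p‖ ^ 2) = fun _ => 0 := by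
    funext p
    rw [ChgA_fc3_sub hf hg, h p, sub_self, norm_zero]
    norm_num
  rw [h2] at h1
  have h3 := h1.unique hasSum_zero
  have h4 : ∀ x, ‖((f x - g x : ℝ) : ℂ)‖ ^ 2 = (f x - g x) ^ 2 := fun x => by
    rw [Complex.norm_real, Real.norm_eq_abs, sq_abs]
  simp_rw [h4] at h3
  rw [integral_eq_zero_iff_of_nonneg (fun x => sq_nonneg _) (((hf.sub hg).pow 2).integrable lam3)] at h3
  filter_upwards [h3] with x hx
  have h5 : f x - g x = 0 := by
    have : (f x - g x) ^ 2 = 0 := hx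
    exact pow_eq_zero_iff two_ne_zero |>.1 this
  linarith

theorem KI_parseval {T : ℝ} (hT : 0 ≤ T) {h : T3 → ℝ} (hh : BM h) :
    HasSum (fun p => (∫ u in (0:ℝ)..T, Real.exp (-(u * ksq p))) * ‖fc3 (fun y => (h y : ℂ)) p‖ ^ 2)
      (∫ z, h z * KI T h z ∂lam3) := by
  have h1 := parseval3 (ChgA_memLp hh) (ChgA_memLp (KI_bm hT hh))
  have h2 := Complex.hasSum_re h1
  have h3 : (∫ x, conj ((h x : ℝ) : ℂ) * ((KI T h x : ℝ) : ℂ) ∂lam3).re
      = ∫ z, h z * KI T h z ∂lam3 := by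
    have : ∀ x, conj ((h x : ℝ) : ℂ) * ((KI T h x : ℝ) : ℂ) = ((h x * KI T h x : ℝ) : ℂ) := by
      intro x
      rw [Complex.conj_ofReal]
      push_cast
      rfl
    simp_rw [this]
    rw [integral_complex_ofReal, Complex.ofReal_re]
  rw [h3] at h2
  refine h2.congr_fun ?_
  intro p
  rw [fc3_KI hT hh]
  have : conj (fc3 (fun y => (h y : ℂ)) p)
      * (((∫ u in (0:ℝ)..T, Real.exp (-(u * ksq p)) : ℝ) : ℂ) * fc3 (fun y => (h y : ℂ)) p)
      = (((∫ u in (0:ℝ)..T, Real.exp (-(u * ksq p))) * ‖fc3 (fun y => (h y : ℂ)) p‖ ^ 2 : ℝ) : ℂ) := by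
    have h5 : conj (fc3 (fun y => (h y : ℂ)) p) * fc3 (fun y => (h y : ℂ)) p
        = ((‖fc3 (fun y => (h y : ℂ)) p‖ ^ 2 : ℝ) : ℂ) := by
      rw [mul_comm, Complex.mul_conj, Complex.normSq_eq_norm_sq]
    rw [Complex.ofReal_mul, ← h5]
    ring
  rw [this, Complex.ofReal_re]

/-- Heat flow identity: if `-Δ U = h - s` then `∫₀^T p_u * h du = U + ∫₀^T p_u * s du - p_T * U`. Compare
Fourier coefficients: `E := ∫₀^T exp(-u q) du` satisfies `E q = 1 - exp(-T q)` (`q = ksq p`), and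
`q fc3 U = fc3 h - fc3 s`. -/
theorem heat_identity {T : ℝ} (hT : 0 < T) {h s U : T3 → ℝ} (hh : BM h) (hs : BM s) (hU : BM U)
    (hq : ∀ p, ((ksq p : ℝ) : ℂ) * fc3 (fun y => (U y : ℂ)) p
      = fc3 (fun y => (h y : ℂ)) p - fc3 (fun y => (s y : ℂ)) p) :
    ∀ᵐ z ∂lam3, KI T h z = U z + KI T s z - cn (hk T) U z := by
  have hKh := KI_bm hT.le hh
  have hKs := KI_bm hT.le hs
  have hc := cn_bm (hk_bm hT) hU
  refine ae_eq_of_fc3 hKh ((hU.add hKs).sub hc) fun p => ?_
  rw [ChgA_fc3_sub (hU.add hKs) hc, ChgA_fc3_add hU hKs, fc3_KI hT.le hh, fc3_KI hT.le hs,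
    fc3_cn (hk_bm hT) hU, fc3_hk hT]
  have h1 := ChgA_E (T := T) (ksq p)
  have h2 : ((ksq p : ℝ) : ℂ) * ((∫ u in (0:ℝ)..T, Real.exp (-(u * ksq p)) : ℝ) : ℂ)
      = 1 - ((Real.exp (-(T * ksq p)) : ℝ) : ℂ) := by
    rw [← Complex.ofReal_mul, h1]
    push_cast
    rfl
  have h3 := hq p
  linear_combination (-((∫ u in (0:ℝ)..T, Real.exp (-(u * ksq p)) : ℝ) : ℂ)) * h3
    + fc3 (fun y => (U y : ℂ)) p * h2

end Pool.Agent.Lib.MP_4952d6_mp.LB

end

/-! ### Charge -/

section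

set_option autoImplicit false
set_option linter.unusedSectionVars false
set_option linter.unusedVariables false
open MeasureTheory Function Filter Topology Set ComplexConjugate
open scoped ENNReal

namespace Pool.Agent.Lib.MP_4952d6_mp

/-- The charge density of the inner potential, with the hard core charge smeared over a shell. -/
noncomputable def e1 (W : ℝ → ℝ) (R₀ δ : ℝ) (f Q : ℝ → ℝ) (t : ℝ) : ℝ :=
  if 0 < t then (if R₀ - δ < t ∧ t < R₀ then Q R₀ / δ else 0) + t ^ 2 * W t * f t else 0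

/-- The smeared out neutralising charge. -/
noncomputable def sm (a d t : ℝ) : ℝ := if 0 < t ∧ t < d then 3 * a * t ^ 2 / d ^ 3 else 0

lemma sm_meas (a d : ℝ) : Measurable (sm a d) := by
  unfold sm
  refine Measurable.ite (measurableSet_Ioi.inter measurableSet_Iio) ?_ measurable_const
  exact ((measurable_id.pow_const 2).const_mul _).div_const _

lemma sm_nonneg {a d : ℝ} (ha : 0 ≤ a) (hd : 0 < d) (t : ℝ) : 0 ≤ sm a d t := by
  unfold sm
  split_ifs
  · positivity
  · exact le_rfl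

lemma sm_integral {a d r : ℝ} (hd : 0 < d) (hr : 0 ≤ r) (hrd : r ≤ d) :
    ∫ t in (0:ℝ)..r, sm a d t = a * r ^ 3 / d ^ 3 := by
  have h1 : ∫ t in (0:ℝ)..r, sm a d t = ∫ t in (0:ℝ)..r, (3 * a / d ^ 3) * t ^ 2 := by
    refine intervalIntegral.integral_congr_ae ?_
    have hne : ∀ᵐ t : ℝ, t ≠ r := by rw [ae_iff]; simp
    filter_upwards [hne] with t ht hmem
    rw [uIoc_of_le hr] at hmem
    unfold sm
    rw [if_pos ⟨hmem.1, (lt_of_le_of_ne hmem.2 ht).trans_le hrd⟩]
    ring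
  rw [h1, intervalIntegral.integral_const_mul, integral_pow]
  push_cast
  field_simp
  ring

namespace Scat

variable {W : ℝ → ℝ} {R₀ R a : ℝ} {f Q : ℝ → ℝ}

section
variable (h : Scat W R₀ R a f Q) {δ : ℝ} (hδ : 0 < δ) (hδ2 : 0 < R₀ → δ ≤ R₀ / 2)
include h hδ hδ2

lemma e1_nonneg (t : ℝ) : 0 ≤ e1 W R₀ δ f Q t := by
  unfold e1
  split_ifs
  · exact add_nonneg (div_nonneg (h.Q_nonneg _) hδ.le)
      (mul_nonneg (mul_nonneg (sq_nonneg t) (h.W_nonneg t)) (h.f_nonneg t))
  · exact add_nonneg le_rfl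
      (mul_nonneg (mul_nonneg (sq_nonneg t) (h.W_nonneg t)) (h.f_nonneg t))
  · exact le_rfl

lemma e1_meas : Measurable (e1 W R₀ δ f Q) := by
  unfold e1
  refine Measurable.ite measurableSet_Ioi ?_ measurable_const
  refine Measurable.add ?_ h.F_meas
  exact Measurable.ite (measurableSet_Ioi.inter measurableSet_Iio) measurable_const measurable_const

lemma e1_bd : ∃ C, 0 ≤ C ∧ ∀ t, |e1 W R₀ δ f Q t| ≤ C * t ^ 2 := by
  obtain ⟨M, hM0, hM⟩ := h.exists_M
  have ha := h.a_pos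
  refine ⟨a / δ / (R₀ / 2) ^ 2 + M, by positivity, fun t => ?_⟩
  rw [abs_of_nonneg (h.e1_nonneg hδ hδ2 t)]
  unfold e1
  have hpos : 0 ≤ a / δ / (R₀ / 2) ^ 2 * t ^ 2 := by positivity
  have h1 : t ^ 2 * W t * f t ≤ M * t ^ 2 := by
    calc t ^ 2 * W t * f t ≤ t ^ 2 * W t * 1 :=
          mul_le_mul_of_nonneg_left (h.f_le_one t) (mul_nonneg (sq_nonneg t) (h.W_nonneg t))
      _ ≤ t ^ 2 * M := by rw [mul_one]; exact mul_le_mul_of_nonneg_left (hM t) (sq_nonneg t)
      _ = M * t ^ 2 := mul_comm _ _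
  rw [add_mul]
  split_ifs with h2 h3
  · refine add_le_add ?_ h1
    have hR0 : 0 < R₀ := h2.trans h3.2
    have h4 : R₀ / 2 ≤ t := by linarith [hδ2 hR0, h3.1]
    have h5 : (R₀ / 2) ^ 2 ≤ t ^ 2 := pow_le_pow_left₀ (by linarith) h4 2
    have h6 : Q R₀ / δ ≤ a / δ := div_le_div_of_nonneg_right (h.Q_le _) hδ.le
    refine h6.trans ?_
    rw [div_mul_eq_mul_div, le_div_iff₀ (by positivity)]
    exact mul_le_mul_of_nonneg_left h5 (by positivity)
  · linarith
  · have : 0 ≤ M * t ^ 2 := by positivity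
    linarith

lemma e1_locInt : LocallyIntegrable (e1 W R₀ δ f Q) volume := by
  obtain ⟨C, hC0, hC⟩ := h.e1_bd hδ hδ2
  have h1 : LocallyIntegrable (fun t : ℝ => C * t ^ 2) volume :=
    (Continuous.locallyIntegrable (by fun_prop))
  refine h1.mono (h.e1_meas hδ hδ2).aestronglyMeasurable (Eventually.of_forall fun t => ?_)
  rw [Real.norm_eq_abs, Real.norm_eq_abs, abs_of_nonneg (mul_nonneg hC0 (sq_nonneg t))]
  exact hC t

lemma e1_int (r s : ℝ) : IntervalIntegrable (e1 W R₀ δ f Q) volume r s :=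
  intervalIntegrable_iff.mpr
    (((h.e1_locInt hδ hδ2).integrableOn_isCompact isCompact_uIcc).mono_set uIoc_subset_uIcc)

/-- cumulative charge -/
lemma E_mono {r s : ℝ} (hrs : r ≤ s) :
    ∫ t in (0:ℝ)..r, e1 W R₀ δ f Q t ≤ ∫ t in (0:ℝ)..s, e1 W R₀ δ f Q t := by
  have h1 := intervalIntegral.integral_interval_sub_left (h.e1_int hδ hδ2 0 s) (h.e1_int hδ hδ2 0 r)
  have h2 : 0 ≤ ∫ t in r..s, e1 W R₀ δ f Q t :=
    intervalIntegral.integral_nonneg hrs fun t _ => h.e1_nonneg hδ hδ2 t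
  linarith

lemma E_small {r : ℝ} (hr0 : 0 ≤ r) (hr : r ≤ R₀ - δ) :
    ∫ t in (0:ℝ)..r, e1 W R₀ δ f Q t = 0 := by
  rw [intervalIntegral.integral_congr_ae (g := fun _ => (0:ℝ))]
  · simp
  · refine Eventually.of_forall fun t hmem => ?_
    rw [uIoc_of_le hr0] at hmem
    have hR0 : 0 < R₀ := by linarith
    unfold e1
    rw [if_pos hmem.1, if_neg (fun hh => by linarith [hh.1, hmem.2]),
      h.f_core t hR0 (by linarith [hmem.2])]
    simp

lemma E_R₀ : ∫ t in (0:ℝ)..R₀, e1 W R₀ δ f Q t = Q R₀ := by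
  rcases h.R₀_nonneg.eq_or_lt with h0 | h0
  · rw [← h0, h.Q_zero' 0 le_rfl]; simp
  · have h1 := h.E_small hδ hδ2 (r := R₀ - δ) (by linarith [hδ2 h0]) le_rfl
    have h2 := intervalIntegral.integral_add_adjacent_intervals
      (h.e1_int hδ hδ2 0 (R₀ - δ)) (h.e1_int hδ hδ2 (R₀ - δ) R₀)
    rw [← h2, h1, zero_add]
    have h3 : ∫ t in (R₀ - δ)..R₀, e1 W R₀ δ f Q t = ∫ t in (R₀ - δ)..R₀, Q R₀ / δ := by
      refine intervalIntegral.integral_congr_ae ?_
      have hne : ∀ᵐ t : ℝ, t ≠ R₀ := by rw [ae_iff]; simp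
      filter_upwards [hne] with t ht hmem
      rw [uIoc_of_le (by linarith)] at hmem
      have ht0 : 0 < t := by linarith [hδ2 h0, hmem.1]
      unfold e1
      rw [if_pos ht0, if_pos ⟨hmem.1, lt_of_le_of_ne hmem.2 ht⟩, h.f_core t h0 hmem.2]
      simp
    rw [h3, intervalIntegral.integral_const, smul_eq_mul]
    field_simp
    ring

lemma E_eq {r : ℝ} (hr : R₀ ≤ r) : ∫ t in (0:ℝ)..r, e1 W R₀ δ f Q t = Q r := by
  rw [← intervalIntegral.integral_add_adjacent_intervals
      (h.e1_int hδ hδ2 0 R₀) (h.e1_int hδ hδ2 R₀ r), h.E_R₀ hδ hδ2]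
  have h3 : ∫ t in R₀..r, e1 W R₀ δ f Q t = ∫ t in R₀..r, t ^ 2 * W t * f t := by
    refine intervalIntegral.integral_congr_ae ?_
    refine Eventually.of_forall fun t hmem => ?_
    rw [uIoc_of_le hr] at hmem
    have ht0 : 0 < t := h.R₀_nonneg.trans_lt hmem.1
    unfold e1
    rw [if_pos ht0, if_neg (fun hh => by linarith [hh.2, hmem.1])]
    simp
  rw [h3, ← h.Q_int R₀ r le_rfl hr]
  ring

lemma E_nonneg {r : ℝ} (hr : 0 ≤ r) : 0 ≤ ∫ t in (0:ℝ)..r, e1 W R₀ δ f Q t :=
  intervalIntegral.integral_nonneg hr fun t _ => h.e1_nonneg hδ hδ2 t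

lemma E_le_a (r : ℝ) : ∫ t in (0:ℝ)..r, e1 W R₀ δ f Q t ≤ a := by
  rcases le_total R₀ r with hr | hr
  · rw [h.E_eq hδ hδ2 hr]; exact h.Q_le r
  · exact (h.E_mono hδ hδ2 hr).trans (by rw [h.E_R₀ hδ hδ2]; exact h.Q_le _)

variable {d : ℝ} (hd : R ≤ d) (hd2 : d < 1/2)
include hd hd2

lemma d_pos : 0 < d := h.R_pos.trans_le hd

/-- The inner density. -/
theorem dens1 : Dens d (fun t => e1 W R₀ δ f Q t - sm a d t) where
  b_pos := h.R_pos.trans_le hd
  b_lt := hd2
  meas := (h.e1_meas hδ hδ2).sub (sm_meas a d)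
  bd := by
    obtain ⟨C, hC0, hC⟩ := h.e1_bd hδ hδ2
    have ha := h.a_pos
    have hd0 : 0 < d := h.R_pos.trans_le hd
    refine ⟨C + 3 * a / d ^ 3, by positivity, fun t => ?_⟩
    refine (abs_sub _ _).trans ?_
    rw [add_mul]
    refine add_le_add (hC t) ?_
    rw [abs_of_nonneg (sm_nonneg ha.le hd0 t)]
    unfold sm
    split_ifs
    · exact le_of_eq (by ring)
    · positivity
  zero := by
    intro t ht
    have ht0 : 0 < t := (h.R_pos.trans_le hd).trans_le ht
    have hR0t : R₀ ≤ t := h.R₀_le.trans (hd.trans ht)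
    unfold e1 sm
    rw [if_pos ht0, if_neg (fun hh => by linarith [hh.2]), if_neg (fun hh => by linarith [hh.2]),
      h.W_zero t (hd.trans ht)]
    simp
  zero' := by
    intro t ht
    unfold e1 sm
    rw [if_neg (not_lt.2 ht), if_neg (fun hh => by linarith [hh.1])]
    simp
  tot := by
    have hd0 : 0 < d := h.R_pos.trans_le hd
    have hs : IntervalIntegrable (sm a d) volume 0 d := by
      refine (intervalIntegrable_const (c := 3 * a / d ^ 3 * d ^ 2)).mono_fun
        (sm_meas a d).aestronglyMeasurable ?_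
      refine (ae_restrict_iff' measurableSet_uIoc).2 (Eventually.of_forall fun t ht => ?_)
      rw [uIoc_of_le hd0.le] at ht
      have ha := h.a_pos
      dsimp only
      rw [Real.norm_eq_abs, Real.norm_eq_abs, abs_of_nonneg (sm_nonneg ha.le hd0 t),
        abs_of_nonneg (by positivity)]
      unfold sm
      split_ifs
      · calc 3 * a * t ^ 2 / d ^ 3 = 3 * a / d ^ 3 * t ^ 2 := by ring
          _ ≤ 3 * a / d ^ 3 * d ^ 2 :=
            mul_le_mul_of_nonneg_left (pow_le_pow_left₀ ht.1.le ht.2 2) (by positivity)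
      · positivity
    rw [intervalIntegral.integral_sub (h.e1_int hδ hδ2 0 d) hs, sm_integral hd0 hd0.le le_rfl,
      h.E_eq hδ hδ2 (h.R₀_le.trans hd), h.Q_out d hd]
    field_simp
    ring

lemma sm_int (r : ℝ) : IntervalIntegrable (sm a d) volume 0 r := by
  have hd0 : 0 < d := h.R_pos.trans_le hd
  have ha := h.a_pos
  have h1 : LocallyIntegrable (fun t : ℝ => 3 * a / d ^ 3 * t ^ 2) volume :=
    (Continuous.locallyIntegrable (by fun_prop))
  have h2 : LocallyIntegrable (sm a d) volume := by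
    refine h1.mono (sm_meas a d).aestronglyMeasurable (Eventually.of_forall fun t => ?_)
    rw [Real.norm_eq_abs, Real.norm_eq_abs, abs_of_nonneg (sm_nonneg ha.le hd0 t),
      abs_of_nonneg (by positivity)]
    unfold sm
    split_ifs
    · exact le_of_eq (by ring)
    · positivity
  exact intervalIntegrable_iff.mpr
    ((h2.integrableOn_isCompact isCompact_uIcc).mono_set uIoc_subset_uIcc)

lemma flux1 {r : ℝ} (hr : 0 ≤ r) (hrd : r ≤ d) :
    flux (fun t => e1 W R₀ δ f Q t - sm a d t) r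
      = (∫ t in (0:ℝ)..r, e1 W R₀ δ f Q t) - a * r ^ 3 / d ^ 3 := by
  have hd0 : 0 < d := h.R_pos.trans_le hd
  unfold flux
  rw [intervalIntegral.integral_sub (h.e1_int hδ hδ2 0 r) (h.sm_int hδ hδ2 hd hd2 r),
    sm_integral hd0 hr hrd]

lemma flux1_le {r : ℝ} (hr : 0 ≤ r) :
    |flux (fun t => e1 W R₀ δ f Q t - sm a d t) r| ≤ a := by
  have hd0 : 0 < d := h.R_pos.trans_le hd
  have ha := h.a_pos
  rcases le_total r d with hrd | hrd
  · rw [h.flux1 hδ hδ2 hd hd2 hr hrd]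
    have h1 := h.E_nonneg hδ hδ2 hr
    have h2 := h.E_le_a hδ hδ2 r
    have h3 : 0 ≤ a * r ^ 3 / d ^ 3 := by positivity
    have h4 : a * r ^ 3 / d ^ 3 ≤ a := by
      rw [div_le_iff₀ (by positivity)]
      exact mul_le_mul_of_nonneg_left (pow_le_pow_left₀ hr hrd 3) ha.le
    rw [abs_le]; constructor <;> linarith
  · rw [(h.dens1 hδ hδ2 hd hd2).flux_b hrd]
    simpa using ha.le

/-- Energy of the inner field. -/
theorem field1 : (∫ r in (0:ℝ)..d, (flux (fun t => e1 W R₀ δ f Q t - sm a d t) r) ^ 2 / r ^ 2)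
      + (∫ r in R₀..d, r ^ 2 * W r * f r ^ 2)
    ≤ a - 2 * a ^ 2 / d + a ^ 2 * R ^ 2 / d ^ 3 + a ^ 2 / (5 * d)
      + (if R₀ = 0 then 0 else 4 * δ * a ^ 2 / R₀ ^ 2) := by
  have hd0 : 0 < d := h.R_pos.trans_le hd
  have ha := h.a_pos
  have hR0d : R₀ ≤ d := h.R₀_le.trans hd
  set g : ℝ → ℝ := fun t => e1 W R₀ δ f Q t - sm a d t with hg
  have hD : Dens d g := h.dens1 hδ hδ2 hd hd2
  obtain ⟨C, hC0, hC⟩ := hD.bd
  -- integrability
  have hm : Measurable (fun r => (flux g r) ^ 2 / r ^ 2) :=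
    (hD.flux_cont.measurable.pow_const 2).div (measurable_id.pow_const 2)
  have hI : ∀ r s : ℝ, 0 ≤ r → r ≤ s → IntervalIntegrable (fun r => (flux g r) ^ 2 / r ^ 2) volume r s := by
    intro r s hr hrs
    have h1 : IntervalIntegrable (fun r : ℝ => (C * r ^ 2 / 3) ^ 2) volume r s :=
      Continuous.intervalIntegrable (by fun_prop) _ _
    refine h1.mono_fun hm.aestronglyMeasurable ?_
    refine (ae_restrict_iff' measurableSet_uIoc).2 (Eventually.of_forall fun t ht => ?_)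
    rw [uIoc_of_le hrs] at ht
    have ht0 : 0 < t := hr.trans_lt ht.1
    dsimp only
    rw [Real.norm_eq_abs, Real.norm_eq_abs, abs_of_nonneg (by positivity), abs_of_nonneg (by positivity),
      div_le_iff₀ (by positivity)]
    have h2 := pow_le_pow_left₀ (abs_nonneg _) (hD.flux_le hC0 hC ht0.le) 2
    rw [sq_abs] at h2
    refine h2.trans (le_of_eq (by ring))
  rw [← intervalIntegral.integral_add_adjacent_intervals (hI 0 R₀ le_rfl h.R₀_nonneg)
    (hI R₀ d h.R₀_nonneg hR0d)]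
  -- inner region
  have hin : ∫ r in (0:ℝ)..R₀, (flux g r) ^ 2 / r ^ 2
      ≤ (if R₀ = 0 then 0 else 4 * δ * a ^ 2 / R₀ ^ 2) + ∫ r in (0:ℝ)..R₀, a ^ 2 * r ^ 4 / d ^ 6 := by
    rcases h.R₀_nonneg.eq_or_lt with h0 | h0
    · rw [← h0, if_pos rfl]; simp
    · rw [if_neg h0.ne']
      have hδ3 := hδ2 h0
      have hp : IntervalIntegrable (fun r : ℝ => a ^ 2 * r ^ 4 / d ^ 6) volume 0 R₀ :=
        Continuous.intervalIntegrable (by fun_prop) _ _
      have hsh : IntervalIntegrable (fun r : ℝ => if R₀ - δ < r then 4 * a ^ 2 / R₀ ^ 2 else 0)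
          volume 0 R₀ := by
        refine (intervalIntegrable_const (c := 4 * a ^ 2 / R₀ ^ 2)).mono_fun
          (Measurable.ite measurableSet_Ioi measurable_const measurable_const).aestronglyMeasurable
          (Eventually.of_forall fun t => ?_)
        dsimp only
        split_ifs
        · exact le_rfl
        · rw [norm_zero]; exact norm_nonneg _
      have h1 : ∫ r in (0:ℝ)..R₀, (flux g r) ^ 2 / r ^ 2
          ≤ ∫ r in (0:ℝ)..R₀, ((if R₀ - δ < r then 4 * a ^ 2 / R₀ ^ 2 else 0)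
            + a ^ 2 * r ^ 4 / d ^ 6) := by
        refine intervalIntegral.integral_mono_on_of_le_Ioo h0.le (hI 0 R₀ le_rfl h0.le)
          (hsh.add hp) fun r hr => ?_
        have hrd : r ≤ d := hr.2.le.trans hR0d
        rw [h.flux1 hδ hδ2 hd hd2 hr.1.le hrd]
        have hE0 := h.E_nonneg hδ hδ2 hr.1.le
        have hEa := h.E_le_a hδ hδ2 r
        set E := ∫ t in (0:ℝ)..r, e1 W R₀ δ f Q t with hE
        have hS0 : 0 ≤ a * r ^ 3 / d ^ 3 := by
          have := hr.1; positivity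
        have h2 : (E - a * r ^ 3 / d ^ 3) ^ 2 ≤ E ^ 2 + (a * r ^ 3 / d ^ 3) ^ 2 := by
          nlinarith [mul_nonneg hE0 hS0]
        have h3 : (E - a * r ^ 3 / d ^ 3) ^ 2 / r ^ 2 ≤ E ^ 2 / r ^ 2 + a ^ 2 * r ^ 4 / d ^ 6 := by
          have hr0 := hr.1
          calc (E - a * r ^ 3 / d ^ 3) ^ 2 / r ^ 2 ≤ (E ^ 2 + (a * r ^ 3 / d ^ 3) ^ 2) / r ^ 2 :=
                div_le_div_of_nonneg_right h2 (sq_nonneg r)
            _ = _ := by field_simp
        refine h3.trans (add_le_add ?_ le_rfl)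
        split_ifs with h4
        · have h5 : R₀ / 2 ≤ r := by linarith
          rw [div_le_div_iff₀ (by have := hr.1; positivity) (by positivity)]
          have h6 : E ^ 2 ≤ a ^ 2 := pow_le_pow_left₀ hE0 hEa 2
          have h7 : R₀ ^ 2 ≤ 4 * r ^ 2 := by
            have := pow_le_pow_left₀ (by linarith) h5 2
            linarith
          calc E ^ 2 * R₀ ^ 2 ≤ a ^ 2 * (4 * r ^ 2) :=
                mul_le_mul h6 h7 (sq_nonneg _) (sq_nonneg _)
            _ = _ := by ring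
        · have h5 := h.E_small hδ hδ2 hr.1.le (not_lt.1 h4)
          rw [hE, h5]; simp
      refine h1.trans ?_
      rw [intervalIntegral.integral_add hsh hp]
      refine add_le_add ?_ le_rfl
      have hsh1 : IntervalIntegrable (fun r : ℝ => if R₀ - δ < r then 4 * a ^ 2 / R₀ ^ 2 else 0)
          volume 0 (R₀ - δ) := hsh.mono_set (by
            rw [uIcc_of_le (by linarith), uIcc_of_le h0.le]
            exact Icc_subset_Icc le_rfl (by linarith))
      have hsh2 : IntervalIntegrable (fun r : ℝ => if R₀ - δ < r then 4 * a ^ 2 / R₀ ^ 2 else 0)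
          volume (R₀ - δ) R₀ := hsh.mono_set (by
            rw [uIcc_of_le (by linarith), uIcc_of_le h0.le]
            exact Icc_subset_Icc (by linarith) le_rfl)
      rw [← intervalIntegral.integral_add_adjacent_intervals hsh1 hsh2]
      have e1' : ∫ r in (0:ℝ)..(R₀ - δ), (if R₀ - δ < r then 4 * a ^ 2 / R₀ ^ 2 else 0) = 0 := by
        rw [intervalIntegral.integral_congr (g := fun _ => (0:ℝ))]
        · simp
        · intro t ht
          rw [uIcc_of_le (by linarith)] at ht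
          dsimp only
          rw [if_neg (not_lt.2 ht.2)]
      have e2' : ∫ r in (R₀ - δ)..R₀, (if R₀ - δ < r then 4 * a ^ 2 / R₀ ^ 2 else 0)
          = ∫ r in (R₀ - δ)..R₀, 4 * a ^ 2 / R₀ ^ 2 := by
        refine intervalIntegral.integral_congr_ae (Eventually.of_forall fun t ht => ?_)
        rw [uIoc_of_le (by linarith)] at ht
        rw [if_pos ht.1]
      rw [e1', e2', intervalIntegral.integral_const, smul_eq_mul, zero_add]
      refine le_of_eq ?_
      ring
  -- outer region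
  have hQi : IntervalIntegrable (fun r => Q r * r) volume R₀ d :=
    (h.Q_mono.intervalIntegrable).mul_continuousOn continuousOn_id
  have hp' : IntervalIntegrable (fun r : ℝ => a ^ 2 * r ^ 4 / d ^ 6) volume R₀ d :=
    Continuous.intervalIntegrable (by fun_prop) _ _
  have hWf : IntervalIntegrable (fun r => r ^ 2 * W r * f r ^ 2) volume R₀ d := by
    obtain ⟨M, hM0, hM⟩ := h.exists_M
    have h1 : IntervalIntegrable (fun r : ℝ => r ^ 2 * M) volume R₀ d :=
      (Continuous.intervalIntegrable (by fun_prop) _ _)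
    refine h1.mono_fun (((measurable_id.pow_const 2).mul h.W_meas).mul
      (h.f_cont.measurable.pow_const 2)).aestronglyMeasurable (Eventually.of_forall fun r => ?_)
    have := h.W_nonneg r
    dsimp only
    rw [Real.norm_eq_abs, Real.norm_eq_abs, abs_of_nonneg (by positivity), abs_of_nonneg (by positivity)]
    calc r ^ 2 * W r * f r ^ 2 ≤ r ^ 2 * W r * 1 :=
          mul_le_mul_of_nonneg_left (pow_le_one₀ (h.f_nonneg r) (h.f_le_one r))
            (mul_nonneg (sq_nonneg r) (h.W_nonneg r))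
      _ ≤ r ^ 2 * M := by rw [mul_one]; exact mul_le_mul_of_nonneg_left (hM r) (sq_nonneg r)
  have hQ2 : IntervalIntegrable (fun r => Q r ^ 2 / r ^ 2) volume R₀ d := by
    have := (h.energy_int d).sub hWf
    refine this.congr_ae (Eventually.of_forall fun r => ?_)
    simp only [Pi.sub_apply]
    ring
  have hout : ∫ r in R₀..d, (flux g r) ^ 2 / r ^ 2
      = (∫ r in R₀..d, Q r ^ 2 / r ^ 2) - 2 * a / d ^ 3 * (∫ r in R₀..d, Q r * r)
        + ∫ r in R₀..d, a ^ 2 * r ^ 4 / d ^ 6 := by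
    rw [← intervalIntegral.integral_const_mul, ← intervalIntegral.integral_sub hQ2 (hQi.const_mul _),
      ← intervalIntegral.integral_add (hQ2.sub (hQi.const_mul _)) hp']
    refine intervalIntegral.integral_congr_ae (Eventually.of_forall fun r hr => ?_)
    rw [uIoc_of_le hR0d] at hr
    have hr0 : 0 < r := h.R₀_nonneg.trans_lt hr.1
    rw [h.flux1 hδ hδ2 hd hd2 hr0.le hr.2, h.E_eq hδ hδ2 hr.1.le]
    field_simp
    ring
  have hen := h.energy hd
  rw [intervalIntegral.integral_add hQ2 hWf] at hen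
  have hmo := h.moment hd
  have hpp : (∫ r in (0:ℝ)..R₀, a ^ 2 * r ^ 4 / d ^ 6) + ∫ r in R₀..d, a ^ 2 * r ^ 4 / d ^ 6
      = a ^ 2 / (5 * d) := by
    rw [intervalIntegral.integral_add_adjacent_intervals
      (Continuous.intervalIntegrable (by fun_prop) _ _)
      (Continuous.intervalIntegrable (by fun_prop) _ _)]
    have : ∀ r : ℝ, a ^ 2 * r ^ 4 / d ^ 6 = a ^ 2 / d ^ 6 * r ^ 4 := fun r => by ring
    simp_rw [this]
    rw [intervalIntegral.integral_const_mul, integral_pow]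
    push_cast
    field_simp
    ring
  have hmo2 : 2 * a / d ^ 3 * (a * (d ^ 2 - R ^ 2) / 2) ≤ 2 * a / d ^ 3 * (∫ r in R₀..d, Q r * r) :=
    mul_le_mul_of_nonneg_left hmo (by positivity)
  have e3 : 2 * a / d ^ 3 * (a * (d ^ 2 - R ^ 2) / 2) = a ^ 2 / d - a ^ 2 * R ^ 2 / d ^ 3 := by
    field_simp
  have e4 : a * (1 - a / d) = a - a ^ 2 / d := by field_simp
  have e5 : 2 * a ^ 2 / d = a ^ 2 / d + a ^ 2 / d := by ring
  rw [e3] at hmo2
  rw [e4] at hen
  rw [e5]
  linarith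

end

end Scat

end Pool.Agent.Lib.MP_4952d6_mp

end

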