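import Pool.Agent.Lib.MP_4952d6_mp.Pk.G39
import Pool.Agent.Lib.MP_4952d6_mp.Pk.G42

/-! Merged modules (to save import time): LB.BBb, LB.WWb. -/

/-! ### LB.BBb -/

section

/-!
# LB.BBb: the term `⟪B_j, kap_j B_j⟫` (L6.3)

Expand with `inner_sum_sum` (`u l = QQ1 t l (HP h j l (Phi1 t j l ψ))`, `v m = S1 (kap t) j (u m)`).

Diagonal: `⟪Q_l f, kap_j Q_l f⟫ ≤ ⟪f, kap_j f⟫` (`S1`'s commute, `0 ≤ 1 - et ≤ 1`, `inner_DM_mono`) with
`f = h_{jl} Φ¹_{jl}`, then `kap_diag`.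

Off-diagonal (`l ≠ m`, both `≠ j`): move `Q_l` to the right and `Q_m` to the left (`S1_symm`, `S1_comm`,
`S1_HP_comm`, `Phi1_S1`):
`⟪Q_l h_{jl} Φ¹_{jl}[ψ], kap_j Q_m h_{jm} Φ¹_{jm}[ψ]⟫ = ⟪h_{jl} Φ¹_{jl}[Q_m ψ], kap_j h_{jm} Φ¹_{jm}[Q_l ψ]⟫`,
`|...| ≤ (t/2) M` by `kap_le_of`, `pair_hk`, `q_three` (for `F = Q_m ψ` with `(j,l,m)`, and for `F = Q_l ψ` with
`(j,m,l)`), `M = (C/2) H² [qf(hk(8t)(x_m-x_j) hk(8t)(x_m-x_l)) (Q_m ψ) + ‖Q_m ψ‖²] + same with l, m exchanged`.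
Sum over all distinct `(j,l,m)` (`sum_triple`, `sum_triple_swap`), `sum_hk_hk_le` with `s = r = 8t`.
-/

set_option autoImplicit false
set_option linter.unusedSectionVars false
set_option linter.unusedVariables false
open MeasureTheory Function Filter Topology Set ComplexConjugate

namespace Pool.Agent.Lib.MP_4952d6_mp.LB

lemma BBb_bdm_q {t : ℝ} (ht : 0 ≤ t) : Bdm (fun p : Fin 3 → ℤ => 1 - et t p) :=
  (Bdm.const 1).sub (bdm_et ht)

/-- Diagonal part, one pair. -/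
lemma BB_diag {N : ℕ} {t H R : ℝ} (ht : 0 < t) {h : T3 → ℝ} (hh : SR H R h) {j l : Fin N}
    (hjl : j ≠ l) (ψ : HS (Fin N)) :
    (inner ℂ (QQ1 t l (HP h j l (Phi1 t j l ψ)))
        (S1 (kap t) j (QQ1 t l (HP h j l (Phi1 t j l ψ))))).re
      ≤ qf (fun x => h (x j - x l) * KK t h (x j - x l)) (Phi1 t j l ψ) := by
  have hq := BBb_bdm_q ht.le
  have hk := bdm_kap ht.le
  have hstep : (inner ℂ (QQ1 t l (HP h j l (Phi1 t j l ψ)))
        (S1 (kap t) j (QQ1 t l (HP h j l (Phi1 t j l ψ))))).re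
      ≤ (inner ℂ (HP h j l (Phi1 t j l ψ)) (S1 (kap t) j (HP h j l (Phi1 t j l ψ)))).re := by
    generalize HP h j l (Phi1 t j l ψ) = f
    unfold QQ1
    rw [S1_symm hq l]
    have hql : Bdm (fun k : Fin N → Fin 3 → ℤ => 1 - et t (k l)) := by
      obtain ⟨C, hC⟩ := hq
      exact ⟨C, fun k => hC (k l)⟩
    have hkj : Bdm (fun k : Fin N → Fin 3 → ℤ => kap t (k j)) := by
      obtain ⟨C, hC⟩ := hk
      exact ⟨C, fun k => hC (k j)⟩
    unfold S1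
    rw [DM_DM hkj hql, DM_DM hql (hkj.mul hql)]
    refine inner_DM_mono (hql.mul (hkj.mul hql)) hkj (fun k => ?_) f
    have h1 := et_pos t (k l)
    have h2 := et_le_one ht.le (k l)
    have h3 := kap_nonneg ht.le (k j)
    have h4 : (1 - et t (k l)) * (kap t (k j) * (1 - et t (k l)))
        = kap t (k j) * (1 - et t (k l)) ^ 2 := by ring
    rw [h4]
    have h5 : (1 - et t (k l)) ^ 2 ≤ 1 := pow_le_one₀ (by linarith) (by linarith)
    nlinarith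
  exact hstep.trans (kap_diag ht hh.bm hh.nonneg hh.even hjl _)

/-- Moving the `Q`'s. -/
lemma BB_move {N : ℕ} {t H R : ℝ} (ht : 0 < t) {h : T3 → ℝ} (hh : SR H R h) {j l m : Fin N}
    (hjl : j ≠ l) (hjm : j ≠ m) (hlm : l ≠ m) (ψ : HS (Fin N)) :
    inner ℂ (QQ1 t l (HP h j l (Phi1 t j l ψ))) (S1 (kap t) j (QQ1 t m (HP h j m (Phi1 t j m ψ))))
      = inner ℂ (HP h j l (Phi1 t j l (QQ1 t m ψ)))
          (S1 (kap t) j (HP h j m (Phi1 t j m (QQ1 t l ψ)))) := by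
  have hq := BBb_bdm_q ht.le
  have hk := bdm_kap ht.le
  unfold QQ1
  rw [← Phi1_S1 ht.le hq j l m ψ, ← Phi1_S1 ht.le hq j m l ψ,
    ← S1_HP_comm hh.bm hjl (Ne.symm hjm) (Ne.symm hlm) hq,
    ← S1_HP_comm hh.bm hjm (Ne.symm hjl) hlm hq,
    S1_symm hq l, S1_symm hq m, S1_comm hq hk l j, S1_comm hq hq l m,
    S1_comm hk hq j m]

/-- Off-diagonal part, one triple. -/
theorem BB_off : ∃ C : ℝ, 0 ≤ C ∧ ∀ (N : ℕ) (t H R : ℝ) (h : T3 → ℝ) (j l m : Fin N), 0 < t →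
    t ≤ 1 → SR H R h → 0 ≤ R → R ^ 2 ≤ t / 2 → j ≠ l → j ≠ m → l ≠ m → ∀ ψ : HS (Fin N),
    (inner ℂ (QQ1 t l (HP h j l (Phi1 t j l ψ)))
        (S1 (kap t) j (QQ1 t m (HP h j m (Phi1 t j m ψ))))).re
      ≤ C * t * H ^ 2 * (qf (fun x => hk (8 * t) (x m - x j) * hk (8 * t) (x m - x l)) (QQ1 t m ψ)
        + ‖QQ1 t m ψ‖ ^ 2)
      + C * t * H ^ 2 * (qf (fun x => hk (8 * t) (x l - x j) * hk (8 * t) (x l - x m)) (QQ1 t l ψ)
        + ‖QQ1 t l ψ‖ ^ 2) := by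
  obtain ⟨C, hC, hq3⟩ := q_three
  refine ⟨C / 4, by positivity, ?_⟩
  intro N t H R h j l m ht ht1 hh hR0 hR hjl hjm hlm ψ
  rw [BB_move ht hh hjl hjm hlm ψ]
  have hM := kap_le_of ht j (HP h j l (Phi1 t j l (QQ1 t m ψ)))
    (HP h j m (Phi1 t j m (QQ1 t l ψ)))
    (M := 1 / 2 * (C * H ^ 2 * (qf (fun x => hk (8 * t) (x m - x j) * hk (8 * t) (x m - x l))
          (QQ1 t m ψ) + ‖QQ1 t m ψ‖ ^ 2))
      + 1 / 2 * (C * H ^ 2 * (qf (fun x => hk (8 * t) (x l - x j) * hk (8 * t) (x l - x m))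
          (QQ1 t l ψ) + ‖QQ1 t l ψ‖ ^ 2))) ?_
  · refine (le_abs_self _).trans (hM.trans (le_of_eq ?_))
    ring
  · intro u hu hu2
    have h1 := pair_hk hu hh.bm hh.nonneg hh.even hjl hjm (Phi1 t j l (QQ1 t m ψ))
      (Phi1 t j m (QQ1 t l ψ))
    have h2 := hq3 N u t H R h j l m hu hu2 ht1 hh hR0 hR hjl hjm hlm (QQ1 t m ψ)
    have h3 := hq3 N u t H R h j m l hu hu2 ht1 hh hR0 hR hjm hjl (Ne.symm hlm) (QQ1 t l ψ)
    linarith

theorem BB_bound : ∃ C : ℝ, 0 ≤ C ∧ ∀ (N : ℕ) (t H R : ℝ) (h : T3 → ℝ), 0 < t →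
    t ≤ 1 → SR H R h → 0 ≤ R → R ^ 2 ≤ t / 2 → ∀ ψ : HS (Fin N),
    ∑ j, (inner ℂ (BBj t h ψ j) (S1 (kap t) j (BBj t h ψ j))).re
      ≤ (∑ j, ∑ l ∈ Finset.univ.erase j,
          qf (fun x => h (x j - x l) * KK t h (x j - x l)) (Phi1 t j l ψ))
        + C * t * H ^ 2 * ∑ m, cw (8 * t) m (QQ1 t m ψ) := by
  obtain ⟨C, hC, hoff⟩ := BB_off
  refine ⟨2 * C, by positivity, ?_⟩
  intro N t H R h ht ht1 hh hR0 hR ψ
  obtain ⟨T, hT⟩ : ∃ T : Fin N → Fin N → Fin N → ℝ, ∀ j l m, T j l m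
      = C * t * H ^ 2 * (qf (fun x => hk (8 * t) (x m - x j) * hk (8 * t) (x m - x l)) (QQ1 t m ψ)
        + ‖QQ1 t m ψ‖ ^ 2) := ⟨_, fun _ _ _ => rfl⟩
  have hexp : ∀ j, (inner ℂ (BBj t h ψ j) (S1 (kap t) j (BBj t h ψ j))).re
      ≤ (∑ l ∈ Finset.univ.erase j,
          qf (fun x => h (x j - x l) * KK t h (x j - x l)) (Phi1 t j l ψ))
        + ∑ l ∈ Finset.univ.erase j, ∑ m ∈ (Finset.univ.erase j).erase l,
          (T j l m + T j m l) := by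
    intro j
    unfold BBj
    rw [map_sum, inner_sum_sum]
    refine add_le_add (Finset.sum_le_sum fun l hl => ?_)
      (Finset.sum_le_sum fun l hl => Finset.sum_le_sum fun m hm => ?_)
    · exact BB_diag ht hh (Ne.symm (Finset.ne_of_mem_erase hl)) ψ
    · have hjl : j ≠ l := Ne.symm (Finset.ne_of_mem_erase hl)
      have hml : m ≠ l := Finset.ne_of_mem_erase hm
      have hjm : j ≠ m := Ne.symm (Finset.ne_of_mem_erase (Finset.mem_of_mem_erase hm))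
      rw [hT, hT]
      exact hoff N t H R h j l m ht ht1 hh hR0 hR hjl hjm (Ne.symm hml) ψ
  refine (Finset.sum_le_sum fun j _ => hexp j).trans ?_
  rw [Finset.sum_add_distrib]
  refine add_le_add le_rfl ?_
  have hone : ∑ j, ∑ l ∈ Finset.univ.erase j, ∑ m ∈ (Finset.univ.erase j).erase l, T j l m
      ≤ C * t * H ^ 2 * ∑ m, cw (8 * t) m (QQ1 t m ψ) := by
    rw [sum_triple, Finset.mul_sum]
    refine Finset.sum_le_sum fun m _ => ?_
    have h8 : (0 : ℝ) < 8 * t := by linarith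
    have h1 := sum_hk_hk_le h8 le_rfl m (QQ1 t m ψ)
    rw [div_self h8.ne', Real.sqrt_one, one_pow, one_pow, one_mul] at h1
    have h2 : 0 ≤ C * t * H ^ 2 := by positivity
    have h3 := mul_le_mul_of_nonneg_left h1 h2
    refine le_trans (le_of_eq ?_) h3
    rw [Finset.mul_sum]
    refine Finset.sum_congr rfl fun j _ => ?_
    rw [Finset.mul_sum]
    exact Finset.sum_congr rfl fun l _ => hT j l m
  have htwo : ∑ j, ∑ l ∈ Finset.univ.erase j, ∑ m ∈ (Finset.univ.erase j).erase l, T j m l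
      ≤ C * t * H ^ 2 * ∑ m, cw (8 * t) m (QQ1 t m ψ) := by
    rw [← sum_triple_swap]
    exact hone
  have hsplit : ∑ j, ∑ l ∈ Finset.univ.erase j, ∑ m ∈ (Finset.univ.erase j).erase l,
      (T j l m + T j m l)
      = (∑ j, ∑ l ∈ Finset.univ.erase j, ∑ m ∈ (Finset.univ.erase j).erase l, T j l m)
        + ∑ j, ∑ l ∈ Finset.univ.erase j, ∑ m ∈ (Finset.univ.erase j).erase l, T j m l := by
    simp only [Finset.sum_add_distrib]
  rw [hsplit]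
  have hfin : 2 * C * t * H ^ 2 * ∑ m, cw (8 * t) m (QQ1 t m ψ)
      = C * t * H ^ 2 * ∑ m, cw (8 * t) m (QQ1 t m ψ)
        + C * t * H ^ 2 * ∑ m, cw (8 * t) m (QQ1 t m ψ) := by ring
  rw [hfin]
  exact add_le_add hone htwo

end Pool.Agent.Lib.MP_4952d6_mp.LB

end

/-! ### LB.WWb -/

section

/-!
# LB.WWb: the vectors `W'_j` and the diagonal sums (L6.6)

`WW_diag`: `norm_S1_HP_le` with `w = hk (t/2)`, `∫ (hk (t/2))² = hk t 0` (`hk_conv`, `hk_neg`),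
`hk t 0 ≤ (1 + (4πt)^{-1/2})³ ≤ C t^{-3/2}` (`hk_le`, `t ≤ 1`).

`WW_off`, `l ≠ m`: move `P_l` to the right, `P_m` to the left (`S1_HP_comm`, `Phi1_S1`):
`⟪P_l h_{jl} Φ¹_{jl}, P_m h_{jm} Φ¹_{jm}⟫ = ⟪h_{jl} P_m Φ¹_{jl}, h_{jm} P_l Φ¹_{jm}⟫` and this is
`⟪P_m Φ¹_{jl}, MB (h_{jl} h_{jm}) P_l Φ¹_{jm}⟫`, bounded by `abs_inner_MB_le` with `c = 1` and `q_hh` (for `(j,l,m)` and
for `(j,m,l)`; the weight is symmetric in `l`, `m`).

`WW_bound`: `‖W'_j‖²` by `inner_sum_sum`, sum over `j`; `hk (4t)`, `hk (2t)` are replaced by `hk (8t)` with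
`sum_hk_hk_le`, `sum_hk_le` (`√(r/s)³` is an absolute constant); for the terms `qf (hk(2t)(x_l-x_m)) (perp l ψ)` summed
over `j` there are at most `N` choices of `j`: total `N qf (crowd (2t) l) (perp l ψ) ≤ C cw (8t) l (perp l ψ)`.

`S1_bound` (`q_h_Phi1` summed): `∑_{j≠l} qf h_{jl} Φ¹_{jl} ≤ C H ∑_j [qf (crowd (2t) j)(perp j ψ) + N ‖perp j ψ‖²]
  ≤ C (H/N) ∑_j cw (8t) j (perp j ψ)`.
-/

set_option autoImplicit false
set_option linter.unusedSectionVars false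
set_option linter.unusedVariables false
open MeasureTheory Function Filter Topology Set ComplexConjugate

namespace Pool.Agent.Lib.MP_4952d6_mp.LB

lemma WWb_hk_sq {t : ℝ} (ht : 0 < t) : ∫ y, hk (t / 2) y ^ 2 ∂lam3 = hk t 0 := by
  have h1 := hk_conv (half_pos ht) (half_pos ht) 0
  rw [add_halves] at h1
  rw [← h1]
  refine integral_congr_ae (Eventually.of_forall fun y => ?_)
  simp only [zero_sub, hk_neg]
  ring

lemma WWb_hk_zero {t : ℝ} (ht : 0 < t) (ht1 : t ≤ 1) : hk t 0 ≤ 8 * (Real.sqrt t)⁻¹ ^ 3 := by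
  have h1 := hk_le ht 0
  have hs : 0 < Real.sqrt t := Real.sqrt_pos.mpr ht
  have h2 : Real.sqrt t ≤ Real.sqrt (4 * Real.pi * t) := by
    refine Real.sqrt_le_sqrt ?_
    have hpi := Real.pi_gt_three
    nlinarith
  have h3 : (Real.sqrt (4 * Real.pi * t))⁻¹ ≤ (Real.sqrt t)⁻¹ := inv_anti₀ hs h2
  have h4 : (1 : ℝ) ≤ (Real.sqrt t)⁻¹ := by
    rw [one_le_inv₀ hs]
    exact Real.sqrt_le_one.mpr ht1
  have h5 : 0 ≤ (Real.sqrt (4 * Real.pi * t))⁻¹ := by positivity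
  have h6 : 1 + (Real.sqrt (4 * Real.pi * t))⁻¹ ≤ 2 * (Real.sqrt t)⁻¹ := by linarith
  have h7 := pow_le_pow_left₀ (by linarith) h6 3
  have h8 : (2 * (Real.sqrt t)⁻¹) ^ 3 = 8 * (Real.sqrt t)⁻¹ ^ 3 := by ring
  rw [h8] at h7
  exact h1.trans h7

lemma WWb_H_nonneg {H R : ℝ} {h : T3 → ℝ} (hh : SR H R h) : 0 ≤ H := by
  rw [← hh.int]
  exact integral_nonneg hh.nonneg

theorem WW_diag : ∃ C : ℝ, 0 ≤ C ∧ ∀ (N : ℕ) (t H R : ℝ) (h : T3 → ℝ) (j l : Fin N), 0 < t →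
    t ≤ 1 → SR H R h → j ≠ l → ∀ f : HS (Fin N),
    ‖PP1 t l (HP h j l f)‖ ^ 2 ≤ C * (Real.sqrt t)⁻¹ ^ 3 * H * qf (fun x => h (x j - x l)) f := by
  refine ⟨8, by norm_num, ?_⟩
  intro N t H R h j l ht ht1 hh hjl f
  have h1 := norm_S1_HP_le (hk_bm (half_pos ht)) (hk_nonneg (t / 2)) (bdm_et ht.le)
    (fun p => fc3_hk (half_pos ht) p) hh.bm hh.nonneg hjl f
  rw [WWb_hk_sq ht, hh.int] at h1
  refine h1.trans ?_
  refine mul_le_mul_of_nonneg_right ?_ (qf_nonneg (fun x => hh.nonneg _) f)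
  exact mul_le_mul_of_nonneg_right (WWb_hk_zero ht ht1) (WWb_H_nonneg hh)

theorem WW_off : ∃ C : ℝ, 0 ≤ C ∧ ∀ (N : ℕ) (t H R : ℝ) (h : T3 → ℝ) (j l m : Fin N), 0 < t →
    t ≤ 1 → SR H R h → 0 ≤ R → R ^ 2 ≤ t / 2 → j ≠ l → j ≠ m → l ≠ m → ∀ ψ : HS (Fin N),
    (inner ℂ (PP1 t l (HP h j l (Phi1 t j l ψ))) (PP1 t m (HP h j m (Phi1 t j m ψ)))).re
      ≤ C * H ^ 2 * (qf (fun x => hk (4 * t) (x j - x l) * hk (4 * t) (x j - x m)) (perp j ψ)
        + qf (fun x => hk (2 * t) (x l - x m)) (perp l ψ)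
        + qf (fun x => hk (2 * t) (x m - x l)) (perp m ψ)) := by
  obtain ⟨C, hC, hq⟩ := q_hh
  refine ⟨C, hC, ?_⟩
  intro N t H R h j l m ht ht1 hh hR0 hR hjl hjm hlm ψ
  have he := bdm_et ht.le
  have hb := hh.bm
  have hmove : inner ℂ (PP1 t l (HP h j l (Phi1 t j l ψ))) (PP1 t m (HP h j m (Phi1 t j m ψ)))
      = inner ℂ (PP1 t m (Phi1 t j l ψ))
        (MB (fun x : Fin N → T3 => ((h (x j - x l) * h (x j - x m) : ℝ) : ℂ))
          (PP1 t l (Phi1 t j m ψ))) := by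
    unfold PP1
    rw [S1_symm he l, S1_comm he he l m, ← S1_symm he m,
      S1_HP_comm hb hjl (Ne.symm hjm) (Ne.symm hlm) he,
      S1_HP_comm hb hjm (Ne.symm hjl) hlm he, HP_symm hb]
    congr 1
    unfold HP
    rw [MB_MB (bmc_of_bm (bm_diff hb j l)) (bmc_of_bm (bm_diff hb j m))]
    congr 2
    funext x
    push_cast
    rfl
  rw [hmove]
  have hG : BM (fun x : Fin N → T3 => h (x j - x l) * h (x j - x m)) :=
    (bm_diff hb j l).mul (bm_diff hb j m)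
  have h1 := abs_inner_MB_le hG hG (Eventually.of_forall fun x =>
    le_of_eq (abs_of_nonneg (mul_nonneg (hh.nonneg _) (hh.nonneg _)))) one_pos
    (PP1 t m (Phi1 t j l ψ)) (PP1 t l (Phi1 t j m ψ))
  have h2 := hq N t H R h j l m ht ht1 hh hR0 hR hjl hjm hlm ψ
  have h3 := hq N t H R h j m l ht ht1 hh hR0 hR hjm hjl (Ne.symm hlm) ψ
  have e1 : (fun x : Fin N → T3 => h (x j - x m) * h (x j - x l))
      = fun x => h (x j - x l) * h (x j - x m) := by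
    funext x
    ring
  have e2 : (fun x : Fin N → T3 => hk (4 * t) (x j - x m) * hk (4 * t) (x j - x l))
      = fun x => hk (4 * t) (x j - x l) * hk (4 * t) (x j - x m) := by
    funext x
    ring
  rw [e1, e2] at h3
  have p1 := qf_nonneg (G := fun x : Fin N → T3 => hk (2 * t) (x l - x m))
    (fun x => hk_nonneg _ _) (perp l ψ)
  have p2 := qf_nonneg (G := fun x : Fin N → T3 => hk (2 * t) (x m - x l))
    (fun x => hk_nonneg _ _) (perp m ψ)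
  have hD : 0 ≤ C * H ^ 2 := by positivity
  have p3 := mul_nonneg hD p1
  have p4 := mul_nonneg hD p2
  have h4 := le_trans (le_abs_self _) h1
  rw [mul_add] at h2 h3
  rw [mul_add, mul_add]
  linarith

lemma WWb_ratio_two {t : ℝ} (ht : 0 < t) : Real.sqrt (8 * t / (2 * t)) ^ 3 = 8 := by
  have h1 : 8 * t / (2 * t) = 2 ^ 2 := by
    field_simp
    norm_num
  rw [h1, Real.sqrt_sq (by norm_num)]
  norm_num

lemma WWb_ratio_four {t : ℝ} (ht : 0 < t) : (Real.sqrt (8 * t / (4 * t)) ^ 3) ^ 2 = 8 := by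
  have h1 : 8 * t / (4 * t) = 2 := by
    field_simp
    norm_num
  rw [h1, ← pow_mul, mul_comm 3 2, pow_mul, Real.sq_sqrt (by norm_num)]
  norm_num

theorem S1_bound : ∃ C : ℝ, 0 ≤ C ∧ ∀ (N : ℕ) (t H R : ℝ) (h : T3 → ℝ), 0 < N → 0 < t →
    t ≤ 1 → SR H R h → 0 ≤ R → R ^ 2 ≤ t / 2 → ∀ ψ : HS (Fin N),
    ∑ j, ∑ l ∈ Finset.univ.erase j, qf (fun x => h (x j - x l)) (Phi1 t j l ψ)
      ≤ C * (H / N) * ∑ m, cw (8 * t) m (perp m ψ) := by
  obtain ⟨C, hC, hq⟩ := q_h_Phi1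
  refine ⟨9 * C, by positivity, ?_⟩
  intro N t H R h hN ht ht1 hh hR0 hR ψ
  have hH := WWb_H_nonneg hh
  have hNr : (0 : ℝ) < N := Nat.cast_pos.mpr hN
  have h8 : (0 : ℝ) < 8 * t := by linarith
  have h2 : (0 : ℝ) < 2 * t := by linarith
  have hD : 0 ≤ C * H := mul_nonneg hC hH
  have hA : ∑ j, ∑ l ∈ Finset.univ.erase j, qf (fun x => hk (2 * t) (x j - x l)) (perp j ψ)
      ≤ 8 / N * ∑ m, cw (8 * t) m (perp m ψ) := by
    rw [Finset.mul_sum]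
    refine Finset.sum_le_sum fun j _ => ?_
    have h3 := sum_hk_le h2 (show 2 * t ≤ 8 * t by linarith) j (perp j ψ)
    rw [WWb_ratio_two ht] at h3
    have h4 := qf_crowd_le_cw h8 j (perp j ψ)
    have h5 : qf (crowd (8 * t) j) (perp j ψ) ≤ cw (8 * t) j (perp j ψ) / N := by
      rw [le_div_iff₀ hNr, mul_comm]
      exact h4
    calc _ ≤ _ := h3
      _ ≤ 8 * (cw (8 * t) j (perp j ψ) / N) := mul_le_mul_of_nonneg_left h5 (by norm_num)
      _ = 8 / N * cw (8 * t) j (perp j ψ) := by ring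
  have hB : ∑ j : Fin N, ∑ l ∈ Finset.univ.erase j, ‖perp l ψ‖ ^ 2
      ≤ 1 / N * ∑ m, cw (8 * t) m (perp m ψ) := by
    have h3 : ∑ j : Fin N, ∑ l ∈ Finset.univ.erase j, ‖perp l ψ‖ ^ 2
        ≤ ∑ j : Fin N, ∑ l, ‖perp l ψ‖ ^ 2 := Finset.sum_le_sum fun j _ =>
      Finset.sum_le_sum_of_subset_of_nonneg (Finset.erase_subset _ _)
        (fun l _ _ => sq_nonneg _)
    refine h3.trans ?_
    rw [Finset.sum_const, Finset.card_univ, Fintype.card_fin, nsmul_eq_mul, Finset.mul_sum,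
      Finset.mul_sum]
    refine Finset.sum_le_sum fun l _ => ?_
    have h4 := sq_norm_le_cw h8 l (perp l ψ)
    rw [div_mul_eq_mul_div, one_mul, le_div_iff₀ hNr]
    calc _ = (N : ℝ) ^ 2 * ‖perp l ψ‖ ^ 2 := by ring
      _ ≤ _ := h4
  have hC1 : ∑ j, ∑ l ∈ Finset.univ.erase j, qf (fun x => h (x j - x l)) (Phi1 t j l ψ)
      ≤ ∑ j, ∑ l ∈ Finset.univ.erase j, C * H *
        (qf (fun x => hk (2 * t) (x j - x l)) (perp j ψ) + ‖perp l ψ‖ ^ 2) :=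
    Finset.sum_le_sum fun j _ => Finset.sum_le_sum fun l hl =>
      hq N t H R h j l ht ht1 hh hR0 hR (Ne.symm (Finset.ne_of_mem_erase hl)) ψ
  refine hC1.trans ?_
  have hC2 : ∑ j, ∑ l ∈ Finset.univ.erase j, C * H *
        (qf (fun x => hk (2 * t) (x j - x l)) (perp j ψ) + ‖perp l ψ‖ ^ 2)
      = C * H * ((∑ j, ∑ l ∈ Finset.univ.erase j,
          qf (fun x => hk (2 * t) (x j - x l)) (perp j ψ))
        + ∑ j : Fin N, ∑ l ∈ Finset.univ.erase j, ‖perp l ψ‖ ^ 2) := by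
    simp only [← Finset.mul_sum, Finset.sum_add_distrib]
  rw [hC2]
  have hC3 := mul_le_mul_of_nonneg_left (add_le_add hA hB) hD
  refine hC3.trans (le_of_eq ?_)
  ring

theorem WW_bound : ∃ C : ℝ, 0 ≤ C ∧ ∀ (N : ℕ) (t H R : ℝ) (h : T3 → ℝ), 0 < N → 0 < t →
    t ≤ 1 → SR H R h → 0 ≤ R → R ^ 2 ≤ t / 2 → ∀ ψ : HS (Fin N),
    ∑ j, ‖WWj t h ψ j‖ ^ 2
      ≤ C * H ^ 2 * ((Real.sqrt t)⁻¹ ^ 3 / N + 1) * ∑ m, cw (8 * t) m (perp m ψ) := by
  obtain ⟨C1, hC1, hdiag⟩ := WW_diag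
  obtain ⟨C2, hC2, hS1⟩ := S1_bound
  obtain ⟨C3, hC3, hoff⟩ := WW_off
  refine ⟨C1 * C2 + 24 * C3, by positivity, ?_⟩
  intro N t H R h hN ht ht1 hh hR0 hR ψ
  have hH := WWb_H_nonneg hh
  have hNr : (0 : ℝ) < N := Nat.cast_pos.mpr hN
  have h8 : (0 : ℝ) < 8 * t := by linarith
  have h2 : (0 : ℝ) < 2 * t := by linarith
  have h4 : (0 : ℝ) < 4 * t := by linarith
  have hs : 0 < Real.sqrt t := Real.sqrt_pos.mpr ht
  obtain ⟨S, hS⟩ : ∃ S : ℝ, S = ∑ m, cw (8 * t) m (perp m ψ) := ⟨_, rfl⟩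
  have hS0 : 0 ≤ S := by
    rw [hS]
    exact Finset.sum_nonneg fun m _ => cw_nonneg _ _ _
  obtain ⟨A, hA⟩ : ∃ A : Fin N → Fin N → Fin N → ℝ, ∀ j l m, A j l m
      = qf (fun x => hk (4 * t) (x j - x l) * hk (4 * t) (x j - x m)) (perp j ψ) :=
    ⟨_, fun _ _ _ => rfl⟩
  obtain ⟨B, hB⟩ : ∃ B : Fin N → Fin N → Fin N → ℝ, ∀ j l m, B j l m
      = qf (fun x => hk (2 * t) (x l - x m)) (perp l ψ) := ⟨_, fun _ _ _ => rfl⟩
  have hexp : ∀ j, ‖WWj t h ψ j‖ ^ 2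
      ≤ (∑ l ∈ Finset.univ.erase j, C1 * (Real.sqrt t)⁻¹ ^ 3 * H *
          qf (fun x => h (x j - x l)) (Phi1 t j l ψ))
        + ∑ l ∈ Finset.univ.erase j, ∑ m ∈ (Finset.univ.erase j).erase l,
          C3 * H ^ 2 * (A j l m + B j l m + B j m l) := by
    intro j
    have h5 : ‖WWj t h ψ j‖ ^ 2 = (inner ℂ (WWj t h ψ j) (WWj t h ψ j)).re := by
      rw [inner_self_eq_norm_sq_to_K]
      norm_cast
    rw [h5]
    unfold WWj
    rw [inner_sum_sum]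
    refine add_le_add (Finset.sum_le_sum fun l hl => ?_)
      (Finset.sum_le_sum fun l hl => Finset.sum_le_sum fun m hm => ?_)
    · have h6 := hdiag N t H R h j l ht ht1 hh (Ne.symm (Finset.ne_of_mem_erase hl))
        (Phi1 t j l ψ)
      refine le_trans (le_of_eq ?_) h6
      rw [inner_self_eq_norm_sq_to_K]
      norm_cast
    · have hjl : j ≠ l := Ne.symm (Finset.ne_of_mem_erase hl)
      have hml : m ≠ l := Finset.ne_of_mem_erase hm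
      have hjm : j ≠ m := Ne.symm (Finset.ne_of_mem_erase (Finset.mem_of_mem_erase hm))
      rw [hA, hB, hB]
      exact hoff N t H R h j l m ht ht1 hh hR0 hR hjl hjm (Ne.symm hml) ψ
  refine (Finset.sum_le_sum fun j _ => hexp j).trans ?_
  rw [Finset.sum_add_distrib]
  have hD1 : ∑ j, ∑ l ∈ Finset.univ.erase j, C1 * (Real.sqrt t)⁻¹ ^ 3 * H *
          qf (fun x => h (x j - x l)) (Phi1 t j l ψ)
      ≤ C1 * (Real.sqrt t)⁻¹ ^ 3 * H * (C2 * (H / N) * S) := by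
    have h5 := hS1 N t H R h hN ht ht1 hh hR0 hR ψ
    rw [← hS] at h5
    have h6 : 0 ≤ C1 * (Real.sqrt t)⁻¹ ^ 3 * H := by positivity
    refine le_trans (le_of_eq ?_) (mul_le_mul_of_nonneg_left h5 h6)
    simp only [Finset.mul_sum]
  have hA1 : ∑ j, ∑ l ∈ Finset.univ.erase j, ∑ m ∈ (Finset.univ.erase j).erase l, A j l m
      ≤ 8 * S := by
    rw [hS, Finset.mul_sum]
    refine Finset.sum_le_sum fun j _ => ?_
    have h5 := sum_hk_hk_le h4 (show 4 * t ≤ 8 * t by linarith) j (perp j ψ)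
    rw [WWb_ratio_four ht] at h5
    refine le_trans (Finset.sum_le_sum fun l _ => Finset.sum_le_sum fun m _ => ?_) h5
    rw [hA]
    have h6 : 0 ≤ ‖perp j ψ‖ ^ 2 := sq_nonneg _
    linarith
  have hB1 : ∑ j, ∑ l ∈ Finset.univ.erase j, ∑ m ∈ (Finset.univ.erase j).erase l, B j l m
      ≤ 8 * S := by
    rw [sum_triple, sum_triple (fun j' l' m' => B l' m' j'), hS, Finset.mul_sum]
    refine Finset.sum_le_sum fun l _ => ?_
    have h5 : ∑ m ∈ Finset.univ.erase l, ∑ j ∈ (Finset.univ.erase l).erase m, B j l m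
        ≤ ∑ m ∈ Finset.univ.erase l, (N : ℝ) * qf (fun x => hk (2 * t) (x l - x m)) (perp l ψ) := by
      refine Finset.sum_le_sum fun m _ => ?_
      have h6 : ∑ j ∈ (Finset.univ.erase l).erase m, B j l m
          = ∑ j ∈ (Finset.univ.erase l).erase m,
            qf (fun x => hk (2 * t) (x l - x m)) (perp l ψ) :=
        Finset.sum_congr rfl fun j _ => hB j l m
      rw [h6, Finset.sum_const, nsmul_eq_mul]
      refine mul_le_mul_of_nonneg_right ?_ (qf_nonneg (fun x => hk_nonneg _ _) _)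
      have h7 : ((Finset.univ.erase l).erase m).card ≤ (Finset.univ : Finset (Fin N)).card :=
        Finset.card_le_card (fun a _ => Finset.mem_univ a)
      rw [Finset.card_univ, Fintype.card_fin] at h7
      exact_mod_cast h7
    refine h5.trans ?_
    rw [← Finset.mul_sum]
    have h6 := sum_hk_le h2 (show 2 * t ≤ 8 * t by linarith) l (perp l ψ)
    rw [WWb_ratio_two ht] at h6
    have h7 := qf_crowd_le_cw h8 l (perp l ψ)
    calc _ ≤ (N : ℝ) * (8 * qf (crowd (8 * t) l) (perp l ψ)) :=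
          mul_le_mul_of_nonneg_left h6 hNr.le
      _ = 8 * ((N : ℝ) * qf (crowd (8 * t) l) (perp l ψ)) := by ring
      _ ≤ _ := mul_le_mul_of_nonneg_left h7 (by norm_num)
  have hB2 : ∑ j, ∑ l ∈ Finset.univ.erase j, ∑ m ∈ (Finset.univ.erase j).erase l, B j m l
      ≤ 8 * S := by
    rw [← sum_triple_swap]
    exact hB1
  have hsplit : ∑ j, ∑ l ∈ Finset.univ.erase j, ∑ m ∈ (Finset.univ.erase j).erase l,
      C3 * H ^ 2 * (A j l m + B j l m + B j m l)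
      = C3 * H ^ 2 * ((∑ j, ∑ l ∈ Finset.univ.erase j, ∑ m ∈ (Finset.univ.erase j).erase l,
          A j l m)
        + (∑ j, ∑ l ∈ Finset.univ.erase j, ∑ m ∈ (Finset.univ.erase j).erase l, B j l m)
        + ∑ j, ∑ l ∈ Finset.univ.erase j, ∑ m ∈ (Finset.univ.erase j).erase l, B j m l) := by
    simp only [Finset.sum_add_distrib, ← Finset.mul_sum]
  rw [hsplit, ← hS]
  have hD : 0 ≤ C3 * H ^ 2 := by positivity
  have hD2 := mul_le_mul_of_nonneg_left (add_le_add (add_le_add hA1 hB1) hB2) hD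
  refine (add_le_add hD1 hD2).trans ?_
  have e1 : C1 * (Real.sqrt t)⁻¹ ^ 3 * H * (C2 * (H / N) * S)
      = C1 * C2 * (H ^ 2 * ((Real.sqrt t)⁻¹ ^ 3 / N) * S) := by ring
  have e2 : C3 * H ^ 2 * (8 * S + 8 * S + 8 * S) = 24 * C3 * (H ^ 2 * S) := by ring
  have e3 : (C1 * C2 + 24 * C3) * H ^ 2 * ((Real.sqrt t)⁻¹ ^ 3 / N + 1) * S
      = C1 * C2 * (H ^ 2 * ((Real.sqrt t)⁻¹ ^ 3 / N) * S) + C1 * C2 * (H ^ 2 * S)
        + (24 * C3 * (H ^ 2 * ((Real.sqrt t)⁻¹ ^ 3 / N) * S) + 24 * C3 * (H ^ 2 * S)) := by ring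
  rw [e1, e2, e3]
  have p1 : 0 ≤ C1 * C2 * (H ^ 2 * S) := by positivity
  have p2 : 0 ≤ 24 * C3 * (H ^ 2 * ((Real.sqrt t)⁻¹ ^ 3 / N) * S) := by positivity
  linarith

end Pool.Agent.Lib.MP_4952d6_mp.LB

end

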