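import Pool.Agent.Lib.MP_4952d6_mp.Pk.G39

/-! Merged modules (to save import time): LB.SmoB, LB.SmoC. -/

/-! ### LB.SmoB -/

section

/-! # LB.SmoB: steps (3), (4) of the header of LB.SmoA -/

set_option autoImplicit false
set_option linter.unusedSectionVars false
set_option linter.unusedVariables false
open MeasureTheory Function Filter Topology Set ComplexConjugate

namespace Pool.Agent.Lib.MP_4952d6_mp.LB

lemma SmoB_bm {α : Type*} [MeasurableSpace α] {μ : Measure α} {B g : α → ℝ} (hB : BM B)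
    (hg : Integrable g μ) : Integrable (fun x => B x * g x) μ := by
  obtain ⟨hm, C, hC⟩ := hB
  exact hg.bdd_mul hm.aestronglyMeasurable
    (Eventually.of_forall fun x => by rw [Real.norm_eq_abs]; exact hC x)

lemma SmoB_sh3 (N : ℕ) : MeasurePreserving
    (fun p : ((Fin N → T3) × T3) × T3 => ((p.1.1, p.2), p.1.2))
    (((piN (Fin N)).prod lam3).prod lam3) (((piN (Fin N)).prod lam3).prod lam3) := by
  have h1 := measurePreserving_prodAssoc (piN (Fin N)) lam3 lam3
  have h2 : MeasurePreserving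
      (Prod.map (id : (Fin N → T3) → (Fin N → T3)) (Prod.swap : T3 × T3 → T3 × T3))
      ((piN (Fin N)).prod (lam3.prod lam3)) ((piN (Fin N)).prod (lam3.prod lam3)) :=
    (MeasurePreserving.id _).prod Measure.measurePreserving_swap
  have h3 := MeasurePreserving.symm MeasurableEquiv.prodAssoc h1
  exact h3.comp (h2.comp h1)

lemma SmoB_mp3 {N : ℕ} (l : Fin N) : MeasurePreserving
    (fun p : ((Fin N → T3) × T3) × T3 => ((update p.1.1 l p.2, p.1.2), p.1.1 l))
    (((piN (Fin N)).prod lam3).prod lam3) (((piN (Fin N)).prod lam3).prod lam3) := by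
  have h1 : MeasurePreserving (Prod.map (swj (ι := Fin N) l) (id : T3 → T3))
      (((piN (Fin N)).prod lam3).prod lam3) (((piN (Fin N)).prod lam3).prod lam3) :=
    (mp_swj l).prod (MeasurePreserving.id _)
  exact (SmoB_sh3 N).comp (h1.comp (SmoB_sh3 N))

lemma SmoB_up3 {N : ℕ} (l : Fin N) : MeasurePreserving
    (fun p : ((Fin N → T3) × T3) × T3 => update p.1.1 l p.2)
    (((piN (Fin N)).prod lam3).prod lam3) (piN (Fin N)) := by
  have h1 : MeasurePreserving (Prod.map (Prod.fst : (Fin N → T3) × T3 → (Fin N → T3)) (id : T3 → T3))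
      (((piN (Fin N)).prod lam3).prod lam3) ((piN (Fin N)).prod lam3) :=
    measurePreserving_fst.prod (MeasurePreserving.id _)
  exact (mp_upd (ι := Fin N) l).comp h1

lemma SmoB_int3 {N : ℕ} (l : Fin N) {B : ((Fin N → T3) × T3) × T3 → ℝ} (hB : BM B)
    {g : (Fin N → T3) → ℝ} (hg : Integrable g (piN (Fin N))) :
    Integrable (fun p => B p * g (update p.1.1 l p.2)) (((piN (Fin N)).prod lam3).prod lam3) := by
  have h1 : Integrable (fun p : ((Fin N → T3) × T3) × T3 => g (update p.1.1 l p.2))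
      (((piN (Fin N)).prod lam3).prod lam3) :=
    (SmoB_up3 l).integrable_comp_of_integrable hg
  exact SmoB_bm hB h1

lemma SmoB_int2 {N : ℕ} {B : (Fin N → T3) × T3 → ℝ} (hB : BM B)
    {g : (Fin N → T3) → ℝ} (hg : Integrable g (piN (Fin N))) :
    Integrable (fun p : (Fin N → T3) × T3 => B p * g p.1) ((piN (Fin N)).prod lam3) := by
  have h1 : Integrable (fun p : (Fin N → T3) × T3 => g p.1) ((piN (Fin N)).prod lam3) :=
    measurePreserving_fst.integrable_comp_of_integrable hg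
  exact SmoB_bm hB h1

lemma SmoB_int2' {N : ℕ} (l : Fin N) {B : (Fin N → T3) × T3 → ℝ} (hB : BM B)
    {g : (Fin N → T3) → ℝ} (hg : Integrable g (piN (Fin N))) :
    Integrable (fun p : (Fin N → T3) × T3 => B p * g (update p.1 l p.2))
      ((piN (Fin N)).prod lam3) := by
  have h1 : Integrable (fun p : (Fin N → T3) × T3 => g (update p.1 l p.2))
      ((piN (Fin N)).prod lam3) :=
    (mp_upd (ι := Fin N) l).integrable_comp_of_integrable hg
  exact SmoB_bm hB h1

lemma SmoB_cs {k g : T3 → ℝ} (hk : BM k) (hk0 : ∀ z, 0 ≤ k z) (hgm : AEStronglyMeasurable g lam3)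
    (hg2 : Integrable (fun z => g z ^ 2) lam3) :
    (∫ z, k z * g z ∂lam3) ^ 2 ≤ 1 * ((∫ z, k z ∂lam3) * ∫ z, k z * g z ^ 2 ∂lam3) := by
  have hg : Integrable g lam3 :=
    ((memLp_two_iff_integrable_sq hgm).2 hg2).integrable (by norm_num)
  have h1 := SmoB_bm hk hg
  have h2 := SmoB_bm hk hg2
  have h3 : Integrable k lam3 := hk.integrable _
  rw [one_mul, mul_comm (∫ z, k z ∂lam3)]
  refine cs_of_quadratic (fun s => ?_)
  have h4 : ∫ z, k z * (g z - s) ^ 2 ∂lam3
      = (∫ z, k z * g z ^ 2 ∂lam3) - 2 * s * (∫ z, k z * g z ∂lam3)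
        + s ^ 2 * ∫ z, k z ∂lam3 := by
    have i1 : Integrable (fun z => 2 * s * (k z * g z)) lam3 := h1.const_mul _
    have i2 : Integrable (fun z => k z * g z ^ 2 - 2 * s * (k z * g z)) lam3 := h2.sub i1
    have i3 : Integrable (fun z => s ^ 2 * k z) lam3 := h3.const_mul _
    rw [← integral_const_mul, ← integral_const_mul, ← integral_sub h2 i1, ← integral_add i2 i3]
    refine integral_congr_ae (Eventually.of_forall fun z => ?_)
    simp only
    ring
  rw [← h4]
  exact integral_nonneg fun z => mul_nonneg (hk0 z) (sq_nonneg _)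

lemma SmoB_a {N : ℕ} {h κ : T3 → ℝ} (hh : BM h) (hκ : BM κ) {j l : Fin N}
    {g : (Fin N → T3) → ℝ} (hg : Integrable g (piN (Fin N))) :
    ∫ q, (h (q.1 j - q.1 l) * κ (q.1 j - q.2)) * g q.1 ∂((piN (Fin N)).prod lam3)
      = (∫ y, κ y ∂lam3) * ∫ x, h (x j - x l) * g x ∂(piN (Fin N)) := by
  have hB : BM (fun q : (Fin N → T3) × T3 => h (q.1 j - q.1 l) * κ (q.1 j - q.2)) :=
    (hh.comp (measurable_sub' ((measurable_pi_apply j).comp measurable_fst)
      ((measurable_pi_apply l).comp measurable_fst))).mul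
      (hκ.comp (measurable_sub' ((measurable_pi_apply j).comp measurable_fst) measurable_snd))
  rw [integral_prod _ (SmoB_int2 hB hg), ← integral_const_mul]
  refine integral_congr_ae (Eventually.of_forall fun x => ?_)
  simp only
  rw [← int_sub_left κ (x j), ← integral_mul_const]
  refine integral_congr_ae (Eventually.of_forall fun y => ?_)
  simp only
  ring

lemma SmoB_b {N : ℕ} {h κ : T3 → ℝ} (hh : BM h) (hκ : BM κ) {j l : Fin N} (hjl : j ≠ l)
    {g : (Fin N → T3) → ℝ} (hg : Integrable g (piN (Fin N))) :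
    ∫ q, (h (q.1 j - q.1 l) * κ (q.1 j - q.2)) * g (update q.1 l q.2) ∂((piN (Fin N)).prod lam3)
      = (∫ y, h y ∂lam3) * ∫ x, κ (x j - x l) * g x ∂(piN (Fin N)) := by
  have hB : BM (fun q : (Fin N → T3) × T3 => κ (q.1 j - q.1 l) * h (q.1 j - q.2)) :=
    (hκ.comp (measurable_sub' ((measurable_pi_apply j).comp measurable_fst)
      ((measurable_pi_apply l).comp measurable_fst))).mul
      (hh.comp (measurable_sub' ((measurable_pi_apply j).comp measurable_fst) measurable_snd))
  rw [← SmoB_a hκ hh hg, ← integral_swj l (SmoB_int2 hB hg).aestronglyMeasurable]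
  refine integral_congr_ae (Eventually.of_forall fun q => ?_)
  simp only [swj]
  rw [update_self, update_of_ne hjl]
  ring

lemma SmoB_c {N : ℕ} {h κ k : T3 → ℝ} (hh : BM h) (hκ : BM κ) (hk : BM k) {j l : Fin N}
    (hjl : j ≠ l) {g : (Fin N → T3) → ℝ} (hg : Integrable g (piN (Fin N))) :
    ∫ p, (h (p.1.1 j - p.1.1 l) * κ (p.1.1 j - p.1.2)
        * (k (p.1.1 l - p.2) + k (p.1.2 - p.2))) * g (update p.1.1 l p.2)
        ∂(((piN (Fin N)).prod lam3).prod lam3)
      = ∫ x, ((∫ y, κ y ∂lam3) * cn k h (x j - x l) + (∫ y, h y ∂lam3) * cn κ k (x j - x l))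
          * g x ∂(piN (Fin N)) := by
  have mj : Measurable (fun p : ((Fin N → T3) × T3) × T3 => p.1.1 j) :=
    (measurable_pi_apply j).comp (measurable_fst.comp measurable_fst)
  have ml : Measurable (fun p : ((Fin N → T3) × T3) × T3 => p.1.1 l) :=
    (measurable_pi_apply l).comp (measurable_fst.comp measurable_fst)
  have my : Measurable (fun p : ((Fin N → T3) × T3) × T3 => p.1.2) :=
    measurable_snd.comp measurable_fst
  have hB : BM (fun p : ((Fin N → T3) × T3) × T3 => h (p.1.1 j - p.2) * κ (p.1.1 j - p.1.2)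
        * (k (p.2 - p.1.1 l) + k (p.1.2 - p.1.1 l))) :=
    ((hh.comp (measurable_sub' mj measurable_snd)).mul (hκ.comp (measurable_sub' mj my))).mul
      ((hk.comp (measurable_sub' measurable_snd ml)).add (hk.comp (measurable_sub' my ml)))
  have hg3 : Integrable (fun p : ((Fin N → T3) × T3) × T3 => g p.1.1)
      (((piN (Fin N)).prod lam3).prod lam3) :=
    (measurePreserving_fst.comp measurePreserving_fst).integrable_comp_of_integrable hg
  have hF := SmoB_bm hB hg3
  have e1 : ∫ p, (h (p.1.1 j - p.1.1 l) * κ (p.1.1 j - p.1.2)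
        * (k (p.1.1 l - p.2) + k (p.1.2 - p.2))) * g (update p.1.1 l p.2)
        ∂(((piN (Fin N)).prod lam3).prod lam3)
      = ∫ p, (h (p.1.1 j - p.2) * κ (p.1.1 j - p.1.2)
        * (k (p.2 - p.1.1 l) + k (p.1.2 - p.1.1 l))) * g p.1.1
        ∂(((piN (Fin N)).prod lam3).prod lam3) := by
    rw [← mp_integral (SmoB_mp3 l) hF.aestronglyMeasurable]
    refine integral_congr_ae (Eventually.of_forall fun p => ?_)
    simp only
    rw [update_self, update_of_ne hjl]
  rw [e1, integral_prod _ hF, integral_prod _ hF.integral_prod_left]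
  refine integral_congr_ae (Eventually.of_forall fun x => ?_)
  simp only
  have i1 : ∀ a b : T3, ∫ z, h (a - z) * k (z - b) ∂lam3 = cn k h (a - b) := by
    intro a b
    unfold cn
    rw [← int_sub_left (fun y => k (a - b - y) * h y) a]
    refine integral_congr_ae (Eventually.of_forall fun z => ?_)
    simp only
    rw [show a - b - (a - z) = z - b by abel]
    ring
  have i2 : ∀ a b : T3, ∫ y, κ (a - y) * k (y - b) ∂lam3 = cn κ k (a - b) := by
    intro a b
    unfold cn
    rw [← int_sub_right (fun y => κ (a - b - y) * k y) b]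
    refine integral_congr_ae (Eventually.of_forall fun z => ?_)
    simp only
    rw [show a - b - (z - b) = a - z by abel]
  have hz : ∀ y : T3, ∫ z, (h (x j - z) * κ (x j - y) * (k (z - x l) + k (y - x l))) * g x ∂lam3
      = κ (x j - y) * g x * (cn k h (x j - x l) + k (y - x l) * ∫ y, h y ∂lam3) := by
    intro y
    have b1 : BM (fun z => h (x j - z) * k (z - x l)) :=
      (hh.comp (measurable_sub' measurable_const measurable_id)).mul
        (hk.comp (measurable_sub' measurable_id measurable_const))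
    have b2 : BM (fun z => h (x j - z)) := hh.comp (measurable_sub' measurable_const measurable_id)
    rw [← i1, ← int_sub_left h (x j), ← integral_const_mul (k (y - x l)),
      ← integral_add (b1.integrable _) ((b2.const_mul _).integrable _), ← integral_const_mul]
    refine integral_congr_ae (Eventually.of_forall fun z => ?_)
    simp only
    ring
  rw [integral_congr_ae (Eventually.of_forall hz)]
  have b1 : BM (fun y => κ (x j - y)) := hκ.comp (measurable_sub' measurable_const measurable_id)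
  have b2 : BM (fun y => κ (x j - y) * k (y - x l)) :=
    b1.mul (hk.comp (measurable_sub' measurable_id measurable_const))
  rw [← i2, ← int_sub_left κ (x j), ← integral_mul_const (cn k h (x j - x l)),
    ← integral_const_mul (∫ y, h y ∂lam3),
    ← integral_add ((b1.mul (BM.const _)).integrable _) ((b2.const_mul _).integrable _),
    ← integral_mul_const]
  refine integral_congr_ae (Eventually.of_forall fun y => ?_)
  simp only
  ring

lemma SmoB_real {a b d M G c C2 st h k ρ Rv κ : ℝ} (ha : 0 ≤ a) (hb : 0 ≤ b) (hd : |a - b| ≤ d)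
    (hd2 : d ≤ C2 * (ρ / st) * M) (hM : 0 ≤ M) (hG : M ^ 2 ≤ 2 * G) (hc : 0 < c) (hC2 : 0 ≤ C2)
    (hst : 0 < st) (hh : 0 ≤ h) (hk : 0 ≤ k) (hρ : h = 0 ∨ ρ ≤ Rv) (hRv0 : 0 ≤ Rv)
    (hκ : k * Rv ≤ κ) :
    |h * k * (a ^ 2 - b ^ 2)| ≤ C2 / st * ((h * κ) * (c * G + 1 / c * (a ^ 2 + b ^ 2))) := by
  rcases hρ with h0 | hρ
  · rw [h0]
    simp
  · have hG0 : 0 ≤ G := by linarith only [sq_nonneg M, hG]
    have h1 : |a ^ 2 - b ^ 2| ≤ d * (a + b) := by
      rw [show a ^ 2 - b ^ 2 = (a - b) * (a + b) by ring, abs_mul, abs_of_nonneg (add_nonneg ha hb)]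
      exact mul_le_mul_of_nonneg_right hd (add_nonneg ha hb)
    have h2 : d ≤ C2 * (Rv / st) * M := by
      refine hd2.trans ?_
      gcongr
    have h3 : M * (a + b) ≤ c * G + 1 / c * (a ^ 2 + b ^ 2) := by
      have e : 1 / c * (a ^ 2 + b ^ 2) * c = a ^ 2 + b ^ 2 := by
        field_simp
      have h4 : 0 ≤ (c * M - (a + b)) ^ 2 := sq_nonneg _
      have h5 : 0 ≤ (a - b) ^ 2 := sq_nonneg _
      have h6 : c ^ 2 * M ^ 2 ≤ c ^ 2 * (2 * G) := mul_le_mul_of_nonneg_left hG (sq_nonneg c)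
      have h7 : c * (M * (a + b)) ≤ c * (c * G + 1 / c * (a ^ 2 + b ^ 2)) := by
        linarith only [e, h4, h5, h6]
      exact le_of_mul_le_mul_left h7 hc
    have hRv : 0 ≤ C2 / st := div_nonneg hC2 hst.le
    have hX : 0 ≤ c * G + 1 / c * (a ^ 2 + b ^ 2) := by positivity
    calc |h * k * (a ^ 2 - b ^ 2)| = h * k * |a ^ 2 - b ^ 2| := by
          rw [abs_mul, abs_of_nonneg (mul_nonneg hh hk)]
      _ ≤ h * k * (C2 * (Rv / st) * M * (a + b)) := by
          refine mul_le_mul_of_nonneg_left (h1.trans ?_) (mul_nonneg hh hk)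
          exact mul_le_mul_of_nonneg_right h2 (add_nonneg ha hb)
      _ = C2 / st * (h * (k * Rv)) * (M * (a + b)) := by ring
      _ ≤ C2 / st * (h * κ) * (c * G + 1 / c * (a ^ 2 + b ^ 2)) := by
          have : 0 ≤ κ := (mul_nonneg hk hRv0).trans hκ
          gcongr
      _ = C2 / st * ((h * κ) * (c * G + 1 / c * (a ^ 2 + b ^ 2))) := by ring

/-- the final comparison, a statement about real numbers -/
private lemma SmoB_fin {C1 C2 C3 R st ss c H q4 qh qs q2s T : ℝ} (hC1 : 0 ≤ C1) (hC2 : 0 ≤ C2)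
    (hC3 : 0 ≤ C3) (hR : 0 ≤ R) (hst : 0 < st) (hss : 0 ≤ ss) (hc : 0 < c) (hH : 0 ≤ H)
    (h4 : 0 ≤ q4) (hh : 0 ≤ qh) (hs : 0 ≤ qs) (h2s : 0 ≤ q2s)
    (hT : T ≤ (R + C1 * ss) * (C3 + 3) * H * q4) :
    C2 / st * (c * T + 1 / c * ((R + C1 * ss) * qh + H * (R * qs + C1 * ss * q2s)))
      ≤ C2 * ((1 + C1) * (C3 + 4)) * ((R + ss) / st)
        * (c * H * q4 + 1 / c * (qh + H * qs + H * q2s)) := by
  have hCR : 0 ≤ C1 * R := mul_nonneg hC1 hR
  have hCs : 0 ≤ C1 * ss := mul_nonneg hC1 hss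
  have hA : 0 ≤ R + C1 * ss := add_nonneg hR hCs
  have hAle : R + C1 * ss ≤ (1 + C1) * (R + ss) := by linarith only [hCR, hss]
  have hD : 0 ≤ (1 + C1) * (R + ss) := hA.trans hAle
  have p4 : 0 ≤ H * q4 := mul_nonneg hH h4
  have p5 : 0 ≤ H * qs := mul_nonneg hH hs
  have p6 : 0 ≤ H * q2s := mul_nonneg hH h2s
  have k1 : T ≤ ((1 + C1) * (R + ss)) * (C3 + 4) * (H * q4) := by
    have e0 : (R + C1 * ss) * (C3 + 3) * H * q4 = (R + C1 * ss) * ((C3 + 3) * (H * q4)) := by ring
    have e1 : (R + C1 * ss) * ((C3 + 3) * (H * q4)) ≤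
        ((1 + C1) * (R + ss)) * ((C3 + 3) * (H * q4)) :=
      mul_le_mul_of_nonneg_right hAle (mul_nonneg (add_nonneg hC3 (by norm_num)) p4)
    have e2 : 0 ≤ ((1 + C1) * (R + ss)) * (H * q4) := mul_nonneg hD p4
    linarith only [hT, e0, e1, e2]
  have k2 : (R + C1 * ss) * qh + H * (R * qs + C1 * ss * q2s)
      ≤ ((1 + C1) * (R + ss)) * (C3 + 4) * (qh + H * qs + H * q2s) := by
    have e1 : R ≤ (1 + C1) * (R + ss) := by linarith only [hCR, hCs, hss]
    have e2 : C1 * ss ≤ (1 + C1) * (R + ss) := by linarith only [hCR, hR, hss]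
    have f1 := mul_le_mul_of_nonneg_right hAle hh
    have f2 := mul_le_mul_of_nonneg_right e1 p5
    have f3 := mul_le_mul_of_nonneg_right e2 p6
    have f4 : 0 ≤ ((1 + C1) * (R + ss)) * ((C3 + 3) * (qh + H * qs + H * q2s)) :=
      mul_nonneg hD (mul_nonneg (add_nonneg hC3 (by norm_num)) (add_nonneg (add_nonneg hh p5) p6))
    linarith only [f1, f2, f3, f4]
  have e3 : c * T ≤ c * (((1 + C1) * (R + ss)) * (C3 + 4) * (H * q4)) :=
    mul_le_mul_of_nonneg_left k1 hc.le
  have e4 := mul_le_mul_of_nonneg_left k2 (one_div_nonneg.2 hc.le)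
  have e5 := mul_le_mul_of_nonneg_left (add_le_add e3 e4) (div_nonneg hC2 hst.le)
  refine e5.trans (le_of_eq ?_)
  ring

/-- Steps (3)-(4). -/
theorem smo_pair : ∃ C : ℝ, 0 ≤ C ∧ ∀ (N : ℕ) (s t H R c : ℝ) (h : T3 → ℝ) (j l : Fin N), 0 < s →
    s ≤ t → t ≤ 1 → SR H R h → 0 ≤ R → R ^ 2 ≤ t / 2 → 0 < c → j ≠ l → ∀ Ψ : HS (Fin N),
    |qf (fun x => h (x j - x l)) (PP1 t l Ψ) - H * qf (fun x => hk s (x j - x l)) (PP1 t l Ψ)|
      ≤ C * ((R + Real.sqrt s) / Real.sqrt t)
        * (c * H * qf (fun x => hk (4 * t) (x j - x l)) (perp l Ψ)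
          + 1 / c * (qf (fun x => h (x j - x l)) (PP1 t l Ψ)
            + H * qf (fun x => hk s (x j - x l)) (PP1 t l Ψ)
            + H * qf (fun x => hk (2 * s) (x j - x l)) (PP1 t l Ψ))) := by
  obtain ⟨C1, hC1, hrr⟩ := rr_mul_hk
  obtain ⟨C2, hC2, htwo⟩ := smo_two
  obtain ⟨C3, hC3, hcn⟩ := cn_hk_le
  refine ⟨C2 * ((1 + C1) * (C3 + 4)), by positivity, ?_⟩
  intro N s t H R c h j l hs hst ht1 hh hR hR2 hc hjl Ψ
  have ht : 0 < t := lt_of_lt_of_le hs hst
  have h2t : 0 < 2 * t := by linarith only [ht]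
  have hst0 : 0 < Real.sqrt t := Real.sqrt_pos.mpr ht
  have hss0 : 0 ≤ Real.sqrt s := Real.sqrt_nonneg s
  have hH : 0 ≤ H := by
    rw [← hh.int]
    exact integral_nonneg hh.nonneg
  set f : HS (Fin N) := PP1 t l Ψ with hf
  set P : HS (Fin N) := perp l Ψ with hP
  have bs := hk_bm hs
  have b2s : BM (hk (2 * s)) := hk_bm (by linarith only [hs])
  have b2t : BM (hk (2 * t)) := hk_bm h2t
  -- the majorant of `hk s v (R + rr v)`
  set κ : T3 → ℝ := fun v => R * hk s v + C1 * Real.sqrt s * hk (2 * s) v with hκdef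
  have bκ : BM κ := (bs.const_mul R).add (b2s.const_mul (C1 * Real.sqrt s))
  have hκ0 : ∀ v, 0 ≤ κ v := fun v => by
    have := hk_nonneg s v
    have := hk_nonneg (2 * s) v
    positivity
  have hκle : ∀ v, hk s v * (R + rr v) ≤ κ v := by
    intro v
    have h1 := hrr s hs v
    have h2 : hk s v * (R + rr v) = R * hk s v + rr v * hk s v := by ring
    rw [h2]
    simp only [hκdef]
    linarith only [h1]
  have hκint : ∫ y, κ y ∂lam3 = R + C1 * Real.sqrt s := by
    simp only [hκdef]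
    rw [integral_add ((bs.const_mul R).integrable _) ((b2s.const_mul (C1 * Real.sqrt s)).integrable _),
      integral_const_mul, integral_const_mul, hk_integral hs, hk_integral (by linarith only [hs] : 0 < 2 * s)]
    ring
  -- squared modulus functions
  have gf := integrable_norm_sq f
  have gP := integrable_norm_sq P
  -- step (1)
  rw [smo_one hs hh hjl f]
  set G : (Fin N → T3) × T3 → ℝ := fun q => ∫ z, (hk (2 * t) (q.1 l - z) + hk (2 * t) (q.2 - z))
      * ‖(P : (Fin N → T3) → ℂ) (update q.1 l z)‖ ^ 2 ∂lam3 with hG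
  have mj : Measurable (fun p : ((Fin N → T3) × T3) × T3 => p.1.1 j) :=
    (measurable_pi_apply j).comp (measurable_fst.comp measurable_fst)
  have ml : Measurable (fun p : ((Fin N → T3) × T3) × T3 => p.1.1 l) :=
    (measurable_pi_apply l).comp (measurable_fst.comp measurable_fst)
  have my : Measurable (fun p : ((Fin N → T3) × T3) × T3 => p.1.2) :=
    measurable_snd.comp measurable_fst
  have bB3 : BM (fun p : ((Fin N → T3) × T3) × T3 => h (p.1.1 j - p.1.1 l) * κ (p.1.1 j - p.1.2)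
        * (hk (2 * t) (p.1.1 l - p.2) + hk (2 * t) (p.1.2 - p.2))) :=
    ((hh.bm.comp (measurable_sub' mj ml)).mul (bκ.comp (measurable_sub' mj my))).mul
      ((b2t.comp (measurable_sub' ml measurable_snd)).add
        (b2t.comp (measurable_sub' my measurable_snd)))
  have hF3 := SmoB_int3 l bB3 gP
  have bB2 : BM (fun q : (Fin N → T3) × T3 => h (q.1 j - q.1 l) * κ (q.1 j - q.2)) :=
    (hh.bm.comp (measurable_sub' ((measurable_pi_apply j).comp measurable_fst)
      ((measurable_pi_apply l).comp measurable_fst))).mul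
      (bκ.comp (measurable_sub' ((measurable_pi_apply j).comp measurable_fst) measurable_snd))
  have hGint : Integrable (fun q : (Fin N → T3) × T3 =>
      h (q.1 j - q.1 l) * κ (q.1 j - q.2) * G q) ((piN (Fin N)).prod lam3) := by
    refine hF3.integral_prod_left.congr (Eventually.of_forall fun q => ?_)
    simp only [hG]
    rw [← integral_const_mul]
    refine integral_congr_ae (Eventually.of_forall fun z => ?_)
    simp only
    ring
  have hfa := SmoB_int2 bB2 gf
  have hfb := SmoB_int2' l bB2 gf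
  -- pointwise bound
  have hpt : ∀ᵐ q ∂((piN (Fin N)).prod lam3),
      ‖h (q.1 j - q.1 l) * hk s (q.1 j - q.2)
          * (‖f q.1‖ ^ 2 - ‖f (update q.1 l q.2)‖ ^ 2)‖
      ≤ C2 / Real.sqrt t * ((h (q.1 j - q.1 l) * κ (q.1 j - q.2)) * (c * G q
          + 1 / c * (‖f q.1‖ ^ 2 + ‖f (update q.1 l q.2)‖ ^ 2))) := by
    have a1 : ∀ᵐ q ∂((piN (Fin N)).prod lam3),
        AEStronglyMeasurable (fun z => ‖(P : (Fin N → T3) → ℂ) (update q.1 l z)‖) lam3 := by
      have := ((Lp.aestronglyMeasurable P).comp_measurePreserving (SmoB_up3 l)).norm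
      exact this.prodMk_left
    have a2 : ∀ᵐ q ∂((piN (Fin N)).prod lam3),
        Integrable (fun z => ‖(P : (Fin N → T3) → ℂ) (update q.1 l z)‖ ^ 2) lam3 :=
      ((SmoB_up3 l).integrable_comp_of_integrable gP).prod_right_ae
    filter_upwards [htwo N t l Ψ ht, a1, a2] with q q1 q2 q3
    rw [Real.norm_eq_abs]
    have bk : BM (fun z : T3 => hk (2 * t) (q.1 l - z) + hk (2 * t) (q.2 - z)) :=
      (b2t.comp (measurable_sub' measurable_const measurable_id)).add
        (b2t.comp (measurable_sub' measurable_const measurable_id))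
    have hk0 : ∀ z : T3, 0 ≤ hk (2 * t) (q.1 l - z) + hk (2 * t) (q.2 - z) := fun z =>
      add_nonneg (hk_nonneg _ _) (hk_nonneg _ _)
    have hcs := SmoB_cs bk hk0 q2 q3
    have hk2 : ∫ z, (hk (2 * t) (q.1 l - z) + hk (2 * t) (q.2 - z)) ∂lam3 = 2 := by
      have i1 : ∀ a : T3, Integrable (fun z => hk (2 * t) (a - z)) lam3 := fun a =>
        (b2t.comp (measurable_sub' measurable_const measurable_id)).integrable _
      rw [integral_add (i1 _) (i1 _),
        int_sub_left (hk (2 * t)) (q.1 l), int_sub_left (hk (2 * t)) q.2, hk_integral h2t]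
      norm_num
    rw [hk2, one_mul] at hcs
    refine SmoB_real (d := ‖f q.1 - f (update q.1 l q.2)‖) (norm_nonneg _) (norm_nonneg _)
      (abs_norm_sub_norm_le _ _) q1 (integral_nonneg fun z => mul_nonneg (hk0 z) (norm_nonneg _))
      hcs hc hC2 hst0 (hh.nonneg _) (hk_nonneg _ _) (Rv := R + rr (q.1 j - q.2)) ?_
      (add_nonneg hR (rr_nonneg _)) (hκle _)
    by_cases hr : R < rr (q.1 j - q.1 l)
    · exact Or.inl (hh.supp _ hr)
    · right
      push Not at hr
      have h1 : q.1 l - q.2 = -(q.1 j - q.1 l) + (q.1 j - q.2) := by abel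
      rw [h1]
      refine (rr_add_le _ _).trans ?_
      rw [rr_neg]
      linarith only [hr]
  have hint : Integrable (fun q : (Fin N → T3) × T3 =>
      C2 / Real.sqrt t * ((h (q.1 j - q.1 l) * κ (q.1 j - q.2)) * (c * G q
          + 1 / c * (‖f q.1‖ ^ 2 + ‖f (update q.1 l q.2)‖ ^ 2)))) ((piN (Fin N)).prod lam3) := by
    refine Integrable.congr ((((hGint.const_mul c).add ((hfa.add hfb).const_mul (1 / c))).const_mul
      (C2 / Real.sqrt t))) (Eventually.of_forall fun q => ?_)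
    simp only [Pi.add_apply]
    ring
  have hmain := norm_integral_le_of_norm_le hint hpt
  rw [Real.norm_eq_abs] at hmain
  refine hmain.trans ?_
  have hsplit : ∫ q, C2 / Real.sqrt t * ((h (q.1 j - q.1 l) * κ (q.1 j - q.2)) * (c * G q
          + 1 / c * (‖f q.1‖ ^ 2 + ‖f (update q.1 l q.2)‖ ^ 2))) ∂((piN (Fin N)).prod lam3)
      = C2 / Real.sqrt t * (c * (∫ q, h (q.1 j - q.1 l) * κ (q.1 j - q.2) * G q
            ∂((piN (Fin N)).prod lam3))
          + 1 / c * ((∫ q, (h (q.1 j - q.1 l) * κ (q.1 j - q.2)) * ‖f q.1‖ ^ 2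
              ∂((piN (Fin N)).prod lam3))
            + ∫ q, (h (q.1 j - q.1 l) * κ (q.1 j - q.2)) * ‖f (update q.1 l q.2)‖ ^ 2
              ∂((piN (Fin N)).prod lam3))) := by
    have i1 : Integrable (fun q : (Fin N → T3) × T3 =>
        c * (h (q.1 j - q.1 l) * κ (q.1 j - q.2) * G q)) ((piN (Fin N)).prod lam3) :=
      hGint.const_mul c
    have i2 : Integrable (fun q : (Fin N → T3) × T3 =>
        1 / c * (h (q.1 j - q.1 l) * κ (q.1 j - q.2) * ‖f q.1‖ ^ 2
          + h (q.1 j - q.1 l) * κ (q.1 j - q.2) * ‖f (update q.1 l q.2)‖ ^ 2))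
        ((piN (Fin N)).prod lam3) := (hfa.add hfb).const_mul (1 / c)
    rw [← integral_add hfa hfb, ← integral_const_mul c, ← integral_const_mul (1 / c),
      ← integral_add i1 i2, ← integral_const_mul]
    refine integral_congr_ae (Eventually.of_forall fun q => ?_)
    simp only
    ring
  rw [hsplit, SmoB_a hh.bm bκ gf, SmoB_b hh.bm bκ hjl gf]
  have hT1 : ∫ q, h (q.1 j - q.1 l) * κ (q.1 j - q.2) * G q ∂((piN (Fin N)).prod lam3)
      = ∫ x, ((∫ y, κ y ∂lam3) * cn (hk (2 * t)) h (x j - x l)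
          + (∫ y, h y ∂lam3) * cn κ (hk (2 * t)) (x j - x l)) * ‖P x‖ ^ 2 ∂(piN (Fin N)) := by
    rw [← SmoB_c hh.bm bκ b2t hjl gP, integral_prod _ hF3]
    refine integral_congr_ae (Eventually.of_forall fun q => ?_)
    simp only [hG]
    rw [← integral_const_mul]
    refine integral_congr_ae (Eventually.of_forall fun z => ?_)
    simp only
    ring
  rw [hT1, hκint, hh.int]
  have hA : 0 ≤ R + C1 * Real.sqrt s := by positivity
  have hAle : R + C1 * Real.sqrt s ≤ (1 + C1) * (R + Real.sqrt s) := by linarith only [mul_nonneg hC1 hR, hss0]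
  -- the weight of `P`
  have hsq3 : ∀ r : ℝ, 0 < r → 2 * t ≤ r → r ≤ 4 * t → ∀ x, hk r x ≤ 3 * hk (4 * t) x := by
    intro r hr hr1 hr2 x
    have h1 := hk_le_hk hr hr2 x
    have h2 : Real.sqrt (4 * t / r) ^ 3 ≤ 3 := by
      have h3 : 4 * t / r ≤ 2 := by
        rw [div_le_iff₀ hr]
        linarith only [hr1]
      have h4 : Real.sqrt (4 * t / r) ≤ Real.sqrt 2 := Real.sqrt_le_sqrt h3
      have h5 : Real.sqrt 2 ^ 3 ≤ 3 := by
        have h6 : Real.sqrt 2 ^ 2 = 2 := Real.sq_sqrt (by norm_num)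
        have h7 : Real.sqrt 2 ≤ 3 / 2 := by
          rw [Real.sqrt_le_left (by norm_num)]
          norm_num
        nlinarith only [h6, h7]
      exact (pow_le_pow_left₀ (Real.sqrt_nonneg _) h4 3).trans h5
    exact h1.trans (mul_le_mul_of_nonneg_right h2 (hk_nonneg _ _))
  have hcnκ : ∀ z, cn κ (hk (2 * t)) z ≤ (R + C1 * Real.sqrt s) * 3 * hk (4 * t) z := by
    intro z
    have e : cn κ (hk (2 * t)) z = R * hk (s + 2 * t) z + C1 * Real.sqrt s * hk (2 * s + 2 * t) z := by
      rw [← hk_conv hs h2t z, ← hk_conv (by linarith only [hs] : 0 < 2 * s) h2t z]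
      unfold cn
      have i1 : BM (fun y => hk s (z - y) * hk (2 * t) y) :=
        (bs.comp (measurable_sub' measurable_const measurable_id)).mul b2t
      have i2 : BM (fun y => hk (2 * s) (z - y) * hk (2 * t) y) :=
        (b2s.comp (measurable_sub' measurable_const measurable_id)).mul b2t
      rw [← integral_const_mul, ← integral_const_mul,
        ← integral_add ((i1.const_mul _).integrable _) ((i2.const_mul _).integrable _)]
      refine integral_congr_ae (Eventually.of_forall fun y => ?_)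
      simp only [hκdef]
      ring
    rw [e]
    have h1 := hsq3 (s + 2 * t) (by linarith only [hs, ht]) (by linarith only [hs]) (by linarith only [hst, ht]) z
    have h2 := hsq3 (2 * s + 2 * t) (by linarith only [hs, ht]) (by linarith only [hs]) (by linarith only [hst, ht]) z
    have h3 := mul_le_mul_of_nonneg_left h1 hR
    have h4 := mul_le_mul_of_nonneg_left h2 (mul_nonneg hC1 hss0)
    linarith only [h3, h4]
  have bcn1 : BM (cn (hk (2 * t)) h) := cn_bm b2t hh.bm
  have bcn2 : BM (cn κ (hk (2 * t))) := cn_bm bκ b2t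
  have b4t : BM (hk (4 * t)) := hk_bm (by linarith only [ht])
  have hT1le : ∫ x, ((R + C1 * Real.sqrt s) * cn (hk (2 * t)) h (x j - x l)
          + H * cn κ (hk (2 * t)) (x j - x l)) * ‖P x‖ ^ 2 ∂(piN (Fin N))
      ≤ (R + C1 * Real.sqrt s) * (C3 + 3) * H * qf (fun x => hk (4 * t) (x j - x l)) P := by
    rw [← qf_smul]
    unfold qf
    have hbl : BM (fun x : Fin N → T3 => (R + C1 * Real.sqrt s) * cn (hk (2 * t)) h (x j - x l)
          + H * cn κ (hk (2 * t)) (x j - x l)) :=
      ((bm_diff bcn1 j l).const_mul _).add ((bm_diff bcn2 j l).const_mul _)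
    refine integral_mono (SmoB_bm hbl gP) (SmoB_bm ((bm_diff b4t j l).const_mul _) gP) (fun x => ?_)
    simp only
    refine mul_le_mul_of_nonneg_right ?_ (sq_nonneg _)
    have h1 := hcn (2 * t) H R h h2t hh (by linarith only [hR2, ht]) hR (x j - x l)
    rw [show 2 * (2 * t) = 4 * t by ring] at h1
    have h2 := hcnκ (x j - x l)
    have h3 := mul_le_mul_of_nonneg_left h1 hA
    have h4 := mul_le_mul_of_nonneg_left h2 hH
    linarith only [h3, h4]
  have hκf : ∫ x, κ (x j - x l) * ‖f x‖ ^ 2 ∂(piN (Fin N))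
      = R * qf (fun x => hk s (x j - x l)) f
        + C1 * Real.sqrt s * qf (fun x => hk (2 * s) (x j - x l)) f := by
    rw [← qf_smul, ← qf_smul, ← qf_add_fun ((bm_diff bs j l).const_mul _)
      ((bm_diff b2s j l).const_mul _)]
    rfl
  rw [hκf]
  have q4 : 0 ≤ qf (fun x => hk (4 * t) (x j - x l)) P := qf_nonneg (fun x => hk_nonneg _ _) P
  have qh : 0 ≤ qf (fun x => h (x j - x l)) f := qf_nonneg (fun x => hh.nonneg _) f
  have qs : 0 ≤ qf (fun x => hk s (x j - x l)) f := qf_nonneg (fun x => hk_nonneg _ _) f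
  have q2s : 0 ≤ qf (fun x => hk (2 * s) (x j - x l)) f := qf_nonneg (fun x => hk_nonneg _ _) f
  change C2 / Real.sqrt t * (c * _ + 1 / c * ((R + C1 * Real.sqrt s)
    * qf (fun x => h (x j - x l)) f + H * _)) ≤ _
  exact SmoB_fin hC1 hC2 hC3 hR hst0 hss0 hc hH q4 qh qs q2s hT1le

end Pool.Agent.Lib.MP_4952d6_mp.LB

end

/-! ### LB.SmoC -/

section

/-! # LB.SmoC: step (5) of the header of LB.SmoA and the sum over the pairs (`sum_hk_le`, `qf_crowd_le_cw`; `hk` is even;
exchange the order of the double sum so that `l` is the outer index) -/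

set_option autoImplicit false
set_option linter.unusedSectionVars false
set_option linter.unusedVariables false
open MeasureTheory Function Filter Topology Set ComplexConjugate

namespace Pool.Agent.Lib.MP_4952d6_mp.LB

lemma SmoC_flip {N : ℕ} (r : ℝ) (j l : Fin N) (f : HS (Fin N)) :
    qf (fun x => hk r (x j - x l)) f = qf (fun x => hk r (x l - x j)) f := by
  have e : (fun x : Fin N → T3 => hk r (x j - x l)) = fun x => hk r (x l - x j) := by
    funext x
    rw [← hk_neg, neg_sub]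
  rw [e]

/-- change of time for a pair -/
lemma SmoC_time {N : ℕ} {t u : ℝ} (ht : 0 < t) (hu : t ≤ u) (hu8 : u ≤ 8 * t) (j l : Fin N)
    (f : HS (Fin N)) :
    qf (fun x => hk u (x j - x l)) f
      ≤ Real.sqrt 8 ^ 3 * qf (fun x => hk (8 * t) (x l - x j)) f := by
  have hu0 : 0 < u := lt_of_lt_of_le ht hu
  have h8 : (0 : ℝ) < 8 * t := by linarith
  rw [← SmoC_flip (8 * t) j l, ← qf_smul]
  refine qf_mono (bm_diff (hk_bm hu0) j l) ((bm_diff (hk_bm h8) j l).const_mul _)
    (Eventually.of_forall fun x => ?_) f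
  refine (hk_le_hk hu0 hu8 (x j - x l)).trans ?_
  refine mul_le_mul_of_nonneg_right ?_ (hk_nonneg _ _)
  refine pow_le_pow_left₀ (Real.sqrt_nonneg _) (Real.sqrt_le_sqrt ?_) 3
  rw [div_le_iff₀ hu0]
  linarith

/-- the weight `hk s` on `Φ` -/
lemma SmoC_phi {N : ℕ} {s t : ℝ} (hs : 0 < s) (ht : 0 < t) {j l : Fin N} (hjl : j ≠ l)
    (ψ : HS (Fin N)) :
    qf (fun x => hk s (x j - x l)) (Phi t j l ψ) ≤ qf (fun x => hk (t + s) (x j - x l)) ψ := by
  have ht2 : 0 < t / 2 := by linarith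
  have hG : BM (fun x : Fin N → T3 => hk s (x j - x l)) := bm_diff (hk_bm hs) j l
  have hG0 : ∀ x : Fin N → T3, 0 ≤ hk s (x j - x l) := fun x => hk_nonneg _ _
  have h1 : Phi t j l ψ = PP1 t l (PP1 t j ψ) := Phi_comm ht.le j l ψ
  rw [h1]
  refine (jensen_PP1 ht l hG hG0 (PP1 t j ψ)).trans ?_
  refine (jensen_PP1 ht j (cvj_bm (hk_bm ht2) l hG)
    (cvj_nonneg (hk_nonneg _) l hG0) ψ).trans ?_
  refine le_of_eq ?_
  congr 1
  funext x
  rw [wt_pair ht (hk_bm hs) hjl x]
  exact hk_conv ht hs (x j - x l)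

lemma SmoC_perp {N : ℕ} {t : ℝ} (ht : 0 ≤ t) (j l : Fin N) (ψ : HS (Fin N)) :
    perp l (PP1 t j ψ) = PP1 t j (perp l ψ) := by
  have hb : Bdm (fun p : Fin 3 → ℤ => 1 - pz p) := (Bdm.const 1).sub bdm_pz
  rw [perp_eq_S1, perp_eq_S1]
  exact S1_comm hb (bdm_et ht) l j ψ

/-- one low momentum operator -/
lemma SmoC_one {N : ℕ} {t u : ℝ} (ht : 0 < t) (hu : 0 < u) {j l : Fin N} (hjl : j ≠ l)
    (f : HS (Fin N)) :
    qf (fun x => hk u (x j - x l)) (PP1 t j f) ≤ qf (fun x => hk (t / 2 + u) (x j - x l)) f := by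
  have ht2 : 0 < t / 2 := by linarith
  have hG : BM (fun x : Fin N → T3 => hk u (x j - x l)) := bm_diff (hk_bm hu) j l
  refine (jensen_PP1 ht j hG (fun x => hk_nonneg _ _) f).trans ?_
  refine le_of_eq ?_
  congr 1
  funext x
  rw [cvj_diff_left hjl x]
  exact hk_conv ht2 hu (x j - x l)

/-- Step (5). -/
theorem smo_psi : ∃ C : ℝ, 0 ≤ C ∧ ∀ (N : ℕ) (s t H R c : ℝ) (h : T3 → ℝ) (j l : Fin N), 0 < s →
    s ≤ t → t ≤ 1 → SR H R h → 0 ≤ R → R ^ 2 ≤ t / 2 → 0 < c → j ≠ l → ∀ ψ : HS (Fin N),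
    |qf (fun x => h (x j - x l)) (Phi t j l ψ) - H * qf (fun x => hk s (x j - x l)) (Phi t j l ψ)|
      ≤ C * H * ((R + Real.sqrt s) / Real.sqrt t)
        * (c * qf (fun x => hk (8 * t) (x l - x j)) (perp l ψ)
          + 1 / c * qf (fun x => hk (8 * t) (x l - x j)) ψ) := by
  obtain ⟨C1, hC1, h1⟩ := smo_pair
  obtain ⟨C2, hC2, h2⟩ := q_h_Phi
  have hK0 : (0 : ℝ) ≤ Real.sqrt 8 ^ 3 := by positivity
  refine ⟨C1 * (Real.sqrt 8 ^ 3 * (C2 + 2)), by positivity, ?_⟩
  intro N s t H R c h j l hs hst ht1 hh hR hRt hc hjl ψ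
  have ht : 0 < t := lt_of_lt_of_le hs hst
  have hH : 0 ≤ H := WtB_H hh
  have hΦ : PP1 t l (PP1 t j ψ) = Phi t j l ψ := (Phi_comm ht.le j l ψ).symm
  have h3 := h1 N s t H R c h j l hs hst ht1 hh hR hRt hc hjl (PP1 t j ψ)
  rw [hΦ] at h3
  refine h3.trans ?_
  set ρ := (R + Real.sqrt s) / Real.sqrt t with hρ
  have hρ0 : 0 ≤ ρ := by positivity
  set K := Real.sqrt 8 ^ 3 with hK
  set q1 := qf (fun x => hk (8 * t) (x l - x j)) (perp l ψ) with hq1
  set q2 := qf (fun x => hk (8 * t) (x l - x j)) ψ with hq2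
  have hq10 : 0 ≤ q1 := qf_nonneg (fun x => hk_nonneg _ _) _
  have hq20 : 0 ≤ q2 := qf_nonneg (fun x => hk_nonneg _ _) _
  -- the four terms
  have e1 : qf (fun x => hk (4 * t) (x j - x l)) (perp l (PP1 t j ψ)) ≤ K * q1 := by
    rw [SmoC_perp ht.le]
    refine (SmoC_one ht (by linarith) hjl _).trans ?_
    exact SmoC_time ht (by linarith) (by linarith) j l _
  have e2 : qf (fun x => h (x j - x l)) (Phi t j l ψ) ≤ C2 * H * (K * q2) := by
    refine (h2 N t H R h j l ht ht1 hh hR hRt hjl ψ).trans ?_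
    refine mul_le_mul_of_nonneg_left ?_ (by positivity)
    exact SmoC_time ht (by linarith) (by linarith) j l _
  have e3 : qf (fun x => hk s (x j - x l)) (Phi t j l ψ) ≤ K * q2 := by
    refine (SmoC_phi hs ht hjl ψ).trans ?_
    exact SmoC_time ht (by linarith) (by linarith) j l _
  have e4 : qf (fun x => hk (2 * s) (x j - x l)) (Phi t j l ψ) ≤ K * q2 := by
    refine (SmoC_phi (by linarith) ht hjl ψ).trans ?_
    exact SmoC_time ht (by linarith) (by linarith) j l _
  have hc1 : 0 ≤ 1 / c := by positivity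
  have e5 : c * H * qf (fun x => hk (4 * t) (x j - x l)) (perp l (PP1 t j ψ))
          + 1 / c * (qf (fun x => h (x j - x l)) (Phi t j l ψ)
            + H * qf (fun x => hk s (x j - x l)) (Phi t j l ψ)
            + H * qf (fun x => hk (2 * s) (x j - x l)) (Phi t j l ψ))
      ≤ K * (C2 + 2) * (H * (c * q1 + 1 / c * q2)) := by
    have a1 : c * H * qf (fun x => hk (4 * t) (x j - x l)) (perp l (PP1 t j ψ))
        ≤ c * H * (K * q1) := mul_le_mul_of_nonneg_left e1 (by positivity)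
    have a2 : qf (fun x => h (x j - x l)) (Phi t j l ψ)
            + H * qf (fun x => hk s (x j - x l)) (Phi t j l ψ)
            + H * qf (fun x => hk (2 * s) (x j - x l)) (Phi t j l ψ)
        ≤ C2 * H * (K * q2) + H * (K * q2) + H * (K * q2) :=
      add_le_add (add_le_add e2 (mul_le_mul_of_nonneg_left e3 hH))
        (mul_le_mul_of_nonneg_left e4 hH)
    have a3 := mul_le_mul_of_nonneg_left a2 hc1
    have a4 : 0 ≤ K * (H * (c * q1)) * (C2 + 1) := by positivity
    nlinarith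
  calc C1 * ρ * (c * H * qf (fun x => hk (4 * t) (x j - x l)) (perp l (PP1 t j ψ))
          + 1 / c * (qf (fun x => h (x j - x l)) (Phi t j l ψ)
            + H * qf (fun x => hk s (x j - x l)) (Phi t j l ψ)
            + H * qf (fun x => hk (2 * s) (x j - x l)) (Phi t j l ψ)))
      ≤ C1 * ρ * (K * (C2 + 2) * (H * (c * q1 + 1 / c * q2))) :=
        mul_le_mul_of_nonneg_left e5 (by positivity)
    _ = _ := by ring

/-- Sum over the pairs. -/
theorem smo_sum : ∃ C : ℝ, 0 ≤ C ∧ ∀ (N : ℕ) (s t H R c : ℝ) (h : T3 → ℝ), 0 < N → 0 < s →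
    s ≤ t → t ≤ 1 → SR H R h → 0 ≤ R → R ^ 2 ≤ t / 2 → 0 < c → ∀ ψ : HS (Fin N),
    H * (∑ j, ∑ l ∈ Finset.univ.erase j, qf (fun x => hk s (x j - x l)) (Phi t j l ψ))
      - C * H * ((R + Real.sqrt s) / Real.sqrt t)
        * (c / N * (∑ m, cw (8 * t) m (perp m ψ)) + 1 / c * ∑ m, qf (crowd (8 * t) m) ψ)
      ≤ ∑ j, ∑ l ∈ Finset.univ.erase j, qf (fun x => h (x j - x l)) (Phi t j l ψ) := by
  obtain ⟨C, hC, h1⟩ := smo_psi
  refine ⟨C, hC, ?_⟩
  intro N s t H R c h hN hs hst ht1 hh hR hRt hc ψ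
  have ht : 0 < t := lt_of_lt_of_le hs hst
  have hH : 0 ≤ H := WtB_H hh
  have hN' : (0 : ℝ) < N := by exact_mod_cast hN
  set ρ := (R + Real.sqrt s) / Real.sqrt t with hρ
  have hρ0 : 0 ≤ ρ := by positivity
  have hswap : ∀ F : Fin N → Fin N → ℝ, ∑ j, ∑ l ∈ Finset.univ.erase j, F j l =
      ∑ l, ∑ j ∈ Finset.univ.erase l, F j l := by
    intro F
    refine Finset.sum_comm' ?_
    intro x y
    simp only [Finset.mem_univ, Finset.mem_erase, and_true, true_and, ne_eq]
    exact ⟨fun h => fun h' => h h'.symm, fun h => fun h' => h h'.symm⟩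
  have hcr : ∀ (m : Fin N) (f : HS (Fin N)), ∑ j ∈ Finset.univ.erase m,
      qf (fun x => hk (8 * t) (x m - x j)) f ≤ qf (crowd (8 * t) m) f := by
    intro m f
    have h2 := sum_hk_le (s := 8 * t) (r := 8 * t) (by linarith) le_rfl m f
    rw [div_self (by linarith : (8 * t) ≠ 0), Real.sqrt_one, one_pow, one_mul] at h2
    exact h2
  -- sum of the pair bounds
  have h3 : ∑ j, ∑ l ∈ Finset.univ.erase j,
      (H * qf (fun x => hk s (x j - x l)) (Phi t j l ψ)
        - qf (fun x => h (x j - x l)) (Phi t j l ψ))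
      ≤ ∑ j, ∑ l ∈ Finset.univ.erase j, C * H * ρ
        * (c * qf (fun x => hk (8 * t) (x l - x j)) (perp l ψ)
          + 1 / c * qf (fun x => hk (8 * t) (x l - x j)) ψ) := by
    refine Finset.sum_le_sum fun j _ => Finset.sum_le_sum fun l hl => ?_
    have h4 := h1 N s t H R c h j l hs hst ht1 hh hR hRt hc (Finset.ne_of_mem_erase hl).symm ψ
    have h5 := (abs_le.mp h4).1
    linarith
  have h6 : ∑ j, ∑ l ∈ Finset.univ.erase j, C * H * ρ
        * (c * qf (fun x => hk (8 * t) (x l - x j)) (perp l ψ)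
          + 1 / c * qf (fun x => hk (8 * t) (x l - x j)) ψ)
      ≤ C * H * ρ * (c / N * (∑ m, cw (8 * t) m (perp m ψ))
        + 1 / c * ∑ m, qf (crowd (8 * t) m) ψ) := by
    rw [hswap]
    simp only [← Finset.mul_sum]
    refine mul_le_mul_of_nonneg_left ?_ (by positivity)
    simp only [Finset.sum_add_distrib, ← Finset.mul_sum]
    refine add_le_add ?_ ?_
    · rw [div_mul_eq_mul_div, mul_div_assoc]
      refine mul_le_mul_of_nonneg_left ?_ hc.le
      rw [le_div_iff₀ hN', Finset.sum_mul]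
      refine Finset.sum_le_sum fun m _ => ?_
      have h7 := hcr m (perp m ψ)
      have h8 := qf_crowd_le_cw (s := 8 * t) (by linarith) m (perp m ψ)
      calc (∑ j ∈ Finset.univ.erase m, qf (fun x => hk (8 * t) (x m - x j)) (perp m ψ)) * N
          ≤ qf (crowd (8 * t) m) (perp m ψ) * N := mul_le_mul_of_nonneg_right h7 hN'.le
        _ = N * qf (crowd (8 * t) m) (perp m ψ) := mul_comm _ _
        _ ≤ _ := h8
    · refine mul_le_mul_of_nonneg_left ?_ (by positivity)
      exact Finset.sum_le_sum fun m _ => hcr m ψ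
  have h9 : ∑ j, ∑ l ∈ Finset.univ.erase j,
      (H * qf (fun x => hk s (x j - x l)) (Phi t j l ψ)
        - qf (fun x => h (x j - x l)) (Phi t j l ψ)) =
      H * (∑ j, ∑ l ∈ Finset.univ.erase j, qf (fun x => hk s (x j - x l)) (Phi t j l ψ))
        - ∑ j, ∑ l ∈ Finset.univ.erase j, qf (fun x => h (x j - x l)) (Phi t j l ψ) := by
    simp only [Finset.sum_sub_distrib, Finset.mul_sum]
  rw [h9] at h3
  linarith

end Pool.Agent.Lib.MP_4952d6_mp.LB

end

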