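import Pool.Agent.Lib.MP_4952d6_mp.Pk.G31
import Pool.Agent.Lib.MP_4952d6_mp.Pk.G32
import Pool.Agent.Lib.MP_4952d6_mp.Pk.G33
import Pool.Agent.Lib.MP_4952d6_mp.Pk.G38

/-! Merged modules (to save import time): LB.Qb, LB.Sums, LB.SmoA. -/

/-! ### LB.Qb -/

section

/-!
# LB.Qb: bounds of quadratic forms by local moments

Tools: `jensen_S1` with `w = hk (t/2)` (`φ = et t`, `fc3_hk`, `∫ w = 1`) gives
`qf G (PP1 t j f) ≤ qf (cvj (hk (t/2)) j G) f`, with `w = 1` (`φ = pz`) gives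
`qf G (Pz j f) ≤ qf (cvj (fun _ => 1) j G) f`; `qf_mono`, `qf_add_le`, `qf_sub_le`, `qf_const`.
`G` is always `BM` and `≥ 0` (`bm_diff`, `BM.mul`, `cvj_bm`, `cn_bm`). The `PP1`, `Pz` commute.

* `q_h_Phi`: `qf h_{jl} (P_j P_l ψ) ≤ qf (cn (hk t) h (x_j-x_l)) ψ` (`wt_pair`) and `cn_hk_le` with `s = t`.
* `q_h_Phi1`: `Phi1_eq`, then for `P_j P_l (perp j ψ)` as above; for `Pz j (P_l (perp l ψ))`: the weight
  `cvj 1 j (cvj p l h_{jl})` is the constant `H`.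
* `q_three`: `Phi1 t j l F = P_j P_l F - Pz_j Pz_l F`, `wt_three`, `wt_three_zero`.
* `q_hh`: `P_m Phi1 = P_j P_l P_m (perp j ψ) + Pz_j P_l P_m (perp l ψ)`, `wt_hh`, `wt_hh_zero`.
-/

set_option autoImplicit false
set_option linter.unusedSectionVars false
set_option linter.unusedVariables false
open MeasureTheory Function Filter Topology Set ComplexConjugate

namespace Pool.Agent.Lib.MP_4952d6_mp.LB

/-! ### auxiliary facts -/

lemma Qb_H {H R : ℝ} {h : T3 → ℝ} (hh : SR H R h) : 0 ≤ H := by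
  rw [← hh.int]
  exact integral_nonneg hh.nonneg

lemma Qb_fc3_one (p : Fin 3 → ℤ) :
    fc3 (fun _ : T3 => (((1 : ℝ) : ℝ) : ℂ)) p = ((pz p : ℝ) : ℂ) := by
  unfold fc3 pz
  by_cases hp : p = 0
  · subst hp
    rw [if_pos rfl]
    simp only [ch_zero, map_one, Complex.ofReal_one, mul_one, integral_const, probReal_univ,
      one_smul]
  · rw [if_neg hp]
    obtain ⟨s, hs⟩ := exists_ch_eq_neg_one hp
    have h1 := int_sub_right (fun x => conj (ch p x) * (((1 : ℝ) : ℝ) : ℂ)) s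
    have h2 : (fun y => conj (ch p (y - s)) * (((1 : ℝ) : ℝ) : ℂ)) =
        fun y => -(conj (ch p y) * (((1 : ℝ) : ℝ) : ℂ)) := by
      funext y
      rw [sub_eq_add_neg, ch_add_arg, ch_neg_arg, hs]
      simp
    simp only [h2] at h1
    rw [integral_neg] at h1
    have h3 := self_eq_neg.mp h1.symm
    rw [h3]
    simp

lemma Qb_fc3_zero {h : T3 → ℝ} : fc3 (fun y => (h y : ℂ)) 0 = ((∫ y, h y ∂lam3 : ℝ) : ℂ) := by
  unfold fc3
  simp only [ch_zero, map_one, one_mul]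
  exact integral_ofReal

lemma Qb_one_bm {α : Type*} [MeasurableSpace α] : BM (fun _ : α => (1 : ℝ)) := BM.const 1

lemma jensen_PP1 {ι : Type*} [Fintype ι] [DecidableEq ι] {t : ℝ} (ht : 0 < t) (j : ι)
    {G : (ι → T3) → ℝ} (hG : BM G) (hG0 : ∀ x, 0 ≤ G x) (f : HS ι) :
    qf G (PP1 t j f) ≤ qf (cvj (hk (t / 2)) j G) f := by
  have ht2 : 0 < t / 2 := by linarith
  have h1 := jensen_S1 (hk_bm ht2) (hk_nonneg (t / 2)) (hk_neg (t / 2)) (bdm_et ht.le)
    (fun p => fc3_hk ht2 p) j hG hG0 f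
  rw [hk_integral ht2, one_mul] at h1
  exact h1

lemma jensen_Pz {ι : Type*} [Fintype ι] [DecidableEq ι] (j : ι)
    {G : (ι → T3) → ℝ} (hG : BM G) (hG0 : ∀ x, 0 ≤ G x) (f : HS ι) :
    qf G (Pz j f) ≤ qf (cvj (fun _ => 1) j G) f := by
  have h1 := jensen_S1 (w := fun _ => (1 : ℝ)) Qb_one_bm (fun _ => zero_le_one) (fun _ => rfl)
    bdm_pz (fun p => Qb_fc3_one p) j hG hG0 f
  have h2 : ∫ _ : T3, (1 : ℝ) ∂lam3 = 1 := by simp
  rw [h2, one_mul] at h1
  exact h1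

lemma Qb_norm_PP1_le {ι : Type*} [Fintype ι] [DecidableEq ι] {t : ℝ} (ht : 0 < t) (j : ι)
    (f : HS ι) : ‖PP1 t j f‖ ≤ ‖f‖ := by
  have h1 := norm_S1_le (φ := et t) (C := 1)
    (fun p => by rw [abs_of_pos (et_pos t p)]; exact et_le_one ht.le p) j f
  rw [one_mul] at h1
  exact h1

theorem q_h_Phi : ∃ C : ℝ, 0 ≤ C ∧ ∀ (N : ℕ) (t H R : ℝ) (h : T3 → ℝ) (j l : Fin N), 0 < t →
    t ≤ 1 → SR H R h → 0 ≤ R → R ^ 2 ≤ t / 2 → j ≠ l → ∀ ψ : HS (Fin N),
    qf (fun x => h (x j - x l)) (Phi t j l ψ) ≤ C * H * qf (fun x => hk (2 * t) (x j - x l)) ψ := by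
  obtain ⟨C, hC0, hC⟩ := cn_hk_le
  refine ⟨C, hC0, ?_⟩
  intro N t H R h j l ht ht1 hh hR hRt hjl ψ
  have ht2 : 0 < t / 2 := by linarith
  have hb : BM (fun x : Fin N → T3 => h (x j - x l)) := bm_diff hh.bm j l
  have hb0 : ∀ x : Fin N → T3, 0 ≤ h (x j - x l) := fun x => hh.nonneg _
  have h1 := jensen_PP1 ht l hb hb0 (PP1 t j ψ)
  have h2 := jensen_PP1 ht j (cvj_bm (hk_bm ht2) l hb)
    (cvj_nonneg (hk_nonneg (t / 2)) l hb0) ψ
  have h3 : qf (cvj (hk (t / 2)) j (cvj (hk (t / 2)) l (fun x => h (x j - x l)))) ψ ≤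
      qf (fun x => C * H * hk (2 * t) (x j - x l)) ψ := by
    refine qf_mono (cvj_bm (hk_bm ht2) j (cvj_bm (hk_bm ht2) l hb))
      ((bm_diff (hk_bm (by linarith)) j l).const_mul _) (Eventually.of_forall fun x => ?_) ψ
    show cvj (hk (t / 2)) j (cvj (hk (t / 2)) l (fun x => h (x j - x l))) x ≤
      C * H * hk (2 * t) (x j - x l)
    rw [wt_pair ht hh.bm hjl x]
    exact hC t H R h ht hh (by linarith) hR _
  rw [qf_smul] at h3
  rw [Phi_comm ht.le]
  exact h1.trans (h2.trans h3)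

/-- the average over `x_j` of `h (x_j - x_l)` -/
lemma Qb_avg {ι : Type*} [Fintype ι] [DecidableEq ι] {H R : ℝ} {h : T3 → ℝ} (hh : SR H R h)
    {j l : ι} (hjl : j ≠ l) : cvj (fun _ => 1) j (fun x : ι → T3 => h (x j - x l)) =
      fun _ => H := by
  funext x
  rw [cvj_diff_left hjl]
  unfold cn
  simp only [one_mul]
  exact hh.int

theorem q_h_Phi1 : ∃ C : ℝ, 0 ≤ C ∧ ∀ (N : ℕ) (t H R : ℝ) (h : T3 → ℝ) (j l : Fin N), 0 < t →
    t ≤ 1 → SR H R h → 0 ≤ R → R ^ 2 ≤ t / 2 → j ≠ l → ∀ ψ : HS (Fin N),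
    qf (fun x => h (x j - x l)) (Phi1 t j l ψ)
      ≤ C * H * (qf (fun x => hk (2 * t) (x j - x l)) (perp j ψ) + ‖perp l ψ‖ ^ 2) := by
  obtain ⟨C, hC0, hC⟩ := q_h_Phi
  refine ⟨2 * C + 2, by linarith, ?_⟩
  intro N t H R h j l ht ht1 hh hR hRt hjl ψ
  have hH := Qb_H hh
  have hb : BM (fun x : Fin N → T3 => h (x j - x l)) := bm_diff hh.bm j l
  have hb0 : ∀ x : Fin N → T3, 0 ≤ h (x j - x l) := fun x => hh.nonneg _
  rw [Phi1_eq ht.le]
  have h0 := qf_add_le hb hb0 (PP1 t j (PP1 t l (perp j ψ))) (Pz j (PP1 t l (perp l ψ)))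
  have h1 : qf (fun x => h (x j - x l)) (PP1 t j (PP1 t l (perp j ψ))) ≤
      C * H * qf (fun x => hk (2 * t) (x j - x l)) (perp j ψ) :=
    hC N t H R h j l ht ht1 hh hR hRt hjl (perp j ψ)
  have h2 : qf (fun x => h (x j - x l)) (Pz j (PP1 t l (perp l ψ))) ≤ H * ‖perp l ψ‖ ^ 2 := by
    refine (jensen_Pz j hb hb0 _).trans ?_
    rw [Qb_avg hh hjl, qf_const]
    exact mul_le_mul_of_nonneg_left (pow_le_pow_left₀ (norm_nonneg _)
      (Qb_norm_PP1_le ht l _) 2) hH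
  have h3 : 0 ≤ qf (fun x => hk (2 * t) (x j - x l)) (perp j ψ) :=
    qf_nonneg (fun x => hk_nonneg _ _) _
  have h4 : 0 ≤ ‖perp l ψ‖ ^ 2 := by positivity
  have m1 := mul_nonneg (mul_nonneg hC0 hH) h4
  have m2 := mul_nonneg hH h3
  have e : (2 * C + 2) * H * (qf (fun x => hk (2 * t) (x j - x l)) (perp j ψ) + ‖perp l ψ‖ ^ 2) =
      2 * (C * H * qf (fun x => hk (2 * t) (x j - x l)) (perp j ψ)) + 2 * (H * ‖perp l ψ‖ ^ 2)
      + 2 * (C * H * ‖perp l ψ‖ ^ 2) + 2 * (H * qf (fun x => hk (2 * t) (x j - x l)) (perp j ψ)) := by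
    ring
  rw [e]
  linarith only [h0, h1, h2, m1, m2]

theorem q_h_Phi0 {N : ℕ} {H R : ℝ} {h : T3 → ℝ} {j l : Fin N} (hh : SR H R h) (hjl : j ≠ l)
    (ψ : HS (Fin N)) : qf (fun x => h (x j - x l)) (Phi0 j l ψ) = H * ‖Phi0 j l ψ‖ ^ 2 := by
  have hb : BM (fun x : Fin N → T3 => h (x j - x l)) := bm_diff hh.bm j l
  rw [qf_eq hb]
  show (inner ℂ (Phi0 j l ψ) (HP h j l (Phi0 j l ψ))).re = H * ‖Phi0 j l ψ‖ ^ 2
  have hf : ∀ k : Fin N → Fin 3 → ℤ, ¬ (k j = 0 ∧ k l = 0) → cf (Phi0 j l ψ) k = 0 := by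
    intro k hk
    rw [cf_Phi0, if_neg hk]
  have h1 := hasSum_inner_re (Phi0 j l ψ) (HP h j l (Phi0 j l ψ))
  have h2 := (hasSum_norm_sq (Phi0 j l ψ)).mul_left H
  have h3 : (fun k => (conj (cf (Phi0 j l ψ) k) * cf (HP h j l (Phi0 j l ψ)) k).re) =
      fun k => H * ‖cf (Phi0 j l ψ) k‖ ^ 2 := by
    funext k
    by_cases hk : k j = 0 ∧ k l = 0
    · rw [cf_HP_zero hh.bm hjl hf, if_pos (by rw [hk.1, hk.2, add_zero]), hk.1, Qb_fc3_zero,
        hh.int]
      have h4 : pr j l k = k := by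
        funext i
        by_cases hil : i = l
        · rw [hil, pr_right, hk.2]
        · by_cases hij : i = j
          · rw [hij, pr_left hjl, hk.1]
          · exact pr_of_ne hij hil k
      rw [h4, mul_left_comm, mul_comm (conj (cf (Phi0 j l ψ) k)), Complex.mul_conj,
        Complex.normSq_eq_norm_sq]
      norm_cast
    · rw [hf k hk]
      simp
  rw [h3] at h1
  exact h1.unique h2

theorem q_three_zero {N : ℕ} {u H R : ℝ} (hu : 0 < u) {h : T3 → ℝ} (hh : SR H R h)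
    {j l m : Fin N} (hjl : j ≠ l) (hjm : j ≠ m) (hlm : l ≠ m) (F : HS (Fin N)) :
    qf (fun x => h (x j - x l) * cn (hk u) h (x j - x m)) (Phi0 j l F) ≤ H ^ 2 * ‖F‖ ^ 2 := by
  have hb : BM (fun x : Fin N → T3 => h (x j - x l) * cn (hk u) h (x j - x m)) :=
    (bm_diff hh.bm j l).mul (bm_diff (cn_bm (hk_bm hu) hh.bm) j m)
  have hb0 : ∀ x : Fin N → T3, 0 ≤ h (x j - x l) * cn (hk u) h (x j - x m) :=
    fun x => mul_nonneg (hh.nonneg _) (cn_nonneg (hk_nonneg u) hh.nonneg _)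
  rw [Phi0_comm]
  have h1 := jensen_Pz l hb hb0 (Pz j F)
  have h2 := jensen_Pz j (cvj_bm Qb_one_bm l hb) (cvj_nonneg (fun _ => zero_le_one) l hb0) F
  have h3 : cvj (fun _ => 1) j (cvj (fun _ => 1) l
      (fun x : Fin N → T3 => h (x j - x l) * cn (hk u) h (x j - x m))) = fun _ => H ^ 2 := by
    funext x
    exact wt_three_zero hu hh hjl hjm hlm x
  rw [h3, qf_const] at h2
  exact h1.trans h2

theorem q_three : ∃ C : ℝ, 0 ≤ C ∧ ∀ (N : ℕ) (u t H R : ℝ) (h : T3 → ℝ) (j l m : Fin N), 0 < u →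
    u ≤ t / 2 → t ≤ 1 → SR H R h → 0 ≤ R → R ^ 2 ≤ t / 2 → j ≠ l → j ≠ m → l ≠ m →
    ∀ F : HS (Fin N), qf (fun x => h (x j - x l) * cn (hk u) h (x j - x m)) (Phi1 t j l F)
      ≤ C * H ^ 2 * (qf (fun x => hk (8 * t) (x m - x j) * hk (8 * t) (x m - x l)) F
        + ‖F‖ ^ 2) := by
  obtain ⟨C, hC0, hC⟩ := wt_three
  refine ⟨2 * C + 2, by linarith, ?_⟩
  intro N u t H R h j l m hu hut ht1 hh hR hRt hjl hjm hlm F
  have ht : 0 < t := by linarith
  have ht2 : 0 < t / 2 := by linarith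
  have hb : BM (fun x : Fin N → T3 => h (x j - x l) * cn (hk u) h (x j - x m)) :=
    (bm_diff hh.bm j l).mul (bm_diff (cn_bm (hk_bm hu) hh.bm) j m)
  have hb0 : ∀ x : Fin N → T3, 0 ≤ h (x j - x l) * cn (hk u) h (x j - x m) :=
    fun x => mul_nonneg (hh.nonneg _) (cn_nonneg (hk_nonneg u) hh.nonneg _)
  have h0 : qf (fun x => h (x j - x l) * cn (hk u) h (x j - x m)) (Phi1 t j l F) ≤
      2 * qf (fun x => h (x j - x l) * cn (hk u) h (x j - x m)) (Phi t j l F) +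
      2 * qf (fun x => h (x j - x l) * cn (hk u) h (x j - x m)) (Phi0 j l F) :=
    qf_sub_le hb hb0 (Phi t j l F) (Phi0 j l F)
  have h1 : qf (fun x => h (x j - x l) * cn (hk u) h (x j - x m)) (Phi t j l F) ≤
      C * H ^ 2 * qf (fun x => hk (8 * t) (x m - x j) * hk (8 * t) (x m - x l)) F := by
    rw [Phi_comm ht.le]
    have a1 := jensen_PP1 ht l hb hb0 (PP1 t j F)
    have a2 := jensen_PP1 ht j (cvj_bm (hk_bm ht2) l hb)
      (cvj_nonneg (hk_nonneg (t / 2)) l hb0) F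
    have a3 : qf (cvj (hk (t / 2)) j (cvj (hk (t / 2)) l
        (fun x => h (x j - x l) * cn (hk u) h (x j - x m)))) F ≤
        qf (fun x => C * H ^ 2 * (hk (8 * t) (x m - x j) * hk (8 * t) (x m - x l))) F := by
      refine qf_mono (cvj_bm (hk_bm ht2) j (cvj_bm (hk_bm ht2) l hb))
        (((bm_diff (hk_bm (by linarith)) m j).mul
          (bm_diff (hk_bm (by linarith)) m l)).const_mul _) (Eventually.of_forall fun x => ?_) F
      exact hC N u t H R h j l m hu hut ht1 hh hR hRt hjl hjm hlm x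
    rw [qf_smul] at a3
    exact a1.trans (a2.trans a3)
  have h2 := q_three_zero hu hh hjl hjm hlm F
  have h3 : 0 ≤ qf (fun x => hk (8 * t) (x m - x j) * hk (8 * t) (x m - x l)) F :=
    qf_nonneg (fun x => mul_nonneg (hk_nonneg _ _) (hk_nonneg _ _)) _
  have h4 : 0 ≤ ‖F‖ ^ 2 := by positivity
  have h5 : 0 ≤ H ^ 2 := by positivity
  have m1 := mul_nonneg (mul_nonneg hC0 h5) h4
  have m2 := mul_nonneg h5 h3
  have e : (2 * C + 2) * H ^ 2 *
      (qf (fun x => hk (8 * t) (x m - x j) * hk (8 * t) (x m - x l)) F + ‖F‖ ^ 2) =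
      2 * (C * H ^ 2 * qf (fun x => hk (8 * t) (x m - x j) * hk (8 * t) (x m - x l)) F)
      + 2 * (H ^ 2 * ‖F‖ ^ 2) + 2 * (C * H ^ 2 * ‖F‖ ^ 2)
      + 2 * (H ^ 2 * qf (fun x => hk (8 * t) (x m - x j) * hk (8 * t) (x m - x l)) F) := by
    ring
  rw [e]
  linarith only [h0, h1, h2, m1, m2]

theorem q_hh : ∃ C : ℝ, 0 ≤ C ∧ ∀ (N : ℕ) (t H R : ℝ) (h : T3 → ℝ) (j l m : Fin N), 0 < t →
    t ≤ 1 → SR H R h → 0 ≤ R → R ^ 2 ≤ t / 2 → j ≠ l → j ≠ m → l ≠ m → ∀ ψ : HS (Fin N),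
    qf (fun x => h (x j - x l) * h (x j - x m)) (PP1 t m (Phi1 t j l ψ))
      ≤ C * H ^ 2 * (qf (fun x => hk (4 * t) (x j - x l) * hk (4 * t) (x j - x m)) (perp j ψ)
        + qf (fun x => hk (2 * t) (x l - x m)) (perp l ψ)) := by
  obtain ⟨C, hC0, hC⟩ := wt_hh
  obtain ⟨C', hC'0, hC'⟩ := wt_hh_zero
  refine ⟨2 * C + 2 * C', by linarith, ?_⟩
  intro N t H R h j l m ht ht1 hh hR hRt hjl hjm hlm ψ
  have ht2 : 0 < t / 2 := by linarith
  have hb : BM (fun x : Fin N → T3 => h (x j - x l) * h (x j - x m)) :=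
    (bm_diff hh.bm j l).mul (bm_diff hh.bm j m)
  have hb0 : ∀ x : Fin N → T3, 0 ≤ h (x j - x l) * h (x j - x m) :=
    fun x => mul_nonneg (hh.nonneg _) (hh.nonneg _)
  have e0 : PP1 t m (Phi1 t j l ψ) = PP1 t m (PP1 t l (PP1 t j (perp j ψ))) +
      PP1 t m (PP1 t l (Pz j (perp l ψ))) := by
    rw [Phi1_eq ht.le, map_add]
    have b1 : PP1 t j (PP1 t l (perp j ψ)) = PP1 t l (PP1 t j (perp j ψ)) :=
      S1_comm (bdm_et ht.le) (bdm_et ht.le) j l _
    have b2 : Pz j (PP1 t l (perp l ψ)) = PP1 t l (Pz j (perp l ψ)) :=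
      S1_comm bdm_pz (bdm_et ht.le) j l _
    rw [b1, b2]
  rw [e0]
  have h0 := qf_add_le hb hb0 (PP1 t m (PP1 t l (PP1 t j (perp j ψ))))
    (PP1 t m (PP1 t l (Pz j (perp l ψ))))
  have hbm : BM (cvj (hk (t / 2)) m (fun x : Fin N → T3 => h (x j - x l) * h (x j - x m))) :=
    cvj_bm (hk_bm ht2) m hb
  have hbm0 := cvj_nonneg (hk_nonneg (t / 2)) m hb0
  have hbl : BM (cvj (hk (t / 2)) l (cvj (hk (t / 2)) m
      (fun x : Fin N → T3 => h (x j - x l) * h (x j - x m)))) := cvj_bm (hk_bm ht2) l hbm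
  have hbl0 := cvj_nonneg (hk_nonneg (t / 2)) l hbm0
  have h1 : qf (fun x => h (x j - x l) * h (x j - x m))
      (PP1 t m (PP1 t l (PP1 t j (perp j ψ)))) ≤
      C * H ^ 2 * qf (fun x => hk (4 * t) (x j - x l) * hk (4 * t) (x j - x m)) (perp j ψ) := by
    have a1 := jensen_PP1 ht m hb hb0 (PP1 t l (PP1 t j (perp j ψ)))
    have a2 := jensen_PP1 ht l hbm hbm0 (PP1 t j (perp j ψ))
    have a3 := jensen_PP1 ht j hbl hbl0 (perp j ψ)
    have a4 : qf (cvj (hk (t / 2)) j (cvj (hk (t / 2)) l (cvj (hk (t / 2)) m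
        (fun x => h (x j - x l) * h (x j - x m))))) (perp j ψ) ≤
        qf (fun x => C * H ^ 2 * (hk (4 * t) (x j - x l) * hk (4 * t) (x j - x m)))
          (perp j ψ) := by
      refine qf_mono (cvj_bm (hk_bm ht2) j hbl)
        (((bm_diff (hk_bm (by linarith)) j l).mul
          (bm_diff (hk_bm (by linarith)) j m)).const_mul _) (Eventually.of_forall fun x => ?_) _
      exact hC N t H R h j l m ht ht1 hh hR hRt hjl hjm hlm x
    rw [qf_smul] at a4
    exact a1.trans (a2.trans (a3.trans a4))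
  have h2 : qf (fun x => h (x j - x l) * h (x j - x m))
      (PP1 t m (PP1 t l (Pz j (perp l ψ)))) ≤
      C' * H ^ 2 * qf (fun x => hk (2 * t) (x l - x m)) (perp l ψ) := by
    have a1 := jensen_PP1 ht m hb hb0 (PP1 t l (Pz j (perp l ψ)))
    have a2 := jensen_PP1 ht l hbm hbm0 (Pz j (perp l ψ))
    have a3 := jensen_Pz j hbl hbl0 (perp l ψ)
    have a4 : qf (cvj (fun _ => 1) j (cvj (hk (t / 2)) l (cvj (hk (t / 2)) m
        (fun x => h (x j - x l) * h (x j - x m))))) (perp l ψ) ≤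
        qf (fun x => C' * H ^ 2 * hk (2 * t) (x l - x m)) (perp l ψ) := by
      refine qf_mono (cvj_bm Qb_one_bm j hbl)
        ((bm_diff (hk_bm (by linarith)) l m).const_mul _) (Eventually.of_forall fun x => ?_) _
      exact hC' N t H R h j l m ht ht1 hh hR hRt hjl hjm hlm x
    rw [qf_smul] at a4
    exact a1.trans (a2.trans (a3.trans a4))
  have h3 : 0 ≤ qf (fun x => hk (4 * t) (x j - x l) * hk (4 * t) (x j - x m)) (perp j ψ) :=
    qf_nonneg (fun x => mul_nonneg (hk_nonneg _ _) (hk_nonneg _ _)) _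
  have h4 : 0 ≤ qf (fun x => hk (2 * t) (x l - x m)) (perp l ψ) :=
    qf_nonneg (fun x => hk_nonneg _ _) _
  have h5 : 0 ≤ H ^ 2 := by positivity
  have m1 := mul_nonneg (mul_nonneg hC0 h5) h4
  have m2 := mul_nonneg (mul_nonneg hC'0 h5) h3
  have e : (2 * C + 2 * C') * H ^ 2 *
      (qf (fun x => hk (4 * t) (x j - x l) * hk (4 * t) (x j - x m)) (perp j ψ)
        + qf (fun x => hk (2 * t) (x l - x m)) (perp l ψ)) =
      2 * (C * H ^ 2 * qf (fun x => hk (4 * t) (x j - x l) * hk (4 * t) (x j - x m)) (perp j ψ))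
      + 2 * (C' * H ^ 2 * qf (fun x => hk (2 * t) (x l - x m)) (perp l ψ))
      + 2 * (C * H ^ 2 * qf (fun x => hk (2 * t) (x l - x m)) (perp l ψ))
      + 2 * (C' * H ^ 2 *
        qf (fun x => hk (4 * t) (x j - x l) * hk (4 * t) (x j - x m)) (perp j ψ)) := by
    ring
  rw [e]
  linarith only [h0, h1, h2, m1, m2]

end Pool.Agent.Lib.MP_4952d6_mp.LB

end

/-! ### LB.Sums -/

section

/-!
# LB.Sums: sums over particles and the crowd

`crowd s m x = ∑_{j ≠ m} hk s (x_m - x_j) ≥ 0`. `M ω`-type quantities: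
`mom s ψ' = ∑_m ∫ (crowd s m + N)² |ψ'_m|²`. Everything is termwise positivity, `qf_sum`, `qf_mono`,
`hk_le_hk` (`hk s ≤ √(r/s)³ hk r` for `s ≤ r`), `a² + N² ≤ (a+N)²`, `N a ≤ (a+N)²`,
`∑_{j ≠ m} ∑_{l ≠ m, l ≠ j} a_j a_l ≤ (∑ a_j)²`. `N = card (Fin N)`.
-/

set_option autoImplicit false
set_option linter.unusedSectionVars false
set_option linter.unusedVariables false
open MeasureTheory Function Filter Topology Set ComplexConjugate

namespace Pool.Agent.Lib.MP_4952d6_mp.LB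

variable {N : ℕ}

lemma crowd_bm {s : ℝ} (hs : 0 < s) (m : Fin N) : BM (crowd (ι := Fin N) s m) := by
  have := borel_config (Fin N)
  unfold crowd
  refine BM.finset_sum _ fun j _ => ?_
  exact (hk_bm hs).comp ((continuous_apply m).sub (continuous_apply j)).measurable

lemma crowd_nonneg (s : ℝ) (m : Fin N) (x : Fin N → T3) : 0 ≤ crowd s m x := by
  unfold crowd
  exact Finset.sum_nonneg fun j _ => hk_nonneg _ _

/-- `∫ (crowd s m + N)² |f|²` -/
noncomputable def cw (s : ℝ) (m : Fin N) (f : HS (Fin N)) : ℝ :=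
  qf (fun x => (crowd s m x + N) ^ 2) f

lemma cw_nonneg (s : ℝ) (m : Fin N) (f : HS (Fin N)) : 0 ≤ cw s m f := by
  unfold cw
  exact qf_nonneg (fun x => sq_nonneg _) f

lemma Sums_bm {s : ℝ} (hs : 0 < s) (m : Fin N) :
    BM (fun x : Fin N → T3 => (crowd s m x + N) ^ 2) :=
  ((crowd_bm hs m).add (BM.const _)).pow 2

lemma sq_norm_le_cw {s : ℝ} (hs : 0 < s) (m : Fin N) (f : HS (Fin N)) :
    (N : ℝ) ^ 2 * ‖f‖ ^ 2 ≤ cw s m f := by
  rw [← qf_const]
  unfold cw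
  refine qf_mono (BM.const _) (Sums_bm hs m) (Filter.Eventually.of_forall fun x => ?_) f
  have h1 := crowd_nonneg s m x
  have h2 : (0 : ℝ) ≤ N := Nat.cast_nonneg N
  exact pow_le_pow_left₀ h2 (by linarith) 2

lemma qf_crowd_le_cw {s : ℝ} (hs : 0 < s) (m : Fin N) (f : HS (Fin N)) :
    (N : ℝ) * qf (crowd s m) f ≤ cw s m f := by
  rw [← qf_smul]
  unfold cw
  refine qf_mono ((crowd_bm hs m).const_mul _) (Sums_bm hs m)
    (Filter.Eventually.of_forall fun x => ?_) f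
  have h1 := crowd_nonneg s m x
  have h2 : (0 : ℝ) ≤ N := Nat.cast_nonneg N
  nlinarith [mul_nonneg h1 h2, sq_nonneg (crowd s m x), sq_nonneg (N : ℝ)]

/-- pointwise change of time -/
lemma Sums_crowd_le {s r : ℝ} (hs : 0 < s) (hsr : s ≤ r) (m : Fin N) (x : Fin N → T3) :
    crowd s m x ≤ Real.sqrt (r / s) ^ 3 * crowd r m x := by
  unfold crowd
  rw [Finset.mul_sum]
  exact Finset.sum_le_sum fun j _ => hk_le_hk hs hsr _

lemma Sums_hk_bm {s : ℝ} (hs : 0 < s) (m j : Fin N) :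
    BM (fun x : Fin N → T3 => hk s (x m - x j)) := by
  have := borel_config (Fin N)
  exact (hk_bm hs).comp ((continuous_apply m).sub (continuous_apply j)).measurable

/-- change of time, `s ≤ r` -/
lemma sum_hk_le {s r : ℝ} (hs : 0 < s) (hsr : s ≤ r) (m : Fin N) (f : HS (Fin N)) :
    ∑ j ∈ Finset.univ.erase m, qf (fun x => hk s (x m - x j)) f
      ≤ Real.sqrt (r / s) ^ 3 * qf (crowd r m) f := by
  rw [← qf_sum (Finset.univ.erase m) (fun j _ => Sums_hk_bm hs m j), ← qf_smul]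
  exact qf_mono (crowd_bm hs m) ((crowd_bm (lt_of_lt_of_le hs hsr) m).const_mul _)
    (Filter.Eventually.of_forall fun x => Sums_crowd_le hs hsr m x) f

lemma Sums_pt {a : Fin N → ℝ} (ha : ∀ j, 0 ≤ a j) (m : Fin N) :
    ∑ j ∈ Finset.univ.erase m, ∑ l ∈ (Finset.univ.erase m).erase j, (a j * a l + 1)
      ≤ (∑ j ∈ Finset.univ.erase m, a j) ^ 2 + (N : ℝ) ^ 2 := by
  have h1 : ∀ j ∈ Finset.univ.erase m,
      ∑ l ∈ (Finset.univ.erase m).erase j, (a j * a l + 1)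
        ≤ a j * (∑ l ∈ Finset.univ.erase m, a l) + N := by
    intro j _
    rw [Finset.sum_add_distrib, ← Finset.mul_sum]
    refine add_le_add ?_ ?_
    · refine mul_le_mul_of_nonneg_left ?_ (ha j)
      exact Finset.sum_le_sum_of_subset_of_nonneg (Finset.erase_subset _ _) fun l _ _ => ha l
    · rw [Finset.sum_const, nsmul_eq_mul, mul_one]
      have : ((Finset.univ.erase m).erase j).card ≤ N := by
        refine (Finset.card_le_univ _).trans ?_
        rw [Fintype.card_fin]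
      exact_mod_cast this
  refine (Finset.sum_le_sum h1).trans ?_
  rw [Finset.sum_add_distrib, ← Finset.sum_mul, Finset.sum_const, nsmul_eq_mul, ← pow_two]
  refine add_le_add le_rfl ?_
  have : (Finset.univ.erase m).card ≤ N := by
    refine (Finset.card_le_univ _).trans ?_
    rw [Fintype.card_fin]
  have h3 : ((Finset.univ.erase m).card : ℝ) ≤ N := by exact_mod_cast this
  rw [pow_two]
  exact mul_le_mul_of_nonneg_right h3 (Nat.cast_nonneg N)

/-- two neighbours, `s ≤ r` -/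
lemma sum_hk_hk_le {s r : ℝ} (hs : 0 < s) (hsr : s ≤ r) (m : Fin N) (f : HS (Fin N)) :
    ∑ j ∈ Finset.univ.erase m, ∑ l ∈ (Finset.univ.erase m).erase j,
      (qf (fun x => hk s (x m - x j) * hk s (x m - x l)) f + ‖f‖ ^ 2)
      ≤ (Real.sqrt (r / s) ^ 3) ^ 2 * cw r m f := by
  have hr : 0 < r := lt_of_lt_of_le hs hsr
  have hb : ∀ j l : Fin N, BM (fun x : Fin N → T3 => hk s (x m - x j) * hk s (x m - x l) + 1) :=
    fun j l => ((Sums_hk_bm hs m j).mul (Sums_hk_bm hs m l)).add (BM.const 1)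
  have e1 : ∀ j l : Fin N, qf (fun x => hk s (x m - x j) * hk s (x m - x l)) f + ‖f‖ ^ 2
      = qf (fun x => hk s (x m - x j) * hk s (x m - x l) + 1) f := by
    intro j l
    rw [qf_add_fun ((Sums_hk_bm hs m j).mul (Sums_hk_bm hs m l)) (BM.const 1), qf_const, one_mul]
  simp_rw [e1]
  have e2 : ∀ j : Fin N, ∑ l ∈ (Finset.univ.erase m).erase j,
      qf (fun x => hk s (x m - x j) * hk s (x m - x l) + 1) f
      = qf (fun x => ∑ l ∈ (Finset.univ.erase m).erase j,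
          (hk s (x m - x j) * hk s (x m - x l) + 1)) f :=
    fun j => (qf_sum _ (fun l _ => hb j l) f).symm
  simp_rw [e2]
  have hb2 : ∀ j : Fin N, BM (fun x : Fin N → T3 => ∑ l ∈ (Finset.univ.erase m).erase j,
      (hk s (x m - x j) * hk s (x m - x l) + 1)) := fun j => BM.finset_sum _ fun l _ => hb j l
  rw [← qf_sum (Finset.univ.erase m) (fun j _ => hb2 j)]
  unfold cw
  rw [← qf_smul]
  refine qf_mono (BM.finset_sum _ fun j _ => hb2 j) ((Sums_bm hr m).const_mul _)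
    (Filter.Eventually.of_forall fun x => ?_) f
  have p1 := Sums_pt (a := fun j => hk s (x m - x j)) (fun j => hk_nonneg _ _) m
  have p2 : ∑ j ∈ Finset.univ.erase m, hk s (x m - x j) ≤ Real.sqrt (r / s) ^ 3 * crowd r m x :=
    Sums_crowd_le hs hsr m x
  have p3 : 0 ≤ ∑ j ∈ Finset.univ.erase m, hk s (x m - x j) :=
    Finset.sum_nonneg fun j _ => hk_nonneg _ _
  have p4 := pow_le_pow_left₀ p3 p2 2
  have p5 : 1 ≤ Real.sqrt (r / s) := by
    rw [Real.one_le_sqrt, le_div_iff₀ hs, one_mul]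
    exact hsr
  have p6 : 1 ≤ (Real.sqrt (r / s) ^ 3) ^ 2 := one_le_pow₀ (one_le_pow₀ p5)
  have p7 := crowd_nonneg r m x
  have p8 : (0 : ℝ) ≤ N := Nat.cast_nonneg N
  have p9 : (N : ℝ) ^ 2 ≤ (Real.sqrt (r / s) ^ 3) ^ 2 * (N : ℝ) ^ 2 :=
    le_mul_of_one_le_left (sq_nonneg _) p6
  have p10 : 0 ≤ (Real.sqrt (r / s) ^ 3) ^ 2 * (2 * (crowd r m x * N)) :=
    mul_nonneg (sq_nonneg _) (mul_nonneg zero_le_two (mul_nonneg p7 p8))
  calc ∑ j ∈ Finset.univ.erase m, ∑ l ∈ (Finset.univ.erase m).erase j,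
        (hk s (x m - x j) * hk s (x m - x l) + 1)
      ≤ (∑ j ∈ Finset.univ.erase m, hk s (x m - x j)) ^ 2 + (N : ℝ) ^ 2 := p1
    _ ≤ (Real.sqrt (r / s) ^ 3 * crowd r m x) ^ 2
        + (Real.sqrt (r / s) ^ 3) ^ 2 * (N : ℝ) ^ 2 := add_le_add p4 p9
    _ ≤ (Real.sqrt (r / s) ^ 3 * crowd r m x) ^ 2
        + (Real.sqrt (r / s) ^ 3) ^ 2 * (N : ℝ) ^ 2
        + (Real.sqrt (r / s) ^ 3) ^ 2 * (2 * (crowd r m x * N)) := le_add_of_nonneg_right p10
    _ = (Real.sqrt (r / s) ^ 3) ^ 2 * (crowd r m x + N) ^ 2 := by ring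

lemma Sums_erase (j : Fin N) (g : Fin N → ℝ) :
    ∑ l ∈ Finset.univ.erase j, g l = ∑ l, if l ≠ j then g l else 0 := by
  rw [← Finset.sum_filter, Finset.filter_ne']

lemma Sums_erase2 (j l : Fin N) (g : Fin N → ℝ) :
    ∑ m ∈ (Finset.univ.erase j).erase l, g m = ∑ m, if m ≠ j ∧ m ≠ l then g m else 0 := by
  rw [← Finset.sum_filter]
  refine Finset.sum_congr ?_ fun _ _ => rfl
  ext m
  simp only [Finset.mem_erase, Finset.mem_univ, and_true, Finset.mem_filter, true_and]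
  tauto

lemma Sums_triple (F : Fin N → Fin N → Fin N → ℝ) :
    ∑ j, ∑ l ∈ Finset.univ.erase j, ∑ m ∈ (Finset.univ.erase j).erase l, F j l m
      = ∑ j, ∑ l, ∑ m, if l ≠ j ∧ m ≠ j ∧ m ≠ l then F j l m else 0 := by
  refine Finset.sum_congr rfl fun j _ => ?_
  rw [Sums_erase]
  refine Finset.sum_congr rfl fun l _ => ?_
  rw [Sums_erase2]
  by_cases h : l ≠ j
  · rw [if_pos h]
    refine Finset.sum_congr rfl fun m _ => ?_
    by_cases h2 : m ≠ j ∧ m ≠ l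
    · rw [if_pos h2, if_pos ⟨h, h2⟩]
    · rw [if_neg h2, if_neg (fun h3 => h2 h3.2)]
  · rw [if_neg h]
    symm
    refine Finset.sum_eq_zero fun m _ => ?_
    rw [if_neg (fun h3 => h h3.1)]

/-- Reordering a triple sum over distinct indices so that the third one comes first. -/
lemma sum_triple (F : Fin N → Fin N → Fin N → ℝ) :
    ∑ j, ∑ l ∈ Finset.univ.erase j, ∑ m ∈ (Finset.univ.erase j).erase l, F j l m
      = ∑ m, ∑ j ∈ Finset.univ.erase m, ∑ l ∈ (Finset.univ.erase m).erase j, F j l m := by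
  rw [Sums_triple, Sums_triple (fun m j l => F j l m)]
  have e1 : ∀ j : Fin N, ∑ l, ∑ m, (if l ≠ j ∧ m ≠ j ∧ m ≠ l then F j l m else 0)
      = ∑ m, ∑ l, (if l ≠ j ∧ m ≠ j ∧ m ≠ l then F j l m else 0) := fun j => Finset.sum_comm
  simp_rw [e1]
  rw [Finset.sum_comm]
  refine Finset.sum_congr rfl fun m _ => Finset.sum_congr rfl fun j _ =>
    Finset.sum_congr rfl fun l _ => ?_
  have e2 : (l ≠ j ∧ m ≠ j ∧ m ≠ l) ↔ (j ≠ m ∧ l ≠ m ∧ l ≠ j) := by
    constructor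
    · rintro ⟨h1, h2, h3⟩
      exact ⟨h2.symm, h3.symm, h1⟩
    · rintro ⟨h1, h2, h3⟩
      exact ⟨h3, h1.symm, h2.symm⟩
  by_cases h : l ≠ j ∧ m ≠ j ∧ m ≠ l
  · rw [if_pos h, if_pos (e2.1 h)]
  · rw [if_neg h, if_neg (fun h3 => h (e2.2 h3))]

/-- Exchange of the last two indices. -/
lemma sum_triple_swap (F : Fin N → Fin N → Fin N → ℝ) :
    ∑ j, ∑ l ∈ Finset.univ.erase j, ∑ m ∈ (Finset.univ.erase j).erase l, F j l m
      = ∑ j, ∑ l ∈ Finset.univ.erase j, ∑ m ∈ (Finset.univ.erase j).erase l, F j m l := by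
  rw [Sums_triple, Sums_triple (fun j l m => F j m l)]
  refine Finset.sum_congr rfl fun j _ => ?_
  rw [Finset.sum_comm]
  refine Finset.sum_congr rfl fun m _ => Finset.sum_congr rfl fun l _ => ?_
  have e2 : (l ≠ j ∧ m ≠ j ∧ m ≠ l) ↔ (m ≠ j ∧ l ≠ j ∧ l ≠ m) := by
    constructor
    · rintro ⟨h1, h2, h3⟩
      exact ⟨h2, h1, h3.symm⟩
    · rintro ⟨h1, h2, h3⟩
      exact ⟨h2, h1, h3.symm⟩
  by_cases h : l ≠ j ∧ m ≠ j ∧ m ≠ l
  · rw [if_pos h, if_pos (e2.1 h)]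
  · rw [if_neg h, if_neg (fun h3 => h (e2.2 h3))]

/-- Square of a sum of vectors: diagonal and off-diagonal part. -/
lemma inner_sum_sum {𝓗 : Type*} [NormedAddCommGroup 𝓗] [InnerProductSpace ℂ 𝓗] (j : Fin N)
    (u v : Fin N → 𝓗) :
    (inner ℂ (∑ l ∈ Finset.univ.erase j, u l) (∑ m ∈ Finset.univ.erase j, v m)).re
      = (∑ l ∈ Finset.univ.erase j, (inner ℂ (u l) (v l)).re)
        + ∑ l ∈ Finset.univ.erase j, ∑ m ∈ (Finset.univ.erase j).erase l,
            (inner ℂ (u l) (v m)).re := by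
  rw [sum_inner, Complex.re_sum, ← Finset.sum_add_distrib]
  refine Finset.sum_congr rfl fun l hl => ?_
  rw [inner_sum, Complex.re_sum]
  exact (Finset.add_sum_erase _ (fun m => (inner ℂ (u l) (v m)).re) hl).symm

end Pool.Agent.Lib.MP_4952d6_mp.LB

end

/-! ### LB.SmoA -/

section

/-!
# LB.SmoA: replacing the charge `h` by a heat kernel of the same mass (L6.8)

Fix a pair `j ≠ l`, `Φ = Phi t j l ψ = P_l Ψ`, `Ψ = P_j ψ`, `Ψ' = perp l Ψ = P_j (perp l ψ)`, `0 < s ≤ t`.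

(1) `qf h_{jl} Φ - H qf (hk s)_{jl} Φ
      = ∫∫ h(x_j-x_l) hk s (x_j-y) (|Φ(x)|² - |Φ(update x l y)|²) dy dx`
(`∫ hk s (x_j-y) dy = 1`; in the second part `integral_swj` exchanges `x_l` and `y`, and `∫ h(x_j - y) dy = H`).

(2) `| |a|² - |b|² | ≤ |a-b| (|a|+|b|)`; by `S1_ker` (`P_l` is the convolution with `hk (t/2)`), for a.e. `(x,y)`,
`Φ(x) - Φ(update x l y) = ∫ (hk(t/2)(x_l-z) - hk(t/2)(y-z)) Ψ'(update x l z) dz` (constants in `x_l` drop out),
and by `hk_diff` with `s = t/2` its modulus is at most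
`C rr(x_l-y)/√t · M(x,y)`, `M(x,y) = ∫ (hk(2t)(x_l-z) + hk(2t)(y-z)) |Ψ'(update x l z)| dz`.

(3) `M (|Φ(x)|+|Φ(upd)|) ≤ λ M² + (1/(2λ)) (|Φ(x)|²+|Φ(upd)|²)` (up to constants), `M² ≤ 2 ∫ (hk+hk) |Ψ'(update x l z)|² dz`
(Cauchy-Schwarz, total mass 2), and where `h ≠ 0`: `rr(x_l-y) ≤ R + rr(x_j-y)`.

(4) weights. On `|Ψ'|²` (after integrating `x_l`, `y`; the variable `z` becomes `x_l`):
`∫∫ h(x_j-u) hk s (x_j-y)(R + rr(x_j-y)) (hk(2t)(u-x_l) + hk(2t)(y-x_l)) du dy ≤ C H (R+√s) hk(4t)(x_j-x_l)`: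
`cn_hk_le`, `hk_moment_one`, `rr_mul_hk`, `hk_conv`, `hk_le_hk`. On `|Φ|²`: `h(x_j-x_l)(R + 3√s)` from `|Φ(x)|²`, and from
`|Φ(upd)|²` after the exchange: `H hk s (x_j-x_l) (R + rr(x_j-x_l)) ≤ C H (R+√s) (hk s + hk (2s))(x_j-x_l)`.

(5) `qf h_{jl} Φ ≤ C H qf (hk(2t)) ψ` (`q_h_Phi`), `qf (hk s)_{jl} Φ ≤ qf (hk (t+s)) ψ ≤ C qf (hk (2t)) ψ`, same for `2s`
(`jensen_PP1`, `wt_pair`, `cn` of `hk` with `hk`), `qf (hk (4t))_{jl} (P_j (perp l ψ)) ≤ qf (hk (4t+t/2)) (perp l ψ)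
≤ C qf (hk (8t)) (perp l ψ)`.
-/

set_option autoImplicit false
set_option linter.unusedSectionVars false
set_option linter.unusedVariables false
open MeasureTheory Function Filter Topology Set ComplexConjugate

namespace Pool.Agent.Lib.MP_4952d6_mp.LB

lemma SmoA_fc3_one (p : Fin 3 → ℤ) :
    fc3 (fun _ : T3 => (((1 : ℝ) : ℝ) : ℂ)) p = ((pz p : ℝ) : ℂ) := by
  unfold fc3 pz
  by_cases hp : p = 0
  · subst hp
    rw [if_pos rfl]
    simp only [ch_zero, map_one, Complex.ofReal_one, mul_one, integral_const, probReal_univ,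
      one_smul]
  · rw [if_neg hp]
    obtain ⟨s, hs⟩ := exists_ch_eq_neg_one hp
    have h1 := int_sub_right (fun x => conj (ch p x) * (((1 : ℝ) : ℝ) : ℂ)) s
    have h2 : (fun y => conj (ch p (y - s)) * (((1 : ℝ) : ℝ) : ℂ)) =
        fun y => -(conj (ch p y) * (((1 : ℝ) : ℝ) : ℂ)) := by
      funext y
      rw [sub_eq_add_neg, ch_add_arg, ch_neg_arg, hs]
      simp
    simp only [h2] at h1
    rw [integral_neg] at h1
    have h3 := self_eq_neg.mp h1.symm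
    rw [h3]
    simp

lemma SmoA_int_fst {N : ℕ} {K : (Fin N → T3) × T3 → ℝ} (hK : BM K) (f : HS (Fin N)) :
    Integrable (fun q : (Fin N → T3) × T3 => K q * ‖f q.1‖ ^ 2) ((piN (Fin N)).prod lam3) := by
  have h1 : Integrable (fun q : (Fin N → T3) × T3 => ‖f q.1‖ ^ 2) ((piN (Fin N)).prod lam3) :=
    (integrable_norm_sq f).comp_fst lam3
  obtain ⟨C, hC⟩ := hK.2
  exact h1.bdd_mul hK.1.aestronglyMeasurable (Eventually.of_forall hC)

/-- Step (1). -/
lemma smo_one {N : ℕ} {s H R : ℝ} (hs : 0 < s) {h : T3 → ℝ} (hh : SR H R h) {j l : Fin N}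
    (hjl : j ≠ l) (f : HS (Fin N)) :
    qf (fun x => h (x j - x l)) f - H * qf (fun x => hk s (x j - x l)) f
      = ∫ q, h (q.1 j - q.1 l) * hk s (q.1 j - q.2)
          * (‖f q.1‖ ^ 2 - ‖f (update q.1 l q.2)‖ ^ 2) ∂((piN (Fin N)).prod lam3) := by
  have hb := hh.bm
  have hkb := hk_bm hs
  have mj : Measurable (fun q : (Fin N → T3) × T3 => q.1 j) :=
    (measurable_pi_apply j).comp measurable_fst
  have ml : Measurable (fun q : (Fin N → T3) × T3 => q.1 l) :=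
    (measurable_pi_apply l).comp measurable_fst
  have mjl : Measurable (fun q : (Fin N → T3) × T3 => q.1 j - q.1 l) := measurable_sub' mj ml
  have mjy : Measurable (fun q : (Fin N → T3) × T3 => q.1 j - q.2) := measurable_sub' mj measurable_snd
  have bK : BM (fun q : (Fin N → T3) × T3 => h (q.1 j - q.1 l) * hk s (q.1 j - q.2)) :=
    (hb.comp mjl).mul (hkb.comp mjy)
  have bK' : BM (fun q : (Fin N → T3) × T3 => h (q.1 j - q.2) * hk s (q.1 j - q.1 l)) :=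
    (hb.comp mjy).mul (hkb.comp mjl)
  have i1 := SmoA_int_fst bK f
  have i2 := SmoA_int_fst bK' f
  have e2 : (fun q : (Fin N → T3) × T3 =>
      (h ((swj l q).1 j - (swj l q).2) * hk s ((swj l q).1 j - (swj l q).1 l)) * ‖f (swj l q).1‖ ^ 2)
      = fun q => h (q.1 j - q.1 l) * hk s (q.1 j - q.2) * ‖f (update q.1 l q.2)‖ ^ 2 := by
    funext q
    simp only [swj]
    rw [update_of_ne hjl, update_self]
  have i3 : Integrable (fun q : (Fin N → T3) × T3 =>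
      h (q.1 j - q.1 l) * hk s (q.1 j - q.2) * ‖f (update q.1 l q.2)‖ ^ 2)
      ((piN (Fin N)).prod lam3) := by
    rw [← e2]
    exact (mp_swj (ι := Fin N) l).integrable_comp_of_integrable i2
  have v2 : ∫ q, h (q.1 j - q.1 l) * hk s (q.1 j - q.2) * ‖f (update q.1 l q.2)‖ ^ 2
      ∂((piN (Fin N)).prod lam3) = H * qf (fun x => hk s (x j - x l)) f := by
    rw [← e2, integral_swj (ι := Fin N) l i2.aestronglyMeasurable, integral_prod _ i2]
    unfold qf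
    rw [← integral_const_mul]
    refine integral_congr_ae (Eventually.of_forall fun x => ?_)
    simp only
    have : (fun y => h (x j - y) * hk s (x j - x l) * ‖f x‖ ^ 2)
        = fun y => h (x j - y) * (hk s (x j - x l) * ‖f x‖ ^ 2) := by
      funext y
      ring
    rw [this, integral_mul_const, int_sub_left, hh.int]
  have v1 : ∫ q, h (q.1 j - q.1 l) * hk s (q.1 j - q.2) * ‖f q.1‖ ^ 2
      ∂((piN (Fin N)).prod lam3) = qf (fun x => h (x j - x l)) f := by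
    rw [integral_prod _ i1]
    unfold qf
    refine integral_congr_ae (Eventually.of_forall fun x => ?_)
    simp only
    have : (fun y => h (x j - x l) * hk s (x j - y) * ‖f x‖ ^ 2)
        = fun y => hk s (x j - y) * (h (x j - x l) * ‖f x‖ ^ 2) := by
      funext y
      ring
    rw [this, integral_mul_const, int_sub_left, hk_integral hs, one_mul]
  rw [← v1, ← v2, ← integral_sub i1 i3]
  refine integral_congr_ae (Eventually.of_forall fun q => ?_)
  simp only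
  ring

/-- Step (2), pointwise bound of the difference. -/
lemma smo_two : ∃ C : ℝ, 0 ≤ C ∧ ∀ (N : ℕ) (t : ℝ) (l : Fin N) (Ψ : HS (Fin N)), 0 < t →
    ∀ᵐ q ∂((piN (Fin N)).prod lam3),
      ‖(PP1 t l Ψ : (Fin N → T3) → ℂ) q.1 - (PP1 t l Ψ : (Fin N → T3) → ℂ) (update q.1 l q.2)‖
      ≤ C * (rr (q.1 l - q.2) / Real.sqrt t)
        * ∫ z, (hk (2 * t) (q.1 l - z) + hk (2 * t) (q.2 - z))
            * ‖(perp l Ψ : (Fin N → T3) → ℂ) (update q.1 l z)‖ ∂lam3 := by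
  obtain ⟨C, hC0, hC⟩ := hk_diff
  refine ⟨C * Real.sqrt 2, by positivity, fun N t l Ψ ht => ?_⟩
  have ht2 : 0 < t / 2 := by linarith
  have ht2' : 0 < 2 * t := by linarith
  set Ψ' : HS (Fin N) := perp l Ψ with hΨ'
  -- decomposition
  have hdec : PP1 t l Ψ = S1 (et t) l Ψ' + S1 pz l Ψ := by
    have h1 : PP1 t l Ψ = S1 (et t) l Ψ' + S1 (et t) l (S1 pz l Ψ) := by
      rw [← map_add, hΨ']
      unfold perp Pz PP1
      rw [sub_add_cancel]
    have h2 : S1 (et t) l (S1 pz l Ψ) = S1 pz l Ψ := by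
      rw [S1_S1 (bdm_et ht.le) bdm_pz]
      congr 2
      funext p
      unfold pz
      by_cases hp : p = 0
      · subst hp
        rw [if_pos rfl, et_zero, mul_one]
      · rw [if_neg hp, mul_zero]
    rw [h1, h2]
  have hae1 := S1_ker (hk_bm ht2) (bdm_et ht.le) (fun p => fc3_hk ht2 p) l Ψ'
  have hae2 := S1_ker (w := fun _ => (1 : ℝ)) (BM.const 1) bdm_pz (fun p => SmoA_fc3_one p) l Ψ
  have hae : (PP1 t l Ψ : (Fin N → T3) → ℂ) =ᵐ[piN (Fin N)]
      fun x => cvc (hk (t / 2)) l (Ψ' : (Fin N → T3) → ℂ) x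
        + cvc (fun _ => (1 : ℝ)) l (Ψ : (Fin N → T3) → ℂ) x := by
    rw [hdec]
    filter_upwards [Lp.coeFn_add (S1 (et t) l Ψ') (S1 pz l Ψ), hae1, hae2] with x h1 h2 h3
    rw [h1, Pi.add_apply, h2, h3]
  have hfst : ∀ᵐ q : (Fin N → T3) × T3 ∂((piN (Fin N)).prod lam3),
      (PP1 t l Ψ : (Fin N → T3) → ℂ) q.1 = cvc (hk (t / 2)) l (Ψ' : (Fin N → T3) → ℂ) q.1
        + cvc (fun _ => (1 : ℝ)) l (Ψ : (Fin N → T3) → ℂ) q.1 :=
    (measurePreserving_fst (μ := piN (Fin N)) (ν := lam3)).quasiMeasurePreserving.ae hae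
  have hupd : ∀ᵐ q : (Fin N → T3) × T3 ∂((piN (Fin N)).prod lam3),
      (PP1 t l Ψ : (Fin N → T3) → ℂ) (update q.1 l q.2)
        = cvc (hk (t / 2)) l (Ψ' : (Fin N → T3) → ℂ) (update q.1 l q.2)
        + cvc (fun _ => (1 : ℝ)) l (Ψ : (Fin N → T3) → ℂ) (update q.1 l q.2) :=
    (mp_upd (ι := Fin N) l).quasiMeasurePreserving.ae hae
  have hsec0 : ∀ᵐ x ∂(piN (Fin N)),
      Integrable (fun z => (Ψ' : (Fin N → T3) → ℂ) (update x l z)) lam3 := by
    have h1 : Integrable (fun q : (Fin N → T3) × T3 => (Ψ' : (Fin N → T3) → ℂ) (update q.1 l q.2))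
        ((piN (Fin N)).prod lam3) :=
      (mp_upd l).integrable_comp_of_integrable ((Lp.memLp Ψ').integrable one_le_two)
    exact h1.prod_right_ae
  have hsec : ∀ᵐ q : (Fin N → T3) × T3 ∂((piN (Fin N)).prod lam3),
      Integrable (fun z => (Ψ' : (Fin N → T3) → ℂ) (update q.1 l z)) lam3 :=
    (measurePreserving_fst (μ := piN (Fin N)) (ν := lam3)).quasiMeasurePreserving.ae hsec0
  filter_upwards [hfst, hupd, hsec] with q h1 h2 h3
  rw [h1, h2]
  have bk : ∀ (s : ℝ), 0 < s → ∀ u : T3, BM (fun z => hk s (u - z)) := fun s hs u =>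
    (hk_bm hs).comp (measurable_sub' measurable_const measurable_id)
  have hint : ∀ (s : ℝ), 0 < s → ∀ u : T3,
      Integrable (fun z => ((hk s (u - z) : ℝ) : ℂ) * (Ψ' : (Fin N → T3) → ℂ) (update q.1 l z)) lam3 := by
    intro s hs u
    obtain ⟨D, hD⟩ := (bk s hs u).2
    refine h3.bdd_mul (c := D) (Complex.measurable_ofReal.comp (bk s hs u).1).aestronglyMeasurable
      (Eventually.of_forall fun z => ?_)
    rw [Complex.norm_real]
    exact hD z
  have e1 : cvc (fun _ => (1 : ℝ)) l (Ψ : (Fin N → T3) → ℂ) (update q.1 l q.2)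
      = cvc (fun _ => (1 : ℝ)) l (Ψ : (Fin N → T3) → ℂ) q.1 := by
    unfold cvc
    simp only [update_idem]
  have e2 : cvc (hk (t / 2)) l (Ψ' : (Fin N → T3) → ℂ) (update q.1 l q.2)
      = ∫ z, ((hk (t / 2) (q.2 - z) : ℝ) : ℂ) * (Ψ' : (Fin N → T3) → ℂ) (update q.1 l z) ∂lam3 := by
    unfold cvc
    simp only [update_idem, update_self]
  rw [e1, add_sub_add_right_eq_sub, e2]
  unfold cvc
  rw [← integral_sub (hint _ ht2 _) (hint _ ht2 _)]
  refine (norm_integral_le_integral_norm _).trans ?_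
  rw [← integral_const_mul]
  have hnorm : Integrable (fun z => ‖(Ψ' : (Fin N → T3) → ℂ) (update q.1 l z)‖) lam3 := h3.norm
  have hdom : Integrable (fun z => C * Real.sqrt 2 * (rr (q.1 l - q.2) / Real.sqrt t)
      * ((hk (2 * t) (q.1 l - z) + hk (2 * t) (q.2 - z))
        * ‖(Ψ' : (Fin N → T3) → ℂ) (update q.1 l z)‖)) lam3 := by
    refine Integrable.const_mul ?_ _
    have hb := (bk _ ht2' (q.1 l)).add (bk _ ht2' q.2)
    obtain ⟨D, hD⟩ := hb.2
    exact hnorm.bdd_mul hb.1.aestronglyMeasurable (Eventually.of_forall hD)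
  refine integral_mono_of_nonneg (Eventually.of_forall fun z => norm_nonneg _) hdom
    (Eventually.of_forall fun z => ?_)
  simp only
  rw [← sub_mul, norm_mul, ← Complex.ofReal_sub, Complex.norm_real, Real.norm_eq_abs, ← mul_assoc]
  refine mul_le_mul_of_nonneg_right ?_ (norm_nonneg _)
  have h4 := hC (t / 2) ht2 (q.1 l - z) (q.2 - z)
  rw [show q.1 l - z - (q.2 - z) = q.1 l - q.2 by abel, show 4 * (t / 2) = 2 * t by ring] at h4
  refine h4.trans (le_of_eq ?_)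
  have h5 : Real.sqrt t = Real.sqrt 2 * Real.sqrt (t / 2) := by
    rw [← Real.sqrt_mul (by norm_num : (0 : ℝ) ≤ 2)]
    congr 1
    ring
  have h6 : Real.sqrt 2 ≠ 0 := by positivity
  have h7 : Real.sqrt (t / 2) ≠ 0 := (Real.sqrt_pos.2 ht2).ne'
  rw [h5]
  field_simp

end Pool.Agent.Lib.MP_4952d6_mp.LB

end

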