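import Pool.Agent.Lib.MP_4952d6_mp.Pk.G20
import Pool.Agent.Lib.MP_4952d6_mp.Pk.G23
import Pool.Agent.Lib.MP_4952d6_mp.Pk.G24
import Pool.Agent.Lib.MP_4952d6_mp.Pk.G32
import Pool.Agent.Lib.MP_4952d6_mp.Pk.G39
import Pool.Agent.Lib.MP_4952d6_mp.Pk.G42

/-! Merged modules (to save import time): LB.ElC, U.DPB. -/

/-! ### LB.ElC -/

section

/-!
# LB.ElC: pointwise inequalities for the quadratic forms of one pair

Weights `fun x => g (x j - x l)`: an a.e. inequality on `T3` pulls back to an a.e. inequality on the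
configurations by `mp_diff hjl` (`(mp_diff hjl).quasiMeasurePreserving.ae`), then `qf_mono`.

* `elC_two`: `qf (2h-k) ≥ qf (h w) + (1-δ₁) qf h`.
* `elC_exp`: `Φ = Φ⁰ + Φ¹` and `qf_add_eq`; `qf (h w) Φ⁰ = (∫ h w) ‖Φ⁰‖²` because `|Φ⁰|²` does not depend on
  `x_j` (or: `HP (h w) j l`, `cf_HP_zero` at momenta with `k_j = k_l = 0`, as for `q_h_Phi0`; any proof).
* `elC_KK`: `qf (h KK) ≤ 2 qf (h w) + ε₂ qf h`.
* `elC_WT`: `⟪HP (WT) Φ⁰, HP h Φ¹⟫ = ⟪Φ⁰, MB (WT · h) Φ¹⟫` (`HP_symm`, `HP_mul`), subtract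
  `2 ⟪Φ⁰, MB (h w) Φ¹⟫`, and `abs_inner_MB_le` with the weight `G = ε₃ h` (`|(WT - 2w) h| ≤ ε₃ h` a.e.).
-/

set_option autoImplicit false
set_option linter.unusedSectionVars false
set_option linter.unusedVariables false
open MeasureTheory Function Filter Topology Set ComplexConjugate

namespace Pool.Agent.Lib.MP_4952d6_mp.LB

variable {N : ℕ} {t H R : ℝ} {h k w : T3 → ℝ} {j l : Fin N}

/-- monotonicity for pair weights -/
lemma qf_pair_mono {g g' : T3 → ℝ} (hg : BM g) (hg' : BM g') (hjl : j ≠ l)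
    (hle : ∀ᵐ z ∂lam3, g z ≤ g' z) (f : HS (Fin N)) :
    qf (fun x => g (x j - x l)) f ≤ qf (fun x => g' (x j - x l)) f := by
  exact qf_mono (bm_diff hg j l) (bm_diff hg' j l)
    ((mp_diff hjl).quasiMeasurePreserving.ae hle) f

/-- the pair weight is independent of `f` when `f` does not depend on `x_j`, `x_l` -/
lemma ElC_Phi0 {g : T3 → ℝ} (hg : BM g) (hjl : j ≠ l) (ψ : HS (Fin N)) :
    qf (fun x => g (x j - x l)) (Phi0 j l ψ) = (∫ z, g z ∂lam3) * ‖Phi0 j l ψ‖ ^ 2 := by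
  have hf : ∀ k : Fin N → Fin 3 → ℤ, ¬ (k j = 0 ∧ k l = 0) → cf (Phi0 j l ψ) k = 0 := by
    intro k hk
    rw [cf_Phi0, if_neg hk]
  have hz : fc3 (fun y => (g y : ℂ)) 0 = ((∫ z, g z ∂lam3 : ℝ) : ℂ) := by
    unfold fc3
    refine Eq.trans ?_ (integral_ofReal (𝕜 := ℂ))
    refine integral_congr_ae (Eventually.of_forall fun y => ?_)
    show conj (ch 0 y) * ((g y : ℝ) : ℂ) = ((g y : ℝ) : ℂ)
    rw [ch_zero, map_one, one_mul]
  rw [qf_eq (bm_diff hg j l)]
  have h1 := hasSum_inner_re (Phi0 j l ψ) (HP g j l (Phi0 j l ψ))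
  have h2 := (hasSum_norm_sq (Phi0 j l ψ)).mul_left (∫ z, g z ∂lam3)
  have e : (fun k => (conj (cf (Phi0 j l ψ) k) * cf (HP g j l (Phi0 j l ψ)) k).re)
      = fun k => (∫ z, g z ∂lam3) * ‖cf (Phi0 j l ψ) k‖ ^ 2 := by
    funext k
    rw [cf_HP_zero hg hjl hf k]
    by_cases hk : k j = 0 ∧ k l = 0
    · have hpr : pr j l k = k := by
        funext i
        unfold pr
        by_cases hil : i = l
        · subst hil
          rw [update_self, hk.2]
        · rw [update_of_ne hil]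
          by_cases hij : i = j
          · subst hij
            rw [update_self, hk.1]
          · rw [update_of_ne hij]
      have h0 : k j + k l = 0 := by rw [hk.1, hk.2, add_zero]
      rw [if_pos h0, hk.1, hz, hpr]
      have h3 : conj (cf (Phi0 j l ψ) k) * (((∫ z, g z ∂lam3 : ℝ) : ℂ) * cf (Phi0 j l ψ) k)
          = (((∫ z, g z ∂lam3) * ‖cf (Phi0 j l ψ) k‖ ^ 2 : ℝ) : ℂ) := by
        push_cast
        rw [← Complex.conj_mul']
        ring
      rw [h3, Complex.ofReal_re]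
    · rw [hf k hk]
      simp
  rw [e] at h1
  exact h1.unique h2

theorem elC_two (hh : SR H R h) (hk : BM k) (hw : BM w) {δ₁ : ℝ}
    (htwo : ∀ z, h z * w z + (1 - δ₁) * h z ≤ 2 * h z - k z) (hjl : j ≠ l) (f : HS (Fin N)) :
    qf (fun x => h (x j - x l) * w (x j - x l)) f + (1 - δ₁) * qf (fun x => h (x j - x l)) f
      ≤ 2 * qf (fun x => h (x j - x l)) f - qf (fun x => k (x j - x l)) f := by
  have b1 : BM (fun x : Fin N → T3 => h (x j - x l)) := bm_diff hh.bm j l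
  have b2 : BM (fun x : Fin N → T3 => k (x j - x l)) := bm_diff hk j l
  have b3 : BM (fun x : Fin N → T3 => w (x j - x l)) := bm_diff hw j l
  rw [← qf_smul (1 - δ₁), ← qf_smul 2, ← qf_add_fun (b1.mul b3) (b1.const_mul _),
    ← qf_sub_fun (b1.const_mul _) b2]
  exact qf_mono ((b1.mul b3).add (b1.const_mul _)) ((b1.const_mul _).sub b2)
    (Eventually.of_forall fun x => htwo _) f

theorem elC_exp (hh : SR H R h) (hw : BM w) (hjl : j ≠ l) (ψ : HS (Fin N)) :
    qf (fun x => h (x j - x l) * w (x j - x l)) (Phi t j l ψ)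
      = (∫ z, h z * w z ∂lam3) * ‖Phi0 j l ψ‖ ^ 2
        + qf (fun x => h (x j - x l) * w (x j - x l)) (Phi1 t j l ψ)
        + 2 * (inner ℂ (Phi0 j l ψ) (HP (fun z => h z * w z) j l (Phi1 t j l ψ))).re := by
  have b : BM (fun z => h z * w z) := hh.bm.mul hw
  have e : Phi t j l ψ = Phi0 j l ψ + Phi1 t j l ψ := by
    unfold Phi1
    abel
  rw [← ElC_Phi0 b hjl ψ, e]
  exact qf_add_eq (bm_diff b j l) (Phi0 j l ψ) (Phi1 t j l ψ)

theorem elC_KK (ht : 0 < t) (hh : SR H R h) (hw : BM w) {ε₂ : ℝ}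
    (hp : ∀ᵐ z ∂lam3, h z * KK t h z ≤ h z * (2 * w z + ε₂)) (hjl : j ≠ l) (f : HS (Fin N)) :
    qf (fun x => h (x j - x l) * KK t h (x j - x l)) f
      ≤ 2 * qf (fun x => h (x j - x l) * w (x j - x l)) f
        + ε₂ * qf (fun x => h (x j - x l)) f := by
  have b1 : BM (fun x : Fin N → T3 => h (x j - x l)) := bm_diff hh.bm j l
  have b3 : BM (fun x : Fin N → T3 => w (x j - x l)) := bm_diff hw j l
  rw [← qf_smul ε₂, ← qf_smul 2, ← qf_add_fun ((b1.mul b3).const_mul _) (b1.const_mul _)]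
  have h1 := qf_pair_mono (g := fun z => h z * KK t h z) (g' := fun z => 2 * (h z * w z) + ε₂ * h z)
    (hh.bm.mul (KK_bm ht hh.bm)) (((hh.bm.mul hw).const_mul 2).add (hh.bm.const_mul ε₂)) hjl
    (by
      filter_upwards [hp] with z hz
      linarith) f
  exact h1

theorem elC_WT (ht : 0 < t) (hh : SR H R h) (hw : BM w) {ε₃ c : ℝ} (hε : 0 ≤ ε₃) (hc : 0 < c)
    (hp : ∀ᵐ z ∂lam3, h z * |WT t h z - 2 * w z| ≤ h z * ε₃) (hjl : j ≠ l) (ψ : HS (Fin N)) :
    |(inner ℂ (HP (WT t h) j l (Phi0 j l ψ)) (HP h j l (Phi1 t j l ψ))).re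
        - 2 * (inner ℂ (Phi0 j l ψ) (HP (fun z => h z * w z) j l (Phi1 t j l ψ))).re|
      ≤ ε₃ * (c / 2 * (H * ‖Phi0 j l ψ‖ ^ 2)
        + 1 / (2 * c) * qf (fun x => h (x j - x l)) (Phi1 t j l ψ)) := by
  have bW : BM (WT t h) := WT_bm ht hh.bm
  have b1 : BM (fun z => WT t h z * h z) := bW.mul hh.bm
  have b2 : BM (fun z => h z * w z) := hh.bm.mul hw
  have b3 : BM (fun z => WT t h z * h z - h z * w z) := b1.sub b2
  have b4 : BM (fun z => WT t h z * h z - h z * w z - h z * w z) := b3.sub b2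
  have e1 : (inner ℂ (HP (WT t h) j l (Phi0 j l ψ)) (HP h j l (Phi1 t j l ψ))).re
        - 2 * (inner ℂ (Phi0 j l ψ) (HP (fun z => h z * w z) j l (Phi1 t j l ψ))).re
      = (inner ℂ (Phi0 j l ψ)
          (HP (fun z => WT t h z * h z - h z * w z - h z * w z) j l (Phi1 t j l ψ))).re := by
    rw [HP_symm bW, HP_mul bW hh.bm, HP_sub b3 b2, HP_sub b1 b2, inner_sub_right, inner_sub_right,
      Complex.sub_re, Complex.sub_re]
    ring
  rw [e1]
  have bh : BM (fun x : Fin N → T3 => h (x j - x l)) := bm_diff hh.bm j l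
  have h1 := abs_inner_MB_le (G := fun x : Fin N → T3 => ε₃ * h (x j - x l))
    (G' := fun x => WT t h (x j - x l) * h (x j - x l) - h (x j - x l) * w (x j - x l)
      - h (x j - x l) * w (x j - x l)) (bh.const_mul ε₃) (bm_diff b4 j l)
    ((mp_diff hjl).quasiMeasurePreserving.ae
      (p := fun z => |WT t h z * h z - h z * w z - h z * w z| ≤ ε₃ * h z) (by
        filter_upwards [hp] with z hz
        have h2 : WT t h z * h z - h z * w z - h z * w z = h z * (WT t h z - 2 * w z) := by ring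
        rw [h2, abs_mul, abs_of_nonneg (hh.nonneg z), mul_comm ε₃]
        exact hz)) hc (Phi0 j l ψ) (Phi1 t j l ψ)
  rw [qf_smul, qf_smul, q_h_Phi0 hh hjl ψ] at h1
  refine h1.trans (le_of_eq ?_)
  ring

/-- `w ≤ 2` -/
lemma elC_w (hh : SR H R h) (hw : BM w) (hw2 : ∀ z, w z ≤ 2) (hjl : j ≠ l) (f : HS (Fin N)) :
    qf (fun x => h (x j - x l) * w (x j - x l)) f ≤ 2 * qf (fun x => h (x j - x l)) f := by
  have b1 : BM (fun x : Fin N → T3 => h (x j - x l)) := bm_diff hh.bm j l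
  have b3 : BM (fun x : Fin N → T3 => w (x j - x l)) := bm_diff hw j l
  rw [← qf_smul 2]
  refine qf_mono (b1.mul b3) (b1.const_mul 2) (Eventually.of_forall fun x => ?_) f
  have h1 := hw2 (x j - x l)
  have h2 := hh.nonneg (x j - x l)
  nlinarith

end Pool.Agent.Lib.MP_4952d6_mp.LB

end

/-! ### U.DPB -/

section

/-!
# DPB: the kernel `ψ_b`

`ψ = mix0 omp tq`, `ph = mixh omp tq`, `omp_mixh`: `ph p = μ² exp(-t k²)/(k²+μ²) ≤ 1`, `ph 0 = 1`. `μ = q^198/a = 1/(q² l)`.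
* `ph_uh`: `uh_ge`: `ph/û ≤ μ² (k² + K²/l²)/((k²+μ²) 2π a_u) ≤ μ² (1 + K²/(l²μ²))/(2π a) ≤ C μ²/a`, `K²/(l²μ²) = K² q⁴ ≤ 1`,
  `μ²/a = q^396/a³ = N/q⁴` because `N a³ = q^400`.
* `m1`: `int_mix0_rr_le`: `3·3μ²/(μ² μ) = 9/μ = 9 a/q^198 = 9 a q²/q^200`.
* `mc`: `mix0 ≤ 4·3μ² (1/μ² + 1/√t) = 12 (1 + μ²/√t)`, `μ²/√t = q^396/a² · q^79/a = q^475/a³`, `∫(1-F_c) ≤ 4π a b² = 4π a³/q^160`:
  `≤ C (a³/q^160 + q^315) ≤ C q^300`.
* `mu`: `∫ ψ · 2u_l = 2 Σ ph û` (`int_mix0_mul`) `≤ 8 · 3μ² · 4π a_u (l²/(κ²μ²) + 4/μ) ≤ C a (l² + μ) ≤ C q^198`.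
-/

set_option autoImplicit false
set_option linter.unusedSectionVars false
set_option linter.unusedVariables false
open MeasureTheory Function Filter Topology Set
open scoped ENNReal

namespace Pool.Agent.Lib.MP_4952d6_mp

theorem DPB_pow_le {q : ℝ} (hq : 0 < q) (hq1 : q ≤ 1 / 100) {m n : ℕ} (h : m ≤ n) :
    q ^ n ≤ q ^ m :=
  pow_le_pow_of_le_one hq.le (by linarith) h

theorem DPB_auq_ge {q a : ℝ} (hq : 0 < q) (hq1 : q ≤ 1 / 100) (ha : 0 < a) : a ≤ auq q a := by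
  have h := one_le_alq hq hq1
  unfold auq
  nlinarith only [mul_le_mul_of_nonneg_left h ha.le]

theorem DPB_auq_le {q a : ℝ} (hq : 0 < q) (hq1 : q ≤ 1 / 100) (ha : 0 < a) :
    auq q a ≤ 2 * a := by
  have h := alq_le_two hq hq1
  unfold auq
  nlinarith only [mul_le_mul_of_nonneg_left h ha.le]

theorem DPB_muq_pos {q a : ℝ} (hq : 0 < q) (ha : 0 < a) : 0 < muq q a := by
  unfold muq; positivity

theorem DPB_lq_pos {q a : ℝ} (hq : 0 < q) (ha : 0 < a) : 0 < lq q a := by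
  unfold lq; positivity

theorem DPB_lm {q a : ℝ} (hq : 0 < q) (ha : 0 < a) :
    lq q a ^ 2 * muq q a ^ 2 = 1 / q ^ 4 := by
  unfold lq muq
  field_simp

theorem DPB_a3 {q a : ℝ} (hq : 0 < q) (ha : 0 < a) (haq : a ≤ q ^ 1000) : a ^ 3 ≤ q ^ 3000 := by
  calc a ^ 3 ≤ (q ^ 1000) ^ 3 := pow_le_pow_left₀ ha.le haq 3
    _ = q ^ 3000 := by rw [← pow_mul]

theorem DPB_Fc_bm {W f Q : ℝ → ℝ} {R₀ R a θ q : ℝ} (h : Reg W R₀ R a f Q θ q) :
    BM (fun x : T3 => 1 - fs q a f (rr x) ^ 2) := by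
  have hq := h.q_pos
  have ha := h.a_pos
  obtain ⟨L, hL⟩ := sbf_lip (tq_pos hq ha)
  have hs : Continuous (sbf (tq q a)) := by
    refine LipschitzWith.continuous (K := Real.toNNReal L)
      (LipschitzWith.of_dist_le_mul fun r s => ?_)
    rw [Real.dist_eq, Real.dist_eq]
    exact (hL r s).trans (mul_le_mul_of_nonneg_right (Real.le_coe_toNNReal L) (abs_nonneg _))
  have hf := h.sc.f_cont
  have he : Continuous (efs q a) := by
    unfold efs
    exact (Real.continuous_exp.comp (continuous_const.mul (hs.sub continuous_const))).div_const _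
  have hfs : Continuous (fs q a f) := by
    unfold fs
    exact (hf.comp (continuous_id.min continuous_const)).mul
      (he.comp (continuous_id.min continuous_const))
  have hm : Measurable (fun x : T3 => 1 - fs q a f (rr x) ^ 2) :=
    (continuous_const.sub ((hfs.comp rr_continuous).pow 2)).measurable
  refine BM.of_mem_Icc hm (a := 0) (b := 1) fun x => ?_
  have h0 := h.fs_nonneg (rr x)
  have h1 := h.fs_le_one (rr_nonneg x)
  have h2 := mul_nonneg h0 (sub_nonneg.2 h1)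
  have h3 := mul_nonneg h0 h0
  constructor
  · linarith only [h1, h2, h3, pow_two (fs q a f (rr x))]
  · linarith only [h3, pow_two (fs q a f (rr x))]

theorem DPB_Na {q a : ℝ} {N : ℕ} (hq : 0 < q) (ha : 0 < a) (hN : (N : ℝ) * a ^ 3 = q ^ 400) :
    (N : ℝ) / q ^ 4 * a = muq q a ^ 2 := by
  have h3 : (N : ℝ) = q ^ 400 / a ^ 3 := by
    rw [eq_div_iff (pow_ne_zero 3 ha.ne')]; exact hN
  clear hN
  rw [h3]; unfold muq
  field_simp

theorem DPot_PB {κ : ℝ} (hκ : 0 < κ) (hκ1 : κ ≤ 1) : ∃ C : ℝ, 1 ≤ C ∧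
    ∀ (W f Q : ℝ → ℝ) (R₀ R a θ q : ℝ) (N : ℕ), Reg W R₀ R a f Q θ q →
      (N : ℝ) * a ^ 3 = q ^ 400 →
      Dat.PB C q a N (DPot κ q a f Q W) (mix0 (omp q a) (tq q a)) (mixh (omp q a) (tq q a)) := by
  have hκ2 : 0 < 1 / κ ^ 2 := by positivity
  have hpi := Real.pi_pos
  have hpi4 := Real.pi_lt_d2
  have hpi3 := Real.pi_gt_d2
  refine ⟨1000 * (5 + 1 / κ ^ 2), by linarith only [hκ2], ?_⟩
  intro W f Q R₀ R a θ q N h hN
  have hq := h.q_pos
  have hq1 := h.q_le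
  have ha := h.a_pos
  have hC : (5000 : ℝ) ≤ 1000 * (5 + 1 / κ ^ 2) := by linarith only [hκ2]
  have hok := omp_ok hq hq1 ha
  have hμ := DPB_muq_pos hq ha
  have hl := DPB_lq_pos hq ha
  have hlm := DPB_lm hq ha
  have hsμ : Real.sqrt (muq q a ^ 2) = muq q a := Real.sqrt_sq hμ.le
  have hNa := DPB_Na hq ha hN
  clear hN
  refine ⟨mix0_bm hok, mix0_nonneg hok, mixh_nonneg hok, fun p => ?_, ?_, mixh_summable hok,
    mix0_hasSum hok, fun p => ?_, ?_, ?_, ?_⟩
  · -- `ph ≤ 1`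
    rw [omp_mixh hq ha]
    have hk := HKE_ksq_nonneg p
    have hE : Real.exp (-(tq q a * ksq p)) ≤ 1 := by
      rw [Real.exp_le_one_iff]
      have := mul_nonneg (tq_pos hq ha).le hk
      linarith
    rw [div_le_one (by positivity)]
    have hm2 : 0 < muq q a ^ 2 := by positivity
    linarith only [mul_le_mul_of_nonneg_left hE hm2.le, hk]
  · -- `ph 0 = 1`
    rw [omp_mixh hq ha, HKE_ksq_zero]
    simp only [mul_zero, neg_zero, Real.exp_zero, mul_one, zero_add]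
    exact div_self (by positivity)
  · -- `ph ≤ C N / q^4 û`
    have hk := HKE_ksq_nonneg p
    have hge := uh_ge hκ hκ1 hq hq1 ha p
    have hK0 : 0 < K2 κ := by unfold K2; positivity
    have hK : K2 κ ≤ 1 + 16 * Real.pi := by
      unfold K2
      have hk2 : κ ^ 2 ≤ 1 := pow_le_one₀ hκ.le hκ1
      linarith only [hk2]
    have hauq := DPB_auq_ge hq hq1 ha
    rw [omp_mixh hq ha]
    change _ ≤ 1000 * (5 + 1 / κ ^ 2) * (N : ℝ) / q ^ 4 * mixh (omu κ q a) (tq q a) p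
    generalize hE0 : Real.exp (-(tq q a * ksq p)) = E at *
    have hE : 0 < E := hE0 ▸ Real.exp_pos _
    generalize 1000 * (5 + 1 / κ ^ 2) = C at *
    have hC0 : 0 < C := by linarith
    have h1q : 1 ≤ 1 / q ^ 4 := by
      rw [le_div_iff₀ (by positivity), one_mul]
      exact pow_le_one₀ hq.le (by linarith)
    have key : lq q a ^ 2 * ksq p + K2 κ ≤ 2 * Real.pi * C * (lq q a ^ 2 * (ksq p + muq q a ^ 2)) := by
      rw [mul_add, hlm]
      have hx : 0 ≤ lq q a ^ 2 * ksq p := by positivity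
      have hpC : Real.pi * 5000 ≤ Real.pi * C := mul_le_mul_of_nonneg_left hC hpi.le
      have h2 : 1 + 16 * Real.pi ≤ 2 * Real.pi * C := by linarith only [hpC, hpi3]
      have h3 : 2 * Real.pi * C * 1 ≤ 2 * Real.pi * C * (1 / q ^ 4) :=
        mul_le_mul_of_nonneg_left h1q (by positivity)
      have h4 : 1 * (lq q a ^ 2 * ksq p) ≤ 2 * Real.pi * C * (lq q a ^ 2 * ksq p) :=
        mul_le_mul_of_nonneg_right (by linarith only [hpC, hpi3]) hx
      linarith
    have hD : 0 < lq q a ^ 2 * ksq p + K2 κ := by positivity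
    have h5 : muq q a ^ 2 * E / (ksq p + muq q a ^ 2) ≤
        C * (N : ℝ) / q ^ 4 * (2 * Real.pi * a * E * lq q a ^ 2 / (lq q a ^ 2 * ksq p + K2 κ)) := by
      have e1 : C * (N : ℝ) / q ^ 4 * (2 * Real.pi * a * E * lq q a ^ 2 /
          (lq q a ^ 2 * ksq p + K2 κ)) =
          (muq q a ^ 2 * E * (2 * Real.pi * C * lq q a ^ 2)) / (lq q a ^ 2 * ksq p + K2 κ) := by
        rw [← hNa]; ring
      rw [e1, div_le_div_iff₀ (by positivity) hD]
      have h6 := mul_le_mul_of_nonneg_left key (show 0 ≤ muq q a ^ 2 * E by positivity)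
      linarith
    refine h5.trans (mul_le_mul_of_nonneg_left (le_trans ?_ hge) (by positivity))
    rw [div_le_div_iff_of_pos_right hD]
    have h7 : 0 ≤ 2 * Real.pi * E * lq q a ^ 2 := by positivity
    have h8 := mul_le_mul_of_nonneg_left hauq h7
    linarith
  · -- first moment
    refine (int_mix0_rr_le hok).trans ?_
    rw [hsμ]
    have e1 : 3 * (3 * muq q a ^ 2) / (muq q a ^ 2 * muq q a) = 9 * (a * q ^ 2 / q ^ 200) := by
      unfold muq
      field_simp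
      ring
    rw [e1]
    have h1 : 0 ≤ a * q ^ 2 / q ^ 200 := by positivity
    have h2 : (9 : ℝ) * (a * q ^ 2 / q ^ 200) ≤ 1000 * (5 + 1 / κ ^ 2) * (a * q ^ 2 / q ^ 200) :=
      mul_le_mul_of_nonneg_right (by linarith) h1
    refine h2.trans (le_of_eq ?_)
    ring
  · -- core
    change ∫ z, mix0 (omp q a) (tq q a) z * (1 - fs q a f (rr z) ^ 2) ∂lam3 ≤ _
    have hbm := DPB_Fc_bm h
    have hS := mix0_le hok
    have hI := h.Ic_le
    have hI0 : ∀ z : T3, 0 ≤ 1 - fs q a f (rr z) ^ 2 := fun z => by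
      have h0 := h.fs_nonneg (rr z)
      have h1 := h.fs_le_one (rr_nonneg z)
      linarith only [h1, mul_nonneg h0 (sub_nonneg.2 h1), pow_two (fs q a f (rr z))]
    have hst := sqrt_tq hq ha
    rw [hst] at hS
    have h1 : ∫ z, mix0 (omp q a) (tq q a) z * (1 - fs q a f (rr z) ^ 2) ∂lam3 ≤
        ∫ z, 4 * (3 * muq q a ^ 2) * (1 / muq q a ^ 2 + 1 / (a / q ^ 79)) *
          (1 - fs q a f (rr z) ^ 2) ∂lam3 := by
      refine integral_mono (((mix0_bm hok).mul hbm).integrable lam3)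
        ((hbm.const_mul _).integrable lam3) fun z => ?_
      exact mul_le_mul_of_nonneg_right (hS z) (hI0 z)
    refine h1.trans ?_
    rw [integral_const_mul]
    refine (mul_le_mul_of_nonneg_left hI (by positivity)).trans ?_
    have e1 : 4 * (3 * muq q a ^ 2) * (1 / muq q a ^ 2 + 1 / (a / q ^ 79)) *
        (4 * Real.pi * a * bq q a ^ 2) = 48 * Real.pi * (a ^ 3 / q ^ 160 + q ^ 315) := by
      unfold muq bq
      field_simp
      ring
    rw [e1]
    have h2 : a ^ 3 / q ^ 160 ≤ q ^ 300 := by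
      rw [div_le_iff₀ (by positivity), ← pow_add]
      exact (DPB_a3 hq ha h.aq).trans (DPB_pow_le hq hq1 (by norm_num))
    have h3 : q ^ 315 ≤ q ^ 300 := DPB_pow_le hq hq1 (by norm_num)
    have h4 : 0 < q ^ 300 := by positivity
    calc 48 * Real.pi * (a ^ 3 / q ^ 160 + q ^ 315) ≤ 48 * Real.pi * (q ^ 300 + q ^ 300) :=
          mul_le_mul_of_nonneg_left (add_le_add h2 h3) (by positivity)
      _ = (96 * Real.pi) * q ^ 300 := by ring
      _ ≤ 1000 * (5 + 1 / κ ^ 2) * q ^ 300 :=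
          mul_le_mul_of_nonneg_right (by linarith) h4.le
  · -- long range part
    change ∫ z, mix0 (omp q a) (tq q a) z * (2 * mix0 (omu κ q a) (tq q a) z) ∂lam3 ≤ _
    have hu := omu_ok hκ hq hq1 ha
    have h1 : ∫ z, mix0 (omp q a) (tq q a) z * (2 * mix0 (omu κ q a) (tq q a) z) ∂lam3 =
        2 * ∑' p, mixh (omp q a) (tq q a) p * mixh (omu κ q a) (tq q a) p := by
      rw [← int_mix0_mul hok hu, ← integral_const_mul]
      refine integral_congr_ae (Eventually.of_forall fun z => ?_)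
      change _ = 2 * (mix0 (omp q a) (tq q a) z * mix0 (omu κ q a) (tq q a) z)
      ring
    rw [h1]
    have h2 := (mixh_mul_tsum hok hu).2
    rw [hsμ] at h2
    refine (mul_le_mul_of_nonneg_left h2 (by norm_num)).trans ?_
    have hau := DPB_auq_le hq hq1 ha
    have hau0 : 0 < auq q a := lt_of_lt_of_le ha (DPB_auq_ge hq hq1 ha)
    have e1 : 2 * (4 * (3 * muq q a ^ 2) * (4 * Real.pi * auq q a) *
        (1 / (muq q a ^ 2 * (κ ^ 2 / lq q a ^ 2)) + 4 / muq q a)) =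
        96 * Real.pi * (lq q a ^ 2 * (1 / κ ^ 2) + 4 * muq q a) * auq q a := by
      field_simp
      ring
    rw [e1]
    have h3 : 96 * Real.pi * (lq q a ^ 2 * (1 / κ ^ 2) + 4 * muq q a) * auq q a ≤
        96 * Real.pi * (lq q a ^ 2 * (1 / κ ^ 2) + 4 * muq q a) * (2 * a) :=
      mul_le_mul_of_nonneg_left hau (by positivity)
    refine h3.trans ?_
    have e2 : 96 * Real.pi * (lq q a ^ 2 * (1 / κ ^ 2) + 4 * muq q a) * (2 * a) =
        192 * Real.pi * (a ^ 3 / q ^ 400 * (1 / κ ^ 2) + 4 * q ^ 198) := by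
      unfold lq muq
      field_simp
      norm_num
    rw [e2]
    have h4 : a ^ 3 / q ^ 400 ≤ q ^ 198 := by
      rw [div_le_iff₀ (by positivity), ← pow_add]
      exact (DPB_a3 hq ha h.aq).trans (DPB_pow_le hq hq1 (by norm_num))
    have h5 : 0 < q ^ 198 := by positivity
    have h6 : a ^ 3 / q ^ 400 * (1 / κ ^ 2) ≤ q ^ 198 * (1 / κ ^ 2) :=
      mul_le_mul_of_nonneg_right h4 hκ2.le
    calc 192 * Real.pi * (a ^ 3 / q ^ 400 * (1 / κ ^ 2) + 4 * q ^ 198)
        ≤ 192 * Real.pi * (q ^ 198 * (1 / κ ^ 2) + 5 * q ^ 198) :=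
          mul_le_mul_of_nonneg_left (by linarith) (by positivity)
      _ = 192 * Real.pi * ((5 + 1 / κ ^ 2) * q ^ 198) := by ring
      _ ≤ 1000 * ((5 + 1 / κ ^ 2) * q ^ 198) :=
          mul_le_mul_of_nonneg_right (by linarith) (by positivity)
      _ = 1000 * (5 + 1 / κ ^ 2) * q ^ 198 := by ring

end Pool.Agent.Lib.MP_4952d6_mp

end

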