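import Pool.Agent.Lib.MP_4952d6_mp.Pk.G32
import Pool.Agent.Lib.MP_4952d6_mp.Pk.G42

/-! Merged modules (to save import time): LB.AAb, LB.ElA. -/

/-! ### LB.AAb -/

section

/-!
# LB.AAb: the condensate part `⟪A_j, m_j A_j⟫` (L6.1, L6.2)

`cf (AAj h ψ j) k = ∑_{l ≠ j} [k j + k l = 0] fc3 h (k j) cf ψ (pr j l k)` (`cf_HP_zero`, `cf_Phi0`, and
`cf (Phi0 j l ψ) (pr j l k) = cf ψ (pr j l k)`). This is exactly the sequence `s k` in `l2_main` of Lib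
L2.lean with `w p = m p ‖fc3 h p‖²`: copy that part of the proof (pointwise bound of
`‖∑_{l ∈ S} c (pr j l k)‖² ≤ card S ∑_{l ∈ S} ‖c (pr j l k)‖²` and `W_bound`). Result for each `j`:
`∑_k m (k j) ‖cf (AAj h ψ j) k‖² ≤ A ∑_{l ≠ j} PP c j l + card ι · ws ∑ᵢ nuQ c i`, `c = cf ψ`,
where `A = ∑' p, m p ‖fc3 h p‖²` and `m p ‖fc3 h p‖² ≤ ws`; and
`PP c j l = ‖Phi0 j l ψ‖²`, `nuQ c i = ‖perp i ψ‖²`.
-/

set_option autoImplicit false
set_option linter.unusedSectionVars false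
set_option linter.unusedVariables false
open MeasureTheory Function Filter Topology Set ComplexConjugate

namespace Pool.Agent.Lib.MP_4952d6_mp.LB

variable {ι : Type*} [Fintype ι] [DecidableEq ι]

open scoped ENNReal in
/-- The counting argument of `l2_main`. -/
theorem AAb_W {c : (ι → Fin 3 → ℤ) → ℂ} (hc : Summable fun k => ‖c k‖ ^ 2) (j : ι)
    {w : (Fin 3 → ℤ) → ℝ} (hw0 : ∀ p, 0 ≤ w p) {A ws : ℝ} (hA0 : 0 ≤ A) (hws0 : 0 ≤ ws)
    (hA : ∑' p, (if p = 0 then 0 else ENNReal.ofReal (w p)) ≤ ENNReal.ofReal A)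
    (hw : ∀ p, p ≠ 0 → w p ≤ ws) :
    ∑' k, ENNReal.ofReal (if k j ≠ 0 then w (k j) * ‖∑ l ∈ Finset.univ.erase j,
        if k j + k l = 0 then c (pr j l k) else 0‖ ^ 2 else 0)
      ≤ ENNReal.ofReal (A * ∑ l ∈ Finset.univ.erase j, PP c j l
        + (Fintype.card ι) * ws * ∑ i, nuQ c i) := by
  have h0 : ∀ k, 0 ≤ ‖c k‖ ^ 2 := fun k => sq_nonneg _
  set s : (ι → Fin 3 → ℤ) → ℂ := fun k =>
    ∑ l ∈ Finset.univ.erase j, if k j + k l = 0 then c (pr j l k) else 0 with hs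
  set W : (ι → Fin 3 → ℤ) → ℝ := fun k => if k j ≠ 0 then w (k j) * ‖s k‖ ^ 2 else 0 with hWdef
  set R0 : ℝ := A * ∑ l ∈ Finset.univ.erase j, PP c j l
        + (Fintype.card ι) * ws * ∑ i, nuQ c i with hR0
  change ∑' k, ENNReal.ofReal (W k) ≤ ENNReal.ofReal R0
  -- pointwise bound
  have hpt : ∀ k, ENNReal.ofReal (W k) ≤ ∑ l ∈ Finset.univ.erase j,
      (if k j ≠ 0 ∧ k j + k l = 0 then
        ENNReal.ofReal (w (k j)) * (1 + ∑ i ∈ (Finset.univ.erase j).erase l,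
          (if k j + k i = 0 then 1 else 0)) * ENNReal.ofReal (‖c (pr j l k)‖ ^ 2) else 0) := by
    intro k
    simp only [hWdef]
    by_cases hk : k j = 0
    · simp [hk]
    · rw [if_pos hk]
      set S : Finset ι := (Finset.univ.erase j).filter (fun l => k j + k l = 0) with hS
      have hsn : ‖s k‖ ^ 2 ≤ ∑ l ∈ S, (S.card : ℝ) * ‖c (pr j l k)‖ ^ 2 := by
        have e : s k = ∑ l ∈ S, c (pr j l k) := by
          simp only [hs, hS]
          rw [Finset.sum_filter]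
        rw [e, ← Finset.mul_sum]
        calc ‖∑ l ∈ S, c (pr j l k)‖ ^ 2 ≤ (∑ l ∈ S, ‖c (pr j l k)‖) ^ 2 :=
              pow_le_pow_left₀ (norm_nonneg _) (norm_sum_le _ _) 2
          _ ≤ _ := sq_sum_le_card_mul_sum_sq
      have e2 : ∑ l ∈ Finset.univ.erase j,
          (if k j ≠ 0 ∧ k j + k l = 0 then
            ENNReal.ofReal (w (k j)) * (1 + ∑ i ∈ (Finset.univ.erase j).erase l,
              (if k j + k i = 0 then 1 else 0)) * ENNReal.ofReal (‖c (pr j l k)‖ ^ 2) else 0)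
          = ∑ l ∈ S, ENNReal.ofReal (w (k j) * (S.card * ‖c (pr j l k)‖ ^ 2)) := by
        rw [hS, Finset.sum_filter]
        refine Finset.sum_congr rfl fun l hl => ?_
        by_cases hkl : k j + k l = 0
        · rw [if_pos ⟨hk, hkl⟩, if_pos hkl]
          have hcard : (S.card : ℝ≥0∞) = 1 + ∑ i ∈ (Finset.univ.erase j).erase l,
              (if k j + k i = 0 then 1 else 0) := by
            have h5 : (S.card : ℝ≥0∞) = ∑ i ∈ Finset.univ.erase j,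
                (if k j + k i = 0 then (1 : ℝ≥0∞) else 0) := by
              rw [hS, Finset.sum_ite, Finset.sum_const_zero, add_zero, Finset.sum_const,
                nsmul_eq_mul, mul_one]
            rw [h5, ← Finset.add_sum_erase _ _ hl, if_pos hkl]
          rw [← hcard, ENNReal.ofReal_mul (hw0 _), ENNReal.ofReal_mul (Nat.cast_nonneg _),
            ENNReal.ofReal_natCast, mul_assoc]
        · rw [if_neg (fun h => hkl h.2), if_neg hkl]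
      rw [e2, ← ENNReal.ofReal_sum_of_nonneg (fun l _ => mul_nonneg (hw0 _)
        (mul_nonneg (Nat.cast_nonneg _) (sq_nonneg _))), ← Finset.mul_sum]
      exact ENNReal.ofReal_le_ofReal (mul_le_mul_of_nonneg_left hsn (hw0 _))
  refine (ENNReal.tsum_le_tsum hpt).trans ?_
  rw [Summable.tsum_finsetSum (fun _ _ => ENNReal.summable)]
  have hl : ∀ l ∈ Finset.univ.erase j, ∑' k, (if k j ≠ 0 ∧ k j + k l = 0 then
        ENNReal.ofReal (w (k j)) * (1 + ∑ i ∈ (Finset.univ.erase j).erase l,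
          (if k j + k i = 0 then 1 else 0)) * ENNReal.ofReal (‖c (pr j l k)‖ ^ 2) else 0)
      ≤ ENNReal.ofReal (A * PP c j l + ws * ∑ i, nuQ c i) := by
    intro l hl
    have hjl : j ≠ l := (Finset.ne_of_mem_erase hl).symm
    refine (W_bound (fun k => ENNReal.ofReal (‖c k‖ ^ 2)) (fun p => ENNReal.ofReal (w p))
      (ENNReal.ofReal A) (ENNReal.ofReal ws) hA
      (fun p hp => ENNReal.ofReal_le_ofReal (hw p hp)) hjl).trans (le_of_eq ?_)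
    rw [ofReal_tsum_ite hc h0 (fun k => k j = 0 ∧ k l = 0)]
    have e3 : ∀ i : ι, ∑' k, (if k i ≠ 0 then ENNReal.ofReal (‖c k‖ ^ 2) else 0)
        = ENNReal.ofReal (nuQ c i) := fun i => ofReal_tsum_ite hc h0 (fun k => k i ≠ 0)
    simp_rw [e3]
    change ENNReal.ofReal A * ENNReal.ofReal (PP c j l) + _ = _
    rw [← ENNReal.ofReal_sum_of_nonneg (fun i _ => nuQ_nonneg c i), ← ENNReal.ofReal_mul hA0,
      ← ENNReal.ofReal_mul hws0, ← ENNReal.ofReal_add (mul_nonneg hA0 (PP_nonneg c j l))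
        (mul_nonneg hws0 (Finset.sum_nonneg fun i _ => nuQ_nonneg c i))]
  refine (Finset.sum_le_sum hl).trans ?_
  rw [← ENNReal.ofReal_sum_of_nonneg (fun l _ => add_nonneg (mul_nonneg hA0 (PP_nonneg c j l))
        (mul_nonneg hws0 (Finset.sum_nonneg fun i _ => nuQ_nonneg c i)))]
  refine ENNReal.ofReal_le_ofReal ?_
  rw [Finset.sum_add_distrib, ← Finset.mul_sum, Finset.sum_const, nsmul_eq_mul, hR0, mul_assoc]
  refine add_le_add le_rfl (mul_le_mul_of_nonneg_right ?_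
    (mul_nonneg hws0 (Finset.sum_nonneg fun i _ => nuQ_nonneg c i)))
  exact_mod_cast Finset.card_le_univ _

lemma AAb_ite (P : Prop) [Decidable P] (z : ℂ) :
    ‖(if P then z else 0 : ℂ)‖ ^ 2 = if P then ‖z‖ ^ 2 else 0 := by
  split_ifs <;> simp

lemma AAb_cf_perp (j : ι) (ψ : HS ι) (k : ι → Fin 3 → ℤ) :
    cf (perp j ψ) k = if k j ≠ 0 then cf ψ k else 0 := by
  unfold perp Pz
  rw [cf_sub, cf_S1 bdm_pz]
  unfold pz
  by_cases h : k j = 0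
  · simp [h]
  · simp [h]

lemma PP_eq (j l : ι) (ψ : HS ι) : PP (cf ψ) j l = ‖Phi0 j l ψ‖ ^ 2 := by
  have h := hasSum_norm_sq (Phi0 j l ψ)
  simp only [cf_Phi0, AAb_ite] at h
  exact h.tsum_eq

lemma nuQ_eq (j : ι) (ψ : HS ι) : nuQ (cf ψ) j = ‖perp j ψ‖ ^ 2 := by
  have h := hasSum_norm_sq (perp j ψ)
  simp only [AAb_cf_perp, AAb_ite] at h
  exact h.tsum_eq

lemma cf_AAj {h : T3 → ℝ} (hh : BM h) (ψ : HS ι) (j : ι) (k : ι → Fin 3 → ℤ) :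
    cf (AAj h ψ j) k = fc3 (fun y => (h y : ℂ)) (k j)
      * ∑ l ∈ Finset.univ.erase j, if k j + k l = 0 then cf ψ (pr j l k) else 0 := by
  unfold AAj
  rw [cf_sum, Finset.mul_sum]
  refine Finset.sum_congr rfl fun l hl => ?_
  have hjl : j ≠ l := (Finset.ne_of_mem_erase hl).symm
  have e := cf_Phi0 j l ψ (pr j l k)
  rw [if_pos ⟨pr_left hjl k, pr_right k⟩] at e
  rw [cf_HP_zero hh hjl (fun k' hk' => by rw [cf_Phi0, if_neg hk']), e]
  split_ifs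
  · rfl
  · rw [mul_zero]

theorem AAj_bound {h : T3 → ℝ} (hh : BM h) (ψ : HS ι) {m : (Fin 3 → ℤ) → ℝ} (hm : Bdm m)
    (hm0 : ∀ p, 0 ≤ m p) (hmz : m 0 = 0) {ws : ℝ}
    (hws : ∀ p, m p * ‖fc3 (fun y => (h y : ℂ)) p‖ ^ 2 ≤ ws)
    (hs : Summable fun p => m p * ‖fc3 (fun y => (h y : ℂ)) p‖ ^ 2) (j : ι) :
    (inner ℂ (AAj h ψ j) (S1 m j (AAj h ψ j))).re
      ≤ (∑' p, m p * ‖fc3 (fun y => (h y : ℂ)) p‖ ^ 2)
          * ∑ l ∈ Finset.univ.erase j, ‖Phi0 j l ψ‖ ^ 2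
        + Fintype.card ι * ws * ∑ i, ‖perp i ψ‖ ^ 2 := by
  set w : (Fin 3 → ℤ) → ℝ := fun p => m p * ‖fc3 (fun y => (h y : ℂ)) p‖ ^ 2 with hwdef
  have hw0 : ∀ p, 0 ≤ w p := fun p => mul_nonneg (hm0 p) (sq_nonneg _)
  have hws0 : 0 ≤ ws := by
    have h1 := hws 0
    rw [hmz, zero_mul] at h1
    exact h1
  have hA0 : 0 ≤ ∑' p, w p := tsum_nonneg hw0
  have hA : ∑' p, (if p = 0 then 0 else ENNReal.ofReal (w p)) ≤ ENNReal.ofReal (∑' p, w p) := by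
    rw [ENNReal.ofReal_tsum_of_nonneg hw0 hs]
    refine ENNReal.tsum_le_tsum fun p => ?_
    split_ifs
    · exact zero_le
    · exact le_rfl
  have hc : Summable fun k => ‖cf ψ k‖ ^ 2 := (hasSum_norm_sq ψ).summable
  have h1 := AAb_W hc j hw0 hA0 hws0 hA (fun p _ => hws p)
  have hW0 : ∀ k : ι → Fin 3 → ℤ, 0 ≤ (if k j ≠ 0 then w (k j) * ‖∑ l ∈ Finset.univ.erase j,
        if k j + k l = 0 then cf ψ (pr j l k) else 0‖ ^ 2 else 0) := by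
    intro k
    split_ifs
    · exact mul_nonneg (hw0 _) (sq_nonneg _)
    · exact le_rfl
  have hR0 : 0 ≤ (∑' p, w p) * ∑ l ∈ Finset.univ.erase j, PP (cf ψ) j l
        + (Fintype.card ι) * ws * ∑ i, nuQ (cf ψ) i := by
    refine add_nonneg (mul_nonneg hA0 (Finset.sum_nonneg fun l _ => PP_nonneg (cf ψ) j l)) ?_
    exact mul_nonneg (mul_nonneg (Nat.cast_nonneg _) hws0)
      (Finset.sum_nonneg fun l _ => nuQ_nonneg (cf ψ) l)
  obtain ⟨h2, h3⟩ := summable_of_ennreal hW0 hR0 h1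
  have h4 := hasSum_inner_DM (hm.comp (fun k : ι → Fin 3 → ℤ => k j)) (AAj h ψ j)
  have h5 : (fun k : ι → Fin 3 → ℤ => m (k j) * ‖cf (AAj h ψ j) k‖ ^ 2)
      = fun k => if k j ≠ 0 then w (k j) * ‖∑ l ∈ Finset.univ.erase j,
        if k j + k l = 0 then cf ψ (pr j l k) else 0‖ ^ 2 else 0 := by
    funext k
    rw [cf_AAj hh]
    by_cases hk : k j = 0
    · rw [if_neg (fun h => h hk), hk, hmz, zero_mul]
    · rw [if_pos hk, norm_mul, mul_pow, hwdef]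
      ring
  rw [h5] at h4
  have h6 := h4.tsum_eq
  simp only [PP_eq, nuQ_eq] at h3
  exact (le_of_eq h6.symm).trans h3

end Pool.Agent.Lib.MP_4952d6_mp.LB

end

/-! ### LB.ElA -/

section

/-!
# LB.ElA: first part of the elimination: squares completed, condensate part bounded

`elA` : sum over `j` of `kin_split`, `square_j` (with `A = AAj h ψ j`, `B = BBj t h ψ j`), `cross_W` (with
`W = WWj t h ψ j`), added to `alg_sum`.

`elB` : `AAj_bound` with `m p = alp t p + 8 e/t bet t p`: `m ≤ t + (8e/t) t² ≤ 5 t`, `‖fc3 h p‖ ≤ H`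
(`SumStatement`), so `ws = 5 t H²`; sum over `j`; `∑' m ‖ĥ‖² = ∑' alp ‖ĥ‖² + (8e/t) ∑' bet ‖ĥ‖²
≤ A + (8e/t) C H² √t`; `∑_{j ≠ l} ‖Phi0‖² ≤ N² ‖ψ‖²`.
-/

set_option autoImplicit false
set_option linter.unusedSectionVars false
set_option linter.unusedVariables false
open MeasureTheory Function Filter Topology Set ComplexConjugate

namespace Pool.Agent.Lib.MP_4952d6_mp.LB

theorem elA {N : ℕ} {t e H R : ℝ} (ht : 0 < t) (he0 : 0 < e) (he : e ≤ 1 / 2) {h : T3 → ℝ}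
    (hh : SR H R h) {ψ : HS (Fin N)}
    (hkin : ∀ j, Summable fun k : Fin N → Fin 3 → ℤ => ksq (k j) * ‖cf ψ k‖ ^ 2) :
    (∑ j, ∑' k : Fin N → Fin 3 → ℤ, et t (k j) ^ 2 * ksq (k j) * ‖cf ψ k‖ ^ 2)
      + e / t * ∑ j, ‖QQ1 t j ψ‖ ^ 2
      + (∑ j, ∑ l ∈ Finset.univ.erase j, qf (fun x => h (x j - x l)) (Phi t j l ψ))
      - 1 / 4 * (∑ j, (inner ℂ (AAj h ψ j)
          (S1 (fun p => alp t p + 8 * e / t * bet t p) j (AAj h ψ j))).re)
      - 1 / 4 * (∑ j, 2 * (inner ℂ (AAj h ψ j) (S1 (kap' t) j (BBj t h ψ j))).re)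
      - 1 / 4 * (1 + 4 * e) * (∑ j, (inner ℂ (BBj t h ψ j) (S1 (kap t) j (BBj t h ψ j))).re)
      - t / e * ∑ j, ‖WWj t h ψ j‖ ^ 2
      ≤ (∑ j, ∑' k : Fin N → Fin 3 → ℤ, ksq (k j) * ‖cf ψ k‖ ^ 2)
        + ∑ j, ∑ l ∈ Finset.univ.erase j, (inner ℂ ψ (HP h j l (Phi t j l ψ))).re := by
  have h1 := alg_sum ht.le hh.bm hh.even ψ
  rw [h1]
  have h2 : ∀ j : Fin N,
      (∑' k : Fin N → Fin 3 → ℤ, et t (k j) ^ 2 * ksq (k j) * ‖cf ψ k‖ ^ 2)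
        + e / t * ‖QQ1 t j ψ‖ ^ 2
        - 1 / 4 * (inner ℂ (AAj h ψ j)
            (S1 (fun p => alp t p + 8 * e / t * bet t p) j (AAj h ψ j))).re
        - 1 / 4 * (2 * (inner ℂ (AAj h ψ j) (S1 (kap' t) j (BBj t h ψ j))).re)
        - 1 / 4 * (1 + 4 * e) * (inner ℂ (BBj t h ψ j) (S1 (kap t) j (BBj t h ψ j))).re
        - t / e * ‖WWj t h ψ j‖ ^ 2
      ≤ (∑' k : Fin N → Fin 3 → ℤ, ksq (k j) * ‖cf ψ k‖ ^ 2)
        + ((inner ℂ ψ (S1 (fun p => 1 - et t p ^ 2) j (AAj h ψ j)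
            + QQ1 t j (BBj t h ψ j))).re
          + 2 * (inner ℂ (QQ1 t j ψ) (WWj t h ψ j)).re) := by
    intro j
    have a1 := kin_split ht he0 j (hkin j)
    have a2 := square_j ht he0 he j (hkin j) (AAj h ψ j) (BBj t h ψ j)
    have a3 := cross_W ht he0 j ψ (WWj t h ψ j)
    have a4 : 2 * e / t * ‖QQ1 t j ψ‖ ^ 2 =
        e / t * ‖QQ1 t j ψ‖ ^ 2 + e / t * ‖QQ1 t j ψ‖ ^ 2 := by ring
    rw [a1, a4]
    linarith
  have h3 := Finset.sum_le_sum (s := Finset.univ) (fun j _ => h2 j)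
  simp only [Finset.sum_add_distrib, Finset.sum_sub_distrib, ← Finset.mul_sum] at h3 ⊢
  linarith

/-- the total condensate mass of the pairs -/
lemma ElA_Phi0_sum {N : ℕ} (ψ : HS (Fin N)) :
    ∑ j : Fin N, ∑ l ∈ Finset.univ.erase j, ‖Phi0 j l ψ‖ ^ 2 ≤ (N : ℝ) ^ 2 * ‖ψ‖ ^ 2 := by
  have h1 : ∀ j : Fin N, ∑ l ∈ Finset.univ.erase j, ‖Phi0 j l ψ‖ ^ 2 ≤ (N : ℝ) * ‖ψ‖ ^ 2 := by
    intro j
    calc ∑ l ∈ Finset.univ.erase j, ‖Phi0 j l ψ‖ ^ 2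
        ≤ ∑ l ∈ Finset.univ.erase j, ‖ψ‖ ^ 2 := Finset.sum_le_sum fun l _ =>
          pow_le_pow_left₀ (norm_nonneg _) (norm_Phi0_le j l ψ) 2
      _ ≤ ∑ l : Fin N, ‖ψ‖ ^ 2 := Finset.sum_le_sum_of_subset_of_nonneg
          (Finset.erase_subset _ _) fun _ _ _ => by positivity
      _ = (N : ℝ) * ‖ψ‖ ^ 2 := by
          rw [Finset.sum_const, Finset.card_univ, Fintype.card_fin, nsmul_eq_mul]
  calc ∑ j : Fin N, ∑ l ∈ Finset.univ.erase j, ‖Phi0 j l ψ‖ ^ 2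
      ≤ ∑ j : Fin N, (N : ℝ) * ‖ψ‖ ^ 2 := Finset.sum_le_sum fun j _ => h1 j
    _ = (N : ℝ) ^ 2 * ‖ψ‖ ^ 2 := by
        rw [Finset.sum_const, Finset.card_univ, Fintype.card_fin, nsmul_eq_mul]
        ring

theorem elB (hS : SumStatement) : ∃ C : ℝ, 0 ≤ C ∧ ∀ (N : ℕ) (t e H R : ℝ) (h : T3 → ℝ), 0 < t →
    t ≤ 1 → 0 < e → e ≤ 1 / 2 → SR H R h → ∀ ψ : HS (Fin N),
    ∑ j, (inner ℂ (AAj h ψ j)
        (S1 (fun p => alp t p + 8 * e / t * bet t p) j (AAj h ψ j))).re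
      ≤ (∑' p, alp t p * ‖fc3 (fun y => (h y : ℂ)) p‖ ^ 2)
          * (∑ j, ∑ l ∈ Finset.univ.erase j, ‖Phi0 j l ψ‖ ^ 2)
        + C * e * H ^ 2 / Real.sqrt t * N ^ 2 * ‖ψ‖ ^ 2
        + C * t * H ^ 2 * N ^ 2 * ∑ i, ‖perp i ψ‖ ^ 2 := by
  obtain ⟨C, hC0, hC⟩ := hS
  refine ⟨8 * C + 5, by linarith, ?_⟩
  intro N t e H R h ht ht1 he0 he hh ψ
  obtain ⟨s1, s2, s3, s4⟩ := hC t H R h ht ht1 hh
  have het : 0 ≤ 8 * e / t := by positivity
  have hm : Bdm (fun p : Fin 3 → ℤ => alp t p + 8 * e / t * bet t p) :=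
    (bdm_alp ht.le).add ((Bdm.const (8 * e / t)).mul (bdm_bet ht.le))
  have hm0 : ∀ p : Fin 3 → ℤ, 0 ≤ alp t p + 8 * e / t * bet t p := fun p =>
    add_nonneg (alp_nonneg ht.le p) (mul_nonneg het (bet_nonneg t p))
  have hmz : alp t (0 : Fin 3 → ℤ) + 8 * e / t * bet t (0 : Fin 3 → ℤ) = 0 := by
    simp [alp, bet]
  have hws : ∀ p : Fin 3 → ℤ, (alp t p + 8 * e / t * bet t p)
      * ‖fc3 (fun y => (h y : ℂ)) p‖ ^ 2 ≤ 5 * t * H ^ 2 := by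
    intro p
    have b1 : alp t p + 8 * e / t * bet t p ≤ 5 * t := by
      have c1 := alp_le ht.le p
      have c2 : 8 * e / t * bet t p ≤ 8 * e / t * t ^ 2 :=
        mul_le_mul_of_nonneg_left (bet_le ht.le p) het
      have c3 : 8 * e / t * t ^ 2 = 8 * e * t := by
        field_simp
      have c4 : 8 * e * t ≤ 4 * t := by nlinarith
      linarith
    have b2 : ‖fc3 (fun y => (h y : ℂ)) p‖ ^ 2 ≤ H ^ 2 :=
      pow_le_pow_left₀ (norm_nonneg _) (s3 p) 2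
    exact mul_le_mul b1 b2 (by positivity) (by positivity)
  have hsm : Summable fun p : Fin 3 → ℤ => (alp t p + 8 * e / t * bet t p)
      * ‖fc3 (fun y => (h y : ℂ)) p‖ ^ 2 := by
    have := s1.add (s2.mul_left (8 * e / t))
    refine this.congr fun p => ?_
    ring
  have htsum : ∑' p : Fin 3 → ℤ, (alp t p + 8 * e / t * bet t p)
      * ‖fc3 (fun y => (h y : ℂ)) p‖ ^ 2
      = (∑' p, alp t p * ‖fc3 (fun y => (h y : ℂ)) p‖ ^ 2)
        + 8 * e / t * ∑' p, bet t p * ‖fc3 (fun y => (h y : ℂ)) p‖ ^ 2 := by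
    rw [← tsum_mul_left, ← s1.tsum_add (s2.mul_left (8 * e / t))]
    refine tsum_congr fun p => ?_
    ring
  have hj : ∀ j : Fin N, (inner ℂ (AAj h ψ j)
        (S1 (fun p => alp t p + 8 * e / t * bet t p) j (AAj h ψ j))).re
      ≤ (∑' p : Fin 3 → ℤ, (alp t p + 8 * e / t * bet t p)
          * ‖fc3 (fun y => (h y : ℂ)) p‖ ^ 2)
          * ∑ l ∈ Finset.univ.erase j, ‖Phi0 j l ψ‖ ^ 2
        + (N : ℝ) * (5 * t * H ^ 2) * ∑ i, ‖perp i ψ‖ ^ 2 := by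
    intro j
    have := AAj_bound hh.bm ψ hm hm0 hmz hws hsm j
    rwa [Fintype.card_fin] at this
  have hsum := Finset.sum_le_sum (s := Finset.univ) (fun j _ => hj j)
  rw [Finset.sum_add_distrib, ← Finset.mul_sum, Finset.sum_const, Finset.card_univ,
    Fintype.card_fin, nsmul_eq_mul, htsum] at hsum
  refine hsum.trans ?_
  have hPhi := ElA_Phi0_sum ψ
  have hPhi0 : 0 ≤ ∑ j : Fin N, ∑ l ∈ Finset.univ.erase j, ‖Phi0 j l ψ‖ ^ 2 :=
    Finset.sum_nonneg fun j _ => Finset.sum_nonneg fun l _ => by positivity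
  have hP0 : 0 ≤ ∑ i : Fin N, ‖perp i ψ‖ ^ 2 := Finset.sum_nonneg fun i _ => by positivity
  have hsq : 0 < Real.sqrt t := Real.sqrt_pos.mpr ht
  have d1 : 8 * e / t * ∑' p, bet t p * ‖fc3 (fun y => (h y : ℂ)) p‖ ^ 2
      ≤ 8 * C * e * H ^ 2 / Real.sqrt t := by
    calc 8 * e / t * ∑' p, bet t p * ‖fc3 (fun y => (h y : ℂ)) p‖ ^ 2
        ≤ 8 * e / t * (C * H ^ 2 * Real.sqrt t) := mul_le_mul_of_nonneg_left s4 het
      _ = 8 * C * e * H ^ 2 / Real.sqrt t := by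
          have hst : Real.sqrt t ^ 2 = t := Real.sq_sqrt ht.le
          field_simp
          rw [hst]
          ring
  have d2 : 8 * e / t * (∑' p, bet t p * ‖fc3 (fun y => (h y : ℂ)) p‖ ^ 2)
      * (∑ j : Fin N, ∑ l ∈ Finset.univ.erase j, ‖Phi0 j l ψ‖ ^ 2)
      ≤ 8 * C * e * H ^ 2 / Real.sqrt t * (N ^ 2 * ‖ψ‖ ^ 2) := by
    refine mul_le_mul d1 hPhi hPhi0 ?_
    positivity
  have d3 : 0 ≤ 5 * e * H ^ 2 / Real.sqrt t * (N ^ 2 * ‖ψ‖ ^ 2) := by positivity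
  have d4 : 0 ≤ 8 * C * t * H ^ 2 * N ^ 2 * ∑ i : Fin N, ‖perp i ψ‖ ^ 2 := by positivity
  have d5 : (8 * C + 5) * e * H ^ 2 / Real.sqrt t * N ^ 2 * ‖ψ‖ ^ 2
      = 8 * C * e * H ^ 2 / Real.sqrt t * (N ^ 2 * ‖ψ‖ ^ 2)
        + 5 * e * H ^ 2 / Real.sqrt t * (N ^ 2 * ‖ψ‖ ^ 2) := by ring
  have d6 : (8 * C + 5) * t * H ^ 2 * N ^ 2 * ∑ i : Fin N, ‖perp i ψ‖ ^ 2
      = 8 * C * t * H ^ 2 * N ^ 2 * (∑ i : Fin N, ‖perp i ψ‖ ^ 2)
        + N * (N * (5 * t * H ^ 2) * ∑ i : Fin N, ‖perp i ψ‖ ^ 2) := by ring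
  rw [d5, d6, add_mul]
  linarith

end Pool.Agent.Lib.MP_4952d6_mp.LB

end

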