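import Pool.Agent.Lib.MP_4952d6_mp.Pk.G39
import Pool.Agent.Lib.MP_4952d6_mp.Pk.G42
import Pool.Agent.Lib.MP_4952d6_mp.Pk.G44
import Pool.Agent.Lib.MP_4952d6_mp.Pk.G45
import Pool.Agent.Lib.MP_4952d6_mp.Pk.G46

/-! Merged modules (to save import time): LB.CRb, LB.Elim, LB.ErrA. -/

/-! ### LB.CRb -/

section

/-!
# LB.CRb: the cross term `⟪A_j, kap'_j B_j⟫` (L6.4)

Expand with `inner_sum_sum` (`u l = HP h j l (Phi0 j l ψ)`, `v m = S1 (kap' t) j (QQ1 t m (HP h j m (Phi1 t j m ψ)))`).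

Diagonal: `⟪h Φ⁰, kap'_j Q_l h Φ¹⟫ = ⟪kap'_j Q_l h Φ⁰, h Φ¹⟫ = ⟪WT Φ⁰, h Φ¹⟫` by `wt_HP` (exact).

Off-diagonal (`l ≠ m`): move `Q_m` to the left onto `Φ⁰_{jl}` (`S1_HP_comm`, `Phi0_S1`), write
`kap'_j h_{jl} Φ⁰ = kap_j (1-Π_l) h_{jl} Φ⁰` (`kap'_HP`, `S1_symm` to put `kap'_j` on the left factor), move `kap_j` and
`1-Π_l = S1 (1-pz) l` to the right (`perp_eq_S1`, `Phi1_S1`):
`⟪h_{jl} Φ⁰_{jl}[ψ], kap'_j Q_m h_{jm} Φ¹_{jm}[ψ]⟫ = ⟪h_{jl} Φ⁰_{jl}[Q_m ψ], kap_j h_{jm} Φ¹_{jm}[(1-Π_l) ψ]⟫`,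
in absolute value `≤ (t/2) M` by `kap_le_of`, `pair_hk`, `q_three_zero` (for `F = Q_m ψ`) and `q_three` (for `F = perp l ψ`
with `(j,m,l)`): `M = (1/2) H² ‖Q_m ψ‖² + (C/2) H² [qf(hk(8t)(x_l-x_j) hk(8t)(x_l-x_m)) (perp l ψ) + ‖perp l ψ‖²]`.
Sum over distinct triples; `N² ‖Q_m ψ‖² ≤ cw (8t) m (Q_m ψ)`.
-/

set_option autoImplicit false
set_option linter.unusedSectionVars false
set_option linter.unusedVariables false
open MeasureTheory Function Filter Topology Set ComplexConjugate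

namespace Pool.Agent.Lib.MP_4952d6_mp.LB

lemma CRb_hf {N : ℕ} (j l : Fin N) (ψ : HS (Fin N)) :
    ∀ k : Fin N → Fin 3 → ℤ, ¬ (k j = 0 ∧ k l = 0) → cf (Phi0 j l ψ) k = 0 := by
  intro k hk
  rw [cf_Phi0, if_neg hk]

lemma CRb_bdm_q {t : ℝ} (ht : 0 ≤ t) : Bdm (fun p : Fin 3 → ℤ => 1 - et t p) :=
  (Bdm.const 1).sub (bdm_et ht)

lemma CRb_bdm_z : Bdm (fun p : Fin 3 → ℤ => 1 - pz p) :=
  (Bdm.const 1).sub bdm_pz

lemma CR_diag {N : ℕ} {t H R : ℝ} (ht : 0 < t) {h : T3 → ℝ} (hh : SR H R h) {j l : Fin N}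
    (hjl : j ≠ l) (ψ : HS (Fin N)) :
    inner ℂ (HP h j l (Phi0 j l ψ)) (S1 (kap' t) j (QQ1 t l (HP h j l (Phi1 t j l ψ))))
      = inner ℂ (HP (WT t h) j l (Phi0 j l ψ)) (HP h j l (Phi1 t j l ψ)) := by
  have hq := CRb_bdm_q ht.le
  have hk := bdm_kap' ht.le
  rw [← wt_HP ht hh.bm hjl (CRb_hf j l ψ)]
  unfold QQ1
  rw [S1_comm hk hq j l (HP h j l (Phi0 j l ψ)), S1_symm hq l, S1_symm hk j]

lemma CR_move {N : ℕ} {t H R : ℝ} (ht : 0 < t) {h : T3 → ℝ} (hh : SR H R h) {j l m : Fin N}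
    (hjl : j ≠ l) (hjm : j ≠ m) (hlm : l ≠ m) (ψ : HS (Fin N)) :
    inner ℂ (HP h j l (Phi0 j l ψ)) (S1 (kap' t) j (QQ1 t m (HP h j m (Phi1 t j m ψ))))
      = inner ℂ (HP h j l (Phi0 j l (QQ1 t m ψ)))
          (S1 (kap t) j (HP h j m (Phi1 t j m (perp l ψ)))) := by
  have hq := CRb_bdm_q ht.le
  have hk' := bdm_kap' ht.le
  have hk := bdm_kap ht.le
  have hz := CRb_bdm_z
  rw [← S1_symm hk' j, kap'_HP ht hh.bm hjl (CRb_hf j l ψ), perp_eq_S1, perp_eq_S1]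
  unfold QQ1
  rw [← Phi0_S1 hq j l m ψ, ← Phi1_S1 ht.le hz j m l ψ,
    ← S1_HP_comm hh.bm hjl (Ne.symm hjm) (Ne.symm hlm) hq,
    ← S1_HP_comm hh.bm hjm (Ne.symm hjl) hlm hz,
    S1_symm hk j, S1_symm hz l, S1_symm hq m, S1_comm hz hk l j, S1_comm hz hq l m,
    S1_comm hk hq j m]

theorem CR_off : ∃ C : ℝ, 0 ≤ C ∧ ∀ (N : ℕ) (t H R : ℝ) (h : T3 → ℝ) (j l m : Fin N), 0 < t →
    t ≤ 1 → SR H R h → 0 ≤ R → R ^ 2 ≤ t / 2 → j ≠ l → j ≠ m → l ≠ m → ∀ ψ : HS (Fin N),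
    |(inner ℂ (HP h j l (Phi0 j l ψ))
        (S1 (kap' t) j (QQ1 t m (HP h j m (Phi1 t j m ψ))))).re|
      ≤ C * t * H ^ 2 * ‖QQ1 t m ψ‖ ^ 2
      + C * t * H ^ 2 * (qf (fun x => hk (8 * t) (x l - x j) * hk (8 * t) (x l - x m)) (perp l ψ)
        + ‖perp l ψ‖ ^ 2) := by
  obtain ⟨C, hC, hq3⟩ := q_three
  refine ⟨C + 1, by positivity, ?_⟩
  intro N t H R h j l m ht ht1 hh hR0 hR hjl hjm hlm ψ
  rw [CR_move ht hh hjl hjm hlm ψ]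
  obtain ⟨X, hX⟩ : ∃ X : ℝ, X = qf (fun x => hk (8 * t) (x l - x j) * hk (8 * t) (x l - x m))
      (perp l ψ) + ‖perp l ψ‖ ^ 2 := ⟨_, rfl⟩
  have hX0 : 0 ≤ X := by
    rw [hX]
    exact add_nonneg (qf_nonneg (fun x => mul_nonneg (hk_nonneg _ _) (hk_nonneg _ _)) _)
      (sq_nonneg _)
  have hM := kap_le_of ht j (HP h j l (Phi0 j l (QQ1 t m ψ)))
    (HP h j m (Phi1 t j m (perp l ψ)))
    (M := 1 / 2 * (H ^ 2 * ‖QQ1 t m ψ‖ ^ 2) + 1 / 2 * (C * H ^ 2 * X)) ?_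
  · rw [← hX]
    refine hM.trans ?_
    have h1 : 0 ≤ t * (H ^ 2 * ‖QQ1 t m ψ‖ ^ 2) := by positivity
    have h2 : 0 ≤ t * (H ^ 2 * X) := by positivity
    have h3 : 0 ≤ C * (t * (H ^ 2 * ‖QQ1 t m ψ‖ ^ 2)) := mul_nonneg hC h1
    have h4 : 0 ≤ C * (t * (H ^ 2 * X)) := mul_nonneg hC h2
    have h5 : t / 2 * (1 / 2 * (H ^ 2 * ‖QQ1 t m ψ‖ ^ 2) + 1 / 2 * (C * H ^ 2 * X))
        = 1 / 4 * (t * (H ^ 2 * ‖QQ1 t m ψ‖ ^ 2)) + 1 / 4 * (C * (t * (H ^ 2 * X))) := by ring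
    have h6 : (C + 1) * t * H ^ 2 * ‖QQ1 t m ψ‖ ^ 2 + (C + 1) * t * H ^ 2 * X
        = C * (t * (H ^ 2 * ‖QQ1 t m ψ‖ ^ 2)) + t * (H ^ 2 * ‖QQ1 t m ψ‖ ^ 2)
          + (C * (t * (H ^ 2 * X)) + t * (H ^ 2 * X)) := by ring
    rw [h5, h6]
    linarith
  · intro u hu hu2
    have h1 := pair_hk hu hh.bm hh.nonneg hh.even hjl hjm (Phi0 j l (QQ1 t m ψ))
      (Phi1 t j m (perp l ψ))
    have h2 := q_three_zero hu hh hjl hjm hlm (QQ1 t m ψ)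
    have h3 := hq3 N u t H R h j m l hu hu2 ht1 hh hR0 hR hjm hjl (Ne.symm hlm) (perp l ψ)
    rw [← hX] at h3
    linarith

theorem CR_bound : ∃ C : ℝ, 0 ≤ C ∧ ∀ (N : ℕ) (t H R : ℝ) (h : T3 → ℝ), 0 < t →
    t ≤ 1 → SR H R h → 0 ≤ R → R ^ 2 ≤ t / 2 → ∀ ψ : HS (Fin N),
    |(∑ j, 2 * (inner ℂ (AAj h ψ j) (S1 (kap' t) j (BBj t h ψ j))).re)
      - ∑ j, ∑ l ∈ Finset.univ.erase j,
          2 * (inner ℂ (HP (WT t h) j l (Phi0 j l ψ)) (HP h j l (Phi1 t j l ψ))).re|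
      ≤ C * t * H ^ 2 * ((∑ m, cw (8 * t) m (QQ1 t m ψ)) + ∑ m, cw (8 * t) m (perp m ψ)) := by
  obtain ⟨C, hC, hoff⟩ := CR_off
  refine ⟨2 * C, by positivity, ?_⟩
  intro N t H R h ht ht1 hh hR0 hR ψ
  have h8 : (0 : ℝ) < 8 * t := by linarith
  have hD : 0 ≤ C * t * H ^ 2 := by positivity
  obtain ⟨S, hS⟩ : ∃ S : Fin N → Fin N → Fin N → ℝ, ∀ j l m, S j l m
      = C * t * H ^ 2 * ‖QQ1 t m ψ‖ ^ 2 := ⟨_, fun _ _ _ => rfl⟩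
  obtain ⟨T, hT⟩ : ∃ T : Fin N → Fin N → Fin N → ℝ, ∀ j l m, T j l m
      = C * t * H ^ 2 * (qf (fun x => hk (8 * t) (x m - x j) * hk (8 * t) (x m - x l)) (perp m ψ)
        + ‖perp m ψ‖ ^ 2) := ⟨_, fun _ _ _ => rfl⟩
  obtain ⟨I, hI⟩ : ∃ I : Fin N → Fin N → Fin N → ℝ, ∀ j l m, I j l m
      = (inner ℂ (HP h j l (Phi0 j l ψ))
        (S1 (kap' t) j (QQ1 t m (HP h j m (Phi1 t j m ψ))))).re := ⟨_, fun _ _ _ => rfl⟩
  have hI2 : ∀ j l m, j ≠ l → j ≠ m → l ≠ m → |I j l m| ≤ S j l m + T j m l := by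
    intro j l m hjl hjm hlm
    rw [hI, hS, hT]
    exact hoff N t H R h j l m ht ht1 hh hR0 hR hjl hjm hlm ψ
  have hexp : ∀ j, 2 * (inner ℂ (AAj h ψ j) (S1 (kap' t) j (BBj t h ψ j))).re
      = (∑ l ∈ Finset.univ.erase j,
          2 * (inner ℂ (HP (WT t h) j l (Phi0 j l ψ)) (HP h j l (Phi1 t j l ψ))).re)
        + ∑ l ∈ Finset.univ.erase j, ∑ m ∈ (Finset.univ.erase j).erase l, 2 * I j l m := by
    intro j
    unfold AAj BBj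
    rw [map_sum, inner_sum_sum, mul_add, Finset.mul_sum]
    congr 1
    · refine Finset.sum_congr rfl fun l hl => ?_
      rw [CR_diag ht hh (Ne.symm (Finset.ne_of_mem_erase hl)) ψ]
    · rw [Finset.mul_sum]
      refine Finset.sum_congr rfl fun l _ => ?_
      rw [Finset.mul_sum]
      refine Finset.sum_congr rfl fun m _ => ?_
      rw [hI]
  have hdiff : (∑ j, 2 * (inner ℂ (AAj h ψ j) (S1 (kap' t) j (BBj t h ψ j))).re)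
      - ∑ j, ∑ l ∈ Finset.univ.erase j,
          2 * (inner ℂ (HP (WT t h) j l (Phi0 j l ψ)) (HP h j l (Phi1 t j l ψ))).re
      = ∑ j, ∑ l ∈ Finset.univ.erase j, ∑ m ∈ (Finset.univ.erase j).erase l, 2 * I j l m := by
    rw [Finset.sum_congr rfl fun j _ => hexp j, Finset.sum_add_distrib]
    ring
  rw [hdiff]
  have habs : |∑ j, ∑ l ∈ Finset.univ.erase j, ∑ m ∈ (Finset.univ.erase j).erase l, 2 * I j l m|
      ≤ ∑ j, ∑ l ∈ Finset.univ.erase j, ∑ m ∈ (Finset.univ.erase j).erase l,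
        (2 * S j l m + 2 * T j m l) := by
    refine (Finset.abs_sum_le_sum_abs _ _).trans (Finset.sum_le_sum fun j _ => ?_)
    refine (Finset.abs_sum_le_sum_abs _ _).trans (Finset.sum_le_sum fun l hl => ?_)
    refine (Finset.abs_sum_le_sum_abs _ _).trans (Finset.sum_le_sum fun m hm => ?_)
    have hjl : j ≠ l := Ne.symm (Finset.ne_of_mem_erase hl)
    have hml : m ≠ l := Finset.ne_of_mem_erase hm
    have hjm : j ≠ m := Ne.symm (Finset.ne_of_mem_erase (Finset.mem_of_mem_erase hm))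
    have h1 := hI2 j l m hjl hjm (Ne.symm hml)
    rw [abs_mul, abs_two]
    linarith
  refine habs.trans ?_
  have hS1 : ∑ j, ∑ l ∈ Finset.univ.erase j, ∑ m ∈ (Finset.univ.erase j).erase l, S j l m
      ≤ C * t * H ^ 2 * ∑ m, cw (8 * t) m (QQ1 t m ψ) := by
    rw [sum_triple, Finset.mul_sum]
    refine Finset.sum_le_sum fun m _ => ?_
    have h1 := sum_hk_hk_le h8 le_rfl m (QQ1 t m ψ)
    rw [div_self h8.ne', Real.sqrt_one, one_pow, one_pow, one_mul] at h1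
    refine le_trans ?_ (mul_le_mul_of_nonneg_left h1 hD)
    rw [Finset.mul_sum]
    refine Finset.sum_le_sum fun j _ => ?_
    rw [Finset.mul_sum]
    refine Finset.sum_le_sum fun l _ => ?_
    rw [hS]
    refine mul_le_mul_of_nonneg_left ?_ hD
    have h2 := qf_nonneg (G := fun x : Fin N → T3 => hk (8 * t) (x m - x j)
      * hk (8 * t) (x m - x l)) (fun x => mul_nonneg (hk_nonneg _ _) (hk_nonneg _ _)) (QQ1 t m ψ)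
    linarith
  have hT1 : ∑ j, ∑ l ∈ Finset.univ.erase j, ∑ m ∈ (Finset.univ.erase j).erase l, T j l m
      ≤ C * t * H ^ 2 * ∑ m, cw (8 * t) m (perp m ψ) := by
    rw [sum_triple, Finset.mul_sum]
    refine Finset.sum_le_sum fun m _ => ?_
    have h1 := sum_hk_hk_le h8 le_rfl m (perp m ψ)
    rw [div_self h8.ne', Real.sqrt_one, one_pow, one_pow, one_mul] at h1
    refine le_trans (le_of_eq ?_) (mul_le_mul_of_nonneg_left h1 hD)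
    rw [Finset.mul_sum]
    refine Finset.sum_congr rfl fun j _ => ?_
    rw [Finset.mul_sum]
    exact Finset.sum_congr rfl fun l _ => hT j l m
  have hT2 : ∑ j, ∑ l ∈ Finset.univ.erase j, ∑ m ∈ (Finset.univ.erase j).erase l, T j m l
      ≤ C * t * H ^ 2 * ∑ m, cw (8 * t) m (perp m ψ) := by
    rw [← sum_triple_swap]
    exact hT1
  have hsplit : ∑ j, ∑ l ∈ Finset.univ.erase j, ∑ m ∈ (Finset.univ.erase j).erase l,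
      (2 * S j l m + 2 * T j m l)
      = 2 * (∑ j, ∑ l ∈ Finset.univ.erase j, ∑ m ∈ (Finset.univ.erase j).erase l, S j l m)
        + 2 * ∑ j, ∑ l ∈ Finset.univ.erase j, ∑ m ∈ (Finset.univ.erase j).erase l, T j m l := by
    simp only [Finset.sum_add_distrib, Finset.mul_sum]
  rw [hsplit]
  have hfin : 2 * C * t * H ^ 2 * ((∑ m, cw (8 * t) m (QQ1 t m ψ)) + ∑ m, cw (8 * t) m (perp m ψ))
      = 2 * (C * t * H ^ 2 * ∑ m, cw (8 * t) m (QQ1 t m ψ))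
        + 2 * (C * t * H ^ 2 * ∑ m, cw (8 * t) m (perp m ψ)) := by ring
  rw [hfin]
  linarith

end Pool.Agent.Lib.MP_4952d6_mp.LB

end

/-! ### LB.Elim -/

section

/-!
# LB.Elim: elimination of the high momenta (L6.7)

Notation: `∑∑` = sum over ordered pairs `j ≠ l`. From `elA`, subtract `(1/2) ∑∑ qf k Φ` on both sides and use
`elC_two`: `∑∑ qf h Φ - (1/2) ∑∑ qf k Φ ≥ (1/2)(1-δ₁) ∑∑ qf h Φ + (1/2) ∑∑ qf (h w) Φ`, expand the last by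
`elC_exp`. Insert `elB`, `CR_bound` (and `elC_WT` for its diagonal part), `BB_bound` (and `elC_KK`), `WW_bound`,
`S1_bound`. The terms with `h w`:
`(1/2) qf(hw) Φ¹ - (1/4)(1+4e)(2 qf(hw)Φ¹ + ε₂ qf h Φ¹) ≥ - (4 e + ε₂) qf h Φ¹` (`w ≤ 2`, `e ≤ 1/2`);
`(1/2)·2 Re⟪Φ⁰, h w Φ¹⟫ - (1/4)·2·Re⟪WT Φ⁰, h Φ¹⟫ ≥ -(1/2) |...|` of `elC_WT`. With
`M1 = ∑ cw (8t) m (perp m ψ)`, `M2 = ∑ cw (8t) m (QQ1 t m ψ)`, `N² ∑ ‖perp i ψ‖² ≤ M1` (`sq_norm_le_cw`),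
`∑∑ qf h Φ¹ ≤ C (H/N) M1`, `∑∑ ‖Phi0‖² ≤ N²` (as `‖ψ‖ = 1`).
-/

set_option autoImplicit false
set_option linter.unusedSectionVars false
set_option linter.unusedVariables false
open MeasureTheory Function Filter Topology Set ComplexConjugate

namespace Pool.Agent.Lib.MP_4952d6_mp.LB

/-- Error of the elimination. -/
noncomputable def elErr (N : ℕ) (t e H ε₂ ε₃ c M1 M2 : ℝ) : ℝ :=
  e * H ^ 2 * N ^ 2 / Real.sqrt t + t * H ^ 2 * (M1 + M2)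
    + ε₃ * (c * H * N ^ 2 + H * M1 / (N * c)) + (ε₂ + e) * H * M1 / N
    + t / e * (H ^ 2 * ((Real.sqrt t)⁻¹ ^ 3 / N + 1) * M1)

/-- double sum over ordered pairs -/
lemma Elim_dsum_le {N : ℕ} {F G : Fin N → Fin N → ℝ} (h : ∀ j l, j ≠ l → F j l ≤ G j l) :
    ∑ j, ∑ l ∈ Finset.univ.erase j, F j l ≤ ∑ j, ∑ l ∈ Finset.univ.erase j, G j l := by
  refine Finset.sum_le_sum fun j _ => Finset.sum_le_sum fun l hl => h j l ?_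
  exact (Finset.ne_of_mem_erase hl).symm

lemma Elim_dsum_congr {N : ℕ} {F G : Fin N → Fin N → ℝ} (h : ∀ j l, j ≠ l → F j l = G j l) :
    ∑ j, ∑ l ∈ Finset.univ.erase j, F j l = ∑ j, ∑ l ∈ Finset.univ.erase j, G j l := by
  refine Finset.sum_congr rfl fun j _ => Finset.sum_congr rfl fun l hl => h j l ?_
  exact (Finset.ne_of_mem_erase hl).symm

lemma Elim_dsum_nonneg {N : ℕ} {F : Fin N → Fin N → ℝ} (h : ∀ j l, j ≠ l → 0 ≤ F j l) :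
    0 ≤ ∑ j, ∑ l ∈ Finset.univ.erase j, F j l := by
  refine Finset.sum_nonneg fun j _ => Finset.sum_nonneg fun l hl => h j l ?_
  exact (Finset.ne_of_mem_erase hl).symm

lemma Elim_P0_le {N : ℕ} (ψ : HS (Fin N)) (hψ : ‖ψ‖ = 1) :
    ∑ j, ∑ l ∈ Finset.univ.erase j, ‖Phi0 j l ψ‖ ^ 2 ≤ (N : ℝ) ^ 2 := by
  have h1 : ∀ j : Fin N, ∑ l ∈ Finset.univ.erase j, ‖Phi0 j l ψ‖ ^ 2 ≤ (N : ℝ) := by
    intro j
    have h2 : ∀ l ∈ Finset.univ.erase j, ‖Phi0 j l ψ‖ ^ 2 ≤ (1 : ℝ) := by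
      intro l _
      have h3 := norm_Phi0_le j l ψ
      rw [hψ] at h3
      exact pow_le_one₀ (norm_nonneg _) h3
    refine (Finset.sum_le_sum h2).trans ?_
    rw [Finset.sum_const, nsmul_eq_mul, mul_one]
    have h4 : (Finset.univ.erase j).card ≤ N := by
      refine (Finset.card_le_univ _).trans ?_
      simp
    exact_mod_cast h4
  refine (Finset.sum_le_sum fun j _ => h1 j).trans ?_
  rw [Finset.sum_const, nsmul_eq_mul, Finset.card_univ, Fintype.card_fin]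
  exact le_of_eq (by ring)

private lemma Elim_a3 {AA Sa P0 C1 e H s n t P M1 : ℝ} (hC1 : 0 ≤ C1) (ht : 0 < t)
    (hB : AA ≤ Sa * P0 + C1 * e * H ^ 2 / s * n ^ 2 * 1 ^ 2 + C1 * t * H ^ 2 * n ^ 2 * P)
    (hP : n ^ 2 * P ≤ M1) :
    AA ≤ Sa * P0 + C1 * (e * H ^ 2 * n ^ 2 / s) + C1 * (t * H ^ 2 * M1) := by
  have h1 := mul_le_mul_of_nonneg_left hP (show 0 ≤ C1 * t * H ^ 2 by positivity)
  have h2 : C1 * e * H ^ 2 / s * n ^ 2 * 1 ^ 2 = C1 * (e * H ^ 2 * n ^ 2 / s) := by ring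
  linarith only [h1, h2, hB]

private lemma Elim_b4 {Y X ε₃ c H P0 H1 C5 n M1 : ℝ} (hn : 0 < n) (hε₃ : 0 ≤ ε₃) (hc : 0 < c)
    (hH : 0 ≤ H) (hWT : Y - 2 * X ≤ ε₃ * (c / 2 * (H * P0) + 1 / (2 * c) * H1))
    (hS1 : H1 ≤ C5 * (H / n) * M1) (hP0 : P0 ≤ n ^ 2) :
    Y ≤ 2 * X + 1 / 2 * (ε₃ * (c * H * n ^ 2)) + 1 / 2 * C5 * (ε₃ * (H * M1 / (n * c))) := by
  have b2 : ε₃ * (c / 2 * (H * P0)) ≤ 1 / 2 * (ε₃ * (c * H * n ^ 2)) := by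
    have := mul_le_mul_of_nonneg_left hP0 (show 0 ≤ ε₃ * (c / 2 * H) by positivity)
    linarith only [this]
  have b3 : ε₃ * (1 / (2 * c) * H1) ≤ 1 / 2 * C5 * (ε₃ * (H * M1 / (n * c))) := by
    have h1 := mul_le_mul_of_nonneg_left hS1 (show 0 ≤ ε₃ * (1 / (2 * c)) by positivity)
    have h3 : ε₃ * (1 / (2 * c)) * (C5 * (H / n) * M1)
        = 1 / 2 * C5 * (ε₃ * (H * M1 / (n * c))) := by
      field_simp
    linarith only [h1, h3]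
  linarith only [hWT, b2, b3]

private lemma Elim_c2 {e H1 C5 H n M1 : ℝ} (he : 0 ≤ e) (hS1 : H1 ≤ C5 * (H / n) * M1) :
    e * H1 ≤ C5 * (e * (H * M1 / n)) := by
  have h1 := mul_le_mul_of_nonneg_left hS1 he
  have h3 : e * (C5 * (H / n) * M1) = C5 * (e * (H * M1 / n)) := by ring
  linarith only [h1, h3]

private lemma Elim_c5 {e BB HW1 H1 ε₂ C3 C5 E2b E4a E4b : ℝ} (he0 : 0 < e) (he : e ≤ 1 / 2)
    (hε₂ : 0 ≤ ε₂) (hC3 : 0 ≤ C3) (hH1 : 0 ≤ H1) (hw : HW1 ≤ 2 * H1) (p2b : 0 ≤ E2b)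
    (c1 : BB ≤ 2 * HW1 + ε₂ * H1 + C3 * E2b) (c2 : ε₂ * H1 ≤ C5 * E4a)
    (c3 : e * H1 ≤ C5 * E4b) :
    1 / 4 * (1 + 4 * e) * BB ≤ 1 / 2 * HW1 + 4 * C5 * E4b + C5 * E4a + C3 * E2b := by
  have c4 : e * HW1 ≤ 2 * (e * H1) := by
    have := mul_le_mul_of_nonneg_left hw he0.le
    linarith only [this]
  have h1 : 1 / 4 * (1 + 4 * e) * BB ≤ 1 / 4 * (1 + 4 * e) * (2 * HW1 + ε₂ * H1 + C3 * E2b) :=
    mul_le_mul_of_nonneg_left c1 (by positivity)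
  have h3 : 1 / 4 * (1 + 4 * e) * (2 * HW1 + ε₂ * H1 + C3 * E2b)
      = 1 / 2 * HW1 + 2 * (e * HW1) + (1 / 4 + e) * (ε₂ * H1) + (1 / 4 + e) * (C3 * E2b) := by
    ring
  have h4 : (1 / 4 + e) * (ε₂ * H1) ≤ 1 * (ε₂ * H1) :=
    mul_le_mul_of_nonneg_right (by linarith only [he]) (by positivity)
  have h5 : (1 / 4 + e) * (C3 * E2b) ≤ 1 * (C3 * E2b) :=
    mul_le_mul_of_nonneg_right (by linarith only [he]) (by positivity)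
  linarith only [h1, h3, h4, h5, c2, c3, c4]

private lemma Elim_d1 {t e WW C4 H g M1 : ℝ} (ht : 0 < t) (he0 : 0 < e)
    (hWW : WW ≤ C4 * H ^ 2 * g * M1) : t / e * WW ≤ C4 * (t / e * (H ^ 2 * g * M1)) := by
  have h1 := mul_le_mul_of_nonneg_left hWW (show 0 ≤ t / e by positivity)
  have h3 : t / e * (C4 * H ^ 2 * g * M1) = C4 * (t / e * (H ^ 2 * g * M1)) := by ring
  linarith only [h1, h3]

private lemma Elim_fin {TL QT HF Kq I T AA CR BB WW HW HW1 X Y P0 IH Sa C1 C2 C3 C4 C5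
    t e δ₁ E1 E2a E2b E3a E3b E4a E4b E5 : ℝ} (hC1 : 0 ≤ C1) (hC2 : 0 ≤ C2) (hC3 : 0 ≤ C3)
    (hC4 : 0 ≤ C4) (hC5 : 0 ≤ C5) (p1 : 0 ≤ E1) (p2a : 0 ≤ E2a) (p2b : 0 ≤ E2b) (p3a : 0 ≤ E3a)
    (p3b : 0 ≤ E3b) (p4a : 0 ≤ E4a) (p4b : 0 ≤ E4b) (p5 : 0 ≤ E5)
    (hA : TL + QT + HF - 1 / 4 * AA - 1 / 4 * CR - 1 / 4 * (1 + 4 * e) * BB - t / e * WW ≤ T + I)
    (a3 : AA ≤ Sa * P0 + C1 * E1 + C1 * E2a)
    (b1 : CR ≤ 2 * Y + C2 * E2a + C2 * E2b)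
    (b4 : Y ≤ 2 * X + 1 / 2 * E3a + 1 / 2 * C5 * E3b)
    (c5 : 1 / 4 * (1 + 4 * e) * BB ≤ 1 / 2 * HW1 + 4 * C5 * E4b + C5 * E4a + C3 * E2b)
    (d1 : t / e * WW ≤ C4 * E5)
    (h2 : HW + (1 - δ₁) * HF ≤ 2 * HF - Kq)
    (hE : HW = IH * P0 + HW1 + 2 * X) :
    TL + QT + (1 - δ₁) / 2 * HF + 1 / 2 * (IH - 1 / 2 * Sa) * P0
      - (C1 + C2 + C3 + C4 + 4 * C5 + 1)
        * (E1 + (E2a + E2b) + (E3a + E3b) + (E4a + E4b) + E5) ≤ T + I - 1 / 2 * Kq := by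
  have hexp : C1 * E1 + C1 * E2a + C2 * E2a + C2 * E2b + C3 * E2b + C4 * E5
      + C5 * E3b + 4 * (C5 * E4b) + C5 * E4a + E3a
      ≤ (C1 + C2 + C3 + C4 + 4 * C5 + 1)
        * (E1 + (E2a + E2b) + (E3a + E3b) + (E4a + E4b) + E5) := by
    have e1 : (C1 + C2 + C3 + C4 + 4 * C5 + 1)
        * (E1 + (E2a + E2b) + (E3a + E3b) + (E4a + E4b) + E5)
        = (C1 * E1 + C1 * E2a + C2 * E2a + C2 * E2b + C3 * E2b + C4 * E5
          + C5 * E3b + 4 * (C5 * E4b) + C5 * E4a + E3a)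
        + (C1 * (E2b + E3a + E3b + E4a + E4b + E5) + C2 * (E1 + E3a + E3b + E4a + E4b + E5)
          + C3 * (E1 + E2a + E3a + E3b + E4a + E4b + E5)
          + C4 * (E1 + E2a + E2b + E3a + E3b + E4a + E4b)
          + C5 * (4 * E1 + 4 * E2a + 4 * E2b + 4 * E3a + 3 * E3b + 3 * E4a + 4 * E5)
          + (E1 + E2a + E2b + E3b + E4a + E4b + E5)) := by ring
    rw [e1]
    exact le_add_of_nonneg_right (by positivity)
  have hfin : 1 / 2 * (IH - 1 / 2 * Sa) * P0 = 1 / 2 * (IH * P0) - 1 / 4 * (Sa * P0) := by ring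
  rw [hfin]
  have q1 : 0 ≤ C1 * E1 := mul_nonneg hC1 p1
  have q2 : 0 ≤ C1 * E2a := mul_nonneg hC1 p2a
  have q3 : 0 ≤ C2 * E2a := mul_nonneg hC2 p2a
  have q4 : 0 ≤ C2 * E2b := mul_nonneg hC2 p2b
  have q5 : 0 ≤ C5 * E3b := mul_nonneg hC5 p3b
  linarith only [hexp, hA, a3, b1, b4, c5, d1, h2, hE, q1, q2, q3, q4, q5, p3a]

/-- the arithmetic of the elimination -/
lemma Elim_arith {TL QT HF Kq I T AA CR BB WW HW HW1 X Y KK1 H1 P0 P M1 M2 IH Sa C1 C2 C3 C4 C5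
    n t e H δ₁ ε₂ ε₃ c s g : ℝ} (hC1 : 0 ≤ C1) (hC2 : 0 ≤ C2) (hC3 : 0 ≤ C3) (hC4 : 0 ≤ C4)
    (hC5 : 0 ≤ C5) (hn : 0 < n) (ht : 0 < t) (he0 : 0 < e) (he : e ≤ 1 / 2) (hH : 0 ≤ H)
    (hε₂ : 0 ≤ ε₂) (hε₃ : 0 ≤ ε₃) (hc : 0 < c) (hs : 0 < s) (hg : 0 ≤ g) (hM1 : 0 ≤ M1)
    (hM2 : 0 ≤ M2)
    (hA : TL + QT + HF - 1 / 4 * AA - 1 / 4 * CR - 1 / 4 * (1 + 4 * e) * BB - t / e * WW ≤ T + I)
    (hB : AA ≤ Sa * P0 + C1 * e * H ^ 2 / s * n ^ 2 * 1 ^ 2 + C1 * t * H ^ 2 * n ^ 2 * P)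
    (hP : n ^ 2 * P ≤ M1)
    (h2 : HW + (1 - δ₁) * HF ≤ 2 * HF - Kq)
    (hE : HW = IH * P0 + HW1 + 2 * X)
    (hCR : CR - 2 * Y ≤ C2 * t * H ^ 2 * (M2 + M1))
    (hWT : Y - 2 * X ≤ ε₃ * (c / 2 * (H * P0) + 1 / (2 * c) * H1))
    (hBB : BB ≤ KK1 + C3 * t * H ^ 2 * M2)
    (hKK : KK1 ≤ 2 * HW1 + ε₂ * H1)
    (hw : HW1 ≤ 2 * H1) (hH1 : 0 ≤ H1)
    (hWW : WW ≤ C4 * H ^ 2 * g * M1)
    (hS1 : H1 ≤ C5 * (H / n) * M1)
    (hP0 : P0 ≤ n ^ 2) :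
    TL + QT + (1 - δ₁) / 2 * HF + 1 / 2 * (IH - 1 / 2 * Sa) * P0
      - (C1 + C2 + C3 + C4 + 4 * C5 + 1) * (e * H ^ 2 * n ^ 2 / s + t * H ^ 2 * (M1 + M2)
        + ε₃ * (c * H * n ^ 2 + H * M1 / (n * c)) + (ε₂ + e) * H * M1 / n
        + t / e * (H ^ 2 * g * M1)) ≤ T + I - 1 / 2 * Kq := by
  obtain ⟨E1, hE1⟩ : ∃ E1, E1 = e * H ^ 2 * n ^ 2 / s := ⟨_, rfl⟩
  obtain ⟨E2a, hE2a⟩ : ∃ E2a, E2a = t * H ^ 2 * M1 := ⟨_, rfl⟩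
  obtain ⟨E2b, hE2b⟩ : ∃ E2b, E2b = t * H ^ 2 * M2 := ⟨_, rfl⟩
  obtain ⟨E3a, hE3a⟩ : ∃ E3a, E3a = ε₃ * (c * H * n ^ 2) := ⟨_, rfl⟩
  obtain ⟨E3b, hE3b⟩ : ∃ E3b, E3b = ε₃ * (H * M1 / (n * c)) := ⟨_, rfl⟩
  obtain ⟨E4a, hE4a⟩ : ∃ E4a, E4a = ε₂ * (H * M1 / n) := ⟨_, rfl⟩
  obtain ⟨E4b, hE4b⟩ : ∃ E4b, E4b = e * (H * M1 / n) := ⟨_, rfl⟩
  obtain ⟨E5, hE5⟩ : ∃ E5, E5 = t / e * (H ^ 2 * g * M1) := ⟨_, rfl⟩
  have p1 : 0 ≤ E1 := by rw [hE1]; positivity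
  have p2a : 0 ≤ E2a := by rw [hE2a]; positivity
  have p2b : 0 ≤ E2b := by rw [hE2b]; positivity
  have p3a : 0 ≤ E3a := by rw [hE3a]; positivity
  have p3b : 0 ≤ E3b := by rw [hE3b]; positivity
  have p4a : 0 ≤ E4a := by rw [hE4a]; positivity
  have p4b : 0 ≤ E4b := by rw [hE4b]; positivity
  have p5 : 0 ≤ E5 := by rw [hE5]; positivity
  have hsum : e * H ^ 2 * n ^ 2 / s + t * H ^ 2 * (M1 + M2)
        + ε₃ * (c * H * n ^ 2 + H * M1 / (n * c)) + (ε₂ + e) * H * M1 / n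
        + t / e * (H ^ 2 * g * M1) = E1 + (E2a + E2b) + (E3a + E3b) + (E4a + E4b) + E5 := by
    rw [hE1, hE2a, hE2b, hE3a, hE3b, hE4a, hE4b, hE5]
    ring
  rw [hsum]
  -- A
  have a3 : AA ≤ Sa * P0 + C1 * E1 + C1 * E2a := by
    rw [hE1, hE2a]
    exact Elim_a3 hC1 ht hB hP
  have b1 : CR ≤ 2 * Y + C2 * E2a + C2 * E2b := by
    rw [hE2a, hE2b]
    linarith only [hCR]
  have b4 : Y ≤ 2 * X + 1 / 2 * E3a + 1 / 2 * C5 * E3b := by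
    rw [hE3a, hE3b]
    exact Elim_b4 hn hε₃ hc hH hWT hS1 hP0
  -- BB
  have c1 : BB ≤ 2 * HW1 + ε₂ * H1 + C3 * E2b := by
    rw [hE2b]
    linarith only [hBB, hKK]
  have c2 : ε₂ * H1 ≤ C5 * E4a := by
    rw [hE4a]
    exact Elim_c2 hε₂ hS1
  have c3 : e * H1 ≤ C5 * E4b := by
    rw [hE4b]
    exact Elim_c2 he0.le hS1
  have c5 := Elim_c5 he0 he hε₂ hC3 hH1 hw p2b c1 c2 c3
  -- WW
  have d1 : t / e * WW ≤ C4 * E5 := by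
    rw [hE5]
    exact Elim_d1 ht he0 hWW
  exact Elim_fin hC1 hC2 hC3 hC4 hC5 p1 p2a p2b p3a p3b p4a p4b p5 hA a3 b1 b4 c5 d1 h2 hE

theorem elim (hS : SumStatement) : ∃ C : ℝ, 0 ≤ C ∧ ∀ (N : ℕ) (t e H R δ₁ ε₂ ε₃ c : ℝ)
    (h k w : T3 → ℝ), 0 < N → 0 < t → t ≤ 1 → 0 < e → e ≤ 1 / 2 → SR H R h → 0 ≤ R →
    R ^ 2 ≤ t / 2 → BM k → BM w → (∀ z, 0 ≤ w z) → (∀ z, w z ≤ 2) →
    (∀ z, h z * w z + (1 - δ₁) * h z ≤ 2 * h z - k z) →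
    (∀ᵐ z ∂lam3, h z * KK t h z ≤ h z * (2 * w z + ε₂)) →
    (∀ᵐ z ∂lam3, h z * |WT t h z - 2 * w z| ≤ h z * ε₃) → 0 ≤ ε₂ → 0 ≤ ε₃ → 0 < c →
    ∀ ψ : HS (Fin N), ‖ψ‖ = 1 →
    (∀ j, Summable fun k : Fin N → Fin 3 → ℤ => ksq (k j) * ‖cf ψ k‖ ^ 2) →
    (∑ j, ∑' k : Fin N → Fin 3 → ℤ, et t (k j) ^ 2 * ksq (k j) * ‖cf ψ k‖ ^ 2)
      + e / t * (∑ j, ‖QQ1 t j ψ‖ ^ 2)
      + (1 - δ₁) / 2 * (∑ j, ∑ l ∈ Finset.univ.erase j,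
          qf (fun x => h (x j - x l)) (Phi t j l ψ))
      + 1 / 2 * ((∫ z, h z * w z ∂lam3)
          - 1 / 2 * ∑' p, alp t p * ‖fc3 (fun y => (h y : ℂ)) p‖ ^ 2)
        * (∑ j, ∑ l ∈ Finset.univ.erase j, ‖Phi0 j l ψ‖ ^ 2)
      - C * elErr N t e H ε₂ ε₃ c (∑ m, cw (8 * t) m (perp m ψ))
          (∑ m, cw (8 * t) m (QQ1 t m ψ))
      ≤ (∑ j, ∑' k : Fin N → Fin 3 → ℤ, ksq (k j) * ‖cf ψ k‖ ^ 2)
        + (∑ j, ∑ l ∈ Finset.univ.erase j, (inner ℂ ψ (HP h j l (Phi t j l ψ))).re)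
        - 1 / 2 * ∑ j, ∑ l ∈ Finset.univ.erase j, qf (fun x => k (x j - x l)) (Phi t j l ψ) := by
  obtain ⟨C1, hC1, hB⟩ := elB hS
  obtain ⟨C2, hC2, hCR⟩ := CR_bound
  obtain ⟨C3, hC3, hBB⟩ := BB_bound
  obtain ⟨C4, hC4, hWW⟩ := WW_bound
  obtain ⟨C5, hC5, hS1⟩ := S1_bound
  refine ⟨C1 + C2 + C3 + C4 + 4 * C5 + 1, by positivity, ?_⟩
  intro N t e H R δ₁ ε₂ ε₃ c h k w hN ht ht1 he0 he hh hR0 hR hk hw hw0 hw2 htwo hp1 hp2 hε₂ hε₃ hc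
    ψ hψ hkin
  have hH : 0 ≤ H := by
    rw [← hh.int]
    exact integral_nonneg hh.nonneg
  have hNr : (0 : ℝ) < N := by exact_mod_cast hN
  have ht8 : 0 < 8 * t := by linarith
  have hA := elA (N := N) ht he0 he hh hkin
  have hB' := hB N t e H R h ht ht1 he0 he hh ψ
  have hCR' := hCR N t H R h ht ht1 hh hR0 hR ψ
  have hBB' := hBB N t H R h ht ht1 hh hR0 hR ψ
  have hWW' := hWW N t H R h hN ht ht1 hh hR0 hR ψ
  have hS1' := hS1 N t H R h hN ht ht1 hh hR0 hR ψ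
  have hM1 : 0 ≤ ∑ m, cw (8 * t) m (perp m ψ) := Finset.sum_nonneg fun m _ => cw_nonneg _ _ _
  have hM2 : 0 ≤ ∑ m, cw (8 * t) m (QQ1 t m ψ) := Finset.sum_nonneg fun m _ => cw_nonneg _ _ _
  have hP : (N : ℝ) ^ 2 * ∑ i, ‖perp i ψ‖ ^ 2 ≤ ∑ m, cw (8 * t) m (perp m ψ) := by
    rw [Finset.mul_sum]
    exact Finset.sum_le_sum fun m _ => sq_norm_le_cw ht8 m (perp m ψ)
  have h2 : (∑ j, ∑ l ∈ Finset.univ.erase j,
        qf (fun x => h (x j - x l) * w (x j - x l)) (Phi t j l ψ))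
      + (1 - δ₁) * (∑ j, ∑ l ∈ Finset.univ.erase j, qf (fun x => h (x j - x l)) (Phi t j l ψ))
      ≤ 2 * (∑ j, ∑ l ∈ Finset.univ.erase j, qf (fun x => h (x j - x l)) (Phi t j l ψ))
        - ∑ j, ∑ l ∈ Finset.univ.erase j, qf (fun x => k (x j - x l)) (Phi t j l ψ) := by
    have h3 := Elim_dsum_le (N := N) (fun j l hjl => elC_two hh hk hw htwo hjl (Phi t j l ψ))
    simp only [Finset.sum_add_distrib, Finset.sum_sub_distrib, ← Finset.mul_sum] at h3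
    exact h3
  have hE : (∑ j, ∑ l ∈ Finset.univ.erase j,
        qf (fun x => h (x j - x l) * w (x j - x l)) (Phi t j l ψ))
      = (∫ z, h z * w z ∂lam3) * (∑ j, ∑ l ∈ Finset.univ.erase j, ‖Phi0 j l ψ‖ ^ 2)
        + (∑ j, ∑ l ∈ Finset.univ.erase j,
            qf (fun x => h (x j - x l) * w (x j - x l)) (Phi1 t j l ψ))
        + 2 * (∑ j, ∑ l ∈ Finset.univ.erase j,
            (inner ℂ (Phi0 j l ψ) (HP (fun z => h z * w z) j l (Phi1 t j l ψ))).re) := by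
    have h3 := Elim_dsum_congr (N := N) (fun j l hjl => elC_exp (t := t) hh hw hjl ψ)
    simp only [Finset.sum_add_distrib, ← Finset.mul_sum] at h3
    exact h3
  have hWT : (∑ j, ∑ l ∈ Finset.univ.erase j,
        (inner ℂ (HP (WT t h) j l (Phi0 j l ψ)) (HP h j l (Phi1 t j l ψ))).re)
      - 2 * (∑ j, ∑ l ∈ Finset.univ.erase j,
            (inner ℂ (Phi0 j l ψ) (HP (fun z => h z * w z) j l (Phi1 t j l ψ))).re)
      ≤ ε₃ * (c / 2 * (H * ∑ j, ∑ l ∈ Finset.univ.erase j, ‖Phi0 j l ψ‖ ^ 2)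
        + 1 / (2 * c) * ∑ j, ∑ l ∈ Finset.univ.erase j,
            qf (fun x => h (x j - x l)) (Phi1 t j l ψ)) := by
    have h3 := Elim_dsum_le (N := N)
      (fun j l hjl => (abs_le.1 (elC_WT ht hh hw hε₃ hc hp2 hjl ψ)).2)
    simp only [Finset.sum_add_distrib, Finset.sum_sub_distrib, ← Finset.mul_sum] at h3
    exact h3
  have hCR2 : (∑ j, 2 * (inner ℂ (AAj h ψ j) (S1 (kap' t) j (BBj t h ψ j))).re)
      - 2 * (∑ j, ∑ l ∈ Finset.univ.erase j,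
        (inner ℂ (HP (WT t h) j l (Phi0 j l ψ)) (HP h j l (Phi1 t j l ψ))).re)
      ≤ C2 * t * H ^ 2 * ((∑ m, cw (8 * t) m (QQ1 t m ψ)) + ∑ m, cw (8 * t) m (perp m ψ)) := by
    have h3 := (abs_le.1 hCR').2
    have h4 : ∑ j, ∑ l ∈ Finset.univ.erase j,
          2 * (inner ℂ (HP (WT t h) j l (Phi0 j l ψ)) (HP h j l (Phi1 t j l ψ))).re
        = 2 * (∑ j, ∑ l ∈ Finset.univ.erase j,
        (inner ℂ (HP (WT t h) j l (Phi0 j l ψ)) (HP h j l (Phi1 t j l ψ))).re) := by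
      simp only [← Finset.mul_sum]
    rw [h4] at h3
    exact h3
  have hKK : (∑ j, ∑ l ∈ Finset.univ.erase j,
          qf (fun x => h (x j - x l) * KK t h (x j - x l)) (Phi1 t j l ψ))
      ≤ 2 * (∑ j, ∑ l ∈ Finset.univ.erase j,
            qf (fun x => h (x j - x l) * w (x j - x l)) (Phi1 t j l ψ))
        + ε₂ * (∑ j, ∑ l ∈ Finset.univ.erase j,
            qf (fun x => h (x j - x l)) (Phi1 t j l ψ)) := by
    have h3 := Elim_dsum_le (N := N) (fun j l hjl => elC_KK ht hh hw hp1 hjl (Phi1 t j l ψ))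
    simp only [Finset.sum_add_distrib, ← Finset.mul_sum] at h3
    exact h3
  have hw3 : (∑ j, ∑ l ∈ Finset.univ.erase j,
            qf (fun x => h (x j - x l) * w (x j - x l)) (Phi1 t j l ψ))
      ≤ 2 * (∑ j, ∑ l ∈ Finset.univ.erase j,
            qf (fun x => h (x j - x l)) (Phi1 t j l ψ)) := by
    have h3 := Elim_dsum_le (N := N) (fun j l hjl => elC_w hh hw hw2 hjl (Phi1 t j l ψ))
    simp only [← Finset.mul_sum] at h3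
    exact h3
  have hH1 : 0 ≤ ∑ j, ∑ l ∈ Finset.univ.erase j,
      qf (fun x => h (x j - x l)) (Phi1 t j l ψ) :=
    Elim_dsum_nonneg fun j l _ => qf_nonneg (fun x => hh.nonneg _) _
  have hP0 := Elim_P0_le ψ hψ
  rw [hψ] at hB'
  unfold elErr
  exact Elim_arith (n := (N : ℝ)) (s := Real.sqrt t) (g := (Real.sqrt t)⁻¹ ^ 3 / N + 1)
    hC1 hC2 hC3 hC4 hC5 hNr ht he0 he hH hε₂ hε₃ hc (Real.sqrt_pos.2 ht) (by positivity) hM1 hM2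
    hA hB' hP h2 hE hCR2 hWT hBB' hKK hw3 hH1 hWW' hS1' hP0

end Pool.Agent.Lib.MP_4952d6_mp.LB

end

/-! ### LB.ErrA -/

section

/-!
# LB.ErrA: size of the elimination error (real inequalities)

`Y = u^20`, `N a³ = u^40`, `t = (a/u^16)²`, `√t = a/u^16`, `H = 8πa`, `e = c = u^6`, `M1, M2 ≤ CM N³ u^19`.
Put `X = N² a u^20`. Terms of `elErr`:
* `e H² N²/√t = 64π² a N² u^22 = X 64π² u²`
* `t H² (M1+M2) ≤ 128π² CM a⁴ N³ u^(-32+19)`, with `a³ N = u^40`: `= X 128π² CM u^7`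
* `ε₃ c H N² = C6 u^16 u^6 8πa N² = X 8π C6 u²`
* `ε₃ H M1/(N c) ≤ C6 u^16 8πa CM N² u^13 = X 8π C6 CM u^9`
* `(ε₂+e) H M1/N ≤ (C6 a³ u^(-32) + u^6) 8πa CM N² u^19 = X 8π CM (C6 a³ u^(-33) + u^5)`, and `a³ ≤ u^34` if `a < u^12 =: a1`
* `t/e H² ((√t)⁻¹^3/N + 1) M1 ≤ a² u^(-38) 64π² a² (a⁻³u^48 · a³ u^(-40) + 1) CM N³ u^19 = X 64π² CM u (u^8+1)`
  (`1/N = a³/u^40`, and `a³ N = u^40` again: `a⁴ N³ = a N² u^40`).
`M1, M2` may be negative: all coefficients are nonnegative, so replace them by their upper bounds first.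
`N > 0` because `u > 0`. Suggestion: write `N = u^40/a³` and use `field_simp`, or write each term as
`X * (constant) * u^k` by `field_simp; ring` after the substitution.
-/

set_option autoImplicit false
set_option linter.unusedSectionVars false
set_option linter.unusedVariables false
open MeasureTheory Function Filter Topology Set ComplexConjugate

namespace Pool.Agent.Lib.MP_4952d6_mp.LB

theorem ErrA_t1 {a u n : ℝ} (ha : 0 < a) (hu : 0 < u) :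
    u ^ 6 * (8 * Real.pi * a) ^ 2 * n ^ 2 / (a / u ^ 16) = 64 * Real.pi ^ 2 * u ^ 2 * (n ^ 2 * a * u ^ 20) := by
  field_simp
  ring

theorem ErrA_t2 {a u n CM : ℝ} (ha : 0 < a) (hu : 0 < u) (hN : n * a ^ 3 = u ^ 40) :
    (a / u ^ 16) ^ 2 * (8 * Real.pi * a) ^ 2 * (2 * (CM * n ^ 3 * u ^ 19))
      = 128 * Real.pi ^ 2 * CM * u ^ 7 * (n ^ 2 * a * u ^ 20) := by
  have h1 : (a / u ^ 16) ^ 2 * (8 * Real.pi * a) ^ 2 * (2 * (CM * n ^ 3 * u ^ 19))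
      = 128 * Real.pi ^ 2 * CM * a * n ^ 2 * (n * a ^ 3) / u ^ 13 := by
    field_simp
    ring
  rw [h1, hN]
  field_simp

theorem ErrA_t3a {a u n C6 : ℝ} (ha : 0 < a) (hu : 0 < u) :
    C6 * a / (a / u ^ 16) * (u ^ 6 * (8 * Real.pi * a) * n ^ 2) = 8 * Real.pi * C6 * u ^ 2 * (n ^ 2 * a * u ^ 20) := by
  field_simp

theorem ErrA_t3b {a u n C6 CM : ℝ} (ha : 0 < a) (hu : 0 < u) (hn : 0 < n) :
    C6 * a / (a / u ^ 16) * (8 * Real.pi * a * (CM * n ^ 3 * u ^ 19) / (n * u ^ 6))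
      = 8 * Real.pi * C6 * CM * u ^ 9 * (n ^ 2 * a * u ^ 20) := by
  field_simp

theorem ErrA_t4a {a u n C6 CM : ℝ} (ha : 0 < a) (hu : 0 < u) (hn : 0 < n) :
    C6 * a * (a / u ^ 16) ^ 2 * (8 * Real.pi * a) * (CM * n ^ 3 * u ^ 19) / n
      = 8 * Real.pi * C6 * CM * (a ^ 3 / u ^ 33) * (n ^ 2 * a * u ^ 20) := by
  field_simp

theorem ErrA_t4b {a u n CM : ℝ} (ha : 0 < a) (hu : 0 < u) (hn : 0 < n) :
    u ^ 6 * (8 * Real.pi * a) * (CM * n ^ 3 * u ^ 19) / n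
      = 8 * Real.pi * CM * u ^ 5 * (n ^ 2 * a * u ^ 20) := by
  field_simp

theorem ErrA_t5 {a u n CM : ℝ} (ha : 0 < a) (hu : 0 < u) (hn : 0 < n) (hN : n * a ^ 3 = u ^ 40) :
    (a / u ^ 16) ^ 2 / u ^ 6 * ((8 * Real.pi * a) ^ 2 * ((a / u ^ 16)⁻¹ ^ 3 / n + 1) * (CM * n ^ 3 * u ^ 19))
      = 64 * Real.pi ^ 2 * CM * u * (u ^ 8 + 1) * (n ^ 2 * a * u ^ 20) := by
  have h0 : (a / u ^ 16)⁻¹ ^ 3 / n = u ^ 8 := by
    have h2 : (a / u ^ 16)⁻¹ ^ 3 / n = u ^ 48 / (n * a ^ 3) := by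
      field_simp
    rw [h2, hN]
    field_simp
  rw [h0]
  have h1 : (a / u ^ 16) ^ 2 / u ^ 6 * ((8 * Real.pi * a) ^ 2 * (u ^ 8 + 1) * (CM * n ^ 3 * u ^ 19))
      = 64 * Real.pi ^ 2 * CM * (u ^ 8 + 1) * a * n ^ 2 * (n * a ^ 3) / u ^ 19 := by
    field_simp
    ring
  rw [h1, hN]
  field_simp

theorem errA {C6 CM : ℝ} (h6 : 0 ≤ C6) (hM : 0 ≤ CM) : ∃ K : ℝ, 0 ≤ K ∧ ∀ u : ℝ, 0 < u → u ≤ 1 →
    ∃ a1 : ℝ, 0 < a1 ∧ ∀ (a : ℝ) (N : ℕ), 0 < a → a < a1 → (N : ℝ) * a ^ 3 = u ^ 40 →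
    ∀ t M1 M2 : ℝ, t = (a / u ^ 16) ^ 2 → M1 ≤ CM * N ^ 3 * u ^ 19 → M2 ≤ CM * N ^ 3 * u ^ 19 →
    elErr N t (u ^ 6) (8 * Real.pi * a) (C6 * a * t) (C6 * a / Real.sqrt t) (u ^ 6) M1 M2
      ≤ K * u * (N ^ 2 * a * u ^ 20) := by
  refine ⟨64 * Real.pi ^ 2 + 128 * Real.pi ^ 2 * CM + 8 * Real.pi * C6 + 8 * Real.pi * C6 * CM
    + 8 * Real.pi * C6 * CM + 8 * Real.pi * CM + 128 * Real.pi ^ 2 * CM, by positivity,
    fun u hu hu1 => ⟨u ^ 12, by positivity, ?_⟩⟩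
  intro a N ha ha1 hN t M1 M2 ht hM1 hM2
  have hn : 0 < (N : ℝ) := by
    rcases Nat.eq_zero_or_pos N with h0 | h0
    · rw [h0, Nat.cast_zero, zero_mul] at hN
      exact absurd hN.symm (pow_pos hu 40).ne'
    · exact_mod_cast h0
  have hs : Real.sqrt t = a / u ^ 16 := by
    rw [ht, Real.sqrt_sq (by positivity)]
  unfold elErr
  rw [hs, ht]
  have hB : 0 ≤ CM * (N : ℝ) ^ 3 * u ^ 19 := by positivity
  have hX : 0 < (N : ℝ) ^ 2 * a * u ^ 20 := by positivity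
  have e1 := ErrA_t1 (a := a) (u := u) (n := N) ha hu
  have e2 := ErrA_t2 (a := a) (u := u) (n := N) (CM := CM) ha hu hN
  have e3a := ErrA_t3a (a := a) (u := u) (n := N) (C6 := C6) ha hu
  have e3b := ErrA_t3b (a := a) (u := u) (n := N) (C6 := C6) (CM := CM) ha hu hn
  have e4a := ErrA_t4a (a := a) (u := u) (n := N) (C6 := C6) (CM := CM) ha hu hn
  have e4b := ErrA_t4b (a := a) (u := u) (n := N) (CM := CM) ha hu hn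
  have e5 := ErrA_t5 (a := a) (u := u) (n := N) (CM := CM) ha hu hn hN
  have i2 : (a / u ^ 16) ^ 2 * (8 * Real.pi * a) ^ 2 * (M1 + M2)
      ≤ (a / u ^ 16) ^ 2 * (8 * Real.pi * a) ^ 2 * (2 * (CM * (N : ℝ) ^ 3 * u ^ 19)) :=
    mul_le_mul_of_nonneg_left (by linarith) (by positivity)
  have i3 : C6 * a / (a / u ^ 16) * (8 * Real.pi * a * M1 / (N * u ^ 6))
      ≤ C6 * a / (a / u ^ 16) * (8 * Real.pi * a * (CM * (N : ℝ) ^ 3 * u ^ 19) / (N * u ^ 6)) := by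
    gcongr
  have i4a : C6 * a * (a / u ^ 16) ^ 2 * (8 * Real.pi * a) * M1 / N
      ≤ C6 * a * (a / u ^ 16) ^ 2 * (8 * Real.pi * a) * (CM * (N : ℝ) ^ 3 * u ^ 19) / N := by
    gcongr
  have i4b : u ^ 6 * (8 * Real.pi * a) * M1 / N ≤ u ^ 6 * (8 * Real.pi * a) * (CM * (N : ℝ) ^ 3 * u ^ 19) / N := by
    gcongr
  have i5 : (a / u ^ 16) ^ 2 / u ^ 6 * ((8 * Real.pi * a) ^ 2 * ((a / u ^ 16)⁻¹ ^ 3 / N + 1) * M1)
      ≤ (a / u ^ 16) ^ 2 / u ^ 6 * ((8 * Real.pi * a) ^ 2 * ((a / u ^ 16)⁻¹ ^ 3 / N + 1)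
        * (CM * (N : ℝ) ^ 3 * u ^ 19)) := by
    gcongr
  have p2 : u ^ 2 ≤ u := pow_le_of_le_one hu.le hu1 (by norm_num)
  have p7 : u ^ 7 ≤ u := pow_le_of_le_one hu.le hu1 (by norm_num)
  have p9 : u ^ 9 ≤ u := pow_le_of_le_one hu.le hu1 (by norm_num)
  have p5 : u ^ 5 ≤ u := pow_le_of_le_one hu.le hu1 (by norm_num)
  have p8 : u * (u ^ 8 + 1) ≤ 2 * u := by
    have : u ^ 8 ≤ 1 := pow_le_one₀ hu.le hu1
    nlinarith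
  have p3 : a ^ 3 / u ^ 33 ≤ u := by
    rw [div_le_iff₀ (by positivity)]
    have h1 : a ^ 3 ≤ (u ^ 12) ^ 3 := pow_le_pow_left₀ ha.le ha1.le 3
    have h2 : (u ^ 12) ^ 3 = u ^ 2 * (u * u ^ 33) := by ring
    have h3 : u ^ 2 ≤ 1 := pow_le_one₀ hu.le hu1
    have h4 : u ^ 2 * (u * u ^ 33) ≤ 1 * (u * u ^ 33) := mul_le_mul_of_nonneg_right h3 (by positivity)
    linarith
  have q1 : 64 * Real.pi ^ 2 * u ^ 2 ≤ 64 * Real.pi ^ 2 * u := mul_le_mul_of_nonneg_left p2 (by positivity)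
  have q2 : 128 * Real.pi ^ 2 * CM * u ^ 7 ≤ 128 * Real.pi ^ 2 * CM * u := mul_le_mul_of_nonneg_left p7 (by positivity)
  have q3 : 8 * Real.pi * C6 * u ^ 2 ≤ 8 * Real.pi * C6 * u := mul_le_mul_of_nonneg_left p2 (by positivity)
  have q4 : 8 * Real.pi * C6 * CM * u ^ 9 ≤ 8 * Real.pi * C6 * CM * u := mul_le_mul_of_nonneg_left p9 (by positivity)
  have q5 : 8 * Real.pi * C6 * CM * (a ^ 3 / u ^ 33) ≤ 8 * Real.pi * C6 * CM * u :=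
    mul_le_mul_of_nonneg_left p3 (by positivity)
  have q6 : 8 * Real.pi * CM * u ^ 5 ≤ 8 * Real.pi * CM * u := mul_le_mul_of_nonneg_left p5 (by positivity)
  have q7 : 64 * Real.pi ^ 2 * CM * u * (u ^ 8 + 1) ≤ 128 * Real.pi ^ 2 * CM * u := by
    have h1 : 64 * Real.pi ^ 2 * CM * (u * (u ^ 8 + 1)) ≤ 64 * Real.pi ^ 2 * CM * (2 * u) :=
      mul_le_mul_of_nonneg_left p8 (by positivity)
    linarith
  have hsum : (64 * Real.pi ^ 2 * u ^ 2 + 128 * Real.pi ^ 2 * CM * u ^ 7 + 8 * Real.pi * C6 * u ^ 2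
      + 8 * Real.pi * C6 * CM * u ^ 9 + 8 * Real.pi * C6 * CM * (a ^ 3 / u ^ 33) + 8 * Real.pi * CM * u ^ 5
      + 64 * Real.pi ^ 2 * CM * u * (u ^ 8 + 1)) * ((N : ℝ) ^ 2 * a * u ^ 20)
      ≤ ((64 * Real.pi ^ 2 + 128 * Real.pi ^ 2 * CM + 8 * Real.pi * C6 + 8 * Real.pi * C6 * CM
    + 8 * Real.pi * C6 * CM + 8 * Real.pi * CM + 128 * Real.pi ^ 2 * CM) * u) * ((N : ℝ) ^ 2 * a * u ^ 20) := by
    apply mul_le_mul_of_nonneg_right _ hX.le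
    linarith
  refine le_trans ?_ hsum
  have d3 : C6 * a / (a / u ^ 16) * (u ^ 6 * (8 * Real.pi * a) * (N : ℝ) ^ 2 + 8 * Real.pi * a * M1 / (N * u ^ 6))
      = C6 * a / (a / u ^ 16) * (u ^ 6 * (8 * Real.pi * a) * (N : ℝ) ^ 2)
        + C6 * a / (a / u ^ 16) * (8 * Real.pi * a * M1 / (N * u ^ 6)) := by ring
  have d4 : (C6 * a * (a / u ^ 16) ^ 2 + u ^ 6) * (8 * Real.pi * a) * M1 / N
      = C6 * a * (a / u ^ 16) ^ 2 * (8 * Real.pi * a) * M1 / N + u ^ 6 * (8 * Real.pi * a) * M1 / N := by ring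
  rw [d3, d4]
  linarith

end Pool.Agent.Lib.MP_4952d6_mp.LB

end

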