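import Pool.Agent.Lib.MP_4952d6_mp.Pk.G34
import Pool.Agent.Lib.MP_4952d6_mp.Pk.G40
import Pool.Agent.Lib.MP_4952d6_mp.Pk.G47

/-! Merged modules (to save import time): LB.PreC. -/

/-! ### LB.PreC -/

section

/-!
# LB.PreC: the lower bound at fixed particle number (L6.8, L6.9, L8 before the limit)

`N = card`, `g = (1-δ₁) H ≥ 0`, `G = N g`, `Np = ∑ ‖perp j ψ‖²`, `c_H = ∑' et²`.

Chain: `elim`; `(1-δ₁)/2 ∑∑ qf h Φ = (g/2) (1/H) ∑∑ qf h Φ ≥ (g/2)(∑∑ qf (hk s) Φ - C ((R+√s)/√t)(c'/N M1 + M0/c'))`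
(`smo_sum` divided by `H > 0`); `den_ge`: `∑∑ qf (hk s) Φ ≥ ∑' e^{-s ksq} Rsq - N c_H`; split off `p = 0` and use `R0_ge`:
`(g/2) Rsq 0 ≥ (g/2) N² - G ∑' (1-et²) nk`; with `x = 1-et ∈ [0,1)`, `1-et² ≤ 2x`, for `a ≠ 0`:
`G (1-et²) ≤ G² t/e + (e/(4t)) (1-et²)² ≤ G² t/e + (e/t) x²` (and both sides `0` at `a = 0`), so
`G ∑ (1-et²) nk ≤ (G² t/e) Np + (e/t) ∑ (1-et)² nk` (`∑_{a ≠ 0} nk a = Np`), and the last sum is
`∑ ‖QQ1 t j ψ‖²` (`sum_QQ1`), compensated by the second term of `elim`. The kinetic term is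
`∑' et² ksq nk` (`sum_mult`) and `lam Np ≥ lam ∑_{a ≠ 0} et² nk a`. Then `pre_sum`.
-/

set_option autoImplicit false
set_option linter.unusedSectionVars false
set_option linter.unusedVariables false
open MeasureTheory Function Filter Topology Set ComplexConjugate

namespace Pool.Agent.Lib.MP_4952d6_mp.LB

/-- The energy minus nothing: kinetic energy plus pair test functional. -/
noncomputable def TV {N : ℕ} (t : ℝ) (h k : T3 → ℝ) (ψ : HS (Fin N)) : ℝ :=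
  (∑ j, ∑' k : Fin N → Fin 3 → ℤ, ksq (k j) * ‖cf ψ k‖ ^ 2)
    + (∑ j, ∑ l ∈ Finset.univ.erase j, (inner ℂ ψ (HP h j l (Phi t j l ψ))).re)
    - 1 / 2 * ∑ j, ∑ l ∈ Finset.univ.erase j, qf (fun x => k (x j - x l)) (Phi t j l ψ)

lemma PreC_split {f : (Fin 3 → ℤ) → ℝ} (hf : Summable f) :
    (Summable fun a => if a = 0 then 0 else f a) ∧
      ∑' a, (if a = 0 then 0 else f a) = ∑' a, f a - f 0 := by
  have h1 := hf.tsum_eq_add_tsum_ite 0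
  refine ⟨?_, by linarith⟩
  have h2 : Summable fun a : Fin 3 → ℤ => if a = 0 then f a else 0 :=
    summable_of_ne_finset_zero (s := {0}) (fun b hb => by
      rw [Finset.mem_singleton] at hb
      rw [if_neg hb])
  refine (hf.sub h2).congr fun a => ?_
  by_cases ha : a = 0
  · rw [if_pos ha, if_pos ha, sub_self]
  · rw [if_neg ha, if_neg ha, sub_zero]

lemma PreC_Np {N : ℕ} {ψ : HS (Fin N)} (hψ : ‖ψ‖ = 1) :
    ∑' a, (if a = 0 then 0 else nk ψ a) = ∑ j, ‖perp j ψ‖ ^ 2 := by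
  rw [(PreC_split (summable_nk ψ)).2, tsum_nk, sum_perp]

/-- summability of bounded multiples of the occupation numbers -/
lemma PreC_summable {N : ℕ} (ψ : HS (Fin N)) {φ : (Fin 3 → ℤ) → ℝ} (h0 : ∀ p, 0 ≤ φ p)
    (h1 : ∀ p, φ p ≤ 1) : Summable fun a => φ a * nk ψ a :=
  Summable.of_nonneg_of_le (fun a => mul_nonneg (h0 a) (nk_nonneg ψ a))
    (fun a => mul_le_of_le_one_left (nk_nonneg ψ a) (h1 a)) (summable_nk ψ)

lemma PreC_pt {t e G x η : ℝ} (ht : 0 < t) (he : 0 < e) (hη0 : 0 < η) (hη1 : η ≤ 1) (hx : x = 1 - η) :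
    G * (1 - η ^ 2) ≤ G ^ 2 * t / e + e / t * x ^ 2 := by
  have h1 : 0 ≤ x := by rw [hx]; linarith
  have h2 : 1 - η ^ 2 = x * (1 + η) := by rw [hx]; ring
  have h3 : (1 - η ^ 2) ^ 2 ≤ 4 * x ^ 2 := by
    rw [h2, mul_pow]
    have h4 : (1 + η) ^ 2 ≤ 4 := by nlinarith
    nlinarith [sq_nonneg x, mul_nonneg (sq_nonneg x) (sub_nonneg.2 h4)]
  have h5 : G * (1 - η ^ 2) ≤ G ^ 2 * t / e + e / (4 * t) * (1 - η ^ 2) ^ 2 := by
    have h6 : 0 ≤ (G * t - e / 2 * (1 - η ^ 2)) ^ 2 / (e * t) := by positivity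
    have h7 : (G * t - e / 2 * (1 - η ^ 2)) ^ 2 / (e * t)
        = G ^ 2 * t / e - G * (1 - η ^ 2) + e / (4 * t) * (1 - η ^ 2) ^ 2 := by
      field_simp
      ring
    rw [h7] at h6
    linarith
  have h8 : e / (4 * t) * (1 - η ^ 2) ^ 2 ≤ e / t * x ^ 2 := by
    calc e / (4 * t) * (1 - η ^ 2) ^ 2 ≤ e / (4 * t) * (4 * x ^ 2) :=
          mul_le_mul_of_nonneg_left h3 (by positivity)
      _ = e / t * x ^ 2 := by field_simp
  linarith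

/-- The loss `G ∑ (1-et²) nk`. -/
theorem loss_le {N : ℕ} {t e G : ℝ} (ht : 0 < t) (he : 0 < e) (hG : 0 ≤ G) {ψ : HS (Fin N)}
    (hψ : ‖ψ‖ = 1) :
    G * (∑' a, (1 - et t a ^ 2) * nk ψ a)
      ≤ G ^ 2 * t / e * (∑ j, ‖perp j ψ‖ ^ 2) + e / t * ∑ j, ‖QQ1 t j ψ‖ ^ 2 := by
  have hη0 : ∀ a, 0 < et t a := et_pos t
  have hη1 : ∀ a, et t a ≤ 1 := et_le_one ht.le
  have s1 : Summable fun a => (1 - et t a ^ 2) * nk ψ a :=
    PreC_summable ψ (fun a => by have := hη0 a; have := hη1 a; nlinarith)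
      (fun a => by have := sq_nonneg (et t a); linarith)
  have s2 : Summable fun a => (1 - et t a) ^ 2 * nk ψ a :=
    PreC_summable ψ (fun a => sq_nonneg _)
      (fun a => pow_le_one₀ (by linarith [hη1 a]) (by linarith [hη0 a]))
  have s3 := (PreC_split (summable_nk ψ)).1
  rw [← PreC_Np hψ, sum_QQ1 ht.le, ← tsum_mul_left, ← tsum_mul_left, ← tsum_mul_left,
    ← (s3.mul_left _).tsum_add (s2.mul_left _)]
  refine (s1.mul_left G).tsum_le_tsum (fun a => ?_) ((s3.mul_left _).add (s2.mul_left _))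
  by_cases ha : a = 0
  · subst ha
    rw [et_zero]
    simp
  · rw [if_neg ha]
    have h1 := PreC_pt (G := G) ht he (hη0 a) (hη1 a) rfl
    have h2 := mul_le_mul_of_nonneg_right h1 (nk_nonneg ψ a)
    calc G * ((1 - et t a ^ 2) * nk ψ a) = G * (1 - et t a ^ 2) * nk ψ a := by ring
      _ ≤ _ := h2
      _ = _ := by ring

lemma PreC_phi0 {N : ℕ} {ψ : HS (Fin N)} (hψ : ‖ψ‖ = 1) (j l : Fin N) :
    1 - ‖perp j ψ‖ ^ 2 - ‖perp l ψ‖ ^ 2 ≤ ‖Phi0 j l ψ‖ ^ 2 := by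
  have h0 := hasSum_norm_sq ψ
  rw [hψ, one_pow] at h0
  have h1 := (h0.sub (hasSum_norm_sq (perp j ψ))).sub (hasSum_norm_sq (perp l ψ))
  refine hasSum_le (fun K => ?_) h1 (hasSum_norm_sq (Phi0 j l ψ))
  have e1 : ∀ i : Fin N, cf (perp i ψ) K = cf ψ K - (pz (K i) : ℂ) * cf ψ K := by
    intro i
    unfold perp Pz
    rw [cf_sub, cf_S1 bdm_pz]
  have e2 : cf (Phi0 j l ψ) K = (pz (K j) : ℂ) * ((pz (K l) : ℂ) * cf ψ K) := by
    unfold Phi0 Pz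
    rw [cf_S1 bdm_pz, cf_S1 bdm_pz]
  rw [e1, e1, e2]
  unfold pz
  have hn := sq_nonneg ‖cf ψ K‖
  by_cases hj : K j = 0
  · by_cases hl : K l = 0
    · rw [if_pos hj, if_pos hl]
      simp
    · rw [if_pos hj, if_neg hl]
      simp
  · by_cases hl : K l = 0
    · rw [if_neg hj, if_pos hl]
      simp
    · rw [if_neg hj, if_neg hl]
      simp

/-- `∑_{j≠l} ‖Φ⁰‖² ≥ N² - N - 2 N Np`. -/
theorem S00_ge {N : ℕ} {ψ : HS (Fin N)} (hψ : ‖ψ‖ = 1) :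
    (N : ℝ) ^ 2 - N - 2 * N * (∑ j, ‖perp j ψ‖ ^ 2)
      ≤ ∑ j, ∑ l ∈ Finset.univ.erase j, ‖Phi0 j l ψ‖ ^ 2 := by
  have h1 : ∑ j : Fin N, ∑ l ∈ Finset.univ.erase j, (1 - ‖perp j ψ‖ ^ 2 - ‖perp l ψ‖ ^ 2)
      ≤ ∑ j, ∑ l ∈ Finset.univ.erase j, ‖Phi0 j l ψ‖ ^ 2 :=
    Finset.sum_le_sum fun j _ => Finset.sum_le_sum fun l _ => PreC_phi0 hψ j l
  refine le_trans ?_ h1
  have h2 : ∀ j : Fin N, ∑ l ∈ Finset.univ.erase j, (1 - ‖perp j ψ‖ ^ 2 - ‖perp l ψ‖ ^ 2)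
      = N - N * ‖perp j ψ‖ ^ 2 - (∑ l, ‖perp l ψ‖ ^ 2) - 1 + 2 * ‖perp j ψ‖ ^ 2 := by
    intro j
    rw [Finset.sum_erase_eq_sub (Finset.mem_univ j), Finset.sum_sub_distrib, Finset.sum_const,
      Finset.card_univ, Fintype.card_fin, nsmul_eq_mul]
    ring
  simp_rw [h2]
  rw [Finset.sum_add_distrib, Finset.sum_sub_distrib, Finset.sum_sub_distrib, Finset.sum_sub_distrib,
    ← Finset.mul_sum, ← Finset.mul_sum, Finset.sum_const, Finset.sum_const, Finset.sum_const,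
    Finset.card_univ, Fintype.card_fin, nsmul_eq_mul, nsmul_eq_mul, nsmul_eq_mul]
  have h3 : 0 ≤ ∑ j, ‖perp j ψ‖ ^ 2 := Finset.sum_nonneg fun j _ => sq_nonneg _
  linarith [sq (N : ℝ)]

/-- The sum over the nonzero momenta is at most kinetic energy, mass and interaction. -/
lemma PreC_modes {N : ℕ} {s t lam g : ℝ} (hs : 0 < s) (ht : 0 < t) (hl : 0 ≤ lam)
    (hg : 0 ≤ g) {ψ : HS (Fin N)} (hψ : ‖ψ‖ = 1)
    (hkin : ∀ j, Summable fun k : Fin N → Fin 3 → ℤ => ksq (k j) * ‖cf ψ k‖ ^ 2) :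
    (∑' p : Fin 3 → ℤ, if p = 0 then 0 else
          (et t p ^ 2 * (ksq p + lam) * nk ψ p + g * Real.exp (-(s * ksq p)) / 2 * Rsq t ψ p))
      ≤ (∑ j, ∑' k : Fin N → Fin 3 → ℤ, et t (k j) ^ 2 * ksq (k j) * ‖cf ψ k‖ ^ 2)
        + lam * (∑ j, ‖perp j ψ‖ ^ 2)
        + g / 2 * ((∑' p : Fin 3 → ℤ, Real.exp (-(s * ksq p)) * Rsq t ψ p) - Rsq t ψ 0) := by
  have hη0 : ∀ a, 0 < et t a := et_pos t
  have hη1 : ∀ a, et t a ≤ 1 := et_le_one ht.le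
  have hη2 : ∀ a, et t a ^ 2 ≤ 1 := fun a => pow_le_one₀ (hη0 a).le (hη1 a)
  obtain ⟨k1, k2⟩ := sum_mult (φ := fun p => et t p ^ 2 * ksq p)
    (fun p => mul_nonneg (sq_nonneg _) (ksq_nonneg p)) ψ (fun j => by
      refine Summable.of_nonneg_of_le (fun K => mul_nonneg (mul_nonneg (sq_nonneg _) (ksq_nonneg _))
        (sq_nonneg _)) (fun K => ?_) (hkin j)
      exact mul_le_mul_of_nonneg_right (mul_le_of_le_one_left (ksq_nonneg _) (hη2 _)) (sq_nonneg _))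
  rw [k2]
  obtain ⟨n1, n2⟩ := PreC_split (summable_nk ψ)
  have n3 := PreC_Np hψ
  obtain ⟨d1, -⟩ := den_ge hs ht ψ hψ
  obtain ⟨r1, r2⟩ := PreC_split d1
  rw [← n3]
  have r3 : (∑' p : Fin 3 → ℤ, Real.exp (-(s * ksq p)) * Rsq t ψ p) - Rsq t ψ 0
      = ∑' p : Fin 3 → ℤ, if p = 0 then 0 else Real.exp (-(s * ksq p)) * Rsq t ψ p := by
    rw [r2, ksq_zero, mul_zero, neg_zero, Real.exp_zero, one_mul]
  rw [r3, ← tsum_mul_left, ← tsum_mul_left, ← k1.tsum_add (n1.mul_left lam),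
    ← (k1.add (n1.mul_left lam)).tsum_add (r1.mul_left (g / 2))]
  refine (pre_summable hs ht hl hg hψ hkin).tsum_le_tsum (fun p => ?_)
    ((k1.add (n1.mul_left lam)).add (r1.mul_left (g / 2)))
  by_cases hp : p = 0
  · rw [if_pos hp, if_pos hp, if_pos hp]
    have h1 := mul_nonneg (mul_nonneg (sq_nonneg (et t p)) (ksq_nonneg p)) (nk_nonneg ψ p)
    linarith
  · rw [if_neg hp, if_neg hp, if_neg hp]
    have h2 : et t p ^ 2 * lam * nk ψ p ≤ lam * nk ψ p := by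
      have h3 : et t p ^ 2 * (lam * nk ψ p) ≤ lam * nk ψ p :=
        mul_le_of_le_one_left (mul_nonneg hl (nk_nonneg ψ p)) (hη2 p)
      linarith
    have h4 : et t p ^ 2 * (ksq p + lam) * nk ψ p
        = et t p ^ 2 * ksq p * nk ψ p + et t p ^ 2 * lam * nk ψ p := by ring
    have h5 : g * Real.exp (-(s * ksq p)) / 2 * Rsq t ψ p
        = g / 2 * (Real.exp (-(s * ksq p)) * Rsq t ψ p) := by ring
    rw [h4, h5]
    linarith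

lemma PreC_elErr_nonneg {N : ℕ} {t e H ε₂ ε₃ c M1 M2 : ℝ} (ht : 0 < t) (he : 0 < e) (hH : 0 < H)
    (h2 : 0 ≤ ε₂) (h3 : 0 ≤ ε₃) (hc : 0 < c) (hM1 : 0 ≤ M1) (hM2 : 0 ≤ M2) :
    0 ≤ elErr N t e H ε₂ ε₃ c M1 M2 := by
  unfold elErr
  positivity

/-- The last step: real numbers only. -/
lemma PreC_final {Nn H g G t e s lam δ₁ LSv cH cK Np QQ QH QK Kin A0 S0 TVv elE C1 C2 X Y RS R0 LO P : ℝ}
    (hN : 0 < Nn) (hg : g = (1 - δ₁) * H) (hG : G = Nn * g) (hH : 0 < H) (hδ0 : 0 ≤ δ₁) (hδ1 : δ₁ ≤ 1)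
    (ht : 0 < t) (he : 0 < e) (hs : 0 < s) (hcH : 0 ≤ cH) (hcK : 0 ≤ cK) (hNp : 0 ≤ Np)
    (hC1 : 0 ≤ C1) (hC2 : 0 ≤ C2) (hX : 0 ≤ X) (hY : 0 ≤ Y) (hel : 0 ≤ elE)
    (elim1 : Kin + e / t * QQ + (1 - δ₁) / 2 * QH + 1 / 2 * A0 * S0 - C1 * elE ≤ TVv)
    (smo : H * QK - C2 * H * X * Y ≤ QH) (den : RS - Nn * cH ≤ QK)
    (r0 : Nn ^ 2 - 2 * Nn * LO ≤ R0)
    (loss : G * LO ≤ G ^ 2 * t / e * Np + e / t * QQ)
    (pre : 1 / 2 * LSv + 1 / 2 * G * cH - 1 / 2 * G - 1 / 2 * G * s * cK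
      - 1 / 2 * (Np / Nn) * G * cH - 1 / 2 * (Np / Nn) * (1 / t + lam + G) ≤ P)
    (modes : P ≤ Kin + lam * Np + g / 2 * (RS - R0)) :
    (1 - δ₁) * H / 2 * Nn ^ 2 + 1 / 2 * A0 * S0 + 1 / 2 * LSv - 1 / 2 * (Nn * H)
      - 1 / 2 * (Nn * H) * s * cK - 1 / 2 * (Np / Nn) * (Nn * H) * cH
      - 1 / 2 * (Np / Nn) * (1 / t + lam + Nn * H) - (Nn * H) ^ 2 * t / e * Np
      - (C1 + C2) * elE - (C1 + C2) * H * X * Y ≤ TVv + lam * Np := by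
  have hg0 : 0 ≤ g := by rw [hg]; exact mul_nonneg (by linarith) hH.le
  have hgH : g ≤ H := by rw [hg]; exact mul_le_of_le_one_left hH.le (by linarith)
  have hG0 : 0 ≤ G := by rw [hG]; exact mul_nonneg hN.le hg0
  have m1 : G ≤ Nn * H := by rw [hG]; exact mul_le_mul_of_nonneg_left hgH hN.le
  have hq : 0 ≤ Np / Nn := div_nonneg hNp hN.le
  have m2 : 1 / 2 * G * s * cK ≤ 1 / 2 * (Nn * H) * s * cK := by
    have : 0 ≤ 1 / 2 * s * cK := by positivity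
    nlinarith [mul_le_mul_of_nonneg_left m1 this]
  have m3 : 1 / 2 * (Np / Nn) * G * cH ≤ 1 / 2 * (Np / Nn) * (Nn * H) * cH := by
    have : 0 ≤ 1 / 2 * (Np / Nn) * cH := by positivity
    nlinarith [mul_le_mul_of_nonneg_left m1 this]
  have m4 : 1 / 2 * (Np / Nn) * (1 / t + lam + G) ≤ 1 / 2 * (Np / Nn) * (1 / t + lam + Nn * H) :=
    mul_le_mul_of_nonneg_left (by linarith) (by positivity)
  have m5 : G ^ 2 * t / e * Np ≤ (Nn * H) ^ 2 * t / e * Np := by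
    have h1 : G ^ 2 ≤ (Nn * H) ^ 2 := pow_le_pow_left₀ hG0 m1 2
    have h2 : 0 ≤ t / e * Np := by positivity
    calc G ^ 2 * t / e * Np = G ^ 2 * (t / e * Np) := by ring
      _ ≤ (Nn * H) ^ 2 * (t / e * Np) := mul_le_mul_of_nonneg_right h1 h2
      _ = _ := by ring
  have m6 : C1 * elE ≤ (C1 + C2) * elE := mul_le_mul_of_nonneg_right (by linarith) hel
  have hHXY : 0 ≤ H * X * Y := by positivity
  have m7 : C2 * H * X * Y ≤ (C1 + C2) * H * X * Y := by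
    calc C2 * H * X * Y = C2 * (H * X * Y) := by ring
      _ ≤ (C1 + C2) * (H * X * Y) := mul_le_mul_of_nonneg_right (by linarith) hHXY
      _ = _ := by ring
  -- the interaction
  have i1 : (1 - δ₁) / 2 * (H * QK - C2 * H * X * Y) ≤ (1 - δ₁) / 2 * QH :=
    mul_le_mul_of_nonneg_left smo (by linarith)
  have i2 : (1 - δ₁) / 2 * (H * QK - C2 * H * X * Y) = g / 2 * QK - (1 - δ₁) / 2 * (C2 * H * X * Y) := by
    rw [hg]; ring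
  have i3 : (1 - δ₁) / 2 * (C2 * H * X * Y) ≤ C2 * H * X * Y := by
    have h3 : 0 ≤ C2 * H * X * Y := by
      have := mul_nonneg hC2 hHXY
      linarith [this]
    exact mul_le_of_le_one_left h3 (by linarith)
  have i4 : g / 2 * (RS - Nn * cH) ≤ g / 2 * QK := mul_le_mul_of_nonneg_left den (by linarith)
  have i5 : g / 2 * (Nn ^ 2 - 2 * Nn * LO) ≤ g / 2 * R0 := mul_le_mul_of_nonneg_left r0 (by linarith)
  have i6 : g / 2 * (Nn ^ 2 - 2 * Nn * LO) = (1 - δ₁) * H / 2 * Nn ^ 2 - G * LO := by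
    rw [hG, hg]; ring
  have i7 : g / 2 * (RS - Nn * cH) = g / 2 * (RS - R0) + g / 2 * R0 - 1 / 2 * G * cH := by
    rw [hG]; ring
  linarith

theorem pre8 (hS : SumStatement) : ∃ C : ℝ, 0 ≤ C ∧ ∀ (N : ℕ)
    (t e s H R δ₁ ε₂ ε₃ c c' lam : ℝ) (h k w : T3 → ℝ), 0 < N → 0 < t → t ≤ 1 → 0 < e →
    e ≤ 1 / 2 → 0 < s → s ≤ t → 0 < H → SR H R h → 0 ≤ R →
    R ^ 2 ≤ t / 2 → BM k → BM w → (∀ z, 0 ≤ w z) → (∀ z, w z ≤ 2) → 0 ≤ δ₁ → δ₁ ≤ 1 →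
    (∀ z, h z * w z + (1 - δ₁) * h z ≤ 2 * h z - k z) →
    (∀ᵐ z ∂lam3, h z * KK t h z ≤ h z * (2 * w z + ε₂)) →
    (∀ᵐ z ∂lam3, h z * |WT t h z - 2 * w z| ≤ h z * ε₃) → 0 ≤ ε₂ → 0 ≤ ε₃ → 0 < c → 0 < c' →
    0 ≤ lam → ∀ ψ : HS (Fin N), ‖ψ‖ = 1 →
    (∑ j, ‖perp j ψ‖ ^ 2) ≤ N / 2 →
    (∀ j, Summable fun k : Fin N → Fin 3 → ℤ => ksq (k j) * ‖cf ψ k‖ ^ 2) →
    (1 - δ₁) * H / 2 * N ^ 2
      + 1 / 2 * ((∫ z, h z * w z ∂lam3)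
          - 1 / 2 * ∑' p, alp t p * ‖fc3 (fun y => (h y : ℂ)) p‖ ^ 2)
        * (∑ j, ∑ l ∈ Finset.univ.erase j, ‖Phi0 j l ψ‖ ^ 2)
      + 1 / 2 * LS t lam (N * ((1 - δ₁) * H)) - 1 / 2 * (N * H)
      - 1 / 2 * (N * H) * s * (∑' p : Fin 3 → ℤ, et t p ^ 2 * ksq p)
      - 1 / 2 * ((∑ j, ‖perp j ψ‖ ^ 2) / N) * (N * H) * (∑' p : Fin 3 → ℤ, et t p ^ 2)
      - 1 / 2 * ((∑ j, ‖perp j ψ‖ ^ 2) / N) * (1 / t + lam + N * H)
      - (N * H) ^ 2 * t / e * (∑ j, ‖perp j ψ‖ ^ 2)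
      - C * elErr N t e H ε₂ ε₃ c (∑ m, cw (8 * t) m (perp m ψ)) (∑ m, cw (8 * t) m (QQ1 t m ψ))
      - C * H * ((R + Real.sqrt s) / Real.sqrt t)
        * (c' / N * (∑ m, cw (8 * t) m (perp m ψ)) + 1 / c' * ∑ m, qf (crowd (8 * t) m) ψ)
      ≤ TV t h k ψ + lam * ∑ j, ‖perp j ψ‖ ^ 2 := by
  obtain ⟨C1, hC1, elim1⟩ := elim hS
  obtain ⟨C2, hC2, smo1⟩ := smo_sum
  refine ⟨C1 + C2, add_nonneg hC1 hC2, ?_⟩
  intro N t e s H R δ₁ ε₂ ε₃ c c' lam h k w hN ht ht1 he he2 hs hst hH hSR hR hRt hk hw hw0 hw2 hδ0 hδ1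
    hhw hKK hWT hε2 hε3 hc hc' hlam ψ hψ hNp hkin
  have hNR : (0 : ℝ) < N := by exact_mod_cast hN
  have hg0 : 0 ≤ (1 - δ₁) * H := mul_nonneg (by linarith) hH.le
  have hM1 : 0 ≤ ∑ m, cw (8 * t) m (perp m ψ) := Finset.sum_nonneg fun m _ => cw_nonneg _ _ _
  have hM2 : 0 ≤ ∑ m, cw (8 * t) m (QQ1 t m ψ) := Finset.sum_nonneg fun m _ => cw_nonneg _ _ _
  have hCR : 0 ≤ ∑ m, qf (crowd (8 * t) m) ψ :=
    Finset.sum_nonneg fun m _ => qf_nonneg (fun x => crowd_nonneg _ _ _) ψ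
  have el := elim1 N t e H R δ₁ ε₂ ε₃ c h k w hN ht ht1 he he2 hSR hR hRt hk hw hw0 hw2 hhw hKK hWT hε2 hε3
    hc ψ hψ hkin
  have sm := smo1 N s t H R c' h hN hs hst ht1 hSR hR hRt hc' ψ
  have de := (den_ge hs ht ψ hψ).2
  rw [Fintype.card_fin] at de
  have r0 := R0_ge ht.le ψ hψ
  rw [Fintype.card_fin] at r0
  have lo := loss_le (e := e) ht he (mul_nonneg hNR.le hg0) hψ
  have pr := pre_sum hN hs ht hlam hg0 hψ hNp hkin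
  have mo := PreC_modes hs ht hlam hg0 hψ hkin
  exact PreC_final hNR rfl rfl hH hδ0 hδ1 ht he hs (tsum_nonneg fun p => sq_nonneg _)
    (tsum_nonneg fun p => mul_nonneg (sq_nonneg _) (ksq_nonneg p))
    (Finset.sum_nonneg fun j _ => sq_nonneg _) hC1 hC2 (by positivity) (by positivity)
    (PreC_elErr_nonneg ht he hH hε2 hε3 hc hM1 hM2) el sm de r0 lo pr mo

end Pool.Agent.Lib.MP_4952d6_mp.LB

end

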