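import Pool.Agent.Lib.MP_4952d6_mp.Pk.G13
import Pool.Agent.Lib.MP_4952d6_mp.Pk.G27
import Pool.Agent.Lib.MP_4952d6_mp.Pk.G32
import Pool.Agent.Lib.MP_4952d6_mp.Pk.G42

/-! Merged modules (to save import time): LB.Pot, LB.ChgS, EU.JVal. -/

/-! ### LB.Pot -/

section

/-!
# LB.Pot: the pair inequality and the energy functional

`ψ` admissible, `Ψ = hψ.1.toLp ψ` (so `cf Ψ k = fc ψ k`, `‖Ψ‖ = 1`).

`pot_point`: for real `0 ≤ W`, `0 ≤ k`, `h² ≤ 2 W k` (or `ψ = 0`): `2 Re(conj ψ · h Φ) - k |Φ|² ≤ 2 W |ψ|²`.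

`pot_pair`: integrate over the configurations with `h = h(x_j - x_l)` etc.; `Φ = Phi t j l Ψ`; where
`rr (x_j - x_l) < R₀` the function `ψ` vanishes, elsewhere `out`. The right side as a real integral of the bounded
weight `2 W (rr (x_j-x_l))` (`W` bounded, measurable).

`kin_sum`: the kinetic part of `tE 𝒱 ψ` is `∑' k, ofReal (∑_j ksq (k j) ‖fc ψ k‖²)`; finite, hence all
`∑_k ksq (k j) ‖·‖²` converge and the total is the sum over `j`.

`pot_ge`: potential part `≥ ∑_{i<j} ∫ 2 W(rr(x_i-x_j)) |ψ|²` (`𝒱 ≥ ofReal (2 W rr)` a.e. pulls back by `mp_diff`), and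
`∑_{j ≠ l} f j l = 2 ∑_{i<j} f i j` for symmetric `f` (`sum_pairs_real` in Lib Energy.lean; `Phi_comm`, `HP_swap`,
`k` even).
-/

set_option autoImplicit false
set_option linter.unusedSectionVars false
set_option linter.unusedVariables false
open MeasureTheory Function Filter Topology Set ComplexConjugate
open scoped ENNReal

namespace Pool.Agent.Lib.MP_4952d6_mp.LB

lemma pot_point {W h k : ℝ} (hW : 0 ≤ W) (hk : 0 ≤ k) (a b : ℂ) (H : h ^ 2 ≤ 2 * W * k ∨ a = 0) :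
    2 * (conj a * ((h : ℂ) * b)).re - k * ‖b‖ ^ 2 ≤ 2 * W * ‖a‖ ^ 2 := by
  rcases H with H | H
  · have h1 : (conj a * ((h : ℂ) * b)).re ≤ ‖a‖ * (|h| * ‖b‖) := by
      refine (Complex.re_le_norm _).trans ?_
      rw [norm_mul, norm_mul, RCLike.norm_conj, Complex.norm_real, Real.norm_eq_abs]
    have h2 : 2 * (‖a‖ * (|h| * ‖b‖)) ≤ 2 * W * ‖a‖ ^ 2 + k * ‖b‖ ^ 2 := by
      have hA : 0 ≤ 2 * W * ‖a‖ ^ 2 := by positivity
      have hB : 0 ≤ k * ‖b‖ ^ 2 := by positivity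
      have h3 : (2 * (‖a‖ * (|h| * ‖b‖))) ^ 2 ≤ (2 * W * ‖a‖ ^ 2 + k * ‖b‖ ^ 2) ^ 2 := by
        have e1 : (2 * (‖a‖ * (|h| * ‖b‖))) ^ 2 = 4 * (‖a‖ ^ 2 * ‖b‖ ^ 2) * h ^ 2 := by
          rw [mul_pow, mul_pow, mul_pow, sq_abs]
          ring
        have e2 : 4 * (‖a‖ ^ 2 * ‖b‖ ^ 2) * h ^ 2 ≤ 4 * (‖a‖ ^ 2 * ‖b‖ ^ 2) * (2 * W * k) :=
          mul_le_mul_of_nonneg_left H (by positivity)
        rw [e1]
        nlinarith [sq_nonneg (2 * W * ‖a‖ ^ 2 - k * ‖b‖ ^ 2)]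
      exact (pow_le_pow_iff_left₀ (by positivity) (by positivity) two_ne_zero).1 h3
    linarith
  · subst H
    have : 0 ≤ k * ‖b‖ ^ 2 := by positivity
    simp only [map_zero, zero_mul, Complex.zero_re, mul_zero, norm_zero]
    norm_num
    exact this

lemma Pot_bm {W : ℝ → ℝ} (hW : Measurable W) (hW0 : ∀ r, 0 ≤ W r)
    (hWb : ∃ M, ∀ r, W r ≤ M) : BM (fun z : T3 => 2 * W (rr z)) := by
  obtain ⟨M, hM⟩ := hWb
  refine BM.of_mem_Icc (a := 0) (b := 2 * M) ((hW.comp rr_measurable).const_mul 2) fun x => ?_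
  exact ⟨by have := hW0 (rr x); positivity, by have := hM (rr x); linarith⟩

lemma Pot_int {N : ℕ} {W : ℝ → ℝ} (hW : Measurable W) (hW0 : ∀ r, 0 ≤ W r)
    (hWb : ∃ M, ∀ r, W r ≤ M) {ψ : (Fin N → T3) → ℂ}
    (hψ : MemLp ψ 2 (piN (Fin N))) (j l : Fin N) :
    Integrable (fun x => 2 * W (rr (x j - x l)) * ‖ψ x‖ ^ 2) (piN (Fin N)) := by
  have h1 := (memLp_two_iff_integrable_sq_norm hψ.1).1 hψ
  obtain ⟨hm, C, hC⟩ := bm_diff (ι := Fin N) (Pot_bm hW hW0 hWb) j l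
  exact h1.bdd_mul hm.aestronglyMeasurable
    (Eventually.of_forall fun x => by rw [Real.norm_eq_abs]; exact hC x)

theorem pot_pair {N : ℕ} {W : ℝ → ℝ} (hW : Measurable W) (hW0 : ∀ r, 0 ≤ W r)
    (hWb : ∃ M, ∀ r, W r ≤ M) {R₀ : ℝ} {h k : T3 → ℝ} (hh : BM h) (hk : BM k) (hk0 : ∀ z, 0 ≤ k z)
    (out : ∀ z, R₀ ≤ rr z → h z ^ 2 ≤ 2 * W (rr z) * k z) {ψ : (Fin N → T3) → ℂ}
    (hψ : MemLp ψ 2 (piN (Fin N))) {j l : Fin N} (hjl : j ≠ l)
    (hcore : ∀ x, rr (x j - x l) < R₀ → ψ x = 0) (Φ : HS (Fin N)) :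
    2 * (inner ℂ (hψ.toLp ψ) (HP h j l Φ)).re - qf (fun x => k (x j - x l)) Φ
      ≤ ∫ x, 2 * W (rr (x j - x l)) * ‖ψ x‖ ^ 2 ∂(piN (Fin N)) := by
  obtain ⟨hi, he⟩ := OpC_inner (bm_diff (ι := Fin N) hh j l) (hψ.toLp ψ) Φ
  have hq := qf_int (bm_diff (ι := Fin N) hk j l) Φ
  unfold HP qf
  rw [he, ← integral_const_mul, ← integral_sub (hi.const_mul 2) hq]
  refine integral_mono_ae ((hi.const_mul 2).sub hq) (Pot_int hW hW0 hWb hψ j l) ?_
  filter_upwards [hψ.coeFn_toLp] with x hx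
  have H : h (x j - x l) ^ 2 ≤ 2 * W (rr (x j - x l)) * k (x j - x l) ∨ ψ x = 0 := by
    rcases lt_or_ge (rr (x j - x l)) R₀ with h1 | h1
    · exact Or.inr (hcore x h1)
    · exact Or.inl (out _ h1)
  have h2 := pot_point (hW0 (rr (x j - x l))) (hk0 (x j - x l)) (ψ x) (Φ x) H
  have h3 : h (x j - x l) * (conj (ψ x) * Φ x).re
      = (conj (ψ x) * (((h (x j - x l) : ℝ) : ℂ) * Φ x)).re := by
    rw [← Complex.re_ofReal_mul]
    congr 1
    ring
  show 2 * (h (x j - x l) * (conj ((hψ.toLp ψ) x) * Φ x).re) - k (x j - x l) * ‖Φ x‖ ^ 2 ≤ _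
  rw [hx, h3]
  exact h2

theorem kin_sum {N : ℕ} {𝒱 : T3 → ℝ≥0∞} {R₀ : ℝ} {ψ : (Fin N → T3) → ℂ} (hψ : tAdm R₀ 𝒱 ψ) :
    (∀ j, Summable fun k : Fin N → Fin 3 → ℤ => ksq (k j) * ‖cf (hψ.1.toLp ψ) k‖ ^ 2) ∧
    ENNReal.ofReal (∑ j, ∑' k : Fin N → Fin 3 → ℤ, ksq (k j) * ‖cf (hψ.1.toLp ψ) k‖ ^ 2)
      = ∑' k : Fin N → Fin 3 → ℤ, ENNReal.ofReal (4 * Real.pi ^ 2 * (∑ i, ∑ α, (k i α : ℝ) ^ 2)
        * ‖fc ψ k‖ ^ 2) := by
  set a : (Fin N → Fin 3 → ℤ) → ℝ := fun k =>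
    4 * Real.pi ^ 2 * (∑ i, ∑ α, (k i α : ℝ) ^ 2) * ‖fc ψ k‖ ^ 2 with ha
  have ha0 : ∀ k, 0 ≤ a k := fun k => by
    have : 0 ≤ ∑ i, ∑ α, (k i α : ℝ) ^ 2 :=
      Finset.sum_nonneg fun i _ => Finset.sum_nonneg fun α _ => sq_nonneg _
    have h2 := Real.pi_pos
    simp only [ha]
    positivity
  have hfin : ∑' k, ENNReal.ofReal (a k) ≠ ⊤ := by
    have h1 : tE 𝒱 ψ < ⊤ := hψ.2.2.2
    refine ne_top_of_le_ne_top h1.ne ?_
    unfold tE
    exact le_self_add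
  have hsum : Summable a := by
    have := ENNReal.summable_toReal hfin
    refine this.congr fun k => ?_
    rw [ENNReal.toReal_ofReal (ha0 k)]
  have heq : ∀ k, a k = ∑ j, ksq (k j) * ‖cf (hψ.1.toLp ψ) k‖ ^ 2 := by
    intro k
    rw [← Finset.sum_mul, cf_toLp]
    simp only [ha, ksq, mom2]
    rw [← Finset.mul_sum]
  have hterm0 : ∀ (k : Fin N → Fin 3 → ℤ) j, 0 ≤ ksq (k j) * ‖cf (hψ.1.toLp ψ) k‖ ^ 2 :=
    fun k j => mul_nonneg (ksq_nonneg _) (sq_nonneg _)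
  have hs : ∀ j, Summable fun k : Fin N → Fin 3 → ℤ => ksq (k j) * ‖cf (hψ.1.toLp ψ) k‖ ^ 2 := by
    intro j
    refine Summable.of_nonneg_of_le (fun k => hterm0 k j) (fun k => ?_) hsum
    rw [heq k]
    exact Finset.single_le_sum (f := fun j => ksq (k j) * ‖cf (hψ.1.toLp ψ) k‖ ^ 2)
      (fun i _ => hterm0 k i) (Finset.mem_univ j)
  refine ⟨hs, ?_⟩
  rw [← Summable.tsum_finsetSum (fun j _ => hs j)]
  have h1 : (fun k : Fin N → Fin 3 → ℤ => ∑ j, ksq (k j) * ‖cf (hψ.1.toLp ψ) k‖ ^ 2) = a := by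
    funext k
    exact (heq k).symm
  rw [h1]
  exact ENNReal.ofReal_tsum_of_nonneg ha0 hsum

theorem pot_ge {N : ℕ} {t : ℝ} (ht : 0 ≤ t) {W : ℝ → ℝ} (hW : Measurable W) (hW0 : ∀ r, 0 ≤ W r)
    (hWb : ∃ M, ∀ r, W r ≤ M) {R₀ : ℝ} {h k : T3 → ℝ} (hh : BM h) (hhe : ∀ z, h (-z) = h z)
    (hk : BM k) (hk0 : ∀ z, 0 ≤ k z) (hke : ∀ z, k (-z) = k z)
    (out : ∀ z, R₀ ≤ rr z → h z ^ 2 ≤ 2 * W (rr z) * k z)
    {𝒱 : T3 → ℝ≥0∞} (h𝒱 : ∀ᵐ y ∂lam3, ENNReal.ofReal (2 * W (rr y)) ≤ 𝒱 y)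
    {ψ : (Fin N → T3) → ℂ} (hψ : tAdm R₀ 𝒱 ψ) :
    ENNReal.ofReal ((∑ j, ∑' k : Fin N → Fin 3 → ℤ, ksq (k j) * ‖cf (hψ.1.toLp ψ) k‖ ^ 2)
        + (∑ j, ∑ l ∈ Finset.univ.erase j,
            (inner ℂ (hψ.1.toLp ψ) (HP h j l (Phi t j l (hψ.1.toLp ψ)))).re)
        - 1 / 2 * ∑ j, ∑ l ∈ Finset.univ.erase j,
            qf (fun x => k (x j - x l)) (Phi t j l (hψ.1.toLp ψ))) ≤ tE 𝒱 ψ := by
  set Ψ : HS (Fin N) := hψ.1.toLp ψ with hΨ
  set w : Fin N → Fin N → ℝ := fun i j =>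
    ∫ x, 2 * W (rr (x i - x j)) * ‖ψ x‖ ^ 2 ∂(piN (Fin N)) with hw
  have hwint : ∀ i j : Fin N, Integrable (fun x => 2 * W (rr (x i - x j)) * ‖ψ x‖ ^ 2)
      (piN (Fin N)) := fun i j => Pot_int hW hW0 hWb hψ.1 i j
  have hwsym : ∀ i j, w i j = w j i := by
    intro i j
    simp only [hw]
    congr 1
    funext x
    rw [← rr_neg (x i - x j), neg_sub]
  -- the pair terms
  have hR : (∑ j, ∑ l ∈ Finset.univ.erase j, (inner ℂ Ψ (HP h j l (Phi t j l Ψ))).re)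
      - 1 / 2 * ∑ j, ∑ l ∈ Finset.univ.erase j, qf (fun x => k (x j - x l)) (Phi t j l Ψ)
      ≤ ∑ i, ∑ j ∈ Finset.Ioi i, w i j := by
    have h1 : ∀ j, ∀ l ∈ Finset.univ.erase j,
        2 * (inner ℂ Ψ (HP h j l (Phi t j l Ψ))).re - qf (fun x => k (x j - x l)) (Phi t j l Ψ)
          ≤ w j l := by
      intro j l hl
      have hjl : j ≠ l := (Finset.ne_of_mem_erase hl).symm
      exact pot_pair hW hW0 hWb hh hk hk0 out hψ.1 hjl (fun x hx => hψ.2.2.1 x j l hjl hx) _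
    have h2 : ∑ j, ∑ l ∈ Finset.univ.erase j,
        (2 * (inner ℂ Ψ (HP h j l (Phi t j l Ψ))).re - qf (fun x => k (x j - x l)) (Phi t j l Ψ))
          ≤ ∑ j, ∑ l ∈ Finset.univ.erase j, w j l :=
      Finset.sum_le_sum fun j _ => Finset.sum_le_sum fun l hl => h1 j l hl
    rw [sum_pairs_real w hwsym] at h2
    simp_rw [Finset.sum_sub_distrib, ← Finset.mul_sum] at h2
    linarith
  -- the potential part of the energy
  have hV : ENNReal.ofReal (∑ i, ∑ j ∈ Finset.Ioi i, w i j)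
      ≤ ∫⁻ x, (∑ i, ∑ j ∈ Finset.Ioi i, 𝒱 (x i - x j)) * ‖ψ x‖ₑ ^ 2 ∂(piN (Fin N)) := by
    have e1 : ∑ i, ∑ j ∈ Finset.Ioi i, w i j
        = ∫ x, ∑ i, ∑ j ∈ Finset.Ioi i, 2 * W (rr (x i - x j)) * ‖ψ x‖ ^ 2 ∂(piN (Fin N)) := by
      rw [integral_finsetSum _ (fun i _ => integrable_finsetSum _ (fun j _ => hwint i j))]
      refine Finset.sum_congr rfl fun i _ => ?_
      rw [integral_finsetSum _ (fun j _ => hwint i j)]
    have hnn : ∀ x : Fin N → T3, ∀ i j : Fin N, 0 ≤ 2 * W (rr (x i - x j)) * ‖ψ x‖ ^ 2 :=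
      fun x i j => by have := hW0 (rr (x i - x j)); positivity
    rw [e1, ofReal_integral_eq_lintegral_ofReal
      (integrable_finsetSum _ (fun i _ => integrable_finsetSum _ (fun j _ => hwint i j)))
      (Eventually.of_forall fun x => Finset.sum_nonneg fun i _ =>
        Finset.sum_nonneg fun j _ => hnn x i j)]
    have hae : ∀ᵐ x ∂(piN (Fin N)), ∀ i j : Fin N, i ≠ j →
        ENNReal.ofReal (2 * W (rr (x i - x j))) ≤ 𝒱 (x i - x j) := by
      rw [ae_all_iff]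
      intro i
      rw [ae_all_iff]
      intro j
      by_cases hij : i = j
      · exact Eventually.of_forall fun x h => absurd hij h
      · have h1 := (mp_diff hij).quasiMeasurePreserving.ae h𝒱
        filter_upwards [h1] with x hx _
        exact hx
    refine lintegral_mono_ae ?_
    filter_upwards [hae] with x hx
    rw [ENNReal.ofReal_sum_of_nonneg (fun i _ => Finset.sum_nonneg fun j _ => hnn x i j),
      Finset.sum_mul]
    refine Finset.sum_le_sum fun i _ => ?_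
    rw [ENNReal.ofReal_sum_of_nonneg (fun j _ => hnn x i j), Finset.sum_mul]
    refine Finset.sum_le_sum fun j hj => ?_
    have hij : i ≠ j := (Finset.mem_Ioi.1 hj).ne
    have h0 : 0 ≤ 2 * W (rr (x i - x j)) := by have := hW0 (rr (x i - x j)); positivity
    rw [ENNReal.ofReal_mul h0]
    refine mul_le_mul' (hx i j hij) ?_
    rw [← ofReal_norm, ENNReal.ofReal_pow (norm_nonneg _)]
  unfold tE
  rw [← (kin_sum hψ).2]
  set K : ℝ := ∑ j, ∑' k : Fin N → Fin 3 → ℤ, ksq (k j) * ‖cf Ψ k‖ ^ 2 with hK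
  rw [add_sub_assoc]
  refine ENNReal.ofReal_add_le.trans (add_le_add le_rfl ?_)
  exact (ENNReal.ofReal_le_ofReal hR).trans hV

end Pool.Agent.Lib.MP_4952d6_mp.LB

end

/-! ### LB.ChgS -/

section

/-!
# LB.ChgS: lattice sums (`SumStatement`)

`bet_le_integral`: `x = t q`, `q = ksq p`: `∫₀^t s e^{-sq} ds = (1 - e^{-x}(1+x))/q²` and
`(1-e^{-x})² ≤ 2 (1 - e^{-x}(1+x))` for `x ≥ 0` (equivalent to `2x ≤ e^x - e^{-x}`, i.e. `x ≤ sinh x`: `Real.self_le_sinh_iff`).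
`sum_exp_le`: `hasSum_hk` at `x = 0` (`ch p 0 = 1`), real parts: `∑ exp(-s ksq p) = hk s 0`, the term `p = 0` is `1`.
`sum_bet_le`: `∑_{p∈S} bet t p ≤ 2 ∫₀^t s ∑_{p∈S, p≠0} e^{-s ksq p} ds ≤ 2 ∫₀^t s C s^{-3/2} ds = 4 C √t` (`hk_sub_one_le`; `∫₀^t s^{-1/2} = 2√t`,
`integral_rpow`).
`sum_statement`: `‖fc3 h p‖ ≤ ∫|h| = H` (`norm_fc3_le`); `alp t p ≤ t` and `parseval3_sq` for the first summability; `summable_of_sum_le` and
`sum_bet_le` for the second.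
-/

set_option autoImplicit false
set_option linter.unusedSectionVars false
set_option linter.unusedVariables false
open MeasureTheory Function Filter Topology Set ComplexConjugate

namespace Pool.Agent.Lib.MP_4952d6_mp.LB

lemma ChgS_elem {x : ℝ} (hx : 0 ≤ x) :
    (1 - Real.exp (-x)) ^ 2 ≤ 2 * (1 - (1 + x) * Real.exp (-x)) := by
  have h1 := Real.self_le_sinh_iff.2 hx
  rw [Real.sinh_eq] at h1
  have h2 : Real.exp x * Real.exp (-x) = 1 := by rw [← Real.exp_add]; simp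
  have h3 : 0 < Real.exp (-x) := Real.exp_pos _
  nlinarith [mul_le_mul_of_nonneg_right h1 h3.le]

lemma ChgS_integral {q : ℝ} (hq : 0 < q) (t : ℝ) :
    ∫ s in (0:ℝ)..t, s * Real.exp (-(s * q)) = (1 - (1 + t * q) * Real.exp (-(t * q))) / q ^ 2 := by
  have hd : ∀ s ∈ uIcc (0:ℝ) t, HasDerivAt (fun s => -((s / q + 1 / q ^ 2) * Real.exp (-(s * q))))
      (s * Real.exp (-(s * q))) s := by
    intro s _
    have h1 : HasDerivAt (fun s : ℝ => Real.exp (-(s * q))) (Real.exp (-(s * q)) * (-(1 * q))) s :=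
      (((hasDerivAt_id s).mul_const q).neg).exp
    have h2 : HasDerivAt (fun s : ℝ => s / q + 1 / q ^ 2) (1 / q) s :=
      ((hasDerivAt_id s).div_const q).add_const _
    have h3 := (h2.mul h1).neg
    have h4 : s * Real.exp (-(s * q)) = -(1 / q * Real.exp (-(s * q))
        + (s / q + 1 / q ^ 2) * (Real.exp (-(s * q)) * (-(1 * q)))) := by
      field_simp
      ring
    rw [h4]
    exact h3
  rw [intervalIntegral.integral_eq_sub_of_hasDerivAt hd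
    (Continuous.intervalIntegrable (by fun_prop) _ _)]
  simp only [zero_div, zero_mul, neg_zero, Real.exp_zero]
  field_simp
  ring

lemma bet_le_integral {t : ℝ} (ht : 0 < t) {p : Fin 3 → ℤ} (hp : p ≠ 0) :
    bet t p ≤ 2 * ∫ s in (0:ℝ)..t, s * Real.exp (-(s * ksq p)) := by
  have hq := ksq_pos hp
  rw [ChgS_integral hq]
  have h1 : bet t p = ((1 - et t p ^ 2) / ksq p) ^ 2 := by simp [bet, hp]
  have h2 : et t p ^ 2 = Real.exp (-(t * ksq p)) := by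
    unfold et
    rw [← Real.exp_nat_mul]
    congr 1
    push_cast
    ring
  rw [h1, h2, div_pow, ← mul_div_assoc]
  exact div_le_div_of_nonneg_right (ChgS_elem (mul_pos ht hq).le) (sq_nonneg _)

lemma ChgS_ch_arg_zero (p : Fin 3 → ℤ) : ch p 0 = 1 := by
  have h1 : ch p 0 * ch p 0 = ch p 0 * 1 := by
    rw [← ch_add_arg, add_zero, mul_one]
  have h2 : ch p 0 ≠ 0 := fun h => by have := ch_norm p 0; rw [h] at this; simp at this
  exact mul_left_cancel₀ h2 h1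

lemma sum_exp_le {s : ℝ} (hs : 0 < s) (S : Finset (Fin 3 → ℤ)) (hS : (0 : Fin 3 → ℤ) ∉ S) :
    ∑ p ∈ S, Real.exp (-(s * ksq p)) ≤ hk s 0 - 1 := by
  have h1 := hasSum_hk hs 0
  simp only [ChgS_ch_arg_zero, mul_one] at h1
  have h2 : HasSum (fun p : Fin 3 → ℤ => Real.exp (-(s * ksq p))) (hk s 0) :=
    Complex.hasSum_ofReal.1 h1
  have h3 := sum_le_hasSum (insert 0 S) (fun p _ => (Real.exp_pos _).le) h2
  rw [Finset.sum_insert hS, ksq_zero, mul_zero, neg_zero, Real.exp_zero] at h3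
  linarith

theorem sum_bet_le : ∃ C : ℝ, 0 ≤ C ∧ ∀ (t : ℝ) (S : Finset (Fin 3 → ℤ)), 0 < t → t ≤ 1 →
    ∑ p ∈ S, bet t p ≤ C * Real.sqrt t := by
  obtain ⟨C, hC0, hC⟩ := hk_sub_one_le
  refine ⟨4 * C, by linarith, fun t S ht ht1 => ?_⟩
  have h0 : ∑ p ∈ S, bet t p = ∑ p ∈ S.erase 0, bet t p := by
    symm
    apply Finset.sum_erase
    simp [bet]
  rw [h0]
  have h1 : ∑ p ∈ S.erase 0, bet t p
      ≤ ∑ p ∈ S.erase 0, 2 * ∫ s in (0:ℝ)..t, s * Real.exp (-(s * ksq p)) :=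
    Finset.sum_le_sum fun p hp => bet_le_integral ht (Finset.ne_of_mem_erase hp)
  have h2 : ∑ p ∈ S.erase 0, 2 * ∫ s in (0:ℝ)..t, s * Real.exp (-(s * ksq p))
      = 2 * ∫ s in (0:ℝ)..t, s * ∑ p ∈ S.erase 0, Real.exp (-(s * ksq p)) := by
    rw [← Finset.mul_sum]
    congr 1
    simp_rw [Finset.mul_sum]
    rw [intervalIntegral.integral_finsetSum]
    intro p _
    exact Continuous.intervalIntegrable (by fun_prop) _ _
  have h3 : ∫ s in (0:ℝ)..t, s * ∑ p ∈ S.erase 0, Real.exp (-(s * ksq p))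
      ≤ ∫ s in (0:ℝ)..t, C * s ^ (-(1 / 2) : ℝ) := by
    refine intervalIntegral.integral_mono_on_of_le_Ioo ht.le ?_ ?_ ?_
    · exact Continuous.intervalIntegrable (by fun_prop) _ _
    · exact (intervalIntegral.intervalIntegrable_rpow' (by norm_num)).const_mul C
    · intro s hs
      have h4 := sum_exp_le hs.1 (S.erase 0) (Finset.notMem_erase _ _)
      have h5 := (le_abs_self _).trans (hC s hs.1 0)
      have h6 : s * (C * (Real.sqrt s)⁻¹ ^ 3) = C * s ^ (-(1 / 2) : ℝ) := by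
        rw [Real.rpow_neg hs.1.le, ← Real.sqrt_eq_rpow]
        have h7 : Real.sqrt s ≠ 0 := (Real.sqrt_pos.2 hs.1).ne'
        have h8 : s = Real.sqrt s ^ 2 := (Real.sq_sqrt hs.1.le).symm
        calc s * (C * (Real.sqrt s)⁻¹ ^ 3) = Real.sqrt s ^ 2 * (C * (Real.sqrt s)⁻¹ ^ 3) := by
              rw [← h8]
          _ = C * (Real.sqrt s)⁻¹ := by field_simp
      rw [← h6]
      exact mul_le_mul_of_nonneg_left (h4.trans h5) hs.1.le
  have h4 : ∫ s in (0:ℝ)..t, C * s ^ (-(1 / 2) : ℝ) = C * (2 * Real.sqrt t) := by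
    rw [intervalIntegral.integral_const_mul, integral_rpow (Or.inl (by norm_num))]
    congr 1
    have h5 : (-(1 / 2) : ℝ) + 1 = 1 / 2 := by norm_num
    rw [h5, Real.zero_rpow (by norm_num), sub_zero, ← Real.sqrt_eq_rpow]
    ring
  calc ∑ p ∈ S.erase 0, bet t p
      ≤ 2 * ∫ s in (0:ℝ)..t, s * ∑ p ∈ S.erase 0, Real.exp (-(s * ksq p)) := h1.trans h2.le
    _ ≤ 2 * (C * (2 * Real.sqrt t)) := by
        rw [← h4]
        exact mul_le_mul_of_nonneg_left h3 (by norm_num)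
    _ = 4 * C * Real.sqrt t := by ring

theorem sum_statement : SumStatement := by
  obtain ⟨C, hC0, hC⟩ := sum_bet_le
  refine ⟨C, hC0, fun t H R h ht ht1 hh => ?_⟩
  have hfc : ∀ p, ‖fc3 (fun y => (h y : ℂ)) p‖ ≤ H := by
    intro p
    refine (norm_fc3_le p).trans (le_of_eq ?_)
    rw [← hh.int]
    congr 1
    funext y
    exact abs_of_nonneg (hh.nonneg y)
  have hH : 0 ≤ H := (norm_nonneg _).trans (hfc 0)
  have hmem : MemLp (fun y => (h y : ℂ)) 2 lam3 := by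
    obtain ⟨D, hD0, hD⟩ := hh.bm.exists_nonneg_bound
    refine MemLp.of_bound (Complex.measurable_ofReal.comp hh.bm.1).aestronglyMeasurable D
      (Filter.Eventually.of_forall fun y => ?_)
    rw [Complex.norm_real, Real.norm_eq_abs]
    exact hD y
  have hs : Summable fun p => ‖fc3 (fun y => (h y : ℂ)) p‖ ^ 2 := (parseval3_sq hmem).summable
  have hb : Summable fun p => bet t p * ‖fc3 (fun y => (h y : ℂ)) p‖ ^ 2 :=
    Summable.of_nonneg_of_le (fun p => mul_nonneg (bet_nonneg t p) (sq_nonneg _))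
      (fun p => mul_le_mul_of_nonneg_right (bet_le ht.le p) (sq_nonneg _)) (hs.mul_left (t ^ 2))
  refine ⟨?_, hb, hfc, ?_⟩
  · exact Summable.of_nonneg_of_le (fun p => mul_nonneg (alp_nonneg ht.le p) (sq_nonneg _))
      (fun p => mul_le_mul_of_nonneg_right (alp_le ht.le p) (sq_nonneg _)) (hs.mul_left t)
  · refine hb.tsum_le_of_sum_le fun S => ?_
    calc ∑ p ∈ S, bet t p * ‖fc3 (fun y => (h y : ℂ)) p‖ ^ 2
        ≤ ∑ p ∈ S, bet t p * H ^ 2 := by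
          refine Finset.sum_le_sum fun p _ => ?_
          exact mul_le_mul_of_nonneg_left (pow_le_pow_left₀ (norm_nonneg _) (hfc p) 2)
            (bet_nonneg t p)
      _ = (∑ p ∈ S, bet t p) * H ^ 2 := by rw [Finset.sum_mul]
      _ ≤ (C * Real.sqrt t) * H ^ 2 := mul_le_mul_of_nonneg_right (hC t S ht ht1) (sq_nonneg _)
      _ = C * H ^ 2 * Real.sqrt t := by ring

end Pool.Agent.Lib.MP_4952d6_mp.LB

end

/-! ### EU.JVal -/

section

/-!
# The value of the Lee-Huang-Yang integral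

`Jf 0 = 512 √π / 15 = 4 π · 128 / (15 √π)`. With `q = 16 π` and `t = √(r² + q) - r` the integrand is
`t² (2 q - t²) / 8`, the derivative of `t⁵ / 80 - q t³ / 48 - q² t / 8`.
-/

set_option autoImplicit false
open MeasureTheory Function Filter Topology Set

namespace Pool.Agent.Lib.MP_4952d6_mp

private noncomputable def tq (q r : ℝ) : ℝ := Real.sqrt (r ^ 2 + q) - r

private noncomputable def Fq (q r : ℝ) : ℝ :=
  tq q r ^ 5 / 80 - q * tq q r ^ 3 / 48 - q ^ 2 * tq q r / 8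

private lemma tq_tendsto {q : ℝ} (hq : 0 < q) : Tendsto (tq q) atTop (𝓝 0) := by
  have h1 : ∀ᶠ r : ℝ in atTop, tq q r ≤ q / r := by
    filter_upwards [eventually_gt_atTop (0:ℝ)] with r hr
    have hs := Real.sqrt_nonneg (r ^ 2 + q)
    have hs2 := Real.sq_sqrt (show 0 ≤ r ^ 2 + q by positivity)
    unfold tq
    rw [le_div_iff₀ hr]
    have h2 : r ≤ Real.sqrt (r ^ 2 + q) := Real.le_sqrt_of_sq_le (by linarith)
    nlinarith
  have h2 : ∀ᶠ r : ℝ in atTop, 0 ≤ tq q r := by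
    filter_upwards [eventually_gt_atTop (0:ℝ)] with r hr
    unfold tq
    have h2 : r ≤ Real.sqrt (r ^ 2 + q) := Real.le_sqrt_of_sq_le (by linarith)
    linarith
  have h3 : Tendsto (fun r : ℝ => q / r) atTop (𝓝 0) := tendsto_const_nhds.div_atTop tendsto_id
  exact tendsto_of_tendsto_of_tendsto_of_le_of_le' tendsto_const_nhds h3 h2 h1

private lemma Fq_deriv {q : ℝ} (hq : 0 < q) {r : ℝ} (hr : 0 < r) :
    HasDerivAt (Fq q) (r ^ 3 * Real.sqrt (r ^ 2 + q) - r ^ 4 - q * r ^ 2 / 2 + q ^ 2 / 8) r := by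
  have hs : 0 < Real.sqrt (r ^ 2 + q) := Real.sqrt_pos.2 (by positivity)
  have hs2 := Real.sq_sqrt (show 0 ≤ r ^ 2 + q by positivity)
  have h1 : HasDerivAt (fun r : ℝ => r ^ 2 + q) (2 * r) r := by
    have := (hasDerivAt_pow 2 r).add_const q
    simpa using this
  have h2 : HasDerivAt (fun r : ℝ => Real.sqrt (r ^ 2 + q)) (2 * r / (2 * Real.sqrt (r ^ 2 + q))) r :=
    h1.sqrt (by positivity)
  have h3 : HasDerivAt (tq q) (2 * r / (2 * Real.sqrt (r ^ 2 + q)) - 1) r := h2.sub (hasDerivAt_id r)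
  have h4 : HasDerivAt (Fq q)
      ((((5:ℕ):ℝ) * tq q r ^ 4 * (2 * r / (2 * Real.sqrt (r ^ 2 + q)) - 1)) / 80
        - q * (((3:ℕ):ℝ) * tq q r ^ 2 * (2 * r / (2 * Real.sqrt (r ^ 2 + q)) - 1)) / 48
        - q ^ 2 * (2 * r / (2 * Real.sqrt (r ^ 2 + q)) - 1) / 8) r :=
    (((h3.pow 5).div_const 80).sub (((h3.pow 3).const_mul q).div_const 48)).sub
      ((h3.const_mul (q ^ 2)).div_const 8)
  convert h4 using 1
  set s := Real.sqrt (r ^ 2 + q) with hsdef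
  have ht : tq q r = s - r := rfl
  have hq' : q = s ^ 2 - r ^ 2 := by linarith
  rw [ht, hq']
  field_simp
  push_cast
  ring

private lemma Fq_zero {q : ℝ} (hq : 0 < q) : Fq q 0 = -(2 / 15 * Real.sqrt q ^ 5) := by
  have h2 := Real.sq_sqrt hq.le
  have ht : tq q 0 = Real.sqrt q := by unfold tq; simp
  unfold Fq
  rw [ht]
  have e : q = Real.sqrt q ^ 2 := h2.symm
  set s := Real.sqrt q
  rw [e]
  ring

private lemma Fq_integral {q : ℝ} (hq : 0 < q) :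
    ∫ r in Ioi (0:ℝ), (r ^ 3 * Real.sqrt (r ^ 2 + q) - r ^ 4 - q * r ^ 2 / 2 + q ^ 2 / 8)
      = 2 / 15 * Real.sqrt q ^ 5 := by
  have hlim : Tendsto (Fq q) atTop (𝓝 0) := by
    have h := tq_tendsto hq
    have h1 : Tendsto (Fq q) atTop (𝓝 (0 ^ 5 / 80 - q * 0 ^ 3 / 48 - q ^ 2 * 0 / 8)) :=
      (((h.pow 5).div_const 80).sub (((h.pow 3).const_mul q).div_const 48)).sub
        ((h.const_mul (q ^ 2)).div_const 8)
    simpa using h1
  have hcont : ContinuousWithinAt (Fq q) (Ici 0) 0 := by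
    have : Continuous (Fq q) := by unfold Fq tq; fun_prop
    exact this.continuousWithinAt
  have h := integral_Ioi_of_hasDerivAt_of_nonneg hcont (fun r hr => Fq_deriv hq hr) (fun r hr => ?_) hlim
  · rw [h, Fq_zero hq]; ring
  · have hr0 : (0:ℝ) < r := hr
    have hs : 0 < Real.sqrt (r ^ 2 + q) := Real.sqrt_pos.2 (by positivity)
    have hs2 := Real.sq_sqrt (show 0 ≤ r ^ 2 + q by positivity)
    set s := Real.sqrt (r ^ 2 + q) with hsdef
    have hrs : r ≤ s := Real.le_sqrt_of_sq_le (by linarith)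
    have hq' : q = s ^ 2 - r ^ 2 := by linarith
    have e : r ^ 3 * s - r ^ 4 - q * r ^ 2 / 2 + q ^ 2 / 8
        = (s - r) ^ 3 * (s + 3 * r) / 8 := by
      rw [hq']; ring
    rw [e]
    have : 0 ≤ s - r := by linarith
    positivity

/-- **The Lee-Huang-Yang constant.** -/
theorem Jf_zero_eq : Jf 0 = 512 * Real.sqrt Real.pi / 15 := by
  have hπ := Real.pi_pos
  have h1 : ∫ r in Ioi (0:ℝ), r ^ 2 * jInt 0 r
      = ∫ r in Ioi (0:ℝ), (r ^ 3 * Real.sqrt (r ^ 2 + 16 * Real.pi) - r ^ 4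
        - 16 * Real.pi * r ^ 2 / 2 + (16 * Real.pi) ^ 2 / 8) := by
    refine setIntegral_congr_fun measurableSet_Ioi fun r hr => ?_
    have hr0 : (0:ℝ) < r := hr
    have h2 : Real.sqrt ((r ^ 2 + 0) ^ 2 + 16 * Real.pi * (r ^ 2 + 0))
        = r * Real.sqrt (r ^ 2 + 16 * Real.pi) := by
      rw [show (r ^ 2 + 0) ^ 2 + 16 * Real.pi * (r ^ 2 + 0) = r ^ 2 * (r ^ 2 + 16 * Real.pi) by ring,
        Real.sqrt_mul (sq_nonneg r), Real.sqrt_sq hr0.le]
    simp only [jInt]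
    rw [h2]
    field_simp
    ring
  unfold Jf
  rw [h1, Fq_integral (by positivity)]
  have h3 : Real.sqrt (16 * Real.pi) = 4 * Real.sqrt Real.pi := by
    rw [Real.sqrt_mul (by norm_num), show (16:ℝ) = 4 ^ 2 by norm_num, Real.sqrt_sq (by norm_num)]
  rw [h3]
  have h4 : Real.sqrt Real.pi ^ 2 = Real.pi := Real.sq_sqrt hπ.le
  have h5 : (4 * Real.sqrt Real.pi) ^ 5 = 1024 * Real.pi ^ 2 * Real.sqrt Real.pi := by
    calc (4 * Real.sqrt Real.pi) ^ 5 = 1024 * (Real.sqrt Real.pi ^ 2) ^ 2 * Real.sqrt Real.pi := by ring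
      _ = _ := by rw [h4]
  rw [h5]
  field_simp
  ring

end Pool.Agent.Lib.MP_4952d6_mp

end

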