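import Pool.Agent.Lib.MP_4952d6_mp.Pk.G50

/-! Merged modules (to save import time): LA.B1, LA.B2a, LA.B2, LA.B3, LA.B4. -/

/-! ### LA.B1 -/

section

/-!
# JOB LA-B1b: weak derivatives of the correlation factor (deliver as MP_4952d6_mp_LA_B1.lean)

* `Az_WDN`: `JData.hf.rad_WD` gives `WD lam3 (tau α) (fun y => f (rr y)) (grad g α)`; for the pair `(0, l+1)` and the direction `(0, α)` use `WD.comp` with
  `φ z = z 0 - z l.succ` (`mp_diff`), for the direction `(j+1, α)` use `f (rr (y - x)) = f (rr (x - y))` (`rr_neg`), `φ z = z j.succ - z 0`, and `grad g α (-y) = - grad g α y`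
  a.e. (`crd (-y) = - crd y` unless `crd y = 1/2`; `crd_neg`-type lemmas may be in Radial.lean; if not, prove the a.e. statement: the set `crd y α = 1/2` is null);
  all other factors are invariant (`WD.of_invariant`); product: `WD.finset_prod`; `WD.congr`.  (`AA`, `AAj`, `AA0`, `Az`, `Az'` are defined in B0.)
-/

set_option autoImplicit false
set_option linter.unusedSectionVars false
set_option linter.unusedVariables false
open MeasureTheory Function Filter Topology Set ComplexConjugate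
open scoped ENNReal

namespace Pool.Agent.Lib.MP_4952d6_mp.LA

theorem B1_grad_neg {b : ℝ} {f g k1 : ℝ → ℝ} (hJ : JData b f g k1) (α : Fin 3) (y : T3) :
    JData.grad g α (-y) = -JData.grad g α y := by
  unfold JData.grad
  rw [rr_neg]
  rcases lt_or_ge (rr y) (1 / 2) with h | h
  · have h1 : crd (-y) α = -crd y α := by
      have h2 := abs_lt.1 ((abs_crd_le_rr y α).trans_lt h)
      refine crd_eq_of ⟨by linarith [h2.2], by linarith [h2.1]⟩ ?_
      rw [AddCircle.coe_neg, coe_crd y α]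
      rfl
    rw [h1, mul_neg]
  · rw [hJ.hf.zero _ (hJ.hf.b_lt.le.trans h)]
    simp

theorem Az_WDN {n : ℕ} {b : ℝ} {f g k1 : ℝ → ℝ} (hJ : JData b f g k1) :
    WDN (Az f : (Fin (n + 1) → T3) → ℝ) (Az' f g) := by
  intro i α
  have hne : ∀ l : Fin n, (0 : Fin (n + 1)) ≠ l.succ := fun l => (Fin.succ_ne_zero l).symm
  have hAz : (Az f : (Fin (n + 1) → T3) → ℝ) = fun z => ∏ l : Fin n, f (rr (z 0 - z l.succ)) := rfl
  refine Fin.cases ?_ (fun j => ?_) i
  · -- the new particle moves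
    have w : ∀ l ∈ (Finset.univ : Finset (Fin n)), WD (piN (Fin (n + 1))) (tauN 0 α)
        (fun z : Fin (n + 1) → T3 => f (rr (z 0 - z l.succ)))
        (fun z => JData.grad g α (z 0 - z l.succ)) := by
      intro l _
      refine (hJ.hf.rad_WD α).comp (tauN_zero 0 α) (mp_diff (hne l)) fun x t => ?_
      simp only [Pi.add_apply, tauN, Pi.single_eq_same, Pi.single_eq_of_ne (hne l).symm]
      abel
    have w1 := WD.finset_prod Finset.univ (tauN_zero 0 α) w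
    rw [hAz]
    exact w1
  · -- an old particle moves
    have w : ∀ l ∈ (Finset.univ : Finset (Fin n)), WD (piN (Fin (n + 1))) (tauN j.succ α)
        (fun z : Fin (n + 1) → T3 => f (rr (z 0 - z l.succ)))
        (fun z => if l = j then -JData.grad g α (z 0 - z l.succ) else 0) := by
      intro l _
      by_cases hl : l = j
      · subst hl
        have w0 : WD (piN (Fin (n + 1))) (tauN l.succ α)
            (fun z : Fin (n + 1) → T3 => f (rr (z l.succ - z 0)))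
            (fun z => JData.grad g α (z l.succ - z 0)) := by
          refine (hJ.hf.rad_WD α).comp (tauN_zero l.succ α) (mp_diff (hne l).symm) fun x t => ?_
          simp only [Pi.add_apply, tauN, Pi.single_eq_same, Pi.single_eq_of_ne (hne l)]
          abel
        have e1 : (fun z : Fin (n + 1) → T3 => f (rr (z l.succ - z 0)))
            = fun z => f (rr (z 0 - z l.succ)) := by
          funext z
          rw [← neg_sub, rr_neg]
        have e2 : (fun z : Fin (n + 1) → T3 => JData.grad g α (z l.succ - z 0))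
            = fun z => if l = l then -JData.grad g α (z 0 - z l.succ) else 0 := by
          funext z
          rw [if_pos rfl, ← B1_grad_neg hJ, neg_sub]
        rw [e1, e2] at w0
        exact w0
      · have e2 : (fun z : Fin (n + 1) → T3 => if l = j then -JData.grad g α (z 0 - z l.succ) else 0)
            = fun _ => (0 : ℝ) := by
          funext z
          rw [if_neg hl]
        rw [e2]
        have mdiff : Measurable (fun z : Fin (n + 1) → T3 => z 0 - z l.succ) :=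
          measurable_sub' (measurable_pi_apply 0) (measurable_pi_apply l.succ)
        refine WD.of_invariant (tauN_zero j.succ α)
          ((hJ.hf.continuous.measurable.comp rr_measurable).comp mdiff).stronglyMeasurable
          ?_ fun x t => ?_
        · exact hJ.hf.bdd.imp fun C hC x => hC _
        · have h1 : l.succ ≠ j.succ := fun h => hl (Fin.succ_injective _ h)
          simp only [Pi.add_apply, tauN, Pi.single_eq_of_ne h1, Pi.single_eq_of_ne (hne j), add_zero]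
    have w1 := WD.finset_prod Finset.univ (tauN_zero j.succ α) w
    rw [hAz]
    have e : (fun z : Fin (n + 1) → T3 => ∑ l : Fin n,
        (if l = j then -JData.grad g α (z 0 - z l.succ) else 0)
          * ∏ m ∈ Finset.univ.erase l, f (rr (z 0 - z m.succ)))
        = Az' f g j.succ α := by
      funext z
      rw [Finset.sum_eq_single j]
      · rw [if_pos rfl]
        show _ = AAj f g j α (z 0) (tl z)
        unfold AAj tl
        rw [neg_mul]
      · intro l _ hl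
        rw [if_neg hl, zero_mul]
      · intro h
        exact absurd (Finset.mem_univ j) h
    rw [e] at w1
    exact w1

end Pool.Agent.Lib.MP_4952d6_mp.LA

end

/-! ### LA.B2a -/

section

/-!
# JOB LA-B2a: the averaged correlation factor, bounds

* `AA_bm`: `AA`, `AAj`, `AA0` are bounded measurable functions of `(y, x)` (`JData.f_bm`, `grad_bm`, `BM.finset_prod`, `BM.comp`).
* `GA_bounds`: `AA ≤ 1`; `1 - ∑ (1 - f²) ≤ ∏ f²` (`one_sub_sum_le_prod`), `∫ (1 - f (rr (y - x))²) dy = ∫ (1 - f (rr y)²) dy`.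
-/

set_option autoImplicit false
set_option linter.unusedSectionVars false
set_option linter.unusedVariables false
open MeasureTheory Function Filter Topology Set ComplexConjugate
open scoped ENNReal

namespace Pool.Agent.Lib.MP_4952d6_mp.LA

theorem B2a_mf {n : ℕ} (j : Fin n) :
    Measurable (fun q : T3 × (Fin n → T3) => q.1 - q.2 j) :=
  measurable_sub' measurable_fst ((measurable_pi_apply j).comp measurable_snd)

theorem AA_bm {n : ℕ} {b : ℝ} {f g k1 : ℝ → ℝ} (hJ : JData b f g k1) :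
    BM (fun q : T3 × (Fin n → T3) => AA f q.1 q.2) ∧
    (∀ j α, BM (fun q : T3 × (Fin n → T3) => AAj f g j α q.1 q.2)) ∧
    (∀ α, BM (fun q : T3 × (Fin n → T3) => AA0 f g α q.1 q.2)) := by
  have hf : ∀ j : Fin n, BM (fun q : T3 × (Fin n → T3) => f (rr (q.1 - q.2 j))) :=
    fun j => hJ.f_bm.comp (B2a_mf j)
  have hg : ∀ (j : Fin n) (α : Fin 3),
      BM (fun q : T3 × (Fin n → T3) => JData.grad g α (q.1 - q.2 j)) :=
    fun j α => (hJ.grad_bm α).comp (B2a_mf j)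
  refine ⟨?_, fun j α => ?_, fun α => ?_⟩
  · unfold AA
    exact BM.finset_prod _ fun j _ => hf j
  · unfold AAj
    exact ((hg j α).mul (BM.finset_prod _ fun m _ => hf m)).neg
  · unfold AA0
    exact BM.finset_sum _ fun l _ => (hg l α).mul (BM.finset_prod _ fun m _ => hf m)

theorem GA_bounds {n : ℕ} {b : ℝ} {f g k1 : ℝ → ℝ} (hJ : JData b f g k1) (x : Fin n → T3) :
    0 ≤ GA f x ∧ GA f x ≤ 1 ∧ 1 - (n : ℝ) * ∫ y, (1 - f (rr y) ^ 2) ∂lam3 ≤ GA f x := by
  have hms : ∀ w : T3, Measurable (fun y : T3 => y - w) := fun w =>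
    measurable_sub' measurable_id measurable_const
  have hf : ∀ j : Fin n, BM (fun y : T3 => f (rr (y - x j))) := fun j => hJ.f_bm.comp (hms (x j))
  have hA : BM (fun y : T3 => AA f y x ^ 2) := by
    unfold AA
    exact (BM.finset_prod _ fun j _ => hf j).pow 2
  have hA0 : ∀ y, 0 ≤ AA f y x := fun y => Finset.prod_nonneg fun j _ => hJ.f_nonneg _
  have hA1 : ∀ y, AA f y x ≤ 1 := fun y =>
    Finset.prod_le_one (fun j _ => hJ.f_nonneg _) fun j _ => hJ.f_le_one _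
  refine ⟨integral_nonneg fun y => sq_nonneg _, ?_, ?_⟩
  · unfold GA
    have h1 : ∫ y, AA f y x ^ 2 ∂lam3 ≤ ∫ _, (1 : ℝ) ∂lam3 :=
      integral_mono (hA.integrable _) ((BM.const 1).integrable _)
        fun y => pow_le_one₀ (hA0 y) (hA1 y)
    simpa using h1
  · unfold GA
    have hb : ∀ j : Fin n, BM (fun y : T3 => 1 - f (rr (y - x j)) ^ 2) := fun j =>
      (BM.const 1).sub ((hf j).pow 2)
    have hB : BM (fun y : T3 => 1 - ∑ j : Fin n, (1 - f (rr (y - x j)) ^ 2)) :=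
      (BM.const 1).sub (BM.finset_sum _ fun j _ => hb j)
    have h1 : ∫ y, (1 - ∑ j : Fin n, (1 - f (rr (y - x j)) ^ 2)) ∂lam3
        ≤ ∫ y, AA f y x ^ 2 ∂lam3 := by
      refine integral_mono (hB.integrable _) (hA.integrable _) fun y => ?_
      have h2 := one_sub_sum_le_prod (Finset.univ : Finset (Fin n))
        (fun j => f (rr (y - x j)) ^ 2) (fun j _ => sq_nonneg _)
        (fun j _ => pow_le_one₀ (hJ.f_nonneg _) (hJ.f_le_one _))
      refine h2.trans (le_of_eq ?_)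
      unfold AA
      rw [Finset.prod_pow]
    refine le_trans (le_of_eq ?_) h1
    rw [integral_sub ((BM.const 1).integrable _)
      ((BM.finset_sum _ fun j _ => hb j).integrable _),
      integral_finsetSum _ (fun j _ => (hb j).integrable _)]
    have h3 : ∀ j : Fin n, ∫ y, (1 - f (rr (y - x j)) ^ 2) ∂lam3
        = ∫ y, (1 - f (rr y) ^ 2) ∂lam3 := fun j =>
      integral_shift (fun y => 1 - f (rr y) ^ 2) (x j)
    rw [Finset.sum_congr rfl (fun j _ => h3 j), Finset.sum_const, Finset.card_univ,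
      Fintype.card_fin, nsmul_eq_mul]
    simp

end Pool.Agent.Lib.MP_4952d6_mp.LA

end

/-! ### LA.B2 -/

section

/-!
# JOB LA-B2b: the averaged correlation factor, weak derivatives (deliver as MP_4952d6_mp_LA_B2.lean)

* `GA_WDN`: `x ↦ ∫ A² dy` is bounded by `1` and measurable; Lipschitz along `tauN j α` (the function `t ↦ AA f y (x + tauN j α t) ^ 2` is Lipschitz uniformly in `x`, `y`:
  `WD.exists_lip` for `Az f` in the direction `(j.succ, α)`: `Fin.cons y (x + tauN j α t) = Fin.cons y x + tauN j.succ α t`), derivative: for a.e. `x`, for a.e. `y`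
  (`Measure.ae_ae_of_ae_prod` and `mp_cons`) the function is differentiable at `t = 0`, then `hasDerivAt_integral_of_dominated_loc_of_lip`.
-/

set_option autoImplicit false
set_option linter.unusedSectionVars false
set_option linter.unusedVariables false
open MeasureTheory Function Filter Topology Set ComplexConjugate
open scoped ENNReal

namespace Pool.Agent.Lib.MP_4952d6_mp.LA

lemma B2_tauN_add {ι : Type*} [DecidableEq ι] (i : ι) (α : Fin 3) (s t : ℝ) :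
    (tauN i α (s + t) : ι → T3) = tauN i α s + tauN i α t := by
  have h1 : tau α (s + t) = tau α s + tau α t := by
    unfold tau
    rw [AddCircle.coe_add, Pi.single_add]
  unfold tauN
  rw [h1, Pi.single_add]

lemma B2_cons_add {n : ℕ} (j : Fin n) (α : Fin 3) (y : T3) (x : Fin n → T3) (t : ℝ) :
    (Fin.cons y (x + tauN j α t) : Fin (n + 1) → T3) = (Fin.cons y x : Fin (n + 1) → T3) + tauN j.succ α t := by
  funext i
  refine Fin.cases ?_ (fun l => ?_) i
  · have h0 : (tauN j.succ α t : Fin (n + 1) → T3) 0 = 0 := by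
      unfold tauN
      exact Pi.single_eq_of_ne (Fin.succ_ne_zero j).symm _
    rw [Pi.add_apply, h0, Fin.cons_zero, Fin.cons_zero, add_zero]
  · rw [Pi.add_apply, Fin.cons_succ, Fin.cons_succ, Pi.add_apply]
    congr 1
    unfold tauN
    by_cases h : l = j
    · subst h
      rw [Pi.single_eq_same, Pi.single_eq_same]
    · rw [Pi.single_eq_of_ne h, Pi.single_eq_of_ne (fun h' => h (Fin.succ_injective _ h'))]

/-- averaging a weakly differentiable function over the new particle -/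
lemma B2_avg {n : ℕ} {j : Fin n} {α : Fin 3} {Φ Φ' : (Fin (n + 1) → T3) → ℝ}
    (h : WD (piN (Fin (n + 1))) (tauN j.succ α) Φ Φ') (hm : Measurable Φ') :
    WD (piN (Fin n)) (tauN j α) (fun x => ∫ y, Φ (Fin.cons y x) ∂lam3)
      (fun x => ∫ y, Φ' (Fin.cons y x) ∂lam3) := by
  have hmc := (mp_cons n).measurable
  have hswap : Measurable (fun q : (Fin n → T3) × T3 => (Fin.cons q.2 q.1 : Fin (n + 1) → T3)) :=
    hmc.comp measurable_swap
  obtain ⟨B, hB0, hB⟩ := h.exists_bdd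
  obtain ⟨C, hC0, hC⟩ := h.exists_lip
  have hyx : ∀ x : Fin n → T3, Measurable (fun y : T3 => (Fin.cons y x : Fin (n + 1) → T3)) :=
    fun x => hmc.comp (measurable_id.prodMk measurable_const)
  have hint : ∀ x : Fin n → T3, Integrable (fun y : T3 => Φ (Fin.cons y x)) lam3 := fun x =>
    Integrable.of_bound (h.sm.comp_measurable (hyx x)).aestronglyMeasurable B
      (Eventually.of_forall fun y => hB _)
  refine ⟨tauN_zero j α, ?_, ⟨B, fun x => ?_⟩, ⟨C, fun x t => ?_⟩, ?_⟩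
  · have h1 : StronglyMeasurable (uncurry fun (x : Fin n → T3) (y : T3) => Φ (Fin.cons y x)) :=
      h.sm.comp_measurable hswap
    exact h1.integral_prod_right
  · have := norm_integral_le_of_norm_le_const (μ := lam3) (f := fun y => Φ (Fin.cons y x)) (C := B)
      (Filter.Eventually.of_forall fun y => hB _)
    simpa using this
  · rw [← integral_sub (hint _) (hint _)]
    have := norm_integral_le_of_norm_le_const (μ := lam3)
      (f := fun y => Φ (Fin.cons y (x + tauN j α t)) - Φ (Fin.cons y x)) (C := C * |t|)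
      (Filter.Eventually.of_forall fun y => by rw [B2_cons_add]; exact hC _ _)
    simpa using this
  · have h1 : ∀ᵐ q ∂(lam3.prod (piN (Fin n))),
        HasDerivAt (fun t : ℝ => Φ ((Fin.cons q.1 q.2 : Fin (n + 1) → T3) + tauN j.succ α t))
          (Φ' (Fin.cons q.1 q.2)) 0 := (mp_cons n).quasiMeasurePreserving.ae h.deriv
    have h2 : ∀ᵐ q ∂((piN (Fin n)).prod lam3),
        HasDerivAt (fun t : ℝ => Φ ((Fin.cons q.2 q.1 : Fin (n + 1) → T3) + tauN j.succ α t))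
          (Φ' (Fin.cons q.2 q.1)) 0 :=
      (Measure.measurePreserving_swap (μ := piN (Fin n)) (ν := lam3)).quasiMeasurePreserving.ae h1
    have h3 := Measure.ae_ae_of_ae_prod h2
    filter_upwards [h3] with x hx
    have key := hasDerivAt_integral_of_dominated_loc_of_lip (μ := lam3)
      (F := fun (t : ℝ) (y : T3) => Φ (Fin.cons y (x + tauN j α t))) (x₀ := (0 : ℝ))
      (bound := fun _ => C) (F' := fun y => Φ' (Fin.cons y x)) (s := Set.univ) Filter.univ_mem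
      (Eventually.of_forall fun t => (hint _).aestronglyMeasurable) (hint _)
      (hm.comp (hyx x)).aestronglyMeasurable ?_ (integrable_const _) ?_
    · exact key.2
    · refine Eventually.of_forall fun y => ?_
      refine LipschitzOnWith.of_dist_le_mul fun t _ s _ => ?_
      have e1 : Fin.cons y (x + tauN j α t)
          = (Fin.cons y (x + tauN j α s) : Fin (n + 1) → T3) + tauN j.succ α (t - s) := by
        rw [B2_cons_add, B2_cons_add, add_assoc, ← B2_tauN_add]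
        congr 2
        ring
      rw [dist_eq_norm, dist_eq_norm, e1, Real.coe_nnabs, abs_of_nonneg hC0, Real.norm_eq_abs (t - s)]
      exact hC _ _
    · filter_upwards [hx] with y hy
      have e2 : (fun t : ℝ => Φ (Fin.cons y (x + tauN j α t)))
          = fun t : ℝ => Φ ((Fin.cons y x : Fin (n + 1) → T3) + tauN j.succ α t) := by
        funext t
        rw [B2_cons_add]
      show HasDerivAt (fun t : ℝ => Φ (Fin.cons y (x + tauN j α t))) (Φ' (Fin.cons y x)) 0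
      rw [e2]
      exact hy

lemma B2_tl_cons {n : ℕ} (y : T3) (x : Fin n → T3) : tl (Fin.cons y x : Fin (n + 1) → T3) = x := by
  funext l
  exact Fin.cons_succ (α := fun _ => T3) y x l

lemma B2_Az_cons {n : ℕ} (f : ℝ → ℝ) (y : T3) (x : Fin n → T3) :
    Az f (Fin.cons y x : Fin (n + 1) → T3) = AA f y x := by
  unfold Az
  rw [B2_tl_cons, Fin.cons_zero]

lemma B2_Az'_cons {n : ℕ} (f g : ℝ → ℝ) (j : Fin n) (α : Fin 3) (y : T3) (x : Fin n → T3) :
    Az' f g j.succ α (Fin.cons y x : Fin (n + 1) → T3) = AAj f g j α y x := by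
  unfold Az'
  rw [Fin.cases_succ, B2_tl_cons, Fin.cons_zero]

lemma B2_htl {n : ℕ} : Measurable (fun z : Fin (n + 1) → T3 => (z 0, tl z)) := by
  refine (measurable_pi_apply 0).prodMk ?_
  exact measurable_pi_lambda _ fun l => measurable_pi_apply l.succ

lemma B2_Az_meas {n : ℕ} {b : ℝ} {f g k1 : ℝ → ℝ} (hJ : JData b f g k1) :
    Measurable (fun z : Fin (n + 1) → T3 => Az f z) := by
  have b1 := (AA_bm (n := n) hJ).1.measurable
  have e : (fun z : Fin (n + 1) → T3 => Az f z)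
      = (fun q : T3 × (Fin n → T3) => AA f q.1 q.2) ∘ (fun z : Fin (n + 1) → T3 => (z 0, tl z)) := by
    funext z
    unfold Az
    rfl
  rw [e]
  exact b1.comp B2_htl

lemma B2_Az'_meas {n : ℕ} {b : ℝ} {f g k1 : ℝ → ℝ} (hJ : JData b f g k1) (j : Fin n) (α : Fin 3) :
    Measurable (fun z : Fin (n + 1) → T3 => Az' f g j.succ α z) := by
  have b1 := ((AA_bm (n := n) hJ).2.1 j α).measurable
  have e : (fun z : Fin (n + 1) → T3 => Az' f g j.succ α z)
      = (fun q : T3 × (Fin n → T3) => AAj f g j α q.1 q.2) ∘ (fun z : Fin (n + 1) → T3 => (z 0, tl z)) := by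
    funext z
    unfold Az'
    rw [Fin.cases_succ]
    rfl
  rw [e]
  exact b1.comp B2_htl

theorem GA_WDN {n : ℕ} {b : ℝ} {f g k1 : ℝ → ℝ} (hJ : JData b f g k1) :
    WDN (GA f : (Fin n → T3) → ℝ) (GA' f g) := by
  intro j α
  have hW := Az_WDN (n := n) hJ j.succ α
  have hW2 := hW.mul hW
  have m1 := B2_Az_meas (n := n) hJ
  have m2 := B2_Az'_meas (n := n) hJ j α
  have hA := B2_avg hW2 ((m2.mul m1).add (m1.mul m2))
  have e1 : (fun x : Fin n → T3 => ∫ y, Az f (Fin.cons y x : Fin (n + 1) → T3) * Az f (Fin.cons y x : Fin (n + 1) → T3) ∂lam3)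
      = GA f := by
    funext x
    unfold GA
    refine integral_congr_ae (Eventually.of_forall fun y => ?_)
    beta_reduce
    rw [B2_Az_cons, sq]
  have e2 : (fun x : Fin n → T3 => ∫ y, (Az' f g j.succ α (Fin.cons y x : Fin (n + 1) → T3) * Az f (Fin.cons y x : Fin (n + 1) → T3)
      + Az f (Fin.cons y x : Fin (n + 1) → T3) * Az' f g j.succ α (Fin.cons y x : Fin (n + 1) → T3)) ∂lam3) = GA' f g j α := by
    funext x
    unfold GA'
    refine integral_congr_ae (Eventually.of_forall fun y => ?_)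
    beta_reduce
    rw [B2_Az_cons, B2_Az'_cons]
    ring
  rw [← e1, ← e2]
  exact hA

end Pool.Agent.Lib.MP_4952d6_mp.LA

end

/-! ### LA.B3 -/

section

/-!
# JOB LA-B3: energy of the trial state with one more particle

`Ψ = mG (Az f) (ext χ)`, gradient `mGg (Az f) (Az' f g) (ext χ) (extg h)`.  Tonelli with `mp_cons`:
* old particles: `∫∫ ‖A h_j + A'_j χ‖² dy dx = ∫ (GA ‖h_j‖² + GA'_j Re (conj χ h_j)) + ∫ (∫ A'_j² dy) ‖χ‖²` (expand; `GA' = ∫ 2 A A'_j dy`), and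
  `∑_α A'_{j,α}² ≤ ∑_α grad² ≤ (g² rr²)(y - x_j)` (the other factors are `≤ 1`, `∑_α crd² = rr²`), so `∑_j ∑_α ∫ A'_j² dy ≤ n ∫ g² rr²`.
* new particle: `extg h 0 = 0`, `∑_α ∫ AA0² dy ≤ ∑_l ∫ |eff| oneB ≤ n ∫ |eff|` (`JData.one_body` with `S = univ`; `oneB_le_one`).
* potential: `potS 𝒱 univ z = potS 𝒱 univ (tl z) + ∑_j 𝒱 (z 0 - z j.succ)` (evenness), `𝒱 (y - x_j) A² ≤ 𝒱 (y - x_j) f(rr (y - x_j))²`, `∫⁻ dy = ∫⁻ 𝒱 f²` (translation invariance).
* `∫⁻ potS 𝒱 univ (tl z) A² ‖χ‖² = ∫⁻ potS 𝒱 univ x (ofReal (GA x)) ‖χ x‖ₑ²`.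
In reals: `eS 𝒱 univ Ψ = ofReal (bG 𝒱 χ h (GA f) (GA' f g)) + ...`, the first term being `≥ 0`.
-/

set_option autoImplicit false
set_option linter.unusedSectionVars false
set_option linter.unusedVariables false
open MeasureTheory Function Filter Topology Set ComplexConjugate
open scoped ENNReal

namespace Pool.Agent.Lib.MP_4952d6_mp.LA

theorem B3_mp (n : ℕ) : MeasurePreserving
    (fun z : Fin (n + 1) → T3 => (z 0, tl z)) (piN (Fin (n + 1))) (lam3.prod (piN (Fin n))) := by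
  have h := measurePreserving_piFinSuccAbove (fun _ : Fin (n + 1) => lam3) 0
  have e : (fun z : Fin (n + 1) → T3 => (z 0, tl z))
      = (MeasurableEquiv.piFinSuccAbove (fun _ : Fin (n + 1) => T3) 0) := by
    funext z
    rfl
  rw [e]
  exact h

/-- splitting of the integral -/
theorem B3_lint {n : ℕ} {F : T3 × (Fin n → T3) → ℝ≥0∞}
    (hF : AEMeasurable F (lam3.prod (piN (Fin n)))) :
    ∫⁻ z, F (z 0, tl z) ∂(piN (Fin (n + 1))) = ∫⁻ x, ∫⁻ y, F (y, x) ∂lam3 ∂(piN (Fin n)) := by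
  have h := B3_mp n
  have h1 : ∫⁻ z, F (z 0, tl z) ∂(piN (Fin (n + 1))) = ∫⁻ q, F q ∂(lam3.prod (piN (Fin n))) := by
    rw [← h.map_eq, lintegral_map' (by rwa [h.map_eq]) h.measurable.aemeasurable]
  rw [h1, lintegral_prod_symm _ hF]

theorem B3_en (r : ℝ) : ‖(r : ℂ)‖ₑ ^ 2 = ENNReal.ofReal (r ^ 2) := by
  rw [← ofReal_norm, Complex.norm_real, Real.norm_eq_abs, ← ENNReal.ofReal_pow (abs_nonneg r),
    sq_abs]

theorem B3_en2 (c : ℂ) : ‖c‖ₑ ^ 2 = ENNReal.ofReal (‖c‖ ^ 2) := by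
  rw [← ofReal_norm, ← ENNReal.ofReal_pow (norm_nonneg c)]

/-- translation invariance -/
theorem B3_shift (F : T3 → ℝ≥0∞) (w : T3) : ∫⁻ y, F (y - w) ∂lam3 = ∫⁻ y, F y ∂lam3 :=
  lintegral_sub_right_eq_self F w

theorem B3_snd {n : ℕ} {F : (Fin n → T3) → ℝ≥0∞} (hF : AEMeasurable F (piN (Fin n))) :
    AEMeasurable (fun q : T3 × (Fin n → T3) => F q.2) (lam3.prod (piN (Fin n))) :=
  hF.comp_quasiMeasurePreserving Measure.quasiMeasurePreserving_snd

theorem B3_diff {n : ℕ} (j : Fin n) : MeasurePreserving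
    (fun q : T3 × (Fin n → T3) => q.1 - q.2 j) (lam3.prod (piN (Fin n))) lam3 := by
  have h1 := (mp_diff (ι := Fin (n + 1)) (i := 0) (j := j.succ) (Fin.succ_ne_zero j).symm).comp
    (mp_cons n)
  have e : ((fun x : Fin (n + 1) → T3 => x 0 - x j.succ) ∘
      fun q : T3 × (Fin n → T3) => (Fin.cons q.1 q.2 : Fin (n + 1) → T3))
      = fun q : T3 × (Fin n → T3) => q.1 - q.2 j := by
    funext q
    simp only [Function.comp_apply, Fin.cons_zero, Fin.cons_succ]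
  rw [e] at h1
  exact h1

/-- the potential of `n + 1` particles -/
theorem B3_pot {n : ℕ} {𝒱 : T3 → ℝ≥0∞} (hev : ∀ y, 𝒱 (-y) = 𝒱 y) (z : Fin (n + 1) → T3) :
    potS 𝒱 Finset.univ z = potS 𝒱 Finset.univ (tl z) + ∑ j, 𝒱 (z 0 - z (Fin.succ j)) := by
  unfold potS
  have h2 : ∀ a : ℝ≥0∞, 2⁻¹ * (a + a) = a := by
    intro a
    rw [← two_mul, ← mul_assoc, ENNReal.inv_mul_cancel two_ne_zero ENNReal.ofNat_ne_top, one_mul]
  have e0 : ∑ j ∈ Finset.univ.erase (0 : Fin (n + 1)), 𝒱 (z 0 - z j)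
      = ∑ j : Fin n, 𝒱 (z 0 - z j.succ) := by
    have h := Fin.sum_univ_succ (fun j : Fin (n + 1) => if j = 0 then 0 else 𝒱 (z 0 - z j))
    rw [if_pos rfl, zero_add] at h
    have h3 : ∑ j : Fin (n + 1), (if j = 0 then 0 else 𝒱 (z 0 - z j))
        = ∑ j ∈ Finset.univ.erase (0 : Fin (n + 1)), 𝒱 (z 0 - z j) := by
      rw [← Finset.add_sum_erase _ _ (Finset.mem_univ (0 : Fin (n + 1))), if_pos rfl, zero_add]
      exact Finset.sum_congr rfl fun j hj => if_neg (Finset.ne_of_mem_erase hj)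
    rw [← h3, h]
    exact Finset.sum_congr rfl fun j _ => if_neg (Fin.succ_ne_zero j)
  have e1 : ∀ i : Fin n, ∑ j ∈ Finset.univ.erase (i.succ), 𝒱 (z i.succ - z j)
      = 𝒱 (z 0 - z i.succ) + ∑ j ∈ Finset.univ.erase i, 𝒱 (tl z i - tl z j) := by
    intro i
    have h := Fin.sum_univ_succ (fun j : Fin (n + 1) => if j = i.succ then 0 else 𝒱 (z i.succ - z j))
    rw [if_neg (Fin.succ_ne_zero i).symm] at h
    have h3 : ∑ j : Fin (n + 1), (if j = i.succ then 0 else 𝒱 (z i.succ - z j))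
        = ∑ j ∈ Finset.univ.erase (i.succ), 𝒱 (z i.succ - z j) := by
      rw [← Finset.add_sum_erase _ _ (Finset.mem_univ i.succ), if_pos rfl, zero_add]
      exact Finset.sum_congr rfl fun j hj => if_neg (Finset.ne_of_mem_erase hj)
    rw [← h3, h]
    congr 1
    · rw [← hev, neg_sub]
    · rw [← Finset.add_sum_erase _ _ (Finset.mem_univ i), if_pos rfl, zero_add]
      refine Finset.sum_congr rfl fun j hj => ?_
      rw [if_neg fun h => Finset.ne_of_mem_erase hj (Fin.succ_injective _ h)]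
      rfl
  rw [Fin.sum_univ_succ, e0, Finset.sum_congr rfl fun i _ => e1 i, Finset.sum_add_distrib,
    ← add_assoc, mul_add, h2, add_comm]

section B3

variable {n : ℕ} {b : ℝ} {f g k1 : ℝ → ℝ}

theorem B3_slice {κ : Type*} [MeasurableSpace κ] {F : T3 × κ → ℝ} (h : BM F) (x : κ) :
    BM (fun y => F (y, x)) := h.comp (measurable_id.prodMk measurable_const)

theorem B3_avg {F : T3 × (Fin n → T3) → ℝ} (h : BM F) :
    BM (fun x : Fin n → T3 => ∫ y, F (y, x) ∂lam3) :=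
  BM.integral_right (f := fun x y => F (y, x)) (h.comp measurable_swap) lam3

theorem B3_AA_nonneg (hJ : JData b f g k1) (y : T3) (x : Fin n → T3) : 0 ≤ AA f y x :=
  Finset.prod_nonneg fun j _ => hJ.f_nonneg _

theorem B3_AA_le_one (hJ : JData b f g k1) (y : T3) (x : Fin n → T3) : AA f y x ≤ 1 :=
  Finset.prod_le_one (fun j _ => hJ.f_nonneg _) fun j _ => hJ.f_le_one _

/-- the new particle: one body bound -/
theorem B3_AA0 (hJ : JData b f g k1) (x : Fin n → T3) :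
    ∑ α, ∫ y, AA0 f g α y x ^ 2 ∂lam3
      ≤ (n : ℝ) * ∫ y, |JData.eff f g k1 (rr y)| ∂lam3 := by
  obtain ⟨hA, hAj, hA0⟩ := AA_bm (n := n) hJ
  rw [← integral_finsetSum _ (fun α _ => ((B3_slice (hA0 α) x).pow 2).integrable _)]
  have h1 := hJ.one_body (Finset.univ : Finset (Fin n)) x
  have h2 : ∫ y, ∑ α, AA0 f g α y x ^ 2 ∂lam3 = ∑ l : Fin n, ∫ y, JData.eff f g k1 (rr (y - x l))
      * oneB (fun x => f (rr x) ^ 2) (Finset.univ.erase l) x y ∂lam3 := h1
  rw [h2]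
  have hms : ∀ w : T3, Measurable (fun y : T3 => y - w) := fun w =>
    measurable_sub' measurable_id measurable_const
  have h3 : ∀ l : Fin n, ∫ y, JData.eff f g k1 (rr (y - x l))
      * oneB (fun x => f (rr x) ^ 2) (Finset.univ.erase l) x y ∂lam3
      ≤ ∫ y, |JData.eff f g k1 (rr y)| ∂lam3 := by
    intro l
    have h4 : ∫ y, |JData.eff f g k1 (rr y)| ∂lam3
        = ∫ y, |JData.eff f g k1 (rr (y - x l))| ∂lam3 :=
      (integral_shift (fun y => |JData.eff f g k1 (rr y)|) (x l)).symm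
    rw [h4]
    have hb1 : BM (fun y : T3 => JData.eff f g k1 (rr (y - x l))) := hJ.eff_bm.comp (hms (x l))
    have hb2 : BM (fun y : T3 => oneB (fun x => f (rr x) ^ 2) (Finset.univ.erase l) x y) :=
      oneB_bm_right hJ.gasFn_sq (Finset.univ.erase l) x
    refine integral_mono ((hb1.mul hb2).integrable _) (hb1.abs.integrable _) fun y => ?_
    have h5 := oneB_nonneg hJ.gasFn_sq (Finset.univ.erase l) x y
    have h6 := oneB_le_one hJ.gasFn_sq (Finset.univ.erase l) x y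
    refine (le_abs_self _).trans ?_
    rw [abs_mul, abs_of_nonneg h5]
    exact mul_le_of_le_one_right (abs_nonneg _) h6
  refine (Finset.sum_le_sum fun l _ => h3 l).trans (le_of_eq ?_)
  rw [Finset.sum_const, Finset.card_univ, Fintype.card_fin, nsmul_eq_mul]

/-- the old particles: gradient of the correlation factor -/
theorem B3_AAj (hJ : JData b f g k1) (j : Fin n) (x : Fin n → T3) :
    ∑ α, ∫ y, AAj f g j α y x ^ 2 ∂lam3
      ≤ ∫ y, g (rr y) ^ 2 * rr y ^ 2 ∂lam3 := by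
  obtain ⟨hA, hAj, hA0⟩ := AA_bm (n := n) hJ
  have hms : ∀ w : T3, Measurable (fun y : T3 => y - w) := fun w =>
    measurable_sub' measurable_id measurable_const
  rw [← integral_finsetSum _ (fun α _ => ((B3_slice (hAj j α) x).pow 2).integrable _),
    ← integral_shift (fun y => g (rr y) ^ 2 * rr y ^ 2) (x j)]
  have hb : BM (fun y : T3 => g (rr (y - x j)) ^ 2 * rr (y - x j) ^ 2) :=
    ((hJ.g_bm.pow 2).mul (JData.rr_bm'.pow 2)).comp (hms (x j))
  have hs : BM (fun y : T3 => ∑ α, AAj f g j α y x ^ 2) :=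
    BM.finset_sum _ fun α _ => (B3_slice (hAj j α) x).pow 2
  refine integral_mono (hs.integrable _) (hb.integrable _) fun y => ?_
  have h1 : 0 ≤ ∏ m ∈ Finset.univ.erase j, f (rr (y - x m)) :=
    Finset.prod_nonneg fun m _ => hJ.f_nonneg _
  have h2 : ∏ m ∈ Finset.univ.erase j, f (rr (y - x m)) ≤ 1 :=
    Finset.prod_le_one (fun m _ => hJ.f_nonneg _) fun m _ => hJ.f_le_one _
  have h3 : ∀ α, AAj f g j α y x ^ 2 ≤ g (rr (y - x j)) ^ 2 * crd (y - x j) α ^ 2 := by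
    intro α
    unfold AAj JData.grad
    rw [neg_sq, mul_pow, mul_pow]
    exact mul_le_of_le_one_right (by positivity) (pow_le_one₀ h1 h2)
  refine (Finset.sum_le_sum fun α _ => h3 α).trans (le_of_eq ?_)
  rw [rr_sq, Finset.mul_sum]

/-- new particle, kinetic energy -/
theorem B3_new (hJ : JData b f g k1) {χ : (Fin n → T3) → ℂ} (hχ : MemLp χ 2 (piN (Fin n))) :
    ∑ α, ∫⁻ z : Fin (n + 1) → T3, ‖(AA0 f g α (z 0) (tl z) : ℂ) * χ (tl z)‖ₑ ^ 2
        ∂(piN (Fin (n + 1)))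
      ≤ ENNReal.ofReal ((n : ℝ) * (∫ y, |JData.eff f g k1 (rr y)| ∂lam3)
        * ∫ x, ‖χ x‖ ^ 2 ∂(piN (Fin n))) := by
  obtain ⟨hA, hAj, hA0⟩ := AA_bm (n := n) hJ
  have hE : 0 ≤ ∫ y, |JData.eff f g k1 (rr y)| ∂lam3 := integral_nonneg fun y => abs_nonneg _
  have hχm : AEMeasurable (fun x => ‖χ x‖ₑ ^ 2) (piN (Fin n)) := hχ.1.enorm.pow_const 2
  have h1 : ∀ α, ∫⁻ z : Fin (n + 1) → T3, ‖(AA0 f g α (z 0) (tl z) : ℂ) * χ (tl z)‖ₑ ^ 2
        ∂(piN (Fin (n + 1)))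
      = ∫⁻ x, ENNReal.ofReal (∫ y, AA0 f g α y x ^ 2 ∂lam3) * ‖χ x‖ₑ ^ 2 ∂(piN (Fin n)) := by
    intro α
    have h2 : (fun z : Fin (n + 1) → T3 => ‖(AA0 f g α (z 0) (tl z) : ℂ) * χ (tl z)‖ₑ ^ 2)
        = fun z => (fun q : T3 × (Fin n → T3) =>
          ENNReal.ofReal (AA0 f g α q.1 q.2 ^ 2) * ‖χ q.2‖ₑ ^ 2) (z 0, tl z) := by
      funext z
      dsimp only
      rw [enorm_mul, mul_pow, B3_en]
    have hm1 : AEMeasurable (fun q : T3 × (Fin n → T3) =>
          ENNReal.ofReal (AA0 f g α q.1 q.2 ^ 2) * ‖χ q.2‖ₑ ^ 2) (lam3.prod (piN (Fin n))) :=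
      (((hA0 α).pow 2).1.ennreal_ofReal.aemeasurable).mul (B3_snd hχm)
    rw [h2, B3_lint hm1]
    refine lintegral_congr fun x => ?_
    dsimp only
    have hs := (B3_slice (hA0 α) x).pow 2
    rw [lintegral_mul_const _ hs.1.ennreal_ofReal,
      ofReal_integral_eq_lintegral_ofReal (hs.integrable _) (Eventually.of_forall fun y =>
        sq_nonneg _)]
  have hm2 : ∀ α, AEMeasurable (fun x : Fin n → T3 =>
      ENNReal.ofReal (∫ y, AA0 f g α y x ^ 2 ∂lam3) * ‖χ x‖ₑ ^ 2) (piN (Fin n)) := fun α =>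
    ((B3_avg ((hA0 α).pow 2)).1.ennreal_ofReal.aemeasurable).mul hχm
  rw [Finset.sum_congr rfl fun α _ => h1 α, ← lintegral_finsetSum' _ (fun α _ => hm2 α)]
  have h3 : ∀ x, ∑ α, ENNReal.ofReal (∫ y, AA0 f g α y x ^ 2 ∂lam3) * ‖χ x‖ₑ ^ 2
      ≤ ENNReal.ofReal ((n : ℝ) * ∫ y, |JData.eff f g k1 (rr y)| ∂lam3) * ‖χ x‖ₑ ^ 2 := by
    intro x
    rw [← Finset.sum_mul]
    refine mul_le_mul_left ?_ _
    rw [← ENNReal.ofReal_sum_of_nonneg fun α _ => integral_nonneg fun y => sq_nonneg _]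
    exact ENNReal.ofReal_le_ofReal (B3_AA0 hJ x)
  refine (lintegral_mono h3).trans (le_of_eq ?_)
  rw [lintegral_const_mul'' _ hχm, lint_sq hχ, ← ENNReal.ofReal_mul (by positivity)]

/-- old particle, kinetic energy -/
theorem B3_old (hJ : JData b f g k1) {χ η : (Fin n → T3) → ℂ} (hχ : MemLp χ 2 (piN (Fin n)))
    (hη : MemLp η 2 (piN (Fin n))) (j : Fin n) (α : Fin 3) :
    Integrable (fun x => GA f x * ‖η x‖ ^ 2 + GA' f g j α x * (conj (χ x) * η x).re)
      (piN (Fin n)) ∧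
    Integrable (fun x => (∫ y, AAj f g j α y x ^ 2 ∂lam3) * ‖χ x‖ ^ 2) (piN (Fin n)) ∧
    0 ≤ (∫ x, (GA f x * ‖η x‖ ^ 2 + GA' f g j α x * (conj (χ x) * η x).re) ∂(piN (Fin n)))
        + ∫ x, (∫ y, AAj f g j α y x ^ 2 ∂lam3) * ‖χ x‖ ^ 2 ∂(piN (Fin n)) ∧
    ∫⁻ z : Fin (n + 1) → T3, ‖(AAj f g j α (z 0) (tl z) : ℂ) * χ (tl z)
        + (AA f (z 0) (tl z) : ℂ) * η (tl z)‖ₑ ^ 2 ∂(piN (Fin (n + 1)))
      = ENNReal.ofReal ((∫ x, (GA f x * ‖η x‖ ^ 2 + GA' f g j α x * (conj (χ x) * η x).re)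
          ∂(piN (Fin n)))
        + ∫ x, (∫ y, AAj f g j α y x ^ 2 ∂lam3) * ‖χ x‖ ^ 2 ∂(piN (Fin n))) := by
  obtain ⟨hA, hAj, hA0⟩ := AA_bm (n := n) hJ
  have hexp : ∀ (a c : ℝ) (u v : ℂ), ‖(a : ℂ) * u + (c : ℂ) * v‖ ^ 2
      = a ^ 2 * ‖u‖ ^ 2 + c ^ 2 * ‖v‖ ^ 2 + 2 * c * a * (conj u * v).re := by
    intro a c u v
    rw [← Complex.normSq_eq_norm_sq, ← Complex.normSq_eq_norm_sq, ← Complex.normSq_eq_norm_sq,
      Complex.normSq_apply, Complex.normSq_apply, Complex.normSq_apply]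
    simp only [Complex.add_re, Complex.add_im, Complex.mul_re, Complex.mul_im, Complex.ofReal_re,
      Complex.ofReal_im, Complex.conj_re, Complex.conj_im]
    ring
  have hG : BM (GA f : (Fin n → T3) → ℝ) := B3_avg (hA.pow 2)
  have hG' : BM (GA' f g j α : (Fin n → T3) → ℝ) := by
    have h1 : BM (fun q : T3 × (Fin n → T3) => 2 * AA f q.1 q.2 * AAj f g j α q.1 q.2) :=
      (hA.const_mul 2).mul (hAj j α)
    exact B3_avg h1
  have hJ2 : BM (fun x : Fin n → T3 => ∫ y, AAj f g j α y x ^ 2 ∂lam3) :=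
    B3_avg ((hAj j α).pow 2)
  have hχi := int_sq hχ
  have hηi := int_sq hη
  have hcr : Integrable (fun x => (conj (χ x) * η x).re) (piN (Fin n)) := by
    have h1 : Integrable (fun x => (1 / 2 : ℝ) * (‖χ x‖ ^ 2 + ‖η x‖ ^ 2)) (piN (Fin n)) :=
      (hχi.add hηi).const_mul _
    refine Integrable.mono' h1 ?_ (Eventually.of_forall fun x => ?_)
    · exact Complex.continuous_re.comp_aestronglyMeasurable
        ((Complex.continuous_conj.comp_aestronglyMeasurable hχ.1).mul hη.1)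
    · rw [Real.norm_eq_abs]
      refine (Complex.abs_re_le_norm _).trans ?_
      rw [norm_mul, RCLike.norm_conj]
      nlinarith [sq_nonneg (‖χ x‖ - ‖η x‖)]
  have hbi : ∀ {B : (Fin n → T3) → ℝ} {F : (Fin n → T3) → ℝ}, BM B → Integrable F (piN (Fin n)) →
      Integrable (fun x => B x * F x) (piN (Fin n)) := by
    intro B F hB hF
    obtain ⟨C, hC0, hC⟩ := hB.exists_nonneg_bound
    exact hF.bdd_mul hB.1.aestronglyMeasurable (c := C) (Eventually.of_forall fun x => hC x)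
  have i1 : Integrable (fun x => GA f x * ‖η x‖ ^ 2 + GA' f g j α x * (conj (χ x) * η x).re)
      (piN (Fin n)) := (hbi hG hηi).add (hbi hG' hcr)
  have i2 : Integrable (fun x => (∫ y, AAj f g j α y x ^ 2 ∂lam3) * ‖χ x‖ ^ 2) (piN (Fin n)) :=
    hbi hJ2 hχi
  -- the inner integral
  have hin : ∀ x, ∫⁻ y, ‖(AAj f g j α y x : ℂ) * χ x + (AA f y x : ℂ) * η x‖ₑ ^ 2 ∂lam3
      = ENNReal.ofReal ((GA f x * ‖η x‖ ^ 2 + GA' f g j α x * (conj (χ x) * η x).re)
        + (∫ y, AAj f g j α y x ^ 2 ∂lam3) * ‖χ x‖ ^ 2) ∧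
      0 ≤ (GA f x * ‖η x‖ ^ 2 + GA' f g j α x * (conj (χ x) * η x).re)
        + (∫ y, AAj f g j α y x ^ 2 ∂lam3) * ‖χ x‖ ^ 2 := by
    intro x
    have b1 : BM (fun y => AAj f g j α y x ^ 2 * ‖χ x‖ ^ 2) :=
      ((B3_slice (hAj j α) x).pow 2).mul (BM.const _)
    have b2 : BM (fun y => AA f y x ^ 2 * ‖η x‖ ^ 2) :=
      ((B3_slice hA x).pow 2).mul (BM.const _)
    have b3 : BM (fun y => 2 * AA f y x * AAj f g j α y x * (conj (χ x) * η x).re) :=
      (((B3_slice hA x).const_mul 2).mul (B3_slice (hAj j α) x)).mul (BM.const _)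
    have b4 : BM (fun y => AAj f g j α y x ^ 2 * ‖χ x‖ ^ 2 + AA f y x ^ 2 * ‖η x‖ ^ 2
        + 2 * AA f y x * AAj f g j α y x * (conj (χ x) * η x).re) := (b1.add b2).add b3
    have hpos : ∀ y, 0 ≤ AAj f g j α y x ^ 2 * ‖χ x‖ ^ 2 + AA f y x ^ 2 * ‖η x‖ ^ 2
        + 2 * AA f y x * AAj f g j α y x * (conj (χ x) * η x).re := by
      intro y
      rw [← hexp]
      positivity
    have hval : ∫ y, (AAj f g j α y x ^ 2 * ‖χ x‖ ^ 2 + AA f y x ^ 2 * ‖η x‖ ^ 2
        + 2 * AA f y x * AAj f g j α y x * (conj (χ x) * η x).re) ∂lam3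
        = (GA f x * ‖η x‖ ^ 2 + GA' f g j α x * (conj (χ x) * η x).re)
        + (∫ y, AAj f g j α y x ^ 2 ∂lam3) * ‖χ x‖ ^ 2 := by
      rw [integral_add ((b1.add b2).integrable _) (b3.integrable _),
        integral_add (b1.integrable _) (b2.integrable _), integral_mul_const, integral_mul_const,
        integral_mul_const]
      unfold GA GA'
      ring
    constructor
    · rw [← hval, ofReal_integral_eq_lintegral_ofReal (b4.integrable _)
        (Eventually.of_forall hpos)]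
      refine lintegral_congr fun y => ?_
      rw [B3_en2, hexp]
    · rw [← hval]
      exact integral_nonneg hpos
  have hadd : ∫ x, ((GA f x * ‖η x‖ ^ 2 + GA' f g j α x * (conj (χ x) * η x).re)
        + (∫ y, AAj f g j α y x ^ 2 ∂lam3) * ‖χ x‖ ^ 2) ∂(piN (Fin n))
      = (∫ x, (GA f x * ‖η x‖ ^ 2 + GA' f g j α x * (conj (χ x) * η x).re) ∂(piN (Fin n)))
        + ∫ x, (∫ y, AAj f g j α y x ^ 2 ∂lam3) * ‖χ x‖ ^ 2 ∂(piN (Fin n)) :=
    integral_add i1 i2
  refine ⟨i1, i2, ?_, ?_⟩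
  · rw [← hadd]
    exact integral_nonneg fun x => (hin x).2
  · have hm : AEMeasurable (fun q : T3 × (Fin n → T3) =>
        ‖(AAj f g j α q.1 q.2 : ℂ) * χ q.2 + (AA f q.1 q.2 : ℂ) * η q.2‖ₑ ^ 2)
        (lam3.prod (piN (Fin n))) := by
      have m1 : AEStronglyMeasurable (fun q : T3 × (Fin n → T3) => (AAj f g j α q.1 q.2 : ℂ))
          (lam3.prod (piN (Fin n))) := (Complex.measurable_ofReal.comp
            (hAj j α).1).aestronglyMeasurable
      have m2 : AEStronglyMeasurable (fun q : T3 × (Fin n → T3) => (AA f q.1 q.2 : ℂ))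
          (lam3.prod (piN (Fin n))) := (Complex.measurable_ofReal.comp
            hA.1).aestronglyMeasurable
      have m3 : AEStronglyMeasurable (fun q : T3 × (Fin n → T3) => χ q.2)
          (lam3.prod (piN (Fin n))) :=
        hχ.1.comp_quasiMeasurePreserving Measure.quasiMeasurePreserving_snd
      have m4 : AEStronglyMeasurable (fun q : T3 × (Fin n → T3) => η q.2)
          (lam3.prod (piN (Fin n))) :=
        hη.1.comp_quasiMeasurePreserving Measure.quasiMeasurePreserving_snd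
      exact (((m1.mul m3).add (m2.mul m4)).enorm).pow_const 2
    have h1 := B3_lint hm
    refine h1.trans ?_
    have i3 : Integrable (fun x => (GA f x * ‖η x‖ ^ 2 + GA' f g j α x * (conj (χ x) * η x).re)
        + (∫ y, AAj f g j α y x ^ 2 ∂lam3) * ‖χ x‖ ^ 2) (piN (Fin n)) := i1.add i2
    rw [← hadd, ofReal_integral_eq_lintegral_ofReal i3
      (Eventually.of_forall fun x => (hin x).2)]
    exact lintegral_congr fun x => (hin x).1

/-- potential energy -/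
theorem B3_V {R₀ : ℝ} {𝒱 : T3 → ℝ≥0∞} (hv : AEMeasurable 𝒱 lam3) (hev : ∀ y, 𝒱 (-y) = 𝒱 y)
    (hJ : JData b f g k1) {χ : (Fin n → T3) → ℂ}
    {h : Fin n → Fin 3 → (Fin n → T3) → ℂ} (hχ : FE R₀ 𝒱 χ h) {v : ℝ} (hv0 : 0 ≤ v)
    (hvv : ∫⁻ y, 𝒱 y * ENNReal.ofReal (f (rr y) ^ 2) ∂lam3 = ENNReal.ofReal v) :
    ∫⁻ z : Fin (n + 1) → T3, potS 𝒱 Finset.univ z * ‖(AA f (z 0) (tl z) : ℂ) * χ (tl z)‖ₑ ^ 2
        ∂(piN (Fin (n + 1)))
      ≤ ENNReal.ofReal (∫ x, GA f x * ((potS 𝒱 Finset.univ x).toReal * ‖χ x‖ ^ 2)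
          ∂(piN (Fin n)))
        + ENNReal.ofReal ((n : ℝ) * v * ∫ x, ‖χ x‖ ^ 2 ∂(piN (Fin n))) := by
  obtain ⟨hA, hAj, hA0⟩ := AA_bm (n := n) hJ
  have hχm : AEMeasurable (fun x => ‖χ x‖ₑ ^ 2) (piN (Fin n)) := hχ.hg.mem.1.enorm.pow_const 2
  have hP := aem_potS (ι := Fin n) hv Finset.univ
  have hVm : ∀ j : Fin n, AEMeasurable (fun q : T3 × (Fin n → T3) => 𝒱 (q.1 - q.2 j))
      (lam3.prod (piN (Fin n))) := fun j =>
    hv.comp_quasiMeasurePreserving (B3_diff j).quasiMeasurePreserving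
  have hAm : AEMeasurable (fun q : T3 × (Fin n → T3) => ENNReal.ofReal (AA f q.1 q.2 ^ 2))
      (lam3.prod (piN (Fin n))) := (hA.pow 2).1.ennreal_ofReal.aemeasurable
  have m1 : AEMeasurable (fun q : T3 × (Fin n → T3) => potS 𝒱 Finset.univ q.2
      * (ENNReal.ofReal (AA f q.1 q.2 ^ 2) * ‖χ q.2‖ₑ ^ 2)) (lam3.prod (piN (Fin n))) :=
    (B3_snd hP).mul (hAm.mul (B3_snd hχm))
  have m2 : ∀ j : Fin n, AEMeasurable (fun q : T3 × (Fin n → T3) => 𝒱 (q.1 - q.2 j)
      * (ENNReal.ofReal (AA f q.1 q.2 ^ 2) * ‖χ q.2‖ₑ ^ 2)) (lam3.prod (piN (Fin n))) := fun j =>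
    (hVm j).mul (hAm.mul (B3_snd hχm))
  have hfun : (fun z : Fin (n + 1) → T3 => potS 𝒱 Finset.univ z
      * ‖(AA f (z 0) (tl z) : ℂ) * χ (tl z)‖ₑ ^ 2)
      = fun z => (fun q : T3 × (Fin n → T3) => potS 𝒱 Finset.univ q.2
        * (ENNReal.ofReal (AA f q.1 q.2 ^ 2) * ‖χ q.2‖ₑ ^ 2)) (z 0, tl z)
        + ∑ j : Fin n, (fun q : T3 × (Fin n → T3) => 𝒱 (q.1 - q.2 j)
          * (ENNReal.ofReal (AA f q.1 q.2 ^ 2) * ‖χ q.2‖ₑ ^ 2)) (z 0, tl z) := by
    funext z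
    dsimp only
    rw [B3_pot hev, enorm_mul, mul_pow, B3_en, add_mul, Finset.sum_mul]
    rfl
  have hmp := B3_mp n
  have c1 : AEMeasurable (fun z : Fin (n + 1) → T3 =>
      (fun q : T3 × (Fin n → T3) => potS 𝒱 Finset.univ q.2
        * (ENNReal.ofReal (AA f q.1 q.2 ^ 2) * ‖χ q.2‖ₑ ^ 2)) (z 0, tl z))
      (piN (Fin (n + 1))) := m1.comp_quasiMeasurePreserving hmp.quasiMeasurePreserving
  have c2 : ∀ j : Fin n, AEMeasurable (fun z : Fin (n + 1) → T3 =>
      (fun q : T3 × (Fin n → T3) => 𝒱 (q.1 - q.2 j)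
      * (ENNReal.ofReal (AA f q.1 q.2 ^ 2) * ‖χ q.2‖ₑ ^ 2)) (z 0, tl z))
      (piN (Fin (n + 1))) := fun j =>
    (m2 j).comp_quasiMeasurePreserving hmp.quasiMeasurePreserving
  rw [hfun, lintegral_add_left' c1, lintegral_finsetSum' _ (fun j _ => c2 j)]
  refine add_le_add ?_ ?_
  · rw [B3_lint m1]
    dsimp only
    obtain ⟨hint, -, -⟩ := rE_eq hv hχ.hg hχ.fin
    have hG : BM (GA f : (Fin n → T3) → ℝ) := B3_avg (hA.pow 2)
    have hGi : Integrable (fun x => GA f x * ((potS 𝒱 Finset.univ x).toReal * ‖χ x‖ ^ 2))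
        (piN (Fin n)) := by
      obtain ⟨C, hC0, hC⟩ := hG.exists_nonneg_bound
      exact hint.bdd_mul hG.1.aestronglyMeasurable (c := C) (Eventually.of_forall fun x => hC x)
    rw [ofReal_integral_eq_lintegral_ofReal hGi (Eventually.of_forall fun x =>
      mul_nonneg (GA_bounds hJ x).1 (mul_nonneg ENNReal.toReal_nonneg (sq_nonneg _)))]
    have hfin : ∫⁻ x, potS 𝒱 Finset.univ x * ‖χ x‖ₑ ^ 2 ∂(piN (Fin n)) ≠ ⊤ := by
      have h1 := hχ.fin
      unfold eS at h1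
      exact (ENNReal.add_lt_top.mp h1).2.ne
    have hae := ae_lt_top' (hP.mul hχm) hfin
    refine le_of_eq (lintegral_congr_ae ?_)
    filter_upwards [hae] with x hx
    have hs := (B3_slice hA x).pow 2
    have e1 : ∀ y, potS 𝒱 Finset.univ x * (ENNReal.ofReal (AA f y x ^ 2) * ‖χ x‖ₑ ^ 2)
        = ENNReal.ofReal (AA f y x ^ 2) * (potS 𝒱 Finset.univ x * ‖χ x‖ₑ ^ 2) := by
      intro y
      ring
    rw [lintegral_congr e1, lintegral_mul_const _ hs.1.ennreal_ofReal,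
      ← ofReal_integral_eq_lintegral_ofReal (hs.integrable _) (Eventually.of_forall fun y =>
        sq_nonneg _)]
    have e2 : potS 𝒱 Finset.univ x * ‖χ x‖ₑ ^ 2
        = ENNReal.ofReal ((potS 𝒱 Finset.univ x).toReal * ‖χ x‖ ^ 2) := by
      simp only [Pi.mul_apply] at hx
      rw [B3_en2] at hx ⊢
      by_cases h0 : ‖χ x‖ ^ 2 = 0
      · rw [h0]
        simp
      · have h2 : ENNReal.ofReal (‖χ x‖ ^ 2) ≠ 0 := by
          rw [Ne, ENNReal.ofReal_eq_zero, not_le]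
          exact lt_of_le_of_ne (sq_nonneg _) (Ne.symm h0)
        have h3 : potS 𝒱 Finset.univ x ≠ ⊤ := by
          intro h4
          rw [h4, ENNReal.top_mul h2] at hx
          exact absurd hx (lt_irrefl _)
        rw [ENNReal.ofReal_mul ENNReal.toReal_nonneg, ENNReal.ofReal_toReal h3]
    rw [e2, ENNReal.ofReal_mul (GA_bounds hJ x).1]
    rfl
  · have h1 : ∀ j : Fin n, ∫⁻ z : Fin (n + 1) → T3, (fun q : T3 × (Fin n → T3) =>
        𝒱 (q.1 - q.2 j) * (ENNReal.ofReal (AA f q.1 q.2 ^ 2) * ‖χ q.2‖ₑ ^ 2)) (z 0, tl z)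
          ∂(piN (Fin (n + 1)))
        ≤ ENNReal.ofReal (v * ∫ x, ‖χ x‖ ^ 2 ∂(piN (Fin n))) := by
      intro j
      rw [B3_lint (m2 j)]
      dsimp only
      have h2 : ∀ x : Fin n → T3, ∫⁻ y, 𝒱 (y - x j)
          * (ENNReal.ofReal (AA f y x ^ 2) * ‖χ x‖ₑ ^ 2) ∂lam3
          ≤ ENNReal.ofReal v * ‖χ x‖ₑ ^ 2 := by
        intro x
        have h3 : ∀ y, 𝒱 (y - x j) * (ENNReal.ofReal (AA f y x ^ 2) * ‖χ x‖ₑ ^ 2)
            ≤ (𝒱 (y - x j) * ENNReal.ofReal (f (rr (y - x j)) ^ 2)) * ‖χ x‖ₑ ^ 2 := by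
          intro y
          rw [← mul_assoc]
          refine mul_le_mul_left (mul_le_mul_right (ENNReal.ofReal_le_ofReal ?_) _) _
          have h4 : AA f y x ≤ f (rr (y - x j)) := by
            unfold AA
            rw [← Finset.mul_prod_erase _ _ (Finset.mem_univ j)]
            exact mul_le_of_le_one_right (hJ.f_nonneg _)
              (Finset.prod_le_one (fun m _ => hJ.f_nonneg _) fun m _ => hJ.f_le_one _)
          exact pow_le_pow_left₀ (B3_AA_nonneg hJ y x) h4 2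
        refine (lintegral_mono h3).trans (le_of_eq ?_)
        rw [lintegral_mul_const' _ _ (by
          rw [B3_en2]
          exact ENNReal.ofReal_ne_top),
          B3_shift (fun y => 𝒱 y * ENNReal.ofReal (f (rr y) ^ 2)) (x j), hvv]
      refine (lintegral_mono h2).trans (le_of_eq ?_)
      rw [lintegral_const_mul'' _ hχm, lint_sq hχ.hg.mem, ← ENNReal.ofReal_mul hv0]
    refine (Finset.sum_le_sum fun j _ => h1 j).trans (le_of_eq ?_)
    rw [Finset.sum_const, Finset.card_univ, Fintype.card_fin, nsmul_eq_mul,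
      mul_assoc, ENNReal.ofReal_mul (Nat.cast_nonneg n), ENNReal.ofReal_natCast]

end B3

theorem trial_energy {n : ℕ} {R₀ : ℝ} {𝒱 : T3 → ℝ≥0∞} (hv : AEMeasurable 𝒱 lam3)
    (hev : ∀ y, 𝒱 (-y) = 𝒱 y) {b : ℝ} {f g k1 : ℝ → ℝ} (hJ : JData b f g k1) {c : ℝ} (hc0 : 0 ≤ c)
    (hc : ∫⁻ y, (ENNReal.ofReal (g (rr y) ^ 2 * rr y ^ 2 + |JData.eff f g k1 (rr y)|)
      + 𝒱 y * ENNReal.ofReal (f (rr y) ^ 2)) ∂lam3 ≤ ENNReal.ofReal c)
    {χ : (Fin n → T3) → ℂ} {h : Fin n → Fin 3 → (Fin n → T3) → ℂ} (hχ : FE R₀ 𝒱 χ h) :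
    eS 𝒱 Finset.univ (mG (Az f) (ext χ)) (mGg (Az f) (Az' f g) (ext χ) (extg h))
      ≤ ENNReal.ofReal (bG 𝒱 χ h (GA f) (GA' f g) + (n : ℝ) * c * ∫ x, ‖χ x‖ ^ 2 ∂(piN (Fin n))) := by
  obtain ⟨G2, hG2⟩ : ∃ G2 : ℝ, G2 = ∫ y, g (rr y) ^ 2 * rr y ^ 2 ∂lam3 := ⟨_, rfl⟩
  obtain ⟨E2, hE2⟩ : ∃ E2 : ℝ, E2 = ∫ y, |JData.eff f g k1 (rr y)| ∂lam3 := ⟨_, rfl⟩
  obtain ⟨S, hS⟩ : ∃ S : ℝ, S = ∫ x, ‖χ x‖ ^ 2 ∂(piN (Fin n)) := ⟨_, rfl⟩
  have hG0 : 0 ≤ G2 := by
    rw [hG2]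
    exact integral_nonneg fun y => mul_nonneg (sq_nonneg _) (sq_nonneg _)
  have hE0 : 0 ≤ E2 := by
    rw [hE2]
    exact integral_nonneg fun y => abs_nonneg _
  have hS0 : 0 ≤ S := by
    rw [hS]
    exact integral_nonneg fun y => sq_nonneg _
  -- the constant
  obtain ⟨v, hv0, hvv, hsum⟩ : ∃ v : ℝ, 0 ≤ v ∧
      ∫⁻ y, 𝒱 y * ENNReal.ofReal (f (rr y) ^ 2) ∂lam3 = ENNReal.ofReal v ∧ G2 + E2 + v ≤ c := by
    have b1 : BM (fun y : T3 => g (rr y) ^ 2 * rr y ^ 2 + |JData.eff f g k1 (rr y)|) :=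
      ((hJ.g_bm.pow 2).mul (JData.rr_bm'.pow 2)).add hJ.eff_bm.abs
    have h1 := hc
    rw [lintegral_add_left b1.1.ennreal_ofReal,
      ← ofReal_integral_eq_lintegral_ofReal (b1.integrable _) (Eventually.of_forall fun y =>
        add_nonneg (mul_nonneg (sq_nonneg _) (sq_nonneg _)) (abs_nonneg _)),
      integral_add (((hJ.g_bm.pow 2).mul (JData.rr_bm'.pow 2)).integrable _)
        (hJ.eff_bm.abs.integrable _), ← hG2, ← hE2] at h1
    have hne : ∫⁻ y, 𝒱 y * ENNReal.ofReal (f (rr y) ^ 2) ∂lam3 ≠ ⊤ := by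
      intro h2
      rw [h2, add_top] at h1
      exact absurd h1 (not_le.mpr ENNReal.ofReal_lt_top)
    refine ⟨(∫⁻ y, 𝒱 y * ENNReal.ofReal (f (rr y) ^ 2) ∂lam3).toReal, ENNReal.toReal_nonneg,
      (ENNReal.ofReal_toReal hne).symm, ?_⟩
    rw [← ENNReal.ofReal_toReal hne, ← ENNReal.ofReal_add (by positivity)
      ENNReal.toReal_nonneg] at h1
    exact (ENNReal.ofReal_le_ofReal_iff hc0).mp h1
  obtain ⟨P, hP⟩ : ∃ P : ℝ, P = ∫ x, GA f x * ((potS 𝒱 Finset.univ x).toReal * ‖χ x‖ ^ 2)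
      ∂(piN (Fin n)) := ⟨_, rfl⟩
  have hP0 : 0 ≤ P := by
    rw [hP]
    exact integral_nonneg fun x =>
      mul_nonneg (GA_bounds hJ x).1 (mul_nonneg ENNReal.toReal_nonneg (sq_nonneg _))
  have hVV := B3_V hv hev hJ hχ hv0 hvv
  have hnew := B3_new hJ hχ.hg.mem
  rw [← hE2, ← hS] at hnew
  rw [← hP, ← hS] at hVV
  obtain ⟨X, hX⟩ : ∃ X : Fin n → Fin 3 → ℝ, ∀ j α, X j α
      = ∫ x, (GA f x * ‖h j α x‖ ^ 2 + GA' f g j α x * (conj (χ x) * h j α x).re)
        ∂(piN (Fin n)) := ⟨_, fun _ _ => rfl⟩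
  obtain ⟨Y, hY⟩ : ∃ Y : Fin n → Fin 3 → ℝ, ∀ j α, Y j α
      = ∫ x, (∫ y, AAj f g j α y x ^ 2 ∂lam3) * ‖χ x‖ ^ 2 ∂(piN (Fin n)) :=
    ⟨_, fun _ _ => rfl⟩
  have hold : ∀ j α, 0 ≤ X j α + Y j α ∧ ∫⁻ z : Fin (n + 1) → T3,
      ‖(AAj f g j α (z 0) (tl z) : ℂ) * χ (tl z)
        + (AA f (z 0) (tl z) : ℂ) * h j α (tl z)‖ₑ ^ 2 ∂(piN (Fin (n + 1)))
      = ENNReal.ofReal (X j α + Y j α) := by
    intro j α
    obtain ⟨-, -, h3, h4⟩ := B3_old hJ hχ.hg.mem (hχ.hg.gmem j α) j α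
    rw [hX, hY]
    exact ⟨h3, h4⟩
  have hYs : ∀ j, ∑ α, Y j α ≤ G2 * S := by
    intro j
    have h1 : ∑ α, Y j α = ∫ x, ∑ α, (∫ y, AAj f g j α y x ^ 2 ∂lam3) * ‖χ x‖ ^ 2
        ∂(piN (Fin n)) := by
      rw [integral_finsetSum _ (fun α _ => (B3_old hJ hχ.hg.mem (hχ.hg.gmem j α) j α).2.1)]
      exact Finset.sum_congr rfl fun α _ => hY j α
    rw [h1, hS, ← integral_const_mul]
    refine integral_mono (integrable_finsetSum _ (fun α _ =>
      (B3_old hJ hχ.hg.mem (hχ.hg.gmem j α) j α).2.1)) ((int_sq hχ.hg.mem).const_mul _)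
      fun x => ?_
    dsimp only
    rw [← Finset.sum_mul, hG2]
    exact mul_le_mul_of_nonneg_right (B3_AAj hJ j x) (sq_nonneg _)
  -- the energy of the trial state
  have hE : eS 𝒱 Finset.univ (mG (Az f) (ext χ)) (mGg (Az f) (Az' f g) (ext χ) (extg h))
      ≤ ENNReal.ofReal ((n : ℝ) * E2 * S) + (∑ j, ∑ α, ENNReal.ofReal (X j α + Y j α))
        + (ENNReal.ofReal P + ENNReal.ofReal ((n : ℝ) * v * S)) := by
    unfold eS
    refine add_le_add ?_ ?_
    · rw [Fin.sum_univ_succ]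
      refine add_le_add ?_ (le_of_eq ?_)
      · refine le_trans (le_of_eq ?_) hnew
        refine Finset.sum_congr rfl fun α _ => lintegral_congr fun z => ?_
        simp only [mGg, Az', ext, extg, Fin.cases_zero, mul_zero, add_zero]
      · refine Finset.sum_congr rfl fun j _ => Finset.sum_congr rfl fun α _ => ?_
        rw [← (hold j α).2]
        refine lintegral_congr fun z => ?_
        simp only [mGg, Az', Az, ext, extg, Fin.cases_succ]
    · refine le_trans (le_of_eq ?_) hVV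
      refine lintegral_congr fun z => ?_
      simp only [mG, Az, ext]
  refine hE.trans ?_
  have hXY0 : 0 ≤ ∑ j, ∑ α, (X j α + Y j α) :=
    Finset.sum_nonneg fun j _ => Finset.sum_nonneg fun α _ => (hold j α).1
  have e1 : ∑ j, ∑ α, ENNReal.ofReal (X j α + Y j α)
      = ENNReal.ofReal (∑ j, ∑ α, (X j α + Y j α)) := by
    rw [ENNReal.ofReal_sum_of_nonneg fun j _ => Finset.sum_nonneg fun α _ => (hold j α).1]
    refine Finset.sum_congr rfl fun j _ => ?_
    rw [ENNReal.ofReal_sum_of_nonneg fun α _ => (hold j α).1]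
  rw [e1, ← ENNReal.ofReal_add (by positivity) hXY0,
    ← ENNReal.ofReal_add hP0 (by positivity),
    ← ENNReal.ofReal_add (by positivity) (by positivity)]
  refine ENNReal.ofReal_le_ofReal ?_
  have hbG : bG 𝒱 χ h (GA f) (GA' f g) = (∑ j, ∑ α, X j α) + P := by
    unfold bG
    rw [← hP]
    congr 1
    exact Finset.sum_congr rfl fun j _ => Finset.sum_congr rfl fun α _ => (hX j α).symm
  rw [hbG, ← hS]
  have hsp : ∑ j, ∑ α, (X j α + Y j α) = (∑ j, ∑ α, X j α) + ∑ j, ∑ α, Y j α := by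
    simp only [Finset.sum_add_distrib]
  have hYY : ∑ j, ∑ α, Y j α ≤ (n : ℝ) * (G2 * S) := by
    refine (Finset.sum_le_sum fun j _ => hYs j).trans (le_of_eq ?_)
    rw [Finset.sum_const, Finset.card_univ, Fintype.card_fin, nsmul_eq_mul]
  have hcc : (n : ℝ) * ((G2 + E2 + v) * S) ≤ (n : ℝ) * (c * S) :=
    mul_le_mul_of_nonneg_left (mul_le_mul_of_nonneg_right hsum hS0) (Nat.cast_nonneg n)
  rw [hsp]
  have hr : (n : ℝ) * ((G2 + E2 + v) * S) = (n : ℝ) * (G2 * S) + (n : ℝ) * E2 * S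
      + (n : ℝ) * v * S := by ring
  have hl : (n : ℝ) * c * S = (n : ℝ) * (c * S) := by ring
  rw [hl]
  linarith

end Pool.Agent.Lib.MP_4952d6_mp.LA

end

/-! ### LA.B4 -/

section

/-!
# JOB LA-B4: the chemical potential

If `E0 n = ⊤` trivial.  Let `e = (E0 n).toReal`, `0 < δ ≤ 1`, `χ` admissible with `tE χ ≤ E0 n + δ` (`iInf`), gradient `h` (`FE_of_tAdm`).
`Ψ = mG (Az f) (ext χ)` has the gradient of `HG.mul (ext_HG ..) (Az_WDN ..)` and vanishes on the cores (`f (rr ..) = 0` if the new particle is in a core, `rr_neg`; `χ = 0` otherwise).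
`trial_energy`, `var_cs` with `G = GA f` (`hmin` = `E0_le`): `bG ≤ e ∫ GA ‖χ‖² + √(δ C)` where `C` bounds `rE (mG (GA f) χ)` by
`2 K² (e + 1) + 2 K²` with `K` a bound for `GA`, `GA'` and the number of directions (independent of `χ`, `δ`).
`∫ ‖Ψ‖² = ∫ GA ‖χ‖² ≥ 1/2` (`GA_bounds`, `hn`).  `E0_le` for `Ψ`: `E0 (n+1) * ∫‖Ψ‖² ≤ e ∫ GA ‖χ‖² + √(δ C) + n c`, so `E0 (n+1) ≤ e + 2 (√(δ C) + n c)`; `δ → 0`
(`ENNReal.le_of_forall_pos_le_add` or in reals).
`E0_zero`: the constant function `1` on `Fin 0 → T3` is admissible with energy `0`.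
`E0_chain`: induction.
-/

set_option autoImplicit false
set_option linter.unusedSectionVars false
set_option linter.unusedVariables false
open MeasureTheory Function Filter Topology Set ComplexConjugate
open scoped ENNReal

namespace Pool.Agent.Lib.MP_4952d6_mp.LA

theorem B4_core {n : ℕ} {R₀ : ℝ} {f : ℝ → ℝ} (hf0 : ∀ r, 0 ≤ r → r < R₀ → f r = 0)
    {χ : (Fin n → T3) → ℂ} (hχ : Core R₀ χ) : Core R₀ (mG (Az f) (ext χ)) := by
  have hA : ∀ (z : Fin (n + 1) → T3) (j : Fin n), rr (z 0 - z j.succ) < R₀ → Az f z = 0 := by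
    intro z j hr
    unfold Az AA
    refine Finset.prod_eq_zero (Finset.mem_univ j) ?_
    exact hf0 _ (rr_nonneg _) hr
  intro z i j hij hr
  rcases Fin.eq_zero_or_eq_succ i with hi | ⟨i', hi⟩
  · rcases Fin.eq_zero_or_eq_succ j with hj | ⟨j', hj⟩
    · exact absurd (hi.trans hj.symm) hij
    · rw [hi, hj] at hr
      unfold mG
      rw [hA z j' hr]
      simp
  · rcases Fin.eq_zero_or_eq_succ j with hj | ⟨j', hj⟩
    · rw [hi, hj, ← rr_neg, neg_sub] at hr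
      unfold mG
      rw [hA z i' hr]
      simp
    · rw [hi, hj] at hr
      unfold mG ext
      have h1 : i' ≠ j' := by
        intro h2
        exact hij (by rw [hi, hj, h2])
      rw [hχ (tl z) i' j' h1 hr, mul_zero]

/-- bound of the energy of `G χ` -/
theorem B4_bound {n : ℕ} {R₀ : ℝ} {𝒱 : T3 → ℝ≥0∞} (hv : AEMeasurable 𝒱 lam3)
    {χ : (Fin n → T3) → ℂ} {h : Fin n → Fin 3 → (Fin n → T3) → ℂ} (hχ : FE R₀ 𝒱 χ h)
    {G : (Fin n → T3) → ℝ} {G' : Fin n → Fin 3 → (Fin n → T3) → ℝ} {K : ℝ}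
    (hG0 : ∀ x, 0 ≤ G x) (hG1 : ∀ x, G x ≤ 1) (hK : ∀ j α x, |G' j α x| ≤ K)
    (h1 : ∫ x, ‖χ x‖ ^ 2 ∂(piN (Fin n)) = 1) :
    rE 𝒱 Finset.univ (mG G χ) (mGg G G' χ h)
      ≤ 6 * n * K ^ 2 + 2 * rE 𝒱 Finset.univ χ h := by
  obtain ⟨hint, -, hpos⟩ := rE_eq hv hχ.hg hχ.fin
  have hχi := int_sq hχ.hg.mem
  have hkin : ∀ j α, ∫ x, ‖mGg G G' χ h j α x‖ ^ 2 ∂(piN (Fin n))
      ≤ 2 * K ^ 2 + 2 * ∫ x, ‖h j α x‖ ^ 2 ∂(piN (Fin n)) := by
    intro j α
    have hhi := int_sq (hχ.hg.gmem j α)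
    have h2 : ∫ x, ‖mGg G G' χ h j α x‖ ^ 2 ∂(piN (Fin n))
        ≤ ∫ x, (2 * K ^ 2 * ‖χ x‖ ^ 2 + 2 * ‖h j α x‖ ^ 2) ∂(piN (Fin n)) := by
      refine integral_mono_of_nonneg (Eventually.of_forall fun x => sq_nonneg _)
        ((hχi.const_mul _).add (hhi.const_mul _)) (Eventually.of_forall fun x => ?_)
      unfold mGg
      dsimp only
      have h3 : ‖(G' j α x : ℂ) * χ x + (G x : ℂ) * h j α x‖
          ≤ K * ‖χ x‖ + ‖h j α x‖ := by
        refine (norm_add_le _ _).trans ?_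
        rw [norm_mul, norm_mul, Complex.norm_real, Complex.norm_real, Real.norm_eq_abs,
          Real.norm_eq_abs, abs_of_nonneg (hG0 x)]
        exact add_le_add (mul_le_mul_of_nonneg_right (hK j α x) (norm_nonneg _))
          (mul_le_of_le_one_left (norm_nonneg _) (hG1 x))
      have h4 := pow_le_pow_left₀ (norm_nonneg _) h3 2
      refine h4.trans ?_
      nlinarith [sq_nonneg (K * ‖χ x‖ - ‖h j α x‖)]
    refine h2.trans (le_of_eq ?_)
    rw [integral_add (hχi.const_mul _) (hhi.const_mul _), integral_const_mul, integral_const_mul,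
      h1, mul_one]
  have hpot : ∫ x, (potS 𝒱 Finset.univ x).toReal * ‖mG G χ x‖ ^ 2 ∂(piN (Fin n))
      ≤ ∫ x, (potS 𝒱 Finset.univ x).toReal * ‖χ x‖ ^ 2 ∂(piN (Fin n)) := by
    refine integral_mono_of_nonneg (Eventually.of_forall fun x =>
      mul_nonneg ENNReal.toReal_nonneg (sq_nonneg _)) hint (Eventually.of_forall fun x => ?_)
    dsimp only
    refine mul_le_mul_of_nonneg_left ?_ ENNReal.toReal_nonneg
    unfold mG
    rw [norm_mul, Complex.norm_real, Real.norm_eq_abs, abs_of_nonneg (hG0 x)]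
    exact pow_le_pow_left₀ (mul_nonneg (hG0 x) (norm_nonneg _))
      (mul_le_of_le_one_left (norm_nonneg _) (hG1 x)) 2
  have hpp : 0 ≤ ∫ x, (potS 𝒱 Finset.univ x).toReal * ‖χ x‖ ^ 2 ∂(piN (Fin n)) :=
    integral_nonneg fun x => mul_nonneg ENNReal.toReal_nonneg (sq_nonneg _)
  unfold rE
  have hsum : ∑ j, ∑ α, ∫ x, ‖mGg G G' χ h j α x‖ ^ 2 ∂(piN (Fin n))
      ≤ ∑ j : Fin n, ∑ α : Fin 3, (2 * K ^ 2 + 2 * ∫ x, ‖h j α x‖ ^ 2 ∂(piN (Fin n))) :=
    Finset.sum_le_sum fun j _ => Finset.sum_le_sum fun α _ => hkin j α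
  have hs2 : ∑ j : Fin n, ∑ α : Fin 3, (2 * K ^ 2 + 2 * ∫ x, ‖h j α x‖ ^ 2 ∂(piN (Fin n)))
      = 6 * n * K ^ 2 + 2 * ∑ j : Fin n, ∑ α : Fin 3, ∫ x, ‖h j α x‖ ^ 2 ∂(piN (Fin n)) := by
    simp only [Finset.sum_add_distrib, Finset.sum_const, Finset.card_univ, Fintype.card_fin,
      ← Finset.mul_sum, nsmul_eq_mul]
    push_cast
    ring
  rw [hs2] at hsum
  linarith

/-- norm of the trial state -/
theorem B4_norm {n : ℕ} {b : ℝ} {f g k1 : ℝ → ℝ} (hJ : JData b f g k1)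
    {χ : (Fin n → T3) → ℂ} (hχ : MemLp χ 2 (piN (Fin n))) :
    ∫⁻ z, ‖mG (Az f) (ext χ) z‖ₑ ^ 2 ∂(piN (Fin (n + 1)))
      = ENNReal.ofReal (∫ x, GA f x * ‖χ x‖ ^ 2 ∂(piN (Fin n))) := by
  obtain ⟨hA, -, -⟩ := AA_bm (n := n) hJ
  have hχm : AEMeasurable (fun x => ‖χ x‖ₑ ^ 2) (piN (Fin n)) := hχ.1.enorm.pow_const 2
  have m1 : AEMeasurable (fun q : T3 × (Fin n → T3) =>
      ENNReal.ofReal (AA f q.1 q.2 ^ 2) * ‖χ q.2‖ₑ ^ 2) (lam3.prod (piN (Fin n))) :=
    ((hA.pow 2).1.ennreal_ofReal.aemeasurable).mul (B3_snd hχm)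
  have hfun : (fun z => ‖mG (Az f) (ext χ) z‖ₑ ^ 2) = fun z : Fin (n + 1) → T3 =>
      (fun q : T3 × (Fin n → T3) => ENNReal.ofReal (AA f q.1 q.2 ^ 2) * ‖χ q.2‖ₑ ^ 2)
        (z 0, tl z) := by
    funext z
    dsimp only
    unfold mG Az ext
    rw [enorm_mul, mul_pow, B3_en]
  rw [hfun, B3_lint m1]
  have hG : BM (GA f : (Fin n → T3) → ℝ) := B3_avg (hA.pow 2)
  have hGi : Integrable (fun x => GA f x * ‖χ x‖ ^ 2) (piN (Fin n)) := by
    obtain ⟨C, hC0, hC⟩ := hG.exists_nonneg_bound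
    exact (int_sq hχ).bdd_mul hG.1.aestronglyMeasurable (c := C)
      (Eventually.of_forall fun x => hC x)
  rw [ofReal_integral_eq_lintegral_ofReal hGi (Eventually.of_forall fun x =>
    mul_nonneg (GA_bounds hJ x).1 (sq_nonneg _))]
  refine lintegral_congr fun x => ?_
  dsimp only
  have hs := (B3_slice hA x).pow 2
  rw [lintegral_mul_const _ hs.1.ennreal_ofReal,
    ← ofReal_integral_eq_lintegral_ofReal (hs.integrable _) (Eventually.of_forall fun y =>
      sq_nonneg _), B3_en2, ENNReal.ofReal_mul (GA_bounds hJ x).1]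
  rfl

theorem chem {n : ℕ} {R₀ : ℝ} {𝒱 : T3 → ℝ≥0∞} (hv : AEMeasurable 𝒱 lam3)
    (hev : ∀ y, 𝒱 (-y) = 𝒱 y) {b : ℝ} {f g k1 : ℝ → ℝ} (hJ : JData b f g k1)
    (hf0 : ∀ r, 0 ≤ r → r < R₀ → f r = 0) {c : ℝ} (hc0 : 0 ≤ c)
    (hc : ∫⁻ y, (ENNReal.ofReal (g (rr y) ^ 2 * rr y ^ 2 + |JData.eff f g k1 (rr y)|)
      + 𝒱 y * ENNReal.ofReal (f (rr y) ^ 2)) ∂lam3 ≤ ENNReal.ofReal c)
    (hn : (n : ℝ) * ∫ y, (1 - f (rr y) ^ 2) ∂lam3 ≤ 1 / 2) :
    E0 R₀ 𝒱 (n + 1) ≤ E0 R₀ 𝒱 n + ENNReal.ofReal (2 * n * c) := by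
  by_cases htop : E0 R₀ 𝒱 n = ⊤
  · rw [htop, top_add]
    exact le_top
  obtain ⟨e, he⟩ : ∃ e : ℝ, e = (E0 R₀ 𝒱 n).toReal := ⟨_, rfl⟩
  have he0 : 0 ≤ e := by
    rw [he]
    exact ENNReal.toReal_nonneg
  have heE : ENNReal.ofReal e = E0 R₀ 𝒱 n := by
    rw [he]
    exact ENNReal.ofReal_toReal htop
  have hmin : ∀ (φ : (Fin n → T3) → ℂ) (f' : Fin n → Fin 3 → (Fin n → T3) → ℂ), HG φ f' →
      Core R₀ φ → ENNReal.ofReal e * ∫⁻ x, ‖φ x‖ₑ ^ 2 ∂(piN (Fin n)) ≤ eS 𝒱 Finset.univ φ f' := by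
    intro φ f' h1 h2
    rw [heE]
    exact E0_le hev h1 h2
  obtain ⟨hA, hAj, hA0⟩ := AA_bm (n := n) hJ
  have hG : BM (GA f : (Fin n → T3) → ℝ) := B3_avg (hA.pow 2)
  obtain ⟨K, hK0, hK⟩ : ∃ K : ℝ, 0 ≤ K ∧ ∀ (j : Fin n) (α : Fin 3) (x : Fin n → T3),
      |GA' f g j α x| ≤ K := by
    have h1 : ∀ (j : Fin n) (α : Fin 3), ∃ C : ℝ, 0 ≤ C ∧ ∀ x, |GA' f g j α x| ≤ C := by
      intro j α
      have h2 : BM (fun q : T3 × (Fin n → T3) => 2 * AA f q.1 q.2 * AAj f g j α q.1 q.2) :=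
        (hA.const_mul 2).mul (hAj j α)
      have h3 : BM (GA' f g j α : (Fin n → T3) → ℝ) := B3_avg h2
      exact h3.exists_nonneg_bound
    choose C hC0 hC using h1
    refine ⟨∑ j, ∑ α, C j α, Finset.sum_nonneg fun j _ => Finset.sum_nonneg fun α _ => hC0 j α,
      fun j α x => (hC j α x).trans ?_⟩
    have h4 : C j α ≤ ∑ α, C j α :=
      Finset.single_le_sum (f := fun α => C j α) (fun α _ => hC0 j α) (Finset.mem_univ α)
    have h5 : ∑ α, C j α ≤ ∑ j, ∑ α, C j α :=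
      Finset.single_le_sum (f := fun j => ∑ α, C j α)
        (fun j _ => Finset.sum_nonneg fun α _ => hC0 j α) (Finset.mem_univ j)
    exact h4.trans h5
  obtain ⟨C, hC⟩ : ∃ C : ℝ, C = 6 * n * K ^ 2 + 2 * (e + 1) := ⟨_, rfl⟩
  have hC0 : 0 ≤ C := by
    rw [hC]
    positivity
  have key : ∀ δ : ℝ, 0 < δ → δ ≤ 1 →
      E0 R₀ 𝒱 (n + 1) ≤ ENNReal.ofReal (e + 2 * (Real.sqrt (δ * C) + n * c)) := by
    intro δ hδ hδ1
    have hlt : E0 R₀ 𝒱 n < E0 R₀ 𝒱 n + ENNReal.ofReal δ := by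
      refine ENNReal.lt_add_right htop ?_
      rw [Ne, ENNReal.ofReal_eq_zero, not_le]
      exact hδ
    have hlt2 : (⨅ (φ : (Fin n → T3) → ℂ) (_ : tAdm R₀ 𝒱 φ), tE 𝒱 φ)
        < E0 R₀ 𝒱 n + ENNReal.ofReal δ := hlt
    obtain ⟨χ, hχ1⟩ := iInf_lt_iff.mp hlt2
    obtain ⟨hadm, hχ2⟩ := iInf_lt_iff.mp hχ1
    obtain ⟨h, hFE⟩ := FE_of_tAdm hev hadm
    obtain ⟨hint, hrE, hrE0⟩ := rE_eq hv hFE.hg hFE.fin
    have hS : ∫ x, ‖χ x‖ ^ 2 ∂(piN (Fin n)) = 1 := hadm.2.1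
    have hr1 : rE 𝒱 Finset.univ χ h ≤ e + δ := by
      rw [tE_eq_eS hev hFE.hg, ← hrE, ← heE, ← ENNReal.ofReal_add he0 hδ.le] at hχ2
      exact (ENNReal.ofReal_le_ofReal_iff (by linarith)).mp hχ2.le
    have hr2 : e ≤ rE 𝒱 Finset.univ χ h := by
      have h1 := hmin χ h hFE.hg hFE.core
      rw [lint_sq hFE.hg.mem, hS, ENNReal.ofReal_one, mul_one, ← hrE] at h1
      exact (ENNReal.ofReal_le_ofReal_iff hrE0).mp h1
    have hvar := var_cs hv hFE (GA_WDN hJ) he0 hmin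
    obtain ⟨m, hm⟩ : ∃ m : ℝ, m = ∫ x, GA f x * ‖χ x‖ ^ 2 ∂(piN (Fin n)) := ⟨_, rfl⟩
    rw [← hm, hS, mul_one] at hvar
    have hbd := B4_bound hv hFE (fun x => (GA_bounds hJ x).1) (fun x => (GA_bounds hJ x).2.1)
      hK hS
    have hGi : Integrable (fun x => GA f x * ‖χ x‖ ^ 2) (piN (Fin n)) := by
      obtain ⟨D, hD0, hD⟩ := hG.exists_nonneg_bound
      exact (int_sq hFE.hg.mem).bdd_mul hG.1.aestronglyMeasurable (c := D)
        (Eventually.of_forall fun x => hD x)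
    have hm2 : 1 / 2 ≤ m := by
      have h1 : ∫ x, (1 / 2 : ℝ) * ‖χ x‖ ^ 2 ∂(piN (Fin n)) ≤ m := by
        rw [hm]
        refine integral_mono ((int_sq hFE.hg.mem).const_mul _) hGi fun x => ?_
        dsimp only
        refine mul_le_mul_of_nonneg_right ?_ (sq_nonneg _)
        have h2 := (GA_bounds hJ x).2.2
        linarith
      rwa [integral_const_mul, hS, mul_one] at h1
    have hG2 : 0 ≤ e * ∫ x, GA f x ^ 2 * ‖χ x‖ ^ 2 ∂(piN (Fin n)) :=
      mul_nonneg he0 (integral_nonneg fun x => mul_nonneg (sq_nonneg _) (sq_nonneg _))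
    have hB : (bG 𝒱 χ h (GA f) (GA' f g) - e * m) ^ 2 ≤ δ * C := by
      refine hvar.trans ?_
      have h1 : rE 𝒱 Finset.univ (mG (GA f) χ) (mGg (GA f) (GA' f g) χ h)
          - e * ∫ x, GA f x ^ 2 * ‖χ x‖ ^ 2 ∂(piN (Fin n)) ≤ C := by
        rw [hC]
        linarith
      have h2 : 0 ≤ rE 𝒱 Finset.univ χ h - e := by linarith
      have h3 : rE 𝒱 Finset.univ χ h - e ≤ δ := by linarith
      exact (mul_le_mul_of_nonneg_left h1 h2).trans (mul_le_mul_of_nonneg_right h3 hC0)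
    have hB2 : bG 𝒱 χ h (GA f) (GA' f g) ≤ e * m + Real.sqrt (δ * C) := by
      have h1 := (le_abs_self _).trans (Real.abs_le_sqrt hB)
      linarith
    have htr := trial_energy hv hev hJ hc0 hc hFE
    rw [hS, mul_one] at htr
    have hE := E0_le (R₀ := R₀) (𝒱 := 𝒱) hev ((ext_HG hFE.hg).mul (Az_WDN hJ))
      (B4_core hf0 hFE.core)
    rw [B4_norm hJ hFE.hg.mem, ← hm] at hE
    have hm0 : 0 < m := by linarith
    have hfin : E0 R₀ 𝒱 (n + 1) * ENNReal.ofReal m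
        ≤ ENNReal.ofReal (e * m + Real.sqrt (δ * C) + n * c) :=
      (hE.trans htr).trans (ENNReal.ofReal_le_ofReal (by linarith))
    have hmne : ENNReal.ofReal m ≠ 0 := by
      rw [Ne, ENNReal.ofReal_eq_zero, not_le]
      exact hm0
    rw [← ENNReal.le_div_iff_mul_le (Or.inl hmne) (Or.inl ENNReal.ofReal_ne_top),
      ← ENNReal.ofReal_div_of_pos hm0] at hfin
    refine hfin.trans (ENNReal.ofReal_le_ofReal ?_)
    rw [div_le_iff₀ hm0]
    have h5 : 0 ≤ Real.sqrt (δ * C) := Real.sqrt_nonneg _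
    have h6 : 0 ≤ (n : ℝ) * c := mul_nonneg (Nat.cast_nonneg n) hc0
    nlinarith
  refine ENNReal.le_of_forall_pos_le_add fun ε hε _ => ?_
  have hεr : (0 : ℝ) < ε := hε
  obtain ⟨δ, hδ⟩ : ∃ δ : ℝ, δ = min 1 ((ε : ℝ) ^ 2 / (4 * (C + 1))) := ⟨_, rfl⟩
  have hδ0 : 0 < δ := by
    rw [hδ]
    exact lt_min one_pos (by positivity)
  have hδ1 : δ ≤ 1 := by
    rw [hδ]
    exact min_le_left _ _
  have hδ2 : δ * C ≤ ((ε : ℝ) / 2) ^ 2 := by
    have h1 : δ ≤ (ε : ℝ) ^ 2 / (4 * (C + 1)) := by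
      rw [hδ]
      exact min_le_right _ _
    have h2 : δ * (4 * (C + 1)) ≤ (ε : ℝ) ^ 2 := by
      rwa [le_div_iff₀ (by positivity)] at h1
    nlinarith
  have h3 : Real.sqrt (δ * C) ≤ (ε : ℝ) / 2 := by
    rw [← Real.sqrt_sq (show (0 : ℝ) ≤ ε / 2 by positivity)]
    exact Real.sqrt_le_sqrt hδ2
  refine (key δ hδ0 hδ1).trans ?_
  have h6 : 0 ≤ (n : ℝ) * c := mul_nonneg (Nat.cast_nonneg n) hc0
  have h7 : ENNReal.ofReal (e + 2 * (Real.sqrt (δ * C) + n * c))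
      ≤ ENNReal.ofReal (e + 2 * n * c + ε) := ENNReal.ofReal_le_ofReal (by linarith)
  refine h7.trans (le_of_eq ?_)
  rw [ENNReal.ofReal_add (by linarith) hεr.le, ENNReal.ofReal_add he0 (by linarith), heE,
    ENNReal.ofReal_coe_nnreal]

theorem E0_zero (R₀ : ℝ) (𝒱 : T3 → ℝ≥0∞) : E0 R₀ 𝒱 0 = 0 := by
  have h0 : tE 𝒱 (fun _ : Fin 0 → T3 => (1 : ℂ)) = 0 := by
    unfold tE
    simp
  have hadm : tAdm R₀ 𝒱 (fun _ : Fin 0 → T3 => (1 : ℂ)) := by
    refine ⟨memLp_const _, by simp, fun x i => i.elim0, ?_⟩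
    rw [h0]
    exact ENNReal.zero_lt_top
  refine le_antisymm ?_ zero_le
  unfold E0
  exact (iInf₂_le _ hadm).trans (le_of_eq h0)

/-- all ground state energies up to `N` particles -/
theorem E0_chain {N : ℕ} {R₀ μ : ℝ} {𝒱 : T3 → ℝ≥0∞} (hμ : 0 ≤ μ)
    (h : ∀ n < N, E0 R₀ 𝒱 (n + 1) ≤ E0 R₀ 𝒱 n + ENNReal.ofReal μ) :
    ∀ k n, n + k = N → E0 R₀ 𝒱 n < ⊤ ∧ E0 R₀ 𝒱 N ≤ E0 R₀ 𝒱 n + ENNReal.ofReal (k * μ) := by
  have hfin : ∀ m, m ≤ N → E0 R₀ 𝒱 m < ⊤ := by
    intro m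
    induction m with
    | zero =>
      intro _
      rw [E0_zero]
      exact ENNReal.zero_lt_top
    | succ m ih =>
      intro hm
      exact (h m (by omega)).trans_lt
        (ENNReal.add_lt_top.mpr ⟨ih (by omega), ENNReal.ofReal_lt_top⟩)
  intro k
  induction k with
  | zero =>
    intro n hn
    refine ⟨hfin n (by omega), ?_⟩
    have h1 : n = N := by omega
    rw [h1]
    exact le_self_add
  | succ k ih =>
    intro n hn
    refine ⟨hfin n (by omega), ?_⟩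
    have h1 := (ih (n + 1) (by omega)).2
    have h2 := h n (by omega)
    refine h1.trans ((add_le_add h2 le_rfl).trans (le_of_eq ?_))
    rw [add_assoc, ← ENNReal.ofReal_add hμ (by positivity)]
    congr 2
    push_cast
    ring

end Pool.Agent.Lib.MP_4952d6_mp.LA

end

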