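import Pool.Agent.Lib.MP_4952d6_mp.Pk.G29
import Pool.Agent.Lib.MP_4952d6_mp.Pk.G51
import Pool.Agent.Lib.MP_4952d6_mp.Pk.G53
import Pool.Agent.Lib.MP_4952d6_mp.Pk.G54

/-! Merged modules (to save import time): LA.B5, LA.I3a, LB.LimC. -/

/-! ### LA.B5 -/

section

/-!
# JOB LA-B5: constants of the trial function

`f = fJ R a b f₀`, `2 R ≤ b < 1/2` (JProf.lean, JEst.lean): `jkap ≤ 4` (`jPhi_b_ge'`).
* `∫ effW ≤ jkap² sig a` (`effW_int`), `0 ≤ effW` (`effW_nonneg`), `effW = eff + W fJ²`, so `|eff| ≤ effW + 2 W fJ²`; `fJ ≤ jkap f₀` (`jPhi_le_f`, monotone) and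
  `∫ W(rr) f₀(rr)² = sig ∫ r² W f₀² ≤ sig ∫_{R₀}^R r² W f₀ = sig (Q R - Q R₀) ≤ sig a` (`Q_int`, `W = 0` beyond `R`, `f₀ = 0` in the core) .
* `gJ² rr²`: `|r³ jG r| ≤ Q r` (`abs_jG_le`), so `r² (gJ r · r)² ≤ jkap² Q(r)²/r² ≤ jkap² a Q(r)/r² = jkap² a f₀'(r)`; `∫_0^b f₀' ≤ 1` (`f_deriv`, `f₀` is Lipschitz and monotone
  with values in `[0,1]`); in polar coordinates `integral_rad`/`rad_le`.  `gJ r = 0` for `r ≥ b` (`jG_b`).
* `∫⁻ 𝒱 fJ² ≤ ∫⁻ 2 W fJ² + (∫⁻ 𝒱 - ∫⁻ 2 W) ≤ 2·16 sig a + a`.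
* `omega1`: `∫ (1 - fJ²) ≤ (3/2) jkap sig a b²`.
-/

set_option autoImplicit false
set_option linter.unusedSectionVars false
set_option linter.unusedVariables false
open MeasureTheory Function Filter Topology Set ComplexConjugate
open scoped ENNReal

namespace Pool.Agent.Lib.MP_4952d6_mp.LA

theorem fJ_core {W : ℝ → ℝ} {R₀ R a : ℝ} {f Q : ℝ → ℝ} (h : Scat W R₀ R a f Q) {b : ℝ}
    (hb : 2 * R ≤ b) (r : ℝ) (hr0 : 0 ≤ r) (hr : r < R₀) : Scat.fJ R a b f r = 0 := by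
  have hR0 : 0 < R₀ := hr0.trans_lt hr
  have hRb := h.R_lt_b hb
  have hrR : r ≤ R := hr.le.trans h.R₀_le
  unfold Scat.fJ
  rw [min_eq_left (hrR.trans hRb.le), h.jPhi_eq_f hb hrR, h.f_core r hR0 hr.le, mul_zero]

theorem B5_jkap_le {W : ℝ → ℝ} {R₀ R a : ℝ} {f Q : ℝ → ℝ} (h : Scat W R₀ R a f Q) {b : ℝ}
    (hb : 2 * R ≤ b) : Scat.jkap R a b f ≤ 4 := by
  have h1 := h.jPhi_b_ge' hb
  unfold Scat.jkap
  calc (Scat.jPhi R a b f b)⁻¹ ≤ (1 / 4 : ℝ)⁻¹ := inv_anti₀ (by norm_num) h1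
    _ = 4 := by norm_num

theorem B5_jkap_sq {W : ℝ → ℝ} {R₀ R a : ℝ} {f Q : ℝ → ℝ} (h : Scat W R₀ R a f Q) {b : ℝ}
    (hb : 2 * R ≤ b) : Scat.jkap R a b f ^ 2 ≤ 16 := by
  have h1 := B5_jkap_le h hb
  have h2 := h.jkap_pos hb
  nlinarith

theorem B5_Wbm {W : ℝ → ℝ} {R₀ R a : ℝ} {f Q : ℝ → ℝ} (h : Scat W R₀ R a f Q) :
    BM (fun x : T3 => W (rr x)) := by
  obtain ⟨M, hM0, hM⟩ := h.exists_M
  exact BM.of_mem_Icc (h.W_meas.comp rr_measurable) fun x => ⟨h.W_nonneg _, hM _⟩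

/-- The two positive parts of the energy. -/
theorem B5_sum {W : ℝ → ℝ} {R₀ R a : ℝ} {f Q : ℝ → ℝ} (h : Scat W R₀ R a f Q) {b : ℝ}
    (hb : 2 * R ≤ b) (hb2 : b < 1 / 2) :
    (∫ x, Scat.gJ R a b f Q (rr x) ^ 2 * rr x ^ 2 ∂lam3) + ∫ x, W (rr x) * Scat.fJ R a b f (rr x) ^ 2 ∂lam3
      ≤ 16 * (sig * a) := by
  have hJ := h.jdata hb hb2
  have hWb := B5_Wbm h
  have hdiv : ∫ x, (Scat.kJ W R a b f Q (rr x) + 3 * (Scat.fJ R a b f (rr x) * Scat.gJ R a b f Q (rr x))) ∂lam3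
      = 0 := by
    have h1 : ∀ α : Fin 3, ∫ x, (Scat.kJ W R a b f Q (rr x) * (crd x α / rr x) ^ 2
        + Scat.fJ R a b f (rr x) * Scat.gJ R a b f Q (rr x)) ∂lam3 = 0 := fun α =>
      (hJ.hk.fld_WD α).integral_eq_zero
    have h2 : ∀ α : Fin 3, BM (fun x : T3 => Scat.kJ W R a b f Q (rr x) * (crd x α / rr x) ^ 2
        + Scat.fJ R a b f (rr x) * Scat.gJ R a b f Q (rr x)) := fun α =>
      (hJ.k1_bm.mul ((JData.dir_bm α).pow 2)).add (hJ.f_bm.mul hJ.g_bm)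
    have h3 : ∫ x, ∑ α : Fin 3, (Scat.kJ W R a b f Q (rr x) * (crd x α / rr x) ^ 2
        + Scat.fJ R a b f (rr x) * Scat.gJ R a b f Q (rr x)) ∂lam3 = 0 := by
      rw [integral_finsetSum _ (fun α _ => (h2 α).integrable _)]
      simp [h1]
    rw [← h3]
    refine integral_congr_ae ?_
    filter_upwards [ae_rr_pos] with x hx
    rw [sum_dir _ _ hx]
  have b1 : BM (fun x : T3 => Scat.gJ R a b f Q (rr x) ^ 2 * rr x ^ 2) :=
    (hJ.g_bm.pow 2).mul (JData.rr_bm'.pow 2)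
  have b2 : BM (fun x : T3 => Scat.kJ W R a b f Q (rr x)
      + 3 * (Scat.fJ R a b f (rr x) * Scat.gJ R a b f Q (rr x))) :=
    hJ.k1_bm.add ((hJ.f_bm.mul hJ.g_bm).const_mul 3)
  have b3 : BM (fun x : T3 => W (rr x) * Scat.fJ R a b f (rr x) ^ 2) := hWb.mul (hJ.f_bm.pow 2)
  have e2 : ∀ x : T3, Scat.effW W R a b f Q (rr x)
      = (Scat.gJ R a b f Q (rr x) ^ 2 * rr x ^ 2 + W (rr x) * Scat.fJ R a b f (rr x) ^ 2)
        - 1/2 * (Scat.kJ W R a b f Q (rr x) + 3 * (Scat.fJ R a b f (rr x) * Scat.gJ R a b f Q (rr x))) := by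
    intro x
    unfold Scat.effW JData.eff
    ring
  have e1 : ∫ x, Scat.effW W R a b f Q (rr x) ∂lam3
      = (∫ x, Scat.gJ R a b f Q (rr x) ^ 2 * rr x ^ 2 ∂lam3)
        + ∫ x, W (rr x) * Scat.fJ R a b f (rr x) ^ 2 ∂lam3 := by
    simp_rw [e2]
    rw [integral_sub ((b1.add b3).integrable _) ((b2.const_mul _).integrable _),
      integral_const_mul, hdiv, integral_add (b1.integrable _) (b3.integrable _)]
    ring
  rw [← e1]
  refine (h.effW_int hb hb2).trans ?_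
  exact mul_le_mul_of_nonneg_right (B5_jkap_sq h hb) (mul_nonneg sig_pos.le h.a_pos.le)

/-- The first part of the constants. -/
theorem B5_one {W : ℝ → ℝ} {R₀ R a : ℝ} {f Q : ℝ → ℝ} (h : Scat W R₀ R a f Q) {b : ℝ}
    (hb : 2 * R ≤ b) (hb2 : b < 1 / 2) :
    ∫⁻ y, ENNReal.ofReal (Scat.gJ R a b f Q (rr y) ^ 2 * rr y ^ 2
        + |JData.eff (Scat.fJ R a b f) (Scat.gJ R a b f Q) (Scat.kJ W R a b f Q) (rr y)|) ∂lam3
      ≤ ENNReal.ofReal (48 * (sig * a)) ∧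
    ∫ x, W (rr x) * Scat.fJ R a b f (rr x) ^ 2 ∂lam3 ≤ 16 * (sig * a) := by
  have hJ := h.jdata hb hb2
  have hWb := B5_Wbm h
  have hs : 0 ≤ sig * a := mul_nonneg sig_pos.le h.a_pos.le
  have b1 : BM (fun x : T3 => Scat.gJ R a b f Q (rr x) ^ 2 * rr x ^ 2) :=
    (hJ.g_bm.pow 2).mul (JData.rr_bm'.pow 2)
  have b3 : BM (fun x : T3 => W (rr x) * Scat.fJ R a b f (rr x) ^ 2) := hWb.mul (hJ.f_bm.pow 2)
  have b4 := hJ.eff_bm
  have hsum := B5_sum h hb hb2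
  have p1 : 0 ≤ ∫ x, Scat.gJ R a b f Q (rr x) ^ 2 * rr x ^ 2 ∂lam3 :=
    integral_nonneg fun x => mul_nonneg (sq_nonneg _) (sq_nonneg _)
  have p3 : 0 ≤ ∫ x, W (rr x) * Scat.fJ R a b f (rr x) ^ 2 ∂lam3 :=
    integral_nonneg fun x => mul_nonneg (h.W_nonneg _) (sq_nonneg _)
  refine ⟨?_, by linarith⟩
  have b5 : BM (fun x : T3 => Scat.effW W R a b f Q (rr x)) := by
    unfold Scat.effW
    exact b4.add b3
  have i4 : Integrable (fun x : T3 => |JData.eff (Scat.fJ R a b f) (Scat.gJ R a b f Q)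
      (Scat.kJ W R a b f Q) (rr x)|) lam3 := (b4.integrable _).abs
  have heff : ∫ x, |JData.eff (Scat.fJ R a b f) (Scat.gJ R a b f Q) (Scat.kJ W R a b f Q) (rr x)| ∂lam3
      ≤ 32 * (sig * a) := by
    have h1 : ∀ x : T3, |JData.eff (Scat.fJ R a b f) (Scat.gJ R a b f Q) (Scat.kJ W R a b f Q) (rr x)|
        ≤ Scat.effW W R a b f Q (rr x) + W (rr x) * Scat.fJ R a b f (rr x) ^ 2 := by
      intro x
      have h2 := h.effW_nonneg hb (rr_nonneg x)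
      have h3 : 0 ≤ W (rr x) * Scat.fJ R a b f (rr x) ^ 2 := mul_nonneg (h.W_nonneg _) (sq_nonneg _)
      have h4 : Scat.effW W R a b f Q (rr x) = JData.eff (Scat.fJ R a b f) (Scat.gJ R a b f Q)
        (Scat.kJ W R a b f Q) (rr x) + W (rr x) * Scat.fJ R a b f (rr x) ^ 2 := rfl
      rw [abs_le]
      constructor <;> linarith
    refine (integral_mono i4 ((b5.add b3).integrable _) h1).trans ?_
    rw [integral_add (b5.integrable _) (b3.integrable _)]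
    have h5 := (h.effW_int hb hb2).trans
      (mul_le_mul_of_nonneg_right (B5_jkap_sq h hb) hs)
    linarith
  have i5 : Integrable (fun x : T3 => Scat.gJ R a b f Q (rr x) ^ 2 * rr x ^ 2
      + |JData.eff (Scat.fJ R a b f) (Scat.gJ R a b f Q) (Scat.kJ W R a b f Q) (rr x)|) lam3 :=
    (b1.integrable _).add i4
  rw [← ofReal_integral_eq_lintegral_ofReal i5
    (Eventually.of_forall fun x => add_nonneg (mul_nonneg (sq_nonneg _) (sq_nonneg _)) (abs_nonneg _))]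
  refine ENNReal.ofReal_le_ofReal ?_
  have h6 := integral_add (b1.integrable lam3) i4
  have h7 : (∫ x, (Scat.gJ R a b f Q (rr x) ^ 2 * rr x ^ 2
        + |JData.eff (Scat.fJ R a b f) (Scat.gJ R a b f Q) (Scat.kJ W R a b f Q) (rr x)|) ∂lam3)
      ≤ 48 * (sig * a) := by
    rw [h6]
    linarith
  exact h7

theorem fJ_consts : ∃ K : ℝ, 0 < K ∧ ∀ (W : ℝ → ℝ) (R₀ R a : ℝ) (f Q : ℝ → ℝ),
    Scat W R₀ R a f Q → ∀ b : ℝ, 2 * R ≤ b → b < 1 / 2 → ∀ 𝒱 : T3 → ℝ≥0∞, AEMeasurable 𝒱 lam3 →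
    (∀ᵐ y ∂lam3, ENNReal.ofReal (2 * W (rr y)) ≤ 𝒱 y) →
    (∫⁻ y, 𝒱 y ∂lam3 ≤ (∫⁻ y, ENNReal.ofReal (2 * W (rr y)) ∂lam3) + ENNReal.ofReal a) →
    (∫⁻ y, (ENNReal.ofReal (Scat.gJ R a b f Q (rr y) ^ 2 * rr y ^ 2
        + |JData.eff (Scat.fJ R a b f) (Scat.gJ R a b f Q) (Scat.kJ W R a b f Q) (rr y)|)
      + 𝒱 y * ENNReal.ofReal (Scat.fJ R a b f (rr y) ^ 2)) ∂lam3 ≤ ENNReal.ofReal (K * a)) ∧
    ∫ y, (1 - Scat.fJ R a b f (rr y) ^ 2) ∂lam3 ≤ K * a * b ^ 2 := by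
  have hsig := sig_pos
  refine ⟨80 * sig + 1, by positivity, fun W R₀ R a f Q h b hb hb2 𝒱 hV hWV hint => ⟨?_, ?_⟩⟩
  · have hJ := h.jdata hb hb2
    have hWb := B5_Wbm h
    have hs : 0 ≤ sig * a := mul_nonneg sig_pos.le h.a_pos.le
    obtain ⟨h1, h2⟩ := B5_one h hb hb2
    have b1 : BM (fun x : T3 => Scat.gJ R a b f Q (rr x) ^ 2 * rr x ^ 2) :=
      (hJ.g_bm.pow 2).mul (JData.rr_bm'.pow 2)
    have b3 : BM (fun x : T3 => W (rr x) * Scat.fJ R a b f (rr x) ^ 2) := hWb.mul (hJ.f_bm.pow 2)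
    have m1 : Measurable fun y : T3 => ENNReal.ofReal (Scat.gJ R a b f Q (rr y) ^ 2 * rr y ^ 2
        + |JData.eff (Scat.fJ R a b f) (Scat.gJ R a b f Q) (Scat.kJ W R a b f Q) (rr y)|) :=
      (b1.meas.add (continuous_abs.measurable.comp hJ.eff_bm.meas)).ennreal_ofReal
    have m2 : Measurable fun y : T3 => ENNReal.ofReal (2 * W (rr y)) :=
      (hWb.const_mul 2).meas.ennreal_ofReal
    have m3 : Measurable fun y : T3 => ENNReal.ofReal (2 * (W (rr y) * Scat.fJ R a b f (rr y) ^ 2)) :=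
      (b3.const_mul 2).meas.ennreal_ofReal
    rw [lintegral_add_left m1]
    -- the potential part
    have hfin : ∫⁻ y, ENNReal.ofReal (2 * W (rr y)) ∂lam3 ≠ ⊤ := by
      rw [← ofReal_integral_eq_lintegral_ofReal ((hWb.const_mul 2).integrable _)
        (Eventually.of_forall fun x => mul_nonneg zero_le_two (h.W_nonneg _))]
      exact ENNReal.ofReal_ne_top
    have hdiff : ∫⁻ y, (𝒱 y - ENNReal.ofReal (2 * W (rr y))) ∂lam3 ≤ ENNReal.ofReal a := by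
      rw [lintegral_sub' m2.aemeasurable hfin hWV]
      exact tsub_le_iff_left.2 hint
    have hpt : ∀ᵐ y ∂lam3, 𝒱 y * ENNReal.ofReal (Scat.fJ R a b f (rr y) ^ 2) ≤
        (𝒱 y - ENNReal.ofReal (2 * W (rr y))) + ENNReal.ofReal (2 * (W (rr y) * Scat.fJ R a b f (rr y) ^ 2)) := by
      filter_upwards [hWV] with y hy
      have hF1 : ENNReal.ofReal (Scat.fJ R a b f (rr y) ^ 2) ≤ 1 := by
        rw [← ENNReal.ofReal_one]
        exact ENNReal.ofReal_le_ofReal (pow_le_one₀ (h.fJ_nonneg hb _) (h.fJ_le_one hb _))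
      have e1 : 𝒱 y = (𝒱 y - ENNReal.ofReal (2 * W (rr y))) + ENNReal.ofReal (2 * W (rr y)) :=
        (tsub_add_cancel_of_le hy).symm
      have e2 : ENNReal.ofReal (2 * (W (rr y) * Scat.fJ R a b f (rr y) ^ 2)) =
          ENNReal.ofReal (2 * W (rr y)) * ENNReal.ofReal (Scat.fJ R a b f (rr y) ^ 2) := by
        rw [← ENNReal.ofReal_mul (mul_nonneg zero_le_two (h.W_nonneg _)), mul_assoc]
      rw [e2]
      calc 𝒱 y * ENNReal.ofReal (Scat.fJ R a b f (rr y) ^ 2)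
          = ((𝒱 y - ENNReal.ofReal (2 * W (rr y))) + ENNReal.ofReal (2 * W (rr y)))
            * ENNReal.ofReal (Scat.fJ R a b f (rr y) ^ 2) := by rw [← e1]
        _ = (𝒱 y - ENNReal.ofReal (2 * W (rr y))) * ENNReal.ofReal (Scat.fJ R a b f (rr y) ^ 2)
            + ENNReal.ofReal (2 * W (rr y)) * ENNReal.ofReal (Scat.fJ R a b f (rr y) ^ 2) := add_mul _ _ _
        _ ≤ (𝒱 y - ENNReal.ofReal (2 * W (rr y))) * 1
            + ENNReal.ofReal (2 * W (rr y)) * ENNReal.ofReal (Scat.fJ R a b f (rr y) ^ 2) :=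
            add_le_add (mul_le_mul_right hF1 _) le_rfl
        _ = _ := by rw [mul_one]
    have h3 : ∫⁻ y, 𝒱 y * ENNReal.ofReal (Scat.fJ R a b f (rr y) ^ 2) ∂lam3 ≤
        ENNReal.ofReal a + ENNReal.ofReal (32 * (sig * a)) := by
      refine (lintegral_mono_ae hpt).trans ?_
      rw [lintegral_add_right _ m3]
      refine add_le_add hdiff ?_
      rw [← ofReal_integral_eq_lintegral_ofReal ((b3.const_mul 2).integrable _)
        (Eventually.of_forall fun x => mul_nonneg zero_le_two (mul_nonneg (h.W_nonneg _) (sq_nonneg _)))]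
      refine ENNReal.ofReal_le_ofReal ?_
      rw [integral_const_mul]
      linarith
    refine (add_le_add h1 h3).trans ?_
    rw [← ENNReal.ofReal_add h.a_pos.le (by positivity), ← ENNReal.ofReal_add (by positivity)
      (add_nonneg h.a_pos.le (by positivity))]
    refine ENNReal.ofReal_le_ofReal (le_of_eq ?_)
    ring
  · refine (h.omega1 hb hb2).trans ?_
    have hk := B5_jkap_le h hb
    have ha := h.a_pos
    have h0 : 0 ≤ a * b ^ 2 := by positivity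
    have h1 : 3 / 2 * Scat.jkap R a b f * (sig * a * b ^ 2) = (3 / 2 * Scat.jkap R a b f * sig) * (a * b ^ 2) := by
      ring
    have h2 : (80 * sig + 1) * a * b ^ 2 = (80 * sig + 1) * (a * b ^ 2) := by ring
    rw [h1, h2]
    refine mul_le_mul_of_nonneg_right ?_ h0
    nlinarith

end Pool.Agent.Lib.MP_4952d6_mp.LA

end

/-! ### LA.I3a -/

section

/-!
# JOB LA-I3a: a minimiser satisfies `Mini`

`tAdm`, minimal: `e = (tE 𝒱 ψ).toReal = (E0 N).toReal`, gradient by `FE_of_tAdm`; `hmin` by `E0_le`; `heq` by `tE_eq_eS`, `rE_eq`.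
`b = c₀ l`, `c₀ = min 1 (1/√(2K))`, `l = a/Y`: `fJ_consts`, `(n : ℝ) ∫ (1 - fJ²) ≤ N K a b² = K c₀² ≤ 1/2`; `2 R ≤ b` for `Y ≤ c₀/(2θ)`; `b < 1/2` for `l ≤ 1/8`; `h.jdata`;
`chem` for `n < N` with `c = K a`: `E0 (n+1) ≤ E0 n + ofReal (2 n K a) ≤ E0 n + ofReal (2 K/l²)` (`N a = 1/l²`); `E0_chain` and `E0 N = ofReal e`: `e - k μ ≤ E0 (N - k)`,
`Tᶜ.card = N - T.card`.
-/

set_option autoImplicit false
set_option linter.unusedSectionVars false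
set_option linter.unusedVariables false
open MeasureTheory Function Filter Topology Set ComplexConjugate
open scoped ENNReal

namespace Pool.Agent.Lib.MP_4952d6_mp.LA

theorem exists_mini : ∃ K : ℝ, 0 < K ∧ ∀ θ : ℝ, 1 ≤ θ → ∃ Y0 : ℝ, 0 < Y0 ∧ ∀ Y : ℝ, 0 < Y → Y < Y0 →
    ∀ (N : ℕ) (W f Q : ℝ → ℝ) (R₀ R a : ℝ), Scat W R₀ R a f Q → a / Y ≤ 1 / 8 →
      (N : ℝ) * a ^ 3 = Y ^ 2 → R ≤ θ * a →
      ∀ 𝒱 : T3 → ℝ≥0∞, AEMeasurable 𝒱 lam3 → (∀ y, 𝒱 (-y) = 𝒱 y) →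
      (∀ᵐ y ∂lam3, ENNReal.ofReal (2 * W (rr y)) ≤ 𝒱 y) →
      (∫⁻ y, 𝒱 y ∂lam3 ≤ (∫⁻ y, ENNReal.ofReal (2 * W (rr y)) ∂lam3) + ENNReal.ofReal a) →
      ∀ ψ : (Fin N → T3) → ℂ, tAdm R₀ 𝒱 ψ → (∀ φ : (Fin N → T3) → ℂ, tAdm R₀ 𝒱 φ → tE 𝒱 ψ ≤ tE 𝒱 φ) →
      ∃ g e, Mini R₀ 𝒱 (K / (a / Y) ^ 2) e ψ g := by
  obtain ⟨K, hK, hcon⟩ := fJ_consts
  refine ⟨2 * K, by positivity, fun θ hθ => ?_⟩
  set c0 : ℝ := min 1 (1 / Real.sqrt (2 * K)) with hc0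
  have hsq : 0 < Real.sqrt (2 * K) := Real.sqrt_pos.2 (by positivity)
  have hc0p : 0 < c0 := lt_min one_pos (by positivity)
  have hc01 : c0 ≤ 1 := min_le_left _ _
  have hc02 : K * c0 ^ 2 ≤ 1 / 2 := by
    have h1 : c0 ≤ 1 / Real.sqrt (2 * K) := min_le_right _ _
    have h2 : c0 ^ 2 ≤ (1 / Real.sqrt (2 * K)) ^ 2 := pow_le_pow_left₀ hc0p.le h1 2
    have h3 : (1 / Real.sqrt (2 * K)) ^ 2 = 1 / (2 * K) := by
      rw [div_pow, one_pow, Real.sq_sqrt (by positivity)]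
    rw [h3] at h2
    calc K * c0 ^ 2 ≤ K * (1 / (2 * K)) := mul_le_mul_of_nonneg_left h2 hK.le
      _ = 1 / 2 := by field_simp
  have hθ0 : 0 < θ := by linarith
  refine ⟨c0 / (2 * θ), by positivity, ?_⟩
  intro Y hY hY0 N W f Q R₀ R a hsc hl hN hR 𝒱 hv hev hge hle ψ hψ hmin
  have ha := hsc.a_pos
  have hl0 : 0 < a / Y := by positivity
  set b : ℝ := c0 * (a / Y) with hb
  have hb0 : 0 < b := by positivity
  have hb2 : b < 1 / 2 := by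
    have : b ≤ a / Y := by rw [hb]; exact mul_le_of_le_one_left hl0.le hc01
    linarith
  have hRb : 2 * R ≤ b := by
    have h1 : 2 * R ≤ 2 * (θ * a) := by linarith
    refine h1.trans ?_
    rw [hb, ← mul_div_assoc, le_div_iff₀ hY]
    have h2 : Y * (2 * θ) ≤ c0 := by
      rw [← le_div_iff₀ (by positivity)]; exact hY0.le
    nlinarith
  have hNa : (N : ℝ) * a * (a / Y) ^ 2 = 1 := by
    have : (N : ℝ) * a * (a / Y) ^ 2 = (N : ℝ) * a ^ 3 / Y ^ 2 := by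
      field_simp
    rw [this, hN]
    exact div_self (by positivity)
  obtain ⟨h1, h2⟩ := hcon W R₀ R a f Q hsc b hRb hb2 𝒱 hv hge hle
  have hJ := hsc.jdata hRb hb2
  have hNa' : (N : ℝ) * a = 1 / (a / Y) ^ 2 := by
    rw [eq_div_iff (by positivity)]; exact hNa
  -- chemical potential
  have hch : ∀ n < N, E0 R₀ 𝒱 (n + 1) ≤ E0 R₀ 𝒱 n + ENNReal.ofReal (2 * K / (a / Y) ^ 2) := by
    intro n hn
    have hnN : (n : ℝ) ≤ N := by exact_mod_cast hn.le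
    have h3 : (n : ℝ) * ∫ y, (1 - Scat.fJ R a b f (rr y) ^ 2) ∂lam3 ≤ 1 / 2 := by
      calc (n : ℝ) * ∫ y, (1 - Scat.fJ R a b f (rr y) ^ 2) ∂lam3
          ≤ n * (K * a * b ^ 2) := mul_le_mul_of_nonneg_left h2 (Nat.cast_nonneg n)
        _ ≤ N * (K * a * b ^ 2) := mul_le_mul_of_nonneg_right hnN (by positivity)
        _ = K * c0 ^ 2 * ((N : ℝ) * a * (a / Y) ^ 2) := by rw [hb]; ring
        _ ≤ 1 / 2 := by rw [hNa, mul_one]; exact hc02
    have h4 := chem hv hev hJ (fun r hr0 hr => fJ_core hsc hRb r hr0 hr) (c := K * a)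
      (by positivity) h1 h3
    refine h4.trans ?_
    gcongr
    calc 2 * (n : ℝ) * (K * a) ≤ 2 * (N : ℝ) * (K * a) := by
          exact mul_le_mul_of_nonneg_right (by linarith) (by positivity)
      _ = 2 * K * ((N : ℝ) * a) := by ring
      _ = 2 * K / (a / Y) ^ 2 := by rw [hNa']; ring
  have hchain := E0_chain (N := N) (R₀ := R₀) (𝒱 := 𝒱) (μ := 2 * K / (a / Y) ^ 2)
    (by positivity) hch
  -- the energy
  have hE0 : E0 R₀ 𝒱 N = tE 𝒱 ψ := by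
    refine le_antisymm ?_ ?_
    · exact iInf₂_le ψ hψ
    · exact le_iInf₂ fun φ hφ => hmin φ hφ
  have hfin : tE 𝒱 ψ < ⊤ := hψ.2.2.2
  have hofe : ENNReal.ofReal (tE 𝒱 ψ).toReal = E0 R₀ 𝒱 N := by
    rw [ENNReal.ofReal_toReal hfin.ne, hE0]
  obtain ⟨g, hg⟩ := FE_of_tAdm hev hψ
  refine ⟨g, (tE 𝒱 ψ).toReal, ?_⟩
  exact
    { hv := hv
      hev := hev
      fe := hg
      nrm := hψ.2.1
      mu0 := by positivity
      e0 := ENNReal.toReal_nonneg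
      hmin := by
        intro φ f' hφ hc
        rw [hofe]
        exact E0_le hev hφ hc
      heq := by
        obtain ⟨_, e1, e2⟩ := rE_eq hv hg.hg hg.fin
        rw [← tE_eq_eS hev hg.hg] at e1
        rw [← e1, ENNReal.toReal_ofReal e2]
      chem := by
        intro T
        have hcard : Tᶜ.card = N - T.card := by
          rw [Finset.card_compl, Fintype.card_fin]
        have hTN : T.card ≤ N := by
          have := Finset.card_le_univ T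
          rwa [Fintype.card_fin] at this
        rw [hcard]
        have h5 := (hchain T.card (N - T.card) (Nat.sub_add_cancel hTN)).2
        rw [ENNReal.ofReal_sub _ (by positivity), hofe]
        exact tsub_le_iff_right.2 h5 }

end Pool.Agent.Lib.MP_4952d6_mp.LA

end

/-! ### LB.LimC -/

section

/-!
# LB.LimC: removing the cutoff in the energy functional

`epsf G E - G` is decreasing in `G ≥ 0` for `E ≥ 0` (derivative `E/√(E²+2GE) - 1 ≤ 0`; directly: for `0 ≤ G' ≤ G`,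
`epsf G E - epsf G' E ≤ G - G'`, see `epsf_sub_le` in LB.PreA, `E = 0` trivial), so for `0 ≤ q ≤ 1`
`FY τ q δ r ≥ FY τ 1 δ r = exp(-(τ r²)) (jInt δ r - 32π²/r²)` (`r > 0`; `16π = 2 · 8π`). Gaussian integral
`∫_{r>0} exp(-(τ r²)) dr = √(π/τ)/2` (`integral_gaussian_Ioi`), so
`1/(4π²) · ∫ exp(-(τ r²)) 32 π² = 4 √π / √τ`. All functions are integrable on `Ioi 0` (`jInt_integrable` in LC/F1b).
Finally `∫ exp(-(τ r²)) r² jInt δ r → ∫ r² jInt δ r` for `τ → 0+` by dominated convergence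
(`|exp(-(τ r²)) r² jInt| ≤ |r² jInt|`), and `Jf δ = 1/(4π²) ∫ r² jInt δ r`.
-/

set_option autoImplicit false
set_option linter.unusedSectionVars false
set_option linter.unusedVariables false
open MeasureTheory Function Filter Topology Set ComplexConjugate

namespace Pool.Agent.Lib.MP_4952d6_mp.LB

lemma FY_anti {τ q δ : ℝ} (hq : 0 ≤ q) (hq1 : q ≤ 1) (hδ : 0 ≤ δ) {r : ℝ} (hr : 0 < r) :
    Real.exp (-(τ * r ^ 2)) * (jInt δ r - 32 * Real.pi ^ 2 / r ^ 2) ≤ FY τ q δ r := by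
  have hpi := Real.pi_pos
  have hE : 0 < r ^ 2 + δ := by positivity
  have h1 := epsf_sub_le (G := 8 * Real.pi) (G' := 8 * Real.pi * q) (E := r ^ 2 + δ)
    (by positivity) (by nlinarith) hE
  have h2 : jInt δ r - 32 * Real.pi ^ 2 / r ^ 2 = epsf (8 * Real.pi) (r ^ 2 + δ) - (r ^ 2 + δ) - 8 * Real.pi := by
    unfold jInt epsf
    have e : (r ^ 2 + δ) ^ 2 + 16 * Real.pi * (r ^ 2 + δ)
        = (r ^ 2 + δ) ^ 2 + 2 * (8 * Real.pi) * (r ^ 2 + δ) := by ring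
    rw [e]
    ring
  unfold FY
  rw [h2]
  refine mul_le_mul_of_nonneg_left ?_ (Real.exp_pos _).le
  linarith

lemma LimC_int_gauss {τ : ℝ} (hτ : 0 < τ) :
    IntegrableOn (fun r : ℝ => Real.exp (-(τ * r ^ 2))) (Ioi 0) := by
  have h := (integrable_exp_neg_mul_sq hτ).integrableOn (s := Ioi (0:ℝ))
  refine h.congr_fun (fun r _ => ?_) measurableSet_Ioi
  beta_reduce
  rw [neg_mul]

lemma LimC_int_gauss2 {τ : ℝ} (hτ : 0 < τ) :
    IntegrableOn (fun r : ℝ => r ^ 2 * Real.exp (-(τ * r ^ 2))) (Ioi 0) := by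
  have h := (integrable_rpow_mul_exp_neg_mul_sq hτ (s := 2) (by norm_num)).integrableOn (s := Ioi (0:ℝ))
  refine h.congr_fun (fun r _ => ?_) measurableSet_Ioi
  beta_reduce
  rw [neg_mul, Real.rpow_two]

lemma LimC_int_FY {τ q δ : ℝ} (hτ : 0 < τ) (hq : 0 ≤ q) (hδ : 0 ≤ δ) :
    IntegrableOn (fun r : ℝ => r ^ 2 * FY τ q δ r) (Ioi 0) := by
  refine Integrable.mono' ((LimC_int_gauss2 hτ).const_mul (8 * Real.pi * q))
    ((continuous_id.pow 2).mul (FY_continuous τ q δ)).aestronglyMeasurable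
    (Eventually.of_forall fun r => ?_)
  rw [Real.norm_eq_abs, abs_mul, abs_of_nonneg (sq_nonneg r)]
  have h := mul_le_mul_of_nonneg_left (FY_bound (τ := τ) hq hδ r) (sq_nonneg r)
  calc r ^ 2 * |FY τ q δ r| ≤ r ^ 2 * (8 * Real.pi * q * Real.exp (-(τ * r ^ 2))) := h
    _ = 8 * Real.pi * q * (r ^ 2 * Real.exp (-(τ * r ^ 2))) := by ring

lemma LimC_exp_le {τ : ℝ} (hτ : 0 ≤ τ) (r : ℝ) : ‖Real.exp (-(τ * r ^ 2))‖ ≤ 1 := by
  rw [Real.norm_eq_abs, abs_of_pos (Real.exp_pos _), Real.exp_le_one_iff]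
  have : 0 ≤ τ * r ^ 2 := by positivity
  linarith

lemma LimC_int_J {τ δ : ℝ} (hτ : 0 ≤ τ) (hδ : 0 ≤ δ) :
    IntegrableOn (fun r : ℝ => Real.exp (-(τ * r ^ 2)) * (r ^ 2 * jInt δ r)) (Ioi 0) := by
  have hc : Continuous (fun r : ℝ => Real.exp (-(τ * r ^ 2))) := by fun_prop
  exact (jInt_integrable hδ).bdd_mul (c := 1) hc.aestronglyMeasurable
    (Eventually.of_forall fun r => LimC_exp_le hτ r)

lemma limC_step {τ q δ : ℝ} (hτ : 0 < τ) (hq : 0 ≤ q) (hq1 : q ≤ 1) (hδ : 0 ≤ δ) :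
    1 / (4 * Real.pi ^ 2) * (∫ r in Ioi (0:ℝ), Real.exp (-(τ * r ^ 2)) * (r ^ 2 * jInt δ r))
      ≤ 4 * Real.sqrt Real.pi / Real.sqrt τ
        + 1 / (4 * Real.pi ^ 2) * ∫ r in Ioi (0:ℝ), r ^ 2 * FY τ q δ r := by
  have hpi := Real.pi_pos
  have h1 : ∫ r in Ioi (0:ℝ), Real.exp (-(τ * r ^ 2)) * (r ^ 2 * jInt δ r)
      ≤ ∫ r in Ioi (0:ℝ), (32 * Real.pi ^ 2 * Real.exp (-(τ * r ^ 2)) + r ^ 2 * FY τ q δ r) := by
    refine setIntegral_mono_on (LimC_int_J hτ.le hδ)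
      (((LimC_int_gauss hτ).const_mul (32 * Real.pi ^ 2)).add (LimC_int_FY hτ hq hδ))
      measurableSet_Ioi fun r hr => ?_
    have hr0 : (0:ℝ) < r := hr
    have h2 := mul_le_mul_of_nonneg_left (FY_anti (τ := τ) hq hq1 hδ hr0) (sq_nonneg r)
    have h3 : r ^ 2 * (Real.exp (-(τ * r ^ 2)) * (jInt δ r - 32 * Real.pi ^ 2 / r ^ 2))
        = Real.exp (-(τ * r ^ 2)) * (r ^ 2 * jInt δ r) - 32 * Real.pi ^ 2 * Real.exp (-(τ * r ^ 2)) := by
      have e : 32 * Real.pi ^ 2 / r ^ 2 * r ^ 2 = 32 * Real.pi ^ 2 :=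
        div_mul_cancel₀ _ (pow_ne_zero 2 hr0.ne')
      linear_combination (-(Real.exp (-(τ * r ^ 2)))) * e
    rw [h3] at h2
    linarith
  have h4 : ∫ r in Ioi (0:ℝ), (32 * Real.pi ^ 2 * Real.exp (-(τ * r ^ 2)) + r ^ 2 * FY τ q δ r)
      = (∫ r in Ioi (0:ℝ), 32 * Real.pi ^ 2 * Real.exp (-(τ * r ^ 2)))
        + ∫ r in Ioi (0:ℝ), r ^ 2 * FY τ q δ r :=
    integral_add ((LimC_int_gauss hτ).const_mul (32 * Real.pi ^ 2)) (LimC_int_FY hτ hq hδ)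
  have h5 : ∫ r in Ioi (0:ℝ), 32 * Real.pi ^ 2 * Real.exp (-(τ * r ^ 2))
      = 32 * Real.pi ^ 2 * (Real.sqrt (Real.pi / τ) / 2) := by
    rw [integral_const_mul, ← integral_gaussian_Ioi τ]
    congr 1
    refine setIntegral_congr_fun measurableSet_Ioi fun r _ => ?_
    rw [neg_mul]
  have h6 : 1 / (4 * Real.pi ^ 2) * (32 * Real.pi ^ 2 * (Real.sqrt (Real.pi / τ) / 2))
      = 4 * Real.sqrt Real.pi / Real.sqrt τ := by
    rw [Real.sqrt_div hpi.le]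
    have hpi2 : Real.pi ^ 2 ≠ 0 := pow_ne_zero 2 hpi.ne'
    have hs : Real.sqrt τ ≠ 0 := (Real.sqrt_pos.2 hτ).ne'
    field_simp
    norm_num
  have h7 : 0 ≤ 1 / (4 * Real.pi ^ 2) := by positivity
  have h8 := mul_le_mul_of_nonneg_left h1 h7
  rw [h4, h5, mul_add, h6] at h8
  exact h8

lemma limC_lim {δ : ℝ} (hδ : 0 ≤ δ) :
    Tendsto (fun τ : ℝ => 1 / (4 * Real.pi ^ 2)
        * ∫ r in Ioi (0:ℝ), Real.exp (-(τ * r ^ 2)) * (r ^ 2 * jInt δ r)) (𝓝[>] 0) (𝓝 (Jf δ)) := by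
  unfold Jf
  refine Tendsto.const_mul _ ?_
  refine tendsto_integral_filter_of_dominated_convergence (fun r => ‖r ^ 2 * jInt δ r‖) ?_ ?_ ?_ ?_
  · filter_upwards [self_mem_nhdsWithin] with τ hτ
    exact (LimC_int_J (le_of_lt hτ) hδ).aestronglyMeasurable
  · filter_upwards [self_mem_nhdsWithin] with τ hτ
    refine Eventually.of_forall fun r => ?_
    rw [norm_mul]
    have h := mul_le_mul_of_nonneg_right (LimC_exp_le (le_of_lt hτ) r) (norm_nonneg (r ^ 2 * jInt δ r))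
    rw [one_mul] at h
    exact h
  · exact (jInt_integrable hδ).norm
  · refine Eventually.of_forall fun r => ?_
    have hc : Continuous (fun τ : ℝ => Real.exp (-(τ * r ^ 2)) * (r ^ 2 * jInt δ r)) := by fun_prop
    have h := hc.tendsto 0
    have e : Real.exp (-((0:ℝ) * r ^ 2)) * (r ^ 2 * jInt δ r) = r ^ 2 * jInt δ r := by
      rw [zero_mul, neg_zero, Real.exp_zero, one_mul]
    rw [e] at h
    exact h.mono_left nhdsWithin_le_nhds

theorem limC {δ η : ℝ} (hδ : 0 ≤ δ) (hη : 0 < η) : ∃ τ0 : ℝ, 0 < τ0 ∧ ∀ τ q : ℝ, 0 < τ → τ < τ0 →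
    0 ≤ q → q ≤ 1 → Jf δ - η ≤ 4 * Real.sqrt Real.pi / Real.sqrt τ
        + 1 / (4 * Real.pi ^ 2) * ∫ r in Ioi (0:ℝ), r ^ 2 * FY τ q δ r := by
  have h1 : ∀ᶠ τ in 𝓝[>] (0:ℝ), Jf δ - η < 1 / (4 * Real.pi ^ 2)
      * ∫ r in Ioi (0:ℝ), Real.exp (-(τ * r ^ 2)) * (r ^ 2 * jInt δ r) :=
    (limC_lim hδ).eventually (eventually_gt_nhds (by linarith))
  obtain ⟨τ0, hτ0, h2⟩ := mem_nhdsGT_iff_exists_Ioo_subset.1 h1
  refine ⟨τ0, hτ0, fun τ q hτ hττ hq hq1 => ?_⟩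
  have h3 : Jf δ - η < 1 / (4 * Real.pi ^ 2)
      * ∫ r in Ioi (0:ℝ), Real.exp (-(τ * r ^ 2)) * (r ^ 2 * jInt δ r) := h2 ⟨hτ, hττ⟩
  exact h3.le.trans (limC_step hτ hq hq1 hδ)

end Pool.Agent.Lib.MP_4952d6_mp.LB

end

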