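import Pool.Agent.Lib.MP_4952d6_mp.Pk.G29
import Pool.Agent.Lib.MP_4952d6_mp.Pk.G54
import Pool.Agent.Lib.MP_4952d6_mp.Pk.G57

/-! Merged modules (to save import time): LA.I3, LC.F5. -/

/-! ### LA.I3 -/

section

/-!
# JOB LA-I3: final assembly of stream LA

`exists_mini` and `locM` with `Kμ = K`, `l = a/Y`.  `t ∈ [tsc a Y/2, 2 tsc a Y]`, `tsc a Y = l² Y^(2/5)`: `16 t ≤ 32 Y^(2/5) l² ≤ l²`;
`N (√(t/8))³ ≥ N (l Y^(1/5)/4)³ = Y^(-2/5)/64 ≥ 1` (`N l³ = 1/Y`).  `a0 = Y/8` so that `l ≤ 1/8`.  `θ` may be replaced by `max θ 1`.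
-/

set_option autoImplicit false
set_option linter.unusedSectionVars false
set_option linter.unusedVariables false
open MeasureTheory Function Filter Topology Set ComplexConjugate
open scoped ENNReal

namespace Pool.Agent.Lib.MP_4952d6_mp.LA

theorem I3_rpow {Y : ℝ} (hY : 0 < Y) (hY' : Y < (1 / 2 : ℝ) ^ 15) :
    Y ^ ((2 : ℝ) / 5) ≤ 1 / 64 := by
  have h1 : Y ^ ((2 : ℝ) / 5) ≤ ((1 / 2 : ℝ) ^ 15) ^ ((2 : ℝ) / 5) :=
    Real.rpow_le_rpow hY.le hY'.le (by norm_num)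
  have h2 : ((1 / 2 : ℝ) ^ 15) ^ ((2 : ℝ) / 5) = 1 / 64 := by
    rw [← Real.rpow_natCast (1 / 2 : ℝ) 15, ← Real.rpow_mul (by norm_num)]
    have : ((15 : ℕ) : ℝ) * ((2 : ℝ) / 5) = ((6 : ℕ) : ℝ) := by norm_num
    rw [this, Real.rpow_natCast]
    norm_num
  linarith

theorem I3_sq {Y : ℝ} (hY : 0 < Y) : (Y ^ ((1 : ℝ) / 5)) ^ 2 = Y ^ ((2 : ℝ) / 5) := by
  rw [← Real.rpow_natCast, ← Real.rpow_mul hY.le]
  congr 1
  norm_num

theorem I3_five {Y : ℝ} (hY : 0 < Y) : (Y ^ ((1 : ℝ) / 5)) ^ 5 = Y := by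
  rw [← Real.rpow_natCast, ← Real.rpow_mul hY.le]
  norm_num

/-- **Stream LA.** -/
def LAStatement : Prop :=
  ∀ θ cw : ℝ, 0 < cw → ∃ C Y0 : ℝ, 0 < C ∧ 0 < Y0 ∧ ∀ Y : ℝ, 0 < Y → Y < Y0 →
    ∃ a0 : ℝ, 0 < a0 ∧ ∀ (N : ℕ) (W f Q w : ℝ → ℝ) (R₀ R a : ℝ), Scat W R₀ R a f Q → a < a0 →
      (N : ℝ) * a ^ 3 = Y ^ 2 → R ≤ θ * a →
      Measurable w → (∀ t, 0 ≤ w t) → (∀ t, w t ≤ (R⁻¹) ^ 2) → (∀ t, R ≤ t → w t = 0) →
      cw * R ≤ sig * ∫ t in Ioi (0:ℝ), t ^ 2 * w t →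
      ∀ 𝒱 : T3 → ℝ≥0∞, AEMeasurable 𝒱 lam3 → (∀ y, 𝒱 (-y) = 𝒱 y) →
      (∀ᵐ y ∂lam3, ENNReal.ofReal (2 * W (rr y)) ≤ 𝒱 y) →
      (∫⁻ y, 𝒱 y ∂lam3 ≤ (∫⁻ y, ENNReal.ofReal (2 * W (rr y)) ∂lam3) + ENNReal.ofReal a) →
      (∀ᵐ y ∂lam3, R₀ ≤ rr y → ENNReal.ofReal (w (rr y)) ≤ 𝒱 y) →
      ∀ ψ : (Fin N → T3) → ℂ, tAdm R₀ 𝒱 ψ → (∀ φ : (Fin N → T3) → ℂ, tAdm R₀ 𝒱 φ → tE 𝒱 ψ ≤ tE 𝒱 φ) →
      (∑ i, nuQ (fc ψ) i) ≤ 2 * Y * N →
      ∀ t : ℝ, tsc a Y / 2 ≤ t → t ≤ 2 * tsc a Y → LocM C Y t ψ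

theorem la_final : LAStatement := by
  intro θ cw hcw
  obtain ⟨K, hK, hmini⟩ := exists_mini
  obtain ⟨Y1, hY1, hmini⟩ := hmini (max θ 1) (le_max_right _ _)
  obtain ⟨C, Y2, hC, hY2, hloc⟩ := locM (max θ 1) cw K (le_max_right _ _) hcw hK.le
  refine ⟨C, min Y1 (min Y2 ((1 / 2 : ℝ) ^ 15)), hC, ?_, ?_⟩
  · exact lt_min hY1 (lt_min hY2 (by positivity))
  intro Y hY hYlt
  have hYa : Y < Y1 := hYlt.trans_le (min_le_left _ _)
  have hYb : Y < Y2 := hYlt.trans_le ((min_le_right _ _).trans (min_le_left _ _))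
  have hYc : Y < (1 / 2 : ℝ) ^ 15 := hYlt.trans_le ((min_le_right _ _).trans (min_le_right _ _))
  refine ⟨Y / 8, by positivity, ?_⟩
  intro N W f Q w R₀ R a hS ha hN hR hwm hw0 hwle hwz hwi 𝒱 hVm hVs hVW hVi hVw ψ hψ hmin hnu t ht1 ht2
  have ha0 : 0 < a := hS.a_pos
  have hl8 : a / Y ≤ 1 / 8 := by
    rw [div_le_iff₀ hY]
    linarith
  have hRθ : R ≤ max θ 1 * a := hR.trans (mul_le_mul_of_nonneg_right (le_max_left _ _) ha0.le)
  obtain ⟨g, e, hM⟩ := hmini Y hY hYa N W f Q R₀ R a hS hl8 hN hRθ 𝒱 hVm hVs hVW hVi ψ hψ hmin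
  have hpar : Par (max θ 1) cw K Y (a / Y) R a w N R₀ 𝒱 :=
    ⟨ha0, hS.a_le, hRθ, rfl, hl8, hN, hwm, hw0, hwle, hwz, hwi, hVw⟩
  have hl : 0 < a / Y := by positivity
  have hp2 := I3_rpow hY hYc
  have hp2pos : 0 < Y ^ ((2 : ℝ) / 5) := Real.rpow_pos_of_pos hY _
  have htsc : tsc a Y = (a / Y) ^ 2 * Y ^ ((2 : ℝ) / 5) := rfl
  have htscpos : 0 < tsc a Y := by rw [htsc]; positivity
  have ht0 : 0 < t := by linarith
  refine hloc Y hY hYb (a / Y) R a w N R₀ e 𝒱 ψ g hpar hM hnu t ht0 ?_ ?_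
  · have h1 : 16 * t ≤ 32 * tsc a Y := by linarith
    have h2 : tsc a Y ≤ (a / Y) ^ 2 * (1 / 64) := by
      rw [htsc]
      exact mul_le_mul_of_nonneg_left hp2 (by positivity)
    nlinarith [sq_nonneg (a / Y)]
  · set u : ℝ := Y ^ ((1 : ℝ) / 5) with hu
    have hupos : 0 < u := Real.rpow_pos_of_pos hY _
    have hu2 : u ^ 2 = Y ^ ((2 : ℝ) / 5) := I3_sq hY
    have hu5 : u ^ 5 = Y := I3_five hY
    have hle : a / Y * u / 4 ≤ Real.sqrt (t / 8) := by
      apply Real.le_sqrt_of_sq_le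
      have h3 : (a / Y * u / 4) ^ 2 = tsc a Y / 16 := by
        rw [htsc, ← hu2]
        ring
      rw [h3]
      linarith
    have hcube : (a / Y * u / 4) ^ 3 ≤ Real.sqrt (t / 8) ^ 3 :=
      pow_le_pow_left₀ (by positivity) hle 3
    have hu264 : u ^ 2 ≤ 1 / 64 := by rw [hu2]; exact hp2
    have key : (N : ℝ) * (a / Y * u / 4) ^ 3 = 1 / (64 * u ^ 2) := by
      have hYne : Y ≠ 0 := hY.ne'
      have h4 : (N : ℝ) * (a / Y * u / 4) ^ 3 = ((N : ℝ) * a ^ 3) * u ^ 3 / (64 * Y ^ 3) := by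
        field_simp
        ring
      rw [h4, hN]
      have hune : u ≠ 0 := hupos.ne'
      rw [div_eq_div_iff (by positivity) (by positivity)]
      rw [← hu5]
      ring
    have h5 : (1 : ℝ) ≤ 1 / (64 * u ^ 2) := by
      rw [le_div_iff₀ (by positivity)]
      linarith
    calc (1 : ℝ) ≤ 1 / (64 * u ^ 2) := h5
      _ = (N : ℝ) * (a / Y * u / 4) ^ 3 := key.symm
      _ ≤ (N : ℝ) * Real.sqrt (t / 8) ^ 3 :=
        mul_le_mul_of_nonneg_left hcube (Nat.cast_nonneg _)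

end Pool.Agent.Lib.MP_4952d6_mp.LA

end

/-! ### LC.F5 -/

section

/-!
# F5: physical assembly with the torus form of the moment bounds

Same proof as `F4_main`, but the moment bounds enter in the torus form `LA.LAStatement` (for the same truncated
scattering data as in `UStatement` and `LBStatement`).
-/

set_option autoImplicit false
set_option linter.unusedSectionVars false
set_option linter.unusedVariables false
open MeasureTheory Function Filter Topology Set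
open scoped ENNReal

namespace Pool.Agent.Lib.MP_4952d6_mp

/-- The periodised potential is even. -/
lemma F5_vper_neg {L : ℝ} (hL : 0 < L) {v : (Fin 3 → ℝ) → ℝ}
    (hrad : ∀ x y : Fin 3 → ℝ, ∑ α, x α ^ 2 = ∑ α, y α ^ 2 → v x = v y) (y : T3) :
    vper L v (-y) = vper L v y := by
  have h1 := vper_eq hL v (fun α => -(L * crd y α)) (-y) (fun α => by
    have h2 : (-(L * crd y α) / L : ℝ) = -(crd y α) := by field_simp
    rw [h2, AddCircle.coe_neg, coe_crd]
    rfl)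
  rw [← h1]
  unfold vper
  rw [← (Equiv.neg (Fin 3 → ℤ)).tsum_eq]
  refine tsum_congr fun n => ?_
  congr 1
  apply hrad
  refine Finset.sum_congr rfl fun α _ => ?_
  simp only [Equiv.neg_apply, Pi.neg_apply]
  push_cast
  ring

lemma F5_Vp_neg {m L : ℝ} (hL : 0 < L) {v : (Fin 3 → ℝ) → ℝ}
    (hrad : ∀ x y : Fin 3 → ℝ, ∑ α, x α ^ 2 = ∑ α, y α ^ 2 → v x = v y) (y : T3) :
    Vp m L v (-y) = Vp m L v y := by
  unfold Vp
  rw [F5_vper_neg hL hrad]

/-- Pointwise lower bound for the rescaled potential, general radial function. -/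
lemma F5_pot {W : ℝ → ℝ} {m : ℝ} (hm : 0 < m) {v : (Fin 3 → ℝ) → ℝ} {v₀ : ℝ → ℝ}
    (hrad : ∀ x, v x = v₀ (nr x))
    (hle : ∀ᵐ r : ℝ, 0 < r → W r ≤ m * v₀ r) {L : ℝ} (hL : 0 < L) :
    ∀ᵐ y ∂lam3, ENNReal.ofReal (2 * (L ^ 2 * W (L * rr y))) ≤ Vp m L v y := by
  have h1 := ae_nr hle
  have h2 : ∀ᵐ y ∂lam3, 0 < nr (L • fun α => crd y α) →
      W (nr (L • fun α => crd y α)) ≤ m * v₀ (nr (L • fun α => crd y α)) := by
    have h3 : Measure.QuasiMeasurePreserving (fun x : Fin 3 → ℝ => L • x) volume volume :=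
      (mp_smul3 hL).quasiMeasurePreserving.mono_right Measure.smul_absolutelyContinuous
    have h4 : Measure.QuasiMeasurePreserving (fun (y : T3) (α : Fin 3) => crd y α) lam3 volume :=
      mp_crd.quasiMeasurePreserving.mono_right Measure.restrict_le_self.absolutelyContinuous
    exact (h3.comp h4).ae h1
  filter_upwards [h2, ae_rr_ne (e := 0) (by norm_num)] with y hy hy0
  rw [nr_smul_crd hL.le] at hy
  have hrr : 0 < rr y := lt_of_le_of_ne (rr_nonneg y) (Ne.symm hy0)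
  have hy2 := hy (by positivity)
  have h5 : ENNReal.ofReal (v (fun α => L * (crd y α + ((0 : Fin 3 → ℤ) α : ℝ)))) ≤ vper L v y :=
    ENNReal.le_tsum (f := fun n : Fin 3 → ℤ =>
      ENNReal.ofReal (v (fun α => L * (crd y α + (n α : ℝ))))) 0
  have h6 : (fun α => L * (crd y α + ((0 : Fin 3 → ℤ) α : ℝ))) = L • fun α => crd y α := by
    funext α; simp
  rw [h6, hrad, nr_smul_crd hL.le] at h5
  unfold Vp
  refine le_trans ?_ (mul_le_mul_right h5 _)
  rw [← ENNReal.ofReal_mul (by positivity)]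
  refine ENNReal.ofReal_le_ofReal ?_
  have h7 := mul_le_mul_of_nonneg_left hy2 (show (0:ℝ) ≤ 2 * L ^ 2 by positivity)
  calc 2 * (L ^ 2 * W (L * rr y)) = 2 * L ^ 2 * (W (L * rr y)) := by ring
    _ ≤ 2 * L ^ 2 * (m * v₀ (L * rr y)) := h7
    _ = _ := by ring

/-- A bounded shape below the interaction (arbitrary in the core). -/
lemma F5_shape {u : ℝ → ℝ} (hum : Measurable u) (hu0 : ∀ r, 0 ≤ u r) {R₀ R : ℝ} (hR0 : 0 ≤ R₀)
    (hR : R₀ < R) (huR : ∀ r, R ≤ r → u r = 0)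
    (hgen : 0 < R₀ ∨ 0 < ∫ r in Ioi (0:ℝ), r ^ 2 * u r) :
    ∃ w : ℝ → ℝ, Measurable w ∧ (∀ r, 0 ≤ w r) ∧ (∀ r, w r ≤ (R⁻¹) ^ 2) ∧
      (∀ r, R ≤ r → w r = 0) ∧ (∀ r, R₀ ≤ r → w r ≤ 2 * u r) ∧
      0 < ∫ r in Ioi (0:ℝ), r ^ 2 * w r := by
  have hRpos : 0 < R := hR0.trans_lt hR
  have hRi : 0 < (R⁻¹) ^ 2 := by positivity
  set w : ℝ → ℝ := fun r => if r < R₀ then (R⁻¹) ^ 2 else min (2 * u r) ((R⁻¹) ^ 2) with hw
  have hwm : Measurable w := Measurable.ite measurableSet_Iio measurable_const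
    ((hum.const_mul 2).min measurable_const)
  have hw0 : ∀ r, 0 ≤ w r := fun r => by
    simp only [hw]; split_ifs
    · exact hRi.le
    · exact le_min (mul_nonneg (by norm_num) (hu0 r)) hRi.le
  have hw1 : ∀ r, w r ≤ (R⁻¹) ^ 2 := fun r => by
    simp only [hw]; split_ifs
    · exact le_rfl
    · exact min_le_right _ _
  have hwR : ∀ r, R ≤ r → w r = 0 := fun r hr => by
    simp only [hw]
    rw [if_neg (not_lt.2 (hR.le.trans hr)), huR r hr, mul_zero, min_eq_left hRi.le]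
  have hw2 : ∀ r, R₀ ≤ r → w r ≤ 2 * u r := fun r hr => by
    simp only [hw]
    rw [if_neg (not_lt.2 hr)]
    exact min_le_left _ _
  have hwi : IntegrableOn (fun r => r ^ 2 * w r) (Ioi (0:ℝ)) := by
    have h1 : IntegrableOn (fun r => r ^ 2 * w r) (Ioc (0:ℝ) R) := by
      refine Measure.integrableOn_of_bounded (M := R ^ 2 * (R⁻¹) ^ 2) (by simp)
        ((measurable_id.pow_const 2).mul hwm).aestronglyMeasurable ?_
      refine (ae_restrict_iff' measurableSet_Ioc).2 (Eventually.of_forall fun r hr => ?_)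
      rw [Real.norm_of_nonneg (mul_nonneg (sq_nonneg r) (hw0 r))]
      exact mul_le_mul (pow_le_pow_left₀ hr.1.le hr.2 2) (hw1 r) (hw0 r) (by positivity)
    have h2 : IntegrableOn (fun r => r ^ 2 * w r) (Ioi R) := by
      have h3 : IntegrableOn (fun _ : ℝ => (0:ℝ)) (Ioi R) := integrableOn_zero
      refine h3.congr_fun (fun r hr => ?_) measurableSet_Ioi
      have h4 := hwR r (le_of_lt hr)
      simp only [h4, mul_zero]
    rw [← Ioc_union_Ioi_eq_Ioi hRpos.le]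
    exact h1.union h2
  refine ⟨w, hwm, hw0, hw1, hwR, hw2, ?_⟩
  have hnn : 0 ≤ᵐ[volume.restrict (Ioi (0:ℝ))] fun r => r ^ 2 * w r :=
    Eventually.of_forall fun r => mul_nonneg (sq_nonneg r) (hw0 r)
  have hge : 0 ≤ ∫ r in Ioi (0:ℝ), r ^ 2 * w r := integral_nonneg_of_ae hnn
  refine lt_of_le_of_ne hge fun h0 => ?_
  have h1 := (integral_eq_zero_iff_of_nonneg_ae hnn hwi).1 h0.symm
  have h2 : ∀ᵐ r : ℝ, r ∈ Ioi (0:ℝ) → r ^ 2 * w r = 0 :=
    (ae_restrict_iff' measurableSet_Ioi).1 h1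
  have h3 : ∀ᵐ r : ℝ, 0 < r → w r = 0 := by
    filter_upwards [h2] with r hr hr0
    have := hr hr0
    rcases mul_eq_zero.1 this with h | h
    · exact absurd h (by positivity)
    · exact h
  rcases hgen with h4 | h4
  · have h5 : ∀ᵐ r : ℝ, r ∉ Ioo 0 R₀ := by
      filter_upwards [h3] with r hr hr2
      have h6 := hr hr2.1
      simp only [hw] at h6
      rw [if_pos hr2.2] at h6
      exact hRi.ne' h6
    have h7 : volume (Ioo 0 R₀) = 0 := by
      have h8 := ae_iff.1 h5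
      simpa only [not_not, setOf_mem_eq] using h8
    rw [Real.volume_Ioo, ENNReal.ofReal_eq_zero] at h7
    linarith
  · rcases hR0.eq_or_lt with h5 | h5
    · have h6 : ∫ r in Ioi (0:ℝ), r ^ 2 * u r = 0 := by
        refine integral_eq_zero_of_ae ((ae_restrict_iff' measurableSet_Ioi).2 ?_)
        filter_upwards [h3] with r hr hr0
        have h7 := hr hr0
        simp only [hw] at h7
        rw [if_neg (by rw [← h5]; exact not_lt.2 (le_of_lt hr0))] at h7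
        have h8 : 2 * u r = 0 := by
          by_contra hne
          have h9 : 0 < 2 * u r := lt_of_le_of_ne (mul_nonneg (by norm_num) (hu0 r)) (Ne.symm hne)
          have := lt_min h9 hRi
          linarith
        have h9 : u r = 0 := by linarith
        simp [h9]
      linarith
    · have h5' : ∀ᵐ r : ℝ, r ∉ Ioo 0 R₀ := by
        filter_upwards [h3] with r hr hr2
        have h6 := hr hr2.1
        simp only [hw] at h6
        rw [if_pos hr2.2] at h6
        exact hRi.ne' h6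
      have h7 : volume (Ioo 0 R₀) = 0 := by
        have h8 := ae_iff.1 h5'
        simpa only [not_not, setOf_mem_eq] using h8
      rw [Real.volume_Ioo, ENNReal.ofReal_eq_zero] at h7
      linarith

/-- Scaling of the charge of a shape. -/
lemma F5_scale {w : ℝ → ℝ} {L : ℝ} (hL : 0 < L) :
    ∫ t in Ioi (0:ℝ), t ^ 2 * (L ^ 2 * w (L * t)) = L⁻¹ * ∫ r in Ioi (0:ℝ), r ^ 2 * w r := by
  have h3 := integral_comp_mul_left_Ioi (fun s => s ^ 2 * w s) 0 hL
  rw [mul_zero, smul_eq_mul] at h3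
  rw [← h3]
  congr 1
  funext r
  ring

/-- The case `ε ≤ 1`. -/
theorem F5_main (hU : UStatement) (hA : LA.LAStatement) (hB : LBStatement)
    {m R₀ R : ℝ} {v : (Fin 3 → ℝ) → ℝ} (hm : 0 < m) (hR0 : 0 ≤ R₀) (hR : R₀ < R)
    (hv : Integrable v) (hv0 : ∀ x, 0 ≤ v x)
    (hrad : ∀ x y : Fin 3 → ℝ, ∑ α, x α ^ 2 = ∑ α, y α ^ 2 → v x = v y)
    (hsupp : ∀ x : Fin 3 → ℝ, R ^ 2 ≤ ∑ α, x α ^ 2 → v x = 0)
    {ε : ℝ} (hε : 0 < ε) (hε1 : ε ≤ 1) :
    ∃ ρ₁ : ℝ, 0 < ρ₁ ∧ ∀ ρ : ℝ, 0 < ρ → ρ < ρ₁ →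
      ∃ N₁ : ℕ, ∀ N : ℕ, N₁ ≤ N → ∀ ψ : (Fin N → Fin 3 → ℝ) → ℂ,
        Admissible m R₀ v N (side ρ N) ψ →
        (∀ φ : (Fin N → Fin 3 → ℝ) → ℂ, Admissible m R₀ v N (side ρ N) φ →
          energy m v N (side ρ N) ψ ≤ energy m v N (side ρ N) φ) →
        condFraction N (side ρ N) ψ
          ≤ 1 - (1 - ε) * (8 / (3 * Real.sqrt Real.pi)) * Real.sqrt (ρ * scatLen m R₀ v ^ 3) := by
  have hRpos : 0 < R := hR0.trans_lt hR
  obtain ⟨g, hgm, hg0, hg⟩ := exists_rep hv hv0 hrad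
  set u : ℝ → ℝ := fun r => if r < R then m * g r else 0 with hu
  have hum : Measurable u := Measurable.ite measurableSet_Iio (hgm.const_mul m) measurable_const
  have hu0 : ∀ r, 0 ≤ u r := fun r => by
    simp only [hu]; split_ifs
    · exact mul_nonneg hm.le (hg0 r)
    · exact le_rfl
  have huR : ∀ r, R ≤ r → u r = 0 := fun r hr => by
    simp only [hu]; rw [if_neg (not_lt.2 hr)]
  have huv : ∀ᵐ r : ℝ, 0 < r → u r = m * prof v r := by
    filter_upwards [hg] with r hr hr0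
    simp only [hu]
    split_ifs with h
    · rw [hr hr0]
    · have : prof v r = 0 := by
        refine hsupp _ ?_
        simp [Fin.sum_univ_three]
        push Not at h
        exact pow_le_pow_left₀ hRpos.le h 2
      rw [this, mul_zero]
  have hradp : ∀ x, v x = prof v (nr x) := prof_eq hrad
  have hvm : AEMeasurable v volume := hv.aestronglyMeasurable.aemeasurable
  have hIv : IntegrableOn (fun r => r ^ 2 * prof v r) (Ioi (0:ℝ)) := by
    rw [← integrable_nr]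
    exact hv.congr (Eventually.of_forall hradp)
  have hi : IntegrableOn (fun r => r ^ 2 * u r) (Ioi (0:ℝ)) := by
    refine (hIv.const_mul m).congr ((ae_restrict_iff' measurableSet_Ioi).2 ?_)
    filter_upwards [huv] with r hr hr0
    rw [hr hr0]; ring
  have hUm : ∫ r in Ioi (0:ℝ), r ^ 2 * u r = m * ∫ r in Ioi (0:ℝ), r ^ 2 * prof v r := by
    rw [← integral_const_mul]
    refine setIntegral_congr_ae measurableSet_Ioi ?_
    filter_upwards [huv] with r hr hr0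
    rw [hr hr0]; ring
  have hUv : ∫ x, v x = sig / m * ∫ r in Ioi (0:ℝ), r ^ 2 * u r := by
    have e1 : ∫ x, v x = sig * ∫ r in Ioi (0:ℝ), r ^ 2 * prof v r := by
      rw [← integral_nr]
      exact integral_congr_ae (Eventually.of_forall hradp)
    rw [e1, hUm]; field_simp
  set U : ℝ := ∫ r in Ioi (0:ℝ), r ^ 2 * u r with hUdef
  set al : ℝ := scatLen m R₀ v with hal
  obtain ⟨hκ0, hκ2⟩ := F4_kappa
  set κ : ℝ := 8 / (3 * Real.sqrt Real.pi) with hκ
  by_cases hgen : 0 < R₀ ∨ 0 < U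
  swap
  · push Not at hgen
    have h0 : R₀ = 0 := le_antisymm hgen.1 hR0
    have h1 : al ≤ 0 := by
      rw [hal, h0]
      refine scatLen_nongen hv hv0 hm ?_
      rw [hUv]
      exact mul_nonpos_of_nonneg_of_nonpos (by have := sig_pos; positivity) hgen.2
    refine ⟨1, one_pos, fun ρ hρ _ => ⟨1, fun N hN ψ hψ _ => ?_⟩⟩
    have h2 : ρ * al ^ 3 ≤ 0 := mul_nonpos_of_nonneg_of_nonpos hρ.le (Odd.pow_nonpos (by decide) h1)
    rw [Real.sqrt_eq_zero_of_nonpos h2, mul_zero, sub_zero,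
      condFraction_eq hN (side_pos hρ hN) hψ]
    have : 0 ≤ (∑ i, nuQ (fc (TT N (side ρ N) ψ)) i) / N :=
      div_nonneg (Finset.sum_nonneg fun i _ => nuQ_nonneg _ _) (Nat.cast_nonneg _)
    linarith
  obtain ⟨A, hA0, halA, hup, hlow⟩ := exists_data hum hu0 hi hR0 hgen hm hv hv0 hradp huv
  have hσ := sig_pos
  obtain ⟨δ, hδ, hslope⟩ := Jf_slope (ε := ε / 4) (by linarith)
  rw [← hκ] at hslope
  set η : ℝ := δ * ε * κ / 12 with hη
  have hη0 : 0 < η := by rw [hη]; positivity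
  set θ : ℝ := 2 * R / A with hθ
  obtain ⟨CU, YU, hCU, hYU, hU'⟩ := hU θ η hη0
  obtain ⟨w0, hw0m, hw00, hw01, hw0R, hw0u, hw0I⟩ := F5_shape hum hu0 hR0 hR huR hgen
  set Iw : ℝ := ∫ r in Ioi (0:ℝ), r ^ 2 * w0 r with hIw
  set cw : ℝ := sig * Iw / R with hcw
  have hcw0 : 0 < cw := by rw [hcw]; positivity
  obtain ⟨CA, YA0, hCA, hYA0, hA'⟩ := hA θ cw hcw0
  obtain ⟨YB, hYB, hB'⟩ := hB θ δ η CA hδ.le hη0
  set Ym : ℝ := min YU (min YA0 YB) with hYm
  have hYm0 : 0 < Ym := lt_min hYU (lt_min hYA0 hYB)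
  refine ⟨Ym ^ 2 / A ^ 3, by positivity, fun ρ hρ hρ1 => ?_⟩
  set YA : ℝ := Real.sqrt (ρ * A ^ 3) with hYA
  have hYA_pos : 0 < YA := Y_pos hρ hA0
  have hYAm : YA < Ym := by
    rw [hYA, Real.sqrt_lt' hYm0]
    rwa [lt_div_iff₀ (by positivity)] at hρ1
  have hYAU : YA < YU := hYAm.trans_le (min_le_left _ _)
  have hYAA : YA < YA0 := hYAm.trans_le ((min_le_right _ _).trans (min_le_left _ _))
  have hYAB : YA < YB := hYAm.trans_le ((min_le_right _ _).trans (min_le_right _ _))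
  -- truncation
  have hεA := mul_pos hε hA0
  obtain ⟨k, hk1, hk⟩ := hlow ((1 - ε / 8) * A) (by linarith only [hεA])
  set ε₂ : ℝ := η * (A / 2) * (YA / 2) / (2 * sig * CU) with hε₂
  set ε₁ : ℝ := min ε₂ (A / (4 * sig)) with hε₁
  have hε₁0 : 0 < ε₁ := by rw [hε₁, hε₂]; exact lt_min (by positivity) (by positivity)
  have hε₁2 : ε₁ ≤ ε₂ := min_le_left _ _
  have hε₁3 : ε₁ ≤ A / (4 * sig) := min_le_right _ _
  obtain ⟨k₂, hk₂1, hk₂⟩ := tr_small hum hu0 hi hε₁0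
  set n : ℝ := max k k₂ with hn
  set K : ℝ := max n R with hK
  have hn1 : 1 ≤ n := hk1.trans (le_max_left _ _)
  have hn0 : 0 ≤ n := by linarith
  have hfun : tr u n K = tr u n R := by
    funext r
    unfold tr
    by_cases h1 : r < R
    · rw [if_pos h1, if_pos (h1.trans_le (le_max_right _ _))]
    · rw [if_neg h1, huR r (not_lt.1 h1), min_eq_left hn0]
      split_ifs <;> rfl
  obtain ⟨a', f', Q', h', hca'⟩ := hk n K (le_max_left _ _)
    ((le_max_left _ _).trans (le_max_left _ _)) (hR.trans_le (le_max_right _ _))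
  have hgen' : 0 < R₀ ∨ 0 < ∫ r in Ioi (0:ℝ), r ^ 2 * tr u n R r := by
    rcases hR0.eq_or_lt with h0 | h0
    · right
      have h1 := h'.a_le_int
      rw [← h0, zero_add, tr_integral_Ioi (hRpos.le.trans (le_max_right _ _)), hfun] at h1
      exact h'.a_pos.trans_le h1
    · exact Or.inl h0
  obtain ⟨a, f, Q, h⟩ := scat_tr hum hu0 hR0 hn0 hR hgen'
  have haa : a' ≤ a := h.mono h' fun r _ => le_of_eq (by rw [hfun])
  have haA' : (1 - ε / 8) * A ≤ a := hca'.le.trans haa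
  have haA : a ≤ A := hup n R a f Q hn0 h
  have ha : 0 < a := h.a_pos
  have hA2a : A ≤ 2 * a := by
    linarith only [haA', mul_le_mul_of_nonneg_right hε1 hA0.le, ha]
  have hcharge : U - (∫ r in Ioi (0:ℝ), r ^ 2 * tr u n R r) ≤ ε₁ := by
    have h1 := hk₂ n K (le_max_right _ _) ((le_max_right _ _).trans (le_max_left _ _))
    rwa [hfun] at h1
  have hcharge0 : 0 ≤ U - (∫ r in Ioi (0:ℝ), r ^ 2 * tr u n R r) := by
    have h1 : ∫ r in Ioi (0:ℝ), r ^ 2 * tr u n R r ≤ U :=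
      integral_mono (tr_int hum hu0 hi hn0 R) hi fun r =>
        mul_le_mul_of_nonneg_left (tr_le hu0 n R r) (sq_nonneg r)
    linarith
  have hI0 : 0 ≤ ∫ r in Ioi (0:ℝ), r ^ 2 * tr u n R r :=
    setIntegral_nonneg measurableSet_Ioi fun r _ => mul_nonneg (sq_nonneg r) (h.W_nonneg r)
  set Y : ℝ := Real.sqrt (ρ * a ^ 3) with hY
  have hY0 : 0 < Y := Y_pos hρ ha
  have hYYA : Y ≤ YA := sqrt_mono hρ haA
  have hYge : (1 - ε / 4) * YA ≤ Y := F4_Y hρ hA0 hε hε1 haA'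
  have hYA2 : YA ≤ 2 * Y := by
    linarith only [hYge, mul_le_mul_of_nonneg_right hε1 hYA_pos.le, hY0]
  obtain ⟨aU, haU, hU''⟩ := hU' Y hY0 (hYYA.trans_lt hYAU)
  obtain ⟨aB, haB, hB''⟩ := hB' Y hY0 (hYYA.trans_lt hYAB)
  obtain ⟨aA, haA1, hA''⟩ := hA' Y hY0 (hYYA.trans_lt hYAA)
  obtain ⟨NS, hNS1, hNS⟩ := F4_side hρ
    (show 0 < max (max (2 * R) (a / aA)) (max (a / aU) (a / aB)) from
      lt_max_of_lt_left (lt_max_of_lt_left (by linarith)))
  refine ⟨NS, fun N hN ψ hψ hmin => ?_⟩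
  have hNS' : NS ≤ N := hN
  have hN1 : 1 ≤ N := hNS1.trans hNS'
  have hN0 : (0:ℝ) < N := by exact_mod_cast hN1
  have hside := hNS N hNS'
  have hL := side_pos hρ hN1
  have hL3 := side_cube hρ hN1
  set L : ℝ := side ρ N with hLdef
  have h2R : 2 * R < L := ((le_max_left _ _).trans (le_max_left _ _)).trans_lt hside
  have hLA : a / L < aA := by
    have h1 : a / aA < L :=
      ((le_max_right _ _).trans (le_max_left _ _)).trans_lt hside
    rw [div_lt_iff₀ haA1] at h1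
    rw [div_lt_iff₀ hL]; linarith
  have hLU : a / L < aU := by
    have h1 : a / aU < L :=
      ((le_max_left _ _).trans (le_max_right _ _)).trans_lt hside
    rw [div_lt_iff₀ haU] at h1
    rw [div_lt_iff₀ hL]; linarith
  have hLB : a / L < aB := by
    have h1 : a / aB < L :=
      ((le_max_right _ _).trans (le_max_right _ _)).trans_lt hside
    rw [div_lt_iff₀ haB] at h1
    rw [div_lt_iff₀ hL]; linarith
  have hNa : (N:ℝ) * (a / L) ^ 3 = Y ^ 2 := by
    rw [hY, Y_sq hρ ha, ← hL3, div_pow]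
    field_simp
  have hRθ : R / L ≤ θ * (a / L) := by
    rw [← mul_div_assoc]
    refine div_le_div_of_nonneg_right ?_ hL.le
    rw [hθ, div_mul_eq_mul_div, le_div_iff₀ hA0]
    linarith only [mul_le_mul_of_nonneg_left hA2a hRpos.le]
  have hscat := h.scale hL
  have hle : ∀ᵐ r : ℝ, 0 < r → tr u n R r ≤ m * prof v r := by
    filter_upwards [huv] with r hr hr0
    rw [← hr hr0]
    exact tr_le hu0 n R r
  have hpot := F4_pot h hm hradp hle hL
  have hVm : AEMeasurable (Vp m L v) lam3 := (aem_vper hL hvm).const_mul _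
  have hch := F4_charge hm hv hv0 hradp hL
  rw [← hUm] at hch
  have hchW := F4_chargeW h hL h2R
  obtain ⟨φ, hφ, hφE⟩ := hU'' N _ _ _ _ _ _ hscat hLU hNa hRθ (Vp m L v) hVm
    (by rw [hch]; exact ENNReal.ofReal_ne_top) hpot
  have hmin' := F4_min hm hL hR0 hvm hψ hmin
  have hadm := adm_TT hm hL hR0 hvm hψ
  rw [condFraction_eq hN1 hL hψ]
  set D : ℝ := ∑ i, nuQ (fc (TT N L ψ)) i with hD
  have hfin : (1 - ε) * κ * YA ≤ D / N := by
    by_cases hDY : D ≤ 2 * Y * N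
    swap
    · push Not at hDY
      have h1 : 2 * Y ≤ D / N := by
        rw [le_div_iff₀ hN0]; exact hDY.le
      refine le_trans ?_ h1
      have h2 : (1 - ε) * κ * YA ≤ (1 - ε) * 2 * YA := by
        refine mul_le_mul_of_nonneg_right ?_ hYA_pos.le
        exact mul_le_mul_of_nonneg_left hκ2 (by linarith)
      linarith only [h2, hYge, mul_pos hε hYA_pos]
    · -- the shape on the torus
      have hRL : 0 < R / L := by positivity
      have hwm : Measurable fun t : ℝ => L ^ 2 * w0 (L * t) :=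
        (hw0m.comp (measurable_const_mul L)).const_mul _
      have hwn : ∀ t, 0 ≤ L ^ 2 * w0 (L * t) := fun t => by
        have := hw00 (L * t)
        positivity
      have hwb : ∀ t, L ^ 2 * w0 (L * t) ≤ ((R / L)⁻¹) ^ 2 := fun t => by
        have h1 := mul_le_mul_of_nonneg_left (hw01 (L * t)) (sq_nonneg L)
        refine h1.trans (le_of_eq ?_)
        rw [inv_div, div_pow, inv_pow]
        field_simp
      have hwz : ∀ t, R / L ≤ t → L ^ 2 * w0 (L * t) = 0 := fun t ht => by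
        rw [div_le_iff₀ hL] at ht
        rw [hw0R (L * t) (by linarith), mul_zero]
      have hwc : cw * (R / L) ≤ sig * ∫ t in Ioi (0:ℝ), t ^ 2 * (L ^ 2 * w0 (L * t)) := by
        rw [F5_scale hL, ← hIw, hcw]
        refine le_of_eq ?_
        field_simp
      have hwV : ∀ᵐ y ∂lam3, R₀ / L ≤ rr y →
          ENNReal.ofReal (L ^ 2 * w0 (L * rr y)) ≤ Vp m L v y := by
        have h1 : ∀ᵐ r : ℝ, 0 < r → (if r < R₀ then 0 else w0 r / 2) ≤ m * prof v r := by
          filter_upwards [huv] with r hr hr0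
          rw [← hr hr0]
          split_ifs with h2
          · exact hu0 r
          · have := hw0u r (not_lt.1 h2)
            linarith
        have h3 := F5_pot hm hradp h1 hL
        filter_upwards [h3] with y hy hy1
        rw [div_le_iff₀ hL] at hy1
        rw [if_neg (not_lt.2 (by linarith))] at hy
        refine le_trans (le_of_eq ?_) hy
        congr 1
        ring
      have hcV : ∫⁻ y, Vp m L v y ∂lam3
          ≤ (∫⁻ y, ENNReal.ofReal (2 * (L ^ 2 * tr u n R (L * rr y))) ∂lam3)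
            + ENNReal.ofReal (a / L) := by
        rw [hch, hchW, ← ENNReal.ofReal_add (by positivity) (by positivity)]
        refine ENNReal.ofReal_le_ofReal ?_
        have h1 : 2 * sig * (U - ∫ r in Ioi (0:ℝ), r ^ 2 * tr u n R r) ≤ a := by
          calc 2 * sig * (U - ∫ r in Ioi (0:ℝ), r ^ 2 * tr u n R r)
              ≤ 2 * sig * (A / (4 * sig)) := by
                have := hcharge.trans hε₁3
                gcongr
            _ = A / 2 := by field_simp; ring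
            _ ≤ a := by linarith
        have h2 : 2 * sig / L * U - 2 * sig / L * (∫ r in Ioi (0:ℝ), r ^ 2 * tr u n R r) ≤ a / L := by
          rw [← mul_sub, div_mul_eq_mul_div]
          exact div_le_div_of_nonneg_right h1 hL.le
        linarith
      have htsc0 : 0 ≤ tsc (a / L) Y := by unfold tsc; positivity
      have hloc := hA'' N _ _ _ (fun t => L ^ 2 * w0 (L * t)) _ _ _ hscat hLA hNa hRθ hwm hwn hwb
        hwz hwc (Vp m L v) hVm (F5_Vp_neg hL hrad) hpot hcV hwV (TT N L ψ) hadm hmin' hDY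
        (tsc (a / L) Y) (by linarith) (by linarith)
      have hlb := hB'' N _ _ _ _ _ _ hscat hLB hNa hRθ (Vp m L v) hpot (TT N L ψ) hadm hloc hDY
      have hall := hlb.trans ((hmin' φ hφ).trans hφE)
      have hdiff : (∫⁻ y, Vp m L v y ∂lam3) - ∫⁻ y, ENNReal.ofReal
            (2 * (L ^ 2 * tr u n R (L * rr y))) ∂lam3
          = ENNReal.ofReal (2 * sig / L * (U - ∫ r in Ioi (0:ℝ), r ^ 2 * tr u n R r)) := by
        rw [hch, hchW, ← ENNReal.ofReal_sub _ (by positivity), ← mul_sub]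
      rw [hdiff] at hall
      refine F4_num (c := U - ∫ r in Ioi (0:ℝ), r ^ 2 * tr u n R r) hN0 ha hY0 hL hδ hκ0 hε hε1
        F4_Jf0 hη hslope hYA_pos hYge hσ hCU hcharge0 ?_ hall
      calc CU * (2 * sig * (U - ∫ r in Ioi (0:ℝ), r ^ 2 * tr u n R r))
          ≤ CU * (2 * sig * ε₂) := by
            have := hcharge.trans hε₁2
            gcongr
        _ = η * (A / 2 * (YA / 2)) := by rw [hε₂]; field_simp
        _ ≤ η * (a * Y) := by
            refine mul_le_mul_of_nonneg_left ?_ hη0.le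
            exact mul_le_mul (by linarith) (by linarith) (by positivity) ha.le
  have hsm := sqrt_mono (ρ := ρ) hρ halA
  have h3 : (1 - ε) * κ * Real.sqrt (ρ * al ^ 3) ≤ (1 - ε) * κ * YA :=
    mul_le_mul_of_nonneg_left hsm (mul_nonneg (by linarith) hκ0.le)
  linarith

theorem lhy_assembly' (hU : UStatement) (hA : LA.LAStatement) (hB : LBStatement) :
    T1Statement := by
  intro m R₀ R v hm hR0 hR hv hv0 hrad hsupp ε hε
  obtain ⟨ρ₁, hρ₁, h⟩ := F5_main hU hA hB hm hR0 hR hv hv0 hrad hsupp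
    (ε := min ε 1) (lt_min hε one_pos) (min_le_right _ _)
  refine ⟨ρ₁, hρ₁, fun ρ hρ hρ1 => ?_⟩
  obtain ⟨N₁, hN₁⟩ := h ρ hρ hρ1
  refine ⟨N₁, fun N hN ψ hψ hmin => (hN₁ N hN ψ hψ hmin).trans ?_⟩
  have h1 : (1 - ε) * (8 / (3 * Real.sqrt Real.pi)) * Real.sqrt (ρ * scatLen m R₀ v ^ 3)
      ≤ (1 - min ε 1) * (8 / (3 * Real.sqrt Real.pi)) * Real.sqrt (ρ * scatLen m R₀ v ^ 3) := by
    have h2 := min_le_left ε 1
    have h3 := F4_kappa.1
    gcongr
  linarith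

end Pool.Agent.Lib.MP_4952d6_mp

end

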