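import Mathlib

/-! Merged modules (to save import time): Scat, Volterra, ScatExist. -/

/-! ### Scat -/

section

set_option autoImplicit false
set_option linter.unusedSectionVars false
set_option linter.unusedVariables false
open MeasureTheory Function Filter Topology Set

namespace Pool.Agent.Lib.MP_4952d6_mp

/-- A radial zero energy scattering solution `f` for `-Δ f + W f = 0` outside the ball of radius
`R₀` (`f = 0` inside if `R₀ > 0`), with range `R` and scattering length `a`;
`Q(r) = r² f'(r)`. -/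
structure Scat (W : ℝ → ℝ) (R₀ R a : ℝ) (f Q : ℝ → ℝ) : Prop where
  R₀_nonneg : 0 ≤ R₀
  R₀_le : R₀ ≤ R
  a_pos : 0 < a
  a_le : a ≤ R
  W_meas : Measurable W
  W_nonneg : ∀ r, 0 ≤ W r
  W_bdd : ∃ M, ∀ r, W r ≤ M
  W_zero : ∀ r, R ≤ r → W r = 0
  f_nonneg : ∀ r, 0 ≤ f r
  f_le_one : ∀ r, f r ≤ 1
  f_lip : ∃ L, ∀ r s, |f r - f s| ≤ L * |r - s|
  f_mono : Monotone f
  f_core : ∀ r, 0 < R₀ → r ≤ R₀ → f r = 0
  f_ge : ∀ r, 0 < r → 1 - a / r ≤ f r
  f_out : ∀ r, R ≤ r → f r = 1 - a / r
  f_deriv : ∀ r, 0 < r → r ≠ R₀ → HasDerivAt f (Q r / r ^ 2) r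
  Q_nonneg : ∀ r, 0 ≤ Q r
  Q_le : ∀ r, Q r ≤ a
  Q_zero : ∀ r, r < R₀ → Q r = 0
  Q_zero' : ∀ r, r ≤ 0 → Q r = 0
  Q_cube : ∃ C, ∀ r, 0 < r → Q r ≤ C * r ^ 3
  Q_out : ∀ r, R ≤ r → Q r = a
  Q_int : ∀ r s, R₀ ≤ r → r ≤ s → Q s - Q r = ∫ t in r..s, t ^ 2 * W t * f t

namespace Scat
variable {W : ℝ → ℝ} {R₀ R a : ℝ} {f Q : ℝ → ℝ}

lemma R_pos (h : Scat W R₀ R a f Q) : 0 < R := h.a_pos.trans_le h.a_le

lemma exists_M (h : Scat W R₀ R a f Q) : ∃ M, 0 ≤ M ∧ ∀ r, W r ≤ M := by
  obtain ⟨M, hM⟩ := h.W_bdd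
  exact ⟨max M 0, le_max_right _ _, fun r => (hM r).trans (le_max_left _ _)⟩

lemma exists_L (h : Scat W R₀ R a f Q) : ∃ L, 0 ≤ L ∧ ∀ r s, |f r - f s| ≤ L * |r - s| := by
  obtain ⟨M, hM⟩ := h.f_lip
  exact ⟨max M 0, le_max_right _ _, fun r s => (hM r s).trans
    (mul_le_mul_of_nonneg_right (le_max_left _ _) (abs_nonneg _))⟩

lemma exists_C (h : Scat W R₀ R a f Q) : ∃ C, 0 ≤ C ∧ ∀ r, 0 < r → Q r ≤ C * r ^ 3 := by
  obtain ⟨M, hM⟩ := h.Q_cube
  exact ⟨max M 0, le_max_right _ _, fun r hr => (hM r hr).trans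
    (mul_le_mul_of_nonneg_right (le_max_left _ _) (by positivity))⟩

lemma f_cont (h : Scat W R₀ R a f Q) : Continuous f := by
  obtain ⟨L, hL0, hL⟩ := h.exists_L
  refine LipschitzWith.continuous (K := Real.toNNReal L) (LipschitzWith.of_dist_le_mul fun r s => ?_)
  rw [Real.dist_eq, Real.dist_eq]
  exact (hL r s).trans (mul_le_mul_of_nonneg_right (Real.le_coe_toNNReal L) (abs_nonneg _))

lemma f_lipWith (h : Scat W R₀ R a f Q) : ∃ K, LipschitzWith K f := by
  obtain ⟨L, hL0, hL⟩ := h.exists_L
  refine ⟨Real.toNNReal L, LipschitzWith.of_dist_le_mul fun r s => ?_⟩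
  rw [Real.dist_eq, Real.dist_eq]
  exact (hL r s).trans (mul_le_mul_of_nonneg_right (Real.le_coe_toNNReal L) (abs_nonneg _))

lemma F_meas (h : Scat W R₀ R a f Q) : Measurable (fun t => t ^ 2 * W t * f t) :=
  ((measurable_id.pow_const 2).mul h.W_meas).mul h.f_cont.measurable

lemma F_locInt (h : Scat W R₀ R a f Q) :
    LocallyIntegrable (fun t => t ^ 2 * W t * f t) volume := by
  obtain ⟨M, hM0, hM⟩ := h.exists_M
  have h1 : LocallyIntegrable (fun t : ℝ => t ^ 2 * M) volume :=
    (Continuous.locallyIntegrable (by fun_prop))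
  refine h1.mono h.F_meas.aestronglyMeasurable (Eventually.of_forall fun t => ?_)
  rw [Real.norm_eq_abs, Real.norm_eq_abs,
    abs_of_nonneg (mul_nonneg (mul_nonneg (sq_nonneg t) (h.W_nonneg t)) (h.f_nonneg t)),
    abs_of_nonneg (mul_nonneg (sq_nonneg t) hM0)]
  calc t ^ 2 * W t * f t ≤ t ^ 2 * W t * 1 :=
        mul_le_mul_of_nonneg_left (h.f_le_one t) (mul_nonneg (sq_nonneg t) (h.W_nonneg t))
    _ ≤ t ^ 2 * M := by rw [mul_one]; exact mul_le_mul_of_nonneg_left (hM t) (sq_nonneg t)

lemma F_int (h : Scat W R₀ R a f Q) (r s : ℝ) :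
    IntervalIntegrable (fun t => t ^ 2 * W t * f t) volume r s :=
  intervalIntegrable_iff.mpr
    ((h.F_locInt.integrableOn_isCompact isCompact_uIcc).mono_set uIoc_subset_uIcc)

lemma Q_mono (h : Scat W R₀ R a f Q) : Monotone Q := by
  intro r s hrs
  rcases lt_or_ge r R₀ with hr | hr
  · rw [h.Q_zero r hr]; exact h.Q_nonneg s
  · have h1 := h.Q_int r s hr hrs
    have h2 : 0 ≤ ∫ t in r..s, t ^ 2 * W t * f t :=
      intervalIntegral.integral_nonneg hrs fun t _ =>
        mul_nonneg (mul_nonneg (sq_nonneg t) (h.W_nonneg t)) (h.f_nonneg t)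
    linarith

lemma Q_meas (h : Scat W R₀ R a f Q) : Measurable Q := h.Q_mono.measurable

/-- Growth bound for `Q`. -/
lemma Q_sub_le (h : Scat W R₀ R a f Q) {M : ℝ} (hM0 : 0 ≤ M) (hM : ∀ r, W r ≤ M) {r s : ℝ}
    (hr : R₀ ≤ r) (hrs : r ≤ s) : Q s - Q r ≤ M * s ^ 2 * (s - r) := by
  have hr0 : 0 ≤ r := h.R₀_nonneg.trans hr
  rw [h.Q_int r s hr hrs]
  calc ∫ t in r..s, t ^ 2 * W t * f t ≤ ∫ t in r..s, M * s ^ 2 := by
        refine intervalIntegral.integral_mono_on hrs (h.F_int r s) intervalIntegrable_const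
          fun t ht => ?_
        have ht0 : 0 ≤ t := hr0.trans ht.1
        calc t ^ 2 * W t * f t ≤ t ^ 2 * W t * 1 :=
              mul_le_mul_of_nonneg_left (h.f_le_one t) (mul_nonneg (sq_nonneg t) (h.W_nonneg t))
          _ ≤ s ^ 2 * M := by
              rw [mul_one]
              exact mul_le_mul (pow_le_pow_left₀ ht0 ht.2 2) (hM t) (h.W_nonneg t) (sq_nonneg s)
          _ = M * s ^ 2 := mul_comm _ _
    _ = M * s ^ 2 * (s - r) := by
        rw [intervalIntegral.integral_const, smul_eq_mul]; ring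

lemma Q_deriv (h : Scat W R₀ R a f Q) :
    ∀ᵐ r : ℝ, R₀ < r → HasDerivAt Q (r ^ 2 * W r * f r) r := by
  filter_upwards [_root_.LocallyIntegrable.ae_hasDerivAt_integral h.F_locInt] with r hr hlt
  have h1 := (hr R₀).const_add (Q R₀)
  refine h1.congr_of_eventuallyEq ?_
  filter_upwards [lt_mem_nhds hlt] with s hs
  have := h.Q_int R₀ s le_rfl hs.le
  linarith

/-- The energy identity. -/
lemma energy (h : Scat W R₀ R a f Q) {d : ℝ} (hd : R ≤ d) :
    ∫ r in R₀..d, (Q r ^ 2 / r ^ 2 + r ^ 2 * W r * f r ^ 2) = a * (1 - a / d) := by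
  have hd0 : R₀ ≤ d := h.R₀_le.trans hd
  obtain ⟨M, hM0, hM⟩ := h.exists_M
  obtain ⟨K, hK⟩ := h.f_lipWith
  have hQlip : LipschitzOnWith (Real.toNNReal (M * d ^ 2)) Q (Icc R₀ d) := by
    refine LipschitzOnWith.of_dist_le_mul fun r hr s hs => ?_
    have hc : (0:ℝ) ≤ M * d ^ 2 := by positivity
    rw [Real.coe_toNNReal _ hc, Real.dist_eq, Real.dist_eq]
    have hr0 := h.R₀_nonneg.trans hr.1
    have hs0 := h.R₀_nonneg.trans hs.1
    rcases le_total r s with hrs | hrs
    · rw [abs_sub_comm, abs_sub_comm r s, abs_of_nonneg (sub_nonneg.2 (h.Q_mono hrs)),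
        abs_of_nonneg (sub_nonneg.2 hrs)]
      refine (h.Q_sub_le hM0 hM hr.1 hrs).trans ?_
      exact mul_le_mul_of_nonneg_right (mul_le_mul_of_nonneg_left
        (pow_le_pow_left₀ hs0 hs.2 2) hM0) (sub_nonneg.2 hrs)
    · rw [abs_of_nonneg (sub_nonneg.2 (h.Q_mono hrs)), abs_of_nonneg (sub_nonneg.2 hrs)]
      refine (h.Q_sub_le hM0 hM hs.1 hrs).trans ?_
      exact mul_le_mul_of_nonneg_right (mul_le_mul_of_nonneg_left
        (pow_le_pow_left₀ hr0 hr.2 2) hM0) (sub_nonneg.2 hrs)
  have hQac : AbsolutelyContinuousOnInterval Q R₀ d := by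
    rw [← uIcc_of_le hd0] at hQlip
    exact hQlip.absolutelyContinuousOnInterval
  have hfac : AbsolutelyContinuousOnInterval f R₀ d :=
    (hK.lipschitzOnWith (s := uIcc R₀ d)).absolutelyContinuousOnInterval
  have hP := (hQac.fun_mul hfac).integral_deriv_eq_sub
  have e1 : Q R₀ * f R₀ = 0 := by
    rcases h.R₀_nonneg.lt_or_eq with h0 | h0
    · rw [h.f_core R₀ h0 le_rfl, mul_zero]
    · rw [h.Q_zero' R₀ h0.symm.le, zero_mul]
  rw [e1, sub_zero, h.Q_out d hd, h.f_out d hd] at hP
  rw [← hP]
  refine intervalIntegral.integral_congr_ae ?_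
  have hne : ∀ᵐ r : ℝ, r ≠ R₀ := by rw [ae_iff]; simp
  filter_upwards [h.Q_deriv, hne] with r hr hr' hmem
  rw [uIoc_of_le hd0] at hmem
  have hr0 : 0 < r := h.R₀_nonneg.trans_lt hmem.1
  have h2 := (hr hmem.1).fun_mul (h.f_deriv r hr0 hr')
  rw [h2.deriv]
  field_simp
  ring

lemma energy_int (h : Scat W R₀ R a f Q) (d : ℝ) :
    IntervalIntegrable (fun r => Q r ^ 2 / r ^ 2 + r ^ 2 * W r * f r ^ 2) volume R₀ d := by
  obtain ⟨M, hM0, hM⟩ := h.exists_M
  obtain ⟨C, hC0, hC⟩ := h.exists_C
  have hm : Measurable (fun r => Q r ^ 2 / r ^ 2 + r ^ 2 * W r * f r ^ 2) :=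
    ((h.Q_meas.pow_const 2).div (measurable_id.pow_const 2)).add
      (((measurable_id.pow_const 2).mul h.W_meas).mul (h.f_cont.measurable.pow_const 2))
  have h1 : IntervalIntegrable (fun r : ℝ => a * C * |r| + r ^ 2 * M) volume R₀ d :=
    (Continuous.intervalIntegrable (by fun_prop) _ _)
  refine h1.mono_fun hm.aestronglyMeasurable (Eventually.of_forall fun r => ?_)
  have ha := h.a_pos.le
  have e1 : 0 ≤ a * C * |r| + r ^ 2 * M := by positivity
  have e2 : 0 ≤ Q r ^ 2 / r ^ 2 + r ^ 2 * W r * f r ^ 2 := by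
    have := h.W_nonneg r
    positivity
  dsimp only
  rw [Real.norm_eq_abs, Real.norm_eq_abs, abs_of_nonneg e1, abs_of_nonneg e2]
  refine add_le_add ?_ ?_
  · rcases le_or_gt r 0 with hr | hr
    · rw [h.Q_zero' r hr]
      have : (0:ℝ) ^ 2 / r ^ 2 = 0 := by simp
      rw [this]; positivity
    · rw [abs_of_pos hr, div_le_iff₀ (by positivity)]
      calc Q r ^ 2 = Q r * Q r := sq _
        _ ≤ a * (C * r ^ 3) := mul_le_mul (h.Q_le r) (hC r hr) (h.Q_nonneg r) ha
        _ = a * C * r * r ^ 2 := by ring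
  · calc r ^ 2 * W r * f r ^ 2 ≤ r ^ 2 * W r * 1 :=
          mul_le_mul_of_nonneg_left (pow_le_one₀ (h.f_nonneg r) (h.f_le_one r))
            (mul_nonneg (sq_nonneg r) (h.W_nonneg r))
      _ ≤ r ^ 2 * M := by rw [mul_one]; exact mul_le_mul_of_nonneg_left (hM r) (sq_nonneg r)

/-- Lower bound for the first moment of the charge. -/
lemma moment (h : Scat W R₀ R a f Q) {d : ℝ} (hd : R ≤ d) :
    a * (d ^ 2 - R ^ 2) / 2 ≤ ∫ r in R₀..d, Q r * r := by
  have hQi : ∀ r s : ℝ, IntervalIntegrable (fun r => Q r * r) volume r s := fun r s =>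
    (h.Q_mono.intervalIntegrable).mul_continuousOn continuousOn_id
  rw [← intervalIntegral.integral_add_adjacent_intervals (hQi R₀ R) (hQi R d)]
  have h1 : 0 ≤ ∫ r in R₀..R, Q r * r :=
    intervalIntegral.integral_nonneg h.R₀_le fun t ht =>
      mul_nonneg (h.Q_nonneg t) (h.R₀_nonneg.trans ht.1)
  have h2 : ∫ r in R..d, Q r * r = ∫ r in R..d, a * r := by
    refine intervalIntegral.integral_congr fun r hr => ?_
    rw [uIcc_of_le hd] at hr
    rw [h.Q_out r hr.1]
  rw [h2, intervalIntegral.integral_const_mul, integral_id]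
  linarith

end Scat

end Pool.Agent.Lib.MP_4952d6_mp

end

/-! ### Volterra -/

section

set_option autoImplicit false
set_option linter.unusedSectionVars false
set_option linter.unusedVariables false
open MeasureTheory Function Filter Topology Set

namespace Pool.Agent.Lib.MP_4952d6_mp

namespace Volt

variable (W : ℝ → ℝ) (R₀ : ℝ)

/-- Picard iterates for `u'' = W u`, `u(R₀) = 0`, `u'(R₀) = 1`, extended by `0` to the left. -/
noncomputable def it : ℕ → ℝ → ℝ
  | 0 => fun _ => 0
  | n + 1 => fun r => ∫ s in R₀..(max r R₀), (1 + ∫ t in R₀..s, W t * it n t)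

/-- hypotheses -/
structure VH (W : ℝ → ℝ) (R₀ M : ℝ) : Prop where
  M_nonneg : 0 ≤ M
  meas : Measurable W
  nonneg : ∀ r, 0 ≤ W r
  le : ∀ r, W r ≤ M

variable {W R₀} {M : ℝ}

/-- upper barrier -/
noncomputable def bar (R₀ M : ℝ) (r : ℝ) : ℝ := Real.exp ((M + 1) * (max r R₀ - R₀))

lemma bar_cont : Continuous (bar R₀ M) := by unfold bar; fun_prop

lemma bar_pos (r : ℝ) : 0 < bar R₀ M r := Real.exp_pos _

lemma int_of_le (h : VH W R₀ M) {g : ℝ → ℝ} (hg : Measurable g) (hg0 : ∀ r, 0 ≤ g r)
    (hgb : ∀ r, g r ≤ bar R₀ M r) (r s : ℝ) : IntervalIntegrable (fun t => W t * g t) volume r s := by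
  have h1 : LocallyIntegrable (fun t : ℝ => M * bar R₀ M t) volume :=
    (continuous_const.mul bar_cont).locallyIntegrable
  have h2 : LocallyIntegrable (fun t => W t * g t) volume := by
    refine h1.mono (h.meas.mul hg).aestronglyMeasurable (Eventually.of_forall fun t => ?_)
    rw [Real.norm_eq_abs, Real.norm_eq_abs, abs_of_nonneg (mul_nonneg (h.nonneg t) (hg0 t)),
      abs_of_nonneg (mul_nonneg h.M_nonneg (bar_pos t).le)]
    exact mul_le_mul (h.le t) (hgb t) (hg0 t) h.M_nonneg
  exact intervalIntegrable_iff.mpr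
    ((h2.integrableOn_isCompact isCompact_uIcc).mono_set uIoc_subset_uIcc)

lemma integral_bar {r : ℝ} (hM : 0 ≤ M) (hr : R₀ ≤ r) :
    ∫ t in R₀..r, bar R₀ M t = (bar R₀ M r - 1) / (M + 1) := by
  have h1 : ∫ t in R₀..r, bar R₀ M t = ∫ t in R₀..r, Real.exp ((M + 1) * (t - R₀)) := by
    refine intervalIntegral.integral_congr fun t ht => ?_
    rw [uIcc_of_le hr] at ht
    unfold bar
    rw [max_eq_left ht.1]
  have hM1 : (0:ℝ) < M + 1 := by linarith
  have h2 : ∀ t ∈ uIcc R₀ r, HasDerivAt (fun t => Real.exp ((M + 1) * (t - R₀)) / (M + 1))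
      (Real.exp ((M + 1) * (t - R₀))) t := by
    intro t _
    have h3 : HasDerivAt (fun t : ℝ => (M + 1) * (t - R₀)) ((M + 1) * 1) t :=
      ((hasDerivAt_id t).sub_const R₀).const_mul (M + 1)
    have h4 := h3.exp.div_const (M + 1)
    have e : Real.exp ((M + 1) * (t - R₀)) * ((M + 1) * 1) / (M + 1)
        = Real.exp ((M + 1) * (t - R₀)) := by field_simp
    rw [e] at h4
    exact h4
  rw [h1, intervalIntegral.integral_eq_sub_of_hasDerivAt h2
    (Continuous.intervalIntegrable (by fun_prop) _ _)]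
  unfold bar
  rw [max_eq_left hr]
  simp
  ring

/-- the inner function `1 + ∫ W g` -/
noncomputable def pp (W : ℝ → ℝ) (R₀ : ℝ) (g : ℝ → ℝ) (s : ℝ) : ℝ := 1 + ∫ t in R₀..s, W t * g t

structure Good (R₀ M : ℝ) (g : ℝ → ℝ) : Prop where
  meas : Measurable g
  nonneg : ∀ r, 0 ≤ g r
  le : ∀ r, g r ≤ bar R₀ M r

lemma pp_cont (h : VH W R₀ M) {g : ℝ → ℝ} (hg : Good R₀ M g) : Continuous (pp W R₀ g) :=
  continuous_const.add (intervalIntegral.continuous_primitive
    (fun r s => int_of_le h hg.meas hg.nonneg hg.le r s) R₀)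

lemma pp_ge (h : VH W R₀ M) {g : ℝ → ℝ} (hg : Good R₀ M g) {s : ℝ} (hs : R₀ ≤ s) :
    1 ≤ pp W R₀ g s := by
  unfold pp
  have : 0 ≤ ∫ t in R₀..s, W t * g t :=
    intervalIntegral.integral_nonneg hs fun t _ => mul_nonneg (h.nonneg t) (hg.nonneg t)
  linarith

lemma pp_le (h : VH W R₀ M) {g : ℝ → ℝ} (hg : Good R₀ M g) {s : ℝ} (hs : R₀ ≤ s) :
    pp W R₀ g s ≤ 1 + (M + 1) * (bar R₀ M s - 1) := by
  unfold pp
  have hM := h.M_nonneg
  have h1 : ∫ t in R₀..s, W t * g t ≤ ∫ t in R₀..s, M * bar R₀ M t := by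
    refine intervalIntegral.integral_mono_on hs (int_of_le h hg.meas hg.nonneg hg.le _ _)
      ((continuous_const.mul bar_cont).intervalIntegrable _ _) fun t _ => ?_
    exact mul_le_mul (h.le t) (hg.le t) (hg.nonneg t) h.M_nonneg
  rw [intervalIntegral.integral_const_mul, integral_bar hM hs] at h1
  have hb : 1 ≤ bar R₀ M s := by
    unfold bar
    refine Real.one_le_exp ?_
    have : 0 ≤ max s R₀ - R₀ := sub_nonneg.2 (le_max_right _ _)
    positivity
  have h2 : M * ((bar R₀ M s - 1) / (M + 1)) ≤ (M + 1) * (bar R₀ M s - 1) := by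
    rw [mul_div_assoc', div_le_iff₀ (by linarith)]
    have h3 : 0 ≤ bar R₀ M s - 1 := by linarith
    nlinarith [mul_nonneg h3 hM, mul_nonneg (mul_nonneg h3 hM) hM]
  linarith

/-- the Volterra step -/
noncomputable def step (W : ℝ → ℝ) (R₀ : ℝ) (g : ℝ → ℝ) (r : ℝ) : ℝ :=
  ∫ s in R₀..(max r R₀), pp W R₀ g s

lemma step_good (h : VH W R₀ M) {g : ℝ → ℝ} (hg : Good R₀ M g) : Good R₀ M (step W R₀ g) where
  meas := by
    have h1 : Continuous (fun r => ∫ s in R₀..r, pp W R₀ g s) :=
      intervalIntegral.continuous_primitive (fun r s => (pp_cont h hg).intervalIntegrable _ _) R₀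
    exact (h1.comp (continuous_id.max continuous_const)).measurable
  nonneg r := by
    unfold step
    refine intervalIntegral.integral_nonneg (le_max_right _ _) fun s hs => ?_
    exact zero_le_one.trans (pp_ge h hg hs.1)
  le r := by
    have hM := h.M_nonneg
    unfold step
    set r' := max r R₀ with hr'
    have hr'0 : R₀ ≤ r' := le_max_right _ _
    have hbb : bar R₀ M r = bar R₀ M r' := by
      unfold bar; rw [hr', max_eq_left (le_max_right r R₀)]
    rw [hbb]
    have h1 : ∫ s in R₀..r', pp W R₀ g s ≤ ∫ s in R₀..r', (1 + (M + 1) * (bar R₀ M s - 1)) := by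
      refine intervalIntegral.integral_mono_on hr'0 ((pp_cont h hg).intervalIntegrable _ _)
        (Continuous.intervalIntegrable (by have := bar_cont (R₀ := R₀) (M := M); fun_prop) _ _)
        fun s hs => pp_le h hg hs.1
    refine h1.trans ?_
    have e1 : ∀ s, 1 + (M + 1) * (bar R₀ M s - 1) = (M + 1) * bar R₀ M s + (-M) := fun s => by ring
    simp_rw [e1]
    have i1 : IntervalIntegrable (fun s => (M + 1) * bar R₀ M s) volume R₀ r' :=
      (continuous_const.mul bar_cont).intervalIntegrable _ _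
    rw [intervalIntegral.integral_add i1
      intervalIntegrable_const, intervalIntegral.integral_const_mul, integral_bar hM hr'0,
      intervalIntegral.integral_const, smul_eq_mul]
    have e2 : (M + 1) * ((bar R₀ M r' - 1) / (M + 1)) = bar R₀ M r' - 1 := by field_simp
    rw [e2]
    have : 0 ≤ (r' - R₀) * M := mul_nonneg (by linarith) hM
    linarith

lemma step_mono (h : VH W R₀ M) {g g' : ℝ → ℝ} (hg : Good R₀ M g) (hg' : Good R₀ M g')
    (hle : ∀ r, g r ≤ g' r) (r : ℝ) : step W R₀ g r ≤ step W R₀ g' r := by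
  unfold step
  refine intervalIntegral.integral_mono_on (le_max_right _ _) ((pp_cont h hg).intervalIntegrable _ _)
    ((pp_cont h hg').intervalIntegrable _ _) fun s hs => ?_
  unfold pp
  refine add_le_add le_rfl ?_
  refine intervalIntegral.integral_mono_on hs.1 (int_of_le h hg.meas hg.nonneg hg.le _ _)
    (int_of_le h hg'.meas hg'.nonneg hg'.le _ _) fun t _ => ?_
  exact mul_le_mul_of_nonneg_left (hle t) (h.nonneg t)

noncomputable def seq (W : ℝ → ℝ) (R₀ : ℝ) : ℕ → ℝ → ℝ
  | 0 => fun _ => 0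
  | n + 1 => step W R₀ (seq W R₀ n)

lemma seq_good (h : VH W R₀ M) (n : ℕ) : Good R₀ M (seq W R₀ n) := by
  induction n with
  | zero => exact ⟨measurable_const, fun _ => le_rfl, fun r => (bar_pos r).le⟩
  | succ n ih => exact step_good h ih

lemma seq_mono (h : VH W R₀ M) (r : ℝ) : Monotone (fun n => seq W R₀ n r) := by
  have h1 : ∀ n, ∀ r, seq W R₀ n r ≤ seq W R₀ (n + 1) r := by
    intro n
    induction n with
    | zero => exact fun r => (step_good h (seq_good h 0)).nonneg r
    | succ n ih => exact fun r => step_mono h (seq_good h n) (seq_good h (n + 1)) ih r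
  exact monotone_nat_of_le_succ fun n => h1 n r

/-- the solution -/
noncomputable def sol (W : ℝ → ℝ) (R₀ : ℝ) (r : ℝ) : ℝ := ⨆ n, seq W R₀ n r

lemma sol_bdd (h : VH W R₀ M) (r : ℝ) : BddAbove (range fun n => seq W R₀ n r) :=
  ⟨bar R₀ M r, by rintro _ ⟨n, rfl⟩; exact (seq_good h n).le r⟩

lemma sol_tendsto (h : VH W R₀ M) (r : ℝ) :
    Tendsto (fun n => seq W R₀ n r) atTop (𝓝 (sol W R₀ r)) :=
  tendsto_atTop_ciSup (seq_mono h r) (sol_bdd h r)

lemma sol_good (h : VH W R₀ M) : Good R₀ M (sol W R₀) where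
  meas := measurable_of_tendsto_metrizable (fun n => (seq_good h n).meas)
    (tendsto_pi_nhds.2 fun r => sol_tendsto h r)
  nonneg r := ge_of_tendsto' (sol_tendsto h r) fun n => (seq_good h n).nonneg r
  le r := le_of_tendsto' (sol_tendsto h r) fun n => (seq_good h n).le r

lemma pp_tendsto (h : VH W R₀ M) (s : ℝ) :
    Tendsto (fun n => pp W R₀ (seq W R₀ n) s) atTop (𝓝 (pp W R₀ (sol W R₀) s)) := by
  unfold pp
  refine Tendsto.const_add _ ?_
  refine intervalIntegral.tendsto_integral_filter_of_dominated_convergence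
    (fun t => M * bar R₀ M t) (Eventually.of_forall fun n => ?_)
    (Eventually.of_forall fun n => Eventually.of_forall fun t _ => ?_)
    ((continuous_const.mul bar_cont).intervalIntegrable _ _)
    (Eventually.of_forall fun t _ => (sol_tendsto h t).const_mul _)
  · exact (h.meas.mul (seq_good h n).meas).aestronglyMeasurable
  · rw [Real.norm_eq_abs, abs_of_nonneg (mul_nonneg (h.nonneg t) ((seq_good h n).nonneg t))]
    exact mul_le_mul (h.le t) ((seq_good h n).le t) ((seq_good h n).nonneg t) h.M_nonneg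

/-- The solution satisfies the integral equation. -/
theorem sol_eq (h : VH W R₀ M) (r : ℝ) : sol W R₀ r = step W R₀ (sol W R₀) r := by
  have h1 : Tendsto (fun n => seq W R₀ (n + 1) r) atTop (𝓝 (sol W R₀ r)) :=
    (tendsto_add_atTop_iff_nat 1).2 (sol_tendsto h r)
  have h2 : Tendsto (fun n => step W R₀ (seq W R₀ n) r) atTop (𝓝 (step W R₀ (sol W R₀) r)) := by
    unfold step
    refine intervalIntegral.tendsto_integral_filter_of_dominated_convergence
      (fun s => 1 + (M + 1) * (bar R₀ M s - 1)) (Eventually.of_forall fun n => ?_)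
      (Eventually.of_forall fun n => Eventually.of_forall fun t ht => ?_)
      (Continuous.intervalIntegrable (by have := bar_cont (R₀ := R₀) (M := M); fun_prop) _ _)
      (Eventually.of_forall fun t _ => pp_tendsto h t)
    · exact (pp_cont h (seq_good h n)).measurable.aestronglyMeasurable
    · rw [uIoc_of_le (le_max_right _ _)] at ht
      rw [Real.norm_eq_abs, abs_of_nonneg (zero_le_one.trans (pp_ge h (seq_good h n) ht.1.le))]
      exact pp_le h (seq_good h n) ht.1.le
  exact tendsto_nhds_unique h1 h2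

end Volt

end Pool.Agent.Lib.MP_4952d6_mp

end

/-! ### ScatExist -/

section

set_option autoImplicit false
set_option linter.unusedSectionVars false
set_option linter.unusedVariables false
open MeasureTheory Function Filter Topology Set

namespace Pool.Agent.Lib.MP_4952d6_mp

namespace Volt

variable {W : ℝ → ℝ} {R₀ M : ℝ}

/-- derivative of the solution -/
noncomputable def dsol (W : ℝ → ℝ) (R₀ : ℝ) (r : ℝ) : ℝ := pp W R₀ (sol W R₀) r

/-- `r² (u/r)'` -/
noncomputable def qq (W : ℝ → ℝ) (R₀ : ℝ) (r : ℝ) : ℝ := r * dsol W R₀ r - sol W R₀ r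

lemma dsol_cont (h : VH W R₀ M) : Continuous (dsol W R₀) := pp_cont h (sol_good h)

lemma g_int (h : VH W R₀ M) (r s : ℝ) :
    IntervalIntegrable (fun t => W t * sol W R₀ t) volume r s :=
  int_of_le h (sol_good h).meas (sol_good h).nonneg (sol_good h).le r s

lemma dsol_sub (h : VH W R₀ M) (r s : ℝ) :
    dsol W R₀ s - dsol W R₀ r = ∫ t in r..s, W t * sol W R₀ t := by
  unfold dsol pp
  have := intervalIntegral.integral_interval_sub_left (g_int h R₀ s) (g_int h R₀ r)
  linarith

lemma dsol_mono (h : VH W R₀ M) {r s : ℝ} (hrs : r ≤ s) : dsol W R₀ r ≤ dsol W R₀ s := by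
  have h1 := dsol_sub h r s
  have h2 : 0 ≤ ∫ t in r..s, W t * sol W R₀ t :=
    intervalIntegral.integral_nonneg hrs fun t _ => mul_nonneg (h.nonneg t) ((sol_good h).nonneg t)
  linarith

lemma dsol_R₀ : dsol W R₀ R₀ = 1 := by unfold dsol pp; simp

lemma dsol_ge (h : VH W R₀ M) {r : ℝ} (hr : R₀ ≤ r) : 1 ≤ dsol W R₀ r := pp_ge h (sol_good h) hr

lemma sol_of_ge (h : VH W R₀ M) {r : ℝ} (hr : R₀ ≤ r) :
    sol W R₀ r = ∫ s in R₀..r, dsol W R₀ s := by
  rw [sol_eq h]; unfold step; rw [max_eq_left hr]; rfl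

lemma sol_of_le (h : VH W R₀ M) {r : ℝ} (hr : r ≤ R₀) : sol W R₀ r = 0 := by
  rw [sol_eq h]; unfold step; rw [max_eq_right hr]; simp

lemma dsol_int (h : VH W R₀ M) (r s : ℝ) : IntervalIntegrable (dsol W R₀) volume r s :=
  (dsol_cont h).intervalIntegrable _ _

lemma sol_sub (h : VH W R₀ M) {r s : ℝ} (hr : R₀ ≤ r) (hrs : r ≤ s) :
    sol W R₀ s - sol W R₀ r = ∫ t in r..s, dsol W R₀ t := by
  rw [sol_of_ge h hr, sol_of_ge h (hr.trans hrs)]
  exact intervalIntegral.integral_interval_sub_left (dsol_int h R₀ s) (dsol_int h R₀ r)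

lemma sol_sub_ge (h : VH W R₀ M) {r s : ℝ} (hr : R₀ ≤ r) (hrs : r ≤ s) :
    (s - r) * dsol W R₀ r ≤ sol W R₀ s - sol W R₀ r := by
  rw [sol_sub h hr hrs]
  calc (s - r) * dsol W R₀ r = ∫ t in r..s, dsol W R₀ r := by
        rw [intervalIntegral.integral_const, smul_eq_mul]
    _ ≤ _ := intervalIntegral.integral_mono_on hrs intervalIntegrable_const (dsol_int h r s)
        fun t ht => dsol_mono h ht.1

lemma sol_sub_le (h : VH W R₀ M) {r s : ℝ} (hr : R₀ ≤ r) (hrs : r ≤ s) :
    sol W R₀ s - sol W R₀ r ≤ (s - r) * dsol W R₀ s := by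
  rw [sol_sub h hr hrs]
  calc ∫ t in r..s, dsol W R₀ t ≤ ∫ t in r..s, dsol W R₀ s :=
        intervalIntegral.integral_mono_on hrs (dsol_int h r s) intervalIntegrable_const
        fun t ht => dsol_mono h ht.2
    _ = _ := by rw [intervalIntegral.integral_const, smul_eq_mul]

lemma sol_hasDerivAt (h : VH W R₀ M) {r : ℝ} (hr : R₀ < r) :
    HasDerivAt (sol W R₀) (dsol W R₀ r) r := by
  have h1 : HasDerivAt (fun x => ∫ s in R₀..x, dsol W R₀ s) (dsol W R₀ r) r :=
    intervalIntegral.integral_hasDerivAt_right (dsol_int h R₀ r)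
      ((dsol_cont h).stronglyMeasurable.stronglyMeasurableAtFilter) (dsol_cont h).continuousAt
  refine h1.congr_of_eventuallyEq ?_
  filter_upwards [lt_mem_nhds hr] with x hx
  exact sol_of_ge h hx.le

lemma qq_sub (h : VH W R₀ M) {r s : ℝ} (hr : R₀ ≤ r) (hrs : r ≤ s) :
    qq W R₀ s - qq W R₀ r = ∫ t in r..s, t * (W t * sol W R₀ t) := by
  have hM := h.M_nonneg
  set C : ℝ := M * bar R₀ M s with hC
  have hC0 : 0 ≤ C := mul_nonneg hM (bar_pos s).le
  have hbar : ∀ t, t ≤ s → bar R₀ M t ≤ bar R₀ M s := fun t ht => by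
    unfold bar
    refine Real.exp_le_exp.2 (mul_le_mul_of_nonneg_left ?_ (by linarith))
    exact sub_le_sub_right (max_le_max ht le_rfl) _
  have hLip : LipschitzOnWith (Real.toNNReal C) (dsol W R₀) (Icc r s) := by
    refine LipschitzOnWith.of_dist_le_mul fun x hx y hy => ?_
    rw [Real.coe_toNNReal _ hC0, Real.dist_eq, Real.dist_eq]
    have key : ∀ x y, x ∈ Icc r s → y ∈ Icc r s → x ≤ y →
        dsol W R₀ y - dsol W R₀ x ≤ C * (y - x) := by
      intro x y hx hy hxy
      rw [dsol_sub h]
      calc ∫ t in x..y, W t * sol W R₀ t ≤ ∫ t in x..y, C := by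
            refine intervalIntegral.integral_mono_on hxy (g_int h x y) intervalIntegrable_const
              fun t ht => ?_
            exact mul_le_mul (h.le t) (((sol_good h).le t).trans (hbar t (ht.2.trans hy.2)))
              ((sol_good h).nonneg t) hM
        _ = C * (y - x) := by rw [intervalIntegral.integral_const, smul_eq_mul]; ring
    rcases le_total x y with hxy | hxy
    · rw [abs_sub_comm, abs_sub_comm x y, abs_of_nonneg (sub_nonneg.2 (dsol_mono h hxy)),
        abs_of_nonneg (sub_nonneg.2 hxy)]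
      exact key x y hx hy hxy
    · rw [abs_of_nonneg (sub_nonneg.2 (dsol_mono h hxy)), abs_of_nonneg (sub_nonneg.2 hxy)]
      exact key y x hy hx hxy
  have hac : AbsolutelyContinuousOnInterval (dsol W R₀) r s := by
    rw [← uIcc_of_le hrs] at hLip
    exact hLip.absolutelyContinuousOnInterval
  have hid : AbsolutelyContinuousOnInterval (fun t : ℝ => t) r s :=
    (LipschitzWith.id.lipschitzOnWith (s := uIcc r s)).absolutelyContinuousOnInterval
  have hP := (hid.fun_mul hac).integral_deriv_eq_sub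
  have hloc : LocallyIntegrable (fun t => W t * sol W R₀ t) volume := by
    have h1 : LocallyIntegrable (fun t : ℝ => M * bar R₀ M t) volume :=
      (continuous_const.mul bar_cont).locallyIntegrable
    refine h1.mono (h.meas.mul (sol_good h).meas).aestronglyMeasurable
      (Eventually.of_forall fun t => ?_)
    rw [Real.norm_eq_abs, Real.norm_eq_abs, abs_of_nonneg (mul_nonneg (h.nonneg t)
      ((sol_good h).nonneg t)), abs_of_nonneg (mul_nonneg h.M_nonneg (bar_pos t).le)]
    exact mul_le_mul (h.le t) ((sol_good h).le t) ((sol_good h).nonneg t) h.M_nonneg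
  have e1 : ∫ t in r..s, deriv (fun t => t * dsol W R₀ t) t
      = ∫ t in r..s, (dsol W R₀ t + t * (W t * sol W R₀ t)) := by
    refine intervalIntegral.integral_congr_ae ?_
    filter_upwards [_root_.LocallyIntegrable.ae_hasDerivAt_integral hloc] with t ht _
    have h2 : HasDerivAt (dsol W R₀) (W t * sol W R₀ t) t := (ht R₀).const_add 1
    have h3 := (hasDerivAt_id t).fun_mul h2
    simp only [id_eq, one_mul] at h3
    exact h3.deriv
  have hint : IntervalIntegrable (fun t => t * (W t * sol W R₀ t)) volume r s :=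
    (g_int h r s).continuousOn_mul continuousOn_id
  rw [e1, intervalIntegral.integral_add (dsol_int h r s) hint, ← sol_sub h hr hrs] at hP
  unfold qq
  linarith

lemma qq_R₀ (h : VH W R₀ M) : qq W R₀ R₀ = R₀ := by
  unfold qq; rw [dsol_R₀, sol_of_le h le_rfl]; ring

lemma qq_mono (h : VH W R₀ M) (hR0 : 0 ≤ R₀) {r s : ℝ} (hr : R₀ ≤ r) (hrs : r ≤ s) :
    qq W R₀ r ≤ qq W R₀ s := by
  have h1 := qq_sub h hr hrs
  have h2 : 0 ≤ ∫ t in r..s, t * (W t * sol W R₀ t) :=
    intervalIntegral.integral_nonneg hrs fun t ht => mul_nonneg (hR0.trans (hr.trans ht.1))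
      (mul_nonneg (h.nonneg t) ((sol_good h).nonneg t))
  linarith

lemma qq_nonneg (h : VH W R₀ M) (hR0 : 0 ≤ R₀) {r : ℝ} (hr : R₀ ≤ r) : 0 ≤ qq W R₀ r := by
  have := qq_mono h hR0 le_rfl hr
  rw [qq_R₀ h] at this
  exact hR0.trans this

/-- scattering length -/
noncomputable def aS (W : ℝ → ℝ) (R₀ R : ℝ) : ℝ := qq W R₀ R / dsol W R₀ R

/-- scattering solution -/
noncomputable def fS (W : ℝ → ℝ) (R₀ R : ℝ) (r : ℝ) : ℝ :=
  if r ≤ R₀ then (if R₀ = 0 then 1 / dsol W R₀ R else 0) else sol W R₀ r / (dsol W R₀ R * r)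

/-- flux of the scattering solution -/
noncomputable def QS (W : ℝ → ℝ) (R₀ R : ℝ) (r : ℝ) : ℝ :=
  if r < R₀ ∨ r ≤ 0 then 0 else qq W R₀ r / dsol W R₀ R

theorem exists_scat (h : VH W R₀ M) (hR0 : 0 ≤ R₀) {R : ℝ} (hR : R₀ < R)
    (hz : ∀ r, R ≤ r → W r = 0) (hgen : 0 < R₀ ∨ 0 < ∫ t in (0:ℝ)..R, t ^ 2 * W t) :
    Scat W R₀ R (aS W R₀ R) (fS W R₀ R) (QS W R₀ R) := by
  have hRpos : 0 < R := hR0.trans_lt hR
  set P : ℝ := dsol W R₀ R with hP
  set u : ℝ → ℝ := sol W R₀ with hu
  set p : ℝ → ℝ := dsol W R₀ with hp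
  set q : ℝ → ℝ := qq W R₀ with hq
  have hu0 : ∀ r, 0 ≤ u r := (sol_good h).nonneg
  have hP1 : 1 ≤ P := dsol_ge h hR.le
  have hP0 : 0 < P := by linarith
  have hM := h.M_nonneg
  -- constancy beyond R
  have hpR : ∀ r, R ≤ r → p r = P := by
    intro r hr
    have h1 := dsol_sub h R r
    have h2 : ∫ t in R..r, W t * sol W R₀ t = 0 := by
      rw [intervalIntegral.integral_congr (g := fun _ => (0:ℝ))]
      · simp
      · intro t ht
        rw [uIcc_of_le hr] at ht
        dsimp only
        rw [hz t ht.1, zero_mul]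
    linarith
  have hqR : ∀ r, R ≤ r → q r = q R := by
    intro r hr
    have h1 := qq_sub h hR.le hr
    have h2 : ∫ t in R..r, t * (W t * sol W R₀ t) = 0 := by
      rw [intervalIntegral.integral_congr (g := fun _ => (0:ℝ))]
      · simp
      · intro t ht
        rw [uIcc_of_le hr] at ht
        dsimp only
        rw [hz t ht.1]; simp
    linarith
  have hpP : ∀ r, p r ≤ P := by
    intro r
    rcases le_total r R with hr | hr
    · exact dsol_mono h hr
    · exact (hpR r hr).le
  have hqK : ∀ r, R₀ ≤ r → q r ≤ q R := by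
    intro r hr
    rcases le_total r R with hr' | hr'
    · exact qq_mono h hR0 hr hr'
    · exact (hqR r hr').le
  have hqdef : ∀ r, q r = r * p r - u r := fun r => rfl
  have huge : ∀ r, R₀ ≤ r → r - R₀ ≤ u r := by
    intro r hr
    have h1 := sol_sub_ge h le_rfl hr
    rw [dsol_R₀, sol_of_le h le_rfl] at h1
    linarith
  have hule : ∀ r, R₀ ≤ r → u r ≤ (r - R₀) * p r := by
    intro r hr
    have h1 := sol_sub_le h le_rfl hr
    rw [sol_of_le h le_rfl] at h1
    linarith
  have huleP : ∀ r, R₀ ≤ r → u r ≤ (r - R₀) * P := fun r hr =>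
    (hule r hr).trans (mul_le_mul_of_nonneg_left (hpP r) (by linarith))
  have hK : 0 < q R := by
    rcases hgen with h1 | h1
    · have := qq_mono h hR0 le_rfl hR.le
      rw [qq_R₀ h] at this
      linarith
    · rcases hR0.eq_or_lt with h0 | h0
      · have h2 := qq_sub h le_rfl hR.le
        rw [qq_R₀ h] at h2
        have hR00 : R₀ = 0 := h0.symm
        have h1' : 0 < ∫ t in R₀..R, t ^ 2 * W t := by rw [hR00]; exact h1
        have h3 : ∫ t in R₀..R, t ^ 2 * W t ≤ ∫ t in R₀..R, t * (W t * sol W R₀ t) := by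
          have hi1 : IntervalIntegrable (fun t => t ^ 2 * W t) volume R₀ R := by
            have h1 : IntervalIntegrable (fun r : ℝ => r ^ 2 * M) volume R₀ R :=
              (Continuous.intervalIntegrable (by fun_prop) _ _)
            refine h1.mono_fun ((measurable_id.pow_const 2).mul h.meas).aestronglyMeasurable
              (Eventually.of_forall fun r => ?_)
            have := h.nonneg r
            dsimp only
            rw [Real.norm_eq_abs, Real.norm_eq_abs, abs_of_nonneg (by positivity),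
              abs_of_nonneg (by positivity)]
            exact mul_le_mul_of_nonneg_left (h.le r) (sq_nonneg r)
          refine intervalIntegral.integral_mono_on hR.le hi1
            ((g_int h R₀ R).continuousOn_mul continuousOn_id) fun t ht => ?_
          have h4 := huge t ht.1
          have h5 : t ≤ u t := by linarith
          calc t ^ 2 * W t = t * (W t * t) := by ring
            _ ≤ t * (W t * u t) := mul_le_mul_of_nonneg_left
                (mul_le_mul_of_nonneg_left h5 (h.nonneg t)) (by linarith [ht.1])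
        have h6 : q R = qq W R₀ R := rfl
        rw [h6]
        linarith
      · have := qq_mono h hR0 le_rfl hR.le
        rw [qq_R₀ h] at this
        linarith
  have ha0 : 0 < aS W R₀ R := div_pos hK hP0
  have haP : aS W R₀ R * P = q R := by unfold aS; exact div_mul_cancel₀ _ hP0.ne'
  have huR : ∀ r, R ≤ r → u r = P * r - q R := by
    intro r hr
    have h1 := hqR r hr
    rw [hqdef r, hpR r hr] at h1
    linarith
  have hPru : ∀ r, R₀ ≤ r → P * r - u r ≤ q R := by
    intro r hr
    rcases le_total r R with hr' | hr'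
    · have h1 := sol_sub_le h hr hr'
      have h2 : q R = R * P - u R := hqdef R
      change u R - u r ≤ (R - r) * P at h1
      nlinarith
    · rw [huR r hr']; linarith
  have hf_gt : ∀ r, R₀ < r → fS W R₀ R r = u r / (P * r) := fun r hr => by
    unfold fS; rw [if_neg (not_le.2 hr)]
  have hf_le : ∀ r, r ≤ R₀ → fS W R₀ R r = (if R₀ = 0 then 1 / P else 0) := fun r hr => by
    unfold fS; rw [if_pos hr]
  have hf_nonneg : ∀ r, 0 ≤ fS W R₀ R r := by
    intro r
    unfold fS
    split_ifs with h1 h2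
    · positivity
    · exact le_rfl
    · have hr0 : 0 < r := hR0.trans_lt (not_le.1 h1)
      have := hu0 r
      positivity
  have hf_le_one : ∀ r, fS W R₀ R r ≤ 1 := by
    intro r
    unfold fS
    split_ifs with h1 h2
    · rw [div_le_one hP0]; exact hP1
    · exact zero_le_one
    · have hr := not_le.1 h1
      have hr0 : 0 < r := hR0.trans_lt hr
      rw [div_le_one (by positivity)]
      refine (huleP r hr.le).trans ?_
      nlinarith
  have hf_mono : Monotone (fS W R₀ R) := by
    intro r s hrs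
    rcases le_or_gt s R₀ with hs | hs
    · rw [hf_le s hs, hf_le r (hrs.trans hs)]
    · have hs0 : 0 < s := hR0.trans_lt hs
      rcases le_or_gt r R₀ with hr | hr
      · rw [hf_le r hr]
        split_ifs with h0
        · rw [hf_gt s hs, div_le_div_iff₀ hP0 (by positivity)]
          have := huge s hs.le
          rw [h0, sub_zero] at this
          nlinarith
        · exact hf_nonneg s
      · have hr0 : 0 < r := hR0.trans_lt hr
        rw [hf_gt s hs, hf_gt r hr, div_le_div_iff₀ (by positivity) (by positivity)]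
        have h1 := sol_sub_ge h hr.le hrs
        change (s - r) * p r ≤ u s - u r at h1
        have h2 : 0 ≤ r * p r - u r := qq_nonneg h hR0 hr.le
        have h3 : u r * s ≤ u s * r := by nlinarith
        nlinarith
  have hf_lip : ∃ L, ∀ r s, |fS W R₀ R r - fS W R₀ R s| ≤ L * |r - s| := by
    -- it suffices to treat `r ≤ s`
    obtain ⟨L, hL0, hL⟩ : ∃ L, 0 ≤ L ∧ ∀ r s, r ≤ s → fS W R₀ R s - fS W R₀ R r ≤ L * (s - r) := by
      rcases hR0.eq_or_lt with h0 | h0
      · -- no core
        have hp1 : ∀ s, 0 < s → (p s - 1) / s ≤ P * (M * R + 1 / R) := by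
          intro s hs
          rcases le_or_gt s R with hsR | hsR
          · have h1 : p s - 1 = ∫ t in (0:ℝ)..s, W t * u t := by
              have := dsol_sub h R₀ s
              rw [dsol_R₀] at this
              rw [← h0] at this
              rw [hp, hu, ← h0]; linarith
            have h2 : ∫ t in (0:ℝ)..s, W t * u t ≤ ∫ t in (0:ℝ)..s, M * (s * P) := by
              refine intervalIntegral.integral_mono_on hs.le (g_int h 0 s) intervalIntegrable_const
                fun t ht => ?_
              refine mul_le_mul (h.le t) ?_ (hu0 t) hM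
              refine (huleP t (by rw [← h0]; exact ht.1)).trans ?_
              rw [← h0, sub_zero]
              exact mul_le_mul_of_nonneg_right ht.2 hP0.le
            rw [intervalIntegral.integral_const, smul_eq_mul, sub_zero] at h2
            rw [div_le_iff₀ hs, h1]
            refine h2.trans ?_
            have h3 : s * (M * (s * P)) ≤ s * (M * (R * P)) := by gcongr
            refine h3.trans ?_
            have : 0 ≤ P * (1 / R) * s := by positivity
            nlinarith
          · rw [div_le_iff₀ hs]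
            have h1 := hpP s
            have h2 : P * (1 / R) * s ≥ P := by
              rw [ge_iff_le]
              have : 1 ≤ 1 / R * s := by rw [one_div, ← div_eq_inv_mul, le_div_iff₀ hRpos]; linarith
              nlinarith
            have h3 : 0 ≤ P * (M * R) * s := by positivity
            nlinarith
        refine ⟨M * R + 1 / R, by positivity, fun r s hrs => ?_⟩
        have hsr : 0 ≤ s - r := by linarith
        rcases le_or_gt s R₀ with hs | hs
        · rw [hf_le s hs, hf_le r (hrs.trans hs), sub_self]; positivity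
        · have hs0 : 0 < s := hR0.trans_lt hs
          have h7 := hp1 s hs0
          rcases le_or_gt r R₀ with hr | hr
          · rw [hf_le r hr, if_pos h0.symm, hf_gt s hs]
            have h1 := hule s hs.le
            rw [← h0, sub_zero] at h1
            have e : u s / (P * s) - 1 / P = (u s - s) / (P * s) := by field_simp
            rw [e]
            calc (u s - s) / (P * s) ≤ (s * p s - s) / (P * s) := by gcongr
              _ = ((p s - 1) / s) * (s / P) := by field_simp
              _ ≤ (P * (M * R + 1 / R)) * (s / P) := by gcongr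
              _ = (M * R + 1 / R) * s := by field_simp
              _ ≤ (M * R + 1 / R) * (s - r) := by
                  have : r ≤ 0 := by rw [h0]; exact hr
                  have h8 : 0 ≤ M * R + 1 / R := by positivity
                  nlinarith
          · have hr0 : 0 < r := hR0.trans_lt hr
            rw [hf_gt s hs, hf_gt r hr]
            have h1 := sol_sub_le h hr.le hrs
            change u s - u r ≤ (s - r) * p s at h1
            have h2 := huge r hr.le
            rw [← h0, sub_zero] at h2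
            have e : u s / (P * s) - u r / (P * r) = (r * u s - s * u r) / (P * (r * s)) := by
              field_simp
            rw [e]
            have h3 : r * u s - s * u r ≤ (s - r) * (r * (p s - 1)) := by nlinarith
            calc (r * u s - s * u r) / (P * (r * s)) ≤ ((s - r) * (r * (p s - 1))) / (P * (r * s)) := by
                  gcongr
              _ = ((p s - 1) / s) * ((s - r) / P) := by field_simp
              _ ≤ (P * (M * R + 1 / R)) * ((s - r) / P) := by gcongr
              _ = (M * R + 1 / R) * (s - r) := by field_simp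
      · refine ⟨1 / R₀, by positivity, fun r s hrs => ?_⟩
        have hsr : 0 ≤ s - r := by linarith
        rcases le_or_gt s R₀ with hs | hs
        · rw [hf_le s hs, hf_le r (hrs.trans hs), sub_self]; positivity
        · have hs0 : 0 < s := hR0.trans_lt hs
          rcases le_or_gt r R₀ with hr | hr
          · rw [hf_le r hr, if_neg h0.ne', sub_zero, hf_gt s hs]
            have h1 := huleP s hs.le
            calc u s / (P * s) ≤ ((s - R₀) * P) / (P * s) := by gcongr
              _ = (s - R₀) / s := by field_simp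
              _ ≤ (s - R₀) / R₀ := by
                  have : 0 ≤ s - R₀ := by linarith
                  gcongr
              _ ≤ (s - r) / R₀ := by gcongr
              _ = 1 / R₀ * (s - r) := by ring
          · have hr0 : 0 < r := hR0.trans_lt hr
            rw [hf_gt s hs, hf_gt r hr]
            have h1 := sol_sub_le h hr.le hrs
            change u s - u r ≤ (s - r) * p s at h1
            have h2 := hu0 r
            have h4 := hpP s
            have e : u s / (P * s) - u r / (P * r) = (r * u s - s * u r) / (P * (r * s)) := by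
              field_simp
            rw [e]
            have h3 : r * u s - s * u r ≤ (s - r) * (r * P) := by
              have h5 : (s - r) * p s ≤ (s - r) * P := mul_le_mul_of_nonneg_left h4 hsr
              nlinarith
            calc (r * u s - s * u r) / (P * (r * s)) ≤ ((s - r) * (r * P)) / (P * (r * s)) := by
                  gcongr
              _ = (s - r) / s := by field_simp
              _ ≤ (s - r) / R₀ := by gcongr
              _ = 1 / R₀ * (s - r) := by ring
    refine ⟨L, fun r s => ?_⟩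
    rcases le_total r s with hrs | hrs
    · rw [abs_sub_comm, abs_sub_comm r s, abs_of_nonneg (sub_nonneg.2 (hf_mono hrs)),
        abs_of_nonneg (sub_nonneg.2 hrs)]
      exact hL r s hrs
    · rw [abs_of_nonneg (sub_nonneg.2 (hf_mono hrs)), abs_of_nonneg (sub_nonneg.2 hrs)]
      exact hL s r hrs
  have hQ_ge : ∀ r, R₀ ≤ r → QS W R₀ R r = q r / P := by
    intro r hr
    unfold QS
    rcases le_or_gt r 0 with h0 | h0
    · have hr0 : r = R₀ := le_antisymm (h0.trans hR0) hr
      have : R₀ = 0 := le_antisymm (hr0 ▸ h0) hR0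
      rw [if_pos (Or.inr h0), hr0, hq, qq_R₀ h, this]; simp
    · rw [if_neg (by rintro (h1 | h1) <;> linarith)]
  have hQ_nonneg : ∀ r, 0 ≤ QS W R₀ R r := by
    intro r
    rcases lt_or_ge r R₀ with hr | hr
    · unfold QS; rw [if_pos (Or.inl hr)]
    · rw [hQ_ge r hr]; exact div_nonneg (qq_nonneg h hR0 hr) hP0.le
  have hQ_le : ∀ r, QS W R₀ R r ≤ aS W R₀ R := by
    intro r
    rcases lt_or_ge r R₀ with hr | hr
    · unfold QS; rw [if_pos (Or.inl hr)]; exact ha0.le
    · rw [hQ_ge r hr]; exact div_le_div_of_nonneg_right (hqK r hr) hP0.le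
  refine ⟨hR0, hR.le, ha0, ?_, h.meas, h.nonneg, ⟨M, h.le⟩, hz, hf_nonneg, hf_le_one, hf_lip, hf_mono,
    ?_, ?_, ?_, ?_, hQ_nonneg, hQ_le, ?_, ?_, ?_, ?_, ?_⟩
  · -- a ≤ R
    unfold aS
    rw [div_le_iff₀ hP0]
    have h1 := hqdef R
    have h2 := hu0 R
    change q R ≤ R * P
    rw [h1]; linarith
  · -- core
    intro r h0 hr
    rw [hf_le r hr, if_neg h0.ne']
  · -- f ≥ 1 - a/r
    intro r hr
    rcases le_or_gt r R₀ with hr' | hr'
    · have h1 := hPru R₀ le_rfl
      rw [show u R₀ = 0 from sol_of_le h le_rfl, sub_zero] at h1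
      have h2 : R₀ ≤ aS W R₀ R := by
        unfold aS; rw [le_div_iff₀ hP0]; linarith
      have h3 : 1 ≤ aS W R₀ R / r := by rw [le_div_iff₀ hr]; linarith
      have := hf_nonneg r
      linarith
    · rw [hf_gt r hr', le_div_iff₀ (by positivity)]
      have h1 := hPru r hr'.le
      have e : (1 - aS W R₀ R / r) * (P * r) = P * r - aS W R₀ R * P := by field_simp
      rw [e, haP]; linarith
  · -- outside
    intro r hr
    have hr0 : 0 < r := hRpos.trans_le hr
    rw [hf_gt r (hR.trans_le hr), huR r hr, ← haP]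
    field_simp
  · -- derivative
    intro r hr0 hr1
    rcases lt_or_gt_of_ne hr1 with hr | hr
    · have e : QS W R₀ R r / r ^ 2 = 0 := by
        unfold QS; rw [if_pos (Or.inl hr)]; simp
      rw [e]
      refine (hasDerivAt_const r (if R₀ = 0 then 1 / P else 0)).congr_of_eventuallyEq ?_
      filter_upwards [gt_mem_nhds hr] with x hx
      exact hf_le x hx.le
    · have h1 := sol_hasDerivAt h hr
      have h2 : HasDerivAt (fun x : ℝ => P * x) P r := by simpa using (hasDerivAt_id r).const_mul P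
      have h3 := h1.div h2 (by positivity)
      have e : (dsol W R₀ r * (P * r) - sol W R₀ r * P) / (P * r) ^ 2 = QS W R₀ R r / r ^ 2 := by
        rw [hQ_ge r hr.le, hqdef r, hp, hu]
        field_simp
      rw [e] at h3
      refine h3.congr_of_eventuallyEq ?_
      filter_upwards [lt_mem_nhds hr] with x hx
      exact hf_gt x hx
  · intro r hr
    unfold QS; rw [if_pos (Or.inl hr)]
  · intro r hr
    unfold QS; rw [if_pos (Or.inr hr)]
  · -- cube
    rcases hR0.eq_or_lt with h0 | h0
    · refine ⟨M, fun r hr => ?_⟩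
      rw [hQ_ge r (by rw [← h0]; exact hr.le), div_le_iff₀ hP0]
      have h1 := qq_sub h le_rfl (by rw [← h0]; exact hr.le : R₀ ≤ r)
      rw [qq_R₀ h] at h1
      have h2 : ∫ t in R₀..r, t * (W t * sol W R₀ t) ≤ ∫ t in R₀..r, r * (M * (r * P)) := by
        refine intervalIntegral.integral_mono_on (by rw [← h0]; exact hr.le)
          ((g_int h R₀ r).continuousOn_mul continuousOn_id) intervalIntegrable_const fun t ht => ?_
        have ht0 : 0 ≤ t := by rw [h0]; exact ht.1
        refine mul_le_mul ht.2 ?_ (mul_nonneg (h.nonneg t) (hu0 t)) hr.le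
        refine mul_le_mul (h.le t) ?_ (hu0 t) hM
        refine (huleP t ht.1).trans ?_
        rw [← h0, sub_zero]
        exact mul_le_mul_of_nonneg_right ht.2 hP0.le
      rw [intervalIntegral.integral_const, smul_eq_mul] at h2
      have hR00 : R₀ = 0 := h0.symm
      have h3 : (r - R₀) * (r * (M * (r * P))) = M * r ^ 3 * P := by rw [hR00]; ring
      rw [h3] at h2
      have h6 : q r = qq W R₀ r := rfl
      rw [h6]
      linarith
    · refine ⟨aS W R₀ R / R₀ ^ 3, fun r hr => ?_⟩
      rcases lt_or_ge r R₀ with hr' | hr'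
      · unfold QS; rw [if_pos (Or.inl hr')]
        have := ha0
        positivity
      · refine (hQ_le r).trans ?_
        rw [div_mul_eq_mul_div, le_div_iff₀ (by positivity)]
        exact mul_le_mul_of_nonneg_left (pow_le_pow_left₀ h0.le hr' 3) ha0.le
  · intro r hr
    rw [hQ_ge r (hR.le.trans hr), hqR r hr]
    rfl
  · intro r s hr hrs
    rw [hQ_ge r hr, hQ_ge s (hr.trans hrs), ← sub_div, qq_sub h hr hrs,
      ← intervalIntegral.integral_div]
    refine intervalIntegral.integral_congr_ae (Eventually.of_forall fun t ht => ?_)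
    rw [uIoc_of_le hrs] at ht
    have htR : R₀ < t := hr.trans_lt ht.1
    have ht0 : 0 < t := hR0.trans_lt htR
    rw [hf_gt t htR]
    field_simp
    rfl

end Volt

end Pool.Agent.Lib.MP_4952d6_mp

end

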