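import Mathlib

/-! Merged modules (to save import time): Resample. -/

/-! ### Resample -/

section

set_option autoImplicit false
set_option linter.unusedSectionVars false
open MeasureTheory Function

namespace Pool.Agent.Lib.MP_4952d6_mp

variable {ι G : Type*} [Fintype ι] [DecidableEq ι] [MeasurableSpace G]

lemma measurable_upd (k : ι) : Measurable (fun p : (ι → G) × G => update p.1 k p.2) := by
  rw [measurable_pi_iff]
  intro i
  by_cases h : i = k
  · subst h
    simpa using measurable_snd
  · simp only [update_of_ne h]
    exact (measurable_pi_apply i).comp measurable_fst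

/-- Resampling one coordinate from the base measure preserves the product measure. -/
theorem mp_upd (μ : Measure G) [IsProbabilityMeasure μ] (k : ι) :
    MeasurePreserving (fun p : (ι → G) × G => update p.1 k p.2)
      ((Measure.pi (fun _ : ι => μ)).prod μ) (Measure.pi (fun _ : ι => μ)) := by
  refine ⟨measurable_upd k, ?_⟩
  refine (Measure.pi_eq (fun s hs => ?_)).symm
  rw [Measure.map_apply (measurable_upd k) (MeasurableSet.univ_pi hs)]
  have : (fun p : (ι → G) × G => update p.1 k p.2) ⁻¹' (Set.pi Set.univ s)
      = (Set.pi Set.univ (update s k Set.univ)) ×ˢ (s k) := by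
    ext ⟨x, y⟩
    simp only [Set.mem_preimage, Set.mem_pi, Set.mem_univ, true_imp_iff, Set.mem_prod]
    constructor
    · intro h
      refine ⟨fun i => ?_, ?_⟩
      · by_cases hi : i = k
        · subst hi; simp
        · have := h i
          simpa [update_of_ne hi] using this
      · simpa using h k
    · rintro ⟨h1, h2⟩ i
      by_cases hi : i = k
      · subst hi; simpa using h2
      · have := h1 i
        simpa [update_of_ne hi] using this
  rw [this, Measure.prod_prod, Measure.pi_pi]
  rw [← Finset.mul_prod_erase Finset.univ _ (Finset.mem_univ k),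
    ← Finset.mul_prod_erase Finset.univ (fun i => μ (s i)) (Finset.mem_univ k)]
  simp only [update_self, measure_univ, one_mul]
  rw [mul_comm]
  congr 1
  refine Finset.prod_congr rfl (fun i hi => ?_)
  rw [update_of_ne (Finset.ne_of_mem_erase hi)]

/-- Swapping the coordinate `k` of the configuration with the extra point preserves the measure. -/
theorem mp_swap (μ : Measure G) [IsProbabilityMeasure μ] (k : ι) :
    MeasurePreserving (fun p : (ι → G) × G => ((update p.1 k p.2, p.1 k) : (ι → G) × G))
      ((Measure.pi (fun _ : ι => μ)).prod μ) ((Measure.pi (fun _ : ι => μ)).prod μ) := by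
  have hm : Measurable (fun p : (ι → G) × G => ((update p.1 k p.2, p.1 k) : (ι → G) × G)) :=
    (measurable_upd k).prodMk ((measurable_pi_apply k).comp measurable_fst)
  refine ⟨hm, ?_⟩
  symm
  refine Measure.prod_eq_generateFrom (μ := Measure.pi (fun _ : ι => μ)) (ν := μ)
    (C := Set.pi Set.univ '' Set.pi Set.univ fun _ : ι => { s : Set G | MeasurableSet s })
    (D := { s : Set G | MeasurableSet s }) generateFrom_pi
    MeasurableSpace.generateFrom_measurableSet isPiSystem_pi
    MeasurableSpace.isPiSystem_measurableSet ?_ ?_ ?_
  · refine ⟨fun _ => Set.univ, ?_, ?_, ?_⟩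
    · intro _
      exact ⟨fun _ => Set.univ, by simp, by simp⟩
    · intro _; exact measure_lt_top _ _
    · exact Set.iUnion_const _
  · exact ⟨fun _ => Set.univ, fun _ => MeasurableSet.univ, fun _ => measure_lt_top _ _,
      Set.iUnion_const _⟩
  · rintro _ ⟨s, hs, rfl⟩ t ht
    simp only [Set.mem_pi, Set.mem_univ, true_imp_iff] at hs
    have hs' : ∀ i, MeasurableSet (s i) := fun i => hs i
    have ht' : MeasurableSet t := ht
    rw [Measure.map_apply hm ((MeasurableSet.univ_pi hs').prod ht')]
    have : (fun p : (ι → G) × G => ((update p.1 k p.2, p.1 k) : (ι → G) × G)) ⁻¹'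
        ((Set.pi Set.univ s) ×ˢ t) = (Set.pi Set.univ (update s k t)) ×ˢ (s k) := by
      ext ⟨x, y⟩
      simp only [Set.mem_preimage, Set.mem_pi, Set.mem_univ, true_imp_iff, Set.mem_prod]
      constructor
      · rintro ⟨h, h'⟩
        refine ⟨fun i => ?_, ?_⟩
        · by_cases hi : i = k
          · subst hi; simpa using h'
          · have := h i
            simpa [update_of_ne hi] using this
        · simpa using h k
      · rintro ⟨h1, h2⟩
        refine ⟨fun i => ?_, by simpa using h1 k⟩
        by_cases hi : i = k
        · subst hi; simpa using h2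
        · have := h1 i
          simpa [update_of_ne hi] using this
    rw [this, Measure.prod_prod, Measure.pi_pi, Measure.pi_pi]
    rw [← Finset.mul_prod_erase Finset.univ _ (Finset.mem_univ k),
      ← Finset.mul_prod_erase Finset.univ (fun i => μ (s i)) (Finset.mem_univ k)]
    simp only [update_self]
    have : ∏ i ∈ Finset.univ.erase k, μ (update s k t i) = ∏ i ∈ Finset.univ.erase k, μ (s i) := by
      refine Finset.prod_congr rfl (fun i hi => ?_)
      rw [update_of_ne (Finset.ne_of_mem_erase hi)]
    rw [this]; ring

end Pool.Agent.Lib.MP_4952d6_mp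

end

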