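import Pool.Agent.Lib.MP_4952d6_mp.Pk.G14
import Pool.Agent.Lib.MP_4952d6_mp.Pk.G17
import Pool.Agent.Lib.MP_4952d6_mp.Pk.G18
import Pool.Agent.Lib.MP_4952d6_mp.Pk.G21
import Pool.Agent.Lib.MP_4952d6_mp.Pk.G22
import Pool.Agent.Lib.MP_4952d6_mp.Pk.G24

/-! Merged modules (to save import time): U.U8C, U.U8D, Upper, U.TJC. -/

/-! ### U.U8C -/

section

/-!
# U8C: the limit `q → 0`

`α = alq q → 1`, `β = q^242 → 0`, `X → x_κ(r)` pointwise (`Lh κ β z → Lh κ 0 z`, dominated; `8π Lh κ 0 (r²) = x_κ(r)` by `Lh_zero`), so the integrand of `Phq`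
tends pointwise to the integrand of `Phk` (`e → 1`; `r² h → 16π r² x/(1+x) - r⁴ x²/(1+x)`). Domination for `r ≥ 1`: write `e = exp(-β r²)`,
`X = 8πα e/r² + E`, `|E| ≤ C e (r^{-4} + β r^{-2})` (from `exp(-β(r²+τ))/(r²+τ) = (e/r²)(1 + O(β + r^{-2}))`). Then
`64π²α² e - r²·8πα(1+e) X + r⁴X² + [r²·8πα(1+e) - r⁴ X] X²/(1+X)`
`= 64π²α²(e - (1+e)e + e²) + O(r²|E| ...) = O(e (r^{-2} + β))`, using `X/(1+X) = X - X²/(1+X)`, `X²/(1+X) = X² - X³/(1+X)`, `0 ≤ X ≤ 16π e/r²`,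
`|r⁴ X³| ≤ C e r^{-2}`. Now `β e = β exp(-β r²)`: `∫_1^∞ β exp(-β r²) dr = O(√β) → 0`, so it is not dominated by a fixed integrable function; split it off:
`|integrand| ≤ C r^{-2} + C β exp(-βr²)`, and use the generalised dominated convergence (or: `β exp(-β r²) ≤ r^{-2}`, since `y e^{-y} ≤ 1` with `y = β r²`!
so it IS dominated: `β exp(-βr²) ≤ 1/(e r²)`). For `r ≤ 1`: everything bounded (`X ≤ C(κ)`).
-/

set_option autoImplicit false
set_option linter.unusedSectionVars false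
set_option linter.unusedVariables false
open MeasureTheory Function Filter Topology Set
open scoped ENNReal

namespace Pool.Agent.Lib.MP_4952d6_mp

private theorem U8C_small : ∀ᶠ q : ℝ in 𝓝[>] 0, 0 < q ∧ q ≤ 1 / 100 := by
  have h1 : ∀ᶠ q : ℝ in 𝓝[>] 0, q < 1 / 100 :=
    nhdsWithin_le_nhds (gt_mem_nhds (by norm_num))
  filter_upwards [h1, self_mem_nhdsWithin] with q hq1 hq0
  exact ⟨hq0, hq1.le⟩

private theorem U8C_pow (n : ℕ) (hn : n ≠ 0) : Tendsto (fun q : ℝ => q ^ n) (𝓝[>] 0) (𝓝 0) := by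
  have h3 : Tendsto (fun q : ℝ => q ^ n) (𝓝 0) (𝓝 (0 ^ n)) := (continuous_pow n).tendsto 0
  rw [zero_pow hn] at h3
  exact h3.mono_left nhdsWithin_le_nhds

theorem alq_tendsto : Tendsto alq (𝓝[>] 0) (𝓝 1) := by
  obtain ⟨C, hC, h⟩ := alq_le
  have h1 : Tendsto (fun q : ℝ => 1 + q ^ 80 + q ^ 160 + C * q ^ 240) (𝓝[>] 0) (𝓝 1) := by
    have h2 := ((((tendsto_const_nhds (x := (1:ℝ))).add (U8C_pow 80 (by norm_num))).add
      (U8C_pow 160 (by norm_num))).add ((U8C_pow 240 (by norm_num)).const_mul C))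
    simpa using h2
  refine tendsto_of_tendsto_of_tendsto_of_le_of_le' tendsto_const_nhds h1 ?_ ?_
  · filter_upwards [U8C_small] with q hq
    exact one_le_alq hq.1 hq.2
  · filter_upwards [U8C_small] with q hq
    exact h q hq.1 hq.2

private theorem U8C_tau_pos {κ z φ : ℝ} (hκ : 0 < κ) (hz : 0 ≤ z) : 0 < z + tauv κ φ := by
  unfold tauv
  positivity

private theorem U8C_Lh_cont {κ β : ℝ} (hκ : 0 < κ) : Continuous (fun r : ℝ => Lh κ β (r ^ 2)) := by
  unfold Lh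
  have htc : Continuous (fun p : ℝ × ℝ => tauv κ p.2) := by
    unfold tauv
    fun_prop
  have hsum : Continuous (fun p : ℝ × ℝ => p.1 ^ 2 + tauv κ p.2) :=
    (continuous_fst.pow 2).add htc
  have hc : Continuous (Function.uncurry (fun r φ : ℝ => 4 / Real.pi * Real.sin φ ^ 2
      * (Real.exp (-(β * (r ^ 2 + tauv κ φ))) / (r ^ 2 + tauv κ φ)))) := by
    refine Continuous.mul (by fun_prop) (Continuous.div ?_ hsum
      (fun p => (U8C_tau_pos hκ (sq_nonneg p.1)).ne'))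
    exact Real.continuous_exp.comp (continuous_const.mul hsum).neg
  exact intervalIntegral.continuous_parametric_intervalIntegral_of_continuous' hc 0 (Real.pi / 2)

private theorem U8C_Lh_cont2 {κ z : ℝ} (hκ : 0 < κ) (hz : 0 ≤ z) :
    Continuous (fun β : ℝ => Lh κ β z) := by
  unfold Lh
  have htc : Continuous (fun p : ℝ × ℝ => tauv κ p.2) := by
    unfold tauv
    fun_prop
  have hsum : Continuous (fun p : ℝ × ℝ => z + tauv κ p.2) := continuous_const.add htc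
  have hc : Continuous (Function.uncurry (fun β φ : ℝ => 4 / Real.pi * Real.sin φ ^ 2
      * (Real.exp (-(β * (z + tauv κ φ))) / (z + tauv κ φ)))) := by
    refine Continuous.mul (by fun_prop) (Continuous.div ?_ hsum
      (fun p => (U8C_tau_pos hκ hz).ne'))
    exact Real.continuous_exp.comp (continuous_fst.mul hsum).neg
  exact intervalIntegral.continuous_parametric_intervalIntegral_of_continuous' hc 0 (Real.pi / 2)

private theorem U8C_X_nonneg {κ q : ℝ} (hκ : 0 < κ) (hq : 0 < q) (hq1 : q ≤ 1 / 100) (r : ℝ) :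
    0 ≤ Xs κ q r := by
  unfold Xs
  have h1 := one_le_alq hq hq1
  have h2 : 0 ≤ Lh κ (q ^ 242) (r ^ 2) := Lh_nonneg hκ (sq_nonneg r)
  have h3 := Real.pi_pos
  positivity

private theorem U8C_hs_cont {κ q : ℝ} (hκ : 0 < κ) (hq : 0 < q) (hq1 : q ≤ 1 / 100) :
    Continuous (hs κ q) := by
  have hX : Continuous (Xs κ q) := by
    unfold Xs
    exact continuous_const.mul (U8C_Lh_cont hκ)
  have h1 : ∀ r, 1 + Xs κ q r ≠ 0 := fun r => by
    have := U8C_X_nonneg hκ hq hq1 r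
    positivity
  unfold hs
  refine Continuous.sub (Continuous.mul (by fun_prop) ?_) (Continuous.mul (by fun_prop) ?_)
  · exact hX.div (continuous_const.add hX) h1
  · exact (hX.pow 2).div (continuous_const.add hX) h1

/-- algebraic form of the integrand -/
private theorem U8C_alg (m e X z : ℝ) (hX : 0 ≤ X) :
    m ^ 2 * e - z * (m * (1 + e) * (X / (1 + X)) - z * (X ^ 2 / (1 + X)))
      = (z * X - m) * (z * X - m * e) + (m * (1 + e) * (z * X ^ 2) - z ^ 2 * X ^ 3) / (1 + X) := by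
  have h : 0 < 1 + X := by linarith
  field_simp
  ring

private theorem U8C_bd (m e X z K β : ℝ) (hm : 0 ≤ m) (he0 : 0 < e) (he1 : e ≤ 1) (hX : 0 ≤ X)
    (hz : 0 < z) (hK : 0 ≤ K) (hβ : 0 ≤ β) (hYle : z * X ≤ m * e)
    (hYge : m * e - z * X ≤ m * e * (K * (β + 1 / z))) (hβe : β * e ≤ 1 / z) :
    |m ^ 2 * e - z * (m * (1 + e) * (X / (1 + X)) - z * (X ^ 2 / (1 + X)))| * (1 + z)
      ≤ 4 * m ^ 2 + (2 * m ^ 2 * K + 3 * m ^ 3) := by
  rw [U8C_alg m e X z hX]
  have hd : 0 < 1 + X := by linarith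
  have hd1 : 1 ≤ 1 + X := by linarith
  have hY0 : 0 ≤ z * X := by positivity
  have hme : m * e ≤ m := mul_le_of_le_one_right hm he1
  have hYm : z * X ≤ m := hYle.trans hme
  have hf1 : |z * X - m| ≤ m := by rw [abs_le]; constructor <;> linarith
  have hf2 : |z * X - m * e| ≤ m := by
    rw [abs_le]
    constructor
    · linarith only [hY0, hme]
    · linarith only [hYle, hm]
  -- the quotient
  have hA0 : 0 ≤ m * (1 + e) * (z * X ^ 2) / (1 + X) := by positivity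
  have hB0 : 0 ≤ z ^ 2 * X ^ 3 / (1 + X) := by positivity
  have hA1 : m * (1 + e) * (z * X ^ 2) / (1 + X) ≤ 2 * m ^ 2 := by
    rw [div_le_iff₀ hd]
    have h1 : m * (1 + e) * (z * X ^ 2) ≤ m * 2 * (z * X * X) := by
      have h2 : z * X ^ 2 = z * X * X := by ring
      rw [h2]
      have h3 : 0 ≤ z * X * X := by positivity
      have h4 : m * (1 + e) ≤ m * 2 := mul_le_mul_of_nonneg_left (by linarith only [he1]) hm
      exact mul_le_mul_of_nonneg_right h4 h3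
    have h5 : m * 2 * (z * X * X) ≤ m * 2 * (m * X) := by
      have h6 : z * X * X ≤ m * X := mul_le_mul_of_nonneg_right hYm hX
      exact mul_le_mul_of_nonneg_left h6 (by positivity)
    have h7 := sq_nonneg m
    linarith only [h1, h5, h7]
  have hB1 : z ^ 2 * X ^ 3 / (1 + X) ≤ m ^ 2 := by
    rw [div_le_iff₀ hd]
    have h1 : z ^ 2 * X ^ 3 = (z * X) ^ 2 * X := by ring
    rw [h1]
    have h2 : (z * X) ^ 2 ≤ m ^ 2 := by gcongr
    have h3 : (z * X) ^ 2 * X ≤ m ^ 2 * X := mul_le_mul_of_nonneg_right h2 hX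
    have h7 := sq_nonneg m
    linarith only [h3, h7]
  have hzA : z * (m * (1 + e) * (z * X ^ 2) / (1 + X)) ≤ 2 * m ^ 3 := by
    have h1 : z * (m * (1 + e) * (z * X ^ 2) / (1 + X)) = m * (1 + e) * (z * X) ^ 2 / (1 + X) := by
      ring
    rw [h1]
    have h2 : m * (1 + e) * (z * X) ^ 2 ≤ m * 2 * m ^ 2 := by
      have h3 : (z * X) ^ 2 ≤ m ^ 2 := by gcongr
      have h4 : m * (1 + e) ≤ m * 2 := mul_le_mul_of_nonneg_left (by linarith only [he1]) hm
      exact mul_le_mul h4 h3 (by positivity) (by positivity)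
    calc m * (1 + e) * (z * X) ^ 2 / (1 + X) ≤ m * (1 + e) * (z * X) ^ 2 :=
          div_le_self (by positivity) hd1
      _ ≤ m * 2 * m ^ 2 := h2
      _ = 2 * m ^ 3 := by ring
  have hzB : z * (z ^ 2 * X ^ 3 / (1 + X)) ≤ m ^ 3 := by
    have h1 : z * (z ^ 2 * X ^ 3 / (1 + X)) = (z * X) ^ 3 / (1 + X) := by ring
    rw [h1]
    have h2 : (z * X) ^ 3 ≤ m ^ 3 := by gcongr
    exact (div_le_self (by positivity) hd1).trans h2
  have hzf2 : z * |z * X - m * e| ≤ 2 * m * K := by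
    have h1 : |z * X - m * e| = m * e - z * X := by
      rw [abs_of_nonpos (by linarith)]
      ring
    rw [h1]
    have h2 : z * (m * e - z * X) ≤ z * (m * e * (K * (β + 1 / z))) :=
      mul_le_mul_of_nonneg_left hYge hz.le
    have h3 : z * (m * e * (K * (β + 1 / z))) = m * K * (z * (β * e) + e) := by
      field_simp
    have h4 : z * (β * e) ≤ 1 := by
      calc z * (β * e) ≤ z * (1 / z) := mul_le_mul_of_nonneg_left hβe hz.le
        _ = 1 := by field_simp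
    have h5 : m * K * (z * (β * e) + e) ≤ m * K * (1 + 1) := by gcongr
    linarith
  have hP1 : |(z * X - m) * (z * X - m * e)| ≤ m ^ 2 := by
    rw [abs_mul, sq]
    gcongr
  have hP2 : z * |(z * X - m) * (z * X - m * e)| ≤ 2 * m ^ 2 * K := by
    rw [abs_mul]
    calc z * (|z * X - m| * |z * X - m * e|) = |z * X - m| * (z * |z * X - m * e|) := by ring
      _ ≤ m * (2 * m * K) := by
          apply mul_le_mul hf1 hzf2 (by positivity) hm
      _ = 2 * m ^ 2 * K := by ring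
  have hsplit : (m * (1 + e) * (z * X ^ 2) - z ^ 2 * X ^ 3) / (1 + X)
      = m * (1 + e) * (z * X ^ 2) / (1 + X) - z ^ 2 * X ^ 3 / (1 + X) := sub_div _ _ _
  rw [hsplit]
  set P := (z * X - m) * (z * X - m * e) with hP
  set A := m * (1 + e) * (z * X ^ 2) / (1 + X) with hA
  set B := z ^ 2 * X ^ 3 / (1 + X) with hB
  have habs : |P + (A - B)| ≤ |P| + A + B := by
    have h1 := abs_add_le P (A - B)
    have h2 : |A - B| ≤ A + B := by
      rw [abs_le]
      constructor <;> linarith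
    linarith
  have h1z : 0 ≤ 1 + z := by linarith
  calc |P + (A - B)| * (1 + z) ≤ (|P| + A + B) * (1 + z) := mul_le_mul_of_nonneg_right habs h1z
    _ = (|P| + A + B) + (z * |P| + z * A + z * B) := by ring
    _ ≤ 4 * m ^ 2 + (2 * m ^ 2 * K + 3 * m ^ 3) := by linarith

private theorem U8C_hs_eq (κ q r : ℝ) :
    64 * Real.pi ^ 2 * alq q ^ 2 * Real.exp (-(q ^ 242 * r ^ 2)) - r ^ 2 * hs κ q r
      = (8 * Real.pi * alq q) ^ 2 * Real.exp (-(q ^ 242 * r ^ 2))
        - r ^ 2 * (8 * Real.pi * alq q * (1 + Real.exp (-(q ^ 242 * r ^ 2)))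
          * (Xs κ q r / (1 + Xs κ q r)) - r ^ 2 * (Xs κ q r ^ 2 / (1 + Xs κ q r))) := by
  unfold hs
  ring

private theorem U8C_dom {κ q : ℝ} (hκ : 0 < κ) (hq : 0 < q) (hq1 : q ≤ 1 / 100) (r : ℝ)
    (hr : 0 < r) :
    |64 * Real.pi ^ 2 * alq q ^ 2 * Real.exp (-(q ^ 242 * r ^ 2)) - r ^ 2 * hs κ q r| * (1 + r ^ 2)
      ≤ 4 * (16 * Real.pi) ^ 2 + (2 * (16 * Real.pi) ^ 2 * K2 κ + 3 * (16 * Real.pi) ^ 3) := by
  rw [U8C_hs_eq]
  have hpi := Real.pi_pos
  have hα1 := one_le_alq hq hq1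
  have hα2 := alq_le_two hq hq1
  have hm0 : 0 ≤ 8 * Real.pi * alq q := by positivity
  have hm1 : 8 * Real.pi * alq q ≤ 16 * Real.pi := by
    have h1 := mul_le_mul_of_nonneg_left hα2 hpi.le
    linarith only [h1]
  have hz : 0 < r ^ 2 := by positivity
  have hK : 0 ≤ K2 κ := by unfold K2; positivity
  have hβ : 0 ≤ q ^ 242 := by positivity
  have hLle : Lh κ (q ^ 242) (r ^ 2) ≤ Real.exp (-(q ^ 242 * r ^ 2)) / (r ^ 2 + κ ^ 2) :=
    Lh_le hκ hβ hz.le
  have hLge : Real.exp (-(q ^ 242 * (r ^ 2 + K2 κ))) / (r ^ 2 + K2 κ) ≤ Lh κ (q ^ 242) (r ^ 2) :=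
    Lh_ge hκ hβ hz.le
  have hX0 := U8C_X_nonneg hκ hq hq1 r
  have hXdef : Xs κ q r = 8 * Real.pi * alq q * Lh κ (q ^ 242) (r ^ 2) := rfl
  generalize hβd : q ^ 242 = β at *
  generalize hzd : r ^ 2 = z at *
  generalize hmd : 8 * Real.pi * alq q = m at *
  generalize hXd : Xs κ q r = X at *
  generalize hKd : K2 κ = K at *
  generalize hLd : Lh κ β z = L at *
  have he0 : 0 < Real.exp (-(β * z)) := Real.exp_pos _
  have he1 : Real.exp (-(β * z)) ≤ 1 := by
    rw [Real.exp_le_one_iff]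
    have : 0 ≤ β * z := mul_nonneg hβ hz.le
    linarith
  have hYle : z * X ≤ m * Real.exp (-(β * z)) := by
    rw [hXdef]
    have h1 : z * L ≤ Real.exp (-(β * z)) := by
      calc z * L ≤ z * (Real.exp (-(β * z)) / (z + κ ^ 2)) := mul_le_mul_of_nonneg_left hLle hz.le
        _ = Real.exp (-(β * z)) * (z / (z + κ ^ 2)) := by ring
        _ ≤ Real.exp (-(β * z)) * 1 := by
            apply mul_le_mul_of_nonneg_left _ he0.le
            rw [div_le_one (by positivity)]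
            exact le_add_of_nonneg_right (sq_nonneg κ)
        _ = _ := mul_one _
    calc z * (m * L) = m * (z * L) := by ring
      _ ≤ m * Real.exp (-(β * z)) := mul_le_mul_of_nonneg_left h1 hm0
  have hYge : m * Real.exp (-(β * z)) - z * X
      ≤ m * Real.exp (-(β * z)) * (K * (β + 1 / z)) := by
    rw [hXdef]
    have h1 : Real.exp (-(β * (z + K))) = Real.exp (-(β * z)) * Real.exp (-(β * K)) := by
      rw [← Real.exp_add]
      congr 1
      ring
    have h2 : 1 - β * K ≤ Real.exp (-(β * K)) := by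
      have := Real.add_one_le_exp (-(β * K))
      linarith
    have h3 : Real.exp (-(β * K)) ≤ 1 := by
      rw [Real.exp_le_one_iff]
      have : 0 ≤ β * K := mul_nonneg hβ hK
      linarith
    -- `1 - exp(-βK) z/(z+K) ≤ K (β + 1/z)`
    have h4 : 1 - K * (β + 1 / z) ≤ Real.exp (-(β * K)) * (z / (z + K)) := by
      have h5 : z / (z + K) = 1 - K / (z + K) := by
        field_simp
        ring
      have h6 : K / (z + K) ≤ K * (1 / z) := by
        rw [mul_one_div]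
        gcongr
        linarith
      have h7 : 0 ≤ K / (z + K) := by positivity
      rw [h5]
      have h8 : Real.exp (-(β * K)) * (K / (z + K)) ≤ 1 * (K / (z + K)) :=
        mul_le_mul_of_nonneg_right h3 h7
      linarith only [h2, h6, h8]
    have h9 : Real.exp (-(β * z)) * (Real.exp (-(β * K)) * (z / (z + K))) ≤ z * L := by
      calc Real.exp (-(β * z)) * (Real.exp (-(β * K)) * (z / (z + K)))
          = z * (Real.exp (-(β * (z + K))) / (z + K)) := by
            rw [h1]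
            ring
        _ ≤ z * L := mul_le_mul_of_nonneg_left hLge hz.le
    have h10 : Real.exp (-(β * z)) * (1 - K * (β + 1 / z))
        ≤ Real.exp (-(β * z)) * (Real.exp (-(β * K)) * (z / (z + K))) :=
      mul_le_mul_of_nonneg_left h4 he0.le
    have h11 : m * (Real.exp (-(β * z)) * (1 - K * (β + 1 / z))) ≤ m * (z * L) :=
      mul_le_mul_of_nonneg_left (h10.trans h9) hm0
    linarith only [h11]
  have hβe : β * Real.exp (-(β * z)) ≤ 1 / z := by
    rw [le_div_iff₀ hz, Real.exp_neg]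
    have h1 : β * z ≤ Real.exp (β * z) := by
      have := Real.add_one_le_exp (β * z)
      linarith
    have h2 : 0 < Real.exp (β * z) := Real.exp_pos _
    calc β * (Real.exp (β * z))⁻¹ * z = (β * z) / Real.exp (β * z) := by
          rw [div_eq_mul_inv]
          ring
      _ ≤ 1 := (div_le_one h2).2 h1
  refine (U8C_bd m (Real.exp (-(β * z))) X z K β hm0 he0 he1 hX0 hz hK hβ hYle hYge hβe).trans ?_
  gcongr

theorem limit_q {κ : ℝ} (hκ : 0 < κ) : Tendsto (fun q : ℝ => Phq κ q) (𝓝[>] 0) (𝓝 (Phk κ)) := by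
  unfold Phq Phk
  refine Tendsto.const_mul _ ?_
  set C : ℝ := 4 * (16 * Real.pi) ^ 2 + (2 * (16 * Real.pi) ^ 2 * K2 κ + 3 * (16 * Real.pi) ^ 3)
    with hC
  refine tendsto_integral_filter_of_dominated_convergence (fun r => C * (1 + r ^ 2)⁻¹) ?_ ?_ ?_ ?_
  · filter_upwards [U8C_small] with q hq
    refine Continuous.aestronglyMeasurable ?_
    exact (by fun_prop : Continuous fun r : ℝ => 64 * Real.pi ^ 2 * alq q ^ 2
      * Real.exp (-(q ^ 242 * r ^ 2))).sub ((continuous_pow 2).mul (U8C_hs_cont hκ hq.1 hq.2))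
  · filter_upwards [U8C_small] with q hq
    filter_upwards [ae_restrict_mem measurableSet_Ioi] with r hr
    have hr0 : 0 < r := hr
    rw [Real.norm_eq_abs, ← div_eq_mul_inv, le_div_iff₀ (by positivity)]
    exact U8C_dom hκ hq.1 hq.2 r hr0
  · exact (integrable_inv_one_add_sq.const_mul C).restrict
  · filter_upwards [ae_restrict_mem measurableSet_Ioi] with r hr
    have hr0 : 0 < r := hr
    have hpi := Real.pi_pos
    have hβ : Tendsto (fun q : ℝ => q ^ 242) (𝓝[>] 0) (𝓝 0) := U8C_pow 242 (by norm_num)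
    have he : Tendsto (fun q : ℝ => Real.exp (-(q ^ 242 * r ^ 2))) (𝓝[>] 0) (𝓝 1) := by
      have h1 := (Real.continuous_exp.tendsto _).comp (hβ.mul_const (r ^ 2)).neg
      simpa [Function.comp_def] using h1
    have hL : Tendsto (fun q : ℝ => Lh κ (q ^ 242) (r ^ 2)) (𝓝[>] 0) (𝓝 (Lh κ 0 (r ^ 2))) :=
      ((U8C_Lh_cont2 hκ (sq_nonneg r)).tendsto 0).comp hβ
    have hx0 : 8 * Real.pi * 1 * Lh κ 0 (r ^ 2) = xk κ r := by
      rw [Lh_zero hκ (sq_nonneg r)]
      unfold xk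
      field_simp
    have hX : Tendsto (fun q : ℝ => Xs κ q r) (𝓝[>] 0) (𝓝 (xk κ r)) := by
      unfold Xs
      rw [← hx0]
      exact (alq_tendsto.const_mul _).mul hL
    have hxpos : 0 ≤ xk κ r := by
      unfold xk
      have h1 : 1 ≤ Real.sqrt (1 + 16 * Real.pi / (r ^ 2 + κ ^ 2)) := by
        rw [Real.one_le_sqrt]
        have : 0 ≤ 16 * Real.pi / (r ^ 2 + κ ^ 2) := by positivity
        linarith
      linarith
    have hne : 1 + xk κ r ≠ 0 := by positivity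
    have h1X := (tendsto_const_nhds (x := (1:ℝ))).add hX
    have hq1 := hX.div h1X hne
    have hq2 := (hX.pow 2).div h1X hne
    have hhs : Tendsto (fun q : ℝ => hs κ q r) (𝓝[>] 0)
        (𝓝 (8 * Real.pi * 1 * (1 + 1) * (xk κ r / (1 + xk κ r))
          - r ^ 2 * (xk κ r ^ 2 / (1 + xk κ r)))) := by
      unfold hs
      exact (((alq_tendsto.const_mul _).mul ((tendsto_const_nhds (x := (1:ℝ))).add he)).mul hq1).sub
        (hq2.const_mul _)
    have hfin := (((alq_tendsto.pow 2).const_mul (64 * Real.pi ^ 2)).mul he).sub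
      (hhs.const_mul (r ^ 2))
    refine (hfin.congr' (Eventually.of_forall fun q => rfl)).trans_eq ?_
    congr 1
    ring

end Pool.Agent.Lib.MP_4952d6_mp

end

/-! ### U.U8D -/

section

/-!
# U8D: the limit `κ → 0`

`x_B(r) = √(1 + 16π/r²) - 1` (`= xk 0 r`), `x_κ(r) = x_B(√(r²+κ²))`. `S = 1/(1+x)`, `S_B = 1/(1+x_B)`. Pointwise for `r > 0`:
(a) `64π² - 16π r² x_B/(1+x_B) + r⁴ x_B²/(1+x_B) = 2 r² [√(r⁴+16π r²) - r² - 8π + 32π²/r²]` (put `w = 1 + x_B = √(1+16π/r²)`, `√(r⁴+16πr²) = r² w`, `w² = 1 + 16π/r²`);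
(b) `-16π r² x/(1+x) + r⁴ x²/(1+x)` at `x_κ` minus the same at `x_B` equals `(r⁴/S)(1 - S/S_B)² = r⁴ S (x - x_B)²` (because `x_B` minimises: `r² x_B (2 + x_B) = 16π`),
and `0 ≤ r⁴ S (x_κ - x_B)² ≤ r⁴ (x_κ - x_B)²`. Dominated: `0 ≤ x_κ ≤ x_B`; `r⁴ x_B² ≤ r⁴ · 16π/r² = 16π r²` for `r ≤ 1` (`√(1+y) - 1 ≤ √y`), and for `r ≥ 1`:
`0 ≤ x_B - x_κ ≤ 8π (1/r² - 1/(r²+κ²)) ≤ 8π κ²/r⁴ ≤ 8π/r⁴` (`√(1+y) - √(1+y') ≤ (y - y')/2`), so `r⁴ (x_κ - x_B)² ≤ 64π² r^{-4}`. Hence `Phk κ → (1/8π²) ∫ 2 r² jInt 0 r dr = Jf 0`.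
Here `J0` is written out (it is `Jf 0` of stream L: `Jf 0 = 1/(4π²) ∫ r² (√((r²+0)²+16π(r²+0)) - (r²+0) - 8π + 32π²/r²) dr`).
Integrability of `r² jInt`: bounded near `0`, `O(r^{-2})` at infinity.
-/

set_option autoImplicit false
set_option linter.unusedSectionVars false
set_option linter.unusedVariables false
open MeasureTheory Function Filter Topology Set
open scoped ENNReal

namespace Pool.Agent.Lib.MP_4952d6_mp

/-- `J(0)` -/
noncomputable def J0 : ℝ := 1 / (4 * Real.pi ^ 2) * ∫ r in Ioi (0:ℝ), r ^ 2 *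
  (Real.sqrt (r ^ 4 + 16 * Real.pi * r ^ 2) - r ^ 2 - 8 * Real.pi + 32 * Real.pi ^ 2 / r ^ 2)

private theorem U8D_sqrt_ub (y : ℝ) (hy : 0 ≤ y) :
    Real.sqrt (1 + y) ≤ 1 + y / 2 - y ^ 2 / 8 + y ^ 3 / 16 := by
  rw [Real.sqrt_le_iff]
  constructor
  · have h1 : 0 ≤ y * ((y - 1) ^ 2 / 16 + 7 / 16) := by positivity
    nlinarith [h1]
  · have h1 : 0 ≤ y ^ 4 * ((y - 2) ^ 2 / 256 + 16 / 256) := by positivity
    nlinarith [h1]

private theorem U8D_sqrt_ub1 (y : ℝ) (hy : 0 ≤ y) : Real.sqrt (1 + y) ≤ 1 + y / 2 := by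
  rw [Real.sqrt_le_iff]
  constructor
  · positivity
  · nlinarith [sq_nonneg y]

private theorem U8D_sqrt_lb (y : ℝ) (hy : 0 ≤ y) :
    1 + y / 2 - y ^ 2 / 8 ≤ Real.sqrt (1 + y) := by
  by_cases h : 1 + y / 2 - y ^ 2 / 8 ≤ 0
  · exact h.trans (Real.sqrt_nonneg _)
  · push Not at h
    rw [Real.le_sqrt' h]
    have h8 : y ≤ 8 := by
      by_contra h8
      push Not at h8
      nlinarith [h8]
    have h1 : 0 ≤ y ^ 3 * (8 - y) := mul_nonneg (by positivity) (by linarith)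
    nlinarith [h1]

/-- the Bogoliubov part -/
private noncomputable def U8D_G (r : ℝ) : ℝ :=
  2 * (r ^ 2 * (Real.sqrt (r ^ 4 + 16 * Real.pi * r ^ 2) - r ^ 2 - 8 * Real.pi
    + 32 * Real.pi ^ 2 / r ^ 2))

private theorem U8D_sqrt_eq (r : ℝ) (hr : 0 < r) :
    Real.sqrt (r ^ 4 + 16 * Real.pi * r ^ 2) = r ^ 2 * Real.sqrt (1 + 16 * Real.pi / r ^ 2) := by
  have h1 : r ^ 4 + 16 * Real.pi * r ^ 2 = (r ^ 2) ^ 2 * (1 + 16 * Real.pi / r ^ 2) := by
    field_simp
  rw [h1, Real.sqrt_mul (by positivity), Real.sqrt_sq (by positivity)]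

private theorem U8D_G_eq (r : ℝ) (hr : 0 < r) :
    U8D_G r = 2 * r ^ 4 * Real.sqrt (1 + 16 * Real.pi / r ^ 2) - 2 * r ^ 4
      - 16 * Real.pi * r ^ 2 + 64 * Real.pi ^ 2 := by
  rw [U8D_G, U8D_sqrt_eq r hr]
  field_simp
  ring

private theorem U8D_G_nonneg (r : ℝ) (hr : 0 < r) : 0 ≤ U8D_G r := by
  have h := U8D_sqrt_lb (16 * Real.pi / r ^ 2) (by positivity)
  rw [U8D_G_eq r hr]
  have h1 : 2 * r ^ 4 * (1 + (16 * Real.pi / r ^ 2) / 2 - (16 * Real.pi / r ^ 2) ^ 2 / 8)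
      ≤ 2 * r ^ 4 * Real.sqrt (1 + 16 * Real.pi / r ^ 2) :=
    mul_le_mul_of_nonneg_left h (by positivity)
  have h2 : 2 * r ^ 4 * (1 + (16 * Real.pi / r ^ 2) / 2 - (16 * Real.pi / r ^ 2) ^ 2 / 8)
      = 2 * r ^ 4 + 16 * Real.pi * r ^ 2 - 64 * Real.pi ^ 2 := by
    field_simp
    ring
  linarith

private theorem U8D_G_le (r : ℝ) (hr : 0 < r) :
    U8D_G r * (1 + r ^ 2) ≤ 64 * Real.pi ^ 2 + 512 * Real.pi ^ 3 := by
  have ha : U8D_G r ≤ 64 * Real.pi ^ 2 := by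
    have h := U8D_sqrt_ub1 (16 * Real.pi / r ^ 2) (by positivity)
    rw [U8D_G_eq r hr]
    have h1 : 2 * r ^ 4 * Real.sqrt (1 + 16 * Real.pi / r ^ 2)
        ≤ 2 * r ^ 4 * (1 + (16 * Real.pi / r ^ 2) / 2) :=
      mul_le_mul_of_nonneg_left h (by positivity)
    have h2 : 2 * r ^ 4 * (1 + (16 * Real.pi / r ^ 2) / 2)
        = 2 * r ^ 4 + 16 * Real.pi * r ^ 2 := by
      field_simp
    linarith
  have hb : U8D_G r * r ^ 2 ≤ 512 * Real.pi ^ 3 := by
    have h := U8D_sqrt_ub (16 * Real.pi / r ^ 2) (by positivity)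
    rw [U8D_G_eq r hr]
    have h1 : 2 * r ^ 6 * Real.sqrt (1 + 16 * Real.pi / r ^ 2)
        ≤ 2 * r ^ 6 * (1 + (16 * Real.pi / r ^ 2) / 2 - (16 * Real.pi / r ^ 2) ^ 2 / 8
          + (16 * Real.pi / r ^ 2) ^ 3 / 16) :=
      mul_le_mul_of_nonneg_left h (by positivity)
    have h2 : 2 * r ^ 6 * (1 + (16 * Real.pi / r ^ 2) / 2 - (16 * Real.pi / r ^ 2) ^ 2 / 8
          + (16 * Real.pi / r ^ 2) ^ 3 / 16)
        = 2 * r ^ 6 + 16 * Real.pi * r ^ 4 - 64 * Real.pi ^ 2 * r ^ 2 + 512 * Real.pi ^ 3 := by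
      field_simp
      ring
    nlinarith [h1, h2]
  nlinarith [ha, hb]

private theorem U8D_split (κ r : ℝ) (hr : 0 < r) :
    (64 * Real.pi ^ 2 - 16 * Real.pi * r ^ 2 * (xk κ r / (1 + xk κ r))
      + r ^ 4 * (xk κ r ^ 2 / (1 + xk κ r)))
    = U8D_G r + r ^ 4 * (Real.sqrt (1 + 16 * Real.pi / (r ^ 2 + κ ^ 2))
        - Real.sqrt (1 + 16 * Real.pi / r ^ 2)) ^ 2
          / Real.sqrt (1 + 16 * Real.pi / (r ^ 2 + κ ^ 2)) := by
  rw [U8D_G_eq r hr, xk]
  have hwB : r ^ 2 * Real.sqrt (1 + 16 * Real.pi / r ^ 2) ^ 2 = r ^ 2 + 16 * Real.pi := by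
    rw [Real.sq_sqrt (by positivity)]
    field_simp
  have hw : 0 < Real.sqrt (1 + 16 * Real.pi / (r ^ 2 + κ ^ 2)) :=
    Real.sqrt_pos.2 (by positivity)
  generalize Real.sqrt (1 + 16 * Real.pi / (r ^ 2 + κ ^ 2)) = w at *
  generalize Real.sqrt (1 + 16 * Real.pi / r ^ 2) = wB at *
  have h1 : (1 : ℝ) + (w - 1) = w := by ring
  rw [h1]
  field_simp
  linear_combination (-r ^ 2) * hwB

private theorem U8D_rest (κ r : ℝ) (hr : 0 < r) (hκ : κ ^ 2 ≤ 1) :
    r ^ 4 * (Real.sqrt (1 + 16 * Real.pi / (r ^ 2 + κ ^ 2))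
        - Real.sqrt (1 + 16 * Real.pi / r ^ 2)) ^ 2
          / Real.sqrt (1 + 16 * Real.pi / (r ^ 2 + κ ^ 2)) * (1 + r ^ 2) ≤ 128 * Real.pi ^ 2 := by
  have hpos : 0 < r ^ 2 + κ ^ 2 := by positivity
  have hwB : Real.sqrt (1 + 16 * Real.pi / r ^ 2) ^ 2 = 1 + 16 * Real.pi / r ^ 2 :=
    Real.sq_sqrt (by positivity)
  have hw : Real.sqrt (1 + 16 * Real.pi / (r ^ 2 + κ ^ 2)) ^ 2 = 1 + 16 * Real.pi / (r ^ 2 + κ ^ 2) :=
    Real.sq_sqrt (by positivity)
  have hle : Real.sqrt (1 + 16 * Real.pi / (r ^ 2 + κ ^ 2)) ≤ Real.sqrt (1 + 16 * Real.pi / r ^ 2) := by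
    apply Real.sqrt_le_sqrt
    gcongr
    nlinarith [sq_nonneg κ]
  have hw1 : 1 ≤ Real.sqrt (1 + 16 * Real.pi / (r ^ 2 + κ ^ 2)) := by
    rw [Real.one_le_sqrt]
    have : 0 ≤ 16 * Real.pi / (r ^ 2 + κ ^ 2) := by positivity
    linarith
  generalize Real.sqrt (1 + 16 * Real.pi / (r ^ 2 + κ ^ 2)) = w at *
  generalize Real.sqrt (1 + 16 * Real.pi / r ^ 2) = wB at *
  -- `e = 8 π κ² / (r² + κ²)`
  set e : ℝ := 8 * Real.pi * κ ^ 2 / (r ^ 2 + κ ^ 2) with he
  have he0 : 0 ≤ e := by positivity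
  have he1 : e ≤ 8 * Real.pi := by
    rw [he, div_le_iff₀ hpos]
    have := Real.pi_pos
    nlinarith [sq_nonneg r, mul_nonneg this.le (sq_nonneg r)]
  have he2 : r ^ 2 * e ≤ 8 * Real.pi := by
    rw [he, ← mul_div_assoc, div_le_iff₀ hpos]
    have h1 : 0 ≤ Real.pi * r ^ 2 * (1 - κ ^ 2) :=
      mul_nonneg (by positivity) (by linarith)
    have h2 : 0 ≤ Real.pi * κ ^ 2 := by positivity
    nlinarith [h1, h2]
  have hd : r ^ 2 * (wB - w) ≤ e := by
    have h1 : (wB - w) * (wB + w) = 2 * (e / r ^ 2) := by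
      have h2 : (wB - w) * (wB + w) = wB ^ 2 - w ^ 2 := by ring
      rw [h2, hwB, hw, he]
      field_simp
      ring
    have h3 : (wB - w) * 2 ≤ (wB - w) * (wB + w) :=
      mul_le_mul_of_nonneg_left (by linarith) (by linarith)
    have h4 : wB - w ≤ e / r ^ 2 := by linarith
    calc r ^ 2 * (wB - w) ≤ r ^ 2 * (e / r ^ 2) := mul_le_mul_of_nonneg_left h4 (by positivity)
      _ = e := by field_simp
  have hd0 : 0 ≤ r ^ 2 * (wB - w) := mul_nonneg (by positivity) (by linarith)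
  have h5 : (r ^ 2 * (wB - w)) ^ 2 ≤ e ^ 2 := by gcongr
  have h6 : r ^ 4 * (w - wB) ^ 2 / w ≤ r ^ 4 * (w - wB) ^ 2 := by
    apply div_le_self (by positivity) hw1
  have h7 : r ^ 4 * (w - wB) ^ 2 = (r ^ 2 * (wB - w)) ^ 2 := by ring
  calc r ^ 4 * (w - wB) ^ 2 / w * (1 + r ^ 2) ≤ e ^ 2 * (1 + r ^ 2) := by
        apply mul_le_mul_of_nonneg_right _ (by positivity)
        linarith
    _ = e * (e + r ^ 2 * e) := by ring
    _ ≤ (8 * Real.pi) * (8 * Real.pi + 8 * Real.pi) := by gcongr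
    _ = 128 * Real.pi ^ 2 := by ring

theorem limit_kappa : Tendsto Phk (𝓝[>] 0) (𝓝 J0) := by
  have hJ : J0 = 1 / (8 * Real.pi ^ 2) * ∫ r in Ioi (0:ℝ), U8D_G r := by
    rw [J0]
    have h1 : ∀ r, U8D_G r = 2 * (r ^ 2 * (Real.sqrt (r ^ 4 + 16 * Real.pi * r ^ 2) - r ^ 2
      - 8 * Real.pi + 32 * Real.pi ^ 2 / r ^ 2)) := fun r => rfl
    simp only [h1]
    rw [integral_const_mul]
    ring
  rw [hJ]
  refine Tendsto.const_mul _ ?_
  set C : ℝ := 64 * Real.pi ^ 2 + 512 * Real.pi ^ 3 + 128 * Real.pi ^ 2 with hC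
  refine tendsto_integral_filter_of_dominated_convergence (fun r => C * (1 + r ^ 2)⁻¹) ?_ ?_ ?_ ?_
  · refine Eventually.of_forall fun κ => Measurable.aestronglyMeasurable ?_
    unfold xk
    fun_prop
  · have h1 : ∀ᶠ κ : ℝ in 𝓝[>] 0, κ ^ 2 ≤ 1 := by
      have h2 : Tendsto (fun κ : ℝ => κ ^ 2) (𝓝[>] 0) (𝓝 0) := by
        have h3 : Tendsto (fun κ : ℝ => κ ^ 2) (𝓝 0) (𝓝 (0 ^ 2)) := (continuous_pow 2).tendsto 0
        rw [zero_pow two_ne_zero] at h3
        exact h3.mono_left nhdsWithin_le_nhds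
      exact (h2.eventually (gt_mem_nhds zero_lt_one)).mono fun _ h => le_of_lt h
    filter_upwards [h1] with κ hκ
    filter_upwards [ae_restrict_mem measurableSet_Ioi] with r hr
    have hr0 : 0 < r := hr
    rw [U8D_split κ r hr0]
    have hrest := U8D_rest κ r hr0 hκ
    have hG := U8D_G_le r hr0
    have hG0 := U8D_G_nonneg r hr0
    have hrest0 : 0 ≤ r ^ 4 * (Real.sqrt (1 + 16 * Real.pi / (r ^ 2 + κ ^ 2))
        - Real.sqrt (1 + 16 * Real.pi / r ^ 2)) ^ 2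
          / Real.sqrt (1 + 16 * Real.pi / (r ^ 2 + κ ^ 2)) := by positivity
    rw [Real.norm_eq_abs, abs_of_nonneg (add_nonneg hG0 hrest0), ← div_eq_mul_inv,
      le_div_iff₀ (by positivity), add_mul, hC]
    linarith
  · exact (integrable_inv_one_add_sq.const_mul C).restrict
  · filter_upwards [ae_restrict_mem measurableSet_Ioi] with r hr
    have hr0 : 0 < r := hr
    simp only [U8D_split _ r hr0]
    have h0 : U8D_G r = U8D_G r + r ^ 4 * (Real.sqrt (1 + 16 * Real.pi / (r ^ 2 + 0 ^ 2))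
        - Real.sqrt (1 + 16 * Real.pi / r ^ 2)) ^ 2
          / Real.sqrt (1 + 16 * Real.pi / (r ^ 2 + 0 ^ 2)) := by
      simp
    conv_rhs => rw [h0]
    refine Tendsto.mono_left ?_ nhdsWithin_le_nhds
    have hc : ContinuousAt (fun κ : ℝ => Real.sqrt (1 + 16 * Real.pi / (r ^ 2 + κ ^ 2))) 0 := by
      apply ContinuousAt.sqrt
      apply ContinuousAt.add continuousAt_const
      apply ContinuousAt.div continuousAt_const (by fun_prop)
      positivity
    have hc2 : ContinuousAt (fun κ : ℝ => U8D_G r + r ^ 4 * (Real.sqrt (1 + 16 * Real.pi / (r ^ 2 + κ ^ 2))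
        - Real.sqrt (1 + 16 * Real.pi / r ^ 2)) ^ 2
          / Real.sqrt (1 + 16 * Real.pi / (r ^ 2 + κ ^ 2))) 0 := by
      apply ContinuousAt.add continuousAt_const
      apply ContinuousAt.div _ hc
      · have : (0:ℝ) < Real.sqrt (1 + 16 * Real.pi / (r ^ 2 + 0 ^ 2)) :=
          Real.sqrt_pos.2 (by positivity)
        exact this.ne'
      · exact continuousAt_const.mul ((hc.sub continuousAt_const).pow 2)
    exact hc2.tendsto

end Pool.Agent.Lib.MP_4952d6_mp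

end

/-! ### Upper -/

section

set_option autoImplicit false
set_option linter.unusedSectionVars false
set_option linter.unusedVariables false
open MeasureTheory Function Filter Topology Set ComplexConjugate
open scoped ENNReal

namespace Pool.Agent.Lib.MP_4952d6_mp

section gen
variable {ι : Type*} [Fintype ι] [LinearOrder ι] {F : T3 → ℝ}

lemma pairI_bm (h : GasFn lam3 F) (i j : ι) {q : T3 → ℝ} (hq : BM q) :
    BM (fun x : ι → T3 => q (x i - x j) * (oneB F (rest i j) x (x i) * oneB F (rest i j) x (x j))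
      * pairW F (rest i j) x) := by
  have m1 : ∀ k : ι, Measurable (fun x : ι → T3 => (x, x k)) := fun k =>
    measurable_id.prodMk (measurable_pi_apply k)
  exact ((hq.comp (measurable_sub' (measurable_pi_apply i) (measurable_pi_apply j))).mul
    (BM.mul ((oneB_bm h _).comp (m1 i)) ((oneB_bm h _).comp (m1 j)))).mul (pairW_bm h _)

lemma pairI_add (h : GasFn lam3 F) (i j : ι) {q q' : T3 → ℝ} (hq : BM q) (hq' : BM q') :
    pairI lam3 F i j (fun y => q y + q' y) = pairI lam3 F i j q + pairI lam3 F i j q' := by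
  unfold pairI
  rw [← integral_add ((pairI_bm h i j hq).integrable _) ((pairI_bm h i j hq').integrable _)]
  congr 1; ext x; ring

lemma pair_pot (h : GasFn lam3 F) {i j : ι} (hij : i ≠ j) (q : T3 → ℝ) :
    ∫ x, q (x i - x j) * pairW F Finset.univ x ∂(piN ι)
      = pairI lam3 F i j (fun y => q y * F y) := by
  unfold pairI
  congr 1; ext x
  rw [pairW_univ h hij]; ring

/-- Pair integral bound for extended nonnegative functions. -/
lemma pair_pot_ennreal (h : GasFn lam3 F) {i j : ι} (hij : i ≠ j) {Λ : ℝ} (hΛ0 : 0 ≤ Λ)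
    (hΛ : ∀ q : T3 → ℝ, BM q → (∀ y, 0 ≤ q y) →
      pairI lam3 F i j q ≤ (∫ y, q y ∂lam3) * Λ)
    {𝒱 : T3 → ℝ≥0∞} (h𝒱 : Measurable 𝒱) :
    ∫⁻ x, 𝒱 (x i - x j) * ENNReal.ofReal (pairW F Finset.univ x) ∂(piN ι)
      ≤ ENNReal.ofReal Λ * ∫⁻ y, 𝒱 y ∂lam3 := by
  have hdiff : Measurable (fun x : ι → T3 => x i - x j) := (mp_diff hij).measurable
  have hsup : ∀ z : ℝ≥0∞, ⨆ n : ℕ, min z n = z := by
    intro z
    refine le_antisymm (iSup_le fun n => min_le_left _ _) ?_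
    rcases eq_or_ne z ⊤ with rfl | hz
    · simp only [min_eq_right le_top]
      rw [ENNReal.iSup_natCast]
    · obtain ⟨n, hn⟩ := ENNReal.exists_nat_gt hz
      exact le_iSup_of_le n (by rw [min_eq_left hn.le])
  have e1 : ∀ x : ι → T3, 𝒱 (x i - x j) * ENNReal.ofReal (pairW F Finset.univ x)
      = ⨆ n : ℕ, min (𝒱 (x i - x j)) n * ENNReal.ofReal (pairW F Finset.univ x) := by
    intro x
    rw [← ENNReal.iSup_mul, hsup]
  simp_rw [e1]
  rw [lintegral_iSup]
  · refine iSup_le fun n => ?_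
    set q : T3 → ℝ := fun y => (min (𝒱 y) n).toReal with hq
    have hqn : ∀ y, min (𝒱 y) (n : ℝ≥0∞) ≠ ⊤ := fun y =>
      ne_top_of_le_ne_top (ENNReal.natCast_ne_top n) (min_le_right _ _)
    have hqB : BM q := by
      refine BM.of_mem_Icc (a := 0) (b := n) (h𝒱.min measurable_const).ennreal_toReal fun y => ?_
      refine ⟨ENNReal.toReal_nonneg, ?_⟩
      have := ENNReal.toReal_mono (ENNReal.natCast_ne_top n) (min_le_right (𝒱 y) (n : ℝ≥0∞))
      simpa using this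
    have hq0 : ∀ y, 0 ≤ q y := fun y => ENNReal.toReal_nonneg
    have e2 : ∀ x : ι → T3, min (𝒱 (x i - x j)) n * ENNReal.ofReal (pairW F Finset.univ x)
        = ENNReal.ofReal (q (x i - x j) * pairW F Finset.univ x) := by
      intro x
      rw [ENNReal.ofReal_mul (hq0 _), ENNReal.ofReal_toReal (hqn _)]
    simp_rw [e2]
    rw [← ofReal_integral_eq_lintegral_ofReal
      (((hqB.comp hdiff).mul (pairW_bm h _)).integrable _)
      (Eventually.of_forall fun x => mul_nonneg (hq0 _) (pairW_nonneg h _ _))]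
    rw [pair_pot h hij, mul_comm, ← lintegral_congr (fun y => rfl)]
    have h3 : pairI lam3 F i j (fun y => q y * F y) ≤ (∫ y, q y ∂lam3) * Λ := by
      refine (hΛ _ (hqB.mul h.bm) (fun y => mul_nonneg (hq0 y) (h.nonneg y))).trans ?_
      refine mul_le_mul_of_nonneg_right ?_ hΛ0
      refine integral_mono ((hqB.mul h.bm).integrable _) (hqB.integrable _) fun y => ?_
      exact mul_le_of_le_one_right (hq0 y) (h.le_one y)
    refine (ENNReal.ofReal_le_ofReal h3).trans ?_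
    rw [ENNReal.ofReal_mul (integral_nonneg hq0)]
    refine mul_le_mul_left ?_ _
    rw [ofReal_integral_eq_lintegral_ofReal (hqB.integrable _) (Eventually.of_forall hq0)]
    refine lintegral_mono fun y => ?_
    dsimp only
    rw [ENNReal.ofReal_toReal (hqn y)]
    exact min_le_left _ _
  · intro n
    exact ((h𝒱.comp hdiff).min measurable_const).mul (pairW_bm h _).measurable.ennreal_ofReal
  · intro n m hnm x
    refine mul_le_mul_left (min_le_min le_rfl ?_) _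
    exact_mod_cast hnm

end gen

namespace Scat

variable {W : ℝ → ℝ} {R₀ R a : ℝ} {f Q : ℝ → ℝ}

/-- **Upper bound** on the ground state energy on the unit torus. -/
theorem upper (h : Scat W R₀ R a f Q) {b : ℝ} (hb : 2 * R ≤ b) (hb2 : b < 1/2) {N : ℕ}
    (hN : 2 ≤ N)
    {𝒱 𝒱₂ : T3 → ℝ≥0∞} (h𝒱m : Measurable 𝒱) (h𝒱₂ : Measurable 𝒱₂)
    (hle : ∀ y, 𝒱 y ≤ ENNReal.ofReal (2 * W (rr y)) + 𝒱₂ y)
    {ζ : ℝ} (hζ0 : 0 ≤ ζ) (hζ : ∫⁻ y, 𝒱₂ y ∂lam3 ≤ ENNReal.ofReal ζ) {B θ V Ω κ : ℝ}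
    (hκ : jkap R a b f ≤ κ)
    (hΩ : ∫ y : T3, (1 - fJ R a b f (rr y) ^ 2) ∂lam3 ≤ Ω)
    (hB : (N : ℝ) * Ω ≤ B)
    (hB1 : B < 1) (hθ : 4 * B / (1 - B) ≤ θ) (hθ1 : θ < 1)
    (hV : (N : ℝ) * (∫ y : T3, (1 - fJ R a b f (rr y) ^ 2) ^ 2 ∂lam3) / ((1 - B) ^ 3 * (1 - θ)) ≤ V)
    (hΩV : Ω * (1 + V) < 1) :
    ∃ ψ : (Fin N → T3) → ℂ, tAdm R₀ 𝒱 ψ ∧ tE 𝒱 ψ
      ≤ ENNReal.ofReal (N * (N - 1) * (κ ^ 2 * (sig * a) + ζ / 2) * ((1 + V) / (1 - Ω * (1 + V)))) := by
  classical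
  have hJ := h.jdata hb hb2
  set F : T3 → ℝ := fun y => fJ R a b f (rr y) ^ 2 with hF
  have hG : GasFn lam3 F := hJ.gasFn_sq
  have hNr : (2 : ℝ) ≤ N := by exact_mod_cast hN
  have ha := h.a_pos
  have hk := h.jkap_pos hb
  have hκ0 : 0 < κ := hk.trans_le hκ
  have hΩ' := omega_nonneg hG
  have hΩ0 : 0 ≤ Ω := hΩ'.trans hΩ
  have hcard : (Fintype.card (Fin N) : ℝ) = N := by simp
  have hBB : (Fintype.card (Fin N) : ℝ) * ∫ y, (1 - F y) ∂lam3 ≤ B := by
    rw [hcard]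
    exact (mul_le_mul_of_nonneg_left hΩ (by linarith)).trans hB
  have hB0 : 0 < 1 - B := by linarith
  have hθ0 : 0 < 1 - θ := by linarith
  have hV0 : 0 ≤ V := le_trans (div_nonneg (mul_nonneg (by linarith)
    (integral_nonneg fun y => sq_nonneg _)) (by positivity)) hV
  have hVV : (Fintype.card (Fin N) : ℝ) * (∫ y, (1 - F y) ^ 2 ∂lam3) / ((1 - B) ^ 3 * (1 - θ)) ≤ V := by
    rw [hcard]; exact hV
  set Z : ℝ := gasZ lam3 F (Finset.univ : Finset (Fin N)) with hZ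
  have hZ0 : 0 < Z := gasZ_pos hG _ (B := B) (by
    have : ((Finset.univ : Finset (Fin N)).card : ℝ) = Fintype.card (Fin N) := by simp
    rw [this]; exact hBB) hB1
  have hden : 0 < 1 - Ω * (1 + V) := by linarith
  set Λ : ℝ := (1 + V) / (1 - Ω * (1 + V)) with hΛ
  have hΛ0 : 0 ≤ Λ := div_nonneg (by linarith) hden.le
  have hratio : ∀ i j : Fin N, i ≠ j → ∀ q : T3 → ℝ, BM q → (∀ y, 0 ≤ q y) →
      pairI lam3 F i j q ≤ (∫ y, q y ∂lam3) * (Λ * Z) := by
    intro i j hij q hq hq0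
    have h1 := gas_pair_ratio hG hij hq hq0 hBB hB1 hθ hθ1 hVV
    have h2 : 0 ≤ pairI lam3 F i j q := by
      unfold pairI
      exact integral_nonneg fun x => mul_nonneg (mul_nonneg (hq0 _)
        (mul_nonneg (oneB_nonneg hG _ _ _) (oneB_nonneg hG _ _ _))) (pairW_nonneg hG _ _)
    have h3 : pairI lam3 F i j q * (1 - Ω * (1 + V))
        ≤ pairI lam3 F i j q * (1 - (∫ y, (1 - F y) ∂lam3) * (1 + V)) := by
      refine mul_le_mul_of_nonneg_left ?_ h2
      have := mul_le_mul_of_nonneg_right hΩ (by linarith : 0 ≤ 1 + V)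
      linarith
    have h4 := h3.trans h1
    rw [← le_div_iff₀ hden] at h4
    refine h4.trans (le_of_eq ?_)
    rw [hΛ]; field_simp
    rfl
  -- the trial function
  set Ψ : (Fin N → T3) → ℝ := JData.jas (fJ R a b f) with hΨ
  have hΨB : BM Ψ := hJ.jas_bm
  have hΨsq : ∀ x, Ψ x ^ 2 = pairW F Finset.univ x := fun x => JData.jas_sq _ _ _
  have hnorm : ∫ x, ‖(Ψ x : ℂ)‖ ^ 2 ∂(piN (Fin N)) = Z := by
    rw [hZ]; unfold gasZ
    congr 1; ext x
    rw [Complex.norm_real, Real.norm_eq_abs, sq_abs, hΨsq]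
  have hWb : BM (fun x : T3 => W (rr x)) := by
    obtain ⟨M, hM0, hM⟩ := h.exists_M
    exact BM.of_mem_Icc (h.W_meas.comp rr_measurable) fun x => ⟨h.W_nonneg _, hM _⟩
  have hdiff : ∀ {i j : Fin N}, i ≠ j → Measurable (fun x : Fin N → T3 => x i - x j) :=
    fun hij => (mp_diff hij).measurable
  -- kinetic energy
  set K : ℝ := ∑ i : Fin N, ∑ l ∈ Finset.univ.erase i,
    pairI lam3 F i l (fun y => JData.eff (fJ R a b f) (gJ R a b f Q) (kJ W R a b f Q) (rr y)) with hK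
  have hkin : HasSum (fun k : Fin N → Fin 3 → ℤ => 4 * Real.pi ^ 2
      * (∑ i, ∑ α, (k i α : ℝ) ^ 2) * ‖fc (fun x => (Ψ x : ℂ)) k‖ ^ 2) K := by
    have h1 : HasSum (fun k : Fin N → Fin 3 → ℤ => ∑ i, ∑ α, 4 * Real.pi ^ 2 * (k i α : ℝ) ^ 2
        * ‖fc (fun x => (Ψ x : ℂ)) k‖ ^ 2)
        (∑ i : Fin N, ∑ α, ∫ x, JData.djas (fJ R a b f) (gJ R a b f Q) i α x ^ 2 ∂(piN (Fin N))) :=
      hasSum_sum fun i _ => hasSum_sum fun α _ => hJ.jas_kin i α
    have e1 : (fun k : Fin N → Fin 3 → ℤ => 4 * Real.pi ^ 2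
        * (∑ i, ∑ α, (k i α : ℝ) ^ 2) * ‖fc (fun x => (Ψ x : ℂ)) k‖ ^ 2)
        = fun k : Fin N → Fin 3 → ℤ => ∑ i, ∑ α, 4 * Real.pi ^ 2 * (k i α : ℝ) ^ 2
        * ‖fc (fun x => (Ψ x : ℂ)) k‖ ^ 2 := by
      ext k
      simp only [Finset.mul_sum, Finset.sum_mul]
    rw [e1, hK]
    have e2 : ∀ i : Fin N, ∑ l ∈ Finset.univ.erase i, pairI lam3 F i l
        (fun y => JData.eff (fJ R a b f) (gJ R a b f Q) (kJ W R a b f Q) (rr y))
        = ∑ α, ∫ x, JData.djas (fJ R a b f) (gJ R a b f Q) i α x ^ 2 ∂(piN (Fin N)) := fun i =>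
      (hJ.djas_integral i).symm
    simp_rw [e2]
    exact h1
  have hkinE : ∑' k : Fin N → Fin 3 → ℤ, ENNReal.ofReal (4 * Real.pi ^ 2
      * (∑ i, ∑ α, (k i α : ℝ) ^ 2) * ‖fc (fun x => (Ψ x : ℂ)) k‖ ^ 2) = ENNReal.ofReal K := by
    rw [← hkin.tsum_eq, ENNReal.ofReal_tsum_of_nonneg (fun k => ?_) hkin.summable]
    have : 0 ≤ ∑ i, ∑ α, (k i α : ℝ) ^ 2 :=
      Finset.sum_nonneg fun i _ => Finset.sum_nonneg fun α _ => sq_nonneg _
    positivity
  -- potential energy of the bounded part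
  set P : ℝ := ∑ i : Fin N, ∑ l ∈ Finset.univ.erase i,
    pairI lam3 F i l (fun y => W (rr y) * F y) with hP
  have hrr : ∀ (x : Fin N → T3) (i j : Fin N), rr (x i - x j) = rr (x j - x i) := fun x i j => by
    rw [← rr_neg, neg_sub]
  have hpotb : ∀ i : Fin N, ∀ l ∈ Finset.univ.erase i,
      BM (fun x : Fin N → T3 => W (rr (x i - x l)) * pairW F Finset.univ x) := fun i l hl =>
    (hWb.comp (hdiff (Finset.ne_of_mem_erase hl).symm)).mul (pairW_bm hG _)
  have hpot : ∫⁻ x, (∑ i : Fin N, ∑ j ∈ Finset.Ioi i, ENNReal.ofReal (2 * W (rr (x i - x j))))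
      * ENNReal.ofReal (pairW F Finset.univ x) ∂(piN (Fin N)) = ENNReal.ofReal P := by
    have e1 : ∀ x : Fin N → T3, (∑ i : Fin N, ∑ j ∈ Finset.Ioi i,
        ENNReal.ofReal (2 * W (rr (x i - x j)))) * ENNReal.ofReal (pairW F Finset.univ x)
        = ENNReal.ofReal (∑ i : Fin N, ∑ l ∈ Finset.univ.erase i,
          W (rr (x i - x l)) * pairW F Finset.univ x) := by
      intro x
      simp_rw [← Finset.sum_mul]
      rw [ENNReal.ofReal_mul (Finset.sum_nonneg fun i _ => Finset.sum_nonneg fun j _ =>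
        h.W_nonneg _), sum_pairs_real (fun i j => W (rr (x i - x j))) (fun i j => by
          simp only [hrr x i j])]
      congr 1
      rw [ENNReal.ofReal_sum_of_nonneg (fun i _ => Finset.sum_nonneg fun j _ =>
        mul_nonneg zero_le_two (h.W_nonneg _))]
      refine Finset.sum_congr rfl fun i _ => ?_
      rw [ENNReal.ofReal_sum_of_nonneg (fun j _ => mul_nonneg zero_le_two (h.W_nonneg _))]
    simp_rw [e1]
    rw [← ofReal_integral_eq_lintegral_ofReal
      ((BM.finset_sum _ fun i _ => BM.finset_sum _ (hpotb i)).integrable _)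
      (Eventually.of_forall fun x => Finset.sum_nonneg fun i _ => Finset.sum_nonneg fun l _ =>
        mul_nonneg (h.W_nonneg _) (pairW_nonneg hG _ _))]
    congr 1
    rw [integral_finsetSum _ (fun i _ => (BM.finset_sum _ (hpotb i)).integrable _), hP]
    refine Finset.sum_congr rfl fun i _ => ?_
    rw [integral_finsetSum _ (fun l hl => (hpotb i l hl).integrable _)]
    refine Finset.sum_congr rfl fun l hl => ?_
    rw [← pair_pot hG (Finset.ne_of_mem_erase hl).symm (fun y => W (rr y))]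
  -- potential energy of the remainder
  have hpairs : (∑ i : Fin N, ∑ j ∈ Finset.Ioi i, (1 : ℝ≥0∞)) = ENNReal.ofReal (N * (N - 1) / 2) := by
    have h1 : (∑ i : Fin N, ∑ j ∈ Finset.univ.erase i, (1 : ℝ))
        = ∑ i : Fin N, ∑ j ∈ Finset.Ioi i, 2 * (1:ℝ) := sum_pairs_real _ (fun _ _ => rfl)
    have h2 : (∑ i : Fin N, ∑ j ∈ Finset.univ.erase i, (1 : ℝ)) = N * (N - 1) := by
      simp only [Finset.sum_const, Finset.card_erase_of_mem (Finset.mem_univ _), Finset.card_univ,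
        Fintype.card_fin, nsmul_eq_mul, mul_one]
      rw [Nat.cast_sub (by omega)]
      simp
    have h3 : (∑ i : Fin N, ∑ j ∈ Finset.Ioi i, (1 : ℝ)) = N * (N - 1) / 2 := by
      rw [← h2, h1]
      simp_rw [← Finset.mul_sum]
      ring
    rw [← h3, ENNReal.ofReal_sum_of_nonneg (fun i _ => Finset.sum_nonneg fun j _ => zero_le_one)]
    refine Finset.sum_congr rfl fun i _ => ?_
    rw [ENNReal.ofReal_sum_of_nonneg (fun j _ => zero_le_one)]
    simp
  have hrem : ∫⁻ x, (∑ i : Fin N, ∑ j ∈ Finset.Ioi i, 𝒱₂ (x i - x j))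
      * ENNReal.ofReal (pairW F Finset.univ x) ∂(piN (Fin N))
      ≤ ENNReal.ofReal (N * (N - 1) / 2) * (ENNReal.ofReal (Λ * Z) * ENNReal.ofReal ζ) := by
    have mP : Measurable (fun x : Fin N → T3 => ENNReal.ofReal (pairW F Finset.univ x)) :=
      (pairW_bm hG _).measurable.ennreal_ofReal
    have mV : ∀ i : Fin N, ∀ j ∈ Finset.Ioi i, Measurable (fun x : Fin N → T3 =>
        𝒱₂ (x i - x j) * ENNReal.ofReal (pairW F Finset.univ x)) := fun i j hj =>
      (h𝒱₂.comp (hdiff (Finset.mem_Ioi.1 hj).ne)).mul mP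
    simp_rw [Finset.sum_mul]
    rw [lintegral_finsetSum _ (fun i _ => Finset.measurable_fun_sum _ (mV i)), ← hpairs,
      Finset.sum_mul]
    refine Finset.sum_le_sum fun i _ => ?_
    rw [lintegral_finsetSum' _ (fun j hj => (mV i j hj).aemeasurable), Finset.sum_mul]
    refine Finset.sum_le_sum fun j hj => ?_
    rw [one_mul]
    have hij : i ≠ j := (Finset.mem_Ioi.1 hj).ne
    refine (pair_pot_ennreal hG hij (mul_nonneg hΛ0 hZ0.le) (hratio i j hij) h𝒱₂).trans ?_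
    exact mul_le_mul_right hζ _
  -- total
  have hKP : K + P ≤ N * (N - 1) * (κ ^ 2 * (sig * a)) * (Λ * Z) := by
    have h1 : ∀ i : Fin N, ∀ l ∈ Finset.univ.erase i,
        pairI lam3 F i l (fun y => JData.eff (fJ R a b f) (gJ R a b f Q) (kJ W R a b f Q) (rr y))
          + pairI lam3 F i l (fun y => W (rr y) * F y) ≤ (κ ^ 2 * (sig * a)) * (Λ * Z) := by
      intro i l hl
      have hil : i ≠ l := (Finset.ne_of_mem_erase hl).symm
      rw [← pairI_add hG i l hJ.eff_bm (hWb.mul hG.bm)]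
      have h2 := hratio i l hil (fun y => effW W R a b f Q (rr y))
        (hJ.eff_bm.add (hWb.mul hG.bm)) (fun y => h.effW_nonneg hb (rr_nonneg y))
      refine h2.trans (mul_le_mul_of_nonneg_right ?_ (mul_nonneg hΛ0 hZ0.le))
      refine (h.effW_int hb hb2).trans ?_
      exact mul_le_mul_of_nonneg_right (pow_le_pow_left₀ hk.le hκ 2)
        (mul_nonneg sig_pos.le ha.le)
    rw [hK, hP, ← Finset.sum_add_distrib]
    simp_rw [← Finset.sum_add_distrib]
    refine (Finset.sum_le_sum fun i _ => Finset.sum_le_sum (h1 i)).trans (le_of_eq ?_)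
    simp only [Finset.sum_const, Finset.card_erase_of_mem (Finset.mem_univ _), Finset.card_univ,
      Fintype.card_fin, nsmul_eq_mul]
    rw [Nat.cast_sub (by omega)]
    push_cast; ring
  have hK0 : 0 ≤ K := hkin.nonneg fun k => by
    have : 0 ≤ ∑ i, ∑ α, (k i α : ℝ) ^ 2 :=
      Finset.sum_nonneg fun i _ => Finset.sum_nonneg fun α _ => sq_nonneg _
    positivity
  have hP0 : 0 ≤ P := by
    refine Finset.sum_nonneg fun i _ => Finset.sum_nonneg fun l _ => ?_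
    unfold pairI
    exact integral_nonneg fun x => mul_nonneg (mul_nonneg (mul_nonneg (h.W_nonneg _) (hG.nonneg _))
        (mul_nonneg (oneB_nonneg hG _ _ _) (oneB_nonneg hG _ _ _))) (pairW_nonneg hG _ _)
  have hTot : tE 𝒱 (fun x => (Ψ x : ℂ))
      ≤ ENNReal.ofReal (N * (N - 1) * (κ ^ 2 * (sig * a) + ζ / 2) * Λ * Z) := by
    unfold tE
    rw [hkinE]
    have e1 : ∀ x : Fin N → T3, ‖(Ψ x : ℂ)‖ₑ ^ 2 = ENNReal.ofReal (pairW F Finset.univ x) := by
      intro x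
      rw [← hΨsq, ← ofReal_norm, Complex.norm_real, Real.norm_eq_abs,
        ← ENNReal.ofReal_pow (abs_nonneg _), sq_abs]
    simp_rw [e1]
    have h2 : ∫⁻ x, (∑ i : Fin N, ∑ j ∈ Finset.Ioi i, 𝒱 (x i - x j))
        * ENNReal.ofReal (pairW F Finset.univ x) ∂(piN (Fin N))
        ≤ ENNReal.ofReal P
          + ENNReal.ofReal (N * (N - 1) / 2) * (ENNReal.ofReal (Λ * Z) * ENNReal.ofReal ζ) := by
      refine le_trans ?_ (add_le_add hpot.le hrem)
      have mP : Measurable (fun x : Fin N → T3 => ENNReal.ofReal (pairW F Finset.univ x)) :=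
        (pairW_bm hG _).measurable.ennreal_ofReal
      rw [← lintegral_add_left]
      · refine lintegral_mono fun x => ?_
        dsimp only
        rw [← add_mul, ← Finset.sum_add_distrib]
        simp_rw [← Finset.sum_add_distrib]
        refine mul_le_mul_left (Finset.sum_le_sum fun i _ => Finset.sum_le_sum fun j _ => ?_) _
        exact hle _
      · refine Measurable.mul ?_ mP
        refine Finset.measurable_fun_sum _ fun i _ => Finset.measurable_fun_sum _ fun j hj => ?_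
        exact ((hWb.comp (hdiff (Finset.mem_Ioi.1 hj).ne)).const_mul 2).measurable.ennreal_ofReal
    refine (add_le_add le_rfl h2).trans ?_
    have hN1 : (0:ℝ) ≤ N * (N - 1) / 2 := by
      have : (0:ℝ) ≤ (N:ℝ) - 1 := by linarith
      positivity
    rw [← ENNReal.ofReal_mul (mul_nonneg hΛ0 hZ0.le), ← ENNReal.ofReal_mul hN1,
      ← ENNReal.ofReal_add hP0 (mul_nonneg hN1 (mul_nonneg (mul_nonneg hΛ0 hZ0.le) hζ0)),
      ← ENNReal.ofReal_add hK0 (add_nonneg hP0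
        (mul_nonneg hN1 (mul_nonneg (mul_nonneg hΛ0 hZ0.le) hζ0)))]
    refine ENNReal.ofReal_le_ofReal ?_
    have : (N * (N - 1) * (κ ^ 2 * (sig * a) + ζ / 2) * Λ * Z : ℝ)
        = N * (N - 1) * (κ ^ 2 * (sig * a)) * (Λ * Z) + N * (N - 1) / 2 * (Λ * Z * ζ) := by ring
    rw [this]
    linarith
  set s : ℝ := (Real.sqrt Z)⁻¹ with hs
  have hs0 : 0 ≤ s := inv_nonneg.2 (Real.sqrt_nonneg _)
  have hs2 : s ^ 2 = Z⁻¹ := by rw [hs, inv_pow, Real.sq_sqrt hZ0.le]
  have hfinal : tE 𝒱 (fun x => (s : ℂ) * (Ψ x : ℂ)) ≤ ENNReal.ofReal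
      (N * (N - 1) * (κ ^ 2 * (sig * a) + ζ / 2) * Λ) := by
    rw [tE_smul 𝒱 _ s hs0, hs2]
    refine (mul_le_mul_right hTot _).trans (le_of_eq ?_)
    rw [← ENNReal.ofReal_mul (inv_nonneg.2 hZ0.le)]
    congr 1
    field_simp
  refine ⟨fun x => (s : ℂ) * (Ψ x : ℂ), ⟨?_, ?_, ?_, hfinal.trans_lt ENNReal.ofReal_lt_top⟩, hfinal⟩
  · exact (JData.memLp_of_bm (μ := piN (Fin N)) hΨB).const_mul _
  · have : ∀ x : Fin N → T3, ‖(s : ℂ) * (Ψ x : ℂ)‖ ^ 2 = s ^ 2 * ‖(Ψ x : ℂ)‖ ^ 2 := fun x => by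
      rw [norm_mul, mul_pow, Complex.norm_real, Real.norm_eq_abs, sq_abs]
    simp_rw [this]
    rw [integral_const_mul, hnorm, hs2, inv_mul_cancel₀ hZ0.ne']
  · intro x i j hij hr
    have hR0 : 0 < R₀ := (rr_nonneg _).trans_lt hr
    have h1 : Ψ x ^ 2 = 0 := by
      rw [hΨsq, pairW_univ hG hij]
      have : F (x i - x j) = 0 := by
        rw [hF]
        dsimp only
        unfold fJ
        rw [min_eq_left (hr.le.trans (h.R₀_le.trans (h.R_lt_b hb).le)),
          h.jPhi_eq_f hb (hr.le.trans h.R₀_le), h.f_core _ hR0 hr.le]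
        simp
      rw [this]; ring
    have h2 : Ψ x = 0 := pow_eq_zero_iff (two_ne_zero) |>.1 h1
    simp [h2]

end Scat

end Pool.Agent.Lib.MP_4952d6_mp

end

/-! ### U.TJC -/

section

/-!
# TJC: energy of the normalised Jastrow function

Adaptation of `Scat.upper` in `Upper.lean` (read it). Differences: (i) pair function `f` on the torus, `Ψ = jasT f`;
(ii) the pair integrals are evaluated exactly by `pairI_yy`: `pairI lam3 F i j H = Zg F N * ∫ H yy` with `N = (N-2)+2`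
(write `N = n + 2`, `obtain ⟨n, rfl⟩`), `F = f²`; so the kinetic energy plus the bounded potential is
`N (N-1) Z ∫ (effT + Wt f²) yy`; (iii) remainder `𝒱₂`: `pair_pot_ennreal` with `Λ Z`, since for nonnegative `q` one has
`pairI F i j q = Z ∫ q yy ≤ Z Λ ∫ q`; (iv) `𝒱 ≤ 2 Wt + 𝒱₂` only almost everywhere: `lintegral_mono_ae`, `mp_diff` (the map
`x ↦ x i - x j` is measure preserving, so a.e. statements pull back).
`Z = Zg F N = ∫ pairW F univ = ∫ Ψ²`.
-/

set_option autoImplicit false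
set_option linter.unusedSectionVars false
set_option linter.unusedVariables false
open MeasureTheory Function Filter Topology Set
open scoped ENNReal

namespace Pool.Agent.Lib.MP_4952d6_mp

/-- Exact pair integrals, `N ≥ 2`. -/
lemma TJC_pairI {F : T3 → ℝ} (hF : GasFn lam3 F) {N : ℕ} (hN : 2 ≤ N) (hZ : 0 < Zg F N)
    {H : T3 → ℝ} (hH : BM H) (i j : Fin N) (hij : i ≠ j) :
    pairI lam3 F i j H = Zg F N * ∫ z, H z * yy F (N - 2) z ∂lam3 := by
  obtain ⟨n, rfl⟩ : ∃ n, N = n + 2 := ⟨N - 2, by omega⟩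
  exact pairI_yy hF n hZ hH i j hij

/-- Double sum of a constant over ordered pairs. -/
lemma TJC_const {N : ℕ} (hN : 2 ≤ N) (c : ℝ) :
    (∑ i : Fin N, ∑ l ∈ Finset.univ.erase i, c) = N * (N - 1) * c := by
  simp only [Finset.sum_const, Finset.card_erase_of_mem (Finset.mem_univ _), Finset.card_univ,
    Fintype.card_fin, nsmul_eq_mul]
  rw [Nat.cast_sub (by omega)]
  push_cast; ring

theorem TData.upper {f : T3 → ℝ} {df hf : Fin 3 → T3 → ℝ} (h : TData f df hf) {R₀ : ℝ}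
    (hcore : ∀ x, rr x < R₀ → f x = 0) {N : ℕ} (hN : 2 ≤ N) {Wt : T3 → ℝ} (hW : BM Wt)
    (hW0 : ∀ x, 0 ≤ Wt x) (hWe : ∀ x, Wt (-x) = Wt x) {𝒱 𝒱₂ : T3 → ℝ≥0∞}
    (h𝒱₂ : Measurable 𝒱₂) (hle : ∀ᵐ y ∂lam3, 𝒱 y ≤ ENNReal.ofReal (2 * Wt y) + 𝒱₂ y)
    {ζ : ℝ} (hζ0 : 0 ≤ ζ) (hζ : ∫⁻ y, 𝒱₂ y ∂lam3 ≤ ENNReal.ofReal ζ)
    (hZ : 0 < Zg (fun x => f x ^ 2) N) {Λ : ℝ}
    (hΛ : ∀ z, yy (fun x => f x ^ 2) (N - 2) z ≤ Λ) :
    0 ≤ ∫ z, (effT df hf z + Wt z * f z ^ 2) * yy (fun x => f x ^ 2) (N - 2) z ∂lam3 ∧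
    ∃ ψ : (Fin N → T3) → ℂ, tAdm R₀ 𝒱 ψ ∧ tE 𝒱 ψ ≤ ENNReal.ofReal (N * (N - 1) *
      ((∫ z, (effT df hf z + Wt z * f z ^ 2) * yy (fun x => f x ^ 2) (N - 2) z ∂lam3)
        + Λ * ζ / 2)) := by
  classical
  set F : T3 → ℝ := fun y => f y ^ 2 with hF
  have hG : GasFn lam3 F := h.gasFn_sq
  have hNr : (2 : ℝ) ≤ N := by exact_mod_cast hN
  set Z : ℝ := Zg F N with hZdef
  set yN : T3 → ℝ := yy F (N - 2) with hyN
  have hyB : BM yN := yy_bm hG _
  have hy0 : ∀ z, 0 ≤ yN z := yy_nonneg hG _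
  have hΛ0 : 0 ≤ Λ := (hy0 0).trans (hΛ 0)
  set I : ℝ := ∫ z, (effT df hf z + Wt z * f z ^ 2) * yN z ∂lam3 with hI
  have hpair : ∀ i j : Fin N, i ≠ j → ∀ q : T3 → ℝ, BM q →
      pairI lam3 F i j q = Z * ∫ z, q z * yN z ∂lam3 := fun i j hij q hq =>
    TJC_pairI hG hN hZ hq i j hij
  have hratio : ∀ i j : Fin N, i ≠ j → ∀ q : T3 → ℝ, BM q → (∀ y, 0 ≤ q y) →
      pairI lam3 F i j q ≤ (∫ y, q y ∂lam3) * (Λ * Z) := by
    intro i j hij q hq hq0
    rw [hpair i j hij q hq]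
    have h1 : ∫ z, q z * yN z ∂lam3 ≤ ∫ z, q z * Λ ∂lam3 :=
      integral_mono ((hq.mul hyB).integrable _) ((hq.mul (BM.const Λ)).integrable _)
        fun z => mul_le_mul_of_nonneg_left (hΛ z) (hq0 z)
    rw [integral_mul_const] at h1
    calc Z * ∫ z, q z * yN z ∂lam3 ≤ Z * ((∫ z, q z ∂lam3) * Λ) :=
          mul_le_mul_of_nonneg_left h1 hZ.le
      _ = _ := by ring
  -- the trial function
  set Ψ : (Fin N → T3) → ℝ := jasT f with hΨ
  have hΨB : BM Ψ := h.jas_bm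
  have hΨsq : ∀ x, Ψ x ^ 2 = pairW F Finset.univ x := fun x => TData.jas_sq _ _ _
  have hnorm : ∫ x, ‖(Ψ x : ℂ)‖ ^ 2 ∂(piN (Fin N)) = Z := by
    rw [hZdef]; unfold Zg Wg
    congr 1; ext x
    rw [Complex.norm_real, Real.norm_eq_abs, sq_abs, hΨsq]
  have hdiff : ∀ {i j : Fin N}, i ≠ j → Measurable (fun x : Fin N → T3 => x i - x j) :=
    fun hij => (mp_diff hij).measurable
  -- kinetic energy
  set K : ℝ := ∑ i : Fin N, ∑ l ∈ Finset.univ.erase i,
    pairI lam3 F i l (effT df hf) with hK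
  have hkin : HasSum (fun k : Fin N → Fin 3 → ℤ => 4 * Real.pi ^ 2
      * (∑ i, ∑ α, (k i α : ℝ) ^ 2) * ‖fc (fun x => (Ψ x : ℂ)) k‖ ^ 2) K := by
    have h1 : HasSum (fun k : Fin N → Fin 3 → ℤ => ∑ i, ∑ α, 4 * Real.pi ^ 2 * (k i α : ℝ) ^ 2
        * ‖fc (fun x => (Ψ x : ℂ)) k‖ ^ 2)
        (∑ i : Fin N, ∑ α, ∫ x, djasT f df i α x ^ 2 ∂(piN (Fin N))) :=
      hasSum_sum fun i _ => hasSum_sum fun α _ => h.jas_kin i α
    have e1 : (fun k : Fin N → Fin 3 → ℤ => 4 * Real.pi ^ 2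
        * (∑ i, ∑ α, (k i α : ℝ) ^ 2) * ‖fc (fun x => (Ψ x : ℂ)) k‖ ^ 2)
        = fun k : Fin N → Fin 3 → ℤ => ∑ i, ∑ α, 4 * Real.pi ^ 2 * (k i α : ℝ) ^ 2
        * ‖fc (fun x => (Ψ x : ℂ)) k‖ ^ 2 := by
      ext k
      simp only [Finset.mul_sum, Finset.sum_mul]
    rw [e1, hK]
    have e2 : ∀ i : Fin N, ∑ l ∈ Finset.univ.erase i, pairI lam3 F i l (effT df hf)
        = ∑ α, ∫ x, djasT f df i α x ^ 2 ∂(piN (Fin N)) := fun i =>
      (h.djas_integral i).symm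
    simp_rw [e2]
    exact h1
  have hkinE : ∑' k : Fin N → Fin 3 → ℤ, ENNReal.ofReal (4 * Real.pi ^ 2
      * (∑ i, ∑ α, (k i α : ℝ) ^ 2) * ‖fc (fun x => (Ψ x : ℂ)) k‖ ^ 2) = ENNReal.ofReal K := by
    rw [← hkin.tsum_eq, ENNReal.ofReal_tsum_of_nonneg (fun k => ?_) hkin.summable]
    have : 0 ≤ ∑ i, ∑ α, (k i α : ℝ) ^ 2 :=
      Finset.sum_nonneg fun i _ => Finset.sum_nonneg fun α _ => sq_nonneg _
    positivity
  -- potential energy of the bounded part
  set P : ℝ := ∑ i : Fin N, ∑ l ∈ Finset.univ.erase i,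
    pairI lam3 F i l (fun y => Wt y * F y) with hP
  have hrr : ∀ (x : Fin N → T3) (i j : Fin N), Wt (x i - x j) = Wt (x j - x i) := fun x i j => by
    rw [← hWe, neg_sub]
  have hpotb : ∀ i : Fin N, ∀ l ∈ Finset.univ.erase i,
      BM (fun x : Fin N → T3 => Wt (x i - x l) * pairW F Finset.univ x) := fun i l hl =>
    (hW.comp (hdiff (Finset.ne_of_mem_erase hl).symm)).mul (pairW_bm hG _)
  have hpot : ∫⁻ x, (∑ i : Fin N, ∑ j ∈ Finset.Ioi i, ENNReal.ofReal (2 * Wt (x i - x j)))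
      * ENNReal.ofReal (pairW F Finset.univ x) ∂(piN (Fin N)) = ENNReal.ofReal P := by
    have e1 : ∀ x : Fin N → T3, (∑ i : Fin N, ∑ j ∈ Finset.Ioi i,
        ENNReal.ofReal (2 * Wt (x i - x j))) * ENNReal.ofReal (pairW F Finset.univ x)
        = ENNReal.ofReal (∑ i : Fin N, ∑ l ∈ Finset.univ.erase i,
          Wt (x i - x l) * pairW F Finset.univ x) := by
      intro x
      simp_rw [← Finset.sum_mul]
      rw [ENNReal.ofReal_mul (Finset.sum_nonneg fun i _ => Finset.sum_nonneg fun j _ =>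
        hW0 _), sum_pairs_real (fun i j => Wt (x i - x j)) (fun i j => hrr x i j)]
      congr 1
      rw [ENNReal.ofReal_sum_of_nonneg (fun i _ => Finset.sum_nonneg fun j _ =>
        mul_nonneg zero_le_two (hW0 _))]
      refine Finset.sum_congr rfl fun i _ => ?_
      rw [ENNReal.ofReal_sum_of_nonneg (fun j _ => mul_nonneg zero_le_two (hW0 _))]
    simp_rw [e1]
    rw [← ofReal_integral_eq_lintegral_ofReal
      ((BM.finset_sum _ fun i _ => BM.finset_sum _ (hpotb i)).integrable _)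
      (Eventually.of_forall fun x => Finset.sum_nonneg fun i _ => Finset.sum_nonneg fun l _ =>
        mul_nonneg (hW0 _) (pairW_nonneg hG _ _))]
    congr 1
    rw [integral_finsetSum _ (fun i _ => (BM.finset_sum _ (hpotb i)).integrable _), hP]
    refine Finset.sum_congr rfl fun i _ => ?_
    rw [integral_finsetSum _ (fun l hl => (hpotb i l hl).integrable _)]
    refine Finset.sum_congr rfl fun l hl => ?_
    rw [← pair_pot hG (Finset.ne_of_mem_erase hl).symm (fun y => Wt y)]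
  -- potential energy of the remainder
  have hpairs : (∑ i : Fin N, ∑ j ∈ Finset.Ioi i, (1 : ℝ≥0∞)) = ENNReal.ofReal (N * (N - 1) / 2) := by
    have h1 : (∑ i : Fin N, ∑ j ∈ Finset.univ.erase i, (1 : ℝ))
        = ∑ i : Fin N, ∑ j ∈ Finset.Ioi i, 2 * (1:ℝ) := sum_pairs_real _ (fun _ _ => rfl)
    have h2 : (∑ i : Fin N, ∑ j ∈ Finset.univ.erase i, (1 : ℝ)) = N * (N - 1) := by
      rw [TJC_const hN, mul_one]
    have h3 : (∑ i : Fin N, ∑ j ∈ Finset.Ioi i, (1 : ℝ)) = N * (N - 1) / 2 := by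
      rw [← h2, h1]
      simp_rw [← Finset.mul_sum]
      ring
    rw [← h3, ENNReal.ofReal_sum_of_nonneg (fun i _ => Finset.sum_nonneg fun j _ => zero_le_one)]
    refine Finset.sum_congr rfl fun i _ => ?_
    rw [ENNReal.ofReal_sum_of_nonneg (fun j _ => zero_le_one)]
    simp
  have hrem : ∫⁻ x, (∑ i : Fin N, ∑ j ∈ Finset.Ioi i, 𝒱₂ (x i - x j))
      * ENNReal.ofReal (pairW F Finset.univ x) ∂(piN (Fin N))
      ≤ ENNReal.ofReal (N * (N - 1) / 2) * (ENNReal.ofReal (Λ * Z) * ENNReal.ofReal ζ) := by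
    have mP : Measurable (fun x : Fin N → T3 => ENNReal.ofReal (pairW F Finset.univ x)) :=
      (pairW_bm hG _).measurable.ennreal_ofReal
    have mV : ∀ i : Fin N, ∀ j ∈ Finset.Ioi i, Measurable (fun x : Fin N → T3 =>
        𝒱₂ (x i - x j) * ENNReal.ofReal (pairW F Finset.univ x)) := fun i j hj =>
      (h𝒱₂.comp (hdiff (Finset.mem_Ioi.1 hj).ne)).mul mP
    simp_rw [Finset.sum_mul]
    rw [lintegral_finsetSum _ (fun i _ => Finset.measurable_fun_sum _ (mV i)), ← hpairs,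
      Finset.sum_mul]
    refine Finset.sum_le_sum fun i _ => ?_
    rw [lintegral_finsetSum' _ (fun j hj => (mV i j hj).aemeasurable), Finset.sum_mul]
    refine Finset.sum_le_sum fun j hj => ?_
    rw [one_mul]
    have hij : i ≠ j := (Finset.mem_Ioi.1 hj).ne
    refine (pair_pot_ennreal hG hij (mul_nonneg hΛ0 hZ.le) (hratio i j hij) h𝒱₂).trans ?_
    exact mul_le_mul_right hζ _
  -- total
  have hKP : K + P = N * (N - 1) * (Z * I) := by
    have h1 : ∀ i : Fin N, ∀ l ∈ Finset.univ.erase i,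
        pairI lam3 F i l (effT df hf)
          + pairI lam3 F i l (fun y => Wt y * F y) = Z * I := by
      intro i l hl
      have hil : i ≠ l := (Finset.ne_of_mem_erase hl).symm
      rw [← pairI_add hG i l h.eff_bm (hW.mul hG.bm)]
      exact hpair i l hil _ (h.eff_bm.add (hW.mul hG.bm))
    rw [hK, hP, ← Finset.sum_add_distrib]
    simp_rw [← Finset.sum_add_distrib]
    rw [← TJC_const hN]
    exact Finset.sum_congr rfl fun i _ => Finset.sum_congr rfl fun l hl => h1 i l hl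
  have hK0 : 0 ≤ K := hkin.nonneg fun k => by
    have : 0 ≤ ∑ i, ∑ α, (k i α : ℝ) ^ 2 :=
      Finset.sum_nonneg fun i _ => Finset.sum_nonneg fun α _ => sq_nonneg _
    positivity
  have hP0 : 0 ≤ P := by
    refine Finset.sum_nonneg fun i _ => Finset.sum_nonneg fun l _ => ?_
    unfold pairI
    exact integral_nonneg fun x => mul_nonneg (mul_nonneg (mul_nonneg (hW0 _) (hG.nonneg _))
        (mul_nonneg (oneB_nonneg hG _ _ _) (oneB_nonneg hG _ _ _))) (pairW_nonneg hG _ _)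
  have hN2 : (0:ℝ) < N * (N - 1) := mul_pos (by linarith) (by linarith)
  have hI0 : 0 ≤ I := by
    have h1 : 0 ≤ N * (N - 1) * (Z * I) := by rw [← hKP]; exact add_nonneg hK0 hP0
    have h2 : 0 ≤ Z * I := nonneg_of_mul_nonneg_right h1 hN2
    exact nonneg_of_mul_nonneg_right h2 hZ
  have hTot : tE 𝒱 (fun x => (Ψ x : ℂ))
      ≤ ENNReal.ofReal (N * (N - 1) * (I + Λ * ζ / 2) * Z) := by
    unfold tE
    rw [hkinE]
    have e1 : ∀ x : Fin N → T3, ‖(Ψ x : ℂ)‖ₑ ^ 2 = ENNReal.ofReal (pairW F Finset.univ x) := by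
      intro x
      rw [← hΨsq, ← ofReal_norm, Complex.norm_real, Real.norm_eq_abs,
        ← ENNReal.ofReal_pow (abs_nonneg _), sq_abs]
    simp_rw [e1]
    have h2 : ∫⁻ x, (∑ i : Fin N, ∑ j ∈ Finset.Ioi i, 𝒱 (x i - x j))
        * ENNReal.ofReal (pairW F Finset.univ x) ∂(piN (Fin N))
        ≤ ENNReal.ofReal P
          + ENNReal.ofReal (N * (N - 1) / 2) * (ENNReal.ofReal (Λ * Z) * ENNReal.ofReal ζ) := by
      refine le_trans ?_ (add_le_add hpot.le hrem)
      have mP : Measurable (fun x : Fin N → T3 => ENNReal.ofReal (pairW F Finset.univ x)) :=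
        (pairW_bm hG _).measurable.ennreal_ofReal
      rw [← lintegral_add_left]
      · have hae : ∀ᵐ x ∂(piN (Fin N)), ∀ i : Fin N, ∀ j ∈ Finset.Ioi i,
            𝒱 (x i - x j) ≤ ENNReal.ofReal (2 * Wt (x i - x j)) + 𝒱₂ (x i - x j) := by
          rw [ae_all_iff]
          intro i
          rw [ae_all_iff]
          intro j
          by_cases hj : j ∈ Finset.Ioi i
          · have hij : i ≠ j := (Finset.mem_Ioi.1 hj).ne
            filter_upwards [(mp_diff hij).quasiMeasurePreserving.ae hle] with x hx _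
            exact hx
          · exact Eventually.of_forall fun x hx => absurd hx hj
        refine lintegral_mono_ae ?_
        filter_upwards [hae] with x hx
        rw [← add_mul, ← Finset.sum_add_distrib]
        simp_rw [← Finset.sum_add_distrib]
        exact mul_le_mul_left (Finset.sum_le_sum fun i _ => Finset.sum_le_sum fun j hj =>
          hx i j hj) _
      · refine Measurable.mul ?_ mP
        refine Finset.measurable_fun_sum _ fun i _ => Finset.measurable_fun_sum _ fun j hj => ?_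
        exact ((hW.comp (hdiff (Finset.mem_Ioi.1 hj).ne)).const_mul 2).measurable.ennreal_ofReal
    refine (add_le_add le_rfl h2).trans ?_
    have hN1 : (0:ℝ) ≤ N * (N - 1) / 2 := by positivity
    rw [← ENNReal.ofReal_mul (mul_nonneg hΛ0 hZ.le), ← ENNReal.ofReal_mul hN1,
      ← ENNReal.ofReal_add hP0 (mul_nonneg hN1 (mul_nonneg (mul_nonneg hΛ0 hZ.le) hζ0)),
      ← ENNReal.ofReal_add hK0 (add_nonneg hP0
        (mul_nonneg hN1 (mul_nonneg (mul_nonneg hΛ0 hZ.le) hζ0)))]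
    refine ENNReal.ofReal_le_ofReal ?_
    have : (N * (N - 1) * (I + Λ * ζ / 2) * Z : ℝ)
        = N * (N - 1) * (Z * I) + N * (N - 1) / 2 * (Λ * Z * ζ) := by ring
    rw [this, ← hKP]
    linarith
  set s : ℝ := (Real.sqrt Z)⁻¹ with hs
  have hs0 : 0 ≤ s := inv_nonneg.2 (Real.sqrt_nonneg _)
  have hs2 : s ^ 2 = Z⁻¹ := by rw [hs, inv_pow, Real.sq_sqrt hZ.le]
  have hfinal : tE 𝒱 (fun x => (s : ℂ) * (Ψ x : ℂ)) ≤ ENNReal.ofReal
      (N * (N - 1) * (I + Λ * ζ / 2)) := by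
    rw [tE_smul 𝒱 _ s hs0, hs2]
    refine (mul_le_mul_right hTot _).trans (le_of_eq ?_)
    rw [← ENNReal.ofReal_mul (inv_nonneg.2 hZ.le)]
    congr 1
    field_simp
  refine ⟨hI0, fun x => (s : ℂ) * (Ψ x : ℂ),
    ⟨?_, ?_, ?_, hfinal.trans_lt ENNReal.ofReal_lt_top⟩, hfinal⟩
  · exact (JData.memLp_of_bm (μ := piN (Fin N)) hΨB).const_mul _
  · have : ∀ x : Fin N → T3, ‖(s : ℂ) * (Ψ x : ℂ)‖ ^ 2 = s ^ 2 * ‖(Ψ x : ℂ)‖ ^ 2 := fun x => by
      rw [norm_mul, mul_pow, Complex.norm_real, Real.norm_eq_abs, sq_abs]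
    simp_rw [this]
    rw [integral_const_mul, hnorm, hs2, inv_mul_cancel₀ hZ.ne']
  · intro x i j hij hr
    have h1 : Ψ x ^ 2 = 0 := by
      rw [hΨsq, pairW_univ hG hij]
      have : F (x i - x j) = 0 := by
        rw [hF]
        dsimp only
        rw [hcore _ hr]
        simp
      rw [this]; ring
    have h2 : Ψ x = 0 := pow_eq_zero_iff (two_ne_zero) |>.1 h1
    simp [h2]

end Pool.Agent.Lib.MP_4952d6_mp

end

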