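import Pool.Agent.Lib.MP_4952d6_mp.Pk.G20
import Pool.Agent.Lib.MP_4952d6_mp.Pk.G24
import Pool.Agent.Lib.MP_4952d6_mp.Pk.G32
import Pool.Agent.Lib.MP_4952d6_mp.Pk.G38
import Pool.Agent.Lib.MP_4952d6_mp.Pk.G39

/-! Merged modules (to save import time): LB.Loc, U.U7B. -/

/-! ### LB.Loc -/

section

/-!
# LB.Loc: the local moment bounds in terms of operators

`perp m Ψ` is a.e. `ψ - avj m ψ` and `QQ1 t m Ψ` is a.e. `ψ - htj (t/2) m ψ`: `S1_ker` with `w = 1` (`φ = pz`), and with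
`w = hk (t/2)` (`φ = et t`, `fc3_hk`); `QQ1 = 1 - PP1` (`PP1_add_QQ1`). In `cvc w j F` one may replace `F` by an a.e. equal
function (`mp_upd`). Then `LocM.m0`, `m1`, `m2` with `s = 8 t`. `card (Fin N) = N`.
-/

set_option autoImplicit false
set_option linter.unusedSectionVars false
set_option linter.unusedVariables false
open MeasureTheory Function Filter Topology Set ComplexConjugate

namespace Pool.Agent.Lib.MP_4952d6_mp.LB

lemma Loc_fc3_one (p : Fin 3 → ℤ) :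
    fc3 (fun _ : T3 => (((1 : ℝ) : ℝ) : ℂ)) p = ((pz p : ℝ) : ℂ) := by
  unfold fc3 pz
  by_cases hp : p = 0
  · subst hp
    rw [if_pos rfl]
    simp only [ch_zero, map_one, Complex.ofReal_one, mul_one, integral_const, probReal_univ,
      one_smul]
  · rw [if_neg hp]
    obtain ⟨s, hs⟩ := exists_ch_eq_neg_one hp
    have h1 := int_sub_right (fun x => conj (ch p x) * (((1 : ℝ) : ℝ) : ℂ)) s
    have h2 : (fun y => conj (ch p (y - s)) * (((1 : ℝ) : ℝ) : ℂ)) =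
        fun y => -(conj (ch p y) * (((1 : ℝ) : ℝ) : ℂ)) := by
      funext y
      rw [sub_eq_add_neg, ch_add_arg, ch_neg_arg, hs]
      simp
    simp only [h2] at h1
    rw [integral_neg] at h1
    have h3 := self_eq_neg.mp h1.symm
    rw [h3]
    simp

lemma perp_ae {N : ℕ} {ψ : (Fin N → T3) → ℂ} (hψ : MemLp ψ 2 (piN (Fin N))) (m : Fin N) :
    (perp m (hψ.toLp ψ) : (Fin N → T3) → ℂ) =ᵐ[piN (Fin N)] fun x => ψ x - avj m ψ x := by
  have h1 := S1_ker (w := fun _ => 1) (BM.const 1) bdm_pz Loc_fc3_one m (hψ.toLp ψ)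
  have h2 := Ker_cvc_congr (w := fun _ => 1) m hψ.coeFn_toLp
  have h3 := Lp.coeFn_sub (hψ.toLp ψ) (Pz m (hψ.toLp ψ))
  unfold perp
  filter_upwards [h1, h2, h3, hψ.coeFn_toLp] with x k1 k2 k3 k4
  rw [k3, Pi.sub_apply, k4]
  unfold Pz
  rw [k1, k2]
  unfold cvc avj
  simp only [Complex.ofReal_one, one_mul]

lemma QQ1_ae {N : ℕ} {t : ℝ} (ht : 0 < t) {ψ : (Fin N → T3) → ℂ} (hψ : MemLp ψ 2 (piN (Fin N)))
    (m : Fin N) :
    (QQ1 t m (hψ.toLp ψ) : (Fin N → T3) → ℂ)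
      =ᵐ[piN (Fin N)] fun x => ψ x - htj (t / 2) m ψ x := by
  have ht2 : 0 < t / 2 := by positivity
  have h1 := S1_ker (w := hk (t / 2)) (hk_bm ht2) (bdm_et ht.le) (fun p => fc3_hk ht2 p) m (hψ.toLp ψ)
  have h2 := Ker_cvc_congr (w := hk (t / 2)) m hψ.coeFn_toLp
  have h3 := Lp.coeFn_sub (hψ.toLp ψ) (PP1 t m (hψ.toLp ψ))
  have h5 : QQ1 t m (hψ.toLp ψ) = hψ.toLp ψ - PP1 t m (hψ.toLp ψ) := by
    rw [eq_sub_iff_add_eq, add_comm]
    exact PP1_add_QQ1 ht.le m _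
  rw [h5]
  filter_upwards [h1, h2, h3, hψ.coeFn_toLp] with x k1 k2 k3 k4
  rw [k3, Pi.sub_apply, k4]
  unfold PP1
  rw [k1, k2]
  rfl

theorem loc_cw {N : ℕ} {C Y t : ℝ} (ht : 0 < t) {ψ : (Fin N → T3) → ℂ}
    (hψ : MemLp ψ 2 (piN (Fin N))) (hL : LocM C Y t ψ) :
    (∑ m, cw (8 * t) m (perp m (hψ.toLp ψ)) ≤ C * N ^ 3 * Y ^ ((19 : ℝ) / 20)) ∧
    (∑ m, cw (8 * t) m (QQ1 t m (hψ.toLp ψ)) ≤ C * N ^ 3 * Y ^ ((19 : ℝ) / 20)) ∧
    (∑ m, qf (crowd (8 * t) m) (hψ.toLp ψ) ≤ C * N ^ 2) := by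
  have e1 : t / 8 ≤ 8 * t := by linarith
  have m0 := hL.m0 (8 * t) e1 le_rfl
  have m1 := hL.m1 (8 * t) e1 le_rfl
  have m2 := hL.m2 (8 * t) e1 le_rfl
  rw [Fintype.card_fin] at m0 m1 m2
  refine ⟨le_trans (le_of_eq (Finset.sum_congr rfl fun m _ => ?_)) m1,
    le_trans (le_of_eq (Finset.sum_congr rfl fun m _ => ?_)) m2,
    le_trans (le_of_eq (Finset.sum_congr rfl fun m _ => ?_)) m0⟩
  · unfold cw qf
    refine integral_congr_ae ?_
    filter_upwards [perp_ae hψ m] with x hx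
    rw [hx, mul_comm]
  · unfold cw qf
    refine integral_congr_ae ?_
    filter_upwards [QQ1_ae ht hψ m] with x hx
    rw [hx, mul_comm]
  · unfold qf
    refine integral_congr_ae ?_
    filter_upwards [hψ.coeFn_toLp] with x hx
    rw [hx, mul_comm]

/-- The depletion of `Lib` in operator form. -/
lemma nuQ_toLp {N : ℕ} {ψ : (Fin N → T3) → ℂ} (hψ : MemLp ψ 2 (piN (Fin N))) (i : Fin N) :
    nuQ (fc ψ) i = ‖perp i (hψ.toLp ψ)‖ ^ 2 := by
  rw [← (hasSum_norm_sq (perp i (hψ.toLp ψ))).tsum_eq]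
  unfold nuQ
  refine tsum_congr fun k => ?_
  rw [perp_eq_S1, cf_S1 (alg_bdm_one_sub bdm_pz), cf_toLp hψ]
  unfold pz
  by_cases hk : k i = 0
  · rw [if_neg (not_not.2 hk), if_pos hk]
    simp
  · rw [if_pos hk, if_neg hk]
    simp

lemma norm_toLp_one {N : ℕ} {ψ : (Fin N → T3) → ℂ} (hψ : MemLp ψ 2 (piN (Fin N)))
    (h1 : ∫ x, ‖ψ x‖ ^ 2 ∂(piN (Fin N)) = 1) : ‖hψ.toLp ψ‖ = 1 := by
  have h2 : ‖hψ.toLp ψ‖ ^ 2 = 1 := by
    rw [norm_sq_eq]
    refine Eq.trans (integral_congr_ae ?_) h1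
    filter_upwards [hψ.coeFn_toLp] with x hx
    rw [hx]
  have h3 := norm_nonneg (hψ.toLp ψ)
  nlinarith

end Pool.Agent.Lib.MP_4952d6_mp.LB

end

/-! ### U.U7B -/

section

/-!
# U7B: (U7.1), local comparison of `u_l` with `a_u s_b`

`u_l(x) - a_u s_b(|x|) = 4π a_u ∫_t^∞ [(mh(s/l²) - 1) γ_s(|x|) + mh(s/l²) (p_s(x) - γ_s(|x|))] ds`.
(i) `|γ_s(r) - γ_s(0)| ≤ γ_s(0) r²/(4s) ≤ r² s^{-5/2}`, `|mh(s/l²) - 1| ≤ min(1, K² s/l²)`, so the first part changes between `r` and `0` by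
`≤ 4π a_u r² (K²/l²) ∫_t^∞ s^{-3/2} ds = 8π a_u r² K²/(l² √t)`; with `r ≤ b`: `a b²/(l² √t) = q^319`-type: `a · a²/q^160 · q^400/a² · q^79/a = q^319`.
(ii) `|p_s(x) - γ_s(|x|)| ≤ C` for all `s > 0`, `|x| ≤ 1/4` (`hk_sub_gam_le` for `s ≤ 1`; `p_s, γ_s` bounded for `s ≥ 1`), so the second part is
`≤ 4π a_u C ∫ exp(-κ² s/l²) ds ≤ C a l²/κ² ≤ C a ≤ C q^1000`.
`c_0`: the same at `x = 0`: first part `≤ 4π a_u ∫_0^∞ min(1, K² s/l²) s^{-3/2} ds ≤ C a/l = C q^200`.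
-/

set_option autoImplicit false
set_option linter.unusedSectionVars false
set_option linter.unusedVariables false
open MeasureTheory Function Filter Topology Set
open scoped ENNReal

namespace Pool.Agent.Lib.MP_4952d6_mp

private lemma U7B_pi_mul {s : ℝ} (hs : 0 ≤ s) : s ≤ Real.pi * s := by
  nlinarith only [Real.pi_gt_three, hs]

private lemma U7B_four_pi {s : ℝ} (hs : 0 ≤ s) : s ≤ 4 * Real.pi * s := by
  nlinarith only [Real.pi_gt_three, hs]

theorem U7B_hg : ∃ C : ℝ, 0 ≤ C ∧ ∀ s : ℝ, 0 < s → ∀ x : T3, rr x ≤ 1 / 4 →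
    0 ≤ hk s x - gam s (rr x) ∧ hk s x - gam s (rr x) ≤ C := by
  obtain ⟨C, hC0, hC⟩ := hk_sub_gam_le
  refine ⟨C + 8, by linarith, fun s hs x hx => ⟨sub_nonneg.2 (gam_le_hk hs x), ?_⟩⟩
  rcases le_total s 1 with h1 | h1
  · have h2 := hC s hs h1 x hx
    have h3 : Real.exp (-(1 / (32 * s))) ≤ 1 := by
      rw [Real.exp_le_one_iff]
      have : 0 ≤ 1 / (32 * s) := by positivity
      linarith
    linarith only [mul_le_mul_of_nonneg_left h3 hC0, h2]
  · have h2 := hk_le hs x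
    have h4 : (Real.sqrt (4 * Real.pi * s))⁻¹ ≤ 1 := by
      apply inv_le_one_of_one_le₀
      rw [Real.one_le_sqrt]
      exact h1.trans (U7B_four_pi hs.le)
    have h5 : (1 + (Real.sqrt (4 * Real.pi * s))⁻¹) ^ 3 ≤ (1 + 1) ^ 3 := by
      gcongr
    have h6 := gam_nonneg s (rr x)
    linarith

theorem U7B_gam_zero (s : ℝ) : gam s 0 = (Real.sqrt (4 * Real.pi * s))⁻¹ ^ 3 := by
  unfold gam
  simp

theorem U7B_gam_sub {s r : ℝ} (hs : 0 < s) :
    0 ≤ gam s 0 - gam s r ∧ gam s 0 - gam s r ≤ gam s 0 * (r ^ 2 / (4 * s)) := by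
  have h0 : 0 ≤ gam s 0 := gam_nonneg s 0
  have e1 : gam s r = gam s 0 * Real.exp (-(r ^ 2 / (4 * s))) := by
    rw [U7B_gam_zero]
    unfold gam
    rw [neg_div]
  have h1 : 0 ≤ r ^ 2 / (4 * s) := by positivity
  have h2 : Real.exp (-(r ^ 2 / (4 * s))) ≤ 1 := by
    rw [Real.exp_le_one_iff]
    linarith
  have h3 := Real.one_sub_le_exp_neg (r ^ 2 / (4 * s))
  rw [e1]
  constructor
  · linarith only [mul_le_mul_of_nonneg_left h2 h0]
  · linarith only [mul_le_mul_of_nonneg_left h3 h0]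

theorem U7B_gam_le {s r : ℝ} (hs : 0 < s) : gam s r ≤ gam s 0 := by
  have := (U7B_gam_sub (r := r) hs).1
  linarith

theorem U7B_meas (r : ℝ) : Measurable (fun s => gam s r) := by
  unfold gam
  have h1 : Measurable (fun s : ℝ => Real.sqrt (4 * Real.pi * s)) :=
    (Real.continuous_sqrt.comp (continuous_const.mul continuous_id)).measurable
  have h2 : Measurable (fun s : ℝ => -r ^ 2 / (4 * s)) :=
    measurable_const.div (measurable_const.mul measurable_id)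
  exact (h1.inv.pow_const 3).mul (Real.measurable_exp.comp h2)

theorem U7B_gam_int {t : ℝ} (ht : 0 < t) (r : ℝ) : IntegrableOn (fun s => gam s r) (Ioi t) := by
  have h1 := (gam_zero_integral ht).1
  refine Integrable.mono' h1 (U7B_meas r).aestronglyMeasurable ?_
  refine (ae_restrict_iff' measurableSet_Ioi).2 (Eventually.of_forall fun s hs => ?_)
  rw [Real.norm_eq_abs, abs_of_nonneg (gam_nonneg s r)]
  exact U7B_gam_le (ht.trans hs)

theorem U7B_rr_zero : rr (0 : T3) = 0 := by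
  have h1 := rr_sq (0 : T3)
  have h2 : ∀ α, crd (0 : T3) α = 0 := fun α => by
    have h3 := abs_crd (0 : T3) α
    rw [Pi.zero_apply, norm_zero] at h3
    exact abs_eq_zero.1 h3
  simp only [h2] at h1
  have h4 : rr (0 : T3) ^ 2 = 0 := by
    rw [h1]
    simp
  exact (pow_eq_zero_iff two_ne_zero).1 h4

/-- pointwise estimate of the difference of the integrands at `x` and `0` -/
theorem U7B_point {κ l s C m : ℝ} (hs : 0 < s) (hC0 : 0 ≤ C) {x : T3}
    (hx : 0 ≤ hk s x - gam s (rr x) ∧ hk s x - gam s (rr x) ≤ C)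
    (h0 : 0 ≤ hk s 0 - gam s 0 ∧ hk s 0 - gam s 0 ≤ C) (hm0 : 0 ≤ m)
    (hm1 : m ≤ Real.exp (-(κ ^ 2 / l ^ 2) * s)) (hm2 : m ≤ 1) (hm3 : 1 - m ≤ K2 κ * (s / l ^ 2)) :
    |(m * hk s x - gam s (rr x)) - (m * hk s 0 - gam s 0)|
      ≤ C * Real.exp (-(κ ^ 2 / l ^ 2) * s) + K2 κ * (rr x ^ 2 / (4 * l ^ 2)) * gam s 0 := by
  have hg := U7B_gam_sub (r := rr x) hs
  have hg0 : 0 ≤ gam s 0 := gam_nonneg s 0
  have e1 : (m * hk s x - gam s (rr x)) - (m * hk s 0 - gam s 0)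
      = m * ((hk s x - gam s (rr x)) - (hk s 0 - gam s 0))
        + (1 - m) * (gam s 0 - gam s (rr x)) := by ring
  rw [e1]
  refine (abs_add_le _ _).trans (add_le_add ?_ ?_)
  · rw [abs_mul, abs_of_nonneg hm0]
    have h1 : |(hk s x - gam s (rr x)) - (hk s 0 - gam s 0)| ≤ C := by
      rw [abs_le]
      constructor <;> linarith [hx.1, hx.2, h0.1, h0.2]
    calc m * |(hk s x - gam s (rr x)) - (hk s 0 - gam s 0)|
        ≤ Real.exp (-(κ ^ 2 / l ^ 2) * s) * C :=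
          mul_le_mul hm1 h1 (abs_nonneg _) (Real.exp_nonneg _)
      _ = C * Real.exp (-(κ ^ 2 / l ^ 2) * s) := mul_comm _ _
  · rw [abs_mul, abs_of_nonneg (sub_nonneg.2 hm2), abs_of_nonneg hg.1]
    have h2 : 0 ≤ K2 κ * (s / l ^ 2) := le_trans (sub_nonneg.2 hm2) hm3
    calc (1 - m) * (gam s 0 - gam s (rr x))
        ≤ (K2 κ * (s / l ^ 2)) * (gam s 0 * (rr x ^ 2 / (4 * s))) :=
          mul_le_mul hm3 hg.2 hg.1 h2
      _ = K2 κ * (rr x ^ 2 / (4 * l ^ 2)) * gam s 0 := by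
          rcases eq_or_ne l 0 with hl | hl
          · subst hl
            simp
          · field_simp

/-- pointwise estimate at `0` -/
theorem U7B_point0 {κ l s C m : ℝ} (hs : 0 < s) (hC0 : 0 ≤ C)
    (h0 : 0 ≤ hk s 0 - gam s 0 ∧ hk s 0 - gam s 0 ≤ C) (hm0 : 0 ≤ m)
    (hm1 : m ≤ Real.exp (-(κ ^ 2 / l ^ 2) * s)) (hm2 : m ≤ 1) :
    |m * hk s 0 - gam s 0|
      ≤ C * Real.exp (-(κ ^ 2 / l ^ 2) * s) + (1 - m) * gam s 0 := by
  have hg0 : 0 ≤ gam s 0 := gam_nonneg s 0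
  have e1 : m * hk s 0 - gam s 0 = m * (hk s 0 - gam s 0) - (1 - m) * gam s 0 := by ring
  rw [e1]
  refine (abs_sub _ _).trans (add_le_add ?_ ?_)
  · rw [abs_of_nonneg (mul_nonneg hm0 h0.1)]
    calc m * (hk s 0 - gam s 0) ≤ Real.exp (-(κ ^ 2 / l ^ 2) * s) * C :=
          mul_le_mul hm1 h0.2 h0.1 (Real.exp_nonneg _)
      _ = C * Real.exp (-(κ ^ 2 / l ^ 2) * s) := mul_comm _ _
  · rw [abs_of_nonneg (mul_nonneg (sub_nonneg.2 hm2) hg0)]

theorem U7B_exp {c t : ℝ} (hc : 0 < c) (ht : 0 < t) :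
    IntegrableOn (fun s => Real.exp (-c * s)) (Ioi t) ∧ ∫ s in Ioi t, Real.exp (-c * s) ≤ 1 / c := by
  have hc' : -c < 0 := by linarith
  refine ⟨integrableOn_exp_mul_Ioi hc' t, ?_⟩
  rw [integral_exp_mul_Ioi hc' t]
  have h1 : Real.exp (-c * t) ≤ 1 := by
    rw [Real.exp_le_one_iff]
    linarith only [mul_pos hc ht]
  rw [neg_div_neg_eq]
  gcongr

/-- `∫_t^∞ (1 - m) γ_s(0) ds` -/
theorem U7B_int_one_sub {κ l t : ℝ} (hl : 0 < l) (ht : 0 < t) (htl : t ≤ l ^ 2) {m : ℝ → ℝ}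
    (hm : Measurable m) (hm0 : ∀ s, t < s → 0 ≤ m s) (hm2 : ∀ s, t < s → m s ≤ 1)
    (hm3 : ∀ s, t < s → 1 - m s ≤ K2 κ * (s / l ^ 2)) :
    IntegrableOn (fun s => (1 - m s) * gam s 0) (Ioi t) ∧
    ∫ s in Ioi t, (1 - m s) * gam s 0 ≤ (2 * K2 κ + 1) / l := by
  have hK : 0 ≤ K2 κ := by
    unfold K2
    positivity
  have hI : IntegrableOn (fun s => (1 - m s) * gam s 0) (Ioi t) := by
    refine Integrable.mono' (gam_zero_integral ht).1
      ((measurable_const.sub hm).mul (U7B_meas 0)).aestronglyMeasurable ?_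
    refine (ae_restrict_iff' measurableSet_Ioi).2 (Eventually.of_forall fun s hs => ?_)
    have h1 := hm0 s hs
    have h2 := hm2 s hs
    have hg := gam_nonneg s 0
    rw [Real.norm_eq_abs, abs_of_nonneg (mul_nonneg (by linarith only [h2]) hg)]
    linarith only [mul_nonneg h1 hg]
  refine ⟨hI, ?_⟩
  have hL : 0 < l ^ 2 := by positivity
  have hunion : Ioi t = Ioc t (l ^ 2) ∪ Ioi (l ^ 2) := (Ioc_union_Ioi_eq_Ioi htl).symm
  rw [hunion, setIntegral_union (Set.Ioc_disjoint_Ioi le_rfl) measurableSet_Ioi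
    (hI.mono_set (by rw [hunion]; exact subset_union_left))
    (hI.mono_set (by rw [hunion]; exact subset_union_right))]
  have hA : ∫ s in Ioc t (l ^ 2), (1 - m s) * gam s 0 ≤ 2 * K2 κ / l := by
    have hrI : IntervalIntegrable (fun s : ℝ => s ^ (-(1/2) : ℝ)) volume t (l ^ 2) :=
      intervalIntegral.intervalIntegrable_rpow' (by norm_num)
    have hrI' : IntegrableOn (fun s : ℝ => K2 κ / l ^ 2 * s ^ (-(1/2) : ℝ)) (Ioc t (l ^ 2)) :=
      ((intervalIntegrable_iff_integrableOn_Ioc_of_le htl).1 hrI).const_mul _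
    calc ∫ s in Ioc t (l ^ 2), (1 - m s) * gam s 0
        ≤ ∫ s in Ioc t (l ^ 2), K2 κ / l ^ 2 * s ^ (-(1/2) : ℝ) := by
          refine setIntegral_mono_on (hI.mono_set (by rw [hunion]; exact subset_union_left))
            hrI' measurableSet_Ioc fun s hs => ?_
          have hs0 : 0 < s := ht.trans hs.1
          have h1 := hm3 s hs.1
          have hg := gam_nonneg s 0
          have hg2 : gam s 0 ≤ s ^ (-(3/2) : ℝ) := by
            rw [U7B_gam_zero]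
            have e1 : s ^ (-(3/2) : ℝ) = (Real.sqrt s)⁻¹ ^ 3 := by
              rw [Real.sqrt_eq_rpow, ← Real.rpow_neg hs0.le, ← Real.rpow_natCast,
                ← Real.rpow_mul hs0.le]
              norm_num
            rw [e1]
            have h2 : Real.sqrt s ≤ Real.sqrt (4 * Real.pi * s) := by
              apply Real.sqrt_le_sqrt
              exact U7B_four_pi hs0.le
            have h3 : 0 < Real.sqrt s := Real.sqrt_pos.2 hs0
            gcongr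
          have e2 : s * s ^ (-(3/2) : ℝ) = s ^ (-(1/2) : ℝ) := by
            rw [mul_comm, ← Real.rpow_add_one hs0.ne']
            norm_num
          calc (1 - m s) * gam s 0 ≤ (K2 κ * (s / l ^ 2)) * s ^ (-(3/2) : ℝ) := by
                refine mul_le_mul h1 hg2 hg ?_
                positivity
            _ = K2 κ / l ^ 2 * (s * s ^ (-(3/2) : ℝ)) := by ring
            _ = K2 κ / l ^ 2 * s ^ (-(1/2) : ℝ) := by rw [e2]
      _ = K2 κ / l ^ 2 * ∫ s in t..(l ^ 2), s ^ (-(1/2) : ℝ) := by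
          rw [integral_const_mul, intervalIntegral.integral_of_le htl]
      _ ≤ K2 κ / l ^ 2 * (2 * l) := by
          refine mul_le_mul_of_nonneg_left ?_ (by positivity)
          rw [integral_rpow (Or.inl (by norm_num))]
          have e3 : (-(1/2) : ℝ) + 1 = 1/2 := by norm_num
          rw [e3, ← Real.sqrt_eq_rpow, ← Real.sqrt_eq_rpow, Real.sqrt_sq hl.le]
          have := Real.sqrt_nonneg t
          linarith
      _ = 2 * K2 κ / l := by
          field_simp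
  have hB : ∫ s in Ioi (l ^ 2), (1 - m s) * gam s 0 ≤ 1 / l := by
    calc ∫ s in Ioi (l ^ 2), (1 - m s) * gam s 0 ≤ ∫ s in Ioi (l ^ 2), gam s 0 := by
          refine setIntegral_mono_on (hI.mono_set (by rw [hunion]; exact subset_union_right))
            (gam_zero_integral hL).1 measurableSet_Ioi fun s hs => ?_
          have hs1 : t < s := lt_of_le_of_lt htl hs
          have h1 := hm0 s hs1
          have hg := gam_nonneg s 0
          linarith only [mul_nonneg h1 hg]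
      _ = 1 / (4 * Real.pi * Real.sqrt (Real.pi * l ^ 2)) := (gam_zero_integral hL).2
      _ ≤ 1 / l := by
          have h1 : l ≤ Real.sqrt (Real.pi * l ^ 2) := by
            apply Real.le_sqrt_of_sq_le
            exact U7B_pi_mul (sq_nonneg l)
          have h2 : Real.sqrt (Real.pi * l ^ 2) ≤ 4 * Real.pi * Real.sqrt (Real.pi * l ^ 2) :=
            U7B_four_pi (Real.sqrt_nonneg _)
          exact one_div_le_one_div_of_le hl (h1.trans h2)
  calc _ ≤ 2 * K2 κ / l + 1 / l := add_le_add hA hB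
    _ = (2 * K2 κ + 1) / l := by ring

/-- the local potential as one integral -/
theorem U7B_rep {κ q a : ℝ} (hκ : 0 < κ) (hq : 0 < q) (hq1 : q ≤ 1 / 100) (ha : 0 < a) (x : T3) :
    IntegrableOn (fun s => mh κ (s / lq q a ^ 2) * hk s x - gam s (rr x)) (Ioi (tq q a)) ∧
    mix0 (omu κ q a) (tq q a) x - auq q a * sbf (tq q a) (rr x)
      = 4 * Real.pi * auq q a * ∫ s in Ioi (tq q a),
        (mh κ (s / lq q a ^ 2) * hk s x - gam s (rr x)) := by
  have ht := tq_pos hq ha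
  have hA : 0 < auq q a := by
    unfold auq
    have := one_le_alq hq hq1
    positivity
  have h1 := (mix_integrable (omu_ok hκ hq hq1 ha) x).1
  have hg := U7B_gam_int ht (rr x)
  have h2 : IntegrableOn (fun s => mh κ (s / lq q a ^ 2) * hk s x) (Ioi (tq q a)) := by
    have h3 := h1.const_mul (1 / (4 * Real.pi * auq q a))
    refine h3.congr (Eventually.of_forall fun s => ?_)
    unfold omu
    have hp := Real.pi_pos.ne'
    have hA' := hA.ne'
    dsimp only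
    field_simp
  refine ⟨h2.sub hg, ?_⟩
  rw [integral_sub h2 hg, mul_sub]
  congr 1
  · unfold mix0
    rw [← integral_const_mul]
    refine integral_congr_ae (Eventually.of_forall fun s => ?_)
    unfold omu
    dsimp only
    ring
  · unfold sbf
    ring

private lemma U7B_hal {q a : ℝ} (hq : 0 < q) (hq0 : q ≤ 1) (ha : 0 < a) (haq : a ≤ q ^ 1000) :
    a * lq q a ^ 2 ≤ q ^ 300 := by
  have e1 : a * lq q a ^ 2 = a ^ 3 / q ^ 400 := by
    unfold lq
    field_simp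
  rw [e1, div_le_iff₀ (pow_pos hq _)]
  calc a ^ 3 ≤ (q ^ 1000) ^ 3 := pow_le_pow_left₀ ha.le haq 3
    _ = q ^ 3000 := by rw [← pow_mul]
    _ ≤ q ^ 700 := pow_le_pow_of_le_one hq.le hq0 (by norm_num)
    _ = q ^ 300 * q ^ 400 := by rw [← pow_add]

private lemma U7B_hal2 {q a : ℝ} (hq : 0 < q) (ha : 0 < a) : a / lq q a = q ^ 200 := by
  unfold lq
  field_simp

private lemma U7B_hbt {q a : ℝ} (hq : 0 < q) (ha : 0 < a) :
    a * (bq q a ^ 2 / lq q a ^ 2 / Real.sqrt (tq q a)) = q ^ 319 := by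
  rw [sqrt_tq hq ha]
  unfold bq lq
  field_simp

private lemma U7B_hb4 {q a : ℝ} (hq : 0 < q) (hq1 : q ≤ 1 / 100) (haq : a ≤ q ^ 1000) :
    bq q a ≤ 1 / 4 := by
  have hq0 : q ≤ 1 := hq1.trans (by norm_num)
  unfold bq
  rw [div_le_iff₀ (pow_pos hq _)]
  calc a ≤ q ^ 1000 := haq
    _ ≤ q ^ 81 := pow_le_pow_of_le_one hq.le hq0 (by norm_num)
    _ = q * q ^ 80 := by rw [← pow_succ']
    _ ≤ 1 / 4 * q ^ 80 := by
        have : q ≤ 1 / 4 := hq1.trans (by norm_num)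
        exact mul_le_mul_of_nonneg_right this (pow_pos hq _).le

private lemma U7B_htl {q a : ℝ} (hq : 0 < q) (hq0 : q ≤ 1) (ha : 0 < a) : tq q a ≤ lq q a ^ 2 := by
  unfold tq lq
  rw [div_pow, div_pow, ← pow_mul, ← pow_mul]
  apply div_le_div_of_nonneg_left (sq_nonneg a) (pow_pos hq _)
  exact pow_le_pow_of_le_one hq.le hq0 (by norm_num)

private lemma U7B_lq_pos {q a : ℝ} (hq : 0 < q) (ha : 0 < a) : 0 < lq q a := by
  unfold lq
  positivity

private lemma U7B_auq_pos {q a : ℝ} (hq : 0 < q) (hq1 : q ≤ 1 / 100) (ha : 0 < a) :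
    0 < auq q a := by
  have hA1 := one_le_alq hq hq1
  unfold auq
  positivity

private lemma U7B_auq_le {q a : ℝ} (hq : 0 < q) (hq1 : q ≤ 1 / 100) (ha : 0 < a) :
    auq q a ≤ 2 * a := by
  have hA2 := alq_le_two hq hq1
  unfold auq
  nlinarith only [mul_le_mul_of_nonneg_left hA2 ha.le]

private lemma U7B_m1 {κ l : ℝ} (hl : 0 < l) {s : ℝ} (hs : 0 < s) :
    mh κ (s / l ^ 2) ≤ Real.exp (-(κ ^ 2 / l ^ 2) * s) := by
  have h1 : 0 ≤ s / l ^ 2 := div_nonneg hs.le (sq_nonneg l)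
  refine (mh_le h1).trans (le_of_eq ?_)
  congr 1
  ring

private lemma U7B_sc0 {p A a L Ck K X q : ℝ} (hp : 0 < p) (hA : 0 < A) (hA' : A ≤ 2 * a)
    (ha : 0 < a) (hL : 0 < L) (hCk : 0 ≤ Ck) (hK : 0 ≤ K) (hX0 : 0 ≤ X)
    (hX : X ≤ Ck * L ^ 2 + (2 * K + 1) / L) (h1 : a * L ^ 2 ≤ q) (h2 : a / L = q) :
    4 * p * A * X ≤ 8 * p * (Ck + 2 * K + 1) * q := by
  have h3 : 4 * p * A ≤ 4 * p * (2 * a) := mul_le_mul_of_nonneg_left hA' (by linarith only [hp])
  have h4 : 0 ≤ 4 * p * (2 * a) := by positivity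
  calc 4 * p * A * X ≤ 4 * p * (2 * a) * (Ck * L ^ 2 + (2 * K + 1) / L) :=
        mul_le_mul h3 hX hX0 h4
    _ = 8 * p * (Ck * (a * L ^ 2) + (2 * K + 1) * (a / L)) := by ring
    _ ≤ 8 * p * (Ck * q + (2 * K + 1) * q) := by
        rw [h2]
        refine mul_le_mul_of_nonneg_left ?_ (by linarith only [hp])
        linarith only [mul_le_mul_of_nonneg_left h1 hCk]
    _ = 8 * p * (Ck + 2 * K + 1) * q := by ring

private lemma U7B_sc1 {p A a L Ck K X Y q r : ℝ} (hp : 0 < p) (hA : 0 < A) (hA' : A ≤ 2 * a)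
    (ha : 0 < a) (hCk : 0 ≤ Ck) (hK : 0 ≤ K) (hX0 : 0 ≤ X)
    (hX : X ≤ Ck * L ^ 2 + K * Y) (h1 : a * L ^ 2 ≤ q) (h2 : a * Y = r) (h3 : r ≤ q)
    (hq : 0 ≤ q) : 4 * p * A * X ≤ 8 * p * (Ck + 2 * K + 1) * q := by
  have h4 : 4 * p * A ≤ 4 * p * (2 * a) := mul_le_mul_of_nonneg_left hA' (by linarith only [hp])
  have h5 : 0 ≤ 4 * p * (2 * a) := by positivity
  calc 4 * p * A * X ≤ 4 * p * (2 * a) * (Ck * L ^ 2 + K * Y) := mul_le_mul h4 hX hX0 h5
    _ = 8 * p * (Ck * (a * L ^ 2) + K * (a * Y)) := by ring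
    _ ≤ 8 * p * ((Ck + 2 * K + 1) * q) := by
        rw [h2]
        refine mul_le_mul_of_nonneg_left ?_ (by linarith only [hp])
        linarith only [mul_le_mul_of_nonneg_left h1 hCk, mul_le_mul_of_nonneg_left h3 hK,
          mul_nonneg hK hq, hq]
    _ = 8 * p * (Ck + 2 * K + 1) * q := by ring

private lemma U7B_sc2 {K r b L P t : ℝ} (hK : 0 ≤ K) (hr : 0 ≤ r) (hrb : r ≤ b) (hL : 0 < L)
    (ht : 0 < t) (hP : t ≤ P) :
    K * (r ^ 2 / (4 * L ^ 2)) * (1 / P) ≤ K * (b ^ 2 / L ^ 2 / t) := by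
  have hLL : 0 < L ^ 2 := pow_pos hL 2
  have h5 : 1 / P ≤ 1 / t := one_div_le_one_div_of_le ht hP
  have h6 : r ^ 2 / (4 * L ^ 2) ≤ b ^ 2 / L ^ 2 := by
    have h7 : r ^ 2 ≤ b ^ 2 := pow_le_pow_left₀ hr hrb 2
    calc r ^ 2 / (4 * L ^ 2) ≤ r ^ 2 / L ^ 2 :=
          div_le_div_of_nonneg_left (sq_nonneg r) hLL (by linarith only [hLL])
      _ ≤ b ^ 2 / L ^ 2 := div_le_div_of_nonneg_right h7 hLL.le
  calc K * (r ^ 2 / (4 * L ^ 2)) * (1 / P) ≤ K * (b ^ 2 / L ^ 2) * (1 / t) :=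
        mul_le_mul (mul_le_mul_of_nonneg_left h6 hK) h5
          (div_nonneg zero_le_one (ht.le.trans hP))
          (mul_nonneg hK (div_nonneg (sq_nonneg _) (sq_nonneg _)))
    _ = K * (b ^ 2 / L ^ 2 / t) := by ring

theorem ul_local {κ : ℝ} (hκ : 0 < κ) (hκ1 : κ ≤ 1) : ∃ C : ℝ, 0 ≤ C ∧
    ∀ q a : ℝ, 0 < q → q ≤ 1 / 100 → 0 < a → a ≤ q ^ 1000 →
      |c0q κ q a| ≤ C * q ^ 200 ∧
      ∀ x : T3, rr x ≤ bq q a →
        |mix0 (omu κ q a) (tq q a) x - auq q a * sbf (tq q a) (rr x) - c0q κ q a|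
          ≤ C * q ^ 300 := by
  obtain ⟨C1, hC10, hC1⟩ := U7B_hg
  have hK : 0 ≤ K2 κ := by
    unfold K2
    positivity
  refine ⟨8 * Real.pi * (C1 / κ ^ 2 + 2 * K2 κ + 1), by positivity, fun q a hq hq1 ha haq => ?_⟩
  have hl : 0 < lq q a := U7B_lq_pos hq ha
  have ht := tq_pos hq ha
  have hq0 : q ≤ 1 := hq1.trans (by norm_num)
  have hA : 0 < auq q a := U7B_auq_pos hq hq1 ha
  have hA' : auq q a ≤ 2 * a := U7B_auq_le hq hq1 ha
  have hc : 0 < κ ^ 2 / lq q a ^ 2 := div_pos (pow_pos hκ 2) (pow_pos hl 2)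
  have hm0 : ∀ s, 0 ≤ mh κ (s / lq q a ^ 2) := fun s => mh_nonneg _ _
  have hm1 : ∀ s, 0 < s → mh κ (s / lq q a ^ 2) ≤ Real.exp (-(κ ^ 2 / lq q a ^ 2) * s) :=
    fun s hs => U7B_m1 hl hs
  have hm2 : ∀ s, 0 < s → mh κ (s / lq q a ^ 2) ≤ 1 :=
    fun s hs => mh_le_one (div_nonneg hs.le (sq_nonneg _))
  have hm3 : ∀ s, 0 < s → 1 - mh κ (s / lq q a ^ 2) ≤ K2 κ * (s / lq q a ^ 2) := by
    intro s hs
    have h2 := mh_ge_one_sub (κ := κ) (div_nonneg hs.le (sq_nonneg (lq q a)))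
    linarith only [h2]
  have hmm : Measurable (fun s => mh κ (s / lq q a ^ 2)) :=
    (mh_continuous κ).measurable.comp (measurable_id.div_const _)
  -- elementary bounds of the parameters
  have hal : a * lq q a ^ 2 ≤ q ^ 300 := U7B_hal hq hq0 ha haq
  have hb4 : bq q a ≤ 1 / 4 := U7B_hb4 hq hq1 haq
  have hexp := U7B_exp hc ht
  have hrep0 := U7B_rep hκ hq hq1 ha (0 : T3)
  rw [U7B_rr_zero] at hrep0
  have hC1' : C1 * (1 / (κ ^ 2 / lq q a ^ 2)) = C1 / κ ^ 2 * lq q a ^ 2 := by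
    rw [one_div_div]
    ring
  have hpi := Real.pi_pos
  have hCk : 0 ≤ C1 / κ ^ 2 := div_nonneg hC10 (sq_nonneg κ)
  have h4A : 0 ≤ 4 * Real.pi * auq q a := mul_nonneg (by linarith only [hpi]) hA.le
  constructor
  · -- the constant
    have hI := U7B_int_one_sub (κ := κ) hl ht (U7B_htl hq hq0 ha) hmm (fun s _ => hm0 s)
      (fun s hs => hm2 s (ht.trans hs)) (fun s hs => hm3 s (ht.trans hs))
    have h1 : |∫ s in Ioi (tq q a), (mh κ (s / lq q a ^ 2) * hk s 0 - gam s 0)|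
        ≤ C1 / κ ^ 2 * lq q a ^ 2 + (2 * K2 κ + 1) / lq q a := by
      have h2 : ‖∫ s in Ioi (tq q a), (mh κ (s / lq q a ^ 2) * hk s 0 - gam s 0)‖
          ≤ ∫ s in Ioi (tq q a), (C1 * Real.exp (-(κ ^ 2 / lq q a ^ 2) * s)
            + (1 - mh κ (s / lq q a ^ 2)) * gam s 0) := by
        refine norm_integral_le_of_norm_le ((hexp.1.const_mul C1).add hI.1) ?_
        refine (ae_restrict_iff' measurableSet_Ioi).2 (Eventually.of_forall fun s hs => ?_)
        have hs0 : 0 < s := ht.trans hs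
        have h3 := hC1 s hs0 0 (by rw [U7B_rr_zero]; norm_num)
        rw [U7B_rr_zero] at h3
        rw [Real.norm_eq_abs]
        exact U7B_point0 hs0 hC10 h3 (hm0 s) (hm1 s hs0) (hm2 s hs0)
      rw [Real.norm_eq_abs, integral_add (hexp.1.const_mul C1) hI.1, integral_const_mul] at h2
      refine h2.trans (add_le_add ?_ hI.2)
      rw [← hC1']
      exact mul_le_mul_of_nonneg_left hexp.2 hC10
    unfold c0q
    rw [hrep0.2, abs_mul, abs_of_nonneg h4A]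
    exact U7B_sc0 hpi hA hA' ha hl hCk hK (abs_nonneg _) h1
      (hal.trans (pow_le_pow_of_le_one hq.le hq0 (by norm_num))) (U7B_hal2 hq ha)
  · intro x hx
    have hrepx := U7B_rep hκ hq hq1 ha x
    have hr := rr_nonneg x
    have hgI := (gam_zero_integral ht).1
    have h1 : |(∫ s in Ioi (tq q a), (mh κ (s / lq q a ^ 2) * hk s x - gam s (rr x)))
        - ∫ s in Ioi (tq q a), (mh κ (s / lq q a ^ 2) * hk s 0 - gam s 0)|
        ≤ C1 / κ ^ 2 * lq q a ^ 2 + K2 κ * (bq q a ^ 2 / lq q a ^ 2 / Real.sqrt (tq q a)) := by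
      rw [← integral_sub hrepx.1 hrep0.1]
      have h2 : ‖∫ s in Ioi (tq q a), ((mh κ (s / lq q a ^ 2) * hk s x - gam s (rr x))
          - (mh κ (s / lq q a ^ 2) * hk s 0 - gam s 0))‖
          ≤ ∫ s in Ioi (tq q a), (C1 * Real.exp (-(κ ^ 2 / lq q a ^ 2) * s)
            + K2 κ * (rr x ^ 2 / (4 * lq q a ^ 2)) * gam s 0) := by
        refine norm_integral_le_of_norm_le ((hexp.1.const_mul C1).add (hgI.const_mul _)) ?_
        refine (ae_restrict_iff' measurableSet_Ioi).2 (Eventually.of_forall fun s hs => ?_)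
        have hs0 : 0 < s := ht.trans hs
        have h3 := hC1 s hs0 0 (by rw [U7B_rr_zero]; norm_num)
        rw [U7B_rr_zero] at h3
        rw [Real.norm_eq_abs]
        exact U7B_point hs0 hC10 (hC1 s hs0 x (hx.trans hb4)) h3 (hm0 s) (hm1 s hs0) (hm2 s hs0)
          (hm3 s hs0)
      rw [Real.norm_eq_abs, integral_add (hexp.1.const_mul C1) (hgI.const_mul _),
        integral_const_mul, integral_const_mul, (gam_zero_integral ht).2] at h2
      refine h2.trans (add_le_add ?_ ?_)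
      · rw [← hC1']
        exact mul_le_mul_of_nonneg_left hexp.2 hC10
      · have hst : 0 < Real.sqrt (tq q a) := Real.sqrt_pos.2 ht
        have h4 : Real.sqrt (tq q a) ≤ Real.sqrt (Real.pi * tq q a) :=
          Real.sqrt_le_sqrt (U7B_pi_mul ht.le)
        exact U7B_sc2 hK hr hx hl hst (h4.trans (U7B_four_pi (Real.sqrt_nonneg _)))
    have e2 : mix0 (omu κ q a) (tq q a) x - auq q a * sbf (tq q a) (rr x) - c0q κ q a
        = 4 * Real.pi * auq q a
          * ((∫ s in Ioi (tq q a), (mh κ (s / lq q a ^ 2) * hk s x - gam s (rr x)))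
        - ∫ s in Ioi (tq q a), (mh κ (s / lq q a ^ 2) * hk s 0 - gam s 0)) := by
      unfold c0q
      rw [hrepx.2, hrep0.2]
      ring
    rw [e2, abs_mul, abs_of_nonneg h4A]
    exact U7B_sc1 hpi hA hA' ha hCk hK (abs_nonneg _) h1 hal (U7B_hbt hq ha)
      (pow_le_pow_of_le_one hq.le hq0 (by norm_num)) (pow_pos hq _).le

end Pool.Agent.Lib.MP_4952d6_mp

end

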