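import Pool.Agent.Lib.MP_4952d6_mp.Pk.G10
import Pool.Agent.Lib.MP_4952d6_mp.Pk.G33
import Pool.Agent.Lib.MP_4952d6_mp.Pk.G42

/-! Merged modules (to save import time): LB.ChgB, LB.ChgC, LB.ChgW, LB.ChgF. -/

/-! ### LB.ChgB -/

section

/-!
# LB.ChgB: the charge `h`, the potentials `w` and `U`, and the smeared charge `s` (definitions; facts on the charges)

`b = 1/4`. `e1` (Lib Charge) is the charge density times `r²`, `E r = ∫₀^r e1 ≤ a` the cumulative charge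
(`E_mono`, `E_small`, `E_eq`, `E_le_a`, `E_nonneg` there), `E = Q` for `r ≥ R₀`, `E = a` for `r ≥ R`.

* `hC_SR`: `|e1 t| ≤ C t²` (`e1_bd`); the integral: `integral_rad`, `sig_eq_four_pi`, `E R = a` (`E_eq`, `Q_out`), and `e1 t = 0` for
  `t ≥ R`; `rr_neg`.
* `hC_out`: outside of the core the shell term of `e1` vanishes.
* `sC_le`: `sm a (1/4) r / r² ≤ 3 a / (1/4)³ = 192 a`.
-/

set_option autoImplicit false
set_option linter.unusedSectionVars false
set_option linter.unusedVariables false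
open MeasureTheory Function Filter Topology Set ComplexConjugate

namespace Pool.Agent.Lib.MP_4952d6_mp.LB

/-- The charge. -/
noncomputable def hC (W : ℝ → ℝ) (R₀ δ : ℝ) (f Q : ℝ → ℝ) (z : T3) : ℝ :=
  2 * (e1 W R₀ δ f Q (rr z) / rr z ^ 2)

/-- The smeared charge. -/
noncomputable def sC (a : ℝ) (z : T3) : ℝ := 2 * (sm a (1 / 4) (rr z) / rr z ^ 2)

/-- Net density times `r²`. -/
noncomputable def gC (W : ℝ → ℝ) (R₀ δ : ℝ) (f Q : ℝ → ℝ) (a : ℝ) (t : ℝ) : ℝ :=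
  e1 W R₀ δ f Q t - sm a (1 / 4) t

/-- The profile of the screened potential. -/
noncomputable def uC (W : ℝ → ℝ) (R₀ δ : ℝ) (f Q : ℝ → ℝ) (a : ℝ) (r : ℝ) : ℝ :=
  2 * ∫ s in r..(1 / 4), flux (gC W R₀ δ f Q a) s / s ^ 2

/-- The profile of the potential (`r ≤ 1/4`). -/
noncomputable def wE (W : ℝ → ℝ) (R₀ δ : ℝ) (f Q : ℝ → ℝ) (a : ℝ) (r : ℝ) : ℝ :=
  4 * a + ∫ s in r..(1 / 4), (∫ t in (0:ℝ)..s, e1 W R₀ δ f Q t) / s ^ 2

variable {W : ℝ → ℝ} {R₀ R a : ℝ} {f Q : ℝ → ℝ} {δ : ℝ}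

lemma ChgB_e1_zero (h : Scat W R₀ R a f Q) {t : ℝ} (ht : R ≤ t) : e1 W R₀ δ f Q t = 0 := by
  have h0 := h.R₀_le
  unfold e1
  split_ifs with h1 h2
  · exfalso
    linarith [h2.2]
  · rw [h.W_zero t ht]
    ring
  · rfl

lemma ChgB_sm_le {a : ℝ} (ha : 0 < a) (t : ℝ) : 0 ≤ sm a (1 / 4) t / t ^ 2 ∧ sm a (1 / 4) t / t ^ 2 ≤ 192 * a := by
  have h0 := sm_nonneg ha.le (by norm_num : (0:ℝ) < 1 / 4) t
  refine ⟨div_nonneg h0 (sq_nonneg t), ?_⟩
  unfold sm
  split_ifs with h1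
  · have h2 : 0 < t ^ 2 := pow_pos h1.1 2
    rw [div_le_iff₀ h2]
    apply le_of_eq
    ring
  · rw [zero_div]
    positivity

/-- The charge is a short range charge of total mass `8 π a`. -/
theorem hC_SR (h : Scat W R₀ R a f Q) (hR : R ≤ 1 / 8) (hδ : 0 < δ) (hδ2 : 0 < R₀ → δ ≤ R₀ / 2) :
    SR (8 * Real.pi * a) R (hC W R₀ δ f Q) := by
  have hR0 := h.R_pos
  have hnn : ∀ z, 0 ≤ hC W R₀ δ f Q z := fun z =>
    mul_nonneg two_pos.le (div_nonneg (h.e1_nonneg hδ hδ2 _) (sq_nonneg _))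
  refine ⟨⟨?_, ?_⟩, hnn, fun z => ?_, fun z hz => ?_, ?_⟩
  · exact (((h.e1_meas hδ hδ2).comp rr_measurable).div (rr_measurable.pow_const 2)).const_mul 2
  · obtain ⟨C, hC0, hC'⟩ := h.e1_bd hδ hδ2
    refine ⟨2 * C, fun z => ?_⟩
    unfold hC
    rw [abs_mul, abs_of_pos (two_pos : (0:ℝ) < 2), abs_div, abs_of_nonneg (sq_nonneg (rr z))]
    refine mul_le_mul_of_nonneg_left ?_ two_pos.le
    rcases (sq_nonneg (rr z)).eq_or_lt with h0 | h0
    · rw [← h0, div_zero]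
      exact hC0
    · rw [div_le_iff₀ h0]
      exact hC' _
  · unfold hC
    rw [rr_neg]
  · unfold hC
    rw [ChgB_e1_zero h hz.le]
    simp
  · have h1 := integral_rad (φ := fun r => 2 * (e1 W R₀ δ f Q r / r ^ 2)) (fun r hr => by
      rw [ChgB_e1_zero h (by linarith)]
      simp)
    have h2 : ∫ r in Ioi (0:ℝ), r ^ 2 * (2 * (e1 W R₀ δ f Q r / r ^ 2)) = 2 * a := by
      have h3 : ∫ r in Ioi (0:ℝ), r ^ 2 * (2 * (e1 W R₀ δ f Q r / r ^ 2))
          = ∫ r in Ioi (0:ℝ), 2 * e1 W R₀ δ f Q r := by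
        refine setIntegral_congr_fun measurableSet_Ioi fun r hr => ?_
        have hr0 : r ≠ 0 := ne_of_gt hr
        show r ^ 2 * (2 * (e1 W R₀ δ f Q r / r ^ 2)) = 2 * e1 W R₀ δ f Q r
        field_simp
      rw [h3, integral_const_mul]
      have h4 : ∫ r in Ioi (0:ℝ), e1 W R₀ δ f Q r = ∫ r in Ioc (0:ℝ) R, e1 W R₀ δ f Q r := by
        refine setIntegral_eq_of_subset_of_forall_diff_eq_zero measurableSet_Ioi
          (fun r hr => hr.1) fun r hr => ?_
        refine ChgB_e1_zero h ?_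
        by_contra hlt
        push Not at hlt
        exact hr.2 ⟨hr.1, hlt.le⟩
      rw [h4, ← intervalIntegral.integral_of_le hR0.le, h.E_eq hδ hδ2 h.R₀_le, h.Q_out R le_rfl]
    rw [h2, sig_eq_four_pi] at h1
    unfold hC
    rw [h1]
    ring

lemma hC_out (h : Scat W R₀ R a f Q) (hδ : 0 < δ) (hδ2 : 0 < R₀ → δ ≤ R₀ / 2) {z : T3} (hz : R₀ ≤ rr z) (hz0 : 0 < rr z) :
    hC W R₀ δ f Q z = 2 * W (rr z) * f (rr z) := by
  unfold hC e1
  rw [if_pos hz0, if_neg (fun h1 => absurd h1.2 (not_lt.2 hz)), zero_add]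
  field_simp

lemma hC_zero {z : T3} (hz0 : rr z = 0) : hC W R₀ δ f Q z = 0 := by
  unfold hC e1
  rw [hz0, if_neg (lt_irrefl 0)]
  simp

lemma sC_bm {a : ℝ} (ha : 0 < a) : BM (sC a) := by
  refine ⟨?_, 384 * a, fun z => ?_⟩
  · exact (((sm_meas a (1 / 4)).comp rr_measurable).div (rr_measurable.pow_const 2)).const_mul 2
  · obtain ⟨h1, h2⟩ := ChgB_sm_le ha (rr z)
    unfold sC
    rw [abs_of_nonneg (by linarith)]
    linarith

lemma sC_nonneg {a : ℝ} (ha : 0 < a) (z : T3) : 0 ≤ sC a z := by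
  have h1 := (ChgB_sm_le ha (rr z)).1
  unfold sC
  linarith

lemma sC_le {a : ℝ} (ha : 0 < a) (z : T3) : |sC a z| ≤ 384 * a := by
  obtain ⟨h1, h2⟩ := ChgB_sm_le ha (rr z)
  unfold sC
  rw [abs_of_nonneg (by linarith)]
  linarith

end Pool.Agent.Lib.MP_4952d6_mp.LB

end

/-! ### LB.ChgC -/

section

/-!
# LB.ChgC: the potential equation in Fourier space

`uC_prof`: the integrand `v(s) = flux g s / s²` is bounded (`|flux g s| ≤ C s³/3`, zero for `s ≤ 0` and `s ≥ 1/4`) and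
continuous at every `s > 0`, so `uC` is Lipschitz and bounded, `uC' (r) = -2 v(r)` for `r > 0`
(`Dens.flux_cont`, `Dens.flux_le`, `Dens.flux_b`, `Dens.flux_nonpos`; `Scat.dens1` with `d = 1/4`).
`fc3_uC`: with `φ r = flux g r / r³`: `uC_prof.rad_WD α` and `WD.fourier`:
`-2 fc3 (φ crd α) = 2 π i p_α fc3 (uC)`; `Dens.fprof.fld_WD α` and `WD.fourier`: `fc3 (U'_α) = 2 π i p_α fc3 (φ crd α)`,
`∑ α U'_α = g / r²` (`sum_dir`, a.e.), `2 g/r² = hC - sC`; exactly as in the proof of `field_fourier` (Field.lean).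
-/

set_option autoImplicit false
set_option linter.unusedSectionVars false
set_option linter.unusedVariables false
open MeasureTheory Function Filter Topology Set ComplexConjugate

namespace Pool.Agent.Lib.MP_4952d6_mp.LB

variable {W : ℝ → ℝ} {R₀ R a : ℝ} {f Q : ℝ → ℝ} {δ : ℝ}

lemma gC_dens (h : Scat W R₀ R a f Q) (hR : R ≤ 1 / 8) (hδ : 0 < δ) (hδ2 : 0 < R₀ → δ ≤ R₀ / 2) :
    Dens (1 / 4) (gC W R₀ δ f Q a) :=
  h.dens1 hδ hδ2 (by linarith) (by norm_num)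

/-- The integrand is measurable and bounded, zero for `s ≤ 0` and `s ≥ b`, and continuous for `s > 0`. -/
lemma ChgC_v {b : ℝ} {g : ℝ → ℝ} (hD : Dens b g) : Measurable (fun s => flux g s / s ^ 2) ∧
    (∃ B, 0 ≤ B ∧ ∀ s, |flux g s / s ^ 2| ≤ B) ∧ (∀ s, s ≤ 0 → flux g s / s ^ 2 = 0) ∧
    (∀ s, b ≤ s → flux g s / s ^ 2 = 0) ∧ ∀ s, 0 < s → ContinuousAt (fun s => flux g s / s ^ 2) s := by
  obtain ⟨C, hC0, hC⟩ := hD.bd
  have hb := hD.b_pos
  have h0 : ∀ s, s ≤ 0 → flux g s / s ^ 2 = 0 := fun s hs => by rw [hD.flux_nonpos hs, zero_div]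
  have h1 : ∀ s, b ≤ s → flux g s / s ^ 2 = 0 := fun s hs => by rw [hD.flux_b hs, zero_div]
  refine ⟨hD.flux_cont.measurable.div (measurable_id.pow_const 2), ⟨C * b / 3, by positivity, fun s => ?_⟩, h0, h1,
    fun s hs => hD.flux_cont.continuousAt.div (continuousAt_id.pow 2) (pow_pos hs 2).ne'⟩
  rcases le_or_gt s 0 with hs | hs
  · rw [h0 s hs, abs_zero]; positivity
  · rcases le_or_gt b s with hs' | hs'
    · rw [h1 s hs', abs_zero]; positivity
    · rw [abs_div, abs_of_pos (pow_pos hs 2), div_le_iff₀ (pow_pos hs 2)]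
      refine (hD.flux_le hC0 hC hs.le).trans ?_
      have h2 : C * s ^ 2 * s ≤ C * s ^ 2 * b := mul_le_mul_of_nonneg_left hs'.le (by positivity)
      calc C * s ^ 3 / 3 = C * s ^ 2 * s / 3 := by ring
        _ ≤ C * s ^ 2 * b / 3 := by linarith
        _ = _ := by ring

lemma ChgC_int {b : ℝ} {g : ℝ → ℝ} (hD : Dens b g) (r s : ℝ) :
    IntervalIntegrable (fun s => flux g s / s ^ 2) volume r s := by
  obtain ⟨hm, ⟨B, hB0, hB⟩, -⟩ := ChgC_v hD
  refine (intervalIntegrable_const (c := B)).mono_fun hm.aestronglyMeasurable (Eventually.of_forall fun t => ?_)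
  exact (hB t).trans (le_abs_self B)

lemma ChgC_prof {b : ℝ} {g : ℝ → ℝ} (hD : Dens b g) :
    Prof b (fun r => 2 * ∫ s in r..b, flux g s / s ^ 2) (fun r => -2 * (flux g r / r ^ 3)) := by
  obtain ⟨hm, ⟨B, hB0, hB⟩, h0, h1, hc⟩ := ChgC_v hD
  have hb := hD.b_pos
  have hsub : ∀ r s : ℝ, (∫ t in r..b, flux g t / t ^ 2) - ∫ t in s..b, flux g t / t ^ 2 = ∫ t in r..s, flux g t / t ^ 2 := by
    intro r s
    have := intervalIntegral.integral_add_adjacent_intervals (ChgC_int hD r s) (ChgC_int hD s b)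
    linarith
  have hle : ∀ r s : ℝ, |∫ t in r..s, flux g t / t ^ 2| ≤ B * |s - r| := by
    intro r s
    have := intervalIntegral.norm_integral_le_of_norm_le_const (a := r) (b := s) (C := B)
      (f := fun t => flux g t / t ^ 2) fun t _ => hB t
    exact this
  have hconst : ∀ r, b ≤ r → ∫ t in r..b, flux g t / t ^ 2 = 0 := by
    intro r hr
    rw [intervalIntegral.integral_congr (g := fun _ => (0:ℝ))]
    · simp
    · intro t ht
      rw [uIcc_of_ge hr] at ht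
      exact h1 t ht.1
  refine ⟨hD.b_lt, ⟨2 * B, fun r s => ?_⟩, ⟨2 * (B * b), fun r => ?_⟩, ?_, fun r hr => ?_, fun r hr => ?_⟩
  · rw [← mul_sub, hsub, abs_mul, abs_of_pos (by norm_num : (0:ℝ) < 2), mul_assoc]
    refine mul_le_mul_of_nonneg_left ?_ (by norm_num)
    rw [abs_sub_comm r s]
    exact hle r s
  · rw [abs_mul, abs_of_pos (by norm_num : (0:ℝ) < 2)]
    refine mul_le_mul_of_nonneg_left ?_ (by norm_num)
    rcases le_or_gt b r with hr | hr
    · rw [hconst r hr, abs_zero]; positivity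
    · rcases le_or_gt 0 r with hr0 | hr0
      · refine (hle r b).trans (mul_le_mul_of_nonneg_left ?_ hB0)
        rw [abs_of_pos (by linarith)]
        linarith
      · have e : ∫ t in r..(0:ℝ), flux g t / t ^ 2 = 0 := by
          rw [intervalIntegral.integral_congr (g := fun _ => (0:ℝ))]
          · simp
          · intro t ht
            rw [uIcc_of_le hr0.le] at ht
            exact h0 t ht.2
        have e2 := hsub r 0
        rw [e] at e2
        rw [sub_eq_zero.1 e2]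
        refine (hle 0 b).trans (mul_le_mul_of_nonneg_left ?_ hB0)
        rw [abs_of_pos (by linarith)]
        linarith
  · refine Eventually.of_forall fun r hr => ?_
    have h2 := intervalIntegral.integral_hasDerivAt_left (ChgC_int hD r b)
      (hm.stronglyMeasurable.stronglyMeasurableAtFilter) (hc r hr)
    have h3 := h2.const_mul 2
    have e : 2 * -(flux g r / r ^ 2) = r * (-2 * (flux g r / r ^ 3)) := by
      have := hr.ne'
      field_simp
    rw [e] at h3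
    exact h3
  · rw [hD.flux_b hr, zero_div, mul_zero]
  · rw [hconst r hr, intervalIntegral.integral_same]

theorem uC_prof (h : Scat W R₀ R a f Q) (hR : R ≤ 1 / 8) (hδ : 0 < δ) (hδ2 : 0 < R₀ → δ ≤ R₀ / 2) :
    Prof (1 / 4) (uC W R₀ δ f Q a) (fun r => -2 * (flux (gC W R₀ δ f Q a) r / r ^ 3)) :=
  ChgC_prof (gC_dens h hR hδ hδ2)

lemma uC_bm (h : Scat W R₀ R a f Q) (hR : R ≤ 1 / 8) (hδ : 0 < δ) (hδ2 : 0 < R₀ → δ ≤ R₀ / 2) :
    BM (fun z : T3 => uC W R₀ δ f Q a (rr z)) :=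
  ⟨(uC_prof h hR hδ hδ2).continuous.measurable.comp rr_measurable, (uC_prof h hR hδ hδ2).bdd.imp fun C hC z => hC _⟩

lemma ChgC_fc3_mul (c : ℂ) (F : T3 → ℂ) (p : Fin 3 → ℤ) : fc3 (fun y => c * F y) p = c * fc3 F p := by
  unfold fc3
  rw [← integral_const_mul]
  congr 1; ext y; ring

theorem fc3_uC (h : Scat W R₀ R a f Q) (hR : R ≤ 1 / 8) (hδ : 0 < δ) (hδ2 : 0 < R₀ → δ ≤ R₀ / 2) (p : Fin 3 → ℤ) :
    ((ksq p : ℝ) : ℂ) * fc3 (fun z => (uC W R₀ δ f Q a (rr z) : ℂ)) p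
      = fc3 (fun z => (hC W R₀ δ f Q z : ℂ)) p - fc3 (fun z => (sC a z : ℂ)) p := by
  have hD := gC_dens h hR hδ hδ2
  have hP := uC_prof h hR hδ hδ2
  have hF := hD.fprof
  set g := gC W R₀ δ f Q a with hg
  set φ : ℝ → ℝ := fun r => flux g r / r ^ 3 with hφ
  set ψ : ℝ → ℝ := fun r => g r / r ^ 2 - 3 * (flux g r / r ^ 3) with hψ
  set U' : Fin 3 → T3 → ℝ := fun α x => ψ (rr x) * (crd x α / rr x) ^ 2 + φ (rr x) with hU'
  have bU' : ∀ α, BM (U' α) := fun α =>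
    ((JData.rr_bm hF.meas' hF.bdd').mul ((JData.dir_bm α).pow 2)).add (JData.rr_bm hF.meas hF.bdd)
  have e1 : fc3 (fun z => (hC W R₀ δ f Q z : ℂ)) p
      = ∑ α, fc3 (fun y => (2:ℂ) * (U' α y : ℂ)) p + fc3 (fun z => (sC a z : ℂ)) p := by
    rw [← fc3_sum _ (fun α _ => (bm_integrable_ofReal (bU' α)).const_mul 2), ← fc3_add
      (integrable_finsetSum _ fun α _ => (bm_integrable_ofReal (bU' α)).const_mul 2) (bm_integrable_ofReal (sC_bm h.a_pos))]
    unfold fc3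
    refine integral_congr_ae ?_
    filter_upwards [ae_rr_pos] with y hy0
    congr 1
    have e0 : hC W R₀ δ f Q y = 2 * (ψ (rr y) + 3 * φ (rr y)) + sC a y := by
      simp only [hψ, hφ, hg, hC, sC, gC]
      ring
    rw [e0, ← sum_dir _ _ hy0, ← Finset.mul_sum]
    push_cast
    simp only [hU']
    push_cast
    rfl
  have e2 : ∀ α, fc3 (fun y => (U' α y : ℂ)) p
      = 2 * Real.pi * Complex.I * (p α : ℝ) * fc3 (fun y => (fldc φ α y : ℂ)) p := by
    intro α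
    have hW := (hF.fld_WD α).ofReal
    exact hW.fourier (ch_continuous p).stronglyMeasurable (ch_norm p) (p α)
      (fun x t => ch_add_tau p α x t)
  have e3 : ∀ α, (-2:ℂ) * fc3 (fun y => (fldc φ α y : ℂ)) p
      = 2 * Real.pi * Complex.I * (p α : ℝ) * fc3 (fun z => (uC W R₀ δ f Q a (rr z) : ℂ)) p := by
    intro α
    have hW := (hP.rad_WD α).ofReal
    have h1 := hW.fourier (ch_continuous p).stronglyMeasurable (ch_norm p) (p α)
      (fun x t => ch_add_tau p α x t)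
    rw [← ChgC_fc3_mul]
    have e : (fun y : T3 => (-2:ℂ) * ((fldc φ α y : ℝ) : ℂ)) = fun y => ((-2 * (flux g (rr y) / rr y ^ 3) * crd y α : ℝ) : ℂ) := by
      funext y
      simp only [fldc, hφ]
      push_cast
      ring
    rw [e]
    exact h1
  rw [e1, add_sub_cancel_right]
  simp_rw [ChgC_fc3_mul, e2]
  have e4 : ∀ α, fc3 (fun y => (fldc φ α y : ℂ)) p = -(Real.pi * Complex.I * (p α : ℝ) * fc3 (fun z => (uC W R₀ δ f Q a (rr z) : ℂ)) p) := by
    intro α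
    have := e3 α
    linear_combination (-1 / 2 : ℂ) * this
  simp_rw [e4]
  unfold ksq mom2
  push_cast
  rw [Finset.mul_sum, Finset.sum_mul]
  refine Finset.sum_congr rfl fun α _ => ?_
  linear_combination (4 * (Real.pi : ℂ) ^ 2 * (p α : ℂ) ^ 2 * fc3 (fun z => (uC W R₀ δ f Q a (rr z) : ℂ)) p) * Complex.I_sq

end Pool.Agent.Lib.MP_4952d6_mp.LB

end

/-! ### LB.ChgW -/

section

/-!
# LB.ChgW: the potentials `wE` and `uC`

`b = 1/4`, `E r = ∫₀^r e1` the cumulative charge (Lib Charge: `e1_bd`, `e1_nonneg`, `E_mono`, `E_small`, `E_eq`, `E_le_a`, `E_nonneg`);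
`E = Q` for `r ≥ R₀`, `E = a` for `r ≥ R`. `wE r = a/b + ∫_r^b E(s)/s² ds` (`= ∫_r^∞ E/s²`).
`uC r = 2 ∫_r^b flux(g)(s)/s² ds`, `g = e1 - sm a b`, `flux g s = E s - a s³/b³` for `0 ≤ s ≤ b` (`flux1`),
`flux g = 0` for `s ≥ b` (`Dens.flux_b`; `dens1` with `d = 1/4`).

* `E_sq_int`: `0 ≤ E s ≤ C s³/3` for `s ≥ 0` (from `e1_bd`), `E` continuous.
* `wE_eq_one_sub`: `f' = Q/s²` on `(r, b)` off `R₀` (`f_deriv`), `f` Lipschitz, `f b = 1 - a/b` (`f_out`).
* `wE_core`: for `r ≤ R₀`: `wE r = wE R₀ + ∫_r^{R₀} E/s² ≤ 1 + (a/(R₀/2)²) δ` since `E = 0` on `[0, R₀ - δ]`, `E ≤ a`;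
  `f R₀ = 0` (`f_core`).
* `wE_le`: `E ≤ a`, so `∫_r^b E/s² ≤ a/r - a/b`.
* `uC_eq`: `∫_r^b s ds = (b² - r²)/2`.
* `uC_nonneg`: `r ≥ R`: `wE r = a/r` (`wE_eq_one_sub`, `f_out`), `uC r = 2a/r - 12 a + 64 a r² ≥ 0` (on `(0, 1/4]`: `2 - 12 r + 64 r³ = 2 (4r-1)² (2r+1) ≥ 0`);
  `r ≤ R`: `wE` is decreasing, `wE R = a/R ≥ 8 a`, so `uC r ≥ 16 a - 12 a ≥ 0`; `r ≥ b`: `0`.
-/

set_option autoImplicit false
set_option linter.unusedSectionVars false
set_option linter.unusedVariables false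
open MeasureTheory Function Filter Topology Set ComplexConjugate

namespace Pool.Agent.Lib.MP_4952d6_mp.LB

variable {W : ℝ → ℝ} {R₀ R a : ℝ} {f Q : ℝ → ℝ} {δ : ℝ}

lemma ChgW_E_cont (h : Scat W R₀ R a f Q) (hδ : 0 < δ) (hδ2 : 0 < R₀ → δ ≤ R₀ / 2) :
    Continuous (fun s => ∫ t in (0:ℝ)..s, e1 W R₀ δ f Q t) :=
  intervalIntegral.continuous_primitive (fun r s => h.e1_int hδ hδ2 r s) 0

lemma ChgW_E_bd (h : Scat W R₀ R a f Q) (hδ : 0 < δ) (hδ2 : 0 < R₀ → δ ≤ R₀ / 2) :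
    ∃ C, 0 ≤ C ∧ ∀ s, 0 ≤ s → ∫ t in (0:ℝ)..s, e1 W R₀ δ f Q t ≤ C * s ^ 3 := by
  obtain ⟨C, hC0, hC⟩ := h.e1_bd hδ hδ2
  refine ⟨C, hC0, fun s hs => ?_⟩
  have h1 : ∫ t in (0:ℝ)..s, e1 W R₀ δ f Q t ≤ ∫ t in (0:ℝ)..s, C * t ^ 2 := by
    refine intervalIntegral.integral_mono_on hs (h.e1_int hδ hδ2 0 s)
      (Continuous.intervalIntegrable (by fun_prop) _ _) fun t ht => ?_
    exact (le_abs_self _).trans (hC t)
  refine h1.trans ?_
  rw [intervalIntegral.integral_const_mul, integral_pow]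
  have : 0 ≤ C * s ^ 3 := by positivity
  push_cast
  have e : C * ((s ^ (2 + 1) - 0 ^ (2 + 1)) / (2 + 1)) = C * s ^ 3 / 3 := by ring
  rw [e]
  linarith

/-- integrability of the field of the inner charge -/
lemma E_sq_int (h : Scat W R₀ R a f Q) (hδ : 0 < δ) (hδ2 : 0 < R₀ → δ ≤ R₀ / 2) {r s : ℝ} (hr : 0 ≤ r) (hs : 0 ≤ s) :
    IntervalIntegrable (fun s => (∫ t in (0:ℝ)..s, e1 W R₀ δ f Q t) / s ^ 2) volume r s := by
  obtain ⟨C, hC0, hC⟩ := ChgW_E_bd h hδ hδ2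
  have hm : Measurable (fun s => (∫ t in (0:ℝ)..s, e1 W R₀ δ f Q t) / s ^ 2) :=
    (ChgW_E_cont h hδ hδ2).measurable.div (measurable_id.pow_const 2)
  have h1 : IntervalIntegrable (fun t : ℝ => C * t) volume r s :=
    Continuous.intervalIntegrable (by fun_prop) _ _
  refine h1.mono_fun hm.aestronglyMeasurable ?_
  refine (ae_restrict_iff' measurableSet_uIoc).2 (Eventually.of_forall fun t ht => ?_)
  have ht0 : 0 < t := by
    rw [mem_uIoc] at ht
    rcases ht with ht | ht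
    · exact hr.trans_lt ht.1
    · exact hs.trans_lt ht.1
  have hE := h.E_nonneg hδ hδ2 ht0.le
  dsimp only
  rw [Real.norm_eq_abs, Real.norm_eq_abs, abs_of_nonneg (by positivity), abs_of_nonneg (by positivity),
    div_le_iff₀ (by positivity)]
  exact (hC t ht0.le).trans (le_of_eq (by ring))

lemma ChgW_split (h : Scat W R₀ R a f Q) (hδ : 0 < δ) (hδ2 : 0 < R₀ → δ ≤ R₀ / 2) {r s : ℝ} (hr : 0 ≤ r)
    (hs : 0 ≤ s) : wE W R₀ δ f Q a r
      = (∫ u in r..s, (∫ t in (0:ℝ)..u, e1 W R₀ δ f Q t) / u ^ 2) + wE W R₀ δ f Q a s := by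
  unfold wE
  rw [← intervalIntegral.integral_add_adjacent_intervals (E_sq_int h hδ hδ2 hr hs)
    (E_sq_int h hδ hδ2 hs (by norm_num : (0:ℝ) ≤ 1 / 4))]
  ring

lemma ChgW_int_nonneg (h : Scat W R₀ R a f Q) (hδ : 0 < δ) (hδ2 : 0 < R₀ → δ ≤ R₀ / 2) {r s : ℝ} (hr : 0 ≤ r)
    (hrs : r ≤ s) : 0 ≤ ∫ u in r..s, (∫ t in (0:ℝ)..u, e1 W R₀ δ f Q t) / u ^ 2 :=
  intervalIntegral.integral_nonneg hrs fun u hu =>
    div_nonneg (h.E_nonneg hδ hδ2 (hr.trans hu.1)) (sq_nonneg _)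

theorem wE_eq_one_sub (h : Scat W R₀ R a f Q) (hR : R ≤ 1 / 8) (hδ : 0 < δ) (hδ2 : 0 < R₀ → δ ≤ R₀ / 2) {r : ℝ} (hr : R₀ ≤ r)
    (hr0 : 0 < r) (hr1 : r ≤ 1 / 4) : wE W R₀ δ f Q a r = 1 - f r := by
  have h1 : ∫ u in r..(1 / 4), (∫ t in (0:ℝ)..u, e1 W R₀ δ f Q t) / u ^ 2 = f (1 / 4) - f r := by
    refine intervalIntegral.integral_eq_sub_of_hasDerivAt_of_le hr1 h.f_cont.continuousOn
      (fun x hx => ?_) (E_sq_int h hδ hδ2 hr0.le (by norm_num))
    rw [h.E_eq hδ hδ2 (hr.trans hx.1.le)]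
    exact h.f_deriv x (hr0.trans hx.1) (ne_of_gt (hr.trans_lt hx.1))
  unfold wE
  rw [h1, h.f_out (1 / 4) (by linarith)]
  ring

theorem wE_core (h : Scat W R₀ R a f Q) (hR : R ≤ 1 / 8) (hδ : 0 < δ) (hδ2 : 0 < R₀ → δ ≤ R₀ / 2) {r : ℝ} (hr : 0 ≤ r)
    (hr1 : r < R₀) : wE W R₀ δ f Q a r ≤ 1 + 4 * a * δ / R₀ ^ 2 := by
  have hR0 : 0 < R₀ := hr.trans_lt hr1
  have ha := h.a_pos
  have hd := hδ2 hR0
  have hRR := h.R₀_le
  rw [ChgW_split h hδ hδ2 hr hR0.le, wE_eq_one_sub h hR hδ hδ2 le_rfl hR0 (by linarith),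
    h.f_core R₀ hR0 le_rfl]
  have key : ∀ u, R₀ - δ ≤ u → 0 ≤ u → u ≤ R₀ →
      ∫ s in u..R₀, (∫ t in (0:ℝ)..s, e1 W R₀ δ f Q t) / s ^ 2 ≤ 4 * a * δ / R₀ ^ 2 := by
    intro u hu hu0 hu1
    have h2 : ∫ s in u..R₀, (∫ t in (0:ℝ)..s, e1 W R₀ δ f Q t) / s ^ 2
        ≤ ∫ s in u..R₀, 4 * a / R₀ ^ 2 := by
      refine intervalIntegral.integral_mono_on hu1 (E_sq_int h hδ hδ2 hu0 hR0.le)
        intervalIntegrable_const fun s hs => ?_
      have hs0 : R₀ / 2 ≤ s := by linarith [hs.1]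
      have hs1 : 0 < s := by linarith
      have h3 := h.E_le_a hδ hδ2 s
      rw [div_le_div_iff₀ (by positivity) (by positivity)]
      have h4 : (R₀ / 2) ^ 2 ≤ s ^ 2 := pow_le_pow_left₀ (by linarith) hs0 2
      calc (∫ t in (0:ℝ)..s, e1 W R₀ δ f Q t) * R₀ ^ 2 ≤ a * R₀ ^ 2 :=
            mul_le_mul_of_nonneg_right h3 (sq_nonneg _)
        _ = 4 * a * (R₀ / 2) ^ 2 := by ring
        _ ≤ 4 * a * s ^ 2 := mul_le_mul_of_nonneg_left h4 (by positivity)
    refine h2.trans ?_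
    rw [intervalIntegral.integral_const, smul_eq_mul]
    have h5 : (R₀ - u) * (4 * a / R₀ ^ 2) ≤ δ * (4 * a / R₀ ^ 2) :=
      mul_le_mul_of_nonneg_right (by linarith) (by positivity)
    refine h5.trans (le_of_eq (by ring))
  rcases le_total (R₀ - δ) r with h6 | h6
  · have := key r h6 hr hr1.le
    linarith
  · have h7 : 0 ≤ R₀ - δ := by linarith
    rw [← intervalIntegral.integral_add_adjacent_intervals (E_sq_int h hδ hδ2 hr h7)
      (E_sq_int h hδ hδ2 h7 hR0.le)]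
    have h8 : ∫ s in r..(R₀ - δ), (∫ t in (0:ℝ)..s, e1 W R₀ δ f Q t) / s ^ 2 = 0 := by
      rw [intervalIntegral.integral_congr (g := fun _ => (0:ℝ))]
      · simp
      · intro s hs
        rw [uIcc_of_le h6] at hs
        dsimp only
        rw [h.E_small hδ hδ2 (hr.trans hs.1) hs.2, zero_div]
    have := key (R₀ - δ) le_rfl h7 (by linarith)
    rw [h8]
    linarith

lemma wE_nonneg (h : Scat W R₀ R a f Q) (hR : R ≤ 1 / 8) (hδ : 0 < δ) (hδ2 : 0 < R₀ → δ ≤ R₀ / 2) {r : ℝ} (hr : 0 ≤ r)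
    (hr1 : r ≤ 1 / 4) : 0 ≤ wE W R₀ δ f Q a r := by
  have ha := h.a_pos
  have := ChgW_int_nonneg h hδ hδ2 hr hr1
  unfold wE
  positivity

lemma wE_le (h : Scat W R₀ R a f Q) (hR : R ≤ 1 / 8) (hδ : 0 < δ) (hδ2 : 0 < R₀ → δ ≤ R₀ / 2) {r : ℝ} (hr : 0 < r)
    (hr1 : r ≤ 1 / 4) : wE W R₀ δ f Q a r ≤ a / r := by
  have ha := h.a_pos
  have hc : ContinuousOn (fun u : ℝ => a / u ^ 2) (Icc r (1 / 4)) := by
    refine ContinuousOn.div continuousOn_const (continuousOn_id.pow 2) fun u hu => ?_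
    have : 0 < u := hr.trans_le hu.1
    exact pow_ne_zero 2 this.ne'
  have hi : IntervalIntegrable (fun u : ℝ => a / u ^ 2) volume r (1 / 4) := by
    refine ContinuousOn.intervalIntegrable ?_
    rwa [uIcc_of_le hr1]
  have h1 : ∫ u in r..(1 / 4), (∫ t in (0:ℝ)..u, e1 W R₀ δ f Q t) / u ^ 2
      ≤ ∫ u in r..(1 / 4), a / u ^ 2 := by
    refine intervalIntegral.integral_mono_on hr1 (E_sq_int h hδ hδ2 hr.le (by norm_num)) hi
      fun u hu => ?_
    exact div_le_div_of_nonneg_right (h.E_le_a hδ hδ2 u) (sq_nonneg _)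
  have h2 : ∫ u in r..(1 / 4), a / u ^ 2 = -(a / (1 / 4)) - -(a / r) := by
    refine intervalIntegral.integral_eq_sub_of_hasDerivAt (f := fun u : ℝ => -(a / u)) (fun u hu => ?_) hi
    rw [uIcc_of_le hr1] at hu
    have hu0 : 0 < u := hr.trans_le hu.1
    have h3 := ((hasDerivAt_inv hu0.ne').const_mul a).neg
    have e1' : (fun u : ℝ => -(a / u)) = fun u => -(a * u⁻¹) := by
      funext v; rw [div_eq_mul_inv]
    rw [e1']
    refine h3.congr_deriv ?_
    field_simp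
  unfold wE
  rw [h2] at h1
  linarith

lemma wE_anti (h : Scat W R₀ R a f Q) (hδ : 0 < δ) (hδ2 : 0 < R₀ → δ ≤ R₀ / 2) {r s : ℝ} (hr : 0 ≤ r) (hrs : r ≤ s) (hs : s ≤ 1 / 4) :
    wE W R₀ δ f Q a s ≤ wE W R₀ δ f Q a r := by
  rw [ChgW_split h hδ hδ2 hr (hr.trans hrs)]
  have := ChgW_int_nonneg h hδ hδ2 hr hrs
  linarith

/-- continuity on `[0, 1/4]` (for measurability) -/
lemma wE_cont (h : Scat W R₀ R a f Q) (hδ : 0 < δ) (hδ2 : 0 < R₀ → δ ≤ R₀ / 2) :
    ContinuousOn (wE W R₀ δ f Q a) (Icc 0 (1 / 4)) := by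
  have hq : (0:ℝ) ≤ 1 / 4 := by norm_num
  have h1 := intervalIntegral.continuousOn_primitive_interval'
    (E_sq_int h hδ hδ2 (le_refl (0:ℝ)) hq) (a := (1/4:ℝ)) right_mem_uIcc
  rw [uIcc_of_le hq] at h1
  have h2 : wE W R₀ δ f Q a = fun r => 4 * a
      + -(∫ u in (1/4:ℝ)..r, (∫ t in (0:ℝ)..u, e1 W R₀ δ f Q t) / u ^ 2) := by
    funext r
    unfold wE
    rw [intervalIntegral.integral_symm]
  rw [h2]
  exact continuousOn_const.add h1.neg

theorem uC_eq (h : Scat W R₀ R a f Q) (hR : R ≤ 1 / 8) (hδ : 0 < δ) (hδ2 : 0 < R₀ → δ ≤ R₀ / 2) {r : ℝ} (hr : 0 ≤ r)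
    (hr1 : r ≤ 1 / 4) : uC W R₀ δ f Q a r = 2 * wE W R₀ δ f Q a r - 12 * a + 64 * a * r ^ 2 := by
  have h1 : ∫ s in r..(1 / 4), flux (gC W R₀ δ f Q a) s / s ^ 2
      = ∫ s in r..(1 / 4), ((∫ t in (0:ℝ)..s, e1 W R₀ δ f Q t) / s ^ 2 - 64 * a * s) := by
    refine intervalIntegral.integral_congr_ae (Eventually.of_forall fun s hs => ?_)
    rw [uIoc_of_le hr1] at hs
    have hs0 : 0 < s := hr.trans_lt hs.1
    have h2 := h.flux1 hδ hδ2 (d := 1 / 4) (by linarith) (by norm_num) hs0.le hs.2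
    have h3 : flux (gC W R₀ δ f Q a) s = flux (fun t => e1 W R₀ δ f Q t - sm a (1 / 4) t) s := rfl
    rw [h3, h2]
    field_simp
    ring
  unfold uC wE
  rw [h1, intervalIntegral.integral_sub (E_sq_int h hδ hδ2 hr (by norm_num))
    (Continuous.intervalIntegrable (by fun_prop) _ _), intervalIntegral.integral_const_mul, integral_id]
  ring

lemma uC_zero (h : Scat W R₀ R a f Q) (hR : R ≤ 1 / 8) (hδ : 0 < δ) (hδ2 : 0 < R₀ → δ ≤ R₀ / 2) {r : ℝ} (hr : 1 / 4 ≤ r) :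
    uC W R₀ δ f Q a r = 0 := by
  have hD := h.dens1 hδ hδ2 (d := 1 / 4) (by linarith) (by norm_num)
  have h1 : ∫ s in r..(1 / 4), flux (gC W R₀ δ f Q a) s / s ^ 2 = 0 := by
    rw [intervalIntegral.integral_congr (g := fun _ => (0:ℝ))]
    · simp
    · intro s hs
      rw [uIcc_of_ge hr] at hs
      have h3 : flux (gC W R₀ δ f Q a) s = flux (fun t => e1 W R₀ δ f Q t - sm a (1 / 4) t) s := rfl
      dsimp only
      rw [h3, hD.flux_b hs.1, zero_div]
  unfold uC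
  rw [h1, mul_zero]

lemma ChgW_uC_out (h : Scat W R₀ R a f Q) (hR : R ≤ 1 / 8) (hδ : 0 < δ) (hδ2 : 0 < R₀ → δ ≤ R₀ / 2) {r : ℝ} (hr : R ≤ r)
    (hr1 : r ≤ 1 / 4) : uC W R₀ δ f Q a r = 2 * a / r - 12 * a + 64 * a * r ^ 2 := by
  have hr0 : 0 < r := h.R_pos.trans_le hr
  rw [uC_eq h hR hδ hδ2 hr0.le hr1, wE_eq_one_sub h hR hδ hδ2 (h.R₀_le.trans hr) hr0 hr1, h.f_out r hr]
  ring

theorem uC_nonneg (h : Scat W R₀ R a f Q) (hR : R ≤ 1 / 8) (hδ : 0 < δ) (hδ2 : 0 < R₀ → δ ≤ R₀ / 2) {r : ℝ} (hr : 0 ≤ r) :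
    0 ≤ uC W R₀ δ f Q a r := by
  have ha := h.a_pos
  rcases le_total (1 / 4) r with h1 | h1
  · rw [uC_zero h hR hδ hδ2 h1]
  · rcases le_total R r with h2 | h2
    · rw [ChgW_uC_out h hR hδ hδ2 h2 h1]
      have hr0 : 0 < r := h.R_pos.trans_le h2
      have e : 2 * a / r - 12 * a + 64 * a * r ^ 2 = 2 * a * ((4 * r - 1) ^ 2 * (2 * r + 1)) / r := by
        field_simp
        ring
      rw [e]
      positivity
    · have hRp := h.R_pos
      rw [uC_eq h hR hδ hδ2 hr h1]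
      have h3 := wE_anti h hδ hδ2 hr h2 (by linarith)
      rw [wE_eq_one_sub h hR hδ hδ2 h.R₀_le hRp (by linarith), h.f_out R le_rfl] at h3
      have h4 : 8 * a ≤ a / R := by
        rw [le_div_iff₀ hRp]
        calc 8 * a * R ≤ 8 * a * (1 / 8) := mul_le_mul_of_nonneg_left hR (by positivity)
          _ = a := by ring
      have h5 : 0 ≤ 64 * a * r ^ 2 := by positivity
      linarith

/-- upper bound: `2 a / r` for `0 < r ≤ 1/4` -/
lemma uC_le (h : Scat W R₀ R a f Q) (hR : R ≤ 1 / 8) (hδ : 0 < δ) (hδ2 : 0 < R₀ → δ ≤ R₀ / 2) {r : ℝ} (hr : 0 < r) :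
    uC W R₀ δ f Q a r ≤ 2 * a / r := by
  have ha := h.a_pos
  rcases le_total (1 / 4) r with h1 | h1
  · rw [uC_zero h hR hδ hδ2 h1]
    positivity
  · rw [uC_eq h hR hδ hδ2 hr.le h1]
    have h2 := wE_le h hR hδ hδ2 hr h1
    have h3 : r ^ 2 ≤ (1 / 4) ^ 2 := pow_le_pow_left₀ hr.le h1 2
    have h4 : 64 * a * r ^ 2 ≤ 64 * a * (1 / 4) ^ 2 := mul_le_mul_of_nonneg_left h3 (by positivity)
    have h5 : 2 * a / r = 2 * (a / r) := by ring
    rw [h5]
    nlinarith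

/-- lower bound between `R` and `1/4` -/
lemma uC_ge (h : Scat W R₀ R a f Q) (hR : R ≤ 1 / 8) (hδ : 0 < δ) (hδ2 : 0 < R₀ → δ ≤ R₀ / 2) {r : ℝ} (hr : R ≤ r)
    (hr1 : r ≤ 1 / 4) : 2 * a / r - 12 * a ≤ uC W R₀ δ f Q a r := by
  have ha := h.a_pos
  rw [ChgW_uC_out h hR hδ hδ2 hr hr1]
  have : 0 ≤ 64 * a * r ^ 2 := by positivity
  linarith

end Pool.Agent.Lib.MP_4952d6_mp.LB

end

/-! ### LB.ChgF -/

section

/-!
# LB.ChgF: proof of `C6Statement`
-/

set_option autoImplicit false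
set_option linter.unusedSectionVars false
set_option linter.unusedVariables false
open MeasureTheory Function Filter Topology Set ComplexConjugate

namespace Pool.Agent.Lib.MP_4952d6_mp.LB

variable {W : ℝ → ℝ} {R₀ R a : ℝ} {f Q : ℝ → ℝ} {δ : ℝ}

/-- The potential on the torus. -/
noncomputable def wC (W : ℝ → ℝ) (R₀ δ : ℝ) (f Q : ℝ → ℝ) (a : ℝ) (z : T3) : ℝ :=
  if 0 < rr z ∧ rr z ≤ 1 / 4 then wE W R₀ δ f Q a (rr z) else 0

/-- The function `k`. -/
noncomputable def kC (W : ℝ → ℝ) (R₀ : ℝ) (f : ℝ → ℝ) (z : T3) : ℝ :=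
  if R₀ ≤ rr z ∧ 0 < rr z then 2 * W (rr z) * f (rr z) ^ 2 else 0

/-- Thickness of the shell. -/
lemma ChgF_thick (h : Scat W R₀ R a f Q) {δ₁ : ℝ} (h1 : 0 < δ₁) :
    ∃ δ : ℝ, 0 < δ ∧ (0 < R₀ → δ ≤ R₀ / 2) ∧ (0 < R₀ → 4 * a * δ / R₀ ^ 2 ≤ min δ₁ 1) := by
  have ha := h.a_pos
  rcases h.R₀_nonneg.eq_or_lt with h0 | h0
  · exact ⟨1, one_pos, fun hh => absurd hh (by rw [← h0]; exact lt_irrefl _),
      fun hh => absurd hh (by rw [← h0]; exact lt_irrefl _)⟩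
  · have hm : 0 < min δ₁ 1 := lt_min h1 one_pos
    refine ⟨min (R₀ / 2) (min δ₁ 1 * R₀ ^ 2 / (4 * a)), lt_min (by positivity) (by positivity),
      fun _ => min_le_left _ _, fun _ => ?_⟩
    rw [div_le_iff₀ (by positivity)]
    have h2 : min (R₀ / 2) (min δ₁ 1 * R₀ ^ 2 / (4 * a)) ≤ min δ₁ 1 * R₀ ^ 2 / (4 * a) :=
      min_le_right _ _
    calc 4 * a * min (R₀ / 2) (min δ₁ 1 * R₀ ^ 2 / (4 * a))
        ≤ 4 * a * (min δ₁ 1 * R₀ ^ 2 / (4 * a)) := mul_le_mul_of_nonneg_left h2 (by positivity)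
      _ = min δ₁ 1 * R₀ ^ 2 := by field_simp

lemma kC_bm (h : Scat W R₀ R a f Q) : BM (kC W R₀ f) := by
  obtain ⟨M, hM0, hM⟩ := h.exists_M
  have hm : Measurable (kC W R₀ f) := by
    unfold kC
    refine Measurable.ite ((measurableSet_le measurable_const rr_measurable).inter
      (measurableSet_lt measurable_const rr_measurable)) ?_ measurable_const
    exact ((h.W_meas.comp rr_measurable).const_mul 2).mul
      ((h.f_cont.measurable.comp rr_measurable).pow_const 2)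
  refine BM.of_mem_Icc hm (a := 0) (b := 2 * M) fun z => ?_
  unfold kC
  split_ifs with hz
  · have h1 := h.W_nonneg (rr z)
    have h2 := h.f_nonneg (rr z)
    refine ⟨by positivity, ?_⟩
    calc 2 * W (rr z) * f (rr z) ^ 2 ≤ 2 * W (rr z) * 1 :=
          mul_le_mul_of_nonneg_left (pow_le_one₀ h2 (h.f_le_one _)) (by positivity)
      _ ≤ 2 * M := by linarith [hM (rr z)]
  · exact ⟨le_rfl, by positivity⟩

lemma wC_bounds (h : Scat W R₀ R a f Q) (hR : R ≤ 1 / 8) (hδ : 0 < δ) (hδ2 : 0 < R₀ → δ ≤ R₀ / 2)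
    (hδ3 : 0 < R₀ → 4 * a * δ / R₀ ^ 2 ≤ 1) (z : T3) :
    0 ≤ wC W R₀ δ f Q a z ∧ wC W R₀ δ f Q a z ≤ 2 := by
  unfold wC
  split_ifs with hz
  · refine ⟨wE_nonneg h hR hδ hδ2 hz.1.le hz.2, ?_⟩
    rcases lt_or_ge (rr z) R₀ with h1 | h1
    · have h2 := wE_core h hR hδ hδ2 hz.1.le h1
      have h3 := hδ3 (hz.1.trans h1)
      linarith
    · rw [wE_eq_one_sub h hR hδ hδ2 h1 hz.1 hz.2]
      linarith [h.f_nonneg (rr z)]
  · exact ⟨le_rfl, by norm_num⟩

lemma wC_meas (h : Scat W R₀ R a f Q) (hδ : 0 < δ) (hδ2 : 0 < R₀ → δ ≤ R₀ / 2) :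
    Measurable (wC W R₀ δ f Q a) := by
  classical
  have h1 : Measurable ((Ioc (0:ℝ) (1 / 4)).piecewise (wE W R₀ δ f Q a) (fun _ => (0:ℝ))) :=
    ((wE_cont h hδ hδ2).mono Ioc_subset_Icc_self).measurable_piecewise continuousOn_const
      measurableSet_Ioc
  have h2 := h1.comp rr_measurable
  have e : wC W R₀ δ f Q a
      = (Ioc (0:ℝ) (1 / 4)).piecewise (wE W R₀ δ f Q a) (fun _ => (0:ℝ)) ∘ rr := by
    ext z
    simp only [wC, comp_apply, Set.piecewise, mem_Ioc]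
  rw [e]
  exact h2

lemma ChgF_sqrt {t : ℝ} (ht : 0 < t) (ht1 : t ≤ 1) : 1 ≤ 1 / Real.sqrt t := by
  rw [le_div_iff₀ (Real.sqrt_pos.2 ht), one_mul]
  exact Real.sqrt_le_one.mpr ht1

/-- The heat flow of the charge for `u ≥ t/2`. -/
lemma ChgF_cn_le {H : ℝ} {g : T3 → ℝ} (hg : SR H R g) {t u : ℝ} (ht : 0 < t) (ht1 : t ≤ 1)
    (hu : t / 2 ≤ u) (z : T3) : cn (hk u) g z ≤ (27 / 8) * (1 / Real.sqrt t) ^ 3 * H := by
  have hu0 : 0 < u := lt_of_lt_of_le (by positivity) hu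
  have hs : 0 < Real.sqrt t := Real.sqrt_pos.2 ht
  have h1 : (Real.sqrt (4 * Real.pi * u))⁻¹ ≤ 1 / 2 * (1 / Real.sqrt t) := by
    have h2 : 2 * Real.sqrt t ≤ Real.sqrt (4 * Real.pi * u) := by
      refine Real.le_sqrt_of_sq_le ?_
      rw [mul_pow, Real.sq_sqrt ht.le]
      have hpi := Real.pi_gt_three
      linarith only [mul_le_mul_of_nonneg_right hpi.le hu0.le, hu, hu0]
    rw [show 1 / 2 * (1 / Real.sqrt t) = (2 * Real.sqrt t)⁻¹ by field_simp]
    exact inv_anti₀ (by positivity) h2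
  have h2 : ∀ x, hk u x ≤ (27 / 8) * (1 / Real.sqrt t) ^ 3 := by
    intro x
    refine (hk_le hu0 x).trans ?_
    have h3 := ChgF_sqrt ht ht1
    have h4 : 1 + (Real.sqrt (4 * Real.pi * u))⁻¹ ≤ 3 / 2 * (1 / Real.sqrt t) := by linarith
    calc (1 + (Real.sqrt (4 * Real.pi * u))⁻¹) ^ 3 ≤ (3 / 2 * (1 / Real.sqrt t)) ^ 3 :=
          pow_le_pow_left₀ (by positivity) h4 3
      _ = _ := by ring
  unfold cn
  have hbm : BM fun y => hk u (z - y) * g y :=
    ((hk_bm hu0).comp (measurable_const.sub measurable_id)).mul hg.bm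
  have h5 : ∫ y, hk u (z - y) * g y ∂lam3 ≤ ∫ y, (27 / 8) * (1 / Real.sqrt t) ^ 3 * g y ∂lam3 :=
    integral_mono (hbm.integrable _) ((hg.bm.integrable _).const_mul _)
      fun y => mul_le_mul_of_nonneg_right (h2 _) (hg.nonneg y)
  rw [integral_const_mul, hg.int] at h5
  exact h5

theorem c6_statement : C6Statement := by
  obtain ⟨C1, hC1, hE1⟩ := cn_hk_inv_le
  obtain ⟨C2, hC2, hE2⟩ := cn_hk_inv_ge
  refine ⟨10000 + 3 * C1 + 32 * C2, by positivity, fun W f Q R₀ R a h hR δ₁ hδ₁ => ?_⟩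
  obtain ⟨δ, hδ, hδ2, hδ3⟩ := ChgF_thick h hδ₁
  have ha := h.a_pos
  have hRp := h.R_pos
  have hSR := hC_SR h hR hδ hδ2
  have hUbm := uC_bm h hR hδ hδ2
  have hsbm : BM (sC a) := sC_bm ha
  have hU0 : ∀ z : T3, 0 ≤ uC W R₀ δ f Q a (rr z) := fun z => uC_nonneg h hR hδ hδ2 (rr_nonneg z)
  have hwb := wC_bounds h hR hδ hδ2 (fun h0 => (hδ3 h0).trans (min_le_right _ _))
  have hwbm : BM (wC W R₀ δ f Q a) := BM.of_mem_Icc (wC_meas h hδ hδ2) hwb
  have hid : ∀ T, 0 < T → ∀ᵐ z ∂lam3, KI T (hC W R₀ δ f Q) z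
      = uC W R₀ δ f Q a (rr z) + KI T (sC a) z - cn (hk T) (fun z => uC W R₀ δ f Q a (rr z)) z :=
    fun T hT => heat_identity hT hSR.bm hsbm hUbm (fc3_uC h hR hδ hδ2)
  -- facts on the support of the charge
  have hsupp : ∀ z : T3, 0 < rr z → hC W R₀ δ f Q z ≠ 0 → rr z ≤ R ∧
      wC W R₀ δ f Q a z = wE W R₀ δ f Q a (rr z) ∧
      uC W R₀ δ f Q a (rr z) = 2 * wC W R₀ δ f Q a z - 12 * a + 64 * a * rr z ^ 2 := by
    intro z hz0 hz
    have h1 : rr z ≤ R := by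
      by_contra hcon
      exact hz (hSR.supp z (not_le.1 hcon))
    have h2 : rr z ≤ 1 / 4 := by linarith
    have h3 : wC W R₀ δ f Q a z = wE W R₀ δ f Q a (rr z) := by
      unfold wC
      rw [if_pos ⟨hz0, h2⟩]
    refine ⟨h1, h3, ?_⟩
    rw [h3]
    exact uC_eq h hR hδ hδ2 hz0.le h2
  have hr2 : ∀ z : T3, rr z ≤ R → 64 * a * rr z ^ 2 ≤ a := by
    intro z hz
    have h1 : rr z ^ 2 ≤ (1 / 8) ^ 2 := pow_le_pow_left₀ (rr_nonneg z) (hz.trans hR) 2
    linarith only [mul_le_mul_of_nonneg_left h1 ha.le]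
  have hKs : ∀ T, 0 ≤ T → ∀ z, 0 ≤ KI T (sC a) z ∧ KI T (sC a) z ≤ T * (384 * a) := fun T hT z =>
    ⟨KI_nonneg hT (sC_nonneg ha) z, KI_le hT hsbm (sC_le ha) z⟩
  have hcU0 : ∀ T z, 0 ≤ cn (hk T) (fun z => uC W R₀ δ f Q a (rr z)) z := fun T z =>
    cn_nonneg (hk_nonneg T) hU0 z
  have hcU1 : ∀ T, 0 < T → T ≤ 1 → ∀ z,
      cn (hk T) (fun z => uC W R₀ δ f Q a (rr z)) z ≤ C1 * (2 * a) / Real.sqrt T := fun T hT hT1 =>
    hE1 T (2 * a) _ hT hT1 (by positivity) hUbm (fun z hz => uC_le h hR hδ hδ2 hz)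
      (fun z hz => (uC_zero h hR hδ hδ2 hz).le)
  refine ⟨hC W R₀ δ f Q, kC W R₀ f, wC W R₀ δ f Q a, hSR, kC_bm h, ?_,
    fun z => by unfold kC; rw [rr_neg], hwbm,
    fun z => (hwb z).1, fun z => (hwb z).2, ?_, ?_, ?_, ?_, ?_⟩
  · -- k_nonneg
    intro z
    unfold kC
    split_ifs
    · have h1 := h.W_nonneg (rr z)
      positivity
    · exact le_rfl
  · -- out
    intro z hz
    rcases (rr_nonneg z).eq_or_lt with h0 | h0
    · rw [hC_zero h0.symm]
      unfold kC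
      rw [if_neg (fun hh => by rw [← h0] at hh; exact lt_irrefl _ hh.2)]
      simp
    · rw [hC_out h hδ hδ2 hz h0]
      unfold kC
      rw [if_pos ⟨hz, h0⟩]
      exact le_of_eq (by ring)
  · -- two
    intro z
    have hh0 := hSR.nonneg z
    rcases (rr_nonneg z).eq_or_lt with h0 | h0
    · rw [hC_zero h0.symm]
      unfold kC
      rw [if_neg (fun hh => by rw [← h0] at hh; exact lt_irrefl _ hh.2)]
      simp
    · rcases lt_or_ge (rr z) R₀ with h1 | h1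
      · have h2 : rr z ≤ 1 / 4 := by linarith [h.R₀_le]
        have hk0 : kC W R₀ f z = 0 := by
          unfold kC
          rw [if_neg (fun hh => absurd hh.1 (not_le.2 h1))]
        have hw : wC W R₀ δ f Q a z ≤ 1 + δ₁ := by
          unfold wC
          rw [if_pos ⟨h0, h2⟩]
          have h3 := wE_core h hR hδ hδ2 h0.le h1
          have h4 := (hδ3 (h0.trans h1)).trans (min_le_left _ _)
          linarith
        rw [hk0]
        linarith only [mul_le_mul_of_nonneg_left hw hh0]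
      · rcases le_or_gt (rr z) (1 / 4) with h2 | h2
        · have hw : wC W R₀ δ f Q a z = 1 - f (rr z) := by
            unfold wC
            rw [if_pos ⟨h0, h2⟩]
            exact wE_eq_one_sub h hR hδ hδ2 h1 h0 h2
          have hk0 : kC W R₀ f z = 2 * W (rr z) * f (rr z) ^ 2 := by
            unfold kC
            rw [if_pos ⟨h1, h0⟩]
          rw [hk0, hw]
          have h3 := hC_out h hδ hδ2 h1 h0
          have h4 : hC W R₀ δ f Q z * (1 - f (rr z)) = hC W R₀ δ f Q z - 2 * W (rr z) * f (rr z) ^ 2 := by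
            rw [h3]; ring
          rw [h4]
          linarith only [mul_nonneg hδ₁.le hh0]
        · have h3 : hC W R₀ δ f Q z = 0 := hSR.supp z (by linarith)
          have hk0 : kC W R₀ f z = 0 := by
            unfold kC
            rw [if_pos ⟨h1, h0⟩, h.W_zero (rr z) (by linarith)]
            ring
          rw [h3, hk0]
          simp
  · -- p1
    intro t ht ht1 hRt
    filter_upwards [hid (t / 2) (by positivity), ae_rr_pos] with z hz hz0
    by_cases h0 : hC W R₀ δ f Q z = 0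
    · rw [h0]; simp
    · obtain ⟨h1, h2, h3⟩ := hsupp z hz0 h0
      refine mul_le_mul_of_nonneg_left ?_ (hSR.nonneg z)
      rw [KK_eq_KI, hz, h3]
      have h4 := (hKs (t / 2) (by positivity) z).2
      have h5 := hcU0 (t / 2) z
      have h6 := hr2 z h1
      have h7 : 0 ≤ (3 * C1 + 32 * C2) * a * t := by positivity
      linarith only [mul_pos ha ht, h4, h5, h6, h7, ha]
  · -- p2
    intro t ht ht1 hRt
    filter_upwards [hid (t / 2) (by positivity), ae_rr_pos] with z hz hz0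
    by_cases h0 : hC W R₀ δ f Q z = 0
    · rw [h0]; simp
    · obtain ⟨h1, h2, h3⟩ := hsupp z hz0 h0
      refine mul_le_mul_of_nonneg_left ?_ (hSR.nonneg z)
      have hs : 0 < Real.sqrt t := Real.sqrt_pos.2 ht
      have hs1 := ChgF_sqrt ht ht1
      have h4 := hKs (t / 2) (by positivity) z
      have h5 := hcU0 (t / 2) z
      have h5' := hcU1 (t / 2) (by positivity) (by linarith) z
      have h6 := hr2 z h1
      have h6' : 0 ≤ 64 * a * rr z ^ 2 := by positivity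
      -- the second time integral
      have h7 : 0 ≤ ∫ u in (t / 2)..t, cn (hk u) (hC W R₀ δ f Q) z :=
        intervalIntegral.integral_nonneg (by linarith) fun u hu => cn_nonneg (hk_nonneg u) hSR.nonneg z
      have h8 : ∫ u in (t / 2)..t, cn (hk u) (hC W R₀ δ f Q) z
          ≤ ∫ u in (t / 2)..t, (27 / 8) * (1 / Real.sqrt t) ^ 3 * (8 * Real.pi * a) :=
        intervalIntegral.integral_mono_on (by linarith) (cn_hk_int hSR.bm z _ _)
          intervalIntegrable_const fun u hu => ChgF_cn_le hSR ht ht1 hu.1 z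
      rw [intervalIntegral.integral_const, smul_eq_mul] at h8
      have hst : t * (1 / Real.sqrt t) ^ 3 = 1 / Real.sqrt t := by
        have : Real.sqrt t ^ 2 = t := Real.sq_sqrt ht.le
        have e : (1 / Real.sqrt t) ^ 3 = 1 / (Real.sqrt t ^ 2 * Real.sqrt t) := by
          rw [div_pow, one_pow, pow_succ]
        rw [e, this]
        field_simp
      have h9 : (t - t / 2) * ((27 / 8) * (1 / Real.sqrt t) ^ 3 * (8 * Real.pi * a))
          = 27 / 2 * Real.pi * a * (1 / Real.sqrt t) := by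
        calc (t - t / 2) * ((27 / 8) * (1 / Real.sqrt t) ^ 3 * (8 * Real.pi * a))
            = 27 / 2 * Real.pi * a * (t * (1 / Real.sqrt t) ^ 3) := by ring
          _ = _ := by rw [hst]
      rw [h9] at h8
      have h10 : 27 / 2 * Real.pi * a * (1 / Real.sqrt t) ≤ 54 * a * (1 / Real.sqrt t) := by
        have hpi := Real.pi_le_four
        have : 0 ≤ a * (1 / Real.sqrt t) := by positivity
        linarith only [mul_le_mul_of_nonneg_right hpi this]
      have h11 : C1 * (2 * a) / Real.sqrt (t / 2) ≤ 3 * C1 * a * (1 / Real.sqrt t) := by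
        have h12 : 2 / 3 * Real.sqrt t ≤ Real.sqrt (t / 2) := by
          refine Real.le_sqrt_of_sq_le ?_
          rw [mul_pow, Real.sq_sqrt ht.le]
          linarith only [ht]
        have h13 : 0 < Real.sqrt (t / 2) := Real.sqrt_pos.2 (by positivity)
        rw [div_le_iff₀ h13]
        have h14 : 3 * C1 * a * (1 / Real.sqrt t) * (2 / 3 * Real.sqrt t)
            ≤ 3 * C1 * a * (1 / Real.sqrt t) * Real.sqrt (t / 2) :=
          mul_le_mul_of_nonneg_left h12 (by positivity)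
        have h15 : 3 * C1 * a * (1 / Real.sqrt t) * (2 / 3 * Real.sqrt t) = C1 * (2 * a) := by
          field_simp
        linarith
      have h16 : a ≤ a * (1 / Real.sqrt t) := le_mul_of_one_le_right ha.le hs1
      have h17 : a * t ≤ a * (1 / Real.sqrt t) := mul_le_mul_of_nonneg_left (ht1.trans hs1) ha.le
      have h18 : 0 ≤ C1 * a * (1 / Real.sqrt t) := by positivity
      have h19 : 0 ≤ C2 * a * (1 / Real.sqrt t) := by positivity
      have h20 : (10000 + 3 * C1 + 32 * C2) * a / Real.sqrt t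
          = 10000 * (a * (1 / Real.sqrt t)) + 3 * (C1 * a * (1 / Real.sqrt t))
            + 32 * (C2 * a * (1 / Real.sqrt t)) := by ring
      rw [h20]
      unfold WT
      rw [KK_eq_KI, hz, h3, abs_le]
      constructor
      · linarith only [h4.1, h4.2, h5, h5', h6, h6', h7, h8, h10, h11, h16, h17, h18, h19, ha]
      · linarith only [h4.1, h4.2, h5, h5', h6, h6', h7, h8, h10, h11, h16, h17, h18, h19, ha]
  · -- p3
    intro t ht ht1 hRt
    have hs : 0 < Real.sqrt t := Real.sqrt_pos.2 ht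
    set hh := hC W R₀ δ f Q with hhdef
    set UU := fun z : T3 => uC W R₀ δ f Q a (rr z) with hUU
    have hf0 : fc3 (fun y => (hh y : ℂ)) 0 = ((8 * Real.pi * a : ℝ) : ℂ) := by
      unfold fc3
      have : ∀ x : T3, conj (ch 0 x) * ((hh x : ℝ) : ℂ) = ((hh x : ℝ) : ℂ) := fun x => by
        rw [ch_zero, map_one, one_mul]
      simp_rw [this]
      rw [integral_complex_ofReal, hSR.int]
    have hP := KI_parseval ht.le hSR.bm
    have hz0 : HasSum (fun p : Fin 3 → ℤ => t * pz p * ‖fc3 (fun y => (hh y : ℂ)) p‖ ^ 2)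
        (t * (8 * Real.pi * a) ^ 2) := by
      have h1 := hasSum_single (f := fun p : Fin 3 → ℤ => t * pz p * ‖fc3 (fun y => (hh y : ℂ)) p‖ ^ 2)
        0 (fun p hp => by
          simp only [pz]
          rw [if_neg hp]
          ring)
      have h2 : t * pz 0 * ‖fc3 (fun y => (hh y : ℂ)) 0‖ ^ 2 = t * (8 * Real.pi * a) ^ 2 := by
        rw [hf0, Complex.norm_real, Real.norm_eq_abs, sq_abs]
        simp [pz]
      rw [h2] at h1
      exact h1
    have hA := hP.sub hz0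
    have hAe : (fun p => (∫ u in (0:ℝ)..t, Real.exp (-(u * ksq p))) * ‖fc3 (fun y => (hh y : ℂ)) p‖ ^ 2
        - t * pz p * ‖fc3 (fun y => (hh y : ℂ)) p‖ ^ 2)
        = fun p => alp t p * ‖fc3 (fun y => (hh y : ℂ)) p‖ ^ 2 := by
      ext p
      rw [← alp_eq_integral]
      ring
    rw [hAe] at hA
    rw [hA.tsum_eq]
    have hKbm := KI_bm ht.le hSR.bm
    have hI1 : Integrable (fun z => hh z * wC W R₀ δ f Q a z) lam3 := (hSR.bm.mul hwbm).integrable _
    have hI2 : Integrable (fun z => hh z * KI t hh z) lam3 := (hSR.bm.mul hKbm).integrable _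
    set L : ℝ := (2 * a) / Real.sqrt (Real.pi * t) - C2 * (2 * a) * (1 + R / t) - 12 * a - 384 * a
      with hL
    have hpt : ∀ᵐ z ∂lam3, hh z * (1 / 2 * L) ≤ hh z * wC W R₀ δ f Q a z - 1 / 2 * (hh z * KI t hh z) := by
      filter_upwards [hid t ht, ae_rr_pos] with z hz hz0
      by_cases h0 : hh z = 0
      · rw [h0]; simp
      · obtain ⟨h1, h2, h3⟩ := hsupp z hz0 h0
        have e : hh z * wC W R₀ δ f Q a z - 1 / 2 * (hh z * KI t hh z)
            = hh z * (wC W R₀ δ f Q a z - 1 / 2 * KI t hh z) := by ring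
        rw [e]
        refine mul_le_mul_of_nonneg_left ?_ (hSR.nonneg z)
        rw [hz, h3]
        have h4 := (hKs t ht.le z).2
        have h6 := hr2 z h1
        have h7 := hE2 t (2 * a) (12 * a) R UU ht ht1 (by positivity) (by positivity) hRp.le hR hRt
          hUbm hU0 (fun z hz hz' => uC_ge h hR hδ hδ2 hz hz') z h1
        have h8 : t * (384 * a) ≤ 384 * a := mul_le_of_le_one_left (by positivity) ht1
        rw [hL]
        linarith only [h4, h6, h7, h8, ha]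
    have hint : ∫ z, hh z * (1 / 2 * L) ∂lam3
        ≤ ∫ z, (hh z * wC W R₀ δ f Q a z - 1 / 2 * (hh z * KI t hh z)) ∂lam3 :=
      integral_mono_ae ((hSR.bm.integrable _).mul_const _) (hI1.sub (hI2.const_mul _)) hpt
    rw [integral_mul_const, hSR.int, integral_sub hI1 (hI2.const_mul _), integral_const_mul] at hint
    have h1 : 0 ≤ R / t := by positivity
    have h2 : 8 * Real.pi * a ^ 2 / Real.sqrt (Real.pi * t)
        = 8 * Real.pi * a * (1 / 2 * ((2 * a) / Real.sqrt (Real.pi * t))) := by ring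
    have h3 : 8 * Real.pi * a * (1 / 2 * (C2 * (2 * a) * (1 + R / t) + 12 * a + 384 * a))
        ≤ (10000 + 3 * C1 + 32 * C2) * a ^ 2 * (1 + R / t) := by
      have hpi := Real.pi_le_four
      have hpi0 := Real.pi_pos
      have ha2 : 0 ≤ a ^ 2 := by positivity
      have h4 : 8 * Real.pi * a * (1 / 2 * (C2 * (2 * a) * (1 + R / t) + 12 * a + 384 * a))
          = Real.pi * (a ^ 2 * (8 * C2 * (1 + R / t) + 1584)) := by ring
      rw [h4]
      have h5 : 0 ≤ a ^ 2 * (8 * C2 * (1 + R / t) + 1584) := by positivity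
      have h6 : Real.pi * (a ^ 2 * (8 * C2 * (1 + R / t) + 1584))
          ≤ 4 * (a ^ 2 * (8 * C2 * (1 + R / t) + 1584)) := mul_le_mul_of_nonneg_right hpi h5
      refine h6.trans ?_
      have h7 : 0 ≤ 3 * C1 * a ^ 2 * (1 + R / t) := by positivity
      have h8 : a ^ 2 ≤ a ^ 2 * (1 + R / t) :=
        le_mul_of_one_le_right ha2 (by linarith only [h1])
      linarith only [h7, h8, ha2, mul_nonneg ha2 h1]
    have h4 : 0 ≤ t * (8 * Real.pi * a) ^ 2 := by positivity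
    have h5 : 8 * Real.pi * a * (1 / 2 * L)
        = 8 * Real.pi * a * (1 / 2 * ((2 * a) / Real.sqrt (Real.pi * t)))
          - 8 * Real.pi * a * (1 / 2 * (C2 * (2 * a) * (1 + R / t) + 12 * a + 384 * a)) := by
      rw [hL]; ring
    rw [h5] at hint
    rw [h2]
    linarith only [hint, h3, h4]

end Pool.Agent.Lib.MP_4952d6_mp.LB

end

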