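import Pool.Agent.Lib.MP_4952d6_mp.Pk.G17
import Pool.Agent.Lib.MP_4952d6_mp.Pk.G20
import Pool.Agent.Lib.MP_4952d6_mp.Pk.G22
import Pool.Agent.Lib.MP_4952d6_mp.Pk.G23
import Pool.Agent.Lib.MP_4952d6_mp.Pk.G24
import Pool.Agent.Lib.MP_4952d6_mp.Pk.G25
import Pool.Agent.Lib.MP_4952d6_mp.Pk.G26
import Pool.Agent.Lib.MP_4952d6_mp.Pk.G29
import Pool.Agent.Lib.MP_4952d6_mp.Pk.G41
import Pool.Agent.Lib.MP_4952d6_mp.Pk.G44
import Pool.Agent.Lib.MP_4952d6_mp.Pk.G54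

/-! Merged modules (to save import time): U.U7D, U.U7E, U.U7F, U.U8E, U.UFin, U.UStmt. -/

/-! ### U.U7D -/

section

/-!
# U7D: pointwise bound of the total pair energy

From `Reg.wtot` and `ul_laplace`: `2(effT + W f²) = e^{-2u} ws + F (-4π a_u mh(q^242) p_t + w_l)`,
`e^{-2u} ws = e^{-2u} efs² (Q²/r⁴ + W f²) 1_{r<b} + 4π a_u γ_t F 1_{r<b}` (as `F = f_s² e^{-2u}`), `γ_t ≤ p_t` (`gam_le_hk`), so the sum is
`≤ e^{-2u} efs² wrad + 4π a_u (1 - mh(q^242)) p_t F + w_l F`, and `e^{-2u} efs² = e^{-2(u - a_u s_b)} e^{-2a_u s_b} efs² ≤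
e^{-2c_0 + 2Cq^300} · exp(-2 a_u s_b(b))/(1-q^80)²` on `r < b` (`ul_local`, `efs_sb`).
-/

set_option autoImplicit false
set_option linter.unusedSectionVars false
set_option linter.unusedVariables false
open MeasureTheory Function Filter Topology Set
open scoped ENNReal

namespace Pool.Agent.Lib.MP_4952d6_mp

theorem wtot_le {κ : ℝ} (hκ : 0 < κ) (hκ1 : κ ≤ 1) : ∃ C : ℝ, 0 ≤ C ∧
    ∀ (W f Q : ℝ → ℝ) (R₀ R a θ q : ℝ), Reg W R₀ R a f Q θ q → ∀ᵐ x ∂lam3,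
    2 * (effT (dftot κ q a f Q) (hftot κ q a f Q W) x + W (rr x) * ftot κ q a f x ^ 2)
      ≤ Real.exp (-(2 * c0q κ q a) + C * q ^ 300)
          * (Real.exp (-(2 * (auq q a * sbf (tq q a) (bq q a)))) / (1 - q ^ 80) ^ 2)
          * wrad q a f Q W (rr x)
        + 4 * Real.pi * auq q a * (1 - mh κ (q ^ 242)) * (hk (tq q a) x * ftot κ q a f x ^ 2)
        + wl κ q a x * ftot κ q a f x ^ 2 := by
  obtain ⟨C, hC0, hC⟩ := ul_local hκ hκ1
  refine ⟨2 * C, by linarith, fun W f Q R₀ R a θ q h => ?_⟩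
  have hq := h.q_pos
  have hq1 := h.q_le
  have ha := h.a_pos
  have hloc := (hC q a hq hq1 ha h.aq).2
  filter_upwards [h.wtot (κ := κ) hκ] with x hx
  rw [hx, ul_laplace hκ hq hq1 ha x]
  have ht := tq_pos hq ha
  have hA : 0 < auq q a := by
    unfold auq
    have := one_le_alq hq hq1
    positivity
  have hhk := hk_nonneg (tq q a) x
  have hgam := gam_le_hk ht x
  have hpi := Real.pi_pos
  have hF : 0 ≤ ftot κ q a f x ^ 2 := sq_nonneg _
  have hE : 0 ≤ Real.exp (-(2 * c0q κ q a) + 2 * C * q ^ 300) := Real.exp_nonneg _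
  rcases lt_or_ge (rr x) (bq q a) with hb | hb
  · have hw : ws q a f Q W (rr x) = efs q a (rr x) ^ 2 * wrad q a f Q W (rr x)
        + 4 * Real.pi * auq q a * gam (tq q a) (rr x) * fs q a f (rr x) ^ 2 := by
      unfold ws wrad
      rw [if_pos hb, if_pos hb]
    have hwr := h.wrad_nonneg (rr x)
    have h1 : Real.exp (-(2 * mix0 (omu κ q a) (tq q a) x)) * efs q a (rr x) ^ 2
        ≤ Real.exp (-(2 * c0q κ q a) + 2 * C * q ^ 300)
          * (Real.exp (-(2 * (auq q a * sbf (tq q a) (bq q a)))) / (1 - q ^ 80) ^ 2) := by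
      rw [← efs_sb (a := a) (r := rr x) hq hq1, ← mul_assoc]
      refine mul_le_mul_of_nonneg_right ?_ (sq_nonneg _)
      rw [← Real.exp_add, Real.exp_le_exp]
      have h2 := (abs_le.1 (hloc x hb.le)).1
      linarith
    have h3 : Real.exp (-(2 * mix0 (omu κ q a) (tq q a) x)) * ws q a f Q W (rr x)
        = Real.exp (-(2 * mix0 (omu κ q a) (tq q a) x)) * efs q a (rr x) ^ 2
            * wrad q a f Q W (rr x)
          + 4 * Real.pi * auq q a * gam (tq q a) (rr x) * ftot κ q a f x ^ 2 := by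
      rw [hw, ftot_sq]
      ring
    have h4 := mul_le_mul_of_nonneg_right h1 hwr
    have h5 : 4 * Real.pi * auq q a * gam (tq q a) (rr x) * ftot κ q a f x ^ 2
        ≤ 4 * Real.pi * auq q a * hk (tq q a) x * ftot κ q a f x ^ 2 := by
      gcongr
    rw [h3]
    linarith
  · have hw : ws q a f Q W (rr x) = 0 := by
      unfold ws
      rw [if_neg (not_lt.2 hb)]
    have hr : wrad q a f Q W (rr x) = 0 := by
      unfold wrad
      rw [if_neg (not_lt.2 hb)]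
    rw [hw, hr, mul_zero, mul_zero]
    have h5 : 0 ≤ 4 * Real.pi * auq q a * hk (tq q a) x * ftot κ q a f x ^ 2 := by
      positivity
    linarith

end Pool.Agent.Lib.MP_4952d6_mp

end

/-! ### U.U7E -/

section

/-!
# U7E: integration against the cavity function

Let `F = f_tot²`, `n = N - 2`, `y(z) = yy F n z ≥ 0`, `y ≤ y(0) ≤ 1 + V + C q^202` (`yy_le`, `gas_O2` with `DPot_GD`, `DPot_PB`; `V = Vn N`),
`F y = pp F n`. `0 ≤ V ≤ 4 N Σ û² ≤ C q^200` (GD field `uh_sq`).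
`∫ 2(effT + W F/..) y ≤ T1 + T2 + T3`:
* `T1 ≤ exp(-2c_0 + C q^300) · [4π a (1 - tt - tt² + C tt³)] · y(0)` (`main_radial`), and
  `exp(-2c_0 + Cq^300)(1 + V + C q^202) ≤ 1 - 2c_0 + V + C q^202` (`|c_0| ≤ C q^200`), times `(1 - tt - tt² + ..)`:
  `≤ 4π a (1 - tt - tt²) + 4π a (-2c_0 + V) + C a q^202` (`tt q^200 = q^280`).
* `T2 ≤ 4π a_u K² q^242 y(0) ∫ p_t ≤ C a q^242`.
* `T3 = ∫ w_l pp = ŵ(0) + Σ_{p≠0} ŵ (S_N - 1)/(N-1)` (`pp_fourier`), `ŵ(0) ≤ 4π a_u` (`wlh_formula` with `ksq 0 = 0`, `mh ≤ 1`),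
  `S - 1 = -(1 - S*) + (S - S*)`, `1 - S* ≥ 0`, `1/(N-1) ≥ 1/N`, and
  `Σ ŵ |S - S*|/(N-1) ≤ (K²/l²) (2/N) Σ û |S - S*| ≤ C q^208/(N l²) = C a q^208` (`wlh_le`, `gas_O1`, `N a l² = 1`).
* `4π a_u ≤ 4π a (1 + tt + tt² + C tt³)` (`alq_le`).
-/

set_option autoImplicit false
set_option linter.unusedSectionVars false
set_option linter.unusedVariables false
open MeasureTheory Function Filter Topology Set
open scoped ENNReal

namespace Pool.Agent.Lib.MP_4952d6_mp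

/-! ### Monotonicity in the constant -/

theorem U7E_mono {C C' x y z : ℝ} (hC : C ≤ C') (hx : 0 ≤ x) (hy : 0 ≤ y) (hz : 0 ≤ z) :
    C * x * y / z ≤ C' * x * y / z := by
  have h1 : C * x ≤ C' * x := mul_le_mul_of_nonneg_right hC hx
  exact div_le_div_of_nonneg_right (mul_le_mul_of_nonneg_right h1 hy) hz

theorem U7E_GD_mono {C C' q a : ℝ} {N : ℕ} {D : Dat} (h : D.GD C q a N) (hC : C ≤ C') :
    D.GD C' q a N where
  ok := h.ok
  C1 := h.C1.trans hC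
  q0 := h.q0
  q1 := h.q1
  a0 := h.a0
  hN := h.hN
  Nq := h.Nq
  uh0 := h.uh0.trans hC
  uh_le := h.uh_le
  uh_ksq p := (h.uh_ksq p).trans (mul_le_mul_of_nonneg_right hC h.a0.le)
  ul_le x := (h.ul_le x).trans (mul_le_mul_of_nonneg_right hC (pow_nonneg h.q0.le _))
  uh_sq := h.uh_sq.trans (mul_le_mul_of_nonneg_right hC (pow_nonneg h.q0.le _))
  uh_inv := by
    refine ⟨h.uh_inv.1, h.uh_inv.2.trans ?_⟩
    rw [mul_div_assoc, mul_div_assoc]
    exact mul_le_mul_of_nonneg_right hC (div_nonneg h.a0.le h.q0.le)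
  uh_cos z := by
    refine (h.uh_cos z).trans ?_
    rw [mul_assoc, mul_assoc]
    exact mul_le_mul_of_nonneg_right hC (mul_nonneg h.a0.le (rr_nonneg z))
  d1 α := by
    refine (h.d1 α).trans ?_
    rw [mul_div_assoc, mul_div_assoc]
    exact mul_le_mul_of_nonneg_right hC (div_nonneg (sq_nonneg a) (pow_nonneg h.q0.le _))
  d2 α := by
    refine (h.d2 α).trans ?_
    rw [mul_assoc, mul_assoc]
    exact mul_le_mul_of_nonneg_right hC (mul_nonneg h.a0.le (pow_nonneg h.q0.le _))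
  dd α β := by
    refine (h.dd α β).trans ?_
    rw [mul_div_assoc, mul_div_assoc]
    exact mul_le_mul_of_nonneg_right hC (div_nonneg (sq_nonneg a) (pow_nonneg h.q0.le _))
  ddc α β := (h.ddc α β).trans
    (U7E_mono hC (sq_nonneg a) (pow_nonneg h.q0.le _) (pow_nonneg h.q0.le _))
  Ic := h.Ic.trans (mul_le_mul_of_nonneg_right hC (pow_nonneg h.q0.le _))
  Kint := h.Kint.trans
    (U7E_mono hC (sq_nonneg a) (pow_nonneg h.q0.le _) (pow_nonneg h.q0.le _))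

theorem U7E_PB_mono {C C' q a : ℝ} {N : ℕ} {D : Dat} {ψ : T3 → ℝ} {ph : (Fin 3 → ℤ) → ℝ}
    (h : Dat.PB C q a N D ψ ph) (hC : C ≤ C') (hq : 0 < q) (ha : 0 < a)
    (hu : ∀ p, 0 ≤ D.uh p) : Dat.PB C' q a N D ψ ph where
  bm := h.bm
  nonneg := h.nonneg
  ph_nonneg := h.ph_nonneg
  ph_le := h.ph_le
  ph_zero := h.ph_zero
  ph_summable := h.ph_summable
  hasSum := h.hasSum
  ph_uh p := by
    refine (h.ph_uh p).trans ?_
    refine mul_le_mul_of_nonneg_right ?_ (hu p)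
    rw [mul_div_assoc, mul_div_assoc]
    exact mul_le_mul_of_nonneg_right hC (div_nonneg (Nat.cast_nonneg _) (pow_nonneg hq.le _))
  m1 := h.m1.trans (U7E_mono hC ha.le (pow_nonneg hq.le _) (pow_nonneg hq.le _))
  mc := h.mc.trans (mul_le_mul_of_nonneg_right hC (pow_nonneg hq.le _))
  mu := h.mu.trans (mul_le_mul_of_nonneg_right hC (pow_nonneg hq.le _))

/-! ### The fluctuation term `V` -/

theorem U7E_V {C q a : ℝ} {N : ℕ} {D : Dat} (h : D.GD C q a N) :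
    0 ≤ D.Vn N ∧ D.Vn N ≤ 4 * C * q ^ 200 := by
  have hu := h.ok.uh_nonneg
  have hN : (0 : ℝ) ≤ N := Nat.cast_nonneg _
  have hs2 : Summable (fun p => D.uh p ^ 2) := by
    refine Summable.of_nonneg_of_le (fun p => sq_nonneg _) (fun p => ?_)
      (h.ok.uh_summable.mul_left (D.uh 0))
    rw [sq]
    exact mul_le_mul_of_nonneg_right (h.uh_le p) (hu p)
  have hterm : ∀ p, 0 ≤ 4 * (N : ℝ) * D.uh p ^ 2 / (1 + 2 * N * D.uh p) ∧
      4 * (N : ℝ) * D.uh p ^ 2 / (1 + 2 * N * D.uh p) ≤ 4 * (N * D.uh p ^ 2) := by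
    intro p
    have h1 : 1 ≤ 1 + 2 * (N : ℝ) * D.uh p := by
      have := mul_nonneg (mul_nonneg zero_le_two hN) (hu p)
      linarith
    have h2 : 0 ≤ 4 * (N : ℝ) * D.uh p ^ 2 := by positivity
    refine ⟨div_nonneg h2 (by linarith), ?_⟩
    have h3 := div_le_self h2 h1
    calc _ ≤ 4 * (N : ℝ) * D.uh p ^ 2 := h3
      _ = _ := by ring
  have hs : Summable (fun p : Fin 3 → ℤ => if p = 0 then 0
      else 4 * (N : ℝ) * D.uh p ^ 2 / (1 + 2 * N * D.uh p)) := by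
    refine Summable.of_nonneg_of_le (fun p => ?_) (fun p => ?_)
      ((hs2.mul_left (N : ℝ)).mul_left 4)
    · split_ifs
      · exact le_rfl
      · exact (hterm p).1
    · split_ifs
      · positivity
      · exact (hterm p).2
  constructor
  · refine tsum_nonneg fun p => ?_
    split_ifs
    · exact le_rfl
    · exact (hterm p).1
  · have h1 : D.Vn N ≤ ∑' p, 4 * ((N : ℝ) * D.uh p ^ 2) := by
      refine hs.tsum_le_tsum (fun p => ?_) ((hs2.mul_left (N : ℝ)).mul_left 4)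
      split_ifs
      · positivity
      · exact (hterm p).2
    rw [tsum_mul_left, tsum_mul_left] at h1
    have h2 := h.uh_sq
    linarith

/-! ### Arithmetic -/

theorem U7E_arith1 {c₀ V y C C₃ C₆ C₈ q : ℝ} (hq : 0 < q) (hq1 : q ≤ 1) (hC : 0 ≤ C) (hC3 : 0 ≤ C₃)
    (hC6 : 0 ≤ C₆) (hC8 : 0 ≤ C₈) (hc : |c₀| ≤ C₆ * q ^ 200) (hV0 : 0 ≤ V)
    (hV : V ≤ 4 * C * q ^ 200) (hy : y ≤ 1 + V + C₈ * q ^ 202)
    (hsm : (2 * C₆ + C₃) * q ^ 200 ≤ 1) :
    Real.exp (-(2 * c₀) + C₃ * q ^ 300) * y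
      ≤ 1 + (-(2 * c₀) + V)
        + (C₃ + (2 * C₆ + C₃) ^ 2 + 8 * (2 * C₆ + C₃) * C + 3 * C₈) * q ^ 202 := by
  have hq300 : q ^ 300 ≤ q ^ 202 := pow_le_pow_of_le_one hq.le hq1 (by norm_num)
  have hq300' : q ^ 300 ≤ q ^ 200 := pow_le_pow_of_le_one hq.le hq1 (by norm_num)
  have hq400 : q ^ 200 * q ^ 200 ≤ q ^ 202 := by
    rw [← pow_add]
    exact pow_le_pow_of_le_one hq.le hq1 (by norm_num)
  have hp200 : 0 < q ^ 200 := pow_pos hq _
  have hp202 : 0 < q ^ 202 := pow_pos hq _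
  have hp300 : 0 < q ^ 300 := pow_pos hq _
  generalize q ^ 300 = s300 at *
  generalize q ^ 202 = s202 at *
  generalize q ^ 200 = s200 at *
  set x : ℝ := -(2 * c₀) + C₃ * s300 with hx
  set B : ℝ := 2 * C₆ + C₃ with hB
  have hB0 : 0 ≤ B := by positivity
  have hxB : |x| ≤ B * s200 := by
    have h1 : |x| ≤ |-(2 * c₀)| + |C₃ * s300| := abs_add_le _ _
    rw [abs_neg, abs_mul, abs_two, abs_of_nonneg (mul_nonneg hC3 hp300.le)] at h1
    have h2 : C₃ * s300 ≤ C₃ * s200 := mul_le_mul_of_nonneg_left hq300' hC3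
    rw [hB]
    linarith
  have hx1 : |x| ≤ 1 := hxB.trans hsm
  have hexp : Real.exp x ≤ 1 + x + x ^ 2 := by
    have := (abs_le.1 (Real.abs_exp_sub_one_sub_id_le hx1)).2
    linarith
  have hxs : x ^ 2 ≤ B ^ 2 * s202 := by
    have h1 : x ^ 2 ≤ (B * s200) ^ 2 := by
      rw [← sq_abs]
      exact pow_le_pow_left₀ (abs_nonneg _) hxB 2
    calc x ^ 2 ≤ (B * s200) ^ 2 := h1
      _ = B ^ 2 * (s200 * s200) := by ring
      _ ≤ B ^ 2 * s202 := mul_le_mul_of_nonneg_left hq400 (sq_nonneg _)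
  have hxV : |x| * V ≤ 4 * B * C * s202 := by
    calc |x| * V ≤ (B * s200) * (4 * C * s200) :=
          mul_le_mul hxB hV hV0 (mul_nonneg hB0 hp200.le)
      _ = (4 * B * C) * (s200 * s200) := by ring
      _ ≤ (4 * B * C) * s202 := mul_le_mul_of_nonneg_left hq400 (by positivity)
  have hY0 : 0 ≤ 1 + V + C₈ * s202 := by positivity
  have h1 : Real.exp x * y ≤ (1 + x + x ^ 2) * (1 + V + C₈ * s202) :=
    (mul_le_mul_of_nonneg_left hy (Real.exp_pos _).le).trans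
      (mul_le_mul_of_nonneg_right hexp hY0)
  have h2 : x * V ≤ |x| * V := mul_le_mul_of_nonneg_right (le_abs_self _) hV0
  have h3 : x ^ 2 * V ≤ |x| * V := by
    refine mul_le_mul_of_nonneg_right ?_ hV0
    rw [← sq_abs, sq]
    calc |x| * |x| ≤ |x| * 1 := mul_le_mul_of_nonneg_left hx1 (abs_nonneg _)
      _ = |x| := mul_one _
  have h4 : (1 + x + x ^ 2) * (C₈ * s202) ≤ 3 * (C₈ * s202) := by
    refine mul_le_mul_of_nonneg_right ?_ (by positivity)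
    have h5 : x ≤ 1 := (le_abs_self _).trans hx1
    have h6 : x ^ 2 ≤ 1 := by
      rw [← sq_abs]
      exact pow_le_one₀ (abs_nonneg _) hx1
    linarith
  have h7 : C₃ * s300 ≤ C₃ * s202 := mul_le_mul_of_nonneg_left hq300 hC3
  calc Real.exp x * y ≤ (1 + x + x ^ 2) * (1 + V + C₈ * s202) := h1
    _ = 1 + x + x ^ 2 + V + x * V + x ^ 2 * V + (1 + x + x ^ 2) * (C₈ * s202) := by ring
    _ ≤ 1 + (-(2 * c₀) + V) + (C₃ + B ^ 2 + 8 * B * C + 3 * C₈) * s202 := by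
        rw [hx] at *
        linarith

theorem U7E_arith2 {u y K U C₄ q : ℝ} (hq : 0 < q) (hq1 : q ≤ 1 / 2) (hK : 0 ≤ K)
    (hU : 0 ≤ U) (hC4 : 0 ≤ C₄) (hu : |u| ≤ U * q ^ 200) (hy : y ≤ 1 + u + K * q ^ 202) :
    0 ≤ 1 - q ^ 80 - q ^ 160 + C₄ * q ^ 240 ∧
    (1 - q ^ 80 - q ^ 160 + C₄ * q ^ 240) * y
      ≤ 1 - q ^ 80 - q ^ 160 + u
        + (C₄ + (2 + C₄) * U + (1 + C₄) * K) * q ^ 202 := by
  have hq1' : q ≤ 1 := by linarith
  have h80 : q ^ 80 ≤ 1 / 2 := by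
    calc q ^ 80 ≤ q ^ 1 := pow_le_pow_of_le_one hq.le hq1' (by norm_num)
      _ ≤ 1 / 2 := by rw [pow_one]; exact hq1
  have h160 : q ^ 160 ≤ 1 / 2 := by
    calc q ^ 160 ≤ q ^ 1 := pow_le_pow_of_le_one hq.le hq1' (by norm_num)
      _ ≤ 1 / 2 := by rw [pow_one]; exact hq1
  have h160' : q ^ 160 ≤ q ^ 80 := pow_le_pow_of_le_one hq.le hq1' (by norm_num)
  have h240 : q ^ 240 ≤ q ^ 80 := pow_le_pow_of_le_one hq.le hq1' (by norm_num)
  have h240' : q ^ 240 ≤ q ^ 202 := pow_le_pow_of_le_one hq.le hq1' (by norm_num)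
  have h280 : q ^ 80 * q ^ 200 ≤ q ^ 202 := by
    rw [← pow_add]
    exact pow_le_pow_of_le_one hq.le hq1' (by norm_num)
  have hp80 : 0 < q ^ 80 := pow_pos hq _
  have hp160 : 0 < q ^ 160 := pow_pos hq _
  have hp200 : 0 < q ^ 200 := pow_pos hq _
  have hp202 : 0 < q ^ 202 := pow_pos hq _
  have hp240 : 0 < q ^ 240 := pow_pos hq _
  generalize q ^ 80 = s80 at *
  generalize q ^ 160 = s160 at *
  generalize q ^ 240 = s240 at *
  generalize q ^ 202 = s202 at *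
  generalize q ^ 200 = s200 at *
  have hP0 : 0 ≤ 1 - s80 - s160 + C₄ * s240 := by
    have := mul_nonneg hC4 hp240.le
    linarith
  refine ⟨hP0, ?_⟩
  set P : ℝ := 1 - s80 - s160 + C₄ * s240 with hP
  have hP1 : P ≤ 1 + C₄ := by
    have h1 : C₄ * s240 ≤ C₄ * 1 := mul_le_mul_of_nonneg_left (by linarith) hC4
    rw [hP]; linarith
  have hPa : |P - 1| ≤ (2 + C₄) * s80 := by
    have h1 : C₄ * s240 ≤ C₄ * s80 := mul_le_mul_of_nonneg_left h240 hC4
    have h2 := mul_nonneg hC4 hp240.le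
    rw [abs_le]
    constructor
    · rw [hP]; nlinarith
    · rw [hP]; nlinarith
  have h1 : P * y ≤ P * (1 + u + K * s202) := mul_le_mul_of_nonneg_left hy hP0
  have h2 : (P - 1) * u ≤ (2 + C₄) * U * s202 := by
    calc (P - 1) * u ≤ |(P - 1) * u| := le_abs_self _
      _ = |P - 1| * |u| := abs_mul _ _
      _ ≤ ((2 + C₄) * s80) * (U * s200) := mul_le_mul hPa hu (abs_nonneg _) (by positivity)
      _ = (2 + C₄) * U * (s80 * s200) := by ring
      _ ≤ (2 + C₄) * U * s202 := mul_le_mul_of_nonneg_left h280 (by positivity)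
  have h3 : P * (K * s202) ≤ (1 + C₄) * (K * s202) :=
    mul_le_mul_of_nonneg_right hP1 (by positivity)
  have h4 : C₄ * s240 ≤ C₄ * s202 := mul_le_mul_of_nonneg_left h240' hC4
  calc P * y ≤ P * (1 + u + K * s202) := h1
    _ = P + u + (P - 1) * u + P * (K * s202) := by ring
    _ ≤ 1 - s80 - s160 + u + (C₄ + (2 + C₄) * U + (1 + C₄) * K) * s202 := by
        have e : P = 1 - s80 - s160 + C₄ * s240 := hP
        nlinarith [h2, h3, h4, e]

theorem U7E_arith3 {au m k s a y p : ℝ} (hau : 0 ≤ au) (hau2 : au ≤ 2 * a) (ha : 0 ≤ a)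
    (hm0 : 0 ≤ m) (hm : m ≤ k * s) (hk : 0 ≤ k) (hs : 0 ≤ s) (hy0 : 0 ≤ y) (hy : y ≤ 2)
    (hp : 0 ≤ p) : 4 * p * au * m * y ≤ 16 * p * k * (a * s) := by
  have h1 : au * m ≤ (2 * a) * (k * s) := mul_le_mul hau2 hm hm0 (by positivity)
  have h2 : au * m * y ≤ (2 * a) * (k * s) * 2 := mul_le_mul h1 hy hy0 (by positivity)
  calc 4 * p * au * m * y = 4 * p * (au * m * y) := by ring
    _ ≤ 4 * p * ((2 * a) * (k * s) * 2) := mul_le_mul_of_nonneg_left h2 (by positivity)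
    _ = _ := by ring

/-! ### The long range part `T3` -/

theorem U7E_T3 {κ : ℝ} (hκ : 0 < κ) {q a : ℝ} (hq : 0 < q) (hq1 : q ≤ 1 / 100) (ha : 0 < a)
    {n : ℕ} (hN : ((n + 2 : ℕ) : ℝ) * a ^ 3 = q ^ 400) {F : T3 → ℝ} (hF : GasFn lam3 F)
    (hZ : 0 < Zg F (n + 2)) {Ss : (Fin 3 → ℤ) → ℝ}
    (hSs : ∀ p, Ss p = 1 / (1 + 2 * 1 * ((n + 2 : ℕ) : ℝ) * mixh (omu κ q a) (tq q a) p))
    {B : ℝ} (hs : Summable (fun p => if p = 0 then 0
      else mixh (omu κ q a) (tq q a) p * |Sg F (n + 2) p - Ss p|))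
    (hB : tsum0 (fun p => mixh (omu κ q a) (tq q a) p * |Sg F (n + 2) p - Ss p|) ≤ B) :
    ∫ z, wl κ q a z * pp F n z ∂lam3
      ≤ 4 * Real.pi * auq q a - 1 / ((n + 2 : ℕ) : ℝ) * tsum0 (fun p => wlh κ q a p * (1 - Ss p))
        + 2 * K2 κ * a * B := by
  have hw := omw_ok hκ hq hq1 ha
  have hu0 : ∀ p, 0 ≤ mixh (omu κ q a) (tq q a) p := fun p => mixh_nonneg (omu_ok hκ hq hq1 ha) p
  have hw0 := wlh_nonneg hκ hq hq1 ha
  have hauq : 0 ≤ auq q a := mul_nonneg ha.le (zero_le_one.trans (one_le_alq hq hq1))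
  obtain ⟨hs1, hint⟩ := pp_fourier hF n hZ (mixh_summable hw) (mixh_neg (omw κ q a) (tq q a))
    (mix0_hasSum hw)
  have hK : 0 ≤ K2 κ := by
    unfold K2
    positivity
  have hl : 0 < lq q a ^ 2 := by
    unfold lq
    positivity
  have hNpos : (0 : ℝ) < ((n + 2 : ℕ) : ℝ) := by positivity
  have hNl : K2 κ / lq q a ^ 2 * (2 / ((n + 2 : ℕ) : ℝ)) = 2 * K2 κ * a := by
    have h1 : a * (((n + 2 : ℕ) : ℝ) * lq q a ^ 2) = 1 := by
      unfold lq
      rw [div_pow]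
      have e : a * (((n + 2 : ℕ) : ℝ) * (a ^ 2 / (q ^ 200) ^ 2))
          = ((n + 2 : ℕ) : ℝ) * a ^ 3 / (q ^ 200) ^ 2 := by ring
      rw [e, hN, ← pow_mul]
      exact div_self (pow_pos hq _).ne'
    have h2 : K2 κ / lq q a ^ 2 * (2 / ((n + 2 : ℕ) : ℝ))
        = 2 * K2 κ / (((n + 2 : ℕ) : ℝ) * lq q a ^ 2) := by
      field_simp
    rw [h2, div_eq_iff (by positivity)]
    linear_combination (-(2 * K2 κ)) * h1
  have hS1 : ∀ p, 0 ≤ 1 - Ss p ∧ 1 - Ss p ≤ 1 := by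
    intro p
    rw [hSs p]
    have h1 : 0 ≤ 2 * 1 * ((n + 2 : ℕ) : ℝ) * mixh (omu κ q a) (tq q a) p := by
      have := hu0 p
      positivity
    have h2 : 1 / (1 + 2 * 1 * ((n + 2 : ℕ) : ℝ) * mixh (omu κ q a) (tq q a) p) ≤ 1 := by
      rw [div_le_one (by linarith)]
      linarith
    have h3 : 0 ≤ 1 / (1 + 2 * 1 * ((n + 2 : ℕ) : ℝ) * mixh (omu κ q a) (tq q a) p) := by
      positivity
    constructor <;> linarith
  have hs2 : Summable (fun p => if p = 0 then 0 else wlh κ q a p * (1 - Ss p)) := by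
    refine Summable.of_nonneg_of_le (fun p => ?_) (fun p => ?_) (mixh_summable hw)
    · split_ifs
      · exact le_rfl
      · exact mul_nonneg (hw0 p) (hS1 p).1
    · split_ifs
      · exact hw0 p
      · exact mul_le_of_le_one_right (hw0 p) (hS1 p).2
  have hmain : tsum0 (fun p => mixh (omw κ q a) (tq q a) p * (Sg F (n + 2) p - 1) / (n + 1))
      ≤ -(1 / ((n + 2 : ℕ) : ℝ)) * tsum0 (fun p => wlh κ q a p * (1 - Ss p))
        + K2 κ / lq q a ^ 2 * (2 / ((n + 2 : ℕ) : ℝ))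
          * tsum0 (fun p => mixh (omu κ q a) (tq q a) p * |Sg F (n + 2) p - Ss p|) := by
    have hsum := (hs2.hasSum.mul_left (-(1 / ((n + 2 : ℕ) : ℝ)))).add
      (hs.hasSum.mul_left (K2 κ / lq q a ^ 2 * (2 / ((n + 2 : ℕ) : ℝ))))
    refine hasSum_le (fun p => ?_) hs1.hasSum hsum
    by_cases hp : p = 0
    · simp [hp]
    · simp only [if_neg hp]
      have hwp := hw0 p
      have hwu : wlh κ q a p ≤ K2 κ / lq q a ^ 2 * mixh (omu κ q a) (tq q a) p :=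
        wlh_le hκ hq hq1 ha p
      have hn1 : (0 : ℝ) < (n : ℝ) + 1 := by positivity
      have e1 : wlh κ q a p * (Sg F (n + 2) p - 1) / (n + 1)
          = -(1 / ((n : ℝ) + 1)) * (wlh κ q a p * (1 - Ss p))
            + 1 / ((n : ℝ) + 1) * (wlh κ q a p * (Sg F (n + 2) p - Ss p)) := by
        field_simp
        ring
      have e2 : 1 / ((n + 2 : ℕ) : ℝ) ≤ 1 / ((n : ℝ) + 1) := by
        refine one_div_le_one_div_of_le hn1 ?_
        push_cast
        linarith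
      have e3 : 1 / ((n : ℝ) + 1) ≤ 2 / ((n + 2 : ℕ) : ℝ) := by
        rw [div_le_div_iff₀ hn1 hNpos]
        push_cast
        have : (0 : ℝ) ≤ n := Nat.cast_nonneg n
        linarith
      have e4 : 1 / ((n + 2 : ℕ) : ℝ) * (wlh κ q a p * (1 - Ss p))
          ≤ 1 / ((n : ℝ) + 1) * (wlh κ q a p * (1 - Ss p)) :=
        mul_le_mul_of_nonneg_right e2 (mul_nonneg hwp (hS1 p).1)
      have e5 : 1 / ((n : ℝ) + 1) * (wlh κ q a p * (Sg F (n + 2) p - Ss p))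
          ≤ 1 / ((n : ℝ) + 1) * (wlh κ q a p * |Sg F (n + 2) p - Ss p|) :=
        mul_le_mul_of_nonneg_left (mul_le_mul_of_nonneg_left (le_abs_self _) hwp) (by positivity)
      have e6 : 1 / ((n : ℝ) + 1) * (wlh κ q a p * |Sg F (n + 2) p - Ss p|)
          ≤ 2 / ((n + 2 : ℕ) : ℝ) * ((K2 κ / lq q a ^ 2 * mixh (omu κ q a) (tq q a) p)
            * |Sg F (n + 2) p - Ss p|) :=
        mul_le_mul e3 (mul_le_mul_of_nonneg_right hwu (abs_nonneg _))
          (mul_nonneg hwp (abs_nonneg _)) (by positivity)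
      have e7 : mixh (omw κ q a) (tq q a) p = wlh κ q a p := rfl
      rw [e7, e1]
      calc _ ≤ -(1 / ((n + 2 : ℕ) : ℝ)) * (wlh κ q a p * (1 - Ss p))
            + 2 / ((n + 2 : ℕ) : ℝ) * ((K2 κ / lq q a ^ 2 * mixh (omu κ q a) (tq q a) p)
              * |Sg F (n + 2) p - Ss p|) := by linarith
        _ = _ := by ring
  have hw00 : mixh (omw κ q a) (tq q a) 0 ≤ 4 * Real.pi * auq q a := by
    have h1 := wlh_formula hκ hq hq1 ha 0
    have hk0 : ksq (0 : Fin 3 → ℤ) = 0 := HKE_ksq_zero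
    rw [hk0] at h1
    simp only [mul_zero, neg_zero, Real.exp_zero, mul_one, zero_mul, sub_zero] at h1
    have h2 : mh κ (q ^ 242) ≤ 1 := mh_le_one (by positivity)
    have h3 : 4 * Real.pi * auq q a * mh κ (q ^ 242) ≤ 4 * Real.pi * auq q a * 1 :=
      mul_le_mul_of_nonneg_left h2 (by positivity)
    calc mixh (omw κ q a) (tq q a) 0 = wlh κ q a 0 := rfl
      _ = 4 * Real.pi * auq q a * mh κ (q ^ 242) := h1
      _ ≤ 4 * Real.pi * auq q a := by linarith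
  have hB' : K2 κ / lq q a ^ 2 * (2 / ((n + 2 : ℕ) : ℝ))
      * tsum0 (fun p => mixh (omu κ q a) (tq q a) p * |Sg F (n + 2) p - Ss p|)
      ≤ 2 * K2 κ * a * B := by
    rw [hNl]
    exact mul_le_mul_of_nonneg_left hB (by positivity)
  have hfin : ∫ z, wl κ q a z * pp F n z ∂lam3 = mixh (omw κ q a) (tq q a) 0
      + tsum0 (fun p => mixh (omw κ q a) (tq q a) p * (Sg F (n + 2) p - 1) / (n + 1)) := hint
  rw [hfin]
  linarith

/-! ### Integration of the pointwise bound -/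

theorem U7E_int {κ : ℝ} (hκ : 0 < κ) {W f Q : ℝ → ℝ} {R₀ R a θ q : ℝ}
    (h : Reg W R₀ R a f Q θ q) {n : ℕ} (hF : GasFn lam3 (fun x => ftot κ q a f x ^ 2))
    {A c y₀ : ℝ} (hA : 0 ≤ A) (hc : 0 ≤ c)
    (hy : ∀ z, yy (fun x => ftot κ q a f x ^ 2) n z ≤ y₀)
    (hpt : ∀ᵐ x ∂lam3,
      2 * (effT (dftot κ q a f Q) (hftot κ q a f Q W) x + W (rr x) * ftot κ q a f x ^ 2)
      ≤ A * wrad q a f Q W (rr x) + c * (hk (tq q a) x * ftot κ q a f x ^ 2)
        + wl κ q a x * ftot κ q a f x ^ 2) :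
    ∫ z, 2 * (effT (dftot κ q a f Q) (hftot κ q a f Q W) z + W (rr z) * ftot κ q a f z ^ 2)
        * yy (fun x => ftot κ q a f x ^ 2) n z ∂lam3
      ≤ A * y₀ * (∫ x, wrad q a f Q W (rr x) ∂lam3) + c * y₀
        + ∫ z, wl κ q a z * pp (fun x => ftot κ q a f x ^ 2) n z ∂lam3 := by
  have hT := h.tdata hκ
  have ha := h.a_pos
  have ht : 0 < tq q a := tq_pos h.q_pos ha
  set F : T3 → ℝ := fun x => ftot κ q a f x ^ 2 with hFdef
  have hF1 : ∀ x, F x ≤ 1 := hF.le_one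
  have hF0 : ∀ x, 0 ≤ F x := hF.nonneg
  have hFbm : BM F := BM.of_mem_Icc hF.meas fun x => ⟨hF0 x, hF1 x⟩
  have hyb : BM (yy F n) := yy_bm hF n
  have hy0 : ∀ z, 0 ≤ yy F n z := yy_nonneg hF n
  have hppb : BM (pp F n) := hFbm.mul hyb
  have hwlb : BM (wl κ q a) := mix0_bm (omw_ok hκ h.q_pos h.q_le ha)
  have hrb : BM (fun x : T3 => wrad q a f Q W (rr x)) := h.wrad_bm
  have hkb : BM (hk (tq q a)) :=
    BM.of_mem_Icc (hkD_continuous 0 ht).measurable fun x => ⟨hk_nonneg _ x, hk_le ht x⟩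
  have heff : BM (effT (dftot κ q a f Q) (hftot κ q a f Q W)) :=
    (BM.finset_sum _ fun α _ => (hT.df_bm α).pow 2).sub
      ((BM.finset_sum _ fun α _ => hT.hf_bm α).const_mul (1 / 2))
  have hWb : BM (fun x : T3 => W (rr x)) := by
    obtain ⟨M, hM⟩ := h.sc.W_bdd
    exact BM.of_mem_Icc (h.sc.W_meas.comp rr_measurable) fun x => ⟨h.sc.W_nonneg _, hM _⟩
  have hL : BM (fun z => 2 * (effT (dftot κ q a f Q) (hftot κ q a f Q W) z + W (rr z) * F z)
      * yy F n z) := ((heff.add (hWb.mul hFbm)).const_mul 2).mul hyb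
  have h1b : BM (fun z => A * y₀ * wrad q a f Q W (rr z)) := hrb.const_mul _
  have h2b : BM (fun z => c * y₀ * hk (tq q a) z) := hkb.const_mul _
  have h3b : BM (fun z => wl κ q a z * pp F n z) := hwlb.mul hppb
  have hle : ∫ z, 2 * (effT (dftot κ q a f Q) (hftot κ q a f Q W) z + W (rr z) * F z)
        * yy F n z ∂lam3
      ≤ ∫ z, (A * y₀ * wrad q a f Q W (rr z) + c * y₀ * hk (tq q a) z
        + wl κ q a z * pp F n z) ∂lam3 := by
    refine integral_mono_ae (hL.integrable _) (((h1b.add h2b).add h3b).integrable _) ?_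
    filter_upwards [hpt] with x hx
    have e1 := mul_le_mul_of_nonneg_right hx (hy0 x)
    have e2 : A * wrad q a f Q W (rr x) * yy F n x ≤ A * wrad q a f Q W (rr x) * y₀ :=
      mul_le_mul_of_nonneg_left (hy x) (mul_nonneg hA (h.wrad_nonneg _))
    have e3 : c * (hk (tq q a) x * F x) * yy F n x ≤ c * (hk (tq q a) x * 1) * y₀ := by
      refine mul_le_mul ?_ (hy x) (hy0 x) ?_
      · exact mul_le_mul_of_nonneg_left (mul_le_mul_of_nonneg_left (hF1 x) (hk_nonneg _ x)) hc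
      · exact mul_nonneg hc (mul_nonneg (hk_nonneg _ x) zero_le_one)
    show 2 * (effT (dftot κ q a f Q) (hftot κ q a f Q W) x + W (rr x) * F x) * yy F n x
      ≤ A * y₀ * wrad q a f Q W (rr x) + c * y₀ * hk (tq q a) x + wl κ q a x * (F x * yy F n x)
    have e4 : (A * wrad q a f Q W (rr x) + c * (hk (tq q a) x * F x) + wl κ q a x * F x)
        * yy F n x = A * wrad q a f Q W (rr x) * yy F n x
          + c * (hk (tq q a) x * F x) * yy F n x + wl κ q a x * (F x * yy F n x) := by ring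
    calc _ ≤ (A * wrad q a f Q W (rr x) + c * (hk (tq q a) x * F x) + wl κ q a x * F x)
        * yy F n x := e1
      _ = A * wrad q a f Q W (rr x) * yy F n x
          + c * (hk (tq q a) x * F x) * yy F n x + wl κ q a x * (F x * yy F n x) := e4
      _ ≤ A * wrad q a f Q W (rr x) * y₀ + c * (hk (tq q a) x * 1) * y₀
          + wl κ q a x * (F x * yy F n x) := by linarith
      _ = _ := by ring
  refine hle.trans (le_of_eq ?_)
  rw [integral_add ((h1b.add h2b).integrable _) (h3b.integrable _),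
    integral_add (h1b.integrable _) (h2b.integrable _), integral_const_mul, integral_const_mul,
    hk_integral ht, mul_one]

/-- The bracket `-2 c_0 + V_N - (1/N) ∑_{p≠0} ŵ (1 - S*) / (4 π a)` times `4 π a`. -/
theorem energy_bracket {κ : ℝ} (hκ : 0 < κ) (hκ1 : κ ≤ 1) : ∃ C q₀ : ℝ, 0 ≤ C ∧ 0 < q₀ ∧
    ∀ (W f Q : ℝ → ℝ) (R₀ R a θ q : ℝ) (N : ℕ), Reg W R₀ R a f Q θ q → q ≤ q₀ →
    (N : ℝ) * a ^ 3 = q ^ 400 →
    (∀ z, yy (fun x => ftot κ q a f x ^ 2) (N - 2) z ≤ 2) ∧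
    0 < Zg (fun x => ftot κ q a f x ^ 2) N ∧
    ∫ z, 2 * (effT (dftot κ q a f Q) (hftot κ q a f Q W) z + W (rr z) * ftot κ q a f z ^ 2)
        * yy (fun x => ftot κ q a f x ^ 2) (N - 2) z ∂lam3
      ≤ 8 * Real.pi * a + 4 * Real.pi * a * (-(2 * c0q κ q a) + (DPot κ q a f Q W).Vn N)
        - 1 / N * tsum0 (fun p => wlh κ q a p * (1 - (DPot κ q a f Q W).Ss 1 N p))
        + C * a * q ^ 202 := by
  obtain ⟨Cg, hCg1, hGD⟩ := DPot_GD hκ hκ1
  obtain ⟨Cp, hCp1, hPB⟩ := DPot_PB hκ hκ1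
  have hC₁ : 1 ≤ max Cg Cp := hCg1.trans (le_max_left _ _)
  obtain ⟨C₃, hC3, hwtot⟩ := wtot_le hκ hκ1
  obtain ⟨C₄, hC4, hmr⟩ := main_radial
  obtain ⟨C₅, hC5, halq⟩ := alq_le
  obtain ⟨C₆, hC6, hul⟩ := ul_local hκ hκ1
  obtain ⟨q₇, hq7, hZpos⟩ := Zg_pos_of_GD hC₁
  obtain ⟨C₈, q₈, hq8, hO1⟩ := gas_O1 hC₁
  obtain ⟨C₉, q₉, hq9, hO2⟩ := gas_O2 hC₁
  generalize hC₁' : max Cg Cp = C₁ at hC₁ hZpos hO1 hO2
  have hC1g : Cg ≤ C₁ := hC₁' ▸ le_max_left _ _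
  have hC1p : Cp ≤ C₁ := hC₁' ▸ le_max_right _ _
  have hC10 : 0 ≤ C₁ := zero_le_one.trans hC₁
  obtain ⟨D₈, hD8, hCD8⟩ : ∃ D, 0 ≤ D ∧ C₈ ≤ D := ⟨max C₈ 0, le_max_right _ _, le_max_left _ _⟩
  obtain ⟨D₉, hD9, hCD9⟩ : ∃ D, 0 ≤ D ∧ C₉ ≤ D := ⟨max C₉ 0, le_max_right _ _, le_max_left _ _⟩
  obtain ⟨K, hKdef⟩ : ∃ K, K = C₃ + (2 * C₆ + C₃) ^ 2 + 8 * (2 * C₆ + C₃) * C₁ + 3 * D₉ := ⟨_, rfl⟩
  obtain ⟨U, hUdef⟩ : ∃ U, U = 2 * C₆ + 4 * C₁ := ⟨_, rfl⟩
  obtain ⟨M, hMdef⟩ : ∃ M, M = 2 * C₆ + C₃ + 4 * C₁ + D₉ + 1 := ⟨_, rfl⟩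
  have hK0 : 0 ≤ K := by rw [hKdef]; positivity
  have hU0 : 0 ≤ U := by rw [hUdef]; positivity
  have hM0 : 0 < M := by rw [hMdef]; positivity
  have hK2 : 0 ≤ K2 κ := by
    unfold K2
    positivity
  refine ⟨4 * Real.pi * (C₄ + (2 + C₄) * U + (1 + C₄) * K + C₅) + 16 * Real.pi * K2 κ
    + 2 * K2 κ * D₈, min (min q₇ q₈) (min q₉ (1 / M)), by positivity, by positivity, ?_⟩
  intro W f Q R₀ R a θ q N h hq0 hN
  have hq := h.q_pos
  have hq1 := h.q_le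
  have ha := h.a_pos
  have hqle : q ≤ 1 := hq1.trans (by norm_num)
  have hq7' : q ≤ q₇ := hq0.trans ((min_le_left _ _).trans (min_le_left _ _))
  have hq8' : q ≤ q₈ := hq0.trans ((min_le_left _ _).trans (min_le_right _ _))
  have hq9' : q ≤ q₉ := hq0.trans ((min_le_right _ _).trans (min_le_left _ _))
  have hqM' : q ≤ 1 / M := hq0.trans ((min_le_right _ _).trans (min_le_right _ _))
  have hMq : M * q ≤ 1 := by
    rw [le_div_iff₀ hM0] at hqM'
    linarith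
  have h200 : q ^ 200 ≤ q := by
    calc q ^ 200 ≤ q ^ 1 := pow_le_pow_of_le_one hq.le hqle (by norm_num)
      _ = q := pow_one q
  have h202 : q ^ 202 ≤ q := by
    calc q ^ 202 ≤ q ^ 1 := pow_le_pow_of_le_one hq.le hqle (by norm_num)
      _ = q := pow_one q
  have hp200 : 0 < q ^ 200 := pow_pos hq _
  have hp202 : 0 < q ^ 202 := pow_pos hq _
  set D : Dat := DPot κ q a f Q W with hD
  have hgd : D.GD C₁ q a N := U7E_GD_mono (hGD W f Q R₀ R a θ q N h hN) hC1g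
  have hpb : Dat.PB C₁ q a N D (mix0 (omp q a) (tq q a)) (mixh (omp q a) (tq q a)) :=
    U7E_PB_mono (hPB W f Q R₀ R a θ q N h hN) hC1p hq ha hgd.ok.uh_nonneg
  obtain ⟨n, rfl⟩ : ∃ n, N = n + 2 := by
    have h4 : 4 ≤ (N : ℝ) := by
      have h5 := hgd.Nq
      have h6 : q ^ 400 ≤ 1 := pow_le_one₀ hq.le hqle
      have h7 : (N : ℝ) * q ^ 400 ≤ N * 1 := mul_le_mul_of_nonneg_left h6 (Nat.cast_nonneg _)
      linarith
    have h5 : 4 ≤ N := by exact_mod_cast h4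
    exact ⟨N - 2, by omega⟩
  have hT := h.tdata hκ
  have hF : GasFn lam3 (fun x => ftot κ q a f x ^ 2) :=
    { meas := ((hT.WDf 0).sm.measurable).pow_const 2
      nonneg := fun x => sq_nonneg _
      le_one := fun x => pow_le_one₀ (hT.nonneg x) (hT.le_one x)
      even := fun x => by rw [hT.even x] }
  have hZ : 0 < Zg (fun x => ftot κ q a f x ^ 2) (n + 2) := by
    have h1 := hZpos q a (n + 2) D hgd hq7' (n + 2) le_rfl
    rw [hD, DPot_F] at h1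
    exact h1
  have hO1' := hO1 q a (n + 2) D hgd hq8'
  have hO2' := hO2 q a (n + 2) D _ _ hgd hpb hq9'
  rw [hD, DPot_F, ← hD] at hO1' hO2'
  have e2 : n + 2 - 2 = n := Nat.add_sub_cancel n 2
  rw [e2] at hO2' ⊢
  obtain ⟨hV0, hV⟩ := U7E_V hgd
  set F : T3 → ℝ := fun x => ftot κ q a f x ^ 2 with hFdef
  set y₀ : ℝ := yy F n 0 with hy₀
  have hy0 : 0 ≤ y₀ := yy_nonneg hF n 0
  have hyle : ∀ z, yy F n z ≤ y₀ := yy_le hF n
  have hyb : y₀ ≤ 1 + D.Vn (n + 2) + D₉ * q ^ 202 := by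
    have := mul_le_mul_of_nonneg_right hCD9 hp202.le
    linarith
  have hy2 : y₀ ≤ 2 := by
    have h1 : 4 * C₁ * q ^ 200 ≤ 4 * C₁ * q := mul_le_mul_of_nonneg_left h200 (by positivity)
    have h2 : D₉ * q ^ 202 ≤ D₉ * q := mul_le_mul_of_nonneg_left h202 hD9
    have h3 : (4 * C₁ + D₉) * q ≤ M * q := by
      refine mul_le_mul_of_nonneg_right ?_ hq.le
      rw [hMdef]
      linarith
    linarith
  refine ⟨fun z => (hyle z).trans hy2, hZ, ?_⟩
  -- constants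
  obtain ⟨hc0, -⟩ := hul q a hq hq1 ha h.aq
  have hα1 := one_le_alq hq hq1
  have hα2 := alq_le_two hq hq1
  have hauq : 0 ≤ auq q a := mul_nonneg ha.le (zero_le_one.trans hα1)
  have hauq2 : auq q a ≤ 2 * a := by
    unfold auq
    have := mul_le_mul_of_nonneg_left hα2 ha.le
    linarith
  have hmh1 : mh κ (q ^ 242) ≤ 1 := mh_le_one (by positivity)
  have hmh2 : 1 - mh κ (q ^ 242) ≤ K2 κ * q ^ 242 := by
    have := mh_ge_one_sub (κ := κ) (s := q ^ 242) (by positivity)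
    linarith
  obtain ⟨E, hE⟩ : ∃ E, E = Real.exp (-(2 * c0q κ q a) + C₃ * q ^ 300) := ⟨_, rfl⟩
  obtain ⟨G, hG⟩ : ∃ G, G = Real.exp (-(2 * (auq q a * sbf (tq q a) (bq q a))))
    / (1 - q ^ 80) ^ 2 := ⟨_, rfl⟩
  have hE0 : 0 ≤ E := by rw [hE]; exact (Real.exp_pos _).le
  have hG0 : 0 ≤ G := by rw [hG]; positivity
  have hint := U7E_int hκ h (n := n) hF (A := E * G)
    (c := 4 * Real.pi * auq q a * (1 - mh κ (q ^ 242))) (y₀ := y₀)
    (mul_nonneg hE0 hG0) (mul_nonneg (by positivity) (by linarith)) hyle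
    (by rw [hE, hG]; exact hwtot W f Q R₀ R a θ q h)
  -- `T1`
  have hT1a := hmr W f Q R₀ R a θ q h
  rw [← hG] at hT1a
  have hsm : (2 * C₆ + C₃) * q ^ 200 ≤ 1 := by
    have h1 : (2 * C₆ + C₃) * q ^ 200 ≤ (2 * C₆ + C₃) * q :=
      mul_le_mul_of_nonneg_left h200 (by positivity)
    have h2 : (2 * C₆ + C₃) * q ≤ M * q := by
      refine mul_le_mul_of_nonneg_right ?_ hq.le
      rw [hMdef]
      linarith
    linarith
  have hEy := U7E_arith1 (y := y₀) hq hqle hC10 hC3 hC6 hD9 hc0 hV0 hV hyb hsm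
  rw [← hE, ← hKdef] at hEy
  have hu : |-(2 * c0q κ q a) + D.Vn (n + 2)| ≤ U * q ^ 200 := by
    have h1 : |-(2 * c0q κ q a) + D.Vn (n + 2)| ≤ |-(2 * c0q κ q a)| + |D.Vn (n + 2)| :=
      abs_add_le _ _
    rw [abs_neg, abs_mul, abs_two, abs_of_nonneg hV0] at h1
    rw [hUdef]
    linarith
  obtain ⟨hP0, hP⟩ := U7E_arith2 hq (hq1.trans (by norm_num)) hK0 hU0 hC4 hu hEy
  have hT1 : E * G * y₀ * (∫ x, wrad q a f Q W (rr x) ∂lam3)
      ≤ 4 * Real.pi * a * (1 - q ^ 80 - q ^ 160 + (-(2 * c0q κ q a) + D.Vn (n + 2))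
        + (C₄ + (2 + C₄) * U + (1 + C₄) * K) * q ^ 202) := by
    calc E * G * y₀ * (∫ x, wrad q a f Q W (rr x) ∂lam3)
        = (E * y₀) * (G * ∫ x, wrad q a f Q W (rr x) ∂lam3) := by ring
      _ ≤ (E * y₀) * (4 * Real.pi * a * (1 - q ^ 80 - q ^ 160 + C₄ * q ^ 240)) :=
          mul_le_mul_of_nonneg_left hT1a (mul_nonneg hE0 hy0)
      _ = 4 * Real.pi * a * ((1 - q ^ 80 - q ^ 160 + C₄ * q ^ 240) * (E * y₀)) := by ring
      _ ≤ _ := mul_le_mul_of_nonneg_left hP (by positivity)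
  -- `T2`
  have hT2 : 4 * Real.pi * auq q a * (1 - mh κ (q ^ 242)) * y₀
      ≤ 16 * Real.pi * K2 κ * (a * q ^ 202) := by
    have h242 : q ^ 242 ≤ q ^ 202 := pow_le_pow_of_le_one hq.le hqle (by norm_num)
    exact U7E_arith3 hauq hauq2 ha.le (by linarith)
      (hmh2.trans (mul_le_mul_of_nonneg_left h242 hK2)) hK2 hp202.le hy0 hy2 Real.pi_pos.le
  -- `T3`
  have hT3 := U7E_T3 hκ hq hq1 ha hN hF hZ (Ss := D.Ss 1 (n + 2)) (fun p => rfl)
    (B := D₈ * q ^ 208) hO1'.1 (hO1'.2.trans (mul_le_mul_of_nonneg_right hCD8 (by positivity)))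
  have hT3b : 2 * K2 κ * a * (D₈ * q ^ 208) ≤ 2 * K2 κ * D₈ * (a * q ^ 202) := by
    have h208 : q ^ 208 ≤ q ^ 202 := pow_le_pow_of_le_one hq.le hqle (by norm_num)
    have h1 : 2 * K2 κ * a * D₈ * q ^ 208 ≤ 2 * K2 κ * a * D₈ * q ^ 202 :=
      mul_le_mul_of_nonneg_left h208 (by positivity)
    calc 2 * K2 κ * a * (D₈ * q ^ 208) = 2 * K2 κ * a * D₈ * q ^ 208 := by ring
      _ ≤ 2 * K2 κ * a * D₈ * q ^ 202 := h1
      _ = _ := by ring
  have hT3c : 4 * Real.pi * auq q a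
      ≤ 4 * Real.pi * a * (1 + q ^ 80 + q ^ 160 + C₅ * q ^ 202) := by
    have h240 : q ^ 240 ≤ q ^ 202 := pow_le_pow_of_le_one hq.le hqle (by norm_num)
    have h1 : alq q ≤ 1 + q ^ 80 + q ^ 160 + C₅ * q ^ 202 := by
      have h2 := halq q hq hq1
      have h3 : C₅ * q ^ 240 ≤ C₅ * q ^ 202 := mul_le_mul_of_nonneg_left h240 hC5
      linarith
    unfold auq
    calc 4 * Real.pi * (a * alq q) = 4 * Real.pi * a * alq q := by ring
      _ ≤ _ := mul_le_mul_of_nonneg_left h1 (by positivity)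
  refine hint.trans ?_
  have e5 : 4 * Real.pi * a * (1 - q ^ 80 - q ^ 160 + (-(2 * c0q κ q a) + D.Vn (n + 2))
        + (C₄ + (2 + C₄) * U + (1 + C₄) * K) * q ^ 202)
      + 16 * Real.pi * K2 κ * (a * q ^ 202)
      + (4 * Real.pi * a * (1 + q ^ 80 + q ^ 160 + C₅ * q ^ 202)
        - 1 / ((n + 2 : ℕ) : ℝ) * tsum0 (fun p => wlh κ q a p * (1 - D.Ss 1 (n + 2) p))
        + 2 * K2 κ * D₈ * (a * q ^ 202))
      = 8 * Real.pi * a + 4 * Real.pi * a * (-(2 * c0q κ q a) + D.Vn (n + 2))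
        - 1 / ((n + 2 : ℕ) : ℝ) * tsum0 (fun p => wlh κ q a p * (1 - D.Ss 1 (n + 2) p))
        + (4 * Real.pi * (C₄ + (2 + C₄) * U + (1 + C₄) * K + C₅) + 16 * Real.pi * K2 κ
          + 2 * K2 κ * D₈) * a * q ^ 202 := by
    ring
  rw [← e5]
  linarith

end Pool.Agent.Lib.MP_4952d6_mp

end

/-! ### U.U7F -/

section

/-!
# U7F: algebra: from the bracket to scaled sums
-/

set_option autoImplicit false
set_option linter.unusedSectionVars false
set_option linter.unusedVariables false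
open MeasureTheory Function Filter Topology Set
open scoped ENNReal

namespace Pool.Agent.Lib.MP_4952d6_mp

/-! ### sums over nonzero momenta -/

/-- summability over the nonzero momenta -/
def U7F_S0 (f : (Fin 3 → ℤ) → ℝ) : Prop := Summable (fun p => if p = 0 then 0 else f p)

lemma U7F_S0_of {f g : (Fin 3 → ℤ) → ℝ} (h : Summable g) (hfg : ∀ p, |f p| ≤ g p) :
    U7F_S0 f := by
  unfold U7F_S0
  refine Summable.of_norm_bounded h fun p => ?_
  have h0 := (abs_nonneg (f p)).trans (hfg p)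
  split_ifs
  · simpa using h0
  · simpa using hfg p

lemma U7F_add {f g : (Fin 3 → ℤ) → ℝ} (hf : U7F_S0 f) (hg : U7F_S0 g) :
    tsum0 (fun p => f p + g p) = tsum0 f + tsum0 g := by
  unfold tsum0
  rw [← hf.tsum_add hg]
  congr 1; ext p
  split_ifs <;> simp

lemma U7F_sub {f g : (Fin 3 → ℤ) → ℝ} (hf : U7F_S0 f) (hg : U7F_S0 g) :
    tsum0 (fun p => f p - g p) = tsum0 f - tsum0 g := by
  unfold tsum0
  rw [← hf.tsum_sub hg]
  congr 1; ext p
  split_ifs <;> simp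

lemma U7F_mul (c : ℝ) (f : (Fin 3 → ℤ) → ℝ) : tsum0 (fun p => c * f p) = c * tsum0 f := by
  unfold tsum0
  rw [← tsum_mul_left]
  congr 1; ext p
  split_ifs <;> simp

lemma U7F_S0_mul (c : ℝ) {f : (Fin 3 → ℤ) → ℝ} (hf : U7F_S0 f) : U7F_S0 (fun p => c * f p) := by
  unfold U7F_S0 at *
  refine (hf.mul_left c).congr fun p => ?_
  split_ifs <;> simp

lemma U7F_S0_sub {f g : (Fin 3 → ℤ) → ℝ} (hf : U7F_S0 f) (hg : U7F_S0 g) :
    U7F_S0 (fun p => f p - g p) := by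
  unfold U7F_S0 at *
  refine (hf.sub hg).congr fun p => ?_
  split_ifs <;> simp

lemma U7F_S0_add {f g : (Fin 3 → ℤ) → ℝ} (hf : U7F_S0 f) (hg : U7F_S0 g) :
    U7F_S0 (fun p => f p + g p) := by
  unfold U7F_S0 at *
  refine (hf.add hg).congr fun p => ?_
  split_ifs <;> simp

lemma U7F_mono {f g : (Fin 3 → ℤ) → ℝ} (hf : U7F_S0 f) (hg : U7F_S0 g) (h : ∀ p, f p ≤ g p) :
    tsum0 f ≤ tsum0 g := by
  unfold tsum0
  refine hf.tsum_le_tsum (fun p => ?_) hg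
  split_ifs
  · exact le_rfl
  · exact h p

lemma U7F_nonneg {f : (Fin 3 → ℤ) → ℝ} (h : ∀ p, 0 ≤ f p) : 0 ≤ tsum0 f := by
  unfold tsum0
  refine tsum_nonneg fun p => ?_
  split_ifs
  · exact le_rfl
  · exact h p

lemma U7F_congr {f g : (Fin 3 → ℤ) → ℝ} (h : ∀ p, f p = g p) : tsum0 f = tsum0 g := by
  have : f = g := funext h
  rw [this]

lemma U7F_total {f : (Fin 3 → ℤ) → ℝ} (h : Summable f) : ∑' p, f p = f 0 + tsum0 f := by
  unfold tsum0
  exact h.tsum_eq_add_tsum_ite 0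

/-! ### the algebra -/

/-- pure algebra of the main identity -/
lemma U7F_alg {N a α l sb0 x0 Sx SA SB SeA SkB m c0 V w Isq q200 : ℝ} (hN : N ≠ 0) (hl : l ≠ 0)
    (ha : a ≠ 0)
    (hNl : N * a * l ^ 2 = 1) (hq : q200 * l = a)
    (hI : Isq = 16 * Real.pi * α ^ 2 * (l * sb0))
    (hV : V = 1 / N * SB) (hSA : SA = Sx - SB)
    (hc0 : -(2 * c0) = 2 * (a * α) * sb0 - 1 / N * (x0 + Sx))
    (hw : w = 4 * Real.pi * (a * α) * m * SeA - 1 / (2 * N) * SkB) :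
    N ^ 2 / 2 * (4 * Real.pi * a * (-(2 * c0) + V) - 1 / N * w)
      = N ^ 2 * a * q200 * (1 / 4 * (Isq - l ^ 3 * (8 * Real.pi * α * (SA + SeA) / 1
          - l ^ 2 * SkB)))
        + 2 * Real.pi * a * N * (-(α - 1) * (-(2 * N * c0) + x0 + SB) - x0
          + α * (1 - m) * SeA) := by
  have h1 : q200 = a / l := by rw [eq_div_iff hl]; exact hq
  have h2 : N = 1 / (a * l ^ 2) := by
    rw [eq_div_iff (mul_ne_zero ha (pow_ne_zero 2 hl)), ← mul_assoc]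
    exact hNl
  have hc : c0 = -(1 / 2) * (2 * (a * α) * sb0 - 1 / N * (x0 + Sx)) := by linarith only [hc0]
  rw [hc, hV, hw, hI, h1, hSA]
  have e1 : l ^ 3 * N ^ 2 * a * (a / l) = 1 / l ^ 2 := by
    rw [h2]; field_simp
  have e2 : N * a = 1 / l ^ 2 := by
    rw [h2]; field_simp
  rw [h2]
  field_simp
  ring

theorem scaled_energy {κ : ℝ} (hκ : 0 < κ) (hκ1 : κ ≤ 1) (C₁ : ℝ) : ∃ C : ℝ, 0 ≤ C ∧
    ∀ (W f Q : ℝ → ℝ) (q a : ℝ) (N : ℕ), 0 < q → q ≤ 1 / 100 → 0 < a → a ≤ q ^ 1000 →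
    (N : ℝ) * a ^ 3 = q ^ 400 → |c0q κ q a| ≤ C₁ * q ^ 200 →
    (N : ℝ) * ∑' p, mixh (omu κ q a) (tq q a) p ^ 2 ≤ C₁ * q ^ 200 →
    Summable (fun p : Fin 3 → ℤ => if p = 0 then 0 else hs κ q (lq q a * Real.sqrt (ksq p))) ∧
    (N : ℝ) ^ 2 / 2 * (4 * Real.pi * a * (-(2 * c0q κ q a) + (DPot κ q a f Q W).Vn N)
        - 1 / N * tsum0 (fun p => wlh κ q a p * (1 - (DPot κ q a f Q W).Ss 1 N p)))
      ≤ (N : ℝ) ^ 2 * a * q ^ 200 * (1 / 4 * (Isq q - lq q a ^ 3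
          * tsum0 (fun p => hs κ q (lq q a * Real.sqrt (ksq p)))))
        + C * (N : ℝ) ^ 2 * a * q ^ 242 := by
  obtain ⟨C₂, hC₂0, hC₂⟩ := alq_le
  have hK2 : 0 < K2 κ := by unfold K2; positivity
  refine ⟨2 * Real.pi * ((2 + C₂) * (6 * |C₁| + 16 * Real.pi / κ ^ 2)
    + 2 * K2 κ * (2 * (|C₁| + 2))), by positivity, ?_⟩
  intro W f Q q a N hq hq1 ha haq hNa hc hsq
  have hpi := Real.pi_pos
  have hok := omu_ok hκ hq hq1 ha
  set u : (Fin 3 → ℤ) → ℝ := mixh (omu κ q a) (tq q a) with hu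
  set l : ℝ := lq q a with hl
  have hlpos : 0 < l := by rw [hl]; unfold lq; positivity
  have hl2 : l = a / q ^ 200 := rfl
  have hu0 : ∀ p, 0 ≤ u p := fun p => mixh_nonneg hok p
  have hus : Summable u := mixh_summable hok
  have hN3 : (0:ℝ) < N := by
    by_contra hcon
    have h0 : (N : ℝ) = 0 := le_antisymm (not_lt.1 hcon) (Nat.cast_nonneg N)
    rw [h0, zero_mul] at hNa
    have : 0 < q ^ 400 := by positivity
    linarith only [this, hNa]
  have hNl : (N : ℝ) * a * l ^ 2 = 1 := by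
    rw [hl2]
    have : (N : ℝ) * a * (a / q ^ 200) ^ 2 = (N * a ^ 3) / q ^ 400 := by
      field_simp
    rw [this, hNa, div_self (by positivity)]
  set α : ℝ := alq q with hα
  have hα1 : 1 ≤ α := one_le_alq hq hq1
  have hα2 : α ≤ 2 := alq_le_two hq hq1
  have hau : auq q a = a * α := rfl
  -- x
  set x : (Fin 3 → ℤ) → ℝ := fun p => 2 * N * u p with hx
  have hx0 : ∀ p, 0 ≤ x p := fun p => by
    have := hu0 p
    simp only [hx]; positivity
  have hX : ∀ p, Xs κ q (l * Real.sqrt (ksq p)) = x p := by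
    intro p
    have hk : 0 ≤ ksq p := by
      unfold ksq; exact mul_nonneg (by positivity) (mom2_nonneg p)
    unfold Xs
    rw [mul_pow, Real.sq_sqrt hk]
    simp only [hx, hu]
    rw [uh_formula hκ hq ha p, hau]
    have : (2 * (N : ℝ) * (4 * Real.pi * (a * α) * lq q a ^ 2 * Lh κ (q ^ 242) (lq q a ^ 2 * ksq p)))
        = 8 * Real.pi * α * Lh κ (q ^ 242) (l ^ 2 * ksq p) * (N * a * l ^ 2) := by
      rw [hl]; ring
    rw [this, hNl, mul_one]
  set A : (Fin 3 → ℤ) → ℝ := fun p => x p / (1 + x p) with hA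
  set B : (Fin 3 → ℤ) → ℝ := fun p => x p ^ 2 / (1 + x p) with hB
  set e : (Fin 3 → ℤ) → ℝ := fun p => Real.exp (-(tq q a * ksq p)) with he
  have hk0 : ∀ p : Fin 3 → ℤ, 0 ≤ ksq p := fun p => by
    unfold ksq; exact mul_nonneg (by positivity) (mom2_nonneg p)
  have htq := tq_pos hq ha
  have he0 : ∀ p, 0 ≤ e p := fun p => Real.exp_nonneg _
  have he1 : ∀ p, e p ≤ 1 := fun p => by
    simp only [he]
    rw [Real.exp_le_one_iff]
    have := mul_nonneg htq.le (hk0 p)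
    linarith only [this]
  have hA0 : ∀ p, 0 ≤ A p := fun p => div_nonneg (hx0 p) (by have := hx0 p; linarith only [this])
  have hAx : ∀ p, A p ≤ x p := fun p => div_le_self (hx0 p) (by have := hx0 p; linarith only [this])
  have hB0 : ∀ p, 0 ≤ B p := fun p => div_nonneg (sq_nonneg _) (by have := hx0 p; linarith only [this])
  have hBx : ∀ p, B p ≤ x p := fun p => by
    have h1 := hx0 p
    simp only [hB]
    rw [div_le_iff₀ (by linarith only [h1])]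
    have h2 : x p * (1 + x p) = x p + x p ^ 2 := by ring
    linarith only [h1, h2]
  have hBx2 : ∀ p, B p ≤ x p ^ 2 := fun p => div_le_self (sq_nonneg _) (by have := hx0 p; linarith only [this])
  have hxs : Summable x := hus.mul_left _
  have habs : ∀ {f : (Fin 3 → ℤ) → ℝ}, (∀ p, 0 ≤ f p) → (∀ p, f p ≤ x p) → U7F_S0 f := by
    intro f h0 h1
    exact U7F_S0_of hxs fun p => by rw [abs_of_nonneg (h0 p)]; exact h1 p
  have sA : U7F_S0 A := habs hA0 hAx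
  have sB : U7F_S0 B := habs hB0 hBx
  have sx : U7F_S0 x := habs hx0 fun p => le_rfl
  have seA : U7F_S0 (fun p => e p * A p) := habs (fun p => mul_nonneg (he0 p) (hA0 p))
    fun p => (mul_le_of_le_one_left (hA0 p) (he1 p)).trans (hAx p)
  set M : ℝ := 4 * Real.pi * auq q a with hM
  have hM0 : 0 < M := by
    rw [hM, hau]
    have : 0 < a * α := mul_pos ha (by linarith only [hα1])
    positivity
  have skB : U7F_S0 (fun p => ksq p * B p) := by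
    refine U7F_S0_of (hxs.mul_left (2 * N * M)) fun p => ?_
    rw [abs_of_nonneg (mul_nonneg (hk0 p) (hB0 p))]
    have h1 := ksq_mul_mixh_le hok p
    have h2 : ksq p * x p ≤ 2 * N * M := by
      simp only [hx]
      calc ksq p * (2 * N * u p) = 2 * N * (ksq p * u p) := by ring
        _ ≤ 2 * N * M := mul_le_mul_of_nonneg_left h1 (by positivity)
    calc ksq p * B p ≤ ksq p * x p ^ 2 := mul_le_mul_of_nonneg_left (hBx2 p) (hk0 p)
      _ = (ksq p * x p) * x p := by ring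
      _ ≤ 2 * N * M * x p := mul_le_mul_of_nonneg_right h2 (hx0 p)
  -- hs
  have hhs : ∀ p, hs κ q (l * Real.sqrt (ksq p))
      = 8 * Real.pi * α * (A p + e p * A p) - l ^ 2 * (ksq p * B p) := by
    intro p
    have h1 : q ^ 242 * (l * Real.sqrt (ksq p)) ^ 2 = tq q a * ksq p := by
      rw [mul_pow, Real.sq_sqrt (hk0 p), ← tq_div_lq hq ha, ← hl]
      have : l ≠ 0 := hlpos.ne'
      field_simp
    unfold hs
    rw [hX, h1, mul_pow, Real.sq_sqrt (hk0 p)]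
    simp only [hA, hB, he, hα]
    ring
  have shs : U7F_S0 (fun p => hs κ q (l * Real.sqrt (ksq p))) := by
    have := U7F_S0_sub (U7F_S0_mul (8 * Real.pi * α) (U7F_S0_add sA seA)) (U7F_S0_mul (l ^ 2) skB)
    have e1 : (fun p => hs κ q (l * Real.sqrt (ksq p)))
        = fun p => 8 * Real.pi * α * (A p + e p * A p) - l ^ 2 * (ksq p * B p) := funext hhs
    rw [e1]; exact this
  refine ⟨shs, ?_⟩
  have hths : tsum0 (fun p => hs κ q (l * Real.sqrt (ksq p)))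
      = 8 * Real.pi * α * (tsum0 A + tsum0 (fun p => e p * A p)) / 1
        - l ^ 2 * tsum0 (fun p => ksq p * B p) := by
    rw [U7F_congr hhs, U7F_sub (U7F_S0_mul _ (U7F_S0_add sA seA)) (U7F_S0_mul _ skB), U7F_mul,
      U7F_mul, U7F_add sA seA, div_one]
  -- V
  have hV : (DPot κ q a f Q W).Vn N = 1 / N * tsum0 B := by
    unfold Dat.Vn
    rw [← U7F_mul]
    refine U7F_congr fun p => ?_
    change 4 * (N : ℝ) * u p ^ 2 / (1 + 2 * N * u p) = 1 / N * ((2 * N * u p) ^ 2 / (1 + 2 * N * u p))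
    have : (0:ℝ) < 1 + 2 * N * u p := by have := hx0 p; simp only [hx] at this; linarith only [this]
    field_simp
    ring
  have hSA : tsum0 A = tsum0 x - tsum0 B := by
    rw [← U7F_sub sx sB]
    refine U7F_congr fun p => ?_
    have : 0 < 1 + x p := by have := hx0 p; linarith only [this]
    simp only [hA, hB]
    field_simp
    ring
  -- c0
  set sb0 : ℝ := sbf (tq q a) 0 with hsb0
  have htot : ∑' p, u p = 1 / (2 * N) * (x 0 + tsum0 x) := by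
    rw [U7F_total hus]
    have : tsum0 x = 2 * N * tsum0 u := by rw [← U7F_mul]
    rw [this]
    simp only [hx]
    field_simp
  have hc0 : -(2 * c0q κ q a) = 2 * (a * α) * sb0 - 1 / N * (x 0 + tsum0 x) := by
    unfold c0q
    rw [mix0_zero_eq hok, htot, hau]
    field_simp
    ring
  -- w
  have hw : tsum0 (fun p => wlh κ q a p * (1 - (DPot κ q a f Q W).Ss 1 N p))
      = 4 * Real.pi * (a * α) * mh κ (q ^ 242) * tsum0 (fun p => e p * A p)
        - 1 / (2 * N) * tsum0 (fun p => ksq p * B p) := by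
    rw [← U7F_mul, ← U7F_mul, ← U7F_sub (U7F_S0_mul _ seA) (U7F_S0_mul _ skB)]
    refine U7F_congr fun p => ?_
    rw [wlh_formula hκ hq hq1 ha p]
    have h1 : 1 - (DPot κ q a f Q W).Ss 1 N p = A p := by
      change 1 - 1 / (1 + 2 * 1 * (N : ℝ) * u p) = 2 * N * u p / (1 + 2 * N * u p)
      have : (0:ℝ) < 1 + 2 * N * u p := by have := hx0 p; simp only [hx] at this; linarith only [this]
      have h2 : (1 + 2 * 1 * (N : ℝ) * u p) = 1 + 2 * N * u p := by ring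
      rw [h2]
      field_simp
      ring
    rw [h1]
    change (4 * Real.pi * (a * α) * mh κ (q ^ 242) * e p - ksq p * u p) * A p
      = 4 * Real.pi * (a * α) * mh κ (q ^ 242) * (e p * A p) - 1 / (2 * N) * (ksq p * B p)
    have h3 : ksq p * u p * A p = 1 / (2 * N) * (ksq p * B p) := by
      have : 0 < 1 + x p := by have := hx0 p; linarith only [this]
      simp only [hA, hB]
      have h4 : u p = x p / (2 * N) := by simp only [hx]; field_simp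
      rw [h4]
      field_simp
    rw [sub_mul, h3]
    ring
  have hI : Isq q = 16 * Real.pi * α ^ 2 * (l * sb0) := by
    rw [hsb0, sbf_zero htq]
    have h1 : Real.pi * tq q a = (Real.pi * q ^ 242) * l ^ 2 := by
      rw [← tq_div_lq hq ha, ← hl]
      have : l ≠ 0 := hlpos.ne'
      field_simp
    rw [h1, Real.sqrt_mul (by positivity), Real.sqrt_sq hlpos.le]
    unfold Isq
    have h2 : 0 < Real.sqrt (Real.pi * q ^ 242) := Real.sqrt_pos.2 (by positivity)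
    rw [← hα]
    field_simp
    ring
  have hql : q ^ 200 * l = a := by rw [hl2]; field_simp
  have key := U7F_alg (N := (N : ℝ)) (m := mh κ (q ^ 242)) hN3.ne' hlpos.ne' ha.ne' hNl hql hI hV hSA hc0 hw
  rw [hths, key]
  -- bounds
  set SA : ℝ := tsum0 A
  set SB : ℝ := tsum0 B
  set SeA : ℝ := tsum0 (fun p => e p * A p)
  have hC1 : C₁ ≤ |C₁| := le_abs_self _
  have hq1' : q ≤ 1 := by linarith only [hq1]
  have hSB0 : 0 ≤ SB := U7F_nonneg hB0
  have hSeA0 : 0 ≤ SeA := U7F_nonneg fun p => mul_nonneg (he0 p) (hA0 p)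
  have hu2s : Summable (fun p => u p ^ 2) := by
    have h1 := (mixh_mul_tsum hok hok).1
    exact h1.congr fun p => by rw [sq]
  have hSB : SB ≤ 4 * N * (|C₁| * q ^ 200) := by
    have h1 : SB ≤ ∑' p, (2 * N * u p) ^ 2 := by
      have hs2 : Summable (fun p => (2 * (N:ℝ) * u p) ^ 2) :=
        (hu2s.mul_left (4 * (N:ℝ) ^ 2)).congr fun p => by ring
      unfold SB
      unfold tsum0
      refine sB.tsum_le_tsum (fun p => ?_) hs2
      split_ifs
      · positivity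
      · exact hBx2 p
    refine h1.trans ?_
    have h2 : ∑' p, (2 * (N:ℝ) * u p) ^ 2 = 4 * N * (N * ∑' p, u p ^ 2) := by
      rw [← tsum_mul_left, ← tsum_mul_left]
      congr 1; ext p; ring
    rw [h2]
    refine mul_le_mul_of_nonneg_left (hsq.trans ?_) (by positivity)
    exact mul_le_mul_of_nonneg_right hC1 (by positivity)
  have hNq : 1 ≤ (N : ℝ) * q ^ 200 := by
    have h1 : (N : ℝ) = q ^ 400 / a ^ 3 := by rw [eq_div_iff (pow_ne_zero 3 ha.ne')]; exact hNa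
    rw [h1, div_mul_eq_mul_div, le_div_iff₀ (by positivity), one_mul]
    have h2 : a ^ 3 ≤ (q ^ 1000) ^ 3 := pow_le_pow_left₀ ha.le haq 3
    refine h2.trans ?_
    rw [← pow_mul, ← pow_add]
    exact pow_le_pow_of_le_one hq.le hq1' (by norm_num)
  have hx00 : x 0 ≤ 16 * Real.pi / κ ^ 2 * (N * q ^ 200) := by
    have h1 := mixh_zero_le hok
    have h2 : x 0 ≤ 2 * N * (4 * Real.pi * auq q a / (κ ^ 2 / lq q a ^ 2)) := by
      simp only [hx]
      exact mul_le_mul_of_nonneg_left h1 (by positivity)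
    have h3 : 2 * (N : ℝ) * (4 * Real.pi * auq q a / (κ ^ 2 / lq q a ^ 2))
        = 8 * Real.pi * α / κ ^ 2 * (N * a * l ^ 2) := by
      rw [hau, hl]; field_simp; ring
    rw [h3, hNl, mul_one] at h2
    have h4 : 8 * Real.pi * α / κ ^ 2 ≤ 16 * Real.pi / κ ^ 2 := by
      refine div_le_div_of_nonneg_right ?_ (by positivity)
      have h5 := mul_le_mul_of_nonneg_left hα2 hpi.le
      linarith only [h5]
    refine h2.trans (h4.trans ?_)
    exact le_mul_of_one_le_right (by positivity) hNq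
  have hSeA : SeA ≤ 2 * N * (|C₁| + 2) := by
    have h1 : SeA ≤ tsum0 x := U7F_mono seA sx fun p =>
      (mul_le_of_le_one_left (hA0 p) (he1 p)).trans (hAx p)
    have h2 : tsum0 x ≤ ∑' p, x p := by
      rw [U7F_total hxs]; have := hx0 0; linarith only [this]
    have h3 : ∑' p, x p = 2 * N * (c0q κ q a + auq q a * sb0) := by
      simp only [hx]
      rw [tsum_mul_left]
      unfold c0q
      rw [mix0_zero_eq hok]
      ring
    have h4 : auq q a * sb0 ≤ 2 := by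
      rw [hsb0, sbf_zero htq, hau]
      have h5 : Real.sqrt (Real.pi * tq q a) = Real.sqrt Real.pi * (a / q ^ 79) := by
        rw [Real.sqrt_mul hpi.le, sqrt_tq hq ha]
      rw [h5, mul_one_div, div_le_iff₀ (by positivity)]
      have h6 : 1 ≤ Real.sqrt Real.pi := by
        rw [Real.one_le_sqrt]
        linarith only [Real.pi_gt_three]
      have h7 : 1 ≤ 1 / q ^ 79 := by
        rw [le_div_iff₀ (by positivity), one_mul]
        exact pow_le_one₀ hq.le hq1'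
      have h8 : 1 ≤ Real.sqrt Real.pi * (1 / q ^ 79) := one_le_mul_of_one_le_of_one_le h6 h7
      calc a * α ≤ a * 2 := mul_le_mul_of_nonneg_left hα2 ha.le
        _ = 2 * a * 1 := by ring
        _ ≤ 2 * a * (Real.sqrt Real.pi * (1 / q ^ 79)) :=
            mul_le_mul_of_nonneg_left h8 (by positivity)
        _ = 2 * (Real.sqrt Real.pi * (a / q ^ 79)) := by ring
    have h5 : c0q κ q a ≤ |C₁| := by
      have h6 := (le_abs_self (c0q κ q a)).trans hc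
      have h7 : C₁ * q ^ 200 ≤ |C₁| * q ^ 200 := mul_le_mul_of_nonneg_right hC1 (by positivity)
      have h8 : |C₁| * q ^ 200 ≤ |C₁| * 1 :=
        mul_le_mul_of_nonneg_left (pow_le_one₀ hq.le hq1') (abs_nonneg _)
      linarith only [h6, h7, h8]
    refine h1.trans (h2.trans ?_)
    rw [h3]
    exact mul_le_mul_of_nonneg_left (by linarith only [h4, h5]) (by positivity)
  -- final estimate
  have hα80 : α - 1 ≤ (2 + C₂) * q ^ 80 := by
    have h1 := hC₂ q hq hq1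
    have h2 : q ^ 160 ≤ q ^ 80 := pow_le_pow_of_le_one hq.le hq1' (by norm_num)
    have h3 : q ^ 240 ≤ q ^ 80 := pow_le_pow_of_le_one hq.le hq1' (by norm_num)
    have h4 := mul_le_mul_of_nonneg_left h3 hC₂0
    rw [← hα] at h1
    linarith only [h1, h2, h3, h4]
  have hmm : 1 - mh κ (q ^ 242) ≤ K2 κ * q ^ 242 := by
    have := mh_ge_one_sub (κ := κ) (s := q ^ 242) (by positivity)
    linarith only [this]
  have hmm0 : 0 ≤ 1 - mh κ (q ^ 242) := by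
    have := mh_le_one (κ := κ) (s := q ^ 242) (by positivity)
    linarith only [this]
  have hBk : -(-(2 * N * c0q κ q a) + x 0 + SB) ≤ 2 * N * (|C₁| * q ^ 200) := by
    have h6 := (le_abs_self (c0q κ q a)).trans hc
    have h7 : C₁ * q ^ 200 ≤ |C₁| * q ^ 200 := mul_le_mul_of_nonneg_right hC1 (by positivity)
    have h8 : 2 * (N:ℝ) * c0q κ q a ≤ 2 * N * (|C₁| * q ^ 200) :=
      mul_le_mul_of_nonneg_left (h6.trans h7) (by positivity)
    have h9 := hx0 0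
    linarith only [h8, h9, hSB0]
  have hT1 : -(α - 1) * (-(2 * N * c0q κ q a) + x 0 + SB)
      ≤ ((2 + C₂) * (6 * |C₁| + 16 * Real.pi / κ ^ 2)) * (N * q ^ 242) := by
    have h1 : -(α - 1) * (-(2 * N * c0q κ q a) + x 0 + SB)
        = (α - 1) * (-(-(2 * N * c0q κ q a) + x 0 + SB)) := by ring
    rw [h1]
    have h2 : (α - 1) * (-(-(2 * N * c0q κ q a) + x 0 + SB))
        ≤ (α - 1) * (2 * N * (|C₁| * q ^ 200)) :=
      mul_le_mul_of_nonneg_left hBk (by linarith only [hα1])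
    have h3 : (α - 1) * (2 * N * (|C₁| * q ^ 200)) ≤ (2 + C₂) * q ^ 80 * (2 * N * (|C₁| * q ^ 200)) :=
      mul_le_mul_of_nonneg_right hα80 (by positivity)
    have h4 : (2 + C₂) * q ^ 80 * (2 * N * (|C₁| * q ^ 200))
        = (2 + C₂) * (2 * |C₁|) * (N * q ^ 280) := by ring
    have h5 : q ^ 280 ≤ q ^ 242 := pow_le_pow_of_le_one hq.le hq1' (by norm_num)
    have h6 : (2 + C₂) * (2 * |C₁|) * (N * q ^ 280) ≤ (2 + C₂) * (2 * |C₁|) * (N * q ^ 242) :=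
      mul_le_mul_of_nonneg_left (mul_le_mul_of_nonneg_left h5 hN3.le) (by positivity)
    have h7 : (2 + C₂) * (2 * |C₁|) * (N * q ^ 242)
        ≤ ((2 + C₂) * (6 * |C₁| + 16 * Real.pi / κ ^ 2)) * (N * q ^ 242) := by
      refine mul_le_mul_of_nonneg_right ?_ (by positivity)
      refine mul_le_mul_of_nonneg_left ?_ (by positivity)
      have h8 : 0 ≤ 16 * Real.pi / κ ^ 2 := by positivity
      have h9 := abs_nonneg C₁
      linarith only [h8, h9]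
    rw [h4] at h3
    exact h2.trans (h3.trans (h6.trans h7))
  have hT2 : α * (1 - mh κ (q ^ 242)) * SeA ≤ 2 * K2 κ * (2 * (|C₁| + 2)) * (N * q ^ 242) := by
    calc α * (1 - mh κ (q ^ 242)) * SeA
        ≤ 2 * (K2 κ * q ^ 242) * (2 * N * (|C₁| + 2)) :=
          mul_le_mul (mul_le_mul hα2 hmm hmm0 (by norm_num)) hSeA hSeA0 (by positivity)
      _ = _ := by ring
  have hfin : -(α - 1) * (-(2 * N * c0q κ q a) + x 0 + SB) - x 0 + α * (1 - mh κ (q ^ 242)) * SeA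
      ≤ ((2 + C₂) * (6 * |C₁| + 16 * Real.pi / κ ^ 2) + 2 * K2 κ * (2 * (|C₁| + 2)))
        * (N * q ^ 242) := by
    have h9 := hx0 0
    rw [add_mul]
    linarith only [h9, hT1, hT2]
  have hfin2 := mul_le_mul_of_nonneg_left hfin (by positivity : 0 ≤ 2 * Real.pi * a * N)
  have e9 : 2 * Real.pi * a * N * (((2 + C₂) * (6 * |C₁| + 16 * Real.pi / κ ^ 2)
      + 2 * K2 κ * (2 * (|C₁| + 2))) * (N * q ^ 242))
      = 2 * Real.pi * ((2 + C₂) * (6 * |C₁| + 16 * Real.pi / κ ^ 2)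
        + 2 * K2 κ * (2 * (|C₁| + 2))) * (N : ℝ) ^ 2 * a * q ^ 242 := by ring
  rw [e9] at hfin2
  linarith only [hfin2]

end Pool.Agent.Lib.MP_4952d6_mp

end

/-! ### U.U8E -/

section

/-!
# U8E: the sharp upper bound

Given `θ ≥ 1, η > 0`: choose `κ` with `Phk κ ≤ J0 + η/4` (`limit_kappa`), then `q₁` with `Phq κ q ≤ Phk κ + η/4` for `q ≤ q₁` (`limit_q`), and `C q² ≤ η/4` for the
constants of `energy_bracket` (`C q^202 = C q² q^200`), `scaled_energy`; `Y₀ = q₁^200`, `q = Y^{1/200}`. Then by `limit_l` there is `l₀(q)` with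
`(1/4)(Isq - l³ Σ) ≤ Phq κ q + η/8` for `l ≤ l₀`; `a₀ = min(q^1000, l₀ q^200)`. `N² a Y = N² a q^200`.
`TData.upper` (with `Wt = W ∘ rr`, `Λ = 2`) gives `tE ≤ N(N-1)(I/2 + ζ)`, `I = ∫ 2(effT + ..) yy ≥ 0`, so `≤ N² I/2 + N² ζ`, and
`energy_bracket`, `scaled_energy` bound `N² I/2` (`|c_0|` and `N Σ û²` bounds: `ul_local`, `DPot_GD`).
If `θ q ≤ 1` fails shrink `q₁`. `N ≥ 2` because `N q^400 ≥ 4`.
-/

set_option autoImplicit false
set_option linter.unusedSectionVars false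
set_option linter.unusedVariables false
open MeasureTheory Function Filter Topology Set
open scoped ENNReal

namespace Pool.Agent.Lib.MP_4952d6_mp

/-- choice of `κ` -/
theorem U8E_kappa {η : ℝ} (hη : 0 < η) : ∃ κ : ℝ, 0 < κ ∧ κ ≤ 1 ∧ Phk κ ≤ J0 + η / 4 := by
  have h1 : ∀ᶠ κ in 𝓝[>] (0 : ℝ), Phk κ < J0 + η / 4 :=
    limit_kappa.eventually_lt_const (by linarith)
  have h2 : ∀ᶠ κ in 𝓝[>] (0 : ℝ), κ ∈ Ioo (0 : ℝ) 1 := Ioo_mem_nhdsGT one_pos
  obtain ⟨κ, h3, h4⟩ := (h1.and h2).exists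
  exact ⟨κ, h4.1, h4.2.le, h3.le⟩

/-- a function with a right limit at `0` is bounded by the limit plus `η/4` near `0` -/
theorem U8E_ev {F : ℝ → ℝ} {L η : ℝ} (hη : 0 < η) (h : Tendsto F (𝓝[>] 0) (𝓝 L)) :
    ∃ r : ℝ, 0 < r ∧ ∀ x, 0 < x → x < r → F x ≤ L + η / 4 := by
  have h1 : ∀ᶠ x in 𝓝[>] (0 : ℝ), F x < L + η / 4 :=
    h.eventually_lt_const (by linarith)
  obtain ⟨r, hr, hsub⟩ := mem_nhdsGT_iff_exists_Ioo_subset.mp h1
  exact ⟨r, hr, fun x hx hxr => (hsub ⟨hx, hxr⟩ : F x < L + η / 4).le⟩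

/-- the final arithmetic -/
theorem U8E_arith {n a q η J0v P I ζ T Ce Cs Br X : ℝ} (hn : 1 ≤ n) (ha : 0 < a) (hq : 0 < q)
    (hq1 : q ≤ 1) (hζ : 0 ≤ ζ) (hI : 0 ≤ I) (hCe : 0 ≤ Ce) (hCs : 0 ≤ Cs)
    (h1 : 2 * I ≤ 8 * Real.pi * a + Br + Ce * a * q ^ 202)
    (h2 : n ^ 2 / 2 * Br ≤ n ^ 2 * a * q ^ 200 * X + Cs * n ^ 2 * a * q ^ 242)
    (h3 : X ≤ P + η / 4) (h4 : P ≤ T + η / 4) (h5 : T ≤ J0v + η / 4)
    (h6 : (Ce / 2 + Cs) * q ^ 2 ≤ η / 4) :
    n * (n - 1) * (I + 2 * ζ / 2)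
      ≤ 4 * Real.pi * n ^ 2 * a + n ^ 2 * a * q ^ 200 * (J0v + η) + n ^ 2 * ζ := by
  have e1 : n * (n - 1) * (I + 2 * ζ / 2) ≤ n ^ 2 * I + n ^ 2 * ζ := by
    have h7 : 0 ≤ n * (I + ζ) := by positivity
    nlinarith
  have hna : 0 ≤ n ^ 2 * a := by positivity
  have e2 : n ^ 2 * I ≤ 4 * Real.pi * n ^ 2 * a + n ^ 2 / 2 * Br
      + n ^ 2 / 2 * (Ce * a * q ^ 202) := by
    have h8 := mul_le_mul_of_nonneg_left h1 (show (0 : ℝ) ≤ n ^ 2 / 2 by positivity)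
    have h9 : n ^ 2 / 2 * (2 * I) = n ^ 2 * I := by ring
    have h10 : n ^ 2 / 2 * (8 * Real.pi * a + Br + Ce * a * q ^ 202)
        = 4 * Real.pi * n ^ 2 * a + n ^ 2 / 2 * Br + n ^ 2 / 2 * (Ce * a * q ^ 202) := by ring
    rw [h9, h10] at h8
    exact h8
  have hw : 0 ≤ n ^ 2 * a * q ^ 200 := by positivity
  have e3 : Cs * n ^ 2 * a * q ^ 242 ≤ n ^ 2 * a * q ^ 200 * (Cs * q ^ 2) := by
    have h11 : q ^ 242 ≤ q ^ 202 := pow_le_pow_of_le_one hq.le hq1 (by norm_num)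
    have h12 : 0 ≤ Cs * n ^ 2 * a := by positivity
    have h13 := mul_le_mul_of_nonneg_left h11 h12
    refine h13.trans (le_of_eq ?_)
    ring
  have e4 : n ^ 2 / 2 * (Ce * a * q ^ 202) = n ^ 2 * a * q ^ 200 * (Ce / 2 * q ^ 2) := by ring
  have e5 : X + Cs * q ^ 2 + Ce / 2 * q ^ 2 ≤ J0v + η := by
    have h14 : (Ce / 2 + Cs) * q ^ 2 = Cs * q ^ 2 + Ce / 2 * q ^ 2 := by ring
    rw [h14] at h6
    linarith
  have e6 := mul_le_mul_of_nonneg_left e5 hw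
  have e7 : n ^ 2 * a * q ^ 200 * (X + Cs * q ^ 2 + Ce / 2 * q ^ 2)
      = n ^ 2 * a * q ^ 200 * X + n ^ 2 * a * q ^ 200 * (Cs * q ^ 2)
        + n ^ 2 * a * q ^ 200 * (Ce / 2 * q ^ 2) := by ring
  rw [e7] at e6
  linarith

theorem U_main {θ η : ℝ} (hθ : 1 ≤ θ) (hη : 0 < η) : ∃ Y₀ : ℝ, 0 < Y₀ ∧ ∀ Y : ℝ, 0 < Y → Y < Y₀ →
    ∃ a₀ : ℝ, 0 < a₀ ∧ ∀ (N : ℕ) (W f Q : ℝ → ℝ) (R₀ R a : ℝ), Scat W R₀ R a f Q → a < a₀ →
      (N : ℝ) * a ^ 3 = Y ^ 2 → R ≤ θ * a →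
      ∀ 𝒱 𝒱₂ : T3 → ℝ≥0∞, Measurable 𝒱₂ →
      (∀ᵐ y ∂lam3, 𝒱 y ≤ ENNReal.ofReal (2 * W (rr y)) + 𝒱₂ y) →
      ∀ ζ : ℝ, 0 ≤ ζ → ∫⁻ y, 𝒱₂ y ∂lam3 ≤ ENNReal.ofReal ζ →
      ∃ ψ : (Fin N → T3) → ℂ, tAdm R₀ 𝒱 ψ ∧
        tE 𝒱 ψ ≤ ENNReal.ofReal (4 * Real.pi * N ^ 2 * a + N ^ 2 * a * Y * (J0 + η) + N ^ 2 * ζ) := by
  obtain ⟨κ, hκ, hκ1, hPk⟩ := U8E_kappa hη
  obtain ⟨Cu, hCu0, hul⟩ := ul_local hκ hκ1
  obtain ⟨CG, hCG1, hGD⟩ := DPot_GD hκ hκ1
  obtain ⟨Cs, hCs0, hsc⟩ := scaled_energy hκ hκ1 (max Cu CG)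
  obtain ⟨Ce, q₀, hCe0, hq₀, hbr⟩ := energy_bracket hκ hκ1
  obtain ⟨ql, hql, hlq⟩ := U8E_ev hη (limit_q hκ)
  have hD : 0 < 4 * (Ce / 2 + Cs + 1) := by positivity
  obtain ⟨q₁, hq₁⟩ : ∃ q₁ : ℝ, q₁ = min (min q₀ ql) (min (1 / 100) (min (1 / θ)
      (η / (4 * (Ce / 2 + Cs + 1))))) := ⟨_, rfl⟩
  have hq₁0 : 0 < q₁ := by
    rw [hq₁]
    exact lt_min (lt_min hq₀ hql) (lt_min (by norm_num) (lt_min (by positivity) (by positivity)))
  have b1 : q₁ ≤ q₀ := by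
    rw [hq₁]
    exact (min_le_left _ _).trans (min_le_left _ _)
  have b2 : q₁ ≤ ql := by
    rw [hq₁]
    exact (min_le_left _ _).trans (min_le_right _ _)
  have b3 : q₁ ≤ 1 / 100 := by
    rw [hq₁]
    exact (min_le_right _ _).trans (min_le_left _ _)
  have b4 : q₁ ≤ 1 / θ := by
    rw [hq₁]
    exact ((min_le_right _ _).trans (min_le_right _ _)).trans (min_le_left _ _)
  have b5 : q₁ ≤ η / (4 * (Ce / 2 + Cs + 1)) := by
    rw [hq₁]
    exact ((min_le_right _ _).trans (min_le_right _ _)).trans (min_le_right _ _)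
  refine ⟨q₁ ^ 200, by positivity, fun Y hY hY1 => ?_⟩
  obtain ⟨q, hq⟩ : ∃ q : ℝ, q = Y ^ ((1 : ℝ) / 200) := ⟨_, rfl⟩
  have hq0 : 0 < q := by
    rw [hq]
    exact Real.rpow_pos_of_pos hY _
  have hqY : q ^ 200 = Y := by
    rw [hq, ← Real.rpow_natCast, ← Real.rpow_mul hY.le]
    norm_num
  have hqq : q < q₁ := by
    rw [← hqY] at hY1
    exact lt_of_pow_lt_pow_left₀ 200 hq₁0.le hY1
  have hq100 : q ≤ 1 / 100 := hqq.le.trans b3
  have hq1 : q ≤ 1 := by linarith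
  have hθq : θ * q ≤ 1 := by
    have h1 : q ≤ 1 / θ := hqq.le.trans b4
    rw [le_div_iff₀ (by linarith)] at h1
    linarith
  have hη6 : (Ce / 2 + Cs) * q ^ 2 ≤ η / 4 := by
    have h1 : q ≤ η / (4 * (Ce / 2 + Cs + 1)) := hqq.le.trans b5
    rw [le_div_iff₀ hD] at h1
    have h2 : q ^ 2 ≤ q := by nlinarith
    have h3 : (Ce / 2 + Cs) * q ^ 2 ≤ (Ce / 2 + Cs) * q :=
      mul_le_mul_of_nonneg_left h2 (by positivity)
    nlinarith
  obtain ⟨l₀, hl₀, hll⟩ := U8E_ev hη (limit_l hκ hq0 hq100)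
  refine ⟨min (q ^ 1000) (l₀ * q ^ 200), lt_min (by positivity) (by positivity), ?_⟩
  intro N W f Q R₀ R a hS ha hNa hR 𝒱 𝒱₂ h𝒱₂ hle ζ hζ0 hζ
  have ha0 : 0 < a := hS.a_pos
  have haq : a ≤ q ^ 1000 := ha.le.trans (min_le_left _ _)
  have hal : a < l₀ * q ^ 200 := ha.trans_le (min_le_right _ _)
  have hReg : Reg W R₀ R a f Q θ q := ⟨hS, hR, hθ, hθq, hq0, hq100, haq⟩
  have hNq : (N : ℝ) * a ^ 3 = q ^ 400 := by
    rw [hNa, ← hqY]
    ring
  have hG := hGD W f Q R₀ R a θ q N hReg hNq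
  have hN4 : (4 : ℝ) ≤ N := by
    have h1 := hG.Nq
    have h2 : q ^ 400 ≤ 1 := pow_le_one₀ hq0.le hq1
    have h3 : (N : ℝ) * q ^ 400 ≤ N * 1 := mul_le_mul_of_nonneg_left h2 (Nat.cast_nonneg N)
    linarith
  have hN2 : 2 ≤ N := by
    have h1 : 4 ≤ N := by exact_mod_cast hN4
    omega
  obtain ⟨hyy, hZ, hI⟩ := hbr W f Q R₀ R a θ q N hReg (hqq.le.trans b1) hNq
  have hc0 : |c0q κ q a| ≤ max Cu CG * q ^ 200 :=
    ((hul q a hq0 hq100 ha0 haq).1).trans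
      (mul_le_mul_of_nonneg_right (le_max_left _ _) (by positivity))
  have huh : (N : ℝ) * ∑' p, mixh (omu κ q a) (tq q a) p ^ 2 ≤ max Cu CG * q ^ 200 := by
    have h1 : (N : ℝ) * ∑' p, mixh (omu κ q a) (tq q a) p ^ 2 ≤ CG * q ^ 200 := hG.uh_sq
    exact h1.trans (mul_le_mul_of_nonneg_right (le_max_right _ _) (by positivity))
  obtain ⟨-, hse⟩ := hsc W f Q q a N hq0 hq100 ha0 haq hNq hc0 huh
  have hl : 0 < lq q a := by
    unfold lq
    positivity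
  have hl1 : lq q a < l₀ := by
    unfold lq
    rw [div_lt_iff₀ (by positivity)]
    exact hal
  have hX := hll (lq q a) hl hl1
  have hWb : BM (fun x : T3 => W (rr x)) := by
    obtain ⟨M, hM0, hM⟩ := hS.exists_M
    exact ⟨hS.W_meas.comp rr_measurable, M, fun x => by
      rw [abs_of_nonneg (hS.W_nonneg _)]
      exact hM _⟩
  obtain ⟨hI0, ψ, hadm, hE⟩ := (hReg.tdata hκ).upper (R₀ := R₀) (fun x hx => hReg.ftot_core x hx)
    hN2 hWb (fun x => hS.W_nonneg _) (fun x => by rw [rr_neg]) h𝒱₂ hle hζ0 hζ hZ hyy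
  refine ⟨ψ, hadm, hE.trans (ENNReal.ofReal_le_ofReal ?_)⟩
  have h2I : ∫ z, 2 * (effT (dftot κ q a f Q) (hftot κ q a f Q W) z
        + W (rr z) * ftot κ q a f z ^ 2)
        * yy (fun x => ftot κ q a f x ^ 2) (N - 2) z ∂lam3
      = 2 * ∫ z, (effT (dftot κ q a f Q) (hftot κ q a f Q W) z
        + W (rr z) * ftot κ q a f z ^ 2)
        * yy (fun x => ftot κ q a f x ^ 2) (N - 2) z ∂lam3 := by
    rw [← integral_const_mul]
    refine integral_congr_ae (Eventually.of_forall fun z => ?_)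
    dsimp only
    ring
  rw [h2I] at hI
  rw [← hqY]
  have hI2 : 2 * (∫ z, (effT (dftot κ q a f Q) (hftot κ q a f Q W) z
        + W (rr z) * ftot κ q a f z ^ 2)
        * yy (fun x => ftot κ q a f x ^ 2) (N - 2) z ∂lam3)
      ≤ 8 * Real.pi * a + (4 * Real.pi * a * (-(2 * c0q κ q a) + (DPot κ q a f Q W).Vn N)
        - 1 / N * tsum0 (fun p => wlh κ q a p * (1 - (DPot κ q a f Q W).Ss 1 N p)))
        + Ce * a * q ^ 202 := by
    refine hI.trans (le_of_eq ?_)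
    ring
  exact U8E_arith (by linarith) ha0 hq0 hq1 hζ0 hI0 hCe0 hCs0 hI2 hse hX
    (hlq q hq0 (hqq.trans_le b2)) hPk hη6

end Pool.Agent.Lib.MP_4952d6_mp

end

/-! ### U.UFin -/

section

/-!
# UFin: the statement used by the final assembly (`UStatement` of `LC/FDefs.lean`, written out)

From `U_main` (with `C = 1`): `𝒱` is a.e. equal to a measurable `𝒱'` (`AEMeasurable.mk`); put `𝒱₂ y = 𝒱' y - ENNReal.ofReal (2 W (rr y))` (truncated subtraction in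
`ℝ≥0∞`, measurable). Then `𝒱 ≤ 2W + 𝒱₂` a.e. (`le_add_tsub`), `∫⁻ 𝒱₂ = ∫⁻ 𝒱 - ∫⁻ 2W` (`lintegral_sub`, the second integral is finite and `2W ≤ 𝒱'` a.e.), and
`ζ = (∫⁻ 𝒱₂).toReal`. `ENNReal.ofReal (A + N² ζ) ≤ ENNReal.ofReal A + ENNReal.ofReal (N²) * ∫⁻ 𝒱₂` (`ENNReal.ofReal_add_le`).
If `θ < 1` replace `θ` by `max θ 1`. `J0 = Jf0`: unfold, `(r²+0)² = r⁴`.
-/

set_option autoImplicit false
set_option linter.unusedSectionVars false
set_option linter.unusedVariables false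
open MeasureTheory Function Filter Topology Set
open scoped ENNReal

namespace Pool.Agent.Lib.MP_4952d6_mp

/-- `Jf 0` of `LB/Base.lean`, written out. -/
theorem J0_eq : J0 = 1 / (4 * Real.pi ^ 2) * ∫ r in Ioi (0:ℝ), r ^ 2 *
    (Real.sqrt ((r ^ 2 + 0) ^ 2 + 16 * Real.pi * (r ^ 2 + 0)) - (r ^ 2 + 0) - 8 * Real.pi
      + 32 * Real.pi ^ 2 / r ^ 2) := by
  unfold J0
  have h : ∀ r : ℝ, (r ^ 2) ^ 2 = r ^ 4 := fun r => by ring
  simp only [add_zero, h]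

theorem U_final (θ η : ℝ) (hη : 0 < η) : ∃ C Y0 : ℝ, 0 < C ∧ 0 < Y0 ∧ ∀ Y : ℝ, 0 < Y → Y < Y0 →
    ∃ a0 : ℝ, 0 < a0 ∧ ∀ (N : ℕ) (W f Q : ℝ → ℝ) (R₀ R a : ℝ), Scat W R₀ R a f Q → a < a0 →
      (N : ℝ) * a ^ 3 = Y ^ 2 → R ≤ θ * a →
      ∀ 𝒱 : T3 → ℝ≥0∞, AEMeasurable 𝒱 lam3 → ∫⁻ y, 𝒱 y ∂lam3 ≠ ⊤ →
      (∀ᵐ y ∂lam3, ENNReal.ofReal (2 * W (rr y)) ≤ 𝒱 y) →
      ∃ φ : (Fin N → T3) → ℂ, tAdm R₀ 𝒱 φ ∧
        tE 𝒱 φ ≤ ENNReal.ofReal (4 * Real.pi * N ^ 2 * a + N ^ 2 * a * Y * (J0 + η))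
          + ENNReal.ofReal (C * N ^ 2) *
            (∫⁻ y, 𝒱 y ∂lam3 - ∫⁻ y, ENNReal.ofReal (2 * W (rr y)) ∂lam3) := by
  obtain ⟨Y₀, hY₀, h⟩ := U_main (θ := max θ 1) (le_max_right _ _) hη
  refine ⟨1, Y₀, one_pos, hY₀, fun Y hY hY1 => ?_⟩
  obtain ⟨a₀, ha₀, h2⟩ := h Y hY hY1
  refine ⟨a₀, ha₀, ?_⟩
  intro N W f Q R₀ R a hS ha hNa hR 𝒱 hm hfin hle
  have hWm : Measurable (fun y : T3 => ENNReal.ofReal (2 * W (rr y))) :=
    (((hS.W_meas.comp rr_measurable).const_mul 2)).ennreal_ofReal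
  have hWfin : ∫⁻ y, ENNReal.ofReal (2 * W (rr y)) ∂lam3 ≠ ⊤ :=
    ((lintegral_mono_ae hle).trans_lt (lt_top_iff_ne_top.mpr hfin)).ne
  have hmk := hm.ae_eq_mk
  have hle' : (fun y => ENNReal.ofReal (2 * W (rr y))) ≤ᵐ[lam3] hm.mk 𝒱 := by
    filter_upwards [hle, hmk] with y h3 h4
    rw [← h4]
    exact h3
  have hint : ∫⁻ y, (hm.mk 𝒱 y - ENNReal.ofReal (2 * W (rr y))) ∂lam3
      = ∫⁻ y, 𝒱 y ∂lam3 - ∫⁻ y, ENNReal.ofReal (2 * W (rr y)) ∂lam3 := by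
    rw [lintegral_sub hWm hWfin hle', lintegral_congr_ae hmk]
  have hne : ∫⁻ y, 𝒱 y ∂lam3 - ∫⁻ y, ENNReal.ofReal (2 * W (rr y)) ∂lam3 ≠ ⊤ :=
    (tsub_le_self.trans_lt (lt_top_iff_ne_top.mpr hfin)).ne
  obtain ⟨D, hD⟩ : ∃ D : ℝ≥0∞, D = ∫⁻ y, 𝒱 y ∂lam3
      - ∫⁻ y, ENNReal.ofReal (2 * W (rr y)) ∂lam3 := ⟨_, rfl⟩
  rw [← hD] at hint hne
  have hR' : R ≤ max θ 1 * a := hR.trans
    (mul_le_mul_of_nonneg_right (le_max_left _ _) hS.a_pos.le)
  obtain ⟨ψ, hadm, hE⟩ := h2 N W f Q R₀ R a hS ha hNa hR' 𝒱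
    (fun y => hm.mk 𝒱 y - ENNReal.ofReal (2 * W (rr y)))
    (hm.measurable_mk.sub hWm) (by
      filter_upwards [hmk] with y h3
      rw [h3]
      exact le_add_tsub) D.toReal ENNReal.toReal_nonneg (by
        rw [hint, ENNReal.ofReal_toReal hne])
  refine ⟨ψ, hadm, hE.trans ?_⟩
  rw [← hD]
  refine ENNReal.ofReal_add_le.trans (add_le_add le_rfl (le_of_eq ?_))
  rw [ENNReal.ofReal_mul (by positivity), ENNReal.ofReal_toReal hne, one_mul]

end Pool.Agent.Lib.MP_4952d6_mp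

end

/-! ### U.UStmt -/

section

/-!
# Part U: the sharp upper bound in the form `UStatement`
-/

set_option autoImplicit false
set_option linter.unusedSectionVars false
set_option linter.unusedVariables false
open MeasureTheory Function Filter Topology Set
open scoped ENNReal

namespace Pool.Agent.Lib.MP_4952d6_mp

theorem J0_eq_Jf : J0 = Jf 0 := by
  rw [J0_eq]
  rfl

theorem ustatement : UStatement := by
  intro θ η hη
  have h := U_final θ η hη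
  rw [J0_eq_Jf] at h
  exact h

end Pool.Agent.Lib.MP_4952d6_mp

end

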