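import Pool.Agent.Lib.MP_4952d6_mp.Pk.G29
import Pool.Agent.Lib.MP_4952d6_mp.Pk.G43
import Pool.Agent.Lib.MP_4952d6_mp.Pk.G55

/-! Merged modules (to save import time): EU.Main. -/

/-! ### EU.Main -/

section

/-!
# The sharp upper bound for the ground state energy in physical units, hard cores included
-/

set_option autoImplicit false
set_option linter.unusedSectionVars false
set_option linter.unusedVariables false
open MeasureTheory Function Filter Topology Set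
open scoped ENNReal

namespace Pool.Agent.Lib.MP_4952d6_mp

/-- The final computation with real numbers. -/
lemma EU_num {N a Y A Z L J η CU c σ m ρ ε : ℝ} (hN : 0 < N) (hm : 0 < m) (hρ : 0 < ρ) (ha : 0 < a)
    (haA : a ≤ A) (hY : 0 < Y) (hYZ : Y ≤ Z) (hL : 0 < L) (hL3 : N / L ^ 3 = ρ) (hη : 0 < η)
    (hJ : J = 512 * Real.sqrt Real.pi / 15) (hσ : 0 < σ) (hCU : 0 < CU) (hc0 : 0 ≤ c)
    (hc : CU * (2 * σ * c) ≤ η * (A * Z)) (hηε : η = 2 * Real.pi * ε) :
    ENNReal.ofReal (1 / (2 * m * L ^ 2)) *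
      (ENNReal.ofReal (4 * Real.pi * N ^ 2 * (a / L) + N ^ 2 * (a / L) * Y * (J + η))
        + ENNReal.ofReal (CU * N ^ 2) * ENNReal.ofReal (2 * σ / L * c))
      ≤ ENNReal.ofReal (N * (2 * Real.pi / m * ρ * A
          * (1 + (128 / (15 * Real.sqrt Real.pi) + ε) * Z))) := by
  have hp := Real.pi_pos
  have hsp : 0 < Real.sqrt Real.pi := Real.sqrt_pos.2 hp
  have hsp2 : Real.sqrt Real.pi ^ 2 = Real.pi := Real.sq_sqrt hp.le
  have hA : 0 < A := ha.trans_le haA
  have hZ : 0 < Z := hY.trans_le hYZ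
  have hJ0 : 0 ≤ J := by rw [hJ]; positivity
  rw [← ENNReal.ofReal_mul (by positivity), ← ENNReal.ofReal_add (by positivity) (by positivity),
    ← ENNReal.ofReal_mul (by positivity)]
  refine ENNReal.ofReal_le_ofReal ?_
  have h1 : 4 * Real.pi * N ^ 2 * (a / L) ≤ 4 * Real.pi * N ^ 2 * (A / L) := by gcongr
  have h2 : N ^ 2 * (a / L) * Y * (J + η) ≤ N ^ 2 * (A / L) * Z * (J + η) := by gcongr
  have h3 : CU * N ^ 2 * (2 * σ / L * c) ≤ η * (N ^ 2 * (A / L) * Z) := by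
    have h3 := mul_le_mul_of_nonneg_left hc (show (0:ℝ) ≤ N ^ 2 / L by positivity)
    calc CU * N ^ 2 * (2 * σ / L * c) = N ^ 2 / L * (CU * (2 * σ * c)) := by ring
      _ ≤ N ^ 2 / L * (η * (A * Z)) := h3
      _ = _ := by ring
  have h4 : 4 * Real.pi * N ^ 2 * (a / L) + N ^ 2 * (a / L) * Y * (J + η)
      + CU * N ^ 2 * (2 * σ / L * c)
      ≤ 4 * Real.pi * N ^ 2 * (A / L) + N ^ 2 * (A / L) * Z * (J + 2 * η) := by linarith
  refine (mul_le_mul_of_nonneg_left h4 (show (0:ℝ) ≤ 1 / (2 * m * L ^ 2) by positivity)).trans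
    (le_of_eq ?_)
  have e1 : J + 2 * η = 4 * Real.pi * (128 / (15 * Real.sqrt Real.pi) + ε) := by
    rw [hJ, hηε]
    have e2 : 4 * Real.pi * (128 / (15 * Real.sqrt Real.pi) + ε)
        = 4 * Real.sqrt Real.pi ^ 2 * (128 / (15 * Real.sqrt Real.pi)) + 4 * Real.pi * ε := by
      rw [hsp2]; ring
    rw [e2]
    field_simp
    ring
  rw [e1, ← hL3]
  field_simp
  norm_num

/-- **Sharp upper bound for the ground state energy**, hard cores included. -/
theorem energy_upper {m R₀ R : ℝ} {v : (Fin 3 → ℝ) → ℝ} (hm : 0 < m) (hR0 : 0 ≤ R₀) (hR : R₀ < R)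
    (hv : Integrable v) (hv0 : ∀ x, 0 ≤ v x)
    (hrad : ∀ x y : Fin 3 → ℝ, ∑ α, x α ^ 2 = ∑ α, y α ^ 2 → v x = v y)
    (hsupp : ∀ x : Fin 3 → ℝ, R ^ 2 ≤ ∑ α, x α ^ 2 → v x = 0)
    (hgen : 0 < R₀ ∨ 0 < ∫ x, v x) {ε : ℝ} (hε : 0 < ε) :
    ∃ ρ₁ : ℝ, 0 < ρ₁ ∧ ∀ ρ : ℝ, 0 < ρ → ρ < ρ₁ →
      ∃ N₁ : ℕ, ∀ N : ℕ, N₁ ≤ N → ∃ ψ : (Fin N → Fin 3 → ℝ) → ℂ,
        Admissible m R₀ v N (side ρ N) ψ ∧
        energy m v N (side ρ N) ψ ≤ ENNReal.ofReal (N * (2 * Real.pi / m * ρ * scatLen m R₀ v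
          * (1 + (128 / (15 * Real.sqrt Real.pi) + ε) * Real.sqrt (ρ * scatLen m R₀ v ^ 3)))) := by
  have hRpos : 0 < R := hR0.trans_lt hR
  obtain ⟨g, hgm, hg0, hg⟩ := exists_rep hv hv0 hrad
  set u : ℝ → ℝ := fun r => if r < R then m * g r else 0 with hu
  have hum : Measurable u := Measurable.ite measurableSet_Iio (hgm.const_mul m) measurable_const
  have hu0 : ∀ r, 0 ≤ u r := fun r => by
    simp only [hu]; split_ifs
    · exact mul_nonneg hm.le (hg0 r)
    · exact le_rfl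
  have huR : ∀ r, R ≤ r → u r = 0 := fun r hr => by
    simp only [hu]; rw [if_neg (not_lt.2 hr)]
  have huv : ∀ᵐ r : ℝ, 0 < r → u r = m * prof v r := by
    filter_upwards [hg] with r hr hr0
    simp only [hu]
    split_ifs with h
    · rw [hr hr0]
    · have : prof v r = 0 := by
        refine hsupp _ ?_
        simp
        push Not at h
        exact pow_le_pow_left₀ hRpos.le h 2
      rw [this, mul_zero]
  have hradp : ∀ x, v x = prof v (nr x) := prof_eq hrad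
  have hvm : AEMeasurable v volume := hv.aestronglyMeasurable.aemeasurable
  have hIv : IntegrableOn (fun r => r ^ 2 * prof v r) (Ioi (0:ℝ)) := by
    rw [← integrable_nr]
    exact hv.congr (Eventually.of_forall hradp)
  have hi : IntegrableOn (fun r => r ^ 2 * u r) (Ioi (0:ℝ)) := by
    refine (hIv.const_mul m).congr ((ae_restrict_iff' measurableSet_Ioi).2 ?_)
    filter_upwards [huv] with r hr hr0
    rw [hr hr0]; ring
  have hUm : ∫ r in Ioi (0:ℝ), r ^ 2 * u r = m * ∫ r in Ioi (0:ℝ), r ^ 2 * prof v r := by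
    rw [← integral_const_mul]
    refine setIntegral_congr_ae measurableSet_Ioi ?_
    filter_upwards [huv] with r hr hr0
    rw [hr hr0]; ring
  have hUv : ∫ x, v x = sig / m * ∫ r in Ioi (0:ℝ), r ^ 2 * u r := by
    have e1 : ∫ x, v x = sig * ∫ r in Ioi (0:ℝ), r ^ 2 * prof v r := by
      rw [← integral_nr]
      exact integral_congr_ae (Eventually.of_forall hradp)
    rw [e1, hUm]; field_simp
  set U : ℝ := ∫ r in Ioi (0:ℝ), r ^ 2 * u r with hUdef
  have hσ := sig_pos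
  have hgenU : 0 < R₀ ∨ 0 < U := by
    refine hgen.imp id fun h => ?_
    rw [hUv] at h
    exact pos_of_mul_pos_right h (by positivity)
  obtain ⟨A, hA0, halA, hup, hlow⟩ := exists_data hum hu0 hi hR0 hgenU hm hv hv0 hradp huv
  -- the limiting scattering length is the scattering length
  have hle0 : ∀ n : ℝ, ∀ᵐ r : ℝ, 0 < r → tr u n R r ≤ m * prof v r := by
    intro n
    filter_upwards [huv] with r hr hr0
    rw [← hr hr0]
    exact tr_le hu0 n R r
  have hAal : A = scatLen m R₀ v := by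
    refine le_antisymm (le_of_not_gt fun hlt => ?_) halA
    obtain ⟨k, hk1, hk⟩ := hlow _ hlt
    obtain ⟨a', f', Q', h', hca'⟩ := hk k (max k R) le_rfl (le_max_left _ _)
      (hR.trans_le (le_max_right _ _))
    have h1 : a' ≤ scatLen m R₀ v := by
      refine h'.le_scatLen hm hv hv0 hradp ?_
      filter_upwards [huv] with r hr hr0
      rw [← hr hr0]
      exact tr_le hu0 _ _ r
    linarith
  rw [← hAal]
  set η : ℝ := 2 * Real.pi * ε with hη
  have hp := Real.pi_pos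
  have hη0 : 0 < η := by rw [hη]; positivity
  set θ : ℝ := 2 * R / A with hθ
  obtain ⟨CU, YU, hCU, hYU, hU'⟩ := ustatement θ η hη0
  refine ⟨YU ^ 2 / A ^ 3, by positivity, fun ρ hρ hρ1 => ?_⟩
  set YA : ℝ := Real.sqrt (ρ * A ^ 3) with hYA
  have hYA_pos : 0 < YA := Y_pos hρ hA0
  have hYAU : YA < YU := by
    rw [hYA, Real.sqrt_lt' hYU]
    rwa [lt_div_iff₀ (by positivity)] at hρ1
  -- truncation
  obtain ⟨k, hk1, hk⟩ := hlow (A / 2) (by linarith)
  set ε₁ : ℝ := η * (A * YA) / (2 * sig * CU) with hε₁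
  have hε₁0 : 0 < ε₁ := by rw [hε₁]; positivity
  obtain ⟨k₂, hk₂1, hk₂⟩ := tr_small hum hu0 hi hε₁0
  set n : ℝ := max k k₂ with hn
  set K : ℝ := max n R with hK
  have hn1 : 1 ≤ n := hk1.trans (le_max_left _ _)
  have hn0 : 0 ≤ n := by linarith
  have hfun : tr u n K = tr u n R := by
    funext r
    unfold tr
    by_cases h1 : r < R
    · rw [if_pos h1, if_pos (h1.trans_le (le_max_right _ _))]
    · rw [if_neg h1, huR r (not_lt.1 h1), min_eq_left hn0]
      split_ifs <;> rfl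
  obtain ⟨a', f', Q', h', hca'⟩ := hk n K (le_max_left _ _)
    ((le_max_left _ _).trans (le_max_left _ _)) (hR.trans_le (le_max_right _ _))
  have hgen' : 0 < R₀ ∨ 0 < ∫ r in Ioi (0:ℝ), r ^ 2 * tr u n R r := by
    rcases hR0.eq_or_lt with h0 | h0
    · right
      have h1 := h'.a_le_int
      rw [← h0, zero_add, tr_integral_Ioi (hRpos.le.trans (le_max_right _ _)), hfun] at h1
      exact h'.a_pos.trans_le h1
    · exact Or.inl h0
  obtain ⟨a, f, Q, h⟩ := scat_tr hum hu0 hR0 hn0 hR hgen'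
  have haa : a' ≤ a := h.mono h' fun r _ => le_of_eq (by rw [hfun])
  have haA : a ≤ A := hup n R a f Q hn0 h
  have ha : 0 < a := h.a_pos
  have hA2a : A ≤ 2 * a := by linarith
  have hcharge : U - (∫ r in Ioi (0:ℝ), r ^ 2 * tr u n R r) ≤ ε₁ := by
    have h1 := hk₂ n K (le_max_right _ _) ((le_max_right _ _).trans (le_max_left _ _))
    rwa [hfun] at h1
  have hcharge0 : 0 ≤ U - (∫ r in Ioi (0:ℝ), r ^ 2 * tr u n R r) := by
    have h1 : ∫ r in Ioi (0:ℝ), r ^ 2 * tr u n R r ≤ U :=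
      integral_mono (tr_int hum hu0 hi hn0 R) hi fun r =>
        mul_le_mul_of_nonneg_left (tr_le hu0 n R r) (sq_nonneg r)
    linarith
  have hI0 : 0 ≤ ∫ r in Ioi (0:ℝ), r ^ 2 * tr u n R r :=
    setIntegral_nonneg measurableSet_Ioi fun r _ => mul_nonneg (sq_nonneg r) (h.W_nonneg r)
  set Y : ℝ := Real.sqrt (ρ * a ^ 3) with hY
  have hY0 : 0 < Y := Y_pos hρ ha
  have hYYA : Y ≤ YA := sqrt_mono hρ haA
  obtain ⟨aU, haU, hU''⟩ := hU' Y hY0 (hYYA.trans_lt hYAU)
  obtain ⟨NS, hNS1, hNS⟩ := F4_side hρ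
    (show 0 < max (2 * R) (a / aU) from lt_max_of_lt_left (by linarith))
  refine ⟨NS, fun N hN => ?_⟩
  have hN1 : 1 ≤ N := hNS1.trans hN
  have hN0 : (0:ℝ) < N := by exact_mod_cast hN1
  have hside := hNS N hN
  have hL := side_pos hρ hN1
  have hL3 := side_cube hρ hN1
  set L : ℝ := side ρ N with hLdef
  have h2R : 2 * R < L := (le_max_left _ _).trans_lt hside
  have hLU : a / L < aU := by
    have h1 : a / aU < L := (le_max_right _ _).trans_lt hside
    rw [div_lt_iff₀ haU] at h1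
    rw [div_lt_iff₀ hL]; linarith
  have hNa : (N:ℝ) * (a / L) ^ 3 = Y ^ 2 := by
    rw [hY, Y_sq hρ ha, ← hL3, div_pow]
    field_simp
  have hRθ : R / L ≤ θ * (a / L) := by
    rw [← mul_div_assoc]
    refine div_le_div_of_nonneg_right ?_ hL.le
    rw [hθ, div_mul_eq_mul_div, le_div_iff₀ hA0]
    nlinarith
  have hscat := h.scale hL
  have hpot := F4_pot h hm hradp (hle0 n) hL
  have hVm : AEMeasurable (Vp m L v) lam3 := (aem_vper hL hvm).const_mul _
  have hch := F4_charge hm hv hv0 hradp hL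
  rw [← hUm] at hch
  have hchW := F4_chargeW h hL h2R
  obtain ⟨φ, hφ, hφE⟩ := hU'' N _ _ _ _ _ _ hscat hLU hNa hRθ (Vp m L v) hVm
    (by rw [hch]; exact ENNReal.ofReal_ne_top) hpot
  have hdiff : (∫⁻ y, Vp m L v y ∂lam3) - ∫⁻ y, ENNReal.ofReal
        (2 * (L ^ 2 * tr u n R (L * rr y))) ∂lam3
      = ENNReal.ofReal (2 * sig / L * (U - ∫ r in Ioi (0:ℝ), r ^ 2 * tr u n R r)) := by
    rw [hch, hchW, ← ENNReal.ofReal_sub _ (by positivity), ← mul_sub]
  rw [hdiff] at hφE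
  refine ⟨BB N L φ, adm_BB hm hL hR0 hvm hφ, ?_⟩
  rw [energy_eq hm hL hvm (memLp_BB hL hφ.1).1, TT_BB hL]
  refine (mul_le_mul_right hφE _).trans ?_
  refine EU_num (c := U - ∫ r in Ioi (0:ℝ), r ^ 2 * tr u n R r) hN0 hm hρ ha haA hY0 hYYA hL hL3
    hη0 Jf_zero_eq hσ hCU hcharge0 ?_ hη
  calc CU * (2 * sig * (U - ∫ r in Ioi (0:ℝ), r ^ 2 * tr u n R r))
      ≤ CU * (2 * sig * ε₁) := by gcongr
    _ = η * (A * YA) := by rw [hε₁]; field_simp

end Pool.Agent.Lib.MP_4952d6_mp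

end

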