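import Pool.Agent.Lib.MP_4952d6_mp.Pk.G07
import Pool.Agent.Lib.MP_4952d6_mp.Pk.G34
import Pool.Agent.Lib.MP_4952d6_mp.Pk.G41
import Pool.Agent.Lib.MP_4952d6_mp.Pk.G43
import Pool.Agent.Lib.MP_4952d6_mp.Pk.G47
import Pool.Agent.Lib.MP_4952d6_mp.Pk.G48
import Pool.Agent.Lib.MP_4952d6_mp.Pk.G49
import Pool.Agent.Lib.MP_4952d6_mp.Pk.G57

/-! Merged modules (to save import time): LB.Fin. -/

/-! ### LB.Fin -/

section

/-!
# LB.Fin: Theorem L, torus form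
-/

set_option autoImplicit false
set_option linter.unusedSectionVars false
set_option linter.unusedVariables false
open MeasureTheory Function Filter Topology Set ComplexConjugate
open scoped ENNReal

namespace Pool.Agent.Lib.MP_4952d6_mp.LB

lemma fin_S00 {N : ℕ} {ψ : HS (Fin N)} (hψ : ‖ψ‖ = 1) :
    0 ≤ (∑ j, ∑ l ∈ Finset.univ.erase j, ‖Phi0 j l ψ‖ ^ 2) ∧
    (∑ j, ∑ l ∈ Finset.univ.erase j, ‖Phi0 j l ψ‖ ^ 2) ≤ (N : ℝ) ^ 2 := by
  refine ⟨Finset.sum_nonneg fun j _ => Finset.sum_nonneg fun l _ => sq_nonneg _, ?_⟩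
  have h1 : ∀ j : Fin N, ∑ l ∈ Finset.univ.erase j, ‖Phi0 j l ψ‖ ^ 2 ≤ (N : ℝ) := by
    intro j
    have h2 : ∀ l ∈ Finset.univ.erase j, ‖Phi0 j l ψ‖ ^ 2 ≤ (1 : ℝ) := by
      intro l _
      have h3 := norm_Phi0_le j l ψ
      rw [hψ] at h3
      have h4 := norm_nonneg (Phi0 j l ψ)
      nlinarith
    calc ∑ l ∈ Finset.univ.erase j, ‖Phi0 j l ψ‖ ^ 2
        ≤ ∑ l ∈ Finset.univ.erase j, (1 : ℝ) := Finset.sum_le_sum h2
      _ ≤ ∑ l : Fin N, (1 : ℝ) :=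
          Finset.sum_le_sum_of_subset_of_nonneg (Finset.subset_univ _) fun _ _ _ => zero_le_one
      _ = N := by simp
  calc ∑ j, ∑ l ∈ Finset.univ.erase j, ‖Phi0 j l ψ‖ ^ 2 ≤ ∑ j : Fin N, (N : ℝ) :=
        Finset.sum_le_sum fun j _ => h1 j
    _ = (N : ℝ) ^ 2 := by simp [sq]

/-- The lattice sum in the final parameters. -/
lemma fin_LS {u a l0 δ η : ℝ} {N : ℕ} (hu : 0 < u) (ha : 0 < a) (hN : (N : ℝ) * a ^ 3 = u ^ 40)
    (hl0 : a / u ^ 20 < l0)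
    (hB : ∀ l : ℝ, 0 < l → l < l0 →
      (1 / (4 * Real.pi ^ 2) * (∫ r in Ioi (0:ℝ), r ^ 2 * FY (u ^ 8) (1 - u ^ 40) δ r) - η) / l ^ 5
        ≤ 1 / 2 * LS (l ^ 2 * u ^ 8) (δ / l ^ 2) (8 * Real.pi * (1 - u ^ 40) / l ^ 2)) :
    (1 / (4 * Real.pi ^ 2) * (∫ r in Ioi (0:ℝ), r ^ 2 * FY (u ^ 8) (1 - u ^ 40) δ r) - η)
        * (N ^ 2 * a * u ^ 20)
      ≤ 1 / 2 * LS ((a / u ^ 16) ^ 2) (δ * N * a) (N * ((1 - u ^ 40) * (8 * Real.pi * a))) := by
  have h := hB (a / u ^ 20) (by positivity) hl0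
  have hNe : (N : ℝ) = u ^ 40 / a ^ 3 := by
    rw [eq_div_iff (by positivity)]; exact hN
  have e1 : (a / u ^ 20) ^ 2 * u ^ 8 = (a / u ^ 16) ^ 2 := by
    field_simp
  have e2 : δ / (a / u ^ 20) ^ 2 = δ * N * a := by
    rw [hNe]; field_simp
  have e3 : 8 * Real.pi * (1 - u ^ 40) / (a / u ^ 20) ^ 2
      = N * ((1 - u ^ 40) * (8 * Real.pi * a)) := by
    rw [hNe]; field_simp
  have e4 : (N : ℝ) ^ 2 * a * u ^ 20 = 1 / (a / u ^ 20) ^ 5 := by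
    rw [hNe]; field_simp
  rw [e1, e2, e3] at h
  rw [e4]
  refine le_trans (le_of_eq ?_) h
  rw [mul_one_div]

/-- Final arithmetic. -/
lemma fin_arith {X u η Jd Ju q4 K1 K2 K3 C8 E1 E2 S3 L TVv lamNp main : ℝ} (hX : 0 ≤ X)
    (hu : (C8 * K1 + K2 + K3) * u ≤ η / 4) (hη : 0 < η) (hC8 : 0 ≤ C8)
    (h1 : E1 ≤ K1 * u * X) (h2 : E2 ≤ K2 * u * X) (h3 : (q4 - K3 * u) * X ≤ S3)
    (h4 : (Ju - η / 4) * X ≤ L) (h5 : Jd - η / 4 ≤ q4 + Ju)
    (hm : main + S3 + L - E2 - C8 * E1 ≤ TVv + lamNp) :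
    main + X * (Jd - η) - lamNp ≤ TVv := by
  have h6 : (Jd - η / 4) * X ≤ (q4 + Ju) * X := mul_le_mul_of_nonneg_right h5 hX
  have h7 : (C8 * K1 + K2 + K3) * u * X ≤ η / 4 * X := mul_le_mul_of_nonneg_right hu hX
  have h8 : C8 * E1 ≤ C8 * (K1 * u * X) := mul_le_mul_of_nonneg_left h1 hC8
  have h9 : 0 ≤ η * X := by positivity
  linarith

theorem lb_statement : LBStatement := by
  intro θ δ η CM hδ hη
  obtain ⟨C8, hC8, h8⟩ := pre8 sum_statement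
  obtain ⟨C6, hC6, h6⟩ := c6_statement
  obtain ⟨CA, hCA, hA⟩ := limA
  have hM0 : 0 ≤ max CM 0 := le_max_right _ _
  have hM1 : CM ≤ max CM 0 := le_max_left _ _
  have hθ0 : 0 ≤ max θ 0 := le_max_right _ _
  have hθ1 : θ ≤ max θ 0 := le_max_left _ _
  have hCC : 0 ≤ max C8 CA := hC8.trans (le_max_left _ _)
  have hC81 : C8 ≤ max C8 CA := le_max_left _ _
  have hCA1 : CA ≤ max C8 CA := le_max_right _ _
  obtain ⟨K1, hK1, e1⟩ := errA hC6 hM0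
  obtain ⟨K2, hK2, e2⟩ := errB hCC hM0 hθ0 hδ
  obtain ⟨K3, hK3, e3⟩ := errC hC6 hθ0
  obtain ⟨τ0, hτ0, hτ⟩ := limC hδ (show 0 < η / 4 by positivity)
  set KK' : ℝ := C8 * K1 + K2 + K3 with hKK'
  have hKKn : 0 ≤ KK' := by positivity
  set u0 : ℝ := min (min (1 / 2) τ0) (min (η / (4 * (KK' + 1))) (1 / (2 * (max θ 0 + 1)))) with hu0def
  have hu0 : 0 < u0 := by
    rw [hu0def]
    refine lt_min (lt_min (by norm_num) hτ0) (lt_min (by positivity) (by positivity))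
  have hu0a : u0 ≤ 1 / 2 := (min_le_left _ _).trans (min_le_left _ _)
  have hu0b : u0 ≤ τ0 := (min_le_left _ _).trans (min_le_right _ _)
  have hu0c : u0 ≤ η / (4 * (KK' + 1)) := (min_le_right _ _).trans (min_le_left _ _)
  have hu0d : u0 ≤ 1 / (2 * (max θ 0 + 1)) := (min_le_right _ _).trans (min_le_right _ _)
  refine ⟨u0 ^ 20, by positivity, ?_⟩
  intro Y hY0 hY
  obtain ⟨u, hu, huY⟩ : ∃ u : ℝ, 0 < u ∧ u ^ 20 = Y := by
    refine ⟨Y ^ ((1:ℝ) / 20), Real.rpow_pos_of_pos hY0 _, ?_⟩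
    rw [← Real.rpow_natCast, ← Real.rpow_mul hY0.le]
    norm_num
  subst huY
  have huu0 : u < u0 := lt_of_pow_lt_pow_left₀ 20 hu0.le hY
  have hu12 : u ≤ 1 / 2 := huu0.le.trans hu0a
  have hu1 : u ≤ 1 := by linarith
  have hpow : ∀ n : ℕ, 1 ≤ n → u ^ n ≤ u := by
    intro n hn
    calc u ^ n ≤ u ^ 1 := pow_le_pow_of_le_one hu.le hu1 hn
      _ = u := pow_one u
  have hq0 : 0 ≤ 1 - u ^ 40 := by
    have := hpow 40 (by norm_num)
    linarith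
  have hq1 : 1 - u ^ 40 ≤ 1 := by
    have : 0 ≤ u ^ 40 := by positivity
    linarith
  have hτu := hτ (u ^ 8) (1 - u ^ 40) (by positivity)
    ((hpow 8 (by norm_num)).trans_lt (huu0.trans_le hu0b)) hq0 hq1
  have hs8 : Real.sqrt (u ^ 8) = u ^ 4 := by
    rw [show u ^ 8 = (u ^ 4) ^ 2 by ring]
    exact Real.sqrt_sq (by positivity)
  rw [hs8] at hτu
  obtain ⟨l0, hl0, hB⟩ := limB (τ := u ^ 8) (q := 1 - u ^ 40) (δ := δ) (η := η / 4)
    (by positivity) hq0 hδ (by positivity)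
  obtain ⟨a1, ha1, e1'⟩ := e1 u hu hu1
  obtain ⟨a2, ha2, e2'⟩ := e2 u hu hu1
  obtain ⟨a3, ha3, e3'⟩ := e3 u hu hu1
  refine ⟨min (min a1 (min a2 a3)) (min (u ^ 20 * l0) (min (1 / (8 * (max θ 0 + 1))) (u ^ 16))),
    ?_, ?_⟩
  · refine lt_min (lt_min ha1 (lt_min ha2 ha3)) (lt_min (by positivity)
      (lt_min (by positivity) (by positivity)))
  intro N W f Q R₀ R a hsc haa hNa hRθ 𝒱 h𝒱 ψ hψ hLoc hdep
  have ha := hsc.a_pos
  have haa1 : a < a1 := haa.trans_le ((min_le_left _ _).trans (min_le_left _ _))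
  have haa2 : a < a2 := haa.trans_le
    ((min_le_left _ _).trans ((min_le_right _ _).trans (min_le_left _ _)))
  have haa3 : a < a3 := haa.trans_le
    ((min_le_left _ _).trans ((min_le_right _ _).trans (min_le_right _ _)))
  have haa4 : a < u ^ 20 * l0 := haa.trans_le ((min_le_right _ _).trans (min_le_left _ _))
  have haa5 : a < 1 / (8 * (max θ 0 + 1)) := haa.trans_le
    ((min_le_right _ _).trans ((min_le_right _ _).trans (min_le_left _ _)))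
  have haa6 : a < u ^ 16 := haa.trans_le
    ((min_le_right _ _).trans ((min_le_right _ _).trans (min_le_right _ _)))
  have hNa' : (N : ℝ) * a ^ 3 = u ^ 40 := by rw [hNa]; ring
  have hNpos : (0:ℝ) < N := by
    by_contra hcon
    have h0 : (N : ℝ) = 0 := le_antisymm (not_lt.1 hcon) (Nat.cast_nonneg N)
    rw [h0, zero_mul] at hNa'
    have : 0 < u ^ 40 := by positivity
    linarith
  have hNpos' : 0 < N := by exact_mod_cast hNpos
  have hR0 : 0 ≤ R := hsc.R_pos.le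
  have hRθ' : R ≤ max θ 0 * a := hRθ.trans (mul_le_mul_of_nonneg_right hθ1 ha.le)
  have hR8 : R ≤ 1 / 8 := by
    refine hRθ'.trans ?_
    have h1 : a * (8 * (max θ 0 + 1)) < 1 := by
      rwa [lt_div_iff₀ (by positivity)] at haa5
    linarith
  -- time scale
  have htsc : tsc a (u ^ 20) = (a / u ^ 16) ^ 2 := by
    unfold tsc
    have h1 : (u ^ 20) ^ ((2:ℝ) / 5) = u ^ 8 := by
      rw [← Real.rpow_natCast u 20, ← Real.rpow_mul hu.le, ← Real.rpow_natCast u 8]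
      norm_num
    rw [h1]
    field_simp
  rw [htsc] at hLoc
  set t : ℝ := (a / u ^ 16) ^ 2 with htdef
  have ht : 0 < t := by positivity
  have hst : Real.sqrt t = a / u ^ 16 := by
    rw [htdef]; exact Real.sqrt_sq (by positivity)
  have ht1 : t ≤ 1 := by
    have h1 : a / u ^ 16 ≤ 1 := by
      rw [div_le_one (by positivity)]; exact haa6.le
    rw [htdef]
    exact pow_le_one₀ (by positivity) h1
  have hat : a ^ 2 ≤ t := by
    rw [htdef]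
    refine pow_le_pow_left₀ ha.le ?_ 2
    rw [le_div_iff₀ (by positivity)]
    have h1 : a * u ^ 16 ≤ a * 1 := mul_le_mul_of_nonneg_left (pow_le_one₀ hu.le hu1) ha.le
    linarith
  have hRt : R ^ 2 ≤ t / 2 := by
    have h1 : u ^ 16 ≤ u := hpow 16 (by norm_num)
    have h2 : max θ 0 * u ≤ 1 / 2 := by
      have h3 : u ≤ 1 / (2 * (max θ 0 + 1)) := huu0.le.trans hu0d
      rw [le_div_iff₀ (by positivity)] at h3
      linarith
    have h3 : R * u ^ 16 ≤ a * (1 / 2) := by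
      calc R * u ^ 16 ≤ (max θ 0 * a) * u := mul_le_mul hRθ' h1 (by positivity) (by positivity)
        _ = a * (max θ 0 * u) := by ring
        _ ≤ a * (1 / 2) := mul_le_mul_of_nonneg_left h2 ha.le
    have h4 : R ≤ (a / u ^ 16) * (1 / 2) := by
      rw [div_mul_eq_mul_div, le_div_iff₀ (by positivity)]; exact h3
    have h5 : R ^ 2 ≤ ((a / u ^ 16) * (1 / 2)) ^ 2 := pow_le_pow_left₀ hR0 h4 2
    rw [htdef]
    have h6 : 0 ≤ (a / u ^ 16) ^ 2 := by positivity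
    rw [mul_pow] at h5
    linarith
  have hRt' : R ^ 2 ≤ t := by linarith
  have hKu : (C8 * K1 + K2 + K3) * u ≤ η / 4 := by
    have h1 : u ≤ η / (4 * (KK' + 1)) := huu0.le.trans hu0c
    rw [le_div_iff₀ (by positivity)] at h1
    have h2 : 0 < u := hu
    have h3 : KK' * u ≤ η / 4 := by linarith
    exact h3
  -- charge data
  obtain ⟨h, k, w, hD⟩ := h6 W f Q R₀ R a hsc hR8 (u ^ 40) (by positivity)
  -- the state
  set Ψ : HS (Fin N) := hψ.1.toLp ψ with hΨ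
  have hΨ1 : ‖Ψ‖ = 1 := norm_toLp_one hψ.1 hψ.2.1
  obtain ⟨hL1, hL2, hL3⟩ := loc_cw ht hψ.1 hLoc
  rw [← hΨ] at hL1 hL2 hL3
  have hY19 : (u ^ 20) ^ ((19:ℝ) / 20) = u ^ 19 := by
    rw [← Real.rpow_natCast u 20, ← Real.rpow_mul hu.le, ← Real.rpow_natCast u 19]
    norm_num
  rw [hY19] at hL1 hL2
  have hN3 : CM * (N:ℝ) ^ 3 * u ^ 19 ≤ max CM 0 * (N:ℝ) ^ 3 * u ^ 19 := by
    refine mul_le_mul_of_nonneg_right (mul_le_mul_of_nonneg_right hM1 (by positivity))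
      (by positivity)
  have hN2 : CM * (N:ℝ) ^ 2 ≤ max CM 0 * (N:ℝ) ^ 2 :=
    mul_le_mul_of_nonneg_right hM1 (by positivity)
  have hL1' := hL1.trans hN3
  have hL2' := hL2.trans hN3
  have hL3' := hL3.trans hN2
  have hdepe : ∑ i, nuQ (fc ψ) i = ∑ j, ‖perp j Ψ‖ ^ 2 :=
    Finset.sum_congr rfl fun i _ => nuQ_toLp hψ.1 i
  rw [hdepe] at hdep ⊢
  set Np : ℝ := ∑ j, ‖perp j Ψ‖ ^ 2 with hNp
  have hNp0 : 0 ≤ Np := Finset.sum_nonneg fun j _ => sq_nonneg _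
  have hNp2 : Np ≤ N / 2 := by
    refine hdep.trans ?_
    have h1 : u ^ 20 ≤ u ^ 2 := pow_le_pow_of_le_one hu.le hu1 (by norm_num)
    have h2 : u ^ 2 ≤ (1 / 2) ^ 2 := pow_le_pow_left₀ hu.le hu12 2
    have h3 : u ^ 20 ≤ 1 / 4 := by linarith
    have h4 : u ^ 20 * N ≤ 1 / 4 * N := mul_le_mul_of_nonneg_right h3 hNpos.le
    linarith
  have hkin := (kin_sum hψ).1
  rw [← hΨ] at hkin
  have hpi := Real.pi_pos
  -- the lower bound at fixed N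
  have key := h8 N t (u ^ 6) (a ^ 2) (8 * Real.pi * a) R (u ^ 40) (C6 * a * t)
    (C6 * a / Real.sqrt t) (u ^ 6) (u ^ 6)⁻¹ (δ * N * a) h k w hNpos' ht ht1 (by positivity)
    ((hpow 6 (by norm_num)).trans hu12) (by positivity) hat (by positivity) hD.sr hR0 hRt
    hD.k_bm hD.w_bm hD.w_nonneg hD.w_le (by positivity) (by linarith) hD.two
    (hD.p1 t ht ht1 hRt') (hD.p2 t ht ht1 hRt') (by positivity)
    (by positivity) (by positivity) (by positivity) (by positivity) Ψ hΨ1 hNp2 hkin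
  rw [← hNp] at key
  obtain ⟨hA1, hA2⟩ := hA t ht ht1
  have hst0 : 0 < Real.sqrt t := Real.sqrt_pos.2 ht
  have hA1' : (∑' p : Fin 3 → ℤ, et t p ^ 2) ≤ max C8 CA * (Real.sqrt t)⁻¹ ^ 3 :=
    hA1.trans (mul_le_mul_of_nonneg_right hCA1 (by positivity))
  have hA2' : (∑' p : Fin 3 → ℤ, et t p ^ 2 * ksq p) ≤ max C8 CA * (Real.sqrt t)⁻¹ ^ 5 :=
    hA2.trans (mul_le_mul_of_nonneg_right hCA1 (by positivity))
  have E1 := e1' a N ha haa1 hNa' t _ _ htdef hL1' hL2'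
  have E2 := e2' a N ha haa2 hNa' t Np R _ _ _ _ htdef hNp0 hdep hR0 hRθ' hA1' hA2' hL3' hL1'
  have hS00 := fin_S00 hΨ1
  have E3 := e3' a N ha haa3 hNa' t Np R _ _ htdef hNp0 hdep hR0 hRθ'
    (hD.p3 t ht ht1 hRt') hS00.1 hS00.2 (S00_ge hΨ1)
  have E4 := fin_LS (δ := δ) (η := η / 4) hu ha hNa' (by
    rw [div_lt_iff₀ (by positivity)]; linarith) hB
  -- the smoothing term
  have hM1n : 0 ≤ ∑ m, cw (8 * t) m (perp m Ψ) := Finset.sum_nonneg fun m _ => cw_nonneg _ _ _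
  have hM0n : 0 ≤ ∑ m, qf (crowd (8 * t) m) Ψ := Finset.sum_nonneg fun m _ =>
    qf_nonneg (fun x => Finset.sum_nonneg fun j _ => hk_nonneg _ _) _
  have hsm : C8 * (8 * Real.pi * a) * ((R + Real.sqrt (a ^ 2)) / Real.sqrt t)
        * ((u ^ 6)⁻¹ / N * (∑ m, cw (8 * t) m (perp m Ψ))
          + 1 / (u ^ 6)⁻¹ * ∑ m, qf (crowd (8 * t) m) Ψ)
      ≤ max C8 CA * (8 * Real.pi * a) * ((R + Real.sqrt (a ^ 2)) / Real.sqrt t)
        * ((u ^ 6)⁻¹ / N * (∑ m, cw (8 * t) m (perp m Ψ))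
          + 1 / (u ^ 6)⁻¹ * ∑ m, qf (crowd (8 * t) m) Ψ) := by
    gcongr
  have hmain := fin_arith (X := N ^ 2 * a * u ^ 20) (u := u) (η := η) (C8 := C8)
    (lamNp := δ * N * a * Np) (TVv := TV t h k Ψ)
    (main := 4 * Real.pi * N ^ 2 * a) (by positivity) hKu hη hC8 E1 E2 E3 E4 hτu ?_
  · have hpot := pot_ge ht.le hsc.W_meas hsc.W_nonneg hsc.W_bdd hD.sr.bm hD.sr.even hD.k_bm
      hD.k_nonneg hD.k_even hD.out h𝒱 hψ
    refine le_trans (ENNReal.ofReal_le_ofReal ?_) hpot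
    exact hmain
  · linarith

end Pool.Agent.Lib.MP_4952d6_mp.LB

end

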