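import Pool.Agent.Lib.MP_4952d6_mp.Pk.G55
import Pool.Agent.Lib.MP_4952d6_mp.Pk.G58
import Pool.Agent.Lib.MP_4952d6_mp.Pk.G59

/-! Merged modules (to save import time): LC.F6. -/

/-! ### LC.F6 -/

section

/-!
# F6: the sharp lower bound for the quantum depletion
-/

set_option autoImplicit false

namespace Pool.Agent.Lib.MP_4952d6_mp

/-- Sharp lower bound for the depletion of the ground state. -/
theorem t1_statement : T1Statement := lhy_assembly' ustatement LA.la_final LB.lb_statement

end Pool.Agent.Lib.MP_4952d6_mp

end

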