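import Pool.Agent.Lib.MP_4952d6_mp.Pk.G42

/-! Merged modules (to save import time): Tail, LowRad. -/

/-! ### Tail -/

section

set_option autoImplicit false
set_option linter.unusedSectionVars false
set_option linter.unusedVariables false
open MeasureTheory Function Filter Topology Set ComplexConjugate
open scoped ENNReal

namespace Pool.Agent.Lib.MP_4952d6_mp

/-- The part `w` of the potential at distances between `R` and `r₁`. -/
structure Tail (w f : ℝ → ℝ) (R r₁ : ℝ) : Prop where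
  R_pos : 0 < R
  R_le : R ≤ r₁
  r₁_lt : r₁ < 1/2
  w_meas : Measurable w
  w_nonneg : ∀ r, 0 ≤ w r
  w_bdd : ∃ M, 0 ≤ M ∧ ∀ r, w r ≤ M
  w_zero : ∀ r, r < R → w r = 0
  w_zero' : ∀ r, r₁ ≤ r → w r = 0
  f_meas : Measurable f
  f_nonneg : ∀ r, 0 ≤ f r
  f_le : ∀ r, f r ≤ 1

/-- cumulative tail charge -/
noncomputable def Qo (w f : ℝ → ℝ) (r : ℝ) : ℝ := ∫ t in (0:ℝ)..r, t ^ 2 * w t * f t

/-- increments of the cumulative tail charge -/
noncomputable def dQ (w f : ℝ → ℝ) (R r : ℝ) : ℝ := Qo w f (r + R / 2) - Qo w f r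

namespace Tail
variable {w f : ℝ → ℝ} {R r₁ : ℝ}

lemma T_nonneg (h : Tail w f R r₁) (t : ℝ) : 0 ≤ t ^ 2 * w t * f t :=
  mul_nonneg (mul_nonneg (sq_nonneg t) (h.w_nonneg t)) (h.f_nonneg t)

lemma T_meas (h : Tail w f R r₁) : Measurable (fun t => t ^ 2 * w t * f t) :=
  ((measurable_id.pow_const 2).mul h.w_meas).mul h.f_meas

lemma T_bd (h : Tail w f R r₁) : ∃ M, 0 ≤ M ∧ ∀ t, t ^ 2 * w t * f t ≤ M * t ^ 2 := by
  obtain ⟨M, hM0, hM⟩ := h.w_bdd
  refine ⟨M, hM0, fun t => ?_⟩
  calc t ^ 2 * w t * f t ≤ t ^ 2 * w t * 1 :=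
        mul_le_mul_of_nonneg_left (h.f_le t) (mul_nonneg (sq_nonneg t) (h.w_nonneg t))
    _ ≤ t ^ 2 * M := by rw [mul_one]; exact mul_le_mul_of_nonneg_left (hM t) (sq_nonneg t)
    _ = M * t ^ 2 := mul_comm _ _

lemma T_int (h : Tail w f R r₁) (r s : ℝ) :
    IntervalIntegrable (fun t => t ^ 2 * w t * f t) volume r s := by
  obtain ⟨M, hM0, hM⟩ := h.T_bd
  have h1 : LocallyIntegrable (fun t : ℝ => M * t ^ 2) volume :=
    (Continuous.locallyIntegrable (by fun_prop))
  have h2 : LocallyIntegrable (fun t => t ^ 2 * w t * f t) volume := by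
    refine h1.mono h.T_meas.aestronglyMeasurable (Eventually.of_forall fun t => ?_)
    rw [Real.norm_eq_abs, Real.norm_eq_abs, abs_of_nonneg (h.T_nonneg t),
      abs_of_nonneg (mul_nonneg hM0 (sq_nonneg t))]
    exact hM t
  exact intervalIntegrable_iff.mpr
    ((h2.integrableOn_isCompact isCompact_uIcc).mono_set uIoc_subset_uIcc)

lemma Qo_sub (h : Tail w f R r₁) (r s : ℝ) :
    Qo w f s - Qo w f r = ∫ t in r..s, t ^ 2 * w t * f t := by
  unfold Qo
  exact intervalIntegral.integral_interval_sub_left (h.T_int 0 s) (h.T_int 0 r)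

lemma Qo_mono (h : Tail w f R r₁) : Monotone (Qo w f) := by
  intro r s hrs
  have h1 := h.Qo_sub r s
  have h2 : 0 ≤ ∫ t in r..s, t ^ 2 * w t * f t :=
    intervalIntegral.integral_nonneg hrs fun t _ => h.T_nonneg t
  linarith

lemma Qo_zero (h : Tail w f R r₁) {r : ℝ} (hr : r ≤ R) : Qo w f r = 0 := by
  have hR := h.R_pos
  unfold Qo
  rw [intervalIntegral.integral_congr_ae (g := fun _ => (0:ℝ))]
  · simp
  · have hne : ∀ᵐ t : ℝ, t ≠ R := by rw [ae_iff]; simp
    filter_upwards [hne] with t ht hmem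
    rw [mem_uIoc] at hmem
    have : t < R := by
      rcases hmem with hm | hm
      · exact lt_of_le_of_ne (hm.2.trans hr) ht
      · exact hm.2.trans_lt hR
    rw [h.w_zero t this]; simp

lemma Qo_const (h : Tail w f R r₁) {r : ℝ} (hr : r₁ ≤ r) : Qo w f r = Qo w f r₁ := by
  have h1 := h.Qo_sub r₁ r
  have h2 : ∫ t in r₁..r, t ^ 2 * w t * f t = 0 := by
    rw [intervalIntegral.integral_congr (g := fun _ => (0:ℝ))]
    · simp
    · intro t ht
      rw [uIcc_of_le hr] at ht
      dsimp only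
      rw [h.w_zero' t ht.1]; simp
  linarith

lemma Qo_le (h : Tail w f R r₁) (r : ℝ) : Qo w f r ≤ Qo w f r₁ := by
  rcases le_total r r₁ with hr | hr
  · exact h.Qo_mono hr
  · exact (h.Qo_const hr).le

lemma Qo_nonneg (h : Tail w f R r₁) (r : ℝ) : 0 ≤ Qo w f r := by
  rcases le_total r R with hr | hr
  · rw [h.Qo_zero hr]
  · rw [← h.Qo_zero le_rfl]; exact h.Qo_mono hr

lemma Qo_cont (h : Tail w f R r₁) : Continuous (Qo w f) :=
  intervalIntegral.continuous_primitive h.T_int 0

lemma dQ_nonneg (h : Tail w f R r₁) (r : ℝ) : 0 ≤ dQ w f R r := by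
  have hR := h.R_pos
  exact sub_nonneg.2 (h.Qo_mono (by linarith))

lemma dQ_le (h : Tail w f R r₁) (r : ℝ) : dQ w f R r ≤ Qo w f r₁ := by
  have h1 := h.Qo_le (r + R / 2)
  have h2 := h.Qo_nonneg r
  unfold dQ; linarith

lemma dQ_zero (h : Tail w f R r₁) {r : ℝ} (hr : r ≤ R / 2) : dQ w f R r = 0 := by
  have hR := h.R_pos
  unfold dQ
  rw [h.Qo_zero (by linarith), h.Qo_zero (by linarith), sub_zero]

lemma dQ_zero' (h : Tail w f R r₁) {r : ℝ} (hr : r₁ ≤ r) : dQ w f R r = 0 := by
  have hR := h.R_pos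
  unfold dQ
  rw [h.Qo_const (by linarith), h.Qo_const hr, sub_self]

lemma dQ_cont (h : Tail w f R r₁) : Continuous (dQ w f R) :=
  (h.Qo_cont.comp (continuous_id.add continuous_const)).sub h.Qo_cont

lemma dQ_integral (h : Tail w f R r₁) {r : ℝ} :
    ∫ t in (0:ℝ)..r, dQ w f R t = ∫ t in r..(r + R / 2), Qo w f t := by
  have hR := h.R_pos
  have hi : ∀ r s : ℝ, IntervalIntegrable (Qo w f) volume r s := fun r s =>
    h.Qo_cont.intervalIntegrable _ _
  have hi2 : IntervalIntegrable (fun t => Qo w f (t + R / 2)) volume 0 r :=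
    (h.Qo_cont.comp (continuous_id.add continuous_const)).intervalIntegrable _ _
  unfold dQ
  rw [intervalIntegral.integral_sub hi2 (hi 0 r),
    intervalIntegral.integral_comp_add_right (fun t => Qo w f t) (R / 2), zero_add]
  have e0 : ∫ t in (0:ℝ)..(R / 2), Qo w f t = 0 := by
    rw [intervalIntegral.integral_congr (g := fun _ => (0:ℝ))]
    · simp
    · intro t ht
      rw [uIcc_of_le (by linarith)] at ht
      exact h.Qo_zero (by linarith [ht.2])
  have e1 := intervalIntegral.integral_add_adjacent_intervals (hi 0 (R / 2)) (hi (R / 2) (r + R / 2))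
  have e2 := intervalIntegral.integral_add_adjacent_intervals (hi 0 r) (hi r (r + R / 2))
  linarith

lemma dQ_integral_le (h : Tail w f R r₁) {r : ℝ} :
    ∫ t in (0:ℝ)..r, dQ w f R t ≤ R / 2 * Qo w f r₁ := by
  have hR := h.R_pos
  rw [h.dQ_integral]
  calc ∫ t in r..(r + R / 2), Qo w f t ≤ ∫ t in r..(r + R / 2), Qo w f r₁ := by
        refine intervalIntegral.integral_mono_on (by linarith)
          (h.Qo_cont.intervalIntegrable _ _) intervalIntegrable_const fun t _ => h.Qo_le t
    _ = R / 2 * Qo w f r₁ := by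
        rw [intervalIntegral.integral_const, smul_eq_mul]; ring

/-- density of the tail field -/
noncomputable def g2 (w f : ℝ → ℝ) (R t : ℝ) : ℝ := t ^ 2 * w t * f t - dQ w f R t / (R / 2)

lemma flux2 (h : Tail w f R r₁) (r : ℝ) :
    flux (g2 w f R) r = Qo w f r - (∫ t in r..(r + R / 2), Qo w f t) / (R / 2) := by
  unfold flux g2
  rw [intervalIntegral.integral_sub (h.T_int 0 r) ((h.dQ_cont.div_const _).intervalIntegrable _ _),
    intervalIntegral.integral_div, h.dQ_integral]
  rfl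

lemma flux2_le (h : Tail w f R r₁) (r : ℝ) : |flux (g2 w f R) r| ≤ dQ w f R r := by
  have hR := h.R_pos
  rw [h.flux2]
  have h1 : R / 2 * Qo w f r ≤ ∫ t in r..(r + R / 2), Qo w f t := by
    calc R / 2 * Qo w f r = ∫ t in r..(r + R / 2), Qo w f r := by
          rw [intervalIntegral.integral_const, smul_eq_mul]; ring
      _ ≤ _ := by
        refine intervalIntegral.integral_mono_on (by linarith) intervalIntegrable_const
          (h.Qo_cont.intervalIntegrable _ _) fun t ht => h.Qo_mono ht.1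
  have h2 : ∫ t in r..(r + R / 2), Qo w f t ≤ R / 2 * Qo w f (r + R / 2) := by
    calc ∫ t in r..(r + R / 2), Qo w f t ≤ ∫ t in r..(r + R / 2), Qo w f (r + R / 2) := by
          refine intervalIntegral.integral_mono_on (by linarith)
            (h.Qo_cont.intervalIntegrable _ _) intervalIntegrable_const fun t ht => h.Qo_mono ht.2
      _ = _ := by
          rw [intervalIntegral.integral_const, smul_eq_mul]; ring
  have hR2 : 0 < R / 2 := by linarith
  have h3 : Qo w f r ≤ (∫ t in r..(r + R / 2), Qo w f t) / (R / 2) := by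
    rw [le_div_iff₀ hR2]; linarith
  have h4 : (∫ t in r..(r + R / 2), Qo w f t) / (R / 2) ≤ Qo w f (r + R / 2) := by
    rw [div_le_iff₀ hR2]; linarith
  have h5 : Qo w f r ≤ Qo w f (r + R / 2) := h.Qo_mono (by linarith)
  unfold dQ
  rw [abs_le]; constructor <;> linarith

theorem dens2 (h : Tail w f R r₁) : Dens r₁ (g2 w f R) where
  b_pos := h.R_pos.trans_le h.R_le
  b_lt := h.r₁_lt
  meas := h.T_meas.sub (h.dQ_cont.measurable.div_const _)
  bd := by
    obtain ⟨M, hM0, hM⟩ := h.T_bd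
    have hR := h.R_pos
    have hμ := h.Qo_nonneg r₁
    refine ⟨M + Qo w f r₁ / (R / 2) / (R / 2) ^ 2, by positivity, fun t => ?_⟩
    unfold g2
    refine (abs_sub _ _).trans ?_
    rw [add_mul]
    refine add_le_add ?_ ?_
    · rw [abs_of_nonneg (h.T_nonneg t)]; exact hM t
    · rcases le_total t (R / 2) with ht | ht
      · rw [h.dQ_zero ht]; simp; positivity
      · rw [abs_of_nonneg (div_nonneg (h.dQ_nonneg t) (by linarith))]
        have h1 : dQ w f R t / (R / 2) ≤ Qo w f r₁ / (R / 2) :=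
          div_le_div_of_nonneg_right (h.dQ_le t) (by linarith)
        have h2 : (R / 2) ^ 2 ≤ t ^ 2 := pow_le_pow_left₀ (by linarith) ht 2
        refine h1.trans ?_
        rw [div_mul_eq_mul_div, le_div_iff₀ (by positivity)]
        exact mul_le_mul_of_nonneg_left h2 (by positivity)
  zero := by
    intro t ht
    unfold g2
    rw [h.w_zero' t ht, h.dQ_zero' ht]; simp
  zero' := by
    intro t ht
    have hR := h.R_pos
    unfold g2
    rw [h.w_zero t (by linarith), h.dQ_zero (by linarith)]; simp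
  tot := by
    have h1 := h.flux2 r₁
    have hR := h.R_pos
    have h2 : ∫ t in r₁..(r₁ + R / 2), Qo w f t = R / 2 * Qo w f r₁ := by
      rw [intervalIntegral.integral_congr (g := fun _ => Qo w f r₁)]
      · rw [intervalIntegral.integral_const, smul_eq_mul]; ring
      · intro t ht
        rw [uIcc_of_le (by linarith)] at ht
        exact h.Qo_const ht.1
    rw [h2] at h1
    have h3 : flux (g2 w f R) r₁ = 0 := by
      rw [h1]; field_simp; ring
    exact h3

end Tail

end Pool.Agent.Lib.MP_4952d6_mp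

end

/-! ### LowRad -/

section

set_option autoImplicit false
set_option linter.unusedSectionVars false
set_option linter.unusedVariables false
open MeasureTheory Function Filter Topology Set ComplexConjugate
open scoped ENNReal

namespace Pool.Agent.Lib.MP_4952d6_mp

lemma rad_eq {b : ℝ} {φ : ℝ → ℝ} (hb0 : 0 ≤ b) (hb2 : b < 1/2) (hφ0 : ∀ r, b ≤ r → φ r = 0) :
    ∫ x, φ (rr x) ∂lam3 = sig * ∫ r in (0:ℝ)..b, r ^ 2 * φ r := by
  rw [integral_rad (fun r hr => hφ0 r (hb2.le.trans hr))]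
  congr 1
  rw [intervalIntegral.integral_of_le hb0]
  symm
  rw [← setIntegral_eq_of_subset_of_ae_sdiff_eq_zero (s := Ioc 0 b) (t := Ioi (0:ℝ))
    measurableSet_Ioi.nullMeasurableSet (fun r hr => hr.1)]
  refine Eventually.of_forall fun r hmem => ?_
  obtain ⟨h1, h2⟩ := hmem
  have : b < r := by
    by_contra hcon
    exact h2 ⟨h1, not_lt.1 hcon⟩
  rw [hφ0 r this.le, mul_zero]

lemma Dens.mono {b b' : ℝ} {g : ℝ → ℝ} (h : Dens b g) (hb : b ≤ b') (hb' : b' < 1/2) :
    Dens b' g where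
  b_pos := h.b_pos.trans_le hb
  b_lt := hb'
  meas := h.meas
  bd := h.bd
  zero t ht := h.zero t (hb.trans ht)
  zero' := h.zero'
  tot := h.flux_b hb

lemma Dens.add {b : ℝ} {g g' : ℝ → ℝ} (h : Dens b g) (h' : Dens b g') :
    Dens b (fun t => g t + g' t) where
  b_pos := h.b_pos
  b_lt := h.b_lt
  meas := h.meas.add h'.meas
  bd := by
    obtain ⟨C, hC0, hC⟩ := h.bd
    obtain ⟨C', hC0', hC'⟩ := h'.bd
    exact ⟨C + C', by positivity, fun t => (abs_add_le _ _).trans (by
      rw [add_mul]; exact add_le_add (hC t) (hC' t))⟩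
  zero t ht := by rw [h.zero t ht, h'.zero t ht, add_zero]
  zero' t ht := by rw [h.zero' t ht, h'.zero' t ht, add_zero]
  tot := by
    rw [intervalIntegral.integral_add (h.int 0 b) (h'.int 0 b), h.tot, h'.tot, add_zero]

lemma Dens.flux_add {b b' : ℝ} {g g' : ℝ → ℝ} (h : Dens b g) (h' : Dens b' g') (r : ℝ) :
    flux (fun t => g t + g' t) r = flux g r + flux g' r := by
  unfold flux
  rw [intervalIntegral.integral_add (h.int 0 r) (h'.int 0 r)]

/-- core charge -/
noncomputable def hcore (R₀ δ qc : ℝ) (r : ℝ) : ℝ :=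
  if 0 < r ∧ R₀ - δ < r ∧ r < R₀ then qc / δ / r ^ 2 else 0

namespace Scat

variable {W : ℝ → ℝ} {R₀ R a : ℝ} {f Q : ℝ → ℝ}

section
variable (h : Scat W R₀ R a f Q) {w : ℝ → ℝ} {r₁ : ℝ} (ht : Tail w f R r₁)
  {δ : ℝ} (hδ : 0 < δ) (hδ2 : 0 < R₀ → δ ≤ R₀ / 2) {d : ℝ} (hd : R ≤ d) (hd2 : d < 1/2)
include h ht hδ hδ2 hd hd2

lemma hcore_bm : BM (fun y : T3 => hcore R₀ δ (Q R₀) (rr y)) := by
  refine JData.rr_bm ?_ ⟨Q R₀ / δ / (R₀ / 2) ^ 2, fun r => ?_⟩
  · unfold hcore
    refine Measurable.ite (measurableSet_Ioi.inter (measurableSet_Ioi.inter measurableSet_Iio)) ?_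
      measurable_const
    exact measurable_const.div (measurable_id.pow_const 2)
  · have hQ := h.Q_nonneg R₀
    unfold hcore
    split_ifs with h1
    · have hR0 : 0 < R₀ := h1.1.trans h1.2.2
      have h4 : R₀ / 2 ≤ r := by linarith [hδ2 hR0, h1.2.1]
      rw [abs_of_nonneg (by positivity)]
      exact div_le_div_of_nonneg_left (by positivity) (by positivity)
        (pow_le_pow_left₀ (by linarith) h4 2)
    · rw [abs_zero]; positivity

lemma hcore_zero {r : ℝ} (hr : R₀ ≤ r) : hcore R₀ δ (Q R₀) r = 0 := by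
  unfold hcore
  rw [if_neg]
  rintro ⟨_, _, h3⟩
  linarith

/-- total density -/
noncomputable def gt (W : ℝ → ℝ) (R₀ δ : ℝ) (f Q : ℝ → ℝ) (a d : ℝ) (w : ℝ → ℝ) (R : ℝ) (t : ℝ) : ℝ :=
  (e1 W R₀ δ f Q t - sm a d t) + Tail.g2 w f R t

/-- total background -/
noncomputable def bt (a d : ℝ) (w f : ℝ → ℝ) (R : ℝ) (r : ℝ) : ℝ :=
  (sm a d r + dQ w f R r / (R / 2)) / r ^ 2

lemma dens_t : Dens (max d r₁) (gt W R₀ δ f Q a d w R) :=
  ((h.dens1 hδ hδ2 hd hd2).mono (le_max_left _ _) (max_lt hd2 ht.r₁_lt)).add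
    (ht.dens2.mono (le_max_right _ _) (max_lt hd2 ht.r₁_lt))

lemma charge_eq {r : ℝ} (hr : 0 < r) :
    (W r + w r) * f r + hcore R₀ δ (Q R₀) r
      = (gt W R₀ δ f Q a d w R r / r ^ 2 - 3 * (flux (gt W R₀ δ f Q a d w R) r / r ^ 3))
        + 3 * (flux (gt W R₀ δ f Q a d w R) r / r ^ 3) + bt a d w f R r := by
  have e : gt W R₀ δ f Q a d w R r / r ^ 2 + bt a d w f R r
      = (W r + w r) * f r + hcore R₀ δ (Q R₀) r := by
    unfold gt bt Tail.g2 e1 hcore
    rw [if_pos hr]
    by_cases h1 : R₀ - δ < r ∧ r < R₀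
    · rw [if_pos h1, if_pos ⟨hr, h1⟩]
      field_simp
      ring
    · rw [if_neg h1, if_neg (fun hh => h1 hh.2)]
      field_simp
      ring
  rw [← e]; ring

lemma bt_nonneg (r : ℝ) : 0 ≤ bt a d w f R r := by
  have hd0 : 0 < d := h.R_pos.trans_le hd
  have h1 := sm_nonneg h.a_pos.le hd0 r
  have h2 := ht.dQ_nonneg r
  have hR := h.R_pos
  unfold bt
  positivity

lemma bt_meas : Measurable (bt a d w f R) := by
  unfold bt
  exact ((sm_meas a d).add (ht.dQ_cont.measurable.div_const _)).div (measurable_id.pow_const 2)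

lemma bt_le (r : ℝ) : bt a d w f R r ≤ 3 * a / d ^ 3 + Qo w f r₁ / (R / 2) / (R / 2) ^ 2 := by
  have hd0 : 0 < d := h.R_pos.trans_le hd
  have ha := h.a_pos
  have hR := h.R_pos
  have hμ := ht.Qo_nonneg r₁
  unfold bt
  rw [add_div]
  refine add_le_add ?_ ?_
  · unfold sm
    split_ifs with h1
    · rw [div_le_iff₀ (by have := h1.1; positivity)]
      exact le_of_eq (by ring)
    · rw [zero_div]; positivity
  · rcases le_total r (R / 2) with hr | hr
    · rw [ht.dQ_zero hr]; simp; positivity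
    · have hr0 : 0 < r := by linarith
      rw [div_le_div_iff₀ (by positivity) (by positivity)]
      have h1 : dQ w f R r / (R / 2) ≤ Qo w f r₁ / (R / 2) :=
        div_le_div_of_nonneg_right (ht.dQ_le r) (by linarith)
      exact mul_le_mul h1 (pow_le_pow_left₀ (by linarith) hr 2) (by positivity) (by positivity)

lemma bt_bm : BM (fun y : T3 => bt a d w f R (rr y)) :=
  JData.rr_bm (h.bt_meas ht hδ hδ2 hd hd2) ⟨_, fun r => by
    rw [abs_of_nonneg (h.bt_nonneg ht hδ hδ2 hd hd2 r)]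
    exact h.bt_le ht hδ hδ2 hd hd2 r⟩

lemma bt_zero {r : ℝ} (hr : max d r₁ ≤ r) : bt a d w f R r = 0 := by
  have h1 := (le_max_left _ _).trans hr
  have h2 := (le_max_right _ _).trans hr
  unfold bt sm
  rw [if_neg (fun hh => by linarith [hh.2]), ht.dQ_zero' h2]; simp

lemma ae_charge : ∀ᵐ y ∂lam3, (W (rr y) + w (rr y)) * f (rr y) + hcore R₀ δ (Q R₀) (rr y)
      = (gt W R₀ δ f Q a d w R (rr y) / rr y ^ 2
          - 3 * (flux (gt W R₀ δ f Q a d w R) (rr y) / rr y ^ 3))
        + 3 * (flux (gt W R₀ δ f Q a d w R) (rr y) / rr y ^ 3) + bt a d w f R (rr y) := by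
  filter_upwards [ae_rr_pos] with y hy
  exact h.charge_eq ht hδ hδ2 hd hd2 hy

lemma flux_t (r : ℝ) : flux (gt W R₀ δ f Q a d w R) r
    = flux (fun t => e1 W R₀ δ f Q t - sm a d t) r + flux (Tail.g2 w f R) r :=
  (h.dens1 hδ hδ2 hd hd2).flux_add ht.dens2 r

/-- Total charge. -/
lemma total_charge : ∫ y, ((W (rr y) + w (rr y)) * f (rr y) + hcore R₀ δ (Q R₀) (rr y)) ∂lam3
    = sig * (a + Qo w f r₁) := by
  have hB : max d r₁ < 1/2 := max_lt hd2 ht.r₁_lt
  have hB0 : 0 ≤ max d r₁ := (h.R_pos.le.trans hd).trans (le_max_left _ _)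
  have hR0B : R₀ ≤ max d r₁ := h.R₀_le.trans (hd.trans (le_max_left _ _))
  rw [rad_eq (φ := fun r => (W r + w r) * f r + hcore R₀ δ (Q R₀) r) hB0 hB]
  · congr 1
    have e2 : ∫ r in (0:ℝ)..(max d r₁), r ^ 2 * ((W r + w r) * f r + hcore R₀ δ (Q R₀) r)
        = ∫ r in (0:ℝ)..(max d r₁), (e1 W R₀ δ f Q r + r ^ 2 * w r * f r) := by
      refine intervalIntegral.integral_congr_ae (Eventually.of_forall fun r hr => ?_)
      rw [uIoc_of_le hB0] at hr
      have hr0 := hr.1
      unfold e1 hcore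
      rw [if_pos hr0]
      by_cases h1 : R₀ - δ < r ∧ r < R₀
      · rw [if_pos h1, if_pos ⟨hr0, h1⟩]
        field_simp
        ring
      · rw [if_neg h1, if_neg (fun hh => h1 hh.2)]
        ring
    rw [e2, intervalIntegral.integral_add (h.e1_int hδ hδ2 _ _) (ht.T_int _ _),
      h.E_eq hδ hδ2 hR0B, h.Q_out _ (hd.trans (le_max_left _ _))]
    congr 1
    exact ht.Qo_const (le_max_right _ _)
  · intro r hr
    have h1 := (le_max_left _ _).trans hr
    have h2 := (le_max_right _ _).trans hr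
    rw [h.W_zero r (hd.trans h1), ht.w_zero' r h2, h.hcore_zero ht hδ hδ2 hd hd2
      (h.R₀_le.trans (hd.trans h1))]
    simp

/-- Field energy. -/
lemma field_energy : ∫ y, (flux (gt W R₀ δ f Q a d w R) (rr y) / rr y ^ 3) ^ 2 * rr y ^ 2 ∂lam3
    ≤ sig * ((∫ r in (0:ℝ)..d, (flux (fun t => e1 W R₀ δ f Q t - sm a d t) r) ^ 2 / r ^ 2)
      + 4 / R ^ 2 * (2 * a + Qo w f r₁) * (R / 2 * Qo w f r₁)) := by
  have hB : max d r₁ < 1/2 := max_lt hd2 ht.r₁_lt
  have hd0 : 0 < d := h.R_pos.trans_le hd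
  have hB0 : 0 ≤ max d r₁ := hd0.le.trans (le_max_left _ _)
  have ha := h.a_pos
  have hR := h.R_pos
  have hμ := ht.Qo_nonneg r₁
  have hDt := h.dens_t ht hδ hδ2 hd hd2
  have hD1 := h.dens1 hδ hδ2 hd hd2
  obtain ⟨C, hC0, hC⟩ := hD1.bd
  have hm1 : Measurable (fun r => (flux (fun t => e1 W R₀ δ f Q t - sm a d t) r) ^ 2 / r ^ 2) :=
    (hD1.flux_cont.measurable.pow_const 2).div (measurable_id.pow_const 2)
  have hI : ∀ r s : ℝ, 0 ≤ r → r ≤ s → IntervalIntegrable
      (fun r => (flux (fun t => e1 W R₀ δ f Q t - sm a d t) r) ^ 2 / r ^ 2) volume r s := by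
    intro r s hr hrs
    have h1 : IntervalIntegrable (fun r : ℝ => (C * r ^ 2 / 3) ^ 2) volume r s :=
      Continuous.intervalIntegrable (by fun_prop) _ _
    refine h1.mono_fun hm1.aestronglyMeasurable ?_
    refine (ae_restrict_iff' measurableSet_uIoc).2 (Eventually.of_forall fun t ht => ?_)
    rw [uIoc_of_le hrs] at ht
    have ht0 : 0 < t := hr.trans_lt ht.1
    dsimp only
    rw [Real.norm_eq_abs, Real.norm_eq_abs, abs_of_nonneg (by positivity), abs_of_nonneg (by positivity),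
      div_le_iff₀ (by positivity)]
    have h2 := pow_le_pow_left₀ (abs_nonneg _) (hD1.flux_le hC0 hC ht0.le) 2
    rw [sq_abs] at h2
    refine h2.trans (le_of_eq (by ring))
  have hIΔ : IntervalIntegrable (fun r => 4 / R ^ 2 * (2 * a + Qo w f r₁) * dQ w f R r) volume 0
      (max d r₁) := (ht.dQ_cont.const_mul _).intervalIntegrable _ _ |>.congr_ae (by
        exact Eventually.of_forall fun _ => rfl)
  have key := rad_le (b := max d r₁) (s := 0)
    (φ := fun r => (flux (gt W R₀ δ f Q a d w R) r / r ^ 3) ^ 2 * r ^ 2)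
    (B := fun r => (flux (fun t => e1 W R₀ δ f Q t - sm a d t) r) ^ 2 / r ^ 2
      + 4 / R ^ 2 * (2 * a + Qo w f r₁) * dQ w f R r) le_rfl hB0 hB
    (fun r hr => by rw [hDt.flux_b hr]; simp)
    (fun r hr0 hr => absurd hr (not_lt.2 hr0.le))
    (fun r hr => by positivity)
    (fun r hr hrb => by
      rw [h.flux_t ht hδ hδ2 hd hd2]
      set u1 := flux (fun t => e1 W R₀ δ f Q t - sm a d t) r with hu1
      set u2 := flux (Tail.g2 w f R) r with hu2
      have h1 : |u1| ≤ a := h.flux1_le hδ hδ2 hd hd2 hr.le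
      have h2 : |u2| ≤ dQ w f R r := ht.flux2_le r
      have hΔ0 := ht.dQ_nonneg r
      have hΔ1 := ht.dQ_le r
      have e1' : r ^ 2 * (((u1 + u2) / r ^ 3) ^ 2 * r ^ 2) = (u1 + u2) ^ 2 / r ^ 2 := by
        field_simp
      rw [e1']
      rcases le_or_gt r (R / 2) with hr2 | hr2
      · have h3 : u2 = 0 := by
          rw [ht.dQ_zero hr2] at h2
          exact abs_nonpos_iff.1 h2
        rw [h3, ht.dQ_zero hr2]; simp
      · have h3 : (u1 + u2) ^ 2 ≤ u1 ^ 2 + (2 * a + Qo w f r₁) * dQ w f R r := by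
          have h4 : (u1 + u2) ^ 2 = u1 ^ 2 + 2 * (u1 * u2) + u2 ^ 2 := by ring
          have h5 : u1 * u2 ≤ a * dQ w f R r :=
            (le_abs_self _).trans (by rw [abs_mul]; exact mul_le_mul h1 h2 (abs_nonneg _) ha.le)
          have h6 : u2 ^ 2 ≤ Qo w f r₁ * dQ w f R r := by
            rw [← sq_abs, sq]
            exact mul_le_mul (h2.trans hΔ1) h2 (abs_nonneg _) hμ
          rw [h4]; linarith
        have h7 : (2 * a + Qo w f r₁) * dQ w f R r / r ^ 2
            ≤ 4 / R ^ 2 * (2 * a + Qo w f r₁) * dQ w f R r := by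
          rw [div_le_iff₀ (by positivity)]
          have h8 : 1 ≤ 4 / R ^ 2 * r ^ 2 := by
            rw [div_mul_eq_mul_div, le_div_iff₀ (by positivity)]
            have := pow_le_pow_left₀ (by linarith) hr2.le 2
            linarith
          have h9 : 0 ≤ (2 * a + Qo w f r₁) * dQ w f R r := by positivity
          calc (2 * a + Qo w f r₁) * dQ w f R r = (2 * a + Qo w f r₁) * dQ w f R r * 1 :=
                (mul_one _).symm
            _ ≤ (2 * a + Qo w f r₁) * dQ w f R r * (4 / R ^ 2 * r ^ 2) :=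
                mul_le_mul_of_nonneg_left h8 h9
            _ = _ := by ring
        calc (u1 + u2) ^ 2 / r ^ 2 ≤ (u1 ^ 2 + (2 * a + Qo w f r₁) * dQ w f R r) / r ^ 2 :=
              div_le_div_of_nonneg_right h3 (sq_nonneg r)
          _ = u1 ^ 2 / r ^ 2 + (2 * a + Qo w f r₁) * dQ w f R r / r ^ 2 := add_div _ _ _
          _ ≤ _ := add_le_add le_rfl h7)
    ((hI 0 _ le_rfl hB0).add hIΔ)
  refine key.trans (mul_le_mul_of_nonneg_left ?_ sig_pos.le)
  rw [intervalIntegral.integral_add (hI 0 _ le_rfl hB0) hIΔ, intervalIntegral.integral_const_mul]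
  refine add_le_add (le_of_eq ?_) ?_
  · rw [← intervalIntegral.integral_add_adjacent_intervals (hI 0 d le_rfl hd0.le)
      (hI d _ hd0.le (le_max_left _ _))]
    have : ∫ r in d..(max d r₁), (flux (fun t => e1 W R₀ δ f Q t - sm a d t) r) ^ 2 / r ^ 2 = 0 := by
      rw [intervalIntegral.integral_congr (g := fun _ => (0:ℝ))]
      · simp
      · intro t ht'
        rw [uIcc_of_le (le_max_left _ _)] at ht'
        dsimp only
        rw [hD1.flux_b ht'.1]; simp
    rw [this, add_zero]
  · exact mul_le_mul_of_nonneg_left ht.dQ_integral_le (by positivity)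

/-- `L¹` norm of the field. -/
lemma field_L1 : ∫ y, |flux (gt W R₀ δ f Q a d w R) (rr y) / rr y ^ 3| * rr y ∂lam3
    ≤ sig * (a * d + R / 2 * Qo w f r₁) := by
  have hB : max d r₁ < 1/2 := max_lt hd2 ht.r₁_lt
  have hd0 : 0 < d := h.R_pos.trans_le hd
  have hB0 : 0 ≤ max d r₁ := hd0.le.trans (le_max_left _ _)
  have ha := h.a_pos
  have hDt := h.dens_t ht hδ hδ2 hd hd2
  have hD1 := h.dens1 hδ hδ2 hd hd2
  have hIc : IntervalIntegrable (fun r => (if r < d then a else 0)) volume 0 (max d r₁) := by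
    refine (intervalIntegrable_const (c := a)).mono_fun
      (Measurable.ite measurableSet_Iio measurable_const measurable_const).aestronglyMeasurable
      (Eventually.of_forall fun t => ?_)
    dsimp only
    split_ifs
    · exact le_rfl
    · rw [norm_zero]; exact norm_nonneg _
  have hIΔ : IntervalIntegrable (fun r => dQ w f R r) volume 0 (max d r₁) :=
    ht.dQ_cont.intervalIntegrable _ _
  have key := rad_le (b := max d r₁) (s := 0)
    (φ := fun r => |flux (gt W R₀ δ f Q a d w R) r / r ^ 3| * r)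
    (B := fun r => (if r < d then a else 0) + dQ w f R r) le_rfl hB0 hB
    (fun r hr => by rw [hDt.flux_b hr]; simp)
    (fun r hr0 hr => absurd hr (not_lt.2 hr0.le))
    (fun r hr => by positivity)
    (fun r hr hrb => by
      have e1' : r ^ 2 * (|flux (gt W R₀ δ f Q a d w R) r / r ^ 3| * r)
          = |flux (gt W R₀ δ f Q a d w R) r| := by
        rw [abs_div, abs_of_pos (pow_pos hr 3)]
        field_simp
      rw [e1', h.flux_t ht hδ hδ2 hd hd2]
      refine (abs_add_le _ _).trans (add_le_add ?_ (ht.flux2_le r))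
      split_ifs with h1
      · exact h.flux1_le hδ hδ2 hd hd2 hr.le
      · rw [hD1.flux_b (not_lt.1 h1)]; simp)
    (hIc.add hIΔ)
  refine key.trans (mul_le_mul_of_nonneg_left ?_ sig_pos.le)
  rw [intervalIntegral.integral_add hIc hIΔ]
  refine add_le_add ?_ ht.dQ_integral_le
  have hIc1 : IntervalIntegrable (fun r => (if r < d then a else 0)) volume 0 d := hIc.mono_set (by
    rw [uIcc_of_le hd0.le, uIcc_of_le hB0]
    exact Icc_subset_Icc le_rfl (le_max_left _ _))
  have hIc2 : IntervalIntegrable (fun r => (if r < d then a else 0)) volume d (max d r₁) :=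
    hIc.mono_set (by
      rw [uIcc_of_le (le_max_left _ _), uIcc_of_le hB0]
      exact Icc_subset_Icc hd0.le le_rfl)
  rw [← intervalIntegral.integral_add_adjacent_intervals hIc1 hIc2]
  have e2 : ∫ r in d..(max d r₁), (if r < d then a else 0) = 0 := by
    rw [intervalIntegral.integral_congr (g := fun _ => (0:ℝ))]
    · simp
    · intro t ht'
      rw [uIcc_of_le (le_max_left _ _)] at ht'
      dsimp only
      rw [if_neg (not_lt.2 ht'.1)]
  have e3 : ∫ r in (0:ℝ)..d, (if r < d then a else 0) ≤ ∫ r in (0:ℝ)..d, a := by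
    refine intervalIntegral.integral_mono_on hd0.le hIc1 intervalIntegrable_const fun r _ => ?_
    split_ifs
    · exact le_rfl
    · exact ha.le
  rw [e2, add_zero]
  refine e3.trans (le_of_eq ?_)
  rw [intervalIntegral.integral_const, smul_eq_mul]; ring

/-- `L¹` norm of the background. -/
lemma bt_L1 : ∫ y, |bt a d w f R (rr y)| ∂lam3 ≤ sig * (a + Qo w f r₁) := by
  have hB : max d r₁ < 1/2 := max_lt hd2 ht.r₁_lt
  have hd0 : 0 < d := h.R_pos.trans_le hd
  have hR := h.R_pos
  have hB0 : 0 ≤ max d r₁ := hd0.le.trans (le_max_left _ _)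
  have hs := h.sm_int hδ hδ2 hd hd2 (max d r₁)
  have hIΔ : IntervalIntegrable (fun r => dQ w f R r / (R / 2)) volume 0 (max d r₁) :=
    (ht.dQ_cont.div_const _).intervalIntegrable _ _
  have key := rad_le (b := max d r₁) (s := 0) (φ := fun r => |bt a d w f R r|)
    (B := fun r => sm a d r + dQ w f R r / (R / 2)) le_rfl hB0 hB
    (fun r hr => by rw [h.bt_zero ht hδ hδ2 hd hd2 hr]; simp)
    (fun r hr0 hr => absurd hr (not_lt.2 hr0.le))
    (fun r hr => abs_nonneg _)
    (fun r hr hrb => by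
      rw [abs_of_nonneg (h.bt_nonneg ht hδ hδ2 hd hd2 r)]
      unfold bt
      refine le_of_eq ?_
      field_simp)
    (hs.add hIΔ)
  refine key.trans (mul_le_mul_of_nonneg_left ?_ sig_pos.le)
  rw [intervalIntegral.integral_add hs hIΔ, intervalIntegral.integral_div]
  refine add_le_add (le_of_eq ?_) ?_
  · have hs1 := h.sm_int hδ hδ2 hd hd2 d
    have hs2 : IntervalIntegrable (sm a d) volume d (max d r₁) := hs.mono_set (by
      rw [uIcc_of_le (le_max_left _ _), uIcc_of_le hB0]
      exact Icc_subset_Icc hd0.le le_rfl)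
    rw [← intervalIntegral.integral_add_adjacent_intervals hs1 hs2,
      sm_integral hd0 hd0.le le_rfl]
    have e2 : ∫ r in d..(max d r₁), sm a d r = 0 := by
      rw [intervalIntegral.integral_congr (g := fun _ => (0:ℝ))]
      · simp
      · intro t ht'
        rw [uIcc_of_le (le_max_left _ _)] at ht'
        unfold sm
        dsimp only
        rw [if_neg (fun hh => by linarith [hh.2, ht'.1])]
    rw [e2]; field_simp; ring
  · rw [div_le_iff₀ (by positivity)]
    refine ht.dQ_integral_le.trans (le_of_eq ?_)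
    ring

/-- `L²` norm of the background. -/
lemma bt_L2 : ∫ y, (bt a d w f R (rr y)) ^ 2 ∂lam3
    ≤ sig * (3 * a ^ 2 / d ^ 3
      + (6 * a / d ^ 3 + 8 * Qo w f r₁ / R ^ 3) * Qo w f r₁) := by
  have hB : max d r₁ < 1/2 := max_lt hd2 ht.r₁_lt
  have hd0 : 0 < d := h.R_pos.trans_le hd
  have hR := h.R_pos
  have ha := h.a_pos
  have hμ := ht.Qo_nonneg r₁
  have hB0 : 0 ≤ max d r₁ := hd0.le.trans (le_max_left _ _)
  have hs := (h.sm_int hδ hδ2 hd hd2 (max d r₁)).const_mul (3 * a / d ^ 3)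
  have hIΔ : IntervalIntegrable (fun r => (6 * a / d ^ 3 + 8 * Qo w f r₁ / R ^ 3)
      * (dQ w f R r / (R / 2))) volume 0 (max d r₁) :=
    ((ht.dQ_cont.div_const _).const_mul _).intervalIntegrable _ _ |>.congr_ae (by
        exact Eventually.of_forall fun _ => rfl)
  have key := rad_le (b := max d r₁) (s := 0) (φ := fun r => (bt a d w f R r) ^ 2)
    (B := fun r => 3 * a / d ^ 3 * sm a d r
      + (6 * a / d ^ 3 + 8 * Qo w f r₁ / R ^ 3) * (dQ w f R r / (R / 2))) le_rfl hB0 hB
    (fun r hr => by rw [h.bt_zero ht hδ hδ2 hd hd2 hr]; simp)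
    (fun r hr0 hr => absurd hr (not_lt.2 hr0.le))
    (fun r hr => sq_nonneg _)
    (fun r hr hrb => by
      set s := sm a d r with hs'
      set D := dQ w f R r / (R / 2) with hD
      have hs0 : 0 ≤ s := sm_nonneg ha.le hd0 r
      have hD0 : 0 ≤ D := div_nonneg (ht.dQ_nonneg r) (by linarith)
      have hs1 : s ≤ 3 * a / d ^ 3 * r ^ 2 := by
        rw [hs']; unfold sm
        split_ifs
        · exact le_of_eq (by ring)
        · positivity
      have e1' : r ^ 2 * (bt a d w f R r) ^ 2 = (s + D) ^ 2 / r ^ 2 := by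
        unfold bt; rw [← hs', ← hD]; field_simp
      rw [e1', div_le_iff₀ (by positivity)]
      have h1 : s ^ 2 ≤ 3 * a / d ^ 3 * s * r ^ 2 := by
        calc s ^ 2 = s * s := sq s
          _ ≤ s * (3 * a / d ^ 3 * r ^ 2) := mul_le_mul_of_nonneg_left hs1 hs0
          _ = _ := by ring
      have h2 : 2 * s * D ≤ 6 * a / d ^ 3 * D * r ^ 2 := by
        calc 2 * s * D = 2 * D * s := by ring
          _ ≤ 2 * D * (3 * a / d ^ 3 * r ^ 2) := mul_le_mul_of_nonneg_left hs1 (by positivity)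
          _ = _ := by ring
      have h3 : D ^ 2 ≤ 8 * Qo w f r₁ / R ^ 3 * D * r ^ 2 := by
        rcases le_or_gt r (R / 2) with hr2 | hr2
        · rw [hD, ht.dQ_zero hr2]; simp
        · have h4 : D ≤ 2 * Qo w f r₁ / R := by
            rw [hD, div_le_div_iff₀ (by positivity) hR]
            have := ht.dQ_le r
            nlinarith
          have h5 : R ^ 2 ≤ 4 * r ^ 2 := by
            have := pow_le_pow_left₀ (by linarith) hr2.le 2
            linarith
          have h6 : 2 * Qo w f r₁ / R ≤ 8 * Qo w f r₁ / R ^ 3 * r ^ 2 := by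
            rw [div_mul_eq_mul_div, div_le_div_iff₀ hR (by positivity)]
            have h7 : 2 * Qo w f r₁ * R * R ^ 2 ≤ 2 * Qo w f r₁ * R * (4 * r ^ 2) :=
              mul_le_mul_of_nonneg_left h5 (by positivity)
            calc 2 * Qo w f r₁ * R ^ 3 = 2 * Qo w f r₁ * R * R ^ 2 := by ring
              _ ≤ _ := h7
              _ = _ := by ring
          calc D ^ 2 = D * D := sq D
            _ ≤ D * (8 * Qo w f r₁ / R ^ 3 * r ^ 2) :=
              mul_le_mul_of_nonneg_left (h4.trans h6) hD0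
            _ = _ := by ring
      have e3 : (s + D) ^ 2 = s ^ 2 + 2 * s * D + D ^ 2 := by ring
      rw [e3]
      have e4 : (3 * a / d ^ 3 * s + (6 * a / d ^ 3 + 8 * Qo w f r₁ / R ^ 3) * D) * r ^ 2
          = 3 * a / d ^ 3 * s * r ^ 2 + 6 * a / d ^ 3 * D * r ^ 2
            + 8 * Qo w f r₁ / R ^ 3 * D * r ^ 2 := by ring
      rw [e4]
      linarith)
    (hs.add hIΔ)
  refine key.trans (mul_le_mul_of_nonneg_left ?_ sig_pos.le)
  rw [intervalIntegral.integral_add hs hIΔ, intervalIntegral.integral_const_mul,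
    intervalIntegral.integral_const_mul, intervalIntegral.integral_div]
  refine add_le_add (le_of_eq ?_) ?_
  · have hs0 := h.sm_int hδ hδ2 hd hd2 (max d r₁)
    have hs1 := h.sm_int hδ hδ2 hd hd2 d
    have hs2 : IntervalIntegrable (sm a d) volume d (max d r₁) := hs0.mono_set (by
      rw [uIcc_of_le (le_max_left _ _), uIcc_of_le hB0]
      exact Icc_subset_Icc hd0.le le_rfl)
    rw [← intervalIntegral.integral_add_adjacent_intervals hs1 hs2,
      sm_integral hd0 hd0.le le_rfl]
    have e2 : ∫ r in d..(max d r₁), sm a d r = 0 := by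
      rw [intervalIntegral.integral_congr (g := fun _ => (0:ℝ))]
      · simp
      · intro t ht'
        rw [uIcc_of_le (le_max_left _ _)] at ht'
        unfold sm
        dsimp only
        rw [if_neg (fun hh => by linarith [hh.2, ht'.1])]
    rw [e2]; field_simp; ring
  · refine mul_le_mul_of_nonneg_left ?_ (by positivity)
    rw [div_le_iff₀ (by positivity)]
    refine ht.dQ_integral_le.trans (le_of_eq ?_)
    ring

/-- Potential energy of the pair function. -/
lemma pot_f : ∫ y, (W (rr y) + w (rr y)) * f (rr y) ^ 2 ∂lam3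
    ≤ sig * ((∫ r in R₀..d, r ^ 2 * W r * f r ^ 2) + Qo w f r₁) := by
  have hB : max d r₁ < 1/2 := max_lt hd2 ht.r₁_lt
  have hd0 : 0 < d := h.R_pos.trans_le hd
  have hR := h.R_pos
  have hB0 : 0 ≤ max d r₁ := hd0.le.trans (le_max_left _ _)
  have hR0B : R₀ ≤ max d r₁ := h.R₀_le.trans (hd.trans (le_max_left _ _))
  obtain ⟨M, hM0, hM⟩ := h.exists_M
  have hWf : ∀ r s : ℝ, IntervalIntegrable (fun r => r ^ 2 * W r * f r ^ 2) volume r s := by
    intro r s
    have h1 : IntervalIntegrable (fun r : ℝ => r ^ 2 * M) volume r s :=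
      (Continuous.intervalIntegrable (by fun_prop) _ _)
    refine h1.mono_fun (((measurable_id.pow_const 2).mul h.W_meas).mul
      (h.f_cont.measurable.pow_const 2)).aestronglyMeasurable (Eventually.of_forall fun r => ?_)
    have := h.W_nonneg r
    dsimp only
    rw [Real.norm_eq_abs, Real.norm_eq_abs, abs_of_nonneg (by positivity), abs_of_nonneg (by positivity)]
    calc r ^ 2 * W r * f r ^ 2 ≤ r ^ 2 * W r * 1 :=
          mul_le_mul_of_nonneg_left (pow_le_one₀ (h.f_nonneg r) (h.f_le_one r))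
            (mul_nonneg (sq_nonneg r) (h.W_nonneg r))
      _ ≤ r ^ 2 * M := by rw [mul_one]; exact mul_le_mul_of_nonneg_left (hM r) (sq_nonneg r)
  have key := rad_le (b := max d r₁) (s := 0) (φ := fun r => (W r + w r) * f r ^ 2)
    (B := fun r => r ^ 2 * W r * f r ^ 2 + r ^ 2 * w r * f r) le_rfl hB0 hB
    (fun r hr => by
      rw [h.W_zero r (hd.trans ((le_max_left _ _).trans hr)), ht.w_zero' r ((le_max_right _ _).trans hr)]
      simp)
    (fun r hr0 hr => absurd hr (not_lt.2 hr0.le))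
    (fun r hr => by
      have := h.W_nonneg r
      have := ht.w_nonneg r
      positivity)
    (fun r hr hrb => by
      have h1 : r ^ 2 * w r * f r ^ 2 ≤ r ^ 2 * w r * f r := by
        refine mul_le_mul_of_nonneg_left ?_ (mul_nonneg (sq_nonneg r) (ht.w_nonneg r))
        rw [sq]
        exact mul_le_of_le_one_left (h.f_nonneg r) (h.f_le_one r)
      have e : r ^ 2 * ((W r + w r) * f r ^ 2) = r ^ 2 * W r * f r ^ 2 + r ^ 2 * w r * f r ^ 2 := by
        ring
      rw [e]
      exact add_le_add le_rfl h1)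
    ((hWf _ _).add (ht.T_int _ _))
  refine key.trans (mul_le_mul_of_nonneg_left ?_ sig_pos.le)
  rw [intervalIntegral.integral_add (hWf _ _) (ht.T_int _ _)]
  refine add_le_add (le_of_eq ?_) (le_of_eq (ht.Qo_const (le_max_right _ _)))
  rw [← intervalIntegral.integral_add_adjacent_intervals (hWf 0 d) (hWf d _),
    ← intervalIntegral.integral_add_adjacent_intervals (hWf 0 R₀) (hWf R₀ d)]
  have e1' : ∫ r in (0:ℝ)..R₀, r ^ 2 * W r * f r ^ 2 = 0 := by
    rw [intervalIntegral.integral_congr_ae (g := fun _ => (0:ℝ))]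
    · simp
    · refine Eventually.of_forall fun r hr => ?_
      rw [uIoc_of_le h.R₀_nonneg] at hr
      rw [h.f_core r (hr.1.trans_le hr.2) hr.2]; simp
  have e2' : ∫ r in d..(max d r₁), r ^ 2 * W r * f r ^ 2 = 0 := by
    rw [intervalIntegral.integral_congr (g := fun _ => (0:ℝ))]
    · simp
    · intro t ht'
      rw [uIcc_of_le (le_max_left _ _)] at ht'
      dsimp only
      rw [h.W_zero t (hd.trans ht'.1)]; simp
  rw [e1', e2']; ring

end

end Scat

end Pool.Agent.Lib.MP_4952d6_mp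

end

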