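import Pool.Agent.Lib.MP_4952d6_mp.Pk.G14
import Pool.Agent.Lib.MP_4952d6_mp.Pk.G18
import Pool.Agent.Lib.MP_4952d6_mp.Pk.G25
import Pool.Agent.Lib.MP_4952d6_mp.Pk.G29
import Pool.Agent.Lib.MP_4952d6_mp.Pk.H01

/-! Merged modules (to save import time): LowerAbs, Combine, Phys, Final, Final2. -/

/-! ### LowerAbs -/

section

set_option autoImplicit false
set_option linter.unusedSectionVars false
set_option linter.unusedVariables false
open MeasureTheory Function Filter Topology Set ComplexConjugate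
open scoped ENNReal

namespace Pool.Agent.Lib.MP_4952d6_mp

/-- **Abstract lower bound** on the unit torus. -/
theorem lower_abs {N : ℕ} (hN : 1 ≤ N) {𝒱 : T3 → ℝ≥0∞} {W f hc : T3 → ℝ}
    (hW : BM W) (hW0 : ∀ y, 0 ≤ W y) (hWe : ∀ y, W (-y) = W y) (hWV : ∀ y, ENNReal.ofReal (2 * W y) ≤ 𝒱 y)
    (hf : BM f) (hhc : BM hc) {ψ : (Fin N → T3) → ℂ} (hψ : MemLp ψ 2 (piN (Fin N)))
    (hE : tE 𝒱 ψ < ⊤)
    (hcore : ∀ i j : Fin N, i ≠ j → ∀ᵐ x ∂(piN (Fin N)), (hc (x i - x j) : ℂ) * ψ x = 0)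
    {q m A ws I : ℝ} (hq : fc3 (fun y => ((W y * f y + hc y : ℝ) : ℂ)) 0 = q) (hm : 0 < m)
    (hA0 : 0 ≤ A) (hws0 : 0 ≤ ws)
    (hA : ∑' p, (if p = 0 then 0 else ENNReal.ofReal
      (‖fc3 (fun y => ((W y * f y + hc y : ℝ) : ℂ)) p‖ ^ 2 / (4 * Real.pi ^ 2 * mom2 p + m)))
      ≤ ENNReal.ofReal A)
    (hw : ∀ p, p ≠ 0 →
      ‖fc3 (fun y => ((W y * f y + hc y : ℝ) : ℂ)) p‖ ^ 2 / (4 * Real.pi ^ 2 * mom2 p + m) ≤ ws)
    (hI : ∫ y, W y * f y ^ 2 ∂lam3 ≤ I) (hpos : 0 ≤ 2 * q - A - I) :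
    (2 * q - A - I) * (N * (N - 1) * ∫ x, ‖ψ x‖ ^ 2 ∂(piN (Fin N))
        - 2 * (N - 1) * ∑ i, nuQ (fc ψ) i)
      ≤ (tE 𝒱 ψ).toReal + m * ∑ i, nuQ (fc ψ) i + N ^ 2 * ws * ∑ i, nuQ (fc ψ) i := by
  classical
  set c : (Fin N → Fin 3 → ℤ) → ℂ := fc ψ with hc'
  set S : ℝ := ∫ x, ‖ψ x‖ ^ 2 ∂(piN (Fin N)) with hS
  have hpars : HasSum (fun k => ‖c k‖ ^ 2) S := parseval_sq hψ
  set Sν : ℝ := ∑ i, nuQ c i with hSν
  -- kinetic energy
  have hkinlt : (∑' k : Fin N → Fin 3 → ℤ, ENNReal.ofReal (4 * Real.pi ^ 2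
      * (∑ i, ∑ α, (k i α : ℝ) ^ 2) * ‖c k‖ ^ 2)) < ⊤ := lt_of_le_of_lt le_self_add hE
  have hpotlt : (∫⁻ x, (∑ i, ∑ j ∈ Finset.Ioi i, 𝒱 (x i - x j)) * ‖ψ x‖ₑ ^ 2 ∂(piN (Fin N))) < ⊤ :=
    lt_of_le_of_lt le_add_self hE
  have hk0 : ∀ k : Fin N → Fin 3 → ℤ, 0 ≤ 4 * Real.pi ^ 2
      * (∑ i, ∑ α, (k i α : ℝ) ^ 2) * ‖c k‖ ^ 2 := fun k => by
    have : 0 ≤ ∑ i, ∑ α, (k i α : ℝ) ^ 2 :=
      Finset.sum_nonneg fun i _ => Finset.sum_nonneg fun α _ => sq_nonneg _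
    positivity
  obtain ⟨hKs, hKle⟩ := summable_of_ennreal hk0 (R := (∑' k : Fin N → Fin 3 → ℤ,
      ENNReal.ofReal (4 * Real.pi ^ 2 * (∑ i, ∑ α, (k i α : ℝ) ^ 2) * ‖c k‖ ^ 2)).toReal)
      ENNReal.toReal_nonneg (by rw [ENNReal.ofReal_toReal hkinlt.ne])
  set K : ℝ := (∑' k : Fin N → Fin 3 → ℤ, ENNReal.ofReal (4 * Real.pi ^ 2
      * (∑ i, ∑ α, (k i α : ℝ) ^ 2) * ‖c k‖ ^ 2)).toReal with hK
  have hτs : ∀ j : Fin N, Summable fun k : Fin N → Fin 3 → ℤ =>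
      4 * Real.pi ^ 2 * mom2 (k j) * ‖c k‖ ^ 2 := by
    intro j
    refine Summable.of_nonneg_of_le (fun k => ?_) (fun k => ?_) hKs
    · have := mom2_nonneg (k j); positivity
    · refine mul_le_mul_of_nonneg_right (mul_le_mul_of_nonneg_left ?_ (by positivity)) (sq_nonneg _)
      exact Finset.single_le_sum (f := fun i => ∑ α, (k i α : ℝ) ^ 2)
        (fun i _ => Finset.sum_nonneg fun α _ => sq_nonneg _) (Finset.mem_univ j)
  set τ : Fin N → ℝ := fun j => ∑' k : Fin N → Fin 3 → ℤ,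
    4 * Real.pi ^ 2 * mom2 (k j) * ‖c k‖ ^ 2 with hτ
  have hτK : ∑ j, τ j ≤ K := by
    refine le_trans (le_of_eq ?_) hKle
    rw [hτ, ← Summable.tsum_finsetSum (fun j _ => hτs j)]
    congr 1; ext k
    rw [Finset.mul_sum, Finset.sum_mul]
    rfl
  -- potential energy
  set P : ℝ := ∑ j : Fin N, ∑ l ∈ Finset.univ.erase j, ∫ x, W (x j - x l) * ‖ψ x‖ ^ 2 ∂(piN (Fin N))
    with hP
  have hdiff : ∀ {i j : Fin N}, i ≠ j → Measurable (fun x : Fin N → T3 => x i - x j) :=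
    fun hij => (mp_diff hij).measurable
  have hψ2 : Integrable (fun x => ‖ψ x‖ ^ 2) (piN (Fin N)) := hψ.integrable_norm_pow (by norm_num)
  have hWint : ∀ j : Fin N, ∀ l ∈ Finset.univ.erase j,
      Integrable (fun x : Fin N → T3 => W (x j - x l) * ‖ψ x‖ ^ 2) (piN (Fin N)) := by
    intro j l hl
    have hjl := (Finset.ne_of_mem_erase hl).symm
    obtain ⟨C, hC0, hC⟩ := hW.exists_nonneg_bound
    refine hψ2.bdd_mul (c := C) ?_ (Eventually.of_forall fun x => hC _)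
    exact (hW.measurable.comp (hdiff hjl)).aestronglyMeasurable
  have hPle : P ≤ (∫⁻ x, (∑ i, ∑ j ∈ Finset.Ioi i, 𝒱 (x i - x j)) * ‖ψ x‖ₑ ^ 2
      ∂(piN (Fin N))).toReal := by
    have h1 : P = ∫ x, (∑ j : Fin N, ∑ l ∈ Finset.univ.erase j, W (x j - x l)) * ‖ψ x‖ ^ 2
        ∂(piN (Fin N)) := by
      rw [hP]
      simp_rw [Finset.sum_mul]
      rw [integral_finsetSum _ (fun j _ => integrable_finsetSum _ (hWint j))]
      refine Finset.sum_congr rfl fun j _ => ?_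
      rw [integral_finsetSum _ (hWint j)]
    have hnn : ∀ x : Fin N → T3, 0 ≤ (∑ j : Fin N, ∑ l ∈ Finset.univ.erase j, W (x j - x l))
        * ‖ψ x‖ ^ 2 := fun x =>
      mul_nonneg (Finset.sum_nonneg fun j _ => Finset.sum_nonneg fun l _ => hW0 _) (sq_nonneg _)
    have hint : Integrable (fun x => (∑ j : Fin N, ∑ l ∈ Finset.univ.erase j, W (x j - x l))
        * ‖ψ x‖ ^ 2) (piN (Fin N)) := by
      simp_rw [Finset.sum_mul]
      exact integrable_finsetSum _ fun j _ => integrable_finsetSum _ (hWint j)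
    rw [h1, integral_eq_lintegral_of_nonneg_ae (Eventually.of_forall hnn) hint.1]
    refine ENNReal.toReal_mono hpotlt.ne (lintegral_mono fun x => ?_)
    rw [sum_pairs_real (fun i j => W (x i - x j)) (fun i j => by
      rw [← hWe, neg_sub])]
    rw [ENNReal.ofReal_mul (Finset.sum_nonneg fun i _ => Finset.sum_nonneg fun j _ =>
      mul_nonneg zero_le_two (hW0 _))]
    have e1 : ENNReal.ofReal (‖ψ x‖ ^ 2) = ‖ψ x‖ₑ ^ 2 := by
      rw [ENNReal.ofReal_pow (norm_nonneg _), ofReal_norm]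
    rw [e1]
    refine mul_le_mul_left ?_ _
    rw [ENNReal.ofReal_sum_of_nonneg (fun i _ => Finset.sum_nonneg fun j _ =>
      mul_nonneg zero_le_two (hW0 _))]
    refine Finset.sum_le_sum fun i _ => ?_
    rw [ENNReal.ofReal_sum_of_nonneg (fun j _ => mul_nonneg zero_le_two (hW0 _))]
    exact Finset.sum_le_sum fun j _ => hWV _
  have hKP : K + P ≤ (tE 𝒱 ψ).toReal := by
    unfold tE
    rw [ENNReal.toReal_add hkinlt.ne hpotlt.ne]
    exact add_le_add le_rfl hPle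
  -- the pair test
  choose! z hz1 hz2 using fun (j l : Fin N) (hjl : j ≠ l) =>
    pair_test hW hW0 hf hhc hjl hψ (hcore j l hjl)
  have hmain : ∀ j : Fin N, 2 * q * ∑ l ∈ Finset.univ.erase j, PP c j l
      ≤ (∑ l ∈ Finset.univ.erase j, 2 * (z j l).re) + τ j + m * nuQ c j
        + A * ∑ l ∈ Finset.univ.erase j, PP c j l + N * ws * ∑ i, nuQ c i := by
    intro j
    have := l2_main hpars.summable j (hτs j).hasSum hq (fun l hjl => hz1 j l hjl) hm hA0 hws0 hA hw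
    simpa using this
  have hsum := Finset.sum_le_sum fun j (_ : j ∈ (Finset.univ : Finset (Fin N))) => hmain j
  simp only [Finset.sum_add_distrib, ← Finset.mul_sum, Finset.sum_const, Finset.card_univ,
    Fintype.card_fin, nsmul_eq_mul] at hsum
  have hzs : ∑ j : Fin N, ∑ l ∈ Finset.univ.erase j, 2 * (z j l).re
      ≤ P + I * ∑ j : Fin N, ∑ l ∈ Finset.univ.erase j, PP c j l := by
    rw [hP, Finset.mul_sum, ← Finset.sum_add_distrib]
    refine Finset.sum_le_sum fun j _ => ?_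
    rw [Finset.mul_sum, ← Finset.sum_add_distrib]
    refine Finset.sum_le_sum fun l hl => ?_
    refine (hz2 j l (Finset.ne_of_mem_erase hl).symm).trans (add_le_add le_rfl ?_)
    exact mul_le_mul_of_nonneg_right hI (PP_nonneg c j l)
  simp only [← Finset.mul_sum] at hzs
  set PPs : ℝ := ∑ j : Fin N, ∑ l ∈ Finset.univ.erase j, PP c j l with hPPs
  have hPPge : N * (N - 1) * S - 2 * (N - 1) * Sν ≤ PPs := by
    have h1 : ∀ j : Fin N, ∀ l ∈ Finset.univ.erase j, S - nuQ c j - nuQ c l ≤ PP c j l :=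
      fun j l _ => PP_ge hpars j l
    have h2 : ∑ j : Fin N, ∑ l ∈ Finset.univ.erase j, (S - nuQ c j - nuQ c l) ≤ PPs :=
      Finset.sum_le_sum fun j _ => Finset.sum_le_sum (h1 j)
    refine le_trans (le_of_eq ?_) h2
    have e1 : ∀ j : Fin N, ∑ l ∈ Finset.univ.erase j, (S - nuQ c j - nuQ c l)
        = (N - 1) * S - (N - 1) * nuQ c j - (Sν - nuQ c j) := by
      intro j
      rw [Finset.sum_sub_distrib, Finset.sum_sub_distrib, Finset.sum_const, Finset.sum_const,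
        Finset.card_erase_of_mem (Finset.mem_univ _), Finset.card_univ, Fintype.card_fin,
        nsmul_eq_mul, nsmul_eq_mul, Nat.cast_sub hN, Nat.cast_one,
        ← Finset.sum_erase_eq_sub (Finset.mem_univ j)]
    simp_rw [e1]
    rw [Finset.sum_sub_distrib, Finset.sum_sub_distrib, Finset.sum_sub_distrib, Finset.sum_const,
      Finset.sum_const, Finset.card_univ, Fintype.card_fin, ← Finset.mul_sum, nsmul_eq_mul,
      nsmul_eq_mul, ← hSν]
    ring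
  have h5 := mul_le_mul_of_nonneg_left hPPge hpos
  refine h5.trans ?_
  rw [← hSν] at hsum
  have e2 : N * ws * (N * Sν) = N ^ 2 * ws * Sν := by ring
  have e3 : (2 * q - A - I) * PPs = 2 * q * PPs - A * PPs - I * PPs := by ring
  rw [e3]
  rw [e2] at hsum
  linarith

end Pool.Agent.Lib.MP_4952d6_mp

end

/-! ### Combine -/

section

set_option autoImplicit false
set_option linter.unusedSectionVars false
set_option linter.unusedVariables false
open MeasureTheory Function Filter Topology Set ComplexConjugate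
open scoped ENNReal

namespace Pool.Agent.Lib.MP_4952d6_mp

namespace Scat

variable {W : ℝ → ℝ} {R₀ R a : ℝ} {f Q : ℝ → ℝ}

/-- Upper bound with numerical constants. -/
theorem upper_num (h : Scat W R₀ R a f Q) {b : ℝ} (hb : 2 * R ≤ b) (hb2 : b < 1/2) {N : ℕ}
    (hN : 2 ≤ N) (hab : a / b ≤ 1 / 10) (hS : N * (sig * (a * b ^ 2)) ≤ 1 / 32)
    (hNab : 1 ≤ N * (a / b))
    {𝒱 𝒱₂ : T3 → ℝ≥0∞} (h𝒱m : Measurable 𝒱) (h𝒱₂ : Measurable 𝒱₂)
    (hle : ∀ y, 𝒱 y ≤ ENNReal.ofReal (2 * W (rr y)) + 𝒱₂ y)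
    {ζ : ℝ} (hζ0 : 0 ≤ ζ) (hζ : ∫⁻ y, 𝒱₂ y ∂lam3 ≤ ENNReal.ofReal ζ) :
    ∃ ψ : (Fin N → T3) → ℂ, tAdm R₀ 𝒱 ψ ∧ tE 𝒱 ψ
      ≤ ENNReal.ofReal (N * (N - 1) * (sig * a * (1 + 7 * (a / b)) + ζ / 2 * (1 + 2 * (a / b)))) := by
  have ha := h.a_pos
  have hb0 := h.b_pos hb
  have hσ := sig_pos
  have hNr : (2 : ℝ) ≤ N := by exact_mod_cast hN
  set t : ℝ := a / b with ht
  have ht0 : 0 < t := by positivity
  have hk := h.jkap_pos hb
  -- kappa
  set κ : ℝ := (1 - 3 / 2 * t)⁻¹ with hκ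
  have hden : 0 < 1 - 3 / 2 * t := by linarith
  have hκ' : jkap R a b f ≤ κ := by
    have := h.jkap_le hb
    have e : 3 * a / (2 * b) = 3 / 2 * t := by rw [ht]; field_simp
    rw [e] at this; exact this
  have hκ0 : 0 < κ := hk.trans_le hκ'
  have hκ1 : κ ≤ 6 / 5 := by
    rw [hκ, inv_le_comm₀ hden (by norm_num)]
    linarith
  have hκ2 : κ ^ 2 ≤ 1 + 4 * t := by
    rw [hκ, inv_pow, inv_le_comm₀ (by positivity) (by positivity), inv_le_iff_one_le_mul₀ (by positivity)]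
    nlinarith only [ht0, mul_nonneg ht0.le (sub_nonneg.2 hab), mul_nonneg (sq_nonneg t) ht0.le]
  set S : ℝ := N * (sig * (a * b ^ 2)) with hSdef
  have hS0 : 0 < S := by positivity
  -- Omega
  set Ω : ℝ := 3 / 2 * κ * (sig * a * b ^ 2) with hΩ
  have hΩ1 : ∫ y : T3, (1 - fJ R a b f (rr y) ^ 2) ∂lam3 ≤ Ω := by
    refine (h.omega1 hb hb2).trans ?_
    rw [hΩ]
    exact mul_le_mul_of_nonneg_right (by linarith) (by positivity)
  have hNΩ : (N : ℝ) * Ω = 3 / 2 * κ * S := by rw [hΩ, hSdef]; ring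
  have hB : (N : ℝ) * Ω ≤ 1 / 16 := by
    rw [hNΩ]
    have : κ * S ≤ 6 / 5 * (1 / 32) := mul_le_mul hκ1 hS hS0.le (by norm_num)
    linarith
  have hΩ0 : 0 < Ω := by rw [hΩ]; positivity
  have hΩt : Ω ≤ t / 16 := by
    have h1 : (N : ℝ) * Ω ≤ N * (t / 16) := by
      have : 1 / 16 ≤ N * (t / 16) := by linarith
      linarith
    exact le_of_mul_le_mul_left h1 (by linarith)
  have hV : (N : ℝ) * (∫ y : T3, (1 - fJ R a b f (rr y) ^ 2) ^ 2 ∂lam3)
      / ((1 - 1 / 16) ^ 3 * (1 - 4 / 15)) ≤ t := by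
    rw [div_le_iff₀ (by norm_num)]
    have h1 := h.omega2 hb hb2
    have h2 : 9 * (jkap R a b f) ^ 2 * (sig * a ^ 2 * b) ≤ 9 * (36 / 25) * (sig * a ^ 2 * b) := by
      refine mul_le_mul_of_nonneg_right ?_ (by positivity)
      have : (jkap R a b f) ^ 2 ≤ (6 / 5) ^ 2 := pow_le_pow_left₀ hk.le (hκ'.trans hκ1) 2
      linarith
    have h3 : (N : ℝ) * (∫ y : T3, (1 - fJ R a b f (rr y) ^ 2) ^ 2 ∂lam3)
        ≤ N * (9 * (36 / 25) * (sig * a ^ 2 * b)) :=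
      mul_le_mul_of_nonneg_left (h1.trans h2) (by linarith)
    have e : (N : ℝ) * (9 * (36 / 25) * (sig * a ^ 2 * b)) = 9 * (36 / 25) * (S * t) := by
      rw [hSdef, ht]; field_simp
    rw [e] at h3
    have h4 : S * t ≤ 1 / 32 * t := mul_le_mul_of_nonneg_right hS ht0.le
    have : (1 - 1 / 16 : ℝ) ^ 3 * (1 - 4 / 15) = 12375 / 20480 := by norm_num
    rw [this]
    linarith only [h3, h4, ht0]
  have hΩV : Ω * (1 + t) < 1 := by
    have h1 : Ω * (1 + t) ≤ t / 16 * (11 / 10) :=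
      mul_le_mul hΩt (by linarith only [hab]) (by linarith only [ht0]) (by linarith only [ht0])
    linarith only [h1, hab]
  obtain ⟨ψ, hψ, hE⟩ := h.upper hb hb2 hN h𝒱m h𝒱₂ hle hζ0 hζ (B := 1 / 16) (θ := 4 / 15) (V := t)
    (Ω := Ω) (κ := κ) hκ' hΩ1 hB (by norm_num) (by norm_num) (by norm_num) hV hΩV
  refine ⟨ψ, hψ, hE.trans (ENNReal.ofReal_le_ofReal ?_)⟩
  have hΛ : (1 + t) / (1 - Ω * (1 + t)) ≤ 1 + 2 * t := by
    rw [div_le_iff₀ (by linarith)]
    have h1 : Ω * (1 + t) ≤ t / 16 * (11 / 10) :=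
      mul_le_mul hΩt (by linarith) (by linarith) (by linarith)
    have h2 : (1 + 2 * t) * (Ω * (1 + t)) ≤ (12 / 10) * (t / 16 * (11 / 10)) :=
      mul_le_mul (by linarith) h1 (by positivity) (by norm_num)
    have e : (1 + 2 * t) * (1 - Ω * (1 + t)) = (1 + 2 * t) - (1 + 2 * t) * (Ω * (1 + t)) := by ring
    rw [e]; linarith
  have hNN : (0:ℝ) ≤ N * (N - 1) := mul_nonneg (by linarith) (by linarith)
  have h2 : (κ ^ 2 * (sig * a) + ζ / 2) * ((1 + t) / (1 - Ω * (1 + t)))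
      ≤ sig * a * (1 + 7 * t) + ζ / 2 * (1 + 2 * t) := by
    calc (κ ^ 2 * (sig * a) + ζ / 2) * ((1 + t) / (1 - Ω * (1 + t)))
        ≤ (κ ^ 2 * (sig * a) + ζ / 2) * (1 + 2 * t) :=
          mul_le_mul_of_nonneg_left hΛ (by positivity)
      _ = κ ^ 2 * (1 + 2 * t) * (sig * a) + ζ / 2 * (1 + 2 * t) := by ring
      _ ≤ (1 + 7 * t) * (sig * a) + ζ / 2 * (1 + 2 * t) := by
          refine add_le_add (mul_le_mul_of_nonneg_right ?_ (by positivity)) le_rfl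
          have h5 : κ ^ 2 * (1 + 2 * t) ≤ (1 + 4 * t) * (1 + 2 * t) :=
            mul_le_mul_of_nonneg_right hκ2 (by linarith)
          refine h5.trans ?_
          nlinarith only [ht0, mul_nonneg ht0.le (sub_nonneg.2 hab)]
      _ = _ := by ring
  calc (N:ℝ) * (N - 1) * (κ ^ 2 * (sig * a) + ζ / 2) * ((1 + t) / (1 - Ω * (1 + t)))
      = N * (N - 1) * ((κ ^ 2 * (sig * a) + ζ / 2) * ((1 + t) / (1 - Ω * (1 + t)))) := by ring
    _ ≤ _ := mul_le_mul_of_nonneg_left h2 hNN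

/-- Lower bound with numerical constants. -/
theorem lower_num (h : Scat W R₀ R a f Q) {w : ℝ → ℝ} {r₁ : ℝ} (ht : Tail w f R r₁)
    {d : ℝ} (hd : 10 * R ≤ d) (hd2 : d < 1/2) (hμ : Qo w f r₁ * d ^ 2 ≤ a * R ^ 2 / 100)
    {N : ℕ} (hN : 1 ≤ N) {𝒱 : T3 → ℝ≥0∞}
    (hlow : ∀ y, ENNReal.ofReal (2 * (W (rr y) + w (rr y))) ≤ 𝒱 y)
    {ψ : (Fin N → T3) → ℂ} (hψ : tAdm R₀ 𝒱 ψ) :
    sig * (a + Qo w f r₁ + 51 / 50 * (a ^ 2 / d))
        * (N * (N - 1) - 2 * (N - 1) * ∑ i, nuQ (fc ψ) i)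
      ≤ (tE 𝒱 ψ).toReal + 4 / d ^ 2 * ∑ i, nuQ (fc ψ) i
        + N ^ 2 * (7 / 2 * sig ^ 2 * a ^ 2 * d ^ 2) * ∑ i, nuQ (fc ψ) i := by
  obtain ⟨hψ1, hψ2, hψ3, hψ4⟩ := hψ
  have ha := h.a_pos
  have hR := h.R_pos
  have haR := h.a_le
  have hσ := sig_pos
  have hRd : R ≤ d := by linarith
  have hd0 : 0 < d := by linarith
  set μ : ℝ := Qo w f r₁ with hμdef
  have hμ0 : 0 ≤ μ := ht.Qo_nonneg r₁
  -- the shell width
  obtain ⟨δ, hδ, hδ2, hδ3⟩ : ∃ δ : ℝ, 0 < δ ∧ (0 < R₀ → δ ≤ R₀ / 2) ∧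
      (if R₀ = 0 then 0 else 4 * δ * a ^ 2 / R₀ ^ 2) ≤ 1 / 100 * (a ^ 2 / d) := by
    rcases h.R₀_nonneg.eq_or_lt with h0 | h0
    · refine ⟨1, one_pos, fun hh => absurd hh (by rw [← h0]; exact lt_irrefl _), ?_⟩
      rw [if_pos h0.symm]; positivity
    · refine ⟨min (R₀ / 2) (R₀ ^ 2 / (400 * d)), by positivity, fun _ => min_le_left _ _, ?_⟩
      rw [if_neg h0.ne']
      have h1 : min (R₀ / 2) (R₀ ^ 2 / (400 * d)) ≤ R₀ ^ 2 / (400 * d) := min_le_right _ _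
      calc 4 * min (R₀ / 2) (R₀ ^ 2 / (400 * d)) * a ^ 2 / R₀ ^ 2
          ≤ 4 * (R₀ ^ 2 / (400 * d)) * a ^ 2 / R₀ ^ 2 := by gcongr
        _ = 1 / 100 * (a ^ 2 / d) := by field_simp; norm_num
  have hm : (0:ℝ) < 4 / d ^ 2 := by positivity
  have hDt := h.dens_t ht hδ hδ2 hRd hd2
  have hprof := hDt.fprof
  have hae := h.ae_charge ht hδ hδ2 hRd hd2
  set X₁ : ℝ := ∫ r in (0:ℝ)..d, (flux (fun t => e1 W R₀ δ f Q t - sm a d t) r) ^ 2 / r ^ 2 with hX₁
  set I₀ : ℝ := ∫ r in R₀..d, r ^ 2 * W r * f r ^ 2 with hI₀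
  have hF := h.field1 hδ hδ2 hRd hd2
  rw [← hX₁, ← hI₀] at hF
  have hX₁0 : 0 ≤ X₁ := by
    rw [hX₁]
    exact intervalIntegral.integral_nonneg hd0.le fun r _ => by positivity
  have hI₀0 : 0 ≤ I₀ := by
    rw [hI₀]
    exact intervalIntegral.integral_nonneg (h.R₀_le.trans hRd) fun r _ => by
      have := h.W_nonneg r
      positivity
  set A : ℝ := sig * (X₁ + 4 / R ^ 2 * (2 * a + μ) * (R / 2 * μ))
    + sig * (3 * a ^ 2 / d ^ 3 + (6 * a / d ^ 3 + 8 * μ / R ^ 3) * μ) / (4 / d ^ 2) with hA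
  set ws : ℝ := 3 * (sig * (a * d + R / 2 * μ)) ^ 2 + (sig * (a + μ)) ^ 2 / (4 / d ^ 2) with hws
  have hWb : BM (fun y : T3 => W (rr y) + w (rr y)) := by
    obtain ⟨M, hM0, hM⟩ := h.exists_M
    obtain ⟨M', hM0', hM'⟩ := ht.w_bdd
    exact (BM.of_mem_Icc (h.W_meas.comp rr_measurable) fun x => ⟨h.W_nonneg _, hM _⟩).add
      (BM.of_mem_Icc (ht.w_meas.comp rr_measurable) fun x => ⟨ht.w_nonneg _, hM' _⟩)
  have hfb : BM (fun y : T3 => f (rr y)) :=
    BM.of_mem_Icc (h.f_cont.measurable.comp rr_measurable) fun x => ⟨h.f_nonneg _, h.f_le_one _⟩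
  have hcor : ∀ i j : Fin N, i ≠ j → ∀ᵐ x ∂(piN (Fin N)),
      ((hcore R₀ δ (Q R₀) (rr (x i - x j)) : ℝ) : ℂ) * ψ x = 0 := by
    intro i j hij
    refine Eventually.of_forall fun x => ?_
    rcases lt_or_ge (rr (x i - x j)) R₀ with hx | hx
    · rw [hψ3 x i j hij hx, mul_zero]
    · rw [h.hcore_zero ht hδ hδ2 hRd hd2 hx]; simp
  have hq : fc3 (fun y => (((W (rr y) + w (rr y)) * f (rr y) + hcore R₀ δ (Q R₀) (rr y) : ℝ) : ℂ)) 0
      = ((sig * (a + μ) : ℝ) : ℂ) := by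
    unfold fc3
    simp only [ch_zero, map_one, one_mul]
    rw [integral_complex_ofReal, h.total_charge ht hδ hδ2 hRd hd2]
  have hAsum := field_sum hprof (h.bt_bm ht hδ hδ2 hRd hd2) hae hm (A := A) (by
    rw [hA]
    exact add_le_add (h.field_energy ht hδ hδ2 hRd hd2)
      (div_le_div_of_nonneg_right (h.bt_L2 ht hδ hδ2 hRd hd2) hm.le))
  have hwpt := fun p => field_pt hprof (h.bt_bm ht hδ hδ2 hRd hd2) hae hm
    (h.field_L1 ht hδ hδ2 hRd hd2) (h.bt_L1 ht hδ hδ2 hRd hd2) p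
  have hIle := h.pot_f ht hδ hδ2 hRd hd2
  rw [← hI₀] at hIle
  -- numerical estimates
  have hR10 : R ≤ d / 10 := by linarith
  have hμ1 : μ ≤ a * R ^ 2 / (100 * d ^ 2) := by
    rw [le_div_iff₀ (by positivity)]; linarith
  have hRd2 : R ^ 2 ≤ d ^ 2 / 100 := by
    have := pow_le_pow_left₀ hR.le hR10 2
    calc R ^ 2 ≤ (d / 10) ^ 2 := this
      _ = _ := by ring
  have hμa : μ ≤ a / 10000 := by
    refine hμ1.trans ?_
    rw [div_le_div_iff₀ (by positivity) (by norm_num)]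
    linarith only [mul_le_mul_of_nonneg_left hRd2 ha.le]
  have hAI : A + sig * (I₀ + μ) ≤ sig * (a + μ - 51 / 50 * (a ^ 2 / d)) := by
    have e1' : sig * (3 * a ^ 2 / d ^ 3 + (6 * a / d ^ 3 + 8 * μ / R ^ 3) * μ) / (4 / d ^ 2)
        = sig * (3 / 4 * (a ^ 2 / d) + 3 / 2 * (a * μ / d) + 2 * (μ ^ 2 * d ^ 2 / R ^ 3)) := by
      field_simp
      ring
    have e2' : 4 / R ^ 2 * (2 * a + μ) * (R / 2 * μ) = 4 * (a * μ / R) + 2 * (μ ^ 2 / R) := by
      field_simp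
      ring
    -- error bounds
    have b1 : a * μ / R ≤ 1 / 1000 * (a ^ 2 / d) := by
      rw [div_le_iff₀ hR]
      calc a * μ ≤ a * (a * R ^ 2 / (100 * d ^ 2)) := mul_le_mul_of_nonneg_left hμ1 ha.le
        _ = a ^ 2 * R / (100 * d ^ 2) * R := by ring
        _ ≤ a ^ 2 * (d / 10) / (100 * d ^ 2) * R := by gcongr
        _ = 1 / 1000 * (a ^ 2 / d) * R := by field_simp; norm_num
    have b2 : μ ^ 2 / R ≤ 1 / 10000 * (a ^ 2 / d) := by
      have : μ ^ 2 / R ≤ (a / 10000) * μ / R := by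
        rw [sq]; gcongr
      refine this.trans ?_
      have e : (a / 10000) * μ / R = 1 / 10000 * (a * μ / R) := by ring
      rw [e]
      have : 0 ≤ a ^ 2 / d := by positivity
      linarith
    have b3 : a * μ / d ≤ 1 / 10000 * (a ^ 2 / d) := by
      calc a * μ / d ≤ a * (a / 10000) / d := by gcongr
        _ = _ := by ring
    have b4 : μ ^ 2 * d ^ 2 / R ^ 3 ≤ 1 / 10000 * (a ^ 2 / d) := by
      have h1 : μ ^ 2 ≤ (a * R ^ 2 / (100 * d ^ 2)) ^ 2 := pow_le_pow_left₀ hμ0 hμ1 2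
      calc μ ^ 2 * d ^ 2 / R ^ 3 ≤ (a * R ^ 2 / (100 * d ^ 2)) ^ 2 * d ^ 2 / R ^ 3 := by gcongr
        _ = a ^ 2 * R / (10000 * d ^ 2) := by field_simp; norm_num
        _ ≤ a ^ 2 * d / (10000 * d ^ 2) := by gcongr
        _ = _ := by field_simp
    have b5 : a ^ 2 * R ^ 2 / d ^ 3 ≤ 1 / 100 * (a ^ 2 / d) := by
      calc a ^ 2 * R ^ 2 / d ^ 3 ≤ a ^ 2 * (d ^ 2 / 100) / d ^ 3 := by gcongr
        _ = _ := by field_simp
    have e3 : 2 * a ^ 2 / d = 2 * (a ^ 2 / d) := by ring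
    have e4 : a ^ 2 / (5 * d) = 1 / 5 * (a ^ 2 / d) := by field_simp
    have hx : 0 ≤ a ^ 2 / d := by positivity
    rw [hA, e1', e2']
    rw [e3, e4] at hF
    have : sig * (X₁ + (4 * (a * μ / R) + 2 * (μ ^ 2 / R)))
        + sig * (3 / 4 * (a ^ 2 / d) + 3 / 2 * (a * μ / d) + 2 * (μ ^ 2 * d ^ 2 / R ^ 3))
        + sig * (I₀ + μ)
        = sig * (X₁ + I₀ + μ + 4 * (a * μ / R) + 2 * (μ ^ 2 / R)
          + 3 / 4 * (a ^ 2 / d) + 3 / 2 * (a * μ / d) + 2 * (μ ^ 2 * d ^ 2 / R ^ 3)) := by ring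
    rw [this]
    refine mul_le_mul_of_nonneg_left ?_ hσ.le
    linarith
  have hws1 : ws ≤ 7 / 2 * sig ^ 2 * a ^ 2 * d ^ 2 := by
    have h1 : a * d + R / 2 * μ ≤ a * d * (1001 / 1000) := by
      have : R / 2 * μ ≤ d * (a / 10000) := by
        refine mul_le_mul (by linarith) hμa hμ0 hd0.le
      linarith only [this, mul_pos ha hd0]
    have h2 : a + μ ≤ a * (1001 / 1000) := by linarith
    have h3 : (sig * (a * d + R / 2 * μ)) ^ 2 ≤ (sig * (a * d * (1001 / 1000))) ^ 2 :=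
      pow_le_pow_left₀ (by positivity) (mul_le_mul_of_nonneg_left h1 hσ.le) 2
    have h4 : (sig * (a + μ)) ^ 2 / (4 / d ^ 2) ≤ (sig * (a * (1001 / 1000))) ^ 2 / (4 / d ^ 2) := by
      refine div_le_div_of_nonneg_right ?_ hm.le
      exact pow_le_pow_left₀ (by positivity) (mul_le_mul_of_nonneg_left h2 hσ.le) 2
    have e : 3 * (sig * (a * d * (1001 / 1000))) ^ 2 + (sig * (a * (1001 / 1000))) ^ 2 / (4 / d ^ 2)
        = (13 / 4 * (1001 / 1000) ^ 2) * (sig ^ 2 * a ^ 2 * d ^ 2) := by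
      field_simp
      ring
    have h5 : ws ≤ (13 / 4 * (1001 / 1000) ^ 2) * (sig ^ 2 * a ^ 2 * d ^ 2) := by
      rw [← e, hws]; linarith
    refine h5.trans ?_
    have : 0 ≤ sig ^ 2 * a ^ 2 * d ^ 2 := by positivity
    linarith only [this]
  have hA0 : 0 ≤ A := by rw [hA]; positivity
  have hws0 : 0 ≤ ws := by rw [hws]; positivity
  have hG : sig * (a + μ + 51 / 50 * (a ^ 2 / d)) ≤ 2 * (sig * (a + μ)) - A - sig * (I₀ + μ) := by
    have : sig * (a + μ + 51 / 50 * (a ^ 2 / d)) + sig * (a + μ - 51 / 50 * (a ^ 2 / d))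
      = 2 * (sig * (a + μ)) := by ring
    linarith
  have hG0 : 0 ≤ sig * (a + μ + 51 / 50 * (a ^ 2 / d)) := by positivity
  have hSν : 0 ≤ ∑ i, nuQ (fc ψ) i := Finset.sum_nonneg fun i _ => nuQ_nonneg _ _
  have hNr : (1:ℝ) ≤ N := by exact_mod_cast hN
  -- main inequality
  have main := lower_abs hN (𝒱 := 𝒱) (W := fun y => W (rr y) + w (rr y)) (f := fun y => f (rr y))
    (hc := fun y => Pool.Agent.Lib.MP_4952d6_mp.hcore R₀ δ (Q R₀) (rr y)) hWb
    (fun y => add_nonneg (h.W_nonneg _) (ht.w_nonneg _)) (fun y => by simp only [rr_neg]) hlow hfb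
    (h.hcore_bm ht hδ hδ2 hRd hd2) hψ1 hψ4 hcor hq hm hA0 hws0 hAsum (fun p _ => hwpt p) hIle
    (hG0.trans hG)
  rw [hψ2, mul_one] at main
  rcases le_or_gt 0 (N * (N - 1) - 2 * (N - 1) * ∑ i, nuQ (fc ψ) i) with hp | hp
  · refine (mul_le_mul_of_nonneg_right hG hp).trans (main.trans ?_)
    refine add_le_add le_rfl ?_
    refine mul_le_mul_of_nonneg_right (mul_le_mul_of_nonneg_left hws1 (by positivity)) hSν
  · refine (mul_nonpos_of_nonneg_of_nonpos hG0 hp.le).trans ?_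
    have := ENNReal.toReal_nonneg (a := tE 𝒱 ψ)
    positivity

/-- **Main torus estimate.** -/
theorem torus_main (h : Scat W R₀ R a f Q) {w : ℝ → ℝ} {r₁ : ℝ} (ht : Tail w f R r₁)
    {d : ℝ} (hd : 10 * R ≤ d) (hd2 : 20 * d < 1/2) (hμ : Qo w f r₁ * d ^ 2 ≤ a * R ^ 2 / 100)
    {N : ℕ} (hN : 2 ≤ N) (hS : N * (sig * (a * d ^ 2)) ≤ 1 / 12800)
    (hNad : 1 ≤ N * (a / (20 * d)))
    {𝒱 𝒱₂ : T3 → ℝ≥0∞} (h𝒱m : Measurable 𝒱) (h𝒱₂ : Measurable 𝒱₂)
    (hlow : ∀ y, ENNReal.ofReal (2 * (W (rr y) + w (rr y))) ≤ 𝒱 y)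
    (hle : ∀ y, 𝒱 y ≤ ENNReal.ofReal (2 * W (rr y)) + 𝒱₂ y)
    (hζ : ∫⁻ y, 𝒱₂ y ∂lam3 ≤ ENNReal.ofReal (2 * sig * (Qo w f r₁ + 1 / 10 * (a ^ 2 / d))))
    {ψ : (Fin N → T3) → ℂ} (hψ : tAdm R₀ 𝒱 ψ) {s : ℝ} (hs0 : 0 ≤ s) (hs : s ≤ a / (10 * d))
    (hmin : ∀ φ : (Fin N → T3) → ℂ, tAdm R₀ 𝒱 φ → tE 𝒱 ψ ≤ ENNReal.ofReal (1 + s) * tE 𝒱 φ) :
    N * sig * a ^ 2 * d / 20 ≤ (∑ i, nuQ (fc ψ) i) / N := by
  have ha := h.a_pos
  have hR := h.R_pos
  have haR := h.a_le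
  have hσ := sig_pos
  have hd0 : 0 < d := by linarith
  have hNr : (2:ℝ) ≤ N := by exact_mod_cast hN
  set μ : ℝ := Qo w f r₁ with hμdef
  have hμ0 : 0 ≤ μ := ht.Qo_nonneg r₁
  set x : ℝ := a / d with hx
  have hx0 : 0 < x := by positivity
  have hx1 : x ≤ 1 / 10 := by
    rw [hx, div_le_iff₀ hd0]; linarith
  have hax : a ^ 2 / d = a * x := by rw [hx]; ring
  have hlowb := h.lower_num ht hd (by linarith) hμ (by omega) hlow hψ
  have hab : a / (20 * d) = x / 20 := by rw [hx]; field_simp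
  obtain ⟨φ, hφ, hEφ⟩ := h.upper_num (b := 20 * d) (by linarith) hd2 hN
    (by rw [hab]; linarith) (by
      have e : (N : ℝ) * (sig * (a * (20 * d) ^ 2)) = 400 * (N * (sig * (a * d ^ 2))) := by ring
      rw [e]; linarith) hNad h𝒱m h𝒱₂ hle (ζ := 2 * sig * (μ + 1 / 10 * (a ^ 2 / d))) (by positivity) hζ
  have hEψ := hmin φ hφ
  set U : ℝ := N * (N - 1) * (sig * a * (1 + 7 * (a / (20 * d)))
    + 2 * sig * (μ + 1 / 10 * (a ^ 2 / d)) / 2 * (1 + 2 * (a / (20 * d)))) with hU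
  have hN1 : (0:ℝ) ≤ (N:ℝ) - 1 := by linarith
  have hU0 : 0 ≤ U := by rw [hU]; positivity
  have hEr : (tE 𝒱 ψ).toReal ≤ (1 + s) * U := by
    refine ENNReal.toReal_le_of_le_ofReal (by positivity) ?_
    rw [ENNReal.ofReal_mul (by linarith)]
    exact hEψ.trans (mul_le_mul_right hEφ _)
  set Sν : ℝ := ∑ i, nuQ (fc ψ) i with hSν
  have hSν0 : 0 ≤ Sν := Finset.sum_nonneg fun i _ => nuQ_nonneg _ _
  have hμa : μ ≤ a / 10000 := by
    have hR10 : R ≤ d / 10 := by linarith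
    have h1 : μ * d ^ 2 ≤ a / 10000 * d ^ 2 := by
      refine hμ.trans ?_
      have := pow_le_pow_left₀ hR.le hR10 2
      have h2 := mul_le_mul_of_nonneg_left this ha.le
      have e : a * (d / 10) ^ 2 = a / 100 * d ^ 2 := by ring
      rw [e] at h2
      linarith
    exact le_of_mul_le_mul_right h1 (by positivity)
  set D2 : ℝ := N * (sig * (a * d ^ 2)) with hD2
  have hD20 : 0 < D2 := by rw [hD2]; positivity
  set ν : ℝ := Sν / N with hν
  have hν0 : 0 ≤ ν := by positivity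
  have hSνν : Sν = N * ν := by rw [hν]; field_simp
  -- divide the main inequality by N (N-1) sig a
  have hmain : (N:ℝ) * (N - 1) * (sig * a) * ((1 + μ / a + 51 / 50 * x) * (1 - 2 * ν))
      ≤ (1 + s) * (N * (N - 1) * (sig * a)
          * (1 + 7 / 20 * x + (μ / a + 1 / 10 * x) * (1 + 1 / 10 * x)))
        + N ^ 2 * (sig * a) * (ν * (4 / D2 + 7 / 2 * D2)) := by
    have e1' : (N:ℝ) * (N - 1) * (sig * a) * ((1 + μ / a + 51 / 50 * x) * (1 - 2 * ν))
        = sig * (a + μ + 51 / 50 * (a ^ 2 / d)) * (N * (N - 1) - 2 * (N - 1) * Sν) := by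
      rw [hax, hSνν]; field_simp
    have e2' : (N:ℝ) * (N - 1) * (sig * a)
          * (1 + 7 / 20 * x + (μ / a + 1 / 10 * x) * (1 + 1 / 10 * x)) = U := by
      rw [hU, hab, hax]; field_simp
      ring
    have e3' : (N:ℝ) ^ 2 * (sig * a) * (ν * (4 / D2 + 7 / 2 * D2))
        = 4 / d ^ 2 * Sν + N ^ 2 * (7 / 2 * sig ^ 2 * a ^ 2 * d ^ 2) * Sν := by
      rw [hD2, hSνν]; field_simp
    rw [e1', e2', e3']
    linarith
  have hNN : (N:ℝ) ^ 2 ≤ 2 * (N * (N - 1)) := by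
    nlinarith only [hNr, mul_nonneg (sub_nonneg.2 hNr) (sub_nonneg.2 hNr)]
  have hkey : (1 + μ / a + 51 / 50 * x) * (1 - 2 * ν)
      ≤ (1 + s) * (1 + 7 / 20 * x + (μ / a + 1 / 10 * x) * (1 + 1 / 10 * x))
        + 2 * (ν * (4 / D2 + 7 / 2 * D2)) := by
    have hc : 0 < (N:ℝ) * (N - 1) * (sig * a) := by
      have : (0:ℝ) < (N:ℝ) - 1 := by linarith
      positivity
    refine le_of_mul_le_mul_left (hmain.trans ?_) hc
    have : (N:ℝ) ^ 2 * (sig * a) * (ν * (4 / D2 + 7 / 2 * D2))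
        ≤ 2 * (N * (N - 1)) * (sig * a) * (ν * (4 / D2 + 7 / 2 * D2)) := by gcongr
    linarith
  -- final numerics
  have hsx : s ≤ x / 10 := by
    refine hs.trans (le_of_eq ?_)
    rw [hx]; field_simp
  have hμa' : μ / a ≤ 1 / 10000 := by rw [div_le_iff₀ ha]; linarith
  have hμa0 : 0 ≤ μ / a := by positivity
  set y : ℝ := μ / a with hy
  have h1 : (1 + s) * (1 + 7 / 20 * x + (y + 1 / 10 * x) * (1 + 1 / 10 * x))
      ≤ 1 + y + 3 / 5 * x := by
    have h2 : 1 + 7 / 20 * x + (y + 1 / 10 * x) * (1 + 1 / 10 * x) ≤ 1 + y + 47 / 100 * x := by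
      linarith only [hx0, mul_nonneg hμa0 hx0.le, mul_le_mul_of_nonneg_right hμa' hx0.le,
        mul_le_mul_of_nonneg_right hx1 hx0.le]
    have h3 : (1 + s) * (1 + 7 / 20 * x + (y + 1 / 10 * x) * (1 + 1 / 10 * x))
        ≤ (1 + x / 10) * (1 + y + 47 / 100 * x) :=
      mul_le_mul (by linarith) h2 (by positivity) (by positivity)
    refine h3.trans ?_
    linarith only [hx0, mul_nonneg hμa0 hx0.le, mul_le_mul_of_nonneg_right hμa' hx0.le,
        mul_le_mul_of_nonneg_right hx1 hx0.le]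
  have h4 : 21 / 50 * x ≤ ν * (9 / 4 + 8 / D2 + 7 * D2) := by
    have h5 : 2 * ν * (1 + y + 51 / 50 * x) ≤ 9 / 4 * ν := by
      have h6 : 1 + y + 51 / 50 * x ≤ 9 / 8 := by linarith only [hμa', hx1]
      calc 2 * ν * (1 + y + 51 / 50 * x) ≤ 2 * ν * (9 / 8) :=
            mul_le_mul_of_nonneg_left h6 (by linarith only [hν0])
        _ = 9 / 4 * ν := by ring
    have h6 : 2 * (ν * (4 / D2 + 7 / 2 * D2)) = ν * (8 / D2 + 7 * D2) := by ring
    have h7 : (1 + y + 51 / 50 * x) * (1 - 2 * ν)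
        = 1 + y + 51 / 50 * x - 2 * ν * (1 + y + 51 / 50 * x) := by ring
    rw [h6, h7] at hkey
    have h8 : ν * (9 / 4 + 8 / D2 + 7 * D2) = 9 / 4 * ν + ν * (8 / D2 + 7 * D2) := by ring
    rw [h8]
    linarith
  have h9 : (9 / 4 + 8 / D2 + 7 * D2) * D2 ≤ 81 / 10 := by
    have : (9 / 4 + 8 / D2 + 7 * D2) * D2 = 9 / 4 * D2 + 8 + 7 * D2 ^ 2 := by field_simp
    rw [this]
    nlinarith only [hD20, hS, mul_nonneg hD20.le (sub_nonneg.2 hS)]
  have h10 : 21 / 50 * x * D2 ≤ ν * (81 / 10) := by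
    calc 21 / 50 * x * D2 ≤ ν * (9 / 4 + 8 / D2 + 7 * D2) * D2 :=
          mul_le_mul_of_nonneg_right h4 hD20.le
      _ = ν * ((9 / 4 + 8 / D2 + 7 * D2) * D2) := by ring
      _ ≤ _ := mul_le_mul_of_nonneg_left h9 hν0
  have e : (N:ℝ) * sig * a ^ 2 * d = x * D2 := by rw [hx, hD2]; field_simp
  rw [e]
  have : 0 < x * D2 := by positivity
  linarith

end Scat

end Pool.Agent.Lib.MP_4952d6_mp

end

/-! ### Phys -/

section

set_option autoImplicit false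
set_option linter.unusedSectionVars false
set_option linter.unusedVariables false
open MeasureTheory Function Filter Topology Set ComplexConjugate AddCircle
open scoped ENNReal

namespace Pool.Agent.Lib.MP_4952d6_mp

namespace Scat
variable {W : ℝ → ℝ} {R₀ R a : ℝ} {f Q : ℝ → ℝ}

/-- The main torus estimate, for almost everywhere measurable potentials. -/
theorem torus_main_ae (h : Scat W R₀ R a f Q) {w : ℝ → ℝ} {r₁ : ℝ} (ht : Tail w f R r₁)
    {d : ℝ} (hd : 10 * R ≤ d) (hd2 : 20 * d < 1/2) (hμ : Qo w f r₁ * d ^ 2 ≤ a * R ^ 2 / 100)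
    {N : ℕ} (hN : 2 ≤ N) (hS : N * (sig * (a * d ^ 2)) ≤ 1 / 12800)
    (hNad : 1 ≤ N * (a / (20 * d)))
    {𝒱₀ : T3 → ℝ≥0∞} (h𝒱m : AEMeasurable 𝒱₀ lam3)
    (hlow : ∀ᵐ y ∂lam3, ENNReal.ofReal (2 * (W (rr y) + w (rr y))) ≤ 𝒱₀ y)
    (hζ : ∫⁻ y, 𝒱₀ y ∂lam3 ≤ ∫⁻ y, ENNReal.ofReal (2 * W (rr y)) ∂lam3
      + ENNReal.ofReal (2 * sig * (Qo w f r₁ + 1 / 10 * (a ^ 2 / d))))
    {ψ : (Fin N → T3) → ℂ} (hψ : tAdm R₀ 𝒱₀ ψ) {s : ℝ} (hs0 : 0 ≤ s) (hs : s ≤ a / (10 * d))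
    (hmin : ∀ φ : (Fin N → T3) → ℂ, tAdm R₀ 𝒱₀ φ → tE 𝒱₀ ψ ≤ ENNReal.ofReal (1 + s) * tE 𝒱₀ φ) :
    N * sig * a ^ 2 * d / 20 ≤ (∑ i, nuQ (fc ψ) i) / N := by
  have hWm : Measurable fun y => W (rr y) := h.W_meas.comp rr_measurable
  have hwm : Measurable fun y => w (rr y) := ht.w_meas.comp rr_measurable
  set g : T3 → ℝ≥0∞ := fun y => ENNReal.ofReal (2 * (W (rr y) + w (rr y))) with hg
  have hgm : Measurable g := ((hWm.add hwm).const_mul 2).ennreal_ofReal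
  set g0 : T3 → ℝ≥0∞ := fun y => ENNReal.ofReal (2 * W (rr y)) with hg0
  have hg0m : Measurable g0 := (hWm.const_mul 2).ennreal_ofReal
  set 𝒱 : T3 → ℝ≥0∞ := fun y => max (h𝒱m.mk 𝒱₀ y) (g y) with h𝒱
  have h𝒱M : Measurable 𝒱 := h𝒱m.measurable_mk.max hgm
  have hae : 𝒱₀ =ᵐ[lam3] 𝒱 := by
    filter_upwards [h𝒱m.ae_eq_mk, hlow] with y hy hy2
    rw [h𝒱]
    dsimp only
    rw [← hy, max_eq_left hy2]
  have hlow' : ∀ y, g y ≤ 𝒱 y := fun y => le_max_right _ _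
  have hg0g : ∀ y, g0 y ≤ g y := fun y => ENNReal.ofReal_le_ofReal (by
    have := ht.w_nonneg (rr y)
    linarith)
  set 𝒱₂ : T3 → ℝ≥0∞ := fun y => 𝒱 y - g0 y with h𝒱₂
  have h𝒱₂M : Measurable 𝒱₂ := h𝒱M.sub hg0m
  obtain ⟨M, hM0, hM⟩ := h.exists_M
  have hfin : ∫⁻ y, g0 y ∂lam3 ≠ ⊤ := by
    have h1 : ∫⁻ y, g0 y ∂lam3 ≤ ∫⁻ y, ENNReal.ofReal (2 * M) ∂lam3 :=
      lintegral_mono fun y => ENNReal.ofReal_le_ofReal (by have := hM (rr y); linarith)
    rw [lintegral_const, measure_univ, mul_one] at h1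
    exact (h1.trans_lt ENNReal.ofReal_lt_top).ne
  have hζ' : ∫⁻ y, 𝒱₂ y ∂lam3
      ≤ ENNReal.ofReal (2 * sig * (Qo w f r₁ + 1 / 10 * (a ^ 2 / d))) := by
    rw [h𝒱₂, lintegral_sub hg0m hfin (Eventually.of_forall fun y => (hg0g y).trans (hlow' y)),
      tsub_le_iff_left, ← lintegral_congr_ae hae]
    exact hζ
  refine h.torus_main ht hd hd2 hμ hN hS hNad h𝒱M h𝒱₂M hlow' (fun y => le_add_tsub) hζ'
    ((tAdm_congr hae ψ).1 hψ) hs0 hs fun φ hφ => ?_
  rw [← tE_congr hae, ← tE_congr hae]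
  exact hmin φ ((tAdm_congr hae φ).2 hφ)

end Scat

/-- Physical tail: part of the potential at distances between `R` and `r₁`. -/
structure PTail (w : ℝ → ℝ) (R r₁ : ℝ) : Prop where
  R_le : R ≤ r₁
  w_meas : Measurable w
  w_nonneg : ∀ r, 0 ≤ w r
  w_bdd : ∃ M, 0 ≤ M ∧ ∀ r, w r ≤ M
  w_zero : ∀ r, r < R → w r = 0
  w_zero' : ∀ r, r₁ ≤ r → w r = 0

lemma Qo_scale {w f : ℝ → ℝ} {L : ℝ} (hL : 0 < L) (r : ℝ) :
    Qo (fun t => L ^ 2 * w (L * t)) (fun t => f (L * t)) (r / L) = Qo w f r / L := by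
  unfold Qo
  have h1 : ∀ t, t ^ 2 * (L ^ 2 * w (L * t)) * f (L * t)
      = (fun s => s ^ 2 * w s * f s) (L * t) := fun t => by ring
  simp_rw [h1]
  have h2 := intervalIntegral.integral_comp_mul_left (a := 0) (b := r / L)
    (fun s => s ^ 2 * w s * f s) hL.ne'
  rw [h2, mul_zero, smul_eq_mul, mul_div_cancel₀ _ hL.ne']
  ring

/-- **Main estimate in physical units.** -/
theorem phys_main {W : ℝ → ℝ} {R₀ R a : ℝ} {f Q : ℝ → ℝ} (h : Scat W R₀ R a f Q)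
    {w : ℝ → ℝ} {r₁ : ℝ} (ht : PTail w R r₁) {m : ℝ} (hm : 0 < m)
    {v : (Fin 3 → ℝ) → ℝ} (hv : Integrable v) (hv0 : ∀ x, 0 ≤ v x)
    {v₀ : ℝ → ℝ} (hrad : ∀ x, v x = v₀ (nr x)) (hle : ∀ᵐ r : ℝ, 0 < r → W r + w r ≤ m * v₀ r)
    {d L : ℝ} (hd : 10 * R ≤ d) (hdL : 40 * d < L) (hrL : r₁ < L / 2)
    (hμ : Qo w f r₁ * d ^ 2 ≤ a * R ^ 2 / 100) {N : ℕ} (hN : 2 ≤ N)
    (hS : N / L ^ 3 * (sig * (a * d ^ 2)) ≤ 1 / 12800) (hNad : 1 ≤ N * (a / (20 * d)))
    (hζ : m * (∫ r in Ioi (0:ℝ), r ^ 2 * v₀ r) ≤ (∫ r in Ioi (0:ℝ), r ^ 2 * W r)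
      + (Qo w f r₁ + a ^ 2 / (10 * d)))
    {ψ : (Fin N → Fin 3 → ℝ) → ℂ} (hψ : Admissible m R₀ v N L ψ) {s : ℝ} (hs0 : 0 ≤ s)
    (hs : s ≤ a / (10 * d))
    (hmin : ∀ φ : (Fin N → Fin 3 → ℝ) → ℂ, Admissible m R₀ v N L φ →
      energy m v N L ψ ≤ ENNReal.ofReal (1 + s) * energy m v N L φ) :
    N / L ^ 3 * sig * a ^ 2 * d / 20 ≤ 1 - condFraction N L ψ := by
  have hR := h.R_pos
  have ha := h.a_pos
  have hR₀ := h.R₀_nonneg
  have hσ := sig_pos
  have hd0 : 0 < d := by linarith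
  have hL : 0 < L := by linarith
  have hvm : AEMeasurable v volume := hv.aestronglyMeasurable.aemeasurable
  have hL' := h.scale hL
  have ht' : Tail (fun r => L ^ 2 * w (L * r)) (fun r => f (L * r)) (R / L) (r₁ / L) := by
    refine ⟨div_pos hR hL, div_le_div_of_nonneg_right ht.R_le hL.le, ?_, ?_, ?_, ?_, ?_, ?_, ?_,
      fun r => h.f_nonneg _, fun r => h.f_le_one _⟩
    · rw [div_lt_iff₀ hL]; linarith
    · exact (ht.w_meas.comp (measurable_const_mul L)).const_mul _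
    · exact fun r => mul_nonneg (sq_nonneg L) (ht.w_nonneg _)
    · obtain ⟨M, hM0, hM⟩ := ht.w_bdd
      exact ⟨L ^ 2 * M, by positivity, fun r => mul_le_mul_of_nonneg_left (hM _) (sq_nonneg L)⟩
    · intro r hr
      rw [ht.w_zero (L * r) (by rwa [lt_div_iff₀' hL] at hr), mul_zero]
    · intro r hr
      rw [ht.w_zero' (L * r) (by rwa [div_le_iff₀' hL] at hr), mul_zero]
    · exact (h.f_cont.measurable).comp (measurable_const_mul L)
  have hQo := Qo_scale (w := w) (f := f) hL r₁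
  have key := hL'.torus_main_ae ht' (d := d / L) (N := N) (𝒱₀ := Vp m L v) (ψ := TT N L ψ)
    (s := s) ?_ ?_ ?_ hN ?_ ?_ ?_ ?_ ?_ (adm_TT hm hL hR₀ hvm hψ) hs0 ?_ ?_
  · rw [condFraction_eq (by omega) hL hψ]
    refine (le_of_eq ?_).trans (key.trans (le_of_eq (by ring)))
    field_simp
  · rw [← mul_div_assoc]
    exact div_le_div_of_nonneg_right hd hL.le
  · rw [← mul_div_assoc, div_lt_iff₀ hL]; linarith
  · rw [hQo]
    have e1 : Qo w f r₁ / L * (d / L) ^ 2 = Qo w f r₁ * d ^ 2 / L ^ 3 := by field_simp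
    have e2 : a / L * (R / L) ^ 2 / 100 = a * R ^ 2 / 100 / L ^ 3 := by field_simp
    rw [e1, e2]
    exact div_le_div_of_nonneg_right hμ (by positivity)
  · refine (le_of_eq ?_).trans hS
    field_simp
  · refine hNad.trans (le_of_eq ?_)
    field_simp
  · exact (aem_vper hL hvm).const_mul _
  · -- pointwise lower bound
    have h1 := ae_nr hle
    have h2 : ∀ᵐ y ∂lam3, 0 < nr (L • fun α => crd y α) →
        W (nr (L • fun α => crd y α)) + w (nr (L • fun α => crd y α))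
          ≤ m * v₀ (nr (L • fun α => crd y α)) := by
      have h3 : Measure.QuasiMeasurePreserving (fun x : Fin 3 → ℝ => L • x) volume volume :=
        (mp_smul3 hL).quasiMeasurePreserving.mono_right Measure.smul_absolutelyContinuous
      have h4 : Measure.QuasiMeasurePreserving (fun (y : T3) (α : Fin 3) => crd y α) lam3 volume :=
        mp_crd.quasiMeasurePreserving.mono_right Measure.restrict_le_self.absolutelyContinuous
      exact (h3.comp h4).ae h1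
    filter_upwards [h2, ae_rr_ne (e := 0) (by norm_num)] with y hy hy0
    rw [nr_smul_crd hL.le] at hy
    have hrr : 0 < rr y := lt_of_le_of_ne (rr_nonneg y) (Ne.symm hy0)
    have hy2 := hy (by positivity)
    have h5 : ENNReal.ofReal (v (fun α => L * (crd y α + ((0 : Fin 3 → ℤ) α : ℝ)))) ≤ vper L v y :=
      ENNReal.le_tsum (f := fun n : Fin 3 → ℤ =>
        ENNReal.ofReal (v (fun α => L * (crd y α + (n α : ℝ))))) 0
    have h6 : (fun α => L * (crd y α + ((0 : Fin 3 → ℤ) α : ℝ))) = L • fun α => crd y α := by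
      funext α; simp
    rw [h6, hrad, nr_smul_crd hL.le] at h5
    unfold Vp
    refine le_trans ?_ (mul_le_mul_right h5 _)
    rw [← ENNReal.ofReal_mul (by positivity)]
    refine ENNReal.ofReal_le_ofReal ?_
    have h7 := mul_le_mul_of_nonneg_left hy2 (show (0:ℝ) ≤ 2 * L ^ 2 by positivity)
    calc 2 * (L ^ 2 * W (L * rr y) + L ^ 2 * w (L * rr y))
        = 2 * L ^ 2 * (W (L * rr y) + w (L * rr y)) := by ring
      _ ≤ 2 * L ^ 2 * (m * v₀ (L * rr y)) := h7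
      _ = _ := by ring
  · -- total charge
    unfold Vp
    rw [lintegral_const_mul' _ _ ENNReal.ofReal_ne_top, lintegral_vper hL hvm,
      ← ofReal_integral_eq_lintegral_ofReal hv (Eventually.of_forall hv0)]
    have e1 : ∫ x, v x = sig * ∫ r in Ioi (0:ℝ), r ^ 2 * v₀ r := by
      rw [← integral_nr]
      exact integral_congr_ae (Eventually.of_forall hrad)
    have hWi : Integrable (fun y => 2 * (L ^ 2 * W (L * rr y))) lam3 := by
      obtain ⟨M, hM0, hM⟩ := h.exists_M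
      refine Integrable.of_bound (C := 2 * (L ^ 2 * M)) ?_ (Eventually.of_forall fun y => ?_)
      · exact (((h.W_meas.comp ((measurable_const_mul L).comp rr_measurable)).const_mul
          _).const_mul _).aestronglyMeasurable
      · have h1 := h.W_nonneg (L * rr y)
        have h2 := hM (L * rr y)
        rw [Real.norm_of_nonneg (by positivity)]
        gcongr
    rw [← ofReal_integral_eq_lintegral_ofReal hWi (Eventually.of_forall fun y => by
      have := h.W_nonneg (L * rr y)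
      positivity)]
    have e2 : ∫ y, 2 * (L ^ 2 * W (L * rr y)) ∂lam3
        = 2 * sig / L * ∫ r in Ioi (0:ℝ), r ^ 2 * W r := by
      have h1 := integral_rad (φ := fun r => 2 * (L ^ 2 * W (L * r))) (fun r hr => by
        rw [h.W_zero (L * r) (by nlinarith)]; ring)
      rw [h1]
      have h3 := integral_comp_mul_left_Ioi (fun s => s ^ 2 * W s) 0 hL
      rw [mul_zero] at h3
      have h5 : ∫ r in Ioi (0:ℝ), r ^ 2 * (2 * (L ^ 2 * W (L * r)))
          = 2 * (L⁻¹ • ∫ r in Ioi (0:ℝ), r ^ 2 * W r) := by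
        rw [← h3, ← integral_const_mul]
        congr 1
        funext r
        ring
      rw [h5, smul_eq_mul]
      ring
    rw [e1, e2, hQo]
    have hWI0 : 0 ≤ ∫ r in Ioi (0:ℝ), r ^ 2 * W r :=
      setIntegral_nonneg measurableSet_Ioi fun r _ => mul_nonneg (sq_nonneg r) (h.W_nonneg r)
    have hQ0 : 0 ≤ Qo w f r₁ := by
      have := ht'.Qo_nonneg (r₁ / L)
      rw [hQo] at this
      by_contra hcon
      push Not at hcon
      have := div_neg_of_neg_of_pos hcon hL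
      linarith
    rw [← ENNReal.ofReal_mul (by positivity), ← ENNReal.ofReal_mul (by positivity),
      ← ENNReal.ofReal_add (by positivity) (by positivity)]
    refine ENNReal.ofReal_le_ofReal ?_
    have h8 := mul_le_mul_of_nonneg_left hζ (show (0:ℝ) ≤ 2 * sig / L by positivity)
    calc 2 * m * L ^ 2 * ((L ^ 3)⁻¹ * (sig * ∫ r in Ioi (0:ℝ), r ^ 2 * v₀ r))
        = 2 * sig / L * (m * ∫ r in Ioi (0:ℝ), r ^ 2 * v₀ r) := by field_simp
      _ ≤ 2 * sig / L * ((∫ r in Ioi (0:ℝ), r ^ 2 * W r) + (Qo w f r₁ + a ^ 2 / (10 * d))) := h8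
      _ = _ := by field_simp
  · refine hs.trans (le_of_eq ?_)
    field_simp
  · intro φ hφ
    have h1 := hmin (BB N L φ) (adm_BB hm hL hR₀ hvm hφ)
    rw [energy_eq hm hL hvm hψ.1.1, energy_eq hm hL hvm (memLp_BB hL hφ.1).1, TT_BB hL] at h1
    set c : ℝ≥0∞ := ENNReal.ofReal (1 / (2 * m * L ^ 2)) with hc
    have hc0 : c ≠ 0 := by
      rw [hc, ne_eq, ENNReal.ofReal_eq_zero, not_le]
      positivity
    have hct : c ≠ ⊤ := ENNReal.ofReal_ne_top
    have h2 : c * tE (Vp m L v) (TT N L ψ) ≤ c * (ENNReal.ofReal (1 + s) * tE (Vp m L v) φ) := by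
      refine h1.trans (le_of_eq ?_)
      ring
    exact (ENNReal.mul_le_mul_iff_right hc0 hct).1 h2

end Pool.Agent.Lib.MP_4952d6_mp

end

/-! ### Final -/

section

set_option autoImplicit false
set_option linter.unusedSectionVars false
set_option linter.unusedVariables false
open MeasureTheory Function Filter Topology Set
open scoped ENNReal

namespace Pool.Agent.Lib.MP_4952d6_mp

lemma ptail_tr {u : ℝ → ℝ} (hu : Measurable u) (hu0 : ∀ r, 0 ≤ u r) {n R r₁ : ℝ} (hn : 0 ≤ n)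
    (hR : R ≤ r₁) : PTail (fun r => tr u n r₁ r - tr u n R r) R r₁ where
  R_le := hR
  w_meas := (tr_meas hu n r₁).sub (tr_meas hu n R)
  w_nonneg r := sub_nonneg.2 (tr_mono hu0 hn le_rfl hR r)
  w_bdd := ⟨n, hn, fun r => by
    have h1 := tr_le_n (u := u) hn r₁ r
    have h2 := tr_nonneg hu0 hn R r
    linarith⟩
  w_zero r hr := by
    unfold tr
    rw [if_pos hr, if_pos (hr.trans_le hR), sub_self]
  w_zero' r hr := by
    rw [tr_zero hr, tr_zero (hR.trans hr), sub_self]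

/-- Common part of the two regimes. -/
theorem core {u : ℝ → ℝ} (hu : Measurable u) (hu0 : ∀ r, 0 ≤ u r)
    (hi : IntegrableOn (fun r => r ^ 2 * u r) (Ioi (0:ℝ))) {R₀ : ℝ}
    {m : ℝ} (hm : 0 < m) {v : (Fin 3 → ℝ) → ℝ} (hv : Integrable v) (hv0 : ∀ x, 0 ≤ v x)
    {v₀ : ℝ → ℝ} (hrad : ∀ x, v x = v₀ (nr x)) (huv : ∀ᵐ r : ℝ, 0 < r → u r = m * v₀ r)
    {n R r₁ a : ℝ} {f Q : ℝ → ℝ} (hn : 0 ≤ n) (h : Scat (tr u n R) R₀ R a f Q) (hRr : R ≤ r₁)
    {A ρ : ℝ} (hA : 0 < A) (hρ : 0 < ρ) (haA : a ≤ A) (haA' : 9 / 10 * A ≤ a)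
    {N : ℕ} (hN : 2 ≤ N) (hNY : 1 ≤ N * Real.sqrt (ρ * A ^ 3)) (hr₁ : r₁ < side ρ N / 2)
    (hRd : 10 * R ≤ dl ρ A)
    (hQ1 : ((∫ r in Ioi (0:ℝ), r ^ 2 * tr u n r₁ r) - ∫ r in Ioi (0:ℝ), r ^ 2 * tr u n R r)
      * dl ρ A ^ 2 ≤ a * R ^ 2 / 100)
    (hQ2 : (∫ r in Ioi (0:ℝ), r ^ 2 * u r) ≤ (∫ r in Ioi (0:ℝ), r ^ 2 * tr u n r₁ r)
      - (a / R) * ((∫ r in Ioi (0:ℝ), r ^ 2 * tr u n r₁ r) - ∫ r in Ioi (0:ℝ), r ^ 2 * tr u n R r)
      + a ^ 2 / (10 * dl ρ A))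
    {ψ : (Fin N → Fin 3 → ℝ) → ℂ} (hψ : Admissible m R₀ v N (side ρ N) ψ) {s : ℝ} (hs0 : 0 ≤ s)
    (hs : s ≤ 36 * Real.sqrt (ρ * A ^ 3))
    (hmin : ∀ φ : (Fin N → Fin 3 → ℝ) → ℂ, Admissible m R₀ v N (side ρ N) φ →
      energy m v N (side ρ N) ψ ≤ ENNReal.ofReal (1 + s) * energy m v N (side ρ N) φ) :
    condFraction N (side ρ N) ψ ≤ 1 - 1 / 1000 * Real.sqrt (ρ * A ^ 3) := by
  have hN1 : 1 ≤ N := by omega
  have hN0 : (0:ℝ) < N := by exact_mod_cast hN1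
  have hd := dl_pos hρ hA
  have hY := Y_pos hρ hA
  have hR := h.R_pos
  have ha := h.a_pos
  have hσ := sig_pos
  have hL := side_pos hρ hN1
  have hL3 := side_cube hρ hN1
  set d : ℝ := dl ρ A with hddef
  set Y : ℝ := Real.sqrt (ρ * A ^ 3) with hYdef
  set L : ℝ := side ρ N with hLdef
  set w : ℝ → ℝ := fun r => tr u n r₁ r - tr u n R r with hw
  have ht : PTail w R r₁ := ptail_tr hu hu0 hn hRr
  have hr₁0 : 0 ≤ r₁ := hR.le.trans hRr
  have i1 := tr_int hu hu0 hi hn r₁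
  have i2 := tr_int hu hu0 hi hn R
  set I₁ : ℝ := ∫ r in Ioi (0:ℝ), r ^ 2 * tr u n r₁ r with hI₁
  set I₀ : ℝ := ∫ r in Ioi (0:ℝ), r ^ 2 * tr u n R r with hI₀
  have iw : IntegrableOn (fun r => r ^ 2 * w r) (Ioi (0:ℝ)) := by
    have := i1.sub i2
    refine this.congr (Eventually.of_forall fun r => ?_)
    simp only [Pi.sub_apply, hw]; ring
  have hIw : ∫ r in Ioi (0:ℝ), r ^ 2 * w r = I₁ - I₀ := by
    rw [hI₁, hI₀, ← integral_sub i1 i2]
    congr 1; ext r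
    simp only [hw]; ring
  -- the tail charge
  have hQo : Qo w f r₁ = ∫ r in Ioi (0:ℝ), r ^ 2 * w r * f r := by
    unfold Qo
    rw [intervalIntegral.integral_of_le hr₁0]
    refine (setIntegral_eq_of_subset_of_forall_sdiff_eq_zero measurableSet_Ioi
      Ioc_subset_Ioi_self fun r hr => ?_).symm
    have : r₁ ≤ r := by
      by_contra hcon
      push Not at hcon
      exact hr.2 ⟨hr.1, hcon.le⟩
    rw [ht.w_zero' r this]; ring
  have iwf : IntegrableOn (fun r => r ^ 2 * w r * f r) (Ioi (0:ℝ)) := by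
    refine Integrable.mono' iw (((measurable_id.pow_const 2).mul ht.w_meas).mul
      h.f_cont.measurable).aestronglyMeasurable (Eventually.of_forall fun r => ?_)
    have h1 : 0 ≤ r ^ 2 * w r := mul_nonneg (sq_nonneg r) (ht.w_nonneg r)
    rw [Real.norm_of_nonneg (mul_nonneg h1 (h.f_nonneg r))]
    exact mul_le_of_le_one_right h1 (h.f_le_one r)
  have hQle : Qo w f r₁ ≤ I₁ - I₀ := by
    rw [hQo, ← hIw]
    refine integral_mono iwf iw fun r => ?_
    exact mul_le_of_le_one_right (mul_nonneg (sq_nonneg r) (ht.w_nonneg r)) (h.f_le_one r)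
  have hQge : (1 - a / R) * (I₁ - I₀) ≤ Qo w f r₁ := by
    rw [hQo, ← hIw, ← integral_const_mul]
    refine setIntegral_mono_on (iw.const_mul _) iwf measurableSet_Ioi fun r hr => ?_
    have hr0 : 0 < r := hr
    rcases lt_or_ge r R with hrR | hrR
    · rw [ht.w_zero r hrR]; simp
    · rw [mul_comm]
      refine mul_le_mul_of_nonneg_left ?_ (mul_nonneg (sq_nonneg r) (ht.w_nonneg r))
      refine le_trans ?_ (h.f_ge r hr0)
      have : a / r ≤ a / R := div_le_div_of_nonneg_left ha.le hR hrR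
      linarith
  -- numbers
  have hAd := A_div_dl hρ hA
  rw [← hddef, ← hYdef] at hAd
  have had : 360 * Y ≤ a / d := by
    have h1 : 9 / 10 * (A / d) ≤ a / d := by
      rw [← mul_div_assoc]
      exact div_le_div_of_nonneg_right haA' hd.le
    linarith
  have hL40 : 40 * d < L := by
    have h1 : (40 * d) ^ 3 < L ^ 3 := by
      have h2 := cube_num hρ hA
      rw [← hddef, ← hYdef] at h2
      have h3 : L ^ 3 = N / ρ := by
        have : (L ^ 3) ≠ 0 := by positivity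
        rw [← hL3]; field_simp
      rw [h3, lt_div_iff₀ hρ]
      have h4 : 1000 * Y * (64000 * ρ * d ^ 3) < 1000 * Y * N := by nlinarith
      have h5 : 64000 * ρ * d ^ 3 < N := lt_of_mul_lt_mul_left h4 (by positivity)
      calc (40 * d) ^ 3 * ρ = 64000 * ρ * d ^ 3 := by ring
        _ < (N:ℝ) := h5
    exact lt_of_pow_lt_pow_left₀ 3 hL.le h1
  have hle : ∀ᵐ r : ℝ, 0 < r → tr u n R r + w r ≤ m * v₀ r := by
    filter_upwards [huv] with r hr hr0
    rw [← hr hr0]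
    have : tr u n R r + w r = tr u n r₁ r := by simp only [hw]; ring
    rw [this]
    exact tr_le hu0 n r₁ r
  have hmU : m * (∫ r in Ioi (0:ℝ), r ^ 2 * v₀ r) = ∫ r in Ioi (0:ℝ), r ^ 2 * u r := by
    rw [← integral_const_mul]
    refine setIntegral_congr_ae measurableSet_Ioi ?_
    filter_upwards [huv] with r hr hr0
    rw [hr hr0]; ring
  have key := phys_main h ht hm hv hv0 hrad hle (d := d) (L := L) hRd hL40 (by linarith)
    ((mul_le_mul_of_nonneg_right hQle (sq_nonneg d)).trans hQ1) (N := N) hN (by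
      rw [hL3]
      have h1 := dl_sq hρ hA
      rw [← hddef] at h1
      have h2 : ρ * (sig * (a * d ^ 2)) ≤ ρ * (sig * (A * d ^ 2)) := by gcongr
      have h3 : ρ * (sig * (A * d ^ 2)) = 1 / 12800 * (d ^ 2 * (12800 * sig * ρ * A)) := by ring
      rw [h1] at h3
      linarith) (by
      have h1 : a / (20 * d) = a / d / 20 := by field_simp
      rw [h1]
      have h2 : (N:ℝ) * (18 * Y) ≤ N * (a / d / 20) :=
        mul_le_mul_of_nonneg_left (by linarith) hN0.le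
      nlinarith) (by
      rw [hmU]
      refine hQ2.trans ?_
      have h1 : (1 - a / R) * (I₁ - I₀) = I₁ - I₀ - a / R * (I₁ - I₀) := by ring
      rw [h1] at hQge
      linarith) hψ hs0 (by
      have h1 : a / (10 * d) = a / d / 10 := by field_simp
      rw [h1]
      linarith) hmin
  rw [hL3] at key
  have h1 := depl_num hρ hA
  rw [← hddef, ← hYdef] at h1
  have h2 : ρ * sig * (9 / 10 * A) ^ 2 * d / 20 ≤ ρ * sig * a ^ 2 * d / 20 := by gcongr
  have h3 : ρ * sig * (9 / 10 * A) ^ 2 * d / 20 = 81 / 2000 * (ρ * sig * A ^ 2 * d) := by ring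
  linarith

end Pool.Agent.Lib.MP_4952d6_mp

end

/-! ### Final2 -/

section

set_option autoImplicit false
set_option linter.unusedSectionVars false
set_option linter.unusedVariables false
open MeasureTheory Function Filter Topology Set
open scoped ENNReal

namespace Pool.Agent.Lib.MP_4952d6_mp

lemma side_gt {ρ A : ℝ} (hρ : 0 < ρ) (hA : 0 < A) {N : ℕ} (hN1 : 1 ≤ N)
    (hNY : 1 ≤ N * Real.sqrt (ρ * A ^ 3)) : 40 * dl ρ A < side ρ N := by
  have hN0 : (0:ℝ) < N := by exact_mod_cast hN1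
  have hd := dl_pos hρ hA
  have hY := Y_pos hρ hA
  have hL := side_pos hρ hN1
  have hL3 := side_cube hρ hN1
  have h1 : (40 * dl ρ A) ^ 3 < side ρ N ^ 3 := by
    have h2 := cube_num hρ hA
    have h3 : side ρ N ^ 3 = N / ρ := by
      have : (side ρ N ^ 3) ≠ 0 := by positivity
      nth_rewrite 2 [← hL3]; field_simp
    rw [h3, lt_div_iff₀ hρ]
    have h4 : 1000 * Real.sqrt (ρ * A ^ 3) * (64000 * ρ * dl ρ A ^ 3)
        < 1000 * Real.sqrt (ρ * A ^ 3) * N := by nlinarith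
    have h5 : 64000 * ρ * dl ρ A ^ 3 < N := lt_of_mul_lt_mul_left h4 (by positivity)
    calc (40 * dl ρ A) ^ 3 * ρ = 64000 * ρ * dl ρ A ^ 3 := by ring
      _ < (N:ℝ) := h5
  exact lt_of_pow_lt_pow_left₀ 3 hL.le h1

/-- **Compactly supported interactions**, explicit thresholds. -/
theorem regimeA {m R₀ R : ℝ} {v : (Fin 3 → ℝ) → ℝ} (hm : 0 < m) (hR0 : 0 ≤ R₀) (hR : R₀ < R)
    (hv : Integrable v) (hv0 : ∀ x, 0 ≤ v x)
    (hrad : ∀ x y : Fin 3 → ℝ, ∑ α, x α ^ 2 = ∑ α, y α ^ 2 → v x = v y)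
    (hsupp : ∀ x : Fin 3 → ℝ, R ^ 2 ≤ ∑ α, x α ^ 2 → v x = 0)
    {ρ : ℝ} (hρ : 0 < ρ) (hρR : ρ * R ^ 3 ≤ 1 / 20000000) {N : ℕ}
    (hN : 1 ≤ N * Real.sqrt (ρ * scatLen m R₀ v ^ 3))
    {ψ : (Fin N → Fin 3 → ℝ) → ℂ} (hψ : Admissible m R₀ v N (side ρ N) ψ)
    (hmin : ∀ φ : (Fin N → Fin 3 → ℝ) → ℂ, Admissible m R₀ v N (side ρ N) φ →
      energy m v N (side ρ N) ψ ≤ ENNReal.ofReal (1 + 30 * Real.sqrt (ρ * scatLen m R₀ v ^ 3))
        * energy m v N (side ρ N) φ) :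
    condFraction N (side ρ N) ψ ≤ 1 - 1 / 1000 * Real.sqrt (ρ * scatLen m R₀ v ^ 3) := by
  have hRpos : 0 < R := hR0.trans_lt hR
  obtain ⟨g, hgm, hg0, hg⟩ := exists_rep hv hv0 hrad
  set u : ℝ → ℝ := fun r => if r < R then m * g r else 0 with hu
  have hum : Measurable u := Measurable.ite measurableSet_Iio (hgm.const_mul m) measurable_const
  have hu0 : ∀ r, 0 ≤ u r := fun r => by
    simp only [hu]; split_ifs
    · exact mul_nonneg hm.le (hg0 r)
    · exact le_rfl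
  have huR : ∀ r, R ≤ r → u r = 0 := fun r hr => by
    simp only [hu]; rw [if_neg (not_lt.2 hr)]
  have huv : ∀ᵐ r : ℝ, 0 < r → u r = m * prof v r := by
    filter_upwards [hg] with r hr hr0
    simp only [hu]
    split_ifs with h
    · rw [hr hr0]
    · have : prof v r = 0 := by
        refine hsupp _ ?_
        simp [Fin.sum_univ_three]
        push Not at h
        exact pow_le_pow_left₀ hRpos.le h 2
      rw [this, mul_zero]
  have hradp : ∀ x, v x = prof v (nr x) := prof_eq hrad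
  have hIv : IntegrableOn (fun r => r ^ 2 * prof v r) (Ioi (0:ℝ)) := by
    rw [← integrable_nr]
    exact hv.congr (Eventually.of_forall hradp)
  have hi : IntegrableOn (fun r => r ^ 2 * u r) (Ioi (0:ℝ)) := by
    refine (hIv.const_mul m).congr ((ae_restrict_iff' measurableSet_Ioi).2 ?_)
    filter_upwards [huv] with r hr hr0
    rw [hr hr0]; ring
  have hUv : ∫ x, v x = sig / m * ∫ r in Ioi (0:ℝ), r ^ 2 * u r := by
    have e1 : ∫ x, v x = sig * ∫ r in Ioi (0:ℝ), r ^ 2 * prof v r := by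
      rw [← integral_nr]
      exact integral_congr_ae (Eventually.of_forall hradp)
    have e2 : ∫ r in Ioi (0:ℝ), r ^ 2 * u r = m * ∫ r in Ioi (0:ℝ), r ^ 2 * prof v r := by
      rw [← integral_const_mul]
      refine setIntegral_congr_ae measurableSet_Ioi ?_
      filter_upwards [huv] with r hr hr0
      rw [hr hr0]; ring
    rw [e1, e2]; field_simp
  set U : ℝ := ∫ r in Ioi (0:ℝ), r ^ 2 * u r with hU
  set al : ℝ := scatLen m R₀ v with hal
  have hN0 : (0:ℝ) < N := by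
    rcases Nat.eq_zero_or_pos N with h | h
    · rw [h] at hN; norm_num at hN
    · exact_mod_cast h
  have hN1 : 1 ≤ N := by exact_mod_cast hN0
  by_cases hgen : 0 < R₀ ∨ 0 < U
  swap
  · exfalso
    push Not at hgen
    have h0 : R₀ = 0 := le_antisymm hgen.1 hR0
    have h1 : al ≤ 0 := by
      rw [hal, h0]
      refine scatLen_nongen hv hv0 hm ?_
      rw [hUv]
      exact mul_nonpos_of_nonneg_of_nonpos (by have := sig_pos; positivity) hgen.2
    have h2 : ρ * al ^ 3 ≤ 0 := mul_nonpos_of_nonneg_of_nonpos hρ.le (Odd.pow_nonpos (by decide) h1)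
    rw [Real.sqrt_eq_zero_of_nonpos h2] at hN
    norm_num at hN
  obtain ⟨A, hA, halA, hup, hlow⟩ := exists_data hum hu0 hi hR0 hgen hm hv hv0 hradp huv
  obtain ⟨k, hk1, hk⟩ := hlow (9 / 10 * A) (by linarith)
  have hd := dl_pos hρ hA
  have hσ := sig_pos
  obtain ⟨k₂, hk₂1, hk₂⟩ := tr_small hum hu0 hi
    (show 0 < (9 / 10 * A) ^ 2 / (10 * dl ρ A) by positivity)
  set n : ℝ := max k k₂ with hn
  set K : ℝ := max n R with hK
  have hn1 : 1 ≤ n := hk1.trans (le_max_left _ _)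
  have hn0 : 0 ≤ n := by linarith
  have hfun : tr u n K = tr u n R := by
    funext r
    unfold tr
    by_cases h1 : r < R
    · rw [if_pos h1, if_pos (h1.trans_le (le_max_right _ _))]
    · rw [if_neg h1, huR r (not_lt.1 h1), min_eq_left hn0]
      split_ifs <;> rfl
  obtain ⟨a', f', Q', h', hca'⟩ := hk n K (le_max_left _ _)
    ((le_max_left _ _).trans (le_max_left _ _)) (hR.trans_le (le_max_right _ _))
  have hgen' : 0 < R₀ ∨ 0 < ∫ r in Ioi (0:ℝ), r ^ 2 * tr u n R r := by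
    rcases hR0.eq_or_lt with h0 | h0
    · right
      have h1 := h'.a_le_int
      rw [← h0, zero_add, tr_integral_Ioi (hRpos.le.trans (le_max_right _ _)), hfun] at h1
      exact h'.a_pos.trans_le h1
    · exact Or.inl h0
  obtain ⟨a, f, Q, h⟩ := scat_tr hum hu0 hR0 hn0 hR hgen'
  have haa : a' ≤ a := h.mono h' fun r _ => le_of_eq (by rw [hfun])
  have haA' : 9 / 10 * A ≤ a := hca'.le.trans haa
  have haA : a ≤ A := hup n R a f Q hn0 h
  have haR : a ≤ R := h.a_le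
  have hsm := sqrt_mono (ρ := ρ) hρ halA
  have hNY : 1 ≤ N * Real.sqrt (ρ * A ^ 3) := hN.trans (mul_le_mul_of_nonneg_left hsm hN0.le)
  have hside := side_gt hρ hA hN1 hNY
  have hRd : 10 * R ≤ dl ρ A := by
    have h1 : (10 * R) ^ 2 ≤ dl ρ A ^ 2 := by
      have h2 := dl_sq hρ hA
      have h3 : (10 * R) ^ 2 * (12800 * sig * ρ * A) ≤ dl ρ A ^ 2 * (12800 * sig * ρ * A) := by
        rw [h2]
        have h4 : A ≤ 10 / 9 * R := by linarith
        have h5 : sig ≤ 63 / 5 := by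
          rw [sig_eq]
          have := Real.pi_lt_d2
          linarith
        calc (10 * R) ^ 2 * (12800 * sig * ρ * A) ≤ (10 * R) ^ 2 * (12800 * (63 / 5) * ρ * (10 / 9 * R)) := by
              gcongr
          _ = 17920000 * (ρ * R ^ 3) := by ring
          _ ≤ 1 := by linarith
      exact le_of_mul_le_mul_right h3 (by positivity)
    exact (pow_le_pow_iff_left₀ (by positivity) hd.le two_ne_zero).1 h1
  have hN2 : 2 ≤ N := by
    have h1 : Real.sqrt (ρ * A ^ 3) ≤ 1 / 1000 := by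
      rw [Real.sqrt_le_left (by norm_num)]
      have h4 : A ≤ 10 / 9 * R := by linarith
      calc ρ * A ^ 3 ≤ ρ * (10 / 9 * R) ^ 3 := by gcongr
        _ = 1000 / 729 * (ρ * R ^ 3) := by ring
        _ ≤ (1 / 1000) ^ 2 := by linarith
    have h2 : (1:ℝ) ≤ N * (1 / 1000) := hNY.trans (mul_le_mul_of_nonneg_left h1 hN0.le)
    have h3 : (1000:ℝ) ≤ N := by linarith
    have h4 : 1000 ≤ N := by exact_mod_cast h3
    omega
  have hfin := core hum hu0 hi hm hv hv0 hradp huv hn0 h le_rfl hA hρ haA haA' hN2 hNY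
    (by linarith) hRd (by
      rw [sub_self, zero_mul]
      have := h.a_pos
      positivity) (by
      rw [sub_self, mul_zero, sub_zero]
      have h1 := hk₂ n K (le_max_right _ _) ((le_max_right _ _).trans (le_max_left _ _))
      rw [hfun] at h1
      have h2 : (9 / 10 * A) ^ 2 / (10 * dl ρ A) ≤ a ^ 2 / (10 * dl ρ A) := by gcongr
      linarith) hψ (s := 30 * Real.sqrt (ρ * al ^ 3)) (by positivity) (by
      have := Real.sqrt_nonneg (ρ * A ^ 3)
      linarith) hmin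
  linarith

/-- **General integrable interactions.** -/
theorem regimeB {m R₀ : ℝ} {v : (Fin 3 → ℝ) → ℝ} (hm : 0 < m) (hR0 : 0 ≤ R₀)
    (hv : Integrable v) (hv0 : ∀ x, 0 ≤ v x)
    (hrad : ∀ x y : Fin 3 → ℝ, ∑ α, x α ^ 2 = ∑ α, y α ^ 2 → v x = v y) :
    ∃ ρ₁ : ℝ, 0 < ρ₁ ∧ ∀ ρ : ℝ, 0 < ρ → ρ < ρ₁ → ∃ N₁ : ℕ, ∀ N : ℕ, N₁ ≤ N →
      ∀ ψ : (Fin N → Fin 3 → ℝ) → ℂ, Admissible m R₀ v N (side ρ N) ψ →
        (∀ φ : (Fin N → Fin 3 → ℝ) → ℂ, Admissible m R₀ v N (side ρ N) φ →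
          energy m v N (side ρ N) ψ
            ≤ ENNReal.ofReal (1 + 30 * Real.sqrt (ρ * scatLen m R₀ v ^ 3))
              * energy m v N (side ρ N) φ) →
        condFraction N (side ρ N) ψ ≤ 1 - 1 / 1000 * Real.sqrt (ρ * scatLen m R₀ v ^ 3) := by
  obtain ⟨g, hgm, hg0, hg⟩ := exists_rep hv hv0 hrad
  set u : ℝ → ℝ := fun r => m * g r with hu
  have hum : Measurable u := hgm.const_mul m
  have hu0 : ∀ r, 0 ≤ u r := fun r => mul_nonneg hm.le (hg0 r)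
  have huv : ∀ᵐ r : ℝ, 0 < r → u r = m * prof v r := by
    filter_upwards [hg] with r hr hr0
    simp only [hu]
    rw [hr hr0]
  have hradp : ∀ x, v x = prof v (nr x) := prof_eq hrad
  have hIv : IntegrableOn (fun r => r ^ 2 * prof v r) (Ioi (0:ℝ)) := by
    rw [← integrable_nr]
    exact hv.congr (Eventually.of_forall hradp)
  have hi : IntegrableOn (fun r => r ^ 2 * u r) (Ioi (0:ℝ)) := by
    refine (hIv.const_mul m).congr ((ae_restrict_iff' measurableSet_Ioi).2 ?_)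
    filter_upwards [huv] with r hr hr0
    rw [hr hr0]; ring
  have hUv : ∫ x, v x = sig / m * ∫ r in Ioi (0:ℝ), r ^ 2 * u r := by
    have e1 : ∫ x, v x = sig * ∫ r in Ioi (0:ℝ), r ^ 2 * prof v r := by
      rw [← integral_nr]
      exact integral_congr_ae (Eventually.of_forall hradp)
    have e2 : ∫ r in Ioi (0:ℝ), r ^ 2 * u r = m * ∫ r in Ioi (0:ℝ), r ^ 2 * prof v r := by
      rw [← integral_const_mul]
      refine setIntegral_congr_ae measurableSet_Ioi ?_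
      filter_upwards [huv] with r hr hr0
      rw [hr hr0]; ring
    rw [e1, e2]; field_simp
  set U : ℝ := ∫ r in Ioi (0:ℝ), r ^ 2 * u r with hU
  set al : ℝ := scatLen m R₀ v with hal
  by_cases hgen : 0 < R₀ ∨ 0 < U
  swap
  · push Not at hgen
    have h0 : R₀ = 0 := le_antisymm hgen.1 hR0
    have h1 : al ≤ 0 := by
      rw [hal, h0]
      refine scatLen_nongen hv hv0 hm ?_
      rw [hUv]
      exact mul_nonpos_of_nonneg_of_nonpos (by have := sig_pos; positivity) hgen.2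
    refine ⟨1, one_pos, fun ρ hρ _ => ⟨1, fun N hN ψ hψ _ => ?_⟩⟩
    have h2 : ρ * al ^ 3 ≤ 0 := mul_nonpos_of_nonneg_of_nonpos hρ.le (Odd.pow_nonpos (by decide) h1)
    rw [Real.sqrt_eq_zero_of_nonpos h2, mul_zero, sub_zero,
      condFraction_eq hN (side_pos hρ hN) hψ]
    have : 0 ≤ (∑ i, nuQ (fc (TT N (side ρ N) ψ)) i) / N :=
      div_nonneg (Finset.sum_nonneg fun i _ => nuQ_nonneg _ _) (Nat.cast_nonneg _)
    linarith
  obtain ⟨A, hA, halA, hup, hlow⟩ := exists_data hum hu0 hi hR0 hgen hm hv hv0 hradp huv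
  obtain ⟨k, hk1, hk⟩ := hlow (9 / 10 * A) (by linarith)
  have hσ := sig_pos
  obtain ⟨k₁, hk₁1, hk₁⟩ := tr_small hum hu0 hi (show 0 < 9 / 10 * A / 10000 by positivity)
  set κ : ℝ := max (max k k₁) (R₀ + 1) with hκ
  have hκk : k ≤ κ := (le_max_left _ _).trans (le_max_left _ _)
  have hκk₁ : k₁ ≤ κ := (le_max_right _ _).trans (le_max_left _ _)
  have hκR : R₀ + 1 ≤ κ := le_max_right _ _
  have hκ0 : 0 < κ := by linarith
  refine ⟨1 / (12800 * sig * A * (100 * κ ^ 2)), by positivity, fun ρ hρ hρ1 => ?_⟩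
  have hd := dl_pos hρ hA
  have hY := Y_pos hρ hA
  set d : ℝ := dl ρ A with hddef
  have hdκ : 10 * κ ≤ d := by
    have h1 : (10 * κ) ^ 2 ≤ d ^ 2 := by
      have h2 := dl_sq hρ hA
      have h3 : (10 * κ) ^ 2 * (12800 * sig * ρ * A) ≤ d ^ 2 * (12800 * sig * ρ * A) := by
        rw [hddef, h2]
        rw [lt_div_iff₀ (by positivity)] at hρ1
        calc (10 * κ) ^ 2 * (12800 * sig * ρ * A) = ρ * (12800 * sig * A * (100 * κ ^ 2)) := by ring
          _ ≤ 1 := hρ1.le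
      exact le_of_mul_le_mul_right h3 (by positivity)
    exact (pow_le_pow_iff_left₀ (by positivity) hd.le two_ne_zero).1 h1
  set R : ℝ := d / 10 with hRdef
  have hκRR : κ ≤ R := by rw [hRdef]; linarith
  have hRpos : 0 < R := hκ0.trans_le hκRR
  have hR0R : R₀ < R := by linarith
  obtain ⟨k₂, hk₂1, hk₂⟩ := tr_small hum hu0 hi
    (show 0 < (9 / 10 * A) ^ 2 / (20 * d) by positivity)
  set n : ℝ := max κ k₂ with hn
  have hn0 : 0 ≤ n := hκ0.le.trans (le_max_left _ _)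
  have hnk : k ≤ n := hκk.trans (le_max_left _ _)
  have hnk₁ : k₁ ≤ n := hκk₁.trans (le_max_left _ _)
  have hnk₂ : k₂ ≤ n := le_max_right _ _
  obtain ⟨a, f, Q, h, hca⟩ := hk n R hnk (hκk.trans hκRR) hR0R
  have haA : a ≤ A := hup n R a f Q hn0 h
  have ha := h.a_pos
  set T : ℝ := max k₂ R with hT
  have hT0 : 0 < T := hRpos.trans_le (le_max_right _ _)
  obtain ⟨N₁, hN₁⟩ := exists_nat_ge (max 2 (max (1 / Real.sqrt (ρ * A ^ 3)) (ρ * (4 * T) ^ 3)))
  refine ⟨N₁, fun N hN ψ hψ hmin => ?_⟩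
  have hNr : (N₁:ℝ) ≤ N := by exact_mod_cast hN
  have h2 : (2:ℝ) ≤ N := (le_max_left _ _).trans (hN₁.trans hNr)
  have hN2 : 2 ≤ N := by exact_mod_cast h2
  have hN1 : 1 ≤ N := by omega
  have hN0 : (0:ℝ) < N := by linarith
  have hNY : 1 ≤ N * Real.sqrt (ρ * A ^ 3) := by
    have h3 : 1 / Real.sqrt (ρ * A ^ 3) ≤ N :=
      ((le_max_left _ _).trans (le_max_right _ _)).trans (hN₁.trans hNr)
    rwa [div_le_iff₀ hY] at h3
  have hNT : 4 * T ≤ side ρ N := by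
    have h3 : ρ * (4 * T) ^ 3 ≤ N :=
      ((le_max_right _ _).trans (le_max_right _ _)).trans (hN₁.trans hNr)
    have hL := side_pos hρ hN1
    have hL3 := side_cube hρ hN1
    have h4 : (4 * T) ^ 3 ≤ side ρ N ^ 3 := by
      rw [div_eq_iff (by positivity)] at hL3
      rw [hL3] at h3
      exact le_of_mul_le_mul_left h3 hρ
    exact (pow_le_pow_iff_left₀ (by positivity) hL.le three_ne_zero).1 h4
  have hL := side_pos hρ hN1
  set r₁ : ℝ := side ρ N / 4 with hr₁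
  have hTr : T ≤ r₁ := by rw [hr₁]; linarith
  have hRr : R ≤ r₁ := (le_max_right _ _).trans hTr
  have hI₁ : ∫ r in Ioi (0:ℝ), r ^ 2 * tr u n r₁ r ≤ U :=
    integral_mono (tr_int hum hu0 hi hn0 r₁) hi fun r =>
      mul_le_mul_of_nonneg_left (tr_le hu0 n r₁ r) (sq_nonneg r)
  have hI₀ := hk₁ n R hnk₁ (hκk₁.trans hκRR)
  have hI₁' := hk₂ n r₁ hnk₂ ((le_max_left _ _).trans hTr)
  have hI₀₁ : ∫ r in Ioi (0:ℝ), r ^ 2 * tr u n R r ≤ ∫ r in Ioi (0:ℝ), r ^ 2 * tr u n r₁ r :=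
    integral_mono (tr_int hum hu0 hi hn0 R) (tr_int hum hu0 hi hn0 r₁) fun r =>
      mul_le_mul_of_nonneg_left (tr_mono hu0 hn0 le_rfl hRr r) (sq_nonneg r)
  set I₁ : ℝ := ∫ r in Ioi (0:ℝ), r ^ 2 * tr u n r₁ r with hI₁def
  set I₀ : ℝ := ∫ r in Ioi (0:ℝ), r ^ 2 * tr u n R r with hI₀def
  have hμ : I₁ - I₀ ≤ a / 10000 := by
    have : 9 / 10 * A / 10000 ≤ a / 10000 := by linarith
    linarith
  have hfin := core hum hu0 hi hm hv hv0 hradp huv hn0 h hRr hA hρ haA hca.le hN2 hNY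
    (by rw [hr₁]; linarith) (by rw [← hddef, hRdef]; linarith) (by
      rw [← hddef, hRdef]
      have h3 := mul_le_mul_of_nonneg_right hμ (sq_nonneg d)
      calc (I₁ - I₀) * d ^ 2 ≤ a / 10000 * d ^ 2 := h3
        _ = a * (d / 10) ^ 2 / 100 := by ring) (by
      rw [← hddef]
      have h3 : (9 / 10 * A) ^ 2 / (20 * d) ≤ a ^ 2 / (20 * d) := by
        have := hca.le
        gcongr
      have h4 : a / R * (I₁ - I₀) ≤ a / R * (a / 10000) := mul_le_mul_of_nonneg_left hμ (by positivity)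
      have h5 : a / R * (a / 10000) = a ^ 2 / (1000 * d) := by
        rw [hRdef]; field_simp; norm_num
      have h6 : a ^ 2 / (10 * d) = a ^ 2 / (20 * d) + 50 * (a ^ 2 / (1000 * d)) := by
        field_simp; norm_num
      have h7 : 0 ≤ a ^ 2 / (1000 * d) := by positivity
      linarith) hψ (s := 30 * Real.sqrt (ρ * al ^ 3)) (by positivity) (by
      have h3 := sqrt_mono (ρ := ρ) hρ halA
      have := Real.sqrt_nonneg (ρ * A ^ 3)
      linarith) hmin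
  have h3 := sqrt_mono (ρ := ρ) hρ halA
  linarith

end Pool.Agent.Lib.MP_4952d6_mp

end

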